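import Pool.Agent.H86.AL.SR

/-!
# Groups of Lie type: Suzuki-Ree types, short form of the definitions (MP_978914_al)

`B₂`, `G₂`, `F₄` are folded diagrams `A₃`, `D₄`, `E₆` with a symmetry `ρ` of order `p = 2, 3, 2`; the group
of this type over a field `K` of characteristic `p` is `Fold σ₀`, where `σ₀` is the endomorphism of the
universal group of type `A₃`, `D₄`, `E₆` given by `ρ` (and the identity of `K`). Its root elements for the
simple roots and their negatives are `yp`, `ym`. The matrices and the maps `τ` are in `H86/UM/ZT.lean`.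
-/

set_option autoImplicit false

universe u

namespace Pool.Agent.H75.LT

open Pool.Agent.H75.UL Pool.Agent.H86.UM

section
variable {n : ℕ} {C : SLC n} {K : Type u} [Field K]

/-- The folded group: the group generated by the `σ₀`-fixed points of `U⁺` and `U⁻`. -/
def Fold (σ₀ : GU C K →* GU C K) : Type u := fixGroup σ₀

/-- The group structure of the subgroup `fixGroup σ₀`. -/
def groupFold (σ₀ : GU C K →* GU C K) : Group (Fold σ₀) := Subgroup.toGroup (fixGroup σ₀)

instance (σ₀ : GU C K →* GU C K) : Group (Fold σ₀) := groupFold σ₀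

/-- The element of the universal group. -/
def Fold.val {σ₀ : GU C K →* GU C K} (x : Fold σ₀) : GU C K := Subtype.val x

/-- `σ` maps `y_(±i)(t)` to `y_(±τ i)(θ⁻¹ t)` if `i` is fixed by `ρ` (long simple roots) and to
`y_(±τ i)(θ t)` otherwise (short simple roots). (These elements generate the group, so `σ` is determined
by `τ` and `θ`.) -/
structure IsSigmaF (ρ : Equiv.Perm (Fin n)) (τ : Fin n → Fin n) (θ : K ≃+* K)
    {σ₀ : GU C K →* GU C K} (σ : Fold σ₀ →* Fold σ₀) : Prop where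
  pos : ∀ (i : Fin n) (t : K) (x : Fold σ₀), x.val = yp C ρ i t →
    (σ x).val = yp C ρ (τ i) (if ρ i = i then θ.symm t else θ t)
  neg : ∀ (i : Fin n) (t : K) (x : Fold σ₀), x.val = ym C ρ i t →
    (σ x).val = ym C ρ (τ i) (if ρ i = i then θ.symm t else θ t)

/-- The subgroup of the folded group generated by the `σ`-fixed points of `U⁺` and of `U⁻`. -/
def sigGroup {σ₀ : GU C K →* GU C K} (σ : Fold σ₀ →* Fold σ₀) : Subgroup (Fold σ₀) :=
  Subgroup.closure {g | σ g = g ∧ (g.val ∈ Up C K ∨ g.val ∈ Um C K)}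

end

/-- `G` is isomorphic to the quotient of `H` by a central subgroup. -/
def IsCentralQuotient (H : Type u) [Group H] (G : Type u) [Group G] : Prop :=
  ∃ f : H →* G, Function.Surjective f ∧ f.ker ≤ Subgroup.center H

/-- `G` is a group of Suzuki-Ree type: it is isomorphic to the quotient of the group generated by the
`σ`-fixed points of `U⁺` and `U⁻` in the folded group over a field `K` of characteristic `p` by a central
subgroup, where `θ` is an automorphism of `K` with `θ² = (x ↦ x ^ p)`. -/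
def IsSuzukiRee {n : ℕ} (C : SLC n) (ρ : Equiv.Perm (Fin n)) (τ : Fin n → Fin n) (p : ℕ)
    (G : Type u) [Group G] : Prop :=
  ∃ (K : Type u) (_ : Field K) (θ : K ≃+* K) (σ₀ : GU C K →* GU C K) (σ : Fold σ₀ →* Fold σ₀),
    CharP K p ∧ (∀ x, θ (θ x) = x ^ p) ∧ IsSigma ρ (RingEquiv.refl K) σ₀ ∧ IsSigmaF ρ τ θ σ ∧
    IsCentralQuotient (sigGroup σ) G

/-- `G` is a group of Lie type of rank `r`: untwisted, of Steinberg type, or of Suzuki-Ree type
(`²B₂` and `²G₂` have rank `1`, `²F₄` has rank `2`). -/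
def IsLieTypeGroup (r : ℕ) (G : Type u) [Group G] : Prop :=
  IsLie r G ∨ (r = 1 ∧ IsSuzukiRee cA3 dA3.ρ tA3 2 G) ∨ (r = 1 ∧ IsSuzukiRee cD4 dD4.ρ tD4 3 G) ∨
    (r = 2 ∧ IsSuzukiRee cE6 dE6.ρ tE6 2 G)

theorem isSuzukiRee_iff {n : ℕ} (C : SLC n) (ρ : Equiv.Perm (Fin n)) (τ : Fin n → Fin n) (p : ℕ)
    (G : Type u) [Group G] : IsSuzukiRee C ρ τ p G ↔ IsSR C ρ τ p G := by
  constructor
  · rintro ⟨K, i, θ, σ₀, σ, h1, h2, h3, h4, f, h5, h6⟩
    exact ⟨K, i, θ, σ₀, σ, h1, h2, h3, ⟨h4.pos, h4.neg⟩, f, h5, h6⟩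
  · rintro ⟨K, i, θ, σ₀, σ, h1, h2, h3, h4, f, h5, h6⟩
    exact ⟨K, i, θ, σ₀, σ, h1, h2, h3, ⟨h4.pos, h4.neg⟩, f, h5, h6⟩

theorem isLieTypeGroup_iff (r : ℕ) (G : Type u) [Group G] :
    IsLieTypeGroup r G ↔ IsLieType r G := by
  unfold IsLieTypeGroup IsLieType
  rw [isSuzukiRee_iff, isSuzukiRee_iff, isSuzukiRee_iff]

end Pool.Agent.H75.LT
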