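import Pool.Agent.H86.AL.M01

/-!
# M02: collected modules

Pool.Agent.H75.UL.R2
Pool.Agent.H75.UL.R4a
Pool.Agent.H75.UL.S1
Pool.Agent.H75.UL.L1
Pool.Agent.H75.UL.S2
Pool.Agent.H75.UL.S3
Pool.Agent.H75.UL.R4b
Pool.Agent.H75.UL.S5
Pool.Agent.H75.UL.S6
Pool.Agent.H75.UL.R5
Pool.Agent.H75.UL.T1
-/

section
/- module Pool.Agent.H75.UL.R2 -/
/-!
# Project UL (MP_978914_al), module R2

Positivity of roots.

`pos_or_neg`: write `v = p - q` with `p i = max (v i) 0`, `q i = max (-v i) 0`. `ip p q ≤ 0` (the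
diagonal terms `p i * 2 * q i` vanish, the others are `≤ 0` by `C.off`). If `p ≠ 0` and `q ≠ 0` then
`ip p p ≥ 2` and `ip q q ≥ 2` (positive and even: `ip w w = 2 * hf w w` by `hf_add_hf`), so
`2 = ip v v = ip p p + ip q q - 2 ip p q ≥ 4`, contradiction.
`exists_descent`: `0 < 2 = ip β β = ∑ i, β_i * ip α_i β` (`sum_ip_single`) with all `β_i ≥ 0`, so some
`i` has `β_i > 0` and `ip α_i β > 0`; it is not `2` (`ip_eq_two_iff`), so it is `1` and
`γ = β - α_i` is a root (`exists_sub`). Some `β_j > 0` with `j ≠ i` (otherwise `β = β_i • α_i`, norm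
`2 β_i^2 = 2`, so `β = α_i`), hence `γ_j > 0` and `γ` is positive by `pos_or_neg`.
`refl_simple_pos`: the reflection in `α_i` changes only the `i`-th coordinate; some `β_j > 0`, `j ≠ i`.
-/

set_option autoImplicit false
open Matrix
universe u
namespace Pool.Agent.H75.UL

namespace SLC
variable {n : ℕ} (C : SLC n)

private theorem R2_two_le (w : Fin n → ℤ) (h : w ≠ 0) : 2 ≤ C.ip w w := by
  have h1 := C.ip_pos w h
  have h2 := C.hf_add_hf w w
  omega

private theorem R2_ip_sum (v w : Fin n → ℤ) : C.ip v w = ∑ i, ∑ j, v i * (C.A i j * w j) := by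
  unfold ip
  simp only [dotProduct, mulVec, Finset.mul_sum]

private theorem R2_ip_nonpos (p q : Fin n → ℤ) (hp : ∀ i, 0 ≤ p i) (hq : ∀ i, 0 ≤ q i)
    (h : ∀ i, p i * q i = 0) : C.ip p q ≤ 0 := by
  rw [R2_ip_sum]
  refine Finset.sum_nonpos fun i _ => Finset.sum_nonpos fun j _ => ?_
  by_cases hij : i = j
  · subst hij
    have h1 : p i * (C.A i i * q i) = C.A i i * (p i * q i) := by ring
    rw [h1, h i, mul_zero]
  · have h1 : 0 ≤ p i * q j := mul_nonneg (hp i) (hq j)
    rcases C.off i j hij with h2 | h2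
    · rw [h2]
      simp
    · rw [h2]
      have h3 : p i * (-1 * q j) = -(p i * q j) := by ring
      rw [h3]
      omega

theorem pos_or_neg (β : C.Root) : (∀ i, 0 ≤ β.1 i) ∨ (∀ i, β.1 i ≤ 0) := by
  by_contra hcon
  rw [not_or] at hcon
  obtain ⟨h1, h2⟩ := hcon
  simp only [not_forall, not_le] at h1 h2
  obtain ⟨i, hi⟩ := h1
  obtain ⟨j, hj⟩ := h2
  have hpq : β.1 = (fun i => max (β.1 i) 0) - (fun i => max (-β.1 i) 0) := by
    funext k
    simp only [Pi.sub_apply]
    omega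
  have h3 := C.R2_ip_nonpos (fun i => max (β.1 i) 0) (fun i => max (-β.1 i) 0)
    (fun k => le_max_right _ _) (fun k => le_max_right _ _) (fun k => by
      rcases le_total (β.1 k) 0 with h | h
      · simp [max_eq_right h]
      · have h' : -β.1 k ≤ 0 := by omega
        simp [max_eq_right h'])
  have h4 := C.R2_two_le (fun i => max (β.1 i) 0) (fun h => by
    have := congrFun h j
    simp only [Pi.zero_apply] at this
    omega)
  have h5 := C.R2_two_le (fun i => max (-β.1 i) 0) (fun h => by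
    have := congrFun h i
    simp only [Pi.zero_apply] at this
    omega)
  have h6 := β.2
  rw [hpq, ip_sub_left, ip_sub_right, ip_sub_right,
    C.ip_comm (fun i => max (-β.1 i) 0) (fun i => max (β.1 i) 0)] at h6
  omega

private theorem R2_ht_pos (v : Fin n → ℤ) (h : ∀ i, 0 ≤ v i) (h0 : v ≠ 0) : 0 < ht v := by
  obtain ⟨i, hi⟩ := Function.ne_iff.mp h0
  have h1 : v i ≤ ht v := Finset.single_le_sum (f := v) (fun j _ => h j) (Finset.mem_univ i)
  have h2 := h i
  have h3 : v i ≠ 0 := hi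
  omega

theorem pos_iff (β : C.Root) : C.Pos β ↔ ∀ i, 0 ≤ β.1 i := by
  constructor
  · intro h
    rcases C.pos_or_neg β with h1 | h1
    · exact h1
    · exfalso
      have h2 : ht β.1 ≤ 0 := Finset.sum_nonpos fun i _ => h1 i
      unfold Pos at h
      omega
  · intro h
    exact R2_ht_pos β.1 h (C.root_ne_zero β)

theorem ht_ne_zero (β : C.Root) : ht β.1 ≠ 0 := by
  rcases C.pos_or_neg β with h | h
  · have := (C.pos_iff β).mpr h
    unfold Pos at this
    omega
  · have h1 : C.Pos (-β) := (C.pos_iff (-β)).mpr fun i => by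
      have := h i
      simp only [Root.neg_val, Pi.neg_apply]
      omega
    unfold Pos at h1
    rw [Root.neg_val, ht_neg] at h1
    omega

theorem not_pos_iff (β : C.Root) : ¬ C.Pos β ↔ C.Pos (-β) := by
  have h := C.ht_ne_zero β
  unfold Pos
  rw [Root.neg_val, ht_neg]
  omega

private theorem R2_eq_smul (v : Fin n → ℤ) (i : Fin n) (h : ∀ j, j ≠ i → v j = 0) :
    v = v i • (Pi.single i 1 : Fin n → ℤ) := by
  funext j
  by_cases hj : j = i
  · subst hj
    simp
  · simp [h j hj, Pi.single_eq_of_ne hj]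

private theorem R2_supp_one (β : C.Root) (i : Fin n) (h : ∀ j, j ≠ i → β.1 j = 0) :
    β = C.simple i ∨ β = -(C.simple i) := by
  have h1 := R2_eq_smul β.1 i h
  have h2 := β.2
  rw [h1, ip_smul_left, ip_smul_right, ip_single, C.diag] at h2
  have h3 : β.1 i * β.1 i = 1 := by
    have h4 : (β.1 i * β.1 i - 1) * 2 = 0 := by linear_combination h2
    rcases mul_eq_zero.mp h4 with h5 | h5
    · omega
    · omega
  rcases mul_self_eq_one_iff.mp h3 with h4 | h4
  · left
    apply Root.ext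
    rw [h1, h4, simple_val, one_smul]
  · right
    apply Root.ext
    rw [h1, h4, Root.neg_val, simple_val]
    module

theorem eq_simple_of_ht_one (β : C.Root) (h : ht β.1 = 1) : ∃ i, β = C.simple i := by
  have hp : C.Pos β := by
    unfold Pos
    omega
  have h0 := (C.pos_iff β).mp hp
  obtain ⟨i, hi⟩ := Function.ne_iff.mp (C.root_ne_zero β)
  have hi' : β.1 i ≠ 0 := hi
  have h1 := h0 i
  have hz : ∀ j, j ≠ i → β.1 j = 0 := by
    intro j hj
    have h2 : β.1 i + ∑ k ∈ Finset.univ.erase i, β.1 k = ht β.1 :=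
      Finset.add_sum_erase Finset.univ β.1 (Finset.mem_univ i)
    have h3 : β.1 j ≤ ∑ k ∈ Finset.univ.erase i, β.1 k :=
      Finset.single_le_sum (f := β.1) (fun k _ => h0 k)
        (Finset.mem_erase.mpr ⟨hj, Finset.mem_univ j⟩)
    have h4 := h0 j
    omega
  refine ⟨i, ?_⟩
  rcases C.R2_supp_one β i hz with h2 | h2
  · exact h2
  · exfalso
    rw [h2, Root.neg_val, ht_neg, ht_simple] at h
    omega

/-- A root supported at one place is `±` a simple root. -/
theorem exists_other (β : C.Root) (i : Fin n) (h1 : β ≠ C.simple i) (h2 : β ≠ -(C.simple i)) :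
    ∃ j, j ≠ i ∧ β.1 j ≠ 0 := by
  by_contra hcon
  have hz : ∀ j, j ≠ i → β.1 j = 0 := by
    intro j hj
    by_contra h3
    exact hcon ⟨j, hj, h3⟩
  rcases C.R2_supp_one β i hz with h | h
  · exact h1 h
  · exact h2 h

theorem exists_descent (β : C.Root) (hβ : C.Pos β) (h : ∀ i, β ≠ C.simple i) :
    ∃ (i : Fin n) (γ : C.Root), C.Pos γ ∧ β.1 = (C.simple i).1 + γ.1 := by
  have h0 := (C.pos_iff β).mp hβ
  have h1 : ∃ i, 0 < β.1 i * C.ip (Pi.single i 1) β.1 := by
    by_contra hcon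
    simp only [not_exists, not_lt] at hcon
    have h2 := C.sum_ip_single β.1 β.1
    have h3 : ∑ i, β.1 i * C.ip (Pi.single i 1) β.1 ≤ 0 := Finset.sum_nonpos fun i _ => hcon i
    rw [h2, β.2] at h3
    omega
  obtain ⟨i, hi⟩ := h1
  have h2 : 0 < C.ip (C.simple i).1 β.1 := by
    rw [simple_val]
    by_contra hcon
    rw [not_lt] at hcon
    have := mul_nonpos_of_nonneg_of_nonpos (h0 i) hcon
    omega
  have h3 : C.ip (C.simple i).1 β.1 ≠ 2 := fun h3 => h i ((C.ip_eq_two_iff _ _).mp h3).symm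
  have h4 : C.ip (C.simple i).1 β.1 = 1 := by
    have := C.ip_cases (C.simple i) β
    omega
  obtain ⟨γ, hγ⟩ := C.exists_sub (C.simple i) β h4
  have hne : β ≠ -(C.simple i) := by
    intro h5
    have h6 := hβ
    unfold Pos at h6
    rw [h5, Root.neg_val, ht_neg, ht_simple] at h6
    omega
  obtain ⟨j, hj, hj0⟩ := C.exists_other β i (h i) hne
  refine ⟨i, γ, ?_, ?_⟩
  · rw [pos_iff]
    rcases C.pos_or_neg γ with h5 | h5
    · exact h5
    · exfalso
      have h6 := h5 j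
      rw [hγ] at h6
      simp only [Pi.sub_apply, simple_val, Pi.single_eq_of_ne hj] at h6
      have h7 := h0 j
      omega
  · rw [hγ]
    abel

theorem refl_simple_pos (i : Fin n) (β : C.Root) (hβ : C.Pos β) (h : β ≠ C.simple i) :
    C.Pos (C.refl (C.simple i) β) := by
  have h0 := (C.pos_iff β).mp hβ
  have hne : β ≠ -(C.simple i) := by
    intro h5
    have h6 := hβ
    unfold Pos at h6
    rw [h5, Root.neg_val, ht_neg, ht_simple] at h6
    omega
  obtain ⟨j, hj, hj0⟩ := C.exists_other β i h hne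
  rw [pos_iff]
  rcases C.pos_or_neg (C.refl (C.simple i) β) with h5 | h5
  · exact h5
  · exfalso
    have h6 := h5 j
    rw [refl_val] at h6
    simp only [Pi.sub_apply, Pi.smul_apply, simple_val, Pi.single_eq_of_ne hj, smul_zero,
      sub_zero] at h6
    have h7 := h0 j
    omega

theorem refl_simple_ne (i : Fin n) (β : C.Root) (hβ : C.Pos β) :
    C.refl (C.simple i) β ≠ C.simple i := by
  intro h
  have h1 := C.refl_refl (C.simple i) β
  rw [h, refl_self] at h1
  have h6 := hβ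
  unfold Pos at h6
  rw [← h1, Root.neg_val, ht_neg, ht_simple] at h6
  omega

end SLC

end Pool.Agent.H75.UL
end

section
/- module Pool.Agent.H75.UL.R4a -/
/-!
# Project UL (MP_978914_al), module R4a

The Weyl group.

`W_lin`: the reflection `v ↦ v - ip α v • α` is an additive automorphism of `ℤ^n` preserving `ip`
(it is its own inverse); closure induction (products and inverses).
`exists_wd`: closure induction; `reflE α` is its own inverse.
`exists_W_simple`: for positive `β` by induction on the height: if `β` is not simple, `exists_descent`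
gives `β = α_i + γ`, `γ` positive; then `ip α_i γ = -1` (`ip_add_root`), so `refl α_i γ = β`; and
`γ = w α_j`. For negative `β`: `-β = w α_j`, and `β = w (s_j α_j)` (`w (-γ) = - w γ` by `W_lin`).
`reflE_conj`: from `W_lin`. `reflE_mem_W`: `α = w α_i`, so `reflE α = w * reflE α_i * w⁻¹`.
-/

set_option autoImplicit false
open Matrix
universe u
namespace Pool.Agent.H75.UL

namespace SLC
variable {n : ℕ} (C : SLC n)

private theorem R4a_invol (α : C.Root) (v : Fin n → ℤ) :
    (v - C.ip α.1 v • α.1) - C.ip α.1 (v - C.ip α.1 v • α.1) • α.1 = v := by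
  rw [ip_sub_right, ip_smul_right, α.2]
  module

private theorem R4a_iso (α : C.Root) (u v : Fin n → ℤ) :
    C.ip (u - C.ip α.1 u • α.1) (v - C.ip α.1 v • α.1) = C.ip u v := by
  rw [ip_sub_left, ip_sub_right, ip_sub_right, ip_smul_left, ip_smul_left, ip_smul_right,
    ip_smul_right, α.2, C.ip_comm u α.1]
  ring

/-- the reflection as an automorphism of the lattice -/
private def R4a_rf (α : C.Root) : (Fin n → ℤ) ≃+ (Fin n → ℤ) where
  toFun v := v - C.ip α.1 v • α.1
  invFun v := v - C.ip α.1 v • α.1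
  left_inv v := R4a_invol C α v
  right_inv v := R4a_invol C α v
  map_add' u v := by
    rw [ip_add_right]
    module

theorem W_lin (w : Equiv.Perm C.Root) (hw : w ∈ C.W) :
    ∃ f : (Fin n → ℤ) ≃+ (Fin n → ℤ), (∀ β : C.Root, (w β).1 = f β.1) ∧
      ∀ u v, C.ip (f u) (f v) = C.ip u v := by
  unfold W at hw
  induction hw using Subgroup.closure_induction with
  | mem x hx =>
    obtain ⟨i, rfl⟩ := hx
    exact ⟨R4a_rf C (C.simple i), fun β => rfl, fun u v => R4a_iso C (C.simple i) u v⟩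
  | one => exact ⟨AddEquiv.refl _, fun β => rfl, fun u v => rfl⟩
  | mul x y hx hy ihx ihy =>
    obtain ⟨f, hf1, hf2⟩ := ihx
    obtain ⟨g, hg1, hg2⟩ := ihy
    refine ⟨g.trans f, fun β => ?_, fun u v => ?_⟩
    · rw [Equiv.Perm.mul_apply, hf1, hg1]
      rfl
    · rw [AddEquiv.trans_apply, AddEquiv.trans_apply, hf2, hg2]
  | inv x hx ih =>
    obtain ⟨f, hf1, hf2⟩ := ih
    refine ⟨f.symm, fun β => ?_, fun u v => ?_⟩
    · have h1 := hf1 (x⁻¹ β)
      have h2 : x (x⁻¹ β) = β := Equiv.apply_symm_apply x β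
      rw [h2] at h1
      rw [h1, AddEquiv.symm_apply_apply]
    · have h1 := hf2 (f.symm u) (f.symm v)
      rw [AddEquiv.apply_symm_apply, AddEquiv.apply_symm_apply] at h1
      exact h1.symm

theorem W_neg (w : Equiv.Perm C.Root) (hw : w ∈ C.W) (β : C.Root) : w (-β) = - w β := by
  obtain ⟨f, hf1, -⟩ := C.W_lin w hw
  apply Root.ext
  rw [hf1, Root.neg_val, Root.neg_val, map_neg, hf1]

theorem W_add (w : Equiv.Perm C.Root) (hw : w ∈ C.W) (α β γ : C.Root) (h : γ.1 = α.1 + β.1) :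
    (w γ).1 = (w α).1 + (w β).1 := by
  obtain ⟨f, hf1, -⟩ := C.W_lin w hw
  rw [hf1, hf1, hf1, h, map_add]

theorem W_ip (w : Equiv.Perm C.Root) (hw : w ∈ C.W) (α β : C.Root) :
    C.ip (w α).1 (w β).1 = C.ip α.1 β.1 := by
  obtain ⟨f, hf1, hf2⟩ := C.W_lin w hw
  rw [hf1, hf1, hf2]

theorem simple_mem_W (i : Fin n) : C.reflE (C.simple i) ∈ C.W :=
  Subgroup.subset_closure ⟨i, rfl⟩

theorem wd_mem_W (l : List (Fin n)) : C.wd l ∈ C.W := by
  unfold wd
  apply Subgroup.list_prod_mem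
  intro x hx
  rw [List.mem_map] at hx
  obtain ⟨i, -, rfl⟩ := hx
  exact C.simple_mem_W i

private theorem R4a_wd_append (l l' : List (Fin n)) : C.wd (l ++ l') = C.wd l * C.wd l' := by
  unfold wd
  rw [List.map_append, List.prod_append]

private theorem R4a_wd_inv (l : List (Fin n)) : (C.wd l)⁻¹ = C.wd l.reverse := by
  induction l with
  | nil => simp [wd]
  | cons i l ih =>
    have h1 : C.wd (i :: l) = C.reflE (C.simple i) * C.wd l := by simp [wd]
    have h2 : (C.reflE (C.simple i))⁻¹ = C.reflE (C.simple i) :=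
      inv_eq_of_mul_eq_one_left (C.reflE_mul_self _)
    have h3 : C.wd [i] = C.reflE (C.simple i) := by simp [wd]
    rw [h1, _root_.mul_inv_rev, ih, h2, List.reverse_cons, R4a_wd_append, h3]

theorem exists_wd (w : Equiv.Perm C.Root) (hw : w ∈ C.W) : ∃ l, w = C.wd l := by
  unfold W at hw
  induction hw using Subgroup.closure_induction with
  | mem x hx =>
    obtain ⟨i, rfl⟩ := hx
    exact ⟨[i], by simp [wd]⟩
  | one => exact ⟨[], by simp [wd]⟩
  | mul x y hx hy ihx ihy =>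
    obtain ⟨l, rfl⟩ := ihx
    obtain ⟨l', rfl⟩ := ihy
    exact ⟨l ++ l', (R4a_wd_append C l l').symm⟩
  | inv x hx ih =>
    obtain ⟨l, rfl⟩ := ih
    exact ⟨l.reverse, R4a_wd_inv C l⟩

private theorem R4a_pos (N : ℕ) : ∀ β : C.Root, C.Pos β → ht β.1 ≤ N →
    ∃ w ∈ C.W, ∃ i, w (C.simple i) = β := by
  induction N with
  | zero =>
    intro β h1 h2
    unfold Pos at h1
    exfalso
    push_cast at h2
    omega
  | succ N ih =>
    intro β h1 h2
    by_cases hs : ∀ i, β ≠ C.simple i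
    · obtain ⟨i, γ, hγ, hβ⟩ := C.exists_descent β h1 hs
      have h3 : ht γ.1 ≤ N := by
        have h4 := congrArg ht hβ
        rw [ht_add, ht_simple] at h4
        push_cast at h2
        omega
      obtain ⟨w, hw, j, hj⟩ := ih γ hγ h3
      refine ⟨C.reflE (C.simple i) * w, C.W.mul_mem (C.simple_mem_W i) hw, j, ?_⟩
      rw [Equiv.Perm.mul_apply, hj, reflE_apply]
      apply Root.ext
      rw [refl_val, C.ip_add_root _ _ _ hβ, hβ]
      module
    · push Not at hs
      obtain ⟨i, rfl⟩ := hs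
      exact ⟨1, C.W.one_mem, i, rfl⟩

theorem exists_W_simple (β : C.Root) : ∃ w ∈ C.W, ∃ i, w (C.simple i) = β := by
  by_cases h : C.Pos β
  · refine R4a_pos C (ht β.1).toNat β h ?_
    unfold Pos at h
    omega
  · rw [not_pos_iff] at h
    obtain ⟨w, hw, j, hj⟩ := R4a_pos C (ht (-β).1).toNat (-β) h (by unfold Pos at h; omega)
    refine ⟨w * C.reflE (C.simple j), C.W.mul_mem hw (C.simple_mem_W j), j, ?_⟩
    rw [Equiv.Perm.mul_apply, reflE_apply, refl_self, C.W_neg w hw, hj, neg_neg_root]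

theorem reflE_conj (w : Equiv.Perm C.Root) (hw : w ∈ C.W) (α : C.Root) :
    C.reflE (w α) = w * C.reflE α * w⁻¹ := by
  obtain ⟨f, hf1, hf2⟩ := C.W_lin w hw
  rw [eq_mul_inv_iff_mul_eq]
  ext β : 1
  rw [Equiv.Perm.mul_apply, Equiv.Perm.mul_apply, reflE_apply, reflE_apply]
  apply Root.ext
  rw [refl_val, hf1, hf1, hf1, hf2, refl_val, map_sub, map_zsmul]

theorem reflE_mem_W (α : C.Root) : C.reflE α ∈ C.W := by
  obtain ⟨w, hw, i, rfl⟩ := C.exists_W_simple α
  rw [C.reflE_conj w hw]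
  exact C.W.mul_mem (C.W.mul_mem hw (C.simple_mem_W i)) (C.W.inv_mem hw)

end SLC

end Pool.Agent.H75.UL
end

section
/- module Pool.Agent.H75.UL.S1 -/
/-!
# Project UL (MP_978914_al), module S1

Consequences of Steinberg's relations, I: the action of `n_α(t)` on all root elements.

`x_zero`, `x_neg`, `nn_inv` are immediate from `map_add`. `nn_eq`: from `n_conj` with `u = t`:
`n_α(t) x_α(t) = x_{-α}(t⁻¹) n_α(t)`; cancel the last `x_α(t)` on both sides of
`x_α(t) x_{-α}(t⁻¹) x_α(t) x_α(t) = x_{-α}(t⁻¹) x_α(t) x_{-α}(t⁻¹) x_α(t)`: `n_α(t) = n_{-α}(t⁻¹)`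
(note `-(-α) = α`, `C.neg_neg_root`).
`n_conj_all`, by the value of `ip α β` (`cs`, `refl` as in Base):
* `0`: `x_α`, `x_{-α}` commute with `x_β` (`comm`, as `ip (±α) β = 0`); `refl α β = β`.
* `-1`: `γ = α + β`, `ε = eps α β`. `x_α(t)` conjugates `x_β(u)` to `x_γ(ε t u) x_β(u)`;
  `x_{-α}(t⁻¹)` commutes with `x_β` and conjugates `x_γ(v)` to `x_β(ε(-α,γ) t⁻¹ v) x_γ(v)` with
  `ε(-α,γ) = ε(α,α) ε(α,β) = -ε`; so `x_γ(ε t u) x_β(u)` goes to `x_β(-u) x_γ(ε t u) x_β(u) =
  x_γ(ε t u)` (`x_β`, `x_γ` commute: `ip β γ = 1`); `x_α(t)` commutes with `x_γ` (`ip α γ = 1`).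
* `1`: `γ = β - α`: `x_α(t)` commutes with `x_β`; `x_{-α}(t⁻¹)` conjugates `x_β(u)` to
  `x_γ(ε t⁻¹ u) x_β(u)` (`ε(-α,β) = ε`); `x_α(t)` conjugates `x_γ(v)` to
  `x_β(ε(α,γ) t v) x_γ(v)`, `ε(α,γ) = ε(α,β) ε(α,α) = -ε`: total `x_β(-u) x_γ(ε t⁻¹ u) x_β(u) =
  x_γ(ε t⁻¹ u)`.
* `2`: `β = α`, this is `n_conj`. `-2`: `β = -α`: use `nn_eq` and `n_conj` for `-α`, `t⁻¹`.
-/

set_option autoImplicit false
open Matrix
universe u
namespace Pool.Agent.H75.UL

namespace StSys
variable {n : ℕ} {C : SLC n} {K : Type*} [Field K] {H : Type*} [Group H] (S : StSys C K H)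

theorem x_zero (β : C.Root) : S.x β 0 = 1 := by
  have h := S.map_add β 0 0
  rw [add_zero] at h
  exact left_eq_mul.mp h

theorem x_neg (β : C.Root) (t : K) : S.x β (-t) = (S.x β t)⁻¹ := by
  have h := S.map_add β (-t) t
  rw [neg_add_cancel, S.x_zero] at h
  exact eq_inv_of_mul_eq_one_left h.symm

theorem nn_inv (α : C.Root) (t : K) : (nn S.x α t)⁻¹ = nn S.x α (-t) := by
  unfold nn
  rw [inv_neg, S.x_neg, S.x_neg, _root_.mul_inv_rev, _root_.mul_inv_rev, mul_assoc]

theorem nn_eq (α : C.Root) (t : K) (ht : t ≠ 0) : nn S.x α t = nn S.x (-α) t⁻¹ := by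
  have h := S.n_conj α t t ht
  have h1 : t⁻¹ ^ 2 * t = t⁻¹ := by
    field_simp
  rw [h1, mul_inv_eq_iff_eq_mul] at h
  unfold nn at h ⊢
  rw [C.neg_neg_root, inv_inv]
  have h2 : S.x α t * S.x (-α) t⁻¹ * S.x α t * S.x α t =
      S.x (-α) t⁻¹ * S.x α t * S.x (-α) t⁻¹ * S.x α t := by
    rw [h]
    group
  exact mul_right_cancel h2

private theorem S1_conj_comm {a x : H} (h : a * x = x * a) : a * x * a⁻¹ = x := by
  rw [h, mul_inv_cancel_right]

private theorem S1_conj_mul (a x y : H) : a * (x * y) * a⁻¹ = a * x * a⁻¹ * (a * y * a⁻¹) := by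
  group

private theorem S1_conj_add (α β γ : C.Root) (s t : K) (h : γ.1 = α.1 + β.1) :
    S.x α s * S.x β t * (S.x α s)⁻¹ = S.x γ (C.eps α.1 β.1 * s * t) * S.x β t := by
  rw [← S.comm_add α β γ s t h]
  group

private theorem S1_nn_conj (α : C.Root) (t : K) (y : H) :
    nn S.x α t * y * (nn S.x α t)⁻¹ =
      S.x α t * (S.x (-α) t⁻¹ * (S.x α t * y * (S.x α t)⁻¹) * (S.x (-α) t⁻¹)⁻¹) *
        (S.x α t)⁻¹ := by
  unfold nn
  group

theorem n_conj_all (α β : C.Root) (t u : K) (ht : t ≠ 0) :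
    nn S.x α t * S.x β u * (nn S.x α t)⁻¹ =
      S.x (C.refl α β) ((C.cs α β : K) * t ^ (- C.ip α.1 β.1) * u) := by
  rcases C.ip_cases α β with h | h | h | h | h
  · -- `-2`
    have hβ : β = -α := (C.ip_eq_neg_two_iff α β).mp h
    have hc : C.cs α β = 1 := by
      unfold SLC.cs
      rw [if_neg (by omega)]
    rw [hc, h]
    subst hβ
    rw [C.refl_neg, C.refl_self, C.neg_neg_root, S.nn_eq α t ht, S.n_conj (-α) t⁻¹ u
      (inv_ne_zero ht), C.neg_neg_root, inv_inv]
    congr 1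
    push_cast
    norm_num
  · -- `-1`
    obtain ⟨γ, hγ⟩ := C.exists_add α β h
    have hr : C.refl α β = γ := by
      apply SLC.Root.ext
      rw [C.refl_val, h, hγ]
      module
    have hc : C.cs α β = C.eps α.1 β.1 := by
      unfold SLC.cs
      rw [if_pos (by omega)]
    have h1 : C.ip (-α).1 β.1 = 1 := by
      rw [SLC.Root.neg_val, C.ip_neg_left, h, neg_neg]
    have h2 : C.ip β.1 γ.1 = 1 := by
      rw [hγ, C.ip_add_right, C.ip_comm, h, β.2]
      norm_num
    have h3 : C.ip α.1 γ.1 = 1 := by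
      rw [hγ, C.ip_add_right, h, α.2]
      norm_num
    have h4 : β.1 = (-α).1 + γ.1 := by
      rw [hγ, SLC.Root.neg_val]
      abel
    have h5 : C.eps (-α).1 γ.1 = - C.eps α.1 β.1 := by
      rw [SLC.Root.neg_val, C.eps_neg_left, hγ, C.eps_add_right, C.eps_self]
      ring
    rw [hr, hc, h, S1_nn_conj, S.S1_conj_add α β γ t u hγ, S1_conj_mul (S.x (-α) t⁻¹),
      S.S1_conj_add (-α) γ β _ _ h4, h5, S1_conj_comm (S.comm (-α) β t⁻¹ u (by omega))]
    have h6 : S.x β (((-C.eps α.1 β.1 : ℤ) : K) * t⁻¹ * (C.eps α.1 β.1 * t * u)) *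
        S.x γ (C.eps α.1 β.1 * t * u) * S.x β u = S.x γ (C.eps α.1 β.1 * t * u) := by
      have h7 : ((-C.eps α.1 β.1 : ℤ) : K) * t⁻¹ * (C.eps α.1 β.1 * t * u) = -u := by
        have h8 : ((C.eps α.1 β.1 : ℤ) : K) * (C.eps α.1 β.1 : ℤ) = 1 := by
          rw [← Int.cast_mul, C.eps_sq, Int.cast_one]
        push_cast
        field_simp
        linear_combination (-u) * h8
      rw [h7, mul_assoc, S.comm γ β _ _ (by rw [C.ip_comm]; omega), ← mul_assoc, S.x_neg,
        inv_mul_cancel, one_mul]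
    rw [h6, S1_conj_comm (S.comm α γ _ _ (by omega))]
    congr 1
    norm_num
  · -- `0`
    have hr : C.refl α β = β := by
      apply SLC.Root.ext
      rw [C.refl_val, h]
      module
    have hc : C.cs α β = 1 := by
      unfold SLC.cs
      rw [if_neg (by omega)]
    have h1 : C.ip (-α).1 β.1 = 0 := by
      rw [SLC.Root.neg_val, C.ip_neg_left, h, neg_zero]
    rw [hr, hc, h, S1_nn_conj, S1_conj_comm (S.comm α β _ _ (by omega)),
      S1_conj_comm (S.comm (-α) β _ _ (by omega)), S1_conj_comm (S.comm α β _ _ (by omega))]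
    congr 1
    norm_num
  · -- `1`
    obtain ⟨γ, hγ⟩ := C.exists_sub α β h
    have hr : C.refl α β = γ := by
      apply SLC.Root.ext
      rw [C.refl_val, h, hγ]
      module
    have hc : C.cs α β = C.eps α.1 β.1 := by
      unfold SLC.cs
      rw [if_pos (by omega)]
    have h4 : γ.1 = (-α).1 + β.1 := by
      rw [hγ, SLC.Root.neg_val]
      abel
    have h5 : β.1 = α.1 + γ.1 := by
      rw [hγ]
      abel
    have h6 : C.eps (-α).1 β.1 = C.eps α.1 β.1 := by
      rw [SLC.Root.neg_val, C.eps_neg_left]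
    have h7 : C.eps α.1 γ.1 = - C.eps α.1 β.1 := by
      rw [hγ, C.eps_sub_right, C.eps_self]
      ring
    have h2 : C.ip β.1 γ.1 = 1 := by
      rw [hγ, C.ip_sub_right, C.ip_comm β.1 α.1, h, β.2]
      norm_num
    rw [hr, hc, h, S1_nn_conj, S1_conj_comm (S.comm α β _ _ (by omega)),
      S.S1_conj_add (-α) β γ _ _ h4, S1_conj_mul, S.S1_conj_add α γ β _ _ h5,
      S1_conj_comm (S.comm α β _ _ (by omega)), h6, h7]
    have h9 : ((-C.eps α.1 β.1 : ℤ) : K) * t * (C.eps α.1 β.1 * t⁻¹ * u) = -u := by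
      have h8 : ((C.eps α.1 β.1 : ℤ) : K) * (C.eps α.1 β.1 : ℤ) = 1 := by
        rw [← Int.cast_mul, C.eps_sq, Int.cast_one]
      push_cast
      field_simp
      linear_combination (-u) * h8
    rw [h9, mul_assoc, S.comm γ β _ _ (by rw [C.ip_comm]; omega), ← mul_assoc, S.x_neg,
      inv_mul_cancel, one_mul]
    congr 1
    norm_num
  · -- `2`
    have hβ : α = β := (C.ip_eq_two_iff α β).mp h
    have hc : C.cs α β = 1 := by
      unfold SLC.cs
      rw [if_neg (by omega)]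
    rw [hc, h]
    subst hβ
    rw [C.refl_self, S.n_conj α t u ht]
    congr 1
    rw [_root_.zpow_neg, Int.cast_one, one_mul, inv_pow]
    norm_cast

end StSys

end Pool.Agent.H75.UL
end

section
/- module Pool.Agent.H75.UL.L1 -/
/-!
# Project UL (MP_978914_al), module L1

Commuting root vectors: `[e_α, e_β] = 0` and `ad` is multiplicative.

If `ip α β = 2` then `α = β`. Otherwise `ip α β ∈ {0, 1}`. Compare the entries of `E α * E β` and
`E β * E α` (sums over `Fin n ⊕ Root`, only one term can be nonzero). With `e_δ`, `h_j` the basis: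
* on `h_j`: `E_α E_β h_j = -(α_j,β) E_α e_β = 0` since `α + β` is not a root and not `0`;
* on `e_{-β}`: `E_α E_β e_{-β} = -E_α h_β = (β,α) e_α`, and `E_β E_α e_{-β}` is `0` if `ip = 0`
  (`α - β` is not a root) and `ε(α,-β) ε(β,α-β) e_α = -ε(α,β) ε(β,α) e_α = e_α` if `ip = 1`
  (`eps_swap_of_odd`, `eps_self`, `eps_sub_right`); similarly on `e_{-α}`;
* on `e_δ`, `δ ≠ -α, -β`: the `inl` component of `E_α E_β e_δ` is nonzero only if `δ = -α-β`, but
  `α + β` is not a root. The `e_{α+β+δ}` component: if `α+β+δ` is a root, then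
  `2 = 6 + 2 (ip α β + ip α δ + ip β δ)`; for `ip α β = 1` this gives `ip α δ + ip β δ = -3`,
  impossible (one would be `-2`); for `ip α β = 0` both are `-1`, so both paths exist and the signs
  `ε(β,δ) ε(α,β+δ)` and `ε(α,δ) ε(β,α+δ)` agree because `ε(α,β) = ε(β,α)`.
`hsing` (optional helper): `∑_c` over `C.Idx` splits with `Fintype.sum_sum_type`; see
`SLC.E_mul_E` in Defs for the style.
-/

set_option autoImplicit false
open Matrix
universe u
namespace Pool.Agent.H75.UL

namespace SLC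
variable {n : ℕ} (C : SLC n)

private theorem L1_sum (γ α β δ : C.Root) :
    ∑ ρ : C.Root, (if γ.1 = α.1 + ρ.1 then C.eps α.1 ρ.1 else 0) *
      (if ρ.1 = β.1 + δ.1 then C.eps β.1 δ.1 else 0) =
    if γ.1 = α.1 + (β.1 + δ.1) ∧ C.ip β.1 δ.1 = -1 then
      C.eps α.1 (β.1 + δ.1) * C.eps β.1 δ.1 else 0 := by
  by_cases h : C.ip β.1 δ.1 = -1
  · obtain ⟨ρ0, h0⟩ := C.exists_add β δ h
    rw [Finset.sum_eq_single ρ0]
    · rw [if_pos h0, h0]
      by_cases h1 : γ.1 = α.1 + (β.1 + δ.1)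
      · rw [if_pos h1, if_pos ⟨h1, h⟩]
      · rw [if_neg h1, if_neg (fun hc => h1 hc.1), zero_mul]
    · intro ρ _ hne
      rw [if_neg (fun hc : ρ.1 = β.1 + δ.1 => hne (Root.ext (hc.trans h0.symm))), mul_zero]
    · intro hc
      exact absurd (Finset.mem_univ ρ0) hc
  · rw [if_neg (fun hc => h hc.2)]
    apply Finset.sum_eq_zero
    intro ρ _
    rw [if_neg (fun hc : ρ.1 = β.1 + δ.1 => h (C.ip_add_root β δ ρ hc)), mul_zero]

/-- the entries of the product for `ip α β ≥ 0` -/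
private theorem L1_rr (α β γ δ : C.Root) :
    (C.E α * C.E β) (Sum.inr γ) (Sum.inr δ) =
      (if γ.1 = α.1 ∧ δ.1 = -β.1 then C.ip β.1 α.1 else 0) +
      (if γ.1 = α.1 + (β.1 + δ.1) ∧ C.ip β.1 δ.1 = -1 then
        C.eps α.1 (β.1 + δ.1) * C.eps β.1 δ.1 else 0) := by
  rw [Matrix.mul_apply, Fintype.sum_sum_type]
  simp only [E]
  rw [L1_sum]
  congr 1
  by_cases h1 : γ.1 = α.1
  · by_cases h2 : δ.1 = -β.1
    · rw [if_pos ⟨h1, h2⟩]
      simp only [h1, h2, if_true]
      rw [← C.sum_ip_single β.1 α.1]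
      exact Finset.sum_congr rfl fun i _ => by ring
    · rw [if_neg (fun hc => h2 hc.2)]
      simp only [h2, if_false, mul_zero, Finset.sum_const_zero]
  · rw [if_neg (fun hc => h1 hc.1)]
    simp only [h1, if_false, zero_mul, Finset.sum_const_zero]

private theorem L1_ll (α β : C.Root) (h : 0 ≤ C.ip α.1 β.1) (i j : Fin n) :
    (C.E α * C.E β) (Sum.inl i) (Sum.inl j) = 0 := by
  rw [Matrix.mul_apply, Fintype.sum_sum_type]
  simp only [E, mul_zero, Finset.sum_const_zero, zero_add]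
  apply Finset.sum_eq_zero
  intro ρ _
  by_cases h1 : ρ.1 = -α.1
  · by_cases h2 : ρ.1 = β.1
    · exfalso
      have h3 : C.ip α.1 β.1 = -2 := by
        rw [← h2, h1, ip_neg_right, α.2]
      omega
    · rw [if_neg h2, mul_zero]
  · rw [if_neg h1, zero_mul]

private theorem L1_lr (α β : C.Root) (h : 0 ≤ C.ip α.1 β.1) (i : Fin n) (δ : C.Root) :
    (C.E α * C.E β) (Sum.inl i) (Sum.inr δ) = 0 := by
  rw [Matrix.mul_apply, Fintype.sum_sum_type]
  simp only [E, zero_mul, Finset.sum_const_zero, zero_add]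
  apply Finset.sum_eq_zero
  intro ρ _
  by_cases h1 : ρ.1 = -α.1
  · by_cases h2 : ρ.1 = β.1 + δ.1
    · exfalso
      have h3 : (-δ).1 = α.1 + β.1 := by
        rw [Root.neg_val]
        have h4 := h1.symm.trans h2
        funext k
        have h5 := congrFun h4 k
        simp only [Pi.add_apply, Pi.neg_apply] at h5 ⊢
        omega
      have h6 := C.ip_add_root α β (-δ) h3
      omega
    · rw [if_neg h2, mul_zero]
  · rw [if_neg h1, zero_mul]

private theorem L1_rl (α β : C.Root) (h : 0 ≤ C.ip α.1 β.1) (γ : C.Root) (j : Fin n) :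
    (C.E α * C.E β) (Sum.inr γ) (Sum.inl j) = 0 := by
  rw [Matrix.mul_apply, Fintype.sum_sum_type]
  simp only [E, mul_zero, Finset.sum_const_zero, zero_add]
  apply Finset.sum_eq_zero
  intro ρ _
  by_cases h1 : γ.1 = α.1 + ρ.1
  · by_cases h2 : ρ.1 = β.1
    · exfalso
      rw [h2] at h1
      have h6 := C.ip_add_root α β γ h1
      omega
    · rw [if_neg h2, mul_zero]
  · rw [if_neg h1, zero_mul]

/-- value at `(α, -β)` -/
private theorem L1_case (α β γ δ : C.Root) (hne : α ≠ β) (h : 0 ≤ C.ip α.1 β.1)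
    (hγ : γ.1 = α.1 + (β.1 + δ.1)) (hδ : δ.1 = -β.1) :
    (C.E α * C.E β) (Sum.inr γ) (Sum.inr δ) = (C.E β * C.E α) (Sum.inr γ) (Sum.inr δ) := by
  have hγα : γ.1 = α.1 := by
    rw [hγ, hδ]
    simp
  have hcomm : C.ip β.1 α.1 = C.ip α.1 β.1 := C.ip_comm _ _
  rw [L1_rr, L1_rr, if_pos ⟨hγα, hδ⟩]
  have h1 : ¬ C.ip β.1 δ.1 = -1 := by
    rw [hδ, ip_neg_right, β.2]
    omega
  rw [if_neg (fun hc => h1 hc.2), add_zero]
  have h2 : ¬ γ.1 = β.1 := by
    intro hc
    exact hne (Root.ext (hγα.symm.trans hc))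
  rw [if_neg (fun hc => h2 hc.1), zero_add, hcomm]
  have hγ' : γ.1 = β.1 + (α.1 + δ.1) := by
    rw [hγ]
    abel
  have hle : C.ip α.1 β.1 ≠ 2 := fun hc => hne ((C.ip_eq_two_iff α β).1 hc)
  have hle2 := C.ip_le_two α β
  have hip : C.ip α.1 δ.1 = - C.ip α.1 β.1 := by rw [hδ, ip_neg_right]
  by_cases h3 : C.ip α.1 β.1 = 1
  · rw [if_pos ⟨hγ', by rw [hip, h3]⟩, h3, hδ, ← sub_eq_add_neg, C.eps_sub_right, C.eps_neg_right,
      C.eps_self, C.eps_swap_of_odd α.1 β.1 (Or.inl h3)]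
    have := C.eps_sq α.1 β.1
    linarith
  · rw [if_neg (fun hc => h3 (by have := hc.2; rw [hip] at this; omega))]
    omega

theorem E_comm (α β : C.Root) (h : 0 ≤ C.ip α.1 β.1) :
    C.E α * C.E β = C.E β * C.E α := by
  have hcomm : C.ip β.1 α.1 = C.ip α.1 β.1 := C.ip_comm _ _
  have h' : 0 ≤ C.ip β.1 α.1 := by rw [hcomm]; exact h
  by_cases hne : α = β
  · rw [hne]
  ext a b
  rcases a with i | γ <;> rcases b with j | δ
  · rw [C.L1_ll α β h, C.L1_ll β α h']
  · rw [C.L1_lr α β h, C.L1_lr β α h']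
  · rw [C.L1_rl α β h, C.L1_rl β α h']
  · by_cases hγ : γ.1 = α.1 + (β.1 + δ.1)
    · have hγ' : γ.1 = β.1 + (α.1 + δ.1) := by
        rw [hγ]
        abel
      by_cases h1 : δ.1 = -β.1
      · exact C.L1_case α β γ δ hne h hγ h1
      · by_cases h2 : δ.1 = -α.1
        · exact (C.L1_case β α γ δ (Ne.symm hne) h' hγ' h2).symm
        · -- the third case
          have z1 : (if γ.1 = α.1 ∧ δ.1 = -β.1 then C.ip β.1 α.1 else 0) = 0 :=
            if_neg (fun hc => h1 hc.2)
          have z2 : (if γ.1 = β.1 ∧ δ.1 = -α.1 then C.ip α.1 β.1 else 0) = 0 :=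
            if_neg (fun hc => h2 hc.2)
          rw [L1_rr, L1_rr, z1, z2, zero_add, zero_add]
          have hnorm := γ.2
          rw [hγ] at hnorm
          simp only [ip_add_left, ip_add_right, α.2, β.2, δ.2, hcomm, C.ip_comm δ.1 α.1,
            C.ip_comm δ.1 β.1] at hnorm
          have g1 := C.neg_two_le_ip α δ
          have g2 := C.neg_two_le_ip β δ
          have g3 : C.ip α.1 δ.1 ≠ -2 := by
            intro hc
            have := (C.ip_eq_neg_two_iff α δ).1 hc
            exact h2 (by rw [this, Root.neg_val])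
          have g4 : C.ip β.1 δ.1 ≠ -2 := by
            intro hc
            have := (C.ip_eq_neg_two_iff β δ).1 hc
            exact h1 (by rw [this, Root.neg_val])
          have e1 : C.ip α.1 δ.1 = -1 := by omega
          have e2 : C.ip β.1 δ.1 = -1 := by omega
          have e3 : C.ip α.1 β.1 = 0 := by omega
          rw [if_pos ⟨hγ, e2⟩, if_pos ⟨hγ', e1⟩, C.eps_add_right, C.eps_add_right,
            C.eps_swap_of_zero α.1 β.1 e3]
          ring
    · have hγ' : ¬ γ.1 = β.1 + (α.1 + δ.1) := by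
        intro hc
        apply hγ
        rw [hc]
        abel
      have z1 : (if γ.1 = α.1 ∧ δ.1 = -β.1 then C.ip β.1 α.1 else 0) = 0 := by
        apply if_neg
        rintro ⟨h1, h2⟩
        apply hγ
        rw [h1, h2]
        simp
      have z2 : (if γ.1 = β.1 ∧ δ.1 = -α.1 then C.ip α.1 β.1 else 0) = 0 := by
        apply if_neg
        rintro ⟨h1, h2⟩
        apply hγ'
        rw [h1, h2]
        simp
      have z3 : (if γ.1 = α.1 + (β.1 + δ.1) ∧ C.ip β.1 δ.1 = -1 then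
        C.eps α.1 (β.1 + δ.1) * C.eps β.1 δ.1 else 0) = 0 := if_neg (fun hc => hγ hc.1)
      have z4 : (if γ.1 = β.1 + (α.1 + δ.1) ∧ C.ip α.1 δ.1 = -1 then
        C.eps β.1 (α.1 + δ.1) * C.eps α.1 δ.1 else 0) = 0 := if_neg (fun hc => hγ' hc.1)
      rw [L1_rr, L1_rr, z1, z2, z3, z4]

end SLC

end Pool.Agent.H75.UL
end

section
/- module Pool.Agent.H75.UL.S2 -/
/-!
# Project UL (MP_978914_al), module S2

Consequences of Steinberg's relations, II: the torus.

`h_conj`: `n_conj_all` twice (`hh = nn t * nn (-1)`), `refl_refl`; the sign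
`cs(α,β) cs(α,s_αβ) (-1)^{(α,β)}` is `1` in all five cases. `T_comm`: conjugation by `h_α(s)` maps
`n_β(t)` to `n_β(a t)` with `a = s^{(α,β)}`, and `n_β(-1)` to `n_β(-a)`, so `h_β(t)` to
`n_β(a t) n_β(-a) = h_β(a t) h_β(a)⁻¹ = h_β(t)` (`h_mul`; `n_β(a t) n_β(-1) (n_β(a) n_β(-1))⁻¹ =
n_β(a t) n_β(a)⁻¹`); then closure induction. `T_acts'`: every `τ ∈ T` conjugates `x β u` to
`x β (c β * u)` with `c (-β) = (c β)⁻¹`. `tor_conj`: `h_conj` and `sum_ip_single`
(`ip v β = ∑ v_i ip α_i β`), list product over `finRange`.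
-/

set_option autoImplicit false
open Matrix
universe u
namespace Pool.Agent.H75.UL

namespace StSys
variable {n : ℕ} {C : SLC n} {K : Type*} [Field K] {H : Type*} [Group H] (S : StSys C K H)

private theorem S2_sign (α β : C.Root) :
    (C.cs α (C.refl α β) : K) * ((C.cs α β : K) * (-1 : K) ^ (- C.ip α.1 β.1)) = 1 := by
  rcases C.ip_cases α β with h | h | h | h | h
  · have h' : C.ip α.1 (C.refl α β).1 = 2 := by rw [C.ip_refl, h]; norm_num
    simp [SLC.cs, h, h']
  · have h' : C.ip α.1 (C.refl α β).1 = 1 := by rw [C.ip_refl, h]; norm_num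
    have h2 : C.eps α.1 (C.refl α β).1 = - C.eps α.1 β.1 := by
      rw [C.refl_val, h, C.eps_sub_right, show ((-1 : ℤ) • α.1) = -α.1 by module,
        C.eps_neg_right, C.eps_self]
      ring
    have h3 : (C.eps α.1 β.1 : K) * (C.eps α.1 β.1 : K) = 1 := by
      have := congrArg (Int.cast : ℤ → K) (C.eps_sq α.1 β.1)
      push_cast at this
      exact this
    simp only [SLC.cs, h, h', h2]
    simp
    linear_combination h3
  · have h' : C.ip α.1 (C.refl α β).1 = 0 := by rw [C.ip_refl, h]; norm_num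
    simp [SLC.cs, h, h']
  · have h' : C.ip α.1 (C.refl α β).1 = -1 := by rw [C.ip_refl, h]
    have h2 : C.eps α.1 (C.refl α β).1 = - C.eps α.1 β.1 := by
      rw [C.refl_val, h, C.eps_sub_right, show ((1 : ℤ) • α.1) = α.1 by module,
        C.eps_self]
      ring
    have h3 : (C.eps α.1 β.1 : K) * (C.eps α.1 β.1 : K) = 1 := by
      have := congrArg (Int.cast : ℤ → K) (C.eps_sq α.1 β.1)
      push_cast at this
      exact this
    simp only [SLC.cs, h, h', h2]
    simp
    linear_combination h3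
  · have h' : C.ip α.1 (C.refl α β).1 = -2 := by rw [C.ip_refl, h]
    simp [SLC.cs, h, h']

theorem h_conj (α β : C.Root) (t u : K) (ht : t ≠ 0) :
    hh S.x α t * S.x β u * (hh S.x α t)⁻¹ = S.x β (t ^ (C.ip α.1 β.1) * u) := by
  have h1 : hh S.x α t * S.x β u * (hh S.x α t)⁻¹ =
      nn S.x α t * (nn S.x α (-1) * S.x β u * (nn S.x α (-1))⁻¹) * (nn S.x α t)⁻¹ := by
    unfold hh
    group
  rw [h1, S.n_conj_all α β (-1) u (by norm_num), S.n_conj_all _ _ _ _ ht, C.refl_refl, C.ip_refl,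
    neg_neg]
  congr 1
  have h2 := S2_sign (K := K) α β
  linear_combination (t ^ (C.ip α.1 β.1) * u) * h2

private theorem S2_nn_conj (g : H) (c : K) (hc : c ≠ 0) (β : C.Root)
    (h1 : ∀ u, g * S.x β u * g⁻¹ = S.x β (c * u))
    (h2 : ∀ u, g * S.x (-β) u * g⁻¹ = S.x (-β) (c⁻¹ * u)) (t : K) :
    g * nn S.x β t * g⁻¹ = nn S.x β (c * t) := by
  unfold nn
  rw [mul_inv, ← h1, ← h2]
  group

private theorem S2_gen_comm (α β : C.Root) (s t : K) (hs : s ≠ 0) (ht : t ≠ 0) :
    hh S.x α s * hh S.x β t = hh S.x β t * hh S.x α s := by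
  set c : K := s ^ (C.ip α.1 β.1) with hc
  have hc0 : c ≠ 0 := zpow_ne_zero _ hs
  have e1 : ∀ u, hh S.x α s * S.x β u * (hh S.x α s)⁻¹ = S.x β (c * u) :=
    fun u => S.h_conj α β s u hs
  have e2 : ∀ u, hh S.x α s * S.x (-β) u * (hh S.x α s)⁻¹ = S.x (-β) (c⁻¹ * u) := by
    intro u
    rw [S.h_conj α (-β) s u hs, SLC.Root.neg_val, C.ip_neg_right, _root_.zpow_neg]
  have h1 := S.S2_nn_conj (hh S.x α s) c hc0 β e1 e2 t
  have h2 := S.S2_nn_conj (hh S.x α s) c hc0 β e1 e2 (-1)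
  have h3 : hh S.x α s * hh S.x β t * (hh S.x α s)⁻¹ = nn S.x β (c * t) * nn S.x β (c * (-1)) := by
    rw [← h1, ← h2]
    conv_lhs => unfold hh
    conv_rhs => unfold hh
    group
  have h4 : nn S.x β (c * t) * nn S.x β (c * (-1)) = hh S.x β t := by
    have h5 := S.h_mul β t c ht hc0
    have h6 : hh S.x β t = hh S.x β (t * c) * (hh S.x β c)⁻¹ := by
      rw [← h5, mul_assoc, mul_inv_cancel, mul_one]
    rw [h6]
    unfold hh
    rw [mul_neg, mul_one, ← S.nn_inv, mul_comm t c]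
    group
  rw [h4] at h3
  exact mul_inv_eq_iff_eq_mul.mp h3

theorem T_comm (a b : H) (ha : a ∈ S.T) (hb : b ∈ S.T) : a * b = b * a := by
  have h1 : S.T ≤ Subgroup.centralizer {g | ∃ (α : C.Root) (t : K), t ≠ 0 ∧ g = hh S.x α t} := by
    unfold T
    rw [Subgroup.closure_le]
    rintro g ⟨α, s, hs, rfl⟩
    rw [SetLike.mem_coe, Subgroup.mem_centralizer_iff]
    rintro h ⟨β, t, ht, rfl⟩
    exact S.S2_gen_comm β α t s ht hs
  have h2 : S.T ≤ Subgroup.centralizer {b} := by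
    conv_lhs => unfold T
    rw [Subgroup.closure_le]
    intro g hg
    rw [SetLike.mem_coe, Subgroup.mem_centralizer_iff]
    intro h hh
    rw [Set.mem_singleton_iff] at hh
    subst hh
    exact ((Subgroup.mem_centralizer_iff.mp (h1 hb)) g hg).symm
  exact ((Subgroup.mem_centralizer_iff.mp (h2 ha)) b rfl).symm

theorem T_le_N : S.T ≤ S.N := by
  unfold T
  rw [Subgroup.closure_le]
  rintro g ⟨α, t, ht, rfl⟩
  exact S.N.mul_mem (Subgroup.subset_closure ⟨α, t, ht, rfl⟩)
    (Subgroup.subset_closure ⟨α, -1, by norm_num, rfl⟩)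

theorem N_le_gen : S.N ≤ S.gen := by
  unfold N
  rw [Subgroup.closure_le]
  rintro g ⟨α, t, ht, rfl⟩
  exact S.gen.mul_mem (S.gen.mul_mem (Subgroup.subset_closure ⟨α, t, rfl⟩)
    (Subgroup.subset_closure ⟨-α, t⁻¹, rfl⟩)) (Subgroup.subset_closure ⟨α, t, rfl⟩)

theorem T_le_gen : S.T ≤ S.gen := S.T_le_N.trans S.N_le_gen

theorem U_le_gen (m : ℤ) : S.U m ≤ S.gen := by
  apply Subgroup.closure_mono
  rintro g ⟨β, t, _, rfl⟩
  exact ⟨β, t, rfl⟩

theorem U_mono {m k : ℤ} (h : m ≤ k) : S.U k ≤ S.U m := by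
  apply Subgroup.closure_mono
  rintro g ⟨β, t, hβ, rfl⟩
  exact ⟨β, t, h.trans hβ, rfl⟩

theorem T_acts' (τ : H) (hτ : τ ∈ S.T) : ∃ c : C.Root → K, (∀ β, c β ≠ 0) ∧
    (∀ β, c (-β) = (c β)⁻¹) ∧ ∀ β u, τ * S.x β u * τ⁻¹ = S.x β (c β * u) := by
  unfold T at hτ
  induction hτ using Subgroup.closure_induction with
  | mem g hg =>
    obtain ⟨α, t, ht, rfl⟩ := hg
    refine ⟨fun β => t ^ (C.ip α.1 β.1), fun β => zpow_ne_zero _ ht, fun β => ?_,
      fun β u => S.h_conj α β t u ht⟩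
    simp only [SLC.Root.neg_val, C.ip_neg_right, _root_.zpow_neg]
  | one => exact ⟨fun _ => 1, fun _ => one_ne_zero, fun _ => by simp, fun β u => by simp⟩
  | mul a b _ _ iha ihb =>
    obtain ⟨c, h1, h2, h3⟩ := iha
    obtain ⟨d, g1, g2, g3⟩ := ihb
    refine ⟨fun β => c β * d β, fun β => mul_ne_zero (h1 β) (g1 β), fun β => ?_, fun β u => ?_⟩
    · simp only [h2, g2, mul_inv]
    · have : a * b * S.x β u * (a * b)⁻¹ = a * (b * S.x β u * b⁻¹) * a⁻¹ := by group
      rw [this, g3, h3, mul_assoc]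
  | inv a _ iha =>
    obtain ⟨c, h1, h2, h3⟩ := iha
    refine ⟨fun β => (c β)⁻¹, fun β => inv_ne_zero (h1 β), fun β => ?_, fun β u => ?_⟩
    · simp only [h2]
    · have h4 := h3 β ((c β)⁻¹ * u)
      rw [mul_inv_cancel_left₀ (h1 β)] at h4
      rw [← h4]
      group

theorem tor_mem (v : Fin n → ℤ) (t : K) (ht : t ≠ 0) : S.tor v t ∈ S.T := by
  unfold tor
  apply Subgroup.list_prod_mem
  intro g hg
  obtain ⟨i, _, rfl⟩ := List.mem_map.mp hg
  exact S.T.zpow_mem (Subgroup.subset_closure ⟨C.simple i, t, ht, rfl⟩) _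

private theorem S2_zpow (g : H) (c : K) (hc : c ≠ 0) (β : C.Root)
    (h1 : ∀ u, g * S.x β u * g⁻¹ = S.x β (c * u)) (k : ℤ) :
    ∀ u, g ^ k * S.x β u * (g ^ k)⁻¹ = S.x β (c ^ k * u) := by
  have hn : ∀ k : ℕ, ∀ u, g ^ k * S.x β u * (g ^ k)⁻¹ = S.x β (c ^ k * u) := by
    intro k
    induction k with
    | zero => intro u; simp
    | succ k ih =>
      intro u
      have : g ^ (k + 1) * S.x β u * (g ^ (k + 1))⁻¹ =
          g * (g ^ k * S.x β u * (g ^ k)⁻¹) * g⁻¹ := by
        rw [pow_succ']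
        group
      rw [this, ih, h1, pow_succ', mul_assoc]
  intro u
  rcases Int.eq_nat_or_neg k with ⟨m, rfl | rfl⟩
  · rw [zpow_natCast, zpow_natCast]
    exact hn m u
  · have h3 := hn m ((c ^ m)⁻¹ * u)
    rw [mul_inv_cancel_left₀ (pow_ne_zero m hc)] at h3
    rw [_root_.zpow_neg, zpow_natCast, _root_.zpow_neg, zpow_natCast, ← h3]
    group

private theorem S2_tor (v : Fin n → ℤ) (t : K) (ht : t ≠ 0) (β : C.Root) (l : List (Fin n)) :
    ∀ u, (l.map fun i => hh S.x (C.simple i) t ^ v i).prod * S.x β u *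
      ((l.map fun i => hh S.x (C.simple i) t ^ v i).prod)⁻¹ =
        S.x β (t ^ ((l.map fun i => v i * C.ip (Pi.single i 1) β.1).sum) * u) := by
  induction l with
  | nil => intro u; simp
  | cons i l ih =>
    intro u
    simp only [List.map_cons, List.prod_cons, List.sum_cons]
    set P := (l.map fun i => hh S.x (C.simple i) t ^ v i).prod with hP
    have h1 : hh S.x (C.simple i) t ^ v i * P * S.x β u * (hh S.x (C.simple i) t ^ v i * P)⁻¹ =
        hh S.x (C.simple i) t ^ v i * (P * S.x β u * P⁻¹) * (hh S.x (C.simple i) t ^ v i)⁻¹ := by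
      group
    rw [h1, ih, S.S2_zpow _ (t ^ (C.ip (C.simple i).1 β.1)) (zpow_ne_zero _ ht) β
      (fun u => S.h_conj _ β t u ht)]
    congr 1
    rw [← _root_.zpow_mul, ← mul_assoc, ← zpow_add₀ ht, SLC.simple_val, mul_comm (C.ip _ _) (v i)]

theorem tor_conj (v : Fin n → ℤ) (t : K) (ht : t ≠ 0) (β : C.Root) (u : K) :
    S.tor v t * S.x β u * (S.tor v t)⁻¹ = S.x β (t ^ (C.ip v β.1) * u) := by
  unfold tor
  rw [S.S2_tor v t ht β (List.finRange n) u, ← C.sum_ip_single v β.1, Fin.sum_univ_def]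

theorem T_conj_U (m : ℤ) (τ u : H) (hτ : τ ∈ S.T) (hu : u ∈ S.U m) :
    τ * u * τ⁻¹ ∈ S.U m := by
  obtain ⟨c, _, _, h3⟩ := S.T_acts' τ hτ
  unfold U at hu ⊢
  induction hu using Subgroup.closure_induction with
  | mem g hg =>
    obtain ⟨β, t, hβ, rfl⟩ := hg
    rw [h3]
    exact Subgroup.subset_closure ⟨β, _, hβ, rfl⟩
  | one => simp
  | mul a b _ _ iha ihb =>
    have : τ * (a * b) * τ⁻¹ = (τ * a * τ⁻¹) * (τ * b * τ⁻¹) := by group
    rw [this]
    exact Subgroup.mul_mem _ iha ihb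
  | inv a _ iha =>
    have : τ * a⁻¹ * τ⁻¹ = (τ * a * τ⁻¹)⁻¹ := by group
    rw [this]
    exact Subgroup.inv_mem _ iha

end StSys

end Pool.Agent.H75.UL
end

section
/- module Pool.Agent.H75.UL.S3 -/
/-!
# Project UL (MP_978914_al), module S3

The structure of `U m` (`m ≥ 1`): normality and ordered products.

`U_conj`: for `ht γ ≥ 1`, `ht β ≥ m ≥ 1` one has `β ≠ -γ`, and `x_γ(s) x_β(t) x_γ(s)⁻¹` is `x_β(t)`
(`comm`) or `x_{γ+β}(..) x_β(t)` (`comm_add`, `ht (γ+β) ≥ m`); closure induction on `u`, then on `g`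
(`x_γ(s)⁻¹ = x_γ(-s)`).
`mem_posList`, `posList_sorted`, `posList_nodup`: from `List.mem_insertionSort` etc.
`exists_lp`: let `N` bound all heights. Downward induction on `m`, from `m > N` (`U m = ⊥`, `t = 0`).
Step: suppose it holds for `m + 1`. Let `L` be the list of positive roots of height `m`
(`posList.filter`). Claim: every `g ∈ U m` is `lp L t * u'`, `u' ∈ U (m + 1)`. Closure induction,
left multiplication by a generator `x_β(s)` (or its inverse): if `ht β ≥ m + 1`, move it to the right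
of `lp L t` with `U_conj`. If `ht β = m`: `x_β(s) x_γ(r) = x_γ(r) x_β(s)` up to an element of
`U (2m) ≤ U (m+1)` (`ht γ = m`), which is moved to the right (`U_conj`), until `x_β(s)` meets
`x_β(t_β)` and is absorbed (`map_add`). Finally, as `posList` is sorted, for `t` supported in heights
`≥ m`: `lp posList t = lp L t * lp posList t'` with `t'` the restriction to heights `≥ m + 1`
(`lp_split`: the factors with `t β = 0` are `1`).
`lp_split` in general: for `t = t₁ + t₂` with `t₁` supported in heights `≤ m` and `t₂` in heights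
`> m`, `lp posList t = lp posList t₁ * lp posList t₂`.
-/

set_option autoImplicit false
open Matrix
universe u
namespace Pool.Agent.H75.UL

namespace StSys
variable {n : ℕ} {C : SLC n} {K : Type*} [Field K] {H : Type*} [Group H] (S : StSys C K H)

theorem _root_.Pool.Agent.H75.UL.SLC.mem_posList {n : ℕ} (C : SLC n) (β : C.Root) :
    β ∈ C.posList ↔ C.Pos β := by
  unfold SLC.posList
  rw [List.mem_insertionSort, Finset.mem_toList, Finset.mem_filter]
  simp

theorem _root_.Pool.Agent.H75.UL.SLC.posList_nodup {n : ℕ} (C : SLC n) : C.posList.Nodup := by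
  unfold SLC.posList
  rw [(List.perm_insertionSort _ _).nodup_iff]
  exact Finset.nodup_toList _

theorem _root_.Pool.Agent.H75.UL.SLC.posList_sorted {n : ℕ} (C : SLC n) :
    C.posList.Pairwise (fun a b => ht a.1 ≤ ht b.1) := by
  unfold SLC.posList
  have : Std.Total (fun a b : C.Root => ht a.1 ≤ ht b.1) := ⟨fun a b => le_total _ _⟩
  have : IsTrans C.Root (fun a b : C.Root => ht a.1 ≤ ht b.1) := ⟨fun a b c h1 h2 => h1.trans h2⟩
  exact List.pairwise_insertionSort _ _

private theorem s3_mem (m : ℤ) (β : C.Root) (t : K) (h : m ≤ ht β.1) : S.x β t ∈ S.U m :=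
  Subgroup.subset_closure ⟨β, t, h, rfl⟩

private theorem s3_mono {m k : ℤ} (h : m ≤ k) : S.U k ≤ S.U m := by
  unfold U
  apply Subgroup.closure_mono
  rintro g ⟨β, t, hβ, rfl⟩
  exact ⟨β, t, h.trans hβ, rfl⟩

/-- conjugation by one root element -/
private theorem s3_conj_gen (m : ℤ) (hm : 1 ≤ m) (γ : C.Root) (s : K) (hγ : 1 ≤ ht γ.1) (u : H)
    (hu : u ∈ S.U m) : S.x γ s * u * (S.x γ s)⁻¹ ∈ S.U m := by
  unfold U at hu
  induction hu using Subgroup.closure_induction with
  | mem u hu =>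
    obtain ⟨β, t, hβ, rfl⟩ := hu
    rcases C.ip_cases γ β with h | h | h
    · exfalso
      rw [C.ip_eq_neg_two_iff] at h
      rw [h, SLC.Root.neg_val, ht_neg] at hβ
      omega
    · obtain ⟨δ, hδ⟩ := C.exists_add γ β h
      have h1 := S.comm_add γ β δ s t hδ
      have h2 : S.x γ s * S.x β t * (S.x γ s)⁻¹
          = S.x δ (C.eps γ.1 β.1 * s * t) * S.x β t := by
        rw [← h1]
        group
      rw [h2]
      refine mul_mem (S.s3_mem m δ _ ?_) (S.s3_mem m β t hβ)
      rw [hδ, ht_add]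
      omega
    · have h0 : 0 ≤ C.ip γ.1 β.1 := by omega
      rw [S.comm γ β s t h0, mul_inv_cancel_right]
      exact S.s3_mem m β t hβ
  | one => simpa using one_mem _
  | mul a b _ _ ha hb =>
    have : S.x γ s * (a * b) * (S.x γ s)⁻¹
        = (S.x γ s * a * (S.x γ s)⁻¹) * (S.x γ s * b * (S.x γ s)⁻¹) := by group
    rw [this]
    exact mul_mem ha hb
  | inv a _ ha =>
    have : S.x γ s * a⁻¹ * (S.x γ s)⁻¹ = (S.x γ s * a * (S.x γ s)⁻¹)⁻¹ := by group
    rw [this]
    exact inv_mem ha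

theorem U_conj (m : ℤ) (hm : 1 ≤ m) (g u : H) (hg : g ∈ S.U 1) (hu : u ∈ S.U m) :
    g * u * g⁻¹ ∈ S.U m := by
  have key : ∀ g ∈ S.U 1, (∀ u ∈ S.U m, g * u * g⁻¹ ∈ S.U m) ∧
      (∀ u ∈ S.U m, g⁻¹ * u * g⁻¹⁻¹ ∈ S.U m) := by
    intro g hg
    unfold U at hg
    induction hg using Subgroup.closure_induction with
    | mem g hg =>
      obtain ⟨γ, s, hγ, rfl⟩ := hg
      refine ⟨fun u hu => S.s3_conj_gen m hm γ s hγ u hu, fun u hu => ?_⟩
      rw [← S.x_neg]
      exact S.s3_conj_gen m hm γ (-s) hγ u hu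
    | one => exact ⟨fun u hu => by simpa using hu, fun u hu => by simpa using hu⟩
    | mul a b _ _ ha hb =>
      refine ⟨fun u hu => ?_, fun u hu => ?_⟩
      · have : a * b * u * (a * b)⁻¹ = a * (b * u * b⁻¹) * a⁻¹ := by group
        rw [this]
        exact ha.1 _ (hb.1 u hu)
      · have : (a * b)⁻¹ * u * (a * b)⁻¹⁻¹ = b⁻¹ * (a⁻¹ * u * a⁻¹⁻¹) * b⁻¹⁻¹ := by group
        rw [this]
        exact hb.2 _ (ha.2 u hu)
    | inv a _ ha =>
      refine ⟨ha.2, fun u hu => ?_⟩
      rw [inv_inv]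
      exact ha.1 u hu
  exact (key g hg).1 u hu

/-- For large `m` the group `U m` is trivial. -/
theorem exists_U_eq_bot : ∃ m : ℤ, 1 ≤ m ∧ (∀ β : C.Root, ht β.1 < m) ∧ S.U m = ⊥ := by
  refine ⟨1 + ∑ β : C.Root, |ht β.1|, ?_, ?_, ?_⟩
  · have : 0 ≤ ∑ β : C.Root, |ht β.1| := Finset.sum_nonneg fun _ _ => abs_nonneg _
    omega
  · intro β
    have h1 : |ht β.1| ≤ ∑ β : C.Root, |ht β.1| :=
      Finset.single_le_sum (f := fun β : C.Root => |ht β.1|) (fun _ _ => abs_nonneg _)
        (Finset.mem_univ β)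
    have h2 := le_abs_self (ht β.1)
    omega
  · unfold U
    rw [Subgroup.closure_eq_bot_iff]
    rintro g ⟨β, t, hβ, -⟩
    exfalso
    have h1 : |ht β.1| ≤ ∑ β : C.Root, |ht β.1| :=
      Finset.single_le_sum (f := fun β : C.Root => |ht β.1|) (fun _ _ => abs_nonneg _)
        (Finset.mem_univ β)
    have h2 := le_abs_self (ht β.1)
    omega

theorem lp_mem (m : ℤ) (t : C.Root → K) (h : ∀ β, ht β.1 < m → t β = 0) :
    S.lp C.posList t ∈ S.U m := by
  unfold lp
  apply Subgroup.list_prod_mem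
  intro g hg
  rw [List.mem_map] at hg
  obtain ⟨β, -, rfl⟩ := hg
  by_cases hβ : m ≤ ht β.1
  · exact S.s3_mem m β _ hβ
  · rw [h β (not_le.mp hβ), S.x_zero]
    exact one_mem _

theorem lp_zero (l : List C.Root) (t : C.Root → K) (h : ∀ β ∈ l, t β = 0) :
    S.lp l t = 1 := by
  unfold lp
  apply List.prod_eq_one
  intro g hg
  rw [List.mem_map] at hg
  obtain ⟨β, hβ, rfl⟩ := hg
  rw [h β hβ, S.x_zero]

theorem lp_congr (l : List C.Root) (t t' : C.Root → K) (h : ∀ β ∈ l, t β = t' β) :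
    S.lp l t = S.lp l t' := by
  unfold lp
  congr 1
  apply List.map_congr_left
  intro β hβ
  rw [h β hβ]

private theorem s3_cons (β : C.Root) (l : List C.Root) (t : C.Root → K) :
    S.lp (β :: l) t = S.x β (t β) * S.lp l t := by
  unfold lp
  rw [List.map_cons, List.prod_cons]

private theorem s3_split (m : ℤ) (t : C.Root → K) (l : List C.Root)
    (hl : l.Pairwise (fun a b => ht a.1 ≤ ht b.1)) :
    S.lp l t = S.lp l (fun β => if ht β.1 ≤ m then t β else 0) *
      S.lp l (fun β => if ht β.1 ≤ m then 0 else t β) := by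
  induction l with
  | nil => simp [lp]
  | cons β l ih =>
    rw [List.pairwise_cons] at hl
    have ih' := ih hl.2
    by_cases hβ : ht β.1 ≤ m
    · rw [s3_cons, s3_cons, s3_cons]
      simp only [if_pos hβ, S.x_zero, one_mul]
      rw [ih']
      group
    · rw [S.lp_zero (β :: l) (fun β => if ht β.1 ≤ m then t β else 0), one_mul]
      · apply S.lp_congr
        intro γ hγ
        have : ¬ ht γ.1 ≤ m := by
          rw [List.mem_cons] at hγ
          rcases hγ with rfl | hγ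
          · exact hβ
          · have := hl.1 γ hγ
            omega
        simp only [if_neg this]
      · intro γ hγ
        have : ¬ ht γ.1 ≤ m := by
          rw [List.mem_cons] at hγ
          rcases hγ with rfl | hγ
          · exact hβ
          · have := hl.1 γ hγ
            omega
        simp only [if_neg this]

theorem lp_split (m : ℤ) (t : C.Root → K) :
    S.lp C.posList t = S.lp C.posList (fun β => if ht β.1 ≤ m then t β else 0) *
      S.lp C.posList (fun β => if ht β.1 ≤ m then 0 else t β) :=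
  S.s3_split m t C.posList C.posList_sorted

private theorem s3_conj' (m : ℤ) (hm : 1 ≤ m) (g u : H) (hg : g ∈ S.U 1) (hu : u ∈ S.U m) :
    g⁻¹ * u * g ∈ S.U m := by
  have := S.U_conj m hm g⁻¹ u (inv_mem hg) hu
  rwa [inv_inv] at this

/-- commutator of a root element with an element of `U m` -/
private theorem s3_comm_gen (m : ℤ) (hm : 1 ≤ m) (β : C.Root) (s : K) (hβ : m ≤ ht β.1) (b : H)
    (hb : b ∈ S.U m) : S.x β s * b * (S.x β s)⁻¹ * b⁻¹ ∈ S.U (m + 1) := by
  unfold U at hb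
  induction hb using Subgroup.closure_induction with
  | mem b hb =>
    obtain ⟨γ, t, hγ, rfl⟩ := hb
    rcases C.ip_cases β γ with h | h | h
    · exfalso
      rw [C.ip_eq_neg_two_iff] at h
      rw [h, SLC.Root.neg_val, ht_neg] at hγ
      omega
    · obtain ⟨δ, hδ⟩ := C.exists_add β γ h
      rw [S.comm_add β γ δ s t hδ]
      refine S.s3_mem (m + 1) δ _ ?_
      rw [hδ, ht_add]
      omega
    · have h0 : 0 ≤ C.ip β.1 γ.1 := by omega
      rw [S.comm β γ s t h0, mul_inv_cancel_right, mul_inv_cancel]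
      exact one_mem _
  | one => simpa using one_mem _
  | mul b1 b2 h1 h2 ih1 ih2 =>
    have e : S.x β s * (b1 * b2) * (S.x β s)⁻¹ * (b1 * b2)⁻¹
        = (S.x β s * b1 * (S.x β s)⁻¹ * b1⁻¹) *
          (b1 * (S.x β s * b2 * (S.x β s)⁻¹ * b2⁻¹) * b1⁻¹) := by group
    rw [e]
    refine mul_mem ih1 (S.U_conj (m + 1) (by omega) b1 _ (S.s3_mono hm h1) ih2)
  | inv b1 h1 ih1 =>
    have e : S.x β s * b1⁻¹ * (S.x β s)⁻¹ * b1⁻¹⁻¹
        = b1⁻¹ * (S.x β s * b1 * (S.x β s)⁻¹ * b1⁻¹)⁻¹ * b1 := by group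
    rw [e]
    exact S.s3_conj' (m + 1) (by omega) b1 _ (S.s3_mono hm h1) (inv_mem ih1)

/-- additivity modulo `U (m + 1)` -/
private theorem s3_add (m : ℤ) (hm : 1 ≤ m) (t t' : C.Root → K) (h : ∀ β, ht β.1 ≠ m → t β = 0)
    (h' : ∀ β, ht β.1 ≠ m → t' β = 0) (l : List C.Root) :
    (S.lp l t * S.lp l t')⁻¹ * S.lp l (fun β => t β + t' β) ∈ S.U (m + 1) := by
  have hmem : ∀ (l : List C.Root) (s : C.Root → K), (∀ β, ht β.1 ≠ m → s β = 0) →
      S.lp l s ∈ S.U m := by
    intro l s hs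
    unfold lp
    apply Subgroup.list_prod_mem
    intro g hg
    rw [List.mem_map] at hg
    obtain ⟨β, -, rfl⟩ := hg
    by_cases hβ : ht β.1 = m
    · exact S.s3_mem m β _ hβ.ge
    · rw [hs β hβ, S.x_zero]
      exact one_mem _
  induction l with
  | nil => simp [lp]
  | cons β l ih =>
    rw [s3_cons, s3_cons, s3_cons]
    set A := S.lp l t with hA
    set B := S.lp l t' with hB
    set D := S.lp l (fun β => t β + t' β) with hD
    have hAm : A ∈ S.U 1 := S.s3_mono hm (hmem l t h)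
    have hAm' : A ∈ S.U m := hmem l t h
    have hBm : B ∈ S.U 1 := S.s3_mono hm (hmem l t' h')
    simp only [S.map_add]
    by_cases hβ : ht β.1 = m
    · have h1 := S.s3_comm_gen m hm β (t' β) hβ.ge A hAm'
      have e : (S.x β (t β) * A * (S.x β (t' β) * B))⁻¹ * (S.x β (t β) * S.x β (t' β) * D)
          = (B⁻¹ * ((S.x β (t' β))⁻¹ * (A⁻¹ * (S.x β (t' β) * A * (S.x β (t' β))⁻¹ * A⁻¹) * A)
              * S.x β (t' β)) * B) * ((A * B)⁻¹ * D) := by group
      rw [e]
      refine mul_mem ?_ ih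
      refine S.s3_conj' (m + 1) (by omega) B _ hBm ?_
      refine S.s3_conj' (m + 1) (by omega) _ _ (S.s3_mem 1 β _ (by omega)) ?_
      exact S.s3_conj' (m + 1) (by omega) A _ hAm h1
    · rw [h β hβ, h' β hβ, S.x_zero]
      simpa using ih

/-- Products of the same height: `lp` is additive modulo `U (m + 1)`. -/
private theorem s3_add_layer (m : ℤ) (hm : 1 ≤ m) (t t' : C.Root → K)
    (h : ∀ β, ht β.1 ≠ m → t β = 0)
    (h' : ∀ β, ht β.1 ≠ m → t' β = 0) : ∃ u' ∈ S.U (m + 1),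
      S.lp C.posList (fun β => t β + t' β) = S.lp C.posList t * S.lp C.posList t' * u' :=
  ⟨_, S.s3_add m hm t t' h h' C.posList, by group⟩

private theorem s3_single (β : C.Root) (s : K) (l : List C.Root) (hl : l.Nodup) (hβ : β ∈ l) :
    S.lp l (fun γ => if γ = β then s else 0) = S.x β s := by
  induction l with
  | nil => simp at hβ
  | cons γ l ih =>
    rw [s3_cons]
    rw [List.nodup_cons] at hl
    by_cases h : γ = β
    · subst h
      rw [S.lp_zero l, if_pos rfl, mul_one]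
      intro δ hδ
      rw [if_neg]
      rintro rfl
      exact hl.1 hδ
    · rw [if_neg h, S.x_zero, one_mul]
      refine ih hl.2 ?_
      rw [List.mem_cons] at hβ
      rcases hβ with rfl | hβ
      · exact absurd rfl h
      · exact hβ

/-- One height: an element of `U m` is an ordered product at height `m` times an element of
`U (m + 1)`. -/
theorem exists_layer (m : ℤ) (hm : 1 ≤ m) (u : H) (hu : u ∈ S.U m) :
    ∃ t : C.Root → K, (∀ β, ht β.1 ≠ m → t β = 0) ∧ ∃ u' ∈ S.U (m + 1),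
      u = S.lp C.posList t * u' := by
  have step : ∀ (β : C.Root) (s : K), m ≤ ht β.1 → ∀ y : H,
      (∃ t : C.Root → K, (∀ β, ht β.1 ≠ m → t β = 0) ∧ ∃ u' ∈ S.U (m + 1),
        y = S.lp C.posList t * u') →
      (∃ t : C.Root → K, (∀ β, ht β.1 ≠ m → t β = 0) ∧ ∃ u' ∈ S.U (m + 1),
        S.x β s * y = S.lp C.posList t * u') := by
    rintro β s hβ y ⟨t, ht0, u', hu', rfl⟩
    by_cases hβm : ht β.1 = m
    · have hpos : β ∈ C.posList := by
        rw [C.mem_posList]
        unfold SLC.Pos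
        omega
      have h1 := S.s3_single β s C.posList C.posList_nodup hpos
      have h2 : ∀ γ : C.Root, ht γ.1 ≠ m → (if γ = β then s else 0) = 0 := by
        intro γ hγ
        rw [if_neg]
        rintro rfl
        exact hγ hβm
      obtain ⟨u'', hu'', h3⟩ := S.s3_add_layer m hm (fun γ => if γ = β then s else 0) t h2 ht0
      refine ⟨fun γ => (if γ = β then s else 0) + t γ, fun γ hγ => ?_, u''⁻¹ * u',
        mul_mem (inv_mem hu'') hu', ?_⟩
      · simp only [h2 γ hγ, ht0 γ hγ, add_zero]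
      · rw [h3, h1]
        group
    · refine ⟨t, ht0, ((S.lp C.posList t)⁻¹ * S.x β s * S.lp C.posList t) * u', ?_, by group⟩
      refine mul_mem ?_ hu'
      refine S.s3_conj' (m + 1) (by omega) _ _ ?_ (S.s3_mem (m + 1) β s (by omega))
      refine S.lp_mem 1 t fun γ hγ => ht0 γ ?_
      omega
  unfold U at hu
  induction hu using Subgroup.closure_induction_left with
  | one =>
    refine ⟨fun _ => 0, fun _ _ => rfl, 1, one_mem _, ?_⟩
    rw [S.lp_zero _ _ (fun _ _ => rfl), mul_one]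
  | mul_left x hx y _ ih =>
    obtain ⟨β, s, hβ, rfl⟩ := hx
    exact step β s hβ y ih
  | inv_mul_cancel x hx y _ ih =>
    obtain ⟨β, s, hβ, rfl⟩ := hx
    rw [← S.x_neg]
    exact step β (-s) hβ y ih

theorem exists_lp (m : ℤ) (hm : 1 ≤ m) (u : H) (hu : u ∈ S.U m) :
    ∃ t : C.Root → K, (∀ β, ht β.1 < m → t β = 0) ∧ u = S.lp C.posList t := by
  obtain ⟨M, hM1, hM2, hM3⟩ := S.exists_U_eq_bot
  have key : ∀ k : ℕ, ∀ m : ℤ, 1 ≤ m → M ≤ m + k → ∀ u ∈ S.U m,
      ∃ t : C.Root → K, (∀ β, ht β.1 < m → t β = 0) ∧ u = S.lp C.posList t := by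
    intro k
    induction k with
    | zero =>
      intro m hm hMm u hu
      have h1 : u ∈ S.U M := S.s3_mono (by simpa using hMm) hu
      rw [hM3, Subgroup.mem_bot] at h1
      refine ⟨fun _ => 0, fun _ _ => rfl, ?_⟩
      rw [h1, S.lp_zero _ _ (fun _ _ => rfl)]
    | succ k ih =>
      intro m hm hMm u hu
      obtain ⟨t, ht0, u', hu', rfl⟩ := S.exists_layer m hm u hu
      obtain ⟨t', ht', rfl⟩ := ih (m + 1) (by omega) (by push_cast at hMm; omega) u' hu'
      refine ⟨fun β => if ht β.1 ≤ m then t β else t' β, fun β hβ => ?_, ?_⟩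
      · simp only [if_pos hβ.le]
        exact ht0 β hβ.ne
      · rw [S.lp_split m (fun β => if ht β.1 ≤ m then t β else t' β)]
        congr 1
        · apply S.lp_congr
          intro β _
          by_cases hβ : ht β.1 ≤ m
          · simp only [if_pos hβ]
          · simp only [if_neg hβ]
            exact ht0 β (by omega)
        · apply S.lp_congr
          intro β _
          by_cases hβ : ht β.1 ≤ m
          · simp only [if_pos hβ]
            exact ht' β (by omega)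
          · simp only [if_neg hβ]
  exact key (M - m).toNat m hm (by have := Int.self_le_toNat (M - m); omega) u hu

/-- Products of the same height: `lp` is additive modulo `U (m + 1)`. -/
theorem lp_add_layer (m : ℤ) (hm : 1 ≤ m) (t t' : C.Root → K) (h : ∀ β, ht β.1 ≠ m → t β = 0)
    (h' : ∀ β, ht β.1 ≠ m → t' β = 0) : ∃ u' ∈ S.U (m + 1),
      S.lp C.posList (fun β => t β + t' β) = S.lp C.posList t * S.lp C.posList t' * u' :=
  S.s3_add_layer m hm t t' h h'

end StSys

end Pool.Agent.H75.UL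
end

section
/- module Pool.Agent.H75.UL.R4b -/
/-!
# Project UL (MP_978914_al), module R4b

Exchange lemma.

`exchange`: induction on `l`. `l = []`: `wd [] = 1` and `simple k` is positive, contradiction.
`l = i :: l'`: if `wd l' α_k` is not positive, use the induction hypothesis (`l₁` becomes `i :: l₁`).
If it is positive, `s_i` maps it to a non positive root, so it is `α_i` (`refl_simple_pos`): take
`l₁ = []`, `j = i`, `l₂ = l'`.
`wd_delete`: `wd l₂ α_k = α_j` gives `reflE α_j = wd l₂ * reflE α_k * (wd l₂)⁻¹` (`reflE_conj`), so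
`wd (l₁ ++ j :: l₂ ++ [k]) = wd l₁ * s_j * wd l₂ * s_k = wd l₁ * s_j * s_j * wd l₂ = wd (l₁ ++ l₂)`.
`eq_one_of_pos`: take a word `l` of minimal length with `w = wd l` (`exists_wd`, `Nat.find`). If
`l ≠ []`, `l = l' ++ [k]` and `w α_k = - wd l' α_k` is positive, so `wd l' α_k` is not positive and
`exchange`, `wd_delete` give a shorter word.
`eq_one_word`: if `wd (l' ++ [k]) = 1` then `wd l' α_k = s_k α_k = -α_k` is not positive, `exchange`.
-/

set_option autoImplicit false
open Matrix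
universe u
namespace Pool.Agent.H75.UL

namespace SLC
variable {n : ℕ} (C : SLC n)

private theorem R4b_wd_cons (i : Fin n) (l : List (Fin n)) :
    C.wd (i :: l) = C.reflE (C.simple i) * C.wd l := by
  simp [wd]

private theorem R4b_wd_append (l₁ l₂ : List (Fin n)) :
    C.wd (l₁ ++ l₂) = C.wd l₁ * C.wd l₂ := by
  simp [wd]

private theorem R4b_wd_single (k : Fin n) : C.wd [k] = C.reflE (C.simple k) := by
  simp [wd]

private theorem R4b_wd_nil : C.wd [] = 1 := by
  simp [wd]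

theorem exchange (l : List (Fin n)) (k : Fin n) (h : ¬ C.Pos (C.wd l (C.simple k))) :
    ∃ (l₁ : List (Fin n)) (j : Fin n) (l₂ : List (Fin n)), l = l₁ ++ j :: l₂ ∧
      C.wd l₂ (C.simple k) = C.simple j := by
  induction l with
  | nil =>
    exfalso
    apply h
    rw [R4b_wd_nil]
    exact C.simple_pos k
  | cons i l' ih =>
    by_cases h1 : C.Pos (C.wd l' (C.simple k))
    · by_cases h2 : C.wd l' (C.simple k) = C.simple i
      · exact ⟨[], i, l', rfl, h2⟩
      · exfalso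
        apply h
        have h3 := C.refl_simple_pos i _ h1 h2
        rw [R4b_wd_cons]
        exact h3
    · obtain ⟨l₁, j, l₂, e, h2⟩ := ih h1
      exact ⟨i :: l₁, j, l₂, by rw [e]; rfl, h2⟩

theorem wd_delete (l₁ l₂ : List (Fin n)) (j k : Fin n) (h : C.wd l₂ (C.simple k) = C.simple j) :
    C.wd (l₁ ++ j :: l₂ ++ [k]) = C.wd (l₁ ++ l₂) := by
  have h1 : C.reflE (C.simple j) = C.wd l₂ * C.reflE (C.simple k) * (C.wd l₂)⁻¹ := by
    rw [← h]
    exact C.reflE_conj _ (C.wd_mem_W l₂) _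
  have h2 : C.reflE (C.simple j) * C.wd l₂ * C.reflE (C.simple k) = C.wd l₂ := by
    rw [h1, inv_mul_cancel_right, mul_assoc, reflE_mul_self, mul_one]
  rw [R4b_wd_append, R4b_wd_append, R4b_wd_cons, R4b_wd_single, R4b_wd_append, mul_assoc, h2]

theorem eq_one_of_pos (w : Equiv.Perm C.Root) (hw : w ∈ C.W)
    (h : ∀ i, C.Pos (w (C.simple i))) : w = 1 := by
  classical
  have hex : ∃ m : ℕ, ∃ l : List (Fin n), l.length = m ∧ w = C.wd l := by
    obtain ⟨l, hl⟩ := C.exists_wd w hw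
    exact ⟨l.length, l, rfl, hl⟩
  obtain ⟨l, hl1, hl2⟩ := Nat.find_spec hex
  rcases List.eq_nil_or_concat l with h0 | ⟨l', k, h0⟩
  · rw [hl2, h0, R4b_wd_nil]
  · exfalso
    rw [List.concat_eq_append] at h0
    have h1 : ¬ C.Pos (C.wd l' (C.simple k)) := by
      have h3 := h k
      rw [hl2, h0, R4b_wd_append, R4b_wd_single, Equiv.Perm.mul_apply, reflE_apply, refl_self,
        C.W_neg _ (C.wd_mem_W l')] at h3
      exact (C.not_pos_iff _).mpr h3
    obtain ⟨l₁, j, l₂, e, h2⟩ := C.exchange l' k h1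
    have h3 : w = C.wd (l₁ ++ l₂) := by
      rw [hl2, h0, e]
      exact C.wd_delete l₁ l₂ j k h2
    have h4 := Nat.find_min' hex ⟨l₁ ++ l₂, rfl, h3⟩
    rw [← hl1, h0, e] at h4
    simp only [List.length_append, List.length_cons, List.length_nil] at h4
    omega

theorem eq_one_word (l : List (Fin n)) (hl : l ≠ []) (h : C.wd l = 1) :
    ∃ (l₁ : List (Fin n)) (j : Fin n) (l₂ : List (Fin n)) (k : Fin n),
      l = l₁ ++ j :: l₂ ++ [k] ∧ C.wd l₂ (C.simple k) = C.simple j ∧ C.wd (l₁ ++ l₂) = 1 := by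
  rcases List.eq_nil_or_concat l with h0 | ⟨l', k, h0⟩
  · exact absurd h0 hl
  · rw [List.concat_eq_append] at h0
    have h5 : C.wd l' * C.reflE (C.simple k) = 1 := by
      rw [← R4b_wd_single, ← R4b_wd_append, ← h0]
      exact h
    have h6 : C.wd l' = C.reflE (C.simple k) := by
      have h7 := congrArg (fun z => z * C.reflE (C.simple k)) h5
      simp only [mul_assoc, reflE_mul_self, mul_one, one_mul] at h7
      exact h7
    have h1 : ¬ C.Pos (C.wd l' (C.simple k)) := by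
      rw [h6, reflE_apply, refl_self, not_pos_iff, neg_neg_root]
      exact C.simple_pos k
    obtain ⟨l₁, j, l₂, e, h2⟩ := C.exchange l' k h1
    refine ⟨l₁, j, l₂, k, by rw [h0, e], h2, ?_⟩
    rw [← C.wd_delete l₁ l₂ j k h2, ← e, ← h0]
    exact h

end SLC

end Pool.Agent.H75.UL
end

section
/- module Pool.Agent.H75.UL.S5 -/
/-!
# Project UL (MP_978914_al), module S5

The monomial group `N` and the Weyl group.

Work with the stronger predicate `Acts' g w`: as `Acts`, with moreover `c (-β) = (c β)⁻¹`. It holds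
for `nn α t` and `refl α` (`n_conj_all`: `c β = cs α β * t^(-ip α β)`, and `cs α (-β) = cs α β`), for
`τ ∈ T` and `1` (`T_acts'`), and is multiplicative and stable under inverses (for `w ∈ C.W`, by
`W_neg`). Let `n_i = nn (simple i) 1` and `ν l = ∏ n_i` for a word `l`; `Acts' (ν l) (wd l)`.
(1) If `Acts' g w` and `w α = β` then `g * nn α t * g⁻¹ = nn β (c α * t)`, hence
`g * hh α t * g⁻¹ = hh β (c α t) * (hh β (c α))⁻¹ = hh β t` (`h_mul`): `T` is normalized by `N`.
(2) `N` is generated by `T` and the `n_i`: `nn α t` with `α = w α_i`, `w = wd l`: by (1)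
`nn α t = ν l * nn α_i t' * (ν l)⁻¹` and `nn α_i t' = hh α_i t' * n_i` (`nn_inv`). So every element
of `N` is `ν l * τ` with `τ ∈ T`; note `n_i⁻¹ = n_i * hh..` because `n_i * n_i = (hh α_i (-1))⁻¹ ∈ T`.
(3) If `wd l = 1` then `ν l ∈ T`: strong induction on the length; `l = []` is clear; otherwise
`eq_one_word`: `l = l₁ ++ j :: l₂ ++ [k]`, `wd l₂ α_k = α_j`, so `ν l₂ * n_k * (ν l₂)⁻¹ =
nn α_j (±..) ∈ n_j T` and `ν l = ν l₁ * n_j * (ν l₂ * n_k * (ν l₂)⁻¹) * ν l₂ ∈ ν l₁ * T * ν l₂ =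
T * ν (l₁ ++ l₂)`.
`N_acts`: `ν = ν l * τ`, `w = wd l`. `N_word` is (2).
-/

set_option autoImplicit false
open Matrix
universe u
namespace Pool.Agent.H75.UL

namespace StSys
variable {n : ℕ} {C : SLC n} {K : Type*} [Field K] {H : Type*} [Group H] (S : StSys C K H)

/-- `nn_word l` is the product of the `n_i(1)`, `i` in the word `l`. -/
def nword (l : List (Fin n)) : H := (l.map fun i => nn S.x (C.simple i) 1).prod

/-- the stronger predicate -/
private def S5_A (g : H) (w : Equiv.Perm C.Root) : Prop :=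
  w ∈ C.W ∧ ∃ c : C.Root → K, (∀ β, c β ≠ 0) ∧ (∀ β, c (-β) = (c β)⁻¹) ∧
    ∀ β u, g * S.x β u * g⁻¹ = S.x (w β) (c β * u)

private theorem S5_A_acts {g : H} {w : Equiv.Perm C.Root} (h : S5_A S g w) : S.Acts g w := by
  obtain ⟨_, c, h1, _, h3⟩ := h
  exact ⟨c, h1, h3⟩

private theorem S5_A_one : S5_A S 1 1 := by
  refine ⟨C.W.one_mem, fun _ => 1, fun _ => one_ne_zero, fun _ => inv_one.symm, fun β u => ?_⟩
  rw [one_mul, inv_one, mul_one, one_mul, Equiv.Perm.one_apply]

private theorem S5_A_mul {g g' : H} {w w' : Equiv.Perm C.Root} (h : S5_A S g w)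
    (h' : S5_A S g' w') : S5_A S (g * g') (w * w') := by
  obtain ⟨hw, c, h1, h2, h3⟩ := h
  obtain ⟨hw', c', h1', h2', h3'⟩ := h'
  refine ⟨C.W.mul_mem hw hw', fun β => c (w' β) * c' β, fun β => mul_ne_zero (h1 _) (h1' _),
    fun β => ?_, fun β u => ?_⟩
  · simp only
    rw [C.W_neg w' hw', h2, h2', mul_inv]
  · have e1 : g * g' * S.x β u * (g * g')⁻¹ = g * (g' * S.x β u * g'⁻¹) * g⁻¹ := by group
    rw [e1, h3', h3, Equiv.Perm.mul_apply, mul_assoc]

private theorem S5_apply_inv {C : SLC n} (w : Equiv.Perm C.Root) (β : C.Root) :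
    w (w⁻¹ β) = β := by
  rw [← Equiv.Perm.mul_apply, mul_inv_cancel, Equiv.Perm.one_apply]

private theorem S5_A_inv {g : H} {w : Equiv.Perm C.Root} (h : S5_A S g w) :
    S5_A S g⁻¹ w⁻¹ := by
  obtain ⟨hw, c, h1, h2, h3⟩ := h
  refine ⟨C.W.inv_mem hw, fun β => (c (w⁻¹ β))⁻¹, fun β => inv_ne_zero (h1 _),
    fun β => ?_, fun β u => ?_⟩
  · simp only
    rw [C.W_neg w⁻¹ (C.W.inv_mem hw), h2]
  · have e1 := h3 (w⁻¹ β) ((c (w⁻¹ β))⁻¹ * u)
    rw [← mul_assoc (c (w⁻¹ β)), mul_inv_cancel₀ (h1 _), one_mul, S5_apply_inv] at e1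
    rw [← e1]
    group

private theorem S5_cs_neg (α β : C.Root) : C.cs α (-β) = C.cs α β := by
  unfold SLC.cs
  rw [SLC.Root.neg_val, SLC.ip_neg_right, SLC.eps_neg_right]
  by_cases h : C.ip α.1 β.1 = 1 ∨ C.ip α.1 β.1 = -1
  · rw [if_pos h, if_pos (by rcases h with h | h <;> simp [h])]
  · rw [if_neg h, if_neg]
    intro hc
    apply h
    rcases hc with hc | hc
    · right; omega
    · left; omega

private theorem S5_cs (α β : C.Root) : C.cs α β = 1 ∨ C.cs α β = -1 := by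
  unfold SLC.cs
  split_ifs
  · exact C.eps_eq_one_or _ _
  · exact Or.inl rfl

private theorem S5_A_nn (α : C.Root) (t : K) (ht : t ≠ 0) :
    S5_A S (nn S.x α t) (C.reflE α) := by
  refine ⟨C.reflE_mem_W α, fun β => (C.cs α β : K) * t ^ (- C.ip α.1 β.1), fun β => ?_,
    fun β => ?_, fun β u => ?_⟩
  · apply mul_ne_zero
    · rcases S5_cs (C := C) α β with h | h <;> simp [h]
    · exact zpow_ne_zero _ ht
  · simp only
    rw [S5_cs_neg, SLC.Root.neg_val, SLC.ip_neg_right, neg_neg, mul_inv, _root_.zpow_neg, inv_inv]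
    rcases S5_cs (C := C) α β with h | h <;> simp [h, inv_neg]
  · rw [S.n_conj_all α β t u ht]
    rfl

private theorem S5_A_T {τ : H} (hτ : τ ∈ S.T) : S5_A S τ 1 := by
  obtain ⟨c, h1, h2, h3⟩ := S.T_acts' τ hτ
  exact ⟨C.W.one_mem, c, h1, h2, h3⟩

private theorem S5_nn_mem (α : C.Root) (t : K) (ht : t ≠ 0) : nn S.x α t ∈ S.N :=
  Subgroup.subset_closure ⟨α, t, ht, rfl⟩

private theorem S5_hh_mem (α : C.Root) (t : K) (ht : t ≠ 0) : hh S.x α t ∈ S.T :=
  Subgroup.subset_closure ⟨α, t, ht, rfl⟩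

private theorem S5_A_N {ν : H} (hν : ν ∈ S.N) : ∃ w, S5_A S ν w := by
  refine Subgroup.closure_induction (p := fun ν _ => ∃ w, S5_A S ν w) ?_ ?_ ?_ ?_ hν
  · rintro _ ⟨α, t, ht, rfl⟩
    exact ⟨_, S5_A_nn S α t ht⟩
  · exact ⟨1, S5_A_one S⟩
  · rintro x y _ _ ⟨w, hw⟩ ⟨w', hw'⟩
    exact ⟨w * w', S5_A_mul S hw hw'⟩
  · rintro x _ ⟨w, hw⟩
    exact ⟨w⁻¹, S5_A_inv S hw⟩

/-- conjugates of `nn` -/
private theorem S5_conj_nn {g : H} {w : Equiv.Perm C.Root} (hw : w ∈ C.W) {c : C.Root → K}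
    (h2 : ∀ β, c (-β) = (c β)⁻¹)
    (h3 : ∀ β u, g * S.x β u * g⁻¹ = S.x (w β) (c β * u)) (α : C.Root) (t : K) :
    g * nn S.x α t * g⁻¹ = nn S.x (w α) (c α * t) := by
  unfold nn
  have e1 : g * (S.x α t * S.x (-α) t⁻¹ * S.x α t) * g⁻¹ =
      (g * S.x α t * g⁻¹) * (g * S.x (-α) t⁻¹ * g⁻¹) * (g * S.x α t * g⁻¹) := by group
  rw [e1, h3, h3, h2, C.W_neg w hw, mul_inv]

/-- `nn α t = hh α t * nn α 1` -/
private theorem S5_nn_eq (α : C.Root) (t : K) : nn S.x α t = hh S.x α t * nn S.x α 1 := by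
  unfold hh
  have h := S.nn_inv α 1
  rw [← h]
  group

/-- `n_i * n_i ∈ T` -/
private theorem S5_sq (α : C.Root) : nn S.x α 1 * nn S.x α 1 ∈ S.T := by
  have h1 := S5_hh_mem S α (-1) (neg_ne_zero.2 one_ne_zero)
  have h2 : hh S.x α (-1) = (nn S.x α 1 * nn S.x α 1)⁻¹ := by
    unfold hh
    rw [← S.nn_inv α 1]
    group
  rw [h2] at h1
  exact inv_mem_iff.1 h1

theorem nword_mem (l : List (Fin n)) : S.nword l ∈ S.N := by
  unfold nword
  apply Subgroup.list_prod_mem
  intro x hx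
  rw [List.mem_map] at hx
  obtain ⟨i, _, rfl⟩ := hx
  exact S5_nn_mem S _ _ one_ne_zero

private theorem S5_nword_A (l : List (Fin n)) : S5_A S (S.nword l) (C.wd l) := by
  induction l with
  | nil => exact S5_A_one S
  | cons i l ih =>
    have h := S5_A_mul S (S5_A_nn S (C.simple i) 1 one_ne_zero) ih
    have e1 : S.nword (i :: l) = nn S.x (C.simple i) 1 * S.nword l := by
      unfold nword
      rw [List.map_cons, List.prod_cons]
    have e2 : C.wd (i :: l) = C.reflE (C.simple i) * C.wd l := by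
      unfold SLC.wd
      rw [List.map_cons, List.prod_cons]
    rw [e1, e2]
    exact h

theorem nword_acts (l : List (Fin n)) : S.Acts (S.nword l) (C.wd l) :=
  S5_A_acts S (S5_nword_A S l)

theorem exists_N (w : Equiv.Perm C.Root) (hw : w ∈ C.W) : ∃ ν ∈ S.N, S.Acts ν w := by
  obtain ⟨l, rfl⟩ := C.exists_wd w hw
  exact ⟨S.nword l, S.nword_mem l, S.nword_acts l⟩

theorem N_conj_T (ν τ : H) (hν : ν ∈ S.N) (hτ : τ ∈ S.T) : ν * τ * ν⁻¹ ∈ S.T := by
  obtain ⟨w, hw, c, h1, h2, h3⟩ := S5_A_N S hν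
  refine Subgroup.closure_induction (p := fun τ _ => ν * τ * ν⁻¹ ∈ S.T) ?_ ?_ ?_ ?_ hτ
  · rintro _ ⟨α, t, ht, rfl⟩
    have e1 : ν * hh S.x α t * ν⁻¹ = hh S.x (w α) (c α * t) * (hh S.x (w α) (c α))⁻¹ := by
      have e2 : ν * hh S.x α t * ν⁻¹ = (ν * nn S.x α t * ν⁻¹) * (ν * nn S.x α (-1) * ν⁻¹) := by
        unfold hh
        group
      rw [e2, S5_conj_nn S hw h2 h3, S5_conj_nn S hw h2 h3]
      have e3 : nn S.x (w α) (c α * -1) = (nn S.x (w α) (c α))⁻¹ := by
        rw [S.nn_inv]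
        congr 1
        ring
      rw [e3]
      unfold hh
      group
    rw [e1]
    exact S.T.mul_mem (S5_hh_mem S _ _ (mul_ne_zero (h1 _) ht))
      (S.T.inv_mem (S5_hh_mem S _ _ (h1 _)))
  · rw [mul_one, mul_inv_cancel]
    exact S.T.one_mem
  · intro x y _ _ hx hy
    have e1 : ν * (x * y) * ν⁻¹ = (ν * x * ν⁻¹) * (ν * y * ν⁻¹) := by group
    rw [e1]
    exact S.T.mul_mem hx hy
  · intro x _ hx
    have e1 : ν * x⁻¹ * ν⁻¹ = (ν * x * ν⁻¹)⁻¹ := by group
    rw [e1]
    exact S.T.inv_mem hx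

private theorem S5_nword_append (l l' : List (Fin n)) :
    S.nword (l ++ l') = S.nword l * S.nword l' := by
  unfold nword
  rw [List.map_append, List.prod_append]

private theorem S5_nword_single (i : Fin n) : S.nword [i] = nn S.x (C.simple i) 1 := by
  unfold nword
  rw [List.map_singleton, List.prod_singleton]

private def S5_P (ν : H) : Prop := ∃ l : List (Fin n), ∃ τ ∈ S.T, ν = S.nword l * τ

private theorem S5_P_mul {ν ν' : H} (h : S5_P S ν) (h' : S5_P S ν') : S5_P S (ν * ν') := by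
  obtain ⟨l, τ, hτ, rfl⟩ := h
  obtain ⟨l', τ', hτ', rfl⟩ := h'
  refine ⟨l ++ l', (S.nword l')⁻¹ * τ * ((S.nword l')⁻¹)⁻¹ * τ', ?_, ?_⟩
  · exact S.T.mul_mem (S.N_conj_T _ _ (S.N.inv_mem (S.nword_mem l')) hτ) hτ'
  · rw [S5_nword_append]
    group

private theorem S5_P_T {τ : H} (h : τ ∈ S.T) : S5_P S τ :=
  ⟨[], τ, h, by unfold nword; simp⟩

private theorem S5_P_word (l : List (Fin n)) : S5_P S (S.nword l) :=
  ⟨l, 1, S.T.one_mem, by rw [mul_one]⟩

private theorem S5_P_ninv (l : List (Fin n)) : S5_P S (S.nword l)⁻¹ := by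
  induction l with
  | nil =>
    have : (S.nword ([] : List (Fin n)))⁻¹ = 1 := by unfold nword; simp
    rw [this]
    exact S5_P_T S S.T.one_mem
  | cons i l ih =>
    have e1 : S.nword (i :: l) = S.nword [i] * S.nword l := S5_nword_append S [i] l
    rw [e1, _root_.mul_inv_rev]
    apply S5_P_mul S ih
    have e2 : (S.nword [i])⁻¹ = S.nword [i] * (S.nword [i] * S.nword [i])⁻¹ := by group
    rw [e2]
    apply S5_P_mul S (S5_P_word S [i])
    apply S5_P_T
    apply S.T.inv_mem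
    rw [S5_nword_single]
    exact S5_sq S _

private theorem S5_P_inv {ν : H} (h : S5_P S ν) : S5_P S ν⁻¹ := by
  obtain ⟨l, τ, hτ, rfl⟩ := h
  rw [_root_.mul_inv_rev]
  exact S5_P_mul S (S5_P_T S (S.T.inv_mem hτ)) (S5_P_ninv S l)

theorem N_word (ν : H) (hν : ν ∈ S.N) : ∃ l : List (Fin n), ∃ τ ∈ S.T, ν = S.nword l * τ := by
  show S5_P S ν
  refine Subgroup.closure_induction (p := fun ν _ => S5_P S ν) ?_ ?_ ?_ ?_ hν
  · rintro _ ⟨α, t, ht, rfl⟩
    obtain ⟨w, hw, i, hi⟩ := C.exists_W_simple α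
    obtain ⟨l, rfl⟩ := C.exists_wd w hw
    obtain ⟨_, c, h1, h2, h3⟩ := S5_nword_A S l
    have e1 := S5_conj_nn S hw h2 h3 (C.simple i) ((c (C.simple i))⁻¹ * t)
    rw [← mul_assoc (c (C.simple i)), mul_inv_cancel₀ (h1 _), one_mul, hi] at e1
    rw [← e1]
    apply S5_P_mul S _ (S5_P_ninv S l)
    apply S5_P_mul S (S5_P_word S l)
    rw [S5_nn_eq]
    apply S5_P_mul S
    · apply S5_P_T
      exact S5_hh_mem S _ _ (mul_ne_zero (inv_ne_zero (h1 _)) ht)
    · rw [← S5_nword_single]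
      exact S5_P_word S [i]
  · exact S5_P_T S S.T.one_mem
  · intro x y _ _ hx hy
    exact S5_P_mul S hx hy
  · intro x _ hx
    exact S5_P_inv S hx

theorem nword_mem_T (l : List (Fin n)) (h : C.wd l = 1) : S.nword l ∈ S.T := by
  have key : ∀ m : ℕ, ∀ l : List (Fin n), l.length = m → C.wd l = 1 → S.nword l ∈ S.T := by
    intro m
    induction m using Nat.strong_induction_on with
    | _ m ih =>
      intro l hl h
      by_cases hne : l = []
      · subst hne
        have : S.nword ([] : List (Fin n)) = 1 := by unfold nword; simp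
        rw [this]
        exact S.T.one_mem
      · obtain ⟨l₁, j, l₂, k, rfl, h1, h2⟩ := C.eq_one_word l hne h
        have hlen : (l₁ ++ l₂).length < m := by
          rw [← hl]
          simp only [List.length_append, List.length_cons, List.length_nil]
          omega
        have hT := ih _ hlen (l₁ ++ l₂) rfl h2
        rw [S5_nword_append] at hT
        obtain ⟨hw, c, g1, g2, g3⟩ := S5_nword_A S l₂
        have e1 := S5_conj_nn S hw g2 g3 (C.simple k) 1
        rw [mul_one, h1] at e1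
        have e2 : S.nword (l₁ ++ j :: l₂ ++ [k]) =
            S.nword l₁ * (nn S.x (C.simple j) 1 *
              (S.nword l₂ * nn S.x (C.simple k) 1 * (S.nword l₂)⁻¹)) * (S.nword l₁)⁻¹ *
              (S.nword l₁ * S.nword l₂) := by
          have e3 : l₁ ++ j :: l₂ ++ [k] = l₁ ++ ([j] ++ (l₂ ++ [k])) := by simp
          rw [e3, S5_nword_append, S5_nword_append, S5_nword_append, S5_nword_single,
            S5_nword_single]
          group
        rw [e2, e1]
        apply S.T.mul_mem _ hT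
        apply S.N_conj_T _ _ (S.nword_mem l₁)
        rw [S5_nn_eq S (C.simple j) (c (C.simple k))]
        have e4 : nn S.x (C.simple j) 1 * (hh S.x (C.simple j) (c (C.simple k)) *
            nn S.x (C.simple j) 1) = (nn S.x (C.simple j) 1 *
            hh S.x (C.simple j) (c (C.simple k)) * (nn S.x (C.simple j) 1)⁻¹) *
            (nn S.x (C.simple j) 1 * nn S.x (C.simple j) 1) := by group
        rw [e4]
        exact S.T.mul_mem (S.N_conj_T _ _ (S5_nn_mem S _ _ one_ne_zero)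
          (S5_hh_mem S _ _ (g1 _))) (S5_sq S _)
  exact key l.length l rfl h

theorem N_acts (ν : H) (hν : ν ∈ S.N) :
    ∃ w ∈ C.W, S.Acts ν w ∧ (w = 1 → ν ∈ S.T) := by
  obtain ⟨l, τ, hτ, rfl⟩ := S.N_word ν hν
  refine ⟨C.wd l, C.wd_mem_W l, ?_, ?_⟩
  · have h := S5_A_mul S (S5_nword_A S l) (S5_A_T S hτ)
    rw [mul_one] at h
    exact S5_A_acts S h
  · intro h
    exact S.T.mul_mem (S.nword_mem_T l h) hτ

end StSys

end Pool.Agent.H75.UL
end

section
/- module Pool.Agent.H75.UL.S6 -/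
/-!
# Project UL (MP_978914_al), module S6

Bruhat decomposition (existence).

Let `n_i = nn α_i 1`, `α_i = simple i`, `U = U 1`, and `Q_i` the subgroup generated by the `x_β(t)`
with `β` positive, `β ≠ α_i`.
(1) `x_{α_i}(s)` normalizes `Q_i` (`α_i + β ≠ α_i` is positive of larger height), so every `u ∈ U` is
`u' * x_{α_i}(s)` with `u' ∈ Q_i` (closure induction).
(2) `n_i Q_i n_i⁻¹ ≤ U` (`n_conj_all`, `refl_simple_pos`).
(3) `X = {u * ν * v | u, v ∈ U, ν ∈ N}` is closed under left multiplication by `U` (clear), by `T`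
(`τ u ν v = (τ u τ⁻¹) (τ ν) v`) and by `n_i`: `u = u' * x_{α_i}(s)`, `n_i u ν v =
(n_i u' n_i⁻¹) * (n_i x_{α_i}(s) ν v)`, so it is enough that `n_i x_{α_i}(s) ν v ∈ X`. Let `w ∈ W`
with `Acts ν w` (`N_acts`). If `Pos (w⁻¹ α_i)`: `x_{α_i}(s) ν = ν * x_{w⁻¹α_i}(..)`, done. If `s = 0`,
done. Otherwise `s ≠ 0` and `¬ Pos (w⁻¹ α_i)`: `n_i x_{α_i}(s) = x_{-α_i}(s) n_i` (`n_conj`, `t = 1`)
and `x_{-α_i}(s) = x_{α_i}(-t) n_{α_i}(t) x_{α_i}(-t)` with `t = s⁻¹` (definition of `nn`). So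
`n_i x_{α_i}(s) ν v = x_{α_i}(-t) * nn α_i t * x_{α_i}(-t) * (n_i ν) v`, and `n_i ν` acts by
`w' = s_i w`, `w'⁻¹ α_i = w⁻¹ (-α_i) = - w⁻¹ α_i` is positive (`not_pos_iff`), so
`x_{α_i}(-t) (n_i ν) = (n_i ν) * (element of U)`.
(4) `X` contains `1` and is closed under left multiplication by `x_{α_i}(t)`, `x_{-α_i}(t)`
(`= n_i x_{α_i}(..) n_i⁻¹`), `T`, `n_i`, `n_i⁻¹`, hence by every `x_β(t)`: `β = w α_i` (`R4a`), and
`x_β(t) = ν x_{α_i}(..) ν⁻¹` with `ν = nword l`. So `X` contains `gen`.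
`mul_mem_X` may be stated for the set `{g | ∃ u ∈ U, ∃ ν ∈ N, ∃ v ∈ U, g = u * ν * v}`.
-/

set_option autoImplicit false
open Matrix
universe u
namespace Pool.Agent.H75.UL

namespace StSys
variable {n : ℕ} {C : SLC n} {K : Type*} [Field K] {H : Type*} [Group H] (S : StSys C K H)

private theorem s6_mem (β : C.Root) (t : K) (h : C.Pos β) : S.x β t ∈ S.U 1 :=
  Subgroup.subset_closure ⟨β, t, h, rfl⟩

/-- the subgroup generated by the positive root elements different from `α_i` -/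
private def s6Q (i : Fin n) : Subgroup H :=
  Subgroup.closure {g | ∃ (β : C.Root) (t : K), C.Pos β ∧ β ≠ C.simple i ∧ g = S.x β t}

private theorem s6_Q_le (i : Fin n) : S.s6Q i ≤ S.U 1 := by
  unfold s6Q
  rw [Subgroup.closure_le]
  rintro g ⟨β, t, hβ, -, rfl⟩
  exact S.s6_mem β t hβ

private theorem s6_Q_norm (i : Fin n) (s : K) (q : H) (hq : q ∈ S.s6Q i) :
    S.x (C.simple i) s * q * (S.x (C.simple i) s)⁻¹ ∈ S.s6Q i := by
  unfold s6Q at hq
  induction hq using Subgroup.closure_induction with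
  | mem q hq =>
    obtain ⟨β, t, hβ, hne, rfl⟩ := hq
    have hmem : S.x β t ∈ S.s6Q i := Subgroup.subset_closure ⟨β, t, hβ, hne, rfl⟩
    rcases C.ip_cases (C.simple i) β with h | h | h
    · exfalso
      rw [C.ip_eq_neg_two_iff] at h
      unfold SLC.Pos at hβ
      rw [h, SLC.Root.neg_val, ht_neg, C.ht_simple] at hβ
      omega
    · obtain ⟨δ, hδ⟩ := C.exists_add (C.simple i) β h
      have h1 := S.comm_add (C.simple i) β δ s t hδ
      have h2 : S.x (C.simple i) s * S.x β t * (S.x (C.simple i) s)⁻¹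
          = S.x δ (C.eps (C.simple i).1 β.1 * s * t) * S.x β t := by
        rw [← h1]
        group
      rw [h2]
      refine mul_mem (Subgroup.subset_closure ⟨δ, _, ?_, ?_, rfl⟩) hmem
      · unfold SLC.Pos at hβ ⊢
        rw [hδ, ht_add, C.ht_simple]
        omega
      · rintro rfl
        have h3 := congrArg ht hδ
        rw [ht_add] at h3
        unfold SLC.Pos at hβ
        omega
    · have h0 : 0 ≤ C.ip (C.simple i).1 β.1 := by omega
      rw [S.comm (C.simple i) β s t h0, mul_inv_cancel_right]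
      exact hmem
  | one =>
    rw [mul_one, mul_inv_cancel]
    exact one_mem _
  | mul a b _ _ ha hb =>
    have : S.x (C.simple i) s * (a * b) * (S.x (C.simple i) s)⁻¹
        = (S.x (C.simple i) s * a * (S.x (C.simple i) s)⁻¹) *
          (S.x (C.simple i) s * b * (S.x (C.simple i) s)⁻¹) := by group
    rw [this]
    exact mul_mem ha hb
  | inv a _ ha =>
    have : S.x (C.simple i) s * a⁻¹ * (S.x (C.simple i) s)⁻¹
        = (S.x (C.simple i) s * a * (S.x (C.simple i) s)⁻¹)⁻¹ := by group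
    rw [this]
    exact inv_mem ha

private theorem s6_dec (i : Fin n) (u : H) (hu : u ∈ S.U 1) :
    ∃ q ∈ S.s6Q i, ∃ s : K, u = q * S.x (C.simple i) s := by
  have step : ∀ (β : C.Root) (t : K), C.Pos β → ∀ y : H,
      (∃ q ∈ S.s6Q i, ∃ s : K, y = q * S.x (C.simple i) s) →
      ∃ q ∈ S.s6Q i, ∃ s : K, S.x β t * y = q * S.x (C.simple i) s := by
    rintro β t hβ y ⟨q, hq, s, rfl⟩
    by_cases h : β = C.simple i
    · subst h
      refine ⟨_, S.s6_Q_norm i t q hq, t + s, ?_⟩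
      rw [S.map_add]
      group
    · refine ⟨S.x β t * q, mul_mem (Subgroup.subset_closure ⟨β, t, hβ, h, rfl⟩) hq, s, ?_⟩
      rw [mul_assoc]
  unfold U at hu
  induction hu using Subgroup.closure_induction_left with
  | one => exact ⟨1, one_mem _, 0, by rw [S.x_zero, mul_one]⟩
  | mul_left x hx y _ ih =>
    obtain ⟨β, t, hβ, rfl⟩ := hx
    exact step β t hβ y ih
  | inv_mul_cancel x hx y _ ih =>
    obtain ⟨β, t, hβ, rfl⟩ := hx
    rw [← S.x_neg]
    exact step β (-t) hβ y ih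

private theorem s6_Q_conj (i : Fin n) (q : H) (hq : q ∈ S.s6Q i) :
    nn S.x (C.simple i) 1 * q * (nn S.x (C.simple i) 1)⁻¹ ∈ S.U 1 := by
  unfold s6Q at hq
  induction hq using Subgroup.closure_induction with
  | mem q hq =>
    obtain ⟨β, t, hβ, hne, rfl⟩ := hq
    rw [S.n_conj_all (C.simple i) β 1 t one_ne_zero]
    exact S.s6_mem _ _ (C.refl_simple_pos i β hβ hne)
  | one =>
    rw [mul_one, mul_inv_cancel]
    exact one_mem _
  | mul a b _ _ ha hb =>
    have : nn S.x (C.simple i) 1 * (a * b) * (nn S.x (C.simple i) 1)⁻¹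
        = (nn S.x (C.simple i) 1 * a * (nn S.x (C.simple i) 1)⁻¹) *
          (nn S.x (C.simple i) 1 * b * (nn S.x (C.simple i) 1)⁻¹) := by group
    rw [this]
    exact mul_mem ha hb
  | inv a _ ha =>
    have : nn S.x (C.simple i) 1 * a⁻¹ * (nn S.x (C.simple i) 1)⁻¹
        = (nn S.x (C.simple i) 1 * a * (nn S.x (C.simple i) 1)⁻¹)⁻¹ := by group
    rw [this]
    exact inv_mem ha

/-- the set of all products `u * ν * v` -/
private def s6X : Set H := {g | ∃ u ∈ S.U 1, ∃ ν ∈ S.N, ∃ v ∈ S.U 1, g = u * ν * v}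

private theorem s6_U_X (u g : H) (hu : u ∈ S.U 1) (hg : g ∈ S.s6X) : u * g ∈ S.s6X := by
  obtain ⟨u1, hu1, ν, hν, v, hv, rfl⟩ := hg
  exact ⟨u * u1, mul_mem hu hu1, ν, hν, v, hv, by simp only [mul_assoc]⟩

private theorem s6_T_X (τ g : H) (hτ : τ ∈ S.T) (hg : g ∈ S.s6X) : τ * g ∈ S.s6X := by
  obtain ⟨u1, hu1, ν, hν, v, hv, rfl⟩ := hg
  refine ⟨τ * u1 * τ⁻¹, S.T_conj_U 1 τ u1 hτ hu1, τ * ν, mul_mem (S.T_le_N hτ) hν, v, hv, ?_⟩
  group

private theorem s6_nn_mem (α : C.Root) (t : K) (ht : t ≠ 0) : nn S.x α t ∈ S.N :=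
  Subgroup.subset_closure ⟨α, t, ht, rfl⟩

/-- moving a root element through `ν` -/
private theorem s6_move (ν : H) (w : Equiv.Perm C.Root) (h : S.Acts ν w) (α : C.Root) (s : K) :
    ∃ s' : K, S.x α s * ν = ν * S.x (w⁻¹ α) s' := by
  obtain ⟨c, hc, h1⟩ := h
  refine ⟨(c (w⁻¹ α))⁻¹ * s, ?_⟩
  have h2 := h1 (w⁻¹ α) ((c (w⁻¹ α))⁻¹ * s)
  have h3 : w (w⁻¹ α) = α := by
    rw [← Equiv.Perm.mul_apply, mul_inv_cancel, Equiv.Perm.one_apply]
  rw [h3, ← mul_assoc (c (w⁻¹ α)), mul_inv_cancel₀ (hc _), one_mul] at h2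
  rw [← h2]
  group

private theorem s6_n_X0 (i : Fin n) (s : K) (ν v : H) (hν : ν ∈ S.N) (hv : v ∈ S.U 1) :
    nn S.x (C.simple i) 1 * (S.x (C.simple i) s * ν * v) ∈ S.s6X := by
  obtain ⟨w, hw, hact, -⟩ := S.N_acts ν hν
  have hn := S.s6_nn_mem (C.simple i) 1 one_ne_zero
  by_cases hs : s = 0
  · subst hs
    refine ⟨1, one_mem _, nn S.x (C.simple i) 1 * ν, mul_mem hn hν, v, hv, ?_⟩
    rw [S.x_zero]
    group
  by_cases hp : C.Pos (w⁻¹ (C.simple i))
  · obtain ⟨s', hs'⟩ := S.s6_move ν w hact (C.simple i) s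
    refine ⟨1, one_mem _, nn S.x (C.simple i) 1 * ν, mul_mem hn hν, S.x (w⁻¹ (C.simple i)) s' * v,
      mul_mem (S.s6_mem _ _ hp) hv, ?_⟩
    rw [hs']
    group
  · -- the essential case
    have ht : s⁻¹ ≠ 0 := inv_ne_zero hs
    have e1 : nn S.x (C.simple i) 1 * S.x (C.simple i) s
        = S.x (-(C.simple i)) s * nn S.x (C.simple i) 1 := by
      have h := S.n_conj (C.simple i) 1 s one_ne_zero
      rw [inv_one, one_pow, one_mul] at h
      rw [← h]
      group
    have e2 : S.x (-(C.simple i)) s = S.x (C.simple i) (-s⁻¹) * nn S.x (C.simple i) s⁻¹ *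
        S.x (C.simple i) (-s⁻¹) := by
      unfold nn
      rw [inv_inv, S.x_neg]
      group
    have e3 : S.x (C.simple i) (-s⁻¹) * nn S.x (C.simple i) 1
        = nn S.x (C.simple i) 1 * S.x (-(C.simple i)) (-s⁻¹) := by
      have h := S.n_conj (C.simple i) (-1) (-s⁻¹) (by simp)
      have h0 : nn S.x (C.simple i) (-1) = (nn S.x (C.simple i) 1)⁻¹ := by rw [S.nn_inv]
      rw [h0, inv_inv] at h
      have h3 : ((-1 : K)⁻¹) ^ 2 * (-s⁻¹) = -s⁻¹ := by
        rw [inv_neg, inv_one]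
        ring
      rw [h3] at h
      rw [← h]
      group
    obtain ⟨s', hs'⟩ := S.s6_move ν w hact (-(C.simple i)) (-s⁻¹)
    have hpos : C.Pos (w⁻¹ (-(C.simple i))) := by
      rw [C.W_neg w⁻¹ (inv_mem hw)]
      exact (C.not_pos_iff _).1 hp
    refine ⟨S.x (C.simple i) (-s⁻¹), S.s6_mem _ _ (C.simple_pos i),
      nn S.x (C.simple i) s⁻¹ * nn S.x (C.simple i) 1 * ν,
      mul_mem (mul_mem (S.s6_nn_mem _ _ ht) hn) hν, S.x (w⁻¹ (-(C.simple i))) s' * v,
      mul_mem (S.s6_mem _ _ hpos) hv, ?_⟩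
    calc nn S.x (C.simple i) 1 * (S.x (C.simple i) s * ν * v)
        = (nn S.x (C.simple i) 1 * S.x (C.simple i) s) * ν * v := by group
      _ = S.x (C.simple i) (-s⁻¹) * nn S.x (C.simple i) s⁻¹ *
          (S.x (C.simple i) (-s⁻¹) * nn S.x (C.simple i) 1) * ν * v := by
          rw [e1, e2]
          simp only [mul_assoc]
      _ = S.x (C.simple i) (-s⁻¹) * nn S.x (C.simple i) s⁻¹ *
          nn S.x (C.simple i) 1 * (S.x (-(C.simple i)) (-s⁻¹) * ν) * v := by
          rw [e3]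
          simp only [mul_assoc]
      _ = _ := by
          rw [hs']
          simp only [mul_assoc]

private theorem s6_n_X (i : Fin n) (g : H) (hg : g ∈ S.s6X) :
    nn S.x (C.simple i) 1 * g ∈ S.s6X := by
  obtain ⟨u, hu, ν, hν, v, hv, rfl⟩ := hg
  obtain ⟨q, hq, s, rfl⟩ := S.s6_dec i u hu
  have h1 := S.s6_U_X _ _ (S.s6_Q_conj i q hq) (S.s6_n_X0 i s ν v hν hv)
  convert h1 using 1
  group

private theorem s6_ninv_X (i : Fin n) (g : H) (hg : g ∈ S.s6X) :
    (nn S.x (C.simple i) 1)⁻¹ * g ∈ S.s6X := by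
  have hτ : hh S.x (C.simple i) (-1) ∈ S.T :=
    Subgroup.subset_closure ⟨C.simple i, -1, by simp, rfl⟩
  have h1 := S.s6_n_X i _ (S.s6_T_X _ g hτ hg)
  convert h1 using 1
  unfold hh
  rw [← S.nn_inv]
  group

private theorem s6_nword_X (l : List (Fin n)) : ∀ g ∈ S.s6X, S.nword l * g ∈ S.s6X := by
  induction l with
  | nil =>
    intro g hg
    unfold nword
    simpa using hg
  | cons i l ih =>
    intro g hg
    have h1 := S.s6_n_X i _ (ih g hg)
    convert h1 using 1
    unfold nword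
    rw [List.map_cons, List.prod_cons, mul_assoc]

private theorem s6_nwordinv_X (l : List (Fin n)) : ∀ g ∈ S.s6X, (S.nword l)⁻¹ * g ∈ S.s6X := by
  induction l with
  | nil =>
    intro g hg
    unfold nword
    simpa using hg
  | cons i l ih =>
    intro g hg
    have h1 := ih _ (S.s6_ninv_X i g hg)
    convert h1 using 1
    unfold nword
    rw [List.map_cons, List.prod_cons, _root_.mul_inv_rev, mul_assoc]

private theorem s6_x_X (β : C.Root) (t : K) (g : H) (hg : g ∈ S.s6X) :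
    S.x β t * g ∈ S.s6X := by
  obtain ⟨w, hw, i, hwi⟩ := C.exists_W_simple β
  obtain ⟨l, rfl⟩ := C.exists_wd w hw
  obtain ⟨c, hc, h1⟩ := S.nword_acts l
  have h2 := h1 (C.simple i) ((c (C.simple i))⁻¹ * t)
  rw [hwi, ← mul_assoc (c (C.simple i)), mul_inv_cancel₀ (hc _), one_mul] at h2
  have h3 := S.s6_nword_X l _ (S.s6_U_X _ _
    (S.s6_mem (C.simple i) ((c (C.simple i))⁻¹ * t) (C.simple_pos i)) (S.s6_nwordinv_X l g hg))
  convert h3 using 1
  rw [← h2]
  simp only [mul_assoc]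

theorem bruhat (g : H) (hg : g ∈ S.gen) :
    ∃ u ∈ S.U 1, ∃ ν ∈ S.N, ∃ v ∈ S.U 1, g = u * ν * v := by
  change g ∈ S.s6X
  unfold gen at hg
  induction hg using Subgroup.closure_induction_left with
  | one => exact ⟨1, one_mem _, 1, one_mem _, 1, one_mem _, by simp⟩
  | mul_left x hx y _ ih =>
    obtain ⟨β, t, rfl⟩ := hx
    exact S.s6_x_X β t y ih
  | inv_mul_cancel x hx y _ ih =>
    obtain ⟨β, t, rfl⟩ := hx
    rw [← S.x_neg]
    exact S.s6_x_X β (-t) y ih

end StSys

end Pool.Agent.H75.UL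
end

section
/- module Pool.Agent.H75.UL.R5 -/
/-!
# Project UL (MP_978914_al), module R5

Coweights and coefficients.

`exists_coweight`: `v = ∑ j, b j • y j` with `y` from `exists_dual` (`ip (single i) (y j) =
det * (single i) j`). `exists_adjacent`: `C.conn` with `S = {i}` (`S ≠ univ` as `n ≥ 2`), and `C.off`.
`exists_coeff_ne_zero`: in characteristic `0` because `β ≠ 0`. In characteristic `p`, if all `β_i`
are divisible by `p` then `β = p • v`, `2 = ip β β = p^2 * ip v v`, impossible (`p^2 ≥ 4`,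
`ip v v ≥ 1`).
`exists_sum`: for `n ≥ 2` every root is a sum of two roots: by `exists_W_simple` (import R4a) it is
enough to do `α_i`: with `j` adjacent to `i`, `α_i = (α_i + α_j) + (-α_j)`.
-/

set_option autoImplicit false
open Matrix
universe u
namespace Pool.Agent.H75.UL

namespace SLC
variable {n : ℕ} (C : SLC n)

theorem exists_coweight (b : Fin n → ℤ) :
    ∃ v : Fin n → ℤ, ∀ i, C.ip (Pi.single i 1) v = C.A.det * b i := by
  choose y hy using C.exists_dual
  refine ⟨∑ j, b j • y j, fun i => ?_⟩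
  have h1 : C.ip (Pi.single i 1) (∑ j, b j • y j) = ∑ j, b j * C.ip (Pi.single i 1) (y j) := by
    simp only [← C.ip_smul_right]
    unfold ip
    rw [Matrix.mulVec_sum, dotProduct_sum]
  rw [h1]
  simp only [hy]
  rw [Finset.sum_eq_single i]
  · rw [Pi.single_eq_same]; ring
  · intro j _ hj
    rw [Pi.single_eq_of_ne hj]; ring
  · intro h
    exact absurd (Finset.mem_univ i) h

theorem exists_adjacent (hn : 2 ≤ n) (i : Fin n) : ∃ j, j ≠ i ∧ C.A i j = -1 := by
  obtain ⟨i', hi', j, hj, hA⟩ := C.conn {i} (Finset.singleton_nonempty i) (by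
    intro h
    have h1 := congrArg Finset.card h
    rw [Finset.card_singleton, Finset.card_univ, Fintype.card_fin] at h1
    omega)
  rw [Finset.mem_singleton] at hi' hj
  subst hi'
  refine ⟨j, hj, ?_⟩
  rcases C.off i' j (fun h => hj h.symm) with h | h
  · exact absurd h hA
  · exact h

theorem exists_coeff_ne_zero (β : C.Root) (F : Type*) [Field F] : ∃ i, (β.1 i : F) ≠ 0 := by
  by_contra hcon
  push Not at hcon
  have hch : ∀ i, ((ringChar F : ℕ) : ℤ) ∣ β.1 i := fun i =>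
    (CharP.intCast_eq_zero_iff F (ringChar F) (β.1 i)).1 (hcon i)
  choose v hv using hch
  have h1 : β.1 = ((ringChar F : ℕ) : ℤ) • v := by
    funext i
    rw [Pi.smul_apply, smul_eq_mul]
    exact hv i
  have h2 := β.2
  rw [h1, C.ip_smul_left, C.ip_smul_right] at h2
  have h3 : ringChar F ≠ 1 := CharP.ringChar_ne_one
  have h4 := C.ip_nonneg v
  rcases Nat.lt_or_ge (ringChar F) 2 with h5 | h5
  · have h6 : ringChar F = 0 := by omega
    rw [h6] at h2
    simp at h2
  · have h7 : (2 : ℤ) ≤ ((ringChar F : ℕ) : ℤ) := by exact_mod_cast h5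
    rcases h4.lt_or_eq with h8 | h8
    · have h9 : (1 : ℤ) ≤ C.ip v v := h8
      have h10 : 2 * 2 ≤ ((ringChar F : ℕ) : ℤ) * ((ringChar F : ℕ) : ℤ) :=
        mul_le_mul h7 h7 (by norm_num) (by linarith)
      nlinarith
    · rw [← h8] at h2
      simp at h2

theorem exists_sum (hn : 2 ≤ n) (β : C.Root) : ∃ γ δ : C.Root, β.1 = γ.1 + δ.1 := by
  obtain ⟨w, hw, i, hwi⟩ := C.exists_W_simple β
  obtain ⟨j, _, hA⟩ := C.exists_adjacent hn i
  obtain ⟨γ, hγ⟩ := C.exists_add (C.simple i) (C.simple j) (by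
    rw [simple_val, simple_val, C.ip_single]; exact hA)
  have h1 : (C.simple i).1 = γ.1 + (-(C.simple j)).1 := by
    rw [hγ, Root.neg_val]; abel
  have h2 := C.W_add w hw γ (-(C.simple j)) (C.simple i) h1
  rw [hwi] at h2
  exact ⟨_, _, h2⟩

end SLC

end Pool.Agent.H75.UL
end

section
/- module Pool.Agent.H75.UL.T1 -/
/-!
# Project UL (MP_978914_al), module T1

The height filtration of matrices.

`Fil m M` means `M a b ≠ 0 → hti a ≥ hti b + m`. `Fil_mul`: a nonzero term `M a c * N c b` has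
`hti a ≥ hti c + m ≥ hti b + k + m`. `Fil_E`, `Fil_F`: look at the nonzero entries (`ht_add`,
`ht_neg`). `exists_Fil_eq_zero'`: `Idx` is finite, take `m₀ > max hti - min hti` (independent of `R`).
`Fil_inv`: `A = g - 1` satisfies `Fil m A`, `A ^ k` satisfies `Fil (k m)`, so `A` is nilpotent and
`g⁻¹ = ∑ (-A)^k`; or: `B = g⁻¹ - 1 = -A - A * B`, show `Fil j B → Fil (j+1) B` as long as `j < m`
starting from a very negative `j` (`Fil j` holds for every matrix if `j` is small) and then `Fil m B`.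
`Fil_comm_lead`: `g h - h g = (g-1)(h-1) - (h-1)(g-1)` is `A B - B A` modulo `Fil (m+k+1)`;
`g h g⁻¹ h⁻¹ - 1 = (g h - h g) g⁻¹ h⁻¹` and `g⁻¹ h⁻¹ - 1` satisfies `Fil 1`.
-/

set_option autoImplicit false
open Matrix
universe u
namespace Pool.Agent.H75.UL

namespace SLC
variable {n : ℕ} (C : SLC n)

theorem Fil_mono {R : Type*} [CommRing R] {m k : ℤ} (h : k ≤ m) {M : Matrix C.Idx C.Idx R}
    (hM : C.Fil m M) : C.Fil k M := by
  intro a b hab
  exact hM a b (by linarith)


theorem Fil_zero {R : Type*} [CommRing R] (m : ℤ) : C.Fil m (0 : Matrix C.Idx C.Idx R) := by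
  intro a b _
  rfl


theorem Fil_one {R : Type*} [CommRing R] : C.Fil 0 (1 : Matrix C.Idx C.Idx R) := by
  intro a b hab
  apply Matrix.one_apply_ne
  rintro rfl
  omega


theorem Fil_add {R : Type*} [CommRing R] {m : ℤ} {M N : Matrix C.Idx C.Idx R}
    (hM : C.Fil m M) (hN : C.Fil m N) : C.Fil m (M + N) := by
  intro a b hab
  rw [Matrix.add_apply, hM a b hab, hN a b hab, add_zero]


theorem Fil_neg {R : Type*} [CommRing R] {m : ℤ} {M : Matrix C.Idx C.Idx R}
    (hM : C.Fil m M) : C.Fil m (-M) := by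
  intro a b hab
  rw [Matrix.neg_apply, hM a b hab, neg_zero]


theorem Fil_sub {R : Type*} [CommRing R] {m : ℤ} {M N : Matrix C.Idx C.Idx R}
    (hM : C.Fil m M) (hN : C.Fil m N) : C.Fil m (M - N) := by
  intro a b hab
  rw [Matrix.sub_apply, hM a b hab, hN a b hab, sub_zero]


theorem Fil_smul {R : Type*} [CommRing R] {m : ℤ} (c : R) {M : Matrix C.Idx C.Idx R}
    (hM : C.Fil m M) : C.Fil m (c • M) := by
  intro a b hab
  rw [Matrix.smul_apply, hM a b hab, smul_zero]


theorem Fil_sum {R ι : Type*} [CommRing R] {m : ℤ} (s : Finset ι) (M : ι → Matrix C.Idx C.Idx R)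
    (hM : ∀ i ∈ s, C.Fil m (M i)) : C.Fil m (∑ i ∈ s, M i) := by
  intro a b hab
  rw [Matrix.sum_apply]
  exact Finset.sum_eq_zero fun i hi => hM i hi a b hab


theorem Fil_mul {R : Type*} [CommRing R] {m k : ℤ} {M N : Matrix C.Idx C.Idx R}
    (hM : C.Fil m M) (hN : C.Fil k N) : C.Fil (m + k) (M * N) := by
  intro a b hab
  rw [Matrix.mul_apply]
  refine Finset.sum_eq_zero fun c _ => ?_
  by_cases h : C.hti a < C.hti c + m
  · rw [hM a c h, zero_mul]
  · rw [hN c b (by omega), mul_zero]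


theorem Fil_map {R R' : Type*} [CommRing R] [CommRing R'] (f : R →+* R') {m : ℤ}
    {M : Matrix C.Idx C.Idx R} (hM : C.Fil m M) : C.Fil m (M.map f) := by
  intro a b hab
  rw [Matrix.map_apply, hM a b hab, map_zero]


theorem Fil_E (R : Type*) [CommRing R] (α : C.Root) :
    C.Fil (ht α.1) ((C.E α).map (Int.cast : ℤ → R)) := by
  intro a b hab
  rw [Matrix.map_apply]
  have h : C.E α a b = 0 := by
    rcases a with i | γ <;> rcases b with j | β
    · rfl
    · simp only [E]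
      rw [if_neg]
      intro h
      simp only [hti, Sum.elim_inl, Sum.elim_inr] at hab
      rw [h, ht_neg] at hab
      omega
    · simp only [E]
      rw [if_neg]
      intro h
      simp only [hti, Sum.elim_inl, Sum.elim_inr] at hab
      rw [h] at hab
      omega
    · simp only [E]
      rw [if_neg]
      intro h
      simp only [hti, Sum.elim_inr] at hab
      rw [h, ht_add] at hab
      omega
  rw [h, Int.cast_zero]


theorem Fil_F (R : Type*) [CommRing R] (α : C.Root) :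
    C.Fil (2 * ht α.1) ((C.F α).map (Int.cast : ℤ → R)) := by
  intro a b hab
  rw [Matrix.map_apply]
  have h : C.F α a b = 0 := by
    rcases a with i | γ <;> rcases b with j | β
    · rfl
    · rfl
    · rfl
    · simp only [F]
      rw [if_neg]
      rintro ⟨h1, h2⟩
      simp only [hti, Sum.elim_inr] at hab
      rw [h1, h2, ht_neg] at hab
      omega
  rw [h, Int.cast_zero]


private theorem hti_bound : ∃ B : ℤ, 0 ≤ B ∧ ∀ a b : C.Idx, C.hti a < C.hti b + B := by
  refine ⟨∑ c : C.Idx, (2 * |C.hti c| + 1), Finset.sum_nonneg fun c _ => by positivity, fun a b => ?_⟩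
  have h1 : ∀ c : C.Idx, 2 * |C.hti c| + 1 ≤ ∑ c : C.Idx, (2 * |C.hti c| + 1) := fun c =>
    Finset.single_le_sum (f := fun c : C.Idx => 2 * |C.hti c| + 1) (fun c _ => by positivity)
      (Finset.mem_univ c)
  have h2 := h1 a
  have h3 := h1 b
  have h4 := le_abs_self (C.hti a)
  have h5 := neg_abs_le (C.hti b)
  omega

theorem exists_Fil_eq_zero : ∃ m₀ : ℤ, ∀ (R : Type) [CommRing R] (M : Matrix C.Idx C.Idx R),
    C.Fil m₀ M → M = 0 := by
  obtain ⟨B, _, hB⟩ := C.hti_bound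
  refine ⟨B, fun R _ M hM => ?_⟩
  ext a b
  exact hM a b (hB a b)


theorem exists_Fil_eq_zero' (R : Type*) [CommRing R] : ∃ m₀ : ℤ, ∀ M : Matrix C.Idx C.Idx R,
    C.Fil m₀ M → M = 0 := by
  obtain ⟨B, _, hB⟩ := C.hti_bound
  refine ⟨B, fun M hM => ?_⟩
  ext a b
  exact hM a b (hB a b)


theorem Fil_inv {R : Type*} [CommRing R] (g : GL C.Idx R) (m : ℤ) (hm : 1 ≤ m)
    (hg : C.Fil m ((g : Matrix C.Idx C.Idx R) - 1)) :
    C.Fil m (((g⁻¹ : GL C.Idx R) : Matrix C.Idx C.Idx R) - 1) := by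
  obtain ⟨B₀, _, hB₀⟩ := C.hti_bound
  set G : Matrix C.Idx C.Idx R := (g : Matrix C.Idx C.Idx R) with hG
  set G' : Matrix C.Idx C.Idx R := ((g⁻¹ : GL C.Idx R) : Matrix C.Idx C.Idx R) with hG'
  have h1 : G * G' = 1 := by
    rw [hG, hG', ← Units.val_mul, mul_inv_cancel, Units.val_one]
  have h2 : G' - 1 = -(G - 1) - (G - 1) * (G' - 1) := by
    rw [sub_mul, mul_sub, mul_sub, h1]
    simp only [mul_one, one_mul]
    abel
  have h3 : ∀ k : ℕ, C.Fil (min m (-B₀ + k)) (G' - 1) := by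
    intro k
    induction k with
    | zero =>
      refine C.Fil_mono (min_le_right _ _) ?_
      intro a b hab
      exfalso
      have := hB₀ b a
      push_cast at hab
      omega
    | succ k ih =>
      rw [h2]
      refine C.Fil_sub (C.Fil_mono (min_le_left _ _) (C.Fil_neg hg)) ?_
      refine C.Fil_mono ?_ (C.Fil_mul hg ih)
      push_cast
      rcases le_total m (-B₀ + k) with h | h
      · rw [min_eq_left h]
        have := min_le_left m (-B₀ + (k + 1))
        omega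
      · rw [min_eq_right h]
        have := min_le_right m (-B₀ + (k + 1))
        omega
  have h4 := h3 (m + B₀).toNat
  refine C.Fil_mono ?_ h4
  have h5 := Int.self_le_toNat (m + B₀)
  exact le_min le_rfl (by omega)


theorem Fil_comm_lead {R : Type*} [CommRing R] (g h : GL C.Idx R) (m k : ℤ) (hm : 1 ≤ m)
    (hk : 1 ≤ k) (A B : Matrix C.Idx C.Idx R) (hA : C.Fil m A) (hB : C.Fil k B)
    (hg : C.Fil (m + 1) ((g : Matrix C.Idx C.Idx R) - 1 - A))
    (hh : C.Fil (k + 1) ((h : Matrix C.Idx C.Idx R) - 1 - B)) :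
    C.Fil (m + k + 1) (((g * h * g⁻¹ * h⁻¹ : GL C.Idx R) : Matrix C.Idx C.Idx R) - 1 -
      (A * B - B * A)) := by
  set G : Matrix C.Idx C.Idx R := (g : Matrix C.Idx C.Idx R) with hG
  set H : Matrix C.Idx C.Idx R := (h : Matrix C.Idx C.Idx R) with hH
  set G' : Matrix C.Idx C.Idx R := ((g⁻¹ : GL C.Idx R) : Matrix C.Idx C.Idx R) with hG'
  set H' : Matrix C.Idx C.Idx R := ((h⁻¹ : GL C.Idx R) : Matrix C.Idx C.Idx R) with hH'
  have hGG : G * G' = 1 := by
    rw [hG, hG', ← Units.val_mul, mul_inv_cancel, Units.val_one]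
  have hHH : H * H' = 1 := by
    rw [hH, hH', ← Units.val_mul, mul_inv_cancel, Units.val_one]
  have hG1 : C.Fil m (G - 1) := by
    have h1 : G - 1 = (G - 1 - A) + A := by abel
    rw [h1]
    exact C.Fil_add (C.Fil_mono (by omega) hg) hA
  have hH1 : C.Fil k (H - 1) := by
    have h1 : H - 1 = (H - 1 - B) + B := by abel
    rw [h1]
    exact C.Fil_add (C.Fil_mono (by omega) hh) hB
  have hGi : C.Fil 1 (G' - 1) := C.Fil_mono hm (C.Fil_inv g m hm hG1)
  have hHi : C.Fil 1 (H' - 1) := C.Fil_mono hk (C.Fil_inv h k hk hH1)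
  have hP : C.Fil 1 (G' * H' - 1) := by
    have h1 : G' * H' - 1 = (G' - 1) * (H' - 1) + (G' - 1) + (H' - 1) := by
      rw [sub_mul, mul_sub, mul_sub]
      simp only [mul_one, one_mul]
      abel
    rw [h1]
    exact C.Fil_add (C.Fil_add (C.Fil_mono (by norm_num) (C.Fil_mul hGi hHi)) hGi) hHi
  have hD1 : C.Fil (m + k + 1) ((G - 1) * (H - 1) - A * B) := by
    have h1 : (G - 1) * (H - 1) - A * B = (G - 1 - A) * (H - 1) + A * (H - 1 - B) := by
      noncomm_ring
    rw [h1]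
    exact C.Fil_add (C.Fil_mono (by omega) (C.Fil_mul hg hH1)) (C.Fil_mono (by omega) (C.Fil_mul hA hh))
  have hD2 : C.Fil (m + k + 1) ((H - 1) * (G - 1) - B * A) := by
    have h1 : (H - 1) * (G - 1) - B * A = (H - 1 - B) * (G - 1) + B * (G - 1 - A) := by
      noncomm_ring
    rw [h1]
    exact C.Fil_add (C.Fil_mono (by omega) (C.Fil_mul hh hG1)) (C.Fil_mono (by omega) (C.Fil_mul hB hg))
  have hD : C.Fil (m + k) (G * H - H * G) := by
    have h1 : G * H - H * G = (G - 1) * (H - 1) - (H - 1) * (G - 1) := by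
      noncomm_ring
    rw [h1]
    exact C.Fil_sub (C.Fil_mul hG1 hH1) (C.Fil_mono (by omega) (C.Fil_mul hH1 hG1))
  have hval : ((g * h * g⁻¹ * h⁻¹ : GL C.Idx R) : Matrix C.Idx C.Idx R) = G * H * G' * H' := by
    rw [Units.val_mul, Units.val_mul, Units.val_mul]
  rw [hval]
  have h2 : H * G * (G' * H') = 1 := by
    rw [mul_assoc, ← mul_assoc G, hGG, one_mul, hHH]
  have h3 : G * H * G' * H' - 1 - (A * B - B * A) =
      (G * H - H * G) * (G' * H' - 1) + (((G - 1) * (H - 1) - A * B) - ((H - 1) * (G - 1) - B * A)) := by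
    have h4 : (G * H - H * G) * (G' * H' - 1) =
        G * H * G' * H' - H * G * (G' * H') - (G * H - H * G) := by
      noncomm_ring
    rw [h4, h2]
    noncomm_ring
  rw [h3]
  exact C.Fil_add (C.Fil_mul hD hP) (C.Fil_sub hD1 hD2)


end SLC

end Pool.Agent.H75.UL
end
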