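import Pool.Agent.H86.AL.M01

/-!
# M03: collected modules

Pool.Agent.H75.UL.L2
Pool.Agent.H75.UL.L4
Pool.Agent.H75.UL.L5
-/

section
/- module Pool.Agent.H75.UL.L2 -/
/-!
# Project UL (MP_978914_al), module L2

`[e_α, e_β] = ε(α,β) e_{α+β}` in the adjoint representation.

`γ = α + β`, so `ip α β = -1` (`ip_add_root`), `ε(β,α) = -ε(α,β)`, `ε(α,α) = ε(β,β) = -1`. Compare
the two sides on the basis:
* `h_j`: `E_α E_β h_j = -(α_j,β) ε(α,β) e_γ`, `E_β E_α h_j = -(α_j,α) ε(β,α) e_γ`;
* `e_{-γ}`: `E_β e_{-γ} = ε(β,-γ) e_{-α}`, so `E_α E_β e_{-γ} = -ε(β,γ) h_α = -ε(α,β) h_α`;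
  `E_α e_{-γ} = ε(α,-γ) e_{-β}`, so `E_β E_α e_{-γ} = -ε(α,γ) h_β = ε(α,β) h_β`;
* `e_{-α}`: `E_β e_{-α} = 0`, `E_β E_α e_{-α} = -E_β h_α = (α,β) e_β = -e_β`; right hand side
  `ε(α,β) ε(γ,-α) e_β = e_β`; `e_{-β}` similarly;
* `e_δ` otherwise: nonzero only if `γ + δ` is a root, i.e. (norms) `ip α δ + ip β δ = -1`; as both are
  `≥ -1` (`δ ≠ -α,-β`) and `≤ 2`, the pair `(ip α δ, ip β δ)` is `(-1,0)`, `(0,-1)` or
  `(1,-2), (-2,1)` (excluded), so exactly one of the two paths exists; check the sign with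
  bilinearity of `ε` (`eps_add_left`, `eps_add_right`, `eps_sq`). If `γ + δ` is not a root (nor `0`)
  both sides vanish.
-/

set_option autoImplicit false
open Matrix
universe u
namespace Pool.Agent.H75.UL

namespace SLC
variable {n : ℕ} (C : SLC n)

private theorem L2_ll (α β : C.Root) (h : β.1 ≠ -α.1) (i j : Fin n) :
    (C.E α * C.E β) (Sum.inl i) (Sum.inl j) = 0 := by
  rw [Matrix.mul_apply, Fintype.sum_sum_type]
  simp only [E, mul_zero, Finset.sum_const_zero, zero_add]
  apply Finset.sum_eq_zero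
  intro δ _
  split_ifs with h1 h2
  · exact absurd (h2.symm.trans h1) h
  · ring
  · ring
  · ring

private theorem L2_lr (α β δ : C.Root) (i : Fin n) :
    (C.E α * C.E β) (Sum.inl i) (Sum.inr δ) =
      if -α.1 = β.1 + δ.1 then (- α.1 i) * C.eps β.1 δ.1 else 0 := by
  rw [Matrix.mul_apply, Fintype.sum_sum_type]
  simp only [E, zero_mul, Finset.sum_const_zero, zero_add]
  rw [Finset.sum_eq_single (-α)]
  · rw [Root.neg_val, if_pos rfl]
    split_ifs <;> ring
  · intro ζ _ hζ
    rw [if_neg (fun h : ζ.1 = -α.1 => hζ (Root.ext h)), zero_mul]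
  · intro h
    exact absurd (Finset.mem_univ _) h

private theorem L2_rl (α β ε : C.Root) (j : Fin n) :
    (C.E α * C.E β) (Sum.inr ε) (Sum.inl j) =
      if ε.1 = α.1 + β.1 then C.eps α.1 β.1 * (- C.ip (Pi.single j 1) β.1) else 0 := by
  rw [Matrix.mul_apply, Fintype.sum_sum_type]
  simp only [E, mul_zero, Finset.sum_const_zero, zero_add]
  rw [Finset.sum_eq_single β]
  · rw [if_pos rfl]
    split_ifs <;> ring
  · intro ζ _ hζ
    rw [if_neg (fun h => hζ (Root.ext h)), mul_zero]
  · intro h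
    exact absurd (Finset.mem_univ _) h

private theorem L2_rr (α β ε δ : C.Root) :
    (C.E α * C.E β) (Sum.inr ε) (Sum.inr δ) =
      (if ε.1 = α.1 ∧ δ.1 = -β.1 then C.ip α.1 β.1 else 0) +
      (if ε.1 = α.1 + β.1 + δ.1 ∧ C.ip β.1 δ.1 = -1 then
        C.eps α.1 (β.1 + δ.1) * C.eps β.1 δ.1 else 0) := by
  rw [Matrix.mul_apply, Fintype.sum_sum_type]
  congr 1
  · simp only [E]
    by_cases h1 : ε.1 = α.1
    · by_cases h2 : δ.1 = -β.1
      · simp only [h1, h2, if_true, and_self]
        have h3 := C.sum_ip_single β.1 α.1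
        rw [C.ip_comm α.1 β.1, ← h3]
        apply Finset.sum_congr rfl
        intro i _
        ring
      · simp only [h2, if_false, mul_zero, Finset.sum_const_zero, and_false]
    · simp only [h1, if_false, zero_mul, Finset.sum_const_zero, false_and]
  · simp only [E]
    by_cases h1 : C.ip β.1 δ.1 = -1
    · obtain ⟨ζ, hζ⟩ := C.exists_add β δ h1
      rw [Finset.sum_eq_single ζ]
      · rw [if_pos hζ, hζ]
        simp only [h1, and_true]
        rw [add_assoc]
        split_ifs <;> ring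
      · intro ξ _ hξ
        rw [if_neg (fun h : ξ.1 = β.1 + δ.1 => hξ (Root.ext (h.trans hζ.symm))), mul_zero]
      · intro h
        exact absurd (Finset.mem_univ _) h
    · rw [if_neg (fun h => h1 h.2)]
      apply Finset.sum_eq_zero
      intro ζ _
      rw [if_neg (fun h : ζ.1 = β.1 + δ.1 => h1 (C.ip_add_root β δ ζ h)), mul_zero]

theorem E_comm_add (α β γ : C.Root) (h : γ.1 = α.1 + β.1) :
    C.E α * C.E β - C.E β * C.E α = C.eps α.1 β.1 • C.E γ := by
  have hαβ : C.ip α.1 β.1 = -1 := C.ip_add_root α β γ h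
  have hβα : C.ip β.1 α.1 = -1 := by rw [C.ip_comm]; exact hαβ
  have hsw : C.eps β.1 α.1 = - C.eps α.1 β.1 := C.eps_swap_of_odd α.1 β.1 (Or.inr hαβ)
  have hsq : C.eps α.1 β.1 * C.eps α.1 β.1 = 1 := C.eps_sq α.1 β.1
  have hαα : C.eps α.1 α.1 = -1 := C.eps_self α
  have hββ : C.eps β.1 β.1 = -1 := C.eps_self β
  have hne : β.1 ≠ -α.1 := by
    intro h1
    rw [h1, C.ip_neg_right, α.2] at hαβ
    omega
  have hne' : α.1 ≠ -β.1 := by
    intro h1
    rw [h1, C.ip_neg_right, β.2] at hβα
    omega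
  ext a b
  rw [Matrix.sub_apply, Matrix.smul_apply]
  rcases a with i | ε <;> rcases b with j | δ
  · rw [L2_ll C α β hne, L2_ll C β α hne']
    simp [E]
  · rw [L2_lr, L2_lr]
    simp only [E]
    by_cases h1 : δ.1 = -γ.1
    · have h2 : -α.1 = β.1 + δ.1 := by
        rw [h1, h]
        funext k
        simp
      have h3 : -β.1 = α.1 + δ.1 := by
        rw [h1, h]
        funext k
        simp
      rw [if_pos h2, if_pos h3, if_pos h1, h1, C.eps_neg_right, C.eps_neg_right, h, C.eps_add_right,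
        C.eps_add_right, hsw, hαα, hββ, smul_eq_mul, Pi.add_apply]
      ring
    · have h2 : ¬ (-α.1 = β.1 + δ.1) := by
        intro h2
        apply h1
        rw [h]
        funext k
        have h3 := congrFun h2 k
        simp only [Pi.add_apply, Pi.neg_apply] at h3 ⊢
        omega
      have h3 : ¬ (-β.1 = α.1 + δ.1) := by
        intro h3
        apply h1
        rw [h]
        funext k
        have h4 := congrFun h3 k
        simp only [Pi.add_apply, Pi.neg_apply] at h4 ⊢
        omega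
      rw [if_neg h2, if_neg h3, if_neg h1]
      simp
  · rw [L2_rl, L2_rl]
    simp only [E]
    rw [add_comm β.1 α.1, ← h]
    by_cases h1 : ε.1 = γ.1
    · rw [if_pos h1, if_pos h1, if_pos h1, hsw, h, C.ip_add_right, smul_eq_mul]
      ring
    · rw [if_neg h1, if_neg h1, if_neg h1]
      simp
  · rw [L2_rr, L2_rr]
    simp only [E]
    rw [add_comm β.1 α.1, ← h]
    by_cases h1 : ε.1 = γ.1 + δ.1
    · have h2 : C.ip α.1 δ.1 + C.ip β.1 δ.1 = -1 := by
        rw [← C.ip_add_left, ← h]
        exact C.ip_add_root γ δ ε h1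
      have h3 := C.ip_cases α δ
      have h4 := C.ip_cases β δ
      have h5 : C.eps γ.1 δ.1 = C.eps α.1 δ.1 * C.eps β.1 δ.1 := by rw [h, C.eps_add_left]
      have hd1 : C.ip α.1 δ.1 ≠ -2 → δ.1 ≠ -α.1 := by
        intro h6 h7
        apply h6
        rw [h7, C.ip_neg_right, α.2]
      have hd2 : C.ip β.1 δ.1 ≠ -2 → δ.1 ≠ -β.1 := by
        intro h6 h7
        apply h6
        rw [h7, C.ip_neg_right, β.2]
      rw [if_pos h1, smul_eq_mul, h5]
      simp only [h1, true_and]
      rcases h3 with h3 | h3 | h3 | h3 | h3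
      · -- δ = -α
        have h6 : C.ip β.1 δ.1 = 1 := by omega
        have h7 : δ.1 = -α.1 := by
          rw [(C.ip_eq_neg_two_iff α δ).1 h3, Root.neg_val]
        have h8 : γ.1 + δ.1 = β.1 := by
          rw [h, h7]
          funext k
          simp
        rw [if_neg (fun hh : γ.1 + δ.1 = α.1 ∧ δ.1 = -β.1 => hd2 (by omega) hh.2), if_neg (by omega), if_pos ⟨h8, h7⟩,
          if_neg (by omega), h7, C.eps_neg_right, C.eps_neg_right, hαα, hsw, hβα]
        linear_combination (-1 : ℤ) * hsq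
      · -- ip α δ = -1, ip β δ = 0
        have h6 : C.ip β.1 δ.1 = 0 := by omega
        rw [if_neg (fun hh : γ.1 + δ.1 = α.1 ∧ δ.1 = -β.1 => hd2 (by omega) hh.2), if_neg (by omega),
          if_neg (fun hh : γ.1 + δ.1 = β.1 ∧ δ.1 = -α.1 => hd1 (by omega) hh.2), if_pos h3, C.eps_add_right, hsw]
        ring
      · -- ip α δ = 0, ip β δ = -1
        have h6 : C.ip β.1 δ.1 = -1 := by omega
        rw [if_neg (fun hh : γ.1 + δ.1 = α.1 ∧ δ.1 = -β.1 => hd2 (by omega) hh.2), if_pos h6,
          if_neg (fun hh : γ.1 + δ.1 = β.1 ∧ δ.1 = -α.1 => hd1 (by omega) hh.2), if_neg (by omega), C.eps_add_right]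
        ring
      · -- δ = -β
        have h6 : C.ip β.1 δ.1 = -2 := by omega
        have h7 : δ.1 = -β.1 := by
          rw [(C.ip_eq_neg_two_iff β δ).1 h6, Root.neg_val]
        have h8 : γ.1 + δ.1 = α.1 := by
          rw [h, h7]
          funext k
          simp
        rw [if_pos ⟨h8, h7⟩, if_neg (by omega),
          if_neg (fun hh : γ.1 + δ.1 = β.1 ∧ δ.1 = -α.1 => hd1 (by omega) hh.2), if_neg (by omega), h7, C.eps_neg_right,
          C.eps_neg_right, hββ, hαβ]
        linear_combination hsq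
      · omega
    · have h2 : ¬ (ε.1 = α.1 ∧ δ.1 = -β.1) := by
        rintro ⟨h2, h3⟩
        apply h1
        rw [h2, h3, h]
        funext k
        simp
      have h3 : ¬ (ε.1 = β.1 ∧ δ.1 = -α.1) := by
        rintro ⟨h2, h3⟩
        apply h1
        rw [h2, h3, h]
        funext k
        simp
      rw [if_neg h2, if_neg h3, if_neg (fun hh => h1 hh.1), if_neg (fun hh => h1 hh.1), if_neg h1]
      simp

end SLC

end Pool.Agent.H75.UL
end

section
/- module Pool.Agent.H75.UL.L4 -/
/-!
# Project UL (MP_978914_al), module L4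

Explicit matrices of `n_α(t)` and `h_α(t)` in the adjoint group.

`nn_xg`: compute `X α t * X (-α) t⁻¹ * X α t` on the basis (columns).
* `ip α β = 0`: everything fixes `e_β`. `ip α β = -1`: `e_β ↦ e_β + ε t e_{α+β} ↦
  e_β + ε t e_{α+β} + ε ε(-α,α+β) e_β = ε t e_{α+β} ↦ ε t e_{α+β}` with `ε = eps α β` (since
  `ε(-α,α+β) = ε(α,α) ε(α,β) = -ε`). `ip α β = 1`: `e_β ↦ e_β ↦ e_β + ε t⁻¹ e_{β-α} ↦
  ε t⁻¹ e_{β-α}`. `β = α`: `e_α ↦ e_α ↦ e_α + t⁻¹ h_α + t⁻² e_{-α} ↦ t⁻² e_{-α}`
  (`X (-α) u e_α = e_α - u h_{-α} + u^2 e_{-α}`, `X α t h_α = h_α - 2 t e_α`,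
  `X α t e_{-α} = e_{-α} - t h_α + t^2 e_α`). `β = -α`: `↦ t^2 e_α`.
* `h_j ↦ h_j - (α_j,α) h_α`.
(Style: see `SLC.E_mul_E` in Defs. It may help to prove first the formulas for `X α t *ᵥ` on
`Pi.single (inr β) 1` and `Pi.single (inl j) 1`, and that a matrix is determined by these.)
`hh_xg`: from `nn_xg`: `e_β ↦ cs(α,β) (-1)^{-(α,β)} e_{sβ} ↦ cs(α,β) cs(α,sβ) (-1)^{(α,β)} t^{(α,β)} e_β`
and the sign is `1` in all five cases; `h_j` is fixed (the reflection applied twice).
-/

set_option autoImplicit false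
open Matrix
universe u
namespace Pool.Agent.H75.UL

namespace SLC
variable {n : ℕ} (C : SLC n)

section aux
variable {K : Type*} [Field K]

private def L4_e (K : Type*) [Field K] (β : C.Root) : C.Idx → K := Pi.single (Sum.inr β) 1

private def L4_h (K : Type*) [Field K] (v : Fin n → ℤ) : C.Idx → K :=
  Sum.elim (fun i => (v i : K)) (fun _ => 0)

private theorem L4_e_inl (β : C.Root) (i : Fin n) : C.L4_e K β (Sum.inl i) = 0 := by
  simp [L4_e]

private theorem L4_e_inr (β γ : C.Root) :
    C.L4_e K β (Sum.inr γ) = if γ = β then 1 else 0 := by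
  simp [L4_e, Pi.single_apply]

private theorem L4_h_inl (v : Fin n → ℤ) (i : Fin n) : C.L4_h K v (Sum.inl i) = (v i : K) := rfl

private theorem L4_h_inr (v : Fin n → ℤ) (γ : C.Root) : C.L4_h K v (Sum.inr γ) = 0 := rfl

private theorem L4_mulVec_e (M : Matrix C.Idx C.Idx K) (β : C.Root) :
    M *ᵥ C.L4_e K β = fun a => M a (Sum.inr β) := by
  unfold L4_e
  rw [Matrix.mulVec_single_one]
  rfl

private theorem L4_mulVec_h (M : Matrix C.Idx C.Idx K) (v : Fin n → ℤ) :
    M *ᵥ C.L4_h K v = fun a => ∑ j, M a (Sum.inl j) * (v j : K) := by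
  funext a
  simp [Matrix.mulVec, dotProduct, L4_h, Fintype.sum_sum_type]

private theorem L4_ext (M N : Matrix C.Idx C.Idx K) (h1 : ∀ v, M *ᵥ C.L4_h K v = N *ᵥ C.L4_h K v)
    (h2 : ∀ β, M *ᵥ C.L4_e K β = N *ᵥ C.L4_e K β) : M = N := by
  ext a b
  rcases b with j | β
  · have := congrFun (h1 (Pi.single j 1)) a
    rw [L4_mulVec_h, L4_mulVec_h] at this
    simpa [Pi.single_apply] using this
  · have := congrFun (h2 β) a
    rw [L4_mulVec_e, L4_mulVec_e] at this
    exact this

private theorem L4_X_apply (α : C.Root) (t : K) (a b : C.Idx) :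
    C.X K α t a b = (if a = b then 1 else 0) + t * (C.E α a b : K) + t ^ 2 * (C.F α a b : K) := by
  simp [X, Matrix.one_apply]

private theorem L4_ne_neg (α β : C.Root) (h : C.ip α.1 β.1 ≠ -2) : β.1 ≠ -α.1 := by
  intro h1
  apply h
  rw [h1, ip_neg_right, α.2]

/-- `X α t e_β = e_β` if `ip α β ≥ 0`. -/
private theorem L4_X_zero (α β : C.Root) (t : K) (h : 0 ≤ C.ip α.1 β.1) :
    C.X K α t *ᵥ C.L4_e K β = C.L4_e K β := by
  rw [L4_mulVec_e]
  funext a
  have h1 := C.L4_ne_neg α β (by omega)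
  rcases a with i | γ
  · simp [L4_X_apply, L4_e_inl, E, F, h1]
  · have h2 : γ.1 ≠ α.1 + β.1 := by
      intro h2
      have := C.ip_add_root α β γ h2
      omega
    simp [L4_X_apply, L4_e_inr, E, F, h1, h2]

/-- `X α t e_β = e_β + t ε e_{α+β}`. -/
private theorem L4_X_add (α β γ : C.Root) (t : K) (h : γ.1 = α.1 + β.1) :
    C.X K α t *ᵥ C.L4_e K β = C.L4_e K β + (t * (C.eps α.1 β.1 : K)) • C.L4_e K γ := by
  rw [L4_mulVec_e]
  funext a
  have h1 := C.L4_ne_neg α β (by rw [C.ip_add_root α β γ h]; norm_num)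
  rcases a with i | δ
  · simp [L4_X_apply, L4_e_inl, E, F, h1]
  · have h2 : δ.1 = α.1 + β.1 ↔ δ = γ := by
      rw [← h]
      exact Root.ext_iff.symm
    simp only [L4_X_apply, L4_e_inr, E, F, h1, h2, and_false, if_false, Int.cast_zero, mul_zero,
      add_zero, Pi.add_apply, Pi.smul_apply, smul_eq_mul, Sum.inr.injEq]
    by_cases h3 : δ = γ
    · simp [h3]
    · simp [h3]

/-- `X α t e_{-α} = e_{-α} - t h_α + t^2 e_α`. -/
private theorem L4_X_neg (α : C.Root) (t : K) :
    C.X K α t *ᵥ C.L4_e K (-α) =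
      C.L4_e K (-α) - t • C.L4_h K α.1 + t ^ 2 • C.L4_e K α := by
  rw [L4_mulVec_e]
  funext a
  rcases a with i | δ
  · simp [L4_X_apply, L4_e_inl, L4_h_inl, E, F]
  · have h2 : ¬ (δ.1 = α.1 + -α.1) := by
      rw [add_neg_cancel]
      exact C.root_ne_zero δ
    have h3 : δ.1 = α.1 ↔ δ = α := Root.ext_iff.symm
    simp only [L4_X_apply, L4_e_inr, L4_h_inr, E, F, h3, Root.neg_val, and_true,
      mul_zero, Pi.add_apply, Pi.sub_apply, Pi.smul_apply, smul_eq_mul, Sum.inr.injEq, sub_zero]
    rw [if_neg h2]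
    by_cases h4 : δ = α
    · simp [h4]
    · simp [h4]

private theorem L4_X_neg' (α : C.Root) (t : K) :
    C.X K (-α) t *ᵥ C.L4_e K α = C.L4_e K α + t • C.L4_h K α.1 + t ^ 2 • C.L4_e K (-α) := by
  have h3 := C.L4_X_neg (-α) t
  rw [C.neg_neg_root] at h3
  rw [h3]
  have h4 : C.L4_h K (-α).1 = - C.L4_h K α.1 := by
    funext a
    rcases a with i | δ
    · simp [L4_h_inl]
    · simp [L4_h_inr]
  rw [h4]
  module

/-- `X α t h_v = h_v - t (v,α) e_α`. -/
private theorem L4_X_h (α : C.Root) (t : K) (v : Fin n → ℤ) :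
    C.X K α t *ᵥ C.L4_h K v = C.L4_h K v - (t * (C.ip v α.1 : K)) • C.L4_e K α := by
  rw [L4_mulVec_h]
  funext a
  rcases a with i | δ
  · simp [L4_X_apply, L4_e_inl, L4_h_inl, E, F]
  · have h3 : δ.1 = α.1 ↔ δ = α := Root.ext_iff.symm
    simp only [L4_X_apply, L4_e_inr, L4_h_inr, E, F, h3, Pi.sub_apply, Pi.smul_apply, smul_eq_mul,
      reduceCtorEq, if_false, zero_add, Int.cast_zero, mul_zero, add_zero, zero_sub]
    by_cases h4 : δ = α
    · simp only [h4, if_true, mul_one]
      rw [← C.sum_ip_single v α.1, Int.cast_sum, Finset.mul_sum, ← Finset.sum_neg_distrib]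
      refine Finset.sum_congr rfl fun j _ => ?_
      push_cast
      ring
    · simp [h4]

private theorem L4_nmat_h (α : C.Root) (t : K) (v : Fin n → ℤ) :
    C.nmat K α t *ᵥ C.L4_h K v = C.L4_h K (v - C.ip v α.1 • α.1) := by
  rw [L4_mulVec_h]
  funext a
  rcases a with i | δ
  · simp only [nmat, L4_h_inl, Pi.sub_apply, Pi.smul_apply, smul_eq_mul]
    rw [← C.sum_ip_single v α.1]
    push_cast
    rw [Finset.sum_mul]
    simp only [sub_mul, ite_mul, one_mul, zero_mul, Finset.sum_sub_distrib,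
      Finset.sum_ite_eq, Finset.mem_univ, if_true]
    congr 1
    refine Finset.sum_congr rfl fun j _ => ?_
    ring
  · simp [nmat, L4_h_inr]

private theorem L4_nmat_e (α β : C.Root) (t : K) : C.nmat K α t *ᵥ C.L4_e K β =
    ((C.cs α β : K) * t ^ (- C.ip α.1 β.1)) • C.L4_e K (C.refl α β) := by
  rw [L4_mulVec_e]
  funext a
  rcases a with i | δ
  · simp [nmat, L4_e_inl]
  · simp [nmat, L4_e_inr]

end aux

theorem nn_xg (K : Type*) [Field K] (α : C.Root) (t : K) (ht : t ≠ 0) :
    ((nn (C.xg K) α t : GL C.Idx K) : Matrix C.Idx C.Idx K) = C.nmat K α t := by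
  have h0 : ((nn (C.xg K) α t : GL C.Idx K) : Matrix C.Idx C.Idx K) =
      C.X K α t * C.X K (-α) t⁻¹ * C.X K α t := rfl
  rw [h0]
  refine C.L4_ext _ _ (fun v => ?_) (fun β => ?_)
  · have h1 : C.nmat K α t *ᵥ C.L4_h K v = C.L4_h K v - (C.ip v α.1 : K) • C.L4_h K α.1 := by
      rw [L4_nmat_h]
      funext a
      rcases a with i | δ
      · simp [L4_h_inl]
      · simp [L4_h_inr]
    rw [h1, ← Matrix.mulVec_mulVec, ← Matrix.mulVec_mulVec, L4_X_h, Matrix.mulVec_sub,
      Matrix.mulVec_smul, L4_X_h]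
    have h2 := C.L4_X_neg' α t⁻¹
    have h5 : (C.ip v (-α).1 : K) = -(C.ip v α.1 : K) := by
      rw [Root.neg_val, ip_neg_right]
      push_cast
      ring
    rw [h2, h5]
    have h6 : C.L4_h K v - (t⁻¹ * -(C.ip v α.1 : K)) • C.L4_e K (-α) -
        (t * (C.ip v α.1 : K)) • (C.L4_e K α + t⁻¹ • C.L4_h K α.1 + t⁻¹ ^ 2 • C.L4_e K (-α)) =
        C.L4_h K v - (C.ip v α.1 : K) • C.L4_h K α.1 - (t * (C.ip v α.1 : K)) • C.L4_e K α := by
      have h7 : (t * (C.ip v α.1 : K)) • (t⁻¹ • C.L4_h K α.1) =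
          (C.ip v α.1 : K) • C.L4_h K α.1 := by
        rw [smul_smul]
        congr 1
        field_simp
      have h8 : (t * (C.ip v α.1 : K)) • (t⁻¹ ^ 2 • C.L4_e K (-α)) =
          (t⁻¹ * (C.ip v α.1 : K)) • C.L4_e K (-α) := by
        rw [smul_smul]
        congr 1
        field_simp
      rw [smul_add, smul_add, h7, h8]
      module
    rw [h6, Matrix.mulVec_sub, Matrix.mulVec_sub, Matrix.mulVec_smul, Matrix.mulVec_smul, L4_X_h,
      L4_X_h, C.L4_X_zero α α t (by rw [α.2]; norm_num), α.2]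
    push_cast
    module
  · rw [L4_nmat_e, ← Matrix.mulVec_mulVec, ← Matrix.mulVec_mulVec]
    rcases C.ip_cases α β with h | h | h | h | h
    · -- `β = -α`
      have hβ := (C.ip_eq_neg_two_iff α β).mp h
      subst hβ
      have hc : C.cs α (-α) = 1 := by
        unfold cs
        rw [if_neg]
        rw [h]
        norm_num
      have hr : C.refl α (-α) = α := by
        rw [refl_neg, refl_self, neg_neg_root]
      have hp : t ^ (- C.ip α.1 (-α).1) = t ^ 2 := by
        rw [h]
        norm_num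
      have h2 : C.ip α.1 (-α).1 = -2 := h
      rw [hc, hr, hp, L4_X_neg, Matrix.mulVec_add, Matrix.mulVec_sub, Matrix.mulVec_smul,
        Matrix.mulVec_smul, C.L4_X_zero (-α) (-α) t⁻¹ (by rw [(-α).2]; norm_num), L4_X_h,
        L4_X_neg', h2]
      have h6 : C.L4_e K (-α) - t • (C.L4_h K α.1 - (t⁻¹ * ((-2 : ℤ) : K)) • C.L4_e K (-α)) +
          t ^ 2 • (C.L4_e K α + t⁻¹ • C.L4_h K α.1 + t⁻¹ ^ 2 • C.L4_e K (-α)) =
          t ^ 2 • C.L4_e K α := by
        funext a
        simp only [Pi.add_apply, Pi.sub_apply, Pi.smul_apply, smul_eq_mul]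
        push_cast
        field_simp
        ring
      rw [h6, Matrix.mulVec_smul, C.L4_X_zero α α t (by rw [α.2]; norm_num), Int.cast_one, one_mul]
    · -- `ip α β = -1`
      obtain ⟨γ, hγ⟩ := C.exists_add α β h
      have hc : C.cs α β = C.eps α.1 β.1 := by
        unfold cs
        rw [if_pos (Or.inr h)]
      have hr : C.refl α β = γ := by
        apply Root.ext
        rw [refl_val, h, hγ]
        module
      have hp : t ^ (- C.ip α.1 β.1) = t := by
        rw [h]
        norm_num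
      have hb : β.1 = (-α).1 + γ.1 := by
        rw [Root.neg_val, hγ]
        module
      have he : C.eps (-α).1 γ.1 = - C.eps α.1 β.1 := by
        rw [Root.neg_val, eps_neg_left, hγ, eps_add_right, eps_self]
        ring
      have h1 : 0 ≤ C.ip (-α).1 β.1 := by
        rw [Root.neg_val, ip_neg_left, h]
        norm_num
      have h2 : 0 ≤ C.ip α.1 γ.1 := by
        rw [hγ, ip_add_right, α.2, h]
        norm_num
      have hs : (C.eps α.1 β.1 : K) * (C.eps α.1 β.1 : K) = 1 := by
        rw [← Int.cast_mul, C.eps_sq, Int.cast_one]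
      rw [hc, hr, hp, C.L4_X_add α β γ t hγ, Matrix.mulVec_add, Matrix.mulVec_smul,
        C.L4_X_zero (-α) β t⁻¹ h1, C.L4_X_add (-α) γ β t⁻¹ hb, he]
      have h6 : C.L4_e K β + (t * (C.eps α.1 β.1 : K)) •
          (C.L4_e K γ + (t⁻¹ * ((-C.eps α.1 β.1 : ℤ) : K)) • C.L4_e K β) =
          ((C.eps α.1 β.1 : K) * t) • C.L4_e K γ := by
        funext a
        simp only [Pi.add_apply, Pi.smul_apply, smul_eq_mul]
        push_cast
        field_simp
        linear_combination (- C.L4_e K β a) * hs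
      rw [h6, Matrix.mulVec_smul, C.L4_X_zero α γ t h2]
    · -- `ip α β = 0`
      have hc : C.cs α β = 1 := by
        unfold cs
        rw [if_neg]
        rw [h]
        norm_num
      have hr : C.refl α β = β := by
        apply Root.ext
        rw [refl_val, h]
        module
      have hp : t ^ (- C.ip α.1 β.1) = 1 := by
        rw [h]
        norm_num
      have h1 : 0 ≤ C.ip (-α).1 β.1 := by
        rw [Root.neg_val, ip_neg_left, h]
        norm_num
      rw [hc, hr, hp, C.L4_X_zero α β t h.ge, C.L4_X_zero (-α) β t⁻¹ h1, C.L4_X_zero α β t h.ge,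
        Int.cast_one, one_mul, one_smul]
    · -- `ip α β = 1`
      obtain ⟨γ, hγ⟩ := C.exists_sub α β h
      have hc : C.cs α β = C.eps α.1 β.1 := by
        unfold cs
        rw [if_pos (Or.inl h)]
      have hr : C.refl α β = γ := by
        apply Root.ext
        rw [refl_val, h, hγ]
        module
      have hp : t ^ (- C.ip α.1 β.1) = t⁻¹ := by
        rw [h]
        norm_num
      have hg : γ.1 = (-α).1 + β.1 := by
        rw [Root.neg_val, hγ]
        module
      have hb : β.1 = α.1 + γ.1 := by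
        rw [hγ]
        module
      have he : C.eps (-α).1 β.1 = C.eps α.1 β.1 := by
        rw [Root.neg_val, eps_neg_left]
      have he' : C.eps α.1 γ.1 = - C.eps α.1 β.1 := by
        rw [hγ, eps_sub_right, eps_self]
        ring
      have hs : (C.eps α.1 β.1 : K) * (C.eps α.1 β.1 : K) = 1 := by
        rw [← Int.cast_mul, C.eps_sq, Int.cast_one]
      have h1 : 0 ≤ C.ip α.1 β.1 := by
        rw [h]
        norm_num
      rw [hc, hr, hp, C.L4_X_zero α β t h1, C.L4_X_add (-α) β γ t⁻¹ hg, he, Matrix.mulVec_add,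
        Matrix.mulVec_smul, C.L4_X_zero α β t h1, C.L4_X_add α γ β t hb, he']
      funext a
      simp only [Pi.add_apply, Pi.smul_apply, smul_eq_mul]
      push_cast
      field_simp
      linear_combination (- C.L4_e K β a * t) * hs
    · -- `β = α`
      have hβ := (C.ip_eq_two_iff α β).mp h
      subst hβ
      have hc : C.cs α α = 1 := by
        unfold cs
        rw [if_neg]
        rw [h]
        norm_num
      have hp : t ^ (- C.ip α.1 α.1) = t⁻¹ ^ 2 := by
        rw [h, _root_.zpow_neg, inv_pow]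
        norm_cast
      have h1 : 0 ≤ C.ip α.1 α.1 := by
        rw [h]
        norm_num
      rw [hc, refl_self, hp, C.L4_X_zero α α t h1, L4_X_neg', Matrix.mulVec_add,
        Matrix.mulVec_add, Matrix.mulVec_smul, Matrix.mulVec_smul, C.L4_X_zero α α t h1, L4_X_h,
        L4_X_neg, h]
      funext a
      simp only [Pi.add_apply, Pi.sub_apply, Pi.smul_apply, smul_eq_mul]
      push_cast
      field_simp
      ring

theorem hh_xg (K : Type*) [Field K] (α : C.Root) (t : K) (ht : t ≠ 0) :
    ((hh (C.xg K) α t : GL C.Idx K) : Matrix C.Idx C.Idx K) =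
      Matrix.diagonal (Sum.elim (fun _ => 1) (fun γ => t ^ (C.ip α.1 γ.1))) := by
  have h0 : ((hh (C.xg K) α t : GL C.Idx K) : Matrix C.Idx C.Idx K) =
      ((nn (C.xg K) α t : GL C.Idx K) : Matrix C.Idx C.Idx K) *
        ((nn (C.xg K) α (-1) : GL C.Idx K) : Matrix C.Idx C.Idx K) := rfl
  rw [h0, C.nn_xg K α t ht, C.nn_xg K α (-1) (by simp)]
  refine C.L4_ext _ _ (fun v => ?_) (fun β => ?_)
  · have h1 : Matrix.diagonal (Sum.elim (fun _ => 1) (fun γ => t ^ (C.ip α.1 γ.1))) *ᵥ
        C.L4_h K v = C.L4_h K v := by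
      funext a
      rw [Matrix.mulVec_diagonal]
      rcases a with i | δ
      · simp
      · simp [L4_h_inr]
    rw [h1, ← Matrix.mulVec_mulVec, L4_nmat_h, L4_nmat_h]
    congr 1
    rw [ip_sub_left, ip_smul_left, α.2]
    module
  · have h1 : Matrix.diagonal (Sum.elim (fun _ => 1) (fun γ => t ^ (C.ip α.1 γ.1))) *ᵥ
        C.L4_e K β = (t ^ (C.ip α.1 β.1)) • C.L4_e K β := by
      funext a
      rw [Matrix.mulVec_diagonal]
      rcases a with i | δ
      · simp [L4_e_inl]
      · rw [Pi.smul_apply, L4_e_inr]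
        by_cases hδ : δ = β
        · simp [hδ]
        · simp [hδ]
    rw [h1, ← Matrix.mulVec_mulVec, L4_nmat_e, Matrix.mulVec_smul, L4_nmat_e, refl_refl, smul_smul,
      ip_refl, neg_neg]
    congr 1
    have h2 : (C.cs α β : K) * (-1) ^ (-C.ip α.1 β.1) * (C.cs α (C.refl α β) : K) = 1 := by
      have h3 := C.ip_refl α β
      rcases C.ip_cases α β with h | h | h | h | h
      · rw [h] at h3
        simp [cs, h, h3]
      · rw [h] at h3
        have h4 : C.eps α.1 (C.refl α β).1 = - C.eps α.1 β.1 := by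
          rw [refl_val, h]
          have h5 : β.1 - (-1 : ℤ) • α.1 = β.1 + α.1 := by module
          rw [h5, eps_add_right, eps_self]
          ring
        have hs : (C.eps α.1 β.1 : K) * (C.eps α.1 β.1 : K) = 1 := by
          rw [← Int.cast_mul, C.eps_sq, Int.cast_one]
        simp only [cs, h, h3, h4]
        norm_num
        linear_combination hs
      · rw [h] at h3
        simp [cs, h, h3]
      · rw [h] at h3
        have h4 : C.eps α.1 (C.refl α β).1 = - C.eps α.1 β.1 := by
          rw [refl_val, h]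
          have h5 : β.1 - (1 : ℤ) • α.1 = β.1 - α.1 := by module
          rw [h5, eps_sub_right, eps_self]
          ring
        have hs : (C.eps α.1 β.1 : K) * (C.eps α.1 β.1 : K) = 1 := by
          rw [← Int.cast_mul, C.eps_sq, Int.cast_one]
        simp only [cs, h, h3, h4]
        norm_num
        linear_combination hs
      · rw [h] at h3
        simp [cs, h, h3]
    calc (C.cs α β : K) * (-1) ^ (-C.ip α.1 β.1) * ((C.cs α (C.refl α β) : K) * t ^ C.ip α.1 β.1)
        = ((C.cs α β : K) * (-1) ^ (-C.ip α.1 β.1) * (C.cs α (C.refl α β) : K)) *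
            t ^ C.ip α.1 β.1 := by ring
      _ = t ^ C.ip α.1 β.1 := by rw [h2, one_mul]

end SLC

end Pool.Agent.H75.UL
end

section
/- module Pool.Agent.H75.UL.L5 -/
/-!
# Project UL (MP_978914_al), module L5

`n_α(t) x_α(u) n_α(t)⁻¹ = x_{-α}(t⁻² u)` in the adjoint group.

Enough: `nmat α t * X α u = X (-α) (t⁻¹^2 * u) * nmat α t` (then `nn_xg`). This follows from
`nmat * E α = t⁻² • (E (-α) * nmat)` and `nmat * F α = t⁻⁴ • (F (-α) * nmat)` (casts of integer
matrices). On the basis: `n E_α e_{-α} = n (-h_α) = h_α` and `t⁻² E_{-α} n e_{-α} = E_{-α} e_α =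
-h_{-α} = h_α`; `n E_α h_j = -(α_j,α) t⁻² e_{-α}` and
`t⁻² E_{-α} (h_j - (α_j,α) h_α) = t⁻² (α_j,α) (1 - 2) e_{-α}`; `ip α β = -1`:
`n E_α e_β = ε n e_{α+β} = ε cs(α,α+β) t⁻¹ e_β = ε(α,β) ε(α,α+β) t⁻¹ e_β = -t⁻¹ e_β` and
`t⁻² E_{-α} n e_β = t⁻² ε t E_{-α} e_{α+β} = t⁻¹ ε ε(-α,α+β) e_β = -t⁻¹ e_β`; all other basis
vectors are killed by both sides.
-/

set_option autoImplicit false
open Matrix
universe u
namespace Pool.Agent.H75.UL

namespace SLC
variable {n : ℕ} (C : SLC n)

theorem L5_refl_of_neg (α β : C.Root) (h : β.1 = -α.1) : C.refl α β = α := by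
  have hβ : β = -α := Root.ext (by rw [Root.neg_val]; exact h)
  rw [hβ, refl_neg, refl_self, neg_neg_root]

theorem L5_refl_iff (α β : C.Root) : C.refl α β = α ↔ β.1 = -α.1 := by
  constructor
  · intro h
    have h1 := C.refl_refl α β
    rw [h, refl_self] at h1
    rw [← h1, Root.neg_val]
  · exact C.L5_refl_of_neg α β

theorem L5_cs_of_neg (α β : C.Root) (h : β.1 = -α.1) : C.cs α β = 1 := by
  unfold cs
  rw [h, ip_neg_right, α.2]
  norm_num

theorem L5_ip_of_neg (α β : C.Root) (h : β.1 = -α.1) : C.ip α.1 β.1 = -2 := by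
  rw [h, ip_neg_right, α.2]

theorem L5_cs_self (α : C.Root) : C.cs α α = 1 := by
  unfold cs
  rw [α.2]
  norm_num

theorem L5_sum (α : C.Root) (K : Type*) [Field K] :
    ∑ k, (α.1 k : K) * (C.ip (Pi.single k 1) α.1 : K) = 2 := by
  have h := C.sum_ip_single α.1 α.1
  rw [α.2] at h
  have h2 := congrArg (Int.cast : ℤ → K) h
  push_cast at h2
  exact h2

theorem L5_E (K : Type*) [Field K] (α : C.Root) (t : K) (ht : t ≠ 0) :
    C.nmat K α t * (C.E α).map (Int.cast : ℤ → K) =
      (t⁻¹ ^ 2) • ((C.E (-α)).map (Int.cast : ℤ → K) * C.nmat K α t) := by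
  ext a b
  rw [Matrix.mul_apply, Fintype.sum_sum_type, Matrix.smul_apply, Matrix.mul_apply,
    Fintype.sum_sum_type]
  rcases a with i | γ <;> rcases b with j | β
  · simp [nmat, E]
  · -- (inl i) (inr β)
    simp only [nmat, E, Matrix.map_apply, Root.neg_val, zero_mul, mul_zero, Finset.sum_const_zero,
      add_zero, zero_add, neg_neg, Pi.neg_apply]
    by_cases hβ : β.1 = -α.1
    · simp only [hβ, if_true]
      rw [Finset.sum_eq_single (C.refl α β)]
      · have hr := C.L5_refl_of_neg α β hβ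
        rw [if_pos (by rw [hr]), if_pos rfl, C.L5_cs_of_neg α β hβ]
        have hip : C.ip α.1 (-α.1) = -2 := by rw [ip_neg_right, α.2]
        rw [hip]
        have e1 : ∀ k, ((if i = k then (1 : K) else 0) - (α.1 i : K) *
            (C.ip (Pi.single k 1) α.1 : K)) * ((-α.1 k : ℤ) : K) =
            (α.1 i : K) * ((α.1 k : K) * (C.ip (Pi.single k 1) α.1 : K)) -
              (if i = k then (α.1 k : K) else 0) := by
          intro k
          push_cast
          split_ifs <;> ring
        rw [Finset.sum_congr rfl fun k _ => e1 k, Finset.sum_sub_distrib, ← Finset.mul_sum,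
          C.L5_sum α K, Finset.sum_ite_eq, if_pos (Finset.mem_univ i)]
        have e2 : t ^ (-(-2 : ℤ)) = t ^ 2 := by norm_num
        rw [e2, smul_eq_mul]
        push_cast
        field_simp
        ring
      · intro δ _ hδ
        rw [if_neg hδ, mul_zero]
      · intro h
        exact absurd (Finset.mem_univ _) h
    · simp only [hβ, if_false, Int.cast_zero, mul_zero, Finset.sum_const_zero]
      symm
      rw [smul_eq_mul]
      apply mul_eq_zero_of_right
      apply Finset.sum_eq_zero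
      intro δ _
      by_cases hδ : δ = C.refl α β
      · rw [if_neg, Int.cast_zero, zero_mul]
        intro h
        apply hβ
        rw [← C.L5_refl_iff α β, ← hδ]
        exact Root.ext h
      · rw [if_neg hδ, mul_zero]
  · -- (inr γ) (inl j)
    simp only [nmat, E, Matrix.map_apply, Root.neg_val, zero_mul, mul_zero, Finset.sum_const_zero,
      add_zero, zero_add, ip_neg_right, neg_neg]
    rw [Finset.sum_eq_single α]
    · rw [if_pos rfl, refl_self, L5_cs_self, α.2]
      by_cases hγ : γ = -α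
      · have hγ' : γ.1 = -α.1 := by rw [hγ, Root.neg_val]
        rw [if_pos hγ]
        simp only [hγ', if_true]
        have e1 : ∀ k, ((C.ip (Pi.single k 1) α.1 : ℤ) : K) * ((if k = j then (1 : K) else 0) -
            (α.1 k : K) * (C.ip (Pi.single j 1) α.1 : K)) =
            (if k = j then (C.ip (Pi.single k 1) α.1 : K) else 0) -
            ((α.1 k : K) * (C.ip (Pi.single k 1) α.1 : K)) * (C.ip (Pi.single j 1) α.1 : K) := by
          intro k
          split_ifs <;> ring
        rw [Finset.sum_congr rfl fun k _ => e1 k, Finset.sum_sub_distrib, ← Finset.sum_mul,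
          C.L5_sum α K, Finset.sum_ite_eq', if_pos (Finset.mem_univ j)]
        have e2 : t ^ (-(2 : ℤ)) = t⁻¹ ^ 2 := by
              rw [_root_.zpow_neg, inv_pow, ← zpow_natCast t 2]; norm_num
        rw [e2, smul_eq_mul]
        push_cast
        ring
      · have hγ' : γ.1 ≠ -α.1 := fun h => hγ (Root.ext (by rw [Root.neg_val]; exact h))
        rw [if_neg hγ]
        simp only [hγ', if_false, Int.cast_zero, zero_mul, Finset.sum_const_zero, smul_zero]
    · intro δ _ hδ
      rw [if_neg (fun h => hδ (Root.ext h)), Int.cast_zero, mul_zero]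
    · intro h
      exact absurd (Finset.mem_univ _) h
  · -- (inr γ) (inr β)
    simp only [nmat, E, Matrix.map_apply, Root.neg_val, zero_mul, mul_zero, Finset.sum_const_zero,
      zero_add]
    rw [Finset.sum_eq_single (C.refl α β) (f := fun δ => (((if γ.1 = -α.1 + δ.1 then
      C.eps (-α.1) δ.1 else 0 : ℤ)) : K) * (if δ = C.refl α β then (C.cs α β : K) *
        t ^ (-C.ip α.1 β.1) else 0))]
    · rw [if_pos rfl]
      by_cases h : C.ip α.1 β.1 = -1
      · obtain ⟨δ, hδ⟩ := C.exists_add α β h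
        rw [Finset.sum_eq_single δ]
        · rw [if_pos hδ]
          have hiδ : C.ip α.1 δ.1 = 1 := by rw [hδ, ip_add_right, α.2, h]; norm_num
          have hrδ : (C.refl α δ).1 = β.1 := by
            rw [refl_val, hiδ, hδ]
            simp
          have hrβ : (C.refl α β).1 = β.1 + α.1 := by
            rw [refl_val, h]
            simp
          have hcsδ : C.cs α δ = - C.eps α.1 β.1 := by
            unfold cs
            rw [if_pos (Or.inl hiδ), hδ, eps_add_right, eps_self]
            ring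
          have hcsβ : C.cs α β = C.eps α.1 β.1 := by
            unfold cs
            rw [if_pos (Or.inr h)]
          have hsq : (C.eps α.1 β.1 : K) * (C.eps α.1 β.1 : K) = 1 := by
            have := C.eps_sq α.1 β.1
            exact_mod_cast congrArg (Int.cast : ℤ → K) this
          by_cases hγ : γ = β
          · have h1 : γ = C.refl α δ := by
              rw [hγ]; exact (Root.ext hrδ).symm
            have h2 : γ.1 = -α.1 + (C.refl α β).1 := by
              rw [hrβ, hγ]; abel
            rw [if_pos h1, if_pos h2, hcsδ, hcsβ, hiδ, h, hrβ, eps_neg_left, eps_add_right,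
              eps_self, smul_eq_mul]
            have e1 : t ^ (-(1 : ℤ)) = t⁻¹ := _root_.zpow_neg_one t
            have e2 : t ^ (-(-1 : ℤ)) = t := by norm_num
            rw [e1, e2]
            push_cast
            have e3 : t⁻¹ ^ 2 * ((C.eps α.1 β.1 : K) * -1 * ((C.eps α.1 β.1 : K) * t)) =
                -((C.eps α.1 β.1 : K) * (C.eps α.1 β.1 : K)) * (t⁻¹ * (t⁻¹ * t)) := by ring
            rw [e3, inv_mul_cancel₀ ht, hsq]
            have e4 : -(C.eps α.1 β.1 : K) * t⁻¹ * (C.eps α.1 β.1 : K) =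
                -((C.eps α.1 β.1 : K) * (C.eps α.1 β.1 : K)) * t⁻¹ := by ring
            rw [e4, hsq]
            ring
          · have h1 : ¬ γ = C.refl α δ := by
              intro h3
              exact hγ (h3.trans (Root.ext hrδ))
            have h2 : ¬ γ.1 = -α.1 + (C.refl α β).1 := by
              intro h3
              apply hγ
              apply Root.ext
              rw [h3, hrβ]; abel
            rw [if_neg h1, if_neg h2]
            simp
        · intro δ' _ hδ'
          rw [if_neg (c := δ'.1 = α.1 + β.1) (fun h3 => hδ' (Root.ext (h3.trans hδ.symm))),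
            Int.cast_zero, mul_zero]
        · intro h3
          exact absurd (Finset.mem_univ _) h3
      · rw [Finset.sum_eq_zero]
        · rw [if_neg, Int.cast_zero, zero_mul, smul_zero]
          intro h3
          have h4 := C.ip_add_root (-α) (C.refl α β) γ (by rw [Root.neg_val]; exact h3)
          rw [Root.neg_val, ip_neg_left, ip_refl, neg_neg] at h4
          exact h h4
        · intro δ _
          rw [if_neg (c := δ.1 = α.1 + β.1), Int.cast_zero, mul_zero]
          intro h3
          exact h (C.ip_add_root α β δ h3)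
    · intro δ _ hδ
      rw [if_neg hδ, mul_zero]
    · intro h
      exact absurd (Finset.mem_univ _) h

theorem L5_F (K : Type*) [Field K] (α : C.Root) (t : K) (ht : t ≠ 0) :
    C.nmat K α t * (C.F α).map (Int.cast : ℤ → K) =
      ((t⁻¹ ^ 2) ^ 2) • ((C.F (-α)).map (Int.cast : ℤ → K) * C.nmat K α t) := by
  ext a b
  rw [Matrix.mul_apply, Fintype.sum_sum_type, Matrix.smul_apply, Matrix.mul_apply,
    Fintype.sum_sum_type]
  rcases a with i | γ <;> rcases b with j | β
  · simp [nmat, F]
  · simp [nmat, F]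
  · simp [nmat, F]
  · simp only [nmat, F, Matrix.map_apply, Root.neg_val, mul_zero, Int.cast_zero,
      Finset.sum_const_zero, zero_add, neg_neg]
    rw [Finset.sum_eq_single α, Finset.sum_eq_single α]
    · rw [refl_self, L5_cs_self, α.2]
      by_cases hβ : β.1 = -α.1
      · have hr := C.L5_refl_of_neg α β hβ
        rw [hr, if_pos rfl, C.L5_cs_of_neg α β hβ, C.L5_ip_of_neg α β hβ]
        by_cases hγ : γ = -α
        · have hγ' : γ.1 = -α.1 := by rw [hγ, Root.neg_val]
          rw [if_pos hγ, if_pos ⟨rfl, hβ⟩, if_pos ⟨hγ', rfl⟩, smul_eq_mul]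
          have e1 : t ^ (-(2 : ℤ)) = t⁻¹ ^ 2 := by
              rw [_root_.zpow_neg, inv_pow, ← zpow_natCast t 2]; norm_num
          have e2 : t ^ (-(-2 : ℤ)) = t ^ 2 := by norm_num
          rw [e1, e2]
          push_cast
          field_simp
        · have hγ' : γ.1 ≠ -α.1 := fun h => hγ (Root.ext (by rw [Root.neg_val]; exact h))
          rw [if_neg hγ, if_neg (c := γ.1 = -α.1 ∧ _) (fun h => hγ' h.1)]
          simp
      · have hr : ¬ α = C.refl α β := fun h => hβ ((C.L5_refl_iff α β).1 h.symm)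
        rw [if_neg hr, if_neg (c := _ ∧ β.1 = -α.1) (fun h => hβ h.2)]
        simp
    · intro δ _ hδ
      rw [if_neg (c := γ.1 = -α.1 ∧ δ.1 = α.1) (fun h => hδ (Root.ext h.2)), Int.cast_zero,
        zero_mul]
    · intro h
      exact absurd (Finset.mem_univ _) h
    · intro δ _ hδ
      rw [if_neg (c := δ.1 = α.1 ∧ β.1 = -α.1) (fun h => hδ (Root.ext h.1)), Int.cast_zero,
        mul_zero]
    · intro h
      exact absurd (Finset.mem_univ _) h

theorem L5_X (K : Type*) [Field K] (α : C.Root) (t u : K) (ht : t ≠ 0) :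
    C.nmat K α t * C.X K α u = C.X K (-α) (t⁻¹ ^ 2 * u) * C.nmat K α t := by
  unfold X
  rw [mul_add, mul_add, mul_one, add_mul, add_mul, one_mul, mul_smul_comm, mul_smul_comm,
    smul_mul_assoc, smul_mul_assoc, C.L5_E K α t ht, C.L5_F K α t ht, smul_smul, smul_smul]
  have e1 : t⁻¹ ^ 2 * u = u * t⁻¹ ^ 2 := mul_comm _ _
  have e2 : (t⁻¹ ^ 2 * u) ^ 2 = u ^ 2 * (t⁻¹ ^ 2) ^ 2 := by ring
  rw [e2, e1]

theorem n_conj_xg (K : Type*) [Field K] (α : C.Root) (t u : K) (ht : t ≠ 0) :
    nn (C.xg K) α t * C.xg K α u * (nn (C.xg K) α t)⁻¹ = C.xg K (-α) (t⁻¹ ^ 2 * u) := by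
  have hN := C.nn_xg K α t ht
  rw [mul_inv_eq_iff_eq_mul]
  apply Units.ext
  rw [Units.val_mul, Units.val_mul, hN]
  exact C.L5_X K α t u ht

end SLC

end Pool.Agent.H75.UL
end
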