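import Mathlib
import Pool.Agent.H86.AL.M02
import Pool.Agent.H86.AL.M03

/-!
# M04: collected modules

Pool.Agent.H75.UL.L3
Pool.Agent.H75.UL.Ad
Pool.Agent.H75.UL.G1
Pool.Agent.H75.UL.S7
Pool.Agent.H75.UL.T2
Pool.Agent.H75.UL.T3
Pool.Agent.H75.UL.T6
Pool.Agent.H75.UL.T7
Pool.Agent.H86.UM.RD2
Pool.Agent.H86.UM.W3
Pool.Agent.H75.UE.E8
Pool.Agent.H75.UE.L0
-/

section
/- module Pool.Agent.H75.UL.L3 -/
/-!
# Project UL (MP_978914_al), module L3

Commutator relations of the `X α s` over every commutative ring.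

All identities needed are between integer matrices (apply `Matrix.map (Int.castRingHom R)` at the
end). `X_comm`: with `E_comm`, `2 F_α E_β = E_α^2 E_β = E_β E_α^2 = 2 E_β F_α`, so
`F_α E_β = E_β F_α` (integer matrices have no `2`-torsion), similarly `F_α F_β = F_β F_α`; expand.
`X_comm_add`: put `A = E_α, B = E_β, G = E_γ`, `a = F_α, b = F_β, g = F_γ`, `ε = eps α β = ±1`.
`A B = B A + ε G`, `A G = G A`, `B G = G B` (`E_comm`, as `ip α γ = ip β γ = 1`). Comparing
coefficients of `s^i t^j` on both sides, the identities needed are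
`a B = B a + ε G A`, `A b = b A + ε G B`, `a b = b a + ε G B A + g` (multiply by 2 resp. 4 and use
`E_mul_E`) and the vanishing of `G a`, `G b`, `g a`, `g b`, `G B a + ε g A`, `G b A + ε g B`,
`G b a + ε g B A` and of `g B a`, `g b A`, `g b a` (each is zero term by term: e.g. `G a` maps
`e_{-α}` to `G e_α = 0` as `γ + α` is not a root; `g A`: `A e_δ ∝ e_{-γ}` would need
`δ = -2α - β`; prove them by `ext` as `SLC.F_mul_E` in Defs, or deduce them algebraically).
Alternative: check the relation on basis vectors, or work over `ℚ[s,t]` with exponentials.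
-/

set_option autoImplicit false
open Matrix
universe u
namespace Pool.Agent.H75.UL

/-- expansion in an abstract algebra. -/
private theorem L3_expand {R : Type*} [CommRing R] {S : Type*} [Ring S] [Algebra R S]
    (A B G a b g : S) (ε s t : R) (hε : ε * ε = 1) (h1 : A * B = B * A + ε • G)
    (h2 : a * B = B * a + ε • (G * A)) (h3 : A * b = b * A + ε • (G * B))
    (h4 : a * b = b * a + ε • (G * B * A) + g) (Ga : G * a = 0) (Gb : G * b = 0) (gA : g * A = 0)
    (gB : g * B = 0) (ga : g * a = 0) (gb : g * b = 0) (hGB : G * B = B * G) :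
    (1 + s • A + s ^ 2 • a) * (1 + t • B + t ^ 2 • b) =
      (1 + (ε * s * t) • G + (ε * s * t) ^ 2 • g) * ((1 + t • B + t ^ 2 • b) * (1 + s • A + s ^ 2 • a)) := by
  have e1 : (1 + s • A + s ^ 2 • a) * (1 + t • B + t ^ 2 • b) =
      1 + s • A + s ^ 2 • a + t • B + (s * t) • (A * B) + (s ^ 2 * t) • (a * B) + t ^ 2 • b +
        (s * t ^ 2) • (A * b) + (s ^ 2 * t ^ 2) • (a * b) := by
    simp only [mul_add, add_mul, one_mul, mul_one, smul_mul_assoc, mul_smul_comm, smul_smul]
    module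
  have e2 : (1 + t • B + t ^ 2 • b) * (1 + s • A + s ^ 2 • a) =
      1 + s • A + s ^ 2 • a + t • B + (s * t) • (B * A) + (s ^ 2 * t) • (B * a) + t ^ 2 • b +
        (s * t ^ 2) • (b * A) + (s ^ 2 * t ^ 2) • (b * a) := by
    simp only [mul_add, add_mul, one_mul, mul_one, smul_mul_assoc, mul_smul_comm, smul_smul]
    module
  have g1 : G * (B * a) = 0 := by rw [← mul_assoc, hGB, mul_assoc, Ga, mul_zero]
  have g2 : G * (b * A) = 0 := by rw [← mul_assoc, Gb, zero_mul]
  have g3 : G * (b * a) = 0 := by rw [← mul_assoc, Gb, zero_mul]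
  have g4 : g * (B * A) = 0 := by rw [← mul_assoc, gB, zero_mul]
  have g5 : g * (B * a) = 0 := by rw [← mul_assoc, gB, zero_mul]
  have g6 : g * (b * A) = 0 := by rw [← mul_assoc, gb, zero_mul]
  have g7 : g * (b * a) = 0 := by rw [← mul_assoc, gb, zero_mul]
  have e3 : G * ((1 + t • B + t ^ 2 • b) * (1 + s • A + s ^ 2 • a)) =
      G + s • (G * A) + t • (G * B) + (s * t) • (G * B * A) := by
    rw [e2]
    simp only [mul_add, mul_one, mul_smul_comm, Ga, Gb, g1, g2, g3, smul_zero, add_zero, ← mul_assoc]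
  have e4 : g * ((1 + t • B + t ^ 2 • b) * (1 + s • A + s ^ 2 • a)) = g := by
    rw [e2]
    simp only [mul_add, mul_one, mul_smul_comm, gA, gB, ga, gb, g4, g5, g6, g7, smul_zero, add_zero]
  have e6 : (1 + (ε * s * t) • G + (ε * s * t) ^ 2 • g) *
      ((1 + t • B + t ^ 2 • b) * (1 + s • A + s ^ 2 • a)) =
      (1 + t • B + t ^ 2 • b) * (1 + s • A + s ^ 2 • a) +
      (ε * s * t) • (G + s • (G * A) + t • (G * B) + (s * t) • (G * B * A)) +
      (ε * s * t) ^ 2 • g := by
    rw [add_mul, add_mul, one_mul, smul_mul_assoc, smul_mul_assoc, e3, e4]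
  rw [e6, e1, e2, h1, h2, h3, h4]
  have e5 : (ε * s * t) ^ 2 = s ^ 2 * t ^ 2 := by
    calc (ε * s * t) ^ 2 = (ε * ε) * (s ^ 2 * t ^ 2) := by ring
      _ = s ^ 2 * t ^ 2 := by rw [hε, one_mul]
  rw [e5]
  module

/-- consequences of the commutator relation in a ring without 2-torsion. -/
private theorem L3_alg {S : Type*} [Ring S] (h2tor : ∀ u v : S, 2 • u = 2 • v → u = v)
    (A B G a b g : S) (ε : ℤ) (hε : ε * ε = 1) (hA : A * A = 2 • a) (hB : B * B = 2 • b)
    (hG : G * G = 2 • g) (hAB : A * B = B * A + ε • G) (hAG : A * G = G * A) (hBG : B * G = G * B) :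
    a * B = B * a + ε • (G * A) ∧ A * b = b * A + ε • (G * B) ∧
      a * b = b * a + ε • (G * B * A) + g := by
  have k1 : a * B = B * a + ε • (G * A) := by
    apply h2tor
    calc 2 • (a * B) = A * A * B := by rw [hA, smul_mul_assoc]
      _ = A * (A * B) := mul_assoc _ _ _
      _ = A * B * A + ε • (A * G) := by rw [hAB, mul_add, mul_smul_comm, ← mul_assoc, hAB]
      _ = B * (A * A) + 2 • (ε • (G * A)) := by
          rw [hAB, add_mul, smul_mul_assoc, hAG, mul_assoc, two_smul ℕ (ε • (G * A)), add_assoc]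
      _ = 2 • (B * a + ε • (G * A)) := by rw [hA, mul_smul_comm, smul_add]
  have k2 : A * b = b * A + ε • (G * B) := by
    apply h2tor
    calc 2 • (A * b) = A * (B * B) := by rw [hB, mul_smul_comm]
      _ = A * B * B := (mul_assoc _ _ _).symm
      _ = B * (A * B) + ε • (G * B) := by rw [hAB, add_mul, smul_mul_assoc, mul_assoc, hAB]
      _ = B * B * A + 2 • (ε • (G * B)) := by
          rw [hAB, mul_add, mul_smul_comm, hBG, ← mul_assoc, two_smul ℕ (ε • (G * B)), add_assoc]
      _ = 2 • (b * A + ε • (G * B)) := by rw [hB, smul_mul_assoc, smul_add]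
  refine ⟨k1, k2, ?_⟩
  apply h2tor
  have hGBB : G * b = b * G := by
    apply h2tor
    calc 2 • (G * b) = G * (B * B) := by rw [hB, mul_smul_comm]
      _ = B * B * G := by rw [← mul_assoc, ← hBG, mul_assoc, ← hBG, mul_assoc]
      _ = 2 • (b * G) := by rw [hB, smul_mul_assoc]
  -- 2 (a b) = a B B
  calc 2 • (a * b) = a * (B * B) := by rw [hB, mul_smul_comm]
    _ = a * B * B := (mul_assoc _ _ _).symm
    _ = B * (a * B) + ε • (G * (A * B)) := by rw [k1, add_mul, smul_mul_assoc, mul_assoc, mul_assoc, k1]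
    _ = B * (B * a + ε • (G * A)) + ε • (G * (B * A + ε • G)) := by rw [k1, hAB]
    _ = B * B * a + ε • (B * G * A) + (ε • (G * B * A) + (ε * ε) • (G * G)) := by
        rw [mul_add, mul_add, mul_smul_comm, mul_smul_comm, smul_add, smul_smul, ← mul_assoc, ← mul_assoc,
          ← mul_assoc]
    _ = 2 • (b * a + ε • (G * B * A) + g) := by
        rw [hBG, hε, one_smul, hG, hB, smul_mul_assoc, smul_add, smul_add, two_smul ℕ (ε • (G * B * A))]
        abel

namespace SLC
variable {n : ℕ} (C : SLC n)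

private theorem L3_tor (u v : Matrix C.Idx C.Idx ℤ) (h : 2 • u = 2 • v) : u = v := by
  ext x y
  have h1 := congrFun (congrFun h x) y
  simp only [Matrix.smul_apply, nsmul_eq_mul, Nat.cast_ofNat] at h1
  omega

private theorem L3_E_mul_F (α β : C.Root) (h : 0 ≤ C.ip α.1 β.1) : C.E α * C.F β = 0 := by
  ext x y
  rw [Matrix.mul_apply, Fintype.sum_sum_type]
  rcases x with i | γ <;> rcases y with j | δ <;> simp [F, E]
  · apply Finset.sum_eq_zero
    intro κ _
    split_ifs with h1 h2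
    · exfalso
      have h3 : C.ip α.1 β.1 = -2 := by
        rw [← h1.1, h2, ip_neg_right, α.2]
      omega
    · rfl
    · rfl
  · apply Finset.sum_eq_zero
    intro κ _
    split_ifs with h1 h2
    · exfalso
      rw [h1.1] at h2
      have := C.ip_add_root α β γ h2
      omega
    · rfl
    · rfl

private theorem L3_F_mul_E (α β : C.Root) (h : 0 ≤ C.ip α.1 β.1) : C.F α * C.E β = 0 := by
  ext x y
  rw [Matrix.mul_apply, Fintype.sum_sum_type]
  rcases x with i | γ <;> rcases y with j | δ <;> simp [F, E]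
  · apply Finset.sum_eq_zero
    intro κ _
    split_ifs with h1 h2
    · exfalso
      have h3 : β.1 = -α.1 := h1.symm.trans h2.2
      have h4 : C.ip α.1 β.1 = -2 := by
        rw [h3, ip_neg_right, α.2]
      omega
    · rfl
    · rfl
  · apply Finset.sum_eq_zero
    intro κ _
    split_ifs with h1 h2
    · exfalso
      have h3 : β.1 + δ.1 = -α.1 := h1.symm.trans h2.2
      have h4 : (-δ).1 = α.1 + β.1 := by
        rw [Root.neg_val]
        funext i
        have h5 := congrFun h3 i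
        simp only [Pi.add_apply, Pi.neg_apply] at h5 ⊢
        omega
      have := C.ip_add_root α β (-δ) h4
      omega
    · rfl
    · rfl

private theorem L3_X (R : Type*) [CommRing R] (α : C.Root) (s : R) :
    C.X R α s = 1 + s • (Int.castRingHom R).mapMatrix (C.E α) +
      s ^ 2 • (Int.castRingHom R).mapMatrix (C.F α) := rfl

theorem X_comm (R : Type*) [CommRing R] (α β : C.Root) (s t : R) (h : 0 ≤ C.ip α.1 β.1) :
    C.X R α s * C.X R β t = C.X R β t * C.X R α s := by
  have hAB := C.E_comm α β h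
  have haB : C.F α * C.E β = C.E β * C.F α := by
    apply C.L3_tor
    rw [← smul_mul_assoc, ← mul_smul_comm, ← C.E_mul_E, mul_assoc, hAB, ← mul_assoc, hAB, mul_assoc]
  have hAb : C.E α * C.F β = C.F β * C.E α := by
    apply C.L3_tor
    rw [← mul_smul_comm, ← smul_mul_assoc, ← C.E_mul_E, ← mul_assoc, hAB, mul_assoc, hAB, mul_assoc]
  have hab : C.F α * C.F β = C.F β * C.F α := by
    apply C.L3_tor
    rw [← smul_mul_assoc, ← mul_smul_comm, ← C.E_mul_E, mul_assoc, hAb, ← mul_assoc, hAb, mul_assoc]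
  have c1 : Commute ((Int.castRingHom R).mapMatrix (C.E α)) ((Int.castRingHom R).mapMatrix (C.E β)) := by
    show _ * _ = _ * _
    rw [← map_mul, hAB, map_mul]
  have c2 : Commute ((Int.castRingHom R).mapMatrix (C.F α)) ((Int.castRingHom R).mapMatrix (C.E β)) := by
    show _ * _ = _ * _
    rw [← map_mul, haB, map_mul]
  have c3 : Commute ((Int.castRingHom R).mapMatrix (C.E α)) ((Int.castRingHom R).mapMatrix (C.F β)) := by
    show _ * _ = _ * _
    rw [← map_mul, hAb, map_mul]
  have c4 : Commute ((Int.castRingHom R).mapMatrix (C.F α)) ((Int.castRingHom R).mapMatrix (C.F β)) := by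
    show _ * _ = _ * _
    rw [← map_mul, hab, map_mul]
  rw [C.L3_X, C.L3_X]
  have d1 : Commute ((Int.castRingHom R).mapMatrix (C.E α))
      (1 + t • (Int.castRingHom R).mapMatrix (C.E β) + t ^ 2 • (Int.castRingHom R).mapMatrix (C.F β)) :=
    ((Commute.one_right _).add_right (c1.smul_right t)).add_right (c3.smul_right (t ^ 2))
  have d2 : Commute ((Int.castRingHom R).mapMatrix (C.F α))
      (1 + t • (Int.castRingHom R).mapMatrix (C.E β) + t ^ 2 • (Int.castRingHom R).mapMatrix (C.F β)) :=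
    ((Commute.one_right _).add_right (c2.smul_right t)).add_right (c4.smul_right (t ^ 2))
  exact ((Commute.one_left _).add_left (d1.smul_left s)).add_left (d2.smul_left (s ^ 2))

theorem X_comm_add (R : Type*) [CommRing R] (α β γ : C.Root) (s t : R) (h : γ.1 = α.1 + β.1) :
    C.X R α s * C.X R β t =
      C.X R γ (C.eps α.1 β.1 * s * t) * (C.X R β t * C.X R α s) := by
  have hip : C.ip α.1 β.1 = -1 := C.ip_add_root α β γ h
  have hαγ : C.ip α.1 γ.1 = 1 := by
    rw [h, ip_add_right, α.2, hip]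
    norm_num
  have hβγ : C.ip β.1 γ.1 = 1 := by
    rw [h, ip_add_right, β.2, C.ip_comm β.1 α.1, hip]
    norm_num
  have hγα : C.ip γ.1 α.1 = 1 := by rw [C.ip_comm, hαγ]
  have hγβ : C.ip γ.1 β.1 = 1 := by rw [C.ip_comm, hβγ]
  have hAB : C.E α * C.E β = C.E β * C.E α + C.eps α.1 β.1 • C.E γ := by
    rw [← C.E_comm_add α β γ h]
    abel
  have hAG := C.E_comm α γ (by omega)
  have hBG := C.E_comm β γ (by omega)
  obtain ⟨k1, k2, k3⟩ := L3_alg (C.L3_tor) (C.E α) (C.E β) (C.E γ) (C.F α) (C.F β) (C.F γ)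
    (C.eps α.1 β.1) (C.eps_sq α.1 β.1) (C.E_mul_E α) (C.E_mul_E β) (C.E_mul_E γ) hAB hAG hBG
  have z1 : C.E γ * C.F α = 0 := C.L3_E_mul_F γ α (by omega)
  have z2 : C.E γ * C.F β = 0 := C.L3_E_mul_F γ β (by omega)
  have z3 : C.F γ * C.E α = 0 := C.L3_F_mul_E γ α (by omega)
  have z4 : C.F γ * C.E β = 0 := C.L3_F_mul_E γ β (by omega)
  have z5 : C.F γ * C.F α = 0 := by
    apply C.L3_tor
    rw [← mul_smul_comm, ← C.E_mul_E, ← mul_assoc, z3, zero_mul, smul_zero]
  have z6 : C.F γ * C.F β = 0 := by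
    apply C.L3_tor
    rw [← mul_smul_comm, ← C.E_mul_E, ← mul_assoc, z4, zero_mul, smul_zero]
  have hm : ∀ (e : ℤ) (M : Matrix C.Idx C.Idx ℤ), (Int.castRingHom R).mapMatrix (e • M) =
      (e : R) • (Int.castRingHom R).mapMatrix M := by
    intro e M
    ext x y
    rw [RingHom.mapMatrix_apply, RingHom.mapMatrix_apply, Matrix.map_apply, Matrix.smul_apply,
      Matrix.smul_apply, Matrix.map_apply, smul_eq_mul, smul_eq_mul, map_mul]
    rfl
  have hmap : ∀ {M N : Matrix C.Idx C.Idx ℤ}, M = N →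
      (Int.castRingHom R).mapMatrix M = (Int.castRingHom R).mapMatrix N := fun h => congrArg _ h
  have m0 := hmap hAB
  have m1 := hmap k1
  have m2 := hmap k2
  have m3 := hmap k3
  have n1 := hmap z1
  have n2 := hmap z2
  have n3 := hmap z3
  have n4 := hmap z4
  have n5 := hmap z5
  have n6 := hmap z6
  have n7 := hmap hBG
  simp only [map_add, map_mul, hm, map_zero] at m0 m1 m2 m3 n1 n2 n3 n4 n5 n6 n7
  have hε : ((C.eps α.1 β.1 : ℤ) : R) * ((C.eps α.1 β.1 : ℤ) : R) = 1 := by
    rw [← Int.cast_mul, C.eps_sq, Int.cast_one]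
  rw [C.L3_X, C.L3_X, C.L3_X]
  exact L3_expand _ _ _ _ _ _ _ s t hε m0 m1 m2 m3 n1 n2 n3 n4 n5 n6 n7.symm

end SLC

end Pool.Agent.H75.UL
end

section
/- module Pool.Agent.H75.UL.Ad -/
/-!
# Project UL (MP_978914_al), module Ad

The Steinberg system of the adjoint group (assembly).
-/

set_option autoImplicit false
open Matrix
universe u
namespace Pool.Agent.H75.UL

namespace SLC
variable {n : ℕ} (C : SLC n)

theorem xg_map_add (K : Type*) [Field K] (β : C.Root) (s t : K) :
    C.xg K β (s + t) = C.xg K β s * C.xg K β t := Units.ext (C.X_add K β s t)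

theorem xg_comm (K : Type*) [Field K] (α β : C.Root) (s t : K) (h : 0 ≤ C.ip α.1 β.1) :
    C.xg K α s * C.xg K β t = C.xg K β t * C.xg K α s := Units.ext (C.X_comm K α β s t h)

theorem xg_comm_add (K : Type*) [Field K] (α β γ : C.Root) (s t : K) (h : γ.1 = α.1 + β.1) :
    C.xg K α s * C.xg K β t * (C.xg K α s)⁻¹ * (C.xg K β t)⁻¹ =
      C.xg K γ (C.eps α.1 β.1 * s * t) := by
  rw [mul_inv_eq_iff_eq_mul, mul_inv_eq_iff_eq_mul, mul_assoc]
  exact Units.ext (C.X_comm_add K α β γ s t h)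

theorem xg_h_mul (K : Type*) [Field K] (α : C.Root) (s t : K) (hs : s ≠ 0) (ht : t ≠ 0) :
    hh (C.xg K) α s * hh (C.xg K) α t = hh (C.xg K) α (s * t) := by
  apply Units.ext
  rw [Units.val_mul, hh_xg _ _ _ _ hs, hh_xg _ _ _ _ ht, hh_xg _ _ _ _ (mul_ne_zero hs ht),
    diagonal_mul_diagonal]
  congr 1
  funext a
  rcases a with i | γ
  · simp
  · simp [mul_zpow]

/-- The Steinberg system of the adjoint group. -/
noncomputable def adS (K : Type*) [Field K] : StSys C K (GL C.Idx K) where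
  x := C.xg K
  map_add := C.xg_map_add K
  comm := C.xg_comm K
  comm_add := C.xg_comm_add K
  n_conj := C.n_conj_xg K
  h_mul := C.xg_h_mul K

@[simp] theorem adS_x (K : Type*) [Field K] : (C.adS K).x = C.xg K := rfl

theorem gen_adS (K : Type*) [Field K] : (C.adS K).gen = C.Gad K := by
  unfold StSys.gen Gad
  congr 1
  ext g
  constructor
  · rintro ⟨β, t, rfl⟩
    exact ⟨(β, t), rfl⟩
  · rintro ⟨⟨β, t⟩, rfl⟩
    exact ⟨β, t, rfl⟩

end SLC

end Pool.Agent.H75.UL
end

section
/- module Pool.Agent.H75.UL.G1 -/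
/-!
# Project UL (MP_978914_al), module G1

The universal group `GU C K`: tautological system and universal property.

`GU.sys`: the relations hold by `PresentedGroup` (each relator is `1`; `nn`, `hh` commute with the
quotient map). `GU.lift`: `PresentedGroup.toGroup` for the map `(β, t) ↦ S.x β t`; the five kinds of
relators are sent to `1` by the axioms of `S`. `GU.gen_eq`: the `PresentedGroup.of` generate.
`lift_range`. `GU.map f` for a homomorphism of fields: the lift of the system `f^* sys`: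
`x β t ↦ GU.x β (f t)`.
-/

set_option autoImplicit false
open Matrix
universe u
namespace Pool.Agent.H75.UL

namespace GU
variable {n : ℕ} (C : SLC n) (K : Type u) [Field K]

/-- The quotient map from the free group. -/
private def G1_q : FreeGroup (C.Root × K) →* GU C K := PresentedGroup.mk {r | Rel C K r}

private theorem G1_q_fx (β : C.Root) (t : K) : G1_q C K (fx C K β t) = GU.x C K β t := rfl

private theorem G1_q_nn (α : C.Root) (t : K) :
    G1_q C K (nn (fx C K) α t) = nn (GU.x C K) α t := by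
  unfold nn
  simp only [map_mul, G1_q_fx]

private theorem G1_q_hh (α : C.Root) (t : K) :
    G1_q C K (hh (fx C K) α t) = hh (GU.x C K) α t := by
  unfold hh
  simp only [map_mul, G1_q_nn]

private theorem G1_q_rel {r : FreeGroup (C.Root × K)} (h : Rel C K r) : G1_q C K r = 1 :=
  PresentedGroup.one_of_mem (rels := {r | Rel C K r}) h

/-- The tautological Steinberg system of the universal group. -/
def sys : StSys C K (GU C K) where
  x := GU.x C K
  map_add := by
    intro β s t
    have h := G1_q_rel C K (Rel.map_add β s t)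
    rw [map_mul, map_inv, map_mul, mul_inv_eq_one] at h
    exact h
  comm := by
    intro α β s t h0
    have h := G1_q_rel C K (Rel.comm α β s t h0)
    rw [map_mul, map_inv, map_mul, map_mul, mul_inv_eq_one] at h
    exact h
  comm_add := by
    intro α β γ s t h0
    have h := G1_q_rel C K (Rel.comm_add α β γ s t h0)
    simp only [map_mul, map_inv] at h
    rw [mul_inv_eq_one] at h
    exact h
  n_conj := by
    intro α t u h0
    have h := G1_q_rel C K (Rel.n_conj α t u h0)
    simp only [map_mul, map_inv, G1_q_nn] at h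
    rw [mul_inv_eq_one] at h
    exact h
  h_mul := by
    intro α s t hs ht
    have h := G1_q_rel C K (Rel.h_mul α s t hs ht)
    simp only [map_mul, map_inv, G1_q_hh] at h
    rw [mul_inv_eq_one] at h
    exact h

theorem gen_eq : (sys C K).gen = ⊤ := by
  rw [eq_top_iff]
  intro g _
  refine PresentedGroup.generated_by {r | Rel C K r} (sys C K).gen ?_ g
  rintro ⟨β, t⟩
  exact Subgroup.subset_closure ⟨β, t, rfl⟩

variable {C K}

private theorem G1_lift_nn {H : Type*} [Group H] (f : C.Root × K → H) (α : C.Root) (t : K) :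
    FreeGroup.lift f (nn (fx C K) α t) = nn (fun β t => f (β, t)) α t := by
  unfold nn fx
  simp only [map_mul, FreeGroup.lift_apply_of]

private theorem G1_lift_hh {H : Type*} [Group H] (f : C.Root × K → H) (α : C.Root) (t : K) :
    FreeGroup.lift f (hh (fx C K) α t) = hh (fun β t => f (β, t)) α t := by
  unfold hh
  simp only [map_mul, G1_lift_nn]

omit [Field K] in
private theorem G1_lift_fx {H : Type*} [Group H] (f : C.Root × K → H) (α : C.Root) (t : K) :
    FreeGroup.lift f (fx C K α t) = f (α, t) := FreeGroup.lift_apply_of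

private theorem G1_lift_rel {H : Type*} [Group H] (S : StSys C K H) :
    ∀ r ∈ {r | Rel C K r}, FreeGroup.lift (fun p : C.Root × K => S.x p.1 p.2) r = 1 := by
  intro r hr
  have hr' : Rel C K r := hr
  cases hr' with
  | map_add β s t =>
    simp only [map_mul, map_inv, G1_lift_fx]
    rw [S.map_add, mul_inv_eq_one]
  | comm α β s t h =>
    simp only [map_mul, map_inv, G1_lift_fx]
    rw [S.comm α β s t h, mul_inv_eq_one]
  | comm_add α β γ s t h =>
    simp only [map_mul, map_inv, G1_lift_fx]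
    rw [S.comm_add α β γ s t h, mul_inv_eq_one]
  | n_conj α t u h =>
    simp only [map_mul, map_inv, G1_lift_fx, G1_lift_nn]
    rw [mul_inv_eq_one]
    exact S.n_conj α t u h
  | h_mul α s t hs ht =>
    simp only [map_mul, map_inv, G1_lift_hh]
    rw [mul_inv_eq_one]
    exact S.h_mul α s t hs ht

/-- The homomorphism from the universal group given by a Steinberg system. -/
def lift {H : Type*} [Group H] (S : StSys C K H) : GU C K →* H :=
  PresentedGroup.toGroup (rels := {r | Rel C K r}) (f := fun p => S.x p.1 p.2) (by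
    exact G1_lift_rel S)

theorem lift_x {H : Type*} [Group H] (S : StSys C K H) (β : C.Root) (t : K) :
    lift S (GU.x C K β t) = S.x β t := by
  unfold lift GU.x
  exact PresentedGroup.toGroup.of _

theorem hom_ext {H : Type*} [Group H] (f g : GU C K →* H)
    (h : ∀ β t, f (GU.x C K β t) = g (GU.x C K β t)) : f = g := by
  apply MonoidHom.eq_of_eqOn_top
  rw [← gen_eq C K]
  unfold StSys.gen
  have h1 : Set.EqOn f g (Subgroup.closure {g | ∃ (β : C.Root) (t : K), g = (sys C K).x β t}) := by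
    apply MonoidHom.eqOn_closure
    rintro a ⟨β, t, rfl⟩
    exact h β t
  exact h1

theorem lift_range {H : Type*} [Group H] (S : StSys C K H) : (lift S).range = S.gen := by
  rw [MonoidHom.range_eq_map, ← gen_eq C K]
  unfold StSys.gen
  rw [MonoidHom.map_closure]
  congr 1
  ext a
  constructor
  · rintro ⟨b, ⟨β, t, rfl⟩, rfl⟩
    exact ⟨β, t, lift_x S β t⟩
  · rintro ⟨β, t, rfl⟩
    exact ⟨GU.x C K β t, ⟨β, t, rfl⟩, lift_x S β t⟩

private theorem G1_map_nn {K' : Type u} [Field K'] (f : K →+* K') (α : C.Root) (t : K) :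
    nn (fun (β : C.Root) (t : K) => GU.x C K' β (f t)) α t = nn (GU.x C K') α (f t) := by
  unfold nn
  simp only [map_inv₀]

private theorem G1_map_hh {K' : Type u} [Field K'] (f : K →+* K') (α : C.Root) (t : K) :
    hh (fun (β : C.Root) (t : K) => GU.x C K' β (f t)) α t = hh (GU.x C K') α (f t) := by
  unfold hh
  rw [G1_map_nn, G1_map_nn, map_neg, map_one]

/-- Functoriality in the field. -/
def map {K' : Type u} [Field K'] (f : K →+* K') : GU C K →* GU C K' :=
  lift { x := fun β t => GU.x C K' β (f t)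
         map_add := by
          intro β s t
          rw [_root_.map_add f]
          exact (sys C K').map_add β _ _
         comm := by
          intro α β s t h
          exact (sys C K').comm α β _ _ h
         comm_add := by
          intro α β γ s t h
          rw [_root_.map_mul f, _root_.map_mul f, map_intCast]
          exact (sys C K').comm_add α β γ _ _ h
         n_conj := by
          intro α t u h
          rw [G1_map_nn, _root_.map_mul f, map_pow, map_inv₀]
          exact (sys C K').n_conj α _ _ ((map_ne_zero f).2 h)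
         h_mul := by
          intro α s t hs ht
          rw [G1_map_hh, G1_map_hh, G1_map_hh, _root_.map_mul f]
          exact (sys C K').h_mul α _ _ ((map_ne_zero f).2 hs) ((map_ne_zero f).2 ht) }

theorem map_x {K' : Type u} [Field K'] (f : K →+* K') (β : C.Root) (t : K) :
    map f (GU.x C K β t) = GU.x C K' β (f t) := lift_x _ β t

end GU

end Pool.Agent.H75.UL
end

section
/- module Pool.Agent.H75.UL.S7 -/
/-!
# Project UL (MP_978914_al), module S7

Finite fields give finite groups.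

`U 1` is finite: by `exists_lp` it is the image of the finite set of functions `C.Root → K`. `T` is
finite: it is commutative (`T_comm`), generated by the finite set of the `hh α t`, and each has finite
order (`hh α t ^ k = hh α (t ^ k)` for `k ≥ 1`, and `hh α 1 = 1` since `nn α 1 * nn α (-1) = 1`).
`N` is finite: every `ν ∈ N` is `nword l * τ`; if `wd l = wd l'` then `nword l⁻¹ * nword l' ∈ T`:
`nword l'⁻¹ ∈ nword (reverse l') * T`, `wd (reverse l' ++ l) = 1`, `nword_mem_T`; so `N` is covered by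
the sets `nword (l_w) * T`, one for each `w ∈ C.W` (finite: `Equiv.Perm C.Root` is finite). Then
`bruhat` shows that `gen` is finite.
-/

set_option autoImplicit false
open Matrix
universe u
namespace Pool.Agent.H75.UL

namespace StSys
variable {n : ℕ} {C : SLC n} {K : Type*} [Field K] {H : Type*} [Group H] (S : StSys C K H)

theorem finite_U [Finite K] : Finite (S.U 1) := by
  have h : (S.U 1 : Set H) ⊆ Set.range (fun t : C.Root → K => S.lp C.posList t) := by
    intro u hu
    obtain ⟨t, -, ht⟩ := S.exists_lp 1 le_rfl u hu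
    exact ⟨t, ht.symm⟩
  exact ((Set.finite_range _).subset h).to_subtype

private theorem S7_hh_one (α : C.Root) : hh S.x α 1 = 1 := by
  unfold hh
  rw [← S.nn_inv, mul_inv_cancel]

private theorem S7_hh_pow (α : C.Root) (t : K) (ht : t ≠ 0) (k : ℕ) :
    hh S.x α t ^ k = hh S.x α (t ^ k) := by
  induction k with
  | zero => rw [pow_zero, pow_zero, S.S7_hh_one]
  | succ k ih => rw [pow_succ, pow_succ, ih, S.h_mul α _ _ (pow_ne_zero k ht) ht]

private theorem S7_hh_order [Finite K] (α : C.Root) (t : K) (ht : t ≠ 0) :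
    IsOfFinOrder (hh S.x α t) := by
  obtain ⟨k, hk, hk'⟩ := (isOfFinOrder_iff_pow_eq_one.1 (isOfFinOrder_of_finite (Units.mk0 t ht)))
  refine isOfFinOrder_iff_pow_eq_one.2 ⟨k, hk, ?_⟩
  have h : t ^ k = 1 := by
    have := congrArg Units.val hk'
    simpa using this
  rw [S.S7_hh_pow α t ht, h, S.S7_hh_one]

private theorem S7_T_order [Finite K] (g : H) (hg : g ∈ S.T) : IsOfFinOrder g := by
  unfold T at hg
  induction hg using Subgroup.closure_induction with
  | mem x hx =>
    obtain ⟨α, t, ht, rfl⟩ := hx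
    exact S.S7_hh_order α t ht
  | one => exact IsOfFinOrder.one
  | mul x y hx hy h1 h2 => exact Commute.isOfFinOrder_mul (S.T_comm x y hx hy) h1 h2
  | inv x hx h => exact h.inv

theorem finite_T [Finite K] : Finite S.T := by
  let inst : CommGroup S.T :=
    { (inferInstance : Group S.T) with
      mul_comm := fun a b => Subtype.ext (S.T_comm a.1 b.1 a.2 b.2) }
  have hfg : Group.FG S.T := by
    rw [Group.fg_iff_subgroup_fg, Subgroup.fg_iff]
    refine ⟨_, rfl, ?_⟩
    refine (Set.finite_range (fun p : C.Root × K => hh S.x p.1 p.2)).subset ?_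
    rintro g ⟨α, t, -, rfl⟩
    exact ⟨(α, t), rfl⟩
  have htor : IsMulTorsion S.T := fun g => by
    obtain ⟨k, hk, h⟩ := isOfFinOrder_iff_pow_eq_one.1 (S.S7_T_order g.1 g.2)
    exact isOfFinOrder_iff_pow_eq_one.2 ⟨k, hk, Subtype.ext h⟩
  exact CommGroup.finite_of_fg_isMulTorsion S.T htor

private theorem S7_nword_append (l l' : List (Fin n)) :
    S.nword (l ++ l') = S.nword l * S.nword l' := by
  unfold nword
  rw [List.map_append, List.prod_append]

private theorem S7_nword_inv (l : List (Fin n)) :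
    ∃ τ ∈ S.T, (S.nword l)⁻¹ = S.nword l.reverse * τ := by
  induction l with
  | nil => exact ⟨1, S.T.one_mem, by simp [nword]⟩
  | cons i l ih =>
    obtain ⟨τ, hτ, h⟩ := ih
    set g := nn S.x (C.simple i) 1 with hg
    have hgN : g ∈ S.N := Subgroup.subset_closure ⟨C.simple i, 1, one_ne_zero, rfl⟩
    have h1 : g⁻¹ * g⁻¹ ∈ S.T := by
      have h2 : g⁻¹ * g⁻¹ = hh S.x (C.simple i) (-1) := by
        rw [hg, S.nn_inv]
        rfl
      rw [h2]
      exact Subgroup.subset_closure ⟨C.simple i, -1, by simp, rfl⟩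
    have h3 : g⁻¹ * τ * g ∈ S.T := by
      have := S.N_conj_T g⁻¹ τ (S.N.inv_mem hgN) hτ
      rwa [inv_inv] at this
    refine ⟨(g⁻¹ * τ * g) * (g⁻¹ * g⁻¹), S.T.mul_mem h3 h1, ?_⟩
    have h4 : S.nword (i :: l) = g * S.nword l := by simp [nword, hg]
    have h5 : S.nword (i :: l).reverse = S.nword l.reverse * g := by
      rw [List.reverse_cons, S7_nword_append]
      simp [nword, hg]
    rw [h4, h5, _root_.mul_inv_rev, h]
    group

private theorem S7_wd_reverse (l : List (Fin n)) : C.wd l.reverse = (C.wd l)⁻¹ := by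
  unfold SLC.wd
  rw [List.prod_inv_reverse, List.map_map, List.map_reverse]
  have h : (l.map fun i => C.reflE (C.simple i)) =
      l.map ((fun x => x⁻¹) ∘ fun i => C.reflE (C.simple i)) := by
    apply List.map_congr_left
    intro i _
    exact eq_inv_of_mul_eq_one_left (C.reflE_mul_self (C.simple i))
  rw [h]

private theorem S7_wd_append (l l' : List (Fin n)) : C.wd (l ++ l') = C.wd l * C.wd l' := by
  unfold SLC.wd
  rw [List.map_append, List.prod_append]

private theorem S7_same (l l' : List (Fin n)) (h : C.wd l = C.wd l') :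
    (S.nword l')⁻¹ * S.nword l ∈ S.T := by
  obtain ⟨τ, hτ, h1⟩ := S.S7_nword_inv l'
  have h2 : S.nword (l'.reverse ++ l) ∈ S.T := by
    apply S.nword_mem_T
    rw [S7_wd_append, S7_wd_reverse, h, inv_mul_cancel]
  have h3 : (S.nword l)⁻¹ * τ * S.nword l ∈ S.T := by
    have := S.N_conj_T (S.nword l)⁻¹ τ (S.N.inv_mem (S.nword_mem l)) hτ
    rwa [inv_inv] at this
  have h4 : (S.nword l')⁻¹ * S.nword l =
      S.nword (l'.reverse ++ l) * ((S.nword l)⁻¹ * τ * S.nword l) := by
    rw [S7_nword_append, h1]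
    group
  rw [h4]
  exact S.T.mul_mem h2 h3

theorem finite_N [Finite K] : Finite S.N := by
  classical
  have hT := S.finite_T
  have hT' : (S.T : Set H).Finite := Set.toFinite _
  have hch : ∀ w : Equiv.Perm C.Root, ∃ l : List (Fin n), (∃ l', C.wd l' = w) → C.wd l = w := by
    intro w
    by_cases h : ∃ l', C.wd l' = w
    · obtain ⟨l', hl'⟩ := h
      exact ⟨l', fun _ => hl'⟩
    · exact ⟨[], fun h' => absurd h' h⟩
  choose f hf using hch
  have h : (S.N : Set H) ⊆
      ⋃ w : Equiv.Perm C.Root, (fun τ => S.nword (f w) * τ) '' (S.T : Set H) := by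
    intro ν hν
    obtain ⟨l, τ, hτ, h1⟩ := S.N_word ν hν
    rw [Set.mem_iUnion]
    refine ⟨C.wd l, (S.nword (f (C.wd l)))⁻¹ * S.nword l * τ, ?_, ?_⟩
    · exact S.T.mul_mem (S.S7_same l _ (hf _ ⟨l, rfl⟩).symm) hτ
    · show S.nword (f (C.wd l)) * ((S.nword (f (C.wd l)))⁻¹ * S.nword l * τ) = ν
      rw [h1]
      group
  exact ((Set.finite_iUnion fun w => hT'.image _).subset h).to_subtype

theorem finite_gen [Finite K] : Finite S.gen := by
  have hU := S.finite_U
  have hN := S.finite_N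
  have hU' : (S.U 1 : Set H).Finite := Set.toFinite _
  have hN' : (S.N : Set H).Finite := Set.toFinite _
  have h : (S.gen : Set H) ⊆ (fun p : H × H × H => p.1 * p.2.1 * p.2.2) ''
      ((S.U 1 : Set H) ×ˢ ((S.N : Set H) ×ˢ (S.U 1 : Set H))) := by
    intro g hg
    obtain ⟨u, hu, ν, hν, v, hv, h1⟩ := S.bruhat g hg
    exact ⟨(u, ν, v), ⟨hu, hν, hv⟩, h1.symm⟩
  exact (((hU'.prod (hN'.prod hU')).image _).subset h).to_subtype

end StSys

end Pool.Agent.H75.UL
end

section
/- module Pool.Agent.H75.UL.T2 -/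
/-!
# Project UL (MP_978914_al), module T2

Unitriangular elements of the adjoint group and their leading parts.

`Fil_U`: `X β t - 1 = t E + t² F` satisfies `Fil (ht β)` when `ht β ≥ 1`; closure induction
(`u v - 1 = (u - 1) v + (v - 1)`, `Fil_inv`). `xi_mul`: the entry of `u v` at
`(inl j, inr (-α_j))`, heights `0` and `-1`: only middle indices of height `0` and `-1` contribute
(`Fil 1 (u - 1)`, `Fil 1 (v - 1)`), and at these `u (inl j) (inl j') = δ`,
`v (inr (-α_k)) (inr (-α_j)) = δ`; so it is the sum of the two entries (roots of height `-1` are the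
`-α_k`; no root has height `0`). `xi_xg`: `E β` has the entry `-β_j` at `(inl j, inr (-β))`.
`lead_U`: for generators (`ht β = 1`: `β = α_i` by `eq_simple_of_ht_one`, `ld = t E_i`; `ht β ≥ 2`:
`ld = 0`), and `ld` is additive on products by `xi_mul`; `u v - 1 - ld u - ld v =
(u - 1 - ld u) + (v - 1 - ld v) + (u - 1)(v - 1)`. `xi_eq_zero_of_mem_U_two`: `Fil 2 (u - 1)`.
-/

set_option autoImplicit false
open Matrix
universe u
namespace Pool.Agent.H75.UL

namespace SLC
variable {n : ℕ} (C : SLC n) {K : Type*} [Field K]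

private theorem T2_Fil_xg (m : ℤ) (hm : 1 ≤ m) (β : C.Root) (t : K) (hβ : m ≤ ht β.1) :
    C.Fil m ((C.xg K β t : Matrix C.Idx C.Idx K) - 1) := by
  have h : (C.xg K β t : Matrix C.Idx C.Idx K) - 1 =
      t • (C.E β).map (Int.cast : ℤ → K) + t ^ 2 • (C.F β).map (Int.cast : ℤ → K) := by
    show C.X K β t - 1 = _
    unfold X
    abel
  rw [h]
  exact C.Fil_add (C.Fil_mono hβ (C.Fil_smul t (C.Fil_E K β)))
    (C.Fil_mono (by omega) (C.Fil_smul (t ^ 2) (C.Fil_F K β)))

private theorem T2_mul_sub (A B : Matrix C.Idx C.Idx K) :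
    A * B - 1 = (A - 1) * (B - 1) + (A - 1) + (B - 1) := by
  rw [sub_mul, mul_sub, mul_one, one_mul]
  abel

theorem Fil_U (m : ℤ) (hm : 1 ≤ m) (u : GL C.Idx K) (hu : u ∈ (C.adS K).U m) :
    C.Fil m ((u : Matrix C.Idx C.Idx K) - 1) := by
  unfold StSys.U at hu
  induction hu using Subgroup.closure_induction with
  | mem g hg =>
    obtain ⟨β, t, hβ, rfl⟩ := hg
    exact C.T2_Fil_xg m hm β t hβ
  | one =>
    rw [Units.val_one, sub_self]
    exact C.Fil_zero m
  | mul x y _ _ hx hy =>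
    rw [Units.val_mul, T2_mul_sub]
    exact C.Fil_add (C.Fil_add (C.Fil_mono (by omega) (C.Fil_mul hx hy)) hx) hy
  | inv x _ hx => exact C.Fil_inv x m hm hx

theorem Fil_U_zero (u : GL C.Idx K) (hu : u ∈ (C.adS K).U 1) :
    C.Fil 0 (u : Matrix C.Idx C.Idx K) := by
  have h := C.Fil_U 1 le_rfl u hu
  have h1 : (u : Matrix C.Idx C.Idx K) = ((u : Matrix C.Idx C.Idx K) - 1) + 1 := by abel
  rw [h1]
  exact C.Fil_add (C.Fil_mono (by omega) h) C.Fil_one

private theorem T2_xi_add (j : Fin n) (A B : Matrix C.Idx C.Idx K) :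
    C.xi j (A + B) = C.xi j A + C.xi j B := by
  unfold xi
  rw [Matrix.add_apply, neg_add]

private theorem T2_xi_zero (j : Fin n) (M : Matrix C.Idx C.Idx K) (h : C.Fil 2 M) :
    C.xi j M = 0 := by
  unfold xi
  rw [h (Sum.inl j) (Sum.inr (-(C.simple j))), neg_zero]
  show (0 : ℤ) < ht (-(C.simple j)).1 + 2
  rw [Root.neg_val, ht_neg, C.ht_simple]
  norm_num

theorem xi_one (j : Fin n) : C.xi j (1 : Matrix C.Idx C.Idx K) = 0 := by
  unfold xi
  rw [Matrix.one_apply_ne (by simp), neg_zero]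

private theorem T2_xi_sub_one (j : Fin n) (M : Matrix C.Idx C.Idx K) :
    C.xi j (M - 1) = C.xi j M := by
  have h := C.T2_xi_add j (M - 1) 1
  rw [sub_add_cancel, xi_one, add_zero] at h
  exact h.symm

private theorem T2_xi_mul (j : Fin n) (A B : Matrix C.Idx C.Idx K) (hA : C.Fil 1 (A - 1))
    (hB : C.Fil 1 (B - 1)) : C.xi j (A * B) = C.xi j A + C.xi j B := by
  rw [← C.T2_xi_sub_one j (A * B), T2_mul_sub, T2_xi_add, T2_xi_add, T2_xi_sub_one, T2_xi_sub_one,
    C.T2_xi_zero j _ (C.Fil_mul hA hB), zero_add]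

theorem xi_mul (j : Fin n) (u v : GL C.Idx K) (hu : u ∈ (C.adS K).U 1)
    (hv : v ∈ (C.adS K).U 1) : C.xi j ((u * v : GL C.Idx K) : Matrix C.Idx C.Idx K) =
      C.xi j (u : Matrix C.Idx C.Idx K) + C.xi j (v : Matrix C.Idx C.Idx K) := by
  rw [Units.val_mul]
  exact C.T2_xi_mul j _ _ (C.Fil_U 1 le_rfl u hu) (C.Fil_U 1 le_rfl v hv)

theorem xi_xg (j : Fin n) (β : C.Root) (hβ : C.Pos β) (t : K) :
    C.xi j (C.xg K β t : Matrix C.Idx C.Idx K) = if β = C.simple j then t else 0 := by
  show C.xi j (C.X K β t) = _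
  unfold xi X
  rw [Matrix.add_apply, Matrix.add_apply, Matrix.one_apply_ne (by simp), Matrix.smul_apply,
    Matrix.smul_apply, Matrix.map_apply, Matrix.map_apply]
  have hF : C.F β (Sum.inl j) (Sum.inr (-(C.simple j))) = 0 := rfl
  have hE : C.E β (Sum.inl j) (Sum.inr (-(C.simple j))) =
      if (-(C.simple j)).1 = -β.1 then - β.1 j else 0 := rfl
  rw [hF, hE]
  by_cases h : β = C.simple j
  · subst h
    rw [if_pos rfl, if_pos (Root.neg_val C (C.simple j)), simple_val, Pi.single_eq_same]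
    simp
  · rw [if_neg h, if_neg]
    · simp
    · intro h1
      apply h
      apply Root.ext
      rw [Root.neg_val] at h1
      exact (neg_injective h1).symm

theorem xi_inv (j : Fin n) (u : GL C.Idx K) (hu : u ∈ (C.adS K).U 1) :
    C.xi j ((u⁻¹ : GL C.Idx K) : Matrix C.Idx C.Idx K) =
      - C.xi j (u : Matrix C.Idx C.Idx K) := by
  have h := C.xi_mul j u u⁻¹ hu (inv_mem hu)
  rw [mul_inv_cancel, Units.val_one, xi_one] at h
  exact eq_neg_of_add_eq_zero_right h.symm

theorem xi_eq_zero_of_Fil (j : Fin n) (M : Matrix C.Idx C.Idx K) (h : C.Fil 2 (M - 1)) :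
    C.xi j M = 0 := by
  rw [← T2_xi_sub_one]
  exact C.T2_xi_zero j _ h

theorem Fil_ld (M : Matrix C.Idx C.Idx K) : C.Fil 1 (C.ld M) := by
  unfold ld
  apply C.Fil_sum
  intro i _
  have h := C.Fil_E K (C.simple i)
  rw [C.ht_simple] at h
  exact C.Fil_smul _ h

private theorem T2_ld_xg (β : C.Root) (hβ : C.Pos β) (t : K) :
    C.ld (C.xg K β t : Matrix C.Idx C.Idx K) =
      ∑ j, (if β = C.simple j then t else 0) • (C.E (C.simple j)).map (Int.cast : ℤ → K) := by
  unfold ld
  exact Finset.sum_congr rfl fun j _ => by rw [C.xi_xg j β hβ t]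

private theorem T2_lead_xg (β : C.Root) (hβ : 1 ≤ ht β.1) (t : K) :
    C.Fil 2 ((C.xg K β t : Matrix C.Idx C.Idx K) - 1 -
      C.ld (C.xg K β t : Matrix C.Idx C.Idx K)) := by
  have hpos : C.Pos β := by
    unfold Pos
    omega
  rw [C.T2_ld_xg β hpos t]
  rcases eq_or_lt_of_le hβ with h1 | h1
  · obtain ⟨i, rfl⟩ := C.eq_simple_of_ht_one β h1.symm
    rw [Finset.sum_eq_single i]
    · rw [if_pos rfl]
      have h2 : (C.xg K (C.simple i) t : Matrix C.Idx C.Idx K) - 1 -
          t • (C.E (C.simple i)).map (Int.cast : ℤ → K) =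
          t ^ 2 • (C.F (C.simple i)).map (Int.cast : ℤ → K) := by
        show C.X K (C.simple i) t - 1 - _ = _
        unfold X
        abel
      rw [h2]
      have h3 := C.Fil_F K (C.simple i)
      rw [C.ht_simple] at h3
      exact C.Fil_smul _ (C.Fil_mono (by norm_num) h3)
    · intro j _ hj
      rw [if_neg (fun h => hj (C.simple_injective h).symm), zero_smul]
    · intro h
      exact absurd (Finset.mem_univ i) h
  · rw [Finset.sum_eq_zero, sub_zero]
    · exact C.T2_Fil_xg 2 (by norm_num) β t (by omega)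
    · intro j _
      rw [if_neg, zero_smul]
      rintro rfl
      rw [C.ht_simple] at h1
      omega

private theorem T2_ld_add (A B D : Matrix C.Idx C.Idx K) (h : ∀ j, C.xi j D = C.xi j A + C.xi j B) :
    C.ld D = C.ld A + C.ld B := by
  unfold ld
  rw [← Finset.sum_add_distrib]
  refine Finset.sum_congr rfl fun j _ => ?_
  rw [h, add_smul]

theorem lead_U (u : GL C.Idx K) (hu : u ∈ (C.adS K).U 1) :
    C.Fil 2 ((u : Matrix C.Idx C.Idx K) - 1 - C.ld (u : Matrix C.Idx C.Idx K)) := by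
  have hu' := hu
  unfold StSys.U at hu'
  induction hu' using Subgroup.closure_induction with
  | mem g hg =>
    obtain ⟨β, t, hβ, rfl⟩ := hg
    exact C.T2_lead_xg β hβ t
  | one =>
    have h : C.ld (1 : Matrix C.Idx C.Idx K) = 0 := by
      unfold ld
      refine Finset.sum_eq_zero fun j _ => ?_
      rw [xi_one, zero_smul]
    rw [Units.val_one, sub_self, h, sub_zero]
    exact C.Fil_zero 2
  | mul x y hx hy ihx ihy =>
    have h1 := ihx hx
    have h2 := ihy hy
    have h3 := C.T2_ld_add (x : Matrix C.Idx C.Idx K) (y : Matrix C.Idx C.Idx K)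
      ((x * y : GL C.Idx K) : Matrix C.Idx C.Idx K) (fun j => C.xi_mul j x y hx hy)
    rw [h3, Units.val_mul, T2_mul_sub]
    have h4 : ((x : Matrix C.Idx C.Idx K) - 1) * ((y : Matrix C.Idx C.Idx K) - 1) +
        ((x : Matrix C.Idx C.Idx K) - 1) + ((y : Matrix C.Idx C.Idx K) - 1) -
        (C.ld (x : Matrix C.Idx C.Idx K) + C.ld (y : Matrix C.Idx C.Idx K)) =
        ((x : Matrix C.Idx C.Idx K) - 1) * ((y : Matrix C.Idx C.Idx K) - 1) +
        ((x : Matrix C.Idx C.Idx K) - 1 - C.ld (x : Matrix C.Idx C.Idx K)) +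
        ((y : Matrix C.Idx C.Idx K) - 1 - C.ld (y : Matrix C.Idx C.Idx K)) := by abel
    rw [h4]
    exact C.Fil_add (C.Fil_add (C.Fil_mul (C.Fil_U 1 le_rfl x hx) (C.Fil_U 1 le_rfl y hy)) h1) h2
  | inv x hx ihx =>
    have h1 := ihx hx
    have hxi : x⁻¹ ∈ (C.adS K).U 1 := inv_mem hx
    have h3 := C.T2_ld_add (x : Matrix C.Idx C.Idx K)
      ((x⁻¹ : GL C.Idx K) : Matrix C.Idx C.Idx K) 1 (fun j => by
        rw [C.xi_inv j x hx, xi_one, add_neg_cancel])
    have h5 : C.ld (1 : Matrix C.Idx C.Idx K) = 0 := by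
      unfold ld
      refine Finset.sum_eq_zero fun j _ => ?_
      rw [xi_one, zero_smul]
    rw [h5] at h3
    have h6 : C.ld ((x⁻¹ : GL C.Idx K) : Matrix C.Idx C.Idx K) =
        - C.ld (x : Matrix C.Idx C.Idx K) := eq_neg_of_add_eq_zero_right h3.symm
    have h7 := C.T2_mul_sub (x : Matrix C.Idx C.Idx K) ((x⁻¹ : GL C.Idx K) : Matrix C.Idx C.Idx K)
    rw [← Units.val_mul, mul_inv_cancel, Units.val_one, sub_self] at h7
    have h8 : ((x⁻¹ : GL C.Idx K) : Matrix C.Idx C.Idx K) - 1 =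
        -(((x : Matrix C.Idx C.Idx K) - 1) * (((x⁻¹ : GL C.Idx K) : Matrix C.Idx C.Idx K) - 1)) -
        ((x : Matrix C.Idx C.Idx K) - 1) :=
      (eq_neg_of_add_eq_zero_right h7.symm).trans (by abel)
    have h10 : ((x⁻¹ : GL C.Idx K) : Matrix C.Idx C.Idx K) - 1 -
        C.ld ((x⁻¹ : GL C.Idx K) : Matrix C.Idx C.Idx K) =
        -(((x : Matrix C.Idx C.Idx K) - 1) * (((x⁻¹ : GL C.Idx K) : Matrix C.Idx C.Idx K) - 1)) -
        ((x : Matrix C.Idx C.Idx K) - 1 - C.ld (x : Matrix C.Idx C.Idx K)) := by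
      rw [h6]
      generalize ((x : Matrix C.Idx C.Idx K) - 1) *
        (((x⁻¹ : GL C.Idx K) : Matrix C.Idx C.Idx K) - 1) = P at h8 ⊢
      rw [h8]
      abel
    rw [h10]
    exact C.Fil_sub (C.Fil_neg (C.Fil_mul (C.Fil_U 1 le_rfl x hx) (C.Fil_U 1 le_rfl _ hxi))) h1

end SLC

end Pool.Agent.H75.UL
end

section
/- module Pool.Agent.H75.UL.T3 -/
/-!
# Project UL (MP_978914_al), module T3

Uniqueness of the coordinates in ordered products.

`lp_entry`: all factors `x_γ(t_γ)` with `t_γ ≠ 0` (`γ` positive, so `ht γ ≥ m`) satisfy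
`Fil m (x - 1)`; modulo `Fil (2m) ≤ Fil (m+1)` the map `u ↦ u - 1` is additive on products, and the
entry of `x_γ(t) - 1 = t E_γ + t² F_γ` at `(inl i, inr (-β))` is `-t β_i` if `γ = β` and `0`
otherwise. `lp_unique`: strong induction on the height of `β`: if `t`, `t'` agree on positive roots of
height `< m`, then by `lp_split (m - 1)` and cancellation the products with `t`, `t'` restricted to
heights `≥ m` agree; `lp_entry` gives `t β * β_i = t' β * β_i` for all `i`, and some `β_i ≠ 0` in `K`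
(`exists_coeff_ne_zero`). `coord_of_Fil`: let `m₀ < m` be minimal with some positive `β` of height
`m₀` with `t β ≠ 0` (replace `t` by `0` at non positive roots, `lp_congr`); `lp_entry` at height `m₀`
contradicts `Fil m`.
-/

set_option autoImplicit false
open Matrix
universe u
namespace Pool.Agent.H75.UL

namespace SLC
variable {n : ℕ} (C : SLC n) {K : Type*} [Field K]

private theorem T3_Fil_sum (t : C.Root → K) (m : ℤ) (h0 : ∀ γ : C.Root, ht γ.1 < m → t γ = 0)
    (l : List C.Root) :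
    C.Fil m ((l.map fun γ => t γ • (C.E γ).map (Int.cast : ℤ → K)).sum) := by
  induction l with
  | nil =>
    rw [List.map_nil, List.sum_nil]
    exact C.Fil_zero m
  | cons γ l ih =>
    rw [List.map_cons, List.sum_cons]
    refine C.Fil_add ?_ ih
    by_cases h : ht γ.1 < m
    · rw [h0 γ h, zero_smul]
      exact C.Fil_zero m
    · exact C.Fil_smul _ (C.Fil_mono (not_lt.mp h) (C.Fil_E K γ))

private theorem T3_lp (t : C.Root → K) (m : ℤ) (hm : 1 ≤ m)
    (h0 : ∀ γ : C.Root, ht γ.1 < m → t γ = 0) (l : List C.Root) :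
    C.Fil (m + 1) (((C.adS K).lp l t : Matrix C.Idx C.Idx K) - 1 -
      (l.map fun γ => t γ • (C.E γ).map (Int.cast : ℤ → K)).sum) := by
  induction l with
  | nil =>
    have e : (((C.adS K).lp [] t : GL C.Idx K) : Matrix C.Idx C.Idx K) - 1 -
        (([] : List C.Root).map fun γ => t γ • (C.E γ).map (Int.cast : ℤ → K)).sum = 0 := by
      simp [StSys.lp]
    rw [e]
    exact C.Fil_zero _
  | cons γ l ih =>
    have hM : C.Fil m (((C.adS K).lp l t : Matrix C.Idx C.Idx K) - 1) := by
      have h1 := C.Fil_add (C.Fil_mono (by omega : m ≤ m + 1) ih) (C.T3_Fil_sum t m h0 l)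
      rwa [sub_add_cancel] at h1
    have hA : C.Fil m (t γ • (C.E γ).map (Int.cast : ℤ → K)) := by
      by_cases h : ht γ.1 < m
      · rw [h0 γ h, zero_smul]
        exact C.Fil_zero m
      · exact C.Fil_smul _ (C.Fil_mono (not_lt.mp h) (C.Fil_E K γ))
    have hx : C.Fil (m + 1) ((C.xg K γ (t γ) : Matrix C.Idx C.Idx K) - 1 -
        t γ • (C.E γ).map (Int.cast : ℤ → K)) := by
      have e : (C.xg K γ (t γ) : Matrix C.Idx C.Idx K) - 1 -
          t γ • (C.E γ).map (Int.cast : ℤ → K) = (t γ) ^ 2 • (C.F γ).map (Int.cast : ℤ → K) := by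
        change C.X K γ (t γ) - 1 - _ = _
        unfold X
        abel
      rw [e]
      by_cases h : ht γ.1 < m
      · rw [h0 γ h, zero_pow (by norm_num), zero_smul]
        exact C.Fil_zero _
      · exact C.Fil_smul _ (C.Fil_mono (by omega) (C.Fil_F K γ))
    have hx1 : C.Fil m ((C.xg K γ (t γ) : Matrix C.Idx C.Idx K) - 1) := by
      have h1 := C.Fil_add (C.Fil_mono (by omega : m ≤ m + 1) hx) hA
      rwa [sub_add_cancel] at h1
    have key : (((C.adS K).lp (γ :: l) t : GL C.Idx K) : Matrix C.Idx C.Idx K) - 1 -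
        ((γ :: l).map fun γ => t γ • (C.E γ).map (Int.cast : ℤ → K)).sum =
        ((C.xg K γ (t γ) : Matrix C.Idx C.Idx K) - 1 - t γ • (C.E γ).map (Int.cast : ℤ → K)) +
        (((C.adS K).lp l t : Matrix C.Idx C.Idx K) - 1 -
          (l.map fun γ => t γ • (C.E γ).map (Int.cast : ℤ → K)).sum) +
        ((C.xg K γ (t γ) : Matrix C.Idx C.Idx K) - 1) *
          (((C.adS K).lp l t : Matrix C.Idx C.Idx K) - 1) := by
      have e2 : (C.adS K).lp (γ :: l) t = C.xg K γ (t γ) * (C.adS K).lp l t := by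
        simp [StSys.lp]
      rw [e2, Units.val_mul, List.map_cons, List.sum_cons, sub_mul, mul_sub, mul_one, one_mul]
      abel
    rw [key]
    exact C.Fil_add (C.Fil_add hx ih) (C.Fil_mono (by omega) (C.Fil_mul hx1 hM))

private theorem T3_sum_apply (l : List C.Root) (f : C.Root → Matrix C.Idx C.Idx K)
    (a b : C.Idx) : (l.map f).sum a b = (l.map fun γ => f γ a b).sum := by
  induction l with
  | nil => rfl
  | cons γ l ih => rw [List.map_cons, List.sum_cons, Matrix.add_apply, ih, List.map_cons,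
      List.sum_cons]

theorem lp_entry (t : C.Root → K) (m : ℤ) (hm : 1 ≤ m) (h0 : ∀ γ, ht γ.1 < m → t γ = 0)
    (β : C.Root) (hβ : ht β.1 = m) (i : Fin n) :
    ((C.adS K).lp C.posList t : Matrix C.Idx C.Idx K) (Sum.inl i) (Sum.inr (-β)) =
      - (t β * (β.1 i : K)) := by
  have h1 := C.T3_lp t m hm h0 C.posList (Sum.inl i) (Sum.inr (-β)) (by
    simp only [hti, Sum.elim_inl, Sum.elim_inr, Root.neg_val, ht_neg]
    omega)
  rw [Matrix.sub_apply, Matrix.sub_apply, Matrix.one_apply_ne (by simp), sub_zero, sub_eq_zero,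
    T3_sum_apply] at h1
  rw [h1, ← List.sum_toFinset _ C.posList_nodup, Finset.sum_eq_single β]
  · simp [E]
  · intro γ _ hne
    have h2 : ¬ ((-β).1 = -γ.1) := by
      intro h3
      apply hne
      apply Root.ext
      rw [Root.neg_val] at h3
      exact (neg_injective h3).symm
    simp only [Matrix.smul_apply, Matrix.map_apply, E, if_neg h2, Int.cast_zero, smul_zero]
  · intro h2
    exfalso
    apply h2
    rw [List.mem_toFinset, mem_posList]
    unfold Pos
    omega

theorem lp_unique (t t' : C.Root → K)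
    (h : (C.adS K).lp C.posList t = (C.adS K).lp C.posList t') (β : C.Root) (hβ : C.Pos β) :
    t β = t' β := by
  have main : ∀ k : ℕ, ∀ β : C.Root, C.Pos β → (ht β.1).toNat = k → t β = t' β := by
    intro k
    induction k using Nat.strong_induction_on with
    | _ k ih =>
      intro β hβ hk
      have hp : 0 < ht β.1 := hβ
      have e1 : (C.adS K).lp C.posList (fun γ => if ht γ.1 ≤ ht β.1 - 1 then t γ else 0) =
          (C.adS K).lp C.posList (fun γ => if ht γ.1 ≤ ht β.1 - 1 then t' γ else 0) := by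
        apply StSys.lp_congr
        intro γ hγ
        split_ifs with h2
        · have h3 : C.Pos γ := (C.mem_posList γ).mp hγ
          have h4 : 0 < ht γ.1 := h3
          exact ih (ht γ.1).toNat (by omega) γ h3 rfl
        · rfl
      have h5 := h
      rw [StSys.lp_split _ (ht β.1 - 1) t, StSys.lp_split _ (ht β.1 - 1) t', e1] at h5
      have h6 := mul_left_cancel h5
      obtain ⟨i, hi⟩ := C.exists_coeff_ne_zero β K
      have h7 := C.lp_entry (fun γ => if ht γ.1 ≤ ht β.1 - 1 then 0 else t γ) (ht β.1) (by omega)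
        (fun γ hγ => if_pos (by omega)) β rfl i
      have h8 := C.lp_entry (fun γ => if ht γ.1 ≤ ht β.1 - 1 then 0 else t' γ) (ht β.1) (by omega)
        (fun γ hγ => if_pos (by omega)) β rfl i
      rw [h6] at h7
      have h9 := h7.symm.trans h8
      simp only [if_neg (show ¬ (ht β.1 ≤ ht β.1 - 1) by omega)] at h9
      exact mul_right_cancel₀ hi (neg_injective h9)
  exact main _ β hβ rfl

theorem coord_of_Fil (t : C.Root → K) (m : ℤ)
    (h : C.Fil m (((C.adS K).lp C.posList t : Matrix C.Idx C.Idx K) - 1)) (β : C.Root)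
    (hβ : C.Pos β) (hm : ht β.1 < m) : t β = 0 := by
  have main : ∀ k : ℕ, ∀ β : C.Root, C.Pos β → ht β.1 < m → (ht β.1).toNat = k → t β = 0 := by
    intro k
    induction k using Nat.strong_induction_on with
    | _ k ih =>
      intro β hβ hm hk
      have hp : 0 < ht β.1 := hβ
      have e1 : (C.adS K).lp C.posList t =
          (C.adS K).lp C.posList (fun γ => if ht γ.1 < ht β.1 then 0 else t γ) := by
        apply StSys.lp_congr
        intro γ hγ
        split_ifs with h2
        · have h3 : C.Pos γ := (C.mem_posList γ).mp hγ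
          have h4 : 0 < ht γ.1 := h3
          exact ih (ht γ.1).toNat (by omega) γ h3 (by omega) rfl
        · rfl
      obtain ⟨i, hi⟩ := C.exists_coeff_ne_zero β K
      have h7 := C.lp_entry (fun γ => if ht γ.1 < ht β.1 then 0 else t γ) (ht β.1) (by omega)
        (fun γ hγ => if_pos hγ) β rfl i
      have h8 := h (Sum.inl i) (Sum.inr (-β)) (by
        simp only [hti, Sum.elim_inl, Sum.elim_inr, Root.neg_val, ht_neg]
        omega)
      rw [Matrix.sub_apply, Matrix.one_apply_ne (by simp), sub_zero, e1, h7] at h8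
      simp only [lt_self_iff_false, if_false] at h8
      exact (mul_eq_zero.mp (neg_eq_zero.mp h8)).resolve_right hi
  exact main _ β hβ hm rfl

theorem mem_U_of_Fil (m : ℤ) (hm : 1 ≤ m) (u : GL C.Idx K) (hu : u ∈ (C.adS K).U 1)
    (h : C.Fil m ((u : Matrix C.Idx C.Idx K) - 1)) : u ∈ (C.adS K).U m := by
  have _ := hm
  obtain ⟨t, ht0, rfl⟩ := (C.adS K).exists_lp 1 le_rfl u hu
  apply StSys.lp_mem
  intro β hβ
  by_cases h1 : ht β.1 < 1
  · exact ht0 β h1
  · exact C.coord_of_Fil t m h β (by unfold Pos; omega) hβ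

end SLC

end Pool.Agent.H75.UL
end

section
/- module Pool.Agent.H75.UL.T6 -/
/-!
# Project UL (MP_978914_al), module T6

Diagonal and monomial elements.

`T_diag`: closure induction; `hh_xg`: `h_α(t)` has the entry `t^{(α,γ)} = ∏_j (t^{(α,α_j)})^{γ_j}` at
`γ` (`sum_ip_single`), so `c j = t^{(α,α_j)}` for the generators; products and inverses.
`T_fix`: the converse bookkeeping: `τ * xg β u * τ⁻¹ = xg β (chi τ β * u)` (conjugate the entries:
`E_γβ` entries scale by `χ(γ)/χ(β)` and `χ` is multiplicative; or from `T_acts'`).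
`xg_inj`: the entries of `X β u` at `(inl i, inr (-β))`, `u β_i`, and at `(inr β, inr (-β))`, `u²`,
show that `xg β u = xg β' u'`, `u ≠ 0`, forces `β = β'`, `u = u'` (`u² ≠ 0` at `(inr β, inr -β)`,
which for `X β' u'` is `0` unless `β' = β`; for `β' = -β`.. the entry at `(inr β, inr (-β))` of
`X (-β) u'` is `0`; and then `u β_i = u' β_i`).
`N_mono`: `ν = nword l * τ` (`N_word`), both factors are monomial (`nn_xg`, `T_diag`), with the
permutation `wd l` on the root vectors; `wd l = w` because both describe the conjugation of the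
root elements (`xg_inj`). The last part: the entry at `(w γ, γ)` is nonzero because `ν` is invertible.
-/

set_option autoImplicit false
open Matrix
universe u
namespace Pool.Agent.H75.UL

namespace SLC
variable {n : ℕ} (C : SLC n) {K : Type*} [Field K]

private theorem T6_X_apply (β : C.Root) (u : K) (a b : C.Idx) :
    C.X K β u a b = (1 : Matrix C.Idx C.Idx K) a b + u * ((C.E β a b : ℤ) : K) +
      u ^ 2 * ((C.F β a b : ℤ) : K) := by
  unfold X
  rw [Matrix.add_apply, Matrix.add_apply, Matrix.smul_apply, Matrix.smul_apply, Matrix.map_apply,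
    Matrix.map_apply, smul_eq_mul, smul_eq_mul]

private theorem T6_X_top (β : C.Root) (u : K) : C.X K β u (Sum.inr β) (Sum.inr (-β)) = u ^ 2 := by
  rw [T6_X_apply]
  have hE : C.E β (Sum.inr β) (Sum.inr (-β)) = 0 := by
    simp only [E]
    rw [if_neg]
    intro h3
    rw [Root.neg_val, add_neg_cancel] at h3
    exact C.root_ne_zero β h3
  have hF : C.F β (Sum.inr β) (Sum.inr (-β)) = 1 := by
    simp only [F, Root.neg_val, and_self, if_true]
  have hne' : (Sum.inr β : C.Idx) ≠ Sum.inr (-β) := by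
    intro h3
    have h4 := congrArg Root.val (Sum.inr.inj h3)
    rw [Root.neg_val] at h4
    exact C.neg_ne_self β h4.symm
  rw [hE, hF, Matrix.one_apply_ne hne', Int.cast_zero, mul_zero, Int.cast_one, mul_one, add_zero, zero_add]

theorem xg_inj (β β' : C.Root) (u u' : K) (hu : u ≠ 0) (h : C.xg K β u = C.xg K β' u') :
    β = β' ∧ u = u' := by
  have h1 : C.X K β u = C.X K β' u' := congrArg Units.val h
  have hββ : β = β' := by
    by_contra hne
    have h2 := congrFun (congrFun h1 (Sum.inr β)) (Sum.inr (-β))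
    rw [T6_X_top C β u, T6_X_apply] at h2
    have hE : C.E β' (Sum.inr β) (Sum.inr (-β)) = 0 := by
      simp only [E]
      rw [if_neg]
      intro h3
      refine C.root_add_self β β' ?_
      rw [Root.neg_val] at h3
      have h4 : β'.1 = β.1 + β.1 := by
        funext i
        have h5 := congrFun h3 i
        simp only [Pi.add_apply, Pi.neg_apply] at h5 ⊢
        omega
      exact h4
    have hF : C.F β' (Sum.inr β) (Sum.inr (-β)) = 0 := by
      simp only [F]
      rw [if_neg]
      rintro ⟨h3, _⟩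
      exact hne (Root.ext h3)
    have hne' : (Sum.inr β : C.Idx) ≠ Sum.inr (-β) := by
      intro h3
      have h4 := congrArg Root.val (Sum.inr.inj h3)
      rw [Root.neg_val] at h4
      exact C.neg_ne_self β h4.symm
    rw [hE, hF, Matrix.one_apply_ne hne', Int.cast_zero, mul_zero, mul_zero, add_zero, add_zero] at h2
    exact pow_ne_zero 2 hu h2
  subst hββ
  refine ⟨rfl, ?_⟩
  obtain ⟨i, hi⟩ := C.exists_coeff_ne_zero β K
  have h2 := congrFun (congrFun h1 (Sum.inl i)) (Sum.inr (-β))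
  rw [T6_X_apply, T6_X_apply] at h2
  have hE : C.E β (Sum.inl i) (Sum.inr (-β)) = - β.1 i := by
    simp only [E, Root.neg_val, if_true]
  have hF : C.F β (Sum.inl i) (Sum.inr (-β)) = 0 := rfl
  have hne' : (Sum.inl i : C.Idx) ≠ Sum.inr (-β) := Sum.inl_ne_inr
  rw [hE, hF, Matrix.one_apply_ne hne', Int.cast_zero, mul_zero, mul_zero, add_zero, add_zero, zero_add,
    zero_add, Int.cast_neg] at h2
  exact mul_right_cancel₀ (neg_ne_zero.2 hi) h2


private noncomputable def T6_d (c : Fin n → Kˣ) : C.Idx → K :=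
  Sum.elim (fun _ => 1) (fun γ => ((∏ j, c j ^ γ.1 j : Kˣ) : K))

private theorem T6_zpow_sum (t : Kˣ) (s : Finset (Fin n)) (f : Fin n → ℤ) :
    t ^ (∑ j ∈ s, f j) = ∏ j ∈ s, t ^ f j := by
  induction s using Finset.induction_on with
  | empty => simp
  | insert a s ha ih => rw [Finset.sum_insert ha, Finset.prod_insert ha, _root_.zpow_add, ih]

theorem T_diag (τ : GL C.Idx K) (hτ : τ ∈ (C.adS K).T) : ∃ c : Fin n → Kˣ,
    (τ : Matrix C.Idx C.Idx K) =
      Matrix.diagonal (Sum.elim (fun _ => 1) (fun γ => ((∏ j, c j ^ γ.1 j : Kˣ) : K))) := by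
  refine Subgroup.closure_induction (p := fun (τ : GL C.Idx K) _ => ∃ c : Fin n → Kˣ,
    (τ : Matrix C.Idx C.Idx K) = Matrix.diagonal (T6_d C c)) ?_ ?_ ?_ ?_ hτ
  · rintro τ ⟨α, t, ht, rfl⟩
    refine ⟨fun j => (Units.mk0 t ht) ^ (C.ip (Pi.single j 1) α.1), ?_⟩
    rw [adS_x, hh_xg C K α t ht]
    congr 1
    funext a
    rcases a with i | γ
    · rfl
    · simp only [Sum.elim_inr, T6_d]
      have h1 : ∏ j, ((Units.mk0 t ht) ^ (C.ip (Pi.single j 1) α.1)) ^ γ.1 j =
          (Units.mk0 t ht) ^ (C.ip α.1 γ.1) := by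
        rw [C.ip_comm α.1 γ.1, ← C.sum_ip_single γ.1 α.1, T6_zpow_sum]
        refine Finset.prod_congr rfl fun j _ => ?_
        rw [← _root_.zpow_mul, mul_comm]
      rw [h1, Units.val_zpow_eq_zpow_val, Units.val_mk0]
  · refine ⟨fun _ => 1, ?_⟩
    rw [Units.val_one, ← Matrix.diagonal_one]
    congr 1
    funext a
    rcases a with i | γ
    · rfl
    · simp [T6_d]
  · rintro x y _ _ ⟨c, hc⟩ ⟨c', hc'⟩
    refine ⟨fun j => c j * c' j, ?_⟩
    rw [Units.val_mul, hc, hc', Matrix.diagonal_mul_diagonal]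
    congr 1
    funext a
    rcases a with i | γ
    · simp [T6_d]
    · simp only [T6_d, Sum.elim_inr]
      rw [← Units.val_mul, ← Finset.prod_mul_distrib]
      congr 1
      refine Finset.prod_congr rfl fun j _ => ?_
      rw [mul_zpow]
  · rintro x _ ⟨c, hc⟩
    refine ⟨fun j => (c j)⁻¹, ?_⟩
    have h1 : Matrix.diagonal (T6_d C (fun j => (c j)⁻¹)) * (x : Matrix C.Idx C.Idx K) = 1 := by
      rw [hc, Matrix.diagonal_mul_diagonal, ← Matrix.diagonal_one]
      congr 1
      funext a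
      rcases a with i | γ
      · simp [T6_d]
      · simp only [T6_d, Sum.elim_inr]
        rw [← Units.val_mul, ← Finset.prod_mul_distrib]
        have h2 : ∏ j, ((c j)⁻¹ ^ γ.1 j * c j ^ γ.1 j) = 1 := by
          refine Finset.prod_eq_one fun j _ => ?_
          rw [← mul_zpow, inv_mul_cancel, _root_.one_zpow]
        rw [h2, Units.val_one]
    calc ((x⁻¹ : GL C.Idx K) : Matrix C.Idx C.Idx K)
        = (Matrix.diagonal (T6_d C (fun j => (c j)⁻¹)) * (x : Matrix C.Idx C.Idx K)) *
          ((x⁻¹ : GL C.Idx K) : Matrix C.Idx C.Idx K) := by rw [h1, one_mul]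
      _ = Matrix.diagonal (T6_d C (fun j => (c j)⁻¹)) := by
          rw [mul_assoc, ← Units.val_mul, mul_inv_cancel, Units.val_one, mul_one]


private noncomputable def T6_chi (c : Fin n → Kˣ) (v : Fin n → ℤ) : Kˣ := ∏ j, c j ^ v j

private theorem T6_chi_add (c : Fin n → Kˣ) (v w : Fin n → ℤ) :
    T6_chi c (v + w) = T6_chi c v * T6_chi c w := by
  unfold T6_chi
  rw [← Finset.prod_mul_distrib]
  refine Finset.prod_congr rfl fun j _ => ?_
  rw [Pi.add_apply, _root_.zpow_add]

private theorem T6_chi_zero (c : Fin n → Kˣ) : T6_chi c 0 = 1 := by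
  unfold T6_chi
  simp

theorem T_fix (τ : GL C.Idx K) (hτ : τ ∈ (C.adS K).T) (β : C.Root) (u : K) :
    C.chi (τ : Matrix C.Idx C.Idx K) β ≠ 0 ∧
    τ * C.xg K β u * τ⁻¹ = C.xg K β (C.chi (τ : Matrix C.Idx C.Idx K) β * u) := by
  obtain ⟨c, hc⟩ := C.T_diag τ hτ
  have hchi : C.chi (τ : Matrix C.Idx C.Idx K) β = (T6_chi c β.1 : K) := by
    unfold chi
    rw [hc, Matrix.diagonal_apply_eq]
    rfl
  have hneg : ((T6_chi c β.1 : Kˣ) : K) * ((T6_chi c (-β.1) : Kˣ) : K) = 1 := by
    rw [← Units.val_mul, ← T6_chi_add, add_neg_cancel, T6_chi_zero, Units.val_one]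
  refine ⟨by rw [hchi]; exact Units.ne_zero _, ?_⟩
  rw [mul_inv_eq_iff_eq_mul]
  apply Units.ext
  rw [Units.val_mul, Units.val_mul, hchi]
  show (τ : Matrix C.Idx C.Idx K) * C.X K β u = C.X K β ((T6_chi c β.1 : K) * u) * (τ : Matrix C.Idx C.Idx K)
  rw [hc]
  ext a b
  rw [Matrix.diagonal_mul, Matrix.mul_diagonal, T6_X_apply, T6_X_apply]
  have h1 : (Sum.elim (fun _ => (1 : K)) (fun γ : C.Root => ((∏ j, c j ^ γ.1 j : Kˣ) : K)) a) *
      (1 : Matrix C.Idx C.Idx K) a b = (1 : Matrix C.Idx C.Idx K) a b *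
      (Sum.elim (fun _ => (1 : K)) (fun γ : C.Root => ((∏ j, c j ^ γ.1 j : Kˣ) : K)) b) := by
    by_cases hab : a = b
    · subst hab
      ring
    · rw [Matrix.one_apply_ne hab]
      ring
  have h2 : (Sum.elim (fun _ => (1 : K)) (fun γ : C.Root => ((∏ j, c j ^ γ.1 j : Kˣ) : K)) a) *
      ((C.E β a b : ℤ) : K) = (T6_chi c β.1 : K) * ((C.E β a b : ℤ) : K) *
      (Sum.elim (fun _ => (1 : K)) (fun γ : C.Root => ((∏ j, c j ^ γ.1 j : Kˣ) : K)) b) := by
    rcases a with i | γ <;> rcases b with j | δ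
    · simp [E]
    · simp only [E, Sum.elim_inl, Sum.elim_inr]
      split_ifs with h
      · have h3 : ((∏ j, c j ^ δ.1 j : Kˣ) : K) = ((T6_chi c (-β.1) : Kˣ) : K) := by
          rw [h]
          rfl
        rw [h3, one_mul, mul_right_comm, hneg, one_mul]
      · simp
    · simp only [E, Sum.elim_inl, Sum.elim_inr]
      split_ifs with h
      · have h3 : ((∏ j, c j ^ γ.1 j : Kˣ) : K) = ((T6_chi c β.1 : Kˣ) : K) := by
          rw [h]
          rfl
        rw [h3, mul_one]
      · simp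
    · simp only [E, Sum.elim_inr]
      split_ifs with h
      · have h3 : ((∏ j, c j ^ γ.1 j : Kˣ) : K) = ((T6_chi c β.1 : Kˣ) : K) * ((∏ j, c j ^ δ.1 j : Kˣ) : K) := by
          rw [h, ← Units.val_mul]
          have h4 := T6_chi_add c β.1 δ.1
          unfold T6_chi at h4 ⊢
          rw [h4]
        rw [h3]
        ring
      · simp
  have h3 : (Sum.elim (fun _ => (1 : K)) (fun γ : C.Root => ((∏ j, c j ^ γ.1 j : Kˣ) : K)) a) *
      ((C.F β a b : ℤ) : K) = (T6_chi c β.1 : K) ^ 2 * ((C.F β a b : ℤ) : K) *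
      (Sum.elim (fun _ => (1 : K)) (fun γ : C.Root => ((∏ j, c j ^ γ.1 j : Kˣ) : K)) b) := by
    rcases a with i | γ <;> rcases b with j | δ
    · simp [F]
    · simp [F]
    · simp [F]
    · simp only [F, Sum.elim_inr]
      split_ifs with h
      · have h4 : ((∏ j, c j ^ γ.1 j : Kˣ) : K) = ((T6_chi c β.1 : Kˣ) : K) := by
          rw [h.1]
          rfl
        have h5 : ((∏ j, c j ^ δ.1 j : Kˣ) : K) = ((T6_chi c (-β.1) : Kˣ) : K) := by
          rw [h.2]
          rfl
        rw [h4, h5]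
        linear_combination (-(T6_chi c β.1 : K)) * ((1 : ℤ) : K) * hneg
      · simp
  linear_combination h1 + u * h2 + u ^ 2 * h3


theorem T_ext (τ τ' : GL C.Idx K) (hτ : τ ∈ (C.adS K).T) (hτ' : τ' ∈ (C.adS K).T)
    (h : ∀ j, C.chi (τ : Matrix C.Idx C.Idx K) (C.simple j) =
      C.chi (τ' : Matrix C.Idx C.Idx K) (C.simple j)) : τ = τ' := by
  obtain ⟨c, hc⟩ := C.T_diag τ hτ
  obtain ⟨c', hc'⟩ := C.T_diag τ' hτ'
  have hcc : c = c' := by
    funext j
    have h1 := h j
    unfold chi at h1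
    rw [hc, hc', Matrix.diagonal_apply_eq, Matrix.diagonal_apply_eq] at h1
    simp only [Sum.elim_inr, simple_val] at h1
    have h2 : ∀ e : Fin n → Kˣ, ∏ i, e i ^ (Pi.single j (1 : ℤ) : Fin n → ℤ) i = e j := by
      intro e
      rw [Finset.prod_eq_single j]
      · rw [Pi.single_eq_same, zpow_one]
      · intro i _ hi
        rw [Pi.single_eq_of_ne hi, zpow_zero]
      · intro hj
        exact absurd (Finset.mem_univ j) hj
    rw [h2, h2] at h1
    exact Units.ext h1
  apply Units.ext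
  rw [hc, hc', hcc]


private def T6_Mono (M : Matrix C.Idx C.Idx K) (w : Equiv.Perm C.Root) : Prop :=
  (∀ i γ, M (Sum.inl i) (Sum.inr γ) = 0) ∧ (∀ i γ, M (Sum.inr γ) (Sum.inl i) = 0) ∧
  (∀ γ γ', γ' ≠ w γ → M (Sum.inr γ') (Sum.inr γ) = 0) ∧ (∀ γ, M (Sum.inr (w γ)) (Sum.inr γ) ≠ 0)

private theorem T6_mono_mul {M M' : Matrix C.Idx C.Idx K} {w w' : Equiv.Perm C.Root} (h : T6_Mono C M w)
    (h' : T6_Mono C M' w') : T6_Mono C (M * M') (w * w') := by
  refine ⟨fun i γ => ?_, fun i γ => ?_, fun γ γ' hγ => ?_, fun γ => ?_⟩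
  · rw [Matrix.mul_apply, Fintype.sum_sum_type]
    rw [Finset.sum_eq_zero fun j _ => by rw [h'.1, mul_zero],
      Finset.sum_eq_zero fun δ _ => by rw [h.1, zero_mul], add_zero]
  · rw [Matrix.mul_apply, Fintype.sum_sum_type]
    rw [Finset.sum_eq_zero fun j _ => by rw [h.2.1, zero_mul],
      Finset.sum_eq_zero fun δ _ => by rw [h'.2.1, mul_zero], add_zero]
  · rw [Matrix.mul_apply, Fintype.sum_sum_type]
    rw [Finset.sum_eq_zero fun j _ => by rw [h.2.1, zero_mul], zero_add]
    refine Finset.sum_eq_zero fun δ _ => ?_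
    by_cases hδ : δ = w' γ
    · subst hδ
      rw [h.2.2.1 _ _ hγ, zero_mul]
    · rw [h'.2.2.1 _ _ hδ, mul_zero]
  · rw [Matrix.mul_apply, Fintype.sum_sum_type]
    rw [Finset.sum_eq_zero fun j _ => by rw [h.2.1, zero_mul], zero_add, Finset.sum_eq_single (w' γ)]
    · exact mul_ne_zero (h.2.2.2 _) (h'.2.2.2 _)
    · intro δ _ hδ
      rw [h'.2.2.1 _ _ hδ, mul_zero]
    · intro hn
      exact absurd (Finset.mem_univ _) hn

private theorem T6_mono_T (τ : GL C.Idx K) (hτ : τ ∈ (C.adS K).T) :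
    T6_Mono C (τ : Matrix C.Idx C.Idx K) 1 := by
  obtain ⟨c, hc⟩ := C.T_diag τ hτ
  rw [hc]
  refine ⟨fun i γ => ?_, fun i γ => ?_, fun γ γ' hγ => ?_, fun γ => ?_⟩
  · exact Matrix.diagonal_apply_ne _ Sum.inl_ne_inr
  · exact Matrix.diagonal_apply_ne _ Sum.inr_ne_inl
  · exact Matrix.diagonal_apply_ne _ fun h => hγ (Sum.inr.inj h)
  · rw [Equiv.Perm.one_apply, Matrix.diagonal_apply_eq]
    exact Units.ne_zero _

private theorem T6_mono_nn (α : C.Root) (t : K) (ht : t ≠ 0) :
    T6_Mono C ((nn (C.xg K) α t : GL C.Idx K) : Matrix C.Idx C.Idx K) (C.reflE α) := by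
  rw [C.nn_xg K α t ht]
  refine ⟨fun i γ => rfl, fun i γ => rfl, fun γ γ' hγ => ?_, fun γ => ?_⟩
  · show (if γ' = C.refl α γ then (C.cs α γ : K) * t ^ (- C.ip α.1 γ.1) else 0) = 0
    exact if_neg hγ
  · show (if C.refl α γ = C.refl α γ then (C.cs α γ : K) * t ^ (- C.ip α.1 γ.1) else 0) ≠ 0
    rw [if_pos rfl]
    refine mul_ne_zero ?_ (zpow_ne_zero _ ht)
    have h1 : C.cs α γ = 1 ∨ C.cs α γ = -1 := by
      unfold cs
      split_ifs
      · exact C.eps_eq_one_or _ _
      · exact Or.inl rfl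
    rcases h1 with h1 | h1 <;> rw [h1] <;> simp

private theorem T6_mono_nword (l : List (Fin n)) :
    T6_Mono C (((C.adS K).nword l : GL C.Idx K) : Matrix C.Idx C.Idx K) (C.wd l) := by
  induction l with
  | nil =>
    unfold StSys.nword wd
    rw [List.map_nil, List.map_nil, List.prod_nil, List.prod_nil, Units.val_one]
    refine ⟨fun i γ => ?_, fun i γ => ?_, fun γ γ' hγ => ?_, fun γ => ?_⟩
    · exact Matrix.one_apply_ne Sum.inl_ne_inr
    · exact Matrix.one_apply_ne Sum.inr_ne_inl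
    · exact Matrix.one_apply_ne fun h => hγ (Sum.inr.inj h)
    · rw [Equiv.Perm.one_apply, Matrix.one_apply_eq]
      exact one_ne_zero
  | cons i l ih =>
    have h1 : (C.adS K).nword (i :: l) = nn (C.xg K) (C.simple i) 1 * (C.adS K).nword l := by
      unfold StSys.nword
      rw [List.map_cons, List.prod_cons, adS_x]
    have h2 : C.wd (i :: l) = C.reflE (C.simple i) * C.wd l := by
      unfold wd
      rw [List.map_cons, List.prod_cons]
    rw [h1, h2, Units.val_mul]
    exact T6_mono_mul C (T6_mono_nn C _ 1 one_ne_zero) ih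

private theorem T6_acts_unique (ν : GL C.Idx K) (w w' : Equiv.Perm C.Root) (h : (C.adS K).Acts ν w)
    (h' : (C.adS K).Acts ν w') : w = w' := by
  obtain ⟨c, hc0, hc⟩ := h
  obtain ⟨c', _, hc'⟩ := h'
  ext β : 1
  have h1 := (hc β 1).symm.trans (hc' β 1)
  rw [adS_x, mul_one, mul_one] at h1
  exact (C.xg_inj _ _ _ _ (hc0 β) h1).1

theorem N_mono (ν : GL C.Idx K) (w : Equiv.Perm C.Root) (h : (C.adS K).Acts ν w)
    (hν : ν ∈ (C.adS K).N) : w ∈ C.W ∧
    (∀ i γ, (ν : Matrix C.Idx C.Idx K) (Sum.inl i) (Sum.inr γ) = 0) ∧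
    (∀ i γ, (ν : Matrix C.Idx C.Idx K) (Sum.inr γ) (Sum.inl i) = 0) ∧
    (∀ γ γ', γ' ≠ w γ → (ν : Matrix C.Idx C.Idx K) (Sum.inr γ') (Sum.inr γ) = 0) ∧
    (∀ γ, (ν : Matrix C.Idx C.Idx K) (Sum.inr (w γ)) (Sum.inr γ) ≠ 0) := by
  obtain ⟨l, τ, hτ, rfl⟩ := (C.adS K).N_word ν hν
  have hmono : T6_Mono C (((C.adS K).nword l * τ : GL C.Idx K) : Matrix C.Idx C.Idx K) (C.wd l * 1) := by
    rw [Units.val_mul]
    exact T6_mono_mul C (T6_mono_nword C l) (T6_mono_T C τ hτ)
  have hact : (C.adS K).Acts ((C.adS K).nword l * τ) (C.wd l) := by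
    obtain ⟨c, hc0, hc⟩ := (C.adS K).nword_acts l
    refine ⟨fun β => c β * C.chi (τ : Matrix C.Idx C.Idx K) β,
      fun β => mul_ne_zero (hc0 β) (C.T_fix τ hτ β 0).1, fun β u => ?_⟩
    have h1 := (C.T_fix τ hτ β u).2
    rw [_root_.mul_inv_rev]
    calc (C.adS K).nword l * τ * (C.adS K).x β u * (τ⁻¹ * ((C.adS K).nword l)⁻¹)
        = (C.adS K).nword l * (τ * C.xg K β u * τ⁻¹) * ((C.adS K).nword l)⁻¹ := by
          rw [adS_x]
          group
      _ = (C.adS K).x (C.wd l β) (c β * C.chi (τ : Matrix C.Idx C.Idx K) β * u) := by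
          rw [h1, mul_assoc (c β)]
          exact hc β _
  have hw := T6_acts_unique C _ w (C.wd l) h hact
  rw [mul_one] at hmono
  rw [hw]
  exact ⟨C.wd_mem_W l, hmono.1, hmono.2.1, hmono.2.2.1, hmono.2.2.2⟩


/-- In the adjoint group: if `ν ∈ N` acts by `1` then `ν ∈ T`. -/
theorem N_one (ν : GL C.Idx K) (h : (C.adS K).Acts ν 1) (hν : ν ∈ (C.adS K).N) :
    ν ∈ (C.adS K).T := by
  obtain ⟨w, _, hw, h1⟩ := (C.adS K).N_acts ν hν
  exact h1 (T6_acts_unique C ν w 1 hw h)


end SLC

end Pool.Agent.H75.UL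
end

section
/- module Pool.Agent.H75.UL.T7 -/
/-!
# Project UL (MP_978914_al), module T7

Upper triangular elements of the adjoint group.

`upper`: `g ∈ Gad = gen`; Bruhat: `g = u ν v`; `ν = u⁻¹ g v⁻¹` satisfies `Fil 0` (`Fil_U_zero`).
`N_acts`: `w ∈ W`, `Acts ν w`. If `w ≠ 1`, some `w α_i` is not positive (`eq_one_of_pos`), so the
entry of `ν` at `(inr (w α_i), inr α_i)` must be `0` (`Fil 0`, `ht (w α_i) < 0 < 1`), contradicting
`N_mono`. So `w = 1`, `ν ∈ T` and `g = ν * ((ν⁻¹ u ν) * v)` (`T_conj_U` for `ν⁻¹`).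
`upper_inv`, `upper_mul`: consequences. `chi_mul`: diagonal entries of products of elements with
`Fil 0`, when the blocks of equal height are... : use `upper` and `T_conj_U`: `τ u τ' u' =
(τ τ') (τ'⁻¹ u τ' u')` and `chi (τ u) γ = chi τ γ` (`Fil 1 (u - 1)`). `chi_prod` from `T_diag`.
`xi_eq_zero`: the entry of `u = ν b ν⁻¹`, `b = ν⁻¹ u ν` with `Fil 0 b`, at `(inl j, inr (-α_j))`:
`ν⁻¹` acts by `w⁻¹` and maps `e_{-α_j}` to a multiple of `e_δ`, `δ = -w⁻¹ α_j` of positive height
(`not_pos_iff`, `W_neg`); `b e_δ` has only components of height `≥ ht δ > 0`, so no `inl`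
components and `ν` maps root vectors to root vectors (`N_mono`).
`xi_conj`: `b = τ u₀` (`upper`); conjugation by `u₀ ∈ U 1` does not change `xi j` (`xi_mul`,
`xi_inv`), conjugation by `τ` multiplies it by `chi τ α_j` (diagonal matrix, entry `1` at `inl j`,
`chi τ (-α_j) = (chi τ α_j)⁻¹`).
-/

set_option autoImplicit false
open Matrix
universe u
namespace Pool.Agent.H75.UL

namespace SLC
variable {n : ℕ} (C : SLC n) {K : Type*} [Field K]

private theorem T7_Fil00 {R : Type*} [CommRing R] {M N : Matrix C.Idx C.Idx R}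
    (hM : C.Fil 0 M) (hN : C.Fil 0 N) : C.Fil 0 (M * N) := by
  have h := C.Fil_mul hM hN
  rwa [add_zero] at h

theorem upper (g : GL C.Idx K) (hg : g ∈ C.Gad K) (h : C.Fil 0 (g : Matrix C.Idx C.Idx K)) :
    ∃ τ ∈ (C.adS K).T, ∃ u ∈ (C.adS K).U 1, g = τ * u := by
  rw [← C.gen_adS K] at hg
  obtain ⟨u, hu, ν, hν, v, hv, hguv⟩ := (C.adS K).bruhat g hg
  have hν0 : C.Fil 0 (ν : Matrix C.Idx C.Idx K) := by
    have e1 : ν = u⁻¹ * g * v⁻¹ := by
      rw [hguv]
      group
    rw [e1, Units.val_mul, Units.val_mul]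
    exact C.T7_Fil00 (C.T7_Fil00 (C.Fil_U_zero _ (Subgroup.inv_mem _ hu)) h)
      (C.Fil_U_zero _ (Subgroup.inv_mem _ hv))
  obtain ⟨w, hw, ha, h1⟩ := (C.adS K).N_acts ν hν
  have hw1 : w = 1 := by
    refine C.eq_one_of_pos w hw fun i => ?_
    by_contra hcon
    have h2 := (C.N_mono ν w ha hν).2.2.2.2 (C.simple i)
    refine h2 (hν0 _ _ ?_)
    have h3 : ¬ (0 < ht (w (C.simple i)).1) := hcon
    have h4 := C.ht_simple i
    show ht (w (C.simple i)).1 < ht (C.simple i).1 + 0
    omega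
  have hT := h1 hw1
  refine ⟨ν, hT, ν⁻¹ * u * ν * v, ?_, ?_⟩
  · have h5 := (C.adS K).T_conj_U 1 ν⁻¹ u (Subgroup.inv_mem _ hT) hu
    rw [inv_inv] at h5
    exact Subgroup.mul_mem _ h5 hv
  · rw [hguv]
    group

theorem Fil_T (τ : GL C.Idx K) (hτ : τ ∈ (C.adS K).T) :
    C.Fil 0 (τ : Matrix C.Idx C.Idx K) := by
  obtain ⟨c, hc⟩ := C.T_diag τ hτ
  intro a b hab
  rw [hc]
  refine Matrix.diagonal_apply_ne _ ?_
  rintro rfl
  omega

theorem upper_inv (g : GL C.Idx K) (hg : g ∈ C.Gad K) (h : C.Fil 0 (g : Matrix C.Idx C.Idx K)) :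
    C.Fil 0 ((g⁻¹ : GL C.Idx K) : Matrix C.Idx C.Idx K) := by
  obtain ⟨τ, hτ, u, hu, rfl⟩ := C.upper g hg h
  rw [_root_.mul_inv_rev, Units.val_mul]
  exact C.T7_Fil00 (C.Fil_U_zero _ (Subgroup.inv_mem _ hu)) (C.Fil_T _ (Subgroup.inv_mem _ hτ))

theorem chi_mul_U (τ u : GL C.Idx K) (hτ : τ ∈ (C.adS K).T) (hu : u ∈ (C.adS K).U 1) (γ : C.Root) :
    C.chi ((τ * u : GL C.Idx K) : Matrix C.Idx C.Idx K) γ =
      C.chi (τ : Matrix C.Idx C.Idx K) γ := by
  obtain ⟨c, hc⟩ := C.T_diag τ hτ
  have h1 : (u : Matrix C.Idx C.Idx K) (Sum.inr γ) (Sum.inr γ) = 1 := by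
    have h2 := C.Fil_U 1 le_rfl u hu (Sum.inr γ) (Sum.inr γ) (by omega)
    rw [Matrix.sub_apply, Matrix.one_apply_eq, sub_eq_zero] at h2
    exact h2
  unfold chi
  rw [Units.val_mul, hc, Matrix.diagonal_mul, Matrix.diagonal_apply_eq, h1, mul_one]

private theorem T7_chi_T (τ τ' : GL C.Idx K) (hτ : τ ∈ (C.adS K).T) (γ : C.Root) :
    C.chi ((τ * τ' : GL C.Idx K) : Matrix C.Idx C.Idx K) γ =
      C.chi (τ : Matrix C.Idx C.Idx K) γ * C.chi (τ' : Matrix C.Idx C.Idx K) γ := by
  obtain ⟨c, hc⟩ := C.T_diag τ hτ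
  unfold chi
  rw [Units.val_mul, hc, Matrix.diagonal_mul, Matrix.diagonal_apply_eq]

theorem chi_mul (g h : GL C.Idx K) (hg : g ∈ C.Gad K) (hh : h ∈ C.Gad K)
    (hg0 : C.Fil 0 (g : Matrix C.Idx C.Idx K)) (hh0 : C.Fil 0 (h : Matrix C.Idx C.Idx K))
    (γ : C.Root) : C.chi ((g * h : GL C.Idx K) : Matrix C.Idx C.Idx K) γ =
      C.chi (g : Matrix C.Idx C.Idx K) γ * C.chi (h : Matrix C.Idx C.Idx K) γ := by
  obtain ⟨τ, hτ, u, hu, rfl⟩ := C.upper g hg hg0
  obtain ⟨τ', hτ', u', hu', rfl⟩ := C.upper h hh hh0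
  have e1 : τ * u * (τ' * u') = (τ * τ') * (τ'⁻¹ * u * τ' * u') := by group
  have h1 := (C.adS K).T_conj_U 1 τ'⁻¹ u (Subgroup.inv_mem _ hτ') hu
  rw [inv_inv] at h1
  rw [e1, C.chi_mul_U _ _ (Subgroup.mul_mem _ hτ hτ') (Subgroup.mul_mem _ h1 hu'),
    C.chi_mul_U τ u hτ hu, C.chi_mul_U τ' u' hτ' hu', C.T7_chi_T τ τ' hτ]

theorem chi_ne_zero (g : GL C.Idx K) (hg : g ∈ C.Gad K) (hg0 : C.Fil 0 (g : Matrix C.Idx C.Idx K))
    (γ : C.Root) : C.chi (g : Matrix C.Idx C.Idx K) γ ≠ 0 := by
  obtain ⟨τ, hτ, u, hu, rfl⟩ := C.upper g hg hg0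
  rw [C.chi_mul_U τ u hτ hu]
  exact (C.T_fix τ hτ γ 0).1

private theorem T7_prod_single (c : Fin n → Kˣ) (j : Fin n) :
    ((∏ i, c i ^ (C.simple j).1 i : Kˣ) : K) = c j := by
  rw [Finset.prod_eq_single j]
  · rw [simple_val, Pi.single_eq_same, zpow_one]
  · intro i _ hi
    rw [simple_val, Pi.single_eq_of_ne hi, zpow_zero]
  · intro h
    exact absurd (Finset.mem_univ j) h

theorem chi_prod (g : GL C.Idx K) (hg : g ∈ C.Gad K) (hg0 : C.Fil 0 (g : Matrix C.Idx C.Idx K))
    (γ : C.Root) : C.chi (g : Matrix C.Idx C.Idx K) γ =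
      ∏ j, C.chi (g : Matrix C.Idx C.Idx K) (C.simple j) ^ γ.1 j := by
  obtain ⟨τ, hτ, u, hu, rfl⟩ := C.upper g hg hg0
  obtain ⟨c, hc⟩ := C.T_diag τ hτ
  have h1 : ∀ δ : C.Root, C.chi (τ : Matrix C.Idx C.Idx K) δ = ((∏ j, c j ^ δ.1 j : Kˣ) : K) := by
    intro δ
    unfold chi
    rw [hc, Matrix.diagonal_apply_eq]
    rfl
  rw [C.chi_mul_U τ u hτ hu, h1 γ, Units.coe_prod]
  refine Finset.prod_congr rfl fun j _ => ?_
  rw [C.chi_mul_U τ u hτ hu, h1 (C.simple j), T7_prod_single, Units.val_zpow_eq_zpow_val]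

private theorem T7_pow {A B : Matrix C.Idx C.Idx K} (hA : C.Fil 0 A) (hB : C.Fil 1 B) (k : ℕ) :
    C.Fil 0 ((A + B) ^ k) ∧ C.Fil 1 ((A + B) ^ k - A ^ k) := by
  have hB0 : C.Fil 0 B := C.Fil_mono (by norm_num) hB
  induction k with
  | zero =>
    rw [pow_zero, pow_zero, sub_self]
    exact ⟨C.Fil_one, C.Fil_zero 1⟩
  | succ k ih =>
    have e1 : (A + B) ^ (k + 1) - A ^ (k + 1) = ((A + B) ^ k - A ^ k) * A + (A + B) ^ k * B := by
      rw [pow_succ, pow_succ]
      noncomm_ring
    refine ⟨?_, ?_⟩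
    · rw [pow_succ]
      exact C.T7_Fil00 ih.1 (C.Fil_add hA hB0)
    · rw [e1]
      have h1 := C.Fil_mul ih.2 hA
      have h2 := C.Fil_mul ih.1 hB
      rw [add_zero] at h1
      rw [zero_add] at h2
      exact C.Fil_add h1 h2

/-- A unipotent upper triangular element lies in `U 1`. -/
theorem mem_U_of_unipotent (g : GL C.Idx K) (hg : g ∈ C.Gad K)
    (hg0 : C.Fil 0 (g : Matrix C.Idx C.Idx K))
    (hu : IsNilpotent ((g : Matrix C.Idx C.Idx K) - 1)) : g ∈ (C.adS K).U 1 := by
  obtain ⟨τ, hτ, u, hu1, rfl⟩ := C.upper g hg hg0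
  obtain ⟨k, hk⟩ := hu
  obtain ⟨c, hc⟩ := C.T_diag τ hτ
  have hA : C.Fil 0 ((τ : Matrix C.Idx C.Idx K) - 1) := C.Fil_sub (C.Fil_T τ hτ) C.Fil_one
  have hB : C.Fil 1 ((τ : Matrix C.Idx C.Idx K) * ((u : Matrix C.Idx C.Idx K) - 1)) := by
    have h := C.Fil_mul (C.Fil_T τ hτ) (C.Fil_U 1 le_rfl u hu1)
    rwa [zero_add] at h
  have e1 : ((τ * u : GL C.Idx K) : Matrix C.Idx C.Idx K) - 1 = ((τ : Matrix C.Idx C.Idx K) - 1) +
      (τ : Matrix C.Idx C.Idx K) * ((u : Matrix C.Idx C.Idx K) - 1) := by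
    rw [Units.val_mul]
    noncomm_ring
  have h1 := (C.T7_pow hA hB k).2
  rw [← e1, hk, zero_sub] at h1
  have hchi : ∀ γ, C.chi (τ : Matrix C.Idx C.Idx K) γ = 1 := by
    intro γ
    have h2 := h1 (Sum.inr γ) (Sum.inr γ) (by omega)
    have e2 : (τ : Matrix C.Idx C.Idx K) - 1 = Matrix.diagonal (fun a => (Sum.elim (fun _ => (1 : K))
        (fun γ : C.Root => ((∏ j, c j ^ γ.1 j : Kˣ) : K)) : C.Idx → K) a - 1) := by
      rw [hc]
      ext a b
      by_cases hab : a = b
      · subst hab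
        simp
      · rw [Matrix.sub_apply, Matrix.diagonal_apply_ne _ hab, Matrix.diagonal_apply_ne _ hab,
          Matrix.one_apply_ne hab, sub_zero]
    rw [Matrix.neg_apply, neg_eq_zero, e2, Matrix.diagonal_pow, Matrix.diagonal_apply_eq, Pi.pow_apply] at h2
    have h3 := eq_zero_of_pow_eq_zero h2
    unfold chi
    rw [hc, Matrix.diagonal_apply_eq]
    exact sub_eq_zero.1 h3
  have hτ1 : τ = 1 := by
    refine C.T_ext τ 1 hτ (Subgroup.one_mem _) fun j => ?_
    rw [hchi]
    unfold chi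
    rw [Units.val_one, Matrix.one_apply_eq]
  rw [hτ1, one_mul]
  exact hu1

theorem xi_eq_zero (ν u : GL C.Idx K) (w : Equiv.Perm C.Root)
    (hν : ν ∈ (C.adS K).N) (ha : (C.adS K).Acts ν w) (hu : u ∈ (C.adS K).U 1)
    (h : C.Fil 0 ((ν⁻¹ * u * ν : GL C.Idx K) : Matrix C.Idx C.Idx K)) (j : Fin n)
    (hj : ¬ C.Pos (w⁻¹ (C.simple j))) : C.xi j (u : Matrix C.Idx C.Idx K) = 0 := by
  obtain ⟨hw, m1, m2, m3, m4⟩ := C.N_mono ν w ha hν
  set δ : C.Root := -(w⁻¹ (C.simple j)) with hδ
  have hδpos : C.Pos δ := (C.not_pos_iff _).1 hj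
  have hwδ : w δ = -(C.simple j) := by
    rw [hδ, C.W_neg w hw, ← Equiv.Perm.mul_apply, mul_inv_cancel, Equiv.Perm.one_apply]
  have e1 : u * ν = ν * (ν⁻¹ * u * ν) := by group
  have e2 := congrArg (fun g : GL C.Idx K => (g : Matrix C.Idx C.Idx K) (Sum.inl j) (Sum.inr δ)) e1
  simp only [Units.val_mul] at e2
  rw [← Units.val_mul, ← Units.val_mul (ν⁻¹) u, ← Units.val_mul (ν⁻¹ * u) ν] at e2
  rw [Units.val_mul, Matrix.mul_apply, Matrix.mul_apply] at e2
  have hR : ∑ a, (ν : Matrix C.Idx C.Idx K) (Sum.inl j) a *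
      ((ν⁻¹ * u * ν : GL C.Idx K) : Matrix C.Idx C.Idx K) a (Sum.inr δ) = 0 := by
    refine Finset.sum_eq_zero fun a _ => ?_
    rcases a with i | γ
    · have h3 : ((ν⁻¹ * u * ν : GL C.Idx K) : Matrix C.Idx C.Idx K) (Sum.inl i) (Sum.inr δ) = 0 := by
        refine h _ _ ?_
        show (0 : ℤ) < ht δ.1 + 0
        have : 0 < ht δ.1 := hδpos
        omega
      rw [h3, mul_zero]
    · rw [m1 j γ, zero_mul]
  have hLs : ∑ a, (u : Matrix C.Idx C.Idx K) (Sum.inl j) a * (ν : Matrix C.Idx C.Idx K) a (Sum.inr δ) =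
      (u : Matrix C.Idx C.Idx K) (Sum.inl j) (Sum.inr (-(C.simple j))) *
        (ν : Matrix C.Idx C.Idx K) (Sum.inr (-(C.simple j))) (Sum.inr δ) := by
    refine Finset.sum_eq_single (Sum.inr (-(C.simple j))) ?_ ?_
    · intro a _ hne
      rcases a with i | γ
      · rw [m1 i δ, mul_zero]
      · rw [m3 δ γ, mul_zero]
        rw [hwδ]
        intro h5
        exact hne (congrArg Sum.inr h5)
    · intro h5
      exact absurd (Finset.mem_univ _) h5
  rw [hLs, hR] at e2
  have h6 := m4 δ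
  rw [hwδ] at h6
  have h7 := (mul_eq_zero.1 e2).resolve_right h6
  unfold xi
  rw [h7, neg_zero]

theorem xi_conj (b u : GL C.Idx K) (hb : b ∈ C.Gad K) (hb0 : C.Fil 0 (b : Matrix C.Idx C.Idx K))
    (hu : u ∈ (C.adS K).U 1) (j : Fin n) :
    b * u * b⁻¹ ∈ (C.adS K).U 1 ∧ C.xi j ((b * u * b⁻¹ : GL C.Idx K) : Matrix C.Idx C.Idx K) =
      C.chi (b : Matrix C.Idx C.Idx K) (C.simple j) * C.xi j (u : Matrix C.Idx C.Idx K) := by
  obtain ⟨τ, hτ, u₀, hu₀, rfl⟩ := C.upper b hb hb0
  have e1 : τ * u₀ * u * (τ * u₀)⁻¹ = τ * (u₀ * u * u₀⁻¹) * τ⁻¹ := by group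
  have hv : u₀ * u * u₀⁻¹ ∈ (C.adS K).U 1 :=
    Subgroup.mul_mem _ (Subgroup.mul_mem _ hu₀ hu) (Subgroup.inv_mem _ hu₀)
  have hxi : C.xi j ((u₀ * u * u₀⁻¹ : GL C.Idx K) : Matrix C.Idx C.Idx K) =
      C.xi j (u : Matrix C.Idx C.Idx K) := by
    rw [C.xi_mul j _ _ (Subgroup.mul_mem _ hu₀ hu) (Subgroup.inv_mem _ hu₀), C.xi_mul j _ _ hu₀ hu,
      C.xi_inv j _ hu₀]
    ring
  set v := u₀ * u * u₀⁻¹ with hvdef
  rw [e1]
  refine ⟨(C.adS K).T_conj_U 1 τ v hτ hv, ?_⟩
  rw [C.chi_mul_U τ u₀ hτ hu₀, ← hxi]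
  obtain ⟨c, hc⟩ := C.T_diag τ hτ
  have e2 : τ * v = (τ * v * τ⁻¹) * τ := by group
  have e3 := congrArg (fun g : GL C.Idx K => (g : Matrix C.Idx C.Idx K) (Sum.inl j)
    (Sum.inr (-(C.simple j)))) e2
  have e4 : ((τ * v : GL C.Idx K) : Matrix C.Idx C.Idx K) (Sum.inl j) (Sum.inr (-(C.simple j))) =
      (v : Matrix C.Idx C.Idx K) (Sum.inl j) (Sum.inr (-(C.simple j))) := by
    rw [Units.val_mul, hc, Matrix.diagonal_mul]
    simp
  have e5 : ((τ * v * τ⁻¹ * τ : GL C.Idx K) : Matrix C.Idx C.Idx K) (Sum.inl j)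
      (Sum.inr (-(C.simple j))) = ((τ * v * τ⁻¹ : GL C.Idx K) : Matrix C.Idx C.Idx K) (Sum.inl j)
      (Sum.inr (-(C.simple j))) * ((∏ i, c i ^ (-(C.simple j)).1 i : Kˣ) : K) := by
    rw [Units.val_mul (τ * v * τ⁻¹) τ, hc, Matrix.mul_diagonal]
    rfl
  have e6 : ((∏ i, c i ^ (-(C.simple j)).1 i : Kˣ) : K) * (c j : K) = 1 := by
    have h1 : (∏ i, c i ^ (-(C.simple j)).1 i : Kˣ) = (∏ i, c i ^ (C.simple j).1 i)⁻¹ := by
      rw [← Finset.prod_inv_distrib]
      refine Finset.prod_congr rfl fun i _ => ?_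
      rw [Root.neg_val, Pi.neg_apply, _root_.zpow_neg]
    rw [← T7_prod_single C c j, ← Units.val_mul, h1, inv_mul_cancel, Units.val_one]
  have e7 : C.chi (τ : Matrix C.Idx C.Idx K) (C.simple j) = c j := by
    unfold chi
    rw [hc, Matrix.diagonal_apply_eq]
    exact T7_prod_single C c j
  have e8 : (v : Matrix C.Idx C.Idx K) (Sum.inl j) (Sum.inr (-(C.simple j))) =
      ((τ * v * τ⁻¹ : GL C.Idx K) : Matrix C.Idx C.Idx K) (Sum.inl j)
      (Sum.inr (-(C.simple j))) * ((∏ i, c i ^ (-(C.simple j)).1 i : Kˣ) : K) := by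
    rw [← e4, ← e5]
    exact e3
  unfold xi
  rw [e7, e8, mul_neg, neg_inj]
  calc _ = ((τ * v * τ⁻¹ : GL C.Idx K) : Matrix C.Idx C.Idx K) (Sum.inl j) (Sum.inr (-(C.simple j))) *
        (((∏ i, c i ^ (-(C.simple j)).1 i : Kˣ) : K) * (c j : K)) := by rw [e6, mul_one]
    _ = _ := by ring

end SLC

end Pool.Agent.H75.UL
end

section
/- module Pool.Agent.H86.UM.RD2 -/
/-!
# Project UM, module RD2: derivations of purely inseparable extensions

Let `y : ι → L` be a finite family of elements with `y i ^ (q ^ m) ∈ K` (`q` the exponential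
characteristic), not all in `K`. Then `E = K(y)` has a `K`-derivation `D` with `D (y i) ≠ 0` for some `i`.
Proof: `E` is a finite purely inseparable extension (`isPurelyInseparable_iff_pow_mem`, adjoin of finitely
many algebraic elements). If all `K`-derivations `E → E` vanish then `Ω[E⁄K] = 0` (it is an `E`-vector
space, and linear maps `Ω[E⁄K] → E` are derivations), so `E / K` is formally unramified, so separable
(`Algebra.FormallyUnramified.isSeparable` or similar), hence `algebraMap K E` is surjective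
(`IsPurelyInseparable.surjective_algebraMap_of_isSeparable`), contradiction. A derivation `D ≠ 0` with
`D (y i) = 0` for all `i` would vanish on `E = adjoin` (for algebraic elements the field adjoin is the
algebra adjoin; `Derivation.eqOn_adjoin` or the subfield of constants).
-/

set_option autoImplicit false

namespace Pool.Agent.H86.UM

theorem exists_derivation {K L : Type*} [Field K] [Field L] [Algebra K L] {ι : Type*} [Finite ι]
    (y : ι → L)
    (hy : ∀ i, ∃ m : ℕ, y i ^ ringExpChar K ^ m ∈ Set.range (algebraMap K L))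
    (hne : ∃ i, y i ∉ Set.range (algebraMap K L)) :
    ∃ (E : IntermediateField K L) (hE : ∀ i, y i ∈ E) (D : Derivation K E E),
      ∃ i, D ⟨y i, hE i⟩ ≠ 0 := by
  classical
  have : ExpChar K (ringExpChar K) := ringExpChar.expChar K
  set E : IntermediateField K L := IntermediateField.adjoin K (Set.range y) with hEdef
  have hE : ∀ i, y i ∈ E := fun i =>
    IntermediateField.subset_adjoin K (Set.range y) (Set.mem_range_self i)
  have hpi : IsPurelyInseparable K E := by
    rw [hEdef, IntermediateField.isPurelyInseparable_adjoin_iff_pow_mem K L (ringExpChar K)]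
    rintro x ⟨i, rfl⟩
    obtain ⟨m, hm⟩ := hy i
    exact ⟨m, hm⟩
  have hfin : FiniteDimensional K E := by
    rw [hEdef]
    have : Finite (Set.range y) := Set.finite_range y
    refine IntermediateField.finiteDimensional_adjoin ?_
    rintro x ⟨i, rfl⟩
    obtain ⟨m, a, ha⟩ := hy i
    have hq : 0 < ringExpChar K ^ m := pow_pos (expChar_pos K (ringExpChar K)) m
    refine IsIntegral.of_pow hq ?_
    rw [← ha]
    exact isIntegral_algebraMap
  by_contra hcon
  push Not at hcon
  -- all derivations vanish at the generators, hence everywhere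
  have hD : ∀ D : Derivation K E E, ∀ x : E, D x = 0 := by
    intro D x
    obtain ⟨x, hx⟩ := x
    have hx' : x ∈ IntermediateField.adjoin K (Set.range y) := hx
    refine IntermediateField.adjoin_induction K (s := Set.range y)
      (p := fun z hz => D ⟨z, hz⟩ = 0) ?_ ?_ ?_ ?_ ?_ hx'
    · rintro z ⟨i, rfl⟩
      exact hcon E hE D i
    · intro a
      exact D.map_algebraMap a
    · intro a b ha hb h1 h2
      have h3 : (⟨a + b, add_mem ha hb⟩ : E) = ⟨a, ha⟩ + ⟨b, hb⟩ := rfl
      rw [h3, map_add, h1, h2, add_zero]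
    · intro a ha h1
      have h3 : (⟨a⁻¹, inv_mem ha⟩ : E) = (⟨a, ha⟩ : E)⁻¹ := rfl
      rw [h3, Derivation.leibniz_inv, h1, smul_zero]
    · intro a b ha hb h1 h2
      have h3 : (⟨a * b, mul_mem ha hb⟩ : E) = ⟨a, ha⟩ * ⟨b, hb⟩ := rfl
      rw [h3, Derivation.leibniz, h1, h2, smul_zero, smul_zero, add_zero]
  -- so the module of differentials is trivial
  have hsub : Subsingleton (Ω[E⁄K]) := by
    refine ⟨fun v w => ?_⟩
    have key : ∀ φ : Module.Dual E (Ω[E⁄K]), φ = 0 := by
      intro φ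
      apply Derivation.liftKaehlerDifferential_unique
      ext x
      rw [hD, hD]
    rw [← sub_eq_zero, ← Module.forall_dual_apply_eq_zero_iff E]
    intro φ
    rw [key φ, LinearMap.zero_apply]
  have : Algebra.FormallyUnramified K E := ⟨hsub⟩
  have : Algebra.IsSeparable K E := Algebra.FormallyUnramified.isSeparable K E
  obtain ⟨i, hi⟩ := hne
  obtain ⟨a, ha⟩ := IsPurelyInseparable.surjective_algebraMap_of_isSeparable K E ⟨y i, hE i⟩
  refine hi ⟨a, ?_⟩
  have := congrArg (fun z : E => (z : L)) ha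
  exact this

end Pool.Agent.H86.UM
end

section
/- module Pool.Agent.H86.UM.W3 -/
/-!
# Project UM, module W3: twisted vectors span

`θ` an automorphism of the field `k` of order `m` (`θ^m = 1`, `θ^i ≠ 1` for `0 < i < m`), `ρ` a
permutation of `Fin n` with `ρ^m = 1` such that every orbit has one or `m` elements. Then the vectors `v`
with `v (ρ i) = θ (v i)` which are supported on one orbit of `ρ` span `k^n`.
Proof: by induction it is enough that each `Pi.single j 1` is in the span. If `ρ j = j` it is in `G`.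
Otherwise the elements `v_t`, `v_t (ρ^a j) = θ^a t`, `v_t i = 0` for `i` not in the orbit, are in `G`
(`t ∈ k`); if `Pi.single j 1` is not in the span of the `v_t`, there is a linear functional vanishing on the
`v_t` and not on `Pi.single j 1` (e.g. `Submodule.exists_le_ker_of_notMem` or similar), i.e. `c_a ∈ k`
with `∑_{a < m} c_a θ^a t = 0` for all `t`, `c_0 ≠ 0`. This contradicts the linear independence of the
distinct homomorphisms `θ^a` (`linearIndependent_monoidHom`).
-/

set_option autoImplicit false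

namespace Pool.Agent.H86.UM

private theorem W3_pow_ne {k : Type*} [Field k] (θ : k ≃+* k) (m : ℕ)
    (hθ : ∀ i, 0 < i → i < m → θ ^ i ≠ 1) (a b : ℕ) (hab : a < b) (hb : b < m) :
    θ ^ a ≠ θ ^ b := by
  intro h
  refine hθ (b - a) (by omega) (by omega) ?_
  have h1 : θ ^ b = θ ^ a * θ ^ (b - a) := by
    rw [← pow_add]
    congr 1
    omega
  rw [h1] at h
  exact (left_eq_mul.mp h)

theorem span_twisted {n : ℕ} {k : Type*} [Field k] (θ : k ≃+* k) (ρ : Equiv.Perm (Fin n)) (m : ℕ)
    (hm : 0 < m) (hθ1 : θ ^ m = 1) (hθ : ∀ i, 0 < i → i < m → θ ^ i ≠ 1) (hρ1 : ρ ^ m = 1)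
    (hρ : ∀ j, ρ j ≠ j → ∀ i, 0 < i → i < m → (ρ ^ i) j ≠ j) :
    Submodule.span k {v : Fin n → k | (∃ j, ∀ i, v i ≠ 0 → ∃ a : ℕ, i = (ρ ^ a) j) ∧
      ∀ i, v (ρ i) = θ (v i)} = ⊤ := by
  classical
  set G := Submodule.span k {v : Fin n → k | (∃ j, ∀ i, v i ≠ 0 → ∃ a : ℕ, i = (ρ ^ a) j) ∧
      ∀ i, v (ρ i) = θ (v i)} with hG
  have key : ∀ j : Fin n, Pi.single j (1 : k) ∈ G := by
    intro j
    by_cases hj : ρ j = j
    · refine Submodule.subset_span ⟨⟨j, fun i hi => ⟨0, ?_⟩⟩, fun i => ?_⟩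
      · by_contra h
        exact hi (Pi.single_eq_of_ne h _)
      · by_cases h : i = j
        · subst h
          rw [hj, Pi.single_eq_same, map_one]
        · have h1 : ρ i ≠ j := fun h2 => h (ρ.injective (h2.trans hj.symm))
          rw [Pi.single_eq_of_ne h1, Pi.single_eq_of_ne h, map_zero]
    · by_contra hcon
      obtain ⟨f, hf1, hf2⟩ := Submodule.exists_le_ker_of_notMem hcon
      have hv : ∀ t : k, (∑ a ∈ Finset.range m, Pi.single ((ρ ^ a) j) ((θ ^ a) t) : Fin n → k) ∈ G := by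
        intro t
        refine Submodule.subset_span ⟨⟨j, fun i hi => ?_⟩, fun i => ?_⟩
        · by_contra h
          push Not at h
          apply hi
          rw [Finset.sum_apply]
          exact Finset.sum_eq_zero fun a _ => Pi.single_eq_of_ne (h a) _
        · rw [Finset.sum_apply, Finset.sum_apply, map_sum]
          have e : ∀ a ∈ Finset.range m, θ ((Pi.single ((ρ ^ a) j) ((θ ^ a) t) : Fin n → k) i) =
              (Pi.single ((ρ ^ (a + 1)) j) ((θ ^ (a + 1)) t) : Fin n → k) (ρ i) := by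
            intro a _
            by_cases h : i = (ρ ^ a) j
            · have h1 : ρ i = (ρ ^ (a + 1)) j := by
                rw [h, pow_succ', Equiv.Perm.mul_apply]
              rw [h1, Pi.single_eq_same, h, Pi.single_eq_same, pow_succ']
              rfl
            · have h1 : ρ i ≠ (ρ ^ (a + 1)) j := by
                rw [pow_succ', Equiv.Perm.mul_apply]
                exact fun h2 => h (ρ.injective h2)
              rw [Pi.single_eq_of_ne h1, Pi.single_eq_of_ne h, map_zero]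
          rw [Finset.sum_congr rfl e]
          have h1 := Finset.sum_range_succ
            (fun a => (Pi.single ((ρ ^ a) j) ((θ ^ a) t) : Fin n → k) (ρ i)) m
          have h2 := Finset.sum_range_succ'
            (fun a => (Pi.single ((ρ ^ a) j) ((θ ^ a) t) : Fin n → k) (ρ i)) m
          have h3 : (fun a => (Pi.single ((ρ ^ a) j) ((θ ^ a) t) : Fin n → k) (ρ i)) m =
              (fun a => (Pi.single ((ρ ^ a) j) ((θ ^ a) t) : Fin n → k) (ρ i)) 0 := by
            simp only [hθ1, hρ1, pow_zero]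
          rw [h2] at h1
          simp only at h3
          rw [h3] at h1
          exact (add_right_cancel h1).symm
      have hsum : ∀ t : k, ∑ a : Fin m, f (Pi.single ((ρ ^ (a : ℕ)) j) 1) * (θ ^ (a : ℕ)) t = 0 := by
        intro t
        have h1 := hf2 (hv t)
        rw [LinearMap.mem_ker, map_sum] at h1
        rw [← h1, ← Fin.sum_univ_eq_sum_range
          (fun a => f (Pi.single ((ρ ^ a) j) ((θ ^ a) t) : Fin n → k)) m]
        refine Finset.sum_congr rfl fun a _ => ?_
        have h2 : (Pi.single ((ρ ^ (a : ℕ)) j) ((θ ^ (a : ℕ)) t) : Fin n → k) =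
            (θ ^ (a : ℕ)) t • (Pi.single ((ρ ^ (a : ℕ)) j) 1 : Fin n → k) := by
          rw [← Pi.single_smul]
          simp
        rw [h2, map_smul, smul_eq_mul, mul_comm]
      have hli := linearIndependent_monoidHom k k
      have hinj : Function.Injective (fun a : Fin m => ((θ ^ (a : ℕ) : k ≃+* k) : k →* k)) := by
        intro a b hab
        by_contra hne
        have hEq : θ ^ (a : ℕ) = θ ^ (b : ℕ) := by
          ext t
          exact DFunLike.congr_fun hab t
        rcases lt_trichotomy (a : ℕ) (b : ℕ) with h | h | h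
        · exact W3_pow_ne θ m hθ a b h b.2 hEq
        · exact hne (Fin.ext h)
        · exact W3_pow_ne θ m hθ b a h a.2 hEq.symm
      have hli2 := hli.comp _ hinj
      rw [Fintype.linearIndependent_iff] at hli2
      have h0 := hli2 (fun a => f (Pi.single ((ρ ^ (a : ℕ)) j) 1)) (by
        funext t
        rw [Finset.sum_apply]
        exact hsum t) ⟨0, hm⟩
      exact hf1 (by simpa using h0)
  rw [eq_top_iff]
  intro v _
  have hv : v = ∑ j, v j • (Pi.single j 1 : Fin n → k) := by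
    funext i
    rw [Finset.sum_apply]
    simp [Pi.single_apply]
  rw [hv]
  exact Submodule.sum_mem _ fun j _ => Submodule.smul_mem _ _ (key j)

end Pool.Agent.H86.UM
end

section
/- module Pool.Agent.H75.UE.E8 -/
/-!
# Project UE, module E8: a subsequence with trivial transition elements

Choose `a i` with `P i (i+1) (a i)`; put `c 0 = 1`, `c (i+1) = a i * c i`. For `i < j`
`P i j (c j * (c i)⁻¹)` by induction on `j`. `Π` is finite, so some value `c` is taken infinitely often
(`Finite.exists_infinite_fiber`), on a set `J`; enumerate it increasingly (`Nat.nth` or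
`Nat.exists_strictMono_subsequence`, `Set.Infinite`). Then `P (φ a) (φ b) (c * c⁻¹)`.
-/

set_option autoImplicit false
namespace Pool.Agent.H75.UL

theorem exists_seq {Q : Type*} [Group Q] [Finite Q] (P : ℕ → ℕ → Q → Prop)
    (h1 : ∀ i j, i < j → ∃ a, P i j a)
    (h2 : ∀ i j k a b, i < j → j < k → P i j a → P j k b → P i k (b * a)) :
    ∃ φ : ℕ → ℕ, StrictMono φ ∧ ∀ a b, a < b → P (φ a) (φ b) 1 := by
  classical
  choose a ha using fun i : ℕ => h1 i (i + 1) (Nat.lt_succ_self i)
  let c : ℕ → Q := fun n => Nat.rec 1 (fun i ci => a i * ci) n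
  have hc : ∀ i, c (i + 1) = a i * c i := fun i => rfl
  have key : ∀ i j, i < j → P i j (c j * (c i)⁻¹) := by
    intro i j hij
    induction j with
    | zero => exact absurd hij (Nat.not_lt_zero _)
    | succ j ih =>
      rcases Nat.lt_succ_iff_lt_or_eq.mp hij with h | h
      · have h3 := h2 i j (j + 1) _ _ h (Nat.lt_succ_self j) (ih h) (ha j)
        rw [hc]
        simpa [mul_assoc] using h3
      · subst h
        rw [hc]
        simpa using ha i
  obtain ⟨y, hy⟩ := Finite.exists_infinite_fiber c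
  have hJ : (c ⁻¹' {y}).Infinite := Set.infinite_coe_iff.mp hy
  refine ⟨Nat.nth (fun n => n ∈ c ⁻¹' {y}), Nat.nth_strictMono hJ, ?_⟩
  intro p q hpq
  have hp : c (Nat.nth (fun n => n ∈ c ⁻¹' {y}) p) = y := Nat.nth_mem_of_infinite hJ p
  have hq : c (Nat.nth (fun n => n ∈ c ⁻¹' {y}) q) = y := Nat.nth_mem_of_infinite hJ q
  have h := key _ _ (Nat.nth_strictMono hJ hpq)
  have h1 : c (Nat.nth (fun n => n ∈ c ⁻¹' {y}) q) *
      (c (Nat.nth (fun n => n ∈ c ⁻¹' {y}) p))⁻¹ = 1 := by
    rw [hq, hp, mul_inv_cancel]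
  exact h1 ▸ h

end Pool.Agent.H75.UL
end

section
/- module Pool.Agent.H75.UE.L0 -/
/-!
# Project UE, module L0: limits of fields with automorphisms

`Ring.DirectLimit` as in `C3_dirlim` (H75/UL/C3.lean; copy it). `θ` on the limit: let `p i y ↦ p i (θ i y)`:
well defined since if `p i y = p j y'` then both come from a common stage (`C3_f`, the `p i` are
injective, the transition maps commute with `θ`); or use `Ring.DirectLimit.lift` with the maps
`(p i).comp (θ i)` and the same for the inverse; the two compositions are the identity.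
-/

set_option autoImplicit false
universe u
namespace Pool.Agent.H75.UL

/-- the transition maps -/
private noncomputable def L0_f (K : ℕ → Type u) [∀ i, Field (K i)] (σ : ∀ i, K i →+* K (i + 1))
    (i j : ℕ) (h : i ≤ j) : K i →+* K j :=
  Nat.leRecOn (C := fun k => K i →+* K k) h (fun {k} g => (σ k).comp g) (RingHom.id _)

private theorem L0_f_self (K : ℕ → Type u) [∀ i, Field (K i)] (σ : ∀ i, K i →+* K (i + 1))
    (i : ℕ) (h : i ≤ i) : L0_f K σ i i h = RingHom.id _ := by
  unfold L0_f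
  exact Nat.leRecOn_self _

private theorem L0_f_succ (K : ℕ → Type u) [∀ i, Field (K i)] (σ : ∀ i, K i →+* K (i + 1))
    (i j : ℕ) (h : i ≤ j) (h' : i ≤ j + 1) :
    L0_f K σ i (j + 1) h' = (σ j).comp (L0_f K σ i j h) := by
  unfold L0_f
  exact Nat.leRecOn_succ h _

private theorem L0_f_comp (K : ℕ → Type u) [∀ i, Field (K i)] (σ : ∀ i, K i →+* K (i + 1))
    (i j k : ℕ) (hij : i ≤ j) (hjk : j ≤ k) (hik : i ≤ k) (x : K i) :
    L0_f K σ j k hjk (L0_f K σ i j hij x) = L0_f K σ i k hik x := by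
  induction k, hjk using Nat.le_induction with
  | base => rw [L0_f_self]; rfl
  | succ k hk ih =>
    rw [L0_f_succ K σ j k hk, L0_f_succ K σ i k (hij.trans hk)]
    rw [RingHom.comp_apply, RingHom.comp_apply, ih (hij.trans hk)]

private theorem L0_dirlim (K : ℕ → Type u) [∀ i, Field (K i)] (σ : ∀ i, K i →+* K (i + 1)) :
    ∃ (KK : Type u) (_ : Field KK) (p : ∀ i, K i →+* KK),
      (∀ i, (p (i + 1)).comp (σ i) = p i) ∧ ∀ x, ∃ i y, p i y = x := by
  have hds : DirectedSystem K (fun i j h => L0_f K σ i j h) :=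
    { map_self := fun i x => by rw [L0_f_self]; rfl
      map_map := fun i j k hij hjk x => L0_f_comp K σ _ _ _ hij hjk _ x }
  refine ⟨Ring.DirectLimit K (fun i j h => L0_f K σ i j h),
    Field.DirectLimit.field K (fun i j h => L0_f K σ i j h),
    fun i => Ring.DirectLimit.of K (fun i j h => L0_f K σ i j h) i, ?_, ?_⟩
  · intro i
    ext x
    have h1 := Ring.DirectLimit.of_f (G := K) (f := fun i j h => L0_f K σ i j h)
      (Nat.le_succ i) x
    rw [← h1]
    have h2 : L0_f K σ i (i + 1) (Nat.le_succ i) x = σ i x := by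
      rw [L0_f_succ K σ i i le_rfl, L0_f_self]
      rfl
    change Ring.DirectLimit.of K (fun i j h => L0_f K σ i j h) (i + 1) (σ i x) =
      Ring.DirectLimit.of K (fun i j h => L0_f K σ i j h) (i + 1)
        (L0_f K σ i (i + 1) (Nat.le_succ i) x)
    rw [h2]
  · intro x
    exact Ring.DirectLimit.exists_of x

theorem exists_limit_field (K : ℕ → Type u) [∀ i, Field (K i)] (θ : ∀ i, K i ≃+* K i)
    (φ : ∀ i, K i →+* K (i + 1)) (hφ : ∀ i t, φ i (θ i t) = θ (i + 1) (φ i t)) :
    ∃ (KK : Type u) (_ : Field KK) (p : ∀ i, K i →+* KK) (θθ : KK ≃+* KK),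
      (∀ i t, p (i + 1) (φ i t) = p i t) ∧ (∀ x, ∃ i y, p i y = x) ∧
      ∀ i t, θθ (p i t) = p i (θ i t) := by
  obtain ⟨KK, hKK, p, hp, hps⟩ := L0_dirlim K φ
  have hp' : ∀ i x, p (i + 1) (φ i x) = p i x := fun i x => by
    rw [← hp i]; rfl
  -- transport
  have htr : ∀ i j (_ : i ≤ j) (y : K i), ∃ y' : K j, p j y' = p i y ∧
      p j (θ j y') = p i (θ i y) := by
    intro i j hij y
    induction j, hij using Nat.le_induction with
    | base => exact ⟨y, rfl, rfl⟩
    | succ j _ ih =>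
      obtain ⟨y', h1, h2⟩ := ih
      exact ⟨φ j y', (hp' j y').trans h1, by rw [← hφ, hp', h2]⟩
  have hwd : ∀ i j (y : K i) (y' : K j), p i y = p j y' → p i (θ i y) = p j (θ j y') := by
    intro i j y y' h
    obtain ⟨y1, h1, h2⟩ := htr i (max i j) (le_max_left _ _) y
    obtain ⟨y2, h3, h4⟩ := htr j (max i j) (le_max_right _ _) y'
    have h5 : y1 = y2 := (p (max i j)).injective (by rw [h1, h3, h])
    rw [← h2, ← h4, h5]
  have hcom : ∀ s t : KK, ∃ k, ∃ s' t' : K k, p k s' = s ∧ p k t' = t := by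
    intro s t
    obtain ⟨i, y, rfl⟩ := hps s
    obtain ⟨j, y', rfl⟩ := hps t
    obtain ⟨s', h1, -⟩ := htr i (max i j) (le_max_left _ _) y
    obtain ⟨t', h2, -⟩ := htr j (max i j) (le_max_right _ _) y'
    exact ⟨_, s', t', h1, h2⟩
  obtain ⟨f, hf⟩ : ∃ f : KK → KK, ∀ i y, f (p i y) = p i (θ i y) := by
    choose ii yy hyy using hps
    exact ⟨fun x => p (ii x) (θ (ii x) (yy x)), fun i y => hwd _ _ _ _ (hyy (p i y))⟩
  let F : KK →+* KK :=
    { toFun := f
      map_one' := by
        have h := hf 0 1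
        rw [map_one, map_one, map_one] at h
        exact h
      map_zero' := by
        have h := hf 0 0
        rw [map_zero, map_zero, map_zero] at h
        exact h
      map_mul' := by
        intro s t
        obtain ⟨k, s', t', rfl, rfl⟩ := hcom s t
        rw [← map_mul, hf, hf, hf, map_mul, map_mul]
      map_add' := by
        intro s t
        obtain ⟨k, s', t', rfl, rfl⟩ := hcom s t
        rw [← map_add, hf, hf, hf, map_add, map_add] }
  have hbij : Function.Bijective F := by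
    refine ⟨F.injective, fun x => ?_⟩
    obtain ⟨i, y, rfl⟩ := hps x
    refine ⟨p i ((θ i).symm y), ?_⟩
    change f _ = _
    rw [hf, RingEquiv.apply_symm_apply]
  exact ⟨KK, hKK, p, RingEquiv.ofBijective F hbij, hp', hps, fun i t => hf i t⟩

end Pool.Agent.H75.UL
end
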