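import Mathlib
import Pool.Agent.H86.AL.M02
import Pool.Agent.H86.AL.M03

/-!
# M05: collected modules

Pool.Agent.H62.CA.FixedVec
Pool.Agent.H75.UL.C0
Pool.Agent.H75.UL.S4
Pool.Agent.H86.UL.Null
Pool.Agent.H86.UL.Spread
Pool.Agent.H75.UL.R3
Pool.Agent.H75.UL.S8
Pool.Agent.H75.UL.T5
Pool.Agent.H86.UL.K1
Pool.Agent.H86.UL.K2
Pool.Agent.H86.UM.Poly
Pool.Agent.H86.UM.KA1
Pool.Agent.H75.UK.K7
Pool.Agent.H86.UM.ZA
Pool.Agent.H86.UM.ZB
-/

section
/- module Pool.Agent.H62.CA.FixedVec -/
/-!
# Project CA, module FixedVec: a Kolchin type theorem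

`V` finite dimensional over `L`, `a : ι → V →ₗ V` a family of invertible operators (`b` its inverses)
with `a x - 1` nilpotent, `ht : ι → ℕ` a bounded height, such that `a x` and `a y` commute up to an
operator `a z` of larger height: `a x * a y = a z * (a y * a x)` with `ht x < ht z`, `ht y < ht z`
(or they commute). Then on every nonzero subspace `W` with `a x W ⊆ W` there is a nonzero vector
fixed by all `a x`.

Proof. Downward induction on `h`: `W_h := {w ∈ W | a x w = w for all x with h ≤ ht x}` is nonzero.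
For `h > N` (the bound) `W_h = W`. Each `W_h` is invariant under all `a y`, by downward induction on
`h`: for `x` with `ht x = h`, `w ∈ W_h ⊆ W_{h+1}`: `a y w ∈ W_{h+1}` by induction, so
`a z (a y w) = a y w` (`ht z ≥ h + 1`) and `a x (a y w) = a z (a y (a x w)) = a z (a y w) = a y w`.
For the step: the operators `a x`, `ht x = h`, restricted to `W_{h+1}` commute with each other (`z`
acts trivially on `W_{h+1}`) and are unipotent; so they have a common nonzero fixed vector in
`W_{h+1}` (`exists_common_fixed`: induction on `finrank W`: if some `a x` acts nontrivially on `W`,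
replace `W` by `ker (a x - 1) ⊓ W`, which is nonzero by nilpotency, smaller, and invariant).
-/

set_option autoImplicit false

namespace Pool.Agent.H62.CA

variable {L V ι : Type*} [Field L] [AddCommGroup V] [Module L V] [FiniteDimensional L V]

/-- Commuting family of unipotent operators. -/
theorem exists_common_fixed (a : ι → V →ₗ[L] V) (hu : ∀ x, IsNilpotent (a x - 1))
    (W : Submodule L V) (hW : W ≠ ⊥) (hinv : ∀ x, ∀ w ∈ W, a x w ∈ W)
    (hcomm : ∀ x y, ∀ w ∈ W, a x (a y w) = a y (a x w)) : ∃ w ∈ W, w ≠ 0 ∧ ∀ x, a x w = w := by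
  induction' hd : Module.finrank L W using Nat.strong_induction_on with d ih generalizing W
  by_cases h : ∀ x, ∀ w ∈ W, a x w = w
  · obtain ⟨w, hw, hw0⟩ := W.exists_mem_ne_zero_of_ne_bot hW
    exact ⟨w, hw, hw0, fun x => h x w hw⟩
  push Not at h
  obtain ⟨x₀, w₀, hw₀, hne⟩ := h
  have hmem : ∀ j : ℕ, ((a x₀ - 1 : V →ₗ[L] V) ^ j) w₀ ∈ W := by
    intro j
    induction j with
    | zero => exact hw₀
    | succ j ihj =>
      rw [pow_succ', Module.End.mul_apply, LinearMap.sub_apply, Module.End.one_apply]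
      exact W.sub_mem (hinv x₀ _ ihj) ihj
  obtain ⟨k, hk⟩ := hu x₀
  have hex : ∃ j : ℕ, ((a x₀ - 1 : V →ₗ[L] V) ^ j) w₀ = 0 := ⟨k, by rw [hk]; rfl⟩
  classical
  have hj := Nat.find_spec hex
  set j := Nat.find hex with hjdef
  have hj0 : j ≠ 0 := by
    intro h0
    rw [h0, pow_zero, Module.End.one_apply] at hj
    rw [hj, map_zero] at hne
    exact hne rfl
  obtain ⟨i, hi⟩ := Nat.exists_eq_succ_of_ne_zero hj0
  have hmin : ((a x₀ - 1 : V →ₗ[L] V) ^ i) w₀ ≠ 0 := Nat.find_min hex (by omega)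
  set W' : Submodule L V := W ⊓ LinearMap.ker (a x₀ - 1) with hW'
  have hmem' : ∀ w, w ∈ W' ↔ w ∈ W ∧ a x₀ w = w := by
    intro w
    rw [hW', Submodule.mem_inf, LinearMap.mem_ker, LinearMap.sub_apply, Module.End.one_apply,
      sub_eq_zero]
  have hW'ne : W' ≠ ⊥ := by
    intro hbot
    apply hmin
    rw [← Submodule.mem_bot (R := L), ← hbot, hmem']
    refine ⟨hmem i, ?_⟩
    have h1 : (a x₀ - 1 : V →ₗ[L] V) (((a x₀ - 1 : V →ₗ[L] V) ^ i) w₀) = 0 := by
      rw [← Module.End.mul_apply, ← pow_succ', ← Nat.succ_eq_add_one, ← hi]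
      exact hj
    rwa [LinearMap.sub_apply, Module.End.one_apply, sub_eq_zero] at h1
  have hlt : W' < W := by
    refine lt_of_le_of_ne inf_le_left fun h => hne ?_
    have := (hmem' w₀).mp (h ▸ hw₀)
    exact this.2
  obtain ⟨w, hw, hw0, hfix⟩ := ih (Module.finrank L W')
    (hd ▸ Submodule.finrank_lt_finrank_of_lt hlt) W' hW'ne
    (fun x w hw => by
      rw [hmem'] at hw ⊢
      exact ⟨hinv x w hw.1, by rw [hcomm x₀ x w hw.1, hw.2]⟩)
    (fun x y w hw => hcomm x y w ((hmem' w).mp hw).1) rfl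
  exact ⟨w, ((hmem' w).mp hw).1, hw0, hfix⟩

theorem exists_fixed (a : ι → V →ₗ[L] V) (hu : ∀ x, IsNilpotent (a x - 1)) (ht : ι → ℕ) (N : ℕ)
    (hN : ∀ x, ht x ≤ N)
    (hbr : ∀ x y, a x * a y = a y * a x ∨
      ∃ z, ht x < ht z ∧ ht y < ht z ∧ a x * a y = a z * (a y * a x))
    (W : Submodule L V) (hW : W ≠ ⊥) (hinv : ∀ x, ∀ w ∈ W, a x w ∈ W) :
    ∃ w ∈ W, w ≠ 0 ∧ ∀ x, a x w = w := by
  -- the spaces `W_h`
  let F : ℕ → Submodule L V := fun h =>
    { carrier := {w | w ∈ W ∧ ∀ x, h ≤ ht x → a x w = w}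
      add_mem' := fun {v w} hv hw => ⟨W.add_mem hv.1 hw.1, fun x hx => by
        rw [map_add, hv.2 x hx, hw.2 x hx]⟩
      zero_mem' := ⟨W.zero_mem, fun x _ => map_zero _⟩
      smul_mem' := fun c w hw => ⟨W.smul_mem c hw.1, fun x hx => by rw [map_smul, hw.2 x hx]⟩ }
  have hF : ∀ h w, w ∈ F h ↔ w ∈ W ∧ ∀ x, h ≤ ht x → a x w = w := fun h w => Iff.rfl
  -- the step
  have step : ∀ h, ((∀ y, ∀ w ∈ F (h + 1), a y w ∈ F (h + 1)) ∧ F (h + 1) ≠ ⊥) →
      ((∀ y, ∀ w ∈ F h, a y w ∈ F h) ∧ F h ≠ ⊥) := by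
    rintro h ⟨hi, hn⟩
    have hle : ∀ w, w ∈ F h → w ∈ F (h + 1) := fun w hw => ⟨hw.1, fun x hx => hw.2 x (by omega)⟩
    have hc : ∀ x y, h ≤ ht x → ∀ w ∈ F (h + 1), a x (a y w) = a y (a x w) := by
      intro x y hx w hw
      rcases hbr x y with h1 | ⟨z, hz1, -, h1⟩
      · exact LinearMap.congr_fun h1 w
      · have h2 : a x (a y w) = a z (a y (a x w)) := LinearMap.congr_fun h1 w
        rw [h2]
        exact (hi y _ (hi x _ hw)).2 z (by omega)
    constructor
    · intro y w hw
      refine ⟨(hi y w (hle w hw)).1, fun x hx => ?_⟩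
      rw [hc x y hx w (hle w hw), hw.2 x hx]
    · obtain ⟨w, hw, hw0, hfix⟩ := exists_common_fixed (fun x : {x // ht x = h} => a x.1)
        (fun x => hu x.1) (F (h + 1)) hn (fun x w hw => hi x.1 w hw)
        (fun x y w hw => hc x.1 y.1 x.2.ge w hw)
      refine (Submodule.ne_bot_iff _).mpr ⟨w, ⟨hw.1, fun x hx => ?_⟩, hw0⟩
      rcases hx.eq_or_lt with h1 | h1
      · exact hfix ⟨x, h1.symm⟩
      · exact hw.2 x (by omega)
  have hall : ∀ k, ((∀ y, ∀ w ∈ F (N + 1 - k), a y w ∈ F (N + 1 - k)) ∧ F (N + 1 - k) ≠ ⊥) := by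
    intro k
    induction k with
    | zero =>
      have hFN : ∀ w, w ∈ F (N + 1 - 0) ↔ w ∈ W := by
        intro w
        refine ⟨fun hw => hw.1, fun hw => ⟨hw, fun x hx => ?_⟩⟩
        have := hN x
        omega
      refine ⟨fun y w hw => (hFN _).mpr (hinv y w ((hFN w).mp hw)), fun hbot => hW ?_⟩
      rw [eq_bot_iff]
      intro w hw
      rw [← hbot]
      exact (hFN w).mpr hw
    | succ k ih =>
      by_cases hk : k < N + 1
      · have h1 : N + 1 - k = (N + 1 - (k + 1)) + 1 := by omega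
        rw [h1] at ih
        exact step _ ih
      · have h1 : N + 1 - (k + 1) = N + 1 - k := by omega
        rw [h1]
        exact ih
  obtain ⟨w, hw, hw0⟩ := (F (N + 1 - (N + 1))).exists_mem_ne_zero_of_ne_bot (hall (N + 1)).2
  exact ⟨w, hw.1, hw0, fun x => hw.2 x (by omega)⟩

/-- The dual statement: on every nonzero invariant subspace `W` the vectors `a x w - w`, `w ∈ W`, do
not span `W`. -/
theorem span_sub_ne (a b : ι → V →ₗ[L] V) (hab : ∀ x, a x * b x = 1)
    (hu : ∀ x, IsNilpotent (a x - 1)) (ht : ι → ℕ) (N : ℕ) (hN : ∀ x, ht x ≤ N)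
    (hbr : ∀ x y, a x * a y = a y * a x ∨
      ∃ z, ht x < ht z ∧ ht y < ht z ∧ a x * a y = a z * (a y * a x))
    (W : Submodule L V) (hW : W ≠ ⊥) (hinv : ∀ x, ∀ w ∈ W, a x w ∈ W) :
    Submodule.span L {v : V | ∃ x, ∃ w ∈ W, v = a x w - w} ≠ W := by
  intro hspan
  have hba : ∀ x, b x * a x = 1 := fun x => mul_eq_one_comm.mp (hab x)
  -- `b x` preserves `W`
  have hbinv : ∀ x, ∀ w ∈ W, b x w ∈ W := by
    intro x w hw
    have hinj : Function.Injective ((a x).restrict (hinv x)) := by
      intro v w hvw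
      apply Subtype.ext
      have h1 : a x v.1 = a x w.1 := congrArg Subtype.val hvw
      have h2 := congrArg (b x) h1
      rw [← Module.End.mul_apply, ← Module.End.mul_apply, hba x] at h2
      exact h2
    obtain ⟨v, hv⟩ := (LinearMap.injective_iff_surjective.mp hinj) ⟨w, hw⟩
    have h1 : a x v.1 = w := congrArg Subtype.val hv
    rw [← h1, ← Module.End.mul_apply, hba x]
    exact v.2
  let B : ι → (W →ₗ[L] W) := fun x => (b x).restrict (hbinv x)
  have hB : ∀ x (w : W), ((B x w : W) : V) = b x w := fun x w => rfl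
  let c : ι → (Module.Dual L W →ₗ[L] Module.Dual L W) := fun x => (B x).dualMap
  have hc : ∀ x f w, c x f w = f (B x w) := fun x f w => rfl
  have hcu : ∀ x, IsNilpotent (c x - 1) := by
    intro x
    obtain ⟨k, hk⟩ := hu x
    have hcm : Commute (a x - 1) (b x) := by
      change (a x - 1) * b x = b x * (a x - 1)
      rw [sub_mul, mul_sub, hab, hba, one_mul, mul_one]
    have hb1 : b x - 1 = -((a x - 1) * b x) := by
      rw [sub_mul, hab, one_mul, neg_sub]
    have hbk : (b x - 1) ^ k = 0 := by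
      rw [hb1, neg_pow, hcm.mul_pow, hk, zero_mul, mul_zero]
    refine ⟨k, ?_⟩
    have hpow : ∀ (j : ℕ) (f : Module.Dual L W) (w : W),
        ((c x - 1 : Module.Dual L W →ₗ[L] Module.Dual L W) ^ j) f w
          = f (((B x - 1 : W →ₗ[L] W) ^ j) w) := by
      intro j
      induction j with
      | zero => intro f w; rfl
      | succ j ih =>
        intro f w
        rw [pow_succ, Module.End.mul_apply, ih, pow_succ', Module.End.mul_apply]
        change (c x f - f) (((B x - 1 : W →ₗ[L] W) ^ j) w)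
          = f (B x (((B x - 1 : W →ₗ[L] W) ^ j) w) - ((B x - 1 : W →ₗ[L] W) ^ j) w)
        rw [LinearMap.sub_apply, hc, map_sub]
    have hpow' : ∀ (j : ℕ) (w : W), ((((B x - 1 : W →ₗ[L] W) ^ j) w : W) : V)
        = ((b x - 1 : V →ₗ[L] V) ^ j) w := by
      intro j
      induction j with
      | zero => intro w; rfl
      | succ j ih =>
        intro w
        rw [pow_succ', Module.End.mul_apply, pow_succ', Module.End.mul_apply, ← ih]
        rfl
    ext f w
    rw [hpow]
    have h0 : ((B x - 1 : W →ₗ[L] W) ^ k) w = 0 := by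
      apply Subtype.ext
      rw [hpow', hbk]
      rfl
    rw [h0, map_zero]
    rfl
  have hcbr : ∀ x y, c x * c y = c y * c x ∨
      ∃ z, ht x < ht z ∧ ht y < ht z ∧ c x * c y = c z * (c y * c x) := by
    intro x y
    rcases hbr x y with h1 | ⟨z, hz1, hz2, h1⟩
    · left
      have h2 : b y * b x = b x * b y := by
        calc b y * b x = b y * b x * ((a x * a y) * (b y * b x)) := by
              rw [mul_assoc (a x), ← mul_assoc (a y), hab, one_mul, hab, mul_one]
          _ = b y * b x * ((a y * a x) * (b y * b x)) := by rw [h1]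
          _ = (b y * (b x * a y * a x * b y)) * b x := by simp only [mul_assoc]
          _ = b x * b y := by
              have h3 : b y * b x * (a y * a x) = 1 := by
                rw [← h1, mul_assoc, ← mul_assoc (b x), hba, one_mul, hba]
              have h4 : (b y * (b x * a y * a x * b y)) * b x =
                  (b y * b x * (a y * a x)) * (b y * b x) := by simp only [mul_assoc]
              have h5 : (a y * a x) * (b x * b y) = 1 := by
                rw [mul_assoc, ← mul_assoc (a x), hab, one_mul, hab]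
              have h6 : b y * b x = b x * b y := by
                calc b y * b x = b y * b x * ((a y * a x) * (b x * b y)) := by rw [h5, mul_one]
                  _ = (b y * b x * (a y * a x)) * (b x * b y) := by simp only [mul_assoc]
                  _ = b x * b y := by rw [h3, one_mul]
              rw [h4, h3, one_mul, h6]
      ext f w
      change f (B y (B x w)) = f (B x (B y w))
      congr 1
      apply Subtype.ext
      exact LinearMap.congr_fun h2 w.1
    · right
      refine ⟨z, hz1, hz2, ?_⟩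
      have h2 : b y * b x = b x * b y * b z := by
        have h3 : (b y * b x) * (a x * a y) = 1 := by
          rw [mul_assoc, ← mul_assoc (b x), hba, one_mul, hba]
        have h5 : (a z * (a y * a x)) * (b x * b y * b z) = 1 := by
          have : (a z * (a y * a x)) * (b x * b y * b z) =
              a z * (a y * (a x * b x) * b y) * b z := by simp only [mul_assoc]
          rw [this, hab, mul_one, hab, mul_one, hab]
        calc b y * b x = b y * b x * ((a z * (a y * a x)) * (b x * b y * b z)) := by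
              rw [h5, mul_one]
          _ = (b y * b x) * (a x * a y) * (b x * b y * b z) := by rw [h1]; simp only [mul_assoc]
          _ = b x * b y * b z := by rw [h3, one_mul]
      ext f w
      change f (B y (B x w)) = f (B x (B y (B z w)))
      congr 1
      apply Subtype.ext
      exact LinearMap.congr_fun h2 w.1
  have : Nontrivial W := Submodule.nontrivial_iff_ne_bot.mpr hW
  have : Nontrivial (Module.Dual L W) := inferInstance
  obtain ⟨f, -, hf0, hf⟩ := exists_fixed c hcu ht N hN hcbr ⊤ top_ne_bot (fun _ _ _ => trivial)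
  apply hf0
  have hgen : ∀ v ∈ Submodule.span L {v : V | ∃ x, ∃ w ∈ W, v = a x w - w},
      ∃ hv : v ∈ W, f ⟨v, hv⟩ = 0 := by
    intro v hv
    induction hv using Submodule.span_induction with
    | mem v hv =>
      obtain ⟨x, w, hw, rfl⟩ := hv
      refine ⟨W.sub_mem (hinv x w hw) hw, ?_⟩
      have h1 : (⟨a x w - w, W.sub_mem (hinv x w hw) hw⟩ : W) = ⟨a x w, hinv x w hw⟩ - ⟨w, hw⟩ := rfl
      rw [h1, map_sub, sub_eq_zero]
      have h2 : f ⟨a x w, hinv x w hw⟩ = c x f ⟨a x w, hinv x w hw⟩ := by rw [hf x]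
      rw [h2, hc]
      congr 1
      apply Subtype.ext
      rw [hB]
      change (b x * a x) w = w
      rw [hba]
      rfl
    | zero => exact ⟨W.zero_mem, map_zero f⟩
    | add v w _ _ hv hw =>
      obtain ⟨hv1, hv2⟩ := hv
      obtain ⟨hw1, hw2⟩ := hw
      refine ⟨W.add_mem hv1 hw1, ?_⟩
      have h1 : (⟨v + w, W.add_mem hv1 hw1⟩ : W) = ⟨v, hv1⟩ + ⟨w, hw1⟩ := rfl
      rw [h1, map_add, hv2, hw2, add_zero]
    | smul r v _ hv =>
      obtain ⟨hv1, hv2⟩ := hv
      refine ⟨W.smul_mem r hv1, ?_⟩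
      have h1 : (⟨r • v, W.smul_mem r hv1⟩ : W) = r • ⟨v, hv1⟩ := rfl
      rw [h1, map_smul, hv2, smul_zero]
  ext w
  obtain ⟨hv, h⟩ := hgen w.1 (by rw [hspan]; exact w.2)
  exact h

end Pool.Agent.H62.CA
end

section
/- module Pool.Agent.H75.UL.C0 -/
/-!
# Project UL (MP_978914_al), module C0

Twisting a Steinberg system by a diagram automorphism, a diagonal automorphism and conjugation.

`π` a permutation of the simple roots preserving the Cartan matrix. `lmap π v = v ∘ π⁻¹` (so
`lmap π (single i) = single (π i)`), `ip (lmap v) (lmap w) = ip v w` (reindex the sums).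
`eta`: let `b v w = hf (lmap v) (lmap w) - hf v w`, bilinear, `b v v = 0` (`hf_add_hf` twice, `2 hf v v
= ip v v`), `b v w + b w v = 0`. Put `q v = ∑_{i<j} v_i v_j b(e_i, e_j)`; then
`q (v + w) ≡ q v + q w + b v w (mod 2)` and `eta v = (-1)^(q v)` satisfies
`eta (v + w) * eps v w = eta v * eta w * eps (lmap v) (lmap w)`, `eta (-v) = eta v`,
`eta (single i) = 1`.
`twist`: `y β t = a * x (rmap β) (eta β * c^β * t) * a⁻¹`, `c^β = ∏ c_i ^ β_i`. Relations:
`comm`: `ip` is preserved. `comm_add`: the formula for `eta` (as `eps = ±1`, `eta = ±1`).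
With `d = eta β c^β`, `eta (-β) c^(-β) = d⁻¹` (as `eta = ±1`): `nn y β t = a * nn x (rmap β) (d t) *
a⁻¹`, so `n_conj` follows, and `hh y β t = a * (nn x β' (d t) * nn x β' (-d)) * a⁻¹ =
a * hh x β' (d t) * (hh x β' d)⁻¹ * a⁻¹ = a * hh x β' t * a⁻¹` (`nn_inv`, `h_mul`).
-/

set_option autoImplicit false
open Matrix
universe u
namespace Pool.Agent.H75.UL

namespace SLC
variable {n : ℕ} (C : SLC n)

/-- The lattice automorphism given by a permutation of the simple roots. -/
def lmap (π : Equiv.Perm (Fin n)) (v : Fin n → ℤ) : Fin n → ℤ := fun i => v (π.symm i)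

theorem lmap_single (π : Equiv.Perm (Fin n)) (i : Fin n) :
    lmap π (Pi.single i 1) = Pi.single (π i) 1 := by
  funext k
  unfold lmap
  by_cases h : k = π i
  · subst h
    simp
  · have h1 : π.symm k ≠ i := fun h2 => h (by rw [← h2, Equiv.apply_symm_apply])
    rw [Pi.single_eq_of_ne h1, Pi.single_eq_of_ne h]

theorem lmap_add (π : Equiv.Perm (Fin n)) (v w : Fin n → ℤ) :
    lmap π (v + w) = lmap π v + lmap π w := rfl

theorem lmap_neg (π : Equiv.Perm (Fin n)) (v : Fin n → ℤ) : lmap π (-v) = - lmap π v := rfl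

theorem ip_lmap (π : Equiv.Perm (Fin n)) (hπ : ∀ i j, C.A (π i) (π j) = C.A i j)
    (v w : Fin n → ℤ) : C.ip (lmap π v) (lmap π w) = C.ip v w := by
  unfold ip lmap
  simp only [dotProduct, mulVec]
  rw [← Equiv.sum_comp π]
  refine Finset.sum_congr rfl fun i _ => ?_
  rw [← Equiv.sum_comp π]
  simp only [Equiv.symm_apply_apply, hπ]

/-- The action of a diagram automorphism on the roots. -/
def rmap (π : Equiv.Perm (Fin n)) (hπ : ∀ i j, C.A (π i) (π j) = C.A i j) (β : C.Root) : C.Root :=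
  ⟨lmap π β.1, by rw [ip_lmap C π hπ, β.2]⟩

/-- The exponent of the sign `eta`. -/
def qq (π : Equiv.Perm (Fin n)) (v : Fin n → ℤ) : ℤ :=
  ∑ i, ∑ j, if i < j then v i * v j * (C.hm (π i) (π j) - C.hm i j) else 0

/-- The sign of a diagram automorphism on root vectors. -/
def eta (π : Equiv.Perm (Fin n)) (v : Fin n → ℤ) : ℤ := ((C.qq π v).negOnePow : ℤˣ)

private theorem C0_split (f : Fin n → Fin n → ℤ) :
    ∑ i, ∑ j, f i j = (∑ i, ∑ j, if i < j then f i j + f j i else 0) + ∑ i, f i i := by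
  have h1 : ∀ i j, f i j = (if i < j then f i j else 0) + (if j < i then f i j else 0) +
      (if i = j then f i j else 0) := by
    intro i j
    rcases lt_trichotomy i j with h | h | h
    · simp [h, h.not_gt, h.ne]
    · subst h
      simp
    · simp [h, h.not_gt, h.ne']
  have h2 : ∀ i j, (if i < j then f i j + f j i else 0) =
      (if i < j then f i j else 0) + (if i < j then f j i else 0) := by
    intro i j
    split_ifs <;> simp
  have h3 : ∑ i, ∑ j, (if j < i then f i j else 0) = ∑ i, ∑ j, (if i < j then f j i else 0) :=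
    Finset.sum_comm
  calc ∑ i, ∑ j, f i j = ∑ i, ∑ j, ((if i < j then f i j else 0) + (if j < i then f i j else 0) +
      (if i = j then f i j else 0)) :=
        Finset.sum_congr rfl fun i _ => Finset.sum_congr rfl fun j _ => h1 i j
    _ = _ := by
      simp only [Finset.sum_add_distrib, h2]
      rw [h3]
      simp

private theorem C0_hm (i j : Fin n) : C.hm i j + C.hm j i = C.A i j := by
  have h := congrFun (congrFun C.hm_add_transpose i) j
  simpa using h

private theorem C0_hf (π : Equiv.Perm (Fin n)) (v w : Fin n → ℤ) :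
    C.hf (lmap π v) (lmap π w) = ∑ i, ∑ j, v i * w j * C.hm (π i) (π j) := by
  unfold hf lmap
  simp only [dotProduct, mulVec]
  rw [← Equiv.sum_comp π]
  refine Finset.sum_congr rfl fun i _ => ?_
  rw [← Equiv.sum_comp π, Finset.mul_sum]
  refine Finset.sum_congr rfl fun j _ => ?_
  simp only [Equiv.symm_apply_apply]
  ring

private theorem C0_hf' (v w : Fin n → ℤ) :
    C.hf v w = ∑ i, ∑ j, v i * w j * C.hm i j := by
  unfold hf
  simp only [dotProduct, mulVec]
  refine Finset.sum_congr rfl fun i _ => ?_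
  rw [Finset.mul_sum]
  refine Finset.sum_congr rfl fun j _ => ?_
  ring

private theorem C0_key (π : Equiv.Perm (Fin n)) (hπ : ∀ i j, C.A (π i) (π j) = C.A i j)
    (v w : Fin n → ℤ) : C.qq π (v + w) + C.hf v w =
      C.qq π v + C.qq π w + C.hf (lmap π v) (lmap π w) + 2 * ∑ i, ∑ j,
        if i < j then w i * v j * (C.hm (π i) (π j) - C.hm i j) else 0 := by
  have hb : C.hf (lmap π v) (lmap π w) - C.hf v w =
      ∑ i, ∑ j, v i * w j * (C.hm (π i) (π j) - C.hm i j) := by
    rw [C0_hf, C0_hf', ← Finset.sum_sub_distrib]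
    refine Finset.sum_congr rfl fun i _ => ?_
    rw [← Finset.sum_sub_distrib]
    exact Finset.sum_congr rfl fun j _ => by ring
  rw [C0_split] at hb
  have hD : ∀ i, C.hm (π i) (π i) - C.hm i i = 0 := by
    intro i
    have h1 := C.C0_hm (π i) (π i)
    have h2 := C.C0_hm i i
    have h3 := hπ i i
    omega
  have hz : ∑ i, v i * w i * (C.hm (π i) (π i) - C.hm i i) = 0 :=
    Finset.sum_eq_zero fun i _ => by rw [hD, mul_zero]
  rw [hz, add_zero] at hb
  have hq : C.qq π (v + w) = C.qq π v + C.qq π w +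
      (∑ i, ∑ j, if i < j then v i * w j * (C.hm (π i) (π j) - C.hm i j) +
        v j * w i * (C.hm (π j) (π i) - C.hm j i) else 0) + 2 * ∑ i, ∑ j,
        if i < j then w i * v j * (C.hm (π i) (π j) - C.hm i j) else 0 := by
    unfold qq
    rw [Finset.mul_sum, ← Finset.sum_add_distrib, ← Finset.sum_add_distrib,
      ← Finset.sum_add_distrib]
    refine Finset.sum_congr rfl fun i _ => ?_
    rw [Finset.mul_sum, ← Finset.sum_add_distrib, ← Finset.sum_add_distrib,
      ← Finset.sum_add_distrib]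
    refine Finset.sum_congr rfl fun j _ => ?_
    have h1 := C.C0_hm (π i) (π j)
    have h2 := C.C0_hm i j
    have h3 := hπ i j
    have h4 : C.hm (π j) (π i) - C.hm j i = -(C.hm (π i) (π j) - C.hm i j) := by omega
    rw [h4]
    split_ifs
    · simp only [Pi.add_apply]
      ring
    · ring
  rw [hq, ← hb]
  ring

theorem eta_add (π : Equiv.Perm (Fin n)) (hπ : ∀ i j, C.A (π i) (π j) = C.A i j)
    (v w : Fin n → ℤ) : C.eta π (v + w) * C.eps v w =
      C.eta π v * C.eta π w * C.eps (lmap π v) (lmap π w) := by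
  unfold eta eps
  rw [← Units.val_mul, ← Int.negOnePow_add, C.C0_key π hπ v w, ← Units.val_mul, ← Units.val_mul,
    ← Int.negOnePow_add, ← Int.negOnePow_add, Int.negOnePow_add _ (2 * _),
    Int.negOnePow_even (2 * _) (even_two_mul _), mul_one]

theorem eta_neg (π : Equiv.Perm (Fin n)) (v : Fin n → ℤ) : C.eta π (-v) = C.eta π v := by
  unfold eta qq
  congr 2
  refine Finset.sum_congr rfl fun i _ => Finset.sum_congr rfl fun j _ => ?_
  simp only [Pi.neg_apply, neg_mul_neg]

theorem eta_single (π : Equiv.Perm (Fin n)) (i : Fin n) : C.eta π (Pi.single i 1) = 1 := by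
  have h : C.qq π (Pi.single i 1) = 0 := by
    unfold qq
    refine Finset.sum_eq_zero fun k _ => Finset.sum_eq_zero fun l _ => ?_
    split_ifs with hkl
    · by_cases h1 : k = i
      · have h2 : l ≠ i := fun h3 => hkl.ne (h1.trans h3.symm)
        rw [Pi.single_eq_of_ne h2]
        ring
      · rw [Pi.single_eq_of_ne h1]
        ring
    · rfl
  unfold eta
  rw [h]
  simp

theorem eta_sq (π : Equiv.Perm (Fin n)) (v : Fin n → ℤ) : C.eta π v * C.eta π v = 1 := by
  unfold eta
  rcases Int.units_eq_one_or (C.qq π v).negOnePow with h | h <;> simp [h]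

private theorem C0_eta_ne (π : Equiv.Perm (Fin n)) (v : Fin n → ℤ) (K : Type*) [Field K] :
    ((C.eta π v : ℤ) : K) * ((C.eta π v : ℤ) : K) = 1 := by
  rw [← Int.cast_mul, eta_sq, Int.cast_one]

private theorem C0_rmap_neg (π : Equiv.Perm (Fin n)) (hπ : ∀ i j, C.A (π i) (π j) = C.A i j)
    (β : C.Root) : C.rmap π hπ (-β) = -C.rmap π hπ β := rfl

private theorem C0_rmap_simple (π : Equiv.Perm (Fin n)) (hπ : ∀ i j, C.A (π i) (π j) = C.A i j)
    (i : Fin n) : C.rmap π hπ (C.simple i) = C.simple (π i) := by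
  apply Root.ext
  exact lmap_single π i

private theorem C0_rmap_surj (π : Equiv.Perm (Fin n)) (hπ : ∀ i j, C.A (π i) (π j) = C.A i j)
    (γ : C.Root) : ∃ β : C.Root, C.rmap π hπ β = γ := by
  have hπ' : ∀ i j, C.A (π.symm i) (π.symm j) = C.A i j := by
    intro i j
    rw [← hπ, Equiv.apply_symm_apply, Equiv.apply_symm_apply]
  refine ⟨C.rmap π.symm hπ' γ, ?_⟩
  apply Root.ext
  funext i
  change γ.1 (π.symm.symm (π.symm i)) = γ.1 i
  rw [Equiv.symm_symm, Equiv.apply_symm_apply]

end SLC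

namespace StSys
variable {n : ℕ} {C : SLC n} {K : Type*} [Field K] {H : Type*} [Group H] (S : StSys C K H)

/-- The twisted family. -/
def twx (a : H) (π : Equiv.Perm (Fin n)) (hπ : ∀ i j, C.A (π i) (π j) = C.A i j) (c : Fin n → K)
    (β : C.Root) (t : K) : H :=
  a * S.x (C.rmap π hπ β) ((C.eta π β.1 : K) * (∏ i, c i ^ β.1 i) * t) * a⁻¹

/-- The scalar of the twist. -/
private def C0_d (C : SLC n) (π : Equiv.Perm (Fin n)) (c : Fin n → K) (v : Fin n → ℤ) : K :=
  (C.eta π v : K) * (∏ i, c i ^ v i)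

private theorem C0_twx (a : H) (π : Equiv.Perm (Fin n)) (hπ : ∀ i j, C.A (π i) (π j) = C.A i j)
    (c : Fin n → K) (β : C.Root) (t : K) :
    S.twx a π hπ c β t = a * S.x (C.rmap π hπ β) (C0_d C π c β.1 * t) * a⁻¹ := rfl

private theorem C0_prod_ne (c : Fin n → K) (hc : ∀ i, c i ≠ 0) (v : Fin n → ℤ) :
    ∏ i, c i ^ v i ≠ 0 := Finset.prod_ne_zero_iff.mpr fun i _ => zpow_ne_zero _ (hc i)

private theorem C0_d_ne (π : Equiv.Perm (Fin n)) (c : Fin n → K) (hc : ∀ i, c i ≠ 0)
    (v : Fin n → ℤ) : C0_d C π c v ≠ 0 := by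
  have h1 := C.C0_eta_ne π v K
  exact mul_ne_zero (left_ne_zero_of_mul_eq_one h1) (C0_prod_ne c hc v)

private theorem C0_d_neg (π : Equiv.Perm (Fin n)) (c : Fin n → K) (v : Fin n → ℤ) :
    C0_d C π c (-v) = (C0_d C π c v)⁻¹ := by
  unfold C0_d
  have h1 := C.C0_eta_ne π v K
  rw [C.eta_neg, mul_inv, inv_eq_of_mul_eq_one_left h1, ← Finset.prod_inv_distrib]
  congr 1
  refine Finset.prod_congr rfl fun i _ => ?_
  rw [Pi.neg_apply, _root_.zpow_neg]

private theorem C0_d_add (π : Equiv.Perm (Fin n)) (hπ : ∀ i j, C.A (π i) (π j) = C.A i j)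
    (c : Fin n → K) (hc : ∀ i, c i ≠ 0) (v w : Fin n → ℤ) :
    C0_d C π c (v + w) * (C.eps v w : K) =
      C0_d C π c v * C0_d C π c w * (C.eps (SLC.lmap π v) (SLC.lmap π w) : K) := by
  unfold C0_d
  have h1 := congrArg (Int.cast : ℤ → K) (C.eta_add π hπ v w)
  push_cast at h1
  have h2 : ∏ i, c i ^ (v + w) i = (∏ i, c i ^ v i) * ∏ i, c i ^ w i := by
    rw [← Finset.prod_mul_distrib]
    refine Finset.prod_congr rfl fun i _ => ?_
    rw [Pi.add_apply, zpow_add₀ (hc i)]
  rw [h2]
  linear_combination ((∏ i, c i ^ v i) * ∏ i, c i ^ w i) * h1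

private theorem C0_nn (a : H) (π : Equiv.Perm (Fin n)) (hπ : ∀ i j, C.A (π i) (π j) = C.A i j)
    (c : Fin n → K) (α : C.Root) (t : K) :
    nn (S.twx a π hπ c) α t = a * nn S.x (C.rmap π hπ α) (C0_d C π c α.1 * t) * a⁻¹ := by
  unfold nn
  rw [C0_twx, C0_twx, C.C0_rmap_neg, SLC.Root.neg_val, C0_d_neg, ← mul_inv]
  group

private theorem C0_hh (a : H) (π : Equiv.Perm (Fin n)) (hπ : ∀ i j, C.A (π i) (π j) = C.A i j)
    (c : Fin n → K) (hc : ∀ i, c i ≠ 0) (α : C.Root) (t : K) (ht : t ≠ 0) :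
    hh (S.twx a π hπ c) α t = a * hh S.x (C.rmap π hπ α) t * a⁻¹ := by
  have hd := C0_d_ne (C := C) π c hc α.1
  have h1 := S.h_mul (C.rmap π hπ α) t (C0_d C π c α.1) ht hd
  have h2 : hh S.x (C.rmap π hπ α) t =
      nn S.x (C.rmap π hπ α) (C0_d C π c α.1 * t) * nn S.x (C.rmap π hπ α) (-C0_d C π c α.1) := by
    rw [← S.nn_inv]
    rw [mul_comm t] at h1
    unfold hh at h1 ⊢
    rw [eq_mul_inv_iff_mul_eq]
    rw [← mul_assoc] at h1
    exact mul_right_cancel h1
  rw [h2]
  unfold hh
  rw [C0_nn, C0_nn, mul_neg_one]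
  group

theorem twx_map_add (a : H) (π : Equiv.Perm (Fin n)) (hπ : ∀ i j, C.A (π i) (π j) = C.A i j)
    (c : Fin n → K) (β : C.Root) (s t : K) :
    S.twx a π hπ c β (s + t) = S.twx a π hπ c β s * S.twx a π hπ c β t := by
  rw [C0_twx, C0_twx, C0_twx, mul_add, S.map_add]
  group

theorem twx_comm (a : H) (π : Equiv.Perm (Fin n)) (hπ : ∀ i j, C.A (π i) (π j) = C.A i j)
    (c : Fin n → K) (α β : C.Root) (s t : K) (h : 0 ≤ C.ip α.1 β.1) :
    S.twx a π hπ c α s * S.twx a π hπ c β t = S.twx a π hπ c β t * S.twx a π hπ c α s := by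
  rw [C0_twx, C0_twx]
  have h1 : 0 ≤ C.ip (C.rmap π hπ α).1 (C.rmap π hπ β).1 := by
    change 0 ≤ C.ip (SLC.lmap π α.1) (SLC.lmap π β.1)
    rw [C.ip_lmap π hπ]
    exact h
  have h2 := S.comm (C.rmap π hπ α) (C.rmap π hπ β) (C0_d C π c α.1 * s) (C0_d C π c β.1 * t) h1
  calc a * S.x (C.rmap π hπ α) (C0_d C π c α.1 * s) * a⁻¹ *
      (a * S.x (C.rmap π hπ β) (C0_d C π c β.1 * t) * a⁻¹) =
      a * (S.x (C.rmap π hπ α) (C0_d C π c α.1 * s) *
        S.x (C.rmap π hπ β) (C0_d C π c β.1 * t)) * a⁻¹ := by group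
    _ = a * (S.x (C.rmap π hπ β) (C0_d C π c β.1 * t) *
        S.x (C.rmap π hπ α) (C0_d C π c α.1 * s)) * a⁻¹ := by rw [h2]
    _ = _ := by group

theorem twx_comm_add (a : H) (π : Equiv.Perm (Fin n)) (hπ : ∀ i j, C.A (π i) (π j) = C.A i j)
    (c : Fin n → K) (hc : ∀ i, c i ≠ 0) (α β γ : C.Root) (s t : K) (h : γ.1 = α.1 + β.1) :
    S.twx a π hπ c α s * S.twx a π hπ c β t * (S.twx a π hπ c α s)⁻¹ * (S.twx a π hπ c β t)⁻¹ =
      S.twx a π hπ c γ (C.eps α.1 β.1 * s * t) := by
  rw [C0_twx, C0_twx, C0_twx]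
  have h1 : (C.rmap π hπ γ).1 = (C.rmap π hπ α).1 + (C.rmap π hπ β).1 := by
    change SLC.lmap π γ.1 = SLC.lmap π α.1 + SLC.lmap π β.1
    rw [h]
    rfl
  have h2 := S.comm_add (C.rmap π hπ α) (C.rmap π hπ β) (C.rmap π hπ γ) (C0_d C π c α.1 * s)
    (C0_d C π c β.1 * t) h1
  have h3 : (C.eps (C.rmap π hπ α).1 (C.rmap π hπ β).1 : K) * (C0_d C π c α.1 * s) *
      (C0_d C π c β.1 * t) = C0_d C π c γ.1 * (C.eps α.1 β.1 * s * t) := by
    have h4 := C0_d_add (C := C) π hπ c hc α.1 β.1
    rw [← h] at h4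
    change (C.eps (SLC.lmap π α.1) (SLC.lmap π β.1) : K) * (C0_d C π c α.1 * s) *
      (C0_d C π c β.1 * t) = C0_d C π c γ.1 * (C.eps α.1 β.1 * s * t)
    linear_combination (-(s * t)) * h4
  rw [h3] at h2
  rw [← h2]
  group

theorem twx_n_conj (a : H) (π : Equiv.Perm (Fin n)) (hπ : ∀ i j, C.A (π i) (π j) = C.A i j)
    (c : Fin n → K) (hc : ∀ i, c i ≠ 0) (α : C.Root) (t u : K) (ht : t ≠ 0) :
    nn (S.twx a π hπ c) α t * S.twx a π hπ c α u * (nn (S.twx a π hπ c) α t)⁻¹ =
      S.twx a π hπ c (-α) (t⁻¹ ^ 2 * u) := by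
  have hd := C0_d_ne (C := C) π c hc α.1
  rw [C0_nn, C0_twx, C0_twx, C.C0_rmap_neg, SLC.Root.neg_val, C0_d_neg]
  have h1 := S.n_conj (C.rmap π hπ α) (C0_d C π c α.1 * t) (C0_d C π c α.1 * u)
    (mul_ne_zero hd ht)
  have h2 : (C0_d C π c α.1 * t)⁻¹ ^ 2 * (C0_d C π c α.1 * u) =
      (C0_d C π c α.1)⁻¹ * (t⁻¹ ^ 2 * u) := by
    field_simp
  rw [h2] at h1
  rw [← h1]
  group

theorem twx_h_mul (a : H) (π : Equiv.Perm (Fin n)) (hπ : ∀ i j, C.A (π i) (π j) = C.A i j)
    (c : Fin n → K) (hc : ∀ i, c i ≠ 0) (α : C.Root) (s t : K) (hs : s ≠ 0) (ht : t ≠ 0) :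
    hh (S.twx a π hπ c) α s * hh (S.twx a π hπ c) α t = hh (S.twx a π hπ c) α (s * t) := by
  rw [S.C0_hh a π hπ c hc α s hs, S.C0_hh a π hπ c hc α t ht,
    S.C0_hh a π hπ c hc α (s * t) (mul_ne_zero hs ht), ← S.h_mul _ s t hs ht]
  group

/-- The twisted Steinberg system. -/
def twist (a : H) (π : Equiv.Perm (Fin n)) (hπ : ∀ i j, C.A (π i) (π j) = C.A i j) (c : Fin n → K)
    (hc : ∀ i, c i ≠ 0) : StSys C K H where
  x := S.twx a π hπ c
  map_add := S.twx_map_add a π hπ c
  comm := S.twx_comm a π hπ c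
  comm_add := S.twx_comm_add a π hπ c hc
  n_conj := S.twx_n_conj a π hπ c hc
  h_mul := S.twx_h_mul a π hπ c hc

theorem twist_x (a : H) (π : Equiv.Perm (Fin n)) (hπ : ∀ i j, C.A (π i) (π j) = C.A i j)
    (c : Fin n → K) (hc : ∀ i, c i ≠ 0) (β : C.Root) (t : K) :
    (S.twist a π hπ c hc).x β t =
      a * S.x (C.rmap π hπ β) ((C.eta π β.1 : K) * (∏ i, c i ^ β.1 i) * t) * a⁻¹ := rfl

theorem twist_simple (a : H) (π : Equiv.Perm (Fin n)) (hπ : ∀ i j, C.A (π i) (π j) = C.A i j)
    (c : Fin n → K) (hc : ∀ i, c i ≠ 0) (i : Fin n) (t : K) :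
    (S.twist a π hπ c hc).x (C.simple i) t = a * S.x (C.simple (π i)) (c i * t) * a⁻¹ := by
  rw [twist_x, C.C0_rmap_simple, SLC.simple_val, C.eta_single, Int.cast_one, one_mul]
  have h : ∏ j, c j ^ (Pi.single i 1 : Fin n → ℤ) j = c i := by
    rw [Finset.prod_eq_single i]
    · simp
    · intro j _ hj
      rw [Pi.single_eq_of_ne hj, zpow_zero]
    · intro h
      exact absurd (Finset.mem_univ i) h
  rw [h]

theorem twist_neg_simple (a : H) (π : Equiv.Perm (Fin n)) (hπ : ∀ i j, C.A (π i) (π j) = C.A i j)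
    (c : Fin n → K) (hc : ∀ i, c i ≠ 0) (i : Fin n) (t : K) :
    (S.twist a π hπ c hc).x (-(C.simple i)) t =
      a * S.x (-(C.simple (π i))) ((c i)⁻¹ * t) * a⁻¹ := by
  rw [twist_x, C.C0_rmap_neg, C.C0_rmap_simple, SLC.Root.neg_val, SLC.simple_val, C.eta_neg,
    C.eta_single, Int.cast_one, one_mul]
  have h : ∏ j, c j ^ (-(Pi.single i 1 : Fin n → ℤ)) j = (c i)⁻¹ := by
    rw [Finset.prod_eq_single i]
    · simp
    · intro j _ hj
      rw [Pi.neg_apply, Pi.single_eq_of_ne hj, neg_zero, zpow_zero]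
    · intro h
      exact absurd (Finset.mem_univ i) h
  rw [h]

theorem twist_gen (a : H) (ha : a ∈ S.gen) (π : Equiv.Perm (Fin n))
    (hπ : ∀ i j, C.A (π i) (π j) = C.A i j) (c : Fin n → K) (hc : ∀ i, c i ≠ 0) :
    (S.twist a π hπ c hc).gen = S.gen := by
  have hx : ∀ β t, S.x β t ∈ S.gen := fun β t => Subgroup.subset_closure ⟨β, t, rfl⟩
  apply le_antisymm
  · refine (Subgroup.closure_le _).mpr ?_
    rintro g ⟨β, t, rfl⟩
    rw [twist_x]
    exact S.gen.mul_mem (S.gen.mul_mem ha (hx _ _)) (S.gen.inv_mem ha)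
  · have h1 : ∀ g ∈ S.gen, a * g * a⁻¹ ∈ (S.twist a π hπ c hc).gen := by
      intro g hg
      refine Subgroup.closure_induction (p := fun g _ => a * g * a⁻¹ ∈ (S.twist a π hπ c hc).gen)
        ?_ ?_ ?_ ?_ hg
      · rintro g ⟨γ, t, rfl⟩
        obtain ⟨β, hβ⟩ := C.C0_rmap_surj π hπ γ
        have hd := C0_d_ne (C := C) π c hc β.1
        have h2 : (S.twist a π hπ c hc).x β ((C0_d C π c β.1)⁻¹ * t) = a * S.x γ t * a⁻¹ := by
          change S.twx a π hπ c β ((C0_d C π c β.1)⁻¹ * t) = a * S.x γ t * a⁻¹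
          rw [C0_twx, hβ, mul_inv_cancel_left₀ hd]
        rw [← h2]
        exact Subgroup.subset_closure ⟨β, _, rfl⟩
      · rw [mul_one, mul_inv_cancel]
        exact Subgroup.one_mem _
      · intro g h _ _ hg hh
        have e : a * (g * h) * a⁻¹ = a * g * a⁻¹ * (a * h * a⁻¹) := by group
        rw [e]
        exact Subgroup.mul_mem _ hg hh
      · intro g _ hg
        have e : a * g⁻¹ * a⁻¹ = (a * g * a⁻¹)⁻¹ := by group
        rw [e]
        exact Subgroup.inv_mem _ hg
    intro g hg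
    have h2 := h1 (a⁻¹ * g * a) (S.gen.mul_mem (S.gen.mul_mem (S.gen.inv_mem ha) hg) ha)
    have e : a * (a⁻¹ * g * a) * a⁻¹ = g := by group
    rwa [e] at h2

end StSys

end Pool.Agent.H75.UL
end

section
/- module Pool.Agent.H75.UL.S4 -/
/-!
# Project UL (MP_978914_al), module S4

Ordered products adapted to `w`.

Claim(m), `m ≥ 1`: for `u ∈ U 1` there are `t` supported on `{β | ht β < m, ¬ Pos (w⁻¹ β)}`,
`u' ∈ U m`, `b ∈ U 1` with `u * g = lp posList t * u' * g * b`. For `m = 1` take `t = 0`, `u' = u`,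
`b = 1`. Step: `exists_layer`: `u' = lp posList s * u''`, `s` supported in height `m`; split
`s = s₁ + s₂`, `s₁` supported on `¬ Pos (w⁻¹ β)`, `s₂` on `Pos (w⁻¹ β)`; by `lp_add_layer`,
`u' = lp s₁ * lp s₂ * u'''` with `u''' ∈ U (m+1)`, and `lp s₂ * u''' = (conjugate of u''') * lp s₂`
(`U_conj`); `lp s₂ * g = g * b'` with `b' = g⁻¹ * lp s₂ * g ∈ U 1` because
`g⁻¹ x_β(v) g = x_{w⁻¹β}(..)` (from `Acts g w`) is in `U 1` when `Pos (w⁻¹ β)`. And
`lp t * lp s₁ = lp (t + s₁)` by `lp_split`. For `m` large `U m = ⊥` (`exists_U_eq_bot`).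
(In `t` change nothing at non positive `β`: they are not in `posList`.)
-/

set_option autoImplicit false
open Matrix
universe u
namespace Pool.Agent.H75.UL

namespace StSys
variable {n : ℕ} {C : SLC n} {K : Type*} [Field K] {H : Type*} [Group H] (S : StSys C K H)

private theorem S4_conj_mem (g : H) (w : Equiv.Perm C.Root) (hg : S.Acts g w)
    (s : C.Root → K) (hs : ∀ β, ¬ C.Pos (w⁻¹ β) → s β = 0) (l : List C.Root) :
    g⁻¹ * S.lp l s * g ∈ S.U 1 := by
  obtain ⟨c, hc, h⟩ := hg
  induction l with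
  | nil =>
    have h1 : g⁻¹ * S.lp [] s * g = 1 := by simp [lp]
    rw [h1]
    exact one_mem _
  | cons β l ih =>
    have h1 : g⁻¹ * S.lp (β :: l) s * g = (g⁻¹ * S.x β (s β) * g) * (g⁻¹ * S.lp l s * g) := by
      simp [lp, mul_assoc]
    rw [h1]
    refine mul_mem ?_ ih
    by_cases hp : C.Pos (w⁻¹ β)
    · have h2 := h (w⁻¹ β) ((c (w⁻¹ β))⁻¹ * s β)
      rw [← mul_assoc, mul_inv_cancel₀ (hc _), one_mul] at h2
      have hw : w (w⁻¹ β) = β := by simp
      rw [hw] at h2
      have h3 : g⁻¹ * S.x β (s β) * g = S.x (w⁻¹ β) ((c (w⁻¹ β))⁻¹ * s β) := by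
        rw [← h2]
        group
      rw [h3]
      refine Subgroup.subset_closure ⟨w⁻¹ β, _, ?_, rfl⟩
      unfold SLC.Pos at hp
      omega
    · rw [hs β hp, S.x_zero]
      simp

private theorem S4_claim (g : H) (w : Equiv.Perm C.Root) (hg : S.Acts g w) (u : H)
    (hu : u ∈ S.U 1) (k : ℕ) : ∃ t : C.Root → K, (∀ β : C.Root, (k : ℤ) + 1 ≤ ht β.1 → t β = 0) ∧
      (∀ β, C.Pos (w⁻¹ β) → t β = 0) ∧ ∃ u' ∈ S.U ((k : ℤ) + 1), ∃ b ∈ S.U 1,
        u * g = S.lp C.posList t * u' * g * b := by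
  induction k with
  | zero =>
    refine ⟨fun _ => 0, fun _ _ => rfl, fun _ _ => rfl, u, by simpa using hu, 1, one_mem _, ?_⟩
    rw [S.lp_zero _ _ (fun _ _ => rfl)]
    simp
  | succ k ih =>
    obtain ⟨t, ht1, ht2, u', hu', b, hb, he⟩ := ih
    obtain ⟨s, hs, u2, hu2, he2⟩ := S.exists_layer ((k : ℤ) + 1) (by omega) u' hu'
    obtain ⟨u3, hu3, he3⟩ := S.lp_add_layer ((k : ℤ) + 1) (by omega)
      (fun β => if C.Pos (w⁻¹ β) then 0 else s β) (fun β => if C.Pos (w⁻¹ β) then s β else 0)
      (fun β hβ => by simp [hs β hβ]) (fun β hβ => by simp [hs β hβ])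
    have hsum : S.lp C.posList s = S.lp C.posList (fun β =>
        (if C.Pos (w⁻¹ β) then 0 else s β) + (if C.Pos (w⁻¹ β) then s β else 0)) := by
      apply S.lp_congr
      intro β _
      split_ifs <;> simp
    rw [hsum, he3] at he2
    have hL2 : S.lp C.posList (fun β => if C.Pos (w⁻¹ β) then s β else 0) ∈ S.U 1 := by
      apply S.lp_mem 1
      intro β hβ
      have : s β = 0 := hs β (by omega)
      simp [this]
    have hconj := S4_conj_mem S g w hg (fun β => if C.Pos (w⁻¹ β) then s β else 0)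
      (fun β hβ => if_neg hβ) C.posList
    have hv := S.U_conj ((k : ℤ) + 1 + 1) (by omega) _ (u3 * u2) hL2 (mul_mem hu3 hu2)
    have hlp : S.lp C.posList (fun β => t β + (if C.Pos (w⁻¹ β) then 0 else s β)) =
        S.lp C.posList t * S.lp C.posList (fun β => if C.Pos (w⁻¹ β) then 0 else s β) := by
      rw [S.lp_split (k : ℤ)]
      congr 1
      · apply S.lp_congr
        intro β _
        by_cases h : ht β.1 ≤ (k : ℤ)
        · have : s β = 0 := hs β (by omega)
          simp [h, this]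
        · have : t β = 0 := ht1 β (by omega)
          simp [h, this]
      · apply S.lp_congr
        intro β _
        by_cases h : ht β.1 ≤ (k : ℤ)
        · have : s β = 0 := hs β (by omega)
          simp [h, this]
        · have : t β = 0 := ht1 β (by omega)
          simp [h, this]
    generalize S.lp C.posList (fun β => if C.Pos (w⁻¹ β) then 0 else s β) = L1 at *
    generalize S.lp C.posList (fun β => if C.Pos (w⁻¹ β) then s β else 0) = L2 at *
    refine ⟨fun β => t β + (if C.Pos (w⁻¹ β) then 0 else s β), ?_, ?_,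
      L2 * (u3 * u2) * L2⁻¹, ?_, (g⁻¹ * L2 * g) * b, mul_mem hconj hb, ?_⟩
    · intro β hβ
      push_cast at hβ
      have h1 : t β = 0 := ht1 β (by omega)
      have h2 : s β = 0 := hs β (by omega)
      simp [h1, h2]
    · intro β hβ
      show t β + (if C.Pos (w⁻¹ β) then 0 else s β) = 0
      rw [if_pos hβ, ht2 β hβ, add_zero]
    · push_cast
      exact hv
    · rw [hlp, he, he2]
      group

theorem exists_lp_inv (g : H) (w : Equiv.Perm C.Root) (hg : S.Acts g w) (u : H)
    (hu : u ∈ S.U 1) : ∃ t : C.Root → K, (∀ β, C.Pos (w⁻¹ β) → t β = 0) ∧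
      ∃ b ∈ S.U 1, u * g = S.lp C.posList t * g * b := by
  obtain ⟨m, hm, -, hbot⟩ := S.exists_U_eq_bot
  obtain ⟨t, -, ht2, u', hu', b, hb, he⟩ := S4_claim S g w hg u hu (m - 1).toNat
  have h1 : (((m - 1).toNat : ℕ) : ℤ) + 1 = m := by omega
  rw [h1, hbot, Subgroup.mem_bot] at hu'
  refine ⟨t, ht2, b, hb, ?_⟩
  rw [he, hu', mul_one]

end StSys

end Pool.Agent.H75.UL
end

section
/- module Pool.Agent.H86.UL.Null -/
/-!
# Project UL: Nullstellensatz and reduction to finite fields
-/

set_option autoImplicit false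

open MvPolynomial

universe u

namespace Pool.Agent.H75.UL

/-- Weak Nullstellensatz for a family of polynomials, with a finite certificate. -/
theorem exists_certificate {L : Type*} [Field L] [IsAlgClosed L] {V : Type*} [Finite V]
    {ι : Type*} (E : ι → MvPolynomial V L)
    (hE : ∀ y : V → L, ∃ i, eval y (E i) ≠ 0) :
    ∃ (s : Finset ι) (g : ι → MvPolynomial V L), ∑ i ∈ s, g i * E i = 1 := by
  classical
  have htop : Ideal.span (Set.range E) = ⊤ := by
    by_contra hne
    obtain ⟨M, hM, hle⟩ := Ideal.exists_le_maximal _ hne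
    obtain ⟨y, hy⟩ := (MvPolynomial.isMaximal_iff_eq_vanishingIdeal_singleton (K := L)).mp hM
    obtain ⟨i, hi⟩ := hE y
    apply hi
    have h1 : E i ∈ M := hle (Ideal.subset_span ⟨i, rfl⟩)
    rw [hy, MvPolynomial.mem_vanishingIdeal_singleton_iff] at h1
    simpa [MvPolynomial.aeval_eq_eval] using h1
  have h1 : (1 : MvPolynomial V L) ∈ Ideal.span (Set.range E) := by
    rw [htop]; trivial
  rw [Ideal.span, Finsupp.mem_span_range_iff_exists_finsupp] at h1
  obtain ⟨c, hc⟩ := h1
  refine ⟨c.support, c, ?_⟩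
  rw [← hc, Finsupp.sum]
  rfl

theorem isJacobsonRing_int : IsJacobsonRing ℤ := by
  rw [isJacobsonRing_iff_prime_eq]
  intro P hP
  by_cases h0 : P = ⊥
  · subst h0
    rw [eq_bot_iff]
    intro x hx
    rw [Ideal.mem_jacobson_bot] at hx
    rw [Ideal.mem_bot]
    by_contra hne
    have h1 := hx x
    rw [Int.isUnit_iff] at h1
    have h2 : 0 < x * x := mul_self_pos.mpr hne
    omega
  · have : P.IsMaximal := hP.isMaximal h0
    exact Ideal.jacobson_eq_self_of_isMaximal

/-- A field that is a finitely generated `ℤ`-module is finite. -/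
theorem finite_of_module_finite_int (F : Type*) [Field F] [Module.Finite ℤ F] : Finite F := by
  have hint : Algebra.IsIntegral ℤ F := inferInstance
  obtain ⟨p, hp⟩ := CharP.exists F
  rcases CharP.char_is_prime_or_zero F p with hpr | h0
  · have : Fact p.Prime := ⟨hpr⟩
    let _ : Algebra (ZMod p) F := ZMod.algebra F p
    have h1 : Module.Finite (ZMod p) F := by
      obtain ⟨s, hs⟩ := (inferInstance : Module.Finite ℤ F)
      refine ⟨s, ?_⟩
      rw [eq_top_iff]
      intro x _
      have hx : x ∈ Submodule.span ℤ (s : Set F) := by rw [hs]; trivial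
      induction hx using Submodule.span_induction with
      | mem x h => exact Submodule.subset_span h
      | zero => exact Submodule.zero_mem _
      | add x y _ _ hx hy => exact Submodule.add_mem _ (hx trivial) (hy trivial)
      | smul a x _ hx =>
        have h2 : a • x = (a : ZMod p) • x := by
          rw [Algebra.smul_def, Algebra.smul_def, map_intCast]
          simp
        rw [h2]
        exact Submodule.smul_mem _ _ (hx trivial)
    exact Module.finite_of_finite (ZMod p)
  · exfalso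
    subst h0
    have : CharZero F := CharP.charP_to_charZero F
    have hinj : Function.Injective (algebraMap ℤ F) := by
      intro a b hab
      simpa using hab
    have h1 : IsField ℤ := isField_of_isIntegral_of_isField hinj (Field.toIsField F)
    obtain ⟨b, hb⟩ := h1.mul_inv_cancel (a := (2 : ℤ)) (by norm_num)
    omega

/-- A finitely generated subring of a field maps to a finite field. -/
theorem exists_finite_residue {L : Type u} [Field L] (S : Set L) (hS : S.Finite) :
    ∃ (R : Subring L), S ⊆ R ∧ ∃ (F : Type u) (_ : Field F) (_ : Finite F),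
      Nonempty (R →+* F) := by
  classical
  set R : Subalgebra ℤ L := Algebra.adjoin ℤ S with hR
  have hft : Algebra.FiniteType ℤ R :=
    Subalgebra.fg_iff_finiteType _ |>.mp ⟨hS.toFinset, by rw [Set.Finite.coe_toFinset]⟩
  obtain ⟨M, hM⟩ := Ideal.exists_maximal R
  let _ : Field (R ⧸ M) := Ideal.Quotient.field M
  have h1 : Algebra.FiniteType ℤ (R ⧸ M) := inferInstance
  have := isJacobsonRing_int
  have h2 : Module.Finite ℤ (R ⧸ M) := finite_of_finite_type_of_isJacobsonRing ℤ (R ⧸ M)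
  exact ⟨R.toSubring, Algebra.subset_adjoin, R ⧸ M, inferInstance,
    finite_of_module_finite_int (R ⧸ M), ⟨(Ideal.Quotient.mk M : R →+* R ⧸ M)⟩⟩

end Pool.Agent.H75.UL
end

section
/- module Pool.Agent.H86.UL.Spread -/
/-!
# Project UL: spreading out
-/

set_option autoImplicit false

open MvPolynomial Matrix

namespace Pool.Agent.H75.UL

/-- Specialisation of a matrix of polynomials with integer coefficients. -/
noncomputable def evG {V I A : Type*} [Fintype I] [DecidableEq I] [CommRing A]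
    (N : GL I (MvPolynomial V ℤ)) (y : V → A) : GL I A :=
  GeneralLinearGroup.map (eval₂Hom (Int.castRingHom A) y) N

theorem evG_map {V I A B : Type*} [Fintype I] [DecidableEq I] [CommRing A] [CommRing B]
    (N : GL I (MvPolynomial V ℤ)) (y : V → A) (f : A →+* B) :
    GeneralLinearGroup.map f (evG N y) = evG N (fun v => f (y v)) := by
  have h : f.comp (eval₂Hom (Int.castRingHom A) y) =
      eval₂Hom (Int.castRingHom B) (fun v => f (y v)) := by
    apply MvPolynomial.ringHom_ext
    · intro r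
      simp
    · intro i
      simp
  unfold evG
  rw [← h, GeneralLinearGroup.map_comp]
  rfl

theorem exists_map_eq {V L : Type*} [CommRing L] (R : Subring L) (p : MvPolynomial V L)
    (hp : ∀ m, p.coeff m ∈ R) : ∃ q : MvPolynomial V R, MvPolynomial.map R.subtype q = p := by
  refine ⟨∑ m ∈ p.support, monomial m (⟨p.coeff m, hp m⟩ : R), ?_⟩
  rw [map_sum]
  simp only [map_monomial]
  exact (MvPolynomial.support_sum_monomial_coeff p)

theorem exists_lift {I L : Type*} [Fintype I] [DecidableEq I] [CommRing L] (R : Subring L)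
    (g : GL I L) (h1 : ∀ a b, (g : Matrix I I L) a b ∈ R)
    (h2 : ∀ a b, ((g⁻¹ : GL I L) : Matrix I I L) a b ∈ R) :
    ∃ g' : GL I R, GeneralLinearGroup.map R.subtype g' = g := by
  have hinj : Function.Injective (RingHom.mapMatrix (m := I) R.subtype) := by
    intro M M' h
    ext a b
    exact congrFun (congrFun h a) b
  let M1 : Matrix I I R := Matrix.of fun a b => ⟨g a b, h1 a b⟩
  let M2 : Matrix I I R := Matrix.of fun a b => ⟨(g⁻¹ : GL I L) a b, h2 a b⟩
  have e1 : RingHom.mapMatrix R.subtype M1 = (g : Matrix I I L) := rfl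
  have e2 : RingHom.mapMatrix R.subtype M2 = ((g⁻¹ : GL I L) : Matrix I I L) := rfl
  refine ⟨⟨M1, M2, ?_, ?_⟩, ?_⟩
  · apply hinj
    rw [map_mul, e1, e2, map_one, ← Units.val_mul, mul_inv_cancel, Units.val_one]
  · apply hinj
    rw [map_mul, e1, e2, map_one, ← Units.val_mul, inv_mul_cancel, Units.val_one]
  · apply Units.ext
    rfl

theorem finite_lift {I L : Type*} [Fintype I] [DecidableEq I] [CommRing L] (g : GL I L) :
    ∃ S : Set L, S.Finite ∧ ∀ R : Subring L, S ⊆ R →
      ∃ g' : GL I R, GeneralLinearGroup.map R.subtype g' = g := by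
  refine ⟨Set.range (fun p : I × I => (g : Matrix I I L) p.1 p.2) ∪
    Set.range (fun p : I × I => ((g⁻¹ : GL I L) : Matrix I I L) p.1 p.2),
    (Set.finite_range _).union (Set.finite_range _), fun R hR => ?_⟩
  exact exists_lift R g (fun a b => hR (Or.inl ⟨(a, b), rfl⟩)) (fun a b => hR (Or.inr ⟨(a, b), rfl⟩))

theorem finite_coeff {V L : Type*} [CommRing L] (p : MvPolynomial V L) :
    ∃ S : Set L, S.Finite ∧ ∀ R : Subring L, S ⊆ R →
      ∃ q : MvPolynomial V R, MvPolynomial.map R.subtype q = p := by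
  refine ⟨(fun m => p.coeff m) '' (p.support : Set (V →₀ ℕ)), p.support.finite_toSet.image _,
    fun R hR => exists_map_eq R p fun m => ?_⟩
  by_cases h : m ∈ p.support
  · exact hR ⟨m, h, rfl⟩
  · rw [MvPolynomial.notMem_support_iff.mp h]
    exact R.zero_mem

/-- Spreading out: if no specialisation of the families `N w` brings all elements of `Γ` into the form
given by `bad`, then this is witnessed by finitely many elements of `Γ`, and this persists after
applying homomorphisms defined on sufficiently large subrings. -/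
theorem spread {L V W I : Type*} [Field L] [IsAlgClosed L] [Finite V] [Finite W] [Fintype I]
    [DecidableEq I] (N : W → GL I (MvPolynomial V ℤ)) (bad : I → I → Prop) (Γ : Set (GL I L))
    (h : ∀ w (y : V → L), ∃ γ ∈ Γ, ∃ a b, bad a b ∧
      (((evG (N w) y)⁻¹ * γ * evG (N w) y : GL I L) : Matrix I I L) a b ≠ 0) :
    ∃ (T : Set (GL I L)) (S₀ : Set L), T.Finite ∧ S₀.Finite ∧ T ⊆ Γ ∧
      ∀ R : Subring L, S₀ ⊆ R → ∀ (F : Type*) [CommRing F] [Nontrivial F] (π : R →+* F) (w : W)
        (y : V → F), ∃ γ : GL I R, GeneralLinearGroup.map R.subtype γ ∈ T ∧ ∃ a b, bad a b ∧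
          (((evG (N w) y)⁻¹ * GeneralLinearGroup.map π γ * evG (N w) y : GL I F) :
            Matrix I I F) a b ≠ 0 := by
  classical
  let ι : Type _ := {x : Γ × I × I // bad x.2.1 x.2.2}
  -- the polynomials, over any ring
  let P : (A : Type _) → [CommRing A] → W → GL I A → GL I (MvPolynomial V A) :=
    fun A _ w γ => (evG (N w) (fun v => X v))⁻¹ * GeneralLinearGroup.map C γ *
      evG (N w) (fun v => X v)
  let E : W → ι → MvPolynomial V L := fun w x =>
    (P L w x.1.1.1 : Matrix I I (MvPolynomial V L)) x.1.2.1 x.1.2.2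
  have hE : ∀ w (y : V → L) (x : ι), eval y (E w x) =
      (((evG (N w) y)⁻¹ * x.1.1.1 * evG (N w) y : GL I L) : Matrix I I L) x.1.2.1 x.1.2.2 := by
    intro w y x
    have h1 : GeneralLinearGroup.map (eval y) (P L w x.1.1.1) =
        (evG (N w) y)⁻¹ * x.1.1.1 * evG (N w) y := by
      change GeneralLinearGroup.map (eval y) ((evG (N w) (fun v => X v))⁻¹ *
        GeneralLinearGroup.map C x.1.1.1 * evG (N w) (fun v => X v)) = _
      rw [map_mul, map_mul, map_inv, evG_map]
      simp only [eval_X]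
      congr 2
      rw [← GeneralLinearGroup.map_comp_apply]
      have h2 : (eval y).comp C = RingHom.id L := by
        ext r
        simp
      rw [← GeneralLinearGroup.map_comp, h2, GeneralLinearGroup.map_id]
      rfl
    rw [← h1]
    rfl
  have hcert : ∀ w, ∃ (s : Finset ι) (g : ι → MvPolynomial V L), ∑ i ∈ s, g i * E w i = 1 := by
    intro w
    apply exists_certificate
    intro y
    obtain ⟨γ, hγ, a, b, hab, hne⟩ := h w y
    exact ⟨⟨(⟨γ, hγ⟩, a, b), hab⟩, by rw [hE]; exact hne⟩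
  choose s g hg using hcert
  choose S1 hS1 hS1' using fun γ : GL I L => finite_lift γ
  choose S2 hS2 hS2' using fun p : MvPolynomial V L => finite_coeff p
  refine ⟨⋃ w, ⋃ i ∈ s w, {i.1.1.1}, (⋃ w, ⋃ i ∈ s w, S1 i.1.1.1) ∪ (⋃ w, ⋃ i ∈ s w, S2 (g w i)),
    ?_, ?_, ?_, ?_⟩
  · exact Set.finite_iUnion fun w => (s w).finite_toSet.biUnion fun i _ => Set.finite_singleton _
  · refine Set.Finite.union ?_ ?_
    · exact Set.finite_iUnion fun w => (s w).finite_toSet.biUnion fun i _ => hS1 _
    · exact Set.finite_iUnion fun w => (s w).finite_toSet.biUnion fun i _ => hS2 _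
  · refine Set.iUnion_subset fun w => Set.iUnion₂_subset fun i _ => ?_
    rw [Set.singleton_subset_iff]
    exact i.1.1.2
  · intro R hR F _ _ π w y
    by_contra hcon
    push Not at hcon
    have hl : ∀ i ∈ s w, ∃ γ : GL I R, GeneralLinearGroup.map R.subtype γ = i.1.1.1 := fun i hi =>
      hS1' _ R (fun x hx => hR (Or.inl (Set.mem_iUnion.mpr ⟨w, Set.mem_iUnion₂.mpr ⟨i, hi, hx⟩⟩)))
    have hp : ∀ i ∈ s w, ∃ q : MvPolynomial V R, MvPolynomial.map R.subtype q = g w i :=
      fun i hi => hS2' _ R (fun x hx => hR (Or.inr (Set.mem_iUnion.mpr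
        ⟨w, Set.mem_iUnion₂.mpr ⟨i, hi, hx⟩⟩)))
    choose! γ hγ using hl
    choose! q hq using hp
    have hinj : Function.Injective (MvPolynomial.map (σ := V) R.subtype) :=
      MvPolynomial.map_injective _ Subtype.val_injective
    -- the certificate over `R`
    have hsum : ∑ i ∈ s w, q i * (P R w (γ i) : Matrix I I (MvPolynomial V R)) i.1.2.1 i.1.2.2
        = 1 := by
      apply hinj
      rw [map_sum, map_one, ← hg w]
      refine Finset.sum_congr rfl fun i hi => ?_
      rw [map_mul, hq i hi]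
      congr 1
      have h1 : GeneralLinearGroup.map (MvPolynomial.map R.subtype) (P R w (γ i)) =
          P L w i.1.1.1 := by
        change GeneralLinearGroup.map (MvPolynomial.map R.subtype) ((evG (N w) (fun v => X v))⁻¹ *
          GeneralLinearGroup.map C (γ i) * evG (N w) (fun v => X v)) =
          (evG (N w) (fun v => X v))⁻¹ * GeneralLinearGroup.map C i.1.1.1 *
          evG (N w) (fun v => X v)
        rw [map_mul, map_mul, map_inv, evG_map]
        simp only [map_X]
        congr 2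
        rw [← GeneralLinearGroup.map_comp_apply, ← hγ i hi, ← GeneralLinearGroup.map_comp_apply]
        congr 1
        have h2 : (MvPolynomial.map R.subtype).comp C =
            (C (σ := V)).comp R.subtype := by
          ext r
          simp
        rw [← GeneralLinearGroup.map_comp, ← GeneralLinearGroup.map_comp, h2]
      change _ = (P L w i.1.1.1 : Matrix I I (MvPolynomial V L)) i.1.2.1 i.1.2.2
      rw [← h1]
      rfl
    have h3 := congrArg (eval₂Hom π y) hsum
    rw [map_sum, map_one] at h3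
    apply one_ne_zero (α := F)
    rw [← h3]
    refine Finset.sum_eq_zero fun i hi => ?_
    rw [map_mul]
    have h4 : GeneralLinearGroup.map (eval₂Hom π y) (P R w (γ i)) =
        (evG (N w) y)⁻¹ * GeneralLinearGroup.map π (γ i) * evG (N w) y := by
      change GeneralLinearGroup.map (eval₂Hom π y) ((evG (N w) (fun v => X v))⁻¹ *
        GeneralLinearGroup.map C (γ i) * evG (N w) (fun v => X v)) = _
      rw [map_mul, map_mul, map_inv, evG_map]
      simp only [eval₂Hom_X']
      congr 2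
      rw [← GeneralLinearGroup.map_comp_apply]
      congr 1
      have h2 : (eval₂Hom π y).comp C = π := by
        ext r
        simp
      rw [← GeneralLinearGroup.map_comp, h2]
    have h5 := hcon (γ i) (by
      rw [hγ i hi]
      exact Set.mem_iUnion.mpr ⟨w, Set.mem_iUnion₂.mpr ⟨i, hi, rfl⟩⟩) i.1.2.1 i.1.2.2 i.2
    have h6 : eval₂Hom π y ((P R w (γ i) : Matrix I I (MvPolynomial V R)) i.1.2.1 i.1.2.2) = 0 := by
      rw [← h5, ← h4]
      rfl
    rw [h6, mul_zero]

end Pool.Agent.H75.UL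
end

section
/- module Pool.Agent.H75.UL.R3 -/
/-!
# Project UL (MP_978914_al), module R3

The highest root.

`θ` := a root of maximal height (finitely many roots; `n > 0` gives a simple root, so `θ` is
positive). Call a positive root `β` dominant if `ip α_i β ≥ 0` for all `i`.
(a) `θ` is dominant: otherwise `ip α_i θ = -1` (`-2` would give `θ = -α_i`) and `α_i + θ` is a root
of larger height. (b) A dominant positive root `β` has full support: let `S = {i | β_i = 0}`,
`S ≠ univ`; if `S` is nonempty, `C.conn` gives `i ∈ S`, `j ∉ S`, `A i j ≠ 0`, so `A i j = -1` and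
`ip α_i β = ∑_k A i k β_k ≤ -β_j < 0` (terms with `k ∈ S` vanish, the others are `≤ 0`).
(c) A dominant positive root `β` equals `θ`: `ip θ β = ∑ β_i ip α_i θ > 0` since all `β_i ≥ 1`, all
`ip α_i θ ≥ 0` and `∑ θ_i ip α_i θ = 2`. So `ip θ β` is `1` or `2`; if it is `1`, `γ = θ - β` is a
root; if `γ` is positive then `0 ≤ ∑ γ_i ip α_i β = ip γ β = 1 - 2`, contradiction; if `-γ` is
positive then `0 ≤ ip (-γ) θ = 1 - 2`, contradiction.
(d) chain: induction on `(ht θ - ht β).toNat`: if `β ≠ θ` then `β` is not dominant, so some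
`ip α_i β = -1` and `γ = α_i + β` is a positive root with `ht γ = ht β + 1`.
(e) uniq: if `ht β = ht θ` then `β` is positive and the chain from `β` to `θ` must be empty (each
step raises the height by one).
-/

set_option autoImplicit false
open Matrix
universe u
namespace Pool.Agent.H75.UL

namespace SLC
variable {n : ℕ} (C : SLC n)

/-- Chains: heights and coordinates. -/
private theorem R3_ht_eq {β δ : C.Root} {l : List (Fin n)} (h : C.Chain β l δ) :
    ht δ.1 = ht β.1 + l.length := by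
  induction h with
  | nil β => simp
  | cons i h _ ih =>
    rw [ih, h, ht_add, ht_simple, List.length_cons]
    push_cast
    ring

private theorem R3_step {β : C.Root} (hβ : C.Pos β) {i : Fin n}
    (hi : C.ip (C.simple i).1 β.1 < 0) :
    ∃ γ : C.Root, γ.1 = (C.simple i).1 + β.1 ∧ ht γ.1 = ht β.1 + 1 := by
  have h1 : C.ip (C.simple i).1 β.1 = -1 := by
    rcases C.ip_cases (C.simple i) β with h | h | h | h | h
    · exfalso
      have h2 := (C.ip_eq_neg_two_iff _ _).1 h
      unfold Pos at hβ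
      rw [h2, Root.neg_val, ht_neg, ht_simple] at hβ
      norm_num at hβ
    · exact h
    · omega
    · omega
    · omega
  obtain ⟨γ, hγ⟩ := C.exists_add _ _ h1
  refine ⟨γ, hγ, ?_⟩
  rw [hγ, ht_add, ht_simple]
  ring

private theorem R3_full {β : C.Root} (hβ : C.Pos β)
    (hd : ∀ i, 0 ≤ C.ip (C.simple i).1 β.1) (i : Fin n) : 1 ≤ β.1 i := by
  have hnn := (C.pos_iff β).1 hβ
  by_contra hcon
  have hi0 : β.1 i = 0 := by
    have := hnn i
    omega
  obtain ⟨j, hj, k, hk, hjk⟩ := C.conn (Finset.univ.filter fun i => β.1 i = 0)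
    ⟨i, by simp [hi0]⟩ (by
      intro h
      apply C.root_ne_zero β
      funext m
      have : m ∈ (Finset.univ.filter fun i => β.1 i = 0) := by rw [h]; exact Finset.mem_univ m
      exact (Finset.mem_filter.1 this).2)
  have hj0 : β.1 j = 0 := (Finset.mem_filter.1 hj).2
  have hk0 : 1 ≤ β.1 k := by
    have h1 : β.1 k ≠ 0 := fun h => hk (by simp [h])
    have := hnn k
    omega
  have hne : j ≠ k := by
    rintro rfl
    omega
  have hA : C.A j k = -1 := (C.off j k hne).resolve_left hjk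
  have h1 : C.ip (C.simple j).1 β.1 < 0 := by
    rw [simple_val, ip_single_left]
    show ∑ m, C.A j m * β.1 m < 0
    refine Finset.sum_neg' (fun m _ => ?_) ⟨k, Finset.mem_univ k, ?_⟩
    · by_cases hm : j = m
      · rw [← hm, hj0, mul_zero]
      · have := hnn m
        rcases C.off j m hm with h | h <;> rw [h] <;> omega
    · rw [hA]
      omega
  have := hd j
  omega

private theorem R3_ip_nonneg {v w : Fin n → ℤ} (hv : ∀ i, 0 ≤ v i)
    (hw : ∀ i, 0 ≤ C.ip (C.simple i).1 w) : 0 ≤ C.ip v w := by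
  rw [← C.sum_ip_single v w]
  exact Finset.sum_nonneg fun i _ => mul_nonneg (hv i) (hw i)

private theorem R3_dom_eq {θ β : C.Root} (hβ : C.Pos β)
    (hdθ : ∀ i, 0 ≤ C.ip (C.simple i).1 θ.1) (hdβ : ∀ i, 0 ≤ C.ip (C.simple i).1 β.1) :
    β = θ := by
  have hfull := C.R3_full hβ hdβ
  have h1 : 1 ≤ C.ip β.1 θ.1 := by
    obtain ⟨i, hi⟩ : ∃ i, 1 ≤ C.ip (C.simple i).1 θ.1 := by
      by_contra hcon
      push Not at hcon
      have h2 := C.sum_ip_single θ.1 θ.1
      rw [θ.2] at h2
      have h3 : ∑ i, θ.1 i * C.ip (Pi.single i 1) θ.1 = 0 := by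
        refine Finset.sum_eq_zero fun i _ => ?_
        have h4 := hcon i
        have h5 := hdθ i
        rw [simple_val] at h4 h5
        have h6 : C.ip (Pi.single i 1) θ.1 = 0 := by omega
        rw [h6, mul_zero]
      omega
    rw [← C.sum_ip_single β.1 θ.1]
    have h3 : β.1 i * C.ip (Pi.single i 1) θ.1 ≤ ∑ i, β.1 i * C.ip (Pi.single i 1) θ.1 := by
      refine Finset.single_le_sum (f := fun i => β.1 i * C.ip (Pi.single i 1) θ.1)
        (fun j _ => ?_) (Finset.mem_univ i)
      have := hfull j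
      exact mul_nonneg (by omega) (hdθ j)
    have h4 : 1 ≤ β.1 i * C.ip (Pi.single i 1) θ.1 := by
      have h5 := hfull i
      rw [simple_val] at hi
      nlinarith
    exact h4.trans h3
  rcases C.ip_cases β θ with h | h | h | h | h
  · omega
  · omega
  · omega
  · exfalso
    obtain ⟨γ, hγ⟩ := C.exists_sub β θ h
    rcases C.pos_or_neg γ with hp | hn
    · have h2 := C.R3_ip_nonneg hp hdβ
      rw [hγ, ip_sub_left, β.2, C.ip_comm, h] at h2
      omega
    · have h2 := C.R3_ip_nonneg (v := -γ.1) (w := θ.1) (fun i => by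
        have := hn i
        simp only [Pi.neg_apply]
        omega) hdθ
      rw [hγ, ip_neg_left, ip_sub_left, θ.2, h] at h2
      omega
  · exact (C.ip_eq_two_iff β θ).1 h

theorem exists_highest (hn : 0 < n) : ∃ θ : C.Root, C.IsHighest θ := by
  haveI : Nonempty C.Root := ⟨C.simple ⟨0, hn⟩⟩
  obtain ⟨θ, hθ⟩ := Finite.exists_max (fun β : C.Root => ht β.1)
  have hpos : C.Pos θ := by
    have h1 := hθ (C.simple ⟨0, hn⟩)
    simp only [ht_simple] at h1
    unfold Pos
    omega
  have hdθ : ∀ i, 0 ≤ C.ip (C.simple i).1 θ.1 := by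
    intro i
    by_contra hcon
    push Not at hcon
    obtain ⟨γ, _, hγ⟩ := C.R3_step hpos hcon
    have h1 := hθ γ
    omega
  have hchain : ∀ (m : ℕ) (β : C.Root), C.Pos β → ht θ.1 = ht β.1 + m →
      ∃ l, C.Chain β l θ := by
    intro m
    induction m with
    | zero =>
      intro β hβ hm
      by_cases hd : ∀ i, 0 ≤ C.ip (C.simple i).1 β.1
      · rw [C.R3_dom_eq hβ hdθ hd]
        exact ⟨[], Chain.nil θ⟩
      · exfalso
        push Not at hd
        obtain ⟨i, hi⟩ := hd
        obtain ⟨γ, _, hγ⟩ := C.R3_step hβ hi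
        have h1 := hθ γ
        push_cast at hm
        omega
    | succ m ih =>
      intro β hβ hm
      by_cases hd : ∀ i, 0 ≤ C.ip (C.simple i).1 β.1
      · rw [C.R3_dom_eq hβ hdθ hd]
        exact ⟨[], Chain.nil θ⟩
      · push Not at hd
        obtain ⟨i, hi⟩ := hd
        obtain ⟨γ, hγ1, hγ⟩ := C.R3_step hβ hi
        have hγp : C.Pos γ := by
          unfold Pos at hβ ⊢
          omega
        obtain ⟨l, hl⟩ := ih γ hγp (by push_cast at hm; omega)
        exact ⟨i :: l, Chain.cons i hγ1 hl⟩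
  have hchain2 : ∀ β : C.Root, C.Pos β → ∃ l, C.Chain β l θ := by
    intro β hβ
    have h1 := hθ β
    exact hchain (ht θ.1 - ht β.1).toNat β hβ (by omega)
  refine ⟨θ, ⟨C.R3_full hpos hdθ, hθ, fun β hβ => ?_, hchain2⟩⟩
  have hβp : C.Pos β := by
    unfold Pos at hpos ⊢
    omega
  obtain ⟨l, hl⟩ := hchain2 β hβp
  have h1 := C.R3_ht_eq hl
  have h2 : l.length = 0 := by omega
  have h3 : l = [] := List.length_eq_zero_iff.1 h2
  rw [h3] at hl
  cases hl
  rfl

/-- Chains: heights and coordinates. -/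
theorem Chain.ht_eq {β δ : C.Root} {l : List (Fin n)} (h : C.Chain β l δ) :
    ht δ.1 = ht β.1 + l.length := C.R3_ht_eq h

theorem Chain.count_eq {β δ : C.Root} {l : List (Fin n)} (h : C.Chain β l δ) (i : Fin n) :
    δ.1 i = β.1 i + (l.count i : ℤ) := by
  induction h with
  | nil β => simp
  | cons j h _ ih =>
    rw [ih, h, List.count_cons, Pi.add_apply, simple_val, Pi.single_apply]
    by_cases hij : j = i
    · subst hij
      simp
      ring
    · have hji : ¬ i = j := fun h => hij h.symm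
      simp [hij, hji]

end SLC

end Pool.Agent.H75.UL
end

section
/- module Pool.Agent.H75.UL.S8 -/
/-!
# Project UL (MP_978914_al), module S8

Iterated commutators along chains.

Prove for all `s = ±1`: `icomm (S.x β s) (l.map ..) = S.x θ s'` with `s' = ±1`, by induction on the
chain: `x_{α_i}(1) x_β(s) x_{α_i}(1)⁻¹ x_β(s)⁻¹ = x_γ(eps α_i β * 1 * s)` by `comm_add`
(`γ = α_i + β`), and `eps = ±1` (`eps_eq_one_or`). `icomm` is a `foldl`, so
`icomm g (h :: l) = icomm (h * g * h⁻¹ * g⁻¹) l` by `rfl`.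
`icomm_general` : the same with arbitrary arguments: the first element `x_β(s)` and `x_{α_i}(t_i)`;
only the product of the arguments matters.
-/

set_option autoImplicit false
open Matrix
universe u
namespace Pool.Agent.H75.UL

namespace StSys
variable {n : ℕ} {C : SLC n} {K : Type*} [Field K] {H : Type*} [Group H] (S : StSys C K H)

private theorem S8_aux {β θ : C.Root} {l : List (Fin n)} (hc : C.Chain β l θ) :
    ∃ e : ℤ, (e = 1 ∨ e = -1) ∧ ∀ (s : K) (t : Fin n → K),
      icomm (S.x β s) (l.map fun i => S.x (C.simple i) (t i)) =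
        S.x θ (e * s * (l.map t).prod) := by
  induction hc with
  | nil β =>
    refine ⟨1, Or.inl rfl, fun s t => ?_⟩
    simp [icomm]
  | @cons i β γ δ l h _ ih =>
    obtain ⟨e, he, hs⟩ := ih
    refine ⟨e * C.eps (C.simple i).1 β.1, ?_, fun s t => ?_⟩
    · rcases he with rfl | rfl <;> rcases C.eps_eq_one_or (C.simple i).1 β.1 with h1 | h1 <;>
        rw [h1] <;> norm_num
    · rw [List.map_cons, List.map_cons, List.prod_cons]
      have h1 : icomm (S.x β s) (S.x (C.simple i) (t i) ::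
          l.map fun i => S.x (C.simple i) (t i)) =
          icomm (S.x (C.simple i) (t i) * S.x β s * (S.x (C.simple i) (t i))⁻¹ * (S.x β s)⁻¹)
            (l.map fun i => S.x (C.simple i) (t i)) := rfl
      rw [h1, S.comm_add (C.simple i) β γ (t i) s h, hs]
      congr 1
      push_cast
      ring

theorem icomm_chain (β θ : C.Root) (l : List (Fin n)) (hc : C.Chain β l θ) :
    ∃ s : K, (s = 1 ∨ s = -1) ∧
      icomm (S.x β 1) (l.map fun i => S.x (C.simple i) 1) = S.x θ s := by
  obtain ⟨e, he, h⟩ := S.S8_aux hc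
  refine ⟨(e : K), ?_, ?_⟩
  · rcases he with rfl | rfl <;> simp
  · have h1 := h 1 (fun _ => 1)
    simpa using h1

/-- With general arguments: the result is `x_θ(± s * ∏ t)`, the sign depending only on the chain. -/
theorem icomm_chain' (β θ : C.Root) (l : List (Fin n)) (hc : C.Chain β l θ) :
    ∃ e : ℤ, (e = 1 ∨ e = -1) ∧ ∀ (s : K) (t : Fin n → K),
      icomm (S.x β s) (l.map fun i => S.x (C.simple i) (t i)) =
        S.x θ (e * s * (l.map t).prod) := S.S8_aux hc

end StSys

end Pool.Agent.H75.UL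
end

section
/- module Pool.Agent.H75.UL.T5 -/
/-!
# Project UL (MP_978914_al), module T5

Iterated brackets which avoid a simple root vanish.

Let `V k` be the span of the matrices `E β` (cast to `K`) over the roots `β` with `ht β = k` and
`β_j = 0`. If `A ∈ V k`, `k ≥ 1`, and `B` is a combination of the `E α_i`, `i ≠ j`, then
`B * A - A * B ∈ V (k + 1)`: for `β` positive, `ip α_i β ≥ 0` gives `0` (`E_comm`), `-1` gives
`± E (α_i + β)` (`E_comm_add`), `-2` is impossible (`β = -α_i`). `ld A` with `xi j A = 0` is in `V 1`.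
So `iad (ld A) (l.map ld) ∈ V (length + 1) = V (ht θ)`, and this is `0`: a root of height `ht θ` is
`θ`, but `θ_j ≥ 1`.
-/

set_option autoImplicit false
open Matrix
universe u
namespace Pool.Agent.H75.UL

namespace SLC
variable {n : ℕ} (C : SLC n) {K : Type*} [Field K]

/-- the span of the `E β`, `ht β = k`, `β_j = 0`. -/
def T5_V (K : Type*) [Field K] (j : Fin n) (k : ℤ) : Submodule K (Matrix C.Idx C.Idx K) :=
  Submodule.span K {M | ∃ β : C.Root, ht β.1 = k ∧ β.1 j = 0 ∧
    M = (C.E β).map (Int.cast : ℤ → K)}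

theorem T5_map_comm (α β : C.Root) (h : 0 ≤ C.ip α.1 β.1) :
    (C.E α).map (Int.cast : ℤ → K) * (C.E β).map (Int.cast : ℤ → K) -
      (C.E β).map (Int.cast : ℤ → K) * (C.E α).map (Int.cast : ℤ → K) = 0 := by
  have h1 := congrArg (fun M : Matrix C.Idx C.Idx ℤ => M.map (Int.castRingHom K)) (C.E_comm α β h)
  simp only [Matrix.map_mul] at h1
  rw [sub_eq_zero]
  exact h1

theorem T5_map_comm_add (α β γ : C.Root) (h : γ.1 = α.1 + β.1) :
    (C.E α).map (Int.cast : ℤ → K) * (C.E β).map (Int.cast : ℤ → K) -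
      (C.E β).map (Int.cast : ℤ → K) * (C.E α).map (Int.cast : ℤ → K) =
        (C.eps α.1 β.1 : K) • (C.E γ).map (Int.cast : ℤ → K) := by
  have h1 := congrArg (fun M : Matrix C.Idx C.Idx ℤ => M.map (Int.castRingHom K))
    (C.E_comm_add α β γ h)
  ext a b
  have h2 := congrFun (congrFun h1 a) b
  simp only [Matrix.map_apply, Matrix.sub_apply, Matrix.smul_apply, Matrix.mul_apply,
    map_sub, map_sum, map_mul, smul_eq_mul] at h2 ⊢
  exact h2

theorem T5_bracket (i j : Fin n) (hij : i ≠ j) (k : ℤ) (hk : 1 ≤ k) (A : Matrix C.Idx C.Idx K)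
    (hA : A ∈ C.T5_V K j k) :
    (C.E (C.simple i)).map (Int.cast : ℤ → K) * A -
      A * (C.E (C.simple i)).map (Int.cast : ℤ → K) ∈ C.T5_V K j (k + 1) := by
  unfold T5_V at hA
  induction hA using Submodule.span_induction with
  | mem x hx =>
    obtain ⟨β, hβ, hβj, rfl⟩ := hx
    rcases C.ip_cases (C.simple i) β with h | h | h | h | h
    · rw [C.ip_eq_neg_two_iff] at h
      exfalso
      rw [h, Root.neg_val, ht_neg, C.ht_simple] at hβ
      omega
    · obtain ⟨γ, hγ⟩ := C.exists_add (C.simple i) β h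
      rw [C.T5_map_comm_add (C.simple i) β γ hγ]
      apply Submodule.smul_mem
      apply Submodule.subset_span
      refine ⟨γ, ?_, ?_, rfl⟩
      · rw [hγ, ht_add, C.ht_simple, hβ]
        ring
      · rw [hγ, Pi.add_apply, hβj, simple_val, Pi.single_eq_of_ne hij.symm, add_zero]
    · rw [C.T5_map_comm _ _ (by omega)]
      exact zero_mem _
    · rw [C.T5_map_comm _ _ (by omega)]
      exact zero_mem _
    · rw [C.T5_map_comm _ _ (by omega)]
      exact zero_mem _
  | zero =>
    rw [mul_zero, zero_mul, sub_zero]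
    exact zero_mem _
  | add x y _ _ hx hy =>
    rw [mul_add, add_mul, add_sub_add_comm]
    exact add_mem hx hy
  | smul c x _ hx =>
    rw [mul_smul_comm, smul_mul_assoc, ← smul_sub]
    exact Submodule.smul_mem _ _ hx

theorem T5_ld_mem (j : Fin n) (A : Matrix C.Idx C.Idx K) (hA : C.xi j A = 0) :
    C.ld A ∈ C.T5_V K j 1 := by
  unfold ld
  apply Submodule.sum_mem
  intro i _
  by_cases hij : i = j
  · subst hij
    rw [hA, zero_smul]
    exact zero_mem _
  · apply Submodule.smul_mem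
    apply Submodule.subset_span
    exact ⟨C.simple i, C.ht_simple i, by rw [simple_val, Pi.single_eq_of_ne (Ne.symm hij)], rfl⟩

theorem T5_ld_bracket (j : Fin n) (B : Matrix C.Idx C.Idx K) (hB : C.xi j B = 0) (k : ℤ)
    (hk : 1 ≤ k) (A : Matrix C.Idx C.Idx K) (hA : A ∈ C.T5_V K j k) :
    C.ld B * A - A * C.ld B ∈ C.T5_V K j (k + 1) := by
  unfold ld
  rw [Finset.sum_mul, Finset.mul_sum, ← Finset.sum_sub_distrib]
  apply Submodule.sum_mem
  intro i _
  by_cases hij : i = j
  · subst hij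
    rw [hB, zero_smul, zero_mul, mul_zero, sub_zero]
    exact zero_mem _
  · rw [mul_smul_comm, smul_mul_assoc, ← smul_sub]
    apply Submodule.smul_mem
    exact C.T5_bracket i j hij k hk A hA

theorem T5_iad (j : Fin n) (l : List (Matrix C.Idx C.Idx K)) (hl : ∀ B ∈ l, C.xi j B = 0) :
    ∀ (k : ℤ), 1 ≤ k → ∀ A ∈ C.T5_V K j k, iad A (l.map C.ld) ∈ C.T5_V K j (k + l.length) := by
  induction l with
  | nil =>
    intro k _ A hA
    simpa [iad] using hA
  | cons B l ih =>
    intro k hk A hA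
    have h1 := C.T5_ld_bracket j B (hl B List.mem_cons_self) k hk A hA
    have h2 := ih (fun B' hB' => hl B' (List.mem_cons_of_mem _ hB')) (k + 1) (by omega) _ h1
    have e : iad A ((B :: l).map C.ld) = iad (C.ld B * A - A * C.ld B) (l.map C.ld) := rfl
    rw [e, List.length_cons]
    have e2 : k + ((l.length + 1 : ℕ) : ℤ) = k + 1 + (l.length : ℤ) := by push_cast; ring
    rw [e2]
    exact h2

theorem iad_eq_zero (θ : C.Root) (hθ : C.IsHighest θ) (j : Fin n) (A : Matrix C.Idx C.Idx K)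
    (l : List (Matrix C.Idx C.Idx K)) (hA : C.xi j A = 0) (hl : ∀ B ∈ l, C.xi j B = 0)
    (hlen : (l.length : ℤ) + 1 = ht θ.1) : iad (C.ld A) (l.map C.ld) = 0 := by
  have h1 := C.T5_iad j l hl 1 le_rfl (C.ld A) (C.T5_ld_mem j A hA)
  have e : (1 : ℤ) + l.length = ht θ.1 := by omega
  rw [e] at h1
  unfold T5_V at h1
  have e2 : {M : Matrix C.Idx C.Idx K | ∃ β : C.Root, ht β.1 = ht θ.1 ∧ β.1 j = 0 ∧
      M = (C.E β).map (Int.cast : ℤ → K)} = ∅ := by
    rw [Set.eq_empty_iff_forall_notMem]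
    rintro M ⟨β, hβ, hβj, -⟩
    have h2 := hθ.uniq β hβ
    have h3 := hθ.full j
    rw [← h2] at h3
    omega
  rw [e2, Submodule.span_empty, Submodule.mem_bot] at h1
  exact h1

end SLC

end Pool.Agent.H75.UL
end

section
/- module Pool.Agent.H86.UL.K1 -/
/-!
# Project UL, module K1: the torus trick

`S` a Steinberg system over an infinite field `k` in `H`, `ρ` a representation of `H` on a finite
dimensional space `V` over an algebraically closed field `L` (no relation between `k` and `L`). Then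
each `ρ (x_β(t))` is unipotent.

Proof. By strong induction on `finrank V` (over all `V` in the universe, and for all `ρ`); `V = 0`
trivial. Write `a t = ρ (x_β(t))` (commuting operators with `a (s + t) = a s * a t`, `a 0 = 1`) and
`τ s = ρ (hh S.x β s)`, `s ≠ 0`: `τ s * a t = a (s ^ 2 * t) * τ s` (`StSys.h_conj` with
`ip β β = 2`, `C.Root.norm`).
(1) For `χ : k → L` let `V_χ = {v | a t v = χ t • v for all t}`. Some `χ` has `V_χ ≠ 0`: take a
nonzero subspace `W` invariant under all `a t` of minimal dimension; an eigenspace of `a t` in `W`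
(`L` algebraically closed) is invariant under all `a t'` (they commute), so equals `W`; so each `a t`
is a scalar `χ t` on `W`.
(2) There are only finitely many `χ` with `V_χ ≠ 0`: vectors `v_χ ∈ V_χ` nonzero for distinct `χ` are
linearly independent (standard; or: if `χ ≠ χ'` then some `t` has `χ t ≠ χ' t`; shortest relation
argument), so there are at most `finrank V` of them.
(3) `τ s` maps `V_χ` onto `V_χ'` with `χ' t = χ (s⁻¹ ^ 2 * t)`; so all the functions
`t ↦ χ (s ^ 2 * t)`, `s ≠ 0`, are in the finite set of (2). `k` is infinite, so there are `s, s' ≠ 0`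
with `s ^ 2 ≠ s' ^ 2` and `χ (s ^ 2 * t) = χ (s' ^ 2 * t)` for all `t` (the map `s ↦ χ (s ^ 2 * ·)` has
a fibre that is infinite, and `s ^ 2` takes infinitely many values on it). As
`χ (t + t') = χ t * χ t'`, `χ t ≠ 0`: `χ ((s ^ 2 - s' ^ 2) * t) = 1` for all `t`, so `χ = 1`.
(4) So `V₁ := {v | a t v = v for all t} ≠ 0`. It is invariant under all `a t`, `τ s`. To have an
action of a group on the quotient `V ⧸ V₁` apply the induction to the statement for families, i.e.
prove by induction the abstract statement `torus_trick` below, where only operators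
`a : k → End V`, `τ : kˣ → End V` with `a (s+t) = a s * a t`, `a 0 = 1`, `τ s` invertible (injective)
and `τ s * a t = a (s ^ 2 * t) * τ s` occur: they induce such a family on `V ⧸ V₁` (`mapQ`; `τ s` maps
`V₁` to `V₁` and is injective on the finite dimensional `V₁`, so onto `V₁`, so the induced map is
injective). By induction all `a t` are unipotent on `V ⧸ V₁`, and they are `1` on `V₁`, so they are
unipotent on `V`.
-/

set_option autoImplicit false
open Matrix

universe v

namespace Pool.Agent.H75.UL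

private theorem K1_last {L V : Type*} [Field L] [AddCommGroup V] [Module L V]
    (f : Module.End L V) (v : V) (hv : v ≠ 0) (k : ℕ) (hk : (f ^ k) v = 0) :
    ∃ j, (f ^ j) v ≠ 0 ∧ f ((f ^ j) v) = 0 := by
  classical
  have hex : ∃ k, (f ^ k) v = 0 := ⟨k, hk⟩
  have h0 : Nat.find hex ≠ 0 := by
    intro h
    have h1 := Nat.find_spec hex
    rw [h, pow_zero, Module.End.one_apply] at h1
    exact hv h1
  obtain ⟨j, hj⟩ := Nat.exists_eq_succ_of_ne_zero h0
  refine ⟨j, Nat.find_min hex (by omega), ?_⟩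
  have h1 := Nat.find_spec hex
  rw [hj, Nat.succ_eq_add_one, pow_succ', Module.End.mul_apply] at h1
  exact h1

private theorem K1_mul {L V : Type*} [Field L] [AddCommGroup V] [Module L V]
    (A B : Module.End L V) (hAB : A * B = B * A) (μ ν ξ : L) (v : V) (hv : v ≠ 0)
    (h1 : ∃ k : ℕ, ((A - μ • (1 : Module.End L V)) ^ k) v = 0)
    (h2 : ∃ k : ℕ, ((B - ν • (1 : Module.End L V)) ^ k) v = 0)
    (h3 : ∃ k : ℕ, ((A * B - ξ • (1 : Module.End L V)) ^ k) v = 0) : ξ = μ * ν := by
  obtain ⟨k, hk⟩ := h1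
  obtain ⟨l, hl⟩ := h2
  obtain ⟨m, hm⟩ := h3
  have hcAB : Commute A B := hAB
  have hs : ∀ (X : Module.End L V) (c : L), Commute X (c • (1 : Module.End L V)) :=
    fun X c => (Commute.one_right X).smul_right c
  have hs' : ∀ (X : Module.End L V) (c : L), Commute (c • (1 : Module.End L V)) X :=
    fun X c => (hs X c).symm
  set P := A - μ • (1 : Module.End L V) with hP
  set Q := B - ν • (1 : Module.End L V) with hQ
  set R := A * B - ξ • (1 : Module.End L V) with hR
  have hPQ : Commute P Q := (hcAB.sub_right (hs _ _)).sub_left ((hs' _ _).sub_right (hs' _ _))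
  have hAP : Commute A R := ((Commute.refl A).mul_right hcAB).sub_right (hs _ _)
  have hBR : Commute B R := (hcAB.symm.mul_right (Commute.refl B)).sub_right (hs _ _)
  have hPR : Commute P R := hAP.sub_left (hs' _ _)
  have hQR : Commute Q R := hBR.sub_left (hs' _ _)
  obtain ⟨i, hi1, hi2⟩ := K1_last P v hv k hk
  have hl' : (Q ^ l) ((P ^ i) v) = 0 := by
    rw [← Module.End.mul_apply, ← (hPQ.pow_pow i l).eq, Module.End.mul_apply, hl, map_zero]
  obtain ⟨j, hj1, hj2⟩ := K1_last Q _ hi1 l hl'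
  set w := (Q ^ j) ((P ^ i) v) with hw
  have hPw : P w = 0 := by
    rw [hw, ← Module.End.mul_apply, (hPQ.pow_right j).eq, Module.End.mul_apply, hi2, map_zero]
  have hRw : (R ^ m) w = 0 := by
    rw [hw, ← Module.End.mul_apply, ← (hQR.pow_pow j m).eq, Module.End.mul_apply,
      ← Module.End.mul_apply (R ^ m), ← (hPR.pow_pow i m).eq, Module.End.mul_apply, hm, map_zero,
      map_zero]
  have hAw : A w = μ • w := by
    have := hPw
    rw [hP, LinearMap.sub_apply, LinearMap.smul_apply, Module.End.one_apply, sub_eq_zero] at this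
    exact this
  have hBw : B w = ν • w := by
    have := hj2
    rw [hQ, LinearMap.sub_apply, LinearMap.smul_apply, Module.End.one_apply, sub_eq_zero] at this
    exact this
  have hRw1 : ∀ c : L, R (c • w) = ((μ * ν - ξ) * c) • w := by
    intro c
    rw [hR, LinearMap.sub_apply, LinearMap.smul_apply, Module.End.one_apply, Module.End.mul_apply,
      map_smul, hBw, map_smul, map_smul, hAw]
    module
  have hRm : ∀ m : ℕ, (R ^ m) w = (μ * ν - ξ) ^ m • w := by
    intro m
    induction m with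
    | zero => simp
    | succ m ih => rw [pow_succ', Module.End.mul_apply, ih, hRw1, pow_succ']
  rw [hRm] at hRw
  have h4 := (smul_eq_zero.mp hRw).resolve_right hj1
  have h6 : μ * ν - ξ = 0 := by
    by_contra hne
    exact pow_ne_zero m hne h4
  exact (sub_eq_zero.mp h6).symm

theorem torus_trick {k L : Type*} [Field k] [Infinite k] [Field L] [IsAlgClosed L] (V : Type v)
    [AddCommGroup V] [Module L V] [FiniteDimensional L V] (a : k → Module.End L V)
    (τ : k → Module.End L V) (h0 : a 0 = 1) (hadd : ∀ s t, a (s + t) = a s * a t)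
    (hτ : ∀ s, s ≠ 0 → Function.Injective (τ s))
    (hc : ∀ s t, s ≠ 0 → τ s * a t = a (s ^ 2 * t) * τ s) (t : k) : IsNilpotent (a t - 1) := by
  classical
  have hcomm : ∀ s t, a s * a t = a t * a s := fun s t => by rw [← hadd, add_comm, hadd]
  set G : (k → L) → Submodule L V := fun χ => ⨅ i, (a i).maxGenEigenspace (χ i) with hG
  have hmem : ∀ (χ : k → L) (w : V), w ∈ G χ ↔
      ∀ j, ∃ m : ℕ, ((a j - χ j • (1 : Module.End L V)) ^ m) w = 0 := fun χ w =>
    Module.End.mem_iInf_maxGenEigenspace_iff a χ w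
  have htop : ⨆ χ, G χ = ⊤ :=
    Module.End.iSup_iInf_maxGenEigenspace_eq_top_of_iSup_maxGenEigenspace_eq_top_of_commute a
      (fun i j _ => hcomm i j) (fun i => Module.End.iSup_maxGenEigenspace_eq_top (a i))
  have hind : iSupIndep G := Module.End.independent_iInf_maxGenEigenspace_of_forall_mapsTo a
    (fun i j φ => Module.End.mapsTo_maxGenEigenspace_of_comm (hcomm j i) φ)
  have hfin : {χ | G χ ≠ ⊥}.Finite := WellFoundedGT.finite_ne_bot_of_iSupIndep hind
  -- characters
  have hchar : ∀ χ, G χ ≠ ⊥ → (∀ s t, χ (s + t) = χ s * χ t) ∧ χ 0 = 1 := by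
    intro χ hχ
    obtain ⟨w, hw, hw0⟩ := Submodule.exists_mem_ne_zero_of_ne_bot hχ
    rw [hmem] at hw
    have h1 : ∀ s t, χ (s + t) = χ s * χ t := by
      intro s t
      refine K1_mul (a s) (a t) (hcomm s t) _ _ _ w hw0 (hw s) (hw t) ?_
      rw [← hadd]
      exact hw (s + t)
    refine ⟨h1, ?_⟩
    obtain ⟨m, hm⟩ := hw 0
    rw [h0] at hm
    have h2 : ∀ m : ℕ, (((1 : Module.End L V) - χ 0 • (1 : Module.End L V)) ^ m) w
        = (1 - χ 0) ^ m • w := by
      intro m
      induction m with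
      | zero => simp
      | succ m ih =>
        rw [pow_succ', Module.End.mul_apply, ih, LinearMap.sub_apply, LinearMap.smul_apply,
          Module.End.one_apply, pow_succ']
        module
    rw [h2] at hm
    have h3 := (smul_eq_zero.mp hm).resolve_right hw0
    have h4 : 1 - χ 0 = 0 := by
      by_contra hne
      exact pow_ne_zero m hne h3
    exact (sub_eq_zero.mp h4).symm
  -- the torus permutes the characters
  have hperm : ∀ χ, G χ ≠ ⊥ → ∀ s : k, s ≠ 0 → G (fun u => χ (s⁻¹ ^ 2 * u)) ≠ ⊥ := by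
    intro χ hχ s hs
    obtain ⟨w, hw, hw0⟩ := Submodule.exists_mem_ne_zero_of_ne_bot hχ
    rw [hmem] at hw
    refine (Submodule.ne_bot_iff _).mpr ⟨τ s w, ?_, ?_⟩
    · rw [hmem]
      intro u
      obtain ⟨m, hm⟩ := hw (s⁻¹ ^ 2 * u)
      refine ⟨m, ?_⟩
      have h1 : s ^ 2 * (s⁻¹ ^ 2 * u) = u := by
        field_simp
      have h2 := hc s (s⁻¹ ^ 2 * u) hs
      rw [h1] at h2
      have h3 : SemiconjBy (τ s) (a (s⁻¹ ^ 2 * u) - χ (s⁻¹ ^ 2 * u) • (1 : Module.End L V))
          (a u - χ (s⁻¹ ^ 2 * u) • (1 : Module.End L V)) := by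
        refine SemiconjBy.sub_right h2 ?_
        unfold SemiconjBy
        rw [mul_smul_comm, smul_mul_assoc, mul_one, one_mul]
      have h4 := (h3.pow_right m).eq
      have h5 := congrArg (fun f : Module.End L V => f w) h4
      simp only [Module.End.mul_apply] at h5
      rw [hm, map_zero] at h5
      exact h5.symm
    · intro h
      exact hw0 (hτ s hs (by rw [h, map_zero]))
  have hone : ∀ χ, G χ ≠ ⊥ → χ = fun _ => 1 := by
    intro χ hχ
    obtain ⟨hm, hz⟩ := hchar χ hχ
    have : Finite {χ | G χ ≠ ⊥} := hfin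
    have : Infinite {s : k // s ≠ 0} := by
      have h1 : ({0}ᶜ : Set k).Infinite := (Set.finite_singleton (0 : k)).infinite_compl
      exact h1.to_subtype
    obtain ⟨y, hy⟩ := Finite.exists_infinite_fiber
      (fun s : {s : k // s ≠ 0} =>
        (⟨fun u => χ (s.1⁻¹ ^ 2 * u), hperm χ hχ s.1 s.2⟩ : {χ | G χ ≠ ⊥}))
    have hy' := Set.infinite_coe_iff.mp hy
    obtain ⟨s, hs⟩ := hy'.nonempty
    obtain ⟨s', hs', hne⟩ := hy'.exists_notMem_finset
      ({s, ⟨-s.1, neg_ne_zero.mpr s.2⟩} : Finset {s : k // s ≠ 0})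
    have hss : s.1⁻¹ ^ 2 - s'.1⁻¹ ^ 2 ≠ 0 := by
      intro h
      have h1 := sub_eq_zero.mp h
      rcases sq_eq_sq_iff_eq_or_eq_neg.mp h1 with h2 | h2
      · apply hne
        have : s' = s := Subtype.ext (inv_injective h2.symm)
        rw [this]
        exact Finset.mem_insert_self _ _
      · apply hne
        have : s' = ⟨-s.1, neg_ne_zero.mpr s.2⟩ := by
          apply Subtype.ext
          apply inv_injective
          change s'.1⁻¹ = (-s.1)⁻¹
          rw [inv_neg, h2, neg_neg]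
        rw [this]
        exact Finset.mem_insert_of_mem (Finset.mem_singleton_self _)
    have heq : ∀ u, χ (s.1⁻¹ ^ 2 * u) = χ (s'.1⁻¹ ^ 2 * u) := by
      intro u
      have h1 : (fun u => χ (s.1⁻¹ ^ 2 * u)) = fun u => χ (s'.1⁻¹ ^ 2 * u) := by
        have e1 := congrArg Subtype.val (Set.mem_singleton_iff.mp (Set.mem_preimage.mp hs))
        have e2 := congrArg Subtype.val (Set.mem_singleton_iff.mp (Set.mem_preimage.mp hs'))
        exact e1.trans e2.symm
      exact congrFun h1 u
    have hnz : ∀ u, χ u ≠ 0 := by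
      intro u h
      have h1 := hm u (-u)
      rw [add_neg_cancel, hz, h, zero_mul] at h1
      exact one_ne_zero h1
    funext w
    set c := s.1⁻¹ ^ 2 - s'.1⁻¹ ^ 2 with hcdef
    have h1 := heq (c⁻¹ * w)
    have h2 : s.1⁻¹ ^ 2 * (c⁻¹ * w) = s'.1⁻¹ ^ 2 * (c⁻¹ * w) + w := by
      have h3 : s.1⁻¹ ^ 2 = s'.1⁻¹ ^ 2 + c := by rw [hcdef]; ring
      rw [h3, add_mul, ← mul_assoc c, mul_inv_cancel₀ hss, one_mul]
    rw [h2, hm] at h1
    have h3 := mul_left_cancel₀ (hnz _) (h1.trans (mul_one _).symm)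
    exact h3
  have hG1 : G (fun _ => 1) = ⊤ := by
    rw [eq_top_iff, ← htop]
    refine iSup_le fun χ => ?_
    by_cases h : G χ = ⊥
    · rw [h]
      exact bot_le
    · rw [hone χ h]
  have h1 : (a t).maxGenEigenspace 1 = ⊤ := by
    rw [eq_top_iff, ← hG1]
    exact iInf_le (fun i => (a i).maxGenEigenspace (1 : L)) t
  rw [Module.End.maxGenEigenspace_eq_genEigenspace_finrank, Module.End.genEigenspace_nat] at h1
  refine ⟨Module.finrank L V, ?_⟩
  rw [LinearMap.ker_eq_top] at h1
  rw [one_smul] at h1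
  exact h1

theorem root_unipotent {n : ℕ} {C : SLC n} {k : Type*} [Field k] [Infinite k] {H : Type*} [Group H]
    (S : StSys C k H) {L V : Type*} [Field L] [IsAlgClosed L] [AddCommGroup V] [Module L V]
    [FiniteDimensional L V] (ρ : H →* Module.End L V) (β : C.Root) (t : k) :
    IsNilpotent (ρ (S.x β t) - 1) := by
  refine torus_trick V (fun t => ρ (S.x β t)) (fun s => ρ (hh S.x β s)) ?_ ?_ ?_ ?_ t
  · rw [S.x_zero, map_one]
  · intro s t
    rw [S.map_add, map_mul]
  · intro s _ v w h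
    have h1 : ∀ v : V, ρ (hh S.x β s)⁻¹ (ρ (hh S.x β s) v) = v := by
      intro v
      rw [← Module.End.mul_apply, ← map_mul, inv_mul_cancel, map_one, Module.End.one_apply]
    rw [← h1 v, ← h1 w]
    exact congrArg _ h
  · intro s t hs
    rw [← map_mul, ← map_mul]
    congr 1
    have h1 := S.h_conj β β s t hs
    rw [β.norm] at h1
    rw [← zpow_natCast, ← mul_inv_eq_iff_eq_mul]
    exact h1

end Pool.Agent.H75.UL
end

section
/- module Pool.Agent.H86.UL.K2 -/
/-!
# Project UL, module K2: the images of the elements of `U` are unipotent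

Proof. `V = C.Idx → L`, `a (β, t) = (ρ (x_β(t))).mulVecLin` for positive roots `β` (index type
`ι = {β // C.Pos β} × k`), `ht (β, t) = (ht β).toNat`. They are unipotent by `root_unipotent` (`ρ`
composed with `Matrix.toLin'`, `GL → End`). `hbr` of
`H62.CA.FixedVec`: for positive `β, γ`: if `ip β γ ≥ 0` they commute (`S.comm`), if `ip β γ = -1` then
`δ = β + γ` is a root, `S.comm_add` gives `x β s * x γ t = x δ (..) * (x γ t * x β s)`, and the height of
`δ` is larger; `ip β γ = -2` means `γ = -β`, impossible for positive roots.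
By `Pool.Agent.H62.CA.span_sub_ne` on every nonzero invariant subspace `W` the span of all
`a x w - w`, `w ∈ W`, is not `W` (it is contained in `W`, and invariant). Define `W 0 = ⊤`,
`W (j+1) = span {a x w - w | x, w ∈ W j}`: a decreasing chain of invariant subspaces, strictly
decreasing as long as it is nonzero, so `W N = ⊥` with `N = finrank V`. For `u ∈ S.U 1`, which is
generated by the `x_β(t)` with `1 ≤ ht β` (closure induction; an inverse `x_β(t)⁻¹` is `x_β(-t)`;
products: `g h w - w = g (h w - w) + (g w - w)`, and `g` preserves `W (j+1)`): `ρ u w - w ∈ W (j+1)`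
for all `w ∈ W j`. Hence `(ρ u - 1) ^ N = 0`.
-/

set_option autoImplicit false
open Matrix

namespace Pool.Agent.H75.UL
/-- the chain of subspaces -/
private noncomputable def K2_W {L V ι : Type*} [Field L] [AddCommGroup V] [Module L V]
    (a : ι → V →ₗ[L] V) : ℕ → Submodule L V
  | 0 => ⊤
  | j + 1 => Submodule.span L {v : V | ∃ x, ∃ w ∈ K2_W a j, v = a x w - w}

private theorem K2_mem {L V ι : Type*} [Field L] [AddCommGroup V] [Module L V]
    (a : ι → V →ₗ[L] V) (j : ℕ) (x : ι) (w : V) (hw : w ∈ K2_W a j) :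
    a x w - w ∈ K2_W a (j + 1) :=
  Submodule.subset_span ⟨x, w, hw, rfl⟩

private theorem K2_inv {L V ι : Type*} [Field L] [AddCommGroup V] [Module L V]
    (a : ι → V →ₗ[L] V) (j : ℕ) :
    (∀ x, ∀ w ∈ K2_W a j, a x w ∈ K2_W a j) ∧ K2_W a (j + 1) ≤ K2_W a j := by
  induction j with
  | zero => exact ⟨fun _ _ _ => trivial, fun _ _ => trivial⟩
  | succ j ih =>
    obtain ⟨_, h2⟩ := ih
    have h3 : ∀ x, ∀ w ∈ K2_W a (j + 1), a x w ∈ K2_W a (j + 1) := by
      intro x w hw
      have h4 := K2_mem a j x w (h2 hw)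
      have h5 := (K2_W a (j + 1)).add_mem h4 hw
      rwa [sub_add_cancel] at h5
    refine ⟨h3, ?_⟩
    refine Submodule.span_le.2 ?_
    rintro v ⟨x, w, hw, rfl⟩
    exact (K2_W a (j + 1)).sub_mem (h3 x w hw) hw

private theorem K2_exists_bot {L V ι : Type*} [Field L] [AddCommGroup V] [Module L V]
    [FiniteDimensional L V] (a : ι → V →ₗ[L] V)
    (h : ∀ j, K2_W a j ≠ ⊥ → K2_W a (j + 1) ≠ K2_W a j) : ∃ j, K2_W a j = ⊥ := by
  by_contra hc
  push Not at hc
  have h1 : ∀ j, Module.finrank L (K2_W a j) + j ≤ Module.finrank L V := by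
    intro j
    induction j with
    | zero => simpa using Submodule.finrank_le (K2_W a 0)
    | succ j ih =>
      have h2 : K2_W a (j + 1) < K2_W a j := lt_of_le_of_ne (K2_inv a j).2 (h j (hc j))
      have h3 := Submodule.finrank_lt_finrank_of_lt h2
      omega
  have h2 := h1 (Module.finrank L V + 1)
  omega

theorem K2_abs {n : ℕ} {C : SLC n} {k : Type*} [Field k] [Infinite k] {H : Type*} [Group H]
    (S : StSys C k H) {L V : Type*} [Field L] [IsAlgClosed L] [AddCommGroup V] [Module L V]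
    [FiniteDimensional L V] (ρ : H →* Module.End L V) (u : H) (hu : u ∈ S.U 1) :
    IsNilpotent (ρ u - 1) := by
  classical
  let ι : Type _ := {β : C.Root // C.Pos β} × k
  let a : ι → V →ₗ[L] V := fun x => ρ (S.x x.1.1 x.2)
  let b : ι → V →ₗ[L] V := fun x => ρ (S.x x.1.1 x.2)⁻¹
  have hab : ∀ x, a x * b x = 1 := by
    intro x
    show ρ (S.x x.1.1 x.2) * ρ (S.x x.1.1 x.2)⁻¹ = 1
    rw [← map_mul, mul_inv_cancel, map_one]
  have hnil : ∀ x, IsNilpotent (a x - 1) := fun x => root_unipotent S ρ x.1.1 x.2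
  let hgt : ι → ℕ := fun x => (ht x.1.1.1).toNat
  have hN : ∀ x, hgt x ≤ Finset.univ.sup (fun β : C.Root => (ht β.1).toNat) := fun x =>
    Finset.le_sup (f := fun β : C.Root => (ht β.1).toNat) (Finset.mem_univ x.1.1)
  have hbr : ∀ x y, a x * a y = a y * a x ∨
      ∃ z, hgt x < hgt z ∧ hgt y < hgt z ∧ a x * a y = a z * (a y * a x) := by
    intro x y
    have px : 0 < ht x.1.1.1 := x.1.2
    have py : 0 < ht y.1.1.1 := y.1.2
    rcases lt_or_ge (C.ip x.1.1.1 y.1.1.1) 0 with h | h
    · right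
      have h2 := C.neg_two_le_ip x.1.1 y.1.1
      have h3 : C.ip x.1.1.1 y.1.1.1 ≠ -2 := by
        intro h4
        rw [C.ip_eq_neg_two_iff] at h4
        have h5 : ht y.1.1.1 = - ht x.1.1.1 := by
          rw [h4]
          unfold ht
          simp
        omega
      have h4 : C.ip x.1.1.1 y.1.1.1 = -1 := by omega
      obtain ⟨δ, hδ⟩ := C.exists_add x.1.1 y.1.1 h4
      have h5 : ht δ.1 = ht x.1.1.1 + ht y.1.1.1 := by
        rw [hδ]
        unfold ht
        simp [Finset.sum_add_distrib]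
      have h6 : C.Pos δ := by
        show 0 < ht δ.1
        omega
      refine ⟨(⟨δ, h6⟩, C.eps x.1.1.1 y.1.1.1 * x.2 * y.2), ?_, ?_, ?_⟩
      · show (ht x.1.1.1).toNat < (ht δ.1).toNat
        omega
      · show (ht y.1.1.1).toNat < (ht δ.1).toNat
        omega
      · have h7 := S.comm_add x.1.1 y.1.1 δ x.2 y.2 hδ
        rw [mul_inv_eq_iff_eq_mul, mul_inv_eq_iff_eq_mul, mul_assoc] at h7
        show ρ (S.x x.1.1 x.2) * ρ (S.x y.1.1 y.2) =
          ρ (S.x δ (C.eps x.1.1.1 y.1.1.1 * x.2 * y.2)) * (ρ (S.x y.1.1 y.2) * ρ (S.x x.1.1 x.2))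
        rw [← map_mul, ← map_mul, ← map_mul, h7]
    · left
      show ρ (S.x x.1.1 x.2) * ρ (S.x y.1.1 y.2) = ρ (S.x y.1.1 y.2) * ρ (S.x x.1.1 x.2)
      rw [← map_mul, ← map_mul, S.comm _ _ _ _ h]
  obtain ⟨N, hbot⟩ := K2_exists_bot a (fun j hj =>
    Pool.Agent.H62.CA.span_sub_ne a b hab hnil hgt _ hN hbr (K2_W a j) hj (K2_inv a j).1)
  -- the elements of `U` act trivially on the quotients
  have hle := fun j => (K2_inv a j).2
  have key : ∀ g ∈ S.U 1, ∀ j, ∀ w ∈ K2_W a j,
      ρ g w - w ∈ K2_W a (j + 1) ∧ ρ g⁻¹ w - w ∈ K2_W a (j + 1) := by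
    intro g hg
    unfold StSys.U at hg
    induction hg using Subgroup.closure_induction with
    | mem g hg =>
      obtain ⟨β, t, h1, rfl⟩ := hg
      have hpos : C.Pos β := by
        show 0 < ht β.1
        omega
      intro j w hw
      refine ⟨K2_mem a j (⟨β, hpos⟩, t) w hw, ?_⟩
      rw [← S.x_neg β t]
      exact K2_mem a j (⟨β, hpos⟩, -t) w hw
    | one =>
      intro j w hw
      rw [inv_one, map_one, Module.End.one_apply, sub_self]
      exact ⟨Submodule.zero_mem _, Submodule.zero_mem _⟩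
    | mul g h _ _ ig ih =>
      intro j w hw
      have aux : ∀ g h : H, (∀ w ∈ K2_W a j, ρ g w - w ∈ K2_W a (j + 1)) →
          (∀ w ∈ K2_W a j, ρ h w - w ∈ K2_W a (j + 1)) → ρ (g * h) w - w ∈ K2_W a (j + 1) := by
        intro g h hg hh
        have h1 := hh w hw
        have h2 : ρ h w ∈ K2_W a j := by
          have h3 := (K2_W a j).add_mem (hle j h1) hw
          rwa [sub_add_cancel] at h3
        have h3 := hg _ h2
        have h4 := (K2_W a (j + 1)).add_mem h3 h1
        rw [sub_add_sub_cancel] at h4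
        rw [map_mul, Module.End.mul_apply]
        exact h4
      refine ⟨aux g h (fun w hw => (ig j w hw).1) (fun w hw => (ih j w hw).1), ?_⟩
      rw [_root_.mul_inv_rev]
      exact aux h⁻¹ g⁻¹ (fun w hw => (ih j w hw).2) (fun w hw => (ig j w hw).2)
    | inv g _ ig =>
      intro j w hw
      rw [inv_inv]
      exact ⟨(ig j w hw).2, (ig j w hw).1⟩
  have hpow : ∀ j, ∀ w : V, ((ρ u - 1 : Module.End L V) ^ j) w ∈ K2_W a j := by
    intro j
    induction j with
    | zero => intro w; trivial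
    | succ j ih =>
      intro w
      rw [pow_succ', Module.End.mul_apply, LinearMap.sub_apply, Module.End.one_apply]
      exact (key u hu j _ (ih w)).1
  refine ⟨N, ?_⟩
  apply LinearMap.ext
  intro w
  have h1 := hpow N w
  rw [hbot, Submodule.mem_bot] at h1
  rw [h1]
  rfl

namespace SLC
variable {n : ℕ} (C : SLC n)

theorem unipotent_image' {k : Type*} [Field k] [Infinite k] {H : Type*} [Group H]
    (S : StSys C k H) (L : Type*) [Field L] [IsAlgClosed L] (ρ : H →* GL C.Idx L) (u : H)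
    (hu : u ∈ S.U 1) : IsNilpotent ((ρ u : Matrix C.Idx C.Idx L) - 1) := by
  classical
  let e : Matrix C.Idx C.Idx L ≃ₐ[L] Module.End L (C.Idx → L) := Matrix.toLinAlgEquiv'
  let ρ' : H →* Module.End L (C.Idx → L) :=
    (e : Matrix C.Idx C.Idx L →* Module.End L (C.Idx → L)).comp ((Units.coeHom _).comp ρ)
  have h1 : IsNilpotent (ρ' u - 1) := K2_abs S ρ' u hu
  have h2 : e ((ρ u : Matrix C.Idx C.Idx L) - 1) = ρ' u - 1 := by
    rw [map_sub, map_one]
    rfl
  rw [← h2] at h1
  have h3 := h1.map e.symm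
  rwa [AlgEquiv.symm_apply_apply] at h3

end SLC
end Pool.Agent.H75.UL
end

section
/- module Pool.Agent.H86.UM.Poly -/
/-!
# Project UM, module Poly: polynomial maps

`IsPoly d f`: `f : A → F` (`A` an abelian group) has vanishing iterated differences of order `d + 1`:
`IsPoly 0 f` iff `f` is constant, `IsPoly (d+1) f` iff `s ↦ f (s + x) - f s` is `IsPoly d` for all `x`.

Proofs.
* `IsPoly.mono`, `IsPoly.shift` (`s ↦ f (s + x)`), `IsPoly.add`, `IsPoly.sub`, `IsPoly.const`: induction.
* `IsPoly.mul`: induction on `d + e`; `D_x (f g)(s) = D_x f(s) * g (s + x) + f s * D_x g(s)`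
  (if `d = 0` or `e = 0` one factor is constant).
* `IsPoly.of_add`: an additive map is `IsPoly 1`.
* `IsPoly.pow`, `IsPoly.prod`: induction.
* `IsPoly.comp_pow`: `Φ : k → F` additive, `k` a commutative ring: `s ↦ Φ (c * s ^ i)` is `IsPoly i`, by
  strong induction on `i` (for all `c`): `c (s + x)^i - c s^i = ∑_{j<i} c binom(i,j) x^(i-j) s^j`.
* `IsPoly.eq_const`: `A` infinite, `f s = c` for all `s` outside a finite set implies `f s = c` for all
  `s`. Induction on `d`: `d = 0` clear (`A` infinite). `d + 1`: for each `x` the function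
  `D_x f` is `IsPoly d` and is `0` outside a finite set (`B ∪ (B - x)`), so it is `0` everywhere; so `f`
  is constant.
* `IsPoly.not_one`: if `k` is an infinite field, `f : k → F` is `IsPoly d` and `f 0 = 0` then there is
  `s ≠ 0` with `f s ≠ 1`.
-/

set_option autoImplicit false

namespace Pool.Agent.H86.UM

/-- Polynomial maps of degree at most `d`. -/
def IsPoly {A F : Type*} [AddCommGroup A] [CommRing F] : ℕ → (A → F) → Prop
  | 0, f => ∀ s t, f s = f t
  | d + 1, f => ∀ x, IsPoly d (fun s => f (s + x) - f s)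

namespace IsPoly
variable {A F : Type*} [AddCommGroup A] [CommRing F]

theorem const (d : ℕ) (c : F) : IsPoly d (fun _ : A => c) := by
  induction d generalizing c with
  | zero => exact fun _ _ => rfl
  | succ d ih =>
    intro x
    show IsPoly d (fun _ : A => c - c)
    rw [sub_self]
    exact ih 0

private theorem poly_succ {d : ℕ} {f : A → F} (hf : IsPoly d f) : IsPoly (d + 1) f := by
  induction d generalizing f with
  | zero =>
    intro x s t
    have h1 : f (s + x) = f s := hf _ _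
    have h2 : f (t + x) = f t := hf _ _
    show f (s + x) - f s = f (t + x) - f t
    rw [h1, h2, sub_self, sub_self]
  | succ d ih =>
    intro x
    exact ih (hf x)

theorem mono {d e : ℕ} (h : d ≤ e) {f : A → F} (hf : IsPoly d f) : IsPoly e f := by
  induction e, h using Nat.le_induction with
  | base => exact hf
  | succ e _ ih => exact poly_succ ih

theorem shift {d : ℕ} {f : A → F} (hf : IsPoly d f) (x : A) : IsPoly d (fun s => f (s + x)) := by
  induction d generalizing f with
  | zero => exact fun s t => hf _ _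
  | succ d ih =>
    intro y
    have h := ih (hf y)
    have e : (fun s => f (s + y + x) - f (s + x)) = (fun s => f (s + x + y) - f (s + x)) := by
      funext s
      rw [add_right_comm]
    show IsPoly d (fun s => f (s + y + x) - f (s + x))
    rw [e]
    exact h

theorem add {d : ℕ} {f g : A → F} (hf : IsPoly d f) (hg : IsPoly d g) :
    IsPoly d (fun s => f s + g s) := by
  induction d generalizing f g with
  | zero =>
    intro s t
    show f s + g s = f t + g t
    rw [show f s = f t from hf s t, show g s = g t from hg s t]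
  | succ d ih =>
    intro y
    have h := ih (hf y) (hg y)
    have e : (fun s => (f (s + y) + g (s + y)) - (f s + g s)) =
        (fun s => (f (s + y) - f s) + (g (s + y) - g s)) := by
      funext s
      ring
    show IsPoly d (fun s => (f (s + y) + g (s + y)) - (f s + g s))
    rw [e]
    exact h

private theorem poly_cmul {d : ℕ} {f : A → F} (c : F) (hf : IsPoly d f) :
    IsPoly d (fun s => c * f s) := by
  induction d generalizing f with
  | zero =>
    intro s t
    show c * f s = c * f t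
    rw [show f s = f t from hf s t]
  | succ d ih =>
    intro y
    have h := ih (hf y)
    have e : (fun s => c * f (s + y) - c * f s) = (fun s => c * (f (s + y) - f s)) := by
      funext s
      ring
    show IsPoly d (fun s => c * f (s + y) - c * f s)
    rw [e]
    exact h

theorem sub {d : ℕ} {f g : A → F} (hf : IsPoly d f) (hg : IsPoly d g) :
    IsPoly d (fun s => f s - g s) := by
  have h := add hf (poly_cmul (-1) hg)
  have e : (fun s => f s - g s) = (fun s => f s + -1 * g s) := by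
    funext s
    ring
  rw [e]
  exact h

private theorem poly_mul_aux (n : ℕ) : ∀ (d e : ℕ), d + e = n → ∀ {f g : A → F},
    IsPoly d f → IsPoly e g → IsPoly (d + e) (fun s => f s * g s) := by
  induction n with
  | zero =>
    intro d e hde f g hf hg
    obtain rfl : d = 0 := by omega
    obtain rfl : e = 0 := by omega
    intro s t
    show f s * g s = f t * g t
    rw [show f s = f t from hf s t, show g s = g t from hg s t]
  | succ n ih =>
    intro d e hde f g hf hg
    cases d with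
    | zero =>
      have e1 : (fun s => f s * g s) = (fun s => f 0 * g s) := by
        funext s
        rw [show f s = f 0 from hf s 0]
      rw [e1, Nat.zero_add]
      exact poly_cmul _ hg
    | succ d =>
      cases e with
      | zero =>
        have e1 : (fun s => f s * g s) = (fun s => g 0 * f s) := by
          funext s
          rw [show g s = g 0 from hg s 0, mul_comm]
        rw [e1, Nat.add_zero]
        exact poly_cmul _ hf
      | succ e =>
        have e0 : d + 1 + (e + 1) = (d + e + 1) + 1 := by omega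
        rw [e0]
        intro x
        have h1 : IsPoly (d + (e + 1)) (fun s => (f (s + x) - f s) * g (s + x)) :=
          ih d (e + 1) (by omega) (hf x) (shift hg x)
        have h2 : IsPoly (d + 1 + e) (fun s => f s * (g (s + x) - g s)) :=
          ih (d + 1) e (by omega) hf (hg x)
        have h1' : IsPoly (d + e + 1) (fun s => (f (s + x) - f s) * g (s + x)) :=
          mono (by omega) h1
        have h2' : IsPoly (d + e + 1) (fun s => f s * (g (s + x) - g s)) :=
          mono (by omega) h2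
        have h := add h1' h2'
        have e1 : (fun s => f (s + x) * g (s + x) - f s * g s) =
            (fun s => (f (s + x) - f s) * g (s + x) + f s * (g (s + x) - g s)) := by
          funext s
          ring
        show IsPoly (d + e + 1) (fun s => f (s + x) * g (s + x) - f s * g s)
        rw [e1]
        exact h

theorem mul {d e : ℕ} {f g : A → F} (hf : IsPoly d f) (hg : IsPoly e g) :
    IsPoly (d + e) (fun s => f s * g s) :=
  poly_mul_aux (d + e) d e rfl hf hg

theorem of_add {f : A → F} (hf : ∀ s t, f (s + t) = f s + f t) : IsPoly 1 f := by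
  intro x s t
  show f (s + x) - f s = f (t + x) - f t
  rw [hf, hf]
  ring

theorem pow {d : ℕ} {f : A → F} (hf : IsPoly d f) (m : ℕ) : IsPoly (d * m) (fun s => f s ^ m) := by
  induction m with
  | zero =>
    have e : (fun s => f s ^ 0) = (fun _ : A => (1 : F)) := by
      funext s
      simp
    rw [e]
    exact const _ _
  | succ m ih =>
    have h := mul ih hf
    have e : (fun s => f s ^ (m + 1)) = (fun s => f s ^ m * f s) := by
      funext s
      rw [pow_succ]
    rw [e, Nat.mul_succ]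
    exact h

theorem prod {ι : Type*} (S : Finset ι) (d : ι → ℕ) (f : ι → A → F) (hf : ∀ i ∈ S, IsPoly (d i) (f i)) :
    IsPoly (∑ i ∈ S, d i) (fun s => ∏ i ∈ S, f i s) := by
  classical
  induction S using Finset.induction_on with
  | empty =>
    simp only [Finset.sum_empty, Finset.prod_empty]
    exact const _ _
  | insert a S ha ih =>
    simp only [Finset.sum_insert ha, Finset.prod_insert ha]
    exact mul (hf a (Finset.mem_insert_self _ _))
      (ih fun i hi => hf i (Finset.mem_insert_of_mem hi))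

private theorem poly_sum {ι : Type*} (S : Finset ι) (d : ℕ) (f : ι → A → F)
    (hf : ∀ i ∈ S, IsPoly d (f i)) : IsPoly d (fun s => ∑ i ∈ S, f i s) := by
  classical
  induction S using Finset.induction_on with
  | empty =>
    simp only [Finset.sum_empty]
    exact const _ _
  | insert a S ha ih =>
    simp only [Finset.sum_insert ha]
    exact add (hf a (Finset.mem_insert_self _ _))
      (ih fun i hi => hf i (Finset.mem_insert_of_mem hi))

theorem comp_pow {k : Type*} [CommRing k] (Φ : k → F) (hΦ : ∀ s t, Φ (s + t) = Φ s + Φ t) (i : ℕ)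
    (c : k) : IsPoly i (fun s : k => Φ (c * s ^ i)) := by
  induction i using Nat.strong_induction_on generalizing c with
  | _ i ih =>
    cases i with
    | zero =>
      intro s t
      simp
    | succ i =>
      intro x
      have e : (fun s : k => Φ (c * (s + x) ^ (i + 1)) - Φ (c * s ^ (i + 1))) =
          (fun s : k => ∑ j ∈ Finset.range (i + 1),
            Φ (c * x ^ (i + 1 - j) * ((i + 1).choose j : k) * s ^ j)) := by
        funext s
        have h1 : c * (s + x) ^ (i + 1) = (∑ j ∈ Finset.range (i + 1),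
            (c * x ^ (i + 1 - j) * ((i + 1).choose j : k) * s ^ j)) + c * s ^ (i + 1) := by
          rw [add_pow, Finset.sum_range_succ, mul_add, Finset.mul_sum]
          congr 1
          · refine Finset.sum_congr rfl fun j _ => ?_
            ring
          · simp
        have h2 : ∀ S : Finset ℕ, ∀ g : ℕ → k, Φ (∑ j ∈ S, g j) = ∑ j ∈ S, Φ (g j) := by
          intro S g
          exact map_sum (AddMonoidHom.mk' Φ hΦ) g S
        rw [h1, hΦ, h2, add_sub_cancel_right]
      show IsPoly i (fun s : k => Φ (c * (s + x) ^ (i + 1)) - Φ (c * s ^ (i + 1)))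
      rw [e]
      refine poly_sum _ _ _ fun j hj => ?_
      rw [Finset.mem_range] at hj
      exact mono (by omega) (ih j (by omega) _)

theorem eq_const [Infinite A] {d : ℕ} {f : A → F} (hf : IsPoly d f) (B : Set A) (hB : B.Finite)
    (c : F) (h : ∀ s, s ∉ B → f s = c) (s : A) : f s = c := by
  induction d generalizing f B c s with
  | zero =>
    obtain ⟨t, ht⟩ := hB.exists_notMem
    rw [show f s = f t from hf s t]
    exact h t ht
  | succ d ih =>
    have key : ∀ x s, f (s + x) - f s = 0 := by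
      intro x s
      refine ih (f := fun s => f (s + x) - f s) (hf x) (B ∪ (fun s => s - x) '' B)
        (hB.union (hB.image _)) 0 ?_ s
      intro s hs
      have h1 : s ∉ B := fun hh => hs (Or.inl hh)
      have h2 : s + x ∉ B := fun hh => hs (Or.inr ⟨s + x, hh, by simp⟩)
      show f (s + x) - f s = 0
      rw [h _ h1, h _ h2, sub_self]
    obtain ⟨t, ht⟩ := hB.exists_notMem
    have h1 := key (s - t) t
    rw [add_sub_cancel, sub_eq_zero] at h1
    rw [h1]
    exact h t ht

theorem not_one {k : Type*} [Field k] [Infinite k] [Nontrivial F] {d : ℕ} {f : k → F}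
    (hf : IsPoly d f) (h0 : f 0 = 0) : ∃ s, s ≠ 0 ∧ f s ≠ 1 := by
  by_contra hcon
  have h1 : ∀ s, s ∉ ({0} : Set k) → f s = 1 := by
    intro s hs
    by_contra h2
    exact hcon ⟨s, by simpa using hs, h2⟩
  have h2 := eq_const hf {0} (Set.finite_singleton _) 1 h1 0
  rw [h0] at h2
  exact zero_ne_one h2

end IsPoly
end Pool.Agent.H86.UM
end

section
/- module Pool.Agent.H86.UM.KA1 -/
/-!
# Project UM, module KA1: the torus trick with an infinite set of group elements

`V` finite dimensional over an algebraically closed field `L`, `ρ : B →* End V`, `A` a subgroup of `B`,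
`W` a submodule stable under all `ρ b`, on which the operators `ρ x`, `x ∈ A`, commute. `𝒮 ⊆ B`
infinite, `b A b⁻¹ ≤ A` for `b ∈ 𝒮`, such that for all distinct `τ, τ' ∈ 𝒮` and all `w ∈ A` there is
`u ∈ A` with `ρ w = ρ (τ u τ⁻¹ (τ' u τ'⁻¹)⁻¹)` on `W`. Then each `ρ w`, `w ∈ A`, is unipotent on `W`.

Proof (compare `Pool.Agent.H75.UL.torus_trick` in H86/UL/K1.lean, the same argument for a
one-parameter family; it can be adapted). Work with the restrictions `a w : W → W` (`w ∈ A`), a
commuting family of invertible operators on the finite dimensional space `W`. For `χ : A → L` let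
`W_χ` be the intersection of the maximal generalized eigenspaces of `a w` for `χ w`. By Mathlib
(`Module.End.iSup_iInf_maxGenEigenspace_eq_top_of_iSup_maxGenEigenspace_eq_top_of_commute` or the
variant used in K1) `W` is the sum of the `W_χ`, and they are independent; so only finitely many `χ`
have `W_χ ≠ ⊥`. Such a `χ` is multiplicative. `ρ τ` maps `W_χ` to `W_χ'` with
`χ' (τ w τ⁻¹) = χ w`; hence with `χ` also the functions `w ↦ χ (τ⁻¹ w τ)`; to avoid inverses apply this
to ...: the operator `ρ τ⁻¹` maps `W_χ` into `W_χ''` with `χ'' w = χ (τ w τ⁻¹)`. So all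
`w ↦ χ (τ w τ⁻¹)`, `τ ∈ 𝒮`, are in the finite set; `𝒮` is infinite so there are `τ ≠ τ'` in `𝒮` with
`χ (τ u τ⁻¹) = χ (τ' u τ'⁻¹)` for all `u ∈ A`. By the hypothesis every `w ∈ A` acts on `W` as
`τ u τ⁻¹ (τ' u τ'⁻¹)⁻¹`, so `χ w = χ (τ u τ⁻¹) / χ (τ' u τ'⁻¹) = 1`. So `χ = 1` is the only character,
i.e. `a w - 1` is nilpotent on `W` for all `w ∈ A`.
(If `A` is not stable under `τ⁻¹ · τ` nothing else is needed: only `τ A τ⁻¹ ≤ A` is used.)
-/

set_option autoImplicit false

namespace Pool.Agent.H86.UM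

private theorem KA1_last {L V : Type*} [Field L] [AddCommGroup V] [Module L V]
    (f : Module.End L V) (v : V) (hv : v ≠ 0) (k : ℕ) (hk : (f ^ k) v = 0) :
    ∃ j, (f ^ j) v ≠ 0 ∧ f ((f ^ j) v) = 0 := by
  classical
  have hex : ∃ k, (f ^ k) v = 0 := ⟨k, hk⟩
  have h0 : Nat.find hex ≠ 0 := by
    intro h
    have h1 := Nat.find_spec hex
    rw [h, pow_zero, Module.End.one_apply] at h1
    exact hv h1
  obtain ⟨j, hj⟩ := Nat.exists_eq_succ_of_ne_zero h0
  refine ⟨j, Nat.find_min hex (by omega), ?_⟩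
  have h1 := Nat.find_spec hex
  rw [hj, Nat.succ_eq_add_one, pow_succ', Module.End.mul_apply] at h1
  exact h1

private theorem KA1_mul {L V : Type*} [Field L] [AddCommGroup V] [Module L V]
    (A B : Module.End L V) (hAB : A * B = B * A) (μ ν ξ : L) (v : V) (hv : v ≠ 0)
    (h1 : ∃ k : ℕ, ((A - μ • (1 : Module.End L V)) ^ k) v = 0)
    (h2 : ∃ k : ℕ, ((B - ν • (1 : Module.End L V)) ^ k) v = 0)
    (h3 : ∃ k : ℕ, ((A * B - ξ • (1 : Module.End L V)) ^ k) v = 0) : ξ = μ * ν := by
  obtain ⟨k, hk⟩ := h1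
  obtain ⟨l, hl⟩ := h2
  obtain ⟨m, hm⟩ := h3
  have hcAB : Commute A B := hAB
  have hs : ∀ (X : Module.End L V) (c : L), Commute X (c • (1 : Module.End L V)) :=
    fun X c => (Commute.one_right X).smul_right c
  have hs' : ∀ (X : Module.End L V) (c : L), Commute (c • (1 : Module.End L V)) X :=
    fun X c => (hs X c).symm
  set P := A - μ • (1 : Module.End L V) with hP
  set Q := B - ν • (1 : Module.End L V) with hQ
  set R := A * B - ξ • (1 : Module.End L V) with hR
  have hPQ : Commute P Q := (hcAB.sub_right (hs _ _)).sub_left ((hs' _ _).sub_right (hs' _ _))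
  have hAP : Commute A R := ((Commute.refl A).mul_right hcAB).sub_right (hs _ _)
  have hBR : Commute B R := (hcAB.symm.mul_right (Commute.refl B)).sub_right (hs _ _)
  have hPR : Commute P R := hAP.sub_left (hs' _ _)
  have hQR : Commute Q R := hBR.sub_left (hs' _ _)
  obtain ⟨i, hi1, hi2⟩ := KA1_last P v hv k hk
  have hl' : (Q ^ l) ((P ^ i) v) = 0 := by
    rw [← Module.End.mul_apply, ← (hPQ.pow_pow i l).eq, Module.End.mul_apply, hl, map_zero]
  obtain ⟨j, hj1, hj2⟩ := KA1_last Q _ hi1 l hl'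
  set w := (Q ^ j) ((P ^ i) v) with hw
  have hPw : P w = 0 := by
    rw [hw, ← Module.End.mul_apply, (hPQ.pow_right j).eq, Module.End.mul_apply, hi2, map_zero]
  have hRw : (R ^ m) w = 0 := by
    rw [hw, ← Module.End.mul_apply, ← (hQR.pow_pow j m).eq, Module.End.mul_apply,
      ← Module.End.mul_apply (R ^ m), ← (hPR.pow_pow i m).eq, Module.End.mul_apply, hm, map_zero,
      map_zero]
  have hAw : A w = μ • w := by
    have := hPw
    rw [hP, LinearMap.sub_apply, LinearMap.smul_apply, Module.End.one_apply, sub_eq_zero] at this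
    exact this
  have hBw : B w = ν • w := by
    have := hj2
    rw [hQ, LinearMap.sub_apply, LinearMap.smul_apply, Module.End.one_apply, sub_eq_zero] at this
    exact this
  have hRw1 : ∀ c : L, R (c • w) = ((μ * ν - ξ) * c) • w := by
    intro c
    rw [hR, LinearMap.sub_apply, LinearMap.smul_apply, Module.End.one_apply, Module.End.mul_apply,
      map_smul, hBw, map_smul, map_smul, hAw]
    module
  have hRm : ∀ m : ℕ, (R ^ m) w = (μ * ν - ξ) ^ m • w := by
    intro m
    induction m with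
    | zero => simp
    | succ m ih => rw [pow_succ', Module.End.mul_apply, ih, hRw1, pow_succ']
  rw [hRm] at hRw
  have h4 := (smul_eq_zero.mp hRw).resolve_right hj1
  have h6 : μ * ν - ξ = 0 := by
    by_contra hne
    exact pow_ne_zero m hne h4
  exact (sub_eq_zero.mp h6).symm

/-- the torus trick for a group representation on a whole space. -/
private theorem KA1_core {B L V : Type*} [Group B] [Field L] [IsAlgClosed L] [AddCommGroup V]
    [Module L V] [FiniteDimensional L V] (r : B →* Module.End L V) (A : Subgroup B)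
    (hcomm : ∀ x ∈ A, ∀ y ∈ A, r x * r y = r y * r x)
    (S : Set B) (hS : S.Infinite) (hSA : ∀ τ ∈ S, ∀ u ∈ A, τ * u * τ⁻¹ ∈ A)
    (hdiv : ∀ τ ∈ S, ∀ τ' ∈ S, τ ≠ τ' → ∀ w ∈ A, ∃ u ∈ A,
      r w = r (τ * u * τ⁻¹ * (τ' * u * τ'⁻¹)⁻¹)) (w : B) (hw : w ∈ A) :
    IsNilpotent (r w - 1) := by
  classical
  set a : A → Module.End L V := fun x => r x.1 with ha
  have hc : ∀ s t : A, a s * a t = a t * a s := fun s t => hcomm _ s.2 _ t.2
  have hamul : ∀ s t : A, a (s * t) = a s * a t := fun s t => by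
    rw [ha]
    exact map_mul r _ _
  have haone : a 1 = 1 := by
    rw [ha]
    exact map_one r
  set G : (A → L) → Submodule L V := fun χ => ⨅ i, (a i).maxGenEigenspace (χ i) with hG
  have hmem : ∀ (χ : A → L) (w : V), w ∈ G χ ↔
      ∀ j, ∃ m : ℕ, ((a j - χ j • (1 : Module.End L V)) ^ m) w = 0 := fun χ w =>
    Module.End.mem_iInf_maxGenEigenspace_iff a χ w
  have htop : ⨆ χ, G χ = ⊤ :=
    Module.End.iSup_iInf_maxGenEigenspace_eq_top_of_iSup_maxGenEigenspace_eq_top_of_commute a
      (fun i j _ => hc i j) (fun i => Module.End.iSup_maxGenEigenspace_eq_top (a i))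
  have hind : iSupIndep G := Module.End.independent_iInf_maxGenEigenspace_of_forall_mapsTo a
    (fun i j φ => Module.End.mapsTo_maxGenEigenspace_of_comm (hc j i) φ)
  have hfin : {χ | G χ ≠ ⊥}.Finite := WellFoundedGT.finite_ne_bot_of_iSupIndep hind
  -- characters
  have hchar : ∀ χ, G χ ≠ ⊥ → (∀ s t, χ (s * t) = χ s * χ t) ∧ χ 1 = 1 := by
    intro χ hχ
    obtain ⟨w, hw, hw0⟩ := Submodule.exists_mem_ne_zero_of_ne_bot hχ
    rw [hmem] at hw
    have h1 : ∀ s t, χ (s * t) = χ s * χ t := by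
      intro s t
      refine KA1_mul (a s) (a t) (hc s t) _ _ _ w hw0 (hw s) (hw t) ?_
      rw [← hamul]
      exact hw (s * t)
    refine ⟨h1, ?_⟩
    obtain ⟨m, hm⟩ := hw 1
    rw [haone] at hm
    have h2 : ∀ m : ℕ, (((1 : Module.End L V) - χ 1 • (1 : Module.End L V)) ^ m) w
        = (1 - χ 1) ^ m • w := by
      intro m
      induction m with
      | zero => simp
      | succ m ih =>
        rw [pow_succ', Module.End.mul_apply, ih, LinearMap.sub_apply, LinearMap.smul_apply,
          Module.End.one_apply, pow_succ']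
        module
    rw [h2] at hm
    have h3 := (smul_eq_zero.mp hm).resolve_right hw0
    have h4 : 1 - χ 1 = 0 := by
      by_contra hne
      exact pow_ne_zero m hne h3
    exact (sub_eq_zero.mp h4).symm
  -- the set permutes the characters
  have hperm : ∀ χ, G χ ≠ ⊥ → ∀ τ (hτ : τ ∈ S),
      G (fun u : A => χ ⟨τ * u.1 * τ⁻¹, hSA τ hτ u.1 u.2⟩) ≠ ⊥ := by
    intro χ hχ τ hτ
    obtain ⟨w, hw, hw0⟩ := Submodule.exists_mem_ne_zero_of_ne_bot hχ
    rw [hmem] at hw
    refine (Submodule.ne_bot_iff _).mpr ⟨r τ⁻¹ w, ?_, ?_⟩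
    · rw [hmem]
      intro u
      obtain ⟨m, hm⟩ := hw ⟨τ * u.1 * τ⁻¹, hSA τ hτ u.1 u.2⟩
      refine ⟨m, ?_⟩
      have h2 : r τ⁻¹ * r (τ * u.1 * τ⁻¹) = r u.1 * r τ⁻¹ := by
        rw [← map_mul, ← map_mul]
        congr 1
        group
      have h3 : SemiconjBy (r τ⁻¹)
          (r (τ * u.1 * τ⁻¹) - χ ⟨τ * u.1 * τ⁻¹, hSA τ hτ u.1 u.2⟩ • (1 : Module.End L V))
          (r u.1 - χ ⟨τ * u.1 * τ⁻¹, hSA τ hτ u.1 u.2⟩ • (1 : Module.End L V)) := by
        refine SemiconjBy.sub_right h2 ?_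
        unfold SemiconjBy
        rw [mul_smul_comm, smul_mul_assoc, mul_one, one_mul]
      have h4 := (h3.pow_right m).eq
      have h5 := congrArg (fun f : Module.End L V => f w) h4
      simp only [Module.End.mul_apply] at h5
      have hm' : ((r (τ * u.1 * τ⁻¹) - χ ⟨τ * u.1 * τ⁻¹, hSA τ hτ u.1 u.2⟩ •
        (1 : Module.End L V)) ^ m) w = 0 := hm
      rw [hm', map_zero] at h5
      exact h5.symm
    · intro h
      apply hw0
      have h1 : r τ (r τ⁻¹ w) = w := by
        rw [← Module.End.mul_apply, ← map_mul, mul_inv_cancel, map_one, Module.End.one_apply]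
      rw [← h1, h, map_zero]
  have hone : ∀ χ, G χ ≠ ⊥ → χ = fun _ => 1 := by
    intro χ hχ
    obtain ⟨hm, hz⟩ := hchar χ hχ
    have : Finite {χ | G χ ≠ ⊥} := hfin
    have : Infinite S := hS.to_subtype
    obtain ⟨τ, τ', hne, heq0⟩ := Finite.exists_ne_map_eq_of_infinite
      (fun τ : S => (⟨fun u : A => χ ⟨τ.1 * u.1 * τ.1⁻¹, hSA τ.1 τ.2 u.1 u.2⟩,
        hperm χ hχ τ.1 τ.2⟩ : {χ | G χ ≠ ⊥}))
    have heq : ∀ u : A, χ ⟨τ.1 * u.1 * τ.1⁻¹, hSA τ.1 τ.2 u.1 u.2⟩ =
        χ ⟨τ'.1 * u.1 * τ'.1⁻¹, hSA τ'.1 τ'.2 u.1 u.2⟩ := fun u =>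
      congrFun (congrArg Subtype.val heq0) u
    have hnz : ∀ u, χ u ≠ 0 := by
      intro u h
      have h1 := hm u u⁻¹
      rw [mul_inv_cancel, hz, h, zero_mul] at h1
      exact one_ne_zero h1
    funext w
    obtain ⟨u, huA, hu⟩ := hdiv τ.1 τ.2 τ'.1 τ'.2 (fun h => hne (Subtype.ext h)) w.1 w.2
    set p : A := ⟨τ.1 * u * τ.1⁻¹, hSA τ.1 τ.2 u huA⟩ with hp
    set p' : A := ⟨τ'.1 * u * τ'.1⁻¹, hSA τ'.1 τ'.2 u huA⟩ with hp'
    have hpp : χ p = χ p' := heq ⟨u, huA⟩
    have hop : a w * a p' = a p := by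
      have h1 : a w = r (p.1 * p'.1⁻¹) := hu
      rw [h1, ha]
      change r (p.1 * p'.1⁻¹) * r p'.1 = r p.1
      rw [← map_mul]
      congr 1
      group
    obtain ⟨v, hv, hv0⟩ := Submodule.exists_mem_ne_zero_of_ne_bot hχ
    rw [hmem] at hv
    have h1 : χ p = χ w * χ p' := by
      refine KA1_mul (a w) (a p') (hc w p') _ _ _ v hv0 (hv w) (hv p') ?_
      rw [hop]
      exact hv p
    rw [hpp] at h1
    exact (mul_right_cancel₀ (hnz p') ((one_mul _).trans h1)).symm
  have hG1 : G (fun _ => 1) = ⊤ := by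
    rw [eq_top_iff, ← htop]
    refine iSup_le fun χ => ?_
    by_cases h : G χ = ⊥
    · rw [h]
      exact bot_le
    · rw [hone χ h]
  have h1 : (a ⟨w, hw⟩).maxGenEigenspace 1 = ⊤ := by
    rw [eq_top_iff, ← hG1]
    exact iInf_le (fun i => (a i).maxGenEigenspace (1 : L)) ⟨w, hw⟩
  rw [Module.End.maxGenEigenspace_eq_genEigenspace_finrank, Module.End.genEigenspace_nat] at h1
  refine ⟨Module.finrank L V, ?_⟩
  rw [LinearMap.ker_eq_top] at h1
  rw [one_smul] at h1
  exact h1

/-- the restriction of a representation to a stable submodule. -/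
private noncomputable def KA1_res {B L V : Type*} [Group B] [Field L] [AddCommGroup V]
    [Module L V] (ρ : B →* Module.End L V) (W : Submodule L V)
    (hW : ∀ b, ∀ v ∈ W, ρ b v ∈ W) : B →* Module.End L W where
  toFun b := (ρ b).restrict (hW b)
  map_one' := by
    ext v
    rw [LinearMap.coe_restrict_apply, map_one, Module.End.one_apply, Module.End.one_apply]
  map_mul' x y := by
    ext v
    rw [Module.End.mul_apply, LinearMap.coe_restrict_apply, LinearMap.coe_restrict_apply,
      LinearMap.coe_restrict_apply, map_mul, Module.End.mul_apply]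

private theorem KA1_res_apply {B L V : Type*} [Group B] [Field L] [AddCommGroup V]
    [Module L V] (ρ : B →* Module.End L V) (W : Submodule L V)
    (hW : ∀ b, ∀ v ∈ W, ρ b v ∈ W) (b : B) (v : W) : (KA1_res ρ W hW b v : V) = ρ b v :=
  LinearMap.coe_restrict_apply (hW b) v

private theorem KA1_nil {B L V : Type*} [Group B] [Field L] [IsAlgClosed L] [AddCommGroup V]
    [Module L V] [FiniteDimensional L V] (ρ : B →* Module.End L V) (A : Subgroup B)
    (W : Submodule L V) (hW : ∀ b, ∀ v ∈ W, ρ b v ∈ W)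
    (hcomm : ∀ x ∈ A, ∀ y ∈ A, ∀ v ∈ W, ρ x (ρ y v) = ρ y (ρ x v))
    (S : Set B) (hS : S.Infinite) (hSA : ∀ τ ∈ S, ∀ u ∈ A, τ * u * τ⁻¹ ∈ A)
    (hdiv : ∀ τ ∈ S, ∀ τ' ∈ S, τ ≠ τ' → ∀ w ∈ A, ∃ u ∈ A, ∀ v ∈ W,
      ρ w v = ρ (τ * u * τ⁻¹ * (τ' * u * τ'⁻¹)⁻¹) v) (w : B) (hw : w ∈ A) :
    IsNilpotent (KA1_res ρ W hW w - 1) := by
  refine KA1_core (KA1_res ρ W hW) A ?_ S hS hSA ?_ w hw
  · intro x hx y hy
    ext v
    rw [Module.End.mul_apply, Module.End.mul_apply, KA1_res_apply, KA1_res_apply, KA1_res_apply,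
      KA1_res_apply]
    exact hcomm x hx y hy v.1 v.2
  · intro τ hτ τ' hτ' hne w hw
    obtain ⟨u, hu, h⟩ := hdiv τ hτ τ' hτ' hne w hw
    refine ⟨u, hu, ?_⟩
    ext v
    rw [KA1_res_apply, KA1_res_apply]
    exact h v.1 v.2

theorem torus_set {B L V : Type*} [Group B] [Field L] [IsAlgClosed L] [AddCommGroup V] [Module L V]
    [FiniteDimensional L V] (ρ : B →* Module.End L V) (A : Subgroup B) (W : Submodule L V)
    (hW : ∀ b, ∀ v ∈ W, ρ b v ∈ W)
    (hcomm : ∀ x ∈ A, ∀ y ∈ A, ∀ v ∈ W, ρ x (ρ y v) = ρ y (ρ x v))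
    (S : Set B) (hS : S.Infinite) (hSA : ∀ τ ∈ S, ∀ u ∈ A, τ * u * τ⁻¹ ∈ A)
    (hdiv : ∀ τ ∈ S, ∀ τ' ∈ S, τ ≠ τ' → ∀ w ∈ A, ∃ u ∈ A, ∀ v ∈ W,
      ρ w v = ρ (τ * u * τ⁻¹ * (τ' * u * τ'⁻¹)⁻¹) v) (w : B) (hw : w ∈ A) :
    ∃ m : ℕ, ∀ v ∈ W, ((ρ w - 1) ^ m) v = 0 := by
  obtain ⟨m, hm⟩ := KA1_nil ρ A W hW hcomm S hS hSA hdiv w hw
  refine ⟨m, fun v hv => ?_⟩
  have h1 : ∀ (j : ℕ) (v : W), (((KA1_res ρ W hW w - 1) ^ j) v : V) = ((ρ w - 1) ^ j) (v : V) := by
    intro j
    induction j with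
    | zero =>
      intro v
      rw [pow_zero, pow_zero, Module.End.one_apply, Module.End.one_apply]
    | succ j ih =>
      intro v
      rw [pow_succ, pow_succ, Module.End.mul_apply, Module.End.mul_apply, ih]
      have h3 : (((KA1_res ρ W hW w - 1) v : W) : V) = (ρ w - 1) (v : V) := by
        rw [LinearMap.sub_apply, LinearMap.sub_apply, Submodule.coe_sub, KA1_res_apply,
          Module.End.one_apply, Module.End.one_apply]
      rw [h3]
  have h2 := h1 m ⟨v, hv⟩
  rw [hm, LinearMap.zero_apply] at h2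
  exact h2.symm

/-- Consequently `A` has a common fixed vector in `W` (if `W ≠ ⊥`): the operators `ρ w`, `w ∈ A`,
restricted to `W` are commuting unipotent operators, see `Pool.Agent.H62.CA.exists_common_fixed`
(apply it to the restrictions to `W`, as operators on the space `W`). -/
theorem torus_fixed {B L V : Type*} [Group B] [Field L] [IsAlgClosed L] [AddCommGroup V] [Module L V]
    [FiniteDimensional L V] (ρ : B →* Module.End L V) (A : Subgroup B) (W : Submodule L V)
    (hW : ∀ b, ∀ v ∈ W, ρ b v ∈ W) (hne : W ≠ ⊥)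
    (hcomm : ∀ x ∈ A, ∀ y ∈ A, ∀ v ∈ W, ρ x (ρ y v) = ρ y (ρ x v))
    (S : Set B) (hS : S.Infinite) (hSA : ∀ τ ∈ S, ∀ u ∈ A, τ * u * τ⁻¹ ∈ A)
    (hdiv : ∀ τ ∈ S, ∀ τ' ∈ S, τ ≠ τ' → ∀ w ∈ A, ∃ u ∈ A, ∀ v ∈ W,
      ρ w v = ρ (τ * u * τ⁻¹ * (τ' * u * τ'⁻¹)⁻¹) v) :
    ∃ v ∈ W, v ≠ 0 ∧ ∀ x ∈ A, ρ x v = v := by
  have htop : (⊤ : Submodule L W) ≠ ⊥ := by
    obtain ⟨v, hv, hv0⟩ := Submodule.exists_mem_ne_zero_of_ne_bot hne
    refine (Submodule.ne_bot_iff _).mpr ⟨⟨v, hv⟩, Submodule.mem_top, fun h => hv0 ?_⟩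
    exact congrArg Subtype.val h
  obtain ⟨v, -, hv0, hv⟩ := Pool.Agent.H62.CA.exists_common_fixed
    (fun x : A => KA1_res ρ W hW x.1)
    (fun x => KA1_nil ρ A W hW hcomm S hS hSA hdiv x.1 x.2) ⊤ htop
    (fun _ _ _ => Submodule.mem_top) (fun x y w _ => by
      apply Subtype.ext
      rw [KA1_res_apply, KA1_res_apply, KA1_res_apply, KA1_res_apply]
      exact hcomm x.1 x.2 y.1 y.2 w.1 w.2)
  refine ⟨v.1, v.2, fun h => hv0 (Subtype.ext h), fun x hx => ?_⟩
  have h1 := congrArg Subtype.val (hv ⟨x, hx⟩)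
  rw [KA1_res_apply] at h1
  exact h1

end Pool.Agent.H86.UM
end

section
/- module Pool.Agent.H75.UK.K7 -/
/-!
# Project UK, module K7: counting equivariant additive maps

Strong induction on `finrank L V` for all `ι` (reindex with finite sets / subtypes of `ι`). If `ι` is
empty there is nothing to prove; otherwise `V ≠ 0`. Common eigenvector: take a nonzero submodule `W`
of minimal dimension stable under all `A τ`; each `A τ` has an eigenvector in `W`
(`Module.End.exists_eigenvalue` for the restriction, `L` algebraically closed), the eigenspace in `W` is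
stable under all `A τ'` (commuting), so it is `W`; so every `v ∈ W`, `v ≠ 0`, satisfies
`A τ v = χ τ • v` for all `τ`. Let `V' = V ⧸ span {v}`, `f' i` the composition of `f i` with the
projection. `ι₀ = {i | f' i = 0}` has at most one element: if `i ≠ j` are in it, `f i x = g_i x • v`,
`f j x = g_j x • v`, take `τ` with `a i τ = 1`, `a j τ ≠ 1`; some `g_i x ≠ 0`, so
`g_i x • v = f i (a i τ * x) = A τ (f i x) = χ τ g_i x • v` gives `χ τ = 1`; then
`f j (a j τ * x) = f j x`, so `f j ((a j τ - 1) * x) = 0` for all `x`, so `f j = 0`, contradiction.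
The induction hypothesis for `V'`, the maps induced by `A τ` and `ι ∖ ι₀` gives
`card ι - 1 ≤ finrank V - 1`.
-/

set_option autoImplicit false
universe u v w
namespace Pool.Agent.H75.UK

/-- commuting endomorphisms of a nonzero space have a common eigenvector -/
private theorem K7_common {L : Type u} [Field L] [IsAlgClosed L] {V : Type v} [AddCommGroup V]
    [Module L V] [FiniteDimensional L V] [Nontrivial V] {T : Type*}
    (A : T → V →ₗ[L] V) (hA : ∀ s t, A s ∘ₗ A t = A t ∘ₗ A s) :
    ∃ v : V, v ≠ 0 ∧ ∀ τ, ∃ c : L, A τ v = c • v := by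
  let P : Submodule L V → Prop := fun W => W ≠ ⊥ ∧ ∀ τ, ∀ w ∈ W, A τ w ∈ W
  have hP : ∃ W, P W := ⟨⊤, top_ne_bot, fun _ _ _ => Submodule.mem_top⟩
  obtain ⟨W, hW, hmin⟩ := WellFounded.has_min (wellFounded_lt (α := Submodule L V)) {W | P W} hP
  obtain ⟨hW0, hWs⟩ := hW
  have key : ∀ τ, ∃ c : L, ∀ w ∈ W, A τ w = c • w := by
    intro τ
    have : Nontrivial W := Submodule.nontrivial_iff_ne_bot.mpr hW0
    obtain ⟨c, hc⟩ := Module.End.exists_eigenvalue ((A τ).restrict (hWs τ))
    obtain ⟨w, hw⟩ := hc.exists_hasEigenvector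
    refine ⟨c, ?_⟩
    have hw1 : A τ (w : V) = c • (w : V) := by
      have := congrArg Subtype.val hw.apply_eq_smul
      simpa using this
    have hw0 : (w : V) ≠ 0 := fun h => hw.2 (Subtype.ext h)
    let W' : Submodule L V := W ⊓ LinearMap.ker (A τ - c • LinearMap.id)
    have hmem : ∀ x, x ∈ W' ↔ x ∈ W ∧ A τ x = c • x := by
      intro x
      simp [W', sub_eq_zero]
    have hW' : P W' := by
      refine ⟨?_, ?_⟩
      · intro h
        have h1 : (w : V) ∈ W' := (hmem _).mpr ⟨w.2, hw1⟩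
        rw [h, Submodule.mem_bot] at h1
        exact hw0 h1
      · intro σ x hx
        rw [hmem] at hx ⊢
        refine ⟨hWs σ x hx.1, ?_⟩
        have h1 := LinearMap.congr_fun (hA τ σ) x
        rw [LinearMap.comp_apply, LinearMap.comp_apply, hx.2, map_smul] at h1
        exact h1
    have hle : W' ≤ W := inf_le_left
    have hnlt := hmin W' hW'
    have heq : W' = W := by
      by_contra hne
      exact hnlt (lt_of_le_of_ne hle hne)
    intro x hx
    rw [← heq] at hx
    exact ((hmem x).mp hx).2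
  obtain ⟨v, hv, hv0⟩ := Submodule.exists_mem_ne_zero_of_ne_bot hW0
  exact ⟨v, hv0, fun τ => ⟨_, (key τ).choose_spec v hv⟩⟩

private theorem K7_main {L : Type u} [Field L] [IsAlgClosed L] {k T : Type*} [Field k] (n : ℕ) :
    ∀ (V : Type v) [AddCommGroup V] [Module L V] [FiniteDimensional L V] (ι : Type w) [Finite ι]
    (a : ι → T → k) (A : T → V →ₗ[L] V) (_ : ∀ s t, A s ∘ₗ A t = A t ∘ₗ A s) (f : ι → k → V)
    (_ : ∀ i x y, f i (x + y) = f i x + f i y) (_ : ∀ i, ∃ x, f i x ≠ 0)
    (_ : ∀ i τ x, f i (a i τ * x) = A τ (f i x))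
    (_ : ∀ i j, i ≠ j → ∃ τ, a i τ = 1 ∧ a j τ ≠ 1), Module.finrank L V = n →
    Nat.card ι ≤ n := by
  induction n with
  | zero =>
    intro V _ _ _ ι _ a A hA f hf hf0 he hs hn
    have : Subsingleton V := Module.finrank_zero_iff.mp hn
    have : IsEmpty ι := ⟨fun i => by
      obtain ⟨x, hx⟩ := hf0 i
      exact hx (Subsingleton.elim _ _)⟩
    rw [Nat.card_of_isEmpty]
  | succ n ih =>
    intro V _ _ _ ι _ a A hA f hf hf0 he hs hn
    have : Nontrivial V := Module.nontrivial_of_finrank_pos (R := L) (by omega)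
    obtain ⟨v, hv0, hv⟩ := K7_common A hA
    let N : Submodule L V := Submodule.span L {v}
    have hN : ∀ τ, N ≤ N.comap (A τ) := by
      intro τ
      rw [Submodule.span_le, Set.singleton_subset_iff]
      obtain ⟨c, hc⟩ := hv τ
      change A τ v ∈ N
      rw [hc]
      exact N.smul_mem _ (Submodule.mem_span_singleton_self v)
    have hfin : Module.finrank L (V ⧸ N) = n := by
      have h1 := Submodule.finrank_quotient_add_finrank N
      rw [finrank_span_singleton hv0, hn] at h1
      omega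
    let p : ι → Prop := fun i => ∃ x, N.mkQ (f i x) ≠ 0
    have h1 : Nat.card {i // p i} ≤ n := by
      refine ih (V ⧸ N) {i // p i} (fun i => a i.1) (fun τ => N.mapQ N (A τ) (hN τ)) ?_
        (fun i x => N.mkQ (f i.1 x)) ?_ ?_ ?_ ?_ hfin
      · intro s t
        apply Submodule.linearMap_qext
        ext x
        have := LinearMap.congr_fun (hA s t) x
        simp only [LinearMap.comp_apply] at this
        simp only [LinearMap.comp_apply, Submodule.mkQ_apply, Submodule.mapQ_apply, this]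
      · intro i x y
        rw [hf, map_add]
      · intro i
        exact i.2
      · intro i τ x
        rw [he]
        simp only [Submodule.mkQ_apply, Submodule.mapQ_apply]
      · intro i j hij
        exact hs i.1 j.1 (fun h => hij (Subtype.ext h))
    have hnp : ∀ i, ¬ p i → ∀ x, ∃ c : L, f i x = c • v := by
      intro i hi x
      have h2 : N.mkQ (f i x) = 0 := by
        by_contra h3
        exact hi ⟨x, h3⟩
      rw [Submodule.mkQ_apply, Submodule.Quotient.mk_eq_zero] at h2
      obtain ⟨c, hc⟩ := Submodule.mem_span_singleton.mp h2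
      exact ⟨c, hc.symm⟩
    have : Subsingleton {i // ¬ p i} := by
      constructor
      rintro ⟨i, hi⟩ ⟨j, hj⟩
      by_contra hne
      have hij : i ≠ j := fun h => hne (Subtype.ext h)
      obtain ⟨τ, h3, h4⟩ := hs i j hij
      obtain ⟨χ, hχ⟩ := hv τ
      obtain ⟨x0, hx0⟩ := hf0 i
      obtain ⟨c, hc⟩ := hnp i hi x0
      have h5 := he i τ x0
      rw [h3, one_mul, hc, map_smul, hχ] at h5
      have hAv : A τ v = v := by
        have hc0 : c ≠ 0 := by
          rintro rfl
          rw [zero_smul] at hc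
          exact hx0 hc
        rw [hχ]
        exact (smul_right_injective V hc0 h5).symm
      have h6 : ∀ x, f j (a j τ * x) = f j x := by
        intro x
        obtain ⟨d, hd⟩ := hnp j hj x
        rw [he, hd, map_smul, hAv]
      have h7 : ∀ x, f j ((a j τ - 1) * x) = 0 := by
        intro x
        have h8 := hf j ((a j τ - 1) * x) x
        rw [show (a j τ - 1) * x + x = a j τ * x by ring, h6] at h8
        exact (left_eq_add.mp (by rw [add_comm] at h8; exact h8))
      obtain ⟨y, hy⟩ := hf0 j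
      apply hy
      have h9 : a j τ - 1 ≠ 0 := sub_ne_zero.mpr h4
      have h10 := h7 ((a j τ - 1)⁻¹ * y)
      rwa [← mul_assoc, mul_inv_cancel₀ h9, one_mul] at h10
    have h2 : Nat.card ι = Nat.card {i // p i} + Nat.card {i // ¬ p i} := by
      classical
      rw [← Nat.card_sum, Nat.card_congr (Equiv.sumCompl p)]
    have h3 : Nat.card {i // ¬ p i} ≤ 1 := Finite.card_le_one_iff_subsingleton.mpr inferInstance
    omega

/-- Nonzero additive maps `f i : k → V`, equivariant for pairwise different characters, number at most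
`dim V`. -/
theorem count_le {L : Type u} [Field L] [IsAlgClosed L] {V : Type v} [AddCommGroup V] [Module L V]
    [FiniteDimensional L V] {k T ι : Type*} [Field k] [Finite ι] (a : ι → T → k)
    (A : T → V →ₗ[L] V) (hA : ∀ s t, A s ∘ₗ A t = A t ∘ₗ A s) (f : ι → k → V)
    (hf : ∀ i x y, f i (x + y) = f i x + f i y) (hf0 : ∀ i, ∃ x, f i x ≠ 0)
    (he : ∀ i τ x, f i (a i τ * x) = A τ (f i x))
    (hs : ∀ i j, i ≠ j → ∃ τ, a i τ = 1 ∧ a j τ ≠ 1) : Nat.card ι ≤ Module.finrank L V :=
  K7_main (Module.finrank L V) V ι a A hA f hf hf0 he hs rfl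

end Pool.Agent.H75.UK
end

section
/- module Pool.Agent.H86.UM.ZA -/
/-!
# Project UM, Suzuki-Ree groups, module ZA: fields with `θ (θ t) = t ^ p`

`norm_span`: `R` is a subring with `t * θ t ∈ R`, so (polarisation `t ↦ t + 1`) `t + θ t ∈ R`; `R` is closed under
inverses: for `r ∈ R`, `r ≠ 0`, `r⁻¹ = (r⁻¹ + θ r⁻¹) - (r⁻¹ * θ r⁻¹) * r ∈ R`. From `t + θ t ∈ R` and
`θ t + θ (θ t) ∈ R`: `s := t - t ^ p ∈ R`. `p` odd: apply this to `t ^ 2`:
`t ^ 2 - t ^ (2 p) = s * (t + t ^ p) = s * (2 t - s)`, so `2 s t ∈ R`, so `t ∈ R` if `s ≠ 0`. `p = 2`: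
`s = t + t ^ 2`; apply it to `t ^ 3`: `t ^ 3 + t ^ 6 = t ^ 2 * s * (1 + s)`, so `t ^ 2 ∈ R`, `t = s + t ^ 2 ∈ R` if
`s ≠ 0, 1`. `s = 0`: `t ^ p = t`, `t` is in the prime field (`t ^ p - t` has only `p` roots) so in `R`.
`p = 2`, `s = 1`: `t ^ 2 + t = 1`; then `t ∈ R`: (`t ^ 3 = 1`, `θ t ∈ {t, t ^ 2}` is a root of the same polynomial,
`θ (θ t) = t ^ 2 ≠ t` but if `θ t = t` then `θ (θ t) = t`, and if `θ t = t ^ 2` then `θ (θ t) = t ^ 4 = t`:
contradiction, so this case does not occur.)

`norm_module`: `R := {r | ∀ v ∈ M, r * v ∈ M}`.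
`two_homs`: `{t | χ t = φ t}` and `{t | χ t = ψ t}` are additive subgroups whose union is everything; a group is not
the union of two proper subgroups.
`semi`: `φ r` := the unique `r'`; `f r = φ r * f 1`.
`semi_sq`: the set of `r` with `∃ r', ∀ t, f (r t) = r' f t` is a subring containing all squares; `p = 3`, so
every element is a difference of two squares times a constant: `r = (r + 1) ^ 2 - (r - 1) ^ 2` (`4 = 1`).
`norm_rigid`: the set of `r` with `∃ r', ∀ v, g (r v) = r' g v` is a subring containing all `t * θ t`, so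
everything (`norm_span`), `g v = ψ v * g 1` with a ring homomorphism `ψ` (`semi`), `ψ (t θ t) = φ t * θ' (φ t)`
(for `t ≠ 0`; uniqueness of `r'`). Polarise: `ψ t + ψ (θ t) = φ t + θ' (φ t)`, so `ψ t` is a root of
`(X - φ t) (X - θ' (φ t))`; `two_homs` for `ψ, φ, θ' ∘ φ`. If `ψ = φ` then `φ (θ t) = ψ (θ t) = θ' (φ t)`.
If `ψ = θ' ∘ φ` then `θ' (φ (θ t)) = ψ (θ t) = φ t` for all `t`, so `φ (θ t) = θ' (φ (θ (θ t))) = (θ' (φ t)) ^ p`,
`φ t = θ' (φ (θ t)) = (θ' (θ' (φ t))) ^ p = φ t ^ (p * p)`, so `t ^ (p * p) = t` for all `t`: contradiction as `k` is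
infinite.
`zeta2`: if `ζ t ≠ 0` then `(s + 1) θ (s + 1) = s θ s + 1` for all `s ≠ 0, -1`, so `s + θ s = 0`, so `θ s = s`
(`p = 2`), `s ^ 2 = s` for all `s`. `zeta3a`, `zeta3b`: `p = 3`; `(s + 1) ^ 2 + (s - 1) ^ 2 = 2 s ^ 2 + 2`, so with
`χ(s) = s ^ 2 θ(s ^ 2)`, resp. `χ(s) = s ^ 4 θ(s ^ 2)`, `χ(s + 1) + χ(s - 1) = 2 χ(s) + 2 χ(1)` for `s ≠ 0, 1, -1`
if `ζ t ≠ 0`; the difference of the two sides is `2 (s - θ s) ^ 2`, resp.
`2 (θ s - s) (θ s - s ^ 3) = - 2 (θ s - s) * θ (θ s - s)`; so `θ s = s`, `s ^ 3 = s` for almost all `s`.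
-/

set_option autoImplicit false

namespace Pool.Agent.H86.UM

variable {k : Type*} [Field k] (p : ℕ) [Fact p.Prime] [CharP k p] (θ : k ≃+* k)
  (hθ : ∀ t, θ (θ t) = t ^ p)

include hθ

theorem norm_span (R : AddSubgroup k) (hm : ∀ a ∈ R, ∀ b ∈ R, a * b ∈ R)
    (h : ∀ t, t * θ t ∈ R) : R = ⊤ := by
  have h1 : (1 : k) ∈ R := by
    have := h 1
    rwa [map_one, mul_one] at this
  have hp : ∀ t, t + θ t ∈ R := by
    intro t
    have e : t + θ t = (t + 1) * θ (t + 1) - t * θ t - 1 := by
      rw [map_add, map_one]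
      ring
    rw [e]
    exact R.sub_mem (R.sub_mem (h _) (h _)) h1
  have hinv : ∀ r ∈ R, r ≠ 0 → r⁻¹ ∈ R := by
    intro r hr hr0
    have e : r⁻¹ = (r⁻¹ + θ r⁻¹) - (r⁻¹ * θ r⁻¹) * r := by
      have e1 : r⁻¹ * θ r⁻¹ * r = θ r⁻¹ := by
        rw [mul_comm, ← mul_assoc, mul_inv_cancel₀ hr0, one_mul]
      rw [e1]
      ring
    rw [e]
    exact R.sub_mem (hp _) (hm _ (h _) _ hr)
  have hs : ∀ t, t - t ^ p ∈ R := by
    intro t
    have e : t - t ^ p = (t + θ t) - (θ t + θ (θ t)) := by
      rw [hθ]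
      ring
    rw [e]
    exact R.sub_mem (hp _) (hp _)
  have hcancel : ∀ a b : k, a ∈ R → a ≠ 0 → a * b ∈ R → b ∈ R := by
    intro a b ha ha0 hab
    have e : b = a⁻¹ * (a * b) := by
      rw [← mul_assoc, inv_mul_cancel₀ ha0, one_mul]
    rw [e]
    exact hm _ (hinv a ha ha0) _ hab
  -- the prime field
  let F : Subfield k :=
    { carrier := R
      mul_mem' := fun {a b} ha hb => hm a ha b hb
      one_mem' := h1
      add_mem' := fun {a b} ha hb => R.add_mem ha hb
      zero_mem' := R.zero_mem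
      neg_mem' := fun {a} ha => R.neg_mem ha
      inv_mem' := by
        intro a ha
        by_cases ha0 : a = 0
        · rw [ha0, inv_zero]
          exact R.zero_mem
        · exact hinv a ha ha0 }
  have hprime : ∀ t : k, t ^ p = t → t ∈ R := by
    intro t ht
    have h2 : t ∈ (⊥ : Subfield k) := (Subfield.mem_bot_iff_pow_eq_self k p).2 ht
    exact (bot_le : (⊥ : Subfield k) ≤ F) h2
  rw [eq_top_iff]
  intro t _
  by_cases hs0 : t - t ^ p = 0
  · exact hprime t (sub_eq_zero.1 hs0).symm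
  · rcases Nat.Prime.eq_two_or_odd' (Fact.out : p.Prime) with hp2 | hodd
    · subst hp2
      have h2 : (2 : k) = 0 := CharTwo.two_eq_zero
      by_cases hs1 : t - t ^ 2 = 1
      · exfalso
        have ht2 : t ^ 2 = t + 1 := by linear_combination -hs1 - h2
        have ht1 : (1 : k) ≠ 0 := one_ne_zero
        have hθ2 : (θ t) ^ 2 = θ t + 1 := by
          rw [← map_pow, ht2, map_add, map_one]
        have hprod : (θ t - t) * (θ t - t - 1) = 0 := by
          linear_combination hθ2 + ht2 + (- θ t * t + t + 1) * h2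
        rcases mul_eq_zero.1 hprod with h3 | h3
        · have h4 : θ t = t := sub_eq_zero.1 h3
          have h5 := hθ t
          rw [h4, h4] at h5
          apply ht1
          linear_combination -h5 - ht2
        · have h4 : θ t = t + 1 := by linear_combination h3
          have h5 := hθ t
          rw [h4, map_add, map_one, h4] at h5
          apply ht1
          linear_combination h5 + ht2
      · have e : (t - t ^ 2) * (1 + (t - t ^ 2)) * t ^ 2 = t ^ 3 - (t ^ 3) ^ 2 := by
          linear_combination (t ^ 6 - t ^ 5) * h2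
        have hne : (t - t ^ 2) * (1 + (t - t ^ 2)) ≠ 0 := by
          refine mul_ne_zero hs0 fun h3 => hs1 ?_
          linear_combination h3 - h2
        have h3 : t ^ 2 ∈ R := by
          refine hcancel _ _ (hm _ (hs t) _ (R.add_mem h1 (hs t))) hne ?_
          rw [e]
          exact hs _
        have e2 : t = (t - t ^ 2) + t ^ 2 := by ring
        rw [e2]
        exact R.add_mem (hs t) h3
    · have h2 : (2 : k) ≠ 0 := by
        intro h0
        have h3 : ((2 : ℕ) : k) = 0 := by exact_mod_cast h0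
        rw [CharP.cast_eq_zero_iff k p 2] at h3
        have h4 := Nat.le_of_dvd (by norm_num) h3
        have h5 := (Fact.out : p.Prime).two_le
        have h6 : p = 2 := by omega
        rw [h6] at hodd
        exact absurd hodd (by decide)
      have h2R : (2 : k) ∈ R := by
        rw [← one_add_one_eq_two]
        exact R.add_mem h1 h1
      have e : 2 * (t - t ^ p) * t = (t ^ 2 - (t ^ 2) ^ p) + (t - t ^ p) * (t - t ^ p) := by
        have e1 : (t ^ 2) ^ p = (t ^ p) ^ 2 := by rw [← pow_mul, ← pow_mul, mul_comm]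
        rw [e1]
        ring
      refine hcancel (2 * (t - t ^ p)) t (hm _ h2R _ (hs t)) (mul_ne_zero h2 hs0) ?_
      rw [e]
      exact R.add_mem (hs _) (hm _ (hs t) _ (hs t))

theorem norm_module (M : AddSubgroup k) (hM : ∀ t, ∀ v ∈ M, t * θ t * v ∈ M)
    (hne : ∃ v ∈ M, v ≠ 0) : M = ⊤ := by
  obtain ⟨v, hv, hv0⟩ := hne
  let R : AddSubgroup k :=
    { carrier := {r | ∀ v ∈ M, r * v ∈ M}
      add_mem' := by
        intro a b ha hb v hv
        rw [add_mul]
        exact M.add_mem (ha v hv) (hb v hv)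
      zero_mem' := by
        intro v _
        rw [zero_mul]
        exact M.zero_mem
      neg_mem' := by
        intro a ha v hv
        rw [neg_mul]
        exact M.neg_mem (ha v hv) }
  have hR : R = ⊤ := by
    refine norm_span p θ hθ R ?_ ?_
    · intro a ha b hb v hv
      rw [mul_assoc]
      exact ha _ (hb v hv)
    · intro t v hv
      exact hM t v hv
  rw [eq_top_iff]
  intro x _
  have hx : x / v ∈ R := by
    rw [hR]
    exact AddSubgroup.mem_top _
  have h2 : x / v * v ∈ M := hx v hv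
  rwa [div_mul_cancel₀ x hv0] at h2

omit hθ in
theorem two_homs {G A : Type*} [AddGroup G] [AddGroup A] (χ φ ψ : G →+ A)
    (h : ∀ t, χ t = φ t ∨ χ t = ψ t) : (∀ t, χ t = φ t) ∨ ∀ t, χ t = ψ t := by
  by_contra hcon
  rw [not_or, not_forall, not_forall] at hcon
  obtain ⟨⟨a, ha⟩, ⟨b, hb⟩⟩ := hcon
  have ha' : χ a = ψ a := (h a).resolve_left ha
  have hb' : χ b = φ b := (h b).resolve_right hb
  rcases h (a + b) with h1 | h1
  · rw [map_add, map_add, hb'] at h1
    exact ha (add_right_cancel h1)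
  · rw [map_add, map_add, ha'] at h1
    exact hb (add_left_cancel h1)

omit [Fact p.Prime] [CharP k p] hθ in
theorem semi {K : Type*} [Field K] (f : k → K) (hadd : ∀ a b, f (a + b) = f a + f b)
    (hne : ∃ t, f t ≠ 0) (h : ∀ r, ∃ r' : K, ∀ t, f (r * t) = r' * f t) :
    ∃ φ : k →+* K, f 1 ≠ 0 ∧ (∀ r t, f (r * t) = φ r * f t) ∧ ∀ r, f r = f 1 * φ r := by
  have h1 : f 1 ≠ 0 := by
    obtain ⟨t, ht⟩ := hne
    intro h0
    obtain ⟨r', hr'⟩ := h t
    have := hr' 1
    rw [mul_one, h0, mul_zero] at this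
    exact ht this
  have h2 : ∀ r t, f (r * t) = f r / f 1 * f t := by
    intro r t
    obtain ⟨r', hr'⟩ := h r
    have h3 := hr' 1
    rw [mul_one] at h3
    rw [hr' t, h3, mul_div_cancel_right₀ _ h1]
  have h0 : f 0 = 0 := by
    have := hadd 0 0
    rw [add_zero] at this
    exact left_eq_add.1 this
  refine ⟨{ toFun := fun r => f r / f 1
            map_one' := div_self h1
            map_mul' := ?_
            map_zero' := ?_
            map_add' := ?_ }, h1, ?_, ?_⟩
  · intro a b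
    show f (a * b) / f 1 = f a / f 1 * (f b / f 1)
    rw [h2, mul_div_assoc]
  · show f 0 / f 1 = 0
    rw [h0, zero_div]
  · intro a b
    show f (a + b) / f 1 = f a / f 1 + f b / f 1
    rw [hadd, add_div]
  · intro r t
    exact h2 r t
  · intro r
    show f r = f 1 * (f r / f 1)
    rw [mul_div_cancel₀ _ h1]

omit [Fact p.Prime] [CharP k p] hθ in
theorem semi_sq [CharP k 3] {K : Type*} [Field K] (f : k → K)
    (hadd : ∀ a b, f (a + b) = f a + f b)
    (hne : ∃ t, f t ≠ 0) (h : ∀ s, s ≠ 0 → ∃ r' : K, ∀ t, f (s ^ 2 * t) = r' * f t) :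
    ∃ φ : k →+* K, f 1 ≠ 0 ∧ (∀ r t, f (r * t) = φ r * f t) ∧ ∀ r, f r = f 1 * φ r := by
  have h3 : (3 : k) = 0 := by
    have := CharP.cast_eq_zero k 3
    exact_mod_cast this
  have h0 : f 0 = 0 := by
    have := hadd 0 0
    rw [add_zero] at this
    exact left_eq_add.1 this
  have hsub : ∀ a b, f (a - b) = f a - f b := by
    intro a b
    have := hadd (a - b) b
    rw [sub_add_cancel] at this
    rw [this, add_sub_cancel_right]
  have h' : ∀ s, ∃ r' : K, ∀ t, f (s ^ 2 * t) = r' * f t := by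
    intro s
    by_cases hs : s = 0
    · refine ⟨0, fun t => ?_⟩
      rw [hs, zero_pow two_ne_zero, zero_mul, zero_mul, h0]
    · exact h s hs
  refine semi f hadd hne ?_
  intro r
  obtain ⟨a, ha⟩ := h' (r + 1)
  obtain ⟨b, hb⟩ := h' (r - 1)
  refine ⟨a - b, fun t => ?_⟩
  have e : r * t = (r + 1) ^ 2 * t - (r - 1) ^ 2 * t := by
    linear_combination (- r * t) * h3
  rw [e, hsub, ha, hb, sub_mul]

theorem norm_rigid [Infinite k] {K : Type*} [Field K] (θ' : K ≃+* K)
    (hθ' : ∀ t, θ' (θ' t) = t ^ p) (φ : k →+* K) (g : k → K)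
    (hadd : ∀ a b, g (a + b) = g a + g b) (hne : ∃ t, g t ≠ 0)
    (h : ∀ t v, g (t * θ t * v) = φ t * θ' (φ t) * g v) :
    (∀ t, φ (θ t) = θ' (φ t)) ∧ g 1 ≠ 0 ∧ ∀ v, g v = g 1 * φ v := by
  have h0 : g 0 = 0 := by
    have := hadd 0 0
    rw [add_zero] at this
    exact left_eq_add.1 this
  have hneg : ∀ a, g (-a) = - g a := by
    intro a
    have := hadd (-a) a
    rw [neg_add_cancel, h0] at this
    exact eq_neg_of_add_eq_zero_left this.symm
  let R : AddSubgroup k :=
    { carrier := {r | ∃ r' : K, ∀ v, g (r * v) = r' * g v}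
      add_mem' := by
        rintro a b ⟨a', ha⟩ ⟨b', hb⟩
        refine ⟨a' + b', fun v => ?_⟩
        rw [add_mul, hadd, ha, hb, add_mul]
      zero_mem' := by
        refine ⟨0, fun v => ?_⟩
        rw [zero_mul, zero_mul, h0]
      neg_mem' := by
        rintro a ⟨a', ha⟩
        refine ⟨-a', fun v => ?_⟩
        rw [neg_mul, neg_mul, hneg, ha] }
  have hR : R = ⊤ := by
    refine norm_span p θ hθ R ?_ ?_
    · rintro a ⟨a', ha⟩ b ⟨b', hb⟩
      refine ⟨a' * b', fun v => ?_⟩
      rw [mul_assoc, ha, hb, mul_assoc]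
    · intro t
      exact ⟨φ t * θ' (φ t), fun v => h t v⟩
  have hall : ∀ r, ∃ r' : K, ∀ v, g (r * v) = r' * g v := by
    intro r
    have : r ∈ R := by
      rw [hR]
      exact AddSubgroup.mem_top _
    exact this
  obtain ⟨ψ, hg1, hψ1, hψ2⟩ := semi g hadd hne hall
  have hprod : ∀ t, ψ t * ψ (θ t) = φ t * θ' (φ t) := by
    intro t
    have h2 := h t 1
    rw [hψ1, map_mul] at h2
    exact mul_right_cancel₀ hg1 h2
  have hsum : ∀ t, ψ t + ψ (θ t) = φ t + θ' (φ t) := by
    intro t
    have h2 := hprod (t + 1)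
    simp only [map_add, map_one] at h2
    linear_combination h2 - hprod t
  have hroot : ∀ t, ψ t = φ t ∨ ψ t = θ' (φ t) := by
    intro t
    have h2 : (ψ t - φ t) * (ψ t - θ' (φ t)) = 0 := by
      linear_combination (ψ t) * hsum t - hprod t
    rcases mul_eq_zero.1 h2 with h3 | h3
    · exact Or.inl (sub_eq_zero.1 h3)
    · exact Or.inr (sub_eq_zero.1 h3)
  rcases two_homs (ψ : k →+ K) (φ : k →+ K) ((θ' : K →+ K).comp (φ : k →+ K)) hroot with h4 | h4
  · have h5 : ∀ t, ψ t = φ t := h4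
    refine ⟨?_, hg1, ?_⟩
    · intro t
      have h6 := hsum t
      rw [h5, h5] at h6
      exact add_left_cancel h6
    · intro v
      rw [hψ2, h5]
  · exfalso
    have h5 : ∀ t, ψ t = θ' (φ t) := h4
    have h6 : ∀ t, θ' (φ (θ t)) = φ t := by
      intro t
      have h7 := hsum t
      rw [h5, h5, add_comm] at h7
      exact add_right_cancel h7
    have h7 : ∀ t, φ (θ t) = (θ' (φ t)) ^ p := by
      intro t
      rw [← h6 (θ t), hθ, map_pow, map_pow]
    have h8 : ∀ t : k, t ^ (p * p) = t := by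
      intro t
      apply φ.injective
      rw [map_pow]
      have h9 := h6 t
      rw [h7, map_pow, hθ', ← pow_mul] at h9
      exact h9
    have hpp : 1 < p * p := by
      have := (Fact.out : p.Prime).two_le
      nlinarith
    have hP : (Polynomial.X ^ (p * p) - Polynomial.X : Polynomial k) ≠ 0 := by
      intro h9
      have h10 : (Polynomial.X ^ (p * p) - Polynomial.X : Polynomial k).coeff (p * p) = 0 := by
        rw [h9, Polynomial.coeff_zero]
      rw [Polynomial.coeff_sub, Polynomial.coeff_X_pow_self, Polynomial.coeff_X_of_ne_one (by omega),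
        sub_zero] at h10
      exact one_ne_zero h10
    have hfin := Polynomial.finite_setOfPred_isRoot hP
    refine Set.infinite_univ (hfin.subset ?_)
    intro t _
    show (Polynomial.X ^ (p * p) - Polynomial.X : Polynomial k).eval t = 0
    rw [Polynomial.eval_sub, Polynomial.eval_pow, Polynomial.eval_X, h8, sub_self]

omit [Fact p.Prime] [CharP k p] hθ in
theorem zeta2 [Infinite k] [CharP k 2] (hθ : ∀ t, θ (θ t) = t ^ 2) {K : Type*} [Field K]
    (φ : k →+* K) (ζ : k → K) (hadd : ∀ a b, ζ (a + b) = ζ a + ζ b)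
    (h : ∀ s t, s ≠ 0 → ζ (s * t) = φ (s * θ s) * ζ t) (t : k) : ζ t = 0 := by
  classical
  by_contra ht
  have h2 : (2 : k) = 0 := CharTwo.two_eq_zero
  obtain ⟨s, hs⟩ := Infinite.exists_notMem_finset ({0, 1, -1} : Finset k)
  simp only [Finset.mem_insert, Finset.mem_singleton, not_or] at hs
  obtain ⟨hs0, hs1, hs2⟩ := hs
  have hs3 : s + 1 ≠ 0 := fun h3 => hs2 (eq_neg_of_add_eq_zero_left h3)
  have e1 := h (s + 1) t hs3
  rw [add_mul, hadd, h s t hs0, one_mul] at e1
  have e2 : φ ((s + 1) * θ (s + 1)) = φ (s * θ s + 1) := by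
    apply mul_right_cancel₀ ht
    rw [← e1, map_add φ (s * θ s) 1, map_one, add_mul, one_mul]
  have e3 := φ.injective e2
  rw [map_add θ, map_one] at e3
  have e4 : θ s = s := by linear_combination e3 - s * h2
  have e5 := hθ s
  rw [e4, e4] at e5
  have e6 : s * (s - 1) = 0 := by linear_combination -e5
  rcases mul_eq_zero.1 e6 with h3 | h3
  · exact hs0 h3
  · exact hs1 (sub_eq_zero.1 h3)

omit [Fact p.Prime] [CharP k p] hθ in
theorem zeta3a [Infinite k] [CharP k 3] (hθ : ∀ t, θ (θ t) = t ^ 3) {K : Type*} [Field K]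
    (φ : k →+* K) (ζ : k → K) (hadd : ∀ a b, ζ (a + b) = ζ a + ζ b)
    (h : ∀ s t, s ≠ 0 → ζ (s ^ 2 * t) = φ (s ^ 2 * θ (s ^ 2)) * ζ t) (t : k) : ζ t = 0 := by
  classical
  by_contra ht
  have h3 : (3 : k) = 0 := by
    have := CharP.cast_eq_zero k 3
    exact_mod_cast this
  obtain ⟨s, hs⟩ := Infinite.exists_notMem_finset ({0, 1, -1} : Finset k)
  simp only [Finset.mem_insert, Finset.mem_singleton, not_or] at hs
  obtain ⟨hs0, hs1, hs2⟩ := hs
  have hs3 : s + 1 ≠ 0 := fun h4 => hs2 (eq_neg_of_add_eq_zero_left h4)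
  have hs4 : s - 1 ≠ 0 := fun h4 => hs1 (sub_eq_zero.1 h4)
  have e0 : (s + 1) ^ 2 * t + (s - 1) ^ 2 * t = (s ^ 2 * t + s ^ 2 * t) + (t + t) := by ring
  have e1 := congrArg ζ e0
  rw [hadd, hadd, hadd, hadd, h _ _ hs3, h _ _ hs4, h _ _ hs0] at e1
  have e2 : φ ((s + 1) ^ 2 * θ ((s + 1) ^ 2) + (s - 1) ^ 2 * θ ((s - 1) ^ 2)) =
      φ ((s ^ 2 * θ (s ^ 2) + s ^ 2 * θ (s ^ 2)) + (1 + 1)) := by
    apply mul_right_cancel₀ ht
    rw [map_add φ, map_add φ (s ^ 2 * θ (s ^ 2) + s ^ 2 * θ (s ^ 2)), map_add φ (s ^ 2 * θ (s ^ 2)),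
      map_add φ 1 1, map_one]
    linear_combination e1
  have e3 := φ.injective e2
  simp only [map_pow, map_add, map_sub, map_one] at e3
  have h2 : (2 : k) ≠ 0 := by
    intro h4
    apply one_ne_zero (α := k)
    linear_combination h3 - h4
  have e4 : 2 * (s - θ s) ^ 2 = 0 := by
    linear_combination e3 - 4 * s * θ s * h3
  have e5 : s - θ s = 0 := by
    rcases mul_eq_zero.1 e4 with h4 | h4
    · exact absurd h4 h2
    · exact pow_eq_zero_iff (two_ne_zero) |>.1 h4
  have e6 : θ s = s := by linear_combination -e5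
  have e7 := hθ s
  rw [e6, e6] at e7
  have e8 : s * ((s - 1) * (s + 1)) = 0 := by linear_combination -e7
  rcases mul_eq_zero.1 e8 with h4 | h4
  · exact hs0 h4
  · rcases mul_eq_zero.1 h4 with h5 | h5
    · exact hs4 h5
    · exact hs3 h5

omit [Fact p.Prime] [CharP k p] hθ in
theorem zeta3b [Infinite k] [CharP k 3] (hθ : ∀ t, θ (θ t) = t ^ 3) {K : Type*} [Field K]
    (φ : k →+* K) (ζ : k → K) (hadd : ∀ a b, ζ (a + b) = ζ a + ζ b)
    (h : ∀ s t, s ≠ 0 → ζ (s ^ 2 * t) = φ (s ^ 4 * θ (s ^ 2)) * ζ t) (t : k) : ζ t = 0 := by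
  classical
  by_contra ht
  have h3 : (3 : k) = 0 := by
    have := CharP.cast_eq_zero k 3
    exact_mod_cast this
  obtain ⟨s, hs⟩ := Infinite.exists_notMem_finset ({0, 1, -1} : Finset k)
  simp only [Finset.mem_insert, Finset.mem_singleton, not_or] at hs
  obtain ⟨hs0, hs1, hs2⟩ := hs
  have hs3 : s + 1 ≠ 0 := fun h4 => hs2 (eq_neg_of_add_eq_zero_left h4)
  have hs4 : s - 1 ≠ 0 := fun h4 => hs1 (sub_eq_zero.1 h4)
  have e0 : (s + 1) ^ 2 * t + (s - 1) ^ 2 * t = (s ^ 2 * t + s ^ 2 * t) + (t + t) := by ring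
  have e1 := congrArg ζ e0
  rw [hadd, hadd, hadd, hadd, h _ _ hs3, h _ _ hs4, h _ _ hs0] at e1
  have e2 : φ ((s + 1) ^ 4 * θ ((s + 1) ^ 2) + (s - 1) ^ 4 * θ ((s - 1) ^ 2)) =
      φ ((s ^ 4 * θ (s ^ 2) + s ^ 4 * θ (s ^ 2)) + (1 + 1)) := by
    apply mul_right_cancel₀ ht
    rw [map_add φ, map_add φ (s ^ 4 * θ (s ^ 2) + s ^ 4 * θ (s ^ 2)), map_add φ (s ^ 4 * θ (s ^ 2)),
      map_add φ 1 1, map_one]
    linear_combination e1
  have e3 := φ.injective e2
  simp only [map_pow, map_add, map_sub, map_one] at e3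
  have h2 : (2 : k) ≠ 0 := by
    intro h4
    apply one_ne_zero (α := k)
    linear_combination h3 - h4
  have e4 : 2 * ((θ s - s) * (θ s - s ^ 3)) = 0 := by
    linear_combination e3 + (- 4 * s ^ 2 * θ s ^ 2 - 4 * s ^ 2 - 6 * s ^ 3 * θ s - 6 * s * θ s) * h3
  have e5 : (θ s - s) * θ (θ s - s) = 0 := by
    rw [map_sub, hθ]
    rcases mul_eq_zero.1 e4 with h4 | h4
    · exact absurd h4 h2
    · linear_combination -h4
  have e6 : θ s = s := by
    rcases mul_eq_zero.1 e5 with h4 | h4
    · exact sub_eq_zero.1 h4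
    · rw [map_eq_zero_iff θ θ.injective] at h4
      exact sub_eq_zero.1 h4
  have e7 := hθ s
  rw [e6, e6] at e7
  have e8 : s * ((s - 1) * (s + 1)) = 0 := by linear_combination -e7
  rcases mul_eq_zero.1 e8 with h4 | h4
  · exact hs0 h4
  · rcases mul_eq_zero.1 h4 with h5 | h5
    · exact hs4 h5
    · exact hs3 h5

end Pool.Agent.H86.UM
end

section
/- module Pool.Agent.H86.UM.ZB -/
/-!
# Project UM, Suzuki-Ree groups, module ZB: the unipotent group of type `²B₂`

`B2s`: root groups `A` (short), `B` (long), `P` (`A + B`, short), `Q` (`2 A + B`, long) in characteristic `2`, with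
`σ`. Compute in the group generated, which consists of the `A t * B u * P v * Q w`; `P, Q` are central,
`B b * A a = A a * B b * P (a b) * Q (a ^ 2 b)` (characteristic `2`: `P x = (P x)⁻¹`).
`σ (A t B u P v Q w) = A (θ⁻¹ u) B (θ t) P (θ⁻¹ u θ t + θ⁻¹ w) Q ((θ⁻¹ u) ^ 2 θ t + θ v)`.
`ker`: the commutator of `xx t 0` and `xx t' 0` is `xx 0 (t θ t' + t' θ t)`; the set of `v` with
`xx 0 v ∈ ⁅X, X⁆` is an additive group `M`, the additive group `M'` generated by the `t θ t' + t' θ t` is closed
under multiplication with `λ θ λ`, not `0` (`t' = 1`: otherwise `θ t = t` for all `t`, `t ^ 2 = t`), `norm_module`.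

`B2_rigid`: see the conclusion. Put `z(t, t') = t θ t' + t' θ t`. `F1` is a homomorphism of the group
`(t, v) (t', v') = (t + t', v + v' + t' θ t)` into an abelian group, so `F1 0 (z(t, t')) = 0`
(`(t, 0) (t', 0) = (t', 0) (t, 0) (0, z)`), so `F1 0 v = 0` for all `v` (`norm_module`), `F1 t v = f t`, `f`
additive. `f ≠ 0`: otherwise `F2` is an injective homomorphism into an abelian group. `hT`: `semi` (for
`r = 0` trivial): `f t = c * φ t`, `κ' = φ κ`. `g v = F2 0 v` is additive and
`g (z(t, t')) = f t * θ' (f t') + f t' * θ' (f t)` (compare `F2` of the two products). Replacing `t, t'` by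
`λ t, λ t'`: `g (λ θ λ z) = φ λ * θ' (φ λ) * g z` for `z = z(t, t')`, so (additive span, `norm_module`) for all
`z`. `g` is injective by `hinj`. `norm_rigid`: `φ θ = θ' φ`, `g v = g 1 * φ v`, and
`g 1 = c * θ' c` (take `z(t, t') ≠ 0`). `ζ t = F2 t 0` is additive now, `ζ (κ t) = φ (κ θ κ) ζ t`, so
`ζ = 0` (`zeta2`). `F2 t v = F2 t 0 + F2 0 v`.
-/

set_option autoImplicit false

namespace Pool.Agent.H86.UM

/-- Root groups of type `B₂` in characteristic `2` with `σ`. -/
structure B2s {k : Type*} [Field k] (θ : k ≃+* k) {G : Type*} [Group G] (A B P Q : k → G)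
    (σ : G →* G) : Prop where
  chr : CharP k 2
  hθ : ∀ t, θ (θ t) = t ^ 2
  hA : ∀ s t, A (s + t) = A s * A t
  hB : ∀ s t, B (s + t) = B s * B t
  hP : ∀ s t, P (s + t) = P s * P t
  hQ : ∀ s t, Q (s + t) = Q s * Q t
  AB : ∀ t u, A t * B u = P (t * u) * Q (t ^ 2 * u) * (B u * A t)
  AP : ∀ t v, A t * P v = P v * A t
  AQ : ∀ t w, A t * Q w = Q w * A t
  BP : ∀ u v, B u * P v = P v * B u
  BQ : ∀ u w, B u * Q w = Q w * B u
  PQ : ∀ v w, P v * Q w = Q w * P v
  uniq : ∀ t u v w, A t * B u * P v * Q w = 1 → t = 0 ∧ u = 0 ∧ v = 0 ∧ w = 0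
  σA : ∀ t, σ (A t) = B (θ t)
  σB : ∀ u, σ (B u) = A (θ.symm u)
  σP : ∀ v, σ (P v) = Q (θ v)
  σQ : ∀ w, σ (Q w) = P (θ.symm w)

/-- The elements fixed by `σ`. -/
def B2x {k : Type*} [Field k] (θ : k ≃+* k) {G : Type*} [Group G] (A B P Q : k → G) (t v : k) : G :=
  A t * B (θ t) * P v * Q (θ v + t ^ 2 * θ t)

theorem ZB_zspan {k : Type*} [Field k] [Infinite k] [CharP k 2] (θ : k ≃+* k)
    (hθ : ∀ t, θ (θ t) = t ^ 2) (M : AddSubgroup k)
    (hM : ∀ t t', t * θ t' + t' * θ t ∈ M) : M = ⊤ := by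
  haveI : Fact (Nat.Prime 2) := ⟨Nat.prime_two⟩
  let M' : AddSubgroup k := AddSubgroup.closure {x | ∃ t t', x = t * θ t' + t' * θ t}
  have hle : M' ≤ M := by
    rw [AddSubgroup.closure_le]
    rintro x ⟨t, t', rfl⟩
    exact hM t t'
  have htop : M' = ⊤ := by
    refine norm_module 2 θ hθ M' ?_ ?_
    · intro s v hv
      induction hv using AddSubgroup.closure_induction with
      | mem x hx =>
        obtain ⟨t, t', rfl⟩ := hx
        refine AddSubgroup.subset_closure ⟨s * t, s * t', ?_⟩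
        rw [map_mul, map_mul]; ring
      | zero => rw [mul_zero]; exact M'.zero_mem
      | add x y _ _ hx hy => rw [mul_add]; exact M'.add_mem hx hy
      | neg x _ hx => rw [mul_neg]; exact M'.neg_mem hx
    · by_contra hne
      push Not at hne
      have h1 : ∀ t : k, θ t = t := by
        intro t
        have := hne (t * θ 1 + 1 * θ t) (AddSubgroup.subset_closure ⟨t, 1, rfl⟩)
        rw [map_one, mul_one, one_mul] at this
        have h2 := CharTwo.add_eq_zero.mp this
        exact h2.symm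
      have h2 : ∀ t : k, t ^ 2 - t = 0 := by
        intro t
        have := hθ t
        rw [h1, h1] at this
        rw [← this, sub_self]
      have h3 : (Polynomial.X ^ 2 - Polynomial.X : Polynomial k) = 0 := by
        refine Polynomial.funext fun t => ?_
        simpa using h2 t
      have h4 := congrArg (fun q : Polynomial k => q.coeff 2) h3
      simp [Polynomial.coeff_X] at h4
  exact top_le_iff.mp (htop ▸ hle)

theorem ZB_znz {k : Type*} [Field k] [Infinite k] [CharP k 2] (θ : k ≃+* k)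
    (hθ : ∀ t, θ (θ t) = t ^ 2) : ∃ t : k, t + θ t ≠ 0 := by
  by_contra hne
  push Not at hne
  have h1 : ∀ t : k, θ t = t := fun t => (CharTwo.add_eq_zero.mp (hne t)).symm
  have h2 : ∀ t : k, t ^ 2 - t = 0 := by
    intro t
    have := hθ t
    rw [h1, h1] at this
    rw [← this, sub_self]
  have h3 : (Polynomial.X ^ 2 - Polynomial.X : Polynomial k) = 0 := by
    refine Polynomial.funext fun t => ?_
    simpa using h2 t
  have h4 := congrArg (fun q : Polynomial k => q.coeff 2) h3
  simp [Polynomial.coeff_X] at h4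

section
variable {k : Type*} [Field k] {θ : k ≃+* k} {G : Type*} [Group G] {A B P Q : k → G} {σ : G →* G}
  (h : B2s θ A B P Q σ)

include h

theorem ZB_A0 : A 0 = 1 := by
  have := h.hA 0 0
  rw [add_zero] at this
  exact left_eq_mul.mp this

theorem ZB_B0 : B 0 = 1 := by
  have := h.hB 0 0
  rw [add_zero] at this
  exact left_eq_mul.mp this

theorem ZB_P0 : P 0 = 1 := by
  have := h.hP 0 0
  rw [add_zero] at this
  exact left_eq_mul.mp this

theorem ZB_Q0 : Q 0 = 1 := by
  have := h.hQ 0 0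
  rw [add_zero] at this
  exact left_eq_mul.mp this

theorem ZB_BA (t u : k) : B u * A t = A t * B u * P (t * u) * Q (t ^ 2 * u) := by
  haveI := h.chr
  have e2 : ∀ x : k, x + x = 0 := fun x => CharTwo.add_self_eq_zero x
  have hP1 : P (t * u) * P (t * u) = 1 := by rw [← h.hP, e2, ZB_P0 h]
  have hQ1 : Q (t ^ 2 * u) * Q (t ^ 2 * u) = 1 := by rw [← h.hQ, e2, ZB_Q0 h]
  rw [h.AB]
  have c1 : B u * A t * P (t * u) = P (t * u) * (B u * A t) := by
    rw [mul_assoc, h.AP, ← mul_assoc, h.BP, mul_assoc]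
  have c2 : B u * A t * Q (t ^ 2 * u) = Q (t ^ 2 * u) * (B u * A t) := by
    rw [mul_assoc, h.AQ, ← mul_assoc, h.BQ, mul_assoc]
  have c3 := h.PQ (t * u) (t ^ 2 * u)
  generalize B u * A t = x at *
  generalize P (t * u) = y at *
  generalize Q (t ^ 2 * u) = z at *
  calc x = (y * y) * x * (z * z) := by rw [hP1, hQ1]; simp
    _ = y * (y * x) * z * z := by group
    _ = y * (x * y) * z * z := by rw [c1]
    _ = y * x * (y * z) * z := by group
    _ = y * x * (z * y) * z := by rw [c3]
    _ = y * (x * z) * y * z := by group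
    _ = y * (z * x) * y * z := by rw [c2]
    _ = y * z * x * y * z := by group

theorem ZB_mul (t u v w t' u' v' w' : k) :
    A t * B u * P v * Q w * (A t' * B u' * P v' * Q w') =
      A (t + t') * B (u + u') * P (v + v' + t' * u) * Q (w + w' + t' ^ 2 * u) := by
  have c1 : Q w * A t' = A t' * Q w := (h.AQ t' w).symm
  have c2 : Q w * B u' = B u' * Q w := (h.BQ u' w).symm
  have c3 : Q w * P v' = P v' * Q w := (h.PQ v' w).symm
  have c4 : P v * A t' = A t' * P v := (h.AP t' v).symm
  have c5 : P v * B u' = B u' * P v := (h.BP u' v).symm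
  have c6 := ZB_BA h t' u
  have c7 : Q (t' ^ 2 * u) * B u' = B u' * Q (t' ^ 2 * u) := (h.BQ u' _).symm
  have c8 : P (t' * u) * B u' = B u' * P (t' * u) := (h.BP u' _).symm
  have c9 : Q (t' ^ 2 * u) * P v = P v * Q (t' ^ 2 * u) := (h.PQ v _).symm
  have c9' : Q (t' ^ 2 * u) * P v' = P v' * Q (t' ^ 2 * u) := (h.PQ v' _).symm
  have c10 : P (t' * u) * P v = P v * P (t' * u) := by rw [← h.hP, ← h.hP, add_comm]
  have c10' : P (t' * u) * P v' = P v' * P (t' * u) := by rw [← h.hP, ← h.hP, add_comm]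
  have c11 : Q (t' ^ 2 * u) * Q w = Q w * Q (t' ^ 2 * u) := by rw [← h.hQ, ← h.hQ, add_comm]
  have c12 : Q (t' ^ 2 * u) * Q w' = Q w' * Q (t' ^ 2 * u) := by rw [← h.hQ, ← h.hQ, add_comm]
  rw [h.hA, h.hB, h.hP, h.hP, h.hQ, h.hQ]
  generalize P (t' * u) = p at *
  generalize Q (t' ^ 2 * u) = q at *
  calc A t * B u * P v * Q w * (A t' * B u' * P v' * Q w')
      = A t * B u * P v * (Q w * A t') * B u' * P v' * Q w' := by group
    _ = A t * B u * (P v * A t') * (Q w * B u') * P v' * Q w' := by rw [c1]; group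
    _ = A t * (B u * A t') * (P v * B u') * (Q w * P v') * Q w' := by rw [c2, c4]; group
    _ = A t * A t' * B u * p * (q * B u') * P v * P v' * Q w * Q w' := by
        rw [c3, c5, c6]; group
    _ = A t * A t' * B u * (p * B u') * (q * P v) * P v' * Q w * Q w' := by rw [c7]; group
    _ = A t * A t' * (B u * B u') * (p * P v) * (q * P v') * Q w * Q w' := by
        rw [c8, c9]; group
    _ = A t * A t' * (B u * B u') * P v * (p * P v') * (q * Q w) * Q w' := by
        rw [c10, c9']; group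
    _ = A t * A t' * (B u * B u') * P v * P v' * p * Q w * (q * Q w') := by
        rw [c10', c11]; group
    _ = A t * A t' * (B u * B u') * (P v * P v' * p) * (Q w * Q w' * q) := by
        rw [c12]; group

theorem B2_coord (t u v w t' u' v' w' : k) (e : A t * B u * P v * Q w = A t' * B u' * P v' * Q w') :
    t = t' ∧ u = u' ∧ v = v' ∧ w = w' := by
  haveI := h.chr
  -- multiply by the form with coordinates making the inverse
  have hm := ZB_mul h t u v w t' u' (v' + t' * u') (w' + t' ^ 2 * u')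
  have hm' := ZB_mul h t' u' v' w' t' u' (v' + t' * u') (w' + t' ^ 2 * u')
  have e2 : ∀ x : k, x + x = 0 := fun x => CharTwo.add_self_eq_zero x
  have h1 : A t' * B u' * P v' * Q w' * (A t' * B u' * P (v' + t' * u') * Q (w' + t' ^ 2 * u'))
      = 1 := by
    rw [hm', e2, e2]
    have e3 : v' + (v' + t' * u') + t' * u' = 0 := by linear_combination e2 v' + e2 (t' * u')
    have e4 : w' + (w' + t' ^ 2 * u') + t' ^ 2 * u' = 0 := by
      linear_combination e2 w' + e2 (t' ^ 2 * u')
    rw [e3, e4, ZB_A0 h, ZB_B0 h, ZB_P0 h, ZB_Q0 h]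
    simp
  rw [e, h1] at hm
  obtain ⟨a1, a2, a3, a4⟩ := h.uniq _ _ _ _ hm.symm
  have b1 : t = t' := CharTwo.add_eq_zero.mp a1
  have b2 : u = u' := CharTwo.add_eq_zero.mp a2
  subst b1 b2
  refine ⟨rfl, rfl, ?_, ?_⟩
  · apply CharTwo.add_eq_zero.mp
    linear_combination a3 - e2 (t * u)
  · apply CharTwo.add_eq_zero.mp
    linear_combination a4 - e2 (t ^ 2 * u)

theorem B2_mul_form (t u v w t' u' v' w' : k) :
    A t * B u * P v * Q w * (A t' * B u' * P v' * Q w') =
      A (t + t') * B (u + u') * P (v + v' + t' * u) * Q (w + w' + t' ^ 2 * u) :=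
  ZB_mul h t u v w t' u' v' w'

theorem ZB_sig (t u v w : k) : σ (A t * B u * P v * Q w) =
    A (θ.symm u) * B (θ t) * P (θ.symm w + θ.symm u * θ t) *
      Q (θ v + θ.symm u ^ 2 * θ t) := by
  rw [map_mul, map_mul, map_mul, h.σA, h.σB, h.σP, h.σQ, ZB_BA h]
  have c1 : Q (θ v) * P (θ.symm w) = P (θ.symm w) * Q (θ v) := (h.PQ _ _).symm
  have c2 : Q (θ.symm u ^ 2 * θ t) * Q (θ v) = Q (θ v) * Q (θ.symm u ^ 2 * θ t) := by
    rw [← h.hQ, ← h.hQ, add_comm]
  have c3 : Q (θ.symm u ^ 2 * θ t) * P (θ.symm w) = P (θ.symm w) * Q (θ.symm u ^ 2 * θ t) :=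
    (h.PQ _ _).symm
  have c4 : P (θ.symm u * θ t) * P (θ.symm w) = P (θ.symm w) * P (θ.symm u * θ t) := by
    rw [← h.hP, ← h.hP, add_comm]
  rw [h.hP, h.hQ]
  generalize P (θ.symm u * θ t) = p at *
  generalize Q (θ.symm u ^ 2 * θ t) = q at *
  calc A (θ.symm u) * B (θ t) * p * q * Q (θ v) * P (θ.symm w)
      = A (θ.symm u) * B (θ t) * p * q * (Q (θ v) * P (θ.symm w)) := by group
    _ = A (θ.symm u) * B (θ t) * p * (q * P (θ.symm w)) * Q (θ v) := by rw [c1]; group
    _ = A (θ.symm u) * B (θ t) * (p * P (θ.symm w)) * (q * Q (θ v)) := by rw [c3]; group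
    _ = A (θ.symm u) * B (θ t) * (P (θ.symm w) * p) * (Q (θ v) * q) := by rw [c4, c2]

theorem B2_fix (t v : k) : σ (B2x θ A B P Q t v) = B2x θ A B P Q t v := by
  haveI := h.chr
  have e2 : ∀ x : k, x + x = 0 := fun x => CharTwo.add_self_eq_zero x
  unfold B2x
  rw [ZB_sig h, RingEquiv.symm_apply_apply]
  have h1 : θ.symm (θ v + t ^ 2 * θ t) = v + θ t * t := by
    rw [map_add, map_mul, RingEquiv.symm_apply_apply, RingEquiv.symm_apply_apply, ← h.hθ,
      RingEquiv.symm_apply_apply]
  rw [h1]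
  have h3 : v + θ t * t + t * θ t = v := by linear_combination e2 (t * θ t)
  rw [h3]

theorem B2_form (t u v w : k) (e : σ (A t * B u * P v * Q w) = A t * B u * P v * Q w) :
    A t * B u * P v * Q w = B2x θ A B P Q t v := by
  rw [ZB_sig h] at e
  obtain ⟨a1, a2, a3, a4⟩ := B2_coord h _ _ _ _ _ _ _ _ e
  unfold B2x
  rw [← a4, ← a2, ← a1]
  have h1 : θ.symm (θ (θ.symm u)) = θ.symm u := by rw [RingEquiv.symm_apply_apply]
  rw [h1]

theorem B2_mul (t v t' v' : k) : B2x θ A B P Q t v * B2x θ A B P Q t' v' =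
    B2x θ A B P Q (t + t') (v + v' + t' * θ t) := by
  haveI := h.chr
  have e2 : ∀ x : k, x + x = 0 := fun x => CharTwo.add_self_eq_zero x
  unfold B2x
  rw [ZB_mul h, map_add, map_add, map_add, map_mul, h.hθ]
  have h1 : θ v + t ^ 2 * θ t + (θ v' + t' ^ 2 * θ t') + t' ^ 2 * θ t =
      θ v + θ v' + θ t' * t ^ 2 + (t + t') ^ 2 * (θ t + θ t') := by
    linear_combination (-1) * e2 (t ^ 2 * θ t') - (t * t' * (θ t + θ t')) * e2 1
  rw [h1]

open scoped commutatorElement in
theorem B2_ker [Infinite k] (X : Subgroup G) (hX : ∀ x, x ∈ X ↔ ∃ t v, x = B2x θ A B P Q t v)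
    (v : k) : B2x θ A B P Q 0 v ∈ ⁅X, X⁆ := by
  haveI := h.chr
  have e2 : ∀ x : k, x + x = 0 := fun x => CharTwo.add_self_eq_zero x
  have hmul : ∀ v v', B2x θ A B P Q 0 v * B2x θ A B P Q 0 v' = B2x θ A B P Q 0 (v + v') := by
    intro v v'
    rw [B2_mul h, zero_mul, add_zero, add_zero]
  have hone : B2x θ A B P Q 0 0 = 1 := by
    unfold B2x
    simp [ZB_A0 h, ZB_B0 h, ZB_P0 h, ZB_Q0 h]
  let M : AddSubgroup k :=
    { carrier := {v | B2x θ A B P Q 0 v ∈ ⁅X, X⁆}
      zero_mem' := by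
        change B2x θ A B P Q 0 0 ∈ ⁅X, X⁆
        rw [hone]; exact Subgroup.one_mem _
      add_mem' := by
        intro a b ha hb
        change B2x θ A B P Q 0 (a + b) ∈ ⁅X, X⁆
        rw [← hmul]; exact Subgroup.mul_mem _ ha hb
      neg_mem' := by
        intro a ha
        change B2x θ A B P Q 0 (-a) ∈ ⁅X, X⁆
        have : -a = a := CharTwo.neg_eq a
        rw [this]; exact ha }
  have hM : M = ⊤ := by
    refine ZB_zspan θ h.hθ M ?_
    intro t t'
    change B2x θ A B P Q 0 (t * θ t' + t' * θ t) ∈ ⁅X, X⁆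
    have hx : B2x θ A B P Q t 0 ∈ X := (hX _).2 ⟨t, 0, rfl⟩
    have hy : B2x θ A B P Q t' 0 ∈ X := (hX _).2 ⟨t', 0, rfl⟩
    have hc := Subgroup.commutator_mem_commutator hx hy
    have h1 : B2x θ A B P Q 0 (t * θ t' + t' * θ t) *
        (B2x θ A B P Q t' 0 * B2x θ A B P Q t 0) = B2x θ A B P Q t 0 * B2x θ A B P Q t' 0 := by
      rw [B2_mul h t' 0 t 0, B2_mul h, B2_mul h]
      have a1 : (0 : k) + (t' + t) = t + t' := by ring
      have a2 : t * θ t' + t' * θ t + (0 + 0 + t * θ t') + (t' + t) * θ 0 = 0 + 0 + t' * θ t := by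
        rw [map_zero]; linear_combination e2 (t * θ t')
      rw [a1, a2]
    have h2 : B2x θ A B P Q 0 (t * θ t' + t' * θ t) =
        ⁅B2x θ A B P Q t 0, B2x θ A B P Q t' 0⁆ := by
      rw [commutatorElement_def, ← h1]; group
    rw [h2]; exact hc
  have : v ∈ M := by rw [hM]; exact AddSubgroup.mem_top v
  exact this

end

theorem B2_rigid {k K : Type*} [Field k] [Field K] [Infinite k] [CharP k 2] [CharP K 2]
    (θ : k ≃+* k) (θ' : K ≃+* K)
    (hθ : ∀ t, θ (θ t) = t ^ 2) (hθ' : ∀ t, θ' (θ' t) = t ^ 2) (F1 F2 : k → k → K)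
    (h1 : ∀ t v t' v', F1 (t + t') (v + v' + t' * θ t) = F1 t v + F1 t' v')
    (h2 : ∀ t v t' v', F2 (t + t') (v + v' + t' * θ t) =
      F2 t v + F2 t' v' + F1 t' v' * θ' (F1 t v))
    (hinj : ∀ t v, F1 t v = 0 → F2 t v = 0 → t = 0 ∧ v = 0)
    (hT : ∀ κ, κ ≠ 0 → ∃ κ', κ' ≠ 0 ∧ ∀ t v, F1 (κ * t) (κ * θ κ * v) = κ' * F1 t v ∧
      F2 (κ * t) (κ * θ κ * v) = κ' * θ' κ' * F2 t v) :
    ∃ (c : K) (φ : k →+* K), c ≠ 0 ∧ (∀ t, φ (θ t) = θ' (φ t)) ∧
      ∀ t v, F1 t v = c * φ t ∧ F2 t v = c * θ' c * φ v := by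
  haveI : Fact (Nat.Prime 2) := ⟨Nat.prime_two⟩
  have e2 : ∀ x : k, x + x = 0 := fun x => CharTwo.add_self_eq_zero x
  have E2 : ∀ x : K, x + x = 0 := fun x => CharTwo.add_self_eq_zero x
  have hF1c : ∀ t v v', F1 t (v + v') = F1 t v + F1 0 v' := by
    intro t v v'
    have := h1 t v 0 v'
    rwa [add_zero, zero_mul, add_zero] at this
  have hF100 : F1 0 0 = 0 := by
    have := hF1c 0 0 0
    rw [add_zero] at this
    exact left_eq_add.mp this
  have hF1z : ∀ t t', F1 0 (t * θ t' + t' * θ t) = 0 := by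
    intro t t'
    have a1 := h1 t 0 t' 0
    have a2 := h1 t' 0 t 0
    rw [add_zero, zero_add] at a1 a2
    have a3 := hF1c (t + t') (t * θ t') (t * θ t' + t' * θ t)
    have a4 : t * θ t' + (t * θ t' + t' * θ t) = t' * θ t := by
      linear_combination e2 (t * θ t')
    rw [a4, a1, add_comm t t', a2, add_comm (F1 t' 0)] at a3
    exact left_eq_add.mp a3
  have hF10 : ∀ v, F1 0 v = 0 := by
    intro v
    let M : AddSubgroup k :=
      { carrier := {v | F1 0 v = 0}
        zero_mem' := hF100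
        add_mem' := by
          intro a b ha hb
          change F1 0 (a + b) = 0
          rw [hF1c]
          change F1 0 a = 0 at ha
          change F1 0 b = 0 at hb
          rw [ha, hb, add_zero]
        neg_mem' := by
          intro a ha
          change F1 0 (-a) = 0
          rw [CharTwo.neg_eq]; exact ha }
    have hM : M = ⊤ := ZB_zspan θ hθ M hF1z
    have : v ∈ M := by rw [hM]; exact AddSubgroup.mem_top v
    exact this
  have hF1t : ∀ t v, F1 t v = F1 t 0 := by
    intro t v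
    have := hF1c t 0 v
    rw [zero_add, hF10, add_zero] at this
    exact this
  have hfadd : ∀ a b, F1 (a + b) 0 = F1 a 0 + F1 b 0 := by
    intro a b
    have := h1 a 0 b 0
    rw [hF1t] at this
    exact this
  have hgc : ∀ t v v', F2 t (v + v') = F2 t v + F2 0 v' := by
    intro t v v'
    have := h2 t v 0 v'
    rwa [add_zero, zero_mul, add_zero, hF10, zero_mul, add_zero] at this
  have hgz : ∀ t t', F2 0 (t * θ t' + t' * θ t) =
      F1 t' 0 * θ' (F1 t 0) + F1 t 0 * θ' (F1 t' 0) := by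
    intro t t'
    have a1 := h2 t 0 t' 0
    have a2 := h2 t' 0 t 0
    rw [add_zero, zero_add] at a1 a2
    have a3 := hgc (t + t') (t * θ t') (t * θ t' + t' * θ t)
    have a4 : t * θ t' + (t * θ t' + t' * θ t) = t' * θ t := by
      linear_combination e2 (t * θ t')
    rw [a4, a1, add_comm t t', a2] at a3
    linear_combination (-1) * a3 - E2 (F1 t 0 * θ' (F1 t' 0))
  obtain ⟨t0, ht0⟩ := ZB_znz θ hθ
  have hz0 : t0 * θ 1 + 1 * θ t0 = t0 + θ t0 := by rw [map_one, mul_one, one_mul]
  have hfne : ∃ t, F1 t 0 ≠ 0 := by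
    by_contra hne
    push Not at hne
    have a1 := hgz t0 1
    rw [hne, hne, map_zero, mul_zero, add_zero, hz0] at a1
    exact ht0 (hinj 0 _ (hF10 _) a1).2
  obtain ⟨φ, hc, hφ, hφ1⟩ := semi (fun t => F1 t 0) hfadd hfne (by
    intro r
    by_cases hr : r = 0
    · exact ⟨0, fun t => by simp [hr, hF100]⟩
    · obtain ⟨r', _, h'⟩ := hT r hr
      refine ⟨r', fun t => ?_⟩
      have := (h' t 0).1
      rwa [mul_zero] at this)
  have hκ : ∀ κ, κ ≠ 0 → ∀ t v, F2 (κ * t) (κ * θ κ * v) = φ κ * θ' (φ κ) * F2 t v := by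
    intro κ hκ t v
    obtain ⟨κ', _, h'⟩ := hT κ hκ
    obtain ⟨s, hs⟩ := hfne
    have a1 := (h' s 0).1
    rw [mul_zero] at a1
    have a2 := hφ κ s
    have a3 : κ' = φ κ := by
      have : κ' * F1 s 0 = φ κ * F1 s 0 := by rw [← a1]; exact a2
      exact mul_right_cancel₀ hs this
    rw [← a3]
    exact (h' t v).2
  have hg0 : F2 0 0 = 0 := by
    have := hgc 0 0 0
    rw [add_zero] at this
    exact left_eq_add.mp this
  obtain ⟨hφθ, hg1, hg⟩ := norm_rigid 2 θ hθ θ' hθ' φ (fun v => F2 0 v) (fun a b => hgc 0 a b)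
    ⟨1, fun h0 => one_ne_zero (hinj 0 1 (hF10 1) h0).2⟩ (by
      intro t v
      by_cases ht : t = 0
      · simp [ht, hg0]
      · have := hκ t ht 0 v
        rwa [mul_zero] at this)
  have hcc : F2 0 1 = F1 1 0 * θ' (F1 1 0) := by
    have a1 := hgz t0 1
    rw [hz0] at a1
    have a2 : F2 0 (t0 + θ t0) = F2 0 1 * φ (t0 + θ t0) := hg _
    have a3 : F1 t0 0 = F1 1 0 * φ t0 := hφ1 t0
    rw [a2, a3, map_mul, ← hφθ] at a1
    have a4 : φ (t0 + θ t0) ≠ 0 := by
      rw [Ne, map_eq_zero]; exact ht0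
    apply mul_right_cancel₀ a4
    rw [a1, map_add]; ring
  have hζadd : ∀ a b, F2 (a + b) 0 = F2 a 0 + F2 b 0 := by
    intro a b
    have a1 := h2 a 0 b 0
    rw [add_zero] at a1
    have a2 := hgc (a + b) 0 (b * θ a)
    have a3 : F2 0 (b * θ a) = F2 0 1 * φ (b * θ a) := hg _
    have a4 : F1 a 0 = F1 1 0 * φ a := hφ1 a
    have a5 : F1 b 0 = F1 1 0 * φ b := hφ1 b
    rw [a1, a3, hcc, a4, a5, map_mul, map_mul, hφθ] at a2
    linear_combination (-1) * a2
  have hζ : ∀ t, F2 t 0 = 0 := by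
    intro t
    refine zeta2 θ hθ φ (fun t => F2 t 0) hζadd ?_ t
    intro s t hs
    have := hκ s hs t 0
    rw [mul_zero] at this
    rw [map_mul, hφθ]
    exact this
  refine ⟨F1 1 0, φ, hc, hφθ, fun t v => ⟨?_, ?_⟩⟩
  · rw [hF1t]; exact hφ1 t
  · have a1 := hgc t 0 v
    have a2 : F2 0 v = F2 0 1 * φ v := hg v
    rw [zero_add, hζ, zero_add, a2, hcc] at a1
    exact a1

end Pool.Agent.H86.UM
end
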