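import Pool.Agent.H86.AL.M02
import Pool.Agent.H86.AL.M04
import Pool.Agent.H86.AL.M05

/-!
# M06: collected modules

Pool.Agent.H75.UL.S9
Pool.Agent.H75.UL.T10
Pool.Agent.H75.UL.C1
Pool.Agent.H75.UL.M0
-/

section
/- module Pool.Agent.H75.UL.S9 -/
/-!
# Project UL (MP_978914_al), module S9

The kernel of a map to the adjoint group is central.

`y ∈ gen`, Bruhat (`StSys.bruhat` for `S`): `y = u ν v`. `p u, p v ∈ (adS K).U 1`, `p ν ∈ (adS K).N`
(closure maps; `p (nn S.x α t) = nn (xg K) α t`). `p ν = (p u)⁻¹ (p v)⁻¹` satisfies `Fil 0`, and if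
`w` is as in `S.N_acts ν`, then `(adS K).Acts (p ν) w`; as in `upper`, `w = 1`; so `ν = τ ∈ S.T`.
Write `y = τ u'` with `u' = (τ⁻¹ u τ) v ∈ S.U 1`, `u' = S.lp posList t` (`exists_lp`).
`1 = p τ * p u'`, `Fil 1 (p u' - 1)` and `p τ` diagonal (`T_diag`): so `p τ = 1` and `p u' = 1`;
`p u' = (adS K).lp posList t`, so `t β = 0` for all positive `β` (`lp_unique` with `t' = 0`) and
`u' = 1`. So `y = τ`; `τ x_β(u) τ⁻¹ = x_β(c_β u)` (`S.T_acts'`), apply `p`: `xg β u = xg β (c_β u)`,
so `c_β = 1` (`xg_inj`), `τ` commutes with all generators.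
-/

set_option autoImplicit false
open Matrix
universe u
namespace Pool.Agent.H75.UL

namespace SLC
variable {n : ℕ} (C : SLC n) {K : Type*} [Field K]

theorem S9_nn {H : Type*} [Group H] (S : StSys C K H) (p : H →* GL C.Idx K)
    (hp : ∀ β t, p (S.x β t) = C.xg K β t) (α : C.Root) (t : K) :
    p (nn S.x α t) = nn (C.xg K) α t := by
  unfold nn
  rw [map_mul, map_mul, hp, hp]

theorem S9_hh {H : Type*} [Group H] (S : StSys C K H) (p : H →* GL C.Idx K)
    (hp : ∀ β t, p (S.x β t) = C.xg K β t) (α : C.Root) (t : K) :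
    p (hh S.x α t) = hh (C.xg K) α t := by
  unfold hh
  rw [map_mul, C.S9_nn S p hp, C.S9_nn S p hp]

theorem S9_U {H : Type*} [Group H] (S : StSys C K H) (p : H →* GL C.Idx K)
    (hp : ∀ β t, p (S.x β t) = C.xg K β t) (m : ℤ) (u : H) (hu : u ∈ S.U m) :
    p u ∈ (C.adS K).U m := by
  have h : S.U m ≤ ((C.adS K).U m).comap p := by
    unfold StSys.U
    rw [Subgroup.closure_le]
    rintro g ⟨β, t, hβ, rfl⟩
    rw [SetLike.mem_coe, Subgroup.mem_comap, hp]
    exact Subgroup.subset_closure ⟨β, t, hβ, rfl⟩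
  exact h hu

theorem S9_N {H : Type*} [Group H] (S : StSys C K H) (p : H →* GL C.Idx K)
    (hp : ∀ β t, p (S.x β t) = C.xg K β t) (u : H) (hu : u ∈ S.N) :
    p u ∈ (C.adS K).N := by
  have h : S.N ≤ ((C.adS K).N).comap p := by
    unfold StSys.N
    rw [Subgroup.closure_le]
    rintro g ⟨β, t, hβ, rfl⟩
    rw [SetLike.mem_coe, Subgroup.mem_comap, C.S9_nn S p hp]
    exact Subgroup.subset_closure ⟨β, t, hβ, rfl⟩
  exact h hu

theorem S9_T {H : Type*} [Group H] (S : StSys C K H) (p : H →* GL C.Idx K)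
    (hp : ∀ β t, p (S.x β t) = C.xg K β t) (u : H) (hu : u ∈ S.T) :
    p u ∈ (C.adS K).T := by
  have h : S.T ≤ ((C.adS K).T).comap p := by
    unfold StSys.T
    rw [Subgroup.closure_le]
    rintro g ⟨β, t, hβ, rfl⟩
    rw [SetLike.mem_coe, Subgroup.mem_comap, C.S9_hh S p hp]
    exact Subgroup.subset_closure ⟨β, t, hβ, rfl⟩
  exact h hu

theorem S9_lp {H : Type*} [Group H] (S : StSys C K H) (p : H →* GL C.Idx K)
    (hp : ∀ β t, p (S.x β t) = C.xg K β t) (l : List C.Root) (t : C.Root → K) :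
    p (S.lp l t) = (C.adS K).lp l t := by
  unfold StSys.lp
  rw [map_list_prod, List.map_map]
  congr 1
  apply List.map_congr_left
  intro β _
  show p (S.x β (t β)) = _
  rw [hp, adS_x]

theorem S9_T_one (τ : GL C.Idx K) (hτ : τ ∈ (C.adS K).T) (hu : τ ∈ (C.adS K).U 1) : τ = 1 := by
  obtain ⟨c, hc⟩ := C.T_diag τ hτ
  have hF := C.Fil_U 1 le_rfl τ hu
  have hd : ∀ a, (τ : Matrix C.Idx C.Idx K) a a = 1 := by
    intro a
    have h1 := hF a a (by omega)
    rw [Matrix.sub_apply, Matrix.one_apply_eq, sub_eq_zero] at h1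
    exact h1
  apply Units.ext
  rw [hc] at hd ⊢
  ext a b
  by_cases hab : a = b
  · subst hab
    rw [hd a, Units.val_one, Matrix.one_apply_eq]
  · rw [Matrix.diagonal_apply_ne _ hab, Units.val_one, Matrix.one_apply_ne hab]

theorem ker_central {H : Type*} [Group H] (S : StSys C K H) (hgen : S.gen = ⊤)
    (p : H →* GL C.Idx K) (hp : ∀ β t, p (S.x β t) = C.xg K β t) (y : H) (hy : p y = 1) :
    y ∈ Subgroup.center H := by
  have hy' : y ∈ S.gen := by rw [hgen]; exact Subgroup.mem_top y
  obtain ⟨u, hu, ν, hν, v, hv, rfl⟩ := S.bruhat y hy'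
  have hpu := C.S9_U S p hp 1 u hu
  have hpv := C.S9_U S p hp 1 v hv
  have hpν := C.S9_N S p hp ν hν
  rw [map_mul, map_mul] at hy
  have e1 : p ν = (p u)⁻¹ * (p v)⁻¹ := by
    rw [eq_inv_mul_iff_mul_eq, eq_inv_iff_mul_eq_one]
    exact hy
  have hF : C.Fil 0 ((p ν : GL C.Idx K) : Matrix C.Idx C.Idx K) := by
    apply C.Fil_U_zero
    rw [e1]
    exact mul_mem (inv_mem hpu) (inv_mem hpv)
  obtain ⟨w, hw, hacts, hwT⟩ := S.N_acts ν hν
  have hacts' : (C.adS K).Acts (p ν) w := by
    obtain ⟨c, hc, hc2⟩ := hacts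
    refine ⟨c, hc, fun β t => ?_⟩
    have h1 := congrArg p (hc2 β t)
    rw [map_mul, map_mul, map_inv, hp, hp] at h1
    exact h1
  obtain ⟨-, -, -, -, hne⟩ := C.N_mono (p ν) w hacts' hpν
  have hw1 : w = 1 := by
    apply C.eq_one_of_pos w hw
    intro i
    by_contra hneg
    apply hne (C.simple i)
    apply hF
    unfold Pos at hneg
    have h1 := C.ht_simple i
    show ht (w (C.simple i)).1 < ht (C.simple i).1 + 0
    omega
  have hνT := hwT hw1
  set u' := ν⁻¹ * u * ν * v with hu'def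
  have hu' : u' ∈ S.U 1 := by
    apply mul_mem _ hv
    have h1 := S.T_conj_U 1 ν⁻¹ u (inv_mem hνT) hu
    rwa [inv_inv] at h1
  have hy2 : u * ν * v = ν * u' := by
    rw [hu'def]
    group
  have hpu' := C.S9_U S p hp 1 u' hu'
  have e2 : p ν * p u' = 1 := by
    rw [← map_mul, ← hy2, map_mul, map_mul]
    exact hy
  have hν1 : p ν = 1 := by
    apply C.S9_T_one _ (C.S9_T S p hp ν hνT)
    rw [eq_inv_of_mul_eq_one_left e2]
    exact inv_mem hpu'
  have hu1 : p u' = 1 := by
    rw [hν1, one_mul] at e2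
    exact e2
  obtain ⟨t, ht0, htu⟩ := S.exists_lp 1 le_rfl u' hu'
  have hlp : (C.adS K).lp C.posList t = (C.adS K).lp C.posList (fun _ => 0) := by
    rw [(C.adS K).lp_zero C.posList (fun _ => 0) (fun _ _ => rfl), ← C.S9_lp S p hp, ← htu, hu1]
  have hu'1 : u' = 1 := by
    rw [htu]
    apply S.lp_zero
    intro β hβ
    exact C.lp_unique t (fun _ => 0) hlp β ((C.mem_posList β).1 hβ)
  rw [hy2, hu'1, mul_one]
  obtain ⟨c, hc, -, hc2⟩ := S.T_acts' ν hνT
  have hcomm : ∀ β t, ν * S.x β t * ν⁻¹ = S.x β t := by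
    intro β t
    rw [hc2 β t]
    have h1 := congrArg p (hc2 β 1)
    rw [map_mul, map_mul, map_inv, hp, hp, hν1, one_mul, inv_one, mul_one] at h1
    have h2 := (C.xg_inj β β 1 (c β * 1) one_ne_zero h1).2
    rw [mul_one] at h2
    rw [← h2, one_mul]
  rw [Subgroup.mem_center_iff]
  intro g
  have hg : g ∈ S.gen := by rw [hgen]; exact Subgroup.mem_top g
  have hle : S.gen ≤ Subgroup.centralizer {ν} := by
    unfold StSys.gen
    rw [Subgroup.closure_le]
    rintro x ⟨β, t, rfl⟩
    rw [SetLike.mem_coe, Subgroup.mem_centralizer_iff]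
    intro z hz
    rw [Set.mem_singleton_iff] at hz
    subst hz
    have h1 := hcomm β t
    rw [mul_inv_eq_iff_eq_mul] at h1
    exact h1
  have h1 := hle hg
  rw [Subgroup.mem_centralizer_iff] at h1
  exact (h1 ν rfl).symm

end SLC

end Pool.Agent.H75.UL
end

section
/- module Pool.Agent.H75.UL.T10 -/
/-!
# Project UL (MP_978914_al), module T10

The adjoint group has trivial centralizer.

`z` commutes with `t E_β + t² F_β` for all `t`, so (two values of `t` with `t₁ t₂ (t₂ - t₁) ≠ 0`, `K`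
infinite) with `E_β` and `F_β` (cast to `K`). From `z F_β = F_β z`: the column `inr β` of `z` is
`λ_β e_β` (`F_β e_{-β} = e_β`). From `z E_β = E_β z` on `e_{-β}` (`E_β e_{-β} = -h_β`):
`z h_β = λ_{-β} h_β`. So `z` is upper triangular (`Fil 0`: the columns `inl j` are `z h_{α_j} =
λ h_{α_j}`; note `h_{α_j} = inl j` basis vector), `z = τ u` (`upper`), hence the diagonal entry at
`inl j` is `1`: `λ_{-α_j} = 1` for all `j`, i.e. `z h_j = h_j`. Then for every root `β` and `j` with
`(α_j, β) ≠ 0` in `K`: `z E_β h_j = E_β z h_j`, `-(α_j,β) z e_β = -(α_j,β) e_β`, so `λ_β = 1`; to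
have such a `j` when `char K = 2` use instead `z E_α e_β = E_α z e_β`: `λ_{α+β} = λ_β` whenever
`α + β` is a root, and `λ_{-α_j} = 1`, `λ_{α_j} = 1` (the same argument with `β = -α_j`:
`z h = λ_{α_j} h`). Every root is reached from a simple root or a negative simple root
(`exists_descent`). So `z = 1`.
-/

set_option autoImplicit false
open Matrix
universe u
namespace Pool.Agent.H75.UL

namespace SLC
variable {n : ℕ} (C : SLC n) {K : Type*} [Field K]

theorem T10_EF [Infinite K] (z : GL C.Idx K) (h : ∀ β t, z * C.xg K β t = C.xg K β t * z)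
    (β : C.Root) :
    (z : Matrix C.Idx C.Idx K) * (C.E β).map (Int.cast : ℤ → K) =
        (C.E β).map (Int.cast : ℤ → K) * (z : Matrix C.Idx C.Idx K) ∧
      (z : Matrix C.Idx C.Idx K) * (C.F β).map (Int.cast : ℤ → K) =
        (C.F β).map (Int.cast : ℤ → K) * (z : Matrix C.Idx C.Idx K) := by
  classical
  set Z : Matrix C.Idx C.Idx K := (z : Matrix C.Idx C.Idx K) with hZ
  set E' : Matrix C.Idx C.Idx K := (C.E β).map (Int.cast : ℤ → K) with hE'
  set F' : Matrix C.Idx C.Idx K := (C.F β).map (Int.cast : ℤ → K) with hF'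
  have key : ∀ t : K, t • (Z * E' - E' * Z) + t ^ 2 • (Z * F' - F' * Z) = 0 := by
    intro t
    have h1 : Z * C.X K β t = C.X K β t * Z := congrArg Units.val (h β t)
    unfold X at h1
    rw [← hE', ← hF', mul_add, mul_add, add_mul, add_mul, mul_one, one_mul, mul_smul_comm,
      mul_smul_comm, smul_mul_assoc, smul_mul_assoc] at h1
    rw [← sub_eq_zero.2 h1]
    module
  obtain ⟨t, ht⟩ := Infinite.exists_notMem_finset ({0, 1} : Finset K)
  simp only [Finset.mem_insert, Finset.mem_singleton, not_or] at ht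
  have k1 := key 1
  have k2 := key t
  rw [one_smul, one_pow, one_smul] at k1
  have hB : Z * F' - F' * Z = 0 := by
    have e : (t * (t - 1)) • (Z * F' - F' * Z) = 0 := by
      have e2 : (t * (t - 1)) • (Z * F' - F' * Z) =
          (t • (Z * E' - E' * Z) + t ^ 2 • (Z * F' - F' * Z)) -
            t • ((Z * E' - E' * Z) + (Z * F' - F' * Z)) := by module
      rw [e2, k1, k2, smul_zero, sub_zero]
    rcases smul_eq_zero.1 e with e3 | e3
    · exfalso
      rcases mul_eq_zero.1 e3 with e4 | e4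
      · exact ht.1 e4
      · exact ht.2 (sub_eq_zero.1 e4)
    · exact e3
  rw [hB, add_zero] at k1
  exact ⟨sub_eq_zero.1 k1, sub_eq_zero.1 hB⟩

theorem T10_col [Infinite K] (z : GL C.Idx K) (h : ∀ β t, z * C.xg K β t = C.xg K β t * z)
    (β : C.Root) (a : C.Idx) : (z : Matrix C.Idx C.Idx K) a (Sum.inr β) =
      if a = Sum.inr β then (z : Matrix C.Idx C.Idx K) (Sum.inr (-β)) (Sum.inr (-β)) else 0 := by
  have h1 := congrFun (congrFun (C.T10_EF z h β).2 a) (Sum.inr (-β))
  rw [Matrix.mul_apply, Matrix.mul_apply, Fintype.sum_sum_type, Fintype.sum_sum_type] at h1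
  have e1 : ∑ i : Fin n, (z : Matrix C.Idx C.Idx K) a (Sum.inl i) *
      (C.F β).map (Int.cast : ℤ → K) (Sum.inl i) (Sum.inr (-β)) = 0 := by
    apply Finset.sum_eq_zero
    intro i _
    simp [F]
  have e2 : ∑ γ : C.Root, (z : Matrix C.Idx C.Idx K) a (Sum.inr γ) *
      (C.F β).map (Int.cast : ℤ → K) (Sum.inr γ) (Sum.inr (-β)) =
        (z : Matrix C.Idx C.Idx K) a (Sum.inr β) := by
    rw [Finset.sum_eq_single β]
    · simp [F]
    · intro γ _ hγ
      have hne : ¬ γ.1 = β.1 := fun h2 => hγ (Root.ext h2)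
      simp [F, hne]
    · intro h2
      exact absurd (Finset.mem_univ _) h2
  rw [e1, e2, zero_add] at h1
  rw [h1]
  rcases a with i | γ
  · rw [if_neg (by simp)]
    simp [F]
  · have e3 : ∑ i : Fin n, (C.F β).map (Int.cast : ℤ → K) (Sum.inr γ) (Sum.inl i) *
        (z : Matrix C.Idx C.Idx K) (Sum.inl i) (Sum.inr (-β)) = 0 := by
      apply Finset.sum_eq_zero
      intro i _
      simp [F]
    rw [e3, zero_add, Finset.sum_eq_single (-β)]
    · by_cases hγ : γ = β
      · subst hγ
        simp [F]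
      · have hne : ¬ γ.1 = β.1 := fun h2 => hγ (Root.ext h2)
        simp [F, hne, hγ]
    · intro δ _ hδ
      have hne : ¬ δ.1 = -β.1 := fun h2 => hδ (Root.ext (by rw [Root.neg_val]; exact h2))
      simp [F, hne]
    · intro h2
      exact absurd (Finset.mem_univ _) h2

theorem T10_neg [Infinite K] (z : GL C.Idx K) (h : ∀ β t, z * C.xg K β t = C.xg K β t * z)
    (β : C.Root) : (z : Matrix C.Idx C.Idx K) (Sum.inr β) (Sum.inr β) =
      (z : Matrix C.Idx C.Idx K) (Sum.inr (-β)) (Sum.inr (-β)) := by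
  have h1 := C.T10_col z h β (Sum.inr β)
  rwa [if_pos rfl] at h1

theorem T10_colh [Infinite K] (z : GL C.Idx K) (h : ∀ β t, z * C.xg K β t = C.xg K β t * z)
    (j : Fin n) (a : C.Idx) : (z : Matrix C.Idx C.Idx K) a (Sum.inl j) =
      if a = Sum.inl j then
        (z : Matrix C.Idx C.Idx K) (Sum.inr (C.simple j)) (Sum.inr (C.simple j)) else 0 := by
  have h1 := congrFun (congrFun (C.T10_EF z h (C.simple j)).1 a) (Sum.inr (-C.simple j))
  rw [Matrix.mul_apply, Matrix.mul_apply, Fintype.sum_sum_type, Fintype.sum_sum_type] at h1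
  have e1 : ∑ i : Fin n, (z : Matrix C.Idx C.Idx K) a (Sum.inl i) *
      (C.E (C.simple j)).map (Int.cast : ℤ → K) (Sum.inl i) (Sum.inr (-C.simple j)) =
        -(z : Matrix C.Idx C.Idx K) a (Sum.inl j) := by
    rw [Finset.sum_eq_single j]
    · simp [E]
    · intro i _ hi
      simp [E, hi]
    · intro h2
      exact absurd (Finset.mem_univ _) h2
  have e2 : ∑ γ : C.Root, (z : Matrix C.Idx C.Idx K) a (Sum.inr γ) *
      (C.E (C.simple j)).map (Int.cast : ℤ → K) (Sum.inr γ) (Sum.inr (-C.simple j)) = 0 := by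
    apply Finset.sum_eq_zero
    intro γ _
    have hne : ¬ γ.1 = (C.simple j).1 + (-C.simple j).1 := by
      rw [Root.neg_val, add_neg_cancel]
      exact C.root_ne_zero γ
    simp only [E, Matrix.map_apply]
    rw [if_neg hne]
    simp
  rw [e1, e2, add_zero] at h1
  have e3 : ∑ i : Fin n, (C.E (C.simple j)).map (Int.cast : ℤ → K) a (Sum.inl i) *
      (z : Matrix C.Idx C.Idx K) (Sum.inl i) (Sum.inr (-C.simple j)) = 0 := by
    apply Finset.sum_eq_zero
    intro i _
    rw [C.T10_col z h, if_neg (by simp), mul_zero]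
  have e4 : ∑ γ : C.Root, (C.E (C.simple j)).map (Int.cast : ℤ → K) a (Sum.inr γ) *
      (z : Matrix C.Idx C.Idx K) (Sum.inr γ) (Sum.inr (-C.simple j)) =
      (C.E (C.simple j)).map (Int.cast : ℤ → K) a (Sum.inr (-C.simple j)) *
        (z : Matrix C.Idx C.Idx K) (Sum.inr (C.simple j)) (Sum.inr (C.simple j)) := by
    rw [Finset.sum_eq_single (-C.simple j), ← C.T10_neg z h (C.simple j)]
    · intro γ _ hγ
      rw [C.T10_col z h, if_neg (by simpa using hγ), mul_zero]
    · intro h2
      exact absurd (Finset.mem_univ _) h2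
  rw [e3, e4, zero_add] at h1
  have h2 : (z : Matrix C.Idx C.Idx K) a (Sum.inl j) =
      -((C.E (C.simple j)).map (Int.cast : ℤ → K) a (Sum.inr (-C.simple j)) *
        (z : Matrix C.Idx C.Idx K) (Sum.inr (C.simple j)) (Sum.inr (C.simple j))) := by
    rw [← h1, neg_neg]
  rw [h2]
  rcases a with i | γ
  · by_cases hi : i = j
    · subst hi
      simp [E]
    · simp [E, hi]
  · have hne : ¬ γ.1 = (C.simple j).1 + (-C.simple j).1 := by
      rw [Root.neg_val, add_neg_cancel]
      exact C.root_ne_zero γ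
    rw [if_neg (by simp)]
    simp only [E, Matrix.map_apply]
    rw [if_neg hne]
    simp

theorem T10_add [Infinite K] (z : GL C.Idx K) (h : ∀ β t, z * C.xg K β t = C.xg K β t * z)
    (α β γ : C.Root) (hγ : γ.1 = α.1 + β.1) :
    (z : Matrix C.Idx C.Idx K) (Sum.inr γ) (Sum.inr γ) =
      (z : Matrix C.Idx C.Idx K) (Sum.inr β) (Sum.inr β) := by
  have h1 := congrFun (congrFun (C.T10_EF z h α).1 (Sum.inr γ)) (Sum.inr β)
  rw [Matrix.mul_apply, Matrix.mul_apply, Fintype.sum_sum_type, Fintype.sum_sum_type] at h1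
  have e1 : ∑ i : Fin n, (z : Matrix C.Idx C.Idx K) (Sum.inr γ) (Sum.inl i) *
      (C.E α).map (Int.cast : ℤ → K) (Sum.inl i) (Sum.inr β) = 0 := by
    apply Finset.sum_eq_zero
    intro i _
    rw [C.T10_colh z h, if_neg (by simp), zero_mul]
  have e2 : ∑ δ : C.Root, (z : Matrix C.Idx C.Idx K) (Sum.inr γ) (Sum.inr δ) *
      (C.E α).map (Int.cast : ℤ → K) (Sum.inr δ) (Sum.inr β) =
        (z : Matrix C.Idx C.Idx K) (Sum.inr γ) (Sum.inr γ) * (C.eps α.1 β.1 : K) := by
    rw [Finset.sum_eq_single γ]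
    · simp only [E, Matrix.map_apply]
      rw [if_pos hγ]
    · intro δ _ hδ
      rw [C.T10_col z h, if_neg (by simpa using fun h2 => hδ h2.symm), zero_mul]
    · intro h2
      exact absurd (Finset.mem_univ _) h2
  have e3 : ∑ i : Fin n, (C.E α).map (Int.cast : ℤ → K) (Sum.inr γ) (Sum.inl i) *
      (z : Matrix C.Idx C.Idx K) (Sum.inl i) (Sum.inr β) = 0 := by
    apply Finset.sum_eq_zero
    intro i _
    rw [C.T10_col z h, if_neg (by simp), mul_zero]
  have e4 : ∑ δ : C.Root, (C.E α).map (Int.cast : ℤ → K) (Sum.inr γ) (Sum.inr δ) *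
      (z : Matrix C.Idx C.Idx K) (Sum.inr δ) (Sum.inr β) =
        (C.eps α.1 β.1 : K) * (z : Matrix C.Idx C.Idx K) (Sum.inr β) (Sum.inr β) := by
    rw [Finset.sum_eq_single β]
    · simp only [E, Matrix.map_apply]
      rw [if_pos hγ]
    · intro δ _ hδ
      rw [C.T10_col z h, if_neg (by simpa using hδ), mul_zero]
    · intro h2
      exact absurd (Finset.mem_univ _) h2
  rw [e1, e2, e3, e4, zero_add, zero_add, mul_comm] at h1
  have hsq : (C.eps α.1 β.1 : K) * (C.eps α.1 β.1 : K) = 1 := by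
    have h2 := C.eps_sq α.1 β.1
    exact_mod_cast congrArg (Int.cast : ℤ → K) h2
  have hne : (C.eps α.1 β.1 : K) ≠ 0 := by
    intro h2
    rw [h2, zero_mul] at hsq
    exact zero_ne_one hsq
  exact mul_left_cancel₀ hne h1

theorem T10_diag_pos [Infinite K] (z : GL C.Idx K)
    (h : ∀ β t, z * C.xg K β t = C.xg K β t * z)
    (hs : ∀ j, (z : Matrix C.Idx C.Idx K) (Sum.inr (C.simple j)) (Sum.inr (C.simple j)) = 1) :
    ∀ (k : ℕ) (β : C.Root), C.Pos β → (ht β.1).toNat = k →
      (z : Matrix C.Idx C.Idx K) (Sum.inr β) (Sum.inr β) = 1 := by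
  intro k
  induction k using Nat.strong_induction_on with
  | _ k ih =>
    intro β hβ hk
    by_cases hsim : ∀ i, β ≠ C.simple i
    · obtain ⟨i, γ, hγ, hβγ⟩ := C.exists_descent β hβ hsim
      rw [C.T10_add z h (C.simple i) γ β hβγ]
      have h1 : ht β.1 = ht (C.simple i).1 + ht γ.1 := by rw [hβγ, ht_add]
      rw [C.ht_simple] at h1
      unfold Pos at hγ hβ
      exact ih (ht γ.1).toNat (by omega) γ hγ rfl
    · push Not at hsim
      obtain ⟨i, rfl⟩ := hsim
      exact hs i

theorem center_trivial [Infinite K] (z : GL C.Idx K) (hz : z ∈ C.Gad K)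
    (h : ∀ β t, z * C.xg K β t = C.xg K β t * z) : z = 1 := by
  have hF : C.Fil 0 (z : Matrix C.Idx C.Idx K) := by
    intro a b hab
    rcases b with j | β
    · rw [C.T10_colh z h, if_neg]
      rintro rfl
      omega
    · rw [C.T10_col z h, if_neg]
      rintro rfl
      omega
  obtain ⟨τ, hτ, u, hu, hz2⟩ := C.upper z hz hF
  obtain ⟨c, hc⟩ := C.T_diag τ hτ
  have hFu := C.Fil_U 1 le_rfl u hu
  have hh1 : ∀ j : Fin n, (z : Matrix C.Idx C.Idx K) (Sum.inl j) (Sum.inl j) = 1 := by
    intro j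
    rw [hz2, Units.val_mul, hc, Matrix.diagonal_mul, Sum.elim_inl, one_mul]
    have h1 := hFu (Sum.inl j) (Sum.inl j) (by omega)
    rw [Matrix.sub_apply, Matrix.one_apply_eq, sub_eq_zero] at h1
    exact h1
  have hs : ∀ j, (z : Matrix C.Idx C.Idx K) (Sum.inr (C.simple j)) (Sum.inr (C.simple j)) = 1 := by
    intro j
    have h1 := C.T10_colh z h j (Sum.inl j)
    rw [if_pos rfl, hh1] at h1
    exact h1.symm
  have hd : ∀ β : C.Root, (z : Matrix C.Idx C.Idx K) (Sum.inr β) (Sum.inr β) = 1 := by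
    intro β
    by_cases hβ : C.Pos β
    · exact C.T10_diag_pos z h hs _ β hβ rfl
    · rw [C.T10_neg z h β]
      exact C.T10_diag_pos z h hs _ (-β) ((C.not_pos_iff β).1 hβ) rfl
  apply Units.ext
  ext a b
  rw [Units.val_one]
  rcases b with j | β
  · rw [C.T10_colh z h, hs]
    by_cases ha : a = Sum.inl j
    · rw [if_pos ha, ha, Matrix.one_apply_eq]
    · rw [if_neg ha, Matrix.one_apply_ne ha]
  · rw [C.T10_col z h, hd]
    by_cases ha : a = Sum.inr β
    · rw [if_pos ha, ha, Matrix.one_apply_eq]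
    · rw [if_neg ha, Matrix.one_apply_ne ha]

end SLC

end Pool.Agent.H75.UL
end

section
/- module Pool.Agent.H75.UL.C1 -/
/-!
# Project UL (MP_978914_al), module C1

Good systems: generating, with central kernel of the map from the universal group.

`isChev_iff`: given `Z` and `e : G ≃* GU ⧸ Z`, the system `x β t = e.symm (mk (GU.x β t))` is good
(its lift is `e.symm ∘ mk`, with kernel `Z`); conversely `G ≃* GU ⧸ ker (lift S)`
(`QuotientGroup.quotientKerEquivOfSurjective`).
`Good.exists_ad` (`K` infinite): `ker (lift S)` is central in `GU`, so its image under `lift (adS K)`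
commutes with all `xg β t` and is in `Gad`; it is `1` (`center_trivial`); so `lift (adS K)` factors
through `lift S`, which is surjective (`gen = ⊤`): `p : G →* GL`, `p (S.x β t) = xg β t`. Its range
is `Gad`; its kernel is central (`ker_central`).
`Good.finite`: `K` finite implies `G` finite (`finite_gen`).
`Good.twist`: put `τ₀ = lift (sys.twist 1 π c)`, an endomorphism of `GU`. It is bijective: the inverse
is given by `π⁻¹` and `c'_i = (c (π⁻¹ i))⁻¹`: the composites map `x β t` to `x β (f β * t)` with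
`f β = eta π⁻¹ (lmap π β) * eta π β` and `f` is multiplicative on the lattice (`eta_add` twice) and
`1` on simple roots, so `1`. With `lift S (â) = a`: `lift (S.twist a π c) y = a * lift S (τ₀ y) * a⁻¹`
(`hom_ext`); so if it is `1`, `τ₀ y` is in the kernel of `lift S`, central, and `y` is central.
-/

set_option autoImplicit false
open Matrix
universe u
namespace Pool.Agent.H75.UL

variable {n : ℕ} {C : SLC n}

/-- The image of a Steinberg system under a homomorphism. -/
private def C1_map {K : Type*} [Field K] {H H' : Type*} [Group H] [Group H'] (S : StSys C K H)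
    (f : H →* H') : StSys C K H' where
  x := fun β t => f (S.x β t)
  map_add := fun β s t => by rw [S.map_add, map_mul]
  comm := fun α β s t h => by rw [← map_mul, ← map_mul, S.comm α β s t h]
  comm_add := fun α β γ s t h => by
    rw [← S.comm_add α β γ s t h]; simp only [map_mul, map_inv]
  n_conj := fun α t u ht => by
    rw [← S.n_conj α t u ht]; simp only [nn, map_mul, map_inv]
  h_mul := fun α s t hs ht => by
    have h := congrArg f (S.h_mul α s t hs ht)
    simpa only [hh, nn, map_mul] using h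

/-- A generating Steinberg system for which the kernel of `GU C K → G` is central. -/
structure Good {K : Type u} [Field K] {G : Type u} [Group G] (S : StSys C K G) : Prop where
  gen : S.gen = ⊤
  ker : (GU.lift S).ker ≤ Subgroup.center (GU C K)

theorem isChev_iff (G : Type u) [Group G] :
    IsChev C G ↔ ∃ (K : Type u) (_ : Field K) (S : StSys C K G), Good S := by
  constructor
  · rintro ⟨K, hK, Z, hZ, hc, ⟨e⟩⟩
    let φ : GU C K →* G := e.symm.toMonoidHom.comp (QuotientGroup.mk' Z)
    have hφ : Function.Surjective φ :=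
      e.symm.surjective.comp (QuotientGroup.mk'_surjective Z)
    have hl : GU.lift (C1_map (GU.sys C K) φ) = φ := by
      apply GU.hom_ext
      intro β t
      rw [GU.lift_x]
      rfl
    refine ⟨K, hK, C1_map (GU.sys C K) φ, ?_, ?_⟩
    · rw [← GU.lift_range, hl]
      exact MonoidHom.range_eq_top.mpr hφ
    · rw [hl]
      intro y hy
      apply hc
      have h1 : e.symm (QuotientGroup.mk' Z y) = 1 := hy
      have h2 : QuotientGroup.mk' Z y = 1 := by
        rw [← e.symm.map_one] at h1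
        exact e.symm.injective h1
      rwa [← MonoidHom.mem_ker, QuotientGroup.ker_mk'] at h2
  · rintro ⟨K, hK, S, hS⟩
    have hs : Function.Surjective (GU.lift S) := by
      rw [← MonoidHom.range_eq_top, GU.lift_range, hS.gen]
    exact ⟨K, hK, (GU.lift S).ker, inferInstance, hS.ker,
      ⟨(QuotientGroup.quotientKerEquivOfSurjective (GU.lift S) hs).symm⟩⟩

theorem Good.finite {K : Type u} [Field K] [Finite K] {G : Type u} [Group G] {S : StSys C K G}
    (hS : Good S) : Finite G := by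
  have h : Finite S.gen := S.finite_gen
  rw [hS.gen] at h
  exact Finite.of_equiv _ (Subgroup.topEquiv (G := G)).toEquiv

theorem Good.exists_ad {K : Type u} [Field K] [Infinite K] {G : Type u} [Group G]
    {S : StSys C K G} (hS : Good S) : ∃ p : G →* GL C.Idx K,
      (∀ β t, p (S.x β t) = C.xg K β t) ∧ p.range = C.Gad K ∧ p.ker ≤ Subgroup.center G := by
  have hs : Function.Surjective (GU.lift S) := by
    rw [← MonoidHom.range_eq_top, GU.lift_range, hS.gen]
  have hk : (GU.lift S).ker ≤ (GU.lift (C.adS K)).ker := by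
    intro z hz
    have hz' := hS.ker hz
    rw [Subgroup.mem_center_iff] at hz'
    rw [MonoidHom.mem_ker]
    apply C.center_trivial
    · rw [← C.gen_adS, ← GU.lift_range]
      exact ⟨z, rfl⟩
    · intro β t
      have h := congrArg (GU.lift (C.adS K)) (hz' (GU.x C K β t))
      rw [map_mul, map_mul, GU.lift_x] at h
      exact h.symm
  let p : G →* GL C.Idx K :=
    (MonoidHom.liftOfSurjective (GU.lift S) hs) ⟨GU.lift (C.adS K), hk⟩
  have hp : ∀ y, p (GU.lift S y) = GU.lift (C.adS K) y := fun y =>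
    MonoidHom.liftOfRightInverse_comp_apply (GU.lift S) _ _ ⟨GU.lift (C.adS K), hk⟩ y
  have hpx : ∀ β t, p (S.x β t) = C.xg K β t := by
    intro β t
    rw [← GU.lift_x S β t, hp, GU.lift_x]
    rfl
  refine ⟨p, hpx, ?_, ?_⟩
  · rw [← C.gen_adS, ← GU.lift_range]
    ext g
    constructor
    · rintro ⟨x, rfl⟩
      obtain ⟨y, rfl⟩ := hs x
      exact ⟨y, (hp y).symm⟩
    · rintro ⟨y, rfl⟩
      exact ⟨GU.lift S y, hp y⟩
  · intro y hy
    exact C.ker_central S hS.gen p hpx y hy

private theorem C1_lmap_symm (π : Equiv.Perm (Fin n)) (v : Fin n → ℤ) :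
    SLC.lmap π⁻¹ (SLC.lmap π v) = v := by
  funext i
  change v (π.symm (π⁻¹.symm i)) = v i
  congr 1
  exact π.symm_apply_apply i

private theorem C1_f_one (π : Equiv.Perm (Fin n)) (hπ : ∀ i j, C.A (π i) (π j) = C.A i j)
    (hπ' : ∀ i j, C.A (π⁻¹ i) (π⁻¹ j) = C.A i j) (v : Fin n → ℤ) :
    C.eta π⁻¹ (SLC.lmap π v) * C.eta π v = 1 := by
  let f : (Fin n → ℤ) → ℤ := fun v => C.eta π⁻¹ (SLC.lmap π v) * C.eta π v
  have hadd : ∀ v w, f (v + w) = f v * f w := by
    intro v w
    have h1 := C.eta_add π hπ v w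
    have h2 := C.eta_add π⁻¹ hπ' (SLC.lmap π v) (SLC.lmap π w)
    rw [C1_lmap_symm, C1_lmap_symm, ← SLC.lmap_add] at h2
    have h3 := C.eps_ne_zero v w
    have h4 := C.eps_ne_zero (SLC.lmap π v) (SLC.lmap π w)
    have h5 : f (v + w) * (C.eps v w * C.eps (SLC.lmap π v) (SLC.lmap π w)) =
        f v * f w * (C.eps v w * C.eps (SLC.lmap π v) (SLC.lmap π w)) := by
      calc f (v + w) * (C.eps v w * C.eps (SLC.lmap π v) (SLC.lmap π w))
          = (C.eta π⁻¹ (SLC.lmap π (v + w)) * C.eps (SLC.lmap π v) (SLC.lmap π w)) *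
            (C.eta π (v + w) * C.eps v w) := by simp only [f]; ring
        _ = _ := by rw [h1, h2]; simp only [f]; ring
    exact mul_right_cancel₀ (mul_ne_zero h3 h4) h5
  have h0 : f 0 = 1 := by
    have h1 := hadd 0 0
    rw [add_zero] at h1
    have h2 : f 0 * f 0 = 1 := by
      have h3 := C.eta_sq π 0
      have h4 := C.eta_sq π⁻¹ (SLC.lmap π 0)
      calc f 0 * f 0 = (C.eta π⁻¹ (SLC.lmap π 0) * C.eta π⁻¹ (SLC.lmap π 0)) *
            (C.eta π 0 * C.eta π 0) := by simp only [f]; ring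
        _ = 1 := by rw [h3, h4]; norm_num
    rw [h1, h2]
  let A : AddSubgroup (Fin n → ℤ) :=
    { carrier := {v | f v = 1}
      zero_mem' := h0
      add_mem' := by
        intro a b ha hb
        change f (a + b) = 1
        rw [hadd, show f a = 1 from ha, show f b = 1 from hb, mul_one]
      neg_mem' := by
        intro a ha
        change f (-a) = 1
        have h := hadd (-a) a
        rw [neg_add_cancel, h0, show f a = 1 from ha, mul_one] at h
        exact h.symm }
  have hs : ∀ i : Fin n, (Pi.single i 1 : Fin n → ℤ) ∈ A := by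
    intro i
    change C.eta π⁻¹ (SLC.lmap π (Pi.single i 1)) * C.eta π (Pi.single i 1) = 1
    rw [SLC.lmap_single, C.eta_single, C.eta_single, mul_one]
  have hv : v ∈ A := by
    have h : v = ∑ i, v i • (Pi.single i 1 : Fin n → ℤ) := by
      funext j
      simp [Finset.sum_apply, Pi.single_apply]
    rw [h]
    exact AddSubgroup.sum_mem _ fun i _ => AddSubgroup.zsmul_mem _ (hs i) _
  exact hv

private theorem C1_inv {K : Type u} [Field K] (π : Equiv.Perm (Fin n))
    (hπ : ∀ i j, C.A (π i) (π j) = C.A i j) (c : Fin n → K) (hc : ∀ i, c i ≠ 0) :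
    Function.Injective (GU.lift ((GU.sys C K).twist 1 π hπ c hc)) := by
  have hπ' : ∀ i j, C.A (π⁻¹ i) (π⁻¹ j) = C.A i j := by
    intro i j
    have h := hπ (π⁻¹ i) (π⁻¹ j)
    have e : ∀ k, π (π⁻¹ k) = k := fun k => π.apply_symm_apply k
    rw [e, e] at h
    exact h.symm
  let c' : Fin n → K := fun i => (c (π.symm i))⁻¹
  have hc' : ∀ i, c' i ≠ 0 := fun i => inv_ne_zero (hc _)
  have key : (GU.lift ((GU.sys C K).twist 1 π⁻¹ hπ' c' hc')).comp
      (GU.lift ((GU.sys C K).twist 1 π hπ c hc)) = MonoidHom.id _ := by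
    apply GU.hom_ext
    intro β t
    rw [MonoidHom.comp_apply, GU.lift_x, StSys.twist_x, map_mul, map_mul, map_inv, map_one,
      one_mul, inv_one, mul_one]
    change GU.lift _ (GU.x C K _ _) = _
    rw [GU.lift_x, StSys.twist_x, one_mul, inv_one, mul_one, MonoidHom.id_apply]
    change GU.x C K _ _ = _
    have h1 : C.rmap π⁻¹ hπ' (C.rmap π hπ β) = β := by
      apply SLC.Root.ext
      exact C1_lmap_symm π β.1
    have h2 : (∏ i, c' i ^ (C.rmap π hπ β).1 i) * (∏ i, c i ^ β.1 i) = 1 := by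
      have h3 : (∏ i, c' i ^ (C.rmap π hπ β).1 i) = ∏ i, ((c i)⁻¹) ^ β.1 i := by
        apply Fintype.prod_equiv π.symm
        intro i
        rfl
      rw [h3, ← Finset.prod_mul_distrib]
      apply Finset.prod_eq_one
      intro i _
      rw [← mul_zpow, inv_mul_cancel₀ (hc i), _root_.one_zpow]
    have h4 : ((C.eta π⁻¹ (C.rmap π hπ β).1 : ℤ) : K) * ((C.eta π β.1 : ℤ) : K) = 1 := by
      rw [← Int.cast_mul]
      have := C1_f_one (C := C) π hπ hπ' β.1
      change ((C.eta π⁻¹ (SLC.lmap π β.1) * C.eta π β.1 : ℤ) : K) = 1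
      rw [this, Int.cast_one]
    rw [h1]
    congr 1
    calc _ = (((C.eta π⁻¹ (C.rmap π hπ β).1 : ℤ) : K) * ((C.eta π β.1 : ℤ) : K)) *
          ((∏ i, c' i ^ (C.rmap π hπ β).1 i) * (∏ i, c i ^ β.1 i)) * t := by ring
      _ = t := by rw [h2, h4, one_mul, one_mul]
  intro x y hxy
  have hx := DFunLike.congr_fun key x
  have hy := DFunLike.congr_fun key y
  rw [MonoidHom.comp_apply, MonoidHom.id_apply] at hx hy
  rw [← hx, ← hy, hxy]

theorem Good.twist {K : Type u} [Field K] {G : Type u} [Group G] {S : StSys C K G} (hS : Good S)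
    (a : G) (π : Equiv.Perm (Fin n)) (hπ : ∀ i j, C.A (π i) (π j) = C.A i j) (c : Fin n → K)
    (hc : ∀ i, c i ≠ 0) : Good (S.twist a π hπ c hc) := by
  constructor
  · rw [StSys.twist_gen S a (by rw [hS.gen]; exact Subgroup.mem_top a), hS.gen]
  · have key : GU.lift (S.twist a π hπ c hc) = (MulAut.conj a).toMonoidHom.comp
        ((GU.lift S).comp (GU.lift ((GU.sys C K).twist 1 π hπ c hc))) := by
      apply GU.hom_ext
      intro β t
      rw [GU.lift_x, StSys.twist_x, MonoidHom.comp_apply, MonoidHom.comp_apply, GU.lift_x,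
        StSys.twist_x, one_mul, inv_one, mul_one]
      change _ = a * GU.lift S (GU.x C K _ _) * a⁻¹
      rw [GU.lift_x]
    intro y hy
    rw [MonoidHom.mem_ker, key, MonoidHom.comp_apply, MonoidHom.comp_apply] at hy
    have h1 : GU.lift S (GU.lift ((GU.sys C K).twist 1 π hπ c hc) y) = 1 := by
      apply (MulAut.conj a).injective
      rw [map_one]
      exact hy
    have h2 := hS.ker ((MonoidHom.mem_ker).mpr h1)
    rw [Subgroup.mem_center_iff] at h2 ⊢
    intro z
    apply C1_inv π hπ c hc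
    rw [map_mul, map_mul]
    exact h2 _

end Pool.Agent.H75.UL
end

section
/- module Pool.Agent.H75.UL.M0 -/
/-!
# Project UL (MP_978914_al), module M0

Base change.

`mp f` applies the ring homomorphism `f` to the entries. `mp_xg`: `X` has entries polynomial in `t`
with integer coefficients. The subgroups `Gad`, `U m`, `T`, `N` are closures, so `Subgroup.map` of
them is contained in the corresponding subgroup (`map_nn`: `mp f (nn (xg K) α t) = nn (xg L) α (f t)`,
`f t⁻¹ = (f t)⁻¹`). `Fil` and nilpotency are preserved, and reflected if `f` is injective.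
`mp_acts`: if `ν ∈ N` acts by `w` then so does `mp f ν` (take `w'` with `Acts (mp f ν) w'` from
`N_acts`; compare on `xg β 1` with `xg_inj`).
-/

set_option autoImplicit false
open Matrix
universe u
namespace Pool.Agent.H75.UL

namespace SLC
variable {n : ℕ} (C : SLC n)

/-- Apply a ring homomorphism to the entries. -/
noncomputable def mp {R R' : Type*} [CommRing R] [CommRing R'] (f : R →+* R') : GL C.Idx R →* GL C.Idx R' :=
  Matrix.GeneralLinearGroup.map f

theorem mp_val {R R' : Type*} [CommRing R] [CommRing R'] (f : R →+* R') (g : GL C.Idx R) :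
    ((C.mp f g : GL C.Idx R') : Matrix C.Idx C.Idx R') = (g : Matrix C.Idx C.Idx R).map f := by
  ext i j
  exact Matrix.GeneralLinearGroup.map_apply f i j g

theorem mp_xg {R R' : Type*} [CommRing R] [CommRing R'] (f : R →+* R') (β : C.Root) (t : R) :
    C.mp f (C.xg R β t) = C.xg R' β (f t) := by
  apply Units.ext
  rw [mp_val]
  change (C.X R β t).map f = C.X R' β (f t)
  unfold X
  ext a b
  simp [Matrix.one_apply, apply_ite f]

theorem mp_Gad {R R' : Type*} [CommRing R] [CommRing R'] (f : R →+* R') (g : GL C.Idx R)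
    (hg : g ∈ C.Gad R) : C.mp f g ∈ C.Gad R' := by
  have h1 : C.Gad R ≤ (C.Gad R').comap (C.mp f) := by
    unfold Gad
    rw [Subgroup.closure_le]
    rintro x ⟨p, rfl⟩
    change C.mp f (C.xg R p.1 p.2) ∈ C.Gad R'
    rw [mp_xg]
    exact Subgroup.subset_closure ⟨(p.1, f p.2), rfl⟩
  exact h1 hg

theorem mp_injective {R R' : Type*} [CommRing R] [CommRing R'] (f : R →+* R')
    (hf : Function.Injective f) : Function.Injective (C.mp f) := by
  intro g h hgh
  apply Units.ext
  have h1 : ((C.mp f g : GL C.Idx R') : Matrix C.Idx C.Idx R') =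
      ((C.mp f h : GL C.Idx R') : Matrix C.Idx C.Idx R') := congrArg _ hgh
  rw [mp_val, mp_val] at h1
  exact Matrix.map_injective hf h1

theorem Fil_map_iff {R R' : Type*} [CommRing R] [CommRing R'] (f : R →+* R')
    (hf : Function.Injective f) (m : ℤ) (M : Matrix C.Idx C.Idx R) :
    C.Fil m (M.map f) ↔ C.Fil m M := by
  constructor
  · intro h a b hab
    have h1 := h a b hab
    rw [Matrix.map_apply] at h1
    exact (map_eq_zero_iff f hf).mp h1
  · intro h a b hab
    rw [Matrix.map_apply, h a b hab, map_zero]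

theorem nilpotent_map_iff {R R' : Type*} [CommRing R] [CommRing R'] (f : R →+* R')
    (hf : Function.Injective f) (M : Matrix C.Idx C.Idx R) :
    IsNilpotent (M.map f) ↔ IsNilpotent M := by
  exact IsNilpotent.map_iff (f := f.mapMatrix) (Matrix.map_injective hf)

section field
variable {K L : Type*} [Field K] [Field L] (f : K →+* L)

theorem mp_U (m : ℤ) (u : GL C.Idx K) (hu : u ∈ (C.adS K).U m) : C.mp f u ∈ (C.adS L).U m := by
  have h1 : (C.adS K).U m ≤ ((C.adS L).U m).comap (C.mp f) := by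
    unfold StSys.U
    rw [Subgroup.closure_le]
    rintro x ⟨β, t, hβ, rfl⟩
    change C.mp f (C.xg K β t) ∈ (C.adS L).U m
    rw [mp_xg]
    exact Subgroup.subset_closure ⟨β, f t, hβ, rfl⟩
  exact h1 hu

theorem mp_T (τ : GL C.Idx K) (hτ : τ ∈ (C.adS K).T) : C.mp f τ ∈ (C.adS L).T := by
  have h1 : (C.adS K).T ≤ ((C.adS L).T).comap (C.mp f) := by
    unfold StSys.T
    rw [Subgroup.closure_le]
    rintro x ⟨α, t, ht, rfl⟩
    refine Subgroup.subset_closure ⟨α, f t, by rwa [Ne, map_eq_zero], ?_⟩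
    change C.mp f (hh (C.xg K) α t) = hh (C.xg L) α (f t)
    unfold hh nn
    simp only [map_mul, mp_xg, map_inv₀, map_neg, map_one]
  exact h1 hτ

theorem mp_N (ν : GL C.Idx K) (hν : ν ∈ (C.adS K).N) : C.mp f ν ∈ (C.adS L).N := by
  have h1 : (C.adS K).N ≤ ((C.adS L).N).comap (C.mp f) := by
    unfold StSys.N
    rw [Subgroup.closure_le]
    rintro x ⟨α, t, ht, rfl⟩
    refine Subgroup.subset_closure ⟨α, f t, by rwa [Ne, map_eq_zero], ?_⟩
    change C.mp f (nn (C.xg K) α t) = nn (C.xg L) α (f t)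
    unfold nn
    simp only [map_mul, mp_xg, map_inv₀]
  exact h1 hν

theorem mp_acts (ν : GL C.Idx K) (w : Equiv.Perm C.Root) (hν : ν ∈ (C.adS K).N)
    (h : (C.adS K).Acts ν w) : (C.adS L).Acts (C.mp f ν) w := by
  obtain ⟨c, hc, hact⟩ := h
  obtain ⟨w', _, hA, _⟩ := (C.adS L).N_acts (C.mp f ν) (C.mp_N f ν hν)
  have hw : w' = w := by
    obtain ⟨c', hc', hact'⟩ := hA
    apply Equiv.ext
    intro β
    have h1 := congrArg (C.mp f) (hact β 1)
    have h2 := hact' β 1
    rw [adS_x] at h1 h2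
    rw [map_mul, map_mul, map_inv, mp_xg, mp_xg, map_one] at h1
    rw [h2] at h1
    refine (C.xg_inj _ _ _ _ ?_ h1).1
    rw [mul_one]
    exact hc' β
  rw [← hw]
  exact hA

theorem mp_lp (t : C.Root → K) : C.mp f ((C.adS K).lp C.posList t) =
    (C.adS L).lp C.posList (fun β => f (t β)) := by
  unfold StSys.lp
  rw [map_list_prod, List.map_map]
  congr 1
  apply List.map_congr_left
  intro β _
  change C.mp f (C.xg K β (t β)) = C.xg L β (f (t β))
  rw [mp_xg]

theorem chi_map (M : Matrix C.Idx C.Idx K) (γ : C.Root) : C.chi (M.map f) γ = f (C.chi M γ) := by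
  rfl

end field

end SLC

end Pool.Agent.H75.UL
end
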