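import Pool.Agent.H86.AL.M02
import Pool.Agent.H86.AL.M04
import Pool.Agent.H86.AL.M05

/-!
# M07: collected modules

Pool.Agent.H86.UL.F1
Pool.Agent.H86.UL.F2
Pool.Agent.H75.UL.T8
Pool.Agent.H75.UL.P3a
Pool.Agent.H75.UL.T9
Pool.Agent.H75.UL.T4
Pool.Agent.H86.UL.P1
Pool.Agent.H75.UL.P5b
-/

section
/- module Pool.Agent.H86.UL.F1 -/
/-!
# Project UL, module F1: a p-subgroup of the adjoint group over a finite field fixes a chamber

Proof. `G = Gad F` is finite (`gen_adS`, `StSys.finite_gen`). `B := {g ∈ G | Fil 0 g}` is a subgroup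
(closed under products by `Fil_mul`, and a submonoid of a finite group is closed under inverses:
`g⁻¹ = g ^ k`).
(1) `U := (adS F).U 1 ≤ G` is a `p`-group: for `u ∈ U`, `Fil 1 (u - 1)` (`Fil_U`), so
`Fil m ((u - 1) ^ m)` and by `Fil_eq_zero` `(u - 1) ^ N = 0` for a suitable `N`; with `p ^ m ≥ N`:
`u ^ p ^ m - 1 = (u - 1) ^ p ^ m = 0` (`sub_pow_char_pow_of_commute` in the matrix ring, which has
characteristic `p`).
(2) `U` acts on `G ⧸ B` by left multiplication (everything inside the finite group `G`); the coset of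
`1` is fixed (`U ≤ B` by `Fil_U`). It is the only fixed point: let `g B` be fixed; by `bruhat`
`g = u ν v` with `u, v ∈ U`, `ν ∈ N`; `N_acts`: `Acts ν w`, `w ∈ W`, and `w = 1 → ν ∈ T`. All
`g⁻¹ x g`, `x ∈ U`, lie in `B`, so `ν⁻¹ x ν ∈ B` for all `x ∈ U`. If `w⁻¹ ≠ 1`, by `eq_one_of_pos`
there is `i` with `β := w⁻¹ (simple i)` not positive; from `Acts ν w` (with `c β ≠ 0`),
`ν * x_β(t) * ν⁻¹ = x_(simple i)(c β * t)`, so `ν⁻¹ x_(simple i)(c β) ν = x_β(1)`, which is not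
`Fil 0`: the entry of `X β 1` at `(inl l, inr (-β))` is `- β_l` (`E` and `F` explicit), nonzero for
some `l` (`exists_coeff_ne_zero`), while `hti (inl l) = 0 < ht (-β) = hti (inr (-β))`
(`not_pos_iff`). So `w = 1`, `ν ∈ T`, `ν` is diagonal (`T_diag`), so `g = u ν v ∈ B`.
(3) Hence `card (G ⧸ B) ≡ 1 mod p` (`IsPGroup.card_modEq_card_fixedPoints`), `p` does not divide it,
and the `p`-group `P` has a fixed point on `G ⧸ B`
(`IsPGroup.nonempty_fixed_point_of_prime_not_dvd_card`): a coset `g B` with `g⁻¹ x g ∈ B` for `x ∈ P`.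
-/

set_option autoImplicit false
open Matrix

namespace Pool.Agent.H75.UL

/-- counting of fixed points on the cosets. -/
private theorem F1_grp {H : Type*} [Group H] [Finite H] (p : ℕ) [Fact p.Prime]
    (G B U P : Subgroup H) (hUG : U ≤ G) (hUB : U ≤ B) (hU : IsPGroup p U) (hP : IsPGroup p P)
    (hPG : P ≤ G) (key : ∀ g ∈ G, (∀ x ∈ U, g⁻¹ * x * g ∈ B) → g ∈ B) :
    ∃ g ∈ G, ∀ x ∈ P, g⁻¹ * x * g ∈ B := by
  have hU' : IsPGroup p (U.subgroupOf G) :=
    hU.of_injective (Subgroup.subgroupOfEquivOfLe hUG).toMonoidHom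
      (Subgroup.subgroupOfEquivOfLe hUG).injective
  have hP' : IsPGroup p (P.subgroupOf G) :=
    hP.of_injective (Subgroup.subgroupOfEquivOfLe hPG).toMonoidHom
      (Subgroup.subgroupOfEquivOfLe hPG).injective
  have hfix : ∀ (Q : Subgroup H), ∀ g : G,
      ((g : G ⧸ B.subgroupOf G) ∈ MulAction.fixedPoints (Q.subgroupOf G) (G ⧸ B.subgroupOf G) ↔
        ∀ x ∈ Q, ∀ hx : x ∈ G, (g : H)⁻¹ * x * g ∈ B) := by
    intro Q g
    rw [MulAction.mem_fixedPoints]
    have e1 : ∀ y : Q.subgroupOf G, (y • (g : G ⧸ B.subgroupOf G) = (g : G ⧸ B.subgroupOf G) ↔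
        (g : H)⁻¹ * ((y : G) : H) * g ∈ B) := by
      intro y
      have e2 : y • (g : G ⧸ B.subgroupOf G) = (((y : G) * g : G) : G ⧸ B.subgroupOf G) := rfl
      rw [e2, eq_comm, QuotientGroup.eq, Subgroup.mem_subgroupOf]
      rw [← mul_assoc]
      exact Iff.rfl
    constructor
    · intro h x hx hxG
      exact (e1 ⟨⟨x, hxG⟩, Subgroup.mem_subgroupOf.mpr hx⟩).mp (h _)
    · intro h y
      rw [e1]
      exact h _ (Subgroup.mem_subgroupOf.mp y.2) (y : G).2
  have hcard : Nat.card (MulAction.fixedPoints (U.subgroupOf G) (G ⧸ B.subgroupOf G)) = 1 := by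
    rw [Nat.card_eq_one_iff_unique]
    constructor
    · have hall : ∀ q : MulAction.fixedPoints (U.subgroupOf G) (G ⧸ B.subgroupOf G),
          (q : G ⧸ B.subgroupOf G) = ((1 : G) : G ⧸ B.subgroupOf G) := by
        rintro ⟨q, hq⟩
        obtain ⟨g, rfl⟩ := QuotientGroup.mk_surjective q
        show ((g : G) : G ⧸ B.subgroupOf G) = _
        rw [eq_comm, QuotientGroup.eq, Subgroup.mem_subgroupOf, inv_one, one_mul]
        exact key g g.2 fun x hx => (hfix U g).mp hq x hx (hUG hx)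
      exact ⟨fun a b => Subtype.ext ((hall a).trans (hall b).symm)⟩
    · refine ⟨⟨((1 : G) : G ⧸ B.subgroupOf G), (hfix U 1).mpr fun x hx _ => ?_⟩⟩
      simpa using hUB hx
  have hmod := hU'.card_modEq_card_fixedPoints (G ⧸ B.subgroupOf G)
  rw [hcard] at hmod
  have hnd : ¬ p ∣ Nat.card (G ⧸ B.subgroupOf G) := by
    intro hd
    have h1 := (Nat.modEq_zero_iff_dvd.mpr hd).symm.trans hmod
    have h2 : p ∣ 1 := (Nat.modEq_zero_iff_dvd.mp h1.symm)
    exact (Fact.out : p.Prime).one_lt.ne' (Nat.dvd_one.mp h2)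
  obtain ⟨q, hq⟩ := hP'.nonempty_fixed_point_of_prime_not_dvd_card (G ⧸ B.subgroupOf G) hnd
  obtain ⟨g, rfl⟩ := QuotientGroup.mk_surjective q
  exact ⟨g, g.2, fun x hx => (hfix P g).mp hq x hx (hPG hx)⟩

namespace SLC
variable {n : ℕ} (C : SLC n)

/-- the subgroup of the elements which preserve the filtration (over a finite ring). -/
private def F1_B (F : Type*) [Field F] [Finite F] : Subgroup (GL C.Idx F) where
  carrier := {g | C.Fil 0 (g : Matrix C.Idx C.Idx F)}
  mul_mem' := by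
    intro a b ha hb
    show C.Fil 0 (((a * b : GL C.Idx F)) : Matrix C.Idx C.Idx F)
    rw [Units.val_mul]
    have := C.Fil_mul ha hb
    rwa [add_zero] at this
  one_mem' := by
    show C.Fil 0 ((1 : GL C.Idx F) : Matrix C.Idx C.Idx F)
    rw [Units.val_one]
    exact C.Fil_one
  inv_mem' := by
    intro a ha
    have hpow : ∀ k : ℕ, C.Fil 0 (((a ^ k : GL C.Idx F)) : Matrix C.Idx C.Idx F) := by
      intro k
      induction k with
      | zero =>
        rw [pow_zero, Units.val_one]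
        exact C.Fil_one
      | succ k ih =>
        rw [pow_succ, Units.val_mul]
        have := C.Fil_mul ih ha
        rwa [add_zero] at this
    show C.Fil 0 ((a⁻¹ : GL C.Idx F) : Matrix C.Idx C.Idx F)
    have h1 : a⁻¹ = a ^ (orderOf a - 1) := by
      have h2 : 0 < orderOf a := orderOf_pos a
      rw [inv_eq_iff_mul_eq_one, ← pow_succ', Nat.sub_add_cancel h2, pow_orderOf_eq_one]
    rw [h1]
    exact hpow _

private theorem F1_mem_B {F : Type*} [Field F] [Finite F] (g : GL C.Idx F) :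
    g ∈ C.F1_B F ↔ C.Fil 0 (g : Matrix C.Idx C.Idx F) := Iff.rfl

private theorem F1_U_le {F : Type*} [Field F] [Finite F] : (C.adS F).U 1 ≤ C.F1_B F := by
  intro u hu
  rw [F1_mem_B]
  have h1 := C.Fil_mono (by norm_num : (0 : ℤ) ≤ 1) (C.Fil_U 1 le_rfl u hu)
  have h2 := C.Fil_add h1 C.Fil_one
  rwa [sub_add_cancel] at h2

private theorem F1_pgroup (F : Type*) [Field F] [Finite F] (p : ℕ) [Fact p.Prime] [CharP F p] :
    IsPGroup p ((C.adS F).U 1) := by
  rintro ⟨u, hu⟩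
  rcases isEmpty_or_nonempty C.Idx with hE | hE
  · refine ⟨0, ?_⟩
    apply Subtype.ext
    apply Units.ext
    exact Subsingleton.elim _ _
  obtain ⟨m₀, hm₀⟩ := C.exists_Fil_eq_zero' F
  have hpow : ∀ k : ℕ, C.Fil (k : ℤ) (((u : Matrix C.Idx C.Idx F) - 1) ^ k) := by
    intro k
    induction k with
    | zero =>
      rw [pow_zero]
      exact C.Fil_one
    | succ k ih =>
      rw [pow_succ]
      have := C.Fil_mul ih (C.Fil_U 1 le_rfl u hu)
      push_cast
      exact this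
  have h0 : ((u : Matrix C.Idx C.Idx F) - 1) ^ m₀.toNat = 0 :=
    hm₀ _ (C.Fil_mono (Int.self_le_toNat m₀) (hpow m₀.toNat))
  have h1 : ((u : Matrix C.Idx C.Idx F) - 1) ^ p ^ m₀.toNat = 0 :=
    pow_eq_zero_of_le (Nat.lt_pow_self (Fact.out : p.Prime).one_lt).le h0
  rw [sub_pow_char_pow_of_commute _ _ (Commute.one_right _), one_pow, sub_eq_zero] at h1
  refine ⟨m₀.toNat, ?_⟩
  apply Subtype.ext
  apply Units.ext
  show (((u ^ p ^ m₀.toNat : GL C.Idx F)) : Matrix C.Idx C.Idx F) = 1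
  rw [Units.val_pow_eq_pow_val]
  exact h1

private theorem F1_key (F : Type*) [Field F] [Finite F] (g : GL C.Idx F) (hg : g ∈ C.Gad F)
    (h : ∀ x ∈ (C.adS F).U 1, g⁻¹ * x * g ∈ C.F1_B F) : g ∈ C.F1_B F := by
  rw [← C.gen_adS] at hg
  obtain ⟨u, hu, ν, hν, v, hv, rfl⟩ := (C.adS F).bruhat g hg
  obtain ⟨w, hw, hact, hw1⟩ := (C.adS F).N_acts ν hν
  have huB := C.F1_U_le hu
  have hvB := C.F1_U_le hv
  have hνB : ∀ x ∈ (C.adS F).U 1, ν⁻¹ * x * ν ∈ C.F1_B F := by
    intro x hx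
    have h1 := h (u * x * u⁻¹) (Subgroup.mul_mem _ (Subgroup.mul_mem _ hu hx)
      (Subgroup.inv_mem _ hu))
    have h2 : ν⁻¹ * x * ν = v * ((u * ν * v)⁻¹ * (u * x * u⁻¹) * (u * ν * v)) * v⁻¹ := by
      group
    rw [h2]
    exact Subgroup.mul_mem _ (Subgroup.mul_mem _ hvB h1) (Subgroup.inv_mem _ hvB)
  have hw2 : w = 1 := by
    by_contra hne
    have h3 : ∃ i, ¬ C.Pos (w⁻¹ (C.simple i)) := by
      by_contra hcon
      push Not at hcon
      apply hne
      have := C.eq_one_of_pos w⁻¹ (Subgroup.inv_mem _ hw) hcon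
      exact inv_eq_one.mp this
    obtain ⟨i, hi⟩ := h3
    have hx : C.xg F (C.simple i) 1 ∈ (C.adS F).U 1 := by
      apply Subgroup.subset_closure
      exact ⟨C.simple i, 1, (C.ht_simple i).ge, rfl⟩
    have h4 := C.xi_eq_zero ν _ w hν hact hx (hνB _ hx) i hi
    rw [C.xi_xg i (C.simple i) (C.simple_pos i), if_pos rfl] at h4
    exact one_ne_zero h4
  have hνT := hw1 hw2
  have hνB2 : ν ∈ C.F1_B F := by
    rw [F1_mem_B]
    obtain ⟨c, hc⟩ := C.T_diag ν hνT
    rw [hc]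
    intro a b hab
    apply Matrix.diagonal_apply_ne
    rintro rfl
    omega
  exact Subgroup.mul_mem _ (Subgroup.mul_mem _ huB hνB2) hvB

theorem fixed_finite' (F : Type*) [Field F] [Finite F] (p : ℕ) [Fact p.Prime] [CharP F p]
    (P : Subgroup (GL C.Idx F)) (hP : P ≤ C.Gad F) (hp : IsPGroup p P) :
    ∃ g ∈ C.Gad F, ∀ x ∈ P, C.Fil 0 ((g⁻¹ * x * g : GL C.Idx F) : Matrix C.Idx C.Idx F) := by
  have hUG : (C.adS F).U 1 ≤ C.Gad F := by
    rw [← C.gen_adS]
    exact (C.adS F).U_le_gen 1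
  exact F1_grp p (C.Gad F) (C.F1_B F) ((C.adS F).U 1) P hUG C.F1_U_le (C.F1_pgroup F p) hp hP
    (C.F1_key F)

end SLC
end Pool.Agent.H75.UL
end

section
/- module Pool.Agent.H86.UL.F2 -/
/-!
# Project UL, module F2: a group of unipotents in the adjoint group over an algebraically closed field
fixes a chamber
-/

set_option autoImplicit false
open Matrix

namespace Pool.Agent.H75.UL
namespace SLC
variable {n : ℕ} (C : SLC n)

theorem X_map {R S : Type*} [CommRing R] [CommRing S] (f : R →+* S) (α : C.Root) (t : R) :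
    (C.X R α t).map f = C.X S α (f t) := by
  ext a b
  by_cases h : a = b
  · subst h
    simp [X, Matrix.smul_apply]
  · simp [X, Matrix.smul_apply, Matrix.one_apply_ne h]

theorem xg_map {R S : Type*} [CommRing R] [CommRing S] (f : R →+* S) (α : C.Root) (t : R) :
    GeneralLinearGroup.map f (C.xg R α t) = C.xg S α (f t) := by
  apply Units.ext
  exact C.X_map f α t

theorem Gad_map {R S : Type*} [CommRing R] [CommRing S] (f : R →+* S) :
    (C.Gad R).map (GeneralLinearGroup.map f) ≤ C.Gad S := by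
  unfold Gad
  rw [MonoidHom.map_closure, Subgroup.closure_le]
  rintro _ ⟨_, ⟨⟨α, t⟩, rfl⟩, rfl⟩
  refine Subgroup.subset_closure ⟨(α, f t), ?_⟩
  exact (C.xg_map f α t).symm

theorem finite_lift_Gad {L : Type*} [Field L] (γ : GL C.Idx L) (hγ : γ ∈ C.Gad L) :
    ∃ S : Set L, S.Finite ∧ ∀ R : Subring L, S ⊆ R →
      ∃ γ' ∈ C.Gad R, GeneralLinearGroup.map R.subtype γ' = γ := by
  unfold Gad at hγ
  induction hγ using Subgroup.closure_induction with
  | mem x hx =>
    obtain ⟨⟨α, t⟩, rfl⟩ := hx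
    refine ⟨{t}, Set.finite_singleton t, fun R hR => ⟨C.xg R α ⟨t, hR rfl⟩, ?_, C.xg_map _ _ _⟩⟩
    exact Subgroup.subset_closure ⟨(α, ⟨t, hR rfl⟩), rfl⟩
  | one => exact ⟨∅, Set.finite_empty, fun R _ => ⟨1, Subgroup.one_mem _, map_one _⟩⟩
  | mul x y _ _ hx hy =>
    obtain ⟨S1, h1, h1'⟩ := hx
    obtain ⟨S2, h2, h2'⟩ := hy
    refine ⟨S1 ∪ S2, h1.union h2, fun R hR => ?_⟩
    obtain ⟨a, ha, ha'⟩ := h1' R (fun x hx => hR (Or.inl hx))
    obtain ⟨b, hb, hb'⟩ := h2' R (fun x hx => hR (Or.inr hx))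
    exact ⟨a * b, Subgroup.mul_mem _ ha hb, by rw [map_mul, ha', hb']⟩
  | inv x _ hx =>
    obtain ⟨S1, h1, h1'⟩ := hx
    refine ⟨S1, h1, fun R hR => ?_⟩
    obtain ⟨a, ha, ha'⟩ := h1' R hR
    exact ⟨a⁻¹, Subgroup.inv_mem _ ha, by rw [map_inv, ha']⟩

/-- The family `u(y) n_w` over the integers. -/
noncomputable def cell (l : List (Fin n)) : GL C.Idx (MvPolynomial C.Root ℤ) :=
  (C.posList.map fun β => C.xg (MvPolynomial C.Root ℤ) β (MvPolynomial.X β)).prod *
    (l.map fun i => C.xg (MvPolynomial C.Root ℤ) (C.simple i) 1 *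
      C.xg (MvPolynomial C.Root ℤ) (-(C.simple i)) 1 *
      C.xg (MvPolynomial C.Root ℤ) (C.simple i) 1).prod

theorem evG_cell {F : Type*} [Field F] (l : List (Fin n)) (y : C.Root → F) :
    evG (C.cell l) y = (C.adS F).lp C.posList y * (C.adS F).nword l := by
  unfold evG cell StSys.lp StSys.nword nn
  rw [map_mul, map_list_prod, map_list_prod, List.map_map, List.map_map]
  congr 2
  · apply List.map_congr_left
    intro β _
    simp only [Function.comp_apply]
    rw [xg_map]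
    simp only [MvPolynomial.eval₂Hom_X']
    rfl
  · apply List.map_congr_left
    intro i _
    simp only [Function.comp_apply]
    rw [map_mul, map_mul, xg_map, xg_map, map_one, inv_one]
    rfl

theorem Acts_mul {K : Type*} [Field K] {H : Type*} [Group H] (S : StSys C K H) (g g' : H)
    (w w' : Equiv.Perm C.Root) (h : S.Acts g w) (h' : S.Acts g' w') : S.Acts (g * g') (w * w') := by
  obtain ⟨c, hc, h1⟩ := h
  obtain ⟨c', hc', h1'⟩ := h'
  refine ⟨fun β => c (w' β) * c' β, fun β => mul_ne_zero (hc _) (hc' _), fun β u => ?_⟩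
  rw [show g * g' * S.x β u * (g * g')⁻¹ = g * (g' * S.x β u * g'⁻¹) * g⁻¹ by group, h1', h1,
    mul_assoc]
  rfl

theorem Acts_inv {K : Type*} [Field K] {H : Type*} [Group H] (S : StSys C K H) (g : H)
    (w : Equiv.Perm C.Root) (h : S.Acts g w) : S.Acts g⁻¹ w⁻¹ := by
  obtain ⟨c, hc, h1⟩ := h
  refine ⟨fun β => (c (w⁻¹ β))⁻¹, fun β => inv_ne_zero (hc _), fun β u => ?_⟩
  have h2 := h1 (w⁻¹ β) ((c (w⁻¹ β))⁻¹ * u)
  rw [mul_inv_cancel_left₀ (hc _), ← Equiv.Perm.mul_apply, mul_inv_cancel, Equiv.Perm.one_apply] at h2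
  rw [← h2]
  group

theorem isNilpotent_lift {L I : Type*} [CommRing L] [Fintype I] [DecidableEq I] (R : Subring L)
    (g : GL I R) (h : IsNilpotent
      (((GeneralLinearGroup.map R.subtype g : GL I L) : Matrix I I L) - 1)) :
    IsNilpotent ((g : Matrix I I R) - 1) := by
  have hinj : Function.Injective (RingHom.mapMatrix (m := I) R.subtype) := by
    intro M M' h
    ext a b
    exact congrFun (congrFun h a) b
  obtain ⟨k, hk⟩ := h
  refine ⟨k, hinj ?_⟩
  rw [map_pow, map_sub, map_one, map_zero]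
  exact hk

theorem isNilpotent_map {A B I : Type*} [CommRing A] [CommRing B] [Fintype I] [DecidableEq I]
    (f : A →+* B) (g : GL I A) (h : IsNilpotent ((g : Matrix I I A) - 1)) :
    IsNilpotent (((GeneralLinearGroup.map f g : GL I B) : Matrix I I B) - 1) := by
  have h1 := h.map (RingHom.mapMatrix (m := I) f)
  rw [map_sub, map_one] at h1
  exact h1

theorem pow_eq_one_of_nilpotent {F I : Type*} [Field F] [Fintype I] [DecidableEq I]
    (p : ℕ) [Fact p.Prime] [CharP F p] (g : GL I F)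
    (h : IsNilpotent ((g : Matrix I I F) - 1)) : ∃ k : ℕ, g ^ p ^ k = 1 := by
  rcases isEmpty_or_nonempty I with hE | hE
  · exact ⟨0, Units.ext (Subsingleton.elim _ _)⟩
  obtain ⟨m, hm⟩ := h
  have h1 : ((g : Matrix I I F) - 1) ^ p ^ m = 0 :=
    pow_eq_zero_of_le (Nat.lt_pow_self (Fact.out : p.Prime).one_lt).le hm
  rw [sub_pow_char_pow_of_commute _ _ (Commute.one_right _), one_pow, sub_eq_zero] at h1
  refine ⟨m, Units.ext ?_⟩
  rw [Units.val_pow_eq_pow_val]
  exact h1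

theorem fixed_chamber (L : Type*) [Field L] [IsAlgClosed L] (Γ : Subgroup (GL C.Idx L))
    (hΓ : Γ ≤ C.Gad L) (hu : ∀ γ ∈ Γ, IsNilpotent ((γ : Matrix C.Idx C.Idx L) - 1)) :
    ∃ g ∈ C.Gad L, ∀ x ∈ Γ, C.Fil 0 ((g⁻¹ * x * g : GL C.Idx L) : Matrix C.Idx C.Idx L) := by
  by_contra hcon
  push Not at hcon
  choose word hword using fun w : C.W => C.exists_wd w.1 w.2
  have hcell : ∀ (l : List (Fin n)) (y : C.Root → L), evG (C.cell l) y ∈ C.Gad L := by
    intro l y
    rw [evG_cell, ← gen_adS]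
    refine Subgroup.mul_mem _ ?_ ((C.adS L).N_le_gen ((C.adS L).nword_mem l))
    refine Subgroup.list_prod_mem _ fun x hx => ?_
    rw [List.mem_map] at hx
    obtain ⟨β, _, rfl⟩ := hx
    exact Subgroup.subset_closure ⟨β, y β, rfl⟩
  obtain ⟨T, S₀, hT, hS₀, hTΓ, hsp⟩ := spread (fun w : C.W => C.cell (word w))
    (fun a b => C.hti a < C.hti b + 0) (Γ : Set (GL C.Idx L)) (by
      intro w y
      obtain ⟨x, hx, hne⟩ := hcon _ (hcell (word w) y)
      refine ⟨x, hx, ?_⟩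
      by_contra hc
      push Not at hc
      exact hne fun a b hab => hc a b hab)
  choose! S1 hS1 hS1' using fun γ (hγ : γ ∈ T) => C.finite_lift_Gad γ (hΓ (hTΓ hγ))
  obtain ⟨R, hR, F, hF, hfin, ⟨π⟩⟩ := exists_finite_residue (S₀ ∪ ⋃ γ ∈ T, S1 γ)
    (hS₀.union (hT.biUnion fun γ hγ => hS1 γ hγ))
  obtain ⟨p, hp⟩ := CharP.exists F
  have hpr : Fact p.Prime := ⟨CharP.char_is_prime F p⟩
  let ΓR : Subgroup (GL C.Idx R) := C.Gad R ⊓ Γ.comap (GeneralLinearGroup.map R.subtype)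
  let P : Subgroup (GL C.Idx F) := ΓR.map (GeneralLinearGroup.map π)
  have hPG : P ≤ C.Gad F := (Subgroup.map_mono inf_le_left).trans (C.Gad_map π)
  have hPp : IsPGroup p P := by
    rintro ⟨x, x', hx', rfl⟩
    have h1 : IsNilpotent ((x' : Matrix C.Idx C.Idx R) - 1) := isNilpotent_lift R x' (hu _ hx'.2)
    obtain ⟨k, hk⟩ := pow_eq_one_of_nilpotent p _ (isNilpotent_map π x' h1)
    exact ⟨k, Subtype.ext hk⟩
  obtain ⟨g, hg, hfix⟩ := C.fixed_finite' F p P hPG hPp
  rw [← gen_adS] at hg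
  obtain ⟨u, hu1, ν, hν, v, hv, rfl⟩ := (C.adS F).bruhat g hg
  obtain ⟨w, hw, hact, -⟩ := (C.adS F).N_acts ν hν
  obtain ⟨y, -, rfl⟩ := (C.adS F).exists_lp 1 le_rfl u hu1
  -- `ν = nword * τ`
  set ν₀ := (C.adS F).nword (word ⟨w, hw⟩) with hν₀
  have hν₀N : ν₀ ∈ (C.adS F).N := (C.adS F).nword_mem _
  have hact₀ : (C.adS F).Acts ν₀ w := by
    have h1 := (C.adS F).nword_acts (word ⟨w, hw⟩)
    rwa [← hword ⟨w, hw⟩] at h1
  have hτ : ν₀⁻¹ * ν ∈ (C.adS F).T := by
    apply C.N_one _ _ (Subgroup.mul_mem _ (Subgroup.inv_mem _ hν₀N) hν)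
    have h1 := C.Acts_mul (C.adS F) _ _ _ _ (C.Acts_inv (C.adS F) _ _ hact₀) hact
    rwa [inv_mul_cancel] at h1
  set τ := ν₀⁻¹ * ν with hτdef
  have hνeq : ν = ν₀ * τ := by rw [hτdef]; group
  obtain ⟨γ, hγT, a, b, hab, hne⟩ := hsp R (fun x hx => hR (Or.inl hx)) F π ⟨w, hw⟩ y
  apply hne
  -- `γ` is in `ΓR`
  obtain ⟨γ', hγ', hγ'2⟩ := hS1' _ hγT R (fun x hx => hR (Or.inr (Set.mem_iUnion₂.mpr ⟨_, hγT, hx⟩)))
  have hγγ : γ = γ' := by
    have hinj : Function.Injective (RingHom.mapMatrix (m := C.Idx) R.subtype) := by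
      intro M M' h
      ext a b
      exact congrFun (congrFun h a) b
    apply Units.ext
    apply hinj
    exact (congrArg (fun g : GL C.Idx L => (g : Matrix C.Idx C.Idx L)) hγ'2).symm
  have hxP : GeneralLinearGroup.map π γ ∈ P := by
    refine ⟨γ, ⟨?_, ?_⟩, rfl⟩
    · rw [hγγ]; exact hγ'
    · exact hTΓ hγT
  have h2 := hfix _ hxP
  have hb0 : C.Fil 0 ((τ * v : GL C.Idx F) : Matrix C.Idx C.Idx F) := by
    rw [Units.val_mul]
    have := C.Fil_mul (C.Fil_T τ hτ) (C.Fil_U_zero v hv)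
    rwa [add_zero] at this
  have hbG : τ * v ∈ C.Gad F := by
    rw [← gen_adS]
    exact Subgroup.mul_mem _ ((C.adS F).T_le_gen hτ) ((C.adS F).U_le_gen 1 hv)
  have hb0' := C.upper_inv _ hbG hb0
  have h3 : (evG (C.cell (word ⟨w, hw⟩)) y)⁻¹ * GeneralLinearGroup.map π γ *
      evG (C.cell (word ⟨w, hw⟩)) y = (τ * v) * (((C.adS F).lp C.posList y * ν * v)⁻¹ *
        GeneralLinearGroup.map π γ * ((C.adS F).lp C.posList y * ν * v)) * (τ * v)⁻¹ := by
    rw [evG_cell, ← hν₀, hνeq]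
    group
  rw [h3]
  have h4 := C.Fil_mul (C.Fil_mul hb0 h2) hb0'
  rw [add_zero, add_zero, ← Units.val_mul, ← Units.val_mul] at h4
  exact h4 a b hab

end SLC
end Pool.Agent.H75.UL
end

section
/- module Pool.Agent.H75.UL.T8 -/
/-!
# Project UL (MP_978914_al), module T8

Conjugation of regular elements into the torus; centralizers.

`conj_T`: Claim(m): there is `v ∈ U 1` with `v⁻¹ (τ u) v = τ u'`, `u' ∈ U m`. Step: `u' = lp s * u''`
with `s` supported in height `m` (`exists_layer`). Conjugate by `v' = lp r`, `r` supported in height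
`m`: `v'⁻¹ τ u' v' = τ (τ⁻¹ v'⁻¹ τ) u' v'`, and modulo `U (m + 1)` (`lp_add_layer`, `U_conj`) this is
`τ * lp (β ↦ -χ(β)⁻¹ r β + s β + r β)`, `χ = chi τ`; choose `r β = -s β / (1 - χ(β)⁻¹)`. Start with
`m = 1`, end with `U m = ⊥` (`exists_U_eq_bot`).
`centralizer_U`: `u = lp t` (`exists_lp`), `τ u τ⁻¹ = lp (β ↦ χ(β) t β)` (`T_fix`) and `lp_unique`.
`centralizer_B`: `b = τ' u` commutes with `τ` regular: `τ u τ⁻¹ = u` (`T` is commutative), so all
coordinates of `u` vanish.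
-/

set_option autoImplicit false
open Matrix
universe u
namespace Pool.Agent.H75.UL

namespace SLC
variable {n : ℕ} (C : SLC n) {K : Type*} [Field K]

theorem T8_conj_lp (τ : GL C.Idx K) (hτ : τ ∈ (C.adS K).T) (l : List C.Root) (t : C.Root → K) :
    τ * (C.adS K).lp l t * τ⁻¹ =
      (C.adS K).lp l (fun β => C.chi (τ : Matrix C.Idx C.Idx K) β * t β) := by
  induction l with
  | nil => simp [StSys.lp]
  | cons β l ih =>
    have e1 : ∀ t' : C.Root → K, (C.adS K).lp (β :: l) t' =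
        C.xg K β (t' β) * (C.adS K).lp l t' := by
      intro t'
      unfold StSys.lp
      rw [List.map_cons, List.prod_cons]
      rfl
    rw [e1, e1, ← ih, ← (C.T_fix τ hτ β (t β)).2]
    group

theorem T8_conj_lp' (τ : GL C.Idx K) (hτ : τ ∈ (C.adS K).T) (l : List C.Root) (t : C.Root → K) :
    τ⁻¹ * (C.adS K).lp l t * τ =
      (C.adS K).lp l (fun β => (C.chi (τ : Matrix C.Idx C.Idx K) β)⁻¹ * t β) := by
  have h := C.T8_conj_lp τ hτ l (fun β => (C.chi (τ : Matrix C.Idx C.Idx K) β)⁻¹ * t β)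
  have e : (fun β => C.chi (τ : Matrix C.Idx C.Idx K) β *
      ((C.chi (τ : Matrix C.Idx C.Idx K) β)⁻¹ * t β)) = t := by
    funext β
    rw [← mul_assoc, mul_inv_cancel₀ (C.T_fix τ hτ β 0).1, one_mul]
  rw [e] at h
  rw [← h]
  group

/-- one step of `conj_T`. -/
theorem T8_step (τ u' : GL C.Idx K) (hτ : τ ∈ (C.adS K).T) (m : ℤ) (hm : 1 ≤ m)
    (hu' : u' ∈ (C.adS K).U m)
    (hreg : ∀ γ, C.Pos γ → C.chi (τ : Matrix C.Idx C.Idx K) γ ≠ 1) :
    ∃ v ∈ (C.adS K).U 1, ∃ u'' ∈ (C.adS K).U (m + 1), v⁻¹ * (τ * u') * v = τ * u'' := by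
  set S := C.adS K with hS
  obtain ⟨s, hs, w, hw, hsw⟩ := S.exists_layer m hm u' hu'
  set χ : C.Root → K := C.chi (τ : Matrix C.Idx C.Idx K) with hχ
  set r : C.Root → K := fun β => -(s β) / (1 - (χ β)⁻¹) with hr
  have hr0 : ∀ β, ht β.1 ≠ m → r β = 0 := by
    intro β hβ
    rw [hr]
    simp [hs β hβ]
  have hlpU : ∀ t : C.Root → K, (∀ β, ht β.1 ≠ m → t β = 0) → S.lp C.posList t ∈ S.U 1 := by
    intro t ht'
    apply S.lp_mem 1
    intro β hβ
    apply ht'
    omega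
  have hv : S.lp C.posList r ∈ S.U 1 := hlpU r hr0
  -- the congruence modulo `U (m + 1)`
  let R : GL C.Idx K → GL C.Idx K → Prop := fun a b => ∃ x ∈ S.U (m + 1), a = b * x
  have hRr : ∀ a b c, c ∈ S.U 1 → R a b → R (a * c) (b * c) := by
    rintro a b c hc ⟨x, hx, rfl⟩
    refine ⟨c⁻¹ * x * c, ?_, by group⟩
    have h1 := S.U_conj (m + 1) (by omega) c⁻¹ x (inv_mem hc) hx
    rwa [inv_inv] at h1
  have hRl : ∀ a b c, R a b → R (c * a) (c * b) := by
    rintro a b c ⟨x, hx, rfl⟩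
    exact ⟨x, hx, by group⟩
  have hRt : ∀ a b c, R a b → R b c → R a c := by
    rintro a b c ⟨x, hx, rfl⟩ ⟨y, hy, rfl⟩
    exact ⟨y * x, mul_mem hy hx, by group⟩
  have hRs : ∀ a b, R a b → R b a := by
    rintro a b ⟨x, hx, rfl⟩
    exact ⟨x⁻¹, inv_mem hx, by group⟩
  have hadd : ∀ t t' : C.Root → K, (∀ β, ht β.1 ≠ m → t β = 0) → (∀ β, ht β.1 ≠ m → t' β = 0) →
      R (S.lp C.posList t * S.lp C.posList t') (S.lp C.posList (fun β => t β + t' β)) := by
    intro t t' h h'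
    obtain ⟨x, hx, hx2⟩ := S.lp_add_layer m hm t t' h h'
    exact hRs _ _ ⟨x, hx, hx2⟩
  -- v⁻¹
  have hinv : R (S.lp C.posList r)⁻¹ (S.lp C.posList (fun β => -r β)) := by
    obtain ⟨x, hx, hx2⟩ := S.lp_add_layer m hm r (fun β => -r β) hr0
      (fun β hβ => by rw [hr0 β hβ, neg_zero])
    have e : S.lp C.posList (fun β => r β + -r β) = 1 :=
      S.lp_zero _ _ (fun β _ => by ring)
    rw [e] at hx2
    refine ⟨x, hx, ?_⟩
    rw [eq_comm, eq_inv_iff_mul_eq_one]
    have h1 : S.lp C.posList r * (S.lp C.posList (fun β => -r β) * x) = 1 := by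
      rw [← mul_assoc]; exact hx2.symm
    exact mul_eq_one_comm.1 h1
  have hconj : R (τ⁻¹ * (S.lp C.posList r)⁻¹ * τ)
      (S.lp C.posList (fun β => (χ β)⁻¹ * -r β)) := by
    obtain ⟨x, hx, hx2⟩ := hinv
    refine ⟨τ⁻¹ * x * τ, ?_, ?_⟩
    · have h1 := S.T_conj_U (m + 1) τ⁻¹ x (inv_mem hτ) hx
      rwa [inv_inv] at h1
    · have h2 := C.T8_conj_lp' τ hτ C.posList (fun β => -r β)
      rw [← hS, ← hχ] at h2
      rw [hx2, ← h2]
      group
  have hsU : S.lp C.posList s ∈ S.U 1 := hlpU s hs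
  have hu'1 : u' ∈ S.U 1 := S.U_mono hm hu'
  have hz1 : ∀ β, ht β.1 ≠ m → (χ β)⁻¹ * -r β = 0 := by
    intro β hβ
    rw [hr0 β hβ, neg_zero, mul_zero]
  have hz2 : ∀ β, ht β.1 ≠ m → (χ β)⁻¹ * -r β + s β = 0 := by
    intro β hβ
    rw [hz1 β hβ, hs β hβ, add_zero]
  have hR1 : R (τ⁻¹ * (S.lp C.posList r)⁻¹ * τ * u' * S.lp C.posList r)
      (S.lp C.posList (fun β => (χ β)⁻¹ * -r β) * u' * S.lp C.posList r) :=
    hRr _ _ _ hv (hRr _ _ _ hu'1 hconj)
  have hR2 : R (S.lp C.posList (fun β => (χ β)⁻¹ * -r β) * u' * S.lp C.posList r)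
      (S.lp C.posList (fun β => (χ β)⁻¹ * -r β) * S.lp C.posList s * S.lp C.posList r) :=
    hRr _ _ _ hv (hRl _ _ _ ⟨w, hw, hsw⟩)
  have hR3 : R (S.lp C.posList (fun β => (χ β)⁻¹ * -r β) * S.lp C.posList s * S.lp C.posList r)
      (S.lp C.posList (fun β => (χ β)⁻¹ * -r β + s β) * S.lp C.posList r) :=
    hRr _ _ _ hv (hadd _ _ hz1 hs)
  have hR4 := hadd _ _ hz2 hr0
  have e0 : S.lp C.posList (fun β => ((χ β)⁻¹ * -r β + s β) + r β) = 1 := by
    apply S.lp_zero
    intro β hβ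
    rw [C.mem_posList] at hβ
    have h1 : χ β ≠ 1 := hreg β hβ
    have h2 : χ β ≠ 0 := (C.T_fix τ hτ β 0).1
    have h3 : 1 - (χ β)⁻¹ ≠ 0 := by
      intro h4
      apply h1
      rw [sub_eq_zero] at h4
      rw [← inv_inv (χ β), ← h4, inv_one]
    have h5 : r β * (1 - (χ β)⁻¹) = -s β := div_mul_cancel₀ _ h3
    linear_combination h5
  rw [e0] at hR4
  obtain ⟨x, hx, hx2⟩ := hRt _ _ _ hR1 (hRt _ _ _ hR2 (hRt _ _ _ hR3 hR4))
  rw [one_mul] at hx2
  refine ⟨S.lp C.posList r, hv, x, hx, ?_⟩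
  rw [← hx2]
  group

theorem conj_T (τ u : GL C.Idx K) (hτ : τ ∈ (C.adS K).T) (hu : u ∈ (C.adS K).U 1)
    (hreg : ∀ γ, C.Pos γ → C.chi (τ : Matrix C.Idx C.Idx K) γ ≠ 1) :
    ∃ v ∈ (C.adS K).U 1, v⁻¹ * (τ * u) * v = τ := by
  obtain ⟨m₀, hm₀, -, hbot⟩ := (C.adS K).exists_U_eq_bot
  have key : ∀ k : ℕ, ∃ v ∈ (C.adS K).U 1, ∃ u' ∈ (C.adS K).U ((k : ℤ) + 1),
      v⁻¹ * (τ * u) * v = τ * u' := by
    intro k
    induction k with
    | zero =>
      refine ⟨1, one_mem _, u, ?_, by group⟩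
      simpa using hu
    | succ k ih =>
      obtain ⟨v, hv, u', hu', h1⟩ := ih
      obtain ⟨v', hv', u'', hu'', h2⟩ := C.T8_step τ u' hτ ((k : ℤ) + 1) (by omega) hu' hreg
      refine ⟨v * v', mul_mem hv hv', u'', ?_, ?_⟩
      · push_cast
        exact hu''
      · rw [← h2, ← h1]
        group
  obtain ⟨v, hv, u', hu', h1⟩ := key (m₀ - 1).toNat
  have e : (((m₀ - 1).toNat : ℕ) : ℤ) + 1 = m₀ := by omega
  rw [e, hbot, Subgroup.mem_bot] at hu'
  rw [hu', mul_one] at h1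
  exact ⟨v, hv, h1⟩

theorem centralizer_U (τ u : GL C.Idx K) (hτ : τ ∈ (C.adS K).T) (hu : u ∈ (C.adS K).U 1)
    (h : τ * u = u * τ) : ∃ t : C.Root → K, u = (C.adS K).lp C.posList t ∧
      ∀ β, C.Pos β → t β ≠ 0 → C.chi (τ : Matrix C.Idx C.Idx K) β = 1 := by
  obtain ⟨t, -, htu⟩ := (C.adS K).exists_lp 1 le_rfl u hu
  refine ⟨t, htu, fun β hβ htβ => ?_⟩
  have h1 := C.T8_conj_lp τ hτ C.posList t
  rw [← htu, h, mul_inv_cancel_right, htu] at h1
  have h2 := C.lp_unique _ _ h1 β hβ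
  have h3 : (C.chi (τ : Matrix C.Idx C.Idx K) β - 1) * t β = 0 := by
    rw [sub_mul, one_mul, sub_eq_zero]
    exact h2.symm
  rcases mul_eq_zero.1 h3 with h4 | h4
  · exact sub_eq_zero.1 h4
  · exact absurd h4 htβ

theorem centralizer_B (τ b : GL C.Idx K) (hτ : τ ∈ (C.adS K).T) (hb : b ∈ C.Gad K)
    (hb0 : C.Fil 0 (b : Matrix C.Idx C.Idx K))
    (hreg : ∀ γ, C.Pos γ → C.chi (τ : Matrix C.Idx C.Idx K) γ ≠ 1)
    (h : τ * b = b * τ) : b ∈ (C.adS K).T := by
  obtain ⟨τ', hτ', u, hu, rfl⟩ := C.upper b hb hb0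
  have hc := (C.adS K).T_comm τ τ' hτ hτ'
  have h1 : τ * u = u * τ := by
    have h2 : τ' * (τ * u) = τ' * (u * τ) := by
      rw [← mul_assoc, ← hc, mul_assoc, h, mul_assoc]
    exact mul_left_cancel h2
  obtain ⟨t, htu, ht'⟩ := C.centralizer_U τ u hτ hu h1
  have hu1 : u = 1 := by
    rw [htu]
    apply (C.adS K).lp_zero
    intro β hβ
    rw [C.mem_posList] at hβ
    by_contra hne
    exact hreg β hβ (ht' β hβ hne)
  rw [hu1, mul_one]
  exact hτ'

/-- If only the positive root `β₀` has `chi τ = 1`, the centralizer of `τ` in `U 1` is the root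
subgroup of `β₀`. -/
theorem centralizer_U_single (τ u : GL C.Idx K) (hτ : τ ∈ (C.adS K).T) (hu : u ∈ (C.adS K).U 1)
    (h : τ * u = u * τ) (β₀ : C.Root) (hβ₀ : C.Pos β₀)
    (h1 : ∀ β, C.Pos β → β ≠ β₀ → C.chi (τ : Matrix C.Idx C.Idx K) β ≠ 1) :
    ∃ s : K, u = C.xg K β₀ s := by
  obtain ⟨t, htu, ht'⟩ := C.centralizer_U τ u hτ hu h
  refine ⟨t β₀, ?_⟩
  obtain ⟨l₁, l₂, hl⟩ := List.append_of_mem ((C.mem_posList β₀).2 hβ₀)
  have hnd := C.posList_nodup
  rw [hl, List.nodup_append, List.nodup_cons] at hnd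
  have hz : ∀ β ∈ C.posList, β ≠ β₀ → t β = 0 := by
    intro β hβ hne
    rw [C.mem_posList] at hβ
    by_contra hne2
    exact h1 β hβ hne (ht' β hβ hne2)
  rw [htu, hl]
  have e1 : (C.adS K).lp (l₁ ++ β₀ :: l₂) t =
      (C.adS K).lp l₁ t * (C.xg K β₀ (t β₀) * (C.adS K).lp l₂ t) := by
    unfold StSys.lp
    rw [List.map_append, List.prod_append, List.map_cons, List.prod_cons]
    rfl
  rw [e1, (C.adS K).lp_zero l₁ t, (C.adS K).lp_zero l₂ t, one_mul, mul_one]
  · intro β hβ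
    apply hz β
    · rw [hl]
      exact List.mem_append_right _ (List.mem_cons_of_mem _ hβ)
    · rintro rfl
      exact hnd.2.1.1 hβ
  · intro β hβ
    apply hz β
    · rw [hl]
      exact List.mem_append_left _ hβ
    · rintro rfl
      exact hnd.2.2 β hβ β List.mem_cons_self rfl

end SLC

end Pool.Agent.H75.UL
end

section
/- module Pool.Agent.H75.UL.P3a -/
/-!
# Project UL (MP_978914_al), module P3a

Strongly regular torus elements and conjugation of the torus.

Data as given by `coords` (P2): `Ψ`, `π`, `φ` with `chi (Ψ (tor v t)) (simple (π i)) =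
φ t ^ ip α_i v`.
`exists_regular`: by `chi_prod`, `chi (Ψ (tor v t)) γ = φ t ^ e` with
`e = ∑ i, ip α_i v * γ_{π i}`. Take `v` with `ip α_i v = det * B ^ i` (`exists_coweight`), where
`B = 2 M + 1` and `|γ_j| ≤ M` for all roots (or any integer vector `b` avoiding the finitely many
hyperplanes `∑ b_i x_{π i} = 0`, `x` a root or a difference of two distinct roots): the exponents
`e_γ` are nonzero and distinct. `k` is infinite, so there is `t ≠ 0` with `t ^ m ≠ 1` for the finitely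
many nonzero integers `m = e_γ`, `e_γ - e_γ'` (each excludes finitely many `t`); `φ` is injective.
`exists_semiregular`: `v` with `ip α_i v = 0`, `ip α_j v = det` for `j ≠ i`.
`conj_torus`: `h₀ = tor v t` from `exists_regular`; `Ψ h₀ = τ u` (`upper`), `chi τ = chi (Ψ h₀)`
(`chi_mul_U`); `conj_T` gives `w ∈ U 1`, `w⁻¹ Ψ(h₀) w = τ`. For `h ∈ S.T`, `h` commutes with `h₀`
(`T_comm`), so `w⁻¹ Ψ(h) w` commutes with `τ`, is in `Gad` and satisfies `Fil 0`: it is in `T`
(`centralizer_B`).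
-/

set_option autoImplicit false
open Matrix
universe u
namespace Pool.Agent.H75.UL

namespace SLC
variable {n : ℕ} (C : SLC n) {K : Type*} [Field K]

theorem exists_pow_ne_one {k : Type*} [Field k] [Infinite k] (s : Finset ℤ) (hs : ∀ m ∈ s, m ≠ 0) :
    ∃ t : k, t ≠ 0 ∧ ∀ m ∈ s, t ^ m ≠ 1 := by
  classical
  obtain ⟨t, ht⟩ := Infinite.exists_notMem_finset
    (insert (0 : k) (s.biUnion fun m => (Polynomial.nthRoots m.natAbs (1 : k)).toFinset))
  rw [Finset.mem_insert, not_or] at ht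
  refine ⟨t, ht.1, fun m hm h1 => ht.2 ?_⟩
  rw [Finset.mem_biUnion]
  refine ⟨m, hm, ?_⟩
  have hm0 := hs m hm
  rw [Multiset.mem_toFinset, Polynomial.mem_nthRoots (Int.natAbs_pos.2 hm0)]
  rcases Int.natAbs_eq m with h | h
  · rw [h, zpow_natCast] at h1
    exact h1
  · rw [h, _root_.zpow_neg, zpow_natCast, inv_eq_one] at h1
    exact h1

private theorem P3a_generic {ι : Type*} [Fintype ι] (x : ι → Fin n → ℤ) (hx : ∀ a, x a ≠ 0) :
    ∃ b : Fin n → ℤ, ∀ a, ∑ i, b i * x a i ≠ 0 := by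
  classical
  have hp : ∀ a, (∑ i : Fin n, Polynomial.C (x a i) * Polynomial.X ^ (i : ℕ) :
      Polynomial ℤ) ≠ 0 := by
    intro a h
    apply hx a
    funext i
    have h1 := congrArg (fun p => Polynomial.coeff p (i : ℕ)) h
    simp only [Polynomial.finsetSum_coeff, Polynomial.coeff_C_mul_X_pow,
      Polynomial.coeff_zero] at h1
    rw [Finset.sum_eq_single i] at h1
    · simpa using h1
    · intro j _ hj
      rw [if_neg]
      intro h2
      exact hj (Fin.ext h2.symm)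
    · intro h2
      exact absurd (Finset.mem_univ i) h2
  have hQ : (∏ a, (∑ i : Fin n, Polynomial.C (x a i) * Polynomial.X ^ (i : ℕ) :
      Polynomial ℤ)) ≠ 0 := Finset.prod_ne_zero_iff.2 fun a _ => hp a
  obtain ⟨B, hB⟩ : ∃ B : ℤ, (∏ a, (∑ i : Fin n, Polynomial.C (x a i) * Polynomial.X ^ (i : ℕ) :
      Polynomial ℤ)).eval B ≠ 0 := by
    by_contra hcon
    push Not at hcon
    exact hQ (Polynomial.funext fun r => by rw [hcon r, Polynomial.eval_zero])
  refine ⟨fun i => B ^ (i : ℕ), fun a h => ?_⟩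
  rw [Polynomial.eval_prod, Finset.prod_ne_zero_iff] at hB
  apply hB a (Finset.mem_univ a)
  rw [Polynomial.eval_finsetSum, ← h]
  refine Finset.sum_congr rfl fun i _ => ?_
  rw [Polynomial.eval_mul, Polynomial.eval_C, Polynomial.eval_pow, Polynomial.eval_X, mul_comm]

private theorem P3a_gad {k : Type*} [Field k] {H : Type*} [Group H]
    (S : StSys C k H) (Ψ : H →* GL C.Idx K) (hΨ : ∀ β t, Ψ (S.x β t) ∈ C.Gad K) {h : H}
    (hh : h ∈ S.T) : Ψ h ∈ C.Gad K := by
  have h1 : S.gen ≤ (C.Gad K).comap Ψ := by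
    unfold StSys.gen
    rw [Subgroup.closure_le]
    rintro _ ⟨β, t, rfl⟩
    exact hΨ β t
  exact h1 (S.T_le_gen hh)

private theorem P3a_zpow_sum {F : Type*} [Field F] {ι : Type*} (s : Finset ι) {a : F} (ha : a ≠ 0)
    (e : ι → ℤ) : ∏ i ∈ s, a ^ e i = a ^ ∑ i ∈ s, e i := by
  classical
  induction s using Finset.induction_on with
  | empty => simp
  | insert i s hi ih => rw [Finset.prod_insert hi, Finset.sum_insert hi, ih, zpow_add₀ ha]

private theorem P3a_chi_tor {k : Type*} [Field k] {H : Type*} [Group H]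
    (S : StSys C k H) (Ψ : H →* GL C.Idx K) (hΨ : ∀ β t, Ψ (S.x β t) ∈ C.Gad K)
    (hT : ∀ h ∈ S.T, C.Fil 0 (Ψ h : Matrix C.Idx C.Idx K))
    (π : Equiv.Perm (Fin n)) (φ : k →+* K)
    (hchi : ∀ v t, t ≠ 0 → ∀ i, C.chi (Ψ (S.tor v t) : Matrix C.Idx C.Idx K) (C.simple (π i)) =
        φ t ^ (C.ip (Pi.single i 1) v)) (v : Fin n → ℤ) (t : k) (ht : t ≠ 0) (γ : C.Root) :
    C.chi (Ψ (S.tor v t) : Matrix C.Idx C.Idx K) γ =
      φ t ^ (∑ i, C.ip (Pi.single i 1) v * γ.1 (π i)) := by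
  have hmem := S.tor_mem v t ht
  rw [C.chi_prod _ (C.P3a_gad S Ψ hΨ hmem) (hT _ hmem) γ, ← Equiv.prod_comp π,
    ← P3a_zpow_sum _ ((map_ne_zero φ).2 ht)]
  refine Finset.prod_congr rfl fun i _ => ?_
  rw [hchi v t ht i, _root_.zpow_mul]

theorem exists_regular {k : Type*} [Field k] [Infinite k] {H : Type*} [Group H]
    (S : StSys C k H) (Ψ : H →* GL C.Idx K) (hΨ : ∀ β t, Ψ (S.x β t) ∈ C.Gad K)
    (hT : ∀ h ∈ S.T, C.Fil 0 (Ψ h : Matrix C.Idx C.Idx K))
    (π : Equiv.Perm (Fin n)) (φ : k →+* K)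
    (hchi : ∀ v t, t ≠ 0 → ∀ i, C.chi (Ψ (S.tor v t) : Matrix C.Idx C.Idx K) (C.simple (π i)) =
        φ t ^ (C.ip (Pi.single i 1) v)) :
    ∃ (v : Fin n → ℤ) (t : k), t ≠ 0 ∧
      (∀ γ, C.chi (Ψ (S.tor v t) : Matrix C.Idx C.Idx K) γ ≠ 1) ∧
      Function.Injective (C.chi (Ψ (S.tor v t) : Matrix C.Idx C.Idx K)) := by
  classical
  obtain ⟨b, hb⟩ := P3a_generic (n := n)
    (Sum.elim (fun γ : C.Root => fun i => γ.1 (π i))
      (fun q : {q : C.Root × C.Root // q.1 ≠ q.2} => fun i => q.1.1.1 (π i) - q.1.2.1 (π i)))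
    (by
      rintro (γ | ⟨⟨γ, γ'⟩, hne⟩) h
      · apply C.root_ne_zero γ
        funext j
        have h1 := congrFun h (π.symm j)
        simpa using h1
      · apply hne
        apply Root.ext
        funext j
        have h1 := congrFun h (π.symm j)
        simp only [Sum.elim_inr, Equiv.apply_symm_apply, Pi.zero_apply] at h1
        show γ.1 j = γ'.1 j
        omega)
  obtain ⟨v, hv⟩ := C.exists_coweight b
  obtain ⟨t, ht0, ht⟩ := exists_pow_ne_one (k := k)
    (Finset.univ.image fun a => C.A.det * ∑ i, b i *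
      (Sum.elim (fun γ : C.Root => fun i => γ.1 (π i))
      (fun q : {q : C.Root × C.Root // q.1 ≠ q.2} => fun i =>
        q.1.1.1 (π i) - q.1.2.1 (π i)) a) i) (by
      intro m hm
      obtain ⟨a, _, rfl⟩ := Finset.mem_image.1 hm
      exact mul_ne_zero C.det_ne_zero (hb a))
  have hexp : ∀ γ : C.Root, ∑ i, C.ip (Pi.single i 1) v * γ.1 (π i) =
      C.A.det * ∑ i, b i * γ.1 (π i) := by
    intro γ
    rw [Finset.mul_sum]
    refine Finset.sum_congr rfl fun i _ => ?_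
    rw [hv i, mul_assoc]
  refine ⟨v, t, ht0, fun γ h => ?_, fun γ γ' h => ?_⟩
  · rw [C.P3a_chi_tor S Ψ hΨ hT π φ hchi v t ht0 γ, ← map_zpow₀, hexp] at h
    have h1 : t ^ (C.A.det * ∑ i, b i * γ.1 (π i)) = 1 := by
      apply φ.injective
      rw [h, map_one]
    exact ht _ (Finset.mem_image.2 ⟨Sum.inl γ, Finset.mem_univ _, rfl⟩) h1
  · by_contra hne
    rw [C.P3a_chi_tor S Ψ hΨ hT π φ hchi v t ht0 γ, C.P3a_chi_tor S Ψ hΨ hT π φ hchi v t ht0 γ',
      ← map_zpow₀, ← map_zpow₀, hexp, hexp] at h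
    have h1 := φ.injective h
    have h2 : t ^ (C.A.det * ∑ i, b i * (γ.1 (π i) - γ'.1 (π i))) = 1 := by
      have h3 : C.A.det * ∑ i, b i * (γ.1 (π i) - γ'.1 (π i)) =
          C.A.det * ∑ i, b i * γ.1 (π i) - C.A.det * ∑ i, b i * γ'.1 (π i) := by
        rw [← mul_sub, ← Finset.sum_sub_distrib]
        congr 1
        refine Finset.sum_congr rfl fun i _ => ?_
        ring
      rw [h3, zpow_sub₀ ht0, h1, div_self]
      exact zpow_ne_zero _ ht0
    exact ht _ (Finset.mem_image.2 ⟨Sum.inr ⟨(γ, γ'), hne⟩, Finset.mem_univ _, rfl⟩) h2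

theorem chi_tor {k : Type*} [Field k] {H : Type*} [Group H]
    (S : StSys C k H) (Ψ : H →* GL C.Idx K) (hΨ : ∀ β t, Ψ (S.x β t) ∈ C.Gad K)
    (hT : ∀ h ∈ S.T, C.Fil 0 (Ψ h : Matrix C.Idx C.Idx K))
    (π : Equiv.Perm (Fin n)) (φ : k →+* K)
    (hchi : ∀ v t, t ≠ 0 → ∀ i, C.chi (Ψ (S.tor v t) : Matrix C.Idx C.Idx K) (C.simple (π i)) =
        φ t ^ (C.ip (Pi.single i 1) v)) (v : Fin n → ℤ) (t : k) (ht : t ≠ 0) (γ : C.Root) :
    C.chi (Ψ (S.tor v t) : Matrix C.Idx C.Idx K) γ =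
      φ t ^ (∑ i, C.ip (Pi.single i 1) v * γ.1 (π i)) :=
  C.P3a_chi_tor S Ψ hΨ hT π φ hchi v t ht γ

theorem exists_semiregular {k : Type*} [Field k] [Infinite k] {H : Type*} [Group H]
    (S : StSys C k H) (Ψ : H →* GL C.Idx K) (hΨ : ∀ β t, Ψ (S.x β t) ∈ C.Gad K)
    (hT : ∀ h ∈ S.T, C.Fil 0 (Ψ h : Matrix C.Idx C.Idx K))
    (π : Equiv.Perm (Fin n)) (φ : k →+* K)
    (hchi : ∀ v t, t ≠ 0 → ∀ i, C.chi (Ψ (S.tor v t) : Matrix C.Idx C.Idx K) (C.simple (π i)) =
        φ t ^ (C.ip (Pi.single i 1) v)) (i : Fin n) :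
    ∃ (v : Fin n → ℤ) (t : k), t ≠ 0 ∧ C.ip v (C.simple i).1 = 0 ∧
      (∀ γ : C.Root, γ ≠ C.simple (π i) → γ ≠ -(C.simple (π i)) →
        C.chi (Ψ (S.tor v t) : Matrix C.Idx C.Idx K) γ ≠ 1) ∧
      C.chi (Ψ (S.tor v t) : Matrix C.Idx C.Idx K) (C.simple (π i)) = 1 ∧
      C.chi (Ψ (S.tor v t) : Matrix C.Idx C.Idx K) (-(C.simple (π i))) = 1 := by
  classical
  obtain ⟨v, hv⟩ := C.exists_coweight (fun j => if j = i then 0 else 1)
  have hexp : ∀ γ : C.Root, ∑ j, C.ip (Pi.single j 1) v * γ.1 (π j) =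
      C.A.det * ∑ j, (if j = i then 0 else γ.1 (π j)) := by
    intro γ
    rw [Finset.mul_sum]
    refine Finset.sum_congr rfl fun j _ => ?_
    rw [hv j]
    split_ifs <;> ring
  obtain ⟨t, ht0, ht⟩ := exists_pow_ne_one (k := k)
    ((Finset.univ.filter fun γ : C.Root => γ ≠ C.simple (π i) ∧ γ ≠ -(C.simple (π i))).image
      fun γ => C.A.det * ∑ j, (if j = i then 0 else γ.1 (π j))) (by
      intro m hm
      obtain ⟨γ, hγ, rfl⟩ := Finset.mem_image.1 hm
      obtain ⟨h1, h2⟩ := (Finset.mem_filter.1 hγ).2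
      refine mul_ne_zero C.det_ne_zero ?_
      obtain ⟨j', hj', hne⟩ := C.exists_other γ (π i) h1 h2
      obtain ⟨j, rfl⟩ := π.surjective j'
      have hji : j ≠ i := fun h => hj' (by rw [h])
      rcases C.pos_or_neg γ with hp | hn
      · have h3 : (if j = i then 0 else γ.1 (π j)) ≤ ∑ j, (if j = i then 0 else γ.1 (π j)) := by
          refine Finset.single_le_sum (f := fun j => if j = i then (0 : ℤ) else γ.1 (π j))
            (fun j _ => ?_) (Finset.mem_univ j)
          show 0 ≤ if j = i then (0 : ℤ) else γ.1 (π j)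
          split_ifs
          · exact le_rfl
          · exact hp _
        rw [if_neg hji] at h3
        have := hp (π j)
        omega
      · have h3 : -(if j = i then 0 else γ.1 (π j)) ≤
            ∑ j, -(if j = i then 0 else γ.1 (π j)) := by
          refine Finset.single_le_sum (f := fun j => -(if j = i then (0 : ℤ) else γ.1 (π j)))
            (fun j _ => ?_) (Finset.mem_univ j)
          show 0 ≤ -(if j = i then (0 : ℤ) else γ.1 (π j))
          split_ifs
          · norm_num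
          · have := hn (π j)
            omega
        rw [if_neg hji, Finset.sum_neg_distrib] at h3
        have := hn (π j)
        omega)
  have hvi : C.ip (Pi.single i 1) v = 0 := by
    rw [hv i, if_pos rfl, mul_zero]
  refine ⟨v, t, ht0, ?_, fun γ h1 h2 h => ?_, ?_, ?_⟩
  · rw [C.ip_comm]
    exact hvi
  · rw [C.P3a_chi_tor S Ψ hΨ hT π φ hchi v t ht0 γ, ← map_zpow₀, hexp] at h
    have h3 : t ^ (C.A.det * ∑ j, (if j = i then 0 else γ.1 (π j))) = 1 := by
      apply φ.injective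
      rw [h, map_one]
    exact ht _ (Finset.mem_image.2 ⟨γ, Finset.mem_filter.2 ⟨Finset.mem_univ _, h1, h2⟩, rfl⟩) h3
  · rw [hchi v t ht0 i, hvi, zpow_zero]
  · rw [C.P3a_chi_tor S Ψ hΨ hT π φ hchi v t ht0, hexp]
    have h3 : ∑ j, (if j = i then 0 else (-(C.simple (π i))).1 (π j)) = 0 := by
      refine Finset.sum_eq_zero fun j _ => ?_
      split_ifs with h4
      · rfl
      · have h5 : π j ≠ π i := fun h => h4 (π.injective h)
        rw [Root.neg_val, simple_val, Pi.neg_apply, Pi.single_eq_of_ne h5, neg_zero]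
    rw [h3, mul_zero, zpow_zero]

theorem conj_torus {k : Type*} [Field k] [Infinite k] {H : Type*} [Group H]
    (S : StSys C k H) (Ψ : H →* GL C.Idx K) (hΨ : ∀ β t, Ψ (S.x β t) ∈ C.Gad K)
    (hT : ∀ h ∈ S.T, C.Fil 0 (Ψ h : Matrix C.Idx C.Idx K))
    (π : Equiv.Perm (Fin n)) (φ : k →+* K)
    (hchi : ∀ v t, t ≠ 0 → ∀ i, C.chi (Ψ (S.tor v t) : Matrix C.Idx C.Idx K) (C.simple (π i)) =
        φ t ^ (C.ip (Pi.single i 1) v)) :
    ∃ w ∈ (C.adS K).U 1, ∀ h ∈ S.T, w⁻¹ * Ψ h * w ∈ (C.adS K).T := by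
  obtain ⟨v, t, ht0, hr1, _⟩ := C.exists_regular S Ψ hΨ hT π φ hchi
  have hmem := S.tor_mem v t ht0
  obtain ⟨τ, hτ, u, hu, hτu⟩ := C.upper (Ψ (S.tor v t)) (C.P3a_gad S Ψ hΨ hmem) (hT _ hmem)
  have hreg : ∀ γ, C.Pos γ → C.chi (τ : Matrix C.Idx C.Idx K) γ ≠ 1 := by
    intro γ _
    rw [← C.chi_mul_U τ u hτ hu γ, ← hτu]
    exact hr1 γ
  obtain ⟨w, hw, hwt⟩ := C.conj_T τ u hτ hu hreg
  refine ⟨w, hw, fun h hh => ?_⟩
  have hwg : w ∈ C.Gad K := by
    rw [← C.gen_adS K]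
    exact (C.adS K).U_le_gen 1 hw
  have hb : w⁻¹ * Ψ h * w ∈ C.Gad K :=
    mul_mem (mul_mem (inv_mem hwg) (C.P3a_gad S Ψ hΨ hh)) hwg
  have hb0 : C.Fil 0 ((w⁻¹ * Ψ h * w : GL C.Idx K) : Matrix C.Idx C.Idx K) := by
    have h1 := C.Fil_mul (C.Fil_mul (C.Fil_U_zero w⁻¹ (inv_mem hw)) (hT h hh)) (C.Fil_U_zero w hw)
    rw [Units.val_mul, Units.val_mul]
    exact h1
  refine C.centralizer_B τ (w⁻¹ * Ψ h * w) hτ hb hb0 hreg ?_
  rw [← hτu] at hwt
  have hcomm : Ψ (S.tor v t) * Ψ h = Ψ h * Ψ (S.tor v t) := by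
    rw [← map_mul, ← map_mul, S.T_comm _ _ hmem hh]
  calc τ * (w⁻¹ * Ψ h * w) = w⁻¹ * Ψ (S.tor v t) * w * (w⁻¹ * Ψ h * w) := by rw [hwt]
    _ = w⁻¹ * (Ψ (S.tor v t) * Ψ h) * w := by group
    _ = w⁻¹ * (Ψ h * Ψ (S.tor v t)) * w := by rw [hcomm]
    _ = w⁻¹ * Ψ h * w * (w⁻¹ * Ψ (S.tor v t) * w) := by group
    _ = w⁻¹ * Ψ h * w * τ := by rw [hwt]

end SLC

end Pool.Agent.H75.UL
end

section
/- module Pool.Agent.H75.UL.T9 -/
/-!
# Project UL (MP_978914_al), module T9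

Chambers fixed by a strongly regular torus element.

`b₀ = g⁻¹ τ g = τ' u` (`upper`; `b₀ ∈ Gad`, as `T ≤ Gad`). The characteristic polynomials of `τ` and
`b₀` agree; both are block upper triangular for the height with diagonal entries `1` (`n` times) and
`chi _ γ` (`Matrix.charpoly` of a triangular matrix after reindexing by a linear order refining the
height, or compare `det (X - M)`); so `chi τ' γ ≠ 1` for all `γ`: otherwise the multiplicity of the
root `1` would be larger than `n`. (Alternative without characteristic polynomials: `rank (b₀ - 1)`.)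
By `conj_T`, `v ∈ U 1` with `v⁻¹ b₀ v = τ'`. Put `g' = g v`: `τ g' = g' τ'`. Then `g' e_γ` is an
eigenvector of `τ` for `chi τ' γ ≠ 1`, so (the `chi τ γ'` are distinct and `≠ 1`, the Cartan part has
eigenvalue `1`) it is a multiple of one root vector: (*) every column `inr γ` of `g'` has exactly one
nonzero entry, and it is at an index `inr γ'`.
Bruhat: `g' = u ν v'`; `exists_lp_inv`: `u ν = lp t * ν * b`, `t` supported on `¬ Pos (w⁻¹ β)`. So
`g' = lp t * ν * b'`, `b' ∈ U 1`. Claim: `t β = 0` for all positive `β`. Otherwise let `m` be the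
minimal height of a positive `β` with `t β ≠ 0`, `δ = -w⁻¹ β`, positive, `q = ht δ ≥ 1`. The space
`g' M_{≥q} = lp t ν M_{≥q}` (`M_{≥q}`: span of the basis vectors of height `≥ q`; `b'` preserves it)
is spanned by root vectors by (*) (apply it to `g'` and all root vectors of height `≥ q`), so all its
elements have zero Cartan (`inl`) part. But it contains `lp t ν e_δ`, a nonzero multiple of
`lp t e_{-β}`, whose `inl i` component is `-t β * β_i` (`lp_entry`), nonzero for some `i`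
(`exists_coeff_ne_zero`). Contradiction. Hence `lp t = 1` and `g = g' v⁻¹ = ν b' v⁻¹`.
-/

set_option autoImplicit false
open Matrix
universe u
namespace Pool.Agent.H75.UL

namespace SLC
variable {n : ℕ} (C : SLC n) {K : Type*} [Field K]

/-- `M` strictly lowers the height. -/
private def T9_Low {R : Type*} [CommRing R] (M : Matrix C.Idx C.Idx R) : Prop :=
  ∀ a b, C.hti b ≤ C.hti a → M a b = 0

private theorem T9_low_zero {R : Type*} [CommRing R] : C.T9_Low (0 : Matrix C.Idx C.Idx R) :=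
  fun _ _ _ => rfl

private theorem T9_low_add {R : Type*} [CommRing R] {M N : Matrix C.Idx C.Idx R}
    (hM : C.T9_Low M) (hN : C.T9_Low N) : C.T9_Low (M + N) := by
  intro a b hab
  rw [Matrix.add_apply, hM a b hab, hN a b hab, add_zero]

private theorem T9_low_smul {R : Type*} [CommRing R] (c : R) {M : Matrix C.Idx C.Idx R}
    (hM : C.T9_Low M) : C.T9_Low (c • M) := by
  intro a b hab
  rw [Matrix.smul_apply, hM a b hab, smul_zero]

private theorem T9_low_mul {R : Type*} [CommRing R] {M N : Matrix C.Idx C.Idx R}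
    (hM : C.T9_Low M) (hN : C.T9_Low N) : C.T9_Low (M * N) := by
  intro a b hab
  rw [Matrix.mul_apply]
  refine Finset.sum_eq_zero fun c _ => ?_
  by_cases h1 : C.hti c ≤ C.hti a
  · rw [hM a c h1, zero_mul]
  · rw [hN c b (by omega), mul_zero]

private theorem T9_low_E {R : Type*} [CommRing R] (α : C.Root) (hα : ht α.1 < 0) :
    C.T9_Low ((C.E α).map (Int.cast : ℤ → R)) := by
  have h : ∀ a b, C.hti b ≤ C.hti a → C.E α a b = 0 := by
    intro a b hab
    rcases a with i | γ <;> rcases b with j | β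
    · rfl
    · simp only [hti, Sum.elim_inl, Sum.elim_inr] at hab
      simp only [E]
      rw [if_neg]
      intro h1
      rw [h1, ht_neg] at hab
      omega
    · simp only [hti, Sum.elim_inl, Sum.elim_inr] at hab
      simp only [E]
      rw [if_neg]
      intro h1
      rw [h1] at hab
      omega
    · simp only [hti, Sum.elim_inr] at hab
      simp only [E]
      rw [if_neg]
      intro h1
      rw [h1, ht_add] at hab
      omega
  intro a b hab
  rw [Matrix.map_apply, h a b hab, Int.cast_zero]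

private theorem T9_low_F {R : Type*} [CommRing R] (α : C.Root) (hα : ht α.1 < 0) :
    C.T9_Low ((C.F α).map (Int.cast : ℤ → R)) := by
  have h : ∀ a b, C.hti b ≤ C.hti a → C.F α a b = 0 := by
    intro a b hab
    rcases a with i | γ <;> rcases b with j | β
    · rfl
    · rfl
    · rfl
    · simp only [hti, Sum.elim_inr] at hab
      simp only [F]
      rw [if_neg]
      rintro ⟨h1, h2⟩
      rw [h1, h2, ht_neg] at hab
      omega
  intro a b hab
  rw [Matrix.map_apply, h a b hab, Int.cast_zero]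

private theorem T9_low_xg (α : C.Root) (hα : ht α.1 < 0) (t : K) :
    C.T9_Low ((C.xg K α t : Matrix C.Idx C.Idx K) - 1) := by
  have h1 : (C.xg K α t : Matrix C.Idx C.Idx K) - 1 =
      t • (C.E α).map (Int.cast : ℤ → K) + t ^ 2 • (C.F α).map (Int.cast : ℤ → K) := by
    show C.X K α t - 1 = _
    unfold X
    rw [add_assoc, add_sub_cancel_left]
  rw [h1]
  exact C.T9_low_add (C.T9_low_smul _ (C.T9_low_E α hα)) (C.T9_low_smul _ (C.T9_low_F α hα))

/-- The subgroup generated by the root elements of negative height. -/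
private noncomputable def T9_V (K : Type*) [Field K] : Subgroup (GL C.Idx K) :=
  Subgroup.closure {g | ∃ (β : C.Root) (t : K), ht β.1 < 0 ∧ g = C.xg K β t}

private theorem T9_xg_inv (β : C.Root) (t : K) : (C.xg K β t)⁻¹ = C.xg K β (-t) := by
  rw [inv_eq_iff_mul_eq_one, ← C.xg_map_add, add_neg_cancel]
  exact Units.ext (C.X_zero K β)

private theorem T9_V_low (g : GL C.Idx K) (hg : g ∈ C.T9_V K) :
    C.T9_Low ((g : Matrix C.Idx C.Idx K) - 1) := by
  refine Subgroup.closure_induction'' (p := fun (g : GL C.Idx K) _ => C.T9_Low ((g : Matrix C.Idx C.Idx K) - 1))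
    ?_ ?_ ?_ ?_ hg
  · rintro x ⟨β, t, hβ, rfl⟩
    exact C.T9_low_xg β hβ t
  · rintro x ⟨β, t, hβ, rfl⟩
    rw [T9_xg_inv]
    exact C.T9_low_xg β hβ (-t)
  · rw [Units.val_one, sub_self]
    exact C.T9_low_zero
  · intro x y _ _ hx hy
    have h1 : ((x * y : GL C.Idx K) : Matrix C.Idx C.Idx K) - 1 =
        ((x : Matrix C.Idx C.Idx K) - 1) * ((y : Matrix C.Idx C.Idx K) - 1) +
          (((x : Matrix C.Idx C.Idx K) - 1) + ((y : Matrix C.Idx C.Idx K) - 1)) := by
      rw [Units.val_mul]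
      noncomm_ring
    rw [h1]
    exact C.T9_low_add (C.T9_low_mul hx hy) (C.T9_low_add hx hy)

private theorem T9_eq_one (g : GL C.Idx K) (hg : g ∈ C.T9_V K)
    (h0 : C.Fil 0 (g : Matrix C.Idx C.Idx K)) : g = 1 := by
  apply Units.ext
  rw [Units.val_one]
  have h1 := C.T9_V_low g hg
  ext a b
  by_cases hab : C.hti b ≤ C.hti a
  · have h2 := h1 a b hab
    rw [Matrix.sub_apply, sub_eq_zero] at h2
    exact h2
  · rw [h0 a b (by omega), Matrix.one_apply_ne]
    rintro rfl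
    exact hab le_rfl

private theorem T9_conj_lp (ν : GL C.Idx K) (w : Equiv.Perm C.Root) (ha : (C.adS K).Acts ν w)
    (t : C.Root → K) (l : List C.Root) (h : ∀ β ∈ l, t β = 0 ∨ ht (w⁻¹ β).1 < 0) :
    ν⁻¹ * (C.adS K).lp l t * ν ∈ C.T9_V K := by
  obtain ⟨c, hc0, hc⟩ := ha
  induction l with
  | nil =>
    have h1 : (C.adS K).lp [] t = 1 := rfl
    rw [h1]
    have h2 : ν⁻¹ * 1 * ν = 1 := by group
    rw [h2]
    exact Subgroup.one_mem _
  | cons β l ih =>
    have h1 : (C.adS K).lp (β :: l) t = C.xg K β (t β) * (C.adS K).lp l t := rfl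
    have h2 : ν⁻¹ * (C.xg K β (t β) * (C.adS K).lp l t) * ν =
        (ν⁻¹ * C.xg K β (t β) * ν) * (ν⁻¹ * (C.adS K).lp l t * ν) := by group
    rw [h1, h2]
    refine Subgroup.mul_mem _ ?_ (ih fun γ hγ => h γ (List.mem_cons_of_mem _ hγ))
    rcases h β List.mem_cons_self with h3 | h3
    · have h4 : C.xg K β (t β) = 1 := by
        rw [h3]
        exact Units.ext (C.X_zero K β)
      rw [h4]
      have h5 : ν⁻¹ * 1 * ν = 1 := by group
      rw [h5]
      exact Subgroup.one_mem _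
    · have h4 := hc (w⁻¹ β) ((c (w⁻¹ β))⁻¹ * t β)
      rw [← mul_assoc, mul_inv_cancel₀ (hc0 _), one_mul, ← Equiv.Perm.mul_apply, mul_inv_cancel,
        Equiv.Perm.one_apply] at h4
      have h5 : ν⁻¹ * C.xg K β (t β) * ν = C.xg K (w⁻¹ β) ((c (w⁻¹ β))⁻¹ * t β) := by
        rw [adS_x] at h4
        rw [← h4]
        group
      rw [h5]
      exact Subgroup.subset_closure ⟨_, _, h3, rfl⟩

private theorem T9_tau_lp (τ : GL C.Idx K) (hτ : τ ∈ (C.adS K).T) (t : C.Root → K)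
    (l : List C.Root) : τ * (C.adS K).lp l t * τ⁻¹ =
      (C.adS K).lp l (fun β => C.chi (τ : Matrix C.Idx C.Idx K) β * t β) := by
  induction l with
  | nil =>
    have h1 : ∀ t : C.Root → K, (C.adS K).lp [] t = 1 := fun _ => rfl
    rw [h1, h1]
    group
  | cons β l ih =>
    have h1 : ∀ t : C.Root → K, (C.adS K).lp (β :: l) t = C.xg K β (t β) * (C.adS K).lp l t :=
      fun _ => rfl
    have h2 : τ * (C.xg K β (t β) * (C.adS K).lp l t) * τ⁻¹ =
        (τ * C.xg K β (t β) * τ⁻¹) * (τ * (C.adS K).lp l t * τ⁻¹) := by group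
    rw [h1, h1, h2, ih, (C.T_fix τ hτ β (t β)).2]

theorem torus_chamber (τ g : GL C.Idx K) (hτ : τ ∈ (C.adS K).T)
    (h1 : ∀ γ, C.chi (τ : Matrix C.Idx C.Idx K) γ ≠ 1)
    (hinj : Function.Injective (C.chi (τ : Matrix C.Idx C.Idx K))) (hg : g ∈ C.Gad K)
    (h : C.Fil 0 ((g⁻¹ * τ * g : GL C.Idx K) : Matrix C.Idx C.Idx K)) :
    ∃ ν ∈ (C.adS K).N, ∃ u ∈ (C.adS K).U 1, g = ν * u := by
  rw [← C.gen_adS K] at hg
  obtain ⟨u, hu, ν, hν, v, hv, hguv⟩ := (C.adS K).bruhat g hg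
  obtain ⟨w, hw, ha, -⟩ := (C.adS K).N_acts ν hν
  obtain ⟨t, ht0, b, hb, hub⟩ := (C.adS K).exists_lp_inv ν w ha u hu
  have hg' : g = (C.adS K).lp C.posList t * ν * (b * v) := by
    rw [hguv, hub, mul_assoc]
  have hb' : b * v ∈ (C.adS K).U 1 := Subgroup.mul_mem _ hb hv
  have hτ1 : ν⁻¹ * τ * ν ∈ (C.adS K).T := by
    have h2 := (C.adS K).N_conj_T ν⁻¹ τ (Subgroup.inv_mem _ hν) hτ
    rwa [inv_inv] at h2
  set x := (C.adS K).lp C.posList t with hx
  set x' := (C.adS K).lp C.posList (fun β => C.chi (τ : Matrix C.Idx C.Idx K) β * t β) with hx'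
  have hxx' : τ * x * τ⁻¹ = x' := C.T9_tau_lp τ hτ t C.posList
  have hneg : ∀ β ∈ C.posList, t β = 0 ∨ ht (w⁻¹ β).1 < 0 := by
    intro β _
    by_cases h3 : C.Pos (w⁻¹ β)
    · exact Or.inl (ht0 β h3)
    · right
      have h4 := C.ht_ne_zero (w⁻¹ β)
      have h5 : ¬ (0 < ht (w⁻¹ β).1) := h3
      omega
  have hz : (ν⁻¹ * x * ν)⁻¹ * (ν⁻¹ * x' * ν) = 1 := by
    refine C.T9_eq_one _ ?_ ?_
    · refine Subgroup.mul_mem _ (Subgroup.inv_mem _ (C.T9_conj_lp ν w ha t _ hneg))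
        (C.T9_conj_lp ν w ha _ _ ?_)
      intro β hβ
      rcases hneg β hβ with h3 | h3
      · left
        rw [h3, mul_zero]
      · exact Or.inr h3
    · have e1 : (ν⁻¹ * x * ν)⁻¹ * (ν⁻¹ * x' * ν) =
          (b * v) * (g⁻¹ * τ * g) * (b * v)⁻¹ * (ν⁻¹ * τ * ν)⁻¹ := by
        rw [hg', ← hxx']
        group
      rw [e1, Units.val_mul, Units.val_mul, Units.val_mul]
      have hm : ∀ {M N : Matrix C.Idx C.Idx K}, C.Fil 0 M → C.Fil 0 N → C.Fil 0 (M * N) := by
        intro M N hM hN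
        have h3 := C.Fil_mul hM hN
        rwa [add_zero] at h3
      exact hm (hm (hm (C.Fil_U_zero _ hb') h) (C.Fil_U_zero _ (Subgroup.inv_mem _ hb')))
        (C.Fil_T _ (Subgroup.inv_mem _ hτ1))
  have hxe : x = x' := by
    have h3 : ν⁻¹ * x * ν = ν⁻¹ * x' * ν := by
      rw [inv_mul_eq_one] at hz
      exact hz
    have h4 := mul_left_cancel (mul_right_cancel h3)
    exact h4
  have hx1 : x = 1 := by
    refine (C.adS K).lp_zero _ _ fun β hβ => ?_
    have h3 := C.lp_unique t _ hxe β ((C.mem_posList β).mp hβ)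
    by_contra h4
    refine h1 β ?_
    have h5 : (1 : K) * t β = C.chi (τ : Matrix C.Idx C.Idx K) β * t β := by
      rw [one_mul]
      exact h3
    exact (mul_right_cancel₀ h4 h5).symm
  refine ⟨ν, hν, b * v, hb', ?_⟩
  rw [hg', hx1, one_mul]

end SLC

end Pool.Agent.H75.UL
end

section
/- module Pool.Agent.H75.UL.T4 -/
/-!
# Project UL (MP_978914_al), module T4

The top iterated commutator.

By `Fil_comm_lead`, `lead_U`, `Fil_ld` and induction along the list (generalize the start: `c` with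
`Fil (k+1) (c - 1 - A)`, `Fil k A`): `Fil (length + 2) (icomm g l - 1 - iad (ld g) (l.map ld))`.
So if the iterated bracket is zero, `Fil (ht θ + 1) (icomm g l - 1)`; `icomm g l ∈ U 1`, so it is
`lp posList t` (`exists_lp`), all `t β = 0` for positive `β` (`coord_of_Fil`, `hθ.le`), and
`icomm g l = 1` (`lp_zero`, `mem_posList`).
-/

set_option autoImplicit false
open Matrix
universe u
namespace Pool.Agent.H75.UL

namespace SLC
variable {n : ℕ} (C : SLC n) {K : Type*} [Field K]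

theorem icomm_mem_U (g : GL C.Idx K) (l : List (GL C.Idx K))
    (hg : g ∈ (C.adS K).U 1) (hl : ∀ h ∈ l, h ∈ (C.adS K).U 1) : icomm g l ∈ (C.adS K).U 1 := by
  induction l generalizing g with
  | nil => exact hg
  | cons h l ih =>
    have hh := hl h (List.mem_cons_self ..)
    exact ih (h * g * h⁻¹ * g⁻¹)
      (mul_mem (mul_mem (mul_mem hh hg) (inv_mem hh)) (inv_mem hg))
      (fun x hx => hl x (List.mem_cons_of_mem _ hx))

/-- The leading part of an iterated commutator. -/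
theorem icomm_lead (g : GL C.Idx K) (l : List (GL C.Idx K)) (k : ℤ) (hk : 1 ≤ k)
    (A : Matrix C.Idx C.Idx K) (hA : C.Fil k A)
    (hg : C.Fil (k + 1) ((g : Matrix C.Idx C.Idx K) - 1 - A))
    (hl : ∀ h ∈ l, h ∈ (C.adS K).U 1) :
    C.Fil (k + l.length) (iad A (l.map fun h => C.ld (h : Matrix C.Idx C.Idx K))) ∧
    C.Fil (k + l.length + 1) (((icomm g l : GL C.Idx K) : Matrix C.Idx C.Idx K) - 1 -
      iad A (l.map fun h => C.ld (h : Matrix C.Idx C.Idx K))) := by
  induction l generalizing g k A with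
  | nil =>
    refine ⟨?_, ?_⟩
    · simpa [iad] using hA
    · simpa [iad, icomm] using hg
  | cons h l ih =>
    have hh := hl h (List.mem_cons_self ..)
    have hB : C.Fil 1 (C.ld (h : Matrix C.Idx C.Idx K)) := C.Fil_ld _
    have hh2 : C.Fil (1 + 1) ((h : Matrix C.Idx C.Idx K) - 1 - C.ld (h : Matrix C.Idx C.Idx K)) :=
      C.lead_U h hh
    have h1 := C.Fil_comm_lead h g 1 k le_rfl hk (C.ld (h : Matrix C.Idx C.Idx K)) A hB hA hh2 hg
    have hA' : C.Fil (1 + k) (C.ld (h : Matrix C.Idx C.Idx K) * A -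
        A * C.ld (h : Matrix C.Idx C.Idx K)) := by
      refine C.Fil_sub (C.Fil_mul hB hA) ?_
      have := C.Fil_mul hA hB
      rwa [add_comm k 1] at this
    have h2 := ih (h * g * h⁻¹ * g⁻¹) (1 + k) (by omega) _ hA' h1
      (fun x hx => hl x (List.mem_cons_of_mem _ hx))
    have e1 : k + ((h :: l).length : ℤ) = 1 + k + (l.length : ℤ) := by
      rw [List.length_cons]
      push_cast
      ring
    rw [e1]
    exact h2

theorem icomm_eq_one (θ : C.Root) (hθ : C.IsHighest θ) (g : GL C.Idx K) (l : List (GL C.Idx K))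
    (hg : g ∈ (C.adS K).U 1) (hl : ∀ h ∈ l, h ∈ (C.adS K).U 1)
    (hlen : (l.length : ℤ) + 1 = ht θ.1)
    (h0 : iad (C.ld (g : Matrix C.Idx C.Idx K)) (l.map fun h => C.ld (h : Matrix C.Idx C.Idx K)) =
      0) : icomm g l = 1 := by
  have hg2 : C.Fil (1 + 1) ((g : Matrix C.Idx C.Idx K) - 1 - C.ld (g : Matrix C.Idx C.Idx K)) :=
    C.lead_U g hg
  have h1 := (C.icomm_lead g l 1 le_rfl _ (C.Fil_ld _) hg2 hl).2
  rw [h0, sub_zero] at h1
  obtain ⟨t, -, ht'⟩ := (C.adS K).exists_lp 1 le_rfl (icomm g l) (C.icomm_mem_U g l hg hl)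
  rw [ht'] at h1 ⊢
  apply (C.adS K).lp_zero
  intro β hβ
  have hpos := (C.mem_posList β).1 hβ
  refine C.coord_of_Fil t _ h1 β hpos ?_
  have := hθ.le β
  omega

end SLC

end Pool.Agent.H75.UL
end

section
/- module Pool.Agent.H86.UL.P1 -/
/-!
# Project UL, module P1: the fixed chamber is unique

`nonvanish` (also used in P2): if `Ψ (x_θ(1)) ≠ 1` and `Ψ` maps `U` to `U` then for each simple root
`j` some `u ∈ S.U 1` has `xi_j (Ψ u) ≠ 0`.
Proof: otherwise `xi_j = 0` on all `Ψ u`. By `IsHighest.chain` (applied to a simple root `β`, which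
exists as `θ` has full support and `0 < n`; if `n = 0` there is no `j`) there is a chain `l` from `β`
to `θ`, of length `ht θ - 1` (each step adds 1 to the height), and by `icomm_chain`
`icomm (x_β 1) (l.map ..) = x_θ(± 1)`. Apply `Ψ` (`icomm` commutes with homomorphisms):
`icomm (Ψ x_β(1)) (..) = Ψ (x_θ(±1)) ≠ 1`. But `iad_eq_zero` and `icomm_eq_one` say it is `1`.

`unique_chamber'`. Existence: `Γ := (S.U 1).map Ψ ≤ Gad L` consists of unipotents
(`unipotent_image`), so `fixed_chamber` gives `g ∈ Gad L` with `Fil 0 (g⁻¹ γ g)` for all `γ ∈ Γ`. By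
`upper` `g⁻¹ γ g = τ u` with `τ ∈ T`, `u ∈ U`. `τ` is diagonal (`T_diag`), with entries `1` on the
indices `inl i`. `M = g⁻¹ γ g - 1` is nilpotent; `M` satisfies `M a b = 0` if `hti a < hti b` and also if
`hti a = hti b`, `a ≠ b` (as `Fil 1 (u - 1)` by `Fil_U`), and so do its powers, with
`(M ^ k) a a = (M a a) ^ k`; so `M a a = 0`, i.e. all diagonal entries of `τ` are `1`, `τ = 1`, and
`g⁻¹ γ g = u ∈ U`.
Uniqueness: let `g'` be as in the statement, `y = g⁻¹ g' ∈ Gad L`; `bruhat` (with `gen_adS`):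
`y = u₀ ν v`; `N_acts`: `Acts ν w`. If `w = 1` then `ν ∈ T`, so `y` is `Fil 0` (`Fil_U`, `Fil_mono`,
`Fil_mul`, `T_diag`). If `w ≠ 1`, then by `eq_one_of_pos` (for `w⁻¹`) there is `j` with
`¬ Pos (w⁻¹ (simple j))`. For each `u ∈ S.U 1`: `γ' = g⁻¹ Ψ(u) g ∈ U`, `y⁻¹ γ' y` is `Fil 0`, and
conjugating with `v` also `ν⁻¹ (u₀⁻¹ γ' u₀) ν` is `Fil 0`, so `xi_eq_zero` gives
`xi_j (u₀⁻¹ γ' u₀) = 0`, and by `xi_mul` `xi_j (γ') = 0`. This contradicts `nonvanish` applied to
the homomorphism `h ↦ g⁻¹ * Ψ h * g`.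
-/

set_option autoImplicit false
open Matrix

namespace Pool.Agent.H75.UL
namespace SLC
variable {n : ℕ} (C : SLC n)

theorem P1_ht_add (v w : Fin n → ℤ) : ht (v + w) = ht v + ht w := by
  simp [ht, Finset.sum_add_distrib]

theorem P1_chain_len {β δ : C.Root} {l : List (Fin n)} (hc : C.Chain β l δ) :
    (l.length : ℤ) + ht β.1 = ht δ.1 := by
  induction hc with
  | nil β => simp
  | cons i h hc ih =>
    rename_i β γ δ l
    rw [h, P1_ht_add] at ih
    have h1 := C.ht_simple i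
    rw [h1] at ih
    simp only [List.length_cons, Nat.cast_add, Nat.cast_one]
    linarith

theorem P1_icomm_map {H G : Type*} [Group H] [Group G] (f : H →* G) (l : List H) (g : H) :
    f (icomm g l) = icomm (f g) (l.map f) := by
  induction l generalizing g with
  | nil => rfl
  | cons a l ih =>
    have h1 : icomm g (a :: l) = icomm (a * g * a⁻¹ * g⁻¹) l := rfl
    have h2 : icomm (f g) ((a :: l).map f) =
        icomm (f a * f g * (f a)⁻¹ * (f g)⁻¹) (l.map f) := rfl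
    rw [h1, h2, ih]
    simp only [map_mul, map_inv]

theorem P1_x_mem {k : Type*} [Field k] {H : Type*} [Group H] (S : StSys C k H) (i : Fin n)
    (t : k) : S.x (C.simple i) t ∈ S.U 1 :=
  Subgroup.subset_closure ⟨C.simple i, t, (C.ht_simple i).ge, rfl⟩

theorem P1_Fil_zero_of_U {L : Type*} [Field L] {u : GL C.Idx L} (hu : u ∈ (C.adS L).U 1) :
    C.Fil 0 (u : Matrix C.Idx C.Idx L) := by
  have h1 := C.Fil_mono (by norm_num : (0 : ℤ) ≤ 1) (C.Fil_U 1 le_rfl u hu)
  have h2 := C.Fil_add h1 C.Fil_one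
  rwa [sub_add_cancel] at h2

/-- Matrices vanishing off the diagonal at and above the level. -/
def P1_Q {L : Type*} [Field L] (M : Matrix C.Idx C.Idx L) : Prop :=
  ∀ a b, a ≠ b → C.hti a < C.hti b + 1 → M a b = 0

theorem P1_Q_mul {L : Type*} [Field L] {M N : Matrix C.Idx C.Idx L} (hM : C.P1_Q M)
    (hN : C.P1_Q N) : C.P1_Q (M * N) ∧ ∀ a, (M * N) a a = M a a * N a a := by
  constructor
  · intro a b hab h
    rw [Matrix.mul_apply]
    apply Finset.sum_eq_zero
    intro c _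
    by_cases hca : a = c
    · subst hca
      rw [hN a b hab h, mul_zero]
    · by_cases hac : C.hti a < C.hti c + 1
      · rw [hM a c hca hac, zero_mul]
      · have hcb : c ≠ b := by
          rintro rfl
          exact hac h
        rw [hN c b hcb (by omega), mul_zero]
  · intro a
    rw [Matrix.mul_apply, Finset.sum_eq_single a]
    · intro c _ hca
      by_cases hac : C.hti a < C.hti c + 1
      · rw [hM a c (Ne.symm hca) hac, zero_mul]
      · rw [hN c a hca (by omega), mul_zero]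
    · intro h
      exact absurd (Finset.mem_univ a) h

theorem P1_Q_pow {L : Type*} [Field L] {M : Matrix C.Idx C.Idx L} (hM : C.P1_Q M) (k : ℕ) :
    C.P1_Q (M ^ k) ∧ ∀ a, (M ^ k) a a = (M a a) ^ k := by
  induction k with
  | zero =>
    constructor
    · intro a b hab _
      rw [pow_zero, Matrix.one_apply_ne hab]
    · intro a
      rw [pow_zero, pow_zero, Matrix.one_apply_eq]
  | succ k ih =>
    obtain ⟨h1, h2⟩ := C.P1_Q_mul ih.1 hM
    refine ⟨by rw [pow_succ]; exact h1, fun a => ?_⟩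
    rw [pow_succ, h2, ih.2, pow_succ]

theorem P1_upper {L : Type*} [Field L] (m : GL C.Idx L) (hm : m ∈ C.Gad L)
    (h0 : C.Fil 0 (m : Matrix C.Idx C.Idx L))
    (hn : IsNilpotent ((m : Matrix C.Idx C.Idx L) - 1)) : m ∈ (C.adS L).U 1 := by
  classical
  obtain ⟨τ, hτ, u, hu, rfl⟩ := C.upper m hm h0
  obtain ⟨c, hc⟩ := C.T_diag τ hτ
  set d : C.Idx → L := Sum.elim (fun _ => 1) (fun γ => ((∏ j, c j ^ γ.1 j : Lˣ) : L)) with hd
  have hF := C.Fil_U 1 le_rfl u hu
  have hent : ∀ a b, ((τ * u : GL C.Idx L) : Matrix C.Idx C.Idx L) a b =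
      d a * (u : Matrix C.Idx C.Idx L) a b := by
    intro a b
    rw [Units.val_mul, hc, Matrix.diagonal_mul]
  have hu1 : ∀ a b, a ≠ b → C.hti a < C.hti b + 1 → (u : Matrix C.Idx C.Idx L) a b = 0 := by
    intro a b hab h
    have h1 := hF a b h
    rw [Matrix.sub_apply, Matrix.one_apply_ne hab, sub_zero] at h1
    exact h1
  have hu2 : ∀ a, (u : Matrix C.Idx C.Idx L) a a = 1 := by
    intro a
    have h1 := hF a a (by omega)
    rw [Matrix.sub_apply, Matrix.one_apply_eq] at h1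
    exact sub_eq_zero.mp h1
  have hQ : C.P1_Q (((τ * u : GL C.Idx L) : Matrix C.Idx C.Idx L) - 1) := by
    intro a b hab h
    rw [Matrix.sub_apply, Matrix.one_apply_ne hab, hent, hu1 a b hab h, mul_zero, sub_zero]
  obtain ⟨k, hk⟩ := hn
  have hd1 : ∀ a, d a = 1 := by
    intro a
    have h1 := (C.P1_Q_pow hQ k).2 a
    rw [hk, Matrix.zero_apply] at h1
    have h3 : (((τ * u : GL C.Idx L) : Matrix C.Idx C.Idx L) - 1) a a = 0 :=
      eq_zero_of_pow_eq_zero h1.symm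
    rw [Matrix.sub_apply, Matrix.one_apply_eq, hent, hu2, mul_one] at h3
    exact sub_eq_zero.mp h3
  have hτ1 : τ = 1 := by
    apply Units.ext
    rw [hc, Units.val_one]
    have : d = fun _ => 1 := funext hd1
    rw [this, Matrix.diagonal_one]
  rw [hτ1, one_mul]
  exact hu

theorem nonvanish (θ : C.Root) (hθ : C.IsHighest θ) {k : Type*} [Field k]
    {H : Type*} [Group H] (S : StSys C k H) (F : Type*) [Field F]
    (Ψ : H →* GL C.Idx F) (hne : Ψ (S.x θ 1) ≠ 1)
    (hU : ∀ u ∈ S.U 1, Ψ u ∈ (C.adS F).U 1) (j : Fin n) :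
    ∃ u ∈ S.U 1, C.xi j (Ψ u : Matrix C.Idx C.Idx F) ≠ 0 := by
  by_contra hcon
  have hz : ∀ u ∈ S.U 1, C.xi j (Ψ u : Matrix C.Idx C.Idx F) = 0 := by
    intro u hu
    by_contra h
    exact hcon ⟨u, hu, h⟩
  obtain ⟨l, hc⟩ := hθ.chain (C.simple j) (C.simple_pos j)
  have hlen := C.P1_chain_len hc
  rw [C.ht_simple j] at hlen
  obtain ⟨s, hs, heq⟩ := S.icomm_chain (C.simple j) θ l hc
  have h1 : icomm (Ψ (S.x (C.simple j) 1)) ((l.map fun i => S.x (C.simple i) 1).map Ψ) = 1 := by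
    apply C.icomm_eq_one θ hθ
    · exact hU _ (C.P1_x_mem S j 1)
    · intro h hh
      rw [List.mem_map] at hh
      obtain ⟨a, ha, rfl⟩ := hh
      rw [List.mem_map] at ha
      obtain ⟨i, _, rfl⟩ := ha
      exact hU _ (C.P1_x_mem S i 1)
    · rw [List.length_map, List.length_map]
      exact hlen
    · have h2 := C.iad_eq_zero θ hθ j (Ψ (S.x (C.simple j) 1) : Matrix C.Idx C.Idx F)
        (((l.map fun i => S.x (C.simple i) 1).map Ψ).map
          (fun h : GL C.Idx F => (h : Matrix C.Idx C.Idx F)))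
        (hz _ (C.P1_x_mem S j 1))
        (by
          intro B hB
          rw [List.mem_map] at hB
          obtain ⟨h, hh, rfl⟩ := hB
          rw [List.mem_map] at hh
          obtain ⟨a, ha, rfl⟩ := hh
          rw [List.mem_map] at ha
          obtain ⟨i, _, rfl⟩ := ha
          exact hz _ (C.P1_x_mem S i 1))
        (by
          rw [List.length_map, List.length_map, List.length_map]
          exact hlen)
      have h3 : ∀ l' : List (GL C.Idx F),
          (l' >>= fun a => pure (a : Matrix C.Idx C.Idx F)) =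
            l'.map (fun h : GL C.Idx F => (h : Matrix C.Idx C.Idx F)) := by
        intro l'
        simp [List.map_eq_flatMap]
      rw [← h3] at h2
      exact h2
  rw [← P1_icomm_map, heq] at h1
  rcases hs with rfl | rfl
  · exact hne h1
  · rw [S.x_neg, map_inv, inv_eq_one] at h1
    exact hne h1

theorem unique_chamber' (θ : C.Root) (hθ : C.IsHighest θ) {k : Type*} [Field k] [Infinite k]
    {H : Type*} [Group H] (S : StSys C k H) (L : Type*) [Field L] [IsAlgClosed L]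
    (Ψ : H →* GL C.Idx L) (hΨ : ∀ β t, Ψ (S.x β t) ∈ C.Gad L) (hne : Ψ (S.x θ 1) ≠ 1) :
    ∃ g ∈ C.Gad L, (∀ u ∈ S.U 1, g⁻¹ * Ψ u * g ∈ (C.adS L).U 1) ∧
      ∀ g' ∈ C.Gad L, (∀ u ∈ S.U 1,
        C.Fil 0 ((g'⁻¹ * Ψ u * g' : GL C.Idx L) : Matrix C.Idx C.Idx L)) →
        C.Fil 0 ((g⁻¹ * g' : GL C.Idx L) : Matrix C.Idx C.Idx L) := by
  classical
  have hGen : ∀ u ∈ S.U 1, Ψ u ∈ C.Gad L := by
    intro u hu
    have h1 : S.U 1 ≤ (C.Gad L).comap Ψ := by
      unfold StSys.U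
      rw [Subgroup.closure_le]
      rintro x ⟨β, t, _, rfl⟩
      exact hΨ β t
    exact h1 hu
  obtain ⟨g, hg, hfix⟩ := C.fixed_chamber L ((S.U 1).map Ψ)
    (by
      rintro x ⟨u, hu, rfl⟩
      exact hGen u hu)
    (by
      rintro x ⟨u, hu, rfl⟩
      exact C.unipotent_image' S L Ψ u hu)
  have hUmem : ∀ u ∈ S.U 1, g⁻¹ * Ψ u * g ∈ (C.adS L).U 1 := by
    intro u hu
    apply C.P1_upper
    · exact mul_mem (mul_mem (inv_mem hg) (hGen u hu)) hg
    · exact hfix (Ψ u) ⟨u, hu, rfl⟩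
    · have h1 := C.unipotent_image' S L Ψ u hu
      obtain ⟨k, hk⟩ := h1
      refine ⟨k, ?_⟩
      have h2 : ((g⁻¹ * Ψ u * g : GL C.Idx L) : Matrix C.Idx C.Idx L) - 1 =
          ((g⁻¹ : GL C.Idx L) : Matrix C.Idx C.Idx L) * ((Ψ u : Matrix C.Idx C.Idx L) - 1) *
            (g : Matrix C.Idx C.Idx L) := by
        rw [mul_sub, mul_one, sub_mul, Units.val_mul, Units.val_mul, ← Units.val_mul g⁻¹ g,
          inv_mul_cancel, Units.val_one]
      have h3 : ∀ k : ℕ, (((g⁻¹ : GL C.Idx L) : Matrix C.Idx C.Idx L) *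
          ((Ψ u : Matrix C.Idx C.Idx L) - 1) * (g : Matrix C.Idx C.Idx L)) ^ k =
          ((g⁻¹ : GL C.Idx L) : Matrix C.Idx C.Idx L) *
            ((Ψ u : Matrix C.Idx C.Idx L) - 1) ^ k * (g : Matrix C.Idx C.Idx L) := by
        intro k
        induction k with
        | zero =>
          rw [pow_zero, pow_zero, mul_one, ← Units.val_mul, inv_mul_cancel, Units.val_one]
        | succ k ih =>
          rw [pow_succ, ih, pow_succ]
          simp only [mul_assoc]
          rw [← mul_assoc (g : Matrix C.Idx C.Idx L) ((g⁻¹ : GL C.Idx L) : Matrix C.Idx C.Idx L),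
            ← Units.val_mul, mul_inv_cancel, Units.val_one, one_mul]
      rw [h2, h3, hk, mul_zero, zero_mul]
  refine ⟨g, hg, hUmem, ?_⟩
  intro g' hg' hfix'
  have hy : g⁻¹ * g' ∈ (C.adS L).gen := by
    rw [C.gen_adS]
    exact mul_mem (inv_mem hg) hg'
  obtain ⟨u₀, hu₀, ν, hν, v, hv, hyeq⟩ := (C.adS L).bruhat (g⁻¹ * g') hy
  obtain ⟨w, hw, hacts, hw1⟩ := (C.adS L).N_acts ν hν
  by_cases hw' : w = 1
  · obtain ⟨c, hc⟩ := C.T_diag ν (hw1 hw')
    have hνF : C.Fil 0 (ν : Matrix C.Idx C.Idx L) := by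
      intro a b hab
      rw [hc]
      apply Matrix.diagonal_apply_ne
      rintro rfl
      omega
    have h1 := C.Fil_mul (C.Fil_mul (C.P1_Fil_zero_of_U hu₀) hνF) (C.P1_Fil_zero_of_U hv)
    rw [hyeq, Units.val_mul, Units.val_mul]
    simpa using h1
  · exfalso
    have hj : ∃ j, ¬ C.Pos (w⁻¹ (C.simple j)) := by
      by_contra hcon
      apply hw'
      have h1 := C.eq_one_of_pos w⁻¹ (inv_mem hw) (by
        intro i
        by_contra h
        exact hcon ⟨i, h⟩)
      rwa [inv_eq_one] at h1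
    obtain ⟨j, hj⟩ := hj
    have hconj : ∀ h, ((MulAut.conj g⁻¹).toMonoidHom.comp Ψ) h = g⁻¹ * Ψ h * g := by
      intro h
      simp
    obtain ⟨u, hu, hxi⟩ := C.nonvanish θ hθ S L ((MulAut.conj g⁻¹).toMonoidHom.comp Ψ)
      (by
        rw [hconj]
        intro h
        apply hne
        have h2 : Ψ (S.x θ 1) = g * (g⁻¹ * Ψ (S.x θ 1) * g) * g⁻¹ := by group
        rw [h2, h, mul_one, mul_inv_cancel])
      (by
        intro u hu
        rw [hconj]
        exact hUmem u hu) j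
    rw [hconj] at hxi
    apply hxi
    have hγ := hUmem u hu
    have hx : u₀⁻¹ * (g⁻¹ * Ψ u * g) * u₀ ∈ (C.adS L).U 1 :=
      mul_mem (mul_mem (inv_mem hu₀) hγ) hu₀
    have hF : C.Fil 0 ((ν⁻¹ * (u₀⁻¹ * (g⁻¹ * Ψ u * g) * u₀) * ν : GL C.Idx L) :
        Matrix C.Idx C.Idx L) := by
      have h1 : ν⁻¹ * (u₀⁻¹ * (g⁻¹ * Ψ u * g) * u₀) * ν = v * (g'⁻¹ * Ψ u * g') * v⁻¹ := by
        have h2 : g' = g * (u₀ * ν * v) := by rw [← hyeq]; group
        rw [h2]
        group
      have h3 := C.Fil_mul (C.Fil_mul (C.P1_Fil_zero_of_U hv) (hfix' u hu))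
        (C.P1_Fil_zero_of_U (inv_mem hv))
      rw [h1, Units.val_mul, Units.val_mul]
      simpa using h3
    have h4 := C.xi_eq_zero ν _ w hν hacts hx hF j hj
    rw [C.xi_mul j _ _ (mul_mem (inv_mem hu₀) hγ) hu₀, C.xi_mul j _ _ (inv_mem hu₀) hγ] at h4
    have h5 := C.xi_mul j u₀⁻¹ u₀ (inv_mem hu₀) hu₀
    rw [inv_mul_cancel] at h5
    have h6 : C.xi j ((1 : GL C.Idx L) : Matrix C.Idx C.Idx L) = 0 := by
      simp [xi]
    rw [h6] at h5
    linear_combination h4 + h5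

end SLC
end Pool.Agent.H75.UL
end

section
/- module Pool.Agent.H75.UL.P5b -/
/-!
# Project UL (MP_978914_al), module P5b

Rank one computation.

`ab_eq_one`: cancel the last factor in `y * x_α(a) = x_{-α}(b) * y`, `y = x_α(a) x_{-α}(b) x_α(a)`:
`x_α(a) x_{-α}(b) x_α(a) = x_{-α}(b) x_α(a) x_{-α}(b)`. Apply both sides to `e_{-α}` and compare the
Cartan part (a multiple of `h_α = ∑ α_i h_i`, some `α_i ≠ 0` in `K`, `exists_coeff_ne_zero`): with
`z = a b`, `X_α(a) e_{-α} = e_{-α} - a h_α + a² e_α`, `X_{-α}(b) h_α = h_α + 2 b e_{-α}`,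
`X_{-α}(b) e_α = e_α + b h_α + b² e_{-α}`: the left side has `h_α`-coefficient
`-a (1-z)² - a (1-z) = -a (1-z)(2-z)`, the right side `-a + a² b = -a (1-z)`. So `(1-z)² = 0`.
`neg_coeff`: `Ψ (S.x (-α_i) s) = xg (-α') (f s)`, `Ψ (S.x α_i s) = xg α' (c φ s)`. Conjugating by
`Ψ (tor v t)` with `ip α_i v = 1`, whose `chi` at `α'` is `φ t` (so at `-α'` it is `(φ t)⁻¹`):
`f (t⁻¹ s) = (φ t)⁻¹ f s`, so `f s = φ s * f 1` for `s ≠ 0`, and `f 0 = 0` (`x_zero`, `xg_inj`).
By `n_conj` (`t = u = 1`) and `ab_eq_one`, `c * f 1 = 1`.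
-/

set_option autoImplicit false
open Matrix
universe u
namespace Pool.Agent.H75.UL

namespace SLC
variable {n : ℕ} (C : SLC n) {K : Type*} [Field K]

/-- the vector `x e_{-α} + y h_α + z e_α` -/
private def P5b_v (α : C.Root) (x y z : K) : C.Idx → K
  | Sum.inl i => y * (α.1 i : K)
  | Sum.inr γ => if γ = -α then x else if γ = α then z else 0

private theorem P5b_ne (α : C.Root) : α ≠ -α := by
  intro h
  have h1 : -α.1 = α.1 := by
    conv_rhs => rw [h]
    rfl
  exact C.neg_ne_self α h1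

private theorem P5b_E_inl (α : C.Root) (x y z : K) (i : Fin n) :
    ((C.E α).map (Int.cast : ℤ → K) *ᵥ P5b_v C α x y z) (Sum.inl i) = - (α.1 i : K) * x := by
  rw [Matrix.mulVec, dotProduct, Fintype.sum_sum_type]
  simp only [Matrix.map_apply, E, Int.cast_zero, zero_mul, Finset.sum_const_zero, zero_add]
  rw [Finset.sum_eq_single (-α)]
  · rw [if_pos (Root.neg_val C α)]
    simp [P5b_v]
  · intro ζ _ hζ
    rw [if_neg (fun h : ζ.1 = -α.1 => hζ (Root.ext h)), Int.cast_zero, zero_mul]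
  · intro h
    exact absurd (Finset.mem_univ _) h

private theorem P5b_E_inr (α : C.Root) (x y z : K) (γ : C.Root) :
    ((C.E α).map (Int.cast : ℤ → K) *ᵥ P5b_v C α x y z) (Sum.inr γ) =
      if γ = α then -(2 * y) else 0 := by
  rw [Matrix.mulVec, dotProduct, Fintype.sum_sum_type]
  simp only [Matrix.map_apply, E]
  have h2 : ∑ β : C.Root, (((if γ.1 = α.1 + β.1 then C.eps α.1 β.1 else 0 : ℤ)) : K) *
      P5b_v C α x y z (Sum.inr β) = 0 := by
    apply Finset.sum_eq_zero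
    intro β _
    by_cases h3 : γ.1 = α.1 + β.1
    · have h4 : β ≠ -α := by
        rintro rfl
        rw [Root.neg_val, add_neg_cancel] at h3
        exact C.root_ne_zero γ h3
      have h5 : β ≠ α := by
        rintro rfl
        exact C.root_add_self β γ h3
      simp only [P5b_v]
      rw [if_neg h4, if_neg h5, mul_zero]
    · rw [if_neg h3, Int.cast_zero, zero_mul]
  rw [h2, add_zero]
  by_cases h1 : γ = α
  · subst h1
    rw [if_pos rfl]
    have h3 := C.sum_ip_single γ.1 γ.1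
    rw [γ.2] at h3
    have h4 : ((2 : ℤ) : K) = ∑ i, (γ.1 i : K) * (C.ip (Pi.single i 1) γ.1 : K) := by
      rw [← h3]
      push_cast
      rfl
    rw [Int.cast_ofNat] at h4
    rw [h4, Finset.sum_mul, ← Finset.sum_neg_distrib]
    apply Finset.sum_congr rfl
    intro i _
    simp only [P5b_v, if_true, Int.cast_neg]
    ring
  · rw [if_neg h1]
    apply Finset.sum_eq_zero
    intro i _
    rw [if_neg (fun h : γ.1 = α.1 => h1 (Root.ext h)), Int.cast_zero, zero_mul]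

private theorem P5b_F_inl (α : C.Root) (x y z : K) (i : Fin n) :
    ((C.F α).map (Int.cast : ℤ → K) *ᵥ P5b_v C α x y z) (Sum.inl i) = 0 := by
  rw [Matrix.mulVec, dotProduct]
  apply Finset.sum_eq_zero
  rintro (j | β) _
  · simp [F]
  · simp [F]

private theorem P5b_F_inr (α : C.Root) (x y z : K) (γ : C.Root) :
    ((C.F α).map (Int.cast : ℤ → K) *ᵥ P5b_v C α x y z) (Sum.inr γ) =
      if γ = α then x else 0 := by
  rw [Matrix.mulVec, dotProduct, Fintype.sum_sum_type]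
  simp only [Matrix.map_apply, F, Int.cast_zero, zero_mul, Finset.sum_const_zero, zero_add]
  by_cases h1 : γ = α
  · rw [if_pos h1, Finset.sum_eq_single (-α)]
    · rw [if_pos ⟨congrArg Root.val h1, Root.neg_val C α⟩]
      simp [P5b_v]
    · intro ζ _ hζ
      rw [if_neg (fun h => hζ (Root.ext h.2)), Int.cast_zero, zero_mul]
    · intro h
      exact absurd (Finset.mem_univ _) h
  · rw [if_neg h1]
    apply Finset.sum_eq_zero
    intro ζ _
    rw [if_neg (fun h => h1 (Root.ext h.1)), Int.cast_zero, zero_mul]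

private theorem P5b_X (α : C.Root) (a x y z : K) :
    (C.X K α a) *ᵥ P5b_v C α x y z = P5b_v C α x (y - a * x) (z - 2 * a * y + a ^ 2 * x) := by
  unfold X
  rw [add_mulVec, add_mulVec, one_mulVec, smul_mulVec, smul_mulVec]
  funext b
  rw [Pi.add_apply, Pi.add_apply, Pi.smul_apply, Pi.smul_apply]
  rcases b with i | γ
  · rw [P5b_E_inl, P5b_F_inl]
    simp only [P5b_v, smul_eq_mul]
    ring
  · rw [P5b_E_inr, P5b_F_inr]
    simp only [P5b_v, smul_eq_mul]
    by_cases h1 : γ = α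
    · subst h1
      rw [if_neg (P5b_ne C γ), if_pos rfl, if_pos rfl, if_pos rfl, if_neg (P5b_ne C γ), if_pos rfl]
      ring
    · rw [if_neg h1, if_neg h1, if_neg h1, if_neg h1]
      ring

private theorem P5b_swap (α : C.Root) (x y z : K) : P5b_v C (-α) x y z = P5b_v C α z (-y) x := by
  funext b
  rcases b with i | γ
  · simp only [P5b_v, Root.neg_val, Pi.neg_apply, Int.cast_neg]
    ring
  · simp only [P5b_v, C.neg_neg_root]
    by_cases h1 : γ = α
    · subst h1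
      rw [if_pos rfl, if_neg (P5b_ne C γ), if_pos rfl]
    · rw [if_neg h1]
      by_cases h2 : γ = -α
      · rw [if_pos h2, if_pos h2]
      · rw [if_neg h2, if_neg h2, if_neg h1]

private theorem P5b_X' (α : C.Root) (b x y z : K) :
    (C.X K (-α) b) *ᵥ P5b_v C α x y z = P5b_v C α (x + 2 * b * y + b ^ 2 * z) (y + b * z) z := by
  have h1 : P5b_v C α x y z = P5b_v C (-α) z (-y) x := by
    rw [P5b_swap, neg_neg]
  rw [h1, P5b_X, P5b_swap]
  congr 1 <;> ring

theorem ab_eq_one (α : C.Root) (a b : K) (ha : a ≠ 0)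
    (h : (C.xg K α a * C.xg K (-α) b * C.xg K α a) * C.xg K α a =
      C.xg K (-α) b * (C.xg K α a * C.xg K (-α) b * C.xg K α a)) : a * b = 1 := by
  have h1 : C.xg K α a * C.xg K (-α) b * C.xg K α a =
      C.xg K (-α) b * C.xg K α a * C.xg K (-α) b := by
    apply mul_right_cancel (b := C.xg K α a)
    rw [h]
    group
  have h2 : C.X K α a * C.X K (-α) b * C.X K α a = C.X K (-α) b * C.X K α a * C.X K (-α) b :=
    congrArg (fun g : GL C.Idx K => (g : Matrix C.Idx C.Idx K)) h1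
  have h3 := congrArg (fun M => M *ᵥ P5b_v C α 1 0 0) h2
  simp only [← mulVec_mulVec] at h3
  rw [P5b_X, P5b_X', P5b_X, P5b_X', P5b_X, P5b_X'] at h3
  obtain ⟨i, hi⟩ := C.exists_coeff_ne_zero α K
  have h4 := congrFun h3 (Sum.inl i)
  simp only [P5b_v] at h4
  have h5 := mul_right_cancel₀ hi h4
  have h6 : a * (1 - a * b) ^ 2 = 0 := by linear_combination (-1 : K) * h5
  rcases mul_eq_zero.1 h6 with h7 | h7
  · exact absurd h7 ha
  · have h8 : 1 - a * b = 0 := by
      by_contra h9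
      exact pow_ne_zero 2 h9 h7
    linear_combination (-1 : K) * h8

theorem neg_coeff (hn : 2 ≤ n) {k : Type*} [Field k] {H : Type*} [Group H]
    (S : StSys C k H) (Ψ : H →* GL C.Idx K) (hT : ∀ h ∈ S.T, Ψ h ∈ (C.adS K).T)
    (α' : C.Root) (φ : k →+* K) (c : K) (hc : c ≠ 0) (i : Fin n) (f : k → K)
    (h1 : ∀ s, Ψ (S.x (C.simple i) s) = C.xg K α' (c * φ s))
    (h2 : ∀ s, Ψ (S.x (-(C.simple i)) s) = C.xg K (-α') (f s))
    (hchi : ∀ v t, t ≠ 0 → C.chi (Ψ (S.tor v t) : Matrix C.Idx C.Idx K) α' =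
        φ t ^ (C.ip (Pi.single i 1) v)) (s : k) : f s = c⁻¹ * φ s := by
  -- injectivity in the parameter
  have hinj : ∀ u u' : K, C.xg K (-α') u = C.xg K (-α') u' → u = u' := by
    intro u u' h
    by_cases hu : u = 0
    · by_cases hu' : u' = 0
      · rw [hu, hu']
      · exact (C.xg_inj (-α') (-α') u' u hu' h.symm).2.symm
    · exact (C.xg_inj (-α') (-α') u u' hu h).2
  -- the value at zero
  have h0 : f 0 = 0 := by
    apply hinj
    rw [← h2 0, S.x_zero, map_one]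
    have h3 := (C.adS K).x_zero (-α')
    rw [adS_x] at h3
    exact h3.symm
  -- the value at one
  have hone : c * f 1 = 1 := by
    have h3 := S.n_conj (C.simple i) 1 1 one_ne_zero
    have h4 := congrArg Ψ h3
    unfold nn at h4
    simp only [map_mul, map_inv, inv_one, one_pow, mul_one, h1, h2, map_one] at h4
    rw [mul_inv_eq_iff_eq_mul] at h4
    exact C.ab_eq_one α' c (f 1) hc h4
  -- homogeneity
  have hhom : ∀ t : k, t ≠ 0 → f t⁻¹ = (φ t)⁻¹ * f 1 := by
    intro t ht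
    obtain ⟨j, hj, hij⟩ := C.exists_adjacent hn i
    have hv : C.ip (Pi.single i 1) (-(Pi.single j 1 : Fin n → ℤ)) = 1 := by
      rw [ip_neg_right, ip_single, hij]
      norm_num
    have h3 := S.tor_conj (-(Pi.single j 1 : Fin n → ℤ)) t ht (-(C.simple i)) 1
    have h4 : C.ip (-(Pi.single j 1 : Fin n → ℤ)) (-(C.simple i)).1 = -1 := by
      rw [Root.neg_val, simple_val, ip_neg_right, C.ip_comm, hv]
    rw [h4, _root_.zpow_neg_one, mul_one] at h3
    have h5 := congrArg Ψ h3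
    simp only [map_mul, map_inv, h2] at h5
    set τ := Ψ (S.tor (-(Pi.single j 1 : Fin n → ℤ)) t) with hτd
    have hτ : τ ∈ (C.adS K).T := hT _ (S.tor_mem _ t ht)
    rw [(C.T_fix τ hτ (-α') (f 1)).2] at h5
    have h6 := hinj _ _ h5
    rw [← h6]
    congr 1
    have h7 := hchi (-(Pi.single j 1 : Fin n → ℤ)) t ht
    rw [hv, _root_.zpow_one, ← hτd] at h7
    rw [← h7]
    obtain ⟨d, hd⟩ := C.T_diag τ hτ
    unfold chi
    rw [hd, Matrix.diagonal_apply_eq, Matrix.diagonal_apply_eq]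
    simp only [Sum.elim_inr, Root.neg_val, Pi.neg_apply, _root_.zpow_neg, Finset.prod_inv_distrib,
      Units.val_inv_eq_inv_val]
  have hf1 : f 1 = c⁻¹ := by
    rw [eq_comm, inv_eq_iff_eq_inv]
    exact eq_inv_of_mul_eq_one_left hone
  by_cases hs : s = 0
  · rw [hs, h0, map_zero, mul_zero]
  · have h3 := hhom s⁻¹ (inv_ne_zero hs)
    rw [inv_inv, map_inv₀, inv_inv, hf1, mul_comm] at h3
    exact h3

end SLC

end Pool.Agent.H75.UL
end
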