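import Pool.Agent.H86.AL.Defs
import Pool.Agent.H86.AL.M02
import Pool.Agent.H86.AL.M04
import Pool.Agent.H86.AL.M05
import Pool.Agent.H86.AL.M06
import Pool.Agent.H86.AL.M07

/-!
# M08: collected modules

Pool.Agent.H75.UL.P3f
Pool.Agent.H75.UL.P3b
Pool.Agent.H86.UM.RD1
Pool.Agent.H86.UM.KA2
Pool.Agent.H86.UL.P2D
Pool.Agent.H86.UL.P2a
Pool.Agent.H86.UL.P2b
-/

section
/- module Pool.Agent.H75.UL.P3f -/
/-!
# Project UL (MP_978914_al), module P3f

Two field lemmas.

`pow_mem_of_fixed`: let `f = minpoly K x`. Every root `y` of `f` in `L` is `σ x` for some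
`σ : L ≃ₐ[K] L` (`L` is an algebraic closure, normal over `K`; e.g. `minpoly.exists_algEquiv_of_root'`
or `exists_algEquiv...`), so `y = x`; so `f` has a single root in `L`, its separable degree is `1` and
`minpoly.natSepDegree_eq_one_iff_pow_mem` (Mathlib) gives `x ^ q ^ m ∈ K`.
`eigenvalue_mem`: `A` over `K`, `A_L = g D g⁻¹` with `D` diagonal, `D a = x`, `x ^ Q ∈ K` where
`Q = q ^ m`, `q` the exponential characteristic. Over `L`: `A_L ^ Q - x ^ Q = (A_L - x) ^ Q`
(`sub_pow_expChar_pow` for commuting elements) is singular (its conjugate has the diagonal entry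
`0`), and it is the image of a matrix over `K` (if `x ^ Q = algebraMap y`: `A ^ Q - y`), so there is
`v ≠ 0` over `K` with `(A ^ Q - y) v = 0` (determinant zero). So `(A_L - x)^Q v = 0`, and since
`A_L - x` is diagonalizable, `(A_L - x) v = 0` (`D' = D - x`: `D'^Q z = 0 → D' z = 0`). So
`x v = A v` has coordinates in `K`; `v` has a nonzero coordinate in `K`: `x ∈ K`.
-/

set_option autoImplicit false
open Matrix
universe u
namespace Pool.Agent.H75.UL

theorem pow_mem_of_fixed {K L : Type*} [Field K] [Field L] [Algebra K L] [IsAlgClosure K L] (q : ℕ)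
    [ExpChar K q] (x : L) (hx : ∀ σ : L ≃ₐ[K] L, σ x = x) :
    ∃ m : ℕ, x ^ q ^ m ∈ Set.range (algebraMap K L) := by
  classical
  have h1 : IsAlgClosed L := IsAlgClosure.isAlgClosed K
  have h2 : Algebra.IsAlgebraic K L := IsAlgClosure.isAlgebraic
  have h3 : Normal K L := inferInstance
  have h4 : (minpoly K x).natSepDegree = 1 := by
    rw [Polynomial.natSepDegree_eq_of_isAlgClosed (E := L), Finset.card_eq_one]
    refine ⟨x, ?_⟩
    ext y
    rw [Multiset.mem_toFinset, Polynomial.mem_aroots, Finset.mem_singleton]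
    constructor
    · rintro ⟨_, hy⟩
      obtain ⟨σ, hσ⟩ := minpoly.exists_algEquiv_of_root' (h2.isAlgebraic x) hy
      rw [← hσ]
      exact hx σ
    · rintro rfl
      exact ⟨minpoly.ne_zero (h2.isAlgebraic y).isIntegral, minpoly.aeval K y⟩
  obtain ⟨m, y, hy⟩ := (minpoly.natSepDegree_eq_one_iff_pow_mem q).1 h4
  exact ⟨m, y, hy⟩

theorem eigenvalue_mem {K L ι : Type*} [Field K] [Field L] [Algebra K L] [Fintype ι]
    [DecidableEq ι] (q : ℕ) [ExpChar K q] (A : Matrix ι ι K) (g : GL ι L) (D : ι → L)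
    (h : A.map (algebraMap K L) = (g : Matrix ι ι L) * Matrix.diagonal D * ((g⁻¹ : GL ι L) : Matrix ι ι L))
    (a : ι) (m : ℕ) (hx : D a ^ q ^ m ∈ Set.range (algebraMap K L)) :
    D a ∈ Set.range (algebraMap K L) := by
  obtain ⟨y, hy⟩ := hx
  have hq : ExpChar L q := expChar_of_injective_algebraMap (algebraMap K L).injective q
  have hgg : ((g⁻¹ : GL ι L) : Matrix ι ι L) * (g : Matrix ι ι L) = 1 := by
    rw [← Units.val_mul, inv_mul_cancel, Units.val_one]
  have hgg' : (g : Matrix ι ι L) * ((g⁻¹ : GL ι L) : Matrix ι ι L) = 1 := by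
    rw [← Units.val_mul, mul_inv_cancel, Units.val_one]
  -- `A_L g = g D`
  have hA : A.map (algebraMap K L) * (g : Matrix ι ι L) = g * Matrix.diagonal D := by
    rw [h, mul_assoc, hgg, mul_one]
  have hpow : ∀ k : ℕ, (A.map (algebraMap K L)) ^ k * (g : Matrix ι ι L) =
      g * Matrix.diagonal (fun i => D i ^ k) := by
    intro k
    induction k with
    | zero => simp
    | succ k ih =>
      rw [pow_succ, mul_assoc, hA, ← mul_assoc, ih, mul_assoc, Matrix.diagonal_mul_diagonal]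
      congr 1
      ext i j
      by_cases hij : i = j
      · subst hij
        simp [pow_succ]
      · simp [hij]
  set N : Matrix ι ι K := A ^ q ^ m - y • (1 : Matrix ι ι K) with hN
  have hmap : (algebraMap K L).mapMatrix N =
      (A.map (algebraMap K L)) ^ q ^ m - (D a ^ q ^ m) • (1 : Matrix ι ι L) := by
    rw [hN, map_sub, map_pow, ← hy]
    congr 1
    ext i j
    by_cases hij : i = j
    · subst hij
      simp
    · simp [hij]
  have hNg : (algebraMap K L).mapMatrix N * (g : Matrix ι ι L) =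
      g * Matrix.diagonal (fun i => D i ^ q ^ m - D a ^ q ^ m) := by
    rw [hmap, sub_mul, hpow, smul_mul_assoc, one_mul]
    have h1 : Matrix.diagonal (fun i => D i ^ q ^ m - D a ^ q ^ m) =
        Matrix.diagonal (fun i => D i ^ q ^ m) - (D a ^ q ^ m) • (1 : Matrix ι ι L) := by
      ext i j
      by_cases hij : i = j
      · subst hij
        simp
      · simp [hij]
    rw [h1, mul_sub, mul_smul_comm, mul_one]
  have hdet : N.det = 0 := by
    have h1 := congrArg Matrix.det hNg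
    rw [Matrix.det_mul, Matrix.det_mul, Matrix.det_diagonal,
      Finset.prod_eq_zero (Finset.mem_univ a) (sub_self _), mul_zero] at h1
    have h2 : (g : Matrix ι ι L).det ≠ 0 := by
      intro h3
      have h4 := congrArg Matrix.det hgg
      rw [Matrix.det_mul, h3, mul_zero, Matrix.det_one] at h4
      exact zero_ne_one h4
    rcases mul_eq_zero.1 h1 with h3 | h3
    · rw [← RingHom.map_det] at h3
      exact (map_eq_zero_iff _ (algebraMap K L).injective).1 h3
    · exact absurd h3 h2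
  obtain ⟨v, hv0, hv⟩ := Matrix.exists_mulVec_eq_zero_iff.2 hdet
  set v' : ι → L := fun i => algebraMap K L (v i) with hv'
  set w : ι → L := ((g⁻¹ : GL ι L) : Matrix ι ι L) *ᵥ v' with hw
  have hgw : (g : Matrix ι ι L) *ᵥ w = v' := by
    rw [hw, Matrix.mulVec_mulVec, hgg', Matrix.one_mulVec]
  have hNv : (algebraMap K L).mapMatrix N *ᵥ v' = 0 := by
    funext i
    have h1 := RingHom.map_mulVec (algebraMap K L) N v i
    rw [hv] at h1
    rw [Pi.zero_apply, map_zero] at h1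
    rw [Pi.zero_apply]
    exact h1.symm
  have hDw : ∀ i, (D i ^ q ^ m - D a ^ q ^ m) * w i = 0 := by
    have h1 : (g : Matrix ι ι L) *ᵥ (Matrix.diagonal (fun i => D i ^ q ^ m - D a ^ q ^ m) *ᵥ w) = 0 := by
      rw [Matrix.mulVec_mulVec, ← hNg, ← Matrix.mulVec_mulVec, hgw, hNv]
    have h2 : Matrix.diagonal (fun i => D i ^ q ^ m - D a ^ q ^ m) *ᵥ w = 0 := by
      have h3 := congrArg (fun u => ((g⁻¹ : GL ι L) : Matrix ι ι L) *ᵥ u) h1
      simp only [Matrix.mulVec_mulVec, Matrix.mulVec_zero] at h3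
      rwa [← mul_assoc, hgg, one_mul] at h3
    intro i
    have h3 := congrFun h2 i
    rwa [Matrix.mulVec_diagonal, Pi.zero_apply] at h3
  have hDw' : Matrix.diagonal D *ᵥ w = D a • w := by
    funext i
    rw [Matrix.mulVec_diagonal, Pi.smul_apply, smul_eq_mul]
    have h1 := hDw i
    rw [← sub_pow_expChar_pow] at h1
    rcases mul_eq_zero.1 h1 with h2 | h2
    · have h3 : D i - D a = 0 := by
        by_contra h4
        exact pow_ne_zero _ h4 h2
      rw [sub_eq_zero.1 h3]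
    · rw [h2, mul_zero, mul_zero]
  have hAv : A.map (algebraMap K L) *ᵥ v' = D a • v' := by
    rw [← hgw, Matrix.mulVec_mulVec, hA, ← Matrix.mulVec_mulVec, hDw', Matrix.mulVec_smul]
  obtain ⟨i, hi⟩ := Function.ne_iff.1 hv0
  rw [Pi.zero_apply] at hi
  refine ⟨(A *ᵥ v) i / v i, ?_⟩
  have h1 := congrFun hAv i
  have h2 := RingHom.map_mulVec (algebraMap K L) A v i
  have h3 : algebraMap K L ((A *ᵥ v) i) = D a * algebraMap K L (v i) := by
    rw [h2]
    exact h1
  have h4 : algebraMap K L (v i) ≠ 0 := (map_ne_zero_iff _ (algebraMap K L).injective).2 hi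
  rw [map_div₀, h3, mul_div_cancel_right₀ _ h4]

end Pool.Agent.H75.UL
end

section
/- module Pool.Agent.H75.UL.P3b -/
/-!
# Project UL (MP_978914_al), module P3b

The field embedding has values in `K`.

Notation: `L` is an algebraic closure of `K`, `mp = C.mp (algebraMap K L)`. It is enough to show
`φ t ∈ range (algebraMap K L)` for all `t ≠ 0` (the range is a subfield; then lift `φ`, e.g. with
`RingHom.codRestrict` and the inverse of `algebraMap` on its range). Let `i = 0`, `j` adjacent to `i`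
(`exists_adjacent`, `n ≥ 2`), `v = -single j`, so `ip α_i v = 1`; `h = S.tor v t ∈ S.T`,
`M = g⁻¹ mp(Ψ h) g ∈ T` diagonal (`T_diag`), `φ t = chi M (simple (π i))`.
(1) `φ t` is fixed by every `σ : L ≃ₐ[K] L`: let `g' = C.mp σ g ∈ Gad L`. For `u ∈ S.U 1`,
`g'⁻¹ mp(Ψ u) g' = C.mp σ (g⁻¹ mp(Ψ u) g)` (entries of `mp(Ψ u)` are in `K`) satisfies `Fil 0`, so by
`huniq`, `b = g⁻¹ g'` satisfies `Fil 0`. `C.mp σ M = g'⁻¹ mp(Ψ h) g' = b⁻¹ M b`, so
`chi (C.mp σ M) γ = chi M γ` (`chi_mul`, `upper_inv`), and `chi (C.mp σ M) γ = σ (chi M γ)`.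
(2) `pow_mem_of_fixed` and `eigenvalue_mem` (with `A = Ψ h`, `D` the diagonal of `M`).
-/

set_option autoImplicit false
open Matrix
universe u
namespace Pool.Agent.H75.UL

namespace SLC
variable {n : ℕ} (C : SLC n)

theorem P3b_mp_fix {K L : Type*} [Field K] [Field L] [Algebra K L] (σ : L ≃ₐ[K] L)
    (x : GL C.Idx K) : C.mp (σ : L →+* L) (C.mp (algebraMap K L) x) =
      C.mp (algebraMap K L) x := by
  apply Units.ext
  rw [mp_val, mp_val]
  ext a b
  simp

theorem P3b_T_le {L : Type*} [Field L] (τ : GL C.Idx L) (hτ : τ ∈ (C.adS L).T) :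
    τ ∈ C.Gad L := by
  rw [← gen_adS]
  exact (C.adS L).T_le_gen hτ

/-- Conjugation by an upper triangular element does not change the diagonal entries. -/
theorem P3b_chi_conj {L : Type*} [Field L] (M b : GL C.Idx L) (hM : M ∈ C.Gad L)
    (hM0 : C.Fil 0 (M : Matrix C.Idx C.Idx L)) (hb : b ∈ C.Gad L)
    (hb0 : C.Fil 0 (b : Matrix C.Idx C.Idx L)) (γ : C.Root) :
    C.chi ((b⁻¹ * M * b : GL C.Idx L) : Matrix C.Idx C.Idx L) γ =
      C.chi (M : Matrix C.Idx C.Idx L) γ := by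
  have hbi : b⁻¹ ∈ C.Gad L := inv_mem hb
  have hbi0 := C.upper_inv b hb hb0
  have h1 : C.Fil 0 ((b⁻¹ * M : GL C.Idx L) : Matrix C.Idx C.Idx L) := by
    have h := C.Fil_mul hbi0 hM0
    rw [add_zero] at h
    exact h
  rw [C.chi_mul (b⁻¹ * M) b (mul_mem hbi hM) hb h1 hb0, C.chi_mul b⁻¹ M hbi hM hbi0 hM0]
  have h2 := C.chi_mul b⁻¹ b hbi hb hbi0 hb0 γ
  rw [inv_mul_cancel] at h2
  have h3 : C.chi ((1 : GL C.Idx L) : Matrix C.Idx C.Idx L) γ = 1 := by
    simp [chi]
  rw [h3] at h2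
  linear_combination (-C.chi (M : Matrix C.Idx C.Idx L) γ) * h2

/-- The diagonal entries of the torus elements are fixed by all automorphisms. -/
theorem P3b_fixed {k : Type*} [Field k] {H : Type*} [Group H]
    (S : StSys C k H) {K L : Type*} [Field K] [Field L] [Algebra K L]
    (Ψ : H →* GL C.Idx K) (g : GL C.Idx L) (hg : g ∈ C.Gad L)
    (hU : ∀ u ∈ S.U 1, g⁻¹ * C.mp (algebraMap K L) (Ψ u) * g ∈ (C.adS L).U 1)
    (huniq : ∀ g' ∈ C.Gad L, (∀ u ∈ S.U 1, C.Fil 0
      ((g'⁻¹ * C.mp (algebraMap K L) (Ψ u) * g' : GL C.Idx L) : Matrix C.Idx C.Idx L)) →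
      C.Fil 0 ((g⁻¹ * g' : GL C.Idx L) : Matrix C.Idx C.Idx L))
    (h : H) (hT : g⁻¹ * C.mp (algebraMap K L) (Ψ h) * g ∈ (C.adS L).T) (σ : L ≃ₐ[K] L)
    (γ : C.Root) :
    σ (C.chi ((g⁻¹ * C.mp (algebraMap K L) (Ψ h) * g : GL C.Idx L) :
      Matrix C.Idx C.Idx L) γ) =
    C.chi ((g⁻¹ * C.mp (algebraMap K L) (Ψ h) * g : GL C.Idx L) :
      Matrix C.Idx C.Idx L) γ := by
  have hg' : C.mp (σ : L →+* L) g ∈ C.Gad L := C.mp_Gad _ g hg
  have hconj : ∀ x : GL C.Idx K, (C.mp (σ : L →+* L) g)⁻¹ * C.mp (algebraMap K L) x *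
      C.mp (σ : L →+* L) g = C.mp (σ : L →+* L) (g⁻¹ * C.mp (algebraMap K L) x * g) := by
    intro x
    rw [map_mul, map_mul, map_inv, C.P3b_mp_fix σ x]
  have hb0 := huniq _ hg' (by
    intro u hu
    rw [hconj]
    exact C.Fil_U_zero _ (C.mp_U _ 1 _ (hU u hu)))
  have h1 := C.P3b_chi_conj _ (g⁻¹ * C.mp (σ : L →+* L) g) (C.P3b_T_le _ hT) (C.Fil_T _ hT)
    (mul_mem (inv_mem hg) hg') hb0 γ
  have h2 : (g⁻¹ * C.mp (σ : L →+* L) g)⁻¹ * (g⁻¹ * C.mp (algebraMap K L) (Ψ h) * g) *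
      (g⁻¹ * C.mp (σ : L →+* L) g) = C.mp (σ : L →+* L)
        (g⁻¹ * C.mp (algebraMap K L) (Ψ h) * g) := by
    rw [← hconj]
    group
  rw [h2, mp_val, chi_map] at h1
  exact h1

theorem phi_mem (hn : 2 ≤ n) {k : Type*} [Field k] {H : Type*} [Group H]
    (S : StSys C k H) {K L : Type*} [Field K] [Field L] [Algebra K L] [IsAlgClosure K L]
    (Ψ : H →* GL C.Idx K) (hΨ : ∀ β t, Ψ (S.x β t) ∈ C.Gad K) (g : GL C.Idx L)
    (hg : g ∈ C.Gad L)
    (hU : ∀ u ∈ S.U 1, g⁻¹ * C.mp (algebraMap K L) (Ψ u) * g ∈ (C.adS L).U 1)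
    (huniq : ∀ g' ∈ C.Gad L, (∀ u ∈ S.U 1, C.Fil 0
      ((g'⁻¹ * C.mp (algebraMap K L) (Ψ u) * g' : GL C.Idx L) : Matrix C.Idx C.Idx L)) →
      C.Fil 0 ((g⁻¹ * g' : GL C.Idx L) : Matrix C.Idx C.Idx L))
    (hT : ∀ h ∈ S.T, g⁻¹ * C.mp (algebraMap K L) (Ψ h) * g ∈ (C.adS L).T)
    (π : Equiv.Perm (Fin n)) (φ : k →+* L)
    (hchi : ∀ v t, t ≠ 0 → ∀ i,
      C.chi ((g⁻¹ * C.mp (algebraMap K L) (Ψ (S.tor v t)) * g : GL C.Idx L) :
        Matrix C.Idx C.Idx L) (C.simple (π i)) = φ t ^ (C.ip (Pi.single i 1) v)) :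
    ∃ φ₀ : k →+* K, (algebraMap K L).comp φ₀ = φ := by
  -- the diagonal entry
  have key : ∀ t : k, t ≠ 0 → φ t ∈ Set.range (algebraMap K L) := by
    intro t ht
    have i₀ : Fin n := ⟨0, by omega⟩
    obtain ⟨j, _, hj⟩ := C.exists_adjacent hn i₀
    have hv : C.ip (Pi.single i₀ 1) (-Pi.single j 1) = 1 := by
      rw [ip_neg_right, ip_single, hj]
      norm_num
    have hh := S.tor_mem (-Pi.single j 1) t ht
    have hM := hT _ hh
    have h1 := hchi (-Pi.single j 1) t ht i₀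
    rw [hv, zpow_one] at h1
    have h2 : ∀ σ : L ≃ₐ[K] L, σ (φ t) = φ t := by
      intro σ
      rw [← h1]
      exact C.P3b_fixed S Ψ g hg hU huniq _ hM σ _
    obtain ⟨m, hm⟩ := pow_mem_of_fixed (ringExpChar K) (φ t) h2
    obtain ⟨D, hD⟩ : ∃ D : C.Idx → L,
        ((g⁻¹ * C.mp (algebraMap K L) (Ψ (S.tor (-Pi.single j 1) t)) * g : GL C.Idx L) :
          Matrix C.Idx C.Idx L) = Matrix.diagonal D := by
      obtain ⟨c, hc⟩ := C.T_diag _ hM
      exact ⟨_, hc⟩
    rw [hD] at h1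
    have h3 : D (Sum.inr (C.simple (π i₀))) = φ t := by
      rw [← h1]
      unfold chi
      rw [diagonal_apply_eq]
    have h4 : ((Ψ (S.tor (-Pi.single j 1) t) : GL C.Idx K) : Matrix C.Idx C.Idx K).map
        (algebraMap K L) = (g : Matrix C.Idx C.Idx L) * Matrix.diagonal D *
          ((g⁻¹ : GL C.Idx L) : Matrix C.Idx C.Idx L) := by
      rw [← hD, ← mp_val, ← Units.val_mul, ← Units.val_mul]
      congr 1
      group
    have h5 := eigenvalue_mem (ringExpChar K) _ g D h4 (Sum.inr (C.simple (π i₀))) m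
      (by rw [h3]; exact hm)
    rw [h3] at h5
    exact h5
  have key' : ∀ t : k, ∃ s : K, algebraMap K L s = φ t := by
    intro t
    by_cases ht : t = 0
    · exact ⟨0, by rw [ht, map_zero, map_zero]⟩
    · exact key t ht
  choose ψ hψ using key'
  have hinj := (algebraMap K L).injective
  refine ⟨{ toFun := ψ
            map_one' := hinj (by rw [hψ, map_one, map_one])
            map_mul' := fun a b => hinj (by rw [hψ, map_mul, map_mul, hψ, hψ])
            map_zero' := hinj (by rw [hψ, map_zero, map_zero])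
            map_add' := fun a b => hinj (by rw [hψ, map_add, map_add, hψ, hψ]) }, ?_⟩
  ext t
  exact hψ t

end SLC

end Pool.Agent.H75.UL
end

section
/- module Pool.Agent.H86.UM.RD1 -/
/-!
# Project UM, module RD1: Bruhat normal form of a chamber

`normal_form`: every chamber `g B` has a representative `lp C.posList y * nword l`, with the support of `y`
in the positive roots `β` for which `(wd l)⁻¹ β` is negative. Proof: `bruhat` (with `gen_adS`):
`g = u ν v`; `N_word`: `ν = nword l * τ`; `exists_lp_inv` (for `nword l`, `wd l`, see `nword_acts`):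
`u * nword l = lp posList t * nword l * b` (make `t` zero outside the positive roots, `mem_posList`,
`lp_congr`); the rest `b τ v` is `Fil 0` (`Fil_U_zero`, `Fil_T`, `Fil_mul`, `upper_inv`).

`normal_unique`: `x = (lp y)⁻¹ (lp y')`; `nword⁻¹ x nword` is `Fil 0`, and it is a product of elements
`xg γ s` with `γ` negative (`nword_acts`), so it is also lower unitriangular: the matrices `M` with
`M a a = 1` and `M a b = 0` for `a ≠ b`, `hti b ≤ hti a` are closed under products and inverses (of such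
elements in a subgroup); a matrix which is `Fil 0` and lower unitriangular is `1`. So `lp y = lp y'` and
`lp_unique` gives `y β = y' β` for positive `β`; for the others both are `0`.

`coords_perfect`: `mp σ (lp y * nword l) = lp (σ ∘ y) * nword l` (`mp_lp`, `mp_xg`, cf. `mp_N`), so by
`normal_unique` `σ (y β) = y β` for all `σ : L ≃ₐ[K] L`; then `pow_mem_of_fixed`.
-/

set_option autoImplicit false
open Matrix

namespace Pool.Agent.H86.UM

open Pool.Agent.H75.UL

variable {n : ℕ} (C : SLC n)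

theorem normal_form {F : Type*} [Field F] (g : GL C.Idx F) (hg : g ∈ C.Gad F) :
    ∃ (l : List (Fin n)) (y : C.Root → F),
      (∀ β, y β ≠ 0 → C.Pos β ∧ ¬ C.Pos ((C.wd l)⁻¹ β)) ∧
      C.Fil 0 ((((C.adS F).lp C.posList y * (C.adS F).nword l)⁻¹ * g : GL C.Idx F) :
        Matrix C.Idx C.Idx F) := by
  classical
  rw [← C.gen_adS F] at hg
  obtain ⟨u, hu, ν, hν, v, hv, hguv⟩ := (C.adS F).bruhat g hg
  obtain ⟨l, τ, hτ, hντ⟩ := (C.adS F).N_word ν hν
  obtain ⟨t, ht, b, hb, hub⟩ := (C.adS F).exists_lp_inv ((C.adS F).nword l) (C.wd l)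
    ((C.adS F).nword_acts l) u hu
  have hly : (C.adS F).lp C.posList (fun β => if C.Pos β then t β else 0) =
      (C.adS F).lp C.posList t := by
    apply StSys.lp_congr
    intro β hβ
    exact if_pos ((C.mem_posList β).1 hβ)
  refine ⟨l, fun β => if C.Pos β then t β else 0, fun β hβ => ?_, ?_⟩
  · have hpos : C.Pos β := by
      by_contra h
      exact hβ (if_neg h)
    refine ⟨hpos, fun h => hβ ?_⟩
    change (if C.Pos β then t β else 0) = 0
    rw [if_pos hpos]
    exact ht β h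
  · have e1 : ((C.adS F).lp C.posList (fun β => if C.Pos β then t β else 0) *
        (C.adS F).nword l)⁻¹ * g = b * τ * v := by
      rw [hguv, hντ, hly, ← mul_assoc u, hub]
      group
    rw [e1, Units.val_mul, Units.val_mul]
    have := C.Fil_mul (C.Fil_mul (C.Fil_U_zero b hb) (C.Fil_T τ hτ)) (C.Fil_U_zero v hv)
    simpa using this

/-- `N` is strictly lowering. -/
private def RD1_Low {R : Type*} [CommRing R] (N : Matrix C.Idx C.Idx R) : Prop :=
  ∀ a b, C.hti b ≤ C.hti a → N a b = 0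

private theorem RD1_Low_mul {R : Type*} [CommRing R] {M N : Matrix C.Idx C.Idx R}
    (hM : RD1_Low C (M - 1)) (hN : RD1_Low C (N - 1)) : RD1_Low C (M * N - 1) := by
  have e : M * N - 1 = (M - 1) * (N - 1) + (M - 1) + (N - 1) := by
    rw [sub_mul, mul_sub, mul_one, one_mul]
    abel
  intro a b hab
  rw [e, Matrix.add_apply, Matrix.add_apply, hM a b hab, hN a b hab, add_zero, add_zero,
    Matrix.mul_apply]
  refine Finset.sum_eq_zero fun c _ => ?_
  by_cases h : C.hti c ≤ C.hti a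
  · rw [hM a c h, zero_mul]
  · rw [hN c b (by omega), mul_zero]

private theorem RD1_E (α : C.Root) (a b : C.Idx) (h : C.E α a b ≠ 0) :
    C.hti a = C.hti b + ht α.1 := by
  rcases a with i | γ <;> rcases b with j | β
  · exact absurd rfl h
  · simp only [SLC.E] at h
    have h1 : β.1 = -α.1 := by
      by_contra hc
      exact h (if_neg hc)
    simp only [SLC.hti, Sum.elim_inl, Sum.elim_inr]
    rw [h1, ht_neg]
    omega
  · simp only [SLC.E] at h
    have h1 : γ.1 = α.1 := by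
      by_contra hc
      exact h (if_neg hc)
    simp only [SLC.hti, Sum.elim_inl, Sum.elim_inr]
    rw [h1]
    omega
  · simp only [SLC.E] at h
    have h1 : γ.1 = α.1 + β.1 := by
      by_contra hc
      exact h (if_neg hc)
    simp only [SLC.hti, Sum.elim_inr]
    rw [h1, ht_add]
    omega

private theorem RD1_F (α : C.Root) (a b : C.Idx) (h : C.F α a b ≠ 0) :
    C.hti a = C.hti b + 2 * ht α.1 := by
  rcases a with i | γ <;> rcases b with j | β
  · exact absurd rfl h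
  · exact absurd rfl h
  · exact absurd rfl h
  · simp only [SLC.F] at h
    have h1 : γ.1 = α.1 ∧ β.1 = -α.1 := by
      by_contra hc
      exact h (if_neg hc)
    simp only [SLC.hti, Sum.elim_inr]
    rw [h1.1, h1.2, ht_neg]
    omega

private theorem RD1_Low_xg {R : Type*} [CommRing R] (γ : C.Root) (s : R) (hγ : ¬ C.Pos γ) :
    RD1_Low C ((C.xg R γ s : Matrix C.Idx C.Idx R) - 1) := by
  have h0 := C.ht_ne_zero γ
  have hneg : ht γ.1 < 0 := by
    unfold SLC.Pos at hγ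
    omega
  have h : (C.xg R γ s : Matrix C.Idx C.Idx R) - 1 =
      s • (C.E γ).map (Int.cast : ℤ → R) + s ^ 2 • (C.F γ).map (Int.cast : ℤ → R) := by
    show C.X R γ s - 1 = _
    unfold SLC.X
    abel
  intro a b hab
  have h1 : C.E γ a b = 0 := by
    by_contra hc
    have := RD1_E C γ a b hc
    omega
  have h2 : C.F γ a b = 0 := by
    by_contra hc
    have := RD1_F C γ a b hc
    omega
  rw [h, Matrix.add_apply, Matrix.smul_apply, Matrix.smul_apply, Matrix.map_apply,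
    Matrix.map_apply, h1, h2]
  simp

private theorem RD1_Low_closure {R : Type*} [CommRing R] (g : GL C.Idx R)
    (hg : g ∈ Subgroup.closure {x : GL C.Idx R | ∃ (γ : C.Root) (s : R), ¬ C.Pos γ ∧
      x = C.xg R γ s}) : RD1_Low C ((g : Matrix C.Idx C.Idx R) - 1) := by
  induction hg using Subgroup.closure_induction_left with
  | one =>
    rw [Units.val_one, sub_self]
    intro a b _
    rfl
  | mul_left x hx y _ ih =>
    obtain ⟨γ, s, hγ, rfl⟩ := hx
    rw [Units.val_mul]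
    exact RD1_Low_mul C (RD1_Low_xg C γ s hγ) ih
  | inv_mul_cancel x hx y _ ih =>
    obtain ⟨γ, s, hγ, rfl⟩ := hx
    have e : (C.xg R γ s)⁻¹ = C.xg R γ (-s) := by
      rw [inv_eq_iff_mul_eq_one]
      apply Units.ext
      rw [Units.val_mul, Units.val_one]
      show C.X R γ s * C.X R γ (-s) = 1
      rw [← SLC.X_add, add_neg_cancel, SLC.X_zero]
    rw [Units.val_mul, e]
    exact RD1_Low_mul C (RD1_Low_xg C γ (-s) hγ) ih

/-- the conjugate of `lp y` by `nword l` -/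
private theorem RD1_conj {F : Type*} [Field F] (l : List (Fin n)) (y : C.Root → F)
    (hy : ∀ β, y β ≠ 0 → C.Pos β ∧ ¬ C.Pos ((C.wd l)⁻¹ β)) :
    ((C.adS F).nword l)⁻¹ * (C.adS F).lp C.posList y * (C.adS F).nword l ∈
      Subgroup.closure {x : GL C.Idx F | ∃ (γ : C.Root) (s : F), ¬ C.Pos γ ∧
        x = C.xg F γ s} := by
  obtain ⟨c, hc, hact⟩ := (C.adS F).nword_acts l
  unfold StSys.lp
  generalize C.posList = L
  induction L with
  | nil =>
    simp only [List.map_nil, List.prod_nil, mul_one, inv_mul_cancel]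
    exact Subgroup.one_mem _
  | cons β L ih =>
    rw [List.map_cons, List.prod_cons]
    have e : ((C.adS F).nword l)⁻¹ * ((C.adS F).x β (y β) *
        (L.map fun β => (C.adS F).x β (y β)).prod) * (C.adS F).nword l =
        (((C.adS F).nword l)⁻¹ * (C.adS F).x β (y β) * (C.adS F).nword l) *
        (((C.adS F).nword l)⁻¹ * (L.map fun β => (C.adS F).x β (y β)).prod *
          (C.adS F).nword l) := by
      group
    rw [e]
    refine Subgroup.mul_mem _ ?_ ih
    by_cases h0 : y β = 0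
    · rw [h0]
      have : (C.adS F).x β 0 = 1 := (C.adS F).x_zero β
      rw [this, mul_one, inv_mul_cancel]
      exact Subgroup.one_mem _
    · refine Subgroup.subset_closure ⟨(C.wd l)⁻¹ β, (c ((C.wd l)⁻¹ β))⁻¹ * y β, (hy β h0).2, ?_⟩
      have h1 := hact ((C.wd l)⁻¹ β) ((c ((C.wd l)⁻¹ β))⁻¹ * y β)
      rw [mul_inv_cancel_left₀ (hc _), ← Equiv.Perm.mul_apply, mul_inv_cancel,
        Equiv.Perm.one_apply] at h1
      change _ = (C.adS F).x _ _
      rw [← h1]
      group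

theorem normal_unique {F : Type*} [Field F] (l : List (Fin n)) (y y' : C.Root → F)
    (hy : ∀ β, y β ≠ 0 → C.Pos β ∧ ¬ C.Pos ((C.wd l)⁻¹ β))
    (hy' : ∀ β, y' β ≠ 0 → C.Pos β ∧ ¬ C.Pos ((C.wd l)⁻¹ β))
    (h : C.Fil 0 ((((C.adS F).lp C.posList y * (C.adS F).nword l)⁻¹ *
      ((C.adS F).lp C.posList y' * (C.adS F).nword l) : GL C.Idx F) :
        Matrix C.Idx C.Idx F)) : y = y' := by
  have e : ((C.adS F).lp C.posList y * (C.adS F).nword l)⁻¹ *
      ((C.adS F).lp C.posList y' * (C.adS F).nword l) =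
      (((C.adS F).nword l)⁻¹ * (C.adS F).lp C.posList y * (C.adS F).nword l)⁻¹ *
      (((C.adS F).nword l)⁻¹ * (C.adS F).lp C.posList y' * (C.adS F).nword l) := by
    group
  have hmem : ((C.adS F).lp C.posList y * (C.adS F).nword l)⁻¹ *
      ((C.adS F).lp C.posList y' * (C.adS F).nword l) ∈
      Subgroup.closure {x : GL C.Idx F | ∃ (γ : C.Root) (s : F), ¬ C.Pos γ ∧
        x = C.xg F γ s} := by
    rw [e]
    exact Subgroup.mul_mem _ (Subgroup.inv_mem _ (RD1_conj C l y hy)) (RD1_conj C l y' hy')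
  have hlow := RD1_Low_closure C _ hmem
  have hone : ((C.adS F).lp C.posList y * (C.adS F).nword l)⁻¹ *
      ((C.adS F).lp C.posList y' * (C.adS F).nword l) = 1 := by
    apply Units.ext
    ext a b
    rw [Units.val_one]
    by_cases hab : C.hti b ≤ C.hti a
    · have h1 := hlow a b hab
      rw [Matrix.sub_apply, sub_eq_zero] at h1
      exact h1
    · rw [h a b (by omega), Matrix.one_apply_ne]
      rintro rfl
      exact hab le_rfl
  have heq : (C.adS F).lp C.posList y = (C.adS F).lp C.posList y' := by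
    have h1 := inv_mul_eq_one.1 hone
    exact mul_right_cancel h1
  funext β
  by_cases hβ : C.Pos β
  · exact C.lp_unique y y' heq β hβ
  · have h1 : y β = 0 := by
      by_contra hc
      exact hβ (hy β hc).1
    have h2 : y' β = 0 := by
      by_contra hc
      exact hβ (hy' β hc).1
    rw [h1, h2]

theorem mp_normal {F F' : Type*} [Field F] [Field F'] (f : F →+* F') (l : List (Fin n))
    (y : C.Root → F) :
    C.mp f ((C.adS F).lp C.posList y * (C.adS F).nword l) =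
      (C.adS F').lp C.posList (fun β => f (y β)) * (C.adS F').nword l := by
  rw [map_mul, SLC.mp_lp]
  congr 1
  unfold StSys.nword
  rw [map_list_prod, List.map_map]
  congr 1
  apply List.map_congr_left
  intro i _
  change C.mp f (nn (C.xg F) (C.simple i) 1) = nn (C.xg F') (C.simple i) 1
  unfold nn
  simp only [map_mul, SLC.mp_xg, map_inv₀, map_one]

theorem coords_perfect {K L : Type*} [Field K] [Field L] [Algebra K L] [IsAlgClosure K L]
    (l : List (Fin n)) (y : C.Root → L) (hy : ∀ β, y β ≠ 0 → C.Pos β ∧ ¬ C.Pos ((C.wd l)⁻¹ β))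
    (g : GL C.Idx L) (hg : g = (C.adS L).lp C.posList y * (C.adS L).nword l)
    (hfix : ∀ σ : L ≃ₐ[K] L, C.Fil 0 ((g⁻¹ * C.mp (σ : L →+* L) g : GL C.Idx L) :
      Matrix C.Idx C.Idx L)) (β : C.Root) :
    ∃ m : ℕ, y β ^ ringExpChar K ^ m ∈ Set.range (algebraMap K L) := by
  refine pow_mem_of_fixed (ringExpChar K) (y β) fun σ => ?_
  have h1 := hfix σ
  rw [hg, mp_normal] at h1
  have h2 := normal_unique C l y (fun β => (σ : L →+* L) (y β)) hy (fun β hβ => hy β fun h0 => ?_) h1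
  · exact (congrFun h2 β).symm
  · apply hβ
    rw [h0, map_zero]

end Pool.Agent.H86.UM
end

section
/- module Pool.Agent.H86.UM.KA2 -/
/-!
# Project UM, module KA2: unipotence of representations, abstract form

`B` a group with normal subgroups `U 0 ≥ U 1 ≥ ... ≥ U M = ⊥`, `U m / U (m+1)` commutative, and for
each `m < M` an infinite set `𝒮 ⊆ B` such that for distinct `τ, τ' ∈ 𝒮` every `w ∈ U m` is
`τ u τ⁻¹ (τ' u τ'⁻¹)⁻¹` modulo `U (m+1)` for some `u ∈ U m`. Then in each finite dimensional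
representation of `B` over an algebraically closed field all elements of `U 0` are unipotent.

Proof. (1) `exists_fixed_abs`: in a nonzero finite dimensional representation `V` there is a nonzero
vector fixed by `U 0`: by induction on `j`, `W_j := {v | ρ x v = v for all x ∈ U (M - j)}` is nonzero
(`j ≤ M`); `W_0 = V`. `W_j` is stable under all `ρ b` (`U (M-j)` is normal). Step from `U (m+1)` to `U m`:
apply `torus_fixed` with `A = U m`, `W = {v | ρ x v = v for all x ∈ U (m+1)}`: on `W` the operators of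
`U m` commute because `x y x⁻¹ y⁻¹ ∈ U (m+1)` and `W` is stable (`ρ (x y) v = ρ (c y x) v`,
`c = x y x⁻¹ y⁻¹`, `ρ c` is trivial on `W`), and `hdiv` holds because
`w⁻¹ (τ u τ⁻¹ (τ' u τ'⁻¹)⁻¹) ∈ U (m+1)` acts trivially on `W`.
(2) `unipotent_abs`: strong induction on `finrank V` (over all `V` in the universe and all `ρ`). `V = 0`:
trivial. `V₁ := {v | ρ x v = v for all x ∈ U 0} ≠ 0` by (1), stable under all `ρ b`; `B` acts on
`V ⧸ V₁` (`Submodule.mapQ`), by induction `(ρ u - 1) ^ m` maps `V` to `V₁` and `ρ u - 1` kills `V₁`; so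
`(ρ u - 1) ^ (m+1) = 0`.
(3) `unipotent_matrix`: the same for homomorphisms to `GL ι L` (`Matrix.toLin'`/`mulVecLin`).
-/

set_option autoImplicit false

universe v

namespace Pool.Agent.H86.UM

/-- vectors fixed by a subgroup -/
private def KA2_fix {B L V : Type*} [Group B] [Field L] [AddCommGroup V] [Module L V]
    (ρ : B →* Module.End L V) (H : Subgroup B) : Submodule L V where
  carrier := {v | ∀ x ∈ H, ρ x v = v}
  add_mem' := by
    intro a b ha hb x hx
    rw [map_add, ha x hx, hb x hx]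
  zero_mem' := by
    intro x _
    exact map_zero _
  smul_mem' := by
    intro c a ha x hx
    rw [map_smul, ha x hx]

private theorem KA2_stable {B L V : Type*} [Group B] [Field L] [AddCommGroup V] [Module L V]
    (ρ : B →* Module.End L V) (H : Subgroup B) (hH : H.Normal) (b : B) (v : V)
    (hv : v ∈ KA2_fix ρ H) : ρ b v ∈ KA2_fix ρ H := by
  intro x hx
  have h1 : x * b = b * (b⁻¹ * x * b) := by group
  have h2 : b⁻¹ * x * b ∈ H := by
    have := hH.conj_mem x hx b⁻¹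
    rwa [inv_inv] at this
  calc ρ x (ρ b v) = ρ (x * b) v := by rw [map_mul]; rfl
    _ = ρ (b * (b⁻¹ * x * b)) v := by rw [← h1]
    _ = ρ b (ρ (b⁻¹ * x * b) v) := by rw [map_mul]; rfl
    _ = ρ b v := by rw [hv _ h2]

private theorem KA2_exists_fixed {B L : Type*} [Group B] [Field L] [IsAlgClosed L] (M : ℕ)
    (U : ℕ → Subgroup B) (hn : ∀ m, (U m).Normal) (hdec : ∀ m, U (m + 1) ≤ U m) (hbot : U M = ⊥)
    (hab : ∀ m < M, ∀ x ∈ U m, ∀ y ∈ U m, x * y * x⁻¹ * y⁻¹ ∈ U (m + 1))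
    (hS : ∀ m < M, ∃ S : Set B, S.Infinite ∧ ∀ τ ∈ S, ∀ τ' ∈ S, τ ≠ τ' → ∀ w ∈ U m, ∃ u ∈ U m,
      w⁻¹ * (τ * u * τ⁻¹ * (τ' * u * τ'⁻¹)⁻¹) ∈ U (m + 1))
    {V : Type*} [AddCommGroup V] [Module L V] [FiniteDimensional L V] [Nontrivial V]
    (ρ : B →* Module.End L V) (j : ℕ) (hj : j ≤ M) :
    ∃ v : V, v ≠ 0 ∧ ∀ x ∈ U (M - j), ρ x v = v := by
  induction j with
  | zero =>
    obtain ⟨v, hv⟩ := exists_ne (0 : V)
    refine ⟨v, hv, fun x hx => ?_⟩
    rw [Nat.sub_zero, hbot, Subgroup.mem_bot] at hx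
    rw [hx, map_one]
    rfl
  | succ j ih =>
    obtain ⟨v0, hv0, hfix0⟩ := ih (by omega)
    have hm : M - (j + 1) < M := by omega
    have hm1 : M - j = M - (j + 1) + 1 := by omega
    generalize M - (j + 1) = m at hm hm1
    rw [hm1] at hfix0
    obtain ⟨S, hSinf, hSd⟩ := hS m hm
    have hWst : ∀ b, ∀ v ∈ KA2_fix ρ (U (m + 1)), ρ b v ∈ KA2_fix ρ (U (m + 1)) :=
      fun b v hv => KA2_stable ρ _ (hn _) b v hv
    have hne : KA2_fix ρ (U (m + 1)) ≠ ⊥ := by
      intro h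
      have : v0 ∈ KA2_fix ρ (U (m + 1)) := hfix0
      rw [h, Submodule.mem_bot] at this
      exact hv0 this
    have hcomm : ∀ x ∈ U m, ∀ y ∈ U m, ∀ v ∈ KA2_fix ρ (U (m + 1)),
        ρ x (ρ y v) = ρ y (ρ x v) := by
      intro x hx y hy v hv
      have h1 : x * y = (x * y * x⁻¹ * y⁻¹) * (y * x) := by group
      have h2 := hab m hm x hx y hy
      calc ρ x (ρ y v) = ρ (x * y) v := by rw [map_mul]; rfl
        _ = ρ ((x * y * x⁻¹ * y⁻¹) * (y * x)) v := by rw [← h1]
        _ = ρ (x * y * x⁻¹ * y⁻¹) (ρ (y * x) v) := by rw [map_mul]; rfl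
        _ = ρ (y * x) v := hWst (y * x) v hv _ h2
        _ = ρ y (ρ x v) := by rw [map_mul]; rfl
    have hdiv : ∀ τ ∈ S, ∀ τ' ∈ S, τ ≠ τ' → ∀ w ∈ U m, ∃ u ∈ U m,
        ∀ v ∈ KA2_fix ρ (U (m + 1)), ρ w v = ρ (τ * u * τ⁻¹ * (τ' * u * τ'⁻¹)⁻¹) v := by
      intro τ hτ τ' hτ' hne' w hw
      obtain ⟨u, hu, h1⟩ := hSd τ hτ τ' hτ' hne' w hw
      refine ⟨u, hu, fun v hv => ?_⟩
      have h2 : τ * u * τ⁻¹ * (τ' * u * τ'⁻¹)⁻¹ =
          w * (w⁻¹ * (τ * u * τ⁻¹ * (τ' * u * τ'⁻¹)⁻¹)) := by group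
      rw [h2, map_mul]
      show ρ w v = ρ w (ρ (w⁻¹ * (τ * u * τ⁻¹ * (τ' * u * τ'⁻¹)⁻¹)) v)
      rw [hv _ h1]
    obtain ⟨v, -, hv0', hvf⟩ := torus_fixed ρ (U m) (KA2_fix ρ (U (m + 1))) hWst hne hcomm S hSinf
      (fun τ _ u hu => (hn m).conj_mem u hu τ) hdiv
    exact ⟨v, hv0', hvf⟩

/-- the representation on a quotient -/
private def KA2_quot {B L V : Type*} [Group B] [Field L] [AddCommGroup V] [Module L V]
    (ρ : B →* Module.End L V) (W : Submodule L V) (hW : ∀ b, ∀ v ∈ W, ρ b v ∈ W) :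
    B →* Module.End L (V ⧸ W) where
  toFun b := W.mapQ W (ρ b) (fun v hv => hW b v hv)
  map_one' := by
    refine Submodule.linearMap_qext _ ?_
    ext v
    simp
  map_mul' a b := by
    refine Submodule.linearMap_qext _ ?_
    ext v
    simp

private theorem KA2_quot_apply {B L V : Type*} [Group B] [Field L] [AddCommGroup V] [Module L V]
    (ρ : B →* Module.End L V) (W : Submodule L V) (hW : ∀ b, ∀ v ∈ W, ρ b v ∈ W) (b : B) (v : V) :
    KA2_quot ρ W hW b (W.mkQ v) = W.mkQ (ρ b v) := rfl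

private theorem KA2_quot_pow {B L V : Type*} [Group B] [Field L] [AddCommGroup V] [Module L V]
    (ρ : B →* Module.End L V) (W : Submodule L V) (hW : ∀ b, ∀ v ∈ W, ρ b v ∈ W) (b : B) (m : ℕ)
    (v : V) : ((KA2_quot ρ W hW b - 1) ^ m) (W.mkQ v) = W.mkQ (((ρ b - 1) ^ m) v) := by
  induction m generalizing v with
  | zero => simp
  | succ m ih =>
    rw [pow_succ, pow_succ]
    show ((KA2_quot ρ W hW b - 1) ^ m) ((KA2_quot ρ W hW b - 1) (W.mkQ v)) =
      W.mkQ (((ρ b - 1) ^ m) ((ρ b - 1) v))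
    rw [← ih]
    congr 1

theorem unipotent_abs {B L : Type*} [Group B] [Field L] [IsAlgClosed L] (M : ℕ)
    (U : ℕ → Subgroup B) (hn : ∀ m, (U m).Normal) (hdec : ∀ m, U (m + 1) ≤ U m) (hbot : U M = ⊥)
    (hab : ∀ m < M, ∀ x ∈ U m, ∀ y ∈ U m, x * y * x⁻¹ * y⁻¹ ∈ U (m + 1))
    (hS : ∀ m < M, ∃ S : Set B, S.Infinite ∧ ∀ τ ∈ S, ∀ τ' ∈ S, τ ≠ τ' → ∀ w ∈ U m, ∃ u ∈ U m,
      w⁻¹ * (τ * u * τ⁻¹ * (τ' * u * τ'⁻¹)⁻¹) ∈ U (m + 1))
    (V : Type v) [AddCommGroup V] [Module L V] [FiniteDimensional L V] (ρ : B →* Module.End L V)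
    (u : B) (hu : u ∈ U 0) : IsNilpotent (ρ u - 1) := by
  have key : ∀ d : ℕ, ∀ (V : Type v) [AddCommGroup V] [Module L V] [FiniteDimensional L V]
      (ρ : B →* Module.End L V), Module.finrank L V = d → IsNilpotent (ρ u - 1) := by
    intro d
    induction d using Nat.strong_induction_on with
    | _ d ih =>
      intro V _ _ _ ρ hd
      rcases subsingleton_or_nontrivial V with hV | hV
      · refine ⟨1, ?_⟩
        ext v
        exact Subsingleton.elim _ _
      · obtain ⟨v0, hv0, hf0⟩ := KA2_exists_fixed M U hn hdec hbot hab hS ρ M le_rfl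
        rw [Nat.sub_self] at hf0
        have hWst : ∀ b, ∀ v ∈ KA2_fix ρ (U 0), ρ b v ∈ KA2_fix ρ (U 0) :=
          fun b v hv => KA2_stable ρ _ (hn _) b v hv
        have hpos : 0 < Module.finrank L (KA2_fix ρ (U 0)) := by
          have : Nontrivial (KA2_fix ρ (U 0)) := by
            refine ⟨⟨⟨v0, hf0⟩, 0, ?_⟩⟩
            intro h
            exact hv0 (congrArg Subtype.val h)
          exact Module.finrank_pos
        have hsum := Submodule.finrank_quotient_add_finrank (KA2_fix ρ (U 0))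
        obtain ⟨m, hm⟩ := ih (Module.finrank L (V ⧸ KA2_fix ρ (U 0))) (by omega) _
          (KA2_quot ρ (KA2_fix ρ (U 0)) hWst) rfl
        refine ⟨m + 1, ?_⟩
        ext v
        have h1 := KA2_quot_pow ρ (KA2_fix ρ (U 0)) hWst u m v
        rw [hm, LinearMap.zero_apply] at h1
        have h2 : ((ρ u - 1) ^ m) v ∈ KA2_fix ρ (U 0) := by
          rw [← Submodule.Quotient.mk_eq_zero]
          exact h1.symm
        rw [pow_succ']
        show (ρ u - 1) (((ρ u - 1) ^ m) v) = 0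
        rw [LinearMap.sub_apply, h2 u hu]
        simp
  exact key _ V ρ rfl

theorem unipotent_matrix {B L ι : Type*} [Group B] [Field L] [IsAlgClosed L] [Fintype ι]
    [DecidableEq ι] (M : ℕ)
    (U : ℕ → Subgroup B) (hn : ∀ m, (U m).Normal) (hdec : ∀ m, U (m + 1) ≤ U m) (hbot : U M = ⊥)
    (hab : ∀ m < M, ∀ x ∈ U m, ∀ y ∈ U m, x * y * x⁻¹ * y⁻¹ ∈ U (m + 1))
    (hS : ∀ m < M, ∃ S : Set B, S.Infinite ∧ ∀ τ ∈ S, ∀ τ' ∈ S, τ ≠ τ' → ∀ w ∈ U m, ∃ u ∈ U m,
      w⁻¹ * (τ * u * τ⁻¹ * (τ' * u * τ'⁻¹)⁻¹) ∈ U (m + 1))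
    (ρ : B →* Matrix.GeneralLinearGroup ι L) (u : B) (hu : u ∈ U 0) :
    IsNilpotent ((ρ u : Matrix ι ι L) - 1) := by
  have e := (Matrix.toLinAlgEquiv' : Matrix ι ι L ≃ₐ[L] ((ι → L) →ₗ[L] (ι → L)))
  let ρ₂ : B →* Module.End L (ι → L) :=
    ((e : Matrix ι ι L →* ((ι → L) →ₗ[L] (ι → L))).comp (Units.coeHom (Matrix ι ι L))).comp ρ
  have h := unipotent_abs M U hn hdec hbot hab hS (ι → L) ρ₂ u hu
  have h1 : ρ₂ u - 1 = e ((ρ u : Matrix ι ι L) - 1) := by
    rw [map_sub, map_one]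
    rfl
  rw [h1] at h
  have h2 := h.map e.symm
  rwa [AlgEquiv.symm_apply_apply] at h2

end Pool.Agent.H86.UM
end

section
/- module Pool.Agent.H86.UL.P2D -/
/-!
# Project UL: definition used in the modules P2a, P2b, P2c
-/

set_option autoImplicit false
open Matrix

namespace Pool.Agent.H75.UL
namespace SLC
variable {n : ℕ} {C : SLC n}

/-- The coordinate at the simple root `j` of the image of `x_i(t)`. -/
noncomputable def ff {k : Type*} [Field k] {H : Type*} [Group H] (S : StSys C k H) {F : Type*} [Field F]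
    (Ψ : H →* GL C.Idx F) (i j : Fin n) (t : k) : F :=
  C.xi j (Ψ (S.x (C.simple i) t) : Matrix C.Idx C.Idx F)

end SLC
end Pool.Agent.H75.UL
end

section
/- module Pool.Agent.H86.UL.P2a -/
/-!
# Project UL, module P2a: the simple roots are permuted

`f_ij(t) = xi_j (Ψ (x_i(t)))` (`ff`, in P2D).
(0) additivity: `ff_add` from `map_add` and `xi_mul`.
(1) `ff_conj`: if `τ ∈ S.T` and `τ x_i(t) τ⁻¹ = x_i(c t)` then `f_ij(c t) = chi (Ψ τ) (simple j) f_ij(t)`
(`xi_conj`, with `Ψ τ ∈ Gad F`: `T_le_gen` and closure induction from `hΨ`).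
(2) For each `j` there is `i` with `f_ij ≠ 0` (`exists_ff`): otherwise `xi_j (Ψ (x_β(t))) = 0` for all
positive `β`: for `β` simple by assumption; otherwise (`exists_descent`, strong induction not needed)
`β = simple i + γ` and `x_β(t) = x_i(±1) x_γ(t) x_i(±1)⁻¹ x_γ(t)⁻¹` (`comm_add` with `s = ±1`
absorbing the sign `eps`), and `xi_j` of a commutator of two elements of `U` is `0` (`xi_mul`). So
`xi_j ∘ Ψ` vanishes on `S.U 1` (closure induction, `xi_mul`). Then with `β` simple and `l` the chain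
from `β` to `θ` (`IsHighest.chain`), which has length `ht θ - 1`, `icomm_chain`, `iad_eq_zero`,
`icomm_eq_one` give `Ψ (x_θ(±1)) = 1`, contradiction (same argument as `nonvanish` in P1.lean).
(3) `f_ij ≠ 0` and `f_i'j ≠ 0` imply `i = i'`: let `i ≠ i'`. Take `v` with `ip (e_i) v = 0`,
`ip (e_i') v = det A` (`exists_coweight`) and `s ≠ 0` in `k` with `s ^ det A ≠ 1` (`k` infinite,
`det A ≠ 0`: `det_ne_zero`). `τ = S.tor v s`: `tor_conj` gives `τ x_i(t) τ⁻¹ = x_i(t)`, so by (1)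
`chi (Ψ τ) (simple j) = 1` (as `f_ij(t) ≠ 0` for some `t`), and then
`f_i'j(s ^ det * t) = f_i'j(t)`, so `f_i'j((s ^ det - 1) t) = 0` for all `t`, `f_i'j = 0`.
(4) Each `i₀` occurs: otherwise `f_i₀j = 0` for all `j`, i.e. `ld (Ψ (x_i₀(t))) = 0`. A chain `l` from
a simple root `i₁` to `θ`; `θ = simple i₁ + sum of l` has full support (`IsHighest.full`), so
`i₀ = i₁` or `i₀ ∈ l`. Then `iad (ld ..) (..)` has a zero factor and is `0`, so `icomm_eq_one`
and `icomm_chain` give `Ψ (x_θ(±1)) = 1`, contradiction.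
(5) So `j ↦` the `i` with `f_ij ≠ 0` is a well defined surjective map of `Fin n` to itself, hence a
bijection; `π` is its inverse.
-/

set_option autoImplicit false
open Matrix

namespace Pool.Agent.H75.UL
namespace SLC
variable {n : ℕ} (C : SLC n)

theorem P2a_mem {k : Type*} [Field k] {H : Type*} [Group H] (S : StSys C k H) (β : C.Root)
    (hβ : C.Pos β) (t : k) : S.x β t ∈ S.U 1 :=
  Subgroup.subset_closure ⟨β, t, hβ, rfl⟩

theorem ff_add {k : Type*} [Field k] {H : Type*} [Group H] (S : StSys C k H) {F : Type*} [Field F]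
    (Ψ : H →* GL C.Idx F) (hU : ∀ u ∈ S.U 1, Ψ u ∈ (C.adS F).U 1) (i j : Fin n) (s t : k) :
    ff S Ψ i j (s + t) = ff S Ψ i j s + ff S Ψ i j t := by
  unfold ff
  rw [S.map_add, map_mul]
  exact C.xi_mul j _ _ (hU _ (C.P2a_mem S _ (C.simple_pos i) s))
    (hU _ (C.P2a_mem S _ (C.simple_pos i) t))

theorem P2a_gen {k : Type*} [Field k] {H : Type*} [Group H] (S : StSys C k H) {F : Type*} [Field F]
    (Ψ : H →* GL C.Idx F) (hΨ : ∀ β t, Ψ (S.x β t) ∈ C.Gad F) (τ : H) (hτ : τ ∈ S.T) :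
    Ψ τ ∈ C.Gad F := by
  have h1 : S.gen ≤ (C.Gad F).comap Ψ := by
    unfold StSys.gen
    rw [Subgroup.closure_le]
    rintro g ⟨β, t, rfl⟩
    exact hΨ β t
  exact h1 (S.T_le_gen hτ)

theorem ff_conj {k : Type*} [Field k] {H : Type*} [Group H] (S : StSys C k H) {F : Type*} [Field F]
    (Ψ : H →* GL C.Idx F) (hΨ : ∀ β t, Ψ (S.x β t) ∈ C.Gad F)
    (hU : ∀ u ∈ S.U 1, Ψ u ∈ (C.adS F).U 1)
    (hT : ∀ h ∈ S.T, C.Fil 0 (Ψ h : Matrix C.Idx C.Idx F)) (i j : Fin n) (τ : H) (hτ : τ ∈ S.T)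
    (c t : k) (h : τ * S.x (C.simple i) t * τ⁻¹ = S.x (C.simple i) (c * t)) :
    ff S Ψ i j (c * t) = C.chi (Ψ τ : Matrix C.Idx C.Idx F) (C.simple j) * ff S Ψ i j t := by
  unfold ff
  rw [← h, map_mul, map_mul, map_inv]
  exact (C.xi_conj (Ψ τ) (Ψ (S.x (C.simple i) t)) (C.P2a_gen S Ψ hΨ τ hτ) (hT τ hτ)
    (hU _ (C.P2a_mem S _ (C.simple_pos i) t)) j).2

theorem P2a_map_icomm {G H : Type*} [Group G] [Group H] (Ψ : H →* G) (l : List H) :
    ∀ g : H, Ψ (icomm g l) = icomm (Ψ g) (l.map Ψ) := by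
  induction l with
  | nil => intro g; rfl
  | cons a l ih =>
    intro g
    have h1 := ih (a * g * a⁻¹ * g⁻¹)
    rw [map_mul, map_mul, map_mul, map_inv, map_inv] at h1
    exact h1

theorem P2a_iad_zero {ι R : Type*} [Fintype ι] [CommRing R] (l : List (Matrix ι ι R)) :
    iad (0 : Matrix ι ι R) l = 0 := by
  induction l with
  | nil => rfl
  | cons B l ih =>
    have h1 : iad (0 : Matrix ι ι R) (B :: l) = iad (B * 0 - 0 * B) l := rfl
    rw [h1, mul_zero, zero_mul, sub_zero, ih]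

theorem P2a_chain_ht (β δ : C.Root) (l : List (Fin n)) (hc : C.Chain β l δ) :
    ht δ.1 = ht β.1 + l.length := by
  induction hc with
  | nil β => simp
  | cons i h hc ih =>
    rename_i β' γ' δ' l'
    have h1 : ht γ'.1 = 1 + ht β'.1 := by
      rw [h, ← C.ht_simple i]
      unfold ht
      rw [← Finset.sum_add_distrib]
      rfl
    rw [ih, h1, List.length_cons]
    push_cast
    ring

/-- The main argument: some iterated bracket of leading parts is nonzero. -/
theorem P2a_key (θ : C.Root) (hθ : C.IsHighest θ) {k : Type*} [Field k]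
    {H : Type*} [Group H] (S : StSys C k H) {F : Type*} [Field F]
    (Ψ : H →* GL C.Idx F) (hne : Ψ (S.x θ 1) ≠ 1)
    (hU : ∀ u ∈ S.U 1, Ψ u ∈ (C.adS F).U 1) (i₀ : Fin n)
    (h0 : ∀ l : List (Fin n), (l.length : ℤ) + 1 = ht θ.1 →
      iad (C.ld (Ψ (S.x (C.simple i₀) 1) : Matrix C.Idx C.Idx F))
        ((l.map fun i => Ψ (S.x (C.simple i) 1)).map
          fun h : GL C.Idx F => C.ld (h : Matrix C.Idx C.Idx F)) = 0) : False := by
  obtain ⟨l, hl⟩ := hθ.chain (C.simple i₀) (C.simple_pos i₀)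
  have hlen : (l.length : ℤ) + 1 = ht θ.1 := by
    have := C.P2a_chain_ht _ _ _ hl
    rw [C.ht_simple] at this
    omega
  obtain ⟨s, hs, h1⟩ := S.icomm_chain (C.simple i₀) θ l hl
  have h2 := congrArg Ψ h1
  rw [P2a_map_icomm, List.map_map] at h2
  have h3 := C.icomm_eq_one θ hθ (Ψ (S.x (C.simple i₀) 1))
    (l.map fun i => Ψ (S.x (C.simple i) 1)) (hU _ (C.P2a_mem S _ (C.simple_pos i₀) 1))
    (by
      intro h hh
      obtain ⟨i, _, rfl⟩ := List.mem_map.mp hh
      exact hU _ (C.P2a_mem S _ (C.simple_pos i) 1))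
    (by rw [List.length_map]; exact hlen) (by
      rw [← h0 l hlen]
      congr 1
      induction l.map fun i => Ψ (S.x (C.simple i) 1) with
      | nil => rfl
      | cons a L ih => exact congrArg (List.cons _) ih)
  have h4 : Ψ (S.x θ s) = 1 := by
    rw [← h2]
    exact h3
  apply hne
  rcases hs with rfl | rfl
  · exact h4
  · rw [S.x_neg, map_inv, inv_eq_one] at h4
    exact h4

theorem P2a_exists_ff (θ : C.Root) (hθ : C.IsHighest θ) {k : Type*} [Field k]
    {H : Type*} [Group H] (S : StSys C k H) {F : Type*} [Field F]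
    (Ψ : H →* GL C.Idx F) (hne : Ψ (S.x θ 1) ≠ 1)
    (hU : ∀ u ∈ S.U 1, Ψ u ∈ (C.adS F).U 1) (j : Fin n) : ∃ i t, ff S Ψ i j t ≠ 0 := by
  by_contra hcon
  push Not at hcon
  apply C.P2a_key θ hθ S Ψ hne hU j
  intro l hlen
  have h1 := C.iad_eq_zero θ hθ j (Ψ (S.x (C.simple j) 1) : Matrix C.Idx C.Idx F)
    (l.map fun i => (Ψ (S.x (C.simple i) 1) : Matrix C.Idx C.Idx F)) (hcon j 1)
    (by
      intro B hB
      obtain ⟨i, _, rfl⟩ := List.mem_map.mp hB
      exact hcon i 1)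
    (by rw [List.length_map]; exact hlen)
  rw [List.map_map] at h1 ⊢
  exact h1

theorem P2a_exists_ff' (θ : C.Root) (hθ : C.IsHighest θ) {k : Type*} [Field k]
    {H : Type*} [Group H] (S : StSys C k H) {F : Type*} [Field F]
    (Ψ : H →* GL C.Idx F) (hne : Ψ (S.x θ 1) ≠ 1)
    (hU : ∀ u ∈ S.U 1, Ψ u ∈ (C.adS F).U 1) (i : Fin n) : ∃ j t, ff S Ψ i j t ≠ 0 := by
  by_contra hcon
  push Not at hcon
  apply C.P2a_key θ hθ S Ψ hne hU i
  intro l hlen
  have h1 : C.ld (Ψ (S.x (C.simple i) 1) : Matrix C.Idx C.Idx F) = 0 := by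
    unfold ld
    apply Finset.sum_eq_zero
    intro j _
    have h2 : C.xi j (Ψ (S.x (C.simple i) 1) : Matrix C.Idx C.Idx F) = 0 := hcon j 1
    rw [h2, zero_smul]
  rw [h1, P2a_iad_zero]

theorem P2a_exists_unit {k : Type*} [Field k] [Infinite k] (d : ℤ) (hd : d ≠ 0) :
    ∃ s : k, s ≠ 0 ∧ s ^ d ≠ 1 := by
  classical
  obtain ⟨s, hs⟩ := Infinite.exists_notMem_finset
    ((Polynomial.nthRoots d.natAbs (1 : k)).toFinset ∪ {0})
  rw [Finset.mem_union, not_or, Finset.mem_singleton, Multiset.mem_toFinset,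
    Polynomial.mem_nthRoots (Int.natAbs_pos.mpr hd)] at hs
  refine ⟨s, hs.2, fun h => hs.1 ?_⟩
  rcases Int.natAbs_eq d with h1 | h1
  · rw [h1, zpow_natCast] at h
    exact h
  · rw [h1, _root_.zpow_neg, zpow_natCast, inv_eq_one] at h
    exact h

theorem P2a_unique {k : Type*} [Field k] [Infinite k]
    {H : Type*} [Group H] (S : StSys C k H) {F : Type*} [Field F]
    (Ψ : H →* GL C.Idx F) (hΨ : ∀ β t, Ψ (S.x β t) ∈ C.Gad F)
    (hU : ∀ u ∈ S.U 1, Ψ u ∈ (C.adS F).U 1)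
    (hT : ∀ h ∈ S.T, C.Fil 0 (Ψ h : Matrix C.Idx C.Idx F)) (i i' j : Fin n)
    (h : ∃ t, ff S Ψ i j t ≠ 0) (h' : ∃ t, ff S Ψ i' j t ≠ 0) : i = i' := by
  by_contra hii
  obtain ⟨v, hv⟩ := C.exists_coweight (Pi.single i' 1)
  obtain ⟨s, hs0, hs⟩ := P2a_exists_unit (k := k) C.A.det C.det_ne_zero
  have hτ := S.tor_mem v s hs0
  have hv1 : C.ip v (C.simple i).1 = 0 := by
    rw [C.ip_comm, C.simple_val, hv, Pi.single_eq_of_ne hii, mul_zero]
  have hv2 : C.ip v (C.simple i').1 = C.A.det := by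
    rw [C.ip_comm, C.simple_val, hv, Pi.single_eq_same, mul_one]
  obtain ⟨t, ht⟩ := h
  obtain ⟨t', ht'⟩ := h'
  have h1 : C.chi (Ψ (S.tor v s) : Matrix C.Idx C.Idx F) (C.simple j) = 1 := by
    have h2 := S.tor_conj v s hs0 (C.simple i) t
    rw [hv1, zpow_zero] at h2
    have h3 := C.ff_conj S Ψ hΨ hU hT i j _ hτ 1 t h2
    rw [one_mul] at h3
    exact mul_right_cancel₀ ht (by rw [← h3, one_mul])
  have h2 : ∀ t, ff S Ψ i' j (s ^ C.A.det * t) = ff S Ψ i' j t := by
    intro t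
    have h3 := S.tor_conj v s hs0 (C.simple i') t
    rw [hv2] at h3
    have h4 := C.ff_conj S Ψ hΨ hU hT i' j _ hτ _ t h3
    rw [h1, one_mul] at h4
    exact h4
  have h5 : s ^ C.A.det - 1 ≠ 0 := sub_ne_zero.mpr hs
  apply ht'
  have h6 := h2 (t' / (s ^ C.A.det - 1))
  have h7 : s ^ C.A.det * (t' / (s ^ C.A.det - 1)) = t' + t' / (s ^ C.A.det - 1) := by
    field_simp
    ring
  rw [h7, C.ff_add S Ψ hU] at h6
  simpa using h6

theorem exists_perm (θ : C.Root) (hθ : C.IsHighest θ) {k : Type*} [Field k] [Infinite k]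
    {H : Type*} [Group H] (S : StSys C k H) {F : Type*} [Field F]
    (Ψ : H →* GL C.Idx F) (hΨ : ∀ β t, Ψ (S.x β t) ∈ C.Gad F) (hne : Ψ (S.x θ 1) ≠ 1)
    (hU : ∀ u ∈ S.U 1, Ψ u ∈ (C.adS F).U 1)
    (hT : ∀ h ∈ S.T, C.Fil 0 (Ψ h : Matrix C.Idx C.Idx F)) :
    ∃ π : Equiv.Perm (Fin n), ∀ i j, (∃ t, ff S Ψ i j t ≠ 0) ↔ j = π i := by
  choose σ hσ using C.P2a_exists_ff θ hθ S Ψ hne hU
  have hun : ∀ i j, (∃ t, ff S Ψ i j t ≠ 0) ↔ σ j = i := by
    intro i j
    constructor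
    · intro h
      exact C.P2a_unique S Ψ hΨ hU hT (σ j) i j (hσ j) h
    · rintro rfl
      exact hσ j
  have hsurj : Function.Surjective σ := by
    intro i
    obtain ⟨j, hj⟩ := C.P2a_exists_ff' θ hθ S Ψ hne hU i
    exact ⟨j, (hun i j).mp hj⟩
  have hbij : Function.Bijective σ := ⟨Finite.injective_iff_surjective.mpr hsurj, hsurj⟩
  refine ⟨(Equiv.ofBijective σ hbij).symm, fun i j => ?_⟩
  rw [hun, Equiv.eq_symm_apply]
  rfl

end SLC
end Pool.Agent.H75.UL
end

section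
/- module Pool.Agent.H86.UL.P2b -/
/-!
# Project UL, module P2b: orthogonal simple roots go to orthogonal simple roots, and the bracket of
adjacent ones

`hπ`: `f_ij = 0` unless `j = π i`; so `ld (Ψ (x_i(t))) = f_(i, π i)(t) • E_(π i)`.
(1) `comm_lead` (with `m = k = 1`, `lead_U`, `Fil_ld`): for `g = Ψ (x_i(s))`, `h = Ψ (x_j(t))` the
commutator `c = g h g⁻¹ h⁻¹` satisfies
`Fil 3 (c - 1 - f_i(s) f_j(t) (E_(π i) E_(π j) - E_(π j) E_(π i)))`.
(2) If `A (π i) (π j) = -1`: `γ = simple (π i) + simple (π j)` is a root (`exists_add`) of height 2 and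
`E_(π i) E_(π j) - E_(π j) E_(π i) = ± E_γ` (`E_comm_add`), whose entry at `(inl l, inr (-γ))` is
`∓ γ_l`; for `l = π i` this is `∓ 1` (`γ (π i) = 1`), and `hti (inl l) = 0 < hti (inr (-γ)) + 3 = 1`,
so the entry of `c - 1` there is exactly `∓ f_i(s) f_j(t) `. This is `comm_entry`.
(3) If `A i j = 0`, `i ≠ j`, then `x_i(s)`, `x_j(t)` commute (`S.comm`), so `c = 1`, so by (2) (with
`s`, `t` such that the `f`'s are nonzero) `A (π i) (π j) = -1` is impossible: `A (π i) (π j) = 0`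
(`off`). The map `(i, j) ↦ (π i, π j)` is an injection of the finite set
`{(i, j) | i ≠ j, A i j = 0}` into itself, hence a bijection, so
`A (π i) (π j) = 0 ↔ A i j = 0` for `i ≠ j`; all other off diagonal entries are `-1`: `cartan_perm`.
(4) `field_adj`: if `A i j = -1`, with `γ' = simple i + simple j`:
`[x_i(t), x_j(1)] = x_γ'(eps * t) = [x_i(1), x_j(t)]` (`comm_add`), apply `Ψ` and (2) (which applies
as `A (π i) (π j) = -1` by (3)): `f_i(t) f_j(1) = f_i(1) f_j(t)`.
-/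

set_option autoImplicit false
open Matrix

namespace Pool.Agent.H75.UL
namespace SLC
variable {n : ℕ} (C : SLC n)

private theorem P2b_eps_ne (v w : Fin n → ℤ) (F : Type*) [Field F] : ((C.eps v w : ℤ) : F) ≠ 0 := by
  intro h
  have h1 := C.eps_sq v w
  have h2 : ((C.eps v w : ℤ) : F) * ((C.eps v w : ℤ) : F) = 1 := by
    rw [← Int.cast_mul, h1, Int.cast_one]
  rw [h, mul_zero] at h2
  exact zero_ne_one h2

private theorem P2b_mem {k : Type*} [Field k] {H : Type*} [Group H] (S : StSys C k H) (i : Fin n)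
    (t : k) : S.x (C.simple i) t ∈ S.U 1 := by
  apply Subgroup.subset_closure
  exact ⟨C.simple i, t, by rw [C.ht_simple], rfl⟩

private theorem P2b_ld {k : Type*} [Field k]
    {H : Type*} [Group H] (S : StSys C k H) {F : Type*} [Field F]
    (Ψ : H →* GL C.Idx F) (π : Equiv.Perm (Fin n))
    (hπ : ∀ i j, (∃ t, ff S Ψ i j t ≠ 0) ↔ j = π i) (i : Fin n) (s : k) :
    C.ld (Ψ (S.x (C.simple i) s) : Matrix C.Idx C.Idx F) =
      ff S Ψ i (π i) s • (C.E (C.simple (π i))).map (Int.cast : ℤ → F) := by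
  unfold ld
  rw [Finset.sum_eq_single (π i)]
  · rfl
  · intro j _ hj
    have h0 : ff S Ψ i j s = 0 := by
      by_contra hne
      exact hj ((hπ i j).1 ⟨s, hne⟩)
    have h1 : C.xi j (Ψ (S.x (C.simple i) s) : Matrix C.Idx C.Idx F) = 0 := h0
    rw [h1, zero_smul]
  · intro h
    exact absurd (Finset.mem_univ _) h

private theorem P2b_bracket (α β γ : C.Root) (h : γ.1 = α.1 + β.1) (F : Type*) [Field F] :
    (C.E α).map (Int.cast : ℤ → F) * (C.E β).map (Int.cast : ℤ → F) -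
      (C.E β).map (Int.cast : ℤ → F) * (C.E α).map (Int.cast : ℤ → F) =
      ((C.eps α.1 β.1 : ℤ) : F) • (C.E γ).map (Int.cast : ℤ → F) := by
  have h1 := congrArg (fun M : Matrix C.Idx C.Idx ℤ => M.map (Int.castRingHom F))
    (C.E_comm_add α β γ h)
  ext a b
  have h2 := congrFun (congrFun h1 a) b
  simp only [Matrix.map_apply, Matrix.sub_apply, Matrix.smul_apply, map_sub, Matrix.mul_apply,
    map_sum, map_mul, smul_eq_mul, eq_intCast] at h2 ⊢
  exact h2

theorem comm_entry {k : Type*} [Field k]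
    {H : Type*} [Group H] (S : StSys C k H) {F : Type*} [Field F]
    (Ψ : H →* GL C.Idx F) (hU : ∀ u ∈ S.U 1, Ψ u ∈ (C.adS F).U 1) (π : Equiv.Perm (Fin n))
    (hπ : ∀ i j, (∃ t, ff S Ψ i j t ≠ 0) ↔ j = π i) (i j : Fin n) (hij : C.A (π i) (π j) = -1)
    (γ : C.Root) (hγ : γ.1 = (C.simple (π i)).1 + (C.simple (π j)).1) (s t : k) :
    ((Ψ (S.x (C.simple i) s * S.x (C.simple j) t * (S.x (C.simple i) s)⁻¹ *
      (S.x (C.simple j) t)⁻¹) : GL C.Idx F) : Matrix C.Idx C.Idx F) (Sum.inl (π i))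
        (Sum.inr (-γ)) =
      - (C.eps (C.simple (π i)).1 (C.simple (π j)).1 * ff S Ψ i (π i) s * ff S Ψ j (π j) t) := by
  have hg := hU _ (P2b_mem C S i s)
  have hh := hU _ (P2b_mem C S j t)
  set g := Ψ (S.x (C.simple i) s) with hgdef
  set h := Ψ (S.x (C.simple j) t) with hhdef
  have hc := C.Fil_comm_lead g h 1 1 le_rfl le_rfl (C.ld (g : Matrix C.Idx C.Idx F))
    (C.ld (h : Matrix C.Idx C.Idx F)) (C.Fil_ld _) (C.Fil_ld _) (C.lead_U g hg) (C.lead_U h hh)
  have hΨ : Ψ (S.x (C.simple i) s * S.x (C.simple j) t * (S.x (C.simple i) s)⁻¹ *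
      (S.x (C.simple j) t)⁻¹) = g * h * g⁻¹ * h⁻¹ := by
    rw [map_mul, map_mul, map_mul, map_inv, map_inv]
  rw [hΨ]
  have hne : π i ≠ π j := by
    intro he
    rw [he, C.diag] at hij
    omega
  have hγht : ht γ.1 = 2 := by
    rw [hγ]
    have h1 := C.ht_simple (π i)
    have h2 := C.ht_simple (π j)
    unfold ht at *
    simp only [Pi.add_apply, Finset.sum_add_distrib]
    omega
  have hneg : ht (-γ).1 = -2 := by
    rw [Root.neg_val]
    unfold ht at *
    simp only [Pi.neg_apply, Finset.sum_neg_distrib]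
    omega
  have h0 := hc (Sum.inl (π i)) (Sum.inr (-γ)) (by
    simp only [hti, Sum.elim_inl, Sum.elim_inr]
    rw [hneg]
    norm_num)
  rw [Matrix.sub_apply, Matrix.sub_apply, Matrix.one_apply_ne (by simp), sub_zero,
    sub_eq_zero] at h0
  rw [h0, hgdef, hhdef, P2b_ld C S Ψ π hπ i s, P2b_ld C S Ψ π hπ j t]
  have hbr := P2b_bracket C (C.simple (π i)) (C.simple (π j)) γ hγ F
  have e1 : (ff S Ψ i (π i) s • (C.E (C.simple (π i))).map (Int.cast : ℤ → F)) *
      (ff S Ψ j (π j) t • (C.E (C.simple (π j))).map (Int.cast : ℤ → F)) -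
      (ff S Ψ j (π j) t • (C.E (C.simple (π j))).map (Int.cast : ℤ → F)) *
      (ff S Ψ i (π i) s • (C.E (C.simple (π i))).map (Int.cast : ℤ → F)) =
      (ff S Ψ i (π i) s * ff S Ψ j (π j) t) •
        (((C.eps (C.simple (π i)).1 (C.simple (π j)).1 : ℤ) : F) •
          (C.E γ).map (Int.cast : ℤ → F)) := by
    rw [← hbr]
    simp only [smul_mul_assoc, mul_smul_comm, smul_smul, smul_sub]
    rw [mul_comm (ff S Ψ j (π j) t) (ff S Ψ i (π i) s)]
  rw [e1]
  have hE : (C.E γ) (Sum.inl (π i)) (Sum.inr (-γ)) = -1 := by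
    have : (C.E γ) (Sum.inl (π i)) (Sum.inr (-γ)) = if (-γ).1 = -γ.1 then - γ.1 (π i) else 0 := rfl
    rw [this, if_pos (Root.neg_val C γ), hγ]
    simp only [Pi.add_apply, simple_val, Pi.single_eq_same]
    rw [Pi.single_eq_of_ne hne]
    norm_num
  simp only [Matrix.smul_apply, Matrix.map_apply, hE, smul_eq_mul]
  push_cast
  ring

private theorem P2b_ip (i j : Fin n) : C.ip (C.simple i).1 (C.simple j).1 = C.A i j :=
  C.ip_single i j

private theorem P2b_zero {k : Type*} [Field k]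
    {H : Type*} [Group H] (S : StSys C k H) {F : Type*} [Field F]
    (Ψ : H →* GL C.Idx F) (hU : ∀ u ∈ S.U 1, Ψ u ∈ (C.adS F).U 1) (π : Equiv.Perm (Fin n))
    (hπ : ∀ i j, (∃ t, ff S Ψ i j t ≠ 0) ↔ j = π i) (i j : Fin n) (hne : i ≠ j)
    (h0 : C.A i j = 0) : C.A (π i) (π j) = 0 := by
  rcases C.off (π i) (π j) (fun h => hne (π.injective h)) with h | h
  · exact h
  exfalso
  obtain ⟨s, hs⟩ := (hπ i (π i)).2 rfl
  obtain ⟨t, ht'⟩ := (hπ j (π j)).2 rfl
  obtain ⟨γ, hγ⟩ := C.exists_add (C.simple (π i)) (C.simple (π j)) (by rw [P2b_ip]; exact h)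
  have h1 := comm_entry C S Ψ hU π hπ i j h γ hγ s t
  have h2 : S.x (C.simple i) s * S.x (C.simple j) t * (S.x (C.simple i) s)⁻¹ *
      (S.x (C.simple j) t)⁻¹ = 1 := by
    rw [S.comm (C.simple i) (C.simple j) s t (by rw [P2b_ip, h0])]
    group
  rw [h2, map_one, Units.val_one, Matrix.one_apply_ne (by simp)] at h1
  have h3 := P2b_eps_ne C (C.simple (π i)).1 (C.simple (π j)).1 F
  have h4 := mul_ne_zero (mul_ne_zero h3 hs) ht'
  exact h4 (neg_eq_zero.1 h1.symm)

theorem cartan_perm {k : Type*} [Field k]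
    {H : Type*} [Group H] (S : StSys C k H) {F : Type*} [Field F]
    (Ψ : H →* GL C.Idx F) (hU : ∀ u ∈ S.U 1, Ψ u ∈ (C.adS F).U 1) (π : Equiv.Perm (Fin n))
    (hπ : ∀ i j, (∃ t, ff S Ψ i j t ≠ 0) ↔ j = π i) (i j : Fin n) :
    C.A (π i) (π j) = C.A i j := by
  by_cases hij : i = j
  · rw [hij, C.diag, C.diag]
  rcases C.off i j hij with h | h
  · rw [h]
    exact P2b_zero C S Ψ hU π hπ i j hij h
  · rw [h]
    rcases C.off (π i) (π j) (fun h' => hij (π.injective h')) with h' | h'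
    swap
    · exact h'
    exfalso
    set T : Finset (Fin n × Fin n) :=
      Finset.univ.filter (fun p => p.1 ≠ p.2 ∧ C.A p.1 p.2 = 0) with hT
    have hsub : T.map (π.prodCongr π).toEmbedding ⊆ T := by
      intro p hp
      obtain ⟨q, hq, rfl⟩ := Finset.mem_map.1 hp
      obtain ⟨-, hq1, hq2⟩ := Finset.mem_filter.1 hq
      refine Finset.mem_filter.2 ⟨Finset.mem_univ _, ?_, ?_⟩
      · intro he
        exact hq1 (π.injective he)
      · exact P2b_zero C S Ψ hU π hπ q.1 q.2 hq1 hq2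
    have heq : T.map (π.prodCongr π).toEmbedding = T :=
      Finset.eq_of_subset_of_card_le hsub (by rw [Finset.card_map])
    have hmem : (π i, π j) ∈ T :=
      Finset.mem_filter.2 ⟨Finset.mem_univ _, fun he => hij (π.injective he), h'⟩
    rw [← heq] at hmem
    obtain ⟨q, hq, hqe⟩ := Finset.mem_map.1 hmem
    obtain ⟨-, -, hq2⟩ := Finset.mem_filter.1 hq
    have hq1' : π q.1 = π i := congrArg Prod.fst hqe
    have hq2' : π q.2 = π j := congrArg Prod.snd hqe
    rw [π.injective hq1', π.injective hq2', h] at hq2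
    omega

theorem field_adj {k : Type*} [Field k]
    {H : Type*} [Group H] (S : StSys C k H) {F : Type*} [Field F]
    (Ψ : H →* GL C.Idx F) (hU : ∀ u ∈ S.U 1, Ψ u ∈ (C.adS F).U 1) (π : Equiv.Perm (Fin n))
    (hπ : ∀ i j, (∃ t, ff S Ψ i j t ≠ 0) ↔ j = π i) (i j : Fin n) (hij : C.A i j = -1) (t : k) :
    ff S Ψ i (π i) t * ff S Ψ j (π j) 1 = ff S Ψ i (π i) 1 * ff S Ψ j (π j) t := by
  have hπij : C.A (π i) (π j) = -1 := by
    rw [cartan_perm C S Ψ hU π hπ i j, hij]
  obtain ⟨γ, hγ⟩ := C.exists_add (C.simple (π i)) (C.simple (π j)) (by rw [P2b_ip]; exact hπij)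
  obtain ⟨γ', hγ'⟩ := C.exists_add (C.simple i) (C.simple j) (by rw [P2b_ip]; exact hij)
  have h1 := comm_entry C S Ψ hU π hπ i j hπij γ hγ t 1
  have h2 := comm_entry C S Ψ hU π hπ i j hπij γ hγ 1 t
  rw [S.comm_add _ _ γ' _ _ hγ'] at h1 h2
  rw [mul_one] at h1
  rw [mul_one] at h2
  rw [h1] at h2
  have h3 := P2b_eps_ne C (C.simple (π i)).1 (C.simple (π j)).1 F
  have h4 := neg_injective h2
  rw [mul_assoc, mul_assoc] at h4
  exact mul_left_cancel₀ h3 h4

end SLC
end Pool.Agent.H75.UL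
end
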