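import Pool.Agent.H86.AL.M02
import Pool.Agent.H86.AL.M03
import Pool.Agent.H86.AL.M04
import Pool.Agent.H86.AL.M05
import Pool.Agent.H86.AL.M06
import Pool.Agent.H86.AL.M07

/-!
# M09: collected modules

Pool.Agent.H75.UL.P4
Pool.Agent.H86.UM.Src
Pool.Agent.H86.UM.CT
Pool.Agent.H86.UM.Fib
Pool.Agent.H86.UM.RD3
Pool.Agent.H86.UM.Reg
Pool.Agent.H86.UM.W2
-/

section
/- module Pool.Agent.H75.UL.P4 -/
/-!
# Project UL (MP_978914_al), module P4

Rational chambers.

`g ∈ Gad L`, `g⁻¹ M g` is diagonal with entries `1` on the Cartan part and distinct `e_γ ∈ K`, `≠ 1`,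
on the root vectors. Claim: `g ∈ Gad(K) * {Fil 0}`.
(1) `g e_γ` (column `inr γ` of `g`) spans the eigenspace of `M_L` for `e_γ`; `M - e_γ` is singular
over `K` (its determinant is `0` in `L`), so there is an eigenvector `w_γ ≠ 0` over `K`, and
`g e_γ = c_γ w_γ` with `c_γ ∈ L`.
(2) Bruhat and `exists_lp_inv`: `g = lp t * ν * b`, `ν ∈ N` acting by `w`, `b ∈ U 1`, `t β = 0` if
`Pos (w⁻¹ β)`. CLAIM: `t β ∈ K` (range of `algebraMap`) for all positive `β`. Strong induction on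
`m = ht β`; let `¬ Pos (w⁻¹ β)`, `δ = -w⁻¹ β` positive, `q = ht δ ≥ 1`. By `lp_split (m-1)`,
`lp t = lp t₁ * lp t₂`, `t₁` supported in heights `< m` with values in `K`, so `lp t₁ = mp u₁`
(`mp_lp`). Put `G = (mp u₁)⁻¹ g = lp t₂ ν b`, its columns `inr γ` are `c_γ w'_γ` with `w'_γ` over `K`.
`V := lp t₂ ν M_{≥q} = G M_{≥q}` (`b` preserves `M_{≥q}`, the span of the basis vectors of height
`≥ q`, all root vectors) is spanned over `L` by the `w'_γ`, `ht γ ≥ q`.
(3) Let `P` be the set of roots of negative height in `w {γ | ht γ ≥ q}`. If `z ∈ V` has coordinate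
`0` at all `inr γ`, `γ ∈ P`, then all its Cartan coordinates are `0`: `z = ∑ b_γ lp t₂ e_γ` over
`γ ∈ w{ht ≥ q}`; `lp t₂ e_γ = e_γ + (larger heights)`; if some `b_γ ≠ 0` with `γ ∈ P`, take one of
minimal height: the coordinate of `z` at `γ` is `b_γ`, contradiction; so only `γ` of positive height
occur, and `lp t₂ e_γ` has only positive heights.
(4) `y = lp t₂ e_{-β} ∈ V` (a multiple of `lp t₂ ν e_δ`). As `lp t₂ - 1` satisfies `Fil m`,
`m = ht β`: the coordinates of `y` at negative roots are `1` at `-β` and `0` elsewhere, and the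
Cartan coordinates are `-t β β_i` (`lp_entry`). Let `ρ : L → K` be `K`-linear with `ρ ∘ algebraMap =
id`, applied to coordinates: `y = ∑ a_γ w'_γ`, so `ρ y = ∑ ρ(a_γ) w'_γ ∈ V`, and `z = y - ρ y` has
coordinates `0` at the negative roots. By (3) `t β β_i = ρ (t β β_i) ∈ K` for all `i`; some `β_i ≠ 0`
in `K` (`exists_coeff_ne_zero`), so `t β ∈ K`.
(5) `lp t = mp (lp t')`; `ν₁ ∈ N(K)` acting by `w` (`exists_N`); `mp ν₁` acts by `w` (`mp_acts`), so
`(mp ν₁)⁻¹ ν ∈ N` acts by `1`, is in `T` (`N_one`). `g₁ = lp t' * ν₁`: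
`(mp g₁)⁻¹ g = (mp ν₁)⁻¹ ν b ∈ T U` satisfies `Fil 0`.
-/

set_option autoImplicit false
open Matrix
universe u
namespace Pool.Agent.H75.UL

namespace SLC
variable {n : ℕ} (C : SLC n)

/-- a linear retraction -/
private theorem P4_rho (K L : Type*) [Field K] [Field L] [Algebra K L] :
    ∃ ρ : L →ₗ[K] K, ∀ k : K, ρ (algebraMap K L k) = k := by
  obtain ⟨ρ, hρ⟩ := LinearMap.exists_leftInverse_of_injective (Algebra.linearMap K L)
    (LinearMap.ker_eq_bot.2 (algebraMap K L).injective)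
  exact ⟨ρ, fun k => LinearMap.congr_fun hρ k⟩

/-- the columns of `g` are multiples of vectors over `K` -/
private theorem P4_col {K L : Type*} [Field K] [Field L] [Algebra K L] (M : GL C.Idx K)
    (g : GL C.Idx L) (e : C.Root → K) (he : Function.Injective e) (he1 : ∀ γ, e γ ≠ 1)
    (hM : ((g⁻¹ * C.mp (algebraMap K L) M * g : GL C.Idx L) : Matrix C.Idx C.Idx L) =
      Matrix.diagonal (Sum.elim (fun _ => 1) (fun γ => algebraMap K L (e γ)))) (γ : C.Root) :
    ∃ (c : L) (w : C.Idx → K), c ≠ 0 ∧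
      ∀ a, (g : Matrix C.Idx C.Idx L) a (Sum.inr γ) = c * algebraMap K L (w a) := by
  classical
  set f := algebraMap K L with hf
  have hinj : Function.Injective f := (algebraMap K L).injective
  set D : Matrix C.Idx C.Idx L :=
    Matrix.diagonal (Sum.elim (fun _ => 1) (fun γ => f (e γ))) with hD
  set A : Matrix C.Idx C.Idx L := (M : Matrix C.Idx C.Idx K).map f with hA
  have hAmp : ((C.mp f M : GL C.Idx L) : Matrix C.Idx C.Idx L) = A := C.mp_val f M
  have hAg : A * (g : Matrix C.Idx C.Idx L) = (g : Matrix C.Idx C.Idx L) * D := by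
    rw [← hM, ← hAmp, ← Units.val_mul, ← Units.val_mul]
    congr 1
    group
  have hgA : ((g⁻¹ : GL C.Idx L) : Matrix C.Idx C.Idx L) * A =
      D * ((g⁻¹ : GL C.Idx L) : Matrix C.Idx C.Idx L) := by
    rw [← hM, ← hAmp, ← Units.val_mul, ← Units.val_mul]
    congr 1
    group
  -- the column
  set v : C.Idx → L := fun a => (g : Matrix C.Idx C.Idx L) a (Sum.inr γ) with hv
  have hv0 : v ≠ 0 := by
    intro hc
    have h1 : (((g⁻¹ : GL C.Idx L) : Matrix C.Idx C.Idx L) * (g : Matrix C.Idx C.Idx L))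
        (Sum.inr γ) (Sum.inr γ) = 1 := by
      rw [← Units.val_mul, inv_mul_cancel, Units.val_one, Matrix.one_apply_eq]
    rw [Matrix.mul_apply] at h1
    rw [Finset.sum_eq_zero] at h1
    · exact one_ne_zero h1.symm
    · intro a _
      have := congrFun hc a
      simp only [hv, Pi.zero_apply] at this
      rw [this, mul_zero]
  have hAv : A *ᵥ v = f (e γ) • v := by
    funext a
    have h1 := congrFun (congrFun hAg a) (Sum.inr γ)
    rw [hD, Matrix.mul_diagonal, Matrix.mul_apply] at h1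
    rw [Pi.smul_apply, smul_eq_mul, mul_comm]
    exact h1
  -- an eigenvector over K
  have hdet : ((M : Matrix C.Idx C.Idx K) - e γ • (1 : Matrix C.Idx C.Idx K)).det = 0 := by
    apply hinj
    rw [map_zero, RingHom.map_det]
    rw [← Matrix.exists_mulVec_eq_zero_iff]
    refine ⟨v, hv0, ?_⟩
    have h1 : f.mapMatrix ((M : Matrix C.Idx C.Idx K) - e γ • (1 : Matrix C.Idx C.Idx K)) =
        A - f (e γ) • (1 : Matrix C.Idx C.Idx L) := by
      rw [map_sub]
      congr 1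
      ext a b
      rw [RingHom.mapMatrix_apply, Matrix.map_apply, Matrix.smul_apply, Matrix.smul_apply,
        smul_eq_mul, smul_eq_mul, map_mul, Matrix.one_apply, Matrix.one_apply]
      split_ifs <;> simp
    rw [h1, Matrix.sub_mulVec, hAv, Matrix.smul_mulVec, Matrix.one_mulVec, sub_self]
  obtain ⟨w, hw0, hw⟩ := Matrix.exists_mulVec_eq_zero_iff.2 hdet
  rw [Matrix.sub_mulVec, Matrix.smul_mulVec, Matrix.one_mulVec, sub_eq_zero] at hw
  have hAw : A *ᵥ (f ∘ w) = f (e γ) • (f ∘ w) := by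
    funext a
    rw [hA, ← RingHom.map_mulVec, hw]
    simp
  set z := ((g⁻¹ : GL C.Idx L) : Matrix C.Idx C.Idx L) *ᵥ (f ∘ w) with hz
  have hDz : D *ᵥ z = f (e γ) • z := by
    rw [hz, Matrix.mulVec_mulVec, ← hgA, ← Matrix.mulVec_mulVec, hAw, Matrix.mulVec_smul]
  have hz0 : ∀ a, a ≠ Sum.inr γ → z a = 0 := by
    intro a ha
    have h1 := congrFun hDz a
    rw [hD, Matrix.mulVec_diagonal, Pi.smul_apply, smul_eq_mul] at h1
    rcases a with i | δ
    · simp only [Sum.elim_inl, one_mul] at h1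
      have h2 : (f (e γ) - 1) * z (Sum.inl i) = 0 := by
        rw [sub_mul, one_mul, ← h1, sub_self]
      rcases mul_eq_zero.1 h2 with h3 | h3
      · exfalso
        apply he1 γ
        apply hinj
        rw [map_one]
        exact sub_eq_zero.1 h3
      · exact h3
    · simp only [Sum.elim_inr] at h1
      have h2 : (f (e δ) - f (e γ)) * z (Sum.inr δ) = 0 := by
        rw [sub_mul, h1, sub_self]
      rcases mul_eq_zero.1 h2 with h3 | h3
      · exfalso
        apply ha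
        rw [he (hinj (sub_eq_zero.1 h3))]
      · exact h3
  have hgz : f ∘ w = (g : Matrix C.Idx C.Idx L) *ᵥ z := by
    rw [hz, Matrix.mulVec_mulVec, ← Units.val_mul, mul_inv_cancel, Units.val_one,
      Matrix.one_mulVec]
  have hfw : ∀ a, f (w a) = (g : Matrix C.Idx C.Idx L) a (Sum.inr γ) * z (Sum.inr γ) := by
    intro a
    have h1 := congrFun hgz a
    rw [Function.comp_apply, Matrix.mulVec, dotProduct,
      Finset.sum_eq_single (Sum.inr γ)] at h1
    · exact h1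
    · intro b _ hb
      rw [hz0 b hb, mul_zero]
    · intro hc
      exact absurd (Finset.mem_univ _) hc
  have hzγ : z (Sum.inr γ) ≠ 0 := by
    intro hc
    apply hw0
    funext a
    apply hinj
    rw [hfw a, hc, mul_zero, Pi.zero_apply, map_zero]
  refine ⟨(z (Sum.inr γ))⁻¹, w, inv_ne_zero hzγ, fun a => ?_⟩
  rw [hfw a]
  field_simp

/-- the main step -/
private theorem P4_step {K L : Type*} [Field K] [Field L] [Algebra K L] (Λ ν b : GL C.Idx L)
    (w : Equiv.Perm C.Root) (m : ℤ)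
    (hΛ0 : C.Fil 0 (Λ : Matrix C.Idx C.Idx L))
    (hΛi : C.Fil 0 ((Λ⁻¹ : GL C.Idx L) : Matrix C.Idx C.Idx L))
    (hΛm : C.Fil m ((Λ : Matrix C.Idx C.Idx L) - 1))
    (hν1 : ∀ i γ, (ν : Matrix C.Idx C.Idx L) (Sum.inl i) (Sum.inr γ) = 0)
    (hν3 : ∀ γ γ', γ' ≠ w γ → (ν : Matrix C.Idx C.Idx L) (Sum.inr γ') (Sum.inr γ) = 0)
    (hν4 : ∀ γ, (ν : Matrix C.Idx C.Idx L) (Sum.inr (w γ)) (Sum.inr γ) ≠ 0)
    (hb : C.Fil 0 (b : Matrix C.Idx C.Idx L))
    (hbi : C.Fil 0 ((b⁻¹ : GL C.Idx L) : Matrix C.Idx C.Idx L))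
    (hcol : ∀ γ, ∃ (c : L) (w' : C.Idx → K), c ≠ 0 ∧
      ∀ a, ((Λ * ν * b : GL C.Idx L) : Matrix C.Idx C.Idx L) a (Sum.inr γ) =
        c * algebraMap K L (w' a))
    (β δ : C.Root) (hβ : ht β.1 = m) (hδ : C.Pos δ) (hw : w δ = -β) (i : Fin n) :
    ∃ k : K, (Λ : Matrix C.Idx C.Idx L) (Sum.inl i) (Sum.inr (-β)) = algebraMap K L k := by
  classical
  set f := algebraMap K L with hf
  obtain ⟨ρ, hρ⟩ := P4_rho K L
  choose c w' hc0 hcw using hcol
  set G : Matrix C.Idx C.Idx L := ((Λ * ν * b : GL C.Idx L) : Matrix C.Idx C.Idx L) with hG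
  have hGmul : G = (Λ : Matrix C.Idx C.Idx L) * (ν : Matrix C.Idx C.Idx L) *
      (b : Matrix C.Idx C.Idx L) := by
    rw [hG, Units.val_mul, Units.val_mul]
  have hδ' : 0 < ht δ.1 := hδ
  -- x = b⁻¹ e_δ
  set x : C.Idx → L := fun a => ((b⁻¹ : GL C.Idx L) : Matrix C.Idx C.Idx L) a (Sum.inr δ) with hx
  have hx0 : ∀ a, C.hti a ≤ 0 → x a = 0 := by
    intro a ha
    apply hbi
    show C.hti a < ht δ.1 + 0
    omega
  have hbx : (b : Matrix C.Idx C.Idx L) *ᵥ x = Pi.single (Sum.inr δ) 1 := by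
    funext a
    have h1 : ((b : Matrix C.Idx C.Idx L) * ((b⁻¹ : GL C.Idx L) : Matrix C.Idx C.Idx L))
        a (Sum.inr δ) = (1 : Matrix C.Idx C.Idx L) a (Sum.inr δ) := by
      rw [← Units.val_mul, mul_inv_cancel, Units.val_one]
    rw [Matrix.mul_apply] at h1
    rw [Matrix.mulVec, dotProduct, Pi.single_apply]
    rw [Matrix.one_apply] at h1
    exact h1
  set n0 := (ν : Matrix C.Idx C.Idx L) (Sum.inr (w δ)) (Sum.inr δ) with hn0
  have hn0' : n0 ≠ 0 := hν4 δ
  have hνδ : (ν : Matrix C.Idx C.Idx L) *ᵥ Pi.single (Sum.inr δ) 1 =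
      Pi.single (Sum.inr (w δ)) n0 := by
    funext a
    rw [Matrix.mulVec_single_one, Matrix.col_apply, Pi.single_apply]
    rcases a with j | γ'
    · rw [hν1, if_neg (by simp)]
    · by_cases h : γ' = w δ
      · rw [h, if_pos rfl]
      · rw [hν3 δ γ' h, if_neg (fun hc => h (Sum.inr.inj hc))]
  set y : C.Idx → L := fun a => (Λ : Matrix C.Idx C.Idx L) a (Sum.inr (-β)) with hy
  have hGx : G *ᵥ x = n0 • y := by
    rw [hGmul, ← Matrix.mulVec_mulVec, ← Matrix.mulVec_mulVec, hbx, hνδ, hw]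
    funext a
    rw [Matrix.mulVec_single, Pi.smul_apply, Pi.smul_apply, Matrix.col_apply]
    simp [hy, mul_comm]
  -- coefficients
  let Aγ : C.Root → L := fun γ => n0⁻¹ * c γ * x (Sum.inr γ)
  have hA0 : ∀ γ, ¬ C.Pos γ → Aγ γ = 0 := by
    intro γ hγ
    show n0⁻¹ * c γ * x (Sum.inr γ) = 0
    rw [hx0 (Sum.inr γ) (not_lt.1 hγ), mul_zero]
  have hyA : ∀ a, y a = ∑ γ, Aγ γ * f (w' γ a) := by
    intro a
    have h1 := congrFun hGx a
    rw [Pi.smul_apply, smul_eq_mul, Matrix.mulVec, dotProduct, Fintype.sum_sum_type,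
      Finset.sum_eq_zero, zero_add] at h1
    · have h2 : y a = n0⁻¹ * (n0 * y a) := by rw [← mul_assoc, inv_mul_cancel₀ hn0', one_mul]
      rw [h2, ← h1, Finset.mul_sum]
      refine Finset.sum_congr rfl fun γ _ => ?_
      rw [hcw γ a]
      show _ = n0⁻¹ * c γ * x (Sum.inr γ) * f (w' γ a)
      ring
    · intro j _
      rw [hx0 (Sum.inl j) le_rfl, mul_zero]
  have hρy : ∀ a, ρ (y a) = ∑ γ, ρ (Aγ γ) * w' γ a := by
    intro a
    rw [hyA, map_sum]
    refine Finset.sum_congr rfl fun γ _ => ?_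
    have h1 : Aγ γ * f (w' γ a) = w' γ a • Aγ γ := by
      rw [Algebra.smul_def, mul_comm]
    rw [h1, map_smul, smul_eq_mul, mul_comm]
  -- z = y - f (ρ y)
  set z : C.Idx → L := fun a => y a - f (ρ (y a)) with hz
  let Bv : C.Idx → L := Sum.elim (fun _ => 0) (fun γ => (Aγ γ - f (ρ (Aγ γ))) * (c γ)⁻¹)
  have hB0 : ∀ γ, ¬ C.Pos γ → Bv (Sum.inr γ) = 0 := by
    intro γ hγ
    show (Aγ γ - f (ρ (Aγ γ))) * (c γ)⁻¹ = 0
    rw [hA0 γ hγ]
    simp
  have hzG : z = G *ᵥ Bv := by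
    funext a
    rw [Matrix.mulVec, dotProduct, Fintype.sum_sum_type]
    show y a - f (ρ (y a)) = (∑ j, G a (Sum.inl j) * 0) +
      ∑ γ, G a (Sum.inr γ) * ((Aγ γ - f (ρ (Aγ γ))) * (c γ)⁻¹)
    simp only [mul_zero, Finset.sum_const_zero, zero_add]
    rw [hρy, map_sum]
    conv_lhs => rw [hyA a]
    rw [← Finset.sum_sub_distrib]
    refine Finset.sum_congr rfl fun γ _ => ?_
    rw [hcw γ a, map_mul]
    have h3 := hc0 γ
    field_simp
  set x' : C.Idx → L := (ν : Matrix C.Idx C.Idx L) *ᵥ ((b : Matrix C.Idx C.Idx L) *ᵥ Bv) with hx'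
  have hzx : z = (Λ : Matrix C.Idx C.Idx L) *ᵥ x' := by
    rw [hzG, hGmul, hx', Matrix.mulVec_mulVec, Matrix.mulVec_mulVec]
  have hx'l : ∀ j, x' (Sum.inl j) = 0 := by
    intro j
    have h1 : ∀ k : Fin n, ((b : Matrix C.Idx C.Idx L) *ᵥ Bv) (Sum.inl k) = 0 := by
      intro k
      rw [Matrix.mulVec, dotProduct, Fintype.sum_sum_type]
      rw [Finset.sum_eq_zero, Finset.sum_eq_zero, zero_add]
      · intro γ _
        by_cases hγ : C.Pos γ
        · have h2 : (b : Matrix C.Idx C.Idx L) (Sum.inl k) (Sum.inr γ) = 0 := by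
            apply hb
            show (0:ℤ) < ht γ.1 + 0
            have : 0 < ht γ.1 := hγ
            omega
          rw [h2, zero_mul]
        · rw [hB0 γ hγ, mul_zero]
      · intro k' _
        show _ * (0 : L) = 0
        rw [mul_zero]
    rw [hx', Matrix.mulVec, dotProduct, Fintype.sum_sum_type]
    rw [Finset.sum_eq_zero, Finset.sum_eq_zero, zero_add]
    · intro γ _
      rw [hν1, zero_mul]
    · intro k _
      rw [h1, mul_zero]
  have hzneg : ∀ a, C.hti a < 0 → z a = 0 := by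
    intro a ha
    rcases a with j | γ
    · exact absurd ha (lt_irrefl _)
    · have h1 : ((Λ : Matrix C.Idx C.Idx L) - 1) (Sum.inr γ) (Sum.inr (-β)) = 0 := by
        apply hΛm
        show ht γ.1 < ht (-β).1 + m
        rw [SLC.Root.neg_val, ht_neg, hβ]
        have : ht γ.1 < 0 := ha
        omega
      rw [Matrix.sub_apply, sub_eq_zero] at h1
      show y (Sum.inr γ) - f (ρ (y (Sum.inr γ))) = 0
      have h2 : y (Sum.inr γ) = f ((1 : Matrix C.Idx C.Idx K) (Sum.inr γ) (Sum.inr (-β))) := by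
        show (Λ : Matrix C.Idx C.Idx L) (Sum.inr γ) (Sum.inr (-β)) = _
        rw [h1, Matrix.one_apply, Matrix.one_apply]
        split_ifs <;> simp
      rw [h2, hρ, sub_self]
  have hx'z : x' = ((Λ⁻¹ : GL C.Idx L) : Matrix C.Idx C.Idx L) *ᵥ z := by
    rw [hzx, Matrix.mulVec_mulVec, ← Units.val_mul, inv_mul_cancel, Units.val_one,
      Matrix.one_mulVec]
  have hx'neg : ∀ a, C.hti a < 0 → x' a = 0 := by
    intro a ha
    rw [hx'z, Matrix.mulVec, dotProduct]
    apply Finset.sum_eq_zero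
    intro a' _
    by_cases h : C.hti a < C.hti a' + 0
    · rw [hΛi a a' h, zero_mul]
    · rw [hzneg a' (by omega), mul_zero]
  have hzl : z (Sum.inl i) = 0 := by
    rw [hzx, Matrix.mulVec, dotProduct]
    apply Finset.sum_eq_zero
    intro a' _
    rcases a' with j | γ
    · rw [hx'l j, mul_zero]
    · by_cases h : ht γ.1 < 0
      · rw [hx'neg (Sum.inr γ) h, mul_zero]
      · have h2 : (Λ : Matrix C.Idx C.Idx L) (Sum.inl i) (Sum.inr γ) = 0 := by
          apply hΛ0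
          show (0:ℤ) < ht γ.1 + 0
          have := C.ht_ne_zero γ
          omega
        rw [h2, zero_mul]
  exact ⟨ρ (y (Sum.inl i)), sub_eq_zero.1 hzl⟩

theorem rational_chamber {K L : Type*} [Field K] [Field L] [Algebra K L] (M : GL C.Idx K)
    (g : GL C.Idx L) (hg : g ∈ C.Gad L) (e : C.Root → K) (he : Function.Injective e)
    (he1 : ∀ γ, e γ ≠ 1)
    (hM : ((g⁻¹ * C.mp (algebraMap K L) M * g : GL C.Idx L) : Matrix C.Idx C.Idx L) =
      Matrix.diagonal (Sum.elim (fun _ => 1) (fun γ => algebraMap K L (e γ)))) :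
    ∃ g₁ ∈ C.Gad K, C.Fil 0 (((C.mp (algebraMap K L) g₁)⁻¹ * g : GL C.Idx L) :
      Matrix C.Idx C.Idx L) := by
  classical
  set f := algebraMap K L with hf
  have hinj : Function.Injective f := (algebraMap K L).injective
  set S := C.adS L with hS
  have hg' : g ∈ S.gen := by rw [hS, C.gen_adS]; exact hg
  obtain ⟨u, hu, ν, hν, v, hv, hguv⟩ := S.bruhat g hg'
  obtain ⟨w, hwW, hacts, _⟩ := S.N_acts ν hν
  obtain ⟨t, ht0, b', hb', hlp⟩ := S.exists_lp_inv ν w hacts u hu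
  obtain ⟨_, hν1, _, hν3, hν4⟩ := C.N_mono ν w hacts hν
  set b := b' * v with hbdef
  have hb : b ∈ S.U 1 := (S.U 1).mul_mem hb' hv
  have hgb : g = S.lp C.posList t * ν * b := by
    rw [hguv, hlp, hbdef]
    group
  have hb0 : C.Fil 0 (b : Matrix C.Idx C.Idx L) := C.Fil_U_zero b hb
  have hbi0 : C.Fil 0 ((b⁻¹ : GL C.Idx L) : Matrix C.Idx C.Idx L) :=
    C.Fil_U_zero b⁻¹ ((S.U 1).inv_mem hb)
  have hcolg := P4_col C M g e he he1 hM
  -- the coordinates are rational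
  have key : ∀ N : ℕ, ∀ β : C.Root, C.Pos β → ht β.1 = N → ∃ k : K, t β = f k := by
    intro N
    induction N using Nat.strong_induction_on with
    | _ N ih =>
      intro β hβ hN
      by_cases hPos : C.Pos (w⁻¹ β)
      · exact ⟨0, by rw [ht0 β hPos, map_zero]⟩
      have hδ : C.Pos (-(w⁻¹ β)) := (C.not_pos_iff _).1 hPos
      have hwδ : w (-(w⁻¹ β)) = -β := by
        rw [C.W_neg w hwW, ← Equiv.Perm.mul_apply, mul_inv_cancel, Equiv.Perm.one_apply]
      have hβ' : 0 < ht β.1 := hβ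
      have hm : (1:ℤ) ≤ ht β.1 := by omega
      set t₁ : C.Root → L := fun γ => if ht γ.1 ≤ ht β.1 - 1 then t γ else 0 with ht₁
      set t₂ : C.Root → L := fun γ => if ht γ.1 ≤ ht β.1 - 1 then 0 else t γ with ht₂
      have hsplit : S.lp C.posList t = S.lp C.posList t₁ * S.lp C.posList t₂ :=
        S.lp_split (ht β.1 - 1) t
      have hs : ∀ γ, ∃ k : K, C.Pos γ → t₁ γ = f k := by
        intro γ
        by_cases hγ : C.Pos γ
        · by_cases h1 : ht γ.1 ≤ ht β.1 - 1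
          · have h2 : 0 < ht γ.1 := hγ
            obtain ⟨k, hk⟩ := ih (ht γ.1).toNat (by omega) γ hγ (by omega)
            exact ⟨k, fun _ => by rw [ht₁]; simp only [if_pos h1]; exact hk⟩
          · exact ⟨0, fun _ => by rw [ht₁]; simp only [if_neg h1]; exact (map_zero f).symm⟩
        · exact ⟨0, fun h => absurd h hγ⟩
      choose s₁ hs₁ using hs
      set u₁ := (C.adS K).lp C.posList s₁ with hu₁
      have hmp₁ : S.lp C.posList t₁ = C.mp f u₁ := by
        rw [hu₁, C.mp_lp f s₁]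
        apply S.lp_congr
        intro γ hγ
        exact hs₁ γ ((C.mem_posList γ).1 hγ)
      set Λ := S.lp C.posList t₂ with hΛ
      have ht20 : ∀ γ : C.Root, ht γ.1 < ht β.1 → t₂ γ = 0 := by
        intro γ hγ
        rw [ht₂]
        simp only
        rw [if_pos (by omega)]
      have hΛU : Λ ∈ S.U (ht β.1) := S.lp_mem (ht β.1) t₂ ht20
      have hΛU1 : Λ ∈ S.U 1 := S.U_mono hm hΛU
      have hGeq : Λ * ν * b = (C.mp f u₁)⁻¹ * g := by
        rw [hgb, hsplit, hmp₁]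
        group
      have hcol : ∀ γ, ∃ (c : L) (w' : C.Idx → K), c ≠ 0 ∧
          ∀ a, ((Λ * ν * b : GL C.Idx L) : Matrix C.Idx C.Idx L) a (Sum.inr γ) =
            c * f (w' a) := by
        intro γ
        obtain ⟨c, w', hc, hcw⟩ := hcolg γ
        refine ⟨c, fun a => ∑ a', ((u₁⁻¹ : GL C.Idx K) : Matrix C.Idx C.Idx K) a a' * w' a', hc,
          fun a => ?_⟩
        rw [hGeq, ← map_inv, Units.val_mul, C.mp_val, Matrix.mul_apply, map_sum, Finset.mul_sum]
        refine Finset.sum_congr rfl fun a' _ => ?_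
        rw [Matrix.map_apply, hcw a', map_mul]
        ring
      obtain ⟨i, hi⟩ := C.exists_coeff_ne_zero β L
      obtain ⟨k, hk⟩ := P4_step C Λ ν b w (ht β.1) (C.Fil_U_zero Λ hΛU1)
        (C.Fil_U_zero Λ⁻¹ ((S.U 1).inv_mem hΛU1)) (C.Fil_U (ht β.1) hm Λ hΛU) hν1 hν3 hν4 hb0 hbi0
        hcol β (-(w⁻¹ β)) rfl hδ hwδ i
      have hent := C.lp_entry t₂ (ht β.1) hm ht20 β rfl i
      have ht2β : t₂ β = t β := by
        rw [ht₂]
        simp only
        rw [if_neg (by omega)]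
      rw [ht2β] at hent
      have hk' : -(t β * (β.1 i : L)) = f k := by
        rw [← hent]
        exact hk
      refine ⟨-k * ((β.1 i : ℤ) : K)⁻¹, ?_⟩
      rw [map_mul, map_neg, map_inv₀, map_intCast, ← hk', neg_neg, mul_assoc,
        mul_inv_cancel₀ hi, mul_one]
  have hs : ∀ γ, ∃ k : K, (C.Pos γ → t γ = f k) ∧ (¬ C.Pos γ → k = 0) := by
    intro γ
    by_cases hγ : C.Pos γ
    · have h2 : 0 < ht γ.1 := hγ
      obtain ⟨k, hk⟩ := key (ht γ.1).toNat γ hγ (by omega)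
      exact ⟨k, fun _ => hk, fun h => absurd hγ h⟩
    · exact ⟨0, fun h => absurd h hγ, fun _ => rfl⟩
  choose s hs1 hs2 using hs
  have hmps : S.lp C.posList t = C.mp f ((C.adS K).lp C.posList s) := by
    rw [C.mp_lp f s]
    apply S.lp_congr
    intro γ hγ
    exact hs1 γ ((C.mem_posList γ).1 hγ)
  obtain ⟨ν₁, hν₁, hacts₁⟩ := (C.adS K).exists_N w hwW
  have hacts₁' := C.mp_acts f ν₁ w hν₁ hacts₁
  have hτN : (C.mp f ν₁)⁻¹ * ν ∈ S.N := S.N.mul_mem (S.N.inv_mem (C.mp_N f ν₁ hν₁)) hν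
  have hτacts : S.Acts ((C.mp f ν₁)⁻¹ * ν) 1 := by
    obtain ⟨c, hc0, hc⟩ := hacts
    obtain ⟨c', hc0', hc'⟩ := hacts₁'
    refine ⟨fun β => (c' β)⁻¹ * c β, fun β => mul_ne_zero (inv_ne_zero (hc0' β)) (hc0 β),
      fun β u => ?_⟩
    have e1 := hc β u
    have e2 := hc' β ((c' β)⁻¹ * (c β * u))
    rw [← mul_assoc (c' β), mul_inv_cancel₀ (hc0' β), one_mul] at e2
    have e3 : (C.mp f ν₁)⁻¹ * ν * S.x β u * ((C.mp f ν₁)⁻¹ * ν)⁻¹ =
        (C.mp f ν₁)⁻¹ * (ν * S.x β u * ν⁻¹) * C.mp f ν₁ := by group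
    rw [e3, e1]
    have e4 : S.x (w β) (c β * u) = C.mp f ν₁ * S.x β ((c' β)⁻¹ * (c β * u)) * (C.mp f ν₁)⁻¹ :=
      e2.symm
    rw [e4, Equiv.Perm.one_apply, ← mul_assoc (c' β)⁻¹]
    group
  have hτT := C.N_one _ hτacts hτN
  refine ⟨(C.adS K).lp C.posList s * ν₁, ?_, ?_⟩
  · rw [← C.gen_adS]
    apply (C.adS K).gen.mul_mem
    · apply (C.adS K).U_le_gen 1
      apply (C.adS K).lp_mem 1
      intro γ hγ
      apply hs2
      intro hc
      have : 0 < ht γ.1 := hc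
      omega
    · exact (C.adS K).N_le_gen hν₁
  · have e1 : (C.mp f ((C.adS K).lp C.posList s * ν₁))⁻¹ * g = ((C.mp f ν₁)⁻¹ * ν) * b := by
      rw [map_mul, ← hmps, hgb]
      group
    rw [e1, Units.val_mul]
    have h1 := C.Fil_mul (C.Fil_T _ hτT) hb0
    rw [add_zero] at h1
    exact h1

end SLC

end Pool.Agent.H75.UL
end

section
/- module Pool.Agent.H86.UM.Src -/
/-!
# Project UM: abstract source groups

`Src ι E k`: a group `E` with the data of a group of Lie type used in the proofs: unipotent group `U`,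
torus `T`, for each simple orbit `J : ι` a simple root group `X J ≤ U` with a coordinate
`q J : X J → k` (additive), the character `a J` by which `T` acts on it, and an element `ν J` which maps
`X J` to the opposite root group. `k0` is an infinite subfield of `k`, and `T` contains for each `J` and
each `s ∈ k0`, `s ≠ 0`, an element with `a J = s ^ N` and `a J' = 1` for `J' ≠ J`.

Target: a homomorphism `Ψ : E →* GL C.Idx F` into `C.Gad F` with `Ψ U ≤ U` and `Ψ T ≤ B`.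
-/

set_option autoImplicit false
open Matrix

namespace Pool.Agent.H86.UM

open Pool.Agent.H75.UL

/-- Abstract source group. -/
structure Src (ι : Type) (E : Type*) [Group E] (k : Type*) [Field k] where
  U : Subgroup E
  T : Subgroup E
  X : ι → Subgroup E
  q : ι → E → k
  a : ι → E → k
  ν : ι → E
  k0 : Subfield k
  N : ℕ
  T_comm : ∀ s ∈ T, ∀ t ∈ T, s * t = t * s
  T_conj_U : ∀ h ∈ T, ∀ u ∈ U, h * u * h⁻¹ ∈ U
  X_le : ∀ J, X J ≤ U
  q_mul : ∀ J, ∀ x ∈ X J, ∀ y ∈ X J, q J (x * y) = q J x + q J y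
  a_mul : ∀ J, ∀ s ∈ T, ∀ t ∈ T, a J (s * t) = a J s * a J t
  a_ne : ∀ J, ∀ h ∈ T, a J h ≠ 0
  X_conj : ∀ J, ∀ h ∈ T, ∀ x ∈ X J, h * x * h⁻¹ ∈ X J
  q_conj : ∀ J, ∀ h ∈ T, ∀ x ∈ X J, q J (h * x * h⁻¹) = a J h * q J x
  q_smul : ∀ J, ∀ c ∈ k0, ∀ x ∈ X J, ∃ y ∈ X J, q J y = c * q J x
  ker_q : ∀ J, ∀ x ∈ X J, q J x = 0 → x ∈ ⁅X J, X J⁆
  cent : ∀ J, ∀ h ∈ T, a J h = 1 → ∀ x ∈ X J, h * x = x * h
  cent_neg : ∀ J, ∀ h ∈ T, a J h = 1 → ∀ x ∈ X J,
    h * (ν J * x * (ν J)⁻¹) = (ν J * x * (ν J)⁻¹) * h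
  k0_inf : Infinite k0
  N_ne : N ≠ 0
  sep : ∀ J, ∀ s ∈ k0, s ≠ 0 → ∃ h ∈ T, a J h = s ^ N ∧ ∀ J', J' ≠ J → a J' h = 1
  ν_conj : ∀ J, ∀ h ∈ T, (ν J)⁻¹ * h * ν J ∈ T
  a_ν : ∀ J, ∀ h ∈ T, a J h ∈ k0 → a J ((ν J)⁻¹ * h * ν J) = (a J h)⁻¹

variable {n : ℕ} (C : SLC n)

/-- Hypotheses on a homomorphism from a source group to the adjoint group. -/
structure Tgt {ι : Type} {E : Type*} [Group E] {k : Type*} [Field k] (S : Src ι E k) {F : Type*}
    [Field F] (Ψ : E →* GL C.Idx F) : Prop where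
  mem : ∀ x, Ψ x ∈ C.Gad F
  U_le : ∀ u ∈ S.U, Ψ u ∈ (C.adS F).U 1
  T_le : ∀ h ∈ S.T, C.Fil 0 (Ψ h : Matrix C.Idx C.Idx F)
  /-- nonvanishing -/
  nonvan : ∀ j, ∃ J, ∃ x ∈ S.X J, C.xi j (Ψ x : Matrix C.Idx C.Idx F) ≠ 0
  occ : ∀ J, ∃ j, ∃ x ∈ S.X J, C.xi j (Ψ x : Matrix C.Idx C.Idx F) ≠ 0

/-- `fib j` is the orbit belonging to the simple root `j` of the target. -/
structure Fib {ι : Type} {E : Type*} [Group E] {k : Type*} [Field k] (S : Src ι E k) {F : Type*}
    [Field F] (Ψ : E →* GL C.Idx F) (fib : Fin n → ι) : Prop where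
  surj : Function.Surjective fib
  ne : ∀ j, ∃ x ∈ S.X (fib j), C.xi j (Ψ x : Matrix C.Idx C.Idx F) ≠ 0
  zero : ∀ j J, J ≠ fib j → ∀ x ∈ S.X J, C.xi j (Ψ x : Matrix C.Idx C.Idx F) = 0
  chi_one : ∀ j, ∀ h ∈ S.T, S.a (fib j) h = 1 →
    C.chi (Ψ h : Matrix C.Idx C.Idx F) (C.simple j) = 1
  /-- on elements acting by `s ^ N` the character is a polynomial map -/
  poly : ∀ j, ∃ Φ : S.k0 → F, (∀ s t, Φ (s + t) = Φ s + Φ t) ∧ Φ 1 = 1 ∧
    (∀ h ∈ S.T, ∀ s : S.k0, s ≠ 0 → S.a (fib j) h = (s : k) ^ S.N →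
      C.chi (Ψ h : Matrix C.Idx C.Idx F) (C.simple j) = Φ (s ^ S.N)) ∧
    ∀ s r : S.k0, Φ (s ^ S.N * r) = Φ (s ^ S.N) * Φ r

end Pool.Agent.H86.UM
end

section
/- module Pool.Agent.H86.UM.CT -/
/-!
# Project UM, module CT: conjugation of the torus

`torus_chamber'`: copy the proof of `torus_chamber` (H75/UL/T9.lean); the hypothesis `hinj` is not
used there.
`conj_torus'`: as in `conj_torus` of H75/UL/P3a.lean: `t₀ ∈ S.T` regular; `Ψ t₀ = τ u` (`upper`),
`chi τ = chi (Ψ t₀)` (`chi_mul_U`), `conj_T` gives `w ∈ U 1` with `w⁻¹ (Ψ t₀) w = τ`; for `h ∈ S.T`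
`w⁻¹ (Ψ h) w` is in `Gad`, satisfies `Fil 0`, commutes with `τ`, so is in `T` (`centralizer_B`).
`Tgt_conj`: the homomorphism `w⁻¹ Ψ w`, `w ∈ U 1`, satisfies the same hypotheses with the same `fib`,
as `xi j` is invariant under conjugation by elements of `U 1` (`xi_mul`, `xi_inv`) and `chi` of elements
of `B` as well (`chi_mul`).
-/

set_option autoImplicit false
open Matrix

universe u
namespace Pool.Agent.H75.UL

namespace SLC
variable {n : ℕ} (C : SLC n) {K : Type*} [Field K]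

/-- `M` strictly lowers the height. -/
private def CT_Low {R : Type*} [CommRing R] (M : Matrix C.Idx C.Idx R) : Prop :=
  ∀ a b, C.hti b ≤ C.hti a → M a b = 0

private theorem CT_low_zero {R : Type*} [CommRing R] : C.CT_Low (0 : Matrix C.Idx C.Idx R) :=
  fun _ _ _ => rfl

private theorem CT_low_add {R : Type*} [CommRing R] {M N : Matrix C.Idx C.Idx R}
    (hM : C.CT_Low M) (hN : C.CT_Low N) : C.CT_Low (M + N) := by
  intro a b hab
  rw [Matrix.add_apply, hM a b hab, hN a b hab, add_zero]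

private theorem CT_low_smul {R : Type*} [CommRing R] (c : R) {M : Matrix C.Idx C.Idx R}
    (hM : C.CT_Low M) : C.CT_Low (c • M) := by
  intro a b hab
  rw [Matrix.smul_apply, hM a b hab, smul_zero]

private theorem CT_low_mul {R : Type*} [CommRing R] {M N : Matrix C.Idx C.Idx R}
    (hM : C.CT_Low M) (hN : C.CT_Low N) : C.CT_Low (M * N) := by
  intro a b hab
  rw [Matrix.mul_apply]
  refine Finset.sum_eq_zero fun c _ => ?_
  by_cases h1 : C.hti c ≤ C.hti a
  · rw [hM a c h1, zero_mul]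
  · rw [hN c b (by omega), mul_zero]

private theorem CT_low_E {R : Type*} [CommRing R] (α : C.Root) (hα : ht α.1 < 0) :
    C.CT_Low ((C.E α).map (Int.cast : ℤ → R)) := by
  have h : ∀ a b, C.hti b ≤ C.hti a → C.E α a b = 0 := by
    intro a b hab
    rcases a with i | γ <;> rcases b with j | β
    · rfl
    · simp only [hti, Sum.elim_inl, Sum.elim_inr] at hab
      simp only [E]
      rw [if_neg]
      intro h1
      rw [h1, ht_neg] at hab
      omega
    · simp only [hti, Sum.elim_inl, Sum.elim_inr] at hab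
      simp only [E]
      rw [if_neg]
      intro h1
      rw [h1] at hab
      omega
    · simp only [hti, Sum.elim_inr] at hab
      simp only [E]
      rw [if_neg]
      intro h1
      rw [h1, ht_add] at hab
      omega
  intro a b hab
  rw [Matrix.map_apply, h a b hab, Int.cast_zero]

private theorem CT_low_F {R : Type*} [CommRing R] (α : C.Root) (hα : ht α.1 < 0) :
    C.CT_Low ((C.F α).map (Int.cast : ℤ → R)) := by
  have h : ∀ a b, C.hti b ≤ C.hti a → C.F α a b = 0 := by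
    intro a b hab
    rcases a with i | γ <;> rcases b with j | β
    · rfl
    · rfl
    · rfl
    · simp only [hti, Sum.elim_inr] at hab
      simp only [F]
      rw [if_neg]
      rintro ⟨h1, h2⟩
      rw [h1, h2, ht_neg] at hab
      omega
  intro a b hab
  rw [Matrix.map_apply, h a b hab, Int.cast_zero]

private theorem CT_low_xg (α : C.Root) (hα : ht α.1 < 0) (t : K) :
    C.CT_Low ((C.xg K α t : Matrix C.Idx C.Idx K) - 1) := by
  have h1 : (C.xg K α t : Matrix C.Idx C.Idx K) - 1 =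
      t • (C.E α).map (Int.cast : ℤ → K) + t ^ 2 • (C.F α).map (Int.cast : ℤ → K) := by
    show C.X K α t - 1 = _
    unfold X
    rw [add_assoc, add_sub_cancel_left]
  rw [h1]
  exact C.CT_low_add (C.CT_low_smul _ (C.CT_low_E α hα)) (C.CT_low_smul _ (C.CT_low_F α hα))

/-- The subgroup generated by the root elements of negative height. -/
private noncomputable def CT_V (K : Type*) [Field K] : Subgroup (GL C.Idx K) :=
  Subgroup.closure {g | ∃ (β : C.Root) (t : K), ht β.1 < 0 ∧ g = C.xg K β t}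

private theorem CT_xg_inv (β : C.Root) (t : K) : (C.xg K β t)⁻¹ = C.xg K β (-t) := by
  rw [inv_eq_iff_mul_eq_one, ← C.xg_map_add, add_neg_cancel]
  exact Units.ext (C.X_zero K β)

private theorem CT_V_low (g : GL C.Idx K) (hg : g ∈ C.CT_V K) :
    C.CT_Low ((g : Matrix C.Idx C.Idx K) - 1) := by
  refine Subgroup.closure_induction'' (p := fun (g : GL C.Idx K) _ => C.CT_Low ((g : Matrix C.Idx C.Idx K) - 1))
    ?_ ?_ ?_ ?_ hg
  · rintro x ⟨β, t, hβ, rfl⟩
    exact C.CT_low_xg β hβ t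
  · rintro x ⟨β, t, hβ, rfl⟩
    rw [CT_xg_inv]
    exact C.CT_low_xg β hβ (-t)
  · rw [Units.val_one, sub_self]
    exact C.CT_low_zero
  · intro x y _ _ hx hy
    have h1 : ((x * y : GL C.Idx K) : Matrix C.Idx C.Idx K) - 1 =
        ((x : Matrix C.Idx C.Idx K) - 1) * ((y : Matrix C.Idx C.Idx K) - 1) +
          (((x : Matrix C.Idx C.Idx K) - 1) + ((y : Matrix C.Idx C.Idx K) - 1)) := by
      rw [Units.val_mul]
      noncomm_ring
    rw [h1]
    exact C.CT_low_add (C.CT_low_mul hx hy) (C.CT_low_add hx hy)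

private theorem CT_eq_one (g : GL C.Idx K) (hg : g ∈ C.CT_V K)
    (h0 : C.Fil 0 (g : Matrix C.Idx C.Idx K)) : g = 1 := by
  apply Units.ext
  rw [Units.val_one]
  have h1 := C.CT_V_low g hg
  ext a b
  by_cases hab : C.hti b ≤ C.hti a
  · have h2 := h1 a b hab
    rw [Matrix.sub_apply, sub_eq_zero] at h2
    exact h2
  · rw [h0 a b (by omega), Matrix.one_apply_ne]
    rintro rfl
    exact hab le_rfl

private theorem CT_conj_lp (ν : GL C.Idx K) (w : Equiv.Perm C.Root) (ha : (C.adS K).Acts ν w)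
    (t : C.Root → K) (l : List C.Root) (h : ∀ β ∈ l, t β = 0 ∨ ht (w⁻¹ β).1 < 0) :
    ν⁻¹ * (C.adS K).lp l t * ν ∈ C.CT_V K := by
  obtain ⟨c, hc0, hc⟩ := ha
  induction l with
  | nil =>
    have h1 : (C.adS K).lp [] t = 1 := rfl
    rw [h1]
    have h2 : ν⁻¹ * 1 * ν = 1 := by group
    rw [h2]
    exact Subgroup.one_mem _
  | cons β l ih =>
    have h1 : (C.adS K).lp (β :: l) t = C.xg K β (t β) * (C.adS K).lp l t := rfl
    have h2 : ν⁻¹ * (C.xg K β (t β) * (C.adS K).lp l t) * ν =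
        (ν⁻¹ * C.xg K β (t β) * ν) * (ν⁻¹ * (C.adS K).lp l t * ν) := by group
    rw [h1, h2]
    refine Subgroup.mul_mem _ ?_ (ih fun γ hγ => h γ (List.mem_cons_of_mem _ hγ))
    rcases h β List.mem_cons_self with h3 | h3
    · have h4 : C.xg K β (t β) = 1 := by
        rw [h3]
        exact Units.ext (C.X_zero K β)
      rw [h4]
      have h5 : ν⁻¹ * 1 * ν = 1 := by group
      rw [h5]
      exact Subgroup.one_mem _
    · have h4 := hc (w⁻¹ β) ((c (w⁻¹ β))⁻¹ * t β)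
      rw [← mul_assoc, mul_inv_cancel₀ (hc0 _), one_mul, ← Equiv.Perm.mul_apply, mul_inv_cancel,
        Equiv.Perm.one_apply] at h4
      have h5 : ν⁻¹ * C.xg K β (t β) * ν = C.xg K (w⁻¹ β) ((c (w⁻¹ β))⁻¹ * t β) := by
        rw [adS_x] at h4
        rw [← h4]
        group
      rw [h5]
      exact Subgroup.subset_closure ⟨_, _, h3, rfl⟩

private theorem CT_tau_lp (τ : GL C.Idx K) (hτ : τ ∈ (C.adS K).T) (t : C.Root → K)
    (l : List C.Root) : τ * (C.adS K).lp l t * τ⁻¹ =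
      (C.adS K).lp l (fun β => C.chi (τ : Matrix C.Idx C.Idx K) β * t β) := by
  induction l with
  | nil =>
    have h1 : ∀ t : C.Root → K, (C.adS K).lp [] t = 1 := fun _ => rfl
    rw [h1, h1]
    group
  | cons β l ih =>
    have h1 : ∀ t : C.Root → K, (C.adS K).lp (β :: l) t = C.xg K β (t β) * (C.adS K).lp l t :=
      fun _ => rfl
    have h2 : τ * (C.xg K β (t β) * (C.adS K).lp l t) * τ⁻¹ =
        (τ * C.xg K β (t β) * τ⁻¹) * (τ * (C.adS K).lp l t * τ⁻¹) := by group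
    rw [h1, h1, h2, ih, (C.T_fix τ hτ β (t β)).2]

private theorem CT_chamber (τ g : GL C.Idx K) (hτ : τ ∈ (C.adS K).T)
    (h1 : ∀ γ, C.chi (τ : Matrix C.Idx C.Idx K) γ ≠ 1)
    (hg : g ∈ C.Gad K)
    (h : C.Fil 0 ((g⁻¹ * τ * g : GL C.Idx K) : Matrix C.Idx C.Idx K)) :
    ∃ ν ∈ (C.adS K).N, ∃ u ∈ (C.adS K).U 1, g = ν * u := by
  rw [← C.gen_adS K] at hg
  obtain ⟨u, hu, ν, hν, v, hv, hguv⟩ := (C.adS K).bruhat g hg
  obtain ⟨w, hw, ha, -⟩ := (C.adS K).N_acts ν hν
  obtain ⟨t, ht0, b, hb, hub⟩ := (C.adS K).exists_lp_inv ν w ha u hu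
  have hg' : g = (C.adS K).lp C.posList t * ν * (b * v) := by
    rw [hguv, hub, mul_assoc]
  have hb' : b * v ∈ (C.adS K).U 1 := Subgroup.mul_mem _ hb hv
  have hτ1 : ν⁻¹ * τ * ν ∈ (C.adS K).T := by
    have h2 := (C.adS K).N_conj_T ν⁻¹ τ (Subgroup.inv_mem _ hν) hτ
    rwa [inv_inv] at h2
  set x := (C.adS K).lp C.posList t with hx
  set x' := (C.adS K).lp C.posList (fun β => C.chi (τ : Matrix C.Idx C.Idx K) β * t β) with hx'
  have hxx' : τ * x * τ⁻¹ = x' := C.CT_tau_lp τ hτ t C.posList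
  have hneg : ∀ β ∈ C.posList, t β = 0 ∨ ht (w⁻¹ β).1 < 0 := by
    intro β _
    by_cases h3 : C.Pos (w⁻¹ β)
    · exact Or.inl (ht0 β h3)
    · right
      have h4 := C.ht_ne_zero (w⁻¹ β)
      have h5 : ¬ (0 < ht (w⁻¹ β).1) := h3
      omega
  have hz : (ν⁻¹ * x * ν)⁻¹ * (ν⁻¹ * x' * ν) = 1 := by
    refine C.CT_eq_one _ ?_ ?_
    · refine Subgroup.mul_mem _ (Subgroup.inv_mem _ (C.CT_conj_lp ν w ha t _ hneg))
        (C.CT_conj_lp ν w ha _ _ ?_)
      intro β hβ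
      rcases hneg β hβ with h3 | h3
      · left
        rw [h3, mul_zero]
      · exact Or.inr h3
    · have e1 : (ν⁻¹ * x * ν)⁻¹ * (ν⁻¹ * x' * ν) =
          (b * v) * (g⁻¹ * τ * g) * (b * v)⁻¹ * (ν⁻¹ * τ * ν)⁻¹ := by
        rw [hg', ← hxx']
        group
      rw [e1, Units.val_mul, Units.val_mul, Units.val_mul]
      have hm : ∀ {M N : Matrix C.Idx C.Idx K}, C.Fil 0 M → C.Fil 0 N → C.Fil 0 (M * N) := by
        intro M N hM hN
        have h3 := C.Fil_mul hM hN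
        rwa [add_zero] at h3
      exact hm (hm (hm (C.Fil_U_zero _ hb') h) (C.Fil_U_zero _ (Subgroup.inv_mem _ hb')))
        (C.Fil_T _ (Subgroup.inv_mem _ hτ1))
  have hxe : x = x' := by
    have h3 : ν⁻¹ * x * ν = ν⁻¹ * x' * ν := by
      rw [inv_mul_eq_one] at hz
      exact hz
    have h4 := mul_left_cancel (mul_right_cancel h3)
    exact h4
  have hx1 : x = 1 := by
    refine (C.adS K).lp_zero _ _ fun β hβ => ?_
    have h3 := C.lp_unique t _ hxe β ((C.mem_posList β).mp hβ)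
    by_contra h4
    refine h1 β ?_
    have h5 : (1 : K) * t β = C.chi (τ : Matrix C.Idx C.Idx K) β * t β := by
      rw [one_mul]
      exact h3
    exact (mul_right_cancel₀ h4 h5).symm
  refine ⟨ν, hν, b * v, hb', ?_⟩
  rw [hg', hx1, one_mul]

end SLC

end Pool.Agent.H75.UL

namespace Pool.Agent.H86.UM

open Pool.Agent.H75.UL

variable {n : ℕ} (C : SLC n)

theorem torus_chamber' {K : Type*} [Field K] (τ g : GL C.Idx K) (hτ : τ ∈ (C.adS K).T)
    (h1 : ∀ γ, C.chi (τ : Matrix C.Idx C.Idx K) γ ≠ 1) (hg : g ∈ C.Gad K)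
    (h : C.Fil 0 ((g⁻¹ * τ * g : GL C.Idx K) : Matrix C.Idx C.Idx K)) :
    ∃ ν ∈ (C.adS K).N, ∃ u ∈ (C.adS K).U 1, g = ν * u :=
  C.CT_chamber τ g hτ h1 hg h

/-- conjugation of a homomorphism -/
def cj {E : Type*} [Group E] {G : Type*} [Group G] (Ψ : E →* G) (w : G) : E →* G :=
  (MulAut.conj w⁻¹).toMonoidHom.comp Ψ

theorem cj_apply {E : Type*} [Group E] {G : Type*} [Group G] (Ψ : E →* G) (w : G) (x : E) :
    cj Ψ w x = w⁻¹ * Ψ x * w := by
  simp [cj]

theorem conj_torus' {ι : Type} {E : Type*} [Group E] {k : Type*} [Field k] (S : Src ι E k)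
    {F : Type*} [Field F] (Ψ : E →* GL C.Idx F) (h : Tgt C S Ψ) (t₀ : E) (ht₀ : t₀ ∈ S.T)
    (hreg : ∀ γ : C.Root, C.chi (Ψ t₀ : Matrix C.Idx C.Idx F) γ ≠ 1) :
    ∃ w ∈ (C.adS F).U 1, ∀ x ∈ S.T, w⁻¹ * Ψ x * w ∈ (C.adS F).T := by
  obtain ⟨τ, hτ, u, hu, hτu⟩ := C.upper (Ψ t₀) (h.mem t₀) (h.T_le t₀ ht₀)
  have hreg' : ∀ γ, C.Pos γ → C.chi (τ : Matrix C.Idx C.Idx F) γ ≠ 1 := by
    intro γ _
    rw [← C.chi_mul_U τ u hτ hu γ, ← hτu]
    exact hreg γ
  obtain ⟨w, hw, hwt⟩ := C.conj_T τ u hτ hu hreg'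
  refine ⟨w, hw, fun x hx => ?_⟩
  have hwg : w ∈ C.Gad F := by
    rw [← C.gen_adS F]
    exact (C.adS F).U_le_gen 1 hw
  have hb : w⁻¹ * Ψ x * w ∈ C.Gad F :=
    mul_mem (mul_mem (inv_mem hwg) (h.mem x)) hwg
  have hb0 : C.Fil 0 ((w⁻¹ * Ψ x * w : GL C.Idx F) : Matrix C.Idx C.Idx F) := by
    have h1 := C.Fil_mul (C.Fil_mul (C.Fil_U_zero w⁻¹ (inv_mem hw)) (h.T_le x hx))
      (C.Fil_U_zero w hw)
    rw [Units.val_mul, Units.val_mul]
    exact h1
  refine C.centralizer_B τ (w⁻¹ * Ψ x * w) hτ hb hb0 hreg' ?_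
  rw [← hτu] at hwt
  have hcomm : Ψ t₀ * Ψ x = Ψ x * Ψ t₀ := by
    rw [← map_mul, ← map_mul, S.T_comm _ ht₀ _ hx]
  calc τ * (w⁻¹ * Ψ x * w) = w⁻¹ * Ψ t₀ * w * (w⁻¹ * Ψ x * w) := by rw [hwt]
    _ = w⁻¹ * (Ψ t₀ * Ψ x) * w := by group
    _ = w⁻¹ * (Ψ x * Ψ t₀) * w := by rw [hcomm]
    _ = w⁻¹ * Ψ x * w * (w⁻¹ * Ψ t₀ * w) := by group
    _ = w⁻¹ * Ψ x * w * τ := by rw [hwt]

theorem Tgt_conj {ι : Type} {E : Type*} [Group E] {k : Type*} [Field k] (S : Src ι E k)
    {F : Type*} [Field F] (Ψ : E →* GL C.Idx F) (h : Tgt C S Ψ) (w : GL C.Idx F)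
    (hw : w ∈ (C.adS F).U 1) : Tgt C S (cj Ψ w) ∧
      (∀ x ∈ S.U, ∀ j, C.xi j (cj Ψ w x : Matrix C.Idx C.Idx F) =
        C.xi j (Ψ x : Matrix C.Idx C.Idx F)) ∧
      (∀ x ∈ S.T, ∀ γ, C.chi (cj Ψ w x : Matrix C.Idx C.Idx F) γ =
        C.chi (Ψ x : Matrix C.Idx C.Idx F) γ) ∧
      ∀ fib, Fib C S Ψ fib → Fib C S (cj Ψ w) fib := by
  have hwg : w ∈ C.Gad F := by
    rw [← C.gen_adS F]
    exact (C.adS F).U_le_gen 1 hw
  have hxi : ∀ x ∈ S.U, ∀ j, C.xi j (cj Ψ w x : Matrix C.Idx C.Idx F) =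
      C.xi j (Ψ x : Matrix C.Idx C.Idx F) := by
    intro x hx j
    have hx1 := h.U_le x hx
    rw [cj_apply, C.xi_mul j (w⁻¹ * Ψ x) w (mul_mem (inv_mem hw) hx1) hw,
      C.xi_mul j w⁻¹ (Ψ x) (inv_mem hw) hx1, C.xi_inv j w hw]
    ring
  have hchi : ∀ x ∈ S.T, ∀ γ, C.chi (cj Ψ w x : Matrix C.Idx C.Idx F) γ =
      C.chi (Ψ x : Matrix C.Idx C.Idx F) γ := by
    intro x hx γ
    have hx0 := h.T_le x hx
    have hw0 := C.Fil_U_zero w hw
    have hwi0 := C.Fil_U_zero w⁻¹ (inv_mem hw)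
    have h1 : C.Fil 0 ((w⁻¹ * Ψ x : GL C.Idx F) : Matrix C.Idx C.Idx F) := by
      have h2 := C.Fil_mul hwi0 hx0
      rw [Units.val_mul]
      exact h2
    have hww : C.chi ((w⁻¹ : GL C.Idx F) : Matrix C.Idx C.Idx F) γ *
        C.chi (w : Matrix C.Idx C.Idx F) γ = 1 := by
      rw [← C.chi_mul w⁻¹ w (inv_mem hwg) hwg hwi0 hw0 γ, inv_mul_cancel]
      simp [SLC.chi]
    rw [cj_apply, C.chi_mul (w⁻¹ * Ψ x) w (mul_mem (inv_mem hwg) (h.mem x)) hwg h1 hw0 γ,
      C.chi_mul w⁻¹ (Ψ x) (inv_mem hwg) (h.mem x) hwi0 hx0 γ]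
    calc C.chi ((w⁻¹ : GL C.Idx F) : Matrix C.Idx C.Idx F) γ *
          C.chi (Ψ x : Matrix C.Idx C.Idx F) γ * C.chi (w : Matrix C.Idx C.Idx F) γ =
          (C.chi ((w⁻¹ : GL C.Idx F) : Matrix C.Idx C.Idx F) γ *
            C.chi (w : Matrix C.Idx C.Idx F) γ) * C.chi (Ψ x : Matrix C.Idx C.Idx F) γ := by ring
      _ = _ := by rw [hww, one_mul]
  refine ⟨⟨?_, ?_, ?_, ?_, ?_⟩, hxi, hchi, ?_⟩
  · intro x
    rw [cj_apply]
    exact mul_mem (mul_mem (inv_mem hwg) (h.mem x)) hwg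
  · intro u hu
    rw [cj_apply]
    exact mul_mem (mul_mem (inv_mem hw) (h.U_le u hu)) hw
  · intro x hx
    rw [cj_apply]
    have h1 := C.Fil_mul (C.Fil_mul (C.Fil_U_zero w⁻¹ (inv_mem hw)) (h.T_le x hx))
      (C.Fil_U_zero w hw)
    rw [Units.val_mul, Units.val_mul]
    exact h1
  · intro j
    obtain ⟨J, x, hx, hne⟩ := h.nonvan j
    exact ⟨J, x, hx, by rw [hxi x (S.X_le J hx) j]; exact hne⟩
  · intro J
    obtain ⟨j, x, hx, hne⟩ := h.occ J
    exact ⟨j, x, hx, by rw [hxi x (S.X_le J hx) j]; exact hne⟩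
  · intro fib hf
    refine ⟨hf.surj, ?_, ?_, ?_, ?_⟩
    · intro j
      obtain ⟨x, hx, hne⟩ := hf.ne j
      exact ⟨x, hx, by rw [hxi x (S.X_le _ hx) j]; exact hne⟩
    · intro j J hJ x hx
      rw [hxi x (S.X_le _ hx) j]
      exact hf.zero j J hJ x hx
    · intro j x hx ha
      rw [hchi x hx]
      exact hf.chi_one j x hx ha
    · intro j
      obtain ⟨Φ, h1, h2, h3, h4⟩ := hf.poly j
      refine ⟨Φ, h1, h2, ?_, h4⟩
      intro x hx s hs ha
      rw [hchi x hx]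
      exact h3 x hx s hs ha

end Pool.Agent.H86.UM
end

section
/- module Pool.Agent.H86.UM.Fib -/
/-!
# Project UM, module Fib: each simple root of the target belongs to one orbit of the source

Proof. `f_j(x) = xi_j (Ψ x)` is a homomorphism `X J → (F, +)` (`xi_mul`, `U_le`), so it kills
`⁅X J, X J⁆` and by `ker_q` it depends only on `q J x` (if `q J x = q J y` then `x y⁻¹ ∈ ker`,
`q J (y⁻¹) = - q J y`). For `h ∈ T`: `f_j(h x h⁻¹) = chi_j(h) f_j(x)` with `chi_j(h) = chi (Ψ h) (simple j)`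
(`xi_conj` with `b = Ψ h`; `T_le`).
(1) If `f_j(x) ≠ 0` for some `x ∈ X J` and `a J h = 1` then `chi_j(h) = 1`
(`q (h x h⁻¹) = q x`, so `f_j(h x h⁻¹) = f_j(x)`).
(2) Uniqueness of `J`: let `f_j ≠ 0` on `X J` and on `X J'`, `J ≠ J'`. `k0` is infinite and `N ≠ 0`: there
is `s ∈ k0`, `s ≠ 0`, `s ^ N ≠ 1`. `sep J'`: `h ∈ T` with `a J' h = s ^ N`, `a J h = 1`. By (1)
`chi_j(h) = 1`. Let `x' ∈ X J'` be arbitrary; `q_smul` gives `y ∈ X J'` with
`q y = (s ^ N - 1)⁻¹ q x'`; then `q (h y h⁻¹) = s ^ N q y = q y + q x' = q (y x')`, so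
`f_j(y) = f_j(h y h⁻¹) = f_j(y) + f_j(x')`, `f_j(x') = 0`. Contradiction.
(3) `fib j` := the `J` from `nonvan`; `zero` by (2); `surj` by `occ` and (2); `chi_one` by (1).
(4) `poly`: let `x₀ ∈ X (fib j)`, `f_j(x₀) ≠ 0`; for `r ∈ k0` let `y_r ∈ X (fib j)`, `q y_r = r q x₀`
(`q_smul`), `Φ r = f_j(y_r) / f_j(x₀)`; well defined and additive since `f_j` depends only on `q`;
`Φ 1 = 1`. If `a h = s ^ N`: `q (h y_r h⁻¹) = s ^ N r q x₀`, so
`Φ (s ^ N r) = chi_j(h) Φ r`; `r = 1`: `Φ (s ^ N) = chi_j(h)`. For `s ≠ 0` such an `h` exists (`sep`);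
`s = 0` trivial (`Φ 0 = 0`, as `N ≠ 0`).
-/

set_option autoImplicit false
open Matrix

namespace Pool.Agent.H86.UM

open Pool.Agent.H75.UL

variable {n : ℕ} (C : SLC n)

private theorem Fib_f_mul {ι : Type} {E : Type*} [Group E] {k : Type*} [Field k] (S : Src ι E k)
    {F : Type*} [Field F] (Ψ : E →* GL C.Idx F) (h : Tgt C S Ψ) (j : Fin n) (x y : E)
    (hx : x ∈ S.U) (hy : y ∈ S.U) :
    C.xi j (Ψ (x * y) : Matrix C.Idx C.Idx F) =
      C.xi j (Ψ x : Matrix C.Idx C.Idx F) + C.xi j (Ψ y : Matrix C.Idx C.Idx F) := by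
  rw [map_mul]
  exact C.xi_mul j _ _ (h.U_le x hx) (h.U_le y hy)

private theorem Fib_f_one {E : Type*} [Group E]
    {F : Type*} [Field F] (Ψ : E →* GL C.Idx F) (j : Fin n) :
    C.xi j (Ψ 1 : Matrix C.Idx C.Idx F) = 0 := by
  rw [map_one, Units.val_one]
  exact C.xi_one j

private theorem Fib_f_inv {ι : Type} {E : Type*} [Group E] {k : Type*} [Field k] (S : Src ι E k)
    {F : Type*} [Field F] (Ψ : E →* GL C.Idx F) (h : Tgt C S Ψ) (j : Fin n) (x : E)
    (hx : x ∈ S.U) :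
    C.xi j (Ψ x⁻¹ : Matrix C.Idx C.Idx F) = - C.xi j (Ψ x : Matrix C.Idx C.Idx F) := by
  rw [map_inv]
  exact C.xi_inv j _ (h.U_le x hx)

/-- the elements of `U` killed by `xi j ∘ Ψ` -/
private def FibK {ι : Type} {E : Type*} [Group E] {k : Type*} [Field k] (S : Src ι E k)
    {F : Type*} [Field F] (Ψ : E →* GL C.Idx F) (h : Tgt C S Ψ) (j : Fin n) : Subgroup E where
  carrier := {x | x ∈ S.U ∧ C.xi j (Ψ x : Matrix C.Idx C.Idx F) = 0}
  mul_mem' := by
    rintro x y ⟨hx, hx0⟩ ⟨hy, hy0⟩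
    exact ⟨S.U.mul_mem hx hy, by rw [Fib_f_mul C S Ψ h j x y hx hy, hx0, hy0, add_zero]⟩
  one_mem' := ⟨S.U.one_mem, Fib_f_one C Ψ j⟩
  inv_mem' := by
    rintro x ⟨hx, hx0⟩
    exact ⟨S.U.inv_mem hx, by rw [Fib_f_inv C S Ψ h j x hx, hx0, neg_zero]⟩

private theorem Fib_comm {ι : Type} {E : Type*} [Group E] {k : Type*} [Field k] (S : Src ι E k)
    {F : Type*} [Field F] (Ψ : E →* GL C.Idx F) (h : Tgt C S Ψ) (j : Fin n) (J : ι) (x : E)
    (hx : x ∈ ⁅S.X J, S.X J⁆) : C.xi j (Ψ x : Matrix C.Idx C.Idx F) = 0 := by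
  have h1 : ⁅S.X J, S.X J⁆ ≤ FibK C S Ψ h j := by
    rw [Subgroup.commutator_le]
    intro g hg g' hg'
    have hU : g ∈ S.U := S.X_le J hg
    have hU' : g' ∈ S.U := S.X_le J hg'
    rw [commutatorElement_def]
    refine ⟨S.U.mul_mem (S.U.mul_mem (S.U.mul_mem hU hU') (S.U.inv_mem hU)) (S.U.inv_mem hU'), ?_⟩
    rw [Fib_f_mul C S Ψ h j _ _ (S.U.mul_mem (S.U.mul_mem hU hU') (S.U.inv_mem hU))
      (S.U.inv_mem hU'), Fib_f_mul C S Ψ h j _ _ (S.U.mul_mem hU hU') (S.U.inv_mem hU),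
      Fib_f_mul C S Ψ h j _ _ hU hU', Fib_f_inv C S Ψ h j _ hU, Fib_f_inv C S Ψ h j _ hU']
    ring
  exact (h1 hx).2

private theorem Fib_q_one {ι : Type} {E : Type*} [Group E] {k : Type*} [Field k] (S : Src ι E k)
    (J : ι) : S.q J 1 = 0 := by
  have h := S.q_mul J 1 (S.X J).one_mem 1 (S.X J).one_mem
  rw [mul_one] at h
  exact left_eq_add.1 h

private theorem Fib_q_inv {ι : Type} {E : Type*} [Group E] {k : Type*} [Field k] (S : Src ι E k)
    (J : ι) (x : E) (hx : x ∈ S.X J) : S.q J x⁻¹ = - S.q J x := by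
  have h := S.q_mul J x hx x⁻¹ ((S.X J).inv_mem hx)
  rw [mul_inv_cancel, Fib_q_one S J] at h
  exact eq_neg_of_add_eq_zero_right h.symm

/-- `xi j (Ψ x)` depends only on the coordinate `q J x`. -/
theorem xi_eq_of_q {ι : Type} {E : Type*} [Group E] {k : Type*} [Field k] (S : Src ι E k)
    {F : Type*} [Field F] (Ψ : E →* GL C.Idx F) (h : Tgt C S Ψ) (j : Fin n) (J : ι) (x y : E)
    (hx : x ∈ S.X J) (hy : y ∈ S.X J) (hq : S.q J x = S.q J y) :
    C.xi j (Ψ x : Matrix C.Idx C.Idx F) = C.xi j (Ψ y : Matrix C.Idx C.Idx F) := by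
  have hxy : x * y⁻¹ ∈ S.X J := (S.X J).mul_mem hx ((S.X J).inv_mem hy)
  have h0 : S.q J (x * y⁻¹) = 0 := by
    rw [S.q_mul J x hx y⁻¹ ((S.X J).inv_mem hy), Fib_q_inv S J y hy, hq, add_neg_cancel]
  have h1 := Fib_comm C S Ψ h j J _ (S.ker_q J _ hxy h0)
  rw [Fib_f_mul C S Ψ h j x y⁻¹ (S.X_le J hx) (S.U.inv_mem (S.X_le J hy)),
    Fib_f_inv C S Ψ h j y (S.X_le J hy)] at h1
  exact eq_of_sub_eq_zero (by rw [sub_eq_add_neg]; exact h1)

theorem xi_T_conj {ι : Type} {E : Type*} [Group E] {k : Type*} [Field k] (S : Src ι E k)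
    {F : Type*} [Field F] (Ψ : E →* GL C.Idx F) (h : Tgt C S Ψ) (j : Fin n) (u τ : E)
    (hu : u ∈ S.U) (hτ : τ ∈ S.T) :
    C.xi j (Ψ (τ * u * τ⁻¹) : Matrix C.Idx C.Idx F) =
      C.chi (Ψ τ : Matrix C.Idx C.Idx F) (C.simple j) * C.xi j (Ψ u : Matrix C.Idx C.Idx F) := by
  have h1 := (C.xi_conj (Ψ τ) (Ψ u) (h.mem τ) (h.T_le τ hτ) (h.U_le u hu) j).2
  rw [map_mul, map_mul, map_inv]
  exact h1

private theorem Fib_chi {ι : Type} {E : Type*} [Group E] {k : Type*} [Field k] (S : Src ι E k)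
    {F : Type*} [Field F] (Ψ : E →* GL C.Idx F) (h : Tgt C S Ψ) (j : Fin n) (J : ι) (x : E)
    (hx : x ∈ S.X J) (hx0 : C.xi j (Ψ x : Matrix C.Idx C.Idx F) ≠ 0) (τ : E) (hτ : τ ∈ S.T)
    (ha : S.a J τ = 1) : C.chi (Ψ τ : Matrix C.Idx C.Idx F) (C.simple j) = 1 := by
  have h1 := xi_T_conj C S Ψ h j x τ (S.X_le J hx) hτ
  have h2 : τ * x * τ⁻¹ = x := by
    rw [S.cent J τ hτ ha x hx, mul_assoc, mul_inv_cancel, mul_one]
  rw [h2] at h1
  have h3 : (1 : F) * C.xi j (Ψ x : Matrix C.Idx C.Idx F) =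
      C.chi (Ψ τ : Matrix C.Idx C.Idx F) (C.simple j) * C.xi j (Ψ x : Matrix C.Idx C.Idx F) := by
    rw [one_mul]
    exact h1
  exact (mul_right_cancel₀ hx0 h3).symm

private theorem Fib_uniq {ι : Type} {E : Type*} [Group E] {k : Type*} [Field k] (S : Src ι E k)
    {F : Type*} [Field F] (Ψ : E →* GL C.Idx F) (h : Tgt C S Ψ) (j : Fin n) (J J' : ι)
    (hJ : J' ≠ J) (x : E) (hx : x ∈ S.X J) (hx0 : C.xi j (Ψ x : Matrix C.Idx C.Idx F) ≠ 0)
    (x' : E) (hx' : x' ∈ S.X J') : C.xi j (Ψ x' : Matrix C.Idx C.Idx F) = 0 := by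
  classical
  have := S.k0_inf
  obtain ⟨s, hs⟩ := Infinite.exists_notMem_finset
    (insert (0 : S.k0) (Polynomial.nthRoots S.N (1 : S.k0)).toFinset)
  rw [Finset.mem_insert, Multiset.mem_toFinset,
    Polynomial.mem_nthRoots (Nat.pos_of_ne_zero S.N_ne)] at hs
  push Not at hs
  obtain ⟨hs0, hs1⟩ := hs
  have hs0' : (s : k) ≠ 0 := fun h0 => hs0 (by exact_mod_cast h0)
  have hs1' : (s : k) ^ S.N ≠ 1 := fun h0 => hs1 (by exact_mod_cast h0)
  have hs2 : (s : k) ^ S.N - 1 ≠ 0 := sub_ne_zero.2 hs1'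
  obtain ⟨τ, hτ, ha, ha'⟩ := S.sep J' s s.2 hs0'
  have hchi := Fib_chi C S Ψ h j J x hx hx0 τ hτ (ha' J (Ne.symm hJ))
  have hc : ((s : k) ^ S.N - 1)⁻¹ ∈ S.k0 :=
    S.k0.inv_mem (S.k0.sub_mem (pow_mem s.2 S.N) S.k0.one_mem)
  obtain ⟨y, hy, hqy⟩ := S.q_smul J' _ hc x' hx'
  have e1 : S.q J' (τ * y * τ⁻¹) = S.q J' (y * x') := by
    rw [S.q_conj J' τ hτ y hy, S.q_mul J' y hy x' hx', ha, hqy]
    field_simp
    ring
  have e2 := xi_eq_of_q C S Ψ h j J' (τ * y * τ⁻¹) (y * x') (S.X_conj J' τ hτ y hy)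
    ((S.X J').mul_mem hy hx') e1
  rw [xi_T_conj C S Ψ h j y τ (S.X_le J' hy) hτ, hchi, one_mul,
    Fib_f_mul C S Ψ h j y x' (S.X_le J' hy) (S.X_le J' hx')] at e2
  exact left_eq_add.1 e2

theorem exists_fib {ι : Type} {E : Type*} [Group E] {k : Type*} [Field k] (S : Src ι E k)
    {F : Type*} [Field F] (Ψ : E →* GL C.Idx F) (h : Tgt C S Ψ) :
    ∃ fib : Fin n → ι, Fib C S Ψ fib := by
  choose fib x0 hx0 hne using h.nonvan
  have hzero : ∀ j J, J ≠ fib j → ∀ x ∈ S.X J, C.xi j (Ψ x : Matrix C.Idx C.Idx F) = 0 :=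
    fun j J hJ x hx => Fib_uniq C S Ψ h j (fib j) J hJ (x0 j) (hx0 j) (hne j) x hx
  refine ⟨fib, ?_, fun j => ⟨x0 j, hx0 j, hne j⟩, hzero,
    fun j τ hτ ha => Fib_chi C S Ψ h j (fib j) (x0 j) (hx0 j) (hne j) τ hτ ha, fun j => ?_⟩
  · intro J
    obtain ⟨j, x, hx, hxne⟩ := h.occ J
    refine ⟨j, ?_⟩
    by_contra hcon
    exact hxne (hzero j J (Ne.symm hcon) x hx)
  · have hex : ∀ r : S.k0, ∃ y ∈ S.X (fib j), S.q (fib j) y = (r : k) * S.q (fib j) (x0 j) :=
      fun r => S.q_smul (fib j) r r.2 (x0 j) (hx0 j)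
    choose y hy hqy using hex
    have hkey : ∀ (r : S.k0) (z : E), z ∈ S.X (fib j) →
        S.q (fib j) z = (r : k) * S.q (fib j) (x0 j) →
        C.xi j (Ψ (y r) : Matrix C.Idx C.Idx F) = C.xi j (Ψ z : Matrix C.Idx C.Idx F) :=
      fun r z hz hqz => xi_eq_of_q C S Ψ h j (fib j) (y r) z (hy r) hz (by rw [hqy, hqz])
    have hadd : ∀ s t : S.k0, C.xi j (Ψ (y (s + t)) : Matrix C.Idx C.Idx F) =
        C.xi j (Ψ (y s) : Matrix C.Idx C.Idx F) + C.xi j (Ψ (y t) : Matrix C.Idx C.Idx F) := by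
      intro s t
      rw [← Fib_f_mul C S Ψ h j (y s) (y t) (S.X_le _ (hy s)) (S.X_le _ (hy t))]
      refine hkey (s + t) _ ((S.X (fib j)).mul_mem (hy s) (hy t)) ?_
      rw [S.q_mul _ _ (hy s) _ (hy t), hqy, hqy]
      push_cast
      ring
    have hone : C.xi j (Ψ (y 1) : Matrix C.Idx C.Idx F) =
        C.xi j (Ψ (x0 j) : Matrix C.Idx C.Idx F) := by
      refine hkey 1 _ (hx0 j) ?_
      push_cast
      ring
    have hmul : ∀ τ ∈ S.T, ∀ s r : S.k0, S.a (fib j) τ = (s : k) ^ S.N →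
        C.xi j (Ψ (y (s ^ S.N * r)) : Matrix C.Idx C.Idx F) =
        C.chi (Ψ τ : Matrix C.Idx C.Idx F) (C.simple j) *
          C.xi j (Ψ (y r) : Matrix C.Idx C.Idx F) := by
      intro τ hτ s r ha
      rw [← xi_T_conj C S Ψ h j (y r) τ (S.X_le _ (hy r)) hτ]
      refine hkey _ _ (S.X_conj _ τ hτ _ (hy r)) ?_
      rw [S.q_conj _ τ hτ _ (hy r), ha, hqy]
      push_cast
      ring
    have hne0 := hne j
    have hchi : ∀ τ ∈ S.T, ∀ s : S.k0, S.a (fib j) τ = (s : k) ^ S.N →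
        C.chi (Ψ τ : Matrix C.Idx C.Idx F) (C.simple j) =
          C.xi j (Ψ (y (s ^ S.N)) : Matrix C.Idx C.Idx F) /
            C.xi j (Ψ (x0 j) : Matrix C.Idx C.Idx F) := by
      intro τ hτ s ha
      have h1 := hmul τ hτ s 1 ha
      rw [mul_one, hone] at h1
      rw [h1, mul_div_cancel_right₀ _ hne0]
    refine ⟨fun r => C.xi j (Ψ (y r) : Matrix C.Idx C.Idx F) /
      C.xi j (Ψ (x0 j) : Matrix C.Idx C.Idx F), ?_, ?_, ?_, ?_⟩
    · intro s t
      show C.xi j (Ψ (y (s + t)) : Matrix C.Idx C.Idx F) /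
        C.xi j (Ψ (x0 j) : Matrix C.Idx C.Idx F) = _
      rw [hadd s t, add_div]
    · show C.xi j (Ψ (y 1) : Matrix C.Idx C.Idx F) /
        C.xi j (Ψ (x0 j) : Matrix C.Idx C.Idx F) = 1
      rw [hone, div_self hne0]
    · intro τ hτ s _ ha
      exact hchi τ hτ s ha
    · intro s r
      show C.xi j (Ψ (y (s ^ S.N * r)) : Matrix C.Idx C.Idx F) /
          C.xi j (Ψ (x0 j) : Matrix C.Idx C.Idx F) =
        C.xi j (Ψ (y (s ^ S.N)) : Matrix C.Idx C.Idx F) /
            C.xi j (Ψ (x0 j) : Matrix C.Idx C.Idx F) *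
        (C.xi j (Ψ (y r) : Matrix C.Idx C.Idx F) /
            C.xi j (Ψ (x0 j) : Matrix C.Idx C.Idx F))
      by_cases hs : s = 0
      · subst hs
        have h0 : C.xi j (Ψ (y 0) : Matrix C.Idx C.Idx F) = 0 := by
          have h1 := hadd 0 0
          rw [add_zero] at h1
          exact left_eq_add.1 h1
        rw [zero_pow S.N_ne, zero_mul, h0, zero_div, zero_mul]
      · have hs' : (s : k) ≠ 0 := fun h0 => hs (by exact_mod_cast h0)
        obtain ⟨τ, hτ, ha, -⟩ := S.sep (fib j) s s.2 hs'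
        rw [hmul τ hτ s r ha, ← hchi τ hτ s ha, mul_div_assoc]

end Pool.Agent.H86.UM
end

section
/- module Pool.Agent.H86.UM.RD3 -/
/-!
# Project UM, module RD3: derivations of a chamber with rational stabiliser elements

`E / K` fields, `D` a `K`-derivation of `E`, `g = lp C.posList y * nword l ∈ Gad E` (the support of `y` in
the positive roots `β` with `(wd l)⁻¹ β` negative), `Γ` a set of elements of `Gad K` with
`g⁻¹ γ g` upper triangular (`Fil 0`), and for every root `δ` there is `γ ∈ Γ` such that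
the diagonal entry of `g⁻¹ γ g` at `δ` is not `1`. Then `D (y β) = 0` for all `β`.

Proof. For a matrix `M` over `E` let `D M = M.map D`; `D (M N) = (D M) N + M (D N)`; `D = 0` on matrices
with entries in `K`, e.g. on `nword l` (`nword l = mp (algebraMap K E) (nword l)`) and on
`mp (algebraMap K E) γ`; `D (g⁻¹) = - g⁻¹ (D g) g⁻¹`.
(1) `D (X β t) = D t • E_β X β t = D t • X β t E_β` (`E_β` the matrix of `C.E β` over `E`; use
`E_β E_β = 2 F_β`, `E_β F_β = 0`; `C.X` is `1 + t E + t ^ 2 F`).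
(2) Let `R = {β | Pos β ∧ ¬ Pos (w⁻¹ β)}`, `w = wd l`; `V` = span over `E` of the `E_β`, `β ∈ R`. For
`β, γ ∈ R`: `(X β t)⁻¹ E_γ (X β t) = E_γ` or `E_γ ± t E_(β+γ)`, and `β + γ ∈ R` if it is a root (heights;
the coordinates of a root have one sign, or `ht (w⁻¹ (β + γ)) = ht (w⁻¹ β) + ht (w⁻¹ γ)` as `w` is
induced by a linear map on roots, see R-modules). So `V` is stable under conjugation by `u = lp y`, and
`Y := u⁻¹ (D u) ∈ V`.
(3) `X := g⁻¹ (D g) = ν⁻¹ Y ν` (`ν = nword l`, `D ν = 0`), and `ν⁻¹ E_γ ν = c E_(w⁻¹ γ)`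
(`nword_acts`, or `L5_E` for each factor `nn`), so `X = ∑_δ c_δ E_δ` over roots `δ` with negative height.
(4) For `γ ∈ Γ` put `γ' = g⁻¹ γ g`. As `D γ = 0`, `D γ' = γ' X - X γ'`. `γ'` is `Fil 0`, so `D γ'` and
`γ' X - X γ'` are `Fil 0`.
(5) If `X ≠ 0` let `δ` be a root of minimal height with `c_δ ≠ 0`, `m = ht δ < 0`. Choose `i` with
`(δ i : E) ≠ 0` (a root is not divisible by a prime: `ip δ δ = 2`; compare `T3.lean`), and let
`a = inl i`, `b = inr (-δ)`; `hti a - hti b = m`. `X` vanishes at entries which lower the height by more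
than `-m`; so `(γ' X - X γ') a b = γ' a a X a b - X a b γ' b b` (the entries `γ' a c`, `hti c = hti a`,
`c ≠ a` vanish by `upper`, `Fil_U`, `T_diag`), `X a b = - c_δ δ_i ≠ 0`, `γ' a a = 1`,
`γ' b b = chi γ' (-δ)`. The entry is `0` by `Fil 0` and `m < 0`, so `chi γ' (-δ) = 1` for all `γ ∈ Γ`,
contradiction.
(6) So `X = 0`, `Y = 0`; and in `Y = ∑_β D (y β) • (conjugate of E_β)`, let `β` be a root of minimal height
with `D (y β) ≠ 0`: the coefficient of `E_β` in `Y` is `D (y β)` (the conjugations by elements of positive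
height only add root vectors of greater height), contradiction (the `E_β` are linearly independent, e.g. by
the entries used in (5)).
-/

set_option autoImplicit false
open Matrix

namespace Pool.Agent.H86.UM

open Pool.Agent.H75.UL

variable {n : ℕ} (C : SLC n)


private theorem RD3_map_mul {K E : Type*} [Field K] [Field E] [Algebra K E] (D : Derivation K E E)
    {ι : Type*} [Fintype ι] (M N : Matrix ι ι E) :
    (M * N).map D = M.map D * N + M * N.map D := by
  ext a b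
  simp only [Matrix.map_apply, Matrix.mul_apply, Matrix.add_apply, map_sum, Derivation.leibniz,
    smul_eq_mul]
  rw [← Finset.sum_add_distrib]
  refine Finset.sum_congr rfl fun c _ => ?_
  ring

private theorem RD3_map_one {K E : Type*} [Field K] [Field E] [Algebra K E] (D : Derivation K E E)
    {ι : Type*} [Fintype ι] [DecidableEq ι] : (1 : Matrix ι ι E).map D = 0 := by
  ext a b
  rw [Matrix.map_apply, Matrix.one_apply]
  split_ifs <;> simp

private theorem RD3_map_X {K E : Type*} [Field K] [Field E] [Algebra K E] (D : Derivation K E E)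
    (β : C.Root) (t : E) :
    (C.X E β t).map D = D t • (C.X E β t * (C.E β).map (Int.cast : ℤ → E)) := by
  have hEE : (C.E β).map (Int.cast : ℤ → E) * (C.E β).map (Int.cast : ℤ → E) =
      (2 : E) • (C.F β).map (Int.cast : ℤ → E) := by
    have h1 := congrArg (fun M : Matrix C.Idx C.Idx ℤ => M.map (Int.castRingHom E)) (C.E_mul_E β)
    rw [two_smul ℕ] at h1
    rw [two_smul E]
    ext a b
    have h2 := congrFun (congrFun h1 a) b
    simp only [Matrix.map_apply, Matrix.add_apply, Matrix.mul_apply, map_sum, map_mul, map_add,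
      eq_intCast] at h2 ⊢
    exact h2
  have hFE : (C.F β).map (Int.cast : ℤ → E) * (C.E β).map (Int.cast : ℤ → E) = 0 := by
    have h1 := congrArg (fun M : Matrix C.Idx C.Idx ℤ => M.map (Int.castRingHom E)) (C.F_mul_E β)
    ext a b
    have h2 := congrFun (congrFun h1 a) b
    simp only [Matrix.map_apply, Matrix.mul_apply, map_sum, map_mul, eq_intCast, Matrix.zero_apply,
      Int.cast_zero] at h2 ⊢
    exact h2
  have e1 : (C.X E β t).map D = D t • (C.E β).map (Int.cast : ℤ → E) +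
      (2 * t * D t) • (C.F β).map (Int.cast : ℤ → E) := by
    ext a b
    unfold SLC.X
    have h0 : D ((1 : Matrix C.Idx C.Idx E) a b) = 0 := by
      rw [Matrix.one_apply]
      split_ifs <;> simp
    simp only [Matrix.map_apply, Matrix.add_apply, Matrix.smul_apply, smul_eq_mul, map_add, h0,
      Derivation.leibniz, Derivation.map_intCast, Derivation.leibniz_pow]
    simp only [mul_zero, zero_add, nsmul_eq_mul, Nat.cast_ofNat]
    simp
    ring
  rw [e1]
  unfold SLC.X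
  rw [add_mul, add_mul, one_mul, smul_mul_assoc, smul_mul_assoc, hEE, hFE]
  module

private theorem RD3_tor (u v : Matrix C.Idx C.Idx ℤ) (h : 2 • u = 2 • v) : u = v := by
  ext x y
  have h1 := congrFun (congrFun h x) y
  simp only [Matrix.smul_apply, nsmul_eq_mul, Nat.cast_ofNat] at h1
  omega

private theorem RD3_F_comm (γ δ : C.Root) (h : 0 ≤ C.ip γ.1 δ.1) :
    C.F γ * C.E δ = C.E δ * C.F γ := by
  have hAB := C.E_comm γ δ h
  apply RD3_tor
  rw [← smul_mul_assoc, ← mul_smul_comm, ← C.E_mul_E, mul_assoc, hAB, ← mul_assoc, hAB, mul_assoc]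

private theorem RD3_F_add (γ δ η : C.Root) (h : η.1 = γ.1 + δ.1) :
    C.F γ * C.E δ = C.E δ * C.F γ + C.eps γ.1 δ.1 • (C.E η * C.E γ) := by
  have hip : C.ip γ.1 δ.1 = -1 := C.ip_add_root γ δ η h
  have hγη : 0 ≤ C.ip γ.1 η.1 := by
    rw [h, C.ip_add_right, γ.2, hip]
    norm_num
  have h1 : C.E γ * C.E δ = C.E δ * C.E γ + C.eps γ.1 δ.1 • C.E η := by
    have := C.E_comm_add γ δ η h
    rw [← this]
    abel
  have h2 := C.E_comm γ η hγη
  apply RD3_tor
  rw [smul_add, ← smul_mul_assoc, ← mul_smul_comm, ← C.E_mul_E, mul_assoc, h1, mul_add, ← mul_assoc,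
    h1, add_mul, mul_assoc, mul_smul_comm, h2, smul_mul_assoc]
  abel

private theorem RD3_FE_zero (γ δ η : C.Root) (h : η.1 = γ.1 + δ.1) : C.F γ * C.E η = 0 := by
  have hip : C.ip γ.1 δ.1 = -1 := C.ip_add_root γ δ η h
  have hγη : C.ip γ.1 η.1 = 1 := by
    rw [h, C.ip_add_right, γ.2, hip]
    norm_num
  ext a b
  rw [Matrix.mul_apply, Matrix.zero_apply]
  refine Finset.sum_eq_zero fun c _ => ?_
  rcases a with i | α <;> rcases c with j | β
  · simp [SLC.F]
  · simp [SLC.F]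
  · simp [SLC.F]
  · by_cases hc : α.1 = γ.1 ∧ β.1 = -γ.1
    · have hz : C.E η (Sum.inr β) b = 0 := by
        rcases b with j | ρ
        · have h3 : β.1 ≠ η.1 := by
            intro h4
            have h5 := hγη
            rw [← h4, hc.2, C.ip_neg_right, γ.2] at h5
            omega
          simp [SLC.E, h3]
        · have h3 : β.1 ≠ η.1 + ρ.1 := by
            intro h4
            have h5 := C.ip_add_root η ρ β h4
            have h6 : C.ip η.1 β.1 = 2 + C.ip η.1 ρ.1 := by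
              rw [h4, C.ip_add_right, η.2]
            rw [hc.2, C.ip_neg_right, C.ip_comm η.1 γ.1, hγη, h5] at h6
            omega
          simp [SLC.E, h3]
      rw [hz, mul_zero]
    · simp [SLC.F, hc]

/-- the span of the root vectors of negative height -/
private def RD3_V (E : Type*) [Field E] : Submodule E (Matrix C.Idx C.Idx E) :=
  Submodule.span E {M | ∃ β : C.Root, ¬ C.Pos β ∧ M = (C.E β).map (Int.cast : ℤ → E)}

private theorem RD3_cast_mul (E : Type*) [Field E] (A B : Matrix C.Idx C.Idx ℤ) :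
    (A * B).map (Int.cast : ℤ → E) = A.map (Int.cast : ℤ → E) * B.map (Int.cast : ℤ → E) := by
  have := Matrix.map_mul (L := A) (M := B) (f := Int.castRingHom E)
  exact this

private theorem RD3_conj_nonneg (E : Type*) [Field E] (γ δ : C.Root) (h : 0 ≤ C.ip γ.1 δ.1) (t : E) :
    (C.E δ).map (Int.cast : ℤ → E) * C.X E γ t = C.X E γ t * (C.E δ).map (Int.cast : ℤ → E) := by
  have h1 : (C.E γ).map (Int.cast : ℤ → E) * (C.E δ).map (Int.cast : ℤ → E) =
      (C.E δ).map (Int.cast : ℤ → E) * (C.E γ).map (Int.cast : ℤ → E) := by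
    rw [← RD3_cast_mul, ← RD3_cast_mul, C.E_comm γ δ h]
  have h2 : (C.F γ).map (Int.cast : ℤ → E) * (C.E δ).map (Int.cast : ℤ → E) =
      (C.E δ).map (Int.cast : ℤ → E) * (C.F γ).map (Int.cast : ℤ → E) := by
    rw [← RD3_cast_mul, ← RD3_cast_mul, RD3_F_comm C γ δ h]
  unfold SLC.X
  rw [mul_add, mul_add, add_mul, add_mul, mul_one, one_mul, mul_smul_comm, mul_smul_comm,
    smul_mul_assoc, smul_mul_assoc, h1, h2]

private theorem RD3_conj_neg (E : Type*) [Field E] (γ δ η : C.Root) (h : η.1 = γ.1 + δ.1) (t : E) :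
    (C.E δ).map (Int.cast : ℤ → E) * C.X E γ t = C.X E γ t * ((C.E δ).map (Int.cast : ℤ → E) -
      (t * (C.eps γ.1 δ.1 : E)) • (C.E η).map (Int.cast : ℤ → E)) := by
  have hip : C.ip γ.1 δ.1 = -1 := C.ip_add_root γ δ η h
  have hγη : 0 ≤ C.ip γ.1 η.1 := by
    rw [h, C.ip_add_right, γ.2, hip]
    norm_num
  have h1 : (C.E γ).map (Int.cast : ℤ → E) * (C.E δ).map (Int.cast : ℤ → E) =
      (C.E δ).map (Int.cast : ℤ → E) * (C.E γ).map (Int.cast : ℤ → E) +
        (C.eps γ.1 δ.1 : E) • (C.E η).map (Int.cast : ℤ → E) := by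
    rw [← C.T5_map_comm_add γ δ η h]
    abel
  have h3 : (C.E γ).map (Int.cast : ℤ → E) * (C.E η).map (Int.cast : ℤ → E) =
      (C.E η).map (Int.cast : ℤ → E) * (C.E γ).map (Int.cast : ℤ → E) := by
    rw [← RD3_cast_mul, ← RD3_cast_mul, C.E_comm γ η hγη]
  have h2 : (C.F γ).map (Int.cast : ℤ → E) * (C.E δ).map (Int.cast : ℤ → E) =
      (C.E δ).map (Int.cast : ℤ → E) * (C.F γ).map (Int.cast : ℤ → E) +
        (C.eps γ.1 δ.1 : E) • ((C.E η).map (Int.cast : ℤ → E) * (C.E γ).map (Int.cast : ℤ → E)) := by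
    rw [← RD3_cast_mul, ← RD3_cast_mul, ← RD3_cast_mul, RD3_F_add C γ δ η h]
    ext a b
    rw [Matrix.map_apply, Matrix.add_apply, Matrix.smul_apply, Matrix.add_apply, Matrix.smul_apply,
      Matrix.map_apply, Matrix.map_apply, smul_eq_mul, smul_eq_mul, Int.cast_add, Int.cast_mul]
  have h4 : (C.F γ).map (Int.cast : ℤ → E) * (C.E η).map (Int.cast : ℤ → E) = 0 := by
    rw [← RD3_cast_mul, RD3_FE_zero C γ δ η h]
    ext a b
    simp
  unfold SLC.X
  rw [mul_sub]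
  simp only [mul_add, add_mul, mul_one, one_mul, mul_smul_comm, smul_mul_assoc, h1, h2, h3, h4,
    smul_add, smul_smul, smul_zero]
  module

private theorem RD3_V_conj (E : Type*) [Field E] (γ : C.Root) (hγ : ¬ C.Pos γ) (t : E)
    (M : Matrix C.Idx C.Idx E) (hM : M ∈ RD3_V C E) :
    ((C.xg E γ t)⁻¹ : GL C.Idx E).1 * M * (C.xg E γ t : GL C.Idx E).1 ∈ RD3_V C E := by
  unfold RD3_V at hM
  induction hM using Submodule.span_induction with
  | mem x hx =>
    obtain ⟨δ, hδ, rfl⟩ := hx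
    have hinv : ((C.xg E γ t)⁻¹ : GL C.Idx E).1 * (C.xg E γ t : GL C.Idx E).1 = 1 := by
      rw [← Units.val_mul, inv_mul_cancel, Units.val_one]
    have hval : (C.xg E γ t : GL C.Idx E).1 = C.X E γ t := rfl
    rcases C.ip_cases γ δ with h | h | h | h | h
    · exfalso
      have h1 := (C.ip_eq_neg_two_iff γ δ).1 h
      rw [h1] at hδ
      exact hδ ((C.not_pos_iff γ).1 hγ)
    · obtain ⟨η, hη⟩ := C.exists_add γ δ h
      rw [mul_assoc, hval, RD3_conj_neg C E γ δ η hη t, ← hval, ← mul_assoc, hinv, one_mul]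
      refine Submodule.sub_mem _ (Submodule.subset_span ⟨δ, hδ, rfl⟩)
        (Submodule.smul_mem _ _ (Submodule.subset_span ⟨η, ?_, rfl⟩))
      unfold SLC.Pos at hγ hδ ⊢
      rw [hη, ht_add]
      omega
    · rw [mul_assoc, hval, RD3_conj_nonneg C E γ δ (by omega) t, ← hval, ← mul_assoc, hinv, one_mul]
      exact Submodule.subset_span ⟨δ, hδ, rfl⟩
    · rw [mul_assoc, hval, RD3_conj_nonneg C E γ δ (by omega) t, ← hval, ← mul_assoc, hinv, one_mul]
      exact Submodule.subset_span ⟨δ, hδ, rfl⟩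
    · rw [mul_assoc, hval, RD3_conj_nonneg C E γ δ (by omega) t, ← hval, ← mul_assoc, hinv, one_mul]
      exact Submodule.subset_span ⟨δ, hδ, rfl⟩
  | zero =>
    rw [mul_zero, zero_mul]
    exact Submodule.zero_mem _
  | add x y _ _ hx hy =>
    rw [mul_add, add_mul]
    exact Submodule.add_mem _ hx hy
  | smul a x _ hx =>
    rw [mul_smul_comm, smul_mul_assoc]
    exact Submodule.smul_mem _ _ hx

/-- the logarithmic derivative of `v` lies in `V` and `V` is stable under `v⁻¹ . v` -/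
private def RD3_P {K E : Type*} [Field K] [Field E] [Algebra K E] (D : Derivation K E E)
    (v : GL C.Idx E) : Prop :=
  (v⁻¹ : GL C.Idx E).1 * (v : GL C.Idx E).1.map D ∈ RD3_V C E ∧
    ∀ M ∈ RD3_V C E, (v⁻¹ : GL C.Idx E).1 * M * (v : GL C.Idx E).1 ∈ RD3_V C E

private theorem RD3_P_mul {K E : Type*} [Field K] [Field E] [Algebra K E] (D : Derivation K E E)
    (v v' : GL C.Idx E) (h : RD3_P C D v) (h' : RD3_P C D v') : RD3_P C D (v * v') := by
  have hinv : (v⁻¹ : GL C.Idx E).1 * (v : GL C.Idx E).1 = 1 := by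
    rw [← Units.val_mul, inv_mul_cancel, Units.val_one]
  constructor
  · rw [_root_.mul_inv_rev, Units.val_mul, Units.val_mul, RD3_map_mul, mul_add]
    refine Submodule.add_mem _ ?_ ?_
    · have e : (v'⁻¹ : GL C.Idx E).1 * (v⁻¹ : GL C.Idx E).1 * ((v : GL C.Idx E).1.map D *
          (v' : GL C.Idx E).1) = (v'⁻¹ : GL C.Idx E).1 * ((v⁻¹ : GL C.Idx E).1 *
            (v : GL C.Idx E).1.map D) * (v' : GL C.Idx E).1 := by
        simp only [mul_assoc]
      rw [e]
      exact h'.2 _ h.1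
    · have e : (v'⁻¹ : GL C.Idx E).1 * (v⁻¹ : GL C.Idx E).1 * ((v : GL C.Idx E).1 *
          (v' : GL C.Idx E).1.map D) = (v'⁻¹ : GL C.Idx E).1 * (v' : GL C.Idx E).1.map D := by
        rw [mul_assoc, ← mul_assoc (v⁻¹ : GL C.Idx E).1, hinv, one_mul]
      rw [e]
      exact h'.1
  · intro M hM
    have e : ((v * v')⁻¹ : GL C.Idx E).1 * M * ((v * v' : GL C.Idx E)).1 =
        (v'⁻¹ : GL C.Idx E).1 * ((v⁻¹ : GL C.Idx E).1 * M * (v : GL C.Idx E).1) *
          (v' : GL C.Idx E).1 := by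
      rw [_root_.mul_inv_rev, Units.val_mul, Units.val_mul]
      simp only [mul_assoc]
    rw [e]
    exact h'.2 _ (h.2 _ hM)

private theorem RD3_P_one {K E : Type*} [Field K] [Field E] [Algebra K E] (D : Derivation K E E) :
    RD3_P C D 1 := by
  constructor
  · rw [Units.val_one, RD3_map_one, mul_zero]
    exact Submodule.zero_mem _
  · intro M hM
    simpa using hM

private theorem RD3_P_xg {K E : Type*} [Field K] [Field E] [Algebra K E] (D : Derivation K E E)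
    (γ : C.Root) (hγ : ¬ C.Pos γ) (t : E) : RD3_P C D (C.xg E γ t) := by
  constructor
  · have hval : (C.xg E γ t : GL C.Idx E).1 = C.X E γ t := rfl
    have hinv : ((C.xg E γ t)⁻¹ : GL C.Idx E).1 * (C.xg E γ t : GL C.Idx E).1 = 1 := by
      rw [← Units.val_mul, inv_mul_cancel, Units.val_one]
    rw [hval, RD3_map_X, ← hval, mul_smul_comm, ← mul_assoc, hinv, one_mul]
    exact Submodule.smul_mem _ _ (Submodule.subset_span ⟨γ, hγ, rfl⟩)
  · intro M hM
    exact RD3_V_conj C E γ hγ t M hM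

/-- the triangular argument -/
private theorem RD3_V_zero {E : Type*} [Field E] (X : Matrix C.Idx C.Idx E) (hX : X ∈ RD3_V C E)
    (S : Set (GL C.Idx E)) (hS : ∀ γ ∈ S, γ ∈ C.Gad E ∧ C.Fil 0 (γ : Matrix C.Idx C.Idx E) ∧
      C.Fil 0 ((γ : Matrix C.Idx C.Idx E) * X - X * (γ : Matrix C.Idx C.Idx E)))
    (hreg : ∀ δ : C.Root, ∃ γ ∈ S, C.chi (γ : Matrix C.Idx C.Idx E) δ ≠ 1) : X = 0 := by
  classical
  -- coordinates
  have hco : ∃ c : C.Root → E, (∀ δ, C.Pos δ → c δ = 0) ∧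
      X = ∑ δ, c δ • (C.E δ).map (Int.cast : ℤ → E) := by
    clear hS hreg
    unfold RD3_V at hX
    induction hX using Submodule.span_induction with
    | mem x hx =>
      obtain ⟨δ, hδ, rfl⟩ := hx
      refine ⟨fun η => if η = δ then 1 else 0, ?_, ?_⟩
      · intro η hη
        have : η ≠ δ := by
          rintro rfl
          exact hδ hη
        simp [this]
      · rw [Finset.sum_eq_single δ]
        · simp
        · intro η _ hη
          simp [hη]
        · intro h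
          exact absurd (Finset.mem_univ _) h
    | zero => exact ⟨0, by simp, by simp⟩
    | add x y _ _ hx hy =>
      obtain ⟨c, hc, hx⟩ := hx
      obtain ⟨c', hc', hy⟩ := hy
      refine ⟨fun δ => c δ + c' δ, ?_, ?_⟩
      · intro δ hδ
        show c δ + c' δ = 0
        rw [hc δ hδ, hc' δ hδ, add_zero]
      · rw [hx, hy, ← Finset.sum_add_distrib]
        exact Finset.sum_congr rfl fun δ _ => (add_smul _ _ _).symm
    | smul a x _ hx =>
      obtain ⟨c, hc, hx⟩ := hx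
      refine ⟨fun δ => a * c δ, ?_, ?_⟩
      · intro δ hδ
        show a * c δ = 0
        rw [hc δ hδ, mul_zero]
      · rw [hx, Finset.smul_sum]
        exact Finset.sum_congr rfl fun δ _ => smul_smul _ _ _
  obtain ⟨c, hc, hXc⟩ := hco
  by_contra hne
  -- minimal height
  have hex : ∃ δ : C.Root, c δ ≠ 0 := by
    by_contra hcon
    push Not at hcon
    apply hne
    rw [hXc]
    exact Finset.sum_eq_zero fun δ _ => by rw [hcon δ, zero_smul]
  obtain ⟨δ, hδ, hmin⟩ := Set.exists_min_image {δ : C.Root | c δ ≠ 0} (fun δ => ht δ.1)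
    (Set.toFinite _) hex
  have hδ' : c δ ≠ 0 := hδ
  have hδneg : ht δ.1 < 0 := by
    have h1 : ¬ C.Pos δ := fun h => hδ' (hc δ h)
    have h2 := C.ht_ne_zero δ
    unfold SLC.Pos at h1
    omega
  have hFil : C.Fil (ht δ.1) X := by
    rw [hXc]
    refine C.Fil_sum _ _ fun η _ => ?_
    by_cases h0 : c η = 0
    · rw [h0, zero_smul]
      exact C.Fil_zero _
    · exact C.Fil_smul _ (C.Fil_mono (hmin η h0) (C.Fil_E E η))
  obtain ⟨i, hi⟩ := C.exists_coeff_ne_zero δ E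
  have hentry : X (Sum.inl i) (Sum.inr (-δ)) = - (c δ * (δ.1 i : E)) := by
    rw [hXc, Matrix.sum_apply, Finset.sum_eq_single δ]
    · simp [SLC.E]
    · intro η _ hη
      have h2 : ¬ ((-δ).1 = -η.1) := by
        intro h3
        apply hη
        apply SLC.Root.ext
        rw [SLC.Root.neg_val] at h3
        exact (neg_injective h3).symm
      simp only [Matrix.smul_apply, Matrix.map_apply, SLC.E, if_neg h2, Int.cast_zero, smul_zero]
    · intro h
      exact absurd (Finset.mem_univ _) h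
  have hentry0 : X (Sum.inl i) (Sum.inr (-δ)) ≠ 0 := by
    rw [hentry]
    exact neg_ne_zero.2 (mul_ne_zero hδ' hi)
  obtain ⟨γ, hγS, hγ⟩ := hreg (-δ)
  obtain ⟨hγG, hγ0, hγX⟩ := hS γ hγS
  obtain ⟨τ, hτ, u, hu, hγe⟩ := C.upper γ hγG hγ0
  obtain ⟨d, hd⟩ := C.T_diag τ hτ
  have hu1 := C.Fil_U 1 le_rfl u hu
  -- entries of γ of height 0
  have hent : ∀ a b : C.Idx, C.hti a = C.hti b → a ≠ b → (γ : Matrix C.Idx C.Idx E) a b = 0 := by
    intro a b hab hne
    rw [hγe, Units.val_mul, hd, Matrix.diagonal_mul]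
    have h1 := hu1 a b (by omega)
    rw [Matrix.sub_apply, Matrix.one_apply_ne hne, sub_zero] at h1
    rw [h1, mul_zero]
  have hdiag : (γ : Matrix C.Idx C.Idx E) (Sum.inl i) (Sum.inl i) = 1 := by
    rw [hγe, Units.val_mul, hd, Matrix.diagonal_mul]
    have h1 := hu1 (Sum.inl i) (Sum.inl i) (by omega)
    rw [Matrix.sub_apply, Matrix.one_apply_eq, sub_eq_zero] at h1
    rw [h1, Sum.elim_inl, one_mul]
  have hha : C.hti (Sum.inl i) = 0 := rfl
  have hhb : C.hti (Sum.inr (-δ)) = - ht δ.1 := by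
    simp only [SLC.hti, Sum.elim_inr, SLC.Root.neg_val, ht_neg]
  have h1 : ((γ : Matrix C.Idx C.Idx E) * X) (Sum.inl i) (Sum.inr (-δ)) =
      X (Sum.inl i) (Sum.inr (-δ)) := by
    rw [Matrix.mul_apply, Finset.sum_eq_single (Sum.inl i)]
    · rw [hdiag, one_mul]
    · intro b _ hb
      rcases lt_trichotomy (C.hti b) 0 with h | h | h
      · rw [hFil b (Sum.inr (-δ)) (by omega), mul_zero]
      · rw [hent (Sum.inl i) b (by omega) hb.symm, zero_mul]
      · rw [hγ0 (Sum.inl i) b (by omega), zero_mul]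
    · intro h
      exact absurd (Finset.mem_univ _) h
  have h2 : (X * (γ : Matrix C.Idx C.Idx E)) (Sum.inl i) (Sum.inr (-δ)) =
      X (Sum.inl i) (Sum.inr (-δ)) * C.chi (γ : Matrix C.Idx C.Idx E) (-δ) := by
    rw [Matrix.mul_apply, Finset.sum_eq_single (Sum.inr (-δ))]
    · rfl
    · intro b _ hb
      rcases lt_trichotomy (C.hti b) (- ht δ.1) with h | h | h
      · rw [hγ0 b (Sum.inr (-δ)) (by omega), mul_zero]
      · rw [hent b (Sum.inr (-δ)) (by omega) hb, mul_zero]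
      · rw [hFil (Sum.inl i) b (by omega), zero_mul]
    · intro h
      exact absurd (Finset.mem_univ _) h
  have h3 := hγX (Sum.inl i) (Sum.inr (-δ)) (by omega)
  rw [Matrix.sub_apply, h1, h2] at h3
  have h4 : X (Sum.inl i) (Sum.inr (-δ)) * (1 - C.chi (γ : Matrix C.Idx C.Idx E) (-δ)) = 0 := by
    rw [mul_sub, mul_one]
    exact h3
  rcases mul_eq_zero.1 h4 with h5 | h5
  · exact hentry0 h5
  · exact hγ (sub_eq_zero.1 h5).symm

/-- matrices killed by the derivation: ordered products with constant coordinates -/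
private theorem RD3_lp_const {K E : Type*} [Field K] [Field E] [Algebra K E] (D : Derivation K E E)
    (l : List C.Root) (t : C.Root → E) (h : ∀ β, D (t β) = 0) :
    ((C.adS E).lp l t : Matrix C.Idx C.Idx E).map D = 0 := by
  induction l with
  | nil =>
    have : (C.adS E).lp ([] : List C.Root) t = 1 := rfl
    rw [this, Units.val_one, RD3_map_one]
  | cons β l ih =>
    have e2 : (C.adS E).lp (β :: l) t = C.xg E β (t β) * (C.adS E).lp l t := by
      unfold StSys.lp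
      rw [List.map_cons, List.prod_cons]
      rfl
    have hval : (C.xg E β (t β) : GL C.Idx E).1 = C.X E β (t β) := rfl
    rw [e2, Units.val_mul, RD3_map_mul, ih, mul_zero, add_zero, hval, RD3_map_X, h β, zero_smul,
      zero_mul]

private theorem RD3_nword_const {K E : Type*} [Field K] [Field E] [Algebra K E]
    (D : Derivation K E E) (l : List (Fin n)) :
    ((C.adS E).nword l : Matrix C.Idx C.Idx E).map D = 0 := by
  induction l with
  | nil =>
    have : (C.adS E).nword ([] : List (Fin n)) = 1 := rfl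
    rw [this, Units.val_one, RD3_map_one]
  | cons i l ih =>
    have e2 : (C.adS E).nword (i :: l) = nn (C.xg E) (C.simple i) 1 * (C.adS E).nword l := by
      unfold StSys.nword
      rw [List.map_cons, List.prod_cons]
      rfl
    have e3 : ((nn (C.xg E) (C.simple i) 1 : GL C.Idx E) : Matrix C.Idx C.Idx E).map D = 0 := by
      have hval : (nn (C.xg E) (C.simple i) 1 : GL C.Idx E).1 =
        C.X E (C.simple i) 1 * C.X E (-(C.simple i)) 1⁻¹ * C.X E (C.simple i) 1 := rfl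
      rw [hval, RD3_map_mul, RD3_map_mul, RD3_map_X, RD3_map_X]
      simp
    rw [e2, Units.val_mul, RD3_map_mul, ih, mul_zero, add_zero, e3, zero_mul]

/-- if the derivative of an ordered product vanishes then its coordinates are constants -/
private theorem RD3_lp_deriv {K E : Type*} [Field K] [Field E] [Algebra K E] (D : Derivation K E E)
    (y : C.Root → E) (h : ((C.adS E).lp C.posList y : Matrix C.Idx C.Idx E).map D = 0) :
    ∀ k : ℕ, ∀ β : C.Root, C.Pos β → (ht β.1).toNat = k → D (y β) = 0 := by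
  intro k
  induction k using Nat.strong_induction_on with
  | _ k ih =>
    intro β hβ hk
    have hp : 0 < ht β.1 := hβ
    have h1 := (C.adS E).lp_split (ht β.1 - 1) y
    have h2 : ((C.adS E).lp C.posList (fun γ => if ht γ.1 ≤ ht β.1 - 1 then y γ else 0) :
        Matrix C.Idx C.Idx E).map D = 0 := by
      have e : (C.adS E).lp C.posList (fun γ => if ht γ.1 ≤ ht β.1 - 1 then y γ else 0) =
          (C.adS E).lp C.posList (fun γ => if C.Pos γ ∧ ht γ.1 ≤ ht β.1 - 1 then y γ else 0) := by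
        apply StSys.lp_congr
        intro γ hγ
        have h3 : C.Pos γ := (C.mem_posList γ).mp hγ
        simp [h3]
      rw [e]
      apply RD3_lp_const
      intro γ
      split_ifs with h3
      · have h4 : 0 < ht γ.1 := h3.1
        exact ih (ht γ.1).toNat (by omega) γ h3.1 rfl
      · exact map_zero D
    rw [h1, Units.val_mul, RD3_map_mul, h2, zero_mul, zero_add] at h
    have h5 : ((C.adS E).lp C.posList (fun γ => if ht γ.1 ≤ ht β.1 - 1 then 0 else y γ) :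
        Matrix C.Idx C.Idx E).map D = 0 := by
      have h6 := congrArg (fun M => (((C.adS E).lp C.posList
        (fun γ => if ht γ.1 ≤ ht β.1 - 1 then y γ else 0))⁻¹ : GL C.Idx E).1 * M) h
      simp only [mul_zero] at h6
      rw [← mul_assoc, ← Units.val_mul, inv_mul_cancel, Units.val_one, one_mul] at h6
      exact h6
    obtain ⟨i, hi⟩ := C.exists_coeff_ne_zero β E
    have h7 := C.lp_entry (fun γ => if ht γ.1 ≤ ht β.1 - 1 then 0 else y γ) (ht β.1) (by omega)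
      (fun γ hγ => if_pos (by omega)) β rfl i
    have h8 := congrFun (congrFun h5 (Sum.inl i)) (Sum.inr (-β))
    rw [Matrix.map_apply, h7, if_neg (by omega), map_neg, Derivation.leibniz,
      Derivation.map_intCast, smul_zero, zero_add, smul_eq_mul, Matrix.zero_apply, neg_eq_zero] at h8
    rcases mul_eq_zero.1 h8 with h9 | h9
    · exact absurd h9 hi
    · exact h9

theorem deriv_eq_zero {K E : Type*} [Field K] [Field E] [Algebra K E] (D : Derivation K E E)
    (l : List (Fin n)) (y : C.Root → E) (hy : ∀ β, y β ≠ 0 → C.Pos β ∧ ¬ C.Pos ((C.wd l)⁻¹ β))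
    (g : GL C.Idx E) (hg : g = (C.adS E).lp C.posList y * (C.adS E).nword l)
    (Γ : Set (GL C.Idx K)) (hΓ : ∀ γ ∈ Γ, γ ∈ C.Gad K)
    (hB : ∀ γ ∈ Γ, C.Fil 0 ((g⁻¹ * C.mp (algebraMap K E) γ * g : GL C.Idx E) :
      Matrix C.Idx C.Idx E))
    (hreg : ∀ δ : C.Root, ∃ γ ∈ Γ, C.chi ((g⁻¹ * C.mp (algebraMap K E) γ * g : GL C.Idx E) :
      Matrix C.Idx C.Idx E) δ ≠ 1) (β : C.Root) : D (y β) = 0 := by
  classical
  set u := (C.adS E).lp C.posList y with hu
  set ν := (C.adS E).nword l with hν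
  have hνD : (ν : Matrix C.Idx C.Idx E).map D = 0 := RD3_nword_const C D l
  -- `v = ν⁻¹ u ν`
  have hvP : RD3_P C D (ν⁻¹ * u * ν) := by
    obtain ⟨c, hc, hact⟩ := (C.adS E).nword_acts l
    have key : ∀ L : List C.Root, RD3_P C D (ν⁻¹ * (C.adS E).lp L y * ν) := by
      intro L
      induction L with
      | nil =>
        have : (C.adS E).lp ([] : List C.Root) y = 1 := rfl
        rw [this, mul_one, inv_mul_cancel]
        exact RD3_P_one C D
      | cons β L ih =>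
        have e2 : (C.adS E).lp (β :: L) y = C.xg E β (y β) * (C.adS E).lp L y := by
          unfold StSys.lp
          rw [List.map_cons, List.prod_cons]
          rfl
        have e3 : ν⁻¹ * (C.adS E).lp (β :: L) y * ν = (ν⁻¹ * C.xg E β (y β) * ν) *
            (ν⁻¹ * (C.adS E).lp L y * ν) := by
          rw [e2]
          group
        rw [e3]
        refine RD3_P_mul C D _ _ ?_ ih
        by_cases h0 : y β = 0
        · have h1 : C.xg E β (y β) = 1 := by
            rw [h0]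
            exact (C.adS E).x_zero β
          rw [h1, mul_one, inv_mul_cancel]
          exact RD3_P_one C D
        · have h1 := hact ((C.wd l)⁻¹ β) ((c ((C.wd l)⁻¹ β))⁻¹ * y β)
          have h2 : C.wd l ((C.wd l)⁻¹ β) = β := by
            rw [← Equiv.Perm.mul_apply, mul_inv_cancel, Equiv.Perm.one_apply]
          rw [h2, ← mul_assoc, mul_inv_cancel₀ (hc _), one_mul] at h1
          have h3 : ν⁻¹ * C.xg E β (y β) * ν =
              C.xg E ((C.wd l)⁻¹ β) ((c ((C.wd l)⁻¹ β))⁻¹ * y β) := by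
            have h4 : C.xg E β (y β) = ν * C.xg E ((C.wd l)⁻¹ β)
              ((c ((C.wd l)⁻¹ β))⁻¹ * y β) * ν⁻¹ := h1.symm
            rw [h4]
            group
          rw [h3]
          exact RD3_P_xg C D _ (hy β h0).2 _
    exact key C.posList
  have hgv : g = ν * (ν⁻¹ * u * ν) := by
    rw [hg]
    group
  -- `X = g⁻¹ D g`
  set X : Matrix C.Idx C.Idx E := (g⁻¹ : GL C.Idx E).1 * (g : GL C.Idx E).1.map D with hX
  have hinv : (g⁻¹ : GL C.Idx E).1 * (g : GL C.Idx E).1 = 1 := by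
    rw [← Units.val_mul, inv_mul_cancel, Units.val_one]
  have hinv' : (g : GL C.Idx E).1 * (g⁻¹ : GL C.Idx E).1 = 1 := by
    rw [← Units.val_mul, mul_inv_cancel, Units.val_one]
  have hgX : (g : GL C.Idx E).1.map D = (g : GL C.Idx E).1 * X := by
    rw [hX, ← mul_assoc, hinv', one_mul]
  have hXV : X ∈ RD3_V C E := by
    have h1 := hvP.1
    have h2 : X = ((ν⁻¹ * u * ν)⁻¹ : GL C.Idx E).1 *
        ((ν⁻¹ * u * ν : GL C.Idx E) : GL C.Idx E).1.map D := by
      have h3 : (g : GL C.Idx E).1.map D = (ν : GL C.Idx E).1 *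
          ((ν⁻¹ * u * ν : GL C.Idx E) : GL C.Idx E).1.map D := by
        conv_lhs => rw [hgv]
        rw [Units.val_mul, RD3_map_mul, hνD, zero_mul, zero_add]
      have h4 : (g⁻¹ : GL C.Idx E).1 = ((ν⁻¹ * u * ν)⁻¹ : GL C.Idx E).1 *
          (ν⁻¹ : GL C.Idx E).1 := by
        rw [← Units.val_mul, ← _root_.mul_inv_rev, ← hgv]
      rw [hX, h3, h4, mul_assoc, ← mul_assoc (ν⁻¹ : GL C.Idx E).1, ← Units.val_mul,
        inv_mul_cancel, Units.val_one, one_mul]
    rw [h2]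
    exact h1
  have hgG : g ∈ C.Gad E := by
    rw [hg, ← C.gen_adS E]
    refine mul_mem ?_ ?_
    · apply (C.adS E).U_le_gen 1
      apply (C.adS E).lp_mem 1 y
      intro γ hγ
      by_contra h
      have h1 := (hy γ h).1
      unfold SLC.Pos at h1
      omega
    · exact (C.adS E).N_le_gen ((C.adS E).nword_mem l)
  have hX0 : X = 0 := by
    refine RD3_V_zero C X hXV {γ' | ∃ γ ∈ Γ, γ' = g⁻¹ * C.mp (algebraMap K E) γ * g} ?_ ?_
    · rintro _ ⟨γ, hγ, rfl⟩
      have hF := hB γ hγ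
      refine ⟨?_, hF, ?_⟩
      · exact mul_mem (mul_mem (inv_mem hgG) (C.mp_Gad (algebraMap K E) γ (hΓ γ hγ))) hgG
      · set γE : GL C.Idx E := C.mp (algebraMap K E) γ with hγE
        have hγD : (γE : GL C.Idx E).1.map D = 0 := by
          have h1 := C.mp_val (algebraMap K E) γ
          rw [← hγE] at h1
          rw [h1]
          ext a b
          simp [Matrix.map_apply]
        have h2 : (g : GL C.Idx E).1 * ((g⁻¹ * γE * g : GL C.Idx E)).1 =
            (γE : GL C.Idx E).1 * (g : GL C.Idx E).1 := by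
          rw [← Units.val_mul, ← Units.val_mul]
          congr 1
          group
        have h3 := congrArg (fun M : Matrix C.Idx C.Idx E => M.map D) h2
        beta_reduce at h3
        rw [RD3_map_mul, RD3_map_mul, hγD, zero_mul, zero_add, hgX] at h3
        have h4 : (((g⁻¹ * γE * g : GL C.Idx E)).1).map D =
            ((g⁻¹ * γE * g : GL C.Idx E)).1 * X - X * ((g⁻¹ * γE * g : GL C.Idx E)).1 := by
          have h5 := congrArg (fun M => (g⁻¹ : GL C.Idx E).1 * M) h3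
          simp only [mul_add] at h5
          have e1 : (g⁻¹ : GL C.Idx E).1 * ((g : GL C.Idx E).1 * X *
              ((g⁻¹ * γE * g : GL C.Idx E)).1) = X * ((g⁻¹ * γE * g : GL C.Idx E)).1 := by
            rw [← mul_assoc, ← mul_assoc, hinv, one_mul]
          have e2 : (g⁻¹ : GL C.Idx E).1 * ((g : GL C.Idx E).1 *
              (((g⁻¹ * γE * g : GL C.Idx E)).1).map D) =
              (((g⁻¹ * γE * g : GL C.Idx E)).1).map D := by
            rw [← mul_assoc, hinv, one_mul]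
          have e3 : (g⁻¹ : GL C.Idx E).1 * ((γE : GL C.Idx E).1 * ((g : GL C.Idx E).1 * X)) =
              ((g⁻¹ * γE * g : GL C.Idx E)).1 * X := by
            rw [Units.val_mul, Units.val_mul]
            simp only [mul_assoc]
          rw [e1, e2, e3] at h5
          rw [← h5]
          abel
        rw [← h4]
        intro a b hab
        rw [Matrix.map_apply, hF a b hab, map_zero]
    · intro δ
      obtain ⟨γ, hγ, h⟩ := hreg δ
      exact ⟨_, ⟨γ, hγ, rfl⟩, h⟩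
  have hgD : (g : GL C.Idx E).1.map D = 0 := by
    rw [hgX, hX0, mul_zero]
  have huD : (u : GL C.Idx E).1.map D = 0 := by
    rw [hg, Units.val_mul, RD3_map_mul, hνD, mul_zero, add_zero] at hgD
    have h1 := congrArg (fun M => M * (ν⁻¹ : GL C.Idx E).1) hgD
    simp only [zero_mul] at h1
    rw [mul_assoc, ← Units.val_mul, mul_inv_cancel, Units.val_one, mul_one] at h1
    exact h1
  by_cases hβ : C.Pos β
  · exact RD3_lp_deriv C D y huD _ β hβ rfl
  · have h0 : y β = 0 := by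
      by_contra h
      exact hβ (hy β h).1
    rw [h0, map_zero]

end Pool.Agent.H86.UM
end

section
/- module Pool.Agent.H86.UM.Reg -/
/-!
# Project UM, module Reg: regular and semiregular elements

Notation: `chi_γ(h) = chi (Ψ h) γ` for `h ∈ T`; `chi_γ(h) = ∏ j, chi_j(h) ^ γ_j` (`chi_prod`, with
`chi_j(h) = chi (Ψ h) (simple j)`); `chi_γ(h h') = chi_γ(h) chi_γ(h')` (`chi_mul`), `chi_γ(h) ≠ 0`.
(1) `chi_pow_ne_one`: let `γ` be a root with all coordinates `≥ 0`, and `J` with `γ_j ≠ 0` for some `j`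
with `fib j = J`; `m ≥ 1`. There are `s ∈ k0`, `s ≠ 0` and `h ∈ T` with `a J h = s ^ N`, `a J' h = 1` for
`J' ≠ J` and `chi_γ(h) ^ m ≠ 1`. Proof: for `h` as given by `sep J s`: `chi_j(h) = Φ_j(s ^ N)` if
`fib j = J` (`Fib.poly`) and `chi_j(h) = 1` otherwise (`chi_one`). So
`chi_γ(h) ^ m = P(s)`, `P(s) = ∏_(j with fib j = J) Φ_j(s ^ N) ^ (γ_j * m)` (natural number exponents).
`P` is `IsPoly` (`comp_pow`, `pow`, `prod`) and `P 0 = 0` (`Φ_j(0) = 0`, `N ≠ 0`, some exponent is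
`≥ 1`), so `not_one` gives `s ≠ 0` with `P s ≠ 1`.
(2) `reg_aux`: let `T' ≤ T` be a subgroup and `R` a set of roots such that for each `γ ∈ R` and each
`m ≥ 1` some `h ∈ T'` has `chi_γ(h) ^ m ≠ 1`. Then there is `h ∈ T'` with `chi_γ(h) ≠ 1` for all
`γ ∈ R`. Proof: the kernels `K_γ = {h ∈ T' | chi_γ(h) = 1}`, `γ ∈ R`, are subgroups of `T'` of infinite
index (if the index is `m` then `h ^ m ∈ K_γ` for all `h ∈ T'`, as `T'` is commutative; `K_γ` is normal,
`Subgroup.pow_index_mem`); by B.H. Neumann's lemma (Mathlib: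
`Subgroup.exists_finiteIndex_of_leftCoset_cover` or a variant in
`Mathlib/GroupTheory/CosetCover.lean`) finitely many subgroups of infinite index do not cover `T'`.
(3) `exists_regular'`: (2) with `T' = T`, `R` = positive roots, (1) for some `j` with `γ_j ≠ 0`; for
negative roots `chi_(-γ) = chi_γ⁻¹`.
(4) `exists_semiregular'`: (2) with `T' = {h ∈ T | a J h = 1}` (a subgroup by `a_mul`; contains the
elements of `sep J'`, `J' ≠ J`) and `R` = positive roots `γ` with `γ_j ≠ 0` for some `j`, `fib j ≠ J`;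
apply (1) with `J' = fib j`. Positive roots have coordinates `≥ 0` (`pos_iff`), negative roots by
inversion.
-/

set_option autoImplicit false
open Matrix
open scoped Pointwise

namespace Pool.Agent.H86.UM

open Pool.Agent.H75.UL

variable {n : ℕ} (C : SLC n)

private theorem Reg_neumann {G : Type*} [Group G] {F : Type*} [Field F] {ι : Type*} (R : Finset ι)
    (φ : ι → G →* F) (h : ∀ γ ∈ R, ∀ m : ℕ, 1 ≤ m → ∃ g : G, φ γ g ^ m ≠ 1) :
    ∃ g, ∀ γ ∈ R, φ γ g ≠ 1 := by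
  by_contra hc
  push Not at hc
  have hcov : ⋃ i ∈ R, (1 : G) • (((φ i).ker : Subgroup G) : Set G) = Set.univ := by
    rw [Set.eq_univ_iff_forall]
    intro g
    obtain ⟨γ, hγ, h1⟩ := hc g
    rw [Set.mem_iUnion₂]
    refine ⟨γ, hγ, ?_⟩
    rw [one_smul]
    exact h1
  obtain ⟨γ, hγ, hfin⟩ := Subgroup.exists_finiteIndex_of_leftCoset_cover hcov
  obtain ⟨g, hg⟩ := h γ hγ (φ γ).ker.index (Nat.one_le_iff_ne_zero.2 hfin.index_ne_zero)
  have h2 := Subgroup.pow_index_mem (φ γ).ker g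
  rw [MonoidHom.mem_ker, map_pow] at h2
  exact hg h2

private noncomputable def Reg_hom {ι : Type} {E : Type*} [Group E] {k : Type*} [Field k]
    (S : Src ι E k) {F : Type*} [Field F] (Ψ : E →* GL C.Idx F) (h : Tgt C S Ψ)
    (T' : Subgroup E) (hT : T' ≤ S.T) (γ : C.Root) : T' →* F where
  toFun t := C.chi (Ψ t : Matrix C.Idx C.Idx F) γ
  map_one' := by
    rw [OneMemClass.coe_one, map_one]
    unfold SLC.chi
    rw [Units.val_one, Matrix.one_apply_eq]
  map_mul' s t := by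
    rw [Subgroup.coe_mul, map_mul]
    exact C.chi_mul (Ψ s) (Ψ t) (h.mem s) (h.mem t) (h.T_le s (hT s.2)) (h.T_le t (hT t.2)) γ

private theorem Reg_aux {ι : Type} {E : Type*} [Group E] {k : Type*} [Field k]
    (S : Src ι E k) {F : Type*} [Field F] (Ψ : E →* GL C.Idx F) (h : Tgt C S Ψ)
    (T' : Subgroup E) (hT : T' ≤ S.T) (R : Finset C.Root)
    (hR : ∀ γ ∈ R, ∀ m : ℕ, 1 ≤ m → ∃ t ∈ T', C.chi (Ψ t : Matrix C.Idx C.Idx F) γ ^ m ≠ 1) :
    ∃ t ∈ T', ∀ γ ∈ R, C.chi (Ψ t : Matrix C.Idx C.Idx F) γ ≠ 1 := by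
  obtain ⟨g, hg⟩ := Reg_neumann R (Reg_hom C S Ψ h T' hT) fun γ hγ m hm => by
    obtain ⟨t, ht, h1⟩ := hR γ hγ m hm
    exact ⟨⟨t, ht⟩, h1⟩
  exact ⟨g, g.2, fun γ hγ => hg γ hγ⟩

private theorem Reg_neg {ι : Type} {E : Type*} [Group E] {k : Type*} [Field k]
    (S : Src ι E k) {F : Type*} [Field F] (Ψ : E →* GL C.Idx F) (h : Tgt C S Ψ)
    (t : E) (ht : t ∈ S.T) (γ : C.Root) :
    C.chi (Ψ t : Matrix C.Idx C.Idx F) (-γ) = (C.chi (Ψ t : Matrix C.Idx C.Idx F) γ)⁻¹ := by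
  rw [C.chi_prod (Ψ t) (h.mem t) (h.T_le t ht) (-γ), C.chi_prod (Ψ t) (h.mem t) (h.T_le t ht) γ,
    ← Finset.prod_inv_distrib]
  refine Finset.prod_congr rfl fun j _ => ?_
  rw [SLC.Root.neg_val, Pi.neg_apply, _root_.zpow_neg]

private theorem Reg_pow {ι : Type} {E : Type*} [Group E] {k : Type*} [Field k] (S : Src ι E k)
    {F : Type*} [Field F] (Ψ : E →* GL C.Idx F) (h : Tgt C S Ψ) (fib : Fin n → ι)
    (hf : Fib C S Ψ fib) (γ : C.Root) (hγ : ∀ i, 0 ≤ γ.1 i) (J : ι) (j0 : Fin n)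
    (hj0 : fib j0 = J) (hγ0 : γ.1 j0 ≠ 0) (m : ℕ) (hm : 1 ≤ m) :
    ∃ t ∈ S.T, (∀ J', J' ≠ J → S.a J' t = 1) ∧
      C.chi (Ψ t : Matrix C.Idx C.Idx F) γ ^ m ≠ 1 := by
  classical
  have : Infinite S.k0 := S.k0_inf
  choose Φ hΦadd hΦ1 hΦ hΦmul using hf.poly
  let P : S.k0 → F := fun s => ∏ j ∈ Finset.univ.filter (fun j => fib j = J),
    (Φ j (1 * s ^ S.N)) ^ ((γ.1 j).toNat * m)
  have hP : IsPoly (∑ j ∈ Finset.univ.filter (fun j => fib j = J),
      S.N * ((γ.1 j).toNat * m)) P := by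
    refine IsPoly.prod _ (fun j => S.N * ((γ.1 j).toNat * m)) _ fun j _ => ?_
    exact (IsPoly.comp_pow (Φ j) (hΦadd j) S.N 1).pow _
  have hP0 : P 0 = 0 := by
    refine Finset.prod_eq_zero (i := j0) ?_ ?_
    · rw [Finset.mem_filter]
      exact ⟨Finset.mem_univ _, hj0⟩
    · rw [zero_pow S.N_ne, mul_zero]
      have h0 : Φ j0 0 = 0 := by
        have := hΦadd j0 0 0
        rw [add_zero] at this
        exact left_eq_add.1 this
      rw [h0, zero_pow]
      have h1 : 0 ≤ γ.1 j0 := hγ j0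
      have h2 : (γ.1 j0).toNat ≠ 0 := by omega
      exact Nat.mul_ne_zero h2 (by omega)
  obtain ⟨s, hs0, hs1⟩ := hP.not_one hP0
  have hsk : (s : k) ≠ 0 := fun h0 => hs0 (by exact_mod_cast h0)
  obtain ⟨t, ht, ha, ha'⟩ := S.sep J (s : k) s.2 hsk
  refine ⟨t, ht, ha', ?_⟩
  have hchi : C.chi (Ψ t : Matrix C.Idx C.Idx F) γ ^ m = P s := by
    rw [C.chi_prod (Ψ t) (h.mem t) (h.T_le t ht) γ, ← Finset.prod_pow]
    simp only [P]
    rw [Finset.prod_filter]
    refine Finset.prod_congr rfl fun j _ => ?_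
    have hcast : γ.1 j = (((γ.1 j).toNat : ℕ) : ℤ) := (Int.toNat_of_nonneg (hγ j)).symm
    rw [hcast, zpow_natCast, Int.toNat_natCast]
    split_ifs with hj
    · rw [hΦ j t ht s hs0 (by rw [hj]; exact ha), one_mul, pow_mul]
    · rw [hf.chi_one j t ht (ha' (fib j) hj), one_pow, one_pow]
  rw [hchi]
  exact hs1

private theorem Reg_pow' {ι : Type} {E : Type*} [Group E] {k : Type*} [Field k] (S : Src ι E k)
    {F : Type*} [Field F] (Ψ : E →* GL C.Idx F) (h : Tgt C S Ψ) (fib : Fin n → ι)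
    (hf : Fib C S Ψ fib) (γ : C.Root) (J : ι) (j0 : Fin n)
    (hj0 : fib j0 = J) (hγ0 : γ.1 j0 ≠ 0) (m : ℕ) (hm : 1 ≤ m) :
    ∃ t ∈ S.T, (∀ J', J' ≠ J → S.a J' t = 1) ∧
      C.chi (Ψ t : Matrix C.Idx C.Idx F) γ ^ m ≠ 1 := by
  rcases C.pos_or_neg γ with hγ | hγ
  · exact Reg_pow C S Ψ h fib hf γ hγ J j0 hj0 hγ0 m hm
  · obtain ⟨t, ht, ha, h1⟩ := Reg_pow C S Ψ h fib hf (-γ) (fun i => by
      have := hγ i
      rw [SLC.Root.neg_val, Pi.neg_apply]
      omega) J j0 hj0 (by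
      rw [SLC.Root.neg_val, Pi.neg_apply]
      omega) m hm
    refine ⟨t, ht, ha, fun h2 => h1 ?_⟩
    rw [Reg_neg C S Ψ h t ht γ, inv_pow, h2, inv_one]

theorem exists_regular' {ι : Type} {E : Type*} [Group E] {k : Type*} [Field k] (S : Src ι E k)
    {F : Type*} [Field F] (Ψ : E →* GL C.Idx F) (h : Tgt C S Ψ) (fib : Fin n → ι)
    (hf : Fib C S Ψ fib) :
    ∃ t ∈ S.T, ∀ γ : C.Root, C.chi (Ψ t : Matrix C.Idx C.Idx F) γ ≠ 1 := by
  classical
  obtain ⟨t, ht, h1⟩ := Reg_aux C S Ψ h S.T le_rfl Finset.univ fun γ _ m hm => by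
    obtain ⟨j, hj⟩ := Function.ne_iff.1 (C.root_ne_zero γ)
    obtain ⟨t, ht, _, h1⟩ := Reg_pow' C S Ψ h fib hf γ (fib j) j rfl hj m hm
    exact ⟨t, ht, h1⟩
  exact ⟨t, ht, fun γ => h1 γ (Finset.mem_univ γ)⟩

theorem exists_semiregular' {ι : Type} {E : Type*} [Group E] {k : Type*} [Field k] (S : Src ι E k)
    {F : Type*} [Field F] (Ψ : E →* GL C.Idx F) (h : Tgt C S Ψ) (fib : Fin n → ι)
    (hf : Fib C S Ψ fib) (J : ι) :
    ∃ t ∈ S.T, S.a J t = 1 ∧ ∀ γ : C.Root, (∃ j, fib j ≠ J ∧ γ.1 j ≠ 0) →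
      C.chi (Ψ t : Matrix C.Idx C.Idx F) γ ≠ 1 := by
  classical
  have ha1 : S.a J 1 = 1 := by
    have h1 := S.a_mul J 1 S.T.one_mem 1 S.T.one_mem
    rw [mul_one] at h1
    have h2 := S.a_ne J 1 S.T.one_mem
    exact (mul_right_cancel₀ h2 (by rw [one_mul]; exact h1)).symm
  let T' : Subgroup E :=
    { carrier := {t | t ∈ S.T ∧ S.a J t = 1}
      mul_mem' := by
        rintro s t ⟨hs, hs1⟩ ⟨ht, ht1⟩
        exact ⟨S.T.mul_mem hs ht, by rw [S.a_mul J s hs t ht, hs1, ht1, one_mul]⟩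
      one_mem' := ⟨S.T.one_mem, ha1⟩
      inv_mem' := by
        rintro t ⟨ht, ht1⟩
        refine ⟨S.T.inv_mem ht, ?_⟩
        have h1 := S.a_mul J t⁻¹ (S.T.inv_mem ht) t ht
        rw [inv_mul_cancel, ha1, ht1, mul_one] at h1
        exact h1.symm }
  have hT' : T' ≤ S.T := fun t ht => ht.1
  obtain ⟨t, ht, h1⟩ := Reg_aux C S Ψ h T' hT'
    (Finset.univ.filter fun γ : C.Root => ∃ j, fib j ≠ J ∧ γ.1 j ≠ 0) fun γ hγ m hm => by
    rw [Finset.mem_filter] at hγ
    obtain ⟨j, hj, hγj⟩ := hγ.2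
    obtain ⟨t, ht, ha, h1⟩ := Reg_pow' C S Ψ h fib hf γ (fib j) j rfl hγj m hm
    exact ⟨t, ⟨ht, ha J (Ne.symm hj)⟩, h1⟩
  refine ⟨t, ht.1, ht.2, fun γ hγ => h1 γ ?_⟩
  rw [Finset.mem_filter]
  exact ⟨Finset.mem_univ _, hγ⟩

end Pool.Agent.H86.UM
end

section
/- module Pool.Agent.H86.UM.W2 -/
/-!
# Project UM, module W2: nonvanishing from a word

`Ψ` maps `U` into `U(F)`; `x₀ ∈ X J₀` and the entries `p` of `l`, `p.2 ∈ X p.1`, form a word of length
`ht θ` whose iterated commutator is not killed by `Ψ`, and all orbits `J` occur in the word. Then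
(a) for each simple root `j` of the target `xi_j` is not zero on `Ψ (X J)` for some `J`: otherwise
`iad_eq_zero` and `icomm_eq_one` (as in `nonvanish` in H86/UL/P1.lean, `P1_icomm_map`);
(b) for each `J` some `xi_j` is not zero on `Ψ (X J)`: otherwise one of the entries `h` has
`ld (Ψ h) = 0`, so `iad .. = 0` and again `icomm_eq_one`.
-/

set_option autoImplicit false
open Matrix

namespace Pool.Agent.H86.UM

open Pool.Agent.H75.UL

variable {n : ℕ} (C : SLC n)

private theorem W2_iad_zero {ι R : Type*} [Fintype ι] [CommRing R] (l : List (Matrix ι ι R)) :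
    iad (0 : Matrix ι ι R) l = 0 := by
  induction l with
  | nil => rfl
  | cons B l ih =>
    have h1 : iad (0 : Matrix ι ι R) (B :: l) = iad (B * 0 - 0 * B) l := rfl
    rw [h1, mul_zero, zero_mul, sub_zero, ih]

private theorem W2_iad_mem_zero {ι R : Type*} [Fintype ι] [CommRing R] (l : List (Matrix ι ι R)) :
    ∀ A : Matrix ι ι R, (∃ B ∈ l, B = 0) → iad A l = 0 := by
  induction l with
  | nil =>
    rintro A ⟨B, hB, -⟩
    exact absurd hB List.not_mem_nil
  | cons B l ih =>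
    rintro A ⟨B', hB', h0⟩
    have h1 : iad A (B :: l) = iad (B * A - A * B) l := rfl
    rw [h1]
    rcases List.mem_cons.mp hB' with h | h
    · rw [← h, h0, mul_zero, zero_mul, sub_zero, W2_iad_zero]
    · exact ih _ ⟨B', h, h0⟩

private theorem W2_ld_zero {F : Type*} [Field F] (M : Matrix C.Idx C.Idx F)
    (h : ∀ j, C.xi j M = 0) : C.ld M = 0 := by
  unfold SLC.ld
  apply Finset.sum_eq_zero
  intro j _
  rw [h j, zero_smul]

theorem nonvan_of_word (θ : C.Root) (hθ : C.IsHighest θ) {ι : Type} {E : Type*} [Group E]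
    {F : Type*} [Field F] (Ψ : E →* GL C.Idx F) (X : ι → Subgroup E)
    (hU : ∀ J, ∀ u ∈ X J, Ψ u ∈ (C.adS F).U 1)
    (J₀ : ι) (x₀ : E) (hx₀ : x₀ ∈ X J₀) (l : List (ι × E)) (hl : ∀ p ∈ l, p.2 ∈ X p.1)
    (hlen : (l.length : ℤ) + 1 = ht θ.1) (hocc : ∀ J, J = J₀ ∨ ∃ p ∈ l, p.1 = J)
    (hne : Ψ (icomm x₀ (l.map Prod.snd)) ≠ 1) :
    (∀ j, ∃ J, ∃ x ∈ X J, C.xi j (Ψ x : Matrix C.Idx C.Idx F) ≠ 0) ∧
    ∀ J, ∃ j, ∃ x ∈ X J, C.xi j (Ψ x : Matrix C.Idx C.Idx F) ≠ 0 := by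
  have key : iad (C.ld (Ψ x₀ : Matrix C.Idx C.Idx F))
      (l.map fun p => C.ld (Ψ p.2 : Matrix C.Idx C.Idx F)) ≠ 0 := by
    intro h0
    apply hne
    rw [SLC.P1_icomm_map, List.map_map]
    apply C.icomm_eq_one θ hθ
    · exact hU J₀ x₀ hx₀
    · intro h hh
      obtain ⟨p, hp, rfl⟩ := List.mem_map.mp hh
      exact hU p.1 p.2 (hl p hp)
    · rw [List.length_map]
      exact hlen
    · have h3 : ∀ l' : List (GL C.Idx F),
          (l' >>= fun a => pure (a : Matrix C.Idx C.Idx F)) =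
            l'.map (fun h : GL C.Idx F => (h : Matrix C.Idx C.Idx F)) := by
        intro l'
        simp [List.map_eq_flatMap]
      rw [h3, List.map_map, List.map_map]
      exact h0
  constructor
  · intro j
    by_contra hcon
    have hz : ∀ J, ∀ x ∈ X J, C.xi j (Ψ x : Matrix C.Idx C.Idx F) = 0 := by
      intro J x hx
      by_contra h
      exact hcon ⟨J, x, hx, h⟩
    apply key
    have h1 := C.iad_eq_zero θ hθ j (Ψ x₀ : Matrix C.Idx C.Idx F)
      (l.map fun p => (Ψ p.2 : Matrix C.Idx C.Idx F)) (hz J₀ x₀ hx₀)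
      (by
        intro B hB
        obtain ⟨p, hp, rfl⟩ := List.mem_map.mp hB
        exact hz p.1 p.2 (hl p hp))
      (by rw [List.length_map]; exact hlen)
    rw [List.map_map] at h1
    exact h1
  · intro J
    by_contra hcon
    have hz : ∀ x ∈ X J, C.ld (Ψ x : Matrix C.Idx C.Idx F) = 0 := by
      intro x hx
      apply W2_ld_zero
      intro j
      by_contra h
      exact hcon ⟨j, x, hx, h⟩
    apply key
    rcases hocc J with h | ⟨p, hp, h⟩
    · rw [hz x₀ (h ▸ hx₀), W2_iad_zero]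
    · apply W2_iad_mem_zero
      exact ⟨_, List.mem_map.mpr ⟨p, hp, rfl⟩, hz p.2 (h ▸ hl p hp)⟩

end Pool.Agent.H86.UM
end
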