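import Pool.Agent.H86.AL.M02
import Pool.Agent.H86.AL.M04
import Pool.Agent.H86.AL.M06
import Pool.Agent.H86.AL.Dg
import Pool.Agent.H86.AL.M07

/-!
# M10: collected modules

Pool.Agent.H75.UT.D1
Pool.Agent.H75.UT.D1b
Pool.Agent.H75.UT.D5
Pool.Agent.H75.UT.D2
Pool.Agent.H75.UT.D6y
Pool.Agent.H75.UT.D6a
Pool.Agent.H75.UT.D7
Pool.Agent.H75.UT.D3
Pool.Agent.H75.UT.D6b
Pool.Agent.H75.UT.D7i
Pool.Agent.H75.UK.K1
Pool.Agent.H75.UK.K2
Pool.Agent.H75.UK.K1b
Pool.Agent.H75.UK.K6a
Pool.Agent.H75.UK.K3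
Pool.Agent.H75.UK.K4
Pool.Agent.H75.UK.K6
-/

section
/- module Pool.Agent.H75.UT.D1 -/
/-!
# Project UT, module D1

The action of `ρ` on the roots.

`r_ht`: reindex the sum (`r_val`). `r_pos`: `Pos β` is `0 < ht β`. `r_ip` is `ip_lmap`, `r_add` is
`lmap_add`. `r_refl`: `refl_val`, `r_ip` and linearity of `lmap`. `W_conj`: closure induction,
`rE * reflE (simple i) * rE⁻¹ = reflE (simple (ρ i))` from `r_refl`, `r_simple`. `r_iter`: induction
on `l`. `r_m`: `pow_orderOf_eq_one`. `r_iter_eq`: `m ≤ 3`; for `m = 3`: `r (r β) = β` implies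
`r β = r (r (r β)) = β`. `sg_add` is `eta_add`. `sgp_m`: the function
`f v = ∏_{j<m} eta ρ (lmap (ρ^j) v)` on the lattice satisfies `f (v + w) * eps v w = f v * f w *
eps (lmap (ρ^m) v) (lmap (ρ^m) w)` (induction on the number of factors, `eta_add`, all values are
`±1`), and `ρ^m = 1`, so `f` is multiplicative; `f (single i) = 1` (`eta_single`); so `f = 1`.
-/

set_option autoImplicit false
open Matrix
universe u
namespace Pool.Agent.H75.UL

namespace Dg
variable {n : ℕ} {C : SLC n} (D : Dg C)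

/-- The order of `ρ`. -/
noncomputable def m : ℕ := orderOf D.ρ

theorem m_cases : D.m = 1 ∨ D.m = 2 ∨ D.m = 3 := by
  have h1 : 0 < D.m := orderOf_pos D.ρ
  have h2 : D.m ≤ 3 := D.ord
  omega

theorem r_ht (β : C.Root) : ht (D.r β).1 = ht β.1 := by
  unfold ht
  exact Equiv.sum_comp D.ρ.symm β.1

theorem r_pos (β : C.Root) : C.Pos (D.r β) ↔ C.Pos β := by
  unfold SLC.Pos
  rw [D.r_ht]

theorem r_ip (α β : C.Root) : C.ip (D.r α).1 (D.r β).1 = C.ip α.1 β.1 :=
  C.ip_lmap D.ρ D.hρ α.1 β.1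

theorem r_add (α β γ : C.Root) (h : γ.1 = α.1 + β.1) : (D.r γ).1 = (D.r α).1 + (D.r β).1 := by
  change SLC.lmap D.ρ γ.1 = SLC.lmap D.ρ α.1 + SLC.lmap D.ρ β.1
  rw [h, SLC.lmap_add]

theorem r_refl (α β : C.Root) : D.r (C.refl α β) = C.refl (D.r α) (D.r β) := by
  apply SLC.Root.ext
  rw [SLC.refl_val, D.r_ip]
  change SLC.lmap D.ρ (C.refl α β).1 = _
  rw [SLC.refl_val]
  rfl

private theorem D1_conj_simple (i : Fin n) :
    D.rE * C.reflE (C.simple i) * D.rE⁻¹ = C.reflE (C.simple (D.ρ i)) := by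
  ext1 γ
  have h : D.r (D.rE⁻¹ γ) = γ := by
    rw [← rE_apply]
    exact D.rE.apply_symm_apply γ
  rw [Equiv.Perm.mul_apply, Equiv.Perm.mul_apply, rE_apply, SLC.reflE_apply, SLC.reflE_apply,
    D.r_refl, D.r_simple, h]

theorem W_conj (w : Equiv.Perm C.Root) (hw : w ∈ C.W) : D.rE * w * D.rE⁻¹ ∈ C.W := by
  unfold SLC.W at hw ⊢
  induction hw using Subgroup.closure_induction with
  | mem x hx =>
    obtain ⟨i, rfl⟩ := hx
    rw [D.D1_conj_simple]
    exact Subgroup.subset_closure ⟨_, rfl⟩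
  | one =>
    rw [mul_one, mul_inv_cancel]
    exact Subgroup.one_mem _
  | mul x y _ _ hx hy =>
    have h : D.rE * (x * y) * D.rE⁻¹ = (D.rE * x * D.rE⁻¹) * (D.rE * y * D.rE⁻¹) := by group
    rw [h]
    exact Subgroup.mul_mem _ hx hy
  | inv x _ hx =>
    have h : D.rE * x⁻¹ * D.rE⁻¹ = (D.rE * x * D.rE⁻¹)⁻¹ := by group
    rw [h]
    exact Subgroup.inv_mem _ hx

theorem r_iter (l : ℕ) (β : C.Root) : (D.r^[l] β).1 = SLC.lmap (D.ρ ^ l) β.1 := by
  induction l with
  | zero => rfl
  | succ l ih =>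
    rw [Function.iterate_succ_apply']
    change SLC.lmap D.ρ (D.r^[l] β).1 = _
    rw [ih, pow_succ']
    rfl

theorem r_iter_simple (l : ℕ) (i : Fin n) : D.r^[l] (C.simple i) = C.simple ((D.ρ ^ l) i) := by
  apply SLC.Root.ext
  rw [D.r_iter]
  exact SLC.lmap_single _ i

theorem r_m (β : C.Root) : D.r^[D.m] β = β := by
  apply SLC.Root.ext
  rw [D.r_iter]
  unfold m
  rw [pow_orderOf_eq_one]
  rfl

theorem r_iter_eq (β : C.Root) (hβ : D.r β ≠ β) (l l' : ℕ) (hl : l < D.m) (hl' : l' < D.m)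
    (h : D.r^[l] β = D.r^[l'] β) : l = l' := by
  have hm := D.r_m β
  rcases D.m_cases with h1 | h1 | h1
  · omega
  · rw [h1] at hl hl'
    interval_cases l <;> interval_cases l'
    · rfl
    · exact absurd h.symm hβ
    · exact absurd h hβ
    · rfl
  · rw [h1] at hl hl' hm
    have h2 : D.r (D.r β) ≠ β := by
      intro h3
      apply hβ
      have h4 : D.r (D.r (D.r β)) = β := hm
      rw [h3] at h4
      exact h4
    have h3 : D.r (D.r β) ≠ D.r β := fun h4 => hβ (D.r_injective h4)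
    interval_cases l <;> interval_cases l'
    · rfl
    · exact absurd h.symm hβ
    · exact absurd h.symm h2
    · exact absurd h hβ
    · rfl
    · exact absurd h.symm h3
    · exact absurd h h2
    · exact absurd h h3
    · rfl

theorem sg_add (α β γ : C.Root) (h : γ.1 = α.1 + β.1) :
    D.sg γ * C.eps α.1 β.1 = D.sg α * D.sg β * C.eps (D.r α).1 (D.r β).1 := by
  unfold sg
  rw [h]
  exact C.eta_add D.ρ D.hρ α.1 β.1

/-- The sign of the `l`-th iterate of `σ`. -/
noncomputable def sgp (l : ℕ) (β : C.Root) : ℤ := ∏ j ∈ Finset.range l, D.sg (D.r^[j] β)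

theorem sgp_eq (l : ℕ) (β : C.Root) : D.sgp l β = 1 ∨ D.sgp l β = -1 := by
  unfold sgp
  induction l with
  | zero => left; simp
  | succ l ih =>
    rw [Finset.prod_range_succ]
    rcases ih with h | h <;> rcases D.sg_eq (D.r^[l] β) with h' | h' <;> rw [h, h'] <;> simp

/-- The product of the signs as a function on the lattice. -/
private noncomputable def D1_f (l : ℕ) (v : Fin n → ℤ) : ℤ :=
  ∏ j ∈ Finset.range l, C.eta D.ρ (SLC.lmap (D.ρ ^ j) v)

private theorem D1_f_add (l : ℕ) (v w : Fin n → ℤ) :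
    D.D1_f l (v + w) * C.eps v w =
      D.D1_f l v * D.D1_f l w * C.eps (SLC.lmap (D.ρ ^ l) v) (SLC.lmap (D.ρ ^ l) w) := by
  induction l with
  | zero =>
    unfold D1_f
    simp only [Finset.range_zero, Finset.prod_empty, one_mul]
    rfl
  | succ l ih =>
    have h := C.eta_add D.ρ D.hρ (SLC.lmap (D.ρ ^ l) v) (SLC.lmap (D.ρ ^ l) w)
    have e1 : ∀ u : Fin n → ℤ, SLC.lmap (D.ρ ^ (l + 1)) u = SLC.lmap D.ρ (SLC.lmap (D.ρ ^ l) u) := by
      intro u
      rw [pow_succ']
      rfl
    have e2 : ∀ u : Fin n → ℤ, D.D1_f (l + 1) u = D.D1_f l u * C.eta D.ρ (SLC.lmap (D.ρ ^ l) u) :=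
      fun u => Finset.prod_range_succ _ _
    rw [e2, e2, e2, e1, e1, SLC.lmap_add]
    linear_combination C.eta D.ρ (SLC.lmap (D.ρ ^ l) v + SLC.lmap (D.ρ ^ l) w) * ih +
      D.D1_f l v * D.D1_f l w * h

private theorem D1_f_mul (v w : Fin n → ℤ) :
    D.D1_f D.m (v + w) = D.D1_f D.m v * D.D1_f D.m w := by
  have h := D.D1_f_add D.m v w
  have e : ∀ u : Fin n → ℤ, SLC.lmap (D.ρ ^ D.m) u = u := by
    intro u
    unfold m
    rw [pow_orderOf_eq_one]
    rfl
  rw [e, e] at h
  exact mul_right_cancel₀ (C.eps_ne_zero v w) h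

private theorem D1_f_sq (l : ℕ) (v : Fin n → ℤ) : D.D1_f l v * D.D1_f l v = 1 := by
  unfold D1_f
  rw [← Finset.prod_mul_distrib]
  exact Finset.prod_eq_one fun j _ => C.eta_sq D.ρ _

private theorem D1_f_one (v : Fin n → ℤ) : D.D1_f D.m v = 1 := by
  have h0 : D.D1_f D.m 0 = 1 := by
    have h := D.D1_f_mul 0 0
    rw [add_zero, D.D1_f_sq] at h
    exact h
  let A : AddSubgroup (Fin n → ℤ) :=
    { carrier := {v | D.D1_f D.m v = 1}
      zero_mem' := h0
      add_mem' := by
        intro a b ha hb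
        change D.D1_f D.m (a + b) = 1
        rw [D.D1_f_mul, show D.D1_f D.m a = 1 from ha, show D.D1_f D.m b = 1 from hb, mul_one]
      neg_mem' := by
        intro a ha
        change D.D1_f D.m (-a) = 1
        have h := D.D1_f_mul (-a) a
        rw [neg_add_cancel, h0, show D.D1_f D.m a = 1 from ha, mul_one] at h
        exact h.symm }
  have hs : ∀ i : Fin n, (Pi.single i 1 : Fin n → ℤ) ∈ A := by
    intro i
    change D.D1_f D.m (Pi.single i 1) = 1
    unfold D1_f
    refine Finset.prod_eq_one fun j _ => ?_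
    rw [SLC.lmap_single, C.eta_single]
  have hv : v ∈ A := by
    have h : v = ∑ i, v i • (Pi.single i 1 : Fin n → ℤ) := by
      funext j
      simp [Finset.sum_apply, Pi.single_apply]
    rw [h]
    exact AddSubgroup.sum_mem _ fun i _ => AddSubgroup.zsmul_mem _ (hs i) _
  exact hv

theorem sgp_m (β : C.Root) : D.sgp D.m β = 1 := by
  have h := D.D1_f_one β.1
  unfold D1_f at h
  unfold sgp sg
  rw [← h]
  exact Finset.prod_congr rfl fun j _ => by rw [D.r_iter]

end Dg

end Pool.Agent.H75.UL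
end

section
/- module Pool.Agent.H75.UT.D1b -/
/-!
# Project UT, module D1b

Inner products in an orbit; non-adjacent orbits; signs of fixed roots.

`ip_r`: by `ip_cases` for `ip β (r β)`: `2` gives `r β = β`; `-2` gives `r β = -β`, but
`ht (r β) = ht β ≠ 0`; `1` gives the root `δ = r β - β` of height `0`, impossible (`ht_ne_zero`);
`-1` if `m = 3`: then also `ip (r β) (r² β) = ip (r² β) β = -1` (`r_ip`), so
`v = β + r β + r² β` has `ip v v = 0`, `v = 0`, `3 ht β = 0`, impossible; `m = 1` is impossible as then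
`r β = β`. `ip_orb`: `m = 3`, `l = 2`: `ip β (r² β) = ip (r β) (r³ β) = ip (r β) β`.
`ip_r_NA`: strong induction on `ht` (for positive `β`; for negative `β` use `-β`). Suppose
`ip β (r β) = -1` (so `m = 2`), `γ = β + r β` is a root with `r γ = γ`. There is a simple `α_i` with
`ip γ α_i ≥ 1` (else `ip γ γ ≤ 0`: `γ = ∑ γ_j α_j`, `γ_j ≥ 0`), then `ip γ α_{ρ i} = ip γ α_i`, and
`γ` is not simple (`ht γ ≥ 2`), so both are `1`. Let `J = {i, ρ i}` (orthogonal by `NA` and `ip_r` for
`simple i`, or `ρ i = i`) and apply the reflections of `J` to `β`: `β' = β - ∑_{j ∈ J} ip β α_j α_j`;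
`r β' = ` the same for `r β`, `ip β' (r β') = -1`, and `γ' = β' + r β' = γ - ∑_{j∈J} α_j` has smaller
height; `β'` is positive: otherwise (`refl_simple_pos`) `β` or the first reflection of it is a simple root
of `J`: then `β ∈ J`, but simple roots satisfy `ip = A i (ρ i) ≠ -1`.
`sg_fix`: strong induction on the height of a positive fixed root `β` (negative: `sg_neg`). If `β` is
simple: `sg_simple`. Otherwise there is a simple `i` with `ip β α_i = 1` (as above), and then
`ip β α_{ρ^l i} = 1`. If `ρ i = i`: `β' = β - α_i` is a fixed positive root, `sg_add` gives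
`sg β = sg β'`. If `ρ i ≠ i` and `m = 2`: `β = β' + a + b`, `a = α_i`, `b = α_{ρ i}`, `ip a b = 0`
(`ip_r_NA`); by `sg_add` twice `sg β = sg β' * eps a b * eps b a = sg β'` (all other factors occur
twice; `eps_swap_of_zero`). `m = 3`: the same with `β = β' + a + b + c`.
`sg_adj`: `sg_add` for `γ = β + r β`: `sg γ * eps β (r β) = sg β * sg (r β) * eps (r β) (r (r β))`,
`r (r β) = β` (`m = 2` by `ip_r`), `sg β * sg (r β) = sgp m β = 1`, `eps (r β) β = - eps β (r β)`
(`eps_swap_of_odd`).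
-/

set_option autoImplicit false
open Matrix
universe u
namespace Pool.Agent.H75.UL

namespace Dg
variable {n : ℕ} {C : SLC n} (D : Dg C)

private theorem D1b_sub (β γ δ : C.Root) (h : δ.1 = γ.1 - β.1) : (D.r δ).1 = (D.r γ).1 - (D.r β).1 := by
  have h1 : γ.1 = δ.1 + β.1 := by
    rw [h]
    abel
  rw [D.r_add δ β γ h1]
  abel

theorem ip_r (β : C.Root) (hβ : D.r β ≠ β) :
    C.ip β.1 (D.r β).1 = 0 ∨ (D.m = 2 ∧ C.ip β.1 (D.r β).1 = -1) := by
  rcases C.ip_cases β (D.r β) with h | h | h | h | h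
  · exfalso
    have h1 := (C.ip_eq_neg_two_iff _ _).mp h
    have h2 := D.r_ht β
    rw [h1, SLC.Root.neg_val, ht_neg] at h2
    have h3 := C.ht_ne_zero β
    omega
  · rcases D.m_cases with hm | hm | hm
    · exfalso
      have h1 := D.r_m β
      rw [hm] at h1
      exact hβ h1
    · exact Or.inr ⟨hm, h⟩
    · exfalso
      have h1 := D.r_m β
      rw [hm] at h1
      have h1' : D.r (D.r (D.r β)) = β := h1
      have h2 : C.ip (D.r β).1 (D.r (D.r β)).1 = -1 := by rw [D.r_ip, h]
      have h3 : C.ip (D.r (D.r β)).1 β.1 = -1 := by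
        have h4 := D.r_ip (D.r β) (D.r (D.r β))
        rw [h1', h2] at h4
        exact h4
      have h5 : C.ip (β.1 + (D.r β).1 + (D.r (D.r β)).1) (β.1 + (D.r β).1 + (D.r (D.r β)).1)
          = 0 := by
        simp only [SLC.ip_add_left, SLC.ip_add_right, SLC.Root.norm]
        rw [C.ip_comm (D.r β).1 β.1, C.ip_comm (D.r (D.r β)).1 (D.r β).1,
          C.ip_comm β.1 (D.r (D.r β)).1, h, h2, h3]
        norm_num
      have h6 : β.1 + (D.r β).1 + (D.r (D.r β)).1 = 0 := by
        by_contra hne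
        have := C.ip_pos _ hne
        omega
      have h7 := congrArg ht h6
      rw [ht_add, ht_add, D.r_ht, D.r_ht, D.r_ht] at h7
      have h8 : ht (0 : Fin n → ℤ) = 0 := by simp [ht]
      rw [h8] at h7
      have h9 := C.ht_ne_zero β
      omega
  · exact Or.inl h
  · exfalso
    obtain ⟨δ, hδ⟩ := C.exists_sub β (D.r β) h
    have h1 := C.ht_ne_zero δ
    rw [hδ, ht_sub, D.r_ht] at h1
    omega
  · exfalso
    exact hβ ((C.ip_eq_two_iff _ _).mp h).symm

theorem ip_orb (β : C.Root) (hβ : D.r β ≠ β) (l : ℕ) (h0 : 0 < l) (hl : l < D.m) :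
    C.ip β.1 (D.r^[l] β).1 = C.ip β.1 (D.r β).1 := by
  rcases D.m_cases with hm | hm | hm
  · omega
  · have : l = 1 := by omega
    subst this
    rfl
  · have hl' : l = 1 ∨ l = 2 := by omega
    rcases hl' with rfl | rfl
    · rfl
    · have h1 := D.r_m β
      rw [hm] at h1
      have h1' : D.r (D.r (D.r β)) = β := h1
      change C.ip β.1 (D.r (D.r β)).1 = _
      rw [← D.r_ip, h1', C.ip_comm]

/-- No simple root is adjacent to its image under `ρ`. -/
def NA : Prop := ∀ i, C.A i (D.ρ i) ≠ -1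

private theorem D1b_step (h : D.NA) (β : C.Root) (hm : D.m = 2) (hb : C.ip β.1 (D.r β).1 = -1)
    (hβ : C.Pos β) (k : Fin n) (hk : D.ρ k ≠ k) (h1 : C.ip (C.simple k).1 β.1 = 1)
    (h2 : C.ip (D.r (C.simple k)).1 β.1 = 0) :
    ∃ β' : C.Root, C.Pos β' ∧ ht β'.1 = ht β.1 - 1 ∧ C.ip β'.1 (D.r β').1 = -1 := by
  have hrr : ∀ α : C.Root, D.r (D.r α) = α := by
    intro α
    have h1 := D.r_m α
    rw [hm] at h1
    exact h1
  have hck : D.r (C.simple k) ≠ C.simple k := by
    rw [D.r_simple]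
    intro h3
    exact hk (C.simple_injective h3)
  have hc : C.ip (C.simple k).1 (D.r (C.simple k)).1 = 0 := by
    rcases D.ip_r _ hck with h3 | ⟨-, h3⟩
    · exact h3
    · exfalso
      rw [D.r_simple, SLC.simple_val, SLC.simple_val, C.ip_single] at h3
      exact h k h3
  have hne : β ≠ C.simple k := by
    intro h3
    rw [h3, hc] at hb
    omega
  refine ⟨C.refl (C.simple k) β, C.refl_simple_pos k β hβ hne, ?_, ?_⟩
  · rw [C.refl_val, h1, one_smul, ht_sub, C.ht_simple]
  · have h4 : (C.refl (C.simple k) β).1 = β.1 - (C.simple k).1 := by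
      rw [C.refl_val, h1, one_smul]
    rw [D.D1b_sub _ _ _ h4, h4, C.ip_sub_left, C.ip_sub_right, C.ip_sub_right, hb, hc]
    have h5 : C.ip (C.simple k).1 (D.r β).1 = 0 := by
      rw [← D.r_ip, hrr, h2]
    rw [h5, C.ip_comm β.1, h2]
    norm_num

private theorem D1b_ip_pos (h : D.NA) : ∀ (N : ℕ) (β : C.Root), ht β.1 ≤ N → C.Pos β →
    D.m = 2 → C.ip β.1 (D.r β).1 ≠ -1 := by
  intro N
  induction N with
  | zero =>
    intro β hN hβ
    unfold SLC.Pos at hβ
    have : ((0 : ℕ) : ℤ) = 0 := rfl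
    omega
  | succ N ih =>
    intro β hN hβ hm hb
    have hrr : ∀ α : C.Root, D.r (D.r α) = α := by
      intro α
      have h1 := D.r_m α
      rw [hm] at h1
      exact h1
    have hβ0 : 0 < ht β.1 := hβ
    obtain ⟨γ, hγ⟩ := C.exists_add β (D.r β) hb
    have hγr : D.r γ = γ := by
      apply SLC.Root.ext
      rw [D.r_add _ _ _ hγ, hrr, hγ]
      abel
    have hγht : ht γ.1 = 2 * ht β.1 := by
      rw [hγ, ht_add, D.r_ht]
      ring
    have hγp : C.Pos γ := by
      unfold SLC.Pos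
      omega
    obtain ⟨i, δ, hδ, hδv⟩ := C.exists_descent γ hγp (by
      intro i hi
      have h1 := congrArg (fun α : C.Root => ht α.1) hi
      simp only [C.ht_simple] at h1
      omega)
    have hi1 : C.ip (C.simple i).1 γ.1 = 1 := by
      have h1 := C.ip_add_root _ _ _ hδv
      rw [hδv, C.ip_add_right, h1, (C.simple i).norm]
      norm_num
    rw [hγ, C.ip_add_right] at hi1
    have hi2 : C.ip (C.simple i).1 (D.r β).1 = C.ip (D.r (C.simple i)).1 β.1 := by
      rw [← D.r_ip (D.r (C.simple i)) β, hrr]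
    rw [hi2] at hi1
    by_cases hρ : D.ρ i = i
    · rw [D.r_simple, hρ] at hi1
      omega
    · have hρ' : D.ρ (D.ρ i) = i := by
        have h1 := hrr (C.simple i)
        rw [D.r_simple, D.r_simple] at h1
        exact C.simple_injective h1
      have hx := C.ip_cases (C.simple i) β
      have hy := C.ip_cases (D.r (C.simple i)) β
      have hck : D.r (C.simple i) ≠ C.simple i := by
        rw [D.r_simple]
        intro h3
        exact hρ (C.simple_injective h3)
      have hc : C.ip (C.simple i).1 (D.r (C.simple i)).1 = 0 := by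
        rcases D.ip_r _ hck with h3 | ⟨-, h3⟩
        · exact h3
        · exfalso
          rw [D.r_simple, SLC.simple_val, SLC.simple_val, C.ip_single] at h3
          exact h i h3
      have hx2 : C.ip (C.simple i).1 β.1 ≠ 2 := by
        intro h3
        have h4 := (C.ip_eq_two_iff _ _).mp h3
        rw [← h4, C.ip_comm (D.r (C.simple i)).1, hc, (C.simple i).norm] at hi1
        omega
      have hy2 : C.ip (D.r (C.simple i)).1 β.1 ≠ 2 := by
        intro h3
        have h4 := (C.ip_eq_two_iff _ _).mp h3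
        rw [← h4, hc, (D.r (C.simple i)).norm] at hi1
        omega
      have hcase : (C.ip (C.simple i).1 β.1 = 1 ∧ C.ip (D.r (C.simple i)).1 β.1 = 0) ∨
          (C.ip (C.simple i).1 β.1 = 0 ∧ C.ip (D.r (C.simple i)).1 β.1 = 1) := by
        omega
      have hfin : ∀ k : Fin n, D.ρ k ≠ k → C.ip (C.simple k).1 β.1 = 1 →
          C.ip (D.r (C.simple k)).1 β.1 = 0 → False := by
        intro k hk h1 h2
        obtain ⟨β', hp, hht, hip⟩ := D.D1b_step h β hm hb hβ k hk h1 h2
        exact ih β' (by push_cast at hN; omega) hp hm hip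
      rcases hcase with ⟨h1, h2⟩ | ⟨h1, h2⟩
      · exact hfin i hρ h1 h2
      · refine hfin (D.ρ i) ?_ ?_ ?_
        · rw [hρ']
          exact fun h3 => hρ h3.symm
        · rw [← D.r_simple]
          exact h2
        · rw [D.r_simple, hρ']
          exact h1

theorem ip_r_NA (h : D.NA) (β : C.Root) (hβ : D.r β ≠ β) : C.ip β.1 (D.r β).1 = 0 := by
  rcases D.ip_r β hβ with h1 | ⟨hm, h1⟩
  · exact h1
  · exfalso
    by_cases hp : C.Pos β
    · exact D.D1b_ip_pos h (ht β.1).toNat β (by omega) hp hm h1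
    · have hp' := (C.not_pos_iff β).mp hp
      refine D.D1b_ip_pos h (ht (-β).1).toNat (-β) (by omega) hp' hm ?_
      rw [D.r_neg, SLC.Root.neg_val, SLC.Root.neg_val, C.ip_neg_neg]
      exact h1

/-- one step down: subtract a simple root. -/
private theorem D1b_down (β : C.Root) (hβ : C.Pos β) (k : Fin n)
    (h1 : C.ip (C.simple k).1 β.1 = 1) :
    ∃ β' : C.Root, C.Pos β' ∧ β.1 = (C.simple k).1 + β'.1 ∧ β'.1 = β.1 - (C.simple k).1 := by
  have hne : β ≠ C.simple k := by
    intro h3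
    rw [h3, (C.simple k).norm] at h1
    omega
  refine ⟨C.refl (C.simple k) β, C.refl_simple_pos k β hβ hne, ?_, ?_⟩
  · rw [C.refl_val, h1, one_smul]
    abel
  · rw [C.refl_val, h1, one_smul]

private theorem D1b_sg_pos (h : D.NA) : ∀ (N : ℕ) (β : C.Root), ht β.1 ≤ N → C.Pos β →
    D.r β = β → D.sg β = 1 := by
  intro N
  induction N with
  | zero =>
    intro β hN hβ
    unfold SLC.Pos at hβ
    have : ((0 : ℕ) : ℤ) = 0 := rfl
    omega
  | succ N ih =>
    intro β hN hβ hr
    push_cast at hN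
    by_cases hs : ∃ i, β = C.simple i
    · obtain ⟨i, rfl⟩ := hs
      exact D.sg_simple i
    · simp only [not_exists] at hs
      obtain ⟨i, δ, hδ, hδv⟩ := C.exists_descent β hβ hs
      have hi1 : C.ip (C.simple i).1 β.1 = 1 := by
        have h1 := C.ip_add_root _ _ _ hδv
        rw [hδv, C.ip_add_right, h1, (C.simple i).norm]
        norm_num
      have hinv : ∀ k, C.ip (C.simple (D.ρ k)).1 β.1 = C.ip (C.simple k).1 β.1 := by
        intro k
        have h1 := D.r_ip (C.simple k) β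
        rw [hr, D.r_simple] at h1
        exact h1
      by_cases hρ : D.ρ i = i
      · have hδr : D.r δ = δ := by
          apply SLC.Root.ext
          have h1 : δ.1 = β.1 - (C.simple i).1 := by
            rw [hδv]
            abel
          rw [D.D1b_sub _ _ _ h1, hr, D.r_simple, hρ, h1]
        have h2 := D.sg_add _ _ _ hδv
        rw [D.r_simple, hρ, hδr, D.sg_simple, ih δ (by
          have h3 : ht β.1 = 1 + ht δ.1 := by rw [hδv, ht_add, C.ht_simple]
          omega) hδ hδr, one_mul, one_mul] at h2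
        exact mul_right_cancel₀ (C.eps_ne_zero _ _) (h2.trans (one_mul _).symm)
      · have hck : D.r (C.simple i) ≠ C.simple i := by
          rw [D.r_simple]
          intro h3
          exact hρ (C.simple_injective h3)
        rcases D.m_cases with hm | hm | hm
        · exfalso
          have h1 := D.r_m (C.simple i)
          rw [hm] at h1
          exact hck h1
        · -- order two
          have hρ' : D.ρ (D.ρ i) = i := by
            have h1 := D.r_m (C.simple i)
            rw [hm] at h1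
            have h1' : D.r (D.r (C.simple i)) = C.simple i := h1
            rw [D.r_simple, D.r_simple] at h1'
            exact C.simple_injective h1'
          have hab : C.ip (C.simple i).1 (C.simple (D.ρ i)).1 = 0 := by
            rw [← D.r_simple]
            exact D.ip_r_NA h _ hck
          obtain ⟨β1, hp1, hv1, hv1'⟩ := D1b_down β hβ i hi1
          obtain ⟨β2, hp2, hv2, hv2'⟩ := D1b_down β1 hp1 (D.ρ i) (by
            rw [hv1', C.ip_sub_right, hinv, hi1, C.ip_comm, hab, sub_zero])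
          have hr2 : D.r β2 = β2 := by
            apply SLC.Root.ext
            rw [D.D1b_sub _ _ _ hv2', D.D1b_sub _ _ _ hv1', hr, D.r_simple, D.r_simple, hρ', hv2',
              hv1']
            abel
          have hht : ht β2.1 = ht β.1 - 2 := by
            rw [hv2', ht_sub, hv1', ht_sub, C.ht_simple, C.ht_simple]
            ring
          have hs2 := ih β2 (by omega) hp2 hr2
          have hr1 : (D.r β1).1 = β2.1 + (C.simple i).1 := by
            rw [D.D1b_sub _ _ _ hv1', hr, D.r_simple, hv2', hv1']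
            abel
          have hb1 : β1.1 = β2.1 + (C.simple (D.ρ i)).1 := by
            rw [hv2]
            abel
          have e1 := D.sg_add _ _ _ hv1
          have e2 := D.sg_add _ _ _ hv2
          rw [D.sg_simple, D.r_simple, hr1, hb1, C.eps_add_right, C.eps_add_right, one_mul] at e1
          rw [D.sg_simple, D.r_simple, hρ', hr2, hs2, one_mul, one_mul] at e2
          have e3 := C.eps_swap_of_zero _ _ hab
          have e4 : D.sg β * (C.eps (C.simple i).1 β2.1 *
              C.eps (C.simple i).1 (C.simple (D.ρ i)).1) = 1 * (C.eps (C.simple i).1 β2.1 *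
              C.eps (C.simple i).1 (C.simple (D.ρ i)).1) := by
            rw [e1, ← mul_assoc, e2, e3, one_mul]
          exact mul_right_cancel₀ (mul_ne_zero (C.eps_ne_zero _ _) (C.eps_ne_zero _ _)) e4
        · -- order three
          have hρ' : D.ρ (D.ρ (D.ρ i)) = i := by
            have h1 := D.r_m (C.simple i)
            rw [hm] at h1
            have h1' : D.r (D.r (D.r (C.simple i))) = C.simple i := h1
            rw [D.r_simple, D.r_simple, D.r_simple] at h1'
            exact C.simple_injective h1'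
          have hab : C.ip (C.simple i).1 (C.simple (D.ρ i)).1 = 0 := by
            rw [← D.r_simple]
            exact D.ip_r_NA h _ hck
          have hbc : C.ip (C.simple (D.ρ i)).1 (C.simple (D.ρ (D.ρ i))).1 = 0 := by
            rw [← D.r_simple, ← D.r_simple, D.r_ip]
            exact hab
          have hac : C.ip (C.simple i).1 (C.simple (D.ρ (D.ρ i))).1 = 0 := by
            have h1 := D.r_ip (C.simple (D.ρ (D.ρ i))) (C.simple (D.ρ i))
            rw [D.r_simple, D.r_simple, hρ'] at h1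
            rw [h1, C.ip_comm]
            exact hbc
          obtain ⟨β1, hp1, hv1, hv1'⟩ := D1b_down β hβ i hi1
          obtain ⟨β2, hp2, hv2, hv2'⟩ := D1b_down β1 hp1 (D.ρ i) (by
            rw [hv1', C.ip_sub_right, hinv, hi1, C.ip_comm, hab, sub_zero])
          obtain ⟨β3, hp3, hv3, hv3'⟩ := D1b_down β2 hp2 (D.ρ (D.ρ i)) (by
            rw [hv2', C.ip_sub_right, hv1', C.ip_sub_right, hinv, hinv, hi1,
              C.ip_comm _ (C.simple i).1, hac, C.ip_comm _ (C.simple (D.ρ i)).1, hbc, sub_zero,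
              sub_zero])
          have hr3 : D.r β3 = β3 := by
            apply SLC.Root.ext
            rw [D.D1b_sub _ _ _ hv3', D.D1b_sub _ _ _ hv2', D.D1b_sub _ _ _ hv1', hr, D.r_simple,
              D.r_simple, D.r_simple, hρ', hv3', hv2', hv1']
            abel
          have hht : ht β3.1 = ht β.1 - 3 := by
            rw [hv3', ht_sub, hv2', ht_sub, hv1', ht_sub, C.ht_simple, C.ht_simple, C.ht_simple]
            ring
          have hs3 := ih β3 (by omega) hp3 hr3
          have hb2 : β2.1 = β3.1 + (C.simple (D.ρ (D.ρ i))).1 := by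
            rw [hv3]
            abel
          have hb1 : β1.1 = β3.1 + (C.simple (D.ρ (D.ρ i))).1 + (C.simple (D.ρ i)).1 := by
            rw [hv2, hb2]
            abel
          have hr1 : (D.r β1).1 = β3.1 + (C.simple (D.ρ (D.ρ i))).1 + (C.simple i).1 := by
            rw [D.D1b_sub _ _ _ hv1', hr, D.r_simple, hv3', hv2', hv1']
            abel
          have hr2 : (D.r β2).1 = β3.1 + (C.simple i).1 := by
            rw [D.D1b_sub _ _ _ hv2', D.D1b_sub _ _ _ hv1', hr, D.r_simple, D.r_simple, hv3', hv2',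
              hv1']
            abel
          have e1 := D.sg_add _ _ _ hv1
          have e2 := D.sg_add _ _ _ hv2
          have e3 := D.sg_add _ _ _ hv3
          rw [D.sg_simple, D.r_simple, hr1, hb1, C.eps_add_right, C.eps_add_right,
            C.eps_add_right, C.eps_add_right, one_mul] at e1
          rw [D.sg_simple, D.r_simple, hr2, hb2, C.eps_add_right, C.eps_add_right, one_mul] at e2
          rw [D.sg_simple, D.r_simple, hρ', hr3, hs3, one_mul, one_mul] at e3
          have f1 := C.eps_swap_of_zero _ _ hab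
          have f2 := C.eps_swap_of_zero _ _ hac
          have e4 : D.sg β * (C.eps (C.simple i).1 β3.1 *
              C.eps (C.simple i).1 (C.simple (D.ρ (D.ρ i))).1 *
              C.eps (C.simple i).1 (C.simple (D.ρ i)).1) = 1 * (C.eps (C.simple i).1 β3.1 *
              C.eps (C.simple i).1 (C.simple (D.ρ (D.ρ i))).1 *
              C.eps (C.simple i).1 (C.simple (D.ρ i)).1) := by
            rw [e1, ← mul_assoc, e2, ← mul_assoc, e3, f1, f2, one_mul]
          exact mul_right_cancel₀ (mul_ne_zero (mul_ne_zero (C.eps_ne_zero _ _)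
            (C.eps_ne_zero _ _)) (C.eps_ne_zero _ _)) e4

theorem sg_fix (h : D.NA) (β : C.Root) (hβ : D.r β = β) : D.sg β = 1 := by
  by_cases hp : C.Pos β
  · exact D.D1b_sg_pos h (ht β.1).toNat β (by omega) hp hβ
  · have hp' := (C.not_pos_iff β).mp hp
    rw [← D.sg_neg]
    refine D.D1b_sg_pos h (ht (-β).1).toNat (-β) (by omega) hp' ?_
    rw [D.r_neg, hβ]

theorem sg_adj (β γ : C.Root) (hβ : D.r β ≠ β) (h : γ.1 = β.1 + (D.r β).1) :
    D.r γ = γ ∧ D.sg γ = -1 := by
  have hb := C.ip_add_root _ _ _ h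
  have hm : D.m = 2 := by
    rcases D.ip_r β hβ with h1 | ⟨hm, -⟩
    · omega
    · exact hm
  have hrr : D.r (D.r β) = β := by
    have h1 := D.r_m β
    rw [hm] at h1
    exact h1
  refine ⟨?_, ?_⟩
  · apply SLC.Root.ext
    rw [D.r_add _ _ _ h, hrr, h]
    abel
  · have h1 := D.sg_add _ _ _ h
    have h2 := D.sgp_m β
    rw [hm] at h2
    have h3 : D.sg β * D.sg (D.r β) = 1 := by
      unfold sgp at h2
      rw [Finset.prod_range_succ, Finset.prod_range_succ, Finset.prod_range_zero, one_mul] at h2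
      exact h2
    rw [h3, hrr, one_mul, C.eps_swap_of_odd _ _ (Or.inr hb)] at h1
    refine mul_right_cancel₀ (C.eps_ne_zero β.1 (D.r β).1) (h1.trans ?_)
    ring

end Dg

end Pool.Agent.H75.UL
end

section
/- module Pool.Agent.H75.UT.D5 -/
/-!
# Project UT, module D5

Relative simple reflections.

`wl i` is a word for the longest element `w_J` of the group generated by the simple reflections of the
orbit `J` of `i`: `[i, ρ i, i]` if `i`, `ρ i` are adjacent, otherwise the orbit of `i`.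
`supp i β`: `β` is supported on the orbit of `i`.
`wJ_pos`: each reflection in a simple root `α_j` keeps a positive root other than `α_j` positive and
changes only the coordinate `j` (`refl_simple_pos`), so a positive root not supported on `J` stays
positive and not supported on `J`. `wJ_neg`: a root supported on `J`: if `J` is orthogonal or `{i}`
(non-adjacent case; `ip_r`, `ip_orb`) then a positive root supported on `J` is some `α_j`, `j ∈ J`
(norm: `2 = ip β β = 2 ∑ β_j^2`) and `w_J α_j = -α_j`; in the adjacent case (then `m = 2`,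
`J = {i, ρ i}`) the positive roots supported on `J` are `α_i`, `α_{ρ i}`, `γ = α_i + α_{ρ i}`
(`2 = 2 (a^2 + b^2 - a b)`), `wd [i, ρ i, i] = reflE γ` maps `α_i ↦ -α_{ρ i}`, `α_{ρ i} ↦ -α_i`,
`γ ↦ -γ`. `wJ_comm`: in the non-adjacent case the reflections commute and `ρ` permutes them
(`W_conj`); in the adjacent case `wd (wl i) = reflE γ`, `r γ = γ` (`r_refl`).
`Wr_induct`: induction on the number of positive roots made negative by `w`. If `w ≠ 1` there is `i`
with `¬ Pos (w (simple i))` (`eq_one_of_pos`); as `w` commutes with `rE`, `w` makes all `α_j`, `j ∈ J`,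
negative, and so all positive roots supported on `J` (`W_add`, or: `w` is linear, `W_lin`); so `w * w_J`
makes fewer positive roots negative: `w_J` maps `{β > 0 : w w_J β < 0}` injectively into
`{β > 0 : w β < 0}` minus the roots supported on `J`. `w = (w * w_J) * w_J` as `w_J ^ 2 = 1`.
-/

set_option autoImplicit false
open Matrix
universe u
namespace Pool.Agent.H75.UL

namespace Dg
variable {n : ℕ} {C : SLC n} (D : Dg C)

open Classical in
/-- A word for the relative simple reflection of the orbit of `i`. -/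
noncomputable def wl (i : Fin n) : List (Fin n) :=
  if C.A i (D.ρ i) = -1 then [i, D.ρ i, i] else
    if D.ρ i = i then [i] else (List.range D.m).map fun l => (D.ρ ^ l) i

/-- `β` is supported on the orbit of `i`. -/
def supp (i : Fin n) (β : C.Root) : Prop := ∀ j, β.1 j ≠ 0 → D.ρ.SameCycle i j

private theorem D5_wd_cons (j : Fin n) (l : List (Fin n)) :
    C.wd (j :: l) = C.reflE (C.simple j) * C.wd l := by
  simp [SLC.wd]

private theorem D5_cyc (i j : Fin n) (h : D.ρ.SameCycle i j) :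
    ∃ l, l < D.m ∧ (D.ρ ^ l) i = j := by
  obtain ⟨z, hz⟩ := h
  have hm : 0 < D.m := by
    rcases D.m_cases with h | h | h <;> omega
  have h1 : 0 ≤ z % (D.m : ℤ) := Int.emod_nonneg _ (by omega)
  have h2 : z % (D.m : ℤ) < D.m := Int.emod_lt_of_pos _ (by omega)
  refine ⟨(z % (D.m : ℤ)).toNat, by omega, ?_⟩
  have h3 : D.ρ ^ (z % (D.m : ℤ)) = D.ρ ^ z := zpow_mod_orderOf _ _
  rw [← hz, ← h3]
  conv_rhs => rw [← Int.toNat_of_nonneg h1]
  rw [zpow_natCast]

private theorem D5_same (i : Fin n) (l : ℕ) : D.ρ.SameCycle i ((D.ρ ^ l) i) :=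
  ⟨l, by rw [zpow_natCast]⟩

private theorem D5_A_pow (l : ℕ) (i k : Fin n) :
    C.A ((D.ρ ^ l) i) ((D.ρ ^ l) k) = C.A i k := by
  induction l with
  | zero => rfl
  | succ l ih =>
    rw [pow_succ', Equiv.Perm.mul_apply, Equiv.Perm.mul_apply, D.hρ, ih]

private theorem D5_simple_ne (i : Fin n) (h : D.ρ i ≠ i) :
    D.r (C.simple i) ≠ C.simple i := by
  rw [D.r_simple]
  exact fun h1 => h (C.simple_injective h1)

private theorem D5_orth (i j k : Fin n) (h : C.A i (D.ρ i) ≠ -1) (hj : D.ρ.SameCycle i j)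
    (hk : D.ρ.SameCycle i k) (hne : j ≠ k) : C.A j k = 0 := by
  obtain ⟨a, ha, rfl⟩ := D.D5_cyc i j hj
  obtain ⟨b, hb, rfl⟩ := D.D5_cyc i k hk
  by_cases hi : D.ρ i = i
  · exfalso
    apply hne
    rw [Equiv.Perm.pow_apply_eq_self_of_apply_eq_self hi,
      Equiv.Perm.pow_apply_eq_self_of_apply_eq_self hi]
  · have h0 : ∀ l, 0 < l → l < D.m → C.A i ((D.ρ ^ l) i) = 0 := by
      intro l hl hl'
      have h1 := D.ip_orb (C.simple i) (D.D5_simple_ne i hi) l hl hl'
      rw [D.r_iter_simple, D.r_simple] at h1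
      simp only [SLC.simple_val, SLC.ip_single] at h1
      rw [h1]
      rcases D.ip_r (C.simple i) (D.D5_simple_ne i hi) with h2 | ⟨-, h2⟩
      · rw [D.r_simple] at h2
        simpa only [SLC.simple_val, SLC.ip_single] using h2
      · rw [D.r_simple] at h2
        simp only [SLC.simple_val, SLC.ip_single] at h2
        exact absurd h2 h
    rcases lt_trichotomy a b with hab | hab | hab
    · have h1 : (D.ρ ^ b) i = (D.ρ ^ a) ((D.ρ ^ (b - a)) i) := by
        rw [← Equiv.Perm.mul_apply, ← pow_add]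
        congr 2
        omega
      rw [h1, D.D5_A_pow]
      exact h0 _ (by omega) (by omega)
    · exact absurd (by rw [hab]) hne
    · have h1 : (D.ρ ^ a) i = (D.ρ ^ b) ((D.ρ ^ (a - b)) i) := by
        rw [← Equiv.Perm.mul_apply, ← pow_add]
        congr 2
        omega
      rw [h1, D.D5_A_pow, C.symm]
      exact h0 _ (by omega) (by omega)

private theorem D5_mem (i j : Fin n) (h : C.A i (D.ρ i) ≠ -1) :
    j ∈ D.wl i ↔ D.ρ.SameCycle i j := by
  unfold wl
  rw [if_neg h]
  split_ifs with hi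
  · rw [List.mem_singleton]
    constructor
    · rintro rfl
      exact Equiv.Perm.SameCycle.refl _ _
    · intro hj
      obtain ⟨a, ha, rfl⟩ := D.D5_cyc i j hj
      exact Equiv.Perm.pow_apply_eq_self_of_apply_eq_self hi a
  · rw [List.mem_map]
    constructor
    · rintro ⟨l, -, rfl⟩
      exact D.D5_same i l
    · intro hj
      obtain ⟨a, ha, rfl⟩ := D.D5_cyc i j hj
      exact ⟨a, List.mem_range.2 ha, rfl⟩

private theorem D5_mem' (i j : Fin n) (hj : j ∈ D.wl i) : D.ρ.SameCycle i j := by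
  by_cases h : C.A i (D.ρ i) = -1
  · unfold wl at hj
    rw [if_pos h] at hj
    simp only [List.mem_cons, List.not_mem_nil, or_false] at hj
    rcases hj with rfl | rfl | rfl
    · exact Equiv.Perm.SameCycle.refl _ _
    · exact D.D5_same i 1
    · exact Equiv.Perm.SameCycle.refl _ _
  · exact (D.D5_mem i j h).1 hj

private theorem D5_nodup (i : Fin n) (h : C.A i (D.ρ i) ≠ -1) : (D.wl i).Nodup := by
  unfold wl
  rw [if_neg h]
  split_ifs with hi
  · exact List.nodup_singleton _
  · refine List.Nodup.map_on ?_ List.nodup_range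
    intro a ha b hb hab
    rw [List.mem_range] at ha hb
    refine D.r_iter_eq (C.simple i) (D.D5_simple_ne i hi) a b ha hb ?_
    rw [D.r_iter_simple, D.r_iter_simple, hab]

private theorem D5_wd_out (l : List (Fin n)) (β : C.Root) (k : Fin n) (hk : k ∉ l) :
    (C.wd l β).1 k = β.1 k := by
  induction l with
  | nil => rfl
  | cons j l ih =>
    rw [List.mem_cons, not_or] at hk
    rw [D5_wd_cons, Equiv.Perm.mul_apply, SLC.reflE_apply, SLC.refl_val]
    simp only [Pi.sub_apply, Pi.smul_apply, SLC.simple_val, Pi.single_eq_of_ne hk.1, smul_zero,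
      sub_zero]
    exact ih hk.2

private theorem D5_ip_orth (l : List (Fin n)) (β : C.Root) (j : Fin n)
    (h : ∀ k ∈ l, C.A j k = 0) :
    C.ip (C.simple j).1 (C.wd l β).1 = C.ip (C.simple j).1 β.1 := by
  induction l with
  | nil => rfl
  | cons k l ih =>
    rw [D5_wd_cons, Equiv.Perm.mul_apply, SLC.reflE_apply, SLC.refl_val, SLC.ip_sub_right,
      SLC.ip_smul_right]
    have h1 : C.ip (C.simple j).1 (C.simple k).1 = 0 := by
      simp only [SLC.simple_val, SLC.ip_single]
      exact h k List.mem_cons_self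
    rw [h1, mul_zero, sub_zero]
    exact ih fun k' hk' => h k' (List.mem_cons_of_mem _ hk')

private theorem D5_wd_in (l : List (Fin n)) (hnd : l.Nodup)
    (ho : ∀ j ∈ l, ∀ k ∈ l, j ≠ k → C.A j k = 0) (β : C.Root) (k : Fin n) (hk : k ∈ l) :
    (C.wd l β).1 k = β.1 k - C.ip (C.simple k).1 β.1 := by
  induction l with
  | nil => exact absurd hk List.not_mem_nil
  | cons j l ih =>
    rw [List.nodup_cons] at hnd
    rw [D5_wd_cons, Equiv.Perm.mul_apply, SLC.reflE_apply, SLC.refl_val]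
    simp only [Pi.sub_apply, Pi.smul_apply, SLC.simple_val]
    by_cases hkj : k = j
    · subst hkj
      have h1 := D5_ip_orth l β k fun k' hk' => ho k List.mem_cons_self k'
        (List.mem_cons_of_mem _ hk') (fun he => hnd.1 (he ▸ hk'))
      simp only [SLC.simple_val] at h1
      rw [h1, D5_wd_out l β k hnd.1, Pi.single_eq_same, smul_eq_mul, mul_one]
    · have hk' : k ∈ l := by
        rcases List.mem_cons.1 hk with h | h
        · exact absurd h hkj
        · exact h
      rw [Pi.single_eq_of_ne hkj, smul_zero, sub_zero]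
      exact ih hnd.2 (fun a ha b hb => ho a (List.mem_cons_of_mem _ ha) b
        (List.mem_cons_of_mem _ hb)) hk'

private theorem D5_in (i : Fin n) (h : C.A i (D.ρ i) ≠ -1) (β : C.Root) (k : Fin n)
    (hk : D.ρ.SameCycle i k) :
    (C.wd (D.wl i) β).1 k = β.1 k - C.ip (C.simple k).1 β.1 :=
  D5_wd_in _ (D.D5_nodup i h) (fun a ha b hb hab =>
    D.D5_orth i a b h ((D.D5_mem i a h).1 ha) ((D.D5_mem i b h).1 hb) hab) β k
    ((D.D5_mem i k h).2 hk)

private theorem D5_out (i : Fin n) (β : C.Root) (k : Fin n)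
    (hk : ¬ D.ρ.SameCycle i k) : (C.wd (D.wl i) β).1 k = β.1 k :=
  D5_wd_out _ β k fun h => hk (D.D5_mem' i k h)

private theorem D5_adj_ne (i : Fin n) (h : C.A i (D.ρ i) = -1) : D.ρ i ≠ i := by
  intro h1
  rw [h1, C.diag] at h
  omega

private theorem D5_adj_sq (i : Fin n) (h : C.A i (D.ρ i) = -1) : D.ρ (D.ρ i) = i := by
  have hm : D.m = 2 := by
    rcases D.ip_r (C.simple i) (D.D5_simple_ne i (D.D5_adj_ne i h)) with h2 | ⟨h2, -⟩
    · rw [D.r_simple] at h2
      simp only [SLC.simple_val, SLC.ip_single] at h2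
      omega
    · exact h2
  have h1 : D.ρ ^ 2 = 1 := by
    rw [← hm]
    exact pow_orderOf_eq_one _
  have h2 := congrArg (fun σ : Equiv.Perm (Fin n) => σ i) h1
  simpa [sq] using h2

private theorem D5_adj_cyc (i j : Fin n) (h : C.A i (D.ρ i) = -1) (hj : D.ρ.SameCycle i j) :
    j = i ∨ j = D.ρ i := by
  obtain ⟨a, -, rfl⟩ := D.D5_cyc i j hj
  induction a with
  | zero => exact Or.inl rfl
  | succ a ih =>
    rw [pow_succ', Equiv.Perm.mul_apply]
    rcases ih (D.D5_same i a) with h1 | h1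
    · rw [h1]
      exact Or.inr rfl
    · rw [h1, D.D5_adj_sq i h]
      exact Or.inl rfl

theorem wJ_adj (i : Fin n) (h : C.A i (D.ρ i) = -1) (γ : C.Root)
    (hγ : γ.1 = (C.simple i).1 + (C.simple (D.ρ i)).1) : C.wd (D.wl i) = C.reflE γ := by
  have h1 : C.reflE (C.simple i) (C.simple (D.ρ i)) = γ := by
    apply SLC.Root.ext
    rw [SLC.reflE_apply, SLC.refl_val, hγ]
    have h2 : C.ip (C.simple i).1 (C.simple (D.ρ i)).1 = -1 := by
      simp only [SLC.simple_val, SLC.ip_single]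
      exact h
    rw [h2]
    module
  rw [← h1, C.reflE_conj _ (C.simple_mem_W i)]
  have h3 : (C.reflE (C.simple i))⁻¹ = C.reflE (C.simple i) :=
    inv_eq_of_mul_eq_one_left (C.reflE_mul_self _)
  rw [h3]
  unfold wl
  rw [if_pos h, D5_wd_cons, D5_wd_cons, D5_wd_cons, mul_assoc]
  have h4 : C.wd ([] : List (Fin n)) = 1 := rfl
  rw [h4, mul_one]

private theorem D5_exists (i : Fin n) (h : C.A i (D.ρ i) = -1) :
    ∃ γ : C.Root, γ.1 = (C.simple i).1 + (C.simple (D.ρ i)).1 ∧ D.r γ = γ := by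
  have h2 : C.ip (C.simple i).1 (C.simple (D.ρ i)).1 = -1 := by
    simp only [SLC.simple_val, SLC.ip_single]
    exact h
  have hγ : (C.refl (C.simple i) (C.simple (D.ρ i))).1 =
      (C.simple i).1 + (C.simple (D.ρ i)).1 := by
    rw [SLC.refl_val, h2]
    module
  refine ⟨C.refl (C.simple i) (C.simple (D.ρ i)), hγ, ?_⟩
  apply SLC.Root.ext
  rw [D.r_add _ _ _ hγ, hγ, D.r_simple, D.r_simple, D.D5_adj_sq i h, add_comm]

theorem wJ_sq (i : Fin n) : C.wd (D.wl i) * C.wd (D.wl i) = 1 := by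
  by_cases h : C.A i (D.ρ i) = -1
  · obtain ⟨γ, hγ, -⟩ := D.D5_exists i h
    rw [D.wJ_adj i h γ hγ, C.reflE_mul_self]
  · ext β : 1
    rw [Equiv.Perm.mul_apply, Equiv.Perm.one_apply]
    apply SLC.Root.ext
    funext k
    by_cases hk : D.ρ.SameCycle i k
    · rw [D.D5_in i h _ k hk, D.D5_in i h _ k hk]
      have h1 : C.ip (C.simple k).1 (C.wd (D.wl i) β).1 = - C.ip (C.simple k).1 β.1 := by
        have hv : (C.wd (D.wl i) β).1 = β.1 -
            ∑ j ∈ Finset.univ.filter (fun j => D.ρ.SameCycle i j),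
              C.ip (C.simple j).1 β.1 • (C.simple j).1 := by
          funext k'
          rw [Pi.sub_apply, Finset.sum_apply]
          simp only [Pi.smul_apply, SLC.simple_val, smul_eq_mul]
          by_cases hk' : D.ρ.SameCycle i k'
          · rw [D.D5_in i h _ k' hk', Finset.sum_eq_single k']
            · rw [Pi.single_eq_same, mul_one]
              rfl
            · intro j _ hj
              rw [Pi.single_eq_of_ne hj.symm, mul_zero]
            · intro hj
              exact absurd (Finset.mem_filter.2 ⟨Finset.mem_univ _, hk'⟩) hj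
          · rw [D.D5_out i _ k' hk', Finset.sum_eq_zero, sub_zero]
            intro j hj
            rw [Finset.mem_filter] at hj
            rw [Pi.single_eq_of_ne, mul_zero]
            rintro rfl
            exact hk' hj.2
        have hlin : ∀ (s : Finset (Fin n)) (f : Fin n → (Fin n → ℤ)) (v : Fin n → ℤ),
            C.ip v (∑ j ∈ s, f j) = ∑ j ∈ s, C.ip v (f j) := by
          intro s f v
          classical
          induction s using Finset.induction_on with
          | empty => rw [Finset.sum_empty, Finset.sum_empty, SLC.ip_zero_right]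
          | insert a s ha ih => rw [Finset.sum_insert ha, Finset.sum_insert ha,
              SLC.ip_add_right, ih]
        rw [hv, SLC.ip_sub_right, hlin, Finset.sum_eq_single k]
        · rw [SLC.ip_smul_right, (C.simple k).2]
          ring
        · intro j hj hjk
          rw [Finset.mem_filter] at hj
          rw [SLC.ip_smul_right]
          have h2 : C.ip (C.simple k).1 (C.simple j).1 = 0 := by
            simp only [SLC.simple_val, SLC.ip_single]
            exact D.D5_orth i k j h hk hj.2 hjk.symm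
          rw [h2, mul_zero]
        · intro hj
          exact absurd (Finset.mem_filter.2 ⟨Finset.mem_univ _, hk⟩) hj
      rw [h1]
      ring
    · rw [D.D5_out i _ k hk, D.D5_out i _ k hk]

private theorem D5_comm (i : Fin n) (β : C.Root) :
    D.r (C.wd (D.wl i) β) = C.wd (D.wl i) (D.r β) := by
  by_cases h : C.A i (D.ρ i) = -1
  · obtain ⟨γ, hγ, hγ'⟩ := D.D5_exists i h
    rw [D.wJ_adj i h γ hγ, SLC.reflE_apply, SLC.reflE_apply, D.r_refl, hγ']
  · apply SLC.Root.ext
    funext k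
    obtain ⟨k, rfl⟩ := D.ρ.surjective k
    rw [D.r_val]
    by_cases hk : D.ρ.SameCycle i k
    · have hk' : D.ρ.SameCycle i (D.ρ k) := Equiv.Perm.sameCycle_apply_right.2 hk
      rw [D.D5_in i h _ k hk, D.D5_in i h _ _ hk', D.r_val, ← D.r_simple, D.r_ip]
    · have hk' : ¬ D.ρ.SameCycle i (D.ρ k) := fun h1 =>
        hk (Equiv.Perm.sameCycle_apply_right.1 h1)
      rw [D.D5_out i _ k hk, D.D5_out i _ _ hk', D.r_val]

theorem wJ_comm (i : Fin n) : D.rE * C.wd (D.wl i) * D.rE⁻¹ = C.wd (D.wl i) := by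
  rw [mul_inv_eq_iff_eq_mul]
  ext β : 1
  rw [Equiv.Perm.mul_apply, Equiv.Perm.mul_apply]
  exact D.D5_comm i β

theorem wJ_supp (i : Fin n) (β : C.Root) : D.supp i (C.wd (D.wl i) β) ↔ D.supp i β := by
  unfold supp
  constructor
  · intro h j hj
    by_contra hk
    exact hk (h j (by rwa [D.D5_out i β j hk]))
  · intro h j hj
    by_contra hk
    exact hk (h j (by rwa [D.D5_out i β j hk] at hj))

theorem wJ_pos (i : Fin n) (β : C.Root) (hβ : C.Pos β) (h : ¬ D.supp i β) :
    C.Pos (C.wd (D.wl i) β) := by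
  unfold supp at h
  push Not at h
  obtain ⟨j, hj, hk⟩ := h
  have h1 := (C.pos_iff β).1 hβ j
  have h2 := D.D5_out i β j hk
  rw [C.pos_iff]
  rcases C.pos_or_neg (C.wd (D.wl i) β) with h3 | h3
  · exact h3
  · exfalso
    have h4 := h3 j
    rw [h2] at h4
    omega

theorem wJ_neg (i : Fin n) (β : C.Root) (hβ : C.Pos β) (h : D.supp i β) :
    ¬ C.Pos (C.wd (D.wl i) β) := by
  have h0 := (C.pos_iff β).1 hβ
  unfold supp at h
  by_cases ha : C.A i (D.ρ i) = -1
  · obtain ⟨γ, hγ, -⟩ := D.D5_exists i ha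
    have hne := D.D5_adj_ne i ha
    have hv : β.1 = β.1 i • (C.simple i).1 + β.1 (D.ρ i) • (C.simple (D.ρ i)).1 := by
      funext k
      simp only [Pi.add_apply, Pi.smul_apply, SLC.simple_val, smul_eq_mul]
      by_cases hk : D.ρ.SameCycle i k
      · rcases D.D5_adj_cyc i k ha hk with rfl | rfl
        · rw [Pi.single_eq_same, Pi.single_eq_of_ne hne.symm]
          ring
        · rw [Pi.single_eq_same, Pi.single_eq_of_ne hne]
          ring
      · have h1 : β.1 k = 0 := by
          by_contra h1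
          exact hk (h k h1)
        rw [Pi.single_eq_of_ne, Pi.single_eq_of_ne, h1]
        · ring
        · rintro rfl
          exact hk (D.D5_same i 1)
        · rintro rfl
          exact hk (Equiv.Perm.SameCycle.refl _ _)
    have h1 : C.ip (C.simple i).1 (C.simple (D.ρ i)).1 = -1 := by
      simp only [SLC.simple_val, SLC.ip_single]
      exact ha
    have h2 : C.ip γ.1 β.1 = β.1 i + β.1 (D.ρ i) := by
      conv_lhs => rw [hv]
      rw [hγ, SLC.ip_add_left, SLC.ip_add_right, SLC.ip_add_right, SLC.ip_smul_right,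
        SLC.ip_smul_right, SLC.ip_smul_right, SLC.ip_smul_right, (C.simple i).2,
        (C.simple (D.ρ i)).2, h1, C.ip_comm (C.simple (D.ρ i)).1, h1]
      ring
    intro hp
    have h3 := (C.pos_iff _).1 hp
    rw [D.wJ_adj i ha γ hγ, SLC.reflE_apply, SLC.refl_val, h2, hγ] at h3
    have h4 := h3 i
    have h5 := h3 (D.ρ i)
    simp only [Pi.sub_apply, Pi.add_apply, Pi.smul_apply, SLC.simple_val, smul_eq_mul,
      Pi.single_eq_same, Pi.single_eq_of_ne hne, Pi.single_eq_of_ne hne.symm] at h4 h5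
    have h6 := h0 i
    have h7 := h0 (D.ρ i)
    have h8 : β.1 i = 0 := by linarith
    have h9 : β.1 (D.ρ i) = 0 := by linarith
    rw [h8, h9, zero_smul, zero_smul, add_zero] at hv
    exact C.root_ne_zero β hv
  · intro hp
    have h3 := (C.pos_iff _).1 hp
    apply C.root_ne_zero β
    funext k
    by_cases hk : D.ρ.SameCycle i k
    · have h4 := h3 k
      rw [D.D5_in i ha β k hk] at h4
      have h5 : C.ip (C.simple k).1 β.1 = 2 * β.1 k := by
        rw [C.ip_comm, ← C.sum_ip_single, Finset.sum_eq_single k]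
        · rw [SLC.simple_val, SLC.ip_single, C.diag, mul_comm]
        · intro j _ hj
          rw [SLC.simple_val, SLC.ip_single]
          by_cases hj' : D.ρ.SameCycle i j
          · rw [D.D5_orth i j k ha hj' hk hj, mul_zero]
          · have h1 : β.1 j = 0 := by
              by_contra h1
              exact hj' (h j h1)
            rw [h1, zero_mul]
        · intro hj
          exact absurd (Finset.mem_univ _) hj
      have h6 := h0 k
      rw [Pi.zero_apply]
      omega
    · rw [Pi.zero_apply]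
      by_contra h1
      exact hk (h k h1)

private theorem D5_sum (v : Fin n → ℤ) : v = ∑ j, v j • (C.simple j).1 := by
  funext k
  rw [Finset.sum_apply, Finset.sum_eq_single k]
  · simp
  · intro j _ hj
    simp [hj.symm]
  · intro hj
    exact absurd (Finset.mem_univ _) hj

private theorem D5_all_neg (w : Equiv.Perm C.Root) (hw : w ∈ C.W) (i : Fin n)
    (hn : ∀ j, D.ρ.SameCycle i j → ¬ C.Pos (w (C.simple j))) (β : C.Root) (hβ : C.Pos β)
    (h : D.supp i β) : ¬ C.Pos (w β) := by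
  obtain ⟨f, hf1, -⟩ := C.W_lin w hw
  have h0 := (C.pos_iff β).1 hβ
  have h1 : ∀ k, (w β).1 k ≤ 0 := by
    intro k
    rw [hf1, D5_sum β.1, map_sum, Finset.sum_apply]
    apply Finset.sum_nonpos
    intro j _
    rw [map_zsmul, ← hf1, Pi.smul_apply, smul_eq_mul]
    by_cases hj : β.1 j = 0
    · rw [hj, zero_mul]
    · have h2 := hn j (h j hj)
      have h3 : (w (C.simple j)).1 k ≤ 0 := by
        rcases C.pos_or_neg (w (C.simple j)) with h4 | h4
        · exact absurd ((C.pos_iff _).2 h4) h2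
        · exact h4 k
      exact mul_nonpos_of_nonneg_of_nonpos (h0 j) h3
  intro hp
  have h2 := (C.pos_iff _).1 hp
  apply C.root_ne_zero (w β)
  funext k
  exact le_antisymm (h1 k) (h2 k)

/-- Induction for Weyl group elements commuting with `ρ`. -/
theorem Wr_induct (P : Equiv.Perm C.Root → Prop) (h1 : P 1)
    (hs : ∀ w i, w ∈ C.W → P w → P (w * C.wd (D.wl i))) (w : Equiv.Perm C.Root) (hw : w ∈ C.W)
    (hr : D.rE * w * D.rE⁻¹ = w) : P w := by
  classical
  suffices hN : ∀ N : ℕ, ∀ w : Equiv.Perm C.Root, w ∈ C.W → D.rE * w * D.rE⁻¹ = w →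
      (Finset.univ.filter fun β : C.Root => C.Pos β ∧ ¬ C.Pos (w β)).card ≤ N → P w from
    hN _ w hw hr le_rfl
  intro N
  induction N with
  | zero =>
    intro w hw hr hc
    have h2 : w = 1 := by
      apply C.eq_one_of_pos w hw
      intro i
      by_contra h3
      have h4 : C.simple i ∈ Finset.univ.filter
          fun β : C.Root => C.Pos β ∧ ¬ C.Pos (w β) :=
        Finset.mem_filter.2 ⟨Finset.mem_univ _, C.simple_pos i, h3⟩
      have h5 := Finset.card_pos.2 ⟨_, h4⟩
      omega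
    rw [h2]
    exact h1
  | succ N ih =>
    intro w hw hr hc
    by_cases h2 : ∀ i, C.Pos (w (C.simple i))
    · rw [C.eq_one_of_pos w hw h2]
      exact h1
    · push Not at h2
      obtain ⟨i, hi⟩ := h2
      have hcomm : ∀ β, D.r (w β) = w (D.r β) := by
        intro β
        rw [mul_inv_eq_iff_eq_mul] at hr
        have h3 := congrArg (fun σ : Equiv.Perm C.Root => σ β) hr
        simpa using h3
      have hcyc : ∀ j, D.ρ.SameCycle i j → ¬ C.Pos (w (C.simple j)) := by
        intro j hj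
        obtain ⟨a, -, rfl⟩ := D.D5_cyc i j hj
        clear hj
        induction a with
        | zero => exact hi
        | succ a iha =>
          rw [pow_succ', Equiv.Perm.mul_apply, ← D.r_simple, ← hcomm, D.r_pos]
          exact iha
      have hall := D.D5_all_neg w hw i hcyc
      set v := w * C.wd (D.wl i) with hv
      have hvW : v ∈ C.W := C.W.mul_mem hw (C.wd_mem_W _)
      have hvr : D.rE * v * D.rE⁻¹ = v := by
        have h3 : D.rE * v * D.rE⁻¹
            = (D.rE * w * D.rE⁻¹) * (D.rE * C.wd (D.wl i) * D.rE⁻¹) := by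
          rw [hv]
          group
        rw [h3, hr, D.wJ_comm]
      have hlt : (Finset.univ.filter fun β : C.Root => C.Pos β ∧ ¬ C.Pos (v β)).card
          < (Finset.univ.filter fun β : C.Root => C.Pos β ∧ ¬ C.Pos (w β)).card := by
        have hsub : (Finset.univ.filter fun β : C.Root => C.Pos β ∧ ¬ C.Pos (v β)).image
            (C.wd (D.wl i)) ⊆
            (Finset.univ.filter fun β : C.Root => C.Pos β ∧ ¬ C.Pos (w β)).erase
              (C.simple i) := by
          intro δ hδ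
          rw [Finset.mem_image] at hδ
          obtain ⟨β, hβ, rfl⟩ := hδ
          rw [Finset.mem_filter] at hβ
          obtain ⟨-, hβ1, hβ2⟩ := hβ
          rw [hv, Equiv.Perm.mul_apply] at hβ2
          have hns : ¬ D.supp i β := by
            intro hsup
            have h5 := D.wJ_neg i β hβ1 hsup
            rw [C.not_pos_iff] at h5
            have h6 : D.supp i (-(C.wd (D.wl i) β)) := by
              intro j hj
              rw [SLC.Root.neg_val, Pi.neg_apply, neg_ne_zero] at hj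
              exact (D.wJ_supp i β).2 hsup j hj
            have h7 := hall _ h5 h6
            rw [C.W_neg w hw, C.not_pos_iff, C.neg_neg_root] at h7
            exact hβ2 h7
          rw [Finset.mem_erase, Finset.mem_filter]
          refine ⟨?_, Finset.mem_univ _, D.wJ_pos i β hβ1 hns, hβ2⟩
          intro he
          apply hns
          rw [← D.wJ_supp i β, he]
          intro j hj
          rw [SLC.simple_val] at hj
          have h8 : j = i := by
            by_contra h9
            exact hj (Pi.single_eq_of_ne h9 _)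
          rw [h8]
        have hmem : C.simple i ∈ Finset.univ.filter
            fun β : C.Root => C.Pos β ∧ ¬ C.Pos (w β) :=
          Finset.mem_filter.2 ⟨Finset.mem_univ _, C.simple_pos i, hi⟩
        have h5 := Finset.card_le_card hsub
        rw [Finset.card_image_of_injective _ (C.wd (D.wl i)).injective,
          Finset.card_erase_of_mem hmem] at h5
        have h6 := Finset.card_pos.2 ⟨_, hmem⟩
        omega
      have hPv := ih v hvW hvr (by omega)
      have h9 := hs v i hvW hPv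
      have h10 : v * C.wd (D.wl i) = w := by
        rw [hv, mul_assoc, D.wJ_sq, mul_one]
      rw [h10] at h9
      exact h9

end Dg

end Pool.Agent.H75.UL
end

section
/- module Pool.Agent.H75.UT.D2 -/
/-!
# Project UT, module D2

Consequences of `IsSig`.

`map_nn`: `D.r_neg`, `D.sg_neg`, `(sg β * θ t)⁻¹ = sg β * θ t⁻¹` as `sg β = ±1`. `map_hh`:
`hh = nn x β t * nn x β (-1)`; for `sg β = 1` clear; for `sg β = -1`:
`nn x γ (-u) * nn x γ 1 = (nn x γ u)⁻¹ * (nn x γ (-1))⁻¹ = (nn x γ (-1) * nn x γ u)⁻¹`, and by `nn_inv`,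
`h_mul` this is `hh x γ u` (`hh (-u) * (hh (-1))⁻¹ = hh u`, where
`(hh x γ (-1))⁻¹ = (nn x γ (-1) * nn x γ (-1))⁻¹ = nn x γ 1 * nn x γ 1`,
so `hh (-u) * (hh (-1))⁻¹ = nn (-u) * nn (-1) * nn 1 * nn 1 = nn (-u) * nn 1`).
The closure statements: closure induction. `iter`: induction on `l`. `iter_m`: closure induction
(`D.r_m`, `D.sgp_m`). `acts`: apply `s`; every root is `r β`, every element of `K` is `± θ u`.
`neg`: the system `x' β t = x (-β) t` (`ip_neg_neg`, `eps_neg_left`, `eps_neg_right`;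
`nn x' α t = nn x (-α) t` by definition up to `- -α = α`).
-/

set_option autoImplicit false
open Matrix
universe u
namespace Pool.Agent.H75.UL

section
variable {n : ℕ} {C : SLC n} {D : Dg C} {K : Type*} [Field K] {H : Type*} [Group H]
  {θ : K ≃+* K} {S : StSys C K H} {s : H →* H}

private theorem D2_inv (D : Dg C) (θ : K ≃+* K) (β : C.Root) (t : K) :
    ((D.sg β : K) * θ t)⁻¹ = (D.sg β : K) * θ t⁻¹ := by
  rcases D.sg_eq β with h | h <;> simp [h]

private theorem D2_sg_ne (D : Dg C) (β : C.Root) : (D.sg β : K) ≠ 0 := by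
  rcases D.sg_eq β with h | h <;> simp [h]

private theorem D2_sg_sq (D : Dg C) (β : C.Root) : (D.sg β : K) * (D.sg β : K) = 1 := by
  rw [← Int.cast_mul, D.sg_sq, Int.cast_one]

theorem IsSig.map_nn (h : IsSig D θ S s) (β : C.Root) (t : K) :
    s (nn S.x β t) = nn S.x (D.r β) ((D.sg β : K) * θ t) := by
  unfold nn
  rw [_root_.map_mul, _root_.map_mul, h, h, D.r_neg, D.sg_neg, D2_inv]

private theorem D2_hh_neg (S : StSys C K H) (γ : C.Root) (u : K) (hu : u ≠ 0) :
    nn S.x γ (-u) * nn S.x γ 1 = hh S.x γ u := by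
  have h1 := S.h_mul γ u (-1) hu (by simp)
  rw [mul_neg_one] at h1
  have h2 : (nn S.x γ (-1))⁻¹ = nn S.x γ 1 := by rw [S.nn_inv, neg_neg]
  unfold hh at h1 ⊢
  have h3 : nn S.x γ u * nn S.x γ (-1) * nn S.x γ (-1) = nn S.x γ (-u) := by
    apply mul_right_cancel (b := nn S.x γ (-1))
    rw [← h1]
    group
  rw [← h2, ← h3]
  group

theorem IsSig.map_hh (h : IsSig D θ S s) (β : C.Root) (t : K) (ht : t ≠ 0) :
    s (hh S.x β t) = hh S.x (D.r β) (θ t) := by
  have hu : θ t ≠ 0 := by simpa using ht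
  unfold hh
  rw [_root_.map_mul, h.map_nn, h.map_nn]
  rcases D.sg_eq β with h1 | h1
  · simp [h1]
  · have h2 := D2_hh_neg S (D.r β) (θ t) hu
    unfold hh at h2
    simpa [h1] using h2

theorem IsSig.map_U (h : IsSig D θ S s) (m : ℤ) (u : H) (hu : u ∈ S.U m) : s u ∈ S.U m := by
  have h1 : S.U m ≤ (S.U m).comap s := by
    conv_lhs => unfold StSys.U
    rw [Subgroup.closure_le]
    rintro g ⟨β, t, hβ, rfl⟩
    change s (S.x β t) ∈ S.U m
    rw [h]
    exact Subgroup.subset_closure ⟨_, _, by rw [D.r_ht]; exact hβ, rfl⟩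
  exact h1 hu

theorem IsSig.map_Um (h : IsSig D θ S s) (u : H) (hu : u ∈ S.Um) : s u ∈ S.Um := by
  have h1 : S.Um ≤ (S.Um).comap s := by
    conv_lhs => unfold StSys.Um
    rw [Subgroup.closure_le]
    rintro g ⟨β, t, hβ, rfl⟩
    change s (S.x β t) ∈ S.Um
    rw [h]
    exact Subgroup.subset_closure ⟨_, _, by rw [D.r_ht]; exact hβ, rfl⟩
  exact h1 hu

theorem IsSig.map_T (h : IsSig D θ S s) (u : H) (hu : u ∈ S.T) : s u ∈ S.T := by
  have h1 : S.T ≤ (S.T).comap s := by
    conv_lhs => unfold StSys.T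
    rw [Subgroup.closure_le]
    rintro g ⟨β, t, hβ, rfl⟩
    change s (hh S.x β t) ∈ S.T
    rw [h.map_hh β t hβ]
    exact Subgroup.subset_closure ⟨_, _, by simpa using hβ, rfl⟩
  exact h1 hu

theorem IsSig.map_N (h : IsSig D θ S s) (u : H) (hu : u ∈ S.N) : s u ∈ S.N := by
  have h1 : S.N ≤ (S.N).comap s := by
    conv_lhs => unfold StSys.N
    rw [Subgroup.closure_le]
    rintro g ⟨β, t, hβ, rfl⟩
    change s (nn S.x β t) ∈ S.N
    rw [h.map_nn β t]
    exact Subgroup.subset_closure ⟨_, _, mul_ne_zero (D2_sg_ne D β) (by simpa using hβ), rfl⟩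
  exact h1 hu

theorem IsSig.map_gen (h : IsSig D θ S s) (u : H) (hu : u ∈ S.gen) : s u ∈ S.gen := by
  have h1 : S.gen ≤ (S.gen).comap s := by
    conv_lhs => unfold StSys.gen
    rw [Subgroup.closure_le]
    rintro g ⟨β, t, rfl⟩
    change s (S.x β t) ∈ S.gen
    rw [h]
    exact Subgroup.subset_closure ⟨_, _, rfl⟩
  exact h1 hu

theorem IsSig.iter (h : IsSig D θ S s) (l : ℕ) (β : C.Root) (t : K) :
    s^[l] (S.x β t) = S.x (D.r^[l] β) ((D.sgp l β : K) * (⇑θ)^[l] t) := by
  induction l with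
  | zero => simp [Dg.sgp]
  | succ l ih =>
    rw [Function.iterate_succ_apply', ih, h, Function.iterate_succ_apply',
      Function.iterate_succ_apply']
    congr 1
    unfold Dg.sgp
    rw [Finset.prod_range_succ, _root_.map_mul, map_intCast]
    push_cast
    ring

theorem IsSig.iter_m (h : IsSig D θ S s) (hθ : ∀ t, (⇑θ)^[D.m] t = t) (g : H) (hg : g ∈ S.gen) :
    s^[D.m] g = g := by
  unfold StSys.gen at hg
  induction hg using Subgroup.closure_induction with
  | mem g hg =>
    obtain ⟨β, t, rfl⟩ := hg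
    rw [h.iter, D.r_m, D.sgp_m, hθ, Int.cast_one, one_mul]
  | one => exact iterate_map_one s D.m
  | mul a b _ _ ha hb => rw [iterate_map_mul, ha, hb]
  | inv a _ ha => rw [iterate_map_inv, ha]

theorem IsSig.acts (h : IsSig D θ S s) (g : H) (w : Equiv.Perm C.Root) (hg : S.Acts g w) :
    S.Acts (s g) (D.rE * w * D.rE⁻¹) := by
  obtain ⟨c, hc, hact⟩ := hg
  refine ⟨fun β => (D.sg (w (D.rE.symm β)) : K) * θ (c (D.rE.symm β)) *
    (D.sg (D.rE.symm β) : K), fun β => ?_, fun β u => ?_⟩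
  · exact mul_ne_zero (mul_ne_zero (D2_sg_ne D _) (by simpa using hc _)) (D2_sg_ne D _)
  · obtain ⟨δ, rfl⟩ := D.rE.surjective β
    have e1 : S.x (D.rE δ) u = s (S.x δ (θ.symm ((D.sg δ : K) * u))) := by
      rw [h, RingEquiv.apply_symm_apply, ← mul_assoc, D2_sg_sq, one_mul, Dg.rE_apply]
    rw [e1, ← map_inv, ← _root_.map_mul, ← _root_.map_mul, hact, h]
    have e0 : D.rE.symm (D.rE δ) = δ := D.rE.symm_apply_apply δ
    have e2 : (D.rE * w * D.rE⁻¹) (D.rE δ) = D.r (w δ) := by
      change D.rE (w (D.rE.symm (D.rE δ))) = D.r (w δ)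
      rw [e0]
      rfl
    rw [e2]
    beta_reduce
    rw [e0]
    congr 1
    rw [_root_.map_mul, RingEquiv.apply_symm_apply]
    ring

/-- The system `x_{-β}(t)`. -/
def StSys.neg (S : StSys C K H) : StSys C K H where
  x := fun β t => S.x (-β) t
  map_add := fun β s t => S.map_add (-β) s t
  comm := fun α β s t h => S.comm (-α) (-β) s t (by
    rw [SLC.Root.neg_val, SLC.Root.neg_val, C.ip_neg_neg]; exact h)
  comm_add := by
    intro α β γ s t h
    have h1 := S.comm_add (-α) (-β) (-γ) s t (by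
      rw [SLC.Root.neg_val, SLC.Root.neg_val, SLC.Root.neg_val, h, neg_add])
    rw [SLC.Root.neg_val, SLC.Root.neg_val, C.eps_neg_left, C.eps_neg_right] at h1
    exact h1
  n_conj := fun α t u ht => S.n_conj (-α) t u ht
  h_mul := fun α s t hs ht => S.h_mul (-α) s t hs ht

theorem StSys.neg_x (S : StSys C K H) (β : C.Root) (t : K) : S.neg.x β t = S.x (-β) t := rfl

private theorem D2_nn_neg (S : StSys C K H) (α : C.Root) (t : K) :
    nn S.neg.x α t = nn S.x (-α) t := rfl

private theorem D2_hh_neg' (S : StSys C K H) (α : C.Root) (t : K) :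
    hh S.neg.x α t = hh S.x (-α) t := rfl

theorem StSys.neg_U (S : StSys C K H) : S.neg.U 1 = S.Um := by
  unfold StSys.U StSys.Um
  congr 1
  ext g
  constructor
  · rintro ⟨β, t, hβ, rfl⟩
    exact ⟨-β, t, by rw [SLC.Root.neg_val, ht_neg]; omega, rfl⟩
  · rintro ⟨β, t, hβ, rfl⟩
    exact ⟨-β, t, by rw [SLC.Root.neg_val, ht_neg]; omega, by
      rw [StSys.neg_x, C.neg_neg_root]⟩

theorem StSys.neg_Um (S : StSys C K H) : S.neg.Um = S.U 1 := by
  unfold StSys.U StSys.Um
  congr 1
  ext g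
  constructor
  · rintro ⟨β, t, hβ, rfl⟩
    exact ⟨-β, t, by rw [SLC.Root.neg_val, ht_neg]; omega, rfl⟩
  · rintro ⟨β, t, hβ, rfl⟩
    exact ⟨-β, t, by rw [SLC.Root.neg_val, ht_neg]; omega, by
      rw [StSys.neg_x, C.neg_neg_root]⟩

theorem IsSig.neg (h : IsSig D θ S s) : IsSig D θ S.neg s := by
  intro β t
  rw [StSys.neg_x, StSys.neg_x, h, D.r_neg, D.sg_neg]

theorem StSys.neg_T (S : StSys C K H) : S.neg.T = S.T := by
  unfold StSys.T
  congr 1
  ext g
  constructor
  · rintro ⟨β, t, ht, rfl⟩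
    exact ⟨-β, t, ht, rfl⟩
  · rintro ⟨β, t, ht, rfl⟩
    exact ⟨-β, t, ht, by rw [D2_hh_neg', C.neg_neg_root]⟩

theorem StSys.neg_N (S : StSys C K H) : S.neg.N = S.N := by
  unfold StSys.N
  congr 1
  ext g
  constructor
  · rintro ⟨β, t, ht, rfl⟩
    exact ⟨-β, t, ht, rfl⟩
  · rintro ⟨β, t, ht, rfl⟩
    exact ⟨-β, t, ht, by rw [D2_nn_neg, C.neg_neg_root]⟩

theorem Eg_neg (S : StSys C K H) (s : H →* H) : Eg S.neg s = Eg S s := by
  unfold Eg fixU fixUm
  rw [S.neg_U, S.neg_Um, sup_comm]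

theorem Eg_le_fix (S : StSys C K H) (s : H →* H) (g : H) (hg : g ∈ Eg S s) : s g = g := by
  have h1 : Eg S s ≤ MonoidHom.eqLocus s (MonoidHom.id H) := by
    unfold Eg fixU fixUm
    exact sup_le inf_le_right inf_le_right
  exact h1 hg

theorem Eg_le_gen (S : StSys C K H) (s : H →* H) : Eg S s ≤ S.gen := by
  unfold Eg fixU fixUm
  refine sup_le (inf_le_left.trans ?_) (inf_le_left.trans ?_)
  · unfold StSys.U
    rw [Subgroup.closure_le]
    rintro g ⟨β, t, -, rfl⟩
    exact Subgroup.subset_closure ⟨β, t, rfl⟩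
  · unfold StSys.Um
    rw [Subgroup.closure_le]
    rintro g ⟨β, t, -, rfl⟩
    exact Subgroup.subset_closure ⟨β, t, rfl⟩

end

end Pool.Agent.H75.UL
end

section
/- module Pool.Agent.H75.UT.D6y -/
/-!
# Project UT, module D6y

Monomial elements of `E = <U⁺^σ, U⁻^σ>` for an orthogonal orbit.

`r β ≠ β` and `ip β (r β) = 0`, so the orbit is orthogonal (`ip_orb`, `r_ip`). For every root `γ` of
this kind and `t : K` put `y_γ(t) = ∏_{l<m} s^[l] (x_γ(t))`; the factors commute (`iter`, `S.comm`); it is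
fixed by `s` (`s^[m] = id`, `iter_m`; `s` permutes the factors cyclically), so in `fixU` or `fixUm`
(`XO`: positive or negative). `(-β)` has the orbit `-r^l β`, and factors `s^[l] x_{±β}`,
`s^[l'] x_{±β}` commute for `l ≠ l'` (inner product `0`). So
`∏_l s^[l] (nn x β c) = y_β(c) y_{-β}(c⁻¹) y_β(c)`.
-/

set_option autoImplicit false
open Matrix
universe u
namespace Pool.Agent.H75.UL

section
variable {n : ℕ} {C : SLC n} {D : Dg C} {K : Type*} [Field K] {H : Type*} [Group H]
  {θ : K ≃+* K} {S : StSys C K H} {s : H →* H}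

private theorem D6y_prod_mul (a b : ℕ → H) (k : ℕ)
    (h : ∀ l l', l < k → l' < k → l ≠ l' → Commute (a l) (b l')) :
    ((List.range k).map fun l => a l * b l).prod =
      ((List.range k).map a).prod * ((List.range k).map b).prod := by
  induction k with
  | zero => simp
  | succ k ih =>
    have ih' := ih (fun l l' hl hl' hne => h l l' (by omega) (by omega) hne)
    simp only [List.range_succ, List.map_append, List.map_cons, List.map_nil, List.prod_append,
      List.prod_cons, List.prod_nil, mul_one] at ih' ⊢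
    rw [ih']
    have hc : Commute (a k) ((List.range k).map b).prod := by
      apply Commute.list_prod_right
      intro y hy
      rw [List.mem_map] at hy
      obtain ⟨l, hl, rfl⟩ := hy
      rw [List.mem_range] at hl
      exact h k l (by omega) (by omega) (by omega)
    calc ((List.range k).map a).prod * ((List.range k).map b).prod * (a k * b k)
        = ((List.range k).map a).prod * (((List.range k).map b).prod * a k) * b k := by
          simp only [mul_assoc]
      _ = ((List.range k).map a).prod * (a k * ((List.range k).map b).prod) * b k := by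
          rw [hc.eq]
      _ = _ := by simp only [mul_assoc]

private theorem D6y_ip_lt (β : C.Root) (hβ : D.r β ≠ β) (ho : C.ip β.1 (D.r β).1 = 0) (l d : ℕ)
    (hd : 0 < d) (hl : l + d < D.m) : C.ip (D.r^[l] β).1 (D.r^[l + d] β).1 = 0 := by
  induction l with
  | zero =>
    rw [Nat.zero_add] at hl ⊢
    rw [Function.iterate_zero, id, D.ip_orb β hβ d hd hl, ho]
  | succ l ih =>
    have : l + 1 + d = (l + d) + 1 := by omega
    rw [this, Function.iterate_succ', Function.iterate_succ', Function.comp, Function.comp, D.r_ip]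
    exact ih (by omega)

private theorem D6y_ip (β : C.Root) (hβ : D.r β ≠ β) (ho : C.ip β.1 (D.r β).1 = 0) (l l' : ℕ)
    (hl : l < D.m) (hl' : l' < D.m) (hne : l ≠ l') :
    C.ip (D.r^[l] β).1 (D.r^[l'] β).1 = 0 := by
  rcases lt_or_gt_of_ne hne with h | h
  · obtain ⟨d, rfl⟩ := Nat.exists_eq_add_of_lt h
    exact D6y_ip_lt β hβ ho l (d + 1) (by omega) hl'
  · obtain ⟨d, rfl⟩ := Nat.exists_eq_add_of_lt h
    rw [C.ip_comm]
    exact D6y_ip_lt β hβ ho l' (d + 1) (by omega) hl

private theorem D6y_iter_neg (β : C.Root) (l : ℕ) : D.r^[l] (-β) = -(D.r^[l] β) := by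
  induction l with
  | zero => rfl
  | succ l ih =>
    rw [Function.iterate_succ', Function.comp, ih, D.r_neg]
    rfl

private theorem D6y_comm (h : IsSig D θ S s) (β : C.Root) (hβ : D.r β ≠ β)
    (ho : C.ip β.1 (D.r β).1 = 0) (γ δ : C.Root) (hγ : γ = β ∨ γ = -β) (hδ : δ = β ∨ δ = -β)
    (t u : K) (l l' : ℕ) (hl : l < D.m) (hl' : l' < D.m) (hne : l ≠ l') :
    Commute (s^[l] (S.x γ t)) (s^[l'] (S.x δ u)) := by
  rw [h.iter, h.iter]
  apply S.comm
  apply le_of_eq
  have h0 := D6y_ip β hβ ho l l' hl hl' hne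
  symm
  rcases hγ with rfl | rfl <;> rcases hδ with rfl | rfl <;>
    simp only [D6y_iter_neg, SLC.Root.neg_val, C.ip_neg_left, C.ip_neg_right, h0, neg_zero]

private theorem D6y_iter_pos (β : C.Root) (l : ℕ) : ht (D.r^[l] β).1 = ht β.1 := by
  induction l with
  | zero => rfl
  | succ l ih => rw [Function.iterate_succ', Function.comp, D.r_ht, ih]

theorem prod_x_mem (h : IsSig D θ S s) (hθ : ∀ t, (⇑θ)^[D.m] t = t) (β : C.Root)
    (hβ : D.r β ≠ β) (ho : C.ip β.1 (D.r β).1 = 0) (c : K) :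
    ((List.range D.m).map fun l => s^[l] (S.x β c)).prod ∈ Eg S s := by
  have hfix : s ((List.range D.m).map fun l => s^[l] (S.x β c)).prod =
      ((List.range D.m).map fun l => s^[l] (S.x β c)).prod := by
    have hm := h.iter_m hθ (S.x β c) (Subgroup.subset_closure ⟨β, c, rfl⟩)
    have hcm : ∀ l, 0 < l → l < D.m → Commute (S.x β c) (s^[l] (S.x β c)) := by
      intro l h0 hl
      exact D6y_comm h β hβ ho β β (Or.inl rfl) (Or.inl rfl) c c 0 l (by omega) hl (by omega)
    rw [map_list_prod, List.map_map]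
    have e1 : (⇑s ∘ fun l => s^[l] (S.x β c)) = fun l => s^[l + 1] (S.x β c) := by
      funext l
      rw [Function.iterate_succ']
      rfl
    rw [e1]
    obtain ⟨k, hk⟩ : ∃ k, D.m = k + 1 := by
      rcases D.m_cases with h1 | h1 | h1
      · exact ⟨0, h1⟩
      · exact ⟨1, h1⟩
      · exact ⟨2, h1⟩
    rw [hk] at hm hcm ⊢
    have hc : Commute (S.x β c) ((List.range k).map fun l => s^[l + 1] (S.x β c)).prod := by
      apply Commute.list_prod_right
      intro y hy
      rw [List.mem_map] at hy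
      obtain ⟨l, hl, rfl⟩ := hy
      rw [List.mem_range] at hl
      exact hcm (l + 1) (by omega) (by omega)
    have e2 : ((List.range (k + 1)).map fun l => s^[l + 1] (S.x β c)).prod =
        ((List.range k).map fun l => s^[l + 1] (S.x β c)).prod * S.x β c := by
      rw [List.range_succ, List.map_append, List.prod_append, List.map_cons, List.map_nil,
        List.prod_cons, List.prod_nil, mul_one, hm]
    have e3 : ((List.range (k + 1)).map fun l => s^[l] (S.x β c)).prod =
        S.x β c * ((List.range k).map fun l => s^[l + 1] (S.x β c)).prod := by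
      rw [List.range_succ_eq_map, List.map_cons, List.prod_cons, List.map_map]
      rfl
    rw [e2, e3]
    exact hc.eq.symm
  have hmem : ((List.range D.m).map fun l => s^[l] (S.x β c)).prod ∈ S.U 1 ∨
      ((List.range D.m).map fun l => s^[l] (S.x β c)).prod ∈ S.Um := by
    rcases lt_or_gt_of_ne (C.ht_ne_zero β) with h1 | h1
    · right
      apply Subgroup.list_prod_mem
      intro y hy
      rw [List.mem_map] at hy
      obtain ⟨l, _, rfl⟩ := hy
      rw [h.iter]
      exact Subgroup.subset_closure ⟨_, _, by rw [D6y_iter_pos]; exact h1, rfl⟩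
    · left
      apply Subgroup.list_prod_mem
      intro y hy
      rw [List.mem_map] at hy
      obtain ⟨l, _, rfl⟩ := hy
      rw [h.iter]
      exact Subgroup.subset_closure ⟨_, _, by rw [D6y_iter_pos]; omega, rfl⟩
  rcases hmem with h1 | h1
  · exact Subgroup.mem_sup_left ⟨h1, hfix⟩
  · exact Subgroup.mem_sup_right ⟨h1, hfix⟩

theorem prod_nn_mem (h : IsSig D θ S s) (hθ : ∀ t, (⇑θ)^[D.m] t = t) (β : C.Root)
    (hβ : D.r β ≠ β) (ho : C.ip β.1 (D.r β).1 = 0) (c : K) :
    ((List.range D.m).map fun l => s^[l] (nn S.x β c)).prod ∈ Eg S s := by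
  have e : (fun l => s^[l] (nn S.x β c)) =
      fun l => (s^[l] (S.x β c) * s^[l] (S.x (-β) c⁻¹)) * s^[l] (S.x β c) := by
    funext l
    unfold nn
    rw [iterate_map_mul, iterate_map_mul]
  rw [e, D6y_prod_mul (fun l => s^[l] (S.x β c) * s^[l] (S.x (-β) c⁻¹)) (fun l => s^[l] (S.x β c)),
    D6y_prod_mul (fun l => s^[l] (S.x β c)) (fun l => s^[l] (S.x (-β) c⁻¹))]
  · apply mul_mem (mul_mem _ _)
    · exact prod_x_mem h hθ β hβ ho c
    · exact prod_x_mem h hθ β hβ ho c
    · apply prod_x_mem h hθ (-β)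
      · rw [D.r_neg]
        intro h1
        apply hβ
        have := congrArg (fun x : C.Root => -x) h1
        simpa [C.neg_neg_root] using this
      · rw [D.r_neg, SLC.Root.neg_val, SLC.Root.neg_val, C.ip_neg_neg, ho]
  · intro l l' hl hl' hne
    exact D6y_comm h β hβ ho β (-β) (Or.inl rfl) (Or.inr rfl) _ _ l l' hl hl' hne
  · intro l l' hl hl' hne
    exact (D6y_comm h β hβ ho β β (Or.inl rfl) (Or.inl rfl) _ _ l l' hl hl' hne).mul_left
      (D6y_comm h β hβ ho (-β) β (Or.inr rfl) (Or.inl rfl) _ _ l l' hl hl' hne)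

end

end Pool.Agent.H75.UL
end

section
/- module Pool.Agent.H75.UT.D6a -/
/-!
# Project UT, module D6a

Elements of `E = <U⁺^σ, U⁻^σ>` in `N`.

`exists_nJ`: non-adjacent, `ρ i ≠ i`: `ν = ∏_l s^[l] (nn x α_i 1)` (`prod_nn_mem`), `s^[l] (nn x α_i 1) =
nn x α_{ρ^l i} 1` (`map_nn`, signs `1` on simple roots), it acts by the product of the reflections
(`n_conj_all`, `SLC.Acts_mul`), which is `wd (wl i)`; if `ρ i = i`: `nn x α_i 1` (a product of fixed
elements). Adjacent (`A i (ρ i) = -1`; then `m = 2` by `ip_r`): `γ = α_i + α_{ρ i}`, `r γ = γ`,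
`sg γ = -1` (`sg_adj`), `e ≠ 0`, `θ e = -e`: `x_γ(e)`, `x_{-γ}(e⁻¹)` are fixed by `s`,
`ν = nn x γ e`; `wJ_adj`. `exists_nW`: `Wr_induct`, `Acts_mul`.
-/

set_option autoImplicit false
open Matrix
universe u
namespace Pool.Agent.H75.UL

section
variable {n : ℕ} {C : SLC n} {D : Dg C} {K : Type*} [Field K] {H : Type*} [Group H]
  {θ : K ≃+* K} {S : StSys C K H} {s : H →* H}

private theorem D6a_cs (α β : C.Root) : C.cs α β = 1 ∨ C.cs α β = -1 := by
  unfold SLC.cs
  split_ifs
  · exact C.eps_eq_one_or _ _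
  · exact Or.inl rfl

private theorem D6a_acts (S : StSys C K H) (α : C.Root) (t : K) (ht : t ≠ 0) :
    S.Acts (nn S.x α t) (C.reflE α) := by
  refine ⟨fun β => (C.cs α β : K) * t ^ (- C.ip α.1 β.1), fun β => ?_, fun β u => ?_⟩
  · apply mul_ne_zero
    · rcases D6a_cs (C := C) α β with h | h <;> simp [h]
    · exact zpow_ne_zero _ ht
  · rw [S.n_conj_all α β t u ht]
    rfl

private theorem D6a_nn_mem (S : StSys C K H) (α : C.Root) (t : K) (ht : t ≠ 0) :
    nn S.x α t ∈ S.N := Subgroup.subset_closure ⟨α, t, ht, rfl⟩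

/-- `nn γ e` for a fixed root `γ` of sign `ε` and `θ e = ε e`. -/
private theorem D6a_nn_Eg (h : IsSig D θ S s) (γ : C.Root) (hp : C.Pos γ) (hr : D.r γ = γ) (e : K)
    (he : (D.sg γ : K) * θ e = e) : nn S.x γ e ∈ Eg S s := by
  have hs1 : s (S.x γ e) = S.x γ e := by rw [h, hr, he]
  have he' : (D.sg γ : K) * θ e⁻¹ = e⁻¹ := by
    rcases D.sg_eq γ with h1 | h1
    · rw [h1] at he ⊢
      rw [Int.cast_one, one_mul] at he ⊢
      rw [map_inv₀, he]
    · rw [h1] at he ⊢
      rw [Int.cast_neg, Int.cast_one, neg_one_mul] at he ⊢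
      rw [map_inv₀, neg_inv, he]
  have hs2 : s (S.x (-γ) e⁻¹) = S.x (-γ) e⁻¹ := by rw [h, D.r_neg, D.sg_neg, hr, he']
  have h1 : S.x γ e ∈ Eg S s := by
    refine Subgroup.mem_sup_left ⟨Subgroup.subset_closure ⟨γ, e, ?_, rfl⟩, hs1⟩
    unfold SLC.Pos at hp
    omega
  have h2 : S.x (-γ) e⁻¹ ∈ Eg S s := by
    refine Subgroup.mem_sup_right ⟨Subgroup.subset_closure ⟨-γ, e⁻¹, ?_, rfl⟩, hs2⟩
    rw [SLC.Root.neg_val, ht_neg]
    unfold SLC.Pos at hp
    omega
  exact Subgroup.mul_mem _ (Subgroup.mul_mem _ h1 h2) h1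

private theorem D6a_iter (h : IsSig D θ S s) (i : Fin n) (l : ℕ) :
    s^[l] (nn S.x (C.simple i) 1) = nn S.x (C.simple ((D.ρ ^ l) i)) 1 := by
  induction l with
  | zero => rfl
  | succ l ih =>
    rw [Function.iterate_succ_apply', ih, h.map_nn, D.r_simple, D.sg_simple, map_one, Int.cast_one,
      mul_one, pow_succ', Equiv.Perm.mul_apply]

theorem exists_nJ (h : IsSig D θ S s) (hθ : ∀ t, (⇑θ)^[D.m] t = t)
    (hA : D.NA ∨ ∃ e, e ≠ 0 ∧ θ e = -e) (i : Fin n) :
    ∃ ν ∈ S.N ⊓ Eg S s, S.Acts ν (C.wd (D.wl i)) := by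
  by_cases h1 : C.A i (D.ρ i) = -1
  · -- adjacent
    rcases hA with hA | ⟨e, he, hθe⟩
    · exact absurd h1 (hA i)
    have hip : C.ip (C.simple i).1 (C.simple (D.ρ i)).1 = -1 := by
      rw [SLC.simple_val, SLC.simple_val, SLC.ip_single]
      exact h1
    obtain ⟨γ, hγ⟩ := C.exists_add _ _ hip
    have hne : D.r (C.simple i) ≠ C.simple i := by
      rw [D.r_simple]
      intro hc
      rw [hc, (C.simple i).2] at hip
      omega
    have hγ' : γ.1 = (C.simple i).1 + (D.r (C.simple i)).1 := by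
      rw [D.r_simple]
      exact hγ
    obtain ⟨hr, hsg⟩ := D.sg_adj (C.simple i) γ hne hγ'
    have hp : C.Pos γ := by
      have a1 := C.simple_pos i
      have a2 := C.simple_pos (D.ρ i)
      unfold SLC.Pos at a1 a2 ⊢
      rw [hγ, ht_add]
      omega
    refine ⟨nn S.x γ e, ⟨D6a_nn_mem S γ e he, D6a_nn_Eg h γ hp hr e ?_⟩, ?_⟩
    · rw [hsg, hθe]
      push_cast
      ring
    · rw [D.wJ_adj i h1 γ hγ]
      exact D6a_acts S γ e he
  · by_cases h2 : D.ρ i = i
    · have hw : D.wl i = [i] := by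
        unfold Dg.wl
        rw [if_neg h1, if_pos h2]
      refine ⟨nn S.x (C.simple i) 1, ⟨D6a_nn_mem S _ _ one_ne_zero,
        D6a_nn_Eg h _ (C.simple_pos i) ?_ 1 ?_⟩, ?_⟩
      · rw [D.r_simple, h2]
      · rw [D.sg_simple, map_one]
        simp
      · rw [hw]
        have : C.wd [i] = C.reflE (C.simple i) := by
          unfold SLC.wd
          simp
        rw [this]
        exact D6a_acts S _ _ one_ne_zero
    · have hw : D.wl i = (List.range D.m).map fun l => (D.ρ ^ l) i := by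
        unfold Dg.wl
        rw [if_neg h1, if_neg h2]
      have hne : D.r (C.simple i) ≠ C.simple i := by
        rw [D.r_simple]
        exact fun hc => h2 (C.simple_injective hc)
      have ho : C.ip (C.simple i).1 (D.r (C.simple i)).1 = 0 := by
        rw [D.r_simple, SLC.simple_val, SLC.simple_val, SLC.ip_single]
        exact (C.off i (D.ρ i) (fun hc => h2 hc.symm)).resolve_right h1
      have hprod := prod_nn_mem h hθ (C.simple i) hne ho 1
      have heq : ((List.range D.m).map fun l => s^[l] (nn S.x (C.simple i) 1)).prod =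
          S.nword (D.wl i) := by
        rw [hw]
        unfold StSys.nword
        rw [List.map_map]
        congr 1
        apply List.map_congr_left
        intro l _
        exact D6a_iter h i l
      rw [heq] at hprod
      exact ⟨S.nword (D.wl i), ⟨S.nword_mem _, hprod⟩, S.nword_acts _⟩

theorem exists_nW (h : IsSig D θ S s) (hθ : ∀ t, (⇑θ)^[D.m] t = t)
    (hA : D.NA ∨ ∃ e, e ≠ 0 ∧ θ e = -e) (w : Equiv.Perm C.Root) (hw : w ∈ C.W)
    (hr : D.rE * w * D.rE⁻¹ = w) : ∃ ν ∈ S.N ⊓ Eg S s, S.Acts ν w := by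
  refine D.Wr_induct (fun w => ∃ ν ∈ S.N ⊓ Eg S s, S.Acts ν w) ?_ ?_ w hw hr
  · refine ⟨1, Subgroup.one_mem _, fun _ => 1, fun _ => one_ne_zero, fun β u => ?_⟩
    rw [one_mul, inv_one, mul_one, one_mul, Equiv.Perm.one_apply]
  · rintro w i - ⟨ν, hν, hact⟩
    obtain ⟨ν', hν', hact'⟩ := exists_nJ h hθ hA i
    exact ⟨ν * ν', Subgroup.mul_mem _ hν hν', C.Acts_mul S _ _ _ _ hact hact'⟩

end

end Pool.Agent.H75.UL
end

section
/- module Pool.Agent.H75.UT.D7 -/
/-!
# Project UT, module D7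

`σ` on the adjoint group.

`isSig_adS`: entrywise, `mat * E α = sg α • E (r α) * mat`, `mat * F α = F (r α) * mat` (use `r_val`,
`r_neg`, `r_add`, `sg_add`, `ip_lmap`, injectivity of `r`), so
`mat * X α t = X (r α) (sg α * t) * mat` over every commutative ring; `mp_xg`.
`sgl_Fil`, `chi_sgl`, `xi_sgl`: entries of `sgl θ g`:
`(sgl θ g) (ρ a) (ρ b) = ± θ (g a b)` with `ρ (inl i) = inl (ρ i)`, `ρ (inr β) = inr (r β)`
(sign `sg α * sg β` for the roots among `a, b`; `sg (-simple) = 1`). `sgl_mp`: entrywise.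
`sgl_nilpotent`: `sgl θ g - 1` is conjugate to `(g - 1).map θ`. `lift_sig`: `hom_ext`.
-/

set_option autoImplicit false
open Matrix
universe u
namespace Pool.Agent.H75.UL

section
variable {n : ℕ} {C : SLC n} (D : Dg C)

/-- The permutation of the index set. -/
private def D7_p (a : C.Idx) : C.Idx := Sum.map D.ρ D.r a

/-- The signs on the index set. -/
private def D7_s (a : C.Idx) : ℤ := Sum.elim (fun _ => 1) D.sg a

private theorem D7_s_sq (a : C.Idx) : D7_s D a * D7_s D a = 1 := by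
  rcases a with i | β
  · simp [D7_s]
  · exact D.sg_sq β

private theorem D7_s_cast {R : Type*} [CommRing R] (a : C.Idx) :
    (D7_s D a : R) * (D7_s D a : R) = 1 := by
  rw [← Int.cast_mul, D7_s_sq]
  simp

private theorem D7_p_inj : Function.Injective (D7_p D) := by
  unfold D7_p
  exact Sum.map_injective.mpr ⟨D.ρ.injective, D.r_injective⟩

private theorem D7_p_surj : Function.Surjective (D7_p D) :=
  Finite.surjective_of_injective (D7_p_inj D)

private theorem D7_mat (R : Type*) [CommRing R] (a b : C.Idx) :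
    D.mat R a b = if a = D7_p D b then (D7_s D b : R) else 0 := by
  rcases a with i | γ <;> rcases b with j | β <;> simp [Dg.mat, D7_p, D7_s]

private theorem D7_entry {R : Type*} [CommRing R] (θ : R ≃+* R) (g : GL C.Idx R) (a b : C.Idx) :
    ((D.sgl θ g : GL C.Idx R) : Matrix C.Idx C.Idx R) (D7_p D a) (D7_p D b) =
      (D7_s D a : R) * (D7_s D b : R) * θ ((g : Matrix C.Idx C.Idx R) a b) := by
  have h1 : ((D.sgl θ g : GL C.Idx R) : Matrix C.Idx C.Idx R) =
      D.mat R * ((g : Matrix C.Idx C.Idx R).map (θ : R →+* R)) * (D.mat R)ᵀ := by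
    rw [Dg.sgl_apply, Units.val_mul, Units.val_mul, SLC.mp_val]
    rfl
  rw [h1, Matrix.mul_apply, Finset.sum_eq_single b]
  · rw [Matrix.mul_apply, Finset.sum_eq_single a]
    · rw [Matrix.transpose_apply, D7_mat, D7_mat, if_pos rfl, if_pos rfl, Matrix.map_apply]
      change _ * θ _ * _ = _
      ring
    · intro c _ hc
      rw [D7_mat, if_neg, zero_mul]
      intro h
      exact hc (D7_p_inj D h).symm
    · intro h
      exact absurd (Finset.mem_univ _) h
  · intro c _ hc
    rw [Matrix.transpose_apply, D7_mat, if_neg, mul_zero]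
    intro h
    exact hc (D7_p_inj D h).symm
  · intro h
    exact absurd (Finset.mem_univ _) h

private theorem D7_r_eq (α β : C.Root) : (D.r β).1 = (D.r α).1 ↔ β.1 = α.1 := by
  constructor
  · intro h
    have := D.r_injective (SLC.Root.ext h)
    rw [this]
  · intro h
    have : β = α := SLC.Root.ext h
    rw [this]

private theorem D7_E (α : C.Root) (a b : C.Idx) :
    C.E (D.r α) (D7_p D a) (D7_p D b) = D.sg α * (D7_s D a * D7_s D b * C.E α a b) := by
  rcases a with i | γ <;> rcases b with j | β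
  · simp [SLC.E, D7_p]
  · change (if (D.r β).1 = -(D.r α).1 then -(D.r α).1 (D.ρ i) else 0) =
      D.sg α * (1 * D.sg β * (if β.1 = -α.1 then - α.1 i else 0))
    have h1 : (D.r β).1 = -(D.r α).1 ↔ β.1 = -α.1 := by
      have h2 := D7_r_eq D (-α) β
      rw [D.r_neg] at h2
      exact h2
    by_cases h : β.1 = -α.1
    · rw [if_pos (h1.mpr h), if_pos h, D.r_val]
      have h3 : β = -α := SLC.Root.ext h
      rw [h3, D.sg_neg]
      have := D.sg_sq α
      linear_combination (α.1 i) * this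
    · rw [if_neg (fun h' => h (h1.mp h')), if_neg h]
      ring
  · change (if (D.r γ).1 = (D.r α).1 then - C.ip (Pi.single (D.ρ j) 1) (D.r α).1 else 0) =
      D.sg α * (D.sg γ * 1 * (if γ.1 = α.1 then - C.ip (Pi.single j 1) α.1 else 0))
    by_cases h : γ.1 = α.1
    · rw [if_pos ((D7_r_eq D α γ).mpr h), if_pos h]
      have h3 : γ = α := SLC.Root.ext h
      have h4 : C.ip (Pi.single (D.ρ j) 1) (D.r α).1 = C.ip (Pi.single j 1) α.1 := by
        rw [← SLC.lmap_single]
        exact C.ip_lmap D.ρ D.hρ _ _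
      rw [h3, h4]
      have := D.sg_sq α
      linear_combination (C.ip (Pi.single j 1) α.1) * this
    · rw [if_neg (fun h' => h ((D7_r_eq D α γ).mp h')), if_neg h]
      ring
  · change (if (D.r γ).1 = (D.r α).1 + (D.r β).1 then C.eps (D.r α).1 (D.r β).1 else 0) =
      D.sg α * (D.sg γ * D.sg β * (if γ.1 = α.1 + β.1 then C.eps α.1 β.1 else 0))
    by_cases h : γ.1 = α.1 + β.1
    · rw [if_pos (D.r_add α β γ h), if_pos h]
      have h1 := D.sg_add α β γ h
      have h2 := D.sg_sq α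
      have h3 := D.sg_sq β
      calc C.eps (D.r α).1 (D.r β).1
          = (D.sg α * D.sg α) * (D.sg β * D.sg β) * C.eps (D.r α).1 (D.r β).1 := by
            rw [h2, h3]; ring
        _ = D.sg α * D.sg β * (D.sg α * D.sg β * C.eps (D.r α).1 (D.r β).1) := by ring
        _ = _ := by rw [← h1]; ring
    · rw [if_neg, if_neg h]
      · ring
      · intro h'
        apply h
        funext i
        have := congrFun h' (D.ρ i)
        simpa [D.r_val] using this

private theorem D7_F (α : C.Root) (a b : C.Idx) :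
    C.F (D.r α) (D7_p D a) (D7_p D b) = D7_s D a * D7_s D b * C.F α a b := by
  rcases a with i | γ <;> rcases b with j | β
  · simp [SLC.F, D7_p]
  · simp [SLC.F, D7_p]
  · simp [SLC.F, D7_p]
  · change (if (D.r γ).1 = (D.r α).1 ∧ (D.r β).1 = -(D.r α).1 then (1 : ℤ) else 0) =
      D.sg γ * D.sg β * (if γ.1 = α.1 ∧ β.1 = -α.1 then 1 else 0)
    have h1 : (D.r β).1 = -(D.r α).1 ↔ β.1 = -α.1 := by
      have h2 := D7_r_eq D (-α) β
      rw [D.r_neg] at h2
      exact h2
    simp only [D7_r_eq D α γ, h1]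
    split_ifs with h
    · have h3 : γ = α := SLC.Root.ext h.1
      have h4 : β = -α := SLC.Root.ext h.2
      rw [h3, h4, D.sg_neg, D.sg_sq]
      ring
    · ring

private theorem D7_one (R : Type*) [CommRing R] (a b : C.Idx) :
    (1 : Matrix C.Idx C.Idx R) (D7_p D a) (D7_p D b) =
      (D7_s D a : R) * (D7_s D b : R) * (1 : Matrix C.Idx C.Idx R) a b := by
  by_cases h : a = b
  · subst h
    rw [Matrix.one_apply_eq, Matrix.one_apply_eq, D7_s_cast]
    ring
  · rw [Matrix.one_apply_ne h, Matrix.one_apply_ne (fun h' => h (D7_p_inj D h'))]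
    ring

private theorem D7_X (R : Type*) [CommRing R] (α : C.Root) (t : R) (a b : C.Idx) :
    C.X R (D.r α) ((D.sg α : R) * t) (D7_p D a) (D7_p D b) =
      (D7_s D a : R) * (D7_s D b : R) * C.X R α t a b := by
  have hsq : (D.sg α : R) * (D.sg α : R) = 1 := by
    rw [← Int.cast_mul, D.sg_sq]
    simp
  unfold SLC.X
  simp only [Matrix.add_apply, Matrix.smul_apply, Matrix.map_apply, smul_eq_mul, D7_one D R a b,
    D7_E, D7_F, Int.cast_mul]
  linear_combination ((D7_s D a : R) * (D7_s D b : R) * t * (C.E α a b : R) +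
    (D7_s D a : R) * (D7_s D b : R) * t ^ 2 * (C.F α a b : R)) * hsq

private theorem D7_ext {R : Type*} [CommRing R] (M N : Matrix C.Idx C.Idx R)
    (h : ∀ a b, M (D7_p D a) (D7_p D b) = N (D7_p D a) (D7_p D b)) : M = N := by
  ext a b
  obtain ⟨a', rfl⟩ := D7_p_surj D a
  obtain ⟨b', rfl⟩ := D7_p_surj D b
  exact h a' b'

private theorem D7_hti (a : C.Idx) : C.hti (D7_p D a) = C.hti a := by
  rcases a with i | β
  · rfl
  · exact D.r_ht β

end

section
variable {n : ℕ} {C : SLC n} (D : Dg C) {F : Type*} [Field F]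

theorem isSig_adS (θ : F ≃+* F) : IsSig D θ (C.adS F) (D.sgl θ) := by
  intro β t
  change D.sgl θ (C.xg F β t) = C.xg F (D.r β) ((D.sg β : F) * θ t)
  apply Units.ext
  apply D7_ext D
  intro a b
  rw [D7_entry]
  change _ * θ (C.X F β t a b) = C.X F (D.r β) ((D.sg β : F) * θ t) (D7_p D a) (D7_p D b)
  rw [D7_X]
  congr 1
  unfold SLC.X
  simp [Matrix.add_apply, Matrix.one_apply, apply_ite θ]

theorem sgl_Fil (θ : F ≃+* F) (m : ℤ) (g : GL C.Idx F) :
    C.Fil m ((D.sgl θ g : GL C.Idx F) : Matrix C.Idx C.Idx F) ↔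
      C.Fil m (g : Matrix C.Idx C.Idx F) := by
  constructor
  · intro h a b hab
    have h1 := h (D7_p D a) (D7_p D b) (by rwa [D7_hti, D7_hti])
    rw [D7_entry] at h1
    have h2 : θ ((g : Matrix C.Idx C.Idx F) a b) = 0 := by
      have ha := D7_s_cast (R := F) D a
      have hb := D7_s_cast (R := F) D b
      linear_combination ((D7_s D a : F) * (D7_s D b : F)) * h1 -
        (D7_s D b : F) * (D7_s D b : F) * θ ((g : Matrix C.Idx C.Idx F) a b) * ha -
        θ ((g : Matrix C.Idx C.Idx F) a b) * hb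
    exact (map_eq_zero_iff θ θ.injective).mp h2
  · intro h a b hab
    obtain ⟨a', rfl⟩ := D7_p_surj D a
    obtain ⟨b', rfl⟩ := D7_p_surj D b
    rw [D7_hti, D7_hti] at hab
    rw [D7_entry, h a' b' hab, map_zero, mul_zero]

theorem chi_sgl (θ : F ≃+* F) (g : GL C.Idx F) (γ : C.Root) :
    C.chi ((D.sgl θ g : GL C.Idx F) : Matrix C.Idx C.Idx F) (D.r γ) =
      θ (C.chi (g : Matrix C.Idx C.Idx F) γ) := by
  have h := D7_entry D θ g (Sum.inr γ) (Sum.inr γ)
  rw [D7_s_cast, one_mul] at h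
  exact h

theorem xi_sgl (θ : F ≃+* F) (g : GL C.Idx F) (j : Fin n) :
    C.xi (D.ρ j) ((D.sgl θ g : GL C.Idx F) : Matrix C.Idx C.Idx F) =
      θ (C.xi j (g : Matrix C.Idx C.Idx F)) := by
  have h := D7_entry D θ g (Sum.inl j) (Sum.inr (-(C.simple j)))
  have h1 : D7_p D (Sum.inr (-(C.simple j))) = Sum.inr (-(C.simple (D.ρ j))) := by
    change Sum.inr (D.r (-(C.simple j))) = _
    rw [D.r_neg, D.r_simple]
  have h2 : D7_s D (Sum.inr (-(C.simple j))) = 1 := by
    change D.sg (-(C.simple j)) = 1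
    rw [D.sg_neg, D.sg_simple]
  have h3 : D7_s D (Sum.inl j) = 1 := rfl
  rw [h1, h2, h3] at h
  unfold SLC.xi
  rw [map_neg]
  congr 1
  refine Eq.trans h ?_
  simp

theorem sgl_nilpotent (θ : F ≃+* F) (g : GL C.Idx F)
    (h : IsNilpotent ((g : Matrix C.Idx C.Idx F) - 1)) :
    IsNilpotent (((D.sgl θ g : GL C.Idx F) : Matrix C.Idx C.Idx F) - 1) := by
  have h1 : ((D.sgl θ g : GL C.Idx F) : Matrix C.Idx C.Idx F) - 1 =
      ((D.gmat F : GL C.Idx F) : Matrix C.Idx C.Idx F) *
        ((θ : F →+* F).mapMatrix ((g : Matrix C.Idx C.Idx F) - 1)) *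
        (((D.gmat F)⁻¹ : GL C.Idx F) : Matrix C.Idx C.Idx F) := by
    rw [Dg.sgl_apply, Units.val_mul, Units.val_mul, SLC.mp_val, map_sub, map_one, mul_sub, sub_mul,
      mul_one, Units.mul_inv]
    rfl
  rw [h1]
  obtain ⟨k, hk⟩ := h
  refine ⟨k, ?_⟩
  rw [Units.conj_pow, ← map_pow, hk, map_zero, mul_zero, zero_mul]

theorem sgl_Gad (θ : F ≃+* F) (g : GL C.Idx F) (hg : g ∈ C.Gad F) : D.sgl θ g ∈ C.Gad F := by
  have h1 : C.Gad F ≤ (C.Gad F).comap (D.sgl θ) := by
    conv_lhs => unfold SLC.Gad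
    rw [Subgroup.closure_le]
    rintro x ⟨p, rfl⟩
    change D.sgl θ (C.xg F p.1 p.2) ∈ C.Gad F
    have h2 := isSig_adS D θ p.1 p.2
    change D.sgl θ (C.xg F p.1 p.2) = C.xg F (D.r p.1) ((D.sg p.1 : F) * θ p.2) at h2
    rw [h2]
    exact Subgroup.subset_closure ⟨(D.r p.1, (D.sg p.1 : F) * θ p.2), rfl⟩
  exact h1 hg

theorem sgl_mp {F' : Type*} [Field F'] (θ : F ≃+* F) (θ' : F' ≃+* F') (f : F →+* F')
    (h : ∀ t, f (θ t) = θ' (f t)) (g : GL C.Idx F) :
    C.mp f (D.sgl θ g) = D.sgl θ' (C.mp f g) := by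
  apply Units.ext
  apply D7_ext D
  intro a b
  rw [D7_entry, SLC.mp_val, SLC.mp_val, Matrix.map_apply, D7_entry, Matrix.map_apply, map_mul,
    map_mul, map_intCast, map_intCast, h]

theorem sgl_injective (θ : F ≃+* F) : Function.Injective (D.sgl (C := C) θ) := by
  intro g g' hg
  apply Units.ext
  ext a b
  have h1 := congrArg (fun x : GL C.Idx F => (x : Matrix C.Idx C.Idx F) (D7_p D a) (D7_p D b)) hg
  simp only [D7_entry] at h1
  have ha := D7_s_cast (R := F) D a
  have hb := D7_s_cast (R := F) D b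
  apply θ.injective
  linear_combination ((D7_s D a : F) * (D7_s D b : F)) * h1 -
    (D7_s D b : F) * (D7_s D b : F) * (θ ((g : Matrix C.Idx C.Idx F) a b) -
      θ ((g' : Matrix C.Idx C.Idx F) a b)) * ha -
    (θ ((g : Matrix C.Idx C.Idx F) a b) - θ ((g' : Matrix C.Idx C.Idx F) a b)) * hb

end

theorem lift_sig {n : ℕ} {C : SLC n} (D : Dg C) {F : Type u} [Field F] (θ : F ≃+* F)
    (g : GU C F) : GU.lift (C.adS F) (D.sig θ g) = D.sgl θ (GU.lift (C.adS F) g) := by
  have h : (GU.lift (C.adS F)).comp (D.sig θ) = (D.sgl θ).comp (GU.lift (C.adS F)) := by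
    apply GU.hom_ext
    intro β t
    rw [MonoidHom.comp_apply, MonoidHom.comp_apply, GU.lift_x]
    have h1 := isSig_GU D θ β t
    change D.sig θ (GU.x C F β t) = GU.x C F (D.r β) ((D.sg β : F) * θ t) at h1
    rw [h1, GU.lift_x]
    exact (isSig_adS D θ β t).symm
  exact DFunLike.congr_fun h g

end Pool.Agent.H75.UL
end

section
/- module Pool.Agent.H75.UT.D3 -/
/-!
# Project UT, module D3

The fixed points of `σ` in `U`.

`Inj S`: the ordered product determines the coordinates. `inO β γ`: `γ` is in the orbit of `β` or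
`γ = β + ρβ`. `XO β`: generated by the root elements of these roots; `fixX β`: its fixed points.
Hypothesis `hA`: either no adjacent orbits, or traces are surjective (`θ` of order `2`).
`layer`: `u ∈ U m`, `s u = u`. `exists_layer`: `u = lp t * u'`, `t` supported in height `m`.
`s u = u` gives `s (lp t) ∈ lp t * U (m+1)`, and `s (lp t)` is congruent modulo `U (m+1)` to
`lp t''`, `t'' (r β) = sg β * θ (t β)` (`lp t` modulo `U (m+1)` does not depend on the order of the
factors: the commutators are in `U (2m)`; `lp_add_layer`, induction on the support), so by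
uniqueness (`Inj`, with `lp_add_layer`) `t (r β) = sg β * θ (t β)` for all `β` of height `m`. Choose for
each orbit of roots of height `m` an element `y ∈ fixX β` with `y ≡ ∏_{γ in the orbit} x_γ(t γ)`:
`r β = β`: `x_β (t β)`; `r β ≠ β` and `ip β (r β) = 0`: the product of `s^[l] (x_β(t β))`, `l < m`, which
commute (`ip_orb`, `S.comm`), fixed by `s` as `s^[m]` is the identity on `x_β`;
`ip β (r β) = -1` (`m = 2`): `y = x_β(t) * s (x_β(t)) * x_γ(v)`, `γ = β + r β`; as `s (s (x_β t)) = x_β t`,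
`r γ = γ`, `sg γ = -1` (`sg_adj`), `s y = s (x_β t) * x_β t * x_γ(-θ v)`, so `s y = y` iff
`v + θ v = ± t * sg β * θ t` (`comm_add`), and the right side is fixed by `θ`, so there is such a `v`
(`hA`; in case `NA` this case does not occur by `ip_r_NA`). The product of these `y` over the orbits
is in `fixU` and congruent to `lp t` modulo `U (m+1)`.
`fixU_eq`: `layer` and induction on `m`, `exists_U_eq_bot`. `fixUm_eq`: the same for `S.neg`.
-/

set_option autoImplicit false
open Matrix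
universe u
namespace Pool.Agent.H75.UL

section
variable {n : ℕ} {C : SLC n} (D : Dg C) {K : Type*} [Field K] {H : Type*} [Group H]

/-- The ordered product of positive root elements determines the coordinates. -/
def StSys.Inj (S : StSys C K H) : Prop := ∀ t t' : C.Root → K,
  S.lp C.posList t = S.lp C.posList t' → ∀ β, C.Pos β → t β = t' β

/-- `γ` is in the orbit of `β`, or the sum of two roots in the orbit. -/
def Dg.inO (β γ : C.Root) : Prop := (∃ l, γ = D.r^[l] β) ∨ γ.1 = β.1 + (D.r β).1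

/-- The group generated by the root elements of the orbit of `β`. -/
def XO (S : StSys C K H) (β : C.Root) : Subgroup H :=
  Subgroup.closure {g | ∃ γ t, D.inO β γ ∧ g = S.x γ t}

/-- The fixed points of `s` in `XO β`. -/
def fixX (S : StSys C K H) (s : H →* H) (β : C.Root) : Subgroup H :=
  XO D S β ⊓ MonoidHom.eqLocus s (MonoidHom.id H)

variable {D} {θ : K ≃+* K} {S : StSys C K H} {s : H →* H}

private theorem d3_mem (S : StSys C K H) (m : ℤ) (β : C.Root) (t : K) (h : m ≤ ht β.1) :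
    S.x β t ∈ S.U m := Subgroup.subset_closure ⟨β, t, h, rfl⟩

private theorem d3_mono (S : StSys C K H) {m k : ℤ} (h : m ≤ k) : S.U k ≤ S.U m := by
  unfold StSys.U
  apply Subgroup.closure_mono
  rintro g ⟨β, t, hβ, rfl⟩
  exact ⟨β, t, h.trans hβ, rfl⟩

private theorem d3_conj' (S : StSys C K H) (m : ℤ) (hm : 1 ≤ m) (g u : H) (hg : g ∈ S.U 1)
    (hu : u ∈ S.U m) : g⁻¹ * u * g ∈ S.U m := by
  have := S.U_conj m hm g⁻¹ u (inv_mem hg) hu
  rwa [inv_inv] at this

private theorem d3_cons (S : StSys C K H) (β : C.Root) (l : List C.Root) (t : C.Root → K) :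
    S.lp (β :: l) t = S.x β (t β) * S.lp l t := by
  unfold StSys.lp
  rw [List.map_cons, List.prod_cons]

private theorem d3_single (S : StSys C K H) (β : C.Root) (s : K) (l : List C.Root) (hl : l.Nodup)
    (hβ : β ∈ l) : S.lp l (fun γ => if γ = β then s else 0) = S.x β s := by
  induction l with
  | nil => simp at hβ
  | cons γ l ih =>
    rw [d3_cons]
    rw [List.nodup_cons] at hl
    by_cases h : γ = β
    · subst h
      rw [S.lp_zero l, if_pos rfl, mul_one]
      intro δ hδ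
      rw [if_neg]
      rintro rfl
      exact hl.1 hδ
    · rw [if_neg h, S.x_zero, one_mul]
      refine ih hl.2 ?_
      rw [List.mem_cons] at hβ
      rcases hβ with rfl | hβ
      · exact absurd rfl h
      · exact hβ

private theorem d3_iter_ht (D : Dg C) (l : ℕ) (β : C.Root) : ht (D.r^[l] β).1 = ht β.1 := by
  induction l with
  | zero => rfl
  | succ l ih => rw [Function.iterate_succ_apply', D.r_ht, ih]

/-- `g` has the coordinates `t` in height `m`. -/
private def D3R (S : StSys C K H) (m : ℤ) (g : H) (t : C.Root → K) : Prop :=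
  (∀ β, ht β.1 ≠ m → t β = 0) ∧ ∃ u' ∈ S.U (m + 1), g = S.lp C.posList t * u'

private theorem d3_lp_mem1 (S : StSys C K H) (m : ℤ) (hm : 1 ≤ m) (t : C.Root → K)
    (h : ∀ β, ht β.1 ≠ m → t β = 0) : S.lp C.posList t ∈ S.U 1 :=
  S.lp_mem 1 t fun β hβ => h β (by omega)

private theorem d3_R_one (S : StSys C K H) (m : ℤ) (g : H) (hg : g ∈ S.U (m + 1)) :
    D3R S m g (fun _ => 0) :=
  ⟨fun _ _ => rfl, g, hg, by rw [S.lp_zero _ _ (fun _ _ => rfl), one_mul]⟩

private theorem d3_R_single (S : StSys C K H) (m : ℤ) (hm : 1 ≤ m) (β : C.Root) (hβ : ht β.1 = m)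
    (a : K) : D3R S m (S.x β a) (fun γ => if γ = β then a else 0) := by
  refine ⟨fun γ hγ => if_neg ?_, 1, one_mem _, ?_⟩
  · rintro rfl
    exact hγ hβ
  · rw [d3_single S β a C.posList C.posList_nodup, mul_one]
    rw [C.mem_posList]
    unfold SLC.Pos
    omega

private theorem d3_R_mul (S : StSys C K H) (m : ℤ) (hm : 1 ≤ m) {g g' : H} {t t' : C.Root → K}
    (h : D3R S m g t) (h' : D3R S m g' t') : D3R S m (g * g') (fun β => t β + t' β) := by
  obtain ⟨h0, u, hu, rfl⟩ := h
  obtain ⟨h0', u', hu', rfl⟩ := h'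
  obtain ⟨u'', hu'', h3⟩ := S.lp_add_layer m hm t t' h0 h0'
  refine ⟨fun β hβ => by simp only [h0 β hβ, h0' β hβ, add_zero],
    u''⁻¹ * (((S.lp C.posList t')⁻¹ * u * S.lp C.posList t') * u'), ?_, ?_⟩
  · refine mul_mem (inv_mem hu'') (mul_mem ?_ hu')
    exact d3_conj' S (m + 1) (by omega) _ _ (d3_lp_mem1 S m hm t' h0') hu
  · rw [h3]
    group

private theorem d3_R_unique (S : StSys C K H) (hI : S.Inj) (m : ℤ) (hm : 1 ≤ m) {g : H}
    {t t' : C.Root → K} (h : D3R S m g t) (h' : D3R S m g t') : t = t' := by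
  obtain ⟨h0, u, hu, hg⟩ := h
  obtain ⟨h0', u', hu', hg'⟩ := h'
  obtain ⟨t1, ht1, rfl⟩ := S.exists_lp (m + 1) (by omega) u hu
  obtain ⟨t2, ht2, rfl⟩ := S.exists_lp (m + 1) (by omega) u' hu'
  have key : ∀ (a b : C.Root → K), (∀ β, ht β.1 ≠ m → a β = 0) → (∀ β, ht β.1 < m + 1 → b β = 0) →
      S.lp C.posList a * S.lp C.posList b =
        S.lp C.posList (fun β => if ht β.1 ≤ m then a β else b β) := by
    intro a b ha hb
    rw [S.lp_split m (fun β => if ht β.1 ≤ m then a β else b β)]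
    congr 1
    · apply S.lp_congr
      intro β _
      by_cases hβ : ht β.1 ≤ m
      · simp only [if_pos hβ]
      · simp only [if_neg hβ]
        exact ha β (by omega)
    · apply S.lp_congr
      intro β _
      by_cases hβ : ht β.1 ≤ m
      · simp only [if_pos hβ]
        exact hb β (by omega)
      · simp only [if_neg hβ]
  rw [hg, key t t1 h0 ht1, key t' t2 h0' ht2] at hg'
  have h4 := hI _ _ hg'
  funext β
  by_cases hβ : ht β.1 = m
  · have h5 := h4 β (by unfold SLC.Pos; omega)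
    simpa only [if_pos hβ.le] using h5
  · rw [h0 β hβ, h0' β hβ]

private theorem d3_R_congr_mem (S : StSys C K H) (m : ℤ) {g g' : H} {t : C.Root → K}
    (h : D3R S m g t) (h' : D3R S m g' t) : g⁻¹ * g' ∈ S.U (m + 1) := by
  obtain ⟨-, u, hu, rfl⟩ := h
  obtain ⟨-, u', hu', rfl⟩ := h'
  have e : (S.lp C.posList t * u)⁻¹ * (S.lp C.posList t * u') = u⁻¹ * u' := by group
  rw [e]
  exact mul_mem (inv_mem hu) hu'

private theorem d3_R_map_lp (S : StSys C K H) (h : IsSig D θ S s) (m : ℤ) (hm : 1 ≤ m)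
    (t : C.Root → K) (h0 : ∀ β, ht β.1 ≠ m → t β = 0) (l : List C.Root) (hl : l.Nodup) :
    ∃ T : C.Root → K, D3R S m (s (S.lp l t)) T ∧
      (∀ β ∈ l, T (D.r β) = (D.sg β : K) * θ (t β)) ∧ (∀ β, β ∉ l → T (D.r β) = 0) := by
  induction l with
  | nil =>
    refine ⟨fun _ => 0, ?_, by simp, by simp⟩
    have : S.lp ([] : List C.Root) t = 1 := by simp [StSys.lp]
    rw [this, _root_.map_one]
    exact d3_R_one S m 1 (one_mem _)
  | cons β l ih =>
    rw [List.nodup_cons] at hl
    obtain ⟨T, hT, hT1, hT2⟩ := ih hl.2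
    rw [d3_cons, _root_.map_mul, h β (t β)]
    have hb : D3R S m (S.x (D.r β) ((D.sg β : K) * θ (t β)))
        (fun γ => if γ = D.r β then (D.sg β : K) * θ (t β) else 0) := by
      by_cases hβ : ht β.1 = m
      · exact d3_R_single S m hm (D.r β) (by rw [D.r_ht, hβ]) _
      · rw [h0 β hβ, _root_.map_zero, mul_zero, S.x_zero]
        have : (fun γ : C.Root => if γ = D.r β then (0 : K) else 0) = fun _ => 0 := by
          funext γ
          simp
        rw [this]
        exact d3_R_one S m 1 (one_mem _)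
    refine ⟨_, d3_R_mul S m hm hb hT, fun γ hγ => ?_, fun γ hγ => ?_⟩
    · rw [List.mem_cons] at hγ
      by_cases h1 : γ = β
      · subst h1
        simp only [if_true]
        rw [hT2 γ hl.1, add_zero]
      · have h2 : γ ∈ l := by
          rcases hγ with h3 | h3
          · exact absurd h3 h1
          · exact h3
        have h3 : ¬ D.r γ = D.r β := fun h4 => h1 (D.r_injective h4)
        simp only [if_neg h3, zero_add]
        exact hT1 γ h2
    · rw [List.mem_cons, not_or] at hγ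
      have h3 : ¬ D.r γ = D.r β := fun h4 => hγ.1 (D.r_injective h4)
      simp only [if_neg h3, zero_add]
      exact hT2 γ hγ.2

private theorem d3_R_map (S : StSys C K H) (h : IsSig D θ S s) (m : ℤ) (hm : 1 ≤ m) {g : H}
    {t : C.Root → K} (hg : D3R S m g t) :
    ∃ T : C.Root → K, D3R S m (s g) T ∧ ∀ β, T (D.r β) = (D.sg β : K) * θ (t β) := by
  obtain ⟨h0, u, hu, rfl⟩ := hg
  obtain ⟨T, hT, hT1, hT2⟩ := d3_R_map_lp S h m hm t h0 C.posList C.posList_nodup
  refine ⟨T, ?_, fun β => ?_⟩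
  · obtain ⟨h3, u', hu', h4⟩ := hT
    refine ⟨h3, u' * s u, mul_mem hu' (h.map_U (m + 1) u hu), ?_⟩
    rw [_root_.map_mul, h4, mul_assoc]
  · by_cases hβ : β ∈ C.posList
    · exact hT1 β hβ
    · rw [hT2 β hβ, h0 β, _root_.map_zero, mul_zero]
      rw [C.mem_posList] at hβ
      unfold SLC.Pos at hβ
      omega

/-- A fixed element has coordinates compatible with `σ`. -/
private theorem d3_R_fixed (S : StSys C K H) (hI : S.Inj) (h : IsSig D θ S s) (m : ℤ) (hm : 1 ≤ m)
    {g : H} {t : C.Root → K} (hg : D3R S m g t) (hs : s g = g) (β : C.Root) :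
    t (D.r β) = (D.sg β : K) * θ (t β) := by
  obtain ⟨T, hT, hT1⟩ := d3_R_map S h m hm hg
  rw [hs] at hT
  rw [d3_R_unique S hI m hm hg hT]
  rw [hT1 β, ← d3_R_unique S hI m hm hg hT]

private theorem d3_x_mem_XO (S : StSys C K H) (β : C.Root) (l : ℕ) (a : K) :
    S.x (D.r^[l] β) a ∈ XO D S β := Subgroup.subset_closure ⟨_, a, Or.inl ⟨l, rfl⟩, rfl⟩

private theorem d3_orb_lt (D : Dg C) (β : C.Root) (l : ℕ) :
    ∃ l', l' < D.m ∧ D.r^[l] β = D.r^[l'] β := by
  have hpos : 0 < D.m := by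
    rcases D.m_cases with h | h | h <;> omega
  refine ⟨l % D.m, Nat.mod_lt _ hpos, ?_⟩
  have h1 : Function.IsPeriodicPt D.r D.m β := D.r_m β
  exact (h1.iterate_mod_apply l).symm

/-- The orbit element. -/
private theorem d3_orbit (h : IsSig D θ S s) (hθ : ∀ t, (⇑θ)^[D.m] t = t)
    (hA : D.NA ∨ ∀ z, θ z = z → ∃ v, v + θ v = z) (m : ℤ) (hm : 1 ≤ m) (β : C.Root)
    (hβ : ht β.1 = m) (t : C.Root → K)
    (ht : ∀ γ, t (D.r γ) = (D.sg γ : K) * θ (t γ)) :
    ∃ y ∈ fixX D S s β, ∃ t1 : C.Root → K, D3R S m y t1 ∧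
      (∀ γ, (∃ l, γ = D.r^[l] β) → t1 γ = t γ) ∧ (∀ γ, (¬ ∃ l, γ = D.r^[l] β) → t1 γ = 0) := by
  have hx : ∀ γ, s (S.x γ (t γ)) = S.x (D.r γ) (t (D.r γ)) := fun γ => by rw [h γ, ht γ]
  have hb0 := hβ
  have hb1 : Pool.Agent.H75.UL.ht (D.r β).1 = m := by rw [D.r_ht, hβ]
  have hb2 : Pool.Agent.H75.UL.ht (D.r (D.r β)).1 = m := by rw [D.r_ht, hb1]
  by_cases hfix : D.r β = β
  · -- fixed root
    refine ⟨S.x β (t β), ?_, _, d3_R_single S m hm β hβ (t β), ?_, ?_⟩
    · refine Subgroup.mem_inf.mpr ⟨d3_x_mem_XO S β 0 (t β), ?_⟩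
      change s (S.x β (t β)) = S.x β (t β)
      rw [hx β, hfix]
    · rintro γ ⟨l, rfl⟩
      have : D.r^[l] β = β := Function.iterate_fixed hfix l
      rw [this, if_pos rfl]
    · intro γ hγ
      rw [if_neg]
      rintro rfl
      exact hγ ⟨0, rfl⟩
  have hne : ¬ β = D.r β := fun h1 => hfix h1.symm
  have hR0 := d3_R_single S m hm β hb0 (t β)
  have hR1 := d3_R_single S m hm (D.r β) hb1 (t (D.r β))
  have hR2 := d3_R_single S m hm (D.r (D.r β)) hb2 (t (D.r (D.r β)))
  have hX0 := d3_x_mem_XO (D := D) S β 0 (t β)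
  have hX1 := d3_x_mem_XO (D := D) S β 1 (t (D.r β))
  have hX2 := d3_x_mem_XO (D := D) S β 2 (t (D.r (D.r β)))
  change S.x β (t β) ∈ XO D S β at hX0
  change S.x (D.r β) (t (D.r β)) ∈ XO D S β at hX1
  change S.x (D.r (D.r β)) (t (D.r (D.r β))) ∈ XO D S β at hX2
  -- coordinates in the case of order two
  have hco2 : D.m = 2 →
      (∀ γ, (∃ l, γ = D.r^[l] β) → (fun γ => (if γ = β then t β else 0) +
        (if γ = D.r β then t (D.r β) else 0)) γ = t γ) ∧
      (∀ γ, (¬ ∃ l, γ = D.r^[l] β) → (fun γ => (if γ = β then t β else 0) +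
        (if γ = D.r β then t (D.r β) else 0)) γ = 0) := by
    intro hm2
    refine ⟨?_, ?_⟩
    · rintro γ ⟨l, rfl⟩
      obtain ⟨l', hl', h1⟩ := d3_orb_lt D β l
      rw [h1]
      rw [hm2] at hl'
      have h2 : l' = 0 ∨ l' = 1 := by omega
      rcases h2 with rfl | rfl
      · change (if β = β then t β else 0) + (if β = D.r β then t (D.r β) else 0) = t β
        rw [if_pos rfl, if_neg hne, add_zero]
      · change (if D.r β = β then t β else 0) + (if D.r β = D.r β then t (D.r β) else 0) = t (D.r β)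
        rw [if_neg hfix, if_pos rfl, zero_add]
    · intro γ hγ
      have h1 : ¬ γ = β := fun h1 => hγ ⟨0, h1⟩
      have h2 : ¬ γ = D.r β := fun h1 => hγ ⟨1, h1⟩
      change (if γ = β then t β else 0) + (if γ = D.r β then t (D.r β) else 0) = 0
      rw [if_neg h1, if_neg h2, add_zero]
  have hco3 : D.m = 3 →
      (∀ γ, (∃ l, γ = D.r^[l] β) → (fun γ => ((if γ = β then t β else 0) +
        (if γ = D.r β then t (D.r β) else 0)) +
        (if γ = D.r (D.r β) then t (D.r (D.r β)) else 0)) γ = t γ) ∧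
      (∀ γ, (¬ ∃ l, γ = D.r^[l] β) → (fun γ => ((if γ = β then t β else 0) +
        (if γ = D.r β then t (D.r β) else 0)) +
        (if γ = D.r (D.r β) then t (D.r (D.r β)) else 0)) γ = 0) := by
    intro hm3
    have n02 : ¬ β = D.r (D.r β) := fun h1 => by
      have := D.r_iter_eq β hfix 0 2 (by omega) (by omega) h1
      omega
    have n12 : ¬ D.r β = D.r (D.r β) := fun h1 => hne (D.r_injective h1)
    have n20 : ¬ D.r (D.r β) = β := fun h1 => n02 h1.symm
    have n21 : ¬ D.r (D.r β) = D.r β := fun h1 => n12 h1.symm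
    refine ⟨?_, ?_⟩
    · rintro γ ⟨l, rfl⟩
      obtain ⟨l', hl', h1⟩ := d3_orb_lt D β l
      rw [h1]
      rw [hm3] at hl'
      have h2 : l' = 0 ∨ l' = 1 ∨ l' = 2 := by omega
      rcases h2 with rfl | rfl | rfl
      · change ((if β = β then t β else 0) + (if β = D.r β then t (D.r β) else 0)) +
          (if β = D.r (D.r β) then t (D.r (D.r β)) else 0) = t β
        rw [if_pos rfl, if_neg hne, if_neg n02, add_zero, add_zero]
      · change ((if D.r β = β then t β else 0) + (if D.r β = D.r β then t (D.r β) else 0)) +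
          (if D.r β = D.r (D.r β) then t (D.r (D.r β)) else 0) = t (D.r β)
        rw [if_neg hfix, if_pos rfl, if_neg n12, zero_add, add_zero]
      · change ((if D.r (D.r β) = β then t β else 0) +
          (if D.r (D.r β) = D.r β then t (D.r β) else 0)) +
          (if D.r (D.r β) = D.r (D.r β) then t (D.r (D.r β)) else 0) = t (D.r (D.r β))
        rw [if_neg n20, if_neg n21, if_pos rfl, zero_add, zero_add]
    · intro γ hγ
      have h1 : ¬ γ = β := fun h1 => hγ ⟨0, h1⟩
      have h2 : ¬ γ = D.r β := fun h1 => hγ ⟨1, h1⟩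
      have h3 : ¬ γ = D.r (D.r β) := fun h1 => hγ ⟨2, h1⟩
      change ((if γ = β then t β else 0) + (if γ = D.r β then t (D.r β) else 0)) +
          (if γ = D.r (D.r β) then t (D.r (D.r β)) else 0) = 0
      rw [if_neg h1, if_neg h2, if_neg h3, add_zero, add_zero]
  rcases D.ip_r β hfix with h0 | ⟨hm2, h1⟩
  · -- orthogonal
    have c01 := S.comm β (D.r β) (t β) (t (D.r β)) (by omega)
    rcases D.m_cases with h1 | h2 | h3
    · exfalso
      have := D.r_m β
      rw [h1] at this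
      exact hfix this
    · have hrr : D.r (D.r β) = β := by
        have := D.r_m β
        rw [h2] at this
        exact this
      refine ⟨S.x β (t β) * S.x (D.r β) (t (D.r β)), ?_, _, d3_R_mul S m hm hR0 hR1, hco2 h2⟩
      refine Subgroup.mem_inf.mpr ⟨mul_mem hX0 hX1, ?_⟩
      change s (S.x β (t β) * S.x (D.r β) (t (D.r β))) = S.x β (t β) * S.x (D.r β) (t (D.r β))
      rw [_root_.map_mul, hx, hx, hrr, c01]
    · have hrrr : D.r (D.r (D.r β)) = β := by
        have := D.r_m β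
        rw [h3] at this
        exact this
      have i12 : C.ip (D.r β).1 (D.r (D.r β)).1 = 0 := by rw [D.r_ip, h0]
      have i02 : C.ip β.1 (D.r (D.r β)).1 = 0 := by
        have := D.ip_orb β hfix 2 (by omega) (by omega)
        rw [h0] at this
        exact this
      have c12 := S.comm (D.r β) (D.r (D.r β)) (t (D.r β)) (t (D.r (D.r β))) (by omega)
      have c02 := S.comm β (D.r (D.r β)) (t β) (t (D.r (D.r β))) (by omega)
      refine ⟨S.x β (t β) * S.x (D.r β) (t (D.r β)) * S.x (D.r (D.r β)) (t (D.r (D.r β))), ?_, _,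
        d3_R_mul S m hm (d3_R_mul S m hm hR0 hR1) hR2, hco3 h3⟩
      refine Subgroup.mem_inf.mpr ⟨mul_mem (mul_mem hX0 hX1) hX2, ?_⟩
      change s (S.x β (t β) * S.x (D.r β) (t (D.r β)) * S.x (D.r (D.r β)) (t (D.r (D.r β)))) =
        S.x β (t β) * S.x (D.r β) (t (D.r β)) * S.x (D.r (D.r β)) (t (D.r (D.r β)))
      rw [_root_.map_mul, _root_.map_mul, hx, hx, hx, hrrr, mul_assoc, ← c02, ← mul_assoc, ← c01]
  · -- adjacent
    obtain ⟨γ, hγ⟩ := C.exists_add β (D.r β) h1
    obtain ⟨hrγ, hsγ⟩ := D.sg_adj β γ hfix hγ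
    have hrr : D.r (D.r β) = β := by
      have := D.r_m β
      rw [hm2] at this
      exact this
    have hθ2 : ∀ a, θ (θ a) = a := fun a => by
      have := hθ a
      rw [hm2] at this
      exact this
    have htb : t (D.r β) = (D.sg β : K) * θ (t β) := ht β
    have htb' : t β = (D.sg (D.r β) : K) * θ (t (D.r β)) := by
      have := ht (D.r β)
      rwa [hrr] at this
    have hz : θ (-((C.eps β.1 (D.r β).1 : K) * t β * t (D.r β))) =
        -((C.eps β.1 (D.r β).1 : K) * t β * t (D.r β)) := by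
      have e1 : θ (t β) = (D.sg β : K) * t (D.r β) := by
        rw [htb, ← mul_assoc, ← Int.cast_mul, D.sg_sq, Int.cast_one, one_mul]
      have e2 : θ (t (D.r β)) = (D.sg β : K) * t β := by
        rw [htb, _root_.map_mul, map_intCast, hθ2]
      rw [_root_.map_neg, _root_.map_mul, _root_.map_mul, map_intCast, e1, e2]
      have e3 : (D.sg β : K) * (D.sg β : K) = 1 := by
        rw [← Int.cast_mul, D.sg_sq, Int.cast_one]
      linear_combination (-(C.eps β.1 (D.r β).1 : K) * t β * t (D.r β)) * e3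
    have hv : ∃ v, v + θ v = -((C.eps β.1 (D.r β).1 : K) * t β * t (D.r β)) := by
      rcases hA with hA | hA
      · exfalso
        have := D.ip_r_NA hA β hfix
        omega
      · exact hA _ hz
    obtain ⟨v, hv⟩ := hv
    have hhtγ : m + 1 ≤ Pool.Agent.H75.UL.ht γ.1 := by
      rw [hγ, ht_add, hb0, hb1]
      omega
    have hip1 : C.ip β.1 γ.1 = 1 := by
      rw [hγ, C.ip_add_right, β.2, h1]
      norm_num
    have hip2 : C.ip (D.r β).1 γ.1 = 1 := by
      rw [hγ, C.ip_add_right, C.ip_comm, h1, (D.r β).2]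
      norm_num
    have hRγ : D3R S m (S.x γ v) (fun _ => 0) := d3_R_one S m _ (d3_mem S (m + 1) γ v hhtγ)
    have hR := d3_R_mul S m hm (d3_R_mul S m hm hR0 hR1) hRγ
    simp only [add_zero] at hR
    refine ⟨S.x β (t β) * S.x (D.r β) (t (D.r β)) * S.x γ v, ?_, _, hR, hco2 hm2⟩
    have hXγ : S.x γ v ∈ XO D S β := Subgroup.subset_closure ⟨γ, v, Or.inr hγ, rfl⟩
    refine Subgroup.mem_inf.mpr ⟨mul_mem (mul_mem hX0 hX1) hXγ, ?_⟩
    change s (S.x β (t β) * S.x (D.r β) (t (D.r β)) * S.x γ v) =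
      S.x β (t β) * S.x (D.r β) (t (D.r β)) * S.x γ v
    rw [_root_.map_mul, _root_.map_mul, hx, hx, hrr, h γ, hrγ, hsγ]
    have c := S.comm_add β (D.r β) γ (t β) (t (D.r β)) hγ
    have c' : S.x β (t β) * S.x (D.r β) (t (D.r β)) =
        S.x γ ((C.eps β.1 (D.r β).1 : K) * t β * t (D.r β)) *
          (S.x (D.r β) (t (D.r β)) * S.x β (t β)) := by
      rw [← c]
      group
    rw [c']
    have d1 : ∀ a, S.x β (t β) * S.x γ a = S.x γ a * S.x β (t β) := fun a =>
      S.comm β γ _ _ (by omega)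
    have d2 : ∀ a, S.x (D.r β) (t (D.r β)) * S.x γ a = S.x γ a * S.x (D.r β) (t (D.r β)) :=
      fun a => S.comm (D.r β) γ _ _ (by omega)
    have d3 : ∀ a, S.x (D.r β) (t (D.r β)) * S.x β (t β) * S.x γ a =
        S.x γ a * (S.x (D.r β) (t (D.r β)) * S.x β (t β)) := fun a => by
      rw [mul_assoc, d1, ← mul_assoc, d2, mul_assoc]
    have d4 : ∀ a, S.x γ a * (S.x (D.r β) (t (D.r β)) * S.x β (t β)) * S.x γ v =
        S.x γ (a + v) * (S.x (D.r β) (t (D.r β)) * S.x β (t β)) := fun a => by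
      rw [mul_assoc, d3, ← mul_assoc, S.map_add]
    rw [d3, d4]
    congr 2
    push_cast
    linear_combination (-1 : K) * hv

theorem XO_le_U (S : StSys C K H) (β : C.Root) (hβ : C.Pos β) : XO D S β ≤ S.U (ht β.1) := by
  unfold XO
  rw [Subgroup.closure_le]
  rintro g ⟨γ, t, hγ, rfl⟩
  refine d3_mem S _ γ t ?_
  rcases hγ with ⟨l, rfl⟩ | hγ
  · rw [d3_iter_ht]
  · rw [hγ, ht_add, D.r_ht]
    unfold SLC.Pos at hβ
    omega

theorem fixX_le_fixU (S : StSys C K H) (s : H →* H) (β : C.Root) (hβ : C.Pos β) :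
    fixX D S s β ≤ fixU S s := by
  unfold fixX fixU
  refine inf_le_inf_right _ ((XO_le_U S β hβ).trans (d3_mono S ?_))
  unfold SLC.Pos at hβ
  omega

private theorem d3_orb_iff (D : Dg C) (β δ : C.Root) :
    (∃ l, D.r δ = D.r^[l] β) ↔ (∃ l, δ = D.r^[l] β) := by
  constructor
  · rintro ⟨l, hl⟩
    cases l with
    | zero =>
      have hpos : 0 < D.m := by
        rcases D.m_cases with h | h | h <;> omega
      obtain ⟨k, hk⟩ : ∃ k, D.m = k + 1 := ⟨D.m - 1, by omega⟩
      have h1 := D.r_m β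
      rw [hk, Function.iterate_succ_apply'] at h1
      refine ⟨k, D.r_injective ?_⟩
      rw [h1]
      exact hl
    | succ l =>
      rw [Function.iterate_succ_apply'] at hl
      exact ⟨l, D.r_injective hl⟩
  · rintro ⟨l, rfl⟩
    exact ⟨l + 1, by rw [Function.iterate_succ_apply']⟩

/-- All the orbits. -/
private theorem d3_all (h : IsSig D θ S s) (hθ : ∀ t, (⇑θ)^[D.m] t = t)
    (hA : D.NA ∨ ∀ z, θ z = z → ∃ v, v + θ v = z) (m : ℤ) (hm : 1 ≤ m) (k : ℕ) :
    ∀ t : C.Root → K, (∀ β, ht β.1 ≠ m → t β = 0) →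
      (∀ γ, t (D.r γ) = (D.sg γ : K) * θ (t γ)) → {β | t β ≠ 0}.ncard ≤ k →
      ∃ v ∈ Subgroup.closure {g | ∃ β : C.Root, ht β.1 = m ∧ g ∈ fixX D S s β},
        D3R S m v t := by
  classical
  induction k with
  | zero =>
    intro t _ _ hk
    have h1 : {β | t β ≠ 0} = ∅ := by
      rw [← Set.ncard_eq_zero (Set.toFinite _)]
      omega
    have h2 : t = fun _ => 0 := by
      funext β
      by_contra h3
      have : β ∈ {β | t β ≠ 0} := h3
      rw [h1] at this
      exact this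
    refine ⟨1, one_mem _, ?_⟩
    rw [h2]
    exact d3_R_one S m 1 (one_mem _)
  | succ k ih =>
    intro t h0 ht hk
    by_cases hz : ∀ β, t β = 0
    · refine ⟨1, one_mem _, ?_⟩
      have h2 : t = fun _ => 0 := funext hz
      rw [h2]
      exact d3_R_one S m 1 (one_mem _)
    push Not at hz
    obtain ⟨β, hβ⟩ := hz
    have hβm : Pool.Agent.H75.UL.ht β.1 = m := by
      by_contra h1
      exact hβ (h0 β h1)
    obtain ⟨y, hy, t1, hR, h1, h2⟩ := d3_orbit (D := D) h hθ hA m hm β hβm t ht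
    have hd : ∀ γ, t γ - t1 γ = if (∃ l, γ = D.r^[l] β) then 0 else t γ := by
      intro γ
      by_cases h3 : ∃ l, γ = D.r^[l] β
      · rw [if_pos h3, h1 γ h3, sub_self]
      · rw [if_neg h3, h2 γ h3, sub_zero]
    obtain ⟨v, hv, hRv⟩ := ih (fun γ => t γ - t1 γ) (fun γ hγ => by
      rw [hd γ]
      split_ifs
      · rfl
      · exact h0 γ hγ) (fun γ => by
      change t (D.r γ) - t1 (D.r γ) = (D.sg γ : K) * θ (t γ - t1 γ)
      rw [hd, hd]
      by_cases h3 : ∃ l, γ = D.r^[l] β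
      · rw [if_pos h3, if_pos ((d3_orb_iff D β γ).mpr h3), _root_.map_zero, mul_zero]
      · rw [if_neg h3, if_neg (fun h4 => h3 ((d3_orb_iff D β γ).mp h4)), ht γ]) (by
      have h3 : {γ | t γ - t1 γ ≠ 0} ⊂ {γ | t γ ≠ 0} := by
        rw [Set.ssubset_iff_of_subset]
        · refine ⟨β, hβ, ?_⟩
          have h4 : t β - t1 β = 0 := by
            rw [hd, if_pos ⟨0, rfl⟩]
          intro h5
          exact h5 h4
        · intro γ hγ
          have h5 : t γ - t1 γ ≠ 0 := hγ
          rw [hd] at h5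
          split_ifs at h5 with h6
          · exact absurd rfl h5
          · exact h5
      have h4 := Set.ncard_lt_ncard h3 (Set.toFinite _)
      change {γ | t γ - t1 γ ≠ 0}.ncard ≤ k
      omega)
    refine ⟨y * v, mul_mem (Subgroup.subset_closure ⟨β, hβm, hy⟩) hv, ?_⟩
    have h3 := d3_R_mul S m hm hR hRv
    have h4 : (fun β => t1 β + (fun γ => t γ - t1 γ) β) = t := by
      funext γ
      change t1 γ + (t γ - t1 γ) = t γ
      ring
    rwa [h4] at h3

theorem layer (hI : S.Inj) (h : IsSig D θ S s) (hθ : ∀ t, (⇑θ)^[D.m] t = t)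
    (hA : D.NA ∨ ∀ z, θ z = z → ∃ v, v + θ v = z) (m : ℤ) (hm : 1 ≤ m) (u : H)
    (hu : u ∈ S.U m) (hs : s u = u) :
    ∃ v ∈ Subgroup.closure {g | ∃ β : C.Root, ht β.1 = m ∧ g ∈ fixX D S s β},
      ∃ u' ∈ S.U (m + 1), s u' = u' ∧ u = v * u' := by
  obtain ⟨t, h0, hR⟩ := S.exists_layer m hm u hu
  have hRu : D3R S m u t := ⟨h0, hR⟩
  have ht := d3_R_fixed S hI h m hm hRu hs
  obtain ⟨v, hv, hRv⟩ := d3_all h hθ hA m hm _ t h0 ht le_rfl
  have hsv : s v = v := by
    have h1 : Subgroup.closure {g | ∃ β : C.Root, Pool.Agent.H75.UL.ht β.1 = m ∧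
        g ∈ fixX D S s β} ≤ MonoidHom.eqLocus s (MonoidHom.id H) := by
      rw [Subgroup.closure_le]
      rintro g ⟨β, -, hg⟩
      exact (Subgroup.mem_inf.mp hg).2
    exact h1 hv
  refine ⟨v, hv, v⁻¹ * u, d3_R_congr_mem S m hRv hRu, ?_, by group⟩
  rw [_root_.map_mul, _root_.map_inv, hsv, hs]

theorem fixU_eq (hI : S.Inj) (h : IsSig D θ S s) (hθ : ∀ t, (⇑θ)^[D.m] t = t)
    (hA : D.NA ∨ ∀ z, θ z = z → ∃ v, v + θ v = z) :
    fixU S s = Subgroup.closure {g | ∃ β : C.Root, C.Pos β ∧ g ∈ fixX D S s β} := by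
  apply le_antisymm
  · obtain ⟨M, hM1, -, hM3⟩ := S.exists_U_eq_bot
    have key : ∀ k : ℕ, ∀ m : ℤ, 1 ≤ m → M ≤ m + k → ∀ u ∈ S.U m, s u = u →
        u ∈ Subgroup.closure {g | ∃ β : C.Root, C.Pos β ∧ g ∈ fixX D S s β} := by
      intro k
      induction k with
      | zero =>
        intro m hm hMm u hu _
        have h1 : u ∈ S.U M := d3_mono S (by simpa using hMm) hu
        rw [hM3, Subgroup.mem_bot] at h1
        rw [h1]
        exact one_mem _
      | succ k ih =>
        intro m hm hMm u hu hs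
        obtain ⟨v, hv, u', hu', hs', rfl⟩ := layer hI h hθ hA m hm u hu hs
        refine mul_mem ?_ (ih (m + 1) (by omega) (by push_cast at hMm; omega) u' hu' hs')
        refine Subgroup.closure_mono ?_ hv
        rintro g ⟨β, hβ, hg⟩
        refine ⟨β, ?_, hg⟩
        unfold SLC.Pos
        omega
    intro u hu
    obtain ⟨hu1, hu2⟩ := Subgroup.mem_inf.mp hu
    exact key (M - 1).toNat 1 le_rfl (by have := Int.self_le_toNat (M - 1); omega) u hu1 hu2
  · rw [Subgroup.closure_le]
    rintro g ⟨β, hβ, hg⟩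
    exact fixX_le_fixU S s β hβ hg

private theorem d3_iter_neg (D : Dg C) (l : ℕ) (β : C.Root) : D.r^[l] (-β) = -(D.r^[l] β) := by
  induction l with
  | zero => rfl
  | succ l ih => rw [Function.iterate_succ_apply', Function.iterate_succ_apply', ih, D.r_neg]

private theorem d3_neg_neg (β : C.Root) : - -β = β := C.neg_neg_root β

private theorem d3_inO_neg (D : Dg C) (β γ : C.Root) (hγ : D.inO β γ) : D.inO (-β) (-γ) := by
  rcases hγ with ⟨l, rfl⟩ | hγ
  · exact Or.inl ⟨l, (d3_iter_neg D l β).symm⟩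
  · right
    rw [SLC.Root.neg_val, SLC.Root.neg_val, D.r_neg, SLC.Root.neg_val, hγ]
    abel

private theorem d3_XO_neg (D : Dg C) (S : StSys C K H) (β : C.Root) :
    XO D S.neg β = XO D S (-β) := by
  unfold XO
  congr 1
  ext g
  constructor
  · rintro ⟨γ, t, hγ, rfl⟩
    exact ⟨-γ, t, d3_inO_neg D β γ hγ, rfl⟩
  · rintro ⟨γ, t, hγ, rfl⟩
    refine ⟨-γ, t, ?_, ?_⟩
    · have := d3_inO_neg D (-β) γ hγ
      rwa [d3_neg_neg] at this
    · rw [StSys.neg_x, d3_neg_neg]

theorem fixUm_eq (hI : S.neg.Inj) (h : IsSig D θ S s) (hθ : ∀ t, (⇑θ)^[D.m] t = t)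
    (hA : D.NA ∨ ∀ z, θ z = z → ∃ v, v + θ v = z) :
    fixUm S s = Subgroup.closure {g | ∃ β : C.Root, ¬ C.Pos β ∧ g ∈ fixX D S s β} := by
  have h1 := fixU_eq hI h.neg hθ hA
  have h2 : fixU S.neg s = fixUm S s := by
    unfold fixU fixUm
    rw [S.neg_U]
  rw [h2] at h1
  rw [h1]
  congr 1
  ext g
  have h3 : ∀ β, fixX D S.neg s β = fixX D S s (-β) := fun β => by
    unfold fixX
    rw [d3_XO_neg]
  constructor
  · rintro ⟨β, hβ, hg⟩
    refine ⟨-β, ?_, ?_⟩
    · rw [C.not_pos_iff, d3_neg_neg]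
      exact hβ
    · rwa [h3] at hg
  · rintro ⟨β, hβ, hg⟩
    refine ⟨-β, (C.not_pos_iff β).mp hβ, ?_⟩
    rw [h3, d3_neg_neg]
    exact hg

end

end Pool.Agent.H75.UL
end

section
/- module Pool.Agent.H75.UT.D6b -/
/-!
# Project UT, module D6b

Elements of `E = <U⁺^σ, U⁻^σ>` in the torus.

`exists_h`: `(∏_l s^[l] (nn x β c)) * (∏_l s^[l] (nn x β (-1)))` is in `Eg` (`prod_nn_mem`), and equal to
`∏_l s^[l] (hh x β c)` as factors for different `l` commute (orthogonal roots); `s^[l] (hh x β c) =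
hh x (r^l β) (θ^l c)` (`map_hh`), `h_conj`.
`exists_tor`: it is enough to have for each `i` an element `h_i ∈ T ∩ Eg` acting by
`c ^ ip (B_i) γ` on `x_γ`, where `B_i` is the sum of the simple roots in the orbit of `i`
(an invariant `v` is an integral combination of the `B_i`, one for each orbit; products of integer
powers). `ρ i = i`: `hh x α_i c = nn x α_i c * nn x α_i (-1)`. `ρ i ≠ i`, `A i (ρ i) ≠ -1`: `exists_h`
for `α_i` and `c` (`θ c = c`). `A i (ρ i) = -1` (then `m = 2`, `ip_r`): `γ = B_i` is a root, `r γ = γ`,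
`sg γ = -1` (`sg_adj`), `θ e = -e ≠ 0`: `nn x γ (c e) * nn x γ (-e)` is in `Eg` (`x_γ(c e)`,
`x_{-γ}((c e)⁻¹)` are fixed by `s`), and equals `hh x γ (c e) * (hh x γ e)⁻¹` (`nn_inv`), which acts by
`c ^ ip γ β`.
-/

set_option autoImplicit false
open Matrix
universe u
namespace Pool.Agent.H75.UL

section
variable {n : ℕ} {C : SLC n} {D : Dg C} {K : Type*} [Field K] {H : Type*} [Group H]
  {θ : K ≃+* K} {S : StSys C K H} {s : H →* H}

private theorem D6b_xcomm (S : StSys C K H) (α β : C.Root) (h0 : C.ip α.1 β.1 = 0) (a b : K) :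
    S.x α a * S.x β b = S.x β b * S.x α a ∧ S.x α a * S.x (-β) b = S.x (-β) b * S.x α a ∧
    S.x (-α) a * S.x β b = S.x β b * S.x (-α) a ∧
    S.x (-α) a * S.x (-β) b = S.x (-β) b * S.x (-α) a := by
  refine ⟨S.comm _ _ _ _ (by omega), S.comm _ _ _ _ ?_, S.comm _ _ _ _ ?_, S.comm _ _ _ _ ?_⟩
  · rw [SLC.Root.neg_val, C.ip_neg_right]; omega
  · rw [SLC.Root.neg_val, C.ip_neg_left]; omega
  · rw [SLC.Root.neg_val, SLC.Root.neg_val, C.ip_neg_neg]; omega

private theorem D6b_nncomm (S : StSys C K H) (α β : C.Root) (h0 : C.ip α.1 β.1 = 0) (a b : K) :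
    nn S.x α a * nn S.x β b = nn S.x β b * nn S.x α a := by
  have c1 : ∀ g, Commute g (S.x β b) → Commute g (S.x (-β) b⁻¹) → Commute g (nn S.x β b) := by
    intro g h1 h2
    unfold nn
    exact (h1.mul_right h2).mul_right h1
  have e1 : Commute (S.x α a) (nn S.x β b) :=
    c1 _ (D6b_xcomm S α β h0 a b).1 (D6b_xcomm S α β h0 a b⁻¹).2.1
  have e2 : Commute (S.x (-α) a⁻¹) (nn S.x β b) :=
    c1 _ (D6b_xcomm S α β h0 a⁻¹ b).2.2.1 (D6b_xcomm S α β h0 a⁻¹ b⁻¹).2.2.2
  have e3 : Commute (nn S.x α a) (nn S.x β b) := by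
    change Commute (S.x α a * S.x (-α) a⁻¹ * S.x α a) (nn S.x β b)
    exact (e1.mul_left e2).mul_left e1
  exact e3

private theorem D6b_hh_mem (S : StSys C K H) (α : C.Root) (t : K) (ht : t ≠ 0) :
    hh S.x α t ∈ S.T := Subgroup.subset_closure ⟨α, t, ht, rfl⟩

private theorem D6b_act_mul (S : StSys C K H) (a b : H) (γ : C.Root) (p q : K)
    (ha : ∀ u, a * S.x γ u * a⁻¹ = S.x γ (p * u)) (hb : ∀ u, b * S.x γ u * b⁻¹ = S.x γ (q * u))
    (u : K) : a * b * S.x γ u * (a * b)⁻¹ = S.x γ (p * q * u) := by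
  have e : a * b * S.x γ u * (a * b)⁻¹ = a * (b * S.x γ u * b⁻¹) * a⁻¹ := by group
  rw [e, hb, ha, mul_assoc]

private theorem D6b_act_inv (S : StSys C K H) (a : H) (γ : C.Root) (p : K) (hp : p ≠ 0)
    (ha : ∀ u, a * S.x γ u * a⁻¹ = S.x γ (p * u)) (u : K) :
    a⁻¹ * S.x γ u * a⁻¹⁻¹ = S.x γ (p⁻¹ * u) := by
  have e := ha (p⁻¹ * u)
  rw [← mul_assoc, mul_inv_cancel₀ hp, one_mul] at e
  rw [← e]
  group

/-- The torus element `∏_l h_{ρ^l β}(θ^l c)` for an orthogonal orbit. -/
theorem exists_h (h : IsSig D θ S s) (hθ : ∀ t, (⇑θ)^[D.m] t = t) (β : C.Root)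
    (hβ : D.r β ≠ β) (ho : C.ip β.1 (D.r β).1 = 0) (c : K) (hc : c ≠ 0) :
    ∃ τ ∈ S.T ⊓ Eg S s, ∀ γ u, τ * S.x γ u * τ⁻¹ =
      S.x γ ((∏ l ∈ Finset.range D.m, ((⇑θ)^[l] c) ^ C.ip (D.r^[l] β).1 γ.1) * u) := by
  have hm1 := prod_nn_mem h hθ β hβ ho c
  have hm2 := prod_nn_mem h hθ β hβ ho (-1)
  have hm := mul_mem hm1 hm2
  have hθc : θ c ≠ 0 := (map_ne_zero θ).mpr hc
  have hθθc : θ (θ c) ≠ 0 := (map_ne_zero θ).mpr hθc
  have n1 : ∀ a, s (nn S.x β a) = nn S.x (D.r β) ((D.sg β : K) * θ a) := fun a => h.map_nn β a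
  rcases D.m_cases with h1 | h2 | h3
  · exfalso
    have := D.r_m β
    rw [h1] at this
    exact hβ this
  · rw [h2] at hm ⊢
    have e1 : ((List.range 2).map fun l => s^[l] (nn S.x β c)).prod *
        ((List.range 2).map fun l => s^[l] (nn S.x β (-1))).prod =
        hh S.x β c * hh S.x (D.r β) (θ c) := by
      have e2 : ∀ a, ((List.range 2).map fun l => s^[l] (nn S.x β a)).prod =
          nn S.x β a * s (nn S.x β a) := fun a => by
        simp [List.range_succ]
      rw [e2, e2, ← h.map_hh β c hc]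
      unfold hh
      rw [_root_.map_mul, n1, n1]
      have c1 := D6b_nncomm S β (D.r β) ho (-1) ((D.sg β : K) * θ c)
      calc nn S.x β c * nn S.x (D.r β) ((D.sg β : K) * θ c) *
            (nn S.x β (-1) * nn S.x (D.r β) ((D.sg β : K) * θ (-1)))
          = nn S.x β c * (nn S.x (D.r β) ((D.sg β : K) * θ c) * nn S.x β (-1)) *
              nn S.x (D.r β) ((D.sg β : K) * θ (-1)) := by group
        _ = _ := by rw [← c1]; group
    rw [e1] at hm
    refine ⟨hh S.x β c * hh S.x (D.r β) (θ c), Subgroup.mem_inf.mpr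
      ⟨mul_mem (D6b_hh_mem S β c hc) (D6b_hh_mem S _ _ hθc), hm⟩, fun γ u => ?_⟩
    rw [Finset.prod_range_succ, Finset.prod_range_one]
    exact D6b_act_mul S _ _ γ _ _ (fun u => S.h_conj β γ c u hc)
      (fun u => S.h_conj (D.r β) γ (θ c) u hθc) u
  · rw [h3] at hm ⊢
    have i12 : C.ip (D.r β).1 (D.r (D.r β)).1 = 0 := by rw [D.r_ip, ho]
    have i02 : C.ip β.1 (D.r (D.r β)).1 = 0 := by
      have := D.ip_orb β hβ 2 (by omega) (by omega)
      rw [ho] at this
      exact this
    have n2 : ∀ a, s (s (nn S.x β a)) =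
        nn S.x (D.r (D.r β)) ((D.sg (D.r β) : K) * θ ((D.sg β : K) * θ a)) := fun a => by
      rw [n1, h.map_nn]
    have e1 : ((List.range 3).map fun l => s^[l] (nn S.x β c)).prod *
        ((List.range 3).map fun l => s^[l] (nn S.x β (-1))).prod =
        hh S.x β c * hh S.x (D.r β) (θ c) * hh S.x (D.r (D.r β)) (θ (θ c)) := by
      have e2 : ∀ a, ((List.range 3).map fun l => s^[l] (nn S.x β a)).prod =
          nn S.x β a * s (nn S.x β a) * s (s (nn S.x β a)) := fun a => by
        simp [List.range_succ, mul_assoc]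
      have e3 : hh S.x (D.r (D.r β)) (θ (θ c)) = s (s (hh S.x β c)) := by
        rw [h.map_hh β c hc, h.map_hh (D.r β) (θ c) hθc]
      rw [e2, e2, e3, ← h.map_hh β c hc]
      unfold hh
      rw [_root_.map_mul, _root_.map_mul, n2, n2, n1, n1]
      generalize (D.sg (D.r β) : K) * θ ((D.sg β : K) * θ c) = p2
      generalize (D.sg β : K) * θ c = p1
      generalize (D.sg (D.r β) : K) * θ ((D.sg β : K) * θ (-1)) = q2
      generalize (D.sg β : K) * θ (-1) = q1
      have c01 := D6b_nncomm S β (D.r β) ho (-1) p1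
      have c02 := D6b_nncomm S β (D.r (D.r β)) i02 (-1) p2
      have c12 := D6b_nncomm S (D.r β) (D.r (D.r β)) i12 q1 p2
      calc nn S.x β c * nn S.x (D.r β) p1 * nn S.x (D.r (D.r β)) p2 *
            (nn S.x β (-1) * nn S.x (D.r β) q1 * nn S.x (D.r (D.r β)) q2)
          = nn S.x β c * nn S.x (D.r β) p1 * (nn S.x (D.r (D.r β)) p2 *
            nn S.x β (-1)) * nn S.x (D.r β) q1 * nn S.x (D.r (D.r β)) q2 := by group
        _ = nn S.x β c * (nn S.x (D.r β) p1 * nn S.x β (-1)) * (nn S.x (D.r (D.r β)) p2 *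
            nn S.x (D.r β) q1) * nn S.x (D.r (D.r β)) q2 := by rw [← c02]; group
        _ = _ := by rw [← c01, ← c12]; group
    rw [e1] at hm
    refine ⟨hh S.x β c * hh S.x (D.r β) (θ c) * hh S.x (D.r (D.r β)) (θ (θ c)),
      Subgroup.mem_inf.mpr ⟨mul_mem (mul_mem (D6b_hh_mem S β c hc) (D6b_hh_mem S _ _ hθc))
        (D6b_hh_mem S _ _ hθθc), hm⟩, fun γ u => ?_⟩
    rw [Finset.prod_range_succ, Finset.prod_range_succ, Finset.prod_range_one]
    exact D6b_act_mul S _ _ γ _ _ (fun u => D6b_act_mul S _ _ γ _ _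
      (fun u => S.h_conj β γ c u hc) (fun u => S.h_conj (D.r β) γ (θ c) u hθc) u)
      (fun u => S.h_conj (D.r (D.r β)) γ (θ (θ c)) u hθθc) u

private theorem D6b_nn_mem (h : IsSig D θ S s) (γ : C.Root) (hγ : C.Pos γ) (hr : D.r γ = γ)
    (a : K) (ha : (D.sg γ : K) * θ a = a) : nn S.x γ a ∈ Eg S s := by
  have hx : S.x γ a ∈ Eg S s := by
    refine (le_sup_left : fixU S s ≤ Eg S s) (Subgroup.mem_inf.mpr ⟨?_, ?_⟩)
    · refine Subgroup.subset_closure ⟨γ, a, ?_, rfl⟩
      unfold SLC.Pos at hγ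
      omega
    · change s (S.x γ a) = S.x γ a
      rw [h γ a, hr, ha]
  have hy : S.x (-γ) a⁻¹ ∈ Eg S s := by
    refine (le_sup_right : fixUm S s ≤ Eg S s) (Subgroup.mem_inf.mpr ⟨?_, ?_⟩)
    · refine Subgroup.subset_closure ⟨-γ, a⁻¹, ?_, rfl⟩
      unfold SLC.Pos at hγ
      rw [SLC.Root.neg_val, ht_neg]
      omega
    · change s (S.x (-γ) a⁻¹) = S.x (-γ) a⁻¹
      rw [h (-γ) a⁻¹, D.r_neg, hr, D.sg_neg, map_inv₀]
      congr 1
      have e1 : ((D.sg γ : ℤ) : K)⁻¹ = (D.sg γ : K) := by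
        rcases D.sg_eq γ with h1 | h1 <;> rw [h1] <;> norm_num
      calc (D.sg γ : K) * (θ a)⁻¹ = ((D.sg γ : K) * θ a)⁻¹ := by rw [mul_inv, e1]
        _ = a⁻¹ := by rw [ha]
  unfold nn
  exact mul_mem (mul_mem hx hy) hx

private def D6b_Q (S : StSys C K H) (s : H →* H) (c : K) (hc : c ≠ 0) :
    AddSubgroup (Fin n → ℤ) where
  carrier := {v | ∃ τ ∈ S.T ⊓ Eg S s, ∀ γ u, τ * S.x γ u * τ⁻¹ = S.x γ (c ^ C.ip v γ.1 * u)}
  zero_mem' := ⟨1, one_mem _, fun γ u => by rw [C.ip_zero_left, zpow_zero, one_mul]; group⟩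
  add_mem' := by
    rintro v w ⟨τ, hτ, h1⟩ ⟨τ', hτ', h2⟩
    refine ⟨τ * τ', mul_mem hτ hτ', fun γ u => ?_⟩
    rw [C.ip_add_left, zpow_add₀ hc]
    exact D6b_act_mul S _ _ γ _ _ (h1 γ) (h2 γ) u
  neg_mem' := by
    rintro v ⟨τ, hτ, h1⟩
    refine ⟨τ⁻¹, inv_mem hτ, fun γ u => ?_⟩
    rw [C.ip_neg_left, _root_.zpow_neg]
    exact D6b_act_inv S _ γ _ (zpow_ne_zero _ hc) (h1 γ) u

private theorem D6b_B (h : IsSig D θ S s) (hθ : ∀ t, (⇑θ)^[D.m] t = t)
    (hA : D.NA ∨ ∃ e, e ≠ 0 ∧ θ e = -e) (c : K) (hc : c ≠ 0) (hθc : θ c = c) (i : Fin n)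
    (B : Fin n → ℤ) (hB1 : ∀ j, (∃ l : ℕ, j = (D.ρ ^ l) i) → B j = 1)
    (hB0 : ∀ j, (¬ ∃ l : ℕ, j = (D.ρ ^ l) i) → B j = 0) : B ∈ D6b_Q S s c hc := by
  have hsi : (C.simple i).1 = Pi.single i 1 := rfl
  have hord : D.ρ ^ D.m = 1 := pow_orderOf_eq_one D.ρ
  have hlt : ∀ l : ℕ, ∃ l', l' < D.m ∧ (D.ρ ^ l) i = (D.ρ ^ l') i := fun l => by
    have hpos : 0 < D.m := by
      rcases D.m_cases with h | h | h <;> omega
    refine ⟨l % D.m, Nat.mod_lt _ hpos, ?_⟩
    rw [Dg.m, pow_mod_orderOf]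
  by_cases hfix : D.ρ i = i
  · have hpow : ∀ l : ℕ, (D.ρ ^ l) i = i := fun l => by
      induction l with
      | zero => rfl
      | succ l ih => rw [pow_succ', Equiv.Perm.mul_apply, ih, hfix]
    have hB : B = (C.simple i).1 := by
      funext j
      by_cases hj : j = i
      · rw [hj, hB1 i ⟨0, rfl⟩, hsi, Pi.single_eq_same]
      · rw [hB0 j, hsi, Pi.single_eq_of_ne hj]
        rintro ⟨l, hl⟩
        rw [hpow l] at hl
        exact hj hl
    have hrs : D.r (C.simple i) = C.simple i := by rw [D.r_simple, hfix]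
    refine ⟨hh S.x (C.simple i) c, Subgroup.mem_inf.mpr ⟨D6b_hh_mem S _ c hc, ?_⟩, fun γ u => ?_⟩
    · unfold hh
      refine mul_mem (D6b_nn_mem h _ (C.simple_pos i) hrs c ?_)
        (D6b_nn_mem h _ (C.simple_pos i) hrs (-1) ?_)
      · rw [D.sg_simple, hθc]; simp
      · rw [D.sg_simple]; simp
    · rw [hB]
      exact S.h_conj _ γ c u hc
  have hrs : D.r (C.simple i) ≠ C.simple i := by
    rw [D.r_simple]
    exact fun h1 => hfix (C.simple_injective h1)
  have hne : i ≠ D.ρ i := fun h1 => hfix h1.symm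
  have hm1 : D.m ≠ 1 := fun h1 => by
    rw [h1, pow_one] at hord
    rw [hord] at hfix
    exact hfix rfl
  have hB2 : D.m = 2 → B = (C.simple i).1 + (D.r (C.simple i)).1 := by
    intro hm2
    rw [D.r_simple]
    funext j
    rw [Pi.add_apply, C.simple_val, C.simple_val]
    by_cases hj : j = i
    · rw [hj, hB1 i ⟨0, rfl⟩, Pi.single_eq_same, Pi.single_eq_of_ne hne, add_zero]
    by_cases hj1 : j = D.ρ i
    · rw [hj1, hB1 (D.ρ i) ⟨1, by rw [pow_one]⟩, Pi.single_eq_same, Pi.single_eq_of_ne hfix,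
        zero_add]
    rw [hB0 j, Pi.single_eq_of_ne hj, Pi.single_eq_of_ne hj1, add_zero]
    rintro ⟨l, hl⟩
    obtain ⟨l', hl', h1⟩ := hlt l
    rw [h1] at hl
    rw [hm2] at hl'
    have h2 : l' = 0 ∨ l' = 1 := by omega
    rcases h2 with rfl | rfl
    · exact hj hl
    · rw [pow_one] at hl
      exact hj1 hl
  have hB3 : D.m = 3 → B = (C.simple i).1 + (D.r (C.simple i)).1 +
      (D.r (D.r (C.simple i))).1 := by
    intro hm3
    rw [D.r_simple, D.r_simple]
    have hrrr : D.ρ (D.ρ (D.ρ i)) = i := by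
      rw [hm3] at hord
      have := congrArg (fun e : Equiv.Perm (Fin n) => e i) hord
      simpa [pow_succ] using this
    have n20 : D.ρ (D.ρ i) ≠ i := fun h1 => by
      rw [h1] at hrrr
      exact hfix hrrr
    have n12 : D.ρ i ≠ D.ρ (D.ρ i) := fun h1 => hne (D.ρ.injective h1)
    funext j
    rw [Pi.add_apply, Pi.add_apply, C.simple_val, C.simple_val, C.simple_val]
    by_cases hj : j = i
    · rw [hj, hB1 i ⟨0, rfl⟩, Pi.single_eq_same, Pi.single_eq_of_ne hne,
        Pi.single_eq_of_ne n20.symm, add_zero, add_zero]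
    by_cases hj1 : j = D.ρ i
    · rw [hj1, hB1 (D.ρ i) ⟨1, by rw [pow_one]⟩, Pi.single_eq_same, Pi.single_eq_of_ne hfix,
        Pi.single_eq_of_ne n12, zero_add, add_zero]
    by_cases hj2 : j = D.ρ (D.ρ i)
    · rw [hj2, hB1 (D.ρ (D.ρ i)) ⟨2, by rw [pow_two]; rfl⟩, Pi.single_eq_same,
        Pi.single_eq_of_ne n20, Pi.single_eq_of_ne n12.symm, zero_add, zero_add]
    rw [hB0 j, Pi.single_eq_of_ne hj, Pi.single_eq_of_ne hj1, Pi.single_eq_of_ne hj2, add_zero,
      add_zero]
    rintro ⟨l, hl⟩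
    obtain ⟨l', hl', h1⟩ := hlt l
    rw [h1] at hl
    rw [hm3] at hl'
    have h2 : l' = 0 ∨ l' = 1 ∨ l' = 2 := by omega
    rcases h2 with rfl | rfl | rfl
    · exact hj hl
    · rw [pow_one] at hl
      exact hj1 hl
    · rw [pow_two] at hl
      exact hj2 hl
  by_cases hadj : C.A i (D.ρ i) = -1
  · -- adjacent
    have hip : C.ip (C.simple i).1 (D.r (C.simple i)).1 = -1 := by
      rw [D.r_simple, C.simple_val, C.simple_val, C.ip_single, hadj]
    have hm2 : D.m = 2 := by
      rcases D.ip_r (C.simple i) hrs with h1 | h1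
      · omega
      · exact h1.1
    obtain ⟨γ, hγ⟩ := C.exists_add (C.simple i) (D.r (C.simple i)) hip
    obtain ⟨hrγ, hsγ⟩ := D.sg_adj (C.simple i) γ hrs hγ
    obtain ⟨e, he, hθe⟩ : ∃ e, e ≠ 0 ∧ θ e = -e := by
      rcases hA with hA | hA
      · exact absurd hadj (hA i)
      · exact hA
    have hpos : C.Pos γ := by
      unfold SLC.Pos
      rw [hγ, ht_add, D.r_simple, C.ht_simple, C.ht_simple]
      norm_num
    have hce : c * e ≠ 0 := mul_ne_zero hc he
    have e1 : nn S.x γ (c * e) * nn S.x γ (-e) = hh S.x γ (c * e) * (hh S.x γ e)⁻¹ := by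
      unfold hh
      rw [← S.nn_inv γ e]
      group
    refine ⟨nn S.x γ (c * e) * nn S.x γ (-e), Subgroup.mem_inf.mpr ⟨?_, ?_⟩, fun δ u => ?_⟩
    · rw [e1]
      exact mul_mem (D6b_hh_mem S _ _ hce) (inv_mem (D6b_hh_mem S _ _ he))
    · refine mul_mem (D6b_nn_mem h γ hpos hrγ _ ?_) (D6b_nn_mem h γ hpos hrγ _ ?_)
      · rw [hsγ, _root_.map_mul, hθc, hθe]
        push_cast
        ring
      · rw [hsγ, _root_.map_neg, hθe]
        push_cast
        ring
    · rw [e1, hB2 hm2, ← hγ]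
      have h1 := D6b_act_mul S (hh S.x γ (c * e)) (hh S.x γ e)⁻¹ δ _ _
        (fun u => S.h_conj γ δ (c * e) u hce)
        (D6b_act_inv S _ δ _ (zpow_ne_zero _ he) (fun u => S.h_conj γ δ e u he)) u
      rw [h1]
      congr 1
      rw [mul_zpow]
      have h2 : e ^ C.ip γ.1 δ.1 ≠ 0 := zpow_ne_zero _ he
      field_simp
  · -- orthogonal
    have hip : C.ip (C.simple i).1 (D.r (C.simple i)).1 = 0 := by
      rw [D.r_simple, C.simple_val, C.simple_val, C.ip_single]
      rcases C.off i (D.ρ i) hne with h1 | h1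
      · exact h1
      · exact absurd h1 hadj
    obtain ⟨τ, hτ, h1⟩ := exists_h h hθ (C.simple i) hrs hip c hc
    refine ⟨τ, hτ, fun γ u => ?_⟩
    rw [h1 γ u]
    have hit : ∀ l, (⇑θ)^[l] c = c := fun l => Function.iterate_fixed hθc l
    simp only [hit]
    congr 2
    rcases D.m_cases with h1 | h2 | h3
    · exact absurd h1 hm1
    · rw [h2, hB2 h2, Finset.prod_range_succ, Finset.prod_range_one, C.ip_add_left, zpow_add₀ hc]
      rfl
    · rw [h3, hB3 h3, Finset.prod_range_succ, Finset.prod_range_succ, Finset.prod_range_one,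
        C.ip_add_left, C.ip_add_left, zpow_add₀ hc, zpow_add₀ hc]
      rfl

theorem exists_tor (h : IsSig D θ S s) (hθ : ∀ t, (⇑θ)^[D.m] t = t)
    (hA : D.NA ∨ ∃ e, e ≠ 0 ∧ θ e = -e) (v : Fin n → ℤ) (hv : SLC.lmap D.ρ v = v) (c : K)
    (hc : c ≠ 0) (hθc : θ c = c) :
    ∃ τ ∈ S.T ⊓ Eg S s, ∀ γ u, τ * S.x γ u * τ⁻¹ = S.x γ (c ^ C.ip v γ.1 * u) := by
  classical
  have key : ∀ k : ℕ, ∀ v : Fin n → ℤ, (∀ i, v (D.ρ i) = v i) →
      (Finset.univ.filter fun i => v i ≠ 0).card ≤ k → v ∈ D6b_Q S s c hc := by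
    intro k
    induction k with
    | zero =>
      intro v _ hk
      have h1 : (Finset.univ.filter fun i => v i ≠ 0) = ∅ := by
        rw [← Finset.card_eq_zero]
        omega
      have h2 : v = 0 := by
        funext i
        by_contra h3
        have : i ∈ (Finset.univ.filter fun i => v i ≠ 0) := by
          rw [Finset.mem_filter]
          exact ⟨Finset.mem_univ _, h3⟩
        rw [h1] at this
        simp at this
      rw [h2]
      exact zero_mem _
    | succ k ih =>
      intro v hv hk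
      by_cases hz : v = 0
      · rw [hz]
        exact zero_mem _
      obtain ⟨i, hi⟩ : ∃ i, v i ≠ 0 := by
        by_contra h1
        push Not at h1
        exact hz (funext h1)
      set B : Fin n → ℤ := fun j => if (∃ l : ℕ, j = (D.ρ ^ l) i) then 1 else 0 with hBdef
      have hBm : B ∈ D6b_Q S s c hc := D6b_B h hθ hA c hc hθc i B
        (fun j hj => by rw [hBdef]; exact if_pos hj) (fun j hj => by rw [hBdef]; exact if_neg hj)
      have hvo : ∀ l : ℕ, v ((D.ρ ^ l) i) = v i := fun l => by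
        induction l with
        | zero => rfl
        | succ l ih => rw [pow_succ', Equiv.Perm.mul_apply, hv, ih]
      have hw : ∀ j, (v - v i • B) j = if (∃ l : ℕ, j = (D.ρ ^ l) i) then 0 else v j := by
        intro j
        rw [Pi.sub_apply, Pi.smul_apply, smul_eq_mul, hBdef]
        change v j - v i * (if (∃ l : ℕ, j = (D.ρ ^ l) i) then 1 else 0) = _
        by_cases hj : ∃ l : ℕ, j = (D.ρ ^ l) i
        · rw [if_pos hj, if_pos hj]
          obtain ⟨l, rfl⟩ := hj
          rw [hvo l]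
          ring
        · rw [if_neg hj, if_neg hj]
          ring
      have horb : ∀ j, (∃ l : ℕ, D.ρ j = (D.ρ ^ l) i) ↔ (∃ l : ℕ, j = (D.ρ ^ l) i) := by
        intro j
        constructor
        · rintro ⟨l, hl⟩
          have hpos : 0 < orderOf D.ρ := orderOf_pos D.ρ
          refine ⟨l + (orderOf D.ρ - 1), D.ρ.injective ?_⟩
          rw [← Equiv.Perm.mul_apply, ← pow_succ']
          have e1 : l + (orderOf D.ρ - 1) + 1 = l + orderOf D.ρ := by omega
          rw [e1, pow_add, pow_orderOf_eq_one, mul_one]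
          exact hl
        · rintro ⟨l, rfl⟩
          exact ⟨l + 1, by rw [pow_succ', Equiv.Perm.mul_apply]⟩
      have h1 : v - v i • B ∈ D6b_Q S s c hc := by
        refine ih _ (fun j => ?_) ?_
        · rw [hw, hw]
          by_cases hj : ∃ l : ℕ, j = (D.ρ ^ l) i
          · rw [if_pos hj, if_pos ((horb j).mpr hj)]
          · rw [if_neg hj, if_neg (fun h2 => hj ((horb j).mp h2)), hv]
        · have h3 : (Finset.univ.filter fun j => (v - v i • B) j ≠ 0) ⊂
              (Finset.univ.filter fun j => v j ≠ 0) := by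
            rw [Finset.ssubset_iff_of_subset]
            · refine ⟨i, ?_, ?_⟩
              · rw [Finset.mem_filter]
                exact ⟨Finset.mem_univ _, hi⟩
              · rw [Finset.mem_filter, hw, if_pos ⟨0, rfl⟩]
                rintro ⟨-, h4⟩
                exact h4 rfl
            · intro j hj
              rw [Finset.mem_filter, hw] at hj
              rw [Finset.mem_filter]
              refine ⟨Finset.mem_univ _, ?_⟩
              have h4 := hj.2
              split_ifs at h4 with h5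
              · exact absurd rfl h4
              · exact h4
          have h4 := Finset.card_lt_card h3
          omega
      have h2 : v = (v - v i • B) + v i • B := by abel
      rw [h2]
      exact add_mem h1 (zsmul_mem hBm _)
  have hv' : ∀ i, v (D.ρ i) = v i := fun i => by
    have h1 := congrArg (fun w : Fin n → ℤ => w (D.ρ i)) hv
    have h2 : SLC.lmap D.ρ v (D.ρ i) = v i := by
      change v (D.ρ.symm (D.ρ i)) = v i
      rw [Equiv.symm_apply_apply]
    rw [← h2]
    exact h1.symm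
  exact key _ v hv' le_rfl

end

end Pool.Agent.H75.UL
end

section
/- module Pool.Agent.H75.UT.D7i -/
/-!
# Project UT, module D7i

Injectivity of the ordered product of root elements.

`adS_inj` is `lp_unique`. `adS_neg_inj`: the matrix `ω` with `ω (inl i) (inl i) = -1`,
`ω (inr (-β)) (inr β) = 1`, other entries `0`, satisfies `ω² = 1`, `ω E_α = E_{-α} ω`,
`ω F_α = F_{-α} ω`, so `ω * lp t * ω⁻¹ = (adS.neg).lp t`. `inj_of_map`: apply `p` (`S9_lp`; for `neg`
the same proof with `-β`).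
-/

set_option autoImplicit false
open Matrix
universe u
namespace Pool.Agent.H75.UL

section
variable {n : ℕ} {C : SLC n} (D : Dg C) {F : Type*} [Field F]

/-- The matrix of the opposition involution. -/
private def D7i_om (C : SLC n) : Matrix C.Idx C.Idx ℤ := fun a b =>
  match a, b with
  | Sum.inl i, Sum.inl j => if i = j then -1 else 0
  | Sum.inr γ, Sum.inr β => if γ = -β then 1 else 0
  | Sum.inl _, Sum.inr _ => 0
  | Sum.inr _, Sum.inl _ => 0

private theorem D7i_neg_neg (β : C.Root) : - -β = β := by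
  apply SLC.Root.ext
  rw [SLC.Root.neg_val, SLC.Root.neg_val, neg_neg]

private theorem D7i_om_mul (M : Matrix C.Idx C.Idx ℤ) (a b : C.Idx) :
    (D7i_om C * M) a b = match a with
      | Sum.inl i => - M (Sum.inl i) b
      | Sum.inr γ => M (Sum.inr (-γ)) b := by
  rw [Matrix.mul_apply, Fintype.sum_sum_type]
  rcases a with i | γ
  · simp only [D7i_om, zero_mul, Finset.sum_const_zero, add_zero]
    rw [Finset.sum_eq_single i]
    · simp
    · intro j _ hj
      rw [if_neg (Ne.symm hj), zero_mul]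
    · intro h
      exact absurd (Finset.mem_univ i) h
  · simp only [D7i_om, zero_mul, Finset.sum_const_zero, zero_add]
    rw [Finset.sum_eq_single (-γ)]
    · rw [D7i_neg_neg, if_pos rfl, one_mul]
    · intro j _ hj
      rw [if_neg, zero_mul]
      intro h
      apply hj
      rw [h, D7i_neg_neg]
    · intro h
      exact absurd (Finset.mem_univ _) h

private theorem D7i_mul_om (M : Matrix C.Idx C.Idx ℤ) (a b : C.Idx) :
    (M * D7i_om C) a b = match b with
      | Sum.inl i => - M a (Sum.inl i)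
      | Sum.inr γ => M a (Sum.inr (-γ)) := by
  rw [Matrix.mul_apply, Fintype.sum_sum_type]
  rcases b with i | γ
  · simp only [D7i_om, mul_zero, Finset.sum_const_zero, add_zero]
    rw [Finset.sum_eq_single i]
    · simp
    · intro j _ hj
      rw [if_neg hj, mul_zero]
    · intro h
      exact absurd (Finset.mem_univ i) h
  · simp only [D7i_om, mul_zero, Finset.sum_const_zero, zero_add]
    rw [Finset.sum_eq_single (-γ)]
    · rw [if_pos rfl, mul_one]
    · intro j _ hj
      rw [if_neg hj, mul_zero]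
    · intro h
      exact absurd (Finset.mem_univ _) h

private theorem D7i_om_sq : D7i_om C * D7i_om C = 1 := by
  ext a b
  rw [D7i_om_mul]
  rcases a with i | γ <;> rcases b with j | β
  · simp only [D7i_om, Matrix.one_apply, Sum.inl.injEq]
    split_ifs <;> rfl
  · simp [D7i_om]
  · simp [D7i_om]
  · simp only [D7i_om, Matrix.one_apply, Sum.inr.injEq]
    have h : -γ = -β ↔ γ = β := by
      constructor
      · intro h
        rw [← D7i_neg_neg γ, h, D7i_neg_neg]
      · intro h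
        rw [h]
    simp only [h]

private theorem D7i_eps (v w : Fin n → ℤ) : C.eps (-v) (-w) = C.eps v w := by
  unfold SLC.eps SLC.hf
  rw [Matrix.mulVec_neg, neg_dotProduct, dotProduct_neg, neg_neg]

private theorem D7i_om_E (α : C.Root) : D7i_om C * C.E α = C.E (-α) * D7i_om C := by
  ext a b
  rw [D7i_om_mul, D7i_mul_om]
  rcases a with i | γ <;> rcases b with j | β
  · simp [SLC.E]
  · simp only [SLC.E, SLC.Root.neg_val, Pi.neg_apply, neg_neg]
    have h : -β.1 = α.1 ↔ β.1 = -α.1 := neg_eq_iff_eq_neg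
    simp only [h]
    split_ifs <;> simp
  · simp only [SLC.E, SLC.Root.neg_val]
    have h : -γ.1 = α.1 ↔ γ.1 = -α.1 := neg_eq_iff_eq_neg
    simp only [h]
    split_ifs
    · rw [SLC.ip_neg_right]
      ring
    · simp
  · simp only [SLC.E, SLC.Root.neg_val, D7i_eps]
    have h : -γ.1 = α.1 + β.1 ↔ γ.1 = -α.1 + -β.1 := by
      rw [neg_eq_iff_eq_neg, neg_add]
    simp only [h]

private theorem D7i_om_F (α : C.Root) : D7i_om C * C.F α = C.F (-α) * D7i_om C := by
  ext a b
  rw [D7i_om_mul, D7i_mul_om]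
  rcases a with i | γ <;> rcases b with j | β
  · simp [SLC.F]
  · simp [SLC.F]
  · simp [SLC.F]
  · simp only [SLC.F, SLC.Root.neg_val, neg_neg]
    have h : -γ.1 = α.1 ↔ γ.1 = -α.1 := neg_eq_iff_eq_neg
    have h' : -β.1 = α.1 ↔ β.1 = -α.1 := neg_eq_iff_eq_neg
    simp only [h, h']

private def D7i_O (C : SLC n) (F : Type*) [Field F] : Matrix C.Idx C.Idx F :=
  (D7i_om C).map (Int.castRingHom F)

private theorem D7i_O_sq : D7i_O C F * D7i_O C F = 1 := by
  unfold D7i_O
  rw [← Matrix.map_mul, D7i_om_sq, Matrix.map_one _ (map_zero _) (map_one _)]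

private theorem D7i_O_X (α : C.Root) (t : F) :
    D7i_O C F * C.X F α t = C.X F (-α) t * D7i_O C F := by
  have h1 : D7i_O C F * (C.E α).map (Int.cast : ℤ → F) =
      (C.E (-α)).map (Int.cast : ℤ → F) * D7i_O C F := by
    have := congrArg (fun M : Matrix C.Idx C.Idx ℤ => M.map (Int.castRingHom F)) (D7i_om_E α)
    simp only [Matrix.map_mul] at this
    exact this
  have h2 : D7i_O C F * (C.F α).map (Int.cast : ℤ → F) =
      (C.F (-α)).map (Int.cast : ℤ → F) * D7i_O C F := by
    have := congrArg (fun M : Matrix C.Idx C.Idx ℤ => M.map (Int.castRingHom F)) (D7i_om_F α)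
    simp only [Matrix.map_mul] at this
    exact this
  unfold SLC.X
  simp only [add_mul, mul_add, one_mul, mul_one, smul_mul_assoc, mul_smul_comm, h1, h2]

private noncomputable def D7i_g (C : SLC n) (F : Type*) [Field F] : GL C.Idx F where
  val := D7i_O C F
  inv := D7i_O C F
  val_inv := D7i_O_sq
  inv_val := D7i_O_sq

private theorem D7i_g_xg (α : C.Root) (t : F) :
    D7i_g C F * C.xg F α t = C.xg F (-α) t * D7i_g C F := by
  apply Units.ext
  exact D7i_O_X α t

private theorem D7i_g_lp (l : List C.Root) (t : C.Root → F) :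
    D7i_g C F * (C.adS F).lp l t = (C.adS F).neg.lp l t * D7i_g C F := by
  unfold StSys.lp
  induction l with
  | nil => simp
  | cons β l ih =>
    rw [List.map_cons, List.map_cons, List.prod_cons, List.prod_cons, ← mul_assoc]
    have h : D7i_g C F * (C.adS F).x β (t β) = (C.adS F).neg.x β (t β) * D7i_g C F := by
      rw [StSys.neg_x]
      exact D7i_g_xg β (t β)
    rw [h, mul_assoc, ih, mul_assoc]

theorem adS_inj : (C.adS F).Inj := fun t t' h β hβ => C.lp_unique t t' h β hβ

theorem adS_neg_inj : (C.adS F).neg.Inj := by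
  intro t t' h β hβ
  apply C.lp_unique t t' _ β hβ
  apply mul_left_cancel (a := D7i_g C F)
  rw [D7i_g_lp, D7i_g_lp, h]

private theorem D7i_neg_lp {H : Type*} [Group H] (S : StSys C F H) (p : H →* GL C.Idx F)
    (hp : ∀ β t, p (S.x β t) = C.xg F β t) (l : List C.Root) (t : C.Root → F) :
    p (S.neg.lp l t) = (C.adS F).neg.lp l t := by
  unfold StSys.lp
  rw [map_list_prod, List.map_map]
  congr 1
  apply List.map_congr_left
  intro β _
  show p (S.neg.x β (t β)) = _
  rw [StSys.neg_x, StSys.neg_x, hp]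
  rfl

theorem inj_of_map {H : Type*} [Group H] (S : StSys C F H) (p : H →* GL C.Idx F)
    (hp : ∀ β t, p (S.x β t) = C.xg F β t) : S.Inj ∧ S.neg.Inj := by
  constructor
  · intro t t' h β hβ
    apply adS_inj t t' _ β hβ
    rw [← C.S9_lp S p hp, ← C.S9_lp S p hp, h]
  · intro t t' h β hβ
    apply adS_neg_inj t t' _ β hβ
    rw [← D7i_neg_lp S p hp, ← D7i_neg_lp S p hp, h]

end

end Pool.Agent.H75.UL
end

section
/- module Pool.Agent.H75.UK.K1 -/
/-!
# Project UK (MP_978914_al), module K1: real filtrations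

For `lam : Fin n → ℝ` the index `inr β` has degree `pr lam β = ∑ β_i lam_i`, the indices `inl i` have
degree `0`. `FilR lam s M`: `M` raises the degree by at least `s`. `gr lam m M`: the part of degree
exactly `m`. `wact w lam` is the action of the Weyl group: `pr (wact w lam) β = pr lam (w⁻¹ β)`
(`W_lin`: `w⁻¹` is linear on the roots, and a root is `∑ β_i α_i`).

`FilR_pair`: add the two inequalities. `gr_mul`: entries of a product of two matrices; a nonzero term
`M a b * N b c` with `dg a = dg c + (s + t)` has `dg b = dg c + t` and `dg a = dg b + s`.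
-/

set_option autoImplicit false
open Matrix
universe u
namespace Pool.Agent.H75.UL

namespace SLC
variable {n : ℕ} (C : SLC n)

/-- The pairing of a real weight with a root. -/
noncomputable def pr (lam : Fin n → ℝ) (β : C.Root) : ℝ := ∑ i, (β.1 i : ℝ) * lam i

/-- The degree of an index. -/
noncomputable def dg (lam : Fin n → ℝ) : C.Idx → ℝ := Sum.elim (fun _ => 0) (fun β => C.pr lam β)

/-- `M` raises the degree by at least `s`. -/
def FilR {R : Type*} [CommRing R] (lam : Fin n → ℝ) (s : ℝ) (M : Matrix C.Idx C.Idx R) : Prop :=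
  ∀ a b, M a b ≠ 0 → C.dg lam b + s ≤ C.dg lam a

open Classical in
/-- The part of degree `m`. -/
noncomputable def gr {R : Type*} [CommRing R] (lam : Fin n → ℝ) (m : ℝ)
    (M : Matrix C.Idx C.Idx R) : Matrix C.Idx C.Idx R :=
  fun a b => if C.dg lam a = C.dg lam b + m then M a b else 0

/-- The action of the Weyl group on real weights. -/
noncomputable def wact (w : Equiv.Perm C.Root) (lam : Fin n → ℝ) : Fin n → ℝ :=
  fun i => C.pr lam (w⁻¹ (C.simple i))

/-- The invariant quadratic form. -/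
noncomputable def nrm (lam : Fin n → ℝ) : ℝ := ∑ β : C.Root, C.pr lam β ^ 2

variable {R : Type*} [CommRing R]

/-- auxiliary: the weight as an additive map -/
private noncomputable def K1_L (lam : Fin n → ℝ) : (Fin n → ℤ) →+ ℝ where
  toFun v := ∑ i, (v i : ℝ) * lam i
  map_zero' := by simp
  map_add' u v := by simp [add_mul, Finset.sum_add_distrib]

private theorem K1_pr (lam : Fin n → ℝ) (β : C.Root) : C.pr lam β = K1_L lam β.1 := rfl

theorem pr_simple (lam : Fin n → ℝ) (i : Fin n) : C.pr lam (C.simple i) = lam i := by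
  unfold pr
  rw [Finset.sum_eq_single i]
  · simp
  · intro j _ hj
    simp [hj]
  · intro h
    exact absurd (Finset.mem_univ i) h

theorem pr_neg (lam : Fin n → ℝ) (β : C.Root) : C.pr lam (-β) = - C.pr lam β := by
  rw [K1_pr, K1_pr, Root.neg_val, map_neg]

theorem pr_add_left (lam mu : Fin n → ℝ) (β : C.Root) :
    C.pr (lam + mu) β = C.pr lam β + C.pr mu β := by
  unfold pr
  rw [← Finset.sum_add_distrib]
  apply Finset.sum_congr rfl
  intro i _
  rw [Pi.add_apply, mul_add]

theorem pr_smul (c : ℝ) (lam : Fin n → ℝ) (β : C.Root) : C.pr (c • lam) β = c * C.pr lam β := by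
  unfold pr
  rw [Finset.mul_sum]
  apply Finset.sum_congr rfl
  intro i _
  rw [Pi.smul_apply, smul_eq_mul]
  ring

theorem pr_add (lam : Fin n → ℝ) (α β γ : C.Root) (h : γ.1 = α.1 + β.1) :
    C.pr lam γ = C.pr lam α + C.pr lam β := by
  rw [K1_pr, K1_pr, K1_pr, h, map_add]

theorem pr_wact (w : Equiv.Perm C.Root) (hw : w ∈ C.W) (lam : Fin n → ℝ) (β : C.Root) :
    C.pr (C.wact w lam) β = C.pr lam (w⁻¹ β) := by
  obtain ⟨f, hf, -⟩ := C.W_lin w⁻¹ (inv_mem hw)
  have h1 : β.1 = ∑ i, β.1 i • (Pi.single i 1 : Fin n → ℤ) := by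
    funext j
    rw [Finset.sum_apply, Finset.sum_eq_single j]
    · simp
    · intro k _ hk
      simp [Ne.symm hk]
    · intro h
      exact absurd (Finset.mem_univ j) h
  have h2 : K1_L lam (f β.1) = ∑ i, (β.1 i : ℝ) * K1_L lam (f (Pi.single i 1)) := by
    conv_lhs => rw [h1, map_sum, map_sum]
    apply Finset.sum_congr rfl
    intro i _
    rw [map_zsmul, map_zsmul, zsmul_eq_mul]
  rw [K1_pr, K1_pr, hf β, h2]
  change ∑ i, (β.1 i : ℝ) * C.wact w lam i = _
  apply Finset.sum_congr rfl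
  intro i _
  unfold wact
  rw [K1_pr, hf, simple_val]

theorem nrm_wact (w : Equiv.Perm C.Root) (hw : w ∈ C.W) (lam : Fin n → ℝ) :
    C.nrm (C.wact w lam) = C.nrm lam := by
  unfold nrm
  rw [← Equiv.sum_comp w⁻¹ (fun β : C.Root => C.pr lam β ^ 2)]
  apply Finset.sum_congr rfl
  intro β _
  rw [C.pr_wact w hw]

theorem nrm_smul (c : ℝ) (lam : Fin n → ℝ) : C.nrm (c • lam) = c ^ 2 * C.nrm lam := by
  unfold nrm
  rw [Finset.mul_sum]
  apply Finset.sum_congr rfl
  intro β _
  rw [C.pr_smul, mul_pow]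

theorem nrm_parallelogram (lam mu : Fin n → ℝ) :
    C.nrm (lam + mu) + C.nrm (lam - mu) = 2 * C.nrm lam + 2 * C.nrm mu := by
  unfold nrm
  rw [Finset.mul_sum, Finset.mul_sum, ← Finset.sum_add_distrib, ← Finset.sum_add_distrib]
  apply Finset.sum_congr rfl
  intro β _
  have h1 : C.pr (lam - mu) β = C.pr lam β - C.pr mu β := by
    have h2 : lam - mu = lam + (-1 : ℝ) • mu := by
      rw [neg_one_smul, sub_eq_add_neg]
    rw [h2, C.pr_add_left, C.pr_smul]
    ring
  rw [C.pr_add_left, h1]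
  ring

theorem sq_le_nrm (lam : Fin n → ℝ) (i : Fin n) : lam i ^ 2 ≤ C.nrm lam := by
  have h1 : C.pr lam (C.simple i) ^ 2 ≤ ∑ β : C.Root, C.pr lam β ^ 2 :=
    Finset.single_le_sum (f := fun β : C.Root => C.pr lam β ^ 2)
      (fun β _ => sq_nonneg _) (Finset.mem_univ (C.simple i))
  rw [C.pr_simple] at h1
  exact h1

theorem FilR_mono {lam : Fin n → ℝ} {s t : ℝ} (h : t ≤ s) {M : Matrix C.Idx C.Idx R}
    (hM : C.FilR lam s M) : C.FilR lam t M := by
  intro a b hab
  have h1 := hM a b hab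
  linarith

theorem FilR_one {lam : Fin n → ℝ} {s : ℝ} (hs : s ≤ 0) :
    C.FilR lam s (1 : Matrix C.Idx C.Idx R) := by
  intro a b hab
  have h1 : a = b := by
    by_contra hne
    exact hab (Matrix.one_apply_ne hne)
  rw [h1]
  linarith

theorem FilR_zero {lam : Fin n → ℝ} {s : ℝ} : C.FilR lam s (0 : Matrix C.Idx C.Idx R) := by
  intro a b hab
  exact absurd rfl hab

theorem FilR_add {lam : Fin n → ℝ} {s : ℝ} {M N : Matrix C.Idx C.Idx R} (hM : C.FilR lam s M)
    (hN : C.FilR lam s N) : C.FilR lam s (M + N) := by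
  intro a b hab
  by_cases h1 : M a b = 0
  · apply hN a b
    intro h2
    apply hab
    rw [Matrix.add_apply, h1, h2, add_zero]
  · exact hM a b h1

theorem FilR_sub {lam : Fin n → ℝ} {s : ℝ} {M N : Matrix C.Idx C.Idx R} (hM : C.FilR lam s M)
    (hN : C.FilR lam s N) : C.FilR lam s (M - N) := by
  intro a b hab
  by_cases h1 : M a b = 0
  · apply hN a b
    intro h2
    apply hab
    rw [Matrix.sub_apply, h1, h2, sub_zero]
  · exact hM a b h1

theorem FilR_smul {lam : Fin n → ℝ} {s : ℝ} (c : R) {M : Matrix C.Idx C.Idx R}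
    (hM : C.FilR lam s M) : C.FilR lam s (c • M) := by
  intro a b hab
  apply hM a b
  intro h2
  apply hab
  rw [Matrix.smul_apply, h2, smul_zero]

theorem FilR_mul {lam : Fin n → ℝ} {s t : ℝ} {M N : Matrix C.Idx C.Idx R} (hM : C.FilR lam s M)
    (hN : C.FilR lam t N) : C.FilR lam (s + t) (M * N) := by
  intro a c hac
  rw [Matrix.mul_apply] at hac
  obtain ⟨b, -, hb⟩ := Finset.exists_ne_zero_of_sum_ne_zero hac
  have h1 := hM a b (left_ne_zero_of_mul hb)
  have h2 := hN b c (right_ne_zero_of_mul hb)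
  linarith

private theorem K1_dg_add (lam mu : Fin n → ℝ) (a : C.Idx) :
    C.dg (lam + mu) a = C.dg lam a + C.dg mu a := by
  rcases a with i | β
  · simp [dg]
  · simp only [dg, Sum.elim_inr]
    exact C.pr_add_left lam mu β

private theorem K1_dg_smul (c : ℝ) (lam : Fin n → ℝ) (a : C.Idx) :
    C.dg (c • lam) a = c * C.dg lam a := by
  rcases a with i | β
  · simp [dg]
  · simp only [dg, Sum.elim_inr]
    exact C.pr_smul c lam β

theorem FilR_pair {lam mu : Fin n → ℝ} {s t : ℝ} {M : Matrix C.Idx C.Idx R}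
    (h : C.FilR lam s M) (h' : C.FilR mu t M) : C.FilR (lam + mu) (s + t) M := by
  intro a b hab
  have h1 := h a b hab
  have h2 := h' a b hab
  rw [C.K1_dg_add, C.K1_dg_add]
  linarith

theorem FilR_scale {lam : Fin n → ℝ} {s c : ℝ} (hc : 0 ≤ c) {M : Matrix C.Idx C.Idx R}
    (h : C.FilR lam s M) : C.FilR (c • lam) (c * s) M := by
  intro a b hab
  have h1 := mul_le_mul_of_nonneg_left (h a b hab) hc
  rw [C.K1_dg_smul, C.K1_dg_smul]
  linarith

theorem gr_mul {lam : Fin n → ℝ} {s t : ℝ} {M N : Matrix C.Idx C.Idx R} (hM : C.FilR lam s M)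
    (hN : C.FilR lam t N) : C.gr lam (s + t) (M * N) = C.gr lam s M * C.gr lam t N := by
  ext a c
  rw [Matrix.mul_apply]
  unfold gr
  by_cases h : C.dg lam a = C.dg lam c + (s + t)
  · rw [if_pos h, Matrix.mul_apply]
    apply Finset.sum_congr rfl
    intro b _
    by_cases h1 : M a b = 0
    · rw [h1]
      simp
    by_cases h2 : N b c = 0
    · rw [h2]
      simp
    have h3 := hM a b h1
    have h4 := hN b c h2
    have h5 : C.dg lam a = C.dg lam b + s := by linarith
    have h6 : C.dg lam b = C.dg lam c + t := by linarith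
    rw [if_pos h5, if_pos h6]
  · rw [if_neg h]
    symm
    apply Finset.sum_eq_zero
    intro b _
    by_cases h5 : C.dg lam a = C.dg lam b + s
    · by_cases h6 : C.dg lam b = C.dg lam c + t
      · exact absurd (by linarith) h
      · rw [if_neg h6, mul_zero]
    · rw [if_neg h5, zero_mul]

end SLC

end Pool.Agent.H75.UL
end

section
/- module Pool.Agent.H75.UK.K2 -/
/-!
# Project UK, module K2: dominant weights

`exists_dom`: among the finitely many `wact w lam`, `w ∈ W`, take one with maximal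
`∑ i, ∑_{β > 0} ...`: put `Φ(μ) = ∑_{β > 0} pr μ β` and take `w` with maximal `Φ (wact w lam)` (`W` is
finite as a set of permutations of a finite set); if `μ = wact w lam` has `μ i < 0`, then for
`s = reflE (simple i)`: `Φ (wact s μ) = ∑_{β>0} pr μ (s β) = Φ μ - 2 μ i > Φ μ` (`s` permutes the
positive roots other than `α_i`, `refl_simple_pos`), contradiction (`wact (s w) = wact s ∘ wact w`).
`dom_unique`: induction on the number of positive roots made negative by `w⁻¹`: if it is zero then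
`w⁻¹ = 1` (`eq_one_of_pos`). Otherwise there is `i` with `w⁻¹ α_i` negative, and then
`(wact w lam) i = pr lam (w⁻¹ α_i) ≤ 0` (`lam` dominant), so it is `0` as `wact w lam` is dominant, so
`s = reflE (simple i)` fixes `wact w lam` (`pr μ (s β) = pr μ β - ip α_i β * μ i`), i.e.
`wact (s w) lam = wact w lam`, and `(s w)⁻¹ = w⁻¹ s` makes fewer positive roots negative.
`pr_pos_of_dom`: coordinates of a positive root are `≥ 0` (`pos_iff`).
-/

set_option autoImplicit false
open Matrix
universe u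
namespace Pool.Agent.H75.UL

namespace SLC
variable {n : ℕ} (C : SLC n)

theorem wact_one (lam : Fin n → ℝ) : C.wact 1 lam = lam := by
  funext i
  unfold wact
  rw [inv_one, Equiv.Perm.one_apply, pr_simple]

theorem wact_mul (w w' : Equiv.Perm C.Root) (hw : w ∈ C.W) (hw' : w' ∈ C.W) (lam : Fin n → ℝ) :
    C.wact (w * w') lam = C.wact w (C.wact w' lam) := by
  funext i
  have h1 : C.wact w (C.wact w' lam) i = C.pr (C.wact w' lam) (w⁻¹ (C.simple i)) := rfl
  have h2 : C.wact (w * w') lam i = C.pr lam ((w * w')⁻¹ (C.simple i)) := rfl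
  rw [h1, h2, C.pr_wact w' hw', _root_.mul_inv_rev, Equiv.Perm.mul_apply]

theorem pr_pos_of_dom {lam : Fin n → ℝ} (hd : ∀ i, 0 ≤ lam i) (β : C.Root) (hβ : C.Pos β) :
    0 ≤ C.pr lam β := by
  unfold pr
  refine Finset.sum_nonneg fun i _ => mul_nonneg ?_ (hd i)
  exact_mod_cast (C.pos_iff β).mp hβ i

private theorem K2_refl (mu : Fin n → ℝ) (i : Fin n) (β : C.Root) :
    C.pr mu (C.refl (C.simple i) β) = C.pr mu β - (C.ip (C.simple i).1 β.1 : ℝ) * mu i := by
  have h1 : C.pr mu (C.simple i) = mu i := C.pr_simple mu i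
  rw [← h1]
  unfold pr
  rw [Finset.mul_sum, ← Finset.sum_sub_distrib]
  refine Finset.sum_congr rfl fun j _ => ?_
  rw [C.refl_val]
  simp only [Pi.sub_apply, Pi.smul_apply, smul_eq_mul]
  push_cast
  ring

private theorem K2_inv (i : Fin n) (β : C.Root) :
    (C.reflE (C.simple i))⁻¹ β = C.refl (C.simple i) β := by
  have h1 : (C.reflE (C.simple i))⁻¹ = C.reflE (C.simple i) :=
    inv_eq_of_mul_eq_one_left (C.reflE_mul_self (C.simple i))
  rw [h1]
  rfl

private theorem K2_neg_not_pos (β : C.Root) (h : ¬ C.Pos β) : C.Pos (-β) := (C.not_pos_iff β).mp h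

private theorem K2_pos_not_neg (β : C.Root) (h : C.Pos β) : ¬ C.Pos (-β) := by
  unfold Pos at h ⊢
  rw [Root.neg_val, ht_neg]
  omega

theorem exists_dom (lam : Fin n → ℝ) : ∃ w ∈ C.W, ∀ i, 0 ≤ C.wact w lam i := by
  classical
  obtain ⟨w, hw, hmax⟩ := Set.exists_max_image (C.W : Set (Equiv.Perm C.Root))
    (fun w => ∑ β ∈ Finset.univ.filter (fun β : C.Root => C.Pos β), C.pr (C.wact w lam) β)
    (Set.toFinite _) ⟨1, C.W.one_mem⟩
  refine ⟨w, hw, fun i => ?_⟩
  by_contra hneg
  rw [not_le] at hneg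
  set mu := C.wact w lam with hmu
  have h1 := hmax (C.reflE (C.simple i) * w) (C.W.mul_mem (C.simple_mem_W i) hw)
  rw [C.wact_mul _ _ (C.simple_mem_W i) hw, ← hmu] at h1
  have h2 : ∀ β, C.pr (C.wact (C.reflE (C.simple i)) mu) β = C.pr mu (C.refl (C.simple i) β) := by
    intro β
    rw [C.pr_wact _ (C.simple_mem_W i), K2_inv]
  simp only [h2] at h1
  have hmem : C.simple i ∈ Finset.univ.filter (fun β : C.Root => C.Pos β) := by
    rw [Finset.mem_filter]
    exact ⟨Finset.mem_univ _, C.simple_pos i⟩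
  rw [← Finset.add_sum_erase _ _ hmem, ← Finset.add_sum_erase _ (fun β => C.pr mu β) hmem] at h1
  have h3 : ∑ β ∈ (Finset.univ.filter (fun β : C.Root => C.Pos β)).erase (C.simple i),
      C.pr mu (C.refl (C.simple i) β) =
      ∑ β ∈ (Finset.univ.filter (fun β : C.Root => C.Pos β)).erase (C.simple i), C.pr mu β := by
    refine Finset.sum_nbij' (fun β => C.refl (C.simple i) β) (fun β => C.refl (C.simple i) β)
      ?_ ?_ ?_ ?_ ?_
    · intro β hβ
      rw [Finset.mem_erase, Finset.mem_filter] at hβ ⊢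
      exact ⟨C.refl_simple_ne i β hβ.2.2, Finset.mem_univ _, C.refl_simple_pos i β hβ.2.2 hβ.1⟩
    · intro β hβ
      rw [Finset.mem_erase, Finset.mem_filter] at hβ ⊢
      exact ⟨C.refl_simple_ne i β hβ.2.2, Finset.mem_univ _, C.refl_simple_pos i β hβ.2.2 hβ.1⟩
    · intro β _
      exact C.refl_refl _ β
    · intro β _
      exact C.refl_refl _ β
    · intro β _
      rfl
  rw [h3, C.refl_self, C.pr_neg, C.pr_simple] at h1
  linarith

theorem dom_unique {lam : Fin n → ℝ} (hd : ∀ i, 0 ≤ lam i) (w : Equiv.Perm C.Root) (hw : w ∈ C.W)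
    (hd' : ∀ i, 0 ≤ C.wact w lam i) : C.wact w lam = lam := by
  classical
  have key : ∀ k : ℕ, ∀ w : Equiv.Perm C.Root, w ∈ C.W → (∀ i, 0 ≤ C.wact w lam i) →
      (Finset.univ.filter fun β : C.Root => C.Pos β ∧ ¬ C.Pos (w⁻¹ β)).card ≤ k →
      C.wact w lam = lam := by
    intro k
    induction k with
    | zero =>
      intro w hw _ hk
      have h1 : w⁻¹ = 1 := by
        refine C.eq_one_of_pos w⁻¹ (C.W.inv_mem hw) fun i => ?_
        by_contra h2
        have h3 : C.simple i ∈ Finset.univ.filter fun β : C.Root => C.Pos β ∧ ¬ C.Pos (w⁻¹ β) := by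
          rw [Finset.mem_filter]
          exact ⟨Finset.mem_univ _, C.simple_pos i, h2⟩
        have h4 := Finset.card_pos.mpr ⟨_, h3⟩
        omega
      rw [inv_eq_one] at h1
      rw [h1, C.wact_one]
    | succ k ih =>
      intro w hw hdw hk
      by_cases hall : ∀ i, C.Pos (w⁻¹ (C.simple i))
      · have h1 := C.eq_one_of_pos w⁻¹ (C.W.inv_mem hw) hall
        rw [inv_eq_one] at h1
        rw [h1, C.wact_one]
      · rw [not_forall] at hall
        obtain ⟨i, hi⟩ := hall
        have hpos := C.K2_neg_not_pos _ hi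
        have h1 : C.wact w lam i = C.pr lam (w⁻¹ (C.simple i)) := rfl
        have h2 := C.pr_pos_of_dom hd _ hpos
        rw [C.pr_neg] at h2
        have h3 : C.wact w lam i = 0 := by
          have := hdw i
          linarith
        have hs := C.simple_mem_W i
        have h4 : C.wact (C.reflE (C.simple i) * w) lam = C.wact w lam := by
          rw [C.wact_mul _ _ hs hw]
          funext j
          have h5 : C.wact (C.reflE (C.simple i)) (C.wact w lam) j =
            C.pr (C.wact w lam) ((C.reflE (C.simple i))⁻¹ (C.simple j)) := rfl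
          rw [h5, K2_inv, K2_refl, h3, C.pr_simple]
          ring
        have h6 : (Finset.univ.filter fun β : C.Root => C.Pos β ∧
            ¬ C.Pos ((C.reflE (C.simple i) * w)⁻¹ β)).card <
            (Finset.univ.filter fun β : C.Root => C.Pos β ∧ ¬ C.Pos (w⁻¹ β)).card := by
          have hinj : Function.Injective (fun β : C.Root => C.refl (C.simple i) β) := by
            intro a b hab
            have := congrArg (fun β : C.Root => C.refl (C.simple i) β) hab
            simpa only [C.refl_refl] using this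
          rw [← Finset.card_image_of_injective _ hinj]
          apply Finset.card_lt_card
          rw [Finset.ssubset_iff_of_subset]
          · refine ⟨C.simple i, ?_, ?_⟩
            · rw [Finset.mem_filter]
              exact ⟨Finset.mem_univ _, C.simple_pos i, hi⟩
            · rw [Finset.mem_image]
              rintro ⟨β, hβ, hβ'⟩
              rw [Finset.mem_filter] at hβ
              exact C.refl_simple_ne i β hβ.2.1 hβ'
          · intro γ hγ
            rw [Finset.mem_image] at hγ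
            obtain ⟨β, hβ, rfl⟩ := hγ
            rw [Finset.mem_filter, _root_.mul_inv_rev, Equiv.Perm.mul_apply, K2_inv] at hβ
            rw [Finset.mem_filter]
            refine ⟨Finset.mem_univ _, C.refl_simple_pos i β hβ.2.1 ?_, hβ.2.2⟩
            rintro rfl
            apply hβ.2.2
            rw [C.refl_self, C.W_neg w⁻¹ (C.W.inv_mem hw)]
            exact hpos
        have h7 := ih (C.reflE (C.simple i) * w) (C.W.mul_mem hs hw) (by rw [h4]; exact hdw)
          (by omega)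
        rw [h4] at h7
        exact h7
  exact key _ w hw hd' le_rfl

end SLC

end Pool.Agent.H75.UL
end

section
/- module Pool.Agent.H75.UK.K1b -/
/-!
# Project UK (MP_978914_al), module K1b: real filtrations on the group

`FilR_xg`: entries of `X`: `E β` raises the degree by
`pr lam β`, `F β` by `2 pr lam β`. `FilR_U`: closure induction (`FilR lam 0` is closed under products,
and the inverse of a generator is a generator). `FilR_upper`: `upper`, `T_diag`, `FilR_U`.
`FilR_N`: `N_mono` (and for `ν⁻¹`): `ν` maps `e_β` to a multiple of `e_{w β}` and the Cartan part to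
itself, so `(ν M ν⁻¹)` has at most those entries `(a, b)` which come from entries `(w⁻¹ a, w⁻¹ b)` of
`M`; on the Cartan part all degrees are `0`.
-/

set_option autoImplicit false
open Matrix
universe u
namespace Pool.Agent.H75.UL

namespace SLC
variable {n : ℕ} (C : SLC n)
variable {R : Type*} [CommRing R]

private theorem K1b_pr_of_add (lam : Fin n → ℝ) (α β γ : C.Root) (h : γ.1 = α.1 + β.1) :
    C.pr lam γ = C.pr lam α + C.pr lam β := by
  unfold pr
  rw [← Finset.sum_add_distrib]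
  refine Finset.sum_congr rfl fun i _ => ?_
  rw [h, Pi.add_apply, Int.cast_add, add_mul]

private theorem K1b_pr_of_neg (lam : Fin n → ℝ) (α β : C.Root) (h : β.1 = -α.1) :
    C.pr lam β = -C.pr lam α := by
  unfold pr
  rw [← Finset.sum_neg_distrib]
  refine Finset.sum_congr rfl fun i _ => ?_
  rw [h, Pi.neg_apply, Int.cast_neg, neg_mul]

private theorem K1b_pr_of_eq (lam : Fin n → ℝ) (α β : C.Root) (h : β.1 = α.1) :
    C.pr lam β = C.pr lam α := by
  unfold pr
  rw [h]

private theorem K1b_E (lam : Fin n → ℝ) (α : C.Root) (a b : C.Idx) (h : C.E α a b ≠ 0) :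
    C.dg lam a = C.dg lam b + C.pr lam α := by
  rcases a with i | γ <;> rcases b with j | β
  · exact absurd rfl h
  · simp only [E] at h
    by_cases h1 : β.1 = -α.1
    · simp only [dg, Sum.elim_inl, Sum.elim_inr]
      rw [C.K1b_pr_of_neg lam α β h1]
      ring
    · rw [if_neg h1] at h
      exact absurd rfl h
  · simp only [E] at h
    by_cases h1 : γ.1 = α.1
    · simp only [dg, Sum.elim_inl, Sum.elim_inr]
      rw [C.K1b_pr_of_eq lam α γ h1]
      ring
    · rw [if_neg h1] at h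
      exact absurd rfl h
  · simp only [E] at h
    by_cases h1 : γ.1 = α.1 + β.1
    · simp only [dg, Sum.elim_inr]
      rw [C.K1b_pr_of_add lam α β γ h1]
      ring
    · rw [if_neg h1] at h
      exact absurd rfl h

private theorem K1b_F (lam : Fin n → ℝ) (α : C.Root) (a b : C.Idx) (h : C.F α a b ≠ 0) :
    C.dg lam a = C.dg lam b + 2 * C.pr lam α := by
  rcases a with i | γ <;> rcases b with j | β
  · exact absurd rfl h
  · exact absurd rfl h
  · exact absurd rfl h
  · simp only [F] at h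
    by_cases h1 : γ.1 = α.1 ∧ β.1 = -α.1
    · simp only [dg, Sum.elim_inr]
      rw [C.K1b_pr_of_eq lam α γ h1.1, C.K1b_pr_of_neg lam α β h1.2]
      ring
    · rw [if_neg h1] at h
      exact absurd rfl h

private theorem K1b_xg (β : C.Root) (t : R) (a b : C.Idx) :
    ((C.xg R β t : Matrix C.Idx C.Idx R) - 1) a b =
      t * ((C.E β a b : ℤ) : R) + t ^ 2 * ((C.F β a b : ℤ) : R) := by
  have h1 : (C.xg R β t : Matrix C.Idx C.Idx R) = C.X R β t := rfl
  rw [h1]
  unfold X
  rw [Matrix.sub_apply, Matrix.add_apply, Matrix.add_apply, Matrix.smul_apply, Matrix.smul_apply,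
    Matrix.map_apply, Matrix.map_apply, smul_eq_mul, smul_eq_mul]
  ring

theorem FilR_xg {lam : Fin n → ℝ} {s : ℝ} (hs : 0 ≤ s) (β : C.Root) (hβ : s ≤ C.pr lam β)
    (t : R) : C.FilR lam s ((C.xg R β t : Matrix C.Idx C.Idx R) - 1) := by
  intro a b hab
  rw [C.K1b_xg] at hab
  by_cases hE : C.E β a b = 0
  · by_cases hF : C.F β a b = 0
    · rw [hE, hF] at hab
      simp at hab
    · have := C.K1b_F lam β a b hF
      linarith
  · have := C.K1b_E lam β a b hE
    linarith

theorem gr_xg {lam : Fin n → ℝ} (β : C.Root) (hβ : 0 < C.pr lam β) (t : R) :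
    C.gr lam (C.pr lam β) ((C.xg R β t : Matrix C.Idx C.Idx R) - 1) =
      t • (C.E β).map (Int.cast : ℤ → R) := by
  ext a b
  rw [Matrix.smul_apply, Matrix.map_apply, smul_eq_mul]
  unfold gr
  split_ifs with h1
  · rw [C.K1b_xg]
    have hF : C.F β a b = 0 := by
      by_contra hF
      have := C.K1b_F lam β a b hF
      linarith
    rw [hF]
    simp
  · have hE : C.E β a b = 0 := by
      by_contra hE
      exact h1 (C.K1b_E lam β a b hE)
    rw [hE]
    simp

section field
variable {F : Type*} [Field F]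

private theorem K1b_mul00 {lam : Fin n → ℝ} {M N : Matrix C.Idx C.Idx F}
    (hM : C.FilR lam 0 M) (hN : C.FilR lam 0 N) : C.FilR lam 0 (M * N) := by
  have h := C.FilR_mul hM hN
  rwa [add_zero] at h

private theorem K1b_xg0 {lam : Fin n → ℝ} (β : C.Root) (hβ : 0 ≤ C.pr lam β) (t : F) :
    C.FilR lam 0 (C.xg F β t : Matrix C.Idx C.Idx F) := by
  have h := C.FilR_xg (R := F) le_rfl β hβ t
  have h1 := C.FilR_add h (C.FilR_one (R := F) (lam := lam) (le_refl (0 : ℝ)))
  rwa [sub_add_cancel] at h1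

theorem FilR_U {lam : Fin n → ℝ} (hd : ∀ i, 0 ≤ lam i) (u : GL C.Idx F)
    (hu : u ∈ (C.adS F).U 1) : C.FilR lam 0 (u : Matrix C.Idx C.Idx F) := by
  suffices h : C.FilR lam 0 (u : Matrix C.Idx C.Idx F) ∧
      C.FilR lam 0 ((u⁻¹ : GL C.Idx F) : Matrix C.Idx C.Idx F) from h.1
  unfold StSys.U at hu
  induction hu using Subgroup.closure_induction with
  | mem g hg =>
    obtain ⟨β, t, hβ, rfl⟩ := hg
    have hpos : C.Pos β := by
      unfold Pos
      omega
    have hpr : 0 ≤ C.pr lam β := by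
      unfold pr
      refine Finset.sum_nonneg fun i _ => mul_nonneg ?_ (hd i)
      exact_mod_cast (C.pos_iff β).1 hpos i
    refine ⟨C.K1b_xg0 β hpr t, ?_⟩
    rw [← (C.adS F).x_neg]
    exact C.K1b_xg0 β hpr (-t)
  | one =>
    rw [inv_one]
    exact ⟨C.FilR_one le_rfl, C.FilR_one le_rfl⟩
  | mul x y _ _ hx hy =>
    rw [_root_.mul_inv_rev, Units.val_mul, Units.val_mul]
    exact ⟨C.K1b_mul00 hx.1 hy.1, C.K1b_mul00 hy.2 hx.2⟩
  | inv x _ hx =>
    rw [inv_inv]
    exact ⟨hx.2, hx.1⟩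

theorem FilR_upper {lam : Fin n → ℝ} (hd : ∀ i, 0 ≤ lam i) (g : GL C.Idx F) (hg : g ∈ C.Gad F)
    (h : C.Fil 0 (g : Matrix C.Idx C.Idx F)) : C.FilR lam 0 (g : Matrix C.Idx C.Idx F) := by
  obtain ⟨τ, hτ, u, hu, rfl⟩ := C.upper g hg h
  rw [Units.val_mul]
  refine C.K1b_mul00 ?_ (C.FilR_U hd u hu)
  obtain ⟨c, hc⟩ := C.T_diag τ hτ
  rw [hc]
  intro a b hab
  by_cases h1 : a = b
  · rw [h1, add_zero]
  · exact absurd (Matrix.diagonal_apply_ne _ h1) hab

private theorem K1b_acts_inv (ν : GL C.Idx F) (w : Equiv.Perm C.Root)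
    (h : (C.adS F).Acts ν w) : (C.adS F).Acts ν⁻¹ w⁻¹ := by
  obtain ⟨c, hc0, hc⟩ := h
  refine ⟨fun β => (c (w⁻¹ β))⁻¹, fun β => inv_ne_zero (hc0 _), fun β u => ?_⟩
  have h1 := hc (w⁻¹ β) ((c (w⁻¹ β))⁻¹ * u)
  have h2 : w (w⁻¹ β) = β := Equiv.apply_symm_apply w β
  rw [h2, mul_inv_cancel_left₀ (hc0 _)] at h1
  rw [← h1]
  group

private theorem K1b_N (ν : GL C.Idx F) (w : Equiv.Perm C.Root) (hν : ν ∈ (C.adS F).N)
    (h : (C.adS F).Acts ν w) (lam mu : Fin n → ℝ) (hmu : ∀ β, C.pr mu β = C.pr lam (w β)) (s : ℝ)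
    (M : Matrix C.Idx C.Idx F) (hM : C.FilR mu s M) :
    C.FilR lam s ((ν : Matrix C.Idx C.Idx F) * M *
      ((ν⁻¹ : GL C.Idx F) : Matrix C.Idx C.Idx F)) := by
  obtain ⟨-, m1, m2, m3, -⟩ := C.N_mono ν w h hν
  obtain ⟨-, k1, k2, k3, -⟩ := C.N_mono ν⁻¹ w⁻¹ (C.K1b_acts_inv ν w h) (Subgroup.inv_mem _ hν)
  intro a b hab
  rw [Matrix.mul_apply] at hab
  obtain ⟨d, -, hd⟩ := Finset.exists_ne_zero_of_sum_ne_zero hab
  have hd1 := left_ne_zero_of_mul hd
  have hd2 := right_ne_zero_of_mul hd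
  rw [Matrix.mul_apply] at hd1
  obtain ⟨c, -, hc⟩ := Finset.exists_ne_zero_of_sum_ne_zero hd1
  have hc1 := left_ne_zero_of_mul hc
  have hc2 := right_ne_zero_of_mul hc
  have e1 : C.dg lam a = C.dg mu c := by
    rcases a with i | γ' <;> rcases c with j | γ
    · rfl
    · exact absurd (m1 i γ) hc1
    · exact absurd (m2 j γ') hc1
    · by_cases h1 : γ' = w γ
      · rw [h1]
        exact (hmu γ).symm
      · exact absurd (m3 γ γ' h1) hc1
  have e2 : C.dg lam b = C.dg mu d := by
    rcases d with i | γ' <;> rcases b with j | γ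
    · rfl
    · exact absurd (k1 i γ) hd2
    · exact absurd (k2 j γ') hd2
    · by_cases h1 : γ' = w⁻¹ γ
      · have h2 : w γ' = γ := by
          rw [h1]
          exact Equiv.apply_symm_apply w γ
        rw [← h2]
        exact (hmu γ').symm
      · exact absurd (k3 γ γ' h1) hd2
  rw [e1, e2]
  exact hM c d hc2

theorem FilR_N (ν : GL C.Idx F) (w : Equiv.Perm C.Root) (hν : ν ∈ (C.adS F).N)
    (h : (C.adS F).Acts ν w) (lam : Fin n → ℝ) (s : ℝ) (M : Matrix C.Idx C.Idx F) :
    C.FilR lam s ((ν : Matrix C.Idx C.Idx F) * M * ((ν⁻¹ : GL C.Idx F) : Matrix C.Idx C.Idx F)) ↔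
      C.FilR (C.wact w⁻¹ lam) s M := by
  obtain ⟨hw, -⟩ := C.N_mono ν w h hν
  have hpr : ∀ β, C.pr (C.wact w⁻¹ lam) β = C.pr lam (w β) := by
    intro β
    rw [C.pr_wact w⁻¹ (Subgroup.inv_mem _ hw), inv_inv]
  constructor
  · intro hM
    have h1 := C.K1b_N ν⁻¹ w⁻¹ (Subgroup.inv_mem _ hν) (C.K1b_acts_inv ν w h)
      (C.wact w⁻¹ lam) lam (fun β => by
        rw [hpr]
        congr 1
        exact (Equiv.apply_symm_apply w β).symm) s _ hM
    have h2 : ((ν⁻¹ : GL C.Idx F) : Matrix C.Idx C.Idx F) *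
        ((ν : Matrix C.Idx C.Idx F) * M * ((ν⁻¹ : GL C.Idx F) : Matrix C.Idx C.Idx F)) *
        (((ν⁻¹)⁻¹ : GL C.Idx F) : Matrix C.Idx C.Idx F) = M := by
      rw [inv_inv]
      have e1 : ((ν⁻¹ : GL C.Idx F) : Matrix C.Idx C.Idx F) * (ν : Matrix C.Idx C.Idx F) = 1 := by
        rw [← Units.val_mul, inv_mul_cancel, Units.val_one]
      rw [← mul_assoc, ← mul_assoc, e1, one_mul, mul_assoc, e1, mul_one]
    rwa [h2] at h1
  · exact C.K1b_N ν w hν h lam _ hpr s M

end field

end SLC

end Pool.Agent.H75.UL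
end

section
/- module Pool.Agent.H75.UK.K6a -/
/-!
# Project UK, module K6a: elements close to the identity are unipotent

`lam` dominant, `0 < m`, `γ ∈ Gad`, `γ - 1 ∈ FilR lam m`. `γ ∈ U 1` (`mem_U_of_FilR`): Bruhat
`γ = u ν b`, `ν` acting by `w`. `ν = u⁻¹ γ b⁻¹ ∈ FilR lam 0` (`FilR_U`), so `pr lam (w β) ≥ pr lam β` for
all `β` (`N_mono`), and equality by summing over all roots. Degree `0` parts (`gr_mul`):
`gr 0 γ = 1`, so `gr 0 ν = gr 0 u⁻¹ * gr 0 b⁻¹`; `gr 0 ν = ν` (as `w` preserves `pr lam`), and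
`gr 0 u⁻¹`, `gr 0 b⁻¹` satisfy `Fil 0` (entries of `u⁻¹`, `b⁻¹`), so `ν` satisfies `Fil 0`, so `w = 1`
(as in the proof of `upper`: `N_mono`, the map `w` does not decrease heights) and `ν ∈ T` (`N_one`),
`γ = u ν b = τ u'`; the diagonal entries of `γ` are `1` and those of `u'` are `1`
(`Fil_U`), `τ` is diagonal (`T_diag`), so `τ = 1`.
-/

set_option autoImplicit false
open Matrix
universe u
namespace Pool.Agent.H75.UL

namespace SLC
variable {n : ℕ} (C : SLC n) {F : Type*} [Field F]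

theorem mem_U_of_FilR (lam : Fin n → ℝ) (hd : ∀ i, 0 ≤ lam i) (m : ℝ) (hm : 0 < m)
    (γ : GL C.Idx F) (hγ : γ ∈ C.Gad F)
    (h : C.FilR lam m ((γ : Matrix C.Idx C.Idx F) - 1)) : γ ∈ (C.adS F).U 1 := by
  -- `γ` and its Bruhat decomposition
  have hγ0 : C.FilR lam 0 (γ : Matrix C.Idx C.Idx F) := by
    have e : (γ : Matrix C.Idx C.Idx F) = ((γ : Matrix C.Idx C.Idx F) - 1) + 1 := by abel
    rw [e]
    exact C.FilR_add (C.FilR_mono hm.le h) (C.FilR_one le_rfl)
  have hg := hγ
  rw [← C.gen_adS F] at hg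
  obtain ⟨u, hu, ν, hν, v, hv, huv⟩ := (C.adS F).bruhat γ hg
  have hu' := Subgroup.inv_mem _ hu
  have hv' := Subgroup.inv_mem _ hv
  have eν : ν = u⁻¹ * γ * v⁻¹ := by
    rw [huv]
    group
  have eνm : (ν : Matrix C.Idx C.Idx F) = ((u⁻¹ : GL C.Idx F) : Matrix C.Idx C.Idx F) *
      (γ : Matrix C.Idx C.Idx F) * ((v⁻¹ : GL C.Idx F) : Matrix C.Idx C.Idx F) := by
    rw [eν, Units.val_mul, Units.val_mul]
  have fu := C.FilR_U hd _ hu'
  have fv := C.FilR_U hd _ hv'
  have fuγ : C.FilR lam 0 (((u⁻¹ : GL C.Idx F) : Matrix C.Idx C.Idx F) *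
      (γ : Matrix C.Idx C.Idx F)) := by
    have := C.FilR_mul fu hγ0
    rwa [add_zero] at this
  have fν : C.FilR lam 0 (ν : Matrix C.Idx C.Idx F) := by
    have := C.FilR_mul fuγ fv
    rw [add_zero, ← eνm] at this
    exact this
  obtain ⟨w, hw, ha, -⟩ := (C.adS F).N_acts ν hν
  obtain ⟨-, m1, m2, m3, m4⟩ := C.N_mono ν w ha hν
  -- `w` preserves the degree
  have hle : ∀ β : C.Root, C.pr lam β ≤ C.pr lam (w β) := by
    intro β
    have := fν _ _ (m4 β)
    simp only [dg, Sum.elim_inr, add_zero] at this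
    exact this
  have heq : ∀ β : C.Root, C.pr lam (w β) = C.pr lam β := by
    have hs : ∑ β : C.Root, C.pr lam β = ∑ β : C.Root, C.pr lam (w β) :=
      (Equiv.sum_comp w (fun β => C.pr lam β)).symm
    intro β
    exact ((Finset.sum_eq_sum_iff_of_le (fun β _ => hle β)).1 hs β (Finset.mem_univ β)).symm
  -- parts of degree zero
  have gγ : C.gr lam 0 (γ : Matrix C.Idx C.Idx F) = 1 := by
    ext a b
    unfold gr
    split_ifs with hab
    · by_contra hne
      have h1 : ((γ : Matrix C.Idx C.Idx F) - 1) a b ≠ 0 := by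
        rw [Matrix.sub_apply]
        exact sub_ne_zero.2 hne
      have h2 := h a b h1
      linarith
    · symm
      apply Matrix.one_apply_ne
      rintro rfl
      exact hab (by rw [add_zero])
  have gν : C.gr lam 0 (ν : Matrix C.Idx C.Idx F) = (ν : Matrix C.Idx C.Idx F) := by
    ext a b
    unfold gr
    split_ifs with hab
    · rfl
    · symm
      rcases a with i | γ'
      · rcases b with j | β
        · exact absurd (by simp [dg]) hab
        · exact m1 i β
      · rcases b with j | β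
        · exact m2 j γ'
        · apply m3
          rintro rfl
          apply hab
          simp only [dg, Sum.elim_inr, add_zero]
          exact heq β
  have gmul : (ν : Matrix C.Idx C.Idx F) =
      C.gr lam 0 ((u⁻¹ : GL C.Idx F) : Matrix C.Idx C.Idx F) *
        C.gr lam 0 ((v⁻¹ : GL C.Idx F) : Matrix C.Idx C.Idx F) := by
    have h1 := C.gr_mul fuγ fv
    have h2 := C.gr_mul fu hγ0
    rw [add_zero] at h1 h2
    rw [h2, gγ, mul_one, ← eνm, gν] at h1
    exact h1
  have hFil : ∀ M : Matrix C.Idx C.Idx F, C.Fil 0 M → C.Fil 0 (C.gr lam 0 M) := by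
    intro M hM a b hab
    unfold gr
    split_ifs
    · exact hM a b hab
    · rfl
  have hν0 : C.Fil 0 (ν : Matrix C.Idx C.Idx F) := by
    have := C.Fil_mul (hFil _ (C.Fil_U_zero _ hu')) (hFil _ (C.Fil_U_zero _ hv'))
    rw [add_zero, ← gmul] at this
    exact this
  have hγF : C.Fil 0 (γ : Matrix C.Idx C.Idx F) := by
    have h1 := C.Fil_mul (C.Fil_mul (C.Fil_U_zero _ hu) hν0) (C.Fil_U_zero _ hv)
    rw [add_zero, add_zero, ← Units.val_mul, ← Units.val_mul, ← huv] at h1
    exact h1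
  -- the torus part is trivial
  obtain ⟨τ, hτ, u₁, hu₁, e⟩ := C.upper γ hγ hγF
  have hchi : ∀ β : C.Root, C.chi (τ : Matrix C.Idx C.Idx F) β = 1 := by
    intro β
    rw [← C.chi_mul_U τ u₁ hτ hu₁, ← e]
    unfold chi
    by_contra hne
    have h1 : ((γ : Matrix C.Idx C.Idx F) - 1) (Sum.inr β) (Sum.inr β) ≠ 0 := by
      rw [Matrix.sub_apply, Matrix.one_apply_eq]
      exact sub_ne_zero.2 hne
    have h2 := h _ _ h1
    linarith
  have hτ1 : τ = 1 := by
    refine C.T_ext τ 1 hτ (Subgroup.one_mem _) fun j => ?_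
    rw [hchi]
    unfold chi
    rw [Units.val_one, Matrix.one_apply_eq]
  rw [e, hτ1, one_mul]
  exact hu₁

end SLC

end Pool.Agent.H75.UL
end

section
/- module Pool.Agent.H75.UK.K3 -/
/-!
# Project UK, module K3: existence of the optimal weight

`Sp Γ g lam s`: `g⁻¹ γ g - 1` raises the degree by at least `s` for all `γ ∈ Γ`.
`exists_opt`: for `g ∈ Gad` let `Z(g) = {(a,b) | ∃ γ ∈ Γ, (g⁻¹ γ g - 1) a b ≠ 0}`, nonempty as `Γ ≠ ⊥`;
`Sp Γ g lam s` iff `dg lam b + s ≤ dg lam a` for all `(a,b) ∈ Z(g)`. There are finitely many sets `Z(g)`.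
For each nonempty `Z` the function `φ_Z lam = min_{(a,b) ∈ Z} (dg lam a - dg lam b)` is continuous on the
compact set `{lam | nrm lam = 1}` (closed, bounded by `sq_le_nrm`, nonempty as `0 < n`), so it has a
maximum there. Take the largest of these maxima over the finitely many occurring `Z`. It is positive:
for `g₀` and `lam` constant `= c > 0` with `nrm lam = 1`, every entry `(a,b) ∈ Z(g₀)` has
`hti a ≥ hti b + 1` (`Fil_U`) and `dg lam a = c * hti a`, so `φ ≥ c`. Then replace `(g, lam)` by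
`(g ν⁻¹, wact w lam)`, `w` from `exists_dom`, `ν ∈ N` acting by `w` (`exists_N`): `FilR_N`, `nrm_wact`.
-/

set_option autoImplicit false
open Matrix
universe u
namespace Pool.Agent.H75.UL

namespace SLC
variable {n : ℕ} (C : SLC n) {F : Type*} [Field F]

/-- All `g⁻¹ γ g - 1`, `γ ∈ Γ`, raise the degree by at least `s`. -/
def Sp (Γ : Subgroup (GL C.Idx F)) (g : GL C.Idx F) (lam : Fin n → ℝ) (s : ℝ) : Prop :=
  ∀ γ ∈ Γ, C.FilR lam s (((g⁻¹ * γ * g : GL C.Idx F) : Matrix C.Idx C.Idx F) - 1)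

private theorem K3_acts_inv (ν : GL C.Idx F) (w : Equiv.Perm C.Root)
    (h : (C.adS F).Acts ν w) : (C.adS F).Acts ν⁻¹ w⁻¹ := by
  obtain ⟨c, hc, h⟩ := h
  refine ⟨fun β => (c (w⁻¹ β))⁻¹, fun β => inv_ne_zero (hc _), fun β u => ?_⟩
  have h1 := h (w⁻¹ β) ((c (w⁻¹ β))⁻¹ * u)
  have h2 : w (w⁻¹ β) = β := w.apply_symm_apply β
  rw [mul_inv_cancel_left₀ (hc _), h2] at h1
  rw [← h1]
  group

private theorem K3_conj_sub (M : GL C.Idx F) (p : GL C.Idx F) :
    ((p⁻¹ * M * p : GL C.Idx F) : Matrix C.Idx C.Idx F) - 1 =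
      ((p⁻¹ : GL C.Idx F) : Matrix C.Idx C.Idx F) * ((M : Matrix C.Idx C.Idx F) - 1) *
        (p : Matrix C.Idx C.Idx F) := by
  have h : ((p⁻¹ : GL C.Idx F) : Matrix C.Idx C.Idx F) * (p : Matrix C.Idx C.Idx F) = 1 := by
    rw [← Units.val_mul, inv_mul_cancel, Units.val_one]
  rw [mul_sub, sub_mul, mul_one, h, Units.val_mul, Units.val_mul]

theorem Sp_N (Γ : Subgroup (GL C.Idx F)) (g ν : GL C.Idx F) (w : Equiv.Perm C.Root)
    (hν : ν ∈ (C.adS F).N) (h : (C.adS F).Acts ν w) (lam : Fin n → ℝ) (s : ℝ) :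
    C.Sp Γ (g * ν) lam s ↔ C.Sp Γ g (C.wact w lam) s := by
  unfold Sp
  refine forall₂_congr fun γ _ => ?_
  have h1 : (g * ν)⁻¹ * γ * (g * ν) = ν⁻¹ * (g⁻¹ * γ * g) * ν := by group
  have h2 := C.FilR_N ν⁻¹ w⁻¹ (inv_mem hν) (C.K3_acts_inv ν w h) lam s
    (((g⁻¹ * γ * g : GL C.Idx F) : Matrix C.Idx C.Idx F) - 1)
  rw [inv_inv, inv_inv] at h2
  rw [h1, K3_conj_sub, h2]

theorem Sp_P (Γ : Subgroup (GL C.Idx F)) (g p : GL C.Idx F) (lam : Fin n → ℝ) (s : ℝ)
    (hp : C.FilR lam 0 (p : Matrix C.Idx C.Idx F))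
    (hp' : C.FilR lam 0 ((p⁻¹ : GL C.Idx F) : Matrix C.Idx C.Idx F)) (h : C.Sp Γ g lam s) :
    C.Sp Γ (g * p) lam s := by
  intro γ hγ
  have h1 : (g * p)⁻¹ * γ * (g * p) = p⁻¹ * (g⁻¹ * γ * g) * p := by group
  rw [h1, K3_conj_sub]
  have h2 := C.FilR_mul (C.FilR_mul hp' (h γ hγ)) hp
  rwa [zero_add, add_zero] at h2

/-- `(g, lam, s)` is optimal. -/
structure Opt (Γ : Subgroup (GL C.Idx F)) (g : GL C.Idx F) (lam : Fin n → ℝ) (s : ℝ) : Prop where
  mem : g ∈ C.Gad F
  dom : ∀ i, 0 ≤ lam i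
  nrm : C.nrm lam = 1
  pos : 0 < s
  sp : C.Sp Γ g lam s
  max : ∀ g' ∈ C.Gad F, ∀ lam' s', C.nrm lam' = 1 → C.Sp Γ g' lam' s' → s' ≤ s

private def K3_Z (Γ : Subgroup (GL C.Idx F)) (g : GL C.Idx F) : Set (C.Idx × C.Idx) :=
  {p | ∃ γ ∈ Γ, (((g⁻¹ * γ * g : GL C.Idx F) : Matrix C.Idx C.Idx F) - 1) p.1 p.2 ≠ 0}

private theorem K3_Z_ne (Γ : Subgroup (GL C.Idx F)) (hΓ : Γ ≠ ⊥) (g : GL C.Idx F) :
    (C.K3_Z Γ g).Nonempty := by
  rw [Subgroup.ne_bot_iff_exists_ne_one] at hΓ
  obtain ⟨⟨γ, hγ⟩, h1⟩ := hΓ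
  have h1 : γ ≠ 1 := fun h => h1 (Subtype.ext h)
  by_contra hne
  rw [Set.not_nonempty_iff_eq_empty] at hne
  apply h1
  have h2 : g⁻¹ * γ * g = 1 := by
    apply Units.ext
    rw [← sub_eq_zero]
    ext a b
    by_contra h3
    have : (a, b) ∈ C.K3_Z Γ g := ⟨γ, hγ, h3⟩
    rw [hne] at this
    exact this
  have h3 : γ = g * (g⁻¹ * γ * g) * g⁻¹ := by group
  rw [h3, h2]
  group

private theorem K3_Sp_iff (Γ : Subgroup (GL C.Idx F)) (g : GL C.Idx F) (lam : Fin n → ℝ) (s : ℝ) :
    C.Sp Γ g lam s ↔ ∀ p ∈ C.K3_Z Γ g, s ≤ C.dg lam p.1 - C.dg lam p.2 := by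
  constructor
  · rintro h ⟨a, b⟩ ⟨γ, hγ, h1⟩
    have := h γ hγ a b h1
    simp only
    linarith
  · intro h γ hγ a b h1
    have := h (a, b) ⟨γ, hγ, h1⟩
    simp only at this
    linarith

private theorem K3_pr_cont (β : C.Root) : Continuous fun lam : Fin n → ℝ => C.pr lam β := by
  unfold pr
  fun_prop

private theorem K3_dg_cont (a : C.Idx) : Continuous fun lam : Fin n → ℝ => C.dg lam a := by
  rcases a with i | β
  · exact continuous_const
  · exact C.K3_pr_cont β

private theorem K3_nrm_cont : Continuous fun lam : Fin n → ℝ => C.nrm lam := by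
  unfold nrm
  exact continuous_finsetSum _ fun β _ => (C.K3_pr_cont β).pow 2

private theorem K3_compact : IsCompact {lam : Fin n → ℝ | C.nrm lam = 1} := by
  apply Metric.isCompact_of_isClosed_isBounded
  · exact isClosed_eq C.K3_nrm_cont continuous_const
  · rw [isBounded_iff_forall_norm_le]
    refine ⟨1, fun lam hlam => ?_⟩
    rw [pi_norm_le_iff_of_nonneg zero_le_one]
    intro i
    have h1 := C.sq_le_nrm lam i
    rw [Set.mem_ofPred_eq] at hlam
    rw [hlam] at h1
    rw [Real.norm_eq_abs]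
    exact (sq_le_one_iff_abs_le_one _).mp h1

private theorem K3_unit (hn : 0 < n) : ∃ c : ℝ, 0 < c ∧ C.nrm (c • fun _ => (1 : ℝ)) = 1 := by
  have h1 := C.sq_le_nrm (fun _ => (1 : ℝ)) ⟨0, hn⟩
  have h2 : 0 < C.nrm (fun _ => (1 : ℝ)) := by
    norm_num at h1
    linarith
  refine ⟨(Real.sqrt (C.nrm (fun _ => (1 : ℝ))))⁻¹, inv_pos.mpr (Real.sqrt_pos.mpr h2), ?_⟩
  rw [C.nrm_smul, inv_pow, Real.sq_sqrt h2.le, inv_mul_cancel₀ h2.ne']

private theorem K3_dg_const (c : ℝ) (a : C.Idx) :
    C.dg (c • fun _ => (1 : ℝ)) a = c * (C.hti a : ℝ) := by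
  rcases a with i | β
  · simp [dg, hti]
  · simp only [dg, hti, Sum.elim_inr, C.pr_smul]
    congr 1
    simp [pr, ht]

theorem exists_opt (hn : 0 < n) (Γ : Subgroup (GL C.Idx F)) (hΓ : Γ ≠ ⊥) (g₀ : GL C.Idx F)
    (hg₀ : g₀ ∈ C.Gad F) (h : ∀ γ ∈ Γ, g₀⁻¹ * γ * g₀ ∈ (C.adS F).U 1) :
    ∃ g lam s, C.Opt Γ g lam s := by
  classical
  obtain ⟨c, hc, hc1⟩ := C.K3_unit hn
  -- the maximum for one set `Z`
  have hZ : ∀ Z : Set (C.Idx × C.Idx), Z.Nonempty → ∃ lam : Fin n → ℝ, ∃ s : ℝ, C.nrm lam = 1 ∧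
      (∀ p ∈ Z, s ≤ C.dg lam p.1 - C.dg lam p.2) ∧
      ∀ lam' s', C.nrm lam' = 1 → (∀ p ∈ Z, s' ≤ C.dg lam' p.1 - C.dg lam' p.2) → s' ≤ s := by
    intro Z hne
    have hne' : (Finset.univ.filter fun p => p ∈ Z).Nonempty := by
      obtain ⟨p, hp⟩ := hne
      exact ⟨p, by simpa using hp⟩
    set φ : (Fin n → ℝ) → ℝ := fun lam =>
      (Finset.univ.filter fun p => p ∈ Z).inf' hne' (fun p => C.dg lam p.1 - C.dg lam p.2) with hφ
    have hcont : Continuous φ := by
      apply Continuous.finset_inf'_apply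
      intro p _
      exact (C.K3_dg_cont p.1).sub (C.K3_dg_cont p.2)
    obtain ⟨lam, hlam, hmax⟩ := C.K3_compact.exists_isMaxOn ⟨_, hc1⟩ hcont.continuousOn
    refine ⟨lam, φ lam, hlam, ?_, ?_⟩
    · intro p hp
      exact Finset.inf'_le _ (by simpa using hp)
    · intro lam' s' h1 h2
      refine le_trans ?_ (hmax h1)
      apply Finset.le_inf'
      intro p hp
      exact h2 p (by simpa using hp)
  choose! L S hL using hZ
  obtain ⟨Z, ⟨g, hg, rfl⟩, hmax⟩ := Set.exists_max_image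
    {Z : Set (C.Idx × C.Idx) | ∃ g ∈ C.Gad F, C.K3_Z Γ g = Z} S (Set.toFinite _)
    ⟨_, g₀, hg₀, rfl⟩
  obtain ⟨h1, h2, h3⟩ := hL _ (C.K3_Z_ne Γ hΓ g)
  have hsp : C.Sp Γ g (L (C.K3_Z Γ g)) (S (C.K3_Z Γ g)) := (C.K3_Sp_iff Γ g _ _).mpr h2
  have hmax' : ∀ g' ∈ C.Gad F, ∀ lam' s', C.nrm lam' = 1 → C.Sp Γ g' lam' s' →
      s' ≤ S (C.K3_Z Γ g) := by
    intro g' hg' lam' s' hn' hs'
    refine le_trans ?_ (hmax _ ⟨g', hg', rfl⟩)
    exact (hL _ (C.K3_Z_ne Γ hΓ g')).2.2 lam' s' hn' ((C.K3_Sp_iff Γ g' _ _).mp hs')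
  have hpos : 0 < S (C.K3_Z Γ g) := by
    refine lt_of_lt_of_le hc (hmax' g₀ hg₀ _ c hc1 ?_)
    intro γ hγ a b hab
    have h4 := Fil_U (C := C) 1 le_rfl _ (h γ hγ)
    have h5 : C.hti b + 1 ≤ C.hti a := by
      by_contra h5
      exact hab (h4 a b (by omega))
    rw [C.K3_dg_const, C.K3_dg_const]
    have h6 : ((C.hti b : ℝ)) + 1 ≤ (C.hti a : ℝ) := by exact_mod_cast h5
    nlinarith
  obtain ⟨w, hw, hdom⟩ := C.exists_dom (L (C.K3_Z Γ g))
  obtain ⟨ν, hν, hacts⟩ := (C.adS F).exists_N w hw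
  refine ⟨g * ν⁻¹, C.wact w (L (C.K3_Z Γ g)), S (C.K3_Z Γ g), ?_, hdom, ?_, hpos, ?_, hmax'⟩
  · refine mul_mem hg (inv_mem ?_)
    rw [← C.gen_adS F]
    exact (C.adS F).N_le_gen hν
  · rw [C.nrm_wact w hw, h1]
  · rw [← C.Sp_N Γ (g * ν⁻¹) ν w hν hacts, inv_mul_cancel_right]
    exact hsp

end SLC

end Pool.Agent.H75.UL
end

section
/- module Pool.Agent.H75.UK.K4 -/
/-!
# Project UK, module K4: uniqueness of the optimal weight

`opt_unique`: Bruhat (`StSys.bruhat`, `gen_adS`): `g⁻¹ g' = b ν b'`, `b, b' ∈ U 1`, `ν ∈ N` acting by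
`w ∈ W` (`N_acts`, `N_mono`). By `Sp_P` (`FilR_U`) `Sp Γ (g b) lam s` and `Sp Γ (g' b'⁻¹) lam' s`,
`g' b'⁻¹ = (g b) ν`, so by `Sp_N` `Sp Γ (g b) (wact w lam') s`. With `mu = wact w lam'` and
`FilR_pair`: `Sp Γ (g b) (lam + mu) (2 s)`. `q := nrm (lam + mu) > 0` (`Sp` with `2 s > 0` and weight `0`
is impossible as `Γ ≠ ⊥`: all degrees would be `0`; `nrm v = 0` implies `v = 0`), scaling by `q^(-1/2)`
(`FilR_scale`, `nrm_smul`) and `max`: `2 s ≤ s * √q`, so `q ≥ 4`; `nrm_parallelogram`: `nrm (lam - mu) =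
4 - q ≤ 0`, so `lam = mu` (`sq_le_nrm`). Both `lam'` and `wact w lam' = lam` are dominant, so
`lam = lam'` (`dom_unique`). Finally `ν ∈ FilR lam 0`: `FilR_N` with `M = 1`... directly: by `N_mono` `ν`
maps `e_β` to a multiple of `e_{w β}`, `pr lam (w β) = pr (wact w⁻¹ lam) β = pr lam β`, since
`wact w⁻¹ lam = wact w⁻¹ (wact w lam') = lam' = lam`; the same for `ν⁻¹`. So
`g⁻¹ g' = b ν b' ∈ FilR lam 0`, and the same for the inverse.
`opt_normalizer`: `(z g, lam, s)` is optimal as `(z g)⁻¹ γ (z g) = g⁻¹ (z⁻¹ γ z) g`.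
`opt_sgl`: `(σ(g), lam ∘ ρ⁻¹, s)` is optimal: entries of `sgl θ M`:
`(sgl θ M) (ρ a) (ρ b) = ± θ (M a b)`, `dg (lam ∘ ρ⁻¹) (ρ a) = dg lam a`, `nrm` invariant (reindex by
`rE`), and every `γ' ∈ Γ` is `σ(γ)` with `γ ∈ Γ`; maximality is that of `(g, lam, s)`. So `lam ∘ ρ⁻¹ = lam`.
-/

set_option autoImplicit false
open Matrix
universe u
namespace Pool.Agent.H75.UL

namespace SLC
variable {n : ℕ} (C : SLC n) {F : Type*} [Field F]

private theorem K4_filN {lam : Fin n → ℝ} (ν : GL C.Idx F) (w : Equiv.Perm C.Root)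
    (hν : ν ∈ (C.adS F).N) (h : (C.adS F).Acts ν w) (hw : ∀ β, C.pr lam (w β) = C.pr lam β) :
    C.FilR lam 0 (ν : Matrix C.Idx C.Idx F) := by
  obtain ⟨-, h1, h2, h3, -⟩ := C.N_mono ν w h hν
  intro a b hab
  rcases a with i | γ'
  · rcases b with j | γ
    · simp [dg]
    · exact absurd (h1 i γ) hab
  · rcases b with j | γ
    · exact absurd (h2 j γ') hab
    · by_cases hγ : γ' = w γ
      · subst hγ
        simp only [dg, Sum.elim_inr, add_zero]
        exact (hw γ).ge
      · exact absurd (h3 γ γ' hγ) hab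

private theorem K4_eq_of_nrm {lam mu : Fin n → ℝ} (h : C.nrm (lam - mu) ≤ 0) : lam = mu := by
  funext i
  have h1 := C.sq_le_nrm (lam - mu) i
  have h2 : (lam - mu) i = 0 := by
    have h3 : (lam - mu) i ^ 2 ≤ 0 := h1.trans h
    exact pow_eq_zero_iff (two_ne_zero) |>.1 (le_antisymm h3 (sq_nonneg _))
  exact sub_eq_zero.1 h2

private theorem K4_U_le {g : GL C.Idx F} (hg : g ∈ (C.adS F).U 1) : g ∈ C.Gad F := by
  rw [← C.gen_adS]
  have hle : (C.adS F).U 1 ≤ (C.adS F).gen := by
    apply Subgroup.closure_mono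
    rintro x ⟨β, t, _, hx⟩
    exact ⟨β, t, hx⟩
  exact hle hg

private theorem K4_nrm_nonneg (lam : Fin n → ℝ) : 0 ≤ C.nrm lam :=
  Finset.sum_nonneg fun _ _ => sq_nonneg _

private theorem K4_pos_of_Sp {Γ : Subgroup (GL C.Idx F)} (hΓ : Γ ≠ ⊥) {g : GL C.Idx F}
    {lam : Fin n → ℝ} {s : ℝ} (hs : 0 < s) (h : C.Sp Γ g lam s) : 0 < C.nrm lam := by
  rcases (C.K4_nrm_nonneg lam).lt_or_eq with h1 | h1
  · exact h1
  exfalso
  apply hΓ
  have hlam : lam = 0 := by
    apply C.K4_eq_of_nrm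
    rw [sub_zero]
    exact h1.symm.le
  rw [Subgroup.eq_bot_iff_forall]
  intro γ hγ
  have hdg : ∀ a, C.dg (0 : Fin n → ℝ) a = 0 := by
    intro a
    rcases a with i | β
    · simp [dg]
    · simp [dg, pr]
  have h2 : ((g⁻¹ * γ * g : GL C.Idx F) : Matrix C.Idx C.Idx F) - 1 = 0 := by
    ext a b
    by_contra hne
    have h3 := h γ hγ a b (by simpa using hne)
    rw [hlam, hdg, hdg] at h3
    linarith
  have h3 : g⁻¹ * γ * g = 1 := by
    apply Units.ext
    rw [sub_eq_zero] at h2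
    rw [h2]
    rfl
  have h4 : γ = g * (g⁻¹ * γ * g) * g⁻¹ := by group
  rw [h4, h3]
  group

theorem opt_unique (Γ : Subgroup (GL C.Idx F)) (hΓ : Γ ≠ ⊥) (g g' : GL C.Idx F)
    (lam lam' : Fin n → ℝ) (s : ℝ) (h : C.Opt Γ g lam s) (h' : C.Opt Γ g' lam' s) :
    lam = lam' ∧ C.FilR lam 0 ((g⁻¹ * g' : GL C.Idx F) : Matrix C.Idx C.Idx F) := by
  obtain ⟨u, hu, ν, hν, v, hv, huv⟩ := (C.adS F).bruhat (g⁻¹ * g') (by
    rw [C.gen_adS]; exact mul_mem (inv_mem h.mem) h'.mem)
  obtain ⟨w, hw, hact, -⟩ := (C.adS F).N_acts ν hν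
  have h1 : C.Sp Γ (g * u) lam s := C.Sp_P Γ g u lam s (C.FilR_U h.dom u hu)
    (C.FilR_U h.dom u⁻¹ (inv_mem hu)) h.sp
  have h2 : C.Sp Γ (g' * v⁻¹) lam' s := C.Sp_P Γ g' v⁻¹ lam' s (C.FilR_U h'.dom v⁻¹ (inv_mem hv))
    (by rw [inv_inv]; exact C.FilR_U h'.dom v hv) h'.sp
  have h3 : g' * v⁻¹ = g * u * ν := by
    have h3' : g' = g * (g⁻¹ * g') := by group
    rw [h3', huv]
    group
  rw [h3] at h2
  have h4 : C.Sp Γ (g * u) (C.wact w lam') s := (C.Sp_N Γ (g * u) ν w hν hact lam' s).1 h2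
  have h5 : C.Sp Γ (g * u) (lam + C.wact w lam') (s + s) :=
    fun γ hγ => C.FilR_pair (h1 γ hγ) (h4 γ hγ)
  have hs := h.pos
  have hq : 0 < C.nrm (lam + C.wact w lam') := C.K4_pos_of_Sp hΓ (add_pos hs hs) h5
  have hnrmmu : C.nrm (C.wact w lam') = 1 := by rw [C.nrm_wact w hw, h'.nrm]
  have hpar := C.nrm_parallelogram lam (C.wact w lam')
  rw [h.nrm, hnrmmu] at hpar
  have hsq : 0 < Real.sqrt (C.nrm (lam + C.wact w lam')) := Real.sqrt_pos.2 hq
  have hsqsq : Real.sqrt (C.nrm (lam + C.wact w lam')) ^ 2 = C.nrm (lam + C.wact w lam') :=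
    Real.sq_sqrt hq.le
  have hgu : g * u ∈ C.Gad F := mul_mem h.mem (C.K4_U_le hu)
  have h6 := h.max (g * u) hgu ((Real.sqrt (C.nrm (lam + C.wact w lam')))⁻¹ •
    (lam + C.wact w lam')) ((Real.sqrt (C.nrm (lam + C.wact w lam')))⁻¹ * (s + s)) (by
      rw [C.nrm_smul, inv_pow, hsqsq, inv_mul_cancel₀ hq.ne']) (fun γ hγ =>
        C.FilR_scale (inv_nonneg.2 hsq.le) (h5 γ hγ))
  have h7 : s + s ≤ Real.sqrt (C.nrm (lam + C.wact w lam')) * s := by
    rwa [inv_mul_le_iff₀ hsq] at h6
  have h8 : 2 ≤ Real.sqrt (C.nrm (lam + C.wact w lam')) := by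
    by_contra hlt
    push Not at hlt
    nlinarith
  have h9 : 4 ≤ C.nrm (lam + C.wact w lam') := by
    rw [← hsqsq]
    nlinarith
  have h10 : lam = C.wact w lam' := C.K4_eq_of_nrm (by linarith)
  have h11 : C.wact w lam' = lam' := C.dom_unique h'.dom w hw (by rw [← h10]; exact h.dom)
  have h12 : lam = lam' := h10.trans h11
  refine ⟨h12, ?_⟩
  subst h12
  have h13 : ∀ β, C.pr lam (w⁻¹ β) = C.pr lam β := by
    intro β
    have := C.pr_wact w hw lam β
    rw [h11] at this
    exact this.symm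
  have h14 : ∀ β, C.pr lam (w β) = C.pr lam β := by
    intro β
    rw [← h13 (w β), ← Equiv.Perm.mul_apply, inv_mul_cancel, Equiv.Perm.one_apply]
  rw [huv, Units.val_mul, Units.val_mul]
  have h15 := C.FilR_mul (C.FilR_mul (C.FilR_U h.dom u hu) (C.K4_filN ν w hν hact h14))
    (C.FilR_U h.dom v hv)
  simpa using h15

theorem opt_normalizer (Γ : Subgroup (GL C.Idx F)) (hΓ : Γ ≠ ⊥) (g : GL C.Idx F)
    (lam : Fin n → ℝ) (s : ℝ) (h : C.Opt Γ g lam s) (z : GL C.Idx F) (hz : z ∈ C.Gad F)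
    (hzΓ : ∀ γ ∈ Γ, z⁻¹ * γ * z ∈ Γ) :
    C.FilR lam 0 ((g⁻¹ * z * g : GL C.Idx F) : Matrix C.Idx C.Idx F) := by
  have h1 : C.Opt Γ (z * g) lam s := by
    refine ⟨mul_mem hz h.mem, h.dom, h.nrm, h.pos, fun γ hγ => ?_, h.max⟩
    have h2 := h.sp (z⁻¹ * γ * z) (hzΓ γ hγ)
    rwa [show (z * g)⁻¹ * γ * (z * g) = g⁻¹ * (z⁻¹ * γ * z) * g by group]
  have h2 := (C.opt_unique Γ hΓ g (z * g) lam lam s h h1).2
  rwa [← mul_assoc] at h2

end SLC

end Pool.Agent.H75.UL
end

section
/- module Pool.Agent.H75.UK.K6 -/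
/-!
# Project UK, module K6: leading parts

`lam` dominant, `0 < m`, `γ ∈ Gad`, `γ - 1 ∈ FilR lam m`.
(2) `gr_mem`: let `𝒟 = {γ ∈ U 1 | γ - 1 ∈ FilR lam m}`, a subgroup. Claim: `γ ∈ 𝒟` is a product of
elements `x_β(t)`, `β > 0`, `pr lam β ≥ m`. Downward induction on `h` where `γ ∈ U h` (`exists_U_eq_bot`,
`mem_U_of_Fil`): `γ = lp t * γ'`, `t` supported in height `h`, `γ' ∈ U (h+1)` (`exists_layer`). The entries
of `γ - 1` at `(inl i, inr (-β))`, `ht β = h`, are `-(t β) β_i` (`lp_entry` for the full coordinates of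
`γ`), and `pr lam β = dg (inl i) - dg (inr (-β))`; so if `pr lam β < m` then `t β β_i = 0` for all `i`,
`t β = 0` (`exists_coeff_ne_zero` in R5). So `lp t ∈ 𝒟` (`FilR_xg`) and `γ' ∈ 𝒟`. Now `γ ↦ gr m (γ - 1)` is
additive on `𝒟` (`γγ' - 1 = (γ-1) + (γ'-1) + (γ-1)(γ'-1)`, the last term is in `FilR lam (2m)`), and on
`x_β(t)` it is `t • E β` if `pr lam β = m` (`gr_xg`) and `0` if `pr lam β > m`.
`gr_conj`: `p (γ - 1) p⁻¹ = p γ p⁻¹ - 1`, `gr_mul` twice.
`exists_max_deg`: among the finitely many differences `dg a - dg b` of entries `(a, b)` at which some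
`M ∈ X` is not zero, take the smallest as `m'`.
-/

set_option autoImplicit false
open Matrix
universe u
namespace Pool.Agent.H75.UL

namespace SLC
variable {n : ℕ} (C : SLC n) {F : Type*} [Field F]

/-! auxiliary facts -/

private theorem K6_gr_add (lam : Fin n → ℝ) (m : ℝ) (M N : Matrix C.Idx C.Idx F) :
    C.gr lam m (M + N) = C.gr lam m M + C.gr lam m N := by
  ext a b
  simp only [gr, Matrix.add_apply]
  split_ifs
  · rfl
  · rw [add_zero]

private theorem K6_gr_zero_of (lam : Fin n → ℝ) (m s : ℝ) (hs : m < s) (M : Matrix C.Idx C.Idx F)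
    (h : C.FilR lam s M) : C.gr lam m M = 0 := by
  ext a b
  simp only [gr, Matrix.zero_apply]
  split_ifs with h1
  · by_contra h2
    have := h a b h2
    linarith
  · rfl

private theorem K6_mul_sub (A B : Matrix C.Idx C.Idx F) :
    A * B - 1 = ((A - 1) + (B - 1)) + (A - 1) * (B - 1) := by
  rw [sub_mul, mul_sub, mul_one, one_mul]
  abel

theorem gr_prod (lam : Fin n → ℝ) (m : ℝ) (hm : 0 < m) (γ γ' : GL C.Idx F)
    (h : C.FilR lam m ((γ : Matrix C.Idx C.Idx F) - 1))
    (h' : C.FilR lam m ((γ' : Matrix C.Idx C.Idx F) - 1)) :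
    C.FilR lam m (((γ * γ' : GL C.Idx F) : Matrix C.Idx C.Idx F) - 1) ∧
    C.gr lam m (((γ * γ' : GL C.Idx F) : Matrix C.Idx C.Idx F) - 1) =
      C.gr lam m ((γ : Matrix C.Idx C.Idx F) - 1) +
        C.gr lam m ((γ' : Matrix C.Idx C.Idx F) - 1) := by
  have h2 := C.FilR_mul h h'
  rw [Units.val_mul, K6_mul_sub]
  constructor
  · exact C.FilR_add (C.FilR_add h h') (C.FilR_mono (by linarith) h2)
  · rw [K6_gr_add, K6_gr_add, C.K6_gr_zero_of lam m (m + m) (by linarith) _ h2, add_zero]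

theorem gr_conj (lam : Fin n → ℝ) (m : ℝ) (p γ : GL C.Idx F)
    (hp : C.FilR lam 0 (p : Matrix C.Idx C.Idx F))
    (hp' : C.FilR lam 0 ((p⁻¹ : GL C.Idx F) : Matrix C.Idx C.Idx F))
    (h : C.FilR lam m ((γ : Matrix C.Idx C.Idx F) - 1)) :
    C.FilR lam m (((p * γ * p⁻¹ : GL C.Idx F) : Matrix C.Idx C.Idx F) - 1) ∧
    C.gr lam m (((p * γ * p⁻¹ : GL C.Idx F) : Matrix C.Idx C.Idx F) - 1) =
      C.gr lam 0 (p : Matrix C.Idx C.Idx F) * C.gr lam m ((γ : Matrix C.Idx C.Idx F) - 1) *
        C.gr lam 0 ((p⁻¹ : GL C.Idx F) : Matrix C.Idx C.Idx F) := by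
  have h1 : (p : Matrix C.Idx C.Idx F) * ((p⁻¹ : GL C.Idx F) : Matrix C.Idx C.Idx F) = 1 := by
    rw [← Units.val_mul, mul_inv_cancel, Units.val_one]
  have h2 : ((p * γ * p⁻¹ : GL C.Idx F) : Matrix C.Idx C.Idx F) - 1 =
      (p : Matrix C.Idx C.Idx F) * ((γ : Matrix C.Idx C.Idx F) - 1) *
        ((p⁻¹ : GL C.Idx F) : Matrix C.Idx C.Idx F) := by
    rw [mul_sub, sub_mul, mul_one, h1, Units.val_mul, Units.val_mul]
  have h3 := C.FilR_mul hp h
  have h4 := C.FilR_mul h3 hp'
  have h5 := C.gr_mul h3 hp'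
  have h6 := C.gr_mul hp h
  rw [h6] at h5
  simp only [zero_add, add_zero] at h4 h5
  rw [h2]
  exact ⟨h4, h5⟩

private theorem K6_xg (lam : Fin n → ℝ) (m : ℝ) (hm : 0 < m) (β : C.Root) (t : F)
    (h : t = 0 ∨ m ≤ C.pr lam β) :
    C.FilR lam m ((C.xg F β t : Matrix C.Idx C.Idx F) - 1) ∧
    C.gr lam m ((C.xg F β t : Matrix C.Idx C.Idx F) - 1) ∈
      Submodule.span F {M | ∃ β : C.Root, C.pr lam β = m ∧
        M = (C.E β).map (Int.cast : ℤ → F)} := by
  rcases h with rfl | h
  · have h1 : (C.xg F β 0 : Matrix C.Idx C.Idx F) - 1 = 0 := by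
      change C.X F β 0 - 1 = 0
      rw [X_zero, sub_self]
    rw [h1]
    refine ⟨C.FilR_zero, ?_⟩
    rw [C.K6_gr_zero_of lam m (m + 1) (by linarith) _ C.FilR_zero]
    exact Submodule.zero_mem _
  · refine ⟨C.FilR_xg hm.le β h t, ?_⟩
    rcases h.eq_or_lt with h1 | h1
    · have h2 := C.gr_xg (lam := lam) β (h1 ▸ hm) t
      rw [← h1] at h2
      rw [h2]
      exact Submodule.smul_mem _ _ (Submodule.subset_span ⟨β, h1.symm, rfl⟩)
    · rw [C.K6_gr_zero_of lam m (C.pr lam β) h1 _ (C.FilR_xg (by linarith) β le_rfl t)]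
      exact Submodule.zero_mem _

private theorem K6_lp (lam : Fin n → ℝ) (m : ℝ) (hm : 0 < m) (t : C.Root → F) (l : List C.Root)
    (h : ∀ β ∈ l, t β = 0 ∨ m ≤ C.pr lam β) :
    C.FilR lam m (((C.adS F).lp l t : Matrix C.Idx C.Idx F) - 1) ∧
    C.gr lam m (((C.adS F).lp l t : Matrix C.Idx C.Idx F) - 1) ∈
      Submodule.span F {M | ∃ β : C.Root, C.pr lam β = m ∧
        M = (C.E β).map (Int.cast : ℤ → F)} := by
  induction l with
  | nil =>
    have h1 : (((C.adS F).lp [] t : GL C.Idx F) : Matrix C.Idx C.Idx F) - 1 = 0 := by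
      simp [StSys.lp]
    rw [h1]
    refine ⟨C.FilR_zero, ?_⟩
    rw [C.K6_gr_zero_of lam m (m + 1) (by linarith) _ C.FilR_zero]
    exact Submodule.zero_mem _
  | cons β l ih =>
    obtain ⟨h1, h2⟩ := ih fun γ hγ => h γ (List.mem_cons_of_mem _ hγ)
    obtain ⟨h3, h4⟩ := C.K6_xg lam m hm β (t β) (h β List.mem_cons_self)
    have e2 : (C.adS F).lp (β :: l) t = C.xg F β (t β) * (C.adS F).lp l t := by
      simp [StSys.lp]
    obtain ⟨h5, h6⟩ := C.gr_prod lam m hm _ _ h3 h1
    rw [e2]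
    refine ⟨h5, ?_⟩
    rw [h6]
    exact Submodule.add_mem _ h4 h2

private theorem K6_coord (lam : Fin n → ℝ) (hd : ∀ i, 0 ≤ lam i) (m : ℝ) (hm : 0 < m)
    (t : C.Root → F)
    (h : C.FilR lam m (((C.adS F).lp C.posList t : Matrix C.Idx C.Idx F) - 1)) (β : C.Root)
    (hβ : C.Pos β) : t β = 0 ∨ m ≤ C.pr lam β := by
  have main : ∀ k : ℕ, ∀ β : C.Root, C.Pos β → (ht β.1).toNat = k →
      t β = 0 ∨ m ≤ C.pr lam β := by
    intro k
    induction k using Nat.strong_induction_on with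
    | _ k ih =>
      intro β hβ hk
      have hp : 0 < ht β.1 := hβ
      by_contra hcon
      push Not at hcon
      obtain ⟨hne, hlt⟩ := hcon
      set A := (C.adS F).lp C.posList (fun γ => if ht γ.1 ≤ ht β.1 - 1 then t γ else 0) with hA
      set B := (C.adS F).lp C.posList (fun γ => if ht γ.1 ≤ ht β.1 - 1 then 0 else t γ) with hB
      have e1 : (C.adS F).lp C.posList t = A * B := StSys.lp_split _ (ht β.1 - 1) t
      have hAF : C.FilR lam m ((A : Matrix C.Idx C.Idx F) - 1) := by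
        refine (C.K6_lp lam m hm _ C.posList ?_).1
        intro γ hγ
        have h3 : C.Pos γ := (C.mem_posList γ).mp hγ
        have h4 : 0 < ht γ.1 := h3
        by_cases h2 : ht γ.1 ≤ ht β.1 - 1
        · rw [if_pos h2]
          exact ih (ht γ.1).toNat (by omega) γ h3 rfl
        · rw [if_neg h2]
          exact Or.inl rfl
      have hAU : A ∈ (C.adS F).U 1 := by
        have h2 : A = (C.adS F).lp C.posList
            (fun γ => if ht γ.1 < 1 then 0 else if ht γ.1 ≤ ht β.1 - 1 then t γ else 0) := by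
          apply StSys.lp_congr
          intro γ hγ
          have h3 : C.Pos γ := (C.mem_posList γ).mp hγ
          have h4 : 0 < ht γ.1 := h3
          rw [if_neg (show ¬ ht γ.1 < 1 by omega)]
        rw [h2]
        apply StSys.lp_mem
        intro γ hγ
        rw [if_pos hγ]
      have hAi : C.FilR lam 0 ((A⁻¹ : GL C.Idx F) : Matrix C.Idx C.Idx F) :=
        C.FilR_U hd _ (inv_mem hAU)
      have hBF : C.FilR lam m ((B : Matrix C.Idx C.Idx F) - 1) := by
        have h2 : (B : Matrix C.Idx C.Idx F) - 1 = ((A⁻¹ : GL C.Idx F) : Matrix C.Idx C.Idx F) *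
            ((((C.adS F).lp C.posList t : GL C.Idx F) : Matrix C.Idx C.Idx F) - 1 -
              ((A : Matrix C.Idx C.Idx F) - 1)) := by
          rw [e1, Units.val_mul, sub_sub_sub_cancel_right, mul_sub, ← mul_assoc,
            ← Units.val_mul, inv_mul_cancel, Units.val_one, one_mul]
        rw [h2]
        have h3 := C.FilR_mul hAi (C.FilR_sub h hAF)
        rwa [zero_add] at h3
      obtain ⟨i, hi⟩ := C.exists_coeff_ne_zero β F
      have h7 := C.lp_entry (fun γ => if ht γ.1 ≤ ht β.1 - 1 then 0 else t γ) (ht β.1) (by omega)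
        (fun γ hγ => if_pos (by omega)) β rfl i
      rw [← hB] at h7
      simp only [if_neg (show ¬ (ht β.1 ≤ ht β.1 - 1) by omega)] at h7
      have h8 : ((B : Matrix C.Idx C.Idx F) - 1) (Sum.inl i) (Sum.inr (-β)) ≠ 0 := by
        rw [Matrix.sub_apply, Matrix.one_apply_ne (by simp), sub_zero, h7]
        exact neg_ne_zero.mpr (mul_ne_zero hne hi)
      have h9 := hBF _ _ h8
      simp only [dg, Sum.elim_inl, Sum.elim_inr, C.pr_neg] at h9
      linarith
  exact main _ β hβ rfl

theorem gr_mem (lam : Fin n → ℝ) (hd : ∀ i, 0 ≤ lam i) (m : ℝ) (hm : 0 < m)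
    (γ : GL C.Idx F) (hγ : γ ∈ C.Gad F)
    (h : C.FilR lam m ((γ : Matrix C.Idx C.Idx F) - 1)) :
    C.gr lam m ((γ : Matrix C.Idx C.Idx F) - 1) ∈
      Submodule.span F {M | ∃ β : C.Root, C.pr lam β = m ∧
        M = (C.E β).map (Int.cast : ℤ → F)} := by
  have hU := C.mem_U_of_FilR lam hd m hm γ hγ h
  obtain ⟨t, -, rfl⟩ := (C.adS F).exists_lp 1 le_rfl γ hU
  refine (C.K6_lp lam m hm t C.posList ?_).2
  intro β hβ
  exact C.K6_coord lam hd m hm t h β ((C.mem_posList β).mp hβ)

/-- A set of matrices in `FilR lam m` (with `m > 0`), not all zero, has a maximal degree. -/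
theorem exists_max_deg (lam : Fin n → ℝ) (m : ℝ) (X : Set (Matrix C.Idx C.Idx F))
    (h : ∀ M ∈ X, C.FilR lam m M) (hne : ∃ M ∈ X, M ≠ 0) :
    ∃ m', m ≤ m' ∧ (∀ M ∈ X, C.FilR lam m' M) ∧ ∃ M ∈ X, C.gr lam m' M ≠ 0 := by
  classical
  obtain ⟨M₀, hM₀, hne⟩ := hne
  have h1 : ∃ a b, M₀ a b ≠ 0 := by
    by_contra hcon
    push Not at hcon
    exact hne (by ext a b; exact hcon a b)
  obtain ⟨a₀, b₀, hab⟩ := h1
  obtain ⟨⟨a, b⟩, ⟨M, hM, hMab⟩, hmin⟩ := Set.exists_min_image
    {p : C.Idx × C.Idx | ∃ M ∈ X, M p.1 p.2 ≠ 0} (fun p => C.dg lam p.1 - C.dg lam p.2)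
    (Set.toFinite _) ⟨(a₀, b₀), M₀, hM₀, hab⟩
  refine ⟨C.dg lam a - C.dg lam b, ?_, ?_, M, hM, ?_⟩
  · have := h M hM a b hMab
    linarith
  · intro M' hM' a' b' hab'
    have := hmin (a', b') ⟨M', hM', hab'⟩
    simp only at this
    linarith
  · intro h0
    have h2 := congrFun (congrFun h0 a) b
    simp only [gr, Matrix.zero_apply] at h2
    rw [if_pos (by ring)] at h2
    exact hMab h2

end SLC

end Pool.Agent.H75.UL
end
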