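import Pool.Agent.H86.AL.M09
import Pool.Agent.H86.AL.M10

/-!
# M11: collected modules

Pool.Agent.H86.UM.Env
Pool.Agent.H86.UM.FX
Pool.Agent.H86.UM.SR
Pool.Agent.H86.UM.GEN
-/

section
/- module Pool.Agent.H86.UM.Env -/
/-!
# Project UM: the source groups `Eg S s`, environment

`Env D θ S s p`: `S` is a Steinberg system in `H` over the infinite field `k`, `s` acts as `σ`
(`IsSig`), `p` is the adjoint representation. `Z β` is the group of the root elements of `β + ρ β`
(trivial if this is not a root), `yb β t` the product of the elements `s^l (x_β(t))`.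
-/

set_option autoImplicit false
open Matrix

namespace Pool.Agent.H86.UM

open Pool.Agent.H75.UL

variable {n : ℕ} {C : SLC n}

/-- The data of a twisted or folded group. -/
structure Env (D : Dg C) {k : Type*} [Field k] (θ : k ≃+* k) {H : Type*} [Group H]
    (S : StSys C k H) (s : H →* H) (p : H →* GL C.Idx k) : Prop where
  inf : Infinite k
  sig : IsSig D θ S s
  hp : ∀ β t, p (S.x β t) = C.xg k β t
  hθ : ∀ t, (⇑θ)^[D.m] t = t
  hA : D.NA ∨ ∃ e, e ≠ 0 ∧ θ e = -e
  hB : D.NA ∨ ∀ z, θ z = z → ∃ v, v + θ v = z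
  hC : D.NA ∨ ∀ v, v + θ v = 0 → ∃ t, v = t - θ t

/-- The fixed field of `θ`. -/
def fixF {k : Type*} [Field k] (θ : k ≃+* k) : Subfield k where
  carrier := {t | θ t = t}
  mul_mem' := by
    intro a b ha hb
    simp only [Set.mem_setOf_eq] at *
    rw [map_mul, ha, hb]
  one_mem' := map_one θ
  add_mem' := by
    intro a b ha hb
    simp only [Set.mem_setOf_eq] at *
    rw [map_add, ha, hb]
  zero_mem' := map_zero θ
  neg_mem' := by
    intro a ha
    simp only [Set.mem_setOf_eq] at *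
    rw [map_neg, ha]
  inv_mem' := by
    intro a ha
    simp only [Set.mem_setOf_eq] at *
    rw [map_inv₀, ha]

theorem mem_fixF {k : Type*} [Field k] (θ : k ≃+* k) (t : k) : t ∈ fixF θ ↔ θ t = t := Iff.rfl

open Classical in
/-- The number of roots in the orbit of `β`. -/
noncomputable def mo (D : Dg C) (β : C.Root) : ℕ := if D.r β = β then 1 else D.m

/-- The root elements of `β + ρ β`. -/
def ZZ (D : Dg C) {k : Type*} [Field k] {H : Type*} [Group H] (S : StSys C k H) (β : C.Root) :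
    Subgroup H := Subgroup.closure {g | ∃ γ v, γ.1 = β.1 + (D.r β).1 ∧ g = S.x γ v}

/-- The product of the elements `s^l (x_β(t))` over the orbit of `β`. -/
noncomputable def yb (D : Dg C) {k : Type*} [Field k] {H : Type*} [Group H] (S : StSys C k H)
    (s : H →* H) (β : C.Root) (t : k) : H :=
  ((List.range (mo D β)).map fun l => s^[l] (S.x β t)).prod

end Pool.Agent.H86.UM
end

section
/- module Pool.Agent.H86.UM.FX -/
/-!
# Project UM, module FX: the elements of `fixX`

`β` a positive root (so that `Inj` can be used; `inj_of_map`). The orbit of `β` is `{β}`, or orthogonal with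
`m` elements, or `m = 2` and `ip β (r β) = -1` (`ip_r`, `ip_orb`, `r_iter_eq`); `γ = β + r β` is a root only in
the last case, `r γ = γ`, `sg γ = -1` (`sg_adj`).
`fixX_form`: an element of `XO β` is a product `x_β(t₀) x_(rβ)(t₁) ... z` (the root elements of `XO β` commute
modulo `ZZ β`, and `ZZ β` is central in `XO β`: `comm`, `comm_add`); if it is fixed by `s` then comparing
coordinates (`Inj`; the product over the orbit can be written as `lp posList`, see D3.lean) gives
`t_(l+1) = sg (r^l β) θ t_l`, so the element is `yb β t₀ * z` (`iter`).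
`fixX_exists`: orthogonal: `yb β t` is fixed by `s` (`iter_m`, `prod_x_mem` has the same proof);
adjacent: see the header of D3.lean: `s (yb β t * x_γ v) = yb β t * x_γ v` iff
`v + θ v = - eps β (r β) * sg β * t * θ t`, and the right side is fixed by `θ` (`hB`).
`fixX_coord`: if `yb β t * z = yb β t' * z'` with `z, z' ∈ ZZ β` then `t = t'` (`Inj`).
`fixX_simple`: for `β = simple i`: `xi i (p (yb β t * z)) = t`, and more generally
`xi (ρ^l i) (p x) = θ^l t`, all other `xi j` are `0` (`xi_xg`, `xi_mul`; `ZZ` has height 2).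
`supp_XO`: a positive root supported on the orbit of `i` is in `XO`: see `wJ_neg` in D5.lean.
-/

set_option autoImplicit false
open Matrix

namespace Pool.Agent.H86.UM

open Pool.Agent.H75.UL

variable {n : ℕ} {C : SLC n} {D : Dg C} {k : Type*} [Field k] {θ : k ≃+* k} {H : Type*} [Group H]
  {S : StSys C k H} {s : H →* H} {p : H →* GL C.Idx k}

private theorem FX_mem (S : StSys C k H) (m : ℤ) (β : C.Root) (t : k) (h : m ≤ ht β.1) :
    S.x β t ∈ S.U m := Subgroup.subset_closure ⟨β, t, h, rfl⟩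

private theorem FX_mono (S : StSys C k H) {m k : ℤ} (h : m ≤ k) : S.U k ≤ S.U m := by
  unfold StSys.U
  apply Subgroup.closure_mono
  rintro g ⟨β, t, hβ, rfl⟩
  exact ⟨β, t, h.trans hβ, rfl⟩

private theorem FX_conj' (S : StSys C k H) (m : ℤ) (hm : 1 ≤ m) (g u : H) (hg : g ∈ S.U 1)
    (hu : u ∈ S.U m) : g⁻¹ * u * g ∈ S.U m := by
  have := S.U_conj m hm g⁻¹ u (inv_mem hg) hu
  rwa [inv_inv] at this

private theorem FX_cons (S : StSys C k H) (β : C.Root) (l : List C.Root) (t : C.Root → k) :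
    S.lp (β :: l) t = S.x β (t β) * S.lp l t := by
  unfold StSys.lp
  rw [List.map_cons, List.prod_cons]

private theorem FX_single (S : StSys C k H) (β : C.Root) (s : k) (l : List C.Root) (hl : l.Nodup)
    (hβ : β ∈ l) : S.lp l (fun γ => if γ = β then s else 0) = S.x β s := by
  induction l with
  | nil => simp at hβ
  | cons γ l ih =>
    rw [FX_cons]
    rw [List.nodup_cons] at hl
    by_cases h : γ = β
    · subst h
      rw [S.lp_zero l, if_pos rfl, mul_one]
      intro δ hδ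
      rw [if_neg]
      rintro rfl
      exact hl.1 hδ
    · rw [if_neg h, S.x_zero, one_mul]
      refine ih hl.2 ?_
      rw [List.mem_cons] at hβ
      rcases hβ with rfl | hβ
      · exact absurd rfl h
      · exact hβ

private theorem FX_iter_ht (D : Dg C) (l : ℕ) (β : C.Root) : ht (D.r^[l] β).1 = ht β.1 := by
  induction l with
  | zero => rfl
  | succ l ih => rw [Function.iterate_succ_apply', D.r_ht, ih]

/-- `g` has the coordinates `t` in height `m`. -/
private def FXR (S : StSys C k H) (m : ℤ) (g : H) (t : C.Root → k) : Prop :=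
  (∀ β, ht β.1 ≠ m → t β = 0) ∧ ∃ u' ∈ S.U (m + 1), g = S.lp C.posList t * u'

private theorem FX_lp_mem1 (S : StSys C k H) (m : ℤ) (hm : 1 ≤ m) (t : C.Root → k)
    (h : ∀ β, ht β.1 ≠ m → t β = 0) : S.lp C.posList t ∈ S.U 1 :=
  S.lp_mem 1 t fun β hβ => h β (by omega)

private theorem FX_R_one (S : StSys C k H) (m : ℤ) (g : H) (hg : g ∈ S.U (m + 1)) :
    FXR S m g (fun _ => 0) :=
  ⟨fun _ _ => rfl, g, hg, by rw [S.lp_zero _ _ (fun _ _ => rfl), one_mul]⟩

private theorem FX_R_single (S : StSys C k H) (m : ℤ) (hm : 1 ≤ m) (β : C.Root) (hβ : ht β.1 = m)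
    (a : k) : FXR S m (S.x β a) (fun γ => if γ = β then a else 0) := by
  refine ⟨fun γ hγ => if_neg ?_, 1, one_mem _, ?_⟩
  · rintro rfl
    exact hγ hβ
  · rw [FX_single S β a C.posList C.posList_nodup, mul_one]
    rw [C.mem_posList]
    unfold SLC.Pos
    omega

private theorem FX_R_mul (S : StSys C k H) (m : ℤ) (hm : 1 ≤ m) {g g' : H} {t t' : C.Root → k}
    (h : FXR S m g t) (h' : FXR S m g' t') : FXR S m (g * g') (fun β => t β + t' β) := by
  obtain ⟨h0, u, hu, rfl⟩ := h
  obtain ⟨h0', u', hu', rfl⟩ := h'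
  obtain ⟨u'', hu'', h3⟩ := S.lp_add_layer m hm t t' h0 h0'
  refine ⟨fun β hβ => by simp only [h0 β hβ, h0' β hβ, add_zero],
    u''⁻¹ * (((S.lp C.posList t')⁻¹ * u * S.lp C.posList t') * u'), ?_, ?_⟩
  · refine mul_mem (inv_mem hu'') (mul_mem ?_ hu')
    exact FX_conj' S (m + 1) (by omega) _ _ (FX_lp_mem1 S m hm t' h0') hu
  · rw [h3]
    group

private theorem FX_R_unique (S : StSys C k H) (hI : S.Inj) (m : ℤ) (hm : 1 ≤ m) {g : H}
    {t t' : C.Root → k} (h : FXR S m g t) (h' : FXR S m g t') : t = t' := by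
  obtain ⟨h0, u, hu, hg⟩ := h
  obtain ⟨h0', u', hu', hg'⟩ := h'
  obtain ⟨t1, ht1, rfl⟩ := S.exists_lp (m + 1) (by omega) u hu
  obtain ⟨t2, ht2, rfl⟩ := S.exists_lp (m + 1) (by omega) u' hu'
  have key : ∀ (a b : C.Root → k), (∀ β, ht β.1 ≠ m → a β = 0) → (∀ β, ht β.1 < m + 1 → b β = 0) →
      S.lp C.posList a * S.lp C.posList b =
        S.lp C.posList (fun β => if ht β.1 ≤ m then a β else b β) := by
    intro a b ha hb
    rw [S.lp_split m (fun β => if ht β.1 ≤ m then a β else b β)]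
    congr 1
    · apply S.lp_congr
      intro β _
      by_cases hβ : ht β.1 ≤ m
      · simp only [if_pos hβ]
      · simp only [if_neg hβ]
        exact ha β (by omega)
    · apply S.lp_congr
      intro β _
      by_cases hβ : ht β.1 ≤ m
      · simp only [if_pos hβ]
        exact hb β (by omega)
      · simp only [if_neg hβ]
  rw [hg, key t t1 h0 ht1, key t' t2 h0' ht2] at hg'
  have h4 := hI _ _ hg'
  funext β
  by_cases hβ : ht β.1 = m
  · have h5 := h4 β (by unfold SLC.Pos; omega)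
    simpa only [if_pos hβ.le] using h5
  · rw [h0 β hβ, h0' β hβ]

private theorem FX_R_congr_mem (S : StSys C k H) (m : ℤ) {g g' : H} {t : C.Root → k}
    (h : FXR S m g t) (h' : FXR S m g' t) : g⁻¹ * g' ∈ S.U (m + 1) := by
  obtain ⟨-, u, hu, rfl⟩ := h
  obtain ⟨-, u', hu', rfl⟩ := h'
  have e : (S.lp C.posList t * u)⁻¹ * (S.lp C.posList t * u') = u⁻¹ * u' := by group
  rw [e]
  exact mul_mem (inv_mem hu) hu'

private theorem FX_R_map_lp (S : StSys C k H) (h : IsSig D θ S s) (m : ℤ) (hm : 1 ≤ m)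
    (t : C.Root → k) (h0 : ∀ β, ht β.1 ≠ m → t β = 0) (l : List C.Root) (hl : l.Nodup) :
    ∃ T : C.Root → k, FXR S m (s (S.lp l t)) T ∧
      (∀ β ∈ l, T (D.r β) = (D.sg β : k) * θ (t β)) ∧ (∀ β, β ∉ l → T (D.r β) = 0) := by
  induction l with
  | nil =>
    refine ⟨fun _ => 0, ?_, by simp, by simp⟩
    have : S.lp ([] : List C.Root) t = 1 := by simp [StSys.lp]
    rw [this, _root_.map_one]
    exact FX_R_one S m 1 (one_mem _)
  | cons β l ih =>
    rw [List.nodup_cons] at hl
    obtain ⟨T, hT, hT1, hT2⟩ := ih hl.2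
    rw [FX_cons, _root_.map_mul, h β (t β)]
    have hb : FXR S m (S.x (D.r β) ((D.sg β : k) * θ (t β)))
        (fun γ => if γ = D.r β then (D.sg β : k) * θ (t β) else 0) := by
      by_cases hβ : ht β.1 = m
      · exact FX_R_single S m hm (D.r β) (by rw [D.r_ht, hβ]) _
      · rw [h0 β hβ, _root_.map_zero, mul_zero, S.x_zero]
        have : (fun γ : C.Root => if γ = D.r β then (0 : k) else 0) = fun _ => 0 := by
          funext γ
          simp
        rw [this]
        exact FX_R_one S m 1 (one_mem _)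
    refine ⟨_, FX_R_mul S m hm hb hT, fun γ hγ => ?_, fun γ hγ => ?_⟩
    · rw [List.mem_cons] at hγ
      by_cases h1 : γ = β
      · subst h1
        simp only [if_true]
        rw [hT2 γ hl.1, add_zero]
      · have h2 : γ ∈ l := by
          rcases hγ with h3 | h3
          · exact absurd h3 h1
          · exact h3
        have h3 : ¬ D.r γ = D.r β := fun h4 => h1 (D.r_injective h4)
        simp only [if_neg h3, zero_add]
        exact hT1 γ h2
    · rw [List.mem_cons, not_or] at hγ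
      have h3 : ¬ D.r γ = D.r β := fun h4 => hγ.1 (D.r_injective h4)
      simp only [if_neg h3, zero_add]
      exact hT2 γ hγ.2

private theorem FX_R_map (S : StSys C k H) (h : IsSig D θ S s) (m : ℤ) (hm : 1 ≤ m) {g : H}
    {t : C.Root → k} (hg : FXR S m g t) :
    ∃ T : C.Root → k, FXR S m (s g) T ∧ ∀ β, T (D.r β) = (D.sg β : k) * θ (t β) := by
  obtain ⟨h0, u, hu, rfl⟩ := hg
  obtain ⟨T, hT, hT1, hT2⟩ := FX_R_map_lp S h m hm t h0 C.posList C.posList_nodup
  refine ⟨T, ?_, fun β => ?_⟩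
  · obtain ⟨h3, u', hu', h4⟩ := hT
    refine ⟨h3, u' * s u, mul_mem hu' (h.map_U (m + 1) u hu), ?_⟩
    rw [_root_.map_mul, h4, mul_assoc]
  · by_cases hβ : β ∈ C.posList
    · exact hT1 β hβ
    · rw [hT2 β hβ, h0 β, _root_.map_zero, mul_zero]
      rw [C.mem_posList] at hβ
      unfold SLC.Pos at hβ
      omega

/-- A fixed element has coordinates compatible with `σ`. -/
private theorem FX_R_fixed (S : StSys C k H) (hI : S.Inj) (h : IsSig D θ S s) (m : ℤ) (hm : 1 ≤ m)
    {g : H} {t : C.Root → k} (hg : FXR S m g t) (hs : s g = g) (β : C.Root) :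
    t (D.r β) = (D.sg β : k) * θ (t β) := by
  obtain ⟨T, hT, hT1⟩ := FX_R_map S h m hm hg
  rw [hs] at hT
  rw [FX_R_unique S hI m hm hg hT]
  rw [hT1 β, ← FX_R_unique S hI m hm hg hT]

private theorem FX_mo_pos (D : Dg C) (β : C.Root) : 0 < mo D β := by
  unfold mo
  split_ifs
  · exact Nat.one_pos
  · rcases D.m_cases with h | h | h <;> omega

private theorem FX_mod (D : Dg C) (β : C.Root) (l : ℕ) : D.r^[l % mo D β] β = D.r^[l] β := by
  unfold mo
  split_ifs with h
  · rw [Function.iterate_fixed h, Function.iterate_fixed h]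
  · have h1 : Function.IsPeriodicPt D.r D.m β := D.r_m β
    exact h1.iterate_mod_apply l

private theorem FX_inj (D : Dg C) (β : C.Root) (l l' : ℕ) (hl : l < mo D β) (hl' : l' < mo D β)
    (h : D.r^[l] β = D.r^[l'] β) : l = l' := by
  unfold mo at hl hl'
  by_cases h1 : D.r β = β
  · rw [if_pos h1] at hl hl'
    omega
  · rw [if_neg h1] at hl hl'
    exact D.r_iter_eq β h1 l l' hl hl' h

private theorem FX_cases (D : Dg C) (β : C.Root) :
    (D.r β = β ∧ mo D β = 1) ∨ (D.r β ≠ β ∧ mo D β = D.m ∧ C.ip β.1 (D.r β).1 = 0) ∨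
    (D.r β ≠ β ∧ mo D β = 2 ∧ D.m = 2 ∧ C.ip β.1 (D.r β).1 = -1) := by
  unfold mo
  by_cases h : D.r β = β
  · exact Or.inl ⟨h, if_pos h⟩
  · right
    rw [if_neg h]
    rcases D.ip_r β h with h1 | ⟨h1, h2⟩
    · exact Or.inl ⟨h, rfl, h1⟩
    · exact Or.inr ⟨h, h1, h1, h2⟩

private theorem FX_sum (D : Dg C) (β γ : C.Root) (hγ : γ.1 = β.1 + (D.r β).1) :
    D.r β ≠ β ∧ mo D β = 2 ∧ D.m = 2 ∧ C.ip β.1 (D.r β).1 = -1 := by
  have h1 := C.ip_add_root _ _ _ hγ
  rcases FX_cases D β with ⟨h, -⟩ | ⟨-, -, h⟩ | h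
  · exfalso
    rw [h, β.2] at h1
    omega
  · omega
  · exact h

private theorem FX_ip_lt (β : C.Root) (hβ : D.r β ≠ β) (ho : C.ip β.1 (D.r β).1 = 0) (l d : ℕ)
    (hd : 0 < d) (hl : l + d < D.m) : C.ip (D.r^[l] β).1 (D.r^[l + d] β).1 = 0 := by
  induction l with
  | zero =>
    rw [Nat.zero_add] at hl ⊢
    rw [Function.iterate_zero, id, D.ip_orb β hβ d hd hl, ho]
  | succ l ih =>
    have : l + 1 + d = (l + d) + 1 := by omega
    rw [this, Function.iterate_succ', Function.iterate_succ', Function.comp, Function.comp, D.r_ip]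
    exact ih (by omega)

private theorem FX_ip (β : C.Root) (hβ : D.r β ≠ β) (ho : C.ip β.1 (D.r β).1 = 0) (l l' : ℕ)
    (hl : l < D.m) (hl' : l' < D.m) : 0 ≤ C.ip (D.r^[l] β).1 (D.r^[l'] β).1 := by
  rcases lt_trichotomy l l' with h | h | h
  · obtain ⟨d, rfl⟩ := Nat.exists_eq_add_of_lt h
    exact (FX_ip_lt β hβ ho l (d + 1) (by omega) hl').ge
  · subst h
    rw [(D.r^[l] β).2]
    omega
  · obtain ⟨d, rfl⟩ := Nat.exists_eq_add_of_lt h
    rw [C.ip_comm]
    exact (FX_ip_lt β hβ ho l' (d + 1) (by omega) hl).ge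

/-- two roots of the orbit -/
private theorem FX_orb (D : Dg C) (β : C.Root) (l l' : ℕ) :
    0 ≤ C.ip (D.r^[l] β).1 (D.r^[l'] β).1 ∨
      ∃ δ : C.Root, δ.1 = (D.r^[l] β).1 + (D.r^[l'] β).1 ∧ δ.1 = β.1 + (D.r β).1 := by
  have hpos := FX_mo_pos D β
  have hl := Nat.mod_lt l hpos
  have hl' := Nat.mod_lt l' hpos
  rw [← FX_mod D β l, ← FX_mod D β l']
  rcases FX_cases D β with ⟨h, -⟩ | ⟨h, hm, ho⟩ | ⟨h, hm, hm', ho⟩
  · left
    rw [Function.iterate_fixed h, Function.iterate_fixed h, β.2]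
    omega
  · left
    rw [hm] at hl hl'
    rw [hm]
    exact FX_ip β h ho _ _ hl hl'
  · rw [hm] at hl hl' ⊢
    have h1 : l % 2 = 0 ∨ l % 2 = 1 := by omega
    have h2 : l' % 2 = 0 ∨ l' % 2 = 1 := by omega
    rcases h1 with h1 | h1 <;> rcases h2 with h2 | h2
    · left
      rw [h1, h2, Function.iterate_zero, id, β.2]
      omega
    · right
      rw [h1, h2]
      obtain ⟨δ, hδ⟩ := C.exists_add _ _ ho
      exact ⟨δ, hδ, hδ⟩
    · right
      rw [h1, h2]
      obtain ⟨δ, hδ⟩ := C.exists_add _ _ ho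
      exact ⟨δ, by rw [hδ, add_comm]; rfl, hδ⟩
    · left
      rw [h1, h2]
      change 0 ≤ C.ip (D.r β).1 (D.r β).1
      rw [(D.r β).2]
      omega

private theorem FX_ip_sum (D : Dg C) (β γ γ' : C.Root) (hγ : γ.1 = β.1 + (D.r β).1)
    (hγ' : D.inO β γ') : 0 ≤ C.ip γ.1 γ'.1 := by
  obtain ⟨h, hm, hm', ho⟩ := FX_sum D β γ hγ
  rcases hγ' with ⟨l, rfl⟩ | h1
  · rw [← FX_mod D β l, hm]
    have h1 : l % 2 = 0 ∨ l % 2 = 1 := by omega
    rcases h1 with h1 | h1 <;> rw [h1, hγ]
    · change 0 ≤ C.ip (β.1 + (D.r β).1) β.1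
      rw [C.ip_add_left, β.2, C.ip_comm, ho]
      omega
    · change 0 ≤ C.ip (β.1 + (D.r β).1) (D.r β).1
      rw [C.ip_add_left, (D.r β).2, ho]
      omega
  · rw [hγ, ← h1, γ'.2]
    omega

private theorem FX_pair (D : Dg C) (β γ γ' : C.Root) (h : D.inO β γ) (h' : D.inO β γ') :
    0 ≤ C.ip γ.1 γ'.1 ∨ ∃ δ : C.Root, δ.1 = γ.1 + γ'.1 ∧ δ.1 = β.1 + (D.r β).1 := by
  rcases h with ⟨l, rfl⟩ | h1
  · rcases h' with ⟨l', rfl⟩ | h1'
    · exact FX_orb D β l l'
    · left
      rw [C.ip_comm]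
      exact FX_ip_sum D β _ _ h1' (Or.inl ⟨l, rfl⟩)
  · exact Or.inl (FX_ip_sum D β _ _ h1 h')

private theorem FX_central (S : StSys C k H) (β : C.Root) (z h : H) (hz : z ∈ ZZ D S β)
    (hh : h ∈ XO D S β) : z * h = h * z := by
  have h1 : XO D S β ≤ Subgroup.centralizer (ZZ D S β : Set H) := by
    unfold XO
    rw [Subgroup.closure_le]
    rintro g ⟨γ', t, hγ', rfl⟩
    rw [SetLike.mem_coe, Subgroup.mem_centralizer_iff]
    intro z hz
    have h2 : ZZ D S β ≤ Subgroup.centralizer {S.x γ' t} := by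
      unfold ZZ
      rw [Subgroup.closure_le]
      rintro g ⟨γ, v, hγ, rfl⟩
      rw [SetLike.mem_coe, Subgroup.mem_centralizer_iff]
      rintro _ rfl
      exact (S.comm γ γ' v t (FX_ip_sum D β γ γ' hγ hγ')).symm
    have h3 := h2 hz
    rw [Subgroup.mem_centralizer_iff] at h3
    exact (h3 _ rfl).symm
  have h2 := h1 hh
  rw [Subgroup.mem_centralizer_iff] at h2
  exact h2 z hz

private theorem FX_ZZ_le (S : StSys C k H) (β : C.Root) : ZZ D S β ≤ XO D S β := by
  unfold ZZ XO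
  apply Subgroup.closure_mono
  rintro g ⟨γ, v, hγ, rfl⟩
  exact ⟨γ, v, Or.inr hγ, rfl⟩

private theorem FX_ZZ_U (S : StSys C k H) (β : C.Root) (m : ℤ) (hm : ht β.1 = m) :
    ZZ D S β ≤ S.U (2 * m) := by
  unfold ZZ StSys.U
  apply Subgroup.closure_mono
  rintro g ⟨γ, v, hγ, rfl⟩
  refine ⟨γ, v, ?_, rfl⟩
  rw [hγ, ht_add, D.r_ht]
  omega

private theorem FX_comm (S : StSys C k H) (β γ : C.Root) (hγ : D.inO β γ) (c : k) (h : H)
    (hh : h ∈ XO D S β) : ∃ z ∈ ZZ D S β, S.x γ c * h = h * S.x γ c * z := by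
  have hx : S.x γ c ∈ XO D S β := Subgroup.subset_closure ⟨γ, c, hγ, rfl⟩
  unfold XO at hh
  induction hh using Subgroup.closure_induction with
  | mem h hh =>
    obtain ⟨γ', t, hγ', rfl⟩ := hh
    rcases FX_pair D β γ γ' hγ hγ' with h1 | ⟨δ, h1, h2⟩
    · exact ⟨1, one_mem _, by rw [mul_one, S.comm γ γ' c t h1]⟩
    · have h3 := S.comm_add γ γ' δ c t h1
      have hz : S.x δ (C.eps γ.1 γ'.1 * c * t) ∈ ZZ D S β :=
        Subgroup.subset_closure ⟨δ, _, h2, rfl⟩
      refine ⟨_, hz, ?_⟩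
      have hx' : S.x γ' t ∈ XO D S β := Subgroup.subset_closure ⟨γ', t, hγ', rfl⟩
      rw [← FX_central S β _ _ hz (mul_mem hx' hx), ← h3]
      group
  | one => exact ⟨1, one_mem _, by group⟩
  | mul a b ha hb iha ihb =>
    obtain ⟨z1, hz1, h1⟩ := iha
    obtain ⟨z2, hz2, h2⟩ := ihb
    refine ⟨z2 * z1, mul_mem hz2 hz1, ?_⟩
    have hb' : b ∈ XO D S β := hb
    calc S.x γ c * (a * b) = (S.x γ c * a) * b := by group
      _ = a * S.x γ c * (z1 * b) := by rw [h1]; group
      _ = a * (S.x γ c * b) * z1 := by rw [FX_central S β z1 b hz1 hb']; group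
      _ = a * b * S.x γ c * (z2 * z1) := by rw [h2]; group
  | inv a ha iha =>
    obtain ⟨z1, hz1, h1⟩ := iha
    refine ⟨z1⁻¹, inv_mem hz1, ?_⟩
    have ha' : a⁻¹ ∈ XO D S β := inv_mem ha
    have h2 := FX_central S β z1⁻¹ a⁻¹ (inv_mem hz1) ha'
    calc S.x γ c * a⁻¹ = a⁻¹ * (a * S.x γ c * z1) * (z1⁻¹ * a⁻¹) := by group
      _ = a⁻¹ * (S.x γ c * a) * (a⁻¹ * z1⁻¹) := by rw [← h1, h2]
      _ = a⁻¹ * S.x γ c * z1⁻¹ := by group

/-- The product over the orbit. -/
private def FXP (D : Dg C) (S : StSys C k H) (β : C.Root) (a : ℕ → k) (N : ℕ) : H :=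
  ((List.range N).map fun l => S.x (D.r^[l] β) (a l)).prod

private theorem FXP_succ (S : StSys C k H) (β : C.Root) (a : ℕ → k) (N : ℕ) :
    FXP D S β a (N + 1) = FXP D S β a N * S.x (D.r^[N] β) (a N) := by
  unfold FXP
  rw [List.range_succ, List.map_append, List.prod_append, List.map_cons, List.map_nil,
    List.prod_cons, List.prod_nil, mul_one]

private theorem FX_x_mem (S : StSys C k H) (β : C.Root) (l : ℕ) (c : k) :
    S.x (D.r^[l] β) c ∈ XO D S β := Subgroup.subset_closure ⟨_, c, Or.inl ⟨l, rfl⟩, rfl⟩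

private theorem FXP_mem (S : StSys C k H) (β : C.Root) (a : ℕ → k) (N : ℕ) :
    FXP D S β a N ∈ XO D S β := by
  induction N with
  | zero => exact one_mem _
  | succ N ih =>
    rw [FXP_succ]
    exact mul_mem ih (FX_x_mem S β N _)

private theorem FXP_zero (S : StSys C k H) (β : C.Root) (a : ℕ → k) (N : ℕ)
    (h : ∀ l < N, a l = 0) : FXP D S β a N = 1 := by
  induction N with
  | zero => rfl
  | succ N ih =>
    rw [FXP_succ, ih fun l hl => h l (by omega), h N (by omega), S.x_zero, mul_one]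

private theorem FXP_single (S : StSys C k H) (β : C.Root) (c : k) (l N : ℕ) (hl : l < N) :
    FXP D S β (fun j => if j = l then c else 0) N = S.x (D.r^[l] β) c := by
  induction N with
  | zero => omega
  | succ N ih =>
    rw [FXP_succ]
    by_cases h : N = l
    · subst h
      rw [if_pos rfl, FXP_zero, one_mul]
      intro j hj
      exact if_neg (by omega)
    · rw [if_neg h, S.x_zero, mul_one]
      exact ih (by omega)

private theorem FXP_add (S : StSys C k H) (β : C.Root) (a b : ℕ → k) (N : ℕ) :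
    ∃ z ∈ ZZ D S β, FXP D S β a N * FXP D S β b N = FXP D S β (fun l => a l + b l) N * z := by
  induction N with
  | zero => exact ⟨1, one_mem _, by simp [FXP]⟩
  | succ N ih =>
    obtain ⟨z, hz, h1⟩ := ih
    obtain ⟨z', hz', h2⟩ := FX_comm S β (D.r^[N] β) (Or.inl ⟨N, rfl⟩) (a N) _
      (FXP_mem (D := D) S β b N)
    refine ⟨z * z', mul_mem hz hz', ?_⟩
    have hc := FX_central S β (z * z') _ (mul_mem hz hz') (FX_x_mem (D := D) S β N (b N))
    have hc' := FX_central S β z _ hz (FX_x_mem (D := D) S β N (a N))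
    rw [FXP_succ, FXP_succ, FXP_succ, S.map_add]
    calc FXP D S β a N * S.x (D.r^[N] β) (a N) * (FXP D S β b N * S.x (D.r^[N] β) (b N))
        = FXP D S β a N * (S.x (D.r^[N] β) (a N) * FXP D S β b N) * S.x (D.r^[N] β) (b N) := by
          group
      _ = (FXP D S β a N * FXP D S β b N) * S.x (D.r^[N] β) (a N) *
            (z' * S.x (D.r^[N] β) (b N)) := by rw [h2]; group
      _ = FXP D S β (fun l => a l + b l) N * (z * S.x (D.r^[N] β) (a N)) *
            (z' * S.x (D.r^[N] β) (b N)) := by rw [h1]; group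
      _ = FXP D S β (fun l => a l + b l) N * S.x (D.r^[N] β) (a N) *
            (z * z' * S.x (D.r^[N] β) (b N)) := by rw [hc']; group
      _ = _ := by rw [hc]; group

private theorem FXP_form (S : StSys C k H) (β : C.Root) (x : H) (hx : x ∈ XO D S β) :
    ∃ a, ∃ z ∈ ZZ D S β, x = FXP D S β a (mo D β) * z := by
  unfold XO at hx
  induction hx using Subgroup.closure_induction with
  | mem x hx =>
    obtain ⟨γ, t, hγ, rfl⟩ := hx
    rcases hγ with ⟨l, rfl⟩ | hγ
    · refine ⟨fun j => if j = l % mo D β then t else 0, 1, one_mem _, ?_⟩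
      rw [← FX_mod D β l, mul_one]
      exact (FXP_single S β t _ (mo D β) (Nat.mod_lt l (FX_mo_pos D β))).symm
    · refine ⟨fun _ => 0, _, Subgroup.subset_closure ⟨γ, t, hγ, rfl⟩, ?_⟩
      rw [FXP_zero S β _ _ fun _ _ => rfl, one_mul]
  | one =>
    exact ⟨fun _ => 0, 1, one_mem _, by rw [FXP_zero S β _ _ fun _ _ => rfl, one_mul]⟩
  | mul x y _ _ hx hy =>
    obtain ⟨a, z, hz, rfl⟩ := hx
    obtain ⟨b, z', hz', rfl⟩ := hy
    obtain ⟨z'', hz'', h1⟩ := FXP_add (D := D) S β a b (mo D β)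
    refine ⟨fun l => a l + b l, z'' * z * z', mul_mem (mul_mem hz'' hz) hz', ?_⟩
    have hc := FX_central S β z _ hz (FXP_mem (D := D) S β b (mo D β))
    calc FXP D S β a (mo D β) * z * (FXP D S β b (mo D β) * z')
        = FXP D S β a (mo D β) * (z * FXP D S β b (mo D β)) * z' := by group
      _ = (FXP D S β a (mo D β) * FXP D S β b (mo D β)) * z * z' := by rw [hc]; group
      _ = _ := by rw [h1]; group
  | inv x _ hx =>
    obtain ⟨a, z, hz, rfl⟩ := hx
    obtain ⟨z'', hz'', h1⟩ := FXP_add (D := D) S β a (fun l => - a l) (mo D β)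
    refine ⟨fun l => - a l, z''⁻¹ * z⁻¹, mul_mem (inv_mem hz'') (inv_mem hz), ?_⟩
    rw [FXP_zero S β _ _ fun l _ => add_neg_cancel (a l), one_mul] at h1
    have hc := FX_central S β z⁻¹ _ (inv_mem hz) (FXP_mem (D := D) S β (fun l => - a l) (mo D β))
    have h2 : (FXP D S β a (mo D β))⁻¹ = FXP D S β (fun l => - a l) (mo D β) * z''⁻¹ := by
      rw [inv_eq_iff_mul_eq_one, ← mul_assoc, h1, mul_inv_cancel]
    rw [_root_.mul_inv_rev, h2, ← mul_assoc, hc, mul_assoc]
    congr 1
    exact FX_central S β _ _ (inv_mem hz) (FX_ZZ_le S β (inv_mem hz''))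

private theorem FXP_R (S : StSys C k H) (m : ℤ) (hm : 1 ≤ m) (β : C.Root) (hβ : ht β.1 = m)
    (a : ℕ → k) (N : ℕ) :
    FXR S m (FXP D S β a N) (fun γ => ∑ l ∈ Finset.range N, if γ = D.r^[l] β then a l else 0) := by
  induction N with
  | zero => exact FX_R_one S m 1 (one_mem _)
  | succ N ih =>
    rw [FXP_succ]
    have h1 := FX_R_mul S m hm ih (FX_R_single S m hm (D.r^[N] β)
      (by rw [FX_iter_ht, hβ]) (a N))
    have e : (fun γ : C.Root => ∑ l ∈ Finset.range (N + 1), if γ = D.r^[l] β then a l else 0) =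
        fun γ => (∑ l ∈ Finset.range N, if γ = D.r^[l] β then a l else 0) +
          (if γ = D.r^[N] β then a N else 0) := by
      funext γ
      rw [Finset.sum_range_succ]
    rw [e]
    exact h1

private theorem FX_eval (D : Dg C) (β : C.Root) (a : ℕ → k) (l : ℕ) (hl : l < mo D β) :
    (∑ j ∈ Finset.range (mo D β), if D.r^[l] β = D.r^[j] β then a j else 0) = a l := by
  rw [Finset.sum_eq_single l]
  · exact if_pos rfl
  · intro j hj hne
    rw [Finset.mem_range] at hj
    exact if_neg fun h => hne (FX_inj D β j l hj hl h.symm)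
  · intro h
    exact absurd (Finset.mem_range.2 hl) h

private theorem FX_R_Z (S : StSys C k H) (m : ℤ) (hm : 1 ≤ m) (β : C.Root) (hβ : ht β.1 = m)
    {g z : H} {T : C.Root → k} (hg : FXR S m g T) (hz : z ∈ ZZ D S β) : FXR S m (g * z) T := by
  have h1 := FX_R_mul S m hm hg (FX_R_one S m z
    (FX_mono S (by omega) (FX_ZZ_U S β m hβ hz)))
  simpa only [add_zero] using h1

private theorem FX_yb (he : IsSig D θ S s) (β : C.Root) (t : k) :
    yb D S s β t = FXP D S β (fun l => (D.sgp l β : k) * (⇑θ)^[l] t) (mo D β) := by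
  unfold yb FXP
  congr 1
  apply List.map_congr_left
  intro l _
  exact he.iter l β t

private theorem FXP_congr (S : StSys C k H) (β : C.Root) (a b : ℕ → k) (N : ℕ)
    (h : ∀ l < N, a l = b l) : FXP D S β a N = FXP D S β b N := by
  unfold FXP
  congr 1
  apply List.map_congr_left
  intro l hl
  rw [List.mem_range] at hl
  rw [h l hl]

theorem fixX_form (he : Env D θ S s p) (β : C.Root) (hβ : C.Pos β) (x : H)
    (hx : x ∈ fixX D S s β) : ∃ t, (D.r β = β → (D.sg β : k) * θ t = t) ∧ ∃ z ∈ ZZ D S β,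
      x = yb D S s β t * z := by
  obtain ⟨hx, hs⟩ := Subgroup.mem_inf.1 hx
  have hs : s x = x := hs
  obtain ⟨a, z, hz, rfl⟩ := FXP_form S β x hx
  have hpos := FX_mo_pos D β
  have hm : 1 ≤ ht β.1 := by
    unfold SLC.Pos at hβ
    omega
  have hI := (inj_of_map S p he.hp).1
  have hR := FX_R_Z S _ hm β rfl (FXP_R (D := D) S _ hm β rfl a (mo D β)) hz
  set T : C.Root → k := fun γ => ∑ l ∈ Finset.range (mo D β), if γ = D.r^[l] β then a l else 0
    with hT
  have hT1 : ∀ γ, T (D.r γ) = (D.sg γ : k) * θ (T γ) := FX_R_fixed S hI he.sig _ hm hR hs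
  have hT2 : ∀ l, l < mo D β → T (D.r^[l] β) = a l := fun l hl => FX_eval D β a l hl
  have hT3 : ∀ l, T (D.r^[l] β) = (D.sgp l β : k) * (⇑θ)^[l] (a 0) := by
    intro l
    induction l with
    | zero =>
      rw [hT2 0 hpos]
      simp [Dg.sgp]
    | succ l ih =>
      rw [Function.iterate_succ_apply', hT1, ih, Function.iterate_succ_apply']
      unfold Dg.sgp
      rw [Finset.prod_range_succ, _root_.map_mul, map_intCast]
      push_cast
      ring
  refine ⟨a 0, fun hr => ?_, z, hz, ?_⟩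
  · have h1 := hT1 β
    rw [hr] at h1
    have h2 := hT2 0 hpos
    change T β = a 0 at h2
    rw [h2] at h1
    exact h1.symm
  · rw [FX_yb he.sig]
    congr 1
    apply FXP_congr
    intro l hl
    rw [← hT2 l hl, hT3]

theorem fixX_exists (he : Env D θ S s p) (β : C.Root) (hβ : C.Pos β) (t : k)
    (ht : D.r β = β → (D.sg β : k) * θ t = t) : ∃ z ∈ ZZ D S β,
      yb D S s β t * z ∈ fixX D S s β := by
  have hmem : yb D S s β t ∈ XO D S β := by
    rw [FX_yb he.sig]
    exact FXP_mem S β _ _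
  rcases FX_cases D β with ⟨h, hm⟩ | ⟨h, hm, ho⟩ | ⟨h, hm, hm', ho⟩
  · refine ⟨1, one_mem _, ?_⟩
    rw [mul_one]
    refine Subgroup.mem_inf.2 ⟨hmem, ?_⟩
    change s (yb D S s β t) = yb D S s β t
    unfold yb
    rw [hm]
    simp only [List.range_one, List.map_cons, List.map_nil, List.prod_cons, List.prod_nil, mul_one,
      Function.iterate_zero, id]
    rw [he.sig, h, ht h]
  · refine ⟨1, one_mem _, ?_⟩
    rw [mul_one]
    refine Subgroup.mem_inf.2 ⟨hmem, ?_⟩
    change s (yb D S s β t) = yb D S s β t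
    have h1 := Eg_le_fix S s _ (prod_x_mem he.sig he.hθ β h ho t)
    unfold yb
    rw [hm]
    exact h1
  · obtain ⟨γ, hγ⟩ := C.exists_add β (D.r β) ho
    obtain ⟨hrγ, hsγ⟩ := D.sg_adj β γ h hγ
    have hθ2 : ∀ a, θ (θ a) = a := fun a => by
      have := he.hθ a
      rw [hm'] at this
      exact this
    have hsq : (D.sg β : k) * (D.sg β : k) = 1 := by
      rw [← Int.cast_mul, D.sg_sq, Int.cast_one]
    have hy : yb D S s β t = S.x β t * S.x (D.r β) ((D.sg β : k) * θ t) := by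
      unfold yb
      rw [hm, ← he.sig]
      simp [List.range_succ]
    have hrr : D.r (D.r β) = β := by
      have := D.r_m β
      rw [hm'] at this
      exact this
    have hss : s (S.x (D.r β) ((D.sg β : k) * θ t)) = S.x β t := by
      rw [← he.sig]
      have h2 := he.sig.iter_m he.hθ (S.x β t) (Subgroup.subset_closure ⟨β, t, rfl⟩)
      rw [hm'] at h2
      exact h2
    have hz : θ (-((C.eps β.1 (D.r β).1 : k) * t * ((D.sg β : k) * θ t))) =
        -((C.eps β.1 (D.r β).1 : k) * t * ((D.sg β : k) * θ t)) := by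
      rw [_root_.map_neg, _root_.map_mul, _root_.map_mul, _root_.map_mul, map_intCast,
        map_intCast, hθ2]
      ring
    have hv : ∃ v, v + θ v = -((C.eps β.1 (D.r β).1 : k) * t * ((D.sg β : k) * θ t)) := by
      rcases he.hB with hA | hA
      · exfalso
        have := D.ip_r_NA hA β h
        omega
      · exact hA _ hz
    obtain ⟨v, hv⟩ := hv
    have hZ : ∀ a, S.x γ a ∈ ZZ D S β := fun a => Subgroup.subset_closure ⟨γ, a, hγ, rfl⟩
    refine ⟨S.x γ v, hZ v, Subgroup.mem_inf.2 ⟨mul_mem hmem (FX_ZZ_le S β (hZ v)), ?_⟩⟩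
    change s (yb D S s β t * S.x γ v) = yb D S s β t * S.x γ v
    have h1 : s (S.x γ v) = S.x γ (-θ v) := by
      rw [he.sig, hrγ, hsγ]
      congr 1
      push_cast
      ring
    have h2 : s (yb D S s β t) =
        yb D S s β t * S.x γ (-((C.eps β.1 (D.r β).1 : k) * t * ((D.sg β : k) * θ t))) := by
      rw [← FX_central S β _ _ (hZ _) hmem, hy, _root_.map_mul, hss, he.sig, S.x_neg,
        ← S.comm_add β (D.r β) γ t ((D.sg β : k) * θ t) hγ]
      group
    rw [_root_.map_mul, h1, h2, mul_assoc, ← S.map_add, ← hv]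
    congr 2
    ring

theorem fixX_coord (he : Env D θ S s p) (β : C.Root) (hβ : C.Pos β) (t t' : k) (z z' : H)
    (hz : z ∈ ZZ D S β) (hz' : z' ∈ ZZ D S β) (h : yb D S s β t * z = yb D S s β t' * z') :
    t = t' := by
  have hpos := FX_mo_pos D β
  have hm : 1 ≤ ht β.1 := by
    unfold SLC.Pos at hβ
    omega
  have hI := (inj_of_map S p he.hp).1
  rw [FX_yb he.sig, FX_yb he.sig] at h
  have hR := FX_R_Z S _ hm β rfl (FXP_R (D := D) S _ hm β rfl
    (fun l => (D.sgp l β : k) * (⇑θ)^[l] t) (mo D β)) hz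
  have hR' := FX_R_Z S _ hm β rfl (FXP_R (D := D) S _ hm β rfl
    (fun l => (D.sgp l β : k) * (⇑θ)^[l] t') (mo D β)) hz'
  rw [h] at hR
  have h1 := congrFun (FX_R_unique S hI _ hm hR hR') (D.r^[0] β)
  rw [FX_eval D β _ 0 hpos, FX_eval D β _ 0 hpos] at h1
  simpa [Dg.sgp] using h1

theorem yb_mem_XO (he : Env D θ S s p) (β : C.Root) (t : k) (z : H) (hz : z ∈ ZZ D S β) :
    yb D S s β t * z ∈ XO D S β := by
  rw [FX_yb he.sig]
  exact mul_mem (FXP_mem S β _ _) (FX_ZZ_le S β hz)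

private theorem FX_sgp (D : Dg C) (i : Fin n) (l : ℕ) : D.sgp l (C.simple i) = 1 := by
  unfold Dg.sgp
  apply Finset.prod_eq_one
  intro j _
  rw [D.r_iter_simple, D.sg_simple]

private theorem FX_pU (hp : ∀ β t, p (S.x β t) = C.xg k β t) (m : ℤ) (u : H) (hu : u ∈ S.U m) :
    p u ∈ (C.adS k).U m := by
  have h1 : S.U m ≤ ((C.adS k).U m).comap p := by
    conv_lhs => unfold StSys.U
    rw [Subgroup.closure_le]
    rintro g ⟨β, t, hβ, rfl⟩
    change p (S.x β t) ∈ (C.adS k).U m
    rw [hp]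
    exact Subgroup.subset_closure ⟨β, t, hβ, rfl⟩
  exact h1 hu

private theorem FX_xi_P (hp : ∀ β t, p (S.x β t) = C.xg k β t) (D : Dg C) (i j : Fin n)
    (a : ℕ → k) (N : ℕ) :
    FXP D S (C.simple i) a N ∈ S.U 1 ∧
    C.xi j (p (FXP D S (C.simple i) a N) : Matrix C.Idx C.Idx k) =
      ∑ l ∈ Finset.range N, if (D.ρ ^ l) i = j then a l else 0 := by
  induction N with
  | zero =>
    refine ⟨one_mem _, ?_⟩
    have : FXP D S (C.simple i) a 0 = 1 := rfl
    rw [this, _root_.map_one, Units.val_one, C.xi_one]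
    simp
  | succ N ih =>
    have h1 : S.x (D.r^[N] (C.simple i)) (a N) ∈ S.U 1 :=
      FX_mem S 1 _ _ (by rw [D.r_iter_simple, C.ht_simple])
    rw [FXP_succ]
    refine ⟨mul_mem ih.1 h1, ?_⟩
    rw [_root_.map_mul, C.xi_mul j _ _ (FX_pU hp 1 _ ih.1) (FX_pU hp 1 _ h1), ih.2, hp,
      D.r_iter_simple, C.xi_xg j _ (C.simple_pos _), Finset.sum_range_succ]
    congr 1
    by_cases h2 : (D.ρ ^ N) i = j
    · rw [if_pos h2, if_pos (by rw [h2])]
    · rw [if_neg h2, if_neg fun h3 => h2 (C.simple_injective h3)]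

private theorem FX_xi (he : Env D θ S s p) (i j : Fin n) (t : k) (z : H)
    (hz : z ∈ ZZ D S (C.simple i)) :
    C.xi j (p (yb D S s (C.simple i) t * z) : Matrix C.Idx C.Idx k) =
      ∑ l ∈ Finset.range (mo D (C.simple i)), if (D.ρ ^ l) i = j then (⇑θ)^[l] t else 0 := by
  have h1 := FX_xi_P (S := S) he.hp D i j (fun l => (D.sgp l (C.simple i) : k) * (⇑θ)^[l] t)
    (mo D (C.simple i))
  have hz2 : z ∈ S.U 2 := FX_ZZ_U S (C.simple i) 1 (C.ht_simple i) hz
  have hz1 : z ∈ S.U 1 := FX_mono S (by norm_num) hz2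
  have hz3 : C.xi j (p z : Matrix C.Idx C.Idx k) = 0 :=
    C.xi_eq_zero_of_Fil j _ (C.Fil_U 2 (by norm_num) _ (FX_pU he.hp 2 z hz2))
  rw [FX_yb he.sig, _root_.map_mul, C.xi_mul j _ _ (FX_pU he.hp 1 _ h1.1) (FX_pU he.hp 1 _ hz1),
    hz3, add_zero, h1.2]
  apply Finset.sum_congr rfl
  intro l _
  rw [FX_sgp, Int.cast_one, one_mul]

private theorem FX_pow_mod (D : Dg C) (i : Fin n) (l : ℕ) :
    (D.ρ ^ (l % mo D (C.simple i))) i = (D.ρ ^ l) i := by
  apply C.simple_injective
  rw [← D.r_iter_simple, ← D.r_iter_simple, FX_mod]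

private theorem FX_xi_pow (he : Env D θ S s p) (i : Fin n) (t : k)
    (ht : D.r (C.simple i) = C.simple i → (D.sg (C.simple i) : k) * θ t = t) (z : H)
    (hz : z ∈ ZZ D S (C.simple i)) (l : ℕ) :
    C.xi ((D.ρ ^ l) i) (p (yb D S s (C.simple i) t * z) : Matrix C.Idx C.Idx k) =
      (⇑θ)^[l] t := by
  have hpos := FX_mo_pos D (C.simple i)
  have hl := Nat.mod_lt l hpos
  rw [FX_xi he i _ t z hz, Finset.sum_eq_single (l % mo D (C.simple i))]
  · rw [if_pos (FX_pow_mod D i l)]
    rcases FX_cases D (C.simple i) with ⟨h, hm⟩ | ⟨-, hm, -⟩ | ⟨-, hm, hm', -⟩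
    · have h1 := ht h
      rw [D.sg_simple, Int.cast_one, one_mul] at h1
      rw [Function.iterate_fixed h1, Function.iterate_fixed h1]
    · have h1 : Function.IsPeriodicPt (⇑θ) D.m t := he.hθ t
      rw [hm]
      exact h1.iterate_mod_apply l
    · have h1 : Function.IsPeriodicPt (⇑θ) D.m t := he.hθ t
      rw [hm, ← hm']
      exact h1.iterate_mod_apply l
  · intro j hj hne
    rw [Finset.mem_range] at hj
    apply if_neg
    intro h
    apply hne
    apply FX_inj D (C.simple i) _ _ hj hl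
    rw [D.r_iter_simple, D.r_iter_simple, h, FX_pow_mod]
  · intro h
    exact absurd (Finset.mem_range.2 hl) h

/-- the coordinates of an element of a simple root group -/
theorem fixX_xi (he : Env D θ S s p) (i : Fin n) (x : H) (hx : x ∈ fixX D S s (C.simple i)) :
    (∀ l : ℕ, C.xi ((D.ρ ^ l) i) (p x : Matrix C.Idx C.Idx k) =
      (⇑θ)^[l] (C.xi i (p x : Matrix C.Idx C.Idx k))) ∧
    ∀ j, ¬ D.ρ.SameCycle i j → C.xi j (p x : Matrix C.Idx C.Idx k) = 0 := by
  obtain ⟨t, ht, z, hz, rfl⟩ := fixX_form he (C.simple i) (C.simple_pos i) x hx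
  have h0 := FX_xi_pow he i t ht z hz 0
  change C.xi i (p (yb D S s (C.simple i) t * z) : Matrix C.Idx C.Idx k) = t at h0
  refine ⟨fun l => ?_, fun j hj => ?_⟩
  · rw [h0, FX_xi_pow he i t ht z hz l]
  · rw [FX_xi he i j t z hz]
    apply Finset.sum_eq_zero
    intro l _
    apply if_neg
    rintro rfl
    exact hj ⟨l, by rw [zpow_natCast]⟩

/-- existence of elements of simple root groups with given coordinate -/
theorem fixX_xi_exists (he : Env D θ S s p) (i : Fin n) (t : k) (ht : D.ρ i = i → θ t = t) :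
    ∃ x ∈ fixX D S s (C.simple i), C.xi i (p x : Matrix C.Idx C.Idx k) = t := by
  have ht' : D.r (C.simple i) = C.simple i → (D.sg (C.simple i) : k) * θ t = t := by
    intro h
    rw [D.sg_simple, Int.cast_one, one_mul]
    rw [D.r_simple] at h
    exact ht (C.simple_injective h)
  obtain ⟨z, hz, h1⟩ := fixX_exists he (C.simple i) (C.simple_pos i) t ht'
  exact ⟨_, h1, FX_xi_pow he i t ht' z hz 0⟩

private theorem FX_ZZ_bot (S : StSys C k H) (β : C.Root)
    (h : ∀ γ : C.Root, γ.1 ≠ β.1 + (D.r β).1) (z : H) (hz : z ∈ ZZ D S β) : z = 1 := by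
  have h1 : ZZ D S β = ⊥ := by
    unfold ZZ
    rw [Subgroup.closure_eq_bot_iff]
    rintro g ⟨γ, v, hγ, -⟩
    exact absurd hγ (h γ)
  rw [h1] at hz
  exact hz

private theorem FX_ZZ_x (S : StSys C k H) (β γ : C.Root) (hγ : γ.1 = β.1 + (D.r β).1) (z : H)
    (hz : z ∈ ZZ D S β) : ∃ v, z = S.x γ v := by
  unfold ZZ at hz
  induction hz using Subgroup.closure_induction with
  | mem z hz =>
    obtain ⟨γ', v, hγ', rfl⟩ := hz
    have : γ' = γ := SLC.Root.ext (hγ'.trans hγ.symm)
    exact ⟨v, by rw [this]⟩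
  | one => exact ⟨0, (S.x_zero γ).symm⟩
  | mul a b _ _ ha hb =>
    obtain ⟨v, rfl⟩ := ha
    obtain ⟨w, rfl⟩ := hb
    exact ⟨v + w, (S.map_add γ v w).symm⟩
  | inv a _ ha =>
    obtain ⟨v, rfl⟩ := ha
    exact ⟨-v, (S.x_neg γ v).symm⟩

private theorem FX_heis (A1 A2 B1 B2 P Q z1 z2 : H) (h1 : A2 * B1 = P * (B1 * A2))
    (h2 : A1 * B2 = Q * (B2 * A1)) (h3 : A1 * B1 = B1 * A1) (h4 : A2 * B2 = B2 * A2)
    (hP : A1 * P = P * A1) (hQ : B1 * Q = Q * B1) (hz1 : z1 * (B1 * B2) = B1 * B2 * z1)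
    (hz2 : z2 * (A1 * A2) = A1 * A2 * z2) (hz : z1 * z2 = z2 * z1) :
    (A1 * A2 * z1) * (B1 * B2 * z2) * (A1 * A2 * z1)⁻¹ * (B1 * B2 * z2)⁻¹ = P * Q := by
  rw [mul_inv_eq_iff_eq_mul, mul_inv_eq_iff_eq_mul]
  calc (A1 * A2 * z1) * (B1 * B2 * z2) = A1 * A2 * (z1 * (B1 * B2)) * z2 := by group
    _ = A1 * (A2 * B1) * B2 * (z1 * z2) := by rw [hz1]; group
    _ = (A1 * P) * B1 * (A2 * B2) * (z1 * z2) := by rw [h1]; group
    _ = P * (A1 * B1) * B2 * A2 * (z1 * z2) := by rw [hP, h4]; group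
    _ = P * B1 * (A1 * B2) * A2 * (z1 * z2) := by rw [h3]; group
    _ = P * (B1 * Q) * B2 * A1 * A2 * (z1 * z2) := by rw [h2]; group
    _ = P * Q * (B1 * B2) * (A1 * A2 * z2) * z1 := by rw [hQ, hz]; group
    _ = P * Q * (B1 * B2 * z2) * (A1 * A2 * z1) := by rw [← hz2]; group

/-- elements of simple root groups with coordinate zero are commutators -/
theorem fixX_xi_zero (he : Env D θ S s p) (i : Fin n) (x : H)
    (hx : x ∈ fixX D S s (C.simple i)) (h0 : C.xi i (p x : Matrix C.Idx C.Idx k) = 0) :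
    x ∈ ⁅fixX D S s (C.simple i), fixX D S s (C.simple i)⁆ := by
  obtain ⟨t, ht, z, hz, rfl⟩ := fixX_form he (C.simple i) (C.simple_pos i) x hx
  have h1 := FX_xi_pow he i t ht z hz 0
  change C.xi i (p (yb D S s (C.simple i) t * z) : Matrix C.Idx C.Idx k) = t at h1
  rw [h0] at h1
  subst h1
  have hy0 : yb D S s (C.simple i) 0 = 1 := by
    rw [FX_yb he.sig]
    apply FXP_zero
    intro l _
    rw [iterate_map_zero, mul_zero]
  rw [hy0, one_mul] at hx ⊢
  have hs : s z = z := (Subgroup.mem_inf.1 hx).2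
  rcases FX_cases D (C.simple i) with ⟨h, -⟩ | ⟨h, -, ho⟩ | ⟨h, hm, hm', ho⟩
  · rw [FX_ZZ_bot (D := D) S (C.simple i) (fun γ hγ => (FX_sum D _ γ hγ).1 h) z hz]
    exact one_mem _
  · rw [FX_ZZ_bot (D := D) S (C.simple i) (fun γ hγ => by
      have := (FX_sum D _ γ hγ).2.2.2
      omega) z hz]
    exact one_mem _
  · obtain ⟨γ, hγ⟩ := C.exists_add (C.simple i) (D.r (C.simple i)) ho
    obtain ⟨hrγ, hsγ⟩ := D.sg_adj (C.simple i) γ h hγ
    obtain ⟨v, rfl⟩ := FX_ZZ_x (D := D) S (C.simple i) γ hγ z hz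
    have h1 : s (S.x γ v) = S.x γ (-θ v) := by
      rw [he.sig, hrγ, hsγ]
      congr 1
      push_cast
      ring
    have h2 : v + θ v = 0 := by
      by_cases hv : v = 0
      · rw [hv, map_zero, add_zero]
      · rw [h1] at hs
        have h3 := congrArg p hs
        rw [he.hp, he.hp] at h3
        have h4 := (C.xg_inj γ γ v (-θ v) hv h3.symm).2
        linear_combination h4
    have hC : ∃ t, v = t - θ t := by
      rcases he.hC with hA | hA
      · exfalso
        have := D.ip_r_NA hA (C.simple i) h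
        omega
      · exact hA v h2
    obtain ⟨a, ha⟩ := hC
    set β := C.simple i with hβ
    set e : k := (C.eps β.1 (D.r β).1 : k) with hee
    have hee2 : e * e = 1 := by
      rw [hee]
      rcases C.eps_eq_one_or β.1 (D.r β).1 with h5 | h5 <;> simp [h5]
    have hθe : θ e = e := map_intCast θ _
    have hy : ∀ t, yb D S s β t = S.x β t * S.x (D.r β) (θ t) := by
      intro t
      unfold yb
      rw [hm]
      have h6 : s (S.x β t) = S.x (D.r β) (θ t) := by
        rw [he.sig, hβ, D.sg_simple, Int.cast_one, one_mul]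
      simp [List.range_succ, h6]
    obtain ⟨z1, hz1, hm1⟩ := fixX_exists he β (C.simple_pos i) a (fun h' => absurd h' h)
    obtain ⟨z2, hz2, hm2⟩ := fixX_exists he β (C.simple_pos i) e (fun h' => absurd h' h)
    have hZ : ∀ a, S.x γ a ∈ ZZ D S β := fun a => Subgroup.subset_closure ⟨γ, a, hγ, rfl⟩
    have hc : ∀ a b, S.x β a * S.x (D.r β) b = S.x γ (e * a * b) * (S.x (D.r β) b * S.x β a) := by
      intro a b
      rw [← S.comm_add β (D.r β) γ a b hγ]
      group
    have hX1 : ∀ a, S.x β a ∈ XO D S β := fun a => FX_x_mem (D := D) S β 0 a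
    have hX2 : ∀ a, S.x (D.r β) a ∈ XO D S β := fun a => FX_x_mem (D := D) S β 1 a
    have key := FX_heis (S.x β a) (S.x (D.r β) (θ a)) (S.x β e) (S.x (D.r β) (θ e))
      (S.x γ (-(e * e * θ a))) (S.x γ (e * a * θ e)) z1 z2
      (by rw [hc e (θ a), ← mul_assoc, ← S.map_add, neg_add_cancel, S.x_zero, one_mul])
      (hc a (θ e))
      (by rw [← S.map_add, ← S.map_add, add_comm])
      (by rw [← S.map_add, ← S.map_add, add_comm])
      (FX_central S β _ _ (hZ _) (hX1 _)).symm
      (FX_central S β _ _ (hZ _) (hX1 _)).symm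
      (FX_central S β _ _ hz1 (mul_mem (hX1 _) (hX2 _)))
      (FX_central S β _ _ hz2 (mul_mem (hX1 _) (hX2 _)))
      (FX_central S β _ _ hz1 (FX_ZZ_le S β hz2))
    rw [← hy, ← hy, ← S.map_add] at key
    have hv : -(e * e * θ a) + e * a * θ e = v := by
      rw [hθe, ha]
      linear_combination (a - θ a) * hee2
    rw [hv] at key
    rw [← key]
    exact Subgroup.commutator_mem_commutator hm1 hm2

private theorem FX_cyc (D : Dg C) (i j : Fin n) (h : D.ρ.SameCycle i j) :
    ∃ l, l < D.m ∧ (D.ρ ^ l) i = j := by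
  obtain ⟨z, hz⟩ := h
  have hm : 0 < D.m := by
    rcases D.m_cases with h | h | h <;> omega
  have h1 : 0 ≤ z % (D.m : ℤ) := Int.emod_nonneg _ (by omega)
  have h2 : z % (D.m : ℤ) < D.m := Int.emod_lt_of_pos _ (by omega)
  refine ⟨(z % (D.m : ℤ)).toNat, by omega, ?_⟩
  have h3 : D.ρ ^ (z % (D.m : ℤ)) = D.ρ ^ z := zpow_mod_orderOf _ _
  rw [← hz, ← h3]
  conv_rhs => rw [← Int.toNat_of_nonneg h1]
  rw [zpow_natCast]

/-- inner products of simple roots in an orbit -/
private theorem FX_ortho (D : Dg C) (i j l : Fin n) (h : C.ip (C.simple i).1 (D.r (C.simple i)).1 ≠ -1)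
    (hj : D.ρ.SameCycle i j) (hl : D.ρ.SameCycle i l) (hne : j ≠ l) :
    C.ip (C.simple j).1 (C.simple l).1 = 0 := by
  obtain ⟨a, -, rfl⟩ := FX_cyc D i j hj
  obtain ⟨b, -, rfl⟩ := FX_cyc D i l hl
  have h1 : 0 ≤ C.ip (C.simple ((D.ρ ^ a) i)).1 (C.simple ((D.ρ ^ b) i)).1 := by
    rw [← D.r_iter_simple, ← D.r_iter_simple]
    rcases FX_orb D (C.simple i) a b with h1 | ⟨δ, -, h2⟩
    · exact h1
    · exact absurd (FX_sum D _ δ h2).2.2.2 h
  have h2 : C.ip (C.simple ((D.ρ ^ a) i)).1 (C.simple ((D.ρ ^ b) i)).1 ≤ 0 := by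
    simp only [SLC.simple_val, SLC.ip_single]
    rcases C.off _ _ hne with h3 | h3 <;> omega
  omega

/-- positive roots supported on an orbit of simple roots -/
theorem supp_inO (D : Dg C) (i : Fin n) (γ : C.Root) (hγ : C.Pos γ) (h : D.supp i γ) :
    D.inO (C.simple i) γ := by
  have h0 := (C.pos_iff γ).1 hγ
  unfold Dg.supp at h
  by_cases ha : C.ip (C.simple i).1 (D.r (C.simple i)).1 = -1
  · obtain ⟨δ, hδ⟩ := C.exists_add _ _ ha
    obtain ⟨hne, hm, hm', -⟩ := FX_sum D _ δ hδ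
    have hi : D.ρ i ≠ i := fun h1 => hne (by rw [D.r_simple, h1])
    have hρ2 : D.ρ (D.ρ i) = i := by
      have h1 : D.ρ ^ 2 = 1 := by
        rw [← hm']
        exact pow_orderOf_eq_one _
      have h2 := congrArg (fun σ : Equiv.Perm (Fin n) => σ i) h1
      simpa [sq] using h2
    have hcyc : ∀ j, D.ρ.SameCycle i j → j = i ∨ j = D.ρ i := by
      intro j hj
      obtain ⟨a, h1, rfl⟩ := FX_cyc D i j hj
      rw [hm'] at h1
      have h2 : a = 0 ∨ a = 1 := by omega
      rcases h2 with rfl | rfl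
      · exact Or.inl rfl
      · exact Or.inr rfl
    have hv : γ.1 = γ.1 i • (C.simple i).1 + γ.1 (D.ρ i) • (C.simple (D.ρ i)).1 := by
      funext j
      simp only [Pi.add_apply, Pi.smul_apply, SLC.simple_val, smul_eq_mul]
      by_cases hk : D.ρ.SameCycle i j
      · rcases hcyc j hk with h1 | h1
        · rw [h1, Pi.single_eq_same, Pi.single_eq_of_ne hi.symm]
          ring
        · rw [h1, Pi.single_eq_same, Pi.single_eq_of_ne hi]
          ring
      · have h1 : γ.1 j = 0 := by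
          by_contra h1
          exact hk (h j h1)
        rw [Pi.single_eq_of_ne, Pi.single_eq_of_ne, h1]
        · ring
        · rintro rfl
          exact hk ⟨1, by simp⟩
        · rintro rfl
          exact hk (Equiv.Perm.SameCycle.refl _ _)
    have hnorm := γ.2
    have ha' : C.ip (C.simple i).1 (C.simple (D.ρ i)).1 = -1 := by
      rw [← D.r_simple]
      exact ha
    rw [hv, SLC.ip_add_left, SLC.ip_add_right, SLC.ip_add_right, SLC.ip_smul_left,
      SLC.ip_smul_left, SLC.ip_smul_left, SLC.ip_smul_left, SLC.ip_smul_right,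
      SLC.ip_smul_right, SLC.ip_smul_right, SLC.ip_smul_right, (C.simple i).2,
      (C.simple (D.ρ i)).2, ha', C.ip_comm (C.simple (D.ρ i)).1, ha'] at hnorm
    have h1 := h0 i
    have h2 := h0 (D.ρ i)
    generalize hA : γ.1 i = x at *
    generalize hB : γ.1 (D.ρ i) = y at *
    have h3 : (x - y) ^ 2 + x * y = 1 := by linarith
    have h4 : 0 ≤ x * y := mul_nonneg h1 h2
    have h5 : x * y = 0 ∨ x * y = 1 := by
      have : x * y ≤ 1 := by nlinarith [sq_nonneg (x - y)]
      omega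
    rcases h5 with h5 | h5
    · rcases mul_eq_zero.1 h5 with h6 | h6
      · have h7 : y = 1 := by
          rw [h6] at h3
          nlinarith
        left
        refine ⟨1, SLC.Root.ext ?_⟩
        change γ.1 = (D.r (C.simple i)).1
        rw [D.r_simple, hv, h6, h7, zero_smul, one_smul, zero_add]
      · have h7 : x = 1 := by
          rw [h6] at h3
          nlinarith
        left
        refine ⟨0, SLC.Root.ext ?_⟩
        change γ.1 = (C.simple i).1
        rw [hv, h6, h7, zero_smul, one_smul, add_zero]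
    · have h6 : x = y := by
        rw [h5] at h3
        have : (x - y) ^ 2 = 0 := by linarith
        have := pow_eq_zero_iff (two_ne_zero) |>.1 this
        omega
      have h7 : x = 1 := by
        rw [← h6] at h5
        nlinarith
      right
      rw [hv, ← h6, h7, one_smul, one_smul, D.r_simple]
  · obtain ⟨j, hj⟩ : ∃ j, γ.1 j ≠ 0 := by
      by_contra h1
      push Not at h1
      exact C.root_ne_zero γ (funext h1)
    have hcj := h j hj
    have h5 : C.ip (C.simple j).1 γ.1 = 2 * γ.1 j := by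
      rw [C.ip_comm, ← C.sum_ip_single, Finset.sum_eq_single j]
      · rw [SLC.simple_val, SLC.ip_single, C.diag, mul_comm]
      · intro l _ hl
        by_cases hl' : D.ρ.SameCycle i l
        · have := FX_ortho D i l j ha hl' hcj hl
          rw [SLC.simple_val] at this
          rw [this, mul_zero]
        · have h1 : γ.1 l = 0 := by
            by_contra h1
            exact hl' (h l h1)
          rw [h1, zero_mul]
      · intro hj
        exact absurd (Finset.mem_univ _) hj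
    have h6 := h0 j
    have h7 := C.ip_cases (C.simple j) γ
    have h8 : C.simple j = γ := by
      rw [← C.ip_eq_two_iff]
      omega
    obtain ⟨a, -, rfl⟩ := FX_cyc D i j hcj
    left
    exact ⟨a, by rw [← h8, D.r_iter_simple]⟩

private theorem FX_inO_iter (D : Dg C) (β γ : C.Root) (l : ℕ) (h : D.inO (D.r^[l] β) γ) :
    D.inO β γ := by
  rcases h with ⟨l', rfl⟩ | h
  · left
    exact ⟨l' + l, by rw [Function.iterate_add_apply]⟩
  · right
    have h1 := C.ip_add_root _ _ _ h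
    have h2 : D.r (D.r^[l] β) = D.r^[l + 1] β := (Function.iterate_succ_apply' _ _ _).symm
    rw [h2] at h h1
    rcases FX_orb D β l (l + 1) with h3 | ⟨δ, h3, h4⟩
    · omega
    · rw [h, ← h3, h4]

private theorem FX_XO_le (S : StSys C k H) (β : C.Root) (l : ℕ) :
    XO D S (D.r^[l] β) ≤ XO D S β := by
  unfold XO
  apply Subgroup.closure_mono
  rintro g ⟨γ, t, hγ, rfl⟩
  exact ⟨γ, t, FX_inO_iter D β γ l hγ, rfl⟩

private theorem FX_iter_neg (D : Dg C) (β : C.Root) (l : ℕ) : D.r^[l] (-β) = -(D.r^[l] β) := by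
  induction l with
  | zero => rfl
  | succ l ih =>
    rw [Function.iterate_succ_apply', ih, D.r_neg, Function.iterate_succ_apply']

private theorem FX_XO_simple (D : Dg C) (S : StSys C k H) (i j : Fin n) (h : D.ρ.SameCycle i j) :
    XO D S (C.simple j) ≤ XO D S (C.simple i) ∧
      XO D S (-(C.simple j)) ≤ XO D S (-(C.simple i)) := by
  obtain ⟨a, -, rfl⟩ := FX_cyc D i j h
  rw [← D.r_iter_simple, ← FX_iter_neg]
  exact ⟨FX_XO_le S _ a, FX_XO_le S _ a⟩

theorem fixX_simple_congr (S : StSys C k H) (s : H →* H) (i j : Fin n)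
    (h : D.ρ.SameCycle i j) : fixX D S s (C.simple i) = fixX D S s (C.simple j) ∧
      fixX D S s (-(C.simple i)) = fixX D S s (-(C.simple j)) := by
  have h1 := FX_XO_simple D S i j h
  have h2 := FX_XO_simple D S j i h.symm
  unfold fixX
  exact ⟨by rw [le_antisymm h2.1 h1.1], by rw [le_antisymm h2.2 h1.2]⟩

end Pool.Agent.H86.UM
end

section
/- module Pool.Agent.H86.UM.SR -/
/-!
# Project UM, module SR: the source structure of `Eg S s`

`U`, `T`, `X J` are the subgroups of `Eg S s` given by `fixU S s`, `S.T`, `fixX D S s (simple J.out)`;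
`q J x = xi J.out (p x)`, `a J h = chi (p h) (simple J.out)`; `ν J` is an element of `S.N ⊓ Eg S s` acting by
`wd (wl J.out)` (`exists_nJ`); `k0 = fixF θ`, `N = natAbs (det A)`.

Facts (all elements of `Eg S s` are fixed by `s`, `Eg_le_fix`; `p` maps `S.U m`, `S.T`, `S.N` to the
corresponding subgroups of `adS` by `S9_U`, `S9_T`, `S9_N`; for `h ∈ S.T`, `h x_β(u) h⁻¹ = x_β(c_β u)`
(`T_acts'`), with `c_β = chi (p h) β` (`T_fix`, `xg_inj`); `SR_T`).
* `SR_chi`: for `h ∈ S.T` fixed by `s`: `chi (p h) (r β) = θ (chi (p h) β)`: apply `s` to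
  `h x_β(u) h⁻¹ = x_β(c_β u)`.
* `T_comm` is `S.T_comm`; `T_conj_U`: `S.T_conj_U` and fixed points; `X_le`: `fixX_le_fixU`;
  `q_mul`: `xi_mul`; `a_mul`: `chi_mul` (`Fil_T`); `a_ne`: `T_fix`; `X_conj`: conjugation by `h ∈ T`
  maps root elements to root elements of the same root; `q_conj`: `xi_conj`.
* `q_smul`: `fixX_xi_exists` for `c * q J x` (if `ρ i = i` then `q J x` is fixed by `θ` by `fixX_xi`, `l = 1`).
* `ker_q`: `fixX_xi_zero` (transport the commutator subgroup to the subgroup `Eg S s`,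
  `Subgroup.map_commutator`, `subgroupOf`).
* `cent`: `a J h = 1` implies `chi (p h) (r^l β) = 1` (`SR_chi`), and `chi` is multiplicative on `β + r β`
  (`T_acts'`/`chi_prod`), so `h` commutes with `XO β`. `cent_neg`: `ν_J XO(β) ν_J⁻¹ ≤ XO(-β)` (`ν_J` acts by
  `w_J`, which maps the orbit of `β` to the negatives (`wJ_neg`, `wJ_supp`, `supp_inO`)), and
  `chi (p h) (-γ) = (chi (p h) γ)⁻¹`.
* `k0_inf`: if `k0` is finite, every `t ∈ k` is a root of `∏_{l<m} (X - θ^l t)`, a monic polynomial of degree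
  `m` over `k0`, so `k` is finite.
* `sep`: `v = ∑_{j ∈ J} y_j` with `ip w y_j = det * w j` (`exists_dual`), is `ρ`-invariant if the `y_j` are
  chosen as in `exists_dual` (`y_j = adjugate *ᵥ single j`, `adjugate` commutes with `ρ`; or replace
  `v` by the dual vector characterised by `ip w v = det * ∑_{j∈J} w j` for all `w`, which is unique as the
  form is nondegenerate, so invariant); `exists_tor` with `c = s` (and `s⁻¹` if `det < 0`; in fact
  `det > 0`), `sep` gives `a J h = s ^ det`.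
* `ν_conj`: `N_conj_T`, `Eg`. `a_ν`: `ν⁻¹ h ν` acts on `x_β` as `h` on `ν x_β ν⁻¹ = x_(w_J β)(..)`, and
  `w_J (simple i) = - simple j` for some `j` in the orbit of `i` (orthogonal case `j = i`, adjacent
  case `j = ρ i`: see `wJ_adj` and D5.lean), so `a J (ν⁻¹ h ν) = (θ^l (a J h))⁻¹ = (a J h)⁻¹` if
  `a J h ∈ k0`.
-/

set_option autoImplicit false
open Matrix

namespace Pool.Agent.H86.UM

open Pool.Agent.H75.UL

variable {n : ℕ} {C : SLC n} {D : Dg C} {k : Type*} [Field k] {θ : k ≃+* k} {H : Type*} [Group H]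
  {S : StSys C k H} {s : H →* H} {p : H →* GL C.Idx k}

private theorem SR_gad (he : Env D θ S s p) (h : H) (hh : h ∈ S.T) :
    p h ∈ C.Gad k ∧ C.Fil 0 (p h : Matrix C.Idx C.Idx k) := by
  have h1 := C.S9_T S p he.hp h hh
  refine ⟨?_, C.Fil_T _ h1⟩
  rw [← C.gen_adS k]
  exact (C.adS k).T_le_gen h1

private theorem SR_inj (he : Env D θ S s p) (β : C.Root) (u v : k) (hu : u ≠ 0)
    (h : S.x β u = S.x β v) : u = v := by
  have e1 := congrArg p h
  rw [he.hp, he.hp] at e1
  exact (C.xg_inj β β _ _ hu e1).2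

private theorem SR_sg_ne (D : Dg C) (β : C.Root) : (D.sg β : k) ≠ 0 := by
  rcases D.sg_eq β with h | h <;> simp [h]

theorem SR_T (he : Env D θ S s p) (h : H) (hh : h ∈ S.T) (β : C.Root) (u : k) :
    C.chi (p h : Matrix C.Idx C.Idx k) β ≠ 0 ∧
      h * S.x β u * h⁻¹ = S.x β (C.chi (p h : Matrix C.Idx C.Idx k) β * u) := by
  obtain ⟨c, hc, -, h3⟩ := S.T_acts' h hh
  have hT := C.S9_T S p he.hp h hh
  have key : C.chi (p h : Matrix C.Idx C.Idx k) β = c β := by
    have e1 := congrArg p (h3 β 1)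
    rw [map_mul, map_mul, map_inv, he.hp, he.hp, (C.T_fix (p h) hT β 1).2] at e1
    have e2 := (C.xg_inj β β _ _ (by
      rw [mul_one]
      exact (C.T_fix (p h) hT β 1).1) e1).2
    simpa using e2
  exact ⟨(C.T_fix (p h) hT β u).1, by rw [key]; exact h3 β u⟩

theorem SR_chi (he : Env D θ S s p) (h : H) (hh : h ∈ S.T) (hs : s h = h) (β : C.Root) :
    C.chi (p h : Matrix C.Idx C.Idx k) (D.r β) = θ (C.chi (p h : Matrix C.Idx C.Idx k) β) := by
  have h1 := congrArg s (SR_T he h hh β 1).2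
  rw [map_mul, map_mul, map_inv, hs, he.sig, he.sig, (SR_T he h hh (D.r β) _).2] at h1
  have h2 := SR_inj he _ _ _ (mul_ne_zero (SR_T he h hh (D.r β) 0).1 (by
    rw [map_one, mul_one]
    exact SR_sg_ne D β)) h1
  rw [map_one, mul_one, mul_one, mul_comm] at h2
  exact mul_left_cancel₀ (SR_sg_ne D β) h2

private theorem SR_add (he : Env D θ S s p) (h : H) (hh : h ∈ S.T) (α β γ : C.Root)
    (hγ : γ.1 = α.1 + β.1) : C.chi (p h : Matrix C.Idx C.Idx k) γ =
      C.chi (p h : Matrix C.Idx C.Idx k) α * C.chi (p h : Matrix C.Idx C.Idx k) β := by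
  obtain ⟨h1, h2⟩ := SR_gad he h hh
  rw [C.chi_prod _ h1 h2 γ, C.chi_prod _ h1 h2 α, C.chi_prod _ h1 h2 β,
    ← Finset.prod_mul_distrib]
  refine Finset.prod_congr rfl fun j _ => ?_
  rw [hγ, Pi.add_apply, zpow_add₀ (SR_T he h hh (C.simple j) 0).1]

private theorem SR_neg (he : Env D θ S s p) (h : H) (hh : h ∈ S.T) (β : C.Root) :
    C.chi (p h : Matrix C.Idx C.Idx k) (-β) = (C.chi (p h : Matrix C.Idx C.Idx k) β)⁻¹ := by
  obtain ⟨h1, h2⟩ := SR_gad he h hh
  rw [C.chi_prod _ h1 h2 (-β), C.chi_prod _ h1 h2 β, ← Finset.prod_inv_distrib]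
  refine Finset.prod_congr rfl fun j _ => ?_
  rw [SLC.Root.neg_val, Pi.neg_apply, _root_.zpow_neg]

private theorem SR_chi_iter (he : Env D θ S s p) (h : H) (hh : h ∈ S.T) (hs : s h = h)
    (β : C.Root) (l : ℕ) : C.chi (p h : Matrix C.Idx C.Idx k) (D.r^[l] β) =
      (⇑θ)^[l] (C.chi (p h : Matrix C.Idx C.Idx k) β) := by
  induction l with
  | zero => rfl
  | succ l ih =>
    rw [Function.iterate_succ_apply', Function.iterate_succ_apply', SR_chi he h hh hs, ih]

private theorem SR_comm (he : Env D θ S s p) (h : H) (hh : h ∈ S.T) (hs : s h = h) (β : C.Root)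
    (h1 : C.chi (p h : Matrix C.Idx C.Idx k) β = 1) (x : H) (hx : x ∈ XO D S β) :
    h * x = x * h := by
  have hr : ∀ l : ℕ, C.chi (p h : Matrix C.Idx C.Idx k) (D.r^[l] β) = 1 := by
    intro l
    rw [SR_chi_iter he h hh hs, h1, iterate_map_one]
  have hO : ∀ γ, D.inO β γ → C.chi (p h : Matrix C.Idx C.Idx k) γ = 1 := by
    rintro γ (⟨l, rfl⟩ | hγ)
    · exact hr l
    · rw [SR_add he h hh β (D.r β) γ hγ, h1, one_mul]
      exact hr 1
  unfold XO at hx
  induction hx using Subgroup.closure_induction with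
  | mem g hg =>
    obtain ⟨γ, t, hγ, rfl⟩ := hg
    have h2 := (SR_T he h hh γ t).2
    rw [hO γ hγ, one_mul] at h2
    exact mul_inv_eq_iff_eq_mul.mp h2
  | one => rw [mul_one, one_mul]
  | mul a b _ _ ha hb => rw [← mul_assoc, ha, mul_assoc, hb, mul_assoc]
  | inv a _ ha =>
    have : Commute h a := ha
    exact this.inv_right

theorem SR_cent (he : Env D θ S s p) (h : H) (hh : h ∈ S.T) (hs : s h = h) (i : Fin n)
    (h1 : C.chi (p h : Matrix C.Idx C.Idx k) (C.simple i) = 1) :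
    (∀ x ∈ XO D S (C.simple i), h * x = x * h) ∧
      ∀ x ∈ XO D S (-(C.simple i)), h * x = x * h :=
  ⟨fun x hx => SR_comm he h hh hs _ h1 x hx, fun x hx => SR_comm he h hh hs _ (by
    rw [SR_neg he h hh, h1, inv_one]) x hx⟩

theorem SR_k0_inf (he : Env D θ S s p) : Infinite (fixF θ) := by
  by_contra hfin
  rw [not_infinite_iff_finite] at hfin
  have hm : θ ^ D.m = 1 := by
    ext t
    have h1 : (⇑(θ ^ D.m)) = (⇑θ)^[D.m] := by
      exact (RingAut.coe_pow θ D.m)
    rw [h1, he.hθ]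
    rfl
  have hm0 : 0 < D.m := by
    rcases D.m_cases with h | h | h <;> omega
  have hfo : IsOfFinOrder (θ : RingAut k) := isOfFinOrder_iff_pow_eq_one.mpr ⟨D.m, hm0, hm⟩
  have h0 : Finite (Subgroup.zpowers (θ : RingAut k)) := (finite_zpowers.mpr hfo).to_subtype
  have h1 : Finite (FixedPoints.subfield (Subgroup.zpowers (θ : RingAut k)) k) := by
    refine Finite.of_injective (β := fixF θ) (fun t => ⟨t.1, ?_⟩) ?_
    · exact t.2 ⟨θ, Subgroup.mem_zpowers θ⟩
    · intro a b hab
      exact Subtype.ext (congrArg (fun x : fixF θ => x.1) hab)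
  have h2 : FiniteDimensional (FixedPoints.subfield (Subgroup.zpowers (θ : RingAut k)) k) k :=
    inferInstance
  have h3 : Finite k :=
    Module.finite_of_finite (FixedPoints.subfield (Subgroup.zpowers (θ : RingAut k)) k)
  exact he.inf.not_finite h3

theorem SR_sep (he : Env D θ S s p) (i : Fin n) (c : k) (hc : c ∈ fixF θ) (hc0 : c ≠ 0) :
    ∃ h ∈ S.T ⊓ Eg S s,
      (∀ j, D.ρ.SameCycle i j → C.chi (p h : Matrix C.Idx C.Idx k) (C.simple j) =
        c ^ C.A.det.natAbs) ∧
      ∀ j, ¬ D.ρ.SameCycle i j → C.chi (p h : Matrix C.Idx C.Idx k) (C.simple j) = 1 := by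
  classical
  choose y hy using C.exists_dual
  obtain ⟨v, hv⟩ : ∃ v : Fin n → ℤ, ∀ w, C.ip w v =
      C.A.det * ∑ j, if D.ρ.SameCycle i j then w j else 0 := by
    refine ⟨∑ j, if D.ρ.SameCycle i j then y j else 0, fun w => ?_⟩
    have hsum : ∀ (t : Finset (Fin n)) (g : Fin n → Fin n → ℤ),
        C.ip w (∑ j ∈ t, g j) = ∑ j ∈ t, C.ip w (g j) := by
      intro t g
      induction t using Finset.induction_on with
      | empty => rw [Finset.sum_empty, Finset.sum_empty, C.ip_zero_right]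
      | insert a t ha ih => rw [Finset.sum_insert ha, Finset.sum_insert ha, C.ip_add_right, ih]
    rw [hsum, Finset.mul_sum]
    refine Finset.sum_congr rfl fun j _ => ?_
    split_ifs
    · exact hy j w
    · rw [C.ip_zero_right, mul_zero]
  have hinv : SLC.lmap D.ρ v = v := by
    have h1 : ∀ w, C.ip w (SLC.lmap D.ρ v) = C.ip w v := by
      intro w
      have e1 : w = SLC.lmap D.ρ (SLC.lmap D.ρ.symm w) := by
        funext j
        simp [SLC.lmap]
      conv_lhs => rw [e1]
      rw [C.ip_lmap D.ρ D.hρ, hv, hv]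
      congr 1
      rw [← Equiv.sum_comp D.ρ (fun j => if D.ρ.SameCycle i j then w j else 0)]
      refine Finset.sum_congr rfl fun j _ => ?_
      by_cases hj : D.ρ.SameCycle i j
      · rw [if_pos hj, if_pos (Equiv.Perm.sameCycle_apply_right.mpr hj)]
        rfl
      · rw [if_neg hj, if_neg (fun h => hj (Equiv.Perm.sameCycle_apply_right.mp h))]
    by_contra hne
    have h2 : SLC.lmap D.ρ v - v ≠ 0 := sub_ne_zero.mpr hne
    have h3 := C.ip_pos _ h2
    rw [C.ip_sub_right, h1, sub_self] at h3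
    exact lt_irrefl _ h3
  have key : ∀ c' : k, c' ≠ 0 → θ c' = c' → ∃ h ∈ S.T ⊓ Eg S s,
      (∀ j, D.ρ.SameCycle i j → C.chi (p h : Matrix C.Idx C.Idx k) (C.simple j) =
        c' ^ C.A.det) ∧
      ∀ j, ¬ D.ρ.SameCycle i j → C.chi (p h : Matrix C.Idx C.Idx k) (C.simple j) = 1 := by
    intro c' h0 h1
    obtain ⟨τ, hτ, hact⟩ := exists_tor he.sig he.hθ he.hA v hinv c' h0 h1
    have h2 : ∀ β, C.chi (p τ : Matrix C.Idx C.Idx k) β = c' ^ C.ip v β.1 := by
      intro β
      have h3 := (SR_T he τ hτ.1 β 1).2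
      rw [hact β 1] at h3
      have h4 := SR_inj he β _ _ (mul_ne_zero (zpow_ne_zero _ h0) one_ne_zero) h3
      rw [mul_one, mul_one] at h4
      exact h4.symm
    have h5 : ∀ j, C.ip v (C.simple j).1 = C.A.det * if D.ρ.SameCycle i j then 1 else 0 := by
      intro j
      rw [C.ip_comm, hv, Finset.sum_eq_single j]
      · rw [SLC.simple_val, Pi.single_eq_same]
      · intro l _ hl
        rw [SLC.simple_val, Pi.single_eq_of_ne hl, ite_self]
      · intro h
        exact absurd (Finset.mem_univ j) h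
    refine ⟨τ, hτ, fun j hj => ?_, fun j hj => ?_⟩
    · rw [h2, h5, if_pos hj, mul_one]
    · rw [h2, h5, if_neg hj, mul_zero, zpow_zero]
  rcases le_or_gt 0 C.A.det with hd | hd
  · obtain ⟨h, hh, h1, h2⟩ := key c hc0 hc
    refine ⟨h, hh, fun j hj => ?_, h2⟩
    rw [h1 j hj]
    obtain ⟨m, hm⟩ := Int.eq_ofNat_of_zero_le hd
    rw [hm, zpow_natCast, Int.natAbs_natCast]
  · obtain ⟨h, hh, h1, h2⟩ := key c⁻¹ (inv_ne_zero hc0) (by rw [map_inv₀, (mem_fixF θ c).mp hc])
    refine ⟨h, hh, fun j hj => ?_, h2⟩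
    rw [h1 j hj]
    obtain ⟨m, hm⟩ := Int.eq_ofNat_of_zero_le (show 0 ≤ -C.A.det by omega)
    have hm' : C.A.det = -(m : ℤ) := by omega
    rw [hm', _root_.zpow_neg, _root_.inv_zpow, inv_inv, zpow_natCast, Int.natAbs_neg, Int.natAbs_natCast]

private theorem SR_inO_pos (i : Fin n) (γ : C.Root) (h : D.inO (C.simple i) γ) :
    C.Pos γ ∧ D.supp i γ := by
  have hl : ∀ l : ℕ, C.Pos (C.simple ((D.ρ ^ l) i)) ∧ D.supp i (C.simple ((D.ρ ^ l) i)) := by
    intro l
    refine ⟨C.simple_pos _, fun j hj => ?_⟩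
    rw [SLC.simple_val] at hj
    have : j = (D.ρ ^ l) i := by
      by_contra hne
      exact hj (Pi.single_eq_of_ne hne _)
    rw [this]
    exact ⟨l, by rw [zpow_natCast]⟩
  rcases h with ⟨l, rfl⟩ | h
  · rw [D.r_iter_simple]
    exact hl l
  · rw [D.r_simple] at h
    have h0 := hl 0
    have h1 := hl 1
    rw [pow_zero, Equiv.Perm.one_apply] at h0
    rw [pow_one] at h1
    refine ⟨?_, fun j hj => ?_⟩
    · have a1 := h0.1
      have a2 := h1.1
      unfold SLC.Pos at a1 a2 ⊢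
      rw [h, ht_add]
      omega
    · rw [h, Pi.add_apply] at hj
      by_cases h2 : (C.simple i).1 j = 0
      · exact h1.2 j (fun h3 => hj (by rw [h2, h3, add_zero]))
      · exact h0.2 j h2

private theorem SR_iter_neg (D : Dg C) (l : ℕ) (β : C.Root) : D.r^[l] (-β) = -(D.r^[l] β) := by
  induction l with
  | zero => rfl
  | succ l ih => rw [Function.iterate_succ_apply', Function.iterate_succ_apply', ih, D.r_neg]

private theorem SR_inO_neg (D : Dg C) (β γ : C.Root) (hγ : D.inO β γ) : D.inO (-β) (-γ) := by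
  rcases hγ with ⟨l, rfl⟩ | h
  · exact Or.inl ⟨l, (SR_iter_neg D l β).symm⟩
  · right
    rw [D.r_neg, SLC.Root.neg_val, SLC.Root.neg_val, SLC.Root.neg_val, h, neg_add]

private theorem SR_supp_neg (i : Fin n) (β : C.Root) (h : D.supp i β) : D.supp i (-β) := by
  intro j hj
  apply h j
  rw [SLC.Root.neg_val, Pi.neg_apply, neg_ne_zero] at hj
  exact hj

private theorem SR_w1 (D : Dg C) (i : Fin n) (γ : C.Root) (h : D.inO (C.simple i) γ) :
    D.inO (-(C.simple i)) (C.wd (D.wl i) γ) := by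
  obtain ⟨h1, h2⟩ := SR_inO_pos i γ h
  have h3 := D.wJ_neg i γ h1 h2
  rw [C.not_pos_iff] at h3
  have h4 := SR_supp_neg i _ ((D.wJ_supp i γ).mpr h2)
  have h5 := SR_inO_neg D _ _ (supp_inO D i _ h3 h4)
  rwa [C.neg_neg_root] at h5

private theorem SR_w2 (D : Dg C) (i : Fin n) (γ : C.Root) (h : D.inO (-(C.simple i)) γ) :
    D.inO (C.simple i) (C.wd (D.wl i) γ) := by
  have h1 := SR_inO_neg D _ _ h
  rw [C.neg_neg_root] at h1
  have h2 := SR_inO_neg D _ _ (SR_w1 D i _ h1)
  rwa [C.W_neg _ (C.wd_mem_W _), C.neg_neg_root, C.neg_neg_root] at h2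

private theorem SR_map (S : StSys C k H) (ν : H) (w : Equiv.Perm C.Root) (ha : S.Acts ν w)
    (β β' : C.Root) (hO : ∀ γ, D.inO β γ → D.inO β' (w γ)) (x : H) (hx : x ∈ XO D S β) :
    ν * x * ν⁻¹ ∈ XO D S β' := by
  obtain ⟨c, hc, hact⟩ := ha
  unfold XO at hx
  induction hx using Subgroup.closure_induction with
  | mem g hg =>
    obtain ⟨γ, t, hγ, rfl⟩ := hg
    rw [hact]
    exact Subgroup.subset_closure ⟨_, _, hO γ hγ, rfl⟩
  | one =>
    rw [mul_one, mul_inv_cancel]
    exact Subgroup.one_mem _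
  | mul a b _ _ ha hb =>
    have : ν * (a * b) * ν⁻¹ = (ν * a * ν⁻¹) * (ν * b * ν⁻¹) := by group
    rw [this]
    exact Subgroup.mul_mem _ ha hb
  | inv a _ ha =>
    have : ν * a⁻¹ * ν⁻¹ = (ν * a * ν⁻¹)⁻¹ := by group
    rw [this]
    exact Subgroup.inv_mem _ ha

/-- conjugation by `ν_J` exchanges the positive and negative simple root groups -/
theorem SR_ν (he : Env D θ S s p) (i : Fin n) (ν : H) (hν : ν ∈ S.N ⊓ Eg S s)
    (ha : S.Acts ν (C.wd (D.wl i))) :
    (∀ x, x ∈ XO D S (C.simple i) ↔ ν * x * ν⁻¹ ∈ XO D S (-(C.simple i))) ∧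
    (∀ x, x ∈ fixX D S s (C.simple i) ↔ ν * x * ν⁻¹ ∈ fixX D S s (-(C.simple i))) ∧
    ∃ l : ℕ, ∀ h ∈ S.T ⊓ Eg S s, C.chi (p (ν⁻¹ * h * ν) : Matrix C.Idx C.Idx k) (C.simple i) =
      ((⇑θ)^[l] (C.chi (p h : Matrix C.Idx C.Idx k) (C.simple i)))⁻¹ := by
  have hw2 : (C.wd (D.wl i))⁻¹ = C.wd (D.wl i) := by
    rw [inv_eq_iff_mul_eq_one]
    exact D.wJ_sq i
  have ha' : S.Acts ν⁻¹ (C.wd (D.wl i)) := by
    have h1 := C.Acts_inv S ν _ ha
    rwa [hw2] at h1
  have hX : ∀ x, x ∈ XO D S (C.simple i) ↔ ν * x * ν⁻¹ ∈ XO D S (-(C.simple i)) := by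
    intro x
    constructor
    · exact SR_map S ν _ ha _ _ (SR_w1 D i) x
    · intro hx
      have h1 := SR_map S ν⁻¹ _ ha' _ _ (SR_w2 D i) _ hx
      have h2 : ν⁻¹ * (ν * x * ν⁻¹) * ν⁻¹⁻¹ = x := by group
      rwa [h2] at h1
  have hsν : s ν = ν := Eg_le_fix S s ν hν.2
  have hfix : ∀ x, s x = x ↔ s (ν * x * ν⁻¹) = ν * x * ν⁻¹ := by
    intro x
    rw [map_mul, map_mul, map_inv, hsν]
    constructor
    · intro h
      rw [h]
    · intro h
      exact mul_left_cancel (mul_right_cancel h)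
  refine ⟨hX, fun x => ?_, ?_⟩
  · unfold fixX
    rw [Subgroup.mem_inf, Subgroup.mem_inf]
    exact and_congr (hX x) (hfix x)
  · obtain ⟨l, hl⟩ : ∃ l : ℕ, C.wd (D.wl i) (C.simple i) = -(D.r^[l] (C.simple i)) := by
      by_cases hadj : C.A i (D.ρ i) = -1
      · have hip : C.ip (C.simple i).1 (C.simple (D.ρ i)).1 = -1 := by
          rw [SLC.simple_val, SLC.simple_val, SLC.ip_single]
          exact hadj
        obtain ⟨γ, hγ⟩ := C.exists_add _ _ hip
        refine ⟨1, ?_⟩
        rw [D.wJ_adj i hadj γ hγ, SLC.reflE_apply]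
        apply SLC.Root.ext
        rw [SLC.refl_val, SLC.Root.neg_val]
        have h1 : C.ip γ.1 (C.simple i).1 = 1 := by
          rw [hγ, C.ip_add_left, (C.simple i).2, C.ip_comm (C.simple (D.ρ i)).1, hip]
          norm_num
        have h2 : (D.r^[1] (C.simple i)) = C.simple (D.ρ i) := D.r_simple i
        rw [h1, h2, hγ]
        module
      · have h0 : D.inO (C.simple i) (C.simple i) := Or.inl ⟨0, rfl⟩
        rcases SR_w1 D i _ h0 with ⟨l, hl⟩ | hl
        · exact ⟨l, by rw [hl, SR_iter_neg]⟩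
        · exfalso
          have h1 := C.ip_add_root _ _ _ hl
          rw [D.r_neg, SLC.Root.neg_val, SLC.Root.neg_val, C.ip_neg_neg, D.r_simple,
            SLC.simple_val, SLC.simple_val, SLC.ip_single] at h1
          exact hadj h1
    refine ⟨l, fun h hh => ?_⟩
    have hT : ν⁻¹ * h * ν ∈ S.T := by
      have h1 := S.N_conj_T ν⁻¹ h (Subgroup.inv_mem _ hν.1) hh.1
      rwa [inv_inv] at h1
    obtain ⟨c, hc, hact⟩ := ha
    have h1 := (SR_T he _ hT (C.simple i) 1).2
    have h2 : ν⁻¹ * h * ν * S.x (C.simple i) 1 * (ν⁻¹ * h * ν)⁻¹ =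
        ν⁻¹ * (h * (ν * S.x (C.simple i) 1 * ν⁻¹) * h⁻¹) * ν := by group
    rw [h2, hact, (SR_T he h hh.1 _ _).2] at h1
    have h3 := hact (C.simple i) (C.chi (p (ν⁻¹ * h * ν) : Matrix C.Idx C.Idx k) (C.simple i) * 1)
    rw [← h1] at h3
    have h4 : ν * (ν⁻¹ * S.x ((C.wd (D.wl i)) (C.simple i))
        (C.chi (p h : Matrix C.Idx C.Idx k) ((C.wd (D.wl i)) (C.simple i)) *
          (c (C.simple i) * 1)) * ν) * ν⁻¹ = S.x ((C.wd (D.wl i)) (C.simple i))
        (C.chi (p h : Matrix C.Idx C.Idx k) ((C.wd (D.wl i)) (C.simple i)) *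
          (c (C.simple i) * 1)) := by group
    rw [h4] at h3
    have h5 := SR_inj he _ _ _ (mul_ne_zero (SR_T he h hh.1 _ 0).1
      (mul_ne_zero (hc _) one_ne_zero)) h3
    rw [mul_one, mul_one, mul_comm] at h5
    have h6 := mul_left_cancel₀ (hc _) h5
    rw [← h6, hl, SR_neg he h hh.1, SR_chi_iter he h hh.1 (Eg_le_fix S s h hh.2)]

/-- the element `ν_J` -/
noncomputable def nuJ (he : Env D θ S s p) (i : Fin n) : H :=
  (exists_nJ he.sig he.hθ he.hA i).choose

theorem nuJ_mem (he : Env D θ S s p) (i : Fin n) : nuJ he i ∈ S.N ⊓ Eg S s :=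
  (exists_nJ he.sig he.hθ he.hA i).choose_spec.1

theorem nuJ_acts (he : Env D θ S s p) (i : Fin n) : S.Acts (nuJ he i) (C.wd (D.wl i)) :=
  (exists_nJ he.sig he.hθ he.hA i).choose_spec.2

end Pool.Agent.H86.UM
end

section
/- module Pool.Agent.H86.UM.GEN -/
/-!
# Project UM, module GEN: `Eg S s` is generated by the simple root groups

Let `G₀` be the subgroup generated by the `fixX D S s (± simple i)`. By `fixU_eq`, `fixUm_eq` (UT/D3; hypotheses
from `inj_of_map`, `he.hB`) it is enough that `fixX β ≤ G₀` for all roots `β`.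
(1) For each `i` there is `ν ∈ G₀ ∩ S.N` acting by `wd (wl i)`: the elements constructed in `exists_nJ`
(UT/D6a) are products of elements of `fixX (± simple i)`: non-adjacent: `y(1) y⁻(1) y(1)` with
`y = yb (simple i)`, `y⁻ = yb (- simple i)` (`prod_nn_mem` proof in UT/D6y); adjacent: `nn x γ e`, with
`x_γ(e) ∈ fixX (simple i)`, `x_(-γ)(e⁻¹) ∈ fixX (- simple i)`.
(2) Let `β` be positive, not supported on one orbit of simple roots. There is a simple `α_i` with
`ip β α_j > 0` for some `j` in the orbit `J` of `i` (else `ip β β ≤ 0`); more precisely let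
`B = ∑_{j∈J} α_j`; `∑_J (coefficient) ..`: it is enough to find `J` such that `w_J β` has smaller height:
since `β + r β + ..` (the sum over the orbit, invariant, positive norm) has positive inner product with some
`B_J`, so has `β` (`ip (r β) B_J = ip β B_J`); `w_J β = β - ∑ (..)` subtracts a positive multiple of `B_J` from
the orbit sum, so its height is smaller (orthogonal case: `w_J β = β - ∑_{j∈J} ip β α_j α_j`, height
decreases by `ip β B_J`; adjacent case: `w_J = reflE γ`, `γ = B_J`, height decreases by `2 ip β γ`).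
`w_J β` is positive (`wJ_pos`). `ν fixX(β) ν⁻¹ = fixX (w_J β)` (`ν` fixed by `s`, acts by `w_J` which commutes
with `ρ`, `wJ_comm`, and is additive on roots), so induct on the height. (3) `β` positive and supported on the
orbit of `i`: `inO (simple i) β` (`supp_inO`), so `XO β ≤ XO (simple i)`, `fixX β ≤ fixX (simple i)`.
Negative roots: `S.neg` (`IsSig.neg`, `neg_x`) or conjugation with the `ν`.
-/

set_option autoImplicit false
open Matrix

namespace Pool.Agent.H86.UM

open Pool.Agent.H75.UL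

section descent
variable {n : ℕ} {C : SLC n} {D : Dg C}

private theorem GEN_m_pos : 0 < D.m := by
  rcases D.m_cases with h | h | h <;> omega

private theorem GEN_wd_cons (j : Fin n) (l : List (Fin n)) :
    C.wd (j :: l) = C.reflE (C.simple j) * C.wd l := by
  simp [SLC.wd]

private theorem GEN_cyc (i j : Fin n) (h : D.ρ.SameCycle i j) :
    ∃ l, l < D.m ∧ (D.ρ ^ l) i = j := by
  obtain ⟨z, hz⟩ := h
  have hm : 0 < D.m := GEN_m_pos
  have h1 : 0 ≤ z % (D.m : ℤ) := Int.emod_nonneg _ (by omega)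
  have h2 : z % (D.m : ℤ) < D.m := Int.emod_lt_of_pos _ (by omega)
  refine ⟨(z % (D.m : ℤ)).toNat, by omega, ?_⟩
  have h3 : D.ρ ^ (z % (D.m : ℤ)) = D.ρ ^ z := zpow_mod_orderOf _ _
  rw [← hz, ← h3]
  conv_rhs => rw [← Int.toNat_of_nonneg h1]
  rw [zpow_natCast]

private theorem GEN_same (i : Fin n) (l : ℕ) : D.ρ.SameCycle i ((D.ρ ^ l) i) :=
  ⟨l, by rw [zpow_natCast]⟩

private theorem GEN_A_pow (l : ℕ) (i k : Fin n) :
    C.A ((D.ρ ^ l) i) ((D.ρ ^ l) k) = C.A i k := by
  induction l with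
  | zero => rfl
  | succ l ih =>
    rw [pow_succ', Equiv.Perm.mul_apply, Equiv.Perm.mul_apply, D.hρ, ih]

private theorem GEN_simple_ne (i : Fin n) (h : D.ρ i ≠ i) :
    D.r (C.simple i) ≠ C.simple i := by
  rw [D.r_simple]
  exact fun h1 => h (C.simple_injective h1)

private theorem GEN_orth (i j k : Fin n) (h : C.A i (D.ρ i) ≠ -1) (hj : D.ρ.SameCycle i j)
    (hk : D.ρ.SameCycle i k) (hne : j ≠ k) : C.A j k = 0 := by
  obtain ⟨a, ha, rfl⟩ := GEN_cyc i j hj
  obtain ⟨b, hb, rfl⟩ := GEN_cyc i k hk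
  by_cases hi : D.ρ i = i
  · exfalso
    apply hne
    rw [Equiv.Perm.pow_apply_eq_self_of_apply_eq_self hi,
      Equiv.Perm.pow_apply_eq_self_of_apply_eq_self hi]
  · have h0 : ∀ l, 0 < l → l < D.m → C.A i ((D.ρ ^ l) i) = 0 := by
      intro l hl hl'
      have h1 := D.ip_orb (C.simple i) (GEN_simple_ne i hi) l hl hl'
      rw [D.r_iter_simple, D.r_simple] at h1
      simp only [SLC.simple_val, SLC.ip_single] at h1
      rw [h1]
      rcases D.ip_r (C.simple i) (GEN_simple_ne i hi) with h2 | ⟨-, h2⟩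
      · rw [D.r_simple] at h2
        simpa only [SLC.simple_val, SLC.ip_single] using h2
      · rw [D.r_simple] at h2
        simp only [SLC.simple_val, SLC.ip_single] at h2
        exact absurd h2 h
    rcases lt_trichotomy a b with hab | hab | hab
    · have h1 : (D.ρ ^ b) i = (D.ρ ^ a) ((D.ρ ^ (b - a)) i) := by
        rw [← Equiv.Perm.mul_apply, ← pow_add]
        congr 2
        omega
      rw [h1, GEN_A_pow]
      exact h0 _ (by omega) (by omega)
    · exact absurd (by rw [hab]) hne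
    · have h1 : (D.ρ ^ a) i = (D.ρ ^ b) ((D.ρ ^ (a - b)) i) := by
        rw [← Equiv.Perm.mul_apply, ← pow_add]
        congr 2
        omega
      rw [h1, GEN_A_pow, C.symm]
      exact h0 _ (by omega) (by omega)

private theorem GEN_mem (i j : Fin n) (h : C.A i (D.ρ i) ≠ -1) :
    j ∈ D.wl i ↔ D.ρ.SameCycle i j := by
  unfold Dg.wl
  rw [if_neg h]
  split_ifs with hi
  · rw [List.mem_singleton]
    constructor
    · rintro rfl
      exact Equiv.Perm.SameCycle.refl _ _
    · intro hj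
      obtain ⟨a, ha, rfl⟩ := GEN_cyc i j hj
      exact Equiv.Perm.pow_apply_eq_self_of_apply_eq_self hi a
  · rw [List.mem_map]
    constructor
    · rintro ⟨l, -, rfl⟩
      exact GEN_same i l
    · intro hj
      obtain ⟨a, ha, rfl⟩ := GEN_cyc i j hj
      exact ⟨a, List.mem_range.2 ha, rfl⟩

private theorem GEN_nodup (i : Fin n) (h : C.A i (D.ρ i) ≠ -1) : (D.wl i).Nodup := by
  unfold Dg.wl
  rw [if_neg h]
  split_ifs with hi
  · exact List.nodup_singleton _
  · refine List.Nodup.map_on ?_ List.nodup_range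
    intro a ha b hb hab
    rw [List.mem_range] at ha hb
    refine D.r_iter_eq (C.simple i) (GEN_simple_ne i hi) a b ha hb ?_
    rw [D.r_iter_simple, D.r_iter_simple, hab]

private theorem GEN_wd_out (l : List (Fin n)) (β : C.Root) (k : Fin n) (hk : k ∉ l) :
    (C.wd l β).1 k = β.1 k := by
  induction l with
  | nil => rfl
  | cons j l ih =>
    rw [List.mem_cons, not_or] at hk
    rw [GEN_wd_cons, Equiv.Perm.mul_apply, SLC.reflE_apply, SLC.refl_val]
    simp only [Pi.sub_apply, Pi.smul_apply, SLC.simple_val, Pi.single_eq_of_ne hk.1, smul_zero,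
      sub_zero]
    exact ih hk.2

private theorem GEN_ip_orth (l : List (Fin n)) (β : C.Root) (j : Fin n)
    (h : ∀ k ∈ l, C.A j k = 0) :
    C.ip (C.simple j).1 (C.wd l β).1 = C.ip (C.simple j).1 β.1 := by
  induction l with
  | nil => rfl
  | cons k l ih =>
    rw [GEN_wd_cons, Equiv.Perm.mul_apply, SLC.reflE_apply, SLC.refl_val, SLC.ip_sub_right,
      SLC.ip_smul_right]
    have h1 : C.ip (C.simple j).1 (C.simple k).1 = 0 := by
      simp only [SLC.simple_val, SLC.ip_single]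
      exact h k List.mem_cons_self
    rw [h1, mul_zero, sub_zero]
    exact ih fun k' hk' => h k' (List.mem_cons_of_mem _ hk')

private theorem GEN_wd_in (l : List (Fin n)) (hnd : l.Nodup)
    (ho : ∀ j ∈ l, ∀ k ∈ l, j ≠ k → C.A j k = 0) (β : C.Root) (k : Fin n) (hk : k ∈ l) :
    (C.wd l β).1 k = β.1 k - C.ip (C.simple k).1 β.1 := by
  induction l with
  | nil => exact absurd hk List.not_mem_nil
  | cons j l ih =>
    rw [List.nodup_cons] at hnd
    rw [GEN_wd_cons, Equiv.Perm.mul_apply, SLC.reflE_apply, SLC.refl_val]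
    simp only [Pi.sub_apply, Pi.smul_apply, SLC.simple_val]
    by_cases hkj : k = j
    · subst hkj
      have h1 := GEN_ip_orth l β k fun k' hk' => ho k List.mem_cons_self k'
        (List.mem_cons_of_mem _ hk') (fun he => hnd.1 (he ▸ hk'))
      simp only [SLC.simple_val] at h1
      rw [h1, GEN_wd_out l β k hnd.1, Pi.single_eq_same, smul_eq_mul, mul_one]
    · have hk' : k ∈ l := by
        rcases List.mem_cons.1 hk with h | h
        · exact absurd h hkj
        · exact h
      rw [Pi.single_eq_of_ne hkj, smul_zero, sub_zero]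
      exact ih hnd.2 (fun a ha b hb => ho a (List.mem_cons_of_mem _ ha) b
        (List.mem_cons_of_mem _ hb)) hk'

private theorem GEN_in (i : Fin n) (h : C.A i (D.ρ i) ≠ -1) (β : C.Root) (k : Fin n)
    (hk : D.ρ.SameCycle i k) :
    (C.wd (D.wl i) β).1 k = β.1 k - C.ip (C.simple k).1 β.1 :=
  GEN_wd_in _ (GEN_nodup i h) (fun a ha b hb hab =>
    GEN_orth i a b h ((GEN_mem i a h).1 ha) ((GEN_mem i b h).1 hb) hab) β k
    ((GEN_mem i k h).2 hk)

private theorem GEN_out (i : Fin n) (h : C.A i (D.ρ i) ≠ -1) (β : C.Root) (k : Fin n)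
    (hk : ¬ D.ρ.SameCycle i k) : (C.wd (D.wl i) β).1 k = β.1 k :=
  GEN_wd_out _ β k fun h1 => hk ((GEN_mem i k h).1 h1)

private theorem GEN_comm (i : Fin n) (β : C.Root) :
    D.r (C.wd (D.wl i) β) = C.wd (D.wl i) (D.r β) := by
  have h := D.wJ_comm i
  rw [mul_inv_eq_iff_eq_mul] at h
  have h3 := congrArg (fun σ : Equiv.Perm C.Root => σ β) h
  simpa using h3

private theorem GEN_comm_iter (i : Fin n) (l : ℕ) (β : C.Root) :
    D.r^[l] (C.wd (D.wl i) β) = C.wd (D.wl i) (D.r^[l] β) := by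
  induction l with
  | zero => rfl
  | succ l ih => rw [Function.iterate_succ_apply', ih, GEN_comm, Function.iterate_succ_apply']

private theorem GEN_ip_sum (C : SLC n) {ι : Type*} (v : Fin n → ℤ) (s : Finset ι)
    (f : ι → Fin n → ℤ) : C.ip v (∑ i ∈ s, f i) = ∑ i ∈ s, C.ip v (f i) :=
  map_sum (AddMonoidHom.mk' (C.ip v) (C.ip_add_right v)) f s

private theorem GEN_lmap_sum {ι : Type*} (π : Equiv.Perm (Fin n)) (s : Finset ι)
    (f : ι → Fin n → ℤ) : SLC.lmap π (∑ i ∈ s, f i) = ∑ i ∈ s, SLC.lmap π (f i) :=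
  map_sum (AddMonoidHom.mk' (SLC.lmap π) (SLC.lmap_add π)) f s

private theorem GEN_ht_sum {ι : Type*} (s : Finset ι)
    (f : ι → Fin n → ℤ) : ht (∑ i ∈ s, f i) = ∑ i ∈ s, ht (f i) :=
  map_sum (AddMonoidHom.mk' (ht (n := n)) ht_add) f s

private theorem GEN_ht_iter (β : C.Root) (l : ℕ) : ht (D.r^[l] β).1 = ht β.1 := by
  induction l with
  | zero => rfl
  | succ l ih => rw [Function.iterate_succ_apply', D.r_ht, ih]

/-- the orbit sum -/
private noncomputable def GEN_B (D : Dg C) (β : C.Root) : Fin n → ℤ :=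
  ∑ l ∈ Finset.range D.m, (D.r^[l] β).1

private theorem GEN_inv (β : C.Root) : SLC.lmap D.ρ (GEN_B D β) = GEN_B D β := by
  unfold GEN_B
  rw [GEN_lmap_sum]
  have h1 : ∀ l, SLC.lmap D.ρ (D.r^[l] β).1 = (D.r^[l + 1] β).1 := by
    intro l
    rw [Function.iterate_succ_apply']
    rfl
  rw [Finset.sum_congr rfl (fun l _ => h1 l)]
  have h2 := Finset.sum_range_succ' (fun l => (D.r^[l] β).1) D.m
  have h3 := Finset.sum_range_succ (fun l => (D.r^[l] β).1) D.m
  rw [h3] at h2
  simp only [D.r_m, Function.iterate_zero_apply] at h2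
  exact (add_right_cancel h2).symm

private theorem GEN_ip_inv (v : Fin n → ℤ) (hv : SLC.lmap D.ρ v = v) (β : C.Root) (l : ℕ) :
    C.ip v (D.r^[l] β).1 = C.ip v β.1 := by
  induction l with
  | zero => rfl
  | succ l ih =>
    rw [Function.iterate_succ_apply', ← ih]
    have h1 := C.ip_lmap D.ρ D.hρ v (D.r^[l] β).1
    rw [hv] at h1
    exact h1

private theorem GEN_ip_B (v : Fin n → ℤ) (hv : SLC.lmap D.ρ v = v) (β : C.Root) :
    C.ip v (GEN_B D β) = D.m * C.ip v β.1 := by
  unfold GEN_B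
  rw [GEN_ip_sum, Finset.sum_congr rfl (fun l _ => GEN_ip_inv v hv β l), Finset.sum_const,
    Finset.card_range, nsmul_eq_mul]

private theorem GEN_ip_same (v : Fin n → ℤ) (hv : SLC.lmap D.ρ v = v) (i j : Fin n)
    (h : D.ρ.SameCycle i j) : C.ip v (C.simple j).1 = C.ip v (C.simple i).1 := by
  obtain ⟨a, -, rfl⟩ := GEN_cyc i j h
  rw [← D.r_iter_simple, GEN_ip_inv v hv]

private theorem GEN_ht_B (β : C.Root) : ht (GEN_B D β) = D.m * ht β.1 := by
  unfold GEN_B
  rw [GEN_ht_sum, Finset.sum_congr rfl (fun l _ => GEN_ht_iter β l), Finset.sum_const,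
    Finset.card_range, nsmul_eq_mul]

private theorem GEN_exists (β : C.Root) (hβ : C.Pos β) :
    ∃ j, 0 < C.ip (GEN_B D β) (C.simple j).1 := by
  by_contra hcon
  push Not at hcon
  have h0 : ∀ i, 0 ≤ GEN_B D β i := by
    intro i
    unfold GEN_B
    rw [Finset.sum_apply]
    apply Finset.sum_nonneg
    intro l _
    refine (C.pos_iff _).1 ?_ i
    unfold SLC.Pos
    rw [GEN_ht_iter]
    exact hβ
  have h1 : GEN_B D β ≠ 0 := by
    intro h
    have h2 := GEN_ht_B (D := D) β
    rw [h] at h2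
    have h3 : 0 < (D.m : ℤ) * ht β.1 :=
      mul_pos (by exact_mod_cast GEN_m_pos) hβ
    rw [← h2] at h3
    simp [ht] at h3
  have h2 := C.ip_pos _ h1
  rw [← C.sum_ip_single] at h2
  refine absurd h2 (not_lt.mpr (Finset.sum_nonpos fun i _ => ?_))
  rw [C.ip_comm]
  exact mul_nonpos_of_nonneg_of_nonpos (h0 i) (hcon i)

open Classical in
/-- the indicator of an orbit of simple roots -/
private noncomputable def GEN_J (D : Dg C) (j : Fin n) : Fin n → ℤ :=
  fun k => if D.ρ.SameCycle j k then 1 else 0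

private theorem GEN_J_inv (j : Fin n) : SLC.lmap D.ρ (GEN_J D j) = GEN_J D j := by
  funext k
  change GEN_J D j (D.ρ.symm k) = GEN_J D j k
  unfold GEN_J
  have h : D.ρ.SameCycle j (D.ρ.symm k) ↔ D.ρ.SameCycle j k := by
    have h1 := Equiv.Perm.sameCycle_apply_right (f := D.ρ) (x := j) (y := D.ρ.symm k)
    rw [Equiv.apply_symm_apply] at h1
    exact h1.symm
  by_cases hk : D.ρ.SameCycle j k
  · rw [if_pos hk, if_pos (h.2 hk)]
  · rw [if_neg hk, if_neg fun h1 => hk (h.1 h1)]

/-- the height decreases -/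
private theorem GEN_ht_lt (β : C.Root) (j : Fin n)
    (hj : 0 < C.ip (GEN_B D β) (C.simple j).1) : ht (C.wd (D.wl j) β).1 < ht β.1 := by
  have hm : (0 : ℤ) < D.m := by exact_mod_cast GEN_m_pos
  by_cases ha : C.A j (D.ρ j) = -1
  · have hip : C.ip (C.simple j).1 (C.simple (D.ρ j)).1 = -1 := by
      simp only [SLC.simple_val, SLC.ip_single]
      exact ha
    obtain ⟨γ, hγ⟩ := C.exists_add _ _ hip
    have hne : D.r (C.simple j) ≠ C.simple j := by
      rw [D.r_simple]
      intro hc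
      rw [hc, (C.simple j).2] at hip
      omega
    have hγ' : γ.1 = (C.simple j).1 + (D.r (C.simple j)).1 := by
      rw [D.r_simple]
      exact hγ
    obtain ⟨hr, -⟩ := D.sg_adj (C.simple j) γ hne hγ'
    have hinv : SLC.lmap D.ρ γ.1 = γ.1 := congrArg SLC.Root.val hr
    have h1 := GEN_ip_B γ.1 hinv β
    have h2 : C.ip γ.1 (GEN_B D β) = 2 * C.ip (GEN_B D β) (C.simple j).1 := by
      rw [hγ, C.ip_add_left, C.ip_comm _ (GEN_B D β), C.ip_comm _ (GEN_B D β),
        GEN_ip_same (GEN_B D β) (GEN_inv β) j (D.ρ j) (GEN_same j 1)]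
      ring
    have h3 : 0 < C.ip γ.1 β.1 := by
      rw [h2] at h1
      have h4 : 0 < (D.m : ℤ) * C.ip γ.1 β.1 := by omega
      exact pos_of_mul_pos_right h4 hm.le
    have h5 : 0 < ht γ.1 := by
      have a1 : 0 < ht (C.simple j).1 := C.simple_pos j
      have a2 : 0 < ht (C.simple (D.ρ j)).1 := C.simple_pos (D.ρ j)
      rw [hγ, ht_add]
      omega
    rw [D.wJ_adj j ha γ hγ, SLC.reflE_apply, SLC.refl_val, ht_sub, ht_smul]
    have h6 := mul_pos h3 h5
    omega
  · have h1 : ht (C.wd (D.wl j) β).1 = ht β.1 - C.ip (GEN_J D j) β.1 := by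
      rw [← C.sum_ip_single]
      unfold ht
      rw [← Finset.sum_sub_distrib]
      refine Finset.sum_congr rfl fun k _ => ?_
      unfold GEN_J
      by_cases hk : D.ρ.SameCycle j k
      · rw [GEN_in j ha β k hk, if_pos hk, one_mul]
        rfl
      · rw [GEN_out j ha β k hk, if_neg hk, zero_mul, sub_zero]
    have h2 := GEN_ip_B (D := D) _ (GEN_J_inv j) β
    have h3 : 0 < C.ip (GEN_J D j) (GEN_B D β) := by
      rw [← C.sum_ip_single]
      apply Finset.sum_pos'
      · intro k _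
        unfold GEN_J
        by_cases hk : D.ρ.SameCycle j k
        · rw [if_pos hk, one_mul, C.ip_comm]
          have h4 := GEN_ip_same (GEN_B D β) (GEN_inv β) j k hk
          rw [SLC.simple_val] at h4
          rw [h4]
          exact hj.le
        · rw [if_neg hk, zero_mul]
      · refine ⟨j, Finset.mem_univ _, ?_⟩
        unfold GEN_J
        rw [if_pos (Equiv.Perm.SameCycle.refl _ _), one_mul, C.ip_comm]
        exact hj
    have h4 : 0 < C.ip (GEN_J D j) β.1 := by
      rw [h2] at h3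
      exact pos_of_mul_pos_right h3 hm.le
    omega

private theorem GEN_wd_neg (i : Fin n) (β : C.Root) :
    C.wd (D.wl i) (-β) = -(C.wd (D.wl i) β) := C.W_neg _ (C.wd_mem_W _) β

private theorem GEN_iter_neg (D : Dg C) (l : ℕ) (β : C.Root) :
    D.r^[l] (-β) = -(D.r^[l] β) := by
  induction l with
  | zero => rfl
  | succ l ih => rw [Function.iterate_succ_apply', Function.iterate_succ_apply', ih, D.r_neg]

private theorem GEN_inO_neg (D : Dg C) (β γ : C.Root) (hγ : D.inO β γ) : D.inO (-β) (-γ) := by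
  rcases hγ with ⟨l, rfl⟩ | h
  · exact Or.inl ⟨l, (GEN_iter_neg D l β).symm⟩
  · right
    rw [D.r_neg, SLC.Root.neg_val, SLC.Root.neg_val, SLC.Root.neg_val, h, neg_add]

private theorem GEN_inO_w (i : Fin n) (β γ : C.Root) (h : D.inO β γ) :
    D.inO (C.wd (D.wl i) β) (C.wd (D.wl i) γ) := by
  rcases h with ⟨l, rfl⟩ | h
  · exact Or.inl ⟨l, (GEN_comm_iter i l β).symm⟩
  · right
    rw [GEN_comm, C.W_add _ (C.wd_mem_W _) _ _ _ h]

/-- roots supported on an orbit of simple roots -/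
private theorem GEN_inO_supp (j : Fin n) (β γ : C.Root) (hβ : C.Pos β) (hs : D.supp j β)
    (h : D.inO β γ) : D.inO (C.simple j) γ := by
  have hl : ∀ l : ℕ, C.Pos (D.r^[l] β) ∧ D.supp j (D.r^[l] β) := by
    intro l
    refine ⟨?_, ?_⟩
    · unfold SLC.Pos
      rw [GEN_ht_iter]
      exact hβ
    · intro k hk
      rw [D.r_iter] at hk
      have h1 := hs _ hk
      have h2 : D.ρ.SameCycle ((D.ρ ^ l).symm k) ((D.ρ ^ l) ((D.ρ ^ l).symm k)) := GEN_same _ l
      rw [Equiv.apply_symm_apply] at h2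
      exact h1.trans h2
  rcases h with ⟨l, rfl⟩ | h
  · exact supp_inO D j _ (hl l).1 (hl l).2
  · refine supp_inO D j _ ?_ ?_
    · have a1 := (hl 0).1
      have a2 := (hl 1).1
      rw [Function.iterate_zero_apply] at a1
      rw [Function.iterate_one] at a2
      unfold SLC.Pos at a1 a2 ⊢
      rw [h, ht_add]
      omega
    · intro k hk
      rw [h, Pi.add_apply] at hk
      by_cases h2 : β.1 k = 0
      · refine (hl 1).2 k ?_
        rw [Function.iterate_one]
        intro h3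
        exact hk (by rw [h2, h3, add_zero])
      · exact hs k h2

end descent

variable {n : ℕ} {C : SLC n} {D : Dg C} {k : Type*} [Field k] {θ : k ≃+* k} {H : Type*} [Group H]
  {S : StSys C k H} {s : H →* H} {p : H →* GL C.Idx k}

/-- The subgroup generated by the simple root groups. -/
private def GEN_G (D : Dg C) (S : StSys C k H) (s : H →* H) : Subgroup H :=
  Subgroup.closure {g | ∃ i, g ∈ fixX D S s (C.simple i) ∨ g ∈ fixX D S s (-(C.simple i))}

private theorem GEN_G_pos (i : Fin n) : fixX D S s (C.simple i) ≤ GEN_G D S s :=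
  fun _ hg => Subgroup.subset_closure ⟨i, Or.inl hg⟩

private theorem GEN_G_neg (i : Fin n) : fixX D S s (-(C.simple i)) ≤ GEN_G D S s :=
  fun _ hg => Subgroup.subset_closure ⟨i, Or.inr hg⟩

private theorem GEN_G_fix (g : H) (hg : g ∈ GEN_G D S s) : s g = g := by
  have h1 : GEN_G D S s ≤ MonoidHom.eqLocus s (MonoidHom.id H) := by
    unfold GEN_G
    rw [Subgroup.closure_le]
    rintro x ⟨i, hx | hx⟩
    · exact hx.2
    · exact hx.2
  exact h1 hg

private theorem GEN_prod_mul (a b : ℕ → H) (k : ℕ)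
    (h : ∀ l l', l < k → l' < k → l ≠ l' → Commute (a l) (b l')) :
    ((List.range k).map fun l => a l * b l).prod =
      ((List.range k).map a).prod * ((List.range k).map b).prod := by
  induction k with
  | zero => simp
  | succ k ih =>
    have ih' := ih (fun l l' hl hl' hne => h l l' (by omega) (by omega) hne)
    simp only [List.range_succ, List.map_append, List.map_cons, List.map_nil, List.prod_append,
      List.prod_cons, List.prod_nil, mul_one] at ih' ⊢
    rw [ih']
    have hc : Commute (a k) ((List.range k).map b).prod := by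
      apply Commute.list_prod_right
      intro y hy
      rw [List.mem_map] at hy
      obtain ⟨l, hl, rfl⟩ := hy
      rw [List.mem_range] at hl
      exact h k l (by omega) (by omega) (by omega)
    calc ((List.range k).map a).prod * ((List.range k).map b).prod * (a k * b k)
        = ((List.range k).map a).prod * (((List.range k).map b).prod * a k) * b k := by
          simp only [mul_assoc]
      _ = ((List.range k).map a).prod * (a k * ((List.range k).map b).prod) * b k := by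
          rw [hc.eq]
      _ = _ := by simp only [mul_assoc]

private theorem GEN_ip_lt (β : C.Root) (hβ : D.r β ≠ β) (ho : C.ip β.1 (D.r β).1 = 0) (l d : ℕ)
    (hd : 0 < d) (hl : l + d < D.m) : C.ip (D.r^[l] β).1 (D.r^[l + d] β).1 = 0 := by
  induction l with
  | zero =>
    rw [Nat.zero_add] at hl ⊢
    rw [Function.iterate_zero, id, D.ip_orb β hβ d hd hl, ho]
  | succ l ih =>
    have : l + 1 + d = (l + d) + 1 := by omega
    rw [this, Function.iterate_succ', Function.iterate_succ', Function.comp, Function.comp, D.r_ip]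
    exact ih (by omega)

private theorem GEN_ip (β : C.Root) (hβ : D.r β ≠ β) (ho : C.ip β.1 (D.r β).1 = 0) (l l' : ℕ)
    (hl : l < D.m) (hl' : l' < D.m) (hne : l ≠ l') :
    C.ip (D.r^[l] β).1 (D.r^[l'] β).1 = 0 := by
  rcases lt_or_gt_of_ne hne with h | h
  · obtain ⟨d, rfl⟩ := Nat.exists_eq_add_of_lt h
    exact GEN_ip_lt β hβ ho l (d + 1) (by omega) hl'
  · obtain ⟨d, rfl⟩ := Nat.exists_eq_add_of_lt h
    rw [C.ip_comm]
    exact GEN_ip_lt β hβ ho l' (d + 1) (by omega) hl

private theorem GEN_sx_comm (h : IsSig D θ S s) (β : C.Root) (hβ : D.r β ≠ β)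
    (ho : C.ip β.1 (D.r β).1 = 0) (γ δ : C.Root) (hγ : γ = β ∨ γ = -β) (hδ : δ = β ∨ δ = -β)
    (t u : k) (l l' : ℕ) (hl : l < D.m) (hl' : l' < D.m) (hne : l ≠ l') :
    Commute (s^[l] (S.x γ t)) (s^[l'] (S.x δ u)) := by
  rw [h.iter, h.iter]
  apply S.comm
  apply le_of_eq
  have h0 := GEN_ip β hβ ho l l' hl hl' hne
  symm
  rcases hγ with rfl | rfl <;> rcases hδ with rfl | rfl <;>
    simp only [GEN_iter_neg, SLC.Root.neg_val, C.ip_neg_left, C.ip_neg_right, h0, neg_zero]

private theorem GEN_yb (he : Env D θ S s p) (β : C.Root) (hβ : D.r β ≠ β)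
    (ho : C.ip β.1 (D.r β).1 = 0) (c : k) :
    ((List.range D.m).map fun l => s^[l] (S.x β c)).prod ∈ fixX D S s β := by
  refine ⟨?_, Eg_le_fix S s _ (prod_x_mem he.sig he.hθ β hβ ho c)⟩
  apply Subgroup.list_prod_mem
  intro y hy
  rw [List.mem_map] at hy
  obtain ⟨l, -, rfl⟩ := hy
  rw [he.sig.iter]
  exact Subgroup.subset_closure ⟨_, _, Or.inl ⟨l, rfl⟩, rfl⟩

private theorem GEN_prod_nn (he : Env D θ S s p) (i : Fin n)
    (hβ : D.r (C.simple i) ≠ C.simple i) (ho : C.ip (C.simple i).1 (D.r (C.simple i)).1 = 0)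
    (c : k) : ((List.range D.m).map fun l => s^[l] (nn S.x (C.simple i) c)).prod ∈
      GEN_G D S s := by
  have e : (fun l => s^[l] (nn S.x (C.simple i) c)) =
      fun l => (s^[l] (S.x (C.simple i) c) * s^[l] (S.x (-(C.simple i)) c⁻¹)) *
        s^[l] (S.x (C.simple i) c) := by
    funext l
    unfold nn
    rw [iterate_map_mul, iterate_map_mul]
  rw [e, GEN_prod_mul (fun l => s^[l] (S.x (C.simple i) c) * s^[l] (S.x (-(C.simple i)) c⁻¹))
      (fun l => s^[l] (S.x (C.simple i) c)),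
    GEN_prod_mul (fun l => s^[l] (S.x (C.simple i) c))
      (fun l => s^[l] (S.x (-(C.simple i)) c⁻¹))]
  · apply mul_mem (mul_mem _ _)
    · exact GEN_G_pos i (GEN_yb he _ hβ ho c)
    · exact GEN_G_pos i (GEN_yb he _ hβ ho c)
    · refine GEN_G_neg i (GEN_yb he _ ?_ ?_ c⁻¹)
      · rw [D.r_neg]
        intro h1
        apply hβ
        have := congrArg (fun x : C.Root => -x) h1
        simpa [C.neg_neg_root] using this
      · rw [D.r_neg, SLC.Root.neg_val, SLC.Root.neg_val, C.ip_neg_neg, ho]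
  · intro l l' hl hl' hne
    exact GEN_sx_comm he.sig _ hβ ho _ _ (Or.inl rfl) (Or.inr rfl) _ _ l l' hl hl' hne
  · intro l l' hl hl' hne
    exact (GEN_sx_comm he.sig _ hβ ho _ _ (Or.inl rfl) (Or.inl rfl) _ _ l l' hl hl' hne).mul_left
      (GEN_sx_comm he.sig _ hβ ho _ _ (Or.inr rfl) (Or.inl rfl) _ _ l l' hl hl' hne)

private theorem GEN_cs (α β : C.Root) : C.cs α β = 1 ∨ C.cs α β = -1 := by
  unfold SLC.cs
  split_ifs
  · exact C.eps_eq_one_or _ _
  · exact Or.inl rfl

private theorem GEN_acts (S : StSys C k H) (α : C.Root) (t : k) (ht : t ≠ 0) :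
    S.Acts (nn S.x α t) (C.reflE α) := by
  refine ⟨fun β => (C.cs α β : k) * t ^ (- C.ip α.1 β.1), fun β => ?_, fun β u => ?_⟩
  · apply mul_ne_zero
    · rcases GEN_cs (C := C) α β with h | h <;> simp [h]
    · exact zpow_ne_zero _ ht
  · rw [S.n_conj_all α β t u ht]
    rfl

/-- `nn γ e` for a fixed root `γ` in the simple orbit of `i`, of sign `ε`, and `θ e = ε e`. -/
private theorem GEN_nn_G (he : Env D θ S s p) (i : Fin n) (γ : C.Root)
    (hO : D.inO (C.simple i) γ) (hr : D.r γ = γ) (e : k) (hs : (D.sg γ : k) * θ e = e) :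
    nn S.x γ e ∈ GEN_G D S s := by
  have hs1 : s (S.x γ e) = S.x γ e := by rw [he.sig, hr, hs]
  have he' : (D.sg γ : k) * θ e⁻¹ = e⁻¹ := by
    rcases D.sg_eq γ with h1 | h1
    · rw [h1] at hs ⊢
      rw [Int.cast_one, one_mul] at hs ⊢
      rw [map_inv₀, hs]
    · rw [h1] at hs ⊢
      rw [Int.cast_neg, Int.cast_one, neg_one_mul] at hs ⊢
      rw [map_inv₀, neg_inv, hs]
  have hs2 : s (S.x (-γ) e⁻¹) = S.x (-γ) e⁻¹ := by rw [he.sig, D.r_neg, D.sg_neg, hr, he']
  have h1 : S.x γ e ∈ GEN_G D S s :=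
    GEN_G_pos i ⟨Subgroup.subset_closure ⟨γ, e, hO, rfl⟩, hs1⟩
  have h2 : S.x (-γ) e⁻¹ ∈ GEN_G D S s :=
    GEN_G_neg i ⟨Subgroup.subset_closure ⟨-γ, e⁻¹, GEN_inO_neg D _ _ hO, rfl⟩, hs2⟩
  exact Subgroup.mul_mem _ (Subgroup.mul_mem _ h1 h2) h1

private theorem GEN_iter_nn (h : IsSig D θ S s) (i : Fin n) (l : ℕ) :
    s^[l] (nn S.x (C.simple i) 1) = nn S.x (C.simple ((D.ρ ^ l) i)) 1 := by
  induction l with
  | zero => rfl
  | succ l ih =>
    rw [Function.iterate_succ_apply', ih, h.map_nn, D.r_simple, D.sg_simple, map_one, Int.cast_one,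
      mul_one, pow_succ', Equiv.Perm.mul_apply]

private theorem GEN_nJ (he : Env D θ S s p) (i : Fin n) :
    ∃ ν ∈ GEN_G D S s, S.Acts ν (C.wd (D.wl i)) := by
  by_cases h1 : C.A i (D.ρ i) = -1
  · -- adjacent
    rcases he.hA with hA | ⟨e, he0, hθe⟩
    · exact absurd h1 (hA i)
    have hip : C.ip (C.simple i).1 (C.simple (D.ρ i)).1 = -1 := by
      rw [SLC.simple_val, SLC.simple_val, SLC.ip_single]
      exact h1
    obtain ⟨γ, hγ⟩ := C.exists_add _ _ hip
    have hne : D.r (C.simple i) ≠ C.simple i := by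
      rw [D.r_simple]
      intro hc
      rw [hc, (C.simple i).2] at hip
      omega
    have hγ' : γ.1 = (C.simple i).1 + (D.r (C.simple i)).1 := by
      rw [D.r_simple]
      exact hγ
    obtain ⟨hr, hsg⟩ := D.sg_adj (C.simple i) γ hne hγ'
    refine ⟨nn S.x γ e, GEN_nn_G he i γ (Or.inr hγ') hr e ?_, ?_⟩
    · rw [hsg, hθe]
      push_cast
      ring
    · rw [D.wJ_adj i h1 γ hγ]
      exact GEN_acts S γ e he0
  · by_cases h2 : D.ρ i = i
    · have hw : D.wl i = [i] := by
        unfold Dg.wl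
        rw [if_neg h1, if_pos h2]
      refine ⟨nn S.x (C.simple i) 1, GEN_nn_G he i (C.simple i) (Or.inl ⟨0, rfl⟩) ?_ 1 ?_, ?_⟩
      · rw [D.r_simple, h2]
      · rw [D.sg_simple, map_one]
        simp
      · rw [hw]
        have : C.wd [i] = C.reflE (C.simple i) := by
          unfold SLC.wd
          simp
        rw [this]
        exact GEN_acts S _ _ one_ne_zero
    · have hw : D.wl i = (List.range D.m).map fun l => (D.ρ ^ l) i := by
        unfold Dg.wl
        rw [if_neg h1, if_neg h2]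
      have hne : D.r (C.simple i) ≠ C.simple i := by
        rw [D.r_simple]
        exact fun hc => h2 (C.simple_injective hc)
      have ho : C.ip (C.simple i).1 (D.r (C.simple i)).1 = 0 := by
        rw [D.r_simple, SLC.simple_val, SLC.simple_val, SLC.ip_single]
        exact (C.off i (D.ρ i) (fun hc => h2 hc.symm)).resolve_right h1
      have hprod := GEN_prod_nn he i hne ho 1
      have heq : ((List.range D.m).map fun l => s^[l] (nn S.x (C.simple i) 1)).prod =
          S.nword (D.wl i) := by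
        rw [hw]
        unfold StSys.nword
        rw [List.map_map]
        congr 1
        apply List.map_congr_left
        intro l _
        exact GEN_iter_nn he.sig i l
      rw [heq] at hprod
      exact ⟨S.nword (D.wl i), hprod, S.nword_acts _⟩

private theorem GEN_XO_mono (β β' : C.Root) (hO : ∀ γ, D.inO β γ → D.inO β' γ) :
    fixX D S s β ≤ fixX D S s β' := by
  unfold fixX
  refine inf_le_inf_right _ ?_
  unfold XO
  apply Subgroup.closure_mono
  rintro g ⟨γ, t, hγ, rfl⟩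
  exact ⟨γ, t, hO γ hγ, rfl⟩

private theorem GEN_conj (ν : H) (w : Equiv.Perm C.Root) (ha : S.Acts ν w) (hν : s ν = ν)
    (β β' : C.Root) (hO : ∀ γ, D.inO β γ → D.inO β' (w γ)) (x : H) (hx : x ∈ fixX D S s β) :
    ν * x * ν⁻¹ ∈ fixX D S s β' := by
  obtain ⟨hx1, hx2⟩ := hx
  refine ⟨?_, ?_⟩
  · obtain ⟨c, hc, hact⟩ := ha
    clear hx2
    unfold XO at hx1
    induction hx1 using Subgroup.closure_induction with
    | mem g hg =>
      obtain ⟨γ, t, hγ, rfl⟩ := hg
      rw [hact]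
      exact Subgroup.subset_closure ⟨_, _, hO γ hγ, rfl⟩
    | one =>
      rw [mul_one, mul_inv_cancel]
      exact Subgroup.one_mem _
    | mul a b _ _ ha hb =>
      have : ν * (a * b) * ν⁻¹ = (ν * a * ν⁻¹) * (ν * b * ν⁻¹) := by group
      rw [this]
      exact Subgroup.mul_mem _ ha hb
    | inv a _ ha =>
      have : ν * a⁻¹ * ν⁻¹ = (ν * a * ν⁻¹)⁻¹ := by group
      rw [this]
      exact Subgroup.inv_mem _ ha
  · change s (ν * x * ν⁻¹) = ν * x * ν⁻¹
    have hx3 : s x = x := hx2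
    rw [map_mul, map_mul, map_inv, hν, hx3]

private theorem GEN_step (he : Env D θ S s p) (i : Fin n) (β : C.Root)
    (h : fixX D S s (C.wd (D.wl i) β) ≤ GEN_G D S s) : fixX D S s β ≤ GEN_G D S s := by
  obtain ⟨ν, hν, hact⟩ := GEN_nJ he i
  intro x hx
  have h1 := h (GEN_conj ν _ hact (GEN_G_fix ν hν) β _ (fun γ hγ => GEN_inO_w i β γ hγ) x hx)
  have h2 : x = ν⁻¹ * (ν * x * ν⁻¹) * ν := by group
  rw [h2]
  exact Subgroup.mul_mem _ (Subgroup.mul_mem _ (Subgroup.inv_mem _ hν) h1) hν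

private theorem GEN_all (he : Env D θ S s p) (β : C.Root) : fixX D S s β ≤ GEN_G D S s := by
  have hpos : ∀ N : ℕ, ∀ β : C.Root, C.Pos β → ht β.1 ≤ N →
      fixX D S s β ≤ GEN_G D S s ∧ fixX D S s (-β) ≤ GEN_G D S s := by
    intro N
    induction N with
    | zero =>
      intro β hβ hN0
      unfold SLC.Pos at hβ
      exact absurd hβ (by push_cast at hN0; omega)
    | succ N ih =>
      intro β hβ hN1
      obtain ⟨j, hj⟩ := GEN_exists (D := D) β hβ
      by_cases hs : D.supp j β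
      · refine ⟨(GEN_XO_mono β _ fun γ hγ => GEN_inO_supp j β γ hβ hs hγ).trans (GEN_G_pos j),
          (GEN_XO_mono (-β) _ fun γ hγ => ?_).trans (GEN_G_neg j)⟩
        have h1 := GEN_inO_neg D _ _ hγ
        rw [C.neg_neg_root] at h1
        have h2 := GEN_inO_neg D _ _ (GEN_inO_supp j β _ hβ hs h1)
        rwa [C.neg_neg_root] at h2
      · have h1 := GEN_ht_lt β j hj
        have h2 := ih _ (D.wJ_pos j β hβ hs) (by push_cast at hN1; omega)
        refine ⟨GEN_step he j β h2.1, GEN_step he j (-β) ?_⟩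
        rw [GEN_wd_neg]
        exact h2.2
  by_cases hβ : C.Pos β
  · exact (hpos (ht β.1).toNat β hβ (Int.self_le_toNat _)).1
  · have h1 := (hpos (ht (-β).1).toNat (-β) ((C.not_pos_iff β).1 hβ) (Int.self_le_toNat _)).2
    rwa [C.neg_neg_root] at h1

theorem Eg_gen (he : Env D θ S s p) :
    Eg S s = Subgroup.closure {g | ∃ i, g ∈ fixX D S s (C.simple i) ∨
      g ∈ fixX D S s (-(C.simple i))} := by
  have hI := inj_of_map S p he.hp
  change Eg S s = GEN_G D S s
  apply le_antisymm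
  · unfold Eg
    rw [fixU_eq hI.1 he.sig he.hθ he.hB, fixUm_eq hI.2 he.sig he.hθ he.hB]
    refine sup_le ?_ ?_
    · rw [Subgroup.closure_le]
      rintro g ⟨β, -, hg⟩
      exact GEN_all he β hg
    · rw [Subgroup.closure_le]
      rintro g ⟨β, -, hg⟩
      exact GEN_all he β hg
  · unfold GEN_G
    rw [Subgroup.closure_le]
    rintro g ⟨i, hg | hg⟩
    · exact Subgroup.mem_sup_left (fixX_le_fixU S s _ (C.simple_pos i) hg)
    · refine Subgroup.mem_sup_right ?_
      rw [fixUm_eq hI.2 he.sig he.hθ he.hB]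
      refine Subgroup.subset_closure ⟨_, ?_, hg⟩
      rw [C.not_pos_iff, C.neg_neg_root]
      exact C.simple_pos i

theorem Eg_gen_ext (he : Env D θ S s p) {G : Type*} [Group G] (f g : Eg S s →* G)
    (h : ∀ (i : Fin n) (x : Eg S s), (x : H) ∈ fixX D S s (C.simple i) ∨
      (x : H) ∈ fixX D S s (-(C.simple i)) → f x = g x) : f = g := by
  have h1 : Eg S s ≤ (MonoidHom.eqLocus f g).map (Eg S s).subtype := by
    conv_lhs => rw [Eg_gen he]
    rw [Subgroup.closure_le]
    rintro x ⟨i, hx⟩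
    have hxE : x ∈ Eg S s := by
      rw [Eg_gen he]
      exact Subgroup.subset_closure ⟨i, hx⟩
    exact ⟨⟨x, hxE⟩, h i ⟨x, hxE⟩ hx, rfl⟩
  ext x
  obtain ⟨y, hy, hyx⟩ := h1 x.2
  have h2 : y = x := Subtype.ext hyx
  rw [← h2]
  exact hy

end Pool.Agent.H86.UM
end
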