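import Pool.Agent.H86.AL.M10

/-!
# M12: collected modules

Pool.Agent.H75.UK.F1a
-/

section
/- module Pool.Agent.H75.UK.F1a -/
/-!
# Project UK, module F1a: separation of orbits, non-adjacent case

Put `B β = ∑_{l < m} (r^l β).1` (`m = D.m`); `lmap ρ (B β) = B β` (`r_iter`, `r_m`), and for invariant `v`
`ip v (r^l β) = ip v β` (`r_ip`; `lmap` is an isometry), so `ip v (B β) = m * ip v β`.
`sep_orbit`: `v = ip (B β) (B β) • B β' - ip (B β) (B β') • B β`: `ip v (B β) = 0`, so `ip v β = 0`;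
`ip v (B β') = |B β|² |B β'|² - (B β, B β')²`, which is not zero unless `B β'` and `B β` are proportional
(the form is positive definite; compute `ip` of `|B β|² B β' - (B β, B β') B β` with itself). Suppose
`|B β|² B β' = (B β, B β') B β`. Norms: `|B β|² = m * ∑_l ip β (r^l β)`, which is `2 m²` if `r β = β`
and `2 m` otherwise (`ip_r_NA`, `ip_orb`). Both are positive roots, so `(B β, B β') > 0` (compare heights)
and `(B β, B β')² = |B β|² |B β'|²`. Mixed types are impossible: the product `4 m³` is not a square for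
`m = 2, 3`. So `|B β| = |B β'|` and `B β = B β'`. If `β`, `β'` are in different orbits all
`ip (r^l β) β' ≤ 1` (`ip_cases`: value `2` means equality), and their sum is
`ip (B β) β' = ip (B β') (B β') / m > 0`, so some `ip (r^l β) β' = 1`, `δ = r^l β - β'` is a root, and
`m * ht δ = ht (B β) - ht (B β') = 0`, contradiction (`ht_ne_zero`; `r_ht`).
`supp_NA`: `supp i β`, `β` positive: `β` is a combination of the simple roots `α_j`, `j` in the orbit
of `i`, which are pairwise orthogonal (`ip_r_NA`, `ip_orb`), so `2 = ip β β = 2 ∑ β_j²`, so `β` is simple.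
(Or use `wJ_neg`.)
-/

set_option autoImplicit false
open Matrix
universe u
namespace Pool.Agent.H75.UL

namespace Dg
variable {n : ℕ} {C : SLC n} (D : Dg C)

private theorem F1a_m_pos : 0 < D.m := by
  rcases D.m_cases with h | h | h <;> omega

private theorem F1a_rE_pow (l : ℕ) (β : C.Root) : (D.rE ^ l) β = D.r^[l] β := by
  induction l with
  | zero => rfl
  | succ l ih =>
    rw [pow_succ', Equiv.Perm.mul_apply, ih, Function.iterate_succ_apply']
    rfl

private theorem F1a_sc (β β' : C.Root) :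
    D.rE.SameCycle β β' ↔ ∃ l < D.m, β' = D.r^[l] β := by
  constructor
  · rintro ⟨z, hz⟩
    have hone : D.rE ^ D.m = 1 := by
      apply Equiv.ext
      intro γ
      rw [D.F1a_rE_pow, D.r_m]
      rfl
    have hm := D.F1a_m_pos
    have h1 : 0 ≤ z % (D.m : ℤ) := Int.emod_nonneg _ (by omega)
    have h2 : z % (D.m : ℤ) < D.m := Int.emod_lt_of_pos _ (by omega)
    have h3 : D.rE ^ z = D.rE ^ (z % (D.m : ℤ)) := by
      conv_lhs => rw [← Int.emod_add_mul_ediv z D.m]
      rw [_root_.zpow_add, _root_.zpow_mul, _root_.zpow_natCast, hone, _root_.one_zpow, mul_one]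
    refine ⟨(z % (D.m : ℤ)).toNat, by omega, ?_⟩
    rw [← D.F1a_rE_pow, ← zpow_natCast, Int.toNat_of_nonneg h1, ← h3]
    exact hz.symm
  · rintro ⟨l, -, rfl⟩
    exact ⟨l, by rw [zpow_natCast, D.F1a_rE_pow]⟩

private theorem F1a_cyc (i j : Fin n) (h : D.ρ.SameCycle i j) :
    ∃ l, l < D.m ∧ (D.ρ ^ l) i = j := by
  obtain ⟨z, hz⟩ := h
  have hm := D.F1a_m_pos
  have h1 : 0 ≤ z % (D.m : ℤ) := Int.emod_nonneg _ (by omega)
  have h2 : z % (D.m : ℤ) < D.m := Int.emod_lt_of_pos _ (by omega)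
  refine ⟨(z % (D.m : ℤ)).toNat, by omega, ?_⟩
  have h3 : D.ρ ^ (z % (D.m : ℤ)) = D.ρ ^ z := zpow_mod_orderOf _ _
  rw [← hz, ← h3]
  conv_rhs => rw [← Int.toNat_of_nonneg h1]
  rw [zpow_natCast]

private theorem F1a_scs (i j : Fin n) :
    D.rE.SameCycle (C.simple i) (C.simple j) ↔ D.ρ.SameCycle i j := by
  rw [D.F1a_sc]
  constructor
  · rintro ⟨l, -, hl⟩
    rw [D.r_iter_simple] at hl
    have h1 := C.simple_injective hl
    exact ⟨l, by rw [zpow_natCast]; exact h1.symm⟩
  · intro h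
    obtain ⟨l, hl, hlj⟩ := D.F1a_cyc i j h
    exact ⟨l, hl, by rw [D.r_iter_simple, hlj]⟩

private theorem F1a_ip_sum (C : SLC n) {ι : Type*} (v : Fin n → ℤ) (s : Finset ι)
    (f : ι → Fin n → ℤ) : C.ip v (∑ i ∈ s, f i) = ∑ i ∈ s, C.ip v (f i) :=
  map_sum (AddMonoidHom.mk' (C.ip v) (C.ip_add_right v)) f s

private theorem F1a_lmap_sum {ι : Type*} (π : Equiv.Perm (Fin n)) (s : Finset ι)
    (f : ι → Fin n → ℤ) : SLC.lmap π (∑ i ∈ s, f i) = ∑ i ∈ s, SLC.lmap π (f i) :=
  map_sum (AddMonoidHom.mk' (SLC.lmap π) (SLC.lmap_add π)) f s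

private theorem F1a_ht_sum {ι : Type*} (s : Finset ι)
    (f : ι → Fin n → ℤ) : ht (∑ i ∈ s, f i) = ∑ i ∈ s, ht (f i) :=
  map_sum (AddMonoidHom.mk' (ht (n := n)) ht_add) f s

/-- the orbit sum -/
private noncomputable def F1a_B (β : C.Root) : Fin n → ℤ :=
  ∑ l ∈ Finset.range D.m, (D.r^[l] β).1

private theorem F1a_inv (β : C.Root) : SLC.lmap D.ρ (D.F1a_B β) = D.F1a_B β := by
  unfold F1a_B
  rw [F1a_lmap_sum]
  have h1 : ∀ l, SLC.lmap D.ρ (D.r^[l] β).1 = (D.r^[l + 1] β).1 := by
    intro l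
    rw [Function.iterate_succ_apply']
    rfl
  rw [Finset.sum_congr rfl (fun l _ => h1 l)]
  have h2 := Finset.sum_range_succ' (fun l => (D.r^[l] β).1) D.m
  have h3 := Finset.sum_range_succ (fun l => (D.r^[l] β).1) D.m
  rw [h3] at h2
  simp only [D.r_m, Function.iterate_zero_apply] at h2
  exact (add_right_cancel h2).symm

private theorem F1a_ip_inv (v : Fin n → ℤ) (hv : SLC.lmap D.ρ v = v) (β : C.Root) (l : ℕ) :
    C.ip v (D.r^[l] β).1 = C.ip v β.1 := by
  induction l with
  | zero => rfl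
  | succ l ih =>
    rw [Function.iterate_succ_apply', ← ih]
    have h1 := C.ip_lmap D.ρ D.hρ v (D.r^[l] β).1
    rw [hv] at h1
    exact h1

private theorem F1a_ip_B (v : Fin n → ℤ) (hv : SLC.lmap D.ρ v = v) (β : C.Root) :
    C.ip v (D.F1a_B β) = D.m * C.ip v β.1 := by
  unfold F1a_B
  rw [F1a_ip_sum, Finset.sum_congr rfl (fun l _ => D.F1a_ip_inv v hv β l), Finset.sum_const,
    Finset.card_range, nsmul_eq_mul]

private theorem F1a_ht_iter (β : C.Root) (l : ℕ) : ht (D.r^[l] β).1 = ht β.1 := by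
  induction l with
  | zero => rfl
  | succ l ih => rw [Function.iterate_succ_apply', D.r_ht, ih]

private theorem F1a_ht_B (β : C.Root) : ht (D.F1a_B β) = D.m * ht β.1 := by
  unfold F1a_B
  rw [F1a_ht_sum, Finset.sum_congr rfl (fun l _ => D.F1a_ht_iter β l), Finset.sum_const,
    Finset.card_range, nsmul_eq_mul]

private theorem F1a_norm (h : D.NA) (β : C.Root) :
    C.ip (D.F1a_B β) (D.F1a_B β) = 2 * (D.m : ℤ) ^ 2 ∨
      C.ip (D.F1a_B β) (D.F1a_B β) = 2 * (D.m : ℤ) := by
  rw [D.F1a_ip_B _ (D.F1a_inv β) β, C.ip_comm]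
  unfold F1a_B
  rw [F1a_ip_sum]
  by_cases hβ : D.r β = β
  · left
    have h1 : ∀ l, D.r^[l] β = β := by
      intro l
      induction l with
      | zero => rfl
      | succ l ih => rw [Function.iterate_succ_apply', ih, hβ]
    rw [Finset.sum_congr rfl (fun l _ => by rw [h1 l, β.2]), Finset.sum_const,
      Finset.card_range, nsmul_eq_mul]
    ring
  · right
    rw [Finset.sum_eq_single_of_mem 0 (Finset.mem_range.mpr D.F1a_m_pos)]
    · rw [Function.iterate_zero_apply, β.2]
      ring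
    · intro l hl hl0
      rw [Finset.mem_range] at hl
      rw [D.ip_orb β hβ l (by omega) hl]
      exact D.ip_r_NA h β hβ

theorem sep_orbit (h : D.NA) (β β' : C.Root) (hβ : C.Pos β) (hβ' : C.Pos β')
    (hne : ¬ D.rE.SameCycle β β') :
    ∃ v : Fin n → ℤ, SLC.lmap D.ρ v = v ∧ C.ip v β.1 = 0 ∧ C.ip v β'.1 ≠ 0 := by
  have hm : (0 : ℤ) < D.m := by exact_mod_cast D.F1a_m_pos
  have hN := D.F1a_norm h β
  have hN' := D.F1a_norm h β'
  have i1 := D.F1a_inv β
  have i2 := D.F1a_inv β'
  have t1 := D.F1a_ht_B β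
  have t2 := D.F1a_ht_B β'
  have b1 := fun v hv => D.F1a_ip_B v hv β
  have b2 := fun v hv => D.F1a_ip_B v hv β'
  have hB : D.F1a_B β = ∑ l ∈ Finset.range D.m, (D.r^[l] β).1 := rfl
  generalize D.F1a_B β = B at *
  generalize D.F1a_B β' = B' at *
  have hinv : SLC.lmap D.ρ (C.ip B B • B' - C.ip B B' • B) = C.ip B B • B' - C.ip B B' • B := by
    have h1 : ∀ u w : Fin n → ℤ, SLC.lmap D.ρ (u - w) = SLC.lmap D.ρ u - SLC.lmap D.ρ w :=
      fun u w => rfl
    have h2 : ∀ (a : ℤ) (u : Fin n → ℤ), SLC.lmap D.ρ (a • u) = a • SLC.lmap D.ρ u :=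
      fun a u => rfl
    rw [h1, h2, h2, i1, i2]
  have hzero : C.ip (C.ip B B • B' - C.ip B B' • B) B = 0 := by
    rw [C.ip_sub_left, C.ip_smul_left, C.ip_smul_left, C.ip_comm B' B]
    ring
  refine ⟨C.ip B B • B' - C.ip B B' • B, hinv, ?_, ?_⟩
  · have h1 := b1 _ hinv
    rw [hzero] at h1
    rcases mul_eq_zero.mp h1.symm with h2 | h2
    · omega
    · exact h2
  intro hcon
  have h1 := b2 _ hinv
  rw [hcon, mul_zero] at h1
  have hpp : C.ip B B * C.ip B' B' = C.ip B B' * C.ip B B' := by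
    have h2 := h1
    rw [C.ip_sub_left, C.ip_smul_left, C.ip_smul_left] at h2
    linarith
  have hv0 : C.ip B B • B' - C.ip B B' • B = 0 := by
    by_contra hne0
    have h2 := C.ip_pos _ hne0
    rw [C.ip_sub_right, C.ip_smul_right, C.ip_smul_right, h1, hzero] at h2
    simp at h2
  have hprop : C.ip B B • B' = C.ip B B' • B := sub_eq_zero.mp hv0
  have hNpos : 0 < C.ip B B := by
    rcases hN with h2 | h2 <;> rw [h2] <;> positivity
  have hNpos' : 0 < C.ip B' B' := by
    rcases hN' with h2 | h2 <;> rw [h2] <;> positivity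
  have hβ0 : 0 < ht β.1 := hβ
  have hβ0' : 0 < ht β'.1 := hβ'
  have hht : C.ip B B * (D.m * ht β'.1) = C.ip B B' * (D.m * ht β.1) := by
    have h2 := congrArg ht hprop
    rw [ht_smul, ht_smul, t1, t2] at h2
    exact h2
  have hc0 : 0 < C.ip B B' := by
    have h2 : 0 < C.ip B B' * (D.m * ht β.1) := by
      rw [← hht]
      positivity
    exact pos_of_mul_pos_left h2 (by positivity)
  have hNN : C.ip B B = C.ip B' B' := by
    have hm3 := D.m_cases
    have key : ∀ c : ℤ, 0 < c → C.ip B B * C.ip B' B' = c * c → C.ip B B = C.ip B' B' := by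
      intro c hc hcc
      rcases hN with h2 | h2 <;> rcases hN' with h3 | h3
      · rw [h2, h3]
      · rcases hm3 with h4 | h4 | h4
        · rw [h2, h3, h4]
          norm_num
        · exfalso
          rw [h2, h3, h4] at hcc
          norm_num at hcc
          have h5 : c ≤ 5 := by nlinarith
          have h6 : 6 ≤ c := by nlinarith
          omega
        · exfalso
          rw [h2, h3, h4] at hcc
          norm_num at hcc
          have h5 : c ≤ 10 := by nlinarith
          have h6 : 11 ≤ c := by nlinarith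
          omega
      · rcases hm3 with h4 | h4 | h4
        · rw [h2, h3, h4]
          norm_num
        · exfalso
          rw [h2, h3, h4] at hcc
          norm_num at hcc
          have h5 : c ≤ 5 := by nlinarith
          have h6 : 6 ≤ c := by nlinarith
          omega
        · exfalso
          rw [h2, h3, h4] at hcc
          norm_num at hcc
          have h5 : c ≤ 10 := by nlinarith
          have h6 : 11 ≤ c := by nlinarith
          omega
      · rw [h2, h3]
    exact key _ hc0 hpp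
  have hcN : C.ip B B' = C.ip B B := by
    rw [← hNN] at hpp
    nlinarith
  have hBB : B' = B := by
    rw [hcN] at hprop
    exact smul_right_injective _ hNpos.ne' hprop
  have hhtt : ht β'.1 = ht β.1 := by
    rw [hcN] at hht
    have h2 := mul_left_cancel₀ hNpos.ne' hht
    exact mul_left_cancel₀ hm.ne' h2
  have hsum : 0 < C.ip B β'.1 := by
    have h2 := b2 B i1
    rw [hcN] at h2
    have h3 : 0 < D.m * C.ip B β'.1 := by
      rw [← h2]
      exact hNpos
    exact pos_of_mul_pos_right h3 hm.le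
  rw [C.ip_comm, hB, F1a_ip_sum] at hsum
  obtain ⟨l, hl, hl0⟩ : ∃ l ∈ Finset.range D.m, 0 < C.ip β'.1 (D.r^[l] β).1 := by
    by_contra hcon2
    push Not at hcon2
    exact absurd hsum (not_lt.mpr (Finset.sum_nonpos hcon2))
  rw [Finset.mem_range] at hl
  rcases C.ip_cases β' (D.r^[l] β) with h2 | h2 | h2 | h2 | h2
  · omega
  · omega
  · omega
  · have hnorm : C.ip ((D.r^[l] β).1 - β'.1) ((D.r^[l] β).1 - β'.1) = 2 := by
      rw [C.ip_sub_sq, h2]
      norm_num
    have h3 := C.ht_ne_zero ⟨(D.r^[l] β).1 - β'.1, hnorm⟩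
    apply h3
    change ht ((D.r^[l] β).1 - β'.1) = 0
    rw [ht_sub, D.F1a_ht_iter, hhtt, sub_self]
  · apply hne
    rw [D.F1a_sc]
    exact ⟨l, hl, (C.ip_eq_two_iff _ _).mp h2⟩

theorem supp_NA (h : D.NA) (i : Fin n) (β : C.Root) (hβ : C.Pos β) (hs : D.supp i β) :
    D.rE.SameCycle (C.simple i) β := by
  by_cases hsim : ∃ k, β = C.simple k
  · obtain ⟨k, rfl⟩ := hsim
    rw [D.F1a_scs]
    apply hs
    simp
  exfalso
  push Not at hsim
  obtain ⟨k, γ, hγ, hβγ⟩ := C.exists_descent β hβ hsim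
  have h1 := C.ip_add_root _ _ _ hβγ
  have hγ0 := (C.pos_iff γ).mp hγ
  have hcoord : ∀ j, β.1 j = (if j = k then 1 else 0) + γ.1 j := by
    intro j
    rw [hβγ, Pi.add_apply, SLC.simple_val, Pi.single_apply]
  have hk : D.ρ.SameCycle i k := by
    apply hs
    rw [hcoord k, if_pos rfl]
    have := hγ0 k
    omega
  have hexp : γ.1 = ∑ j, γ.1 j • (Pi.single j 1 : Fin n → ℤ) := by
    funext j
    rw [Finset.sum_apply, Finset.sum_eq_single j]
    · simp
    · intro k' _ hk'
      simp [Ne.symm hk']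
    · intro h
      exact absurd (Finset.mem_univ j) h
  have h2 : C.ip (C.simple k).1 γ.1 = ∑ j, γ.1 j * C.A k j := by
    conv_lhs => rw [hexp]
    rw [F1a_ip_sum]
    apply Finset.sum_congr rfl
    intro j _
    rw [C.ip_smul_right, SLC.simple_val, C.ip_single]
  have h3 : 0 ≤ ∑ j, γ.1 j * C.A k j := by
    apply Finset.sum_nonneg
    intro j _
    by_cases hj0 : γ.1 j = 0
    · rw [hj0, zero_mul]
    by_cases hjk : j = k
    · rw [hjk, C.diag]
      have := hγ0 k
      omega
    have hj : D.ρ.SameCycle i j := by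
      apply hs
      rw [hcoord j, if_neg hjk]
      omega
    obtain ⟨l, hl, hlj⟩ := D.F1a_cyc k j (hk.symm.trans hj)
    have hl0 : 0 < l := by
      rcases Nat.eq_zero_or_pos l with h4 | h4
      · exfalso
        rw [h4, pow_zero] at hlj
        exact hjk hlj.symm
      · exact h4
    have hr : D.r (C.simple k) ≠ C.simple k := by
      intro h4
      have h5 : ∀ l, D.r^[l] (C.simple k) = C.simple k := by
        intro l
        induction l with
        | zero => rfl
        | succ l ih => rw [Function.iterate_succ_apply', ih, h4]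
      have h6 := h5 l
      rw [D.r_iter_simple, hlj] at h6
      exact hjk (C.simple_injective h6)
    have h4 := D.ip_orb (C.simple k) hr l hl0 hl
    rw [D.ip_r_NA h _ hr, D.r_iter_simple, hlj, SLC.simple_val, SLC.simple_val, C.ip_single] at h4
    rw [h4, mul_zero]
  rw [← h2, h1] at h3
  omega

theorem sameCycle_iff (β β' : C.Root) : D.rE.SameCycle β β' ↔ ∃ l < D.m, β' = D.r^[l] β :=
  D.F1a_sc β β'

/-- The class of a simple root. -/
theorem exists_out_simple (i : Fin n) :
    ∃ j, D.ρ.SameCycle i j ∧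
      Quotient.out (Quotient.mk (Equiv.Perm.SameCycle.setoid D.rE) (C.simple i)) = C.simple j := by
  have h : D.rE.SameCycle
      (Quotient.out (Quotient.mk (Equiv.Perm.SameCycle.setoid D.rE) (C.simple i))) (C.simple i) :=
    Quotient.exact (Quotient.out_eq
      (Quotient.mk (Equiv.Perm.SameCycle.setoid D.rE) (C.simple i)))
  obtain ⟨l, -, hl⟩ := (D.F1a_sc _ _).1 h.symm
  rw [D.r_iter_simple] at hl
  exact ⟨(D.ρ ^ l) i, ⟨l, by rw [zpow_natCast]⟩, hl⟩

theorem sameCycle_simple (i j : Fin n) :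
    D.rE.SameCycle (C.simple i) (C.simple j) ↔ D.ρ.SameCycle i j := D.F1a_scs i j

theorem sameCycle_pos (β β' : C.Root) (h : D.rE.SameCycle β β') : C.Pos β ↔ C.Pos β' := by
  obtain ⟨l, -, rfl⟩ := (D.F1a_sc _ _).1 h
  unfold SLC.Pos
  rw [D.F1a_ht_iter]

end Dg

end Pool.Agent.H75.UL
end
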