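import Pool.Agent.H86.AL.M04
import Pool.Agent.H86.AL.M05
import Pool.Agent.H86.AL.M06
import Pool.Agent.H86.AL.M07
import Pool.Agent.H86.AL.M08
import Pool.Agent.H86.AL.M09
import Pool.Agent.H86.AL.M10

/-!
# M13: collected modules

Pool.Agent.H75.UT.D8u
Pool.Agent.H75.UT.D8
Pool.Agent.H86.UM.RD4
Pool.Agent.H86.UM.UC
Pool.Agent.H86.UM.AS1
Pool.Agent.H86.UM.EX1
Pool.Agent.H86.UM.W1
Pool.Agent.H75.UL.C3
Pool.Agent.H86.UL.P2
-/

section
/- module Pool.Agent.H75.UT.D8u -/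
/-!
# Project UT, module D8u

`bruhat_unique`: from `u₁ ν₁ = u₂ ν₂ b` we get `(u₂⁻¹ u₁) ν₁ = ν₂ b`; compare the columns `inr γ`
(`N_mono`): on the left a multiple of `(u₂⁻¹ u₁) e_{w₁ γ}`, with coordinate `0` at all basis vectors of
height `< ht (w₁ γ)`; on the right the coordinate at `inr (w₂ γ)` is the product of the nonzero entry
of `ν₂` and `b γ γ ≠ 0` (`chi_ne_zero`; only `e_γ` is mapped to a multiple of `e_{w₂ γ}`). So
`ht (w₁ γ) ≤ ht (w₂ γ)` for all `γ`, and as both sums over all roots are equal (reindex), equality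
holds. So `w₂ w₁⁻¹` preserves heights and is `1` (`eq_one_of_pos`). `U_inf_Um`: `Fil_U`, and the
analogous statement for `Um` (entries at `(a, b)` with `hti a ≥ hti b` are those of `1`).
-/

set_option autoImplicit false
open Matrix
universe u
namespace Pool.Agent.H75.UL

section
variable {n : ℕ} {C : SLC n} {F : Type*} [Field F]

private theorem D8u_E (α : C.Root) (a b : C.Idx) (h : C.hti a ≠ C.hti b + ht α.1) :
    C.E α a b = 0 := by
  rcases a with i | γ <;> rcases b with j | β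
  · rfl
  · simp only [SLC.E]
    rw [if_neg]
    intro h1
    apply h
    simp only [SLC.hti, Sum.elim_inl, Sum.elim_inr]
    rw [h1, ht_neg]
    omega
  · simp only [SLC.E]
    rw [if_neg]
    intro h1
    apply h
    simp only [SLC.hti, Sum.elim_inl, Sum.elim_inr]
    rw [h1]
    omega
  · simp only [SLC.E]
    rw [if_neg]
    intro h1
    apply h
    simp only [SLC.hti, Sum.elim_inr]
    rw [h1, ht_add]
    omega

private theorem D8u_F (α : C.Root) (a b : C.Idx) (h : C.hti a ≠ C.hti b + 2 * ht α.1) :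
    C.F α a b = 0 := by
  rcases a with i | γ <;> rcases b with j | β
  · rfl
  · rfl
  · rfl
  · simp only [SLC.F]
    rw [if_neg]
    rintro ⟨h1, h2⟩
    apply h
    simp only [SLC.hti, Sum.elim_inr]
    rw [h1, h2, ht_neg]
    omega

/-- Matrices that lower the height. -/
private def D8u_P (M : Matrix C.Idx C.Idx F) : Prop :=
  ∀ a b, C.hti b ≤ C.hti a → M a b = 0

private theorem D8u_P_add {M N : Matrix C.Idx C.Idx F} (hM : D8u_P M) (hN : D8u_P N) :
    D8u_P (M + N) := by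
  intro a b h
  rw [Matrix.add_apply, hM a b h, hN a b h, add_zero]

private theorem D8u_P_mul {M N : Matrix C.Idx C.Idx F} (hM : D8u_P M) (hN : D8u_P N) :
    D8u_P (M * N) := by
  intro a b h
  rw [Matrix.mul_apply]
  refine Finset.sum_eq_zero fun c _ => ?_
  by_cases h1 : C.hti c ≤ C.hti a
  · rw [hM a c h1, zero_mul]
  · rw [hN c b (by omega), mul_zero]

private theorem D8u_P_X (β : C.Root) (hβ : ht β.1 < 0) (t : F) :
    D8u_P (C.X F β t - 1) := by
  intro a b h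
  have h1 : C.X F β t - 1 =
      t • (C.E β).map (Int.cast : ℤ → F) + t ^ 2 • (C.F β).map (Int.cast : ℤ → F) := by
    unfold SLC.X
    abel
  rw [h1, Matrix.add_apply, Matrix.smul_apply, Matrix.smul_apply, Matrix.map_apply,
    Matrix.map_apply, D8u_E β a b (by omega), D8u_F β a b (by omega)]
  simp

private theorem D8u_P_mulg (A B : Matrix C.Idx C.Idx F) (hA : D8u_P (A - 1)) (hB : D8u_P (B - 1)) :
    D8u_P (A * B - 1) := by
  have h : A * B - 1 = (A - 1) * (B - 1) + (A - 1) + (B - 1) := by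
    rw [sub_mul, mul_sub, mul_one, one_mul]
    abel
  rw [h]
  exact D8u_P_add (D8u_P_add (D8u_P_mul hA hB) hA) hB

private theorem D8u_Um (g : GL C.Idx F) (hg : g ∈ (C.adS F).Um) :
    D8u_P ((g : Matrix C.Idx C.Idx F) - 1) ∧
      D8u_P (((g⁻¹ : GL C.Idx F) : Matrix C.Idx C.Idx F) - 1) := by
  unfold StSys.Um at hg
  induction hg using Subgroup.closure_induction with
  | mem g hg =>
    obtain ⟨β, t, hβ, rfl⟩ := hg
    exact ⟨D8u_P_X β hβ t, D8u_P_X β hβ (-t)⟩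
  | one =>
    rw [inv_one, Units.val_one, sub_self]
    exact ⟨fun _ _ _ => rfl, fun _ _ _ => rfl⟩
  | mul x y _ _ hx hy =>
    rw [_root_.mul_inv_rev, Units.val_mul, Units.val_mul]
    exact ⟨D8u_P_mulg _ _ hx.1 hy.1, D8u_P_mulg _ _ hy.2 hx.2⟩
  | inv x _ hx =>
    rw [inv_inv]
    exact ⟨hx.2, hx.1⟩

private theorem D8u_ht_le (v ν₁ ν₂ b : GL C.Idx F) (w₁ w₂ : Equiv.Perm C.Root)
    (hv : v ∈ (C.adS F).U 1) (hν₁ : ν₁ ∈ (C.adS F).N)
    (hν₂ : ν₂ ∈ (C.adS F).N) (h₁ : (C.adS F).Acts ν₁ w₁) (h₂ : (C.adS F).Acts ν₂ w₂)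
    (hb : b ∈ C.Gad F) (hb0 : C.Fil 0 (b : Matrix C.Idx C.Idx F))
    (h : v * ν₁ = ν₂ * b) (γ : C.Root) : ht (w₁ γ).1 ≤ ht (w₂ γ).1 := by
  obtain ⟨-, p1, p2, p3, p4⟩ := C.N_mono ν₁ w₁ h₁ hν₁
  obtain ⟨-, q1, q2, q3, q4⟩ := C.N_mono ν₂ w₂ h₂ hν₂
  have e1 := congrArg (fun g : GL C.Idx F => (g : Matrix C.Idx C.Idx F) (Sum.inr (w₂ γ))
    (Sum.inr γ)) h
  simp only [Units.val_mul] at e1
  rw [Matrix.mul_apply, Matrix.mul_apply] at e1
  have hL : ∑ a, (v : Matrix C.Idx C.Idx F) (Sum.inr (w₂ γ)) a *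
      (ν₁ : Matrix C.Idx C.Idx F) a (Sum.inr γ) =
      (v : Matrix C.Idx C.Idx F) (Sum.inr (w₂ γ)) (Sum.inr (w₁ γ)) *
        (ν₁ : Matrix C.Idx C.Idx F) (Sum.inr (w₁ γ)) (Sum.inr γ) := by
    refine Finset.sum_eq_single (Sum.inr (w₁ γ)) ?_ ?_
    · intro a _ hne
      rcases a with i | δ
      · rw [p1 i γ, mul_zero]
      · rw [p3 γ δ, mul_zero]
        intro h5
        exact hne (congrArg Sum.inr h5)
    · intro h5
      exact absurd (Finset.mem_univ _) h5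
  have hR : ∑ a, (ν₂ : Matrix C.Idx C.Idx F) (Sum.inr (w₂ γ)) a *
      (b : Matrix C.Idx C.Idx F) a (Sum.inr γ) =
      (ν₂ : Matrix C.Idx C.Idx F) (Sum.inr (w₂ γ)) (Sum.inr γ) *
        (b : Matrix C.Idx C.Idx F) (Sum.inr γ) (Sum.inr γ) := by
    refine Finset.sum_eq_single (Sum.inr γ) ?_ ?_
    · intro a _ hne
      rcases a with i | δ
      · rw [q2 i (w₂ γ), zero_mul]
      · rw [q3 δ (w₂ γ), zero_mul]
        intro h5
        exact hne (congrArg Sum.inr (w₂.injective h5.symm))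
    · intro h5
      exact absurd (Finset.mem_univ _) h5
  rw [hL, hR] at e1
  have h6 : (ν₂ : Matrix C.Idx C.Idx F) (Sum.inr (w₂ γ)) (Sum.inr γ) *
        (b : Matrix C.Idx C.Idx F) (Sum.inr γ) (Sum.inr γ) ≠ 0 :=
    mul_ne_zero (q4 γ) (C.chi_ne_zero b hb hb0 γ)
  rw [← e1] at h6
  have h7 := left_ne_zero_of_mul h6
  by_contra hcon
  apply h7
  refine C.Fil_U_zero v hv _ _ ?_
  show ht (w₂ γ).1 < ht (w₁ γ).1 + 0
  omega

/-- Uniqueness of the Weyl group element in Bruhat's decomposition. -/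
theorem bruhat_unique (u₁ u₂ ν₁ ν₂ b : GL C.Idx F) (w₁ w₂ : Equiv.Perm C.Root)
    (hu₁ : u₁ ∈ (C.adS F).U 1) (hu₂ : u₂ ∈ (C.adS F).U 1) (hν₁ : ν₁ ∈ (C.adS F).N)
    (hν₂ : ν₂ ∈ (C.adS F).N) (h₁ : (C.adS F).Acts ν₁ w₁) (h₂ : (C.adS F).Acts ν₂ w₂)
    (hb : b ∈ C.Gad F) (hb0 : C.Fil 0 (b : Matrix C.Idx C.Idx F))
    (h : u₁ * ν₁ = u₂ * ν₂ * b) : w₁ = w₂ := by
  have hv : u₂⁻¹ * u₁ ∈ (C.adS F).U 1 := Subgroup.mul_mem _ (Subgroup.inv_mem _ hu₂) hu₁
  have hvn : (u₂⁻¹ * u₁) * ν₁ = ν₂ * b := by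
    rw [mul_assoc, h]
    group
  have hle := D8u_ht_le (u₂⁻¹ * u₁) ν₁ ν₂ b w₁ w₂ hv hν₁ hν₂ h₁ h₂ hb hb0 hvn
  have hs1 : ∑ γ : C.Root, ht (w₁ γ).1 = ∑ γ : C.Root, ht γ.1 :=
    Equiv.sum_comp w₁ (fun γ : C.Root => ht γ.1)
  have hs2 : ∑ γ : C.Root, ht (w₂ γ).1 = ∑ γ : C.Root, ht γ.1 :=
    Equiv.sum_comp w₂ (fun γ : C.Root => ht γ.1)
  have heq : ∀ γ : C.Root, ht (w₁ γ).1 = ht (w₂ γ).1 := by
    have h1 := (Finset.sum_eq_sum_iff_of_le (s := Finset.univ)
      (f := fun γ : C.Root => ht (w₁ γ).1) (g := fun γ : C.Root => ht (w₂ γ).1)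
      (fun γ _ => hle γ)).1 (hs1.trans hs2.symm)
    exact fun γ => h1 γ (Finset.mem_univ γ)
  have hw₁ := (C.N_mono ν₁ w₁ h₁ hν₁).1
  have hw₂ := (C.N_mono ν₂ w₂ h₂ hν₂).1
  have h3 : w₂ * w₁⁻¹ = 1 := by
    refine C.eq_one_of_pos _ (Subgroup.mul_mem _ hw₂ (Subgroup.inv_mem _ hw₁)) fun i => ?_
    have h4 := heq (w₁⁻¹ (C.simple i))
    rw [← Equiv.Perm.mul_apply, mul_inv_cancel, Equiv.Perm.one_apply] at h4
    show 0 < ht ((w₂ * w₁⁻¹) (C.simple i)).1
    rw [Equiv.Perm.mul_apply, ← h4]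
    exact C.simple_pos i
  exact (mul_inv_eq_one.1 h3).symm

theorem U_inf_Um (g : GL C.Idx F) (h1 : g ∈ (C.adS F).U 1) (h2 : g ∈ (C.adS F).Um) : g = 1 := by
  apply Units.ext
  ext a b
  rw [Units.val_one]
  have h3 := C.Fil_U 1 le_rfl g h1
  have h4 := (D8u_Um g h2).1
  have h5 : ((g : Matrix C.Idx C.Idx F) - 1) a b = 0 := by
    by_cases hab : C.hti b ≤ C.hti a
    · exact h4 a b hab
    · exact h3 a b (by omega)
  rw [Matrix.sub_apply, sub_eq_zero] at h5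
  exact h5

end

end Pool.Agent.H75.UL
end

section
/- module Pool.Agent.H75.UT.D8 -/
/-!
# Project UT, module D8

`σ`-stable chambers.

`g ∈ Gad F`, `g⁻¹ σ(g)` upper triangular: then `g = g₁ b`, `g₁ ∈ E = Eg (adS F) (sgl θ)`, `b` upper
triangular. Bruhat (`StSys.bruhat` for `adS`, `gen_adS`) and `exists_lp_inv`: `g = u ν b`, `u = lp t`,
`ν ∈ N` acting by `w`, `b ∈ U 1`, `t β = 0` if `Pos (w⁻¹ β)`. `σ(g) = σ(u) σ(ν) σ(b)`, `σ(ν)` acts by
`w' = rE w rE⁻¹` (`isSig_adS`, `IsSig.acts`). (1) `w' = w`: `σ(u) σ(ν) = u ν (b (g⁻¹ σ(g)) σ(b)⁻¹)` and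
`bruhat_unique` (`upper_inv`, `Fil_U_zero`). (2) By `exists_nW` there is `ν₁ ∈ N ∩ E` acting by `w`;
`ν = ν₁ τ` with `τ ∈ T` (`N_one` for `ν₁⁻¹ ν`, `Acts_mul`, `Acts_inv`), so we may take `ν = ν₁`
(`b` replaced by `τ b`, upper triangular in `Gad`), `σ(ν) = ν` (`Eg_le_fix`). Then
`z := ν⁻¹ (u⁻¹ σ(u)) ν` is upper triangular and unipotent (`Fil_U`: `u⁻¹ σ(u) ∈ U 1`), so in `U 1`
(`mem_U_of_unipotent`). (3) `z = (ν⁻¹ u ν)⁻¹ (ν⁻¹ σ(u) ν)` and both factors are in `Um`: `u` is a product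
of `x_β(t β)` with `w⁻¹ β` negative, so is `σ(u)` (`w⁻¹ (r β) = r (w⁻¹ β)`), and `ν⁻¹ x_β ν` is a root
element for `w⁻¹ β`. So `z = 1` (`U_inf_Um`), `σ(u) = u`, `u ∈ fixU`, `g₁ = u ν`.
-/

set_option autoImplicit false
open Matrix
universe u
namespace Pool.Agent.H75.UL

section
variable {n : ℕ} {C : SLC n} (D : Dg C) {F : Type*} [Field F]

private theorem D8_mul {K : Type*} [Field K] (g h : GL C.Idx K)
    (hg : C.Fil 0 (g : Matrix C.Idx C.Idx K)) (hh : C.Fil 0 (h : Matrix C.Idx C.Idx K)) :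
    C.Fil 0 ((g * h : GL C.Idx K) : Matrix C.Idx C.Idx K) := by
  have h1 := C.Fil_mul hg hh
  rw [add_zero] at h1
  rw [Units.val_mul]
  exact h1

private theorem D8_nil {K : Type*} [Field K] (M : Matrix C.Idx C.Idx K) (hM : C.Fil 1 M) :
    IsNilpotent M := by
  obtain ⟨m₀, hm₀⟩ := C.exists_Fil_eq_zero' K
  have key : ∀ k : ℕ, C.Fil (k : ℤ) (M ^ k) := by
    intro k
    induction k with
    | zero =>
      rw [pow_zero]
      exact C.Fil_one
    | succ k ih =>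
      rw [pow_succ]
      have h1 := C.Fil_mul ih hM
      push_cast
      exact h1
  exact ⟨m₀.toNat, hm₀ _ (C.Fil_mono (Int.self_le_toNat m₀) (key m₀.toNat))⟩

private theorem D8_conj_nil {K : Type*} [Field K] (x ν : GL C.Idx K)
    (h : IsNilpotent ((x : Matrix C.Idx C.Idx K) - 1)) :
    IsNilpotent (((ν⁻¹ * x * ν : GL C.Idx K) : Matrix C.Idx C.Idx K) - 1) := by
  obtain ⟨k, hk⟩ := h
  refine ⟨k, ?_⟩
  have h1 : ∀ j : ℕ, (((ν⁻¹ * x * ν : GL C.Idx K) : Matrix C.Idx C.Idx K) - 1) ^ j =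
      ((ν⁻¹ : GL C.Idx K) : Matrix C.Idx C.Idx K) * ((x : Matrix C.Idx C.Idx K) - 1) ^ j *
        (ν : Matrix C.Idx C.Idx K) := by
    intro j
    induction j with
    | zero =>
      rw [pow_zero, pow_zero, mul_one, ← Units.val_mul, inv_mul_cancel, Units.val_one]
    | succ j ih =>
      have e : ((ν⁻¹ * x * ν : GL C.Idx K) : Matrix C.Idx C.Idx K) - 1 =
          ((ν⁻¹ : GL C.Idx K) : Matrix C.Idx C.Idx K) * ((x : Matrix C.Idx C.Idx K) - 1) *
            (ν : Matrix C.Idx C.Idx K) := by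
        rw [mul_sub, sub_mul, mul_one, Units.val_mul, Units.val_mul, ← Units.val_mul ν⁻¹ ν,
          inv_mul_cancel, Units.val_one]
      have e2 : (ν : Matrix C.Idx C.Idx K) * ((ν⁻¹ : GL C.Idx K) : Matrix C.Idx C.Idx K) = 1 := by
        rw [← Units.val_mul, mul_inv_cancel, Units.val_one]
      rw [pow_succ, ih, e, pow_succ]
      simp only [mul_assoc]
      rw [← mul_assoc (ν : Matrix C.Idx C.Idx K) _ _, e2, one_mul]
  rw [h1, hk, mul_zero, zero_mul]

/-- The elements whose conjugate by `ν` is in `Um`. -/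
private noncomputable def D8_V (S : StSys C F (GL C.Idx F)) (ν : GL C.Idx F) : Subgroup (GL C.Idx F) :=
  S.Um.comap (MulAut.conj ν⁻¹).toMonoidHom

private theorem D8_mem (S : StSys C F (GL C.Idx F)) (ν x : GL C.Idx F) :
    x ∈ D8_V S ν ↔ ν⁻¹ * x * ν ∈ S.Um := by
  unfold D8_V
  rw [Subgroup.mem_comap]
  change ν⁻¹ * x * ν⁻¹⁻¹ ∈ S.Um ↔ _
  rw [inv_inv]

private theorem D8_root (S : StSys C F (GL C.Idx F)) (ν : GL C.Idx F) (w : Equiv.Perm C.Root)
    (hw : S.Acts ν w) (β : C.Root) (t : F) (h : ¬ C.Pos (w⁻¹ β)) : S.x β t ∈ D8_V S ν := by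
  rw [D8_mem]
  obtain ⟨c, -, hc⟩ := C.Acts_inv S ν w hw
  have h1 := hc β t
  rw [inv_inv] at h1
  rw [h1]
  refine Subgroup.subset_closure ⟨w⁻¹ β, c β * t, ?_, rfl⟩
  have h2 := C.ht_ne_zero (w⁻¹ β)
  unfold SLC.Pos at h
  omega

theorem sigma_chamber (θ : F ≃+* F) (hθ : ∀ t, (⇑θ)^[D.m] t = t)
    (hA : D.NA ∨ ∃ e, e ≠ 0 ∧ θ e = -e) (g : GL C.Idx F) (hg : g ∈ C.Gad F)
    (h : C.Fil 0 ((g⁻¹ * D.sgl θ g : GL C.Idx F) : Matrix C.Idx C.Idx F)) :
    ∃ g₁ ∈ Eg (C.adS F) (D.sgl θ),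
      C.Fil 0 ((g₁⁻¹ * g : GL C.Idx F) : Matrix C.Idx C.Idx F) := by
  have hsig : IsSig D θ (C.adS F) (D.sgl θ) := isSig_adS D θ
  set S := C.adS F with hS
  have hUG : ∀ x, x ∈ S.U 1 → x ∈ C.Gad F := by
    intro x hx
    rw [← C.gen_adS]
    exact S.U_le_gen 1 hx
  have hNG : ∀ x, x ∈ S.N → x ∈ C.Gad F := by
    intro x hx
    rw [← C.gen_adS]
    exact S.N_le_gen hx
  obtain ⟨u₀, hu₀, ν₀, hν₀, v₀, hv₀, hguv⟩ := S.bruhat g (by rw [C.gen_adS]; exact hg)
  obtain ⟨w, hw, hact, -⟩ := S.N_acts ν₀ hν₀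
  obtain ⟨t, ht, b₀, hb₀, hlp⟩ := S.exists_lp_inv ν₀ w hact u₀ hu₀
  set u : GL C.Idx F := S.lp C.posList t with hu
  have huU : u ∈ S.U 1 := by
    refine Subgroup.list_prod_mem _ ?_
    intro y hy
    obtain ⟨β, hβ, rfl⟩ := List.mem_map.1 hy
    refine Subgroup.subset_closure ⟨β, t β, ?_, rfl⟩
    have := (C.mem_posList β).1 hβ
    unfold SLC.Pos at this
    omega
  set b₁ : GL C.Idx F := b₀ * v₀ with hb₁
  have hb₁U : b₁ ∈ S.U 1 := mul_mem hb₀ hv₀
  have hg1 : g = u * ν₀ * b₁ := by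
    rw [hguv, hlp, hb₁, mul_assoc _ b₀ v₀]
  set c : GL C.Idx F := g⁻¹ * D.sgl θ g with hc
  have hcG : c ∈ C.Gad F := mul_mem (inv_mem hg) (sgl_Gad D θ g hg)
  -- the Weyl group element commutes with the diagram automorphism
  have hr : D.rE * w * D.rE⁻¹ = w := by
    refine bruhat_unique (D.sgl θ u) u (D.sgl θ ν₀) ν₀ (b₁ * c * (D.sgl θ b₁)⁻¹) _ _
      (hsig.map_U 1 u huU) huU (hsig.map_N ν₀ hν₀) hν₀ (hsig.acts ν₀ w hact) hact ?_ ?_ ?_
    · exact mul_mem (mul_mem (hUG _ hb₁U) hcG) (inv_mem (hUG _ (hsig.map_U 1 b₁ hb₁U)))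
    · refine D8_mul _ _ (D8_mul _ _ (C.Fil_U_zero b₁ hb₁U) h) ?_
      exact C.Fil_U_zero _ (inv_mem (hsig.map_U 1 b₁ hb₁U))
    · rw [hc]
      conv_rhs => rw [hg1]
      rw [map_mul, map_mul]
      group
  -- replace the monomial element by a fixed one
  obtain ⟨ν, ⟨hνN, hνE⟩, hνact⟩ := exists_nW hsig hθ hA w hw hr
  have hτT : ν⁻¹ * ν₀ ∈ S.T := by
    refine C.N_one _ ?_ (mul_mem (inv_mem hνN) hν₀)
    have h1 := C.Acts_mul S ν⁻¹ ν₀ w⁻¹ w (C.Acts_inv S ν w hνact) hact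
    rw [inv_mul_cancel] at h1
    exact h1
  set b : GL C.Idx F := ν⁻¹ * ν₀ * b₁ with hb
  have hbG : b ∈ C.Gad F := mul_mem (mul_mem (inv_mem (hNG _ hνN)) (hNG _ hν₀)) (hUG _ hb₁U)
  have hb0 : C.Fil 0 (b : Matrix C.Idx C.Idx F) :=
    D8_mul _ _ (C.Fil_T _ hτT) (C.Fil_U_zero b₁ hb₁U)
  have hg2 : g = u * ν * b := by
    rw [hg1, hb]
    group
  have hνfix : D.sgl θ ν = ν := Eg_le_fix S (D.sgl θ) ν hνE
  -- the element `z`
  have hz : ν⁻¹ * (u⁻¹ * D.sgl θ u) * ν = b * c * (D.sgl θ b)⁻¹ := by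
    rw [hc]
    conv_rhs => rw [hg2]
    rw [map_mul, map_mul, hνfix]
    group
  have hσb0 : C.Fil 0 ((D.sgl θ b : GL C.Idx F) : Matrix C.Idx C.Idx F) :=
    (sgl_Fil D θ 0 b).2 hb0
  have hz0 : C.Fil 0 ((ν⁻¹ * (u⁻¹ * D.sgl θ u) * ν : GL C.Idx F) : Matrix C.Idx C.Idx F) := by
    rw [hz]
    exact D8_mul _ _ (D8_mul _ _ hb0 h) (C.upper_inv _ (sgl_Gad D θ b hbG) hσb0)
  have huσ : u⁻¹ * D.sgl θ u ∈ S.U 1 := mul_mem (inv_mem huU) (hsig.map_U 1 u huU)
  have hzU : ν⁻¹ * (u⁻¹ * D.sgl θ u) * ν ∈ S.U 1 := by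
    refine C.mem_U_of_unipotent _ ?_ hz0 ?_
    · exact mul_mem (mul_mem (inv_mem (hNG _ hνN)) (hUG _ huσ)) (hNG _ hνN)
    · exact D8_conj_nil _ _ (D8_nil _ (C.Fil_U 1 le_rfl _ huσ))
  have hu1 : u ∈ D8_V S ν := by
    refine Subgroup.list_prod_mem _ ?_
    intro y hy
    obtain ⟨β, hβ, rfl⟩ := List.mem_map.1 hy
    by_cases hp : C.Pos (w⁻¹ β)
    · rw [ht β hp, S.x_zero]
      exact one_mem _
    · exact D8_root S ν w hνact β _ hp
  have hu2 : D.sgl θ u ∈ D8_V S ν := by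
    rw [hu]
    unfold StSys.lp
    rw [map_list_prod, List.map_map]
    refine Subgroup.list_prod_mem _ ?_
    intro y hy
    obtain ⟨β, hβ, rfl⟩ := List.mem_map.1 hy
    rw [Function.comp_apply, hsig β (t β)]
    by_cases hp : C.Pos (w⁻¹ β)
    · rw [ht β hp, map_zero, mul_zero, S.x_zero]
      exact one_mem _
    · refine D8_root S ν w hνact _ _ ?_
      have h1 : w⁻¹ (D.r β) = D.r (w⁻¹ β) := by
        rw [Equiv.Perm.inv_eq_iff_eq]
        have h2 : (D.rE * w * D.rE⁻¹) (D.r (w⁻¹ β)) = w (D.r (w⁻¹ β)) := by rw [hr]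
        rw [← h2]
        change D.r β = D.rE (w (D.rE⁻¹ (D.rE (w⁻¹ β))))
        have h3 : D.rE⁻¹ (D.rE (w⁻¹ β)) = w⁻¹ β := D.rE.symm_apply_apply _
        have h4 : w (w⁻¹ β) = β := w.apply_symm_apply β
        rw [h3, h4]
        rfl
      rw [h1, D.r_pos]
      exact hp
  have hzV : u⁻¹ * D.sgl θ u ∈ D8_V S ν := mul_mem (inv_mem hu1) hu2
  rw [D8_mem] at hzV
  have hz1 := U_inf_Um _ hzU hzV
  have hufix : D.sgl θ u = u := by
    have h1 : u⁻¹ * D.sgl θ u = 1 := by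
      have h2 : ν * (ν⁻¹ * (u⁻¹ * D.sgl θ u) * ν) * ν⁻¹ = ν * 1 * ν⁻¹ := by rw [hz1]
      rw [mul_one, mul_inv_cancel] at h2
      rw [← h2]
      group
    exact (inv_mul_eq_one.1 h1).symm
  refine ⟨u * ν, mul_mem (Subgroup.mem_sup_left ⟨huU, hufix⟩) hνE, ?_⟩
  have h1 : (u * ν)⁻¹ * g = b := by
    rw [hg2]
    group
  rw [h1]
  exact hb0

end

end Pool.Agent.H75.UL
end

section
/- module Pool.Agent.H86.UM.RD4 -/
/-!
# Project UM, module RD4: rational chambers (by derivations)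

`g ∈ Gad L` with `g⁻¹ γ g` upper triangular for all `γ ∈ Γ ⊆ Gad K`, the chamber of `g` fixed by all
`K`-automorphisms of `L`, and for every root `δ` there is `γ ∈ Γ` whose eigenvalue at `δ` is not `1`.
Then the chamber is rational. Proof: `normal_form`: `g₁ = lp y * nword l` with `g₁⁻¹ g` in `Fil 0`. `g₁` has
the same properties (`Fil_mul`, `upper_inv`, `P3b_chi_conj`-type argument for `chi`, `mp` of `Fil 0` is
`Fil 0`: `Fil_map`). `coords_perfect`. If all `y β ∈ K`, `y = algebraMap ∘ y₀`, then `g₀ = lp y₀ * nword l`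
(`mp_normal`) and we are done. Otherwise `exists_derivation` and `deriv_eq_zero` (over `E`, with
`mp (E → L)` injective on matrices, `Fil_map_iff`, `chi_map`, `mp_normal`; `mp` is functorial:
`mp (E → L) (mp (K → E) γ) = mp (K → L) γ`) give a contradiction.
-/

set_option autoImplicit false
open Matrix

namespace Pool.Agent.H86.UM

open Pool.Agent.H75.UL

variable {n : ℕ} (C : SLC n)

private theorem RD4_mem {F : Type*} [Field F] (l : List (Fin n)) (y : C.Root → F)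
    (hy : ∀ β, y β ≠ 0 → C.Pos β ∧ ¬ C.Pos ((C.wd l)⁻¹ β)) :
    (C.adS F).lp C.posList y * (C.adS F).nword l ∈ C.Gad F := by
  rw [← C.gen_adS]
  refine mul_mem ?_ ?_
  · refine (C.adS F).U_le_gen 1 ((C.adS F).lp_mem 1 y ?_)
    intro β hβ
    by_contra h
    have h1 : 0 < ht β.1 := (hy β h).1
    omega
  · exact (C.adS F).N_le_gen ((C.adS F).nword_mem l)

private theorem RD4_mp_mp {K E L : Type*} [Field K] [Field E] [Field L] (f : K →+* E)
    (f' : E →+* L) (f'' : K →+* L) (h : ∀ x, f' (f x) = f'' x) (γ : GL C.Idx K) :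
    C.mp f' (C.mp f γ) = C.mp f'' γ := by
  apply Units.ext
  rw [C.mp_val, C.mp_val, C.mp_val]
  ext a b
  simp [h]

private theorem RD4_Fil_mul3 {F : Type*} [Field F] (a b c : GL C.Idx F)
    (ha : C.Fil 0 (a : Matrix C.Idx C.Idx F)) (hb : C.Fil 0 (b : Matrix C.Idx C.Idx F))
    (hc : C.Fil 0 (c : Matrix C.Idx C.Idx F)) :
    C.Fil 0 ((a * b * c : GL C.Idx F) : Matrix C.Idx C.Idx F) := by
  have h := C.Fil_mul (C.Fil_mul ha hb) hc
  rw [add_zero, add_zero] at h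
  exact h

theorem rational_der {K L : Type*} [Field K] [Field L] [Algebra K L] [IsAlgClosure K L]
    (Γ : Set (GL C.Idx K)) (hΓ : ∀ γ ∈ Γ, γ ∈ C.Gad K) (g : GL C.Idx L) (hg : g ∈ C.Gad L)
    (hB : ∀ γ ∈ Γ, C.Fil 0 ((g⁻¹ * C.mp (algebraMap K L) γ * g : GL C.Idx L) :
      Matrix C.Idx C.Idx L))
    (hfix : ∀ σ : L ≃ₐ[K] L, C.Fil 0 ((g⁻¹ * C.mp (σ : L →+* L) g : GL C.Idx L) :
      Matrix C.Idx C.Idx L))
    (hreg : ∀ δ : C.Root, ∃ γ ∈ Γ, C.chi ((g⁻¹ * C.mp (algebraMap K L) γ * g : GL C.Idx L) :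
      Matrix C.Idx C.Idx L) δ ≠ 1) :
    ∃ g₀ ∈ C.Gad K, C.Fil 0 ((g⁻¹ * C.mp (algebraMap K L) g₀ : GL C.Idx L) :
      Matrix C.Idx C.Idx L) := by
  obtain ⟨l, y, hy, hgB⟩ := normal_form C g hg
  obtain ⟨g₁, hg₁⟩ : ∃ g₁ : GL C.Idx L,
      g₁ = (C.adS L).lp C.posList y * (C.adS L).nword l := ⟨_, rfl⟩
  have hm₁ : g₁ ∈ C.Gad L := by
    rw [hg₁]
    exact RD4_mem C l y hy
  rw [← hg₁] at hgB
  obtain ⟨b, hb⟩ : ∃ b : GL C.Idx L, b = g₁⁻¹ * g := ⟨_, rfl⟩
  have hbm : b ∈ C.Gad L := by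
    rw [hb]
    exact mul_mem (inv_mem hm₁) hg
  rw [← hb] at hgB
  have hbi := C.upper_inv b hbm hgB
  have hg₁' : g₁ = g * b⁻¹ := by
    rw [hb]
    group
  have hconj : ∀ x : GL C.Idx L, g₁⁻¹ * x * g₁ = b * (g⁻¹ * x * g) * b⁻¹ := by
    intro x
    rw [hg₁']
    group
  have hB₁ : ∀ γ ∈ Γ, C.Fil 0 ((g₁⁻¹ * C.mp (algebraMap K L) γ * g₁ : GL C.Idx L) :
      Matrix C.Idx C.Idx L) := by
    intro γ hγ
    rw [hconj]
    exact RD4_Fil_mul3 C _ _ _ hgB (hB γ hγ) hbi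
  have hfix₁ : ∀ σ : L ≃ₐ[K] L, C.Fil 0 ((g₁⁻¹ * C.mp (σ : L →+* L) g₁ : GL C.Idx L) :
      Matrix C.Idx C.Idx L) := by
    intro σ
    have e : g₁⁻¹ * C.mp (σ : L →+* L) g₁ =
        b * (g⁻¹ * C.mp (σ : L →+* L) g) * C.mp (σ : L →+* L) b⁻¹ := by
      rw [hg₁', _root_.map_mul]
      group
    rw [e]
    refine RD4_Fil_mul3 C _ _ _ hgB (hfix σ) ?_
    rw [C.mp_val]
    exact C.Fil_map _ hbi
  have hreg₁ : ∀ δ : C.Root, ∃ γ ∈ Γ, C.chi ((g₁⁻¹ * C.mp (algebraMap K L) γ * g₁ : GL C.Idx L) :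
      Matrix C.Idx C.Idx L) δ ≠ 1 := by
    intro δ
    obtain ⟨γ, hγ, h⟩ := hreg δ
    refine ⟨γ, hγ, ?_⟩
    have h1 := C.P3b_chi_conj (g⁻¹ * C.mp (algebraMap K L) γ * g) b⁻¹
      (mul_mem (mul_mem (inv_mem hg) (C.mp_Gad _ γ (hΓ γ hγ))) hg) (hB γ hγ) (inv_mem hbm) hbi δ
    rw [inv_inv] at h1
    rw [hconj, h1]
    exact h
  have hperf := coords_perfect C l y hy g₁ hg₁ hfix₁
  by_cases hall : ∀ β, y β ∈ Set.range (algebraMap K L)
  · choose y₀ hy₀ using hall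
    have hy₀' : ∀ β, y₀ β ≠ 0 → C.Pos β ∧ ¬ C.Pos ((C.wd l)⁻¹ β) := by
      intro β h
      apply hy β
      rw [← hy₀ β]
      simpa using h
    refine ⟨(C.adS K).lp C.posList y₀ * (C.adS K).nword l, RD4_mem C l y₀ hy₀', ?_⟩
    rw [mp_normal]
    have e : (fun β => (algebraMap K L) (y₀ β)) = y := funext hy₀
    rw [e, ← hg₁]
    have e2 : g⁻¹ * g₁ = b⁻¹ := by
      rw [hb]
      group
    rw [e2]
    exact hbi
  · exfalso
    push Not at hall
    obtain ⟨E, hE, D, i, hi⟩ := exists_derivation y hperf hall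
    apply hi
    let yE : C.Root → E := fun β => ⟨y β, hE β⟩
    have hyE : ∀ β, yE β ≠ 0 → C.Pos β ∧ ¬ C.Pos ((C.wd l)⁻¹ β) := by
      intro β h
      apply hy β
      intro h0
      apply h
      apply Subtype.ext
      exact h0
    let gE : GL C.Idx E := (C.adS E).lp C.posList yE * (C.adS E).nword l
    have hgE : C.mp (algebraMap E L) gE = g₁ := by
      rw [hg₁]
      exact mp_normal C (algebraMap E L) l yE
    have hmp : ∀ γ : GL C.Idx K, C.mp (algebraMap E L) (gE⁻¹ * C.mp (algebraMap K E) γ * gE) =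
        g₁⁻¹ * C.mp (algebraMap K L) γ * g₁ := by
      intro γ
      rw [_root_.map_mul, _root_.map_mul, _root_.map_inv, hgE,
        RD4_mp_mp C (algebraMap K E) (algebraMap E L) (algebraMap K L)
          (fun x => (IsScalarTower.algebraMap_apply K E L x).symm)]
    have hinj : Function.Injective (algebraMap E L) := (algebraMap E L).injective
    have hBE : ∀ γ ∈ Γ, C.Fil 0 ((gE⁻¹ * C.mp (algebraMap K E) γ * gE : GL C.Idx E) :
        Matrix C.Idx C.Idx E) := by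
      intro γ hγ
      rw [← C.Fil_map_iff (algebraMap E L) hinj, ← C.mp_val, hmp]
      exact hB₁ γ hγ
    have hregE : ∀ δ : C.Root, ∃ γ ∈ Γ,
        C.chi ((gE⁻¹ * C.mp (algebraMap K E) γ * gE : GL C.Idx E) :
          Matrix C.Idx C.Idx E) δ ≠ 1 := by
      intro δ
      obtain ⟨γ, hγ, h⟩ := hreg₁ δ
      refine ⟨γ, hγ, ?_⟩
      intro h1
      apply h
      rw [← hmp, C.mp_val, C.chi_map, h1, _root_.map_one]
    exact deriv_eq_zero C D l yE hyE gE rfl Γ hΓ hBE hregE i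

end Pool.Agent.H86.UM
end

section
/- module Pool.Agent.H86.UM.UC -/
/-!
# Project UM, module UC: uniqueness of the fixed chamber

`Γ` a set of elements of `U(F)` such that for each simple root `j` some `γ ∈ Γ` has `xi_j γ ≠ 0`. If
`y ∈ Gad F` and all `y⁻¹ γ y` are upper triangular then `y` is upper triangular.
This is the second half of the proof of `unique_chamber'` in H86/UL/P1.lean (see the docstring there):
`bruhat`, `N_acts`, `eq_one_of_pos`, `xi_eq_zero`, `xi_mul`, `xi_inv`.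
-/

set_option autoImplicit false
open Matrix

namespace Pool.Agent.H86.UM

open Pool.Agent.H75.UL

variable {n : ℕ} (C : SLC n)

theorem upper_of_fix {F : Type*} [Field F] (Γ : Set (GL C.Idx F))
    (hΓ : ∀ γ ∈ Γ, γ ∈ (C.adS F).U 1)
    (hnv : ∀ j, ∃ γ ∈ Γ, C.xi j (γ : Matrix C.Idx C.Idx F) ≠ 0)
    (y : GL C.Idx F) (hy : y ∈ C.Gad F)
    (h : ∀ γ ∈ Γ, C.Fil 0 ((y⁻¹ * γ * y : GL C.Idx F) : Matrix C.Idx C.Idx F)) :
    C.Fil 0 (y : Matrix C.Idx C.Idx F) := by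
  classical
  have hy' : y ∈ (C.adS F).gen := by
    rw [C.gen_adS]
    exact hy
  obtain ⟨u₀, hu₀, ν, hν, v, hv, hyeq⟩ := (C.adS F).bruhat y hy'
  obtain ⟨w, hw, hacts, hw1⟩ := (C.adS F).N_acts ν hν
  by_cases hw' : w = 1
  · obtain ⟨c, hc⟩ := C.T_diag ν (hw1 hw')
    have hνF : C.Fil 0 (ν : Matrix C.Idx C.Idx F) := by
      intro a b hab
      rw [hc]
      apply Matrix.diagonal_apply_ne
      rintro rfl
      omega
    have h1 := C.Fil_mul (C.Fil_mul (C.P1_Fil_zero_of_U hu₀) hνF) (C.P1_Fil_zero_of_U hv)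
    rw [hyeq, Units.val_mul, Units.val_mul]
    simpa using h1
  · exfalso
    have hj : ∃ j, ¬ C.Pos (w⁻¹ (C.simple j)) := by
      by_contra hcon
      apply hw'
      have h1 := C.eq_one_of_pos w⁻¹ (inv_mem hw) (by
        intro i
        by_contra h
        exact hcon ⟨i, h⟩)
      rwa [inv_eq_one] at h1
    obtain ⟨j, hj⟩ := hj
    obtain ⟨γ, hγΓ, hxi⟩ := hnv j
    apply hxi
    have hγ := hΓ γ hγΓ
    have hx : u₀⁻¹ * γ * u₀ ∈ (C.adS F).U 1 :=
      mul_mem (mul_mem (inv_mem hu₀) hγ) hu₀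
    have hF : C.Fil 0 ((ν⁻¹ * (u₀⁻¹ * γ * u₀) * ν : GL C.Idx F) :
        Matrix C.Idx C.Idx F) := by
      have h1 : ν⁻¹ * (u₀⁻¹ * γ * u₀) * ν = v * (y⁻¹ * γ * y) * v⁻¹ := by
        rw [hyeq]
        group
      have h3 := C.Fil_mul (C.Fil_mul (C.P1_Fil_zero_of_U hv) (h γ hγΓ))
        (C.P1_Fil_zero_of_U (inv_mem hv))
      rw [h1, Units.val_mul, Units.val_mul]
      simpa using h3
    have h4 := C.xi_eq_zero ν _ w hν hacts hx hF j hj
    rw [C.xi_mul j _ _ (mul_mem (inv_mem hu₀) hγ) hu₀, C.xi_mul j _ _ (inv_mem hu₀) hγ] at h4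
    have h5 := C.xi_mul j u₀⁻¹ u₀ (inv_mem hu₀) hu₀
    rw [inv_mul_cancel] at h5
    have h6 : C.xi j ((1 : GL C.Idx F) : Matrix C.Idx C.Idx F) = 0 := by
      simp [SLC.xi]
    rw [h6] at h5
    linear_combination h4 + h5

end Pool.Agent.H86.UM
end

section
/- module Pool.Agent.H86.UM.AS1 -/
/-!
# Project UM, module AS1: assembly of the first stage

`Word C θ S`: a word in the simple root groups of the source, of length `ht θ`, in which all orbits occur.

`stage_L`: `Γ = (S.U).map (mp ∘ Ψ) ≤ Gad L` consists of unipotents, so `fixed_chamber` (H86/UL/F2) gives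
`g ∈ Gad L` with `g⁻¹ Γ g` in `Fil 0`, so in `U(L)` (`mem_U_of_unipotent`; conjugates of unipotents are
unipotent). `nonvan_of_word` for `Ψ' = cj (mp ∘ Ψ) g` (`Ψ' w ≠ 1` as `mp` is injective, `mp_injective`).
For `h ∈ S.T` put `y = g⁻¹ mp(Ψ h) g`; for `u ∈ S.U`, `y⁻¹ (Ψ' u) y = Ψ' (h⁻¹ u h) ∈ U(L)`
(`T_conj_U` for `h⁻¹`), so `upper_of_fix` (with `nonvan`, `X_le`) gives `Fil 0 y`. For
`σ : L ≃ₐ[K] L` put `y = g⁻¹ (mp σ g)`: `y⁻¹ (Ψ' u) y = mp σ (Ψ' u) ∈ U(L)` (`mp_U`; the entries of `Ψ u`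
are in `K`, see `P3b_mp_fix`), so `Fil 0 y`.

`stage_K`: (the hypotheses on `g` are the conclusions of `stage_L`) `exists_fib` and `exists_regular'` over
`L` for `Ψ' = cj (mp ∘ Ψ) g` give `t ∈ S.T` such that all `chi (Ψ' t) γ ≠ 1`; `rational_der` with
`Γ = Ψ '' (S.U ∪ S.T)` gives `g₀ ∈ Gad K` with `b = g⁻¹ (mp g₀)` in `Fil 0`. For `u ∈ S.U`:
`mp (g₀⁻¹ Ψ(u) g₀) = b⁻¹ (Ψ' u) b`, so `g₀⁻¹ Ψ(u) g₀` is `Fil 0` (`Fil_map_iff`, `upper_inv`, `Fil_mul`) and
unipotent (`nilpotent_map_iff`; `Ψ' u ∈ U(L)` is unipotent by `Fil_U` and `exists_Fil_eq_zero'`), so in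
`U(K)` by `mem_U_of_unipotent`. For `h ∈ S.T` it is `Fil 0`. `xi j (b⁻¹ (Ψ' u) b)` is a nonzero multiple of
`xi j (Ψ' u)` (`xi_conj` with `b⁻¹`, `chi_ne_zero`), and `xi j (M.map f) = f (xi j M)`, so `nonvan`, `occ`
hold over `K`. So `Tgt C S (cj Ψ g₀)`. Then `exists_fib`, `exists_regular'`, `conj_torus'`, `Tgt_conj` over
`K` give `w`, `g₀ * w`. `unique_of_Tgt`: `upper_of_fix` (`y ∈ Gad`, `Γ = Ψ '' S.U`). `torus_of_Tgt`:
`Fil 0 y` by `unique_of_Tgt`; take `t` with `chi (Ψ t) γ ≠ 1` (`exists_regular'`); `y⁻¹ (Ψ t) y ∈ T` has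
the same `chi` as `Ψ t` (`chi_mul`, as in `P3b_chi_conj`), so `y⁻¹ (Ψ t) y = Ψ t` (`T_ext`), and
`centralizer_B`.
-/

set_option autoImplicit false
open Matrix

namespace Pool.Agent.H86.UM

open Pool.Agent.H75.UL

variable {n : ℕ} (C : SLC n)

/-- A word in the simple root groups of the source, of length `ht θ`, in which all orbits occur. -/
structure Word (θ : C.Root) {ι : Type} {E : Type*} [Group E] {k : Type*} [Field k]
    (S : Src ι E k) where
  J₀ : ι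
  x₀ : E
  l : List (ι × E)
  hx₀ : x₀ ∈ S.X J₀
  hl : ∀ p ∈ l, p.2 ∈ S.X p.1
  hlen : (l.length : ℤ) + 1 = ht θ.1
  hocc : ∀ J, J = J₀ ∨ ∃ p ∈ l, p.1 = J

/-- the iterated commutator -/
def Word.elt {C : SLC n} {θ : C.Root} {ι : Type} {E : Type*} [Group E] {k : Type*} [Field k]
    {S : Src ι E k} (w : Word C θ S) : E := icomm w.x₀ (w.l.map Prod.snd)

private theorem AS1_Fil_mul3 {F : Type*} [Field F] (a b c : GL C.Idx F)
    (ha : C.Fil 0 (a : Matrix C.Idx C.Idx F)) (hb : C.Fil 0 (b : Matrix C.Idx C.Idx F))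
    (hc : C.Fil 0 (c : Matrix C.Idx C.Idx F)) :
    C.Fil 0 ((a * b * c : GL C.Idx F) : Matrix C.Idx C.Idx F) := by
  have h := C.Fil_mul (C.Fil_mul ha hb) hc
  rw [add_zero, add_zero] at h
  exact h

private theorem AS1_U_Gad {F : Type*} [Field F] (u : GL C.Idx F) (hu : u ∈ (C.adS F).U 1) :
    u ∈ C.Gad F := by
  rw [← C.gen_adS]
  exact (C.adS F).U_le_gen 1 hu

private theorem AS1_nil_conj {F : Type*} [Field F] (g x : GL C.Idx F)
    (hx : IsNilpotent ((x : Matrix C.Idx C.Idx F) - 1)) :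
    IsNilpotent (((g⁻¹ * x * g : GL C.Idx F) : Matrix C.Idx C.Idx F) - 1) := by
  obtain ⟨N, hN⟩ := hx
  refine ⟨N, ?_⟩
  have e : ((g⁻¹ * x * g : GL C.Idx F) : Matrix C.Idx C.Idx F) - 1 =
      ((g⁻¹ : GL C.Idx F) : Matrix C.Idx C.Idx F) * ((x : Matrix C.Idx C.Idx F) - 1) *
        (g : Matrix C.Idx C.Idx F) := by
    rw [mul_sub, sub_mul, mul_one, Units.inv_mul, Units.val_mul, Units.val_mul]
  rw [e, Units.conj_pow', hN, mul_zero, zero_mul]

private theorem AS1_U_nil {F : Type*} [Field F] (u : GL C.Idx F) (hu : u ∈ (C.adS F).U 1) :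
    IsNilpotent ((u : Matrix C.Idx C.Idx F) - 1) := by
  have h1 := C.Fil_U 1 le_rfl u hu
  obtain ⟨m₀, hm₀⟩ := C.exists_Fil_eq_zero' F
  have hp : ∀ N : ℕ, C.Fil (N : ℤ) (((u : Matrix C.Idx C.Idx F) - 1) ^ N) := by
    intro N
    induction N with
    | zero =>
      rw [pow_zero]
      exact C.Fil_one
    | succ N ih =>
      have h := C.Fil_mul ih h1
      rw [pow_succ]
      push_cast
      exact h
  refine ⟨m₀.toNat, hm₀ _ (C.Fil_mono ?_ (hp _))⟩
  exact Int.self_le_toNat m₀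

private theorem AS1_xi_map {F F' : Type*} [Field F] [Field F'] (f : F →+* F')
    (M : Matrix C.Idx C.Idx F) (j : Fin n) : C.xi j (M.map f) = f (C.xi j M) := by
  simp [SLC.xi]

theorem stage_L (θ : C.Root) (hθ : C.IsHighest θ) {ι : Type} {E : Type*} [Group E] {k : Type*}
    [Field k] (S : Src ι E k) (w : Word C θ S) {K L : Type*} [Field K] [Field L] [Algebra K L]
    [IsAlgClosure K L] (Ψ : E →* GL C.Idx K) (hΨ : ∀ x, Ψ x ∈ C.Gad K) (hw : Ψ w.elt ≠ 1)
    (huni : ∀ u ∈ S.U, IsNilpotent ((Ψ u : Matrix C.Idx C.Idx K) - 1)) :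
    ∃ g ∈ C.Gad L, Tgt C S (cj ((C.mp (algebraMap K L)).comp Ψ) g) ∧
      ∀ σ : L ≃ₐ[K] L, C.Fil 0 ((g⁻¹ * C.mp (σ : L →+* L) g : GL C.Idx L) :
        Matrix C.Idx C.Idx L) := by
  have : IsAlgClosed L := IsAlgClosure.isAlgClosed K
  let Φ : E →* GL C.Idx L := (C.mp (algebraMap K L)).comp Ψ
  have hΦ : ∀ x, Φ x = C.mp (algebraMap K L) (Ψ x) := fun _ => rfl
  have hΦm : ∀ x, Φ x ∈ C.Gad L := fun x => C.mp_Gad _ _ (hΨ x)
  obtain ⟨g, hg, hgF⟩ := C.fixed_chamber L (S.U.map Φ) (by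
    rintro _ ⟨x, _, rfl⟩
    exact hΦm x) (by
    rintro _ ⟨u, hu, rfl⟩
    rw [hΦ, C.mp_val]
    have e : (Ψ u : Matrix C.Idx C.Idx K).map (algebraMap K L) - 1 =
        ((Ψ u : Matrix C.Idx C.Idx K) - 1).map (algebraMap K L) := by
      rw [Matrix.map_sub _ (fun a b => _root_.map_sub _ a b), Matrix.map_one _ (_root_.map_zero _) (_root_.map_one _)]
    rw [e, C.nilpotent_map_iff _ (algebraMap K L).injective]
    exact huni u hu)
  refine ⟨g, hg, ?_⟩
  have hmem : ∀ x, cj Φ g x ∈ C.Gad L := by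
    intro x
    rw [cj_apply]
    exact mul_mem (mul_mem (inv_mem hg) (hΦm x)) hg
  have hUle : ∀ u ∈ S.U, cj Φ g u ∈ (C.adS L).U 1 := by
    intro u hu
    refine C.mem_U_of_unipotent _ (hmem u) ?_ ?_
    · rw [cj_apply]
      exact hgF _ (Subgroup.mem_map_of_mem Φ hu)
    · rw [cj_apply]
      apply AS1_nil_conj
      rw [hΦ, C.mp_val]
      have e : (Ψ u : Matrix C.Idx C.Idx K).map (algebraMap K L) - 1 =
          ((Ψ u : Matrix C.Idx C.Idx K) - 1).map (algebraMap K L) := by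
        rw [Matrix.map_sub _ (fun a b => _root_.map_sub _ a b), Matrix.map_one _ (_root_.map_zero _) (_root_.map_one _)]
      rw [e, C.nilpotent_map_iff _ (algebraMap K L).injective]
      exact huni u hu
  have hne : cj Φ g (icomm w.x₀ (w.l.map Prod.snd)) ≠ 1 := by
    intro h1
    rw [cj_apply] at h1
    have h2 : Φ (icomm w.x₀ (w.l.map Prod.snd)) = 1 := by
      have h3 : Φ (icomm w.x₀ (w.l.map Prod.snd)) =
          g * (g⁻¹ * Φ (icomm w.x₀ (w.l.map Prod.snd)) * g) * g⁻¹ := by group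
      rw [h3, h1]
      group
    apply hw
    apply C.mp_injective (algebraMap K L) (algebraMap K L).injective
    rw [_root_.map_one]
    exact h2
  obtain ⟨hnv, hocc⟩ := nonvan_of_word C θ hθ (cj Φ g) S.X (fun J u hu => hUle u (S.X_le J hu))
    w.J₀ w.x₀ w.hx₀ w.l w.hl w.hlen w.hocc hne
  have hnv' : ∀ j, ∃ γ ∈ (cj Φ g) '' (S.U : Set E), C.xi j (γ : Matrix C.Idx C.Idx L) ≠ 0 := by
    intro j
    obtain ⟨J, x, hx, h⟩ := hnv j
    exact ⟨_, ⟨x, S.X_le J hx, rfl⟩, h⟩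
  have hΓU : ∀ γ ∈ (cj Φ g) '' (S.U : Set E), γ ∈ (C.adS L).U 1 := by
    rintro _ ⟨u, hu, rfl⟩
    exact hUle u hu
  have hTle : ∀ h ∈ S.T, C.Fil 0 (cj Φ g h : Matrix C.Idx C.Idx L) := by
    intro h hh
    refine upper_of_fix C _ hΓU hnv' _ (hmem h) ?_
    rintro _ ⟨u, hu, rfl⟩
    rw [← _root_.map_inv, ← _root_.map_mul, ← _root_.map_mul]
    have h1 := S.T_conj_U h⁻¹ (inv_mem hh) u hu
    rw [inv_inv] at h1
    exact C.Fil_U_zero _ (hUle _ h1)
  refine ⟨⟨hmem, hUle, hTle, hnv, hocc⟩, ?_⟩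
  intro σ
  refine upper_of_fix C _ hΓU hnv' _ (mul_mem (inv_mem hg) (C.mp_Gad _ g hg)) ?_
  rintro _ ⟨u, hu, rfl⟩
  have e : (g⁻¹ * C.mp (σ : L →+* L) g)⁻¹ * cj Φ g u * (g⁻¹ * C.mp (σ : L →+* L) g) =
      C.mp (σ : L →+* L) (cj Φ g u) := by
    rw [cj_apply, _root_.map_mul, _root_.map_mul, _root_.map_inv, hΦ, C.P3b_mp_fix]
    group
  rw [e, C.mp_val]
  exact C.Fil_map _ (C.Fil_U_zero _ (hUle u hu))

theorem stage_K {ι : Type} {E : Type*} [Group E] {k : Type*} [Field k] (S : Src ι E k)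
    {K L : Type*} [Field K] [Field L] [Algebra K L] [IsAlgClosure K L]
    (Ψ : E →* GL C.Idx K) (hΨ : ∀ x, Ψ x ∈ C.Gad K) (g : GL C.Idx L) (hg : g ∈ C.Gad L)
    (hT : Tgt C S (cj ((C.mp (algebraMap K L)).comp Ψ) g))
    (hfix : ∀ σ : L ≃ₐ[K] L, C.Fil 0 ((g⁻¹ * C.mp (σ : L →+* L) g : GL C.Idx L) :
        Matrix C.Idx C.Idx L)) :
    ∃ g₀ ∈ C.Gad K, Tgt C S (cj Ψ g₀) ∧ (∀ h ∈ S.T, cj Ψ g₀ h ∈ (C.adS K).T) ∧
      ∃ fib : Fin n → ι, Fib C S (cj Ψ g₀) fib := by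
  let Φ : E →* GL C.Idx L := (C.mp (algebraMap K L)).comp Ψ
  have hΦ : ∀ x, Φ x = C.mp (algebraMap K L) (Ψ x) := fun _ => rfl
  have hT' : Tgt C S (cj Φ g) := hT
  obtain ⟨fib, hf⟩ := exists_fib C S (cj Φ g) hT'
  obtain ⟨t, ht, hreg⟩ := exists_regular' C S (cj Φ g) hT' fib hf
  obtain ⟨g₀, hg₀, hb0⟩ := rational_der C (L := L) (Ψ '' ((S.U : Set E) ∪ (S.T : Set E)))
    (by
      rintro _ ⟨x, _, rfl⟩
      exact hΨ x) g hg
    (by
      rintro _ ⟨x, hx, rfl⟩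
      have e : g⁻¹ * C.mp (algebraMap K L) (Ψ x) * g = cj Φ g x := by
        rw [cj_apply]
        rfl
      rw [e]
      rcases hx with hx | hx
      · exact C.Fil_U_zero _ (hT'.U_le x hx)
      · exact hT'.T_le x hx) hfix
    (by
      intro δ
      refine ⟨Ψ t, ⟨t, Or.inr ht, rfl⟩, ?_⟩
      have e : g⁻¹ * C.mp (algebraMap K L) (Ψ t) * g = cj Φ g t := by
        rw [cj_apply]
        rfl
      rw [e]
      exact hreg δ)
  obtain ⟨b, hb⟩ : ∃ b : GL C.Idx L, b = g⁻¹ * C.mp (algebraMap K L) g₀ := ⟨_, rfl⟩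
  rw [← hb] at hb0
  have hbm : b ∈ C.Gad L := by
    rw [hb]
    exact mul_mem (inv_mem hg) (C.mp_Gad _ g₀ hg₀)
  have hbi := C.upper_inv b hbm hb0
  have hmp : ∀ x, C.mp (algebraMap K L) (cj Ψ g₀ x) = b⁻¹ * cj Φ g x * b := by
    intro x
    rw [cj_apply, cj_apply, _root_.map_mul, _root_.map_mul, _root_.map_inv, hΦ, hb]
    group
  have hinj : Function.Injective (algebraMap K L) := (algebraMap K L).injective
  have hmem : ∀ x, cj Ψ g₀ x ∈ C.Gad K := by
    intro x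
    rw [cj_apply]
    exact mul_mem (mul_mem (inv_mem hg₀) (hΨ x)) hg₀
  have hFil : ∀ x, C.Fil 0 (cj Φ g x : Matrix C.Idx C.Idx L) →
      C.Fil 0 (cj Ψ g₀ x : Matrix C.Idx C.Idx K) := by
    intro x hx
    rw [← C.Fil_map_iff (algebraMap K L) hinj, ← C.mp_val, hmp]
    exact AS1_Fil_mul3 C _ _ _ hbi hx hb0
  have hxic : ∀ u ∈ S.U, C.mp (algebraMap K L) (cj Ψ g₀ u) ∈ (C.adS L).U 1 ∧ ∀ j,
      algebraMap K L (C.xi j (cj Ψ g₀ u : Matrix C.Idx C.Idx K)) =
        C.chi ((b⁻¹ : GL C.Idx L) : Matrix C.Idx C.Idx L) (C.simple j) *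
          C.xi j (cj Φ g u : Matrix C.Idx C.Idx L) := by
    intro u hu
    have hU := hT'.U_le u hu
    have h1 := fun j => C.xi_conj b⁻¹ (cj Φ g u) (inv_mem hbm) hbi hU j
    simp only [inv_inv, ← hmp] at h1
    refine ⟨?_, fun j => ?_⟩
    · have h2 := C.mem_U_of_unipotent (C.mp (algebraMap K L) (cj Ψ g₀ u))
        (C.mp_Gad _ _ (hmem u)) (by
          rw [C.mp_val, C.Fil_map_iff _ hinj]
          exact hFil u (C.Fil_U_zero _ hU)) (by
          rw [hmp]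
          exact AS1_nil_conj C b _ (AS1_U_nil C _ hU))
      exact h2
    · rw [← AS1_xi_map, ← C.mp_val]
      exact (h1 j).2
  have hxine : ∀ u ∈ S.U, ∀ j, C.xi j (cj Φ g u : Matrix C.Idx C.Idx L) ≠ 0 →
      C.xi j (cj Ψ g₀ u : Matrix C.Idx C.Idx K) ≠ 0 := by
    intro u hu j h h0
    have h1 := (hxic u hu).2 j
    rw [h0, _root_.map_zero] at h1
    rcases mul_eq_zero.1 h1.symm with h2 | h2
    · exact C.chi_ne_zero b⁻¹ (inv_mem hbm) hbi _ h2
    · exact h h2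
  have hTgt : Tgt C S (cj Ψ g₀) := by
    refine ⟨hmem, ?_, fun h hh => hFil h (hT'.T_le h hh), ?_, ?_⟩
    · intro u hu
      refine C.mem_U_of_unipotent _ (hmem u) (hFil u (C.Fil_U_zero _ (hT'.U_le u hu))) ?_
      rw [← C.nilpotent_map_iff (algebraMap K L) hinj]
      have e : ((cj Ψ g₀ u : Matrix C.Idx C.Idx K) - 1).map (algebraMap K L) =
          (C.mp (algebraMap K L) (cj Ψ g₀ u) : Matrix C.Idx C.Idx L) - 1 := by
        rw [Matrix.map_sub _ (fun a b => _root_.map_sub _ a b), Matrix.map_one _ (_root_.map_zero _) (_root_.map_one _), C.mp_val]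
      rw [e]
      exact AS1_U_nil C _ (hxic u hu).1
    · intro j
      obtain ⟨J, x, hx, h⟩ := hT'.nonvan j
      exact ⟨J, x, hx, hxine x (S.X_le J hx) j h⟩
    · intro J
      obtain ⟨j, x, hx, h⟩ := hT'.occ J
      exact ⟨j, x, hx, hxine x (S.X_le J hx) j h⟩
  obtain ⟨fib₀, hf₀⟩ := exists_fib C S (cj Ψ g₀) hTgt
  obtain ⟨t₀, ht₀, hreg₀⟩ := exists_regular' C S (cj Ψ g₀) hTgt fib₀ hf₀
  obtain ⟨w, hw, hwT⟩ := conj_torus' C S (cj Ψ g₀) hTgt t₀ ht₀ hreg₀
  obtain ⟨h1, _, _, h4⟩ := Tgt_conj C S (cj Ψ g₀) hTgt w hw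
  have e : cj (cj Ψ g₀) w = cj Ψ (g₀ * w) := by
    ext1 x
    rw [cj_apply, cj_apply, cj_apply]
    group
  rw [e] at h1 h4
  refine ⟨g₀ * w, mul_mem hg₀ (AS1_U_Gad C w hw), h1, ?_, fib₀, h4 fib₀ hf₀⟩
  intro x hx
  rw [← e, cj_apply]
  exact hwT x hx

/-- uniqueness of the chamber -/
theorem unique_of_Tgt {ι : Type} {E : Type*} [Group E] {k : Type*} [Field k] (S : Src ι E k)
    {K : Type*} [Field K] (Ψ : E →* GL C.Idx K) (h : Tgt C S Ψ) (y : GL C.Idx K)
    (hy : y ∈ C.Gad K) (h1 : ∀ u ∈ S.U, C.Fil 0 ((y⁻¹ * Ψ u * y : GL C.Idx K) :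
      Matrix C.Idx C.Idx K)) : C.Fil 0 (y : Matrix C.Idx C.Idx K) := by
  refine upper_of_fix C (Ψ '' (S.U : Set E)) ?_ ?_ y hy ?_
  · rintro _ ⟨u, hu, rfl⟩
    exact h.U_le u hu
  · intro j
    obtain ⟨J, x, hx, h0⟩ := h.nonvan j
    exact ⟨_, ⟨x, S.X_le J hx, rfl⟩, h0⟩
  · rintro _ ⟨u, hu, rfl⟩
    exact h1 u hu

/-- uniqueness of the chamber with torus: the torus of the source determines the apartment -/
theorem torus_of_Tgt {ι : Type} {E : Type*} [Group E] {k : Type*} [Field k] (S : Src ι E k)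
    {K : Type*} [Field K] (Ψ : E →* GL C.Idx K) (h : Tgt C S Ψ)
    (hT : ∀ x ∈ S.T, Ψ x ∈ (C.adS K).T) (fib : Fin n → ι) (hf : Fib C S Ψ fib) (y : GL C.Idx K)
    (hy : y ∈ C.Gad K) (h1 : ∀ u ∈ S.U, C.Fil 0 ((y⁻¹ * Ψ u * y : GL C.Idx K) :
      Matrix C.Idx C.Idx K)) (h2 : ∀ x ∈ S.T, y⁻¹ * Ψ x * y ∈ (C.adS K).T) :
    y ∈ (C.adS K).T := by
  have hy0 := unique_of_Tgt C S Ψ h y hy h1
  obtain ⟨t, ht, hreg⟩ := exists_regular' C S Ψ h fib hf
  have e : y⁻¹ * Ψ t * y = Ψ t := by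
    refine C.T_ext _ _ (h2 t ht) (hT t ht) fun j => ?_
    exact C.P3b_chi_conj (Ψ t) y (h.mem t) (h.T_le t ht) hy hy0 (C.simple j)
  refine C.centralizer_B (Ψ t) y (hT t ht) hy hy0 (fun γ _ => hreg γ) ?_
  have e2 : y * (y⁻¹ * Ψ t * y) = y * Ψ t := by rw [e]
  rw [← e2]
  group

end Pool.Agent.H86.UM
end

section
/- module Pool.Agent.H86.UM.EX1 -/
/-!
# Project UM, module EX1: the chamber over `K` and `σ'`

`sigma_stage`: let `y = g₀⁻¹ σ'(g₀)`. For `u ∈ S.U`: `y⁻¹ (cj Ψ g₀ u) y = σ'(g₀)⁻¹ Ψ(u) σ'(g₀) =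
σ'(g₀⁻¹ Ψ(u) g₀)` is in `U(K)` (`hσ`, `isSig_adS`, `IsSig.map_U`), similarly for `T` (`IsSig.map_T`), so by
`torus_of_Tgt` `y ∈ T(K)`. `sigma_chamber` (D8; `sgl_Gad`) gives `g₁ ∈ Eg` with `g₁⁻¹ g₀` in `Fil 0`, so
`g₀ = g₁ * u * τ` with `u ∈ U(K)`, `τ ∈ T(K)` (`upper` gives `τ u`; move `τ` to the right with
`T_conj_U`). Put `g = g₁ * u = g₀ τ⁻¹`. `σ'(g₀) = g₀ y` gives `u⁻¹ σ'(u) = τ y σ'(τ)⁻¹ ∈ T ∩ U = 1`
(`S9_T_one`), so `u ∈ fixU ≤ Eg`, `g ∈ Eg`. `cj Ψ g x = τ (cj Ψ g₀ x) τ⁻¹`: conjugation by `τ ∈ T(K)`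
preserves `Tgt`, `Fib` and `T` (`T_conj_U`, `T_comm`, `xi_conj`, `Fil_mul`, `Fil_T`; `chi` of elements of
`T` does not change). The last statement: `σ'(g) = g` (`Eg_le_fix`). `fib (ρ j) = fib j`: `xi_sgl` gives
`xi (ρ j) M = θ' (xi j M)` for `M = cj Ψ g x`; use `Fib.ne`, `Fib.zero`.
-/

set_option autoImplicit false
open Matrix

namespace Pool.Agent.H86.UM

open Pool.Agent.H75.UL

variable {n : ℕ} (C : SLC n)

theorem sigma_stage (D : Dg C) {ι : Type} {E : Type*} [Group E] {k : Type*} [Field k]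
    (S : Src ι E k) {K : Type*} [Field K] (θ' : K ≃+* K) (hθ : ∀ t, (⇑θ')^[D.m] t = t)
    (hA : D.NA ∨ ∃ e, e ≠ 0 ∧ θ' e = -e) (Ψ : E →* GL C.Idx K) (hΨ : ∀ x, Ψ x ∈ C.Gad K)
    (hσ : ∀ x, D.sgl θ' (Ψ x) = Ψ x) (g₀ : GL C.Idx K) (hg₀ : g₀ ∈ C.Gad K)
    (hT : Tgt C S (cj Ψ g₀)) (hTT : ∀ h ∈ S.T, cj Ψ g₀ h ∈ (C.adS K).T) (fib : Fin n → ι)
    (hf : Fib C S (cj Ψ g₀) fib) :
    ∃ g ∈ Eg (C.adS K) (D.sgl θ'), Tgt C S (cj Ψ g) ∧ (∀ h ∈ S.T, cj Ψ g h ∈ (C.adS K).T) ∧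
      Fib C S (cj Ψ g) fib ∧ (∀ j, fib (D.ρ j) = fib j) ∧
      ∀ x, D.sgl θ' (cj Ψ g x) = cj Ψ g x := by
  have hsig : IsSig D θ' (C.adS K) (D.sgl θ') := isSig_adS D θ'
  have hUG : ∀ x, x ∈ (C.adS K).U 1 → x ∈ C.Gad K := by
    intro x hx
    rw [← C.gen_adS]
    exact (C.adS K).U_le_gen 1 hx
  have hTG : ∀ x, x ∈ (C.adS K).T → x ∈ C.Gad K := by
    intro x hx
    rw [← C.gen_adS]
    exact (C.adS K).T_le_gen hx
  obtain ⟨y, hy⟩ : ∃ y : GL C.Idx K, y = g₀⁻¹ * D.sgl θ' g₀ := ⟨_, rfl⟩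
  have hyG : y ∈ C.Gad K := by
    rw [hy]
    exact mul_mem (inv_mem hg₀) (sgl_Gad D θ' g₀ hg₀)
  have hconj : ∀ x, y⁻¹ * cj Ψ g₀ x * y = D.sgl θ' (cj Ψ g₀ x) := by
    intro x
    rw [cj_apply, map_mul, map_mul, map_inv, hσ, hy]
    group
  have hyT : y ∈ (C.adS K).T := by
    refine torus_of_Tgt C S (cj Ψ g₀) hT hTT fib hf y hyG ?_ ?_
    · intro u hu
      rw [hconj]
      exact C.Fil_U_zero _ (hsig.map_U 1 _ (hT.U_le u hu))
    · intro x hx
      rw [hconj]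
      exact hsig.map_T _ (hTT x hx)
  obtain ⟨g₁, hg₁, hb0⟩ := sigma_chamber D θ' hθ hA g₀ hg₀ (by
    rw [← hy]
    exact C.Fil_T y hyT)
  have hg₁G : g₁ ∈ C.Gad K := by
    rw [← C.gen_adS]
    exact Eg_le_gen _ _ hg₁
  obtain ⟨τ, hτ, u₀, hu₀, hb⟩ := C.upper (g₁⁻¹ * g₀) (mul_mem (inv_mem hg₁G) hg₀) hb0
  obtain ⟨u, hu⟩ : ∃ u : GL C.Idx K, u = τ * u₀ * τ⁻¹ := ⟨_, rfl⟩
  have huU : u ∈ (C.adS K).U 1 := by
    rw [hu]
    exact (C.adS K).T_conj_U 1 τ u₀ hτ hu₀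
  have hg₀' : g₀ = g₁ * u * τ := by
    have h1 : g₀ = g₁ * (g₁⁻¹ * g₀) := by group
    rw [h1, hb, hu]
    group
  have hg₁s : D.sgl θ' g₁ = g₁ := Eg_le_fix _ _ g₁ hg₁
  have hus : D.sgl θ' u = u := by
    have h1 : D.sgl θ' g₀ = g₀ * y := by
      rw [hy]
      group
    rw [hg₀', map_mul, map_mul, hg₁s] at h1
    have h2 : u⁻¹ * D.sgl θ' u = τ * y * (D.sgl θ' τ)⁻¹ := by
      have h3 : u⁻¹ * D.sgl θ' u =
          u⁻¹ * g₁⁻¹ * (g₁ * D.sgl θ' u * D.sgl θ' τ) * (D.sgl θ' τ)⁻¹ := by group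
      rw [h3, h1]
      group
    have h4 : u⁻¹ * D.sgl θ' u ∈ (C.adS K).T := by
      rw [h2]
      exact mul_mem (mul_mem hτ hyT) (inv_mem (hsig.map_T τ hτ))
    have h5 : u⁻¹ * D.sgl θ' u ∈ (C.adS K).U 1 :=
      mul_mem (inv_mem huU) (hsig.map_U 1 u huU)
    have h6 := C.S9_T_one _ h4 h5
    exact (inv_mul_eq_one.1 h6).symm
  obtain ⟨g, hg⟩ : ∃ g : GL C.Idx K, g = g₁ * u := ⟨_, rfl⟩
  have hgE : g ∈ Eg (C.adS K) (D.sgl θ') := by
    rw [hg]
    exact mul_mem hg₁ (Subgroup.mem_sup_left ⟨huU, hus⟩)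
  have hgG : g ∈ C.Gad K := by
    rw [hg]
    exact mul_mem hg₁G (hUG u huU)
  have hgs : D.sgl θ' g = g := Eg_le_fix _ _ g hgE
  have hcj : ∀ x, cj Ψ g x = τ * cj Ψ g₀ x * τ⁻¹ := by
    intro x
    rw [cj_apply, cj_apply, hg₀', hg]
    group
  have hcjT : ∀ x ∈ S.T, cj Ψ g x = cj Ψ g₀ x := by
    intro x hx
    rw [hcj, (C.adS K).T_comm τ _ hτ (hTT x hx)]
    group
  have hτG := hTG τ hτ
  have hτ0 := C.Fil_T τ hτ
  have hxi : ∀ x ∈ S.U, ∀ j, C.xi j (cj Ψ g x : Matrix C.Idx C.Idx K) =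
      C.chi (τ : Matrix C.Idx C.Idx K) (C.simple j) *
        C.xi j (cj Ψ g₀ x : Matrix C.Idx C.Idx K) := by
    intro x hx j
    rw [hcj]
    exact (C.xi_conj τ (cj Ψ g₀ x) hτG hτ0 (hT.U_le x hx) j).2
  have hxine : ∀ x ∈ S.U, ∀ j, C.xi j (cj Ψ g₀ x : Matrix C.Idx C.Idx K) ≠ 0 →
      C.xi j (cj Ψ g x : Matrix C.Idx C.Idx K) ≠ 0 := by
    intro x hx j h
    rw [hxi x hx j]
    exact mul_ne_zero (C.chi_ne_zero τ hτG hτ0 _) h
  have hcjs : ∀ x, D.sgl θ' (cj Ψ g x) = cj Ψ g x := by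
    intro x
    rw [cj_apply, map_mul, map_mul, map_inv, hσ, hgs]
  have hF : Fib C S (cj Ψ g) fib := by
    refine ⟨hf.surj, ?_, ?_, ?_, ?_⟩
    · intro j
      obtain ⟨x, hx, h⟩ := hf.ne j
      exact ⟨x, hx, hxine x (S.X_le _ hx) j h⟩
    · intro j J hJ x hx
      rw [hxi x (S.X_le _ hx) j, hf.zero j J hJ x hx, mul_zero]
    · intro j h hh ha
      rw [hcjT h hh]
      exact hf.chi_one j h hh ha
    · intro j
      obtain ⟨Φ, h1, h2, h3, h4⟩ := hf.poly j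
      refine ⟨Φ, h1, h2, ?_, h4⟩
      intro h hh s hs ha
      rw [hcjT h hh]
      exact h3 h hh s hs ha
  refine ⟨g, hgE, ⟨?_, ?_, ?_, ?_, ?_⟩, ?_, hF, ?_, hcjs⟩
  · intro x
    rw [cj_apply]
    exact mul_mem (mul_mem (inv_mem hgG) (hΨ x)) hgG
  · intro x hx
    rw [hcj]
    exact (C.adS K).T_conj_U 1 τ _ hτ (hT.U_le x hx)
  · intro x hx
    rw [hcjT x hx]
    exact hT.T_le x hx
  · intro j
    obtain ⟨J, x, hx, h⟩ := hT.nonvan j
    exact ⟨J, x, hx, hxine x (S.X_le J hx) j h⟩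
  · intro J
    obtain ⟨j, x, hx, h⟩ := hT.occ J
    exact ⟨j, x, hx, hxine x (S.X_le J hx) j h⟩
  · intro x hx
    rw [hcjT x hx]
    exact hTT x hx
  · intro j
    obtain ⟨x, hx, h⟩ := hF.ne j
    by_contra hne
    have h1 := hF.zero (D.ρ j) (fib j) (fun h => hne h.symm) x hx
    have h2 := xi_sgl D θ' (cj Ψ g x) j
    rw [hcjs, h1] at h2
    apply h
    have h3 : θ' (C.xi j (cj Ψ g x : Matrix C.Idx C.Idx K)) = θ' 0 := by
      rw [← h2, map_zero]
    exact θ'.injective h3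

end Pool.Agent.H86.UM
end

section
/- module Pool.Agent.H86.UM.W1 -/
/-!
# Project UM, module W1: nonvanishing iterated commutators with entries in a spanning set

`vm v = ∑_j v_j E_(α_j)`. `G` is a set of vectors in `k^n` which spans `k^n`.
(1) `exists_word`: there are `v₀ ∈ G` and a list `l` of elements of `G` of length `ht θ - 1` such that the
iterated bracket `iad (vm v₀) (l.map vm)` is not `0`. Proof: by `IsHighest.chain` (see the proof of
`nonvanish` in H86/UL/P1.lean) there is a chain of simple roots with `iad (vm e_(i₀)) (l.map ..) ≠ 0`: e.g.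
from `icomm_chain` in the group and `icomm_lead`, or from `T5_map_comm_add` directly (the bracket of
`E_(α_i)` and `E_β` is `± E_(β + α_i)`), `E_θ ≠ 0` over `k`. Then replace the entries one after the other by
elements of `G`: `iad` is linear in the first argument, and `iad A (B :: l) = iad (B * A - A * B) l`, so
induct on the list for arbitrary `A`: if `iad A ((e_i :: l).map vm) ≠ 0`, the map
`v ↦ iad (vm v * A - A * vm v) l'` is linear and not zero at `e_i ∈ span G`, so it is not zero at some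
`v ∈ G` (do this for the head after the tail has been treated for all `A`: formulate the induction as:
for all `A` with `iad A (l.map vm) ≠ 0` (`l` any list of vectors) there is `l'` of the same length with
entries in `G` and `iad A (l'.map vm) ≠ 0`).
(2) `word_occ`: if `iad (vm v₀) (l.map vm) ≠ 0` and `l.length + 1 = ht θ` then each simple root `j` occurs:
some `v` in `v₀ :: l` has `v j ≠ 0`. This is `iad_eq_zero` (`xi j (vm v) = v j`, `ld (vm v) = vm v`).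
(3) `icomm_ne_one`: if `g, l` are elements of `U` with `iad (ld g) (l.map ld) ≠ 0`, `l.length + 1 = ht θ`,
then `icomm g l ≠ 1`: by `icomm_lead`, if `icomm g l = 1` then `iad ..` is `Fil (ht θ + 1)`; it is also in
the span of the `E_β` with `ht β = ht θ` (see `T5_V`, `T5_iad` for the method), i.e. of `E_θ`
(`IsHighest`), and `c • E_θ` in `Fil (ht θ + 1)` implies `c • E_θ = 0` (its nonzero entries raise the height by
exactly `ht θ`).
-/

set_option autoImplicit false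
open Matrix

namespace Pool.Agent.H86.UM

open Pool.Agent.H75.UL
open Pool.Agent.H75.UL.SLC

variable {n : ℕ} (C : SLC n)

/-- the matrix of `ad (∑ v_j e_j)` -/
def vm {k : Type*} [Field k] (v : Fin n → k) : Matrix C.Idx C.Idx k :=
  ∑ j, v j • (C.E (C.simple j)).map (Int.cast : ℤ → k)

/-! ### helper lemmas -/

private theorem W1_iad_add {ι R : Type*} [Fintype ι] [CommRing R] (l : List (Matrix ι ι R))
    (A B : Matrix ι ι R) : iad (A + B) l = iad A l + iad B l := by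
  induction l generalizing A B with
  | nil => rfl
  | cons M l ih =>
    have h1 : ∀ D : Matrix ι ι R, iad D (M :: l) = iad (M * D - D * M) l := fun D => rfl
    rw [h1, h1, h1, ← ih]
    congr 1
    rw [mul_add, add_mul]
    abel

private theorem W1_iad_smul {ι R : Type*} [Fintype ι] [CommRing R] (l : List (Matrix ι ι R))
    (c : R) (A : Matrix ι ι R) : iad (c • A) l = c • iad A l := by
  induction l generalizing A with
  | nil => rfl
  | cons M l ih =>
    have h1 : ∀ D : Matrix ι ι R, iad D (M :: l) = iad (M * D - D * M) l := fun D => rfl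
    rw [h1, h1, ← ih]
    congr 1
    rw [mul_smul_comm, smul_mul_assoc, smul_sub]

private theorem W1_iad_zero {ι R : Type*} [Fintype ι] [CommRing R] (l : List (Matrix ι ι R)) :
    iad (0 : Matrix ι ι R) l = 0 := by
  have h := W1_iad_smul l (0 : R) (0 : Matrix ι ι R)
  rwa [zero_smul, zero_smul] at h

private theorem W1_vm_add {k : Type*} [Field k] (v w : Fin n → k) :
    vm C (v + w) = vm C v + vm C w := by
  unfold vm
  rw [← Finset.sum_add_distrib]
  exact Finset.sum_congr rfl fun j _ => by rw [Pi.add_apply, add_smul]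

private theorem W1_vm_smul {k : Type*} [Field k] (c : k) (v : Fin n → k) :
    vm C (c • v) = c • vm C v := by
  unfold vm
  rw [Finset.smul_sum]
  exact Finset.sum_congr rfl fun j _ => by rw [Pi.smul_apply, smul_eq_mul, mul_smul]

private theorem W1_vm_single {k : Type*} [Field k] (i : Fin n) :
    vm C (Pi.single i (1 : k)) = (C.E (C.simple i)).map (Int.cast : ℤ → k) := by
  unfold vm
  rw [Finset.sum_eq_single i]
  · rw [Pi.single_eq_same, one_smul]
  · intro j _ hj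
    rw [Pi.single_eq_of_ne hj, zero_smul]
  · intro h
    exact absurd (Finset.mem_univ i) h

/-- a linear function which is not zero is not zero on a spanning set -/
private theorem W1_exists {k M : Type*} [Field k] [AddCommGroup M] [Module k M]
    (f : (Fin n → k) → M) (hadd : ∀ v w, f (v + w) = f v + f w)
    (hsmul : ∀ (c : k) v, f (c • v) = c • f v)
    (G : Set (Fin n → k)) (hG : Submodule.span k G = ⊤) (v : Fin n → k) (hv : f v ≠ 0) :
    ∃ w ∈ G, f w ≠ 0 := by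
  by_contra hcon
  push Not at hcon
  apply hv
  have h1 : v ∈ Submodule.span k G := by rw [hG]; exact Submodule.mem_top
  induction h1 using Submodule.span_induction with
  | mem x hx => exact hcon x hx
  | zero =>
    have h := hsmul 0 0
    rwa [zero_smul, zero_smul] at h
  | add x y _ _ hx hy =>
    rw [hadd]
    by_cases h1 : f x = 0
    · by_cases h2 : f y = 0
      · rw [h1, h2, add_zero]
      · exact absurd (hy h2) h2
    · exact absurd (hx h1) h1
  | smul c x _ hx =>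
    rw [hsmul]
    by_cases h1 : f x = 0
    · rw [h1, smul_zero]
    · exact absurd (hx h1) h1

/-- replace the entries of the list by elements of a spanning set -/
private theorem W1_replace {k : Type*} [Field k] (G : Set (Fin n → k))
    (hG : Submodule.span k G = ⊤) (l : List (Fin n → k)) (A : Matrix C.Idx C.Idx k)
    (h : iad A (l.map (vm C)) ≠ 0) :
    ∃ l' : List (Fin n → k), (∀ v ∈ l', v ∈ G) ∧ l'.length = l.length ∧
      iad A (l'.map (vm C)) ≠ 0 := by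
  induction l generalizing A with
  | nil => exact ⟨[], by simp, rfl, h⟩
  | cons v l ih =>
    obtain ⟨l', hl', hlen, hne⟩ := ih (vm C v * A - A * vm C v) h
    obtain ⟨w, hw, hwne⟩ := W1_exists
      (fun w => iad (vm C w * A - A * vm C w) (l'.map (vm C)))
      (by
        intro x y
        rw [← W1_iad_add, W1_vm_add]
        congr 1
        rw [mul_add, add_mul]
        abel)
      (by
        intro c x
        rw [← W1_iad_smul, W1_vm_smul]
        congr 1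
        rw [mul_smul_comm, smul_mul_assoc, smul_sub])
      G hG v hne
    refine ⟨w :: l', ?_, by rw [List.length_cons, List.length_cons, hlen], hwne⟩
    intro x hx
    rcases List.mem_cons.1 hx with rfl | hx
    · exact hw
    · exact hl' x hx

private theorem W1_chain {k : Type*} [Field k] {β δ : C.Root} {l : List (Fin n)}
    (hc : C.Chain β l δ) : ∃ e : k, e ≠ 0 ∧
      iad ((C.E β).map (Int.cast : ℤ → k)) ((l.map fun i => Pi.single i (1 : k)).map (vm C)) =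
        e • (C.E δ).map (Int.cast : ℤ → k) := by
  induction hc with
  | nil β => exact ⟨1, one_ne_zero, by rw [one_smul]; rfl⟩
  | @cons i β γ δ l h _ ih =>
    obtain ⟨e, he, hs⟩ := ih
    refine ⟨(C.eps (C.simple i).1 β.1 : k) * e, ?_, ?_⟩
    · apply mul_ne_zero _ he
      rcases C.eps_eq_one_or (C.simple i).1 β.1 with h1 | h1 <;> rw [h1] <;> simp
    · have h1 : iad ((C.E β).map (Int.cast : ℤ → k))
          (((i :: l).map fun i => Pi.single i (1 : k)).map (vm C)) =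
          iad (vm C (Pi.single i (1 : k)) * (C.E β).map (Int.cast : ℤ → k) -
            (C.E β).map (Int.cast : ℤ → k) * vm C (Pi.single i (1 : k)))
            ((l.map fun i => Pi.single i (1 : k)).map (vm C)) := rfl
      rw [h1, W1_vm_single, C.T5_map_comm_add (C.simple i) β γ h, W1_iad_smul, hs, smul_smul]

private theorem W1_E_ne_zero {k : Type*} [Field k] (α : C.Root) :
    (C.E α).map (Int.cast : ℤ → k) ≠ 0 := by
  intro h
  have hent : ∀ a b, ((C.E α a b : ℤ) : k) = 0 := by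
    intro a b
    have h1 := congrFun (congrFun h a) b
    rwa [Matrix.map_apply, Matrix.zero_apply] at h1
  obtain ⟨i, hi⟩ : ∃ i, C.ip (C.simple i).1 α.1 ≠ 0 := by
    by_contra hcon
    push Not at hcon
    have h2 := C.sum_ip_single α.1 α.1
    rw [α.2, Finset.sum_eq_zero] at h2
    · omega
    · intro i _
      have h3 := hcon i
      rw [simple_val] at h3
      rw [h3, mul_zero]
  have h1 := hent (Sum.inr α) (Sum.inl i)
  have h2 : C.E α (Sum.inr α) (Sum.inl i) = - C.ip (C.simple i).1 α.1 := by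
    simp [E]
  rw [h2] at h1
  rcases C.ip_cases (C.simple i) α with h3 | h3 | h3 | h3 | h3
  · have h4 := (C.ip_eq_neg_two_iff _ _).1 h3
    have h5 := hent (Sum.inl i) (Sum.inr (-α))
    have h6 : C.E α (Sum.inl i) (Sum.inr (-α)) = - α.1 i := by
      simp [E]
    rw [h6, h4, Root.neg_val, simple_val, Pi.neg_apply, Pi.single_eq_same] at h5
    simp at h5
  · rw [h3] at h1
    simp at h1
  · exact hi h3
  · rw [h3] at h1
    simp at h1
  · have h4 := (C.ip_eq_two_iff _ _).1 h3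
    have h5 := hent (Sum.inl i) (Sum.inr (-α))
    have h6 : C.E α (Sum.inl i) (Sum.inr (-α)) = - α.1 i := by
      simp [E]
    rw [h6, ← h4, simple_val, Pi.single_eq_same] at h5
    simp at h5

private theorem W1_xi_vm {k : Type*} [Field k] (j : Fin n) (v : Fin n → k) :
    C.xi j (vm C v) = v j := by
  unfold xi vm
  rw [Matrix.sum_apply, Finset.sum_eq_single j]
  · rw [Matrix.smul_apply, Matrix.map_apply]
    simp [E]
  · intro i _ hij
    rw [Matrix.smul_apply, Matrix.map_apply]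
    have h1 : C.E (C.simple i) (Sum.inl j) (Sum.inr (-(C.simple j))) = 0 := by
      simp only [E, Root.neg_val, neg_inj]
      rw [if_neg]
      intro h
      exact hij (C.simple_injective (Root.ext h.symm))
    rw [h1, Int.cast_zero, smul_zero]
  · intro h
    exact absurd (Finset.mem_univ j) h

private theorem W1_ld_vm {k : Type*} [Field k] (v : Fin n → k) :
    C.ld (vm C v) = vm C v := by
  unfold ld
  simp only [W1_xi_vm]
  rfl

/-- homogeneous matrices -/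
private def W1_Hom {R : Type*} [CommRing R] (m : ℤ) (M : Matrix C.Idx C.Idx R) : Prop :=
  ∀ a b, C.hti a ≠ C.hti b + m → M a b = 0

private theorem W1_Hom_mul {R : Type*} [CommRing R] {m k : ℤ} {M N : Matrix C.Idx C.Idx R}
    (hM : W1_Hom C m M) (hN : W1_Hom C k N) : W1_Hom C (m + k) (M * N) := by
  intro a b hab
  rw [Matrix.mul_apply]
  refine Finset.sum_eq_zero fun c _ => ?_
  by_cases h : C.hti a = C.hti c + m
  · rw [hN c b (by omega), mul_zero]
  · rw [hM a c h, zero_mul]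

private theorem W1_Hom_sub {R : Type*} [CommRing R] {m : ℤ} {M N : Matrix C.Idx C.Idx R}
    (hM : W1_Hom C m M) (hN : W1_Hom C m N) : W1_Hom C m (M - N) := by
  intro a b hab
  rw [Matrix.sub_apply, hM a b hab, hN a b hab, sub_zero]

private theorem W1_Hom_E (R : Type*) [CommRing R] (α : C.Root) :
    W1_Hom C (ht α.1) ((C.E α).map (Int.cast : ℤ → R)) := by
  intro a b hab
  rw [Matrix.map_apply]
  have h : C.E α a b = 0 := by
    rcases a with i | γ <;> rcases b with j | β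
    · rfl
    · simp only [E]
      rw [if_neg]
      intro h
      simp only [hti, Sum.elim_inl, Sum.elim_inr] at hab
      rw [h, ht_neg] at hab
      omega
    · simp only [E]
      rw [if_neg]
      intro h
      simp only [hti, Sum.elim_inl, Sum.elim_inr] at hab
      rw [h] at hab
      omega
    · simp only [E]
      rw [if_neg]
      intro h
      simp only [hti, Sum.elim_inr] at hab
      rw [h, ht_add] at hab
      omega
  rw [h, Int.cast_zero]

private theorem W1_Hom_ld {K : Type*} [Field K] (M : Matrix C.Idx C.Idx K) :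
    W1_Hom C 1 (C.ld M) := by
  intro a b hab
  unfold ld
  rw [Matrix.sum_apply]
  refine Finset.sum_eq_zero fun j _ => ?_
  have h1 := W1_Hom_E C K (C.simple j)
  rw [C.ht_simple] at h1
  rw [Matrix.smul_apply, h1 a b hab, smul_zero]

private theorem W1_Hom_iad {K : Type*} [Field K] (l : List (Matrix C.Idx C.Idx K))
    (hl : ∀ B ∈ l, W1_Hom C 1 B) (m : ℤ) (A : Matrix C.Idx C.Idx K) (hA : W1_Hom C m A) :
    W1_Hom C (m + l.length) (iad A l) := by
  induction l generalizing m A with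
  | nil => simpa [iad] using hA
  | cons B l ih =>
    have hB := hl B List.mem_cons_self
    have h1 : W1_Hom C (m + 1) (B * A - A * B) := by
      refine W1_Hom_sub C ?_ (W1_Hom_mul C hA hB)
      have h2 := W1_Hom_mul C hB hA
      rwa [add_comm 1 m] at h2
    have h2 := ih (fun B' hB' => hl B' (List.mem_cons_of_mem _ hB')) (m + 1) _ h1
    have e : iad A (B :: l) = iad (B * A - A * B) l := rfl
    have e2 : m + (((B :: l).length : ℕ) : ℤ) = m + 1 + (l.length : ℤ) := by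
      rw [List.length_cons]
      push_cast
      ring
    rw [e, e2]
    exact h2

private theorem W1_eq_zero {R : Type*} [CommRing R] {m : ℤ} {M : Matrix C.Idx C.Idx R}
    (hM : W1_Hom C m M) (hF : C.Fil (m + 1) M) : M = 0 := by
  ext a b
  rw [Matrix.zero_apply]
  by_cases h : C.hti a = C.hti b + m
  · exact hF a b (by omega)
  · exact hM a b h

theorem exists_word {k : Type*} [Field k] (θ : C.Root) (hθ : C.IsHighest θ) (hn : 0 < n)
    (G : Set (Fin n → k)) (hG : Submodule.span k G = ⊤) :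
    ∃ v₀ ∈ G, ∃ l : List (Fin n → k), (∀ v ∈ l, v ∈ G) ∧ (l.length : ℤ) + 1 = ht θ.1 ∧
      iad (vm C v₀) (l.map (vm C)) ≠ 0 := by
  obtain ⟨l, hc⟩ := hθ.chain (C.simple ⟨0, hn⟩) (C.simple_pos ⟨0, hn⟩)
  have hlen := hc.ht_eq
  rw [C.ht_simple] at hlen
  obtain ⟨e, he, heq⟩ := W1_chain (k := k) C hc
  have h1 : iad ((C.E (C.simple ⟨0, hn⟩)).map (Int.cast : ℤ → k))
      ((l.map fun i => Pi.single i (1 : k)).map (vm C)) ≠ 0 := by
    rw [heq]
    exact smul_ne_zero he (W1_E_ne_zero C θ)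
  obtain ⟨l', hl', hlen', hne⟩ := W1_replace C G hG _ _ h1
  rw [← W1_vm_single] at hne
  obtain ⟨v₀, hv₀, hne'⟩ := W1_exists (fun w => iad (vm C w) (l'.map (vm C)))
    (by intro x y; rw [← W1_iad_add, W1_vm_add])
    (by intro c x; rw [← W1_iad_smul, W1_vm_smul]) G hG _ hne
  refine ⟨v₀, hv₀, l', hl', ?_, hne'⟩
  rw [hlen', List.length_map, hlen]
  ring

theorem word_occ {k : Type*} [Field k] (θ : C.Root) (hθ : C.IsHighest θ)
    (v₀ : Fin n → k) (l : List (Fin n → k)) (hlen : (l.length : ℤ) + 1 = ht θ.1)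
    (h : iad (vm C v₀) (l.map (vm C)) ≠ 0) (j : Fin n) : ∃ v ∈ v₀ :: l, v j ≠ 0 := by
  by_contra hcon
  push Not at hcon
  apply h
  have h1 := C.iad_eq_zero θ hθ j (vm C v₀) (l.map (vm C))
    (by rw [W1_xi_vm]; exact hcon v₀ List.mem_cons_self)
    (by
      intro B hB
      obtain ⟨v, hv, rfl⟩ := List.mem_map.1 hB
      rw [W1_xi_vm]
      exact hcon v (List.mem_cons_of_mem _ hv))
    (by rw [List.length_map]; exact hlen)
  rw [W1_ld_vm, List.map_map] at h1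
  have h2 : (C.ld ∘ vm C : (Fin n → k) → Matrix C.Idx C.Idx k) = vm C := by
    funext v
    exact W1_ld_vm C v
  rwa [h2] at h1

theorem icomm_ne_one {k : Type*} [Field k] (θ : C.Root) (hθ : C.IsHighest θ)
    (g : GL C.Idx k) (l : List (GL C.Idx k)) (hg : g ∈ (C.adS k).U 1)
    (hl : ∀ h ∈ l, h ∈ (C.adS k).U 1) (hlen : (l.length : ℤ) + 1 = ht θ.1)
    (h : iad (C.ld (g : Matrix C.Idx C.Idx k))
      (l.map fun h => C.ld (h : Matrix C.Idx C.Idx k)) ≠ 0) : icomm g l ≠ 1 := by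
  intro h1
  apply h
  have hg2 : C.Fil (1 + 1) ((g : Matrix C.Idx C.Idx k) - 1 - C.ld (g : Matrix C.Idx C.Idx k)) :=
    C.lead_U g hg
  have h2 := (C.icomm_lead g l 1 le_rfl _ (C.Fil_ld _) hg2 hl).2
  rw [h1, Units.val_one, sub_self, zero_sub] at h2
  have h3 := C.Fil_neg h2
  rw [neg_neg] at h3
  have h4 := W1_Hom_iad C (l.map fun h => C.ld (h : Matrix C.Idx C.Idx k))
    (by
      intro B hB
      obtain ⟨x, _, rfl⟩ := List.mem_map.1 hB
      exact W1_Hom_ld C _) 1 (C.ld (g : Matrix C.Idx C.Idx k)) (W1_Hom_ld C _)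
  rw [List.length_map] at h4
  have h5 : ∀ l : List (GL C.Idx k),
      (l >>= fun a => pure (a : Matrix C.Idx C.Idx k)).length = l.length := by
    intro l
    simp
  rw [h5] at h4
  exact W1_eq_zero C h4 h3

end Pool.Agent.H86.UM
end

section
/- module Pool.Agent.H75.UL.C3 -/
/-!
# Project UL (MP_978914_al), module C3

The direct limit.

`Pool.Agent.H62.CA.Limit_dirlim` (Pool/Agent/H62/CA/Limit.lean; copy its proof here or import it)
gives a field `KK`, `p i : K i →+* KK` with `(p (i+1)).comp (φ i) = p i`, every element of `KK` is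
some `p i y`. `x β t := (S i).x β y` for `t = p i y`: independent of the choice (for `i ≤ j` transport
`y` to `K j`, `hcomp`; `p j` injective). The relations hold because finitely many elements of `KK`
come from a common `K i` (`y ≠ 0` when `p i y ≠ 0`; `p i` is a field homomorphism). `gen = ⊤`: every
`g ∈ H i` is a product of `(S i).x β y`. Kernel: every `y ∈ GU C KK` is `GU.map (p i) y_i` for some
`i` (closure induction with `GU.gen_eq`), then also for all `j ≥ i` with `y_j = GU.map .. y_i`;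
`lift S (GU.map (p j) y_j) = (lift (S j) y_j : G)` (`hom_ext`). If it is `1` then `y_j` is central in
`GU C (K j)` for all `j ≥ i`; any `z ∈ GU C KK` comes from some `z_j`, `j ≥ i`, so `y z = z y`.
-/

set_option autoImplicit false
open Matrix
universe u
namespace Pool.Agent.H75.UL

variable {n : ℕ} {C : SLC n}

/-- the transition maps -/
private noncomputable def C3_f (K : ℕ → Type u) [∀ i, Field (K i)] (σ : ∀ i, K i →+* K (i + 1))
    (i j : ℕ) (h : i ≤ j) : K i →+* K j :=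
  Nat.leRecOn (C := fun k => K i →+* K k) h (fun {k} g => (σ k).comp g) (RingHom.id _)

private theorem C3_f_self (K : ℕ → Type u) [∀ i, Field (K i)] (σ : ∀ i, K i →+* K (i + 1))
    (i : ℕ) (h : i ≤ i) : C3_f K σ i i h = RingHom.id _ := by
  unfold C3_f
  exact Nat.leRecOn_self _

private theorem C3_f_succ (K : ℕ → Type u) [∀ i, Field (K i)] (σ : ∀ i, K i →+* K (i + 1))
    (i j : ℕ) (h : i ≤ j) (h' : i ≤ j + 1) :
    C3_f K σ i (j + 1) h' = (σ j).comp (C3_f K σ i j h) := by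
  unfold C3_f
  exact Nat.leRecOn_succ h _

private theorem C3_f_comp (K : ℕ → Type u) [∀ i, Field (K i)] (σ : ∀ i, K i →+* K (i + 1))
    (i j k : ℕ) (hij : i ≤ j) (hjk : j ≤ k) (hik : i ≤ k) (x : K i) :
    C3_f K σ j k hjk (C3_f K σ i j hij x) = C3_f K σ i k hik x := by
  induction k, hjk using Nat.le_induction with
  | base => rw [C3_f_self]; rfl
  | succ k hk ih =>
    rw [C3_f_succ K σ j k hk, C3_f_succ K σ i k (hij.trans hk)]
    rw [RingHom.comp_apply, RingHom.comp_apply, ih (hij.trans hk)]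

private theorem C3_dirlim (K : ℕ → Type u) [∀ i, Field (K i)] (σ : ∀ i, K i →+* K (i + 1)) :
    ∃ (KK : Type u) (_ : Field KK) (p : ∀ i, K i →+* KK),
      (∀ i, (p (i + 1)).comp (σ i) = p i) ∧ ∀ x, ∃ i y, p i y = x := by
  have hds : DirectedSystem K (fun i j h => C3_f K σ i j h) :=
    { map_self := fun i x => by rw [C3_f_self]; rfl
      map_map := fun i j k hij hjk x => C3_f_comp K σ _ _ _ hij hjk _ x }
  refine ⟨Ring.DirectLimit K (fun i j h => C3_f K σ i j h),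
    Field.DirectLimit.field K (fun i j h => C3_f K σ i j h),
    fun i => Ring.DirectLimit.of K (fun i j h => C3_f K σ i j h) i, ?_, ?_⟩
  · intro i
    ext x
    have h1 := Ring.DirectLimit.of_f (G := K) (f := fun i j h => C3_f K σ i j h)
      (Nat.le_succ i) x
    rw [← h1]
    have h2 : C3_f K σ i (i + 1) (Nat.le_succ i) x = σ i x := by
      rw [C3_f_succ K σ i i le_rfl, C3_f_self]
      rfl
    change Ring.DirectLimit.of K (fun i j h => C3_f K σ i j h) (i + 1) (σ i x) =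
      Ring.DirectLimit.of K (fun i j h => C3_f K σ i j h) (i + 1)
        (C3_f K σ i (i + 1) (Nat.le_succ i) x)
    rw [h2]
  · intro x
    exact Ring.DirectLimit.exists_of x

private theorem C3_map_eq_inv {K K' : Type u} [Field K] [Field K'] (p : K →+* K') (t : K) :
    (p t)⁻¹ = p t⁻¹ := (map_inv₀ p t).symm

theorem limit {G : Type u} [Group G] (H : ℕ → Subgroup G) (hH : ∀ i, H i ≤ H (i + 1))
    (hG : ∀ g : G, ∃ i, g ∈ H i) (K : ℕ → Type u) [∀ i, Field (K i)]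
    (S : ∀ i, StSys C (K i) (H i)) (hS : ∀ i, Good (S i)) (φ : ∀ i, K i →+* K (i + 1))
    (hcomp : ∀ i β t, Subgroup.inclusion (hH i) ((S i).x β t) = (S (i + 1)).x β (φ i t)) :
    IsChev C G := by
  obtain ⟨KK, hKK, p, hp, hps⟩ := C3_dirlim K φ
  have hp' : ∀ i x, p (i + 1) (φ i x) = p i x := fun i x => by
    rw [← hp i]; rfl
  have hc' : ∀ i β t, (((S (i + 1)).x β (φ i t) : H (i + 1)) : G) = ((S i).x β t : H i) := by
    intro i β t
    rw [← hcomp i β t]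
    rfl
  -- transport of scalars
  have htr : ∀ i j (_ : i ≤ j) (y : K i), ∃ y' : K j, p j y' = p i y ∧
      ∀ β, (((S j).x β y' : H j) : G) = ((S i).x β y : H i) := by
    intro i j hij y
    induction j, hij using Nat.le_induction with
    | base => exact ⟨y, rfl, fun _ => rfl⟩
    | succ j _ ih =>
      obtain ⟨y', h1, h2⟩ := ih
      exact ⟨φ j y', (hp' j y').trans h1, fun β => (hc' j β y').trans (h2 β)⟩
  have hwd : ∀ i j (y : K i) (y' : K j), p i y = p j y' → ∀ β,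
      (((S i).x β y : H i) : G) = ((S j).x β y' : H j) := by
    intro i j y y' h β
    obtain ⟨y1, h1, h2⟩ := htr i (max i j) (le_max_left _ _) y
    obtain ⟨y2, h3, h4⟩ := htr j (max i j) (le_max_right _ _) y'
    have h5 : y1 = y2 := (p (max i j)).injective (by rw [h1, h3, h])
    rw [← h2 β, ← h4 β, h5]
  choose ii yy hyy using hps
  -- the root elements
  set x : C.Root → KK → G := fun β t => (((S (ii t)).x β (yy t) : H (ii t)) : G) with hx
  have hxp : ∀ i (y : K i) β, x β (p i y) = (((S i).x β y : H i) : G) := fun i y β =>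
    hwd _ _ _ _ (hyy (p i y)) β
  have hcom : ∀ s t : KK, ∃ k, ∃ s' t' : K k, p k s' = s ∧ p k t' = t := by
    intro s t
    obtain ⟨s', h1, -⟩ := htr (ii s) (max (ii s) (ii t)) (le_max_left _ _) (yy s)
    obtain ⟨t', h2, -⟩ := htr (ii t) (max (ii s) (ii t)) (le_max_right _ _) (yy t)
    exact ⟨_, s', t', h1.trans (hyy s), h2.trans (hyy t)⟩
  have hnn : ∀ k (t : K k) α, nn x α (p k t) = ((nn (S k).x α t : H k) : G) := by
    intro k t α
    unfold nn
    rw [C3_map_eq_inv, hxp, hxp]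
    rfl
  have hhh : ∀ k (t : K k) α, hh x α (p k t) = ((hh (S k).x α t : H k) : G) := by
    intro k t α
    have h1 : (-1 : KK) = p k (-1) := by rw [map_neg, map_one]
    unfold hh
    rw [h1, hnn, hnn]
    rfl
  let SS : StSys C KK G :=
    { x := x
      map_add := by
        intro β s t
        obtain ⟨k, s', t', rfl, rfl⟩ := hcom s t
        rw [← map_add, hxp, hxp, hxp, (S k).map_add]
        rfl
      comm := by
        intro α β s t h
        obtain ⟨k, s', t', rfl, rfl⟩ := hcom s t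
        rw [hxp, hxp]
        exact congrArg Subtype.val ((S k).comm α β s' t' h)
      comm_add := by
        intro α β γ s t h
        obtain ⟨k, s', t', rfl, rfl⟩ := hcom s t
        have h1 : (C.eps α.1 β.1 : KK) * p k s' * p k t' = p k ((C.eps α.1 β.1 : K k) * s' * t') := by
          rw [map_mul, map_mul, map_intCast]
        rw [h1, hxp, hxp, hxp]
        exact congrArg Subtype.val ((S k).comm_add α β γ s' t' h)
      n_conj := by
        intro α t u ht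
        obtain ⟨k, t', u', rfl, rfl⟩ := hcom t u
        have ht' : t' ≠ 0 := fun h => ht (by rw [h, map_zero])
        have h1 : (p k t')⁻¹ ^ 2 * p k u' = p k (t'⁻¹ ^ 2 * u') := by
          rw [map_mul, map_pow, map_inv₀]
        rw [h1, hnn, hxp, hxp]
        exact congrArg Subtype.val ((S k).n_conj α t' u' ht')
      h_mul := by
        intro α s t hs ht
        obtain ⟨k, s', t', rfl, rfl⟩ := hcom s t
        have hs' : s' ≠ 0 := fun h => hs (by rw [h, map_zero])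
        have ht' : t' ≠ 0 := fun h => ht (by rw [h, map_zero])
        rw [← map_mul, hhh, hhh, hhh]
        exact congrArg Subtype.val ((S k).h_mul α s' t' hs' ht') }
  have hSSx : ∀ β t, SS.x β t = x β t := fun _ _ => rfl
  -- the maps between the universal groups
  have hmapσ : ∀ i (y : GU C (K i)), GU.map (p (i + 1)) (GU.map (φ i) y) = GU.map (p i) y := by
    intro i y
    have h1 : (GU.map (C := C) (p (i + 1))).comp (GU.map (φ i)) = GU.map (p i) := by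
      apply GU.hom_ext
      intro β t
      rw [MonoidHom.comp_apply, GU.map_x, GU.map_x, GU.map_x, hp']
    rw [← h1]
    rfl
  have hGtr : ∀ i j (_ : i ≤ j) (y : GU C (K i)), ∃ y' : GU C (K j),
      GU.map (p j) y' = GU.map (p i) y := by
    intro i j hij y
    induction j, hij using Nat.le_induction with
    | base => exact ⟨y, rfl⟩
    | succ j _ ih =>
      obtain ⟨y', h1⟩ := ih
      exact ⟨GU.map (φ j) y', (hmapσ j y').trans h1⟩
  have hGsurj : ∀ y : GU C KK, ∃ i, ∃ y' : GU C (K i), GU.map (p i) y' = y := by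
    intro y
    have hy : y ∈ (GU.sys C KK).gen := by
      rw [GU.gen_eq]
      exact Subgroup.mem_top y
    unfold StSys.gen at hy
    induction hy using Subgroup.closure_induction with
    | mem y hy =>
      obtain ⟨β, t, rfl⟩ := hy
      refine ⟨ii t, GU.x C (K (ii t)) β (yy t), ?_⟩
      rw [GU.map_x, hyy]
      rfl
    | one => exact ⟨0, 1, map_one _⟩
    | mul a b _ _ ha hb =>
      obtain ⟨i, a', rfl⟩ := ha
      obtain ⟨j, b', rfl⟩ := hb
      obtain ⟨a1, h1⟩ := hGtr i (max i j) (le_max_left _ _) a'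
      obtain ⟨b1, h2⟩ := hGtr j (max i j) (le_max_right _ _) b'
      exact ⟨max i j, a1 * b1, by rw [map_mul, h1, h2]⟩
    | inv a _ ha =>
      obtain ⟨i, a', rfl⟩ := ha
      exact ⟨i, a'⁻¹, map_inv _ _⟩
  have hlift : ∀ i (y : GU C (K i)), GU.lift SS (GU.map (p i) y) = ((GU.lift (S i) y : H i) : G) := by
    intro i y
    have h1 : (GU.lift SS).comp (GU.map (p i)) = (H i).subtype.comp (GU.lift (S i)) := by
      apply GU.hom_ext
      intro β t
      rw [MonoidHom.comp_apply, MonoidHom.comp_apply, GU.map_x, GU.lift_x, GU.lift_x, hSSx, hxp]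
      rfl
    have h2 := congrArg (fun f : GU C (K i) →* G => f y) h1
    exact h2
  rw [isChev_iff]
  refine ⟨KK, hKK, SS, ?_, ?_⟩
  · rw [eq_top_iff]
    intro g _
    obtain ⟨i, hi⟩ := hG g
    have h1 : (⟨g, hi⟩ : H i) ∈ (S i).gen := by
      rw [(hS i).gen]
      exact Subgroup.mem_top _
    have h2 : ∀ h : H i, h ∈ (S i).gen → (h : G) ∈ SS.gen := by
      intro h hh'
      unfold StSys.gen at hh'
      induction hh' using Subgroup.closure_induction with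
      | mem h hh' =>
        obtain ⟨β, t, rfl⟩ := hh'
        refine Subgroup.subset_closure ⟨β, p i t, ?_⟩
        rw [hSSx, hxp]
      | one => exact one_mem _
      | mul a b _ _ ha hb => exact mul_mem ha hb
      | inv a _ ha => exact inv_mem ha
    exact h2 ⟨g, hi⟩ h1
  · intro y hy
    rw [MonoidHom.mem_ker] at hy
    rw [Subgroup.mem_center_iff]
    intro z
    obtain ⟨i, y', rfl⟩ := hGsurj y
    obtain ⟨j, z', rfl⟩ := hGsurj z
    obtain ⟨y1, h1⟩ := hGtr i (max i j) (le_max_left _ _) y'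
    obtain ⟨z1, h2⟩ := hGtr j (max i j) (le_max_right _ _) z'
    rw [← h1] at hy ⊢
    rw [← h2]
    rw [hlift] at hy
    have h3 : GU.lift (S (max i j)) y1 = 1 := Subtype.ext hy
    have h4 : y1 ∈ Subgroup.center (GU C (K (max i j))) :=
      (hS (max i j)).ker ((MonoidHom.mem_ker).2 h3)
    rw [← map_mul, ← map_mul, Subgroup.mem_center_iff.mp h4 z1]

end Pool.Agent.H75.UL
end

section
/- module Pool.Agent.H86.UL.P2 -/
/-!
# Project UL, module P2: `coords`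

Proof. `π` from `exists_perm` (P2a). `A (π i) (π j) = A i j` is `cartan_perm` (P2b).
Write `f_i(t) = ff S Ψ i (π i) t`.
(1) Let `i : Fin n`, `j ≠ i` with `A i j = -1` (`exists_adjacent`). For `s ≠ 0` the element
`h = hh S.x (simple j) s ∈ S.T` satisfies `h x_i(t) h⁻¹ = x_i(s ^ (-1) * t)` (`h_conj`, `ip_single`),
so `ff_conj` gives `f_i(s⁻¹ t) = χ(s) f_i(t)` for all `t`, with `χ(s) = chi (Ψ h) (simple (π i))`.
Some `f_i(t₀) ≠ 0` (`hπ`), `t₀ ≠ 0` (`f_i(0) = 0` by additivity); with `s⁻¹ = t₀`, `t = 1` one gets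
`f_i(1) ≠ 0`. Then `χ(s) = f_i(s⁻¹) / f_i(1)`, so `f_i(s t) f_i(1) = f_i(s) f_i(t)` for all `s, t`
(`s = 0` trivial). With `ff_add`: `φ_i(t) = f_i(t) / f_i(1)` is a ring homomorphism `k →+* F`.
(2) `φ_i = φ_j` for adjacent `i, j` by `field_adj`, hence for all `i, j` by `C.conn` (the set of `i`
with `φ_i = φ_i₀`, where `i₀ = ⟨0, _⟩`, is nonempty and closed under adjacency). `φ := φ_i₀`,
`c i := f_i(1)`.
(3) `xi` formula: `j ≠ π i`: `hπ`; `j = π i`: definition.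
(4) `chi` formula: `ff_conj` with `τ = S.tor v t` (`tor_mem`, `tor_conj`), at `1`:
`f_i(t ^ ip v e_i) = chi (Ψ τ) (simple (π i)) * f_i(1)`, and `f_i(t ^ m) = f_i(1) φ(t) ^ m` for
integers `m` (`map_zpow₀`); `ip_comm`.
-/

set_option autoImplicit false
open Matrix

namespace Pool.Agent.H75.UL
namespace SLC
variable {n : ℕ} (C : SLC n)

/-- the homomorphism of fields attached to a simple root -/
private theorem P2_mul {k : Type*} [Field k] {H : Type*} [Group H] (S : StSys C k H) {F : Type*} [Field F]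
    (Ψ : H →* GL C.Idx F) (hΨ : ∀ β t, Ψ (S.x β t) ∈ C.Gad F)
    (hU : ∀ u ∈ S.U 1, Ψ u ∈ (C.adS F).U 1)
    (hT : ∀ h ∈ S.T, C.Fil 0 (Ψ h : Matrix C.Idx C.Idx F)) (hn : 2 ≤ n) (i j : Fin n)
    (hne : ∃ t, ff S Ψ i j t ≠ 0) :
    ff S Ψ i j 0 = 0 ∧ ff S Ψ i j 1 ≠ 0 ∧
      ∀ s t, ff S Ψ i j (s * t) * ff S Ψ i j 1 = ff S Ψ i j s * ff S Ψ i j t := by
  have h0 : ff S Ψ i j 0 = 0 := by
    have h := ff_add C S Ψ hU i j 0 0
    rw [add_zero] at h
    exact left_eq_add.mp h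
  obtain ⟨l, hl, hA⟩ := C.exists_adjacent hn i
  have hχ : ∀ s : k, s ≠ 0 → ∃ χ : F, ∀ t, ff S Ψ i j (s * t) = χ * ff S Ψ i j t := by
    intro s hs
    have hs' : s⁻¹ ≠ 0 := inv_ne_zero hs
    refine ⟨C.chi (Ψ (hh S.x (C.simple l) s⁻¹) : Matrix C.Idx C.Idx F) (C.simple j), fun t => ?_⟩
    have hmem : hh S.x (C.simple l) s⁻¹ ∈ S.T := Subgroup.subset_closure ⟨C.simple l, s⁻¹, hs', rfl⟩
    have hconj := S.h_conj (C.simple l) (C.simple i) s⁻¹ t hs'
    have hip : C.ip (C.simple l).1 (C.simple i).1 = -1 := by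
      rw [simple_val, simple_val, ip_single, C.symm, hA]
    rw [hip, _root_.zpow_neg_one, inv_inv] at hconj
    exact ff_conj C S Ψ hΨ hU hT i j _ hmem s t hconj
  have h1 : ff S Ψ i j 1 ≠ 0 := by
    obtain ⟨t₀, ht₀⟩ := hne
    have ht : t₀ ≠ 0 := by
      rintro rfl
      exact ht₀ h0
    obtain ⟨χ, hχ1⟩ := hχ t₀ ht
    have h := hχ1 1
    rw [mul_one] at h
    intro h2
    rw [h2, mul_zero] at h
    exact ht₀ h
  refine ⟨h0, h1, fun s t => ?_⟩
  by_cases hs : s = 0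
  · rw [hs, zero_mul, h0, zero_mul, zero_mul]
  · obtain ⟨χ, hχ1⟩ := hχ s hs
    have h2 := hχ1 1
    rw [mul_one] at h2
    rw [hχ1 t, h2]
    ring

theorem coords' (hn : 2 ≤ n) (θ : C.Root) (hθ : C.IsHighest θ) {k : Type*} [Field k] [Infinite k]
    {H : Type*} [Group H] (S : StSys C k H) (F : Type*) [Field F]
    (Ψ : H →* GL C.Idx F) (hΨ : ∀ β t, Ψ (S.x β t) ∈ C.Gad F) (hne : Ψ (S.x θ 1) ≠ 1)
    (hU : ∀ u ∈ S.U 1, Ψ u ∈ (C.adS F).U 1)
    (hT : ∀ h ∈ S.T, C.Fil 0 (Ψ h : Matrix C.Idx C.Idx F)) :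
    ∃ (π : Equiv.Perm (Fin n)) (φ : k →+* F) (c : Fin n → F), (∀ i, c i ≠ 0) ∧
      (∀ i j, C.A (π i) (π j) = C.A i j) ∧
      (∀ i t j, C.xi j (Ψ (S.x (C.simple i) t) : Matrix C.Idx C.Idx F) =
        if j = π i then c i * φ t else 0) ∧
      ∀ v t, t ≠ 0 → ∀ i, C.chi (Ψ (S.tor v t) : Matrix C.Idx C.Idx F) (C.simple (π i)) =
        φ t ^ (C.ip (Pi.single i 1) v) := by
  obtain ⟨π, hπ⟩ := exists_perm C θ hθ S Ψ hΨ hne hU hT
  have hP := fun i => P2_mul C S Ψ hΨ hU hT hn i (π i) ((hπ i (π i)).2 rfl)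
  let φ : Fin n → (k →+* F) := fun i =>
    { toFun := fun t => ff S Ψ i (π i) t / ff S Ψ i (π i) 1
      map_one' := div_self (hP i).2.1
      map_zero' := by
        show ff S Ψ i (π i) 0 / ff S Ψ i (π i) 1 = 0
        rw [(hP i).1, zero_div]
      map_add' := fun s t => by
        show ff S Ψ i (π i) (s + t) / ff S Ψ i (π i) 1 = _
        rw [ff_add C S Ψ hU, add_div]
      map_mul' := fun s t => by
        show ff S Ψ i (π i) (s * t) / ff S Ψ i (π i) 1 = _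
        have h1 := (hP i).2.1
        have h2 := (hP i).2.2 s t
        rw [div_mul_div_comm, div_eq_div_iff h1 (mul_ne_zero h1 h1), ← h2]
        ring }
  have hφ : ∀ i t, φ i t = ff S Ψ i (π i) t / ff S Ψ i (π i) 1 := fun i t => rfl
  have hadj : ∀ i j, C.A i j = -1 → φ i = φ j := by
    intro i j hij
    ext t
    rw [hφ, hφ, div_eq_div_iff (hP i).2.1 (hP j).2.1]
    rw [field_adj C S Ψ hU π hπ i j hij t]
    ring
  have hn0 : 0 < n := by omega
  have hall : ∀ i, φ i = φ ⟨0, hn0⟩ := by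
    by_contra hcon
    push Not at hcon
    obtain ⟨i₁, hi₁⟩ := hcon
    classical
    obtain ⟨i, hi, j, hj, hA⟩ := C.conn (Finset.univ.filter fun i => φ i = φ ⟨0, hn0⟩)
      ⟨⟨0, hn0⟩, Finset.mem_filter.2 ⟨Finset.mem_univ _, rfl⟩⟩
      (fun h => by
        have h1 : i₁ ∈ Finset.univ.filter fun i => φ i = φ ⟨0, hn0⟩ := by
          rw [h]
          exact Finset.mem_univ i₁
        exact hi₁ (Finset.mem_filter.1 h1).2)
    have hij : i ≠ j := by
      rintro rfl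
      exact hj hi
    have hA1 : C.A i j = -1 := (C.off i j hij).resolve_left hA
    refine hj (Finset.mem_filter.2 ⟨Finset.mem_univ _, ?_⟩)
    rw [← hadj i j hA1]
    exact (Finset.mem_filter.1 hi).2
  have hval : ∀ i t, ff S Ψ i (π i) t = ff S Ψ i (π i) 1 * φ ⟨0, hn0⟩ t := by
    intro i t
    rw [← hall i, hφ, mul_div_cancel₀ _ (hP i).2.1]
  refine ⟨π, φ ⟨0, hn0⟩, fun i => ff S Ψ i (π i) 1, fun i => (hP i).2.1,
    cartan_perm C S Ψ hU π hπ, fun i t j => ?_, fun v t ht i => ?_⟩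
  · show ff S Ψ i j t = _
    split_ifs with h
    · rw [h]
      exact hval i t
    · by_contra h1
      exact h ((hπ i j).1 ⟨t, h1⟩)
  · have hconj := S.tor_conj v t ht (C.simple i) 1
    have h1 := ff_conj C S Ψ hΨ hU hT i (π i) _ (S.tor_mem v t ht) _ 1 hconj
    rw [mul_one] at h1
    have h2 := hval i (t ^ (C.ip v (C.simple i).1))
    rw [h1, map_zpow₀, mul_comm] at h2
    have h3 := mul_left_cancel₀ (hP i).2.1 h2
    rw [h3, simple_val, C.ip_comm]

end SLC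
end Pool.Agent.H75.UL
end
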