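import Mathlib
import Pool.Agent.H86.AL.M05
import Pool.Agent.H86.AL.M07
import Pool.Agent.H86.AL.M09
import Pool.Agent.H86.AL.M10

/-!
# M14: collected modules

Pool.Agent.H86.UM.ImP
Pool.Agent.H86.UM.ImN
Pool.Agent.H75.UK.K8a
Pool.Agent.H86.UM.GR
Pool.Agent.H75.UL.P1
Pool.Agent.H75.US.S3a
Pool.Agent.H86.UM.ZG
-/

section
/- module Pool.Agent.H86.UM.ImP -/
/-!
# Project UM, module ImP: images of the simple root groups

`Ψ` maps `S.T` into the torus; `t ∈ S.T` semiregular for `J` (`hsemi`). Then for `x ∈ X J` the element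
`Ψ x` is a product of root elements `x_β` with `β` positive and supported on the fibre of `J`.
Proof. `t` commutes with `x` (`cent`), so `Ψ x ∈ U 1` commutes with `Ψ t ∈ T`; `centralizer_U` gives
`Ψ x = lp posList y` with `y β ≠ 0 → chi (Ψ t) β = 1` for positive `β`, so by `hsemi` `β_j = 0`
for all `j` with `fib j ≠ J`. Replace `y β` by `0` for non positive `β` (`lp_congr`, `mem_posList`).
-/

set_option autoImplicit false
open Matrix

namespace Pool.Agent.H86.UM

open Pool.Agent.H75.UL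

variable {n : ℕ} (C : SLC n)

theorem image_pos {ι : Type} {E : Type*} [Group E] {k : Type*} [Field k] (S : Src ι E k)
    {F : Type*} [Field F] (Ψ : E →* GL C.Idx F) (h : Tgt C S Ψ) (fib : Fin n → ι)
    (hT : ∀ x ∈ S.T, Ψ x ∈ (C.adS F).T) (J : ι) (t : E) (ht : t ∈ S.T) (ht1 : S.a J t = 1)
    (hsemi : ∀ γ : C.Root, (∃ j, fib j ≠ J ∧ γ.1 j ≠ 0) →
      C.chi (Ψ t : Matrix C.Idx C.Idx F) γ ≠ 1) (x : E) (hx : x ∈ S.X J) :
    ∃ y : C.Root → F, Ψ x = (C.adS F).lp C.posList y ∧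
      ∀ β, y β ≠ 0 → C.Pos β ∧ ∀ j, fib j ≠ J → β.1 j = 0 := by
  classical
  have hXU : x ∈ S.U := S.X_le J hx
  have hu : Ψ x ∈ (C.adS F).U 1 := h.U_le x hXU
  have hcomm : Ψ t * Ψ x = Ψ x * Ψ t := by
    rw [← map_mul, ← map_mul, S.cent J t ht ht1 x hx]
  obtain ⟨y, hy, hy'⟩ := C.centralizer_U (Ψ t) (Ψ x) (hT t ht) hu hcomm
  refine ⟨fun β => if C.Pos β then y β else 0, ?_, ?_⟩
  · rw [hy]
    apply (C.adS F).lp_congr
    intro β hβ
    rw [C.mem_posList] at hβ
    rw [if_pos hβ]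
  · intro β hβ
    beta_reduce at hβ
    by_cases hp : C.Pos β
    · rw [if_pos hp] at hβ
      refine ⟨hp, fun j hj => ?_⟩
      by_contra hne
      exact hsemi β ⟨j, hj, hne⟩ (hy' β hp hβ)
    · rw [if_neg hp] at hβ
      exact absurd rfl hβ

end Pool.Agent.H86.UM
end

section
/- module Pool.Agent.H86.UM.ImN -/
/-!
# Project UM, module ImN: images of the opposite simple root groups

`Ψ` maps `S.T` into the torus. Claim: there are `ν' ∈ N` acting by `w ∈ W` with `w α_j` negative and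
supported on the fibre of `J` for all `j` with `fib j = J`, and for each `x ∈ X J`,
`Ψ (ν_J x ν_J⁻¹) = ν' y ν'⁻¹` with `y` a product of `x_β`, `β` positive supported on the fibre of `J`
(so `w β` is negative, supported on the fibre of `J`).

Proof. Let `t₀` be regular (`exists_regular'`), `t` semiregular for `J` (`exists_semiregular'`).
(1) `g = Ψ ν_J`; `g⁻¹ Ψ(t₀) g = Ψ (ν_J⁻¹ t₀ ν_J) ∈ T` satisfies `Fil 0` (`Fil_T`), so `g = ν' u`
(`torus_chamber'`), `Acts ν' w`, `w ∈ W` (`N_acts`).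
(2) For `x ∈ X J` put `y(x) = u Ψ(x) u⁻¹ ∈ U 1`; `Ψ (ν_J x ν_J⁻¹) = ν' y(x) ν'⁻¹`. Simple coordinates:
`xi j (y(x)) = xi j (Ψ x)` (`xi_mul`, `xi_inv`), nonzero for some `x` if `fib j = J` (`Fib.ne`).
(3) For `h ∈ T`: put `h' = ν_J⁻¹ h ν_J ∈ T` and `τ_h = ν'⁻¹ Ψ(h) ν' ∈ T` (`N_conj_T`). As
`h (ν_J x ν_J⁻¹) h⁻¹ = ν_J (h' x h'⁻¹) ν_J⁻¹`: `y(h' x h'⁻¹) = τ_h y(x) τ_h⁻¹`, and
`chi τ_h β = chi (Ψ h) (w β)` (`T_fix`, `Acts ν' w`, `xg_inj`).
(4) `t` commutes with `ν_J x ν_J⁻¹` (`cent_neg`), so `y(x)` commutes with `τ_t`; `centralizer_U`: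
`y(x) = lp posList z` with `z β ≠ 0 → chi (Ψ t) (w β) = 1`, so `(w β)_j = 0` for `fib j ≠ J`
(`hsemi` of `t`). In particular (with (2) and `xi j (lp z) = z (simple j)`, see `lp_entry`/`xi_xg`):
`w α_j` is supported on the fibre of `J` if `fib j = J`.
(5) `w α_j` is negative for `fib j = J`: suppose `δ = w α_j` is positive (all coordinates `≥ 0`,
supported on the fibre of `J`). Let `f(x) = xi j (y(x))`, a homomorphism `X J → (F,+)`, so it depends
only on `q J x` (`ker_q`); for `s ∈ k0`, `s ≠ 0`, `h` from `sep J s`: `a J h' = (s ^ N)⁻¹` (`a_ν`) and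
`f(h' x h'⁻¹) = chi (Ψ h) δ * f(x) = P(s) f(x)` where `P(s) = ∏ j, Φ_j(s ^ N) ^ δ_j`
(`chi_prod`, `Fib.poly`, as in Reg.lean), a polynomial map with `P 0 = 0`. Take `x₀` with
`f(x₀) ≠ 0`; `Θ r := f(y_r) / f(x₀)` with `q y_r = r q x₀`, `r ∈ k0`, is additive, `Θ 1 = 1`, and
`Θ ((s ^ N)⁻¹ r) = P(s) Θ r`; `r = s ^ N`: `1 = P(s) Θ(s ^ N)` for all `s ≠ 0`. But
`s ↦ P(s) Θ(s ^ N)` is a polynomial map with value `0` at `0`: contradiction to `IsPoly.not_one`.
(6) So `w` maps the span of the `α_j`, `fib j = J`, into itself and is injective (`W_lin`), so (finite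
dimension, over `ℚ`) `w⁻¹` also maps it into itself; so in (4) `β` itself is supported on the fibre of
`J`.
-/

set_option autoImplicit false
open Matrix

namespace Pool.Agent.H86.UM

open Pool.Agent.H75.UL

variable {n : ℕ} (C : SLC n)

private theorem ImN_chi {F : Type*} [Field F] (ν' τ : GL C.Idx F) (w : Equiv.Perm C.Root)
    (hν : ν' ∈ (C.adS F).N) (ha : (C.adS F).Acts ν' w) (hτ : τ ∈ (C.adS F).T) :
    ν'⁻¹ * τ * ν' ∈ (C.adS F).T ∧ ∀ β : C.Root,
    C.chi ((ν'⁻¹ * τ * ν' : GL C.Idx F) : Matrix C.Idx C.Idx F) β =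
      C.chi (τ : Matrix C.Idx C.Idx F) (w β) := by
  have h1 : ν'⁻¹ * τ * ν' ∈ (C.adS F).T := by
    have := (C.adS F).N_conj_T ν'⁻¹ τ (inv_mem hν) hτ
    simpa using this
  refine ⟨h1, fun β => ?_⟩
  obtain ⟨c, hc, hc2⟩ := ha
  obtain ⟨h2, h3⟩ := C.T_fix _ h1 β 1
  obtain ⟨h4, h5⟩ := C.T_fix τ hτ (w β) (c β)
  have e1 := hc2 β 1
  have e2 := hc2 β (C.chi (τ : Matrix C.Idx C.Idx F) (w β))
  rw [SLC.adS_x] at e1 e2
  have h6 : ν'⁻¹ * τ * ν' * C.xg F β 1 * (ν'⁻¹ * τ * ν')⁻¹ =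
      C.xg F β (C.chi (τ : Matrix C.Idx C.Idx F) (w β)) := by
    calc ν'⁻¹ * τ * ν' * C.xg F β 1 * (ν'⁻¹ * τ * ν')⁻¹
        = ν'⁻¹ * (τ * (ν' * C.xg F β 1 * ν'⁻¹) * τ⁻¹) * ν' := by group
      _ = ν'⁻¹ * (ν' * C.xg F β (C.chi (τ : Matrix C.Idx C.Idx F) (w β)) * ν'⁻¹) * ν' := by
          rw [e1, e2, mul_one, h5, mul_comm (c β)]
      _ = C.xg F β (C.chi (τ : Matrix C.Idx C.Idx F) (w β)) := by group
  rw [h6] at h3
  have h7 := (C.xg_inj β β _ _ h4 h3).2
  rw [mul_one] at h7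
  exact h7.symm

private theorem ImN_xi {F : Type*} [Field F] (z : C.Root → F) (hz : ∀ β, z β ≠ 0 → C.Pos β)
    (j : Fin n) : C.xi j ((C.adS F).lp C.posList z : Matrix C.Idx C.Idx F) = z (C.simple j) := by
  have h := C.lp_entry z 1 le_rfl (fun γ hγ => by
    by_contra hc
    have h2 := hz γ hc
    unfold SLC.Pos at h2
    omega) (C.simple j) (C.ht_simple j) j
  unfold SLC.xi
  rw [h]
  simp

private theorem ImN_chi_conj {F : Type*} [Field F] (τ u : GL C.Idx F) (hτ : τ ∈ (C.adS F).T)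
    (hu : u ∈ (C.adS F).U 1) (γ : C.Root) :
    C.chi ((u⁻¹ * τ * u : GL C.Idx F) : Matrix C.Idx C.Idx F) γ =
      C.chi (τ : Matrix C.Idx C.Idx F) γ := by
  have h1 : u⁻¹ * τ * u = τ * (τ⁻¹ * u⁻¹ * τ * u) := by group
  have h2 : τ⁻¹ * u⁻¹ * τ * u ∈ (C.adS F).U 1 := by
    have h3 := (C.adS F).T_conj_U 1 τ⁻¹ u⁻¹ (inv_mem hτ) (inv_mem hu)
    rw [inv_inv] at h3
    exact mul_mem h3 hu
  rw [h1]
  exact C.chi_mul_U τ _ hτ h2 γ

theorem image_neg {ι : Type} {E : Type*} [Group E] {k : Type*} [Field k] (S : Src ι E k)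
    {F : Type*} [Field F] (Ψ : E →* GL C.Idx F) (h : Tgt C S Ψ) (fib : Fin n → ι)
    (hf : Fib C S Ψ fib) (hT : ∀ x ∈ S.T, Ψ x ∈ (C.adS F).T) (J : ι) :
    ∃ ν' ∈ (C.adS F).N, ∃ w ∈ C.W, (C.adS F).Acts ν' w ∧
      (∀ β : C.Root, C.Pos β → (∀ j, fib j ≠ J → β.1 j = 0) →
        ¬ C.Pos (w β) ∧ ∀ j, fib j ≠ J → (w β).1 j = 0) ∧
      ∀ x ∈ S.X J, ∃ y : C.Root → F,
        Ψ (S.ν J * x * (S.ν J)⁻¹) = ν' * (C.adS F).lp C.posList y * ν'⁻¹ ∧
        ∀ β, y β ≠ 0 → C.Pos β ∧ ∀ j, fib j ≠ J → β.1 j = 0 := by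
  classical
  obtain ⟨t₀, ht₀, hreg⟩ := exists_regular' C S Ψ h fib hf
  obtain ⟨t, htT, ht1, hsemi⟩ := exists_semiregular' C S Ψ h fib hf J
  obtain ⟨g, hg⟩ : ∃ g, g = Ψ (S.ν J) := ⟨_, rfl⟩
  have hgm : g ∈ C.Gad F := by rw [hg]; exact h.mem _
  have hconj : ∀ x, g⁻¹ * Ψ x * g = Ψ ((S.ν J)⁻¹ * x * S.ν J) := by
    intro x; rw [hg]; simp
  obtain ⟨ν', hν', u, hu, hgu⟩ := torus_chamber' C (Ψ t₀) g (hT t₀ ht₀) hreg hgm (by
    rw [hconj]
    exact C.Fil_T _ (hT _ (S.ν_conj J t₀ ht₀)))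
  obtain ⟨w, hw, hacts, -⟩ := (C.adS F).N_acts ν' hν'
  have hyU : ∀ x ∈ S.X J, u * Ψ x * u⁻¹ ∈ (C.adS F).U 1 := fun x hx =>
    mul_mem (mul_mem hu (h.U_le x (S.X_le J hx))) (inv_mem hu)
  have hyΨ : ∀ x, Ψ (S.ν J * x * (S.ν J)⁻¹) = ν' * (u * Ψ x * u⁻¹) * ν'⁻¹ := by
    intro x
    rw [map_mul, map_mul, map_inv, ← hg, hgu]
    group
  have hyxi : ∀ x ∈ S.X J, ∀ j, C.xi j ((u * Ψ x * u⁻¹ : GL C.Idx F) : Matrix C.Idx C.Idx F) =
      C.xi j (Ψ x : Matrix C.Idx C.Idx F) := by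
    intro x hx j
    rw [C.xi_mul j (u * Ψ x) u⁻¹ (mul_mem hu (h.U_le x (S.X_le J hx))) (inv_mem hu),
      C.xi_mul j u (Ψ x) hu (h.U_le x (S.X_le J hx)), C.xi_inv j u hu]
    ring
  have h4 : ∀ x ∈ S.X J, ∃ z : C.Root → F, u * Ψ x * u⁻¹ = (C.adS F).lp C.posList z ∧
      (∀ β, z β ≠ 0 → C.Pos β) ∧ ∀ β, z β ≠ 0 → ∀ j, fib j ≠ J → (w β).1 j = 0 := by
    intro x hx
    obtain ⟨hτ, hchi⟩ := ImN_chi C ν' (Ψ t) w hν' hacts (hT t htT)
    have hcomm : (ν'⁻¹ * Ψ t * ν') * (u * Ψ x * u⁻¹) =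
        (u * Ψ x * u⁻¹) * (ν'⁻¹ * Ψ t * ν') := by
      have e := congrArg Ψ (S.cent_neg J t htT ht1 x hx)
      rw [map_mul, map_mul Ψ (S.ν J * x * (S.ν J)⁻¹) t, hyΨ] at e
      calc (ν'⁻¹ * Ψ t * ν') * (u * Ψ x * u⁻¹)
          = ν'⁻¹ * (Ψ t * (ν' * (u * Ψ x * u⁻¹) * ν'⁻¹)) * ν' := by group
        _ = ν'⁻¹ * ((ν' * (u * Ψ x * u⁻¹) * ν'⁻¹) * Ψ t) * ν' := by rw [e]
        _ = (u * Ψ x * u⁻¹) * (ν'⁻¹ * Ψ t * ν') := by group
    obtain ⟨z, hz1, hz2⟩ := C.centralizer_U _ _ hτ (hyU x hx) hcomm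
    refine ⟨fun β => if C.Pos β then z β else 0, ?_, ?_, ?_⟩
    · rw [hz1]
      apply (C.adS F).lp_congr
      intro β hβ
      rw [if_pos ((C.mem_posList β).1 hβ)]
    · intro β hβ
      by_contra hc
      exact hβ (if_neg hc)
    · intro β hβ j hj
      have hp : C.Pos β := by
        by_contra hc
        exact hβ (if_neg hc)
      have hz : z β ≠ 0 := by
        simpa [hp] using hβ
      have h5 := hz2 β hp hz
      rw [hchi β] at h5
      by_contra hc
      exact hsemi (w β) ⟨j, hj, hc⟩ h5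
  have hsupp : ∀ j, fib j = J → ∀ i, fib i ≠ J → (w (C.simple j)).1 i = 0 := by
    intro j hj
    obtain ⟨x, hx, hne⟩ := hf.ne j
    rw [hj] at hx
    obtain ⟨z, hz1, hz2, hz3⟩ := h4 x hx
    apply hz3
    rw [← ImN_xi C z hz2 j, ← hz1, hyxi x hx]
    exact hne
  have hneg : ∀ j, fib j = J → ¬ C.Pos (w (C.simple j)) := by
    intro j hj hpos
    choose Φ hΦadd hΦ1 hΦchi hΦmul using hf.poly
    have hinf : Infinite S.k0 := S.k0_inf
    have hδ : ∀ i, 0 ≤ (w (C.simple j)).1 i := (C.pos_iff _).1 hpos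
    have key : ∀ s : S.k0, s ≠ 0 →
        (∏ i, Φ i (s ^ S.N) ^ ((w (C.simple j)).1 i).toNat) * Φ j (s ^ S.N) = 1 := by
      intro s hs
      have hs' : (s : k) ≠ 0 := fun hc => hs (Subtype.ext hc)
      obtain ⟨h', hh', ha1, ha2⟩ := S.sep J (s : k) s.2 hs'
      have c1 : C.chi (Ψ ((S.ν J)⁻¹ * h' * S.ν J) : Matrix C.Idx C.Idx F) (C.simple j) =
          Φ j (s⁻¹ ^ S.N) := by
        apply hΦchi j _ (S.ν_conj J h' hh') s⁻¹ (inv_ne_zero hs)
        rw [hj, S.a_ν J h' hh' (by rw [ha1]; exact pow_mem s.2 _), ha1]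
        simp
      have c2 : C.chi (Ψ h' : Matrix C.Idx C.Idx F) (w (C.simple j)) =
          ∏ i, Φ i (s ^ S.N) ^ ((w (C.simple j)).1 i).toNat := by
        rw [C.chi_prod (Ψ h') (h.mem _) (h.T_le h' hh')]
        apply Finset.prod_congr rfl
        intro i _
        by_cases hi : fib i = J
        · rw [hΦchi i h' hh' s hs (by rw [hi, ha1])]
          conv_lhs => rw [← Int.toNat_of_nonneg (hδ i)]
          rw [zpow_natCast]
        · rw [hsupp j hj i hi]
          simp
      have c3 : C.chi (Ψ ((S.ν J)⁻¹ * h' * S.ν J) : Matrix C.Idx C.Idx F) (C.simple j) =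
          C.chi (Ψ h' : Matrix C.Idx C.Idx F) (w (C.simple j)) := by
        obtain ⟨hτ, hchi⟩ := ImN_chi C ν' (Ψ h') w hν' hacts (hT h' hh')
        rw [← hchi, ← hconj, hgu]
        have e : (ν' * u)⁻¹ * Ψ h' * (ν' * u) = u⁻¹ * (ν'⁻¹ * Ψ h' * ν') * u := by group
        rw [e]
        exact ImN_chi_conj C _ u hτ hu _
      rw [← c2, ← c3, c1, mul_comm, ← hΦmul j s (s⁻¹ ^ S.N), ← mul_pow, mul_inv_cancel₀ hs,
        one_pow, hΦ1]
    have hΦ0 : Φ j 0 = 0 := by
      have := hΦadd j 0 0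
      rw [add_zero] at this
      exact left_eq_add.1 this
    have hcp : ∀ i, IsPoly S.N (fun s : S.k0 => Φ i (s ^ S.N)) := by
      intro i
      have := IsPoly.comp_pow (Φ i) (hΦadd i) S.N 1
      simpa using this
    have hpoly := (IsPoly.prod Finset.univ (fun i => S.N * ((w (C.simple j)).1 i).toNat)
      (fun i (s : S.k0) => Φ i (s ^ S.N) ^ ((w (C.simple j)).1 i).toNat)
      (fun i _ => (hcp i).pow _)).mul (hcp j)
    obtain ⟨s, hs, hs1⟩ := hpoly.not_one (by
      rw [zero_pow S.N_ne, hΦ0, mul_zero])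
    exact hs1 (key s hs)
  have hlin : ∀ (β : C.Root) (i : Fin n),
      (w β).1 i = ∑ j, β.1 j * (w (C.simple j)).1 i := by
    obtain ⟨f, hf1, -⟩ := C.W_lin w hw
    intro β i
    have e : β.1 = ∑ j, β.1 j • (C.simple j).1 := by
      funext i
      rw [Finset.sum_apply]
      simp [Pi.single_apply]
    rw [hf1 β]
    conv_lhs => rw [e]
    rw [map_sum, Finset.sum_apply]
    apply Finset.sum_congr rfl
    intro j _
    rw [map_zsmul, hf1 (C.simple j)]
    simp
  have hw1 : ∀ γ : C.Root, (∀ j, fib j ≠ J → γ.1 j = 0) → ∀ i, fib i ≠ J → (w γ).1 i = 0 := by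
    intro γ hγ i hi
    rw [hlin]
    apply Finset.sum_eq_zero
    intro j _
    by_cases hj : fib j = J
    · rw [hsupp j hj i hi, mul_zero]
    · rw [hγ j hj, zero_mul]
  have hw2 : ∀ m : ℕ, ∀ γ : C.Root, (∀ j, fib j ≠ J → γ.1 j = 0) →
      ∀ i, fib i ≠ J → ((w ^ m) γ).1 i = 0 := by
    intro m
    induction m with
    | zero => intro γ hγ i hi; simpa using hγ i hi
    | succ m ih =>
      intro γ hγ i hi
      rw [pow_succ', Equiv.Perm.mul_apply]
      exact hw1 _ (ih γ hγ) i hi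
  have hw3 : ∀ β : C.Root, (∀ j, fib j ≠ J → (w β).1 j = 0) → ∀ i, fib i ≠ J → β.1 i = 0 := by
    intro β hβ i hi
    obtain ⟨m, hm, hm1⟩ := isOfFinOrder_iff_pow_eq_one.1 (isOfFinOrder_of_finite w)
    have e : (w ^ (m - 1)) (w β) = β := by
      rw [← Equiv.Perm.mul_apply, ← pow_succ, Nat.sub_add_cancel hm, hm1]
      rfl
    have := hw2 (m - 1) (w β) hβ i hi
    rwa [e] at this
  refine ⟨ν', hν', w, hw, hacts, fun β hβ hβs => ⟨?_, hw1 β hβs⟩, fun x hx => ?_⟩
  · intro hp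
    have h5 : ht (w β).1 ≤ 0 := by
      unfold ht
      apply Finset.sum_nonpos
      intro i _
      rw [hlin]
      apply Finset.sum_nonpos
      intro j _
      by_cases hj : fib j = J
      · have h6 : (w (C.simple j)).1 i ≤ 0 := by
          rcases C.pos_or_neg (w (C.simple j)) with h7 | h7
          · exact absurd ((C.pos_iff _).2 h7) (hneg j hj)
          · exact h7 i
        exact mul_nonpos_of_nonneg_of_nonpos ((C.pos_iff β).1 hβ j) h6
      · rw [hβs j hj, zero_mul]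
    unfold SLC.Pos at hp
    omega
  · obtain ⟨z, hz1, hz2, hz3⟩ := h4 x hx
    exact ⟨z, by rw [hyΨ, hz1], fun β hβ => ⟨hz2 β hβ, hw3 β (hz3 β hβ)⟩⟩

end Pool.Agent.H86.UM
end

section
/- module Pool.Agent.H75.UK.K8a -/
/-!
# Project UK, module K8a: the fixed space of `σ`, `θ = 1`

`VF D F lam`: the matrices in the span of the `E β`, `pr lam β > 0`, which are fixed by
`M ↦ mat M matᵀ`. `mat_E`: `mat * E β * matᵀ = sg β • E (r β)`: this is `isSig_adS` on the
coefficient of `t`... directly: it is enough to compare the coefficient of `t` in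
`D.sgl 1 (xg β t) = xg (r β) (sg β * t)` over the field of rational functions or over `F` if `F` is
infinite; simpler: compute entries with `D.mat` and the definition of `C.E` (integer matrices), as in
the proof of `isSig_adS` in `UT/D7` (there may be a lemma to reuse). The `E β` are linearly independent:
`E β` has the entry `(E β) (inl i) (inr (-β)) = -β_i` and `E γ` has a zero there for `γ ≠ β`
(over `F` use `exists_coeff_ne_zero` of R5: some `β_i` is not zero in `F`).
`finrank_VF`: write `M = ∑ c_β E β` (`c_β = 0` unless `pr lam β > 0`); `M` is fixed iff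
`c_{r β} = sg β c_β` for all `β`; so `M ↦ (c_{q.out})_q`, `q` in the set of orbits with
`pr lam q.out > 0`, is injective on `VF` (`sg β ≠ 0`, induction along the orbit: `D.rE.SameCycle`).
`pr_r`: `lam` is `ρ`-invariant, reindex the sum.
`gr_fix`: entries: `(mat M matᵀ) (ρ a) (ρ b) = ± M a b`, `dg lam (ρ a) = dg lam a`.
-/

set_option autoImplicit false
open Matrix
universe u
namespace Pool.Agent.H75.UL

/-- Orbits of `ρ` on the positive roots. -/
abbrev Dg.POrb {n : ℕ} {C : SLC n} (D : Dg C) : Type :=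
  {q : Quotient (Equiv.Perm.SameCycle.setoid D.rE) // C.Pos (Quotient.out q)}

section
variable {n : ℕ} {C : SLC n} (D : Dg C) (F : Type*) [Field F]

/-- The fixed space. -/
def VF (lam : Fin n → ℝ) : Submodule F (Matrix C.Idx C.Idx F) where
  carrier := {M | M ∈ Submodule.span F {M | ∃ β : C.Root, 0 < C.pr lam β ∧
    M = (C.E β).map (Int.cast : ℤ → F)} ∧ D.mat F * M * (D.mat F)ᵀ = M}
  zero_mem' := ⟨Submodule.zero_mem _, by simp⟩
  add_mem' := by
    rintro a b ⟨ha, ha'⟩ ⟨hb, hb'⟩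
    exact ⟨Submodule.add_mem _ ha hb, by rw [Matrix.mul_add, Matrix.add_mul, ha', hb']⟩
  smul_mem' := by
    rintro c a ⟨ha, ha'⟩
    exact ⟨Submodule.smul_mem _ c ha, by rw [Matrix.mul_smul, Matrix.smul_mul, ha']⟩

theorem mem_VF (lam : Fin n → ℝ) (M : Matrix C.Idx C.Idx F) :
    M ∈ VF D F lam ↔ M ∈ Submodule.span F {M | ∃ β : C.Root, 0 < C.pr lam β ∧
      M = (C.E β).map (Int.cast : ℤ → F)} ∧ D.mat F * M * (D.mat F)ᵀ = M := Iff.rfl


/-- The permutation of the index set. -/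
private def K8a_p (a : C.Idx) : C.Idx := Sum.map D.ρ D.r a

/-- The signs on the index set. -/
private def K8a_s (a : C.Idx) : ℤ := Sum.elim (fun _ => 1) D.sg a

private theorem K8a_s_cast (a : C.Idx) : (K8a_s D a : F) * (K8a_s D a : F) = 1 := by
  rw [← Int.cast_mul]
  have : K8a_s D a * K8a_s D a = 1 := by
    rcases a with i | β
    · simp [K8a_s]
    · exact D.sg_sq β
  rw [this]
  simp

private theorem K8a_p_inj : Function.Injective (K8a_p D) := by
  unfold K8a_p
  exact Sum.map_injective.mpr ⟨D.ρ.injective, D.r_injective⟩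

private theorem K8a_p_surj : Function.Surjective (K8a_p D) :=
  Finite.surjective_of_injective (K8a_p_inj D)

private theorem K8a_mat (a b : C.Idx) :
    D.mat F a b = if a = K8a_p D b then (K8a_s D b : F) else 0 := by
  rcases a with i | γ <;> rcases b with j | β <;> simp [Dg.mat, K8a_p, K8a_s]

private theorem K8a_entry (M : Matrix C.Idx C.Idx F) (a b : C.Idx) :
    (D.mat F * M * (D.mat F)ᵀ) (K8a_p D a) (K8a_p D b) =
      (K8a_s D a : F) * (K8a_s D b : F) * M a b := by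
  rw [Matrix.mul_apply, Finset.sum_eq_single b]
  · rw [Matrix.mul_apply, Finset.sum_eq_single a]
    · rw [Matrix.transpose_apply, K8a_mat, K8a_mat, if_pos rfl, if_pos rfl]
      ring
    · intro c _ hc
      rw [K8a_mat, if_neg, zero_mul]
      intro h
      exact hc (K8a_p_inj D h).symm
    · intro h
      exact absurd (Finset.mem_univ _) h
  · intro c _ hc
    rw [Matrix.transpose_apply, K8a_mat, if_neg, mul_zero]
    intro h
    exact hc (K8a_p_inj D h).symm
  · intro h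
    exact absurd (Finset.mem_univ _) h

private theorem K8a_ext (M N : Matrix C.Idx C.Idx F)
    (h : ∀ a b, M (K8a_p D a) (K8a_p D b) = N (K8a_p D a) (K8a_p D b)) : M = N := by
  ext a b
  obtain ⟨a', rfl⟩ := K8a_p_surj D a
  obtain ⟨b', rfl⟩ := K8a_p_surj D b
  exact h a' b'

private theorem K8a_one (a b : C.Idx) :
    (1 : Matrix C.Idx C.Idx F) (K8a_p D a) (K8a_p D b) =
      (K8a_s D a : F) * (K8a_s D b : F) * (1 : Matrix C.Idx C.Idx F) a b := by
  by_cases h : a = b
  · subst h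
    rw [Matrix.one_apply_eq, Matrix.one_apply_eq, K8a_s_cast]
    ring
  · rw [Matrix.one_apply_ne h, Matrix.one_apply_ne (fun h' => h (K8a_p_inj D h'))]
    ring

/-- elements of the span as sums -/
private theorem K8a_span (lam : Fin n → ℝ) (M : Matrix C.Idx C.Idx F)
    (h : M ∈ Submodule.span F {M | ∃ β : C.Root, 0 < C.pr lam β ∧
      M = (C.E β).map (Int.cast : ℤ → F)}) :
    ∃ c : C.Root → F, (∀ β, ¬ 0 < C.pr lam β → c β = 0) ∧
      M = ∑ β, c β • (C.E β).map (Int.cast : ℤ → F) := by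
  induction h using Submodule.span_induction with
  | mem x hx =>
    obtain ⟨β, hβ, rfl⟩ := hx
    refine ⟨Pi.single β 1, fun γ hγ => ?_, ?_⟩
    · rw [Pi.single_eq_of_ne]
      rintro rfl
      exact hγ hβ
    · rw [Finset.sum_eq_single β]
      · simp
      · intro γ _ hγ
        rw [Pi.single_eq_of_ne hγ, zero_smul]
      · intro h
        exact absurd (Finset.mem_univ _) h
  | zero => exact ⟨fun _ => 0, fun _ _ => rfl, by simp⟩
  | add x y _ _ hx hy =>
    obtain ⟨c, hc, rfl⟩ := hx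
    obtain ⟨c', hc', rfl⟩ := hy
    refine ⟨fun β => c β + c' β, fun β hβ => by
      change c β + c' β = 0
      rw [hc β hβ, hc' β hβ, add_zero], ?_⟩
    rw [← Finset.sum_add_distrib]
    exact Finset.sum_congr rfl fun β _ => by rw [add_smul]
  | smul a x _ hx =>
    obtain ⟨c, hc, rfl⟩ := hx
    refine ⟨fun β => a * c β, fun β hβ => by
      change a * c β = 0
      rw [hc β hβ, mul_zero], ?_⟩
    rw [Finset.smul_sum]
    exact Finset.sum_congr rfl fun β _ => by rw [smul_smul]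

/-- the coefficient of `E β` -/
private theorem K8a_coeff (c : C.Root → F) (β : C.Root) (i : Fin n) :
    (∑ γ, c γ • (C.E γ).map (Int.cast : ℤ → F)) (Sum.inl i) (Sum.inr (-β)) =
      -((β.1 i : F) * c β) := by
  rw [Matrix.sum_apply, Finset.sum_eq_single β]
  · rw [Matrix.smul_apply, Matrix.map_apply, smul_eq_mul]
    change c β * ((if (-β).1 = -β.1 then -β.1 i else 0 : ℤ) : F) = _
    rw [if_pos (SLC.Root.neg_val C β)]
    push_cast
    ring
  · intro γ _ hγ
    rw [Matrix.smul_apply, Matrix.map_apply, smul_eq_mul]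
    change c γ * ((if (-β).1 = -γ.1 then -γ.1 i else 0 : ℤ) : F) = _
    rw [if_neg]
    · simp
    · intro h
      apply hγ
      apply SLC.Root.ext
      rw [SLC.Root.neg_val] at h
      exact (neg_injective h).symm
  · intro h
    exact absurd (Finset.mem_univ _) h

private theorem K8a_cr (c : C.Root → F)
    (h : D.mat F * (∑ γ, c γ • (C.E γ).map (Int.cast : ℤ → F)) * (D.mat F)ᵀ =
      ∑ γ, c γ • (C.E γ).map (Int.cast : ℤ → F)) (β : C.Root) :
    c (D.r β) = (D.sg β : F) * c β := by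
  obtain ⟨i, hi⟩ := C.exists_coeff_ne_zero β F
  have h1 := congrFun (congrFun h (K8a_p D (Sum.inl i))) (K8a_p D (Sum.inr (-β)))
  rw [K8a_entry, K8a_coeff] at h1
  have h2 : K8a_p D (Sum.inr (-β)) = Sum.inr (-(D.r β)) := by
    change Sum.inr (D.r (-β)) = _
    rw [D.r_neg]
  have h3 : K8a_p D (Sum.inl i : C.Idx) = Sum.inl (D.ρ i) := rfl
  have h4 : K8a_s D (Sum.inl i : C.Idx) = 1 := rfl
  have h5 : K8a_s D (Sum.inr (-β)) = D.sg β := by
    change D.sg (-β) = _
    rw [D.sg_neg]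
  rw [h2, h3, h4, h5, K8a_coeff, D.r_val] at h1
  apply mul_left_cancel₀ hi
  push_cast at h1
  linear_combination h1

private theorem K8a_orb {P : C.Root → Prop} (hP : ∀ β, P (D.r β) ↔ P β) {β γ : C.Root}
    (h : D.rE.SameCycle β γ) : P β ↔ P γ := by
  obtain ⟨k, rfl⟩ := h
  have hn : ∀ (m : ℕ) (β : C.Root), P ((D.rE ^ m) β) ↔ P β := by
    intro m
    induction m with
    | zero => intro β; simp
    | succ m ih =>
      intro β
      rw [pow_succ, Equiv.Perm.mul_apply, ih]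
      exact hP β
  rcases k with m | m
  · rw [Int.ofNat_eq_natCast, zpow_natCast]
    exact (hn m β).symm
  · rw [zpow_negSucc]
    have h1 := hn (m + 1) ((D.rE ^ (m + 1))⁻¹ β)
    rw [show (D.rE ^ (m + 1)) ((D.rE ^ (m + 1))⁻¹ β) = β from
      Equiv.apply_symm_apply (D.rE ^ (m + 1)) β] at h1
    exact h1

private theorem K8a_out (q : Quotient (Equiv.Perm.SameCycle.setoid D.rE)) (β : C.Root)
    (h : q = Quotient.mk _ β) : D.rE.SameCycle (Quotient.out q) β := by
  subst h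
  exact Quotient.mk_out (s := Equiv.Perm.SameCycle.setoid D.rE) β

theorem pr_r (lam : Fin n → ℝ) (hl : ∀ i, lam (D.ρ i) = lam i) (β : C.Root) :
    C.pr lam (D.r β) = C.pr lam β := by
  unfold SLC.pr
  rw [← Equiv.sum_comp D.ρ]
  refine Finset.sum_congr rfl fun i _ => ?_
  rw [D.r_val, hl]

theorem finrank_VF (lam : Fin n → ℝ) (hl : ∀ i, lam (D.ρ i) = lam i) :
    Module.finrank F (VF D F lam) ≤
      Nat.card {q : Quotient (Equiv.Perm.SameCycle.setoid D.rE) // 0 < C.pr lam (Quotient.out q)} := by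
  classical
  have : Finite (Quotient (Equiv.Perm.SameCycle.setoid D.rE)) := Quotient.finite _
  have : Fintype {q : Quotient (Equiv.Perm.SameCycle.setoid D.rE) //
    0 < C.pr lam (Quotient.out q)} := Fintype.ofFinite _
  choose ix hix using fun β : C.Root => C.exists_coeff_ne_zero β F
  let φ : VF D F lam →ₗ[F] ({q : Quotient (Equiv.Perm.SameCycle.setoid D.rE) //
      0 < C.pr lam (Quotient.out q)} → F) :=
    { toFun := fun M q => (M : Matrix C.Idx C.Idx F) (Sum.inl (ix (Quotient.out q.1)))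
        (Sum.inr (-(Quotient.out q.1)))
      map_add' := fun _ _ => rfl
      map_smul' := fun _ _ => rfl }
  have hφ : Function.Injective φ := by
    rw [← LinearMap.ker_eq_bot, LinearMap.ker_eq_bot']
    rintro ⟨M, hM⟩ h0
    obtain ⟨hM1, hM2⟩ := (mem_VF D F lam M).1 hM
    obtain ⟨c, hc, rfl⟩ := K8a_span F lam M hM1
    have hcr := K8a_cr D F c hM2
    have hc0 : ∀ β, c β = 0 := by
      intro β
      have h1 := K8a_out D (Quotient.mk _ β) β rfl
      have h2 : c (Quotient.out (Quotient.mk (Equiv.Perm.SameCycle.setoid D.rE) β)) = 0 ↔ c β = 0 :=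
        K8a_orb D (P := fun β => c β = 0) (fun β => by
          rw [hcr β, mul_eq_zero]
          constructor
          · rintro (h | h)
            · exfalso
              have h3 := D.sg_sq β
              have h4 : (D.sg β : F) * (D.sg β : F) = 1 := by
                rw [← Int.cast_mul, h3]; simp
              rw [h] at h4
              simp at h4
            · exact h
          · exact Or.inr) h1
      rw [← h2]
      by_cases hp : 0 < C.pr lam (Quotient.out (Quotient.mk (Equiv.Perm.SameCycle.setoid D.rE) β))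
      · have h3 := congrFun h0 ⟨Quotient.mk _ β, hp⟩
        change (∑ γ, c γ • (C.E γ).map (Int.cast : ℤ → F)) (Sum.inl (ix _)) (Sum.inr (-_)) = 0 at h3
        rw [K8a_coeff, neg_eq_zero, mul_eq_zero] at h3
        rcases h3 with h3 | h3
        · exact absurd h3 (hix _)
        · exact h3
      · exact hc _ hp
    apply Subtype.ext
    change ∑ β, c β • (C.E β).map (Int.cast : ℤ → F) = 0
    exact Finset.sum_eq_zero fun β _ => by rw [hc0 β, zero_smul]
  have h1 := LinearMap.finrank_le_finrank_of_injective hφ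
  rw [Module.finrank_fintype_fun_eq_card] at h1
  rw [Nat.card_eq_fintype_card]
  exact h1

theorem finrank_lt (lam : Fin n → ℝ) (hd : ∀ i, 0 ≤ lam i) (hl : ∀ i, lam (D.ρ i) = lam i)
    (h : Nat.card D.POrb ≤ Module.finrank F (VF D F lam)) (i : Fin n) : 0 < lam i := by
  classical
  have : Finite (Quotient (Equiv.Perm.SameCycle.setoid D.rE)) := Quotient.finite _
  have h1 := h.trans (finrank_VF D F lam hl)
  have hpos : ∀ β : C.Root, 0 < C.pr lam β → C.Pos β := by
    intro β hβ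
    rcases C.pos_or_neg β with h2 | h2
    · by_contra hcon
      have h3 : ht β.1 = 0 := by
        have h4 : 0 ≤ ht β.1 := Finset.sum_nonneg fun i _ => h2 i
        unfold SLC.Pos at hcon
        omega
      have h4 : ∀ i, β.1 i = 0 := fun i =>
        (Finset.sum_eq_zero_iff_of_nonneg (fun i _ => h2 i)).1 h3 i (Finset.mem_univ _)
      exact C.root_ne_zero β (funext h4)
    · exfalso
      have h3 : C.pr lam β ≤ 0 := by
        refine Finset.sum_nonpos fun i _ => ?_
        have h4 : ((β.1 i : ℤ) : ℝ) ≤ 0 := by exact_mod_cast h2 i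
        exact mul_nonpos_of_nonpos_of_nonneg h4 (hd i)
      linarith
  let ψ : {q : Quotient (Equiv.Perm.SameCycle.setoid D.rE) // 0 < C.pr lam (Quotient.out q)} →
      D.POrb := fun q => ⟨q.1, hpos _ q.2⟩
  have hψ : Function.Injective ψ := by
    intro a b hab
    apply Subtype.ext
    exact congrArg (fun x : D.POrb => x.1) hab
  have hψb : Function.Bijective ψ := hψ.bijective_of_nat_card_le h1
  have hout := K8a_out D (Quotient.mk _ (C.simple i)) (C.simple i) rfl
  have hP : C.Pos (Quotient.out (Quotient.mk (Equiv.Perm.SameCycle.setoid D.rE) (C.simple i))) := by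
    refine (K8a_orb D (P := fun β => C.Pos β) (fun β => ?_) hout).2 ?_
    · unfold SLC.Pos
      rw [D.r_ht]
    · unfold SLC.Pos
      rw [C.ht_simple]
      exact one_pos
  obtain ⟨q, hq⟩ := hψb.2 ⟨_, hP⟩
  have h2 : q.1 = Quotient.mk _ (C.simple i) := congrArg (fun x : D.POrb => x.1) hq
  have h3 := q.2
  rw [h2] at h3
  have h4 := (K8a_orb D (P := fun β => 0 < C.pr lam β)
    (fun β => by rw [pr_r D lam hl]) hout).1 h3
  rwa [C.pr_simple] at h4

variable {F}

theorem gr_fix (lam : Fin n → ℝ) (hl : ∀ i, lam (D.ρ i) = lam i) (m : ℝ) (g : GL C.Idx F)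
    (h : D.sgl (RingEquiv.refl F) g = g) :
    D.mat F * C.gr lam m ((g : Matrix C.Idx C.Idx F) - 1) * (D.mat F)ᵀ =
      C.gr lam m ((g : Matrix C.Idx C.Idx F) - 1) := by
  classical
  have hg : D.mat F * (g : Matrix C.Idx C.Idx F) * (D.mat F)ᵀ = (g : Matrix C.Idx C.Idx F) := by
    have h1 := congrArg (fun x : GL C.Idx F => (x : Matrix C.Idx C.Idx F)) h
    simp only [Dg.sgl_apply, Units.val_mul, SLC.mp_val] at h1
    have h2 : ((g : Matrix C.Idx C.Idx F)).map ((RingEquiv.refl F : F ≃+* F) : F →+* F) =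
        (g : Matrix C.Idx C.Idx F) := by
      ext a b
      rfl
    rw [h2] at h1
    exact h1
  have hdg : ∀ a : C.Idx, C.dg lam (K8a_p D a) = C.dg lam a := by
    intro a
    rcases a with i | β
    · rfl
    · exact pr_r D lam hl β
  apply K8a_ext D F
  intro a b
  rw [K8a_entry]
  have h1 := K8a_entry D F (g : Matrix C.Idx C.Idx F) a b
  rw [hg] at h1
  unfold SLC.gr
  simp only [hdg, Matrix.sub_apply, h1, K8a_one]
  split_ifs
  · ring
  · ring

end

end Pool.Agent.H75.UL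
end

section
/- module Pool.Agent.H86.UM.GR -/
/-!
# Project UM, module GR: diagrams with automorphisms

`D : Dg C`, `C` positive definite and connected. Notation `i ~ j`: `i ≠ j` and `A i j = -1`.
`orb_adj`: suppose `0 < l < m`, `ρ^l i ~ j` and `i ~ j`. Let `v = ∑_{a<m} (α_(ρ^a i) + α_(ρ^a j))` (`2 m` different
simple roots). `ip v v ≤ 4 m - 2 (number of pairs (a, b) with ρ^a i ~ ρ^b j) ≤ 4 m - 2 (2 m) = 0`, since the
number of pairs is `m` times the number of `a` with `ρ^a i ~ j`, which is at least `2`. Contradiction.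
`adj_nbr`: `i ~ ρ i` (so `m = 2`, `ip_r`); `j ~ i` outside the orbit. `ρ j = j`: `v = α_i + α_(ρ i) + α_j` has
`ip v v ≤ 0`. `j ~ ρ j`: `v = α_i + α_(ρ i) + α_j + α_(ρ j)` has `ip v v ≤ 8 - 8`. `ρ j ~ i` (equivalently
`j ~ ρ i`): `v = α_i + α_(ρ i) + α_j`.
`nonfixed_conn`: suppose no element of `A` is adjacent to an element `j' ∉ A` with `ρ j' ≠ j'`. Let
`R = {j | ρ j ≠ j}`, `A` and `B = R \ A` are not empty, not adjacent, `ρ`-stable. Consider the graph on the
fixed nodes `F`; there is a connected component `F'` of it adjacent to an element of `A` and to an element of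
`B` (otherwise the union of `A` and all components adjacent to `A` contradicts `C.conn`). Let `N` be the
set of the elements of `R` adjacent to `F'`, `v = 2 ∑_{F'} α_i + ∑_N α_j`. With `e` the number of edges in `F'`
(`e ≥ |F'| - 1`, `SimpleGraph.Connected.card_vert_le_card_edgeSet_add_one`), `b` the number of edges between
`F'` and `N`: `ip v v ≤ 8 |F'| - 8 e + 2 |N| - 4 b ≤ 8 + 2 |N| - 4 b ≤ 8 - 2 b`, as `|N| ≤ b`; and `b ≥ 4`
since if `i ∈ F'` is adjacent to `j ∈ R` it is adjacent to `ρ j ≠ j` too. Contradiction to `C.pos`.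
(One can avoid components: choose a minimal connected set of fixed nodes adjacent to `A` and to `B`, or a
shortest path.)
`exists_adj`: `E` = number of ordered pairs `(i, j)`, `i ~ j`. `C.pos` for `∑ α_i`: `2 n - E > 0`; connectivity:
`E ≥ 2 (n - 1)`; `E` is even, so `E = 2 (n - 1)`. If all `ρ i ≠ i`: `m = 3`: the orbits of `ρ` on `Fin n`
and on the pairs have three elements (`r_iter_eq`), so `3 ∣ n`, `3 ∣ 2 (n - 1)`, contradiction. `m = 2`: if no
`i ~ ρ i` the group generated by `ρ` and `(i, j) ↦ (j, i)` acts freely on the pairs, so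
`4 ∣ 2 (n - 1)`, and `2 ∣ n`, contradiction.
-/

set_option autoImplicit false
open Matrix

namespace Pool.Agent.H86.UM

open Pool.Agent.H75.UL

variable {n : ℕ} {C : SLC n} (D : Dg C)

section GRaux

omit D

private theorem GR_np {i j : Fin n} (h : i ≠ j) : C.A i j ≤ 0 := by
  rcases C.off i j h with h | h <;> rw [h]
  norm_num

private theorem GR_eq {i j : Fin n} (h : i ≠ j) (h2 : C.A i j ≠ 0) : C.A i j = -1 :=
  (C.off i j h).resolve_left h2

private theorem GR_ip (i j : Fin n) : C.ip (C.simple i).1 (C.simple j).1 = C.A i j := by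
  rw [SLC.simple_val, SLC.simple_val, C.ip_single]

private theorem GR_pos (v : Fin n → ℤ) (h : ht v ≠ 0) : 0 < C.ip v v := by
  apply C.ip_pos
  rintro rfl
  apply h
  simp [ht]

end GRaux

private theorem GR_m2 (hm : D.m = 2) (x : Fin n) : D.ρ (D.ρ x) = x := by
  have h : D.ρ ^ D.m = 1 := pow_orderOf_eq_one _
  rw [hm, pow_two] at h
  exact Equiv.congr_fun h x

private theorem GR_m3 (hm : D.m = 3) (x : Fin n) : D.ρ (D.ρ (D.ρ x)) = x := by
  have h : D.ρ ^ D.m = 1 := pow_orderOf_eq_one _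
  rw [hm, pow_succ, pow_two] at h
  exact Equiv.congr_fun h x

theorem orb_adj (i j : Fin n) (hij : ¬ D.ρ.SameCycle i j) (hA : C.A i j ≠ 0)
    (hi : D.ρ i ≠ i) (hj : D.ρ j ≠ j) (l : ℕ) (h0 : 0 < l) (hl : l < D.m) :
    C.A ((D.ρ ^ l) i) j = 0 := by
  by_contra hne
  have hpow : ∀ k : ℕ, (D.ρ ^ k) i ≠ j := fun k h => hij ⟨k, by rw [zpow_natCast]; exact h⟩
  have hne1 : C.A ((D.ρ ^ l) i) j = -1 := GR_eq (hpow l) hne
  have hA1 : C.A i j = -1 := GR_eq (hpow 0) hA
  rcases D.m_cases with hm | hm | hm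
  · omega
  · have hl1 : l = 1 := by omega
    subst hl1
    rw [pow_one] at hne1
    have e := GR_m2 D hm
    have a3 : C.A (D.ρ i) (D.ρ j) = -1 := by rw [D.hρ, hA1]
    have a4 : C.A i (D.ρ j) = -1 := by rw [← D.hρ, e, hne1]
    have a5 : C.A i (D.ρ i) ≤ 0 := GR_np (Ne.symm hi)
    have a6 : C.A j (D.ρ j) ≤ 0 := GR_np (Ne.symm hj)
    have hp := GR_pos (C := C) ((C.simple i).1 + (C.simple (D.ρ i)).1 + (C.simple j).1 +
      (C.simple (D.ρ j)).1) (by simp only [ht_add, C.ht_simple]; norm_num)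
    simp only [C.ip_add_left, C.ip_add_right, GR_ip, C.diag] at hp
    rw [C.symm (D.ρ i) i, C.symm j i, C.symm j (D.ρ i), C.symm (D.ρ j) i, C.symm (D.ρ j) (D.ρ i),
      C.symm (D.ρ j) j] at hp
    linarith
  · have e := GR_m3 D hm
    have hi2 : D.ρ (D.ρ i) ≠ i := by
      intro h3
      apply hi
      have h4 := e i
      rw [h3] at h4
      exact h4
    have hj2 : D.ρ (D.ρ j) ≠ j := by
      intro h3
      apply hj
      have h4 := e j
      rw [h3] at h4
      exact h4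
    have b1 : C.A (D.ρ i) (D.ρ j) = -1 := by rw [D.hρ, hA1]
    have b2 : C.A (D.ρ (D.ρ i)) (D.ρ (D.ρ j)) = -1 := by rw [D.hρ, b1]
    have c1 : C.A (D.ρ (D.ρ i)) (D.ρ j) = C.A (D.ρ i) j := D.hρ _ _
    have c2 : C.A i (D.ρ (D.ρ j)) = C.A (D.ρ i) j := by
      rw [← D.hρ i, e]
    have d1 : C.A i (D.ρ j) = C.A (D.ρ (D.ρ i)) j := by
      rw [← D.hρ i, ← D.hρ (D.ρ i), e]
    have d2 : C.A (D.ρ i) (D.ρ (D.ρ j)) = C.A (D.ρ (D.ρ i)) j := by
      rw [D.hρ, d1]
    have n1 : C.A (D.ρ i) j ≤ 0 := GR_np (hpow 1)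
    have n2 : C.A (D.ρ (D.ρ i)) j ≤ 0 := GR_np (hpow 2)
    have hs : C.A (D.ρ i) j + C.A (D.ρ (D.ρ i)) j ≤ -1 := by
      have hl' : l = 1 ∨ l = 2 := by omega
      rcases hl' with rfl | rfl
      · rw [pow_one] at hne1
        linarith
      · have h5 : (D.ρ ^ 2) i = D.ρ (D.ρ i) := by rw [pow_two]; rfl
        rw [h5] at hne1
        linarith
    have a1 : C.A i (D.ρ i) ≤ 0 := GR_np (Ne.symm hi)
    have a2 : C.A i (D.ρ (D.ρ i)) ≤ 0 := GR_np (Ne.symm hi2)
    have a3 : C.A (D.ρ i) (D.ρ (D.ρ i)) ≤ 0 := by rw [D.hρ]; exact a1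
    have a4 : C.A j (D.ρ j) ≤ 0 := GR_np (Ne.symm hj)
    have a5 : C.A j (D.ρ (D.ρ j)) ≤ 0 := GR_np (Ne.symm hj2)
    have a6 : C.A (D.ρ j) (D.ρ (D.ρ j)) ≤ 0 := by rw [D.hρ]; exact a4
    have hp := GR_pos (C := C) ((C.simple i).1 + (C.simple (D.ρ i)).1 +
      (C.simple (D.ρ (D.ρ i))).1 + (C.simple j).1 +
      (C.simple (D.ρ j)).1 + (C.simple (D.ρ (D.ρ j))).1)
      (by simp only [ht_add, C.ht_simple]; norm_num)
    simp only [C.ip_add_left, C.ip_add_right, GR_ip, C.diag] at hp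
    rw [C.symm (D.ρ i) i, C.symm (D.ρ (D.ρ i)) i, C.symm (D.ρ (D.ρ i)) (D.ρ i),
      C.symm j i, C.symm j (D.ρ i), C.symm j (D.ρ (D.ρ i)),
      C.symm (D.ρ j) i, C.symm (D.ρ j) (D.ρ i), C.symm (D.ρ j) (D.ρ (D.ρ i)),
      C.symm (D.ρ (D.ρ j)) i, C.symm (D.ρ (D.ρ j)) (D.ρ i),
      C.symm (D.ρ (D.ρ j)) (D.ρ (D.ρ i)), C.symm (D.ρ j) j, C.symm (D.ρ (D.ρ j)) j,
      C.symm (D.ρ (D.ρ j)) (D.ρ j), b1, b2, c1, c2, d1, d2, hA1] at hp
    linarith

theorem adj_nbr (i j : Fin n) (hi : C.A i (D.ρ i) = -1) (hij : ¬ D.ρ.SameCycle i j)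
    (hA : C.A i j ≠ 0) :
    D.ρ j ≠ j ∧ C.A j (D.ρ j) ≠ -1 ∧ C.A j i = -1 ∧ C.A (D.ρ j) i = 0 := by
  have hir : D.ρ i ≠ i := by
    intro h
    rw [h, C.diag] at hi
    norm_num at hi
  have hm : D.m = 2 := by
    have h1 : D.r (C.simple i) ≠ C.simple i := by
      rw [D.r_simple]
      intro h3
      exact hir (C.simple_injective h3)
    rcases D.ip_r _ h1 with h2 | h2
    · rw [D.r_simple, GR_ip, hi] at h2
      norm_num at h2
    · exact h2.1
  have e := GR_m2 D hm
  have hne : i ≠ j := by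
    rintro rfl
    exact hij (Equiv.Perm.SameCycle.refl _ _)
  have hA1 : C.A i j = -1 := GR_eq hne hA
  have hne2 : D.ρ i ≠ j := by
    intro h
    exact hij ⟨1, by rw [zpow_one]; exact h⟩
  have k1 : D.ρ j ≠ j := by
    intro hj
    have h1 : C.A (D.ρ i) j = -1 := by
      rw [← hj, D.hρ, hA1]
    have hp := GR_pos (C := C) ((C.simple i).1 + (C.simple (D.ρ i)).1 + (C.simple j).1)
      (by simp only [ht_add, C.ht_simple]; norm_num)
    simp only [C.ip_add_left, C.ip_add_right, GR_ip, C.diag] at hp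
    rw [C.symm (D.ρ i) i, C.symm j i, C.symm j (D.ρ i)] at hp
    linarith
  have h2 : C.A (D.ρ i) (D.ρ j) = -1 := by rw [D.hρ, hA1]
  have h3 : C.A i (D.ρ j) = C.A (D.ρ i) j := by rw [← D.hρ i, e]
  refine ⟨k1, ?_, ?_, ?_⟩
  · intro hj
    have n1 : C.A (D.ρ i) j ≤ 0 := GR_np hne2
    have hp := GR_pos (C := C) ((C.simple i).1 + (C.simple (D.ρ i)).1 + (C.simple j).1 +
      (C.simple (D.ρ j)).1) (by simp only [ht_add, C.ht_simple]; norm_num)
    simp only [C.ip_add_left, C.ip_add_right, GR_ip, C.diag] at hp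
    rw [C.symm (D.ρ i) i, C.symm j i, C.symm j (D.ρ i), C.symm (D.ρ j) i, C.symm (D.ρ j) (D.ρ i),
      C.symm (D.ρ j) j, h3] at hp
    linarith
  · rw [C.symm, hA1]
  · by_contra h4
    have h5 : D.ρ j ≠ i := by
      intro h6
      exact hne2 (by rw [← h6, e])
    have h6 : C.A (D.ρ j) i = -1 := GR_eq h5 h4
    have h7 : C.A (D.ρ i) j = -1 := by rw [← h3, C.symm, h6]
    have hp := GR_pos (C := C) ((C.simple i).1 + (C.simple (D.ρ i)).1 + (C.simple j).1)
      (by simp only [ht_add, C.ht_simple]; norm_num)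
    simp only [C.ip_add_left, C.ip_add_right, GR_ip, C.diag] at hp
    rw [C.symm (D.ρ i) i, C.symm j i, C.symm j (D.ρ i)] at hp
    linarith

theorem nonfixed_conn (A : Finset (Fin n)) (hA : ∀ i ∈ A, D.ρ i ≠ i) (hAr : ∀ i ∈ A, D.ρ i ∈ A)
    (hne : A.Nonempty) (j : Fin n) (hj : D.ρ j ≠ j) (hjA : j ∉ A) :
    ∃ i ∈ A, ∃ j' ∉ A, D.ρ j' ≠ j' ∧ C.A i j' ≠ 0 := by
  classical
  by_contra hcon
  push Not at hcon
  -- good fixed nodes
  let Good : Fin n → Prop := fun y => D.ρ y = y ∧ ∃ w : Fin n → ℤ, C.ip w w ≤ 4 ∧ (∀ t, 0 ≤ w t) ∧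
    (∀ t, D.ρ t = t → w t = 0 ∨ 2 ≤ w t) ∧ (∀ t, D.ρ t ≠ t → t ∉ A → w t = 0) ∧ 2 ≤ w y
  have key : ∀ (w : Fin n → ℤ) (y z : Fin n), (∀ t, 0 ≤ w t) → 2 ≤ w y → w z = 0 → y ≠ z →
      C.A y z ≠ 0 → C.ip w (Pi.single z 1) ≤ -2 := by
    intro w y z h0 hy hz hyz hA1
    rw [C.ip_comm, C.ip_single_left]
    have h1 : (C.A *ᵥ w) z = ∑ t, C.A z t * w t := rfl
    have h2 : ∀ t ∈ Finset.univ, 0 ≤ -(C.A z t * w t) := by
      intro t _
      by_cases htz : t = z
      · rw [htz, hz]; simp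
      · have := GR_np (C := C) (Ne.symm htz)
        have h3 := h0 t
        nlinarith
    have h3 := Finset.single_le_sum h2 (Finset.mem_univ y)
    rw [Finset.sum_neg_distrib, ← h1, C.symm z y, GR_eq hyz hA1] at h3
    linarith
  have hstart : ∀ a ∈ A, ∀ y, D.ρ y = y → C.A a y ≠ 0 → Good y := by
    intro a ha y hy hay
    refine ⟨hy, (C.simple a).1 + (C.simple (D.ρ a)).1 + (C.simple y).1 + (C.simple y).1,
      ?_, ?_, ?_, ?_, ?_⟩
    · have hne1 : a ≠ y := by
        rintro rfl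
        exact hA _ ha hy
      have h1 : C.A a y = -1 := GR_eq hne1 hay
      have h2 : C.A (D.ρ a) y = -1 := by rw [← hy, D.hρ, h1]
      have h3 : C.A a (D.ρ a) ≤ 0 := GR_np (Ne.symm (hA a ha))
      simp only [C.ip_add_left, C.ip_add_right, GR_ip, C.diag]
      rw [C.symm (D.ρ a) a, C.symm y a, C.symm y (D.ρ a)]
      linarith
    · intro t
      simp only [SLC.simple_val, Pi.add_apply, Pi.single_apply]
      split_ifs <;> norm_num
    · intro t ht
      have h1 : t ≠ a := by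
        rintro rfl
        exact hA _ ha ht
      have h2 : t ≠ D.ρ a := by
        rintro rfl
        exact hA _ ha (D.ρ.injective ht)
      simp only [SLC.simple_val, Pi.add_apply, Pi.single_apply, if_neg h1, if_neg h2]
      split_ifs
      · right; norm_num
      · left; norm_num
    · intro t ht htA
      have h1 : t ≠ a := by
        rintro rfl
        exact htA ha
      have h2 : t ≠ D.ρ a := by
        rintro rfl
        exact htA (hAr _ ha)
      have h3 : t ≠ y := by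
        rintro rfl
        exact ht hy
      simp only [SLC.simple_val, Pi.add_apply, Pi.single_apply, if_neg h1, if_neg h2, if_neg h3]
      norm_num
    · have h1 : 0 ≤ (Pi.single a 1 : Fin n → ℤ) y := by
        rw [Pi.single_apply]; split_ifs <;> norm_num
      have h2 : 0 ≤ (Pi.single (D.ρ a) 1 : Fin n → ℤ) y := by
        rw [Pi.single_apply]; split_ifs <;> norm_num
      simp only [SLC.simple_val, Pi.add_apply, Pi.single_eq_same]
      linarith
  have hstep : ∀ y z, Good y → D.ρ z = z → C.A y z ≠ 0 → Good z := by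
    rintro y z ⟨hy, w, w1, w2, w3, w4, w5⟩ hz hyz
    rcases w3 z hz with h0 | h0
    · have hne1 : y ≠ z := by
        rintro rfl
        omega
      have h1 := key w y z w2 w5 h0 hne1 hyz
      refine ⟨hz, w + ((Pi.single z 1 : Fin n → ℤ) + Pi.single z 1), ?_, ?_, ?_, ?_, ?_⟩
      · have h2 : C.ip (Pi.single z 1) (Pi.single z 1) = 2 := by rw [C.ip_single, C.diag]
        simp only [C.ip_add_left, C.ip_add_right, h2]
        rw [C.ip_comm (Pi.single z 1) w]
        linarith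
      · intro t
        have := w2 t
        simp only [Pi.add_apply, Pi.single_apply]
        split_ifs <;> linarith
      · intro t ht
        simp only [Pi.add_apply, Pi.single_apply]
        have := w3 t ht
        split_ifs
        · right
          have := w2 t
          linarith
        · simpa using this
      · intro t ht htA
        have h3 : t ≠ z := by
          rintro rfl
          exact ht hz
        simp only [Pi.add_apply, Pi.single_apply, if_neg h3, w4 t ht htA]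
        norm_num
      · simp only [Pi.add_apply, Pi.single_eq_same, h0]
        norm_num
    · exact ⟨hz, w, w1, w2, w3, w4, h0⟩
  have hend : ∀ y b, Good y → D.ρ b ≠ b → b ∉ A → C.A y b ≠ 0 → False := by
    rintro y b ⟨hy, w, w1, w2, w3, w4, w5⟩ hb hbA hyb
    have hne1 : y ≠ b := by
      rintro rfl
      exact hb hy
    have hbA2 : D.ρ b ∉ A := by
      intro h
      apply hbA
      rcases D.m_cases with hm | hm | hm
      · exfalso
        have h1 : D.ρ ^ D.m = 1 := pow_orderOf_eq_one _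
        rw [hm, pow_one] at h1
        rw [h1] at hb
        exact hb rfl
      · have := hAr _ h
        rwa [GR_m2 D hm] at this
      · have := hAr _ (hAr _ h)
        rwa [GR_m3 D hm] at this
    have hb2 : D.ρ (D.ρ b) ≠ D.ρ b := fun h => hb (D.ρ.injective h)
    have h1 := key w y b w2 w5 (w4 b hb hbA) hne1 hyb
    have hyb2 : C.A y (D.ρ b) ≠ 0 := by
      rw [← hy, D.hρ]
      exact hyb
    have hne2 : y ≠ D.ρ b := by
      intro h
      apply hb2
      rw [← h]
      exact hy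
    have h2 := key w y (D.ρ b) w2 w5 (w4 _ hb2 hbA2) hne2 hyb2
    have h3 : C.A b (D.ρ b) ≤ 0 := GR_np (Ne.symm hb)
    have hpos : 0 < C.ip (w + (Pi.single b 1 + Pi.single (D.ρ b) 1))
        (w + (Pi.single b 1 + Pi.single (D.ρ b) 1)) := by
      apply C.ip_pos
      intro h4
      have h5 := congrFun h4 y
      have h6 : 0 ≤ (Pi.single b 1 : Fin n → ℤ) y := by
        rw [Pi.single_apply]; split_ifs <;> norm_num
      have h7 : 0 ≤ (Pi.single (D.ρ b) 1 : Fin n → ℤ) y := by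
        rw [Pi.single_apply]; split_ifs <;> norm_num
      simp only [Pi.add_apply, Pi.zero_apply] at h5
      linarith
    simp only [C.ip_add_left, C.ip_add_right, C.ip_single, C.diag] at hpos
    rw [C.ip_comm (Pi.single b 1) w, C.ip_comm (Pi.single (D.ρ b) 1) w, C.symm (D.ρ b) b] at hpos
    linarith
  obtain ⟨i, hi, j', hj', hij'⟩ := C.conn (A ∪ Finset.univ.filter Good)
    (hne.mono Finset.subset_union_left) (by
      intro h
      have h1 : j ∈ A ∪ Finset.univ.filter Good := by rw [h]; exact Finset.mem_univ j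
      rw [Finset.mem_union, Finset.mem_filter] at h1
      rcases h1 with h1 | ⟨-, h1⟩
      · exact hjA h1
      · exact hj h1.1)
  rw [Finset.mem_union, Finset.mem_filter] at hi hj'
  push Not at hj'
  obtain ⟨hj1, hj2⟩ := hj'
  have hj2' : ¬ Good j' := hj2 (Finset.mem_univ _)
  rcases hi with hi | ⟨-, hi⟩
  · by_cases hf : D.ρ j' = j'
    · exact hj2' (hstart i hi j' hf hij')
    · exact hij' (hcon i hi j' hj1 hf)
  · by_cases hf : D.ρ j' = j'
    · exact hj2' (hstep i j' hi hf hij')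
    · exact hend i j' hi hf hj1 hij'

theorem exists_adj (hn : 0 < n) (h : ∀ i, D.ρ i ≠ i) : ∃ i, C.A i (D.ρ i) = -1 := by
  classical
  by_contra hcon
  push Not at hcon
  let G : SimpleGraph (Fin n) :=
    { Adj := fun i j => i ≠ j ∧ C.A i j ≠ 0
      symm := ⟨fun i j h => ⟨h.1.symm, by rw [C.symm]; exact h.2⟩⟩
      loopless := ⟨fun i h => h.1 rfl⟩ }
  have hconn : G.Connected := by
    haveI : Nonempty (Fin n) := ⟨⟨0, hn⟩⟩
    refine SimpleGraph.Connected.mk ?_
    intro u v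
    by_contra huv
    obtain ⟨i, hi, j, hj, hij⟩ := C.conn (Finset.univ.filter fun w => G.Reachable u w)
      ⟨u, by simp⟩ (by
        intro h
        have h1 : v ∈ Finset.univ.filter fun w => G.Reachable u w := by
          rw [h]; exact Finset.mem_univ v
        exact huv (Finset.mem_filter.1 h1).2)
    rw [Finset.mem_filter] at hi hj
    apply hj
    refine ⟨Finset.mem_univ _, hi.2.trans ?_⟩
    by_cases hij2 : i = j
    · subst hij2
      exact absurd ⟨Finset.mem_univ _, hi.2⟩ hj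
    · exact SimpleGraph.Adj.reachable ⟨hij2, hij⟩
  have h1 : n ≤ G.edgeFinset.card + 1 := by
    have := hconn.card_vert_le_card_edgeSet_add_one
    rw [Nat.card_fin, Nat.card_eq_fintype_card, ← SimpleGraph.edgeFinset_card] at this
    exact this
  have h2 : G.edgeFinset.card < n := by
    have hp := C.ip_pos (fun _ => 1) (by
      intro h0
      have := congrFun h0 ⟨0, hn⟩
      simp at this)
    have e1 : C.ip (fun _ => 1) (fun _ => 1) = ∑ i, ∑ j, C.A i j := by
      simp [SLC.ip, dotProduct, Matrix.mulVec]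
    have e2 : ∀ i, ∑ j, C.A i j = 2 - (G.degree i : ℤ) := by
      intro i
      have e3 : ∀ j, C.A i j = (if i = j then 2 else 0) - (if G.Adj i j then 1 else 0) := by
        intro j
        by_cases hij : i = j
        · subst hij
          simp [C.diag]
        · rcases C.off i j hij with h | h
          · have : ¬ G.Adj i j := fun h5 => h5.2 h
            rw [if_neg hij, if_neg this, h]
            norm_num
          · have : G.Adj i j := ⟨hij, by rw [h]; norm_num⟩
            rw [if_neg hij, if_pos this, h]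
            norm_num
      rw [Finset.sum_congr rfl fun j _ => e3 j, Finset.sum_sub_distrib, Finset.sum_ite_eq,
        if_pos (Finset.mem_univ i), Finset.sum_boole, ← SimpleGraph.card_neighborFinset_eq_degree,
        SimpleGraph.neighborFinset_eq_filter]
    rw [e1, Finset.sum_congr rfl fun i _ => e2 i, Finset.sum_sub_distrib] at hp
    have e4 : (∑ i, (G.degree i : ℤ)) = 2 * (G.edgeFinset.card : ℤ) := by
      have := G.sum_degrees_eq_twice_card_edges
      exact_mod_cast this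
    rw [e4] at hp
    simp at hp
    omega
  have hE : G.edgeFinset.card + 1 = n := by omega
  -- the action on the edges
  have hadj : ∀ a b, G.Adj a b → G.Adj (D.ρ a) (D.ρ b) := by
    intro a b h
    exact ⟨fun h3 => h.1 (D.ρ.injective h3), by rw [D.hρ]; exact h.2⟩
  have hadj2 : ∀ a b, G.Adj (D.ρ a) (D.ρ b) → G.Adj a b := by
    intro a b h
    refine ⟨fun h3 => h.1 (by rw [h3]), ?_⟩
    have := h.2
    rwa [D.hρ] at this
  let R : G ≃g G := ⟨D.ρ, fun {a b} => ⟨hadj2 a b, hadj a b⟩⟩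
  let σ : Equiv.Perm G.edgeSet := R.mapEdgeSet
  have hσ : ∀ (e : G.edgeSet), (σ e : Sym2 (Fin n)) = Sym2.map D.ρ e.1 := fun e => rfl
  have hσk : ∀ (k : ℕ) (e : G.edgeSet), (((σ ^ k) e : G.edgeSet) : Sym2 (Fin n)) =
      Sym2.map (D.ρ ^ k : Equiv.Perm (Fin n)) e.1 := by
    intro k
    induction k with
    | zero => intro e; simp
    | succ k ih =>
      intro e
      rw [pow_succ', Equiv.Perm.mul_apply, hσ, ih, Sym2.map_map, pow_succ', Equiv.Perm.coe_mul]
  have hσm : σ ^ D.m = 1 := by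
    ext1 e
    apply Subtype.ext
    rw [hσk, Dg.m, pow_orderOf_eq_one]
    simp
  have hρm : D.ρ ^ D.m = 1 := pow_orderOf_eq_one _
  -- no fixed edge
  have hfix : ∀ e : G.edgeSet, σ e ≠ e := by
    rintro ⟨e, he⟩ h3
    have h4 : Sym2.map D.ρ e = e := by
      have := congrArg Subtype.val h3
      rwa [hσ] at this
    induction e using Sym2.ind with
    | _ a b =>
      rw [Sym2.map_mk, Sym2.eq_iff] at h4
      rcases h4 with ⟨h4, -⟩ | ⟨h4, h5⟩
      · exact h a h4
      · have h6 : G.Adj a b := he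
        apply hcon a
        rw [h4]
        exact GR_eq h6.1 h6.2
  have hsupp1 : σ.supportᶜ = ∅ := by
    rw [Finset.compl_eq_empty_iff, Finset.eq_univ_iff_forall]
    intro e
    rw [Equiv.Perm.mem_support]
    exact hfix e
  have hsupp2 : D.ρ.supportᶜ = ∅ := by
    rw [Finset.compl_eq_empty_iff, Finset.eq_univ_iff_forall]
    intro e
    rw [Equiv.Perm.mem_support]
    exact h e
  have hcardE : Fintype.card G.edgeSet = G.edgeFinset.card := (SimpleGraph.edgeFinset_card).symm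
  have fin : ∀ p : ℕ, p.Prime → D.m = p → False := by
    intro p hp hmp
    haveI : Fact p.Prime := ⟨hp⟩
    have m1 := Equiv.Perm.card_compl_support_modEq (p := p) (n := 1) (σ := σ)
      (by rw [pow_one, ← hmp]; exact hσm)
    have m2 := Equiv.Perm.card_compl_support_modEq (p := p) (n := 1) (σ := D.ρ)
      (by rw [pow_one, ← hmp]; exact hρm)
    rw [hsupp1, Finset.card_empty, hcardE] at m1
    rw [hsupp2, Finset.card_empty, Fintype.card_fin] at m2
    have d1 : p ∣ G.edgeFinset.card := (Nat.modEq_zero_iff_dvd).1 m1.symm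
    have d2 : p ∣ n := (Nat.modEq_zero_iff_dvd).1 m2.symm
    have d3 : p ∣ 1 := by
      have : p ∣ G.edgeFinset.card + 1 := by rw [hE]; exact d2
      exact (Nat.dvd_add_right d1).1 this
    exact hp.one_lt.ne' (Nat.dvd_one.1 d3)
  rcases D.m_cases with hm | hm | hm
  · rw [hm, pow_one] at hρm
    exact h ⟨0, hn⟩ (by rw [hρm]; rfl)
  · exact fin 2 Nat.prime_two hm
  · exact fin 3 Nat.prime_three hm

end Pool.Agent.H86.UM
end

section
/- module Pool.Agent.H75.UL.P1 -/
/-!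
# Project UL (MP_978914_al), module P1

The fixed chamber is unique (from helper86's module).
-/

set_option autoImplicit false
open Matrix
universe u
namespace Pool.Agent.H75.UL

namespace SLC
variable {n : ℕ} (C : SLC n)

theorem unique_chamber (θ : C.Root) (hθ : C.IsHighest θ) {k : Type*} [Field k] [Infinite k]
    {H : Type*} [Group H] (S : StSys C k H) (L : Type*) [Field L] [IsAlgClosed L]
    (Ψ : H →* GL C.Idx L) (hΨ : ∀ β t, Ψ (S.x β t) ∈ C.Gad L) (hne : Ψ (S.x θ 1) ≠ 1) :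
    ∃ g ∈ C.Gad L, (∀ u ∈ S.U 1, g⁻¹ * Ψ u * g ∈ (C.adS L).U 1) ∧
      ∀ g' ∈ C.Gad L, (∀ u ∈ S.U 1,
        C.Fil 0 ((g'⁻¹ * Ψ u * g' : GL C.Idx L) : Matrix C.Idx C.Idx L)) →
        C.Fil 0 ((g⁻¹ * g' : GL C.Idx L) : Matrix C.Idx C.Idx L) :=
  C.unique_chamber' θ hθ S L Ψ hΨ hne

end SLC

end Pool.Agent.H75.UL
end

section
/- module Pool.Agent.H75.US.S3a -/
/-!
# Project US, module S3a: gluing endomorphisms along an ascending union (Mathlib only)

Let `G i j : B i →* B j`, `i ≤ j`, be the iterated maps (`Nat.leRecOn` as in H75/UE/L0.lean, or avoid them: by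
induction on `d` the maps satisfy `f (i + d) (g^d x) = f i x`, `s (i + d) (g^d x) = g^d (s i x)`). Choose for each
`a` a pair `(i, x)` with `f i x = a` and put `S a = f i (s i x)`. It is independent of the choice: if
`f i x = f j y` with `i ≤ j` then `f j (G i j x) = f j y`, so `G i j x = y`, and `f j (s j y) =
f j (G i j (s i x)) = f i (s i x)`. It is multiplicative, since two elements are in the image of a common
`f j`.
-/

set_option autoImplicit false
universe u
namespace Pool.Agent.H75.UL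

/-- The iterated maps. -/
private def S3a_G (B : ℕ → Type*) [∀ i, Group (B i)] (g : ∀ i, B i →* B (i + 1)) (i : ℕ) :
    ∀ d : ℕ, B i →* B (i + d)
  | 0 => MonoidHom.id _
  | d + 1 => (g (i + d)).comp (S3a_G B g i d)

private theorem S3a_f {A : Type*} [Group A] (B : ℕ → Type*) [∀ i, Group (B i)]
    (f : ∀ i, B i →* A) (g : ∀ i, B i →* B (i + 1)) (hg : ∀ i x, f (i + 1) (g i x) = f i x)
    (i : ℕ) (d : ℕ) (x : B i) : f (i + d) (S3a_G B g i d x) = f i x := by
  induction d with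
  | zero => rfl
  | succ d ih => exact (hg (i + d) (S3a_G B g i d x)).trans ih

private theorem S3a_s (B : ℕ → Type*) [∀ i, Group (B i)] (g : ∀ i, B i →* B (i + 1))
    (s : ∀ i, B i →* B i) (hsg : ∀ i x, s (i + 1) (g i x) = g i (s i x))
    (i : ℕ) (d : ℕ) (x : B i) : s (i + d) (S3a_G B g i d x) = S3a_G B g i d (s i x) := by
  induction d with
  | zero => rfl
  | succ d ih =>
    refine (hsg (i + d) (S3a_G B g i d x)).trans ?_
    exact congrArg (g (i + d)) ih

private theorem S3a_T (B : ℕ → Type*) [∀ i, Group (B i)] (g : ∀ i, B i →* B (i + 1))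
    (T : ∀ i, Subgroup (B i)) (hT : ∀ i, ∀ x ∈ T i, g i x ∈ T (i + 1))
    (i : ℕ) (d : ℕ) (x : B i) (hx : x ∈ T i) : S3a_G B g i d x ∈ T (i + d) := by
  induction d with
  | zero => exact hx
  | succ d ih => exact hT (i + d) _ ih

theorem exists_glue {A : Type*} [Group A] (B : ℕ → Type*) [∀ i, Group (B i)]
    (f : ∀ i, B i →* A) (hf : ∀ i, Function.Injective (f i)) (g : ∀ i, B i →* B (i + 1))
    (hg : ∀ i x, f (i + 1) (g i x) = f i x) (hs : ∀ a, ∃ i x, f i x = a)
    (s : ∀ i, B i →* B i) (hsg : ∀ i x, s (i + 1) (g i x) = g i (s i x)) :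
    ∃ S : A →* A, ∀ i x, S (f i x) = f i (s i x) := by
  have key1 : ∀ i d (x : B i) (y : B (i + d)), f i x = f (i + d) y →
      f i (s i x) = f (i + d) (s (i + d) y) := by
    intro i d x y hxy
    rw [← S3a_f B f g hg i d x] at hxy
    rw [← hf (i + d) hxy, S3a_s B g s hsg, S3a_f B f g hg]
  have key : ∀ i j (x : B i) (y : B j), f i x = f j y → f i (s i x) = f j (s j y) := by
    intro i j x y hxy
    rcases le_total i j with h | h
    · obtain ⟨d, rfl⟩ := Nat.exists_eq_add_of_le h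
      exact key1 i d x y hxy
    · obtain ⟨d, rfl⟩ := Nat.exists_eq_add_of_le h
      exact (key1 j d y x hxy.symm).symm
  have common : ∀ a b : A, ∃ (k : ℕ) (x y : B k), f k x = a ∧ f k y = b := by
    intro a b
    obtain ⟨i, x, rfl⟩ := hs a
    obtain ⟨j, y, rfl⟩ := hs b
    rcases le_total i j with h | h
    · obtain ⟨d, rfl⟩ := Nat.exists_eq_add_of_le h
      exact ⟨i + d, S3a_G B g i d x, y, S3a_f B f g hg i d x, rfl⟩
    · obtain ⟨d, rfl⟩ := Nat.exists_eq_add_of_le h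
      exact ⟨j + d, x, S3a_G B g j d y, rfl, S3a_f B f g hg j d y⟩
  choose idx val hval using hs
  have hS : ∀ i x, f (idx (f i x)) (s (idx (f i x)) (val (f i x))) = f i (s i x) :=
    fun i x => key _ _ _ _ (hval (f i x))
  refine ⟨MonoidHom.mk' (fun a => f (idx a) (s (idx a) (val a))) ?_, hS⟩
  intro a b
  obtain ⟨k, x, y, rfl, rfl⟩ := common a b
  change f (idx (f k x * f k y)) (s (idx (f k x * f k y)) (val (f k x * f k y))) =
    f (idx (f k x)) (s (idx (f k x)) (val (f k x))) *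
      f (idx (f k y)) (s (idx (f k y)) (val (f k y)))
  rw [← map_mul, hS, hS, hS, map_mul, map_mul]

/-- The union of an ascending chain of images contains a closure if it contains the generators. -/
theorem union_closure {A : Type*} [Group A] (B : ℕ → Type*) [∀ i, Group (B i)]
    (f : ∀ i, B i →* A) (g : ∀ i, B i →* B (i + 1)) (hg : ∀ i x, f (i + 1) (g i x) = f i x)
    (T : ∀ i, Subgroup (B i)) (hT : ∀ i, ∀ x ∈ T i, g i x ∈ T (i + 1)) (Y : Set A)
    (hY : ∀ y ∈ Y, ∃ i, ∃ x ∈ T i, f i x = y) (a : A) (ha : a ∈ Subgroup.closure Y) :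
    ∃ i, ∃ x ∈ T i, f i x = a := by
  induction ha using Subgroup.closure_induction with
  | mem y hy => exact hY y hy
  | one => exact ⟨0, 1, one_mem _, map_one _⟩
  | mul a b _ _ ha hb =>
    obtain ⟨i, x, hx, rfl⟩ := ha
    obtain ⟨j, y, hy, rfl⟩ := hb
    rcases le_total i j with h | h
    · obtain ⟨d, rfl⟩ := Nat.exists_eq_add_of_le h
      refine ⟨i + d, S3a_G B g i d x * y, mul_mem (S3a_T B g T hT i d x hx) hy, ?_⟩
      rw [map_mul, S3a_f B f g hg]
    · obtain ⟨d, rfl⟩ := Nat.exists_eq_add_of_le h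
      refine ⟨j + d, x * S3a_G B g j d y, mul_mem hx (S3a_T B g T hT j d y hy), ?_⟩
      rw [map_mul, S3a_f B f g hg]
  | inv a _ ha =>
    obtain ⟨i, x, hx, rfl⟩ := ha
    exact ⟨i, x⁻¹, inv_mem hx, map_inv _ _⟩

/-- A group which is the ascending union of subgroups `H i`, each isomorphic to `B i`, compatibly with
injective maps `f i : B i →* A` whose images cover `A`, is isomorphic to `A`. -/
theorem exists_union_equiv {G A : Type*} [Group G] [Group A] (H : ℕ → Subgroup G)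
    (hH : ∀ i, H i ≤ H (i + 1)) (hG : ∀ g : G, ∃ i, g ∈ H i) (B : ℕ → Type*)
    [∀ i, Group (B i)] (e : ∀ i, H i ≃* B i) (g : ∀ i, B i →* B (i + 1))
    (hc : ∀ i (x : H i), e (i + 1) (Subgroup.inclusion (hH i) x) = g i (e i x))
    (f : ∀ i, B i →* A) (hf : ∀ i, Function.Injective (f i))
    (hg : ∀ i x, f (i + 1) (g i x) = f i x) (hs : ∀ a, ∃ i x, f i x = a) :
    Nonempty (G ≃* A) := by
  have hmono : Monotone H := monotone_nat_of_le_succ hH
  have key1 : ∀ (i d : ℕ) (x : G) (h : x ∈ H i) (h' : x ∈ H (i + d)),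
      f (i + d) (e (i + d) ⟨x, h'⟩) = f i (e i ⟨x, h⟩) := by
    intro i d x h
    induction d with
    | zero => intro h'; rfl
    | succ d ih =>
      intro h'
      have h'' : x ∈ H (i + d) := hmono (Nat.le_add_right i d) h
      have h1 := hc (i + d) ⟨x, h''⟩
      have h2 : Subgroup.inclusion (hH (i + d)) ⟨x, h''⟩ = ⟨x, h'⟩ := rfl
      rw [h2] at h1
      have h3 : f (i + d + 1) (e (i + d + 1) ⟨x, h'⟩) = f (i + d) (e (i + d) ⟨x, h''⟩) := by
        rw [h1, hg]
      exact h3.trans (ih h'')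
  have key : ∀ (i j : ℕ) (x : G) (h : x ∈ H i) (h' : x ∈ H j),
      f j (e j ⟨x, h'⟩) = f i (e i ⟨x, h⟩) := by
    intro i j x h h'
    rcases le_total i j with hij | hij
    · obtain ⟨d, rfl⟩ := Nat.exists_eq_add_of_le hij
      exact key1 i d x h h'
    · obtain ⟨d, rfl⟩ := Nat.exists_eq_add_of_le hij
      exact (key1 j d x h' h).symm
  choose idx hidx using hG
  let φ : G → A := fun x => f (idx x) (e (idx x) ⟨x, hidx x⟩)
  have hφ : ∀ i (x : G) (h : x ∈ H i), φ x = f i (e i ⟨x, h⟩) := fun i x h =>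
    key i (idx x) x h (hidx x)
  have hmul : ∀ x y, φ (x * y) = φ x * φ y := by
    intro x y
    have hx : x ∈ H (max (idx x) (idx y)) := hmono (le_max_left _ _) (hidx x)
    have hy : y ∈ H (max (idx x) (idx y)) := hmono (le_max_right _ _) (hidx y)
    rw [hφ _ (x * y) (mul_mem hx hy), hφ _ x hx, hφ _ y hy, ← map_mul, ← map_mul]
    rfl
  have hinj : Function.Injective φ := by
    intro x y hxy
    have hx : x ∈ H (max (idx x) (idx y)) := hmono (le_max_left _ _) (hidx x)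
    have hy : y ∈ H (max (idx x) (idx y)) := hmono (le_max_right _ _) (hidx y)
    rw [hφ _ x hx, hφ _ y hy] at hxy
    have h1 := (e _).injective (hf _ hxy)
    exact congrArg Subtype.val h1
  have hsurj : Function.Surjective φ := by
    intro a
    obtain ⟨i, b, rfl⟩ := hs a
    refine ⟨((e i).symm b : H i), ?_⟩
    rw [hφ i _ ((e i).symm b).2]
    congr 1
    exact (e i).apply_symm_apply b
  exact ⟨MulEquiv.ofBijective (MonoidHom.mk' φ hmul) ⟨hinj, hsurj⟩⟩

end Pool.Agent.H75.UL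
end

section
/- module Pool.Agent.H86.UM.ZG -/
/-!
# Project UM, Suzuki-Ree groups, module ZG: the unipotent group of type `²G₂`

`G2s`: root groups `A` (short), `B` (long), `P` (`A + B`), `Q` (`2 A + B`), `R` (`3 A + B`),
`S` (`3 A + 2 B`) in characteristic `3`, with `σ`; `P, R` and `Q, S` are exchanged by `σ` up to signs `e₁`, `e₂`, which
are `-1`: apply `σ` to `AP` and compare with `BR`: `e₁ = e₂`; apply `σ` to `AB`: the `P`-coordinate
gives `e₁ = -1` (`1 ≠ -1` in characteristic `3`).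
`P, Q, R, S` commute, `Q, S` are central, and
`P v Q w R z S y * (A a * B b) = A a * B b * (P v Q (w - a v) R z S (y - b z))`,
`B b * A a = A a * B b * P (-a b) Q (-a ^ 2 b) R (-a ^ 3 b) S (-a ^ 3 b ^ 2)` (characteristic `3`).
An element `A t B u P v Q w R z S y` is fixed by `σ` iff `u = θ t`, `z = -θ v - t ^ 3 θ t`,
`y = -θ w - t ^ 3 (θ t) ^ 2`. The product of two fixed elements has the coordinates
`(t + t', v + v' - t' θ t, w + w' - t' v - t' ^ 2 θ t)`.
`ker`: commutators: `(t, 0, 0)`, `(t', 0, 0)`: second coordinate `t θ t' - t' θ t`; `(0, v, *)`,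
`(t', 0, 0)`: `(0, 0, -t' v)`. So all `(0, 0, w)` are commutators (in `⁅X, X⁆`), and for `(0, v, w)` use `norm_module`
for the additive group generated by the `t θ t' - t' θ t`.

`G2_rigid`: as `B2_rigid` (ZB.lean), with one more layer. `F1` is a homomorphism into an abelian group, so it kills the
commutator subgroup, which contains all `(0, v, w)`: `F1 t v w = f t`. `f ≠ 0`: otherwise by `h2` `F2` is a
homomorphism into an abelian group, `F2 0 v w = 0`, and then by `h3` `F3` restricted to ... : if `f = 0` then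
`F3 (product) = F3 + F3`, so `(F2, F3)` is an injective homomorphism into an abelian group, contradiction.
`semi_sq` gives `f t = c φ t` and `κ' = φ (s ^ 2)` for `κ = s ^ 2`. `F2 0 0 w = 0` (`(0, 0, w)` is a commutator of
elements of the form `(0, v, 0)`, `(t', 0, 0)`, and `F2` restricted to the `(0, v, w)`, times .. : use `h2` for
the two products `(0, v, 0) (t', 0, 0)`, `(t', 0, 0) (0, v, 0)`, `f 0 = 0`). `g v = F2 0 v 0 = F2 0 v w` is additive,
`g (t θ t' - t' θ t) = f t θ' (f t') - f t' θ' (f t)`; scaling `t, t'` with `λ`: `g (λ θ λ z) = φ λ θ' (φ λ) g z`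
for all `z`. `g ≠ 0`: otherwise the commutator of `(0, v, 0)` and `(t', 0, 0)` (use `h3`): `F3 0 0 (-t' v) = 0`,
contradiction to `hinj`. `norm_rigid`: `φ θ = θ' φ`, `g v = c θ' c φ v`. `F3 0 0 (-t' v) = - f t' * g v`, so
`F3 0 0 w = c ^ 2 θ' c φ w`. `ζ₂ t = F2 t 0 0` is additive with `ζ₂ (s ^ 2 t) = φ (s ^ 2 θ (s ^ 2)) ζ₂ t`:
`zeta3a`: `0`. So `F2 t v w = g v`. Then `F3 0 v 0 =: η v`: additive, `η (κ θ κ v) = κ' ^ 2 θ' κ' η v` for
`κ = s ^ 2`; and `F3` of the products `(t, 0, 0) (t', 0, 0)`: put `ζ₃ t = F3 t 0 0`; comparing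
`(t,0,0)(t',0,0) = (t + t', 0, 0) (0, -t' θ t, 0) (0, 0, *)`; get `ζ₃ (t + t') + η (-t' θ t) = ζ₃ t + ζ₃ t'` (the
terms with `φ` cancel as the map `(t, v, w) ↦ (c φ t, c θ' c φ v, c ^ 2 θ' c φ w)` is a homomorphism; better:
consider the difference `F3 t v w - c ^ 2 θ' c φ w =: δ(t, v, w)`, which is a homomorphism of the group into `K`, so
it vanishes on the commutator subgroup, i.e. on all `(0, v, w)`; so `δ = ζ₃ t` is additive,
`ζ₃ (s ^ 2 t) = φ (s ^ 4 θ (s ^ 2)) ζ₃ t`, `zeta3b`).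
-/

set_option autoImplicit false

namespace Pool.Agent.H86.UM

/-- Root groups of type `G₂` in characteristic `3` with `σ`. -/
structure G2s {k : Type*} [Field k] (θ : k ≃+* k) {G : Type*} [Group G] (A B P Q R S : k → G)
    (σ : G →* G) : Prop where
  chr : CharP k 3
  hθ : ∀ t, θ (θ t) = t ^ 3
  hA : ∀ s t, A (s + t) = A s * A t
  hB : ∀ s t, B (s + t) = B s * B t
  hP : ∀ s t, P (s + t) = P s * P t
  hQ : ∀ s t, Q (s + t) = Q s * Q t
  hR : ∀ s t, R (s + t) = R s * R t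
  hS : ∀ s t, S (s + t) = S s * S t
  AB : ∀ t u, A t * B u =
    P (t * u) * Q (-(t ^ 2 * u)) * R (t ^ 3 * u) * S (-(t ^ 3 * u ^ 2)) * (B u * A t)
  AP : ∀ t v, A t * P v = Q (t * v) * (P v * A t)
  BR : ∀ u z, B u * R z = S (u * z) * (R z * B u)
  AQ : ∀ t w, A t * Q w = Q w * A t
  AR : ∀ t z, A t * R z = R z * A t
  AS : ∀ t y, A t * S y = S y * A t
  BP : ∀ u v, B u * P v = P v * B u
  BQ : ∀ u w, B u * Q w = Q w * B u
  BS : ∀ u y, B u * S y = S y * B u
  PQ : ∀ v w, P v * Q w = Q w * P v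
  PR : ∀ v z, P v * R z = R z * P v
  PS : ∀ v y, P v * S y = S y * P v
  QR : ∀ w z, Q w * R z = R z * Q w
  QS : ∀ w y, Q w * S y = S y * Q w
  RS : ∀ z y, R z * S y = S y * R z
  uniq : ∀ t u v w z y, A t * B u * P v * Q w * R z * S y = 1 →
    t = 0 ∧ u = 0 ∧ v = 0 ∧ w = 0 ∧ z = 0 ∧ y = 0
  σA : ∀ t, σ (A t) = B (θ t)
  σB : ∀ u, σ (B u) = A (θ.symm u)
  σP : ∃ e : k, (e = 1 ∨ e = -1) ∧ (∀ v, σ (P v) = R (e * θ v)) ∧ ∀ z, σ (R z) = P (e * θ.symm z)
  σQ : ∃ e : k, (e = 1 ∨ e = -1) ∧ (∀ w, σ (Q w) = S (e * θ w)) ∧ ∀ y, σ (S y) = Q (e * θ.symm y)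

/-- The elements fixed by `σ`. -/
def G2x {k : Type*} [Field k] (θ : k ≃+* k) {G : Type*} [Group G] (A B P Q R S : k → G)
    (t v w : k) : G :=
  A t * B (θ t) * P v * Q w * R (-θ v - t ^ 3 * θ t) * S (-θ w - t ^ 3 * θ t ^ 2)

/-- The product of the four central-series root elements. -/
private def ZG_n {k G : Type*} [Group G] (P Q R S : k → G) (v w z y : k) : G :=
  P v * Q w * R z * S y

private theorem ZG_zero {k G : Type*} [Field k] [Group G] {P : k → G}
    (h : ∀ s t, P (s + t) = P s * P t) : P 0 = 1 := by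
  have : P 0 = P 0 * P 0 := by simpa using h 0 0
  exact left_eq_mul.mp this

private theorem ZG_neg {k G : Type*} [Field k] [Group G] {P : k → G}
    (h : ∀ s t, P (s + t) = P s * P t) (t : k) : P (-t) = (P t)⁻¹ := by
  rw [eq_inv_iff_mul_eq_one, ← h, neg_add_cancel, ZG_zero h]

section
variable {k : Type*} [Field k] {θ : k ≃+* k} {G : Type*} [Group G] {A B P Q R S : k → G}
  {σ : G →* G} (h : G2s θ A B P Q R S σ)

include h

private theorem ZG_mul (v w z y v' w' z' y' : k) :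
    ZG_n P Q R S v w z y * ZG_n P Q R S v' w' z' y' =
      ZG_n P Q R S (v + v') (w + w') (z + z') (y + y') := by
  have c1 : Commute (S y) (P v' * Q w' * R z') :=
    ((Commute.mul_right (h.PS v' y).symm (h.QS w' y).symm).mul_right (h.RS z' y).symm)
  have c2 : Commute (R z) (P v' * Q w') :=
    (Commute.mul_right (h.PR v' z).symm (h.QR w' z).symm)
  have c3 : Commute (Q w) (P v') := (h.PQ v' w).symm
  unfold ZG_n
  rw [c1.mul_mul_mul_comm, c2.mul_mul_mul_comm, c3.mul_mul_mul_comm, ← h.hP, ← h.hQ, ← h.hR,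
    ← h.hS]

private theorem ZG_n_A (v w z y a : k) :
    ZG_n P Q R S v w z y * A a = A a * ZG_n P Q R S v (w - a * v) z y := by
  have e1 : P v * A a = A a * (P v * Q (-(a * v))) := by
    rw [← mul_assoc, h.AP, ZG_neg h.hQ]
    have : Q (a * v) * (P v * A a) * (Q (a * v))⁻¹ = P v * A a := by
      rw [mul_inv_eq_iff_eq_mul]
      rw [mul_assoc (P v), h.AQ, ← mul_assoc (P v), h.PQ, mul_assoc]
    exact this.symm
  have e2 : ZG_n P Q R S v w z y * A a = P v * A a * (Q w * R z * S y) := by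
    unfold ZG_n
    have a1 : S y * A a = A a * S y := (h.AS a y).symm
    have a2 : R z * A a = A a * R z := (h.AR a z).symm
    have a3 : Q w * A a = A a * Q w := (h.AQ a w).symm
    calc P v * Q w * R z * S y * A a = P v * Q w * R z * (S y * A a) := by group
      _ = P v * Q w * (R z * A a) * S y := by rw [a1]; group
      _ = P v * (Q w * A a) * R z * S y := by rw [a2]; group
      _ = P v * A a * (Q w * R z * S y) := by rw [a3]; group
  rw [e2, e1]
  unfold ZG_n
  have e3 : Q (w - a * v) = Q (-(a * v)) * Q w := by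
    rw [← h.hQ]
    congr 1
    ring
  rw [e3]
  group

private theorem ZG_n_B (v w z y b : k) :
    ZG_n P Q R S v w z y * B b = B b * ZG_n P Q R S v w z (y - b * z) := by
  have e1 : R z * B b = B b * (R z * S (-(b * z))) := by
    rw [← mul_assoc, h.BR, ZG_neg h.hS]
    have : S (b * z) * (R z * B b) * (S (b * z))⁻¹ = R z * B b := by
      rw [mul_inv_eq_iff_eq_mul]
      rw [mul_assoc (R z), h.BS, ← mul_assoc (R z), h.RS, mul_assoc]
    exact this.symm
  unfold ZG_n
  have a1 : S y * B b = B b * S y := (h.BS b y).symm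
  have a2 : Q w * B b = B b * Q w := (h.BQ b w).symm
  have a3 : P v * B b = B b * P v := (h.BP b v).symm
  have e3 : S (y - b * z) = S (-(b * z)) * S y := by
    rw [← h.hS]
    congr 1
    ring
  calc P v * Q w * R z * S y * B b = P v * Q w * R z * (S y * B b) := by group
    _ = P v * Q w * (R z * B b) * S y := by rw [a1]; group
    _ = P v * (Q w * B b) * (R z * S (-(b * z))) * S y := by rw [e1]; group
    _ = P v * B b * Q w * (R z * S (-(b * z))) * S y := by rw [a2]; group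
    _ = B b * P v * Q w * (R z * S (-(b * z))) * S y := by rw [a3]
    _ = B b * (P v * Q w * R z * S (y - b * z)) := by rw [e3]; group

private theorem ZG_n_inv (v w z y : k) :
    ZG_n P Q R S (-v) (-w) (-z) (-y) * ZG_n P Q R S v w z y = 1 := by
  rw [ZG_mul h]
  simp [ZG_n, ZG_zero h.hP, ZG_zero h.hQ, ZG_zero h.hR, ZG_zero h.hS]

private theorem ZG_three : (3 : k) = 0 := by
  have := h.chr
  have := CharP.cast_eq_zero k 3
  exact_mod_cast this

private theorem ZG_BA (a b : k) : B b * A a =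
    A a * B b * ZG_n P Q R S (-(a * b)) (-(a ^ 2 * b)) (-(a ^ 3 * b)) (-(a ^ 3 * b ^ 2)) := by
  have e0 := h.AB a b
  have e1 : A a * B b = ZG_n P Q R S (a * b) (-(a ^ 2 * b)) (a ^ 3 * b) (-(a ^ 3 * b ^ 2)) *
      (B b * A a) := e0
  have e2 : B b * A a = ZG_n P Q R S (-(a * b)) (a ^ 2 * b) (-(a ^ 3 * b)) (a ^ 3 * b ^ 2) *
      (A a * B b) := by
    rw [e1, ← mul_assoc]
    have := ZG_n_inv h (a * b) (-(a ^ 2 * b)) (a ^ 3 * b) (-(a ^ 3 * b ^ 2))
    rw [neg_neg, neg_neg] at this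
    rw [this, one_mul]
  rw [e2, ← mul_assoc, ZG_n_A h, mul_assoc, ZG_n_B h, ← mul_assoc]
  congr 2
  · linear_combination (a ^ 2 * b) * ZG_three h
  · linear_combination (a ^ 3 * b ^ 2) * ZG_three h

/-- The general product formula. -/
private theorem ZG_prod (t u v w z y t' u' v' w' z' y' : k) :
    A t * B u * ZG_n P Q R S v w z y * (A t' * B u' * ZG_n P Q R S v' w' z' y') =
      A (t + t') * B (u + u') * ZG_n P Q R S (v + v' - t' * u) (w + w' - t' * v - t' ^ 2 * u)
        (z + z' - t' ^ 3 * u) (y + y' - t' ^ 3 * u ^ 2 - u' * (z - t' ^ 3 * u)) := by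
  calc A t * B u * ZG_n P Q R S v w z y * (A t' * B u' * ZG_n P Q R S v' w' z' y')
      = A t * B u * (ZG_n P Q R S v w z y * A t') * B u' * ZG_n P Q R S v' w' z' y' := by group
    _ = A t * (B u * A t') * ZG_n P Q R S v (w - t' * v) z y * B u' *
          ZG_n P Q R S v' w' z' y' := by rw [ZG_n_A h]; group
    _ = A t * A t' * B u * (ZG_n P Q R S (-(t' * u)) (-(t' ^ 2 * u)) (-(t' ^ 3 * u))
          (-(t' ^ 3 * u ^ 2)) * ZG_n P Q R S v (w - t' * v) z y) * B u' *
          ZG_n P Q R S v' w' z' y' := by rw [ZG_BA h]; group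
    _ = A t * A t' * B u * (ZG_n P Q R S (-(t' * u) + v) (-(t' ^ 2 * u) + (w - t' * v))
          (-(t' ^ 3 * u) + z) (-(t' ^ 3 * u ^ 2) + y) * B u') *
          ZG_n P Q R S v' w' z' y' := by rw [ZG_mul h]; group
    _ = A t * A t' * (B u * B u') * (ZG_n P Q R S (-(t' * u) + v) (-(t' ^ 2 * u) + (w - t' * v))
          (-(t' ^ 3 * u) + z) (-(t' ^ 3 * u ^ 2) + y - u' * (-(t' ^ 3 * u) + z)) *
          ZG_n P Q R S v' w' z' y') := by rw [ZG_n_B h]; group
    _ = _ := by
      rw [ZG_mul h, ← h.hA, ← h.hB]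
      congr 2 <;> ring

private theorem ZG_assoc (t u v w z y : k) :
    A t * B u * P v * Q w * R z * S y = A t * B u * ZG_n P Q R S v w z y := by
  unfold ZG_n
  group

theorem G2_coord (t u v w z y t' u' v' w' z' y' : k)
    (e : A t * B u * P v * Q w * R z * S y = A t' * B u' * P v' * Q w' * R z' * S y') :
    t = t' ∧ u = u' ∧ v = v' ∧ w = w' ∧ z = z' ∧ y = y' := by
  rw [ZG_assoc h, ZG_assoc h] at e
  have e1 : A (t - t') * B (u - u') * ZG_n P Q R S (v - v') (w - w') (z - z')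
      (y - y' + u' * (z - z')) = 1 := by
    have a1 : A (t - t') = (A t')⁻¹ * A t := by
      rw [← ZG_neg h.hA, ← h.hA]; congr 1; ring
    have a2 : B (u - u') = B u * (B u')⁻¹ := by
      rw [← ZG_neg h.hB, ← h.hB]; congr 1; ring
    have a3 : (B u')⁻¹ * ZG_n P Q R S (v - v') (w - w') (z - z') (y - y' + u' * (z - z')) =
        ZG_n P Q R S (v - v') (w - w') (z - z') (y - y') * (B u')⁻¹ := by
      rw [inv_mul_eq_iff_eq_mul, ← mul_assoc, eq_mul_inv_iff_mul_eq, ZG_n_B h]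
      congr 2
      ring
    have a4 : ZG_n P Q R S (v - v') (w - w') (z - z') (y - y') =
        ZG_n P Q R S v w z y * (ZG_n P Q R S v' w' z' y')⁻¹ := by
      rw [eq_mul_inv_iff_mul_eq, ZG_mul h]
      congr 1 <;> ring
    rw [a1, a2]
    calc (A t')⁻¹ * A t * (B u * (B u')⁻¹) *
          ZG_n P Q R S (v - v') (w - w') (z - z') (y - y' + u' * (z - z'))
        = (A t')⁻¹ * A t * B u * ((B u')⁻¹ *
          ZG_n P Q R S (v - v') (w - w') (z - z') (y - y' + u' * (z - z'))) := by group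
      _ = (A t')⁻¹ * (A t * B u * ZG_n P Q R S v w z y) * (ZG_n P Q R S v' w' z' y')⁻¹ *
          (B u')⁻¹ := by rw [a3, a4]; group
      _ = 1 := by rw [e]; group
  rw [← ZG_assoc h] at e1
  obtain ⟨h1, h2, h3, h4, h5, h6⟩ := h.uniq _ _ _ _ _ _ e1
  refine ⟨sub_eq_zero.mp h1, sub_eq_zero.mp h2, sub_eq_zero.mp h3, sub_eq_zero.mp h4,
    sub_eq_zero.mp h5, ?_⟩
  rw [h5, mul_zero, add_zero] at h6
  exact sub_eq_zero.mp h6

theorem G2_sign : (∀ v, σ (P v) = R (-θ v)) ∧ (∀ z, σ (R z) = P (-θ.symm z)) ∧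
    (∀ w, σ (Q w) = S (-θ w)) ∧ ∀ y, σ (S y) = Q (-θ.symm y) := by
  obtain ⟨e₁, he₁, hP1, hR1⟩ := h.σP
  obtain ⟨e₂, he₂, hQ1, hS1⟩ := h.σQ
  have hA0 := ZG_zero h.hA
  have hB0 := ZG_zero h.hB
  have hP0 := ZG_zero h.hP
  have hQ0 := ZG_zero h.hQ
  have hR0 := ZG_zero h.hR
  have hS0 := ZG_zero h.hS
  -- e₁ = e₂
  have k1 : e₁ = e₂ := by
    have x1 := congrArg σ (h.AP 1 1)
    rw [map_mul, map_mul, map_mul, h.σA, hP1, hQ1] at x1
    simp only [map_one, mul_one] at x1
    have x2 := h.BR 1 e₁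
    rw [one_mul] at x2
    rw [x2] at x1
    have x3 : S e₁ = S e₂ := mul_right_cancel x1
    have x4 := G2_coord h 0 0 0 0 0 e₁ 0 0 0 0 0 e₂
      (by rw [hA0, hB0, hP0, hQ0, hR0, x3])
    exact x4.2.2.2.2.2
  -- e₁ = -1
  have k2 : e₁ = -1 := by
    have x1 := congrArg σ (h.AB 1 1)
    have y1 : σ (A 1 * B 1) = B 1 * A 1 := by
      rw [map_mul, h.σA, h.σB, map_one, map_one]
    have y2 : σ (P (1 * 1) * Q (-(1 ^ 2 * 1)) * R (1 ^ 3 * 1) * S (-(1 ^ 3 * 1 ^ 2)) *
        (B 1 * A 1)) = R e₁ * S (-e₂) * P e₁ * Q (-e₂) * (A 1 * B 1) := by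
      simp only [map_mul, h.σA, h.σB, hP1, hQ1, hR1, hS1, one_pow, map_one, mul_one, map_neg,
        mul_neg]
    rw [y1, y2, ZG_BA h] at x1
    have y3 : R e₁ * S (-e₂) * P e₁ * Q (-e₂) = ZG_n P Q R S e₁ (-e₂) e₁ (-e₂) := by
      unfold ZG_n
      have c1 : R e₁ * S (-e₂) * P e₁ = P e₁ * (R e₁ * S (-e₂)) := by
        rw [mul_assoc, ← h.PS, ← mul_assoc, ← h.PR, mul_assoc]
      have c2 : R e₁ * S (-e₂) * Q (-e₂) = Q (-e₂) * (R e₁ * S (-e₂)) := by
        rw [mul_assoc, ← h.QS, ← mul_assoc, ← h.QR, mul_assoc]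
      rw [c1, mul_assoc, c2]
      group
    rw [y3, ← mul_assoc (ZG_n P Q R S e₁ (-e₂) e₁ (-e₂)), ZG_n_A h, mul_assoc (A 1) (ZG_n _ _ _ _ _ _ _ _),
      ZG_n_B h, ← mul_assoc (A 1) (B 1), ← ZG_assoc h, ← ZG_assoc h] at x1
    have x2 := G2_coord h _ _ _ _ _ _ _ _ _ _ _ _ x1
    have x3 := x2.2.2.1
    rw [← x3]
    ring
  subst k1
  subst k2
  refine ⟨fun v => by rw [hP1]; congr 1; ring, fun z => by rw [hR1]; congr 1; ring,
    fun w => by rw [hQ1]; congr 1; ring, fun y => by rw [hS1]; congr 1; ring⟩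

/-- the elements `A t * B u * P v * Q w * R z * S y` form a subgroup -/
theorem G2_mul_form (t u v w z y t' u' v' w' z' y' : k) : ∃ z'' y'',
    A t * B u * P v * Q w * R z * S y * (A t' * B u' * P v' * Q w' * R z' * S y') =
      A (t + t') * B (u + u') * P (v + v' - t' * u) * Q (w + w' - t' * v - t' ^ 2 * u) *
        R z'' * S y'' := by
  refine ⟨z + z' - t' ^ 3 * u, y + y' - t' ^ 3 * u ^ 2 - u' * (z - t' ^ 3 * u), ?_⟩
  rw [ZG_assoc h, ZG_assoc h, ZG_assoc h, ZG_prod h]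

private theorem ZG_sym (t : k) : θ.symm (t ^ 3) = θ t := by
  rw [← h.hθ, RingEquiv.symm_apply_apply]

private theorem ZG_sigma (t u v w z y : k) :
    σ (A t * B u * ZG_n P Q R S v w z y) = A (θ.symm u) * B (θ t) *
      ZG_n P Q R S (-(θ.symm u * θ t) - θ.symm z) (-(θ.symm u ^ 2 * θ t) - θ.symm y)
        (-(θ.symm u ^ 3 * θ t) - θ v) (-(θ.symm u ^ 3 * θ t ^ 2) - θ w) := by
  obtain ⟨sP, sR, sQ, sS⟩ := G2_sign h
  have e1 : σ (ZG_n P Q R S v w z y) = ZG_n P Q R S (-θ.symm z) (-θ.symm y) (-θ v) (-θ w) := by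
    unfold ZG_n
    rw [map_mul, map_mul, map_mul, sP, sQ, sR, sS]
    have c1 : R (-θ v) * S (-θ w) * P (-θ.symm z) = P (-θ.symm z) * (R (-θ v) * S (-θ w)) := by
      rw [mul_assoc, ← h.PS, ← mul_assoc, ← h.PR, mul_assoc]
    have c2 : R (-θ v) * S (-θ w) * Q (-θ.symm y) = Q (-θ.symm y) * (R (-θ v) * S (-θ w)) := by
      rw [mul_assoc, ← h.QS, ← mul_assoc, ← h.QR, mul_assoc]
    rw [c1, mul_assoc, c2]
    group
  rw [map_mul, map_mul, h.σA, h.σB, e1, ZG_BA h, mul_assoc (A _ * B _), ZG_mul h]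
  congr 2 <;> ring

theorem G2_fix (t v w : k) : σ (G2x θ A B P Q R S t v w) = G2x θ A B P Q R S t v w := by
  unfold G2x
  rw [ZG_assoc h, ZG_sigma h]
  have e1 : θ.symm (θ t) = t := θ.symm_apply_apply t
  congr 2
  · rw [e1]
  · simp only [map_sub, map_neg, map_mul, ZG_sym h, e1, RingEquiv.symm_apply_apply]
    ring
  · simp only [map_sub, map_neg, map_mul, map_pow, ZG_sym h, e1, RingEquiv.symm_apply_apply]
    ring
  · rw [e1]
    ring
  · rw [e1]
    ring

theorem G2_form (t u v w z y : k)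
    (e : σ (A t * B u * P v * Q w * R z * S y) = A t * B u * P v * Q w * R z * S y) :
    A t * B u * P v * Q w * R z * S y = G2x θ A B P Q R S t v w := by
  rw [ZG_assoc h, ZG_sigma h, ← ZG_assoc h, ← ZG_assoc h] at e
  obtain ⟨e1, e2, e3, e4, e5, e6⟩ := G2_coord h _ _ _ _ _ _ _ _ _ _ _ _ e
  unfold G2x
  rw [e1] at e5 e6
  rw [← e2, ← e5, ← e6]
  congr 2
  · congr 1
    ring
  · ring

theorem G2_mul (t v w t' v' w' : k) : G2x θ A B P Q R S t v w * G2x θ A B P Q R S t' v' w' =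
    G2x θ A B P Q R S (t + t') (v + v' - t' * θ t) (w + w' - t' * v - t' ^ 2 * θ t) := by
  obtain ⟨z'', y'', he⟩ := G2_mul_form h t (θ t) v w (-θ v - t ^ 3 * θ t)
    (-θ w - t ^ 3 * θ t ^ 2) t' (θ t') v' w' (-θ v' - t' ^ 3 * θ t') (-θ w' - t' ^ 3 * θ t' ^ 2)
  have h1 : G2x θ A B P Q R S t v w * G2x θ A B P Q R S t' v' w' = _ := he
  rw [h1]
  apply G2_form h
  rw [← h1, map_mul, G2_fix h, G2_fix h]

end

section
variable {k : Type*} [Field k] [CharP k 3] [Infinite k] (θ : k ≃+* k)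
  (hθ : ∀ t, θ (θ t) = t ^ 3)

include hθ

private theorem ZG_exists : ∃ t, t * θ 1 - 1 * θ t ≠ 0 := by
  by_contra hne
  push Not at hne
  have h1 : ∀ t, θ t = t := by
    intro t
    have := hne t
    rw [map_one, mul_one, one_mul] at this
    exact (sub_eq_zero.mp this).symm
  have h2 : ∀ t : k, t ^ 3 = t := by
    intro t
    rw [← hθ, h1, h1]
  have h3 : (Polynomial.X ^ 3 - Polynomial.X : Polynomial k) = 0 := by
    apply Polynomial.funext
    intro r
    simp [h2 r]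
  have h4 : (Polynomial.X ^ 3 - Polynomial.X : Polynomial k).coeff 3 = 1 := by
    simp [Polynomial.coeff_X]
  rw [h3] at h4
  simp at h4

private theorem ZG_gen :
    AddSubgroup.closure {z : k | ∃ t t', z = t * θ t' - t' * θ t} = ⊤ := by
  have : Fact (Nat.Prime 3) := ⟨Nat.prime_three⟩
  apply norm_module 3 θ hθ
  · intro s v hv
    induction hv using AddSubgroup.closure_induction with
    | mem x hx =>
      obtain ⟨t, t', rfl⟩ := hx
      apply AddSubgroup.subset_closure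
      refine ⟨s * t, s * t', ?_⟩
      rw [map_mul, map_mul]
      ring
    | zero => rw [mul_zero]; exact zero_mem _
    | add x y _ _ hx hy => rw [mul_add]; exact add_mem hx hy
    | neg x _ hx => rw [mul_neg]; exact neg_mem hx
  · obtain ⟨t, ht⟩ := ZG_exists θ hθ
    exact ⟨_, AddSubgroup.subset_closure ⟨t, 1, rfl⟩, ht⟩

private theorem ZG_hom {K : Type*} [AddCommGroup K] (H : k → k → k → K)
    (hH : ∀ t v w t' v' w', H (t + t') (v + v' - t' * θ t) (w + w' - t' * v - t' ^ 2 * θ t) =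
      H t v w + H t' v' w') :
    (∀ t v w, H t v w = H t 0 0) ∧ ∀ a b, H (a + b) 0 0 = H a 0 0 + H b 0 0 := by
  have e1 : ∀ t v w v' w', H t (v + v') (w + w') = H t v w + H 0 v' w' := by
    intro t v w v' w'
    have := hH t v w 0 v' w'
    simpa using this
  have e2 : ∀ w, H 0 0 w = 0 := by
    intro w
    have x1 := hH 0 (-w) 0 1 0 0
    have x2 := hH 1 0 0 0 (-w) 0
    simp only [map_zero, mul_zero, zero_add, add_zero, sub_zero, one_mul, zero_mul, mul_zero,
      zero_sub, neg_neg, ne_eq, OfNat.ofNat_ne_zero, not_false_eq_true, zero_pow] at x1 x2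
    have x3 := e1 1 (-w) 0 0 w
    rw [add_zero, zero_add] at x3
    rw [x3, x2, add_comm (H 0 (-w) 0)] at x1
    exact left_eq_add.mp x1.symm
  have e3 : ∀ t v w, H t v w = H t 0 0 + H 0 v 0 := by
    intro t v w
    have x1 := e1 t 0 0 v w
    have x2 := e1 0 v 0 0 w
    rw [zero_add, zero_add] at x1
    rw [add_zero, zero_add] at x2
    rw [x1, x2, e2, add_zero]
  have e4 : ∀ a b, H 0 (a + b) 0 = H 0 a 0 + H 0 b 0 := by
    intro a b
    have := e1 0 a 0 b 0
    rwa [add_zero] at this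
  -- m as an additive map
  have hm : ∀ v, H 0 v 0 = 0 := by
    let m : k →+ K := AddMonoidHom.mk' (fun v => H 0 v 0) e4
    have hker : (m.ker : AddSubgroup k) = ⊤ := by
      rw [eq_top_iff, ← ZG_gen θ hθ, AddSubgroup.closure_le]
      rintro z ⟨t, t', rfl⟩
      rw [SetLike.mem_coe, AddMonoidHom.mem_ker]
      have x1 := hH t 0 0 t' 0 0
      have x2 := hH t' 0 0 t 0 0
      rw [e3] at x1 x2
      rw [add_comm t' t] at x2
      have x3 : m (0 + 0 - t' * θ t) = m (0 + 0 - t * θ t') := by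
        have : H (t + t') 0 0 + m (0 + 0 - t' * θ t) = H (t + t') 0 0 + m (0 + 0 - t * θ t') := by
          rw [show m (0 + 0 - t' * θ t) = H 0 (0 + 0 - t' * θ t) 0 from rfl,
            show m (0 + 0 - t * θ t') = H 0 (0 + 0 - t * θ t') 0 from rfl, x1, x2, add_comm]
        exact add_left_cancel this
      rw [map_sub, sub_eq_zero]
      simp only [add_zero, zero_sub, map_neg, neg_inj] at x3
      exact x3.symm
    intro v
    have : v ∈ m.ker := by rw [hker]; trivial
    exact this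
  refine ⟨fun t v w => by rw [e3, hm, add_zero], fun a b => ?_⟩
  have x1 := hH a 0 0 b 0 0
  rw [e3, hm, add_zero] at x1
  exact x1

end

section
variable {k : Type*} [Field k] {θ : k ≃+* k} {G : Type*} [Group G] {A B P Q R S : k → G}
  {σ : G →* G} (h : G2s θ A B P Q R S σ)

include h

theorem G2_ker [Infinite k] (X : Subgroup G)
    (hX : ∀ x, x ∈ X ↔ ∃ t v w, x = G2x θ A B P Q R S t v w)
    (v w : k) : G2x θ A B P Q R S 0 v w ∈ ⁅X, X⁆ := by
  have : CharP k 3 := h.chr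
  have hθ := h.hθ
  have hmul := G2_mul h
  have hone : G2x θ A B P Q R S 0 0 0 = 1 := by
    unfold G2x
    simp [ZG_zero h.hA, ZG_zero h.hB, ZG_zero h.hP, ZG_zero h.hQ, ZG_zero h.hR, ZG_zero h.hS]
  set F := G2x θ A B P Q R S with hF
  have hmem : ∀ t v w, F t v w ∈ X := fun t v w => (hX _).mpr ⟨t, v, w, rfl⟩
  have hcomm : ∀ x ∈ X, ∀ y ∈ X, (y * x)⁻¹ * (x * y) ∈ ⁅X, X⁆ := by
    intro x hx y hy
    have := Subgroup.commutator_mem_commutator (inv_mem hx) (inv_mem hy)
    rw [commutatorElement_def] at this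
    convert this using 1
    group
  -- products with the kernel
  have hk : ∀ t v w v' w', F t (v + v') (w + w') = F t v w * F 0 v' w' := by
    intro t v w v' w'
    rw [hmul]
    simp
  have h0 : ∀ w, F 0 0 w ∈ ⁅X, X⁆ := by
    intro w
    have x1 := hcomm (F 0 (-w) 0) (hmem _ _ _) (F 1 0 0) (hmem _ _ _)
    rw [hmul, hmul] at x1
    have e1 : F (1 + 0) (0 + -w - 0 * θ 1) (0 + 0 - 0 * 0 - 0 ^ 2 * θ 1) = F 1 (-w) 0 := by
      simp
    have e2 : F (0 + 1) (-w + 0 - 1 * θ 0) (0 + 0 - 1 * -w - 1 ^ 2 * θ 0) = F 1 (-w) w := by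
      simp
    have e3 : F 1 (-w) w = F 1 (-w) 0 * F 0 0 w := by
      rw [← hk]
      simp
    rw [e1, e2, e3, inv_mul_cancel_left] at x1
    exact x1
  have hadd : ∀ a b, F 0 (a + b) 0 = F 0 a 0 * F 0 b 0 := by
    intro a b
    have := hk 0 a 0 b 0
    rwa [add_zero] at this
  let M : AddSubgroup k :=
    { carrier := {v | F 0 v 0 ∈ ⁅X, X⁆}
      add_mem' := by
        intro a b ha hb
        rw [Set.mem_setOf_eq] at ha hb ⊢
        rw [hadd]
        exact mul_mem ha hb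
      zero_mem' := by
        rw [Set.mem_setOf_eq, hone]
        exact one_mem _
      neg_mem' := by
        intro a ha
        rw [Set.mem_setOf_eq] at ha ⊢
        have : F 0 (-a) 0 = (F 0 a 0)⁻¹ := by
          rw [eq_inv_iff_mul_eq_one, ← hadd, neg_add_cancel, hone]
        rw [this]
        exact inv_mem ha }
  have hM : M = ⊤ := by
    rw [eq_top_iff, ← ZG_gen θ hθ, AddSubgroup.closure_le]
    rintro z ⟨t, t', rfl⟩
    change F 0 (t * θ t' - t' * θ t) 0 ∈ ⁅X, X⁆
    have x1 := hcomm (F t 0 0) (hmem _ _ _) (F t' 0 0) (hmem _ _ _)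
    rw [hmul, hmul, add_comm t' t] at x1
    have e3 : F (t + t') (0 + 0 - t' * θ t) (0 + 0 - t' * 0 - t' ^ 2 * θ t) =
        F (t + t') (0 + 0 - t * θ t') (0 + 0 - t * 0 - t ^ 2 * θ t') *
          F 0 (t * θ t' - t' * θ t) (t ^ 2 * θ t' - t' ^ 2 * θ t) := by
      rw [← hk]
      congr 1 <;> ring
    rw [e3, inv_mul_cancel_left] at x1
    have e4 := hk 0 (t * θ t' - t' * θ t) 0 0 (t ^ 2 * θ t' - t' ^ 2 * θ t)
    rw [add_zero, zero_add] at e4
    rw [e4] at x1
    exact (Subgroup.mul_mem_cancel_right _ (h0 _)).mp x1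
  have hv : F 0 v 0 ∈ ⁅X, X⁆ := by
    have : v ∈ M := by rw [hM]; trivial
    exact this
  have e5 := hk 0 v 0 0 w
  rw [add_zero, zero_add] at e5
  rw [e5]
  exact mul_mem hv (h0 w)

end

theorem G2_rigid {k K : Type*} [Field k] [Field K] [Infinite k] [CharP k 3] [CharP K 3]
    (θ : k ≃+* k) (θ' : K ≃+* K)
    (hθ : ∀ t, θ (θ t) = t ^ 3) (hθ' : ∀ t, θ' (θ' t) = t ^ 3) (F1 F2 F3 : k → k → k → K)
    (h1 : ∀ t v w t' v' w', F1 (t + t') (v + v' - t' * θ t) (w + w' - t' * v - t' ^ 2 * θ t) =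
      F1 t v w + F1 t' v' w')
    (h2 : ∀ t v w t' v' w', F2 (t + t') (v + v' - t' * θ t) (w + w' - t' * v - t' ^ 2 * θ t) =
      F2 t v w + F2 t' v' w' - F1 t' v' w' * θ' (F1 t v w))
    (h3 : ∀ t v w t' v' w', F3 (t + t') (v + v' - t' * θ t) (w + w' - t' * v - t' ^ 2 * θ t) =
      F3 t v w + F3 t' v' w' - F1 t' v' w' * F2 t v w - F1 t' v' w' ^ 2 * θ' (F1 t v w))
    (hinj : ∀ t v w, F1 t v w = 0 → F2 t v w = 0 → F3 t v w = 0 → t = 0 ∧ v = 0 ∧ w = 0)
    (hT : ∀ s, s ≠ 0 → ∃ κ', κ' ≠ 0 ∧ ∀ t v w,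
      F1 (s ^ 2 * t) (s ^ 2 * θ (s ^ 2) * v) (s ^ 4 * θ (s ^ 2) * w) = κ' * F1 t v w ∧
      F2 (s ^ 2 * t) (s ^ 2 * θ (s ^ 2) * v) (s ^ 4 * θ (s ^ 2) * w) = κ' * θ' κ' * F2 t v w ∧
      F3 (s ^ 2 * t) (s ^ 2 * θ (s ^ 2) * v) (s ^ 4 * θ (s ^ 2) * w) =
        κ' ^ 2 * θ' κ' * F3 t v w) :
    ∃ (c : K) (φ : k →+* K), c ≠ 0 ∧ (∀ t, φ (θ t) = θ' (φ t)) ∧
      ∀ t v w, F1 t v w = c * φ t ∧ F2 t v w = c * θ' c * φ v ∧
        F3 t v w = c ^ 2 * θ' c * φ w := by
  have : Fact (Nat.Prime 3) := ⟨Nat.prime_three⟩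
  obtain ⟨f1, fadd⟩ := ZG_hom θ hθ F1 h1
  have f0 : F1 0 0 0 = 0 := by
    have := fadd 0 0
    rw [add_zero] at this
    exact left_eq_add.mp this
  -- f is not zero
  have fne : ∃ t, F1 t 0 0 ≠ 0 := by
    by_contra hne
    push Not at hne
    have g1 : ∀ t v w, F1 t v w = 0 := fun t v w => by rw [f1, hne]
    obtain ⟨g2, -⟩ := ZG_hom θ hθ F2 (fun t v w t' v' w' => by rw [h2, g1, g1]; simp)
    obtain ⟨g3, -⟩ := ZG_hom θ hθ F3 (fun t v w t' v' w' => by rw [h3, g1, g1]; simp)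
    have g20 : F2 0 0 0 = 0 := by
      have := h2 0 0 0 0 0 0
      simp only [add_zero, zero_mul, mul_zero, sub_zero, map_zero, g1] at this
      exact left_eq_add.mp this
    have g30 : F3 0 0 0 = 0 := by
      have := h3 0 0 0 0 0 0
      simp only [add_zero, zero_mul, mul_zero, sub_zero, map_zero, g1, ne_eq, OfNat.ofNat_ne_zero,
        not_false_eq_true, zero_pow] at this
      exact left_eq_add.mp this
    have := hinj 0 0 1 (g1 _ _ _) (by rw [g2, g20]) (by rw [g3, g30])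
    exact one_ne_zero this.2.2
  obtain ⟨φ, fone, fmul, ffor⟩ := semi_sq (fun t => F1 t 0 0) fadd fne (by
    intro s hs
    obtain ⟨κ, -, hκ⟩ := hT s hs
    refine ⟨κ, fun t => ?_⟩
    have := (hκ t 0 0).1
    simpa using this)
  set c := F1 1 0 0 with hc
  have F1' : ∀ t v w, F1 t v w = c * φ t := fun t v w => by rw [f1, ffor]
  -- the torus
  have hT2 : ∀ s, s ≠ 0 → ∀ t v w,
      F2 (s ^ 2 * t) (s ^ 2 * θ (s ^ 2) * v) (s ^ 4 * θ (s ^ 2) * w) =
        φ (s ^ 2) * θ' (φ (s ^ 2)) * F2 t v w ∧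
      F3 (s ^ 2 * t) (s ^ 2 * θ (s ^ 2) * v) (s ^ 4 * θ (s ^ 2) * w) =
        φ (s ^ 2) ^ 2 * θ' (φ (s ^ 2)) * F3 t v w := by
    intro s hs t v w
    obtain ⟨κ, -, hκ⟩ := hT s hs
    have e1 : κ = φ (s ^ 2) := by
      have := (hκ 1 0 0).1
      rw [F1', F1', map_one, mul_one, mul_one, mul_comm κ] at this
      exact (mul_left_cancel₀ fone this).symm
    rw [← e1]
    exact ⟨(hκ t v w).2.1, (hκ t v w).2.2⟩
  -- second layer
  have k2 : ∀ t v w v' w', F2 t (v + v') (w + w') = F2 t v w + F2 0 v' w' := by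
    intro t v w v' w'
    have := h2 t v w 0 v' w'
    simpa [F1'] using this
  have g20 : ∀ w, F2 0 0 w = 0 := by
    intro w
    have x1 := h2 0 (-w) 0 1 0 0
    have x2 := h2 1 0 0 0 (-w) 0
    have x3 := k2 1 (-w) 0 0 w
    simp only [map_zero, mul_zero, zero_add, add_zero, sub_zero, one_mul, zero_mul, F1',
      zero_sub, neg_neg, ne_eq, OfNat.ofNat_ne_zero, not_false_eq_true, zero_pow] at x1 x2 x3
    rw [x3, x2] at x1
    linear_combination x1
  set g : k → K := fun v => F2 0 v 0 with hg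
  have gadd : ∀ a b, g (a + b) = g a + g b := by
    intro a b
    have := k2 0 a 0 b 0
    rwa [add_zero] at this
  have F2' : ∀ t v w, F2 t v w = F2 t 0 0 + g v := by
    intro t v w
    have x1 := k2 t 0 0 v w
    have x2 := k2 0 v 0 0 w
    rw [zero_add, zero_add] at x1
    rw [add_zero, zero_add, g20] at x2
    rw [x1, x2, add_zero]
  have gneg : ∀ a, g (-a) = - g a := by
    intro a
    have x1 := gadd (-a) a
    rw [neg_add_cancel] at x1
    have x2 : g 0 = 0 := g20 0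
    rw [x2] at x1
    linear_combination -x1
  -- g on the generators
  have ggen : ∀ t t', g (t * θ t' - t' * θ t) =
      c * φ t * θ' (c * φ t') - c * φ t' * θ' (c * φ t) := by
    intro t t'
    have x1 := h2 t 0 0 t' 0 0
    have x2 := h2 t' 0 0 t 0 0
    rw [F2', F1', F1'] at x1 x2
    rw [add_comm t' t] at x2
    have x3 : g (0 + 0 - t' * θ t) = - g (t' * θ t) := by rw [← gneg]; congr 1; ring
    have x4 : g (0 + 0 - t * θ t') = - g (t * θ t') := by rw [← gneg]; congr 1; ring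
    rw [x3] at x1
    rw [x4] at x2
    rw [sub_eq_add_neg, gadd, gneg]
    linear_combination x1 - x2
  have gscale : ∀ s z, g (s * θ s * z) = φ s * θ' (φ s) * g z := by
    intro s z
    have hz : z ∈ AddSubgroup.closure {z : k | ∃ t t', z = t * θ t' - t' * θ t} := by
      rw [ZG_gen θ hθ]; trivial
    induction hz using AddSubgroup.closure_induction with
    | mem x hx =>
      obtain ⟨t, t', rfl⟩ := hx
      have e1 : s * θ s * (t * θ t' - t' * θ t) =
          (s * t) * θ (s * t') - (s * t') * θ (s * t) := by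
        rw [map_mul, map_mul]; ring
      rw [e1, ggen, ggen]
      simp only [map_mul]
      ring
    | zero =>
      rw [mul_zero]
      have : g 0 = 0 := g20 0
      rw [this, mul_zero]
    | add x y _ _ hx hy => rw [mul_add, gadd, gadd, hx, hy]; ring
    | neg x _ hx => rw [mul_neg, gneg, gneg, hx]; ring
  have gne : ∃ t, g t ≠ 0 := by
    by_contra hne
    push Not at hne
    have k3 : F3 1 (-1) 1 = F3 1 (-1) 0 + F3 0 0 1 := by
      have := h3 1 (-1) 0 0 0 1
      simpa [F1'] using this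
    have x1 := h3 0 (-1) 0 1 0 0
    have x2 := h3 1 0 0 0 (-1) 0
    have x3 : F2 0 (-1) 0 = 0 := hne (-1)
    simp only [map_zero, mul_zero, zero_add, add_zero, sub_zero, one_mul, zero_mul, F1', x3,
      zero_sub, neg_neg, ne_eq, OfNat.ofNat_ne_zero, not_false_eq_true, zero_pow] at x1 x2
    have x4 : F3 0 0 1 = 0 := by
      rw [k3, x2] at x1
      linear_combination x1
    have := hinj 0 0 1 (by rw [F1']; simp) (g20 1) x4
    exact one_ne_zero this.2.2
  obtain ⟨hφ, g1, gfor⟩ := norm_rigid 3 θ hθ θ' hθ' φ g gadd gne gscale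
  have hg1 : g 1 = c * θ' c := by
    obtain ⟨t, ht⟩ := ZG_exists θ hθ
    have x1 := ggen t 1
    rw [gfor] at x1
    have x2 : φ (t * θ 1 - 1 * θ t) ≠ 0 := by
      rw [Ne, map_eq_zero]; exact ht
    apply mul_right_cancel₀ x2
    rw [x1]
    simp only [map_mul, map_sub, hφ, map_one]
    ring
  have gfor' : ∀ v, g v = c * θ' c * φ v := fun v => by rw [gfor, hg1]
  -- the t-part of F2
  have z2 : ∀ t, F2 t 0 0 = 0 := by
    apply zeta3a θ hθ φ
    · intro a b
      have x1 := h2 a 0 0 b 0 0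
      rw [F2', F1', F1', gfor'] at x1
      simp only [map_sub, map_add, map_mul, map_zero, hφ] at x1
      linear_combination x1
    · intro s t hs
      have x1 := (hT2 s hs t 0 0).1
      rw [mul_zero, mul_zero] at x1
      rw [x1, map_mul, hφ]
  have F2'' : ∀ t v w, F2 t v w = c * θ' c * φ v := fun t v w => by
    rw [F2', z2, gfor', zero_add]
  -- third layer
  obtain ⟨d1, dadd⟩ := ZG_hom θ hθ (fun t v w => F3 t v w - c ^ 2 * θ' c * φ w) (by
    intro t v w t' v' w'
    rw [h3, F1', F1', F2'']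
    simp only [map_sub, map_add, map_mul, map_pow, hφ]
    ring)
  simp only [map_zero, mul_zero, sub_zero] at d1 dadd
  have z3 : ∀ t, F3 t 0 0 = 0 := by
    apply zeta3b θ hθ φ
    · exact dadd
    · intro s t hs
      have x1 := (hT2 s hs t 0 0).2
      rw [mul_zero, mul_zero] at x1
      rw [x1, map_mul, hφ]
      simp only [map_pow]
      ring
  refine ⟨c, φ, fone, hφ, fun t v w => ⟨F1' t v w, F2'' t v w, ?_⟩⟩
  have := d1 t v w
  rw [z3] at this
  exact sub_eq_zero.mp this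

end Pool.Agent.H86.UM
end
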