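import Pool.Agent.H86.AL.M06
import Pool.Agent.H86.AL.M08
import Pool.Agent.H86.AL.M11
import Pool.Agent.H86.AL.M13
import Pool.Agent.H86.AL.M14

/-!
# M15: collected modules

Pool.Agent.H86.UM.SRc
Pool.Agent.H86.UM.EX2
Pool.Agent.H86.UM.UNI
Pool.Agent.H86.UM.FCm
-/

section
/- module Pool.Agent.H86.UM.SRc -/
/-!
# Project UM, module SRc: the source structure of `Eg S s` (assembly)

See the header of SR.lean for the proof of each field.
-/

set_option autoImplicit false
open Matrix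

namespace Pool.Agent.H86.UM

open Pool.Agent.H75.UL

variable {n : ℕ} {C : SLC n} {D : Dg C} {k : Type*} [Field k] {θ : k ≃+* k} {H : Type*} [Group H]
  {S : StSys C k H} {s : H →* H} {p : H →* GL C.Idx k}

private theorem SRc_T (x : Eg S s) : x ∈ S.T.subgroupOf (Eg S s) ↔ (x : H) ∈ S.T := Iff.rfl

private theorem SRc_X (i : Fin n) (x : Eg S s) :
    x ∈ (fixX D S s (C.simple i)).subgroupOf (Eg S s) ↔ (x : H) ∈ fixX D S s (C.simple i) :=
  Iff.rfl

private theorem SRc_gad (he : Env D θ S s p) (h : H) (hh : h ∈ S.T) :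
    p h ∈ C.Gad k ∧ C.Fil 0 (p h : Matrix C.Idx C.Idx k) := by
  have h1 := C.S9_T S p he.hp h hh
  refine ⟨?_, C.Fil_T _ h1⟩
  rw [← C.gen_adS k]
  exact (C.adS k).T_le_gen h1

private theorem SRc_XU (he : Env D θ S s p) (i : Fin n) (x : H)
    (hx : x ∈ fixX D S s (C.simple i)) : p x ∈ (C.adS k).U 1 :=
  C.S9_U S p he.hp 1 x (fixX_le_fixU S s _ (C.simple_pos i) hx).1

private theorem SRc_XO_conj (he : Env D θ S s p) (h : H) (hh : h ∈ S.T) (β : C.Root) (x : H)
    (hx : x ∈ XO D S β) : h * x * h⁻¹ ∈ XO D S β := by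
  unfold XO at hx
  induction hx using Subgroup.closure_induction with
  | mem g hg =>
    obtain ⟨γ, t, hγ, rfl⟩ := hg
    rw [(SR_T he h hh γ t).2]
    exact Subgroup.subset_closure ⟨_, _, hγ, rfl⟩
  | one =>
    rw [mul_one, mul_inv_cancel]
    exact Subgroup.one_mem _
  | mul a b _ _ ha hb =>
    have : h * (a * b) * h⁻¹ = (h * a * h⁻¹) * (h * b * h⁻¹) := by group
    rw [this]
    exact Subgroup.mul_mem _ ha hb
  | inv a _ ha =>
    have : h * a⁻¹ * h⁻¹ = (h * a * h⁻¹)⁻¹ := by group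
    rw [this]
    exact Subgroup.inv_mem _ ha

private theorem SRc_fix_conj (h x : H) (h1 : s h = h) (h2 : s x = x) :
    s (h * x * h⁻¹) = h * x * h⁻¹ := by
  rw [map_mul, map_mul, map_inv, h1, h2]

private theorem SRc_Eg (S : StSys C k H) (s : H →* H) (i : Fin n) :
    fixX D S s (C.simple i) ≤ Eg S s :=
  (fixX_le_fixU S s _ (C.simple_pos i)).trans le_sup_left

private theorem SRc_out (J J' : D.Orb) (h : J' ≠ J) :
    ¬ D.ρ.SameCycle (Quotient.out J) (Quotient.out J') := by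
  intro hc
  apply h
  have h1 : (Quotient.mk (Equiv.Perm.SameCycle.setoid D.ρ) (Quotient.out J)) =
      Quotient.mk (Equiv.Perm.SameCycle.setoid D.ρ) (Quotient.out J') := Quotient.sound hc
  rw [Quotient.out_eq, Quotient.out_eq] at h1
  exact h1.symm

/-- The source structure of `Eg S s`. -/
noncomputable def srcOf (he : Env D θ S s p) : Src D.Orb (Eg S s) k where
  U := (fixU S s).subgroupOf (Eg S s)
  T := S.T.subgroupOf (Eg S s)
  X J := (fixX D S s (C.simple (Quotient.out J))).subgroupOf (Eg S s)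
  q J x := C.xi (Quotient.out J) (p x : Matrix C.Idx C.Idx k)
  a J x := C.chi (p x : Matrix C.Idx C.Idx k) (C.simple (Quotient.out J))
  ν J := ⟨nuJ he (Quotient.out J), (nuJ_mem he (Quotient.out J)).2⟩
  k0 := fixF θ
  N := C.A.det.natAbs
  T_comm := fun x hx y hy => Subtype.ext (S.T_comm x.1 y.1 hx hy)
  T_conj_U := fun h hh u hu => ⟨S.T_conj_U 1 h.1 u.1 hh hu.1,
    SRc_fix_conj h.1 u.1 (Eg_le_fix S s _ h.2) (Eg_le_fix S s _ u.2)⟩
  X_le := fun J x hx => fixX_le_fixU S s _ (C.simple_pos _) hx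
  q_mul := fun J x hx y hy => by
    rw [Subgroup.coe_mul, map_mul]
    exact C.xi_mul _ _ _ (SRc_XU he _ x.1 hx) (SRc_XU he _ y.1 hy)
  a_mul := fun J x hx y hy => by
    rw [Subgroup.coe_mul, map_mul]
    exact C.chi_mul _ _ (SRc_gad he x.1 hx).1 (SRc_gad he y.1 hy).1 (SRc_gad he x.1 hx).2
      (SRc_gad he y.1 hy).2 _
  a_ne := fun J h hh => (SR_T he h.1 hh _ 0).1
  X_conj := fun J h hh x hx => ⟨SRc_XO_conj he h.1 hh _ x.1 hx.1,
    SRc_fix_conj h.1 x.1 (Eg_le_fix S s _ h.2) (Eg_le_fix S s _ x.2)⟩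
  q_conj := fun J h hh x hx => by
    have h1 := C.xi_conj (p h.1) (p x.1) (SRc_gad he h.1 hh).1 (SRc_gad he h.1 hh).2
      (SRc_XU he _ x.1 hx) (Quotient.out J)
    rw [Subgroup.coe_mul, Subgroup.coe_mul, Subgroup.coe_inv, map_mul, map_mul, map_inv]
    exact h1.2
  q_smul := fun J c hc x hx => by
    obtain ⟨y, hy, h1⟩ := fixX_xi_exists he (Quotient.out J)
      (c * C.xi (Quotient.out J) (p x : Matrix C.Idx C.Idx k)) (by
        intro hρ
        have h2 := (fixX_xi he (Quotient.out J) x.1 hx).1 1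
        rw [pow_one, hρ] at h2
        rw [map_mul, (mem_fixF θ c).mp hc]
        congr 1
        exact h2.symm)
    exact ⟨⟨y, SRc_Eg S s _ hy⟩, hy, h1⟩
  ker_q := fun J x hx h0 => by
    have h1 := fixX_xi_zero he _ x.1 hx h0
    set A : Subgroup (Eg S s) := (fixX D S s (C.simple (Quotient.out J))).subgroupOf (Eg S s)
      with hA
    have h2 : A.map (Eg S s).subtype = fixX D S s (C.simple (Quotient.out J)) := by
      rw [hA, Subgroup.subgroupOf_map_subtype, inf_eq_left]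
      exact SRc_Eg S s _
    rw [← h2, ← Subgroup.map_commutator] at h1
    obtain ⟨y, hy, hyx⟩ := Subgroup.mem_map.mp h1
    have h3 : y = x := Subtype.ext hyx
    rwa [← h3]
  cent := fun J h hh h1 x hx => Subtype.ext
    ((SR_cent he h.1 hh (Eg_le_fix S s _ h.2) _ h1).1 x.1 hx.1)
  cent_neg := fun J h hh h1 x hx => Subtype.ext
    ((SR_cent he h.1 hh (Eg_le_fix S s _ h.2) _ h1).2 _
      (((SR_ν he _ _ (nuJ_mem he (Quotient.out J)) (nuJ_acts he _)).1 x.1).mp hx.1))
  k0_inf := SR_k0_inf he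
  N_ne := Int.natAbs_ne_zero.mpr C.det_ne_zero
  sep := fun J c hc hc0 => by
    obtain ⟨h, hh, h1, h2⟩ := SR_sep he (Quotient.out J) c hc hc0
    exact ⟨⟨h, hh.2⟩, hh.1, h1 _ (Equiv.Perm.SameCycle.refl _ _),
      fun J' hJ' => h2 _ (SRc_out J J' hJ')⟩
  ν_conj := fun J h hh => by
    have h1 := S.N_conj_T (nuJ he (Quotient.out J))⁻¹ h.1
      (Subgroup.inv_mem _ (nuJ_mem he (Quotient.out J)).1) hh
    rw [inv_inv] at h1
    exact h1
  a_ν := fun J h hh h1 => by
    obtain ⟨l, hl⟩ := (SR_ν he _ _ (nuJ_mem he (Quotient.out J)) (nuJ_acts he _)).2.2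
    have h2 := hl h.1 ⟨hh, h.2⟩
    have h3 : (⇑θ)^[l] (C.chi (p h.1 : Matrix C.Idx C.Idx k) (C.simple (Quotient.out J))) =
        C.chi (p h.1 : Matrix C.Idx C.Idx k) (C.simple (Quotient.out J)) :=
      Function.iterate_fixed h1 l
    rw [h3] at h2
    exact h2

end Pool.Agent.H86.UM
end

section
/- module Pool.Agent.H86.UM.EX2 -/
/-!
# Project UM, module EX2: images of the simple root groups

`fib` is constant on the orbits of `ρ` and surjective onto `D.Orb`, so it induces a surjection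
`D.Orb → D.Orb`, which is a bijection (`D.Orb` is finite); `π` is its inverse: the fibre of `⟦i⟧` is the orbit
`π ⟦i⟧`. For `x ∈ X ⟦i⟧`: `image_pos` (the element `t` from `exists_semiregular'`) gives
`Ψ x = lp posList y` with `y β ≠ 0` only for positive `β` supported on the fibre, i.e. on the orbit of `i'`;
so all factors are in `XO (simple i')` (`supp_inO`, FX), and `Ψ x` is fixed by `σ'`, so in `fixX`. Negative:
`image_neg`: `Ψ (ν x ν⁻¹) = ν' (lp y) ν'⁻¹ = ∏ ν' x_β ν'⁻¹`, factors `x_(wβ)` with `w β` negative and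
supported on the orbit, so in `XO (- simple i')` (`supp_inO` for `-(w β)`; `XO D S (-β)` is generated by the
root elements for the negatives).
-/

set_option autoImplicit false
open Matrix

namespace Pool.Agent.H86.UM

open Pool.Agent.H75.UL

variable {n : ℕ} (C : SLC n)

private theorem EX2_iter_neg (D : Dg C) (l : ℕ) (β : C.Root) : D.r^[l] (-β) = -(D.r^[l] β) := by
  induction l with
  | zero => rfl
  | succ l ih =>
    rw [Function.iterate_succ', Function.comp, ih, D.r_neg]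
    rfl

private theorem EX2_inO_neg (D : Dg C) (β γ : C.Root) (h : D.inO β (-γ)) : D.inO (-β) γ := by
  rcases h with ⟨l, hl⟩ | h
  · left
    refine ⟨l, ?_⟩
    rw [EX2_iter_neg, ← hl, C.neg_neg_root]
  · right
    rw [D.r_neg, SLC.Root.neg_val, SLC.Root.neg_val]
    rw [SLC.Root.neg_val] at h
    funext i
    have h1 := congrFun h i
    simp only [Pi.add_apply, Pi.neg_apply] at h1 ⊢
    omega

private theorem EX2_x_zero {K : Type*} [Field K] (β : C.Root) :
    (C.adS K).x β 0 = 1 := (C.adS K).x_zero β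

private theorem EX2_fib_pow {D : Dg C} {α : Type*} (fib : Fin n → α) (hr : ∀ j, fib (D.ρ j) = fib j)
    (i j : Fin n) (h : D.ρ.SameCycle i j) : fib i = fib j := by
  have hn : ∀ (m : ℕ) (i : Fin n), fib ((D.ρ ^ m) i) = fib i := by
    intro m
    induction m with
    | zero => intro i; rfl
    | succ m ih =>
      intro i
      rw [pow_succ, Equiv.Perm.mul_apply, ih, hr]
  obtain ⟨z, hz⟩ := h
  obtain ⟨m, hm⟩ := z.eq_nat_or_neg
  rcases hm with rfl | rfl
  · rw [← hz, zpow_natCast, hn]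
  · rw [_root_.zpow_neg, zpow_natCast, Equiv.Perm.inv_eq_iff_eq] at hz
    rw [hz, hn]

theorem image_stage (D : Dg C) {E : Type*} [Group E] {k : Type*} [Field k]
    (S : Src D.Orb E k) {K : Type*} [Field K] (θ' : K ≃+* K) (Ψ : E →* GL C.Idx K)
    (hσ : ∀ x, D.sgl θ' (Ψ x) = Ψ x) (hT : Tgt C S Ψ)
    (hTT : ∀ h ∈ S.T, Ψ h ∈ (C.adS K).T) (fib : Fin n → D.Orb)
    (hf : Fib C S Ψ fib) (hr : ∀ j, fib (D.ρ j) = fib j) :
    ∃ π : Equiv.Perm D.Orb, ∀ i i' : Fin n, (Quotient.mk _ i' : D.Orb) = π (Quotient.mk _ i) →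
      ∀ x ∈ S.X (Quotient.mk _ i),
        Ψ x ∈ fixX D (C.adS K) (D.sgl θ') (C.simple i') ∧
        Ψ (S.ν (Quotient.mk _ i) * x * (S.ν (Quotient.mk _ i))⁻¹) ∈
          fixX D (C.adS K) (D.sgl θ') (-(C.simple i')) := by
  classical
  let f : D.Orb → D.Orb := Quotient.lift fib (fun i j h => EX2_fib_pow C fib hr i j h)
  have hfq : ∀ j, f (Quotient.mk _ j) = fib j := fun _ => rfl
  have hfs : Function.Surjective f := by
    intro J
    obtain ⟨j, hj⟩ := hf.surj J
    exact ⟨Quotient.mk _ j, hj⟩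
  have hfb : Function.Bijective f := Function.Surjective.bijective_of_finite hfs
  refine ⟨(Equiv.ofBijective f hfb).symm, ?_⟩
  intro i i' hii' x hx
  have hi' : fib i' = Quotient.mk _ i := by
    have h1 : (Equiv.ofBijective f hfb) (Quotient.mk _ i') = Quotient.mk _ i := by
      rw [hii', Equiv.apply_symm_apply]
    exact h1
  have hsupp : ∀ β : C.Root, (∀ j, fib j ≠ Quotient.mk _ i → β.1 j = 0) → D.supp i' β := by
    intro β hβ j hj
    have h1 : fib j = fib i' := by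
      rw [hi']
      by_contra h2
      exact hj (hβ j h2)
    have h2 : (Quotient.mk _ j : D.Orb) = Quotient.mk _ i' := hfb.1 h1
    exact (Quotient.exact h2).symm
  constructor
  · obtain ⟨t, ht, ht1, hsemi⟩ := exists_semiregular' C S Ψ hT fib hf (Quotient.mk _ i)
    obtain ⟨y, hy, hy0⟩ := image_pos C S Ψ hT fib hTT (Quotient.mk _ i) t ht ht1 hsemi x hx
    refine ⟨?_, hσ x⟩
    rw [hy]
    refine Subgroup.list_prod_mem _ ?_
    intro g hg
    obtain ⟨β, _, rfl⟩ := List.mem_map.1 hg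
    by_cases hβ : y β = 0
    · rw [hβ, EX2_x_zero C β]
      exact one_mem _
    · obtain ⟨h1, h2⟩ := hy0 β hβ
      exact Subgroup.subset_closure ⟨β, y β, supp_inO D i' β h1 (hsupp β h2), rfl⟩
  · obtain ⟨ν', hν', w, hw, hact, hneg, himg⟩ := image_neg C S Ψ hT fib hf hTT (Quotient.mk _ i)
    obtain ⟨y, hy, hy0⟩ := himg x hx
    refine ⟨?_, hσ _⟩
    rw [hy]
    obtain ⟨c, _, hc⟩ := hact
    have hle : ((C.adS K).lp C.posList y) ∈
        (XO D (C.adS K) (-(C.simple i'))).comap (MulAut.conj ν').toMonoidHom := by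
      refine Subgroup.list_prod_mem _ ?_
      intro g hg
      obtain ⟨β, _, rfl⟩ := List.mem_map.1 hg
      by_cases hβ : y β = 0
      · rw [hβ, EX2_x_zero C β]
        exact one_mem _
      · obtain ⟨h1, h2⟩ := hy0 β hβ
        obtain ⟨h3, h4⟩ := hneg β h1 h2
        rw [Subgroup.mem_comap]
        change ν' * (C.adS K).x β (y β) * ν'⁻¹ ∈ _
        rw [hc]
        refine Subgroup.subset_closure ⟨w β, _, ?_, rfl⟩
        apply EX2_inO_neg
        apply supp_inO D i'
        · unfold SLC.Pos at h3 ⊢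
          have h5 := C.ht_ne_zero (w β)
          rw [SLC.Root.neg_val, ht_neg]
          omega
        · apply hsupp
          intro j hj
          rw [SLC.Root.neg_val, Pi.neg_apply, h4 j hj, neg_zero]
    exact hle

end Pool.Agent.H86.UM
end

section
/- module Pool.Agent.H86.UM.UNI -/
/-!
# Project UM, module UNI: representations of `Eg S s` are unipotent on `fixU S s`

Apply `unipotent_matrix` (KA2) to `B = fixU S s ⊔ (S.T ⊓ Eg S s)` (a subgroup of `H` contained in `Eg S s`),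
`U m = fixU S s ⊓ S.U (m + 1)`, restricted to `B`, and the restriction of `ρ'` to `B`.
* normal: `U_conj`, `T_conj_U`, and all elements are fixed by `s`. `M`: `exists_U_eq_bot`.
* `hab`: commutators of elements of `S.U (m + 1)` are in `S.U (m + 2)` (see S3.lean, K2.lean).
* `hS` for `m`: let `c` run over `k0 = fixF θ`, `c ≠ 0`. By `exists_tor` with `v` an invariant vector with
  `ip v β = N * ht β` for all `β` (`N = det ≠ 0`, `v = ∑ y_j`, see `exists_dual`, invariant as in SR.lean)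
  there is `τ_c ∈ S.T ⊓ Eg` with `τ_c x_β(u) τ_c⁻¹ = x_β(c ^ (N ht β) u)`. Choose an infinite set of `c`
  with pairwise different `c ^ (N (m + 1))` (`k0` is infinite, `SR_k0_inf`; the equation `c ^ e = d` has
  finitely many solutions), and let the set be the set of these `τ_c`. For `w ∈ U m`: by `layer` (D3;
  hypotheses `inj_of_map`, `he.hB`) `w = v * u'` with `v` in the closure of the `fixX β`,
  `ht β = m + 1`. Scaling: for `λ ∈ k0` and `w ∈ U m` there is `u ∈ U m` whose coordinates at the roots of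
  height `m + 1` are `λ` times those of `w`; by closure induction on `v` it is enough for `g ∈ fixX β`:
  `g = yb β t * z` (`fixX_form`), take `yb β (λ t) * z'` (`fixX_exists`). To formulate this: let
  `P λ w u` be: for all `t : C.Root → k` with `w ∈ lp posList t * S.U (m + 2)`, `t` supported in height
  `m + 1`, `u ∈ lp posList (λ t) * S.U (m + 2)`; this is compatible with products by `lp_add_layer`,
  `exists_layer`; and `τ_c w τ_c⁻¹` has coordinates `c ^ (N (m + 1)) t`. With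
  `λ = (c ^ (N (m + 1)) - c' ^ (N (m + 1)))⁻¹` the element `u` satisfies
  `w⁻¹ * (τ_c u τ_c⁻¹ * (τ_c' u τ_c'⁻¹)⁻¹) ∈ S.U (m + 2)`.
`uniE'`: apply `uniE` to `mp` to the algebraic closure, or directly base change the matrices
(`nilpotent_map_iff` in M0 for `C.Idx`).
-/

set_option autoImplicit false
open Matrix

namespace Pool.Agent.H86.UM

open Pool.Agent.H75.UL

variable {n : ℕ} {C : SLC n} {D : Dg C} {k : Type*} [Field k] {θ : k ≃+* k} {H : Type*} [Group H]
  {S : StSys C k H} {s : H →* H} {p : H →* GL C.Idx k}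

/-! ### coordinates in one height -/

private theorem UNI_conj' (S : StSys C k H) (m : ℤ) (hm : 1 ≤ m) (g u : H) (hg : g ∈ S.U 1)
    (hu : u ∈ S.U m) : g⁻¹ * u * g ∈ S.U m := by
  have := S.U_conj m hm g⁻¹ u (inv_mem hg) hu
  rwa [inv_inv] at this

private theorem UNI_single (S : StSys C k H) (β : C.Root) (a : k) (l : List C.Root) (hl : l.Nodup)
    (hβ : β ∈ l) : S.lp l (fun γ => if γ = β then a else 0) = S.x β a := by
  have hcons : ∀ (β : C.Root) (l : List C.Root) (t : C.Root → k),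
      S.lp (β :: l) t = S.x β (t β) * S.lp l t := by
    intro β l t
    unfold StSys.lp
    rw [List.map_cons, List.prod_cons]
  induction l with
  | nil => simp at hβ
  | cons γ l ih =>
    rw [hcons]
    rw [List.nodup_cons] at hl
    by_cases h : γ = β
    · subst h
      rw [S.lp_zero l, if_pos rfl, mul_one]
      intro δ hδ
      rw [if_neg]
      rintro rfl
      exact hl.1 hδ
    · rw [if_neg h, S.x_zero, one_mul]
      refine ih hl.2 ?_
      rw [List.mem_cons] at hβ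
      rcases hβ with rfl | hβ
      · exact absurd rfl h
      · exact hβ

/-- `g` has the coordinates `t` in height `m`. -/
private def UNI_Co (S : StSys C k H) (m : ℤ) (g : H) (t : C.Root → k) : Prop :=
  (∀ β, ht β.1 ≠ m → t β = 0) ∧ ∃ u' ∈ S.U (m + 1), g = S.lp C.posList t * u'

private theorem UNI_lp_mem (S : StSys C k H) (m : ℤ) (hm : 1 ≤ m) (t : C.Root → k)
    (h : ∀ β, ht β.1 ≠ m → t β = 0) : S.lp C.posList t ∈ S.U 1 :=
  S.lp_mem 1 t fun γ hγ => h γ (by omega)

private theorem UNI_Co_mul {m : ℤ} (hm : 1 ≤ m) {g g' : H} {t t' : C.Root → k}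
    (h : UNI_Co S m g t) (h' : UNI_Co S m g' t') :
    UNI_Co S m (g * g') (fun β => t β + t' β) := by
  obtain ⟨h0, a, ha, rfl⟩ := h
  obtain ⟨h0', b, hb, rfl⟩ := h'
  obtain ⟨c, hc, e⟩ := S.lp_add_layer m hm t t' h0 h0'
  refine ⟨fun β hβ => by beta_reduce; rw [h0 β hβ, h0' β hβ, add_zero], ?_⟩
  refine ⟨c⁻¹ * ((S.lp C.posList t')⁻¹ * a * S.lp C.posList t') * b,
    mul_mem (mul_mem (inv_mem hc) ?_) hb, ?_⟩
  · exact UNI_conj' S (m + 1) (by omega) _ _ (UNI_lp_mem S m hm t' h0') ha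
  · rw [e]
    group

private theorem UNI_Co_zero {m : ℤ} {g : H} (h : g ∈ S.U (m + 1)) :
    UNI_Co S m g (fun _ => 0) :=
  ⟨fun _ _ => rfl, g, h, by rw [S.lp_zero _ _ (fun _ _ => rfl), one_mul]⟩

private theorem UNI_Co_of_zero {m : ℤ} {g : H} {t : C.Root → k} (h : UNI_Co S m g t)
    (h0 : ∀ β, t β = 0) : g ∈ S.U (m + 1) := by
  obtain ⟨-, a, ha, rfl⟩ := h
  rw [S.lp_zero _ _ (fun β _ => h0 β), one_mul]
  exact ha

private theorem UNI_Co_inv {m : ℤ} (hm : 1 ≤ m) {g : H} {t : C.Root → k} (h : UNI_Co S m g t) :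
    UNI_Co S m g⁻¹ (fun β => - t β) := by
  obtain ⟨h0, a, ha, rfl⟩ := h
  have h0' : ∀ β, ht β.1 ≠ m → (fun β => - t β) β = 0 := by
    intro β hβ
    simp [h0 β hβ]
  obtain ⟨c, hc, e⟩ := S.lp_add_layer m hm t (fun β => - t β) h0 h0'
  rw [S.lp_zero _ _ (fun β _ => add_neg_cancel _)] at e
  have e2 : (S.lp C.posList t)⁻¹ = S.lp C.posList (fun β => - t β) * c := by
    rw [inv_eq_iff_mul_eq_one, ← mul_assoc]
    exact e.symm
  refine ⟨h0', ((S.lp C.posList (fun β => - t β))⁻¹ * a⁻¹ * S.lp C.posList (fun β => - t β)) * c,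
    mul_mem ?_ hc, ?_⟩
  · exact UNI_conj' S (m + 1) (by omega) _ _ (UNI_lp_mem S m hm _ h0') (inv_mem ha)
  · rw [_root_.mul_inv_rev, e2]
    group

private theorem UNI_Co_x (S : StSys C k H) {m : ℤ} (hm : 1 ≤ m) (β : C.Root) (hβ : ht β.1 = m)
    (a : k) : UNI_Co S m (S.x β a) (fun γ => if γ = β then a else 0) := by
  refine ⟨fun γ hγ => ?_, 1, one_mem _, ?_⟩
  · beta_reduce
    rw [if_neg]
    rintro rfl
    exact hγ hβ
  · rw [mul_one, UNI_single S β a C.posList C.posList_nodup]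
    rw [C.mem_posList]
    unfold SLC.Pos
    omega

private theorem UNI_Co_conj {m : ℤ} {g : H} {t : C.Root → k} (h : UNI_Co S m g t) (τ : H)
    (hτ : τ ∈ S.T) (c : C.Root → k) (hc : ∀ β u, τ * S.x β u * τ⁻¹ = S.x β (c β * u)) :
    UNI_Co S m (τ * g * τ⁻¹) (fun β => c β * t β) := by
  obtain ⟨h0, a, ha, rfl⟩ := h
  refine ⟨fun β hβ => by beta_reduce; rw [h0 β hβ, mul_zero], τ * a * τ⁻¹, S.T_conj_U (m + 1) τ a hτ ha, ?_⟩
  have e : ∀ l : List C.Root, τ * S.lp l t * τ⁻¹ = S.lp l (fun β => c β * t β) := by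
    intro l
    induction l with
    | nil => simp [StSys.lp]
    | cons β l ih =>
      unfold StSys.lp at ih ⊢
      rw [List.map_cons, List.prod_cons, List.map_cons, List.prod_cons, ← ih, ← hc]
      group
  rw [← e]
  group

/-- The relation: the coordinates of `g'` are `c` times those of `g`. -/
private def UNI_R (S : StSys C k H) (m : ℤ) (c : k) (g g' : H) : Prop :=
  ∃ t, UNI_Co S m g t ∧ UNI_Co S m g' (fun β => c * t β)

private theorem UNI_R_mul {m : ℤ} (hm : 1 ≤ m) {c : k} {g g' h h' : H} (h1 : UNI_R S m c g g')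
    (h2 : UNI_R S m c h h') : UNI_R S m c (g * h) (g' * h') := by
  obtain ⟨t, a1, a2⟩ := h1
  obtain ⟨t', b1, b2⟩ := h2
  refine ⟨_, UNI_Co_mul hm a1 b1, ?_⟩
  have := UNI_Co_mul hm a2 b2
  simpa only [mul_add] using this

private theorem UNI_R_inv {m : ℤ} (hm : 1 ≤ m) {c : k} {g g' : H} (h1 : UNI_R S m c g g') :
    UNI_R S m c g⁻¹ g'⁻¹ := by
  obtain ⟨t, a1, a2⟩ := h1
  refine ⟨_, UNI_Co_inv hm a1, ?_⟩
  have := UNI_Co_inv hm a2
  simpa only [mul_neg] using this

private theorem UNI_R_zero {m : ℤ} (c : k) {g g' : H} (h1 : g ∈ S.U (m + 1))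
    (h2 : g' ∈ S.U (m + 1)) : UNI_R S m c g g' := by
  refine ⟨_, UNI_Co_zero h1, ?_⟩
  have := UNI_Co_zero (S := S) (m := m) h2
  simpa only [mul_zero] using this

private theorem UNI_R_x (S : StSys C k H) {m : ℤ} (hm : 1 ≤ m) (c : k) (β : C.Root)
    (hβ : ht β.1 = m) (a : k) : UNI_R S m c (S.x β a) (S.x β (c * a)) := by
  refine ⟨_, UNI_Co_x S hm β hβ a, ?_⟩
  have := UNI_Co_x S hm β hβ (c * a)
  simpa only [mul_ite, mul_zero] using this

private theorem UNI_ZZ (S : StSys C k H) {m : ℤ} (hm : 1 ≤ m) (β : C.Root) (hβ : ht β.1 = m)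
    (z : H) (hz : z ∈ ZZ D S β) : z ∈ S.U (m + 1) := by
  have h : ZZ D S β ≤ S.U (m + 1) := by
    unfold ZZ
    rw [Subgroup.closure_le]
    rintro g ⟨γ, v, hγ, rfl⟩
    refine Subgroup.subset_closure ⟨γ, v, ?_, rfl⟩
    rw [hγ, ht_add, D.r_ht]
    omega
  exact h hz

private theorem UNI_ht_iter (β : C.Root) (l : ℕ) : ht (D.r^[l] β).1 = ht β.1 := by
  induction l with
  | zero => rfl
  | succ l ih => rw [Function.iterate_succ_apply', D.r_ht, ih]

private theorem UNI_θ_iter (θ : k ≃+* k) (c : k) (hc : θ c = c) (t : k) (l : ℕ) :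
    (⇑θ)^[l] (c * t) = c * (⇑θ)^[l] t := by
  induction l with
  | zero => rfl
  | succ l ih => rw [Function.iterate_succ_apply', ih, Function.iterate_succ_apply', map_mul, hc]

private theorem UNI_R_yb (he : Env D θ S s p) {m : ℤ} (hm : 1 ≤ m) (c : k) (hc : θ c = c)
    (β : C.Root) (hβ : ht β.1 = m) (t : k) :
    UNI_R S m c (yb D S s β t) (yb D S s β (c * t)) := by
  have key : ∀ j : ℕ, UNI_R S m c ((List.range j).map fun l => s^[l] (S.x β t)).prod
      ((List.range j).map fun l => s^[l] (S.x β (c * t))).prod := by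
    intro j
    induction j with
    | zero => exact UNI_R_zero c (one_mem _) (one_mem _)
    | succ j ih =>
      rw [List.range_succ, List.map_append, List.prod_append, List.map_append, List.prod_append]
      refine UNI_R_mul hm ih ?_
      simp only [List.map_cons, List.map_nil, List.prod_cons, List.prod_nil, mul_one]
      rw [he.sig.iter, he.sig.iter, UNI_θ_iter θ c hc]
      have := UNI_R_x S hm c (D.r^[j] β) (by rw [UNI_ht_iter]; exact hβ)
        ((D.sgp j β : k) * (⇑θ)^[j] t)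
      have e : c * ((D.sgp j β : k) * (⇑θ)^[j] t) = (D.sgp j β : k) * (c * (⇑θ)^[j] t) := by ring
      rwa [e] at this
  exact key _

private theorem UNI_fixX_le (S : StSys C k H) (s : H →* H) {m : ℤ} (β : C.Root)
    (hβ : ht β.1 = m) (hm : 1 ≤ m) (g : H) (hg : g ∈ fixX D S s β) : g ∈ S.U m ∧ s g = g := by
  have hp : C.Pos β := by
    unfold SLC.Pos
    omega
  refine ⟨?_, hg.2⟩
  have := XO_le_U S β hp hg.1
  rwa [hβ] at this

/-- Scaling by elements of the fixed field. -/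
private theorem UNI_scale (he : Env D θ S s p) {m : ℤ} (hm : 1 ≤ m) (c : k) (hc : θ c = c) (w : H)
    (hw : w ∈ S.U m) (hs : s w = w) : ∃ u ∈ S.U m, s u = u ∧ UNI_R S m c w u := by
  obtain ⟨v, hv, u', hu', hsu', rfl⟩ :=
    layer (inj_of_map S p he.hp).1 he.sig he.hθ he.hB m hm w hw hs
  have key : ∃ u ∈ S.U m, s u = u ∧ UNI_R S m c v u := by
    clear hw hs
    induction hv using Subgroup.closure_induction with
    | mem g hg =>
      obtain ⟨β, hβ, hg⟩ := hg
      have hp : C.Pos β := by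
        unfold SLC.Pos
        omega
      obtain ⟨t, ht, z, hz, rfl⟩ := fixX_form he β hp g hg
      obtain ⟨z', hz', h'⟩ := fixX_exists he β hp (c * t) (by
        intro hr
        rw [map_mul, hc]
        have := ht hr
        calc (D.sg β : k) * (c * θ t) = c * ((D.sg β : k) * θ t) := by ring
          _ = c * t := by rw [this])
      obtain ⟨a1, a2⟩ := UNI_fixX_le S s β hβ hm _ h'
      exact ⟨_, a1, a2, UNI_R_mul hm (UNI_R_yb he hm c hc β hβ t)
        (UNI_R_zero c (UNI_ZZ S hm β hβ z hz) (UNI_ZZ S hm β hβ z' hz'))⟩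
    | one => exact ⟨1, one_mem _, map_one s, UNI_R_zero c (one_mem _) (one_mem _)⟩
    | mul a b _ _ ha hb =>
      obtain ⟨u, a1, a2, a3⟩ := ha
      obtain ⟨u2, b1, b2, b3⟩ := hb
      exact ⟨u * u2, mul_mem a1 b1, by rw [map_mul, a2, b2], UNI_R_mul hm a3 b3⟩
    | inv a _ ha =>
      obtain ⟨u, a1, a2, a3⟩ := ha
      exact ⟨u⁻¹, inv_mem a1, by rw [map_inv, a2], UNI_R_inv hm a3⟩
  obtain ⟨u, a1, a2, a3⟩ := key
  refine ⟨u, a1, a2, ?_⟩
  have := UNI_R_mul hm a3 (UNI_R_zero (g := u') (g' := 1) c hu' (one_mem _))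
  rwa [mul_one] at this

/-- commutators -/
private theorem UNI_comm (S : StSys C k H) (m : ℤ) (hm : 1 ≤ m) (x y : H) (hx : x ∈ S.U m)
    (hy : y ∈ S.U m) : x * y * x⁻¹ * y⁻¹ ∈ S.U (m + 1) := by
  obtain ⟨t, h0, a, ha, e⟩ := S.exists_layer m hm x hx
  obtain ⟨t', h0', b, hb, e'⟩ := S.exists_layer m hm y hy
  have hX : UNI_Co S m x t := ⟨h0, a, ha, e⟩
  have hY : UNI_Co S m y t' := ⟨h0', b, hb, e'⟩
  refine UNI_Co_of_zero (UNI_Co_mul hm (UNI_Co_mul hm (UNI_Co_mul hm hX hY) (UNI_Co_inv hm hX))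
    (UNI_Co_inv hm hY)) ?_
  intro β
  ring

/-! ### the torus -/

private theorem UNI_lmap_ht (ρ : Equiv.Perm (Fin n)) (v : Fin n → ℤ) :
    ht (SLC.lmap ρ v) = ht v := by
  unfold ht
  exact Equiv.sum_comp ρ.symm v

private theorem UNI_vec (D : Dg C) : ∃ v : Fin n → ℤ, SLC.lmap D.ρ v = v ∧
    ∀ w, C.ip v w = C.A.det * ht w := by
  choose y hy using C.exists_dual
  have hv : ∀ w, C.ip w (∑ i, y i) = C.A.det * ht w := by
    intro w
    have h1 : ∀ S : Finset (Fin n), C.ip w (∑ i ∈ S, y i) = ∑ i ∈ S, C.A.det * w i := by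
      intro S
      classical
      induction S using Finset.induction_on with
      | empty => simp [C.ip_zero_right]
      | insert i S hi ih => rw [Finset.sum_insert hi, C.ip_add_right, ih, hy,
          Finset.sum_insert hi]
    rw [h1]
    unfold ht
    rw [Finset.mul_sum]
  refine ⟨∑ i, y i, ?_, fun w => by rw [C.ip_comm, hv]⟩
  set v := ∑ i, y i with hvd
  have h2 : ∀ w, C.ip w (SLC.lmap D.ρ v) = C.ip w v := by
    intro w
    have e : w = SLC.lmap D.ρ (fun i => w (D.ρ i)) := by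
      funext i
      simp [SLC.lmap]
    have h3 : ht (fun i => w (D.ρ i)) = ht w := by
      unfold ht
      exact Equiv.sum_comp D.ρ w
    conv_lhs => rw [e]
    rw [C.ip_lmap D.ρ D.hρ, hv, hv, h3]
  by_contra hne
  have h4 : SLC.lmap D.ρ v - v ≠ 0 := sub_ne_zero.2 hne
  have h5 := C.ip_pos _ h4
  rw [C.ip_sub_right, h2, sub_self] at h5
  exact lt_irrefl _ h5

private theorem UNI_fin (e : ℤ) (he : e ≠ 0) (d : k) : {c : k | c ^ e = d}.Finite := by
  classical
  have hE : 0 < e.natAbs := Int.natAbs_pos.2 he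
  refine Set.Finite.subset ((Polynomial.nthRoots e.natAbs d).toFinset ∪
    (Polynomial.nthRoots e.natAbs d⁻¹).toFinset).finite_toSet ?_
  intro c hc
  have hc' : c ^ e = d := hc
  rw [Finset.mem_coe, Finset.mem_union, Multiset.mem_toFinset, Multiset.mem_toFinset,
    Polynomial.mem_nthRoots hE, Polynomial.mem_nthRoots hE]
  rcases Int.natAbs_eq e with h | h
  · left
    rw [h, zpow_natCast] at hc'
    exact hc'
  · right
    rw [h, _root_.zpow_neg, zpow_natCast] at hc'
    rw [← hc', inv_inv]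

private theorem UNI_inf (he : Env D θ S s p) (e : ℤ) (he0 : e ≠ 0) :
    {d : k | ∃ c, θ c = c ∧ c ≠ 0 ∧ c ^ e = d}.Infinite := by
  intro hfin
  have hinf := SR_k0_inf he
  have h1 : {c : k | θ c = c ∧ c ≠ 0}.Finite := by
    refine Set.Finite.subset (hfin.biUnion fun d _ => UNI_fin e he0 d) ?_
    rintro c ⟨h1, h2⟩
    rw [Set.mem_iUnion₂]
    exact ⟨c ^ e, ⟨c, h1, h2, rfl⟩, rfl⟩
  have h2 : {c : k | θ c = c}.Finite := by
    refine Set.Finite.subset (h1.union (Set.finite_singleton (0 : k))) ?_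
    intro c hc
    by_cases h0 : c = 0
    · right; exact h0
    · left; exact ⟨hc, h0⟩
  have h3 : ((fixF θ : Subfield k) : Set k).Finite := h2
  exact (Set.infinite_coe_iff.1 hinf) h3

private theorem UNI_layer (he : Env D θ S s p) (hn : 0 < n) (m : ℤ) (hm : 1 ≤ m) :
    ∃ Q : Set H, Q.Infinite ∧ (∀ τ ∈ Q, τ ∈ S.T ⊓ Eg S s) ∧ ∀ τ ∈ Q, ∀ τ' ∈ Q, τ ≠ τ' →
      ∀ w ∈ S.U m, s w = w → ∃ u ∈ S.U m, s u = u ∧
        w⁻¹ * (τ * u * τ⁻¹ * (τ' * u * τ'⁻¹)⁻¹) ∈ S.U (m + 1) := by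
  obtain ⟨v, hv, hip⟩ := UNI_vec D
  have hdet := C.det_ne_zero
  have he0 : C.A.det * m ≠ 0 := mul_ne_zero hdet (by omega)
  have hI := UNI_inf he (C.A.det * m) he0
  set I := {d : k | ∃ c, θ c = c ∧ c ≠ 0 ∧ c ^ (C.A.det * m) = d} with hId
  have hch : ∀ d : I, ∃ c : k, θ c = c ∧ c ≠ 0 ∧ c ^ (C.A.det * m) = d.1 := fun d => d.2
  choose c hc1 hc2 hc3 using hch
  have htor : ∀ d : I, ∃ τ ∈ S.T ⊓ Eg S s, ∀ γ u, τ * S.x γ u * τ⁻¹ =
      S.x γ (c d ^ C.ip v γ.1 * u) := fun d =>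
    exists_tor he.sig he.hθ he.hA v hv (c d) (hc2 d) (hc1 d)
  choose τ hτ1 hτ2 using htor
  have hinj : Function.Injective τ := by
    intro d d' hdd
    have h1 := hτ2 d (C.simple ⟨0, hn⟩) 1
    have h2 := hτ2 d' (C.simple ⟨0, hn⟩) 1
    rw [← hdd, h1] at h2
    have h3 := congrArg p h2
    rw [he.hp, he.hp, hip, C.ht_simple, mul_one, mul_one, mul_one] at h3
    have h4 := (C.xg_inj _ _ _ _ (zpow_ne_zero _ (hc2 d)) h3).2
    apply Subtype.ext
    rw [← hc3 d, ← hc3 d', _root_.zpow_mul, _root_.zpow_mul, h4]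
  have hθd : ∀ d : I, θ d.1 = d.1 := by
    intro d
    rw [← hc3 d, map_zpow₀, hc1]
  have : Infinite I := hI.to_subtype
  refine ⟨Set.range τ, Set.infinite_range_of_injective hinj, ?_, ?_⟩
  · rintro _ ⟨d, rfl⟩
    exact hτ1 d
  · rintro _ ⟨d, rfl⟩ _ ⟨d', rfl⟩ hne w hw hsw
    have hdd : d.1 - d'.1 ≠ 0 := by
      rw [sub_ne_zero]
      intro h
      apply hne
      rw [Subtype.ext h]
    obtain ⟨u, hu1, hu2, t, ht1, ht2⟩ := UNI_scale he hm (d.1 - d'.1)⁻¹
      (by rw [map_inv₀, map_sub, hθd, hθd]) w hw hsw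
    refine ⟨u, hu1, hu2, ?_⟩
    have a1 := UNI_Co_conj ht2 (τ d) (hτ1 d).1 (fun γ => c d ^ C.ip v γ.1) (hτ2 d)
    have a2 := UNI_Co_conj ht2 (τ d') (hτ1 d').1 (fun γ => c d' ^ C.ip v γ.1) (hτ2 d')
    refine UNI_Co_of_zero (UNI_Co_mul hm (UNI_Co_inv hm ht1)
      (UNI_Co_mul hm a1 (UNI_Co_inv hm a2))) ?_
    intro β
    by_cases hβ : ht β.1 = m
    · simp only [hip, hβ, hc3]
      field_simp
      ring
    · simp only [ht1.1 β hβ]
      ring

private theorem UNI_sup_le (S : StSys C k H) (s : H →* H) :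
    fixU S s ⊔ (S.T ⊓ Eg S s) ≤ Eg S s :=
  sup_le le_sup_left inf_le_right

/-- The normaliser of `S.U m`. -/
private def UNI_Nm (S : StSys C k H) (m : ℤ) : Subgroup H where
  carrier := {b | (∀ u ∈ S.U m, b * u * b⁻¹ ∈ S.U m) ∧ ∀ u ∈ S.U m, b⁻¹ * u * b ∈ S.U m}
  one_mem' := ⟨fun u hu => by simpa using hu, fun u hu => by simpa using hu⟩
  mul_mem' := by
    rintro a b ⟨ha1, ha2⟩ ⟨hb1, hb2⟩
    refine ⟨fun u hu => ?_, fun u hu => ?_⟩
    · have e : a * b * u * (a * b)⁻¹ = a * (b * u * b⁻¹) * a⁻¹ := by group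
      rw [e]
      exact ha1 _ (hb1 u hu)
    · have e : (a * b)⁻¹ * u * (a * b) = b⁻¹ * (a⁻¹ * u * a) * b := by group
      rw [e]
      exact hb2 _ (ha2 u hu)
  inv_mem' := by
    rintro a ⟨ha1, ha2⟩
    refine ⟨fun u hu => ?_, fun u hu => ?_⟩
    · rw [inv_inv]
      exact ha2 u hu
    · rw [inv_inv]
      exact ha1 u hu

private theorem UNI_normal (S : StSys C k H) (s : H →* H) (m : ℤ) (hm : 1 ≤ m) (b : H)
    (hb : b ∈ fixU S s ⊔ (S.T ⊓ Eg S s)) (u : H) (hu : u ∈ S.U m) : b * u * b⁻¹ ∈ S.U m := by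
  have key : fixU S s ⊔ (S.T ⊓ Eg S s) ≤ UNI_Nm S m := by
    refine sup_le ?_ ?_
    · intro x hx
      exact ⟨fun u hu => S.U_conj m hm x u hx.1 hu, fun u hu => UNI_conj' S m hm x u hx.1 hu⟩
    · intro x hx
      refine ⟨fun u hu => S.T_conj_U m x u hx.1 hu, fun u hu => ?_⟩
      have := S.T_conj_U m x⁻¹ u (inv_mem hx.1) hu
      rwa [inv_inv] at this
  exact (key hb).1 u hu

theorem uniE (he : Env D θ S s p) {L κ : Type*} [Field L] [IsAlgClosed L] [Fintype κ]
    [DecidableEq κ] (ρ' : Eg S s →* GL κ L) (u : Eg S s) (hu : (u : H) ∈ fixU S s) :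
    IsNilpotent ((ρ' u : Matrix κ κ L) - 1) := by
  rcases Nat.eq_zero_or_pos n with hn | hn
  · -- no roots
    subst hn
    have hbot : S.U 1 = ⊥ := by
      unfold StSys.U
      rw [Subgroup.closure_eq_bot_iff]
      rintro g ⟨β, t, -, -⟩
      exact absurd (Subsingleton.elim β.1 0) (C.root_ne_zero β)
    have h1 : (u : H) ∈ S.U 1 := hu.1
    rw [hbot, Subgroup.mem_bot] at h1
    have h2 : u = 1 := Subtype.ext h1
    rw [h2, map_one]
    simp
  · set B : Subgroup H := fixU S s ⊔ (S.T ⊓ Eg S s) with hB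
    have hBE : B ≤ Eg S s := UNI_sup_le S s
    have hBs : ∀ b ∈ B, s b = b := fun b hb => Eg_le_fix S s b (hBE hb)
    obtain ⟨M, hM1, -, hM3⟩ := S.exists_U_eq_bot
    let V : ℕ → Subgroup H := fun m => fixU S s ⊓ S.U ((m : ℤ) + 1)
    have hVB : ∀ m, V m ≤ B := fun m => inf_le_left.trans le_sup_left
    let U : ℕ → Subgroup B := fun m => (V m).subgroupOf B
    have hfix : ∀ (m : ℕ) (x : H), x ∈ S.U ((m : ℤ) + 1) → s x = x → x ∈ V m := by
      intro m x hx hs
      exact ⟨⟨S.U_mono (by omega) hx, hs⟩, hx⟩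
    have hmul : ∀ b ∈ B, ∀ x, s x = x → s (b * x * b⁻¹) = b * x * b⁻¹ := by
      intro b hb x hx
      rw [map_mul, map_mul, map_inv, hBs b hb, hx]
    have hU0 : (⟨(u : H), Subgroup.mem_sup_left hu⟩ : B) ∈ U 0 := by
      rw [Subgroup.mem_subgroupOf]
      refine ⟨hu, ?_⟩
      have : (((0 : ℕ) : ℤ) + 1) = 1 := by norm_num
      rw [this]
      exact hu.1
    have := unipotent_matrix M.toNat U ?_ ?_ ?_ ?_ ?_ (ρ'.comp (Subgroup.inclusion hBE))
      ⟨(u : H), Subgroup.mem_sup_left hu⟩ hU0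
    · exact this
    · intro m
      refine ⟨fun x hx b => ?_⟩
      rw [Subgroup.mem_subgroupOf] at hx ⊢
      refine hfix m _ ?_ ?_
      · exact UNI_normal S s _ (by omega) b.1 b.2 _ hx.2
      · exact hmul b.1 b.2 _ hx.1.2
    · intro m x hx
      rw [Subgroup.mem_subgroupOf] at hx ⊢
      exact ⟨hx.1, S.U_mono (by push_cast; omega) hx.2⟩
    · rw [eq_bot_iff]
      intro x hx
      rw [Subgroup.mem_subgroupOf] at hx
      have h1 : (x : H) ∈ S.U M := S.U_mono (by omega) hx.2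
      rw [hM3, Subgroup.mem_bot] at h1
      rw [Subgroup.mem_bot]
      exact Subtype.ext h1
    · intro m _ x hx y hy
      rw [Subgroup.mem_subgroupOf] at hx hy ⊢
      refine hfix (m + 1) _ ?_ ?_
      · have := UNI_comm S ((m : ℤ) + 1) (by omega) _ _ hx.2 hy.2
        push_cast
        exact this
      · have h1 := hx.1.2
        have h2 := hy.1.2
        have h1' : s x = x := h1
        have h2' : s y = y := h2
        push_cast
        rw [map_mul, map_mul, map_mul, map_inv, map_inv, h1', h2']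
    · intro m _
      obtain ⟨Q, hQ1, hQ2, hQ3⟩ := UNI_layer he hn ((m : ℤ) + 1) (by omega)
      refine ⟨(Subtype.val : B → H) ⁻¹' Q, ?_, ?_⟩
      · refine hQ1.preimage ?_
        intro τ hτ
        exact ⟨⟨τ, Subgroup.mem_sup_right (hQ2 τ hτ)⟩, rfl⟩
      · intro τ hτ τ' hτ' hne w hw
        rw [Subgroup.mem_subgroupOf] at hw
        obtain ⟨u, hu1, hu2, hu3⟩ := hQ3 τ.1 hτ τ'.1 hτ' (fun h => hne (Subtype.ext h)) w.1 hw.2
          hw.1.2
        have huV : u ∈ V m := hfix m u hu1 hu2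
        refine ⟨⟨u, hVB m huV⟩, ?_, ?_⟩
        · rw [Subgroup.mem_subgroupOf]
          exact huV
        · rw [Subgroup.mem_subgroupOf]
          refine hfix (m + 1) _ ?_ ?_
          · push_cast
            exact hu3
          · exact hBs _ (Subtype.property _)

theorem uniE' (he : Env D θ S s p) {K : Type*} [Field K] (Ψ : Eg S s →* GL C.Idx K)
    (u : Eg S s) (hu : (u : H) ∈ fixU S s) :
    IsNilpotent ((Ψ u : Matrix C.Idx C.Idx K) - 1) := by
  have h := uniE he ((C.mp (algebraMap K (AlgebraicClosure K))).comp Ψ) u hu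
  rw [← C.nilpotent_map_iff (algebraMap K (AlgebraicClosure K))
    (algebraMap K (AlgebraicClosure K)).injective]
  have e : ((((C.mp (algebraMap K (AlgebraicClosure K))).comp Ψ) u :
      GL C.Idx (AlgebraicClosure K)) : Matrix C.Idx C.Idx (AlgebraicClosure K)) =
      (Ψ u : Matrix C.Idx C.Idx K).map (algebraMap K (AlgebraicClosure K)) := C.mp_val _ _
  rw [e] at h
  rw [Matrix.map_sub _ (map_sub _), Matrix.map_one _ (map_zero _) (map_one _)]
  exact h

end Pool.Agent.H86.UM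
end

section
/- module Pool.Agent.H86.UM.FCm -/
/-!
# Project UM, module FCm: rank one calculations with matrices

`rank_mat'` (one root `α`): let `N = X_α(a) X_(-α)(b) X_α(a)`. Apply `N X_α(c) = X_(-α)(d) N` to the basis
vector `e_α = e (inr α)`, which is fixed by `X_α`. `N e_α = (1 - a b)^2 e_α + b (1 - a b) h_α + b^2 e_(-α)` with
`h_α = ∑ α_i e (inl i)` (`C.E`, `C.F` in Defs; `X_(-α)(b) e_α = e_α + b h_α + b^2 e_(-α)`,
`X_α(a) h_α = h_α - 2 a e_α`, `X_α(a) e_(-α) = e_(-α) - a h_α + a^2 e_α`), and it is fixed by `X_(-α)(d)`; the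
coefficient of `h_α` gives `d (1 - a b)^2 = 0` (some coordinate `α_i` is not zero in `K`, see T3.lean;
for simple roots it is `1`). If `d = 0` then `X_α(c) = 1`, so `c = 0` (`xg_inj`). So `a b = 1`.
`rank_mat`: the orbit of `simple i` is `{simple i}` or orthogonal; `yb` is the product of the
commuting elements `xg (simple (ρ^l i)) (θ'^l a)` (`isSig_adS`, `IsSig.iter`, signs `1` on simple roots). All
factors with `l ≠ 0` fix `e_(±α)` and `h_α = e (inl i)` for `α = simple i` (the inner products are `0`, so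
`α ± α_l` are not roots), so on these three vectors `yb (±α) a` acts as `xg (±α) a`, and the
calculation above applies.
-/

set_option autoImplicit false
open Matrix

namespace Pool.Agent.H86.UM

open Pool.Agent.H75.UL

variable {n : ℕ} (C : SLC n)

section
variable {K : Type*} [Field K]

/-- the basis vector of the root `β` -/
private def FCm_e (β : C.Root) : C.Idx → K := Pi.single (Sum.inr β) 1

/-- the vector `h_α` -/
private def FCm_h (α : C.Root) : C.Idx → K := Sum.elim (fun i => (α.1 i : K)) (fun _ => 0)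

private theorem FCm_h_neg (α : C.Root) : FCm_h C (K := K) (-α) = - FCm_h C α := by
  funext a
  rcases a with i | γ
  · simp [FCm_h]
  · simp [FCm_h]

private theorem FCm_mulVec_e (M : Matrix C.Idx C.Idx K) (β : C.Root) (a : C.Idx) :
    (M *ᵥ FCm_e C β) a = M a (Sum.inr β) := by
  unfold FCm_e
  rw [Matrix.mulVec_single_one]
  rfl

private theorem FCm_mulVec_h (M : Matrix C.Idx C.Idx K) (α : C.Root) (a : C.Idx) :
    (M *ᵥ FCm_h C α) a = ∑ i, M a (Sum.inl i) * (α.1 i : K) := by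
  unfold FCm_h Matrix.mulVec dotProduct
  rw [Fintype.sum_sum_type]
  simp

private theorem FCm_ip_cast (β α : C.Root) :
    ∑ i, ((C.ip (Pi.single i 1) β.1 : ℤ) : K) * (α.1 i : K) = ((C.ip α.1 β.1 : ℤ) : K) := by
  rw [← C.sum_ip_single α.1 β.1, Int.cast_sum]
  refine Finset.sum_congr rfl fun i _ => ?_
  rw [Int.cast_mul, mul_comm]

private theorem FCm_E_h (β α : C.Root) :
    ((C.E β).map (Int.cast : ℤ → K)) *ᵥ FCm_h C α = (-(C.ip α.1 β.1 : ℤ) : K) • FCm_e C β := by
  funext a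
  rw [FCm_mulVec_h]
  rcases a with j | γ
  · simp [SLC.E, FCm_e]
  · simp only [Matrix.map_apply, SLC.E, Pi.smul_apply, smul_eq_mul, FCm_e]
    by_cases h : γ = β
    · subst h
      simp only [if_true, Pi.single_eq_same, mul_one]
      rw [← FCm_ip_cast C γ α, ← Finset.sum_neg_distrib]
      refine Finset.sum_congr rfl fun i _ => ?_
      rw [Int.cast_neg, neg_mul]
    · have h1 : ¬ γ.1 = β.1 := fun h1 => h (SLC.Root.ext h1)
      have h2 : (Sum.inr γ : C.Idx) ≠ Sum.inr β := fun h2 => h (Sum.inr.inj h2)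
      simp [h1, Pi.single_eq_of_ne h2]

private theorem FCm_F_h (β α : C.Root) :
    ((C.F β).map (Int.cast : ℤ → K)) *ᵥ FCm_h C α = 0 := by
  funext a
  rw [FCm_mulVec_h]
  rcases a with j | γ
  · simp [SLC.F]
  · simp [SLC.F]

private theorem FCm_X (β : C.Root) (t : K) (v : C.Idx → K) :
    C.X K β t *ᵥ v = v + t • (((C.E β).map (Int.cast : ℤ → K)) *ᵥ v) +
      t ^ 2 • (((C.F β).map (Int.cast : ℤ → K)) *ᵥ v) := by
  unfold SLC.X
  rw [Matrix.add_mulVec, Matrix.add_mulVec, Matrix.one_mulVec, Matrix.smul_mulVec,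
    Matrix.smul_mulVec]

private theorem FCm_E_self (α : C.Root) :
    ((C.E α).map (Int.cast : ℤ → K)) *ᵥ FCm_e C α = 0 := by
  funext a
  rw [FCm_mulVec_e]
  rcases a with j | γ
  · have h1 : ¬ α.1 = -α.1 := fun h => C.neg_ne_self α h.symm
    simp [SLC.E, h1]
  · have h1 := C.root_add_self α γ
    simp [SLC.E, h1]

private theorem FCm_F_self (α : C.Root) :
    ((C.F α).map (Int.cast : ℤ → K)) *ᵥ FCm_e C α = 0 := by
  funext a
  rw [FCm_mulVec_e]
  rcases a with j | γ
  · simp [SLC.F]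
  · have h1 : ¬ α.1 = -α.1 := fun h => C.neg_ne_self α h.symm
    simp [SLC.F, h1]

private theorem FCm_E_neg (α : C.Root) :
    ((C.E α).map (Int.cast : ℤ → K)) *ᵥ FCm_e C (-α) = - FCm_h C α := by
  funext a
  rw [FCm_mulVec_e]
  rcases a with j | γ
  · simp [SLC.E, FCm_h]
  · have h1 : ¬ γ.1 = 0 := C.root_ne_zero γ
    simp [SLC.E, FCm_h, h1]

private theorem FCm_F_neg (α : C.Root) :
    ((C.F α).map (Int.cast : ℤ → K)) *ᵥ FCm_e C (-α) = FCm_e C α := by
  funext a
  rw [FCm_mulVec_e]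
  rcases a with j | γ
  · simp [SLC.F, FCm_e]
  · by_cases h : γ = α
    · subst h
      simp [SLC.F, FCm_e]
    · have h1 : ¬ γ.1 = α.1 := fun h1 => h (SLC.Root.ext h1)
      have h2 : (Sum.inr γ : C.Idx) ≠ Sum.inr α := fun h2 => h (Sum.inr.inj h2)
      simp [SLC.F, FCm_e, h1, Pi.single_eq_of_ne h2]

/-- the matrix `M` acts on `e_α, h_α, e_(-α)` as `X_α(t)` -/
private structure FCm_P (α : C.Root) (t : K) (M : Matrix C.Idx C.Idx K) : Prop where
  e : M *ᵥ FCm_e C α = FCm_e C α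
  h : M *ᵥ FCm_h C α = FCm_h C α - (2 * t) • FCm_e C α
  f : M *ᵥ FCm_e C (-α) = FCm_e C (-α) - t • FCm_h C α + t ^ 2 • FCm_e C α

private theorem FCm_P_X (α : C.Root) (t : K) : FCm_P C α t (C.X K α t) := by
  refine ⟨?_, ?_, ?_⟩
  · rw [FCm_X, FCm_E_self, FCm_F_self, smul_zero, smul_zero, add_zero, add_zero]
  · rw [FCm_X, FCm_E_h, FCm_F_h, smul_zero, add_zero, α.2, smul_smul, sub_eq_add_neg, ← neg_smul]
    congr 2
    push_cast
    ring
  · rw [FCm_X, FCm_E_neg, FCm_F_neg, smul_neg, sub_eq_add_neg]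

/-- the main calculation -/
private theorem FCm_core (α : C.Root) (a b c d : K) (Pa Pc Qb Qd : Matrix C.Idx C.Idx K)
    (hPa : FCm_P C α a Pa) (hPc : FCm_P C α c Pc) (hQb : FCm_P C (-α) b Qb)
    (hQd : FCm_P C (-α) d Qd) (h : Pa * Qb * Pa * Pc = Qd * (Pa * Qb * Pa)) (i : Fin n)
    (hi : (α.1 i : K) ≠ 0) : d = 0 ∨ a * b = 1 := by
  have q1 : Qb *ᵥ FCm_e C α = FCm_e C α + b • FCm_h C α + b ^ 2 • FCm_e C (-α) := by
    have := hQb.f
    rw [C.neg_neg_root, FCm_h_neg, smul_neg, sub_neg_eq_add] at this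
    exact this
  have q1' : Qd *ᵥ FCm_e C α = FCm_e C α + d • FCm_h C α + d ^ 2 • FCm_e C (-α) := by
    have := hQd.f
    rw [C.neg_neg_root, FCm_h_neg, smul_neg, sub_neg_eq_add] at this
    exact this
  have q2' : Qd *ᵥ FCm_h C α = FCm_h C α + (2 * d) • FCm_e C (-α) := by
    have := hQd.h
    rw [FCm_h_neg, Matrix.mulVec_neg] at this
    have h2 := congrArg Neg.neg this
    rw [neg_neg] at h2
    rw [h2, neg_sub, sub_neg_eq_add, add_comm]
  have q3' : Qd *ᵥ FCm_e C (-α) = FCm_e C (-α) := hQd.e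
  have hN : (Pa * Qb * Pa) *ᵥ FCm_e C α = ((1 - a * b) ^ 2) • FCm_e C α +
      (b * (1 - a * b)) • FCm_h C α + b ^ 2 • FCm_e C (-α) := by
    rw [← Matrix.mulVec_mulVec, hPa.e, ← Matrix.mulVec_mulVec, q1, Matrix.mulVec_add,
      Matrix.mulVec_add, Matrix.mulVec_smul, Matrix.mulVec_smul, hPa.e, hPa.h, hPa.f]
    module
  have h1 : (Pa * Qb * Pa * Pc) *ᵥ FCm_e C α = (Pa * Qb * Pa) *ᵥ FCm_e C α := by
    rw [← Matrix.mulVec_mulVec, hPc.e]
  have h2 : Qd *ᵥ ((Pa * Qb * Pa) *ᵥ FCm_e C α) = (Pa * Qb * Pa) *ᵥ FCm_e C α := by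
    rw [Matrix.mulVec_mulVec, ← h, h1]
  rw [hN, Matrix.mulVec_add, Matrix.mulVec_add, Matrix.mulVec_smul, Matrix.mulVec_smul,
    Matrix.mulVec_smul, q1', q2', q3'] at h2
  have h3 := congrFun h2 (Sum.inl i)
  have e1 : ∀ β : C.Root, (FCm_e C β : C.Idx → K) (Sum.inl i) = 0 := by
    intro β
    simp [FCm_e]
  have e2 : (FCm_h C α : C.Idx → K) (Sum.inl i) = (α.1 i : K) := rfl
  simp only [Pi.add_apply, Pi.smul_apply, smul_eq_mul, e1, e2] at h3
  have h4 : d * (1 - a * b) ^ 2 * (α.1 i : K) = 0 := by linear_combination h3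
  rcases mul_eq_zero.1 h4 with h5 | h5
  · rcases mul_eq_zero.1 h5 with h6 | h6
    · exact Or.inl h6
    · right
      have := pow_eq_zero_iff (two_ne_zero) |>.1 h6
      linear_combination -this
  · exact absurd h5 hi

/-- if `X_α(c)` acts trivially then `c = 0` -/
private theorem FCm_triv (α : C.Root) (c : K) (hP : FCm_P C α c (1 : Matrix C.Idx C.Idx K)) :
    c = 0 := by
  have h1 := congrFun hP.f (Sum.inr α)
  rw [Matrix.one_mulVec] at h1
  have e1 : (FCm_e C (-α) : C.Idx → K) (Sum.inr α) = 0 := by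
    unfold FCm_e
    rw [Pi.single_eq_of_ne]
    intro h
    exact C.neg_ne_self α (congrArg SLC.Root.val (Sum.inr.inj h)).symm
  have e2 : (FCm_h C α : C.Idx → K) (Sum.inr α) = 0 := rfl
  have e3 : (FCm_e C α : C.Idx → K) (Sum.inr α) = 1 := by
    unfold FCm_e
    rw [Pi.single_eq_same]
  simp only [Pi.add_apply, Pi.sub_apply, Pi.smul_apply, smul_eq_mul, e1, e2, e3] at h1
  have h2 : c ^ 2 = 0 := by linear_combination -h1
  exact pow_eq_zero_iff (two_ne_zero) |>.1 h2

/-- roots orthogonal to `β` -/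
private theorem FCm_orth (γ β : C.Root) (h : C.ip γ.1 β.1 = 0) (u : K) :
    C.X K γ u *ᵥ FCm_e C β = FCm_e C β := by
  have h1 : ¬ β.1 = -γ.1 := by
    intro h1
    rw [h1, C.ip_neg_right, γ.2] at h
    omega
  have hE : ((C.E γ).map (Int.cast : ℤ → K)) *ᵥ FCm_e C β = 0 := by
    funext a
    rw [FCm_mulVec_e]
    rcases a with j | δ
    · simp [SLC.E, h1]
    · have h2 : ¬ δ.1 = γ.1 + β.1 := by
        intro h2
        have := C.ip_add_root γ β δ h2
        omega
      simp [SLC.E, h2]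
  have hF : ((C.F γ).map (Int.cast : ℤ → K)) *ᵥ FCm_e C β = 0 := by
    funext a
    rw [FCm_mulVec_e]
    rcases a with j | δ
    · simp [SLC.F]
    · simp [SLC.F, h1]
  rw [FCm_X, hE, hF, smul_zero, smul_zero, add_zero, add_zero]

private theorem FCm_orth_h (γ β : C.Root) (h : C.ip γ.1 β.1 = 0) (u : K) :
    C.X K γ u *ᵥ FCm_h C β = FCm_h C β := by
  rw [FCm_X, FCm_E_h, FCm_F_h, C.ip_comm, h]
  simp

private theorem FCm_list (v : C.Idx → K) (l : List (GL C.Idx K))
    (h : ∀ g ∈ l, (g : Matrix C.Idx C.Idx K) *ᵥ v = v) :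
    ((l.prod : GL C.Idx K) : Matrix C.Idx C.Idx K) *ᵥ v = v := by
  induction l with
  | nil => simp
  | cons g l ih =>
    rw [List.prod_cons, Units.val_mul, ← Matrix.mulVec_mulVec,
      ih fun g hg => h g (List.mem_cons_of_mem _ hg), h g List.mem_cons_self]

private theorem FCm_yb (D : Dg C) (θ' : K ≃+* K) (β : C.Root)
    (hβ : D.r β ≠ β → C.ip β.1 (D.r β).1 = 0) (t : K) :
    FCm_P C β t ((yb D (C.adS K) (D.sgl θ') β t : GL C.Idx K) : Matrix C.Idx C.Idx K) := by
  obtain ⟨j, hj⟩ : ∃ j, mo D β = j + 1 := by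
    refine ⟨mo D β - 1, ?_⟩
    have : 0 < mo D β := by
      unfold mo
      split_ifs
      · exact one_pos
      · rcases D.m_cases with h | h | h <;> omega
    omega
  have horth : ∀ l, l < j → C.ip (D.r^[l + 1] β).1 β.1 = 0 := by
    intro l hl
    have hr : D.r β ≠ β := by
      intro hr
      unfold mo at hj
      rw [if_pos hr] at hj
      omega
    have hm : mo D β = D.m := by
      unfold mo
      rw [if_neg hr]
    rw [C.ip_comm, D.ip_orb β hr (l + 1) (by omega) (by omega)]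
    exact hβ hr
  have hy : yb D (C.adS K) (D.sgl θ') β t = C.xg K β t *
      ((List.range j).map fun l => (D.sgl θ')^[l + 1] (C.xg K β t)).prod := by
    unfold yb
    rw [hj, List.range_succ_eq_map, List.map_cons, List.prod_cons, List.map_map]
    rfl
  have hfix : ∀ v : C.Idx → K, (∀ γ : C.Root, C.ip γ.1 β.1 = 0 → ∀ u, C.X K γ u *ᵥ v = v) →
      ((yb D (C.adS K) (D.sgl θ') β t : GL C.Idx K) : Matrix C.Idx C.Idx K) *ᵥ v =
        C.X K β t *ᵥ v := by
    intro v hv
    rw [hy, Units.val_mul, ← Matrix.mulVec_mulVec, FCm_list]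
    · rfl
    · intro g hg
      rw [List.mem_map] at hg
      obtain ⟨l, hl, rfl⟩ := hg
      rw [List.mem_range] at hl
      have e := (isSig_adS (D := D) θ').iter (l + 1) β t
      rw [SLC.adS_x] at e
      rw [e]
      exact hv _ (horth l hl) _
  have hX := FCm_P_X C β t
  refine ⟨?_, ?_, ?_⟩
  · rw [hfix _ fun γ hγ u => FCm_orth C γ β hγ u]
    exact hX.e
  · rw [hfix _ fun γ hγ u => FCm_orth_h C γ β hγ u]
    exact hX.h
  · rw [hfix _ fun γ hγ u => FCm_orth C γ (-β) (by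
      rw [SLC.Root.neg_val, C.ip_neg_right, hγ, neg_zero]) u]
    exact hX.f

private theorem FCm_yb_zero (D : Dg C) (θ' : K ≃+* K) (β : C.Root) :
    yb D (C.adS K) (D.sgl θ') β 0 = 1 := by
  unfold yb
  apply List.prod_eq_one
  intro g hg
  rw [List.mem_map] at hg
  obtain ⟨l, -, rfl⟩ := hg
  rw [(C.adS K).x_zero]
  exact iterate_map_one _ l

end

theorem rank_mat' {K : Type*} [Field K] (α : C.Root) (a b c d : K) (hc : c ≠ 0)
    (h : C.xg K α a * C.xg K (-α) b * C.xg K α a * C.xg K α c =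
      C.xg K (-α) d * (C.xg K α a * C.xg K (-α) b * C.xg K α a)) : a * b = 1 := by
  obtain ⟨i, hi⟩ := C.exists_coeff_ne_zero α K
  have hm := congrArg Units.val h
  simp only [Units.val_mul] at hm
  rcases FCm_core C α a b c d _ _ _ _ (FCm_P_X C α a) (FCm_P_X C α c) (FCm_P_X C (-α) b)
    (FCm_P_X C (-α) d) hm i hi with h1 | h1
  · exfalso
    subst h1
    have e : C.xg K (-α) 0 = 1 := Units.ext (C.X_zero K (-α))
    rw [e, one_mul, mul_eq_left] at h
    have h2 : C.X K α c = 1 := congrArg Units.val h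
    have h3 := FCm_P_X C α c
    rw [h2] at h3
    exact hc (FCm_triv C α c h3)
  · exact h1

theorem rank_mat (D : Dg C) {K : Type*} [Field K] (θ' : K ≃+* K)
    (hθ : ∀ t, (⇑θ')^[D.m] t = t) (i : Fin n) (hi : C.A i (D.ρ i) ≠ -1) (a b c d : K)
    (hc : c ≠ 0)
    (h : yb D (C.adS K) (D.sgl θ') (C.simple i) a * yb D (C.adS K) (D.sgl θ') (-(C.simple i)) b *
      yb D (C.adS K) (D.sgl θ') (C.simple i) a * yb D (C.adS K) (D.sgl θ') (C.simple i) c =
      yb D (C.adS K) (D.sgl θ') (-(C.simple i)) d *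
        (yb D (C.adS K) (D.sgl θ') (C.simple i) a *
          yb D (C.adS K) (D.sgl θ') (-(C.simple i)) b *
          yb D (C.adS K) (D.sgl θ') (C.simple i) a)) : a * b = 1 := by
  have h1 : D.r (C.simple i) ≠ C.simple i →
      C.ip (C.simple i).1 (D.r (C.simple i)).1 = 0 := by
    intro hr
    rw [D.r_simple] at hr ⊢
    rw [SLC.simple_val, SLC.simple_val, SLC.ip_single]
    exact (C.off i (D.ρ i) (fun he => hr (by rw [← he]))).resolve_right hi
  have h2 : D.r (-(C.simple i)) ≠ -(C.simple i) →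
      C.ip (-(C.simple i)).1 (D.r (-(C.simple i))).1 = 0 := by
    intro hr
    rw [D.r_neg] at hr ⊢
    rw [SLC.Root.neg_val, SLC.Root.neg_val, C.ip_neg_neg]
    exact h1 fun he => hr (by rw [he])
  have hone : ((C.simple i).1 i : K) ≠ 0 := by
    rw [SLC.simple_val, Pi.single_eq_same, Int.cast_one]
    exact one_ne_zero
  have hm := congrArg Units.val h
  simp only [Units.val_mul] at hm
  rcases FCm_core C (C.simple i) a b c d _ _ _ _ (FCm_yb C D θ' _ h1 a) (FCm_yb C D θ' _ h1 c)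
    (FCm_yb C D θ' _ h2 b) (FCm_yb C D θ' _ h2 d) hm i hone with h3 | h3
  · exfalso
    subst h3
    rw [FCm_yb_zero, one_mul, mul_eq_left] at h
    have h4 := FCm_yb C D θ' _ h1 c
    rw [h, Units.val_one] at h4
    exact hc (FCm_triv C _ c h4)
  · exact h3

end Pool.Agent.H86.UM
end
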