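import Pool.Agent.H86.AL.M10
import Pool.Agent.H86.AL.M13

/-!
# M16: collected modules

Pool.Agent.H75.UK.K5a
Pool.Agent.H75.UK.K5
Pool.Agent.H86.UM.OM
Pool.Agent.H75.UE.L1
Pool.Agent.H75.UL.P2
-/

section
/- module Pool.Agent.H75.UK.K5a -/
/-!
# Project UK, module K5a: the optimal weight and `σ`

`FilR_sgl`: entries: `(sgl θ g) (ρ a) (ρ b) = ± θ (g a b)` where `ρ (inl i) = inl (ρ i)`,
`ρ (inr β) = inr (r β)`, and `dg (lam ∘ ρ⁻¹) (ρ a) = dg lam a`.
`opt_sgl`: `(σ(g), lam ∘ ρ⁻¹, s)` is optimal: `σ(g)⁻¹ γ' σ(g) - 1 = σ(g⁻¹ γ g) - 1` for `γ' = σ γ`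
(`nrm` is invariant: reindex by `rE`; maximality is that of `(g, lam, s)`). `opt_unique`.
-/

set_option autoImplicit false
open Matrix
universe u
namespace Pool.Agent.H75.UL

section
variable {n : ℕ} {C : SLC n} (D : Dg C)

/-- The permutation of the index set. -/
private def K5a_p (a : C.Idx) : C.Idx := Sum.map D.ρ D.r a

/-- The signs on the index set. -/
private def K5a_s (a : C.Idx) : ℤ := Sum.elim (fun _ => 1) D.sg a

private theorem K5a_s_sq (a : C.Idx) : K5a_s D a * K5a_s D a = 1 := by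
  rcases a with i | β
  · simp [K5a_s]
  · exact D.sg_sq β

private theorem K5a_s_cast {R : Type*} [CommRing R] (a : C.Idx) :
    (K5a_s D a : R) * (K5a_s D a : R) = 1 := by
  rw [← Int.cast_mul, K5a_s_sq]
  simp

private theorem K5a_p_inj : Function.Injective (K5a_p D) := by
  unfold K5a_p
  exact Sum.map_injective.mpr ⟨D.ρ.injective, D.r_injective⟩

private theorem K5a_p_surj : Function.Surjective (K5a_p D) :=
  Finite.surjective_of_injective (K5a_p_inj D)

private theorem K5a_mat (R : Type*) [CommRing R] (a b : C.Idx) :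
    D.mat R a b = if a = K5a_p D b then (K5a_s D b : R) else 0 := by
  rcases a with i | γ <;> rcases b with j | β <;> simp [Dg.mat, K5a_p, K5a_s]

private theorem K5a_entry {R : Type*} [CommRing R] (θ : R ≃+* R) (g : GL C.Idx R) (a b : C.Idx) :
    ((D.sgl θ g : GL C.Idx R) : Matrix C.Idx C.Idx R) (K5a_p D a) (K5a_p D b) =
      (K5a_s D a : R) * (K5a_s D b : R) * θ ((g : Matrix C.Idx C.Idx R) a b) := by
  have h1 : ((D.sgl θ g : GL C.Idx R) : Matrix C.Idx C.Idx R) =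
      D.mat R * ((g : Matrix C.Idx C.Idx R).map (θ : R →+* R)) * (D.mat R)ᵀ := by
    rw [Dg.sgl_apply, Units.val_mul, Units.val_mul, SLC.mp_val]
    rfl
  rw [h1, Matrix.mul_apply, Finset.sum_eq_single b]
  · rw [Matrix.mul_apply, Finset.sum_eq_single a]
    · rw [Matrix.transpose_apply, K5a_mat, K5a_mat, if_pos rfl, if_pos rfl, Matrix.map_apply]
      change _ * θ _ * _ = _
      ring
    · intro c _ hc
      rw [K5a_mat, if_neg, zero_mul]
      intro h
      exact hc (K5a_p_inj D h).symm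
    · intro h
      exact absurd (Finset.mem_univ _) h
  · intro c _ hc
    rw [Matrix.transpose_apply, K5a_mat, if_neg, mul_zero]
    intro h
    exact hc (K5a_p_inj D h).symm
  · intro h
    exact absurd (Finset.mem_univ _) h

private theorem K5a_one (R : Type*) [CommRing R] (a b : C.Idx) :
    (1 : Matrix C.Idx C.Idx R) (K5a_p D a) (K5a_p D b) =
      (K5a_s D a : R) * (K5a_s D b : R) * (1 : Matrix C.Idx C.Idx R) a b := by
  by_cases h : a = b
  · subst h
    rw [Matrix.one_apply_eq, Matrix.one_apply_eq, K5a_s_cast]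
    ring
  · rw [Matrix.one_apply_ne h, Matrix.one_apply_ne (fun h' => h (K5a_p_inj D h'))]
    ring

private theorem K5a_entry_one {R : Type*} [CommRing R] (θ : R ≃+* R) (g : GL C.Idx R)
    (a b : C.Idx) :
    (((D.sgl θ g : GL C.Idx R) : Matrix C.Idx C.Idx R) - 1) (K5a_p D a) (K5a_p D b) =
      (K5a_s D a : R) * (K5a_s D b : R) * θ (((g : Matrix C.Idx C.Idx R) - 1) a b) := by
  rw [Matrix.sub_apply, Matrix.sub_apply, K5a_entry, K5a_one, map_sub, mul_sub]
  congr 2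
  by_cases h : a = b
  · subst h
    rw [Matrix.one_apply_eq, map_one]
  · rw [Matrix.one_apply_ne h, map_zero]

/-- The weight `lam ∘ ρ⁻¹`. -/
private def K5a_l (lam : Fin n → ℝ) : Fin n → ℝ := fun i => lam (D.ρ.symm i)

private theorem K5a_pr (lam : Fin n → ℝ) (β : C.Root) :
    C.pr (K5a_l D lam) (D.r β) = C.pr lam β := by
  unfold SLC.pr K5a_l
  rw [← Equiv.sum_comp D.ρ]
  refine Finset.sum_congr rfl fun i _ => ?_
  rw [D.r_val, Equiv.symm_apply_apply]

private theorem K5a_dg (lam : Fin n → ℝ) (a : C.Idx) :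
    C.dg (K5a_l D lam) (K5a_p D a) = C.dg lam a := by
  rcases a with i | β
  · rfl
  · exact K5a_pr D lam β

private theorem K5a_nrm (lam : Fin n → ℝ) : C.nrm (K5a_l D lam) = C.nrm lam := by
  unfold SLC.nrm
  rw [← Equiv.sum_comp D.rE]
  refine Finset.sum_congr rfl fun β _ => ?_
  rw [Dg.rE_apply, K5a_pr]

private theorem K5a_fil {F : Type*} [Field F] (θ : F ≃+* F) (lam : Fin n → ℝ) (s : ℝ)
    (M N : Matrix C.Idx C.Idx F)
    (h : ∀ a b, N (K5a_p D a) (K5a_p D b) = (K5a_s D a : F) * (K5a_s D b : F) * θ (M a b)) :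
    C.FilR (K5a_l D lam) s N ↔ C.FilR lam s M := by
  have hne : ∀ a b, N (K5a_p D a) (K5a_p D b) ≠ 0 ↔ M a b ≠ 0 := by
    intro a b
    have ha : (K5a_s D a : F) ≠ 0 := left_ne_zero_of_mul_eq_one (K5a_s_cast D a)
    have hb : (K5a_s D b : F) ≠ 0 := left_ne_zero_of_mul_eq_one (K5a_s_cast D b)
    rw [h, ne_eq, mul_eq_zero, mul_eq_zero, map_eq_zero_iff θ θ.injective]
    tauto
  constructor
  · intro hN a b hab
    have := hN (K5a_p D a) (K5a_p D b) ((hne a b).2 hab)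
    rwa [K5a_dg, K5a_dg] at this
  · intro hM a b hab
    obtain ⟨a', rfl⟩ := K5a_p_surj D a
    obtain ⟨b', rfl⟩ := K5a_p_surj D b
    rw [K5a_dg, K5a_dg]
    exact hM a' b' ((hne a' b').1 hab)

end

section
variable {n : ℕ} {C : SLC n} (D : Dg C) {F : Type*} [Field F]

private theorem K5a_opt (θ : F ≃+* F) (Γ : Subgroup (GL C.Idx F)) (hθΓ : Γ.map (D.sgl θ) = Γ)
    (g : GL C.Idx F) (lam : Fin n → ℝ) (s : ℝ) (h : C.Opt Γ g lam s) :
    C.Opt Γ (D.sgl θ g) (K5a_l D lam) s where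
  mem := sgl_Gad D θ g h.mem
  dom := fun i => h.dom _
  nrm := (K5a_nrm D lam).trans h.nrm
  pos := h.pos
  sp := by
    intro γ' hγ'
    rw [← hθΓ] at hγ'
    obtain ⟨γ, hγ, rfl⟩ := hγ'
    have h1 : (D.sgl θ g)⁻¹ * D.sgl θ γ * D.sgl θ g = D.sgl θ (g⁻¹ * γ * g) := by
      rw [map_mul, map_mul, map_inv]
    rw [h1]
    exact (K5a_fil D θ lam s _ _ (K5a_entry_one D θ (g⁻¹ * γ * g))).2 (h.sp γ hγ)
  max := h.max

theorem FilR_sgl (θ : F ≃+* F) (lam : Fin n → ℝ) (hl : ∀ i, lam (D.ρ i) = lam i) (s : ℝ)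
    (g : GL C.Idx F) :
    C.FilR lam s ((D.sgl θ g : GL C.Idx F) : Matrix C.Idx C.Idx F) ↔
      C.FilR lam s (g : Matrix C.Idx C.Idx F) := by
  have h1 : K5a_l D lam = lam := by
    funext i
    have := hl (D.ρ.symm i)
    rw [Equiv.apply_symm_apply] at this
    exact this.symm
  have h2 := K5a_fil D θ lam s _ _ (K5a_entry D θ g)
  rwa [h1] at h2

theorem opt_sgl (θ : F ≃+* F) (Γ : Subgroup (GL C.Idx F)) (hΓ : Γ ≠ ⊥) (hθΓ : Γ.map (D.sgl θ) = Γ)
    (g : GL C.Idx F) (lam : Fin n → ℝ) (s : ℝ) (h : C.Opt Γ g lam s) :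
    (∀ i, lam (D.ρ i) = lam i) ∧
      C.FilR lam 0 ((g⁻¹ * D.sgl θ g : GL C.Idx F) : Matrix C.Idx C.Idx F) ∧
      C.FilR lam 0 (((D.sgl θ g)⁻¹ * g : GL C.Idx F) : Matrix C.Idx C.Idx F) := by
  have h' := K5a_opt D θ Γ hθΓ g lam s h
  obtain ⟨h1, h2⟩ := C.opt_unique Γ hΓ g (D.sgl θ g) lam (K5a_l D lam) s h h'
  obtain ⟨_, h3⟩ := C.opt_unique Γ hΓ (D.sgl θ g) g (K5a_l D lam) lam s h' h
  refine ⟨fun i => ?_, h2, ?_⟩
  · have h4 := congrFun h1 (D.ρ i)
    rw [h4]
    unfold K5a_l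
    rw [Equiv.symm_apply_apply]
  · rwa [← h1] at h3

end

end Pool.Agent.H75.UL
end

section
/- module Pool.Agent.H75.UK.K5 -/
/-!
# Project UK, module K5: chambers relative to a dominant weight

`gate`: `lam` dominant, `lam ∘ ρ⁻¹ = lam`, `q := g⁻¹ σ(g)` and `q⁻¹` in `FilR lam 0`. Let `Φ_lam` be the
set of roots with `pr lam = 0`. Among all `p ∈ Gad`, `p, p⁻¹ ∈ FilR lam 0`, and all Bruhat
decompositions `g p = u ν b` (`u ∈ U 1`, `ν ∈ N` acting by `w`, `b ∈ U 1`) choose one with the least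
number of positive roots `α` with `w α` negative; absorb `b` in `p` (`FilR_U`): `g p = u ν`. Then `w α` is
positive for every positive `α ∈ Φ_lam`: otherwise for some simple `α_i ∈ Φ_lam` (a positive root in
`Φ_lam` is a combination of simple roots in `Φ_lam`, as `lam` is dominant) `w α_i` is negative; with
`ν_i ∈ N` acting by `s_i = reflE (simple i)` (`ν_i, ν_i⁻¹ ∈ FilR lam 0`, as `wact s_i lam = lam`) `g p ν_i =
u (ν ν_i)`, `w s_i` makes fewer positive roots negative; contradiction. Now `σ(g p) = σ(u) σ(ν)`, and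
`σ(g p) = (g p) q'` with `q' = p⁻¹ q σ(p) ∈ FilR lam 0`, also `q'⁻¹` (`FilR_sgl`). Bruhat:
`q' = b₁ ν' b₂`, `ν'` acting by `v`. `v` preserves `lam`: `ν' = b₁⁻¹ q' b₂⁻¹ ∈ FilR lam 0`, so
`pr lam (v β) ≥ pr lam β` for all `β` (`N_mono`), equality by summing over all roots. By
`exists_lp_inv` we may take `b₁ = lp t` with `t β = 0` if `v⁻¹ β` is positive; if `β > 0` and `v⁻¹ β < 0`
then `pr lam β = pr lam (v⁻¹ β) ≤ 0`, so `β ∈ Φ_lam` positive, so `w β > 0`: `ν b₁ ν⁻¹ ∈ U 1`. So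
`σ(u) σ(ν) = (u (ν b₁ ν⁻¹)) (ν ν') b₂`, and `bruhat_unique` gives `rE w rE⁻¹ = w v`. If `v ≠ 1` there is
`i` with `v α_i` negative (`eq_one_of_pos`), then `pr lam α_i = pr lam (v α_i) ≤ 0`, `α_i ∈ Φ_lam`,
`-v α_i ∈ Φ_lam` positive, `w (-v α_i) > 0`, so `w v α_i < 0`; but `rE w rE⁻¹ α_i` is positive, since
`rE⁻¹ α_i` is a simple root in `Φ_lam` (`lam ∘ ρ⁻¹ = lam`). So `v = 1`, `q' = b₁ ν' b₂` with
`ν' ∈ T` (`N_one`): `q'` is upper triangular. So `sigma_chamber` applies to `g p`: `g p = g₁ b₃`, `g₁ ∈ Eg`,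
`b₃` upper triangular, so `g₁⁻¹ g = b₃ p⁻¹ ∈ FilR lam 0` (`FilR_upper`), and the same for the inverse.
-/

set_option autoImplicit false
open Matrix
universe u
namespace Pool.Agent.H75.UL

section
variable {n : ℕ} {C : SLC n} {F : Type*} [Field F]

/-- The elements of the parabolic subgroup of `lam`. -/
private def K5_P (lam : Fin n → ℝ) (x : GL C.Idx F) : Prop :=
  C.FilR lam 0 (x : Matrix C.Idx C.Idx F) ∧
    C.FilR lam 0 ((x⁻¹ : GL C.Idx F) : Matrix C.Idx C.Idx F)

private theorem K5_inv {lam : Fin n → ℝ} {x : GL C.Idx F} (h : K5_P lam x) : K5_P lam x⁻¹ := by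
  refine ⟨h.2, ?_⟩
  rw [inv_inv]
  exact h.1

private theorem K5_mul {lam : Fin n → ℝ} {x y : GL C.Idx F} (hx : K5_P lam x) (hy : K5_P lam y) :
    K5_P lam (x * y) := by
  constructor
  · have h1 := C.FilR_mul hx.1 hy.1
    rw [add_zero] at h1
    rw [Units.val_mul]
    exact h1
  · have h1 := C.FilR_mul hy.2 hx.2
    rw [add_zero] at h1
    rw [_root_.mul_inv_rev, Units.val_mul]
    exact h1

private theorem K5_U {lam : Fin n → ℝ} (hd : ∀ i, 0 ≤ lam i) (u : GL C.Idx F)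
    (hu : u ∈ (C.adS F).U 1) : K5_P lam u :=
  ⟨C.FilR_U hd u hu, C.FilR_U hd u⁻¹ (inv_mem hu)⟩

private theorem K5_x {lam : Fin n → ℝ} (β : C.Root) (hβ : 0 ≤ C.pr lam β) (t : F) :
    K5_P lam (C.xg F β t) := by
  have key : ∀ t : F, C.FilR lam 0 (C.xg F β t : Matrix C.Idx C.Idx F) := by
    intro t
    have h1 := C.FilR_add (C.FilR_xg (R := F) le_rfl β hβ t) (C.FilR_one (R := F) (lam := lam) le_rfl)
    rw [sub_add_cancel] at h1
    exact h1
  refine ⟨key t, ?_⟩
  have h2 : (C.xg F β t)⁻¹ = C.xg F β (-t) := by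
    have := (C.adS F).x_neg β t
    exact this.symm
  rw [h2]
  exact key (-t)

private theorem K5_pr_nonpos {lam : Fin n → ℝ} (hd : ∀ i, 0 ≤ lam i) (β : C.Root)
    (hβ : ¬ C.Pos β) : C.pr lam β ≤ 0 := by
  rw [C.not_pos_iff] at hβ
  have h1 := C.pr_pos_of_dom hd (-β) hβ
  rw [C.pr_neg] at h1
  linarith

private theorem K5_root_sum (w : Equiv.Perm C.Root) (hw : w ∈ C.W) (β : C.Root) (k : Fin n) :
    (w β).1 k = ∑ i, β.1 i * (w (C.simple i)).1 k := by
  obtain ⟨f, hf, -⟩ := C.W_lin w hw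
  have h1 : β.1 = ∑ i, β.1 i • (Pi.single i 1 : Fin n → ℤ) := by
    funext j
    rw [Finset.sum_apply]
    simp [Pi.single_apply]
  rw [hf]
  conv_lhs => rw [h1]
  rw [map_sum, Finset.sum_apply]
  apply Finset.sum_congr rfl
  intro i _
  rw [map_zsmul, Pi.smul_apply, smul_eq_mul, hf]
  rfl

/-- Positivity on the positive roots of degree zero. -/
private theorem K5_pos {lam : Fin n → ℝ} (hd : ∀ i, 0 ≤ lam i) (w : Equiv.Perm C.Root)
    (hw : w ∈ C.W) (hs : ∀ i, lam i = 0 → C.Pos (w (C.simple i))) (β : C.Root) (hβ : C.Pos β)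
    (h0 : C.pr lam β = 0) : C.Pos (w β) := by
  rw [C.pos_iff] at hβ ⊢
  have hz : ∀ i, (β.1 i : ℝ) * lam i = 0 := by
    have h1 : ∀ i ∈ Finset.univ, 0 ≤ (β.1 i : ℝ) * lam i := fun i _ =>
      mul_nonneg (by exact_mod_cast hβ i) (hd i)
    intro i
    exact (Finset.sum_eq_zero_iff_of_nonneg h1).mp h0 i (Finset.mem_univ i)
  intro k
  rw [K5_root_sum w hw β k]
  apply Finset.sum_nonneg
  intro i _
  rcases mul_eq_zero.mp (hz i) with h | h
  · have h2 : β.1 i = 0 := by exact_mod_cast h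
    rw [h2, zero_mul]
  · exact mul_nonneg (hβ i) ((C.pos_iff _).mp (hs i h) k)

/-- The number of positive roots made negative. -/
private noncomputable def K5_inv_count (C : SLC n) (w : Equiv.Perm C.Root) : ℕ := by
  classical
  exact (Finset.univ.filter fun α : C.Root => C.Pos α ∧ ¬ C.Pos (w α)).card

private theorem K5_count_lt (w : Equiv.Perm C.Root) (hw : w ∈ C.W) (i : Fin n)
    (hi : ¬ C.Pos (w (C.simple i))) :
    K5_inv_count C (w * C.reflE (C.simple i)) < K5_inv_count C w := by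
  classical
  unfold K5_inv_count
  rw [← Finset.card_image_of_injective _ (C.reflE (C.simple i)).injective]
  apply Finset.card_lt_card
  rw [Finset.ssubset_iff_of_subset]
  · refine ⟨C.simple i, ?_, ?_⟩
    · rw [Finset.mem_filter]
      exact ⟨Finset.mem_univ _, C.simple_pos i, hi⟩
    · rw [Finset.mem_image]
      rintro ⟨α, hα, h1⟩
      rw [Finset.mem_filter] at hα
      exact C.refl_simple_ne i α hα.2.1 h1
  · intro γ hγ
    rw [Finset.mem_image] at hγ
    obtain ⟨α, hα, rfl⟩ := hγ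
    rw [Finset.mem_filter] at hα ⊢
    obtain ⟨-, hα1, hα2⟩ := hα
    refine ⟨Finset.mem_univ _, ?_, hα2⟩
    have hne : α ≠ C.simple i := by
      rintro rfl
      apply hα2
      rw [Equiv.Perm.mul_apply]
      have h3 : C.reflE (C.simple i) (C.simple i) = -(C.simple i) := C.refl_self _
      rw [h3, C.W_neg w hw, ← C.not_pos_iff]
      exact hi
    exact C.refl_simple_pos i α hα1 hne

private theorem K5_Fil {g h : GL C.Idx F} (hg : C.Fil 0 (g : Matrix C.Idx C.Idx F))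
    (hh : C.Fil 0 (h : Matrix C.Idx C.Idx F)) :
    C.Fil 0 ((g * h : GL C.Idx F) : Matrix C.Idx C.Idx F) := by
  have h1 := C.Fil_mul hg hh
  rw [add_zero] at h1
  rw [Units.val_mul]
  exact h1

/-- The Weyl group element of a monomial element of the parabolic subgroup preserves `lam`. -/
private theorem K5_pr_le {lam : Fin n → ℝ} (ν : GL C.Idx F) (v : Equiv.Perm C.Root)
    (hν : ν ∈ (C.adS F).N) (hv : (C.adS F).Acts ν v)
    (h : C.FilR lam 0 (ν : Matrix C.Idx C.Idx F)) (β : C.Root) :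
    C.pr lam β ≤ C.pr lam (v β) := by
  have h1 := h (Sum.inr (v β)) (Sum.inr β) ((C.N_mono ν v hv hν).2.2.2.2 β)
  rw [add_zero] at h1
  exact h1

private theorem K5_pr_eq {lam : Fin n → ℝ} (ν : GL C.Idx F) (v : Equiv.Perm C.Root)
    (hν : ν ∈ (C.adS F).N) (hv : (C.adS F).Acts ν v) (h : K5_P lam ν) (β : C.Root) :
    C.pr lam (v β) = C.pr lam β := by
  apply le_antisymm
  · have h1 := K5_pr_le ν⁻¹ v⁻¹ (inv_mem hν) (C.Acts_inv _ _ _ hv) h.2 (v β)
    have h2 : v⁻¹ (v β) = β := v.symm_apply_apply β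
    rw [h2] at h1
    exact h1
  · exact K5_pr_le ν v hν hv h.1 β

/-- A minimal decomposition. -/
private theorem K5_min {lam : Fin n → ℝ} (hd : ∀ i, 0 ≤ lam i) (g : GL C.Idx F)
    (hg : g ∈ C.Gad F) : ∃ p ∈ C.Gad F, K5_P lam p ∧ ∃ u ∈ (C.adS F).U 1, ∃ ν ∈ (C.adS F).N,
      ∃ w ∈ C.W, (C.adS F).Acts ν w ∧ g * p = u * ν ∧
        ∀ i, lam i = 0 → C.Pos (w (C.simple i)) := by
  classical
  set S := C.adS F with hS
  have hUG : ∀ x, x ∈ S.U 1 → x ∈ C.Gad F := by
    intro x hx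
    rw [← C.gen_adS]
    exact S.U_le_gen 1 hx
  have hNG : ∀ x, x ∈ S.N → x ∈ C.Gad F := by
    intro x hx
    rw [← C.gen_adS]
    exact S.N_le_gen hx
  have hex : ∃ k : ℕ, ∃ p ∈ C.Gad F, K5_P lam p ∧ ∃ u ∈ S.U 1, ∃ ν ∈ S.N,
      ∃ w ∈ C.W, S.Acts ν w ∧ g * p = u * ν ∧ K5_inv_count C w = k := by
    obtain ⟨u, hu, ν, hν, b, hb, h⟩ := S.bruhat g (by rw [C.gen_adS]; exact hg)
    obtain ⟨w, hw, hact, -⟩ := S.N_acts ν hν
    refine ⟨_, b⁻¹, inv_mem (hUG b hb), K5_U hd _ (inv_mem hb), u, hu, ν, hν, w, hw, hact, ?_, rfl⟩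
    rw [h]
    group
  obtain ⟨p, hp, hpP, u, hu, ν, hν, w, hw, hact, hgp, hk⟩ := Nat.find_spec hex
  refine ⟨p, hp, hpP, u, hu, ν, hν, w, hw, hact, hgp, ?_⟩
  intro i hi
  by_contra hcon
  have hpr : C.pr lam (C.simple i) = 0 := by rw [C.pr_simple, hi]
  have hprn : C.pr lam (-(C.simple i)) = 0 := by rw [C.pr_neg, hpr, neg_zero]
  have hν1 : S.nword [i] ∈ S.N := S.nword_mem [i]
  have hact1 : S.Acts (S.nword [i]) (C.reflE (C.simple i)) := by
    have h1 := S.nword_acts [i]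
    have h2 : C.wd [i] = C.reflE (C.simple i) := by simp [SLC.wd]
    rw [h2] at h1
    exact h1
  have hP1 : K5_P lam (S.nword [i]) := by
    have h1 : S.nword [i] = C.xg F (C.simple i) 1 * C.xg F (-(C.simple i)) ((1 : F)⁻¹) *
        C.xg F (C.simple i) 1 := by
      simp only [StSys.nword, List.map_cons, List.map_nil, List.prod_cons, List.prod_nil, mul_one]
      rfl
    rw [h1]
    exact K5_mul (K5_mul (K5_x _ hpr.ge _) (K5_x _ hprn.ge _)) (K5_x _ hpr.ge _)
  have hlt := K5_count_lt w hw i hcon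
  rw [hk] at hlt
  refine Nat.find_min hex hlt ⟨p * S.nword [i], mul_mem hp (hNG _ hν1), K5_mul hpP hP1, u, hu,
    ν * S.nword [i], mul_mem hν hν1, w * C.reflE (C.simple i), mul_mem hw (C.simple_mem_W i),
    C.Acts_mul S _ _ _ _ hact hact1, ?_, rfl⟩
  rw [← mul_assoc, hgp, mul_assoc]

end

section
variable {n : ℕ} {C : SLC n} (D : Dg C) {F : Type*} [Field F]

theorem gate (θ : F ≃+* F) (hθ : ∀ t, (⇑θ)^[D.m] t = t)
    (hA : D.NA ∨ ∃ e, e ≠ 0 ∧ θ e = -e) (lam : Fin n → ℝ) (hd : ∀ i, 0 ≤ lam i)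
    (hl : ∀ i, lam (D.ρ i) = lam i) (g : GL C.Idx F) (hg : g ∈ C.Gad F)
    (h1 : C.FilR lam 0 ((g⁻¹ * D.sgl θ g : GL C.Idx F) : Matrix C.Idx C.Idx F))
    (h2 : C.FilR lam 0 (((D.sgl θ g)⁻¹ * g : GL C.Idx F) : Matrix C.Idx C.Idx F)) :
    ∃ g₁ ∈ Eg (C.adS F) (D.sgl θ),
      C.FilR lam 0 ((g₁⁻¹ * g : GL C.Idx F) : Matrix C.Idx C.Idx F) ∧
      C.FilR lam 0 ((g⁻¹ * g₁ : GL C.Idx F) : Matrix C.Idx C.Idx F) := by
  have hsig : IsSig D θ (C.adS F) (D.sgl θ) := isSig_adS D θ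
  obtain ⟨p, hp, hpP, u, hu, ν, hν, w, hw, hact, hgp, hmin⟩ := K5_min hd g hg
  set S := C.adS F with hS
  have hUG : ∀ x, x ∈ S.U 1 → x ∈ C.Gad F := by
    intro x hx
    rw [← C.gen_adS]
    exact S.U_le_gen 1 hx
  have hσP : ∀ x : GL C.Idx F, K5_P lam x → K5_P lam (D.sgl θ x) := by
    intro x hx
    refine ⟨(FilR_sgl D θ lam hl 0 x).mpr hx.1, ?_⟩
    rw [← map_inv]
    exact (FilR_sgl D θ lam hl 0 x⁻¹).mpr hx.2
  have hq : K5_P lam (g⁻¹ * D.sgl θ g) := by
    refine ⟨h1, ?_⟩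
    have e : (g⁻¹ * D.sgl θ g)⁻¹ = (D.sgl θ g)⁻¹ * g := by group
    rw [e]
    exact h2
  set q' : GL C.Idx F := p⁻¹ * (g⁻¹ * D.sgl θ g) * D.sgl θ p with hq'
  have hq'P : K5_P lam q' := K5_mul (K5_mul (K5_inv hpP) hq) (hσP p hpP)
  have hq'G : q' ∈ C.Gad F :=
    mul_mem (mul_mem (inv_mem hp) (mul_mem (inv_mem hg) (sgl_Gad D θ g hg))) (sgl_Gad D θ p hp)
  have hσgp : D.sgl θ (g * p) = g * p * q' := by
    rw [hq', map_mul]
    group
  obtain ⟨b₀, hb₀, ν', hν', b₂', hb₂', hbr⟩ := S.bruhat q' (by rw [C.gen_adS]; exact hq'G)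
  obtain ⟨v, hv, hact', -⟩ := S.N_acts ν' hν'
  obtain ⟨t, ht, b, hb, hlp⟩ := S.exists_lp_inv ν' v hact' b₀ hb₀
  set b₁ : GL C.Idx F := S.lp C.posList t with hb₁
  set b₂ : GL C.Idx F := b * b₂' with hb₂
  have hb₂U : b₂ ∈ S.U 1 := mul_mem hb hb₂'
  have hb₁U : b₁ ∈ S.U 1 := by
    refine Subgroup.list_prod_mem _ ?_
    intro y hy
    obtain ⟨β, hβ, rfl⟩ := List.mem_map.1 hy
    refine Subgroup.subset_closure ⟨β, t β, ?_, rfl⟩
    have := (C.mem_posList β).1 hβ
    unfold SLC.Pos at this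
    omega
  have hq'eq : q' = b₁ * ν' * b₂ := by
    rw [hbr, hlp, hb₂]
    group
  -- `v` preserves the weight
  have hν'P : K5_P lam ν' := by
    have e : ν' = b₁⁻¹ * q' * b₂⁻¹ := by
      rw [hq'eq]
      group
    rw [e]
    exact K5_mul (K5_mul (K5_inv (K5_U hd _ hb₁U)) hq'P) (K5_inv (K5_U hd _ hb₂U))
  have hpr : ∀ β, C.pr lam (v β) = C.pr lam β := K5_pr_eq ν' v hν' hact' hν'P
  have hpos : ∀ β : C.Root, C.Pos β → C.pr lam β = 0 → C.Pos (w β) := K5_pos hd w hw hmin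
  -- the conjugate of `b₁`
  have hconj : ν * b₁ * ν⁻¹ ∈ S.U 1 := by
    have h3 : b₁ ∈ (S.U 1).comap (MulAut.conj ν).toMonoidHom := by
      refine Subgroup.list_prod_mem _ ?_
      intro y hy
      obtain ⟨β, hβ, rfl⟩ := List.mem_map.1 hy
      have hβ' := (C.mem_posList β).1 hβ
      by_cases hp' : C.Pos (v⁻¹ β)
      · rw [ht β hp', S.x_zero]
        exact one_mem _
      · rw [Subgroup.mem_comap]
        change ν * S.x β (t β) * ν⁻¹ ∈ S.U 1
        obtain ⟨c, -, hc⟩ := hact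
        rw [hc]
        refine Subgroup.subset_closure ⟨w β, _, ?_, rfl⟩
        have h4 : C.pr lam β = 0 := by
          apply le_antisymm
          · have h5 := hpr (v⁻¹ β)
            have h6 : v (v⁻¹ β) = β := v.apply_symm_apply β
            rw [h6] at h5
            rw [h5]
            exact K5_pr_nonpos hd _ hp'
          · exact C.pr_pos_of_dom hd β hβ'
        have h7 := hpos β hβ' h4
        unfold SLC.Pos at h7
        omega
    exact h3
  -- Bruhat uniqueness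
  have hwv : D.rE * w * D.rE⁻¹ = w * v := by
    refine bruhat_unique (D.sgl θ u) (u * (ν * b₁ * ν⁻¹)) (D.sgl θ ν) (ν * ν') b₂ _ _
      (hsig.map_U 1 u hu) (mul_mem hu hconj) (hsig.map_N ν hν) (mul_mem hν hν')
      (hsig.acts ν w hact) (C.Acts_mul S _ _ _ _ hact hact') (hUG _ hb₂U)
      (C.Fil_U_zero _ hb₂U) ?_
    rw [← map_mul, ← hgp, hσgp, hgp, hq'eq]
    group
  have hv1 : v = 1 := by
    apply C.eq_one_of_pos v hv
    intro i
    by_contra hcon
    have h3 : C.pr lam (C.simple i) = 0 := by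
      apply le_antisymm
      · rw [← hpr]
        exact K5_pr_nonpos hd _ hcon
      · exact C.pr_pos_of_dom hd _ (C.simple_pos i)
    have h4 : C.Pos (w (-(v (C.simple i)))) := by
      apply hpos
      · rw [← C.not_pos_iff]
        exact hcon
      · rw [C.pr_neg, hpr, h3, neg_zero]
    have h5 : ¬ C.Pos (w (v (C.simple i))) := by
      rw [C.not_pos_iff, ← C.W_neg w hw]
      exact h4
    apply h5
    have h6 : w (v (C.simple i)) = D.r (w (C.simple (D.ρ.symm i))) := by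
      have h7 : (w * v) (C.simple i) = (D.rE * w * D.rE⁻¹) (C.simple i) := by rw [hwv]
      have h8 : D.rE⁻¹ (C.simple i) = C.simple (D.ρ.symm i) := by
        rw [Equiv.Perm.inv_eq_iff_eq]
        change C.simple i = D.r (C.simple (D.ρ.symm i))
        rw [D.r_simple, Equiv.apply_symm_apply]
      change (w * v) (C.simple i) = _
      rw [h7, Equiv.Perm.mul_apply, Equiv.Perm.mul_apply, h8]
      rfl
    rw [h6, D.r_pos]
    apply hmin
    have h9 := hl (D.ρ.symm i)
    rw [Equiv.apply_symm_apply] at h9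
    rw [← h9, ← C.pr_simple lam i, h3]
  -- `q'` is upper triangular
  have hν'T : ν' ∈ S.T := by
    refine C.N_one ν' ?_ hν'
    rw [hv1] at hact'
    exact hact'
  have hq'0 : C.Fil 0 (q' : Matrix C.Idx C.Idx F) := by
    rw [hq'eq]
    exact K5_Fil (K5_Fil (C.Fil_U_zero _ hb₁U) (C.Fil_T _ hν'T)) (C.Fil_U_zero _ hb₂U)
  have hgpG : g * p ∈ C.Gad F := mul_mem hg hp
  obtain ⟨g₁, hg₁, hb3⟩ := sigma_chamber D θ hθ hA (g * p) hgpG (by
    rw [hσgp, inv_mul_cancel_left]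
    exact hq'0)
  have hg₁G : g₁ ∈ C.Gad F := by
    rw [← C.gen_adS]
    exact Eg_le_gen S (D.sgl θ) hg₁
  have hb3G : g₁⁻¹ * (g * p) ∈ C.Gad F := mul_mem (inv_mem hg₁G) hgpG
  have hb3P : K5_P lam (g₁⁻¹ * (g * p)) :=
    ⟨C.FilR_upper hd _ hb3G hb3, C.FilR_upper hd _ (inv_mem hb3G) (C.upper_inv _ hb3G hb3)⟩
  have hfin : K5_P lam (g₁⁻¹ * g) := by
    have e : g₁⁻¹ * g = g₁⁻¹ * (g * p) * p⁻¹ := by group
    rw [e]
    exact K5_mul hb3P (K5_inv hpP)
  refine ⟨g₁, hg₁, hfin.1, ?_⟩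
  have e : g⁻¹ * g₁ = (g₁⁻¹ * g)⁻¹ := by group
  rw [e]
  exact hfin.2

end

end Pool.Agent.H75.UL
end

section
/- module Pool.Agent.H86.UM.OM -/
/-!
# Project UM, module OM: the opposite group

`omG` is the matrix `ω` with `ω (inl i) (inl i) = -1`, `ω (inr (-β)) (inr β) = 1`, other entries `0` (see the
private part of H75/UT/D7i.lean, which proves `ω² = 1`, `ω E_α = E_(-α) ω`, `ω F_α = F_(-α) ω`).
`omG_FilL`: `(ω M ω⁻¹) (-a) (-b) = ± M a b`, `hti (-a) = - hti a`; the right side says that `x` is lower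
triangular.
`T_of_both`: `g = τ u` by `upper`; `u = τ⁻¹ g` is lower triangular too and `Fil 1 (u - 1)`, so `u = 1`
(`τ` is diagonal, `T_diag`).
`lower_of_fix`: apply `upper_of_fix` to `ω Γ ω⁻¹`, `ω y ω⁻¹`.
-/

set_option autoImplicit false
open Matrix

namespace Pool.Agent.H86.UM

open Pool.Agent.H75.UL

variable {n : ℕ} (C : SLC n)

/-- The matrix of the opposition. -/
def omM (R : Type*) [CommRing R] : Matrix C.Idx C.Idx R := fun a b =>
  match a, b with
  | Sum.inl i, Sum.inl j => if i = j then -1 else 0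
  | Sum.inr γ, Sum.inr β => if γ = -β then 1 else 0
  | _, _ => 0

private theorem OM_neg_neg (β : C.Root) : - -β = β := by
  apply SLC.Root.ext
  rw [SLC.Root.neg_val, SLC.Root.neg_val, neg_neg]

private theorem OM_ll (R : Type*) [CommRing R] (i j : Fin n) :
    omM C R (Sum.inl i) (Sum.inl j) = if i = j then -1 else 0 := rfl

private theorem OM_lr (R : Type*) [CommRing R] (i : Fin n) (β : C.Root) :
    omM C R (Sum.inl i) (Sum.inr β) = 0 := rfl

private theorem OM_rl (R : Type*) [CommRing R] (γ : C.Root) (j : Fin n) :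
    omM C R (Sum.inr γ) (Sum.inl j) = 0 := rfl

private theorem OM_rr (R : Type*) [CommRing R] (γ β : C.Root) :
    omM C R (Sum.inr γ) (Sum.inr β) = if γ = -β then 1 else 0 := rfl

private theorem OM_mul (R : Type*) [CommRing R] (M : Matrix C.Idx C.Idx R) (a b : C.Idx) :
    (omM C R * M) a b = match a with
      | Sum.inl i => - M (Sum.inl i) b
      | Sum.inr γ => M (Sum.inr (-γ)) b := by
  rw [Matrix.mul_apply, Fintype.sum_sum_type]
  rcases a with i | γ
  · simp only [OM_lr, OM_ll, zero_mul, Finset.sum_const_zero, add_zero]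
    rw [Finset.sum_eq_single i]
    · simp
    · intro j _ hj
      rw [if_neg (Ne.symm hj), zero_mul]
    · intro h
      exact absurd (Finset.mem_univ i) h
  · simp only [OM_rl, OM_rr, zero_mul, Finset.sum_const_zero, zero_add]
    rw [Finset.sum_eq_single (-γ)]
    · rw [OM_neg_neg, if_pos rfl, one_mul]
    · intro j _ hj
      rw [if_neg, zero_mul]
      intro h
      apply hj
      rw [h, OM_neg_neg]
    · intro h
      exact absurd (Finset.mem_univ _) h

private theorem OM_mul' (R : Type*) [CommRing R] (M : Matrix C.Idx C.Idx R) (a b : C.Idx) :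
    (M * omM C R) a b = match b with
      | Sum.inl i => - M a (Sum.inl i)
      | Sum.inr γ => M a (Sum.inr (-γ)) := by
  rw [Matrix.mul_apply, Fintype.sum_sum_type]
  rcases b with i | γ
  · simp only [OM_rl, OM_ll, mul_zero, Finset.sum_const_zero, add_zero]
    rw [Finset.sum_eq_single i]
    · simp
    · intro j _ hj
      rw [if_neg hj, mul_zero]
    · intro h
      exact absurd (Finset.mem_univ i) h
  · simp only [OM_lr, OM_rr, mul_zero, Finset.sum_const_zero, zero_add]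
    rw [Finset.sum_eq_single (-γ)]
    · rw [if_pos rfl, mul_one]
    · intro j _ hj
      rw [if_neg hj, mul_zero]
    · intro h
      exact absurd (Finset.mem_univ _) h

theorem omM_sq (R : Type*) [CommRing R] : omM C R * omM C R = 1 := by
  ext a b
  rw [OM_mul]
  rcases a with i | γ <;> rcases b with j | β
  · simp only [OM_ll, Matrix.one_apply, Sum.inl.injEq]
    split_ifs <;> simp
  · simp [OM_lr]
  · simp [OM_rl]
  · simp only [OM_rr, Matrix.one_apply, Sum.inr.injEq]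
    have h : -γ = -β ↔ γ = β := by
      constructor
      · intro h
        rw [← OM_neg_neg C γ, h, OM_neg_neg]
      · intro h
        rw [h]
    simp only [h]

/-- The opposition as an element of `GL`. -/
def omG (R : Type*) [CommRing R] : GL C.Idx R where
  val := omM C R
  inv := omM C R
  val_inv := omM_sq C R
  inv_val := omM_sq C R

theorem omG_inv (R : Type*) [CommRing R] : (omG C R)⁻¹ = omG C R := rfl

variable {F : Type*} [Field F]

private theorem OM_eps (v w : Fin n → ℤ) : C.eps (-v) (-w) = C.eps v w := by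
  unfold SLC.eps SLC.hf
  rw [Matrix.mulVec_neg, neg_dotProduct, dotProduct_neg, neg_neg]

private theorem OM_E (α : C.Root) : omM C ℤ * C.E α = C.E (-α) * omM C ℤ := by
  ext a b
  rw [OM_mul, OM_mul']
  rcases a with i | γ <;> rcases b with j | β
  · simp [SLC.E]
  · simp only [SLC.E, SLC.Root.neg_val, Pi.neg_apply, neg_neg]
    have h : -β.1 = α.1 ↔ β.1 = -α.1 := neg_eq_iff_eq_neg
    simp only [h]
    split_ifs <;> simp
  · simp only [SLC.E, SLC.Root.neg_val]
    have h : -γ.1 = α.1 ↔ γ.1 = -α.1 := neg_eq_iff_eq_neg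
    simp only [h]
    split_ifs
    · rw [SLC.ip_neg_right]
      ring
    · simp
  · simp only [SLC.E, SLC.Root.neg_val, OM_eps]
    have h : -γ.1 = α.1 + β.1 ↔ γ.1 = -α.1 + -β.1 := by
      rw [neg_eq_iff_eq_neg, neg_add]
    simp only [h]

private theorem OM_F (α : C.Root) : omM C ℤ * C.F α = C.F (-α) * omM C ℤ := by
  ext a b
  rw [OM_mul, OM_mul']
  rcases a with i | γ <;> rcases b with j | β
  · simp [SLC.F]
  · simp [SLC.F]
  · simp [SLC.F]
  · simp only [SLC.F, SLC.Root.neg_val, neg_neg]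
    have h : -γ.1 = α.1 ↔ γ.1 = -α.1 := neg_eq_iff_eq_neg
    have h' : -β.1 = α.1 ↔ β.1 = -α.1 := neg_eq_iff_eq_neg
    simp only [h, h']

private theorem OM_map (R : Type*) [CommRing R] :
    (omM C ℤ).map (Int.castRingHom R) = omM C R := by
  ext a b
  rw [Matrix.map_apply]
  rcases a with i | γ <;> rcases b with j | β
  · rw [OM_ll, OM_ll]
    split_ifs <;> simp
  · rw [OM_lr, OM_lr, map_zero]
  · rw [OM_rl, OM_rl, map_zero]
  · rw [OM_rr, OM_rr]
    split_ifs <;> simp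

private theorem OM_X (α : C.Root) (t : F) :
    omM C F * C.X F α t = C.X F (-α) t * omM C F := by
  have h1 : omM C F * (C.E α).map (Int.cast : ℤ → F) =
      (C.E (-α)).map (Int.cast : ℤ → F) * omM C F := by
    have := congrArg (fun M : Matrix C.Idx C.Idx ℤ => M.map (Int.castRingHom F)) (OM_E C α)
    simp only [Matrix.map_mul, OM_map] at this
    exact this
  have h2 : omM C F * (C.F α).map (Int.cast : ℤ → F) =
      (C.F (-α)).map (Int.cast : ℤ → F) * omM C F := by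
    have := congrArg (fun M : Matrix C.Idx C.Idx ℤ => M.map (Int.castRingHom F)) (OM_F C α)
    simp only [Matrix.map_mul, OM_map] at this
    exact this
  unfold SLC.X
  simp only [add_mul, mul_add, one_mul, mul_one, smul_mul_assoc, mul_smul_comm, h1, h2]

theorem omG_xg (β : C.Root) (t : F) : omG C F * C.xg F β t * (omG C F)⁻¹ = C.xg F (-β) t := by
  rw [mul_inv_eq_iff_eq_mul]
  apply Units.ext
  exact OM_X C β t

private theorem OM_invol (x : GL C.Idx F) :
    omG C F * (omG C F * x * (omG C F)⁻¹) * (omG C F)⁻¹ = x := by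
  have h : omG C F * omG C F = 1 := by
    apply Units.ext
    exact omM_sq C F
  calc omG C F * (omG C F * x * (omG C F)⁻¹) * (omG C F)⁻¹
      = (omG C F * omG C F) * x * (omG C F * omG C F)⁻¹ := by group
    _ = x := by rw [h, one_mul, inv_one, mul_one]

private theorem OM_cl {A : Set (GL C.Idx F)} {S : Subgroup (GL C.Idx F)}
    (h : ∀ a ∈ A, omG C F * a * (omG C F)⁻¹ ∈ S) :
    ∀ x ∈ Subgroup.closure A, omG C F * x * (omG C F)⁻¹ ∈ S := by
  have h1 : Subgroup.closure A ≤ S.comap (MulAut.conj (omG C F)).toMonoidHom :=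
    (Subgroup.closure_le _).2 h
  exact fun x hx => h1 hx

private theorem OM_conj_mul (x y : GL C.Idx F) : omG C F * (x * y) * (omG C F)⁻¹ =
    (omG C F * x * (omG C F)⁻¹) * (omG C F * y * (omG C F)⁻¹) := by
  group

private theorem OM_nn (α : C.Root) (t : F) :
    omG C F * nn (C.adS F).x α t * (omG C F)⁻¹ = nn (C.adS F).x (-α) t := by
  unfold nn
  rw [OM_conj_mul, OM_conj_mul]
  have h : ∀ (β : C.Root) (s : F), omG C F * (C.adS F).x β s * (omG C F)⁻¹ =
      (C.adS F).x (-β) s := fun β s => omG_xg C β s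
  rw [h, h]

private theorem OM_hh (α : C.Root) (t : F) :
    omG C F * hh (C.adS F).x α t * (omG C F)⁻¹ = hh (C.adS F).x (-α) t := by
  unfold hh
  rw [OM_conj_mul, OM_nn, OM_nn]

theorem omG_Gad (x : GL C.Idx F) : omG C F * x * (omG C F)⁻¹ ∈ C.Gad F ↔ x ∈ C.Gad F := by
  have key : ∀ y ∈ C.Gad F, omG C F * y * (omG C F)⁻¹ ∈ C.Gad F := by
    apply OM_cl
    rintro a ⟨p, rfl⟩
    change omG C F * C.xg F p.1 p.2 * (omG C F)⁻¹ ∈ C.Gad F
    rw [omG_xg]
    exact Subgroup.subset_closure ⟨(-p.1, p.2), rfl⟩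
  constructor
  · intro h
    have h1 := key _ h
    rwa [OM_invol] at h1
  · exact key x

theorem omG_U (x : GL C.Idx F) : omG C F * x * (omG C F)⁻¹ ∈ (C.adS F).U 1 ↔
    x ∈ (C.adS F).Um := by
  have k1 : ∀ y ∈ (C.adS F).U 1, omG C F * y * (omG C F)⁻¹ ∈ (C.adS F).Um := by
    apply OM_cl
    rintro a ⟨β, t, hβ, rfl⟩
    have h : omG C F * (C.adS F).x β t * (omG C F)⁻¹ = (C.adS F).x (-β) t := omG_xg C β t
    rw [h]
    refine Subgroup.subset_closure ⟨-β, t, ?_, rfl⟩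
    rw [SLC.Root.neg_val, ht_neg]
    omega
  have k2 : ∀ y ∈ (C.adS F).Um, omG C F * y * (omG C F)⁻¹ ∈ (C.adS F).U 1 := by
    apply OM_cl
    rintro a ⟨β, t, hβ, rfl⟩
    have h : omG C F * (C.adS F).x β t * (omG C F)⁻¹ = (C.adS F).x (-β) t := omG_xg C β t
    rw [h]
    refine Subgroup.subset_closure ⟨-β, t, ?_, rfl⟩
    rw [SLC.Root.neg_val, ht_neg]
    omega
  constructor
  · intro h
    have h1 := k1 _ h
    rwa [OM_invol] at h1
  · exact k2 x

theorem omG_T (x : GL C.Idx F) : omG C F * x * (omG C F)⁻¹ ∈ (C.adS F).T ↔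
    x ∈ (C.adS F).T := by
  have key : ∀ y ∈ (C.adS F).T, omG C F * y * (omG C F)⁻¹ ∈ (C.adS F).T := by
    apply OM_cl
    rintro a ⟨α, t, ht, rfl⟩
    rw [OM_hh]
    exact Subgroup.subset_closure ⟨-α, t, ht, rfl⟩
  constructor
  · intro h
    have h1 := key _ h
    rwa [OM_invol] at h1
  · exact key x

/-- the opposite index -/
private def OM_ng : C.Idx → C.Idx
  | Sum.inl i => Sum.inl i
  | Sum.inr γ => Sum.inr (-γ)

private theorem OM_ng_ng (a : C.Idx) : OM_ng C (OM_ng C a) = a := by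
  rcases a with i | γ
  · rfl
  · show Sum.inr (- -γ) = Sum.inr γ
    rw [OM_neg_neg]

private theorem OM_hti (a : C.Idx) : C.hti (OM_ng C a) = - C.hti a := by
  rcases a with i | γ
  · show (0 : ℤ) = -0
    omega
  · show ht (-γ).1 = - ht γ.1
    rw [SLC.Root.neg_val, ht_neg]

private theorem OM_entry (x : GL C.Idx F) (a b : C.Idx) :
    ((omG C F * x * (omG C F)⁻¹ : GL C.Idx F) : Matrix C.Idx C.Idx F) (OM_ng C a) (OM_ng C b) = 0 ↔
      (x : Matrix C.Idx C.Idx F) a b = 0 := by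
  have h : ((omG C F * x * (omG C F)⁻¹ : GL C.Idx F) : Matrix C.Idx C.Idx F) =
      omM C F * (x : Matrix C.Idx C.Idx F) * omM C F := rfl
  rw [h, OM_mul']
  rcases b with j | β
  · show -((omM C F * (x : Matrix C.Idx C.Idx F)) (OM_ng C a) (Sum.inl j)) = 0 ↔ _
    rw [OM_mul, neg_eq_zero]
    rcases a with i | γ
    · show -((x : Matrix C.Idx C.Idx F) (Sum.inl i) (Sum.inl j)) = 0 ↔ _
      rw [neg_eq_zero]
    · show (x : Matrix C.Idx C.Idx F) (Sum.inr (- -γ)) (Sum.inl j) = 0 ↔ _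
      rw [OM_neg_neg]
  · show (omM C F * (x : Matrix C.Idx C.Idx F)) (OM_ng C a) (Sum.inr (- -β)) = 0 ↔ _
    rw [OM_mul, OM_neg_neg]
    rcases a with i | γ
    · show -((x : Matrix C.Idx C.Idx F) (Sum.inl i) (Sum.inr β)) = 0 ↔ _
      rw [neg_eq_zero]
    · show (x : Matrix C.Idx C.Idx F) (Sum.inr (- -γ)) (Sum.inr β) = 0 ↔ _
      rw [OM_neg_neg]

theorem omG_FilL (x : GL C.Idx F) :
    C.Fil 0 ((omG C F * x * (omG C F)⁻¹ : GL C.Idx F) : Matrix C.Idx C.Idx F) ↔
      ∀ a b, C.hti b < C.hti a → (x : Matrix C.Idx C.Idx F) a b = 0 := by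
  constructor
  · intro h a b hab
    rw [← OM_entry]
    apply h
    rw [OM_hti, OM_hti]
    omega
  · intro h a b hab
    rw [← OM_ng_ng C a, ← OM_ng_ng C b, OM_entry]
    apply h
    rw [OM_hti, OM_hti]
    omega

theorem T_of_both (g : GL C.Idx F) (hg : g ∈ C.Gad F) (h : C.Fil 0 (g : Matrix C.Idx C.Idx F))
    (h' : C.Fil 0 ((omG C F * g * (omG C F)⁻¹ : GL C.Idx F) : Matrix C.Idx C.Idx F)) :
    g ∈ (C.adS F).T := by
  obtain ⟨τ, hτ, u, hu, rfl⟩ := C.upper g hg h
  have hFu : C.Fil 0 ((omG C F * u * (omG C F)⁻¹ : GL C.Idx F) : Matrix C.Idx C.Idx F) := by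
    have e1 : omG C F * u * (omG C F)⁻¹ =
        (omG C F * τ⁻¹ * (omG C F)⁻¹) * (omG C F * (τ * u) * (omG C F)⁻¹) := by
      rw [← OM_conj_mul, inv_mul_cancel_left]
    have h1 := C.Fil_T _ ((omG_T C τ⁻¹).2 (Subgroup.inv_mem _ hτ))
    have h2 := C.Fil_mul h1 h'
    rw [e1, Units.val_mul]
    rwa [add_zero] at h2
  rw [omG_FilL] at hFu
  have hF1 := C.Fil_U 1 le_rfl u hu
  have hu1 : u = 1 := by
    apply Units.ext
    ext a b
    rw [Units.val_one]
    by_cases hab : C.hti b < C.hti a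
    · rw [hFu a b hab, Matrix.one_apply_ne]
      rintro rfl
      omega
    · have h3 := hF1 a b (by omega)
      rw [Matrix.sub_apply, sub_eq_zero] at h3
      exact h3
  rw [hu1, mul_one]
  exact hτ

theorem lower_of_fix (Γ : Set (GL C.Idx F)) (hΓ : ∀ γ ∈ Γ, γ ∈ (C.adS F).Um)
    (hnv : ∀ j, ∃ γ ∈ Γ,
      C.xi j ((omG C F * γ * (omG C F)⁻¹ : GL C.Idx F) : Matrix C.Idx C.Idx F) ≠ 0)
    (y : GL C.Idx F) (hy : y ∈ C.Gad F) (h : ∀ γ ∈ Γ, y⁻¹ * γ * y ∈ (C.adS F).Um) :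
    C.Fil 0 ((omG C F * y * (omG C F)⁻¹ : GL C.Idx F) : Matrix C.Idx C.Idx F) := by
  refine upper_of_fix C ((fun γ : GL C.Idx F => omG C F * γ * (omG C F)⁻¹) '' Γ) ?_ ?_ _
    ((omG_Gad C y).2 hy) ?_
  · rintro _ ⟨γ, hγ, rfl⟩
    exact (omG_U C γ).2 (hΓ γ hγ)
  · intro j
    obtain ⟨γ, hγ, hxi⟩ := hnv j
    exact ⟨_, ⟨γ, hγ, rfl⟩, hxi⟩
  · rintro _ ⟨γ, hγ, rfl⟩
    have e1 : (omG C F * y * (omG C F)⁻¹)⁻¹ * (omG C F * γ * (omG C F)⁻¹) *
        (omG C F * y * (omG C F)⁻¹) = omG C F * (y⁻¹ * γ * y) * (omG C F)⁻¹ := by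
      group
    show C.Fil 0 (((omG C F * y * (omG C F)⁻¹)⁻¹ * (omG C F * γ * (omG C F)⁻¹) *
        (omG C F * y * (omG C F)⁻¹) : GL C.Idx F) : Matrix C.Idx C.Idx F)
    rw [e1]
    exact C.Fil_U_zero _ ((omG_U C _).2 (h γ hγ))

end Pool.Agent.H86.UM
end

section
/- module Pool.Agent.H75.UE.L1 -/
/-!
# Project UE, module L1: limits of Steinberg systems

`exists_limSys`: as in the proof of `limit` in H75/UL/C3.lean (the construction of `SS` there, with `H i`
replaced by `G`). `GU_lim`: let `P = ∀ j, GU C (K j)`, `N` the normal subgroup of the sequences which are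
eventually `1`, `G = P ⧸ N`. For each `i` there is a homomorphism `e i : GU C (K i) →* G`: the class of the
sequence `j ↦ GU.map (f i j) y` for `j ≥ i`, `1` for `j < i` (`f i j : K i →+* K j` the composed transition map,
`C3_f`-like; it is a homomorphism modulo `N`, in fact `Pi`-wise). `e (i+1) (GU.map (φ i) y) = e i y`. Put
`S i = ` the system `x β t = e i (GU.x β t)` in `G`. `exists_limSys` gives `SS : StSys C KK G` with
`SS.x β (p i t) = e i (GU.x β t)`, so `GU.lift SS (GU.map (p i) y) = e i y` (`GU.hom_ext`). If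
`GU.map (p i) y = 1` then `e i y = 1`, so `GU.map (f i j) y = 1` for all large `j`.
The transition maps are given by `F` below; `hF0`, `hF` are its recursion.
-/

set_option autoImplicit false
open Matrix
universe u
namespace Pool.Agent.H75.UL

variable {n : ℕ} {C : SLC n}

private theorem L1_map_eq_inv {K K' : Type u} [Field K] [Field K'] (p : K →+* K') (t : K) :
    (p t)⁻¹ = p t⁻¹ := (map_inv₀ p t).symm

theorem exists_limSys {G : Type u} [Group G] (K : ℕ → Type u) [∀ i, Field (K i)]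
    (φ : ∀ i, K i →+* K (i + 1)) (KK : Type u) [Field KK] (p : ∀ i, K i →+* KK)
    (hp : ∀ i t, p (i + 1) (φ i t) = p i t) (hps : ∀ x, ∃ i y, p i y = x)
    (S : ∀ i, StSys C (K i) G) (hS : ∀ i β t, (S (i + 1)).x β (φ i t) = (S i).x β t) :
    ∃ SS : StSys C KK G, ∀ i β t, SS.x β (p i t) = (S i).x β t := by
  -- transport of scalars
  have htr : ∀ i j (_ : i ≤ j) (y : K i), ∃ y' : K j, p j y' = p i y ∧
      ∀ β, (S j).x β y' = (S i).x β y := by
    intro i j hij y
    induction j, hij using Nat.le_induction with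
    | base => exact ⟨y, rfl, fun _ => rfl⟩
    | succ j _ ih =>
      obtain ⟨y', h1, h2⟩ := ih
      exact ⟨φ j y', (hp j y').trans h1, fun β => (hS j β y').trans (h2 β)⟩
  have hwd : ∀ i j (y : K i) (y' : K j), p i y = p j y' → ∀ β,
      (S i).x β y = (S j).x β y' := by
    intro i j y y' h β
    obtain ⟨y1, h1, h2⟩ := htr i (max i j) (le_max_left _ _) y
    obtain ⟨y2, h3, h4⟩ := htr j (max i j) (le_max_right _ _) y'
    have h5 : y1 = y2 := (p (max i j)).injective (by rw [h1, h3, h])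
    rw [← h2 β, ← h4 β, h5]
  choose ii yy hyy using hps
  -- the root elements
  set x : C.Root → KK → G := fun β t => (S (ii t)).x β (yy t) with hx
  have hxp : ∀ i (y : K i) β, x β (p i y) = (S i).x β y := fun i y β =>
    hwd _ _ _ _ (hyy (p i y)) β
  have hcom : ∀ s t : KK, ∃ k, ∃ s' t' : K k, p k s' = s ∧ p k t' = t := by
    intro s t
    obtain ⟨s', h1, -⟩ := htr (ii s) (max (ii s) (ii t)) (le_max_left _ _) (yy s)
    obtain ⟨t', h2, -⟩ := htr (ii t) (max (ii s) (ii t)) (le_max_right _ _) (yy t)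
    exact ⟨_, s', t', h1.trans (hyy s), h2.trans (hyy t)⟩
  have hnn : ∀ k (t : K k) α, nn x α (p k t) = nn (S k).x α t := by
    intro k t α
    unfold nn
    rw [L1_map_eq_inv, hxp, hxp]
  have hhh : ∀ k (t : K k) α, hh x α (p k t) = hh (S k).x α t := by
    intro k t α
    have h1 : (-1 : KK) = p k (-1) := by rw [map_neg, map_one]
    unfold hh
    rw [h1, hnn, hnn]
  refine ⟨{ x := x
            map_add := ?_
            comm := ?_
            comm_add := ?_
            n_conj := ?_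
            h_mul := ?_ }, fun i β t => hxp i t β⟩
  · intro β s t
    obtain ⟨k, s', t', rfl, rfl⟩ := hcom s t
    rw [← map_add, hxp, hxp, hxp, (S k).map_add]
  · intro α β s t h
    obtain ⟨k, s', t', rfl, rfl⟩ := hcom s t
    rw [hxp, hxp]
    exact (S k).comm α β s' t' h
  · intro α β γ s t h
    obtain ⟨k, s', t', rfl, rfl⟩ := hcom s t
    have h1 : (C.eps α.1 β.1 : KK) * p k s' * p k t' = p k ((C.eps α.1 β.1 : K k) * s' * t') := by
      rw [map_mul, map_mul, map_intCast]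
    rw [h1, hxp, hxp, hxp]
    exact (S k).comm_add α β γ s' t' h
  · intro α t u ht
    obtain ⟨k, t', u', rfl, rfl⟩ := hcom t u
    have ht' : t' ≠ 0 := fun h => ht (by rw [h, map_zero])
    have h1 : (p k t')⁻¹ ^ 2 * p k u' = p k (t'⁻¹ ^ 2 * u') := by
      rw [map_mul, map_pow, map_inv₀]
    rw [h1, hnn, hxp, hxp]
    exact (S k).n_conj α t' u' ht'
  · intro α s t hs ht
    obtain ⟨k, s', t', rfl, rfl⟩ := hcom s t
    have hs' : s' ≠ 0 := fun h => hs (by rw [h, map_zero])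
    have ht' : t' ≠ 0 := fun h => ht (by rw [h, map_zero])
    rw [← map_mul, hhh, hhh, hhh]
    exact (S k).h_mul α s' t' hs' ht'

/-- the eventually trivial sequences -/
private def L1_N (P : ℕ → Type u) [∀ j, Group (P j)] : Subgroup (∀ j, P j) where
  carrier := {s | ∃ k, ∀ j, k ≤ j → s j = 1}
  mul_mem' := by
    rintro a b ⟨k, hk⟩ ⟨l, hl⟩
    refine ⟨max k l, fun j hj => ?_⟩
    rw [Pi.mul_apply, hk j ((le_max_left _ _).trans hj), hl j ((le_max_right _ _).trans hj),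
      mul_one]
  one_mem' := ⟨0, fun _ _ => rfl⟩
  inv_mem' := by
    rintro a ⟨k, hk⟩
    exact ⟨k, fun j hj => by rw [Pi.inv_apply, hk j hj, inv_one]⟩

private theorem L1_N_normal (P : ℕ → Type u) [∀ j, Group (P j)] : (L1_N P).Normal := by
  constructor
  rintro a ⟨k, hk⟩ g
  exact ⟨k, fun j hj => by
    rw [Pi.mul_apply, Pi.mul_apply, hk j hj, mul_one, Pi.inv_apply, mul_inv_cancel]⟩

/-- The image of a Steinberg system under a homomorphism. -/
private def L1_map {K : Type*} [Field K] {H H' : Type*} [Group H] [Group H'] (S : StSys C K H)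
    (f : H →* H') : StSys C K H' where
  x := fun β t => f (S.x β t)
  map_add := fun β s t => by rw [S.map_add, map_mul]
  comm := fun α β s t h => by rw [← map_mul, ← map_mul, S.comm α β s t h]
  comm_add := fun α β γ s t h => by
    rw [← S.comm_add α β γ s t h]; simp only [map_mul, map_inv]
  n_conj := fun α t u ht => by
    rw [← S.n_conj α t u ht]; simp only [nn, map_mul, map_inv]
  h_mul := fun α s t hs ht => by
    have h := congrArg f (S.h_mul α s t hs ht)
    simpa only [hh, nn, map_mul] using h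

theorem GU_lim (K : ℕ → Type u) [∀ i, Field (K i)]
    (φ : ∀ i, K i →+* K (i + 1)) (KK : Type u) [Field KK] (p : ∀ i, K i →+* KK)
    (hp : ∀ i t, p (i + 1) (φ i t) = p i t) (hps : ∀ x, ∃ i y, p i y = x)
    (F : ∀ i j : ℕ, i ≤ j → (K i →+* K j)) (hF0 : ∀ i t, F i i le_rfl t = t)
    (hF : ∀ i j (h : i ≤ j) t, F i (j + 1) (h.trans (Nat.le_succ j)) t = φ j (F i j h t))
    (i : ℕ) (y : GU C (K i)) (hy : GU.map (p i) y = 1) :
    ∃ (j : ℕ) (h : i ≤ j), GU.map (F i j h) y = 1 := by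
  have hFφ : ∀ i j (h : i + 1 ≤ j) t, F (i + 1) j h (φ i t) =
      F i j ((Nat.le_succ i).trans h) t := by
    intro i j h
    induction j, h using Nat.le_induction with
    | base =>
      intro t
      rw [hF0, hF i i le_rfl, hF0]
    | succ j hj ih =>
      intro t
      rw [hF (i + 1) j hj, ih, ← hF i j ((Nat.le_succ i).trans hj)]
  let P : ℕ → Type u := fun j => GU C (K j)
  let E : ∀ i, GU C (K i) →* (∀ j, P j) := fun i =>
    MonoidHom.pi fun j => if h : i ≤ j then GU.map (F i j h) else 1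
  have hE : ∀ i y j (h : i ≤ j), E i y j = GU.map (F i j h) y := by
    intro i y j h
    change (if h : i ≤ j then GU.map (F i j h) else 1) y = _
    rw [dif_pos h]
  have hN := L1_N_normal P
  let e : ∀ i, GU C (K i) →* ((∀ j, P j) ⧸ L1_N P) := fun i => (QuotientGroup.mk' (L1_N P)).comp (E i)
  have hmm : ∀ i j (h : i + 1 ≤ j) (y : GU C (K i)),
      GU.map (F (i + 1) j h) (GU.map (φ i) y) = GU.map (F i j ((Nat.le_succ i).trans h)) y := by
    intro i j h y
    have h1 : (GU.map (C := C) (F (i + 1) j h)).comp (GU.map (φ i)) =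
        GU.map (F i j ((Nat.le_succ i).trans h)) := by
      apply GU.hom_ext
      intro β t
      rw [MonoidHom.comp_apply, GU.map_x, GU.map_x, GU.map_x, hFφ]
    rw [← h1]
    rfl
  have he : ∀ i (y : GU C (K i)), e (i + 1) (GU.map (φ i) y) = e i y := by
    intro i y
    change QuotientGroup.mk' (L1_N P) (E (i + 1) (GU.map (φ i) y)) =
      QuotientGroup.mk' (L1_N P) (E i y)
    rw [QuotientGroup.mk'_eq_mk']
    refine ⟨(E (i + 1) (GU.map (φ i) y))⁻¹ * E i y, ⟨i + 1, fun j hj => ?_⟩,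
      mul_inv_cancel_left _ _⟩
    rw [Pi.mul_apply, Pi.inv_apply, hE _ _ _ hj, hE _ _ _ ((Nat.le_succ i).trans hj), hmm,
      inv_mul_cancel]
  obtain ⟨SS, hSS⟩ := exists_limSys (C := C) K φ KK p hp hps
    (fun i => L1_map (GU.sys C (K i)) (e i)) (by
      intro i β t
      change e (i + 1) (GU.x C (K (i + 1)) β (φ i t)) = e i (GU.x C (K i) β t)
      rw [← he i, GU.map_x])
  have hlift : ∀ i (y : GU C (K i)), GU.lift SS (GU.map (p i) y) = e i y := by
    intro i y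
    have h1 : (GU.lift SS).comp (GU.map (p i)) = e i := by
      apply GU.hom_ext
      intro β t
      rw [MonoidHom.comp_apply, GU.map_x, GU.lift_x, hSS]
      rfl
    exact congrArg (fun f : GU C (K i) →* ((∀ j, P j) ⧸ L1_N P) => f y) h1
  have h1 := hlift i y
  rw [hy, map_one] at h1
  have h2 : E i y ∈ L1_N P := by
    have h3 : QuotientGroup.mk' (L1_N P) (E i y) = 1 := h1.symm
    rwa [← MonoidHom.mem_ker, QuotientGroup.ker_mk'] at h3
  obtain ⟨k, hk⟩ := h2
  refine ⟨max i k, le_max_left _ _, ?_⟩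
  rw [← hE i y _ (le_max_left _ _)]
  exact hk _ (le_max_right _ _)

end Pool.Agent.H75.UL
end

section
/- module Pool.Agent.H75.UL.P2 -/
/-!
# Project UL (MP_978914_al), module P2

Coordinates (from helper86's module).
-/

set_option autoImplicit false
open Matrix
universe u
namespace Pool.Agent.H75.UL

namespace SLC
variable {n : ℕ} (C : SLC n)

theorem coords (hn : 2 ≤ n) (θ : C.Root) (hθ : C.IsHighest θ) {k : Type*} [Field k] [Infinite k]
    {H : Type*} [Group H] (S : StSys C k H) (F : Type*) [Field F]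
    (Ψ : H →* GL C.Idx F) (hΨ : ∀ β t, Ψ (S.x β t) ∈ C.Gad F) (hne : Ψ (S.x θ 1) ≠ 1)
    (hU : ∀ u ∈ S.U 1, Ψ u ∈ (C.adS F).U 1)
    (hT : ∀ h ∈ S.T, C.Fil 0 (Ψ h : Matrix C.Idx C.Idx F)) :
    ∃ (π : Equiv.Perm (Fin n)) (φ : k →+* F) (c : Fin n → F), (∀ i, c i ≠ 0) ∧
      (∀ i j, C.A (π i) (π j) = C.A i j) ∧
      (∀ i t j, C.xi j (Ψ (S.x (C.simple i) t) : Matrix C.Idx C.Idx F) =
        if j = π i then c i * φ t else 0) ∧
      ∀ v t, t ≠ 0 → ∀ i, C.chi (Ψ (S.tor v t) : Matrix C.Idx C.Idx F) (C.simple (π i)) =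
        φ t ^ (C.ip (Pi.single i 1) v) :=
  C.coords' hn θ hθ S F Ψ hΨ hne hU hT

end SLC

end Pool.Agent.H75.UL
end
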