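import Pool.Agent.H86.AL.M08
import Pool.Agent.H86.AL.M11
import Pool.Agent.H86.AL.M12
import Pool.Agent.H86.AL.M13

/-!
# M17: collected modules

Pool.Agent.H75.UK.F1b
Pool.Agent.H86.UM.Z0
Pool.Agent.H86.UM.Z1
Pool.Agent.H86.UM.Z4
-/

section
/- module Pool.Agent.H75.UK.F1b -/
/-!
# Project UK, module F1b: the folded source group, `θ = 1`, non-adjacent

`yb D S s β t` is `x_β(t)` if `r β = β` (then `s (x_β(t)) = x_β(t)`, `sg_fix`) and the product of the
`s^l (x_β(t)) = x_{r^l β}(± t)`, `l < m`, otherwise, where the roots `r^l β` are pairwise orthogonal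
(`ip_r_NA`, `ip_orb`, `r_ip`), so the factors commute; `s^m = 1` on them (`iter_m`), so the product is
fixed by `s`. `yb_T`: `SR_T`, `SR_chi` (`θ = 1`). `yb_one`: apply `p` and compare the entry
`(inl i, inr (-β))`, or `lp_unique`, or the torus and `fixX_coord` with `z = 1`, `t' = 0`.
`yb_X`: `prod` is in `XO` (`sameCycle_iff`). `tor_sep`: `sep_orbit` and `exists_tor` with `c` such that
`c ^ (ip v β') ≠ 1` (`P2a_exists_unit` in H86/UL/P2a or directly; `k` is infinite); `c ^ 0 = 1`;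
`chi (p τ) γ = c ^ ip v γ` by `SR_T` and `xg_inj`. `nu_yb`: `ν⁻¹ x_γ(u) ν = x_{w γ}(..)`, `w = wd (wl i)`,
`w⁻¹ = w` (`wJ_sq`), positive for all `γ` in the orbit of `β` (`wJ_pos`, `supp_NA`, `sameCycle_pos`).
`nu_tor`: `exists_tor` with `v` the sum of the simple roots in the orbit of `i`, `w v = -v`, so
`ν τ ν⁻¹` acts by `c ^ (-ip v γ)` and `τ'' = τ⁻¹ ν τ ν⁻¹` by `c ^ (-2 ip v γ)`, `ip v α_i = 2`: take
`c ^ (-4) ≠ 1`. (`w_J α_i = -α_i`: the reflections of the orthogonal orbit.)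
`yb_central`: take `τ` with `chi (p τ) β ≠ 1` (`exists_tor` with `v = B β`, `ip (B β) β > 0`);
`τ yb β t τ⁻¹ = yb β t` gives `yb β ((chi - 1) t) = 1`.
-/

set_option autoImplicit false
open Matrix
universe u
namespace Pool.Agent.H75.UL

open Pool.Agent.H86.UM

variable {n : ℕ} {C : SLC n} {D : Dg C} {k : Type*} [Field k] {H : Type*} [Group H]
  {S : StSys C k H} {s : H →* H} {p : H →* GL C.Idx k}

private theorem F1b_chi (he : Env D (RingEquiv.refl k) S s p) (τ : H) (hτ : τ ∈ S.T) (β : C.Root)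
    (c : k) (h : τ * S.x β 1 * τ⁻¹ = S.x β (c * 1)) :
    C.chi (p τ : Matrix C.Idx C.Idx k) β = c := by
  obtain ⟨h0, h1⟩ := SR_T he τ hτ β 1
  rw [h, mul_one, mul_one] at h1
  have h2 := congrArg p h1
  rw [he.hp, he.hp] at h2
  exact (C.xg_inj β β _ _ h0 h2.symm).2

private theorem F1b_chi_r (he : Env D (RingEquiv.refl k) S s p) (τ : H)
    (hτ : τ ∈ S.T ⊓ Eg S s) (β : C.Root) (l : ℕ) :
    C.chi (p τ : Matrix C.Idx C.Idx k) (D.r^[l] β) = C.chi (p τ : Matrix C.Idx C.Idx k) β := by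
  induction l with
  | zero => rfl
  | succ l ih =>
    rw [Function.iterate_succ_apply', SR_chi he τ hτ.1 (Eg_le_fix S s τ hτ.2), ih]
    rfl

private theorem F1b_iter (he : Env D (RingEquiv.refl k) S s p) (l : ℕ) (β : C.Root) (t : k) :
    s^[l] (S.x β t) = S.x (D.r^[l] β) ((D.sgp l β : k) * t) := by
  rw [he.sig.iter]
  congr 2
  exact Function.iterate_fixed rfl l

private theorem F1b_r_fix (β : C.Root) (h : D.r β = β) (l : ℕ) : D.r^[l] β = β :=
  Function.iterate_fixed h l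

private theorem F1b_ip0 (hNA : D.NA) (β : C.Root) : ∀ j : ℕ, 0 ≤ C.ip β.1 (D.r^[j] β).1 := by
  intro j
  induction j using Nat.strong_induction_on with
  | _ j ih =>
    by_cases h : D.r β = β
    · rw [F1b_r_fix β h, β.2]
      norm_num
    · by_cases hj : j < D.m
      · rcases Nat.eq_zero_or_pos j with h0 | h0
        · subst h0
          change 0 ≤ C.ip β.1 β.1
          rw [β.2]
          norm_num
        · rw [D.ip_orb β h j h0 hj, D.ip_r_NA hNA β h]
      · have hm : 0 < D.m := by rcases D.m_cases with h | h | h <;> omega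
        have h1 : D.r^[j] β = D.r^[j - D.m] β := by
          have h2 : j = (j - D.m) + D.m := by omega
          conv_lhs => rw [h2]
          rw [Function.iterate_add_apply, D.r_m]
        rw [h1]
        exact ih _ (by omega)

private theorem F1b_ip_shift (β γ : C.Root) (l : ℕ) :
    C.ip (D.r^[l] β).1 (D.r^[l] γ).1 = C.ip β.1 γ.1 := by
  induction l with
  | zero => rfl
  | succ l ih =>
    rw [Function.iterate_succ_apply', Function.iterate_succ_apply', D.r_ip, ih]

private theorem F1b_ip (hNA : D.NA) (β : C.Root) (l l' : ℕ) :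
    0 ≤ C.ip (D.r^[l] β).1 (D.r^[l'] β).1 := by
  rcases le_total l l' with h | h
  · have h2 : l' = l + (l' - l) := by omega
    rw [h2, Function.iterate_add_apply, F1b_ip_shift]
    exact F1b_ip0 hNA β _
  · have h2 : l = l' + (l - l') := by omega
    rw [h2, Function.iterate_add_apply, F1b_ip_shift, C.ip_comm]
    exact F1b_ip0 hNA β _

private theorem F1b_comm (hNA : D.NA) (β : C.Root) (l l' : ℕ) (a b : k) :
    Commute (S.x (D.r^[l] β) a) (S.x (D.r^[l'] β) b) :=
  S.comm _ _ a b (F1b_ip hNA β l l')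

private theorem F1b_form (he : Env D (RingEquiv.refl k) S s p) (β : C.Root) (t : k) :
    yb D S s β t = ((List.range (mo D β)).map fun l =>
      S.x (D.r^[l] β) ((D.sgp l β : k) * t)).prod := by
  unfold yb
  congr 1
  apply List.map_congr_left
  intro l _
  exact F1b_iter he l β t

private theorem F1b_mo_pos (β : C.Root) : 0 < mo D β := by
  unfold mo
  split_ifs
  · exact one_pos
  · rcases D.m_cases with h | h | h <;> omega

private theorem F1b_mo_le (β : C.Root) : mo D β ≤ D.m := by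
  unfold mo
  split_ifs
  · rcases D.m_cases with h | h | h <;> omega
  · exact le_rfl

private theorem F1b_fix (he : Env D (RingEquiv.refl k) S s p) (hNA : D.NA) (β : C.Root) (t : k) :
    s (yb D S s β t) = yb D S s β t := by
  obtain ⟨m', hm'⟩ : ∃ m', mo D β = m' + 1 := ⟨mo D β - 1, by have := F1b_mo_pos (D := D) β; omega⟩
  have hper : s^[m' + 1] (S.x β t) = S.x β t := by
    rw [← hm', F1b_iter he]
    unfold mo
    split_ifs with h
    · have h1 : D.sgp 1 β = 1 := by
        unfold Dg.sgp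
        rw [Finset.prod_range_one]
        exact D.sg_fix hNA β h
      rw [h1, F1b_r_fix β h]
      simp
    · rw [D.r_m, D.sgp_m]
      simp
  have hcomm : Commute (S.x β t) ((List.range m').map fun l => s^[l + 1] (S.x β t)).prod := by
    apply Commute.list_prod_right
    intro x hx
    obtain ⟨l, -, rfl⟩ := List.mem_map.mp hx
    rw [F1b_iter he]
    exact F1b_comm hNA β 0 (l + 1) _ _
  have e1 : s (yb D S s β t) = ((List.range m').map fun l => s^[l + 1] (S.x β t)).prod *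
      s^[m' + 1] (S.x β t) := by
    unfold yb
    rw [hm', map_list_prod, List.map_map, List.range_succ, List.map_append, List.prod_append,
      List.map_singleton, List.prod_singleton]
    simp only [Function.comp_def, Function.iterate_succ_apply']
  have e2 : yb D S s β t = S.x β t * ((List.range m').map fun l => s^[l + 1] (S.x β t)).prod := by
    unfold yb
    rw [hm', List.range_succ_eq_map, List.map_cons, List.prod_cons, List.map_map]
    rfl
  rw [e1, e2, hper]
  exact hcomm.eq.symm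

private theorem F1b_ht (β : C.Root) (l : ℕ) : ht (D.r^[l] β).1 = ht β.1 := by
  induction l with
  | zero => rfl
  | succ l ih => rw [Function.iterate_succ_apply', D.r_ht, ih]

theorem yb_fixU (he : Env D (RingEquiv.refl k) S s p) (hNA : D.NA) (β : C.Root) (hβ : C.Pos β)
    (t : k) : yb D S s β t ∈ fixU S s := by
  refine ⟨?_, F1b_fix he hNA β t⟩
  rw [F1b_form he]
  apply Subgroup.list_prod_mem
  intro x hx
  obtain ⟨l, -, rfl⟩ := List.mem_map.mp hx
  refine Subgroup.subset_closure ⟨_, _, ?_, rfl⟩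
  rw [F1b_ht]
  unfold SLC.Pos at hβ
  omega

private theorem F1b_prod {ι G : Type*} [Group G] (f g : ι → G) (hc : ∀ i j, Commute (g i) (f j))
    (L : List ι) : (L.map fun i => f i * g i).prod = (L.map f).prod * (L.map g).prod := by
  induction L with
  | nil => simp
  | cons a L ih =>
    simp only [List.map_cons, List.prod_cons, ih]
    have h : Commute (g a) (L.map f).prod := by
      apply Commute.list_prod_right
      intro x hx
      obtain ⟨j, -, rfl⟩ := List.mem_map.mp hx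
      exact hc a j
    rw [mul_assoc, mul_assoc, ← mul_assoc (g a), h.eq, mul_assoc]

theorem yb_add (he : Env D (RingEquiv.refl k) S s p) (hNA : D.NA) (β : C.Root) (t u : k) :
    yb D S s β (t + u) = yb D S s β t * yb D S s β u := by
  rw [F1b_form he, F1b_form he, F1b_form he, ← F1b_prod]
  · congr 1
    apply List.map_congr_left
    intro l _
    rw [mul_add, S.map_add]
  · intro i j
    exact F1b_comm hNA β i j _ _

theorem yb_T (he : Env D (RingEquiv.refl k) S s p) (hNA : D.NA) (β : C.Root) (τ : H)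
    (hτ : τ ∈ S.T ⊓ Eg S s) (t : k) : τ * yb D S s β t * τ⁻¹ =
      yb D S s β (C.chi (p τ : Matrix C.Idx C.Idx k) β * t) := by
  rw [F1b_form he, F1b_form he]
  have h1 : ∀ g : H, τ * g * τ⁻¹ = MulAut.conj τ g := fun g => rfl
  rw [h1, map_list_prod, List.map_map]
  congr 1
  apply List.map_congr_left
  intro l _
  rw [Function.comp_apply, ← h1, (SR_T he τ hτ.1 (D.r^[l] β) _).2, F1b_chi_r he τ hτ]
  congr 1
  ring

private theorem F1b_yb_zero (β : C.Root) : yb D S s β 0 = 1 := by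
  unfold yb
  apply List.prod_eq_one
  intro x hx
  obtain ⟨l, -, rfl⟩ := List.mem_map.mp hx
  rw [S.x_zero]
  exact iterate_map_one s l

private theorem F1b_inj (he : Env D (RingEquiv.refl k) S s p) (β : C.Root) (hβ : C.Pos β)
    (t t' : k) (h : yb D S s β t = yb D S s β t') : t = t' :=
  fixX_coord he β hβ t t' 1 1 (one_mem _) (one_mem _) (by rw [mul_one, mul_one, h])

theorem yb_one (he : Env D (RingEquiv.refl k) S s p) (hNA : D.NA) (β : C.Root) (hβ : C.Pos β)
    (t : k) (h : yb D S s β t = 1) : t = 0 :=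
  F1b_inj he β hβ t 0 (by rw [h, F1b_yb_zero])

theorem yb_X (he : Env D (RingEquiv.refl k) S s p) (hNA : D.NA) (i : Fin n) (β : C.Root)
    (h : D.rE.SameCycle (C.simple i) β) (t : k) : yb D S s β t ∈ fixX D S s (C.simple i) := by
  refine ⟨?_, F1b_fix he hNA β t⟩
  obtain ⟨l0, -, rfl⟩ := (D.sameCycle_iff _ _).mp h
  rw [F1b_form he]
  apply Subgroup.list_prod_mem
  intro x hx
  obtain ⟨l, -, rfl⟩ := List.mem_map.mp hx
  refine Subgroup.subset_closure ⟨_, _, Or.inl ⟨l + l0, ?_⟩, rfl⟩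
  rw [Function.iterate_add_apply]

private theorem F1b_tor (he : Env D (RingEquiv.refl k) S s p) (v : Fin n → ℤ)
    (hv : SLC.lmap D.ρ v = v) (c : k) (hc : c ≠ 0) :
    ∃ τ ∈ S.T ⊓ Eg S s, ∀ γ, C.chi (p τ : Matrix C.Idx C.Idx k) γ = c ^ C.ip v γ.1 := by
  obtain ⟨τ, hτ, h⟩ := exists_tor he.sig he.hθ he.hA v hv c hc rfl
  exact ⟨τ, hτ, fun γ => F1b_chi he τ hτ.1 γ _ (h γ 1)⟩

theorem tor_sep (he : Env D (RingEquiv.refl k) S s p) (hNA : D.NA) (β β' : C.Root)
    (hβ : C.Pos β) (hβ' : C.Pos β') (hne : ¬ D.rE.SameCycle β β') :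
    ∃ τ ∈ S.T ⊓ Eg S s, C.chi (p τ : Matrix C.Idx C.Idx k) β = 1 ∧
      C.chi (p τ : Matrix C.Idx C.Idx k) β' ≠ 1 := by
  obtain ⟨v, hv, h1, h2⟩ := D.sep_orbit hNA β β' hβ hβ' hne
  have := he.inf
  obtain ⟨c, hc, hc1⟩ := SLC.P2a_exists_unit (k := k) (C.ip v β'.1) h2
  obtain ⟨τ, hτ, h3⟩ := F1b_tor he v hv c hc
  refine ⟨τ, hτ, ?_, ?_⟩
  · rw [h3, h1, zpow_zero]
  · rw [h3]
    exact hc1

private theorem F1b_conj_inv (ν : H) (w : Equiv.Perm C.Root) (h : S.Acts ν w) (γ : C.Root)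
    (u : k) : ∃ u', ν⁻¹ * S.x γ u * ν = S.x (w⁻¹ γ) u' := by
  obtain ⟨c, hc, h1⟩ := h
  refine ⟨(c (w⁻¹ γ))⁻¹ * u, ?_⟩
  have h2 := h1 (w⁻¹ γ) ((c (w⁻¹ γ))⁻¹ * u)
  have h3 : w (w⁻¹ γ) = γ := w.apply_symm_apply γ
  rw [h3, ← mul_assoc, mul_inv_cancel₀ (hc _), one_mul] at h2
  rw [← h2]
  group

theorem nu_yb (he : Env D (RingEquiv.refl k) S s p) (hNA : D.NA) (i : Fin n) (β : C.Root)
    (hβ : C.Pos β) (hne : ¬ D.rE.SameCycle (C.simple i) β) (t : k) :
    (nuJ he i)⁻¹ * yb D S s β t * nuJ he i ∈ fixU S s := by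
  have hν := nuJ_mem he i
  have hs : s (nuJ he i) = nuJ he i := Eg_le_fix S s _ hν.2
  refine ⟨?_, ?_⟩
  · rw [F1b_form he]
    have h1 : ∀ g : H, (nuJ he i)⁻¹ * g * nuJ he i = MulAut.conj (nuJ he i)⁻¹ g := fun g => by
      rw [MulAut.conj_apply, inv_inv]
    rw [h1, map_list_prod, List.map_map]
    apply Subgroup.list_prod_mem
    intro x hx
    obtain ⟨l, -, rfl⟩ := List.mem_map.mp hx
    rw [Function.comp_apply, ← h1]
    obtain ⟨u', hu'⟩ := F1b_conj_inv (S := S) (nuJ he i) _ (nuJ_acts he i) (D.r^[l] β)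
      ((D.sgp l β : k) * t)
    rw [hu']
    refine Subgroup.subset_closure ⟨_, _, ?_, rfl⟩
    have hw : (C.wd (D.wl i))⁻¹ = C.wd (D.wl i) := inv_eq_of_mul_eq_one_left (D.wJ_sq i)
    rw [hw]
    have hpos : C.Pos (D.r^[l] β) := by
      unfold SLC.Pos at hβ ⊢
      rw [F1b_ht]
      exact hβ
    have hsupp : ¬ D.supp i (D.r^[l] β) := by
      intro h2
      have h3 := D.supp_NA hNA i _ hpos h2
      apply hne
      refine h3.trans ?_
      refine Equiv.Perm.SameCycle.symm ⟨l, ?_⟩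
      rw [zpow_natCast]
      clear hu' hpos h2 h3 hx
      induction l with
      | zero => rfl
      | succ l ih =>
        rw [pow_succ', Equiv.Perm.mul_apply, ih, Function.iterate_succ_apply']
        rfl
    have h4 := D.wJ_pos i _ hpos hsupp
    unfold SLC.Pos at h4
    omega
  · change s _ = _
    rw [map_mul, map_mul, map_inv, hs, F1b_fix he hNA]
    rfl

private theorem F1b_chi_mul (he : Env D (RingEquiv.refl k) S s p) (a b : H)
    (ha : a ∈ S.T) (hb : b ∈ S.T) (β : C.Root) :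
    C.chi (p (a * b) : Matrix C.Idx C.Idx k) β = C.chi (p a : Matrix C.Idx C.Idx k) β *
      C.chi (p b : Matrix C.Idx C.Idx k) β := by
  apply F1b_chi he _ (S.T.mul_mem ha hb)
  have h1 : a * b * S.x β 1 * (a * b)⁻¹ = a * (b * S.x β 1 * b⁻¹) * a⁻¹ := by group
  rw [h1, (SR_T he b hb β 1).2, (SR_T he a ha β _).2]
  congr 1
  ring

theorem nu_tor (he : Env D (RingEquiv.refl k) S s p) (hNA : D.NA) (i : Fin n) :
    ∃ τ ∈ S.T ⊓ Eg S s, ∀ β, D.rE.SameCycle (C.simple i) β →
      C.chi (p (τ⁻¹ * (nuJ he i * τ * (nuJ he i)⁻¹)) : Matrix C.Idx C.Idx k) β ≠ 1 := by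
  have hν := nuJ_mem he i
  have := he.inf
  have hd : (2 * (C.A.det.natAbs : ℤ)) ≠ 0 := by
    have := Int.natAbs_ne_zero.mpr C.det_ne_zero
    omega
  obtain ⟨c, hc, hc1⟩ := SLC.P2a_exists_unit (k := k) _ hd
  obtain ⟨τ, hτ, h1, -⟩ := SR_sep he i c rfl hc
  refine ⟨τ, hτ, ?_⟩
  have hmem1 : nuJ he i * τ * (nuJ he i)⁻¹ ∈ S.T ⊓ Eg S s :=
    ⟨S.N_conj_T _ _ hν.1 hτ.1, (Eg S s).mul_mem ((Eg S s).mul_mem hν.2 hτ.2)
      ((Eg S s).inv_mem hν.2)⟩
  have hmem2 : τ⁻¹ * (nuJ he i * τ * (nuJ he i)⁻¹) ∈ S.T ⊓ Eg S s :=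
    mul_mem (inv_mem hτ) hmem1
  intro β hβ
  obtain ⟨l, -, rfl⟩ := (D.sameCycle_iff _ _).mp hβ
  rw [F1b_chi_r he _ hmem2, F1b_chi_mul he _ _ (inv_mem hτ.1) hmem1.1]
  obtain ⟨-, -, l', h2⟩ := SR_ν he i (nuJ he i) hν (nuJ_acts he i)
  have h3 := h2 _ hmem1
  have h4 : (nuJ he i)⁻¹ * (nuJ he i * τ * (nuJ he i)⁻¹) * nuJ he i = τ := by group
  have h5 : ∀ a : k, (⇑(RingEquiv.refl k))^[l'] a = a := fun a => Function.iterate_fixed rfl l'
  rw [h4, h5] at h3
  have h6 : C.chi (p τ : Matrix C.Idx C.Idx k) (C.simple i) = c ^ C.A.det.natAbs :=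
    h1 i (Equiv.Perm.SameCycle.refl _ _)
  have h7 : C.chi (p τ⁻¹ : Matrix C.Idx C.Idx k) (C.simple i) *
      C.chi (p τ : Matrix C.Idx C.Idx k) (C.simple i) = 1 := by
    rw [← F1b_chi_mul he _ _ (inv_mem hτ.1) hτ.1, inv_mul_cancel, map_one]
    simp [SLC.chi]
  intro h8
  have h9 : C.chi (p (nuJ he i * τ * (nuJ he i)⁻¹) : Matrix C.Idx C.Idx k) (C.simple i) =
      (c ^ C.A.det.natAbs)⁻¹ := by
    rw [← h6, h3, inv_inv]
  have h10 : C.chi (p τ⁻¹ : Matrix C.Idx C.Idx k) (C.simple i) = (c ^ C.A.det.natAbs)⁻¹ := by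
    rw [← h6]
    exact eq_inv_of_mul_eq_one_left h7
  rw [h9, h10] at h8
  apply hc1
  have h11 : c ^ (2 * (C.A.det.natAbs : ℤ)) = c ^ C.A.det.natAbs * c ^ C.A.det.natAbs := by
    rw [two_mul, zpow_add₀ hc, zpow_natCast]
  rw [h11]
  rw [← mul_inv] at h8
  exact inv_eq_one.mp h8

theorem yb_central (he : Env D (RingEquiv.refl k) S s p) (hNA : D.NA) (β : C.Root)
    (hβ : C.Pos β) (t : k) (h : ∀ τ ∈ S.T ⊓ Eg S s, τ * yb D S s β t = yb D S s β t * τ) :
    t = 0 := by
  have hm : 0 < D.m := by rcases D.m_cases with h | h | h <;> omega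
  have hlsum : ∀ (F : Finset ℕ) (f : ℕ → Fin n → ℤ),
      SLC.lmap D.ρ (∑ l ∈ F, f l) = ∑ l ∈ F, SLC.lmap D.ρ (f l) := by
    intro F f
    induction F using Finset.induction_on with
    | empty => rfl
    | insert a F ha ih => rw [Finset.sum_insert ha, SLC.lmap_add, ih, Finset.sum_insert ha]
  have hisum : ∀ (F : Finset ℕ) (f : ℕ → Fin n → ℤ) (w : Fin n → ℤ),
      C.ip (∑ l ∈ F, f l) w = ∑ l ∈ F, C.ip (f l) w := by
    intro F f w
    induction F using Finset.induction_on with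
    | empty => simp [C.ip_zero_left]
    | insert a F ha ih => rw [Finset.sum_insert ha, C.ip_add_left, ih, Finset.sum_insert ha]
  have hv : SLC.lmap D.ρ (∑ l ∈ Finset.range D.m, (D.r^[l] β).1) =
      ∑ l ∈ Finset.range D.m, (D.r^[l] β).1 := by
    rw [hlsum]
    have h1 : ∀ l, SLC.lmap D.ρ (D.r^[l] β).1 = (D.r^[l + 1] β).1 := fun l => by
      rw [Function.iterate_succ_apply']
      rfl
    simp only [h1]
    obtain ⟨m', hm'⟩ : ∃ m', D.m = m' + 1 := ⟨D.m - 1, by omega⟩
    rw [hm', Finset.sum_range_succ, Finset.sum_range_succ', ← hm', D.r_m]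
    rfl
  have hpos : 0 < C.ip (∑ l ∈ Finset.range D.m, (D.r^[l] β).1) β.1 := by
    rw [hisum]
    refine Finset.sum_pos' (fun l _ => F1b_ip hNA β l 0) ⟨0, Finset.mem_range.mpr hm, ?_⟩
    change 0 < C.ip β.1 β.1
    rw [β.2]
    norm_num
  have := he.inf
  obtain ⟨c, hc, hc1⟩ := SLC.P2a_exists_unit (k := k) _ hpos.ne'
  obtain ⟨τ, hτ, h3⟩ := F1b_tor he _ hv c hc
  have h4 := yb_T he hNA β τ hτ t
  rw [h τ hτ, mul_inv_cancel_right] at h4
  have h5 := F1b_inj he β hβ _ _ h4
  rw [h3] at h5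
  by_contra h0
  apply hc1
  exact mul_right_cancel₀ h0 (by rw [one_mul]; exact h5.symm)

end Pool.Agent.H75.UL
end

section
/- module Pool.Agent.H86.UM.Z0 -/
/-!
# Project UM, Suzuki-Ree groups, module Z0: definitions

`GF D k` is the folded group over `k` (the group `G(Φ, k)` for `Φ = B₂, F₄, G₂` if `C, D` is `A₃` with
`ρ` of order `2`, `E₆` with `ρ` of order `2`, `D₄` with `ρ` of order `3`), in its adjoint version: the subgroup of
`GL C.Idx k` generated by the fixed points of the graph automorphism in `U⁺` and in `U⁻`. `D.r β = β`: long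
root, otherwise the orbit of `β` is a short root of `Φ`.
-/

set_option autoImplicit false
open Matrix

namespace Pool.Agent.H86.UM

open Pool.Agent.H75.UL

variable {n : ℕ} {C : SLC n}

/-- The folded group. -/
noncomputable abbrev GF (D : Dg C) (k : Type*) [Field k] : Subgroup (GL C.Idx k) :=
  Eg (C.adS k) (D.sgl (RingEquiv.refl k))

theorem env_ad (D : Dg C) (hN : D.NA) (k : Type*) [Field k] [Infinite k] :
    Env D (RingEquiv.refl k) (C.adS k) (D.sgl (RingEquiv.refl k)) (MonoidHom.id _) where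
  inf := inferInstance
  sig := isSig_adS D _
  hp := fun _ _ => rfl
  hθ := fun t => by simp [Function.iterate_fixed]
  hA := Or.inl hN
  hB := Or.inl hN
  hC := Or.inl hN

theorem yb_mem (D : Dg C) (hN : D.NA) (k : Type*) [Field k] (β : C.Root) (t : k) :
    yb D (C.adS k) (D.sgl (RingEquiv.refl k)) β t ∈ GF D k := by
  have hs : IsSig D (RingEquiv.refl k) (C.adS k) (D.sgl (RingEquiv.refl k)) := isSig_adS D _
  by_cases h : D.r β = β
  · have e : yb D (C.adS k) (D.sgl (RingEquiv.refl k)) β t = (C.adS k).x β t := by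
      unfold yb mo
      rw [if_pos h]
      simp
    have hf : D.sgl (RingEquiv.refl k) ((C.adS k).x β t) = (C.adS k).x β t := by
      rw [hs β t, h, D.sg_fix hN β h]
      simp
    rw [e]
    by_cases hp : C.Pos β
    · refine (le_sup_left : fixU _ _ ≤ _) ⟨Subgroup.subset_closure ⟨β, t, ?_, rfl⟩, hf⟩
      unfold SLC.Pos at hp
      omega
    · refine (le_sup_right : fixUm _ _ ≤ _) ⟨Subgroup.subset_closure ⟨β, t, ?_, rfl⟩, hf⟩
      have := C.ht_ne_zero β
      unfold SLC.Pos at hp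
      omega
  · have h1 := prod_x_mem hs (fun t => by simp [Function.iterate_fixed]) β h
      (D.ip_r_NA hN β h) t
    unfold yb mo
    rw [if_neg h]
    exact h1

/-- The root elements of the folded group. -/
noncomputable def yg {D : Dg C} (hN : D.NA) {k : Type*} [Field k] (β : C.Root) (t : k) :
    GF D k := ⟨yb D (C.adS k) (D.sgl (RingEquiv.refl k)) β t, yb_mem D hN k β t⟩

theorem yg_val {D : Dg C} (hN : D.NA) {k : Type*} [Field k] (β : C.Root) (t : k) :
    ((yg hN β t : GF D k) : GL C.Idx k) = yb D (C.adS k) (D.sgl (RingEquiv.refl k)) β t := rfl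

section
variable (D : Dg C) (k : Type*) [Field k]

/-- `U⁺` -/
noncomputable def FU : Subgroup (GF D k) :=
  (fixU (C.adS k) (D.sgl (RingEquiv.refl k))).subgroupOf (GF D k)

/-- `U⁻` -/
noncomputable def FUm : Subgroup (GF D k) :=
  (fixUm (C.adS k) (D.sgl (RingEquiv.refl k))).subgroupOf (GF D k)

/-- The torus. -/
noncomputable def FT : Subgroup (GF D k) := (C.adS k).T.subgroupOf (GF D k)

/-- The monomial subgroup. -/
noncomputable def FN : Subgroup (GF D k) := (C.adS k).N.subgroupOf (GF D k)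

end

/-- The linear map exchanging the long and the short roots (on `ρ`-invariant vectors). -/
noncomputable def TT (D : Dg C) (t0 : Fin n → Fin n) (v : Fin n → ℤ) : Fin n → ℤ :=
  fun j => (if D.ρ j = j then (D.m : ℤ) else 1) * v (t0 j)

/-- `t0` maps each node to a node of the other length. -/
structure Swap (D : Dg C) (t0 : Fin n → Fin n) : Prop where
  na : D.NA
  m_ne : D.m ≠ 1
  fix_iff : ∀ j, D.ρ (t0 j) = t0 j ↔ D.ρ j ≠ j
  rho : ∀ j, t0 (D.ρ j) = t0 j
  inv : ∀ j, D.ρ.SameCycle j (t0 (t0 j))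
  scale : ∀ v w, SLC.lmap D.ρ v = v → SLC.lmap D.ρ w = w →
    C.ip (TT D t0 v) (TT D t0 w) = (D.m : ℤ) * C.ip v w

open Classical in
/-- The action of `σ` on the parameters. -/
noncomputable def th (D : Dg C) {k : Type*} [Field k] (θ : k ≃+* k) (β : C.Root) (t : k) : k :=
  if D.r β = β then θ.symm t else θ t

/-- `σ` is the automorphism `x_(± α)(t) ↦ x_(± t0 α)(θ^(±1) t)` (`α` simple) of the folded group, where
`θ (θ t) = t ^ m`, `m = char k`. -/
structure SRs (D : Dg C) (t0 : Fin n → Fin n) {k : Type*} [Field k] (θ : k ≃+* k)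
    (σ : GF D k →* GF D k) : Prop where
  chr : CharP k D.m
  hθ : ∀ t, θ (θ t) = t ^ D.m
  pos : ∀ (j : Fin n) (t : k) (x : GF D k),
    (x : GL C.Idx k) = yb D (C.adS k) (D.sgl (RingEquiv.refl k)) (C.simple j) t →
    (σ x : GL C.Idx k) = yb D (C.adS k) (D.sgl (RingEquiv.refl k)) (C.simple (t0 j))
      (th D θ (C.simple j) t)
  neg : ∀ (j : Fin n) (t : k) (x : GF D k),
    (x : GL C.Idx k) = yb D (C.adS k) (D.sgl (RingEquiv.refl k)) (-(C.simple j)) t →
    (σ x : GL C.Idx k) = yb D (C.adS k) (D.sgl (RingEquiv.refl k)) (-(C.simple (t0 j)))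
      (th D θ (C.simple j) t)

/-- The fixed points of `σ`. -/
def Fx {G : Type*} [Group G] (σ : G →* G) : Subgroup G := MonoidHom.eqLocus σ (MonoidHom.id G)

theorem mem_Fx {G : Type*} [Group G] (σ : G →* G) (x : G) : x ∈ Fx σ ↔ σ x = x := Iff.rfl

/-- The Suzuki-Ree group: generated by the fixed points of `σ` in `U⁺` and in `U⁻`. -/
noncomputable def Esr (D : Dg C) {k : Type*} [Field k] (σ : GF D k →* GF D k) :
    Subgroup (GF D k) := (FU D k ⊓ Fx σ) ⊔ (FUm D k ⊓ Fx σ)

/-- The sum over the orbit of `β`. -/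
noncomputable def osum (D : Dg C) (β : C.Root) : Fin n → ℤ :=
  ∑ l ∈ Finset.range (mo D β), (D.r^[l] β).1

/-- `τ` exchanges the long and the short roots. -/
structure IsTau (D : Dg C) (t0 : Fin n → Fin n) (τ : C.Root → C.Root) : Prop where
  long : ∀ β, D.r β = β → D.r (τ β) ≠ τ β ∧ osum D (τ β) = TT D t0 β.1
  short : ∀ β, D.r β ≠ β → D.r (τ β) = τ β ∧ (D.m : ℤ) • (τ β).1 = TT D t0 (osum D β)

/-- `σ` on all root elements. -/
structure SRt {D : Dg C} (hN : D.NA) (t0 : Fin n → Fin n) {k : Type*} [Field k] (θ : k ≃+* k)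
    (σ : GF D k →* GF D k) (τ : C.Root → C.Root) (e : C.Root → ℤ) : Prop where
  tau : IsTau D t0 τ
  e_eq : ∀ β, e β = 1 ∨ e β = -1
  map : ∀ β t, σ (yg hN β t) = yg hN (τ β) ((e β : k) * th D θ β t)

/-- The nodes belonging to `i`. -/
def JJ (D : Dg C) (t0 : Fin n → Fin n) (i j : Fin n) : Prop :=
  D.ρ.SameCycle i j ∨ D.ρ.SameCycle (t0 i) j

/-- `β` is supported on the nodes belonging to `i`. -/
def suppJ (D : Dg C) (t0 : Fin n → Fin n) (i : Fin n) (β : C.Root) : Prop :=
  ∀ j, β.1 j ≠ 0 → JJ D t0 i j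

/-- The subgroup of the folded group generated by the root elements of a set of roots. -/
noncomputable def FR {D : Dg C} (hN : D.NA) (k : Type*) [Field k] (R : Set C.Root) :
    Subgroup (GF D k) := Subgroup.closure {g | ∃ β ∈ R, ∃ t : k, g = yg hN β t}

/-- Positive roots supported on the nodes belonging to `i`. -/
def RJ (D : Dg C) (t0 : Fin n → Fin n) (i : Fin n) : Set C.Root :=
  {β | C.Pos β ∧ suppJ D t0 i β}

/-- The other positive roots. -/
def RcJ (D : Dg C) (t0 : Fin n → Fin n) (i : Fin n) : Set C.Root :=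
  {β | C.Pos β ∧ ¬ suppJ D t0 i β}

/-- The simple root groups of the Suzuki-Ree group. -/
noncomputable def XJ {D : Dg C} (hN : D.NA) (t0 : Fin n → Fin n) {k : Type*} [Field k]
    (σ : GF D k →* GF D k) (i : Fin n) : Subgroup (GF D k) := FR hN k (RJ D t0 i) ⊓ Fx σ

/-- The opposite simple root groups of the Suzuki-Ree group. -/
noncomputable def XmJ {D : Dg C} (hN : D.NA) (t0 : Fin n → Fin n) {k : Type*} [Field k]
    (σ : GF D k →* GF D k) (i : Fin n) : Subgroup (GF D k) :=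
  FR hN k {β | -β ∈ RJ D t0 i} ⊓ Fx σ

end Pool.Agent.H86.UM
end

section
/- module Pool.Agent.H86.UM.Z1 -/
/-!
# Project UM, Suzuki-Ree groups, module Z1: the root elements `yg` of the folded group

`env_ad D hN k : Env ..` allows to use the modules of UM and UK (F1b). `s = D.sgl (RingEquiv.refl k)`, `IsSig` from `isSig_adS`; `IsSig.iter`:
`s^[l] (x_β(t)) = x_(r^l β)(sgp l β * t)`; the factors of `yb β t` commute (`ip_r_NA`, `ip_orb`, `xg_comm`).
Many of the statements are contained in FX.lean, F1b.lean (UK), GEN.lean, D6*.lean (UT).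
`yg_r`: the product over the orbit does not depend on the starting point (`r_m`, `sgp_m`).
`yg_inj`: compare coordinates (`adS_inj`, `adS_neg_inj`; negative roots: `S.neg`). `FU_eq`: `fixU_eq` with
`adS_inj`, and `fixX β = {yg β t}` (`fixX_form` has the proof: `ZZ` is trivial). `FUm_eq` similarly.
`nJ_conj`: `nJ = ∏_l s^l (nn x α_j 1)` (the factors commute), `n_conj_all` for one factor after the other,
then apply `s^l` (`nJ` is fixed by `s`, acts by `w = wd (wl j)` which commutes with `rE` (`wJ_comm`), so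
`mo (w β) = mo β`). `xi_yg`: `xi_mul`, `xi_xg`.
-/

set_option autoImplicit false
open Matrix

namespace Pool.Agent.H86.UM

open Pool.Agent.H75.UL

section
variable {n : ℕ} {C : SLC n} {D : Dg C} {k : Type*} [Field k] {H : Type*} [Group H]
  {S : StSys C k H} {s : H →* H}

private theorem Z1_iter (hs : IsSig D (RingEquiv.refl k) S s) (l : ℕ) (β : C.Root) (t : k) :
    s^[l] (S.x β t) = S.x (D.r^[l] β) ((D.sgp l β : k) * t) := by
  rw [hs.iter]
  congr 2
  exact Function.iterate_fixed rfl l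

private theorem Z1_r_fix (β : C.Root) (h : D.r β = β) (l : ℕ) : D.r^[l] β = β :=
  Function.iterate_fixed h l

private theorem Z1_ip0 (hNA : D.NA) (β : C.Root) : ∀ j : ℕ, 0 ≤ C.ip β.1 (D.r^[j] β).1 := by
  intro j
  induction j using Nat.strong_induction_on with
  | _ j ih =>
    by_cases h : D.r β = β
    · rw [Z1_r_fix β h, β.2]
      norm_num
    · by_cases hj : j < D.m
      · rcases Nat.eq_zero_or_pos j with h0 | h0
        · subst h0
          change 0 ≤ C.ip β.1 β.1
          rw [β.2]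
          norm_num
        · rw [D.ip_orb β h j h0 hj, D.ip_r_NA hNA β h]
      · have hm : 0 < D.m := by rcases D.m_cases with h | h | h <;> omega
        have h1 : D.r^[j] β = D.r^[j - D.m] β := by
          have h2 : j = (j - D.m) + D.m := by omega
          conv_lhs => rw [h2]
          rw [Function.iterate_add_apply, D.r_m]
        rw [h1]
        exact ih _ (by omega)

private theorem Z1_ip_shift (β γ : C.Root) (l : ℕ) :
    C.ip (D.r^[l] β).1 (D.r^[l] γ).1 = C.ip β.1 γ.1 := by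
  induction l with
  | zero => rfl
  | succ l ih =>
    rw [Function.iterate_succ_apply', Function.iterate_succ_apply', D.r_ip, ih]

private theorem Z1_ip (hNA : D.NA) (β : C.Root) (l l' : ℕ) :
    0 ≤ C.ip (D.r^[l] β).1 (D.r^[l'] β).1 := by
  rcases le_total l l' with h | h
  · have h2 : l' = l + (l' - l) := by omega
    rw [h2, Function.iterate_add_apply, Z1_ip_shift]
    exact Z1_ip0 hNA β _
  · have h2 : l = l' + (l - l') := by omega
    rw [h2, Function.iterate_add_apply, Z1_ip_shift, C.ip_comm]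
    exact Z1_ip0 hNA β _

private theorem Z1_comm (hNA : D.NA) (β : C.Root) (l l' : ℕ) (a b : k) :
    Commute (S.x (D.r^[l] β) a) (S.x (D.r^[l'] β) b) :=
  S.comm _ _ a b (Z1_ip hNA β l l')

private theorem Z1_form (hs : IsSig D (RingEquiv.refl k) S s) (β : C.Root) (t : k) :
    yb D S s β t = ((List.range (mo D β)).map fun l =>
      S.x (D.r^[l] β) ((D.sgp l β : k) * t)).prod := by
  unfold yb
  congr 1
  apply List.map_congr_left
  intro l _
  exact Z1_iter hs l β t

private theorem Z1_mo_pos (β : C.Root) : 0 < mo D β := by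
  unfold mo
  split_ifs
  · exact one_pos
  · rcases D.m_cases with h | h | h <;> omega

private theorem Z1_fix (hs : IsSig D (RingEquiv.refl k) S s) (hNA : D.NA) (β : C.Root) (t : k) :
    s (yb D S s β t) = yb D S s β t := by
  obtain ⟨m', hm'⟩ : ∃ m', mo D β = m' + 1 := ⟨mo D β - 1, by have := Z1_mo_pos (D := D) β; omega⟩
  have hper : s^[m' + 1] (S.x β t) = S.x β t := by
    rw [← hm', Z1_iter hs]
    unfold mo
    split_ifs with h
    · have h1 : D.sgp 1 β = 1 := by
        unfold Dg.sgp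
        rw [Finset.prod_range_one]
        exact D.sg_fix hNA β h
      rw [h1, Z1_r_fix β h]
      simp
    · rw [D.r_m, D.sgp_m]
      simp
  have hcomm : Commute (S.x β t) ((List.range m').map fun l => s^[l + 1] (S.x β t)).prod := by
    apply Commute.list_prod_right
    intro x hx
    obtain ⟨l, -, rfl⟩ := List.mem_map.mp hx
    rw [Z1_iter hs]
    exact Z1_comm hNA β 0 (l + 1) _ _
  have e1 : s (yb D S s β t) = ((List.range m').map fun l => s^[l + 1] (S.x β t)).prod *
      s^[m' + 1] (S.x β t) := by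
    unfold yb
    rw [hm', map_list_prod, List.map_map, List.range_succ, List.map_append, List.prod_append,
      List.map_singleton, List.prod_singleton]
    simp only [Function.comp_def, Function.iterate_succ_apply']
  have e2 : yb D S s β t = S.x β t * ((List.range m').map fun l => s^[l + 1] (S.x β t)).prod := by
    unfold yb
    rw [hm', List.range_succ_eq_map, List.map_cons, List.prod_cons, List.map_map]
    rfl
  rw [e1, e2, hper]
  exact hcomm.eq.symm

private theorem Z1_ht (β : C.Root) (l : ℕ) : ht (D.r^[l] β).1 = ht β.1 := by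
  induction l with
  | zero => rfl
  | succ l ih => rw [Function.iterate_succ_apply', D.r_ht, ih]

private theorem Z1_yb_zero (β : C.Root) : yb D S s β 0 = 1 := by
  unfold yb
  apply List.prod_eq_one
  intro x hx
  obtain ⟨l, -, rfl⟩ := List.mem_map.mp hx
  rw [S.x_zero]
  exact iterate_map_one s l

private theorem Z1_mo_congr (β γ : C.Root) (h : D.r γ = γ ↔ D.r β = β) : mo D γ = mo D β := by
  unfold mo
  by_cases h1 : D.r β = β
  · rw [if_pos h1, if_pos (h.2 h1)]
  · rw [if_neg h1, if_neg (fun h2 => h1 (h.1 h2))]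

private theorem Z1_mo_r (β : C.Root) : mo D (D.r β) = mo D β :=
  Z1_mo_congr β _ ⟨fun h => D.r_injective h, fun h => congrArg D.r h⟩

private theorem Z1_neg_inj (β γ : C.Root) (h : -β = -γ) : β = γ := by
  rw [← C.neg_neg_root β, h, C.neg_neg_root]

private theorem Z1_mo_neg (β : C.Root) : mo D (-β) = mo D β :=
  Z1_mo_congr β _ ⟨fun h => by rw [D.r_neg] at h; exact Z1_neg_inj _ _ h,
    fun h => by rw [D.r_neg, h]⟩

private theorem Z1_w_r (w : Equiv.Perm C.Root) (hw : D.rE * w * D.rE⁻¹ = w) (β : C.Root) :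
    D.r (w β) = w (D.r β) := by
  have h1 : D.rE * w = w * D.rE := by
    conv_rhs => rw [← hw]
    group
  have h2 := congrArg (fun f : Equiv.Perm C.Root => f β) h1
  simpa only [Equiv.Perm.mul_apply, Dg.rE_apply] using h2

private theorem Z1_mo_w (w : Equiv.Perm C.Root) (hw : D.rE * w * D.rE⁻¹ = w) (β : C.Root) :
    mo D (w β) = mo D β :=
  Z1_mo_congr β _ ⟨fun h => by rw [Z1_w_r w hw] at h; exact w.injective h,
    fun h => by rw [Z1_w_r w hw, h]⟩

private theorem Z1_yb_r (hs : IsSig D (RingEquiv.refl k) S s) (hNA : D.NA) (β : C.Root) (t : k) :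
    yb D S s (D.r β) ((D.sg β : k) * t) = yb D S s β t := by
  rw [← Z1_fix hs hNA β t]
  unfold yb
  rw [Z1_mo_r, map_list_prod, List.map_map]
  congr 1
  apply List.map_congr_left
  intro l _
  have h1 : S.x (D.r β) ((D.sg β : k) * t) = s (S.x β t) := by
    rw [hs β t]
    rfl
  rw [h1]
  change s^[l] (s (S.x β t)) = s (s^[l] (S.x β t))
  rw [← Function.iterate_succ_apply s l, Function.iterate_succ_apply' s l]

private theorem Z1_fix_iter (g : H) (hg : s g = g) (l : ℕ) : s^[l] g = g :=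
  Function.iterate_fixed hg l

private theorem Z1_iter_conj (g x : H) (hg : s g = g) (l : ℕ) :
    s^[l] (g * x * g⁻¹) = g * s^[l] x * g⁻¹ := by
  induction l with
  | zero => rfl
  | succ l ih =>
    rw [Function.iterate_succ_apply', ih, map_mul, map_mul, map_inv, hg,
      Function.iterate_succ_apply']

private theorem Z1_conj_yb (g : H) (hg : s g = g) (w : Equiv.Perm C.Root)
    (hw : D.rE * w * D.rE⁻¹ = w) (β : C.Root) (c t : k)
    (h : g * S.x β t * g⁻¹ = S.x (w β) (c * t)) :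
    g * yb D S s β t * g⁻¹ = yb D S s (w β) (c * t) := by
  have h1 : ∀ x : H, g * x * g⁻¹ = MulAut.conj g x := fun x => rfl
  unfold yb
  rw [Z1_mo_w w hw, h1, map_list_prod, List.map_map]
  congr 1
  apply List.map_congr_left
  intro l _
  rw [Function.comp_apply, ← h1, ← Z1_iter_conj g _ hg, h]

private theorem Z1_iter_neg (β : C.Root) (l : ℕ) : D.r^[l] (-β) = -(D.r^[l] β) := by
  induction l with
  | zero => rfl
  | succ l ih =>
    rw [Function.iterate_succ', Function.comp, ih, D.r_neg]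
    rfl

private theorem Z1_yb_neg (β : C.Root) (t : k) : yb D S.neg s β t = yb D S s (-β) t := by
  unfold yb
  rw [Z1_mo_neg]
  rfl

private theorem Z1_inO_neg (β γ : C.Root) : D.inO β γ → D.inO (-β) (-γ) := by
  rintro (⟨l, rfl⟩ | h)
  · exact Or.inl ⟨l, (Z1_iter_neg β l).symm⟩
  · right
    rw [D.r_neg, SLC.Root.neg_val, SLC.Root.neg_val, SLC.Root.neg_val, h, neg_add]

private theorem Z1_XO_neg (β : C.Root) : XO D S.neg β = XO D S (-β) := by
  unfold XO
  congr 1
  ext g
  constructor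
  · rintro ⟨γ, t, h, rfl⟩
    exact ⟨-γ, t, Z1_inO_neg _ _ h, rfl⟩
  · rintro ⟨γ, t, h, rfl⟩
    refine ⟨-γ, t, ?_, ?_⟩
    · have h1 := Z1_inO_neg _ _ h
      rwa [C.neg_neg_root] at h1
    · rw [StSys.neg_x, C.neg_neg_root]

private theorem Z1_fixX_neg (β : C.Root) : fixX D S.neg s β = fixX D S s (-β) := by
  unfold fixX
  rw [Z1_XO_neg]

private theorem Z1_fixU_neg : fixU S.neg s = fixUm S s := by
  unfold fixU fixUm
  rw [StSys.neg_U]

private theorem Z1_ZZ (hNA : D.NA) (β : C.Root) (z : H) (hz : z ∈ ZZ D S β) : z = 1 := by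
  unfold ZZ at hz
  have h1 : {g | ∃ (γ : C.Root) (v : k), γ.1 = β.1 + (D.r β).1 ∧ g = S.x γ v} = (∅ : Set H) := by
    ext g
    simp only [Set.mem_ofPred_eq, Set.mem_empty_iff_false, iff_false]
    rintro ⟨γ, v, hγ, -⟩
    have h2 := C.ip_add_root _ _ _ hγ
    by_cases h3 : D.r β = β
    · rw [h3, β.2] at h2
      omega
    · rw [D.ip_r_NA hNA β h3] at h2
      omega
  rw [h1, Subgroup.closure_empty, Subgroup.mem_bot] at hz
  exact hz

end

section
variable {n : ℕ} {C : SLC n} {D : Dg C} {k : Type*} [Field k] {H : Type*} [Group H]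
  {S : StSys C k H} {s : H →* H} {p : H →* GL C.Idx k}

private theorem Z1_fixX (he : Env D (RingEquiv.refl k) S s p) (hNA : D.NA) (β : C.Root)
    (hβ : C.Pos β) (x : H) (hx : x ∈ fixX D S s β) : ∃ t, x = yb D S s β t := by
  obtain ⟨t, -, z, hz, h⟩ := fixX_form he β hβ x hx
  refine ⟨t, ?_⟩
  rw [h, Z1_ZZ hNA β z hz, mul_one]

private theorem Z1_yb_fixX (he : Env D (RingEquiv.refl k) S s p) (hNA : D.NA) (β : C.Root)
    (t : k) : yb D S s β t ∈ fixX D S s β := by
  refine ⟨?_, Z1_fix he.sig hNA β t⟩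
  have h1 := yb_mem_XO he β t 1 (one_mem _)
  rwa [mul_one] at h1

private theorem Z1_inj (he : Env D (RingEquiv.refl k) S s p) (hNA : D.NA) (β γ : C.Root)
    (hβ : C.Pos β) (hγ : C.Pos γ) (t u : k) (ht : t ≠ 0)
    (h : yb D S s β t = yb D S s γ u) : D.rE.SameCycle β γ ∧ (β = γ → t = u) := by
  constructor
  · by_contra hne
    obtain ⟨τ, hτ, h1, h2⟩ := tor_sep he hNA β γ hβ hγ hne
    have h3 := yb_T he hNA β τ hτ t
    have h4 := yb_T he hNA γ τ hτ u
    rw [h1, one_mul, h] at h3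
    rw [h3] at h4
    have h5 : yb D S s γ (C.chi (p τ : Matrix C.Idx C.Idx k) γ * u - u) = 1 := by
      have h6 := yb_add he hNA γ (C.chi (p τ : Matrix C.Idx C.Idx k) γ * u - u) u
      rw [sub_add_cancel, ← h4] at h6
      exact (mul_eq_right.mp h6.symm)
    have h6 := yb_one he hNA γ hγ _ h5
    have h7 : (C.chi (p τ : Matrix C.Idx C.Idx k) γ - 1) * u = 0 := by
      rw [sub_mul, one_mul]
      exact h6
    rcases mul_eq_zero.mp h7 with h8 | h8
    · exact h2 (sub_eq_zero.mp h8)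
    · rw [h8, Z1_yb_zero] at h
      exact ht (yb_one he hNA β hβ _ h)
  · rintro rfl
    exact fixX_coord he β hβ t u 1 1 (one_mem _) (one_mem _) (by rw [mul_one, mul_one, h])

private theorem Z1_sc_neg (β γ : C.Root) (h : D.rE.SameCycle (-β) (-γ)) :
    D.rE.SameCycle β γ := by
  obtain ⟨l, hl, h1⟩ := (D.sameCycle_iff _ _).mp h
  rw [Z1_iter_neg] at h1
  exact (D.sameCycle_iff _ _).mpr ⟨l, hl, Z1_neg_inj _ _ h1⟩

end

section
variable {n : ℕ}

/-- The matrix of the opposition involution. -/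
private def Z1_om (C : SLC n) : Matrix C.Idx C.Idx ℤ := fun a b =>
  match a, b with
  | Sum.inl i, Sum.inl j => if i = j then -1 else 0
  | Sum.inr γ, Sum.inr β => if γ = -β then 1 else 0
  | Sum.inl _, Sum.inr _ => 0
  | Sum.inr _, Sum.inl _ => 0

variable {C : SLC n} {F : Type*} [Field F]

private theorem Z1_neg_neg (β : C.Root) : - -β = β := by
  apply SLC.Root.ext
  rw [SLC.Root.neg_val, SLC.Root.neg_val, neg_neg]

private theorem Z1_om_mul (M : Matrix C.Idx C.Idx ℤ) (a b : C.Idx) :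
    (Z1_om C * M) a b = match a with
      | Sum.inl i => - M (Sum.inl i) b
      | Sum.inr γ => M (Sum.inr (-γ)) b := by
  rw [Matrix.mul_apply, Fintype.sum_sum_type]
  rcases a with i | γ
  · simp only [Z1_om, zero_mul, Finset.sum_const_zero, add_zero]
    rw [Finset.sum_eq_single i]
    · simp
    · intro j _ hj
      rw [if_neg (Ne.symm hj), zero_mul]
    · intro h
      exact absurd (Finset.mem_univ i) h
  · simp only [Z1_om, zero_mul, Finset.sum_const_zero, zero_add]
    rw [Finset.sum_eq_single (-γ)]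
    · rw [Z1_neg_neg, if_pos rfl, one_mul]
    · intro j _ hj
      rw [if_neg, zero_mul]
      intro h
      apply hj
      rw [h, Z1_neg_neg]
    · intro h
      exact absurd (Finset.mem_univ _) h

private theorem Z1_mul_om (M : Matrix C.Idx C.Idx ℤ) (a b : C.Idx) :
    (M * Z1_om C) a b = match b with
      | Sum.inl i => - M a (Sum.inl i)
      | Sum.inr γ => M a (Sum.inr (-γ)) := by
  rw [Matrix.mul_apply, Fintype.sum_sum_type]
  rcases b with i | γ
  · simp only [Z1_om, mul_zero, Finset.sum_const_zero, add_zero]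
    rw [Finset.sum_eq_single i]
    · simp
    · intro j _ hj
      rw [if_neg hj, mul_zero]
    · intro h
      exact absurd (Finset.mem_univ i) h
  · simp only [Z1_om, mul_zero, Finset.sum_const_zero, zero_add]
    rw [Finset.sum_eq_single (-γ)]
    · rw [if_pos rfl, mul_one]
    · intro j _ hj
      rw [if_neg hj, mul_zero]
    · intro h
      exact absurd (Finset.mem_univ _) h

private theorem Z1_om_sq : Z1_om C * Z1_om C = 1 := by
  ext a b
  rw [Z1_om_mul]
  rcases a with i | γ <;> rcases b with j | β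
  · simp only [Z1_om, Matrix.one_apply, Sum.inl.injEq]
    split_ifs <;> rfl
  · simp [Z1_om]
  · simp [Z1_om]
  · simp only [Z1_om, Matrix.one_apply, Sum.inr.injEq]
    have h : -γ = -β ↔ γ = β := by
      constructor
      · intro h
        rw [← Z1_neg_neg γ, h, Z1_neg_neg]
      · intro h
        rw [h]
    simp only [h]

private theorem Z1_eps (v w : Fin n → ℤ) : C.eps (-v) (-w) = C.eps v w := by
  unfold SLC.eps SLC.hf
  rw [Matrix.mulVec_neg, neg_dotProduct, dotProduct_neg, neg_neg]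

private theorem Z1_om_E (α : C.Root) : Z1_om C * C.E α = C.E (-α) * Z1_om C := by
  ext a b
  rw [Z1_om_mul, Z1_mul_om]
  rcases a with i | γ <;> rcases b with j | β
  · simp [SLC.E]
  · simp only [SLC.E, SLC.Root.neg_val, Pi.neg_apply, neg_neg]
    have h : -β.1 = α.1 ↔ β.1 = -α.1 := neg_eq_iff_eq_neg
    simp only [h]
    split_ifs <;> simp
  · simp only [SLC.E, SLC.Root.neg_val]
    have h : -γ.1 = α.1 ↔ γ.1 = -α.1 := neg_eq_iff_eq_neg
    simp only [h]
    split_ifs
    · rw [SLC.ip_neg_right]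
      ring
    · simp
  · simp only [SLC.E, SLC.Root.neg_val, Z1_eps]
    have h : -γ.1 = α.1 + β.1 ↔ γ.1 = -α.1 + -β.1 := by
      rw [neg_eq_iff_eq_neg, neg_add]
    simp only [h]

private theorem Z1_om_F (α : C.Root) : Z1_om C * C.F α = C.F (-α) * Z1_om C := by
  ext a b
  rw [Z1_om_mul, Z1_mul_om]
  rcases a with i | γ <;> rcases b with j | β
  · simp [SLC.F]
  · simp [SLC.F]
  · simp [SLC.F]
  · simp only [SLC.F, SLC.Root.neg_val, neg_neg]
    have h : -γ.1 = α.1 ↔ γ.1 = -α.1 := neg_eq_iff_eq_neg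
    have h' : -β.1 = α.1 ↔ β.1 = -α.1 := neg_eq_iff_eq_neg
    simp only [h, h']

private def Z1_O (C : SLC n) (F : Type*) [Field F] : Matrix C.Idx C.Idx F :=
  (Z1_om C).map (Int.castRingHom F)

private theorem Z1_O_sq : Z1_O C F * Z1_O C F = 1 := by
  unfold Z1_O
  rw [← Matrix.map_mul, Z1_om_sq, Matrix.map_one _ (map_zero _) (map_one _)]

private theorem Z1_O_X (α : C.Root) (t : F) :
    Z1_O C F * C.X F α t = C.X F (-α) t * Z1_O C F := by
  have h1 : Z1_O C F * (C.E α).map (Int.cast : ℤ → F) =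
      (C.E (-α)).map (Int.cast : ℤ → F) * Z1_O C F := by
    have := congrArg (fun M : Matrix C.Idx C.Idx ℤ => M.map (Int.castRingHom F)) (Z1_om_E α)
    simp only [Matrix.map_mul] at this
    exact this
  have h2 : Z1_O C F * (C.F α).map (Int.cast : ℤ → F) =
      (C.F (-α)).map (Int.cast : ℤ → F) * Z1_O C F := by
    have := congrArg (fun M : Matrix C.Idx C.Idx ℤ => M.map (Int.castRingHom F)) (Z1_om_F α)
    simp only [Matrix.map_mul] at this
    exact this
  unfold SLC.X
  simp only [add_mul, mul_add, one_mul, mul_one, smul_mul_assoc, mul_smul_comm, h1, h2]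

private noncomputable def Z1_g (C : SLC n) (F : Type*) [Field F] : GL C.Idx F where
  val := Z1_O C F
  inv := Z1_O C F
  val_inv := Z1_O_sq
  inv_val := Z1_O_sq

private theorem Z1_g_xg (α : C.Root) (t : F) :
    Z1_g C F * C.xg F α t = C.xg F (-α) t * Z1_g C F := by
  apply Units.ext
  exact Z1_O_X α t

end

private theorem Z1_env_neg {n : ℕ} {C : SLC n} (D : Dg C) (hN : D.NA) (k : Type*) [Field k]
    [Infinite k] : ∃ p : GL C.Idx k →* GL C.Idx k,
      Env D (RingEquiv.refl k) (C.adS k).neg (D.sgl (RingEquiv.refl k)) p := by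
  have he := env_ad D hN k
  refine ⟨(MulAut.conj (Z1_g C k)).toMonoidHom, ?_⟩
  refine ⟨he.inf, he.sig.neg, fun β t => ?_, he.hθ, he.hA, he.hB, he.hC⟩
  change Z1_g C k * (C.adS k).neg.x β t * (Z1_g C k)⁻¹ = _
  rw [StSys.neg_x]
  have h1 := Z1_g_xg (F := k) (-β) t
  rw [C.neg_neg_root] at h1
  rw [mul_inv_eq_iff_eq_mul, ← h1]
  rfl

private theorem Z1_npos {n : ℕ} {C : SLC n} (β : C.Root) (h : ¬ C.Pos β) : C.Pos (-β) := by
  have := C.ht_ne_zero β
  unfold SLC.Pos at h ⊢
  rw [SLC.Root.neg_val, ht_neg]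
  omega

private theorem Z1_fixX_iff {n : ℕ} {C : SLC n} (D : Dg C) (hN : D.NA) (k : Type*) [Field k]
    [Infinite k] (β : C.Root) (x : GL C.Idx k) :
    x ∈ fixX D (C.adS k) (D.sgl (RingEquiv.refl k)) β ↔
      ∃ t, x = yb D (C.adS k) (D.sgl (RingEquiv.refl k)) β t := by
  constructor
  · intro hx
    by_cases h : C.Pos β
    · exact Z1_fixX (env_ad D hN k) hN β h x hx
    · obtain ⟨p, he'⟩ := Z1_env_neg D hN k
      obtain ⟨t, ht⟩ := Z1_fixX he' hN (-β) (Z1_npos β h) x (by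
        rw [Z1_fixX_neg, C.neg_neg_root]
        exact hx)
      refine ⟨t, ?_⟩
      rw [ht, Z1_yb_neg, C.neg_neg_root]
  · rintro ⟨t, rfl⟩
    exact Z1_yb_fixX (env_ad D hN k) hN β t

private theorem Z1_xi0 {n : ℕ} {C : SLC n} {k : Type*} [Field k] (i : Fin n)
    (L : List (GL C.Idx k)) (h : ∀ g ∈ L, g ∈ (C.adS k).U 1 ∧ C.xi i (g : Matrix C.Idx C.Idx k) = 0) :
    L.prod ∈ (C.adS k).U 1 ∧ C.xi i (L.prod : Matrix C.Idx C.Idx k) = 0 := by
  induction L with
  | nil =>
    refine ⟨one_mem _, ?_⟩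
    exact C.xi_one i
  | cons g L ih =>
    have h1 := h g (List.mem_cons_self)
    have h2 := ih (fun g' hg' => h g' (List.mem_cons_of_mem _ hg'))
    rw [List.prod_cons]
    refine ⟨mul_mem h1.1 h2.1, ?_⟩
    rw [C.xi_mul i _ _ h1.1 h2.1, h1.2, h2.2, add_zero]

private theorem Z1_prod_mul {G : Type*} [Group G] (a b : ℕ → G) (k : ℕ)
    (h : ∀ l l', l < k → l' < k → l ≠ l' → Commute (a l) (b l')) :
    ((List.range k).map fun l => a l * b l).prod =
      ((List.range k).map a).prod * ((List.range k).map b).prod := by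
  induction k with
  | zero => simp
  | succ k ih =>
    have ih' := ih (fun l l' hl hl' hne => h l l' (by omega) (by omega) hne)
    simp only [List.range_succ, List.map_append, List.map_cons, List.map_nil, List.prod_append,
      List.prod_cons, List.prod_nil, mul_one] at ih' ⊢
    rw [ih']
    have hc : Commute (a k) ((List.range k).map b).prod := by
      apply Commute.list_prod_right
      intro y hy
      rw [List.mem_map] at hy
      obtain ⟨l, hl, rfl⟩ := hy
      rw [List.mem_range] at hl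
      exact h k l (by omega) (by omega) (by omega)
    calc ((List.range k).map a).prod * ((List.range k).map b).prod * (a k * b k)
        = ((List.range k).map a).prod * (((List.range k).map b).prod * a k) * b k := by
          simp only [mul_assoc]
      _ = ((List.range k).map a).prod * (a k * ((List.range k).map b).prod) * b k := by
          rw [hc.eq]
      _ = _ := by simp only [mul_assoc]

private theorem Z1_ip_lt {n : ℕ} {C : SLC n} {D : Dg C} (β : C.Root) (hβ : D.r β ≠ β)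
    (ho : C.ip β.1 (D.r β).1 = 0) (l d : ℕ)
    (hd : 0 < d) (hl : l + d < D.m) : C.ip (D.r^[l] β).1 (D.r^[l + d] β).1 = 0 := by
  induction l with
  | zero =>
    rw [Nat.zero_add] at hl ⊢
    rw [Function.iterate_zero, id, D.ip_orb β hβ d hd hl, ho]
  | succ l ih =>
    have : l + 1 + d = (l + d) + 1 := by omega
    rw [this, Function.iterate_succ', Function.iterate_succ', Function.comp, Function.comp, D.r_ip]
    exact ih (by omega)

private theorem Z1_ip_ne {n : ℕ} {C : SLC n} {D : Dg C} (β : C.Root) (hβ : D.r β ≠ β)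
    (ho : C.ip β.1 (D.r β).1 = 0) (l l' : ℕ)
    (hl : l < D.m) (hl' : l' < D.m) (hne : l ≠ l') :
    C.ip (D.r^[l] β).1 (D.r^[l'] β).1 = 0 := by
  rcases lt_or_gt_of_ne hne with h | h
  · obtain ⟨d, rfl⟩ := Nat.exists_eq_add_of_lt h
    exact Z1_ip_lt β hβ ho l (d + 1) (by omega) hl'
  · obtain ⟨d, rfl⟩ := Nat.exists_eq_add_of_lt h
    rw [C.ip_comm]
    exact Z1_ip_lt β hβ ho l' (d + 1) (by omega) hl

private theorem Z1_comm' {n : ℕ} {C : SLC n} {D : Dg C} {k : Type*} [Field k] {H : Type*}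
    [Group H] {S : StSys C k H} {s : H →* H}
    (hs : IsSig D (RingEquiv.refl k) S s) (β : C.Root) (hβ : D.r β ≠ β)
    (ho : C.ip β.1 (D.r β).1 = 0) (γ δ : C.Root) (hγ : γ = β ∨ γ = -β) (hδ : δ = β ∨ δ = -β)
    (t u : k) (l l' : ℕ) (hl : l < D.m) (hl' : l' < D.m) (hne : l ≠ l') :
    Commute (s^[l] (S.x γ t)) (s^[l'] (S.x δ u)) := by
  rw [hs.iter, hs.iter]
  apply S.comm
  apply le_of_eq
  have h0 := Z1_ip_ne β hβ ho l l' hl hl' hne
  symm
  rcases hγ with rfl | rfl <;> rcases hδ with rfl | rfl <;>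
    simp only [Z1_iter_neg, SLC.Root.neg_val, C.ip_neg_left, C.ip_neg_right, h0, neg_zero]

private theorem Z1_nn {n : ℕ} {C : SLC n} {D : Dg C} {k : Type*} [Field k] {H : Type*}
    [Group H] {S : StSys C k H} {s : H →* H} (hN : D.NA)
    (hs : IsSig D (RingEquiv.refl k) S s) (β : C.Root) (u : k) :
    yb D S s β u * yb D S s (-β) u⁻¹ * yb D S s β u =
      ((List.range (mo D β)).map fun l => s^[l] (nn S.x β u)).prod := by
  unfold yb
  rw [Z1_mo_neg]
  by_cases hβ : D.r β = β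
  · have h1 : mo D β = 1 := by
      unfold mo
      rw [if_pos hβ]
    rw [h1]
    simp [nn]
  · have h1 : mo D β = D.m := by
      unfold mo
      rw [if_neg hβ]
    have ho := D.ip_r_NA hN β hβ
    rw [h1, ← Z1_prod_mul, ← Z1_prod_mul]
    · congr 1
      apply List.map_congr_left
      intro l _
      unfold nn
      rw [iterate_map_mul, iterate_map_mul]
    · intro l l' hl hl' hne
      exact Commute.mul_left
        (Z1_comm' hs β hβ ho β β (Or.inl rfl) (Or.inl rfl) _ _ l l' hl hl' hne)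
        (Z1_comm' hs β hβ ho (-β) β (Or.inr rfl) (Or.inl rfl) _ _ l l' hl hl' hne)
    · intro l l' hl hl' hne
      exact Z1_comm' hs β hβ ho β (-β) (Or.inl rfl) (Or.inr rfl) _ _ l l' hl hl' hne

private theorem Z1_iter_nn {n : ℕ} {C : SLC n} {D : Dg C} {k : Type*} [Field k] {H : Type*}
    [Group H] {S : StSys C k H} {s : H →* H}
    (h : IsSig D (RingEquiv.refl k) S s) (i : Fin n) (l : ℕ) :
    s^[l] (nn S.x (C.simple i) 1) = nn S.x (C.simple ((D.ρ ^ l) i)) 1 := by
  induction l with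
  | zero => rfl
  | succ l ih =>
    rw [Function.iterate_succ_apply', ih, h.map_nn, D.r_simple, D.sg_simple, map_one, Int.cast_one,
      mul_one, pow_succ', Equiv.Perm.mul_apply]

private theorem Z1_nJ {n : ℕ} {C : SLC n} {D : Dg C} {k : Type*} [Field k] {H : Type*}
    [Group H] {S : StSys C k H} {s : H →* H} (hN : D.NA)
    (hs : IsSig D (RingEquiv.refl k) S s) (i : Fin n) :
    yb D S s (C.simple i) 1 * yb D S s (-(C.simple i)) 1 * yb D S s (C.simple i) 1 =
      S.nword (D.wl i) := by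
  have h0 := Z1_nn hN hs (C.simple i) 1
  rw [inv_one] at h0
  rw [h0]
  have h1 : C.A i (D.ρ i) ≠ -1 := hN i
  unfold StSys.nword Dg.wl mo
  rw [if_neg h1]
  by_cases h2 : D.ρ i = i
  · rw [if_pos h2, if_pos (by rw [D.r_simple, h2])]
    simp
  · rw [if_neg h2, if_neg (by
      rw [D.r_simple]
      exact fun hc => h2 (C.simple_injective hc)), List.map_map]
    congr 1
    apply List.map_congr_left
    intro l _
    exact Z1_iter_nn hs i l

private theorem Z1_cs {n : ℕ} {C : SLC n} (α β : C.Root) : C.cs α β = 1 ∨ C.cs α β = -1 := by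
  unfold SLC.cs
  split_ifs
  · exact C.eps_eq_one_or _ _
  · exact Or.inl rfl

private theorem Z1_nword {n : ℕ} {C : SLC n} {k : Type*} [Field k] {H : Type*}
    [Group H] (S : StSys C k H) (l : List (Fin n)) (β : C.Root) :
    ∃ e : ℤ, (e = 1 ∨ e = -1) ∧ ∀ t : k,
      S.nword l * S.x β t * (S.nword l)⁻¹ = S.x (C.wd l β) ((e : k) * t) := by
  induction l with
  | nil =>
    refine ⟨1, Or.inl rfl, fun t => ?_⟩
    have h1 : S.nword [] = 1 := by simp [StSys.nword]
    have h2 : C.wd [] = 1 := by simp [SLC.wd]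
    rw [h1, h2, Int.cast_one, one_mul, one_mul, inv_one, mul_one]
    rfl
  | cons j l ih =>
    obtain ⟨e, he, h1⟩ := ih
    have h2 : S.nword (j :: l) = nn S.x (C.simple j) 1 * S.nword l := by
      simp [StSys.nword]
    have h3 : C.wd (j :: l) = C.reflE (C.simple j) * C.wd l := by
      simp [SLC.wd]
    refine ⟨C.cs (C.simple j) (C.wd l β) * e, ?_, fun t => ?_⟩
    · rcases Z1_cs (C.simple j) (C.wd l β) with h4 | h4 <;> rcases he with h5 | h5 <;>
        rw [h4, h5] <;> norm_num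
    · have h4 : S.nword (j :: l) * S.x β t * (S.nword (j :: l))⁻¹ =
          nn S.x (C.simple j) 1 * (S.nword l * S.x β t * (S.nword l)⁻¹) *
            (nn S.x (C.simple j) 1)⁻¹ := by
        rw [h2]
        group
      rw [h4, h1, S.n_conj_all _ _ _ _ one_ne_zero, h3, _root_.one_zpow, mul_one, Int.cast_mul, mul_assoc]
      rfl


variable {n : ℕ} {C : SLC n} {D : Dg C} (hN : D.NA) {k : Type*} [Field k] [Infinite k]

include hN in
theorem mem_GF_fix (x : GL C.Idx k) (hx : x ∈ GF D k) :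
    D.sgl (RingEquiv.refl k) x = x ∧ x ∈ C.Gad k := by
  refine ⟨Eg_le_fix _ _ x hx, ?_⟩
  rw [← C.gen_adS k]
  exact Eg_le_gen _ _ hx

theorem yg_add (β : C.Root) (s t : k) : yg hN β (s + t) = yg hN β s * yg hN β t := by
  apply Subtype.ext
  exact yb_add (env_ad D hN k) hN β s t

theorem yg_zero (β : C.Root) : yg hN β (0 : k) = 1 := by
  apply Subtype.ext
  exact Z1_yb_zero β

theorem yg_neg (β : C.Root) (t : k) : yg hN β (-t) = (yg hN β t)⁻¹ := by
  apply eq_inv_of_mul_eq_one_left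
  rw [← yg_add, neg_add_cancel, yg_zero]

theorem yg_r (β : C.Root) (t : k) : yg hN (D.r β) ((D.sg β : k) * t) = yg hN β t := by
  apply Subtype.ext
  exact Z1_yb_r (env_ad D hN k).sig hN β t

/-- the root elements of the roots of one orbit are the same up to a sign -/
theorem yg_cycle (β γ : C.Root) (h : D.rE.SameCycle β γ) :
    ∃ e : ℤ, (e = 1 ∨ e = -1) ∧ ∀ t : k, yg hN γ ((e : k) * t) = yg hN β t := by
  obtain ⟨l, -, rfl⟩ := (D.sameCycle_iff _ _).mp h
  clear h
  induction l with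
  | zero =>
    refine ⟨1, Or.inl rfl, fun t => ?_⟩
    rw [Int.cast_one, one_mul]
    rfl
  | succ l ih =>
    obtain ⟨e, he, h1⟩ := ih
    refine ⟨D.sg (D.r^[l] β) * e, ?_, fun t => ?_⟩
    · rcases D.sg_eq (D.r^[l] β) with h2 | h2 <;> rcases he with h3 | h3 <;> rw [h2, h3] <;>
        norm_num
    · rw [Function.iterate_succ_apply', Int.cast_mul, mul_assoc, yg_r]
      exact h1 t

/-- without a sign for simple roots -/
theorem yg_cycle_simple (i j : Fin n) (h : D.ρ.SameCycle i j) (t : k) :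
    yg hN (C.simple i) t = yg hN (C.simple j) t ∧
      yg hN (-(C.simple i)) t = yg hN (-(C.simple j)) t := by
  obtain ⟨l, -, h1⟩ := (D.sameCycle_iff _ _).mp ((D.sameCycle_simple i j).mpr h)
  rw [h1]
  clear h1 h
  induction l with
  | zero => exact ⟨rfl, rfl⟩
  | succ l ih =>
    have h1 : D.sg (D.r^[l] (C.simple i)) = 1 := by
      rw [D.r_iter_simple]
      exact D.sg_simple _
    have h2 := yg_r hN (D.r^[l] (C.simple i)) t
    have h3 := yg_r hN (-(D.r^[l] (C.simple i))) t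
    rw [D.sg_neg, h1, Int.cast_one, one_mul, D.r_neg] at h3
    rw [h1, Int.cast_one, one_mul] at h2
    rw [Function.iterate_succ_apply', h2, h3]
    exact ih

theorem yg_long (β : C.Root) (h : D.r β = β) (t : k) :
    ((yg hN β t : GF D k) : GL C.Idx k) = C.xg k β t := by
  rw [yg_val]
  unfold yb mo
  rw [if_pos h]
  simp

theorem yg_pos (β : C.Root) (h : C.Pos β) (t : k) : yg hN β t ∈ FU D k := by
  rw [FU, Subgroup.mem_subgroupOf]
  exact yb_fixU (env_ad D hN k) hN β h t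

theorem yg_npos (β : C.Root) (h : ¬ C.Pos β) (t : k) : yg hN β t ∈ FUm D k := by
  rw [FUm, Subgroup.mem_subgroupOf, yg_val]
  obtain ⟨p, he⟩ := Z1_env_neg D hN k
  have h1 : C.Pos (-β) := by
    have := C.ht_ne_zero β
    unfold SLC.Pos at h ⊢
    rw [SLC.Root.neg_val, ht_neg]
    omega
  have h2 := yb_fixU he hN (-β) h1 t
  rwa [Z1_yb_neg, C.neg_neg_root, Z1_fixU_neg] at h2

theorem yg_inj (β γ : C.Root) (t u : k) (ht : t ≠ 0) (h : yg hN β t = yg hN γ u) :
    D.rE.SameCycle β γ ∧ (β = γ → t = u) := by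
  have h0 : yb D (C.adS k) (D.sgl (RingEquiv.refl k)) β t =
      yb D (C.adS k) (D.sgl (RingEquiv.refl k)) γ u := congrArg Subtype.val h
  have hneg : ∀ δ : C.Root, ¬ C.Pos δ → C.Pos (-δ) := fun δ hδ => by
    have := C.ht_ne_zero δ
    unfold SLC.Pos at hδ ⊢
    rw [SLC.Root.neg_val, ht_neg]
    omega
  have he := env_ad D hN k
  obtain ⟨p, he'⟩ := Z1_env_neg D hN k
  by_cases h1 : C.Pos β <;> by_cases h2 : C.Pos γ
  · exact Z1_inj he hN β γ h1 h2 t u ht h0
  · exfalso
    have h3 : yb D (C.adS k) (D.sgl (RingEquiv.refl k)) β t = 1 := by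
      apply U_inf_Um
      · exact (yb_fixU he hN β h1 t).1
      · rw [h0]
        have h4 := yg_npos hN γ h2 u
        rw [FUm, Subgroup.mem_subgroupOf, yg_val] at h4
        exact h4.1
    exact ht (yb_one he hN β h1 t h3)
  · exfalso
    have h3 : yb D (C.adS k) (D.sgl (RingEquiv.refl k)) β t = 1 := by
      apply U_inf_Um
      · rw [h0]
        exact (yb_fixU he hN γ h2 u).1
      · have h4 := yg_npos hN β h1 t
        rw [FUm, Subgroup.mem_subgroupOf, yg_val] at h4
        exact h4.1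
    refine ht (yb_one he' hN (-β) (hneg β h1) t ?_)
    rw [Z1_yb_neg, C.neg_neg_root]
    exact h3
  · have h3 := Z1_inj he' hN (-β) (-γ) (hneg β h1) (hneg γ h2) t u ht (by
      rw [Z1_yb_neg, Z1_yb_neg, C.neg_neg_root, C.neg_neg_root]
      exact h0)
    exact ⟨Z1_sc_neg β γ h3.1, fun h4 => h3.2 (congrArg Neg.neg h4)⟩

theorem yg_T (h : GF D k) (hh : h ∈ FT D k) (β : C.Root) (t : k) :
    h * yg hN β t * h⁻¹ =
      yg hN β (C.chi ((h : GL C.Idx k) : Matrix C.Idx C.Idx k) β * t) := by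
  apply Subtype.ext
  rw [FT, Subgroup.mem_subgroupOf] at hh
  exact yb_T (env_ad D hN k) hN β (h : GL C.Idx k) ⟨hh, h.2⟩ t

/-- an element of the folded group acting on the root elements of the ambient group -/
theorem yg_acts (g : GF D k) (w : Equiv.Perm C.Root) (hg : (C.adS k).Acts (g : GL C.Idx k) w)
    (hw : D.rE * w * D.rE⁻¹ = w) : ∃ c : C.Root → k, (∀ β, c β ≠ 0) ∧
      ∀ β t, g * yg hN β t * g⁻¹ = yg hN (w β) (c β * t) := by
  obtain ⟨c, hc, h1⟩ := hg
  refine ⟨c, hc, fun β t => ?_⟩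
  apply Subtype.ext
  exact Z1_conj_yb (g : GL C.Idx k) (mem_GF_fix hN _ g.2).1 w hw β (c β) t (h1 β t)

theorem FU_eq : FU D k = Subgroup.closure {g | ∃ β : C.Root, C.Pos β ∧ ∃ t : k, g = yg hN β t} := by
  have he := env_ad D hN k
  have h1 : (Subgroup.closure {g : GF D k | ∃ β : C.Root, C.Pos β ∧ ∃ t : k, g = yg hN β t}).map
      (GF D k).subtype = fixU (C.adS k) (D.sgl (RingEquiv.refl k)) := by
    rw [MonoidHom.map_closure, fixU_eq adS_inj he.sig he.hθ he.hB]
    congr 1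
    ext g
    constructor
    · rintro ⟨_, ⟨β, hβ, t, rfl⟩, rfl⟩
      exact ⟨β, hβ, (Z1_fixX_iff D hN k β _).2 ⟨t, rfl⟩⟩
    · rintro ⟨β, hβ, hg⟩
      obtain ⟨t, rfl⟩ := (Z1_fixX_iff D hN k β _).1 hg
      exact ⟨yg hN β t, ⟨β, hβ, t, rfl⟩, rfl⟩
  unfold FU
  rw [← h1]
  exact Subgroup.comap_map_eq_self_of_injective (Subgroup.subtype_injective _) _

theorem FUm_eq :
    FUm D k = Subgroup.closure {g | ∃ β : C.Root, ¬ C.Pos β ∧ ∃ t : k, g = yg hN β t} := by
  have he := env_ad D hN k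
  have h1 : (Subgroup.closure {g : GF D k | ∃ β : C.Root, ¬ C.Pos β ∧ ∃ t : k, g = yg hN β t}).map
      (GF D k).subtype = fixUm (C.adS k) (D.sgl (RingEquiv.refl k)) := by
    rw [MonoidHom.map_closure, fixUm_eq adS_neg_inj he.sig he.hθ he.hB]
    congr 1
    ext g
    constructor
    · rintro ⟨_, ⟨β, hβ, t, rfl⟩, rfl⟩
      exact ⟨β, hβ, (Z1_fixX_iff D hN k β _).2 ⟨t, rfl⟩⟩
    · rintro ⟨β, hβ, hg⟩
      obtain ⟨t, rfl⟩ := (Z1_fixX_iff D hN k β _).1 hg
      exact ⟨yg hN β t, ⟨β, hβ, t, rfl⟩, rfl⟩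
  unfold FUm
  rw [← h1]
  exact Subgroup.comap_map_eq_self_of_injective (Subgroup.subtype_injective _) _

theorem xi_yg (i : Fin n) (β : C.Root) (hβ : C.Pos β) (t : k) :
    ((∃ j, β = C.simple j ∧ D.ρ.SameCycle j i) →
      C.xi i (((yg hN β t : GF D k) : GL C.Idx k) : Matrix C.Idx C.Idx k) = t) ∧
    ((¬ ∃ j, β = C.simple j ∧ D.ρ.SameCycle j i) →
      C.xi i (((yg hN β t : GF D k) : GL C.Idx k) : Matrix C.Idx C.Idx k) = 0) := by
  have hs : IsSig D (RingEquiv.refl k) (C.adS k) (D.sgl (RingEquiv.refl k)) :=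
    (env_ad D hN k).sig
  have hU : ∀ l (c : k), (C.adS k).x (D.r^[l] β) c ∈ (C.adS k).U 1 := by
    intro l c
    refine Subgroup.subset_closure ⟨_, _, ?_, rfl⟩
    rw [Z1_ht]
    unfold SLC.Pos at hβ
    omega
  have hP : ∀ l, C.Pos (D.r^[l] β) := by
    intro l
    unfold SLC.Pos at hβ ⊢
    rw [Z1_ht]
    exact hβ
  constructor
  · rintro ⟨j, rfl, hj⟩
    rw [(yg_cycle_simple hN j i hj t).1, yg_val, Z1_form hs]
    obtain ⟨m', hm'⟩ : ∃ m', mo D (C.simple i) = m' + 1 :=
      ⟨mo D (C.simple i) - 1, by have := Z1_mo_pos (D := D) (C.simple i); omega⟩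
    rw [hm', List.range_succ_eq_map, List.map_cons, List.prod_cons, List.map_map]
    have hPi : ∀ l, C.Pos (D.r^[l] (C.simple i)) := by
      intro l
      have := C.simple_pos i
      unfold SLC.Pos at this ⊢
      rw [Z1_ht]
      exact this
    have hUi : ∀ l (c : k), (C.adS k).x (D.r^[l] (C.simple i)) c ∈ (C.adS k).U 1 := by
      intro l c
      refine Subgroup.subset_closure ⟨_, _, ?_, rfl⟩
      have := hPi l
      unfold SLC.Pos at this
      omega
    have h1 := Z1_xi0 (k := k) i ((List.range m').map ((fun l => (C.adS k).x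
      (D.r^[l] (C.simple i)) ((D.sgp l (C.simple i) : k) * t)) ∘ Nat.succ)) (by
      intro g hg
      obtain ⟨l, hl, rfl⟩ := List.mem_map.mp hg
      rw [List.mem_range] at hl
      refine ⟨hUi _ _, ?_⟩
      have h2 := C.xi_xg i (D.r^[l + 1] (C.simple i)) (hPi (l + 1))
        ((D.sgp (l + 1) (C.simple i) : k) * t)
      refine h2.trans (if_neg ?_)
      intro h3
      unfold mo at hm'
      by_cases h4 : D.r (C.simple i) = C.simple i
      · rw [if_pos h4] at hm'
        omega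
      · rw [if_neg h4] at hm'
        have h5 := D.r_iter_eq (C.simple i) h4 (l + 1) 0 (by omega) (by omega) h3
        omega)
    rw [C.xi_mul i _ _ (hUi 0 _) h1.1, h1.2, add_zero]
    have h2 := C.xi_xg i (C.simple i) (C.simple_pos i) ((D.sgp 0 (C.simple i) : k) * t)
    rw [if_pos rfl] at h2
    have h3 : D.sgp 0 (C.simple i) = 1 := by
      unfold Dg.sgp
      simp
    refine h2.trans ?_
    rw [h3, Int.cast_one, one_mul]
  · intro hne
    rw [yg_val, Z1_form hs]
    refine (Z1_xi0 (k := k) i _ ?_).2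
    intro g hg
    obtain ⟨l, hl, rfl⟩ := List.mem_map.mp hg
    refine ⟨hU _ _, ?_⟩
    have h2 := C.xi_xg i (D.r^[l] β) (hP l) ((D.sgp l β : k) * t)
    refine h2.trans (if_neg ?_)
    intro h3
    apply hne
    have h4 : D.rE.SameCycle (C.simple i) β := by
      refine Equiv.Perm.SameCycle.symm ⟨l, ?_⟩
      rw [zpow_natCast, ← h3]
      clear h3 h2 hg hl
      induction l with
      | zero => rfl
      | succ l ih =>
        rw [pow_succ', Equiv.Perm.mul_apply, ih, Function.iterate_succ_apply']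
        rfl
    obtain ⟨l', -, h5⟩ := (D.sameCycle_iff _ _).mp h4
    rw [D.r_iter_simple] at h5
    refine ⟨_, h5, ?_⟩
    rw [h5, D.sameCycle_simple] at h4
    exact h4.symm

/-- The standard monomial element belonging to the simple root `j`. -/
noncomputable def nJ (k : Type*) [Field k] (j : Fin n) : GF D k :=
  yg hN (C.simple j) (1 : k) * yg hN (-(C.simple j)) 1 * yg hN (C.simple j) 1

theorem nJ_mem (j : Fin n) : nJ hN k j ∈ FN D k ∧
    (C.adS k).Acts ((nJ hN k j : GF D k) : GL C.Idx k) (C.wd (D.wl j)) := by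
  have h1 : ((nJ hN k j : GF D k) : GL C.Idx k) = (C.adS k).nword (D.wl j) :=
    Z1_nJ hN (env_ad D hN k).sig j
  constructor
  · rw [FN, Subgroup.mem_subgroupOf, h1]
    exact (C.adS k).nword_mem _
  · rw [h1]
    exact (C.adS k).nword_acts _

/-- conjugation with `nJ` changes the parameters by a sign only -/
theorem nJ_conj (j : Fin n) (β : C.Root) : ∃ e : ℤ, (e = 1 ∨ e = -1) ∧
    ∀ t : k, nJ hN k j * yg hN β t * (nJ hN k j)⁻¹ =
      yg hN (C.wd (D.wl j) β) ((e : k) * t) := by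
  have h1 : ((nJ hN k j : GF D k) : GL C.Idx k) = (C.adS k).nword (D.wl j) :=
    Z1_nJ hN (env_ad D hN k).sig j
  obtain ⟨e, he, h2⟩ := Z1_nword (C.adS k) (D.wl j) β
  refine ⟨e, he, fun t => ?_⟩
  apply Subtype.ext
  refine Z1_conj_yb ((nJ hN k j : GF D k) : GL C.Idx k) (mem_GF_fix hN _ (nJ hN k j).2).1 _
    (D.wJ_comm j) β (e : k) t ?_
  rw [h1]
  exact h2 t

theorem nJ_cycle (i j : Fin n) (h : D.ρ.SameCycle i j) : nJ hN k i = nJ hN k j := by
  unfold nJ
  rw [(yg_cycle_simple hN i j h (1 : k)).1, (yg_cycle_simple hN i j h (1 : k)).2]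

/-- elements of the folded group which commute with the simple root elements -/
theorem GF_gen : Subgroup.closure {g : GF D k | ∃ (j : Fin n) (t : k),
    g = yg hN (C.simple j) t ∨ g = yg hN (-(C.simple j)) t} = ⊤ := by
  have he := env_ad D hN k
  have h1 : (Subgroup.closure {g : GF D k | ∃ (j : Fin n) (t : k),
      g = yg hN (C.simple j) t ∨ g = yg hN (-(C.simple j)) t}).map
      (GF D k).subtype = (⊤ : Subgroup (GF D k)).map (GF D k).subtype := by
    rw [← MonoidHom.range_eq_map, Subgroup.range_subtype, MonoidHom.map_closure]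
    have h2 := Eg_gen he
    refine Eq.trans ?_ h2.symm
    congr 1
    ext g
    constructor
    · rintro ⟨_, ⟨j, t, rfl | rfl⟩, rfl⟩
      · exact ⟨j, Or.inl ((Z1_fixX_iff D hN k _ _).2 ⟨t, rfl⟩)⟩
      · exact ⟨j, Or.inr ((Z1_fixX_iff D hN k _ _).2 ⟨t, rfl⟩)⟩
    · rintro ⟨j, hg | hg⟩
      · obtain ⟨t, rfl⟩ := (Z1_fixX_iff D hN k _ _).1 hg
        exact ⟨yg hN _ t, ⟨j, t, Or.inl rfl⟩, rfl⟩
      · obtain ⟨t, rfl⟩ := (Z1_fixX_iff D hN k _ _).1 hg
        exact ⟨yg hN _ t, ⟨j, t, Or.inr rfl⟩, rfl⟩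
  exact Subgroup.map_injective (Subgroup.subtype_injective _) h1

end Pool.Agent.H86.UM
end

section
/- module Pool.Agent.H86.UM.Z4 -/
/-!
# Project UM, Suzuki-Ree groups, module Z4: closed sets of positive roots

`R` closed: `u ∈ UR R` iff `u = lp posList t` with `t` supported on `R`. For the product of such elements: let
`u ∈ U m` be of this form and let `β ∈ R`; use layers (`exists_layer`, `lp_split`, `lp_add_layer` have the technique):
prove by descending induction on `m` that for each `g ∈ UR R ∩ U m` (or: for each `g` in the closure of the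
`x_β t` with `β ∈ R`, `ht β ≥ m`) there is `t` supported on `R`, vanishing in heights `< m`, with
`g = lp posList t`. (All the groups `UR (R ∩ {ht ≥ m})` are closed; `UR (R ∩ {ht ≥ m})` is generated by the
`x_β`, `β ∈ R` of height `m`, and by the normal subgroup `UR (R ∩ {ht ≥ m + 1})`, and commutators of the
former are in the latter (`xg_comm, xg_comm_add`, `R` closed).) `UR_coord`: `lp_unique`.
`UR_fix`: `x ∈ UR R` fixed by `s`: as in UT/D3.lean (`layer`): the coordinates of lowest height `m` satisfy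
`t (r β) = sg β * t β`; so `x` is a product of elements `yb β (t β)`, one for each orbit of roots of height `m` in `R`,
times a fixed element of `UR (R ∩ {ht ≥ m + 1})`; induction on `m`. (FX.lean contains private lemmas
`FX_R_..` on coordinates in one height.)
`UR_normal`: generators. `UR_split`: closure induction with `UR_normal`. `UR_inf`: coordinates.
`FR_split`: `UR_split`, apply `s` and use `UR_inf` (`UR A`, `UR B` are `s`-stable), `UR_fix`.
-/

set_option autoImplicit false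
open Matrix

namespace Pool.Agent.H86.UM

open Pool.Agent.H75.UL

variable {n : ℕ} {C : SLC n} {D : Dg C}

/-- `R` is a closed set of positive roots. -/
def ClR (C : SLC n) (R : Set C.Root) : Prop := (∀ β ∈ R, C.Pos β) ∧
  ∀ α ∈ R, ∀ β ∈ R, ∀ γ : C.Root, γ.1 = α.1 + β.1 → γ ∈ R

/-- The group generated by the root elements for the roots in `R`. -/
noncomputable def UR (C : SLC n) (k : Type*) [Field k] (R : Set C.Root) : Subgroup (GL C.Idx k) :=
  Subgroup.closure {g | ∃ β ∈ R, ∃ t : k, g = C.xg k β t}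

variable {k : Type*} [Field k] [Infinite k]

theorem UR_mono {R R' : Set C.Root} (h : R ⊆ R') : UR C k R ≤ UR C k R' :=
  Subgroup.closure_mono fun _ ⟨β, hβ, t, ht⟩ => ⟨β, h hβ, t, ht⟩

theorem UR_le_U {R : Set C.Root} (hR : ∀ β ∈ R, C.Pos β) : UR C k R ≤ (C.adS k).U 1 := by
  unfold UR StSys.U
  apply Subgroup.closure_mono
  rintro g ⟨β, hβ, t, rfl⟩
  refine ⟨β, t, ?_, rfl⟩
  have := hR β hβ
  unfold SLC.Pos at this
  omega

private theorem Z4_mem {R : Set C.Root} (β : C.Root) (hβ : β ∈ R) (t : k) :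
    (C.adS k).x β t ∈ UR C k R := Subgroup.subset_closure ⟨β, hβ, t, rfl⟩

private theorem Z4_conj_gen {R B : Set C.Root} (hB : B ⊆ R) (hR : ∀ β ∈ R, C.Pos β)
    (hI : ∀ α ∈ R, ∀ β ∈ B, ∀ γ : C.Root, γ.1 = α.1 + β.1 → γ ∈ B) (γ : C.Root) (s : k)
    (hγ : γ ∈ R) (u : GL C.Idx k) (hu : u ∈ UR C k B) :
    (C.adS k).x γ s * u * ((C.adS k).x γ s)⁻¹ ∈ UR C k B := by
  unfold UR at hu
  induction hu using Subgroup.closure_induction with
  | mem u hu =>
    obtain ⟨β, hβ, t, rfl⟩ := hu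
    change (C.adS k).x γ s * (C.adS k).x β t * ((C.adS k).x γ s)⁻¹ ∈ UR C k B
    rcases C.ip_cases γ β with h | h | h
    · exfalso
      rw [C.ip_eq_neg_two_iff] at h
      have h1 := hR γ hγ
      have h2 := hR β (hB hβ)
      unfold SLC.Pos at h1 h2
      rw [h, SLC.Root.neg_val, ht_neg] at h2
      omega
    · obtain ⟨δ, hδ⟩ := C.exists_add γ β h
      have h1 := (C.adS k).comm_add γ β δ s t hδ
      have h2 : (C.adS k).x γ s * (C.adS k).x β t * ((C.adS k).x γ s)⁻¹
          = (C.adS k).x δ (C.eps γ.1 β.1 * s * t) * (C.adS k).x β t := by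
        rw [← h1]
        group
      rw [h2]
      exact mul_mem (Z4_mem δ (hI γ hγ β hβ δ hδ) _) (Z4_mem β hβ t)
    · have h0 : 0 ≤ C.ip γ.1 β.1 := by omega
      rw [(C.adS k).comm γ β s t h0, mul_inv_cancel_right]
      exact Z4_mem β hβ t
  | one => simpa using one_mem _
  | mul a b _ _ ha hb =>
    have : (C.adS k).x γ s * (a * b) * ((C.adS k).x γ s)⁻¹
        = ((C.adS k).x γ s * a * ((C.adS k).x γ s)⁻¹) *
          ((C.adS k).x γ s * b * ((C.adS k).x γ s)⁻¹) := by group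
    rw [this]
    exact mul_mem ha hb
  | inv a _ ha =>
    have : (C.adS k).x γ s * a⁻¹ * ((C.adS k).x γ s)⁻¹
        = ((C.adS k).x γ s * a * ((C.adS k).x γ s)⁻¹)⁻¹ := by group
    rw [this]
    exact inv_mem ha

private theorem Z4_normal {R B : Set C.Root} (hB : B ⊆ R) (hR : ∀ β ∈ R, C.Pos β)
    (hI : ∀ α ∈ R, ∀ β ∈ B, ∀ γ : C.Root, γ.1 = α.1 + β.1 → γ ∈ B) (g u : GL C.Idx k)
    (hg : g ∈ UR C k R) (hu : u ∈ UR C k B) : g * u * g⁻¹ ∈ UR C k B := by
  have key : ∀ g ∈ UR C k R, (∀ u ∈ UR C k B, g * u * g⁻¹ ∈ UR C k B) ∧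
      (∀ u ∈ UR C k B, g⁻¹ * u * g⁻¹⁻¹ ∈ UR C k B) := by
    intro g hg
    unfold UR at hg
    induction hg using Subgroup.closure_induction with
    | mem g hg =>
      obtain ⟨γ, hγ, s, rfl⟩ := hg
      refine ⟨fun u hu => Z4_conj_gen hB hR hI γ s hγ u hu, fun u hu => ?_⟩
      have h1 : (C.xg k γ s)⁻¹ = (C.adS k).x γ (-s) := ((C.adS k).x_neg γ s).symm
      rw [h1]
      exact Z4_conj_gen hB hR hI γ (-s) hγ u hu
    | one => exact ⟨fun u hu => by simpa using hu, fun u hu => by simpa using hu⟩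
    | mul a b _ _ ha hb =>
      refine ⟨fun u hu => ?_, fun u hu => ?_⟩
      · have : a * b * u * (a * b)⁻¹ = a * (b * u * b⁻¹) * a⁻¹ := by group
        rw [this]
        exact ha.1 _ (hb.1 u hu)
      · have : (a * b)⁻¹ * u * (a * b)⁻¹⁻¹ = b⁻¹ * (a⁻¹ * u * a⁻¹⁻¹) * b⁻¹⁻¹ := by group
        rw [this]
        exact hb.2 _ (ha.2 u hu)
    | inv a _ ha =>
      refine ⟨ha.2, fun u hu => ?_⟩
      rw [inv_inv]
      exact ha.1 u hu
  exact (key g hg).1 u hu

/-- the roots of height at least `m` in `R` -/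
private def ZR (R : Set C.Root) (m : ℤ) : Set C.Root := {β | β ∈ R ∧ m ≤ ht β.1}

private theorem ZR_sub (R : Set C.Root) (m : ℤ) : ZR R m ⊆ R := fun _ h => h.1

private theorem ZR_mono (R : Set C.Root) {m m' : ℤ} (h : m ≤ m') : ZR R m' ⊆ ZR R m :=
  fun _ h1 => ⟨h1.1, h.trans h1.2⟩

private theorem Z4_conj {R : Set C.Root} (hR : ClR C R) (m : ℤ) (g u : GL C.Idx k)
    (hg : g ∈ UR C k R) (hu : u ∈ UR C k (ZR R m)) : g * u * g⁻¹ ∈ UR C k (ZR R m) := by
  refine Z4_normal (ZR_sub R m) hR.1 ?_ g u hg hu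
  intro α hα β hβ γ hγ
  refine ⟨hR.2 α hα β hβ.1 γ hγ, ?_⟩
  have h1 := hR.1 α hα
  have h2 := hβ.2
  unfold SLC.Pos at h1
  rw [hγ, ht_add]
  omega

private theorem Z4_conj' {R : Set C.Root} (hR : ClR C R) (m : ℤ) (g u : GL C.Idx k)
    (hg : g ∈ UR C k R) (hu : u ∈ UR C k (ZR R m)) : g⁻¹ * u * g ∈ UR C k (ZR R m) := by
  have := Z4_conj hR m g⁻¹ u (inv_mem hg) hu
  rwa [inv_inv] at this

private theorem Z4_cons (β : C.Root) (l : List C.Root) (t : C.Root → k) :
    (C.adS k).lp (β :: l) t = (C.adS k).x β (t β) * (C.adS k).lp l t := by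
  unfold StSys.lp
  rw [List.map_cons, List.prod_cons]

private theorem Z4_single (β : C.Root) (s : k) (l : List C.Root) (hl : l.Nodup)
    (hβ : β ∈ l) : (C.adS k).lp l (fun γ => if γ = β then s else 0) = (C.adS k).x β s := by
  induction l with
  | nil => simp at hβ
  | cons γ l ih =>
    rw [Z4_cons]
    rw [List.nodup_cons] at hl
    by_cases h : γ = β
    · subst h
      rw [(C.adS k).lp_zero l, if_pos rfl, mul_one]
      intro δ hδ
      rw [if_neg]
      rintro rfl
      exact hl.1 hδ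
    · rw [if_neg h, (C.adS k).x_zero, one_mul]
      refine ih hl.2 ?_
      rw [List.mem_cons] at hβ
      rcases hβ with rfl | hβ
      · exact absurd rfl h
      · exact hβ

private theorem Z4_lp_mem {R : Set C.Root} (l : List C.Root) (t : C.Root → k)
    (h : ∀ β, β ∉ R → t β = 0) : (C.adS k).lp l t ∈ UR C k R := by
  unfold StSys.lp
  apply Subgroup.list_prod_mem
  intro g hg
  rw [List.mem_map] at hg
  obtain ⟨β, -, rfl⟩ := hg
  by_cases hβ : β ∈ R
  · exact Z4_mem β hβ _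
  · rw [h β hβ, (C.adS k).x_zero]
    exact one_mem _

/-- commutator of a root element with an element of `UR (ZR R m)` -/
private theorem Z4_comm_gen {R : Set C.Root} (hR : ClR C R) (m : ℤ) (hm : 1 ≤ m) (β : C.Root)
    (s : k) (hβ : β ∈ ZR R m) (b : GL C.Idx k) (hb : b ∈ UR C k (ZR R m)) :
    (C.adS k).x β s * b * ((C.adS k).x β s)⁻¹ * b⁻¹ ∈ UR C k (ZR R (m + 1)) := by
  unfold UR at hb
  induction hb using Subgroup.closure_induction with
  | mem b hb =>
    obtain ⟨γ, hγ, t, rfl⟩ := hb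
    change (C.adS k).x β s * (C.adS k).x γ t * ((C.adS k).x β s)⁻¹ * ((C.adS k).x γ t)⁻¹ ∈ _
    rcases C.ip_cases β γ with h | h | h
    · exfalso
      rw [C.ip_eq_neg_two_iff] at h
      have h1 := hβ.2
      have h2 := hγ.2
      rw [h, SLC.Root.neg_val, ht_neg] at h2
      omega
    · obtain ⟨δ, hδ⟩ := C.exists_add β γ h
      rw [(C.adS k).comm_add β γ δ s t hδ]
      have h3 : δ ∈ ZR R (m + 1) := by
        refine ⟨hR.2 β hβ.1 γ hγ.1 δ hδ, ?_⟩
        have h1 := hβ.2
        have h2 := hγ.2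
        rw [hδ, ht_add]
        omega
      exact Z4_mem δ h3 _
    · have h0 : 0 ≤ C.ip β.1 γ.1 := by omega
      rw [(C.adS k).comm β γ s t h0, mul_inv_cancel_right, mul_inv_cancel]
      exact one_mem _
  | one => simpa using one_mem _
  | mul b1 b2 h1 h2 ih1 ih2 =>
    have e : (C.adS k).x β s * (b1 * b2) * ((C.adS k).x β s)⁻¹ * (b1 * b2)⁻¹
        = ((C.adS k).x β s * b1 * ((C.adS k).x β s)⁻¹ * b1⁻¹) *
          (b1 * ((C.adS k).x β s * b2 * ((C.adS k).x β s)⁻¹ * b2⁻¹) * b1⁻¹) := by group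
    rw [e]
    refine mul_mem ih1 (Z4_conj hR (m + 1) b1 _ ?_ ih2)
    exact UR_mono (ZR_sub R m) h1
  | inv b1 h1 ih1 =>
    have e : (C.adS k).x β s * b1⁻¹ * ((C.adS k).x β s)⁻¹ * b1⁻¹⁻¹
        = b1⁻¹ * ((C.adS k).x β s * b1 * ((C.adS k).x β s)⁻¹ * b1⁻¹)⁻¹ * b1 := by group
    rw [e]
    exact Z4_conj' hR (m + 1) b1 _ (UR_mono (ZR_sub R m) h1) (inv_mem ih1)

/-- additivity modulo `UR (ZR R (m + 1))` -/
private theorem Z4_add {R : Set C.Root} (hR : ClR C R) (m : ℤ) (hm : 1 ≤ m) (t t' : C.Root → k)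
    (h : ∀ β, ¬ (β ∈ R ∧ ht β.1 = m) → t β = 0)
    (h' : ∀ β, ¬ (β ∈ R ∧ ht β.1 = m) → t' β = 0) (l : List C.Root) :
    ((C.adS k).lp l t * (C.adS k).lp l t')⁻¹ * (C.adS k).lp l (fun β => t β + t' β) ∈
      UR C k (ZR R (m + 1)) := by
  have hmem : ∀ (l : List C.Root) (s : C.Root → k), (∀ β, ¬ (β ∈ R ∧ ht β.1 = m) → s β = 0) →
      (C.adS k).lp l s ∈ UR C k (ZR R m) := by
    intro l s hs
    refine Z4_lp_mem l s fun β hβ => hs β fun h1 => hβ ⟨h1.1, h1.2.ge⟩
  induction l with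
  | nil => simp [StSys.lp]
  | cons β l ih =>
    rw [Z4_cons, Z4_cons, Z4_cons]
    set A := (C.adS k).lp l t with hA
    set B := (C.adS k).lp l t' with hB
    set E := (C.adS k).lp l (fun β => t β + t' β) with hE
    have hAm' : A ∈ UR C k (ZR R m) := hmem l t h
    have hAm : A ∈ UR C k R := UR_mono (ZR_sub R m) hAm'
    have hBm : B ∈ UR C k R := UR_mono (ZR_sub R m) (hmem l t' h')
    simp only [(C.adS k).map_add]
    by_cases hβ : β ∈ R ∧ ht β.1 = m
    · have hβ' : β ∈ ZR R m := ⟨hβ.1, hβ.2.ge⟩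
      have h1 := Z4_comm_gen hR m hm β (t' β) hβ' A hAm'
      have e : ((C.adS k).x β (t β) * A * ((C.adS k).x β (t' β) * B))⁻¹ *
            ((C.adS k).x β (t β) * (C.adS k).x β (t' β) * E)
          = (B⁻¹ * (((C.adS k).x β (t' β))⁻¹ *
              (A⁻¹ * ((C.adS k).x β (t' β) * A * ((C.adS k).x β (t' β))⁻¹ * A⁻¹) * A)
              * (C.adS k).x β (t' β)) * B) * ((A * B)⁻¹ * E) := by group
      rw [e]
      refine mul_mem ?_ ih
      refine Z4_conj' hR (m + 1) B _ hBm ?_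
      refine Z4_conj' hR (m + 1) _ _ (Z4_mem β hβ.1 _) ?_
      exact Z4_conj' hR (m + 1) A _ hAm h1
    · rw [h β hβ, h' β hβ, (C.adS k).x_zero]
      simpa using ih

/-- `g` has the coordinates `t` in height `m`. -/
private def ZQ (R : Set C.Root) (m : ℤ) (g : GL C.Idx k) (t : C.Root → k) : Prop :=
  (∀ β, ¬ (β ∈ R ∧ ht β.1 = m) → t β = 0) ∧ ∃ u' ∈ UR C k (ZR R (m + 1)),
    g = (C.adS k).lp C.posList t * u'

private theorem ZQ_one (R : Set C.Root) (m : ℤ) (g : GL C.Idx k)
    (hg : g ∈ UR C k (ZR R (m + 1))) : ZQ R m g (fun _ => 0) :=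
  ⟨fun _ _ => rfl, g, hg, by rw [(C.adS k).lp_zero _ _ (fun _ _ => rfl), one_mul]⟩

private theorem ZQ_single {R : Set C.Root} (hR : ClR C R) (m : ℤ) (β : C.Root)
    (hβ : β ∈ R ∧ ht β.1 = m) (a : k) :
    ZQ R m ((C.adS k).x β a) (fun γ => if γ = β then a else 0) := by
  refine ⟨fun γ hγ => if_neg ?_, 1, one_mem _, ?_⟩
  · rintro rfl
    exact hγ hβ
  · rw [Z4_single β a C.posList C.posList_nodup, mul_one]
    rw [C.mem_posList]
    exact hR.1 β hβ.1

private theorem ZQ_lp_mem {R : Set C.Root} (m : ℤ) (t : C.Root → k)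
    (h : ∀ β, ¬ (β ∈ R ∧ ht β.1 = m) → t β = 0) (l : List C.Root) :
    (C.adS k).lp l t ∈ UR C k R :=
  Z4_lp_mem l t fun β hβ => h β fun h1 => hβ h1.1

private theorem ZQ_mul {R : Set C.Root} (hR : ClR C R) (m : ℤ) (hm : 1 ≤ m) {g g' : GL C.Idx k}
    {t t' : C.Root → k} (h : ZQ R m g t) (h' : ZQ R m g' t') :
    ZQ R m (g * g') (fun β => t β + t' β) := by
  obtain ⟨h0, u, hu, rfl⟩ := h
  obtain ⟨h0', u', hu', rfl⟩ := h'
  have h3 := Z4_add hR m hm t t' h0 h0' C.posList
  set A := (C.adS k).lp C.posList t with hA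
  set B := (C.adS k).lp C.posList t' with hB
  set E := (C.adS k).lp C.posList (fun β => t β + t' β) with hE
  refine ⟨fun β hβ => by simp only [h0 β hβ, h0' β hβ, add_zero],
    ((A * B)⁻¹ * E)⁻¹ * ((B⁻¹ * u * B) * u'), ?_, ?_⟩
  · refine mul_mem (inv_mem h3) (mul_mem ?_ hu')
    exact Z4_conj' hR (m + 1) _ _ (ZQ_lp_mem m t' h0' _) hu
  · rw [← hE]
    group

private theorem Z4_exists_layer {R : Set C.Root} (hR : ClR C R) (m : ℤ) (hm : 1 ≤ m)
    (u : GL C.Idx k) (hu : u ∈ UR C k (ZR R m)) : ∃ t : C.Root → k, ZQ R m u t := by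
  have step : ∀ (β : C.Root) (s : k), β ∈ ZR R m → ∀ y : GL C.Idx k,
      (∃ t : C.Root → k, ZQ R m y t) → ∃ t : C.Root → k, ZQ R m ((C.adS k).x β s * y) t := by
    rintro β s hβ y ⟨t, ht0⟩
    by_cases hβm : ht β.1 = m
    · exact ⟨_, ZQ_mul hR m hm (ZQ_single hR m β ⟨hβ.1, hβm⟩ s) ht0⟩
    · have h1 := hβ.2
      have h2 : β ∈ ZR R (m + 1) := ⟨hβ.1, by omega⟩
      exact ⟨_, ZQ_mul hR m hm (ZQ_one R m _ (Z4_mem β h2 s)) ht0⟩
  unfold UR at hu
  induction hu using Subgroup.closure_induction_left with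
  | one => exact ⟨_, ZQ_one R m 1 (one_mem _)⟩
  | mul_left x hx y _ ih =>
    obtain ⟨β, hβ, s, rfl⟩ := hx
    exact step β s hβ y ih
  | inv_mul_cancel x hx y _ ih =>
    obtain ⟨β, hβ, s, rfl⟩ := hx
    have h1 : (C.xg k β s)⁻¹ = (C.adS k).x β (-s) := ((C.adS k).x_neg β s).symm
    rw [h1]
    exact step β (-s) hβ y ih

private theorem Z4_UR_le (R : Set C.Root) (m : ℤ) : UR C k (ZR R m) ≤ (C.adS k).U m := by
  unfold UR StSys.U
  apply Subgroup.closure_mono
  rintro g ⟨β, hβ, t, rfl⟩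
  exact ⟨β, t, hβ.2, rfl⟩

private theorem Z4_ZR_one {R : Set C.Root} (hR : ∀ β ∈ R, C.Pos β) : ZR R 1 = R := by
  ext β
  refine ⟨fun h => h.1, fun h => ⟨h, ?_⟩⟩
  have := hR β h
  unfold SLC.Pos at this
  omega

private theorem Z4_exists_lp {R : Set C.Root} (hR : ClR C R) (m : ℤ) (hm : 1 ≤ m)
    (u : GL C.Idx k) (hu : u ∈ UR C k (ZR R m)) :
    ∃ t : C.Root → k, (∀ β, ¬ (β ∈ R ∧ m ≤ ht β.1) → t β = 0) ∧
      u = (C.adS k).lp C.posList t := by
  obtain ⟨M, hM1, hM2, hM3⟩ := (C.adS k).exists_U_eq_bot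
  have key : ∀ j : ℕ, ∀ m : ℤ, 1 ≤ m → M ≤ m + j → ∀ u ∈ UR C k (ZR R m),
      ∃ t : C.Root → k, (∀ β, ¬ (β ∈ R ∧ m ≤ ht β.1) → t β = 0) ∧
        u = (C.adS k).lp C.posList t := by
    intro j
    induction j with
    | zero =>
      intro m hm hMm u hu
      have h1 : u ∈ (C.adS k).U M := by
        apply Z4_UR_le R M
        exact UR_mono (ZR_mono R (by simpa using hMm)) hu
      rw [hM3, Subgroup.mem_bot] at h1
      refine ⟨fun _ => 0, fun _ _ => rfl, ?_⟩
      rw [h1, (C.adS k).lp_zero _ _ (fun _ _ => rfl)]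
    | succ j ih =>
      intro m hm hMm u hu
      obtain ⟨t, ht0, u', hu', rfl⟩ := Z4_exists_layer hR m hm u hu
      obtain ⟨t', ht', rfl⟩ := ih (m + 1) (by omega) (by push_cast at hMm; omega) u' hu'
      refine ⟨fun β => if ht β.1 ≤ m then t β else t' β, fun β hβ => ?_, ?_⟩
      · by_cases h1 : ht β.1 ≤ m
        · simp only [if_pos h1]
          exact ht0 β fun h2 => hβ ⟨h2.1, h2.2.ge⟩
        · simp only [if_neg h1]
          exact ht' β fun h2 => hβ ⟨h2.1, by omega⟩
      · rw [(C.adS k).lp_split m (fun β => if ht β.1 ≤ m then t β else t' β)]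
        congr 1
        · apply (C.adS k).lp_congr
          intro β _
          by_cases hβ : ht β.1 ≤ m
          · simp only [if_pos hβ]
          · simp only [if_neg hβ]
            exact ht0 β fun h => by omega
        · apply (C.adS k).lp_congr
          intro β _
          by_cases hβ : ht β.1 ≤ m
          · simp only [if_pos hβ]
            exact ht' β fun h => by omega
          · simp only [if_neg hβ]
  exact key (M - m).toNat m hm (by have := Int.self_le_toNat (M - m); omega) u hu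

theorem UR_lp {R : Set C.Root} (hR : ClR C R) (u : GL C.Idx k) (hu : u ∈ UR C k R) :
    ∃ t : C.Root → k, (∀ β, β ∉ R → t β = 0) ∧ u = (C.adS k).lp C.posList t := by
  rw [← Z4_ZR_one hR.1] at hu
  obtain ⟨t, h1, h2⟩ := Z4_exists_lp hR 1 le_rfl u hu
  exact ⟨t, fun β hβ => h1 β fun h3 => hβ h3.1, h2⟩

theorem UR_coord {R : Set C.Root} (hR : ClR C R) (t : C.Root → k)
    (h : (C.adS k).lp C.posList t ∈ UR C k R) (β : C.Root) (hβ : C.Pos β) (hβR : β ∉ R) :
    t β = 0 := by
  obtain ⟨t', h1, h2⟩ := UR_lp hR _ h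
  rw [C.lp_unique t t' h2 β hβ, h1 β hβR]

theorem UR_x {R : Set C.Root} (hR : ClR C R) (β : C.Root) (t : k) (ht : t ≠ 0)
    (h : C.xg k β t ∈ UR C k R) : β ∈ R := by
  by_contra hβ
  by_cases hp : C.Pos β
  · have h1 := Z4_single β t C.posList C.posList_nodup ((C.mem_posList β).2 hp)
    have h2 : (C.adS k).lp C.posList (fun γ => if γ = β then t else 0) ∈ UR C k R := by
      rw [h1]
      exact h
    have h3 := UR_coord hR _ h2 β hp hβ
    rw [if_pos rfl] at h3
    exact ht h3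
  · have h1 : C.xg k β t ∈ (C.adS k).Um := by
      refine Subgroup.subset_closure ⟨β, t, ?_, rfl⟩
      have := C.ht_ne_zero β
      unfold SLC.Pos at hp
      omega
    have h2 := U_inf_Um _ (UR_le_U hR.1 h) h1
    have h3 : C.xg k β t = C.xg k (-β) 0 := by
      rw [h2]
      exact ((C.adS k).x_zero (-β)).symm
    exact ht (C.xg_inj β (-β) t 0 ht h3).2

theorem UR_normal {R B : Set C.Root} (hB : B ⊆ R) (hR : ∀ β ∈ R, C.Pos β)
    (hI : ∀ α ∈ R, ∀ β ∈ B, ∀ γ : C.Root, γ.1 = α.1 + β.1 → γ ∈ B) (g u : GL C.Idx k)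
    (hg : g ∈ UR C k R) (hu : u ∈ UR C k B) : g * u * g⁻¹ ∈ UR C k B :=
  Z4_normal hB hR hI g u hg hu

theorem UR_split {R A B : Set C.Root} (hR : ∀ β ∈ R, C.Pos β) (hAB : R = A ∪ B)
    (hI : ∀ α ∈ R, ∀ β ∈ B, ∀ γ : C.Root, γ.1 = α.1 + β.1 → γ ∈ B) (u : GL C.Idx k)
    (hu : u ∈ UR C k R) : ∃ a ∈ UR C k A, ∃ b ∈ UR C k B, u = a * b := by
  have hAR : A ⊆ R := by
    rw [hAB]
    exact Set.subset_union_left
  have hBR : B ⊆ R := by
    rw [hAB]
    exact Set.subset_union_right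
  have step : ∀ (β : C.Root) (s : k), β ∈ R → ∀ y : GL C.Idx k,
      (∃ a ∈ UR C k A, ∃ b ∈ UR C k B, y = a * b) →
      ∃ a ∈ UR C k A, ∃ b ∈ UR C k B, (C.adS k).x β s * y = a * b := by
    rintro β s hβ y ⟨a, ha, b, hb, rfl⟩
    have hβ' : β ∈ A ∪ B := hAB ▸ hβ
    rcases hβ' with h1 | h1
    · exact ⟨(C.adS k).x β s * a, mul_mem (Z4_mem β h1 s) ha, b, hb, by group⟩
    · refine ⟨a, ha, (a⁻¹ * (C.adS k).x β s * a⁻¹⁻¹) * b, mul_mem ?_ hb, by group⟩
      exact Z4_normal hBR hR hI _ _ (inv_mem (UR_mono hAR ha)) (Z4_mem β h1 s)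
  unfold UR at hu
  induction hu using Subgroup.closure_induction_left with
  | one => exact ⟨1, one_mem _, 1, one_mem _, by simp⟩
  | mul_left x hx y _ ih =>
    obtain ⟨β, hβ, s, rfl⟩ := hx
    exact step β s hβ y ih
  | inv_mul_cancel x hx y _ ih =>
    obtain ⟨β, hβ, s, rfl⟩ := hx
    have h1 : (C.xg k β s)⁻¹ = (C.adS k).x β (-s) := ((C.adS k).x_neg β s).symm
    rw [h1]
    exact step β (-s) hβ y ih

theorem UR_inf {A B : Set C.Root} (hA : ClR C A) (hB : ClR C B) (hd : ∀ β ∈ A, β ∉ B)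
    (u : GL C.Idx k) (ha : u ∈ UR C k A) (hb : u ∈ UR C k B) : u = 1 := by
  obtain ⟨t, h1, h2⟩ := UR_lp hA u ha
  obtain ⟨t', h1', h2'⟩ := UR_lp hB u hb
  rw [h2]
  apply (C.adS k).lp_zero
  intro β hβ
  rw [C.mem_posList] at hβ
  by_cases h : β ∈ A
  · rw [C.lp_unique t t' (h2.symm.trans h2') β hβ]
    exact h1' β (hd β h)
  · exact h1 β h

theorem FR_mono (hN : D.NA) {R R' : Set C.Root} (h : R ⊆ R') : FR hN k R ≤ FR hN k R' :=
  Subgroup.closure_mono fun _ ⟨β, hβ, t, ht⟩ => ⟨β, h hβ, t, ht⟩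

private theorem Z4_iter_mem {R : Set C.Root} (hr : ∀ β ∈ R, D.r β ∈ R) (l : ℕ) (β : C.Root)
    (hβ : β ∈ R) : D.r^[l] β ∈ R := by
  induction l with
  | zero => exact hβ
  | succ l ih =>
    rw [Function.iterate_succ_apply']
    exact hr _ ih

private theorem Z4_iter_ht (D : Dg C) (l : ℕ) (β : C.Root) : ht (D.r^[l] β).1 = ht β.1 := by
  induction l with
  | zero => rfl
  | succ l ih => rw [Function.iterate_succ_apply', D.r_ht, ih]

/-- The product over the orbit. -/
private noncomputable def ZP (D : Dg C) (β : C.Root) (a : ℕ → k) (N : ℕ) : GL C.Idx k :=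
  ((List.range N).map fun l => (C.adS k).x (D.r^[l] β) (a l)).prod

private theorem ZP_succ (D : Dg C) (β : C.Root) (a : ℕ → k) (N : ℕ) :
    ZP D β a (N + 1) = ZP D β a N * (C.adS k).x (D.r^[N] β) (a N) := by
  unfold ZP
  rw [List.range_succ, List.map_append, List.prod_append, List.map_cons, List.map_nil,
    List.prod_cons, List.prod_nil, mul_one]

private theorem ZP_yg (hN : D.NA) (β : C.Root) (t : k) :
    ((yg hN β t : GF D k) : GL C.Idx k) = ZP D β (fun l => (D.sgp l β : k) * t) (mo D β) := by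
  rw [yg_val]
  unfold yb ZP
  congr 1
  apply List.map_congr_left
  intro l _
  have hs : IsSig D (RingEquiv.refl k) (C.adS k) (D.sgl (RingEquiv.refl k)) := isSig_adS D _
  rw [hs.iter l β t]
  congr 2
  have : (⇑(RingEquiv.refl k)) = id := rfl
  rw [this, Function.iterate_id, id]

private theorem Z4_yg_mem (hN : D.NA) {R : Set C.Root} (hr : ∀ β ∈ R, D.r β ∈ R) (β : C.Root)
    (hβ : β ∈ R) (t : k) : ((yg hN β t : GF D k) : GL C.Idx k) ∈ UR C k R := by
  rw [ZP_yg]
  unfold ZP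
  apply Subgroup.list_prod_mem
  intro g hg
  rw [List.mem_map] at hg
  obtain ⟨l, -, rfl⟩ := hg
  exact Z4_mem _ (Z4_iter_mem hr l β hβ) _

private theorem ZP_Q {R : Set C.Root} (hR : ClR C R) (hr : ∀ β ∈ R, D.r β ∈ R) (m : ℤ)
    (hm : 1 ≤ m) (β : C.Root) (hβ : β ∈ R ∧ ht β.1 = m) (a : ℕ → k) (N : ℕ) :
    ZQ R m (ZP D β a N)
      (fun γ => ∑ l ∈ Finset.range N, if γ = D.r^[l] β then a l else 0) := by
  induction N with
  | zero => exact ZQ_one R m 1 (one_mem _)
  | succ N ih =>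
    rw [ZP_succ]
    have h1 := ZQ_mul hR m hm ih (ZQ_single hR m (D.r^[N] β)
      ⟨Z4_iter_mem hr N β hβ.1, by rw [Z4_iter_ht, hβ.2]⟩ (a N))
    have e : (fun γ : C.Root => ∑ l ∈ Finset.range (N + 1), if γ = D.r^[l] β then a l else 0) =
        fun γ => (∑ l ∈ Finset.range N, if γ = D.r^[l] β then a l else 0) +
          (if γ = D.r^[N] β then a N else 0) := by
      funext γ
      rw [Finset.sum_range_succ]
    rw [e]
    exact h1

private theorem Z4_map {R : Set C.Root} (hr : ∀ β ∈ R, D.r β ∈ R) (m : ℤ) (u : GL C.Idx k)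
    (hu : u ∈ UR C k (ZR R m)) : D.sgl (RingEquiv.refl k) u ∈ UR C k (ZR R m) := by
  have hs : IsSig D (RingEquiv.refl k) (C.adS k) (D.sgl (RingEquiv.refl k)) := isSig_adS D _
  have h1 : UR C k (ZR R m) ≤ (UR C k (ZR R m)).comap (D.sgl (RingEquiv.refl k)) := by
    conv_lhs => unfold UR
    rw [Subgroup.closure_le]
    rintro g ⟨β, hβ, t, rfl⟩
    change D.sgl (RingEquiv.refl k) ((C.adS k).x β t) ∈ UR C k (ZR R m)
    rw [hs]
    have h2 : D.r β ∈ ZR R m := by
      refine ⟨hr β hβ.1, ?_⟩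
      rw [D.r_ht]
      exact hβ.2
    exact Z4_mem _ h2 _
  exact h1 hu

private theorem ZQ_map_lp {R : Set C.Root} (hR : ClR C R) (hr : ∀ β ∈ R, D.r β ∈ R) (m : ℤ)
    (hm : 1 ≤ m) (t : C.Root → k) (h0 : ∀ β, ¬ (β ∈ R ∧ ht β.1 = m) → t β = 0)
    (l : List C.Root) (hl : l.Nodup) :
    ∃ T : C.Root → k, ZQ R m (D.sgl (RingEquiv.refl k) ((C.adS k).lp l t)) T ∧
      (∀ β ∈ l, T (D.r β) = (D.sg β : k) * t β) ∧ (∀ β, β ∉ l → T (D.r β) = 0) := by
  have hs : IsSig D (RingEquiv.refl k) (C.adS k) (D.sgl (RingEquiv.refl k)) := isSig_adS D _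
  induction l with
  | nil =>
    refine ⟨fun _ => 0, ?_, by simp, by simp⟩
    have : (C.adS k).lp ([] : List C.Root) t = 1 := by simp [StSys.lp]
    rw [this, _root_.map_one]
    exact ZQ_one R m 1 (one_mem _)
  | cons β l ih =>
    rw [List.nodup_cons] at hl
    obtain ⟨T, hT, hT1, hT2⟩ := ih hl.2
    rw [Z4_cons, _root_.map_mul, hs β (t β)]
    have hb : ZQ R m ((C.adS k).x (D.r β) ((D.sg β : k) * t β))
        (fun γ => if γ = D.r β then (D.sg β : k) * t β else 0) := by
      by_cases hβ : β ∈ R ∧ ht β.1 = m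
      · exact ZQ_single hR m (D.r β) ⟨hr β hβ.1, by rw [D.r_ht, hβ.2]⟩ _
      · rw [h0 β hβ, mul_zero, (C.adS k).x_zero]
        have : (fun γ : C.Root => if γ = D.r β then (0 : k) else 0) = fun _ => 0 := by
          funext γ
          simp
        rw [this]
        exact ZQ_one R m 1 (one_mem _)
    refine ⟨_, ZQ_mul hR m hm hb hT, fun γ hγ => ?_, fun γ hγ => ?_⟩
    · rw [List.mem_cons] at hγ
      by_cases h1 : γ = β
      · subst h1
        simp only [if_true]
        rw [hT2 γ hl.1, add_zero]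
      · have h2 : γ ∈ l := by
          rcases hγ with h3 | h3
          · exact absurd h3 h1
          · exact h3
        have h3 : ¬ D.r γ = D.r β := fun h4 => h1 (D.r_injective h4)
        simp only [if_neg h3, zero_add]
        exact hT1 γ h2
    · rw [List.mem_cons, not_or] at hγ
      have h3 : ¬ D.r γ = D.r β := fun h4 => hγ.1 (D.r_injective h4)
      simp only [if_neg h3, zero_add]
      exact hT2 γ hγ.2

private theorem ZQ_unique {R : Set C.Root} (hR : ClR C R) (m : ℤ) (hm : 1 ≤ m)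
    {g : GL C.Idx k} {t t' : C.Root → k} (h : ZQ R m g t) (h' : ZQ R m g t') : t = t' := by
  obtain ⟨h0, u, hu, hg⟩ := h
  obtain ⟨h0', u', hu', hg'⟩ := h'
  obtain ⟨t1, ht1, rfl⟩ := Z4_exists_lp hR (m + 1) (by omega) u hu
  obtain ⟨t2, ht2, rfl⟩ := Z4_exists_lp hR (m + 1) (by omega) u' hu'
  have key : ∀ (a b : C.Root → k), (∀ β, ¬ (β ∈ R ∧ ht β.1 = m) → a β = 0) →
      (∀ β, ¬ (β ∈ R ∧ m + 1 ≤ ht β.1) → b β = 0) →
      (C.adS k).lp C.posList a * (C.adS k).lp C.posList b =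
        (C.adS k).lp C.posList (fun β => if ht β.1 ≤ m then a β else b β) := by
    intro a b ha hb
    rw [(C.adS k).lp_split m (fun β => if ht β.1 ≤ m then a β else b β)]
    congr 1
    · apply (C.adS k).lp_congr
      intro β _
      by_cases hβ : ht β.1 ≤ m
      · simp only [if_pos hβ]
      · simp only [if_neg hβ]
        exact ha β fun h => by omega
    · apply (C.adS k).lp_congr
      intro β _
      by_cases hβ : ht β.1 ≤ m
      · simp only [if_pos hβ]
        exact hb β fun h => by omega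
      · simp only [if_neg hβ]
  rw [hg, key t t1 h0 ht1, key t' t2 h0' ht2] at hg'
  have h4 := C.lp_unique _ _ hg'
  funext β
  by_cases hβ : ht β.1 = m
  · have h5 := h4 β (by unfold SLC.Pos; omega)
    simpa only [if_pos hβ.le] using h5
  · rw [h0 β fun h => hβ h.2, h0' β fun h => hβ h.2]

/-- A fixed element has coordinates compatible with `σ`. -/
private theorem ZQ_fixed {R : Set C.Root} (hR : ClR C R) (hr : ∀ β ∈ R, D.r β ∈ R) (m : ℤ)
    (hm : 1 ≤ m) {g : GL C.Idx k} {t : C.Root → k} (hg : ZQ R m g t)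
    (hs : D.sgl (RingEquiv.refl k) g = g) (β : C.Root) : t (D.r β) = (D.sg β : k) * t β := by
  have hg0 := hg
  obtain ⟨h0, u, hu, rfl⟩ := hg
  obtain ⟨T, hT, hT1, hT2⟩ := ZQ_map_lp hR hr m hm t h0 C.posList C.posList_nodup
  have h1 := ZQ_mul hR m hm hT (ZQ_one R m _ (Z4_map hr (m + 1) u hu))
  rw [← _root_.map_mul, hs] at h1
  have h2 := ZQ_unique hR m hm hg0 h1
  have h3 : t (D.r β) = T (D.r β) := by
    conv_lhs => rw [h2]
    exact add_zero _
  rw [h3]
  by_cases hβ : β ∈ C.posList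
  · exact hT1 β hβ
  · rw [hT2 β hβ, h0 β, mul_zero]
    rintro ⟨h4, -⟩
    exact hβ ((C.mem_posList β).2 (hR.1 β h4))

private theorem Z4_sgp (t : C.Root → k) (ht : ∀ β, t (D.r β) = (D.sg β : k) * t β) (l : ℕ)
    (β : C.Root) : t (D.r^[l] β) = (D.sgp l β : k) * t β := by
  induction l with
  | zero => simp [Dg.sgp]
  | succ l ih =>
    rw [Function.iterate_succ_apply', ht, ih]
    unfold Dg.sgp
    rw [Finset.prod_range_succ]
    push_cast
    ring

/-- the orbit of `β` starts with `β` and does not return before `mo D β` -/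
private theorem Z4_count (D : Dg C) (β : C.Root) :
    (∑ l ∈ Finset.range (mo D β), if β = D.r^[l] β then (1 : k) else 0) = 1 := by
  have hpos : 0 < mo D β := by
    unfold mo
    split_ifs
    · exact Nat.one_pos
    · rcases D.m_cases with h | h | h <;> omega
  rw [Finset.sum_eq_single 0]
  · simp
  · intro l hl hne
    rw [Finset.mem_range] at hl
    refine if_neg fun h => hne ?_
    unfold mo at hl
    by_cases h1 : D.r β = β
    · rw [if_pos h1] at hl
      omega
    · rw [if_neg h1] at hl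
      exact (D.r_iter_eq β h1 0 l (by omega) hl h).symm
  · intro h
    exact absurd (Finset.mem_range.2 hpos) h

/-- the induction on the support of the coordinates -/
private theorem Z4_supp (hN : D.NA) {R : Set C.Root} (hR : ClR C R) (hr : ∀ β ∈ R, D.r β ∈ R)
    (m : ℤ) (hm : 1 ≤ m)
    (ih : ∀ x : GF D k, (x : GL C.Idx k) ∈ UR C k (ZR R (m + 1)) → x ∈ FR hN k R) (N : ℕ) :
    ∀ (x : GF D k) (t : C.Root → k), ZQ R m (x : GL C.Idx k) t → {β | t β ≠ 0}.ncard ≤ N →
      x ∈ FR hN k R := by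
  have hzero : ∀ (x : GF D k) (t : C.Root → k), ZQ R m (x : GL C.Idx k) t → (∀ β, t β = 0) →
      x ∈ FR hN k R := by
    rintro x t ⟨-, u, hu, h1⟩ h2
    rw [(C.adS k).lp_zero _ _ (fun β _ => h2 β), one_mul] at h1
    apply ih
    rw [h1]
    exact hu
  induction N with
  | zero =>
    intro x t hx hk
    have h1 : {β | t β ≠ 0} = ∅ := by
      rw [← Set.ncard_eq_zero (Set.toFinite _)]
      omega
    refine hzero x t hx fun β => ?_
    by_contra h3
    have : β ∈ {β | t β ≠ 0} := h3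
    rw [h1] at this
    exact this
  | succ N ihN =>
    intro x t hx hk
    by_cases hz : ∀ β, t β = 0
    · exact hzero x t hx hz
    push Not at hz
    obtain ⟨β, hβ⟩ := hz
    have hβR : β ∈ R ∧ ht β.1 = m := by
      by_contra h1
      exact hβ (hx.1 β h1)
    have hfix := (mem_GF_fix hN (x : GL C.Idx k) x.2).1
    have heq := ZQ_fixed hR hr m hm hx hfix
    have hsg := Z4_sgp t heq
    have h1 := ZP_Q hR hr m hm β hβR (fun l => (D.sgp l β : k) * (-(t β))) (mo D β)
    rw [← ZP_yg hN] at h1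
    have h2 := ZQ_mul hR m hm h1 hx
    have h3 : ∀ γ, (∑ l ∈ Finset.range (mo D β),
        if γ = D.r^[l] β then (D.sgp l β : k) * (-(t β)) else 0) + t γ =
        (1 - ∑ l ∈ Finset.range (mo D β), if γ = D.r^[l] β then (1 : k) else 0) * t γ := by
      intro γ
      have h4 : (∑ l ∈ Finset.range (mo D β),
          if γ = D.r^[l] β then (D.sgp l β : k) * (-(t β)) else 0) =
          - ((∑ l ∈ Finset.range (mo D β), if γ = D.r^[l] β then (1 : k) else 0) * t γ) := by
        rw [Finset.sum_mul, ← Finset.sum_neg_distrib]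
        apply Finset.sum_congr rfl
        intro l _
        by_cases h5 : γ = D.r^[l] β
        · rw [if_pos h5, if_pos h5, h5, hsg l β]
          ring
        · rw [if_neg h5, if_neg h5]
          ring
      rw [h4]
      ring
    have h5 : {γ | (∑ l ∈ Finset.range (mo D β),
        if γ = D.r^[l] β then (D.sgp l β : k) * (-(t β)) else 0) + t γ ≠ 0} ⊂
        {γ | t γ ≠ 0} := by
      rw [Set.ssubset_iff_of_subset]
      · refine ⟨β, hβ, ?_⟩
        intro h6
        apply h6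
        rw [h3, Z4_count, sub_self, zero_mul]
      · intro γ hγ h6
        apply hγ
        rw [h3, h6, mul_zero]
    have h6 := Set.ncard_lt_ncard h5 (Set.toFinite _)
    have h7 := ihN (yg hN β (-(t β)) * x) _ h2 (by
      change {γ | (∑ l ∈ Finset.range (mo D β),
        if γ = D.r^[l] β then (D.sgp l β : k) * (-(t β)) else 0) + t γ ≠ 0}.ncard ≤ N
      omega)
    have h8 : yg hN β (-(t β)) ∈ FR hN k R := Subgroup.subset_closure ⟨β, hβR.1, _, rfl⟩
    have h9 : x = (yg hN β (-(t β)))⁻¹ * (yg hN β (-(t β)) * x) := by group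
    rw [h9]
    exact mul_mem (inv_mem h8) h7

/-- fixed points -/
theorem UR_fix (hN : D.NA) {R : Set C.Root} (hR : ClR C R) (hr : ∀ β ∈ R, D.r β ∈ R)
    (x : GF D k) : (x : GL C.Idx k) ∈ UR C k R ↔ x ∈ FR hN k R := by
  constructor
  · intro hx
    obtain ⟨M, hM1, hM2, hM3⟩ := (C.adS k).exists_U_eq_bot
    have key : ∀ j : ℕ, ∀ m : ℤ, 1 ≤ m → M ≤ m + j → ∀ x : GF D k,
        (x : GL C.Idx k) ∈ UR C k (ZR R m) → x ∈ FR hN k R := by
      intro j
      induction j with
      | zero =>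
        intro m hm hMm x hx
        have h1 : (x : GL C.Idx k) ∈ (C.adS k).U M := by
          apply Z4_UR_le R M
          exact UR_mono (ZR_mono R (by simpa using hMm)) hx
        rw [hM3, Subgroup.mem_bot] at h1
        have h2 : x = 1 := Subtype.ext h1
        rw [h2]
        exact one_mem _
      | succ j ih =>
        intro m hm hMm x hx
        obtain ⟨t, ht0⟩ := Z4_exists_layer hR m hm _ hx
        have ih' := ih (m + 1) (by omega) (by push_cast at hMm; omega)
        exact Z4_supp hN hR hr m hm ih' _ x t ht0 le_rfl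
    rw [← Z4_ZR_one hR.1] at hx
    exact key (M - 1).toNat 1 le_rfl (by have := Int.self_le_toNat (M - 1); omega) x hx
  · intro hx
    have h1 : FR hN k R ≤ (UR C k R).subgroupOf (GF D k) := by
      unfold FR
      rw [Subgroup.closure_le]
      rintro g ⟨β, hβ, t, rfl⟩
      change ((yg hN β t : GF D k) : GL C.Idx k) ∈ UR C k R
      exact Z4_yg_mem hN hr β hβ t
    exact h1 hx

theorem FR_split (hN : D.NA) {R A B : Set C.Root} (hR : ClR C R) (hA : ClR C A) (hB : ClR C B)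
    (hAr : ∀ β ∈ A, D.r β ∈ A) (hBr : ∀ β ∈ B, D.r β ∈ B) (hAB : R = A ∪ B)
    (hd : ∀ β ∈ A, β ∉ B)
    (hI : ∀ α ∈ R, ∀ β ∈ B, ∀ γ : C.Root, γ.1 = α.1 + β.1 → γ ∈ B) (u : GF D k)
    (hu : u ∈ FR hN k R) : ∃ a ∈ FR hN k A, ∃ b ∈ FR hN k B, u = a * b := by
  have hr : ∀ β ∈ R, D.r β ∈ R := by
    intro β hβ
    rw [hAB] at hβ ⊢
    rcases hβ with h | h
    · exact Or.inl (hAr β h)
    · exact Or.inr (hBr β h)
  rw [← UR_fix hN hR hr] at hu
  obtain ⟨a, ha, b, hb, hab⟩ := UR_split hR.1 hAB hI _ hu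
  have hfix := (mem_GF_fix hN (u : GL C.Idx k) u.2).1
  have ha' : D.sgl (RingEquiv.refl k) a ∈ UR C k A := by
    rw [← Z4_ZR_one hA.1] at ha ⊢
    exact Z4_map hAr 1 a ha
  have hb' : D.sgl (RingEquiv.refl k) b ∈ UR C k B := by
    rw [← Z4_ZR_one hB.1] at hb ⊢
    exact Z4_map hBr 1 b hb
  have h1 : D.sgl (RingEquiv.refl k) a * D.sgl (RingEquiv.refl k) b = a * b := by
    rw [← _root_.map_mul, ← hab, hfix]
  have h2 : a⁻¹ * D.sgl (RingEquiv.refl k) a = b * (D.sgl (RingEquiv.refl k) b)⁻¹ := by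
    rw [inv_mul_eq_iff_eq_mul, ← mul_assoc, ← h1, mul_inv_cancel_right]
  have h3 : a⁻¹ * D.sgl (RingEquiv.refl k) a = 1 := by
    refine UR_inf hA hB hd _ (mul_mem (inv_mem ha) ha') ?_
    rw [h2]
    exact mul_mem hb (inv_mem hb')
  have h4 : D.sgl (RingEquiv.refl k) a = a := by
    rwa [inv_mul_eq_one, eq_comm] at h3
  have h5 : D.sgl (RingEquiv.refl k) b = b := by
    rw [h4] at h1
    exact mul_left_cancel h1
  have hag : a ∈ GF D k :=
    (le_sup_left : fixU _ _ ≤ _) ⟨UR_le_U hA.1 ha, h4⟩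
  have hbg : b ∈ GF D k :=
    (le_sup_left : fixU _ _ ≤ _) ⟨UR_le_U hB.1 hb, h5⟩
  exact ⟨⟨a, hag⟩, (UR_fix hN hA hAr ⟨a, hag⟩).1 ha, ⟨b, hbg⟩, (UR_fix hN hB hBr ⟨b, hbg⟩).1 hb,
    Subtype.ext hab⟩

theorem FR_inf (hN : D.NA) {A B : Set C.Root} (hA : ClR C A) (hB : ClR C B)
    (hAr : ∀ β ∈ A, D.r β ∈ A) (hBr : ∀ β ∈ B, D.r β ∈ B) (hd : ∀ β ∈ A, β ∉ B)
    (u : GF D k) (ha : u ∈ FR hN k A) (hb : u ∈ FR hN k B) : u = 1 := by
  rw [← UR_fix hN hA hAr] at ha
  rw [← UR_fix hN hB hBr] at hb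
  exact Subtype.ext (UR_inf hA hB hd _ ha hb)

theorem FR_normal (hN : D.NA) {R B : Set C.Root} (hR : ClR C R) (hBc : ClR C B) (hB : B ⊆ R)
    (hr : ∀ β ∈ R, D.r β ∈ R) (hBr : ∀ β ∈ B, D.r β ∈ B)
    (hI : ∀ α ∈ R, ∀ β ∈ B, ∀ γ : C.Root, γ.1 = α.1 + β.1 → γ ∈ B) (g u : GF D k)
    (hg : g ∈ FR hN k R) (hu : u ∈ FR hN k B) : g * u * g⁻¹ ∈ FR hN k B := by
  rw [← UR_fix hN hR hr] at hg
  rw [← UR_fix hN hBc hBr] at hu ⊢
  exact Z4_normal hB hR.1 hI _ _ hg hu

/-- all positive roots -/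
theorem FU_FR (hN : D.NA) : FU D k = FR hN k {β | C.Pos β} := FU_eq hN

theorem FUm_FR (hN : D.NA) : FUm D k = FR hN k {β | ¬ C.Pos β} := FUm_eq hN

theorem ClR_pos : ClR C {β : C.Root | C.Pos β} := by
  refine ⟨fun β hβ => hβ, fun α hα β hβ γ hγ => ?_⟩
  change C.Pos γ
  have h1 : C.Pos α := hα
  have h2 : C.Pos β := hβ
  unfold SLC.Pos at *
  rw [hγ, ht_add]
  omega

end Pool.Agent.H86.UM
end
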