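import Pool.Agent.H86.AL.M04
import Pool.Agent.H86.AL.M10
import Pool.Agent.H86.AL.M13
import Pool.Agent.H86.AL.M14

/-!
# M18: collected modules

Pool.Agent.H75.UK.K9a
Pool.Agent.H75.UK.K9n
Pool.Agent.H75.UK.K9b
-/

section
/- module Pool.Agent.H75.UK.K9a -/
/-!
# Project UK, module K9a: coordinates in the layers

`kap β M = - M (inl i) (inr (-β)) / β_i` where `i` is chosen with `(β_i : F) ≠ 0`
(`exists_coeff_ne_zero` in R5). On `u ∈ U m`, `ht β = m ≥ 1`, it is the coordinate of `u` at `β`: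
`kap_lp`: `lp_entry`. `kap_mul`: `u v - 1 = (u-1) + (v-1) + (u-1)(v-1)` and `(u-1)(v-1)` has zero entries
at `(inl i, inr (-β))` (`Fil_U`: it is in `Fil (2m)`, and `hti (inl i) - hti (inr (-β)) = m`).
`kap_zero`: `u = lp t * u'`, `t` supported in height `m`, `u' ∈ U (m+1)` (`exists_layer`), `t β = kap β u`.
`kap_conj`: `b = τ u₀` (`upper`), closure induction on `u ∈ U m`... or: `u = lp t * u'`; `u₀ lp t u₀⁻¹ ∈
lp t * U (m+1)` (commutators raise the height: `u₀ u u₀⁻¹ - 1 - (u - 1) ∈ Fil (m+1)` by `Fil_U`), and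
`T_fix`. `kap_sgl`: `chi_sgl`, `xi_sgl` are similar: `u = lp t * u'`, `D.sgl` of it is the product of
`x_{rβ}(sg β θ(t β))` and an element of `U (m+1)` (`map_U`).
`mem_of_kap`: downward induction, from `kap_zero`, `exists_U_eq_bot`: `u ∈ U 1`, `u ≠ 1`: there is
a largest `m` with `u ∈ U m`, and some `β` of height `m` with `kap β u ≠ 0`.
-/

set_option autoImplicit false
open Matrix
universe u
namespace Pool.Agent.H75.UL

namespace SLC
variable {n : ℕ} (C : SLC n) {F : Type*} [Field F]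

open Classical in
/-- The coordinate at `β`. -/
noncomputable def kap (β : C.Root) (M : Matrix C.Idx C.Idx F) : F :=
  if h : ∃ i, (β.1 i : F) ≠ 0 then
    - M (Sum.inl h.choose) (Sum.inr (-β)) / (β.1 h.choose : F) else 0

private theorem K9a_kap_of (β : C.Root) (M : Matrix C.Idx C.Idx F) (s : F)
    (h : ∀ i, M (Sum.inl i) (Sum.inr (-β)) = - (s * (β.1 i : F))) : C.kap β M = s := by
  unfold kap
  have h1 : ∃ i, (β.1 i : F) ≠ 0 := C.exists_coeff_ne_zero β F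
  rw [dif_pos h1, h, neg_neg, mul_div_assoc, div_self h1.choose_spec, mul_one]

private theorem K9a_kap_congr (β : C.Root) (M N : Matrix C.Idx C.Idx F)
    (h : ∀ i, M (Sum.inl i) (Sum.inr (-β)) = N (Sum.inl i) (Sum.inr (-β))) :
    C.kap β M = C.kap β N := by
  unfold kap
  split_ifs with h1
  · rw [h]
  · rfl

theorem kap_lp (t : C.Root → F) (m : ℤ) (hm : 1 ≤ m) (h0 : ∀ γ, ht γ.1 < m → t γ = 0)
    (β : C.Root) (hβ : ht β.1 = m) :
    C.kap β ((C.adS F).lp C.posList t : Matrix C.Idx C.Idx F) = t β :=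
  C.K9a_kap_of β _ _ fun i => C.lp_entry t m hm h0 β hβ i

theorem kap_xg (γ β : C.Root) (m : ℤ) (hm : 1 ≤ m) (hγ : m ≤ ht γ.1) (hβ : ht β.1 = m) (t : F) :
    C.kap β (C.xg F γ t : Matrix C.Idx C.Idx F) = if γ = β then t else 0 := by
  have _ := hm
  have _ := hγ
  have _ := hβ
  apply C.K9a_kap_of
  intro i
  change C.X F γ t (Sum.inl i) (Sum.inr (-β)) = _
  unfold X
  have h1 : (C.F γ) (Sum.inl i) (Sum.inr (-β)) = 0 := rfl
  have h2 : (C.E γ) (Sum.inl i) (Sum.inr (-β)) = if (-β).1 = -γ.1 then - γ.1 i else 0 := rfl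
  rw [Matrix.add_apply, Matrix.add_apply, Matrix.smul_apply, Matrix.smul_apply, Matrix.map_apply,
    Matrix.map_apply, h1, h2, Matrix.one_apply_ne (by simp)]
  by_cases h : γ = β
  · subst h
    rw [if_pos rfl, if_pos (Root.neg_val C γ)]
    push_cast
    simp
  · have h3 : ¬ ((-β).1 = -γ.1) := by
      intro h3
      apply h
      apply Root.ext
      rw [Root.neg_val] at h3
      exact (neg_injective h3).symm
    rw [if_neg h, if_neg h3]
    simp

theorem kap_mul (m : ℤ) (hm : 1 ≤ m) (u v : GL C.Idx F) (hu : u ∈ (C.adS F).U m)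
    (hv : v ∈ (C.adS F).U m) (β : C.Root) (hβ : ht β.1 = m) :
    C.kap β ((u * v : GL C.Idx F) : Matrix C.Idx C.Idx F) =
      C.kap β (u : Matrix C.Idx C.Idx F) + C.kap β (v : Matrix C.Idx C.Idx F) := by
  have h1 := C.Fil_mul (C.Fil_U m hm u hu) (C.Fil_U m hm v hv)
  have e1 : ((u * v : GL C.Idx F) : Matrix C.Idx C.Idx F) =
      ((u : Matrix C.Idx C.Idx F) - 1) * ((v : Matrix C.Idx C.Idx F) - 1) +
        (u : Matrix C.Idx C.Idx F) + (v : Matrix C.Idx C.Idx F) - 1 := by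
    rw [Units.val_mul, sub_mul, mul_sub, mul_one, one_mul]
    abel
  have h2 : ∀ i, ((u * v : GL C.Idx F) : Matrix C.Idx C.Idx F) (Sum.inl i) (Sum.inr (-β)) =
      (u : Matrix C.Idx C.Idx F) (Sum.inl i) (Sum.inr (-β)) +
        (v : Matrix C.Idx C.Idx F) (Sum.inl i) (Sum.inr (-β)) := by
    intro i
    rw [e1, Matrix.sub_apply, Matrix.add_apply, Matrix.add_apply, Matrix.one_apply_ne (by simp),
      h1 (Sum.inl i) (Sum.inr (-β)) (by
        simp only [hti, Sum.elim_inl, Sum.elim_inr, Root.neg_val, ht_neg]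
        omega)]
    ring
  unfold kap
  split_ifs with h3
  · rw [h2]
    ring
  · ring

theorem kap_zero (m : ℤ) (hm : 1 ≤ m) (u : GL C.Idx F) (hu : u ∈ (C.adS F).U m)
    (h : ∀ β : C.Root, ht β.1 = m → C.kap β (u : Matrix C.Idx C.Idx F) = 0) :
    u ∈ (C.adS F).U (m + 1) := by
  obtain ⟨t, ht0, rfl⟩ := (C.adS F).exists_lp m hm u hu
  apply StSys.lp_mem
  intro β hβ
  rcases (show ht β.1 < m ∨ ht β.1 = m by omega) with h1 | h1
  · exact ht0 β h1
  · rw [← C.kap_lp t m hm ht0 β h1]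
    exact h β h1

private theorem K9a_T_lp (τ : GL C.Idx F) (hτ : τ ∈ (C.adS F).T) (t : C.Root → F)
    (l : List C.Root) : τ * (C.adS F).lp l t * τ⁻¹ =
      (C.adS F).lp l (fun γ => C.chi (τ : Matrix C.Idx C.Idx F) γ * t γ) := by
  induction l with
  | nil =>
    have e : (C.adS F).lp [] t = 1 := by simp [StSys.lp]
    have e' : (C.adS F).lp [] (fun γ => C.chi (τ : Matrix C.Idx C.Idx F) γ * t γ) = 1 := by
      simp [StSys.lp]
    rw [e, e', mul_one, mul_inv_cancel]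
  | cons γ l ih =>
    have e2 : ∀ s : C.Root → F, (C.adS F).lp (γ :: l) s = C.xg F γ (s γ) * (C.adS F).lp l s := by
      intro s
      simp [StSys.lp]
    rw [e2, e2, ← ih, ← (C.T_fix τ hτ γ (t γ)).2]
    group

theorem kap_conj (m : ℤ) (hm : 1 ≤ m) (b u : GL C.Idx F) (hb : b ∈ C.Gad F)
    (hb0 : C.Fil 0 (b : Matrix C.Idx C.Idx F)) (hu : u ∈ (C.adS F).U m) (β : C.Root)
    (hβ : ht β.1 = m) : b * u * b⁻¹ ∈ (C.adS F).U m ∧
    C.kap β ((b * u * b⁻¹ : GL C.Idx F) : Matrix C.Idx C.Idx F) =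
      C.chi (b : Matrix C.Idx C.Idx F) β * C.kap β (u : Matrix C.Idx C.Idx F) := by
  obtain ⟨τ, hτ, u₀, hu₀, rfl⟩ := C.upper b hb hb0
  have e1 : τ * u₀ * u * (τ * u₀)⁻¹ = τ * (u₀ * u * u₀⁻¹) * τ⁻¹ := by group
  have hv : u₀ * u * u₀⁻¹ ∈ (C.adS F).U m := (C.adS F).U_conj m hm u₀ u hu₀ hu
  have hk : C.kap β ((u₀ * u * u₀⁻¹ : GL C.Idx F) : Matrix C.Idx C.Idx F) =
      C.kap β (u : Matrix C.Idx C.Idx F) := by
    apply C.K9a_kap_congr
    intro i
    have h1 := C.Fil_U 1 le_rfl u₀ hu₀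
    have h2 := C.Fil_U m hm u hu
    have h3 := C.Fil_U_zero _ (Subgroup.inv_mem _ hu₀)
    have h4 := C.Fil_inv u₀ 1 le_rfl h1
    have h5 := C.Fil_mul (C.Fil_mul h1 h2) h3
    have h6 := C.Fil_mul h2 h4
    have e2 : ((u₀ * u * u₀⁻¹ : GL C.Idx F) : Matrix C.Idx C.Idx F) =
        ((u₀ : Matrix C.Idx C.Idx F) - 1) * ((u : Matrix C.Idx C.Idx F) - 1) *
          ((u₀⁻¹ : GL C.Idx F) : Matrix C.Idx C.Idx F) +
        ((u : Matrix C.Idx C.Idx F) - 1) * (((u₀⁻¹ : GL C.Idx F) : Matrix C.Idx C.Idx F) - 1) +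
        (u : Matrix C.Idx C.Idx F) := by
      have e3 : (u₀ : Matrix C.Idx C.Idx F) * ((u₀⁻¹ : GL C.Idx F) : Matrix C.Idx C.Idx F) = 1 := by
        rw [← Units.val_mul, mul_inv_cancel, Units.val_one]
      rw [Units.val_mul, Units.val_mul]
      generalize ((u₀⁻¹ : GL C.Idx F) : Matrix C.Idx C.Idx F) = w at *
      generalize (u₀ : Matrix C.Idx C.Idx F) = v at *
      generalize (u : Matrix C.Idx C.Idx F) = z at *
      have e4 : (v - 1) * (z - 1) * w + (z - 1) * (w - 1) + z = v * z * w - v * w + 1 := by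
        noncomm_ring
      rw [e4, e3]
      abel
    rw [e2, Matrix.add_apply, Matrix.add_apply, h5 (Sum.inl i) (Sum.inr (-β)) (by
        simp only [hti, Sum.elim_inl, Sum.elim_inr, Root.neg_val, ht_neg]
        omega), h6 (Sum.inl i) (Sum.inr (-β)) (by
        simp only [hti, Sum.elim_inl, Sum.elim_inr, Root.neg_val, ht_neg]
        omega), zero_add, zero_add]
  rw [e1, C.chi_mul_U τ u₀ hτ hu₀, ← hk]
  obtain ⟨t, ht0, hlp⟩ := (C.adS F).exists_lp m hm _ hv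
  rw [hlp, C.K9a_T_lp τ hτ t C.posList]
  have ht1 : ∀ γ : C.Root, ht γ.1 < m →
      (fun γ => C.chi (τ : Matrix C.Idx C.Idx F) γ * t γ) γ = 0 := by
    intro γ hγ
    change C.chi (τ : Matrix C.Idx C.Idx F) γ * t γ = 0
    rw [ht0 γ hγ, mul_zero]
  refine ⟨StSys.lp_mem _ m _ ht1, ?_⟩
  rw [C.kap_lp _ m hm ht1 β hβ, C.kap_lp t m hm ht0 β hβ]

private theorem K9a_sgl_lp (D : Dg C) (θ : F ≃+* F) (m : ℤ) (hm : 1 ≤ m) (t : C.Root → F)
    (h0 : ∀ γ : C.Root, ht γ.1 < m → t γ = 0) (β : C.Root) (hβ : ht β.1 = m) (l : List C.Root)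
    (hl : l.Nodup) : D.sgl θ ((C.adS F).lp l t) ∈ (C.adS F).U m ∧
    C.kap (D.r β) ((D.sgl θ ((C.adS F).lp l t) : GL C.Idx F) : Matrix C.Idx C.Idx F) =
      if β ∈ l then (D.sg β : F) * θ (t β) else 0 := by
  have hβ' : ht (D.r β).1 = m := by rw [D.r_ht, hβ]
  induction l with
  | nil =>
    have e : (C.adS F).lp [] t = 1 := by simp [StSys.lp]
    rw [e, map_one]
    refine ⟨Subgroup.one_mem _, ?_⟩
    rw [if_neg (List.not_mem_nil)]
    apply C.K9a_kap_of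
    intro i
    rw [Units.val_one, Matrix.one_apply_ne (by simp), zero_mul, neg_zero]
  | cons γ l ih =>
    rw [List.nodup_cons] at hl
    obtain ⟨ih1, ih2⟩ := ih hl.2
    have e2 : (C.adS F).lp (γ :: l) t = C.xg F γ (t γ) * (C.adS F).lp l t := by
      simp [StSys.lp]
    have e3 : D.sgl θ (C.xg F γ (t γ)) = C.xg F (D.r γ) ((D.sg γ : F) * θ (t γ)) :=
      isSig_adS D θ γ (t γ)
    have hx : D.sgl θ (C.xg F γ (t γ)) ∈ (C.adS F).U m := by
      rw [e3]
      by_cases h : ht γ.1 < m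
      · rw [h0 γ h, map_zero, mul_zero]
        have e4 : C.xg F (D.r γ) 0 = 1 := (C.adS F).x_zero (D.r γ)
        rw [e4]
        exact Subgroup.one_mem _
      · exact Subgroup.subset_closure ⟨D.r γ, _, by rw [D.r_ht]; omega, rfl⟩
    have hk : C.kap (D.r β) ((D.sgl θ (C.xg F γ (t γ)) : GL C.Idx F) : Matrix C.Idx C.Idx F) =
        if γ = β then (D.sg β : F) * θ (t β) else 0 := by
      rw [e3]
      by_cases h : ht γ.1 < m
      · have hne : γ ≠ β := by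
          rintro rfl
          omega
        rw [if_neg hne, h0 γ h, map_zero, mul_zero]
        have e4 : C.xg F (D.r γ) 0 = 1 := (C.adS F).x_zero (D.r γ)
        rw [e4]
        apply C.K9a_kap_of
        intro i
        rw [Units.val_one, Matrix.one_apply_ne (by simp), zero_mul, neg_zero]
      · rw [C.kap_xg (D.r γ) (D.r β) m hm (by rw [D.r_ht]; omega) hβ']
        by_cases h1 : γ = β
        · subst h1
          rw [if_pos rfl, if_pos rfl]
        · rw [if_neg h1, if_neg (fun h2 => h1 (D.r_injective h2))]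
    rw [e2, map_mul]
    refine ⟨Subgroup.mul_mem _ hx ih1, ?_⟩
    rw [C.kap_mul m hm _ _ hx ih1 (D.r β) hβ', hk, ih2]
    by_cases h1 : γ = β
    · subst h1
      rw [if_pos rfl, if_neg hl.1, if_pos (List.mem_cons_self), add_zero]
    · by_cases h2 : β ∈ l
      · rw [if_neg h1, if_pos h2, if_pos (List.mem_cons_of_mem _ h2), zero_add]
      · rw [if_neg h1, if_neg h2, if_neg (fun h3 => (List.mem_cons.mp h3).elim
          (fun h4 => h1 h4.symm) h2), zero_add]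

theorem kap_sgl (D : Dg C) (θ : F ≃+* F) (m : ℤ) (hm : 1 ≤ m) (u : GL C.Idx F)
    (hu : u ∈ (C.adS F).U m) (β : C.Root) (hβ : ht β.1 = m) :
    C.kap (D.r β) ((D.sgl θ u : GL C.Idx F) : Matrix C.Idx C.Idx F) =
      (D.sg β : F) * θ (C.kap β (u : Matrix C.Idx C.Idx F)) := by
  obtain ⟨t, ht0, rfl⟩ := (C.adS F).exists_lp m hm u hu
  rw [(C.K9a_sgl_lp D θ m hm t ht0 β hβ C.posList C.posList_nodup).2, C.kap_lp t m hm ht0 β hβ,
    if_pos ((C.mem_posList β).mpr (by unfold Pos; omega))]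

/-- For a set of elements of `U 1`, not all `1`, there is a largest `m` with all in `U m`. -/
theorem exists_max_U (X : Set (GL C.Idx F)) (hX : ∀ u ∈ X, u ∈ (C.adS F).U 1)
    (hne : ∃ u ∈ X, u ≠ 1) : ∃ m : ℤ, 1 ≤ m ∧ (∀ u ∈ X, u ∈ (C.adS F).U m) ∧
      ∃ u ∈ X, ∃ β : C.Root, ht β.1 = m ∧ C.kap β (u : Matrix C.Idx C.Idx F) ≠ 0 := by
  by_contra hcon
  push Not at hcon
  have key : ∀ k : ℕ, ∀ u ∈ X, u ∈ (C.adS F).U ((k : ℤ) + 1) := by
    intro k
    induction k with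
    | zero =>
      intro u hu
      simpa using hX u hu
    | succ k ih =>
      intro u hu
      have h1 := C.kap_zero ((k : ℤ) + 1) (by omega) u (ih u hu)
        (fun β hβ => hcon ((k : ℤ) + 1) (by omega) ih u hu β hβ)
      have h2 : (((k + 1 : ℕ) : ℤ) + 1) = (k : ℤ) + 1 + 1 := by push_cast; ring
      rw [h2]
      exact h1
  obtain ⟨M, hM1, _, hM3⟩ := (C.adS F).exists_U_eq_bot
  obtain ⟨u, hu, hu1⟩ := hne
  have h3 := key (M - 1).toNat u hu
  have h4 : (((M - 1).toNat : ℕ) : ℤ) + 1 = M := by omega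
  rw [h4, hM3, Subgroup.mem_bot] at h3
  exact hu1 h3

end SLC

end Pool.Agent.H75.UL
end

section
/- module Pool.Agent.H75.UK.K9n -/
/-!
# Project UK, module K9n: coordinates of `U ∩ ν U ν⁻¹`

`kap β u ≠ 0` gives a nonzero entry of `u`, so of `u - 1`, at `(inl i, inr (-β))` for some `i`. With
`v = ν⁻¹ u ν ∈ U 1`: `u - 1 = ν (v - 1) ν⁻¹`, and by `N_mono` (for `ν` and for `ν⁻¹`, which acts by `w⁻¹`)
some entry of `v - 1` at `(inl j, inr (-w⁻¹ β))` is not zero (`W_neg`: `w⁻¹ (-β) = - w⁻¹ β`), so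
`0 ≥ - ht (w⁻¹ β) + 1` (`Fil_U`).
-/

set_option autoImplicit false
open Matrix
universe u
namespace Pool.Agent.H75.UL

namespace SLC
variable {n : ℕ} (C : SLC n) {F : Type*} [Field F]

theorem kap_N (ν : GL C.Idx F) (w : Equiv.Perm C.Root) (hν : ν ∈ (C.adS F).N)
    (h : (C.adS F).Acts ν w) (u : GL C.Idx F) (hv : ν⁻¹ * u * ν ∈ (C.adS F).U 1) (β : C.Root)
    (hk : C.kap β (u : Matrix C.Idx C.Idx F) ≠ 0) : C.Pos (w⁻¹ β) := by
  obtain ⟨hw, m1, m2, m3, m4⟩ := C.N_mono ν w h hν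
  by_contra hj
  have hi : ∃ i, (u : Matrix C.Idx C.Idx F) (Sum.inl i) (Sum.inr (-β)) ≠ 0 := by
    by_contra hcon
    push Not at hcon
    apply hk
    unfold kap
    split_ifs with h1
    · rw [hcon, neg_zero, zero_div]
    · rfl
  obtain ⟨i, hi⟩ := hi
  set δ : C.Root := -(w⁻¹ β) with hδ
  have hδpos : C.Pos δ := (C.not_pos_iff _).1 hj
  have hwδ : w δ = -β := by
    rw [hδ, C.W_neg w hw, ← Equiv.Perm.mul_apply, mul_inv_cancel, Equiv.Perm.one_apply]
  have h0 : C.Fil 0 ((ν⁻¹ * u * ν : GL C.Idx F) : Matrix C.Idx C.Idx F) := C.Fil_U_zero _ hv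
  have e1 : u * ν = ν * (ν⁻¹ * u * ν) := by group
  have e2 := congrArg (fun g : GL C.Idx F => (g : Matrix C.Idx C.Idx F) (Sum.inl i) (Sum.inr δ)) e1
  beta_reduce at e2
  rw [Units.val_mul u ν, Units.val_mul ν (ν⁻¹ * u * ν), Matrix.mul_apply, Matrix.mul_apply] at e2
  have hR : ∑ a, (ν : Matrix C.Idx C.Idx F) (Sum.inl i) a *
      ((ν⁻¹ * u * ν : GL C.Idx F) : Matrix C.Idx C.Idx F) a (Sum.inr δ) = 0 := by
    refine Finset.sum_eq_zero fun a _ => ?_
    rcases a with j | γ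
    · have h3 : ((ν⁻¹ * u * ν : GL C.Idx F) : Matrix C.Idx C.Idx F) (Sum.inl j) (Sum.inr δ) = 0 := by
        refine h0 _ _ ?_
        show (0 : ℤ) < ht δ.1 + 0
        have : 0 < ht δ.1 := hδpos
        omega
      rw [h3, mul_zero]
    · rw [m1 i γ, zero_mul]
  have hLs : ∑ a, (u : Matrix C.Idx C.Idx F) (Sum.inl i) a * (ν : Matrix C.Idx C.Idx F) a (Sum.inr δ) =
      (u : Matrix C.Idx C.Idx F) (Sum.inl i) (Sum.inr (-β)) *
        (ν : Matrix C.Idx C.Idx F) (Sum.inr (-β)) (Sum.inr δ) := by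
    refine Finset.sum_eq_single (Sum.inr (-β)) ?_ ?_
    · intro a _ hne
      rcases a with j | γ
      · rw [m1 j δ, mul_zero]
      · rw [m3 δ γ, mul_zero]
        rw [hwδ]
        intro h5
        exact hne (congrArg Sum.inr h5)
    · intro h5
      exact absurd (Finset.mem_univ _) h5
  rw [hLs, hR] at e2
  have h6 := m4 δ
  rw [hwδ] at h6
  exact hi ((mul_eq_zero.1 e2).resolve_right h6)

end SLC

end Pool.Agent.H75.UL
end

section
/- module Pool.Agent.H75.UK.K9b -/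
/-!
# Project UK, module K9b: the bijection of orbits

`f i t : POrb → L`: let `m_i` be the number of `exists_max_U` for `{y i t | t}`, and
`f i t q = kap q.out (y i t)` if `ht q.out = m_i`, `0` otherwise. It is additive (`kap_mul`), for some `t`
not zero: some `kap β (y i t) ≠ 0`, `ht β = m_i`, and `β` is in the orbit of `q.out`, `q` its class,
`kap_sgl` along the orbit (`y i t` is fixed, `sg ≠ 0`; `r_ht`). `kap_conj`:
`f i (a i τ * t) q = chi_q (tt τ) * f i t q`. (1) If `f i t q ≠ 0`, `f j t' q ≠ 0` then `i = j`: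
otherwise take `τ` with `a i τ = 1`, `a j τ ≠ 1`: `chi_q (tt τ) = 1`, so `f j ((a j τ - 1) t'') q = 0` for
all `t''`, contradiction with `t'' = (a j τ - 1)⁻¹ t'`. (2) So a choice `O i` of `q` with `f i t q ≠ 0`
is injective, so bijective as the cardinalities are equal. (3) `chi_{O i} (tt τ) = 1` iff `a i τ = 1`:
`f i (a i τ t) = chi f i t` at `O i`; if `a i τ = 1` take `t` with value `≠ 0`; if `chi = 1` then
`f i ((a i τ - 1) t) = 0` for all `t`, so `a i τ = 1`.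
`orbit_inv`: `g = b ν b'` (`bruhat`, `gen_adS`), `ν` acting by `w ∈ W` (`N_acts`). `w` commutes with `rE`:
`σ g = g`: `σ b σ ν σ b' = b ν b'`, `bruhat_unique` (D8u). For `i ≠ i₀`: `u = b⁻¹ (y i t) b ∈ U`, `ν⁻¹ u ν =
b' (g⁻¹ (y i t) g) b'⁻¹ ∈ U 1`, `kap_{O i} u ≠ 0` for some `t` (`kap_conj`, `chi_ne_zero`); `kap_N`: `w⁻¹ (O i).out`
is positive. So for every positive `β` with `w⁻¹ β` negative, `β` is in the orbit `O i₀` (`O` is
surjective; `w⁻¹` commutes with `r` and `r` preserves positive roots). If `w = 1` then `ν ∈ T`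
(`N_one`), `g` is upper triangular in `Gad`, `chi (g x g⁻¹) = chi x` for upper triangular `x ∈ Gad`
(`chi_mul`), so `chi_{O i₀} (tt τ) = chi_{O i₀} (tt τ')`, so (`hτ2`: `tt τ'' = tt τ⁻¹ * tt τ'`)
`chi_{O i₀} (tt τ'') = 1`, contradiction with `a i₀ τ'' ≠ 1`. So `w ≠ 1`, `w⁻¹ ≠ 1`, by `eq_one_of_pos` there is
`j` with `w⁻¹ α_j` negative.
-/

set_option autoImplicit false
open Matrix
universe u
namespace Pool.Agent.H75.UL

section
variable {n : ℕ} {C : SLC n} (D : Dg C) {L : Type*} [Field L]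

/-- Additive one-parameter subgroups with pairwise different characters in `U`, as many as orbits. -/
structure Fam {k T ι : Type*} [Field k] (a : ι → T → k) (tt : T → GL C.Idx L)
    (y : ι → k → GL C.Idx L) : Prop where
  ttG : ∀ τ, tt τ ∈ C.Gad L
  tt0 : ∀ τ, C.Fil 0 (tt τ : Matrix C.Idx C.Idx L)
  yU : ∀ i t, y i t ∈ (C.adS L).U 1
  yf : ∀ i t, D.sgl (RingEquiv.refl L) (y i t) = y i t
  ya : ∀ i s t, y i (s + t) = y i s * y i t
  y1 : ∀ i, ∃ t, y i t ≠ 1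
  yT : ∀ i τ t, tt τ * y i t * (tt τ)⁻¹ = y i (a i τ * t)
  hs : ∀ i j, i ≠ j → ∃ τ, a i τ = 1 ∧ a j τ ≠ 1

/-- The orbit `q` belongs to the index `i`. -/
def Occ {k T ι : Type*} [Field k] (a : ι → T → k) (tt : T → GL C.Idx L)
    (y : ι → k → GL C.Idx L) (i : ι) (β : C.Root) : Prop :=
  (∀ t, y i t ∈ (C.adS L).U (ht β.1)) ∧ (∃ t, C.kap β (y i t : Matrix C.Idx C.Idx L) ≠ 0) ∧
    ∀ τ, C.chi (tt τ : Matrix C.Idx C.Idx L) β = 1 ↔ a i τ = 1

/-- A property invariant under `r` is invariant along the orbits. -/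
private theorem K9b_orb (P : C.Root → Prop) (hP : ∀ β, P (D.r β) ↔ P β) {β γ : C.Root}
    (h : D.rE.SameCycle β γ) : P β ↔ P γ := by
  obtain ⟨k, rfl⟩ := h
  let G : Subgroup (Equiv.Perm C.Root) :=
    { carrier := {g | ∀ δ, P (g δ) ↔ P δ}
      mul_mem' := fun {a b} ha hb δ => (ha (b δ)).trans (hb δ)
      one_mem' := fun δ => Iff.rfl
      inv_mem' := fun {a} ha δ => by
        have h1 := ha (a⁻¹ δ)
        rw [← Equiv.Perm.mul_apply, mul_inv_cancel, Equiv.Perm.one_apply] at h1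
        exact h1.symm }
  have h1 : D.rE ∈ G := fun δ => hP δ
  exact ((G.zpow_mem h1 k) β).symm

private theorem K9b_y0 {k T ι : Type*} [Field k] {a : ι → T → k} {tt : T → GL C.Idx L}
    {y : ι → k → GL C.Idx L} (h : Fam D a tt y) (i : ι) : y i 0 = 1 := by
  have h1 := h.ya i 0 0
  rw [add_zero] at h1
  exact (mul_eq_left.mp h1.symm)

/-- `kap` of the elements `y i t`, along an orbit. -/
private theorem K9b_kap_r {k T ι : Type*} [Field k] {a : ι → T → k} {tt : T → GL C.Idx L}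
    {y : ι → k → GL C.Idx L} (h : Fam D a tt y) (m : ℤ) (hm : 1 ≤ m) (i : ι) (t : k)
    (hy : y i t ∈ (C.adS L).U m) (β : C.Root) :
    (ht (D.r β).1 = m ∧ C.kap (D.r β) (y i t : Matrix C.Idx C.Idx L) ≠ 0) ↔
      (ht β.1 = m ∧ C.kap β (y i t : Matrix C.Idx C.Idx L) ≠ 0) := by
  rw [D.r_ht]
  refine and_congr_right fun hβ => ?_
  have h1 := C.kap_sgl D (RingEquiv.refl L) m hm (y i t) hy β hβ
  rw [h.yf i t] at h1
  rw [h1, RingEquiv.refl_apply]
  have h2 : (D.sg β : L) ≠ 0 := by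
    rcases D.sg_eq β with h3 | h3 <;> rw [h3] <;> simp
  exact ⟨fun h4 h5 => h4 (by rw [h5, mul_zero]), fun h4 => mul_ne_zero h2 h4⟩

/-- Equivariance. -/
private theorem K9b_eq {k T ι : Type*} [Field k] {a : ι → T → k} {tt : T → GL C.Idx L}
    {y : ι → k → GL C.Idx L} (h : Fam D a tt y) (m : ℤ) (hm : 1 ≤ m) (i : ι) (t : k) (τ : T)
    (hy : y i t ∈ (C.adS L).U m) (β : C.Root) (hβ : ht β.1 = m) :
    C.kap β (y i (a i τ * t) : Matrix C.Idx C.Idx L) =
      C.chi (tt τ : Matrix C.Idx C.Idx L) β * C.kap β (y i t : Matrix C.Idx C.Idx L) := by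
  have h1 := (C.kap_conj m hm (tt τ) (y i t) (h.ttG τ) (h.tt0 τ) hy β hβ).2
  rw [h.yT i τ t] at h1
  exact h1

/-- If `chi = 1` and some coordinate is not zero then `a i τ = 1`. -/
private theorem K9b_chi {k T ι : Type*} [Field k] {a : ι → T → k} {tt : T → GL C.Idx L}
    {y : ι → k → GL C.Idx L} (h : Fam D a tt y) (m : ℤ) (hm : 1 ≤ m) (i : ι) (τ : T)
    (hy : ∀ t, y i t ∈ (C.adS L).U m) (β : C.Root) (hβ : ht β.1 = m)
    (hk : ∃ t, C.kap β (y i t : Matrix C.Idx C.Idx L) ≠ 0) :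
    C.chi (tt τ : Matrix C.Idx C.Idx L) β = 1 ↔ a i τ = 1 := by
  constructor
  · intro hc
    by_contra hne
    have hne' : a i τ - 1 ≠ 0 := sub_ne_zero.mpr hne
    obtain ⟨t, ht⟩ := hk
    apply ht
    have h1 := K9b_eq D h m hm i ((a i τ - 1)⁻¹ * t) τ (hy _) β hβ
    rw [hc, one_mul] at h1
    have e1 : a i τ * ((a i τ - 1)⁻¹ * t) = (a i τ - 1)⁻¹ * t + t := by
      have e2 : a i τ * ((a i τ - 1)⁻¹ * t) = ((a i τ - 1) * (a i τ - 1)⁻¹) * t +
        (a i τ - 1)⁻¹ * t := by ring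
      rw [e2, mul_inv_cancel₀ hne', one_mul, add_comm]
    rw [e1, h.ya, C.kap_mul m hm _ _ (hy _) (hy _) β hβ] at h1
    exact left_eq_add.mp h1.symm
  · intro ha
    obtain ⟨t, ht⟩ := hk
    have h1 := K9b_eq D h m hm i t τ (hy _) β hβ
    rw [ha, one_mul] at h1
    have h2 : (C.chi (tt τ : Matrix C.Idx C.Idx L) β - 1) *
        C.kap β (y i t : Matrix C.Idx C.Idx L) = 0 := by
      rw [sub_mul, one_mul, ← h1, sub_self]
    exact sub_eq_zero.mp ((mul_eq_zero.mp h2).resolve_right ht)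

theorem exists_occ {k T ι : Type*} [Field k] [Finite ι] {a : ι → T → k} {tt : T → GL C.Idx L}
    {y : ι → k → GL C.Idx L} (h : Fam D a tt y) (hcard : Nat.card D.POrb = Nat.card ι) :
    ∃ O : ι ≃ D.POrb, ∀ i, Occ a tt y i (Quotient.out (O i).1) := by
  have key : ∀ i, ∃ m : ℤ, 1 ≤ m ∧ (∀ t, y i t ∈ (C.adS L).U m) ∧ ∃ q : D.POrb,
      ht (Quotient.out q.1).1 = m ∧
        ∃ t, C.kap (Quotient.out q.1) (y i t : Matrix C.Idx C.Idx L) ≠ 0 := by
    intro i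
    obtain ⟨m, hm, hU, u, ⟨t, rfl⟩, β, hβ, hk⟩ := C.exists_max_U (Set.range (y i))
      (by rintro _ ⟨t, rfl⟩; exact h.yU i t)
      (by obtain ⟨t, ht⟩ := h.y1 i; exact ⟨_, ⟨t, rfl⟩, ht⟩)
    have hU' : ∀ t, y i t ∈ (C.adS L).U m := fun t => hU _ ⟨t, rfl⟩
    refine ⟨m, hm, hU', ?_⟩
    set q : Quotient (Equiv.Perm.SameCycle.setoid D.rE) := Quotient.mk _ β with hq
    have h1 : D.rE.SameCycle (Quotient.out q) β := Quotient.exact (Quotient.out_eq q)
    have h2 := (K9b_orb D (fun β => ht β.1 = m ∧ C.kap β (y i t : Matrix C.Idx C.Idx L) ≠ 0)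
      (fun β => K9b_kap_r D h m hm i t (hU' t) β) h1).mpr ⟨hβ, hk⟩
    refine ⟨⟨q, ?_⟩, h2.1, t, h2.2⟩
    show 0 < ht (Quotient.out q).1
    rw [h2.1]
    omega
  choose m hm hU q hq hk using key
  have hinj : Function.Injective q := by
    intro i j hij
    by_contra hne
    obtain ⟨τ, h1, h2⟩ := h.hs i j hne
    have h3 := (K9b_chi D h (m i) (hm i) i τ (hU i) _ (hq i) (hk i)).mpr h1
    rw [hij] at h3
    exact h2 ((K9b_chi D h (m j) (hm j) j τ (hU j) _ (hq j) (hk j)).mp h3)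
  have hbij : Function.Bijective q := hinj.bijective_of_nat_card_le hcard.le
  refine ⟨Equiv.ofBijective q hbij, fun i => ⟨fun t => ?_, hk i, fun τ => ?_⟩⟩
  · show y i t ∈ (C.adS L).U (ht (Quotient.out (q i).1).1)
    rw [hq i]
    exact hU i t
  · exact K9b_chi D h (m i) (hm i) i τ (hU i) _ (hq i) (hk i)

theorem orbit_inv {k T ι : Type*} [Field k] [Finite ι] {a : ι → T → k} {tt : T → GL C.Idx L}
    {y : ι → k → GL C.Idx L} (h : Fam D a tt y) (O : ι ≃ D.POrb)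
    (hO : ∀ i, Occ a tt y i (Quotient.out (O i).1)) (i₀ : ι) (g : GL C.Idx L) (hg : g ∈ C.Gad L)
    (hgf : D.sgl (RingEquiv.refl L) g = g)
    (hgy : ∀ i, i ≠ i₀ → ∀ t, g⁻¹ * y i t * g ∈ (C.adS L).U 1)
    (hτ : ∃ τ τ' τ'', g * tt τ * g⁻¹ = tt τ' ∧ tt τ * tt τ'' = tt τ' ∧ a i₀ τ'' ≠ 1) :
    ∃ j : Fin n, D.rE.SameCycle (Quotient.out (O i₀).1) (C.simple j) := by
  have hg' := hg
  rw [← C.gen_adS L] at hg'
  obtain ⟨b, hb, ν, hν, b', hb', hgb⟩ := (C.adS L).bruhat g hg'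
  obtain ⟨w, hw, ha, hT⟩ := (C.adS L).N_acts ν hν
  have hUG : ∀ u ∈ (C.adS L).U 1, u ∈ C.Gad L := fun u hu => by
    rw [← C.gen_adS L]
    exact (C.adS L).U_le_gen 1 hu
  have hsig := isSig_adS D (F := L) (RingEquiv.refl L)
  -- `w` commutes with `rE`
  have hcomm : w = D.rE * w * D.rE⁻¹ := by
    have hc : D.sgl (RingEquiv.refl L) b' * b'⁻¹ ∈ (C.adS L).U 1 :=
      Subgroup.mul_mem _ (hsig.map_U 1 b' hb') (Subgroup.inv_mem _ hb')
    refine bruhat_unique b (D.sgl (RingEquiv.refl L) b) ν (D.sgl (RingEquiv.refl L) ν)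
      (D.sgl (RingEquiv.refl L) b' * b'⁻¹) w (D.rE * w * D.rE⁻¹) hb (hsig.map_U 1 b hb) hν
      (hsig.map_N ν hν) ha (hsig.acts ν w ha) (hUG _ hc) (C.Fil_U_zero _ hc) ?_
    have e1 : D.sgl (RingEquiv.refl L) b * D.sgl (RingEquiv.refl L) ν *
        D.sgl (RingEquiv.refl L) b' = g := by
      rw [← _root_.map_mul, ← _root_.map_mul, ← hgb, hgf]
    rw [← mul_assoc, e1, hgb]
    group
  have hcomm1 : ∀ β, w⁻¹ (D.r β) = D.r (w⁻¹ β) := by
    intro β
    have h1 : w * D.rE = D.rE * w := by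
      conv_lhs => rw [hcomm]
      group
    have h2 : w (D.r (w⁻¹ β)) = D.r β := by
      have h3 := congrArg (fun p : Equiv.Perm C.Root => p (w⁻¹ β)) h1
      simp only [Equiv.Perm.mul_apply, Dg.rE_apply] at h3
      rw [h3]
      congr 1
      rw [← Equiv.Perm.mul_apply, mul_inv_cancel, Equiv.Perm.one_apply]
    rw [← h2, ← Equiv.Perm.mul_apply, inv_mul_cancel, Equiv.Perm.one_apply]
  have hinv : ∀ β γ, D.rE.SameCycle β γ → (C.Pos (w⁻¹ β) ↔ C.Pos (w⁻¹ γ)) := by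
    intro β γ h1
    refine K9b_orb D (fun β => C.Pos (w⁻¹ β)) (fun β => ?_) h1
    rw [hcomm1]
    exact D.r_pos _
  -- the other orbits stay positive
  have hpos : ∀ i, i ≠ i₀ → C.Pos (w⁻¹ (Quotient.out (O i).1)) := by
    intro i hi
    obtain ⟨h1, ⟨t, h2⟩, -⟩ := hO i
    have hm : 1 ≤ ht (Quotient.out (O i).1).1 := (O i).2
    have h3 := C.kap_conj (ht (Quotient.out (O i).1).1) hm b⁻¹ (y i t)
      (hUG _ (Subgroup.inv_mem _ hb)) (C.Fil_U_zero _ (Subgroup.inv_mem _ hb)) (h1 t) _ rfl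
    have h4 : C.kap (Quotient.out (O i).1) ((b⁻¹ * y i t * b⁻¹⁻¹ : GL C.Idx L) :
        Matrix C.Idx C.Idx L) ≠ 0 := by
      rw [h3.2]
      exact mul_ne_zero (C.chi_ne_zero _ (hUG _ (Subgroup.inv_mem _ hb))
        (C.Fil_U_zero _ (Subgroup.inv_mem _ hb)) _) h2
    refine C.kap_N ν w hν ha (b⁻¹ * y i t * b⁻¹⁻¹) ?_ _ h4
    have e1 : ν⁻¹ * (b⁻¹ * y i t * b⁻¹⁻¹) * ν = b' * (g⁻¹ * y i t * g) * b'⁻¹ := by
      rw [hgb]
      group
    rw [e1]
    exact Subgroup.mul_mem _ (Subgroup.mul_mem _ hb' (hgy i hi t)) (Subgroup.inv_mem _ hb')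
  -- `w` is not `1`
  have hw1 : w ≠ 1 := by
    intro hw1
    have hg0 : C.Fil 0 (g : Matrix C.Idx C.Idx L) := by
      rw [hgb, Units.val_mul, Units.val_mul]
      have h1 := C.Fil_mul (C.Fil_mul (C.Fil_U_zero _ hb) (C.Fil_T _ (hT hw1)))
        (C.Fil_U_zero _ hb')
      simpa using h1
    obtain ⟨τ, τ', τ'', h1, h2, h3⟩ := hτ
    have h4 := C.upper_inv g hg hg0
    have h00 : ∀ M N : Matrix C.Idx C.Idx L, C.Fil 0 M → C.Fil 0 N → C.Fil 0 (M * N) := by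
      intro M N hM hN
      have h5 := C.Fil_mul hM hN
      rwa [add_zero] at h5
    set β : C.Root := Quotient.out (O i₀).1 with hβ
    have h5 : C.chi ((g * tt τ * g⁻¹ : GL C.Idx L) : Matrix C.Idx C.Idx L) β =
        C.chi (tt τ : Matrix C.Idx C.Idx L) β := by
      have e1 := C.chi_mul (g * tt τ) g⁻¹ (Subgroup.mul_mem _ hg (h.ttG τ))
        (Subgroup.inv_mem _ hg) (by rw [Units.val_mul]; exact h00 _ _ hg0 (h.tt0 τ)) h4 β
      have e2 := C.chi_mul g (tt τ) hg (h.ttG τ) hg0 (h.tt0 τ) β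
      have e3 := C.chi_mul g g⁻¹ hg (Subgroup.inv_mem _ hg) hg0 h4 β
      have e4 : C.chi ((g * g⁻¹ : GL C.Idx L) : Matrix C.Idx C.Idx L) β = 1 := by
        rw [mul_inv_cancel]
        unfold SLC.chi
        rw [Units.val_one, Matrix.one_apply_eq]
      rw [e4] at e3
      rw [e1, e2]
      linear_combination -(C.chi (tt τ : Matrix C.Idx C.Idx L) β) * e3
    rw [h1, ← h2, C.chi_mul _ _ (h.ttG τ) (h.ttG τ'') (h.tt0 τ) (h.tt0 τ'')] at h5
    have h6 : C.chi (tt τ'' : Matrix C.Idx C.Idx L) β = 1 :=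
      mul_left_cancel₀ (C.chi_ne_zero _ (h.ttG τ) (h.tt0 τ) β) (by rw [h5, mul_one])
    exact h3 (((hO i₀).2.2 τ'').mp h6)
  have hex : ∃ j, ¬ C.Pos (w⁻¹ (C.simple j)) := by
    by_contra hcon
    push Not at hcon
    exact hw1 (inv_eq_one.mp (C.eq_one_of_pos w⁻¹ (Subgroup.inv_mem _ hw) hcon))
  obtain ⟨j, hj⟩ := hex
  refine ⟨j, ?_⟩
  set q : Quotient (Equiv.Perm.SameCycle.setoid D.rE) := Quotient.mk _ (C.simple j) with hq
  have h1 : D.rE.SameCycle (Quotient.out q) (C.simple j) := Quotient.exact (Quotient.out_eq q)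
  have h2 : C.Pos (Quotient.out q) :=
    (K9b_orb D (fun β => C.Pos β) (fun β => D.r_pos β) h1).mpr (C.simple_pos j)
  obtain ⟨i, hi⟩ := O.surjective ⟨q, h2⟩
  have h3 : i = i₀ := by
    by_contra hne
    have h4 := hpos i hne
    rw [hi] at h4
    exact hj ((hinv _ _ h1).mp h4)
  rw [← h3, hi]
  exact h1

end

end Pool.Agent.H75.UL
end
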