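import Pool.Agent.H86.AL.M04
import Pool.Agent.H86.AL.M13
import Pool.Agent.H86.AL.M15
import Pool.Agent.H86.AL.M16

/-!
# M19: collected modules

Pool.Agent.H86.UM.WD
Pool.Agent.H86.UM.EX3
Pool.Agent.H86.UM.FC0
Pool.Agent.H86.UM.FCa
-/

section
/- module Pool.Agent.H86.UM.WD -/
/-!
# Project UM, module WD: a word in the Steinberg case

`θ` has order exactly `m` on `k`. Let `G` be the set of the vectors `v` supported on one orbit of `ρ` with
`v (ρ i) = θ (v i)`; by `span_twisted` (`m = D.m = orderOf ρ`; orbits have one or `m` elements by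
`r_iter_eq`, `r_iter_simple`) `G` spans `k^n`. `exists_word` gives `v₀` and `l`. For `v ∈ G`, `v ≠ 0`, supported on
the orbit `J`, `v (J.out)` determines `v`, and by `fixX_xi_exists`, `fixX_xi` there is `x ∈ fixX (simple J.out)`
with `xi j (p x) = v j` for all `j` (if `v = 0` take `x = 1`, any `J`). This gives `x₀`, and the list of pairs
`(J, x)`. `hocc`: by `word_occ` for `j = J.out` some entry `v` has `v j ≠ 0`, so its orbit is `J` (choose the
orbit of an entry `v` by its support; entries are not zero, since otherwise `iad = 0`).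
`p w.elt ≠ 1`: `p (icomm ..) = icomm (p ..) ..` (`P1_icomm_map`; the inclusion of `Eg S s` is also a
homomorphism), `icomm_ne_one`, where `ld (p x) = vm C v` as the `xi j` agree.
`w.elt` is not central: it is in `S.U (ht θr)` (commutators of elements of `S.U a` and `S.U b` are in
`S.U (a + b)`), so equal to `x_θr(t)` (`exists_lp`, `IsHighest`; or work in the adjoint group with `icomm_mem_U`,
`mem_U_of_Fil`), and `t ≠ 0`; `exists_tor` with an invariant `v` with `ip v β = N * ht β` (`N ≠ 0`; see UNI.lean and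
SR.lean) and `c ∈ fixF θ` with `c ^ (N * ht θr) ≠ 1` (`SR_k0_inf`) gives `τ ∈ Eg` with
`τ x_θr(t) τ⁻¹ = x_θr(c ^ .. * t) ≠ x_θr(t)` (apply `p`, `xg_inj`).
-/

set_option autoImplicit false
open Matrix

namespace Pool.Agent.H86.UM

open Pool.Agent.H75.UL

variable {n : ℕ} {C : SLC n} {D : Dg C} {k : Type*} [Field k] {θ : k ≃+* k} {H : Type*} [Group H]
  {S : StSys C k H} {s : H →* H} {p : H →* GL C.Idx k}

private theorem WD_iter (θ : k ≃+* k) (l : ℕ) (t : k) : (θ ^ l) t = (⇑θ)^[l] t := by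
  induction l with
  | zero => rfl
  | succ l ih =>
    rw [pow_succ', Function.iterate_succ_apply', ← ih]
    rfl

private theorem WD_span (he : Env D θ S s p)
    (hord : ∀ l, 0 < l → l < D.m → ∃ t, (⇑θ)^[l] t ≠ t) :
    Submodule.span k {v : Fin n → k | (∃ j, ∀ i, v i ≠ 0 → ∃ a : ℕ, i = (D.ρ ^ a) j) ∧
      ∀ i, v (D.ρ i) = θ (v i)} = ⊤ := by
  refine span_twisted θ D.ρ D.m ?_ ?_ ?_ ?_ ?_
  · rcases D.m_cases with h | h | h <;> omega
  · ext t
    rw [WD_iter, he.hθ]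
    rfl
  · intro l h0 hl h
    obtain ⟨t, ht⟩ := hord l h0 hl
    apply ht
    rw [← WD_iter, h]
    rfl
  · exact pow_orderOf_eq_one _
  · intro j hj l h0 hl h
    have h1 : D.r (C.simple j) ≠ C.simple j := by
      rw [D.r_simple]
      exact fun h => hj (C.simple_injective h)
    have h2 := D.r_iter_eq (C.simple j) h1 l 0 hl (by omega) (by
      rw [D.r_iter_simple, h]
      rfl)
    omega

/-- a vector of `G` is the vector of coordinates of an element of a simple root group -/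
private theorem WD_exists (he : Env D θ S s p) (v : Fin n → k)
    (hv1 : ∃ j, ∀ i, v i ≠ 0 → ∃ a : ℕ, i = (D.ρ ^ a) j)
    (hv2 : ∀ i, v (D.ρ i) = θ (v i)) :
    ∃ (J : D.Orb) (x : Eg S s), x ∈ (srcOf he).X J ∧
      C.ld (p (x : H) : Matrix C.Idx C.Idx k) = vm C v ∧
      ∀ j, v j ≠ 0 → (Quotient.mk (Equiv.Perm.SameCycle.setoid D.ρ) j) = J := by
  obtain ⟨j, hj⟩ := hv1
  obtain ⟨J, hJ⟩ : ∃ J : D.Orb, J = Quotient.mk (Equiv.Perm.SameCycle.setoid D.ρ) j := ⟨_, rfl⟩
  obtain ⟨i, hi⟩ : ∃ i, i = Quotient.out J := ⟨_, rfl⟩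
  have hij : D.ρ.SameCycle i j := by
    have h1 := Quotient.out_eq J
    rw [← hi, hJ] at h1
    exact Quotient.exact h1
  have hit : ∀ l : ℕ, v ((D.ρ ^ l) i) = (⇑θ)^[l] (v i) := by
    intro l
    induction l with
    | zero => rfl
    | succ l ih => rw [pow_succ', Equiv.Perm.mul_apply, hv2, ih, Function.iterate_succ_apply']
  obtain ⟨x, hx, hxt⟩ := fixX_xi_exists he i (v i) (by
    intro h
    rw [← hv2, h])
  obtain ⟨hx1, hx2⟩ := fixX_xi he i x hx
  have hxE : x ∈ Eg S s :=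
    Subgroup.mem_sup_left (fixX_le_fixU S s (C.simple i) (C.simple_pos i) hx)
  have hxi : ∀ j', C.xi j' (p x : Matrix C.Idx C.Idx k) = v j' := by
    intro j'
    by_cases h : D.ρ.SameCycle i j'
    · obtain ⟨l, hl⟩ := h.exists_nat_pow_eq
      rw [← hl, hx1, hxt, hit]
    · rw [hx2 j' h]
      by_contra h0
      obtain ⟨a, ha⟩ := hj j' (Ne.symm h0)
      apply h
      rw [ha]
      exact hij.trans ⟨(a : ℤ), by rw [zpow_natCast]⟩
  refine ⟨J, ⟨x, hxE⟩, ?_, ?_, ?_⟩
  · show x ∈ fixX D S s (C.simple (Quotient.out J))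
    rw [← hi]
    exact hx
  · show C.ld (p x : Matrix C.Idx C.Idx k) = vm C v
    unfold SLC.ld vm
    exact Finset.sum_congr rfl fun j' _ => by rw [hxi]
  · intro j' h0
    obtain ⟨a, ha⟩ := hj j' h0
    rw [hJ]
    apply Quotient.sound
    show D.ρ.SameCycle j' j
    rw [ha]
    exact Equiv.Perm.SameCycle.symm ⟨(a : ℤ), by rw [zpow_natCast]⟩

private theorem WD_list (he : Env D θ S s p) (l : List (Fin n → k))
    (hl : ∀ v ∈ l, (∃ j, ∀ i, v i ≠ 0 → ∃ a : ℕ, i = (D.ρ ^ a) j) ∧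
      ∀ i, v (D.ρ i) = θ (v i)) :
    ∃ L : List (D.Orb × Eg S s), (∀ q ∈ L, q.2 ∈ (srcOf he).X q.1) ∧ L.length = l.length ∧
      (L.map fun q => C.ld (p (q.2 : H) : Matrix C.Idx C.Idx k)) = l.map (vm C) ∧
      ∀ v ∈ l, ∃ q ∈ L, ∀ j, v j ≠ 0 →
        (Quotient.mk (Equiv.Perm.SameCycle.setoid D.ρ) j) = q.1 := by
  induction l with
  | nil => exact ⟨[], by simp, rfl, rfl, by simp⟩
  | cons v l ih =>
    obtain ⟨L, h1, h2, h3, h4⟩ := ih fun v hv => hl v (List.mem_cons_of_mem _ hv)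
    obtain ⟨hv1, hv2⟩ := hl v List.mem_cons_self
    obtain ⟨J, x, hx, hx1, hx2⟩ := WD_exists he v hv1 hv2
    refine ⟨(J, x) :: L, ?_, ?_, ?_, ?_⟩
    · intro q hq
      rcases List.mem_cons.1 hq with rfl | hq
      · exact hx
      · exact h1 q hq
    · rw [List.length_cons, List.length_cons, h2]
    · rw [List.map_cons, List.map_cons, h3, hx1]
    · intro w hw
      rcases List.mem_cons.1 hw with rfl | hw
      · exact ⟨(J, x), List.mem_cons_self, hx2⟩
      · obtain ⟨q, hq, hq'⟩ := h4 w hw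
        exact ⟨q, List.mem_cons_of_mem _ hq, hq'⟩

/-- an invariant vector dual to the height -/
private theorem WD_dual (D : Dg C) : ∃ v : Fin n → ℤ, SLC.lmap D.ρ v = v ∧
    ∀ w, C.ip v w = C.A.det * ht w := by
  choose y hy using C.exists_dual
  obtain ⟨v, hv⟩ : ∃ v : Fin n → ℤ, v = ∑ j, y j := ⟨_, rfl⟩
  have h1 : ∀ w, C.ip w v = C.A.det * ht w := by
    intro w
    have h2 : ∀ (T : Finset (Fin n)), C.ip w (∑ j ∈ T, y j) = ∑ j ∈ T, C.A.det * w j := by
      intro T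
      induction T using Finset.induction_on with
      | empty => rw [Finset.sum_empty, Finset.sum_empty, C.ip_zero_right]
      | insert a T ha ih => rw [Finset.sum_insert ha, Finset.sum_insert ha, C.ip_add_right, ih, hy]
    rw [hv, h2, ← Finset.mul_sum]
    rfl
  refine ⟨v, ?_, fun w => by rw [C.ip_comm, h1]⟩
  have h3 : ∀ w, C.ip w (SLC.lmap D.ρ v) = C.A.det * ht w := by
    intro w
    have h4 : SLC.lmap D.ρ (SLC.lmap D.ρ.symm w) = w := by
      funext i
      show w (D.ρ.symm.symm (D.ρ.symm i)) = w i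
      rw [Equiv.symm_symm, Equiv.apply_symm_apply]
    have h5 : ht (SLC.lmap D.ρ.symm w) = ht w := by
      unfold ht
      exact Equiv.sum_comp D.ρ.symm.symm w
    have h6 := C.ip_lmap D.ρ D.hρ (SLC.lmap D.ρ.symm w) v
    rw [h4, h1, h5] at h6
    exact h6
  by_contra hne
  have h7 : SLC.lmap D.ρ v - v ≠ 0 := sub_ne_zero.2 hne
  have h8 := C.ip_pos _ h7
  rw [C.ip_sub_right, h3, h1] at h8
  omega

private theorem WD_top (C : SLC n) (k : Type*) [Field k] (θr : C.Root) (hθr : C.IsHighest θr)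
    (u : GL C.Idx k) (hu : u ∈ (C.adS k).U (ht θr.1)) : ∃ c, u = C.xg k θr c := by
  unfold StSys.U at hu
  induction hu using Subgroup.closure_induction with
  | mem g hg =>
    obtain ⟨β, t, hβ, rfl⟩ := hg
    have h1 := hθr.uniq β (le_antisymm (hθr.le β) hβ)
    subst h1
    exact ⟨t, rfl⟩
  | one => exact ⟨0, ((C.adS k).x_zero θr).symm⟩
  | mul x y _ _ hx hy =>
    obtain ⟨c, rfl⟩ := hx
    obtain ⟨d, rfl⟩ := hy
    exact ⟨c + d, ((C.adS k).map_add θr c d).symm⟩
  | inv x _ hx =>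
    obtain ⟨c, rfl⟩ := hx
    exact ⟨-c, ((C.adS k).x_neg θr c).symm⟩

private theorem WD_coe (l : List (GL C.Idx k)) :
    (l >>= fun a => pure (a : Matrix C.Idx C.Idx k)) =
      l.map (fun h : GL C.Idx k => (h : Matrix C.Idx C.Idx k)) := by
  simp [List.map_eq_flatMap]

/-- an element of the highest root group is not central -/
private theorem WD_central (he : Env D θ S s p) (θr : C.Root) (hθr : C.IsHighest θr)
    (hn : 0 < n) (x : Eg S s) (c : k) (hc : c ≠ 0) (hx : p (x : H) = C.xg k θr c) :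
    x ∉ Subgroup.center (Eg S s) := by
  classical
  intro hcen
  obtain ⟨v, hv, hv2⟩ := WD_dual D
  have := SR_k0_inf he
  have hht : 1 ≤ ht θr.1 := by
    have h := hθr.le (C.simple ⟨0, hn⟩)
    rwa [C.ht_simple] at h
  have he0 : C.ip v θr.1 ≠ 0 := by
    rw [hv2]
    exact mul_ne_zero C.det_ne_zero (by omega)
  obtain ⟨c₀, hc0, hc1⟩ : ∃ c₀ : fixF θ, c₀ ≠ 0 ∧ c₀ ^ (C.ip v θr.1).natAbs ≠ 1 := by
    obtain ⟨c₀, h0⟩ := Infinite.exists_notMem_finset
      ((Polynomial.X * (Polynomial.X ^ (C.ip v θr.1).natAbs - 1) :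
        Polynomial (fixF θ)).roots.toFinset)
    have hne : (Polynomial.X * (Polynomial.X ^ (C.ip v θr.1).natAbs - 1) :
        Polynomial (fixF θ)) ≠ 0 :=
      mul_ne_zero Polynomial.X_ne_zero
        (Polynomial.X_pow_sub_C_ne_zero (Int.natAbs_pos.2 he0) 1)
    rw [Multiset.mem_toFinset, Polynomial.mem_roots hne, Polynomial.IsRoot.def,
      Polynomial.eval_mul, mul_eq_zero, not_or] at h0
    refine ⟨c₀, ?_, ?_⟩
    · simpa using h0.1
    · intro h1
      apply h0.2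
      rw [Polynomial.eval_sub, Polynomial.eval_pow, Polynomial.eval_X, Polynomial.eval_one, h1,
        sub_self]
  have hc0' : (c₀ : k) ≠ 0 := fun h => hc0 (Subtype.ext h)
  obtain ⟨τ, hτ, hτ2⟩ := exists_tor he.sig he.hθ he.hA v hv (c₀ : k) hc0' c₀.2
  have h1 : (⟨τ, hτ.2⟩ : Eg S s) * x = x * ⟨τ, hτ.2⟩ := by
    have h2 := Subgroup.mem_center_iff.1 hcen ⟨τ, hτ.2⟩
    exact h2
  have h2 : τ * (x : H) = (x : H) * τ := congrArg Subtype.val h1
  have h3 : p τ * C.xg k θr c * (p τ)⁻¹ = C.xg k θr c := by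
    rw [← hx, ← map_mul, h2, map_mul, mul_inv_cancel_right]
  have h4 := congrArg p (hτ2 θr c)
  rw [map_mul, map_mul, map_inv, he.hp, he.hp, h3] at h4
  have h5 := (C.xg_inj θr θr c _ hc h4).2
  have h6 : (c₀ : k) ^ C.ip v θr.1 = 1 := by
    have h7 : (c₀ : k) ^ C.ip v θr.1 * c = 1 * c := by rw [one_mul]; exact h5.symm
    exact mul_right_cancel₀ hc h7
  apply hc1
  apply Subtype.ext
  show (c₀ : k) ^ (C.ip v θr.1).natAbs = 1
  rcases Int.natAbs_eq (C.ip v θr.1) with h7 | h7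
  · rw [h7, zpow_natCast] at h6
    exact h6
  · rw [h7, _root_.zpow_neg, zpow_natCast, inv_eq_one] at h6
    exact h6

theorem exists_wordE (he : Env D θ S s p) (θr : C.Root) (hθr : C.IsHighest θr) (hn : 0 < n)
    (hord : ∀ l, 0 < l → l < D.m → ∃ t, (⇑θ)^[l] t ≠ t) :
    ∃ w : Word C θr (srcOf he), p (w.elt : Eg S s) ≠ 1 ∧
      (w.elt : Eg S s) ∉ Subgroup.center (Eg S s) := by
  obtain ⟨v₀, hv₀, l, hl, hlen, hne⟩ := exists_word C θr hθr hn _ (WD_span he hord)
  obtain ⟨J₀, x₀, hx₀, hx₀1, hx₀2⟩ := WD_exists he v₀ hv₀.1 hv₀.2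
  obtain ⟨L, hL1, hL2, hL3, hL4⟩ := WD_list he l hl
  let w : Word C θr (srcOf he) :=
    { J₀ := J₀
      x₀ := x₀
      l := L
      hx₀ := hx₀
      hl := hL1
      hlen := by rw [hL2]; exact hlen
      hocc := by
        intro J
        obtain ⟨v, hv, hvj⟩ := word_occ C θr hθr v₀ l hlen hne (Quotient.out J)
        have hJ : Quotient.mk (Equiv.Perm.SameCycle.setoid D.ρ) (Quotient.out J) = J :=
          Quotient.out_eq J
        rcases List.mem_cons.1 hv with rfl | hv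
        · left
          rw [← hJ]
          exact hx₀2 _ hvj
        · right
          obtain ⟨q, hq, hq2⟩ := hL4 v hv
          refine ⟨q, hq, ?_⟩
          rw [← hJ]
          exact (hq2 _ hvj).symm }
  let f : Eg S s →* GL C.Idx k := p.comp (Eg S s).subtype
  have hf : ∀ x : Eg S s, f x = p (x : H) := fun _ => rfl
  have hfU : ∀ J, ∀ x ∈ (srcOf he).X J, f x ∈ (C.adS k).U 1 := by
    intro J x hx
    have h1 : x ∈ (srcOf he).U := (srcOf he).X_le J hx
    have h2 : (x : H) ∈ fixU S s := h1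
    exact C.S9_U S p he.hp 1 x h2.1
  have hP : p (w.elt : Eg S s) = icomm (f x₀) ((L.map Prod.snd).map f) := by
    rw [← SLC.P1_icomm_map]
    rfl
  have hx₀U : f x₀ ∈ (C.adS k).U 1 := hfU J₀ x₀ hx₀
  have hLU : ∀ h ∈ (L.map Prod.snd).map f, h ∈ (C.adS k).U 1 := by
    intro h hh
    obtain ⟨a, ha, rfl⟩ := List.mem_map.1 hh
    obtain ⟨q, hq, rfl⟩ := List.mem_map.1 ha
    exact hfU q.1 q.2 (hL1 q hq)
  have hlen' : (((L.map Prod.snd).map f).length : ℤ) + 1 = ht θr.1 := by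
    rw [List.length_map, List.length_map, hL2]
    exact hlen
  have hmap : ((((L.map Prod.snd).map f) >>= fun a => pure (a : Matrix C.Idx C.Idx k)).map
      fun h => C.ld h) = l.map (vm C) := by
    rw [WD_coe, List.map_map, List.map_map, List.map_map]
    exact hL3
  have hne1 : p (w.elt : Eg S s) ≠ 1 := by
    rw [hP]
    refine icomm_ne_one C θr hθr _ _ hx₀U hLU hlen' ?_
    rw [hmap, hf, hx₀1]
    exact hne
  refine ⟨w, hne1, ?_⟩
  have hU1 : icomm (f x₀) ((L.map Prod.snd).map f) ∈ (C.adS k).U 1 :=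
    C.icomm_mem_U _ _ hx₀U hLU
  obtain ⟨h1, h2⟩ := C.icomm_lead (f x₀) ((L.map Prod.snd).map f) 1 le_rfl
    (C.ld (f x₀ : Matrix C.Idx C.Idx k)) (C.Fil_ld _) (C.lead_U _ hx₀U) hLU
  have e1 : (1 : ℤ) + (((L.map Prod.snd).map f).length : ℤ) = ht θr.1 := by
    rw [← hlen']
    ring
  rw [e1] at h1 h2
  have hF : C.Fil (ht θr.1)
      (((icomm (f x₀) ((L.map Prod.snd).map f) : GL C.Idx k) : Matrix C.Idx C.Idx k) - 1) := by
    have h3 := C.Fil_add (C.Fil_mono (by omega) h2) h1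
    rwa [sub_add_cancel] at h3
  have hUt := C.mem_U_of_Fil (ht θr.1) (by omega) _ hU1 hF
  obtain ⟨c, hc⟩ := WD_top C k θr hθr _ hUt
  refine WD_central he θr hθr hn w.elt c ?_ ?_
  · rintro rfl
    apply hne1
    rw [hP, hc]
    exact (C.adS k).x_zero θr
  · rw [hP, hc]

end Pool.Agent.H86.UM
end

section
/- module Pool.Agent.H86.UM.EX3 -/
/-!
# Project UM, module EX3: the exact stage

`Exact D θ' Ψ g π`: after conjugation with `g` the homomorphism `Ψ` maps the simple root group of the orbit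
`J` and its opposite into those of the orbit `π J`.

`exact_of_L`: `stage_K` (`S = srcOf he`), `sigma_stage`, `image_stage` for `cj Ψ g`; for the positive part
`fixX (simple i) = fixX (simple ⟦i⟧.out)` (`fixX_simple_congr`), which is `X ⟦i⟧`; for the negative part every
element of `fixX (- simple i)` is `ν x ν⁻¹` with `x ∈ X ⟦i⟧` by `SR_ν` (`nuJ`).
`exact_steinberg`: `L = AlgebraicClosure K`; a highest root exists (see how `IsHighest` is obtained in
H75/UL, module R3/R5 or C-modules; `n > 0`); `exists_wordE`, `uniE'`, `stage_L` (the word element is not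
killed: `hker`), `exact_of_L`.
-/

set_option autoImplicit false
open Matrix

namespace Pool.Agent.H86.UM

open Pool.Agent.H75.UL

variable {n : ℕ} {C : SLC n} {D : Dg C} {k : Type*} [Field k] {θ : k ≃+* k} {H : Type*} [Group H]
  {S : StSys C k H} {s : H →* H} {p : H →* GL C.Idx k}

/-- `Ψ` maps the simple root group of `J` into the conjugate by `g` of the one of `π J`; the same for the
opposite root groups. -/
def Exact (D : Dg C) (S : StSys C k H) (s : H →* H) {K : Type*} [Field K] (θ' : K ≃+* K)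
    (Ψ : Eg S s →* GL C.Idx K) (g : GL C.Idx K) (π : Equiv.Perm D.Orb) : Prop :=
  ∀ i i' : Fin n, (Quotient.mk _ i' : D.Orb) = π (Quotient.mk _ i) →
    (∀ x : Eg S s, (x : H) ∈ fixX D S s (C.simple i) →
      g⁻¹ * Ψ x * g ∈ fixX D (C.adS K) (D.sgl θ') (C.simple i')) ∧
    ∀ x : Eg S s, (x : H) ∈ fixX D S s (-(C.simple i)) →
      g⁻¹ * Ψ x * g ∈ fixX D (C.adS K) (D.sgl θ') (-(C.simple i'))

theorem exact_of_L (he : Env D θ S s p) {K L : Type*} [Field K] [Field L] [Algebra K L]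
    [IsAlgClosure K L] (θ' : K ≃+* K) (hθ : ∀ t, (⇑θ')^[D.m] t = t)
    (hA : D.NA ∨ ∃ e, e ≠ 0 ∧ θ' e = -e) (Ψ : Eg S s →* GL C.Idx K) (hΨ : ∀ x, Ψ x ∈ C.Gad K)
    (hσ : ∀ x, D.sgl θ' (Ψ x) = Ψ x) (g : GL C.Idx L) (hg : g ∈ C.Gad L)
    (hT : Tgt C (srcOf he) (cj ((C.mp (algebraMap K L)).comp Ψ) g))
    (hfix : ∀ σ : L ≃ₐ[K] L, C.Fil 0 ((g⁻¹ * C.mp (σ : L →+* L) g : GL C.Idx L) :
        Matrix C.Idx C.Idx L)) :
    ∃ g₁ ∈ Eg (C.adS K) (D.sgl θ'), ∃ π : Equiv.Perm D.Orb, Exact D S s θ' Ψ g₁ π := by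
  obtain ⟨g₀, hg₀, hT₀, hTT₀, fib, hf₀⟩ := stage_K C (srcOf he) Ψ hΨ g hg hT hfix
  obtain ⟨g₁, hg₁, hT₁, hTT₁, hf₁, hr, hσ₁⟩ :=
    sigma_stage C D (srcOf he) θ' hθ hA Ψ hΨ hσ g₀ hg₀ hT₀ hTT₀ fib hf₀
  obtain ⟨π, hπ⟩ := image_stage C D (srcOf he) θ' (cj Ψ g₁) hσ₁ hT₁ hTT₁ fib hf₁ hr
  refine ⟨g₁, hg₁, π, ?_⟩
  intro i i' hii
  have hcyc : D.ρ.SameCycle i (Quotient.out (Quotient.mk _ i : D.Orb)) :=
    (Quotient.mk_out (s := Equiv.Perm.SameCycle.setoid D.ρ) i).symm
  have hcg := fixX_simple_congr (D := D) S s i _ hcyc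
  refine ⟨?_, ?_⟩
  · intro x hx
    rw [hcg.1] at hx
    have h1 := (hπ i i' hii x hx).1
    rwa [cj_apply] at h1
  · intro x hx
    rw [hcg.2] at hx
    let o : Fin n := Quotient.out (Quotient.mk _ i : D.Orb)
    have hν := (SR_ν he o (nuJ he o) (nuJ_mem he o) (nuJ_acts he o)).2.1
    let ν : Eg S s := ⟨nuJ he o, (nuJ_mem he o).2⟩
    have hx' : ((ν⁻¹ * x * ν : Eg S s) : H) ∈ fixX D S s (C.simple o) := by
      rw [hν]
      have e : nuJ he o * ((ν⁻¹ * x * ν : Eg S s) : H) * (nuJ he o)⁻¹ = (x : H) := by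
        have e2 : ((ν⁻¹ * x * ν : Eg S s) : H) = (nuJ he o)⁻¹ * (x : H) * nuJ he o := rfl
        rw [e2]
        group
      rw [e]
      exact hx
    have h1 := (hπ i i' hii (ν⁻¹ * x * ν) hx').2
    have e3 : (srcOf he).ν (Quotient.mk _ i) * (ν⁻¹ * x * ν) *
        ((srcOf he).ν (Quotient.mk _ i))⁻¹ = x := by
      change ν * (ν⁻¹ * x * ν) * ν⁻¹ = x
      group
    rwa [e3, cj_apply] at h1

theorem exact_steinberg (he : Env D θ S s p) (hn : 0 < n)
    (hord : ∀ l, 0 < l → l < D.m → ∃ t, (⇑θ)^[l] t ≠ t) {K : Type*} [Field K] (θ' : K ≃+* K)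
    (hθ : ∀ t, (⇑θ')^[D.m] t = t) (hA : D.NA ∨ ∃ e, e ≠ 0 ∧ θ' e = -e)
    (Ψ : Eg S s →* GL C.Idx K) (hΨ : ∀ x, Ψ x ∈ C.Gad K) (hσ : ∀ x, D.sgl θ' (Ψ x) = Ψ x)
    (hker : ∀ x : Eg S s, Ψ x = 1 → x ∈ Subgroup.center (Eg S s)) :
    ∃ g₁ ∈ Eg (C.adS K) (D.sgl θ'), ∃ π : Equiv.Perm D.Orb, Exact D S s θ' Ψ g₁ π := by
  obtain ⟨θr, hθr⟩ := C.exists_highest hn
  obtain ⟨w, _, hw2⟩ := exists_wordE he θr hθr hn hord
  obtain ⟨g, hg, hT, hfix⟩ := stage_L C θr hθr (srcOf he) w (L := AlgebraicClosure K) Ψ hΨ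
    (fun h => hw2 (hker _ h)) (fun u hu => uniE' he Ψ u hu)
  exact exact_of_L he θ' hθ hA Ψ hΨ hσ g hg hT hfix

end Pool.Agent.H86.UM
end

section
/- module Pool.Agent.H86.UM.FC0 -/
/-!
# Project UM, module FC0: field compatibility, definitions

`tad c`: the element of the full adjoint torus with `c j` on the simple root `j`.
`kO D θ i`: the field of the orbit of `i`: `fixF θ` if `ρ i = i`, otherwise all of `k`.
`Pin he θ' Ψ`: `Ψ : Eg S s →* GL C.Idx K` maps the simple root groups into the simple root groups of the same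
orbit, both signs; its kernel is central; the values are in `Gad K` and fixed by `σ'`.
`RO he θ' Ψ i c φ`: on the orbit of `i` (not adjacent) `Ψ (y_i(t)) = y_i(c φ(t))`,
`Ψ (y_(-i)(t)) = y_(-i)(c⁻¹ φ(t))`, where `y` is `yb`.
-/

set_option autoImplicit false
open Matrix

namespace Pool.Agent.H86.UM

open Pool.Agent.H75.UL

section tad
variable {n : ℕ} (C : SLC n) {K : Type*} [Field K]

/-- The matrix of an element of the full adjoint torus. -/
def tadM (c : Fin n → Kˣ) : Matrix C.Idx C.Idx K :=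
  Matrix.diagonal (Sum.elim (fun _ => 1) (fun γ => ((∏ j, c j ^ γ.1 j : Kˣ) : K)))

theorem tadM_mul (c c' : Fin n → Kˣ) : tadM C c * tadM C c' = tadM C (c * c') := by
  unfold tadM
  rw [Matrix.diagonal_mul_diagonal]
  congr 1
  funext a
  rcases a with i | γ
  · simp
  · simp only [Sum.elim_inr]
    rw [← Units.val_mul, ← Finset.prod_mul_distrib]
    congr 1
    refine Finset.prod_congr rfl fun j _ => ?_
    rw [Pi.mul_apply, mul_zpow]

theorem tadM_one : tadM C (1 : Fin n → Kˣ) = 1 := by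
  unfold tadM
  rw [← Matrix.diagonal_one]
  congr 1
  funext a
  rcases a with i | γ <;> simp

/-- An element of the full adjoint torus. -/
noncomputable def tad (c : Fin n → Kˣ) : GL C.Idx K where
  val := tadM C c
  inv := tadM C c⁻¹
  val_inv := by rw [tadM_mul, mul_inv_cancel, tadM_one]
  inv_val := by rw [tadM_mul, inv_mul_cancel, tadM_one]

theorem tad_mul (c c' : Fin n → Kˣ) : tad C c * tad C c' = tad C (c * c') :=
  Units.ext (tadM_mul C c c')

end tad

variable {n : ℕ} {C : SLC n} {D : Dg C} {k : Type*} [Field k] {θ : k ≃+* k} {H : Type*} [Group H]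
  {S : StSys C k H} {s : H →* H} {p : H →* GL C.Idx k}

open Classical in
/-- The field of the orbit of `i`. -/
noncomputable def kO (D : Dg C) {k : Type*} [Field k] (θ : k ≃+* k) (i : Fin n) : Subfield k :=
  if D.ρ i = i then fixF θ else ⊤

theorem mem_kO (D : Dg C) {k : Type*} [Field k] (θ : k ≃+* k) (i : Fin n) (t : k) :
    t ∈ kO D θ i ↔ (D.ρ i = i → θ t = t) := by
  unfold kO
  by_cases h : D.ρ i = i
  · rw [if_pos h, mem_fixF]
    exact ⟨fun h1 _ => h1, fun h1 => h1 h⟩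
  · rw [if_neg h]
    exact ⟨fun _ h1 => absurd h1 h, fun _ => Subfield.mem_top t⟩

/-- `Ψ` maps simple root groups into simple root groups of the same orbit. -/
structure Pin (he : Env D θ S s p) {K : Type*} [Field K] (θ' : K ≃+* K)
    (Ψ : Eg S s →* GL C.Idx K) : Prop where
  hθ : ∀ t, (⇑θ')^[D.m] t = t
  mem : ∀ x, Ψ x ∈ C.Gad K
  fix : ∀ x, D.sgl θ' (Ψ x) = Ψ x
  ker : ∀ x, Ψ x = 1 → x ∈ Subgroup.center (Eg S s)
  pos : ∀ (i : Fin n) (x : Eg S s), (x : H) ∈ fixX D S s (C.simple i) →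
    Ψ x ∈ fixX D (C.adS K) (D.sgl θ') (C.simple i)
  neg : ∀ (i : Fin n) (x : Eg S s), (x : H) ∈ fixX D S s (-(C.simple i)) →
    Ψ x ∈ fixX D (C.adS K) (D.sgl θ') (-(C.simple i))

/-- The coordinates of `Ψ` on a simple root group which is not adjacent to its image. -/
structure RO (he : Env D θ S s p) {K : Type*} [Field K] (θ' : K ≃+* K)
    (Ψ : Eg S s →* GL C.Idx K) (i : Fin n) (c : K) (φ : kO D θ i →+* K) : Prop where
  c_ne : c ≠ 0
  c_fix : D.ρ i = i → θ' c = c
  φ_fix : D.ρ i = i → ∀ t, θ' (φ t) = φ t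
  pos : ∀ (t : kO D θ i) (x : Eg S s), (x : H) = yb D S s (C.simple i) t →
    Ψ x = yb D (C.adS K) (D.sgl θ') (C.simple i) (c * φ t)
  neg : ∀ (t : kO D θ i) (x : Eg S s), (x : H) = yb D S s (-(C.simple i)) t →
    Ψ x = yb D (C.adS K) (D.sgl θ') (-(C.simple i)) (c⁻¹ * φ t)

end Pool.Agent.H86.UM
end

section
/- module Pool.Agent.H86.UM.FCa -/
/-!
# Project UM, module FCa: the full adjoint torus; first facts on `Pin`

`tad_xg`: the matrix of `C.X` is `1 + t E + t ^ 2 F`; conjugation of an entry `(a, b)` multiplies it by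
`d a / d b`, `d (inl i) = 1`, `d (inr γ) = ∏ c_j ^ γ_j` (multiplicative in `γ`). (See `T_fix` in T6.lean for
elements of `T`.) `sgl_tad`: entrywise. `Pin_inj`: `x` is central; for `x ∈ fixX (simple i)` conjugation with
`nuJ he i ∈ Eg` maps `x` to `XO (- simple i)` (`SR_ν`), so `p x` is upper and lower unitriangular
(`S9_U`; `U_inf_Um` in UT/D8u), `p x = 1`, and `x = 1` (`fixX_form` and `Inj` (`inj_of_map`), or: `p` is
injective on `S.U 1`, as `u = lp t` by `exists_lp`, `S9_lp`, `lp_unique`, `lp_zero`). Negative: conjugate with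
`nuJ`. `Pin_nonvan`: orthogonal orbits: take `x` with `xi i (p x) = 1` (`fixX_xi_exists`); `xi i (Ψ x) = 0` implies
that all `xi j (Ψ x)` vanish (`Pin.fix` and `xi_sgl`; `Ψ x ∈ XO' (simple i)` is a product of root elements for the
simple roots in the orbit), so `Ψ x = 1`, `x = 1` by `Pin_inj`, contradiction. Adjacent orbit (`m = 2`,
`γ = α_i + α_(ρ i)`): `X = fixX (simple i)` is not abelian (`fixX_xi_exists` for `1` and `t`, `θ t ≠ t`; such `t`
exists by `hB`; the commutator is `x_γ (± (θ t - t))`, see `fixX_form`), so by `Pin_inj` two elements of `Ψ X` do not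
commute; if all `xi i (Ψ x) = 0` then also `xi (ρ i) (Ψ x) = θ' (xi i (Ψ x)) = 0` and `Ψ X ≤ {x_γ(v)}` is abelian.
`Pin_nonvan_neg`: the same for the negative roots: conjugation with `omG` (module OM) exchanges the two
cases on both sides (on the source side use `S.neg`, `IsSig.neg`, or conjugation with `nuJ he i`, `SR_ν`).
`Pin_T`: for `h ∈ S.T` and `x ∈ fixX (± simple i)`: `(Ψ h)⁻¹ (Ψ x) (Ψ h) = Ψ (h⁻¹ x h)` is in
`fixX' (± simple i)`; `upper_of_fix` with `Pin_nonvan`, `lower_of_fix` with `Pin_nonvan_neg`, `T_of_both`.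
`Pin_xi`: `xi_conj`.
-/

set_option autoImplicit false
open Matrix

namespace Pool.Agent.H86.UM

open Pool.Agent.H75.UL

/-! ### Root elements of one orbit -/

section orbit
variable {n : ℕ} {C : SLC n} {D : Dg C} {k : Type*} [Field k] {H : Type*} [Group H]

private theorem FCa_iter_ht (D : Dg C) (l : ℕ) (β : C.Root) : ht (D.r^[l] β).1 = ht β.1 := by
  induction l with
  | zero => rfl
  | succ l ih => rw [Function.iterate_succ_apply', D.r_ht, ih]

private theorem FCa_XO_U (S : StSys C k H) (i : Fin n) (y : H) (hy : y ∈ XO D S (C.simple i)) :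
    y ∈ S.U 1 := by
  have h := XO_le_U S (C.simple i) (C.simple_pos i) hy
  rwa [C.ht_simple] at h

private theorem FCa_XO_Um (S : StSys C k H) (i : Fin n) (y : H)
    (hy : y ∈ XO D S (-(C.simple i))) : y ∈ S.Um := by
  have h1 : XO D S (-(C.simple i)) ≤ S.Um := by
    unfold XO
    rw [Subgroup.closure_le]
    rintro g ⟨γ, t, hγ, rfl⟩
    refine Subgroup.subset_closure ⟨γ, t, ?_, rfl⟩
    have h2 : ht (-(C.simple i)).1 = -1 := by rw [SLC.Root.neg_val, ht_neg, C.ht_simple]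
    rcases hγ with ⟨l, rfl⟩ | h3
    · rw [FCa_iter_ht, h2]
      omega
    · rw [h3, ht_add, D.r_ht, h2]
      omega
  exact h1 hy

private theorem FCa_p_Um (S : StSys C k H) (p : H →* GL C.Idx k)
    (hp : ∀ β t, p (S.x β t) = C.xg k β t) (u : H) (hu : u ∈ S.Um) : p u ∈ (C.adS k).Um := by
  have h1 : S.Um ≤ (C.adS k).Um.comap p := by
    conv_lhs => unfold StSys.Um
    rw [Subgroup.closure_le]
    rintro g ⟨β, t, hβ, rfl⟩
    refine Subgroup.subset_closure ⟨β, t, hβ, ?_⟩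
    exact hp β t
  exact h1 hu

private theorem FCa_p_XO (S : StSys C k H) (p : H →* GL C.Idx k)
    (hp : ∀ β t, p (S.x β t) = C.xg k β t) (β : C.Root) (u : H) (hu : u ∈ XO D S β) :
    p u ∈ XO D (C.adS k) β := by
  have h1 : XO D S β ≤ (XO D (C.adS k) β).comap p := by
    conv_lhs => unfold XO
    rw [Subgroup.closure_le]
    rintro g ⟨γ, t, hγ, rfl⟩
    refine Subgroup.subset_closure ⟨γ, t, hγ, ?_⟩
    exact hp γ t
  exact h1 hu

private theorem FCa_p_inj (S : StSys C k H) (p : H →* GL C.Idx k)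
    (hp : ∀ β t, p (S.x β t) = C.xg k β t) (u : H) (hu : u ∈ S.U 1) (h : p u = 1) : u = 1 := by
  obtain ⟨t, -, rfl⟩ := S.exists_lp 1 le_rfl u hu
  rw [C.S9_lp S p hp] at h
  have h1 : (C.adS k).lp C.posList (fun _ => 0) = 1 := StSys.lp_zero _ _ _ (fun _ _ => rfl)
  have h2 := C.lp_unique t (fun _ => 0) (h.trans h1.symm)
  apply S.lp_zero
  intro β hβ
  exact h2 β ((C.mem_posList β).1 hβ)

private theorem FCa_cons (S : StSys C k H) (β : C.Root) (l : List C.Root) (t : C.Root → k) :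
    S.lp (β :: l) t = S.x β (t β) * S.lp l t := by
  unfold StSys.lp
  rw [List.map_cons, List.prod_cons]

private theorem FCa_single (S : StSys C k H) (β : C.Root) (a : k) (l : List C.Root)
    (hl : l.Nodup) (hβ : β ∈ l) : S.lp l (fun γ => if γ = β then a else 0) = S.x β a := by
  induction l with
  | nil => simp at hβ
  | cons γ l ih =>
    rw [FCa_cons]
    rw [List.nodup_cons] at hl
    by_cases h : γ = β
    · subst h
      rw [S.lp_zero l, if_pos rfl, mul_one]
      intro δ hδ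
      rw [if_neg]
      rintro rfl
      exact hl.1 hδ
    · rw [if_neg h, S.x_zero, one_mul]
      refine ih hl.2 ?_
      rw [List.mem_cons] at hβ
      rcases hβ with rfl | hβ
      · exact absurd rfl h
      · exact hβ

private theorem FCa_comm_lp (S : StSys C k H) (g : H) (l : List C.Root) (t : C.Root → k)
    (h : ∀ γ, g * S.x γ (t γ) = S.x γ (t γ) * g) : g * S.lp l t = S.lp l t * g := by
  induction l with
  | nil => simp [StSys.lp]
  | cons γ l ih =>
    rw [FCa_cons, ← mul_assoc, h γ, mul_assoc, ih, mul_assoc]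

private theorem FCa_lp_mul (S : StSys C k H) (l : List C.Root) (t t' : C.Root → k)
    (h : ∀ β γ, S.x β (t' β) * S.x γ (t γ) = S.x γ (t γ) * S.x β (t' β)) :
    S.lp l t * S.lp l t' = S.lp l (fun β => t β + t' β) := by
  induction l with
  | nil => simp [StSys.lp]
  | cons β l ih =>
    rw [FCa_cons, FCa_cons, FCa_cons, ← ih, S.map_add]
    have h1 := FCa_comm_lp S (S.x β (t' β)) l t (h β)
    calc S.x β (t β) * S.lp l t * (S.x β (t' β) * S.lp l t')
        = S.x β (t β) * (S.lp l t * S.x β (t' β)) * S.lp l t' := by group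
      _ = S.x β (t β) * (S.x β (t' β) * S.lp l t) * S.lp l t' := by rw [h1]
      _ = _ := by group

private theorem FCa_lp_U (S : StSys C k H) (l : List C.Root) (t : C.Root → k)
    (h : ∀ β ∈ l, C.Pos β) : S.lp l t ∈ S.U 1 := by
  induction l with
  | nil =>
    have : S.lp ([] : List C.Root) t = 1 := by simp [StSys.lp]
    rw [this]
    exact one_mem _
  | cons β l ih =>
    rw [FCa_cons]
    refine mul_mem (Subgroup.subset_closure ⟨β, t β, ?_, rfl⟩) (ih fun γ hγ => h γ (by simp [hγ]))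
    have h1 : 0 < ht β.1 := h β (by simp)
    omega

private theorem FCa_xi_lp (j : Fin n) (l : List C.Root) (hl : l.Nodup) (t : C.Root → k)
    (h : ∀ β ∈ l, C.Pos β) : C.xi j (((C.adS k).lp l t : GL C.Idx k) : Matrix C.Idx C.Idx k) =
      if C.simple j ∈ l then t (C.simple j) else 0 := by
  induction l with
  | nil =>
    have : (C.adS k).lp ([] : List C.Root) t = 1 := by simp [StSys.lp]
    rw [this, Units.val_one, C.xi_one]
    simp
  | cons β l ih =>
    rw [List.nodup_cons] at hl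
    have hβ : C.Pos β := h β (by simp)
    have hl2 : ∀ γ ∈ l, C.Pos γ := fun γ hγ => h γ (by simp [hγ])
    have h1 : (C.adS k).x β (t β) ∈ (C.adS k).U 1 := by
      refine Subgroup.subset_closure ⟨β, t β, ?_, rfl⟩
      have : 0 < ht β.1 := hβ
      omega
    rw [FCa_cons, C.xi_mul j _ _ h1 (FCa_lp_U _ l t hl2), ih hl.2 hl2]
    change C.xi j (C.xg k β (t β) : Matrix C.Idx C.Idx k) + _ = _
    rw [C.xi_xg j β hβ]
    by_cases h2 : β = C.simple j
    · subst h2
      rw [if_pos rfl, if_neg hl.1, if_pos (by simp), add_zero]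
    · have h3 : ¬ C.simple j = β := fun h' => h2 h'.symm
      rw [if_neg h2, zero_add]
      simp [h3]

/-- The roots of the orbit of a simple root which is not adjacent to its image. -/
private theorem FCa_inO (i : Fin n) (hi : C.A i (D.ρ i) ≠ -1) (γ : C.Root)
    (h : D.inO (C.simple i) γ) : ∃ l, γ = D.r^[l] (C.simple i) := by
  rcases h with h | h
  · exact h
  · exfalso
    have h1 := C.ip_add_root _ _ _ h
    rw [D.r_simple] at h1
    apply hi
    rw [← C.ip_single]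
    exact h1

private theorem FCa_ip_nonneg (i : Fin n) (hi : C.A i (D.ρ i) ≠ -1) (a b : ℕ) :
    0 ≤ C.ip (D.r^[a] (C.simple i)).1 (D.r^[b] (C.simple i)).1 := by
  have h0 : ∀ c : ℕ, 0 ≤ C.ip (C.simple i).1 (D.r^[c] (C.simple i)).1 := by
    intro c
    by_cases hr : D.r (C.simple i) = C.simple i
    · have h1 : D.r^[c] (C.simple i) = C.simple i := Function.iterate_fixed hr c
      rw [h1, (C.simple i).2]
      norm_num
    · have hpos : 0 < D.m := by
        rcases D.m_cases with h | h | h <;> omega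
      have h1 : Function.IsPeriodicPt D.r D.m (C.simple i) := D.r_m _
      rw [← h1.iterate_mod_apply c]
      have h2 : C.ip (C.simple i).1 (D.r (C.simple i)).1 = 0 := by
        rcases D.ip_r _ hr with h | ⟨-, h⟩
        · exact h
        · exfalso
          apply hi
          rw [D.r_simple] at h
          rw [← C.ip_single]
          exact h
      rcases Nat.eq_zero_or_pos (c % D.m) with h3 | h3
      · rw [h3]
        change 0 ≤ C.ip (C.simple i).1 (C.simple i).1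
        rw [(C.simple i).2]
        norm_num
      · rw [D.ip_orb _ hr _ h3 (Nat.mod_lt _ hpos), h2]
  have h1 : ∀ a c : ℕ, C.ip (D.r^[a] (C.simple i)).1 (D.r^[a] (D.r^[c] (C.simple i))).1 =
      C.ip (C.simple i).1 (D.r^[c] (C.simple i)).1 := by
    intro a c
    induction a with
    | zero => rfl
    | succ a ih =>
      rw [Function.iterate_succ_apply', Function.iterate_succ_apply', D.r_ip, ih]
  rcases le_total a b with h | h
  · obtain ⟨c, rfl⟩ := Nat.exists_eq_add_of_le h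
    rw [Function.iterate_add_apply, h1]
    exact h0 c
  · obtain ⟨c, rfl⟩ := Nat.exists_eq_add_of_le h
    rw [Function.iterate_add_apply, C.ip_comm, h1]
    exact h0 c

/-- The form of the elements of an orthogonal orbit. -/
private theorem FCa_form (S : StSys C k H) (i : Fin n) (hi : C.A i (D.ρ i) ≠ -1) (y : H)
    (hy : y ∈ XO D S (C.simple i)) : ∃ t : C.Root → k,
      (∀ γ, t γ ≠ 0 → ∃ l, γ = D.r^[l] (C.simple i)) ∧ y = S.lp C.posList t := by
  have hcomm : ∀ t t' : C.Root → k, (∀ γ, t γ ≠ 0 → ∃ l, γ = D.r^[l] (C.simple i)) →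
      (∀ γ, t' γ ≠ 0 → ∃ l, γ = D.r^[l] (C.simple i)) →
      ∀ β γ, S.x β (t' β) * S.x γ (t γ) = S.x γ (t γ) * S.x β (t' β) := by
    intro t t' h h' β γ
    by_cases h1 : t γ = 0
    · rw [h1, S.x_zero, mul_one, one_mul]
    by_cases h2 : t' β = 0
    · rw [h2, S.x_zero, mul_one, one_mul]
    obtain ⟨a, ha⟩ := h γ h1
    obtain ⟨b, hb⟩ := h' β h2
    apply S.comm
    rw [ha, hb]
    exact FCa_ip_nonneg i hi b a
  unfold XO at hy
  induction hy using Subgroup.closure_induction with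
  | mem y hy =>
    obtain ⟨γ, a, hγ, rfl⟩ := hy
    have h1 := FCa_inO i hi γ hγ
    refine ⟨fun δ => if δ = γ then a else 0, ?_, ?_⟩
    · intro δ hδ
      by_cases h2 : δ = γ
      · rw [h2]
        exact h1
      · exact absurd (if_neg h2) hδ
    · rw [FCa_single S γ a C.posList C.posList_nodup]
      rw [C.mem_posList]
      obtain ⟨l, rfl⟩ := h1
      unfold SLC.Pos
      rw [FCa_iter_ht, C.ht_simple]
      norm_num
  | one =>
    exact ⟨fun _ => 0, fun γ h => absurd rfl h, (S.lp_zero _ _ (fun _ _ => rfl)).symm⟩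
  | mul y z _ _ hy hz =>
    obtain ⟨t, ht, rfl⟩ := hy
    obtain ⟨t', ht', rfl⟩ := hz
    refine ⟨fun β => t β + t' β, ?_, FCa_lp_mul S _ t t' (hcomm t t' ht ht')⟩
    intro γ hγ
    by_cases h1 : t γ = 0
    · apply ht'
      intro h2
      apply hγ
      change t γ + t' γ = 0
      rw [h1, h2, add_zero]
    · exact ht γ h1
  | inv y _ hy =>
    obtain ⟨t, ht, rfl⟩ := hy
    have ht' : ∀ γ, (fun β => - t β) γ ≠ 0 → ∃ l, γ = D.r^[l] (C.simple i) := by
      intro γ hγ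
      apply ht
      intro h1
      apply hγ
      change - t γ = 0
      rw [h1, neg_zero]
    refine ⟨fun β => - t β, ht', ?_⟩
    apply inv_eq_of_mul_eq_one_right
    rw [FCa_lp_mul S _ t (fun β => - t β) (hcomm t _ ht ht')]
    apply S.lp_zero
    intro β _
    exact add_neg_cancel (t β)

/-- The coordinates of an element of an orthogonal orbit. -/
private theorem FCa_one (i : Fin n) (hi : C.A i (D.ρ i) ≠ -1) (y : GL C.Idx k)
    (hy : y ∈ XO D (C.adS k) (C.simple i))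
    (h : ∀ l : ℕ, C.xi ((D.ρ ^ l) i) (y : Matrix C.Idx C.Idx k) = 0) : y = 1 := by
  obtain ⟨t, ht, rfl⟩ := FCa_form (C.adS k) i hi y hy
  apply StSys.lp_zero
  intro γ _
  by_contra h1
  obtain ⟨l, hl⟩ := ht γ h1
  rw [D.r_iter_simple] at hl
  have h2 := h l
  rw [FCa_xi_lp _ _ C.posList_nodup t (fun β hβ => (C.mem_posList β).1 hβ), if_pos, ← hl] at h2
  · exact h1 h2
  · rw [C.mem_posList]
    exact C.simple_pos _

/-- The sum of two adjacent simple roots. -/
private def FCa_g (D : Dg C) (i : Fin n) (hi : C.A i (D.ρ i) = -1) : C.Root where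
  val := (C.simple i).1 + (C.simple (D.ρ i)).1
  norm := by
    have h1 : C.ip (C.simple i).1 (C.simple (D.ρ i)).1 = -1 := by
      rw [SLC.simple_val, SLC.simple_val, C.ip_single]
      exact hi
    rw [C.ip_add_left, C.ip_add_right, C.ip_add_right, (C.simple i).2, (C.simple (D.ρ i)).2,
      C.ip_comm (C.simple (D.ρ i)).1, h1]
    norm_num

private theorem FCa_ip (i : Fin n) (hi : C.A i (D.ρ i) = -1) :
    C.ip (C.simple i).1 (C.simple (D.ρ i)).1 = -1 := by
  rw [SLC.simple_val, SLC.simple_val, C.ip_single]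
  exact hi

private theorem FCa_rr (i : Fin n) (hi : C.A i (D.ρ i) = -1) :
    D.ρ i ≠ i ∧ D.r (C.simple (D.ρ i)) = C.simple i := by
  have h1 : D.ρ i ≠ i := by
    intro h
    rw [h, C.diag] at hi
    omega
  have h2 : D.r (C.simple i) ≠ C.simple i := by
    rw [D.r_simple]
    intro h
    exact h1 (C.simple_injective h)
  refine ⟨h1, ?_⟩
  rcases D.ip_r _ h2 with h | ⟨h, -⟩
  · exfalso
    rw [D.r_simple, FCa_ip i hi] at h
    omega
  · have h3 := D.r_m (C.simple i)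
    rw [h] at h3
    rw [← D.r_simple]
    exact h3

/-- The form of the elements of an adjacent orbit. -/
private theorem FCa_form2 (S : StSys C k H) (i : Fin n) (hi : C.A i (D.ρ i) = -1) (y : H)
    (hy : y ∈ XO D S (C.simple i)) : ∃ a b c : k,
      y = S.x (C.simple i) a * S.x (C.simple (D.ρ i)) b * S.x (FCa_g D i hi) c := by
  obtain ⟨hne, hrr⟩ := FCa_rr i hi
  have hip := FCa_ip i hi
  have hgv : (FCa_g D i hi).1 = (C.simple i).1 + (C.simple (D.ρ i)).1 := rfl
  have c1 : ∀ u v, S.x (FCa_g D i hi) u * S.x (C.simple i) v =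
      S.x (C.simple i) v * S.x (FCa_g D i hi) u := by
    intro u v
    apply S.comm
    rw [hgv, C.ip_add_left, (C.simple i).2, C.ip_comm, hip]
    norm_num
  have c2 : ∀ u v, S.x (FCa_g D i hi) u * S.x (C.simple (D.ρ i)) v =
      S.x (C.simple (D.ρ i)) v * S.x (FCa_g D i hi) u := by
    intro u v
    apply S.comm
    rw [hgv, C.ip_add_left, (C.simple (D.ρ i)).2, hip]
    norm_num
  have c3 : ∀ u v, ∃ w, S.x (C.simple (D.ρ i)) u * S.x (C.simple i) v =
      S.x (FCa_g D i hi) w * (S.x (C.simple i) v * S.x (C.simple (D.ρ i)) u) := by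
    intro u v
    refine ⟨C.eps (C.simple (D.ρ i)).1 (C.simple i).1 * u * v, ?_⟩
    rw [← S.comm_add (C.simple (D.ρ i)) (C.simple i) (FCa_g D i hi) u v
      (by rw [hgv, add_comm])]
    group
  have hmul : ∀ a b c a' b' c' : k, ∃ a'' b'' c'' : k,
      (S.x (C.simple i) a * S.x (C.simple (D.ρ i)) b * S.x (FCa_g D i hi) c) *
      (S.x (C.simple i) a' * S.x (C.simple (D.ρ i)) b' * S.x (FCa_g D i hi) c') =
      S.x (C.simple i) a'' * S.x (C.simple (D.ρ i)) b'' * S.x (FCa_g D i hi) c'' := by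
    intro a b c a' b' c'
    obtain ⟨w, hw⟩ := c3 b a'
    refine ⟨a + a', b + b', w + c + c', ?_⟩
    rw [S.map_add, S.map_add, S.map_add, S.map_add]
    calc (S.x (C.simple i) a * S.x (C.simple (D.ρ i)) b * S.x (FCa_g D i hi) c) *
          (S.x (C.simple i) a' * S.x (C.simple (D.ρ i)) b' * S.x (FCa_g D i hi) c')
        = S.x (C.simple i) a * S.x (C.simple (D.ρ i)) b *
          (S.x (FCa_g D i hi) c * S.x (C.simple i) a') * S.x (C.simple (D.ρ i)) b' *
            S.x (FCa_g D i hi) c' := by group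
      _ = S.x (C.simple i) a * (S.x (C.simple (D.ρ i)) b * S.x (C.simple i) a') *
          (S.x (FCa_g D i hi) c * S.x (C.simple (D.ρ i)) b') * S.x (FCa_g D i hi) c' := by
          rw [c1]
          group
      _ = S.x (C.simple i) a * (S.x (FCa_g D i hi) w * S.x (C.simple i) a') *
          (S.x (C.simple (D.ρ i)) b * S.x (C.simple (D.ρ i)) b') *
            (S.x (FCa_g D i hi) c * S.x (FCa_g D i hi) c') := by
          rw [hw, c2]
          group
      _ = S.x (C.simple i) a * S.x (C.simple i) a' * (S.x (FCa_g D i hi) w *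
          S.x (C.simple (D.ρ i)) b) * S.x (C.simple (D.ρ i)) b' *
            (S.x (FCa_g D i hi) c * S.x (FCa_g D i hi) c') := by
          rw [c1]
          group
      _ = S.x (C.simple i) a * S.x (C.simple i) a' * S.x (C.simple (D.ρ i)) b *
          (S.x (FCa_g D i hi) w * S.x (C.simple (D.ρ i)) b') *
            (S.x (FCa_g D i hi) c * S.x (FCa_g D i hi) c') := by
          rw [c2]
          group
      _ = _ := by
          rw [c2]
          group
  unfold XO at hy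
  induction hy using Subgroup.closure_induction with
  | mem y hy =>
    obtain ⟨γ, u, hγ, rfl⟩ := hy
    have h1 : γ = C.simple i ∨ γ = C.simple (D.ρ i) ∨ γ = FCa_g D i hi := by
      rcases hγ with ⟨l, rfl⟩ | h
      · induction l with
        | zero => exact Or.inl rfl
        | succ l ih =>
          rw [Function.iterate_succ_apply']
          rcases ih with h | h | h
          · rw [h, D.r_simple]
            exact Or.inr (Or.inl rfl)
          · rw [h, hrr]
            exact Or.inl rfl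
          · exfalso
            have h2 := congrArg (fun δ : C.Root => ht δ.1) h
            simp only [FCa_iter_ht, hgv, ht_add, C.ht_simple] at h2
            omega
      · refine Or.inr (Or.inr (SLC.Root.ext ?_))
        rw [h, hgv, D.r_simple]
    rcases h1 with h | h | h
    · exact ⟨u, 0, 0, by rw [h, S.x_zero, S.x_zero, mul_one, mul_one]⟩
    · exact ⟨0, u, 0, by rw [h, S.x_zero, S.x_zero, one_mul, mul_one]⟩
    · exact ⟨0, 0, u, by rw [h, S.x_zero, S.x_zero, one_mul, one_mul]⟩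
  | one => exact ⟨0, 0, 0, by rw [S.x_zero, S.x_zero, S.x_zero, one_mul, one_mul]⟩
  | mul y z _ _ hy hz =>
    obtain ⟨a, b, c, rfl⟩ := hy
    obtain ⟨a', b', c', rfl⟩ := hz
    exact hmul a b c a' b' c'
  | inv y _ hy =>
    obtain ⟨a, b, c, rfl⟩ := hy
    obtain ⟨a1, b1, c1', h1⟩ := hmul 0 0 (-c) 0 (-b) 0
    obtain ⟨a2, b2, c2', h2⟩ := hmul a1 b1 c1' (-a) 0 0
    refine ⟨a2, b2, c2', ?_⟩
    rw [← h2, ← h1, S.x_zero, S.x_zero, S.x_zero, S.x_neg, S.x_neg, S.x_neg]
    group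

/-- The coordinates. -/
private theorem FCa_xi2 (i : Fin n) (hi : C.A i (D.ρ i) = -1) (a b c : k) :
    C.xi i (((C.adS k).x (C.simple i) a * (C.adS k).x (C.simple (D.ρ i)) b *
      (C.adS k).x (FCa_g D i hi) c : GL C.Idx k) : Matrix C.Idx C.Idx k) = a ∧
    C.xi (D.ρ i) (((C.adS k).x (C.simple i) a * (C.adS k).x (C.simple (D.ρ i)) b *
      (C.adS k).x (FCa_g D i hi) c : GL C.Idx k) : Matrix C.Idx C.Idx k) = b := by
  obtain ⟨hne, -⟩ := FCa_rr i hi
  have hgp : C.Pos (FCa_g D i hi) := by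
    change 0 < ht ((C.simple i).1 + (C.simple (D.ρ i)).1)
    rw [ht_add, C.ht_simple, C.ht_simple]
    norm_num
  have hgn : ∀ j, FCa_g D i hi ≠ C.simple j := by
    intro j h
    have h1 := congrArg (fun δ : C.Root => ht δ.1) h
    change ht ((C.simple i).1 + (C.simple (D.ρ i)).1) = ht (C.simple j).1 at h1
    rw [ht_add, C.ht_simple, C.ht_simple, C.ht_simple] at h1
    omega
  have hU : ∀ (β : C.Root) (u : k), C.Pos β → (C.adS k).x β u ∈ (C.adS k).U 1 := by
    intro β u hβ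
    refine Subgroup.subset_closure ⟨β, u, ?_, rfl⟩
    have : 0 < ht β.1 := hβ
    omega
  have m1 := hU (C.simple i) a (C.simple_pos i)
  have m2 := hU (C.simple (D.ρ i)) b (C.simple_pos _)
  have m3 := hU (FCa_g D i hi) c hgp
  have n1 : C.simple (D.ρ i) ≠ C.simple i := fun h => hne (C.simple_injective h)
  constructor
  · rw [C.xi_mul i _ _ (mul_mem m1 m2) m3, C.xi_mul i _ _ m1 m2]
    change C.xi i (C.xg k (C.simple i) a : Matrix C.Idx C.Idx k) +
      C.xi i (C.xg k (C.simple (D.ρ i)) b : Matrix C.Idx C.Idx k) +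
      C.xi i (C.xg k (FCa_g D i hi) c : Matrix C.Idx C.Idx k) = a
    rw [C.xi_xg i _ (C.simple_pos i), C.xi_xg i _ (C.simple_pos _), C.xi_xg i _ hgp, if_pos rfl,
      if_neg n1, if_neg (hgn i), add_zero, add_zero]
  · rw [C.xi_mul _ _ _ (mul_mem m1 m2) m3, C.xi_mul _ _ _ m1 m2]
    change C.xi (D.ρ i) (C.xg k (C.simple i) a : Matrix C.Idx C.Idx k) +
      C.xi (D.ρ i) (C.xg k (C.simple (D.ρ i)) b : Matrix C.Idx C.Idx k) +
      C.xi (D.ρ i) (C.xg k (FCa_g D i hi) c : Matrix C.Idx C.Idx k) = b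
    rw [C.xi_xg _ _ (C.simple_pos i), C.xi_xg _ _ (C.simple_pos _), C.xi_xg _ _ hgp,
      if_neg n1.symm, if_pos rfl, if_neg (hgn _), add_zero, zero_add]

/-- Elements without simple coordinates commute. -/
private theorem FCa_comm2 (i : Fin n) (hi : C.A i (D.ρ i) = -1) (y z : GL C.Idx k)
    (hy : y ∈ XO D (C.adS k) (C.simple i)) (hz : z ∈ XO D (C.adS k) (C.simple i))
    (y1 : C.xi i (y : Matrix C.Idx C.Idx k) = 0) (y2 : C.xi (D.ρ i) (y : Matrix C.Idx C.Idx k) = 0)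
    (z1 : C.xi i (z : Matrix C.Idx C.Idx k) = 0)
    (z2 : C.xi (D.ρ i) (z : Matrix C.Idx C.Idx k) = 0) : y * z = z * y := by
  obtain ⟨a, b, c, rfl⟩ := FCa_form2 (C.adS k) i hi y hy
  obtain ⟨a', b', c', rfl⟩ := FCa_form2 (C.adS k) i hi z hz
  rw [(FCa_xi2 i hi a b c).1] at y1
  rw [(FCa_xi2 i hi a b c).2] at y2
  rw [(FCa_xi2 i hi a' b' c').1] at z1
  rw [(FCa_xi2 i hi a' b' c').2] at z2
  rw [y1, y2, z1, z2]
  simp only [StSys.x_zero, one_mul]
  apply StSys.comm
  rw [(FCa_g D i hi).2]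
  norm_num

/-- Noncommuting elements. -/
private theorem FCa_ncomm (i : Fin n) (hi : C.A i (D.ρ i) = -1) (y z : GL C.Idx k)
    (hy : y ∈ XO D (C.adS k) (C.simple i)) (hz : z ∈ XO D (C.adS k) (C.simple i))
    (h : C.xi (D.ρ i) (y : Matrix C.Idx C.Idx k) * C.xi i (z : Matrix C.Idx C.Idx k) ≠
      C.xi (D.ρ i) (z : Matrix C.Idx C.Idx k) * C.xi i (y : Matrix C.Idx C.Idx k)) :
    y * z ≠ z * y := by
  obtain ⟨a, b, c, rfl⟩ := FCa_form2 (C.adS k) i hi y hy
  obtain ⟨a', b', c', rfl⟩ := FCa_form2 (C.adS k) i hi z hz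
  rw [(FCa_xi2 i hi a b c).1, (FCa_xi2 i hi a b c).2, (FCa_xi2 i hi a' b' c').1,
    (FCa_xi2 i hi a' b' c').2] at h
  intro hcomm
  apply h
  obtain ⟨S, hS⟩ : ∃ S : StSys C k (GL C.Idx k), S = C.adS k := ⟨_, rfl⟩
  rw [← hS] at hcomm
  have hip := FCa_ip i hi
  have hgv : (FCa_g D i hi).1 = (C.simple i).1 + (C.simple (D.ρ i)).1 := rfl
  have c1 : ∀ u v, S.x (FCa_g D i hi) u * S.x (C.simple i) v =
      S.x (C.simple i) v * S.x (FCa_g D i hi) u := by
    intro u v
    apply S.comm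
    rw [hgv, C.ip_add_left, (C.simple i).2, C.ip_comm, hip]
    norm_num
  have c2 : ∀ u v, S.x (FCa_g D i hi) u * S.x (C.simple (D.ρ i)) v =
      S.x (C.simple (D.ρ i)) v * S.x (FCa_g D i hi) u := by
    intro u v
    apply S.comm
    rw [hgv, C.ip_add_left, (C.simple (D.ρ i)).2, hip]
    norm_num
  have c4 : ∀ u v, S.x (FCa_g D i hi) u * S.x (FCa_g D i hi) v =
      S.x (FCa_g D i hi) v * S.x (FCa_g D i hi) u := by
    intro u v
    apply S.comm
    rw [(FCa_g D i hi).2]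
    norm_num
  have c3 : ∀ u v, S.x (C.simple (D.ρ i)) u * S.x (C.simple i) v =
      S.x (FCa_g D i hi) (C.eps (C.simple (D.ρ i)).1 (C.simple i).1 * u * v) *
        (S.x (C.simple i) v * S.x (C.simple (D.ρ i)) u) := by
    intro u v
    rw [← S.comm_add (C.simple (D.ρ i)) (C.simple i) (FCa_g D i hi) u v
      (by rw [hgv, add_comm])]
    group
  have key : ∀ a b c a' b' c' : k,
      (S.x (C.simple i) a * S.x (C.simple (D.ρ i)) b * S.x (FCa_g D i hi) c) *
      (S.x (C.simple i) a' * S.x (C.simple (D.ρ i)) b' * S.x (FCa_g D i hi) c') =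
      S.x (C.simple i) (a + a') * S.x (C.simple (D.ρ i)) (b + b') *
        S.x (FCa_g D i hi) (c + c') *
        S.x (FCa_g D i hi) (C.eps (C.simple (D.ρ i)).1 (C.simple i).1 * b * a') := by
    intro a b c a' b' c'
    obtain ⟨w, hw⟩ : ∃ w, w = (C.eps (C.simple (D.ρ i)).1 (C.simple i).1 : k) * b * a' :=
      ⟨_, rfl⟩
    have hc3 := c3 b a'
    rw [← hw] at hc3 ⊢
    rw [S.map_add, S.map_add, S.map_add]
    calc (S.x (C.simple i) a * S.x (C.simple (D.ρ i)) b * S.x (FCa_g D i hi) c) *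
          (S.x (C.simple i) a' * S.x (C.simple (D.ρ i)) b' * S.x (FCa_g D i hi) c')
        = S.x (C.simple i) a * S.x (C.simple (D.ρ i)) b *
          (S.x (FCa_g D i hi) c * S.x (C.simple i) a') * S.x (C.simple (D.ρ i)) b' *
            S.x (FCa_g D i hi) c' := by group
      _ = S.x (C.simple i) a * (S.x (C.simple (D.ρ i)) b * S.x (C.simple i) a') *
          (S.x (FCa_g D i hi) c * S.x (C.simple (D.ρ i)) b') * S.x (FCa_g D i hi) c' := by
          rw [c1]
          group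
      _ = S.x (C.simple i) a * (S.x (FCa_g D i hi) w * S.x (C.simple i) a') *
          (S.x (C.simple (D.ρ i)) b * S.x (C.simple (D.ρ i)) b') *
            (S.x (FCa_g D i hi) c * S.x (FCa_g D i hi) c') := by
          rw [hc3, c2]
          group
      _ = S.x (C.simple i) a * S.x (C.simple i) a' * (S.x (FCa_g D i hi) w *
          S.x (C.simple (D.ρ i)) b) * S.x (C.simple (D.ρ i)) b' *
            (S.x (FCa_g D i hi) c * S.x (FCa_g D i hi) c') := by
          rw [c1]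
          group
      _ = S.x (C.simple i) a * S.x (C.simple i) a' * S.x (C.simple (D.ρ i)) b *
          (S.x (FCa_g D i hi) w * S.x (C.simple (D.ρ i)) b') *
            (S.x (FCa_g D i hi) c * S.x (FCa_g D i hi) c') := by
          rw [c2]
          group
      _ = S.x (C.simple i) a * S.x (C.simple i) a' * S.x (C.simple (D.ρ i)) b *
          S.x (C.simple (D.ρ i)) b' *
            ((S.x (FCa_g D i hi) w * S.x (FCa_g D i hi) c) * S.x (FCa_g D i hi) c') := by
          rw [c2]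
          group
      _ = S.x (C.simple i) a * S.x (C.simple i) a' * S.x (C.simple (D.ρ i)) b *
          S.x (C.simple (D.ρ i)) b' *
            (S.x (FCa_g D i hi) c * (S.x (FCa_g D i hi) w * S.x (FCa_g D i hi) c')) := by
          rw [c4 w c]
          group
      _ = _ := by
          rw [c4 w c']
          group
  rw [key, key, add_comm a' a, add_comm b' b, add_comm c' c] at hcomm
  have h1 := mul_left_cancel hcomm
  rw [hS] at h1
  have h2 : C.xg k (FCa_g D i hi) (C.eps (C.simple (D.ρ i)).1 (C.simple i).1 * b * a') =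
      C.xg k (FCa_g D i hi) (C.eps (C.simple (D.ρ i)).1 (C.simple i).1 * b' * a) := h1
  have hinj : ∀ u v : k, C.xg k (FCa_g D i hi) u = C.xg k (FCa_g D i hi) v → u = v := by
    intro u v huv
    by_cases hu : u = 0
    · by_cases hv : v = 0
      · rw [hu, hv]
      · exact ((C.xg_inj _ _ v u hv huv.symm).2).symm
    · exact (C.xg_inj _ _ u v hu huv).2
  have h3 := hinj _ _ h2
  rcases C.eps_eq_one_or (C.simple (D.ρ i)).1 (C.simple i).1 with h4 | h4
  · rw [h4] at h3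
    simpa using h3
  · rw [h4] at h3
    simpa using h3

end orbit

/-! ### The full adjoint torus -/

/-- The character. -/
private def FCa_ch {n : ℕ} {K : Type*} [Field K] (c : Fin n → Kˣ) (v : Fin n → ℤ) : Kˣ :=
  ∏ j, c j ^ v j

private theorem FCa_ch_add {n : ℕ} {K : Type*} [Field K] (c : Fin n → Kˣ) (v w : Fin n → ℤ) :
    FCa_ch c (v + w) = FCa_ch c v * FCa_ch c w := by
  unfold FCa_ch
  rw [← Finset.prod_mul_distrib]
  exact Finset.prod_congr rfl fun j _ => by rw [Pi.add_apply, _root_.zpow_add]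

private theorem FCa_ch_neg {n : ℕ} {K : Type*} [Field K] (c : Fin n → Kˣ) (v : Fin n → ℤ) :
    FCa_ch c (-v) = (FCa_ch c v)⁻¹ := by
  unfold FCa_ch
  rw [← Finset.prod_inv_distrib]
  exact Finset.prod_congr rfl fun j _ => by rw [Pi.neg_apply, _root_.zpow_neg]

private theorem FCa_ch_single {n : ℕ} {K : Type*} [Field K] (c : Fin n → Kˣ) (i : Fin n) :
    FCa_ch c (Pi.single i 1) = c i := by
  unfold FCa_ch
  rw [Finset.prod_eq_single i]
  · rw [Pi.single_eq_same, zpow_one]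
  · intro j _ hj
    rw [Pi.single_eq_of_ne hj, zpow_zero]
  · intro h
    exact absurd (Finset.mem_univ i) h

/-- The diagonal entries of `tadM`. -/
private def FCa_d {n : ℕ} (C : SLC n) {K : Type*} [Field K] (c : Fin n → Kˣ) : C.Idx → K :=
  Sum.elim (fun _ => 1) (fun γ => ((FCa_ch c γ.1 : Kˣ) : K))

private theorem FCa_tadM {n : ℕ} (C : SLC n) {K : Type*} [Field K] (c : Fin n → Kˣ) :
    tadM C c = Matrix.diagonal (FCa_d C c) := rfl

private theorem FCa_E {n : ℕ} (C : SLC n) {K : Type*} [Field K] (c : Fin n → Kˣ) (β : C.Root)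
    (a b : C.Idx) : FCa_d C c a * (C.E β a b : K) =
      ((FCa_ch c β.1 : Kˣ) : K) * ((C.E β a b : K) * FCa_d C c b) := by
  rcases a with i | γ <;> rcases b with j | δ
  · simp [SLC.E]
  · by_cases h : δ.1 = -β.1
    · have h1 : FCa_d C c (Sum.inr δ) = (((FCa_ch c β.1)⁻¹ : Kˣ) : K) := by
        unfold FCa_d
        rw [Sum.elim_inr, h, FCa_ch_neg]
      have h2 : FCa_d C c (Sum.inl i) = 1 := rfl
      have h3 : ((FCa_ch c β.1 : Kˣ) : K) * (((FCa_ch c β.1)⁻¹ : Kˣ) : K) = 1 :=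
        Units.mul_inv _
      rw [h1, h2]
      linear_combination (-(C.E β (Sum.inl i) (Sum.inr δ) : K)) * h3
    · have h1 : C.E β (Sum.inl i) (Sum.inr δ) = 0 := by
        simp only [SLC.E]
        rw [if_neg h]
      rw [h1]
      simp
  · by_cases h : γ.1 = β.1
    · have h1 : FCa_d C c (Sum.inr γ) = ((FCa_ch c β.1 : Kˣ) : K) := by
        unfold FCa_d
        rw [Sum.elim_inr, h]
      have h2 : FCa_d C c (Sum.inl j) = 1 := rfl
      rw [h1, h2, mul_one]
    · have h1 : C.E β (Sum.inr γ) (Sum.inl j) = 0 := by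
        simp only [SLC.E]
        rw [if_neg h]
      rw [h1]
      simp
  · by_cases h : γ.1 = β.1 + δ.1
    · have h1 : FCa_d C c (Sum.inr γ) =
          ((FCa_ch c β.1 : Kˣ) : K) * FCa_d C c (Sum.inr δ) := by
        unfold FCa_d
        rw [Sum.elim_inr, Sum.elim_inr, h, FCa_ch_add, Units.val_mul]
      rw [h1]
      ring
    · have h1 : C.E β (Sum.inr γ) (Sum.inr δ) = 0 := by
        simp only [SLC.E]
        rw [if_neg h]
      rw [h1]
      simp

private theorem FCa_F {n : ℕ} (C : SLC n) {K : Type*} [Field K] (c : Fin n → Kˣ) (β : C.Root)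
    (a b : C.Idx) : FCa_d C c a * (C.F β a b : K) =
      ((FCa_ch c β.1 : Kˣ) : K) ^ 2 * ((C.F β a b : K) * FCa_d C c b) := by
  rcases a with i | γ <;> rcases b with j | δ
  · simp [SLC.F]
  · simp [SLC.F]
  · simp [SLC.F]
  · by_cases h : γ.1 = β.1 ∧ δ.1 = -β.1
    · have h1 : FCa_d C c (Sum.inr γ) = ((FCa_ch c β.1 : Kˣ) : K) := by
        unfold FCa_d
        rw [Sum.elim_inr, h.1]
      have h2 : FCa_d C c (Sum.inr δ) = (((FCa_ch c β.1)⁻¹ : Kˣ) : K) := by
        unfold FCa_d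
        rw [Sum.elim_inr, h.2, FCa_ch_neg]
      have h3 : ((FCa_ch c β.1 : Kˣ) : K) * (((FCa_ch c β.1)⁻¹ : Kˣ) : K) = 1 :=
        Units.mul_inv _
      rw [h1, h2]
      linear_combination (-((FCa_ch c β.1 : Kˣ) : K) *
        (C.F β (Sum.inr γ) (Sum.inr δ) : K)) * h3
    · have h1 : C.F β (Sum.inr γ) (Sum.inr δ) = 0 := by
        simp only [SLC.F]
        rw [if_neg h]
      rw [h1]
      simp

section tad
variable {n : ℕ} (C : SLC n) {K : Type*} [Field K]

theorem tad_xg (c : Fin n → Kˣ) (β : C.Root) (t : K) :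
    tad C c * C.xg K β t * (tad C c)⁻¹ = C.xg K β (((∏ j, c j ^ β.1 j : Kˣ) : K) * t) := by
  have key : tad C c * C.xg K β t = C.xg K β (((FCa_ch c β.1 : Kˣ) : K) * t) * tad C c := by
    apply Units.ext
    change tadM C c * C.X K β t = C.X K β (((FCa_ch c β.1 : Kˣ) : K) * t) * tadM C c
    rw [FCa_tadM]
    ext a b
    rw [Matrix.diagonal_mul, Matrix.mul_diagonal]
    have h1 : FCa_d C c a * (1 : Matrix C.Idx C.Idx K) a b =
        (1 : Matrix C.Idx C.Idx K) a b * FCa_d C c b := by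
      by_cases h : a = b
      · rw [h, mul_comm]
      · rw [Matrix.one_apply_ne h, mul_zero, zero_mul]
    have h2 := FCa_E C c β a b
    have h3 := FCa_F C c β a b
    unfold SLC.X
    simp only [Matrix.add_apply, Matrix.smul_apply, Matrix.map_apply, smul_eq_mul]
    linear_combination h1 + t * h2 + t ^ 2 * h3
  rw [mul_inv_eq_iff_eq_mul]
  exact key

theorem tad_Gad (c : Fin n → Kˣ) (x : GL C.Idx K) :
    tad C c * x * (tad C c)⁻¹ ∈ C.Gad K ↔ x ∈ C.Gad K := by
  have h0 : ∀ (d : Fin n → Kˣ) (y : GL C.Idx K), y ∈ C.Gad K →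
      tad C d * y * (tad C d)⁻¹ ∈ C.Gad K := by
    intro d y hy
    have h1 : C.Gad K ≤ (C.Gad K).comap (MulAut.conj (tad C d)).toMonoidHom := by
      conv_lhs => unfold SLC.Gad
      rw [Subgroup.closure_le]
      rintro z ⟨q, rfl⟩
      change tad C d * C.xg K q.1 q.2 * (tad C d)⁻¹ ∈ C.Gad K
      rw [tad_xg]
      exact Subgroup.subset_closure ⟨(q.1, _), rfl⟩
    exact h1 hy
  constructor
  · intro h
    have h1 := h0 c⁻¹ _ h
    have h2 : tad C c⁻¹ = (tad C c)⁻¹ := Units.ext rfl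
    rw [h2] at h1
    have h3 : (tad C c)⁻¹ * (tad C c * x * (tad C c)⁻¹) * ((tad C c)⁻¹)⁻¹ = x := by group
    rwa [h3] at h1
  · exact h0 c x

theorem T_eq_tad (τ : GL C.Idx K) (hτ : τ ∈ (C.adS K).T) : ∃ c : Fin n → Kˣ, τ = tad C c ∧
    ∀ j, C.chi (τ : Matrix C.Idx C.Idx K) (C.simple j) = c j := by
  obtain ⟨c, hc⟩ := C.T_diag τ hτ
  refine ⟨c, Units.ext hc, fun j => ?_⟩
  unfold SLC.chi
  rw [hc, Matrix.diagonal_apply_eq]
  change ((FCa_ch c (C.simple j).1 : Kˣ) : K) = c j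
  rw [SLC.simple_val, FCa_ch_single]

theorem sgl_tad (D : Dg C) (θ' : K ≃+* K) (c : Fin n → Kˣ) :
    D.sgl θ' (tad C c) = tad C (fun j => Units.map (θ' : K →* K) (c (D.ρ.symm j))) := by
  rw [Dg.sgl_apply, mul_inv_eq_iff_eq_mul]
  apply Units.ext
  rw [Units.val_mul, Units.val_mul, SLC.mp_val]
  change D.mat K * (tadM C c).map θ' =
    tadM C (fun j => Units.map (θ' : K →* K) (c (D.ρ.symm j))) * D.mat K
  rw [FCa_tadM, FCa_tadM, Matrix.diagonal_map (map_zero θ')]
  ext a b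
  rw [Matrix.diagonal_mul, Matrix.mul_diagonal]
  rcases a with i | γ <;> rcases b with j | δ
  · simp [FCa_d]
  · simp [Dg.mat]
  · simp [Dg.mat]
  · by_cases h : γ = D.r δ
    · have h1 : FCa_ch (fun j => Units.map (θ' : K →* K) (c (D.ρ.symm j))) (D.r δ).1 =
          Units.map (θ' : K →* K) (FCa_ch c δ.1) := by
        unfold FCa_ch
        rw [map_prod, ← Equiv.prod_comp D.ρ]
        refine Finset.prod_congr rfl fun j _ => ?_
        change (Units.map (θ' : K →* K) (c (D.ρ.symm (D.ρ j)))) ^ (D.r δ).1 (D.ρ j) = _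
        rw [Equiv.symm_apply_apply, D.r_val, map_zpow]
      have h2 : FCa_d C (fun j => Units.map (θ' : K →* K) (c (D.ρ.symm j))) (Sum.inr γ) =
          θ' (FCa_d C c (Sum.inr δ)) := by
        unfold FCa_d
        rw [Sum.elim_inr, Sum.elim_inr, h, h1]
        rfl
      rw [h2, mul_comm]
    · have h1 : D.mat K (Sum.inr γ) (Sum.inr δ) = 0 := by
        simp only [Dg.mat]
        rw [if_neg h]
      rw [h1, zero_mul, mul_zero]

end tad

/-! ### The simple root groups of the source and of the target -/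

section pin
variable {n : ℕ} {C : SLC n} {D : Dg C} {k : Type*} [Field k] {θ : k ≃+* k} {H : Type*} [Group H]
  {S : StSys C k H} {s : H →* H} {p : H →* GL C.Idx k}

private theorem FCa_core {G : Type*} [Group G] {K : Type*} [Field K] (Y : Subgroup G)
    (Φ : G →* GL C.Idx K) (θ' : K ≃+* K) (i : Fin n)
    (hΦ : ∀ x ∈ Y, Φ x ∈ XO D (C.adS K) (C.simple i))
    (hfix : ∀ x ∈ Y, D.sgl θ' (Φ x) = Φ x) (hinj : ∀ x ∈ Y, Φ x = 1 → x = 1)
    (h1 : C.A i (D.ρ i) ≠ -1 → ∃ x ∈ Y, x ≠ 1)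
    (h2 : C.A i (D.ρ i) = -1 → ∃ x ∈ Y, ∃ y ∈ Y, x * y ≠ y * x) :
    ∃ x ∈ Y, C.xi i (Φ x : Matrix C.Idx C.Idx K) ≠ 0 := by
  by_contra hcon
  push Not at hcon
  have hall : ∀ (l : ℕ), ∀ x ∈ Y, C.xi ((D.ρ ^ l) i) (Φ x : Matrix C.Idx C.Idx K) = 0 := by
    intro l
    induction l with
    | zero =>
      intro x hx
      exact hcon x hx
    | succ l ih =>
      intro x hx
      have e1 := xi_sgl D θ' (Φ x) ((D.ρ ^ l) i)
      rw [hfix x hx, ih x hx, map_zero] at e1
      rw [pow_succ', Equiv.Perm.mul_apply]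
      exact e1
  by_cases hi : C.A i (D.ρ i) = -1
  · obtain ⟨x, hx, y, hy, hxy⟩ := h2 hi
    apply hxy
    have e1 := FCa_comm2 i hi (Φ x) (Φ y) (hΦ x hx) (hΦ y hy) (hcon x hx) (hall 1 x hx)
      (hcon y hy) (hall 1 y hy)
    have e2 : x * y * (y * x)⁻¹ ∈ Y := mul_mem (mul_mem hx hy) (inv_mem (mul_mem hy hx))
    have e3 : Φ (x * y * (y * x)⁻¹) = 1 := by
      rw [map_mul, map_inv, map_mul, map_mul, e1, mul_inv_cancel]
    exact mul_inv_eq_one.1 (hinj _ e2 e3)
  · obtain ⟨x, hx, hx1⟩ := h1 hi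
    exact hx1 (hinj x hx (FCa_one i hi (Φ x) (hΦ x hx) fun l => hall l x hx))

private theorem FCa_le (S : StSys C k H) (s : H →* H) (i : Fin n) (x : H)
    (hx : x ∈ fixX D S s (C.simple i)) : x ∈ Eg S s := by
  have h1 : fixU S s ≤ Eg S s := le_sup_left
  exact h1 (fixX_le_fixU S s (C.simple i) (C.simple_pos i) hx)

private theorem FCa_src1 (he : Env D θ S s p) (i : Fin n) :
    ∃ x ∈ fixX D S s (C.simple i), x ≠ 1 := by
  obtain ⟨x, hx, h1⟩ := fixX_xi_exists he i 1 (fun _ => map_one θ)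
  refine ⟨x, hx, ?_⟩
  rintro rfl
  rw [map_one, Units.val_one, C.xi_one] at h1
  exact zero_ne_one h1

private theorem FCa_src2 (he : Env D θ S s p) (i : Fin n) (hi : C.A i (D.ρ i) = -1) :
    ∃ x ∈ fixX D S s (C.simple i), ∃ y ∈ fixX D S s (C.simple i), x * y ≠ y * x := by
  have hNA : ¬ D.NA := fun h => h i hi
  have hA := he.hA.resolve_left hNA
  have hB := he.hB.resolve_left hNA
  have hne : D.ρ i ≠ i := (FCa_rr i hi).1
  obtain ⟨t, ht⟩ : ∃ t, θ t ≠ t := by
    by_contra hcon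
    push Not at hcon
    obtain ⟨e, he0, he1⟩ := hA
    rw [hcon e] at he1
    obtain ⟨v, hv⟩ := hB 1 (map_one θ)
    rw [hcon v] at hv
    have h1 : e * (v + v) = 0 := by linear_combination v * he1
    rw [hv, mul_one] at h1
    exact he0 h1
  obtain ⟨x, hx, hx1⟩ := fixX_xi_exists he i 1 (fun h => absurd h hne)
  obtain ⟨y, hy, hy1⟩ := fixX_xi_exists he i t (fun h => absurd h hne)
  refine ⟨x, hx, y, hy, ?_⟩
  have hx2 := (fixX_xi he i x hx).1 1
  have hy2 := (fixX_xi he i y hy).1 1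
  rw [hx1, pow_one, Function.iterate_one, map_one] at hx2
  rw [hy1, pow_one, Function.iterate_one] at hy2
  intro hxy
  have h3 := FCa_ncomm i hi (p x) (p y) (FCa_p_XO S p he.hp _ x hx.1)
    (FCa_p_XO S p he.hp _ y hy.1) (by
      rw [hx1, hx2, hy1, hy2, one_mul, mul_one]
      exact fun h => ht h.symm)
  apply h3
  rw [← map_mul, hxy, map_mul]

private theorem FCa_neg_neg (β : C.Root) : -(-β) = β := by
  apply SLC.Root.ext
  rw [SLC.Root.neg_val, SLC.Root.neg_val, neg_neg]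

private theorem FCa_r_iter_neg (D : Dg C) (l : ℕ) (β : C.Root) :
    D.r^[l] (-β) = -(D.r^[l] β) := by
  induction l with
  | zero => rfl
  | succ l ih => rw [Function.iterate_succ_apply', Function.iterate_succ_apply', ih, D.r_neg]

private theorem FCa_om_XO {K : Type*} [Field K] (β : C.Root) (y : GL C.Idx K)
    (hy : y ∈ XO D (C.adS K) β) : omG C K * y * (omG C K)⁻¹ ∈ XO D (C.adS K) (-β) := by
  have h1 : XO D (C.adS K) β ≤
      (XO D (C.adS K) (-β)).comap (MulAut.conj (omG C K)).toMonoidHom := by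
    conv_lhs => unfold XO
    rw [Subgroup.closure_le]
    rintro g ⟨γ, t, hγ, rfl⟩
    refine Subgroup.subset_closure ⟨-γ, t, ?_, ?_⟩
    · rcases hγ with ⟨l, rfl⟩ | h
      · exact Or.inl ⟨l, (FCa_r_iter_neg D l β).symm⟩
      · refine Or.inr ?_
        rw [SLC.Root.neg_val, SLC.Root.neg_val, D.r_neg, SLC.Root.neg_val, h, neg_add]
    · exact omG_xg C γ t
  exact h1 hy

private theorem FCa_om_sgl {K : Type*} [Field K] (D : Dg C) (θ' : K ≃+* K) (y : GL C.Idx K)
    (hy : y ∈ C.Gad K) : D.sgl θ' (omG C K * y * (omG C K)⁻¹) =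
      omG C K * D.sgl θ' y * (omG C K)⁻¹ := by
  have h1 : C.Gad K ≤ ((D.sgl θ').comp (MulAut.conj (omG C K)).toMonoidHom).eqLocus
      ((MulAut.conj (omG C K)).toMonoidHom.comp (D.sgl θ')) := by
    conv_lhs => unfold SLC.Gad
    rw [Subgroup.closure_le]
    rintro g ⟨q, rfl⟩
    change D.sgl θ' (omG C K * C.xg K q.1 q.2 * (omG C K)⁻¹) =
      omG C K * D.sgl θ' (C.xg K q.1 q.2) * (omG C K)⁻¹
    have h2 : ∀ β t, D.sgl θ' (C.xg K β t) = C.xg K (D.r β) ((D.sg β : K) * θ' t) :=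
      isSig_adS D θ'
    rw [omG_xg, h2, h2, omG_xg, D.r_neg, D.sg_neg]
  exact h1 hy

private theorem FCa_T_fixX (he : Env D θ S s p) (h : H) (hh : h ∈ S.T) (hs : s h = h)
    (β : C.Root) (x : H) (hx : x ∈ fixX D S s β) : h⁻¹ * x * h ∈ fixX D S s β := by
  constructor
  · have h1 : XO D S β ≤ (XO D S β).comap (MulAut.conj h⁻¹).toMonoidHom := by
      conv_lhs => unfold XO
      rw [Subgroup.closure_le]
      rintro g ⟨γ, t, hγ, rfl⟩
      exact Subgroup.subset_closure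
        ⟨γ, C.chi (p h⁻¹ : Matrix C.Idx C.Idx k) γ * t, hγ, (SR_T he h⁻¹ (inv_mem hh) γ t).2⟩
    have h2 : h⁻¹ * x * h⁻¹⁻¹ ∈ XO D S β := h1 hx.1
    rwa [inv_inv] at h2
  · have h1 : s x = x := hx.2
    change s (h⁻¹ * x * h) = h⁻¹ * x * h
    rw [map_mul, map_mul, map_inv, h1, hs]

end pin

variable {n : ℕ} {C : SLC n} {D : Dg C} {k : Type*} [Field k] {θ : k ≃+* k} {H : Type*} [Group H]
  {S : StSys C k H} {s : H →* H} {p : H →* GL C.Idx k}

theorem Pin_inj (he : Env D θ S s p) {K : Type*} [Field K] (θ' : K ≃+* K)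
    (Ψ : Eg S s →* GL C.Idx K) (hP : Pin he θ' Ψ) (i : Fin n) (x : Eg S s)
    (hx : (x : H) ∈ fixX D S s (C.simple i) ∨ (x : H) ∈ fixX D S s (-(C.simple i)))
    (h1 : Ψ x = 1) : x = 1 := by
  have hc := hP.ker x h1
  obtain ⟨ν, hν⟩ : ∃ ν, ν = nuJ he i := ⟨_, rfl⟩
  have hνm : ν ∈ S.N ⊓ Eg S s := hν ▸ nuJ_mem he i
  have hνa : S.Acts ν (C.wd (D.wl i)) := hν ▸ nuJ_acts he i
  have hiff := (SR_ν he i ν hνm hνa).2.1 (x : H)
  have hcx : ν * (x : H) * ν⁻¹ = x := by
    have h2 := Subgroup.mem_center_iff.1 hc ⟨ν, hνm.2⟩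
    have h3 : ν * (x : H) = x * ν := congrArg Subtype.val h2
    rw [h3, mul_inv_cancel_right]
  rw [hcx] at hiff
  have hboth : (x : H) ∈ fixX D S s (C.simple i) ∧ (x : H) ∈ fixX D S s (-(C.simple i)) := by
    rcases hx with h | h
    · exact ⟨h, hiff.1 h⟩
    · exact ⟨hiff.2 h, h⟩
  have hU : (x : H) ∈ S.U 1 := FCa_XO_U S i _ hboth.1.1
  have hUm : (x : H) ∈ S.Um := FCa_XO_Um S i _ hboth.2.1
  have hp1 : p (x : H) = 1 := U_inf_Um _ (C.S9_U S p he.hp 1 _ hU)
    (FCa_p_Um S p he.hp _ hUm)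
  exact Subtype.ext (FCa_p_inj S p he.hp _ hU hp1)

theorem Pin_nonvan (he : Env D θ S s p) {K : Type*} [Field K] (θ' : K ≃+* K)
    (Ψ : Eg S s →* GL C.Idx K) (hP : Pin he θ' Ψ) (i : Fin n) :
    ∃ x : Eg S s, (x : H) ∈ fixX D S s (C.simple i) ∧
      C.xi i (Ψ x : Matrix C.Idx C.Idx K) ≠ 0 := by
  have h := FCa_core (D := D) ((fixX D S s (C.simple i)).subgroupOf (Eg S s)) Ψ θ' i
    (fun x hx => (hP.pos i x (Subgroup.mem_subgroupOf.1 hx)).1)
    (fun x _ => hP.fix x)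
    (fun x hx h1 => Pin_inj he θ' Ψ hP i x (Or.inl (Subgroup.mem_subgroupOf.1 hx)) h1)
    (fun _ => by
      obtain ⟨x, hx, hx1⟩ := FCa_src1 he i
      exact ⟨⟨x, FCa_le S s i x hx⟩, Subgroup.mem_subgroupOf.2 hx,
        fun h => hx1 (congrArg Subtype.val h)⟩)
    (fun hi => by
      obtain ⟨x, hx, y, hy, hxy⟩ := FCa_src2 he i hi
      exact ⟨⟨x, FCa_le S s i x hx⟩, Subgroup.mem_subgroupOf.2 hx,
        ⟨y, FCa_le S s i y hy⟩, Subgroup.mem_subgroupOf.2 hy,
        fun h => hxy (congrArg Subtype.val h)⟩)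
  obtain ⟨x, hx, hx1⟩ := h
  exact ⟨x, Subgroup.mem_subgroupOf.1 hx, hx1⟩

theorem Pin_nonvan_neg (he : Env D θ S s p) {K : Type*} [Field K] (θ' : K ≃+* K)
    (Ψ : Eg S s →* GL C.Idx K) (hP : Pin he θ' Ψ) (i : Fin n) :
    ∃ x : Eg S s, (x : H) ∈ fixX D S s (-(C.simple i)) ∧
      C.xi i ((omG C K * Ψ x * (omG C K)⁻¹ : GL C.Idx K) : Matrix C.Idx C.Idx K) ≠ 0 := by
  obtain ⟨ν, hν⟩ : ∃ ν, ν = nuJ he i := ⟨_, rfl⟩
  have hνm : ν ∈ S.N ⊓ Eg S s := hν ▸ nuJ_mem he i
  have hνa : S.Acts ν (C.wd (D.wl i)) := hν ▸ nuJ_acts he i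
  have hiff := (SR_ν he i ν hνm hνa).2.1
  have hE : ∀ x ∈ fixX D S s (C.simple i), ν * x * ν⁻¹ ∈ Eg S s := fun x hx =>
    mul_mem (mul_mem hνm.2 (FCa_le S s i x hx)) (inv_mem hνm.2)
  have h := FCa_core (D := D) ((fixX D S s (-(C.simple i))).subgroupOf (Eg S s))
    ((MulAut.conj (omG C K)).toMonoidHom.comp Ψ) θ' i
    (fun x hx => by
      have h1 := FCa_om_XO (-(C.simple i)) (Ψ x) (hP.neg i x (Subgroup.mem_subgroupOf.1 hx)).1
      rw [FCa_neg_neg] at h1
      exact h1)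
    (fun x _ => by
      have h1 := FCa_om_sgl D θ' (Ψ x) (hP.mem x)
      rw [hP.fix x] at h1
      exact h1)
    (fun x hx h1 => by
      have h2 : omG C K * Ψ x * (omG C K)⁻¹ = 1 := h1
      refine Pin_inj he θ' Ψ hP i x (Or.inr (Subgroup.mem_subgroupOf.1 hx)) ?_
      rw [mul_inv_eq_one] at h2
      exact mul_eq_left.1 h2)
    (fun _ => by
      obtain ⟨x, hx, hx1⟩ := FCa_src1 he i
      refine ⟨⟨ν * x * ν⁻¹, hE x hx⟩, Subgroup.mem_subgroupOf.2 ((hiff x).1 hx), fun h => ?_⟩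
      have h2 : ν * x * ν⁻¹ = 1 := congrArg Subtype.val h
      rw [mul_inv_eq_one] at h2
      exact hx1 (mul_eq_left.1 h2))
    (fun hi => by
      obtain ⟨x, hx, y, hy, hxy⟩ := FCa_src2 he i hi
      refine ⟨⟨ν * x * ν⁻¹, hE x hx⟩, Subgroup.mem_subgroupOf.2 ((hiff x).1 hx),
        ⟨ν * y * ν⁻¹, hE y hy⟩, Subgroup.mem_subgroupOf.2 ((hiff y).1 hy), fun h => ?_⟩
      have h2 : ν * x * ν⁻¹ * (ν * y * ν⁻¹) = ν * y * ν⁻¹ * (ν * x * ν⁻¹) :=
        congrArg Subtype.val h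
      apply hxy
      have h3 : ν * (x * y) * ν⁻¹ = ν * (y * x) * ν⁻¹ := by
        calc ν * (x * y) * ν⁻¹ = ν * x * ν⁻¹ * (ν * y * ν⁻¹) := by group
          _ = ν * y * ν⁻¹ * (ν * x * ν⁻¹) := h2
          _ = ν * (y * x) * ν⁻¹ := by group
      exact mul_left_cancel (mul_right_cancel h3))
  obtain ⟨x, hx, hx1⟩ := h
  exact ⟨x, Subgroup.mem_subgroupOf.1 hx, hx1⟩

theorem Pin_T (he : Env D θ S s p) {K : Type*} [Field K] (θ' : K ≃+* K)
    (Ψ : Eg S s →* GL C.Idx K) (hP : Pin he θ' Ψ) (h : Eg S s) (hh : (h : H) ∈ S.T) :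
    Ψ h ∈ (C.adS K).T := by
  have hs : s (h : H) = h := Eg_le_fix S s _ h.2
  have hconj : ∀ x : Eg S s, (Ψ h)⁻¹ * Ψ x * Ψ h = Ψ (h⁻¹ * x * h) := by
    intro x
    rw [map_mul, map_mul, map_inv]
  refine T_of_both C (Ψ h) (hP.mem h) ?_ ?_
  · refine upper_of_fix C {γ | ∃ i, ∃ x : Eg S s, (x : H) ∈ fixX D S s (C.simple i) ∧ γ = Ψ x}
      ?_ ?_ (Ψ h) (hP.mem h) ?_
    · rintro γ ⟨i, x, hx, rfl⟩
      exact FCa_XO_U _ i _ (hP.pos i x hx).1
    · intro j
      obtain ⟨x, hx, hx1⟩ := Pin_nonvan he θ' Ψ hP j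
      exact ⟨Ψ x, ⟨j, x, hx, rfl⟩, hx1⟩
    · rintro γ ⟨i, x, hx, rfl⟩
      rw [hconj]
      have h1 : ((h⁻¹ * x * h : Eg S s) : H) ∈ fixX D S s (C.simple i) :=
        FCa_T_fixX he h hh hs _ _ hx
      exact C.Fil_U_zero _ (FCa_XO_U _ i _ (hP.pos i _ h1).1)
  · refine lower_of_fix C
      {γ | ∃ i, ∃ x : Eg S s, (x : H) ∈ fixX D S s (-(C.simple i)) ∧ γ = Ψ x}
      ?_ ?_ (Ψ h) (hP.mem h) ?_
    · rintro γ ⟨i, x, hx, rfl⟩
      exact FCa_XO_Um _ i _ (hP.neg i x hx).1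
    · intro j
      obtain ⟨x, hx, hx1⟩ := Pin_nonvan_neg he θ' Ψ hP j
      exact ⟨Ψ x, ⟨j, x, hx, rfl⟩, hx1⟩
    · rintro γ ⟨i, x, hx, rfl⟩
      rw [hconj]
      have h1 : ((h⁻¹ * x * h : Eg S s) : H) ∈ fixX D S s (-(C.simple i)) :=
        FCa_T_fixX he h hh hs _ _ hx
      exact FCa_XO_Um _ i _ (hP.neg i _ h1).1

theorem Pin_xi (he : Env D θ S s p) {K : Type*} [Field K] (θ' : K ≃+* K)
    (Ψ : Eg S s →* GL C.Idx K) (hP : Pin he θ' Ψ) (h : Eg S s) (hh : (h : H) ∈ S.T) (i : Fin n)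
    (x : Eg S s) (hx : (x : H) ∈ fixX D S s (C.simple i)) :
    C.xi i (Ψ (h * x * h⁻¹) : Matrix C.Idx C.Idx K) =
      C.chi (Ψ h : Matrix C.Idx C.Idx K) (C.simple i) * C.xi i (Ψ x : Matrix C.Idx C.Idx K) := by
  have h1 : Ψ (h * x * h⁻¹) = Ψ h * Ψ x * (Ψ h)⁻¹ := by
    rw [map_mul, map_mul, map_inv]
  rw [h1]
  exact (C.xi_conj (Ψ h) (Ψ x) (hP.mem h) (C.Fil_T _ (Pin_T he θ' Ψ hP h hh))
    (FCa_XO_U _ i _ (hP.pos i x hx).1) i).2

end Pool.Agent.H86.UM
end
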