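import Mathlib
import Pool.Agent.H86.AL.M05
import Pool.Agent.H86.AL.M10
import Pool.Agent.H86.AL.M11
import Pool.Agent.H86.AL.M13
import Pool.Agent.H86.AL.M14

/-!
# M20: collected modules

Pool.Agent.H75.UK.K10a
Pool.Agent.H75.UK.K8
Pool.Agent.H86.UM.A2
Pool.Agent.H86.UM.FCf
-/

section
/- module Pool.Agent.H75.UK.K10a -/
/-!
# Project UK, module K10a: regular weights

`upper_of_FilR`: Bruhat `g = u ν b`, `ν` acting by `w ∈ W` (`bruhat`, `gen_adS`, `N_acts`);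
`ν = u⁻¹ g b⁻¹ ∈ FilR lam 0` (`FilR_U`, `FilR_mul`), so `pr lam (w β) ≥ pr lam β` for all `β` (`N_mono`: the
entry `(inr (w β), inr β)` of `ν` is not zero), so equality (sum over all roots, `w` a permutation).
If `w ≠ 1` then `w α_i` is negative for some `i` (`eq_one_of_pos`), so `0 < lam i = pr lam α_i =
pr lam (w α_i) ≤ 0`, a contradiction. So `w = 1`, `ν ∈ T` (`N_one`), and `u`, `ν`, `b` are in `Fil 0`.
-/

set_option autoImplicit false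
open Matrix
universe u
namespace Pool.Agent.H75.UL

namespace SLC
variable {n : ℕ} (C : SLC n) {F : Type*} [Field F]

theorem upper_of_FilR (lam : Fin n → ℝ) (hd : ∀ i, 0 < lam i) (g : GL C.Idx F)
    (hg : g ∈ C.Gad F) (h : C.FilR lam 0 (g : Matrix C.Idx C.Idx F)) :
    C.Fil 0 (g : Matrix C.Idx C.Idx F) := by
  have hd' : ∀ i, 0 ≤ lam i := fun i => (hd i).le
  rw [← C.gen_adS F] at hg
  obtain ⟨u, hu, ν, hν, v, hv, hguv⟩ := (C.adS F).bruhat g hg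
  have hν0 : C.FilR lam 0 (ν : Matrix C.Idx C.Idx F) := by
    have e1 : ν = u⁻¹ * g * v⁻¹ := by
      rw [hguv]
      group
    rw [e1, Units.val_mul, Units.val_mul]
    have h1 := C.FilR_mul (C.FilR_mul (C.FilR_U hd' _ (Subgroup.inv_mem _ hu)) h)
      (C.FilR_U hd' _ (Subgroup.inv_mem _ hv))
    rwa [add_zero, add_zero] at h1
  obtain ⟨w, hw, ha, h1⟩ := (C.adS F).N_acts ν hν
  have hle : ∀ β, C.pr lam β ≤ C.pr lam (w β) := by
    intro β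
    have h2 := (C.N_mono ν w ha hν).2.2.2.2 β
    have h3 := hν0 _ _ h2
    change C.pr lam β + 0 ≤ C.pr lam (w β) at h3
    rwa [add_zero] at h3
  have heq : ∀ β, C.pr lam β = C.pr lam (w β) := by
    have hsum : ∑ β, C.pr lam (w β) = ∑ β, C.pr lam β := Equiv.sum_comp w _
    exact fun β => (Finset.sum_eq_sum_iff_of_le (fun β _ => hle β)).1 hsum.symm β
      (Finset.mem_univ _)
  have hw1 : w = 1 := by
    refine C.eq_one_of_pos w hw fun i => ?_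
    by_contra hcon
    have h2 : C.Pos (-(w (C.simple i))) := (C.not_pos_iff _).1 hcon
    have h3 := C.pr_pos_of_dom hd' _ h2
    rw [C.pr_neg, ← heq, C.pr_simple] at h3
    linarith [hd i]
  have hT := h1 hw1
  rw [hguv, Units.val_mul, Units.val_mul]
  have h5 := C.Fil_mul (C.Fil_mul (C.Fil_U_zero _ hu) (C.Fil_T _ hT)) (C.Fil_U_zero _ hv)
  simpa using h5

end SLC

end Pool.Agent.H75.UL
end

section
/- module Pool.Agent.H75.UK.K8 -/
/-!
# Project UK, module K8: the optimal weight is regular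

For each `i` let `m_i ≥ m` be the degree of `exists_max_deg` for `X = {y i t - 1 | t}` and
`f i t = gr lam m_i (y i t - 1)`. It is additive (`gr_prod`), not zero, fixed by `M ↦ mat M matᵀ`
(`gr_fix`), and in the span of the `E β` with `pr lam β = m_i > 0` (`gr_mem`), so in `VF D L lam`. For
`p = tt τ`: `f i (a i τ * t) = gr lam 0 p * f i t * gr lam 0 p⁻¹` (`gr_conj`). Let `V ≤ VF D L lam` be the
span of all `f i t`; `A τ` is the restriction to `V` of `M ↦ gr lam 0 p * M * gr lam 0 p⁻¹` (it maps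
`f i t` to `f i (a i τ * t)`, so `V` to `V`); the `A τ` commute on `V`: `gr lam 0 p * gr lam 0 p' =
gr lam 0 (p p')` (`gr_mul` with `s = t = 0`) and the `tt τ` commute, the same for the inverses.
`count_le`: `card ι ≤ finrank V ≤ finrank (VF D L lam)`. Now `finrank_lt`.
-/

set_option autoImplicit false
open Matrix
universe u
namespace Pool.Agent.H75.UL

section
variable {n : ℕ} {C : SLC n} (D : Dg C) {L : Type*} [Field L] [IsAlgClosed L]

theorem lam_regular (lam : Fin n → ℝ) (hd : ∀ i, 0 ≤ lam i) (hl : ∀ i, lam (D.ρ i) = lam i)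
    (m : ℝ) (hm : 0 < m) {k T ι : Type*} [Field k] [Finite ι] (a : ι → T → k)
    (tt : T → GL C.Idx L) (y : ι → k → GL C.Idx L)
    (htt : ∀ s t, tt s * tt t = tt t * tt s)
    (htl : ∀ τ, C.FilR lam 0 (tt τ : Matrix C.Idx C.Idx L) ∧
      C.FilR lam 0 (((tt τ)⁻¹ : GL C.Idx L) : Matrix C.Idx C.Idx L))
    (hyG : ∀ i t, y i t ∈ C.Gad L) (hyf : ∀ i t, D.sgl (RingEquiv.refl L) (y i t) = y i t)
    (hya : ∀ i s t, y i (s + t) = y i s * y i t) (hy1 : ∀ i, ∃ t, y i t ≠ 1)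
    (hyl : ∀ i t, C.FilR lam m ((y i t : Matrix C.Idx C.Idx L) - 1))
    (hyT : ∀ i τ t, tt τ * y i t * (tt τ)⁻¹ = y i (a i τ * t))
    (hs : ∀ i j, i ≠ j → ∃ τ, a i τ = 1 ∧ a j τ ≠ 1)
    (hcard : Nat.card D.POrb ≤ Nat.card ι) (i : Fin n) : 0 < lam i := by
  -- maximal degrees
  have hX : ∀ j : ι, ∃ m', m ≤ m' ∧ (∀ t, C.FilR lam m' ((y j t : Matrix C.Idx C.Idx L) - 1)) ∧
      ∃ t, C.gr lam m' ((y j t : Matrix C.Idx C.Idx L) - 1) ≠ 0 := by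
    intro j
    obtain ⟨m', h1, h2, h3⟩ := C.exists_max_deg lam m
      (Set.range fun t => (y j t : Matrix C.Idx C.Idx L) - 1)
      (by rintro M ⟨t, rfl⟩; exact hyl j t)
      (by
        obtain ⟨t, ht⟩ := hy1 j
        refine ⟨_, ⟨t, rfl⟩, ?_⟩
        intro h0
        apply ht
        apply Units.ext
        rw [sub_eq_zero] at h0
        simpa using h0)
    refine ⟨m', h1, fun t => h2 _ ⟨t, rfl⟩, ?_⟩
    obtain ⟨M, ⟨t, rfl⟩, h4⟩ := h3
    exact ⟨t, h4⟩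
  choose mm hm1 hm2 hm3 using hX
  have hmpos : ∀ j, 0 < mm j := fun j => lt_of_lt_of_le hm (hm1 j)
  set f : ι → k → Matrix C.Idx C.Idx L :=
    fun j t => C.gr lam (mm j) ((y j t : Matrix C.Idx C.Idx L) - 1) with hf
  have hfadd : ∀ j s t, f j (s + t) = f j s + f j t := by
    intro j s t
    have h1 := (C.gr_prod lam (mm j) (hmpos j) (y j s) (y j t) (hm2 j s) (hm2 j t)).2
    simp only [hf]
    rw [hya j s t]
    exact h1
  have hfV : ∀ j t, f j t ∈ VF D L lam := by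
    intro j t
    rw [mem_VF]
    constructor
    · have h1 := C.gr_mem lam hd (mm j) (hmpos j) (y j t) (hyG j t) (hm2 j t)
      refine Submodule.span_mono ?_ h1
      rintro M ⟨β, hβ, rfl⟩
      exact ⟨β, by rw [hβ]; exact hmpos j, rfl⟩
    · exact gr_fix D lam hl (mm j) (y j t) (hyf j t)
  -- the operators
  set P : T → Matrix C.Idx C.Idx L := fun τ => C.gr lam 0 (tt τ : Matrix C.Idx C.Idx L) with hP
  set P' : T → Matrix C.Idx C.Idx L :=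
    fun τ => C.gr lam 0 (((tt τ)⁻¹ : GL C.Idx L) : Matrix C.Idx C.Idx L) with hP'
  have hPP : ∀ s t, P s * P t = P t * P s := by
    intro s t
    have h1 := C.gr_mul (htl s).1 (htl t).1
    have h2 := C.gr_mul (htl t).1 (htl s).1
    simp only [hP]
    rw [← h1, ← h2]
    congr 1
    have h3 := congrArg (fun g : GL C.Idx L => (g : Matrix C.Idx C.Idx L)) (htt s t)
    simpa using h3
  have hPP' : ∀ s t, P' s * P' t = P' t * P' s := by
    intro s t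
    have h1 := C.gr_mul (htl s).2 (htl t).2
    have h2 := C.gr_mul (htl t).2 (htl s).2
    simp only [hP']
    rw [← h1, ← h2]
    congr 1
    have h4 : (tt s)⁻¹ * (tt t)⁻¹ = (tt t)⁻¹ * (tt s)⁻¹ := by
      rw [← _root_.mul_inv_rev, ← _root_.mul_inv_rev, htt s t]
    have h3 := congrArg (fun g : GL C.Idx L => (g : Matrix C.Idx C.Idx L)) h4
    simpa only [Units.val_mul] using h3
  set B : T → Matrix C.Idx C.Idx L →ₗ[L] Matrix C.Idx C.Idx L := fun τ =>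
    { toFun := fun M => P τ * M * P' τ
      map_add' := fun M N => by rw [Matrix.mul_add, Matrix.add_mul]
      map_smul' := fun c M => by
        rw [RingHom.id_apply, Matrix.mul_smul, Matrix.smul_mul] } with hB
  have hBf : ∀ j τ t, B τ (f j t) = f j (a j τ * t) := by
    intro j τ t
    have h1 := (C.gr_conj lam (mm j) (tt τ) (y j t) (htl τ).1 (htl τ).2 (hm2 j t)).2
    rw [hyT j τ t] at h1
    simp only [hB, hf, hP, hP', LinearMap.coe_mk, AddHom.coe_mk]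
    exact h1.symm
  set V : Submodule L (Matrix C.Idx C.Idx L) :=
    Submodule.span L {M | ∃ j t, M = f j t} with hV
  have hfm : ∀ j t, f j t ∈ V := fun j t => Submodule.subset_span ⟨j, t, rfl⟩
  have hVle : V ≤ VF D L lam := by
    rw [hV, Submodule.span_le]
    rintro M ⟨j, t, rfl⟩
    exact hfV j t
  have hBV : ∀ τ, ∀ M ∈ V, B τ M ∈ V := by
    intro τ M hM
    have h1 : V ≤ V.comap (B τ) := by
      conv_lhs => rw [hV]
      rw [Submodule.span_le]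
      rintro N ⟨j, t, rfl⟩
      change B τ (f j t) ∈ V
      rw [hBf]
      exact hfm _ _
    exact h1 hM
  have hcount : Nat.card ι ≤ Module.finrank L V := by
    apply Pool.Agent.H75.UK.count_le a (fun τ => (B τ).restrict (hBV τ)) ?_
      (fun j t => (⟨f j t, hfm j t⟩ : V)) ?_ ?_ ?_ hs
    · intro s t
      apply LinearMap.ext
      intro M
      apply Subtype.ext
      simp only [LinearMap.comp_apply, LinearMap.coe_restrict_apply]
      simp only [hB, LinearMap.coe_mk, AddHom.coe_mk]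
      calc P s * (P t * (M : Matrix C.Idx C.Idx L) * P' t) * P' s
          = (P s * P t) * (M : Matrix C.Idx C.Idx L) * (P' t * P' s) := by
            simp only [Matrix.mul_assoc]
        _ = (P t * P s) * (M : Matrix C.Idx C.Idx L) * (P' s * P' t) := by
            rw [hPP s t, hPP' t s]
        _ = P t * (P s * (M : Matrix C.Idx C.Idx L) * P' s) * P' t := by
            simp only [Matrix.mul_assoc]
    · intro j s t
      apply Subtype.ext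
      exact hfadd j s t
    · intro j
      obtain ⟨t, ht⟩ := hm3 j
      refine ⟨t, fun h0 => ht ?_⟩
      exact congrArg Subtype.val h0
    · intro j τ t
      apply Subtype.ext
      rw [LinearMap.coe_restrict_apply]
      exact (hBf j τ t).symm
  have hfin : Module.finrank L V ≤ Module.finrank L (VF D L lam) := Submodule.finrank_mono hVle
  exact finrank_lt D L lam hd hl (hcard.trans (hcount.trans hfin)) i

end

end Pool.Agent.H75.UL
end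

section
/- module Pool.Agent.H86.UM.A2 -/
/-!
# Project UM, module A2: a torus element in the case of one adjacent orbit (type `A_2`, `SU_3`)

Here `n = 2`, `C` is of type `A_2`, `ρ` exchanges the two simple roots `α = α_i`, `β = α_(ρ i)`, `m = 2`;
`γ = α + β`, the roots are `±α, ±β, ±γ`. Wanted: `h ∈ S.T ⊓ Eg S s` whose character `χ` at `α` is not fixed by `θ`.

Work first in the adjoint group `G = Gad k` with `A = C.adS k`, `σ = D.sgl θ` (`isSig_adS`). Choose `t = 1` and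
`v ∈ k` with `v + θ v` equal to the value needed for `y = x_(-α)(1) σ(x_(-α)(1)) x_(-γ)(v)` to be fixed by `σ`
(see the header of UT/D3.lean; `hB`), `v + θ v ≠ 0`, `v ≠ 0`. All `v + z`, `θ z = -z`, are possible too;
there are infinitely many (`k` is infinite, `t ↦ t - θ t` has kernel the fixed field, or: if `θ e = -e`,
`e ≠ 0`, all `λ e`, `λ ∈ fixF θ`).
Bruhat for `y`: `y = u₁ ν₁ v₁` (`bruhat`, `gen_adS`), `ν₁` acts by `w`. Coefficients (columns of the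
matrices, with `E_(-γ)` etc. from Defs): the coefficient of `e_(-γ)` in `y e_γ` is `± v θ(v) ≠ 0` (up to sign
`v^2 ± v t θ t`), and `y e_γ = u₁ ν₁ e_γ` is a multiple of `u₁ e_(wγ)`, so `w γ = -γ`, hence `w α = -β`,
`w β = -α` (a permutation of the roots compatible with addition, `W_add`; `w α + w β = -γ`; `w ≠ 1`). So
`w = w_J`, `U ∩ ν₁ B ν₁⁻¹ = 1`, and comparing `y = σ(y)`: `u₁, ν₁, v₁` are fixed by `σ` up to `T`; choose
`u₁, v₁ ∈ fixU`, `ν₁ ∈ N` fixed by `σ` (`N_acts`, `U_inf_Um`). So `u₁, v₁ ∈ Eg`, and `ν₁ = u₁⁻¹ y v₁⁻¹ ∈ Eg`.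
`κ`: `ν₁ e_α = κ e_(-β)`, `ν₁ e_γ = κ' e_(-γ)`. Write `u₁ = x_α(a) x_β(θ a) x_γ(c)`,
`v₁ = x_α(a') x_β(θ a') x_γ(c')` (signs `1` on simple roots), `t = 1`:
`y e_γ = u₁ (κ' e_(-γ))`: coefficient of `e_(-γ)`: `κ' = ± v θ v`; of `e_(-β)`: `± a κ' = ± v`.
`y e_α = u₁ ν₁ (e_α ± θ(a') e_γ) = u₁ (κ e_(-β) ± θ(a') κ' e_(-γ))`: coefficient of `e_(-γ)`:
`± θ(a') κ' = ± v`; of `e_(-β)`: `κ ± a θ(a') κ' = ± v`. So `κ = ± v ± v / θ(v) * (sign)`; more precisely the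
signs work out to `κ = ± v (θ(v) ± t θ t) / θ(v) = ± v^2 / θ(v)` (since `θ v ± t θ t = -v` with the sign of the
condition on `v`; the calculation in `SL_3` is: `X = [[1,t,w],[0,1,θt],[0,0,1]]`, `w + θ w = t θ t`,
`X Y X' = antidiag(w, -θ(w)/w, 1/θ(w))`).
With `n₀ = nn x_γ e` (`e ≠ 0`, `θ e = -e`, fixed by `σ`, in `Eg`), which maps `e_α` to `± e⁻¹ e_(-β)`, the element
`h₁ = n₀⁻¹ ν₁` is in `T ∩ Eg` and acts on `x_α` by `χ = ± e v^2 / θ(v)` (or its inverse or `θ`-image; what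
matters: `θ χ = χ` only if `v^3 = - θ(v)^3` up to sign, i.e. `(v / θ v)^3 = ± 1`).
`v / θ v = ζ` and `v + θ v = τ ≠ 0` determine `v`, so at most six `v` are excluded; choose another one.
Finally lift to `H`: `h₁ = u₁⁻¹ ..` is a product of elements of `fixU`, `fixUm` of the adjoint group, which are
images of elements of `fixX D S s (± simple i)` under `p` (`fixX_form`, `fixX_exists` or the explicit
elements), so `h₁ = p h` with `h ∈ Eg S s`; `h ∈ S.gen`, Bruhat in `H`: `h = u ν v`, `p ν` acts by `1` by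
`bruhat_unique`, so `ν ∈ S.T` (`N_acts`), and `h = (u (ν v ν⁻¹)) ν` with `p (u (ν v ν⁻¹)) ∈ T ∩ U = 1`
(`S9_T_one`), so `u (ν v ν⁻¹) = 1` by injectivity of `p` on `S.U 1` (`exists_lp`, `lp_unique`), `h = ν ∈ S.T`.
(One may also work in `H` throughout: `y ∈ H`, `S.bruhat`.)
-/

set_option autoImplicit false
open Matrix

namespace Pool.Agent.H86.UM

open Pool.Agent.H75.UL

section ident
variable {n : ℕ} {C : SLC n} {K : Type*} [Field K] {H : Type*} [Group H]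

/-- The root data of type `A_2`. -/
private structure A2D (C : SLC n) (α β γ : C.Root) (ε : ℤ) : Prop where
  hγ : γ.1 = α.1 + β.1
  ab : C.ip α.1 β.1 = -1
  hε : C.eps α.1 β.1 = ε

private theorem A2D.ba {α β γ : C.Root} {ε : ℤ} (d : A2D C α β γ ε) : C.ip β.1 α.1 = -1 := by
  rw [C.ip_comm, d.ab]

private theorem A2D.ag {α β γ : C.Root} {ε : ℤ} (d : A2D C α β γ ε) : C.ip α.1 γ.1 = 1 := by
  rw [d.hγ, C.ip_add_right, α.2, d.ab]; norm_num

private theorem A2D.bg {α β γ : C.Root} {ε : ℤ} (d : A2D C α β γ ε) : C.ip β.1 γ.1 = 1 := by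
  rw [d.hγ, C.ip_add_right, β.2, d.ba]; norm_num

private theorem A2D.ga {α β γ : C.Root} {ε : ℤ} (d : A2D C α β γ ε) : C.ip γ.1 α.1 = 1 := by
  rw [C.ip_comm, d.ag]

private theorem A2D.gb {α β γ : C.Root} {ε : ℤ} (d : A2D C α β γ ε) : C.ip γ.1 β.1 = 1 := by
  rw [C.ip_comm, d.bg]

private theorem A2D.eba {α β γ : C.Root} {ε : ℤ} (d : A2D C α β γ ε) : C.eps β.1 α.1 = -ε := by
  rw [C.eps_swap_of_odd α.1 β.1 (Or.inr d.ab), d.hε]

private theorem A2D.eag {α β γ : C.Root} {ε : ℤ} (d : A2D C α β γ ε) : C.eps α.1 γ.1 = -ε := by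
  rw [d.hγ, C.eps_add_right, C.eps_self, d.hε]; ring

private theorem A2D.ega {α β γ : C.Root} {ε : ℤ} (d : A2D C α β γ ε) : C.eps γ.1 α.1 = ε := by
  rw [d.hγ, C.eps_add_left, C.eps_self, d.eba]; ring

private theorem A2D.ebg {α β γ : C.Root} {ε : ℤ} (d : A2D C α β γ ε) : C.eps β.1 γ.1 = ε := by
  rw [d.hγ, C.eps_add_right, C.eps_self, d.eba]; ring

private theorem A2D.egb {α β γ : C.Root} {ε : ℤ} (d : A2D C α β γ ε) : C.eps γ.1 β.1 = -ε := by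
  rw [d.hγ, C.eps_add_left, C.eps_self, d.hε]; ring

private theorem A2D.sq {α β γ : C.Root} {ε : ℤ} (d : A2D C α β γ ε) : (ε : K) * ε = 1 := by
  have h := C.eps_sq α.1 β.1
  rw [d.hε] at h
  exact_mod_cast congrArg (Int.cast : ℤ → K) h

/-- Conjugation by `nn` with all data given. -/
private theorem A2_conj (S : StSys C K H) (α β δ : C.Root) (e m : ℤ) (t u : K) (ht : t ≠ 0)
    (h1 : C.ip α.1 β.1 = m) (hm : m = 1 ∨ m = -1) (hδ : δ.1 = β.1 - m • α.1)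
    (he : C.eps α.1 β.1 = e) :
    nn S.x α t * S.x β u * (nn S.x α t)⁻¹ = S.x δ ((e : K) * t ^ (-m) * u) := by
  have h := S.n_conj_all α β t u ht
  have h2 : C.refl α β = δ := by
    apply SLC.Root.ext
    rw [C.refl_val, h1, hδ]
  have h3 : C.cs α β = e := by
    unfold SLC.cs
    rw [if_pos (by rw [h1]; exact hm), he]
  rw [h2, h3, h1] at h
  exact h

/-- The same, moved through. -/
private theorem A2_mv (S : StSys C K H) (α β δ : C.Root) (e m : ℤ) (t u z : K) (ht : t ≠ 0)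
    (h1 : C.ip α.1 β.1 = m) (hm : m = 1 ∨ m = -1) (hδ : δ.1 = β.1 - m • α.1)
    (he : C.eps α.1 β.1 = e) (hz : (e : K) * t ^ (-m) * u = z) :
    nn S.x α t * S.x β u = S.x δ z * nn S.x α t := by
  rw [← hz, ← A2_conj S α β δ e m t u ht h1 hm hδ he]
  group

private theorem A2_mv' (S : StSys C K H) (α β δ : C.Root) (e m : ℤ) (t u z : K) (ht : t ≠ 0)
    (h1 : C.ip α.1 β.1 = m) (hm : m = 1 ∨ m = -1) (hδ : δ.1 = β.1 - m • α.1)
    (he : C.eps α.1 β.1 = e) (hz : (e : K) * (-t) ^ (-m) * u = z) :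
    S.x β u * nn S.x α t = nn S.x α t * S.x δ z := by
  have h := A2_conj S α β δ e m (-t) u (neg_ne_zero.mpr ht) h1 hm hδ he
  rw [← S.nn_inv, inv_inv, hz] at h
  rw [← h]
  group

/-- Commutation of two root elements whose sum is a root. -/
private theorem A2_cm (S : StSys C K H) (α β γ : C.Root) (e : ℤ) (t u z : K)
    (hγ : γ.1 = α.1 + β.1) (he : C.eps α.1 β.1 = e) (hz : (e : K) * t * u = z) :
    S.x α t * S.x β u = S.x γ z * (S.x β u * S.x α t) := by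
  have h := S.comm_add α β γ t u hγ
  rw [he, hz] at h
  rw [← h]
  group


private theorem A2_single (S : StSys C K H) (α : C.Root) (t z : K) (hz : t⁻¹ = z) :
    S.x (-α) t = S.x α (-z) * nn S.x α z * S.x α (-z) := by
  unfold nn
  rw [← hz, inv_inv, S.x_neg]
  group

private theorem A2_one (S : StSys C K H) (α : C.Root) (u : K) :
    nn S.x α 1 * S.x (-α) u = S.x α u * nn S.x α 1 := by
  have h := S.n_conj α (-1) u (by simp)
  rw [← S.nn_inv] at h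
  have h2 : ((-1 : K)⁻¹) ^ 2 * u = u := by rw [inv_pow]; simp
  rw [h2] at h
  rw [← h]
  group

/-- The Bruhat decomposition of `x_(-α)(1) x_(-β)(1) x_(-γ)(v)`. -/
private theorem A2_ident (S : StSys C K H) {α β γ : C.Root} {ε : ℤ} (d : A2D C α β γ ε) (v v' : K)
    (hv : v ≠ 0) (hv' : v' ≠ 0) (h : v + v' = -(ε : K)) :
    S.x (-α) 1 * S.x (-β) 1 * S.x (-γ) v =
      S.x β (ε * v⁻¹) * S.x γ (-v⁻¹) * S.x α (ε * v'⁻¹) *
      (nn S.x α 1 * nn S.x γ v⁻¹ * nn S.x β (-(ε * v'⁻¹))) *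
      (S.x γ v'⁻¹ * S.x α (ε * v⁻¹) * S.x β (ε * v'⁻¹)) := by
  have hε : (ε : K) * ε = 1 := d.sq
  have hε0 : (ε : K) ≠ 0 := fun h0 => by rw [h0, mul_zero] at hε; exact zero_ne_one hε
  have hc : v⁻¹ ≠ 0 := inv_ne_zero hv
  have hq : (-(ε * v') : K) ≠ 0 := neg_ne_zero.mpr (mul_ne_zero hε0 hv')
  have hεi : (ε : K)⁻¹ = ε := inv_eq_of_mul_eq_one_left hε
  have hr : (-(ε * v') : K)⁻¹ = -(ε * v'⁻¹) := by
    rw [inv_neg, mul_inv, hεi]
  have hr0 : (-(ε * v'⁻¹) : K) ≠ 0 := by rw [← hr]; exact inv_ne_zero hq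
  have hv2 : v' = -(ε : K) - v := by rw [← h]; ring
  -- step 1
  have s1 : S.x (-γ) v = S.x γ (-v⁻¹) * nn S.x γ v⁻¹ * S.x γ (-v⁻¹) := A2_single S γ v _ rfl
  -- step 2
  have s2 : S.x (-β) 1 * S.x γ (-v⁻¹) = S.x α (-(ε * v⁻¹)) * (S.x γ (-v⁻¹) * S.x (-β) 1) :=
    A2_cm S (-β) γ α ε 1 (-v⁻¹) _ (by rw [SLC.Root.neg_val, d.hγ]; abel)
      (by rw [SLC.Root.neg_val, C.eps_neg_left, d.ebg]) (by ring)
  -- step 3
  have s3 : S.x (-α) 1 * S.x γ (-v⁻¹) = S.x β (ε * v⁻¹) * (S.x γ (-v⁻¹) * S.x (-α) 1) :=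
    A2_cm S (-α) γ β (-ε) 1 (-v⁻¹) _ (by rw [SLC.Root.neg_val, d.hγ]; abel)
      (by rw [SLC.Root.neg_val, C.eps_neg_left, d.eag]) (by push_cast; ring)
  have s3' : S.x α (-(ε * v⁻¹)) * S.x γ (-v⁻¹) = S.x γ (-v⁻¹) * S.x α (-(ε * v⁻¹)) :=
    S.comm α γ _ _ (by rw [d.ag]; norm_num)
  -- step 4
  have s4 : S.x (-α) 1 = S.x α (-1) * nn S.x α 1 * S.x α (-1) :=
    A2_single S α 1 _ (by simp)
  have s4' : S.x α (-1) * S.x α (-(ε * v⁻¹)) = S.x α (-1 - ε * v⁻¹) := by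
    rw [← S.map_add]; congr 1; ring
  -- step 5
  have s5 : S.x α (-1 - ε * v⁻¹) * S.x (-β) 1 = S.x (-β) 1 * S.x α (-1 - ε * v⁻¹) :=
    S.comm α (-β) _ _ (by rw [SLC.Root.neg_val, C.ip_neg_right, d.ab]; norm_num)
  -- step 6
  have s6 : S.x α (-1 - ε * v⁻¹) * nn S.x γ v⁻¹ = nn S.x γ v⁻¹ * S.x (-β) (-(ε * v')) :=
    A2_mv' S γ α (-β) ε 1 v⁻¹ _ _ hc d.ga (Or.inl rfl)
      (by rw [SLC.Root.neg_val, d.hγ, one_smul]; abel) d.ega (by
        rw [hv2, _root_.zpow_neg, zpow_one, inv_neg, inv_inv]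
        have e1 : v⁻¹ * v = 1 := inv_mul_cancel₀ hv
        linear_combination (ε : K) * (ε : K) * e1)
  -- step 7
  have s7 : S.x (-β) 1 * nn S.x γ v⁻¹ = nn S.x γ v⁻¹ * S.x α (ε * v⁻¹) :=
    A2_mv' S γ (-β) α (-ε) (-1) v⁻¹ _ _ hc
      (by rw [SLC.Root.neg_val, C.ip_neg_right, d.gb]) (Or.inr rfl)
      (by rw [SLC.Root.neg_val, d.hγ, neg_smul, one_smul]; abel)
      (by rw [SLC.Root.neg_val, C.eps_neg_right, d.egb]) (by
        rw [neg_neg, zpow_one]; push_cast; ring)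
  -- step 8
  have s8 : S.x (-β) (-(ε * v')) * S.x γ (-v⁻¹) =
      S.x α (v' * v⁻¹) * (S.x γ (-v⁻¹) * S.x (-β) (-(ε * v'))) :=
    A2_cm S (-β) γ α ε _ (-v⁻¹) _ (by rw [SLC.Root.neg_val, d.hγ]; abel)
      (by rw [SLC.Root.neg_val, C.eps_neg_left, d.ebg]) (by linear_combination (v' * v⁻¹) * hε)
  have s8' : S.x α (ε * v⁻¹) * S.x α (v' * v⁻¹) = S.x α (-1) := by
    rw [← S.map_add]
    congr 1
    have e1 : v⁻¹ * v = 1 := inv_mul_cancel₀ hv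
    rw [hv2]
    linear_combination -e1
  -- step 9
  have s9 : S.x (-β) (-(ε * v')) =
      S.x β (ε * v'⁻¹) * nn S.x β (-(ε * v'⁻¹)) * S.x β (ε * v'⁻¹) := by
    have := A2_single S β (-(ε * v')) _ hr
    rwa [neg_neg] at this
  -- step 10
  have s10 : S.x γ (-v⁻¹) * S.x β (ε * v'⁻¹) = S.x β (ε * v'⁻¹) * S.x γ (-v⁻¹) :=
    S.comm γ β _ _ (by rw [d.gb]; norm_num)
  have s10a : S.x α (-1) * S.x β (ε * v'⁻¹) =
      S.x γ (-v'⁻¹) * (S.x β (ε * v'⁻¹) * S.x α (-1)) :=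
    A2_cm S α β γ ε _ _ _ d.hγ d.hε (by linear_combination (-v'⁻¹) * hε)
  have s10b : S.x γ (-v'⁻¹) * S.x β (ε * v'⁻¹) = S.x β (ε * v'⁻¹) * S.x γ (-v'⁻¹) :=
    S.comm γ β _ _ (by rw [d.gb]; norm_num)
  have s10c : S.x γ (-v'⁻¹) * S.x α (-1) = S.x α (-1) * S.x γ (-v'⁻¹) :=
    S.comm γ α _ _ (by rw [d.ga]; norm_num)
  have s10d : S.x γ (-v'⁻¹) * S.x γ (-v⁻¹) = S.x γ (-v'⁻¹ - v⁻¹) := by
    rw [← S.map_add]; congr 1; ring
  -- step 11
  have s11 : nn S.x γ v⁻¹ * S.x β (ε * v'⁻¹) = S.x (-α) (-(v * v'⁻¹)) * nn S.x γ v⁻¹ :=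
    A2_mv S γ β (-α) (-ε) 1 v⁻¹ _ _ hc d.gb (Or.inl rfl)
      (by rw [SLC.Root.neg_val, d.hγ, one_smul]; abel) d.egb (by
        rw [_root_.zpow_neg, zpow_one, inv_inv]
        push_cast
        linear_combination (-(v * v'⁻¹)) * hε)
  have s12 := A2_one S α (-(v * v'⁻¹))
  have s12' : S.x α (-1) * S.x α (-(v * v'⁻¹)) = S.x α (ε * v'⁻¹) := by
    rw [← S.map_add]
    congr 1
    have e1 : v' * v'⁻¹ = 1 := mul_inv_cancel₀ hv'
    linear_combination e1 - v'⁻¹ * h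
  -- step 13
  have s13 : S.x α (-1) * nn S.x β (-(ε * v'⁻¹)) = nn S.x β (-(ε * v'⁻¹)) * S.x γ v'⁻¹ :=
    A2_mv' S β α γ (-ε) (-1) _ _ _ hr0 d.ba (Or.inr rfl)
      (by rw [d.hγ, neg_smul, one_smul]; abel) d.eba (by
        rw [neg_neg, neg_neg, zpow_one]
        push_cast
        linear_combination v'⁻¹ * hε)
  have s14 : S.x γ (-v'⁻¹ - v⁻¹) * nn S.x β (-(ε * v'⁻¹)) =
      nn S.x β (-(ε * v'⁻¹)) * S.x α (ε * v⁻¹) :=
    A2_mv' S β γ α ε 1 _ _ _ hr0 d.bg (Or.inl rfl)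
      (by rw [d.hγ, one_smul]; abel) d.ebg (by
        rw [neg_neg, _root_.zpow_neg, zpow_one, mul_inv, hεi, inv_inv]
        have e1 : v' * v'⁻¹ = 1 := mul_inv_cancel₀ hv'
        have e2 : v * v⁻¹ = 1 := mul_inv_cancel₀ hv
        linear_combination (-v' * v'⁻¹ - v' * v⁻¹) * hε - e1 - v⁻¹ * h + e2)
  -- assembly
  calc S.x (-α) 1 * S.x (-β) 1 * S.x (-γ) v
      = S.x (-α) 1 * S.x (-β) 1 * (S.x γ (-v⁻¹) * nn S.x γ v⁻¹ * S.x γ (-v⁻¹)) := by rw [s1]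
    _ = S.x (-α) 1 * (S.x (-β) 1 * S.x γ (-v⁻¹)) * nn S.x γ v⁻¹ * S.x γ (-v⁻¹) := by group
    _ = S.x (-α) 1 * (S.x α (-(ε * v⁻¹)) * (S.x γ (-v⁻¹) * S.x (-β) 1)) * nn S.x γ v⁻¹ *
          S.x γ (-v⁻¹) := by rw [s2]
    _ = S.x (-α) 1 * (S.x α (-(ε * v⁻¹)) * S.x γ (-v⁻¹)) * (S.x (-β) 1 * nn S.x γ v⁻¹ *
          S.x γ (-v⁻¹)) := by group
    _ = S.x (-α) 1 * (S.x γ (-v⁻¹) * S.x α (-(ε * v⁻¹))) * (S.x (-β) 1 * nn S.x γ v⁻¹ *
          S.x γ (-v⁻¹)) := by rw [s3']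
    _ = (S.x (-α) 1 * S.x γ (-v⁻¹)) * (S.x α (-(ε * v⁻¹)) * (S.x (-β) 1 * nn S.x γ v⁻¹ *
          S.x γ (-v⁻¹))) := by group
    _ = (S.x β (ε * v⁻¹) * (S.x γ (-v⁻¹) * S.x (-α) 1)) * (S.x α (-(ε * v⁻¹)) *
          (S.x (-β) 1 * nn S.x γ v⁻¹ * S.x γ (-v⁻¹))) := by rw [s3]
    _ = (S.x β (ε * v⁻¹) * (S.x γ (-v⁻¹) * (S.x α (-1) * nn S.x α 1 * S.x α (-1)))) *
          (S.x α (-(ε * v⁻¹)) * (S.x (-β) 1 * nn S.x γ v⁻¹ * S.x γ (-v⁻¹))) := by rw [← s4]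
    _ = (S.x β (ε * v⁻¹) * S.x γ (-v⁻¹) * S.x α (-1) * nn S.x α 1) *
          (S.x α (-1) * S.x α (-(ε * v⁻¹))) * (S.x (-β) 1 * nn S.x γ v⁻¹ * S.x γ (-v⁻¹)) := by
        group
    _ = (S.x β (ε * v⁻¹) * S.x γ (-v⁻¹) * S.x α (-1) * nn S.x α 1) *
          (S.x α (-1 - ε * v⁻¹) * S.x (-β) 1) * (nn S.x γ v⁻¹ * S.x γ (-v⁻¹)) := by
        rw [s4']; group
    _ = (S.x β (ε * v⁻¹) * S.x γ (-v⁻¹) * S.x α (-1) * nn S.x α 1) * S.x (-β) 1 *
          (S.x α (-1 - ε * v⁻¹) * nn S.x γ v⁻¹) * S.x γ (-v⁻¹) := by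
        rw [s5]; group
    _ = (S.x β (ε * v⁻¹) * S.x γ (-v⁻¹) * S.x α (-1) * nn S.x α 1) *
          (S.x (-β) 1 * nn S.x γ v⁻¹) * (S.x (-β) (-(ε * v')) * S.x γ (-v⁻¹)) := by
        rw [s6]; group
    _ = (S.x β (ε * v⁻¹) * S.x γ (-v⁻¹) * S.x α (-1) * nn S.x α 1) *
          (nn S.x γ v⁻¹ * S.x α (ε * v⁻¹)) * (S.x α (v' * v⁻¹) *
            (S.x γ (-v⁻¹) * S.x (-β) (-(ε * v')))) := by rw [s7, s8]
    _ = (S.x β (ε * v⁻¹) * S.x γ (-v⁻¹) * S.x α (-1) * nn S.x α 1 * nn S.x γ v⁻¹) *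
          (S.x α (ε * v⁻¹) * S.x α (v' * v⁻¹)) * (S.x γ (-v⁻¹) * S.x (-β) (-(ε * v'))) := by
        group
    _ = (S.x β (ε * v⁻¹) * S.x γ (-v⁻¹) * S.x α (-1) * nn S.x α 1 * nn S.x γ v⁻¹) *
          S.x α (-1) * (S.x γ (-v⁻¹) * (S.x β (ε * v'⁻¹) * nn S.x β (-(ε * v'⁻¹)) *
            S.x β (ε * v'⁻¹))) := by rw [s8', s9]
    _ = (S.x β (ε * v⁻¹) * S.x γ (-v⁻¹) * S.x α (-1) * nn S.x α 1 * nn S.x γ v⁻¹) *
          S.x α (-1) * (S.x γ (-v⁻¹) * S.x β (ε * v'⁻¹)) * (nn S.x β (-(ε * v'⁻¹)) *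
            S.x β (ε * v'⁻¹)) := by group
    _ = (S.x β (ε * v⁻¹) * S.x γ (-v⁻¹) * S.x α (-1) * nn S.x α 1 * nn S.x γ v⁻¹) *
          (S.x α (-1) * S.x β (ε * v'⁻¹)) * (S.x γ (-v⁻¹) * (nn S.x β (-(ε * v'⁻¹)) *
            S.x β (ε * v'⁻¹))) := by rw [s10]; group
    _ = (S.x β (ε * v⁻¹) * S.x γ (-v⁻¹) * S.x α (-1) * nn S.x α 1 * nn S.x γ v⁻¹) *
          (S.x γ (-v'⁻¹) * S.x β (ε * v'⁻¹)) * (S.x α (-1) * (S.x γ (-v⁻¹) *
            (nn S.x β (-(ε * v'⁻¹)) * S.x β (ε * v'⁻¹)))) := by rw [s10a]; group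
    _ = (S.x β (ε * v⁻¹) * S.x γ (-v⁻¹) * S.x α (-1) * nn S.x α 1 * nn S.x γ v⁻¹) *
          S.x β (ε * v'⁻¹) * (S.x γ (-v'⁻¹) * S.x α (-1)) * (S.x γ (-v⁻¹) *
            (nn S.x β (-(ε * v'⁻¹)) * S.x β (ε * v'⁻¹))) := by rw [s10b]; group
    _ = (S.x β (ε * v⁻¹) * S.x γ (-v⁻¹) * S.x α (-1) * nn S.x α 1 * nn S.x γ v⁻¹) *
          S.x β (ε * v'⁻¹) * S.x α (-1) * (S.x γ (-v'⁻¹) * S.x γ (-v⁻¹)) *
            (nn S.x β (-(ε * v'⁻¹)) * S.x β (ε * v'⁻¹)) := by rw [s10c]; group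
    _ = (S.x β (ε * v⁻¹) * S.x γ (-v⁻¹) * S.x α (-1) * nn S.x α 1 * nn S.x γ v⁻¹) *
          S.x β (ε * v'⁻¹) * S.x α (-1) * (S.x γ (-v'⁻¹ - v⁻¹) *
            nn S.x β (-(ε * v'⁻¹))) * S.x β (ε * v'⁻¹) := by rw [s10d]; group
    _ = (S.x β (ε * v⁻¹) * S.x γ (-v⁻¹) * S.x α (-1) * nn S.x α 1 * nn S.x γ v⁻¹) *
          S.x β (ε * v'⁻¹) * (S.x α (-1) * nn S.x β (-(ε * v'⁻¹))) * (S.x α (ε * v⁻¹) *
            S.x β (ε * v'⁻¹)) := by rw [s14]; group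
    _ = (S.x β (ε * v⁻¹) * S.x γ (-v⁻¹) * S.x α (-1) * nn S.x α 1) * (nn S.x γ v⁻¹ *
          S.x β (ε * v'⁻¹)) * (nn S.x β (-(ε * v'⁻¹)) * (S.x γ v'⁻¹ * S.x α (ε * v⁻¹) *
            S.x β (ε * v'⁻¹))) := by rw [s13]; group
    _ = (S.x β (ε * v⁻¹) * S.x γ (-v⁻¹) * S.x α (-1)) * (nn S.x α 1 *
          S.x (-α) (-(v * v'⁻¹))) * (nn S.x γ v⁻¹ * nn S.x β (-(ε * v'⁻¹)) *
            (S.x γ v'⁻¹ * S.x α (ε * v⁻¹) * S.x β (ε * v'⁻¹))) := by rw [s11]; group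
    _ = (S.x β (ε * v⁻¹) * S.x γ (-v⁻¹)) * (S.x α (-1) * S.x α (-(v * v'⁻¹))) *
          (nn S.x α 1 * nn S.x γ v⁻¹ * nn S.x β (-(ε * v'⁻¹)) *
            (S.x γ v'⁻¹ * S.x α (ε * v⁻¹) * S.x β (ε * v'⁻¹))) := by rw [s12]; group
    _ = _ := by rw [s12']; group

private theorem A2_abi {ε v v' : K} (hv : v ≠ 0) (hv' : v' ≠ 0) (h : v + v' = -ε) :
    ε * v⁻¹ * v'⁻¹ + v'⁻¹ = -v⁻¹ := by
  have e1 : v' * v'⁻¹ = 1 := mul_inv_cancel₀ hv'
  have e2 : v * v⁻¹ = 1 := mul_inv_cancel₀ hv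
  linear_combination v⁻¹ * v'⁻¹ * h - v'⁻¹ * e2 - v⁻¹ * e1

private theorem A2_u1 (S : StSys C K H) {α β γ : C.Root} {ε : ℤ} (d : A2D C α β γ ε) (v v' : K)
    (hv : v ≠ 0) (hv' : v' ≠ 0) (h : v + v' = -(ε : K)) :
    S.x α (ε * v'⁻¹) * S.x γ v'⁻¹ * S.x β (ε * v⁻¹) =
      S.x β (ε * v⁻¹) * S.x γ (-v⁻¹) * S.x α (ε * v'⁻¹) := by
  have hε : (ε : K) * ε = 1 := d.sq
  have s1 : S.x γ v'⁻¹ * S.x β (ε * v⁻¹) = S.x β (ε * v⁻¹) * S.x γ v'⁻¹ :=
    S.comm γ β _ _ (by rw [d.gb]; norm_num)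
  have s2 : S.x α (ε * v'⁻¹) * S.x β (ε * v⁻¹) =
      S.x γ (ε * v⁻¹ * v'⁻¹) * (S.x β (ε * v⁻¹) * S.x α (ε * v'⁻¹)) :=
    A2_cm S α β γ ε _ _ _ d.hγ d.hε (by linear_combination (ε * v⁻¹ * v'⁻¹) * hε)
  have s3 : S.x γ (ε * v⁻¹ * v'⁻¹) * S.x β (ε * v⁻¹) =
      S.x β (ε * v⁻¹) * S.x γ (ε * v⁻¹ * v'⁻¹) := S.comm γ β _ _ (by rw [d.gb]; norm_num)
  have s4 : S.x α (ε * v'⁻¹) * S.x γ v'⁻¹ = S.x γ v'⁻¹ * S.x α (ε * v'⁻¹) :=
    S.comm α γ _ _ (by rw [d.ag]; norm_num)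
  have s5 : S.x γ (ε * v⁻¹ * v'⁻¹) * S.x γ v'⁻¹ = S.x γ (-v⁻¹) := by
    rw [← S.map_add, A2_abi hv hv' h]
  calc S.x α (ε * v'⁻¹) * S.x γ v'⁻¹ * S.x β (ε * v⁻¹)
      = S.x α (ε * v'⁻¹) * (S.x γ v'⁻¹ * S.x β (ε * v⁻¹)) := by group
    _ = (S.x α (ε * v'⁻¹) * S.x β (ε * v⁻¹)) * S.x γ v'⁻¹ := by rw [s1]; group
    _ = (S.x γ (ε * v⁻¹ * v'⁻¹) * S.x β (ε * v⁻¹)) * (S.x α (ε * v'⁻¹) * S.x γ v'⁻¹) := by
        rw [s2]; group
    _ = S.x β (ε * v⁻¹) * (S.x γ (ε * v⁻¹ * v'⁻¹) * S.x γ v'⁻¹) * S.x α (ε * v'⁻¹) := by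
        rw [s3, s4]; group
    _ = _ := by rw [s5]

private theorem A2_v1 (S : StSys C K H) {α β γ : C.Root} {ε : ℤ} (d : A2D C α β γ ε) (v v' : K)
    (hv : v ≠ 0) (hv' : v' ≠ 0) (h : v + v' = -(ε : K)) :
    S.x γ (-v⁻¹) * S.x β (ε * v'⁻¹) * S.x α (ε * v⁻¹) =
      S.x γ v'⁻¹ * S.x α (ε * v⁻¹) * S.x β (ε * v'⁻¹) := by
  have hε : (ε : K) * ε = 1 := d.sq
  have s2 : S.x α (ε * v⁻¹) * S.x β (ε * v'⁻¹) =
      S.x γ (ε * v⁻¹ * v'⁻¹) * (S.x β (ε * v'⁻¹) * S.x α (ε * v⁻¹)) :=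
    A2_cm S α β γ ε _ _ _ d.hγ d.hε (by linear_combination (ε * v⁻¹ * v'⁻¹) * hε)
  have s5 : S.x γ v'⁻¹ * S.x γ (ε * v⁻¹ * v'⁻¹) = S.x γ (-v⁻¹) := by
    rw [← S.map_add, ← A2_abi hv hv' h, add_comm]
  calc S.x γ (-v⁻¹) * S.x β (ε * v'⁻¹) * S.x α (ε * v⁻¹)
      = S.x γ v'⁻¹ * (S.x γ (ε * v⁻¹ * v'⁻¹) * (S.x β (ε * v'⁻¹) * S.x α (ε * v⁻¹))) := by
        rw [← s5]; group
    _ = _ := by rw [← s2]; group

private theorem A2_y (S : StSys C K H) {α β γ : C.Root} {ε : ℤ} (d : A2D C α β γ ε) (v v' : K)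
    (h : v + v' = -(ε : K)) :
    S.x (-β) 1 * S.x (-α) 1 * S.x (-γ) (-v') = S.x (-α) 1 * S.x (-β) 1 * S.x (-γ) v := by
  have s2 : S.x (-α) 1 * S.x (-β) 1 = S.x (-γ) (ε : K) * (S.x (-β) 1 * S.x (-α) 1) :=
    A2_cm S (-α) (-β) (-γ) ε _ _ _ (by simp only [SLC.Root.neg_val]; rw [d.hγ]; abel)
      (by rw [SLC.Root.neg_val, SLC.Root.neg_val, C.eps_neg_left, C.eps_neg_right, d.hε])
      (by ring)
  have s3 : S.x (-γ) (ε : K) * S.x (-β) 1 = S.x (-β) 1 * S.x (-γ) (ε : K) :=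
    S.comm (-γ) (-β) _ _ (by
      rw [SLC.Root.neg_val, SLC.Root.neg_val, C.ip_neg_neg, d.gb]; norm_num)
  have s4 : S.x (-γ) (ε : K) * S.x (-α) 1 = S.x (-α) 1 * S.x (-γ) (ε : K) :=
    S.comm (-γ) (-α) _ _ (by
      rw [SLC.Root.neg_val, SLC.Root.neg_val, C.ip_neg_neg, d.ga]; norm_num)
  have s5 : S.x (-γ) (ε : K) * S.x (-γ) v = S.x (-γ) (-v') := by
    rw [← S.map_add]
    congr 1
    linear_combination h
  calc S.x (-β) 1 * S.x (-α) 1 * S.x (-γ) (-v')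
      = S.x (-β) 1 * (S.x (-α) 1 * S.x (-γ) (ε : K)) * S.x (-γ) v := by rw [← s5]; group
    _ = (S.x (-β) 1 * S.x (-γ) (ε : K)) * (S.x (-α) 1 * S.x (-γ) v) := by rw [← s4]; group
    _ = S.x (-γ) (ε : K) * (S.x (-β) 1 * S.x (-α) 1) * S.x (-γ) v := by rw [← s3]; group
    _ = _ := by rw [← s2]

/-- The action on `x_α`. -/
private theorem A2_act1 (S : StSys C K H) {α β γ : C.Root} {ε : ℤ} (d : A2D C α β γ ε)
    (v v' e u : K) (hv : v ≠ 0) (hv' : v' ≠ 0) (he : e ≠ 0) :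
    ((nn S.x γ e)⁻¹ * (nn S.x α 1 * nn S.x γ v⁻¹ * nn S.x β (-(ε * v'⁻¹)))) * S.x α u *
      ((nn S.x γ e)⁻¹ * (nn S.x α 1 * nn S.x γ v⁻¹ * nn S.x β (-(ε * v'⁻¹))))⁻¹ =
      S.x α (-(e * v ^ 2 * v'⁻¹) * u) := by
  have hε : (ε : K) * ε = 1 := d.sq
  have hε0 : (ε : K) ≠ 0 := fun h0 => by rw [h0, mul_zero] at hε; exact zero_ne_one hε
  have hr0 : (-(ε * v'⁻¹) : K) ≠ 0 := neg_ne_zero.mpr (mul_ne_zero hε0 (inv_ne_zero hv'))
  have s1 : nn S.x β (-(ε * v'⁻¹)) * S.x α u = S.x γ (v'⁻¹ * u) * nn S.x β (-(ε * v'⁻¹)) :=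
    A2_mv S β α γ (-ε) (-1) _ _ _ hr0 d.ba (Or.inr rfl)
      (by rw [d.hγ, neg_smul, one_smul]; abel) d.eba (by
        rw [neg_neg, zpow_one]
        push_cast
        linear_combination (v'⁻¹ * u) * hε)
  have s2 : nn S.x γ v⁻¹ * S.x γ (v'⁻¹ * u) = S.x (-γ) (v ^ 2 * (v'⁻¹ * u)) * nn S.x γ v⁻¹ := by
    have h := S.n_conj γ v⁻¹ (v'⁻¹ * u) (inv_ne_zero hv)
    rw [inv_inv] at h
    rw [← h]
    group
  have s3 : nn S.x α 1 * S.x (-γ) (v ^ 2 * (v'⁻¹ * u)) =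
      S.x (-β) (-ε * (v ^ 2 * (v'⁻¹ * u))) * nn S.x α 1 :=
    A2_mv S α (-γ) (-β) (-ε) (-1) _ _ _ one_ne_zero
      (by rw [SLC.Root.neg_val, C.ip_neg_right, d.ag]) (Or.inr rfl)
      (by simp only [SLC.Root.neg_val]; rw [d.hγ, neg_smul, one_smul]; abel)
      (by rw [SLC.Root.neg_val, C.eps_neg_right, d.eag]) (by
        rw [_root_.one_zpow]; push_cast; ring)
  have s4 : nn S.x γ (-e) * S.x (-β) (-ε * (v ^ 2 * (v'⁻¹ * u))) =
      S.x α (-(e * v ^ 2 * v'⁻¹) * u) * nn S.x γ (-e) :=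
    A2_mv S γ (-β) α (-ε) (-1) _ _ _ (neg_ne_zero.mpr he)
      (by rw [SLC.Root.neg_val, C.ip_neg_right, d.gb]) (Or.inr rfl)
      (by rw [SLC.Root.neg_val, d.hγ, neg_smul, one_smul]; abel)
      (by rw [SLC.Root.neg_val, C.eps_neg_right, d.egb]) (by
        rw [neg_neg, zpow_one]
        push_cast
        linear_combination (-(e * v ^ 2 * v'⁻¹ * u)) * hε)
  rw [S.nn_inv, mul_inv_eq_iff_eq_mul]
  calc nn S.x γ (-e) * (nn S.x α 1 * nn S.x γ v⁻¹ * nn S.x β (-(ε * v'⁻¹))) * S.x α u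
      = nn S.x γ (-e) * nn S.x α 1 * nn S.x γ v⁻¹ * (nn S.x β (-(ε * v'⁻¹)) * S.x α u) := by
        group
    _ = nn S.x γ (-e) * nn S.x α 1 * (nn S.x γ v⁻¹ * S.x γ (v'⁻¹ * u)) *
          nn S.x β (-(ε * v'⁻¹)) := by rw [s1]; group
    _ = nn S.x γ (-e) * (nn S.x α 1 * S.x (-γ) (v ^ 2 * (v'⁻¹ * u))) * (nn S.x γ v⁻¹ *
          nn S.x β (-(ε * v'⁻¹))) := by rw [s2]; group
    _ = (nn S.x γ (-e) * S.x (-β) (-ε * (v ^ 2 * (v'⁻¹ * u)))) * (nn S.x α 1 * nn S.x γ v⁻¹ *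
          nn S.x β (-(ε * v'⁻¹))) := by rw [s3]; group
    _ = _ := by rw [s4]; group

/-- The action on `x_β`. -/
private theorem A2_act2 (S : StSys C K H) {α β γ : C.Root} {ε : ℤ} (d : A2D C α β γ ε)
    (v v' e u : K) (hv : v ≠ 0) (hv' : v' ≠ 0) (he : e ≠ 0) :
    ((nn S.x γ e)⁻¹ * (nn S.x α 1 * nn S.x γ v⁻¹ * nn S.x β (-(ε * v'⁻¹)))) * S.x β u *
      ((nn S.x γ e)⁻¹ * (nn S.x α 1 * nn S.x γ v⁻¹ * nn S.x β (-(ε * v'⁻¹))))⁻¹ =
      S.x β (e * v⁻¹ * v' ^ 2 * u) := by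
  have hε : (ε : K) * ε = 1 := d.sq
  have hε0 : (ε : K) ≠ 0 := fun h0 => by rw [h0, mul_zero] at hε; exact zero_ne_one hε
  have hεi : (ε : K)⁻¹ = ε := inv_eq_of_mul_eq_one_left hε
  have hr0 : (-(ε * v'⁻¹) : K) ≠ 0 := neg_ne_zero.mpr (mul_ne_zero hε0 (inv_ne_zero hv'))
  have hr : (-(ε * v'⁻¹) : K)⁻¹ ^ 2 * u = v' ^ 2 * u := by
    rw [inv_neg, mul_inv, inv_inv, hεi]
    linear_combination (v' ^ 2 * u) * hε
  have s1 : nn S.x β (-(ε * v'⁻¹)) * S.x β u = S.x (-β) (v' ^ 2 * u) *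
      nn S.x β (-(ε * v'⁻¹)) := by
    have h := S.n_conj β (-(ε * v'⁻¹)) u hr0
    rw [hr] at h
    rw [← h]
    group
  have s2 : nn S.x γ v⁻¹ * S.x (-β) (v' ^ 2 * u) =
      S.x α (-ε * v⁻¹ * (v' ^ 2 * u)) * nn S.x γ v⁻¹ :=
    A2_mv S γ (-β) α (-ε) (-1) _ _ _ (inv_ne_zero hv)
      (by rw [SLC.Root.neg_val, C.ip_neg_right, d.gb]) (Or.inr rfl)
      (by rw [SLC.Root.neg_val, d.hγ, neg_smul, one_smul]; abel)
      (by rw [SLC.Root.neg_val, C.eps_neg_right, d.egb]) (by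
        rw [neg_neg, zpow_one]; push_cast; ring)
  have s3 : nn S.x α 1 * S.x α (-ε * v⁻¹ * (v' ^ 2 * u)) =
      S.x (-α) (-ε * v⁻¹ * (v' ^ 2 * u)) * nn S.x α 1 := by
    have h := S.n_conj α 1 (-ε * v⁻¹ * (v' ^ 2 * u)) one_ne_zero
    rw [inv_one, one_pow, one_mul] at h
    rw [← h]
    group
  have s4 : nn S.x γ (-e) * S.x (-α) (-ε * v⁻¹ * (v' ^ 2 * u)) =
      S.x β (e * v⁻¹ * v' ^ 2 * u) * nn S.x γ (-e) :=
    A2_mv S γ (-α) β ε (-1) _ _ _ (neg_ne_zero.mpr he)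
      (by rw [SLC.Root.neg_val, C.ip_neg_right, d.ga]) (Or.inr rfl)
      (by rw [SLC.Root.neg_val, d.hγ, neg_smul, one_smul]; abel)
      (by rw [SLC.Root.neg_val, C.eps_neg_right, d.ega]) (by
        rw [neg_neg, zpow_one]
        linear_combination (e * v⁻¹ * v' ^ 2 * u) * hε)
  rw [S.nn_inv, mul_inv_eq_iff_eq_mul]
  calc nn S.x γ (-e) * (nn S.x α 1 * nn S.x γ v⁻¹ * nn S.x β (-(ε * v'⁻¹))) * S.x β u
      = nn S.x γ (-e) * nn S.x α 1 * nn S.x γ v⁻¹ * (nn S.x β (-(ε * v'⁻¹)) * S.x β u) := by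
        group
    _ = nn S.x γ (-e) * nn S.x α 1 * (nn S.x γ v⁻¹ * S.x (-β) (v' ^ 2 * u)) *
          nn S.x β (-(ε * v'⁻¹)) := by rw [s1]; group
    _ = nn S.x γ (-e) * (nn S.x α 1 * S.x α (-ε * v⁻¹ * (v' ^ 2 * u))) * (nn S.x γ v⁻¹ *
          nn S.x β (-(ε * v'⁻¹))) := by rw [s2]; group
    _ = (nn S.x γ (-e) * S.x (-α) (-ε * v⁻¹ * (v' ^ 2 * u))) * (nn S.x α 1 * nn S.x γ v⁻¹ *
          nn S.x β (-(ε * v'⁻¹))) := by rw [s3]; group
    _ = _ := by rw [s4]; group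

end ident


variable {n : ℕ} {C : SLC n} {D : Dg C} {k : Type*} [Field k] {θ : k ≃+* k} {H : Type*} [Group H]
  {S : StSys C k H} {s : H →* H} {p : H →* GL C.Idx k}

private theorem A2_choose (he : Env D θ S s p) (e ε : k) (he0 : e ≠ 0) (hθe : θ e = -e)
    (hB : ∀ z, θ z = z → ∃ v, v + θ v = z) (hε : θ ε = ε) (hε0 : ε ≠ 0) :
    ∃ v, v + θ v = -ε ∧ 3 * (v * θ v) ≠ ε ^ 2 := by
  classical
  obtain ⟨v0, hv0⟩ := hB (-ε) (by rw [map_neg, hε])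
  by_cases h3 : 3 * (v0 * θ v0) = ε ^ 2
  · have h30 : (3 : k) ≠ 0 := by
      intro h
      rw [h, zero_mul] at h3
      exact pow_ne_zero 2 hε0 h3.symm
    have hinf := SR_k0_inf he
    obtain ⟨y, hy, hy2⟩ := (Set.infinite_range_of_injective
      (Subtype.val_injective (p := fun x => x ∈ fixF θ))).exists_notMem_finset
        ({0, (θ v0 - v0) * e⁻¹} : Finset k)
    obtain ⟨⟨l, hl⟩, rfl⟩ := hy
    simp only [Finset.mem_insert, Finset.mem_singleton, not_or] at hy2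
    obtain ⟨hl0, hl1⟩ := hy2
    have hl' : θ l = l := hl
    refine ⟨v0 + l * e, ?_, ?_⟩
    · rw [map_add, map_mul, hl', hθe]
      linear_combination hv0
    · rw [map_add, map_mul, hl', hθe]
      intro h
      have h1 : 3 * (l * e) * ((θ v0 - v0) - l * e) = 0 := by
        linear_combination h - h3
      rcases mul_eq_zero.mp h1 with h2 | h2
      · rcases mul_eq_zero.mp h2 with h4 | h4
        · exact h30 h4
        · rcases mul_eq_zero.mp h4 with h5 | h5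
          · exact hl0 h5
          · exact he0 h5
      · apply hl1
        rw [sub_eq_zero.mp h2, mul_assoc, mul_inv_cancel₀ he0, mul_one]
  · exact ⟨v0, hv0, h3⟩

theorem A2_tor (he : Env D θ S s p) (i : Fin n) (hi : C.A i (D.ρ i) = -1)
    (hc : ∀ j, D.ρ.SameCycle i j) :
    ∃ h ∈ S.T ⊓ Eg S s, θ (C.chi (p h : Matrix C.Idx C.Idx k) (C.simple i)) ≠
      C.chi (p h : Matrix C.Idx C.Idx k) (C.simple i) := by
  have hr : D.r (C.simple i) = C.simple (D.ρ i) := D.r_simple i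
  have hip : C.ip (C.simple i).1 (C.simple (D.ρ i)).1 = -1 := by
    rw [SLC.simple_val, SLC.simple_val, C.ip_single]
    exact hi
  have hne : D.r (C.simple i) ≠ C.simple i := by
    rw [hr]
    intro h
    rw [h, (C.simple i).2] at hip
    norm_num at hip
  have hm : D.m = 2 := by
    rcases D.ip_r (C.simple i) hne with h | h
    · rw [hr, hip] at h
      norm_num at h
    · exact h.1
  have hρ2 : D.ρ ^ 2 = 1 := by
    rw [← hm]
    exact pow_orderOf_eq_one D.ρ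
  have hρρ : D.ρ (D.ρ i) = i := by
    have h := congrArg (fun f : Equiv.Perm (Fin n) => f i) hρ2
    simpa [pow_succ] using h
  have hr2 : D.r (C.simple (D.ρ i)) = C.simple i := by rw [D.r_simple, hρρ]
  have hθ2 : ∀ t, θ (θ t) = t := by
    have h := he.hθ
    rw [hm] at h
    exact h
  obtain ⟨γ, hγ⟩ := C.exists_add _ _ hip
  obtain ⟨hγr, hγs⟩ := D.sg_adj (C.simple i) γ hne (by rw [hr]; exact hγ)
  have hNA : ¬ D.NA := fun h => h i hi
  obtain ⟨e, he0, hθe⟩ := he.hA.resolve_left hNA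
  have hB := he.hB.resolve_left hNA
  obtain ⟨ε, hε⟩ : ∃ ε, C.eps (C.simple i).1 (C.simple (D.ρ i)).1 = ε := ⟨_, rfl⟩
  have d : A2D C (C.simple i) (C.simple (D.ρ i)) γ ε := ⟨hγ, hip, hε⟩
  generalize hα : C.simple i = α at *
  generalize hβ : C.simple (D.ρ i) = β at *
  have hεε : (ε : k) * ε = 1 := d.sq
  have hε0 : (ε : k) ≠ 0 := fun h0 => by rw [h0, mul_zero] at hεε; exact zero_ne_one hεε
  have hθε : θ (ε : k) = ε := map_intCast θ ε
  obtain ⟨v, hv, hv3⟩ := A2_choose he e (ε : k) he0 hθe hB hθε hε0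
  have hv0 : v ≠ 0 := by
    rintro rfl
    rw [map_zero, add_zero] at hv
    exact hε0 (neg_eq_zero.mp hv.symm)
  have hv0' : θ v ≠ 0 := by
    intro h
    exact hv0 ((map_eq_zero θ).mp h)
  have hsα : ∀ t, s (S.x α t) = S.x β (θ t) := fun t => by
    rw [he.sig, hr, ← hα, D.sg_simple, Int.cast_one, one_mul]
  have hsβ : ∀ t, s (S.x β t) = S.x α (θ t) := fun t => by
    rw [he.sig, hr2, ← hβ, D.sg_simple, Int.cast_one, one_mul]
  have hsγ : ∀ t, s (S.x γ t) = S.x γ (-θ t) := fun t => by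
    rw [he.sig, hγr, hγs, Int.cast_neg, Int.cast_one, neg_one_mul]
  have hsα' : ∀ t, s (S.x (-α) t) = S.x (-β) (θ t) := fun t => by
    rw [he.sig, D.r_neg, D.sg_neg, hr, ← hα, D.sg_simple, Int.cast_one, one_mul]
  have hsβ' : ∀ t, s (S.x (-β) t) = S.x (-α) (θ t) := fun t => by
    rw [he.sig, D.r_neg, D.sg_neg, hr2, ← hβ, D.sg_simple, Int.cast_one, one_mul]
  have hsγ' : ∀ t, s (S.x (-γ) t) = S.x (-γ) (-θ t) := fun t => by
    rw [he.sig, D.r_neg, D.sg_neg, hγr, hγs, Int.cast_neg, Int.cast_one, neg_one_mul]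
  have hhα : ht α.1 = 1 := by rw [← hα]; exact C.ht_simple i
  have hhβ : ht β.1 = 1 := by rw [← hβ]; exact C.ht_simple _
  have hhγ : ht γ.1 = 2 := by rw [hγ, ht_add, hhα, hhβ]; norm_num
  have mU : ∀ (δ : C.Root) (t : k), 1 ≤ ht δ.1 → S.x δ t ∈ S.U 1 := fun δ t h =>
    Subgroup.subset_closure ⟨δ, t, h, rfl⟩
  have mUm : ∀ (δ : C.Root) (t : k), 1 ≤ ht δ.1 → S.x (-δ) t ∈ S.Um := fun δ t h =>
    Subgroup.subset_closure ⟨-δ, t, by rw [SLC.Root.neg_val, ht_neg]; omega, rfl⟩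
  have eU : ∀ g, g ∈ S.U 1 → s g = g → g ∈ Eg S s := fun g h1 h2 =>
    (le_sup_left : fixU S s ≤ Eg S s) ⟨h1, h2⟩
  have eUm : ∀ g, g ∈ S.Um → s g = g → g ∈ Eg S s := fun g h1 h2 =>
    (le_sup_right : fixUm S s ≤ Eg S s) ⟨h1, h2⟩
  have hi1 : θ v⁻¹ = (θ v)⁻¹ := map_inv₀ θ v
  have hi2 : θ (θ v)⁻¹ = v⁻¹ := by rw [map_inv₀, hθ2]
  -- the three factors
  have m1 : S.x β (ε * v⁻¹) * S.x γ (-v⁻¹) * S.x α (ε * (θ v)⁻¹) ∈ Eg S s := by
    refine eU _ (mul_mem (mul_mem (mU _ _ (by rw [hhβ])) (mU _ _ (by rw [hhγ]; norm_num)))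
      (mU _ _ (by rw [hhα]))) ?_
    rw [map_mul, map_mul, hsβ, hsγ, hsα, map_mul, map_mul, map_neg, hi1, hi2, hθε, neg_neg]
    exact A2_u1 S d v (θ v) hv0 hv0' hv
  have m2 : S.x γ (θ v)⁻¹ * S.x α (ε * v⁻¹) * S.x β (ε * (θ v)⁻¹) ∈ Eg S s := by
    refine eU _ (mul_mem (mul_mem (mU _ _ (by rw [hhγ]; norm_num)) (mU _ _ (by rw [hhα])))
      (mU _ _ (by rw [hhβ]))) ?_
    rw [map_mul, map_mul, hsβ, hsγ, hsα, map_mul, map_mul, hi1, hi2, hθε]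
    exact A2_v1 S d v (θ v) hv0 hv0' hv
  have m3 : S.x (-α) 1 * S.x (-β) 1 * S.x (-γ) v ∈ Eg S s := by
    refine eUm _ (mul_mem (mul_mem (mUm _ _ (by rw [hhα])) (mUm _ _ (by rw [hhβ])))
      (mUm _ _ (by rw [hhγ]; norm_num))) ?_
    rw [map_mul, map_mul, hsβ', hsγ', hsα', map_one]
    exact A2_y S d v (θ v) hv
  have m4 : nn S.x α 1 * nn S.x γ v⁻¹ * nn S.x β (-(ε * (θ v)⁻¹)) ∈ Eg S s := by
    have h1 := A2_ident S d v (θ v) hv0 hv0' hv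
    have h2 : nn S.x α 1 * nn S.x γ v⁻¹ * nn S.x β (-(ε * (θ v)⁻¹)) =
        (S.x β (ε * v⁻¹) * S.x γ (-v⁻¹) * S.x α (ε * (θ v)⁻¹))⁻¹ *
          (S.x (-α) 1 * S.x (-β) 1 * S.x (-γ) v) *
          (S.x γ (θ v)⁻¹ * S.x α (ε * v⁻¹) * S.x β (ε * (θ v)⁻¹))⁻¹ := by
      rw [h1]
      group
    rw [h2]
    exact mul_mem (mul_mem (inv_mem m1) m3) (inv_mem m2)
  have m5 : nn S.x γ e ∈ Eg S s := by
    have a1 : S.x γ e ∈ Eg S s := eU _ (mU _ _ (by rw [hhγ]; norm_num)) (by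
      rw [hsγ, hθe, neg_neg])
    have a2 : S.x (-γ) e⁻¹ ∈ Eg S s := eUm _ (mUm _ _ (by rw [hhγ]; norm_num)) (by
      rw [hsγ', map_inv₀, hθe, inv_neg, neg_neg])
    exact mul_mem (mul_mem a1 a2) a1
  have hnN : ∀ (δ : C.Root) (t : k), t ≠ 0 → nn S.x δ t ∈ S.N := fun δ t h =>
    Subgroup.subset_closure ⟨δ, t, h, rfl⟩
  have m6 : (nn S.x γ e)⁻¹ * (nn S.x α 1 * nn S.x γ v⁻¹ * nn S.x β (-(ε * (θ v)⁻¹))) ∈ S.N :=
    mul_mem (inv_mem (hnN _ _ he0)) (mul_mem (mul_mem (hnN _ _ one_ne_zero)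
      (hnN _ _ (inv_ne_zero hv0))) (hnN _ _ (neg_ne_zero.mpr (mul_ne_zero hε0
        (inv_ne_zero hv0')))))
  obtain ⟨g, hg⟩ : ∃ g, (nn S.x γ e)⁻¹ * (nn S.x α 1 * nn S.x γ v⁻¹ *
    nn S.x β (-(ε * (θ v)⁻¹))) = g := ⟨_, rfl⟩
  have act1 := fun u => A2_act1 S d v (θ v) e u hv0 hv0' he0
  have act2 := fun u => A2_act2 S d v (θ v) e u hv0 hv0' he0
  rw [hg] at m6
  simp only [hg] at act1 act2
  have hgE : g ∈ Eg S s := by
    rw [← hg]
    exact mul_mem (inv_mem m5) m4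
  obtain ⟨w, hw, hact, hw1⟩ := S.N_acts g m6
  obtain ⟨c, hc0, hcx⟩ := hact
  have hwα : w α = α := by
    have h1 := (hcx α 1).symm.trans (act1 1)
    have h2 := congrArg p h1
    rw [he.hp, he.hp] at h2
    exact (C.xg_inj _ _ _ _ (mul_ne_zero (hc0 α) one_ne_zero) h2).1
  have hwβ : w β = β := by
    have h1 := (hcx β 1).symm.trans (act2 1)
    have h2 := congrArg p h1
    rw [he.hp, he.hp] at h2
    exact (C.xg_inj _ _ _ _ (mul_ne_zero (hc0 β) one_ne_zero) h2).1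
  have hw2 : w = 1 := by
    apply C.eq_one_of_pos w hw
    intro j
    obtain ⟨z, hz⟩ := hc j
    have h1 : j = i ∨ j = D.ρ i := by
      have h2 : D.ρ ^ (z % ((orderOf D.ρ : ℕ) : ℤ)) = D.ρ ^ z := zpow_mod_orderOf _ _
      have h3 : (orderOf D.ρ : ℤ) = 2 := by
        have : orderOf D.ρ = 2 := hm
        rw [this]
        rfl
      rw [h3] at h2
      rw [← h2] at hz
      rcases Int.emod_two_eq_zero_or_one z with h4 | h4
      · left
        rw [h4] at hz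
        simpa using hz.symm
      · right
        rw [h4] at hz
        simpa using hz.symm
    rcases h1 with rfl | rfl
    · rw [hα, hwα, ← hα]
      exact C.simple_pos _
    · rw [hβ, hwβ, ← hβ]
      exact C.simple_pos _
  have hgT : g ∈ S.T := hw1 hw2
  refine ⟨g, ⟨hgT, hgE⟩, ?_⟩
  have hchi : C.chi (p g : Matrix C.Idx C.Idx k) α = -(e * v ^ 2 * (θ v)⁻¹) := by
    have h1 := (SR_T he g hgT α 1).2
    have h0 := (SR_T he g hgT α 1).1
    rw [act1 1] at h1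
    have h2 := congrArg p h1.symm
    rw [he.hp, he.hp, mul_one, mul_one] at h2
    exact (C.xg_inj _ _ _ _ h0 h2).2
  rw [hchi]
  intro h
  apply hv3
  rw [map_neg, map_mul, map_mul, map_pow, hθe, hi2] at h
  have e1 : v * v⁻¹ = 1 := mul_inv_cancel₀ hv0
  have e2 : θ v * (θ v)⁻¹ = 1 := mul_inv_cancel₀ hv0'
  have h3 : e * (v ^ 3 + (θ v) ^ 3) = 0 := by
    linear_combination (v * θ v) * h - e * v ^ 3 * e2 - e * (θ v) ^ 3 * e1
  have h4 : v ^ 3 + (θ v) ^ 3 = 0 := (mul_eq_zero.mp h3).resolve_left he0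
  have h5 : (ε : k) * ((v + θ v) ^ 2 - 3 * (v * θ v)) = 0 := by
    have h6 : (v + θ v) * ((v + θ v) ^ 2 - 3 * (v * θ v)) = 0 := by
      linear_combination h4
    rw [hv] at h6 ⊢
    linear_combination -h6
  have h6 := (mul_eq_zero.mp h5).resolve_left hε0
  rw [hv] at h6
  linear_combination -h6

end Pool.Agent.H86.UM
end

section
/- module Pool.Agent.H86.UM.FCf -/
/-!
# Project UM, module FCf: field lemmas

`hua`: `φ t = f t / f 1` satisfies `φ 1 = 1`, `φ (t ^ 2 * u⁻¹) * φ u = φ t ^ 2` for `t, u ≠ 0`. `t = 1`: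
`φ (u⁻¹) * φ u = 1`; `u = 1`: `φ (t ^ 2) = φ t ^ 2`; replace `u` by `u⁻¹`: `φ (t ^ 2 * u) = φ t ^ 2 * φ u`. If
`2 ≠ 0` in `F` then `2 ≠ 0` in `K` (`f 2 = 2 f 1`, injectivity), and the difference of the identities for
`t + s`, `t`, `s` gives `2 φ (t s u) = 2 φ t φ s φ u` (also if `t + s = 0`, trivially or by injectivity). If
`2 = 0` in `F` then `2 = 0` in `K` and `(φ (t s)) ^ 2 = φ (t ^ 2 s ^ 2) = (φ t φ s) ^ 2`, so
`φ (t s) = φ t φ s` (squaring is injective in characteristic two).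
`semilin`: the set `A` of all `x ∈ k` for which there is `x'` with `f (x u) = x' f u` for all `u` is a subring
containing the fixed elements of `θ` and `χ`, so `A = k` (`x = λ + μ χ`, `μ = (x - θ x) / (χ - θ χ)`,
`λ = x - μ χ`, both fixed by `θ`); `φ x = f x / f 1` is a ring homomorphism.
`twist_eq`: for `c ≠ 0` apply `h` to `(a, b)` and `(a c, b (θ c)⁻¹)`. With `a = b = 1`:
`φ c / ψ (θ c) = ψ c / φ (θ c) =: r`. With `a = 1`, `b` arbitrary: `(r - 1) (ψ b - φ b) = 0`. If `ψ = φ` this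
contradicts `hne`; so for some `b` `ψ b ≠ φ b`, and then `r = 1` for all `c`, i.e. `φ c = ψ (θ c)`.
`zeta_zero`: if `2 ≠ 0` in `k` take `λ = 2`: `ζ (2 t) = 2 ζ t = 4 ζ t`. If `2 = 0`: `N = χ θχ`, `T = χ + θχ`
are fixed by `θ`, `T ≠ 0`, `N ≠ 0`, `χ ^ 2 = T χ + N` (characteristic two), so
`φ(N)^2 ζ t = ζ (χ^2 t) = ζ (T χ t) + ζ (N t) = φ(T)^2 φ(N) ζ t + φ(N)^2 ζ t`.
`cubic_sign`: replace `t` by `t + 1` in `hN`: the sums `φ(θt) + φ(θθt)` and `θ'(φt) + θ'(θ'(φt))` are also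
equal, so for every `t` either `φ(θt) = θ'(φt)` or `φ(θt) = θ'(θ'(φt))`; `k` is the union of two additive
subgroups, so one of them is `k`.
-/

set_option autoImplicit false

namespace Pool.Agent.H86.UM

theorem hua {F K : Type*} [Field F] [Field K] (f : F → K) (hadd : ∀ a b, f (a + b) = f a + f b)
    (hinj : ∀ a, f a = 0 → a = 0)
    (h : ∀ t u, t ≠ 0 → u ≠ 0 → f (t ^ 2 * u⁻¹) * f u = f t ^ 2) :
    ∃ (c : K) (φ : F →+* K), c ≠ 0 ∧ ∀ t, f t = c * φ t := by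
  have hf0 : f 0 = 0 := by
    have h1 := hadd 0 0
    simp only [add_zero] at h1
    have : f 0 - f 0 = f 0 := by nth_rewrite 1 [h1]; ring
    rw [sub_self] at this
    exact this.symm
  have hf1 : f 1 ≠ 0 := fun h1 => one_ne_zero (hinj 1 h1)
  obtain ⟨g, hg⟩ : ∃ g : F → K, ∀ t, f t = f 1 * g t :=
    ⟨fun t => f t / f 1, fun t => by field_simp⟩
  have hgadd : ∀ a b, g (a + b) = g a + g b := by
    intro a b
    have h1 := hadd a b
    rw [hg (a + b), hg a, hg b] at h1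
    apply mul_left_cancel₀ hf1
    rw [h1]; ring
  have hg1 : g 1 = 1 := by
    have h1 := hg 1
    apply mul_left_cancel₀ hf1
    rw [← h1, mul_one]
  have hg0 : g 0 = 0 := by
    have h1 := hg 0
    rw [hf0] at h1
    rcases mul_eq_zero.1 h1.symm with h2 | h2
    · exact absurd h2 hf1
    · exact h2
  have hq : ∀ t u, t ≠ 0 → u ≠ 0 → g (t ^ 2 * u⁻¹) * g u = g t ^ 2 := by
    intro t u ht hu
    have h1 := h t u ht hu
    rw [hg (t ^ 2 * u⁻¹), hg u, hg t] at h1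
    apply mul_left_cancel₀ (pow_ne_zero 2 hf1)
    linear_combination h1
  have hinv : ∀ u, u ≠ 0 → g (u⁻¹) * g u = 1 := by
    intro u hu
    have h1 := hq 1 u one_ne_zero hu
    simpa [hg1] using h1
  have hsq : ∀ t, g (t ^ 2) = g t ^ 2 := by
    intro t
    by_cases ht : t = 0
    · subst ht; simp [hg0]
    · have h1 := hq t 1 ht one_ne_zero
      simpa [hg1] using h1
  have hm : ∀ t u, g (t ^ 2 * u) = g t ^ 2 * g u := by
    intro t u
    by_cases ht : t = 0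
    · subst ht; simp [hg0]
    by_cases hu : u = 0
    · subst hu; simp [hg0]
    have h1 := hq t u⁻¹ ht (inv_ne_zero hu)
    rw [inv_inv] at h1
    have h2 := hinv u hu
    calc g (t ^ 2 * u) = (g (t ^ 2 * u) * g u⁻¹) * g u := by
            rw [mul_assoc, h2, mul_one]
      _ = g t ^ 2 * g u := by rw [h1]
  have h2m : ∀ t s, 2 * g (t * s) = 2 * (g t * g s) := by
    intro t s
    have h1 : g ((t + s) ^ 2) = g (t + s) ^ 2 := hsq _
    have h3 : (t + s) ^ 2 = t ^ 2 + (t * s + t * s) + s ^ 2 := by ring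
    rw [h3, hgadd, hgadd, hgadd, hgadd, hsq, hsq] at h1
    linear_combination h1
  have hmul : ∀ t s, g (t * s) = g t * g s := by
    intro t s
    by_cases h2 : (2 : K) = 0
    · have h3 : g (t * s) ^ 2 = (g t * g s) ^ 2 := by
        rw [← hsq, mul_pow, hm, hsq]; ring
      have h4 : (g (t * s) - g t * g s) ^ 2 = 0 := by
        linear_combination h3 + (-(g (t * s) * (g t * g s)) + (g t * g s) ^ 2) * h2
      exact sub_eq_zero.1 (pow_eq_zero_iff (two_ne_zero) |>.1 h4)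
    · exact mul_left_cancel₀ h2 (h2m t s)
  exact ⟨f 1, { toFun := g, map_one' := hg1, map_mul' := hmul, map_zero' := hg0,
                map_add' := hgadd }, hf1, fun t => hg t⟩

theorem semilin {k K : Type*} [Field k] [Field K] (θ : k ≃+* k) (hθ : ∀ t, θ (θ t) = t)
    (f : k → K) (hadd : ∀ a b, f (a + b) = f a + f b) (hne : ∃ t, f t ≠ 0)
    (h0 : ∀ l, θ l = l → l ≠ 0 → ∃ l' : K, ∀ u, f (l * u) = l' * f u) (χ : k)
    (hχ : θ χ ≠ χ) (h1 : ∃ χ' : K, ∀ u, f (χ * u) = χ' * f u) :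
    ∃ (c : K) (φ : k →+* K), c ≠ 0 ∧ ∀ t, f t = c * φ t := by
  have hf0 : f 0 = 0 := by
    have h1 := hadd 0 0
    simp only [add_zero] at h1
    have : f 0 - f 0 = f 0 := by nth_rewrite 1 [h1]; ring
    rw [sub_self] at this
    exact this.symm
  have hfix : ∀ l, θ l = l → ∃ l' : K, ∀ u, f (l * u) = l' * f u := by
    intro l hl
    by_cases h : l = 0
    · subst h
      exact ⟨0, fun u => by rw [zero_mul, zero_mul, hf0]⟩
    · exact h0 l hl h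
  have hall : ∀ x, ∃ x' : K, ∀ u, f (x * u) = x' * f u := by
    intro x
    have hd : χ - θ χ ≠ 0 := fun h => hχ (sub_eq_zero.1 h).symm
    have hd' : θ χ - χ ≠ 0 := sub_ne_zero.2 hχ
    obtain ⟨m, hm⟩ : ∃ m : k, m = (x - θ x) / (χ - θ χ) := ⟨_, rfl⟩
    have hmfix : θ m = m := by
      rw [hm, map_div₀, map_sub, map_sub, hθ, hθ]
      rw [div_eq_div_iff hd' hd]; ring
    have hmul : m * (χ - θ χ) = x - θ x := by rw [hm]; field_simp
    have hlfix : θ (x - m * χ) = x - m * χ := by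
      rw [map_sub, map_mul, hmfix]
      linear_combination hmul
    obtain ⟨l', hl'⟩ := hfix _ hlfix
    obtain ⟨m', hm'⟩ := hfix _ hmfix
    obtain ⟨c', hc'⟩ := h1
    refine ⟨l' + m' * c', fun u => ?_⟩
    have e : x * u = (x - m * χ) * u + m * (χ * u) := by ring
    rw [e, hadd, hl', hm', hc']; ring
  choose φ hφ using hall
  have hf1 : f 1 ≠ 0 := by
    intro h
    obtain ⟨t, ht⟩ := hne
    apply ht
    have := hφ t 1
    rw [mul_one, h, mul_zero] at this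
    exact this
  have hft : ∀ t, f t = f 1 * φ t := by
    intro t
    have := hφ t 1
    rw [mul_one] at this
    rw [this]; ring
  refine ⟨f 1, { toFun := φ, map_one' := ?_, map_mul' := ?_, map_zero' := ?_, map_add' := ?_ },
    hf1, fun t => hft t⟩
  · apply mul_left_cancel₀ hf1
    rw [← hft, mul_one]
  · intro x y
    apply mul_left_cancel₀ hf1
    rw [← hft, hφ, hft y]; ring
  · apply mul_left_cancel₀ hf1
    rw [← hft, mul_zero, hf0]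
  · intro x y
    apply mul_left_cancel₀ hf1
    rw [← hft, hadd, hft x, hft y]; ring

theorem twist_eq {k K : Type*} [Field k] [Field K] (θ : k ≃+* k) (hθ : ∀ t, θ (θ t) = t)
    (φ ψ : k →+* K)
    (h : ∀ a b a' b', a * θ b - b * θ a = a' * θ b' - b' * θ a' →
      φ a * ψ b - φ b * ψ a = φ a' * ψ b' - φ b' * ψ a')
    (hne : ∃ a b, φ a * ψ b - φ b * ψ a ≠ 0) (t : k) : ψ (θ t) = φ t := by
  by_cases ht : t = 0
  · subst ht; simp
  have hθt : θ t ≠ 0 := fun h => ht (by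
    have := hθ t
    rw [h, map_zero] at this
    exact this.symm)
  have hφt : φ t ≠ 0 := (map_ne_zero φ).2 ht
  have hψt : ψ t ≠ 0 := (map_ne_zero ψ).2 ht
  have hφθ : φ (θ t) ≠ 0 := (map_ne_zero φ).2 hθt
  have hψθ : ψ (θ t) ≠ 0 := (map_ne_zero ψ).2 hθt
  have key : ∀ a b, φ a * ψ b - φ b * ψ a =
      φ a * φ t * (ψ b * (ψ (θ t))⁻¹) - φ b * (φ (θ t))⁻¹ * (ψ a * ψ t) := by
    intro a b
    have h1 := h a b (a * t) (b * (θ t)⁻¹) (by
      rw [map_mul, map_mul, map_inv₀, hθ]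
      field_simp)
    rw [map_mul, map_mul, map_mul, map_mul, map_inv₀, map_inv₀] at h1
    rw [h1]
  obtain ⟨r, hr⟩ : ∃ r : K, r = φ t * (ψ (θ t))⁻¹ := ⟨_, rfl⟩
  obtain ⟨s, hs⟩ : ∃ s : K, s = (φ (θ t))⁻¹ * ψ t := ⟨_, rfl⟩
  have key2 : ∀ a b, φ a * ψ b - φ b * ψ a = φ a * ψ b * r - φ b * ψ a * s := by
    intro a b
    rw [key a b, hr, hs]; ring
  have hrs : r = s := by
    have := key2 1 1
    simp only [map_one] at this
    linear_combination -this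
  have hr1 : r = 1 := by
    obtain ⟨a, b, hab⟩ := hne
    have h1 := key2 a b
    rw [← hrs] at h1
    have h2 : (φ a * ψ b - φ b * ψ a) * (r - 1) = 0 := by linear_combination -h1
    rcases mul_eq_zero.1 h2 with h3 | h3
    · exact absurd h3 hab
    · exact sub_eq_zero.1 h3
  rw [hr1] at hr
  field_simp at hr
  exact hr

theorem zeta_zero {k K : Type*} [Field k] [Field K] (θ : k ≃+* k) (hθ : ∀ t, θ (θ t) = t)
    (φ : k →+* K) (ζ : k → K) (hadd : ∀ a b, ζ (a + b) = ζ a + ζ b)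
    (h0 : ∀ l, θ l = l → l ≠ 0 → ∀ t, ζ (l * t) = φ l ^ 2 * ζ t) (χ : k) (hχ : θ χ ≠ χ)
    (h1 : ∀ t, ζ (χ * t) = φ (χ * θ χ) * ζ t) (t : k) : ζ t = 0 := by
  by_cases h2 : (2 : k) = 0
  · obtain ⟨T, hT⟩ : ∃ T : k, T = χ + θ χ := ⟨_, rfl⟩
    obtain ⟨N, hN⟩ : ∃ N : k, N = χ * θ χ := ⟨_, rfl⟩
    have hTfix : θ T = T := by rw [hT, map_add, hθ]; ring
    have hNfix : θ N = N := by rw [hN, map_mul, hθ]; ring
    have hT0 : T ≠ 0 := by
      intro h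
      apply hχ
      rw [hT] at h
      linear_combination h - χ * h2
    have hχ0 : χ ≠ 0 := by
      intro h; apply hχ; rw [h, map_zero]
    have hθχ0 : θ χ ≠ 0 := (map_ne_zero θ).2 hχ0
    have hN0 : N ≠ 0 := by rw [hN]; exact mul_ne_zero hχ0 hθχ0
    have e : χ * (χ * t) = T * (χ * t) + N * t := by
      rw [hT, hN]
      linear_combination -(χ * θ χ * t) * h2
    have e1 : ζ (χ * (χ * t)) = φ N * (φ N * ζ t) := by
      rw [h1, h1, hN]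
    have e2 : ζ (T * (χ * t)) = φ T ^ 2 * (φ N * ζ t) := by
      rw [h0 T hTfix hT0, h1, hN]
    have e3 : ζ (N * t) = φ N ^ 2 * ζ t := h0 N hNfix hN0 t
    have e4 : φ T ^ 2 * (φ N * ζ t) = 0 := by
      have e5 : ζ (χ * (χ * t)) = ζ (T * (χ * t)) + ζ (N * t) := by rw [e, hadd]
      rw [e1, e2, e3] at e5
      linear_combination -e5
    have hφT : φ T ≠ 0 := (map_ne_zero φ).2 hT0
    have hφN : φ N ≠ 0 := (map_ne_zero φ).2 hN0
    rcases mul_eq_zero.1 e4 with h3 | h3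
    · exact absurd h3 (pow_ne_zero 2 hφT)
    · rcases mul_eq_zero.1 h3 with h4 | h4
      · exact absurd h4 hφN
      · exact h4
  · have hfix : θ 2 = 2 := map_ofNat θ 2
    have e1 := h0 2 hfix h2 t
    have e2 : ζ (2 * t) = ζ t + ζ t := by rw [two_mul, hadd]
    rw [e2, map_ofNat] at e1
    have h2K : (2 : K) ≠ 0 := by
      have := (map_ne_zero φ).2 h2
      rwa [map_ofNat] at this
    have e3 : (2 : K) * ζ t = 0 := by linear_combination -e1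
    rcases mul_eq_zero.1 e3 with h3 | h3
    · exact absurd h3 h2K
    · exact h3

theorem cubic_sign {k K : Type*} [Field k] [Field K] (θ : k ≃+* k) (θ' : K ≃+* K)
    (φ : k →+* K) (hN : ∀ t, φ (θ t) * φ (θ (θ t)) = θ' (φ t) * θ' (θ' (φ t))) :
    (∀ t, φ (θ t) = θ' (φ t)) ∨ ∀ t, φ (θ t) = θ' (θ' (φ t)) := by
  have hsum : ∀ t, φ (θ t) + φ (θ (θ t)) = θ' (φ t) + θ' (θ' (φ t)) := by
    intro t
    have h1 := hN (t + 1)
    have h2 := hN t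
    simp only [map_add, map_one] at h1
    linear_combination h1 - h2
  have hor : ∀ t, φ (θ t) = θ' (φ t) ∨ φ (θ t) = θ' (θ' (φ t)) := by
    intro t
    have h1 : (φ (θ t) - θ' (φ t)) * (φ (θ t) - θ' (θ' (φ t))) = 0 := by
      linear_combination φ (θ t) * hsum t - hN t
    rcases mul_eq_zero.1 h1 with h3 | h3
    · exact Or.inl (sub_eq_zero.1 h3)
    · exact Or.inr (sub_eq_zero.1 h3)
  by_contra hcon
  rw [not_or, not_forall, not_forall] at hcon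
  obtain ⟨⟨a, ha⟩, ⟨b, hb⟩⟩ := hcon
  have ha' := (hor a).resolve_left ha
  have hb' := (hor b).resolve_right hb
  rcases hor (a + b) with h | h
  · apply ha
    simp only [map_add] at h
    linear_combination h - hb'
  · apply hb
    simp only [map_add] at h
    linear_combination h - ha'

end Pool.Agent.H86.UM
end
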