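import Pool.Agent.H86.AL.M13
import Pool.Agent.H86.AL.M16
import Pool.Agent.H86.AL.M17

/-!
# M21: collected modules

Pool.Agent.H86.UM.Z2
Pool.Agent.H86.UM.Z3
Pool.Agent.H86.UM.Z5
Pool.Agent.H86.UM.ZJ1
-/

section
/- module Pool.Agent.H86.UM.Z2 -/
/-!
# Project UM, Suzuki-Ree groups, module Z2: `σ` on all root elements

`root_induct`: the proof is similar to the proof of `Eg_gen` (GEN.lean, see the header there). First the positive
roots, for the predicate `P' β := P β ∧ P (-β)` (`P' (simple i)`: `wd (wl i) (simple i)` is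
`-(simple i')` with `i'` in the orbit of `i`; `P'` is stable under `D.r` and the `wd (wl i)`, `W_neg`, `r_neg`), by
induction on the height: a positive root supported on one orbit is in the `rE`-cycle of a simple root (`supp_NA`,
UK/F1a); otherwise there is `i` with `ip β (∑ orbit of α_i) > 0` (otherwise `ip v v ≤ 0` for the sum `v`
of the orbit of `β`), `wd (wl i) β` is positive (`wJ_pos`) of smaller height, and `wJ_sq`.

`TT_refl`: `B = osum (simple j)`. `TT` of the simple roots: if `j` is fixed then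
`TT (simple j) = osum (simple (t0 j))`, otherwise `TT (osum (simple j)) = m • simple (t0 j)` (compare
coordinates, using `fix_iff, rho, inv`). `w = wd (wl j)` is the product of the commuting reflections in the roots
of the orbit of `simple j`, so `osum (w β) = osum β - ip (osum β) (simple j) • osum (simple j)`
(`ip (osum β) (simple (ρ j)) = ip (osum β) (simple j)`); apply `TT` and use `scale`:
`ip (TT v) (simple (t0 j)) = ip v (simple j)` if `j` is fixed, `= m * ip v (simple j)` otherwise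
(`v` invariant).

`exists_tau`: `root_induct` for `P β := ∃ γ e, (e = ±1) ∧ (∀ t, σ (yg β t) = yg γ (e * th β t)) ∧
(D.r β = β → D.r γ ≠ γ ∧ osum γ = TT β.1) ∧ (D.r β ≠ β → D.r γ = γ ∧ m • γ.1 = TT (osum β))`;
`P (simple j)`: `h.pos`. `P (D.r β)`: `yg_r`, same `γ`. `P (wd (wl j) β)`: `σ (nJ j) = nJ (t0 j)` (`h.pos`,
`h.neg`, `th 1 = 1`), `nJ_conj` for `j` and for `t0 j`: `σ (yg (w β) (± t)) = nJ (t0 j) yg γ (e th t) nJ⁻¹
= yg (w' γ) (± e th t)`, `w' = wd (wl (t0 j))`, and `th` for `w β` and `β` is the same (`r (w β) = w (r β)`,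
`wJ_comm`). Then choose.
-/

set_option autoImplicit false
open Matrix

namespace Pool.Agent.H86.UM

open Pool.Agent.H75.UL

variable {n : ℕ} {C : SLC n} {D : Dg C} {t0 : Fin n → Fin n}

private theorem Z2_m_pos : 0 < D.m := by
  rcases D.m_cases with h | h | h <;> omega

private theorem Z2_wd_cons (j : Fin n) (l : List (Fin n)) :
    C.wd (j :: l) = C.reflE (C.simple j) * C.wd l := by
  simp [SLC.wd]

private theorem Z2_cyc (i j : Fin n) (h : D.ρ.SameCycle i j) :
    ∃ l, l < D.m ∧ (D.ρ ^ l) i = j := by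
  obtain ⟨z, hz⟩ := h
  have hm : 0 < D.m := Z2_m_pos
  have h1 : 0 ≤ z % (D.m : ℤ) := Int.emod_nonneg _ (by omega)
  have h2 : z % (D.m : ℤ) < D.m := Int.emod_lt_of_pos _ (by omega)
  refine ⟨(z % (D.m : ℤ)).toNat, by omega, ?_⟩
  have h3 : D.ρ ^ (z % (D.m : ℤ)) = D.ρ ^ z := zpow_mod_orderOf _ _
  rw [← hz, ← h3]
  conv_rhs => rw [← Int.toNat_of_nonneg h1]
  rw [zpow_natCast]

private theorem Z2_same (i : Fin n) (l : ℕ) : D.ρ.SameCycle i ((D.ρ ^ l) i) :=
  ⟨l, by rw [zpow_natCast]⟩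

private theorem Z2_A_pow (l : ℕ) (i k : Fin n) :
    C.A ((D.ρ ^ l) i) ((D.ρ ^ l) k) = C.A i k := by
  induction l with
  | zero => rfl
  | succ l ih =>
    rw [pow_succ', Equiv.Perm.mul_apply, Equiv.Perm.mul_apply, D.hρ, ih]

private theorem Z2_simple_r (i : Fin n) : D.r (C.simple i) = C.simple i ↔ D.ρ i = i := by
  rw [D.r_simple]
  exact ⟨fun h => C.simple_injective h, fun h => by rw [h]⟩

private theorem Z2_simple_ne (i : Fin n) (h : D.ρ i ≠ i) :
    D.r (C.simple i) ≠ C.simple i := fun h1 => h ((Z2_simple_r i).1 h1)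

private theorem Z2_fix_cyc (i j : Fin n) (h : D.ρ i = i) (hj : D.ρ.SameCycle i j) : j = i := by
  obtain ⟨a, ha, rfl⟩ := Z2_cyc i j hj
  exact Equiv.Perm.pow_apply_eq_self_of_apply_eq_self h a

private theorem Z2_cyc_fix (i j : Fin n) (h : D.ρ j = j) (hj : D.ρ.SameCycle i j) : i = j :=
  Z2_fix_cyc j i h hj.symm

private theorem Z2_orth (h : D.NA) (i j k : Fin n) (hj : D.ρ.SameCycle i j)
    (hk : D.ρ.SameCycle i k) (hne : j ≠ k) : C.A j k = 0 := by
  obtain ⟨a, ha, rfl⟩ := Z2_cyc i j hj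
  obtain ⟨b, hb, rfl⟩ := Z2_cyc i k hk
  by_cases hi : D.ρ i = i
  · exfalso
    apply hne
    rw [Equiv.Perm.pow_apply_eq_self_of_apply_eq_self hi,
      Equiv.Perm.pow_apply_eq_self_of_apply_eq_self hi]
  · have h0 : ∀ l, 0 < l → l < D.m → C.A i ((D.ρ ^ l) i) = 0 := by
      intro l hl hl'
      have h1 := D.ip_orb (C.simple i) (Z2_simple_ne i hi) l hl hl'
      rw [D.ip_r_NA h _ (Z2_simple_ne i hi), D.r_iter_simple] at h1
      simpa only [SLC.simple_val, SLC.ip_single] using h1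
    rcases lt_trichotomy a b with hab | hab | hab
    · have h1 : (D.ρ ^ b) i = (D.ρ ^ a) ((D.ρ ^ (b - a)) i) := by
        rw [← Equiv.Perm.mul_apply, ← pow_add]
        congr 2
        omega
      rw [h1, Z2_A_pow]
      exact h0 _ (by omega) (by omega)
    · exact absurd (by rw [hab]) hne
    · have h1 : (D.ρ ^ a) i = (D.ρ ^ b) ((D.ρ ^ (a - b)) i) := by
        rw [← Equiv.Perm.mul_apply, ← pow_add]
        congr 2
        omega
      rw [h1, Z2_A_pow, C.symm]
      exact h0 _ (by omega) (by omega)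

private theorem Z2_mem (hN : D.NA) (i j : Fin n) : j ∈ D.wl i ↔ D.ρ.SameCycle i j := by
  unfold Dg.wl
  rw [if_neg (hN i)]
  split_ifs with hi
  · rw [List.mem_singleton]
    constructor
    · rintro rfl
      exact Equiv.Perm.SameCycle.refl _ _
    · intro hj
      exact Z2_fix_cyc i j hi hj
  · rw [List.mem_map]
    constructor
    · rintro ⟨l, -, rfl⟩
      exact Z2_same i l
    · intro hj
      obtain ⟨a, ha, rfl⟩ := Z2_cyc i j hj
      exact ⟨a, List.mem_range.2 ha, rfl⟩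

private theorem Z2_nodup (hN : D.NA) (i : Fin n) : (D.wl i).Nodup := by
  unfold Dg.wl
  rw [if_neg (hN i)]
  split_ifs with hi
  · exact List.nodup_singleton _
  · refine List.Nodup.map_on ?_ List.nodup_range
    intro a ha b hb hab
    rw [List.mem_range] at ha hb
    refine D.r_iter_eq (C.simple i) (Z2_simple_ne i hi) a b ha hb ?_
    rw [D.r_iter_simple, D.r_iter_simple, hab]

private theorem Z2_wd_out (l : List (Fin n)) (β : C.Root) (k : Fin n) (hk : k ∉ l) :
    (C.wd l β).1 k = β.1 k := by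
  induction l with
  | nil => rfl
  | cons j l ih =>
    rw [List.mem_cons, not_or] at hk
    rw [Z2_wd_cons, Equiv.Perm.mul_apply, SLC.reflE_apply, SLC.refl_val]
    simp only [Pi.sub_apply, Pi.smul_apply, SLC.simple_val, Pi.single_eq_of_ne hk.1, smul_zero,
      sub_zero]
    exact ih hk.2

private theorem Z2_ip_orth (l : List (Fin n)) (β : C.Root) (j : Fin n)
    (h : ∀ k ∈ l, C.A j k = 0) :
    C.ip (C.simple j).1 (C.wd l β).1 = C.ip (C.simple j).1 β.1 := by
  induction l with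
  | nil => rfl
  | cons k l ih =>
    rw [Z2_wd_cons, Equiv.Perm.mul_apply, SLC.reflE_apply, SLC.refl_val, SLC.ip_sub_right,
      SLC.ip_smul_right]
    have h1 : C.ip (C.simple j).1 (C.simple k).1 = 0 := by
      simp only [SLC.simple_val, SLC.ip_single]
      exact h k List.mem_cons_self
    rw [h1, mul_zero, sub_zero]
    exact ih fun k' hk' => h k' (List.mem_cons_of_mem _ hk')

private theorem Z2_wd_in (l : List (Fin n)) (hnd : l.Nodup)
    (ho : ∀ j ∈ l, ∀ k ∈ l, j ≠ k → C.A j k = 0) (β : C.Root) (k : Fin n) (hk : k ∈ l) :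
    (C.wd l β).1 k = β.1 k - C.ip (C.simple k).1 β.1 := by
  induction l with
  | nil => exact absurd hk List.not_mem_nil
  | cons j l ih =>
    rw [List.nodup_cons] at hnd
    rw [Z2_wd_cons, Equiv.Perm.mul_apply, SLC.reflE_apply, SLC.refl_val]
    simp only [Pi.sub_apply, Pi.smul_apply, SLC.simple_val]
    by_cases hkj : k = j
    · subst hkj
      have h1 := Z2_ip_orth l β k fun k' hk' => ho k List.mem_cons_self k'
        (List.mem_cons_of_mem _ hk') (fun he => hnd.1 (he ▸ hk'))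
      simp only [SLC.simple_val] at h1
      rw [h1, Z2_wd_out l β k hnd.1, Pi.single_eq_same, smul_eq_mul, mul_one]
    · have hk' : k ∈ l := by
        rcases List.mem_cons.1 hk with h | h
        · exact absurd h hkj
        · exact h
      rw [Pi.single_eq_of_ne hkj, smul_zero, sub_zero]
      exact ih hnd.2 (fun a ha b hb => ho a (List.mem_cons_of_mem _ ha) b
        (List.mem_cons_of_mem _ hb)) hk'

private theorem Z2_in (hN : D.NA) (i : Fin n) (β : C.Root) (k : Fin n)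
    (hk : D.ρ.SameCycle i k) :
    (C.wd (D.wl i) β).1 k = β.1 k - C.ip (C.simple k).1 β.1 :=
  Z2_wd_in _ (Z2_nodup hN i) (fun a ha b hb hab =>
    Z2_orth hN i a b ((Z2_mem hN i a).1 ha) ((Z2_mem hN i b).1 hb) hab) β k
    ((Z2_mem hN i k).2 hk)

private theorem Z2_out (hN : D.NA) (i : Fin n) (β : C.Root) (k : Fin n)
    (hk : ¬ D.ρ.SameCycle i k) : (C.wd (D.wl i) β).1 k = β.1 k :=
  Z2_wd_out _ β k fun h => hk ((Z2_mem hN i k).1 h)

/-- the relative reflection commutes with `r` -/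
private theorem Z2_comm (i : Fin n) (β : C.Root) :
    D.r (C.wd (D.wl i) β) = C.wd (D.wl i) (D.r β) := by
  have h := D.wJ_comm i
  rw [mul_inv_eq_iff_eq_mul] at h
  have h3 := congrArg (fun σ : Equiv.Perm C.Root => σ β) h
  simpa using h3

private theorem Z2_comm_iter (i : Fin n) (l : ℕ) (β : C.Root) :
    D.r^[l] (C.wd (D.wl i) β) = C.wd (D.wl i) (D.r^[l] β) := by
  induction l with
  | zero => rfl
  | succ l ih => rw [Function.iterate_succ_apply', ih, Z2_comm, Function.iterate_succ_apply']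

private theorem Z2_fix_wd (i : Fin n) (β : C.Root) :
    D.r (C.wd (D.wl i) β) = C.wd (D.wl i) β ↔ D.r β = β := by
  rw [Z2_comm]
  exact (C.wd (D.wl i)).injective.eq_iff

private theorem Z2_mo_wd (i : Fin n) (β : C.Root) : mo D (C.wd (D.wl i) β) = mo D β := by
  unfold mo
  by_cases h : D.r β = β
  · rw [if_pos h, if_pos ((Z2_fix_wd i β).2 h)]
  · rw [if_neg h, if_neg fun h1 => h ((Z2_fix_wd i β).1 h1)]

private theorem Z2_mo_pos (β : C.Root) : 0 < mo D β := by
  unfold mo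
  split_ifs
  · exact Nat.one_pos
  · exact Z2_m_pos

private theorem Z2_wd_neg (i : Fin n) (β : C.Root) :
    C.wd (D.wl i) (-β) = -(C.wd (D.wl i) β) := C.W_neg _ (C.wd_mem_W _) β

private theorem Z2_wd_wd (i : Fin n) (β : C.Root) :
    C.wd (D.wl i) (C.wd (D.wl i) β) = β := by
  have h := congrArg (fun σ : Equiv.Perm C.Root => σ β) (D.wJ_sq i)
  simpa using h

private theorem Z2_ip_sum (C : SLC n) {ι : Type*} (v : Fin n → ℤ) (s : Finset ι)
    (f : ι → Fin n → ℤ) : C.ip v (∑ i ∈ s, f i) = ∑ i ∈ s, C.ip v (f i) :=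
  map_sum (AddMonoidHom.mk' (C.ip v) (C.ip_add_right v)) f s

private theorem Z2_lmap_sum {ι : Type*} (π : Equiv.Perm (Fin n)) (s : Finset ι)
    (f : ι → Fin n → ℤ) : SLC.lmap π (∑ i ∈ s, f i) = ∑ i ∈ s, SLC.lmap π (f i) :=
  map_sum (AddMonoidHom.mk' (SLC.lmap π) (SLC.lmap_add π)) f s

private theorem Z2_ht_sum {ι : Type*} (s : Finset ι)
    (f : ι → Fin n → ℤ) : ht (∑ i ∈ s, f i) = ∑ i ∈ s, ht (f i) :=
  map_sum (AddMonoidHom.mk' (ht (n := n)) ht_add) f s

private theorem Z2_ht_iter (β : C.Root) (l : ℕ) : ht (D.r^[l] β).1 = ht β.1 := by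
  induction l with
  | zero => rfl
  | succ l ih => rw [Function.iterate_succ_apply', D.r_ht, ih]

private theorem Z2_ht_osum (β : C.Root) : ht (osum D β) = mo D β * ht β.1 := by
  unfold osum
  rw [Z2_ht_sum, Finset.sum_congr rfl (fun l _ => Z2_ht_iter β l), Finset.sum_const,
    Finset.card_range, nsmul_eq_mul]

private theorem Z2_osum_fix (β : C.Root) (h : D.r β = β) : osum D β = β.1 := by
  unfold osum mo
  rw [if_pos h]
  simp

private theorem Z2_osum_ne (β : C.Root) (h : D.r β ≠ β) :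
    osum D β = ∑ l ∈ Finset.range D.m, (D.r^[l] β).1 := by
  unfold osum mo
  rw [if_neg h]

private theorem Z2_osum_inv (β : C.Root) : SLC.lmap D.ρ (osum D β) = osum D β := by
  by_cases h : D.r β = β
  · rw [Z2_osum_fix β h]
    exact congrArg SLC.Root.val h
  rw [Z2_osum_ne β h, Z2_lmap_sum]
  have h1 : ∀ l, SLC.lmap D.ρ (D.r^[l] β).1 = (D.r^[l + 1] β).1 := by
    intro l
    rw [Function.iterate_succ_apply']
    rfl
  rw [Finset.sum_congr rfl (fun l _ => h1 l)]
  have h2 := Finset.sum_range_succ' (fun l => (D.r^[l] β).1) D.m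
  have h3 := Finset.sum_range_succ (fun l => (D.r^[l] β).1) D.m
  rw [h3] at h2
  simp only [D.r_m, Function.iterate_zero_apply] at h2
  exact (add_right_cancel h2).symm

private theorem Z2_ip_inv (v : Fin n → ℤ) (hv : SLC.lmap D.ρ v = v) (β : C.Root) (l : ℕ) :
    C.ip v (D.r^[l] β).1 = C.ip v β.1 := by
  induction l with
  | zero => rfl
  | succ l ih =>
    rw [Function.iterate_succ_apply', ← ih]
    have h1 := C.ip_lmap D.ρ D.hρ v (D.r^[l] β).1
    rw [hv] at h1
    exact h1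

private theorem Z2_ip_osum (v : Fin n → ℤ) (hv : SLC.lmap D.ρ v = v) (β : C.Root) :
    C.ip v (osum D β) = mo D β * C.ip v β.1 := by
  unfold osum
  rw [Z2_ip_sum, Finset.sum_congr rfl (fun l _ => Z2_ip_inv v hv β l), Finset.sum_const,
    Finset.card_range, nsmul_eq_mul]

private theorem Z2_ip_same (v : Fin n → ℤ) (hv : SLC.lmap D.ρ v = v) (i j : Fin n)
    (h : D.ρ.SameCycle i j) : C.ip v (C.simple j).1 = C.ip v (C.simple i).1 := by
  obtain ⟨a, -, rfl⟩ := Z2_cyc i j h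
  rw [← D.r_iter_simple, Z2_ip_inv v hv]

/-- the orbit sum of a simple root -/
private theorem Z2_osum_simple (j k : Fin n) :
    (D.ρ.SameCycle j k → osum D (C.simple j) k = 1) ∧
      (¬ D.ρ.SameCycle j k → osum D (C.simple j) k = 0) := by
  by_cases h : D.ρ j = j
  · rw [Z2_osum_fix _ ((Z2_simple_r j).2 h), SLC.simple_val]
    constructor
    · intro hk
      rw [Z2_fix_cyc j k h hk, Pi.single_eq_same]
    · intro hk
      rw [Pi.single_eq_of_ne]
      rintro rfl
      exact hk (Equiv.Perm.SameCycle.refl _ _)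
  · rw [Z2_osum_ne _ (Z2_simple_ne j h), Finset.sum_apply]
    constructor
    · intro hk
      obtain ⟨a, ha, rfl⟩ := Z2_cyc j k hk
      rw [Finset.sum_eq_single a]
      · rw [D.r_iter_simple, SLC.simple_val, Pi.single_eq_same]
      · intro b hb hba
        rw [D.r_iter_simple, SLC.simple_val, Pi.single_eq_of_ne]
        intro he
        rw [Finset.mem_range] at hb
        apply hba
        refine D.r_iter_eq (C.simple j) (Z2_simple_ne j h) b a hb ha ?_
        rw [D.r_iter_simple, D.r_iter_simple, he]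
      · intro hn
        exact absurd (Finset.mem_range.2 ha) hn
    · intro hk
      apply Finset.sum_eq_zero
      intro a _
      rw [D.r_iter_simple, SLC.simple_val, Pi.single_eq_of_ne]
      rintro rfl
      exact hk (Z2_same j a)

private theorem Z2_osum_refl (hN : D.NA) (j : Fin n) (β : C.Root) :
    osum D (C.wd (D.wl j) β) =
      osum D β - C.ip (osum D β) (C.simple j).1 • osum D (C.simple j) := by
  have e : osum D (C.wd (D.wl j) β) =
      ∑ l ∈ Finset.range (mo D β), (C.wd (D.wl j) (D.r^[l] β)).1 := by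
    unfold osum
    rw [Z2_mo_wd]
    exact Finset.sum_congr rfl fun l _ => by rw [Z2_comm_iter]
  rw [e]
  funext k
  rw [Finset.sum_apply, Pi.sub_apply, Pi.smul_apply, smul_eq_mul]
  by_cases hk : D.ρ.SameCycle j k
  · rw [(Z2_osum_simple j k).1 hk, mul_one, Finset.sum_congr rfl (fun l _ => Z2_in hN j _ k hk),
      Finset.sum_sub_distrib, ← Z2_ip_same (osum D β) (Z2_osum_inv β) j k hk, C.ip_comm (osum D β)]
    unfold osum
    rw [Z2_ip_sum, Finset.sum_apply]
  · rw [(Z2_osum_simple j k).2 hk, mul_zero, sub_zero,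
      Finset.sum_congr rfl (fun l _ => Z2_out hN j _ k hk)]
    unfold osum
    rw [Finset.sum_apply]

/-- the relative reflection of a simple root -/
private theorem Z2_wd_simple (hN : D.NA) (i : Fin n) :
    C.wd (D.wl i) (C.simple i) = -(C.simple i) := by
  apply SLC.Root.ext
  funext k
  rw [SLC.Root.neg_val, Pi.neg_apply]
  by_cases hk : D.ρ.SameCycle i k
  · rw [Z2_in hN i _ k hk]
    by_cases hik : k = i
    · subst hik
      rw [(C.simple k).2, SLC.simple_val, Pi.single_eq_same]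
      norm_num
    · rw [SLC.simple_val, SLC.simple_val, C.ip_single, Pi.single_eq_of_ne hik,
        Z2_orth hN i k i hk (Equiv.Perm.SameCycle.refl _ _) hik]
      norm_num
  · rw [Z2_out hN i _ k hk, SLC.simple_val, Pi.single_eq_of_ne]
    · norm_num
    · rintro rfl
      exact hk (Equiv.Perm.SameCycle.refl _ _)

private theorem Z2_iter (P : C.Root → Prop) (hr : ∀ β, P β → P (D.r β)) (β γ : C.Root)
    (h : D.rE.SameCycle β γ) (hβ : P β) : P γ := by
  obtain ⟨l, -, rfl⟩ := (D.sameCycle_iff β γ).1 h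
  clear h
  induction l with
  | zero => exact hβ
  | succ l ih =>
    rw [Function.iterate_succ_apply']
    exact hr _ ih

/-- a positive root has positive inner product with some simple root -/
private theorem Z2_exists (β : C.Root) (hβ : C.Pos β) :
    ∃ j, 0 < C.ip (osum D β) (C.simple j).1 := by
  by_contra hcon
  push Not at hcon
  have h0 : ∀ i, 0 ≤ osum D β i := by
    intro i
    unfold osum
    rw [Finset.sum_apply]
    apply Finset.sum_nonneg
    intro l _
    refine (C.pos_iff _).1 ?_ i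
    unfold SLC.Pos
    rw [Z2_ht_iter]
    exact hβ
  have h1 : osum D β ≠ 0 := by
    intro h
    have h2 := Z2_ht_osum (D := D) β
    rw [h] at h2
    have h3 : 0 < (mo D β : ℤ) * ht β.1 :=
      mul_pos (by exact_mod_cast Z2_mo_pos β) hβ
    rw [← h2] at h3
    simp [ht] at h3
  have h2 := C.ip_pos _ h1
  rw [← C.sum_ip_single] at h2
  refine absurd h2 (not_lt.mpr (Finset.sum_nonpos fun i _ => ?_))
  rw [C.ip_comm]
  exact mul_nonpos_of_nonneg_of_nonpos (h0 i) (hcon i)

private theorem Z2_ht_lt (hN : D.NA) (β : C.Root) (j : Fin n)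
    (hj : 0 < C.ip (osum D β) (C.simple j).1) : ht (C.wd (D.wl j) β).1 < ht β.1 := by
  have h1 := congrArg ht (Z2_osum_refl hN j β)
  rw [ht_sub, ht_smul, Z2_ht_osum, Z2_ht_osum, Z2_ht_osum, Z2_mo_wd] at h1
  have h2 : (0 : ℤ) < mo D β := by exact_mod_cast Z2_mo_pos β
  have h3 : (0 : ℤ) < mo D (C.simple j) := by exact_mod_cast Z2_mo_pos _
  have h4 : (0 : ℤ) < ht (C.simple j).1 := C.simple_pos j
  have h5 : 0 < C.ip (osum D β) (C.simple j).1 * (mo D (C.simple j) * ht (C.simple j).1) :=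
    mul_pos hj (mul_pos h3 h4)
  have h6 : (mo D β : ℤ) * ht (C.wd (D.wl j) β).1 < mo D β * ht β.1 := by omega
  exact lt_of_mul_lt_mul_left h6 h2.le

theorem root_induct (hN : D.NA) (P : C.Root → Prop) (h0 : ∀ i, P (C.simple i))
    (hr : ∀ β, P β → P (D.r β)) (hw : ∀ i β, P β → P (C.wd (D.wl i) β)) (β : C.Root) : P β := by
  have hpos : ∀ N : ℕ, ∀ β : C.Root, C.Pos β → ht β.1 ≤ N → P β ∧ P (-β) := by
    intro N
    induction N with
    | zero =>
      intro β hβ hN0
      unfold SLC.Pos at hβ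
      exact absurd hβ (by push_cast at hN0; omega)
    | succ N ih =>
      intro β hβ hN1
      obtain ⟨j, hj⟩ := Z2_exists (D := D) β hβ
      by_cases hs : D.supp j β
      · have hc := D.supp_NA hN j β hβ hs
        refine ⟨Z2_iter P hr _ _ hc (h0 j), ?_⟩
        refine Z2_iter (fun γ => P (-γ)) (fun γ hγ => ?_) _ _ hc ?_
        · rw [← D.r_neg]
          exact hr _ hγ
        · rw [← Z2_wd_simple hN j]
          exact hw _ _ (h0 j)
      · have h1 := Z2_ht_lt hN β j hj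
        have h2 := ih _ (D.wJ_pos j β hβ hs) (by push_cast at hN1; omega)
        constructor
        · have h3 := hw j _ h2.1
          rwa [Z2_wd_wd] at h3
        · have h3 := hw j _ h2.2
          rwa [Z2_wd_neg, Z2_wd_wd] at h3
  by_cases hβ : C.Pos β
  · exact (hpos (ht β.1).toNat β hβ (Int.self_le_toNat _)).1
  · have h1 := (hpos (ht (-β).1).toNat (-β) ((C.not_pos_iff β).1 hβ) (Int.self_le_toNat _)).2
    rwa [C.neg_neg_root] at h1

theorem osum_inv (β : C.Root) : SLC.lmap D.ρ (osum D β) = osum D β := by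
  exact Z2_osum_inv β

theorem TT_inv (hS : Swap D t0) (v : Fin n → ℤ) : SLC.lmap D.ρ (TT D t0 v) = TT D t0 v := by
  funext j
  unfold TT
  change (if D.ρ (D.ρ.symm j) = D.ρ.symm j then (D.m : ℤ) else 1) * v (t0 (D.ρ.symm j)) =
    (if D.ρ j = j then (D.m : ℤ) else 1) * v (t0 j)
  have h1 : t0 (D.ρ.symm j) = t0 j := by
    have h := hS.rho (D.ρ.symm j)
    rw [Equiv.apply_symm_apply] at h
    exact h.symm
  have h2 : D.ρ (D.ρ.symm j) = D.ρ.symm j ↔ D.ρ j = j := by
    rw [Equiv.apply_symm_apply, Equiv.eq_symm_apply]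
  rw [h1]
  by_cases h : D.ρ j = j
  · rw [if_pos h, if_pos (h2.2 h)]
  · rw [if_neg h, if_neg fun h3 => h (h2.1 h3)]

theorem TT_simple (hS : Swap D t0) (j : Fin n) :
    (D.ρ j = j → TT D t0 (C.simple j).1 = osum D (C.simple (t0 j))) ∧
    (D.ρ j ≠ j → TT D t0 (osum D (C.simple j)) = (D.m : ℤ) • (C.simple (t0 j)).1) := by
  have hcyc : ∀ a b, D.ρ.SameCycle a b → t0 b = t0 a := by
    intro a b h
    obtain ⟨l, -, rfl⟩ := Z2_cyc a b h
    clear h
    induction l with
    | zero => rfl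
    | succ l ih => rw [pow_succ', Equiv.Perm.mul_apply, hS.rho, ih]
  constructor
  · intro hj
    have h1 : t0 (t0 j) = j := Z2_fix_cyc j _ hj (hS.inv j)
    funext k
    unfold TT
    rw [SLC.simple_val]
    by_cases hk : D.ρ.SameCycle (t0 j) k
    · have h2 : t0 k = j := by rw [hcyc _ _ hk, h1]
      have h3 : ¬ D.ρ k = k := by
        rw [← ne_eq, ← hS.fix_iff, h2]
        exact hj
      rw [(Z2_osum_simple _ k).1 hk, if_neg h3, h2, Pi.single_eq_same, one_mul]
    · rw [(Z2_osum_simple _ k).2 hk, Pi.single_eq_of_ne, mul_zero]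
      intro h2
      apply hk
      have h3 := hS.inv k
      rw [h2] at h3
      exact h3.symm
  · intro hj
    funext k
    rw [Pi.smul_apply, smul_eq_mul, SLC.simple_val]
    unfold TT
    by_cases hk : k = t0 j
    · have h1 : D.ρ k = k := by
        rw [hk]
        exact (hS.fix_iff j).2 hj
      rw [if_pos h1, hk, (Z2_osum_simple j _).1 (hS.inv j), Pi.single_eq_same]
    · rw [Pi.single_eq_of_ne hk, mul_zero, (Z2_osum_simple j _).2, mul_zero]
      intro h1
      apply hk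
      have h2 : ¬ D.ρ (t0 k) = t0 k := by
        intro h3
        have h4 := Z2_cyc_fix j _ h3 h1
        rw [← h4] at h3
        exact hj h3
      have h3 : D.ρ k = k := by
        by_contra h4
        exact h2 ((hS.fix_iff k).2 h4)
      have h4 : t0 (t0 k) = k := Z2_fix_cyc k _ h3 (hS.inv k)
      rw [← h4, hcyc _ _ h1]

theorem osum_refl (hN : D.NA) (j : Fin n) (β : C.Root) : osum D (C.wd (D.wl j) β) =
    osum D β - C.ip (osum D β) (C.simple j).1 • osum D (C.simple j) := by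
  exact Z2_osum_refl hN j β

private theorem Z2_TT_sub (v w : Fin n → ℤ) (c : ℤ) :
    TT D t0 (v - c • w) = TT D t0 v - c • TT D t0 w := by
  funext k
  unfold TT
  simp only [Pi.sub_apply, Pi.smul_apply, smul_eq_mul]
  ring

private theorem Z2_TT_star (hS : Swap D t0) (j : Fin n) (v : Fin n → ℤ)
    (hv : SLC.lmap D.ρ v = v) :
    TT D t0 (v - C.ip v (C.simple j).1 • osum D (C.simple j)) =
      TT D t0 v - C.ip (TT D t0 v) (C.simple (t0 j)).1 • osum D (C.simple (t0 j)) := by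
  have hm : (D.m : ℤ) ≠ 0 := by
    have := Z2_m_pos (D := D)
    exact_mod_cast this.ne'
  have hTv := TT_inv hS v
  rw [Z2_TT_sub]
  by_cases hj : D.ρ j = j
  · have h1 := (TT_simple hS j).1 hj
    have h2 : ¬ D.ρ (t0 j) = t0 j := fun h => (hS.fix_iff j).1 h hj
    have h3 : SLC.lmap D.ρ (C.simple j).1 = (C.simple j).1 := by
      rw [SLC.simple_val, SLC.lmap_single, hj]
    have h4 := hS.scale v (C.simple j).1 hv h3
    rw [h1, Z2_ip_osum _ hTv] at h4
    have h5 : mo D (C.simple (t0 j)) = D.m := by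
      unfold mo
      rw [if_neg (Z2_simple_ne _ h2)]
    rw [h5] at h4
    have h6 := mul_left_cancel₀ hm h4
    rw [Z2_osum_fix _ ((Z2_simple_r j).2 hj), h1, h6]
  · have h1 := (TT_simple hS j).2 hj
    have h2 : D.ρ (t0 j) = t0 j := (hS.fix_iff j).2 hj
    have h4 := hS.scale v (osum D (C.simple j)) hv (Z2_osum_inv _)
    have h5 : mo D (C.simple j) = D.m := by
      unfold mo
      rw [if_neg (Z2_simple_ne _ hj)]
    rw [h1, Z2_ip_osum _ hv, C.ip_smul_right, h5] at h4
    have h6 := mul_left_cancel₀ hm h4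
    rw [Z2_osum_fix _ ((Z2_simple_r (t0 j)).2 h2), h1, h6, smul_smul, mul_comm]

theorem TT_refl (hS : Swap D t0) (j : Fin n) (β γ : C.Root)
    (h1 : D.r β = β → D.r γ ≠ γ ∧ osum D γ = TT D t0 β.1)
    (h2 : D.r β ≠ β → D.r γ = γ ∧ (D.m : ℤ) • γ.1 = TT D t0 (osum D β)) :
    (D.r (C.wd (D.wl j) β) = C.wd (D.wl j) β →
      D.r (C.wd (D.wl (t0 j)) γ) ≠ C.wd (D.wl (t0 j)) γ ∧
      osum D (C.wd (D.wl (t0 j)) γ) = TT D t0 (C.wd (D.wl j) β).1) ∧
    (D.r (C.wd (D.wl j) β) ≠ C.wd (D.wl j) β →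
      D.r (C.wd (D.wl (t0 j)) γ) = C.wd (D.wl (t0 j)) γ ∧
      (D.m : ℤ) • (C.wd (D.wl (t0 j)) γ).1 = TT D t0 (osum D (C.wd (D.wl j) β))) := by
  constructor
  · intro h
    have hβ := (Z2_fix_wd j β).1 h
    obtain ⟨h3, h4⟩ := h1 hβ
    refine ⟨fun h5 => h3 ((Z2_fix_wd _ γ).1 h5), ?_⟩
    rw [Z2_osum_refl hS.na, h4, ← Z2_osum_fix β hβ, ← Z2_TT_star hS j _ (Z2_osum_inv β),
      ← Z2_osum_refl hS.na, Z2_osum_fix _ h]
  · intro h
    have hβ : D.r β ≠ β := fun h3 => h ((Z2_fix_wd j β).2 h3)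
    obtain ⟨h3, h4⟩ := h2 hβ
    have h5 := (Z2_fix_wd (t0 j) γ).2 h3
    refine ⟨h5, ?_⟩
    rw [← Z2_osum_fix _ h5, Z2_osum_refl hS.na, Z2_osum_fix γ h3, Z2_osum_refl hS.na,
      Z2_TT_star hS j _ (Z2_osum_inv β), ← h4, C.ip_smul_left, smul_sub, smul_smul]

section
variable {k : Type*} [Field k] {θ : k ≃+* k}

private theorem Z2_th_sign (β : C.Root) (e : ℤ) (he : e = 1 ∨ e = -1) (t : k) :
    th D θ β ((e : k) * t) = (e : k) * th D θ β t := by
  unfold th
  rcases he with rfl | rfl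
  · simp
  · split_ifs <;> simp

private theorem Z2_th_one (β : C.Root) : th D θ β (1 : k) = 1 := by
  unfold th
  split_ifs <;> simp

private theorem Z2_th_wd (j : Fin n) (β : C.Root) (t : k) :
    th D θ (C.wd (D.wl j) β) t = th D θ β t := by
  unfold th
  by_cases h : D.r β = β
  · rw [if_pos h, if_pos ((Z2_fix_wd j β).2 h)]
  · rw [if_neg h, if_neg fun h1 => h ((Z2_fix_wd j β).1 h1)]

private theorem Z2_r_r (β : C.Root) : D.r (D.r β) = D.r β ↔ D.r β = β :=
  ⟨fun h => D.r_injective h, fun h => by rw [h, h]⟩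

private theorem Z2_th_r (β : C.Root) (t : k) : th D θ (D.r β) t = th D θ β t := by
  by_cases h : D.r β = β
  · rw [h]
  · unfold th
    rw [if_neg h, if_neg fun h1 => h ((Z2_r_r β).1 h1)]

private theorem Z2_osum_r (β : C.Root) (h : D.r β ≠ β) : osum D (D.r β) = osum D β := by
  rw [← Z2_osum_inv β, Z2_osum_ne β h, Z2_osum_ne _ fun h1 => h ((Z2_r_r β).1 h1), Z2_lmap_sum]
  refine Finset.sum_congr rfl fun l _ => ?_
  rw [← Function.iterate_succ_apply, Function.iterate_succ_apply']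
  rfl

private theorem Z2_sign_mul {a b : ℤ} (ha : a = 1 ∨ a = -1) (hb : b = 1 ∨ b = -1) :
    a * b = 1 ∨ a * b = -1 := by
  rcases ha with rfl | rfl <;> rcases hb with rfl | rfl <;> norm_num

private theorem Z2_sign_sq (k : Type*) [Field k] {a : ℤ} (ha : a = 1 ∨ a = -1) (t : k) :
    (a : k) * ((a : k) * t) = t := by
  rcases ha with rfl | rfl <;> simp

end

theorem exists_tau (hS : Swap D t0) {k : Type*} [Field k] [Infinite k] {θ : k ≃+* k}
    {σ : GF D k →* GF D k} (h : SRs D t0 θ σ) :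
    ∃ τ e, SRt hS.na t0 θ σ τ e := by
  have key : ∀ β : C.Root, ∃ (γ : C.Root) (e : ℤ), (e = 1 ∨ e = -1) ∧
      (∀ t, σ (yg hS.na β t) = yg hS.na γ ((e : k) * th D θ β t)) ∧
      (D.r β = β → D.r γ ≠ γ ∧ osum D γ = TT D t0 β.1) ∧
      (D.r β ≠ β → D.r γ = γ ∧ (D.m : ℤ) • γ.1 = TT D t0 (osum D β)) := by
    have hpos : ∀ (j : Fin n) (t : k), σ (yg hS.na (C.simple j) t) =
        yg hS.na (C.simple (t0 j)) (th D θ (C.simple j) t) := by
      intro j t
      apply Subtype.ext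
      exact h.pos j t _ (yg_val _ _ _)
    have hneg : ∀ (j : Fin n) (t : k), σ (yg hS.na (-(C.simple j)) t) =
        yg hS.na (-(C.simple (t0 j))) (th D θ (C.simple j) t) := by
      intro j t
      apply Subtype.ext
      exact h.neg j t _ (yg_val _ _ _)
    have hnJ : ∀ j, σ (nJ hS.na k j) = nJ hS.na k (t0 j) := by
      intro j
      unfold nJ
      rw [map_mul, map_mul, hpos, hneg, Z2_th_one]
    refine root_induct hS.na _ ?_ ?_ ?_
    · intro j
      refine ⟨C.simple (t0 j), 1, Or.inl rfl, fun t => ?_, fun hj => ?_, fun hj => ?_⟩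
      · rw [hpos, Int.cast_one, one_mul]
      · rw [Z2_simple_r] at hj
        refine ⟨Z2_simple_ne _ fun h1 => (hS.fix_iff j).1 h1 hj, ?_⟩
        exact ((TT_simple hS j).1 hj).symm
      · rw [ne_eq, Z2_simple_r] at hj
        refine ⟨(Z2_simple_r _).2 ((hS.fix_iff j).2 hj), ?_⟩
        exact ((TT_simple hS j).2 hj).symm
    · rintro β ⟨γ, e, he, h1, h2, h3⟩
      refine ⟨γ, e * D.sg β, Z2_sign_mul he (D.sg_eq β), fun t => ?_, fun hj => ?_, fun hj => ?_⟩
      · have h4 := yg_r hS.na β ((D.sg β : k) * t)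
        rw [Z2_sign_sq k (D.sg_eq β)] at h4
        rw [h4, h1, Z2_th_sign β _ (D.sg_eq β), Z2_th_r, Int.cast_mul, mul_assoc]
      · have h4 := (Z2_r_r β).1 hj
        rw [h4]
        exact h2 h4
      · have h4 : D.r β ≠ β := fun h5 => hj ((Z2_r_r β).2 h5)
        rw [Z2_osum_r β h4]
        exact h3 h4
    · rintro j β ⟨γ, e, he, h1, h2, h3⟩
      obtain ⟨e1, he1, hc1⟩ := nJ_conj hS.na j β (k := k)
      obtain ⟨e2, he2, hc2⟩ := nJ_conj hS.na (t0 j) γ (k := k)
      have h4 := TT_refl hS j β γ h2 h3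
      refine ⟨C.wd (D.wl (t0 j)) γ, e2 * (e * e1), Z2_sign_mul he2 (Z2_sign_mul he he1),
        fun t => ?_, h4.1, h4.2⟩
      have h5 := hc1 ((e1 : k) * t)
      rw [Z2_sign_sq k he1] at h5
      rw [← h5, map_mul, map_mul, map_inv, hnJ, h1, hc2, Z2_th_sign β _ he1, Z2_th_wd]
      push_cast
      congr 1
      ring
  choose τ e h1 h2 h3 h4 using key
  exact ⟨τ, e, ⟨⟨h3, h4⟩, h1, h2⟩⟩

end Pool.Agent.H86.UM
end

section
/- module Pool.Agent.H86.UM.Z3 -/
/-!
# Project UM, Suzuki-Ree groups, module Z3: combinatorics of `τ`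

`osum_inj`: by `osum β = osum γ` and invariance `∑_l ip β (r^l γ) = ip β (osum γ) = ip β (osum β) = 2`
(for `β` not fixed the other roots of the orbit are orthogonal to `β`: `ip_r_NA`, `ip_orb`; both are fixed or both
are not fixed, as `ip (osum β) (osum β) = 2 * mo β`). If some `ip β (r^l γ) = 2` we are done (`ip_eq_two_iff`).
Otherwise (`ip ≤ 1`) there is `l` with `ip β (r^l γ) = 1` (not fixed case), `δ = β - r^l γ` is a root
(`exists_sub`) with `∑_l r^l δ = 0`, so `m * ht δ = 0`, contradiction to `ht_ne_zero`.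
`tau_pos`: `osum β` has nonnegative coordinates iff `β` is positive (`pos_iff`, `r_pos`), `TT` preserves this
(`t0` is surjective up to cycles, `inv`). `tau_cycle`: `osum_inj`. `tau_tau`: `TT (TT v) = m • v` for
invariant `v` (`inv`, `rho`, `fix_iff`). `tau_simple`: `TT_simple`. `tau_neg`: `TT (-v) = - TT v`.
`tau_supp`: the support of `osum β` is the union of the cycles of the support of `β` (for a root, all coordinates have
the same sign), and the coordinate of `TT v` at `j` is a nonzero multiple of `v (t0 j)`; `JJ i` is a union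
of cycles and `JJ i (t0 j) ↔ JJ i j`.
-/

set_option autoImplicit false
open Matrix

namespace Pool.Agent.H86.UM

open Pool.Agent.H75.UL

variable {n : ℕ} {C : SLC n} {D : Dg C} {t0 : Fin n → Fin n} {τ : C.Root → C.Root}

private theorem Z3_m_pos : 0 < D.m := by
  rcases D.m_cases with h | h | h <;> omega

private theorem Z3_mo_pos (β : C.Root) : 0 < mo D β := by
  unfold mo
  split_ifs
  · exact one_pos
  · exact Z3_m_pos

private theorem Z3_osum_r (β : C.Root) : osum D (D.r β) = osum D β := by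
  by_cases h : D.r β = β
  · rw [h]
  · have h' : D.r (D.r β) ≠ D.r β := fun h1 => h (D.r_injective h1)
    unfold osum mo
    rw [if_neg h, if_neg h']
    have h1 : ∀ l, (D.r^[l] (D.r β)).1 = (D.r^[l + 1] β).1 := fun l => rfl
    rw [Finset.sum_congr rfl (fun l _ => h1 l)]
    have h2 := Finset.sum_range_succ' (fun l => (D.r^[l] β).1) D.m
    have h3 := Finset.sum_range_succ (fun l => (D.r^[l] β).1) D.m
    rw [h3] at h2
    simp only [D.r_m, Function.iterate_zero_apply] at h2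
    exact (add_right_cancel h2).symm

private theorem Z3_osum_iter (l : ℕ) (β : C.Root) : osum D (D.r^[l] β) = osum D β := by
  induction l with
  | zero => rfl
  | succ l ih => rw [Function.iterate_succ_apply', Z3_osum_r, ih]

theorem osum_cycle (β γ : C.Root) (h : D.rE.SameCycle β γ) : osum D β = osum D γ := by
  obtain ⟨l, -, rfl⟩ := (D.sameCycle_iff β γ).mp h
  exact (Z3_osum_iter l β).symm

private theorem Z3_ht_iter (β : C.Root) (l : ℕ) : ht (D.r^[l] β).1 = ht β.1 := by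
  induction l with
  | zero => rfl
  | succ l ih => rw [Function.iterate_succ_apply', D.r_ht, ih]

private theorem Z3_ht_sum {ι : Type*} (s : Finset ι)
    (f : ι → Fin n → ℤ) : ht (∑ i ∈ s, f i) = ∑ i ∈ s, ht (f i) :=
  map_sum (AddMonoidHom.mk' (ht (n := n)) ht_add) f s

private theorem Z3_ht_osum (β : C.Root) : ht (osum D β) = mo D β * ht β.1 := by
  unfold osum
  rw [Z3_ht_sum, Finset.sum_congr rfl (fun l _ => Z3_ht_iter β l), Finset.sum_const,
    Finset.card_range, nsmul_eq_mul]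

private theorem Z3_ip_sum (C : SLC n) {ι : Type*} (v : Fin n → ℤ) (s : Finset ι)
    (f : ι → Fin n → ℤ) : C.ip v (∑ i ∈ s, f i) = ∑ i ∈ s, C.ip v (f i) :=
  map_sum (AddMonoidHom.mk' (C.ip v) (C.ip_add_right v)) f s

private theorem Z3_ip_inv (v : Fin n → ℤ) (hv : SLC.lmap D.ρ v = v) (β : C.Root) (l : ℕ) :
    C.ip v (D.r^[l] β).1 = C.ip v β.1 := by
  induction l with
  | zero => rfl
  | succ l ih =>
    rw [Function.iterate_succ_apply', ← ih]
    have h1 := C.ip_lmap D.ρ D.hρ v (D.r^[l] β).1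
    rw [hv] at h1
    exact h1

private theorem Z3_ip_self (hN : D.NA) (β : C.Root) : C.ip β.1 (osum D β) = 2 := by
  unfold osum
  rw [Z3_ip_sum, Finset.sum_eq_single_of_mem 0 (Finset.mem_range.mpr (Z3_mo_pos β))]
  · rw [Function.iterate_zero_apply, β.2]
  · intro l hl hl0
    rw [Finset.mem_range] at hl
    by_cases hβ : D.r β = β
    · unfold mo at hl
      rw [if_pos hβ] at hl
      omega
    · unfold mo at hl
      rw [if_neg hβ] at hl
      rw [D.ip_orb β hβ l (by omega) hl]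
      exact D.ip_r_NA hN β hβ

private theorem Z3_ip_osum (hN : D.NA) (β : C.Root) :
    C.ip (osum D β) (osum D β) = 2 * mo D β := by
  have h1 : C.ip (osum D β) (osum D β) =
      ∑ l ∈ Finset.range (mo D β), C.ip (osum D β) (D.r^[l] β).1 := Z3_ip_sum C _ _ _
  rw [h1, Finset.sum_congr rfl (fun l _ => Z3_ip_inv _ (osum_inv β) β l),
    Finset.sum_const, Finset.card_range, nsmul_eq_mul, C.ip_comm, Z3_ip_self hN]
  ring

theorem osum_inj (hN : D.NA) (β γ : C.Root) (h : osum D β = osum D γ) :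
    D.rE.SameCycle β γ := by
  have hm : (mo D β : ℤ) = mo D γ := by
    have h1 := Z3_ip_osum hN β
    rw [h, Z3_ip_osum hN γ] at h1
    omega
  have hht : ht β.1 = ht γ.1 := by
    have h1 := Z3_ht_osum (D := D) β
    rw [h, Z3_ht_osum, hm] at h1
    have h2 : (mo D γ : ℤ) ≠ 0 := by
      have := Z3_mo_pos (D := D) γ
      omega
    exact (mul_left_cancel₀ h2 h1).symm
  have hs : ∑ l ∈ Finset.range (mo D β), C.ip γ.1 (D.r^[l] β).1 = 2 := by
    rw [← Z3_ip_sum]
    change C.ip γ.1 (osum D β) = 2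
    rw [h, Z3_ip_self hN]
  by_cases hex : ∃ l ∈ Finset.range (mo D β), C.ip γ.1 (D.r^[l] β).1 = 2
  · obtain ⟨l, -, hl⟩ := hex
    have h1 := (C.ip_eq_two_iff _ _).mp hl
    rw [h1]
    exact ⟨l, by
      rw [zpow_natCast]
      clear h1 hl hs hht hm h
      induction l with
      | zero => rfl
      | succ l ih =>
        rw [pow_succ', Equiv.Perm.mul_apply, ih, Function.iterate_succ_apply']
        rfl⟩
  · exfalso
    push Not at hex
    have h1 : ∃ l ∈ Finset.range (mo D β), 0 < C.ip γ.1 (D.r^[l] β).1 := by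
      by_contra hc
      push Not at hc
      have := Finset.sum_nonpos hc
      omega
    obtain ⟨l, hl, hl0⟩ := h1
    have h2 : C.ip γ.1 (D.r^[l] β).1 = 1 := by
      have := C.ip_cases γ (D.r^[l] β)
      have := hex l hl
      omega
    obtain ⟨δ, hδ⟩ := C.exists_sub _ _ h2
    have h3 := C.ht_ne_zero δ
    rw [hδ, ht_sub, Z3_ht_iter] at h3
    omega

private theorem Z3_cyc (i j : Fin n) (h : D.ρ.SameCycle i j) :
    ∃ l, l < D.m ∧ (D.ρ ^ l) i = j := by
  obtain ⟨z, hz⟩ := h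
  have hm := Z3_m_pos (D := D)
  have h1 : 0 ≤ z % (D.m : ℤ) := Int.emod_nonneg _ (by omega)
  have h2 : z % (D.m : ℤ) < D.m := Int.emod_lt_of_pos _ (by omega)
  refine ⟨(z % (D.m : ℤ)).toNat, by omega, ?_⟩
  have h3 : D.ρ ^ (z % (D.m : ℤ)) = D.ρ ^ z := zpow_mod_orderOf _ _
  rw [← hz, ← h3]
  conv_rhs => rw [← Int.toNat_of_nonneg h1]
  rw [zpow_natCast]

theorem t0_cycle (hS : Swap D t0) (i j : Fin n) (h : D.ρ.SameCycle i j) : t0 i = t0 j := by
  obtain ⟨l, -, hl⟩ := Z3_cyc i j h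
  rw [← hl]
  clear hl
  induction l with
  | zero => rfl
  | succ l ih => rw [pow_succ', Equiv.Perm.mul_apply, hS.rho, ih]

theorem JJ_refl (i : Fin n) : JJ D t0 i i := Or.inl (Equiv.Perm.SameCycle.refl _ _)

theorem JJ_symm (hS : Swap D t0) (i j : Fin n) (h : JJ D t0 i j) : JJ D t0 j i := by
  rcases h with h | h
  · exact Or.inl h.symm
  · right
    have h1 := t0_cycle hS _ _ h
    rw [← h1]
    exact (hS.inv i).symm

theorem JJ_trans (hS : Swap D t0) (i j l : Fin n) (h : JJ D t0 i j) (h' : JJ D t0 j l) :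
    JJ D t0 i l := by
  rcases h with h | h <;> rcases h' with h' | h'
  · exact Or.inl (h.trans h')
  · right
    rw [t0_cycle hS _ _ h]
    exact h'
  · exact Or.inr (h.trans h')
  · left
    have h1 := t0_cycle hS _ _ h
    rw [← h1] at h'
    exact (hS.inv i).trans h'

theorem JJ_t0 (hS : Swap D t0) (i j : Fin n) : JJ D t0 i (t0 j) ↔ JJ D t0 i j := by
  have h1 : JJ D t0 j (t0 j) := Or.inr (Equiv.Perm.SameCycle.refl _ _)
  exact ⟨fun h => JJ_trans hS _ _ _ h (JJ_symm hS _ _ h1), fun h => JJ_trans hS _ _ _ h h1⟩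

theorem JJ_rho (i j : Fin n) : JJ D t0 i (D.ρ j) ↔ JJ D t0 i j := by
  unfold JJ
  rw [Equiv.Perm.sameCycle_apply_right, Equiv.Perm.sameCycle_apply_right]

private theorem Z3_supp_r (i : Fin n) (β : C.Root) :
    suppJ D t0 i (D.r β) ↔ suppJ D t0 i β := by
  constructor
  · intro h j hj
    rw [← D.r_val β j] at hj
    exact (JJ_rho i j).mp (h _ hj)
  · intro h j hj
    obtain ⟨j', rfl⟩ := D.ρ.surjective j
    rw [D.r_val β j'] at hj
    exact (JJ_rho i j').mpr (h _ hj)

theorem suppJ_cycle (i : Fin n) (β γ : C.Root) (h : D.rE.SameCycle β γ) :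
    suppJ D t0 i β ↔ suppJ D t0 i γ := by
  obtain ⟨l, -, rfl⟩ := (D.sameCycle_iff β γ).mp h
  clear h
  induction l with
  | zero => exact Iff.rfl
  | succ l ih => rw [Function.iterate_succ_apply', Z3_supp_r, ih]

theorem pos_cycle (β γ : C.Root) (h : D.rE.SameCycle β γ) : C.Pos β ↔ C.Pos γ :=
  D.sameCycle_pos β γ h

theorem fix_cycle (β γ : C.Root) (h : D.rE.SameCycle β γ) : D.r β = β ↔ D.r γ = γ := by
  obtain ⟨l, -, rfl⟩ := (D.sameCycle_iff β γ).mp h
  clear h
  induction l with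
  | zero => exact Iff.rfl
  | succ l ih =>
    rw [Function.iterate_succ_apply', ih]
    exact ⟨fun h => by rw [h, h], fun h => D.r_injective h⟩

theorem tau_fix (hS : Swap D t0) (h : IsTau D t0 τ) (β : C.Root) :
    D.r (τ β) = τ β ↔ D.r β ≠ β :=
  ⟨fun h1 h2 => (h.long β h2).1 h1, fun h1 => (h.short β h1).1⟩

private theorem Z3_inv_val (v : Fin n → ℤ) (hv : SLC.lmap D.ρ v = v) (i j : Fin n)
    (h : D.ρ.SameCycle i j) : v i = v j := by
  obtain ⟨l, -, rfl⟩ := Z3_cyc i j h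
  clear h
  induction l with
  | zero => rfl
  | succ l ih =>
    rw [ih, pow_succ', Equiv.Perm.mul_apply]
    have h1 := congrFun hv (D.ρ ((D.ρ ^ l) i))
    unfold SLC.lmap at h1
    rw [Equiv.symm_apply_apply] at h1
    exact h1

private theorem Z3_c_pos (j : Fin n) : 0 < (if D.ρ j = j then (D.m : ℤ) else 1) := by
  have := Z3_m_pos (D := D)
  split_ifs <;> omega

private theorem Z3_TT_nn (hS : Swap D t0) (v : Fin n → ℤ) (hv : SLC.lmap D.ρ v = v) :
    (∀ j, 0 ≤ TT D t0 v j) ↔ ∀ j, 0 ≤ v j := by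
  constructor
  · intro h j
    have h1 := h (t0 j)
    unfold TT at h1
    have h2 := nonneg_of_mul_nonneg_right h1 (Z3_c_pos _)
    rwa [Z3_inv_val v hv j _ (hS.inv j)]
  · intro h j
    unfold TT
    exact mul_nonneg (Z3_c_pos _).le (h _)

private theorem Z3_ht_nn (v : Fin n → ℤ) (h : ∀ j, 0 ≤ v j) : 0 ≤ ht v :=
  Finset.sum_nonneg fun i _ => h i

private theorem Z3_pos_iter (β : C.Root) (l : ℕ) : C.Pos (D.r^[l] β) ↔ C.Pos β := by
  unfold SLC.Pos
  rw [Z3_ht_iter]

private theorem Z3_pos_osum (β : C.Root) : C.Pos β ↔ ∀ j, 0 ≤ osum D β j := by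
  constructor
  · intro h j
    unfold osum
    rw [Finset.sum_apply]
    exact Finset.sum_nonneg fun l _ => (C.pos_iff _).mp ((Z3_pos_iter β l).mpr h) j
  · intro h
    have h1 := Z3_ht_nn _ h
    rw [Z3_ht_osum] at h1
    have h2 := Z3_mo_pos (D := D) β
    have h3 := nonneg_of_mul_nonneg_right h1 (by exact_mod_cast h2)
    have h4 := C.ht_ne_zero β
    unfold SLC.Pos
    omega

private theorem Z3_inv_fix (β : C.Root) (h : D.r β = β) : SLC.lmap D.ρ β.1 = β.1 :=
  congrArg SLC.Root.val h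

private theorem Z3_osum_fix (β : C.Root) (h : D.r β = β) : osum D β = β.1 := by
  unfold osum mo
  rw [if_pos h, Finset.sum_range_one]
  rfl

theorem tau_pos (hS : Swap D t0) (h : IsTau D t0 τ) (β : C.Root) :
    C.Pos (τ β) ↔ C.Pos β := by
  by_cases hβ : D.r β = β
  · rw [Z3_pos_osum (D := D) (τ β), (h.long β hβ).2, Z3_TT_nn hS _ (Z3_inv_fix β hβ), C.pos_iff β]
  · have h1 := (h.short β hβ).2
    rw [Z3_pos_osum (D := D) β, ← Z3_TT_nn hS _ (osum_inv β), ← h1, C.pos_iff]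
    have hm : 0 < (D.m : ℤ) := by exact_mod_cast Z3_m_pos (D := D)
    constructor
    · intro h2 j
      rw [Pi.smul_apply, smul_eq_mul]
      exact mul_nonneg hm.le (h2 j)
    · intro h2 j
      have h3 := h2 j
      rw [Pi.smul_apply, smul_eq_mul] at h3
      exact nonneg_of_mul_nonneg_right h3 hm

private theorem Z3_smul_inj (v w : Fin n → ℤ) (h : (D.m : ℤ) • v = (D.m : ℤ) • w) : v = w := by
  have hm : (D.m : ℤ) ≠ 0 := by
    have := Z3_m_pos (D := D)
    omega
  funext j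
  have h1 := congrFun h j
  rw [Pi.smul_apply, Pi.smul_apply, smul_eq_mul, smul_eq_mul] at h1
  exact mul_left_cancel₀ hm h1

private theorem Z3_long (h : IsTau D t0 τ) (β : C.Root) (hβ : D.r β = β) :
    osum D (τ β) = TT D t0 (osum D β) := by
  rw [Z3_osum_fix β hβ]
  exact (h.long β hβ).2

theorem tau_cycle (hS : Swap D t0) (h : IsTau D t0 τ) (β γ : C.Root)
    (hc : D.rE.SameCycle β γ) : D.rE.SameCycle (τ β) (τ γ) := by
  have ho := osum_cycle β γ hc
  have hf := fix_cycle β γ hc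
  by_cases hβ : D.r β = β
  · apply osum_inj hS.na
    rw [Z3_long h β hβ, Z3_long h γ (hf.mp hβ), ho]
  · have hγ : D.r γ ≠ γ := fun h1 => hβ (hf.mpr h1)
    have h1 := (h.short β hβ).2
    rw [ho, ← (h.short γ hγ).2] at h1
    have h2 : τ β = τ γ := SLC.Root.ext (Z3_smul_inj (D := D) _ _ h1)
    rw [h2]

private theorem Z3_TT_TT (hS : Swap D t0) (v : Fin n → ℤ) (hv : SLC.lmap D.ρ v = v) :
    TT D t0 (TT D t0 v) = (D.m : ℤ) • v := by
  funext j
  rw [Pi.smul_apply, smul_eq_mul]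
  change (if D.ρ j = j then (D.m : ℤ) else 1) *
    ((if D.ρ (t0 j) = t0 j then (D.m : ℤ) else 1) * v (t0 (t0 j))) = _
  rw [← Z3_inv_val v hv j _ (hS.inv j)]
  by_cases hj : D.ρ j = j
  · rw [if_pos hj, if_neg (fun h1 => (hS.fix_iff j).mp h1 hj), one_mul]
  · rw [if_neg hj, if_pos ((hS.fix_iff j).mpr hj), one_mul]

private theorem Z3_TT_smul (a : ℤ) (v : Fin n → ℤ) : TT D t0 (a • v) = a • TT D t0 v := by
  funext j
  unfold TT
  simp only [Pi.smul_apply, smul_eq_mul]
  ring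

private theorem Z3_TT_neg (v : Fin n → ℤ) : TT D t0 (-v) = - TT D t0 v := by
  funext j
  unfold TT
  simp only [Pi.neg_apply, mul_neg]

theorem tau_tau (hS : Swap D t0) (h : IsTau D t0 τ) (β : C.Root) :
    D.rE.SameCycle (τ (τ β)) β := by
  by_cases hβ : D.r β = β
  · have h1 := h.long β hβ
    have h2 := (h.short (τ β) h1.1).2
    rw [h1.2, Z3_TT_TT hS _ (Z3_inv_fix β hβ)] at h2
    have h3 : τ (τ β) = β := SLC.Root.ext (Z3_smul_inj (D := D) _ _ h2)
    rw [h3]
  · have h1 := h.short β hβ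
    have h2 := (h.long (τ β) h1.1).2
    apply osum_inj hS.na
    apply Z3_smul_inj (D := D)
    rw [h2, ← Z3_TT_smul, h1.2, Z3_TT_TT hS _ (osum_inv β)]

theorem tau_simple (hS : Swap D t0) (h : IsTau D t0 τ) (j : Fin n) :
    D.rE.SameCycle (τ (C.simple j)) (C.simple (t0 j)) := by
  have h0 := TT_simple (C := C) hS j
  by_cases hj : D.ρ j = j
  · have h1 : D.r (C.simple j) = C.simple j := by rw [D.r_simple, hj]
    apply osum_inj hS.na
    rw [(h.long _ h1).2, h0.1 hj]
  · have h1 : D.r (C.simple j) ≠ C.simple j := by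
      rw [D.r_simple]
      exact fun h2 => hj (C.simple_injective h2)
    have h2 := (h.short _ h1).2
    rw [h0.2 hj] at h2
    have h3 : τ (C.simple j) = C.simple (t0 j) := SLC.Root.ext (Z3_smul_inj (D := D) _ _ h2)
    rw [h3]

private theorem Z3_iter_neg (l : ℕ) (β : C.Root) : D.r^[l] (-β) = -(D.r^[l] β) := by
  induction l with
  | zero => rfl
  | succ l ih => rw [Function.iterate_succ_apply', ih, D.r_neg, Function.iterate_succ_apply']

private theorem Z3_fix_neg (β : C.Root) : D.r (-β) = -β ↔ D.r β = β := by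
  rw [D.r_neg]
  constructor
  · intro h
    apply SLC.Root.ext
    have h1 := congrArg SLC.Root.val h
    simpa using h1
  · intro h
    rw [h]

private theorem Z3_osum_neg (β : C.Root) : osum D (-β) = - osum D β := by
  have hmo : mo D (-β) = mo D β := by
    unfold mo
    by_cases h : D.r β = β
    · rw [if_pos h, if_pos ((Z3_fix_neg β).mpr h)]
    · rw [if_neg h, if_neg (fun h1 => h ((Z3_fix_neg β).mp h1))]
  unfold osum
  rw [hmo, ← Finset.sum_neg_distrib]
  exact Finset.sum_congr rfl fun l _ => by rw [Z3_iter_neg, SLC.Root.neg_val]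

theorem tau_neg (hS : Swap D t0) (h : IsTau D t0 τ) (β : C.Root) :
    D.rE.SameCycle (τ (-β)) (-(τ β)) := by
  by_cases hβ : D.r β = β
  · apply osum_inj hS.na
    rw [Z3_long h _ ((Z3_fix_neg β).mpr hβ), Z3_osum_neg, Z3_osum_neg, Z3_TT_neg,
      Z3_long h β hβ]
  · have hβ' : D.r (-β) ≠ -β := fun h1 => hβ ((Z3_fix_neg β).mp h1)
    have h1 := (h.short (-β) hβ').2
    rw [Z3_osum_neg, Z3_TT_neg, ← (h.short β hβ).2, ← smul_neg] at h1
    have h3 : τ (-β) = -(τ β) := SLC.Root.ext (Z3_smul_inj (D := D) _ _ h1)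
    rw [h3]

private theorem Z3_osum_ne (β : C.Root) (j : Fin n) (hj : β.1 j ≠ 0) : osum D β j ≠ 0 := by
  have key : ∀ γ : C.Root, C.Pos γ → γ.1 j ≠ 0 → osum D γ j ≠ 0 := by
    intro γ hγ hj
    unfold osum
    rw [Finset.sum_apply]
    have h0 : ∀ l ∈ Finset.range (mo D γ), 0 ≤ (D.r^[l] γ).1 j := fun l _ =>
      (C.pos_iff _).mp ((Z3_pos_iter γ l).mpr hγ) j
    have h1 := Finset.single_le_sum h0 (Finset.mem_range.mpr (Z3_mo_pos (D := D) γ))
    rw [Function.iterate_zero_apply] at h1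
    have h2 := (C.pos_iff γ).mp hγ j
    omega
  by_cases hp : C.Pos β
  · exact key β hp hj
  · have h1 := key (-β) ((C.not_pos_iff β).mp hp) (by
      rw [SLC.Root.neg_val, Pi.neg_apply]
      omega)
    rw [Z3_osum_neg, Pi.neg_apply] at h1
    omega

private theorem Z3_supp_osum (i : Fin n) (β : C.Root) :
    suppJ D t0 i β ↔ ∀ j, osum D β j ≠ 0 → JJ D t0 i j := by
  constructor
  · intro h j hj
    unfold osum at hj
    rw [Finset.sum_apply] at hj
    obtain ⟨l, -, hl⟩ := Finset.exists_ne_zero_of_sum_ne_zero hj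
    have h1 : suppJ D t0 i (D.r^[l] β) := by
      clear hj hl
      induction l with
      | zero => exact h
      | succ l ih => rw [Function.iterate_succ_apply', Z3_supp_r]; exact ih
    exact h1 j hl
  · intro h j hj
    exact h j (Z3_osum_ne β j hj)

private theorem Z3_supp_TT (hS : Swap D t0) (i : Fin n) (v : Fin n → ℤ)
    (hv : SLC.lmap D.ρ v = v) :
    (∀ j, TT D t0 v j ≠ 0 → JJ D t0 i j) ↔ ∀ j, v j ≠ 0 → JJ D t0 i j := by
  constructor
  · intro h j hj
    rw [Z3_inv_val v hv j _ (hS.inv j)] at hj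
    exact (JJ_t0 hS i j).mp (h (t0 j) (mul_ne_zero (Z3_c_pos _).ne' hj))
  · intro h j hj
    exact (JJ_t0 hS i j).mp (h (t0 j) (right_ne_zero_of_mul hj))

theorem tau_supp (hS : Swap D t0) (h : IsTau D t0 τ) (i : Fin n) (β : C.Root) :
    suppJ D t0 i (τ β) ↔ suppJ D t0 i β := by
  by_cases hβ : D.r β = β
  · rw [Z3_supp_osum i (τ β), (h.long β hβ).2, Z3_supp_TT hS i _ (Z3_inv_fix β hβ)]
    rfl
  · rw [Z3_supp_osum i β, ← Z3_supp_TT hS i _ (osum_inv β), ← (h.short β hβ).2]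
    have hm : (D.m : ℤ) ≠ 0 := by
      have := Z3_m_pos (D := D)
      omega
    unfold suppJ
    constructor
    · intro h1 j hj
      rw [Pi.smul_apply, smul_eq_mul] at hj
      exact h1 j (right_ne_zero_of_mul hj)
    · intro h1 j hj
      apply h1 j
      rw [Pi.smul_apply, smul_eq_mul]
      exact mul_ne_zero hm hj

/-- `th` -/
theorem th_add {k : Type*} [Field k] (θ : k ≃+* k) (β : C.Root) (s t : k) :
    th D θ β (s + t) = th D θ β s + th D θ β t := by
  unfold th
  split_ifs <;> simp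

theorem th_mul {k : Type*} [Field k] (θ : k ≃+* k) (β : C.Root) (s t : k) :
    th D θ β (s * t) = th D θ β s * th D θ β t := by
  unfold th
  split_ifs <;> simp

theorem th_int {k : Type*} [Field k] (θ : k ≃+* k) (β : C.Root) (e : ℤ) (t : k) :
    th D θ β ((e : k) * t) = (e : k) * th D θ β t := by
  unfold th
  split_ifs <;> simp

theorem th_th (hS : Swap D t0) (h : IsTau D t0 τ) {k : Type*} [Field k] (θ : k ≃+* k)
    (β : C.Root) (t : k) : th D θ (τ β) (th D θ β t) = t := by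
  by_cases hβ : D.r β = β
  · unfold th
    rw [if_pos hβ, if_neg (h.long β hβ).1, RingEquiv.apply_symm_apply]
  · unfold th
    rw [if_neg hβ, if_pos (h.short β hβ).1, RingEquiv.symm_apply_apply]

theorem th_one {k : Type*} [Field k] (θ : k ≃+* k) (β : C.Root) : th D θ β (1 : k) = 1 := by
  unfold th
  split_ifs <;> simp

theorem th_cycle {k : Type*} [Field k] (θ : k ≃+* k) (β γ : C.Root)
    (h : D.rE.SameCycle β γ) (t : k) : th D θ β t = th D θ γ t := by
  have hf := fix_cycle β γ h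
  unfold th
  by_cases hβ : D.r β = β
  · rw [if_pos hβ, if_pos (hf.mp hβ)]
  · rw [if_neg hβ, if_neg (fun h1 => hβ (hf.mpr h1))]

end Pool.Agent.H86.UM
end

section
/- module Pool.Agent.H86.UM.Z5 -/
/-!
# Project UM, Suzuki-Ree groups, module Z5: `σ` and the subgroups of the folded group

`obtain ⟨τ, e, ht⟩ := exists_tau hS h`. `sig_sig`: on the generators (`GF_gen`; `th_th` for simple roots: directly
from `h.pos`, `h.neg`, `inv`, `yg_cycle_simple`). `sig_FU`, `sig_FUm`: `FU_eq`, `FUm_eq`, `tau_pos`.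
`sig_B_split`: `upper` (`g = t u`), apply `s`: `t⁻¹ s(t) = u s(u)⁻¹ ∈ T ∩ U = 1` (`S9_T_one`), so `u ∈ fixU`.
`sig_FT`: `x ∈ FT` normalises `FU`, `FUm` (`T_conj_U`), so `σ x` normalises `σ FU = FU` (`sig_sig`), `FUm`;
`upper_of_fix` with `Γ = FU` (nonvanishing: `xi_yg`) gives `Fil 0 (σ x)`; conjugating with `omG` (OM.lean; `omG`
exchanges `U`, `Um`) and `lower_of_fix`, `T_of_both`: `σ x ∈ T`.
`sig_chi`: `yg_T` and `σ`, `yg_inj`. `exists_FN`: `Wr_induct` with the elements `nJ` : each `w ∈ W` commuting with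
`rE` is induced by an element `ν₀` of the subgroup generated by the `nJ`; `sig_FN`: `ν = ν₀ t`, `t ∈ FT`
(`N_one`), `σ (nJ j) = nJ (t0 j)`; for the last statement of `sig_FN`: conjugate `yg β t` and apply `σ`
(`yg_acts`, `ht.map`, `yg_inj`). `sig_xi`: `FU_eq`, `xi_mul`, `xi_yg`. `sig_FR`: generators; `yg_cycle`.
`FN_rE`: `ν ∈ FN` is fixed by `s`, so its `w` commutes with `rE` (`IsSig.acts`, uniqueness of `w`: `xg_inj`).
-/

set_option autoImplicit false
open Matrix

namespace Pool.Agent.H86.UM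

open Pool.Agent.H75.UL

variable {n : ℕ} {C : SLC n} {D : Dg C} {t0 : Fin n → Fin n}

private theorem Z5_unique {k : Type*} [Field k] (ν : GL C.Idx k) (w w' : Equiv.Perm C.Root)
    (h : (C.adS k).Acts ν w) (h' : (C.adS k).Acts ν w') : w = w' := by
  obtain ⟨c, hc, h1⟩ := h
  obtain ⟨c', hc', h1'⟩ := h'
  ext β
  have h2 : C.xg k (w β) (c β * 1) = C.xg k (w' β) (c' β * 1) := (h1 β 1).symm.trans (h1' β 1)
  rw [(C.xg_inj _ _ _ _ (mul_ne_zero (hc β) one_ne_zero) h2).1]

private theorem Z5_fix_conj {H : Type*} [Group H] (s : H →* H) (h x : H) (h1 : s h = h)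
    (h2 : s x = x) : s (h * x * h⁻¹) = h * x * h⁻¹ := by
  rw [map_mul, map_mul, map_inv, h1, h2]

private theorem Z5_conj_FU (hN : D.NA) {k : Type*} [Field k] [Infinite k] (t : GF D k)
    (ht : (t : GL C.Idx k) ∈ (C.adS k).T) (u : GF D k) (hu : u ∈ FU D k) :
    t * u * t⁻¹ ∈ FU D k :=
  ⟨(C.adS k).T_conj_U 1 _ _ ht hu.1, Z5_fix_conj _ _ _ (mem_GF_fix hN _ t.2).1
    (mem_GF_fix hN _ u.2).1⟩

private theorem Z5_T_Um {k : Type*} [Field k] (τ u : GL C.Idx k) (hτ : τ ∈ (C.adS k).T)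
    (hu : u ∈ (C.adS k).Um) : τ * u * τ⁻¹ ∈ (C.adS k).Um := by
  obtain ⟨c, hc, -, h1⟩ := (C.adS k).T_acts' τ hτ
  unfold StSys.Um at hu
  induction hu using Subgroup.closure_induction with
  | mem g hg =>
    obtain ⟨β, t, hβ, rfl⟩ := hg
    rw [h1]
    exact Subgroup.subset_closure ⟨β, _, hβ, rfl⟩
  | one =>
    rw [mul_one, mul_inv_cancel]
    exact one_mem _
  | mul a b _ _ ha hb =>
    have e : τ * (a * b) * τ⁻¹ = τ * a * τ⁻¹ * (τ * b * τ⁻¹) := by group
    rw [e]
    exact mul_mem ha hb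
  | inv a _ ha =>
    have e : τ * a⁻¹ * τ⁻¹ = (τ * a * τ⁻¹)⁻¹ := by group
    rw [e]
    exact inv_mem ha

private theorem Z5_conj_FUm (hN : D.NA) {k : Type*} [Field k] [Infinite k] (t : GF D k)
    (ht : (t : GL C.Idx k) ∈ (C.adS k).T) (u : GF D k) (hu : u ∈ FUm D k) :
    t * u * t⁻¹ ∈ FUm D k :=
  ⟨Z5_T_Um _ _ ht hu.1, Z5_fix_conj _ _ _ (mem_GF_fix hN _ t.2).1
    (mem_GF_fix hN _ u.2).1⟩

section
variable (hN : D.NA) {k : Type*} [Field k] [Infinite k]

include hN in
/-- the elements of `FN` act by elements of `W` commuting with `rE` -/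
theorem FN_acts (ν : GF D k) (hν : ν ∈ FN D k) : ∃ w ∈ C.W, D.rE * w * D.rE⁻¹ = w ∧
    (C.adS k).Acts (ν : GL C.Idx k) w := by
  obtain ⟨w, hw, hact, -⟩ := (C.adS k).N_acts (ν : GL C.Idx k) hν
  refine ⟨w, hw, ?_, hact⟩
  have h1 := (isSig_adS D (RingEquiv.refl k)).acts _ w hact
  rw [(mem_GF_fix hN _ ν.2).1] at h1
  exact Z5_unique _ _ _ h1 hact

include hN in
/-- uniqueness of the action -/
theorem FN_unique (ν : GL C.Idx k) (w w' : Equiv.Perm C.Root) (h : (C.adS k).Acts ν w)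
    (h' : (C.adS k).Acts ν w') : w = w' := by
  exact Z5_unique _ _ _ h h'

include hN in
theorem FN_T (ν ν' : GF D k) (hν : ν ∈ FN D k) (hν' : ν' ∈ FN D k) (w : Equiv.Perm C.Root)
    (h : (C.adS k).Acts (ν : GL C.Idx k) w) (h' : (C.adS k).Acts (ν' : GL C.Idx k) w) :
    ν⁻¹ * ν' ∈ FT D k := by
  have h1 := C.Acts_mul (C.adS k) _ _ _ _ (C.Acts_inv (C.adS k) _ _ h) h'
  rw [inv_mul_cancel] at h1
  exact C.N_one _ h1 (mul_mem (inv_mem hν) hν')

include hN in
/-- every element of `W` commuting with `rE` is induced by a product of elements `nJ` -/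
theorem exists_FN (w : Equiv.Perm C.Root) (hw : w ∈ C.W) (hr : D.rE * w * D.rE⁻¹ = w) :
    ∃ ν ∈ Subgroup.closure (Set.range fun j => nJ hN k j), ν ∈ FN D k ∧
      (C.adS k).Acts (ν : GL C.Idx k) w := by
  refine D.Wr_induct (fun w => ∃ ν ∈ Subgroup.closure (Set.range fun j => nJ hN k j), ν ∈ FN D k ∧
      (C.adS k).Acts (ν : GL C.Idx k) w) ?_ ?_ w hw hr
  · refine ⟨1, one_mem _, one_mem _, fun _ => 1, fun _ => one_ne_zero, fun β u => ?_⟩
    rw [one_mul, Equiv.Perm.one_apply, Subgroup.coe_one, one_mul, inv_one, mul_one]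
  · rintro w i - ⟨ν, h1, h2, h3⟩
    refine ⟨ν * nJ hN k i, mul_mem h1 (Subgroup.subset_closure ⟨i, rfl⟩),
      mul_mem h2 (nJ_mem hN i).1, ?_⟩
    rw [Subgroup.coe_mul]
    exact C.Acts_mul (C.adS k) _ _ _ _ h3 (nJ_mem hN i).2

include hN in
/-- the elements of the Borel subgroup -/
theorem B_split (b : GF D k) (hb : C.Fil 0 ((b : GL C.Idx k) : Matrix C.Idx C.Idx k)) :
    (∃ t ∈ FT D k, ∃ u ∈ FU D k, b = t * u) ∧ ∃ t ∈ FT D k, ∃ u ∈ FU D k, b = u * t := by
  obtain ⟨h1, h2⟩ := mem_GF_fix hN _ b.2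
  obtain ⟨τ, hτ, u, hu, hb'⟩ := C.upper _ h2 hb
  have hs := isSig_adS D (RingEquiv.refl k) (C := C)
  have hsτ := hs.map_T τ hτ
  have hsu := hs.map_U 1 u hu
  have e1 : D.sgl (RingEquiv.refl k) τ * D.sgl (RingEquiv.refl k) u = τ * u := by
    rw [← map_mul, ← hb', h1]
  have e2 : τ⁻¹ * D.sgl (RingEquiv.refl k) τ = u * (D.sgl (RingEquiv.refl k) u)⁻¹ := by
    rw [inv_mul_eq_iff_eq_mul, ← mul_assoc, ← e1, mul_inv_cancel_right]
  have e3 : τ⁻¹ * D.sgl (RingEquiv.refl k) τ = 1 :=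
    C.S9_T_one _ (mul_mem (inv_mem hτ) hsτ) (e2 ▸ mul_mem hu (inv_mem hsu))
  have e4 : D.sgl (RingEquiv.refl k) u = u := by
    rw [e3] at e2
    exact (mul_inv_eq_one.1 e2.symm).symm
  have hfu : u ∈ fixU (C.adS k) (D.sgl (RingEquiv.refl k)) := ⟨hu, e4⟩
  have huG : u ∈ GF D k := (le_sup_left : fixU _ _ ≤ _) hfu
  have hτG : τ ∈ GF D k := by
    have e5 : τ = (b : GL C.Idx k) * u⁻¹ := by rw [hb', mul_inv_cancel_right]
    rw [e5]
    exact mul_mem b.2 (inv_mem huG)
  have e6 : b = (⟨τ, hτG⟩ : GF D k) * ⟨u, huG⟩ := Subtype.ext hb'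
  refine ⟨⟨⟨τ, hτG⟩, hτ, ⟨u, huG⟩, hfu, e6⟩, ⟨τ, hτG⟩, hτ,
    (⟨τ, hτG⟩ : GF D k) * ⟨u, huG⟩ * (⟨τ, hτG⟩ : GF D k)⁻¹, ?_, ?_⟩
  · exact Z5_conj_FU hN _ hτ _ hfu
  · rw [inv_mul_cancel_right]
    exact e6

include hN in
theorem FT_FU (x : GF D k) (h : x ∈ FT D k) (h' : x ∈ FU D k) : x = 1 := by
  exact Subtype.ext (C.S9_T_one _ h h'.1)

include hN in
/-- the Borel subgroup meets `U⁻` trivially -/
theorem B_FUm (x : GF D k) (h : C.Fil 0 ((x : GL C.Idx k) : Matrix C.Idx C.Idx k))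
    (h' : x ∈ FUm D k) : x = 1 := by
  have h1 : omG C k * (x : GL C.Idx k) * (omG C k)⁻¹ ∈ (C.adS k).U 1 :=
    (omG_U C _).2 h'.1
  have h2 := T_of_both C _ (mem_GF_fix hN _ x.2).2 h (C.Fil_U_zero _ h1)
  have h3 := C.S9_T_one _ ((omG_T C _).2 h2) h1
  apply Subtype.ext
  rw [mul_inv_eq_one] at h3
  exact mul_eq_left.1 h3

include hN in
theorem FU_Fil (x : GF D k) (h : x ∈ FU D k) :
    C.Fil 0 ((x : GL C.Idx k) : Matrix C.Idx C.Idx k) := by
  exact C.Fil_U_zero _ h.1

include hN in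
theorem FT_conj (t : GF D k) (ht : t ∈ FT D k) : (∀ u ∈ FU D k, t * u * t⁻¹ ∈ FU D k) ∧
    (∀ u ∈ FUm D k, t * u * t⁻¹ ∈ FUm D k) ∧ ∀ ν ∈ FN D k, ν * t * ν⁻¹ ∈ FT D k := by
  refine ⟨fun u hu => Z5_conj_FU hN t ht u hu, fun u hu => Z5_conj_FUm hN t ht u hu,
    fun ν hν => (C.adS k).N_conj_T _ _ hν ht⟩

end

private theorem Z5_conj_prod {H : Type*} [Group H] (g : H) (l : List ℕ) (f : ℕ → H) :
    g * (l.map f).prod * g⁻¹ = (l.map fun i => g * f i * g⁻¹).prod := by
  induction l with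
  | nil => rw [List.map_nil, List.map_nil, List.prod_nil, mul_one, mul_inv_cancel]
  | cons a l ih =>
    rw [List.map_cons, List.map_cons, List.prod_cons, List.prod_cons, ← ih]
    group

private theorem Z5_iter_neg (D : Dg C) (l : ℕ) (β : C.Root) : D.r^[l] (-β) = -(D.r^[l] β) := by
  induction l with
  | zero => rfl
  | succ l ih => rw [Function.iterate_succ_apply', Function.iterate_succ_apply', ih, D.r_neg]

private theorem Z5_om_yb (D : Dg C) {k : Type*} [Field k] (β : C.Root) (t : k) :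
    omG C k * yb D (C.adS k) (D.sgl (RingEquiv.refl k)) (-β) t * (omG C k)⁻¹ =
      yb D (C.adS k) (D.sgl (RingEquiv.refl k)) β t := by
  have hmo : mo D (-β) = mo D β := by
    unfold mo
    have h1 : D.r (-β) = -β ↔ D.r β = β := by
      rw [D.r_neg]
      constructor
      · intro h
        have h2 := congrArg (fun γ : C.Root => -γ) h
        change - -(D.r β) = - -β at h2
        rwa [C.neg_neg_root, C.neg_neg_root] at h2
      · intro h
        rw [h]
    by_cases h : D.r β = β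
    · rw [if_pos (h1.2 h), if_pos h]
    · rw [if_neg (fun h' => h (h1.1 h')), if_neg h]
  unfold yb
  rw [hmo, Z5_conj_prod]
  congr 1
  apply List.map_congr_left
  intro l _
  have hs := isSig_adS D (RingEquiv.refl k) (C := C)
  rw [hs.iter, hs.iter, Z5_iter_neg]
  have hsg : D.sgp l (-β) = D.sgp l β := by
    unfold Dg.sgp
    refine Finset.prod_congr rfl fun j _ => ?_
    rw [Z5_iter_neg, D.sg_neg]
  rw [hsg]
  change omG C k * C.xg k _ _ * (omG C k)⁻¹ = C.xg k _ _
  rw [omG_xg, C.neg_neg_root]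

private theorem Z5_om (hN : D.NA) {k : Type*} [Field k] (j : Fin n) (t : k) :
    omG C k * ((yg hN (-(C.simple j)) t : GF D k) : GL C.Idx k) * (omG C k)⁻¹ =
      ((yg hN (C.simple j) t : GF D k) : GL C.Idx k) := Z5_om_yb D _ t

private theorem Z5_simple (D : Dg C) (a : Fin n) (γ : C.Root)
    (h : D.rE.SameCycle (C.simple a) γ) : ∃ b, γ = C.simple b ∧ D.ρ.SameCycle a b := by
  obtain ⟨l, -, h1⟩ := (D.sameCycle_iff _ _).1 h
  rw [D.r_iter_simple] at h1
  exact ⟨_, h1, (l : ℤ), by rw [zpow_natCast]⟩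

private theorem Z5_e {k : Type*} [Field k] (e : ℤ) (h : e = 1 ∨ e = -1) : (e : k) ≠ 0 := by
  rcases h with rfl | rfl
  · rw [Int.cast_one]
    exact one_ne_zero
  · rw [Int.cast_neg, Int.cast_one]
    exact neg_ne_zero.2 one_ne_zero

private theorem Z5_FU (hS : Swap D t0) {k : Type*} [Field k] [Infinite k] {θ : k ≃+* k}
    {σ : GF D k →* GF D k} {τ : C.Root → C.Root} {e : C.Root → ℤ} (ht : SRt hS.na t0 θ σ τ e)
    (x : GF D k) (hx : x ∈ FU D k) : σ x ∈ FU D k := by
  rw [FU_eq hS.na] at hx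
  induction hx using Subgroup.closure_induction with
  | mem g hg =>
    obtain ⟨β, hβ, t, rfl⟩ := hg
    rw [ht.map]
    exact yg_pos hS.na _ ((tau_pos hS ht.tau β).2 hβ) _
  | one =>
    rw [map_one]
    exact one_mem _
  | mul a b _ _ ha hb =>
    rw [map_mul]
    exact mul_mem ha hb
  | inv a _ ha =>
    rw [map_inv]
    exact inv_mem ha

private theorem Z5_FUm (hS : Swap D t0) {k : Type*} [Field k] [Infinite k] {θ : k ≃+* k}
    {σ : GF D k →* GF D k} {τ : C.Root → C.Root} {e : C.Root → ℤ} (ht : SRt hS.na t0 θ σ τ e)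
    (x : GF D k) (hx : x ∈ FUm D k) : σ x ∈ FUm D k := by
  rw [FUm_eq hS.na] at hx
  induction hx using Subgroup.closure_induction with
  | mem g hg =>
    obtain ⟨β, hβ, t, rfl⟩ := hg
    rw [ht.map]
    exact yg_npos hS.na _ (fun h' => hβ ((tau_pos hS ht.tau β).1 h')) _
  | one =>
    rw [map_one]
    exact one_mem _
  | mul a b _ _ ha hb =>
    rw [map_mul]
    exact mul_mem ha hb
  | inv a _ ha =>
    rw [map_inv]
    exact inv_mem ha

private theorem Z5_chi (hN : D.NA) {k : Type*} [Field k] [Infinite k] (y : GF D k)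
    (hy : y ∈ FT D k) (β γ : C.Root) (h : D.rE.SameCycle β γ) :
    C.chi ((y : GL C.Idx k) : Matrix C.Idx C.Idx k) γ =
      C.chi ((y : GL C.Idx k) : Matrix C.Idx C.Idx k) β := by
  have h1 : ∀ δ, C.chi ((y : GL C.Idx k) : Matrix C.Idx C.Idx k) (D.r δ) =
      C.chi ((y : GL C.Idx k) : Matrix C.Idx C.Idx k) δ := fun δ =>
    SR_chi (env_ad D hN k) (y : GL C.Idx k) hy (mem_GF_fix hN _ y.2).1 δ
  obtain ⟨l, -, rfl⟩ := (D.sameCycle_iff _ _).1 h
  clear h
  induction l with
  | zero => rfl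
  | succ l ih => rw [Function.iterate_succ_apply', h1, ih]

private theorem Z5_xi_mul (j : Fin n) {k : Type*} [Field k] (a b : GF D k)
    (ha : a ∈ FU D k) (hb : b ∈ FU D k) :
    C.xi j (((a * b : GF D k) : GL C.Idx k) : Matrix C.Idx C.Idx k) =
      C.xi j ((a : GL C.Idx k) : Matrix C.Idx C.Idx k) +
        C.xi j ((b : GL C.Idx k) : Matrix C.Idx C.Idx k) := by
  rw [Subgroup.coe_mul]
  exact C.xi_mul j _ _ ha.1 hb.1

private theorem Z5_xi_inv (j : Fin n) {k : Type*} [Field k] (a : GF D k)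
    (ha : a ∈ FU D k) :
    C.xi j (((a⁻¹ : GF D k) : GL C.Idx k) : Matrix C.Idx C.Idx k) =
      -C.xi j ((a : GL C.Idx k) : Matrix C.Idx C.Idx k) := by
  rw [Subgroup.coe_inv]
  exact C.xi_inv j _ ha.1

private theorem Z5_xi_one (j : Fin n) {k : Type*} [Field k] :
    C.xi j (((1 : GF D k) : GL C.Idx k) : Matrix C.Idx C.Idx k) = 0 := by
  rw [Subgroup.coe_one, Units.val_one]
  exact C.xi_one j

section
variable (hS : Swap D t0) {k : Type*} [Field k] [Infinite k] {θ : k ≃+* k}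
  {σ : GF D k →* GF D k} (h : SRs D t0 θ σ)

include hS h

theorem sig_yg (j : Fin n) (t : k) :
    σ (yg hS.na (C.simple j) t) = yg hS.na (C.simple (t0 j)) (th D θ (C.simple j) t) ∧
    σ (yg hS.na (-(C.simple j)) t) = yg hS.na (-(C.simple (t0 j))) (th D θ (C.simple j) t) := by
  exact ⟨Subtype.ext (h.pos j t _ rfl), Subtype.ext (h.neg j t _ rfl)⟩

theorem sig_nJ (j : Fin n) : σ (nJ hS.na k j) = nJ hS.na k (t0 j) := by
  unfold nJ
  rw [map_mul, map_mul, (sig_yg hS h j 1).1, (sig_yg hS h j 1).2, th_one]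

theorem sig_sig (x : GF D k) : σ (σ x) = x := by
  obtain ⟨τ, e, ht⟩ := exists_tau hS h
  have h1 : ∀ (j : Fin n) (t : k), th D θ (C.simple (t0 j)) (th D θ (C.simple j) t) = t := by
    intro j t
    rw [← th_cycle θ _ _ (tau_simple hS ht.tau j)]
    exact th_th hS ht.tau θ _ t
  have key : σ.comp σ = MonoidHom.id _ := by
    refine MonoidHom.eq_of_eqOn_dense (GF_gen hS.na) ?_
    rintro g ⟨j, t, rfl | rfl⟩
    · change σ (σ _) = _
      rw [(sig_yg hS h j t).1, (sig_yg hS h (t0 j) _).1, h1]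
      exact (yg_cycle_simple hS.na _ _ (hS.inv j) t).1.symm
    · change σ (σ _) = _
      rw [(sig_yg hS h j t).2, (sig_yg hS h (t0 j) _).2, h1]
      exact (yg_cycle_simple hS.na _ _ (hS.inv j) t).2.symm
  exact DFunLike.congr_fun key x

theorem sig_FU (x : GF D k) : σ x ∈ FU D k ↔ x ∈ FU D k := by
  obtain ⟨τ, e, ht⟩ := exists_tau hS h
  constructor
  · intro hx
    have h1 := Z5_FU hS ht _ hx
    rwa [sig_sig hS h] at h1
  · exact Z5_FU hS ht x

theorem sig_FUm (x : GF D k) : σ x ∈ FUm D k ↔ x ∈ FUm D k := by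
  obtain ⟨τ, e, ht⟩ := exists_tau hS h
  constructor
  · intro hx
    have h1 := Z5_FUm hS ht _ hx
    rwa [sig_sig hS h] at h1
  · exact Z5_FUm hS ht x

theorem sig_FT (x : GF D k) : σ x ∈ FT D k ↔ x ∈ FT D k := by
  have key : ∀ x : GF D k, x ∈ FT D k → σ x ∈ FT D k := by
    intro x hx
    have e1 : ∀ u : GF D k, (σ x)⁻¹ * u * σ x = σ (x⁻¹ * σ u * x⁻¹⁻¹) := by
      intro u
      rw [map_mul, map_mul, map_inv, sig_sig hS h, inv_inv]
    have hU : ∀ u ∈ FU D k, (σ x)⁻¹ * u * σ x ∈ FU D k := by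
      intro u hu
      rw [e1]
      exact (sig_FU hS h _).2 ((FT_conj hS.na _ (inv_mem hx)).1 _ ((sig_FU hS h _).2 hu))
    have hUm : ∀ u ∈ FUm D k, (σ x)⁻¹ * u * σ x ∈ FUm D k := by
      intro u hu
      rw [e1]
      exact (sig_FUm hS h _).2 ((FT_conj hS.na _ (inv_mem hx)).2.1 _ ((sig_FUm hS h _).2 hu))
    have hy := (mem_GF_fix hS.na _ (σ x).2).2
    have hF := upper_of_fix C {g : GL C.Idx k | ∃ u ∈ FU D k, g = (u : GL C.Idx k)}
      (by
        rintro _ ⟨u, hu, rfl⟩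
        exact hu.1) (by
        intro j
        refine ⟨_, ⟨yg hS.na (C.simple j) 1, yg_pos hS.na _ (C.simple_pos j) _, rfl⟩, ?_⟩
        rw [(xi_yg hS.na j (C.simple j) (C.simple_pos j) 1).1
          ⟨j, rfl, Equiv.Perm.SameCycle.refl _ _⟩]
        exact one_ne_zero) _ hy (by
        rintro _ ⟨u, hu, rfl⟩
        exact C.Fil_U_zero _ (hU u hu).1)
    have hF' := lower_of_fix C {g : GL C.Idx k | ∃ u ∈ FUm D k, g = (u : GL C.Idx k)}
      (by
        rintro _ ⟨u, hu, rfl⟩
        exact hu.1) (by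
        intro j
        refine ⟨_, ⟨yg hS.na (-(C.simple j)) 1, yg_npos hS.na _
          ((C.not_pos_iff _).2 ?_) _, rfl⟩, ?_⟩
        · rw [C.neg_neg_root]
          exact C.simple_pos j
        · rw [Z5_om hS.na, (xi_yg hS.na j (C.simple j) (C.simple_pos j) 1).1
            ⟨j, rfl, Equiv.Perm.SameCycle.refl _ _⟩]
          exact one_ne_zero) _ hy (by
        rintro _ ⟨u, hu, rfl⟩
        exact (hUm u hu).1)
    exact T_of_both C _ hy hF hF'
  constructor
  · intro hx
    have h1 := key _ hx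
    rwa [sig_sig hS h] at h1
  · exact key x

theorem sig_Fil (x : GF D k) : C.Fil 0 ((σ x : GL C.Idx k) : Matrix C.Idx C.Idx k) ↔
    C.Fil 0 ((x : GL C.Idx k) : Matrix C.Idx C.Idx k) := by
  have key : ∀ x : GF D k, C.Fil 0 ((x : GL C.Idx k) : Matrix C.Idx C.Idx k) →
      C.Fil 0 ((σ x : GL C.Idx k) : Matrix C.Idx C.Idx k) := by
    intro x hx
    obtain ⟨⟨t, ht, u, hu, rfl⟩, -⟩ := B_split hS.na x hx
    rw [map_mul, Subgroup.coe_mul, Units.val_mul]
    have h1 := C.Fil_mul (C.Fil_T _ ((sig_FT hS h t).2 ht))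
      (C.Fil_U_zero _ ((sig_FU hS h u).2 hu).1)
    simpa using h1
  constructor
  · intro hx
    have h1 := key _ hx
    rwa [sig_sig hS h] at h1
  · exact key x

theorem sig_FN {τ : C.Root → C.Root} {e : C.Root → ℤ} (ht : SRt hS.na t0 θ σ τ e)
    (ν : GF D k) (hν : ν ∈ FN D k) : σ ν ∈ FN D k ∧
    ∀ w w' : Equiv.Perm C.Root, (C.adS k).Acts (ν : GL C.Idx k) w →
      (C.adS k).Acts (σ ν : GL C.Idx k) w' → ∀ β, D.rE.SameCycle (w' (τ β)) (τ (w β)) := by
  obtain ⟨w, hw, hr, hact⟩ := FN_acts hS.na ν hν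
  obtain ⟨ν₀, h0, h0N, h0act⟩ := exists_FN hS.na (k := k) w hw hr
  have hT := FN_T hS.na ν₀ ν h0N hν w h0act hact
  have h1 : σ ν₀ ∈ FN D k := by
    clear h0N h0act hT
    induction h0 using Subgroup.closure_induction with
    | mem g hg =>
      obtain ⟨j, rfl⟩ := hg
      change σ (nJ hS.na k j) ∈ FN D k
      rw [sig_nJ hS h]
      exact (nJ_mem hS.na _).1
    | one =>
      rw [map_one]
      exact one_mem _
    | mul a b _ _ ha hb =>
      rw [map_mul]
      exact mul_mem ha hb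
    | inv a _ ha =>
      rw [map_inv]
      exact inv_mem ha
  have h2 : σ ν = σ ν₀ * σ (ν₀⁻¹ * ν) := by rw [← map_mul, mul_inv_cancel_left]
  have h3 : σ ν ∈ FN D k := by
    rw [h2]
    exact mul_mem h1 ((C.adS k).T_le_N ((sig_FT hS h _).2 hT))
  refine ⟨h3, fun w₁ w' hw₁ hw' β => ?_⟩
  have e1 : w₁ = w := FN_unique hS.na _ _ _ hw₁ hact
  obtain ⟨w₂, -, hr₂, hact₂⟩ := FN_acts hS.na (σ ν) h3
  have e2 : w' = w₂ := FN_unique hS.na _ _ _ hw' hact₂
  obtain ⟨c, hc, hcv⟩ := yg_acts hS.na ν w hact hr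
  obtain ⟨c', hc', hcv'⟩ := yg_acts hS.na (σ ν) w₂ hact₂ hr₂
  have e3 := congrArg σ (hcv β 1)
  rw [map_mul, map_mul, map_inv, ht.map, ht.map, hcv'] at e3
  rw [e1, e2]
  refine (yg_inj hS.na _ _ _ _ ?_ e3).1
  rw [th_one, mul_one]
  exact mul_ne_zero (hc' _) (Z5_e _ (ht.e_eq β))

theorem sig_chi {τ : C.Root → C.Root} {e : C.Root → ℤ} (ht : SRt hS.na t0 θ σ τ e)
    (x : GF D k) (hx : x ∈ FT D k) (β : C.Root) :
    C.chi ((σ x : GL C.Idx k) : Matrix C.Idx C.Idx k) (τ β) =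
      th D θ β (C.chi ((x : GL C.Idx k) : Matrix C.Idx C.Idx k) β) := by
  have h1 := congrArg σ (yg_T hS.na x hx β 1)
  have hy := (sig_FT hS h x).2 hx
  rw [map_mul, map_mul, map_inv, ht.map, ht.map, yg_T hS.na _ hy, th_one, mul_one, mul_one] at h1
  have h2 := (yg_inj hS.na _ _ _ _ (mul_ne_zero (C.T_fix _ hy (τ β) 0).1
    (Z5_e _ (ht.e_eq β))) h1).2 rfl
  rw [mul_comm] at h2
  exact mul_left_cancel₀ (Z5_e _ (ht.e_eq β)) h2

theorem sig_chi_simple (x : GF D k) (hx : x ∈ FT D k) (j : Fin n) :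
    C.chi ((σ x : GL C.Idx k) : Matrix C.Idx C.Idx k) (C.simple (t0 j)) =
      th D θ (C.simple j) (C.chi ((x : GL C.Idx k) : Matrix C.Idx C.Idx k) (C.simple j)) := by
  obtain ⟨τ, e, ht⟩ := exists_tau hS h
  rw [← sig_chi hS h ht x hx]
  exact Z5_chi hS.na _ ((sig_FT hS h x).2 hx) _ _ (tau_simple hS ht.tau j)

theorem sig_xi (x : GF D k) (hx : x ∈ FU D k) (j : Fin n) :
    C.xi (t0 j) ((σ x : GL C.Idx k) : Matrix C.Idx C.Idx k) =
      th D θ (C.simple j) (C.xi j ((x : GL C.Idx k) : Matrix C.Idx C.Idx k)) := by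
  obtain ⟨τ, e, ht⟩ := exists_tau hS h
  have key : ∀ x : GF D k, x ∈ FU D k →
      C.xi (t0 j) ((σ x : GL C.Idx k) : Matrix C.Idx C.Idx k) =
      th D θ (C.simple j) (C.xi j ((x : GL C.Idx k) : Matrix C.Idx C.Idx k)) := by
    have h0 : th D θ (C.simple j) (0 : k) = 0 := by
      have h1 := th_add θ (C.simple j) (0 : k) 0 (D := D)
      rw [add_zero] at h1
      exact left_eq_add.1 h1
    intro x hx
    rw [FU_eq hS.na] at hx
    have hgen : ∀ g ∈ {g : GF D k | ∃ β : C.Root, C.Pos β ∧ ∃ t : k, g = yg hS.na β t},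
        C.xi (t0 j) ((σ g : GL C.Idx k) : Matrix C.Idx C.Idx k) =
        th D θ (C.simple j) (C.xi j ((g : GL C.Idx k) : Matrix C.Idx C.Idx k)) := by
      rintro g ⟨β, hβ, t, rfl⟩
      by_cases hc : ∃ i, β = C.simple i ∧ D.ρ.SameCycle i j
      · rw [(xi_yg hS.na j β hβ t).1 hc]
        obtain ⟨i, rfl, hi⟩ := hc
        rw [(sig_yg hS h i t).1, t0_cycle hS i j hi,
          (xi_yg hS.na (t0 j) _ (C.simple_pos _) _).1 ⟨t0 j, rfl, Equiv.Perm.SameCycle.refl _ _⟩]
        exact th_cycle θ _ _ ((D.sameCycle_simple i j).2 hi) t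
      · rw [(xi_yg hS.na j β hβ t).2 hc, h0, ht.map]
        apply (xi_yg hS.na (t0 j) _ ((tau_pos hS ht.tau β).2 hβ) _).2
        rintro ⟨i, hi, hij⟩
        apply hc
        have h1 := tau_tau hS ht.tau β
        rw [hi] at h1
        have h2 : D.rE.SameCycle (C.simple (t0 i)) β :=
          (tau_simple hS ht.tau i).symm.trans h1
        rw [t0_cycle hS i (t0 j) hij] at h2
        obtain ⟨b, hb, hb2⟩ := Z5_simple D _ _ h2
        exact ⟨b, hb, hb2.symm.trans (hS.inv j).symm⟩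
    have hm : ∀ g ∈ Subgroup.closure {g : GF D k | ∃ β : C.Root, C.Pos β ∧ ∃ t : k,
        g = yg hS.na β t}, g ∈ FU D k := by
      intro g hg
      rw [FU_eq hS.na]
      exact hg
    induction hx using Subgroup.closure_induction with
    | mem g hg => exact hgen g hg
    | one => rw [map_one, Z5_xi_one, Z5_xi_one, h0]
    | mul a b ha' hb' ha hb =>
      rw [map_mul, Z5_xi_mul _ _ _ (Z5_FU hS ht _ (hm _ ha')) (Z5_FU hS ht _ (hm _ hb')),
        Z5_xi_mul _ _ _ (hm _ ha') (hm _ hb'), ha, hb, th_add]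
    | inv a ha' ha =>
      rw [map_inv, Z5_xi_inv _ _ (Z5_FU hS ht _ (hm _ ha')), Z5_xi_inv _ _ (hm _ ha'), ha]
      have h1 := th_add θ (C.simple j) (C.xi j ((a : GL C.Idx k) : Matrix C.Idx C.Idx k))
        (-(C.xi j ((a : GL C.Idx k) : Matrix C.Idx C.Idx k))) (D := D)
      rw [add_neg_cancel, h0] at h1
      exact neg_eq_of_add_eq_zero_right h1.symm
  exact key x hx

theorem sig_FR {τ : C.Root → C.Root} {e : C.Root → ℤ} (ht : SRt hS.na t0 θ σ τ e)
    (R R' : Set C.Root) (hR : ∀ β ∈ R, ∃ γ ∈ R', D.rE.SameCycle (τ β) γ) (x : GF D k)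
    (hx : x ∈ FR hS.na k R) : σ x ∈ FR hS.na k R' := by
  unfold FR at hx
  induction hx using Subgroup.closure_induction with
  | mem g hg =>
    obtain ⟨β, hβ, t, rfl⟩ := hg
    obtain ⟨γ, hγ, hc⟩ := hR β hβ
    obtain ⟨e', -, he'⟩ := yg_cycle hS.na (k := k) _ _ hc
    rw [ht.map, ← he']
    exact Subgroup.subset_closure ⟨γ, hγ, _, rfl⟩
  | one =>
    rw [map_one]
    exact one_mem _
  | mul a b _ _ ha hb =>
    rw [map_mul]
    exact mul_mem ha hb
  | inv a _ ha =>
    rw [map_inv]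
    exact inv_mem ha

end

end Pool.Agent.H86.UM
end

section
/- module Pool.Agent.H86.UM.ZJ1 -/
/-!
# Project UM, Suzuki-Ree groups, module ZJ1: root groups `XJ`, orthogonal type (`A₁ × A₁`)

`i` a short node, `t0 i` not joined to `i` (hence not to the nodes of the orbit of `i`). A positive root supported on
`JJ i` (the orbit of `i` and `t0 i`) is simple (`RJ_orth`: the nodes of `JJ i` are pairwise not joined (`NA`, `ip_orb`),
so `ip β β = 2 ∑ (β_j)^2`). `FR (RJ i)` consists of the products `yg α_i t * yg α_(t0 i) u`, which commute;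
`σ` maps this to `yg α_(t0 i) (θ t) * yg α_i (θ⁻¹ u)` (`sig_yg`; `t0 (t0 i)` is in the cycle of `i`); compare
(`yg_inj`, or `xi_yg`). Negative roots: in the same way.
`XJ_congr`: `RJ i = RJ j` if `JJ i j`. `XJ_le`, `XmJ_le`: definitions, `FU_eq`.
-/

set_option autoImplicit false
open Matrix

namespace Pool.Agent.H86.UM

open Pool.Agent.H75.UL

variable {n : ℕ} {C : SLC n} {D : Dg C} {t0 : Fin n → Fin n} (hS : Swap D t0)
  {k : Type*} [Field k] [Infinite k] {θ : k ≃+* k} {σ : GF D k →* GF D k}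

theorem ZJ1_iter_ip (l : ℕ) (α β : C.Root) :
    C.ip (D.r^[l] α).1 (D.r^[l] β).1 = C.ip α.1 β.1 := by
  induction l with
  | zero => rfl
  | succ l ih => rw [Function.iterate_succ_apply', Function.iterate_succ_apply', D.r_ip, ih]

theorem ZJ1_iter_neg (l : ℕ) (β : C.Root) : D.r^[l] (-β) = -(D.r^[l] β) := by
  induction l with
  | zero => rfl
  | succ l ih => rw [Function.iterate_succ_apply', Function.iterate_succ_apply', ih, D.r_neg]

theorem ZJ1_iter_fix (l : ℕ) (β : C.Root) (h : D.r β = β) : D.r^[l] β = β := by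
  induction l with
  | zero => rfl
  | succ l ih => rw [Function.iterate_succ_apply', ih, h]

theorem ZJ1_factor (β : C.Root) (t : k) (l : ℕ) :
    (D.sgl (RingEquiv.refl k))^[l] ((C.adS k).x β t) =
      C.xg k (D.r^[l] β) ((D.sgp l β : k) * t) := by
  have h := (isSig_adS D (RingEquiv.refl k)).iter l β t
  rw [h, SLC.adS_x]
  have h2 : (⇑(RingEquiv.refl k))^[l] t = t := by
    have : (⇑(RingEquiv.refl k)) = id := rfl
    rw [this, Function.iterate_id, id]
  rw [h2]

theorem ZJ1_yg_comm (hN : D.NA) (β γ : C.Root)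
    (h : ∀ l l' : ℕ, 0 ≤ C.ip (D.r^[l] β).1 (D.r^[l'] γ).1) (t u : k) :
    yg hN β t * yg hN γ u = yg hN γ u * yg hN β t := by
  apply Subtype.ext
  rw [Subgroup.coe_mul, Subgroup.coe_mul, yg_val, yg_val]
  unfold yb
  change Commute _ _
  apply Commute.list_prod_right
  intro y hy
  apply Commute.list_prod_left
  intro x hx
  rw [List.mem_map] at hx hy
  obtain ⟨l, -, rfl⟩ := hx
  obtain ⟨l', -, rfl⟩ := hy
  rw [ZJ1_factor, ZJ1_factor]
  exact C.xg_comm k _ _ _ _ (h l l')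

theorem ZJ1_neg_neg (β : C.Root) : - -β = β := by
  apply SLC.Root.ext
  rw [SLC.Root.neg_val, SLC.Root.neg_val, neg_neg]

theorem ZJ1_cyc_neg (β γ : C.Root) (h : D.rE.SameCycle β γ) : D.rE.SameCycle (-β) (-γ) := by
  obtain ⟨z, hz⟩ := h
  refine ⟨z, ?_⟩
  rw [← hz]
  have key : ∀ (l : ℕ) (β : C.Root), (D.rE ^ l) (-β) = -((D.rE ^ l) β) := by
    intro l
    induction l with
    | zero => intro β; rfl
    | succ l ih =>
      intro β
      rw [pow_succ, Equiv.Perm.mul_apply, Equiv.Perm.mul_apply, Dg.rE_apply, Dg.rE_apply,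
        D.r_neg, ih]
  rcases Int.eq_nat_or_neg z with ⟨l, rfl | rfl⟩
  · rw [zpow_natCast, key]
  · rw [_root_.zpow_neg, zpow_natCast]
    apply (D.rE ^ l).injective
    rw [← Equiv.Perm.mul_apply, mul_inv_cancel, Equiv.Perm.one_apply, key,
      ← Equiv.Perm.mul_apply, mul_inv_cancel, Equiv.Perm.one_apply]

include hS in
theorem RJ_congr (i j : Fin n) (hij : JJ D t0 i j) : RJ D t0 i = RJ D t0 j := by
  have h1 : ∀ β : C.Root, suppJ D t0 i β ↔ suppJ D t0 j β := by
    intro β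
    constructor
    · intro h l hl
      exact JJ_trans hS j i l (JJ_symm hS i j hij) (h l hl)
    · intro h l hl
      exact JJ_trans hS i j l hij (h l hl)
  ext β
  exact and_congr_right fun _ => h1 β

theorem XJ_congr (i j : Fin n) (hij : JJ D t0 i j) : XJ hS.na t0 σ i = XJ hS.na t0 σ j ∧
    XmJ hS.na t0 σ i = XmJ hS.na t0 σ j := by
  unfold XJ XmJ
  rw [RJ_congr hS i j hij]
  exact ⟨rfl, rfl⟩

include hS in
/-- a short node in the same class -/
theorem exists_short (i : Fin n) : ∃ j, JJ D t0 i j ∧ D.ρ j ≠ j := by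
  by_cases h : D.ρ i = i
  · refine ⟨t0 i, Or.inr (Equiv.Perm.SameCycle.refl _ _), ?_⟩
    intro h2
    exact ((hS.fix_iff i).mp h2) h
  · exact ⟨i, JJ_refl i, h⟩

theorem XJ_le (i : Fin n) : XJ hS.na t0 σ i ≤ FU D k ⊓ Fx σ ∧
    XmJ hS.na t0 σ i ≤ FUm D k ⊓ Fx σ := by
  constructor
  · unfold XJ
    rw [FU_FR hS.na]
    exact inf_le_inf_right _ (FR_mono hS.na fun β hβ => hβ.1)
  · unfold XmJ
    rw [FUm_FR hS.na]
    refine inf_le_inf_right _ (FR_mono hS.na fun β hβ => ?_)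
    have h1 : C.Pos (-β) := hβ.1
    exact (C.not_pos_iff β).mpr h1

theorem ZJ1_cyc (i j : Fin n) (h : D.ρ.SameCycle i j) :
    D.rE.SameCycle (C.simple i) (C.simple j) := by
  obtain ⟨z, hz⟩ := h
  refine ⟨z, ?_⟩
  rw [← hz]
  have key : ∀ (l : ℕ) (i : Fin n), (D.rE ^ l) (C.simple i) = C.simple ((D.ρ ^ l) i) := by
    intro l
    induction l with
    | zero => intro i; rfl
    | succ l ih =>
      intro i
      rw [pow_succ, Equiv.Perm.mul_apply, pow_succ, Equiv.Perm.mul_apply, Dg.rE_apply,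
        D.r_simple, ih]
  rcases Int.eq_nat_or_neg z with ⟨l, rfl | rfl⟩
  · rw [zpow_natCast, zpow_natCast, key]
  · rw [_root_.zpow_neg, zpow_natCast, _root_.zpow_neg, zpow_natCast]
    apply (D.rE ^ l).injective
    rw [← Equiv.Perm.mul_apply, mul_inv_cancel, Equiv.Perm.one_apply, key,
      ← Equiv.Perm.mul_apply, mul_inv_cancel, Equiv.Perm.one_apply]

theorem ZJ1_orth (hN : D.NA) (i : Fin n) (hf : D.ρ (t0 i) = t0 i) (ha : C.A i (t0 i) = 0)
    (j l : Fin n) (hj : JJ D t0 i j) (hl : JJ D t0 i l) (hjl : j ≠ l) : C.A j l = 0 := by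
  have hcyc0 : ∀ a b : Fin n, D.ρ.SameCycle a b → ∃ q : ℕ, q < D.m ∧ b = (D.ρ ^ q) a := by
    intro a b h
    obtain ⟨q, hq, h2⟩ := h.exists_pow_eq'
    exact ⟨q, hq, h2.symm⟩
  have hfix : ∀ a : Fin n, D.ρ.SameCycle (t0 i) a → a = t0 i := by
    intro a h
    obtain ⟨z, hz⟩ := h
    rw [← hz]
    exact (Function.IsFixedPt.perm_zpow hf z)
  have hA : ∀ (q : ℕ) (a b : Fin n), C.A ((D.ρ ^ q) a) ((D.ρ ^ q) b) = C.A a b := by
    intro q
    induction q with
    | zero => intro a b; rfl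
    | succ q ih => intro a b; rw [pow_succ', Equiv.Perm.mul_apply, Equiv.Perm.mul_apply, D.hρ, ih]
  have hcross : ∀ a : Fin n, D.ρ.SameCycle i a → C.A a (t0 i) = 0 := by
    intro a h
    obtain ⟨q, -, rfl⟩ := hcyc0 i a h
    have h1 := hA q i (t0 i)
    have h2 : (D.ρ ^ q) (t0 i) = t0 i := by
      have := Function.IsFixedPt.perm_zpow hf (q : ℤ)
      rw [zpow_natCast] at this
      exact this
    rw [h2] at h1
    rw [h1, ha]
  rcases hj with hj | hj <;> rcases hl with hl | hl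
  · have h3 : D.ρ.SameCycle j l := hj.symm.trans hl
    obtain ⟨q, hq, rfl⟩ := hcyc0 j l h3
    have hq0 : 0 < q := by
      rcases Nat.eq_zero_or_pos q with rfl | h
      · exact absurd rfl hjl
      · exact h
    have hr : D.r (C.simple j) ≠ C.simple j := by
      intro h4
      rw [D.r_simple] at h4
      have h5 := C.simple_injective h4
      apply hjl
      have := Function.IsFixedPt.perm_zpow h5 (q : ℤ)
      rw [zpow_natCast] at this
      exact this.symm
    have h4 := D.ip_orb (C.simple j) hr q hq0 hq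
    rw [D.ip_r_NA hN _ hr] at h4
    have h5 : ∀ q : ℕ, D.r^[q] (C.simple j) = C.simple ((D.ρ ^ q) j) := by
      intro q
      induction q with
      | zero => rfl
      | succ q ih =>
        rw [Function.iterate_succ_apply', ih, D.r_simple, pow_succ', Equiv.Perm.mul_apply]
    rw [h5, SLC.simple_val, SLC.simple_val, C.ip_single] at h4
    exact h4
  · rw [hfix l hl]
    exact hcross j hj
  · rw [hfix j hj, C.symm]
    exact hcross l hl
  · exact absurd ((hfix j hj).trans (hfix l hl).symm) hjl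

section
variable (h : SRs D t0 θ σ) (i : Fin n) (hi : D.ρ i ≠ i) (ha : C.A i (t0 i) = 0)

include hi ha hS in
theorem RJ_orth (β : C.Root) (hβ : β ∈ RJ D t0 i) :
    D.rE.SameCycle (C.simple i) β ∨ β = C.simple (t0 i) := by
  obtain ⟨hpos, hsupp⟩ := hβ
  have hf : D.ρ (t0 i) = t0 i := (hS.fix_iff i).mpr hi
  -- the nodes are pairwise orthogonal
  have horth : ∀ j l, JJ D t0 i j → JJ D t0 i l → j ≠ l → C.A j l = 0 :=
    ZJ1_orth hS.na i hf ha
  have h1 : ∀ j, β.1 j ≠ 0 → C.ip (Pi.single j 1) β.1 = 2 * β.1 j := by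
    intro j hj
    rw [C.ip_comm, ← C.sum_ip_single]
    rw [Finset.sum_eq_single j]
    · rw [C.ip_single, C.diag, mul_comm]
    · intro l _ hl
      by_cases h0 : β.1 l = 0
      · rw [h0, zero_mul]
      · rw [C.ip_single, horth l j (hsupp l h0) (hsupp j hj) hl, mul_zero]
    · intro h
      exact absurd (Finset.mem_univ _) h
  have h2 : ∑ j, β.1 j * (2 * β.1 j) = 2 := by
    have h3 := C.sum_ip_single β.1 β.1
    rw [β.2] at h3
    refine Eq.trans ?_ h3
    apply Finset.sum_congr rfl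
    intro j _
    by_cases h0 : β.1 j = 0
    · rw [h0]; ring
    · rw [h1 j h0]
  have hnn := (C.pos_iff β).mp hpos
  obtain ⟨j, hj⟩ : ∃ j, β.1 j ≠ 0 := by
    by_contra hcon
    push Not at hcon
    exact C.root_ne_zero β (funext hcon)
  have hj1 : 1 ≤ β.1 j := by
    have := hnn j
    omega
  have h4 : β.1 j * (2 * β.1 j) + ∑ l ∈ Finset.univ.erase j, β.1 l * (2 * β.1 l) = 2 :=
    (Finset.add_sum_erase Finset.univ (fun l => β.1 l * (2 * β.1 l)) (Finset.mem_univ j)).trans h2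
  have h5 : ∀ l ∈ Finset.univ.erase j, 0 ≤ β.1 l * (2 * β.1 l) := by
    intro l _
    nlinarith [sq_nonneg (β.1 l)]
  have h6 := Finset.sum_nonneg h5
  have h7 : ∑ l ∈ Finset.univ.erase j, β.1 l * (2 * β.1 l) = 0 := by nlinarith
  have h8 := (Finset.sum_eq_zero_iff_of_nonneg h5).mp h7
  have h9 : β.1 j = 1 := by nlinarith
  have h10 : β = C.simple j := by
    apply SLC.Root.ext
    rw [SLC.simple_val]
    funext l
    by_cases hlj : l = j
    · subst hlj
      rw [h9, Pi.single_eq_same]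
    · rw [Pi.single_eq_of_ne hlj]
      have h11 := h8 l (Finset.mem_erase.mpr ⟨hlj, Finset.mem_univ l⟩)
      have h12 : β.1 l * β.1 l = 0 := by linarith
      exact mul_self_eq_zero.mp h12
  rcases hsupp j hj with h | h
  · left
    rw [h10]
    exact ZJ1_cyc i j h
  · right
    rw [h10]
    congr 1
    obtain ⟨z, hz⟩ := h
    rw [← hz]
    exact (Function.IsFixedPt.perm_zpow hf z)

include hi ha in
theorem orth_comm (t u : k) :
    yg hS.na (C.simple i) t * yg hS.na (C.simple (t0 i)) u =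
      yg hS.na (C.simple (t0 i)) u * yg hS.na (C.simple i) t ∧
    yg hS.na (-(C.simple i)) t * yg hS.na (-(C.simple (t0 i))) u =
      yg hS.na (-(C.simple (t0 i))) u * yg hS.na (-(C.simple i)) t ∧
    yg hS.na (C.simple i) t * yg hS.na (-(C.simple (t0 i))) u =
      yg hS.na (-(C.simple (t0 i))) u * yg hS.na (C.simple i) t ∧
    yg hS.na (-(C.simple i)) t * yg hS.na (C.simple (t0 i)) u =
      yg hS.na (C.simple (t0 i)) u * yg hS.na (-(C.simple i)) t := by
  have hf : D.ρ (t0 i) = t0 i := (hS.fix_iff i).mpr hi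
  have hr : D.r (C.simple (t0 i)) = C.simple (t0 i) := by rw [D.r_simple, hf]
  have h1 : ∀ l l' : ℕ, C.ip (D.r^[l] (C.simple i)).1 (D.r^[l'] (C.simple (t0 i))).1 = 0 := by
    intro l l'
    rw [ZJ1_iter_fix l' _ hr, ← ZJ1_iter_fix l _ hr, ZJ1_iter_ip, SLC.simple_val, SLC.simple_val,
      C.ip_single, ha]
  refine ⟨ZJ1_yg_comm hS.na _ _ ?_ t u, ZJ1_yg_comm hS.na _ _ ?_ t u,
    ZJ1_yg_comm hS.na _ _ ?_ t u, ZJ1_yg_comm hS.na _ _ ?_ t u⟩ <;> intro l l'
  · rw [h1]
  · rw [ZJ1_iter_neg, ZJ1_iter_neg, SLC.Root.neg_val, SLC.Root.neg_val, C.ip_neg_neg, h1]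
  · rw [ZJ1_iter_neg, SLC.Root.neg_val, C.ip_neg_right, h1, neg_zero]
  · rw [ZJ1_iter_neg, SLC.Root.neg_val, C.ip_neg_left, h1, neg_zero]

theorem ZJ1_form (hN : D.NA) (a b : C.Root) (R : Set C.Root)
    (hcomm : ∀ t u : k, yg hN a t * yg hN b u = yg hN b u * yg hN a t)
    (hR : ∀ β ∈ R, D.rE.SameCycle a β ∨ β = b) (haR : a ∈ R) (hbR : b ∈ R)
    (hσa : ∀ t, σ (yg hN a t) = yg hN b (θ t)) (hσb : ∀ u, σ (yg hN b u) = yg hN a (θ.symm u))
    (hra : D.r a ≠ a) (hrb : D.r b = b) (x : GF D k) :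
    x ∈ FR hN k R ⊓ Fx σ ↔ ∃ t, x = yg hN a t * yg hN b (θ t) := by
  constructor
  · rintro ⟨hx, hfx⟩
    have hform : ∃ t u, x = yg hN a t * yg hN b u := by
      clear hfx
      unfold FR at hx
      induction hx using Subgroup.closure_induction with
      | mem x hx =>
        obtain ⟨β, hβ, t, rfl⟩ := hx
        rcases hR β hβ with h | h
        · obtain ⟨e, he, h2⟩ := yg_cycle (k := k) hN a β h
          refine ⟨(e : k) * t, 0, ?_⟩
          rw [yg_zero, mul_one, ← h2, ← mul_assoc]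
          have h3 : (e : k) * (e : k) = 1 := by
            rcases he with rfl | rfl <;> simp
          rw [h3, one_mul]
        · exact ⟨0, t, by rw [yg_zero, one_mul, h]⟩
      | one => exact ⟨0, 0, by rw [yg_zero, yg_zero, one_mul]⟩
      | mul x y _ _ hx hy =>
        obtain ⟨t, u, rfl⟩ := hx
        obtain ⟨t', u', rfl⟩ := hy
        refine ⟨t + t', u + u', ?_⟩
        rw [yg_add, yg_add, mul_assoc, ← mul_assoc (yg hN b u), ← hcomm t' u]
        simp only [mul_assoc]
      | inv x _ hx =>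
        obtain ⟨t, u, rfl⟩ := hx
        refine ⟨-t, -u, ?_⟩
        rw [hcomm (-t) (-u), yg_neg, yg_neg, _root_.mul_inv_rev]
    obtain ⟨t, u, rfl⟩ := hform
    have h1 : σ (yg hN a t * yg hN b u) = yg hN a t * yg hN b u := hfx
    rw [map_mul, hσa, hσb, ← hcomm] at h1
    -- `yg a (θ⁻¹ u) * yg b (θ t) = yg a t * yg b u`
    have h2 : yg hN a (θ.symm u - t) = yg hN b (u - θ t) := by
      have h3 : yg hN a (θ.symm u) = yg hN a t * yg hN b (u - θ t) := by
        rw [sub_eq_add_neg, yg_add, yg_neg, ← mul_assoc, ← h1, mul_inv_cancel_right]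
      rw [sub_eq_add_neg (θ.symm u), yg_add, yg_neg, h3, hcomm, mul_inv_cancel_right]
    have h3 : θ.symm u - t = 0 := by
      by_contra hne
      have h4 := (yg_inj hN a b _ _ hne h2).1
      exact hra ((fix_cycle a b h4).mpr hrb)
    have h5 : u = θ t := by
      rw [sub_eq_zero] at h3
      rw [← h3, RingEquiv.apply_symm_apply]
    exact ⟨t, by rw [h5]⟩
  · rintro ⟨t, rfl⟩
    refine ⟨mul_mem (Subgroup.subset_closure ⟨a, haR, t, rfl⟩)
      (Subgroup.subset_closure ⟨b, hbR, θ t, rfl⟩), ?_⟩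
    change σ (yg hN a t * yg hN b (θ t)) = yg hN a t * yg hN b (θ t)
    rw [map_mul, hσa, hσb, RingEquiv.symm_apply_apply, hcomm]

theorem ZJ1_mem (hS : Swap D t0) (i : Fin n) : C.simple i ∈ RJ D t0 i ∧
    C.simple (t0 i) ∈ RJ D t0 i := by
  constructor
  · refine ⟨C.simple_pos i, fun j hj => ?_⟩
    rw [SLC.simple_val] at hj
    have : j = i := by
      by_contra hne
      exact hj (Pi.single_eq_of_ne hne _)
    rw [this]
    exact JJ_refl i
  · refine ⟨C.simple_pos _, fun j hj => ?_⟩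
    rw [SLC.simple_val] at hj
    have : j = t0 i := by
      by_contra hne
      exact hj (Pi.single_eq_of_ne hne _)
    rw [this]
    exact Or.inr (Equiv.Perm.SameCycle.refl _ _)

include h hi in
/-- `σ` on the root elements of `± simple i` and `± simple (t0 i)` -/
theorem ZJ1_sig (t : k) :
    σ (yg hS.na (C.simple i) t) = yg hS.na (C.simple (t0 i)) (θ t) ∧
    σ (yg hS.na (C.simple (t0 i)) t) = yg hS.na (C.simple i) (θ.symm t) ∧
    σ (yg hS.na (-(C.simple i)) t) = yg hS.na (-(C.simple (t0 i))) (θ t) ∧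
    σ (yg hS.na (-(C.simple (t0 i))) t) = yg hS.na (-(C.simple i)) (θ.symm t) := by
  have hf : D.ρ (t0 i) = t0 i := (hS.fix_iff i).mpr hi
  have hr : D.r (C.simple (t0 i)) = C.simple (t0 i) := by rw [D.r_simple, hf]
  have hra : D.r (C.simple i) ≠ C.simple i := by
    rw [D.r_simple]
    intro h3
    exact hi (C.simple_injective h3)
  have e1 : ∀ t : k, th D θ (C.simple i) t = θ t := fun t => by
    unfold th
    rw [if_neg hra]
  have e2 : ∀ t : k, th D θ (C.simple (t0 i)) t = θ.symm t := fun t => by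
    unfold th
    rw [if_pos hr]
  have hc : D.ρ.SameCycle (t0 (t0 i)) i := (hS.inv i).symm
  have h1 := sig_yg hS h i t
  have h2 := sig_yg hS h (t0 i) t
  rw [e1] at h1
  rw [e2] at h2
  have h3 := yg_cycle_simple hS.na (t0 (t0 i)) i hc (θ.symm t)
  rw [h3.1, h3.2] at h2
  exact ⟨h1.1, h2.1, h1.2, h2.2⟩

include h hi ha in
theorem XJ_orth (x : GF D k) : x ∈ XJ hS.na t0 σ i ↔
    ∃ t, x = yg hS.na (C.simple i) t * yg hS.na (C.simple (t0 i)) (θ t) := by
  have hf : D.ρ (t0 i) = t0 i := (hS.fix_iff i).mpr hi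
  have hr : D.r (C.simple (t0 i)) = C.simple (t0 i) := by rw [D.r_simple, hf]
  have hra : D.r (C.simple i) ≠ C.simple i := by
    rw [D.r_simple]
    intro h3
    exact hi (C.simple_injective h3)
  exact ZJ1_form hS.na (C.simple i) (C.simple (t0 i)) (RJ D t0 i)
    (fun t u => (orth_comm hS i hi ha t u).1) (fun β hβ => RJ_orth hS i hi ha β hβ)
    (ZJ1_mem hS i).1 (ZJ1_mem hS i).2 (fun t => (ZJ1_sig hS h i hi t).1)
    (fun t => (ZJ1_sig hS h i hi t).2.1) hra hr x

include h hi ha in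
theorem XmJ_orth (x : GF D k) : x ∈ XmJ hS.na t0 σ i ↔
    ∃ t, x = yg hS.na (-(C.simple i)) t * yg hS.na (-(C.simple (t0 i))) (θ t) := by
  have hf : D.ρ (t0 i) = t0 i := (hS.fix_iff i).mpr hi
  have hr : D.r (-(C.simple (t0 i))) = -(C.simple (t0 i)) := by rw [D.r_neg, D.r_simple, hf]
  have hra : D.r (-(C.simple i)) ≠ -(C.simple i) := by
    rw [D.r_neg, D.r_simple]
    intro h3
    have h4 : C.simple (D.ρ i) = C.simple i := by
      have h5 := congrArg (fun β : C.Root => -β) h3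
      simp only [ZJ1_neg_neg] at h5
      exact h5
    exact hi (C.simple_injective h4)
  refine ZJ1_form hS.na (-(C.simple i)) (-(C.simple (t0 i))) {β | -β ∈ RJ D t0 i}
    (fun t u => (orth_comm hS i hi ha t u).2.1) ?_ ?_ ?_
    (fun t => (ZJ1_sig hS h i hi t).2.2.1) (fun t => (ZJ1_sig hS h i hi t).2.2.2) hra hr x
  · intro β hβ
    rcases RJ_orth hS i hi ha (-β) hβ with h1 | h1
    · left
      have h2 := ZJ1_cyc_neg _ _ h1
      rwa [ZJ1_neg_neg] at h2
    · right
      rw [← h1, ZJ1_neg_neg]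
  · change - -(C.simple i) ∈ RJ D t0 i
    rw [ZJ1_neg_neg]
    exact (ZJ1_mem hS i).1
  · change - -(C.simple (t0 i)) ∈ RJ D t0 i
    rw [ZJ1_neg_neg]
    exact (ZJ1_mem hS i).2

end

end Pool.Agent.H86.UM
end
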