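import Pool.Agent.H86.AL.M10

/-!
# Project UM, Suzuki-Ree groups, module ZT: the diagrams `A₃`, `D₄`, `E₆`

`cA3`, `dA3`: `A₃` (nodes `0 - 1 - 2`), `ρ = (0 2)`; `cD4`, `dD4`: `D₄` (center `1`, leaves `0, 2, 3`),
`ρ = (0 2 3)`; `cE6`, `dE6`: `E₆` (nodes `0 - 2 - 3 - 4 - 5`, and `1 - 3`), `ρ = (0 5)(2 4)`. The folded
groups are of type `B₂`, `G₂`, `F₄`. `tA3`, `tD4`, `tE6` exchange the orbits of the short and of the long simple
roots. Positivity: expand the quadratic form and write it as a sum of squares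
(`A₃`: `v₀² + (v₀ - v₁)² + (v₁ - v₂)² + v₂²`; `D₄`: `4 q = (2 v₀ - v₁)² + (2 v₂ - v₁)² +
(2 v₃ - v₁)² + v₁²` where `2 q` is the form; `E₆`: complete squares from the leaves).
-/

set_option autoImplicit false
open Matrix

namespace Pool.Agent.H86.UM

open Pool.Agent.H75.UL

private theorem ZT_sq {a : ℤ} (h : a ^ 2 ≤ 0) : a = 0 :=
  pow_eq_zero_iff two_ne_zero |>.mp (le_antisymm h (sq_nonneg a))

/-- `A₃` -/
def cA3 : SLC 3 where
  A := !![2, -1, 0; -1, 2, -1; 0, -1, 2]
  symm := by decide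
  diag := by decide
  off := by decide
  pos := by
    intro v hv
    have h : v ⬝ᵥ !![2, -1, 0; -1, 2, -1; 0, -1, 2] *ᵥ v =
        v 0 ^ 2 + (v 0 - v 1) ^ 2 + (v 1 - v 2) ^ 2 + v 2 ^ 2 := by
      simp [dotProduct, mulVec, Fin.sum_univ_succ]
      ring
    rw [h]
    by_contra hc
    have q1 := sq_nonneg (v 0)
    have q2 := sq_nonneg (v 0 - v 1)
    have q3 := sq_nonneg (v 1 - v 2)
    have q4 := sq_nonneg (v 2)
    have e0 : v 0 = 0 := ZT_sq (by linarith)
    have e2 : v 2 = 0 := ZT_sq (by linarith)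
    have e1 : v 0 - v 1 = 0 := ZT_sq (by linarith)
    apply hv
    funext i
    fin_cases i
    · exact e0
    · change v 1 = 0
      linarith
    · exact e2
  conn := by decide +kernel

/-- `D₄` -/
def cD4 : SLC 4 where
  A := !![2, -1, 0, 0; -1, 2, -1, -1; 0, -1, 2, 0; 0, -1, 0, 2]
  symm := by decide
  diag := by decide
  off := by decide
  pos := by
    intro v hv
    have h : 2 * (v ⬝ᵥ !![2, -1, 0, 0; -1, 2, -1, -1; 0, -1, 2, 0; 0, -1, 0, 2] *ᵥ v) =
        (2 * v 0 - v 1) ^ 2 + (2 * v 2 - v 1) ^ 2 + (2 * v 3 - v 1) ^ 2 + v 1 ^ 2 := by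
      simp [dotProduct, mulVec, Fin.sum_univ_succ]
      ring
    by_contra hc
    have q1 := sq_nonneg (2 * v 0 - v 1)
    have q2 := sq_nonneg (2 * v 2 - v 1)
    have q3 := sq_nonneg (2 * v 3 - v 1)
    have q4 := sq_nonneg (v 1)
    have e1 : v 1 = 0 := ZT_sq (by linarith)
    have e0 : 2 * v 0 - v 1 = 0 := ZT_sq (by linarith)
    have e2 : 2 * v 2 - v 1 = 0 := ZT_sq (by linarith)
    have e3 : 2 * v 3 - v 1 = 0 := ZT_sq (by linarith)
    apply hv
    funext i
    fin_cases i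
    · change v 0 = 0
      linarith
    · exact e1
    · change v 2 = 0
      linarith
    · change v 3 = 0
      linarith
  conn := by decide +kernel

/-- `E₆` -/
def cE6 : SLC 6 where
  A := !![2, 0, -1, 0, 0, 0;
          0, 2, 0, -1, 0, 0;
          -1, 0, 2, -1, 0, 0;
          0, -1, -1, 2, -1, 0;
          0, 0, 0, -1, 2, -1;
          0, 0, 0, 0, -1, 2]
  symm := by decide
  diag := by decide
  off := by decide
  pos := by
    intro v hv
    have h : 6 * (v ⬝ᵥ !![2, 0, -1, 0, 0, 0;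
          0, 2, 0, -1, 0, 0;
          -1, 0, 2, -1, 0, 0;
          0, -1, -1, 2, -1, 0;
          0, 0, 0, -1, 2, -1;
          0, 0, 0, 0, -1, 2] *ᵥ v) =
        3 * (2 * v 0 - v 2) ^ 2 + 3 * (2 * v 5 - v 4) ^ 2 + (3 * v 2 - 2 * v 3) ^ 2 +
          (3 * v 4 - 2 * v 3) ^ 2 + 3 * (2 * v 1 - v 3) ^ 2 + v 3 ^ 2 := by
      simp [dotProduct, mulVec, Fin.sum_univ_succ]
      ring
    by_contra hc
    have q1 := sq_nonneg (2 * v 0 - v 2)
    have q2 := sq_nonneg (2 * v 5 - v 4)
    have q3 := sq_nonneg (3 * v 2 - 2 * v 3)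
    have q4 := sq_nonneg (3 * v 4 - 2 * v 3)
    have q5 := sq_nonneg (2 * v 1 - v 3)
    have q6 := sq_nonneg (v 3)
    have e3 : v 3 = 0 := ZT_sq (by linarith)
    have e0 : 2 * v 0 - v 2 = 0 := ZT_sq (by linarith)
    have e5 : 2 * v 5 - v 4 = 0 := ZT_sq (by linarith)
    have e2 : 3 * v 2 - 2 * v 3 = 0 := ZT_sq (by linarith)
    have e4 : 3 * v 4 - 2 * v 3 = 0 := ZT_sq (by linarith)
    have e1 : 2 * v 1 - v 3 = 0 := ZT_sq (by linarith)
    apply hv
    funext i
    fin_cases i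
    · change v 0 = 0
      linarith
    · change v 1 = 0
      linarith
    · change v 2 = 0
      linarith
    · exact e3
    · change v 4 = 0
      linarith
    · change v 5 = 0
      linarith
  conn := by decide +kernel

/-- The symmetry of order `2` of `A₃`. -/
def dA3 : Dg cA3 where
  ρ := ⟨![2, 1, 0], ![2, 1, 0], by decide, by decide⟩
  hρ := by decide
  ord := (orderOf_le_of_pow_eq_one (n := 2) (by norm_num) (by decide)).trans (by norm_num)

/-- The symmetry of order `3` of `D₄`. -/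
def dD4 : Dg cD4 where
  ρ := ⟨![2, 1, 3, 0], ![3, 1, 0, 2], by decide, by decide⟩
  hρ := by decide
  ord := orderOf_le_of_pow_eq_one (n := 3) (by norm_num) (by decide)

/-- The symmetry of order `2` of `E₆`. -/
def dE6 : Dg cE6 where
  ρ := ⟨![5, 1, 4, 3, 2, 0], ![5, 1, 4, 3, 2, 0], by decide, by decide⟩
  hρ := by decide
  ord := (orderOf_le_of_pow_eq_one (n := 2) (by norm_num) (by decide)).trans (by norm_num)

/-- exchanges the nodes of the short and of the long simple roots -/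
def tA3 : Fin 3 → Fin 3 := ![1, 0, 1]

/-- exchanges the nodes of the short and of the long simple roots -/
def tD4 : Fin 4 → Fin 4 := ![1, 0, 1, 1]

/-- exchanges the nodes of the short and of the long simple roots -/
def tE6 : Fin 6 → Fin 6 := ![1, 0, 3, 2, 3, 1]

theorem dA3_m : dA3.m = 2 := by
  have : Fact (Nat.Prime 2) := ⟨Nat.prime_two⟩
  exact orderOf_eq_prime (by decide) (by decide)

theorem dD4_m : dD4.m = 3 := by
  have : Fact (Nat.Prime 3) := ⟨Nat.prime_three⟩
  exact orderOf_eq_prime (by decide) (by decide)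

theorem dE6_m : dE6.m = 2 := by
  have : Fact (Nat.Prime 2) := ⟨Nat.prime_two⟩
  exact orderOf_eq_prime (by decide) (by decide)

end Pool.Agent.H86.UM
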