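import Pool.Agent.H86.AL.Steinberg
import Pool.Agent.H86.AL.M04
import Pool.Agent.H86.AL.M06
import Pool.Agent.H86.AL.M09
import Pool.Agent.H86.AL.Tables
import Pool.Agent.H86.AL.SR
import Pool.Agent.H86.AL.M13
import Pool.Agent.H86.AL.M17
import Pool.Agent.H86.AL.M19

/-!
# M22: collected modules

Pool.Agent.H75.UE.E0
Pool.Agent.H75.UE.E2
Pool.Agent.H75.LT.Ext
Pool.Agent.H75.UE.E1
Pool.Agent.H75.UE.E4
Pool.Agent.H86.UM.ZTs
Pool.Agent.H75.US.S0
Pool.Agent.H75.US.S2
-/

section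
/- module Pool.Agent.H75.UE.E0 -/
/-!
# Project UE (MP_978914_al): chains of groups of Lie type. Definitions.

* `EE D K θ`: the group generated by the fixed points of `σ` in `U⁺` and `U⁻` of the universal group.
* `Kd D tw θ`: the two kinds of types: `tw = false`: `θ = 1` and no simple root is adjacent to its image
  under `ρ` (all untwisted types); `tw = true`: `θ` has the same order as `ρ` (twisted types).
* `IsE D tw G`: `G` is a quotient of some `EE D K θ` by a central subgroup.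
* `GD D tw G`: such a presentation with an infinite field and the adjoint representation `p`.
* `tad c`: the diagonal element of the adjoint torus; `NE D θ`.
* `emap`: functoriality.
-/

set_option autoImplicit false

open Matrix

universe u

namespace Pool.Agent.H75.UL

open Pool.Agent.H86.UM

variable {n : ℕ} {C : SLC n} (D : Dg C)

/-- The group `E(K, θ)`, generated by the fixed points of `σ` in `U⁺` and in `U⁻`. -/
abbrev EE (K : Type u) [Field K] (θ : K ≃+* K) : Subgroup (GU C K) :=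
  Eg (GU.sys C K) (D.sig θ)

/-- The adjoint representation of the universal group. -/
noncomputable abbrev pa (C : SLC n) (K : Type u) [Field K] : GU C K →* GL C.Idx K :=
  GU.lift (C.adS K)

/-- The kinds of types: untwisted (`tw = false`) and twisted (`tw = true`). -/
def Kd (tw : Bool) {K : Type u} [Field K] (θ : K ≃+* K) : Prop :=
  if tw = true then (∀ t, (⇑θ)^[D.m] t = t) ∧ ∀ l, 0 < l → l < D.m → ∃ t, (⇑θ)^[l] t ≠ t
  else D.NA ∧ ∀ t, θ t = t

/-- `G` is a central quotient of a group `E(K, θ)` of the given type. -/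
def IsE (tw : Bool) (G : Type u) [Group G] : Prop :=
  ∃ (K : Type u) (_ : Field K) (θ : K ≃+* K), Kd D tw θ ∧
    ∃ f : EE D K θ →* G, Function.Surjective f ∧ f.ker ≤ Subgroup.center (EE D K θ)

/-- A presentation of `G` as a central quotient, with an infinite field. -/
structure GD (tw : Bool) (G : Type u) [Group G] where
  K : Type u
  [fK : Field K]
  θ : K ≃+* K
  kd : Kd D tw θ
  inf : Infinite K
  f : EE D K θ →* G
  surj : Function.Surjective f
  ker_le : f.ker ≤ Subgroup.center (EE D K θ)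
  p : G →* GL C.Idx K
  hp : ∀ x : EE D K θ, p (f x) = pa C K x

attribute [instance] GD.fK

variable {D}

/-- The homomorphism `Ψ` of a homomorphism `ψ : G₁ →* G₂`. -/
noncomputable def GD.Psi {tw : Bool} {G₁ G₂ : Type u} [Group G₁] [Group G₂] (X₁ : GD D tw G₁)
    (X₂ : GD D tw G₂) (ψ : G₁ →* G₂) : EE D X₁.K X₁.θ →* GL C.Idx X₂.K :=
  X₂.p.comp (ψ.comp X₁.f)

theorem GD.Psi_apply {tw : Bool} {G₁ G₂ : Type u} [Group G₁] [Group G₂] (X₁ : GD D tw G₁)
    (X₂ : GD D tw G₂) (ψ : G₁ →* G₂) (x : EE D X₁.K X₁.θ) :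
    X₁.Psi X₂ ψ x = X₂.p (ψ (X₁.f x)) := rfl

variable (D)

/-- Diagonal elements of the adjoint torus. -/
noncomputable def tad {K : Type u} [Field K] (c : Fin n → Kˣ) : GL C.Idx K where
  val := Matrix.diagonal (Sum.elim (fun _ => 1) (fun γ => ((∏ j, c j ^ γ.1 j : Kˣ) : K)))
  inv := Matrix.diagonal (Sum.elim (fun _ => 1) (fun γ => (((∏ j, c j ^ γ.1 j)⁻¹ : Kˣ) : K)))
  val_inv := by
    rw [Matrix.diagonal_mul_diagonal, ← Matrix.diagonal_one]
    congr 1
    funext a
    rcases a with i | γ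
    · simp
    · exact Units.mul_inv _
  inv_val := by
    rw [Matrix.diagonal_mul_diagonal, ← Matrix.diagonal_one]
    congr 1
    funext a
    rcases a with i | γ
    · simp
    · exact Units.inv_mul _

/-- The group generated by `E(K, θ)` (adjoint) and the diagonal elements fixed by `σ`. -/
noncomputable def NE {K : Type u} [Field K] (θ : K ≃+* K) : Subgroup (GL C.Idx K) :=
  Eg (C.adS K) (D.sgl θ) ⊔
    Subgroup.closure {A | ∃ c : Fin n → Kˣ, (∀ i, (c (D.ρ i) : K) = θ (c i)) ∧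
      A = tad (C := C) c}

theorem GU_map_sig {K K' : Type u} [Field K] [Field K'] (θ : K ≃+* K) (θ' : K' ≃+* K')
    (φ : K →+* K') (h : ∀ t, φ (θ t) = θ' (φ t)) (x : GU C K) :
    GU.map φ (D.sig θ x) = D.sig θ' (GU.map φ x) := by
  have h1 : (GU.map (C := C) φ).comp (D.sig θ) = (D.sig θ').comp (GU.map φ) := by
    apply GU.hom_ext
    intro β t
    rw [MonoidHom.comp_apply, MonoidHom.comp_apply, GU.map_x]
    have h2 := isSig_GU D θ β t
    have h3 := isSig_GU D θ' β (φ t)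
    change (D.sig θ) (GU.x C K β t) = GU.x C K (D.r β) _ at h2
    change (D.sig θ') (GU.x C K' β (φ t)) = GU.x C K' (D.r β) _ at h3
    rw [h2, h3, GU.map_x, map_mul, map_intCast, h]
  have h2 := congrArg (fun f : GU C K →* GU C K' => f x) h1
  exact h2

theorem GU_map_U {K K' : Type u} [Field K] [Field K'] (φ : K →+* K') (x : GU C K)
    (hx : x ∈ (GU.sys C K).U 1) : GU.map φ x ∈ (GU.sys C K').U 1 := by
  unfold StSys.U at hx
  induction hx using Subgroup.closure_induction with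
  | mem y hy =>
    obtain ⟨β, t, hβ, rfl⟩ := hy
    change GU.map φ (GU.x C K β t) ∈ _
    rw [GU.map_x]
    exact Subgroup.subset_closure ⟨β, φ t, hβ, rfl⟩
  | one => rw [map_one]; exact one_mem _
  | mul a b _ _ ha hb => rw [map_mul]; exact mul_mem ha hb
  | inv a _ ha => rw [map_inv]; exact inv_mem ha

theorem GU_map_Um {K K' : Type u} [Field K] [Field K'] (φ : K →+* K') (x : GU C K)
    (hx : x ∈ (GU.sys C K).Um) : GU.map φ x ∈ (GU.sys C K').Um := by
  unfold StSys.Um at hx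
  induction hx using Subgroup.closure_induction with
  | mem y hy =>
    obtain ⟨β, t, hβ, rfl⟩ := hy
    change GU.map φ (GU.x C K β t) ∈ _
    rw [GU.map_x]
    exact Subgroup.subset_closure ⟨β, φ t, hβ, rfl⟩
  | one => rw [map_one]; exact one_mem _
  | mul a b _ _ ha hb => rw [map_mul]; exact mul_mem ha hb
  | inv a _ ha => rw [map_inv]; exact inv_mem ha

theorem map_mem_EE {K K' : Type u} [Field K] [Field K'] (θ : K ≃+* K) (θ' : K' ≃+* K')
    (φ : K →+* K') (h : ∀ t, φ (θ t) = θ' (φ t)) (x : GU C K) (hx : x ∈ EE D K θ) :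
    GU.map φ x ∈ EE D K' θ' := by
  have h1 : EE D K θ ≤ (EE D K' θ').comap (GU.map φ) := by
    refine sup_le ?_ ?_
    · rintro u ⟨hu, hs⟩
      refine (le_sup_left : fixU (GU.sys C K') (D.sig θ') ≤ _) ⟨GU_map_U φ u hu, ?_⟩
      have hs' : D.sig θ u = u := hs
      change D.sig θ' (GU.map φ u) = GU.map φ u
      rw [← GU_map_sig D θ θ' φ h, hs']
    · rintro u ⟨hu, hs⟩
      refine (le_sup_right : fixUm (GU.sys C K') (D.sig θ') ≤ _) ⟨GU_map_Um φ u hu, ?_⟩
      have hs' : D.sig θ u = u := hs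
      change D.sig θ' (GU.map φ u) = GU.map φ u
      rw [← GU_map_sig D θ θ' φ h, hs']
  exact h1 hx

/-- Functoriality of `E(K, θ)`. -/
def emap {K K' : Type u} [Field K] [Field K'] (θ : K ≃+* K) (θ' : K' ≃+* K')
    (φ : K →+* K') (h : ∀ t, φ (θ t) = θ' (φ t)) : EE D K θ →* EE D K' θ' :=
  ((GU.map φ).comp (EE D K θ).subtype).codRestrict (EE D K' θ')
    (fun x => map_mem_EE D θ θ' φ h x x.2)

theorem emap_val {K K' : Type u} [Field K] [Field K'] (θ : K ≃+* K) (θ' : K' ≃+* K')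
    (φ : K →+* K') (h : ∀ t, φ (θ t) = θ' (φ t)) (x : EE D K θ) :
    (emap D θ θ' φ h x : GU C K') = GU.map φ x := rfl

theorem pa_map {K K' : Type u} [Field K] [Field K'] (φ : K →+* K') (x : GU C K) :
    pa C K' (GU.map φ x) = C.mp φ (pa C K x) := by
  have h1 : (pa C K').comp (GU.map φ) = (C.mp φ).comp (pa C K) := by
    apply GU.hom_ext
    intro β t
    rw [MonoidHom.comp_apply, MonoidHom.comp_apply, GU.map_x, GU.lift_x, GU.lift_x]
    exact (C.mp_xg φ β t).symm
  exact congrArg (fun f : GU C K →* GL C.Idx K' => f x) h1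

end Pool.Agent.H75.UL
end

section
/- module Pool.Agent.H75.UE.E2 -/
/-!
# Project UE, module E2: the two kinds of types give environments

`Kd.hθ`: for `tw = false` `θ = id`. `Kd.hA` etc. are only needed if `D.NA` fails. `NA` holds if `m = 1`
(`ρ = 1`, `A i i = 2`) and if `m = 3` (`ip_r` for `simple i`: `A i (ρ i) = -1` implies `m = 2`; `ip_single`). So
if `NA` fails then `tw = true`, `m = 2`, `θ² = 1`, `θ ≠ 1` (`l = 1`). `hA`: take `a` with `θ a ≠ a`,
`e = a - θ a`. `hB`: some `w` has `d = w + θ w ≠ 0`: otherwise (`w = 1`) `2 = 0` and then `θ w = -w = w`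
for all `w`; `d` is fixed; `v = z * w / d`. `hC`: by `hB` there is `w` with `w + θ w = 1`, `t = v * w`:
`t - θ t = v w + v θ w = v`.
`kd_limit`: the conditions pass to the limit: for `tw = true` an element `t` of `K'` with
`θ^[l] t ≠ t` is the image of such an element.
-/

set_option autoImplicit false
open Matrix
universe u
namespace Pool.Agent.H75.UL

open Pool.Agent.H86.UM

variable {n : ℕ} {C : SLC n} (D : Dg C) {K : Type u} [Field K]

private theorem E2_na_or : D.NA ∨ D.m = 2 := by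
  by_cases hN : D.NA
  · exact Or.inl hN
  right
  unfold Dg.NA at hN
  push Not at hN
  obtain ⟨i, hi⟩ := hN
  have hip : C.ip (C.simple i).1 (D.r (C.simple i)).1 = -1 := by
    rw [D.r_simple, SLC.simple_val, SLC.simple_val, SLC.ip_single]
    exact hi
  have hne : D.r (C.simple i) ≠ C.simple i := by
    intro hc
    rw [hc, (C.simple i).2] at hip
    omega
  rcases D.ip_r (C.simple i) hne with h | h
  · omega
  · exact h.1

private theorem E2_true {θ : K ≃+* K} (h : Kd D true θ) :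
    (∀ t, (⇑θ)^[D.m] t = t) ∧ ∀ l, 0 < l → l < D.m → ∃ t, (⇑θ)^[l] t ≠ t := by
  unfold Kd at h
  rw [if_pos rfl] at h
  exact h

private theorem E2_false {θ : K ≃+* K} (h : Kd D false θ) : D.NA ∧ ∀ t, θ t = t := by
  unfold Kd at h
  rw [if_neg (by decide)] at h
  exact h

theorem Kd.hθ {tw : Bool} {θ : K ≃+* K} (h : Kd D tw θ) (t : K) : (⇑θ)^[D.m] t = t := by
  cases tw with
  | false => exact Function.iterate_fixed ((E2_false D h).2 t) _
  | true => exact (E2_true D h).1 t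

private theorem E2_two {tw : Bool} {θ : K ≃+* K} (h : Kd D tw θ) :
    D.NA ∨ ((∀ t, θ (θ t) = t) ∧ ∃ t, θ t ≠ t) := by
  cases tw with
  | false => exact Or.inl (E2_false D h).1
  | true =>
    rcases E2_na_or D with hN | hm
    · exact Or.inl hN
    · right
      obtain ⟨h1, h2⟩ := E2_true D h
      rw [hm] at h1 h2
      exact ⟨fun t => h1 t, h2 1 one_pos one_lt_two⟩

private theorem E2_B {θ : K ≃+* K} (h1 : ∀ t, θ (θ t) = t) (h2 : ∃ t, θ t ≠ t) (z : K)
    (hz : θ z = z) : ∃ v, v + θ v = z := by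
  obtain ⟨w, hw⟩ : ∃ w, w + θ w ≠ 0 := by
    by_contra hcon
    push Not at hcon
    have e1 : (1 : K) + 1 = 0 := by
      have := hcon 1
      rwa [map_one] at this
    obtain ⟨t, ht⟩ := h2
    apply ht
    have h3 := hcon t
    have h4 : t + t = 0 := by
      rw [← mul_one t, ← mul_add, e1, mul_zero]
    exact add_left_cancel (h3.trans h4.symm)
  have hd : θ (w + θ w) = w + θ w := by rw [map_add, h1, add_comm]
  refine ⟨z * w / (w + θ w), ?_⟩
  rw [map_div₀, map_mul, hz, hd, ← add_div, ← mul_add, mul_div_assoc, div_self hw, mul_one]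

theorem Kd.hA {tw : Bool} {θ : K ≃+* K} (h : Kd D tw θ) : D.NA ∨ ∃ e, e ≠ 0 ∧ θ e = -e := by
  rcases E2_two D h with hN | ⟨h1, a, ha⟩
  · exact Or.inl hN
  · refine Or.inr ⟨a - θ a, fun h0 => ha (sub_eq_zero.1 h0).symm, ?_⟩
    rw [map_sub, h1, neg_sub]

theorem Kd.hB {tw : Bool} {θ : K ≃+* K} (h : Kd D tw θ) :
    D.NA ∨ ∀ z, θ z = z → ∃ v, v + θ v = z := by
  rcases E2_two D h with hN | ⟨h1, h2⟩
  · exact Or.inl hN
  · exact Or.inr fun z hz => E2_B h1 h2 z hz

theorem Kd.hC {tw : Bool} {θ : K ≃+* K} (h : Kd D tw θ) :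
    D.NA ∨ ∀ v, v + θ v = 0 → ∃ t, v = t - θ t := by
  rcases E2_two D h with hN | ⟨h1, h2⟩
  · exact Or.inl hN
  · refine Or.inr fun v hv => ?_
    obtain ⟨w, hw⟩ := E2_B h1 h2 1 (map_one θ)
    refine ⟨v * w, ?_⟩
    rw [map_mul]
    have h3 : θ v = -v := (neg_eq_of_add_eq_zero_right hv).symm
    rw [h3]
    linear_combination -v * hw

theorem Kd.env {tw : Bool} {θ : K ≃+* K} (h : Kd D tw θ) (hK : Infinite K) :
    Env D θ (GU.sys C K) (D.sig θ) (pa C K) where
  inf := hK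
  sig := isSig_GU D θ
  hp := fun β t => GU.lift_x _ β t
  hθ := h.hθ
  hA := h.hA
  hB := h.hB
  hC := h.hC

private theorem E2_iter {K' : Type u} [Field K'] (θ : K ≃+* K) (θ' : K' ≃+* K') (φ : K →+* K')
    (hφ : ∀ t, φ (θ t) = θ' (φ t)) (l : ℕ) (t : K) : (⇑θ')^[l] (φ t) = φ ((⇑θ)^[l] t) := by
  induction l with
  | zero => rfl
  | succ l ih => rw [Function.iterate_succ_apply', Function.iterate_succ_apply', ih, hφ]

/-- The kind of the type passes to a union of fields. -/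
theorem Kd.limit {tw : Bool} {θ : K ≃+* K} (h : Kd D tw θ) {K' : Type u} [Field K']
    (θ' : K' ≃+* K') (φ : K →+* K') (hφ : ∀ t, φ (θ t) = θ' (φ t))
    (h1 : ∀ t', ∃ (K₁ : Type u) (_ : Field K₁) (θ₁ : K₁ ≃+* K₁) (φ₁ : K₁ →+* K') (t : K₁),
      Kd D tw θ₁ ∧ (∀ t, φ₁ (θ₁ t) = θ' (φ₁ t)) ∧ φ₁ t = t') : Kd D tw θ' := by
  cases tw with
  | false =>
    unfold Kd
    rw [if_neg (by decide)]
    refine ⟨(E2_false D h).1, fun t' => ?_⟩
    obtain ⟨K₁, _, θ₁, φ₁, t, hk, hc, rfl⟩ := h1 t'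
    rw [← hc, (E2_false D hk).2]
  | true =>
    unfold Kd
    rw [if_pos rfl]
    refine ⟨fun t' => ?_, fun l hl hlm => ?_⟩
    · obtain ⟨K₁, _, θ₁, φ₁, t, hk, hc, rfl⟩ := h1 t'
      rw [E2_iter θ₁ θ' φ₁ hc, (E2_true D hk).1]
    · obtain ⟨t, ht⟩ := (E2_true D h).2 l hl hlm
      refine ⟨φ t, fun hcon => ht ?_⟩
      rw [E2_iter θ θ' φ hφ] at hcon
      exact φ.injective hcon

end Pool.Agent.H75.UL
end

section
/- module Pool.Agent.H75.LT.Ext -/
/-!
# Project UE, module LT/Ext: the definition of `IsType` and the groups `EE D K θ`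

`GU_simple_ext`: the subgroup `E = {g | f g = f' g}` contains all `x_(±α_i)(t)`, so all `nn x α_i t`
(`t ≠ 0`), and conjugation by `nn x α_i 1` maps `x_β(u)` to `x_(s_i β)(± u)` (`n_conj_all`). Every root is
`w α_i` for some `w ∈ W` and some `i` (there is a lemma in R2/R3, or induction on the height: a positive
non-simple root `β` has a simple `α_i` with `ip β α_i > 0`, `s_i β` is positive of smaller height, see
`refl_simple_pos`; negative roots: `-β`), so `E` contains all `x_β(t)`; `GU.hom_ext`.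
`isSigma_sig`: `D.sig θ` satisfies `IsSigma D.ρ θ` (`isSig_GU`, `r_simple`, `sg_simple`, `sg_neg`, `r_neg`), and by
`GU_simple_ext` it is the only one. `fixGroup_sig`: `Up = (GU.sys C K).U 1`, `Um = (GU.sys C K).Um` (`ht` is the
sum of the coordinates; `1 ≤ ht` iff `0 < ht`), `Eg = fixU ⊔ fixUm` is the closure of the union.
`isType_iff`: `orderOf θ = orderOf ρ` iff `θ^[m] = id` and `θ^[l] ≠ id` for `0 < l < m` (`orderOf_eq_iff`,
`(θ ^ l) t = θ^[l] t`).
-/

set_option autoImplicit false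
open Matrix
universe u
namespace Pool.Agent.H75.LT

open Pool.Agent.H75.UL

variable {n : ℕ} {C : SLC n}

/-- The commutator relation in the universal group, solved for the root element of the sum. -/
private theorem Ext_comm {K : Type u} [Field K] (α β γ : C.Root) (t : K) (h : γ.1 = α.1 + β.1) :
    GU.x C K γ t = GU.x C K α (C.eps α.1 β.1) * GU.x C K β t * (GU.x C K α (C.eps α.1 β.1))⁻¹ *
      (GU.x C K β t)⁻¹ := by
  have h1 := (GU.sys C K).comm_add α β γ (C.eps α.1 β.1 : K) t h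
  have h2 : ((C.eps α.1 β.1 : ℤ) : K) * ((C.eps α.1 β.1 : ℤ) : K) = 1 := by
    rw [← Int.cast_mul, C.eps_sq, Int.cast_one]
  rw [h2, one_mul] at h1
  exact h1.symm

private theorem Ext_pos {K : Type u} [Field K] {H : Type*} [Group H] (f f' : GU C K →* H)
    (h : ∀ i t, f (GU.x C K (C.simple i) t) = f' (GU.x C K (C.simple i) t))
    (h' : ∀ i t, f (GU.x C K (-(C.simple i)) t) = f' (GU.x C K (-(C.simple i)) t)) (N : ℕ) :
    ∀ β : C.Root, C.Pos β → ht β.1 ≤ N → ∀ t, f (GU.x C K β t) = f' (GU.x C K β t) ∧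
      f (GU.x C K (-β) t) = f' (GU.x C K (-β) t) := by
  induction N with
  | zero =>
    intro β hβ hN
    unfold SLC.Pos at hβ
    push_cast at hN
    omega
  | succ N ih =>
    intro β hβ hN t
    by_cases hs : ∃ i, β = C.simple i
    · obtain ⟨i, rfl⟩ := hs
      exact ⟨h i t, h' i t⟩
    · push Not at hs
      obtain ⟨i, γ, hγ, hsum⟩ := C.exists_descent β hβ hs
      have hht : ht γ.1 ≤ N := by
        have h1 := congrArg ht hsum
        rw [ht_add, C.ht_simple] at h1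
        push_cast at hN
        omega
      have hsum' : (-β).1 = (-(C.simple i)).1 + (-γ).1 := by
        rw [SLC.Root.neg_val, SLC.Root.neg_val, SLC.Root.neg_val, hsum, neg_add]
      constructor
      · rw [Ext_comm (C.simple i) γ β t hsum]
        simp only [map_mul, map_inv]
        rw [h, (ih γ hγ hht t).1]
      · rw [Ext_comm (-(C.simple i)) (-γ) (-β) t hsum']
        simp only [map_mul, map_inv]
        rw [h', (ih γ hγ hht t).2]

theorem GU_simple_ext {K : Type u} [Field K] {H : Type*} [Group H] (f f' : GU C K →* H)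
    (h : ∀ i t, f (GU.x C K (C.simple i) t) = f' (GU.x C K (C.simple i) t))
    (h' : ∀ i t, f (GU.x C K (-(C.simple i)) t) = f' (GU.x C K (-(C.simple i)) t)) : f = f' := by
  apply GU.hom_ext
  intro β t
  by_cases hβ : C.Pos β
  · exact (Ext_pos f f' h h' (ht β.1).toNat β hβ (Int.self_le_toNat _) t).1
  · have h1 := (C.not_pos_iff β).mp hβ
    have h2 := (Ext_pos f f' h h' (ht (-β).1).toNat (-β) h1 (Int.self_le_toNat _) t).2
    have h3 : - -β = β := C.neg_neg_root β
    rw [h3] at h2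
    exact h2

theorem isSigma_sig (D : Dg C) {K : Type u} [Field K] (θ : K ≃+* K) :
    IsSigma D.ρ θ (D.sig θ) where
  pos := by
    intro i t
    have h := isSig_GU D θ (C.simple i) t
    rw [D.r_simple, D.sg_simple, Int.cast_one, one_mul] at h
    exact h
  neg := by
    intro i t
    have h := isSig_GU D θ (-(C.simple i)) t
    rw [D.r_neg, D.r_simple, D.sg_neg, D.sg_simple, Int.cast_one, one_mul] at h
    exact h

theorem isSigma_unique (ρ : Equiv.Perm (Fin n)) {K : Type u} [Field K] (θ : K ≃+* K)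
    (σ σ' : GU C K →* GU C K) (h : IsSigma ρ θ σ) (h' : IsSigma ρ θ σ') : σ = σ' := by
  apply GU_simple_ext
  · intro i t
    rw [h.pos, h'.pos]
  · intro i t
    rw [h.neg, h'.neg]

private theorem Ext_Up (C : SLC n) (K : Type u) [Field K] : Up C K = (GU.sys C K).U 1 := rfl

private theorem Ext_Um (C : SLC n) (K : Type u) [Field K] : Um C K = (GU.sys C K).Um := rfl

theorem fixGroup_sig (D : Dg C) {K : Type u} [Field K] (θ : K ≃+* K) :
    fixGroup (D.sig θ) = EE D K θ := by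
  apply le_antisymm
  · unfold fixGroup
    rw [Subgroup.closure_le]
    rintro g ⟨hg, hU | hU⟩
    · rw [Ext_Up] at hU
      exact (le_sup_left : fixU (GU.sys C K) (D.sig θ) ≤ _) ⟨hU, hg⟩
    · rw [Ext_Um] at hU
      exact (le_sup_right : fixUm (GU.sys C K) (D.sig θ) ≤ _) ⟨hU, hg⟩
  · refine sup_le ?_ ?_
    · rintro g ⟨hU, hg⟩
      exact Subgroup.subset_closure ⟨hg, Or.inl hU⟩
    · rintro g ⟨hU, hg⟩
      exact Subgroup.subset_closure ⟨hg, Or.inr hU⟩

private theorem Ext_pow {K : Type u} [Field K] (θ : K ≃+* K) (l : ℕ) (t : K) :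
    (θ ^ l : K ≃+* K) t = (⇑θ)^[l] t := by
  induction l generalizing t with
  | zero => rfl
  | succ l ih =>
    rw [pow_succ, Function.iterate_succ_apply, ← ih]
    rfl

private theorem Ext_pow_eq {K : Type u} [Field K] (θ : K ≃+* K) (l : ℕ) :
    θ ^ l = 1 ↔ ∀ t, (⇑θ)^[l] t = t := by
  constructor
  · intro h t
    rw [← Ext_pow, h]
    rfl
  · intro h
    apply RingEquiv.ext
    intro t
    rw [Ext_pow, h]
    rfl

private theorem Ext_kd (D : Dg C) (tw : Bool) {K : Type u} [Field K] (θ : K ≃+* K) :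
    ((tw = false ∧ θ = RingEquiv.refl K ∧ ∀ i, C.A i (D.ρ i) ≠ -1) ∨
      (tw = true ∧ orderOf θ = orderOf D.ρ)) ↔ Kd D tw θ := by
  have hm : 0 < D.m := orderOf_pos D.ρ
  cases tw with
  | false =>
    unfold Kd
    rw [if_neg (by decide)]
    constructor
    · rintro (⟨-, h1, h2⟩ | ⟨h1, -⟩)
      · refine ⟨h2, fun t => ?_⟩
        rw [h1]
        rfl
      · exact absurd h1 (by decide)
    · rintro ⟨h1, h2⟩
      refine Or.inl ⟨rfl, ?_, h1⟩
      apply RingEquiv.ext
      intro t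
      rw [h2]
      rfl
  | true =>
    unfold Kd
    rw [if_pos rfl]
    have h0 : orderOf θ = D.m ↔ _ := orderOf_eq_iff hm
    constructor
    · rintro (⟨h1, -⟩ | ⟨-, h1⟩)
      · exact absurd h1 (by decide)
      · obtain ⟨h2, h3⟩ := h0.mp h1
        refine ⟨(Ext_pow_eq θ _).mp h2, fun l hl hlm => ?_⟩
        have h4 := h3 l hlm hl
        rw [Ne, Ext_pow_eq] at h4
        push Not at h4
        exact h4
    · rintro ⟨h1, h2⟩
      refine Or.inr ⟨rfl, h0.mpr ⟨(Ext_pow_eq θ _).mpr h1, fun l hlm hl => ?_⟩⟩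
      rw [Ne, Ext_pow_eq]
      push Not
      exact h2 l hl hlm

theorem isType_iff (D : Dg C) (tw : Bool) (G : Type u) [Group G] :
    IsType C D.ρ tw G ↔ IsE D tw G := by
  unfold IsType IsE
  constructor
  · rintro ⟨K, hK, θ, σ, h1, h2, h3⟩
    refine ⟨K, hK, θ, (Ext_kd D tw θ).mp h1, ?_⟩
    have h4 : σ = D.sig θ := isSigma_unique D.ρ θ σ (D.sig θ) h2 (isSigma_sig D θ)
    subst h4
    rw [fixGroup_sig] at h3
    exact h3
  · rintro ⟨K, hK, θ, h1, h2⟩
    refine ⟨K, hK, θ, D.sig θ, (Ext_kd D tw θ).mpr h1, isSigma_sig D θ, ?_⟩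
    rw [fixGroup_sig]
    exact h2

end Pool.Agent.H75.LT
end

section
/- module Pool.Agent.H75.UE.E1 -/
/-!
# Project UE, module E1: the adjoint representation on the unipotent fixed points

`pa C K : GU C K →* GL` maps `x_β(t)` to `xg β t`; it commutes with `σ` (`lift_sig`). It is injective on
`U 1` and on `Um`: `adS_inj`, `adS_neg_inj`, every element of `U 1` is some `lp posList t` (`exists_lp`),
`S9_lp`, `lp_congr` (for `Um` use `StSys.neg`, `neg_U`). `S9_U`: `pa (U m) ≤ U m`; conversely every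
element of `(adS K).U 1` is `pa v`, `v ∈ U 1` (same coordinates), similarly for `XO` (closure induction)
and `Um`. `pa_fixU`: if `u = pa v` is fixed by `sgl θ`, `v ∈ U 1`, then
`pa (D.sig θ v) = sgl θ u = u = pa v`, `D.sig θ v ∈ U 1` (`map_U`), so `D.sig θ v = v`. `pa_fixX`: `XO D S β ≤ U 1`
if `β` is positive (`XO_le_U`, `U_mono`), `≤ Um` if it is negative (`D.inO β γ`: `γ = r^[l] β` has the height
of `β`, `r_ht`, or `γ = β + r β`); `XO` of `adS` is the image of `XO` of `GU.sys`.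
`pa_Eg`: `Eg = fixU ⊔ fixUm`, `Subgroup.map_sup`.
-/

set_option autoImplicit false
open Matrix
universe u
namespace Pool.Agent.H75.UL

open Pool.Agent.H86.UM

variable {n : ℕ} {C : SLC n} (D : Dg C) {K : Type u} [Field K] (θ : K ≃+* K)


private theorem E1_surj_U {H : Type*} [Group H] (S : StSys C K H) (p : H →* GL C.Idx K)
    (hp : ∀ β t, p (S.x β t) = (C.adS K).x β t) (m : ℤ) (u : GL C.Idx K)
    (hu : u ∈ (C.adS K).U m) : ∃ v ∈ S.U m, p v = u := by
  have h : (C.adS K).U m ≤ (S.U m).map p := by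
    unfold StSys.U
    rw [Subgroup.closure_le]
    rintro g ⟨β, t, hβ, rfl⟩
    exact ⟨S.x β t, Subgroup.subset_closure ⟨β, t, hβ, rfl⟩, hp β t⟩
  exact h hu

private theorem E1_surj_Um {H : Type*} [Group H] (S : StSys C K H) (p : H →* GL C.Idx K)
    (hp : ∀ β t, p (S.x β t) = (C.adS K).x β t) (u : GL C.Idx K)
    (hu : u ∈ (C.adS K).Um) : ∃ v ∈ S.Um, p v = u := by
  have h : (C.adS K).Um ≤ (S.Um).map p := by
    unfold StSys.Um
    rw [Subgroup.closure_le]
    rintro g ⟨β, t, hβ, rfl⟩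
    exact ⟨S.x β t, Subgroup.subset_closure ⟨β, t, hβ, rfl⟩, hp β t⟩
  exact h hu

private theorem E1_map_U {H : Type*} [Group H] (S : StSys C K H) (p : H →* GL C.Idx K)
    (hp : ∀ β t, p (S.x β t) = (C.adS K).x β t) (m : ℤ) (u : H) (hu : u ∈ S.U m) :
    p u ∈ (C.adS K).U m := by
  have h : S.U m ≤ ((C.adS K).U m).comap p := by
    unfold StSys.U
    rw [Subgroup.closure_le]
    rintro g ⟨β, t, hβ, rfl⟩
    rw [SetLike.mem_coe, Subgroup.mem_comap, hp]
    exact Subgroup.subset_closure ⟨β, t, hβ, rfl⟩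
  exact h hu

private theorem E1_map_Um {H : Type*} [Group H] (S : StSys C K H) (p : H →* GL C.Idx K)
    (hp : ∀ β t, p (S.x β t) = (C.adS K).x β t) (u : H) (hu : u ∈ S.Um) :
    p u ∈ (C.adS K).Um := by
  have h : S.Um ≤ ((C.adS K).Um).comap p := by
    unfold StSys.Um
    rw [Subgroup.closure_le]
    rintro g ⟨β, t, hβ, rfl⟩
    rw [SetLike.mem_coe, Subgroup.mem_comap, hp]
    exact Subgroup.subset_closure ⟨β, t, hβ, rfl⟩
  exact h hu

private theorem E1_inj {H H' : Type*} [Group H] [Group H'] (S : StSys C K H) (S' : StSys C K H')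
    (p : H →* H') (hp : ∀ β t, p (S.x β t) = S'.x β t) (hS : S'.Inj) (u v : H)
    (hu : u ∈ S.U 1) (hv : v ∈ S.U 1) (h : p u = p v) : u = v := by
  obtain ⟨t, -, rfl⟩ := S.exists_lp 1 le_rfl u hu
  obtain ⟨t', -, rfl⟩ := S.exists_lp 1 le_rfl v hv
  have hlp : ∀ l t, p (S.lp l t) = S'.lp l t := by
    intro l t
    unfold StSys.lp
    rw [map_list_prod, List.map_map]
    congr 1
    apply List.map_congr_left
    intro β _
    exact hp β (t β)
  rw [hlp, hlp] at h
  apply S.lp_congr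
  intro β hβ
  exact hS t t' h β ((C.mem_posList β).mp hβ)

private theorem E1_hp (C : SLC n) (K : Type u) [Field K] (β : C.Root) (t : K) :
    pa C K ((GU.sys C K).x β t) = (C.adS K).x β t := GU.lift_x _ β t

private theorem E1_inO_neg (D : Dg C) (β γ : C.Root) (hγ : D.inO β γ) : D.inO (-β) (-γ) := by
  rcases hγ with ⟨l, rfl⟩ | hγ
  · left
    refine ⟨l, ?_⟩
    induction l with
    | zero => rfl
    | succ l ih => rw [Function.iterate_succ_apply', Function.iterate_succ_apply', ← ih, D.r_neg]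
  · right
    rw [SLC.Root.neg_val, hγ, D.r_neg, SLC.Root.neg_val, SLC.Root.neg_val, neg_add]

private theorem E1_XO_neg {H : Type*} [Group H] (D : Dg C) (S : StSys C K H) (β : C.Root) :
    XO D S.neg β = XO D S (-β) := by
  unfold XO
  congr 1
  ext g
  constructor
  · rintro ⟨γ, t, hγ, rfl⟩
    exact ⟨-γ, t, E1_inO_neg D β γ hγ, rfl⟩
  · rintro ⟨γ, t, hγ, rfl⟩
    refine ⟨-γ, t, ?_, ?_⟩
    · have := E1_inO_neg D (-β) γ hγ
      rwa [C.neg_neg_root] at this
    · rw [StSys.neg_x, C.neg_neg_root]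

private theorem E1_ht_ne (β : C.Root) : 0 < ht β.1 ∨ ht β.1 < 0 := by
  have h0 := C.root_ne_zero β
  rcases C.pos_or_neg β with h | h
  · left
    by_contra h1
    apply h0
    have h2 : ht β.1 = 0 := le_antisymm (not_lt.mp h1) (Finset.sum_nonneg fun i _ => h i)
    have h3 := (Finset.sum_eq_zero_iff_of_nonneg (fun i _ => h i)).mp h2
    funext i
    exact h3 i (Finset.mem_univ i)
  · right
    by_contra h1
    apply h0
    have h2 : ht β.1 = 0 := le_antisymm (Finset.sum_nonpos fun i _ => h i) (not_lt.mp h1)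
    have h3 := (Finset.sum_eq_zero_iff_of_nonpos (fun i _ => h i)).mp h2
    funext i
    exact h3 i (Finset.mem_univ i)

/-- `XO β` is contained in `U⁺` or in `U⁻`. -/
private theorem E1_XO_le {H : Type*} [Group H] (D : Dg C) (S : StSys C K H) (β : C.Root) :
    (C.Pos β ∧ XO D S β ≤ S.U 1) ∨ (C.Pos (-β) ∧ XO D S β ≤ S.Um) := by
  rcases E1_ht_ne β with h | h
  · left
    exact ⟨h, (XO_le_U S β h).trans (S.U_mono (by omega))⟩
  · right
    have h' : C.Pos (-β) := by
      unfold SLC.Pos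
      rw [SLC.Root.neg_val, ht_neg]
      omega
    refine ⟨h', ?_⟩
    have h1 := (XO_le_U (D := D) S.neg (-β) h').trans
      (S.neg.U_mono (m := 1) (k := ht (-β).1) (by unfold SLC.Pos at h'; omega))
    rw [E1_XO_neg, C.neg_neg_root, S.neg_U] at h1
    exact h1

theorem pa_sig (x : GU C K) : pa C K (D.sig θ x) = D.sgl θ (pa C K x) := lift_sig D θ x

theorem pa_injOn_U (u v : GU C K) (hu : u ∈ (GU.sys C K).U 1) (hv : v ∈ (GU.sys C K).U 1)
    (h : pa C K u = pa C K v) : u = v :=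
  E1_inj (GU.sys C K) (C.adS K) (pa C K) (E1_hp C K) adS_inj u v hu hv h

theorem pa_injOn_Um (u v : GU C K) (hu : u ∈ (GU.sys C K).Um) (hv : v ∈ (GU.sys C K).Um)
    (h : pa C K u = pa C K v) : u = v := by
  rw [← StSys.neg_U] at hu hv
  exact E1_inj (GU.sys C K).neg (C.adS K).neg (pa C K) (fun β t => E1_hp C K (-β) t)
    adS_neg_inj u v hu hv h

theorem pa_fixU (u : GL C.Idx K) : u ∈ fixU (C.adS K) (D.sgl θ) ↔
    ∃ v ∈ fixU (GU.sys C K) (D.sig θ), pa C K v = u := by
  constructor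
  · rintro ⟨hu, hs⟩
    obtain ⟨v, hv, rfl⟩ := E1_surj_U (GU.sys C K) (pa C K) (E1_hp C K) 1 u hu
    refine ⟨v, ⟨hv, ?_⟩, rfl⟩
    have hs' : D.sgl θ (pa C K v) = pa C K v := hs
    rw [← pa_sig] at hs'
    exact pa_injOn_U _ _ ((isSig_GU D θ).map_U 1 v hv) hv hs'
  · rintro ⟨v, ⟨hv, hs⟩, rfl⟩
    have hs' : D.sig θ v = v := hs
    refine ⟨E1_map_U (GU.sys C K) (pa C K) (E1_hp C K) 1 v hv, ?_⟩
    show D.sgl θ (pa C K v) = pa C K v
    rw [← pa_sig, hs']

theorem pa_fixUm (u : GL C.Idx K) : u ∈ fixUm (C.adS K) (D.sgl θ) ↔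
    ∃ v ∈ fixUm (GU.sys C K) (D.sig θ), pa C K v = u := by
  constructor
  · rintro ⟨hu, hs⟩
    obtain ⟨v, hv, rfl⟩ := E1_surj_Um (GU.sys C K) (pa C K) (E1_hp C K) u hu
    refine ⟨v, ⟨hv, ?_⟩, rfl⟩
    have hs' : D.sgl θ (pa C K v) = pa C K v := hs
    rw [← pa_sig] at hs'
    exact pa_injOn_Um _ _ ((isSig_GU D θ).map_Um v hv) hv hs'
  · rintro ⟨v, ⟨hv, hs⟩, rfl⟩
    have hs' : D.sig θ v = v := hs
    refine ⟨E1_map_Um (GU.sys C K) (pa C K) (E1_hp C K) v hv, ?_⟩
    show D.sgl θ (pa C K v) = pa C K v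
    rw [← pa_sig, hs']

theorem pa_fixX (β : C.Root) (u : GL C.Idx K) : u ∈ fixX D (C.adS K) (D.sgl θ) β ↔
    ∃ v ∈ fixX D (GU.sys C K) (D.sig θ) β, pa C K v = u := by
  constructor
  · rintro ⟨hu, hs⟩
    have h : XO D (C.adS K) β ≤ (XO D (GU.sys C K) β).map (pa C K) := by
      unfold XO
      rw [Subgroup.closure_le]
      rintro g ⟨γ, t, hγ, rfl⟩
      exact ⟨(GU.sys C K).x γ t, Subgroup.subset_closure ⟨γ, t, hγ, rfl⟩, E1_hp C K γ t⟩
    obtain ⟨v, hv, rfl⟩ := h hu
    refine ⟨v, ⟨hv, ?_⟩, rfl⟩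
    have hs' : D.sgl θ (pa C K v) = pa C K v := hs
    rw [← pa_sig] at hs'
    rcases E1_XO_le D (GU.sys C K) β with ⟨-, h1⟩ | ⟨-, h1⟩
    · exact pa_injOn_U _ _ ((isSig_GU D θ).map_U 1 v (h1 hv)) (h1 hv) hs'
    · exact pa_injOn_Um _ _ ((isSig_GU D θ).map_Um v (h1 hv)) (h1 hv) hs'
  · rintro ⟨v, ⟨hv, hs⟩, rfl⟩
    have hs' : D.sig θ v = v := hs
    have h : XO D (GU.sys C K) β ≤ (XO D (C.adS K) β).comap (pa C K) := by
      unfold XO
      rw [Subgroup.closure_le]
      rintro g ⟨γ, t, hγ, rfl⟩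
      rw [SetLike.mem_coe, Subgroup.mem_comap, E1_hp]
      exact Subgroup.subset_closure ⟨γ, t, hγ, rfl⟩
    refine ⟨h hv, ?_⟩
    show D.sgl θ (pa C K v) = pa C K v
    rw [← pa_sig, hs']

theorem pa_Eg (u : GL C.Idx K) : u ∈ Eg (C.adS K) (D.sgl θ) ↔
    ∃ v ∈ EE D K θ, pa C K v = u := by
  have h1 : fixU (C.adS K) (D.sgl θ) = (fixU (GU.sys C K) (D.sig θ)).map (pa C K) := by
    ext u
    rw [pa_fixU, Subgroup.mem_map]
  have h2 : fixUm (C.adS K) (D.sgl θ) = (fixUm (GU.sys C K) (D.sig θ)).map (pa C K) := by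
    ext u
    rw [pa_fixUm, Subgroup.mem_map]
  have h3 : Eg (C.adS K) (D.sgl θ) = (EE D K θ).map (pa C K) := by
    have h4 : (EE D K θ).map (pa C K) = (fixU (GU.sys C K) (D.sig θ)).map (pa C K) ⊔
        (fixUm (GU.sys C K) (D.sig θ)).map (pa C K) := Subgroup.map_sup _ _ _
    rw [h4, ← h1, ← h2]
    rfl
  rw [h3, Subgroup.mem_map]

/-- The simple root groups are in `E(K, θ)`. -/
theorem fixX_mem_EE (β : C.Root) (v : GU C K)
    (hv : v ∈ fixX D (GU.sys C K) (D.sig θ) β) : v ∈ EE D K θ := by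
  rcases E1_XO_le D (GU.sys C K) β with ⟨-, h1⟩ | ⟨-, h1⟩
  · exact (le_sup_left : fixU (GU.sys C K) (D.sig θ) ≤ _) ⟨h1 hv.1, hv.2⟩
  · exact (le_sup_right : fixUm (GU.sys C K) (D.sig θ) ≤ _) ⟨h1 hv.1, hv.2⟩

end Pool.Agent.H75.UL
end

section
/- module Pool.Agent.H75.UE.E4 -/
/-!
# Project UE, module E4: the centraliser of the image is trivial

`Tgt_center`: `exists_fib`, `exists_regular'` give `t₀ ∈ S.T` with all `chi (Ψ t₀) γ ≠ 1`; `conj_torus'` gives
`w₀ ∈ U 1` with `w₀⁻¹ Ψ(T) w₀ ≤ T`. Replace `Ψ` by `cj Ψ w₀` (`Tgt_conj`) and `w` by `w₀⁻¹ w w₀`. Then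
`unique_of_Tgt` with `y = w` (`w⁻¹ Ψ u w = Ψ u ∈ U 1`, `Fil_U_zero`) gives `Fil 0 w`; `centralizer_B` for
`τ = Ψ t₀` gives `w ∈ T`; for each `j` there are `J`, `x ∈ S.X J` with `xi j (Ψ x) ≠ 0` (`nonvan`), and `xi_conj`
(`Fil_T`) for `w Ψ(x) w⁻¹ = Ψ(x)` gives `chi w (simple j) = 1`, so `w = 1` (`T_ext` with `τ' = 1`).
`cent_of_chamber`: apply it over `L` to `cj (mp ∘ Ψ) g` and `g⁻¹ (mp w) g`; `mp_injective`.
-/

set_option autoImplicit false
open Matrix
universe u
namespace Pool.Agent.H75.UL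

open Pool.Agent.H86.UM

variable {n : ℕ} (C : SLC n)

theorem Tgt_center {ι : Type} {E : Type*} [Group E] {k : Type*} [Field k] (S : Src ι E k)
    {F : Type*} [Field F] (Ψ : E →* GL C.Idx F) (h : Tgt C S Ψ) (w : GL C.Idx F)
    (hw : w ∈ C.Gad F) (hc : ∀ x, w * Ψ x = Ψ x * w) : w = 1 := by
  obtain ⟨fib, hf⟩ := exists_fib C S Ψ h
  obtain ⟨t₀, ht₀, hreg⟩ := exists_regular' C S Ψ h fib hf
  obtain ⟨w₀, hw₀, hwT⟩ := conj_torus' C S Ψ h t₀ ht₀ hreg
  obtain ⟨hT, -, hchi, -⟩ := Tgt_conj C S Ψ h w₀ hw₀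
  have hw₀g : w₀ ∈ C.Gad F := by
    rw [← C.gen_adS F]
    exact (C.adS F).U_le_gen 1 hw₀
  obtain ⟨y, hy⟩ : ∃ y : GL C.Idx F, y = w₀⁻¹ * w * w₀ := ⟨_, rfl⟩
  have hyg : y ∈ C.Gad F := by
    rw [hy]
    exact mul_mem (mul_mem (inv_mem hw₀g) hw) hw₀g
  have hyc : ∀ x, y * cj Ψ w₀ x = cj Ψ w₀ x * y := by
    intro x
    rw [cj_apply, hy]
    have e1 : w₀⁻¹ * w * w₀ * (w₀⁻¹ * Ψ x * w₀) = w₀⁻¹ * (w * Ψ x) * w₀ := by group
    have e2 : w₀⁻¹ * Ψ x * w₀ * (w₀⁻¹ * w * w₀) = w₀⁻¹ * (Ψ x * w) * w₀ := by group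
    rw [e1, e2, hc]
  have hy0 : C.Fil 0 (y : Matrix C.Idx C.Idx F) := by
    refine unique_of_Tgt C S (cj Ψ w₀) hT y hyg ?_
    intro u hu
    have e : y⁻¹ * cj Ψ w₀ u * y = cj Ψ w₀ u := by
      rw [mul_assoc, ← hyc, inv_mul_cancel_left]
    rw [e]
    exact C.Fil_U_zero _ (hT.U_le u hu)
  have ht : cj Ψ w₀ t₀ ∈ (C.adS F).T := by
    rw [cj_apply]
    exact hwT t₀ ht₀
  have hyT : y ∈ (C.adS F).T := by
    refine C.centralizer_B (cj Ψ w₀ t₀) y ht hyg hy0 (fun γ _ => ?_) (hyc t₀).symm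
    rw [hchi t₀ ht₀ γ]
    exact hreg γ
  have hy1 : y = 1 := by
    refine C.T_ext y 1 hyT (one_mem _) fun j => ?_
    obtain ⟨J, x, hx, hne⟩ := hT.nonvan j
    have h2 := (C.xi_conj y (cj Ψ w₀ x) hyg hy0 (hT.U_le x (S.X_le J hx)) j).2
    rw [hyc, mul_inv_cancel_right] at h2
    have h3 : C.chi (y : Matrix C.Idx C.Idx F) (C.simple j) = 1 := by
      have h4 : (C.chi (y : Matrix C.Idx C.Idx F) (C.simple j) - 1) *
          C.xi j (cj Ψ w₀ x : Matrix C.Idx C.Idx F) = 0 := by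
        rw [sub_mul, one_mul, ← h2, sub_self]
      exact sub_eq_zero.1 ((mul_eq_zero.1 h4).resolve_right hne)
    rw [h3]
    simp [SLC.chi]
  have e : w = w₀ * y * w₀⁻¹ := by
    rw [hy]
    group
  rw [e, hy1]
  group

theorem cent_of_chamber {ι : Type} {E : Type*} [Group E] {k : Type*} [Field k] (S : Src ι E k)
    {K L : Type*} [Field K] [Field L] [Algebra K L] (Ψ : E →* GL C.Idx K) (g : GL C.Idx L)
    (hg : g ∈ C.Gad L) (hT : Tgt C S (cj ((C.mp (algebraMap K L)).comp Ψ) g)) (w : GL C.Idx K)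
    (hw : w ∈ C.Gad K) (hc : ∀ x, w * Ψ x = Ψ x * w) : w = 1 := by
  have h1 : g⁻¹ * C.mp (algebraMap K L) w * g = 1 := by
    refine Tgt_center C S _ hT _ (mul_mem (mul_mem (inv_mem hg) (C.mp_Gad _ w hw)) hg) ?_
    intro x
    rw [cj_apply, MonoidHom.comp_apply]
    have e1 : g⁻¹ * C.mp (algebraMap K L) w * g * (g⁻¹ * C.mp (algebraMap K L) (Ψ x) * g) =
        g⁻¹ * (C.mp (algebraMap K L) w * C.mp (algebraMap K L) (Ψ x)) * g := by group
    have e2 : g⁻¹ * C.mp (algebraMap K L) (Ψ x) * g * (g⁻¹ * C.mp (algebraMap K L) w * g) =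
        g⁻¹ * (C.mp (algebraMap K L) (Ψ x) * C.mp (algebraMap K L) w) * g := by group
    rw [e1, e2, ← map_mul, ← map_mul, hc]
  apply C.mp_injective (algebraMap K L) (algebraMap K L).injective
  rw [map_one]
  have e : C.mp (algebraMap K L) w = g * (g⁻¹ * C.mp (algebraMap K L) w * g) * g⁻¹ := by group
  rw [e, h1]
  group

end Pool.Agent.H75.UL
end

section
/- module Pool.Agent.H86.UM.ZTs -/
/-!
# Project UM, Suzuki-Ree groups, module ZTs: the three types satisfy `Swap`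

`scale`: write `v, w` (invariant under `ρ`, e.g. `v 2 = v 0` for `A₃`) in coordinates and expand
(`SLC.ip`, `Fin.sum_univ_succ`, `Matrix.mulVec`, `dotProduct`), `ring`. `D.m` is known (`dA3_m`, ..).
`SameCycle`: give the power (`0` or `1` or `2`) and `decide`.
-/

set_option autoImplicit false
open Matrix

namespace Pool.Agent.H86.UM

open Pool.Agent.H75.UL

theorem swap_A3 : Swap dA3 tA3 where
  na := by
    show ∀ i, cA3.A i (dA3.ρ i) ≠ -1
    decide
  m_ne := by rw [dA3_m]; norm_num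
  fix_iff := by decide
  rho := by decide
  inv := by
    have h : ∀ j : Fin 3, (dA3.ρ ^ 0) j = tA3 (tA3 j) ∨ (dA3.ρ ^ 1) j = tA3 (tA3 j) := by decide
    intro j
    rcases h j with h | h
    · exact ⟨(0 : ℕ), by rw [zpow_natCast]; exact h⟩
    · exact ⟨(1 : ℕ), by rw [zpow_natCast]; exact h⟩
  scale := by
    intro v w hv hw
    have v2 : v 2 = v 0 := congrFun hv 0
    have w2 : w 2 = w 0 := congrFun hw 0
    have p0 : ¬ (dA3.ρ 0 = 0) := by decide
    have p1 : dA3.ρ 1 = 1 := by decide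
    have p2 : ¬ (dA3.ρ 2 = 2) := by decide
    have hT : ∀ u : Fin 3 → ℤ, TT dA3 tA3 u = ![u 1, 2 * u 0, u 1] := by
      intro u
      funext j
      fin_cases j
      · show (if dA3.ρ 0 = 0 then (dA3.m : ℤ) else 1) * u 1 = u 1
        rw [if_neg p0, one_mul]
      · show (if dA3.ρ 1 = 1 then (dA3.m : ℤ) else 1) * u 0 = 2 * u 0
        rw [if_pos p1, dA3_m]
        norm_num
      · show (if dA3.ρ 2 = 2 then (dA3.m : ℤ) else 1) * u 1 = u 1
        rw [if_neg p2, one_mul]
    have hv' : v = ![v 0, v 1, v 0] := by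
      funext j
      fin_cases j
      · rfl
      · rfl
      · exact v2
    have hw' : w = ![w 0, w 1, w 0] := by
      funext j
      fin_cases j
      · rfl
      · rfl
      · exact w2
    rw [hT v, hT w, dA3_m]
    conv_rhs => rw [hv', hw']
    generalize v 0 = a, v 1 = b, w 0 = c, w 1 = d
    simp [SLC.ip, cA3, Matrix.mulVec, dotProduct, Fin.sum_univ_succ]
    ring

theorem swap_D4 : Swap dD4 tD4 where
  na := by
    show ∀ i, cD4.A i (dD4.ρ i) ≠ -1
    decide
  m_ne := by rw [dD4_m]; norm_num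
  fix_iff := by decide
  rho := by decide
  inv := by
    have h : ∀ j : Fin 4, (dD4.ρ ^ 0) j = tD4 (tD4 j) ∨ (dD4.ρ ^ 1) j = tD4 (tD4 j) ∨
        (dD4.ρ ^ 2) j = tD4 (tD4 j) := by decide
    intro j
    rcases h j with h | h | h
    · exact ⟨(0 : ℕ), by rw [zpow_natCast]; exact h⟩
    · exact ⟨(1 : ℕ), by rw [zpow_natCast]; exact h⟩
    · exact ⟨(2 : ℕ), by rw [zpow_natCast]; exact h⟩
  scale := by
    intro v w hv hw
    have hv2 : v 0 = v 2 := congrFun hv 2
    have hv3 : v 2 = v 3 := congrFun hv 3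
    have hw2 : w 0 = w 2 := congrFun hw 2
    have hw3 : w 2 = w 3 := congrFun hw 3
    have p0 : ¬ (dD4.ρ 0 = 0) := by decide
    have p1 : dD4.ρ 1 = 1 := by decide
    have p2 : ¬ (dD4.ρ 2 = 2) := by decide
    have p3 : ¬ (dD4.ρ 3 = 3) := by decide
    have hT : ∀ u : Fin 4 → ℤ, TT dD4 tD4 u = ![u 1, 3 * u 0, u 1, u 1] := by
      intro u
      funext j
      fin_cases j
      · show (if dD4.ρ 0 = 0 then (dD4.m : ℤ) else 1) * u 1 = u 1
        rw [if_neg p0, one_mul]
      · show (if dD4.ρ 1 = 1 then (dD4.m : ℤ) else 1) * u 0 = 3 * u 0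
        rw [if_pos p1, dD4_m]
        norm_num
      · show (if dD4.ρ 2 = 2 then (dD4.m : ℤ) else 1) * u 1 = u 1
        rw [if_neg p2, one_mul]
      · show (if dD4.ρ 3 = 3 then (dD4.m : ℤ) else 1) * u 1 = u 1
        rw [if_neg p3, one_mul]
    have hv' : v = ![v 0, v 1, v 0, v 0] := by
      funext j
      fin_cases j
      · rfl
      · rfl
      · exact hv2.symm
      · exact (hv2.trans hv3).symm
    have hw' : w = ![w 0, w 1, w 0, w 0] := by
      funext j
      fin_cases j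
      · rfl
      · rfl
      · exact hw2.symm
      · exact (hw2.trans hw3).symm
    rw [hT v, hT w, dD4_m]
    conv_rhs => rw [hv', hw']
    generalize v 0 = a, v 1 = b, w 0 = c, w 1 = d
    simp [SLC.ip, cD4, Matrix.mulVec, dotProduct, Fin.sum_univ_succ]
    ring

theorem swap_E6 : Swap dE6 tE6 where
  na := by
    show ∀ i, cE6.A i (dE6.ρ i) ≠ -1
    decide
  m_ne := by rw [dE6_m]; norm_num
  fix_iff := by decide
  rho := by decide
  inv := by
    have h : ∀ j : Fin 6, (dE6.ρ ^ 0) j = tE6 (tE6 j) ∨ (dE6.ρ ^ 1) j = tE6 (tE6 j) := by decide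
    intro j
    rcases h j with h | h
    · exact ⟨(0 : ℕ), by rw [zpow_natCast]; exact h⟩
    · exact ⟨(1 : ℕ), by rw [zpow_natCast]; exact h⟩
  scale := by
    intro v w hv hw
    have hv5 : v 5 = v 0 := congrFun hv 0
    have hv4 : v 4 = v 2 := congrFun hv 2
    have hw5 : w 5 = w 0 := congrFun hw 0
    have hw4 : w 4 = w 2 := congrFun hw 2
    have p0 : ¬ (dE6.ρ 0 = 0) := by decide
    have p1 : dE6.ρ 1 = 1 := by decide
    have p2 : ¬ (dE6.ρ 2 = 2) := by decide
    have p3 : dE6.ρ 3 = 3 := by decide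
    have p4 : ¬ (dE6.ρ 4 = 4) := by decide
    have p5 : ¬ (dE6.ρ 5 = 5) := by decide
    have hT : ∀ u : Fin 6 → ℤ, TT dE6 tE6 u = ![u 1, 2 * u 0, u 3, 2 * u 2, u 3, u 1] := by
      intro u
      funext j
      fin_cases j
      · show (if dE6.ρ 0 = 0 then (dE6.m : ℤ) else 1) * u 1 = u 1
        rw [if_neg p0, one_mul]
      · show (if dE6.ρ 1 = 1 then (dE6.m : ℤ) else 1) * u 0 = 2 * u 0
        rw [if_pos p1, dE6_m]
        norm_num
      · show (if dE6.ρ 2 = 2 then (dE6.m : ℤ) else 1) * u 3 = u 3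
        rw [if_neg p2, one_mul]
      · show (if dE6.ρ 3 = 3 then (dE6.m : ℤ) else 1) * u 2 = 2 * u 2
        rw [if_pos p3, dE6_m]
        norm_num
      · show (if dE6.ρ 4 = 4 then (dE6.m : ℤ) else 1) * u 3 = u 3
        rw [if_neg p4, one_mul]
      · show (if dE6.ρ 5 = 5 then (dE6.m : ℤ) else 1) * u 1 = u 1
        rw [if_neg p5, one_mul]
    have hv' : v = ![v 0, v 1, v 2, v 3, v 2, v 0] := by
      funext j
      fin_cases j
      · rfl
      · rfl
      · rfl
      · rfl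
      · exact hv4
      · exact hv5
    have hw' : w = ![w 0, w 1, w 2, w 3, w 2, w 0] := by
      funext j
      fin_cases j
      · rfl
      · rfl
      · rfl
      · rfl
      · exact hw4
      · exact hw5
    rw [hT v, hT w, dE6_m]
    conv_rhs => rw [hv', hw']
    generalize v 0 = a, v 1 = b, v 2 = c, v 3 = d, w 0 = a', w 1 = b', w 2 = c', w 3 = d'
    simp [SLC.ip, cE6, Matrix.mulVec, dotProduct, Fin.sum_univ_succ]
    ring

end Pool.Agent.H86.UM
end

section
/- module Pool.Agent.H75.US.S0 -/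
/-!
# Project US (MP_978914_al): chains of Suzuki-Ree groups. Definitions.

`GF D K`, `Esr D σ`, `SRs D t0 θ σ`, `Swap D t0`, `yb`, `yg` are in H86/UM (Z0.lean, Env.lean).
`IsSRad D t0 G`: `G` is isomorphic to some `Esr D σ` (adjoint version, no central quotient needed).
`SD D t0 G`: the data of such an isomorphism, over an infinite field.
`Rig D t0`: the rigidity theorem. `SRT D t0`: what is used about the three types.
-/

set_option autoImplicit false
open Matrix
universe u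
namespace Pool.Agent.H75.UL

open Pool.Agent.H86 Pool.Agent.H86.UM

variable {n : ℕ} {C : SLC n}

/-- `G` is isomorphic to a group `Esr D σ`. -/
def IsSRad (D : Dg C) (t0 : Fin n → Fin n) (G : Type u) [Group G] : Prop :=
  ∃ (K : Type u) (_ : Field K) (θ : K ≃+* K) (σ : GF D K →* GF D K), SRs D t0 θ σ ∧
    Nonempty (G ≃* Esr D σ)

/-- An isomorphism of `G` with a group `Esr D σ` over an infinite field. -/
structure SD (D : Dg C) (t0 : Fin n → Fin n) (G : Type u) [Group G] where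
  K : Type u
  [fK : Field K]
  inf : Infinite K
  θ : K ≃+* K
  σ : GF D K →* GF D K
  hσ : SRs D t0 θ σ
  e : G ≃* Esr D σ

attribute [instance] SD.fK SD.inf

/-- The matrix of an element of `Esr D σ`. -/
abbrev em {D : Dg C} {K : Type u} [Field K] {σ : GF D K →* GF D K} (x : Esr D σ) : GL C.Idx K :=
  ((x : GF D K) : GL C.Idx K)

theorem em_injective {D : Dg C} {K : Type u} [Field K] {σ : GF D K →* GF D K} :
    Function.Injective (em : Esr D σ → GL C.Idx K) := fun x y h =>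
  Subtype.ext (Subtype.ext h)

/-- Rigidity: an injective homomorphism between two groups `Esr` is the composition of a field
homomorphism compatible with `θ`, `θ'`, a diagonal automorphism and an inner automorphism. -/
def Rig (D : Dg C) (t0 : Fin n → Fin n) : Prop :=
  ∀ (K K' : Type u) [Field K] [Field K'] [Infinite K] (θ : K ≃+* K) (θ' : K' ≃+* K')
    (σ : GF D K →* GF D K) (σ' : GF D K' →* GF D K'), SRs D t0 θ σ → SRs D t0 θ' σ' →
    ∀ Ψ : Esr D σ →* Esr D σ', Function.Injective Ψ →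
    ∃ (φ : K →+* K') (g : Esr D σ') (cc : Fin n → K'ˣ), (∀ t, φ (θ t) = θ' (φ t)) ∧
      (∀ j, cc (D.ρ j) = cc j) ∧ (∀ j, D.ρ j ≠ j → (cc (t0 j) : K') = θ' (cc j)) ∧
      ∀ x : Esr D σ, em (Ψ x) = em g * (UM.tad C cc * C.mp φ (em x) * (UM.tad C cc)⁻¹) * (em g)⁻¹

/-- What is used about the three types. -/
structure SRT (D : Dg C) (t0 : Fin n → Fin n) : Prop where
  swap : Swap D t0
  /-- the adjoint representation is injective on the folded universal group -/
  inj : ∀ (K : Type u) [Field K], CharP K D.m → ∀ x ∈ EE D K (RingEquiv.refl K),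
    pa C K x = 1 → x = 1
  center : ∀ (K : Type u) [Field K] [Infinite K] (θ : K ≃+* K) (σ : GF D K →* GF D K),
    SRs D t0 θ σ → Subgroup.center (Esr D σ) = ⊥
  rigid : Rig.{u} D t0

/-- `a` induces an automorphism of `Esr D σ` by conjugation. -/
structure AutSR (D : Dg C) {K : Type u} [Field K] (σ : GF D K →* GF D K) (a : GL C.Idx K) :
    Prop where
  img : ∀ x : Esr D σ, ∃ y : Esr D σ, em y = a * em x * a⁻¹
  inv : ∀ x : Esr D σ, ∃ y : Esr D σ, em y = a⁻¹ * em x * a

end Pool.Agent.H75.UL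
end

section
/- module Pool.Agent.H75.US.S2 -/
/-!
# Project US, module S2: functoriality of the folded groups and of `Esr`

`mp_yb`: `yb` is a product of `s^l (xg β t) = xg (r^l β) (± t)` (`IsSig.iter` with `θ = 1`), and `C.mp φ (xg β t) =
xg β (φ t)` (search for `mp_xg`). `mp_GF`: `GF D K` is generated by `fixU` and `fixUm`; `C.mp φ` maps `U 1` to
`U 1`, `Um` to `Um` and commutes with `sgl 1` (`sgl_mp`). `mG_sig`: both sides are homomorphisms; by
`GF_gen` it is enough to compare them on `yg (± simple j) t` (`SRs.pos`, `SRs.neg`, `mp_yb`; `φ` commutes with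
`th` as `φ (θ.symm t) = θ'.symm (φ t)`).
-/

set_option autoImplicit false
open Matrix
universe u
namespace Pool.Agent.H75.UL

open Pool.Agent.H86 Pool.Agent.H86.UM

variable {n : ℕ} {C : SLC n} {D : Dg C} {t0 : Fin n → Fin n}

private theorem S2_iter (D : Dg C) {K K' : Type*} [Field K] [Field K'] (φ : K →+* K') (l : ℕ)
    (g : GL C.Idx K) : C.mp φ ((D.sgl (RingEquiv.refl K))^[l] g) =
      (D.sgl (RingEquiv.refl K'))^[l] (C.mp φ g) := by
  induction l with
  | zero => rfl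
  | succ l ih =>
    rw [Function.iterate_succ_apply', Function.iterate_succ_apply',
      sgl_mp D (RingEquiv.refl K) (RingEquiv.refl K') φ (fun t => rfl), ih]

theorem mp_yb (D : Dg C) {K K' : Type*} [Field K] [Field K'] (φ : K →+* K') (β : C.Root) (t : K) :
    C.mp φ (yb D (C.adS K) (D.sgl (RingEquiv.refl K)) β t) =
      yb D (C.adS K') (D.sgl (RingEquiv.refl K')) β (φ t) := by
  unfold yb
  rw [map_list_prod, List.map_map]
  congr 1
  apply List.map_congr_left
  intro l _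
  change C.mp φ ((D.sgl (RingEquiv.refl K))^[l] (C.xg K β t)) =
    (D.sgl (RingEquiv.refl K'))^[l] (C.xg K' β (φ t))
  rw [S2_iter, SLC.mp_xg]

private theorem S2_fixU (D : Dg C) {K K' : Type*} [Field K] [Field K'] (φ : K →+* K')
    (x : GL C.Idx K) (hx : x ∈ fixU (C.adS K) (D.sgl (RingEquiv.refl K))) :
    C.mp φ x ∈ fixU (C.adS K') (D.sgl (RingEquiv.refl K')) := by
  obtain ⟨h1, h2⟩ := hx
  refine ⟨C.mp_U φ 1 x h1, ?_⟩
  change D.sgl (RingEquiv.refl K') (C.mp φ x) = C.mp φ x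
  rw [← sgl_mp D (RingEquiv.refl K) (RingEquiv.refl K') φ (fun t => rfl)]
  exact congrArg (C.mp φ) h2

private theorem S2_Um (D : Dg C) {K K' : Type*} [Field K] [Field K'] (φ : K →+* K')
    (x : GL C.Idx K) (hx : x ∈ (C.adS K).Um) : C.mp φ x ∈ (C.adS K').Um := by
  have h1 : (C.adS K).Um ≤ ((C.adS K').Um).comap (C.mp φ) := by
    unfold StSys.Um
    rw [Subgroup.closure_le]
    rintro x ⟨β, t, hβ, rfl⟩
    change C.mp φ (C.xg K β t) ∈ (C.adS K').Um
    rw [SLC.mp_xg]
    exact Subgroup.subset_closure ⟨β, φ t, hβ, rfl⟩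
  exact h1 hx

private theorem S2_fixUm (D : Dg C) {K K' : Type*} [Field K] [Field K'] (φ : K →+* K')
    (x : GL C.Idx K) (hx : x ∈ fixUm (C.adS K) (D.sgl (RingEquiv.refl K))) :
    C.mp φ x ∈ fixUm (C.adS K') (D.sgl (RingEquiv.refl K')) := by
  obtain ⟨h1, h2⟩ := hx
  refine ⟨S2_Um D φ x h1, ?_⟩
  change D.sgl (RingEquiv.refl K') (C.mp φ x) = C.mp φ x
  rw [← sgl_mp D (RingEquiv.refl K) (RingEquiv.refl K') φ (fun t => rfl)]
  exact congrArg (C.mp φ) h2

theorem mp_GF (D : Dg C) {K K' : Type*} [Field K] [Field K'] (φ : K →+* K') (x : GL C.Idx K)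
    (hx : x ∈ GF D K) : C.mp φ x ∈ GF D K' := by
  have h1 : GF D K ≤ (GF D K').comap (C.mp φ) := by
    refine sup_le ?_ ?_
    · intro y hy
      exact (le_sup_left : fixU _ _ ≤ GF D K') (S2_fixU D φ y hy)
    · intro y hy
      exact (le_sup_right : fixUm _ _ ≤ GF D K') (S2_fixUm D φ y hy)
  exact h1 hx

/-- The homomorphism of the folded groups induced by a field homomorphism. -/
noncomputable def mG (D : Dg C) {K K' : Type*} [Field K] [Field K'] (φ : K →+* K') :
    GF D K →* GF D K' where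
  toFun x := ⟨C.mp φ (x : GL C.Idx K), mp_GF D φ _ x.2⟩
  map_one' := Subtype.ext (by simp)
  map_mul' x y := Subtype.ext (by simp)

theorem mG_val {K K' : Type*} [Field K] [Field K'] (φ : K →+* K') (x : GF D K) :
    (mG D φ x : GL C.Idx K') = C.mp φ (x : GL C.Idx K) := rfl

theorem mG_injective {K K' : Type*} [Field K] [Field K'] (φ : K →+* K') :
    Function.Injective (mG D φ) := by
  intro x y h
  apply Subtype.ext
  apply C.mp_injective φ φ.injective
  have h1 := congrArg (fun z : GF D K' => (z : GL C.Idx K')) h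
  exact h1

theorem mG_comp {K K' K'' : Type*} [Field K] [Field K'] [Field K''] (φ : K →+* K')
    (φ' : K' →+* K'') (φ'' : K →+* K'') (h : ∀ t, φ' (φ t) = φ'' t) (x : GF D K) :
    mG D φ' (mG D φ x) = mG D φ'' x := by
  apply Subtype.ext
  rw [mG_val, mG_val, mG_val]
  apply Units.ext
  ext a b
  rw [SLC.mp_val, SLC.mp_val, SLC.mp_val, Matrix.map_apply, Matrix.map_apply, Matrix.map_apply, h]

theorem mG_yg (hN : D.NA) {K K' : Type*} [Field K] [Field K'] (φ : K →+* K') (β : C.Root)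
    (t : K) : mG D φ (yg hN β t) = yg hN β (φ t) := by
  apply Subtype.ext
  rw [mG_val, yg_val, yg_val, mp_yb]

theorem mG_FU {K K' : Type*} [Field K] [Field K'] (φ : K →+* K') (x : GF D K)
    (hx : x ∈ FU D K) : mG D φ x ∈ FU D K' := by
  have h1 : (x : GL C.Idx K) ∈ fixU (C.adS K) (D.sgl (RingEquiv.refl K)) := hx
  have h2 : ((mG D φ x : GF D K') : GL C.Idx K') ∈
      fixU (C.adS K') (D.sgl (RingEquiv.refl K')) := by
    rw [mG_val]
    exact S2_fixU D φ _ h1
  exact h2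

theorem mG_FUm {K K' : Type*} [Field K] [Field K'] (φ : K →+* K') (x : GF D K)
    (hx : x ∈ FUm D K) : mG D φ x ∈ FUm D K' := by
  have h1 : (x : GL C.Idx K) ∈ fixUm (C.adS K) (D.sgl (RingEquiv.refl K)) := hx
  have h2 : ((mG D φ x : GF D K') : GL C.Idx K') ∈
      fixUm (C.adS K') (D.sgl (RingEquiv.refl K')) := by
    rw [mG_val]
    exact S2_fixUm D φ _ h1
  exact h2

private theorem S2_th (D : Dg C) {K K' : Type*} [Field K] [Field K'] (φ : K →+* K')
    {θ : K ≃+* K} {θ' : K' ≃+* K'} (hφ : ∀ t, φ (θ t) = θ' (φ t)) (β : C.Root) (t : K) :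
    φ (th D θ β t) = th D θ' β (φ t) := by
  unfold th
  split_ifs
  · apply θ'.injective
    rw [← hφ, RingEquiv.apply_symm_apply, RingEquiv.apply_symm_apply]
  · exact hφ t

theorem mG_sig (hS : Swap D t0) {K K' : Type*} [Field K] [Field K'] [Infinite K] (φ : K →+* K')
    {θ : K ≃+* K} {θ' : K' ≃+* K'} (hφ : ∀ t, φ (θ t) = θ' (φ t)) {σ : GF D K →* GF D K}
    {σ' : GF D K' →* GF D K'} (h : SRs D t0 θ σ) (h' : SRs D t0 θ' σ') (x : GF D K) :
    σ' (mG D φ x) = mG D φ (σ x) := by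
  have h0 : (σ'.comp (mG D φ)) = (mG D φ).comp σ := by
    apply MonoidHom.eq_of_eqOn_dense (GF_gen (D := D) hS.na (k := K))
    rintro g ⟨j, t, rfl | rfl⟩
    · change σ' (mG D φ (yg hS.na (C.simple j) t)) = mG D φ (σ (yg hS.na (C.simple j) t))
      rw [mG_yg]
      apply Subtype.ext
      rw [h'.pos j (φ t) _ (yg_val hS.na _ _), mG_val, h.pos j t _ (yg_val hS.na _ _), mp_yb,
        S2_th D φ hφ]
    · change σ' (mG D φ (yg hS.na (-(C.simple j)) t)) =
        mG D φ (σ (yg hS.na (-(C.simple j)) t))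
      rw [mG_yg]
      apply Subtype.ext
      rw [h'.neg j (φ t) _ (yg_val hS.na _ _), mG_val, h.neg j t _ (yg_val hS.na _ _), mp_yb,
        S2_th D φ hφ]
  exact DFunLike.congr_fun h0 x

theorem mG_Esr {K K' : Type*} [Field K] [Field K'] (φ : K →+* K') {σ : GF D K →* GF D K}
    {σ' : GF D K' →* GF D K'} (h : ∀ x, σ' (mG D φ x) = mG D φ (σ x)) (x : GF D K)
    (hx : x ∈ Esr D σ) : mG D φ x ∈ Esr D σ' := by
  have hF : ∀ y : GF D K, y ∈ Fx σ → mG D φ y ∈ Fx σ' := by
    intro y hy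
    rw [mem_Fx] at hy ⊢
    rw [h, hy]
  have h1 : Esr D σ ≤ (Esr D σ').comap (mG D φ) := by
    refine sup_le ?_ ?_
    · rintro y ⟨hy1, hy2⟩
      exact (le_sup_left : FU D K' ⊓ Fx σ' ≤ Esr D σ') ⟨mG_FU φ y hy1, hF y hy2⟩
    · rintro y ⟨hy1, hy2⟩
      exact (le_sup_right : FUm D K' ⊓ Fx σ' ≤ Esr D σ') ⟨mG_FUm φ y hy1, hF y hy2⟩
  exact h1 hx

end Pool.Agent.H75.UL
end
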