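import Pool.Agent.H86.AL.M06
import Pool.Agent.H86.AL.M07
import Pool.Agent.H86.AL.M08
import Pool.Agent.H86.AL.M09
import Pool.Agent.H86.AL.M10
import Pool.Agent.H86.AL.M11
import Pool.Agent.H86.AL.M13
import Pool.Agent.H86.AL.M14
import Pool.Agent.H86.AL.M16

/-!
# M23: collected modules

Pool.Agent.H75.UE.E0n
Pool.Agent.H75.UL.P5a
Pool.Agent.H75.UL.P5c
Pool.Agent.H75.UL.C2
Pool.Agent.H75.UL.C4
Pool.Agent.H75.UK.FG
-/

section
/- module Pool.Agent.H75.UE.E0n -/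
/-!
# Project UE, module E0n: the opposite environment

`exists_om`: the matrix `ω` with `ω (inl i) (inl i) = -1`, `ω (inr (-β)) (inr β) = 1`, other entries `0`:
copy the private lemmas of UT/D7i (`D7i_om`, `D7i_om_E`, `D7i_om_F`, ...). `Env_neg`: `p' x = ω * p x * ω⁻¹`,
`S.neg.x β t = S.x (-β) t` (`neg_x`), `IsSig.neg`; the other fields are the same. `inO_neg`: `r_neg`.
-/

set_option autoImplicit false
open Matrix
universe u
namespace Pool.Agent.H75.UL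

open Pool.Agent.H86.UM

variable {n : ℕ} {C : SLC n} {D : Dg C} {k : Type*} [Field k] {θ : k ≃+* k} {H : Type*} [Group H]
  {S : StSys C k H} {s : H →* H} {p : H →* GL C.Idx k}

section
variable {F : Type*} [Field F]

/-- The matrix of the opposition involution. -/
private def E0n_om (C : SLC n) : Matrix C.Idx C.Idx ℤ := fun a b =>
  match a, b with
  | Sum.inl i, Sum.inl j => if i = j then -1 else 0
  | Sum.inr γ, Sum.inr β => if γ = -β then 1 else 0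
  | Sum.inl _, Sum.inr _ => 0
  | Sum.inr _, Sum.inl _ => 0

private theorem E0n_neg_neg (β : C.Root) : - -β = β := by
  apply SLC.Root.ext
  rw [SLC.Root.neg_val, SLC.Root.neg_val, neg_neg]

private theorem E0n_om_mul (M : Matrix C.Idx C.Idx ℤ) (a b : C.Idx) :
    (E0n_om C * M) a b = match a with
      | Sum.inl i => - M (Sum.inl i) b
      | Sum.inr γ => M (Sum.inr (-γ)) b := by
  rw [Matrix.mul_apply, Fintype.sum_sum_type]
  rcases a with i | γ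
  · simp only [E0n_om, zero_mul, Finset.sum_const_zero, add_zero]
    rw [Finset.sum_eq_single i]
    · simp
    · intro j _ hj
      rw [if_neg (Ne.symm hj), zero_mul]
    · intro h
      exact absurd (Finset.mem_univ i) h
  · simp only [E0n_om, zero_mul, Finset.sum_const_zero, zero_add]
    rw [Finset.sum_eq_single (-γ)]
    · rw [E0n_neg_neg, if_pos rfl, one_mul]
    · intro j _ hj
      rw [if_neg, zero_mul]
      intro h
      apply hj
      rw [h, E0n_neg_neg]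
    · intro h
      exact absurd (Finset.mem_univ _) h

private theorem E0n_mul_om (M : Matrix C.Idx C.Idx ℤ) (a b : C.Idx) :
    (M * E0n_om C) a b = match b with
      | Sum.inl i => - M a (Sum.inl i)
      | Sum.inr γ => M a (Sum.inr (-γ)) := by
  rw [Matrix.mul_apply, Fintype.sum_sum_type]
  rcases b with i | γ
  · simp only [E0n_om, mul_zero, Finset.sum_const_zero, add_zero]
    rw [Finset.sum_eq_single i]
    · simp
    · intro j _ hj
      rw [if_neg hj, mul_zero]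
    · intro h
      exact absurd (Finset.mem_univ i) h
  · simp only [E0n_om, mul_zero, Finset.sum_const_zero, zero_add]
    rw [Finset.sum_eq_single (-γ)]
    · rw [if_pos rfl, mul_one]
    · intro j _ hj
      rw [if_neg hj, mul_zero]
    · intro h
      exact absurd (Finset.mem_univ _) h

private theorem E0n_om_sq : E0n_om C * E0n_om C = 1 := by
  ext a b
  rw [E0n_om_mul]
  rcases a with i | γ <;> rcases b with j | β
  · simp only [E0n_om, Matrix.one_apply, Sum.inl.injEq]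
    split_ifs <;> rfl
  · simp [E0n_om]
  · simp [E0n_om]
  · simp only [E0n_om, Matrix.one_apply, Sum.inr.injEq]
    have h : -γ = -β ↔ γ = β := by
      constructor
      · intro h
        rw [← E0n_neg_neg γ, h, E0n_neg_neg]
      · intro h
        rw [h]
    simp only [h]

private theorem E0n_eps (v w : Fin n → ℤ) : C.eps (-v) (-w) = C.eps v w := by
  unfold SLC.eps SLC.hf
  rw [Matrix.mulVec_neg, neg_dotProduct, dotProduct_neg, neg_neg]

private theorem E0n_om_E (α : C.Root) : E0n_om C * C.E α = C.E (-α) * E0n_om C := by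
  ext a b
  rw [E0n_om_mul, E0n_mul_om]
  rcases a with i | γ <;> rcases b with j | β
  · simp [SLC.E]
  · simp only [SLC.E, SLC.Root.neg_val, Pi.neg_apply, neg_neg]
    have h : -β.1 = α.1 ↔ β.1 = -α.1 := neg_eq_iff_eq_neg
    simp only [h]
    split_ifs <;> simp
  · simp only [SLC.E, SLC.Root.neg_val]
    have h : -γ.1 = α.1 ↔ γ.1 = -α.1 := neg_eq_iff_eq_neg
    simp only [h]
    split_ifs
    · rw [SLC.ip_neg_right]
      ring
    · simp
  · simp only [SLC.E, SLC.Root.neg_val, E0n_eps]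
    have h : -γ.1 = α.1 + β.1 ↔ γ.1 = -α.1 + -β.1 := by
      rw [neg_eq_iff_eq_neg, neg_add]
    simp only [h]

private theorem E0n_om_F (α : C.Root) : E0n_om C * C.F α = C.F (-α) * E0n_om C := by
  ext a b
  rw [E0n_om_mul, E0n_mul_om]
  rcases a with i | γ <;> rcases b with j | β
  · simp [SLC.F]
  · simp [SLC.F]
  · simp [SLC.F]
  · simp only [SLC.F, SLC.Root.neg_val, neg_neg]
    have h : -γ.1 = α.1 ↔ γ.1 = -α.1 := neg_eq_iff_eq_neg
    have h' : -β.1 = α.1 ↔ β.1 = -α.1 := neg_eq_iff_eq_neg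
    simp only [h, h']

private def E0n_O (C : SLC n) (F : Type*) [Field F] : Matrix C.Idx C.Idx F :=
  (E0n_om C).map (Int.castRingHom F)

private theorem E0n_O_sq : E0n_O C F * E0n_O C F = 1 := by
  unfold E0n_O
  rw [← Matrix.map_mul, E0n_om_sq, Matrix.map_one _ (map_zero _) (map_one _)]

private theorem E0n_O_X (α : C.Root) (t : F) :
    E0n_O C F * C.X F α t = C.X F (-α) t * E0n_O C F := by
  have h1 : E0n_O C F * (C.E α).map (Int.cast : ℤ → F) =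
      (C.E (-α)).map (Int.cast : ℤ → F) * E0n_O C F := by
    have := congrArg (fun M : Matrix C.Idx C.Idx ℤ => M.map (Int.castRingHom F)) (E0n_om_E α)
    simp only [Matrix.map_mul] at this
    exact this
  have h2 : E0n_O C F * (C.F α).map (Int.cast : ℤ → F) =
      (C.F (-α)).map (Int.cast : ℤ → F) * E0n_O C F := by
    have := congrArg (fun M : Matrix C.Idx C.Idx ℤ => M.map (Int.castRingHom F)) (E0n_om_F α)
    simp only [Matrix.map_mul] at this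
    exact this
  unfold SLC.X
  simp only [add_mul, mul_add, one_mul, mul_one, smul_mul_assoc, mul_smul_comm, h1, h2]

private noncomputable def E0n_g (C : SLC n) (F : Type*) [Field F] : GL C.Idx F where
  val := E0n_O C F
  inv := E0n_O C F
  val_inv := E0n_O_sq
  inv_val := E0n_O_sq

private theorem E0n_g_xg (α : C.Root) (t : F) :
    E0n_g C F * C.xg F α t = C.xg F (-α) t * E0n_g C F := by
  apply Units.ext
  exact E0n_O_X α t

end

theorem exists_om (C : SLC n) (F : Type*) [Field F] :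
    ∃ ω : GL C.Idx F, ∀ β t, ω * C.xg F β t * ω⁻¹ = C.xg F (-β) t :=
  ⟨E0n_g C F, fun β t => by rw [E0n_g_xg, mul_inv_cancel_right]⟩

theorem Env_neg (he : Env D θ S s p) : ∃ p' : H →* GL C.Idx k, Env D θ S.neg s p' := by
  obtain ⟨ω, hω⟩ := exists_om C k
  refine ⟨(MulAut.conj ω).toMonoidHom.comp p, he.inf, he.sig.neg, fun β t => ?_, he.hθ, he.hA,
    he.hB, he.hC⟩
  change ω * p (S.neg.x β t) * ω⁻¹ = C.xg k β t
  rw [StSys.neg_x, he.hp, hω, C.neg_neg_root]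

private theorem E0n_iter (D : Dg C) (l : ℕ) (β : C.Root) : D.r^[l] (-β) = -(D.r^[l] β) := by
  induction l with
  | zero => rfl
  | succ l ih => rw [Function.iterate_succ_apply', ih, D.r_neg, Function.iterate_succ_apply']

private theorem E0n_inO (D : Dg C) (β γ : C.Root) (h : D.inO β γ) : D.inO (-β) (-γ) := by
  rcases h with ⟨l, rfl⟩ | h
  · exact Or.inl ⟨l, (E0n_iter D l β).symm⟩
  · right
    rw [D.r_neg, SLC.Root.neg_val, SLC.Root.neg_val, SLC.Root.neg_val, h, neg_add]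

theorem fixX_neg (S : StSys C k H) (s : H →* H) (β : C.Root) :
    fixX D S.neg s β = fixX D S s (-β) := by
  have h : XO D S.neg β = XO D S (-β) := by
    unfold XO
    congr 1
    ext g
    constructor
    · rintro ⟨γ, t, hγ, rfl⟩
      exact ⟨-γ, t, E0n_inO D β γ hγ, rfl⟩
    · rintro ⟨γ, t, hγ, rfl⟩
      refine ⟨-γ, t, ?_, ?_⟩
      · have := E0n_inO D (-β) γ hγ
        rwa [C.neg_neg_root] at this
      · rw [StSys.neg_x, C.neg_neg_root]
  unfold fixX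
  rw [h]

end Pool.Agent.H75.UL
end

section
/- module Pool.Agent.H75.UL.P5a -/
/-!
# Project UL (MP_978914_al), module P5a

Standard form on the simple root groups and their negatives.

Hypotheses: `Ψ` maps `S.U 1` into `U 1` and `S.T` into `T`, with the data of `coords`.
`image_simple`: `v, t` from `exists_semiregular`; `τ = Ψ (tor v t)`; `tor v t` commutes with
`S.x α_i s` (`tor_conj`, exponent `ip v α_i = 0`), so `Ψ (S.x α_i s) ∈ U 1` commutes with `τ`, and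
`centralizer_U_single` with `β₀ = simple (π i)` gives `Ψ (S.x α_i s) = xg (simple (π i)) s'`; `xi`
gives `s' = c i * φ s` (`xi_xg`, `hxi`).
`image_neg`: `ν₀ = nn S.x α_i 1`, `g = Ψ ν₀ ∈ Gad`; `τ₀ = Ψ h₀` strongly regular (`exists_regular`);
`g⁻¹ τ₀ g = Ψ (ν₀⁻¹ h₀ ν₀) ∈ T` (`N_conj_T` for `ν₀⁻¹`, hence `Fil 0`), so `g = ν u`
(`torus_chamber`). `S.x (-α_i) s = ν₀ * S.x α_i s * ν₀⁻¹` (`n_conj` with `t = 1`), so
`Ψ (S.x (-α_i) s) = ν y ν⁻¹` with `y = u xg(α_{πi})(c_i φ s) u⁻¹ ∈ U 1`. `τ = Ψ (tor v t)` from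
`exists_semiregular` commutes with it, so `y` commutes with `τ' = ν⁻¹ τ ν ∈ T`, and
`chi τ' γ = chi τ (w γ)` (`Acts ν w`, `T_fix`, `xg_inj`). Exactly one of `w⁻¹ (±α_{πi})` is
positive, call it `γ₀`; for positive `γ ≠ γ₀`, `w γ ≠ ±α_{πi}`, so `chi τ' γ ≠ 1`:
`y = xg γ₀ s'` and `Ψ (S.x (-α_i) s) ∈ xg (w γ₀) K` with `w γ₀ = ±α_{πi}`, the sign not depending on
`s`. The sign is `-`: otherwise `Ψ (S.x (-α_i) s)` and `Ψ (S.x α_i s)` all commute, so
`Ψ (S.x (-α_i) s) = Ψ ν₀ Ψ(S.x α_i s) (Ψ ν₀)⁻¹ = Ψ (S.x α_i s)`; conjugating with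
`Ψ (tor v₁ t)`, `ip α_i v₁ = 2` (`v₁ = single i`; or `hh S.x α_i t`), the left side gets the argument
`t^{-2} s`, the right side `t^2 s`: `φ (t^{-2} s) = φ (t^2 s)`, so `t^4 = 1` for all `t ≠ 0`,
impossible for infinite `k`.
-/

set_option autoImplicit false
open Matrix
universe u
namespace Pool.Agent.H75.UL

namespace SLC
variable {n : ℕ} (C : SLC n) {K : Type*} [Field K]

private theorem P5a_neg_simple_not_pos (j : Fin n) : ¬ C.Pos (-(C.simple j)) := by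
  unfold Pos
  rw [Root.neg_val, ht_neg, ht_simple]
  norm_num

private theorem P5a_neg_neg (β : C.Root) : -(-β) = β := by
  apply Root.ext
  rw [Root.neg_val, Root.neg_val, neg_neg]

private theorem P5a_x_mem {k : Type*} [Field k] {H : Type*} [Group H]
    (S : StSys C k H) (i : Fin n) (s : k) : S.x (C.simple i) s ∈ S.U 1 :=
  Subgroup.subset_closure ⟨C.simple i, s, (C.ht_simple i).ge, rfl⟩

private theorem P5a_comm {k : Type*} [Field k] {H : Type*} [Group H]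
    (S : StSys C k H) (v : Fin n → ℤ) (t : k) (ht : t ≠ 0) (β : C.Root)
    (h : C.ip v β.1 = 0) (s : k) : S.tor v t * S.x β s = S.x β s * S.tor v t := by
  have h1 := S.tor_conj v t ht β s
  rw [h, zpow_zero, one_mul, mul_inv_eq_iff_eq_mul] at h1
  exact h1

private theorem P5a_chi_N (τ ν : GL C.Idx K) (hτ : τ ∈ (C.adS K).T) (w : Equiv.Perm C.Root)
    (hν : ν ∈ (C.adS K).N) (hw : (C.adS K).Acts ν w) (γ : C.Root) :
    C.chi ((ν⁻¹ * τ * ν : GL C.Idx K) : Matrix C.Idx C.Idx K) γ =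
      C.chi (τ : Matrix C.Idx C.Idx K) (w γ) := by
  have hτ' : ν⁻¹ * τ * ν ∈ (C.adS K).T := by
    have h1 := (C.adS K).N_conj_T ν⁻¹ τ (inv_mem hν) hτ
    rwa [inv_inv] at h1
  obtain ⟨c, hc0, hc⟩ := hw
  obtain ⟨h1, h2⟩ := C.T_fix (ν⁻¹ * τ * ν) hτ' γ 1
  obtain ⟨h3, h4⟩ := C.T_fix τ hτ (w γ) (c γ * 1)
  rw [mul_one] at h2
  have h5 := hc γ 1
  have h6 := hc γ (C.chi ((ν⁻¹ * τ * ν : GL C.Idx K) : Matrix C.Idx C.Idx K) γ)
  rw [adS_x] at h5 h6
  rw [← h2] at h6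
  have h7 : ν * (ν⁻¹ * τ * ν * C.xg K γ 1 * (ν⁻¹ * τ * ν)⁻¹) * ν⁻¹
      = τ * (ν * C.xg K γ 1 * ν⁻¹) * τ⁻¹ := by group
  rw [h7, h5, h4] at h6
  have h8 := (C.xg_inj _ _ _ _ (mul_ne_zero h3 (mul_ne_zero (hc0 γ) one_ne_zero)) h6).2
  rw [mul_one] at h8
  have h9 : c γ * C.chi ((ν⁻¹ * τ * ν : GL C.Idx K) : Matrix C.Idx C.Idx K) γ
      = c γ * C.chi (τ : Matrix C.Idx C.Idx K) (w γ) := by
    rw [← h8, mul_comm]
  exact mul_left_cancel₀ (hc0 γ) h9

theorem image_simple {k : Type*} [Field k] [Infinite k] {H : Type*} [Group H]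
    (S : StSys C k H) (Ψ : H →* GL C.Idx K) (hΨ : ∀ β t, Ψ (S.x β t) ∈ C.Gad K)
    (hU : ∀ u ∈ S.U 1, Ψ u ∈ (C.adS K).U 1) (hT : ∀ h ∈ S.T, Ψ h ∈ (C.adS K).T)
    (π : Equiv.Perm (Fin n)) (φ : k →+* K) (c : Fin n → K) (hc : ∀ i, c i ≠ 0)
    (hxi : ∀ i t j, C.xi j (Ψ (S.x (C.simple i) t) : Matrix C.Idx C.Idx K) =
        if j = π i then c i * φ t else 0)
    (hchi : ∀ v t, t ≠ 0 → ∀ i, C.chi (Ψ (S.tor v t) : Matrix C.Idx C.Idx K) (C.simple (π i)) =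
        φ t ^ (C.ip (Pi.single i 1) v)) (i : Fin n) (s : k) :
    Ψ (S.x (C.simple i) s) = C.xg K (C.simple (π i)) (c i * φ s) := by
  have hT0 : ∀ h ∈ S.T, C.Fil 0 (Ψ h : Matrix C.Idx C.Idx K) := fun h hh => C.Fil_T _ (hT h hh)
  obtain ⟨v, t, ht0, hip, hreg, -, -⟩ := C.exists_semiregular S Ψ hΨ hT0 π φ hchi i
  have hτ : Ψ (S.tor v t) ∈ (C.adS K).T := hT _ (S.tor_mem v t ht0)
  have hcomm : Ψ (S.tor v t) * Ψ (S.x (C.simple i) s) = Ψ (S.x (C.simple i) s) * Ψ (S.tor v t) := by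
    rw [← map_mul, P5a_comm C S v t ht0 (C.simple i) hip s, map_mul]
  have hmem := hU _ (P5a_x_mem C S i s)
  obtain ⟨s', hs'⟩ := C.centralizer_U_single _ _ hτ hmem hcomm (C.simple (π i))
    (C.simple_pos (π i)) (fun β hβ hne => hreg β hne (fun h => by
      rw [h] at hβ
      exact P5a_neg_simple_not_pos C (π i) hβ))
  have h1 := hxi i s (π i)
  rw [if_pos rfl, hs', C.xi_xg (π i) (C.simple (π i)) (C.simple_pos (π i)) s', if_pos rfl] at h1
  rw [hs', h1]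

theorem image_neg {k : Type*} [Field k] [Infinite k] {H : Type*} [Group H]
    (S : StSys C k H) (Ψ : H →* GL C.Idx K) (hΨ : ∀ β t, Ψ (S.x β t) ∈ C.Gad K)
    (hU : ∀ u ∈ S.U 1, Ψ u ∈ (C.adS K).U 1) (hT : ∀ h ∈ S.T, Ψ h ∈ (C.adS K).T)
    (π : Equiv.Perm (Fin n)) (φ : k →+* K) (c : Fin n → K) (hc : ∀ i, c i ≠ 0)
    (hxi : ∀ i t j, C.xi j (Ψ (S.x (C.simple i) t) : Matrix C.Idx C.Idx K) =
        if j = π i then c i * φ t else 0)
    (hchi : ∀ v t, t ≠ 0 → ∀ i, C.chi (Ψ (S.tor v t) : Matrix C.Idx C.Idx K) (C.simple (π i)) =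
        φ t ^ (C.ip (Pi.single i 1) v)) (i : Fin n) :
    ∃ f : k → K, ∀ s, Ψ (S.x (-(C.simple i)) s) = C.xg K (-(C.simple (π i))) (f s) := by
  have hT0 : ∀ h ∈ S.T, C.Fil 0 (Ψ h : Matrix C.Idx C.Idx K) := fun h hh => C.Fil_T _ (hT h hh)
  have himg := C.image_simple S Ψ hΨ hU hT π φ c hc hxi hchi
  -- the element `ν₀`
  have hν₀ : nn S.x (C.simple i) 1 ∈ S.N :=
    Subgroup.subset_closure ⟨C.simple i, 1, one_ne_zero, rfl⟩
  have hg : Ψ (nn S.x (C.simple i) 1) ∈ C.Gad K := by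
    unfold nn
    rw [map_mul, map_mul]
    exact mul_mem (mul_mem (hΨ _ _) (hΨ _ _)) (hΨ _ _)
  obtain ⟨v₀, t₀, ht₀, hr1, hr2⟩ := C.exists_regular S Ψ hΨ hT0 π φ hchi
  have hτ₀ : Ψ (S.tor v₀ t₀) ∈ (C.adS K).T := hT _ (S.tor_mem v₀ t₀ ht₀)
  have hfil : C.Fil 0 (((Ψ (nn S.x (C.simple i) 1))⁻¹ * Ψ (S.tor v₀ t₀) *
      Ψ (nn S.x (C.simple i) 1) : GL C.Idx K) : Matrix C.Idx C.Idx K) := by
    rw [← map_inv, ← map_mul, ← map_mul]
    apply hT0
    have h1 := S.N_conj_T (nn S.x (C.simple i) 1)⁻¹ (S.tor v₀ t₀) (inv_mem hν₀)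
      (S.tor_mem v₀ t₀ ht₀)
    rwa [inv_inv] at h1
  obtain ⟨ν, hν, u, hu, hgν⟩ := C.torus_chamber _ _ hτ₀ hr1 hr2 hg hfil
  obtain ⟨w, hwW, hw, -⟩ := (C.adS K).N_acts ν hν
  -- the negative root elements
  have hneg : ∀ s, S.x (-(C.simple i)) s =
      nn S.x (C.simple i) 1 * S.x (C.simple i) s * (nn S.x (C.simple i) 1)⁻¹ := by
    intro s
    rw [S.n_conj (C.simple i) 1 s one_ne_zero]
    simp
  -- the semiregular element
  obtain ⟨v, t, ht0, hip, hreg, -, -⟩ := C.exists_semiregular S Ψ hΨ hT0 π φ hchi i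
  have hτ : Ψ (S.tor v t) ∈ (C.adS K).T := hT _ (S.tor_mem v t ht0)
  set τ := Ψ (S.tor v t) with hτdef
  have hτ' : ν⁻¹ * τ * ν ∈ (C.adS K).T := by
    have h1 := (C.adS K).N_conj_T ν⁻¹ τ (inv_mem hν) hτ
    rwa [inv_inv] at h1
  have hchi' := P5a_chi_N C τ ν hτ w hν hw
  -- key: a positive root `γ₀` with `w γ₀ = ± α` gives the form of all images
  have key : ∀ γ₀ : C.Root, C.Pos γ₀ →
      (w γ₀ = C.simple (π i) ∨ w γ₀ = -(C.simple (π i))) →
      ∀ s, ∃ r : K, Ψ (S.x (-(C.simple i)) s) = C.xg K (w γ₀) r := by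
    intro γ₀ hγ₀ hw0 s
    set y := u * Ψ (S.x (C.simple i) s) * u⁻¹ with hy
    have hyU : y ∈ (C.adS K).U 1 :=
      mul_mem (mul_mem hu (hU _ (P5a_x_mem C S i s))) (inv_mem hu)
    have himgy : Ψ (S.x (-(C.simple i)) s) = ν * y * ν⁻¹ := by
      rw [hneg s, map_mul, map_mul, map_inv, hgν, hy]
      group
    have hcomm : τ * Ψ (S.x (-(C.simple i)) s) = Ψ (S.x (-(C.simple i)) s) * τ := by
      rw [hτdef, ← map_mul, P5a_comm C S v t ht0 (-(C.simple i)) _ s, map_mul]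
      rw [Root.neg_val, ip_neg_right, hip, neg_zero]
    have hcomm' : ν⁻¹ * τ * ν * y = y * (ν⁻¹ * τ * ν) := by
      rw [himgy] at hcomm
      have h1 : ν⁻¹ * τ * ν * y = ν⁻¹ * (τ * (ν * y * ν⁻¹)) * ν := by group
      rw [h1, hcomm]
      group
    have hw1 : ∀ β, C.Pos β → β ≠ γ₀ →
        C.chi ((ν⁻¹ * τ * ν : GL C.Idx K) : Matrix C.Idx C.Idx K) β ≠ 1 := by
      intro β hβ hne
      rw [hchi']
      have hA : w β ≠ w γ₀ := fun h => hne (w.injective h)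
      have hB : w β ≠ -(w γ₀) := by
        intro h
        rw [← C.W_neg w hwW] at h
        have h1 := w.injective h
        rw [h1] at hβ
        unfold Pos at hβ hγ₀
        rw [Root.neg_val, ht_neg] at hβ
        omega
      rcases hw0 with h0 | h0
      · rw [h0] at hA hB
        exact hreg _ hA hB
      · rw [h0] at hA hB
        rw [P5a_neg_neg] at hB
        exact hreg _ hB hA
    obtain ⟨s', hs'⟩ := C.centralizer_U_single _ _ hτ' hyU hcomm' γ₀ hγ₀ hw1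
    obtain ⟨cc, -, hcc⟩ := hw
    refine ⟨cc γ₀ * s', ?_⟩
    have h2 := hcc γ₀ s'
    rw [adS_x] at h2
    rw [himgy, hs', h2]
  have hwinv : w⁻¹ ∈ C.W := inv_mem hwW
  by_cases hpos : C.Pos (w⁻¹ (C.simple (π i)))
  · -- impossible
    exfalso
    have hw0 : w (w⁻¹ (C.simple (π i))) = C.simple (π i) := by simp
    have key1 := key _ hpos (Or.inl hw0)
    rw [hw0] at key1
    choose f hf using key1
    -- all images commute
    have hcm : ∀ a b : K, C.xg K (C.simple (π i)) a * C.xg K (C.simple (π i)) b =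
        C.xg K (C.simple (π i)) b * C.xg K (C.simple (π i)) a := by
      intro a b
      rw [← C.xg_map_add, ← C.xg_map_add, add_comm]
    have heq : ∀ s, Ψ (S.x (-(C.simple i)) s) = Ψ (S.x (C.simple i) s) := by
      intro s
      have h1 : Ψ (nn S.x (C.simple i) 1) * Ψ (S.x (C.simple i) s) =
          Ψ (S.x (C.simple i) s) * Ψ (nn S.x (C.simple i) 1) := by
        unfold nn
        rw [map_mul, map_mul, himg i 1, himg i s, hf]
        rw [mul_assoc, mul_assoc, hcm _ (c i * φ s), ← mul_assoc (C.xg K (C.simple (π i)) (f _)),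
          hcm (f _) (c i * φ s)]
        simp only [← mul_assoc]
        rw [hcm (c i * φ 1) (c i * φ s)]
      rw [hneg s, map_mul, map_mul, map_inv, h1, mul_inv_cancel_right]
    obtain ⟨t, ht0, ht1⟩ := exists_pow_ne_one (k := k) {4} (by simp)
    have h4 := ht1 4 (by simp)
    have e1 := S.tor_conj (Pi.single i 1) t ht0 (C.simple i) 1
    have e2 := S.tor_conj (Pi.single i 1) t ht0 (-(C.simple i)) 1
    have hipp : C.ip (Pi.single i 1) (C.simple i).1 = 2 := (C.simple i).2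
    rw [hipp, mul_one] at e1
    rw [Root.neg_val, ip_neg_right, hipp, mul_one] at e2
    have e3 : Ψ (S.x (C.simple i) (t ^ (2 : ℤ))) = Ψ (S.x (-(C.simple i)) (t ^ (-2 : ℤ))) := by
      rw [← e1, ← e2, map_mul, map_mul, map_mul, map_mul, heq 1]
    rw [heq, himg, himg] at e3
    have h5 : c i * φ (t ^ (2 : ℤ)) ≠ 0 :=
      mul_ne_zero (hc i) (by
        rw [Ne, map_eq_zero]
        exact zpow_ne_zero 2 ht0)
    have h6 := (C.xg_inj _ _ _ _ h5 e3).2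
    have h7 := φ.injective (mul_left_cancel₀ (hc i) h6)
    apply h4
    have h8 : t ^ (4 : ℤ) = t ^ (2 : ℤ) * t ^ (2 : ℤ) := by
      rw [← zpow_add₀ ht0]
      norm_num
    rw [h8]
    nth_rewrite 1 [h7]
    rw [← zpow_add₀ ht0]
    norm_num
  · have hpos' : C.Pos (w⁻¹ (-(C.simple (π i)))) := by
      rw [C.W_neg _ hwinv]
      exact (C.not_pos_iff _).1 hpos
    have hw0 : w (w⁻¹ (-(C.simple (π i)))) = -(C.simple (π i)) := by simp
    have key1 := key _ hpos' (Or.inr hw0)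
    rw [hw0] at key1
    choose f hf using key1
    exact ⟨f, hf⟩

end SLC

end Pool.Agent.H75.UL
end

section
/- module Pool.Agent.H75.UL.P5c -/
/-!
# Project UL (MP_978914_al), module P5c

Standard form of a homomorphism into the adjoint group (assembly of P1–P5b).

`L = AlgebraicClosure K`, `mp = C.mp (algebraMap K L)`, `Ψ_L = mp ∘ Ψ`; `Ψ_L (S.x θ 1) ≠ 1` (`mp`
injective).
1. `unique_chamber` for `Ψ_L`: `g₀ ∈ Gad L`. `Ψ' = g₀⁻¹ Ψ_L g₀` (`MulAut.conj g₀⁻¹` composed) maps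
   `S.U 1` into `U 1`. For `h ∈ S.T` take `g' = Ψ_L h * g₀` in the uniqueness: for `u ∈ S.U 1`,
   `g'⁻¹ Ψ_L u g' = g₀⁻¹ Ψ_L (h⁻¹ u h) g₀ ∈ U 1` (`T_conj_U` for `h⁻¹`), so
   `g₀⁻¹ Ψ_L h g₀ = g₀⁻¹ g'` satisfies `Fil 0`.
2. `coords` for `Ψ'` over `L`: `π, φ, c`. `conj_torus`: `w ∈ U 1`; `g = g₀ w`. Then
   `g⁻¹ Ψ_L g` maps `S.U 1` into `U 1`, `S.T` into `T`; uniqueness holds for `g`
   (`g⁻¹ g' = w⁻¹ (g₀⁻¹ g')`); `chi` of `w⁻¹ M w` is `chi M` (`chi_mul`, `w ∈ U 1`).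
3. `phi_mem`: `φ = algebraMap ∘ φ₀`.
4. `exists_regular` for `g⁻¹ Ψ_L g`: `v, t`; `h₀ = S.tor v t`; `g⁻¹ mp(Ψ h₀) g ∈ T` is diagonal
   (`T_diag`), its entries at the roots are `φ t ^ e_γ = algebraMap (φ₀ t ^ e_γ)` (`chi_tor`), distinct
   and `≠ 1`. `rational_chamber` with `M = Ψ h₀`: `g₁ ∈ Gad K`, `b = (mp g₁)⁻¹ g` satisfies `Fil 0`.
5. `Ψ₁ = g₁⁻¹ Ψ g₁` over `K`: `mp (Ψ₁ u) = b (g⁻¹ Ψ_L u g) b⁻¹`, so for `u ∈ S.U 1`, `Ψ₁ u` satisfies
   `Fil 0` and is unipotent (`Fil_map_iff`, `nilpotent_map_iff`), so `Ψ₁ u ∈ U 1`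
   (`mem_U_of_unipotent`); for `h ∈ S.T`, `Fil 0 (Ψ₁ h)`.
6. `coords` and `conj_torus` for `Ψ₁` over `K`; `g₂ = g₁ w₁`, `Ψ₂ = g₂⁻¹ Ψ g₂`, `xi` and `chi` of
   `Ψ₂` are those of `Ψ₁` (`xi_conj`, `chi_mul`). `image_simple`, `image_neg`, `neg_coeff`.
-/

set_option autoImplicit false
open Matrix
universe u
namespace Pool.Agent.H75.UL

namespace SLC
variable {n : ℕ} (C : SLC n)

/-- `x ↦ g⁻¹ Ψ(x) g`. -/
def P5c_cj {G H : Type*} [Group G] [Group H] (g : G) (Ψ : H →* G) : H →* G where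
  toFun x := g⁻¹ * Ψ x * g
  map_one' := by simp
  map_mul' := by
    intro x y
    rw [map_mul]
    group

theorem P5c_cj_apply {G H : Type*} [Group G] [Group H] (g : G) (Ψ : H →* G) (x : H) :
    P5c_cj g Ψ x = g⁻¹ * Ψ x * g := rfl

theorem P5c_gen {k : Type*} [Field k] {H : Type*} [Group H] (S : StSys C k H) {K : Type*} [Field K]
    (Ψ : H →* GL C.Idx K) (hΨ : ∀ β t, Ψ (S.x β t) ∈ C.Gad K) (x : H) (hx : x ∈ S.gen) :
    Ψ x ∈ C.Gad K := by
  have h : S.gen ≤ (C.Gad K).comap Ψ := by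
    unfold StSys.gen
    rw [Subgroup.closure_le]
    rintro g ⟨β, t, rfl⟩
    rw [SetLike.mem_coe, Subgroup.mem_comap]
    exact hΨ β t
  exact h hx

theorem P5c_U_Gad {K : Type*} [Field K] (u : GL C.Idx K) (hu : u ∈ (C.adS K).U 1) :
    u ∈ C.Gad K := by
  rw [← C.gen_adS]
  exact (C.adS K).U_le_gen 1 hu

theorem P5c_T_Gad {K : Type*} [Field K] (u : GL C.Idx K) (hu : u ∈ (C.adS K).T) :
    u ∈ C.Gad K := by
  rw [← C.gen_adS]
  exact (C.adS K).T_le_gen hu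

theorem P5c_chi_U {K : Type*} [Field K] (u : GL C.Idx K) (hu : u ∈ (C.adS K).U 1) (γ : C.Root) :
    C.chi (u : Matrix C.Idx C.Idx K) γ = 1 := by
  have h1 := C.Fil_U 1 le_rfl u hu (Sum.inr γ) (Sum.inr γ) (by omega)
  rw [Matrix.sub_apply, Matrix.one_apply_eq, sub_eq_zero] at h1
  exact h1

theorem P5c_Fil_mul {K : Type*} [Field K] (g h : GL C.Idx K)
    (hg : C.Fil 0 (g : Matrix C.Idx C.Idx K)) (hh : C.Fil 0 (h : Matrix C.Idx C.Idx K)) :
    C.Fil 0 ((g * h : GL C.Idx K) : Matrix C.Idx C.Idx K) := by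
  have h1 := C.Fil_mul hg hh
  rw [add_zero] at h1
  rw [Units.val_mul]
  exact h1

theorem P5c_nil {K : Type*} [Field K] (M : Matrix C.Idx C.Idx K) (hM : C.Fil 1 M) :
    IsNilpotent M := by
  obtain ⟨m₀, hm₀⟩ := C.exists_Fil_eq_zero' K
  have key : ∀ k : ℕ, C.Fil (k : ℤ) (M ^ k) := by
    intro k
    induction k with
    | zero =>
      rw [pow_zero]
      exact C.Fil_one
    | succ k ih =>
      rw [pow_succ]
      have h1 := C.Fil_mul ih hM
      push_cast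
      exact h1
  exact ⟨m₀.toNat, hm₀ _ (C.Fil_mono (Int.self_le_toNat m₀) (key m₀.toNat))⟩

theorem P5c_std (hn : 2 ≤ n) (θ : C.Root) (hθ : C.IsHighest θ) {k : Type*} [Field k]
    [Infinite k] {H : Type*} [Group H] (S : StSys C k H) {F : Type*} [Field F]
    (Ψ : H →* GL C.Idx F) (hΨ : ∀ β t, Ψ (S.x β t) ∈ C.Gad F) (hne : Ψ (S.x θ 1) ≠ 1)
    (hU : ∀ u ∈ S.U 1, Ψ u ∈ (C.adS F).U 1)
    (hT : ∀ h ∈ S.T, C.Fil 0 (Ψ h : Matrix C.Idx C.Idx F)) :
    ∃ w ∈ (C.adS F).U 1, ∃ (π : Equiv.Perm (Fin n)) (φ : k →+* F) (c : Fin n → F),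
      (∀ i, c i ≠ 0) ∧ (∀ i j, C.A (π i) (π j) = C.A i j) ∧
      (∀ h ∈ S.T, P5c_cj w Ψ h ∈ (C.adS F).T) ∧
      (∀ i t j, C.xi j (P5c_cj w Ψ (S.x (C.simple i) t) : Matrix C.Idx C.Idx F) =
        if j = π i then c i * φ t else 0) ∧
      ∀ v t, t ≠ 0 → ∀ i, C.chi (P5c_cj w Ψ (S.tor v t) : Matrix C.Idx C.Idx F)
        (C.simple (π i)) = φ t ^ (C.ip (Pi.single i 1) v) := by
  obtain ⟨π, φ, c, hc, hA, hxi, hchi⟩ := C.coords hn θ hθ S F Ψ hΨ hne hU hT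
  obtain ⟨w, hw, hwT⟩ := C.conj_torus S Ψ hΨ hT π φ hchi
  refine ⟨w, hw, π, φ, c, hc, hA, hwT, ?_, ?_⟩
  · intro i t j
    rw [← hxi i t j, P5c_cj_apply]
    have hx : S.x (C.simple i) t ∈ S.U 1 := Subgroup.subset_closure
      ⟨C.simple i, t, by rw [C.ht_simple], rfl⟩
    rw [C.xi_mul j _ _ (mul_mem (inv_mem hw) (hU _ hx)) hw,
      C.xi_mul j _ _ (inv_mem hw) (hU _ hx), C.xi_inv j w hw]
    ring
  · intro v t ht i
    rw [← hchi v t ht i, P5c_cj_apply]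
    have hx : S.tor v t ∈ S.T := S.tor_mem v t ht
    have hG : Ψ (S.tor v t) ∈ C.Gad F := C.P5c_gen S Ψ hΨ _ (S.T_le_gen hx)
    have hwG := C.P5c_U_Gad w hw
    have hw0 := C.Fil_U_zero w hw
    have hwi0 := C.Fil_U_zero w⁻¹ (inv_mem hw)
    rw [C.chi_mul _ _ (mul_mem (inv_mem hwG) hG) hwG
      (C.P5c_Fil_mul _ _ hwi0 (hT _ hx)) hw0,
      C.chi_mul _ _ (inv_mem hwG) hG hwi0 (hT _ hx), C.P5c_chi_U w hw,
      C.P5c_chi_U w⁻¹ (inv_mem hw), one_mul, mul_one]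

/-- step 1-4: a rational chamber. -/
theorem P5c_rational (hn : 2 ≤ n) (θ : C.Root) (hθ : C.IsHighest θ) {k : Type*} [Field k]
    [Infinite k] {H : Type*} [Group H] (S : StSys C k H) {K : Type*} [Field K]
    (Ψ : H →* GL C.Idx K) (hΨ : ∀ β t, Ψ (S.x β t) ∈ C.Gad K) (hne : Ψ (S.x θ 1) ≠ 1) :
    ∃ g₁ ∈ C.Gad K, (∀ u ∈ S.U 1, P5c_cj g₁ Ψ u ∈ (C.adS K).U 1) ∧
      (∀ h ∈ S.T, C.Fil 0 (P5c_cj g₁ Ψ h : Matrix C.Idx C.Idx K)) := by
  set L := AlgebraicClosure K with hL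
  set f : K →+* L := algebraMap K L with hf
  have hfi : Function.Injective f := f.injective
  set ΨL : H →* GL C.Idx L := (C.mp f).comp Ψ with hΨL
  have hGL : ∀ β t, ΨL (S.x β t) ∈ C.Gad L := fun β t => C.mp_Gad f _ (hΨ β t)
  have hneL : ΨL (S.x θ 1) ≠ 1 := by
    intro h
    apply hne
    apply C.mp_injective f hfi
    rw [map_one]
    exact h
  obtain ⟨g₀, hg₀, h0U, h0uniq⟩ := C.unique_chamber θ hθ S L ΨL hGL hneL
  have h0T : ∀ h ∈ S.T, C.Fil 0 (P5c_cj g₀ ΨL h : Matrix C.Idx C.Idx L) := by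
    intro h hh
    have hG : ΨL h ∈ C.Gad L := C.P5c_gen S ΨL hGL h (S.T_le_gen hh)
    have h1 := h0uniq (ΨL h * g₀) (mul_mem hG hg₀) (fun u hu => by
      have h2 : (ΨL h * g₀)⁻¹ * ΨL u * (ΨL h * g₀) = g₀⁻¹ * ΨL (h⁻¹ * u * h) * g₀ := by
        rw [map_mul, map_mul, map_inv]
        group
      rw [h2]
      apply C.Fil_U_zero
      apply h0U
      have h3 := S.T_conj_U 1 h⁻¹ u (inv_mem hh) hu
      rwa [inv_inv] at h3)
    rw [← mul_assoc] at h1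
    exact h1
  have hG0 : ∀ β t, P5c_cj g₀ ΨL (S.x β t) ∈ C.Gad L := fun β t =>
    mul_mem (mul_mem (inv_mem hg₀) (hGL β t)) hg₀
  have hne0 : P5c_cj g₀ ΨL (S.x θ 1) ≠ 1 := by
    intro h
    apply hneL
    rw [P5c_cj_apply] at h
    have h2 : ΨL (S.x θ 1) = g₀ * (g₀⁻¹ * ΨL (S.x θ 1) * g₀) * g₀⁻¹ := by group
    rw [h2, h]
    group
  obtain ⟨w, hw, π, φ, c, hc, hA, hwT, -, hchi⟩ :=
    C.P5c_std hn θ hθ S (P5c_cj g₀ ΨL) hG0 hne0 h0U h0T
  set g := g₀ * w with hg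
  have hcj : ∀ x, P5c_cj w (P5c_cj g₀ ΨL) x = g⁻¹ * C.mp f (Ψ x) * g := by
    intro x
    rw [P5c_cj_apply, P5c_cj_apply, hg]
    show w⁻¹ * (g₀⁻¹ * C.mp f (Ψ x) * g₀) * w = _
    group
  have hgG : g ∈ C.Gad L := mul_mem hg₀ (C.P5c_U_Gad w hw)
  have hU : ∀ u ∈ S.U 1, g⁻¹ * C.mp f (Ψ u) * g ∈ (C.adS L).U 1 := by
    intro u hu
    rw [← hcj]
    exact mul_mem (mul_mem (inv_mem hw) (h0U u hu)) hw
  have huniq : ∀ g' ∈ C.Gad L, (∀ u ∈ S.U 1, C.Fil 0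
      ((g'⁻¹ * C.mp f (Ψ u) * g' : GL C.Idx L) : Matrix C.Idx C.Idx L)) →
      C.Fil 0 ((g⁻¹ * g' : GL C.Idx L) : Matrix C.Idx C.Idx L) := by
    intro g' hg' h
    have h1 := h0uniq g' hg' h
    have h2 : g⁻¹ * g' = w⁻¹ * (g₀⁻¹ * g') := by
      rw [hg]; group
    rw [h2]
    exact C.P5c_Fil_mul _ _ (C.Fil_U_zero _ (inv_mem hw)) h1
  have hT : ∀ h ∈ S.T, g⁻¹ * C.mp f (Ψ h) * g ∈ (C.adS L).T := by
    intro h hh
    rw [← hcj]
    exact hwT h hh
  have hchi' : ∀ v t, t ≠ 0 → ∀ i,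
      C.chi ((g⁻¹ * C.mp f (Ψ (S.tor v t)) * g : GL C.Idx L) :
        Matrix C.Idx C.Idx L) (C.simple (π i)) = φ t ^ (C.ip (Pi.single i 1) v) := by
    intro v t ht i
    rw [← hcj]
    exact hchi v t ht i
  obtain ⟨φ₀, hφ₀⟩ := C.phi_mem hn S Ψ hΨ g hgG hU huniq hT π φ hchi'
  -- strongly regular element
  have hG2 : ∀ β t, P5c_cj g ΨL (S.x β t) ∈ C.Gad L := fun β t =>
    mul_mem (mul_mem (inv_mem hgG) (hGL β t)) hgG
  have hT2 : ∀ h ∈ S.T, C.Fil 0 (P5c_cj g ΨL h : Matrix C.Idx C.Idx L) := fun h hh =>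
    C.Fil_T _ (hT h hh)
  obtain ⟨v, t, ht, hreg1, hreg2⟩ := C.exists_regular S (P5c_cj g ΨL) hG2 hT2 π φ hchi'
  have hM := hT _ (S.tor_mem v t ht)
  set e : C.Root → K := fun γ => φ₀ t ^ (∑ i, C.ip (Pi.single i 1) v * γ.1 (π i)) with he
  have hfe : ∀ γ, f (e γ) = C.chi (P5c_cj g ΨL (S.tor v t) : Matrix C.Idx C.Idx L) γ := by
    intro γ
    rw [C.chi_tor S (P5c_cj g ΨL) hG2 hT2 π φ hchi' v t ht γ, he]
    show f (φ₀ t ^ _) = _
    rw [map_zpow₀, ← hφ₀]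
    rfl
  obtain ⟨g₁, hg₁, hb0⟩ := C.rational_chamber (Ψ (S.tor v t)) g hgG e
    (fun γ γ' h => hreg2 (by rw [← hfe, ← hfe, h]))
    (fun γ h => hreg1 γ (by rw [← hfe, h, map_one]))
    (by
      obtain ⟨d, hd⟩ := C.T_diag _ hM
      rw [hd]
      congr 1
      funext a
      rcases a with i | γ
      · rfl
      · rw [Sum.elim_inr, Sum.elim_inr, ← hf, hfe γ]
        have h1 : (P5c_cj g ΨL (S.tor v t) : Matrix C.Idx C.Idx L) =
            ((g⁻¹ * C.mp f (Ψ (S.tor v t)) * g : GL C.Idx L) : Matrix C.Idx C.Idx L) := rfl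
        rw [h1, hd]
        unfold chi
        rw [Matrix.diagonal_apply_eq, Sum.elim_inr])
  set b := (C.mp f g₁)⁻¹ * g with hb
  have hbG : b ∈ C.Gad L := mul_mem (inv_mem (C.mp_Gad f g₁ hg₁)) hgG
  have hbi0 := C.upper_inv b hbG hb0
  have hconj : ∀ x, C.mp f (P5c_cj g₁ Ψ x) = b * (g⁻¹ * C.mp f (Ψ x) * g) * b⁻¹ := by
    intro x
    rw [P5c_cj_apply, map_mul, map_mul, map_inv, hb]
    group
  have hn0 : 0 < n := by omega
  refine ⟨g₁, hg₁, ?_, ?_⟩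
  · intro u hu
    have h1 : C.mp f (P5c_cj g₁ Ψ u) ∈ (C.adS L).U 1 := by
      rw [hconj]
      exact (C.xi_conj b _ hbG hb0 (hU u hu) ⟨0, hn0⟩).1
    have h2 := C.Fil_U 1 le_rfl _ h1
    have h3 : C.Fil 1 ((P5c_cj g₁ Ψ u : Matrix C.Idx C.Idx K) - 1) := by
      rw [← C.Fil_map_iff f hfi]
      rw [C.mp_val] at h2
      have h4 : ((P5c_cj g₁ Ψ u : Matrix C.Idx C.Idx K) - 1).map f =
          (P5c_cj g₁ Ψ u : Matrix C.Idx C.Idx K).map f - 1 := by
        rw [Matrix.map_sub f (fun x y => map_sub f x y), Matrix.map_one f (map_zero f) (map_one f)]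
      rw [h4]
      exact h2
    have h5 : C.Fil 0 (P5c_cj g₁ Ψ u : Matrix C.Idx C.Idx K) := by
      have h6 := C.Fil_add (C.Fil_mono (by norm_num : (0:ℤ) ≤ 1) h3) (C.Fil_one (R := K))
      rwa [sub_add_cancel] at h6
    have h7 : P5c_cj g₁ Ψ u ∈ C.Gad K := mul_mem (mul_mem (inv_mem hg₁)
      (C.P5c_gen S Ψ hΨ u (S.U_le_gen 1 hu))) hg₁
    exact C.mem_U_of_unipotent _ h7 h5 (C.P5c_nil _ h3)
  · intro h hh
    rw [← C.Fil_map_iff f hfi, ← C.mp_val, hconj]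
    exact C.P5c_Fil_mul _ _ (C.P5c_Fil_mul _ _ hb0 (C.Fil_T _ (hT h hh))) hbi0

theorem standard_form (hn : 2 ≤ n) (θ : C.Root) (hθ : C.IsHighest θ) {k : Type*} [Field k]
    [Infinite k] {H : Type*} [Group H] (S : StSys C k H) {K : Type*} [Field K]
    (Ψ : H →* GL C.Idx K) (hΨ : ∀ β t, Ψ (S.x β t) ∈ C.Gad K) (hne : Ψ (S.x θ 1) ≠ 1) :
    ∃ g ∈ C.Gad K, ∃ (π : Equiv.Perm (Fin n)) (φ : k →+* K) (c : Fin n → K), (∀ i, c i ≠ 0) ∧
      (∀ i j, C.A (π i) (π j) = C.A i j) ∧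
      (∀ i t, Ψ (S.x (C.simple i) t) = g * C.xg K (C.simple (π i)) (c i * φ t) * g⁻¹) ∧
      (∀ i t, Ψ (S.x (-(C.simple i)) t) =
        g * C.xg K (-(C.simple (π i))) ((c i)⁻¹ * φ t) * g⁻¹) := by
  obtain ⟨g₁, hg₁, h1U, h1T⟩ := C.P5c_rational hn θ hθ S Ψ hΨ hne
  have hG1 : ∀ β t, P5c_cj g₁ Ψ (S.x β t) ∈ C.Gad K := fun β t =>
    mul_mem (mul_mem (inv_mem hg₁) (hΨ β t)) hg₁
  have hne1 : P5c_cj g₁ Ψ (S.x θ 1) ≠ 1 := by
    intro h
    apply hne
    rw [P5c_cj_apply] at h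
    have h2 : Ψ (S.x θ 1) = g₁ * (g₁⁻¹ * Ψ (S.x θ 1) * g₁) * g₁⁻¹ := by group
    rw [h2, h]
    group
  obtain ⟨w, hw, π, φ, c, hc, hA, hT2, hxi, hchi⟩ :=
    C.P5c_std hn θ hθ S (P5c_cj g₁ Ψ) hG1 hne1 h1U h1T
  have hwG := C.P5c_U_Gad w hw
  have hG2 : ∀ β t, P5c_cj w (P5c_cj g₁ Ψ) (S.x β t) ∈ C.Gad K := fun β t =>
    mul_mem (mul_mem (inv_mem hwG) (hG1 β t)) hwG
  have hU2 : ∀ u ∈ S.U 1, P5c_cj w (P5c_cj g₁ Ψ) u ∈ (C.adS K).U 1 := fun u hu =>
    mul_mem (mul_mem (inv_mem hw) (h1U u hu)) hw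
  have hback : ∀ x, Ψ x = (g₁ * w) * P5c_cj w (P5c_cj g₁ Ψ) x * (g₁ * w)⁻¹ := by
    intro x
    rw [P5c_cj_apply, P5c_cj_apply]
    group
  refine ⟨g₁ * w, mul_mem hg₁ hwG, π, φ, c, hc, hA, ?_, ?_⟩
  · intro i t
    rw [hback, C.image_simple S _ hG2 hU2 hT2 π φ c hc hxi hchi i t]
  · intro i t
    obtain ⟨f, hf⟩ := C.image_neg S _ hG2 hU2 hT2 π φ c hc hxi hchi i
    rw [hback, hf, C.neg_coeff hn S _ hT2 (C.simple (π i)) φ (c i) (hc i) i f
      (fun s => C.image_simple S _ hG2 hU2 hT2 π φ c hc hxi hchi i s) hf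
      (fun v t ht => hchi v t ht i) t]

end SLC

end Pool.Agent.H75.UL
end

section
/- module Pool.Agent.H75.UL.C2 -/
/-!
# Project UL (MP_978914_al), module C2

The chain step.

`K₂` is infinite: otherwise `G₂` is finite (`Good.finite`), so is `G₁`, but `G₁` maps onto `Gad K₁`
(`Good.exists_ad`), which contains the distinct elements `xg θ t` (`xg_inj`), `K₁` infinite.
`p₁, p₂` from `Good.exists_ad`; `Ψ = p₂ ∘ ψ`. `Ψ (S₁.x θ 1) ≠ 1`: otherwise `ψ (S₁.x θ 1)` is central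
in `G₂`, `S₁.x θ 1` is central in `G₁` (`ψ` injective), but `hh S₁.x θ t` conjugates it to
`S₁.x θ (t^2)` (`h_conj`), so (apply `p₁`, `xg_inj`) `t^2 = 1` for all `t ≠ 0`: impossible, `K₁`
infinite. `standard_form`: `g, π, φ, c`; `g = p₂ a`; `S₂' = S₂.twist a π c`, good by `Good.twist`.
(1) `p₂ (ψ (S₁.x β t)) = p₂ (S₂'.x β (φ t))` for all `β`: for `β = ±` simple by `standard_form` and
`twist_simple`, `twist_neg_simple`; in general by induction on the height of `β` or `-β`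
(`exists_descent`): `β = α_i + γ`: `S₁.x β t = [S₁.x α_i (ε), S₁.x γ t]` with `ε = eps α_i γ = ±1`
(`comm_add`, argument `ε * ε * t = t`), and the same for `S₂'`.
(2) `ψ (S₁.x β t) = S₂'.x β (φ t)`: `β = γ + δ` (`exists_sum`, `n ≥ 2`),
`S₁.x β t = [S₁.x γ ε, S₁.x δ t]`; by (1) `ψ (S₁.x γ s) = S₂'.x γ (φ s) * z` with `z ∈ ker p₂`
central, so the commutators agree.
-/

set_option autoImplicit false
open Matrix
universe u
namespace Pool.Agent.H75.UL

variable {n : ℕ} {C : SLC n}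

/-- commutators do not change under central modification -/
private theorem C2_comm {G H : Type*} [Group G] [Group H] (p : G →* H)
    (hp : p.ker ≤ Subgroup.center G) {u v u' v' : G} (hu : p u = p u') (hv : p v = p v') :
    u * v * u⁻¹ * v⁻¹ = u' * v' * u'⁻¹ * v'⁻¹ := by
  have hz : u'⁻¹ * u ∈ Subgroup.center G := hp (by rw [MonoidHom.mem_ker, map_mul, map_inv, hu]; simp)
  have hw : v'⁻¹ * v ∈ Subgroup.center G := hp (by rw [MonoidHom.mem_ker, map_mul, map_inv, hv]; simp)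
  obtain ⟨z, hz'⟩ : ∃ z, z = u'⁻¹ * u := ⟨_, rfl⟩
  obtain ⟨w, hw'⟩ : ∃ w, w = v'⁻¹ * v := ⟨_, rfl⟩
  rw [← hz'] at hz
  rw [← hw'] at hw
  have h1 : u = u' * z := by rw [hz']; group
  have h2 : v = v' * w := by rw [hw']; group
  rw [Subgroup.mem_center_iff] at hz hw
  rw [h1, h2]
  have e1 : u' * z * (v' * w) * (u' * z)⁻¹ * (v' * w)⁻¹ =
      u' * (z * v') * (w * z⁻¹) * u'⁻¹ * w⁻¹ * v'⁻¹ := by group
  rw [e1, ← hz v']
  have e2 : u' * (v' * z) * (w * z⁻¹) * u'⁻¹ * w⁻¹ * v'⁻¹ =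
      u' * v' * (z * w) * z⁻¹ * u'⁻¹ * w⁻¹ * v'⁻¹ := by group
  rw [e2, hw z]
  have e3 : u' * v' * (w * z) * z⁻¹ * u'⁻¹ * w⁻¹ * v'⁻¹ =
      u' * v' * (w * u'⁻¹) * w⁻¹ * v'⁻¹ := by group
  rw [e3, ← hw u'⁻¹]
  group

/-- a root element as a commutator -/
private theorem C2_expr {K : Type*} [Field K] {G : Type*} [Group G] (S : StSys C K G)
    (α γ β : C.Root) (h : β.1 = α.1 + γ.1) (t : K) :
    S.x β t = S.x α (C.eps α.1 γ.1 : K) * S.x γ t * (S.x α (C.eps α.1 γ.1 : K))⁻¹ *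
      (S.x γ t)⁻¹ := by
  rw [S.comm_add α γ β _ _ h]
  have h1 : ((C.eps α.1 γ.1 : ℤ) : K) * ((C.eps α.1 γ.1 : ℤ) : K) = 1 := by
    rw [← Int.cast_mul, C.eps_sq, Int.cast_one]
  rw [h1, one_mul]

/-- agreement modulo the kernel at a sum of two roots -/
private theorem C2_add {K₁ K₂ : Type*} [Field K₁] [Field K₂] {G₁ G₂ H : Type*} [Group G₁]
    [Group G₂] [Group H] (S₁ : StSys C K₁ G₁) (S₂ : StSys C K₂ G₂) (ψ : G₁ →* G₂) (p : G₂ →* H)
    (φ : K₁ →+* K₂) (α γ β : C.Root) (h : β.1 = α.1 + γ.1)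
    (hα : ∀ t, p (ψ (S₁.x α t)) = p (S₂.x α (φ t)))
    (hγ : ∀ t, p (ψ (S₁.x γ t)) = p (S₂.x γ (φ t))) (t : K₁) :
    p (ψ (S₁.x β t)) = p (S₂.x β (φ t)) := by
  rw [C2_expr S₁ α γ β h t, C2_expr S₂ α γ β h (φ t)]
  have h1 : ((C.eps α.1 γ.1 : ℤ) : K₂) = φ ((C.eps α.1 γ.1 : ℤ) : K₁) := by rw [map_intCast]
  rw [h1]
  simp only [map_mul, map_inv, hα, hγ]

private theorem C2_all {K₁ K₂ : Type*} [Field K₁] [Field K₂] {G₁ G₂ H : Type*} [Group G₁]
    [Group G₂] [Group H] (S₁ : StSys C K₁ G₁) (S₂ : StSys C K₂ G₂) (ψ : G₁ →* G₂) (p : G₂ →* H)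
    (φ : K₁ →+* K₂)
    (h1 : ∀ i t, p (ψ (S₁.x (C.simple i) t)) = p (S₂.x (C.simple i) (φ t)))
    (h2 : ∀ i t, p (ψ (S₁.x (-(C.simple i)) t)) = p (S₂.x (-(C.simple i)) (φ t)))
    (β : C.Root) (t : K₁) :
    p (ψ (S₁.x β t)) = p (S₂.x β (φ t)) := by
  have key : ∀ m : ℕ, ∀ β : C.Root, C.Pos β → (ht β.1).toNat = m →
      (∀ t, p (ψ (S₁.x β t)) = p (S₂.x β (φ t))) ∧
      (∀ t, p (ψ (S₁.x (-β) t)) = p (S₂.x (-β) (φ t))) := by
    intro m
    induction m with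
    | zero =>
      intro β hβ hm
      unfold SLC.Pos at hβ
      omega
    | succ m ih =>
      intro β hβ hm
      by_cases hs : ∃ i, β = C.simple i
      · obtain ⟨i, rfl⟩ := hs
        exact ⟨h1 i, h2 i⟩
      · push Not at hs
        obtain ⟨i, γ, hγ, hβγ⟩ := C.exists_descent β hβ hs
        have h3 : ht β.1 = 1 + ht γ.1 := by
          rw [hβγ, ht_add, C.ht_simple]
        have h4 : (ht γ.1).toNat = m := by
          unfold SLC.Pos at hγ
          omega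
        obtain ⟨h5, h6⟩ := ih γ hγ h4
        refine ⟨C2_add S₁ S₂ ψ p φ (C.simple i) γ β hβγ (h1 i) h5, ?_⟩
        refine C2_add S₁ S₂ ψ p φ (-(C.simple i)) (-γ) (-β) ?_ (h2 i) h6
        rw [SLC.Root.neg_val, SLC.Root.neg_val, SLC.Root.neg_val, hβγ, neg_add]
  by_cases hβ : C.Pos β
  · exact (key _ β hβ rfl).1 t
  · rw [C.not_pos_iff] at hβ
    have h3 := (key _ (-β) hβ rfl).2 t
    rw [C.neg_neg_root] at h3
    exact h3

theorem chain_step (hn : 2 ≤ n) {K₁ K₂ : Type u} [Field K₁] [Field K₂] [Infinite K₁]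
    {G₁ G₂ : Type u} [Group G₁] [Group G₂] {S₁ : StSys C K₁ G₁} {S₂ : StSys C K₂ G₂}
    (h₁ : Good S₁) (h₂ : Good S₂) (ψ : G₁ →* G₂) (hψ : Function.Injective ψ) :
    Infinite K₂ ∧ ∃ (φ : K₁ →+* K₂) (S₂' : StSys C K₂ G₂), Good S₂' ∧
      ∀ β t, ψ (S₁.x β t) = S₂'.x β (φ t) := by
  obtain ⟨p₁, hp₁, hr₁, hk₁⟩ := h₁.exists_ad
  obtain ⟨θ, hθ⟩ := C.exists_highest (by omega)
  have hinj : ∀ s t : K₁, S₁.x θ s = S₁.x θ t → s = t := by
    intro s t hst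
    have h3 : C.xg K₁ θ s = C.xg K₁ θ t := by rw [← hp₁, ← hp₁, hst]
    by_cases hs : s = 0
    · by_cases ht : t = 0
      · rw [hs, ht]
      · exact (C.xg_inj θ θ t s ht h3.symm).2.symm
    · exact (C.xg_inj θ θ s t hs h3).2
  have hinf : Infinite K₂ := by
    by_contra hfin
    rw [not_infinite_iff_finite] at hfin
    have hG₂ : Finite G₂ := h₂.finite
    have hG₁ : Finite G₁ := Finite.of_injective ψ hψ
    have hK₁ : Finite K₁ := Finite.of_injective (fun t => S₁.x θ t) (fun s t h => hinj s t h)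
    exact not_finite K₁
  refine ⟨hinf, ?_⟩
  obtain ⟨p₂, hp₂, hr₂, hk₂⟩ := h₂.exists_ad
  have hΨ : ∀ β t, (p₂.comp ψ) (S₁.x β t) ∈ C.Gad K₂ := by
    intro β t
    rw [← hr₂]
    exact ⟨ψ (S₁.x β t), rfl⟩
  have hne : (p₂.comp ψ) (S₁.x θ 1) ≠ 1 := by
    intro h3
    have h4 : ψ (S₁.x θ 1) ∈ Subgroup.center G₂ := hk₂ (by rw [MonoidHom.mem_ker]; exact h3)
    rw [Subgroup.mem_center_iff] at h4
    have h5 : ∀ g : G₁, g * S₁.x θ 1 = S₁.x θ 1 * g := by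
      intro g
      apply hψ
      rw [map_mul, map_mul]
      exact h4 (ψ g)
    classical
    obtain ⟨t, ht⟩ := Infinite.exists_notMem_finset ({0, 1, -1} : Finset K₁)
    simp only [Finset.mem_insert, Finset.mem_singleton, not_or] at ht
    have h6 := S₁.h_conj θ θ t 1 ht.1
    rw [h5, mul_inv_cancel_right, mul_one, θ.2] at h6
    have h7 := hinj _ _ h6
    have h8 : t ^ 2 = 1 := by
      rw [← zpow_natCast t 2]
      exact h7.symm
    rw [sq] at h8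
    rcases mul_self_eq_one_iff.1 h8 with h9 | h9
    · exact ht.2.1 h9
    · exact ht.2.2 h9
  obtain ⟨g, hg, π, φ, c, hc, hπ, hpos, hneg⟩ := C.standard_form hn θ hθ S₁ (p₂.comp ψ) hΨ hne
  rw [← hr₂] at hg
  obtain ⟨a, rfl⟩ := hg
  refine ⟨φ, S₂.twist a π hπ c hc, h₂.twist a π hπ c hc, ?_⟩
  have key : ∀ β t, p₂ (ψ (S₁.x β t)) = p₂ ((S₂.twist a π hπ c hc).x β (φ t)) := by
    refine C2_all S₁ (S₂.twist a π hπ c hc) ψ p₂ φ ?_ ?_
    · intro i t
      rw [StSys.twist_simple, map_mul, map_mul, map_inv, hp₂]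
      exact hpos i t
    · intro i t
      rw [StSys.twist_neg_simple, map_mul, map_mul, map_inv, hp₂]
      exact hneg i t
  intro β t
  obtain ⟨γ, δ, hβ⟩ := C.exists_sum hn β
  rw [C2_expr S₁ γ δ β hβ t, C2_expr (S₂.twist a π hπ c hc) γ δ β hβ (φ t)]
  have h3 : ((C.eps γ.1 δ.1 : ℤ) : K₂) = φ ((C.eps γ.1 δ.1 : ℤ) : K₁) := by rw [map_intCast]
  rw [h3]
  simp only [map_mul, map_inv]
  exact C2_comm p₂ hk₂ (key γ _) (key δ t)

end Pool.Agent.H75.UL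
end

section
/- module Pool.Agent.H75.UL.C4 -/
/-!
# Project UL (MP_978914_al), module C4

The theorem for one type.

Pass to a subsequence as in Pool/Agent/Results/MP_978914_al/TypeA.lean: a strictly increasing `ψ k`
with `IsChev C (H (ψ k))`, starting after an infinite member. `isChev_iff`: fields `K k`, good systems.
`K 0` is infinite: otherwise `H (ψ 0)` is finite (`Good.finite`). Recursion with `chain_step` (choose
for every `k` and every good system `S` of `H (ψ k)` over `K k` with `K k` infinite a ring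
homomorphism and a good system of `H (ψ (k+1))` over `K (k+1)`; all `K k` are infinite), then `limit`.
`finite_types`: the matrices `C.A` have entries in `{2, 0, -1}`, so `SLC r` is finite; if for every
`m` some `i ≥ m` has `IsChev C (H i)` for some `C`, then one `C` occurs for infinitely many `i`.
-/

set_option autoImplicit false
open Matrix
universe u
namespace Pool.Agent.H75.UL

variable {n : ℕ} {C : SLC n}

theorem main_one (hn : 2 ≤ n) (G : Type u) [Group G] (H : ℕ → Subgroup G) (hH : Monotone H)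
    (hG : ∀ g : G, ∃ i, g ∈ H i) (hA : ∀ m : ℕ, ∃ i, m ≤ i ∧ IsChev C (H i))
    (hinf : ∃ i, Infinite (H i)) : IsChev C G := by
  obtain ⟨i₀, hi₀⟩ := hinf
  choose φ hφ hφA using hA
  -- a subsequence of members of type `C`
  let ψ : ℕ → ℕ := fun k => Nat.rec (φ i₀) (fun _ m => φ (m + 1)) k
  have hψ0 : ψ 0 = φ i₀ := rfl
  have hψA : ∀ k, IsChev C (H (ψ k)) := by
    intro k
    cases k with
    | zero => exact hφA i₀
    | succ k => exact hφA (ψ k + 1)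
  have hψlt : ∀ k, ψ k < ψ (k + 1) := fun k => Nat.lt_of_succ_le (hφ (ψ k + 1))
  have hψmono : StrictMono ψ := strictMono_nat_of_lt_succ hψlt
  have hψi : i₀ ≤ ψ 0 := hφ i₀
  have hψC : ∀ k, ∃ (K : Type u) (_ : Field K) (S : StSys C K (H (ψ k))), Good S :=
    fun k => (isChev_iff (H (ψ k))).mp (hψA k)
  choose K hKf S hS using hψC
  have hle : ∀ k, H (ψ k) ≤ H (ψ (k + 1)) := fun k => hH (hψlt k).le
  have hK : ∀ k, Infinite (K k) := by
    intro k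
    induction k with
    | zero =>
      by_contra hfin
      rw [not_infinite_iff_finite] at hfin
      have h1 : Infinite (H (ψ 0)) :=
        Infinite.of_injective _ (Subgroup.inclusion_injective (hH hψi))
      exact not_finite_iff_infinite.mpr h1 (hS 0).finite
    | succ k ih =>
      exact (chain_step hn (hS k) (hS (k + 1)) (Subgroup.inclusion (hle k))
        (Subgroup.inclusion_injective (hle k))).1
  have step : ∀ (k : ℕ) (T : {T : StSys C (K k) (H (ψ k)) // Good T}),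
      ∃ (f : K k →+* K (k + 1)) (T' : {T : StSys C (K (k + 1)) (H (ψ (k + 1))) // Good T}),
        ∀ β t, Subgroup.inclusion (hle k) (T.1.x β t) = T'.1.x β (f t) := by
    intro k T
    have := hK k
    obtain ⟨-, f, T', hT', h⟩ := chain_step hn T.2 (hS (k + 1)) (Subgroup.inclusion (hle k))
      (Subgroup.inclusion_injective (hle k))
    exact ⟨f, ⟨T', hT'⟩, h⟩
  choose f F hF using step
  let T : ∀ k : ℕ, {T : StSys C (K k) (H (ψ k)) // Good T} := fun k =>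
    Nat.rec (motive := fun k => {T : StSys C (K k) (H (ψ k)) // Good T}) ⟨S 0, hS 0⟩ F k
  refine limit (fun k => H (ψ k)) hle ?_ K (fun k => (T k).1) (fun k => (T k).2)
    (fun k => f k (T k)) (fun k β t => hF k (T k) β t)
  intro g
  obtain ⟨i, hi⟩ := hG g
  exact ⟨i, hH (hψmono.id_le i) hi⟩

theorem finite_types (r : ℕ) : Finite (SLC r) := by
  have h1 : ∀ (C : SLC r) (i j : Fin r), C.A i j ∈ Set.Icc (-1 : ℤ) 2 := by
    intro C i j
    by_cases h : i = j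
    · subst h
      rw [C.diag]
      norm_num
    · rcases C.off i j h with h | h <;> rw [h] <;> norm_num
  have : Finite (Fin r → Fin r → Set.Icc (-1 : ℤ) 2) := inferInstance
  refine Finite.of_injective (β := Fin r → Fin r → Set.Icc (-1 : ℤ) 2)
    (fun C i j => ⟨C.A i j, h1 C i j⟩) ?_
  intro C C' h
  have h2 : C.A = C'.A := by
    ext i j
    exact congrArg Subtype.val (congrFun (congrFun h i) j)
  cases C
  cases C'
  subst h2
  rfl

theorem main_rank (r : ℕ) (hr : 2 ≤ r) (G : Type u) [Group G] (H : ℕ → Subgroup G)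
    (hH : Monotone H) (hG : ∀ g : G, ∃ i, g ∈ H i)
    (hA : ∀ m : ℕ, ∃ i, m ≤ i ∧ ∃ C : SLC r, IsChev C (H i))
    (hinf : ∃ i, Infinite (H i)) : ∃ C : SLC r, IsChev C G := by
  have hfin := finite_types r
  by_cases h : ∃ C : SLC r, ∀ m : ℕ, ∃ i, m ≤ i ∧ IsChev C (H i)
  · obtain ⟨C, hC⟩ := h
    exact ⟨C, main_one hr G H hH hG hC hinf⟩
  · exfalso
    push Not at h
    choose m hm using h
    obtain ⟨M, hM⟩ := (Set.finite_range m).bddAbove
    obtain ⟨i, hi, C, hC⟩ := hA M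
    exact hm C i ((hM ⟨C, rfl⟩).trans hi) hC

end Pool.Agent.H75.UL
end

section
/- module Pool.Agent.H75.UK.FG -/
/-!
# Project UK, module FG: unipotent groups of `σ`-fixed elements, `θ = 1`

A group of unipotent elements of `Gad L`, `L` algebraically closed, fixed by `sgl 1`, is conjugate into
`U` by an element of `Eg (adS L) (sgl 1)`.
-/

set_option autoImplicit false
open Matrix
universe u
namespace Pool.Agent.H75.UL

variable {n : ℕ} {C : SLC n} (D : Dg C)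

theorem fold_conj (hNA : D.NA) (hn : 0 < n) {L : Type*} [Field L] [IsAlgClosed L]
    (Γ : Subgroup (GL C.Idx L)) (hΓG : Γ ≤ C.Gad L)
    (hσ : ∀ γ ∈ Γ, D.sgl (RingEquiv.refl L) γ = γ)
    (hΓu : ∀ γ ∈ Γ, IsNilpotent ((γ : Matrix C.Idx C.Idx L) - 1)) :
    ∃ g ∈ Eg (C.adS L) (D.sgl (RingEquiv.refl L)), ∀ γ ∈ Γ, g⁻¹ * γ * g ∈ (C.adS L).U 1 := by
  classical
  by_cases hΓne : Γ = ⊥
  · refine ⟨1, one_mem _, fun γ hγ => ?_⟩
    rw [hΓne, Subgroup.mem_bot] at hγ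
    subst hγ
    simp only [inv_one, mul_one]
    exact one_mem _
  obtain ⟨g₀, hg₀, hg₀F⟩ := C.fixed_chamber L Γ hΓG hΓu
  have hg₀U : ∀ γ ∈ Γ, g₀⁻¹ * γ * g₀ ∈ (C.adS L).U 1 := by
    intro γ hγ
    refine C.mem_U_of_unipotent _ (mul_mem (mul_mem (inv_mem hg₀) (hΓG hγ)) hg₀) (hg₀F γ hγ) ?_
    obtain ⟨N, hN⟩ := hΓu γ hγ
    refine ⟨N, ?_⟩
    have e1 : (((g₀⁻¹ * γ * g₀ : GL C.Idx L) : Matrix C.Idx C.Idx L) - 1) =
        ((g₀⁻¹ : GL C.Idx L) : Matrix C.Idx C.Idx L) * ((γ : Matrix C.Idx C.Idx L) - 1) *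
          (((g₀⁻¹)⁻¹ : GL C.Idx L) : Matrix C.Idx C.Idx L) := by
      rw [inv_inv, Units.val_mul, Units.val_mul, mul_sub, sub_mul, mul_one, Units.inv_mul]
    rw [e1, Units.conj_pow, hN, mul_zero, zero_mul]
  obtain ⟨g, lam, c, hopt⟩ := C.exists_opt hn Γ hΓne g₀ hg₀ hg₀U
  have hΓσ : Γ.map (D.sgl (RingEquiv.refl L)) = Γ := by
    ext x
    constructor
    · rintro ⟨y, hy, rfl⟩
      rw [hσ y hy]
      exact hy
    · intro hx
      exact ⟨x, hx, hσ x hx⟩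
  obtain ⟨hl, hF1, hF2⟩ := opt_sgl D (RingEquiv.refl L) Γ hΓne hΓσ g lam c hopt
  obtain ⟨g₁, hg₁E, hg₁a, hg₁b⟩ := gate D (RingEquiv.refl L)
    (by intro t; exact Function.iterate_fixed rfl _) (Or.inl hNA) lam hopt.dom hl g hopt.mem hF1 hF2
  have hg₁G : g₁ ∈ C.Gad L := by
    rw [← C.gen_adS]
    exact Eg_le_gen _ _ hg₁E
  refine ⟨g₁, hg₁E, fun γ hγ => ?_⟩
  have h1 := C.Sp_P Γ g (g⁻¹ * g₁) lam c hg₁b
    (by rw [_root_.mul_inv_rev, inv_inv]; exact hg₁a) hopt.sp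
  rw [mul_inv_cancel_left] at h1
  exact C.mem_U_of_FilR lam hopt.dom c hopt.pos _
    (mul_mem (mul_mem (inv_mem hg₁G) (hΓG hγ)) hg₁G) (h1 γ hγ)

end Pool.Agent.H75.UL
end
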