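import Pool.Agent.H86.AL.M15
import Pool.Agent.H86.AL.M19
import Pool.Agent.H86.AL.M20

/-!
# M25: collected modules

Pool.Agent.H86.UM.FC1
-/

section
/- module Pool.Agent.H86.UM.FC1 -/
/-!
# Project UM, module FC1: field homomorphism for an orbit which is not adjacent

For `t ∈ kO D θ i` let `y(t) = yb (simple i) t`, `y⁻(t) = yb (-simple i) t`; these are in
`fixX (± simple i) ≤ Eg` (`prod_x_mem` for `ρ i ≠ i`; `IsSig`, `mem_kO` for `ρ i = i`; `ZZ` is trivial as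
`α_i + α_(ρ i)` is not a root), additive in `t`, and every element of `fixX (simple i)` is `y(t)` with
`t ∈ kO` (`fixX_form`, `mem_kO`), similarly for the target and for the negative roots (use `S.neg` and
`IsSig.neg`, or `SR_ν`; for the target the `Env` `D θ' (C.adS K) (D.sgl θ') id` is not available if `K` is
finite, but `K` is infinite: `f` below is injective; or argue directly in `XO`).
By `Pin.pos`, `Pin.neg`: `Ψ y(t) = y'(f t)`, `Ψ y⁻(t) = y'⁻(g t)`, `f, g` additive (`lp_unique`/`xg_inj`),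
injective by `Pin_inj`; if `ρ i = i`, `f t`, `g t` are fixed by `θ'`.
`n(t) = y(t) y⁻(t⁻¹) y(t)` satisfies `n(t) y(u) n(t)⁻¹ = y⁻(t⁻² u)` (`n_conj` for each factor). Apply `Ψ`: by
`rank_mat` with `a = f t`, `b = g (t⁻¹)`, `c = f u ≠ 0`: `f t * g (t⁻¹) = 1`; and then `n_conj` in the target
gives `g (t⁻² u) = (f t)⁻² f u`. Since `g (t⁻² u) = (f (t² u⁻¹))⁻¹`, `f (t² u⁻¹) f u = (f t)²`. `hua` for
the field `kO D θ i` gives `f t = c φ t`; `g t = (f (t⁻¹))⁻¹ = c⁻¹ φ t`. `c = f 1` is fixed by `θ'` if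
`ρ i = i`, and so is `φ t`.

`RO_tor`: `h = n(t) n(1)⁻¹` for the given `t` (`n(1)⁻¹ = y(-1) y⁻(-1) y(-1)`): it is
`∏_l s^l (nn (simple i) t * nn (simple i) (-1)) = ∏_l hh (simple (ρ^l i)) (θ^l t) ∈ S.T` and acts as stated
(`h_conj`; then `SR_T`, `xg_inj` give `chi (p h)`). `Ψ h` is the product over `l` of
`nn (simple (ρ^l i)) (θ'^l (c φ t)) * nn (..) (- θ'^l c) = hh (..) (θ'^l (c φ t)) * (hh (..) (θ'^l c))⁻¹`, which
acts on `xg β` by `∏_l (θ'^l (φ t)) ^ ip (..) β`.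
`RO_compat`: let `x = y_j(1)`; `h x h⁻¹ = y_j(P)`; apply `Ψ` and compare the coordinate `xi j`
(`Pin_xi`, `xi_xg`): `c' φ' P = chi (Ψ h) (simple j) * (c' φ' 1)`.
-/

set_option autoImplicit false
open Matrix

namespace Pool.Agent.H86.UM

open Pool.Agent.H75.UL

section FC1a

private theorem FC1_prod_mul {M : Type*} [Monoid M] (l : List ℕ) (hl : l.Nodup) (a b : ℕ → M)
    (h : ∀ x ∈ l, ∀ y ∈ l, x ≠ y → a x * b y = b y * a x) :
    (l.map fun x => a x * b x).prod = (l.map a).prod * (l.map b).prod := by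
  induction l with
  | nil => simp
  | cons x l ih =>
    rw [List.nodup_cons] at hl
    have ih' := ih hl.2 (fun x' hx y hy => h x' (List.mem_cons_of_mem _ hx) y
      (List.mem_cons_of_mem _ hy))
    have hc : Commute (b x) (l.map a).prod := by
      apply Commute.list_prod_right
      intro z hz
      rw [List.mem_map] at hz
      obtain ⟨y, hy, rfl⟩ := hz
      have hne : y ≠ x := by
        rintro rfl
        exact hl.1 hy
      exact (h y (List.mem_cons_of_mem _ hy) x List.mem_cons_self hne).symm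
    rw [List.map_cons, List.map_cons, List.map_cons, List.prod_cons, List.prod_cons,
      List.prod_cons, ih']
    have hc' : b x * (l.map a).prod = (l.map a).prod * b x := hc
    calc a x * b x * ((l.map a).prod * (l.map b).prod)
        = a x * (b x * (l.map a).prod) * (l.map b).prod := by simp only [mul_assoc]
      _ = a x * (l.map a).prod * (b x * (l.map b).prod) := by
        rw [hc']; simp only [mul_assoc]

private theorem FC1_it {k : Type*} [Field k] (θ : k ≃+* k) (l : ℕ) :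
    ∃ τ : k →+* k, (⇑θ)^[l] = ⇑τ := by
  induction l with
  | zero => exact ⟨RingHom.id k, rfl⟩
  | succ l ih =>
    obtain ⟨τ, hτ⟩ := ih
    exact ⟨(θ : k →+* k).comp τ, by rw [Function.iterate_succ', hτ]; rfl⟩

private theorem FC1_it_mul {k : Type*} [Field k] (θ : k ≃+* k) (l : ℕ) (a b : k) :
    (⇑θ)^[l] (a * b) = (⇑θ)^[l] a * (⇑θ)^[l] b := by
  obtain ⟨τ, hτ⟩ := FC1_it θ l
  rw [hτ, map_mul]

private theorem FC1_it_add {k : Type*} [Field k] (θ : k ≃+* k) (l : ℕ) (a b : k) :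
    (⇑θ)^[l] (a + b) = (⇑θ)^[l] a + (⇑θ)^[l] b := by
  obtain ⟨τ, hτ⟩ := FC1_it θ l
  rw [hτ, map_add]

private theorem FC1_it_inv {k : Type*} [Field k] (θ : k ≃+* k) (l : ℕ) (a : k) :
    (⇑θ)^[l] a⁻¹ = ((⇑θ)^[l] a)⁻¹ := by
  obtain ⟨τ, hτ⟩ := FC1_it θ l
  rw [hτ, map_inv₀]

private theorem FC1_it_one {k : Type*} [Field k] (θ : k ≃+* k) (l : ℕ) :
    (⇑θ)^[l] (1 : k) = 1 := by
  obtain ⟨τ, hτ⟩ := FC1_it θ l
  rw [hτ, map_one]

private theorem FC1_it_ne {k : Type*} [Field k] (θ : k ≃+* k) (l : ℕ) (a : k) (ha : a ≠ 0) :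
    (⇑θ)^[l] a ≠ 0 := by
  obtain ⟨τ, hτ⟩ := FC1_it θ l
  rw [hτ]
  exact (map_ne_zero τ).mpr ha

variable {n : ℕ} {C : SLC n} {D : Dg C}

private theorem FC1_A_pow (D : Dg C) (l : ℕ) (i j : Fin n) :
    C.A ((D.ρ ^ l) i) ((D.ρ ^ l) j) = C.A i j := by
  induction l with
  | zero => rfl
  | succ l ih => rw [pow_succ', Equiv.Perm.mul_apply, Equiv.Perm.mul_apply, D.hρ, ih]

private theorem FC1_simple_fix (D : Dg C) (i : Fin n) :
    D.r (C.simple i) = C.simple i ↔ D.ρ i = i := by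
  rw [D.r_simple]
  exact C.simple_injective.eq_iff

private theorem FC1_mo (D : Dg C) (i : Fin n) : (D.ρ i = i ∧ mo D (C.simple i) = 1) ∨
    (D.ρ i ≠ i ∧ mo D (C.simple i) = D.m) := by
  unfold mo
  by_cases h : D.ρ i = i
  · left
    rw [if_pos ((FC1_simple_fix D i).mpr h)]
    exact ⟨h, rfl⟩
  · right
    rw [if_neg (fun h1 => h ((FC1_simple_fix D i).mp h1))]
    exact ⟨h, rfl⟩

private theorem FC1_mo_pos (D : Dg C) (i : Fin n) : 0 < mo D (C.simple i) := by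
  rcases FC1_mo D i with ⟨_, h⟩ | ⟨_, h⟩
  · rw [h]
    norm_num
  · rw [h]
    rcases D.m_cases with h | h | h <;> omega

private theorem FC1_mo_rho (D : Dg C) (i : Fin n) :
    mo D (C.simple (D.ρ i)) = mo D (C.simple i) := by
  rcases FC1_mo D i with ⟨h1, h⟩ | ⟨h1, h⟩
  · rw [h1]
  · rcases FC1_mo D (D.ρ i) with ⟨h2, h3⟩ | ⟨h2, h3⟩
    · exact absurd (D.ρ.injective h2) h1
    · rw [h, h3]

private theorem FC1_orth (D : Dg C) (i : Fin n) (hi : C.A i (D.ρ i) ≠ -1) (l l' : ℕ)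
    (hl : l < mo D (C.simple i)) (hl' : l' < mo D (C.simple i)) (h : l ≠ l') :
    C.A ((D.ρ ^ l) i) ((D.ρ ^ l') i) = 0 := by
  wlog hlt : l < l' generalizing l l'
  · rw [C.symm]
    exact this l' l hl' hl (Ne.symm h) (by omega)
  rcases FC1_mo D i with ⟨h1, h2⟩ | ⟨h1, h2⟩
  · omega
  · have hβ : D.r (C.simple i) ≠ C.simple i := fun h3 => h1 ((FC1_simple_fix D i).mp h3)
    obtain ⟨d, rfl⟩ : ∃ d, l' = l + d := ⟨l' - l, by omega⟩
    rw [pow_add, Equiv.Perm.mul_apply, FC1_A_pow]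
    have h3 := D.ip_orb (C.simple i) hβ d (by omega) (by omega)
    rw [D.r_iter_simple, D.r_simple, C.simple_val, C.simple_val, C.simple_val, C.ip_single,
      C.ip_single] at h3
    rw [h3]
    rcases D.ip_r (C.simple i) hβ with h4 | ⟨_, h4⟩
    · rw [D.r_simple, C.simple_val, C.simple_val, C.ip_single] at h4
      exact h4
    · rw [D.r_simple, C.simple_val, C.simple_val, C.ip_single] at h4
      exact absurd h4 hi

private theorem FC1_sgp (D : Dg C) (l : ℕ) (i : Fin n) : D.sgp l (C.simple i) = 1 := by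
  unfold Dg.sgp
  apply Finset.prod_eq_one
  intro j _
  rw [D.r_iter_simple, D.sg_simple]

variable {k : Type*} [Field k] {H : Type*} [Group H]

/-- the rank one group of a simple root -/
private def FC1_K (S : StSys C k H) (j : Fin n) : Subgroup H :=
  Subgroup.closure {g | ∃ t, g = S.x (C.simple j) t ∨ g = S.x (-(C.simple j)) t}

private theorem FC1_K_comm (S : StSys C k H) (j j' : Fin n) (h : C.A j j' = 0) (x y : H)
    (hx : x ∈ FC1_K S j) (hy : y ∈ FC1_K S j') : x * y = y * x := by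
  have hip : C.ip (C.simple j).1 (C.simple j').1 = 0 := by
    rw [C.simple_val, C.simple_val, C.ip_single, h]
  have h1 : ∀ g ∈ {g | ∃ t, g = S.x (C.simple j) t ∨ g = S.x (-(C.simple j)) t},
      ∀ g' ∈ {g | ∃ t, g = S.x (C.simple j') t ∨ g = S.x (-(C.simple j')) t},
      g * g' = g' * g := by
    rintro g ⟨t, rfl | rfl⟩ g' ⟨t', rfl | rfl⟩
    · apply S.comm
      rw [hip]
    · apply S.comm
      rw [SLC.Root.neg_val, C.ip_neg_right, hip, neg_zero]
    · apply S.comm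
      rw [SLC.Root.neg_val, C.ip_neg_left, hip, neg_zero]
    · apply S.comm
      rw [SLC.Root.neg_val, SLC.Root.neg_val, C.ip_neg_neg, hip]
  have h2 : FC1_K S j' ≤ Subgroup.centralizer
      {g | ∃ t, g = S.x (C.simple j) t ∨ g = S.x (-(C.simple j)) t} :=
    (Subgroup.closure_le _).mpr fun g' hg' =>
      Subgroup.mem_centralizer_iff.mpr fun g hg => h1 g hg g' hg'
  have h3 : FC1_K S j ≤ Subgroup.centralizer (FC1_K S j' : Set H) :=
    (Subgroup.closure_le _).mpr fun g hg =>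
      Subgroup.mem_centralizer_iff.mpr fun g' hg' =>
        (Subgroup.mem_centralizer_iff.mp (h2 hg') g hg).symm
  exact (Subgroup.mem_centralizer_iff.mp (h3 hx) y hy).symm

private theorem FC1_x_mem (S : StSys C k H) (j : Fin n) (t : k) :
    S.x (C.simple j) t ∈ FC1_K S j := Subgroup.subset_closure ⟨t, Or.inl rfl⟩

private theorem FC1_xm_mem (S : StSys C k H) (j : Fin n) (t : k) :
    S.x (-(C.simple j)) t ∈ FC1_K S j := Subgroup.subset_closure ⟨t, Or.inr rfl⟩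

private theorem FC1_nn_mem (S : StSys C k H) (j : Fin n) (t : k) :
    nn S.x (C.simple j) t ∈ FC1_K S j :=
  mul_mem (mul_mem (FC1_x_mem S j t) (FC1_xm_mem S j _)) (FC1_x_mem S j t)

private theorem FC1_hh_mem (S : StSys C k H) (j : Fin n) (t : k) :
    hh S.x (C.simple j) t ∈ FC1_K S j :=
  mul_mem (FC1_nn_mem S j t) (FC1_nn_mem S j _)

private theorem FC1_pm (S : StSys C k H) (i : Fin n) (hi : C.A i (D.ρ i) ≠ -1) (f g : ℕ → H)
    (hf : ∀ l, f l ∈ FC1_K S ((D.ρ ^ l) i)) (hg : ∀ l, g l ∈ FC1_K S ((D.ρ ^ l) i)) :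
    ((List.range (mo D (C.simple i))).map fun l => f l * g l).prod =
      ((List.range (mo D (C.simple i))).map f).prod *
        ((List.range (mo D (C.simple i))).map g).prod := by
  apply FC1_prod_mul _ List.nodup_range
  intro x hx y hy hxy
  exact FC1_K_comm S _ _ (FC1_orth D i hi x y (List.mem_range.mp hx) (List.mem_range.mp hy) hxy)
    _ _ (hf x) (hg y)

private theorem FC1_pi (S : StSys C k H) (i : Fin n) (hi : C.A i (D.ρ i) ≠ -1) (f : ℕ → H)
    (hf : ∀ l, f l ∈ FC1_K S ((D.ρ ^ l) i)) :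
    ((List.range (mo D (C.simple i))).map fun l => (f l)⁻¹).prod =
      (((List.range (mo D (C.simple i))).map f).prod)⁻¹ := by
  have h := FC1_pm (D := D) S i hi f (fun l => (f l)⁻¹) hf (fun l => inv_mem (hf l))
  have h1 : ((List.range (mo D (C.simple i))).map fun l => f l * (f l)⁻¹).prod = 1 := by
    apply List.prod_eq_one
    intro x hx
    rw [List.mem_map] at hx
    obtain ⟨l, _, rfl⟩ := hx
    exact mul_inv_cancel _
  rw [h1] at h
  exact eq_inv_of_mul_eq_one_right h.symm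

private theorem FC1_congr (m : ℕ) (f g : ℕ → H) (h : ∀ l, f l = g l) :
    ((List.range m).map f).prod = ((List.range m).map g).prod := by
  have : f = g := funext h
  rw [this]

variable {θ : k ≃+* k} {S : StSys C k H} {s : H →* H}

private theorem FC1_yb (h : IsSig D θ S s) (i : Fin n) (t : k) :
    yb D S s (C.simple i) t = ((List.range (mo D (C.simple i))).map fun l =>
      S.x (C.simple ((D.ρ ^ l) i)) ((⇑θ)^[l] t)).prod := by
  unfold yb
  apply FC1_congr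
  intro l
  rw [h.iter, D.r_iter_simple, FC1_sgp, Int.cast_one, one_mul]

private theorem FC1_mo_neg (D : Dg C) (i : Fin n) :
    mo D (-(C.simple i)) = mo D (C.simple i) := by
  unfold mo
  have : D.r (-(C.simple i)) = -(C.simple i) ↔ D.r (C.simple i) = C.simple i := by
    rw [D.r_neg]
    constructor
    · intro h
      have := congrArg (fun β : C.Root => -β) h
      simpa only [C.neg_neg_root] using this
    · intro h
      rw [h]
  simp only [this]

private theorem FC1_yb_neg (S : StSys C k H) (s : H →* H) (i : Fin n) (t : k) :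
    yb D S.neg s (C.simple i) t = yb D S s (-(C.simple i)) t := by
  unfold yb
  rw [FC1_mo_neg]
  rfl

private theorem FC1_ybm (h : IsSig D θ S s) (i : Fin n) (t : k) :
    yb D S s (-(C.simple i)) t = ((List.range (mo D (C.simple i))).map fun l =>
      S.x (-(C.simple ((D.ρ ^ l) i))) ((⇑θ)^[l] t)).prod := by
  rw [← FC1_yb_neg, FC1_yb h.neg]
  rfl

/-- the element `n(t)` -/
private noncomputable def FC1n (D : Dg C) (S : StSys C k H) (s : H →* H) (i : Fin n) (t : k) : H :=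
  yb D S s (C.simple i) t * yb D S s (-(C.simple i)) t⁻¹ * yb D S s (C.simple i) t

/-- the element `h(t)` -/
private noncomputable def FC1h (D : Dg C) (S : StSys C k H) (s : H →* H) (i : Fin n) (t : k) : H :=
  FC1n D S s i t * (FC1n D S s i 1)⁻¹

private theorem FC1_nb (h : IsSig D θ S s) (i : Fin n) (hi : C.A i (D.ρ i) ≠ -1) (t : k) :
    FC1n D S s i t = ((List.range (mo D (C.simple i))).map fun l =>
      nn S.x (C.simple ((D.ρ ^ l) i)) ((⇑θ)^[l] t)).prod := by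
  unfold FC1n
  rw [FC1_yb h, FC1_ybm h, ← FC1_pm S i hi _ _ (fun l => FC1_x_mem S _ _)
    (fun l => FC1_xm_mem S _ _), ← FC1_pm S i hi _ _
    (fun l => mul_mem (FC1_x_mem S _ _) (FC1_xm_mem S _ _)) (fun l => FC1_x_mem S _ _)]
  apply FC1_congr
  intro l
  unfold nn
  rw [FC1_it_inv]

private theorem FC1_yb_add (h : IsSig D θ S s) (i : Fin n) (hi : C.A i (D.ρ i) ≠ -1) (t u : k) :
    yb D S s (C.simple i) (t + u) = yb D S s (C.simple i) t * yb D S s (C.simple i) u := by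
  rw [FC1_yb h, FC1_yb h, FC1_yb h, ← FC1_pm S i hi _ _ (fun l => FC1_x_mem S _ _)
    (fun l => FC1_x_mem S _ _)]
  apply FC1_congr
  intro l
  rw [FC1_it_add, S.map_add]

private theorem FC1_nb_conj (h : IsSig D θ S s) (i : Fin n) (hi : C.A i (D.ρ i) ≠ -1) (t u : k)
    (ht : t ≠ 0) : FC1n D S s i t * yb D S s (C.simple i) u * (FC1n D S s i t)⁻¹ =
      yb D S s (-(C.simple i)) (t⁻¹ ^ 2 * u) := by
  rw [FC1_nb h i hi, FC1_yb h, FC1_ybm h, ← FC1_pi S i hi _ (fun l => FC1_nn_mem S _ _),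
    ← FC1_pm S i hi _ _ (fun l => FC1_nn_mem S _ _) (fun l => FC1_x_mem S _ _),
    ← FC1_pm S i hi _ _ (fun l => mul_mem (FC1_nn_mem S _ _) (FC1_x_mem S _ _))
      (fun l => inv_mem (FC1_nn_mem S _ _))]
  apply FC1_congr
  intro l
  rw [S.n_conj _ _ _ (FC1_it_ne θ l t ht), FC1_it_mul, pow_two, pow_two, FC1_it_mul, FC1_it_inv]

private theorem FC1_hb (h : IsSig D θ S s) (i : Fin n) (hi : C.A i (D.ρ i) ≠ -1) (t : k) :
    FC1h D S s i t = ((List.range (mo D (C.simple i))).map fun l =>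
      hh S.x (C.simple ((D.ρ ^ l) i)) ((⇑θ)^[l] t)).prod := by
  unfold FC1h
  rw [FC1_nb h i hi, FC1_nb h i hi, ← FC1_pi S i hi _ (fun l => FC1_nn_mem S _ _),
    ← FC1_pm S i hi _ _ (fun l => FC1_nn_mem S _ _) (fun l => inv_mem (FC1_nn_mem S _ _))]
  apply FC1_congr
  intro l
  rw [FC1_it_one, S.nn_inv]
  rfl

private theorem FC1_hb_mul (h : IsSig D θ S s) (i : Fin n) (hi : C.A i (D.ρ i) ≠ -1) (t u : k)
    (ht : t ≠ 0) (hu : u ≠ 0) : FC1h D S s i (t * u) = FC1h D S s i t * FC1h D S s i u := by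
  rw [FC1_hb h i hi, FC1_hb h i hi, FC1_hb h i hi, ← FC1_pm S i hi _ _
    (fun l => FC1_hh_mem S _ _) (fun l => FC1_hh_mem S _ _)]
  apply FC1_congr
  intro l
  rw [FC1_it_mul, S.h_mul _ _ _ (FC1_it_ne θ l t ht) (FC1_it_ne θ l u hu)]

private theorem FC1_hb_T (h : IsSig D θ S s) (i : Fin n) (hi : C.A i (D.ρ i) ≠ -1) (t : k)
    (ht : t ≠ 0) : FC1h D S s i t ∈ S.T := by
  rw [FC1_hb h i hi]
  apply Subgroup.list_prod_mem
  intro x hx
  rw [List.mem_map] at hx
  obtain ⟨l, _, rfl⟩ := hx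
  exact Subgroup.subset_closure ⟨_, _, FC1_it_ne θ l t ht, rfl⟩

private theorem FC1_hb_acts (h : IsSig D θ S s) (i : Fin n) (hi : C.A i (D.ρ i) ≠ -1) (t : k)
    (ht : t ≠ 0) (β : C.Root) (u : k) : FC1h D S s i t * S.x β u * (FC1h D S s i t)⁻¹ =
      S.x β ((∏ l ∈ Finset.range (mo D (C.simple i)),
        ((⇑θ)^[l] t) ^ C.ip (C.simple ((D.ρ ^ l) i)).1 β.1) * u) := by
  rw [FC1_hb h i hi]
  generalize mo D (C.simple i) = m
  induction m generalizing u with
  | zero => simp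
  | succ m ih =>
    rw [List.prod_range_succ, Finset.prod_range_succ]
    have e : ∀ a b c : H, (a * b) * c * (a * b)⁻¹ = a * (b * c * b⁻¹) * a⁻¹ := by
      intro a b c
      group
    rw [e, S.h_conj _ _ _ _ (FC1_it_ne θ m t ht), ih, mul_assoc]


private theorem FC1_red (D : Dg C) (i : Fin n) (l : ℕ) :
    ∃ l', l' < mo D (C.simple i) ∧ (D.ρ ^ l) i = (D.ρ ^ l') i := by
  rcases FC1_mo D i with ⟨h1, h2⟩ | ⟨h1, h2⟩
  · refine ⟨0, by omega, ?_⟩
    rw [pow_zero, Equiv.Perm.one_apply]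
    induction l with
    | zero => rfl
    | succ l ih => rw [pow_succ, Equiv.Perm.mul_apply, h1, ih]
  · refine ⟨l % D.m, ?_, ?_⟩
    · rw [h2]
      apply Nat.mod_lt
      rcases D.m_cases with h | h | h <;> omega
    · unfold Dg.m
      rw [pow_mod_orderOf]

private theorem FC1_single (m l' : ℕ) (a : ℕ → H) (h : ∀ l, l ≠ l' → a l = 1) (hl : l' < m) :
    ((List.range m).map a).prod = a l' := by
  induction m with
  | zero => omega
  | succ m ih =>
    rw [List.prod_range_succ]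
    by_cases h1 : l' = m
    · subst h1
      rw [List.prod_eq_one, one_mul]
      intro x hx
      rw [List.mem_map] at hx
      obtain ⟨l, hl2, rfl⟩ := hx
      rw [List.mem_range] at hl2
      exact h l (by omega)
    · rw [ih (by omega), h m (by omega), mul_one]

private theorem FC1_form (i : Fin n) (hi : C.A i (D.ρ i) ≠ -1) (y : H)
    (hy : y ∈ XO D S (C.simple i)) : ∃ f : ℕ → k,
      y = ((List.range (mo D (C.simple i))).map fun l =>
        S.x (C.simple ((D.ρ ^ l) i)) (f l)).prod := by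
  unfold XO at hy
  induction hy using Subgroup.closure_induction with
  | mem g hg =>
    obtain ⟨γ, t, hγ, rfl⟩ := hg
    rcases hγ with ⟨l, rfl⟩ | hγ
    · obtain ⟨l', hl', h1⟩ := FC1_red D i l
      refine ⟨fun l => if l = l' then t else 0, ?_⟩
      rw [D.r_iter_simple, h1, FC1_single _ l' _ ?_ hl']
      · simp
      · intro l hl
        simp only [if_neg hl]
        exact S.x_zero _
    · exfalso
      have h1 := C.ip_add_root _ _ _ hγ
      rw [D.r_simple, C.simple_val, C.simple_val, C.ip_single] at h1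
      exact hi h1
  | one =>
    refine ⟨fun _ => 0, ?_⟩
    rw [List.prod_eq_one]
    intro x hx
    rw [List.mem_map] at hx
    obtain ⟨l, _, rfl⟩ := hx
    exact S.x_zero _
  | mul x y _ _ hx hy =>
    obtain ⟨f, rfl⟩ := hx
    obtain ⟨g, rfl⟩ := hy
    refine ⟨fun l => f l + g l, ?_⟩
    rw [← FC1_pm S i hi _ _ (fun l => FC1_x_mem S _ _) (fun l => FC1_x_mem S _ _)]
    apply FC1_congr
    intro l
    rw [S.map_add]
  | inv x _ hx =>
    obtain ⟨f, rfl⟩ := hx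
    refine ⟨fun l => - f l, ?_⟩
    rw [← FC1_pi S i hi _ (fun l => FC1_x_mem S _ _)]
    apply FC1_congr
    intro l
    rw [S.x_neg]

variable {p : H →* GL C.Idx k}

private theorem FC1_xl_U (S : StSys C k H) (i : Fin n) (f : ℕ → k) (m : ℕ) :
    ((List.range m).map fun l => S.x (C.simple ((D.ρ ^ l) i)) (f l)).prod ∈ S.U 1 := by
  apply Subgroup.list_prod_mem
  intro x hx
  rw [List.mem_map] at hx
  obtain ⟨l, _, rfl⟩ := hx
  exact Subgroup.subset_closure ⟨_, _, by rw [C.ht_simple], rfl⟩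

private theorem FC1_xi_sum (hp : ∀ β t, p (S.x β t) = C.xg k β t) (i : Fin n) (f : ℕ → k) (m : ℕ)
    (j : Fin n) : C.xi j (p (((List.range m).map fun l =>
      S.x (C.simple ((D.ρ ^ l) i)) (f l)).prod) : Matrix C.Idx C.Idx k) =
      ∑ l ∈ Finset.range m, if (D.ρ ^ l) i = j then f l else 0 := by
  induction m with
  | zero => simp [C.xi_one]
  | succ m ih =>
    rw [List.prod_range_succ, map_mul, C.xi_mul j _ _
      (C.S9_U S p hp 1 _ (FC1_xl_U (D := D) S i f m))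
      (C.S9_U S p hp 1 _ (Subgroup.subset_closure ⟨_, _, by rw [C.ht_simple], rfl⟩)), ih, hp,
      C.xi_xg j _ (C.simple_pos _), Finset.sum_range_succ]
    simp only [C.simple_injective.eq_iff]

private theorem FC1_xi (hp : ∀ β t, p (S.x β t) = C.xg k β t) (i : Fin n)
    (hi : C.A i (D.ρ i) ≠ -1) (f : ℕ → k) (l : ℕ) (hl : l < mo D (C.simple i)) :
    C.xi ((D.ρ ^ l) i) (p (((List.range (mo D (C.simple i))).map fun l =>
      S.x (C.simple ((D.ρ ^ l) i)) (f l)).prod) : Matrix C.Idx C.Idx k) = f l := by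
  rw [FC1_xi_sum hp, Finset.sum_eq_single l]
  · rw [if_pos rfl]
  · intro l' hl' hne
    rw [if_neg]
    intro h
    have h1 := FC1_orth D i hi l' l (Finset.mem_range.mp hl') hl hne
    rw [h, C.diag] at h1
    norm_num at h1
  · intro h
    exact absurd (Finset.mem_range.mpr hl) h

private theorem FC1_xi0 (h : IsSig D θ S s) (hp : ∀ β t, p (S.x β t) = C.xg k β t) (i : Fin n)
    (hi : C.A i (D.ρ i) ≠ -1) (t : k) :
    C.xi i (p (yb D S s (C.simple i) t) : Matrix C.Idx C.Idx k) = t := by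
  rw [FC1_yb h]
  exact FC1_xi (D := D) hp i hi (fun l => (⇑θ)^[l] t) 0 (FC1_mo_pos D i)

private theorem FC1_yb_inj (h : IsSig D θ S s) (hp : ∀ β t, p (S.x β t) = C.xg k β t) (i : Fin n)
    (hi : C.A i (D.ρ i) ≠ -1) (t u : k)
    (htu : yb D S s (C.simple i) t = yb D S s (C.simple i) u) : t = u := by
  rw [← FC1_xi0 h hp i hi t, htu, FC1_xi0 h hp i hi u]

private theorem FC1_fix (h : IsSig D θ S s) (hp : ∀ β t, p (S.x β t) = C.xg k β t) (i : Fin n)
    (hi : C.A i (D.ρ i) ≠ -1) (y : H) (hy : y ∈ fixX D S s (C.simple i)) :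
    ∃ a, (D.ρ i = i → θ a = a) ∧ y = yb D S s (C.simple i) a := by
  obtain ⟨hy1, hy2⟩ := Subgroup.mem_inf.mp hy
  change s y = y at hy2
  obtain ⟨f, hf⟩ := FC1_form i hi y hy1
  have hs : s y = ((List.range (mo D (C.simple (D.ρ i)))).map fun l =>
      S.x (C.simple ((D.ρ ^ l) (D.ρ i))) (θ (f l))).prod := by
    rw [FC1_mo_rho, hf, map_list_prod, List.map_map]
    apply FC1_congr
    intro l
    simp only [Function.comp]
    rw [h, D.r_simple, D.sg_simple, Int.cast_one, one_mul, ← Equiv.Perm.mul_apply,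
      ← Equiv.Perm.mul_apply, ← pow_succ, ← pow_succ']
  have hi' : C.A (D.ρ i) (D.ρ (D.ρ i)) ≠ -1 := by
    rw [D.hρ]
    exact hi
  have key : ∀ l, l < mo D (C.simple i) →
      C.xi ((D.ρ ^ (l + 1)) i) (p y : Matrix C.Idx C.Idx k) = θ (f l) := by
    intro l hl
    rw [← hy2, hs, pow_succ, Equiv.Perm.mul_apply]
    exact FC1_xi (D := D) hp (D.ρ i) hi' (fun l => θ (f l)) l (by rw [FC1_mo_rho]; exact hl)
  have key2 : ∀ l, l < mo D (C.simple i) →
      C.xi ((D.ρ ^ l) i) (p y : Matrix C.Idx C.Idx k) = f l := by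
    intro l hl
    rw [hf]
    exact FC1_xi (D := D) hp i hi f l hl
  have h3 : ∀ l, l < mo D (C.simple i) → f l = (⇑θ)^[l] (f 0) := by
    intro l
    induction l with
    | zero => intro _; rfl
    | succ l ih =>
      intro hl
      rw [← key2 (l + 1) hl, key l (by omega), ih (by omega), Function.iterate_succ_apply']
  refine ⟨f 0, ?_, ?_⟩
  · intro hr
    have h4 := key 0 (FC1_mo_pos D i)
    have h5 := key2 0 (FC1_mo_pos D i)
    rw [zero_add, pow_one, hr] at h4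
    rw [pow_zero, Equiv.Perm.one_apply] at h5
    rw [← h4, h5]
  · rw [FC1_yb h, hf]
    congr 1
    apply List.map_congr_left
    intro l hl
    rw [← h3 l (List.mem_range.mp hl)]

private theorem FC1_s_yb (h : IsSig D θ S s) (i : Fin n) (t : k) :
    s (yb D S s (C.simple i) t) = yb D S s (C.simple (D.ρ i)) (θ t) := by
  unfold yb
  rw [map_list_prod, List.map_map, FC1_mo_rho]
  apply FC1_congr
  intro l
  simp only [Function.comp]
  rw [← Function.iterate_succ_apply' (⇑s), Function.iterate_succ_apply, h, D.r_simple, D.sg_simple,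
    Int.cast_one, one_mul]

private theorem FC1_yb_rho (h : IsSig D θ S s) (hθ : ∀ t, (⇑θ)^[D.m] t = t) (i : Fin n)
    (hi : C.A i (D.ρ i) ≠ -1) (t : k) (ht : D.ρ i = i → θ t = t) :
    yb D S s (C.simple (D.ρ i)) (θ t) = yb D S s (C.simple i) t := by
  rcases FC1_mo D i with ⟨h1, h2⟩ | ⟨h1, h2⟩
  · rw [h1, ht h1]
  · rw [FC1_yb h, FC1_yb h, FC1_mo_rho, h2]
    obtain ⟨a, ha⟩ : ∃ a : ℕ → H, ∀ l, S.x (C.simple ((D.ρ ^ l) i)) ((⇑θ)^[l] t) = a l :=
      ⟨_, fun _ => rfl⟩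
    have e1 : ∀ l, S.x (C.simple ((D.ρ ^ l) (D.ρ i))) ((⇑θ)^[l] (θ t)) = a (l + 1) := by
      intro l
      rw [← ha, pow_succ, Equiv.Perm.mul_apply, Function.iterate_succ_apply]
    rw [FC1_congr _ _ _ e1, FC1_congr _ _ _ ha]
    have hcomm : ∀ l ∈ List.range D.m, Commute (a 0) (a l) := by
      intro l hl
      rw [List.mem_range] at hl
      rw [← ha, ← ha]
      apply S.comm
      rw [C.simple_val, C.simple_val, C.ip_single]
      by_cases h0 : l = 0
      · subst h0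
        rw [C.diag]
        norm_num
      · rw [FC1_orth D i hi 0 l (by omega) (by omega) (Ne.symm h0)]
    have e2 : a D.m = a 0 := by
      rw [← ha, ← ha, hθ]
      unfold Dg.m
      rw [pow_orderOf_eq_one, pow_zero, Function.iterate_zero, id]
    have e3 := List.prod_range_succ a D.m
    have e4 := List.prod_range_succ' a D.m
    have e5 : Commute (a 0) ((List.range D.m).map a).prod := by
      apply Commute.list_prod_right
      intro z hz
      rw [List.mem_map] at hz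
      obtain ⟨l, hl, rfl⟩ := hz
      exact hcomm l hl
    rw [e4, e2, ← e5.eq] at e3
    exact mul_left_cancel e3

private theorem FC1_mem_fix (h : IsSig D θ S s) (hθ : ∀ t, (⇑θ)^[D.m] t = t) (i : Fin n)
    (hi : C.A i (D.ρ i) ≠ -1) (t : k) (ht : D.ρ i = i → θ t = t) :
    yb D S s (C.simple i) t ∈ fixX D S s (C.simple i) := by
  refine Subgroup.mem_inf.mpr ⟨?_, ?_⟩
  · rw [FC1_yb h]
    apply Subgroup.list_prod_mem
    intro x hx
    rw [List.mem_map] at hx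
    obtain ⟨l, _, rfl⟩ := hx
    exact Subgroup.subset_closure ⟨_, _, Or.inl ⟨l, (D.r_iter_simple l i).symm⟩, rfl⟩
  · change s _ = _
    rw [FC1_s_yb h, FC1_yb_rho h hθ i hi t ht]
    rfl

private theorem FC1_iter_neg (D : Dg C) (l : ℕ) (β : C.Root) : D.r^[l] (-β) = -(D.r^[l] β) := by
  induction l with
  | zero => rfl
  | succ l ih => rw [Function.iterate_succ_apply', Function.iterate_succ_apply', ih, D.r_neg]

private theorem FC1_inO_neg (D : Dg C) (β γ : C.Root) (hγ : D.inO β γ) : D.inO (-β) (-γ) := by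
  rcases hγ with ⟨l, rfl⟩ | hγ
  · exact Or.inl ⟨l, (FC1_iter_neg D l β).symm⟩
  · right
    rw [SLC.Root.neg_val, SLC.Root.neg_val, D.r_neg, SLC.Root.neg_val, hγ]
    abel

private theorem FC1_fixX_neg (D : Dg C) (S : StSys C k H) (s : H →* H) (β : C.Root) :
    fixX D S.neg s β = fixX D S s (-β) := by
  have h : XO D S.neg β = XO D S (-β) := by
    unfold XO
    congr 1
    ext g
    constructor
    · rintro ⟨γ, t, hγ, rfl⟩
      exact ⟨-γ, t, FC1_inO_neg D β γ hγ, rfl⟩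
    · rintro ⟨γ, t, hγ, rfl⟩
      refine ⟨-γ, t, ?_, ?_⟩
      · have := FC1_inO_neg D (-β) γ hγ
        rwa [C.neg_neg_root] at this
      · rw [StSys.neg_x, C.neg_neg_root]
  unfold fixX
  rw [h]

private theorem FC1_le_Eg (S : StSys C k H) (s : H →* H) (i : Fin n) :
    fixX D S s (C.simple i) ≤ Eg S s :=
  (fixX_le_fixU S s (C.simple i) (C.simple_pos i)).trans le_sup_left

private theorem FC1_le_Eg_neg (S : StSys C k H) (s : H →* H) (i : Fin n) :
    fixX D S.neg s (C.simple i) ≤ Eg S s := by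
  rw [← Eg_neg]
  exact FC1_le_Eg S.neg s i

private theorem FC1_yb_zero (h : IsSig D θ S s) (i : Fin n) (hi : C.A i (D.ρ i) ≠ -1) :
    yb D S s (C.simple i) 0 = 1 := by
  have h1 := FC1_yb_add h i hi 0 0
  rw [add_zero] at h1
  exact left_eq_mul.mp h1

private theorem FC1_hb_chi (h : IsSig D θ S s) (hp : ∀ β t, p (S.x β t) = C.xg k β t) (i : Fin n)
    (hi : C.A i (D.ρ i) ≠ -1) (t : k) (ht : t ≠ 0) (j : Fin n) :
    C.chi (p (FC1h D S s i t) : Matrix C.Idx C.Idx k) (C.simple j) =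
      ∏ l ∈ Finset.range (mo D (C.simple i)), ((⇑θ)^[l] t) ^ C.A ((D.ρ ^ l) i) j := by
  have h1 := C.T_fix _ (C.S9_T S p hp _ (FC1_hb_T h i hi t ht)) (C.simple j) 1
  have h2 := congrArg p (FC1_hb_acts h i hi t ht (C.simple j) 1)
  rw [map_mul, map_mul, map_inv, hp, hp, h1.2, mul_one, mul_one] at h2
  rw [(C.xg_inj _ _ _ _ h1.1 h2).2]
  apply Finset.prod_congr rfl
  intro l _
  rw [C.simple_val, C.simple_val, C.ip_single]

/-- the homomorphism `p` for the opposite system -/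
private noncomputable def FC1_om (p : H →* GL C.Idx k) : H →* GL C.Idx k :=
  (MulAut.conj (omG C k)).toMonoidHom.comp p

private theorem FC1_om_x (hp : ∀ β t, p (S.x β t) = C.xg k β t) (β : C.Root) (t : k) :
    FC1_om p (S.neg.x β t) = C.xg k β t := by
  change omG C k * p (S.x (-β) t) * (omG C k)⁻¹ = _
  rw [hp, omG_xg, C.neg_neg_root]

private theorem FC1_half {K : Type*} [Field K] {θ' : K ≃+* K} {G : Type*} [Group G]
    {A : StSys C K G} {σ' : G →* G} {p' : G →* GL C.Idx K}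
    (h : IsSig D θ S s) (hθ : ∀ t, (⇑θ)^[D.m] t = t)
    (h' : IsSig D θ' A σ') (hp' : ∀ β t, p' (A.x β t) = C.xg K β t)
    (E : Subgroup H) (Ψ : E →* G) (i : Fin n) (hi : C.A i (D.ρ i) ≠ -1)
    (hE : fixX D S s (C.simple i) ≤ E)
    (hΨ : ∀ x : E, (x : H) ∈ fixX D S s (C.simple i) → Ψ x ∈ fixX D A σ' (C.simple i)) :
    ∃ f : kO D θ i → K, (∀ a b, f (a + b) = f a + f b) ∧
      (∀ (t : kO D θ i) (x : E), (x : H) = yb D S s (C.simple i) t →
        Ψ x = yb D A σ' (C.simple i) (f t)) ∧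
      (D.ρ i = i → ∀ t, θ' (f t) = f t) := by
  have hmem : ∀ t : kO D θ i, yb D S s (C.simple i) t ∈ fixX D S s (C.simple i) :=
    fun t => FC1_mem_fix h hθ i hi t ((mem_kO D θ i t).mp t.2)
  have h1 : ∀ t : kO D θ i, ∃ a, (D.ρ i = i → θ' a = a) ∧
      Ψ ⟨yb D S s (C.simple i) t, hE (hmem t)⟩ = yb D A σ' (C.simple i) a :=
    fun t => FC1_fix h' hp' i hi _ (hΨ ⟨yb D S s (C.simple i) t, hE (hmem t)⟩ (hmem t))
  choose f hf1 hf2 using h1
  refine ⟨f, ?_, ?_, ?_⟩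
  · intro a b
    have e : (⟨yb D S s (C.simple i) ((a + b : kO D θ i) : k), hE (hmem (a + b))⟩ : E) =
        ⟨yb D S s (C.simple i) a, hE (hmem a)⟩ * ⟨yb D S s (C.simple i) b, hE (hmem b)⟩ :=
      Subtype.ext (FC1_yb_add h i hi _ _)
    have e2 := congrArg Ψ e
    rw [map_mul, hf2, hf2, hf2, ← FC1_yb_add h' i hi] at e2
    exact FC1_yb_inj h' hp' i hi _ _ e2
  · intro t x hx
    have : x = ⟨yb D S s (C.simple i) t, hE (hmem t)⟩ := Subtype.ext hx
    rw [this, hf2]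
  · intro hr t
    exact hf1 t hr

end FC1a

variable {n : ℕ} {C : SLC n} {D : Dg C} {k : Type*} [Field k] {θ : k ≃+* k} {H : Type*} [Group H]
  {S : StSys C k H} {s : H →* H} {p : H →* GL C.Idx k}

/-- elements of the orbit root groups -/
private theorem FC1_exists (he : Env D θ S s p) (i : Fin n) (hi : C.A i (D.ρ i) ≠ -1) :
    ∃ Y Z : kO D θ i → Eg S s, (∀ t, ((Y t : Eg S s) : H) = yb D S s (C.simple i) t) ∧
      (∀ t, ((Z t : Eg S s) : H) = yb D S s (-(C.simple i)) t) ∧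
      (∀ t, ((Y t : Eg S s) : H) ∈ fixX D S s (C.simple i)) := by
  refine ⟨fun t => ⟨yb D S s (C.simple i) t, FC1_le_Eg (D := D) S s i
      (FC1_mem_fix he.sig he.hθ i hi t ((mem_kO D θ i t).mp t.2))⟩,
    fun t => ⟨yb D S s (-(C.simple i)) t, ?_⟩, fun t => rfl, fun t => rfl, fun t => ?_⟩
  · rw [← FC1_yb_neg]
    exact FC1_le_Eg_neg (D := D) S s i
      (FC1_mem_fix he.sig.neg he.hθ i hi t ((mem_kO D θ i t).mp t.2))
  · exact FC1_mem_fix he.sig he.hθ i hi t ((mem_kO D θ i t).mp t.2)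

theorem exists_RO (he : Env D θ S s p) {K : Type*} [Field K] (θ' : K ≃+* K)
    (Ψ : Eg S s →* GL C.Idx K) (hP : Pin he θ' Ψ) (i : Fin n) (hi : C.A i (D.ρ i) ≠ -1) :
    ∃ (c : K) (φ : kO D θ i →+* K), RO he θ' Ψ i c φ := by
  have h := he.sig
  have h' : IsSig D θ' (C.adS K) (D.sgl θ') := isSig_adS D θ'
  have hid : ∀ β t, MonoidHom.id (GL C.Idx K) ((C.adS K).x β t) = C.xg K β t := fun _ _ => rfl
  have hidm : ∀ β t, FC1_om (MonoidHom.id (GL C.Idx K)) ((C.adS K).neg.x β t) = C.xg K β t :=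
    fun β t => FC1_om_x hid β t
  obtain ⟨f, f1, f2, f3⟩ := FC1_half h he.hθ h' hid (Eg S s) Ψ i hi (FC1_le_Eg S s i) (hP.pos i)
  obtain ⟨g, g1, g2, g3⟩ := FC1_half h.neg he.hθ h'.neg hidm (Eg S s) Ψ i hi
    (FC1_le_Eg_neg S s i) (fun x hx => by
      rw [FC1_fixX_neg] at hx ⊢
      exact hP.neg i x hx)
  simp only [FC1_yb_neg] at g2
  obtain ⟨Y, Z, hY, hZ, hYf⟩ := FC1_exists he i hi
  have hf0 : ∀ t, f t = 0 → t = 0 := by
    intro t ht
    have h1 := f2 t (Y t) (hY t)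
    rw [ht, FC1_yb_zero h' i hi] at h1
    have h2 := Pin_inj he θ' Ψ hP i (Y t) (Or.inl (hYf t)) h1
    have h3 := hY t
    rw [h2] at h3
    have h4 : yb D S s (C.simple i) (0 : k) = yb D S s (C.simple i) t := by
      rw [FC1_yb_zero h i hi, ← h3]
      rfl
    have h5 := FC1_yb_inj h he.hp i hi _ _ h4
    exact Subtype.ext h5.symm
  -- the relation
  have hrel : ∀ t u : kO D θ i, t ≠ 0 →
      yb D (C.adS K) (D.sgl θ') (C.simple i) (f t) *
        yb D (C.adS K) (D.sgl θ') (-(C.simple i)) (g t⁻¹) *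
        yb D (C.adS K) (D.sgl θ') (C.simple i) (f t) *
        yb D (C.adS K) (D.sgl θ') (C.simple i) (f u) =
      yb D (C.adS K) (D.sgl θ') (-(C.simple i)) (g (t⁻¹ ^ 2 * u)) *
        (yb D (C.adS K) (D.sgl θ') (C.simple i) (f t) *
        yb D (C.adS K) (D.sgl θ') (-(C.simple i)) (g t⁻¹) *
        yb D (C.adS K) (D.sgl θ') (C.simple i) (f t)) := by
    intro t u ht
    have ht' : (t : k) ≠ 0 := fun h0 => ht (Subtype.ext h0)
    have e : Y t * Z t⁻¹ * Y t * Y u = Z (t⁻¹ ^ 2 * u) * (Y t * Z t⁻¹ * Y t) := by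
      apply Subtype.ext
      have h1 := FC1_nb_conj h i hi (t : k) (u : k) ht'
      rw [mul_inv_eq_iff_eq_mul] at h1
      unfold FC1n at h1
      simp only [Subgroup.coe_mul, hY, hZ]
      exact h1
    have e2 := congrArg Ψ e
    simp only [map_mul] at e2
    rw [f2 t (Y t) (hY t), f2 u (Y u) (hY u), g2 _ (Z t⁻¹) (hZ _), g2 _ (Z (t⁻¹ ^ 2 * u)) (hZ _)]
      at e2
    exact e2
  have hf1 : f 1 ≠ 0 := fun h0 => one_ne_zero (hf0 1 h0)
  have hfg : ∀ t : kO D θ i, t ≠ 0 → f t * g t⁻¹ = 1 := fun t ht =>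
    rank_mat C D θ' hP.hθ i hi (f t) (g t⁻¹) (f 1) (g (t⁻¹ ^ 2 * 1)) hf1 (hrel t 1 ht)
  have hg : ∀ t : kO D θ i, t ≠ 0 → g t = (f t⁻¹)⁻¹ := by
    intro t ht
    have h1 := hfg t⁻¹ (inv_ne_zero ht)
    rw [inv_inv] at h1
    exact eq_inv_of_mul_eq_one_right h1
  have hgu : ∀ t u : kO D θ i, t ≠ 0 → g (t⁻¹ ^ 2 * u) = (f t)⁻¹ ^ 2 * f u := by
    intro t u ht
    have h1 := hrel t u ht
    have hft : f t ≠ 0 := fun h0 => ht (hf0 t h0)
    have h2 := FC1_nb_conj h' i hi (f t) (f u) hft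
    unfold FC1n at h2
    have h3 : g t⁻¹ = (f t)⁻¹ := eq_inv_of_mul_eq_one_right (hfg t ht)
    rw [h3, ← mul_inv_eq_iff_eq_mul, h2] at h1
    have h4 : yb D (C.adS K).neg (D.sgl θ') (C.simple i) ((f t)⁻¹ ^ 2 * f u) =
        yb D (C.adS K).neg (D.sgl θ') (C.simple i) (g (t⁻¹ ^ 2 * u)) := by
      rw [FC1_yb_neg, FC1_yb_neg]
      exact h1
    exact (FC1_yb_inj h'.neg hidm i hi _ _ h4).symm
  have hhua : ∀ t u : kO D θ i, t ≠ 0 → u ≠ 0 → f (t ^ 2 * u⁻¹) * f u = f t ^ 2 := by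
    intro t u ht hu
    have h1 := hgu t u ht
    have hft : f t ≠ 0 := fun h0 => ht (hf0 t h0)
    have hne : t⁻¹ ^ 2 * u ≠ 0 := mul_ne_zero (pow_ne_zero _ (inv_ne_zero ht)) hu
    rw [hg _ hne] at h1
    have h2 : (t⁻¹ ^ 2 * u)⁻¹ = t ^ 2 * u⁻¹ := by
      rw [mul_inv, inv_pow, inv_inv]
    rw [h2] at h1
    have h3 : f (t ^ 2 * u⁻¹) ≠ 0 := fun h0 =>
      mul_ne_zero (pow_ne_zero 2 ht) (inv_ne_zero hu) (hf0 _ h0)
    have h4 : f u = f t ^ 2 * (f (t ^ 2 * u⁻¹))⁻¹ := by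
      rw [h1, inv_pow, ← mul_assoc, mul_inv_cancel₀ (pow_ne_zero 2 hft), one_mul]
    rw [h4, mul_comm (f t ^ 2), ← mul_assoc, mul_inv_cancel₀ h3, one_mul]
  obtain ⟨c, φ, hc, hφ⟩ := hua f f1 hf0 hhua
  have hc1 : c = f 1 := by rw [hφ, map_one, mul_one]
  have hφ' : ∀ t, φ t = c⁻¹ * f t := by
    intro t
    rw [hφ t, ← mul_assoc, inv_mul_cancel₀ hc, one_mul]
  refine ⟨c, φ, hc, ?_, ?_, ?_, ?_⟩
  · intro hr
    rw [hc1, f3 hr]
  · intro hr t
    rw [hφ', map_mul, map_inv₀, f3 hr, hc1, f3 hr]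
  · intro t x hx
    rw [f2 t x hx, hφ]
  · intro t x hx
    rw [g2 t x hx]
    congr 1
    by_cases ht : t = 0
    · subst ht
      have h0 := g1 0 0
      rw [add_zero] at h0
      rw [map_zero, mul_zero]
      exact left_eq_add.mp h0
    · rw [hg t ht, hφ, map_inv₀, mul_inv, inv_inv]

theorem RO_tor (he : Env D θ S s p) {K : Type*} [Field K] (θ' : K ≃+* K)
    (Ψ : Eg S s →* GL C.Idx K) (hP : Pin he θ' Ψ) (i : Fin n) (hi : C.A i (D.ρ i) ≠ -1)
    (c : K) (φ : kO D θ i →+* K) (hR : RO he θ' Ψ i c φ) (t : kO D θ i) (ht : t ≠ 0) :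
    ∃ h : Eg S s, (h : H) ∈ S.T ∧
      (∀ j, C.chi (p h : Matrix C.Idx C.Idx k) (C.simple j) =
        ∏ l ∈ Finset.range (mo D (C.simple i)), ((⇑θ)^[l] (t : k)) ^ C.A ((D.ρ ^ l) i) j) ∧
      ∀ j, C.chi (Ψ h : Matrix C.Idx C.Idx K) (C.simple j) =
        ∏ l ∈ Finset.range (mo D (C.simple i)), ((⇑θ')^[l] (φ t)) ^ C.A ((D.ρ ^ l) i) j := by
  have h := he.sig
  have h' : IsSig D θ' (C.adS K) (D.sgl θ') := isSig_adS D θ'
  have hid : ∀ β t, MonoidHom.id (GL C.Idx K) ((C.adS K).x β t) = C.xg K β t := fun _ _ => rfl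
  have ht' : (t : k) ≠ 0 := fun h0 => ht (Subtype.ext h0)
  have hφt : φ t ≠ 0 := (map_ne_zero φ).mpr ht
  obtain ⟨Y, Z, hY, hZ, hYf⟩ := FC1_exists he i hi
  have hval : ((Y t * Z t⁻¹ * Y t * (Y 1 * Z 1⁻¹ * Y 1)⁻¹ : Eg S s) : H) =
      FC1h D S s i (t : k) := by
    unfold FC1h FC1n
    simp only [Subgroup.coe_mul, Subgroup.coe_inv, hY, hZ]
    simp
  have hn : ∀ u : kO D θ i, u ≠ 0 → Ψ (Y u * Z u⁻¹ * Y u) =
      FC1n D (C.adS K) (D.sgl θ') i (c * φ u) := by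
    intro u hu
    unfold FC1n
    rw [map_mul, map_mul, hR.pos u (Y u) (hY u), hR.neg u⁻¹ (Z u⁻¹) (hZ _), map_inv₀, mul_inv]
  have hΨ : Ψ (Y t * Z t⁻¹ * Y t * (Y 1 * Z 1⁻¹ * Y 1)⁻¹) =
      FC1h D (C.adS K) (D.sgl θ') i (φ t) := by
    rw [map_mul, map_inv, hn t ht, hn 1 one_ne_zero, map_one, mul_one]
    have h1 := FC1_hb_mul h' i hi c (φ t) hR.c_ne hφt
    have h2 : FC1h D (C.adS K) (D.sgl θ') i (φ t) =
        (FC1h D (C.adS K) (D.sgl θ') i c)⁻¹ * FC1h D (C.adS K) (D.sgl θ') i (c * φ t) := by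
      rw [h1]
      group
    have h3 := FC1_hb_mul h' i hi (φ t) c hφt hR.c_ne
    rw [mul_comm (φ t) c] at h3
    have h4 : FC1h D (C.adS K) (D.sgl θ') i (φ t) =
        FC1h D (C.adS K) (D.sgl θ') i (c * φ t) * (FC1h D (C.adS K) (D.sgl θ') i c)⁻¹ := by
      rw [h3]
      group
    rw [h4]
    unfold FC1h
    group
  refine ⟨Y t * Z t⁻¹ * Y t * (Y 1 * Z 1⁻¹ * Y 1)⁻¹, ?_, ?_, ?_⟩
  · rw [hval]
    exact FC1_hb_T h i hi _ ht'
  · intro j
    rw [hval]
    exact FC1_hb_chi h he.hp i hi _ ht' j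
  · intro j
    rw [hΨ]
    exact FC1_hb_chi h' hid i hi _ hφt j

theorem RO_compat (he : Env D θ S s p) {K : Type*} [Field K] (θ' : K ≃+* K)
    (Ψ : Eg S s →* GL C.Idx K) (hP : Pin he θ' Ψ) (i j : Fin n) (hi : C.A i (D.ρ i) ≠ -1)
    (hj : C.A j (D.ρ j) ≠ -1)
    (c : K) (φ : kO D θ i →+* K) (hR : RO he θ' Ψ i c φ)
    (c' : K) (φ' : kO D θ j →+* K) (hR' : RO he θ' Ψ j c' φ') (t : kO D θ i) (ht : t ≠ 0)
    (P : kO D θ j) (hPt : (P : k) =
      ∏ l ∈ Finset.range (mo D (C.simple i)), ((⇑θ)^[l] (t : k)) ^ C.A ((D.ρ ^ l) i) j) :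
    φ' P = ∏ l ∈ Finset.range (mo D (C.simple i)), ((⇑θ')^[l] (φ t)) ^ C.A ((D.ρ ^ l) i) j := by
  have h := he.sig
  have h' : IsSig D θ' (C.adS K) (D.sgl θ') := isSig_adS D θ'
  have hid : ∀ β t, MonoidHom.id (GL C.Idx K) ((C.adS K).x β t) = C.xg K β t := fun _ _ => rfl
  obtain ⟨τ, hτ, h1, h2⟩ := RO_tor he θ' Ψ hP i hi c φ hR t ht
  obtain ⟨Y, Z, hY, hZ, hYf⟩ := FC1_exists he j hj
  -- `τ * Y 1 * τ⁻¹` is `Y P`
  have hconj : ((τ * Y 1 * τ⁻¹ : Eg S s) : H) ∈ fixX D S s (C.simple j) := by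
    refine Subgroup.mem_inf.mpr ⟨?_, ?_⟩
    · have h3 : ((Y 1 : Eg S s) : H) ∈ XO D S (C.simple j) := (Subgroup.mem_inf.mp (hYf 1)).1
      obtain ⟨cc, _, _, hcc⟩ := S.T_acts' τ hτ
      have h4 : XO D S (C.simple j) ≤
          (XO D S (C.simple j)).comap (MulAut.conj (τ : H)).toMonoidHom := by
        conv_lhs => unfold XO
        rw [Subgroup.closure_le]
        rintro g ⟨γ, v, hγ, rfl⟩
        change (τ : H) * S.x γ v * (τ : H)⁻¹ ∈ XO D S (C.simple j)
        rw [hcc]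
        exact Subgroup.subset_closure ⟨γ, _, hγ, rfl⟩
      exact h4 h3
    · exact Eg_le_fix S s _ (τ * Y 1 * τ⁻¹ : Eg S s).2
  obtain ⟨a, ha1, ha2⟩ := FC1_fix h he.hp j hj _ hconj
  have hpT := C.S9_T S p he.hp _ hτ
  have haP : a = P := by
    have h3 := FC1_xi0 h he.hp j hj a
    rw [← ha2] at h3
    have hb : p (τ : H) ∈ C.Gad k := by
      rw [← C.gen_adS]
      exact (C.adS k).T_le_gen hpT
    have h4 := C.xi_conj (p (τ : H)) (p (Y 1 : H)) hb (C.Fil_T _ hpT)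
      (C.S9_U S p he.hp 1 _ (by
        have := fixX_le_fixU S s (C.simple j) (C.simple_pos j) (hYf 1)
        exact (Subgroup.mem_inf.mp this).1)) j
    have h5 : p ((τ * Y 1 * τ⁻¹ : Eg S s) : H) = p (τ : H) * p (Y 1 : H) * (p (τ : H))⁻¹ := by
      simp only [Subgroup.coe_mul, Subgroup.coe_inv, map_mul, map_inv]
    rw [h5, h4.2, hY 1, FC1_xi0 h he.hp j hj, h1 j, ← hPt] at h3
    rw [← h3]
    simp
  have h6 : Ψ (τ * Y 1 * τ⁻¹) = yb D (C.adS K) (D.sgl θ') (C.simple j) (c' * φ' P) :=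
    hR'.pos P _ (by rw [ha2, haP])
  have h7 := Pin_xi he θ' Ψ hP τ hτ j (Y 1) (hYf 1)
  have h8 := FC1_xi0 h' hid j hj (c' * φ' P)
  change C.xi j ((yb D (C.adS K) (D.sgl θ') (C.simple j) (c' * φ' P) : GL C.Idx K) :
    Matrix C.Idx C.Idx K) = _ at h8
  have h9 := FC1_xi0 h' hid j hj (c' * φ' 1)
  change C.xi j ((yb D (C.adS K) (D.sgl θ') (C.simple j) (c' * φ' 1) : GL C.Idx K) :
    Matrix C.Idx C.Idx K) = _ at h9
  rw [h6, h8, hR'.pos 1 (Y 1) (hY 1), h9, h2 j, map_one, mul_one, mul_comm _ c'] at h7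
  exact mul_left_cancel₀ hR'.c_ne h7

/-- the relation between the data at `i` and at `ρ i` -/
theorem RO_rho (he : Env D θ S s p) {K : Type*} [Field K] (θ' : K ≃+* K)
    (Ψ : Eg S s →* GL C.Idx K) (hP : Pin he θ' Ψ) (i : Fin n) (hi : C.A i (D.ρ i) ≠ -1)
    (c : K) (φ : kO D θ i →+* K) (hR : RO he θ' Ψ i c φ)
    (c' : K) (φ' : kO D θ (D.ρ i) →+* K) (hR' : RO he θ' Ψ (D.ρ i) c' φ')
    (t : kO D θ i) (t' : kO D θ (D.ρ i)) (ht : (t' : k) = θ t) :
    c' = θ' c ∧ φ' t' = θ' (φ t) := by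
  have h := he.sig
  have h' : IsSig D θ' (C.adS K) (D.sgl θ') := isSig_adS D θ'
  have hid : ∀ β t, MonoidHom.id (GL C.Idx K) ((C.adS K).x β t) = C.xg K β t := fun _ _ => rfl
  have hi' : C.A (D.ρ i) (D.ρ (D.ρ i)) ≠ -1 := by
    rw [D.hρ]
    exact hi
  obtain ⟨Y, Z, hY, hZ, hYf⟩ := FC1_exists he i hi
  have key : ∀ (t : kO D θ i) (t' : kO D θ (D.ρ i)), (t' : k) = θ t →
      c' * φ' t' = θ' (c * φ t) := by
    intro t t' ht
    have h1 := FC1_yb_rho h he.hθ i hi (t : k) ((mem_kO D θ i t).mp t.2)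
    have h2 := hR.pos t (Y t) (hY t)
    have h3 := hR'.pos t' (Y t) (by rw [hY, ht, h1])
    have hc : D.ρ i = i → θ' (c * φ t) = c * φ t := by
      intro hr
      rw [map_mul, hR.c_fix hr, hR.φ_fix hr]
    have h4 := FC1_yb_rho h' hP.hθ i hi (c * φ t) hc
    rw [h2, ← h4] at h3
    exact (FC1_yb_inj h' hid (D.ρ i) hi' _ _ h3).symm
  have h1 := key 1 1 (by simp)
  rw [map_one, map_one, mul_one, mul_one] at h1
  refine ⟨h1, ?_⟩
  have h2 := key t t' ht
  rw [map_mul, ← h1] at h2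
  exact mul_left_cancel₀ hR'.c_ne h2

end Pool.Agent.H86.UM
end
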