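import Pool.Agent.H86.AL.M14
import Pool.Agent.H86.AL.M19
import Pool.Agent.H86.AL.M21
import Pool.Agent.H86.AL.M22

/-!
# M27: collected modules

Pool.Agent.H75.US.S1
Pool.Agent.H75.US.S4
Pool.Agent.H75.US.S5
Pool.Agent.H86.UM.ZF0
-/

section
/- module Pool.Agent.H75.US.S1 -/
/-!
# Project US, module S1: diagonal automorphisms of `Esr D σ`

Let `A = tad C cc`, `cc (ρ j) = cc j`. Then `A * xg β t * A⁻¹ = xg β (χ_β t)`, `χ_β = ∏ j, cc j ^ β_j`
(`tad_xg` or similar in H75/UE or H86/UM: search for `tadM`; entries of `X`), `χ_(r β) = χ_β` (reindex by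
`ρ`, `r_val`), so `A * yb β t * A⁻¹ = yb β (χ_β t)` (`IsSig.iter` with `θ = 1`). So conjugation by `A` maps
`GF D K` to itself (`GF_gen`, `exists_tadG`), `FU` to itself and `FUm` to itself (`FU_eq`, `FUm_eq`), and
commutes with `σ`: by `GF_gen` it is enough to check it on `yg (± simple j) t`; if `ρ j ≠ j` this is
`cc (t0 j) = θ (cc j)`; if `ρ j = j` then `t0 j` is not fixed (`Swap.fix_iff`), so
`cc (t0 (t0 j)) = θ (cc (t0 j))`, and `cc (t0 (t0 j)) = cc j` (`Swap.inv`, `cc ∘ ρ = cc`).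
So `A` maps `Fx σ` to itself, and `Esr D σ` to itself; the same for `A⁻¹ = tad C cc⁻¹` (which satisfies the
same conditions). `tad_aut` follows.
-/

set_option autoImplicit false
open Matrix
universe u
namespace Pool.Agent.H75.UL

open Pool.Agent.H86 Pool.Agent.H86.UM

variable {n : ℕ} {C : SLC n} {D : Dg C} {t0 : Fin n → Fin n}

section S1aux

/-- The character value of the root `β`. -/
private def S1_ch {K : Type u} [Field K] (cc : Fin n → Kˣ) (v : Fin n → ℤ) : Kˣ :=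
  ∏ j, cc j ^ v j

private theorem S1_ch_r {K : Type u} [Field K] (cc : Fin n → Kˣ) (h1 : ∀ j, cc (D.ρ j) = cc j)
    (β : C.Root) : S1_ch cc (D.r β).1 = S1_ch cc β.1 := by
  unfold S1_ch
  rw [← Equiv.prod_comp D.ρ]
  refine Finset.prod_congr rfl fun j _ => ?_
  rw [D.r_val, h1]

private theorem S1_ch_iter {K : Type u} [Field K] (cc : Fin n → Kˣ)
    (h1 : ∀ j, cc (D.ρ j) = cc j) (l : ℕ) (β : C.Root) :
    S1_ch cc (D.r^[l] β).1 = S1_ch cc β.1 := by
  induction l with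
  | zero => rfl
  | succ l ih => rw [Function.iterate_succ_apply', S1_ch_r cc h1, ih]

private theorem S1_ch_simple {K : Type u} [Field K] (cc : Fin n → Kˣ) (i : Fin n) :
    S1_ch cc (C.simple i).1 = cc i := by
  unfold S1_ch
  rw [SLC.simple_val, Finset.prod_eq_single i]
  · rw [Pi.single_eq_same, zpow_one]
  · intro j _ hj
    rw [Pi.single_eq_of_ne hj, zpow_zero]
  · intro h
    exact absurd (Finset.mem_univ i) h

private theorem S1_ch_neg_simple {K : Type u} [Field K] (cc : Fin n → Kˣ) (i : Fin n) :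
    S1_ch cc (-(C.simple i)).1 = (cc i)⁻¹ := by
  rw [← S1_ch_simple (C := C) cc i]
  unfold S1_ch
  rw [SLC.Root.neg_val, ← Finset.prod_inv_distrib]
  refine Finset.prod_congr rfl fun j _ => ?_
  rw [Pi.neg_apply, _root_.zpow_neg]

private theorem S1_yb {K : Type u} [Field K] (cc : Fin n → Kˣ) (h1 : ∀ j, cc (D.ρ j) = cc j)
    (β : C.Root) (t : K) :
    UM.tad C cc * yb D (C.adS K) (D.sgl (RingEquiv.refl K)) β t * (UM.tad C cc)⁻¹ =
      yb D (C.adS K) (D.sgl (RingEquiv.refl K)) β (((S1_ch cc β.1 : Kˣ) : K) * t) := by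
  have hs : IsSig D (RingEquiv.refl K) (C.adS K) (D.sgl (RingEquiv.refl K)) := isSig_adS D _
  have key : ∀ L : List ℕ,
      (MulAut.conj (UM.tad C cc)) ((L.map fun l =>
        (D.sgl (RingEquiv.refl K))^[l] ((C.adS K).x β t)).prod) =
      (L.map fun l => (D.sgl (RingEquiv.refl K))^[l]
        ((C.adS K).x β (((S1_ch cc β.1 : Kˣ) : K) * t))).prod := by
    intro L
    rw [map_list_prod, List.map_map]
    congr 1
    refine List.map_congr_left fun l _ => ?_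
    rw [Function.comp_apply, hs.iter, hs.iter, MulAut.conj_apply]
    have e := UM.tad_xg C cc (D.r^[l] β)
      ((D.sgp l β : K) * (⇑(RingEquiv.refl K))^[l] t)
    change UM.tad C cc * C.xg K (D.r^[l] β) ((D.sgp l β : K) * (⇑(RingEquiv.refl K))^[l] t) *
      (UM.tad C cc)⁻¹ = C.xg K (D.r^[l] β) _
    rw [e]
    have e2 : (∏ j, cc j ^ (D.r^[l] β).1 j : Kˣ) = S1_ch cc β.1 := S1_ch_iter cc h1 l β
    rw [e2]
    congr 1
    have e3 : ∀ u : K, (⇑(RingEquiv.refl K))^[l] u = u := fun u => by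
      simp [Function.iterate_fixed]
    rw [e3, e3]
    ring
  have := key (List.range (mo D β))
  rw [MulAut.conj_apply] at this
  exact this

private theorem S1_mem (hN : D.NA) {K : Type u} [Field K] [Infinite K] (cc : Fin n → Kˣ)
    (h1 : ∀ j, cc (D.ρ j) = cc j) (x : GF D K) :
    UM.tad C cc * (x : GL C.Idx K) * (UM.tad C cc)⁻¹ ∈ GF D K := by
  have h : (⊤ : Subgroup (GF D K)) ≤
      ((GF D K).comap (MulAut.conj (UM.tad C cc)).toMonoidHom).subgroupOf (GF D K) := by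
    rw [← UM.GF_gen hN (k := K), Subgroup.closure_le]
    rintro g ⟨j, t, rfl | rfl⟩
    · change UM.tad C cc * ((yg hN (C.simple j) t : GF D K) : GL C.Idx K) *
        (UM.tad C cc)⁻¹ ∈ GF D K
      rw [yg_val, S1_yb cc h1]
      exact yb_mem D hN K _ _
    · change UM.tad C cc * ((yg hN (-(C.simple j)) t : GF D K) : GL C.Idx K) *
        (UM.tad C cc)⁻¹ ∈ GF D K
      rw [yg_val, S1_yb cc h1]
      exact yb_mem D hN K _ _
  exact h (Subgroup.mem_top x)

end S1aux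

/-- Conjugation by a diagonal element on the folded group. -/
theorem exists_tadG (hN : D.NA) {K : Type u} [Field K] [Infinite K] (cc : Fin n → Kˣ)
    (h1 : ∀ j, cc (D.ρ j) = cc j) : ∃ α : GF D K →* GF D K,
    (∀ x : GF D K, (α x : GL C.Idx K) = UM.tad C cc * (x : GL C.Idx K) * (UM.tad C cc)⁻¹) ∧
    ∀ β (t : K), α (yg hN β t) = yg hN β (((∏ j, cc j ^ β.1 j : Kˣ) : K) * t) := by
  let α : GF D K →* GF D K :=
    ((MulAut.conj (UM.tad C cc)).toMonoidHom.comp (GF D K).subtype).codRestrict (GF D K)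
      (fun x => S1_mem hN cc h1 x)
  have hα : ∀ x : GF D K,
      (α x : GL C.Idx K) = UM.tad C cc * (x : GL C.Idx K) * (UM.tad C cc)⁻¹ := fun x => rfl
  refine ⟨α, hα, fun β t => ?_⟩
  apply Subtype.ext
  rw [hα, yg_val, yg_val, S1_yb cc h1]
  rfl

private theorem S1_th_mul {K : Type u} [Field K] (θ : K ≃+* K) (β : C.Root) (a b : K) :
    th D θ β (a * b) = th D θ β a * th D θ β b := by
  unfold th
  split_ifs <;> exact _root_.map_mul _ _ _

private theorem S1_th_inv {K : Type u} [Field K] (θ : K ≃+* K) (β : C.Root) (a : K) :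
    th D θ β a⁻¹ = (th D θ β a)⁻¹ := by
  unfold th
  split_ifs <;> exact map_inv₀ _ _

private theorem S1_cyc {K : Type u} [Field K] (cc : Fin n → Kˣ) (h1 : ∀ j, cc (D.ρ j) = cc j)
    {i j : Fin n} (h : D.ρ.SameCycle i j) : cc j = cc i := by
  obtain ⟨z, rfl⟩ := h
  have hn : ∀ (m : ℕ) (l : Fin n), cc ((D.ρ ^ m) l) = cc l := by
    intro m
    induction m with
    | zero => intro l; rfl
    | succ m ih => intro l; rw [pow_succ, Equiv.Perm.mul_apply, ih, h1]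
  rcases Int.eq_nat_or_neg z with ⟨m, rfl | rfl⟩
  · rw [zpow_natCast]
    exact hn m i
  · rw [_root_.zpow_neg, zpow_natCast]
    have := hn m ((D.ρ ^ m)⁻¹ i)
    rw [← Equiv.Perm.mul_apply, mul_inv_cancel, Equiv.Perm.one_apply] at this
    exact this.symm

private theorem S1_th (hS : Swap D t0) {K : Type u} [Field K] (θ : K ≃+* K) (cc : Fin n → Kˣ)
    (h1 : ∀ j, cc (D.ρ j) = cc j) (h2 : ∀ j, D.ρ j ≠ j → (cc (t0 j) : K) = θ (cc j))
    (j : Fin n) : th D θ (C.simple j) (cc j : K) = cc (t0 j) := by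
  unfold th
  have hr : D.r (C.simple j) = C.simple j ↔ D.ρ j = j := by
    rw [D.r_simple]
    constructor
    · intro h
      have h' := congrArg (fun β : C.Root => β.1 j) h
      simp only [SLC.simple_val, Pi.single_eq_same] at h'
      by_contra hne
      rw [Pi.single_eq_of_ne (fun e => hne e.symm)] at h'
      exact zero_ne_one h'
    · intro h
      rw [h]
  by_cases hj : D.ρ j = j
  · rw [if_pos (hr.mpr hj)]
    rw [RingEquiv.symm_apply_eq]
    have h3 : D.ρ (t0 j) ≠ t0 j := fun h => (hS.fix_iff j).mp h hj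
    rw [← h2 _ h3, S1_cyc cc h1 (hS.inv j)]
  · rw [if_neg (fun h => hj (hr.mp h)), h2 j hj]

/-- conjugation by the diagonal element commutes with `σ` -/
private theorem S1_comm (hS : Swap D t0) {K : Type u} [Field K] [Infinite K] {θ : K ≃+* K}
    {σ : GF D K →* GF D K} (h : SRs D t0 θ σ) (cc : Fin n → Kˣ)
    (h1 : ∀ j, cc (D.ρ j) = cc j) (h2 : ∀ j, D.ρ j ≠ j → (cc (t0 j) : K) = θ (cc j))
    (α : GF D K →* GF D K)
    (hα : ∀ β (t : K), α (yg hS.na β t) = yg hS.na β (((∏ j, cc j ^ β.1 j : Kˣ) : K) * t))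
    (x : GF D K) : σ (α x) = α (σ x) := by
  have hp : ∀ (j : Fin n) (t : K), σ (yg hS.na (C.simple j) t) =
      yg hS.na (C.simple (t0 j)) (th D θ (C.simple j) t) := fun j t =>
    Subtype.ext (h.pos j t _ rfl)
  have hn : ∀ (j : Fin n) (t : K), σ (yg hS.na (-(C.simple j)) t) =
      yg hS.na (-(C.simple (t0 j))) (th D θ (C.simple j) t) := fun j t =>
    Subtype.ext (h.neg j t _ rfl)
  have e : σ.comp α = α.comp σ := by
    refine MonoidHom.eq_of_eqOn_dense (UM.GF_gen hS.na (k := K)) ?_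
    rintro g ⟨j, t, rfl | rfl⟩
    · change σ (α _) = α (σ _)
      have ea : (∏ i, cc i ^ (C.simple j).1 i : Kˣ) = cc j := S1_ch_simple cc j
      have eb : (∏ i, cc i ^ (C.simple (t0 j)).1 i : Kˣ) = cc (t0 j) := S1_ch_simple cc _
      rw [hα, hp, hp, hα, S1_th_mul, ea, eb, S1_th hS θ cc h1 h2]
    · change σ (α _) = α (σ _)
      have ea : (∏ i, cc i ^ (-(C.simple j)).1 i : Kˣ) = (cc j)⁻¹ := S1_ch_neg_simple cc j
      have eb : (∏ i, cc i ^ (-(C.simple (t0 j))).1 i : Kˣ) = (cc (t0 j))⁻¹ :=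
        S1_ch_neg_simple cc _
      rw [hα, hn, hn, hα, S1_th_mul, ea, eb, Units.val_inv_eq_inv_val, Units.val_inv_eq_inv_val,
        S1_th_inv, S1_th hS θ cc h1 h2]
  exact DFunLike.congr_fun e x

private theorem S1_Esr (hS : Swap D t0) {K : Type u} [Field K] [Infinite K] {θ : K ≃+* K}
    {σ : GF D K →* GF D K} (h : SRs D t0 θ σ) (cc : Fin n → Kˣ)
    (h1 : ∀ j, cc (D.ρ j) = cc j) (h2 : ∀ j, D.ρ j ≠ j → (cc (t0 j) : K) = θ (cc j))
    (x : Esr D σ) : ∃ y : Esr D σ, em y = UM.tad C cc * em x * (UM.tad C cc)⁻¹ := by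
  obtain ⟨α, hα1, hα2⟩ := exists_tadG hS.na cc h1
  have hcomm := S1_comm hS h cc h1 h2 α hα2
  have hfix : ∀ y ∈ Fx σ, α y ∈ Fx σ := by
    intro y hy
    rw [mem_Fx] at hy ⊢
    rw [hcomm, hy]
  have hU : FU D K ≤ (FU D K).comap α := by
    conv_lhs => rw [UM.FU_eq hS.na]
    rw [Subgroup.closure_le]
    rintro g ⟨β, hβ, t, rfl⟩
    rw [SetLike.mem_coe, Subgroup.mem_comap, hα2]
    exact UM.yg_pos hS.na β hβ _
  have hUm : FUm D K ≤ (FUm D K).comap α := by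
    conv_lhs => rw [UM.FUm_eq hS.na]
    rw [Subgroup.closure_le]
    rintro g ⟨β, hβ, t, rfl⟩
    rw [SetLike.mem_coe, Subgroup.mem_comap, hα2]
    exact UM.yg_npos hS.na β hβ _
  have hE : Esr D σ ≤ (Esr D σ).comap α := by
    refine sup_le ?_ ?_
    · rintro y ⟨hy1, hy2⟩
      exact (le_sup_left : FU D K ⊓ Fx σ ≤ Esr D σ) ⟨hU hy1, hfix y hy2⟩
    · rintro y ⟨hy1, hy2⟩
      exact (le_sup_right : FUm D K ⊓ Fx σ ≤ Esr D σ) ⟨hUm hy1, hfix y hy2⟩
  exact ⟨⟨α x, hE x.2⟩, hα1 x⟩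

theorem tad_aut (hS : Swap D t0) {K : Type u} [Field K] [Infinite K] {θ : K ≃+* K}
    {σ : GF D K →* GF D K} (h : SRs D t0 θ σ) (g : Esr D σ) (cc : Fin n → Kˣ)
    (h1 : ∀ j, cc (D.ρ j) = cc j) (h2 : ∀ j, D.ρ j ≠ j → (cc (t0 j) : K) = θ (cc j)) :
    AutSR D σ (em g * UM.tad C cc) := by
  constructor
  · intro x
    obtain ⟨y, hy⟩ := S1_Esr hS h cc h1 h2 x
    refine ⟨g * y * g⁻¹, ?_⟩
    have e : em (g * y * g⁻¹) = em g * em y * (em g)⁻¹ := rfl
    rw [e, hy]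
    group
  · intro x
    have h1' : ∀ j, cc⁻¹ (D.ρ j) = cc⁻¹ j := fun j => by rw [Pi.inv_apply, Pi.inv_apply, h1]
    have h2' : ∀ j, D.ρ j ≠ j → (cc⁻¹ (t0 j) : K) = θ (cc⁻¹ j : Kˣ) := fun j hj => by
      rw [Pi.inv_apply, Pi.inv_apply, Units.val_inv_eq_inv_val, Units.val_inv_eq_inv_val,
        map_inv₀, h2 j hj]
    obtain ⟨y, hy⟩ := S1_Esr hS h cc⁻¹ h1' h2' (g⁻¹ * x * g)
    refine ⟨y, ?_⟩
    have e : em (g⁻¹ * x * g) = (em g)⁻¹ * em x * em g := rfl
    have ht : UM.tad C cc⁻¹ = (UM.tad C cc)⁻¹ := Units.ext rfl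
    rw [hy, e, ht]
    group

/-- The automorphism given by `AutSR`. -/
theorem AutSR.exists_equiv {K : Type u} [Field K] {σ : GF D K →* GF D K} {a : GL C.Idx K}
    (h : AutSR D σ a) : ∃ f : Esr D σ ≃* Esr D σ, ∀ x, em (f x) = a * em x * a⁻¹ := by
  choose f hf using h.img
  choose f' hf' using h.inv
  have hl : ∀ x, f' (f x) = x := fun x => by
    apply em_injective
    rw [hf', hf]
    group
  have hr : ∀ x, f (f' x) = x := fun x => by
    apply em_injective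
    rw [hf, hf']
    group
  have hm : ∀ x y, f (x * y) = f x * f y := fun x y => by
    apply em_injective
    have e : em (f x * f y) = em (f x) * em (f y) := rfl
    have e' : em (x * y) = em x * em y := rfl
    rw [e, hf, hf, hf, e']
    group
  exact ⟨MulEquiv.mk' ⟨f, f', hl, hr⟩ hm, hf⟩

end Pool.Agent.H75.UL
end

section
/- module Pool.Agent.H75.US.S4 -/
/-!
# Project US, module S4: the limit of the pairs `(θ, σ)`

`KK` is the union of the `K i` (`Infinite KK`: `p 0` is injective). `FU_lim`: `FU_eq` and `union_closure` with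
`B i = GF D (K i)`, `f i = mG D (p i)`, `g i = mG D (φ i)` (`mG_comp`), `T i = FU D (K i)`: a generator
`yg β t`, `β` positive, `t = p i s`, is `mG D (p i) (yg β s)`. The same for `FUm` and for `GF` itself
(`GF_gen`, `T i = ⊤`). `limit_sigma`: `exists_glue`. `pos`, `neg`: `x = mG D (p i) y` with
`y = yg (simple j) s`, `p i s = t` (`mG_injective` is not needed: `x = yg (simple j) t` by
`Subtype.ext`, and `yg (simple j) (p i s) = mG (p i) (yg (simple j) s)`), `SRs.pos` for `σ i`, `mp_yb`.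
`chr`: `charP_of_injective_ringHom`. `hθ`: surjectivity of the `p i`.
`Esr_lim`: `Esr` is the closure of the union of `FU ⊓ Fx` and `FUm ⊓ Fx`; a generator `x ∈ FU D KK` with
`σσ x = x` is `mG (p i) y`, `y ∈ FU D (K i)` (`FU_lim`), and `mG (p i) (σ i y) = mG (p i) y`, so `σ i y = y`
(`mG_injective`). `union_closure` with `T i = Esr D (σ i)` (`mG_Esr`, `mG_sig`).
-/

set_option autoImplicit false
open Matrix
universe u
namespace Pool.Agent.H75.UL

open Pool.Agent.H86 Pool.Agent.H86.UM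

variable {n : ℕ} {C : SLC n} {D : Dg C} {t0 : Fin n → Fin n}

/-- The data of a limit. -/
structure LimD (D : Dg C) (t0 : Fin n → Fin n) (K : ℕ → Type u) [∀ i, Field (K i)]
    (θ : ∀ i, K i ≃+* K i) (φ : ∀ i, K i →+* K (i + 1)) (σ : ∀ i, GF D (K i) →* GF D (K i))
    (KK : Type u) [Field KK] (θθ : KK ≃+* KK) (p : ∀ i, K i →+* KK) : Prop where
  sw : Swap D t0
  inf : ∀ i, Infinite (K i)
  hσ : ∀ i, SRs D t0 (θ i) (σ i)
  hφ : ∀ i t, φ i (θ i t) = θ (i + 1) (φ i t)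
  hp : ∀ i t, p (i + 1) (φ i t) = p i t
  hps : ∀ x, ∃ i y, p i y = x
  hθθ : ∀ i t, θθ (p i t) = p i (θ i t)

section
variable {K : ℕ → Type u} [∀ i, Field (K i)] {θ : ∀ i, K i ≃+* K i}
  {φ : ∀ i, K i →+* K (i + 1)} {σ : ∀ i, GF D (K i) →* GF D (K i)} {KK : Type u} [Field KK]
  {θθ : KK ≃+* KK} {p : ∀ i, K i →+* KK} (h : LimD D t0 K θ φ σ KK θθ p)

include h

private theorem S4_inf : Infinite KK := by
  have := h.inf 0
  exact Infinite.of_injective (p 0) (p 0).injective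

theorem FU_lim (x : GF D KK) (hx : x ∈ FU D KK) : ∃ i, ∃ y ∈ FU D (K i), mG D (p i) y = x := by
  have hI := S4_inf h
  have hIi := h.inf
  have hN := h.sw.na
  rw [FU_eq hN] at hx
  refine union_closure (fun i => GF D (K i)) (fun i => mG D (p i)) (fun i => mG D (φ i))
    (fun i y => mG_comp (φ i) (p (i + 1)) (p i) (h.hp i) y) (fun i => FU D (K i))
    (fun i y hy => mG_FU (φ i) y hy) _ ?_ x hx
  rintro y ⟨β, hβ, t, rfl⟩
  obtain ⟨i, s, rfl⟩ := h.hps t
  exact ⟨i, yg hN β s, yg_pos hN β hβ s, mG_yg hN (p i) β s⟩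

theorem FUm_lim (x : GF D KK) (hx : x ∈ FUm D KK) :
    ∃ i, ∃ y ∈ FUm D (K i), mG D (p i) y = x := by
  have hI := S4_inf h
  have hIi := h.inf
  have hN := h.sw.na
  rw [FUm_eq hN] at hx
  refine union_closure (fun i => GF D (K i)) (fun i => mG D (p i)) (fun i => mG D (φ i))
    (fun i y => mG_comp (φ i) (p (i + 1)) (p i) (h.hp i) y) (fun i => FUm D (K i))
    (fun i y hy => mG_FUm (φ i) y hy) _ ?_ x hx
  rintro y ⟨β, hβ, t, rfl⟩
  obtain ⟨i, s, rfl⟩ := h.hps t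
  exact ⟨i, yg hN β s, yg_npos hN β hβ s, mG_yg hN (p i) β s⟩

theorem GF_lim (x : GF D KK) : ∃ i, ∃ y : GF D (K i), mG D (p i) y = x := by
  have hI := S4_inf h
  have hN := h.sw.na
  have hx : x ∈ Subgroup.closure {g : GF D KK | ∃ (j : Fin n) (t : KK),
      g = yg hN (C.simple j) t ∨ g = yg hN (-(C.simple j)) t} := by
    rw [GF_gen hN]
    exact Subgroup.mem_top x
  obtain ⟨i, y, -, hy⟩ := union_closure (fun i => GF D (K i)) (fun i => mG D (p i))
    (fun i => mG D (φ i)) (fun i y => mG_comp (φ i) (p (i + 1)) (p i) (h.hp i) y)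
    (fun i => (⊤ : Subgroup (GF D (K i)))) (fun i y _ => Subgroup.mem_top _) _ (by
      rintro y ⟨j, t, hy⟩
      obtain ⟨i, s, rfl⟩ := h.hps t
      rcases hy with rfl | rfl
      · exact ⟨i, yg hN (C.simple j) s, Subgroup.mem_top _, mG_yg hN (p i) _ s⟩
      · exact ⟨i, yg hN (-(C.simple j)) s, Subgroup.mem_top _, mG_yg hN (p i) _ s⟩) x hx
  exact ⟨i, y, hy⟩

private theorem S4_th (i : ℕ) (β : C.Root) (t : K i) :
    p i (th D (θ i) β t) = th D θθ β (p i t) := by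
  unfold th
  split_ifs
  · rw [RingEquiv.eq_symm_apply, h.hθθ, RingEquiv.apply_symm_apply]
  · rw [h.hθθ]

theorem limit_sigma : ∃ σσ : GF D KK →* GF D KK, SRs D t0 θθ σσ ∧
    ∀ i x, σσ (mG D (p i) x) = mG D (p i) (σ i x) := by
  have hIi := h.inf
  have hN := h.sw.na
  obtain ⟨S, hS⟩ := exists_glue (fun i => GF D (K i)) (fun i => mG D (p i))
    (fun i => mG_injective (p i)) (fun i => mG D (φ i))
    (fun i y => mG_comp (φ i) (p (i + 1)) (p i) (h.hp i) y)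
    (fun a => by
      obtain ⟨i, y, hy⟩ := GF_lim h a
      exact ⟨i, y, hy⟩) σ
    (fun i x => mG_sig h.sw (φ i) (h.hφ i) (h.hσ i) (h.hσ (i + 1)) x)
  refine ⟨S, ?_, hS⟩
  refine ⟨?_, ?_, ?_, ?_⟩
  · have := (h.hσ 0).chr
    exact charP_of_injective_ringHom (p 0).injective D.m
  · intro t
    obtain ⟨i, s, rfl⟩ := h.hps t
    rw [h.hθθ, h.hθθ, (h.hσ i).hθ, map_pow]
  · intro j t x hx
    obtain ⟨i, s, rfl⟩ := h.hps t
    have hx' : x = mG D (p i) (yg hN (C.simple j) s) := by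
      rw [mG_yg]
      exact Subtype.ext hx
    rw [hx', hS, mG_val, (h.hσ i).pos j s _ (yg_val hN _ _), mp_yb, S4_th h]
  · intro j t x hx
    obtain ⟨i, s, rfl⟩ := h.hps t
    have hx' : x = mG D (p i) (yg hN (-(C.simple j)) s) := by
      rw [mG_yg]
      exact Subtype.ext hx
    rw [hx', hS, mG_val, (h.hσ i).neg j s _ (yg_val hN _ _), mp_yb, S4_th h]

theorem Esr_lim (σσ : GF D KK →* GF D KK)
    (hs : ∀ i x, σσ (mG D (p i) x) = mG D (p i) (σ i x)) (x : GF D KK) (hx : x ∈ Esr D σσ) :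
    ∃ i, ∃ y ∈ Esr D (σ i), mG D (p i) y = x := by
  have hIi := h.inf
  have key : ∀ (i : ℕ) (y : GF D (K i)), mG D (p i) y ∈ Fx σσ → y ∈ Fx (σ i) := by
    intro i y hy
    rw [mem_Fx, hs] at hy
    exact mG_injective (p i) hy
  unfold Esr at hx
  rw [Subgroup.sup_eq_closure] at hx
  refine union_closure (fun i => GF D (K i)) (fun i => mG D (p i)) (fun i => mG D (φ i))
    (fun i y => mG_comp (φ i) (p (i + 1)) (p i) (h.hp i) y) (fun i => Esr D (σ i))
    (fun i y hy => mG_Esr (φ i)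
      (fun z => mG_sig h.sw (φ i) (h.hφ i) (h.hσ i) (h.hσ (i + 1)) z) y hy) _ ?_ x hx
  rintro y (hy | hy)
  · obtain ⟨i, z, hz, rfl⟩ := FU_lim h y hy.1
    exact ⟨i, z, (le_sup_left : FU D (K i) ⊓ Fx (σ i) ≤ Esr D (σ i)) ⟨hz, key i z hy.2⟩, rfl⟩
  · obtain ⟨i, z, hz, rfl⟩ := FUm_lim h y hy.1
    exact ⟨i, z, (le_sup_right : FUm D (K i) ⊓ Fx (σ i) ≤ Esr D (σ i)) ⟨hz, key i z hy.2⟩, rfl⟩

end

end Pool.Agent.H75.UL
end

section
/- module Pool.Agent.H75.US.S5 -/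
/-!
# Project US, module S5: the limit of the groups `Esr D σ`

`exists_limit_field` (H75/UE/L0) gives `KK`, `p`, `θθ`; `LimD`; `limit_sigma` gives `σσ`. Apply `exists_union_equiv`
with `A = Esr D σσ`, `B i = Esr D (Y i).σ`, `e i = (Y i).e`, `g i` = the restriction of `mG D (φ i)`
(`mG_sig`, `mG_Esr`), `f i` = the restriction of `mG D (p i)` (`mG_injective`), `Esr_lim`.
-/

set_option autoImplicit false
open Matrix
universe u
namespace Pool.Agent.H75.UL

open Pool.Agent.H86 Pool.Agent.H86.UM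

variable {n : ℕ} {C : SLC n} {D : Dg C} {t0 : Fin n → Fin n}

theorem limit_SR (hS : Swap D t0) {G : Type u} [Group G] (H : ℕ → Subgroup G)
    (hH : ∀ i, H i ≤ H (i + 1)) (hG : ∀ g : G, ∃ i, g ∈ H i) (Y : ∀ i, SD D t0 (H i))
    (φ : ∀ i, (Y i).K →+* (Y (i + 1)).K)
    (hφ : ∀ i t, φ i ((Y i).θ t) = (Y (i + 1)).θ (φ i t))
    (hc : ∀ i (g : H i), em ((Y (i + 1)).e (Subgroup.inclusion (hH i) g)) =
      C.mp (φ i) (em ((Y i).e g))) : IsSRad D t0 G := by
  obtain ⟨KK, hKK, p, θθ, hp, hps, hθθ⟩ :=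
    exists_limit_field (fun i => (Y i).K) (fun i => (Y i).θ) φ hφ
  have hL : LimD D t0 (fun i => (Y i).K) (fun i => (Y i).θ) φ (fun i => (Y i).σ) KK θθ p :=
    { sw := hS
      inf := fun i => (Y i).inf
      hσ := fun i => (Y i).hσ
      hφ := hφ
      hp := hp
      hps := hps
      hθθ := hθθ }
  obtain ⟨σσ, hσσ, hs⟩ := limit_sigma hL
  let g : ∀ i, Esr D (Y i).σ →* Esr D (Y (i + 1)).σ := fun i =>
    ((mG D (φ i)).comp (Esr D (Y i).σ).subtype).codRestrict _ (fun x =>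
      mG_Esr (φ i) (fun y => mG_sig hS (φ i) (hφ i) (Y i).hσ (Y (i + 1)).hσ y) _ x.2)
  let f : ∀ i, Esr D (Y i).σ →* Esr D σσ := fun i =>
    ((mG D (p i)).comp (Esr D (Y i).σ).subtype).codRestrict _ (fun x =>
      mG_Esr (p i) (hs i) _ x.2)
  refine ⟨KK, hKK, θθ, σσ, hσσ,
    exists_union_equiv H hH hG (fun i => Esr D (Y i).σ) (fun i => (Y i).e) g ?_ f ?_ ?_ ?_⟩
  · intro i x
    exact em_injective (hc i x)
  · intro i x y hxy
    have h1 : mG D (p i) (x : GF D (Y i).K) = mG D (p i) (y : GF D (Y i).K) :=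
      congrArg (fun z : Esr D σσ => (z : GF D KK)) hxy
    exact Subtype.ext (mG_injective (p i) h1)
  · intro i x
    exact Subtype.ext (mG_comp (φ i) (p (i + 1)) (p i) (hp i) (x : GF D (Y i).K))
  · intro a
    obtain ⟨i, y, hy, hya⟩ := Esr_lim hL σσ hs (a : GF D KK) a.2
    exact ⟨i, ⟨y, hy⟩, Subtype.ext hya⟩

end Pool.Agent.H75.UL
end

section
/- module Pool.Agent.H86.UM.ZF0 -/
/-!
# Project UM, Suzuki-Ree groups, module ZF0: the standard homomorphisms `Φ`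

`φ : k →+* K`, `cc : Fin n → Kˣ` with `cc (ρ j) = cc j`: `Φ x = tad cc * mp φ x * (tad cc)⁻¹`.
`exists_Phi`: `mp φ` maps `x_β(t)` to `x_β(φ t)` (`SLC.mp_xg`) and `tad_xg`, so (`yb` is the product of
`x_(r^l β)(± t)`: `ZJ1_factor`; `ccr cc (D.r β) = ccr cc β`; the signs are integers) `yg hN β t ↦ yg hN β (ccr cc β * φ t)`;
by `GF_gen` the map has values in `GF D K`. Injective: `SLC.mp_injective`. `FN`, `FT`: `SLC.mp_N`, `SLC.mp_T`,
`SLC.mp_acts` for `mp φ`; conjugation with `tad cc` maps `nn (x_α) t` to `nn (x_α) (ccr cc α * t)` and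
`hh (x_α) t` to itself (diagonal matrices commute), and `Acts` with the same `w`
(`tad_xg` for `cc` and `cc⁻¹`).
`xi`: `ξ_j (Φ x) = cc j * φ (ξ_j x)` for `x ∈ FU` — directly from the definition of `xi` as a matrix entry
(`SLC.xi`) or by closure induction with `xi_mul`, `xi_yg`. `chi`: `SLC.chi_map`, diagonal matrices.

`Phi_sig`: `GF_gen`, `sig_yg`; `th D θ' (simple j) (cc j ^ (± 1) * φ t) = cc (t0 j) ^ (± 1) * φ (th D θ (simple j) t)`:
for `j` short this is `CC.t0` and `hφ`; for `j` long: `t0 j` is short (`hS.fix_iff`), `t0 (t0 j) = j` (`hS.inv`: `j` is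
fixed), so `cc j = θ' (cc (t0 j))`; and `φ (θ.symm t) = θ'.symm (φ t)` from `hφ`.
`Phi_pin`: `FR` is generated by the `yg`, and `Phi_sig`; `FU, FUm` (`FU_FR`, `FUm_FR`).
-/

set_option autoImplicit false
open Matrix

namespace Pool.Agent.H86.UM

open Pool.Agent.H75.UL

variable {n : ℕ} {C : SLC n} {D : Dg C}

/-- the character `β` of `cc` -/
noncomputable def ccr {K : Type*} [Field K] (cc : Fin n → Kˣ) (β : C.Root) : K :=
  ((∏ j, cc j ^ β.1 j : Kˣ) : K)

/-- compatible with `ρ` and `t0` -/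
structure CC (D : Dg C) (t0 : Fin n → Fin n) {K : Type*} [Field K] (θ' : K ≃+* K)
    (cc : Fin n → Kˣ) : Prop where
  rho : ∀ j, cc (D.ρ j) = cc j
  t0 : ∀ j, D.ρ j ≠ j → (cc (t0 j) : K) = θ' (cc j)

/-- standard homomorphisms -/
structure PhiS (hN : D.NA) {k K : Type*} [Field k] [Field K] (φ : k →+* K) (cc : Fin n → Kˣ)
    (Φ : GF D k →* GF D K) : Prop where
  inj : Function.Injective Φ
  val : ∀ x, (Φ x : GL C.Idx K) = tad C cc * C.mp φ x * (tad C cc)⁻¹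
  yg : ∀ β t, Φ (yg hN β t) = yg hN β (ccr cc β * φ t)
  nor : ∀ x ∈ FN D k, Φ x ∈ FN D K ∧ ∀ w : Equiv.Perm C.Root,
    (C.adS k).Acts (x : GL C.Idx k) w → (C.adS K).Acts (Φ x : GL C.Idx K) w
  tor : ∀ x ∈ FT D k, Φ x ∈ FT D K
  xi : ∀ x ∈ FU D k, ∀ j, C.xi j ((Φ x : GL C.Idx K) : Matrix C.Idx C.Idx K) =
    cc j * φ (C.xi j ((x : GL C.Idx k) : Matrix C.Idx C.Idx k))
  chi : ∀ x, ∀ β, C.chi ((Φ x : GL C.Idx K) : Matrix C.Idx C.Idx K) β =
    φ (C.chi ((x : GL C.Idx k) : Matrix C.Idx C.Idx k) β)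

section aux
variable {K : Type*} [Field K]

private theorem ZF0_single (cc : Fin n → Kˣ) (j : Fin n) :
    (∏ i, cc i ^ (Pi.single j (1 : ℤ) : Fin n → ℤ) i : Kˣ) = cc j := by
  rw [Finset.prod_eq_single j]
  · simp
  · intro i _ hi
    rw [Pi.single_eq_of_ne hi, zpow_zero]
  · intro h
    exact absurd (Finset.mem_univ _) h

private theorem ZF0_ne (cc : Fin n → Kˣ) (β : C.Root) : (ccr cc β : K) ≠ 0 := Units.ne_zero _

private theorem ZF0_neg (cc : Fin n → Kˣ) (β : C.Root) : (ccr cc (-β) : K) = (ccr cc β)⁻¹ := by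
  unfold ccr
  rw [← Units.val_inv_eq_inv_val, ← Finset.prod_inv_distrib]
  congr 1
  refine Finset.prod_congr rfl fun j _ => ?_
  rw [SLC.Root.neg_val, Pi.neg_apply, _root_.zpow_neg]

private theorem ZF0_r (cc : Fin n → Kˣ) (hc : ∀ j, cc (D.ρ j) = cc j) (β : C.Root) :
    (ccr cc (D.r β) : K) = ccr cc β := by
  unfold ccr
  congr 1
  rw [← Equiv.prod_comp D.ρ]
  refine Finset.prod_congr rfl fun j _ => ?_
  rw [hc, D.r_val]

private theorem ZF0_iter (cc : Fin n → Kˣ) (hc : ∀ j, cc (D.ρ j) = cc j) (l : ℕ) (β : C.Root) :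
    (ccr cc (D.r^[l] β) : K) = ccr cc β := by
  induction l with
  | zero => rfl
  | succ l ih => rw [Function.iterate_succ_apply', ZF0_r cc hc, ih]

private theorem ZF0_conj (cc : Fin n → Kˣ) (β : C.Root) (t : K) :
    tad C cc * C.xg K β t * (tad C cc)⁻¹ = C.xg K β (ccr cc β * t) := tad_xg C cc β t

private theorem ZF0_inv (cc : Fin n → Kˣ) : (tad C cc : GL C.Idx K)⁻¹ = tad C cc⁻¹ := by
  apply inv_eq_of_mul_eq_one_right
  rw [tad_mul, mul_inv_cancel]
  exact Units.ext (tadM_one C)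

private theorem ZF0_conj' (cc : Fin n → Kˣ) (β : C.Root) (t : K) :
    (tad C cc)⁻¹ * C.xg K β t * tad C cc = C.xg K β ((ccr cc β)⁻¹ * t) := by
  have h := ZF0_conj (C := C) cc β ((ccr cc β)⁻¹ * t)
  rw [mul_inv_cancel_left₀ (ZF0_ne cc β)] at h
  rw [← h]
  group

/-- the entries of a conjugate with `tad` -/
private theorem ZF0_entry (cc : Fin n → Kˣ) (x : GL C.Idx K) (a b : C.Idx) :
    ((tad C cc * x * (tad C cc)⁻¹ : GL C.Idx K) : Matrix C.Idx C.Idx K) a b =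
      (Sum.elim (fun _ => (1 : K)) (fun γ : C.Root => (ccr cc γ : K)) a) *
        (x : Matrix C.Idx C.Idx K) a b *
      (Sum.elim (fun _ => (1 : K)) (fun γ : C.Root => (ccr cc γ : K)) b)⁻¹ := by
  rw [ZF0_inv]
  rw [Units.val_mul, Units.val_mul]
  change (tadM C cc * (x : Matrix C.Idx C.Idx K) * tadM C cc⁻¹) a b = _
  unfold tadM
  rw [Matrix.mul_diagonal, Matrix.diagonal_mul]
  have h : ∀ c : C.Idx, Sum.elim (fun _ => (1 : K)) (fun γ : C.Root =>
      ((∏ j, (cc⁻¹) j ^ γ.1 j : Kˣ) : K)) c =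
      (Sum.elim (fun _ => (1 : K)) (fun γ : C.Root => (ccr cc γ : K)) c)⁻¹ := by
    intro c
    rcases c with i | γ
    · simp
    · simp only [Sum.elim_inr]
      unfold ccr
      rw [← Units.val_inv_eq_inv_val, ← Finset.prod_inv_distrib]
      congr 1
      refine Finset.prod_congr rfl fun j _ => ?_
      rw [Pi.inv_apply, _root_.inv_zpow]
  rw [h b]
  rfl

private theorem ZF0_nn (cc : Fin n → Kˣ) (α : C.Root) (t : K) :
    tad C cc * nn (C.adS K).x α t * (tad C cc)⁻¹ = nn (C.adS K).x α (ccr cc α * t) := by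
  have h1 := ZF0_conj (C := C) cc α t
  have h2 := ZF0_conj (C := C) cc (-α) t⁻¹
  rw [ZF0_neg, ← mul_inv] at h2
  change tad C cc * (C.xg K α t * C.xg K (-α) t⁻¹ * C.xg K α t) * (tad C cc)⁻¹ =
    C.xg K α (ccr cc α * t) * C.xg K (-α) (ccr cc α * t)⁻¹ * C.xg K α (ccr cc α * t)
  rw [← h1, ← h2]
  group

private theorem ZF0_N (cc : Fin n → Kˣ) (ν : GL C.Idx K) (hν : ν ∈ (C.adS K).N) :
    tad C cc * ν * (tad C cc)⁻¹ ∈ (C.adS K).N := by
  have h1 : (C.adS K).N ≤ ((C.adS K).N).comap (MulAut.conj (tad C cc)).toMonoidHom := by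
    conv_lhs => unfold StSys.N
    rw [Subgroup.closure_le]
    rintro x ⟨α, t, ht, rfl⟩
    change tad C cc * nn (C.adS K).x α t * (tad C cc)⁻¹ ∈ (C.adS K).N
    rw [ZF0_nn]
    exact Subgroup.subset_closure ⟨α, _, mul_ne_zero (ZF0_ne cc α) ht, rfl⟩
  exact h1 hν

private theorem ZF0_T (cc : Fin n → Kˣ) (τ : GL C.Idx K) (hτ : τ ∈ (C.adS K).T) :
    tad C cc * τ * (tad C cc)⁻¹ = τ := by
  obtain ⟨c, rfl, -⟩ := T_eq_tad C τ hτ
  rw [tad_mul, mul_comm, ← tad_mul, mul_inv_cancel_right]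

private theorem ZF0_acts (cc : Fin n → Kˣ) (ν : GL C.Idx K) (w : Equiv.Perm C.Root)
    (h : (C.adS K).Acts ν w) : (C.adS K).Acts (tad C cc * ν * (tad C cc)⁻¹) w := by
  obtain ⟨c, hc, hact⟩ := h
  refine ⟨fun β => ccr cc (w β) * c β * (ccr cc β)⁻¹,
    fun β => mul_ne_zero (mul_ne_zero (ZF0_ne cc _) (hc β)) (inv_ne_zero (ZF0_ne cc β)), ?_⟩
  intro β u
  have h1 := hact β ((ccr cc β)⁻¹ * u)
  rw [SLC.adS_x] at h1
  change tad C cc * ν * (tad C cc)⁻¹ * C.xg K β u * (tad C cc * ν * (tad C cc)⁻¹)⁻¹ =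
    C.xg K (w β) _
  have h2 : tad C cc * ν * (tad C cc)⁻¹ * C.xg K β u * (tad C cc * ν * (tad C cc)⁻¹)⁻¹ =
      tad C cc * (ν * ((tad C cc)⁻¹ * C.xg K β u * tad C cc) * ν⁻¹) * (tad C cc)⁻¹ := by
    group
  rw [h2, ZF0_conj', h1]
  change tad C cc * C.xg K (w β) _ * (tad C cc)⁻¹ = _
  rw [ZF0_conj]
  congr 1
  ring

end aux

private theorem ZF0_yb {k K : Type*} [Field k] [Infinite k] [Field K] [Infinite K]
    (φ : k →+* K) (cc : Fin n → Kˣ) (hc : ∀ j, cc (D.ρ j) = cc j) (β : C.Root) (t : k) :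
    tad C cc * C.mp φ (yb D (C.adS k) (D.sgl (RingEquiv.refl k)) β t) * (tad C cc)⁻¹ =
      yb D (C.adS K) (D.sgl (RingEquiv.refl K)) β (ccr cc β * φ t) := by
  unfold yb
  rw [map_list_prod, List.map_map]
  have h1 : tad C cc * (List.map (⇑(C.mp φ) ∘ fun l => (⇑(D.sgl (RingEquiv.refl k)))^[l]
      ((C.adS k).x β t)) (List.range (mo D β))).prod * (tad C cc)⁻¹ =
      (MulAut.conj (tad C cc)).toMonoidHom (List.map (⇑(C.mp φ) ∘ fun l =>
        (⇑(D.sgl (RingEquiv.refl k)))^[l] ((C.adS k).x β t)) (List.range (mo D β))).prod := rfl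
  rw [h1, map_list_prod, List.map_map]
  congr 1
  apply List.map_congr_left
  intro l _
  change tad C cc * C.mp φ ((⇑(D.sgl (RingEquiv.refl k)))^[l] ((C.adS k).x β t)) *
    (tad C cc)⁻¹ = _
  rw [ZJ1_factor, ZJ1_factor, SLC.mp_xg, ZF0_conj, ZF0_iter cc hc, _root_.map_mul, map_intCast]
  congr 1
  ring

theorem exists_Phi (hN : D.NA) {k K : Type*} [Field k] [Infinite k] [Field K] [Infinite K]
    (φ : k →+* K) (cc : Fin n → Kˣ) (hc : ∀ j, cc (D.ρ j) = cc j) :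
    ∃ Φ : GF D k →* GF D K, PhiS hN φ cc Φ := by
  have hmem : ∀ x : GF D k, tad C cc * C.mp φ (x : GL C.Idx k) * (tad C cc)⁻¹ ∈ GF D K := by
    intro x
    have h1 : (⊤ : Subgroup (GF D k)) ≤ (GF D K).comap (((MulAut.conj (tad C cc)).toMonoidHom.comp
        (C.mp φ)).comp (GF D k).subtype) := by
      rw [← GF_gen hN, Subgroup.closure_le]
      rintro g ⟨j, t, rfl | rfl⟩
      · change tad C cc * C.mp φ ((yg hN (C.simple j) t : GF D k) : GL C.Idx k) *
          (tad C cc)⁻¹ ∈ GF D K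
        rw [yg_val, ZF0_yb φ cc hc]
        exact yb_mem D hN K _ _
      · change tad C cc * C.mp φ ((yg hN (-(C.simple j)) t : GF D k) : GL C.Idx k) *
          (tad C cc)⁻¹ ∈ GF D K
        rw [yg_val, ZF0_yb φ cc hc]
        exact yb_mem D hN K _ _
    exact h1 (Subgroup.mem_top x)
  refine ⟨(((MulAut.conj (tad C cc)).toMonoidHom.comp (C.mp φ)).comp
    (GF D k).subtype).codRestrict (GF D K) hmem, ?_⟩
  constructor
  · intro x y hxy
    have h1 : tad C cc * C.mp φ (x : GL C.Idx k) * (tad C cc)⁻¹ =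
        tad C cc * C.mp φ (y : GL C.Idx k) * (tad C cc)⁻¹ := congrArg Subtype.val hxy
    have h2 := mul_left_cancel (mul_right_cancel h1)
    exact Subtype.ext (C.mp_injective φ φ.injective h2)
  · intro x
    rfl
  · intro β t
    apply Subtype.ext
    change tad C cc * C.mp φ ((yg hN β t : GF D k) : GL C.Idx k) * (tad C cc)⁻¹ = _
    rw [yg_val, ZF0_yb φ cc hc]
    rfl
  · intro x hx
    rw [FN, Subgroup.mem_subgroupOf] at hx
    refine ⟨?_, fun w hw => ?_⟩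
    · rw [FN, Subgroup.mem_subgroupOf]
      exact ZF0_N cc _ (C.mp_N φ _ hx)
    · exact ZF0_acts cc _ w (C.mp_acts φ _ w hx hw)
  · intro x hx
    rw [FT, Subgroup.mem_subgroupOf] at hx ⊢
    change tad C cc * C.mp φ (x : GL C.Idx k) * (tad C cc)⁻¹ ∈ _
    rw [ZF0_T cc _ (C.mp_T φ _ hx)]
    exact C.mp_T φ _ hx
  · intro x _ j
    unfold SLC.xi
    change -((tad C cc * C.mp φ (x : GL C.Idx k) * (tad C cc)⁻¹ : GL C.Idx K) :
      Matrix C.Idx C.Idx K) (Sum.inl j) (Sum.inr (-(C.simple j))) = _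
    rw [ZF0_entry, Sum.elim_inl, Sum.elim_inr, SLC.mp_val, Matrix.map_apply, ZF0_neg, inv_inv]
    have h1 : (ccr cc (C.simple j) : K) = cc j := by
      unfold ccr
      rw [SLC.simple_val, ZF0_single]
    rw [h1, _root_.map_neg]
    ring
  · intro x β
    unfold SLC.chi
    change ((tad C cc * C.mp φ (x : GL C.Idx k) * (tad C cc)⁻¹ : GL C.Idx K) :
      Matrix C.Idx C.Idx K) (Sum.inr β) (Sum.inr β) = _
    rw [ZF0_entry, Sum.elim_inr, SLC.mp_val, Matrix.map_apply]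
    field_simp [ZF0_ne cc β]

theorem ccr_simple {K : Type*} [Field K] (cc : Fin n → Kˣ) (j : Fin n) :
    ccr cc (C.simple j) = (cc j : K) := by
  unfold ccr
  rw [SLC.simple_val, ZF0_single]

theorem ccr_add {K : Type*} [Field K] (cc : Fin n → Kˣ) (α β γ : C.Root)
    (h : γ.1 = α.1 + β.1) : ccr cc γ = (ccr cc α * ccr cc β : K) := by
  unfold ccr
  rw [← Units.val_mul, ← Finset.prod_mul_distrib, h]
  congr 1
  refine Finset.prod_congr rfl fun j _ => ?_
  rw [Pi.add_apply, _root_.zpow_add]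

variable {t0 : Fin n → Fin n} (hS : Swap D t0) {k K : Type*} [Field k] [Infinite k] [Field K]
  [Infinite K] {θ : k ≃+* k} {θ' : K ≃+* K} {σ : GF D k →* GF D k} {σ' : GF D K →* GF D K}
  (h : SRs D t0 θ σ) (h' : SRs D t0 θ' σ') (φ : k →+* K) (hφ : ∀ t, φ (θ t) = θ' (φ t))
  (cc : Fin n → Kˣ) (hc : CC D t0 θ' cc) (Φ : GF D k →* GF D K) (hΦ : PhiS hS.na φ cc Φ)

include h h' hφ hc hΦ

private theorem ZF0_th (j : Fin n) (t : k) :
    th D θ' (C.simple j) ((cc j : K) * φ t) = (cc (t0 j) : K) * φ (th D θ (C.simple j) t) ∧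
    th D θ' (C.simple j) ((cc j : K)⁻¹ * φ t) =
      (cc (t0 j) : K)⁻¹ * φ (th D θ (C.simple j) t) := by
  have hr : D.r (C.simple j) = C.simple j ↔ D.ρ j = j := by
    rw [D.r_simple]
    exact ⟨fun h1 => C.simple_injective h1, fun h1 => by rw [h1]⟩
  unfold th
  by_cases hj : D.ρ j = j
  · simp only [if_pos (hr.mpr hj)]
    have h1 : D.ρ (t0 j) ≠ t0 j := fun h2 => (hS.fix_iff j).mp h2 hj
    have h2 := hc.t0 (t0 j) h1
    have h3 : t0 (t0 j) = j := by
      obtain ⟨z, hz⟩ := hS.inv j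
      rw [← hz]
      exact (Function.IsFixedPt.perm_zpow hj z)
    rw [h3] at h2
    have h4 : ∀ t, θ'.symm (φ t) = φ (θ.symm t) := by
      intro t
      rw [RingEquiv.symm_apply_eq, ← hφ, RingEquiv.apply_symm_apply]
    rw [_root_.map_mul, _root_.map_mul, map_inv₀, h4, h2, RingEquiv.symm_apply_apply]
    exact ⟨rfl, rfl⟩
  · simp only [if_neg (fun h1 => hj (hr.mp h1))]
    rw [_root_.map_mul, _root_.map_mul, map_inv₀, hc.t0 j hj, hφ]
    exact ⟨rfl, rfl⟩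

theorem Phi_sig (x : GF D k) : σ' (Φ x) = Φ (σ x) := by
  have key : σ'.comp Φ = Φ.comp σ := by
    refine MonoidHom.eq_of_eqOn_dense (GF_gen hS.na) ?_
    rintro g ⟨j, t, rfl | rfl⟩
    · change σ' (Φ _) = Φ (σ _)
      rw [hΦ.yg, (sig_yg hS h j t).1, hΦ.yg, ccr_simple, ccr_simple, (sig_yg hS h' j _).1,
        (ZF0_th hS h h' φ hφ cc hc Φ hΦ j t).1]
    · change σ' (Φ _) = Φ (σ _)
      rw [hΦ.yg, (sig_yg hS h j t).2, hΦ.yg, ZF0_neg, ZF0_neg, ccr_simple, ccr_simple,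
        (sig_yg hS h' j _).2, (ZF0_th hS h h' φ hφ cc hc Φ hΦ j t).2]
  exact DFunLike.congr_fun key x

theorem Phi_pin : (∀ x ∈ Esr D σ, Φ x ∈ Esr D σ') ∧
    (∀ i, ∀ x ∈ XJ hS.na t0 σ i, Φ x ∈ XJ hS.na t0 σ' i) ∧
    ∀ i, ∀ x ∈ XmJ hS.na t0 σ i, Φ x ∈ XmJ hS.na t0 σ' i := by
  have hFR : ∀ (R : Set C.Root) (x : GF D k), x ∈ FR hS.na k R → Φ x ∈ FR hS.na K R := by
    intro R x hx
    have h1 : FR hS.na k R ≤ (FR hS.na K R).comap Φ := by
      conv_lhs => unfold FR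
      rw [Subgroup.closure_le]
      rintro g ⟨β, hβ, t, rfl⟩
      change Φ _ ∈ FR hS.na K R
      rw [hΦ.yg]
      exact Subgroup.subset_closure ⟨β, hβ, _, rfl⟩
    exact h1 hx
  have hFx : ∀ x : GF D k, x ∈ Fx σ → Φ x ∈ Fx σ' := by
    intro x hx
    rw [mem_Fx] at hx ⊢
    rw [Phi_sig hS h h' φ hφ cc hc Φ hΦ, hx]
  refine ⟨?_, fun i x hx => ⟨hFR _ x hx.1, hFx x hx.2⟩, fun i x hx => ⟨hFR _ x hx.1, hFx x hx.2⟩⟩
  intro x hx
  have h1 : Esr D σ ≤ (Esr D σ').comap Φ := by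
    unfold Esr
    refine sup_le ?_ ?_
    · intro y hy
      refine (le_sup_left : FU D K ⊓ Fx σ' ≤ _) ⟨?_, hFx y hy.2⟩
      have h2 := hy.1
      rw [FU_FR hS.na] at h2 ⊢
      exact hFR _ y h2
    · intro y hy
      refine (le_sup_right : FUm D K ⊓ Fx σ' ≤ _) ⟨?_, hFx y hy.2⟩
      have h2 := hy.1
      rw [FUm_FR hS.na] at h2 ⊢
      exact hFR _ y h2
  exact h1 hx

end Pool.Agent.H86.UM
end
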