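import Pool.Agent.H86.AL.M22

/-!
# M28: collected modules

Pool.Agent.H75.US.SI1
Pool.Agent.H75.US.SI2
-/

section
/- module Pool.Agent.H75.US.SI1 -/
/-!
# Project US, module SI1: the kernel of the adjoint representation

`hh_conj`: `nn β 1 * hh α t * (nn β 1)⁻¹ = hh (s_β α) t`: `nn β 1` maps `x_(±α)(u)` to `x_(±s_β α)(c u)`,
`c = ± 1` (the same sign for `α` and `-α`; see `n_conj_all` / S-modules of H75/UL), so `nn α u` to
`nn (s_β α) (c u)` and `hh α t = nn α t * nn α (-1)` to `nn (c t) nn (-c)`, which is `hh t` also for `c = -1`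
(`h_mul` with `s = t`, `hh (-1)`; or `nn (-t) = nn t⁻¹..`: `hh (c t) * (hh c)⁻¹`).
`hh_add`: `γ = α + β`, `ip α β = -1`: `s_β α = γ`; `nn β 1 * hh α t * (nn β 1)⁻¹ =
hh α t * ((hh α t)⁻¹ * nn β 1 * hh α t) * (nn β 1)⁻¹`, and `hh α t` acts on `x_(±β)(u)` by `t^(±(-1))`
(relation of `hh` with root elements, in the S-modules), so `(hh α t)⁻¹ nn β 1 hh α t = nn β t`; so the product is
`hh α t * nn β t * (nn β 1)⁻¹ = hh α t * hh β t` (`(nn β 1)⁻¹ = nn β (-1)`).
`hh_neg`: `hh (-α) t = (hh α t)⁻¹` (`s_α α = -α`, the same calculation with `ip α α = 2`: `hh α t * nn α (t⁻²)..`; or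
`nn (-α) t = nn α (t⁻¹)` up to sign). `T_form`: the elements `∏ hh (simple i) (t i)` form a subgroup (`T_comm`,
`h_mul`), and each `hh β t` is in it: induction on the height (`exists_descent`: `β = α_i + γ`).
`pa_ker_form`: the proof of `ker_central` (H75/UL/S9) shows that the kernel is contained in `T` (copy it);
`pa` maps `hh α t` to an element acting on `e_β` by `t ^ ip α β`; compare the coefficient at
`inr (simple j)`.
-/

set_option autoImplicit false
open Matrix
universe u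
namespace Pool.Agent.H75.UL

open Pool.Agent.H86 Pool.Agent.H86.UM

variable {n : ℕ} {C : SLC n}

private theorem SI1_cs_neg (α β : C.Root) : C.cs α (-β) = C.cs α β := by
  unfold SLC.cs
  rw [SLC.Root.neg_val, C.ip_neg_right, C.eps_neg_right]
  by_cases h : C.ip α.1 β.1 = 1 ∨ C.ip α.1 β.1 = -1
  · rw [if_pos h, if_pos (by omega)]
  · rw [if_neg h, if_neg (by omega)]

private theorem SI1_cs (α β : C.Root) : C.cs α β = 1 ∨ C.cs α β = -1 := by
  unfold SLC.cs
  split_ifs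
  · exact C.eps_eq_one_or _ _
  · exact Or.inl rfl

private theorem SI1_nn_conj {K : Type*} [Field K] {H : Type*} [Group H] (S : StSys C K H)
    (g : H) (c : K) (β δ : C.Root)
    (h1 : ∀ u, g * S.x β u * g⁻¹ = S.x δ (c * u))
    (h2 : ∀ u, g * S.x (-β) u * g⁻¹ = S.x (-δ) (c⁻¹ * u)) (t : K) :
    g * nn S.x β t * g⁻¹ = nn S.x δ (c * t) := by
  unfold nn
  rw [mul_inv, ← h1, ← h2]
  group

private theorem SI1_hh_scale {K : Type*} [Field K] {H : Type*} [Group H] (S : StSys C K H)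
    (β : C.Root) (c t : K) (hc0 : c ≠ 0) (ht : t ≠ 0) :
    nn S.x β (c * t) * nn S.x β (c * (-1)) = hh S.x β t := by
  have h5 := S.h_mul β t c ht hc0
  have h6 : hh S.x β t = hh S.x β (t * c) * (hh S.x β c)⁻¹ := by
    rw [← h5, mul_assoc, mul_inv_cancel, mul_one]
  rw [h6]
  unfold hh
  rw [mul_neg, mul_one, ← S.nn_inv, mul_comm t c]
  group

private theorem SI1_hh_conj {K : Type*} [Field K] {H : Type*} [Group H] (S : StSys C K H)
    (g : H) (c : K) (hc0 : c ≠ 0) (β δ : C.Root)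
    (h1 : ∀ u, g * S.x β u * g⁻¹ = S.x δ (c * u))
    (h2 : ∀ u, g * S.x (-β) u * g⁻¹ = S.x (-δ) (c⁻¹ * u)) (t : K) (ht : t ≠ 0) :
    g * hh S.x β t * g⁻¹ = hh S.x δ t := by
  rw [← SI1_hh_scale S δ c t hc0 ht, ← SI1_nn_conj S g c β δ h1 h2 t,
    ← SI1_nn_conj S g c β δ h1 h2 (-1)]
  conv_lhs => unfold hh
  group

private theorem SI1_refl_conj {K : Type*} [Field K] {H : Type*} [Group H] (S : StSys C K H)
    (α β : C.Root) (t : K) (ht : t ≠ 0) :
    nn S.x β 1 * hh S.x α t * (nn S.x β 1)⁻¹ = hh S.x (C.refl β α) t := by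
  have hc : ((C.cs β α : ℤ) : K) = 1 ∨ ((C.cs β α : ℤ) : K) = -1 := by
    rcases SI1_cs β α with h | h <;> rw [h]
    · left; norm_num
    · right; norm_num
  have hc0 : ((C.cs β α : ℤ) : K) ≠ 0 := by
    rcases hc with h | h <;> rw [h]
    · exact one_ne_zero
    · exact neg_ne_zero.2 one_ne_zero
  have hci : (((C.cs β α : ℤ) : K))⁻¹ = ((C.cs β α : ℤ) : K) := by
    rcases hc with h | h <;> rw [h]
    · exact inv_one
    · rw [inv_neg, inv_one]
  refine SI1_hh_conj S _ ((C.cs β α : ℤ) : K) hc0 α (C.refl β α) (fun u => ?_) (fun u => ?_) t ht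
  · rw [S.n_conj_all β α 1 u one_ne_zero, _root_.one_zpow, mul_one]
  · rw [S.n_conj_all β (-α) 1 u one_ne_zero, _root_.one_zpow, mul_one, SI1_cs_neg, hci, C.refl_neg]

theorem hh_add {K : Type*} [Field K] {H : Type*} [Group H] (S : StSys C K H) (α β γ : C.Root)
    (h : γ.1 = α.1 + β.1) (t : K) (ht : t ≠ 0) :
    hh S.x γ t = hh S.x α t * hh S.x β t := by
  have hip := C.ip_add_root α β γ h
  have hr : C.refl β α = γ := by
    apply SLC.Root.ext
    rw [C.refl_val, C.ip_comm, hip, h]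
    module
  have e1 := SI1_refl_conj S α β t ht
  rw [hr] at e1
  have e2 : hh S.x α t * nn S.x β t * (hh S.x α t)⁻¹ = nn S.x β (t⁻¹ * t) := by
    refine SI1_nn_conj S _ t⁻¹ β β (fun u => ?_) (fun u => ?_) t
    · rw [S.h_conj α β t u ht, hip, _root_.zpow_neg, zpow_one]
    · rw [S.h_conj α (-β) t u ht, SLC.Root.neg_val, C.ip_neg_right, hip, neg_neg, zpow_one,
        inv_inv]
  rw [inv_mul_cancel₀ ht] at e2
  have e3 : nn S.x β 1 * hh S.x α t = hh S.x α t * nn S.x β t := by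
    rw [← e2, inv_mul_cancel_right]
  rw [← e1, e3, S.nn_inv, mul_assoc]
  rfl

private theorem SI1_hh_one {K : Type*} [Field K] {H : Type*} [Group H] (S : StSys C K H)
    (α : C.Root) : hh S.x α 1 = 1 := by
  unfold hh
  rw [← S.nn_inv, mul_inv_cancel]

private theorem SI1_hh_neg {K : Type*} [Field K] {H : Type*} [Group H] (S : StSys C K H)
    (α : C.Root) (t : K) (ht : t ≠ 0) : hh S.x (-α) t = hh S.x α t⁻¹ := by
  unfold hh
  rw [S.nn_eq (-α) t ht, S.nn_eq (-α) (-1) (neg_ne_zero.2 one_ne_zero), C.neg_neg_root, inv_neg,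
    inv_one]

private theorem SI1_mem {K : Type*} [Field K] {H : Type*} [Group H] (S : StSys C K H)
    (l : List (Fin n)) (t : Fin n → Kˣ) :
    (l.map fun i => hh S.x (C.simple i) (t i : K)).prod ∈ S.T := by
  apply Subgroup.list_prod_mem
  intro g hg
  obtain ⟨i, _, rfl⟩ := List.mem_map.mp hg
  exact Subgroup.subset_closure ⟨C.simple i, _, (t i).ne_zero, rfl⟩

private theorem SI1_list_mul {K : Type*} [Field K] {H : Type*} [Group H] (S : StSys C K H)
    (l : List (Fin n)) (s t : Fin n → Kˣ) :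
    (l.map fun i => hh S.x (C.simple i) ((s * t) i : Kˣ)).prod =
      (l.map fun i => hh S.x (C.simple i) (s i : K)).prod *
        (l.map fun i => hh S.x (C.simple i) (t i : K)).prod := by
  induction l with
  | nil => simp
  | cons i l ih =>
    rw [List.map_cons, List.prod_cons, List.map_cons, List.prod_cons, List.map_cons,
      List.prod_cons, ih, Pi.mul_apply, Units.val_mul,
      ← S.h_mul (C.simple i) _ _ (s i).ne_zero (t i).ne_zero]
    have h1 := S.T_comm (hh S.x (C.simple i) (t i : K))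
      (l.map fun i => hh S.x (C.simple i) (s i : K)).prod
      (Subgroup.subset_closure ⟨C.simple i, _, (t i).ne_zero, rfl⟩) (SI1_mem S l s)
    rw [mul_assoc, ← mul_assoc (hh S.x (C.simple i) (t i : K)), h1]
    simp only [mul_assoc]

private theorem SI1_list_one {K : Type*} [Field K] {H : Type*} [Group H] (S : StSys C K H)
    (l : List (Fin n)) (i : Fin n) (hi : i ∉ l) (u : Kˣ) :
    (l.map fun j => hh S.x (C.simple j) ((Pi.mulSingle i u : Fin n → Kˣ) j : K)).prod = 1 := by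
  induction l with
  | nil => simp
  | cons j l ih =>
    rw [List.mem_cons, not_or] at hi
    rw [List.map_cons, List.prod_cons, ih hi.2, mul_one, Pi.mulSingle_eq_of_ne (Ne.symm hi.1),
      Units.val_one, SI1_hh_one]

private theorem SI1_list_single {K : Type*} [Field K] {H : Type*} [Group H] (S : StSys C K H)
    (l : List (Fin n)) (hl : l.Nodup) (i : Fin n) (hi : i ∈ l) (u : Kˣ) :
    (l.map fun j => hh S.x (C.simple j) ((Pi.mulSingle i u : Fin n → Kˣ) j : K)).prod =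
      hh S.x (C.simple i) (u : K) := by
  induction l with
  | nil => simp at hi
  | cons j l ih =>
    rw [List.nodup_cons] at hl
    rw [List.map_cons, List.prod_cons]
    by_cases hij : i = j
    · subst hij
      rw [SI1_list_one S l i hl.1, mul_one, Pi.mulSingle_eq_same]
    · have hi' : i ∈ l := by
        rcases List.mem_cons.1 hi with h | h
        · exact absurd h hij
        · exact h
      rw [ih hl.2 hi', Pi.mulSingle_eq_of_ne (Ne.symm hij), Units.val_one, SI1_hh_one, one_mul]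

/-- The subgroup of the products. -/
private def SI1_P {K : Type*} [Field K] {H : Type*} [Group H] (S : StSys C K H) : Subgroup H where
  carrier := {x | ∃ t : Fin n → Kˣ,
      x = ((List.finRange n).map fun i => hh S.x (C.simple i) (t i : K)).prod}
  mul_mem' := by
    rintro _ _ ⟨s, rfl⟩ ⟨t, rfl⟩
    exact ⟨s * t, (SI1_list_mul S _ s t).symm⟩
  one_mem' := by
    refine ⟨1, ?_⟩
    symm
    apply List.prod_eq_one
    intro x hx
    obtain ⟨i, _, rfl⟩ := List.mem_map.1 hx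
    rw [Pi.one_apply, Units.val_one, SI1_hh_one]
  inv_mem' := by
    rintro _ ⟨t, rfl⟩
    refine ⟨t⁻¹, ?_⟩
    rw [inv_eq_iff_mul_eq_one, ← SI1_list_mul, mul_inv_cancel]
    apply List.prod_eq_one
    intro x hx
    obtain ⟨i, _, rfl⟩ := List.mem_map.1 hx
    rw [Pi.one_apply, Units.val_one, SI1_hh_one]

private theorem SI1_P_pos {K : Type*} [Field K] {H : Type*} [Group H] (S : StSys C K H)
    (t : K) (ht0 : t ≠ 0) : ∀ (k : ℕ) (β : C.Root), C.Pos β → ht β.1 ≤ k →
    hh S.x β t ∈ SI1_P S := by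
  intro k
  induction k with
  | zero =>
    intro β hβ hk
    unfold SLC.Pos at hβ
    push_cast at hk
    omega
  | succ k ih =>
    intro β hβ hk
    by_cases hs : ∃ i, β = C.simple i
    · obtain ⟨i, rfl⟩ := hs
      exact ⟨Pi.mulSingle i (Units.mk0 t ht0), (SI1_list_single S _ (List.nodup_finRange n) i
        (List.mem_finRange i) (Units.mk0 t ht0)).symm⟩
    · obtain ⟨i, γ, hγ, h⟩ := C.exists_descent β hβ (fun i hi => hs ⟨i, hi⟩)
      rw [hh_add S (C.simple i) γ β h t ht0]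
      have h1 : ht β.1 = 1 + ht γ.1 := by rw [h, ht_add, C.ht_simple]
      refine mul_mem ?_ (ih γ hγ (by push_cast at hk; omega))
      exact ⟨Pi.mulSingle i (Units.mk0 t ht0), (SI1_list_single S _ (List.nodup_finRange n) i
        (List.mem_finRange i) (Units.mk0 t ht0)).symm⟩

theorem T_form {K : Type*} [Field K] {H : Type*} [Group H] (S : StSys C K H) (x : H)
    (hx : x ∈ S.T) : ∃ t : Fin n → Kˣ,
      x = ((List.finRange n).map fun i => hh S.x (C.simple i) (t i : K)).prod := by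
  have hle : S.T ≤ SI1_P S := by
    unfold StSys.T
    rw [Subgroup.closure_le]
    rintro g ⟨β, t, ht0, rfl⟩
    by_cases hβ : C.Pos β
    · exact SI1_P_pos S t ht0 (ht β.1).toNat β hβ (Int.self_le_toNat _)
    · have hβ' := (C.not_pos_iff β).1 hβ
      have h1 := SI1_P_pos S t⁻¹ (inv_ne_zero ht0) (ht (-β).1).toNat (-β) hβ'
        (Int.self_le_toNat _)
      rw [SI1_hh_neg S β _ (inv_ne_zero ht0), inv_inv] at h1
      exact h1
  exact hle hx

private theorem SI1_ker_T {K : Type*} [Field K] {H : Type*} [Group H] (S : StSys C K H)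
    (hgen : S.gen = ⊤) (p : H →* GL C.Idx K) (hp : ∀ β t, p (S.x β t) = C.xg K β t) (y : H)
    (hy : p y = 1) : y ∈ S.T := by
  have hy' : y ∈ S.gen := by rw [hgen]; exact Subgroup.mem_top y
  obtain ⟨u, hu, ν, hν, v, hv, rfl⟩ := S.bruhat y hy'
  have hpu := C.S9_U S p hp 1 u hu
  have hpv := C.S9_U S p hp 1 v hv
  have hpν := C.S9_N S p hp ν hν
  rw [map_mul, map_mul] at hy
  have e1 : p ν = (p u)⁻¹ * (p v)⁻¹ := by
    rw [eq_inv_mul_iff_mul_eq, eq_inv_iff_mul_eq_one]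
    exact hy
  have hF : C.Fil 0 ((p ν : GL C.Idx K) : Matrix C.Idx C.Idx K) := by
    apply C.Fil_U_zero
    rw [e1]
    exact mul_mem (inv_mem hpu) (inv_mem hpv)
  obtain ⟨w, hw, hacts, hwT⟩ := S.N_acts ν hν
  have hacts' : (C.adS K).Acts (p ν) w := by
    obtain ⟨c, hc, hc2⟩ := hacts
    refine ⟨c, hc, fun β t => ?_⟩
    have h1 := congrArg p (hc2 β t)
    rw [map_mul, map_mul, map_inv, hp, hp] at h1
    exact h1
  obtain ⟨-, -, -, -, hne⟩ := C.N_mono (p ν) w hacts' hpν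
  have hw1 : w = 1 := by
    apply C.eq_one_of_pos w hw
    intro i
    by_contra hneg
    apply hne (C.simple i)
    apply hF
    unfold SLC.Pos at hneg
    have h1 := C.ht_simple i
    show ht (w (C.simple i)).1 < ht (C.simple i).1 + 0
    omega
  have hνT := hwT hw1
  set u' := ν⁻¹ * u * ν * v with hu'def
  have hu' : u' ∈ S.U 1 := by
    apply mul_mem _ hv
    have h1 := S.T_conj_U 1 ν⁻¹ u (inv_mem hνT) hu
    rwa [inv_inv] at h1
  have hy2 : u * ν * v = ν * u' := by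
    rw [hu'def]
    group
  have hpu' := C.S9_U S p hp 1 u' hu'
  have e2 : p ν * p u' = 1 := by
    rw [← map_mul, ← hy2, map_mul, map_mul]
    exact hy
  have hν1 : p ν = 1 := by
    apply C.S9_T_one _ (C.S9_T S p hp ν hνT)
    rw [eq_inv_of_mul_eq_one_left e2]
    exact inv_mem hpu'
  have hu1 : p u' = 1 := by
    rw [hν1, one_mul] at e2
    exact e2
  obtain ⟨t, ht0, htu⟩ := S.exists_lp 1 le_rfl u' hu'
  have hlp : (C.adS K).lp C.posList t = (C.adS K).lp C.posList (fun _ => 0) := by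
    rw [(C.adS K).lp_zero C.posList (fun _ => 0) (fun _ _ => rfl), ← C.S9_lp S p hp, ← htu, hu1]
  have hu'1 : u' = 1 := by
    rw [htu]
    apply S.lp_zero
    intro β hβ
    exact C.lp_unique t (fun _ => 0) hlp β ((C.mem_posList β).1 hβ)
  rw [hy2, hu'1, mul_one]
  exact hνT

private theorem SI1_list_conj {K : Type*} [Field K] {H : Type*} [Group H] (S : StSys C K H)
    (t : Fin n → Kˣ) (β : C.Root) (l : List (Fin n)) :
    ∀ u, (l.map fun i => hh S.x (C.simple i) (t i : K)).prod * S.x β u *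
      ((l.map fun i => hh S.x (C.simple i) (t i : K)).prod)⁻¹ =
        S.x β (((l.map fun i => (t i) ^ (C.ip (C.simple i).1 β.1)).prod : Kˣ) * u) := by
  induction l with
  | nil => intro u; simp
  | cons i l ih =>
    intro u
    simp only [List.map_cons, List.prod_cons]
    set P := (l.map fun i => hh S.x (C.simple i) (t i : K)).prod with hP
    have h1 : hh S.x (C.simple i) (t i : K) * P * S.x β u * (hh S.x (C.simple i) (t i : K) * P)⁻¹ =
        hh S.x (C.simple i) (t i : K) * (P * S.x β u * P⁻¹) *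
          (hh S.x (C.simple i) (t i : K))⁻¹ := by
      group
    rw [h1, ih, S.h_conj _ β _ _ (t i).ne_zero]
    congr 1
    push_cast
    ring

theorem pa_ker_form {K : Type u} [Field K] (x : GU C K) (hx : pa C K x = 1) :
    ∃ t : Fin n → Kˣ,
      x = ((List.finRange n).map fun i => hh (GU.x C K) (C.simple i) (t i : K)).prod ∧
      ∀ j, ∏ i, (t i) ^ C.A i j = 1 := by
  have hp : ∀ β t, pa C K ((GU.sys C K).x β t) = C.xg K β t := fun β t => GU.lift_x (C.adS K) β t
  have hT := SI1_ker_T (GU.sys C K) (GU.gen_eq C K) (pa C K) hp x hx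
  obtain ⟨t, ht⟩ := T_form (GU.sys C K) x hT
  refine ⟨t, ht, fun j => ?_⟩
  have h1 := SI1_list_conj (GU.sys C K) t (C.simple j) (List.finRange n) 1
  rw [← ht] at h1
  have h2 := congrArg (pa C K) h1
  rw [map_mul, map_mul, map_inv, hp, hp, hx, one_mul, inv_one, mul_one, mul_one] at h2
  have h3 := (C.xg_inj (C.simple j) (C.simple j) 1 _ one_ne_zero h2).2
  have h4 : ((List.finRange n).map fun i => (t i) ^ (C.ip (C.simple i).1 (C.simple j).1)).prod =
      (1 : Kˣ) := Units.ext (by rw [← h3, Units.val_one])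
  rw [← h4, Fin.prod_univ_def]
  congr 1
  apply List.map_congr_left
  intro i _
  rw [SLC.simple_val, SLC.simple_val, C.ip_single]

end Pool.Agent.H75.UL
end

section
/- module Pool.Agent.H75.US.SI2 -/
/-!
# Project US, module SI2: the adjoint representation is injective on the folded groups

`x = ∏ h_i(t_i)`, `∏_i t_i ^ A_ij = 1` (`pa_ker_form`).
`A₃`, characteristic `2`: `t₀² = t₁`, `t₁² = t₀ t₂`, `t₂² = t₁`: so `t₀² = t₂²`, `t₀ = t₂` (characteristic `2`),
`t₁² = t₀²`, `t₁ = t₀`, `t₀² = t₀`, all `t_i = 1`.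
`D₄` (centre `1`), characteristic `3`: `t₀² = t₁`, `t₂² = t₁`, `t₃² = t₁`, `t₁² = t₀ t₂ t₃`: so `t₁⁴ = t₁³`, `t₁ = 1`,
`t_i² = 1`, `t₀ t₂ t₃ = 1`. `x` is fixed by `s = D.sig refl` (`Eg_le_fix`), `s (h_i(t)) = h_(ρ i)(t)`
(`IsSig.map_hh`, `sg_simple`), so (`T` is commutative, `h_mul`) `x³ = x s(x) s²(x) = ∏_(i = 0, 2, 3)
h_i(t₀ t₂ t₃) = 1` and `x² = ∏ h_i(t_i²) = 1`; so `x = 1`.
`E₆` (nodes `0 - 2 - 3 - 4 - 5`, `1 - 3`): `t₀² = t₂`, `t₂² = t₀ t₃`, `t₁² = t₃`, `t₃² = t₁ t₂ t₄`, `t₄² = t₃ t₅`,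
`t₅² = t₄`: so `t₂ = t₀²`, `t₃ = t₀³`, `t₄ = t₅²`, `t₃ = t₅³`, `t₁² = t₃`, `t₃² = t₁ t₀² t₅²`; so `t₃⁴ = t₁² t₀⁴ t₅⁴ =
t₃ t₀⁴ t₅⁴`, `t₃³ = t₀⁴ t₅⁴`, cube: `t₃⁹ = t₃⁸`, `t₃ = 1`, `t₁² = 1`, `t₀³ = 1`, `t₅³ = 1`, `t₁ = (t₀ t₅)⁻²`, so
`t₁³ = 1`, `t₁ = 1`, `(t₀ t₅)² = 1` and `(t₀ t₅)³ = 1`, `t₀ t₅ = 1`. So `x³ = 1`, and `x² = x s(x) = ∏ h_i(t_i t_(ρ i)) = 1`
(`t₀ t₅ = 1`, `t₂ t₄ = 1`, `t₁ = t₃ = 1`); `x = 1`.
-/

set_option autoImplicit false
open Matrix
universe u
namespace Pool.Agent.H75.UL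

open Pool.Agent.H86 Pool.Agent.H86.UM

universe v
section aux
variable {n : ℕ} {C : SLC n} {K : Type u} [Field K] {H : Type v} [Group H]

/-- the torus as a commutative group -/
@[reducible] private def SI2_cg (S : StSys C K H) : CommGroup S.T :=
  { (inferInstance : Group S.T) with
    mul_comm := fun a b => Subtype.ext (S.T_comm a b a.2 b.2) }

/-- the one parameter subgroups of the torus -/
private def SI2_h (S : StSys C K H) (i : Fin n) : Kˣ →* S.T :=
  MonoidHom.mk' (fun t => ⟨hh S.x (C.simple i) (t : K), Subgroup.subset_closure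
    ⟨C.simple i, t, t.ne_zero, rfl⟩⟩) (by
      intro a b
      apply Subtype.ext
      change hh S.x (C.simple i) ((a * b : Kˣ) : K) = _ * _
      rw [S.h_mul _ _ _ a.ne_zero b.ne_zero, Units.val_mul])

private theorem SI2_h_val (S : StSys C K H) (i : Fin n) (t : Kˣ) :
    ((SI2_h S i t : S.T) : H) = hh S.x (C.simple i) (t : K) := rfl

/-- the element of the torus with coordinates `t`, nodes renamed by `p` -/
private def SI2_P (S : StSys C K H) (p : Fin n → Fin n) (t : Fin n → Kˣ) : S.T :=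
  letI := SI2_cg S
  ∏ i, SI2_h S (p i) (t i)

private theorem SI2_P_val (S : StSys C K H) (p : Fin n → Fin n) (t : Fin n → Kˣ) :
    ((SI2_P S p t : S.T) : H) =
      ((List.finRange n).map fun i => hh S.x (C.simple (p i)) (t i : K)).prod := by
  let _ := SI2_cg S
  have h1 : SI2_P S p t = ((List.finRange n).map fun i => SI2_h S (p i) (t i)).prod :=
    Fin.prod_univ_def _
  rw [h1]
  have h2 := map_list_prod S.T.subtype ((List.finRange n).map fun i => SI2_h S (p i) (t i))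
  rw [List.map_map] at h2
  exact h2

private theorem SI2_sig (D : Dg C) (S : StSys C K H) (s : H →* H)
    (hs : IsSig D (RingEquiv.refl K) S s) (p : Fin n → Fin n) (t : Fin n → Kˣ) :
    s ((SI2_P S p t : S.T) : H) = ((SI2_P S (fun i => D.ρ (p i)) t : S.T) : H) := by
  rw [SI2_P_val, SI2_P_val, map_list_prod, List.map_map]
  congr 1
  apply List.map_congr_left
  intro i _
  change s (hh S.x (C.simple (p i)) (t i : K)) = _
  rw [hs.map_hh _ _ (t i).ne_zero, D.r_simple]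
  rfl

private theorem SI2_key (D : Dg C) (S : StSys C K H) (s : H →* H)
    (hs : IsSig D (RingEquiv.refl K) S s) (x : H) (hx : s x = x) (t : Fin n → Kˣ)
    (h : x = ((List.finRange n).map fun i => hh S.x (C.simple i) (t i : K)).prod)
    (ht : ∀ j, ∏ i, (t i) ^ C.A i j = 1)
    (key : ∀ (M : Type v) (_ : AddCommGroup M) (f : Fin n → Additive Kˣ →+ M)
      (t : Fin n → Additive Kˣ), (∀ j, ∑ i, C.A i j • t i = 0) → ∀ y : M, y = ∑ i, f i (t i) →
      y = ∑ i, f (D.ρ i) (t i) → y = ∑ i, f (D.ρ (D.ρ i)) (t i) → y = 0) : x = 1 := by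
  let _ := SI2_cg S
  have h0 : x = ((SI2_P S (fun i => i) t : S.T) : H) := by rw [SI2_P_val]; exact h
  have h1 : x = ((SI2_P S (fun i => D.ρ i) t : S.T) : H) := by
    rw [← SI2_sig D S s hs (fun i => i) t, ← h0, hx]
  have h2 : x = ((SI2_P S (fun i => D.ρ (D.ρ i)) t : S.T) : H) := by
    rw [← SI2_sig D S s hs (fun i => D.ρ i) t, ← h1, hx]
  have h3 := key (Additive S.T) inferInstance
    (fun i => MonoidHom.toAdditive (SI2_h S i)) (fun i => Additive.ofMul (t i))
    (fun j => by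
      have := congrArg Additive.ofMul (ht j)
      rw [ofMul_prod] at this
      simpa using this)
    (Additive.ofMul (SI2_P S (fun i => i) t)) rfl
    (congrArg Additive.ofMul (Subtype.ext (h0.symm.trans h1)))
    (congrArg Additive.ofMul (Subtype.ext (h0.symm.trans h2)))
  rw [h0]
  exact congrArg (fun z : Additive S.T => ((z.toMul : S.T) : H)) h3

end aux

private theorem SI2_D4 (M G : Type*) [AddCommGroup M] [AddCommGroup G] (f : Fin 4 → G →+ M)
    (t : Fin 4 → G) (h : ∀ j, ∑ i, cD4.A i j • t i = 0) (y : M) (h0 : y = ∑ i, f i (t i))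
    (h1 : y = ∑ i, f (dD4.ρ i) (t i)) (h2 : y = ∑ i, f (dD4.ρ (dD4.ρ i)) (t i)) : y = 0 := by
  have e0 := h 0
  have e1 := h 1
  have e2 := h 2
  have e3 := h 3
  simp only [Fin.sum_univ_four] at e0 e1 e2 e3 h0 h1 h2
  have r0 : dD4.ρ 0 = 2 := rfl
  have r1 : dD4.ρ 1 = 1 := rfl
  have r2 : dD4.ρ 2 = 3 := rfl
  have r3 : dD4.ρ 3 = 0 := rfl
  simp only [r0, r1, r2, r3] at h1 h2
  simp [cD4] at e0 e1 e2 e3
  have t1 : t 1 = 0 := by
    linear_combination (norm := module) (2 : ℤ) • e1 + e0 + e2 + e3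
  have hx : (3 : ℤ) • y = 0 := by
    have : (3 : ℤ) • y = f 0 (t 0 + t 2 + t 3) + f 2 (t 0 + t 2 + t 3) + f 3 (t 0 + t 2 + t 3) +
        (3 : ℤ) • f 1 (t 1) := by
      simp only [_root_.map_add]
      linear_combination (norm := module) h0 + h1 + h2
    rw [this, t1]
    have : t 0 + t 2 + t 3 = 0 := by
      rw [t1] at e1
      linear_combination (norm := module) - e1
    simp [this]
  have hy : (2 : ℤ) • y = 0 := by
    have : (2 : ℤ) • y = f 0 ((2 : ℤ) • t 0) + (2 : ℤ) • f 1 (t 1) + f 2 ((2 : ℤ) • t 2) +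
        f 3 ((2 : ℤ) • t 3) := by
      simp only [_root_.map_zsmul]
      linear_combination (norm := module) (2 : ℤ) • h0
    rw [this, t1]
    have a0 : (2 : ℤ) • t 0 = 0 := by
      rw [t1] at e0
      linear_combination (norm := module) e0
    have a2 : (2 : ℤ) • t 2 = 0 := by
      rw [t1] at e2
      linear_combination (norm := module) e2
    have a3 : (2 : ℤ) • t 3 = 0 := by
      rw [t1] at e3
      linear_combination (norm := module) e3
    rw [a0, a2, a3]
    simp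
  linear_combination (norm := module) hx - hy

private theorem SI2_E6 (M G : Type*) [AddCommGroup M] [AddCommGroup G] (f : Fin 6 → G →+ M)
    (t : Fin 6 → G) (h : ∀ j, ∑ i, cE6.A i j • t i = 0) (y : M) (h0 : y = ∑ i, f i (t i))
    (h1 : y = ∑ i, f (dE6.ρ i) (t i)) : y = 0 := by
  have e0 := h 0
  have e1 := h 1
  have e2 := h 2
  have e3 := h 3
  have e4 := h 4
  have e5 := h 5
  simp only [Fin.sum_univ_six] at e0 e1 e2 e3 e4 e5 h0 h1
  have r0 : dE6.ρ 0 = 5 := rfl
  have r1 : dE6.ρ 1 = 1 := rfl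
  have r2 : dE6.ρ 2 = 4 := rfl
  have r3 : dE6.ρ 3 = 3 := rfl
  have r4 : dE6.ρ 4 = 2 := rfl
  have r5 : dE6.ρ 5 = 0 := rfl
  simp only [r0, r1, r2, r3, r4, r5] at h1
  simp [cE6] at e0 e1 e2 e3 e4 e5
  have t3 : t 3 = 0 := by
    linear_combination (norm := module) (2 : ℤ) • e0 + (3 : ℤ) • e1 + (4 : ℤ) • e2 +
      (6 : ℤ) • e3 + (4 : ℤ) • e4 + (2 : ℤ) • e5
  have t1 : t 1 = 0 := by
    linear_combination (norm := module) (1 : ℤ) • e0 + (2 : ℤ) • e1 + (2 : ℤ) • e2 +
      (3 : ℤ) • e3 + (2 : ℤ) • e4 + (1 : ℤ) • e5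
  have t05 : t 0 + t 5 = 0 := by
    linear_combination (norm := module) (2 : ℤ) • e0 + (2 : ℤ) • e1 + (3 : ℤ) • e2 +
      (4 : ℤ) • e3 + (3 : ℤ) • e4 + (2 : ℤ) • e5
  have t24 : t 2 + t 4 = 0 := by
    linear_combination (norm := module) (3 : ℤ) • e0 + (4 : ℤ) • e1 + (6 : ℤ) • e2 +
      (8 : ℤ) • e3 + (6 : ℤ) • e4 + (3 : ℤ) • e5
  have t0 : (3 : ℤ) • t 0 = 0 := by
    linear_combination (norm := module) (4 : ℤ) • e0 + (3 : ℤ) • e1 + (5 : ℤ) • e2 +
      (6 : ℤ) • e3 + (4 : ℤ) • e4 + (2 : ℤ) • e5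
  have t5 : (3 : ℤ) • t 5 = 0 := by
    linear_combination (norm := module) (2 : ℤ) • e0 + (3 : ℤ) • e1 + (4 : ℤ) • e2 +
      (6 : ℤ) • e3 + (5 : ℤ) • e4 + (4 : ℤ) • e5
  have t2 : (3 : ℤ) • t 2 = 0 := by
    linear_combination (norm := module) (5 : ℤ) • e0 + (6 : ℤ) • e1 + (10 : ℤ) • e2 +
      (12 : ℤ) • e3 + (8 : ℤ) • e4 + (4 : ℤ) • e5
  have t4 : (3 : ℤ) • t 4 = 0 := by
    linear_combination (norm := module) (4 : ℤ) • e0 + (6 : ℤ) • e1 + (8 : ℤ) • e2 +
      (12 : ℤ) • e3 + (10 : ℤ) • e4 + (5 : ℤ) • e5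
  have hx : (3 : ℤ) • y = 0 := by
    have : (3 : ℤ) • y = f 0 ((3 : ℤ) • t 0) + (3 : ℤ) • f 1 (t 1) + f 2 ((3 : ℤ) • t 2) +
        (3 : ℤ) • f 3 (t 3) + f 4 ((3 : ℤ) • t 4) + f 5 ((3 : ℤ) • t 5) := by
      simp only [_root_.map_zsmul]
      linear_combination (norm := module) (3 : ℤ) • h0
    rw [this, t1, t0, t2, t3, t4, t5]
    simp
  have hy : (2 : ℤ) • y = 0 := by
    have : (2 : ℤ) • y = f 0 (t 0 + t 5) + (2 : ℤ) • f 1 (t 1) + f 2 (t 2 + t 4) +
        (2 : ℤ) • f 3 (t 3) + f 4 (t 2 + t 4) + f 5 (t 0 + t 5) := by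
      simp only [_root_.map_add]
      linear_combination (norm := module) h0 + h1
    rw [this, t1, t05, t24, t3]
    simp
  linear_combination (norm := module) hx - hy



theorem inj_A3 (K : Type u) [Field K] (hK : CharP K 2) (x : GU cA3 K)
    (hx : x ∈ EE dA3 K (RingEquiv.refl K)) (h : pa cA3 K x = 1) : x = 1 := by
  obtain ⟨t, ht, hA⟩ := pa_ker_form x h
  refine SI2_key dA3 (GU.sys cA3 K) _ (isSig_GU dA3 _) x (Eg_le_fix _ _ x hx) t ht hA ?_
  intro M _ f t h y h0 _ _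
  have no2 : ∀ a : Additive Kˣ, (2 : ℤ) • a = 0 → a = 0 := by
    intro a ha
    have h1 : (a.toMul : Kˣ) ^ (2 : ℤ) = 1 := ha
    have h2 : ((a.toMul : Kˣ) : K) ^ 2 = 1 := by
      have := congrArg (fun u : Kˣ => (u : K)) h1
      simpa [zpow_ofNat] using this
    have h3 : ((a.toMul : Kˣ) : K) = 1 := by
      have h4 : (((a.toMul : Kˣ) : K) - 1) ^ 2 = 0 := by
        have h5 : (2 : K) = 0 := CharP.cast_eq_zero K 2
        linear_combination h2 + (1 - ((a.toMul : Kˣ) : K)) * h5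
      exact sub_eq_zero.mp (pow_eq_zero_iff two_ne_zero |>.mp h4)
    exact congrArg Additive.ofMul (Units.ext h3)
  have e0 := h 0
  have e1 := h 1
  have e2 := h 2
  simp only [Fin.sum_univ_three] at e0 e1 e2 h0
  simp [cA3] at e0 e1 e2
  have t02 : t 0 - t 2 = 0 := no2 _ (by linear_combination (norm := module) e0 - e2)
  have t0 : t 0 = 0 := no2 _ (by
    linear_combination (norm := module) (2 : ℤ) • e0 + e1 - t02)
  have t1 : t 1 = 0 := by
    rw [t0] at e0
    linear_combination (norm := module) - e0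
  have t2 : t 2 = 0 := by
    rw [t0] at t02
    linear_combination (norm := module) - t02
  rw [h0, t0, t1, t2]
  simp

theorem inj_D4 (K : Type u) [Field K] (hK : CharP K 3) (x : GU cD4 K)
    (hx : x ∈ EE dD4 K (RingEquiv.refl K)) (h : pa cD4 K x = 1) : x = 1 := by
  obtain ⟨t, ht, hA⟩ := pa_ker_form x h
  refine SI2_key dD4 (GU.sys cD4 K) _ (isSig_GU dD4 _) x (Eg_le_fix _ _ x hx) t ht hA ?_
  intro M _ f t h y h0 h1 h2
  exact SI2_D4 M _ f t h y h0 h1 h2

theorem inj_E6 (K : Type u) [Field K] (hK : CharP K 2) (x : GU cE6 K)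
    (hx : x ∈ EE dE6 K (RingEquiv.refl K)) (h : pa cE6 K x = 1) : x = 1 := by
  obtain ⟨t, ht, hA⟩ := pa_ker_form x h
  refine SI2_key dE6 (GU.sys cE6 K) _ (isSig_GU dE6 _) x (Eg_le_fix _ _ x hx) t ht hA ?_
  intro M _ f t h y h0 h1 _
  exact SI2_E6 M _ f t h y h0 h1

end Pool.Agent.H75.UL
end
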