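import Pool.Agent.H86.AL.M09
import Pool.Agent.H86.AL.M13
import Pool.Agent.H86.AL.M21

/-!
# M30: collected modules

Pool.Agent.H86.UM.Z6
Pool.Agent.H86.UM.Z7
Pool.Agent.H86.UM.Z8
Pool.Agent.H86.UM.Z9
-/

section
/- module Pool.Agent.H86.UM.Z6 -/
/-!
# Project UM, Suzuki-Ree groups, module Z6: Bruhat decomposition of the folded group and `σ`

`Nw w`: positive roots `β` with `w⁻¹ β` negative; closed; `D.r`-stable if `w` commutes with `rE`.
`GF_bruhat`: `g ∈ Gad`; `StSys.bruhat` and `exists_lp_inv`: `g = u ν b`, `u = lp t`, `t β = 0` unless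
`¬ Pos (w⁻¹ β)`, so `u ∈ UR (Nw w)`. As in UT/D8.lean (see the header there) with `θ = 1`, `s(g) = g`: `w` commutes with
`rE`, we may take `ν ∈ FN` (`exists_nW` or `exists_FN`; change `b`), and then `s(u) = u` (the argument of D8), so
`u ∈ FR (Nw w)` (`UR_fix`), `b = (u ν)⁻¹ g ∈ GF`.
`GF_bruhat_unique`: `w = w'` by `bruhat_unique`; `ν⁻¹ (u⁻¹ u') ν = b b'⁻¹ (ν'⁻¹ ν)` is in the Borel subgroup
(`FN_T`), and in `Um` (it is a product of root elements for the roots `w⁻¹ β`, `β ∈ Nw w`), so `1` (`B_FUm` or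
`U_inf_Um`).
`sig_bruhat`: `σ g = g * b₀`: `σ u * σ ν * σ b = u ν (b b₀)`; `σ ν ∈ FN` acts by `w'` with `w' (τ β) ~ τ (w β)`
(`sig_FN`, `FN_acts`), `σ b` is in the Borel subgroup (`sig_Fil`); `σ u ∈ FR (Nw w')`: for `β ∈ Nw w`
the root `τ β` is positive, and `w'⁻¹ (τ β) ~ τ (w⁻¹ β)` is negative (`sig_FR`, `tau_pos`, `pos_cycle`). So
`w' = w`, `σ u = u` by uniqueness, and `ν⁻¹ σ ν ∈ FT` (`FN_T`).
`sig_bruhat_fix` (`b₀ = 1`): `b = t v` (`B_split`), `ν' = ν t`; `σ ν' σ v = ν' v`, so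
`ν'⁻¹ σ ν' = v (σ v)⁻¹ ∈ FT ∩ FU = 1`.
-/

set_option autoImplicit false
open Matrix

namespace Pool.Agent.H86.UM

open Pool.Agent.H75.UL

variable {n : ℕ} {C : SLC n} {D : Dg C} {t0 : Fin n → Fin n}

/-- the positive roots made negative by `w⁻¹` -/
def Nw (C : SLC n) (w : Equiv.Perm C.Root) : Set C.Root := {β | C.Pos β ∧ ¬ C.Pos (w⁻¹ β)}

private theorem Z6_comm (w : Equiv.Perm C.Root) (hr : D.rE * w * D.rE⁻¹ = w) :
    Commute D.rE w := by
  have h1 : D.rE * w = w * D.rE := by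
    calc D.rE * w = (D.rE * w * D.rE⁻¹) * D.rE := by group
      _ = w * D.rE := by rw [hr]
  exact h1

private theorem Z6_r_inv (w : Equiv.Perm C.Root) (hr : D.rE * w * D.rE⁻¹ = w) (β : C.Root) :
    w⁻¹ (D.r β) = D.r (w⁻¹ β) := by
  have h1 : w⁻¹ * D.rE = D.rE * w⁻¹ := ((Z6_comm w hr).inv_right).eq.symm
  exact congrArg (fun f : Equiv.Perm C.Root => f β) h1

private theorem Z6_comm_inv (w : Equiv.Perm C.Root) (hr : D.rE * w * D.rE⁻¹ = w) :
    D.rE * w⁻¹ * D.rE⁻¹ = w⁻¹ := by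
  rw [((Z6_comm w hr).inv_right).eq]
  group

private theorem Z6_mul {K : Type*} [Field K] (g h : GL C.Idx K)
    (hg : C.Fil 0 (g : Matrix C.Idx C.Idx K)) (hh : C.Fil 0 (h : Matrix C.Idx C.Idx K)) :
    C.Fil 0 ((g * h : GL C.Idx K) : Matrix C.Idx C.Idx K) := by
  have h1 := C.Fil_mul hg hh
  rw [add_zero] at h1
  rw [Units.val_mul]
  exact h1

private theorem Z6_nil {K : Type*} [Field K] (M : Matrix C.Idx C.Idx K) (hM : C.Fil 1 M) :
    IsNilpotent M := by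
  obtain ⟨m₀, hm₀⟩ := C.exists_Fil_eq_zero' K
  have key : ∀ k : ℕ, C.Fil (k : ℤ) (M ^ k) := by
    intro k
    induction k with
    | zero =>
      rw [pow_zero]
      exact C.Fil_one
    | succ k ih =>
      rw [pow_succ]
      have h1 := C.Fil_mul ih hM
      push_cast
      exact h1
  exact ⟨m₀.toNat, hm₀ _ (C.Fil_mono (Int.self_le_toNat m₀) (key m₀.toNat))⟩

private theorem Z6_conj_nil {K : Type*} [Field K] (x ν : GL C.Idx K)
    (h : IsNilpotent ((x : Matrix C.Idx C.Idx K) - 1)) :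
    IsNilpotent (((ν⁻¹ * x * ν : GL C.Idx K) : Matrix C.Idx C.Idx K) - 1) := by
  obtain ⟨k, hk⟩ := h
  refine ⟨k, ?_⟩
  have h1 : ∀ j : ℕ, (((ν⁻¹ * x * ν : GL C.Idx K) : Matrix C.Idx C.Idx K) - 1) ^ j =
      ((ν⁻¹ : GL C.Idx K) : Matrix C.Idx C.Idx K) * ((x : Matrix C.Idx C.Idx K) - 1) ^ j *
        (ν : Matrix C.Idx C.Idx K) := by
    intro j
    induction j with
    | zero =>
      rw [pow_zero, pow_zero, mul_one, ← Units.val_mul, inv_mul_cancel, Units.val_one]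
    | succ j ih =>
      have e : ((ν⁻¹ * x * ν : GL C.Idx K) : Matrix C.Idx C.Idx K) - 1 =
          ((ν⁻¹ : GL C.Idx K) : Matrix C.Idx C.Idx K) * ((x : Matrix C.Idx C.Idx K) - 1) *
            (ν : Matrix C.Idx C.Idx K) := by
        rw [mul_sub, sub_mul, mul_one, Units.val_mul, Units.val_mul, ← Units.val_mul ν⁻¹ ν,
          inv_mul_cancel, Units.val_one]
      have e2 : (ν : Matrix C.Idx C.Idx K) * ((ν⁻¹ : GL C.Idx K) : Matrix C.Idx C.Idx K) = 1 := by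
        rw [← Units.val_mul, mul_inv_cancel, Units.val_one]
      rw [pow_succ, ih, e, pow_succ]
      simp only [mul_assoc]
      rw [← mul_assoc (ν : Matrix C.Idx C.Idx K) _ _, e2, one_mul]
  rw [h1, hk, mul_zero, zero_mul]

/-- The elements whose conjugate by `ν` is in `Um`. -/
private noncomputable def Z6_V {K : Type*} [Field K] (S : StSys C K (GL C.Idx K))
    (ν : GL C.Idx K) : Subgroup (GL C.Idx K) :=
  S.Um.comap (MulAut.conj ν⁻¹).toMonoidHom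

private theorem Z6_mem {K : Type*} [Field K] (S : StSys C K (GL C.Idx K)) (ν x : GL C.Idx K) :
    x ∈ Z6_V S ν ↔ ν⁻¹ * x * ν ∈ S.Um := by
  unfold Z6_V
  rw [Subgroup.mem_comap]
  change ν⁻¹ * x * ν⁻¹⁻¹ ∈ S.Um ↔ _
  rw [inv_inv]

private theorem Z6_root {K : Type*} [Field K] (S : StSys C K (GL C.Idx K)) (ν : GL C.Idx K)
    (w : Equiv.Perm C.Root) (hw : S.Acts ν w) (β : C.Root) (t : K) (h : ¬ C.Pos (w⁻¹ β)) :
    S.x β t ∈ Z6_V S ν := by
  rw [Z6_mem]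
  obtain ⟨c, -, hc⟩ := C.Acts_inv S ν w hw
  have h1 := hc β t
  rw [inv_inv] at h1
  rw [h1]
  refine Subgroup.subset_closure ⟨w⁻¹ β, c β * t, ?_, rfl⟩
  have h2 := C.ht_ne_zero (w⁻¹ β)
  unfold SLC.Pos at h
  omega

theorem Nw_closed (w : Equiv.Perm C.Root) (hw : w ∈ C.W) : ClR C (Nw C w) := by
  refine ⟨fun β hβ => hβ.1, fun α hα β hβ γ hγ => ⟨?_, ?_⟩⟩
  · have h1 := hα.1
    have h2 := hβ.1
    unfold SLC.Pos at h1 h2 ⊢
    rw [hγ, ht_add]
    omega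
  · have h1 := hα.2
    have h2 := hβ.2
    have h3 := C.W_add w⁻¹ (inv_mem hw) α β γ hγ
    unfold SLC.Pos at h1 h2 ⊢
    rw [h3, ht_add]
    omega

theorem Nw_r (w : Equiv.Perm C.Root) (hr : D.rE * w * D.rE⁻¹ = w) :
    ∀ β ∈ Nw C w, D.r β ∈ Nw C w := by
  intro β hβ
  refine ⟨(D.r_pos β).2 hβ.1, ?_⟩
  rw [Z6_r_inv w hr β, D.r_pos]
  exact hβ.2

theorem Nw_cycle (w : Equiv.Perm C.Root) (hr : D.rE * w * D.rE⁻¹ = w) (β γ : C.Root)
    (h : D.rE.SameCycle β γ) : D.rE.SameCycle (w β) (w γ) ∧ D.rE.SameCycle (w⁻¹ β) (w⁻¹ γ) := by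
  obtain ⟨i, hi⟩ := h
  have h1 := ((Z6_comm w hr).zpow_left i).eq
  have h2 := ((Z6_comm w hr).inv_right.zpow_left i).eq
  constructor
  · refine ⟨i, ?_⟩
    have h3 := congrArg (fun f : Equiv.Perm C.Root => f β) h1
    simp only [Equiv.Perm.mul_apply] at h3
    rw [h3, hi]
  · refine ⟨i, ?_⟩
    have h3 := congrArg (fun f : Equiv.Perm C.Root => f β) h2
    simp only [Equiv.Perm.mul_apply] at h3
    rw [h3, hi]

section
variable (hN : D.NA) {k : Type*} [Field k] [Infinite k]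

theorem GF_bruhat (g : GF D k) : ∃ w ∈ C.W, D.rE * w * D.rE⁻¹ = w ∧
    ∃ u ∈ FR hN k (Nw C w), ∃ ν ∈ FN D k, (C.adS k).Acts (ν : GL C.Idx k) w ∧
      ∃ b : GF D k, C.Fil 0 ((b : GL C.Idx k) : Matrix C.Idx C.Idx k) ∧ g = u * ν * b := by
  obtain ⟨hfix, hgG⟩ := mem_GF_fix hN (g : GL C.Idx k) g.2
  have hsig : IsSig D (RingEquiv.refl k) (C.adS k) (D.sgl (RingEquiv.refl k)) := isSig_adS D _
  have hUG : ∀ x, x ∈ (C.adS k).U 1 → x ∈ C.Gad k := by
    intro x hx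
    rw [← C.gen_adS]
    exact (C.adS k).U_le_gen 1 hx
  have hNG : ∀ x, x ∈ (C.adS k).N → x ∈ C.Gad k := by
    intro x hx
    rw [← C.gen_adS]
    exact (C.adS k).N_le_gen hx
  obtain ⟨u₀, hu₀, ν₀, hν₀, v₀, hv₀, hguv⟩ :=
    (C.adS k).bruhat (g : GL C.Idx k) (by rw [C.gen_adS]; exact hgG)
  obtain ⟨w, hw, hact, -⟩ := (C.adS k).N_acts ν₀ hν₀
  obtain ⟨t, ht, b₀, hb₀, hlp⟩ := (C.adS k).exists_lp_inv ν₀ w hact u₀ hu₀
  set u : GL C.Idx k := (C.adS k).lp C.posList t with hu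
  have huU : u ∈ (C.adS k).U 1 := by
    refine Subgroup.list_prod_mem _ ?_
    intro y hy
    obtain ⟨β, hβ, rfl⟩ := List.mem_map.1 hy
    refine Subgroup.subset_closure ⟨β, t β, ?_, rfl⟩
    have := (C.mem_posList β).1 hβ
    unfold SLC.Pos at this
    omega
  set b₁ : GL C.Idx k := b₀ * v₀ with hb₁
  have hb₁U : b₁ ∈ (C.adS k).U 1 := mul_mem hb₀ hv₀
  have hg1 : (g : GL C.Idx k) = u * ν₀ * b₁ := by
    rw [hguv, hlp, hb₁, mul_assoc _ b₀ v₀]
  have hsb₁ : D.sgl (RingEquiv.refl k) b₁ ∈ (C.adS k).U 1 := hsig.map_U 1 b₁ hb₁U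
  -- the Weyl group element commutes with the diagram automorphism
  have hr : D.rE * w * D.rE⁻¹ = w := by
    refine bruhat_unique (D.sgl (RingEquiv.refl k) u) u (D.sgl (RingEquiv.refl k) ν₀) ν₀
      (b₁ * (D.sgl (RingEquiv.refl k) b₁)⁻¹) _ _
      (hsig.map_U 1 u huU) huU (hsig.map_N ν₀ hν₀) hν₀ (hsig.acts ν₀ w hact) hact ?_ ?_ ?_
    · exact mul_mem (hUG _ hb₁U) (inv_mem (hUG _ hsb₁))
    · exact Z6_mul _ _ (C.Fil_U_zero b₁ hb₁U) (C.Fil_U_zero _ (inv_mem hsb₁))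
    · have h1 : D.sgl (RingEquiv.refl k) (u * ν₀ * b₁) = u * ν₀ * b₁ := by
        rw [← hg1]
        exact hfix
      rw [map_mul, map_mul] at h1
      rw [← mul_assoc, ← h1]
      group
  -- replace the monomial element by a fixed one
  obtain ⟨ν, -, hνN', hνact⟩ := exists_FN hN (k := k) w hw hr
  have hνN : (ν : GL C.Idx k) ∈ (C.adS k).N := Subgroup.mem_subgroupOf.1 hνN'
  have hτT : (ν : GL C.Idx k)⁻¹ * ν₀ ∈ (C.adS k).T := by
    refine C.N_one _ ?_ (mul_mem (inv_mem hνN) hν₀)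
    have h1 := C.Acts_mul (C.adS k) (ν : GL C.Idx k)⁻¹ ν₀ w⁻¹ w
      (C.Acts_inv (C.adS k) (ν : GL C.Idx k) w hνact) hact
    rw [inv_mul_cancel] at h1
    exact h1
  set b : GL C.Idx k := (ν : GL C.Idx k)⁻¹ * ν₀ * b₁ with hb
  have hbG : b ∈ C.Gad k := mul_mem (mul_mem (inv_mem (hNG _ hνN)) (hNG _ hν₀)) (hUG _ hb₁U)
  have hb0 : C.Fil 0 (b : Matrix C.Idx C.Idx k) :=
    Z6_mul _ _ (C.Fil_T _ hτT) (C.Fil_U_zero b₁ hb₁U)
  have hg2 : (g : GL C.Idx k) = u * (ν : GL C.Idx k) * b := by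
    rw [hg1, hb]
    group
  have hνfix : D.sgl (RingEquiv.refl k) (ν : GL C.Idx k) = (ν : GL C.Idx k) :=
    (mem_GF_fix hN (ν : GL C.Idx k) ν.2).1
  -- the element `z`
  have hz : (ν : GL C.Idx k)⁻¹ * (u⁻¹ * D.sgl (RingEquiv.refl k) u) * (ν : GL C.Idx k) =
      b * (D.sgl (RingEquiv.refl k) b)⁻¹ := by
    have h1 : D.sgl (RingEquiv.refl k) (u * (ν : GL C.Idx k) * b) = u * (ν : GL C.Idx k) * b := by
      rw [← hg2]
      exact hfix
    rw [map_mul, map_mul, hνfix] at h1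
    have h2 : D.sgl (RingEquiv.refl k) u =
        u * (ν : GL C.Idx k) * b * (D.sgl (RingEquiv.refl k) b)⁻¹ * (ν : GL C.Idx k)⁻¹ := by
      rw [← h1]
      group
    rw [h2]
    group
  have hσb0 : C.Fil 0 ((D.sgl (RingEquiv.refl k) b : GL C.Idx k) : Matrix C.Idx C.Idx k) :=
    (sgl_Fil D (RingEquiv.refl k) 0 b).2 hb0
  have hz0 : C.Fil 0 (((ν : GL C.Idx k)⁻¹ * (u⁻¹ * D.sgl (RingEquiv.refl k) u) *
      (ν : GL C.Idx k) : GL C.Idx k) : Matrix C.Idx C.Idx k) := by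
    rw [hz]
    exact Z6_mul _ _ hb0 (C.upper_inv _ (sgl_Gad D (RingEquiv.refl k) b hbG) hσb0)
  have huσ : u⁻¹ * D.sgl (RingEquiv.refl k) u ∈ (C.adS k).U 1 :=
    mul_mem (inv_mem huU) (hsig.map_U 1 u huU)
  have hzU : (ν : GL C.Idx k)⁻¹ * (u⁻¹ * D.sgl (RingEquiv.refl k) u) * (ν : GL C.Idx k) ∈
      (C.adS k).U 1 := by
    refine C.mem_U_of_unipotent _ ?_ hz0 ?_
    · exact mul_mem (mul_mem (inv_mem (hNG _ hνN)) (hUG _ huσ)) (hNG _ hνN)
    · exact Z6_conj_nil _ _ (Z6_nil _ (C.Fil_U 1 le_rfl _ huσ))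
  have hu1 : u ∈ Z6_V (C.adS k) (ν : GL C.Idx k) := by
    refine Subgroup.list_prod_mem _ ?_
    intro y hy
    obtain ⟨β, hβ, rfl⟩ := List.mem_map.1 hy
    by_cases hp : C.Pos (w⁻¹ β)
    · rw [ht β hp, (C.adS k).x_zero]
      exact one_mem _
    · exact Z6_root (C.adS k) (ν : GL C.Idx k) w hνact β _ hp
  have hu2 : D.sgl (RingEquiv.refl k) u ∈ Z6_V (C.adS k) (ν : GL C.Idx k) := by
    rw [hu]
    unfold StSys.lp
    rw [map_list_prod, List.map_map]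
    refine Subgroup.list_prod_mem _ ?_
    intro y hy
    obtain ⟨β, hβ, rfl⟩ := List.mem_map.1 hy
    rw [Function.comp_apply, hsig β (t β)]
    by_cases hp : C.Pos (w⁻¹ β)
    · rw [ht β hp, map_zero, mul_zero, (C.adS k).x_zero]
      exact one_mem _
    · refine Z6_root (C.adS k) (ν : GL C.Idx k) w hνact _ _ ?_
      rw [Z6_r_inv w hr β, D.r_pos]
      exact hp
  have hzV : u⁻¹ * D.sgl (RingEquiv.refl k) u ∈ Z6_V (C.adS k) (ν : GL C.Idx k) :=
    mul_mem (inv_mem hu1) hu2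
  rw [Z6_mem] at hzV
  have hz1 := U_inf_Um _ hzU hzV
  have hufix : D.sgl (RingEquiv.refl k) u = u := by
    have h1 : u⁻¹ * D.sgl (RingEquiv.refl k) u = 1 := by
      have h2 : (ν : GL C.Idx k) * ((ν : GL C.Idx k)⁻¹ *
          (u⁻¹ * D.sgl (RingEquiv.refl k) u) * (ν : GL C.Idx k)) * (ν : GL C.Idx k)⁻¹ =
          (ν : GL C.Idx k) * 1 * (ν : GL C.Idx k)⁻¹ := by rw [hz1]
      rw [mul_one, mul_inv_cancel] at h2
      rw [← h2]
      group
    exact (inv_mul_eq_one.1 h1).symm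
  have huUR : u ∈ UR C k (Nw C w) := by
    refine Subgroup.list_prod_mem _ ?_
    intro y hy
    obtain ⟨β, hβ, rfl⟩ := List.mem_map.1 hy
    by_cases hp : C.Pos (w⁻¹ β)
    · rw [ht β hp, (C.adS k).x_zero]
      exact one_mem _
    · exact Subgroup.subset_closure ⟨β, ⟨(C.mem_posList β).1 hβ, hp⟩, t β, rfl⟩
  have huGF : u ∈ GF D k := Subgroup.mem_sup_left ⟨huU, hufix⟩
  refine ⟨w, hw, hr, ⟨u, huGF⟩, ?_, ν, hνN', hνact, ((⟨u, huGF⟩ : GF D k) * ν)⁻¹ * g, ?_, ?_⟩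
  · exact (UR_fix hN (Nw_closed w hw) (Nw_r w hr) ⟨u, huGF⟩).1 huUR
  · have h1 : (((((⟨u, huGF⟩ : GF D k) * ν)⁻¹ * g : GF D k)) : GL C.Idx k) = b := by
      change (u * (ν : GL C.Idx k))⁻¹ * (g : GL C.Idx k) = b
      rw [hg2]
      group
    rw [h1]
    exact hb0
  · group

theorem GF_bruhat_unique (w w' : Equiv.Perm C.Root) (hw : w ∈ C.W) (hw' : w' ∈ C.W)
    (hr : D.rE * w * D.rE⁻¹ = w) (hr' : D.rE * w' * D.rE⁻¹ = w') (u u' ν ν' b b' : GF D k)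
    (hu : u ∈ FR hN k (Nw C w)) (hu' : u' ∈ FR hN k (Nw C w')) (hν : ν ∈ FN D k)
    (hν' : ν' ∈ FN D k) (ha : (C.adS k).Acts (ν : GL C.Idx k) w)
    (ha' : (C.adS k).Acts (ν' : GL C.Idx k) w')
    (hb : C.Fil 0 ((b : GL C.Idx k) : Matrix C.Idx C.Idx k))
    (hb' : C.Fil 0 ((b' : GL C.Idx k) : Matrix C.Idx C.Idx k))
    (h : u * ν * b = u' * ν' * b') : w = w' ∧ u = u' := by
  have hU : ∀ w₁ : Equiv.Perm C.Root, w₁ ∈ C.W → D.rE * w₁ * D.rE⁻¹ = w₁ →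
      ∀ x : GF D k, x ∈ FR hN k (Nw C w₁) → (x : GL C.Idx k) ∈ (C.adS k).U 1 :=
    fun w₁ h1 h2 x hx => UR_le_U (Nw_closed w₁ h1).1
      ((UR_fix hN (Nw_closed w₁ h1) (Nw_r w₁ h2) x).2 hx)
  have hG : ∀ x : GF D k, (x : GL C.Idx k) ∈ C.Gad k :=
    fun x => (mem_GF_fix hN (x : GL C.Idx k) x.2).2
  have hFb : C.Fil 0 (((b' * b⁻¹ : GF D k) : GL C.Idx k) : Matrix C.Idx C.Idx k) :=
    Z6_mul (b' : GL C.Idx k) (b : GL C.Idx k)⁻¹ hb' (C.upper_inv _ (hG b) hb)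
  have hww : w = w' := by
    refine bruhat_unique (u : GL C.Idx k) (u' : GL C.Idx k) (ν : GL C.Idx k) (ν' : GL C.Idx k)
      ((b' * b⁻¹ : GF D k) : GL C.Idx k) w w' (hU w hw hr u hu) (hU w' hw' hr' u' hu')
      (Subgroup.mem_subgroupOf.1 hν) (Subgroup.mem_subgroupOf.1 hν') ha ha' (hG _) hFb ?_
    have h1 : u * ν = u' * ν' * (b' * b⁻¹) := by
      rw [← mul_assoc, ← h]
      group
    exact congrArg (fun x : GF D k => (x : GL C.Idx k)) h1
  subst hww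
  refine ⟨rfl, ?_⟩
  have hT : ν'⁻¹ * ν ∈ FT D k := FN_T hN ν' ν hν' hν w ha' ha
  have hz : ν⁻¹ * (u⁻¹ * u') * ν = b * b'⁻¹ * (ν'⁻¹ * ν) := by
    have h1 : u' = u * ν * b * b'⁻¹ * ν'⁻¹ := by
      rw [h]
      group
    rw [h1]
    group
  have hzF : C.Fil 0 (((ν⁻¹ * (u⁻¹ * u') * ν : GF D k) : GL C.Idx k) :
      Matrix C.Idx C.Idx k) := by
    rw [hz]
    exact Z6_mul ((b : GL C.Idx k) * (b' : GL C.Idx k)⁻¹) _
      (Z6_mul (b : GL C.Idx k) (b' : GL C.Idx k)⁻¹ hb (C.upper_inv _ (hG b') hb'))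
      (C.Fil_T _ (Subgroup.mem_subgroupOf.1 hT))
  have hle : FR hN k (Nw C w) ≤ (FUm D k).comap (MulAut.conj ν⁻¹).toMonoidHom := by
    refine (Subgroup.closure_le _).2 ?_
    rintro x ⟨β, hβ, t, rfl⟩
    obtain ⟨c, -, hc⟩ := yg_acts hN ν⁻¹ w⁻¹ (C.Acts_inv (C.adS k) (ν : GL C.Idx k) w ha)
      (Z6_comm_inv w hr)
    change ν⁻¹ * yg hN β t * ν⁻¹⁻¹ ∈ FUm D k
    rw [hc β t]
    exact yg_npos hN (w⁻¹ β) hβ.2 _
  have hzU : ν⁻¹ * (u⁻¹ * u') * ν ∈ FUm D k := by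
    have h1 : u⁻¹ * u' ∈ (FUm D k).comap (MulAut.conj ν⁻¹).toMonoidHom :=
      hle (mul_mem (inv_mem hu) hu')
    have h2 : ν⁻¹ * (u⁻¹ * u') * ν⁻¹⁻¹ ∈ FUm D k := h1
    rw [inv_inv] at h2
    exact h2
  have hz1 := B_FUm hN _ hzF hzU
  have h3 : u⁻¹ * u' = 1 := by
    have h2 : ν * (ν⁻¹ * (u⁻¹ * u') * ν) * ν⁻¹ = ν * 1 * ν⁻¹ := by rw [hz1]
    rw [mul_one, mul_inv_cancel] at h2
    rw [← h2]
    group
  exact inv_mul_eq_one.1 h3

omit [Infinite k] in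
private theorem Z6_acts_T (ν τ : GF D k) (w : Equiv.Perm C.Root)
    (ha : (C.adS k).Acts (ν : GL C.Idx k) w) (hτ : τ ∈ FT D k) :
    (C.adS k).Acts ((ν * τ : GF D k) : GL C.Idx k) w := by
  obtain ⟨c, hc, -, h1⟩ := (C.adS k).T_acts' (τ : GL C.Idx k) (Subgroup.mem_subgroupOf.1 hτ)
  have h2 : (C.adS k).Acts (τ : GL C.Idx k) 1 := ⟨c, hc, h1⟩
  have h3 := C.Acts_mul (C.adS k) (ν : GL C.Idx k) (τ : GL C.Idx k) w 1 ha h2
  rw [mul_one] at h3
  exact h3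

omit [Infinite k] in
private theorem Z6_FT_le_FN : FT D k ≤ FN D k := by
  intro x hx
  exact Subgroup.mem_subgroupOf.2 ((C.adS k).T_le_N (Subgroup.mem_subgroupOf.1 hx))

end

variable (hS : Swap D t0) {k : Type*} [Field k] [Infinite k] {θ : k ≃+* k}
  {σ : GF D k →* GF D k} (h : SRs D t0 θ σ)

include h

theorem sig_bruhat {τ : C.Root → C.Root} {e : C.Root → ℤ} (ht : SRt hS.na t0 θ σ τ e)
    (g b₀ : GF D k) (hg : σ g = g * b₀)
    (hb₀ : C.Fil 0 ((b₀ : GL C.Idx k) : Matrix C.Idx C.Idx k)) :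
    ∃ w ∈ C.W, D.rE * w * D.rE⁻¹ = w ∧ (∀ β, D.rE.SameCycle (w (τ β)) (τ (w β))) ∧
    ∃ u ∈ FR hS.na k (Nw C w), σ u = u ∧
      ∃ ν ∈ FN D k, (C.adS k).Acts (ν : GL C.Idx k) w ∧ ν⁻¹ * σ ν ∈ FT D k ∧
      ∃ b : GF D k, C.Fil 0 ((b : GL C.Idx k) : Matrix C.Idx C.Idx k) ∧ g = u * ν * b := by
  obtain ⟨w, hw, hr, u, hu, ν, hν, ha, b, hb, hgu⟩ := GF_bruhat hS.na g
  obtain ⟨hσν, hrel⟩ := sig_FN hS h ht ν hν
  obtain ⟨w', hw', hr', ha'⟩ := FN_acts hS.na (σ ν) hσν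
  have hrel' := hrel w w' ha ha'
  have hσu : σ u ∈ FR hS.na k (Nw C w') := by
    refine sig_FR hS h ht (Nw C w) (Nw C w') ?_ u hu
    intro β hβ
    refine ⟨τ β, ⟨(tau_pos hS ht.tau β).2 hβ.1, ?_⟩, Equiv.Perm.SameCycle.refl _ _⟩
    have h1 := hrel' (w⁻¹ β)
    have h2 : w (w⁻¹ β) = β := w.apply_symm_apply β
    rw [h2] at h1
    have h3 := (Nw_cycle w' hr' _ _ h1).2
    have h4 : w'⁻¹ (w' (τ (w⁻¹ β))) = τ (w⁻¹ β) := w'.symm_apply_apply _
    rw [h4] at h3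
    rw [← pos_cycle _ _ h3, tau_pos hS ht.tau]
    exact hβ.2
  have hσb : C.Fil 0 ((σ b : GL C.Idx k) : Matrix C.Idx C.Idx k) := (sig_Fil hS h b).2 hb
  have hbb : C.Fil 0 (((b * b₀ : GF D k) : GL C.Idx k) : Matrix C.Idx C.Idx k) :=
    Z6_mul (b : GL C.Idx k) (b₀ : GL C.Idx k) hb hb₀
  have heq : σ u * σ ν * σ b = u * ν * (b * b₀) := by
    rw [← map_mul, ← map_mul, ← hgu, hg, hgu]
    group
  obtain ⟨hww, huu⟩ := GF_bruhat_unique hS.na w' w hw' hw hr' hr (σ u) u (σ ν) ν (σ b) (b * b₀)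
    hσu hu hσν hν ha' ha hσb hbb heq
  subst hww
  exact ⟨w', hw', hr', hrel', u, hu, huu, ν, hν, ha,
    FN_T hS.na ν (σ ν) hν hσν w' ha ha', b, hb, hgu⟩

theorem sig_bruhat_fix {τ : C.Root → C.Root} {e : C.Root → ℤ} (ht : SRt hS.na t0 θ σ τ e)
    (g : GF D k) (hg : σ g = g) :
    ∃ w ∈ C.W, D.rE * w * D.rE⁻¹ = w ∧ (∀ β, D.rE.SameCycle (w (τ β)) (τ (w β))) ∧
    ∃ u ∈ FR hS.na k (Nw C w), σ u = u ∧
      ∃ ν ∈ FN D k, (C.adS k).Acts (ν : GL C.Idx k) w ∧ σ ν = ν ∧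
      ∃ v ∈ FU D k, σ v = v ∧ g = u * ν * v := by
  have h1 : C.Fil 0 (((1 : GF D k) : GL C.Idx k) : Matrix C.Idx C.Idx k) := by
    change C.Fil 0 (((1 : GL C.Idx k)) : Matrix C.Idx C.Idx k)
    rw [Units.val_one]
    exact C.Fil_one
  obtain ⟨w, hw, hr, hrel, u, hu, huu, ν, hν, ha, hT, b, hb, hgu⟩ :=
    sig_bruhat hS h ht g 1 (by rw [hg, mul_one]) h1
  obtain ⟨⟨t, htT, v, hv, hbt⟩, -⟩ := B_split hS.na b hb
  have hνt : ν * t ∈ FN D k := mul_mem hν (Z6_FT_le_FN htT)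
  have hat : (C.adS k).Acts ((ν * t : GF D k) : GL C.Idx k) w := Z6_acts_T ν t w ha htT
  have hσt : σ t ∈ FT D k := (sig_FT hS h t).2 htT
  have hTσ : (ν * t)⁻¹ * σ (ν * t) ∈ FT D k := by
    have h2 : (ν * t)⁻¹ * σ (ν * t) = t⁻¹ * (ν⁻¹ * σ ν) * σ t := by
      rw [map_mul]
      group
    rw [h2]
    exact mul_mem (mul_mem (inv_mem htT) hT) hσt
  have hσv : σ v ∈ FU D k := (sig_FU hS h v).2 hv
  have heq : (ν * t)⁻¹ * σ (ν * t) = v * (σ v)⁻¹ := by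
    have h2 : σ g = g := hg
    rw [hgu, hbt, map_mul, map_mul, map_mul, huu] at h2
    have h3 : σ ν = u⁻¹ * (u * ν * (t * v)) * (σ v)⁻¹ * (σ t)⁻¹ := by
      rw [← h2]
      group
    rw [map_mul, h3]
    group
  have hone : (ν * t)⁻¹ * σ (ν * t) = 1 := by
    refine FT_FU hS.na _ hTσ ?_
    rw [heq]
    exact mul_mem hv (inv_mem hσv)
  refine ⟨w, hw, hr, hrel, u, hu, huu, ν * t, hνt, hat, (inv_mul_eq_one.1 hone).symm, v, hv, ?_, ?_⟩
  · rw [hone] at heq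
    exact (mul_inv_eq_one.1 heq.symm).symm
  · rw [hgu, hbt]
    group

end Pool.Agent.H86.UM
end

section
/- module Pool.Agent.H86.UM.Z7 -/
/-!
# Project UM, Suzuki-Ree groups, module Z7: the elements `ν_J`

Sets of roots: `RJ i`, `RcJ i` are closed, stable under `D.r`, disjoint, `RJ i ∪ RcJ i` = positive roots, and
`RcJ i` is an ideal: `α` positive, `β ∈ RcJ i`, `γ = α + β`: `γ ∈ RcJ i` (a coordinate `> 0` outside `JJ i`; positive
roots have nonnegative coordinates, `pos_iff`); also for `α = -α'`, `α' ∈ RJ i`.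

`w_inv`: `w` commutes with `rE` and with `τ` up to cycles; if `w α_i` is negative then so are `w α_(ρ i)`,
`w α_(t0 i)` (`tau_simple`, `tau_pos`, `Nw_cycle`), so `w α_j` for all `j ∈ JJ i`, so `w β` for `β ∈ RJ i`
(`W_lin`, `pos_iff`: `w β = ∑ β_j w α_j`, all nonpositive).

`exists_nuJ`: let `y ∈ XmJ i`, `y ≠ 1`. `sig_bruhat_fix`: `y = u ν v`, `ν` acts by `w`.
(1) `w ≠ 1`: otherwise `ν ∈ FT` (`FN_T` with `1`), `y` is in the Borel subgroup and in `FUm`, so `1` (`B_FUm`).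
(2) `y` normalises `UR (RcJ i)`: `y` is a product of ambient root elements `x_(-β)(t)`, `β ∈ RJ i` (`UR_fix` is
for positive roots; here only: `yg (-β) t` is a product of `x_(-r^l β)`), and for `γ ∈ RcJ i` the commutator
of `x_(-β)` and `x_γ` is trivial or a root element for `γ - β ∈ RcJ i` (`ip = -2` is impossible). `u, v ∈ FU`
normalise it (`UR_normal`). So `ν` does: `x_(w γ)(c) ∈ UR (RcJ i)`, `c ≠ 0`, so `w γ ∈ RcJ i` for `γ ∈ RcJ i`
(`UR_x`). So (finite) `w` permutes `RcJ i`, and `-RcJ i`, hence `RJ i ∪ -RJ i`.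
(3) As `w ≠ 1` there is `j` with `w α_j` negative (`eq_one_of_pos`), `j ∈ JJ i` by (2), so `w β` is negative for all
`β ∈ RJ j = RJ i` (`w_inv`), hence `-(w β) ∈ RJ i`.
(4) `Nw w = RJ i` (the same statements hold for `w⁻¹`), so `u ∈ XJ i`.
(5) `v ∈ XJ i`: `FR_split` (`R = {Pos}`, `A = RJ i`, `B = RcJ i`): `v = a b`. `ν⁻¹, u⁻¹, y, a⁻¹` preserve
the grading of the index set by `d(β) = ∑_{j ∉ JJ i} β_j` (`d = 0` on the Cartan part): a matrix `M` is
`d`-homogeneous if `M x y = 0` unless `d x = d y`; `x_β(t)` with `± β ∈ RJ i` is homogeneous, and so is `ν` (`N_mono`: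
`ν` maps the root space of `γ` to that of `w γ` and the Cartan part to itself; and `d (w γ) = d γ` for all `γ`:
`d (w γ) - d γ` is additive in `γ` (`W_lin`), zero for `γ ∈ RJ i`; for `j ∉ JJ i`: `w α_j ∈ RcJ i`, so
`d (w α_j) ≥ 1 = d α_j`; so `d (w γ) ≥ d γ` for all positive `γ`; and the sum over `γ ∈ RcJ i` of both sides is the
same as `w` permutes `RcJ i`, so equality holds there). Products and inverses of homogeneous matrices are homogeneous. So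
`b = a⁻¹ ν⁻¹ u⁻¹ y` is homogeneous, and `b - 1` strictly increases `d` (product of `x_γ(t)`, `γ ∈ RcJ i`,
`d γ ≥ 1`); so `b = 1`.
`XmJ_ne`: there is `y ≠ 1`: orthogonal type: `XmJ_orth` with `t = 1`. Other types: hypothesis `hne` here.
-/

set_option autoImplicit false
open Matrix

namespace Pool.Agent.H86.UM

open Pool.Agent.H75.UL

variable {n : ℕ} {C : SLC n} {D : Dg C} {t0 : Fin n → Fin n}

private theorem Z7_cyc (β : C.Root) : D.rE.SameCycle β (D.r β) := ⟨1, by simp⟩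

private theorem Z7_supp_r (i : Fin n) (β : C.Root) :
    suppJ D t0 i (D.r β) ↔ suppJ D t0 i β :=
  (suppJ_cycle i β (D.r β) (Z7_cyc β)).symm

theorem RJ_closed (i : Fin n) : ClR C (RJ D t0 i) ∧ ClR C (RcJ D t0 i) ∧
    (∀ β ∈ RJ D t0 i, D.r β ∈ RJ D t0 i) ∧ (∀ β ∈ RcJ D t0 i, D.r β ∈ RcJ D t0 i) ∧
    {β : C.Root | C.Pos β} = RJ D t0 i ∪ RcJ D t0 i ∧ (∀ β ∈ RJ D t0 i, β ∉ RcJ D t0 i) ∧
    (∀ α : C.Root, C.Pos α → ∀ β ∈ RcJ D t0 i, ∀ γ : C.Root, γ.1 = α.1 + β.1 →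
      γ ∈ RcJ D t0 i) ∧
    ∀ α ∈ RJ D t0 i, ∀ β ∈ RcJ D t0 i, ∀ γ : C.Root, γ.1 = -α.1 + β.1 →
      γ ∈ RcJ D t0 i := by
  have hpos : ∀ α β γ : C.Root, C.Pos α → C.Pos β → γ.1 = α.1 + β.1 → C.Pos γ := by
    intro α β γ h1 h2 h
    unfold SLC.Pos at *
    rw [h, ht_add]
    omega
  have hns : ∀ β : C.Root, ¬ suppJ D t0 i β → ∃ j, β.1 j ≠ 0 ∧ ¬ JJ D t0 i j := by
    intro β h
    unfold suppJ at h
    push Not at h
    exact h
  have hid : ∀ α : C.Root, C.Pos α → ∀ β ∈ RcJ D t0 i, ∀ γ : C.Root, γ.1 = α.1 + β.1 →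
      γ ∈ RcJ D t0 i := by
    intro α h1 β hβ γ h
    refine ⟨hpos α β γ h1 hβ.1 h, fun hs => ?_⟩
    obtain ⟨j, hj, hJ⟩ := hns β hβ.2
    have h2 := (C.pos_iff α).mp h1 j
    have h3 := (C.pos_iff β).mp hβ.1 j
    apply hJ
    apply hs
    rw [h, Pi.add_apply]
    omega
  refine ⟨⟨fun β h => h.1, ?_⟩, ⟨fun β h => h.1, ?_⟩, ?_, ?_, ?_, ?_, hid, ?_⟩
  · rintro α ⟨h1, h2⟩ β ⟨h3, h4⟩ γ h
    refine ⟨hpos α β γ h1 h3 h, fun j hj => ?_⟩
    rw [h, Pi.add_apply] at hj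
    by_cases h5 : α.1 j = 0
    · exact h4 j (by omega)
    · exact h2 j h5
  · exact fun α h1 => hid α h1.1
  · rintro β ⟨h1, h2⟩
    exact ⟨(D.r_pos β).mpr h1, (Z7_supp_r i β).mpr h2⟩
  · rintro β ⟨h1, h2⟩
    exact ⟨(D.r_pos β).mpr h1, fun h3 => h2 ((Z7_supp_r i β).mp h3)⟩
  · ext β
    simp only [Set.mem_ofPred_eq, Set.mem_union, RJ, RcJ]
    tauto
  · exact fun β h1 h2 => h2.2 h1.2
  · intro α hα β hβ γ h
    obtain ⟨j, hj, hJ⟩ := hns β hβ.2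
    have h2 : α.1 j = 0 := by
      by_contra h3
      exact hJ (hα.2 j h3)
    have h3 := (C.pos_iff β).mp hβ.1 j
    have h4 : γ.1 j = β.1 j := by
      rw [h, Pi.add_apply, Pi.neg_apply, h2]
      omega
    refine ⟨?_, fun hs => hJ (hs j (by omega))⟩
    rcases C.pos_or_neg γ with h5 | h5
    · exact (C.pos_iff γ).mpr h5
    · exfalso
      have := h5 j
      omega

private theorem Z7_coord (w : Equiv.Perm C.Root) (hw : w ∈ C.W) (β : C.Root) (l : Fin n) :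
    (w β).1 l = ∑ j, β.1 j * (w (C.simple j)).1 l := by
  obtain ⟨f, hf, -⟩ := C.W_lin w hw
  have e : β.1 = ∑ j, β.1 j • (C.simple j).1 := by
    funext l
    simp [Finset.sum_apply, Pi.single_apply]
  rw [hf]
  conv_lhs => rw [e]
  rw [map_sum, Finset.sum_apply]
  refine Finset.sum_congr rfl fun j _ => ?_
  rw [map_zsmul, ← hf]
  simp

private theorem Z7_simple_cyc (a b : Fin n) (h : D.ρ.SameCycle a b) :
    D.rE.SameCycle (C.simple a) (C.simple b) := by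
  obtain ⟨l, _, hl⟩ := h.exists_pow_eq'
  refine ⟨(l : ℤ), ?_⟩
  rw [zpow_natCast, ← Equiv.Perm.iterate_eq_pow]
  have h1 : (⇑D.rE)^[l] (C.simple a) = D.r^[l] (C.simple a) := rfl
  rw [h1, D.r_iter_simple, hl]

private theorem Z7_pos_JJ (hS : Swap D t0) {τ : C.Root → C.Root} (hτ : IsTau D t0 τ)
    (w : Equiv.Perm C.Root) (hr : D.rE * w * D.rE⁻¹ = w)
    (hc : ∀ β, D.rE.SameCycle (w (τ β)) (τ (w β))) (i j : Fin n) (hj : JJ D t0 i j) :
    C.Pos (w (C.simple j)) ↔ C.Pos (w (C.simple i)) := by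
  rcases hj with hj | hj
  · exact (pos_cycle _ _ (Nw_cycle w hr _ _ (Z7_simple_cyc i j hj)).1).symm
  · have h1 := pos_cycle _ _ (Nw_cycle w hr _ _ (Z7_simple_cyc (t0 i) j hj)).1
    have h2 := pos_cycle _ _ (Nw_cycle w hr _ _ (tau_simple hS hτ i)).1
    have h3 := pos_cycle _ _ (hc (C.simple i))
    have h4 := tau_pos hS hτ (w (C.simple i))
    rw [← h1, ← h2, h3, h4]

theorem w_inv (hS : Swap D t0) {τ : C.Root → C.Root} (hτ : IsTau D t0 τ)
    (w : Equiv.Perm C.Root) (hw : w ∈ C.W) (hr : D.rE * w * D.rE⁻¹ = w)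
    (hc : ∀ β, D.rE.SameCycle (w (τ β)) (τ (w β))) (i : Fin n)
    (hi : ¬ C.Pos (w (C.simple i))) : ∀ β ∈ RJ D t0 i, ¬ C.Pos (w β) := by
  intro β hβ hp
  have h0 : ∀ l, (w β).1 l ≤ 0 := by
    intro l
    rw [Z7_coord w hw]
    apply Finset.sum_nonpos
    intro j _
    by_cases h : β.1 j = 0
    · rw [h, zero_mul]
    · have h1 := Z7_pos_JJ hS hτ w hr hc i j (hβ.2 j h)
      have h2 : ¬ C.Pos (w (C.simple j)) := fun h3 => hi (h1.mp h3)
      have h3 := (C.pos_iff _).mp ((C.not_pos_iff _).mp h2) l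
      have h4 := (C.pos_iff β).mp hβ.1 j
      rw [SLC.Root.neg_val, Pi.neg_apply] at h3
      exact mul_nonpos_of_nonneg_of_nonpos h4 (by omega)
  have h1 : ht (w β).1 ≤ 0 := Finset.sum_nonpos fun l _ => h0 l
  unfold SLC.Pos at hp
  omega

theorem w_inv' (hS : Swap D t0) {τ : C.Root → C.Root} (hτ : IsTau D t0 τ)
    (w : Equiv.Perm C.Root) (hw : w ∈ C.W) (hr : D.rE * w * D.rE⁻¹ = w)
    (hc : ∀ β, D.rE.SameCycle (w (τ β)) (τ (w β))) (i : Fin n)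
    (hi : C.Pos (w (C.simple i))) : ∀ β ∈ RJ D t0 i, C.Pos (w β) := by
  intro β hβ
  rw [C.pos_iff]
  intro l
  rw [Z7_coord w hw]
  apply Finset.sum_nonneg
  intro j _
  by_cases h : β.1 j = 0
  · rw [h, zero_mul]
  · have h1 := Z7_pos_JJ hS hτ w hr hc i j (hβ.2 j h)
    have h3 := (C.pos_iff _).mp (h1.mpr hi) l
    have h4 := (C.pos_iff β).mp hβ.1 j
    exact mul_nonneg h4 h3

/-- `w` acts like the longest element of the parabolic subgroup belonging to `JJ i` -/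
structure IswJ (D : Dg C) (t0 : Fin n → Fin n) (i : Fin n) (w : Equiv.Perm C.Root) : Prop where
  pos : ∀ β ∈ RJ D t0 i, -(w β) ∈ RJ D t0 i
  out : ∀ β ∈ RcJ D t0 i, w β ∈ RcJ D t0 i

private theorem Z7_surj (R : Set C.Root) (f : C.Root → C.Root) (hf : Function.Injective f)
    (hR : ∀ β ∈ R, f β ∈ R) : ∀ β ∈ R, ∃ γ ∈ R, f γ = β := by
  intro β hβ
  have h1 : Function.Injective (fun x : R => (⟨f x.1, hR x.1 x.2⟩ : R)) := by
    intro a b h
    exact Subtype.ext (hf (congrArg Subtype.val h))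
  obtain ⟨⟨γ, hγ⟩, h2⟩ := (Finite.injective_iff_surjective.1 h1) ⟨β, hβ⟩
  exact ⟨γ, hγ, congrArg Subtype.val h2⟩

private theorem Z7_neg_inj : Function.Injective (fun β : C.Root => -β) := by
  intro a b h
  have h1 : -(-a) = -(-b) := congrArg (fun x : C.Root => -x) h
  rwa [C.neg_neg_root, C.neg_neg_root] at h1

theorem IswJ.inv {i : Fin n} {w : Equiv.Perm C.Root} (hw : w ∈ C.W) (h : IswJ D t0 i w) :
    IswJ D t0 i w⁻¹ := by
  constructor
  · intro β hβ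
    obtain ⟨γ, hγ, h1⟩ := Z7_surj (RJ D t0 i) (fun β => -(w β))
      (fun a b hab => w.injective (Z7_neg_inj hab)) h.pos β hβ
    have h2 : w⁻¹ β = -γ := by
      rw [← h1, C.W_neg w⁻¹ (Subgroup.inv_mem _ hw)]
      congr 1
      exact w.symm_apply_apply γ
    rw [h2, C.neg_neg_root]
    exact hγ
  · intro β hβ
    obtain ⟨γ, hγ, h1⟩ := Z7_surj (RcJ D t0 i) w w.injective h.out β hβ
    have h2 : w⁻¹ β = γ := by
      rw [← h1]
      exact w.symm_apply_apply γ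
    rw [h2]
    exact hγ

theorem IswJ.unique {i : Fin n} {w w' : Equiv.Perm C.Root} (hw : w ∈ C.W) (hw' : w' ∈ C.W)
    (h : IswJ D t0 i w) (h' : IswJ D t0 i w') : w = w' := by
  have h1 := h.inv hw
  have hwi := Subgroup.inv_mem _ hw
  have h2 : w⁻¹ * w' = 1 := by
    apply C.eq_one_of_pos _ (Subgroup.mul_mem _ hwi hw')
    intro j
    rw [Equiv.Perm.mul_apply]
    by_cases hj : suppJ D t0 i (C.simple j)
    · have h3 := h'.pos (C.simple j) ⟨C.simple_pos j, hj⟩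
      have h4 := h1.pos _ h3
      rw [C.W_neg _ hwi, C.neg_neg_root] at h4
      exact h4.1
    · have h3 := h'.out (C.simple j) ⟨C.simple_pos j, hj⟩
      exact (h1.out _ h3).1
  exact (inv_mul_eq_one.mp h2)

section
variable {k : Type*} [Field k]

private theorem Z7_iter_mem (R : Set C.Root) (hr : ∀ β ∈ R, D.r β ∈ R) (β : C.Root)
    (hβ : β ∈ R) (l : ℕ) : D.r^[l] β ∈ R := by
  induction l with
  | zero => exact hβ
  | succ l ih =>
    rw [Function.iterate_succ_apply']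
    exact hr _ ih

private theorem Z7_yg_UR (hN : D.NA) (R : Set C.Root) (hr : ∀ β ∈ R, D.r β ∈ R) (β : C.Root)
    (hβ : β ∈ R) (t : k) : ((yg hN β t : GF D k) : GL C.Idx k) ∈ UR C k R := by
  rw [yg_val]
  unfold yb
  apply Subgroup.list_prod_mem
  intro g hg
  obtain ⟨l, _, rfl⟩ := List.mem_map.mp hg
  have hs : IsSig D (RingEquiv.refl k) (C.adS k) (D.sgl (RingEquiv.refl k)) := isSig_adS D _
  rw [hs.iter l β t]
  exact Subgroup.subset_closure ⟨D.r^[l] β, Z7_iter_mem R hr β hβ l, _, rfl⟩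

private theorem Z7_FR_UR (hN : D.NA) (R : Set C.Root) (hr : ∀ β ∈ R, D.r β ∈ R) (x : GF D k)
    (hx : x ∈ FR hN k R) : (x : GL C.Idx k) ∈ UR C k R := by
  have h1 : FR hN k R ≤ (UR C k R).comap (Subgroup.subtype (GF D k)) := by
    unfold FR
    rw [Subgroup.closure_le]
    rintro g ⟨β, hβ, t, rfl⟩
    exact Z7_yg_UR hN R hr β hβ t
  exact h1 hx

private theorem Z7_norm (R B : Set C.Root) (hn : ∀ α ∈ R, ∀ β ∈ B, β ≠ -α)
    (hI : ∀ α ∈ R, ∀ β ∈ B, ∀ γ : C.Root, γ.1 = α.1 + β.1 → γ ∈ B) (g : GL C.Idx k)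
    (hg : g ∈ UR C k R) : ∀ u ∈ UR C k B, g * u * g⁻¹ ∈ UR C k B ∧ g⁻¹ * u * g ∈ UR C k B := by
  have key : ∀ α ∈ R, ∀ s : k, ∀ u ∈ UR C k B,
      C.xg k α s * u * (C.xg k α s)⁻¹ ∈ UR C k B := by
    intro α hα s u hu
    unfold UR at hu
    induction hu using Subgroup.closure_induction with
    | mem x hx =>
      obtain ⟨β, hβ, t, rfl⟩ := hx
      have hb : C.xg k β t ∈ UR C k B := Subgroup.subset_closure ⟨β, hβ, t, rfl⟩
      by_cases hip : 0 ≤ C.ip α.1 β.1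
      · rw [C.xg_comm k α β s t hip, mul_inv_cancel_right]
        exact hb
      · rcases C.ip_cases α β with h1 | h1 | h1 | h1 | h1
        · exact absurd ((C.ip_eq_neg_two_iff α β).mp h1) (hn α hα β hβ)
        · obtain ⟨γ, hγ⟩ := C.exists_add α β h1
          have h2 := C.xg_comm_add k α β γ s t hγ
          have h3 : C.xg k α s * C.xg k β t * (C.xg k α s)⁻¹ =
              C.xg k γ (C.eps α.1 β.1 * s * t) * C.xg k β t := by
            rw [← h2]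
            group
          rw [h3]
          exact Subgroup.mul_mem _ (Subgroup.subset_closure ⟨γ, hI α hα β hβ γ hγ, _, rfl⟩) hb
        all_goals omega
    | one => simp
    | mul x y _ _ hx hy =>
      have e : C.xg k α s * (x * y) * (C.xg k α s)⁻¹ =
          (C.xg k α s * x * (C.xg k α s)⁻¹) * (C.xg k α s * y * (C.xg k α s)⁻¹) := by group
      rw [e]
      exact Subgroup.mul_mem _ hx hy
    | inv x _ hx =>
      have e : C.xg k α s * x⁻¹ * (C.xg k α s)⁻¹ = (C.xg k α s * x * (C.xg k α s)⁻¹)⁻¹ := by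
        group
      rw [e]
      exact Subgroup.inv_mem _ hx
  unfold UR at hg
  induction hg using Subgroup.closure_induction with
  | mem x hx =>
    obtain ⟨α, hα, s, rfl⟩ := hx
    intro u hu
    refine ⟨key α hα s u hu, ?_⟩
    have h1 := key α hα (-s) u hu
    have h2 : C.xg k α (-s) = (C.xg k α s)⁻¹ := (C.adS k).x_neg α s
    rwa [h2, inv_inv] at h1
  | one => intro u hu; simpa using hu
  | mul x y _ _ hx hy =>
    intro u hu
    have e1 : x * y * u * (x * y)⁻¹ = x * (y * u * y⁻¹) * x⁻¹ := by group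
    have e2 : (x * y)⁻¹ * u * (x * y) = y⁻¹ * (x⁻¹ * u * x) * y := by group
    rw [e1, e2]
    exact ⟨(hx _ (hy u hu).1).1, (hy _ (hx u hu).2).2⟩
  | inv x _ hx =>
    intro u hu
    rw [inv_inv]
    exact ⟨(hx u hu).2, (hx u hu).1⟩

private theorem Z7_comm (v : Fin n → ℤ) (R : Set C.Root) (hR : ∀ β ∈ R, C.ip v β.1 = 0)
    (s : k) (hs : s ≠ 0) (g : GL C.Idx k) (hg : g ∈ UR C k R) :
    (C.adS k).tor v s * g * ((C.adS k).tor v s)⁻¹ = g := by
  unfold UR at hg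
  induction hg using Subgroup.closure_induction with
  | mem x hx =>
    obtain ⟨β, hβ, t, rfl⟩ := hx
    have h1 := (C.adS k).tor_conj v s hs β t
    rw [hR β hβ, zpow_zero, one_mul] at h1
    exact h1
  | one => simp
  | mul x y _ _ hx hy =>
    calc (C.adS k).tor v s * (x * y) * ((C.adS k).tor v s)⁻¹
        = ((C.adS k).tor v s * x * ((C.adS k).tor v s)⁻¹) *
          ((C.adS k).tor v s * y * ((C.adS k).tor v s)⁻¹) := by group
      _ = x * y := by rw [hx, hy]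
  | inv x _ hx =>
    calc (C.adS k).tor v s * x⁻¹ * ((C.adS k).tor v s)⁻¹
        = ((C.adS k).tor v s * x * ((C.adS k).tor v s)⁻¹)⁻¹ := by group
      _ = x⁻¹ := by rw [hx]

private theorem Z7_exists_pow [Infinite k] (N : ℤ) (hN : N ≠ 0) :
    ∃ s : k, s ≠ 0 ∧ s ^ N ≠ 1 := by
  classical
  obtain ⟨s, hs⟩ := Infinite.exists_notMem_finset
    (insert 0 (Polynomial.nthRoots N.natAbs (1 : k)).toFinset)
  rw [Finset.mem_insert, not_or, Multiset.mem_toFinset,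
    Polynomial.mem_nthRoots (by omega)] at hs
  refine ⟨s, hs.1, fun h => hs.2 ?_⟩
  rcases Int.natAbs_eq N with h1 | h1
  · rw [h1, zpow_natCast] at h
    exact h
  · rw [h1, _root_.zpow_neg, inv_eq_one, zpow_natCast] at h
    exact h

end

variable (hS : Swap D t0) {k : Type*} [Field k] [Infinite k] {θ : k ≃+* k}
  {σ : GF D k →* GF D k} (h : SRs D t0 θ σ)

include h

theorem nuJ_of_opp (i : Fin n) (y : GF D k) (hy : y ∈ XmJ hS.na t0 σ i) (hy1 : y ≠ 1) :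
    ∃ u ∈ XJ hS.na t0 σ i, ∃ v ∈ XJ hS.na t0 σ i, ∃ ν ∈ FN D k, σ ν = ν ∧ y = u * ν * v ∧
      ∃ w ∈ C.W, IswJ D t0 i w ∧ (C.adS k).Acts (ν : GL C.Idx k) w := by
  classical
  obtain ⟨τ, e, ht⟩ := exists_tau hS h
  obtain ⟨hy2, hy3⟩ := hy
  obtain ⟨hA, hB, hAr, hBr, hAB, hd, hI, hI'⟩ := RJ_closed (C := C) (D := D) (t0 := t0) i
  obtain ⟨w, hw, hr, hc, u, hu, hsu, ν, hν, hact, hsν, v, hv, hsv, hyuv⟩ :=
    sig_bruhat_fix hS h ht y hy3
  -- the negative roots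
  have hnr : ∀ β ∈ {β : C.Root | -β ∈ RJ D t0 i}, D.r β ∈ {β : C.Root | -β ∈ RJ D t0 i} := by
    intro β hβ
    have h1 := hAr _ hβ
    rw [D.r_neg] at h1
    exact h1
  have hyU : (y : GL C.Idx k) ∈ UR C k {β : C.Root | -β ∈ RJ D t0 i} :=
    Z7_FR_UR hS.na _ hnr y hy2
  have hposr : ∀ β ∈ {β : C.Root | C.Pos β}, D.r β ∈ {β : C.Root | C.Pos β} :=
    fun β hβ => (D.r_pos β).mpr hβ
  have huFU : u ∈ FU D k := by
    rw [FU_FR hS.na]
    exact FR_mono hS.na (fun β hβ => hβ.1) hu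
  have huU : (u : GL C.Idx k) ∈ UR C k {β : C.Root | C.Pos β} := by
    rw [FU_FR hS.na] at huFU
    exact Z7_FR_UR hS.na _ hposr u huFU
  have hvU : (v : GL C.Idx k) ∈ UR C k {β : C.Root | C.Pos β} := by
    have h1 := hv
    rw [FU_FR hS.na] at h1
    exact Z7_FR_UR hS.na _ hposr v h1
  have hNy := Z7_norm {β : C.Root | -β ∈ RJ D t0 i} (RcJ D t0 i)
    (fun α hα β hβ h1 => hd _ (show -α ∈ RJ D t0 i from hα) (h1 ▸ hβ))
    (fun α hα β hβ γ hγ => hI' (-α) hα β hβ γ (by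
      rw [hγ, SLC.Root.neg_val, neg_neg])) _ hyU
  have hNp := fun g hg => Z7_norm (k := k) {β : C.Root | C.Pos β} (RcJ D t0 i)
    (fun α hα β hβ h1 => by
      have h2 := (C.not_pos_iff α).not.mp (by simpa using hα)
      rw [← h1] at h2
      exact h2 hβ.1)
    (fun α hα β hβ γ hγ => hI α hα β hβ γ hγ) g hg
  have hyGL : (y : GL C.Idx k) = (u : GL C.Idx k) * (ν : GL C.Idx k) * (v : GL C.Idx k) := by
    rw [hyuv]
    rfl
  have hνeq : (ν : GL C.Idx k) = (u : GL C.Idx k)⁻¹ * (y : GL C.Idx k) * (v : GL C.Idx k)⁻¹ := by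
    rw [hyGL]
    group
  -- `w` preserves `RcJ`
  have hout : ∀ γ ∈ RcJ D t0 i, w γ ∈ RcJ D t0 i := by
    intro γ hγ
    obtain ⟨c, hc0, hc1⟩ := hact
    have h1 := hc1 γ 1
    have h2 : C.xg k γ (1 : k) ∈ UR C k (RcJ D t0 i) :=
      Subgroup.subset_closure ⟨γ, hγ, 1, rfl⟩
    have h3 := (hNp _ huU _ (hNy _ (hNp _ hvU _ h2).2).1).2
    have h4 : (ν : GL C.Idx k) * C.xg k γ (1 : k) * (ν : GL C.Idx k)⁻¹ ∈ UR C k (RcJ D t0 i) := by
      have e1 : (ν : GL C.Idx k) * C.xg k γ (1 : k) * (ν : GL C.Idx k)⁻¹ =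
          (u : GL C.Idx k)⁻¹ * ((y : GL C.Idx k) * ((v : GL C.Idx k)⁻¹ * C.xg k γ (1 : k) *
            (v : GL C.Idx k)) * (y : GL C.Idx k)⁻¹) * (u : GL C.Idx k) := by
        rw [hνeq]
        group
      rw [e1]
      exact h3
    have h5 : C.xg k (w γ) (c γ * 1) ∈ UR C k (RcJ D t0 i) := by
      have h6 : C.xg k (w γ) (c γ * 1) =
          (ν : GL C.Idx k) * C.xg k γ (1 : k) * (ν : GL C.Idx k)⁻¹ := h1.symm
      rw [h6]
      exact h4
    exact UR_x hB (w γ) (c γ * 1) (by rw [mul_one]; exact hc0 γ) h5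
  -- `w ≠ 1`
  have hw1 : w ≠ 1 := by
    intro hw1
    apply hy1
    have hyB : C.Fil 0 ((y : GL C.Idx k) : Matrix C.Idx C.Idx k) := by
      have h1 : (ν : GL C.Idx k) ∈ (C.adS k).T := C.N_one _ (hw1 ▸ hact) hν
      have h2 := C.Fil_T _ h1
      have h3 := FU_Fil hS.na u huFU
      have h4 := FU_Fil hS.na v hv
      rw [hyGL, Units.val_mul, Units.val_mul]
      have h5 := C.Fil_mul (C.Fil_mul h3 h2) h4
      simpa using h5
    refine B_FUm hS.na y hyB ?_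
    rw [FUm_FR hS.na]
    refine FR_mono hS.na (fun β hβ => ?_) hy2
    have h1 : C.Pos (-β) := hβ.1
    exact (C.not_pos_iff β).mpr h1
  -- `w` is `w_J`
  have hpos : ∀ β ∈ RJ D t0 i, -(w β) ∈ RJ D t0 i := by
    have h1 : ∃ j, ¬ C.Pos (w (C.simple j)) := by
      by_contra h2
      push Not at h2
      exact hw1 (C.eq_one_of_pos w hw h2)
    obtain ⟨j, hj⟩ := h1
    have h2 : suppJ D t0 i (C.simple j) := by
      by_contra h3
      exact hj (hout _ ⟨C.simple_pos j, h3⟩).1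
    have h3 : JJ D t0 i j := h2 j (by simp)
    have h4 := RJ_congr hS i j h3
    intro β hβ
    have h5 := w_inv hS ht.tau w hw hr hc j hj β (h4 ▸ hβ)
    have h6 : -(w β) ∈ RJ D t0 i ∪ RcJ D t0 i := by
      rw [← hAB]
      exact (C.not_pos_iff _).mp h5
    rcases h6 with h6 | h6
    · exact h6
    · exfalso
      obtain ⟨γ, hγ, h7⟩ := Z7_surj (RcJ D t0 i) w w.injective hout _ h6
      have h8 : γ = -β := by
        apply w.injective
        rw [h7, C.W_neg w hw]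
      have h9 : C.Pos (-β) := h8 ▸ hγ.1
      exact ((C.not_pos_iff β).mpr h9) hβ.1
  have hJ : IswJ D t0 i w := ⟨hpos, hout⟩
  have hNw : Nw C w = RJ D t0 i := by
    have hinv := hJ.inv hw
    ext β
    constructor
    · rintro ⟨h1, h2⟩
      have h3 : β ∈ RJ D t0 i ∪ RcJ D t0 i := by
        rw [← hAB]
        exact h1
      rcases h3 with h3 | h3
      · exact h3
      · exact absurd (hinv.out β h3).1 h2
    · intro h1
      exact ⟨h1.1, (C.not_pos_iff _).mpr (hinv.pos β h1).1⟩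
  rw [hNw] at hu
  -- `v`
  have hvR : v ∈ FR hS.na k {β : C.Root | C.Pos β} := by
    rw [← FU_FR hS.na]
    exact hv
  obtain ⟨a, ha, b, hb, hab⟩ := FR_split hS.na ClR_pos hA hB hAr hBr hAB hd
    (fun α hα β hβ γ hγ => hI α hα β hβ γ hγ) v hvR
  have hb1 : b = 1 := by
    obtain ⟨v0, hv0⟩ := C.exists_coweight (fun j => if JJ D t0 i j then 0 else 1)
    have hip : ∀ β : C.Root, C.ip v0 β.1 =
        C.A.det * ∑ j, β.1 j * (if JJ D t0 i j then 0 else 1) := by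
      intro β
      rw [C.ip_comm, ← C.sum_ip_single, Finset.mul_sum]
      refine Finset.sum_congr rfl fun j _ => ?_
      rw [hv0]
      ring
    have hip0 : ∀ β : C.Root, suppJ D t0 i β → C.ip v0 β.1 = 0 := by
      intro β hβ
      rw [hip, Finset.sum_eq_zero, mul_zero]
      intro j _
      by_cases h1 : β.1 j = 0
      · rw [h1, zero_mul]
      · rw [if_pos (hβ j h1), mul_zero]
    have hip1 : ∀ β ∈ RcJ D t0 i, C.ip v0 β.1 ≠ 0 := by
      intro β hβ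
      rw [hip]
      refine mul_ne_zero C.det_ne_zero (ne_of_gt ?_)
      obtain ⟨j, hj, hJ⟩ : ∃ j, β.1 j ≠ 0 ∧ ¬ JJ D t0 i j := by
        have h1 := hβ.2
        unfold suppJ at h1
        push Not at h1
        exact h1
      have hnn := (C.pos_iff β).mp hβ.1
      apply Finset.sum_pos'
      · intro l _
        have := hnn l
        split_ifs
        · simp
        · simpa using this
      · refine ⟨j, Finset.mem_univ j, ?_⟩
        have := hnn j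
        rw [if_neg hJ, mul_one]
        omega
    have huR : (u : GL C.Idx k) ∈ UR C k (RJ D t0 i) := Z7_FR_UR hS.na _ hAr u hu
    have haR : (a : GL C.Idx k) ∈ UR C k (RJ D t0 i) := Z7_FR_UR hS.na _ hAr a ha
    have hbR : (b : GL C.Idx k) ∈ UR C k (RcJ D t0 i) := Z7_FR_UR hS.na _ hBr b hb
    have haU1 : (a : GL C.Idx k) ∈ (C.adS k).U 1 := UR_le_U (fun β hβ => hβ.1) haR
    have hbU1 : (b : GL C.Idx k) ∈ (C.adS k).U 1 := UR_le_U (fun β hβ => hβ.1) hbR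
    have hvGL : (v : GL C.Idx k) = (a : GL C.Idx k) * (b : GL C.Idx k) := by
      rw [hab]
      rfl
    have hbeq : (b : GL C.Idx k) = (a : GL C.Idx k)⁻¹ * (ν : GL C.Idx k)⁻¹ *
        (u : GL C.Idx k)⁻¹ * (y : GL C.Idx k) := by
      rw [hyGL, hvGL]
      group
    have hνN : (ν : GL C.Idx k) ∈ (C.adS k).N := hν
    have key : ∀ s : k, s ≠ 0 → (C.adS k).tor v0 s * (b : GL C.Idx k) *
        ((C.adS k).tor v0 s)⁻¹ = b := by
      intro s hs
      have ey := Z7_comm v0 {β : C.Root | -β ∈ RJ D t0 i} (fun β hβ => by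
        have h1 : C.ip v0 (-β).1 = 0 := hip0 (-β) hβ.2
        rw [SLC.Root.neg_val, C.ip_neg_right] at h1
        omega) s hs _ hyU
      have eu := Z7_comm v0 (RJ D t0 i) (fun β hβ => hip0 β hβ.2) s hs _ huR
      have ea := Z7_comm v0 (RJ D t0 i) (fun β hβ => hip0 β hβ.2) s hs _ haR
      have hz := (C.adS k).tor_mem v0 s hs
      generalize (C.adS k).tor v0 s = z at *
      have h1 : z * ((ν : GL C.Idx k)⁻¹ * z⁻¹ * ((ν : GL C.Idx k)⁻¹)⁻¹) ∈ (C.adS k).T :=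
        Subgroup.mul_mem _ hz ((C.adS k).N_conj_T _ _ (Subgroup.inv_mem _ hνN)
          (Subgroup.inv_mem _ hz))
      have e1 : (a : GL C.Idx k) * (z * (b : GL C.Idx k) * z⁻¹ * (b : GL C.Idx k)⁻¹) *
          (a : GL C.Idx k)⁻¹ =
          z * ((ν : GL C.Idx k)⁻¹ * z⁻¹ * ((ν : GL C.Idx k)⁻¹)⁻¹) := by
        calc (a : GL C.Idx k) * (z * (b : GL C.Idx k) * z⁻¹ * (b : GL C.Idx k)⁻¹) *
              (a : GL C.Idx k)⁻¹
            = (a : GL C.Idx k) * ((z * (a : GL C.Idx k) * z⁻¹)⁻¹ *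
              (z * (ν : GL C.Idx k)⁻¹ * z⁻¹) * (z * (u : GL C.Idx k) * z⁻¹)⁻¹ *
              (z * (y : GL C.Idx k) * z⁻¹) * ((y : GL C.Idx k)⁻¹ * (u : GL C.Idx k) *
              (ν : GL C.Idx k) * (a : GL C.Idx k))) * (a : GL C.Idx k)⁻¹ := by
              rw [hbeq]
              group
          _ = z * ((ν : GL C.Idx k)⁻¹ * z⁻¹ * ((ν : GL C.Idx k)⁻¹)⁻¹) := by
              rw [ea, eu, ey]
              group
      have h2 : (a : GL C.Idx k) * (z * (b : GL C.Idx k) * z⁻¹ * (b : GL C.Idx k)⁻¹) *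
          (a : GL C.Idx k)⁻¹ ∈ (C.adS k).U 1 :=
        Subgroup.mul_mem _ (Subgroup.mul_mem _ haU1 (Subgroup.mul_mem _
          ((C.adS k).T_conj_U 1 z _ hz hbU1) (Subgroup.inv_mem _ hbU1)))
          (Subgroup.inv_mem _ haU1)
      have h3 := C.S9_T_one _ h1 (e1 ▸ h2)
      rw [h3] at e1
      have h4 : z * (b : GL C.Idx k) * z⁻¹ * (b : GL C.Idx k)⁻¹ = 1 := by
        have h5 : z * (b : GL C.Idx k) * z⁻¹ * (b : GL C.Idx k)⁻¹ =
            (a : GL C.Idx k)⁻¹ * ((a : GL C.Idx k) * (z * (b : GL C.Idx k) * z⁻¹ *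
              (b : GL C.Idx k)⁻¹) * (a : GL C.Idx k)⁻¹) * (a : GL C.Idx k) := by group
        rw [h5, e1]
        group
      exact mul_inv_eq_one.mp h4
    obtain ⟨t, ht0, hbt⟩ := UR_lp hB (b : GL C.Idx k) hbR
    have ht1 : ∀ β, t β = 0 := by
      intro β
      by_cases hβ : β ∈ RcJ D t0 i
      · obtain ⟨s, hs, hs1⟩ := Z7_exists_pow (k := k) (C.ip v0 β.1) (hip1 β hβ)
        have hz := (C.adS k).tor_mem v0 s hs
        have h1 := key s hs
        rw [hbt, C.T8_conj_lp _ hz] at h1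
        have h2 := C.lp_unique _ _ h1 β hβ.1
        have h3 := (C.T_fix _ hz β 1).2
        have h4 := (C.adS k).tor_conj v0 s hs β 1
        have h5 : C.xg k β (s ^ (C.ip v0 β.1) * 1) = C.xg k β (C.chi
            (((C.adS k).tor v0 s : GL C.Idx k) : Matrix C.Idx C.Idx k) β * 1) := by
          rw [← h3]
          exact h4.symm
        have h6 := (C.xg_inj _ _ _ _ (by
          rw [mul_one]
          exact zpow_ne_zero _ hs) h5).2
        rw [mul_one, mul_one] at h6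
        simp only [← h6] at h2
        by_contra h7
        exact hs1 (mul_right_cancel₀ h7 (by rw [h2, one_mul]))
      · exact ht0 β hβ
    apply Subtype.ext
    rw [hbt]
    exact (C.adS k).lp_zero _ t fun β _ => ht1 β
  refine ⟨u, ⟨hu, hsu⟩, v, ⟨?_, hsv⟩, ν, hν, hsν, hyuv, w, hw, hJ, hact⟩
  rw [hab, hb1, mul_one]
  exact ha

end Pool.Agent.H86.UM
end

section
/- module Pool.Agent.H86.UM.Z8 -/
/-!
# Project UM, Suzuki-Ree groups, module Z8: chambers and generation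

`G0`: the group generated by the `XJ i, XmJ i`. `hne : ∀ i, ∃ y ∈ XmJ i, y ≠ 1`.
`G0_nu`: from `nuJ_of_opp`: `ν = u⁻¹ y v⁻¹ ∈ G0`.
`tau_comm_of_fix`: `ν ∈ FN`, `σ ν = ν`, acting by `w`: `w (τ β) ~ τ (w β)` (`sig_FN` with `w' = w`).
`exists_nuW`: by induction on the number of positive roots made negative by `w`. If it is `0`, `w = 1`. Otherwise
there is a simple root `α_i` with `w α_i` negative (`eq_one_of_pos`), so `w` is negative on `RJ i` (`w_inv`). Let `ν_i`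
be as in `G0_nu`, acting by `w_i`, `IswJ i w_i`. `w w_i` commutes with `rE`, `τ` too and makes fewer positive
roots negative: for `β ∈ RJ i`: `w_i β = -β'`, `β' ∈ RJ i`, `w w_i β = - w β'` is positive; `w_i` permutes `RcJ i`.
So `w w_i` is induced by `ν' ∈ G0`; `ν = ν' ν_i⁻¹`.
`sig_chamber_SR`: `sig_bruhat`: `g = u ν b`, `u ∈ FU ⊓ Fx σ`; `ν₁ ∈ G0 ∩ FN` inducing the same `w`
(`exists_nuW`), `ν = ν₁ t` (`FN_T`), `g₁ = u ν₁`.
`FU_le_G0`: claim: for `ν ∈ G0 ∩ FN` acting by `w`: every `u ∈ FU` with `σ u = u` and `ν u ν⁻¹ ∈ FUm` is in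
`G0`; induction on the number of positive roots made negative by `w`. If `w = 1` then `u ∈ FU ∩ FUm`, `u = 1`.
Otherwise choose `i` with `w α_i` negative, `u = a b`, `a ∈ FR (RJ i)`, `b ∈ FR (RcJ i)` (`FR_split`, `FU_FR`); apply
`σ` (`sig_FR`, `tau_supp`, `tau_pos`) and `FR_inf`: `σ a = a`, `σ b = b`. `a ∈ XJ i`. `ν a ν⁻¹ ∈ FUm` as `w` is
negative on `RJ i`, so `ν b ν⁻¹ ∈ FUm`. `b' = ν_i b ν_i⁻¹ ∈ FU` (`w_i` preserves `RcJ i`) is fixed by `σ`, and for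
`ν' = ν ν_i⁻¹`: `ν' b' ν'⁻¹ = ν b ν⁻¹ ∈ FUm`. Induction (`w w_i⁻¹` makes fewer positive roots negative).
Existence of an element `ν₀ ∈ G0 ∩ FN` making all positive roots negative: choose `ν ∈ G0 ∩ FN` for which the
number of positive roots made negative is maximal; if some simple `α_i` has `w α_i` positive then (as `w_inv`, for
`w` with signs reversed: apply it to the same argument) `w` is positive on `RJ i`, and `w w_i` makes more
roots negative. `Esr_gen`: `FU ⊓ Fx σ ≤ G0` by the claim with `ν₀`; `FUm ⊓ Fx σ`: for `x` in it,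
`ν₀ x ν₀⁻¹ ∈ FU ⊓ Fx σ` (`ν₀⁻¹` also makes all positive roots negative and hence all negative ones positive).
-/

set_option autoImplicit false
open Matrix

namespace Pool.Agent.H86.UM

open Pool.Agent.H75.UL

variable {n : ℕ} {C : SLC n} {D : Dg C} {t0 : Fin n → Fin n}

/-- The group generated by the simple root groups and the opposite ones. -/
noncomputable def G0 (hN : D.NA) (t0 : Fin n → Fin n) {k : Type*} [Field k]
    (σ : GF D k →* GF D k) : Subgroup (GF D k) :=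
  Subgroup.closure {g | ∃ i, g ∈ XJ hN t0 σ i ∨ g ∈ XmJ hN t0 σ i}

section aux
variable {k : Type*} [Field k]

private theorem Z8_mul {g g' : GL C.Idx k} {w w' : Equiv.Perm C.Root}
    (h : (C.adS k).Acts g w) (h' : (C.adS k).Acts g' w') :
    (C.adS k).Acts (g * g') (w * w') := by
  obtain ⟨c, hc, h1⟩ := h
  obtain ⟨c', hc', h1'⟩ := h'
  refine ⟨fun β => c (w' β) * c' β, fun β => mul_ne_zero (hc _) (hc' _), fun β u => ?_⟩
  have e : g * g' * (C.adS k).x β u * (g * g')⁻¹ =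
      g * (g' * (C.adS k).x β u * g'⁻¹) * g⁻¹ := by group
  rw [e, h1', h1, Equiv.Perm.mul_apply, mul_assoc]

private theorem Z8_inv {g : GL C.Idx k} {w : Equiv.Perm C.Root}
    (h : (C.adS k).Acts g w) : (C.adS k).Acts g⁻¹ w⁻¹ := by
  obtain ⟨c, hc, h1⟩ := h
  refine ⟨fun β => (c (w⁻¹ β))⁻¹, fun β => inv_ne_zero (hc _), fun β u => ?_⟩
  have h2 := h1 (w⁻¹ β) ((c (w⁻¹ β))⁻¹ * u)
  have h0 : w (w⁻¹ β) = β := Equiv.apply_symm_apply w β
  rw [h0, mul_inv_cancel_left₀ (hc _)] at h2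
  rw [← h2]
  group

private theorem Z8_one : (C.adS k).Acts (1 : GL C.Idx k) 1 :=
  ⟨fun _ => 1, fun _ => one_ne_zero, fun β u => by simp⟩

end aux

private theorem Z8_nn (β : C.Root) : -(-β) = β := by
  apply SLC.Root.ext
  rw [SLC.Root.neg_val, SLC.Root.neg_val, neg_neg]

/-- the positive roots made negative by `w` -/
private def Z8_S (C : SLC n) (w : Equiv.Perm C.Root) : Set C.Root :=
  {β | C.Pos β ∧ ¬ C.Pos (w β)}

private theorem Z8_simple (i : Fin n) : C.simple i ∈ RJ D t0 i := by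
  refine ⟨?_, fun j hj => ?_⟩
  · rw [C.pos_iff]
    intro j
    change 0 ≤ (Pi.single i (1 : ℤ) : Fin n → ℤ) j
    by_cases e : j = i
    · subst e
      simp
    · rw [Pi.single_eq_of_ne e]
  · have e : j = i := by
      by_contra e
      exact hj (by
        change (Pi.single i (1 : ℤ) : Fin n → ℤ) j = 0
        rw [Pi.single_eq_of_ne e])
    subst e
    exact JJ_refl _

private theorem Z8_card {w wi : Equiv.Perm C.Root} (hw : w ∈ C.W) {i : Fin n}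
    (hI : IswJ D t0 i wi) (hn : ∀ β ∈ RJ D t0 i, ¬ C.Pos (w β)) :
    (Z8_S C (w * wi)).ncard < (Z8_S C w).ncard := by
  have h1 : wi '' (Z8_S C (w * wi)) ⊆ Z8_S C w ∩ RcJ D t0 i := by
    rintro _ ⟨β, ⟨hβ, hβ'⟩, rfl⟩
    have hcase : β ∈ RJ D t0 i ∨ β ∈ RcJ D t0 i := by
      by_cases hs : suppJ D t0 i β
      · exact Or.inl ⟨hβ, hs⟩
      · exact Or.inr ⟨hβ, hs⟩
    rcases hcase with hr | hr
    · exfalso
      have h2 := hI.pos β hr
      have h3 := hn _ h2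
      rw [C.W_neg w hw, C.not_pos_iff, Z8_nn] at h3
      exact hβ' h3
    · have h2 := hI.out β hr
      exact ⟨⟨h2.1, hβ'⟩, h2⟩
  have h2 : Z8_S C w ∩ RcJ D t0 i ⊂ Z8_S C w := by
    refine ⟨Set.inter_subset_left, fun hh => ?_⟩
    have h3 : C.simple i ∈ RJ D t0 i := Z8_simple i
    have h4 : C.simple i ∈ Z8_S C w := ⟨h3.1, hn _ h3⟩
    exact (hh h4).2.2 h3.2
  calc (Z8_S C (w * wi)).ncard = (wi '' (Z8_S C (w * wi))).ncard :=
        (Set.ncard_image_of_injective _ wi.injective).symm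
    _ ≤ (Z8_S C w ∩ RcJ D t0 i).ncard := Set.ncard_le_ncard h1 (Set.toFinite _)
    _ < (Z8_S C w).ncard := Set.ncard_lt_ncard h2 (Set.toFinite _)

private theorem Z8_card' {w wi : Equiv.Perm C.Root} (hw : w ∈ C.W) (hwi : wi ∈ C.W) {i : Fin n}
    (hI : IswJ D t0 i wi) (hn : ∀ β ∈ RJ D t0 i, C.Pos (w β)) :
    (Z8_S C w).ncard < (Z8_S C (w * wi)).ncard := by
  have h1 := Z8_card (C.W.mul_mem hw hwi) (IswJ.inv hwi hI) (fun β hβ => by
    rw [Equiv.Perm.mul_apply]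
    have h2 := hn _ (hI.pos β hβ)
    rw [C.W_neg w hw] at h2
    exact (C.not_pos_iff _).2 h2)
  rwa [mul_inv_cancel_right] at h1

/-- if all `w α_i` are negative then so is `w β` for `β` positive -/
private theorem Z8_allneg {w : Equiv.Perm C.Root} (hw : w ∈ C.W)
    (h : ∀ i, ¬ C.Pos (w (C.simple i))) (β : C.Root) (hβ : C.Pos β) : ¬ C.Pos (w β) := by
  obtain ⟨f, hf, -⟩ := C.W_lin w hw
  rw [C.not_pos_iff, C.pos_iff]
  intro j
  rw [SLC.Root.neg_val, hf]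
  have e : β.1 = ∑ l, β.1 l • (C.simple l).1 := by
    funext m
    rw [Finset.sum_apply, Finset.sum_eq_single m]
    · change β.1 m = β.1 m * (Pi.single m (1 : ℤ) : Fin n → ℤ) m
      rw [Pi.single_eq_same, mul_one]
    · intro l _ hl
      change β.1 l * (Pi.single l (1 : ℤ) : Fin n → ℤ) m = 0
      rw [Pi.single_eq_of_ne (Ne.symm hl), mul_zero]
    · intro hh
      exact absurd (Finset.mem_univ _) hh
  rw [e, map_sum, Pi.neg_apply, Finset.sum_apply, ← Finset.sum_neg_distrib]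
  refine Finset.sum_nonneg fun l _ => ?_
  rw [map_zsmul, ← hf]
  change 0 ≤ -(β.1 l * (w (C.simple l)).1 j)
  have h1 := (C.pos_iff β).1 hβ l
  have h2 := (C.pos_iff _).1 ((C.not_pos_iff _).1 (h l)) j
  rw [SLC.Root.neg_val, Pi.neg_apply] at h2
  nlinarith

variable (hS : Swap D t0) {k : Type*} [Field k] [Infinite k] {θ : k ≃+* k}
  {σ : GF D k →* GF D k} (h : SRs D t0 θ σ)
  (hne : ∀ i, ∃ y ∈ XmJ hS.na t0 σ i, y ≠ 1)

theorem G0_le_Esr : G0 hS.na t0 σ ≤ Esr D σ := by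
  unfold G0
  rw [Subgroup.closure_le]
  rintro g ⟨i, hg | hg⟩
  · exact (le_sup_left : FU D k ⊓ Fx σ ≤ Esr D σ) ((XJ_le hS (σ := σ) i).1 hg)
  · exact (le_sup_right : FUm D k ⊓ Fx σ ≤ Esr D σ) ((XJ_le hS (σ := σ) i).2 hg)

omit [Infinite k] in
theorem Esr_le_Fx : Esr D σ ≤ Fx σ := sup_le inf_le_right inf_le_right

include h

theorem tau_comm_of_fix {τ : C.Root → C.Root} {e : C.Root → ℤ} (ht : SRt hS.na t0 θ σ τ e)
    (ν : GF D k) (hν : ν ∈ FN D k) (hs : σ ν = ν) (w : Equiv.Perm C.Root)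
    (hw : (C.adS k).Acts (ν : GL C.Idx k) w) (β : C.Root) :
    D.rE.SameCycle (w (τ β)) (τ (w β)) :=
  (sig_FN hS h ht ν hν).2 w w hw (by rw [hs]; exact hw) β

include hne

theorem G0_nu (i : Fin n) : ∃ ν ∈ FN D k ⊓ G0 hS.na t0 σ, ∃ w ∈ C.W, IswJ D t0 i w ∧
    (C.adS k).Acts (ν : GL C.Idx k) w := by
  obtain ⟨y, hy, hy1⟩ := hne i
  obtain ⟨u, hu, v, hv, ν, hν, -, e, w, hw, hI, ha⟩ := nuJ_of_opp hS h i y hy hy1
  refine ⟨ν, ⟨hν, ?_⟩, w, hw, hI, ha⟩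
  have e1 : ν = u⁻¹ * y * v⁻¹ := by
    rw [e]
    group
  have hu' : u ∈ G0 hS.na t0 σ := Subgroup.subset_closure ⟨i, Or.inl hu⟩
  have hv' : v ∈ G0 hS.na t0 σ := Subgroup.subset_closure ⟨i, Or.inl hv⟩
  have hy' : y ∈ G0 hS.na t0 σ := Subgroup.subset_closure ⟨i, Or.inr hy⟩
  rw [e1]
  exact (G0 hS.na t0 σ).mul_mem ((G0 hS.na t0 σ).mul_mem ((G0 hS.na t0 σ).inv_mem hu') hy')
    ((G0 hS.na t0 σ).inv_mem hv')

omit h hne in
private theorem Z8_fix (ν : GF D k) (hν : ν ∈ FN D k ⊓ G0 hS.na t0 σ) : σ ν = ν :=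
  Esr_le_Fx (G0_le_Esr hS hν.2)

omit h hne in
include hS in
private theorem Z8_W (ν : GF D k) (hν : ν ∈ FN D k) (w : Equiv.Perm C.Root)
    (ha : (C.adS k).Acts (ν : GL C.Idx k) w) : w ∈ C.W ∧ D.rE * w * D.rE⁻¹ = w := by
  obtain ⟨w', hw', hr', ha'⟩ := FN_acts hS.na ν hν
  rw [FN_unique hS.na _ w w' ha ha']
  exact ⟨hw', hr'⟩

omit hne in
private theorem Z8_exists (hnu : ∀ i, ∃ ν ∈ FN D k ⊓ G0 hS.na t0 σ, ∃ w ∈ C.W, IswJ D t0 i w ∧
    (C.adS k).Acts (ν : GL C.Idx k) w) {τ : C.Root → C.Root} {e : C.Root → ℤ}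
    (ht : SRt hS.na t0 θ σ τ e) (N : ℕ) : ∀ (w : Equiv.Perm C.Root), w ∈ C.W →
    D.rE * w * D.rE⁻¹ = w → (∀ β, D.rE.SameCycle (w (τ β)) (τ (w β))) →
    (Z8_S C w).ncard = N →
    ∃ ν ∈ FN D k ⊓ G0 hS.na t0 σ, (C.adS k).Acts (ν : GL C.Idx k) w := by
  induction N using Nat.strong_induction_on with
  | _ N ih =>
  intro w hw hr hc hN
  by_cases hp : ∀ i, C.Pos (w (C.simple i))
  · rw [C.eq_one_of_pos w hw hp]
    exact ⟨1, Subgroup.one_mem _, Z8_one⟩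
  · push Not at hp
    obtain ⟨i, hi⟩ := hp
    have hneg := w_inv hS ht.tau w hw hr hc i hi
    obtain ⟨νi, hνi, wi, hwi, hI, hai⟩ := hnu i
    have hfi := Z8_fix hS νi hνi
    obtain ⟨-, hri⟩ := Z8_W hS νi hνi.1 wi hai
    have hlt := Z8_card hw hI hneg
    obtain ⟨ν', hν', ha'⟩ := ih _ (hN ▸ hlt) (w * wi) (C.W.mul_mem hw hwi) (by
      calc D.rE * (w * wi) * D.rE⁻¹ = (D.rE * w * D.rE⁻¹) * (D.rE * wi * D.rE⁻¹) := by group
        _ = w * wi := by rw [hr, hri]) (fun β => by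
      rw [Equiv.Perm.mul_apply, Equiv.Perm.mul_apply]
      exact ((Nw_cycle w hr _ _ (tau_comm_of_fix hS h ht νi hνi.1 hfi wi hai β)).1).trans
        (hc _)) rfl
    refine ⟨ν' * νi⁻¹, Subgroup.mul_mem _ hν' (Subgroup.inv_mem _ hνi), ?_⟩
    have h3 := Z8_mul ha' (Z8_inv hai)
    rw [mul_inv_cancel_right] at h3
    exact h3

theorem exists_nuW {τ : C.Root → C.Root} (hτ : IsTau D t0 τ)
    (w : Equiv.Perm C.Root) (hw : w ∈ C.W) (hr : D.rE * w * D.rE⁻¹ = w)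
    (hc : ∀ β, D.rE.SameCycle (w (τ β)) (τ (w β))) :
    ∃ ν ∈ FN D k ⊓ G0 hS.na t0 σ, (C.adS k).Acts (ν : GL C.Idx k) w := by
  obtain ⟨τ', e, ht⟩ := exists_tau hS h
  have hm : (D.m : ℤ) ≠ 0 := by
    have := D.m_cases
    omega
  have hττ : ∀ β, D.rE.SameCycle (τ β) (τ' β) := by
    intro β
    by_cases hβ : D.r β = β
    · apply osum_inj hS.na
      rw [(hτ.long β hβ).2, (ht.tau.long β hβ).2]
    · have h1 := (hτ.short β hβ).2
      have h2 := (ht.tau.short β hβ).2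
      have h3 : τ β = τ' β := by
        apply SLC.Root.ext
        exact smul_right_injective _ hm (h1.trans h2.symm)
      rw [h3]
  refine Z8_exists hS h (fun i => G0_nu hS h hne i) ht _ w hw hr (fun β => ?_) rfl
  exact ((Nw_cycle w hr _ _ (hττ β).symm).1.trans (hc β)).trans (hττ (w β))

/-- `σ`-stable chambers -/
theorem sig_chamber_SR (g b₀ : GF D k) (hg : σ g = g * b₀)
    (hb₀ : C.Fil 0 ((b₀ : GL C.Idx k) : Matrix C.Idx C.Idx k)) :
    ∃ g₁ ∈ Esr D σ, C.Fil 0 (((g₁⁻¹ * g : GF D k) : GL C.Idx k) : Matrix C.Idx C.Idx k) := by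
  obtain ⟨τ, e, ht⟩ := exists_tau hS h
  obtain ⟨w, hw, hr, hc, u, hu, hsu, ν, hν, ha, -, b, hb, eg⟩ := sig_bruhat hS h ht g b₀ hg hb₀
  obtain ⟨ν₁, hν₁, ha₁⟩ := exists_nuW hS h hne ht.tau w hw hr hc
  have hT := FN_T hS.na ν₁ ν hν₁.1 hν w ha₁ ha
  have huU : u ∈ FU D k := by
    rw [FU_FR hS.na]
    exact FR_mono hS.na (fun β hβ => hβ.1) hu
  refine ⟨u * ν₁, (Esr D σ).mul_mem ((le_sup_left : FU D k ⊓ Fx σ ≤ Esr D σ) ⟨huU, hsu⟩)
    (G0_le_Esr hS hν₁.2), ?_⟩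
  have e1 : (u * ν₁)⁻¹ * g = (ν₁⁻¹ * ν) * b := by
    rw [eg]
    group
  rw [e1]
  have h1 : C.Fil 0 (((ν₁⁻¹ * ν : GF D k) : GL C.Idx k) : Matrix C.Idx C.Idx k) :=
    C.Fil_T _ hT
  have h2 := C.Fil_mul h1 hb
  rw [add_zero] at h2
  exact h2

theorem exists_w0 : ∃ ν ∈ FN D k ⊓ G0 hS.na t0 σ, ∃ w ∈ C.W,
    (C.adS k).Acts (ν : GL C.Idx k) w ∧ ∀ β, C.Pos β → ¬ C.Pos (w β) := by
  obtain ⟨τ, e, ht⟩ := exists_tau hS h
  let A : Set (Equiv.Perm C.Root) :=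
    {w | ∃ ν ∈ FN D k ⊓ G0 hS.na t0 σ, (C.adS k).Acts (ν : GL C.Idx k) w}
  have hA : A.Nonempty := ⟨1, 1, Subgroup.one_mem _, Z8_one⟩
  obtain ⟨w, ⟨ν, hν, ha⟩, hmax⟩ := Set.exists_max_image A (fun w => (Z8_S C w).ncard)
    (Set.toFinite A) hA
  obtain ⟨hw, hr⟩ := Z8_W hS ν hν.1 w ha
  have hf := Z8_fix hS ν hν
  refine ⟨ν, hν, w, hw, ha, Z8_allneg hw fun i hi => ?_⟩
  have hpos := w_inv' hS ht.tau w hw hr (tau_comm_of_fix hS h ht ν hν.1 hf w ha) i hi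
  obtain ⟨νi, hνi, wi, hwi, hI, hai⟩ := G0_nu hS h hne i
  have h1 := Z8_card' hw hwi hI hpos
  have h2 := hmax (w * wi) ⟨ν * νi, Subgroup.mul_mem _ hν hνi, Z8_mul ha hai⟩
  exact absurd h1 (not_lt.2 h2)

omit h hne in
private theorem Z8_conj (ν : GF D k) (hν : ν ∈ FN D k) (w : Equiv.Perm C.Root)
    (ha : (C.adS k).Acts (ν : GL C.Idx k) w) (R : Set C.Root) (H : Subgroup (GF D k))
    (hH : ∀ β ∈ R, ∀ t : k, yg hS.na (w β) t ∈ H) (x : GF D k) (hx : x ∈ FR hS.na k R) :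
    ν * x * ν⁻¹ ∈ H := by
  obtain ⟨-, hr⟩ := Z8_W hS ν hν w ha
  obtain ⟨c, -, h1⟩ := yg_acts hS.na ν w ha hr
  refine Subgroup.closure_induction (p := fun x _ => ν * x * ν⁻¹ ∈ H) ?_ ?_ ?_ ?_ hx
  · rintro _ ⟨β, hβ, t, rfl⟩
    rw [h1]
    exact hH β hβ _
  · rw [mul_one, mul_inv_cancel]
    exact H.one_mem
  · intro a b _ _ h2 h3
    have e : ν * (a * b) * ν⁻¹ = (ν * a * ν⁻¹) * (ν * b * ν⁻¹) := by group
    rw [e]
    exact H.mul_mem h2 h3
  · intro a _ h2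
    have e : ν * a⁻¹ * ν⁻¹ = (ν * a * ν⁻¹)⁻¹ := by group
    rw [e]
    exact H.inv_mem h2

private theorem Z8_claim {τ : C.Root → C.Root} {e : C.Root → ℤ}
    (ht : SRt hS.na t0 θ σ τ e) (N : ℕ) : ∀ (w : Equiv.Perm C.Root) (ν : GF D k),
    ν ∈ FN D k ⊓ G0 hS.na t0 σ → (C.adS k).Acts (ν : GL C.Idx k) w → (Z8_S C w).ncard = N →
    ∀ u ∈ FU D k, σ u = u → ν * u * ν⁻¹ ∈ FUm D k → u ∈ G0 hS.na t0 σ := by
  induction N using Nat.strong_induction_on with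
  | _ N ih =>
  intro w ν hν ha hN u hu hsu hum
  obtain ⟨hw, hr⟩ := Z8_W hS ν hν.1 w ha
  have hf := Z8_fix hS ν hν
  have hc := tau_comm_of_fix hS h ht ν hν.1 hf w ha
  by_cases hp : ∀ i, C.Pos (w (C.simple i))
  · have hw1 := C.eq_one_of_pos w hw hp
    have hT : ν ∈ FT D k := by
      have h1 := FN_T hS.na 1 ν (Subgroup.one_mem _) hν.1 w (by rw [hw1]; exact Z8_one) ha
      rwa [inv_one, one_mul] at h1
    have h2 := (FT_conj hS.na ν⁻¹ ((FT D k).inv_mem hT)).2.1 _ hum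
    have e1 : ν⁻¹ * (ν * u * ν⁻¹) * ν⁻¹⁻¹ = u := by group
    rw [e1] at h2
    rw [B_FUm hS.na u (FU_Fil hS.na u hu) h2]
    exact Subgroup.one_mem _
  · push Not at hp
    obtain ⟨i, hi⟩ := hp
    have hneg := w_inv hS ht.tau w hw hr hc i hi
    obtain ⟨νi, hνi, wi, hwi, hI, hai⟩ := G0_nu hS h hne i
    have hfi := Z8_fix hS νi hνi
    obtain ⟨cA, cB, rA, rB, hAB, hd, hid, -⟩ := RJ_closed (D := D) (t0 := t0) i
    have huF : u ∈ FR hS.na k {β : C.Root | C.Pos β} := by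
      rw [← FU_FR hS.na]
      exact hu
    obtain ⟨a, hA, b, hB, eu⟩ := FR_split hS.na ClR_pos cA cB rA rB hAB hd
      (fun α hα β hβ γ hγ => hid α hα β hβ γ hγ) u huF
    have hsA : σ a ∈ FR hS.na k (RJ D t0 i) := sig_FR hS h ht (RJ D t0 i) (RJ D t0 i) (fun β hβ =>
      ⟨τ β, ⟨(tau_pos hS ht.tau β).2 hβ.1, (tau_supp hS ht.tau i β).2 hβ.2⟩,
        Equiv.Perm.SameCycle.refl _ _⟩) a hA
    have hsB : σ b ∈ FR hS.na k (RcJ D t0 i) := sig_FR hS h ht (RcJ D t0 i) (RcJ D t0 i) (fun β hβ =>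
      ⟨τ β, ⟨(tau_pos hS ht.tau β).2 hβ.1, fun hh => hβ.2 ((tau_supp hS ht.tau i β).1 hh)⟩,
        Equiv.Perm.SameCycle.refl _ _⟩) b hB
    have e1 : σ a * σ b = a * b := by
      rw [← _root_.map_mul, ← eu, hsu]
    have e2 : a⁻¹ * σ a = b * (σ b)⁻¹ := by
      rw [eq_mul_inv_iff_mul_eq, mul_assoc, e1]
      group
    have e3 : a⁻¹ * σ a = 1 := by
      refine FR_inf hS.na cA cB rA rB hd _ (Subgroup.mul_mem _ (Subgroup.inv_mem _ hA) hsA) ?_
      rw [e2]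
      exact Subgroup.mul_mem _ hB (Subgroup.inv_mem _ hsB)
    have hσa : σ a = a := (inv_mul_eq_one.1 e3).symm
    have hσb : σ b = b := by
      rw [hσa] at e1
      exact mul_left_cancel e1
    have haG : a ∈ G0 hS.na t0 σ := Subgroup.subset_closure ⟨i, Or.inl ⟨hA, hσa⟩⟩
    have hνa : ν * a * ν⁻¹ ∈ FUm D k := Z8_conj hS ν hν.1 w ha (RJ D t0 i) (FUm D k)
      (fun β hβ t => yg_npos hS.na _ (hneg β hβ) t) a hA
    have hνb : ν * b * ν⁻¹ ∈ FUm D k := by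
      have e4 : ν * b * ν⁻¹ = (ν * a * ν⁻¹)⁻¹ * (ν * u * ν⁻¹) := by
        rw [eu]
        group
      rw [e4]
      exact Subgroup.mul_mem _ (Subgroup.inv_mem _ hνa) hum
    have hb' : νi * b * νi⁻¹ ∈ FU D k := Z8_conj hS νi hνi.1 wi hai (RcJ D t0 i) (FU D k)
      (fun β hβ t => yg_pos hS.na _ (hI.out β hβ).1 t) b hB
    have hsb' : σ (νi * b * νi⁻¹) = νi * b * νi⁻¹ := by
      rw [_root_.map_mul, _root_.map_mul, map_inv, hfi, hσb]
    have hlt := Z8_card hw (IswJ.inv hwi hI) hneg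
    have h5 := ih _ (hN ▸ hlt) (w * wi⁻¹) (ν * νi⁻¹)
      (Subgroup.mul_mem _ hν (Subgroup.inv_mem _ hνi)) (Z8_mul ha (Z8_inv hai)) rfl
      (νi * b * νi⁻¹) hb' hsb' (by
        have e5 : ν * νi⁻¹ * (νi * b * νi⁻¹) * (ν * νi⁻¹)⁻¹ = ν * b * ν⁻¹ := by group
        rw [e5]
        exact hνb)
    have e6 : u = a * (νi⁻¹ * (νi * b * νi⁻¹) * νi) := by
      rw [eu]
      group
    rw [e6]
    exact Subgroup.mul_mem _ haG (Subgroup.mul_mem _ (Subgroup.mul_mem _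
      (Subgroup.inv_mem _ hνi.2) h5) hνi.2)

/-- the Suzuki-Ree group is generated by the simple root groups and the opposite ones -/
theorem Esr_gen : Esr D σ = G0 hS.na t0 σ := by
  obtain ⟨τ, e, ht⟩ := exists_tau hS h
  obtain ⟨ν, hν, w, hw, ha, hall⟩ := exists_w0 hS h hne
  have hf := Z8_fix hS ν hν
  have hU : FU D k ⊓ Fx σ ≤ G0 hS.na t0 σ := by
    intro u hu
    refine Z8_claim hS h hne ht _ w ν hν ha rfl u hu.1 hu.2 ?_
    refine Z8_conj hS ν hν.1 w ha {β | C.Pos β} (FUm D k)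
      (fun β hβ t => yg_npos hS.na _ (hall β hβ) t) u ?_
    rw [← FU_FR hS.na]
    exact hu.1
  refine le_antisymm (sup_le hU ?_) (G0_le_Esr hS)
  intro x hx
  have h1 : ν * x * ν⁻¹ ∈ FU D k := by
    refine Z8_conj hS ν hν.1 w ha {β | ¬ C.Pos β} (FU D k) (fun β hβ t => ?_) x ?_
    · refine yg_pos hS.na _ ?_ t
      have h2 := hall (-β) ((C.not_pos_iff β).1 hβ)
      rw [C.W_neg w hw, C.not_pos_iff, Z8_nn] at h2
      exact h2
    · rw [← FUm_FR hS.na]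
      exact hx.1
  have h2 : σ (ν * x * ν⁻¹) = ν * x * ν⁻¹ := by
    have h3 : σ x = x := hx.2
    rw [_root_.map_mul, _root_.map_mul, map_inv, hf, h3]
  have h3 : ν * x * ν⁻¹ ∈ G0 hS.na t0 σ := hU ⟨h1, h2⟩
  have e4 : x = ν⁻¹ * (ν * x * ν⁻¹) * ν := by group
  rw [e4]
  exact Subgroup.mul_mem _ (Subgroup.mul_mem _ (Subgroup.inv_mem _ hν.2) h3) hν.2

end Pool.Agent.H86.UM
end

section
/- module Pool.Agent.H86.UM.Z9 -/
/-!
# Project UM, Suzuki-Ree groups, module Z9: the source structure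

`TOrb`: classes of nodes. `srep J`: a short node in the class `J`. In the class of a short node `i` the short nodes are
exactly the nodes of the cycle of `i` (`t0 i` is long), so `XJ`, `ξ`, `χ` do not depend on the choice of the short
node on `FU`, `FT` (`xi_sgl`, `chi_sgl` with `θ = 1`).
`cent`: `χ_i(h) = 1` for `i = srep J`, `σ h = h`: `χ_(t0 i)(h) = θ (χ_i(h)) = 1` (`sig_chi_simple`), so `χ_β(h) = 1`
for all `β ∈ RJ i` (`chi_prod`), `h` commutes with `yg (± β) t` (`yg_T`). `cent_neg`: `ν x ν⁻¹ ∈ XmJ i`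
(`nu_XJ`). `a_ν`: `χ_β(ν⁻¹ h ν) = χ_(w β)(h)`, `w` the action of `ν`, `IswJ i w`; `w α_i = - α_j` with `j` in the cycle
of `i`: the map `β ↦ - w β` permutes `RJ i` and is additive, so it permutes the simple roots in `RJ i` (those not
a sum of two elements of `RJ i`; `exists_descent`), and it commutes with `rE`, so it maps `α_i` to a simple root
which is not fixed. `ker_q`: `JHyp.ker`, transported from subgroups of `GF D k` to subgroups of `Esr D σ`.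
`nu_XJ`: `yg_acts` for the generators of `FR (RJ i)`, `σ ν = ν`, `IswJ`.
-/

set_option autoImplicit false
open Matrix

namespace Pool.Agent.H86.UM

open Pool.Agent.H75.UL

variable {n : ℕ} {C : SLC n} {D : Dg C} {t0 : Fin n → Fin n}

private theorem Z9_w_r (w : Equiv.Perm C.Root) (hw : D.rE * w * D.rE⁻¹ = w) (β : C.Root) :
    D.r (w β) = w (D.r β) := by
  have h1 : D.rE * w = w * D.rE := by
    conv_rhs => rw [← hw]
    group
  have h2 := congrArg (fun f : Equiv.Perm C.Root => f β) h1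
  simpa only [Equiv.Perm.mul_apply, Dg.rE_apply] using h2

private theorem Z9_inv {k : Type*} [Field k] {g : GL C.Idx k} {w : Equiv.Perm C.Root}
    (h : (C.adS k).Acts g w) : (C.adS k).Acts g⁻¹ w⁻¹ := by
  obtain ⟨c, hc, h1⟩ := h
  refine ⟨fun β => (c (w⁻¹ β))⁻¹, fun β => inv_ne_zero (hc _), fun β u => ?_⟩
  have h2 := h1 (w⁻¹ β) ((c (w⁻¹ β))⁻¹ * u)
  have h0 : w (w⁻¹ β) = β := Equiv.apply_symm_apply w β
  rw [h0, mul_inv_cancel_left₀ (hc _)] at h2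
  rw [← h2]
  group

section
variable {k : Type*} [Field k] [Infinite k]

private theorem Z9_rE (hN : D.NA) (ν : GF D k) (hν : ν ∈ FN D k) (w : Equiv.Perm C.Root)
    (ha : (C.adS k).Acts (ν : GL C.Idx k) w) : D.rE * w * D.rE⁻¹ = w := by
  obtain ⟨w', -, hr, ha'⟩ := FN_acts hN ν hν
  rw [FN_unique hN _ w w' ha ha']
  exact hr

private theorem Z9_conj (hN : D.NA) (g : GF D k) (w : Equiv.Perm C.Root)
    (hr : D.rE * w * D.rE⁻¹ = w) (ha : (C.adS k).Acts (g : GL C.Idx k) w)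
    (R R' : Set C.Root) (hR : ∀ β ∈ R, w β ∈ R') (x : GF D k) (hx : x ∈ FR hN k R) :
    g * x * g⁻¹ ∈ FR hN k R' := by
  obtain ⟨c, hc, h1⟩ := yg_acts hN g w ha hr
  have h2 : FR hN k R ≤ (FR hN k R').comap (MulAut.conj g).toMonoidHom := by
    conv_lhs => unfold FR
    rw [Subgroup.closure_le]
    rintro _ ⟨β, hβ, t, rfl⟩
    change g * yg hN β t * g⁻¹ ∈ FR hN k R'
    rw [h1]
    exact Subgroup.subset_closure ⟨w β, hR β hβ, _, rfl⟩
  exact h2 hx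

/-- elements of the torus commute with the root elements for which the character is `1` -/
private theorem Z9_cent (hN : D.NA) (g : GF D k) (hg : g ∈ FT D k) (R : Set C.Root)
    (hR : ∀ β ∈ R, C.chi ((g : GL C.Idx k) : Matrix C.Idx C.Idx k) β = 1) (x : GF D k)
    (hx : x ∈ FR hN k R) : g * x = x * g := by
  have h2 : FR hN k R ≤ Subgroup.centralizer {g} := by
    unfold FR
    rw [Subgroup.closure_le]
    rintro _ ⟨β, hβ, t, rfl⟩
    rw [SetLike.mem_coe, Subgroup.mem_centralizer_singleton_iff]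
    have h3 := yg_T hN g hg β t
    rw [hR β hβ, one_mul, mul_inv_eq_iff_eq_mul] at h3
    exact h3.symm
  have h3 := h2 hx
  rw [Subgroup.mem_centralizer_singleton_iff] at h3
  exact h3.symm

private theorem Z9_T_conj (hN : D.NA) (g : GF D k) (hg : g ∈ FT D k) (R : Set C.Root)
    (x : GF D k) (hx : x ∈ FR hN k R) : g * x * g⁻¹ ∈ FR hN k R := by
  have h2 : FR hN k R ≤ (FR hN k R).comap (MulAut.conj g).toMonoidHom := by
    conv_lhs => unfold FR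
    rw [Subgroup.closure_le]
    rintro _ ⟨β, hβ, t, rfl⟩
    change g * yg hN β t * g⁻¹ ∈ FR hN k R
    rw [yg_T hN g hg]
    exact Subgroup.subset_closure ⟨β, hβ, _, rfl⟩
  exact h2 hx

private theorem Z9_Gad (hN : D.NA) (x : GF D k) : (x : GL C.Idx k) ∈ C.Gad k :=
  (mem_GF_fix hN _ x.2).2

private theorem Z9_Fil (x : GF D k) (hx : x ∈ FT D k) :
    C.Fil 0 ((x : GL C.Idx k) : Matrix C.Idx C.Idx k) :=
  C.Fil_T _ hx

private theorem Z9_U (x : GF D k) (hx : x ∈ FU D k) : (x : GL C.Idx k) ∈ (C.adS k).U 1 :=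
  hx.1

private theorem Z9_chi_r (hN : D.NA) (x : GF D k) (hx : x ∈ FT D k) (β : C.Root) :
    C.chi ((x : GL C.Idx k) : Matrix C.Idx C.Idx k) (D.r β) =
      C.chi ((x : GL C.Idx k) : Matrix C.Idx C.Idx k) β :=
  SR_chi (env_ad D hN k) (x : GL C.Idx k) hx (mem_GF_fix hN _ x.2).1 β

private theorem Z9_chi_cycle (hN : D.NA) (x : GF D k) (hx : x ∈ FT D k) (β γ : C.Root)
    (h : D.rE.SameCycle β γ) : C.chi ((x : GL C.Idx k) : Matrix C.Idx C.Idx k) γ =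
      C.chi ((x : GL C.Idx k) : Matrix C.Idx C.Idx k) β := by
  obtain ⟨l, -, rfl⟩ := (D.sameCycle_iff _ _).mp h
  clear h
  induction l with
  | zero => rfl
  | succ l ih =>
    rw [Function.iterate_succ_apply', Z9_chi_r hN x hx]
    exact ih

private theorem Z9_chi_neg (hN : D.NA) (x : GF D k) (hx : x ∈ FT D k) (β : C.Root) :
    C.chi ((x : GL C.Idx k) : Matrix C.Idx C.Idx k) (-β) =
      (C.chi ((x : GL C.Idx k) : Matrix C.Idx C.Idx k) β)⁻¹ := by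
  rw [C.chi_prod _ (Z9_Gad hN x) (Z9_Fil x hx) (-β), C.chi_prod _ (Z9_Gad hN x) (Z9_Fil x hx) β,
    ← Finset.prod_inv_distrib]
  apply Finset.prod_congr rfl
  intro j _
  rw [SLC.Root.neg_val, Pi.neg_apply, _root_.zpow_neg]

private theorem Z9_chi_conj (hN : D.NA) (x ν : GF D k) (hx : x ∈ FT D k) (hν : ν ∈ FN D k)
    (w : Equiv.Perm C.Root) (ha : (C.adS k).Acts (ν : GL C.Idx k) w) (β : C.Root) :
    C.chi (((ν⁻¹ * x * ν : GF D k) : GL C.Idx k) : Matrix C.Idx C.Idx k) β =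
      C.chi ((x : GL C.Idx k) : Matrix C.Idx C.Idx k) (w β) := by
  have hx' : ν⁻¹ * x * ν ∈ FT D k := by
    have h1 := (FT_conj hN x hx).2.2 ν⁻¹ (inv_mem hν)
    rwa [inv_inv] at h1
  obtain ⟨c, hc, h1⟩ := ha
  obtain ⟨h2, h3⟩ := SR_T (env_ad D hN k) ((ν⁻¹ * x * ν : GF D k) : GL C.Idx k) hx' β 1
  obtain ⟨h4, h5⟩ := SR_T (env_ad D hN k) (x : GL C.Idx k) hx (w β) (c β * 1)
  have h6 := h1 β (C.chi ((x : GL C.Idx k) : Matrix C.Idx C.Idx k) (w β))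
  have e : (((ν⁻¹ * x * ν : GF D k) : GL C.Idx k)) * (C.adS k).x β 1 *
      (((ν⁻¹ * x * ν : GF D k) : GL C.Idx k))⁻¹ =
      (ν : GL C.Idx k)⁻¹ * ((x : GL C.Idx k) * ((ν : GL C.Idx k) * (C.adS k).x β 1 *
        (ν : GL C.Idx k)⁻¹) * (x : GL C.Idx k)⁻¹) * (ν : GL C.Idx k) := by
    push_cast
    group
  rw [e, h1, h5] at h3
  have e2 : C.chi (((MonoidHom.id (GL C.Idx k)) (x : GL C.Idx k) : GL C.Idx k) :
      Matrix C.Idx C.Idx k) (w β) * (c β * 1) = c β *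
        C.chi ((x : GL C.Idx k) : Matrix C.Idx C.Idx k) (w β) := by
    rw [mul_one, mul_comm]
    rfl
  rw [e2, ← h6] at h3
  have e3 : (ν : GL C.Idx k)⁻¹ * ((ν : GL C.Idx k) * (C.adS k).x β
      (C.chi ((x : GL C.Idx k) : Matrix C.Idx C.Idx k) (w β)) * (ν : GL C.Idx k)⁻¹) *
        (ν : GL C.Idx k) = (C.adS k).x β
      (C.chi ((x : GL C.Idx k) : Matrix C.Idx C.Idx k) (w β)) := by group
  rw [e3] at h3
  have h7 := (C.xg_inj β β _ _ h4 h3).2
  rw [mul_one] at h7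
  exact h7.symm

end

private theorem Z9_wJ (hS : Swap D t0) (i : Fin n) (hi : D.ρ i ≠ i) (w : Equiv.Perm C.Root)
    (hw : w ∈ C.W) (hr : D.rE * w * D.rE⁻¹ = w) (h : IswJ D t0 i w) :
    ∃ j, D.rE.SameCycle (C.simple i) (C.simple j) ∧ w (C.simple i) = -(C.simple j) := by
  have h1 := h.pos (C.simple i) (ZJ1_mem hS i).1
  have hinv := h.inv hw
  have hwi := Subgroup.inv_mem _ hw
  by_cases hc : ∀ l, -(w (C.simple i)) ≠ C.simple l
  · exfalso
    obtain ⟨l, γ, hγ, h2⟩ := C.exists_descent _ h1.1 hc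
    have hl : C.simple l ∈ RJ D t0 i := by
      refine ⟨C.simple_pos l, fun j hj => h1.2 j ?_⟩
      have h3 := (C.pos_iff _).mp (C.simple_pos l) j
      have h4 := (C.pos_iff _).mp hγ j
      rw [h2, Pi.add_apply]
      omega
    have hγ' : γ ∈ RJ D t0 i := by
      refine ⟨hγ, fun j hj => h1.2 j ?_⟩
      have h3 := (C.pos_iff _).mp (C.simple_pos l) j
      have h4 := (C.pos_iff _).mp hγ j
      rw [h2, Pi.add_apply]
      omega
    have h3 := C.W_add w⁻¹ hwi _ _ _ h2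
    have h4 : w⁻¹ (-(w (C.simple i))) = -(C.simple i) := by
      rw [C.W_neg _ hwi]
      congr 1
      exact w.symm_apply_apply _
    rw [h4] at h3
    have h5 := hinv.pos _ hl
    have h6 := hinv.pos _ hγ'
    have h7 := C.simple_pos i
    have h8 := h5.1
    have h9 := h6.1
    have h10 := congrArg ht h3
    rw [ht_add, SLC.Root.neg_val, ht_neg] at h10
    unfold SLC.Pos at h8 h9
    rw [SLC.Root.neg_val, ht_neg] at h8 h9
    have h11 : ht (C.simple i).1 = 1 := C.ht_simple i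
    omega
  · push Not at hc
    obtain ⟨l, hl⟩ := hc
    have e : w (C.simple i) = -(C.simple l) := by
      rw [← hl, C.neg_neg_root]
    refine ⟨l, ?_, e⟩
    rw [D.sameCycle_simple]
    have h2 : JJ D t0 i l := by
      apply h1.2
      rw [hl, SLC.simple_val]
      simp
    rcases h2 with h2 | h2
    · exact h2
    · exfalso
      have h3 : D.ρ (t0 i) = t0 i := (hS.fix_iff i).mpr hi
      have h4 : l = t0 i := by
        obtain ⟨z, hz⟩ := h2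
        rw [← hz]
        exact Equiv.Perm.zpow_apply_eq_self_of_apply_eq_self h3 z
      have h5 : D.r (w (C.simple i)) = w (C.simple i) := by
        rw [e, D.r_neg, D.r_simple, h4, h3]
      rw [Z9_w_r w hr] at h5
      have h6 := w.injective h5
      rw [D.r_simple] at h6
      exact hi (C.simple_injective h6)


/-- classes of nodes -/
def tset (hS : Swap D t0) : Setoid (Fin n) where
  r := JJ D t0
  iseqv := ⟨fun i => JJ_refl i, fun h => JJ_symm hS _ _ h, fun h h' => JJ_trans hS _ _ _ h h'⟩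

/-- classes of nodes -/
abbrev TOrb (hS : Swap D t0) : Type := Quotient (tset hS)

/-- a short node in the class -/
noncomputable def srep (hS : Swap D t0) (J : TOrb hS) : Fin n :=
  (exists_short hS (Quotient.out J)).choose

theorem srep_spec (hS : Swap D t0) (J : TOrb hS) :
    D.ρ (srep hS J) ≠ srep hS J ∧ (Quotient.mk (tset hS) (srep hS J) : TOrb hS) = J ∧
      ∀ i, (Quotient.mk (tset hS) i : TOrb hS) = J ↔ JJ D t0 (srep hS J) i := by
  have h0 := (exists_short hS (Quotient.out J)).choose_spec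
  have h1 : JJ D t0 (Quotient.out J) (srep hS J) := h0.1
  have h2 : (Quotient.mk (tset hS) (srep hS J) : TOrb hS) = J := by
    conv_rhs => rw [← Quotient.out_eq J]
    exact Quotient.sound (JJ_symm hS _ _ h1)
  exact ⟨h0.2, h2, fun i => ⟨fun h3 => JJ_symm hS _ _ (Quotient.exact (h3.trans h2.symm)),
    fun h3 => (Quotient.sound (JJ_symm hS _ _ h3)).trans h2⟩⟩

/-- Properties of the simple root groups. -/
structure JHyp (hS : Swap D t0) {k : Type*} [Field k] (σ : GF D k →* GF D k) (N : ℕ) :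
    Prop where
  N_ne : N ≠ 0
  onto : ∀ i, D.ρ i ≠ i → ∀ t : k, ∃ x ∈ XJ hS.na t0 σ i,
    C.xi i ((x : GL C.Idx k) : Matrix C.Idx C.Idx k) = t
  ker : ∀ i, D.ρ i ≠ i → ∀ x ∈ XJ hS.na t0 σ i,
    C.xi i ((x : GL C.Idx k) : Matrix C.Idx C.Idx k) = 0 →
      x ∈ ⁅XJ hS.na t0 σ i, XJ hS.na t0 σ i⁆
  opp : ∀ i, ∃ y ∈ XmJ hS.na t0 σ i, y ≠ 1
  sep : ∀ i, D.ρ i ≠ i → ∀ s : k, s ≠ 0 → ∃ h ∈ FT D k ⊓ Esr D σ,
    C.chi ((h : GL C.Idx k) : Matrix C.Idx C.Idx k) (C.simple i) = s ^ N ∧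
      ∀ j, D.ρ j ≠ j → ¬ JJ D t0 i j →
        C.chi ((h : GL C.Idx k) : Matrix C.Idx C.Idx k) (C.simple j) = 1

variable (hS : Swap D t0) {k : Type*} [Field k] [Infinite k] {θ : k ≃+* k}
  {σ : GF D k →* GF D k} (h : SRs D t0 θ σ)

include h in
/-- conjugation with elements acting like `w_J` -/
theorem nu_XJ (i : Fin n) (ν : GF D k) (hν : ν ∈ FN D k) (hs : σ ν = ν)
    (w : Equiv.Perm C.Root) (hw : w ∈ C.W) (hi : IswJ D t0 i w)
    (ha : (C.adS k).Acts (ν : GL C.Idx k) w) (x : GF D k) :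
    (x ∈ XJ hS.na t0 σ i ↔ ν * x * ν⁻¹ ∈ XmJ hS.na t0 σ i) ∧
    (x ∈ XmJ hS.na t0 σ i ↔ ν * x * ν⁻¹ ∈ XJ hS.na t0 σ i) := by
  have hr := Z9_rE hS.na ν hν w ha
  have hi' := hi.inv hw
  have ha' : (C.adS k).Acts ((ν⁻¹ : GF D k) : GL C.Idx k) w⁻¹ := Z9_inv ha
  have hwi := Subgroup.inv_mem _ hw
  have hr' : D.rE * w⁻¹ * D.rE⁻¹ = w⁻¹ := by
    conv_rhs => rw [← hr]
    group
  have hs' : σ ν⁻¹ = ν⁻¹ := by rw [map_inv, hs]
  have hf : ∀ g y : GF D k, σ g = g → y ∈ Fx σ → g * y * g⁻¹ ∈ Fx σ := by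
    intro g y hg hy
    rw [mem_Fx] at hy ⊢
    rw [map_mul, map_mul, map_inv, hg, hy]
  have e : ∀ y : GF D k, ν⁻¹ * (ν * y * ν⁻¹) * ν⁻¹⁻¹ = y := fun y => by group
  have k1 : ∀ (v : Equiv.Perm C.Root), v ∈ C.W → (∀ β ∈ RJ D t0 i, -(v β) ∈ RJ D t0 i) →
      ∀ β ∈ {β : C.Root | -β ∈ RJ D t0 i}, v β ∈ RJ D t0 i := by
    intro v hv hv1 β hβ
    have h1 := hv1 (-β) hβ
    rwa [C.W_neg v hv, C.neg_neg_root] at h1
  constructor
  · constructor
    · intro hx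
      exact ⟨Z9_conj hS.na ν w hr ha _ _ (fun β hβ => hi.pos β hβ) x hx.1, hf ν x hs hx.2⟩
    · intro hx
      have h1 := Z9_conj hS.na ν⁻¹ w⁻¹ hr' ha' {β | -β ∈ RJ D t0 i} (RJ D t0 i)
        (k1 _ hwi hi'.pos) _ hx.1
      have h2 := hf ν⁻¹ _ hs' hx.2
      rw [e] at h1 h2
      exact ⟨h1, h2⟩
  · constructor
    · intro hx
      exact ⟨Z9_conj hS.na ν w hr ha _ _ (k1 _ hw hi.pos) x hx.1, hf ν x hs hx.2⟩
    · intro hx
      have h1 := Z9_conj hS.na ν⁻¹ w⁻¹ hr' ha' (RJ D t0 i) {β | -β ∈ RJ D t0 i}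
        (fun β hβ => hi'.pos β hβ) _ hx.1
      have h2 := hf ν⁻¹ _ hs' hx.2
      rw [e] at h1 h2
      exact ⟨h1, h2⟩

/-- a monomial element for the class of `i` -/
noncomputable def nuS {N : ℕ} (hJ : JHyp hS σ N) (i : Fin n) : GF D k :=
  (G0_nu hS h hJ.opp i).choose

theorem nuS_spec {N : ℕ} (hJ : JHyp hS σ N) (i : Fin n) :
    nuS hS h hJ i ∈ FN D k ∧ nuS hS h hJ i ∈ Esr D σ ∧ σ (nuS hS h hJ i) = nuS hS h hJ i ∧
      ∃ w ∈ C.W, IswJ D t0 i w ∧ (C.adS k).Acts (nuS hS h hJ i : GL C.Idx k) w := by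
  obtain ⟨⟨h1, h2⟩, w, hw, hi, ha⟩ := (G0_nu hS h hJ.opp i).choose_spec
  have h3 := G0_le_Esr hS h2
  exact ⟨h1, h3, Esr_le_Fx h3, w, hw, hi, ha⟩

include hS h in
private theorem Z9_chi_all (i : Fin n) (x : GF D k) (hx : x ∈ FT D k) (hs : σ x = x)
    (h1 : C.chi ((x : GL C.Idx k) : Matrix C.Idx C.Idx k) (C.simple i) = 1) (β : C.Root)
    (hβ : suppJ D t0 i β) : C.chi ((x : GL C.Idx k) : Matrix C.Idx C.Idx k) β = 1 := by
  rw [C.chi_prod _ (Z9_Gad hS.na x) (Z9_Fil x hx) β]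
  apply Finset.prod_eq_one
  intro j _
  by_cases h2 : β.1 j = 0
  · rw [h2, zpow_zero]
  · rcases hβ j h2 with h3 | h3
    · rw [Z9_chi_cycle hS.na x hx (C.simple i) (C.simple j) ((D.sameCycle_simple i j).mpr h3), h1,
        _root_.one_zpow]
    · have h4 := sig_chi_simple hS h x hx i
      rw [hs, h1, th_one] at h4
      rw [Z9_chi_cycle hS.na x hx (C.simple (t0 i)) (C.simple j)
        ((D.sameCycle_simple _ _).mpr h3), h4, _root_.one_zpow]

/-- The source structure of the Suzuki-Ree group. -/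
noncomputable def srcSR {N : ℕ} (hJ : JHyp hS σ N) : Src (TOrb hS) (Esr D σ) k where
  U := (FU D k).subgroupOf (Esr D σ)
  T := (FT D k).subgroupOf (Esr D σ)
  X J := (XJ hS.na t0 σ (srep hS J)).subgroupOf (Esr D σ)
  q J x := C.xi (srep hS J) (((x : GF D k) : GL C.Idx k) : Matrix C.Idx C.Idx k)
  a J x := C.chi (((x : GF D k) : GL C.Idx k) : Matrix C.Idx C.Idx k)
    (C.simple (srep hS J))
  ν J := ⟨nuS hS h hJ (srep hS J), (nuS_spec hS h hJ (srep hS J)).2.1⟩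
  k0 := ⊤
  N := N
  T_comm := by
    intro s hs t ht
    apply Subtype.ext
    apply Subtype.ext
    exact (C.adS k).T_comm _ _ hs ht
  T_conj_U := by
    intro x hx u hu
    exact (FT_conj hS.na (x : GF D k) hx).1 _ hu
  X_le := by
    intro J x hx
    exact ((XJ_le hS (σ := σ) (srep hS J)).1 hx).1
  q_mul := by
    intro J x hx y hy
    exact C.xi_mul _ _ _ (Z9_U _ ((XJ_le hS (σ := σ) (srep hS J)).1 hx).1)
      (Z9_U _ ((XJ_le hS (σ := σ) (srep hS J)).1 hy).1)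
  a_mul := by
    intro J s hs t ht
    exact C.chi_mul _ _ (Z9_Gad hS.na _) (Z9_Gad hS.na _) (Z9_Fil _ hs) (Z9_Fil _ ht) _
  a_ne := by
    intro J s hs
    exact C.chi_ne_zero _ (Z9_Gad hS.na _) (Z9_Fil _ hs) _
  X_conj := by
    intro J s hs x hx
    refine ⟨Z9_T_conj hS.na (s : GF D k) hs _ _ hx.1, ?_⟩
    have h1 : σ (s : GF D k) = s := Esr_le_Fx s.2
    have h2 : σ (x : GF D k) = x := hx.2
    change σ ((s : GF D k) * (x : GF D k) * (s : GF D k)⁻¹) = _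
    rw [map_mul, map_mul, map_inv, h1, h2]
    rfl
  q_conj := by
    intro J s hs x hx
    exact (C.xi_conj _ _ (Z9_Gad hS.na _) (Z9_Fil _ hs)
      (Z9_U _ ((XJ_le hS (σ := σ) (srep hS J)).1 hx).1) _).2
  q_smul := by
    intro J c _ x hx
    obtain ⟨y, hy, h1⟩ := hJ.onto (srep hS J) (srep_spec hS J).1
      (c * C.xi (srep hS J) (((x : GF D k) : GL C.Idx k) : Matrix C.Idx C.Idx k))
    have hy' : y ∈ Esr D σ :=
      (le_sup_left : FU D k ⊓ Fx σ ≤ Esr D σ) ((XJ_le hS (σ := σ) (srep hS J)).1 hy)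
    exact ⟨⟨y, hy'⟩, hy, h1⟩
  ker_q := by
    intro J x hx h0
    have h1 := hJ.ker (srep hS J) (srep_spec hS J).1 (x : GF D k) hx h0
    have hle : XJ hS.na t0 σ (srep hS J) ≤ Esr D σ := fun y hy =>
      (le_sup_left : FU D k ⊓ Fx σ ≤ Esr D σ) ((XJ_le hS (σ := σ) (srep hS J)).1 hy)
    have h2 : ((XJ hS.na t0 σ (srep hS J)).subgroupOf (Esr D σ)).map (Esr D σ).subtype =
        XJ hS.na t0 σ (srep hS J) := Subgroup.map_subgroupOf_eq_of_le hle
    rw [← h2, ← Subgroup.map_commutator] at h1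
    obtain ⟨y, hy, hyx⟩ := h1
    have h3 : y = x := Subtype.ext hyx
    rw [← h3]
    exact hy
  cent := by
    intro J s hs h1 x hx
    apply Subtype.ext
    exact Z9_cent hS.na (s : GF D k) hs (RJ D t0 (srep hS J))
      (fun β hβ => Z9_chi_all hS h (srep hS J) _ hs (Esr_le_Fx s.2) h1 β hβ.2) _ hx.1
  cent_neg := by
    intro J s hs h1 x hx
    obtain ⟨h2, -, h3, w, hw, hi, ha⟩ := nuS_spec hS h hJ (srep hS J)
    apply Subtype.ext
    refine Z9_cent hS.na (s : GF D k) hs {β | -β ∈ RJ D t0 (srep hS J)}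
      (fun β hβ => ?_) _ ((nu_XJ hS h (srep hS J) _ h2 h3 w hw hi ha (x : GF D k)).1.mp hx).1
    have h4 := Z9_chi_all hS h (srep hS J) (s : GF D k) hs (Esr_le_Fx s.2) h1 (-β) hβ.2
    rw [Z9_chi_neg hS.na (s : GF D k) hs] at h4
    exact inv_eq_one.mp h4
  k0_inf := by
    exact Infinite.of_injective (fun t : k => (⟨t, Subfield.mem_top t⟩ : (⊤ : Subfield k)))
      (fun a b hab => congrArg Subtype.val hab)
  N_ne := hJ.N_ne
  sep := by
    intro J s _ hs0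
    obtain ⟨x, hx, h1, h2⟩ := hJ.sep (srep hS J) (srep_spec hS J).1 s hs0
    refine ⟨⟨x, hx.2⟩, hx.1, h1, fun J' hJ' => ?_⟩
    apply h2 (srep hS J') (srep_spec hS J').1
    intro h3
    apply hJ'
    rw [← (srep_spec hS J').2.1]
    exact ((srep_spec hS J).2.2 _).mpr h3
  ν_conj := by
    intro J s hs
    have h1 := (FT_conj hS.na (s : GF D k) hs).2.2 (nuS hS h hJ (srep hS J))⁻¹
      (inv_mem (nuS_spec hS h hJ (srep hS J)).1)
    rw [inv_inv] at h1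
    exact h1
  a_ν := by
    intro J s hs _
    obtain ⟨h2, -, h3, w, hw, hi, ha⟩ := nuS_spec hS h hJ (srep hS J)
    obtain ⟨j, hj, h4⟩ := Z9_wJ hS (srep hS J) (srep_spec hS J).1 w hw
      (Z9_rE hS.na _ h2 w ha) hi
    have h5 := Z9_chi_conj hS.na (s : GF D k) (nuS hS h hJ (srep hS J)) hs h2 w ha
      (C.simple (srep hS J))
    rw [h4, Z9_chi_neg hS.na (s : GF D k) hs, Z9_chi_cycle hS.na (s : GF D k) hs _ _ hj] at h5
    exact h5

end Pool.Agent.H86.UM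
end
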