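import Pool.Agent.H86.AL.M13
import Pool.Agent.H86.AL.M19
import Pool.Agent.H86.AL.M22
import Pool.Agent.H86.AL.M26

/-!
# M31: collected modules

Pool.Agent.H75.UK.F2
Pool.Agent.H75.UE.E5
Pool.Agent.H75.UE.E6
-/

section
/- module Pool.Agent.H75.UK.F2 -/
/-!
# Project UK, module F2: the exact stage for folded types

`L = AlgebraicClosure K`, `Ψ_L = mp ∘ Ψ` (`mp` is injective, maps `Gad K` to `Gad L` and commutes with
`sgl`: `sgl_mp`, `mp_Gad` or similar in UL). `folded_chamber` gives `g`, `Tgt C (srcOf he) (cj Ψ_L g)`.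
`hfix`: for `σ : L ≃ₐ[K] L` put `g' = mp σ g`, `y = g⁻¹ g'`. For `u ∈ U`:
`y⁻¹ (g⁻¹ Ψ_L(u) g) y = g'⁻¹ Ψ_L(u) g' = mp σ (g⁻¹ Ψ_L(u) g)` is in `Fil 0` (`Fil_map`, `Fil_U_zero`), and
`upper_of_fix` (UC) for `Γ = {g⁻¹ Ψ_L(u) g | u ∈ U}` (`nonvan` of `Tgt`) gives `Fil 0 y`. `exact_of_L`.
-/

set_option autoImplicit false
open Matrix
universe u
namespace Pool.Agent.H75.UL

open Pool.Agent.H86.UM

variable {n : ℕ} {C : SLC n} {D : Dg C} {k : Type*} [Field k] {H : Type*} [Group H]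
  {S : StSys C k H} {s : H →* H} {p : H →* GL C.Idx k}

theorem exact_folded (he : Env D (RingEquiv.refl k) S s p) (hNA : D.NA) (hn : 0 < n)
    {K : Type*} [Field K] (Ψ : Eg S s →* GL C.Idx K) (hΨ : ∀ x, Ψ x ∈ C.Gad K)
    (hσ : ∀ x, D.sgl (RingEquiv.refl K) (Ψ x) = Ψ x)
    (hker : ∀ x : Eg S s, Ψ x = 1 → x ∈ Subgroup.center (Eg S s)) :
    ∃ g₁ ∈ Eg (C.adS K) (D.sgl (RingEquiv.refl K)), ∃ π : Equiv.Perm D.Orb,
      Exact D S s (RingEquiv.refl K) Ψ g₁ π := by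
  obtain ⟨Φ, hΦ0⟩ : ∃ Φ : Eg S s →* GL C.Idx (AlgebraicClosure K),
      Φ = (C.mp (algebraMap K (AlgebraicClosure K))).comp Ψ := ⟨_, rfl⟩
  have hΦ : ∀ x, Φ x = C.mp (algebraMap K (AlgebraicClosure K)) (Ψ x) := by
    intro x
    rw [hΦ0]
    rfl
  have hΦm : ∀ x, Φ x ∈ C.Gad (AlgebraicClosure K) := by
    intro x
    rw [hΦ]
    exact C.mp_Gad _ _ (hΨ x)
  obtain ⟨g, hg, hT⟩ := folded_chamber he hNA hn Φ hΦm (by
    intro x
    rw [hΦ, ← sgl_mp D (RingEquiv.refl K) (RingEquiv.refl (AlgebraicClosure K))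
      (algebraMap K (AlgebraicClosure K)) (fun t => rfl), hσ x]) (by
    intro x hx
    apply hker
    apply C.mp_injective (algebraMap K (AlgebraicClosure K))
      (algebraMap K (AlgebraicClosure K)).injective
    rw [_root_.map_one, ← hΦ]
    exact hx)
  have hnv' : ∀ j, ∃ γ ∈ (cj Φ g) '' ((srcOf he).U : Set (Eg S s)),
      C.xi j (γ : Matrix C.Idx C.Idx (AlgebraicClosure K)) ≠ 0 := by
    intro j
    obtain ⟨J, x, hx, h⟩ := hT.nonvan j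
    exact ⟨_, ⟨x, (srcOf he).X_le J hx, rfl⟩, h⟩
  have hΓU : ∀ γ ∈ (cj Φ g) '' ((srcOf he).U : Set (Eg S s)),
      γ ∈ (C.adS (AlgebraicClosure K)).U 1 := by
    rintro _ ⟨u, hu, rfl⟩
    exact hT.U_le u hu
  refine exact_of_L (L := AlgebraicClosure K) he (RingEquiv.refl K) (fun t => ?_) (Or.inl hNA) Ψ hΨ
    hσ g hg ?_ ?_
  · change id^[D.m] t = t
    rw [Function.iterate_id]
    rfl
  · rw [← hΦ0]
    exact hT
  · intro σ
    refine upper_of_fix C _ hΓU hnv' _ (mul_mem (inv_mem hg) (C.mp_Gad _ g hg)) ?_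
    rintro _ ⟨u, hu, rfl⟩
    have e : (g⁻¹ * C.mp (σ : AlgebraicClosure K →+* AlgebraicClosure K) g)⁻¹ * cj Φ g u *
        (g⁻¹ * C.mp (σ : AlgebraicClosure K →+* AlgebraicClosure K) g) =
        C.mp (σ : AlgebraicClosure K →+* AlgebraicClosure K) (cj Φ g u) := by
      rw [cj_apply, _root_.map_mul, _root_.map_mul, _root_.map_inv, hΦ, C.P3b_mp_fix]
      group
    rw [e, C.mp_val]
    exact C.Fil_map _ (C.Fil_U_zero _ (hT.U_le u hu))

end Pool.Agent.H75.UL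
end

section
/- module Pool.Agent.H75.UE.E5 -/
/-!
# Project UE, module E5: central quotients and their adjoint representations

`chamber`: `Kd D tw θ`, `K` infinite: `he = Kd.env`. `tw = false`: `θ` is the identity, so
`θ = RingEquiv.refl K`, `θ' = RingEquiv.refl K'` (substitute), `folded_chamber` for `mp ∘ Ψ`
(`L = AlgebraicClosure K'`; `sgl_mp`, `mp_Gad`, `mp_injective`). `tw = true`: as in the proof of
`exact_steinberg` (`exists_highest`, `exists_wordE`, `uniE'`, `stage_L`).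
`pa_cent`: `Ψ = pa` restricted to `EE`: values in `Gad` (`lift` of `adS`, `gen_adS`), fixed by `sgl`
(`pa_sig`, `Eg_le_fix`), kernel central by `ker_central` (`GU.gen_eq`; `p = pa`). `cent_of_chamber`.
`exists_GD`: `K` is infinite: otherwise `GU C K` is finite (`Good.finite` for `GU.sys C K`, which is `Good`:
`GU.gen_eq`, `lift` is the identity), so `EE` and `G` are finite. `x ∈ ker f ≤ center` implies that `pa x`
commutes with all `pa y`, so `pa x = 1`; `p` by `MonoidHom.liftOfSurjective`.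
`center_iff`: `→`: `g = f x`, `pa x = 1`, so `x` central in `EE` (`ker_central`), so `g` is central (`surj`).
`←`: `g = f x` central; for all `y` the commutator `[x, y]` is in `ker f`, so central, so `pa [x, y] = 1`
(`pa_cent`), so `pa x` commutes with all `pa y`, `pa x = 1`.
`Psi_Gad`, `Psi_fix`: every `X₂.p h = X₂.p (f y) = pa y`. `Psi_ker`: `Ψ x = 1`: `ψ (f₁ x)` is central in
`G₂` (`center_iff`), so `f₁ x` is central in `G₁` (`ψ` injective), so `pa x = 1` (`center_iff`, `hp`) and `x`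
is central (`ker_central`).
`exists_exact`: `exact_folded` and `exact_steinberg` (`Kd.hθ`, `Kd.hA` for `X₂`).
-/

set_option autoImplicit false
open Matrix
universe u
namespace Pool.Agent.H75.UL

open Pool.Agent.H86.UM

variable {n : ℕ} {C : SLC n} {D : Dg C} {tw : Bool}

/-- The chamber over the algebraic closure. -/
theorem chamber (hn : 0 < n) {K : Type u} [Field K] {θ : K ≃+* K} (hk : Kd D tw θ)
    (he : Env D θ (GU.sys C K) (D.sig θ) (pa C K)) {K' : Type u} [Field K'] {θ' : K' ≃+* K'}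
    (hk' : Kd D tw θ') (Ψ : EE D K θ →* GL C.Idx K') (hΨ : ∀ x, Ψ x ∈ C.Gad K')
    (hσ : ∀ x, D.sgl θ' (Ψ x) = Ψ x)
    (hker : ∀ x, Ψ x = 1 → x ∈ Subgroup.center (EE D K θ)) :
    ∃ g ∈ C.Gad (AlgebraicClosure K'), Tgt C (srcOf he)
      (cj ((C.mp (algebraMap K' (AlgebraicClosure K'))).comp Ψ) g) := by
  cases tw with
  | false =>
    have h1 : D.NA ∧ ∀ t, θ t = t := by simpa [Kd] using hk
    have h2 : D.NA ∧ ∀ t, θ' t = t := by simpa [Kd] using hk'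
    obtain rfl : θ = RingEquiv.refl K := RingEquiv.ext h1.2
    obtain rfl : θ' = RingEquiv.refl K' := RingEquiv.ext h2.2
    refine folded_chamber he h1.1 hn _ ?_ ?_ ?_
    · intro x
      exact C.mp_Gad _ _ (hΨ x)
    · intro x
      rw [MonoidHom.comp_apply, ← sgl_mp D (RingEquiv.refl K') (RingEquiv.refl (AlgebraicClosure K'))
        (algebraMap K' (AlgebraicClosure K')) (fun t => rfl), hσ x]
    · intro x hx
      apply hker
      apply C.mp_injective (algebraMap K' (AlgebraicClosure K'))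
        (algebraMap K' (AlgebraicClosure K')).injective
      rw [_root_.map_one]
      exact hx
  | true =>
    have h1 : (∀ t, (⇑θ)^[D.m] t = t) ∧ ∀ l, 0 < l → l < D.m → ∃ t, (⇑θ)^[l] t ≠ t := by
      simpa [Kd] using hk
    obtain ⟨θr, hθr⟩ := C.exists_highest hn
    obtain ⟨w, _, hw2⟩ := exists_wordE he θr hθr hn h1.2
    obtain ⟨g, hg, hT, _⟩ := stage_L C θr hθr (srcOf he) w (L := AlgebraicClosure K') Ψ hΨ
      (fun h => hw2 (hker _ h)) (fun u hu => uniE' he Ψ u hu)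
    exact ⟨g, hg, hT⟩

private theorem E5_exact (hn : 0 < n) {K : Type u} [Field K] {θ : K ≃+* K} (hk : Kd D tw θ)
    (he : Env D θ (GU.sys C K) (D.sig θ) (pa C K)) {K' : Type u} [Field K'] {θ' : K' ≃+* K'}
    (hk' : Kd D tw θ') (Ψ : EE D K θ →* GL C.Idx K') (hΨ : ∀ x, Ψ x ∈ C.Gad K')
    (hσ : ∀ x, D.sgl θ' (Ψ x) = Ψ x)
    (hker : ∀ x, Ψ x = 1 → x ∈ Subgroup.center (EE D K θ)) :
    ∃ g ∈ Eg (C.adS K') (D.sgl θ'), ∃ π : Equiv.Perm D.Orb,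
      Exact D (GU.sys C K) (D.sig θ) θ' Ψ g π := by
  cases tw with
  | false =>
    have h1 : D.NA ∧ ∀ t, θ t = t := by simpa [Kd] using hk
    have h2 : D.NA ∧ ∀ t, θ' t = t := by simpa [Kd] using hk'
    obtain rfl : θ = RingEquiv.refl K := RingEquiv.ext h1.2
    obtain rfl : θ' = RingEquiv.refl K' := RingEquiv.ext h2.2
    exact exact_folded he h1.1 hn Ψ hΨ hσ hker
  | true =>
    have h1 : (∀ t, (⇑θ)^[D.m] t = t) ∧ ∀ l, 0 < l → l < D.m → ∃ t, (⇑θ)^[l] t ≠ t := by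
      simpa [Kd] using hk
    exact exact_steinberg he hn h1.2 θ' (Kd.hθ D hk') (Kd.hA D hk') Ψ hΨ hσ hker

theorem pa_Gad {K : Type u} [Field K] (x : GU C K) : pa C K x ∈ C.Gad K := by
  rw [← C.gen_adS, ← GU.lift_range]
  exact ⟨x, rfl⟩

theorem pa_ker {K : Type u} [Field K] (x : GU C K) (h : pa C K x = 1) (y : GU C K) :
    x * y = y * x := by
  have h1 := C.ker_central (GU.sys C K) (GU.gen_eq C K) (pa C K)
    (fun β t => GU.lift_x (C.adS K) β t) x h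
  exact (Subgroup.mem_center_iff.1 h1 y).symm

private theorem E5_fix {K : Type u} [Field K] (θ : K ≃+* K) (x : GU C K) (hx : x ∈ EE D K θ) :
    D.sgl θ (pa C K x) = pa C K x := by
  rw [← pa_sig, Eg_le_fix _ _ x hx]

theorem pa_cent (hn : 0 < n) {K : Type u} [Field K] {θ : K ≃+* K} (hk : Kd D tw θ)
    (hK : Infinite K) (w : GL C.Idx K) (hw : w ∈ C.Gad K)
    (hc : ∀ x ∈ EE D K θ, w * pa C K x = pa C K x * w) : w = 1 := by
  have he := Kd.env D hk hK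
  obtain ⟨g, hg, hT⟩ := chamber hn hk he hk ((pa C K).comp (EE D K θ).subtype)
    (fun x => pa_Gad _) (fun x => E5_fix θ _ x.2) (by
      intro x hx
      rw [Subgroup.mem_center_iff]
      intro y
      apply Subtype.ext
      exact (pa_ker (x : GU C K) hx y).symm)
  exact cent_of_chamber C (srcOf he) _ g hg hT w hw (fun x => hc x x.2)

/-- the kernel of the adjoint representation contains the centre -/
private theorem E5_center (hn : 0 < n) {K : Type u} [Field K] {θ : K ≃+* K} (hk : Kd D tw θ)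
    (hK : Infinite K) (x : EE D K θ) (hx : x ∈ Subgroup.center (EE D K θ)) :
    pa C K x = 1 := by
  refine pa_cent hn hk hK _ (pa_Gad _) ?_
  intro y hy
  have h1 := Subgroup.mem_center_iff.1 hx ⟨y, hy⟩
  have h2 := congrArg (fun z : EE D K θ => pa C K (z : GU C K)) h1
  simp only [Subgroup.coe_mul, map_mul] at h2
  exact h2.symm

theorem exists_GD (hn : 0 < n) {G : Type u} [Group G] [Infinite G] (h : IsE D tw G) :
    Nonempty (GD D tw G) := by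
  obtain ⟨K, hK, θ, hkd, f, hs, hker⟩ := h
  have hinf : Infinite K := by
    by_contra hfin
    rw [not_infinite_iff_finite] at hfin
    have hgood : Good (GU.sys C K) := by
      refine ⟨GU.gen_eq C K, ?_⟩
      intro y hy
      have h1 : GU.lift (GU.sys C K) = MonoidHom.id (GU C K) := by
        apply GU.hom_ext
        intro β t
        rw [GU.lift_x]
        rfl
      rw [h1] at hy
      have h2 : y = 1 := hy
      rw [h2]
      exact one_mem _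
    have hGU : Finite (GU C K) := hgood.finite
    have hG : Finite G := Finite.of_surjective f hs
    exact not_finite G
  have hk : f.ker ≤ ((pa C K).comp (EE D K θ).subtype).ker := by
    intro x hx
    rw [MonoidHom.mem_ker]
    exact E5_center hn hkd hinf x (hker hx)
  let p : G →* GL C.Idx K :=
    (MonoidHom.liftOfSurjective f hs) ⟨(pa C K).comp (EE D K θ).subtype, hk⟩
  have hp : ∀ x : EE D K θ, p (f x) = pa C K x := fun x =>
    MonoidHom.liftOfRightInverse_comp_apply f _ _ ⟨(pa C K).comp (EE D K θ).subtype, hk⟩ x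
  exact ⟨⟨K, θ, hkd, hinf, f, hs, hker, p, hp⟩⟩

theorem GD.isE {G : Type u} [Group G] (X : GD D tw G) : IsE D tw G :=
  ⟨X.K, X.fK, X.θ, X.kd, X.f, X.surj, X.ker_le⟩

theorem GD.center_iff (hn : 0 < n) {G : Type u} [Group G] (X : GD D tw G) (g : G) :
    X.p g = 1 ↔ g ∈ Subgroup.center G := by
  obtain ⟨x, rfl⟩ := X.surj g
  rw [X.hp]
  constructor
  · intro h
    rw [Subgroup.mem_center_iff]
    intro g'
    obtain ⟨y, rfl⟩ := X.surj g'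
    rw [← map_mul, ← map_mul]
    congr 1
    apply Subtype.ext
    exact (pa_ker (x : GU C X.K) h y).symm
  · intro h
    have hinf := X.inf
    refine pa_cent hn X.kd X.inf _ (pa_Gad _) ?_
    intro y hy
    have h1 := Subgroup.mem_center_iff.1 h (X.f ⟨y, hy⟩)
    have h2 : X.f (x * ⟨y, hy⟩ * x⁻¹ * ⟨y, hy⟩⁻¹) = 1 := by
      simp only [map_mul, map_inv]
      rw [← h1, mul_inv_cancel_right, mul_inv_cancel]
    have h3 := E5_center hn X.kd X.inf _ (X.ker_le (MonoidHom.mem_ker.2 h2))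
    have h4 : pa C X.K (x : GU C X.K) * pa C X.K y * (pa C X.K (x : GU C X.K))⁻¹ *
        (pa C X.K y)⁻¹ = 1 := by
      rw [← h3]
      simp only [Subgroup.coe_mul, Subgroup.coe_inv, map_mul, map_inv]
    have h5 := mul_inv_eq_one.1 h4
    exact mul_inv_eq_iff_eq_mul.1 h5

section Psi
variable {G₁ G₂ : Type u} [Group G₁] [Group G₂] (X₁ : GD D tw G₁) (X₂ : GD D tw G₂)
  (ψ : G₁ →* G₂)

private theorem E5_Psi (x : EE D X₁.K X₁.θ) : ∃ y : EE D X₂.K X₂.θ,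
    X₁.Psi X₂ ψ x = pa C X₂.K y := by
  obtain ⟨y, hy⟩ := X₂.surj (ψ (X₁.f x))
  refine ⟨y, ?_⟩
  rw [GD.Psi_apply, ← hy, X₂.hp]

theorem GD.Psi_Gad (x : EE D X₁.K X₁.θ) : X₁.Psi X₂ ψ x ∈ C.Gad X₂.K := by
  obtain ⟨y, hy⟩ := E5_Psi X₁ X₂ ψ x
  rw [hy]
  exact pa_Gad _

theorem GD.Psi_fix (x : EE D X₁.K X₁.θ) : D.sgl X₂.θ (X₁.Psi X₂ ψ x) = X₁.Psi X₂ ψ x := by
  obtain ⟨y, hy⟩ := E5_Psi X₁ X₂ ψ x
  rw [hy]
  exact E5_fix _ _ y.2

theorem GD.Psi_ker (hn : 0 < n) (hψ : Function.Injective ψ) (x : EE D X₁.K X₁.θ)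
    (h : X₁.Psi X₂ ψ x = 1) : x ∈ Subgroup.center (EE D X₁.K X₁.θ) := by
  rw [GD.Psi_apply, X₂.center_iff hn] at h
  have h1 : X₁.f x ∈ Subgroup.center G₁ := by
    rw [Subgroup.mem_center_iff] at h ⊢
    intro y
    apply hψ
    rw [map_mul, map_mul]
    exact h (ψ y)
  rw [← X₁.center_iff hn, X₁.hp] at h1
  rw [Subgroup.mem_center_iff]
  intro y
  apply Subtype.ext
  exact (pa_ker (x : GU C X₁.K) h1 y).symm

theorem GD.exists_exact (hn : 0 < n) (hψ : Function.Injective ψ) :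
    ∃ g ∈ Eg (C.adS X₂.K) (D.sgl X₂.θ), ∃ π : Equiv.Perm D.Orb,
      Exact D (GU.sys C X₁.K) (D.sig X₁.θ) X₂.θ (X₁.Psi X₂ ψ) g π :=
  E5_exact hn X₁.kd (Kd.env D X₁.kd X₁.inf) X₂.kd (X₁.Psi X₂ ψ) (X₁.Psi_Gad X₂ ψ)
    (X₁.Psi_fix X₂ ψ) (X₁.Psi_ker X₂ ψ hn hψ)

theorem GD.cent (hn : 0 < n) (hψ : Function.Injective ψ) (w : GL C.Idx X₂.K)
    (hw : w ∈ C.Gad X₂.K) (hc : ∀ x, w * X₁.Psi X₂ ψ x = X₁.Psi X₂ ψ x * w) : w = 1 := by
  obtain ⟨g, hg, hT⟩ := chamber hn X₁.kd (Kd.env D X₁.kd X₁.inf) X₂.kd (X₁.Psi X₂ ψ)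
    (X₁.Psi_Gad X₂ ψ) (X₁.Psi_fix X₂ ψ) (X₁.Psi_ker X₂ ψ hn hψ)
  exact cent_of_chamber C _ _ g hg hT w hw hc

end Psi

end Pool.Agent.H75.UL
end

section
/- module Pool.Agent.H75.UE.E6 -/
/-!
# Project UE, module E6: composition of exact stages

`center_map`: for `z` in the centre of `G₂` and `ψ : G₂ →* G₃` injective, `X₃.p (ψ z) = 1`: it is in
`Gad` (`= pa y`), and commutes with all `Psi X₂ X₃ ψ x`, `GD.cent`.
`lift_exact`: data for `X₁, X₂, ψ`, `g ∈ Eg (adS K₂) (sgl θ₂)`, an element `x` with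
`g⁻¹ * Psi x * g ∈ fixX D (adS K₂) (sgl θ₂) β`. By `pa_Eg` `g = pa γ`, `γ ∈ EE`, by `pa_fixX` `g⁻¹ Psi x g = pa y`,
`y ∈ fixX D (GU.sys) (sig θ₂) β` (in `EE`, `fixX_mem_EE`). So `X₂.p (ψ (f₁ x)) = pa (γ y γ⁻¹) =
X₂.p (f₂ (γ y γ⁻¹))`, and `ψ (f₁ x) = f₂ (γ y γ⁻¹) * z`, `z` central in `G₂` (`center_iff`).
`PE.comp`: apply `X₃.p ∘ ψ'`: `Psi X₁ X₃ (ψ' ∘ ψ) x = Psi X₂ X₃ ψ' (γ y γ⁻¹)` (`center_map`), so with
`g'' = Psi X₂ X₃ ψ' γ * g'`: `g''⁻¹ Psi₁₃ x g'' = g'⁻¹ Psi₂₃ y g' ∈ fixX (simple i'')` by the second exactness.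
`γ` does not depend on `x`: choose it first from `g`. `g'' ∈ Eg (adS K₃) (sgl θ₃)`: `Psi₂₃ γ = X₃.p (..)
= pa w`, `w ∈ EE` (`surj`), `pa_Eg`. The index `i'` with `[i'] = π [i]`: take `i' = (π [i]).out`.
-/

set_option autoImplicit false
open Matrix
universe u
namespace Pool.Agent.H75.UL

open Pool.Agent.H86.UM

variable {n : ℕ} {C : SLC n} {D : Dg C} {tw : Bool}

section
variable {G₁ G₂ G₃ : Type u} [Group G₁] [Group G₂] [Group G₃] (X₁ : GD D tw G₁) (X₂ : GD D tw G₂)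
  (X₃ : GD D tw G₃) (ψ : G₁ →* G₂) (ψ' : G₂ →* G₃)

/-- Exactness with a given permutation of the orbits. -/
def PE (π : Equiv.Perm D.Orb) : Prop := ∃ g ∈ Eg (C.adS X₂.K) (D.sgl X₂.θ),
  Exact D (GU.sys C X₁.K) (D.sig X₁.θ) X₂.θ (X₁.Psi X₂ ψ) g π

include X₁ in
theorem center_map (hn : 0 < n) (hψ : Function.Injective ψ) (z : G₁)
    (hz : z ∈ Subgroup.center G₁) : X₂.p (ψ z) = 1 := by
  obtain ⟨y, hy⟩ := X₁.surj z
  refine X₁.cent X₂ ψ hn hψ (X₂.p (ψ z)) ?_ fun x => ?_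
  · rw [← hy, ← GD.Psi_apply]
    exact X₁.Psi_Gad X₂ ψ y
  · rw [GD.Psi_apply, ← map_mul, ← map_mul, ← map_mul, ← map_mul,
      Subgroup.mem_center_iff.mp hz (X₁.f x)]

theorem Psi_mem_Eg (x : EE D X₁.K X₁.θ) :
    X₁.Psi X₂ ψ x ∈ Eg (C.adS X₂.K) (D.sgl X₂.θ) := by
  obtain ⟨y, hy⟩ := X₂.surj (ψ (X₁.f x))
  rw [GD.Psi_apply, ← hy, X₂.hp]
  exact (pa_Eg D X₂.θ _).mpr ⟨y, y.2, rfl⟩

/-- Equality in the adjoint group gives equality up to the centre. -/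
theorem eq_mul_center (hn : 0 < n) (x : EE D X₁.K X₁.θ) (y : EE D X₂.K X₂.θ)
    (h : X₁.Psi X₂ ψ x = pa C X₂.K y) : ∃ z ∈ Subgroup.center G₂, ψ (X₁.f x) = X₂.f y * z := by
  refine ⟨(X₂.f y)⁻¹ * ψ (X₁.f x), ?_, by group⟩
  rw [← X₂.center_iff hn, map_mul, map_inv, X₂.hp, ← GD.Psi_apply, h, inv_mul_cancel]

theorem Psi_comp (hn : 0 < n) (hψ' : Function.Injective ψ') (x : EE D X₁.K X₁.θ)
    (y : EE D X₂.K X₂.θ) (h : X₁.Psi X₂ ψ x = pa C X₂.K y) :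
    X₁.Psi X₃ (ψ'.comp ψ) x = X₂.Psi X₃ ψ' y := by
  obtain ⟨z, hz, hxy⟩ := eq_mul_center X₁ X₂ ψ hn x y h
  rw [GD.Psi_apply, GD.Psi_apply, MonoidHom.comp_apply, hxy, map_mul, map_mul,
    center_map X₂ X₃ ψ' hn hψ' z hz, mul_one]

private theorem E6_step (hn : 0 < n) (hψ' : Function.Injective ψ') (g : GL C.Idx X₂.K)
    (γ : EE D X₂.K X₂.θ) (hγ : pa C X₂.K γ = g) (g' : GL C.Idx X₃.K) (β' β'' : C.Root)
    (x : EE D X₁.K X₁.θ)
    (h1 : g⁻¹ * X₁.Psi X₂ ψ x * g ∈ fixX D (C.adS X₂.K) (D.sgl X₂.θ) β')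
    (h2 : ∀ y : EE D X₂.K X₂.θ, (y : GU C X₂.K) ∈ fixX D (GU.sys C X₂.K) (D.sig X₂.θ) β' →
      g'⁻¹ * X₂.Psi X₃ ψ' y * g' ∈ fixX D (C.adS X₃.K) (D.sgl X₃.θ) β'') :
    (X₂.Psi X₃ ψ' γ * g')⁻¹ * X₁.Psi X₃ (ψ'.comp ψ) x * (X₂.Psi X₃ ψ' γ * g') ∈
      fixX D (C.adS X₃.K) (D.sgl X₃.θ) β'' := by
  obtain ⟨v, hv, hvx⟩ := (pa_fixX D X₂.θ β' _).mp h1
  have hvE := fixX_mem_EE D X₂.θ β' v hv
  have hx : X₁.Psi X₂ ψ x = pa C X₂.K (γ * ⟨v, hvE⟩ * γ⁻¹ : EE D X₂.K X₂.θ) := by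
    have e : ((γ * ⟨v, hvE⟩ * γ⁻¹ : EE D X₂.K X₂.θ) : GU C X₂.K) = γ * v * (γ : GU C X₂.K)⁻¹ := rfl
    rw [e, map_mul, map_mul, map_inv, hvx, hγ]
    group
  rw [Psi_comp X₁ X₂ X₃ ψ ψ' hn hψ' x _ hx, map_mul, map_mul, map_inv]
  have h3 := h2 ⟨v, hvE⟩ hv
  have e : (X₂.Psi X₃ ψ' γ * g')⁻¹ *
      (X₂.Psi X₃ ψ' γ * X₂.Psi X₃ ψ' ⟨v, hvE⟩ * (X₂.Psi X₃ ψ' γ)⁻¹) *
      (X₂.Psi X₃ ψ' γ * g') = g'⁻¹ * X₂.Psi X₃ ψ' ⟨v, hvE⟩ * g' := by
    group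
  rw [e]
  exact h3

theorem PE_comp (hn : 0 < n) (hψ : Function.Injective ψ) (hψ' : Function.Injective ψ')
    (π π' : Equiv.Perm D.Orb) (h : PE X₁ X₂ ψ π) (h' : PE X₂ X₃ ψ' π') :
    PE X₁ X₃ (ψ'.comp ψ) (π' * π) := by
  obtain ⟨g, hg, hE⟩ := h
  obtain ⟨g', hg', hE'⟩ := h'
  obtain ⟨γ, hγ, hγg⟩ := (pa_Eg D X₂.θ g).mp hg
  refine ⟨X₂.Psi X₃ ψ' ⟨γ, hγ⟩ * g', mul_mem (Psi_mem_Eg X₂ X₃ ψ' _) hg', ?_⟩
  intro i i'' hi
  have hout : (Quotient.mk _ (π (Quotient.mk _ i : D.Orb)).out : D.Orb) =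
      π (Quotient.mk _ i) := Quotient.out_eq _
  have h1 := hE i (π (Quotient.mk _ i : D.Orb)).out hout
  have h2 := hE' (π (Quotient.mk _ i : D.Orb)).out i'' (by
    rw [hout, hi]; rfl)
  refine ⟨fun x hx => ?_, fun x hx => ?_⟩
  · exact E6_step X₁ X₂ X₃ ψ ψ' hn hψ' g ⟨γ, hγ⟩ hγg g' _ _ x (h1.1 x hx) h2.1
  · exact E6_step X₁ X₂ X₃ ψ ψ' hn hψ' g ⟨γ, hγ⟩ hγg g' _ _ x (h1.2 x hx) h2.2

end

end Pool.Agent.H75.UL
end
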