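import Pool.Agent.H86.AL.M04
import Pool.Agent.H86.AL.M16
import Pool.Agent.H86.AL.M21
import Pool.Agent.H86.AL.M22

/-!
# M32: collected modules

Pool.Agent.H75.UE.L3
Pool.Agent.H75.US.S7
Pool.Agent.H75.US.S8
Pool.Agent.H86.UM.Z4n
Pool.Agent.H86.UM.ZC
-/

section
/- module Pool.Agent.H75.UE.L3 -/
/-!
# Project UE, module L3: the limit

`exists_limit_field` gives `KK`, `p i`, `θθ`. Let `F i j : K i →+* K j` be the transition maps (recursion, as
`C3_f`), commuting with `θ`. `Kd D tw θθ`: `Kd.limit` (`h1` from joint surjectivity).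
(1) Every `x ∈ EE D KK θθ` is `GU.map (p i) y` for some `i` and `y ∈ EE D (K i) (θ i)`: the set of such `x` is a
subgroup (transport to a common stage by `map_mem_EE`); for `x ∈ fixU`: `x = lp posList t` (`exists_lp`), all
`t β` come from a stage `i`: `x = GU.map (p i) y`, `y = lp posList t' ∈ U 1`, and `GU.map (p i) (sig y) =
sig x = x = GU.map (p i) y` (`GU_map_sig`), so `pa` of both sides and `pa_map`, `mp_injective` give
`pa (sig y) = pa y`, `sig y = y` (`pa_injOn_U`, `map_U`); the same for `Um`.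
(2) If `y, y' ∈ EE D (K i) (θ i)`, `GU.map (p i) y = GU.map (p i) y'` then `f i y = f i y'` in `G`: by `GU_lim`
`GU.map (F i j) y = GU.map (F i j) y'` for some `j ≥ i`, and `(f j (GU.map (F i j) y) : G) = f i y` (`hcomp`
iterated). So `FF : EE D KK θθ →* G`, `FF (GU.map (p i) y) = f i y`, is well defined and a homomorphism.
(3) surjective: `hG`, `hf`. (4) If `FF x = 1`, `x = GU.map (p i) y`, then `f j (y_j) = 1` for all `j ≥ i`
(`y_j` the image of `y`), so `y_j` is central in `EE D (K j) (θ j)` and commutes with the images of all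
`z ∈ EE D KK θθ` defined at stage `j`; so `x` is central.
-/

set_option autoImplicit false
open Matrix
universe u
namespace Pool.Agent.H75.UL

open Pool.Agent.H86.UM

variable {n : ℕ} {C : SLC n} {D : Dg C} {tw : Bool}

/-- the transition maps -/
private noncomputable def L3_f (K : ℕ → Type u) [∀ i, Field (K i)] (σ : ∀ i, K i →+* K (i + 1))
    (i j : ℕ) (h : i ≤ j) : K i →+* K j :=
  Nat.leRecOn (C := fun k => K i →+* K k) h (fun {k} g => (σ k).comp g) (RingHom.id _)

private theorem L3_f_self (K : ℕ → Type u) [∀ i, Field (K i)] (σ : ∀ i, K i →+* K (i + 1))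
    (i : ℕ) (h : i ≤ i) : L3_f K σ i i h = RingHom.id _ := by
  unfold L3_f
  exact Nat.leRecOn_self _

private theorem L3_f_succ (K : ℕ → Type u) [∀ i, Field (K i)] (σ : ∀ i, K i →+* K (i + 1))
    (i j : ℕ) (h : i ≤ j) (h' : i ≤ j + 1) :
    L3_f K σ i (j + 1) h' = (σ j).comp (L3_f K σ i j h) := by
  unfold L3_f
  exact Nat.leRecOn_succ h _

private theorem L3_f_theta (K : ℕ → Type u) [∀ i, Field (K i)] (σ : ∀ i, K i →+* K (i + 1))
    (θ : ∀ i, K i ≃+* K i) (hσ : ∀ i t, σ i (θ i t) = θ (i + 1) (σ i t))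
    (i j : ℕ) (h : i ≤ j) (t : K i) : L3_f K σ i j h (θ i t) = θ j (L3_f K σ i j h t) := by
  induction j, h using Nat.le_induction with
  | base => rw [L3_f_self]; rfl
  | succ j hj ih =>
    rw [L3_f_succ K σ i j hj, RingHom.comp_apply, RingHom.comp_apply, ih, hσ]

private theorem L3_map_id (K : Type u) [Field K] (y : GU C K) :
    GU.map (RingHom.id K) y = y := by
  have h1 : GU.map (C := C) (RingHom.id K) = MonoidHom.id _ := by
    apply GU.hom_ext
    intro β t
    rw [GU.map_x]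
    rfl
  rw [h1]
  rfl

private theorem L3_map_comp {K K' K'' : Type u} [Field K] [Field K'] [Field K'']
    (f : K →+* K') (g : K' →+* K'') (g' : K →+* K'') (h : ∀ t, g (f t) = g' t) (y : GU C K) :
    GU.map g (GU.map f y) = GU.map g' y := by
  have h1 : (GU.map (C := C) g).comp (GU.map f) = GU.map g' := by
    apply GU.hom_ext
    intro β t
    rw [MonoidHom.comp_apply, GU.map_x, GU.map_x, GU.map_x, h]
  exact congrArg (fun f : GU C K →* GU C K'' => f y) h1

private theorem L3_map_lp {K K' : Type u} [Field K] [Field K'] (φ : K →+* K')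
    (l : List C.Root) (t : C.Root → K) :
    GU.map φ ((GU.sys C K).lp l t) = (GU.sys C K').lp l (fun β => φ (t β)) := by
  unfold StSys.lp
  rw [map_list_prod, List.map_map]
  refine congrArg List.prod (List.map_congr_left fun β _ => ?_)
  exact GU.map_x φ β (t β)

private theorem L3_map_nlp {K K' : Type u} [Field K] [Field K'] (φ : K →+* K')
    (l : List C.Root) (t : C.Root → K) :
    GU.map φ ((GU.sys C K).neg.lp l t) = (GU.sys C K').neg.lp l (fun β => φ (t β)) := by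
  unfold StSys.lp
  rw [map_list_prod, List.map_map]
  refine congrArg List.prod (List.map_congr_left fun β _ => ?_)
  exact GU.map_x φ (-β) (t β)

private theorem L3_fix {K K' : Type u} [Field K] [Field K'] (θ : K ≃+* K) (θ' : K' ≃+* K')
    (φ : K →+* K') (h : ∀ t, φ (θ t) = θ' (φ t)) (y : GU C K) (hy : y ∈ (GU.sys C K).U 1)
    (hx : D.sig θ' (GU.map φ y) = GU.map φ y) : D.sig θ y = y := by
  apply pa_injOn_U _ _ ((isSig_GU D θ).map_U 1 y hy) hy
  apply C.mp_injective φ φ.injective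
  rw [← pa_map, ← pa_map, GU_map_sig D θ θ' φ h, hx]

private theorem L3_fixm {K K' : Type u} [Field K] [Field K'] (θ : K ≃+* K) (θ' : K' ≃+* K')
    (φ : K →+* K') (h : ∀ t, φ (θ t) = θ' (φ t)) (y : GU C K) (hy : y ∈ (GU.sys C K).Um)
    (hx : D.sig θ' (GU.map φ y) = GU.map φ y) : D.sig θ y = y := by
  apply pa_injOn_Um _ _ ((isSig_GU D θ).map_Um y hy) hy
  apply C.mp_injective φ φ.injective
  rw [← pa_map, ← pa_map, GU_map_sig D θ θ' φ h, hx]

/-- finitely many elements of the limit come from a common stage -/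
private theorem L3_stage (K : ℕ → Type u) [∀ i, Field (K i)] (φ : ∀ i, K i →+* K (i + 1))
    {KK : Type u} [Field KK] (p : ∀ i, K i →+* KK) (hp : ∀ i t, p (i + 1) (φ i t) = p i t)
    (hps : ∀ x, ∃ i y, p i y = x) {ι : Type*} [Finite ι] (t : ι → KK) :
    ∃ i, ∃ t' : ι → K i, ∀ β, p i (t' β) = t β := by
  have htr : ∀ i j (_ : i ≤ j) (y : K i), ∃ y' : K j, p j y' = p i y := by
    intro i j hij y
    induction j, hij using Nat.le_induction with
    | base => exact ⟨y, rfl⟩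
    | succ j _ ih =>
      obtain ⟨y', h1⟩ := ih
      exact ⟨φ j y', (hp j y').trans h1⟩
  choose ii yy hyy using fun β => hps (t β)
  obtain ⟨M, hM⟩ := (Set.finite_range ii).bddAbove
  have h1 : ∀ β, ∃ y' : K M, p M y' = t β := by
    intro β
    obtain ⟨y', hy'⟩ := htr (ii β) M (hM ⟨β, rfl⟩) (yy β)
    exact ⟨y', hy'.trans (hyy β)⟩
  choose t' ht' using h1
  exact ⟨M, t', ht'⟩

theorem limitE {G : Type u} [Group G] (H : ℕ → Subgroup G) (hH : ∀ i, H i ≤ H (i + 1))
    (hG : ∀ g : G, ∃ i, g ∈ H i) (K : ℕ → Type u) [∀ i, Field (K i)] (θ : ∀ i, K i ≃+* K i)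
    (hk : ∀ i, Kd D tw (θ i)) (φ : ∀ i, K i →+* K (i + 1))
    (hφ : ∀ i t, φ i (θ i t) = θ (i + 1) (φ i t))
    (f : ∀ i, EE D (K i) (θ i) →* H i) (hf : ∀ i, Function.Surjective (f i))
    (hker : ∀ i, (f i).ker ≤ Subgroup.center (EE D (K i) (θ i)))
    (hcomp : ∀ i x, Subgroup.inclusion (hH i) (f i x) =
      f (i + 1) (emap D (θ i) (θ (i + 1)) (φ i) (hφ i) x)) : IsE D tw G := by
  obtain ⟨KK, hKK, p, θθ, hp, hps, hθθ⟩ := exists_limit_field K θ φ hφ
  have hpθ : ∀ i t, p i (θ i t) = θθ (p i t) := fun i t => (hθθ i t).symm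
  have hkd : Kd D tw θθ := by
    refine Kd.limit D (hk 0) θθ (p 0) (hpθ 0) ?_
    intro t'
    obtain ⟨i, t, ht⟩ := hps t'
    exact ⟨K i, inferInstance, θ i, p i, t, hk i, hpθ i, ht⟩
  -- the maps from the stages
  set e : ∀ i, EE D (K i) (θ i) →* EE D KK θθ := fun i => emap D (θ i) θθ (p i) (hpθ i) with he
  have heval : ∀ i y, (e i y : GU C KK) = GU.map (p i) (y : GU C (K i)) := fun i y => rfl
  have hstep : ∀ i (y : EE D (K i) (θ i)),
      e (i + 1) (emap D (θ i) (θ (i + 1)) (φ i) (hφ i) y) = e i y := by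
    intro i y
    apply Subtype.ext
    rw [heval, heval, emap_val]
    exact L3_map_comp (φ i) (p (i + 1)) (p i) (hp i) y.1
  have hcG : ∀ i (y : EE D (K i) (θ i)),
      ((f (i + 1) (emap D (θ i) (θ (i + 1)) (φ i) (hφ i) y) : H (i + 1)) : G) =
        ((f i y : H i) : G) := by
    intro i y
    rw [← hcomp i y]
    rfl
  have htrE : ∀ i j (_ : i ≤ j) (y : EE D (K i) (θ i)), ∃ y' : EE D (K j) (θ j),
      e j y' = e i y ∧ ((f j y' : H j) : G) = ((f i y : H i) : G) := by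
    intro i j hij y
    induction j, hij using Nat.le_induction with
    | base => exact ⟨y, rfl, rfl⟩
    | succ j _ ih =>
      obtain ⟨y', h1, h2⟩ := ih
      exact ⟨emap D (θ j) (θ (j + 1)) (φ j) (hφ j) y', (hstep j y').trans h1,
        (hcG j y').trans h2⟩
  -- the homomorphisms along the transition maps
  have hFθ := L3_f_theta K φ θ hφ
  have hfF : ∀ i j (h : i ≤ j) (y : EE D (K i) (θ i)),
      ((f j (emap D (θ i) (θ j) (L3_f K φ i j h) (hFθ i j h) y) : H j) : G) =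
        ((f i y : H i) : G) := by
    intro i j h y
    induction j, h using Nat.le_induction with
    | base =>
      congr 2
      apply Subtype.ext
      rw [emap_val, L3_f_self]
      exact L3_map_id (K i) y.1
    | succ j hj ih =>
      rw [← ih, ← hcG j]
      congr 2
      apply Subtype.ext
      rw [emap_val, emap_val, emap_val]
      refine (L3_map_comp _ _ _ (fun t => ?_) _).symm
      rw [L3_f_succ K φ i j hj]
      rfl
  have hinj : ∀ i (y : EE D (K i) (θ i)), e i y = 1 → ((f i y : H i) : G) = 1 := by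
    intro i y hy
    have h1 : GU.map (p i) (y : GU C (K i)) = 1 := by
      rw [← heval, hy]
      rfl
    obtain ⟨j, hij, h2⟩ := GU_lim K φ KK p hp hps (L3_f K φ)
      (fun i t => by rw [L3_f_self]; rfl)
      (fun i j h t => by rw [L3_f_succ K φ i j h]; rfl) i y.1 h1
    rw [← hfF i j hij y]
    have h3 : emap D (θ i) (θ j) (L3_f K φ i j hij) (hFθ i j hij) y = 1 := by
      apply Subtype.ext
      rw [emap_val, h2]
      rfl
    rw [h3, map_one]
    rfl
  have hwd : ∀ i j (y : EE D (K i) (θ i)) (y' : EE D (K j) (θ j)), e i y = e j y' →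
      ((f i y : H i) : G) = ((f j y' : H j) : G) := by
    intro i j y y' h
    obtain ⟨y1, h1, h2⟩ := htrE i (max i j) (le_max_left _ _) y
    obtain ⟨y2, h3, h4⟩ := htrE j (max i j) (le_max_right _ _) y'
    have h5 : e (max i j) (y1⁻¹ * y2) = 1 := by
      rw [map_mul, map_inv, h1, h3, h, inv_mul_cancel]
    have h6 := hinj _ _ h5
    rw [map_mul, map_inv, Subgroup.coe_mul, Subgroup.coe_inv, inv_mul_eq_one] at h6
    rw [← h2, ← h4, h6]
  -- every element comes from a stage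
  have hsurj : ∀ x : EE D KK θθ, ∃ i, ∃ y : EE D (K i) (θ i), e i y = x := by
    let S : Subgroup (GU C KK) :=
      { carrier := {x | ∃ i, ∃ y : EE D (K i) (θ i), (e i y : GU C KK) = x}
        one_mem' := ⟨0, 1, by rw [map_one]; rfl⟩
        mul_mem' := by
          rintro a b ⟨i, y, rfl⟩ ⟨j, z, rfl⟩
          obtain ⟨y1, h1, -⟩ := htrE i (max i j) (le_max_left _ _) y
          obtain ⟨z1, h2, -⟩ := htrE j (max i j) (le_max_right _ _) z
          exact ⟨max i j, y1 * z1, by rw [map_mul, h1, h2]; rfl⟩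
        inv_mem' := by
          rintro a ⟨i, y, rfl⟩
          exact ⟨i, y⁻¹, by rw [map_inv]; rfl⟩ }
    have h1 : EE D KK θθ ≤ S := by
      refine sup_le ?_ ?_
      · rintro u ⟨hu, hs⟩
        have hs' : D.sig θθ u = u := hs
        obtain ⟨t, ht0, rfl⟩ := (GU.sys C KK).exists_lp 1 le_rfl u hu
        obtain ⟨i, t', ht'⟩ := L3_stage K φ p hp hps t
        have h2 : GU.map (p i) ((GU.sys C (K i)).lp C.posList t') =
            (GU.sys C KK).lp C.posList t := by
          rw [L3_map_lp]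
          congr 1
          funext β
          exact ht' β
        have h3 : (GU.sys C (K i)).lp C.posList t' ∈ (GU.sys C (K i)).U 1 := by
          apply (GU.sys C (K i)).lp_mem 1
          intro β hβ
          have h5 := ht' β
          rw [ht0 β hβ] at h5
          exact (map_eq_zero (p i)).1 h5
        have h4 : D.sig (θ i) ((GU.sys C (K i)).lp C.posList t') =
            (GU.sys C (K i)).lp C.posList t' := by
          apply L3_fix (θ i) θθ (p i) (hpθ i) _ h3
          rw [h2, hs']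
        exact ⟨i, ⟨_, (le_sup_left : fixU (GU.sys C (K i)) (D.sig (θ i)) ≤ _) ⟨h3, h4⟩⟩, h2⟩
      · rintro u ⟨hu, hs⟩
        have hs' : D.sig θθ u = u := hs
        have hu' : u ∈ (GU.sys C KK).neg.U 1 := by
          rw [StSys.neg_U]
          exact hu
        obtain ⟨t, ht0, rfl⟩ := (GU.sys C KK).neg.exists_lp 1 le_rfl u hu'
        obtain ⟨i, t', ht'⟩ := L3_stage K φ p hp hps t
        have h2 : GU.map (p i) ((GU.sys C (K i)).neg.lp C.posList t') =
            (GU.sys C KK).neg.lp C.posList t := by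
          rw [L3_map_nlp]
          congr 1
          funext β
          exact ht' β
        have h3 : (GU.sys C (K i)).neg.lp C.posList t' ∈ (GU.sys C (K i)).Um := by
          rw [← StSys.neg_U]
          apply (GU.sys C (K i)).neg.lp_mem 1
          intro β hβ
          have h5 := ht' β
          rw [ht0 β hβ] at h5
          exact (map_eq_zero (p i)).1 h5
        have h4 : D.sig (θ i) ((GU.sys C (K i)).neg.lp C.posList t') =
            (GU.sys C (K i)).neg.lp C.posList t' := by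
          apply L3_fixm (θ i) θθ (p i) (hpθ i) _ h3
          rw [h2, hs']
        exact ⟨i, ⟨_, (le_sup_right : fixUm (GU.sys C (K i)) (D.sig (θ i)) ≤ _) ⟨h3, h4⟩⟩, h2⟩
    intro x
    obtain ⟨i, y, hy⟩ := h1 x.2
    exact ⟨i, y, Subtype.ext hy⟩
  choose ii yy hyy using hsurj
  have hFF : ∀ i (y : EE D (K i) (θ i)),
      ((f (ii (e i y)) (yy (e i y)) : H (ii (e i y))) : G) = ((f i y : H i) : G) :=
    fun i y => hwd _ _ _ _ (hyy (e i y))
  let FF : EE D KK θθ →* G := MonoidHom.mk' (fun x => ((f (ii x) (yy x) : H (ii x)) : G)) (by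
    intro a b
    obtain ⟨y1, h1, -⟩ := htrE (ii a) (max (ii a) (ii b)) (le_max_left _ _) (yy a)
    obtain ⟨y2, h2, -⟩ := htrE (ii b) (max (ii a) (ii b)) (le_max_right _ _) (yy b)
    have ha : e _ y1 = a := h1.trans (hyy a)
    have hb : e _ y2 = b := h2.trans (hyy b)
    have hab : e _ (y1 * y2) = a * b := by rw [map_mul, ha, hb]
    have e1 := hFF _ y1
    have e2 := hFF _ y2
    have e3 := hFF _ (y1 * y2)
    rw [ha] at e1
    rw [hb] at e2
    rw [hab] at e3
    rw [e1, e2, e3, map_mul]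
    rfl)
  have hFFe : ∀ i (y : EE D (K i) (θ i)), FF (e i y) = ((f i y : H i) : G) := hFF
  refine ⟨KK, hKK, θθ, hkd, FF, ?_, ?_⟩
  · intro g
    obtain ⟨i, hi⟩ := hG g
    obtain ⟨y, hy⟩ := hf i ⟨g, hi⟩
    exact ⟨e i y, by rw [hFFe, hy]⟩
  · intro x hx
    rw [MonoidHom.mem_ker] at hx
    rw [Subgroup.mem_center_iff]
    intro z
    obtain ⟨x1, h1, -⟩ := htrE (ii x) (max (ii x) (ii z)) (le_max_left _ _) (yy x)
    obtain ⟨z1, h2, -⟩ := htrE (ii z) (max (ii x) (ii z)) (le_max_right _ _) (yy z)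
    have hx' : e _ x1 = x := h1.trans (hyy x)
    have hz' : e _ z1 = z := h2.trans (hyy z)
    have h3 : f _ x1 = 1 := by
      apply Subtype.ext
      rw [← hFFe, hx', hx]
      rfl
    have h4 := hker _ ((MonoidHom.mem_ker).2 h3)
    rw [Subgroup.mem_center_iff] at h4
    have h5 := congrArg (e (max (ii x) (ii z))) (h4 z1)
    rw [map_mul, map_mul, hx', hz'] at h5
    exact h5

end Pool.Agent.H75.UL
end

section
/- module Pool.Agent.H75.US.S7 -/
/-!
# Project US, module S7: the universal and the adjoint folded groups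

`pa_yp`: `yp C ρ j t` is the product of the `x_(simple (ρ^l j)) (t)`, `l < mo D (simple j)` (`D.ρ j = j` iff
`D.r (simple j) = simple j`: `r_simple`; `D.m = orderOf D.ρ`), and `yb` the product of the `s^l (xg (simple j) t) =
xg (D.r^[l] (simple j)) (sgp.. * t)` (`IsSig.iter`, `r_iter_simple`, `sg_simple`); `GU.lift_x`. `yp_mem`: as in
`yb_mem` (Z0.lean; `prod_x_mem`, `sg_fix`). `exists_paE`: `pa` maps `EE D K refl` onto `GF D K` (`pa_Eg` in
H75/UE/E1) and is injective there (`hT.inj`). `paE_U`: `x ∈ EE`, `pa x ∈ fixU`: `pa_fixU` gives `v ∈ fixU` with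
`pa v = pa x`, `v ∈ EE`, so `x = v` (injectivity).
-/

set_option autoImplicit false
open Matrix
universe u
namespace Pool.Agent.H75.UL

open Pool.Agent.H86 Pool.Agent.H86.UM

variable {n : ℕ} {C : SLC n} {D : Dg C} {t0 : Fin n → Fin n}

private theorem S7_iter {K : Type*} [Field K] {H : Type*} [Group H] {S : StSys C K H} {s : H →* H}
    (h : IsSig D (RingEquiv.refl K) S s) (l : ℕ) (j : Fin n) (t : K) :
    s^[l] (S.x (C.simple j) t) = S.x (C.simple ((D.ρ ^ l) j)) t := by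
  induction l with
  | zero => simp
  | succ l ih =>
    rw [Function.iterate_succ_apply', ih, h, D.r_simple, D.sg_simple, pow_succ',
      Equiv.Perm.mul_apply]
    simp

private theorem S7_iter_neg {K : Type*} [Field K] {H : Type*} [Group H] {S : StSys C K H}
    {s : H →* H} (h : IsSig D (RingEquiv.refl K) S s) (l : ℕ) (j : Fin n) (t : K) :
    s^[l] (S.x (-(C.simple j)) t) = S.x (-(C.simple ((D.ρ ^ l) j))) t := by
  induction l with
  | zero => simp
  | succ l ih =>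
    rw [Function.iterate_succ_apply', ih, h, D.r_neg, D.sg_neg, D.r_simple, D.sg_simple, pow_succ',
      Equiv.Perm.mul_apply]
    simp

private theorem S7_mo (D : Dg C) (j : Fin n) :
    mo D (C.simple j) = if D.ρ j = j then 1 else orderOf D.ρ := by
  have h1 : D.r (C.simple j) = C.simple j ↔ D.ρ j = j := by
    rw [D.r_simple]
    constructor
    · intro h
      by_contra hne
      have h2 := congrArg (fun β : C.Root => β.1 j) h
      simp only [SLC.simple] at h2
      rw [Pi.single_eq_of_ne (fun h3 => hne h3.symm), Pi.single_eq_same] at h2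
      exact absurd h2 (by norm_num)
    · intro h
      rw [h]
  unfold mo
  by_cases h : D.ρ j = j
  · rw [if_pos (h1.2 h), if_pos h]
  · rw [if_neg (fun h2 => h (h1.1 h2)), if_neg h]
    rfl

private theorem S7_mo_neg (D : Dg C) (j : Fin n) :
    mo D (-(C.simple j)) = if D.ρ j = j then 1 else orderOf D.ρ := by
  rw [← S7_mo]
  have h1 : D.r (-(C.simple j)) = -(C.simple j) ↔ D.r (C.simple j) = C.simple j := by
    rw [D.r_neg]
    constructor
    · intro h
      rw [← C.neg_neg_root (D.r (C.simple j)), h, C.neg_neg_root]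
    · intro h
      rw [h]
  unfold mo
  by_cases h : D.r (C.simple j) = C.simple j
  · rw [if_pos (h1.2 h), if_pos h]
  · rw [if_neg (fun h2 => h (h1.1 h2)), if_neg h]

private theorem S7_yb {K : Type*} [Field K] {H : Type*} [Group H] {S : StSys C K H} {s : H →* H}
    (h : IsSig D (RingEquiv.refl K) S s) (j : Fin n) (t : K) :
    yb D S s (C.simple j) t =
      ((List.range (if D.ρ j = j then 1 else orderOf D.ρ)).map fun l =>
        S.x (C.simple ((D.ρ ^ l) j)) t).prod := by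
  unfold yb
  rw [S7_mo]
  congr 1
  apply List.map_congr_left
  intro l _
  exact S7_iter h l j t

private theorem S7_yb_neg {K : Type*} [Field K] {H : Type*} [Group H] {S : StSys C K H}
    {s : H →* H} (h : IsSig D (RingEquiv.refl K) S s) (j : Fin n) (t : K) :
    yb D S s (-(C.simple j)) t =
      ((List.range (if D.ρ j = j then 1 else orderOf D.ρ)).map fun l =>
        S.x (-(C.simple ((D.ρ ^ l) j))) t).prod := by
  unfold yb
  rw [S7_mo_neg]
  congr 1
  apply List.map_congr_left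
  intro l _
  exact S7_iter_neg h l j t

private theorem S7_yb_mem {K : Type*} [Field K] {H : Type*} [Group H] {S : StSys C K H}
    {s : H →* H} (hN : D.NA) (hs : IsSig D (RingEquiv.refl K) S s) (β : C.Root) (t : K) :
    yb D S s β t ∈ Eg S s := by
  by_cases h : D.r β = β
  · have e : yb D S s β t = S.x β t := by
      unfold yb mo
      rw [if_pos h]
      simp
    have hf : s (S.x β t) = S.x β t := by
      rw [hs β t, h, D.sg_fix hN β h]
      simp
    rw [e]
    by_cases hp : C.Pos β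
    · refine (le_sup_left : fixU _ _ ≤ _) ⟨Subgroup.subset_closure ⟨β, t, ?_, rfl⟩, hf⟩
      unfold SLC.Pos at hp
      omega
    · refine (le_sup_right : fixUm _ _ ≤ _) ⟨Subgroup.subset_closure ⟨β, t, ?_, rfl⟩, hf⟩
      have := C.ht_ne_zero β
      unfold SLC.Pos at hp
      omega
  · have h1 := prod_x_mem hs (fun t => by simp [Function.iterate_fixed]) β h
      (D.ip_r_NA hN β h) t
    unfold yb mo
    rw [if_neg h]
    exact h1

private theorem S7_yp (D : Dg C) {K : Type u} [Field K] (j : Fin n) (t : K) :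
    LT.yp C D.ρ j t = yb D (GU.sys C K) (D.sig (RingEquiv.refl K)) (C.simple j) t := by
  rw [S7_yb (isSig_GU D (RingEquiv.refl K))]
  rfl

private theorem S7_ym (D : Dg C) {K : Type u} [Field K] (j : Fin n) (t : K) :
    LT.ym C D.ρ j t = yb D (GU.sys C K) (D.sig (RingEquiv.refl K)) (-(C.simple j)) t := by
  rw [S7_yb_neg (isSig_GU D (RingEquiv.refl K))]
  rfl

theorem pa_yp (hN : D.NA) {K : Type u} [Field K] (j : Fin n) (t : K) :
    pa C K (LT.yp C D.ρ j t) = yb D (C.adS K) (D.sgl (RingEquiv.refl K)) (C.simple j) t ∧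
    pa C K (LT.ym C D.ρ j t) = yb D (C.adS K) (D.sgl (RingEquiv.refl K)) (-(C.simple j)) t := by
  have hs : IsSig D (RingEquiv.refl K) (C.adS K) (D.sgl (RingEquiv.refl K)) := isSig_adS D _
  refine ⟨?_, ?_⟩
  · rw [S7_yb hs]
    unfold LT.yp
    rw [map_list_prod, List.map_map]
    congr 1
    apply List.map_congr_left
    intro l _
    exact GU.lift_x _ _ _
  · rw [S7_yb_neg hs]
    unfold LT.ym
    rw [map_list_prod, List.map_map]
    congr 1
    apply List.map_congr_left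
    intro l _
    exact GU.lift_x _ _ _

theorem yp_mem (hN : D.NA) {K : Type u} [Field K] (j : Fin n) (t : K) :
    LT.yp C D.ρ j t ∈ EE D K (RingEquiv.refl K) ∧ LT.ym C D.ρ j t ∈ EE D K (RingEquiv.refl K) := by
  rw [S7_yp, S7_ym]
  exact ⟨S7_yb_mem hN (isSig_GU D _) _ t, S7_yb_mem hN (isSig_GU D _) _ t⟩

private theorem S7_inj (hT : SRT.{u} D t0) {K : Type u} [Field K] (hK : CharP K D.m)
    (x y : GU C K) (hx : x ∈ EE D K (RingEquiv.refl K)) (hy : y ∈ EE D K (RingEquiv.refl K))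
    (h : pa C K x = pa C K y) : x = y := by
  have h1 : x * y⁻¹ = 1 := by
    apply hT.inj K hK _ (mul_mem hx (inv_mem hy))
    rw [map_mul, map_inv, h, mul_inv_cancel]
  exact mul_inv_eq_one.mp h1

theorem exists_paE (hT : SRT.{u} D t0) {K : Type u} [Field K] (hK : CharP K D.m) :
    ∃ e : EE D K (RingEquiv.refl K) ≃* GF D K,
      ∀ x : EE D K (RingEquiv.refl K), (e x : GL C.Idx K) = pa C K (x : GU C K) := by
  let f : EE D K (RingEquiv.refl K) →* GF D K :=
    ((pa C K).comp (EE D K (RingEquiv.refl K)).subtype).codRestrict (GF D K)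
      (fun x => (pa_Eg D (RingEquiv.refl K) _).2 ⟨x, x.2, rfl⟩)
  have hf : ∀ x : EE D K (RingEquiv.refl K), (f x : GL C.Idx K) = pa C K (x : GU C K) :=
    fun x => rfl
  have hb : Function.Bijective f := by
    constructor
    · intro x y hxy
      apply Subtype.ext
      apply S7_inj hT hK _ _ x.2 y.2
      rw [← hf, ← hf, hxy]
    · rintro ⟨y, hy⟩
      obtain ⟨v, hv, rfl⟩ := (pa_Eg D (RingEquiv.refl K) y).1 hy
      exact ⟨⟨v, hv⟩, Subtype.ext (hf _)⟩
  exact ⟨MulEquiv.ofBijective f hb, hf⟩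

private theorem S7_Up (K : Type u) [Field K] : LT.Up C K = (GU.sys C K).U 1 := by
  unfold LT.Up StSys.U
  congr 1

private theorem S7_Um (K : Type u) [Field K] : LT.Um C K = (GU.sys C K).Um := by
  unfold LT.Um StSys.Um
  congr 1

theorem paE_U (hT : SRT.{u} D t0) {K : Type u} [Field K] (hK : CharP K D.m)
    (x : GU C K) (hx : x ∈ EE D K (RingEquiv.refl K)) :
    (pa C K x ∈ fixU (C.adS K) (D.sgl (RingEquiv.refl K)) ↔ x ∈ LT.Up C K) ∧
    (pa C K x ∈ fixUm (C.adS K) (D.sgl (RingEquiv.refl K)) ↔ x ∈ LT.Um C K) := by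
  have hfix : D.sig (RingEquiv.refl K) x = x := Eg_le_fix _ _ _ hx
  refine ⟨?_, ?_⟩
  · rw [pa_fixU, S7_Up]
    constructor
    · rintro ⟨v, hv, h⟩
      have h1 : v = x := S7_inj hT hK v x ((le_sup_left : fixU _ _ ≤ _) hv) hx h
      rw [← h1]
      exact hv.1
    · intro h
      exact ⟨x, ⟨h, hfix⟩, rfl⟩
  · rw [pa_fixUm, S7_Um]
    constructor
    · rintro ⟨v, hv, h⟩
      have h1 : v = x := S7_inj hT hK v x ((le_sup_right : fixUm _ _ ≤ _) hv) hx h
      rw [← h1]
      exact hv.1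
    · intro h
      exact ⟨x, ⟨h, hfix⟩, rfl⟩

end Pool.Agent.H75.UL
end

section
/- module Pool.Agent.H75.US.S8 -/
/-!
# Project US, module S8: the definition `IsSR` and the adjoint version `IsSRad`

`σ₀ = D.sig (RingEquiv.refl K)` (`isSigma_unique`, `isSigma_sig` in LT/Ext), `fixGroup σ₀ = EE D K refl`
(`fixGroup_sig`; transport with `MulEquiv.subgroupCongr` or `subst`). Let `e : fixGroup σ₀ ≃* GF D K` be the
isomorphism of `exists_paE`. `isSRad_of`: put `σ' = e ∘ σ ∘ e⁻¹`. `SRs.pos`: if `x = yb (simple j) t` then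
`e⁻¹ x = yp j t` (`pa_yp`, `yp_mem`, injectivity), so `σ (e⁻¹ x) = yp (t0 j) (..)` and `pa_yp` again; `th` is the
`if` in `IsSigmaEx` (`D.r (simple j) = simple j` iff `D.ρ j = j`). `e` maps `exGroup σ` onto `Esr D σ'`
(`paE_U`, `fixU`: elements of `EE` are fixed by `σ₀`, `Eg_le_fix`; the closure of a union is the supremum).
`G` is infinite, so `exGroup σ` is infinite, so `K` is infinite (`GF D K` is a subgroup of `GL`). `hT.center`: the
centre of `Esr D σ'` is trivial, so `f` is injective. `isSR_of`: put `σ = e⁻¹ ∘ σ' ∘ e`, `f` = the isomorphism.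
-/

set_option autoImplicit false
open Matrix
universe u
namespace Pool.Agent.H75.UL

open Pool.Agent.H86 Pool.Agent.H86.UM

variable {n : ℕ} {C : SLC n} {D : Dg C} {t0 : Fin n → Fin n}

private theorem S8_simple_inj {i j : Fin n} (h : C.simple i = C.simple j) : i = j := by
  have h1 := congrArg (fun β : C.Root => β.1 i) h
  change (Pi.single i (1 : ℤ) : Fin n → ℤ) i = (Pi.single j (1 : ℤ) : Fin n → ℤ) i at h1
  by_contra hij
  rw [Pi.single_eq_same, Pi.single_eq_of_ne hij] at h1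
  exact one_ne_zero h1

private theorem S8_fix_iff (D : Dg C) (j : Fin n) :
    D.r (C.simple j) = C.simple j ↔ D.ρ j = j := by
  rw [D.r_simple]
  exact ⟨fun h => S8_simple_inj h, fun h => by rw [h]⟩

private theorem S8_th (D : Dg C) {K : Type u} [Field K] (θ : K ≃+* K) (j : Fin n) (t : K) :
    th D θ (C.simple j) t = if D.ρ j = j then θ.symm t else θ t := by
  unfold th
  by_cases h : D.ρ j = j
  · rw [if_pos h, if_pos ((S8_fix_iff D j).2 h)]
  · rw [if_neg h, if_neg (fun h' => h ((S8_fix_iff D j).1 h'))]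

/-- The isomorphism of the folded universal group and the folded group. -/
private theorem S8_e (hT : SRT.{u} D t0) {K : Type u} [Field K] (hK : CharP K D.m) :
    ∃ e : LT.fixGroup (D.sig (RingEquiv.refl K)) ≃* GF D K,
      ∀ x : LT.fixGroup (D.sig (RingEquiv.refl K)),
        (e x : GL C.Idx K) = pa C K (x : GU C K) := by
  obtain ⟨e, he⟩ := exists_paE hT hK
  refine ⟨(MulEquiv.subgroupCongr (LT.fixGroup_sig D (RingEquiv.refl K))).trans e, fun x => ?_⟩
  exact he _

private theorem S8_mem (hT : SRT.{u} D t0) {K : Type u} [Field K] (j : Fin n) (t : K) :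
    LT.yp C D.ρ j t ∈ LT.fixGroup (D.sig (RingEquiv.refl K)) ∧
      LT.ym C D.ρ j t ∈ LT.fixGroup (D.sig (RingEquiv.refl K)) := by
  rw [LT.fixGroup_sig]
  exact yp_mem hT.swap.na j t

/-- The groups generated by fixed points correspond to each other. -/
private theorem S8_map (hT : SRT.{u} D t0) {K : Type u} [Field K] (hK : CharP K D.m)
    (e : LT.fixGroup (D.sig (RingEquiv.refl K)) ≃* GF D K)
    (he : ∀ x : LT.fixGroup (D.sig (RingEquiv.refl K)),
      (e x : GL C.Idx K) = pa C K (x : GU C K))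
    (σ : LT.fixGroup (D.sig (RingEquiv.refl K)) →* LT.fixGroup (D.sig (RingEquiv.refl K)))
    (σ' : GF D K →* GF D K) (hs : ∀ x, σ' (e x) = e (σ x)) :
    (LT.exGroup σ).map e.toMonoidHom = Esr D σ' := by
  have hE : ∀ x : LT.fixGroup (D.sig (RingEquiv.refl K)),
      (x : GU C K) ∈ EE D K (RingEquiv.refl K) := by
    intro x
    exact (LT.fixGroup_sig D (RingEquiv.refl K)).le x.2
  have hU : ∀ x : LT.fixGroup (D.sig (RingEquiv.refl K)),
      e x ∈ FU D K ↔ (x : GU C K) ∈ LT.Up C K := by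
    intro x
    unfold FU
    rw [Subgroup.mem_subgroupOf, he]
    exact (paE_U hT hK (x : GU C K) (hE x)).1
  have hUm : ∀ x : LT.fixGroup (D.sig (RingEquiv.refl K)),
      e x ∈ FUm D K ↔ (x : GU C K) ∈ LT.Um C K := by
    intro x
    unfold FUm
    rw [Subgroup.mem_subgroupOf, he]
    exact (paE_U hT hK (x : GU C K) (hE x)).2
  have hfx : ∀ x : LT.fixGroup (D.sig (RingEquiv.refl K)), e x ∈ Fx σ' ↔ σ x = x := by
    intro x
    rw [mem_Fx, hs]
    exact e.injective.eq_iff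
  apply le_antisymm
  · unfold LT.exGroup
    rw [MonoidHom.map_closure, Subgroup.closure_le]
    rintro _ ⟨g, ⟨hg, hg'⟩, rfl⟩
    rcases hg' with hg' | hg'
    · exact (le_sup_left : FU D K ⊓ Fx σ' ≤ Esr D σ') ⟨(hU g).2 hg', (hfx g).2 hg⟩
    · exact (le_sup_right : FUm D K ⊓ Fx σ' ≤ Esr D σ') ⟨(hUm g).2 hg', (hfx g).2 hg⟩
  · refine sup_le ?_ ?_
    · rintro x ⟨hx, hx'⟩
      obtain ⟨y, rfl⟩ := e.surjective x
      exact ⟨y, Subgroup.subset_closure ⟨(hfx y).1 hx', Or.inl ((hU y).1 hx)⟩, rfl⟩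
    · rintro x ⟨hx, hx'⟩
      obtain ⟨y, rfl⟩ := e.surjective x
      exact ⟨y, Subgroup.subset_closure ⟨(hfx y).1 hx', Or.inr ((hUm y).1 hx)⟩, rfl⟩

private theorem S8_equiv (hT : SRT.{u} D t0) {K : Type u} [Field K] (hK : CharP K D.m)
    (e : LT.fixGroup (D.sig (RingEquiv.refl K)) ≃* GF D K)
    (he : ∀ x : LT.fixGroup (D.sig (RingEquiv.refl K)),
      (e x : GL C.Idx K) = pa C K (x : GU C K))
    (σ : LT.fixGroup (D.sig (RingEquiv.refl K)) →* LT.fixGroup (D.sig (RingEquiv.refl K)))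
    (σ' : GF D K →* GF D K) (hs : ∀ x, σ' (e x) = e (σ x)) :
    Nonempty (LT.exGroup σ ≃* Esr D σ') :=
  ⟨(e.subgroupMap (LT.exGroup σ)).trans
    (MulEquiv.subgroupCongr (S8_map hT hK e he σ σ' hs))⟩

theorem isSRad_of (hT : SRT.{u} D t0) {G : Type u} [Group G] [Infinite G]
    (h : LT.IsSR C D.ρ t0 D.m G) : IsSRad D t0 G := by
  obtain ⟨K, _, θ, σ₀, σ, hK, hθ, h0, hσ, f, hf, hker⟩ := h
  obtain rfl := LT.isSigma_unique D.ρ (RingEquiv.refl K) _ _ h0
    (LT.isSigma_sig D (RingEquiv.refl K))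
  obtain ⟨e, he⟩ := S8_e hT hK
  let σ' : GF D K →* GF D K := (e.toMonoidHom.comp σ).comp e.symm.toMonoidHom
  have hs : ∀ x, σ' (e x) = e (σ x) := fun x => by
    change e (σ (e.symm (e x))) = e (σ x)
    rw [e.symm_apply_apply]
  have hSR : SRs D t0 θ σ' := by
    refine ⟨hK, hθ, fun j t x hx => ?_, fun j t x hx => ?_⟩
    · obtain ⟨y, rfl⟩ := e.surjective x
      have hy : y = ⟨LT.yp C D.ρ j t, (S8_mem hT j t).1⟩ := by
        apply e.injective
        apply Subtype.ext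
        rw [hx, he]
        exact ((pa_yp hT.swap.na j t).1).symm
      have h1 := hσ.pos j t y (by rw [hy])
      rw [hs, he, h1, S8_th]
      exact (pa_yp hT.swap.na (t0 j) _).1
    · obtain ⟨y, rfl⟩ := e.surjective x
      have hy : y = ⟨LT.ym C D.ρ j t, (S8_mem hT j t).2⟩ := by
        apply e.injective
        apply Subtype.ext
        rw [hx, he]
        exact ((pa_yp hT.swap.na j t).2).symm
      have h1 := hσ.neg j t y (by rw [hy])
      rw [hs, he, h1, S8_th]
      exact (pa_yp hT.swap.na (t0 j) _).2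
  obtain ⟨E⟩ := S8_equiv hT hK e he σ σ' hs
  have hinf : Infinite K := by
    by_contra hfin
    rw [not_infinite_iff_finite] at hfin
    have h1 : Infinite (LT.exGroup σ) := Infinite.of_surjective f hf
    have h2 : Infinite (Esr D σ') := Infinite.of_injective E E.injective
    have h3 : Finite (Matrix C.Idx C.Idx K) := inferInstance
    have h4 : Finite (GL C.Idx K) := Finite.of_injective _ Units.val_injective
    have h5 : Finite (Esr D σ') := Finite.of_injective (em : Esr D σ' → GL C.Idx K) em_injective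
    exact not_finite_iff_infinite.2 h2 h5
  have hc := hT.center K θ σ' hSR
  have hinj : Function.Injective f := by
    rw [← MonoidHom.ker_eq_bot_iff, eq_bot_iff]
    intro z hz
    have h1 := hker hz
    have h2 : E z ∈ Subgroup.center (Esr D σ') := by
      rw [Subgroup.mem_center_iff] at h1 ⊢
      intro y
      obtain ⟨x, rfl⟩ := E.surjective y
      rw [← map_mul, h1 x, map_mul]
    rw [hc, Subgroup.mem_bot] at h2
    rw [Subgroup.mem_bot]
    apply E.injective
    rw [h2, map_one]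
  exact ⟨K, _, θ, σ', hSR, ⟨(MulEquiv.ofBijective f ⟨hinj, hf⟩).symm.trans E⟩⟩

theorem isSR_of (hT : SRT.{u} D t0) {G : Type u} [Group G] (h : IsSRad D t0 G) :
    LT.IsSR C D.ρ t0 D.m G := by
  obtain ⟨K, _, θ, σ', hSR, ⟨e'⟩⟩ := h
  obtain ⟨e, he⟩ := S8_e hT hSR.chr
  let σ : LT.fixGroup (D.sig (RingEquiv.refl K)) →* LT.fixGroup (D.sig (RingEquiv.refl K)) :=
    (e.symm.toMonoidHom.comp σ').comp e.toMonoidHom
  have hs : ∀ x, σ' (e x) = e (σ x) := fun x => by
    change σ' (e x) = e (e.symm (σ' (e x)))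
    rw [e.apply_symm_apply]
  have hσ : LT.IsSigmaEx D.ρ t0 θ σ := by
    refine ⟨fun i t x hx => ?_, fun i t x hx => ?_⟩
    · have h1 := hSR.pos i t (e x) (by
        rw [he, hx]
        exact (pa_yp hT.swap.na i t).1)
      have h2 : σ x = ⟨LT.yp C D.ρ (t0 i) (if D.ρ i = i then θ.symm t else θ t),
          (S8_mem hT (t0 i) _).1⟩ := by
        apply e.injective
        apply Subtype.ext
        rw [← hs, h1, he, S8_th]
        exact ((pa_yp hT.swap.na (t0 i) _).1).symm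
      rw [h2]
    · have h1 := hSR.neg i t (e x) (by
        rw [he, hx]
        exact (pa_yp hT.swap.na i t).2)
      have h2 : σ x = ⟨LT.ym C D.ρ (t0 i) (if D.ρ i = i then θ.symm t else θ t),
          (S8_mem hT (t0 i) _).2⟩ := by
        apply e.injective
        apply Subtype.ext
        rw [← hs, h1, he, S8_th]
        exact ((pa_yp hT.swap.na (t0 i) _).2).symm
      rw [h2]
  obtain ⟨E⟩ := S8_equiv hT hSR.chr e he σ σ' hs
  refine ⟨K, _, θ, D.sig (RingEquiv.refl K), σ, hSR.chr, hSR.hθ,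
    LT.isSigma_sig D (RingEquiv.refl K), hσ, (E.trans e'.symm).toMonoidHom,
    (E.trans e'.symm).surjective, ?_⟩
  intro z hz
  have h1 : z = 1 := (E.trans e'.symm).injective (by
    rw [map_one]
    exact hz)
  rw [h1]
  exact Subgroup.one_mem _

end Pool.Agent.H75.UL
end

section
/- module Pool.Agent.H86.UM.Z4n -/
/-!
# Project UM, Suzuki-Ree groups, module Z4n: closed sets of negative roots

`-R` for a closed set `R` of positive roots. Conjugation with `omG` (OM.lean) maps `x_β(t)` to `x_(-β)(t)`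
(`omG_xg`), commutes with `s = D.sgl (RingEquiv.refl k)` on root elements (`sg (-β) = sg β`, `r (-β) = - r β`), so on
`Gad`; it maps `yb β t` to `yb (-β) t`, `GF D k` to itself. So `UR_fix` for `R` gives `UR_fix_neg`.
-/

set_option autoImplicit false
open Matrix

namespace Pool.Agent.H86.UM

open Pool.Agent.H75.UL

variable {n : ℕ} {C : SLC n} {D : Dg C} {k : Type*} [Field k] [Infinite k]

omit [Infinite k] in
private theorem Z4n_mul (x y : GL C.Idx k) : omG C k * (x * y) * (omG C k)⁻¹ =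
    (omG C k * x * (omG C k)⁻¹) * (omG C k * y * (omG C k)⁻¹) := by
  group

omit [Infinite k] in
private theorem Z4n_inv (x : GL C.Idx k) : omG C k * x⁻¹ * (omG C k)⁻¹ =
    (omG C k * x * (omG C k)⁻¹)⁻¹ := by
  group

omit [Infinite k] in
private theorem Z4n_invol (x : GL C.Idx k) :
    omG C k * (omG C k * x * (omG C k)⁻¹) * (omG C k)⁻¹ = x := by
  have h : omG C k * omG C k = 1 := by
    apply Units.ext
    exact omM_sq C k
  calc omG C k * (omG C k * x * (omG C k)⁻¹) * (omG C k)⁻¹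
      = (omG C k * omG C k) * x * (omG C k * omG C k)⁻¹ := by group
    _ = x := by rw [h, one_mul, inv_one, mul_one]

omit [Infinite k] in
private theorem Z4n_cl {A : Set (GL C.Idx k)} {S : Subgroup (GL C.Idx k)}
    (h : ∀ a ∈ A, omG C k * a * (omG C k)⁻¹ ∈ S) :
    ∀ x ∈ Subgroup.closure A, omG C k * x * (omG C k)⁻¹ ∈ S := by
  have h1 : Subgroup.closure A ≤ S.comap (MulAut.conj (omG C k)).toMonoidHom :=
    (Subgroup.closure_le _).2 h
  exact fun x hx => h1 hx

theorem omG_sgl (x : GL C.Idx k) (hx : x ∈ C.Gad k) :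
    D.sgl (RingEquiv.refl k) (omG C k * x * (omG C k)⁻¹) =
      omG C k * D.sgl (RingEquiv.refl k) x * (omG C k)⁻¹ := by
  have hs : ∀ (β : C.Root) (t : k), D.sgl (RingEquiv.refl k) (C.xg k β t) =
      C.xg k (D.r β) ((D.sg β : k) * t) := fun β t => isSig_adS D (RingEquiv.refl k) β t
  unfold SLC.Gad at hx
  induction hx using Subgroup.closure_induction with
  | mem g hg =>
    obtain ⟨p, rfl⟩ := hg
    change D.sgl (RingEquiv.refl k) (omG C k * C.xg k p.1 p.2 * (omG C k)⁻¹) =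
      omG C k * D.sgl (RingEquiv.refl k) (C.xg k p.1 p.2) * (omG C k)⁻¹
    rw [omG_xg, hs, hs, omG_xg, D.r_neg, D.sg_neg]
  | one => rw [mul_one, mul_inv_cancel, map_one, mul_one, mul_inv_cancel]
  | mul a b _ _ ha hb => rw [Z4n_mul, map_mul, ha, hb, map_mul, Z4n_mul]
  | inv a _ ha => rw [Z4n_inv, map_inv, ha, map_inv, Z4n_inv]

omit [Infinite k] in
private theorem Z4n_Um_Gad (x : GL C.Idx k) (hx : x ∈ (C.adS k).Um) : x ∈ C.Gad k := by
  have h1 : (C.adS k).Um ≤ C.Gad k := by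
    unfold StSys.Um
    rw [Subgroup.closure_le]
    rintro g ⟨β, t, -, rfl⟩
    exact Subgroup.subset_closure ⟨(β, t), rfl⟩
  exact h1 hx

private theorem Z4n_U_Gad (x : GL C.Idx k) (hx : x ∈ (C.adS k).U 1) : x ∈ C.Gad k := by
  rw [← C.gen_adS]
  exact (C.adS k).U_le_gen 1 hx

private theorem Z4n_GF (x : GL C.Idx k) (hx : x ∈ GF D k) :
    omG C k * x * (omG C k)⁻¹ ∈ GF D k := by
  have h1 : GF D k ≤ (GF D k).comap (MulAut.conj (omG C k)).toMonoidHom := by
    refine sup_le ?_ ?_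
    · rintro y ⟨hy, hy'⟩
      change omG C k * y * (omG C k)⁻¹ ∈ GF D k
      refine (le_sup_right : fixUm _ _ ≤ _) ⟨?_, ?_⟩
      · change omG C k * y * (omG C k)⁻¹ ∈ (C.adS k).Um
        rw [← omG_U, Z4n_invol]
        exact hy
      · change D.sgl (RingEquiv.refl k) _ = _
        rw [omG_sgl _ (Z4n_U_Gad _ hy)]
        have h2 : D.sgl (RingEquiv.refl k) y = y := hy'
        rw [h2]
        rfl
    · rintro y ⟨hy, hy'⟩
      change omG C k * y * (omG C k)⁻¹ ∈ GF D k
      refine (le_sup_left : fixU _ _ ≤ _) ⟨(omG_U C _).2 hy, ?_⟩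
      change D.sgl (RingEquiv.refl k) _ = _
      rw [omG_sgl _ (Z4n_Um_Gad _ hy)]
      have h2 : D.sgl (RingEquiv.refl k) y = y := hy'
      rw [h2]
      rfl
  exact h1 hx

theorem omG_GF (x : GL C.Idx k) : omG C k * x * (omG C k)⁻¹ ∈ GF D k ↔ x ∈ GF D k := by
  constructor
  · intro h
    have h1 := Z4n_GF _ h
    rwa [Z4n_invol] at h1
  · exact Z4n_GF x

omit [Infinite k] in
private theorem Z4n_conj_prod (l : List ℕ) (f : ℕ → GL C.Idx k) :
    omG C k * (l.map f).prod * (omG C k)⁻¹ =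
      (l.map fun i => omG C k * f i * (omG C k)⁻¹).prod := by
  induction l with
  | nil => rw [List.map_nil, List.map_nil, List.prod_nil, mul_one, mul_inv_cancel]
  | cons a l ih =>
    rw [List.map_cons, List.map_cons, List.prod_cons, List.prod_cons, ← ih]
    group

private theorem Z4n_iter_neg (D : Dg C) (l : ℕ) (β : C.Root) :
    D.r^[l] (-β) = -(D.r^[l] β) := by
  induction l with
  | zero => rfl
  | succ l ih => rw [Function.iterate_succ_apply', Function.iterate_succ_apply', ih, D.r_neg]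

omit [Infinite k] in
private theorem Z4n_om_yb (D : Dg C) (β : C.Root) (t : k) :
    omG C k * yb D (C.adS k) (D.sgl (RingEquiv.refl k)) (-β) t * (omG C k)⁻¹ =
      yb D (C.adS k) (D.sgl (RingEquiv.refl k)) β t := by
  have hmo : mo D (-β) = mo D β := by
    unfold mo
    have h1 : D.r (-β) = -β ↔ D.r β = β := by
      rw [D.r_neg]
      constructor
      · intro h
        have h2 := congrArg (fun γ : C.Root => -γ) h
        change - -(D.r β) = - -β at h2
        rwa [C.neg_neg_root, C.neg_neg_root] at h2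
      · intro h
        rw [h]
    by_cases h : D.r β = β
    · rw [if_pos (h1.2 h), if_pos h]
    · rw [if_neg (fun h' => h (h1.1 h')), if_neg h]
  unfold yb
  rw [hmo, Z4n_conj_prod]
  congr 1
  apply List.map_congr_left
  intro l _
  have hs := isSig_adS D (RingEquiv.refl k) (C := C)
  rw [hs.iter, hs.iter, Z4n_iter_neg]
  have hsg : D.sgp l (-β) = D.sgp l β := by
    unfold Dg.sgp
    refine Finset.prod_congr rfl fun j _ => ?_
    rw [Z4n_iter_neg, D.sg_neg]
  rw [hsg]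
  change omG C k * C.xg k _ _ * (omG C k)⁻¹ = C.xg k _ _
  rw [omG_xg, C.neg_neg_root]

theorem omG_yb (hN : D.NA) (β : C.Root) (t : k) :
    omG C k * ((yg hN β t : GF D k) : GL C.Idx k) * (omG C k)⁻¹ =
      ((yg hN (-β) t : GF D k) : GL C.Idx k) := by
  have h := Z4n_om_yb (k := k) D (-β) t
  rw [C.neg_neg_root] at h
  exact h

/-- conjugation with `omG` on the folded group -/
private noncomputable def Z4n_c (D : Dg C) (k : Type*) [Field k] [Infinite k] :
    GF D k →* GF D k where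
  toFun x := ⟨omG C k * (x : GL C.Idx k) * (omG C k)⁻¹, (omG_GF _).2 x.2⟩
  map_one' := by
    apply Subtype.ext
    change omG C k * ((1 : GF D k) : GL C.Idx k) * (omG C k)⁻¹ = 1
    rw [Subgroup.coe_one, mul_one, mul_inv_cancel]
  map_mul' x y := by
    apply Subtype.ext
    change omG C k * ((x * y : GF D k) : GL C.Idx k) * (omG C k)⁻¹ =
      (omG C k * (x : GL C.Idx k) * (omG C k)⁻¹) * (omG C k * (y : GL C.Idx k) * (omG C k)⁻¹)
    rw [Subgroup.coe_mul, Z4n_mul]

private theorem Z4n_c_val (x : GF D k) :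
    ((Z4n_c D k x : GF D k) : GL C.Idx k) = omG C k * (x : GL C.Idx k) * (omG C k)⁻¹ := rfl

private theorem Z4n_c_c (x : GF D k) : Z4n_c D k (Z4n_c D k x) = x := by
  apply Subtype.ext
  rw [Z4n_c_val, Z4n_c_val, Z4n_invol]

private theorem Z4n_c_yg (hN : D.NA) (β : C.Root) (t : k) :
    Z4n_c D k (yg hN β t) = yg hN (-β) t :=
  Subtype.ext (omG_yb hN β t)

private theorem Z4n_FR (hN : D.NA) (R R' : Set C.Root) (h : ∀ β ∈ R, -β ∈ R') (x : GF D k)
    (hx : x ∈ FR hN k R) : Z4n_c D k x ∈ FR hN k R' := by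
  have h1 : FR hN k R ≤ (FR hN k R').comap (Z4n_c D k) := by
    refine (Subgroup.closure_le _).2 ?_
    rintro g ⟨β, hβ, t, rfl⟩
    change Z4n_c D k (yg hN β t) ∈ FR hN k R'
    rw [Z4n_c_yg]
    exact Subgroup.subset_closure ⟨-β, h β hβ, t, rfl⟩
  exact h1 hx

omit [Infinite k] in
private theorem Z4n_UR (R R' : Set C.Root) (h : ∀ β ∈ R, -β ∈ R') (x : GL C.Idx k)
    (hx : x ∈ UR C k R) : omG C k * x * (omG C k)⁻¹ ∈ UR C k R' := by
  unfold UR at hx
  refine Z4n_cl ?_ x hx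
  rintro g ⟨β, hβ, t, rfl⟩
  rw [omG_xg]
  exact Subgroup.subset_closure ⟨-β, h β hβ, t, rfl⟩

private theorem Z4n_h1 (R : Set C.Root) (β : C.Root) (hβ : β ∈ R) : -β ∈ {β : C.Root | -β ∈ R} := by
  change - -β ∈ R
  rwa [C.neg_neg_root]

theorem UR_fix_neg (hN : D.NA) {R : Set C.Root} (hR : ClR C R) (hr : ∀ β ∈ R, D.r β ∈ R)
    (x : GF D k) : (x : GL C.Idx k) ∈ UR C k {β | -β ∈ R} ↔ x ∈ FR hN k {β | -β ∈ R} := by
  constructor
  · intro h
    have h1 : ((Z4n_c D k x : GF D k) : GL C.Idx k) ∈ UR C k R :=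
      Z4n_UR _ _ (fun β hβ => hβ) _ h
    have h2 := (UR_fix hN hR hr _).1 h1
    have h3 := Z4n_FR hN R {β | -β ∈ R} (Z4n_h1 R) _ h2
    rwa [Z4n_c_c] at h3
  · intro h
    have h1 := Z4n_FR hN {β | -β ∈ R} R (fun β hβ => hβ) _ h
    have h2 := (UR_fix hN hR hr _).2 h1
    have h3 := Z4n_UR R {β | -β ∈ R} (Z4n_h1 R) _ h2
    rwa [Z4n_c_val, Z4n_invol] at h3

theorem UR_omG {R : Set C.Root} (x : GL C.Idx k) :
    omG C k * x * (omG C k)⁻¹ ∈ UR C k {β | -β ∈ R} ↔ x ∈ UR C k R := by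
  constructor
  · intro h
    have h1 := Z4n_UR {β | -β ∈ R} R (fun β hβ => hβ) _ h
    rwa [Z4n_invol] at h1
  · exact Z4n_UR R {β | -β ∈ R} (Z4n_h1 R) x

end Pool.Agent.H86.UM
end

section
/- module Pool.Agent.H86.UM.ZC -/
/-!
# Project UM, Suzuki-Ree groups, module ZC: commutators in characteristic `2`

`m = 2`, characteristic `2` (signs do not matter), `NA`. Commutators `[x, y] = x y x⁻¹ y⁻¹` of `yg α t`, `yg β u`,
`α, β ∈ R` (positive): `yg β u = x_β(u)` if `β` is fixed, `x_β(u) x_(rβ)(u)` otherwise.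
(LL) both fixed: `1` or `yg (α+β) (t u)`.
(LS) `α` fixed, `β` not: `ip α (r β) = ip α β`. If this is `≥ 0`: `1`. If it is `-1`: `γ = α + β` is a root, not
fixed, `ip γ (r β) = -1`, `δ = α + β + r β` is a root, fixed, and the commutator is `yg γ (t u) * yg δ (t u ^ 2)`.
(SS) both not fixed. If `α, β` are in one cycle: `1`. Consider `ip α β`, `ip α (r β)` (`ip (r α) (r β) = ip α β`,
`ip (r α) β = ip α (r β)`). If both are `≥ 0`: `1`. We may assume `ip α β = -1` (replace `β` by `r β`).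
`γ = α + β`. If `γ` is fixed: `r α + r β = α + β`, so `ip α (r β) = ip α (γ - r α) = 1 - 0`; the commutator is
`x_γ(t u) x_γ(t u) = 1` (the two pairs `(α, β)`, `(r α, r β)`; characteristic `2`). If `γ` is not fixed:
`0 = ip γ (r γ) = 2 ip α (r β)` (`ip_r_NA`), so `ip α (r β) = 0` and the commutator is `yg γ (t u)`.
Hence for generators: `[yg α t, yg β u] ∈ AW (wt α + wt β)`. Then `AW a` is normalised by `AW b` for `b ≥ 1`
(`wt α ≥ 1`), and `[x, y] ∈ AW (a + b)` for `x ∈ AW a`, `y ∈ AW b`, `a, b ≥ 1`, by closure induction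
(`[x x', y] = x [x', y] x⁻¹ [x, y]`).
`icomm_AW`: `icomm` is iterated `c ↦ h c h⁻¹ c⁻¹`. `icomm_AW'`: one of the elements has weight `≥ a`.
-/

set_option autoImplicit false
open Matrix

namespace Pool.Agent.H86.UM

open Pool.Agent.H75.UL

variable {n : ℕ} {C : SLC n} {D : Dg C}

/-- `wt` is a weight function on the set of roots `R` -/
structure Wt2 (D : Dg C) (R : Set C.Root) (wt : C.Root → ℤ) : Prop where
  pos : ∀ β ∈ R, C.Pos β
  stab : ∀ β ∈ R, D.r β ∈ R ∧ wt (D.r β) = wt β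
  one : ∀ β ∈ R, 1 ≤ wt β
  add : ∀ α ∈ R, ∀ β ∈ R, ∀ γ : C.Root, γ.1 = α.1 + β.1 →
    (D.r γ ≠ γ ∨ (D.r α = α ∧ D.r β = β)) → γ ∈ R ∧ wt α + wt β ≤ wt γ
  add2 : ∀ α ∈ R, ∀ β ∈ R, ∀ γ : C.Root, D.r α = α → D.r β ≠ β → C.ip α.1 β.1 = -1 →
    γ.1 = α.1 + β.1 + (D.r β).1 → γ ∈ R ∧ wt α + wt β ≤ wt γ

/-- the subgroup of weight `≥ a` -/
noncomputable def AW (hN : D.NA) (k : Type*) [Field k] (R : Set C.Root) (wt : C.Root → ℤ)
    (a : ℤ) : Subgroup (GF D k) := FR hN k {β | β ∈ R ∧ a ≤ wt β}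

private theorem ZC_sg {k : Type*} [Field k] [CharP k 2] (e : ℤ) (h : e = 1 ∨ e = -1) :
    (e : k) = 1 := by
  rcases h with rfl | rfl
  · simp
  · have h2 : (2 : k) = 0 := by exact_mod_cast CharP.cast_eq_zero k 2
    push_cast
    linear_combination (-1 : k) * h2

private theorem ZC_self {k : Type*} [Field k] [CharP k 2] (t : k) : t + t = 0 := by
  have h2 : (2 : k) = 0 := by exact_mod_cast CharP.cast_eq_zero k 2
  linear_combination t * h2

private theorem ZC_rr (hm : D.m = 2) (β : C.Root) : D.r (D.r β) = β := by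
  have h := D.r_m β
  rw [hm] at h
  exact h

private theorem ZC_ip_rr (hm : D.m = 2) (α β : C.Root) :
    C.ip (D.r α).1 β.1 = C.ip α.1 (D.r β).1 := by
  have h := D.r_ip α (D.r β)
  rwa [ZC_rr hm] at h

private theorem ZC_short (hN : D.NA) (hm : D.m = 2) {k : Type*} [Field k] [CharP k 2]
    (β : C.Root) (h : D.r β ≠ β) (t : k) :
    ((yg hN β t : GF D k) : GL C.Idx k) = C.xg k β t * C.xg k (D.r β) t := by
  rw [yg_val]
  unfold yb mo
  rw [if_neg h, hm]
  have h1 := isSig_adS D (RingEquiv.refl k) β t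
  have h2 : ((D.sg β : ℤ) : k) = 1 := ZC_sg _ (D.sg_eq β)
  rw [h2, one_mul] at h1
  change ([0, 1].map _).prod = _
  rw [List.map_cons, List.map_cons, List.map_nil, List.prod_cons, List.prod_cons, List.prod_nil,
    mul_one]
  change (C.adS k).x β t * D.sgl (RingEquiv.refl k) ((C.adS k).x β t) = _
  rw [h1]
  rfl

private theorem ZC_r (hN : D.NA) {k : Type*} [Field k] [Infinite k] [CharP k 2]
    (β : C.Root) (t : k) : yg hN (D.r β) t = yg hN β t := by
  have h := yg_r hN β t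
  rwa [ZC_sg _ (D.sg_eq β), one_mul] at h

private theorem ZC_add {k : Type*} [Field k] [CharP k 2] (α β γ : C.Root) (s t : k)
    (h : γ.1 = α.1 + β.1) : C.xg k α s * C.xg k β t * (C.xg k α s)⁻¹ * (C.xg k β t)⁻¹ =
      C.xg k γ (s * t) := by
  rw [C.xg_comm_add k α β γ s t h, ZC_sg _ (C.eps_eq_one_or _ _), one_mul]

private theorem ZC_g0 {H : Type*} [Group H] (x y : H) (h : x * y = y * x) :
    x * y * x⁻¹ * y⁻¹ = 1 := by
  rw [h, mul_inv_cancel_right, mul_inv_cancel]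

private theorem ZC_g1 {H : Type*} [Group H] (x y z a b c : H)
    (h1 : x * y * x⁻¹ * y⁻¹ = a) (h2 : x * z * x⁻¹ * z⁻¹ = b) (h3 : y * b * y⁻¹ * b⁻¹ = c)
    (h4 : c * b = b * c) : x * (y * z) * x⁻¹ * (y * z)⁻¹ = a * b * c := by
  have e1 : x * (y * z) * x⁻¹ * (y * z)⁻¹ =
      (x * y * x⁻¹ * y⁻¹) * ((y * (x * z * x⁻¹ * z⁻¹) * y⁻¹ * (x * z * x⁻¹ * z⁻¹)⁻¹) *
        (x * z * x⁻¹ * z⁻¹)) := by group
  rw [e1, h1, h2, h3, h4, mul_assoc]

private theorem ZC_g2 {H : Type*} [Group H] (a₁ a₂ b₁ b₂ c c' : H)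
    (h1 : a₂ * b₁ = b₁ * a₂) (h2 : a₁ * b₂ = b₂ * a₁) (h3 : a₁ * b₁ * a₁⁻¹ * b₁⁻¹ = c)
    (h4 : a₂ * b₂ * a₂⁻¹ * b₂⁻¹ = c') (h5 : c' * a₁ = a₁ * c') (h6 : c' * b₁ = b₁ * c') :
    a₁ * a₂ * (b₁ * b₂) * (a₁ * a₂)⁻¹ * (b₁ * b₂)⁻¹ = c * c' := by
  have e1 : a₁ * a₂ * (b₁ * b₂) * (a₁ * a₂)⁻¹ * (b₁ * b₂)⁻¹ =
      a₁ * (a₂ * b₁) * b₂ * a₂⁻¹ * (b₂ * a₁)⁻¹ * b₁⁻¹ := by group
  have e2 : a₁ * (b₁ * a₂) * b₂ * a₂⁻¹ * (a₁ * b₂)⁻¹ * b₁⁻¹ =
      a₁ * b₁ * (a₂ * b₂ * a₂⁻¹ * b₂⁻¹) * a₁⁻¹ * b₁⁻¹ := by group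
  have h5' : c' * a₁⁻¹ = a₁⁻¹ * c' := by
    rw [mul_inv_eq_iff_eq_mul, mul_assoc, h5, inv_mul_cancel_left]
  have h6' : c' * b₁⁻¹ = b₁⁻¹ * c' := by
    rw [mul_inv_eq_iff_eq_mul, mul_assoc, h6, inv_mul_cancel_left]
  rw [e1, h1, ← h2, e2, h4, mul_assoc (a₁ * b₁) c' a₁⁻¹, h5', ← mul_assoc, mul_assoc _ c' b₁⁻¹,
    h6', ← mul_assoc, h3]

private theorem ZC_ll (hN : D.NA) {k : Type*} [Field k] [Infinite k] [CharP k 2]
    (α β : C.Root) (hα : D.r α = α) (hβ : D.r β = β) (t u : k) :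
    (0 ≤ C.ip α.1 β.1 → yg hN α t * yg hN β u * (yg hN α t)⁻¹ * (yg hN β u)⁻¹ = 1) ∧
    (∀ γ : C.Root, γ.1 = α.1 + β.1 →
      yg hN α t * yg hN β u * (yg hN α t)⁻¹ * (yg hN β u)⁻¹ = yg hN γ (t * u)) := by
  constructor
  · intro h
    apply Subtype.ext
    push_cast
    rw [yg_long hN α hα, yg_long hN β hβ]
    exact ZC_g0 _ _ (C.xg_comm k α β t u h)
  · intro γ h
    have hγ : D.r γ = γ := by
      apply SLC.Root.ext
      rw [D.r_add α β γ h, hα, hβ, h]
    apply Subtype.ext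
    push_cast
    rw [yg_long hN α hα, yg_long hN β hβ, yg_long hN γ hγ]
    exact ZC_add α β γ t u h

private theorem ZC_ls (hN : D.NA) (hm : D.m = 2) {k : Type*} [Field k] [Infinite k] [CharP k 2]
    (α β : C.Root) (hα : D.r α = α) (hβ : D.r β ≠ β) (t u : k) :
    (0 ≤ C.ip α.1 β.1 → yg hN α t * yg hN β u * (yg hN α t)⁻¹ * (yg hN β u)⁻¹ = 1) ∧
    (C.ip α.1 β.1 = -1 → ∃ γ δ : C.Root, γ.1 = α.1 + β.1 ∧ D.r γ ≠ γ ∧
      δ.1 = α.1 + β.1 + (D.r β).1 ∧
      yg hN α t * yg hN β u * (yg hN α t)⁻¹ * (yg hN β u)⁻¹ =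
        yg hN γ (t * u) * yg hN δ (u * (t * u))) := by
  have e0 : C.ip α.1 (D.r β).1 = C.ip α.1 β.1 := by rw [← ZC_ip_rr hm, hα]
  have hββ := D.ip_r_NA hN β hβ
  constructor
  · intro h
    apply Subtype.ext
    push_cast
    rw [yg_long hN α hα, ZC_short hN hm β hβ]
    apply ZC_g0
    rw [← mul_assoc, C.xg_comm k α β t u h, mul_assoc, C.xg_comm k α (D.r β) t u (e0 ▸ h),
      ← mul_assoc]
  · intro h
    obtain ⟨γ, hγ⟩ := C.exists_add α β h
    have hrγ : (D.r γ).1 = α.1 + (D.r β).1 := by rw [D.r_add α β γ hγ, hα]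
    have hne : D.r γ ≠ γ := by
      intro h1
      rw [h1, hγ] at hrγ
      exact hβ (SLC.Root.ext (add_left_cancel hrγ)).symm
    have i1 : C.ip γ.1 (D.r β).1 = -1 := by
      rw [hγ, C.ip_add_left, e0, h, hββ]
      rfl
    obtain ⟨δ, hδ⟩ := C.exists_add γ (D.r β) i1
    have hδ' : δ.1 = α.1 + β.1 + (D.r β).1 := by rw [hδ, hγ]
    have hδ2 : δ.1 = β.1 + (D.r γ).1 := by rw [hδ', hrγ]; abel
    have hδf : D.r δ = δ := by
      apply SLC.Root.ext
      rw [D.r_add γ (D.r β) δ hδ, ZC_rr hm, hδ2, add_comm]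
    refine ⟨γ, δ, hγ, hne, hδ', ?_⟩
    apply Subtype.ext
    push_cast
    rw [yg_long hN α hα, ZC_short hN hm β hβ, ZC_short hN hm γ hne, yg_long hN δ hδf]
    refine ZC_g1 _ _ _ _ _ _ (ZC_add α β γ t u hγ) (ZC_add α (D.r β) (D.r γ) t u hrγ)
      (ZC_add β (D.r γ) δ u (t * u) hδ2) (C.xg_comm k δ (D.r γ) _ _ ?_)
    have i2 : C.ip β.1 (D.r γ).1 = -1 := C.ip_add_root β (D.r γ) δ hδ2
    rw [hδ2, C.ip_add_left, i2, (D.r γ).2]
    norm_num

private theorem ZC_ss0 (hN : D.NA) (hm : D.m = 2) {k : Type*} [Field k] [Infinite k]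
    [CharP k 2] (α β : C.Root) (hα : D.r α ≠ α) (hβ : D.r β ≠ β) (t u : k)
    (h1 : 0 ≤ C.ip α.1 β.1) (h2 : 0 ≤ C.ip α.1 (D.r β).1) :
    yg hN α t * yg hN β u * (yg hN α t)⁻¹ * (yg hN β u)⁻¹ = 1 := by
  have h3 : 0 ≤ C.ip (D.r α).1 β.1 := by rw [ZC_ip_rr hm]; exact h2
  have h4 : 0 ≤ C.ip (D.r α).1 (D.r β).1 := by rw [D.r_ip]; exact h1
  apply Subtype.ext
  push_cast
  rw [ZC_short hN hm α hα, ZC_short hN hm β hβ]
  apply ZC_g0
  have c1 : Commute (C.xg k α t) (C.xg k β u) := C.xg_comm k α β t u h1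
  have c2 : Commute (C.xg k α t) (C.xg k (D.r β) u) := C.xg_comm k α _ t u h2
  have c3 : Commute (C.xg k (D.r α) t) (C.xg k β u) := C.xg_comm k _ β t u h3
  have c4 : Commute (C.xg k (D.r α) t) (C.xg k (D.r β) u) := C.xg_comm k _ _ t u h4
  exact ((c1.mul_right c2).mul_left (c3.mul_right c4))

private theorem ZC_ss1 (hN : D.NA) (hm : D.m = 2) {k : Type*} [Field k] [Infinite k]
    [CharP k 2] (α β : C.Root) (hα : D.r α ≠ α) (hβ : D.r β ≠ β) (t u : k)
    (h1 : C.ip α.1 β.1 = -1) :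
    yg hN α t * yg hN β u * (yg hN α t)⁻¹ * (yg hN β u)⁻¹ = 1 ∨
    ∃ γ : C.Root, γ.1 = α.1 + β.1 ∧ D.r γ ≠ γ ∧
      yg hN α t * yg hN β u * (yg hN α t)⁻¹ * (yg hN β u)⁻¹ = yg hN γ (t * u) := by
  have hαα := D.ip_r_NA hN α hα
  have hββ := D.ip_r_NA hN β hβ
  have i1 : C.ip (D.r α).1 β.1 = C.ip α.1 (D.r β).1 := ZC_ip_rr hm α β
  have i1' : C.ip β.1 (D.r α).1 = C.ip α.1 (D.r β).1 := by rw [C.ip_comm, i1]
  obtain ⟨γ, hγ⟩ := C.exists_add α β h1
  have hrγ : (D.r γ).1 = (D.r α).1 + (D.r β).1 := D.r_add α β γ hγ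
  have a2 : C.ip (D.r γ).1 α.1 = 0 + C.ip α.1 (D.r β).1 := by
    rw [hrγ, C.ip_add_left, C.ip_comm (D.r α).1, hαα, C.ip_comm (D.r β).1]
  have a3 : C.ip (D.r γ).1 β.1 = C.ip α.1 (D.r β).1 + 0 := by
    rw [hrγ, C.ip_add_left, i1, C.ip_comm (D.r β).1, hββ]
  have c3 : C.xg k α t * C.xg k β u * (C.xg k α t)⁻¹ * (C.xg k β u)⁻¹ = C.xg k γ (t * u) :=
    ZC_add α β γ t u hγ
  have c4 : C.xg k (D.r α) t * C.xg k (D.r β) u * (C.xg k (D.r α) t)⁻¹ *
      (C.xg k (D.r β) u)⁻¹ = C.xg k (D.r γ) (t * u) := ZC_add (D.r α) (D.r β) (D.r γ) t u hrγ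
  have key : 0 ≤ C.ip α.1 (D.r β).1 → yg hN α t * yg hN β u * (yg hN α t)⁻¹ * (yg hN β u)⁻¹ =
      yg hN α t * yg hN β u * (yg hN α t)⁻¹ * (yg hN β u)⁻¹ ∧
      ((yg hN α t * yg hN β u * (yg hN α t)⁻¹ * (yg hN β u)⁻¹ : GF D k) : GL C.Idx k) =
        C.xg k γ (t * u) * C.xg k (D.r γ) (t * u) := by
    intro h
    refine ⟨rfl, ?_⟩
    push_cast
    rw [ZC_short hN hm α hα, ZC_short hN hm β hβ]
    refine ZC_g2 _ _ _ _ _ _ ?_ ?_ c3 c4 ?_ ?_
    · exact C.xg_comm k _ _ _ _ (by rw [i1]; exact h)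
    · exact C.xg_comm k _ _ _ _ h
    · exact C.xg_comm k _ _ _ _ (by rw [a2, zero_add]; exact h)
    · exact C.xg_comm k _ _ _ _ (by rw [a3, add_zero]; exact h)
  by_cases hγf : D.r γ = γ
  · left
    have i2 : C.ip α.1 (D.r β).1 = 1 := by
      rw [hγf, hγ] at hrγ
      have e1 : (D.r β).1 = α.1 + β.1 - (D.r α).1 := by rw [hrγ]; abel
      rw [e1, C.ip_sub_right, C.ip_add_right, α.2, h1, hαα]
      norm_num
    obtain ⟨-, h3⟩ := key (by rw [i2]; norm_num)
    apply Subtype.ext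
    rw [h3, hγf, ← C.xg_map_add, ZC_self]
    have h4 := C.xg_map_add k γ (0 : k) 0
    rw [add_zero] at h4
    exact (left_eq_mul.mp h4)
  · right
    have i3 := D.ip_r_NA hN γ hγf
    have i2 : C.ip α.1 (D.r β).1 = 0 := by
      rw [hγ, hrγ, C.ip_add_left, C.ip_add_right, C.ip_add_right, hαα, hββ, i1'] at i3
      omega
    obtain ⟨-, h3⟩ := key (by rw [i2])
    refine ⟨γ, hγ, hγf, ?_⟩
    apply Subtype.ext
    rw [h3, ZC_short hN hm γ hγf]

private theorem ZC_gen (hN : D.NA) (hm : D.m = 2) {k : Type*} [Field k] [Infinite k]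
    [CharP k 2] (R : Set C.Root) (wt : C.Root → ℤ) (hw : Wt2 D R wt) (a b : ℤ)
    (α β : C.Root) (hα : α ∈ R) (ha : a ≤ wt α) (hβ : β ∈ R) (hb : b ≤ wt β) (t u : k) :
    yg hN α t * yg hN β u * (yg hN α t)⁻¹ * (yg hN β u)⁻¹ ∈ AW hN k R wt (a + b) := by
  have hne : ∀ α' ∈ R, ∀ β' ∈ R, C.ip α'.1 β'.1 ≠ -2 := by
    intro α' hα' β' hβ' h
    rw [C.ip_eq_neg_two_iff] at h
    have h1 := hw.pos α' hα'
    have h2 := hw.pos β' hβ'
    have h3 := ht_neg α'.1
    rw [h] at h2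
    unfold SLC.Pos at h1 h2
    change 0 < ht (-α'.1) at h2
    omega
  have hip : ∀ α' ∈ R, ∀ β' ∈ R, 0 ≤ C.ip α'.1 β'.1 ∨ C.ip α'.1 β'.1 = -1 := by
    intro α' hα' β' hβ'
    have h1 := hne α' hα' β' hβ'
    rcases C.ip_cases α' β' with h | h | h | h | h
    · exact absurd h h1
    · exact Or.inr h
    · left; omega
    · left; omega
    · left; omega
  have hmem : ∀ γ ∈ R, a + b ≤ wt γ → ∀ v : k, yg hN γ v ∈ AW hN k R wt (a + b) :=
    fun γ hγ h v => Subgroup.subset_closure ⟨γ, ⟨hγ, h⟩, v, rfl⟩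
  have ls : ∀ α ∈ R, ∀ β ∈ R, a + b ≤ wt α + wt β → D.r α = α → D.r β ≠ β → ∀ t u : k,
      yg hN α t * yg hN β u * (yg hN α t)⁻¹ * (yg hN β u)⁻¹ ∈ AW hN k R wt (a + b) := by
    intro α hα β hβ hab h1 h2 t u
    obtain ⟨g1, g2⟩ := ZC_ls hN hm α β h1 h2 t u
    rcases hip α hα β hβ with h | h
    · rw [g1 h]
      exact one_mem _
    · obtain ⟨γ, δ, e1, e2, e3, e4⟩ := g2 h
      obtain ⟨m1, w1⟩ := hw.add α hα β hβ γ e1 (Or.inl e2)
      obtain ⟨m2, w2⟩ := hw.add2 α hα β hβ δ h1 h2 h e3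
      rw [e4]
      exact mul_mem (hmem γ m1 (by omega) _) (hmem δ m2 (by omega) _)
  by_cases h1 : D.r α = α
  · by_cases h2 : D.r β = β
    · obtain ⟨g1, g2⟩ := ZC_ll hN α β h1 h2 t u
      rcases hip α hα β hβ with h | h
      · rw [g1 h]
        exact one_mem _
      · obtain ⟨γ, hγ⟩ := C.exists_add α β h
        rw [g2 γ hγ]
        obtain ⟨m1, w1⟩ := hw.add α hα β hβ γ hγ (Or.inr ⟨h1, h2⟩)
        exact hmem γ m1 (by omega) _
    · exact ls α hα β hβ (by omega) h1 h2 t u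
  · by_cases h2 : D.r β = β
    · have h3 := ls β hβ α hα (by omega) h2 h1 u t
      have e : yg hN α t * yg hN β u * (yg hN α t)⁻¹ * (yg hN β u)⁻¹ =
          (yg hN β u * yg hN α t * (yg hN β u)⁻¹ * (yg hN α t)⁻¹)⁻¹ := by group
      rw [e]
      exact inv_mem h3
    · rcases hip α hα β hβ with h | h
      · obtain ⟨s1, s2⟩ := hw.stab β hβ
        rcases hip α hα (D.r β) s1 with h' | h'
        · rw [ZC_ss0 hN hm α β h1 h2 t u h h']
          exact one_mem _
        · rw [← ZC_r hN β u]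
          have h2' : D.r (D.r β) ≠ D.r β := fun hh => h2 (D.r_injective hh)
          rcases ZC_ss1 hN hm α (D.r β) h1 h2' t u h' with g | ⟨γ, e1, e2, e3⟩
          · rw [g]
            exact one_mem _
          · rw [e3]
            obtain ⟨m1, w1⟩ := hw.add α hα (D.r β) s1 γ e1 (Or.inl e2)
            exact hmem γ m1 (by omega) _
      · rcases ZC_ss1 hN hm α β h1 h2 t u h with g | ⟨γ, e1, e2, e3⟩
        · rw [g]
          exact one_mem _
        · rw [e3]
          obtain ⟨m1, w1⟩ := hw.add α hα β hβ γ e1 (Or.inl e2)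
          exact hmem γ m1 (by omega) _

private theorem ZC_anti (hN : D.NA) {k : Type*} [Field k] [Infinite k] (R : Set C.Root)
    (wt : C.Root → ℤ) {a b : ℤ} (h : a ≤ b) : AW hN k R wt b ≤ AW hN k R wt a :=
  FR_mono hN fun _ hβ => ⟨hβ.1, h.trans hβ.2⟩

/-- `AW c` is normalised by `AW b`, `b ≥ 0` -/
private theorem ZC_norm (hN : D.NA) (hm : D.m = 2) {k : Type*} [Field k] [Infinite k]
    [CharP k 2] (R : Set C.Root) (wt : C.Root → ℤ) (hw : Wt2 D R wt) (b c : ℤ) (hb : 0 ≤ b)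
    (g : GF D k) (hg : g ∈ AW hN k R wt b) : ∀ n ∈ AW hN k R wt c,
      g * n * g⁻¹ ∈ AW hN k R wt c ∧ g⁻¹ * n * g ∈ AW hN k R wt c := by
  have h1 : ∀ β ∈ R, b ≤ wt β → ∀ u : k, ∀ n ∈ AW hN k R wt c,
      yg hN β u * n * (yg hN β u)⁻¹ ∈ AW hN k R wt c := by
    intro β hβ hbβ u n hn
    unfold AW FR at hn
    induction hn using Subgroup.closure_induction with
    | mem x hx =>
      obtain ⟨γ, ⟨hγ, hcγ⟩, v, rfl⟩ := hx
      have e : yg hN β u * yg hN γ v * (yg hN β u)⁻¹ =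
          yg hN β u * yg hN γ v * (yg hN β u)⁻¹ * (yg hN γ v)⁻¹ * yg hN γ v := by group
      rw [e]
      refine mul_mem (ZC_anti hN R wt ?_ (ZC_gen hN hm R wt hw b c β γ hβ hbβ hγ hcγ u v))
        (Subgroup.subset_closure ⟨γ, ⟨hγ, hcγ⟩, v, rfl⟩)
      omega
    | one => rw [mul_one, mul_inv_cancel]; exact one_mem _
    | mul x y _ _ hx hy =>
      have e : yg hN β u * (x * y) * (yg hN β u)⁻¹ =
          (yg hN β u * x * (yg hN β u)⁻¹) * (yg hN β u * y * (yg hN β u)⁻¹) := by group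
      rw [e]
      exact mul_mem hx hy
    | inv x _ hx =>
      have e : yg hN β u * x⁻¹ * (yg hN β u)⁻¹ = (yg hN β u * x * (yg hN β u)⁻¹)⁻¹ := by group
      rw [e]
      exact inv_mem hx
  unfold AW FR at hg
  induction hg using Subgroup.closure_induction with
  | mem x hx =>
    obtain ⟨β, ⟨hβ, hbβ⟩, u, rfl⟩ := hx
    intro n hn
    refine ⟨h1 β hβ hbβ u n hn, ?_⟩
    have h2 := h1 β hβ hbβ (-u) n hn
    rwa [yg_neg, inv_inv] at h2
  | one =>
    intro n hn
    rw [one_mul, inv_one, mul_one, one_mul, mul_one]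
    exact ⟨hn, hn⟩
  | mul x y _ _ hx hy =>
    intro n hn
    constructor
    · have e : x * y * n * (x * y)⁻¹ = x * (y * n * y⁻¹) * x⁻¹ := by group
      rw [e]
      exact (hx _ (hy n hn).1).1
    · have e : (x * y)⁻¹ * n * (x * y) = y⁻¹ * (x⁻¹ * n * x) * y := by group
      rw [e]
      exact (hy _ (hx n hn).2).2
  | inv x _ hx =>
    intro n hn
    rw [inv_inv]
    exact ⟨(hx n hn).2, (hx n hn).1⟩

theorem AW_comm (hN : D.NA) (hm : D.m = 2) {k : Type*} [Field k] [Infinite k] [CharP k 2]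
    (R : Set C.Root) (wt : C.Root → ℤ) (hw : Wt2 D R wt) (a b : ℤ) (ha : 1 ≤ a) (hb : 1 ≤ b)
    (x y : GF D k) (hx : x ∈ AW hN k R wt a) (hy : y ∈ AW hN k R wt b) :
    x * y * x⁻¹ * y⁻¹ ∈ AW hN k R wt (a + b) := by
  have hna := ZC_norm hN hm (k := k) R wt hw a (a + b) (by omega)
  have hnb := ZC_norm hN hm (k := k) R wt hw b (a + b) (by omega)
  have h1 : ∀ α ∈ R, a ≤ wt α → ∀ t : k,
      yg hN α t * y * (yg hN α t)⁻¹ * y⁻¹ ∈ AW hN k R wt (a + b) := by
    intro α hα haα t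
    have hy' := hy
    unfold AW FR at hy'
    induction hy' using Subgroup.closure_induction with
    | mem z hz =>
      obtain ⟨β, ⟨hβ, hbβ⟩, u, rfl⟩ := hz
      exact ZC_gen hN hm R wt hw a b α β hα haα hβ hbβ t u
    | one =>
      rw [mul_one, mul_inv_cancel, inv_one, mul_one]
      exact one_mem _
    | mul z w hz hw' h2 h3 =>
      have e : yg hN α t * (z * w) * (yg hN α t)⁻¹ * (z * w)⁻¹ =
          (yg hN α t * z * (yg hN α t)⁻¹ * z⁻¹) *
            (z * (yg hN α t * w * (yg hN α t)⁻¹ * w⁻¹) * z⁻¹) := by group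
      rw [e]
      exact mul_mem (h2 hz) (hnb z hz _ (h3 hw')).1
    | inv z hz h2 =>
      have e : yg hN α t * z⁻¹ * (yg hN α t)⁻¹ * z⁻¹⁻¹ =
          z⁻¹ * (yg hN α t * z * (yg hN α t)⁻¹ * z⁻¹)⁻¹ * z := by group
      rw [e]
      exact (hnb z hz _ (inv_mem (h2 hz))).2
  have hx' := hx
  unfold AW FR at hx'
  induction hx' using Subgroup.closure_induction with
  | mem z hz =>
    obtain ⟨α, ⟨hα, haα⟩, t, rfl⟩ := hz
    exact h1 α hα haα t
  | one =>
    rw [one_mul, inv_one, mul_one, mul_inv_cancel]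
    exact one_mem _
  | mul z w hz hw' h2 h3 =>
    have e : z * w * y * (z * w)⁻¹ * y⁻¹ =
        (z * (w * y * w⁻¹ * y⁻¹) * z⁻¹) * (z * y * z⁻¹ * y⁻¹) := by group
    rw [e]
    exact mul_mem (hna z hz _ (h3 hw')).1 (h2 hz)
  | inv z hz h2 =>
    have e : z⁻¹ * y * z⁻¹⁻¹ * y⁻¹ = z⁻¹ * (z * y * z⁻¹ * y⁻¹)⁻¹ * z := by group
    rw [e]
    exact (hna z hz _ (inv_mem (h2 hz))).2

theorem icomm_AW (hN : D.NA) (hm : D.m = 2) {k : Type*} [Field k] [Infinite k] [CharP k 2]
    (R : Set C.Root) (wt : C.Root → ℤ) (hw : Wt2 D R wt) (a : ℤ) (ha : 1 ≤ a) (b : ℤ)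
    (hb : 1 ≤ b) (g : GF D k) (l : List (GF D k)) (hg : g ∈ AW hN k R wt a)
    (hl : ∀ x ∈ l, x ∈ AW hN k R wt b) : icomm g l ∈ AW hN k R wt (a + l.length * b) := by
  induction l generalizing a g with
  | nil =>
    change g ∈ _
    simpa using hg
  | cons x l ih =>
    have h1 : x * g * x⁻¹ * g⁻¹ ∈ AW hN k R wt (a + b) := by
      rw [add_comm]
      exact AW_comm hN hm R wt hw b a hb ha x g (hl x List.mem_cons_self) hg
    have h2 := ih (a + b) (by omega) (x * g * x⁻¹ * g⁻¹) h1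
      (fun y hy => hl y (List.mem_cons_of_mem _ hy))
    have e : a + ((x :: l).length : ℤ) * b = a + b + (l.length : ℤ) * b := by
      rw [List.length_cons]
      push_cast
      ring
    rw [e]
    exact h2

private theorem ZC_icomm (hN : D.NA) (hm : D.m = 2) {k : Type*} [Field k] [Infinite k]
    [CharP k 2] (R : Set C.Root) (wt : C.Root → ℤ) (hw : Wt2 D R wt) (b : ℤ)
    (hb : 1 ≤ b) (c : ℤ) (hc : b ≤ c) (l : List (GF D k)) : ∀ (a : ℤ), 1 ≤ a → ∀ g : GF D k,
    g ∈ AW hN k R wt a → (∀ x ∈ l, x ∈ AW hN k R wt b) → (∃ x ∈ l, x ∈ AW hN k R wt c) →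
    icomm g l ∈ AW hN k R wt (a + c + ((l.length : ℤ) - 1) * b) := by
  induction l with
  | nil =>
    rintro a - g - - ⟨x, hx, -⟩
    exact absurd hx List.not_mem_nil
  | cons x l ih =>
    rintro a ha g hg hl ⟨z, hz, hzc⟩
    have e : ((x :: l).length : ℤ) = l.length + 1 := by
      rw [List.length_cons]
      push_cast
      ring
    have hl' : ∀ y ∈ l, y ∈ AW hN k R wt b := fun y hy => hl y (List.mem_cons_of_mem _ hy)
    rcases List.mem_cons.mp hz with rfl | hz'
    · have h1 : z * g * z⁻¹ * g⁻¹ ∈ AW hN k R wt (a + c) := by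
        rw [add_comm]
        exact AW_comm hN hm R wt hw c a (by omega) ha z g hzc hg
      have h2 := icomm_AW hN hm R wt hw (a + c) (by omega) b hb (z * g * z⁻¹ * g⁻¹) l h1 hl'
      rw [e, add_sub_cancel_right]
      exact h2
    · have h1 : x * g * x⁻¹ * g⁻¹ ∈ AW hN k R wt (a + b) := by
        rw [add_comm]
        exact AW_comm hN hm R wt hw b a hb ha x g (hl x List.mem_cons_self) hg
      have h2 := ih (a + b) (by omega) (x * g * x⁻¹ * g⁻¹) h1 hl' ⟨z, hz', hzc⟩
      have e2 : a + c + (((x :: l).length : ℤ) - 1) * b =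
          a + b + c + ((l.length : ℤ) - 1) * b := by
        rw [e]
        ring
      rw [e2]
      exact h2

/-- one element of larger weight -/
theorem icomm_AW' (hN : D.NA) (hm : D.m = 2) {k : Type*} [Field k] [Infinite k] [CharP k 2]
    (R : Set C.Root) (wt : C.Root → ℤ) (hw : Wt2 D R wt) (b : ℤ)
    (hb : 1 ≤ b) (c : ℤ) (hc : b ≤ c) (g : GF D k) (l : List (GF D k))
    (hg : g ∈ AW hN k R wt b) (hl : ∀ x ∈ l, x ∈ AW hN k R wt b)
    (h1 : ∃ x ∈ g :: l, x ∈ AW hN k R wt c) :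
    icomm g l ∈ AW hN k R wt (c + l.length * b) := by
  obtain ⟨x, hx, hxc⟩ := h1
  rcases List.mem_cons.mp hx with rfl | hx'
  · exact icomm_AW hN hm R wt hw c (by omega) b hb x l hxc hl
  · have h2 := ZC_icomm hN hm R wt hw b hb c hc l b hb g hg hl ⟨x, hx', hxc⟩
    have e : c + (l.length : ℤ) * b = b + c + ((l.length : ℤ) - 1) * b := by ring
    rw [e]
    exact h2

end Pool.Agent.H86.UM
end
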