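import Pool.Agent.H86.AL.M11
import Pool.Agent.H86.AL.M14
import Pool.Agent.H86.AL.M22
import Pool.Agent.H86.AL.M23
import Pool.Agent.H86.AL.M24
import Pool.Agent.H86.AL.M25

/-!
# M33: collected modules

Pool.Agent.H75.UE.E3
Pool.Agent.H86.UM.FC2
Pool.Agent.H86.UM.FC3
-/

section
/- module Pool.Agent.H75.UE.E3 -/
/-!
# Project UE, module E3: homomorphisms of `Eg S s` which agree modulo the centre

`comm_mem`: for `β` positive (negative: apply it to `S.neg`, `Env_neg`, `fixX_neg`, `Eg_neg`, `neg_T`) every `x ∈ fixX D S s β`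
is a product of commutators `[h, y] = h y h⁻¹ y⁻¹` with `h ∈ S.T ⊓ Eg S s`, `y ∈ fixX D S s β`. By `exists_tor`
with `v` an invariant vector with `ip v γ = N * ht γ` (as in UNI.lean; `N ≠ 0`) and `c ∈ fixF θ` with
`c ^ (N * ht β) ≠ 1`, `c ^ (2 * N * ht β) ≠ 1` (`fixF θ` is infinite, `SR_k0_inf`) there is
`h ∈ S.T ⊓ Eg S s` acting on `x_γ` by `c ^ (N ht γ)`. Put `d = c ^ (N ht β)`, fixed by `θ`. `fixX_form`:
`x = yb β t * z`, `z ∈ ZZ D S β`; `fixX_exists`: `y = yb β (t / (d - 1)) * z' ∈ fixX` (the condition for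
`r β = β` is linear over `fixF θ`). `h y h⁻¹ y⁻¹ = yb β t * z''` with `z'' ∈ ZZ` (the elements of `XO` commute
modulo `ZZ`, which is central in `XO`: `ip (β + r β) β ≥ 0`). So we may assume `t = 0`, `x = z ∈ ZZ` fixed
by `s`. `ZZ` is trivial, or `ZZ = {x_γ(v)}`, `γ = β + r β`; `z = x_γ(v)`, `y = x_γ(v / (d² - 1))` is also fixed by `s`
(`s x_γ(v) = x_γ(sg γ θ v)`, `IsSig`), and `[h, y] = x_γ(v)`.
`hom_eq`: `d x = (g x)⁻¹ * f x ∈ center H'`; `d` is a homomorphism (values central), and trivial on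
commutators, so on all `fixX β`, so on `fixU S s`, `fixUm S s` (`fixU_eq`, `fixUm_eq`; `Inj` from
`inj_of_map`), so on `Eg S s` (`Subgroup.closure_induction` or `MonoidHom.eqLocus`; work with the subgroup
`{x : H | ∃ h : x ∈ Eg S s, d ⟨x, h⟩ = 1}`).
-/

set_option autoImplicit false
open Matrix
universe u
namespace Pool.Agent.H75.UL

open Pool.Agent.H86.UM

variable {n : ℕ} {C : SLC n} {D : Dg C} {k : Type*} [Field k] {θ : k ≃+* k} {H : Type*} [Group H]
  {S : StSys C k H} {s : H →* H} {p : H →* GL C.Idx k}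

private theorem E3_mo_pos (D : Dg C) (β : C.Root) : 0 < mo D β := by
  unfold mo
  split_ifs
  · exact Nat.one_pos
  · rcases D.m_cases with h | h | h <;> omega

private theorem E3_mod (D : Dg C) (β : C.Root) (l : ℕ) : D.r^[l % mo D β] β = D.r^[l] β := by
  unfold mo
  split_ifs with h
  · rw [Function.iterate_fixed h, Function.iterate_fixed h]
  · have h1 : Function.IsPeriodicPt D.r D.m β := D.r_m β
    exact h1.iterate_mod_apply l

private theorem E3_cases (D : Dg C) (β : C.Root) :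
    (D.r β = β ∧ mo D β = 1) ∨ (D.r β ≠ β ∧ mo D β = D.m ∧ C.ip β.1 (D.r β).1 = 0) ∨
    (D.r β ≠ β ∧ mo D β = 2 ∧ D.m = 2 ∧ C.ip β.1 (D.r β).1 = -1) := by
  unfold mo
  by_cases h : D.r β = β
  · exact Or.inl ⟨h, if_pos h⟩
  · right
    rw [if_neg h]
    rcases D.ip_r β h with h1 | ⟨h1, h2⟩
    · exact Or.inl ⟨h, rfl, h1⟩
    · exact Or.inr ⟨h, h1, h1, h2⟩

private theorem E3_sum (D : Dg C) (β γ : C.Root) (hγ : γ.1 = β.1 + (D.r β).1) :
    D.r β ≠ β ∧ mo D β = 2 ∧ D.m = 2 ∧ C.ip β.1 (D.r β).1 = -1 := by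
  have h1 := C.ip_add_root _ _ _ hγ
  rcases E3_cases D β with ⟨h, -⟩ | ⟨-, -, h⟩ | h
  · exfalso
    rw [h, β.2] at h1
    omega
  · omega
  · exact h

private theorem E3_ip_lt (β : C.Root) (hβ : D.r β ≠ β) (ho : C.ip β.1 (D.r β).1 = 0) (l d : ℕ)
    (hd : 0 < d) (hl : l + d < D.m) : C.ip (D.r^[l] β).1 (D.r^[l + d] β).1 = 0 := by
  induction l with
  | zero =>
    rw [Nat.zero_add] at hl ⊢
    rw [Function.iterate_zero, id, D.ip_orb β hβ d hd hl, ho]
  | succ l ih =>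
    have : l + 1 + d = (l + d) + 1 := by omega
    rw [this, Function.iterate_succ', Function.iterate_succ', Function.comp, Function.comp, D.r_ip]
    exact ih (by omega)

private theorem E3_ip (β : C.Root) (hβ : D.r β ≠ β) (ho : C.ip β.1 (D.r β).1 = 0) (l l' : ℕ)
    (hl : l < D.m) (hl' : l' < D.m) : 0 ≤ C.ip (D.r^[l] β).1 (D.r^[l'] β).1 := by
  rcases lt_trichotomy l l' with h | h | h
  · obtain ⟨d, rfl⟩ := Nat.exists_eq_add_of_lt h
    exact (E3_ip_lt β hβ ho l (d + 1) (by omega) hl').ge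
  · subst h
    rw [(D.r^[l] β).2]
    omega
  · obtain ⟨d, rfl⟩ := Nat.exists_eq_add_of_lt h
    rw [C.ip_comm]
    exact (E3_ip_lt β hβ ho l' (d + 1) (by omega) hl).ge

/-- two roots of the orbit -/
private theorem E3_orb (D : Dg C) (β : C.Root) (l l' : ℕ) :
    0 ≤ C.ip (D.r^[l] β).1 (D.r^[l'] β).1 ∨
      ∃ δ : C.Root, δ.1 = (D.r^[l] β).1 + (D.r^[l'] β).1 ∧ δ.1 = β.1 + (D.r β).1 := by
  have hpos := E3_mo_pos D β
  have hl := Nat.mod_lt l hpos
  have hl' := Nat.mod_lt l' hpos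
  rw [← E3_mod D β l, ← E3_mod D β l']
  rcases E3_cases D β with ⟨h, -⟩ | ⟨h, hm, ho⟩ | ⟨h, hm, hm', ho⟩
  · left
    rw [Function.iterate_fixed h, Function.iterate_fixed h, β.2]
    omega
  · left
    rw [hm] at hl hl'
    rw [hm]
    exact E3_ip β h ho _ _ hl hl'
  · rw [hm] at hl hl' ⊢
    have h1 : l % 2 = 0 ∨ l % 2 = 1 := by omega
    have h2 : l' % 2 = 0 ∨ l' % 2 = 1 := by omega
    rcases h1 with h1 | h1 <;> rcases h2 with h2 | h2
    · left
      rw [h1, h2, Function.iterate_zero, id, β.2]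
      omega
    · right
      rw [h1, h2]
      obtain ⟨δ, hδ⟩ := C.exists_add _ _ ho
      exact ⟨δ, hδ, hδ⟩
    · right
      rw [h1, h2]
      obtain ⟨δ, hδ⟩ := C.exists_add _ _ ho
      exact ⟨δ, by rw [hδ, add_comm]; rfl, hδ⟩
    · left
      rw [h1, h2]
      change 0 ≤ C.ip (D.r β).1 (D.r β).1
      rw [(D.r β).2]
      omega

private theorem E3_ip_sum (D : Dg C) (β γ γ' : C.Root) (hγ : γ.1 = β.1 + (D.r β).1)
    (hγ' : D.inO β γ') : 0 ≤ C.ip γ.1 γ'.1 := by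
  obtain ⟨h, hm, hm', ho⟩ := E3_sum D β γ hγ
  rcases hγ' with ⟨l, rfl⟩ | h1
  · rw [← E3_mod D β l, hm]
    have h1 : l % 2 = 0 ∨ l % 2 = 1 := by omega
    rcases h1 with h1 | h1 <;> rw [h1, hγ]
    · change 0 ≤ C.ip (β.1 + (D.r β).1) β.1
      rw [C.ip_add_left, β.2, C.ip_comm, ho]
      omega
    · change 0 ≤ C.ip (β.1 + (D.r β).1) (D.r β).1
      rw [C.ip_add_left, (D.r β).2, ho]
      omega
  · rw [hγ, ← h1, γ'.2]
    omega

private theorem E3_pair (D : Dg C) (β γ γ' : C.Root) (h : D.inO β γ) (h' : D.inO β γ') :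
    0 ≤ C.ip γ.1 γ'.1 ∨ ∃ δ : C.Root, δ.1 = γ.1 + γ'.1 ∧ δ.1 = β.1 + (D.r β).1 := by
  rcases h with ⟨l, rfl⟩ | h1
  · rcases h' with ⟨l', rfl⟩ | h1'
    · exact E3_orb D β l l'
    · left
      rw [C.ip_comm]
      exact E3_ip_sum D β _ _ h1' (Or.inl ⟨l, rfl⟩)
  · exact Or.inl (E3_ip_sum D β _ _ h1 h')

private theorem E3_central (S : StSys C k H) (β : C.Root) (z h : H) (hz : z ∈ ZZ D S β)
    (hh : h ∈ XO D S β) : z * h = h * z := by
  have h1 : XO D S β ≤ Subgroup.centralizer (ZZ D S β : Set H) := by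
    unfold XO
    rw [Subgroup.closure_le]
    rintro g ⟨γ', t, hγ', rfl⟩
    rw [SetLike.mem_coe, Subgroup.mem_centralizer_iff]
    intro z hz
    have h2 : ZZ D S β ≤ Subgroup.centralizer {S.x γ' t} := by
      unfold ZZ
      rw [Subgroup.closure_le]
      rintro g ⟨γ, v, hγ, rfl⟩
      rw [SetLike.mem_coe, Subgroup.mem_centralizer_iff]
      rintro _ rfl
      exact (S.comm γ γ' v t (E3_ip_sum D β γ γ' hγ hγ')).symm
    have h3 := h2 hz
    rw [Subgroup.mem_centralizer_iff] at h3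
    exact (h3 _ rfl).symm
  have h2 := h1 hh
  rw [Subgroup.mem_centralizer_iff] at h2
  exact h2 z hz

private theorem E3_ZZ_le (S : StSys C k H) (β : C.Root) : ZZ D S β ≤ XO D S β := by
  unfold ZZ XO
  apply Subgroup.closure_mono
  rintro g ⟨γ, v, hγ, rfl⟩
  exact ⟨γ, v, Or.inr hγ, rfl⟩

private theorem E3_comm (S : StSys C k H) (β γ : C.Root) (hγ : D.inO β γ) (c : k) (h : H)
    (hh : h ∈ XO D S β) : ∃ z ∈ ZZ D S β, S.x γ c * h = h * S.x γ c * z := by
  have hx : S.x γ c ∈ XO D S β := Subgroup.subset_closure ⟨γ, c, hγ, rfl⟩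
  unfold XO at hh
  induction hh using Subgroup.closure_induction with
  | mem h hh =>
    obtain ⟨γ', t, hγ', rfl⟩ := hh
    rcases E3_pair D β γ γ' hγ hγ' with h1 | ⟨δ, h1, h2⟩
    · exact ⟨1, one_mem _, by rw [mul_one, S.comm γ γ' c t h1]⟩
    · have h3 := S.comm_add γ γ' δ c t h1
      have hz : S.x δ (C.eps γ.1 γ'.1 * c * t) ∈ ZZ D S β :=
        Subgroup.subset_closure ⟨δ, _, h2, rfl⟩
      refine ⟨_, hz, ?_⟩
      have hx' : S.x γ' t ∈ XO D S β := Subgroup.subset_closure ⟨γ', t, hγ', rfl⟩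
      rw [← E3_central S β _ _ hz (mul_mem hx' hx), ← h3]
      group
  | one => exact ⟨1, one_mem _, by group⟩
  | mul a b ha hb iha ihb =>
    obtain ⟨z1, hz1, h1⟩ := iha
    obtain ⟨z2, hz2, h2⟩ := ihb
    refine ⟨z2 * z1, mul_mem hz2 hz1, ?_⟩
    have hb' : b ∈ XO D S β := hb
    calc S.x γ c * (a * b) = (S.x γ c * a) * b := by group
      _ = a * S.x γ c * (z1 * b) := by rw [h1]; group
      _ = a * (S.x γ c * b) * z1 := by rw [E3_central S β z1 b hz1 hb']; group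
      _ = a * b * S.x γ c * (z2 * z1) := by rw [h2]; group
  | inv a ha iha =>
    obtain ⟨z1, hz1, h1⟩ := iha
    refine ⟨z1⁻¹, inv_mem hz1, ?_⟩
    have ha' : a⁻¹ ∈ XO D S β := inv_mem ha
    have h2 := E3_central S β z1⁻¹ a⁻¹ (inv_mem hz1) ha'
    calc S.x γ c * a⁻¹ = a⁻¹ * (a * S.x γ c * z1) * (z1⁻¹ * a⁻¹) := by group
      _ = a⁻¹ * (S.x γ c * a) * (a⁻¹ * z1⁻¹) := by rw [← h1, h2]
      _ = a⁻¹ * S.x γ c * z1⁻¹ := by group

/-- The product over the orbit. -/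
private def E3_P (D : Dg C) (S : StSys C k H) (β : C.Root) (a : ℕ → k) (N : ℕ) : H :=
  ((List.range N).map fun l => S.x (D.r^[l] β) (a l)).prod

private theorem E3_Psucc (S : StSys C k H) (β : C.Root) (a : ℕ → k) (N : ℕ) :
    E3_P D S β a (N + 1) = E3_P D S β a N * S.x (D.r^[N] β) (a N) := by
  unfold E3_P
  rw [List.range_succ, List.map_append, List.prod_append, List.map_cons, List.map_nil,
    List.prod_cons, List.prod_nil, mul_one]

private theorem E3_x_mem (S : StSys C k H) (β : C.Root) (l : ℕ) (c : k) :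
    S.x (D.r^[l] β) c ∈ XO D S β := Subgroup.subset_closure ⟨_, c, Or.inl ⟨l, rfl⟩, rfl⟩

private theorem E3_Pmem (S : StSys C k H) (β : C.Root) (a : ℕ → k) (N : ℕ) :
    E3_P D S β a N ∈ XO D S β := by
  induction N with
  | zero => exact one_mem _
  | succ N ih =>
    rw [E3_Psucc]
    exact mul_mem ih (E3_x_mem S β N _)

private theorem E3_Pzero (S : StSys C k H) (β : C.Root) (a : ℕ → k) (N : ℕ)
    (h : ∀ l < N, a l = 0) : E3_P D S β a N = 1 := by
  induction N with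
  | zero => rfl
  | succ N ih =>
    rw [E3_Psucc, ih fun l hl => h l (by omega), h N (by omega), S.x_zero, mul_one]

private theorem E3_Padd (S : StSys C k H) (β : C.Root) (a b : ℕ → k) (N : ℕ) :
    ∃ z ∈ ZZ D S β, E3_P D S β a N * E3_P D S β b N = E3_P D S β (fun l => a l + b l) N * z := by
  induction N with
  | zero => exact ⟨1, one_mem _, by simp [E3_P]⟩
  | succ N ih =>
    obtain ⟨z, hz, h1⟩ := ih
    obtain ⟨z', hz', h2⟩ := E3_comm S β (D.r^[N] β) (Or.inl ⟨N, rfl⟩) (a N) _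
      (E3_Pmem (D := D) S β b N)
    refine ⟨z * z', mul_mem hz hz', ?_⟩
    have hc := E3_central S β (z * z') _ (mul_mem hz hz') (E3_x_mem (D := D) S β N (b N))
    have hc' := E3_central S β z _ hz (E3_x_mem (D := D) S β N (a N))
    rw [E3_Psucc, E3_Psucc, E3_Psucc, S.map_add]
    calc E3_P D S β a N * S.x (D.r^[N] β) (a N) * (E3_P D S β b N * S.x (D.r^[N] β) (b N))
        = E3_P D S β a N * (S.x (D.r^[N] β) (a N) * E3_P D S β b N) * S.x (D.r^[N] β) (b N) := by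
          group
      _ = (E3_P D S β a N * E3_P D S β b N) * S.x (D.r^[N] β) (a N) *
            (z' * S.x (D.r^[N] β) (b N)) := by rw [h2]; group
      _ = E3_P D S β (fun l => a l + b l) N * (z * S.x (D.r^[N] β) (a N)) *
            (z' * S.x (D.r^[N] β) (b N)) := by rw [h1]; group
      _ = E3_P D S β (fun l => a l + b l) N * S.x (D.r^[N] β) (a N) *
            (z * z' * S.x (D.r^[N] β) (b N)) := by rw [hc']; group
      _ = _ := by rw [hc]; group

private theorem E3_yb (he : IsSig D θ S s) (β : C.Root) (t : k) :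
    yb D S s β t = E3_P D S β (fun l => (D.sgp l β : k) * (⇑θ)^[l] t) (mo D β) := by
  unfold yb E3_P
  congr 1
  apply List.map_congr_left
  intro l _
  exact he.iter l β t

private theorem E3_ZZ_bot (S : StSys C k H) (β : C.Root)
    (h : ∀ γ : C.Root, γ.1 ≠ β.1 + (D.r β).1) (z : H) (hz : z ∈ ZZ D S β) : z = 1 := by
  have h1 : ZZ D S β = ⊥ := by
    unfold ZZ
    rw [Subgroup.closure_eq_bot_iff]
    rintro g ⟨γ, v, hγ, -⟩
    exact absurd hγ (h γ)
  rw [h1] at hz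
  exact hz

private theorem E3_ZZ_x (S : StSys C k H) (β γ : C.Root) (hγ : γ.1 = β.1 + (D.r β).1) (z : H)
    (hz : z ∈ ZZ D S β) : ∃ v, z = S.x γ v := by
  unfold ZZ at hz
  induction hz using Subgroup.closure_induction with
  | mem z hz =>
    obtain ⟨γ', v, hγ', rfl⟩ := hz
    have : γ' = γ := SLC.Root.ext (hγ'.trans hγ.symm)
    exact ⟨v, by rw [this]⟩
  | one => exact ⟨0, (S.x_zero γ).symm⟩
  | mul a b _ _ ha hb =>
    obtain ⟨v, rfl⟩ := ha
    obtain ⟨w, rfl⟩ := hb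
    exact ⟨v + w, (S.map_add γ v w).symm⟩
  | inv a _ ha =>
    obtain ⟨v, rfl⟩ := ha
    exact ⟨-v, (S.x_neg γ v).symm⟩

private theorem E3_Pcongr (S : StSys C k H) (β : C.Root) (a b : ℕ → k) (N : ℕ)
    (h : ∀ l < N, a l = b l) : E3_P D S β a N = E3_P D S β b N := by
  unfold E3_P
  congr 1
  apply List.map_congr_left
  intro l hl
  rw [List.mem_range] at hl
  rw [h l hl]

private theorem E3_vec (D : Dg C) : ∃ v : Fin n → ℤ, SLC.lmap D.ρ v = v ∧
    ∀ w, C.ip v w = C.A.det * ht w := by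
  choose y hy using C.exists_dual
  have hv : ∀ w, C.ip w (∑ i, y i) = C.A.det * ht w := by
    intro w
    have h1 : ∀ S : Finset (Fin n), C.ip w (∑ i ∈ S, y i) = ∑ i ∈ S, C.A.det * w i := by
      intro S
      classical
      induction S using Finset.induction_on with
      | empty => simp [C.ip_zero_right]
      | insert i S hi ih => rw [Finset.sum_insert hi, C.ip_add_right, ih, hy,
          Finset.sum_insert hi]
    rw [h1]
    unfold ht
    rw [Finset.mul_sum]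
  refine ⟨∑ i, y i, ?_, fun w => by rw [C.ip_comm, hv]⟩
  set v := ∑ i, y i with hvd
  have h2 : ∀ w, C.ip w (SLC.lmap D.ρ v) = C.ip w v := by
    intro w
    have e : w = SLC.lmap D.ρ (fun i => w (D.ρ i)) := by
      funext i
      simp [SLC.lmap]
    have h3 : ht (fun i => w (D.ρ i)) = ht w := by
      unfold ht
      exact Equiv.sum_comp D.ρ w
    conv_lhs => rw [e]
    rw [C.ip_lmap D.ρ D.hρ, hv, hv, h3]
  by_contra hne
  have h4 : SLC.lmap D.ρ v - v ≠ 0 := sub_ne_zero.2 hne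
  have h5 := C.ip_pos _ h4
  rw [C.ip_sub_right, h2, sub_self] at h5
  exact lt_irrefl _ h5

private theorem E3_fin (e : ℤ) (he : e ≠ 0) (d : k) : {c : k | c ^ e = d}.Finite := by
  classical
  have hE : 0 < e.natAbs := Int.natAbs_pos.2 he
  refine Set.Finite.subset ((Polynomial.nthRoots e.natAbs d).toFinset ∪
    (Polynomial.nthRoots e.natAbs d⁻¹).toFinset).finite_toSet ?_
  intro c hc
  have hc' : c ^ e = d := hc
  rw [Finset.mem_coe, Finset.mem_union, Multiset.mem_toFinset, Multiset.mem_toFinset,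
    Polynomial.mem_nthRoots hE, Polynomial.mem_nthRoots hE]
  rcases Int.natAbs_eq e with h | h
  · left
    rw [h, zpow_natCast] at hc'
    exact hc'
  · right
    rw [h, _root_.zpow_neg, zpow_natCast] at hc'
    rw [← hc', inv_inv]

private theorem E3_inf (he : Env D θ S s p) (e : ℤ) (he0 : e ≠ 0) :
    {d : k | ∃ c, θ c = c ∧ c ≠ 0 ∧ c ^ e = d}.Infinite := by
  intro hfin
  have hinf := SR_k0_inf he
  have h1 : {c : k | θ c = c ∧ c ≠ 0}.Finite := by
    refine Set.Finite.subset (hfin.biUnion fun d _ => E3_fin e he0 d) ?_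
    rintro c ⟨h1, h2⟩
    rw [Set.mem_iUnion₂]
    exact ⟨c ^ e, ⟨c, h1, h2, rfl⟩, rfl⟩
  have h2 : {c : k | θ c = c}.Finite := by
    refine Set.Finite.subset (h1.union (Set.finite_singleton (0 : k))) ?_
    intro c hc
    by_cases h0 : c = 0
    · right; exact h0
    · left; exact ⟨hc, h0⟩
  have h3 : ((fixF θ : Subfield k) : Set k).Finite := h2
  exact (Set.infinite_coe_iff.1 hinf) h3

private theorem E3_yb_add (he : Env D θ S s p) (β : C.Root) (a b : k) :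
    ∃ z ∈ ZZ D S β, yb D S s β a * yb D S s β b = yb D S s β (a + b) * z := by
  obtain ⟨z, hz, h⟩ := E3_Padd (D := D) S β (fun l => (D.sgp l β : k) * (⇑θ)^[l] a)
    (fun l => (D.sgp l β : k) * (⇑θ)^[l] b) (mo D β)
  refine ⟨z, hz, ?_⟩
  rw [E3_yb he.sig, E3_yb he.sig, E3_yb he.sig, h]
  congr 1
  apply E3_Pcongr
  intro l _
  rw [← mul_add]
  congr 1
  have : ∀ l : ℕ, (⇑θ)^[l] (a + b) = (⇑θ)^[l] a + (⇑θ)^[l] b := by
    intro l
    induction l with
    | zero => rfl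
    | succ l ih => rw [Function.iterate_succ_apply', ih, Function.iterate_succ_apply',
        Function.iterate_succ_apply', map_add]
  exact (this l).symm

private theorem E3_yb_conj (S : StSys C k H) (s : H →* H) (β : C.Root) (τ : H) (hs : s τ = τ)
    (d : k) (h : ∀ u, τ * S.x β u * τ⁻¹ = S.x β (d * u)) (t : k) :
    τ * yb D S s β t * τ⁻¹ = yb D S s β (d * t) := by
  have hit : ∀ l : ℕ, τ * s^[l] (S.x β t) * τ⁻¹ = s^[l] (S.x β (d * t)) := by
    intro l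
    induction l with
    | zero => exact h t
    | succ l ih =>
      rw [Function.iterate_succ_apply', Function.iterate_succ_apply', ← ih, map_mul, map_mul,
        map_inv, hs]
  have key : ∀ N : ℕ, τ * ((List.range N).map fun l => s^[l] (S.x β t)).prod * τ⁻¹ =
      ((List.range N).map fun l => s^[l] (S.x β (d * t))).prod := by
    intro N
    induction N with
    | zero => simp
    | succ N ih =>
      rw [List.range_succ, List.map_append, List.prod_append, List.map_append, List.prod_append,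
        ← ih]
      simp only [List.map_cons, List.map_nil, List.prod_cons, List.prod_nil, mul_one]
      rw [← hit N]
      group
  exact key _

private theorem E3_conj_clos (τ : H) (A : Set H) (h : ∀ a ∈ A, τ * a * τ⁻¹ ∈ Subgroup.closure A)
    (x : H) (hx : x ∈ Subgroup.closure A) : τ * x * τ⁻¹ ∈ Subgroup.closure A := by
  induction hx using Subgroup.closure_induction with
  | mem a ha => exact h a ha
  | one =>
    rw [mul_one, mul_inv_cancel]
    exact one_mem _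
  | mul a b _ _ ha hb =>
    have : τ * (a * b) * τ⁻¹ = (τ * a * τ⁻¹) * (τ * b * τ⁻¹) := by group
    rw [this]
    exact mul_mem ha hb
  | inv a _ ha =>
    have : τ * a⁻¹ * τ⁻¹ = (τ * a * τ⁻¹)⁻¹ := by group
    rw [this]
    exact inv_mem ha

private theorem E3_pos (he : Env D θ S s p) (β : C.Root) (hβ : C.Pos β) (x : H)
    (hx : x ∈ fixX D S s β) : x ∈ Subgroup.closure
      {g | ∃ h ∈ S.T ⊓ Eg S s, ∃ y ∈ fixX D S s β, g = h * y * h⁻¹ * y⁻¹} := by
  obtain ⟨v, hv, hip⟩ := E3_vec D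
  have hm : 1 ≤ ht β.1 := by
    unfold SLC.Pos at hβ
    omega
  have he0 : C.A.det * ht β.1 ≠ 0 := mul_ne_zero C.det_ne_zero (by omega)
  obtain ⟨d, ⟨c, hc1, hc2, hc3⟩, hd⟩ :=
    ((E3_inf he _ he0).sdiff (Set.toFinite ({1, -1} : Set k))).nonempty
  have hd1 : d - 1 ≠ 0 := fun h => hd (Or.inl (sub_eq_zero.1 h))
  have hd2 : d + 1 ≠ 0 := fun h => hd (Or.inr (eq_neg_of_add_eq_zero_left h))
  have hd3 : d * d - 1 ≠ 0 := by
    have : d * d - 1 = (d - 1) * (d + 1) := by ring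
    rw [this]
    exact mul_ne_zero hd1 hd2
  have hθd : θ d = d := by rw [← hc3, map_zpow₀, hc1]
  obtain ⟨τ, hτ, hact⟩ := exists_tor he.sig he.hθ he.hA v hv c hc2 hc1
  have hτβ : ∀ u, τ * S.x β u * τ⁻¹ = S.x β (d * u) := fun u => by
    rw [hact, hip, hc3]
  have hτs : s τ = τ := Eg_le_fix S s τ hτ.2
  have hτZ : ∀ z ∈ ZZ D S β, τ * z * τ⁻¹ ∈ ZZ D S β := by
    intro z hz
    refine E3_conj_clos τ _ ?_ z hz
    rintro a ⟨γ, u, hγ, rfl⟩
    rw [hact]
    exact Subgroup.subset_closure ⟨γ, _, hγ, rfl⟩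
  have hτX : ∀ z ∈ XO D S β, τ * z * τ⁻¹ ∈ XO D S β := by
    intro z hz
    refine E3_conj_clos τ _ ?_ z hz
    rintro a ⟨γ, u, hγ, rfl⟩
    rw [hact]
    exact Subgroup.subset_closure ⟨γ, _, hγ, rfl⟩
  have hτF : ∀ y ∈ fixX D S s β, τ * y * τ⁻¹ ∈ fixX D S s β := by
    intro y hy
    refine Subgroup.mem_inf.2 ⟨hτX y hy.1, ?_⟩
    have h1 : s y = y := hy.2
    change s (τ * y * τ⁻¹) = τ * y * τ⁻¹
    rw [map_mul, map_mul, map_inv, hτs, h1]
  -- central elements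
  have hZ : ∀ z ∈ ZZ D S β, s z = z → z ∈ Subgroup.closure
      {g | ∃ h ∈ S.T ⊓ Eg S s, ∃ y ∈ fixX D S s β, g = h * y * h⁻¹ * y⁻¹} := by
    intro z hz hs
    by_cases hγ : ∃ γ : C.Root, γ.1 = β.1 + (D.r β).1
    · obtain ⟨γ, hγ⟩ := hγ
      obtain ⟨hr, -, -, -⟩ := E3_sum D β γ hγ
      obtain ⟨hrγ, hsγ⟩ := D.sg_adj β γ hr hγ
      obtain ⟨a, rfl⟩ := E3_ZZ_x (D := D) S β γ hγ z hz
      have h1 : ∀ b, s (S.x γ b) = S.x γ (-θ b) := by
        intro b
        rw [he.sig, hrγ, hsγ]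
        congr 1
        push_cast
        ring
      have h2 : -θ a = a := by
        by_cases ha : a = 0
        · rw [ha, map_zero, neg_zero]
        · rw [h1] at hs
          have h3 := congrArg p hs
          rw [he.hp, he.hp] at h3
          exact ((C.xg_inj γ γ a (-θ a) ha h3.symm).2).symm
      have hy : S.x γ ((d * d - 1)⁻¹ * a) ∈ fixX D S s β := by
        refine Subgroup.mem_inf.2 ⟨Subgroup.subset_closure ⟨γ, _, Or.inr hγ, rfl⟩, ?_⟩
        change s (S.x γ ((d * d - 1)⁻¹ * a)) = S.x γ ((d * d - 1)⁻¹ * a)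
        rw [h1, map_mul, map_inv₀, map_sub, map_mul, map_one, hθd, ← mul_neg, h2]
      refine Subgroup.subset_closure ⟨τ, hτ, _, hy, ?_⟩
      rw [hact, hip, hγ, ht_add, D.r_ht, mul_add, zpow_add₀ hc2, hc3, ← S.x_neg, ← S.map_add]
      congr 1
      have h5 : (d * d - 1) * ((d * d - 1)⁻¹ * a) = a := mul_inv_cancel_left₀ hd3 a
      linear_combination -h5
    · have h1 : z = 1 := E3_ZZ_bot (D := D) S β (fun γ h => hγ ⟨γ, h⟩) z hz
      rw [h1]
      exact one_mem _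
  obtain ⟨t, ht, z, hz, rfl⟩ := fixX_form he β hβ x hx
  obtain ⟨z', hz', hy⟩ := fixX_exists he β hβ ((d - 1)⁻¹ * t) (by
    intro hr
    rw [map_mul, map_inv₀, map_sub, map_one, hθd]
    have := ht hr
    calc (D.sg β : k) * ((d - 1)⁻¹ * θ t) = (d - 1)⁻¹ * ((D.sg β : k) * θ t) := by ring
      _ = (d - 1)⁻¹ * t := by rw [this])
  set t' := (d - 1)⁻¹ * t with ht'
  set y := yb D S s β t' * z' with hydef
  have hq : τ * y * τ⁻¹ * y⁻¹ ∈ fixX D S s β := mul_mem (hτF y hy) (inv_mem hy)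
  have hadd : t + t' = d * t' := by
    rw [ht']
    field_simp
    ring
  obtain ⟨w, hw, hw2⟩ := E3_yb_add he β t t'
  have hyX : y ∈ XO D S β := hy.1
  have hybX : ∀ a, yb D S s β a ∈ XO D S β := by
    intro a
    have := yb_mem_XO he β a 1 (one_mem _)
    rwa [mul_one] at this
  -- yb t = (commutator) * central
  obtain ⟨q, hq2, hq3⟩ : ∃ q ∈ ZZ D S β, yb D S s β t * z = (τ * y * τ⁻¹ * y⁻¹) * q := by
    have e1 : τ * y * τ⁻¹ = yb D S s β (d * t') * (τ * z' * τ⁻¹) := by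
      rw [← E3_yb_conj (D := D) S s β τ hτs d hτβ t', hydef]
      group
    refine ⟨(τ * z' * τ⁻¹)⁻¹ * w * z' * z, mul_mem (mul_mem (mul_mem (inv_mem (hτZ z' hz')) hw)
      hz') hz, ?_⟩
    have hc1 := E3_central S β (τ * z' * τ⁻¹) y⁻¹ (hτZ z' hz') (inv_mem hyX)
    have e2 : yb D S s β (d * t') = yb D S s β t * yb D S s β t' * w⁻¹ := by
      rw [hw2, hadd]
      group
    have hc3 := E3_central S β w⁻¹ y⁻¹ (inv_mem hw) (inv_mem hyX)
    have hc4 := E3_central S β z'⁻¹ (yb D S s β t')⁻¹ (inv_mem hz') (inv_mem (hybX t'))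
    have e3 : yb D S s β t' * y⁻¹ = z'⁻¹ := by
      rw [hydef, _root_.mul_inv_rev, hc4]
      group
    rw [e1]
    calc yb D S s β t * z
        = yb D S s β t * z'⁻¹ * (z' * z) := by group
      _ = yb D S s β t * (yb D S s β t' * y⁻¹) * (z' * z) := by rw [e3]
      _ = yb D S s β t * yb D S s β t' * (y⁻¹ * w⁻¹) * (w * z' * z) := by group
      _ = yb D S s β t * yb D S s β t' * (w⁻¹ * y⁻¹) * (w * z' * z) := by rw [hc3]
      _ = yb D S s β (d * t') * (y⁻¹ * (τ * z' * τ⁻¹)) * ((τ * z' * τ⁻¹)⁻¹ * w * z' * z) := by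
          rw [e2]; group
      _ = yb D S s β (d * t') * (τ * z' * τ⁻¹) * y⁻¹ * ((τ * z' * τ⁻¹)⁻¹ * w * z' * z) := by
          rw [← hc1]; group
  rw [hq3]
  refine mul_mem (Subgroup.subset_closure ⟨τ, hτ, y, hy, rfl⟩) (hZ q hq2 ?_)
  have h1 : s (yb D S s β t * z) = yb D S s β t * z := hx.2
  have h2 : s (τ * y * τ⁻¹ * y⁻¹) = τ * y * τ⁻¹ * y⁻¹ := hq.2
  have h3 : q = (τ * y * τ⁻¹ * y⁻¹)⁻¹ * (yb D S s β t * z) := by rw [hq3]; group
  rw [h3, map_mul, map_inv, h1, h2]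

theorem comm_mem (he : Env D θ S s p) (β : C.Root) (x : H) (hx : x ∈ fixX D S s β) :
    x ∈ Subgroup.closure {g | ∃ h ∈ S.T ⊓ Eg S s, ∃ y ∈ fixX D S s β, g = h * y * h⁻¹ * y⁻¹} := by
  by_cases hβ : C.Pos β
  · exact E3_pos he β hβ x hx
  · obtain ⟨p', he'⟩ := Env_neg he
    have h1 : C.Pos (-β) := (C.not_pos_iff β).mp hβ
    have h2 : fixX D S.neg s (-β) = fixX D S s β := by
      rw [fixX_neg, C.neg_neg_root]
    have h3 := E3_pos he' (-β) h1 x (by rw [h2]; exact hx)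
    rw [h2, S.neg_T, Eg_neg] at h3
    exact h3

theorem hom_eq (he : Env D θ S s p) {H' : Type*} [Group H'] (f g : Eg S s →* H')
    (h : ∀ x, ∃ z ∈ Subgroup.center H', f x = g x * z) : f = g := by
  have hcomm : ∀ a b : Eg S s, f (a * b * a⁻¹ * b⁻¹) = g (a * b * a⁻¹ * b⁻¹) := by
    intro a b
    obtain ⟨z, hz, h1⟩ := h a
    obtain ⟨w, hw, h2⟩ := h b
    rw [Subgroup.mem_center_iff] at hz hw
    have hz' : ∀ x, z * x = x * z := fun x => (hz x).symm
    have hw' : ∀ x, w * x = x * w := fun x => (hw x).symm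
    simp only [map_mul, map_inv, h1, h2]
    have e1 : z * (g b * w) = g b * w * z := hz' _
    have e2 : w * (g a)⁻¹ = (g a)⁻¹ * w := hw' _
    calc g a * z * (g b * w) * (g a * z)⁻¹ * (g b * w)⁻¹
        = g a * (z * (g b * w)) * z⁻¹ * (g a)⁻¹ * w⁻¹ * (g b)⁻¹ := by group
      _ = g a * g b * (w * (g a)⁻¹) * w⁻¹ * (g b)⁻¹ := by rw [e1]; group
      _ = g a * g b * (g a)⁻¹ * (g b)⁻¹ := by rw [e2]; group
  -- the subgroup on which they agree
  let Q : Subgroup H := (MonoidHom.eqLocus f g).map (Eg S s).subtype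
  have hX : ∀ β, fixX D S s β ≤ Eg S s → fixX D S s β ≤ Q := by
    intro β hle x hx
    have h1 := comm_mem he β x hx
    refine (Subgroup.closure_le Q).2 ?_ h1
    rintro _ ⟨a, ha, y, hy, rfl⟩
    refine ⟨⟨a, ha.2⟩ * ⟨y, hle hy⟩ * ⟨a, ha.2⟩⁻¹ * ⟨y, hle hy⟩⁻¹, hcomm _ _, rfl⟩
  have hI := inj_of_map S p he.hp
  have hU := fixU_eq hI.1 he.sig he.hθ he.hB
  have hUm := fixUm_eq hI.2 he.sig he.hθ he.hB
  have h1 : fixU S s ≤ Q := by
    rw [hU, Subgroup.closure_le]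
    rintro x ⟨β, hβ, hx⟩
    exact hX β ((fixX_le_fixU S s β hβ).trans le_sup_left) hx
  have h2 : fixUm S s ≤ Q := by
    rw [hUm, Subgroup.closure_le]
    rintro x ⟨β, hβ, hx⟩
    refine hX β ?_ hx
    intro y hy
    refine (le_sup_right : fixUm S s ≤ Eg S s) ?_
    rw [hUm]
    exact Subgroup.subset_closure ⟨β, hβ, hy⟩
  have h3 : Eg S s ≤ Q := sup_le h1 h2
  ext x
  obtain ⟨y, hy, hyx⟩ := h3 x.2
  have h4 : y = x := Subtype.ext hyx
  rw [h4] at hy
  exact hy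

end Pool.Agent.H75.UL
end

section
/- module Pool.Agent.H86.UM.FC2 -/
/-!
# Project UM, module FC2: the field homomorphisms of neighbouring orbits

`mo D (simple i)` is `1` if `ρ i = i`, otherwise `m` (`r_simple`, `simple_injective`).
`sp_nn`: `P = ∏_l (θ^l t) ^ A (ρ^l i) j = t⁻¹` by `orb_adj` (`A i j = -1` by `C.off`); `RO_compat`.
`sp_fx`: `i` fixed: `P = t ^ A i j = t⁻¹`. `sp_norm`: `j` fixed, `A (ρ^l i) j = A i j = -1` for all `l`
(`hρ`), so `P` is the inverse of the product, `RO_compat`. `sp_adj`: `RO_tor` for `i`, `t`: `h` with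
`chi (p h) (simple j) = t⁻¹` (`orb_adj`), `chi (Ψ h) (simple j) = (φ t)⁻¹`; apply `Ψ` to `h x h⁻¹` with
`x ∈ fixX (simple j)`, `xi j (p x) = 1` (`fixX_xi_exists`), `Pin_xi`, `xi_conj`.
`RO_eq`: `x = yb (± simple i) t` (`fixX_form`, `mem_kO`, `ZZ` trivial; negative case with `S.neg` or `SR_ν`), and
`mp φ (p x) = yb' (± simple i) (φ t)` (`IsSig.iter`, `sgl`, `φ (θ^l t) = θ'^l (φ t)`), conjugation with `tad cc`
multiplies the coordinate at `± simple (ρ^l i)` by `(cc (ρ^l i)) ^ ± 1 = (θ'^l c) ^ ± 1`.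
-/

set_option autoImplicit false
open Matrix

namespace Pool.Agent.H86.UM

open Pool.Agent.H75.UL

variable {n : ℕ} {C : SLC n} {D : Dg C} {k : Type*} [Field k] {θ : k ≃+* k} {H : Type*} [Group H]
  {S : StSys C k H} {s : H →* H} {p : H →* GL C.Idx k}

private theorem FC2_off (i j : Fin n) (hij : i ≠ j) (hA : C.A i j ≠ 0) : C.A i j = -1 :=
  (C.off i j hij).resolve_left hA

private theorem FC2_diag (i : Fin n) (h : D.ρ i = i) : C.A i (D.ρ i) ≠ -1 := by
  rw [h, C.diag]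
  norm_num

private theorem FC2_m_pos (D : Dg C) : 0 < D.m := by
  rcases D.m_cases with h | h | h <;> omega

private theorem FC2_mo_fix (i : Fin n) (h : D.ρ i = i) : mo D (C.simple i) = 1 := by
  unfold mo
  rw [if_pos]
  rw [D.r_simple, h]

private theorem FC2_mo_ne (i : Fin n) (h : D.ρ i ≠ i) : mo D (C.simple i) = D.m := by
  unfold mo
  rw [if_neg]
  rw [D.r_simple]
  exact fun hc => h (C.simple_injective hc)

private theorem FC2_prod {F : Type*} [Field F] (f : ℕ → F) (i j : Fin n) (m : ℕ) (hm : 0 < m)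
    (hA : C.A i j = -1) (h : ∀ l, 0 < l → l < m → C.A ((D.ρ ^ l) i) j = 0) :
    ∏ l ∈ Finset.range m, f l ^ C.A ((D.ρ ^ l) i) j = (f 0)⁻¹ := by
  rw [Finset.prod_eq_single 0]
  · rw [pow_zero, Equiv.Perm.one_apply, hA, _root_.zpow_neg_one]
  · intro l hl hl0
    rw [h l (Nat.pos_of_ne_zero hl0) (Finset.mem_range.mp hl), _root_.zpow_zero]
  · intro h0
    exact absurd (Finset.mem_range.mpr hm) h0

/-- two neighbouring orbits, not fixed, not adjacent -/
theorem sp_nn (he : Env D θ S s p) {K : Type*} [Field K] (θ' : K ≃+* K)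
    (Ψ : Eg S s →* GL C.Idx K) (hP : Pin he θ' Ψ) (i j : Fin n) (hi : C.A i (D.ρ i) ≠ -1)
    (hj : C.A j (D.ρ j) ≠ -1) (hij : ¬ D.ρ.SameCycle i j) (hA : C.A i j ≠ 0)
    (hi' : D.ρ i ≠ i) (hj' : D.ρ j ≠ j)
    (c : K) (φ : kO D θ i →+* K) (hR : RO he θ' Ψ i c φ)
    (c' : K) (φ' : kO D θ j →+* K) (hR' : RO he θ' Ψ j c' φ')
    (t : kO D θ i) (t' : kO D θ j) (htt : (t' : k) = t) : φ' t' = φ t := by
  by_cases h0 : t = 0
  · have h1 : t' = 0 := by
      apply Subtype.ext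
      rw [htt, h0]
      rfl
    rw [h0, h1, map_zero, map_zero]
  · have hne : i ≠ j := fun h => hij (h ▸ Equiv.Perm.SameCycle.refl _ _)
    have hA1 := FC2_off i j hne hA
    have hz : ∀ l, 0 < l → l < mo D (C.simple i) → C.A ((D.ρ ^ l) i) j = 0 := by
      intro l h1 h2
      rw [FC2_mo_ne i hi'] at h2
      exact orb_adj D i j hij hA hi' hj' l h1 h2
    have hm : 0 < mo D (C.simple i) := by
      rw [FC2_mo_ne i hi']
      exact FC2_m_pos D
    have h1 := RO_compat he θ' Ψ hP i j hi hj c φ hR c' φ' hR' t h0 t'⁻¹ (by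
      rw [FC2_prod (fun l => (⇑θ)^[l] (t : k)) i j _ hm hA1 hz]
      change ((t' : k))⁻¹ = _
      rw [htt]
      rfl)
    rw [FC2_prod (fun l => (⇑θ')^[l] (φ t)) i j _ hm hA1 hz, map_inv₀] at h1
    exact inv_injective h1

/-- `i` fixed, `j` a neighbour (fixed or not, not adjacent) -/
theorem sp_fx (he : Env D θ S s p) {K : Type*} [Field K] (θ' : K ≃+* K)
    (Ψ : Eg S s →* GL C.Idx K) (hP : Pin he θ' Ψ) (i j : Fin n)
    (hj : C.A j (D.ρ j) ≠ -1) (hij : i ≠ j) (hA : C.A i j ≠ 0) (hi' : D.ρ i = i)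
    (c : K) (φ : kO D θ i →+* K) (hR : RO he θ' Ψ i c φ)
    (c' : K) (φ' : kO D θ j →+* K) (hR' : RO he θ' Ψ j c' φ')
    (t : kO D θ i) (t' : kO D θ j) (htt : (t' : k) = t) : φ' t' = φ t := by
  by_cases h0 : t = 0
  · have h1 : t' = 0 := by
      apply Subtype.ext
      rw [htt, h0]
      rfl
    rw [h0, h1, map_zero, map_zero]
  · have hA1 := FC2_off i j hij hA
    have hz : ∀ l, 0 < l → l < mo D (C.simple i) → C.A ((D.ρ ^ l) i) j = 0 := by
      intro l h1 h2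
      rw [FC2_mo_fix i hi'] at h2
      omega
    have hm : 0 < mo D (C.simple i) := by
      rw [FC2_mo_fix i hi']
      exact one_pos
    have h1 := RO_compat he θ' Ψ hP i j (FC2_diag i hi') hj c φ hR c' φ' hR' t h0 t'⁻¹ (by
      rw [FC2_prod (fun l => (⇑θ)^[l] (t : k)) i j _ hm hA1 hz]
      change ((t' : k))⁻¹ = _
      rw [htt]
      rfl)
    rw [FC2_prod (fun l => (⇑θ')^[l] (φ t)) i j _ hm hA1 hz, map_inv₀] at h1
    exact inv_injective h1

private theorem FC2_pow (D : Dg C) (i j : Fin n) (hj : D.ρ j = j) (l : ℕ) :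
    C.A ((D.ρ ^ l) i) j = C.A i j := by
  induction l with
  | zero => rfl
  | succ l ih =>
    rw [pow_succ', Equiv.Perm.mul_apply]
    conv_lhs => rw [← hj]
    rw [D.hρ, ih]

/-- `j` fixed, `i` a neighbour which is not fixed: norms -/
theorem sp_norm (he : Env D θ S s p) {K : Type*} [Field K] (θ' : K ≃+* K)
    (Ψ : Eg S s →* GL C.Idx K) (hP : Pin he θ' Ψ) (i j : Fin n) (hi : C.A i (D.ρ i) ≠ -1)
    (hA : C.A i j ≠ 0) (hi' : D.ρ i ≠ i) (hj' : D.ρ j = j)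
    (c : K) (φ : kO D θ i →+* K) (hR : RO he θ' Ψ i c φ)
    (c' : K) (φ' : kO D θ j →+* K) (hR' : RO he θ' Ψ j c' φ')
    (t : kO D θ i) (P : kO D θ j) (hPt : (P : k) = ∏ l ∈ Finset.range D.m, (⇑θ)^[l] (t : k)) :
    φ' P = ∏ l ∈ Finset.range D.m, (⇑θ')^[l] (φ t) := by
  have hm := FC2_m_pos D
  by_cases h0 : t = 0
  · have h1 : P = 0 := by
      apply Subtype.ext
      rw [hPt, h0]
      exact Finset.prod_eq_zero (Finset.mem_range.mpr hm) rfl
    rw [h0, h1, map_zero, map_zero]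
    exact (Finset.prod_eq_zero (Finset.mem_range.mpr hm) rfl).symm
  · have hne : i ≠ j := fun h => hi' (by rw [h, hj'])
    have hA1 := FC2_off i j hne hA
    have h1 := RO_compat he θ' Ψ hP i j hi (FC2_diag j hj') c φ hR c' φ' hR' t h0 P⁻¹ (by
      rw [FC2_mo_ne i hi']
      change ((P : k))⁻¹ = _
      rw [hPt, ← Finset.prod_inv_distrib]
      refine Finset.prod_congr rfl fun l _ => ?_
      rw [FC2_pow D i j hj', hA1, _root_.zpow_neg_one])
    rw [FC2_mo_ne i hi', map_inv₀] at h1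
    have h2 : ∏ l ∈ Finset.range D.m, (⇑θ')^[l] (φ t) ^ C.A ((D.ρ ^ l) i) j =
        (∏ l ∈ Finset.range D.m, (⇑θ')^[l] (φ t))⁻¹ := by
      rw [← Finset.prod_inv_distrib]
      refine Finset.prod_congr rfl fun l _ => ?_
      rw [FC2_pow D i j hj', hA1, _root_.zpow_neg_one]
    rw [h2] at h1
    exact inv_injective h1

private theorem FC2_gad (he : Env D θ S s p) (h : H) (hh : h ∈ S.T) :
    p h ∈ C.Gad k ∧ C.Fil 0 (p h : Matrix C.Idx C.Idx k) := by
  have h1 := C.S9_T S p he.hp h hh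
  refine ⟨?_, C.Fil_T _ h1⟩
  rw [← C.gen_adS k]
  exact (C.adS k).T_le_gen h1

private theorem FC2_XO_conj (he : Env D θ S s p) (h : H) (hh : h ∈ S.T) (β : C.Root) (x : H)
    (hx : x ∈ XO D S β) : h * x * h⁻¹ ∈ XO D S β := by
  unfold XO at hx
  induction hx using Subgroup.closure_induction with
  | mem g hg =>
    obtain ⟨γ, t, hγ, rfl⟩ := hg
    rw [(SR_T he h hh γ t).2]
    exact Subgroup.subset_closure ⟨_, _, hγ, rfl⟩
  | one =>
    rw [mul_one, mul_inv_cancel]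
    exact Subgroup.one_mem _
  | mul a b _ _ ha hb =>
    have : h * (a * b) * h⁻¹ = (h * a * h⁻¹) * (h * b * h⁻¹) := by group
    rw [this]
    exact Subgroup.mul_mem _ ha hb
  | inv a _ ha =>
    have : h * a⁻¹ * h⁻¹ = (h * a * h⁻¹)⁻¹ := by group
    rw [this]
    exact Subgroup.inv_mem _ ha

/-- `j` in the adjacent orbit, `i` a neighbour outside -/
theorem sp_adj (he : Env D θ S s p) {K : Type*} [Field K] (θ' : K ≃+* K)
    (Ψ : Eg S s →* GL C.Idx K) (hP : Pin he θ' Ψ) (i j : Fin n) (hi : C.A i (D.ρ i) ≠ -1)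
    (hj : C.A j (D.ρ j) = -1) (hij : ¬ D.ρ.SameCycle i j) (hA : C.A i j ≠ 0)
    (hi' : D.ρ i ≠ i)
    (c : K) (φ : kO D θ i →+* K) (hR : RO he θ' Ψ i c φ)
    (c' : K) (φ' : k →+* K) (hR' : RA he Ψ j c' φ') (t : kO D θ i) : φ' t = φ t := by
  by_cases h0 : t = 0
  · rw [h0, map_zero]
    exact map_zero φ'
  · have hne : i ≠ j := fun h => hij (h ▸ Equiv.Perm.SameCycle.refl _ _)
    have hA1 := FC2_off i j hne hA
    have hj' : D.ρ j ≠ j := by
      intro h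
      exact FC2_diag j h hj
    have hz : ∀ l, 0 < l → l < mo D (C.simple i) → C.A ((D.ρ ^ l) i) j = 0 := by
      intro l h1 h2
      rw [FC2_mo_ne i hi'] at h2
      exact orb_adj D i j hij hA hi' hj' l h1 h2
    have hm : 0 < mo D (C.simple i) := by
      rw [FC2_mo_ne i hi']
      exact FC2_m_pos D
    obtain ⟨h, hT, hh1, hh2⟩ := RO_tor he θ' Ψ hP i hi c φ hR t h0
    have e1 := hh1 j
    rw [FC2_prod (fun l => (⇑θ)^[l] (t : k)) i j _ hm hA1 hz] at e1
    have e2 := hh2 j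
    rw [FC2_prod (fun l => (⇑θ')^[l] (φ t)) i j _ hm hA1 hz] at e2
    obtain ⟨x, hx, hx1⟩ := fixX_xi_exists he j 1 (fun _ => map_one θ)
    have hxE : x ∈ Eg S s := Subgroup.mem_sup_left (fixX_le_fixU S s _ (C.simple_pos j) hx)
    have hy : ((h * ⟨x, hxE⟩ * h⁻¹ : Eg S s) : H) ∈ fixX D S s (C.simple j) := by
      refine ⟨FC2_XO_conj he h.1 hT _ x hx.1, ?_⟩
      change s (h.1 * x * h.1⁻¹) = h.1 * x * h.1⁻¹
      rw [map_mul, map_mul, map_inv, Eg_le_fix S s _ h.2, Eg_le_fix S s _ hxE]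
    have h3 := hR'.coord _ hy
    have h4 := Pin_xi he θ' Ψ hP h hT j ⟨x, hxE⟩ hx
    have h5 := hR'.coord ⟨x, hxE⟩ hx
    rw [hx1, map_one, mul_one] at h5
    rw [h4, h5, e2] at h3
    have h6 : C.xi j (p ((h * ⟨x, hxE⟩ * h⁻¹ : Eg S s) : H) : Matrix C.Idx C.Idx k) =
        (t : k)⁻¹ := by
      have h7 := (C.xi_conj (p h.1) (p x) (FC2_gad he h.1 hT).1 (FC2_gad he h.1 hT).2
        (C.S9_U S p he.hp 1 x (fixX_le_fixU S s _ (C.simple_pos j) hx).1) j).2
      rw [e1, hx1, mul_one] at h7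
      rw [Subgroup.coe_mul, Subgroup.coe_mul, Subgroup.coe_inv, map_mul, map_mul, map_inv]
      exact h7
    rw [h6, map_inv₀, mul_comm] at h3
    exact (inv_injective (mul_left_cancel₀ hR'.c_ne h3)).symm

/-! ### explicit form of `yb` -/

private theorem FC2_sgp (D : Dg C) (i : Fin n) (l : ℕ) : D.sgp l (C.simple i) = 1 := by
  unfold Dg.sgp
  refine Finset.prod_eq_one fun j _ => ?_
  rw [D.r_iter_simple, D.sg_simple]

private theorem FC2_iter_neg (D : Dg C) (l : ℕ) (β : C.Root) : D.r^[l] (-β) = -(D.r^[l] β) := by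
  induction l with
  | zero => rfl
  | succ l ih => rw [Function.iterate_succ_apply', Function.iterate_succ_apply', ih, D.r_neg]

private theorem FC2_sgp_neg (D : Dg C) (i : Fin n) (l : ℕ) : D.sgp l (-(C.simple i)) = 1 := by
  unfold Dg.sgp
  refine Finset.prod_eq_one fun j _ => ?_
  rw [FC2_iter_neg, D.sg_neg, D.r_iter_simple, D.sg_simple]

private theorem FC2_mo_neg (D : Dg C) (β : C.Root) : mo D (-β) = mo D β := by
  unfold mo
  have h : D.r (-β) = -β ↔ D.r β = β := by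
    rw [D.r_neg]
    constructor
    · intro h
      have := congrArg (fun x : C.Root => -x) h
      simpa [C.neg_neg_root] using this
    · intro h
      rw [h]
  by_cases h1 : D.r β = β
  · rw [if_pos h1, if_pos (h.mpr h1)]
  · rw [if_neg h1, if_neg (fun h2 => h1 (h.mp h2))]

private theorem FC2_yb_pos {F : Type*} [Field F] {ϑ : F ≃+* F} {G : Type*} [Group G]
    {A : StSys C F G} {a : G →* G} (h : IsSig D ϑ A a) (i : Fin n) (t : F) :
    yb D A a (C.simple i) t = ((List.range (mo D (C.simple i))).map fun l =>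
      A.x (C.simple ((D.ρ ^ l) i)) ((⇑ϑ)^[l] t)).prod := by
  unfold yb
  congr 1
  apply List.map_congr_left
  intro l _
  rw [h.iter, FC2_sgp, D.r_iter_simple, Int.cast_one, one_mul]

private theorem FC2_yb_neg {F : Type*} [Field F] {ϑ : F ≃+* F} {G : Type*} [Group G]
    {A : StSys C F G} {a : G →* G} (h : IsSig D ϑ A a) (i : Fin n) (t : F) :
    yb D A a (-(C.simple i)) t = ((List.range (mo D (C.simple i))).map fun l =>
      A.x (-(C.simple ((D.ρ ^ l) i))) ((⇑ϑ)^[l] t)).prod := by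
  unfold yb
  rw [FC2_mo_neg]
  congr 1
  apply List.map_congr_left
  intro l _
  rw [h.iter, FC2_sgp_neg, FC2_iter_neg, D.r_iter_simple, Int.cast_one, one_mul]

private theorem FC2_ZZ (S : StSys C k H) (i : Fin n) (hi : C.A i (D.ρ i) ≠ -1) (z : H)
    (hz : z ∈ ZZ D S (C.simple i)) : z = 1 := by
  unfold ZZ at hz
  rw [← Subgroup.mem_bot]
  refine (Subgroup.closure_le (K := (⊥ : Subgroup H))).mpr ?_ hz
  rintro g ⟨γ, v, hγ, rfl⟩
  exfalso
  have h1 := C.ip_add_root _ _ _ hγ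
  rw [D.r_simple, SLC.simple_val, SLC.simple_val, SLC.ip_single] at h1
  exact hi h1

private theorem FC2_form (he : Env D θ S s p) (i : Fin n) (hi : C.A i (D.ρ i) ≠ -1) (x : H)
    (hx : x ∈ fixX D S s (C.simple i)) :
    ∃ t : kO D θ i, x = yb D S s (C.simple i) t := by
  obtain ⟨t, ht, z, hz, hxz⟩ := fixX_form he (C.simple i) (C.simple_pos i) x hx
  refine ⟨⟨t, (mem_kO D θ i t).mpr fun h => ?_⟩, ?_⟩
  · have h1 := ht (by rw [D.r_simple, h])
    rwa [D.sg_simple, Int.cast_one, one_mul] at h1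
  · rw [hxz, FC2_ZZ S i hi z hz, mul_one]

/-- the environment for the negative roots -/
private theorem FC2_neg (he : Env D θ S s p) :
    Env D θ S.neg s ((MulAut.conj (omG C k)).toMonoidHom.comp p) where
  inf := he.inf
  sig := he.sig.neg
  hp := by
    intro β t
    change omG C k * p (S.x (-β) t) * (omG C k)⁻¹ = C.xg k β t
    rw [he.hp, omG_xg, C.neg_neg_root]
  hθ := he.hθ
  hA := he.hA
  hB := he.hB
  hC := he.hC

private theorem FC2_inO_neg (D : Dg C) (β γ : C.Root) (hγ : D.inO β γ) : D.inO (-β) (-γ) := by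
  rcases hγ with ⟨l, rfl⟩ | h
  · exact Or.inl ⟨l, (FC2_iter_neg D l β).symm⟩
  · right
    rw [D.r_neg, SLC.Root.neg_val, SLC.Root.neg_val, SLC.Root.neg_val, h, neg_add]

private theorem FC2_XO_neg (D : Dg C) (S : StSys C k H) (β : C.Root) :
    XO D S (-β) ≤ XO D S.neg β := by
  unfold XO
  apply Subgroup.closure_mono
  rintro g ⟨γ, t, hγ, rfl⟩
  refine ⟨-γ, t, ?_, ?_⟩
  · have h := FC2_inO_neg D _ _ hγ
    rwa [C.neg_neg_root] at h
  · rw [StSys.neg_x, C.neg_neg_root]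

private theorem FC2_form_neg (he : Env D θ S s p) (i : Fin n) (hi : C.A i (D.ρ i) ≠ -1) (x : H)
    (hx : x ∈ fixX D S s (-(C.simple i))) :
    ∃ t : kO D θ i, x = yb D S s (-(C.simple i)) t := by
  have hx' : x ∈ fixX D S.neg s (C.simple i) := ⟨FC2_XO_neg D S _ hx.1, hx.2⟩
  obtain ⟨t, ht⟩ := FC2_form (FC2_neg he) i hi x hx'
  refine ⟨t, ?_⟩
  rw [ht, FC2_yb_neg he.sig, FC2_yb_pos he.sig.neg]
  rfl

private theorem FC2_rho_ne (i : Fin n) (l : ℕ) (h0 : 0 < l) (hl : l < mo D (C.simple i)) :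
    (D.ρ ^ l) i ≠ i := by
  by_cases h : D.ρ i = i
  · rw [FC2_mo_fix i h] at hl
    omega
  · rw [FC2_mo_ne i h] at hl
    intro hc
    have h1 : D.r (C.simple i) ≠ C.simple i := by
      rw [D.r_simple]
      exact fun hc => h (C.simple_injective hc)
    have h2 := D.r_iter_eq (C.simple i) h1 l 0 hl (FC2_m_pos D) (by
      rw [D.r_iter_simple, hc]
      rfl)
    omega

private theorem FC2_xi_prod {F : Type*} [Field F] (D : Dg C) (i : Fin n) (f : ℕ → F) (k : ℕ)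
    (h : ∀ l, 0 < l → l < k → (D.ρ ^ l) i ≠ i) :
    ((List.range k).map fun l => C.xg F (C.simple ((D.ρ ^ l) i)) (f l)).prod ∈ (C.adS F).U 1 ∧
    (0 < k → C.xi i (((List.range k).map fun l =>
      C.xg F (C.simple ((D.ρ ^ l) i)) (f l)).prod : GL C.Idx F) = f 0) := by
  have hU : ∀ (j : Fin n) (u : F), C.xg F (C.simple j) u ∈ (C.adS F).U 1 := by
    intro j u
    refine Subgroup.subset_closure ⟨C.simple j, u, ?_, rfl⟩
    have := C.simple_pos j
    unfold SLC.Pos at this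
    omega
  induction k with
  | zero =>
    refine ⟨?_, fun h => absurd h (lt_irrefl 0)⟩
    exact Subgroup.one_mem _
  | succ k ih =>
    obtain ⟨ih1, ih2⟩ := ih (fun l h0 hl => h l h0 (by omega))
    rw [List.range_succ, List.map_append, List.prod_append, List.map_cons, List.map_nil,
      List.prod_cons, List.prod_nil, mul_one]
    refine ⟨Subgroup.mul_mem _ ih1 (hU _ _), fun _ => ?_⟩
    rw [C.xi_mul i _ _ ih1 (hU _ _), C.xi_xg i _ (C.simple_pos _)]
    rcases Nat.eq_zero_or_pos k with hk | hk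
    · subst hk
      rw [List.range_zero, List.map_nil, List.prod_nil, pow_zero, Equiv.Perm.one_apply, if_pos rfl]
      have h1 := C.xi_mul i (1 : GL C.Idx F) 1 (Subgroup.one_mem _) (Subgroup.one_mem _)
      rw [mul_one] at h1
      have h2 : C.xi i ((1 : GL C.Idx F) : Matrix C.Idx C.Idx F) = 0 := by
        have h3 := h1.symm
        rwa [add_eq_left] at h3
      rw [h2, zero_add]
    · rw [ih2 hk, if_neg, add_zero]
      exact fun hc => h k hk (by omega) (C.simple_injective hc)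

private theorem FC2_mo_pos (D : Dg C) (β : C.Root) : 0 < mo D β := by
  unfold mo
  split_ifs
  · exact one_pos
  · exact FC2_m_pos D

theorem RO_RA (he : Env D θ S s p) {K : Type*} [Field K] (θ' : K ≃+* K)
    (Ψ : Eg S s →* GL C.Idx K) (hP : Pin he θ' Ψ) (i : Fin n) (hi : C.A i (D.ρ i) ≠ -1)
    (c : K) (φ : kO D θ i →+* K) (hR : RO he θ' Ψ i c φ) (φ₀ : k →+* K)
    (h0 : ∀ t : kO D θ i, φ₀ t = φ t) : RA he Ψ i c φ₀ := by
  refine ⟨hR.c_ne, fun x hx => ?_⟩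
  obtain ⟨t, ht⟩ := FC2_form he i hi x.1 hx
  have h1 := hR.pos t x ht
  rw [h1, FC2_yb_pos (isSig_adS D θ'), ht, FC2_yb_pos he.sig, map_list_prod, List.map_map]
  have e1 := (FC2_xi_prod (F := K) D i (fun l => (⇑θ')^[l] (c * φ t)) _
    (fun l h0 hl => FC2_rho_ne i l h0 hl)).2 (FC2_mo_pos D _)
  have e2 := (FC2_xi_prod (F := k) D i (fun l => (⇑θ)^[l] (t : k)) _
    (fun l h0 hl => FC2_rho_ne i l h0 hl)).2 (FC2_mo_pos D _)
  have e3 : (⇑p ∘ fun l => S.x (C.simple ((D.ρ ^ l) i)) ((⇑θ)^[l] (t : k))) =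
      fun l => C.xg k (C.simple ((D.ρ ^ l) i)) ((⇑θ)^[l] (t : k)) := by
    funext l
    exact he.hp _ _
  rw [e3, e2, ← h0 t]
  rw [← h0 t] at e1
  exact e1

private theorem FC2_single {F : Type*} [Field F] (c : Fin n → Fˣ) (j : Fin n) :
    (∏ i, c i ^ (C.simple j).1 i : Fˣ) = c j := by
  rw [Finset.prod_eq_single j]
  · rw [SLC.simple_val, Pi.single_eq_same, zpow_one]
  · intro i _ hi
    rw [SLC.simple_val, Pi.single_eq_of_ne hi, zpow_zero]
  · intro h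
    exact absurd (Finset.mem_univ j) h

private theorem FC2_single_neg {F : Type*} [Field F] (c : Fin n → Fˣ) (j : Fin n) :
    (∏ i, c i ^ (-(C.simple j)).1 i : Fˣ) = (c j)⁻¹ := by
  rw [← FC2_single (C := C) c j, ← Finset.prod_inv_distrib]
  refine Finset.prod_congr rfl fun i _ => ?_
  rw [SLC.Root.neg_val, Pi.neg_apply, _root_.zpow_neg]

private theorem FC2_cc {K : Type*} [Field K] (D : Dg C) (θ' : K ≃+* K) (cc : Fin n → Kˣ)
    (h2 : ∀ j, (cc (D.ρ j) : K) = θ' (cc j)) (i : Fin n) (l : ℕ) :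
    (cc ((D.ρ ^ l) i) : K) = (⇑θ')^[l] (cc i : K) := by
  induction l with
  | zero => rfl
  | succ l ih => rw [pow_succ', Equiv.Perm.mul_apply, h2, ih, Function.iterate_succ_apply']

private theorem FC2_phi {K : Type*} [Field K] (θ : k ≃+* k) (θ' : K ≃+* K) (φ₀ : k →+* K)
    (hφ : ∀ t, φ₀ (θ t) = θ' (φ₀ t)) (t : k) (l : ℕ) :
    φ₀ ((⇑θ)^[l] t) = (⇑θ')^[l] (φ₀ t) := by
  induction l with
  | zero => rfl
  | succ l ih => rw [Function.iterate_succ_apply', hφ, ih, Function.iterate_succ_apply']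

private theorem FC2_iter_mul {K : Type*} [Field K] (θ' : K ≃+* K) (a b : K) (l : ℕ) :
    (⇑θ')^[l] (a * b) = (⇑θ')^[l] a * (⇑θ')^[l] b := iterate_map_mul θ' l a b

private theorem FC2_iter_inv {K : Type*} [Field K] (θ' : K ≃+* K) (a : K) (l : ℕ) :
    (⇑θ')^[l] a⁻¹ = ((⇑θ')^[l] a)⁻¹ := by
  induction l with
  | zero => rfl
  | succ l ih => rw [Function.iterate_succ_apply', ih, map_inv₀, Function.iterate_succ_apply']

theorem RO_eq (he : Env D θ S s p) {K : Type*} [Field K] (θ' : K ≃+* K)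
    (Ψ : Eg S s →* GL C.Idx K) (hP : Pin he θ' Ψ) (i : Fin n) (hi : C.A i (D.ρ i) ≠ -1)
    (c : K) (φ : kO D θ i →+* K) (hR : RO he θ' Ψ i c φ) (φ₀ : k →+* K)
    (h0 : ∀ t : kO D θ i, φ₀ t = φ t) (hφ : ∀ t, φ₀ (θ t) = θ' (φ₀ t))
    (cc : Fin n → Kˣ) (h1 : (cc i : K) = c) (h2 : ∀ j, (cc (D.ρ j) : K) = θ' (cc j)) (x : Eg S s)
    (hx : (x : H) ∈ fixX D S s (C.simple i) ∨ (x : H) ∈ fixX D S s (-(C.simple i))) :
    Ψ x = tad C cc * C.mp φ₀ (p x) * (tad C cc)⁻¹ := by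
  set g : H →* GL C.Idx K := (MulAut.conj (tad C cc)).toMonoidHom.comp ((C.mp φ₀).comp p) with hg
  have hgx : ∀ β u, g (S.x β u) = C.xg K β (((∏ j, cc j ^ β.1 j : Kˣ) : K) * φ₀ u) := by
    intro β u
    change tad C cc * C.mp φ₀ (p (S.x β u)) * (tad C cc)⁻¹ = _
    rw [he.hp, C.mp_xg, tad_xg]
  change Ψ x = g x
  rcases hx with hx | hx
  · obtain ⟨t, ht⟩ := FC2_form he i hi x.1 hx
    rw [hR.pos t x ht, FC2_yb_pos (isSig_adS D θ'), ht, FC2_yb_pos he.sig, map_list_prod,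
      List.map_map]
    congr 1
    apply List.map_congr_left
    intro l _
    change C.xg K _ _ = g (S.x _ _)
    rw [hgx, FC2_single, FC2_cc D θ' cc h2, FC2_phi θ θ' φ₀ hφ, FC2_iter_mul, h1, h0]
  · obtain ⟨t, ht⟩ := FC2_form_neg he i hi x.1 hx
    rw [hR.neg t x ht, FC2_yb_neg (isSig_adS D θ'), ht, FC2_yb_neg he.sig, map_list_prod,
      List.map_map]
    congr 1
    apply List.map_congr_left
    intro l _
    change C.xg K _ _ = g (S.x _ _)
    rw [hgx, FC2_single_neg, Units.val_inv_eq_inv_val, FC2_cc D θ' cc h2, FC2_phi θ θ' φ₀ hφ,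
      FC2_iter_mul, FC2_iter_inv, h1, h0]

end Pool.Agent.H86.UM
end

section
/- module Pool.Agent.H86.UM.FC3 -/
/-!
# Project UM, module FC3: field compatibility (assembly)

For each `i` with `A i (ρ i) ≠ -1` fix `(c_i, φ_i)` with `RO` (`exists_RO`), for the others `(c_i, φ_i)` with
`RA` (`exists_RA`).
Case 1: all `ρ i = i`. Then `m = 1` (`ρ = 1`), `θ = 1`, `θ' = 1` (`he.hθ`, `hP.hθ` with `m = 1`), `fixF θ` is
everything; `φ` := `φ_(i₀)` for any `i₀` (`n > 0`), all `φ_i` are equal to `φ` on `k` by `sp_fx` and `C.conn`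
(the set of `i` with `φ_i = φ` is closed under neighbours).
Case 2: some `i₀` is not fixed; choose `i₀` not fixed, and if there is an adjacent orbit choose `i₀` in it. `φ` :=
`φ_(i₀) : k → K` (`kO = ⊤`, `mem_kO`).
(a) Relation between `φ θ` and `θ' φ`. If `i₀` is in an adjacent orbit: `exists_RA`. Otherwise by `exists_adj`
there is a fixed node, and there is no adjacent orbit. Let `A` be the set of nonfixed `i` with
`φ_i = φ` or ... it is convenient to prove first: for all nonfixed `i`: either for all `t`, `φ_i (θ t) = θ' (φ_i t)`,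
or `m = 3` and for all `t`, `φ_i (θ t) = θ' (θ' (φ_i t))`, and it is the same alternative for neighbours with
`φ_i = φ_j`. By `C.conn` for the set of fixed nodes there are a fixed `j` and a nonfixed `i` with `A i j ≠ 0`;
`sp_norm` gives `φ_j (N t) = N' (φ_i t)`, `sp_fx` gives `φ_i = φ_j` on the fixed field, so
`φ_i (N t) = N' (φ_i t)`: `m = 2`: `φ_i (θ t) = θ' (φ_i t)`; `m = 3`: `cubic_sign`.
(b) If `φ_i (θ t) = θ' (φ_i t)` then `φ_(ρ i) = φ_i` by `RO_rho`; so with `sp_nn` the set of the nonfixed `i`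
with `φ_i = φ` is `ρ`-stable and closed under nonfixed neighbours, so by `nonfixed_conn` it contains all nonfixed
`i` (start from the `i` found in (a); take `φ` := `φ_i`). With an adjacent orbit: `sp_adj`, `adj_nbr`; there are
no other adjacent orbits by the same argument with `RA` (if `j` is in another adjacent orbit and a
neighbour `i` of it has `φ_i = φ`, `sp_adj` gives `φ_j = φ`). Then all fixed `j` have `φ_j = φ` on the
fixed field: `C.conn` and `sp_fx` (both directions), `sp_fx` applied with the roles: `i` fixed, `j` any.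
(c) `cc`: `cc i = c_i`; we need `cc (ρ j) = θ' (cc j)`: `RO_rho` for non-adjacent orbits; `RO.c_fix` for
fixed ones; for the adjacent orbit `xi (ρ i) (Ψ x) = θ' (xi i (Ψ x))` and `φ θ = θ' φ` give
`c_(ρ i) = θ' c_i`. (d) `RO_eq`, `adj_eq`, `Eg_gen_ext` (`f = Ψ`, `g = conj ∘ mp φ ∘ p`).
In the second alternative of (a) (`m = 3`), if no nonfixed `i` has `φ_i θ = θ' φ_i`, all nonfixed `i` satisfy
`φ_i θ = θ' θ' φ_i` (`FC3_spread`), which is the second conclusion of the theorem (`RO_RA`); it excludes the first one.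
-/

set_option autoImplicit false
open Matrix

namespace Pool.Agent.H86.UM

open Pool.Agent.H75.UL

variable {n : ℕ} {C : SLC n} {D : Dg C} {k : Type*} [Field k] {θ : k ≃+* k} {H : Type*} [Group H]
  {S : StSys C k H} {s : H →* H} {p : H →* GL C.Idx k}

/-- an element of a simple root group with given coordinate -/
private theorem FC3_ex (he : Env D θ S s p) (i : Fin n) (t : k) (ht : D.ρ i = i → θ t = t) :
    ∃ x : Eg S s, (x : H) ∈ fixX D S s (C.simple i) ∧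
      C.xi i (p x : Matrix C.Idx C.Idx k) = t := by
  obtain ⟨x, hx, hxt⟩ := fixX_xi_exists he i t ht
  have h1 : x ∈ Eg S s := (le_sup_left : fixU S s ≤ Eg S s)
    (fixX_le_fixU S s (C.simple i) (C.simple_pos i) hx)
  exact ⟨⟨x, h1⟩, hx, hxt⟩

private theorem FC3_uniq (he : Env D θ S s p) {K : Type*} [Field K]
    (Ψ : Eg S s →* GL C.Idx K) (i : Fin n) (hi : D.ρ i ≠ i) (c c' : K) (φ φ' : k →+* K)
    (h : RA he Ψ i c φ) (h' : RA he Ψ i c' φ') : c = c' ∧ φ = φ' := by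
  have hc : c = c' := by
    obtain ⟨x, hx, hx1⟩ := FC3_ex he i 1 (fun h => absurd h hi)
    have h1 := h.coord x hx
    have h2 := h'.coord x hx
    rw [hx1, map_one, mul_one] at h1 h2
    exact h1.symm.trans h2
  refine ⟨hc, ?_⟩
  subst hc
  ext t
  obtain ⟨x, hx, hx1⟩ := FC3_ex he i t (fun h => absurd h hi)
  have h1 := h.coord x hx
  have h2 := h'.coord x hx
  rw [hx1] at h1 h2
  exact mul_left_cancel₀ h.c_ne (h1.symm.trans h2)

private theorem FC3_rho (he : Env D θ S s p) {K : Type*} [Field K] (θ' : K ≃+* K)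
    (Ψ : Eg S s →* GL C.Idx K) (hP : Pin he θ' Ψ) (i : Fin n) (c : K) (φ φ' : k →+* K)
    (hφ : ∀ t, φ' (θ t) = θ' (φ t)) (h : RA he Ψ i c φ) : RA he Ψ (D.ρ i) (θ' c) φ' := by
  refine ⟨by simpa using h.c_ne, fun x hx => ?_⟩
  have hcyc : D.ρ.SameCycle i (D.ρ i) := ⟨1, by simp⟩
  rw [← (fixX_simple_congr (D := D) S s i (D.ρ i) hcyc).1] at hx
  have h1 := h.coord x hx
  have h2 := (fixX_xi he i x hx).1 1
  rw [pow_one, Function.iterate_one] at h2
  have h3 := xi_sgl D θ' (Ψ x) i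
  rw [hP.fix x] at h3
  rw [h3, h1, map_mul, h2, hφ]

/-- the data of a nonfixed orbit which is not adjacent -/
private theorem FC3_ext (he : Env D θ S s p) {K : Type*} [Field K] (θ' : K ≃+* K)
    (Ψ : Eg S s →* GL C.Idx K) (hP : Pin he θ' Ψ) (i : Fin n) (hi : C.A i (D.ρ i) ≠ -1)
    (hi' : D.ρ i ≠ i) :
    ∃ (c : K) (φ : k →+* K) (φ₁ : kO D θ i →+* K), RO he θ' Ψ i c φ₁ ∧
      (∀ t : kO D θ i, φ t = φ₁ t) ∧ RA he Ψ i c φ := by
  obtain ⟨c, φ₁, hR⟩ := exists_RO he θ' Ψ hP i hi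
  have h0 : ∀ t : kO D θ i,
      (φ₁.comp ((RingHom.id k).codRestrict (kO D θ i)
        (fun t => (mem_kO D θ i t).2 (fun h => absurd h hi')))) (t : k) = φ₁ t := fun t => rfl
  exact ⟨c, _, φ₁, hR, h0, RO_RA he θ' Ψ hP i hi c φ₁ hR _ h0⟩

/-- from a nonfixed node to a nonfixed neighbour -/
private theorem FC3_step (he : Env D θ S s p) {K : Type*} [Field K] (θ' : K ≃+* K)
    (Ψ : Eg S s →* GL C.Idx K) (hP : Pin he θ' Ψ) (i j : Fin n) (hi' : D.ρ i ≠ i)
    (hj' : D.ρ j ≠ j) (hij : ¬ D.ρ.SameCycle i j) (hA : C.A i j ≠ 0) (c : K) (φ : k →+* K)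
    (h : RA he Ψ i c φ) : ∃ c', RA he Ψ j c' φ := by
  by_cases hi : C.A i (D.ρ i) = -1
  · have hj : C.A j (D.ρ j) ≠ -1 := (adj_nbr D i j hi hij hA).2.1
    obtain ⟨c', φ', φ₁, hR, h0, hRA⟩ := FC3_ext he θ' Ψ hP j hj hj'
    have e : φ' = φ := by
      ext t
      have ht : t ∈ kO D θ j := (mem_kO D θ j t).2 (fun h => absurd h hj')
      have h1 := sp_adj he θ' Ψ hP j i hj hi (fun h => hij h.symm) (by rwa [C.symm]) hj' c' φ₁ hR
        c φ h ⟨t, ht⟩
      exact (h0 ⟨t, ht⟩).trans h1.symm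
    rw [e] at hRA
    exact ⟨c', hRA⟩
  · obtain ⟨c₁, φ₂, φ₁, hR, h0, hRA⟩ := FC3_ext he θ' Ψ hP i hi hi'
    obtain ⟨-, e1⟩ := FC3_uniq he Ψ i hi' _ _ _ _ h hRA
    by_cases hj : C.A j (D.ρ j) = -1
    · obtain ⟨c', φ', hR', -⟩ := exists_RA he θ' Ψ hP j hj
      have e : φ' = φ := by
        ext t
        have ht : t ∈ kO D θ i := (mem_kO D θ i t).2 (fun h => absurd h hi')
        have h1 := sp_adj he θ' Ψ hP i j hi hj hij hA hi' c₁ φ₁ hR c' φ' hR' ⟨t, ht⟩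
        rw [e1]
        exact h1.trans (h0 ⟨t, ht⟩).symm
      rw [e] at hR'
      exact ⟨c', hR'⟩
    · obtain ⟨c', φ', φ₃, hR', h0', hRA'⟩ := FC3_ext he θ' Ψ hP j hj hj'
      have e : φ' = φ := by
        ext t
        have ht : t ∈ kO D θ i := (mem_kO D θ i t).2 (fun h => absurd h hi')
        have ht' : t ∈ kO D θ j := (mem_kO D θ j t).2 (fun h => absurd h hj')
        have h1 := sp_nn he θ' Ψ hP i j hi hj hij hA hi' hj' c₁ φ₁ hR c' φ₃ hR' ⟨t, ht⟩ ⟨t, ht'⟩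
          rfl
        rw [e1]
        exact ((h0' ⟨t, ht'⟩).trans h1).trans (h0 ⟨t, ht⟩).symm
      rw [e] at hRA'
      exact ⟨c', hRA'⟩

private theorem FC3_cyc (D : Dg C) (A : Finset (Fin n)) (hAr : ∀ i ∈ A, D.ρ i ∈ A) (i j : Fin n)
    (hi : i ∈ A) (hj : j ∉ A) : ¬ D.ρ.SameCycle i j := by
  intro h
  obtain ⟨l, hl⟩ := h.exists_nat_pow_eq
  apply hj
  rw [← hl]
  clear hl
  induction l with
  | zero => simpa using hi
  | succ l ih =>
    rw [pow_succ', Equiv.Perm.mul_apply]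
    exact hAr _ ih

/-- spreading a property of the nonfixed nodes -/
private theorem FC3_spread (D : Dg C) (P : Fin n → Prop) (hr : ∀ i, D.ρ i ≠ i → P i → P (D.ρ i))
    (hs : ∀ i j, D.ρ i ≠ i → D.ρ j ≠ j → ¬ D.ρ.SameCycle i j → C.A i j ≠ 0 → P i → P j)
    (i₁ : Fin n) (h1 : D.ρ i₁ ≠ i₁) (hP : P i₁) : ∀ i, D.ρ i ≠ i → P i := by
  classical
  by_contra hcon
  push Not at hcon
  obtain ⟨j, hj, hjP⟩ := hcon
  have memA : ∀ i, i ∈ Finset.univ.filter (fun i => D.ρ i ≠ i ∧ P i) ↔ (D.ρ i ≠ i ∧ P i) := by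
    intro i
    simp
  have hAr : ∀ i ∈ Finset.univ.filter (fun i => D.ρ i ≠ i ∧ P i),
      D.ρ i ∈ Finset.univ.filter (fun i => D.ρ i ≠ i ∧ P i) := by
    intro i hi
    rw [memA] at hi ⊢
    exact ⟨fun h => hi.1 (D.ρ.injective h), hr i hi.1 hi.2⟩
  obtain ⟨i, hiA, j', hj'A, hj', hA⟩ := nonfixed_conn D
    (Finset.univ.filter (fun i => D.ρ i ≠ i ∧ P i)) (fun i hi => ((memA i).1 hi).1) hAr
    ⟨i₁, (memA i₁).2 ⟨h1, hP⟩⟩ j hj (fun h => hjP ((memA j).1 h).2)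
  have hcyc := FC3_cyc D _ hAr i j' hiA hj'A
  apply hj'A
  rw [memA] at hiA ⊢
  exact ⟨hj', hs i j' hiA.1 hj' hcyc hA hiA.2⟩

private theorem FC3_nonfixed (he : Env D θ S s p) {K : Type*} [Field K] (θ' : K ≃+* K)
    (Ψ : Eg S s →* GL C.Idx K) (hP : Pin he θ' Ψ) (φ : k →+* K)
    (hφ : ∀ t, φ (θ t) = θ' (φ t)) (i₁ : Fin n) (h1 : D.ρ i₁ ≠ i₁) (c₁ : K)
    (hc₁ : RA he Ψ i₁ c₁ φ) : ∀ i, D.ρ i ≠ i → ∃ c, RA he Ψ i c φ := by
  refine FC3_spread D (fun i => ∃ c, RA he Ψ i c φ) ?_ ?_ i₁ h1 ⟨c₁, hc₁⟩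
  · rintro i hi ⟨c, hc⟩
    exact ⟨θ' c, FC3_rho he θ' Ψ hP i c φ φ hφ hc⟩
  · rintro i j hi hj hij hA ⟨c, hc⟩
    exact FC3_step he θ' Ψ hP i j hi hj hij hA c φ hc

private theorem FC3_diag (D : Dg C) (j : Fin n) (hj : D.ρ j = j) : C.A j (D.ρ j) ≠ -1 := by
  rw [hj, C.diag]
  norm_num

private theorem FC3_fixed (he : Env D θ S s p) {K : Type*} [Field K] (θ' : K ≃+* K)
    (Ψ : Eg S s →* GL C.Idx K) (hP : Pin he θ' Ψ) (φ : k →+* K)
    (hnf : ∀ i, D.ρ i ≠ i → ∃ c, RA he Ψ i c φ)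
    (i₁ : Fin n) (h1 : D.ρ i₁ = i₁ → ∃ (c : K) (φ₁ : kO D θ i₁ →+* K),
      RO he θ' Ψ i₁ c φ₁ ∧ ∀ t : kO D θ i₁, φ t = φ₁ t) :
    ∀ i, D.ρ i = i → ∃ (c : K) (φ₁ : kO D θ i →+* K),
      RO he θ' Ψ i c φ₁ ∧ ∀ t : kO D θ i, φ t = φ₁ t := by
  classical
  by_contra hcon
  push Not at hcon
  obtain ⟨j₀, hj₀, hj₀P⟩ := hcon
  have memA : ∀ i, i ∈ Finset.univ.filter (fun i => D.ρ i = i → ∃ (c : K) (φ₁ : kO D θ i →+* K),
      RO he θ' Ψ i c φ₁ ∧ ∀ t : kO D θ i, φ t = φ₁ t) ↔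
      (D.ρ i = i → ∃ (c : K) (φ₁ : kO D θ i →+* K),
      RO he θ' Ψ i c φ₁ ∧ ∀ t : kO D θ i, φ t = φ₁ t) := by
    intro i
    simp
  obtain ⟨i, hi, j, hj, hA⟩ := C.conn (Finset.univ.filter (fun i => D.ρ i = i →
    ∃ (c : K) (φ₁ : kO D θ i →+* K), RO he θ' Ψ i c φ₁ ∧ ∀ t : kO D θ i, φ t = φ₁ t))
    ⟨i₁, (memA i₁).2 h1⟩ (by
      intro h
      have h2 : j₀ ∈ Finset.univ.filter (fun i => D.ρ i = i → ∃ (c : K) (φ₁ : kO D θ i →+* K),
        RO he θ' Ψ i c φ₁ ∧ ∀ t : kO D θ i, φ t = φ₁ t) := by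
        rw [h]
        exact Finset.mem_univ _
      rw [memA] at h2
      obtain ⟨c, φ₁, hR, h3⟩ := h2 hj₀
      obtain ⟨t, ht⟩ := hj₀P c φ₁ hR
      exact ht (h3 t))
  apply hj
  have hne : i ≠ j := by
    rintro rfl
    exact hj hi
  rw [memA] at hi ⊢
  intro hjf
  obtain ⟨c, φj, hR⟩ := exists_RO he θ' Ψ hP j (FC3_diag D j hjf)
  refine ⟨c, φj, hR, ?_⟩
  by_cases hif : D.ρ i = i
  · obtain ⟨c', φi, hR', h3⟩ := hi hif
    intro t
    have ht : (t : k) ∈ kO D θ i := (mem_kO D θ i t).2 (fun _ => (mem_kO D θ j t).1 t.2 hjf)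
    have h4 := sp_fx he θ' Ψ hP i j (FC3_diag D j hjf) hne hA hif c' φi hR' c φj hR ⟨t, ht⟩ t rfl
    exact (h3 ⟨t, ht⟩).trans h4.symm
  · by_cases hiA : C.A i (D.ρ i) = -1
    · exfalso
      have hcyc : ¬ D.ρ.SameCycle i j := by
        intro h
        obtain ⟨l, hl⟩ := h.symm.exists_nat_pow_eq
        apply hne
        rw [← hl]
        clear hl
        induction l with
        | zero => simp
        | succ l ih => rw [pow_succ, Equiv.Perm.mul_apply, hjf, ih]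
      exact (adj_nbr D i j hiA hcyc hA).1 hjf
    · obtain ⟨c₁, φ₂, φ₁, hR₁, h0, hRA⟩ := FC3_ext he θ' Ψ hP i hiA hif
      obtain ⟨c₂, hc₂⟩ := hnf i hif
      obtain ⟨-, e⟩ := FC3_uniq he Ψ i hif _ _ _ _ hc₂ hRA
      intro t
      have ht : (t : k) ∈ kO D θ i := (mem_kO D θ i t).2 (fun h => absurd h hif)
      have h4 := sp_fx he θ' Ψ hP j i hiA hne.symm (by rwa [C.symm]) hjf c φj hR c₁ φ₁ hR₁ t
        ⟨t, ht⟩ rfl
      rw [e]
      exact (h0 ⟨t, ht⟩).trans h4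

/-- the conclusion from a field homomorphism which fits everywhere -/
private theorem FC3_final (he : Env D θ S s p) {K : Type*} [Field K] (θ' : K ≃+* K)
    (Ψ : Eg S s →* GL C.Idx K) (hP : Pin he θ' Ψ) (φ : k →+* K)
    (hφ : ∀ t, φ (θ t) = θ' (φ t)) (hnf : ∀ i, D.ρ i ≠ i → ∃ c, RA he Ψ i c φ)
    (hf : ∀ i, D.ρ i = i → ∃ (c : K) (φ₁ : kO D θ i →+* K),
      RO he θ' Ψ i c φ₁ ∧ ∀ t : kO D θ i, φ t = φ₁ t) :
    ∃ (φ : k →+* K) (cc : Fin n → Kˣ), (∀ t, φ (θ t) = θ' (φ t)) ∧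
      (∀ j, (cc (D.ρ j) : K) = θ' (cc j)) ∧
      ∀ x, Ψ x = tad C cc * C.mp φ (p x) * (tad C cc)⁻¹ := by
  have h0 : ∀ i, ∃ c : Kˣ, (D.ρ i ≠ i → RA he Ψ i c φ) ∧
      (D.ρ i = i → ∃ (φ₁ : kO D θ i →+* K),
        RO he θ' Ψ i c φ₁ ∧ ∀ t : kO D θ i, φ t = φ₁ t) := by
    intro i
    by_cases hi : D.ρ i = i
    · obtain ⟨c, φ₁, hR, h1⟩ := hf i hi
      exact ⟨Units.mk0 c hR.c_ne, fun h => absurd hi h, fun _ => ⟨φ₁, hR, h1⟩⟩
    · obtain ⟨c, hR⟩ := hnf i hi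
      exact ⟨Units.mk0 c hR.c_ne, fun _ => hR, fun h => absurd h hi⟩
  choose cc hcn hcf using h0
  have hcc : ∀ j, (cc (D.ρ j) : K) = θ' (cc j) := by
    intro j
    by_cases hj : D.ρ j = j
    · obtain ⟨φ₁, hR, -⟩ := hcf j hj
      rw [hj]
      exact (hR.c_fix hj).symm
    · have hj2 : D.ρ (D.ρ j) ≠ D.ρ j := fun h => hj (D.ρ.injective h)
      exact (FC3_uniq he Ψ (D.ρ j) hj2 _ _ _ _ (hcn _ hj2)
        (FC3_rho he θ' Ψ hP j (cc j) φ φ hφ (hcn j hj))).1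
  refine ⟨φ, cc, hφ, hcc, ?_⟩
  have hfg : Ψ = ((MulAut.conj (tad C cc)).toMonoidHom.comp
      ((C.mp φ).comp (p.comp (Eg S s).subtype))) := by
    refine Eg_gen_ext he _ _ fun i x hx => ?_
    change Ψ x = tad C cc * C.mp φ (p x) * (tad C cc)⁻¹
    by_cases hi : C.A i (D.ρ i) = -1
    · have hi' : D.ρ i ≠ i := fun h => FC3_diag D i h hi
      exact adj_eq he θ' Ψ hP i hi (cc i) φ (hcn i hi') hφ cc rfl (hcc i) x hx
    · by_cases hi' : D.ρ i = i
      · obtain ⟨φ₁, hR, h1⟩ := hcf i hi'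
        exact RO_eq he θ' Ψ hP i hi (cc i) φ₁ hR φ h1 hφ cc rfl hcc x hx
      · obtain ⟨c₁, φ₂, φ₁, hR₁, h0, hRA⟩ := FC3_ext he θ' Ψ hP i hi hi'
        obtain ⟨e1, e2⟩ := FC3_uniq he Ψ i hi' _ _ _ _ (hcn i hi') hRA
        rw [← e2] at h0
        exact RO_eq he θ' Ψ hP i hi c₁ φ₁ hR₁ φ h0 hφ cc e1 hcc x hx
  intro x
  exact DFunLike.congr_fun hfg x

private theorem FC3_done (he : Env D θ S s p) {K : Type*} [Field K] (θ' : K ≃+* K)
    (Ψ : Eg S s →* GL C.Idx K) (hP : Pin he θ' Ψ) (φ : k →+* K)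
    (hφ : ∀ t, φ (θ t) = θ' (φ t)) (i₁ : Fin n) (h1 : D.ρ i₁ ≠ i₁) (c₁ : K)
    (hc₁ : RA he Ψ i₁ c₁ φ) :
    ∃ (φ : k →+* K) (cc : Fin n → Kˣ), (∀ t, φ (θ t) = θ' (φ t)) ∧
      (∀ j, (cc (D.ρ j) : K) = θ' (cc j)) ∧
      ∀ x, Ψ x = tad C cc * C.mp φ (p x) * (tad C cc)⁻¹ := by
  have hnf := FC3_nonfixed he θ' Ψ hP φ hφ i₁ h1 c₁ hc₁
  exact FC3_final he θ' Ψ hP φ hφ hnf
    (FC3_fixed he θ' Ψ hP φ hnf i₁ (fun h => absurd h h1))

private theorem FC3_m1 (D : Dg C) (h : D.m = 1) (i : Fin n) : D.ρ i = i := by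
  unfold Dg.m at h
  rw [orderOf_eq_one_iff] at h
  rw [h]
  rfl

/-- the relation between `φ θ` and `θ' φ` at a neighbour of a fixed node -/
private theorem FC3_norm (he : Env D θ S s p) {K : Type*} [Field K] (θ' : K ≃+* K)
    (Ψ : Eg S s →* GL C.Idx K) (hP : Pin he θ' Ψ) (i j : Fin n) (hi : C.A i (D.ρ i) ≠ -1)
    (hi' : D.ρ i ≠ i) (hj' : D.ρ j = j) (hA : C.A i j ≠ 0) :
    ∃ (c : K) (φ : k →+* K), RA he Ψ i c φ ∧ ((∀ t, φ (θ t) = θ' (φ t)) ∨
      (D.m = 3 ∧ ∀ t, φ (θ t) = θ' (θ' (φ t)))) := by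
  obtain ⟨c, φ, φ₁, hR, h0, hRA⟩ := FC3_ext he θ' Ψ hP i hi hi'
  refine ⟨c, φ, hRA, ?_⟩
  have hjA := FC3_diag D j hj'
  obtain ⟨c', φ', hR'⟩ := exists_RO he θ' Ψ hP j hjA
  have hne : j ≠ i := by
    rintro rfl
    exact hi' hj'
  have hmem : ∀ t, t ∈ kO D θ i := fun t => (mem_kO D θ i t).2 (fun h => absurd h hi')
  have key : ∀ t P : k, θ P = P → P = ∏ l ∈ Finset.range D.m, (⇑θ)^[l] t →
      φ P = ∏ l ∈ Finset.range D.m, (⇑θ')^[l] (φ t) := by
    intro t P hP1 hP2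
    have hPm : P ∈ kO D θ j := (mem_kO D θ j P).2 (fun _ => hP1)
    have h1 := sp_norm he θ' Ψ hP i j hi hA hi' hj' c φ₁ hR c' φ' hR' ⟨t, hmem t⟩ ⟨P, hPm⟩ hP2
    have h2 := sp_fx he θ' Ψ hP j i hi hne (by rwa [C.symm]) hj' c' φ' hR' c φ₁ hR ⟨P, hPm⟩
      ⟨P, hmem P⟩ rfl
    have h3 := h0 ⟨P, hmem P⟩
    have h4 := h0 ⟨t, hmem t⟩
    simp only at h3 h4
    rw [h3, h2, h1, h4]
  rcases D.m_cases with hm | hm | hm
  · exact absurd (FC3_m1 D hm i) hi'
  · left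
    intro t
    by_cases ht : t = 0
    · subst ht
      simp
    have hθ := he.hθ t
    have h1 := key t (t * θ t) (by
      rw [hm] at hθ
      simp only [Function.iterate_succ, Function.iterate_zero, Function.comp, id] at hθ
      rw [map_mul, hθ, mul_comm]) (by
      rw [hm, Finset.prod_range_succ, Finset.prod_range_one]
      simp)
    rw [hm, Finset.prod_range_succ, Finset.prod_range_one, map_mul] at h1
    simp only [Function.iterate_succ, Function.iterate_zero, Function.comp, id] at h1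
    have h2 : φ t ≠ 0 := by simpa using ht
    exact mul_left_cancel₀ h2 h1
  · have h5 : ∀ t, φ (θ t) * φ (θ (θ t)) = θ' (φ t) * θ' (θ' (φ t)) := by
      intro t
      by_cases ht : t = 0
      · subst ht
        simp
      have hθ := he.hθ t
      have h1 := key t (t * (θ t * θ (θ t))) (by
        rw [hm] at hθ
        simp only [Function.iterate_succ, Function.iterate_zero, Function.comp, id] at hθ
        rw [map_mul, map_mul, hθ]
        ring) (by
        rw [hm, Finset.prod_range_succ, Finset.prod_range_succ, Finset.prod_range_one]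
        simp only [Function.iterate_succ, Function.iterate_zero, Function.comp, id]
        ring)
      rw [hm, Finset.prod_range_succ, Finset.prod_range_succ, Finset.prod_range_one, map_mul,
        map_mul] at h1
      simp only [Function.iterate_succ, Function.iterate_zero, Function.comp, id] at h1
      have h2 : φ t ≠ 0 := by simpa using ht
      rw [mul_assoc] at h1
      exact mul_left_cancel₀ h2 h1
    rcases cubic_sign θ θ' φ h5 with h | h
    · exact Or.inl h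
    · exact Or.inr ⟨hm, h⟩

theorem field_compat (he : Env D θ S s p) (hn : 0 < n) {K : Type*} [Field K] (θ' : K ≃+* K)
    (Ψ : Eg S s →* GL C.Idx K) (hP : Pin he θ' Ψ) :
    (∃ (φ : k →+* K) (cc : Fin n → Kˣ), (∀ t, φ (θ t) = θ' (φ t)) ∧
      (∀ j, (cc (D.ρ j) : K) = θ' (cc j)) ∧
      ∀ x, Ψ x = tad C cc * C.mp φ (p x) * (tad C cc)⁻¹) ∨
    (D.m = 3 ∧ ∀ i, D.ρ i ≠ i → ∃ (φ : k →+* K) (c : K),
      (∀ t, φ (θ t) = θ' (θ' (φ t))) ∧ (∃ t, φ (θ t) ≠ θ' (φ t)) ∧ RA he Ψ i c φ) := by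
  by_cases hall : ∀ i, D.ρ i = i
  · -- everything is fixed
    left
    have hm : D.m = 1 := by
      unfold Dg.m
      rw [orderOf_eq_one_iff]
      exact Equiv.ext hall
    have hθ1 : ∀ t, θ t = t := fun t => by
      have := he.hθ t
      rwa [hm, Function.iterate_one] at this
    have hθ2 : ∀ t, θ' t = t := fun t => by
      have := hP.hθ t
      rwa [hm, Function.iterate_one] at this
    obtain ⟨c, φ₁, hR⟩ := exists_RO he θ' Ψ hP ⟨0, hn⟩ (FC3_diag D _ (hall _))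
    have h0 : ∀ t : kO D θ ⟨0, hn⟩,
        (φ₁.comp ((RingHom.id k).codRestrict (kO D θ ⟨0, hn⟩)
          (fun t => (mem_kO D θ _ t).2 (fun _ => hθ1 t)))) (t : k) = φ₁ t := fun t => rfl
    have hφ : ∀ t, (φ₁.comp ((RingHom.id k).codRestrict (kO D θ ⟨0, hn⟩)
          (fun t => (mem_kO D θ _ t).2 (fun _ => hθ1 t)))) (θ t) =
          θ' ((φ₁.comp ((RingHom.id k).codRestrict (kO D θ ⟨0, hn⟩)
          (fun t => (mem_kO D θ _ t).2 (fun _ => hθ1 t)))) t) := fun t => by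
      rw [hθ1, hθ2]
    have hnf : ∀ i, D.ρ i ≠ i → ∃ c, RA he Ψ i c (φ₁.comp ((RingHom.id k).codRestrict
        (kO D θ ⟨0, hn⟩) (fun t => (mem_kO D θ _ t).2 (fun _ => hθ1 t)))) :=
      fun i hi => absurd (hall i) hi
    exact FC3_final he θ' Ψ hP _ hφ hnf
      (FC3_fixed he θ' Ψ hP _ hnf ⟨0, hn⟩ (fun _ => ⟨c, φ₁, hR, h0⟩))
  by_cases hadj : ∃ i, C.A i (D.ρ i) = -1
  · -- an adjacent orbit
    left
    obtain ⟨i, hi⟩ := hadj
    obtain ⟨c, φ, hR, hφ⟩ := exists_RA he θ' Ψ hP i hi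
    exact FC3_done he θ' Ψ hP φ hφ i (fun h => FC3_diag D i h hi) c hR
  push Not at hadj
  -- a nonfixed neighbour of a fixed node
  have hex : ∃ i j, D.ρ i ≠ i ∧ D.ρ j = j ∧ C.A i j ≠ 0 := by
    classical
    obtain ⟨j₀, hj₀⟩ : ∃ j, D.ρ j = j := by
      by_contra hcon
      push Not at hcon
      obtain ⟨i, hi⟩ := exists_adj D hn hcon
      exact hadj i hi
    obtain ⟨j, hj, i, hi, hA⟩ := C.conn (Finset.univ.filter (fun j => D.ρ j = j))
      ⟨j₀, by simpa using hj₀⟩ (by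
        intro h
        apply hall
        intro i
        have h2 : i ∈ Finset.univ.filter (fun j => D.ρ j = j) := by
          rw [h]
          exact Finset.mem_univ _
        simpa using h2)
    refine ⟨i, j, by simpa using hi, by simpa using hj, ?_⟩
    rwa [C.symm]
  obtain ⟨i₁, j₁, hi₁, hj₁, hA₁⟩ := hex
  by_cases hP1 : ∃ i, D.ρ i ≠ i ∧ ∃ (c : K) (φ : k →+* K), RA he Ψ i c φ ∧
      ∀ t, φ (θ t) = θ' (φ t)
  · left
    obtain ⟨i, hi, c, φ, hR, hφ⟩ := hP1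
    exact FC3_done he θ' Ψ hP φ hφ i hi c hR
  right
  have hno : ∀ i, D.ρ i ≠ i → ∀ (c : K) (φ : k →+* K), RA he Ψ i c φ →
      ¬ ∀ t, φ (θ t) = θ' (φ t) := fun i hi c φ hR h => hP1 ⟨i, hi, c, φ, hR, h⟩
  obtain ⟨c₁, φ₁, hR₁, h1⟩ := FC3_norm he θ' Ψ hP i₁ j₁ (hadj i₁) hi₁ hj₁ hA₁
  rcases h1 with h1 | ⟨hm, h1⟩
  · exact absurd h1 (hno i₁ hi₁ c₁ φ₁ hR₁)
  refine ⟨hm, ?_⟩
  have h2 : ∀ i, D.ρ i ≠ i → ∃ (c : K) (φ : k →+* K), RA he Ψ i c φ ∧
      ∀ t, φ (θ t) = θ' (θ' (φ t)) := by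
    refine FC3_spread D (fun i => ∃ (c : K) (φ : k →+* K), RA he Ψ i c φ ∧
      ∀ t, φ (θ t) = θ' (θ' (φ t))) ?_ ?_ i₁ hi₁ ⟨c₁, φ₁, hR₁, h1⟩
    · rintro i hi ⟨c, φ, hR, hφ⟩
      refine ⟨θ' c, ((θ' : K →+* K).comp φ).comp (θ.symm : k →+* k), ?_, ?_⟩
      · refine FC3_rho he θ' Ψ hP i c φ _ (fun t => ?_) hR
        simp
      · intro t
        have h3 := hφ (θ.symm t)
        rw [RingEquiv.apply_symm_apply] at h3
        simp only [RingHom.comp_apply, RingHom.coe_coe, RingEquiv.symm_apply_apply]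
        rw [h3]
    · rintro i j hi hj hij hA ⟨c, φ, hR, hφ⟩
      obtain ⟨c', hR'⟩ := FC3_step he θ' Ψ hP i j hi hj hij hA c φ hR
      exact ⟨c', φ, hR', hφ⟩
  intro i hi
  obtain ⟨c, φ, hR, hφ⟩ := h2 i hi
  refine ⟨φ, c, hφ, ?_, hR⟩
  have h3 := hno i hi c φ hR
  push Not at h3
  exact h3

end Pool.Agent.H86.UM
end
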