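import Pool.Agent.H86.AL.M14
import Pool.Agent.H86.AL.M21
import Pool.Agent.H86.AL.M22

/-!
# M34: collected modules

Pool.Agent.H86.UM.ZJ3
Pool.Agent.H86.UM.ZCD
-/

section
/- module Pool.Agent.H86.UM.ZJ3 -/
/-!
# Project UM, Suzuki-Ree groups, module ZJ3: root groups of type `²G₂` (`D₄`)

`D₄` with center `1`, leaves `0, 2, 3`, `ρ = (0 2 3)`. Positive roots `β = (a, c, b, d)` (coordinates at the nodes
`0, 1, 2, 3`): `ip β β = 2` reads `(2a - c)^2 + (2b - c)^2 + (2d - c)^2 + c^2 = 4`, with nonnegative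
coordinates: `c = 0`: one of the leaves; `c = 1`: `a, b, d ∈ {0, 1}` arbitrary; `c = 2`: `a = b = d = 1`.
`βP = (1,1,0,0)`, `βQ = (1,1,1,0)`, `βR = (1,1,1,1)`, `βS = (1,2,1,1)`; the orbits of `βP`, `βQ` have three
elements, `βR, βS` are fixed. Everything is supported on `JJ 0`.
Commutator formulas. `[x, y] = x y x⁻¹ y⁻¹`. With the signs `eps` of Defs.lean and `sg` one has (checked by
computer, for all fields):
`[yg α₀ t, yg α₁ u] = yg βP (t u) * yg βQ (-t² u) * yg βR (t³ u) * yg βS (2 t³ u²)`,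
`[yg α₀ t, yg βP v] = yg βQ (-2 t v) * yg βR (3 t² v) * yg βS (-3 t v²)`,
`[yg α₀ t, yg βQ w] = yg βR (-3 t w)`, `[yg α₁ u, yg βR z] = yg βS (u z)`, `[yg βP v, yg βQ w] = yg βS (3 v w)`,
and the other pairs commute; so in characteristic `3` this is `G2s` with all signs `+`.
Proof: `yg α₀ t = x₀(t) x₂(t) x₃(t)`, `yg α₁ u = x₁(u)`,
`yg βP v = x_(1100)(v) x_(0110)(-v) x_(0101)(-v)` (signs: `sg (1100) = -1`, `sg (0110) = 1`,
`sg (0101) = -1`), `yg βQ w = x_(1110)(w) x_(0111)(-w) x_(1101)(w)` (`sg (1110) = -1`,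
`sg (0111) = -1`, `sg (1101) = 1`). Use the commutator relations of the ambient group (`xg_comm`,
`xg_comm_add`; the values of `eps` by `decide`); conjugate with `x₃(t)`, `x₂(t)`, `x₀(t)` one after the other and
collect. Alternatively compute with `(C.adS k)` in the abstract. `σP`, `σQ`: `exists_tau`: `τ βP` is a fixed root in
`RJ` so `α₁`, `βR` or `βS`; precisely: `t0 = (1, 0, 1, 1)`, `TT v = (v 1, 3 v 0, v 1, v 1)`;
`osum βP = (1,3,1,1)`, `TT (osum βP) = (3,3,3,3)`, so `τ βP = (1,1,1,1) = βR` (`IsTau.short`);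
`osum βQ = (2,3,2,2)`, `TT (osum βQ) = (3,6,3,3)`, `τ βQ = (1,2,1,1) = βS`.
And `osum (τ βR) = TT βR = (1, 3, 1, 1)`, `osum (τ βS) = TT βS = (2,3,2,2)`, so
`τ βR` is in the cycle of `βP`, `τ βS` in the cycle of `βQ` (`osum_inj`); the signs of `σP`: the same sign `e` for
`P → R` and `R → P` because `σ (σ x) = x` (`sig_sig`).
-/

set_option autoImplicit false
set_option linter.unusedSimpArgs false
open Matrix

namespace Pool.Agent.H86.UM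

open Pool.Agent.H75.UL

/-- the cycles of positive roots of type `G₂` -/
structure G2r (βP βQ βR βS : cD4.Root) : Prop where
  hP : βP.1 = ![1, 1, 0, 0]
  hQ : βQ.1 = ![1, 1, 1, 0]
  hR : βR.1 = ![1, 1, 1, 1]
  hS : βS.1 = ![1, 2, 1, 1]
  rP : dD4.r βP ≠ βP
  rQ : dD4.r βQ ≠ βQ
  rR : dD4.r βR = βR
  rS : dD4.r βS = βS
  mem : ∀ β : cD4.Root, cD4.Pos β ↔ dD4.rE.SameCycle (cD4.simple 0) β ∨ β = cD4.simple 1 ∨
    dD4.rE.SameCycle βP β ∨ dD4.rE.SameCycle βQ β ∨ β = βR ∨ β = βS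

section abs

private theorem ZJ3_rl {H : Type*} [Group H] {x y : H} (h : x * y = y * x) (z : H) : x * (y * z) = y * (x * z) := by
  rw [← mul_assoc, h, mul_assoc]

private theorem ZJ3_rn {H : Type*} [Group H] {x y c : H} (h : x * y = c * (y * x)) (z : H) :
    x * (y * z) = c * (y * (x * z)) := by
  rw [← mul_assoc, h]; simp only [mul_assoc]

private theorem ZJ3_ra {H : Type*} [Group H] {x y c : H} (h : x * y = c) (z : H) :
    x * (y * z) = c * z := by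
  rw [← mul_assoc, h]

/-- the 12 root elements: 0,1,2 = P0,P2,P3; 3,4,5 = Q02,Q23,Q03; 6 = R; 7 = S; 8 = B; 9,10,11 = A0,A2,A3 -/
private structure ZJ3Sys {k H : Type*} [Field k] [Group H] (P0 P2 P3 Q02 Q23 Q03 R S B A0 A2 A3 : k → H) : Prop where
  aP0 : ∀ s t, P0 s * P0 t = P0 (s + t)
  aP2 : ∀ s t, P2 s * P2 t = P2 (s + t)
  aP3 : ∀ s t, P3 s * P3 t = P3 (s + t)
  aQ02 : ∀ s t, Q02 s * Q02 t = Q02 (s + t)
  aQ23 : ∀ s t, Q23 s * Q23 t = Q23 (s + t)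
  aQ03 : ∀ s t, Q03 s * Q03 t = Q03 (s + t)
  aR : ∀ s t, R s * R t = R (s + t)
  aS : ∀ s t, S s * S t = S (s + t)
  -- noncommuting
  c1 : ∀ t u, A0 t * B u = P0 (t * u) * (B u * A0 t)
  c2 : ∀ t u, A2 t * B u = P2 (-(t * u)) * (B u * A2 t)
  c3 : ∀ t u, A3 t * B u = P3 (-(t * u)) * (B u * A3 t)
  c4 : ∀ t u, A0 t * P2 u = Q02 (t * u) * (P2 u * A0 t)
  c5 : ∀ t u, A0 t * P3 u = Q03 (t * u) * (P3 u * A0 t)
  c6 : ∀ t u, A2 t * P0 u = Q02 (-(t * u)) * (P0 u * A2 t)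
  c7 : ∀ t u, A2 t * P3 u = Q23 (-(t * u)) * (P3 u * A2 t)
  c8 : ∀ t u, A3 t * P0 u = Q03 (-(t * u)) * (P0 u * A3 t)
  c9 : ∀ t u, A3 t * P2 u = Q23 (-(t * u)) * (P2 u * A3 t)
  c10 : ∀ t u, A0 t * Q23 u = R (t * u) * (Q23 u * A0 t)
  c11 : ∀ t u, A2 t * Q03 u = R (-(t * u)) * (Q03 u * A2 t)
  c12 : ∀ t u, A3 t * Q02 u = R (-(t * u)) * (Q02 u * A3 t)
  c13 : ∀ t u, B t * R u = S (t * u) * (R u * B t)
  c14 : ∀ t u, Q23 t * P0 u = S (t * u) * (P0 u * Q23 t)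
  c15 : ∀ t u, Q03 t * P2 u = S (t * u) * (P2 u * Q03 t)
  c16 : ∀ t u, Q02 t * P3 u = S (t * u) * (P3 u * Q02 t)
  -- commuting
  dA2A0 : ∀ s t, A2 s * A0 t = A0 t * A2 s
  dA3A0 : ∀ s t, A3 s * A0 t = A0 t * A3 s
  dA3A2 : ∀ s t, A3 s * A2 t = A2 t * A3 s
  dA0P0 : ∀ s t, A0 s * P0 t = P0 t * A0 s
  dA2P2 : ∀ s t, A2 s * P2 t = P2 t * A2 s
  dA3P3 : ∀ s t, A3 s * P3 t = P3 t * A3 s
  dA0Q02 : ∀ s t, A0 s * Q02 t = Q02 t * A0 s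
  dA0Q03 : ∀ s t, A0 s * Q03 t = Q03 t * A0 s
  dA2Q02 : ∀ s t, A2 s * Q02 t = Q02 t * A2 s
  dA2Q23 : ∀ s t, A2 s * Q23 t = Q23 t * A2 s
  dA3Q23 : ∀ s t, A3 s * Q23 t = Q23 t * A3 s
  dA3Q03 : ∀ s t, A3 s * Q03 t = Q03 t * A3 s
  dA0R : ∀ s t, A0 s * R t = R t * A0 s
  dA2R : ∀ s t, A2 s * R t = R t * A2 s
  dA3R : ∀ s t, A3 s * R t = R t * A3 s
  dA0S : ∀ s t, A0 s * S t = S t * A0 s
  dA2S : ∀ s t, A2 s * S t = S t * A2 s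
  dA3S : ∀ s t, A3 s * S t = S t * A3 s
  dBP0 : ∀ s t, B s * P0 t = P0 t * B s
  dBP2 : ∀ s t, B s * P2 t = P2 t * B s
  dBP3 : ∀ s t, B s * P3 t = P3 t * B s
  dBQ02 : ∀ s t, B s * Q02 t = Q02 t * B s
  dBQ23 : ∀ s t, B s * Q23 t = Q23 t * B s
  dBQ03 : ∀ s t, B s * Q03 t = Q03 t * B s
  dBS : ∀ s t, B s * S t = S t * B s
  dP2P0 : ∀ s t, P2 s * P0 t = P0 t * P2 s
  dP3P0 : ∀ s t, P3 s * P0 t = P0 t * P3 s
  dP3P2 : ∀ s t, P3 s * P2 t = P2 t * P3 s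
  dQ02P0 : ∀ s t, Q02 s * P0 t = P0 t * Q02 s
  dQ02P2 : ∀ s t, Q02 s * P2 t = P2 t * Q02 s
  dQ23P2 : ∀ s t, Q23 s * P2 t = P2 t * Q23 s
  dQ23P3 : ∀ s t, Q23 s * P3 t = P3 t * Q23 s
  dQ03P0 : ∀ s t, Q03 s * P0 t = P0 t * Q03 s
  dQ03P3 : ∀ s t, Q03 s * P3 t = P3 t * Q03 s
  dRP0 : ∀ s t, R s * P0 t = P0 t * R s
  dRP2 : ∀ s t, R s * P2 t = P2 t * R s
  dRP3 : ∀ s t, R s * P3 t = P3 t * R s
  dSP0 : ∀ s t, S s * P0 t = P0 t * S s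
  dSP2 : ∀ s t, S s * P2 t = P2 t * S s
  dSP3 : ∀ s t, S s * P3 t = P3 t * S s
  dQ23Q02 : ∀ s t, Q23 s * Q02 t = Q02 t * Q23 s
  dQ03Q02 : ∀ s t, Q03 s * Q02 t = Q02 t * Q03 s
  dQ03Q23 : ∀ s t, Q03 s * Q23 t = Q23 t * Q03 s
  dRQ02 : ∀ s t, R s * Q02 t = Q02 t * R s
  dRQ23 : ∀ s t, R s * Q23 t = Q23 t * R s
  dRQ03 : ∀ s t, R s * Q03 t = Q03 t * R s
  dSQ02 : ∀ s t, S s * Q02 t = Q02 t * S s
  dSQ23 : ∀ s t, S s * Q23 t = Q23 t * S s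
  dSQ03 : ∀ s t, S s * Q03 t = Q03 t * S s
  dSR : ∀ s t, S s * R t = R t * S s

section
variable {k H : Type*} [Field k] [Group H] {P0 P2 P3 Q02 Q23 Q03 R S B A0 A2 A3 : k → H}
  (h : ZJ3Sys P0 P2 P3 Q02 Q23 Q03 R S B A0 A2 A3)
include h

private theorem ZJ3_all (h3 : (3 : k) = 0) (t u : k) :
    A0 t * (A2 t * A3 t) * B u =
      P0 (t * u) * (P2 (-(t * u)) * P3 (-(t * u))) *
      (Q02 (-(t ^ 2 * u)) * (Q23 (-(-(t ^ 2 * u))) * Q03 (-(t ^ 2 * u)))) *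
      R (t ^ 3 * u) * S (-(t ^ 3 * u ^ 2)) * (B u * (A0 t * (A2 t * A3 t))) ∧
    A0 t * (A2 t * A3 t) * (P0 u * (P2 (-u) * P3 (-u))) =
      (Q02 (t * u) * (Q23 (-(t * u)) * Q03 (t * u))) * ((P0 u * (P2 (-u) * P3 (-u))) *
      (A0 t * (A2 t * A3 t))) ∧
    B t * R u = S (t * u) * (R u * B t) ∧
    A0 t * (A2 t * A3 t) * (Q02 u * (Q23 (-u) * Q03 u)) = (Q02 u * (Q23 (-u) * Q03 u)) *
      (A0 t * (A2 t * A3 t)) ∧
    (P0 t * (P2 (-t) * P3 (-t))) * (Q02 u * (Q23 (-u) * Q03 u)) = (Q02 u * (Q23 (-u) * Q03 u)) *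
      (P0 t * (P2 (-t) * P3 (-t))) := by
  have R0 : R 0 = 1 := by
    have := h.aR 0 0
    rwa [add_zero, mul_eq_left] at this
  have S0 : S 0 = 1 := by
    have := h.aS 0 0
    rwa [add_zero, mul_eq_left] at this
  refine ⟨?_, ?_, h.c13 _ _, ?_, ?_⟩
  · simp only [mul_assoc, h.aP0, h.aP2, h.aP3, h.aQ02, h.aQ23, h.aQ03, h.aR, h.aS,
      ZJ3_ra (h.aP0 _ _), ZJ3_ra (h.aP2 _ _), ZJ3_ra (h.aP3 _ _), ZJ3_ra (h.aQ02 _ _), ZJ3_ra (h.aQ23 _ _), ZJ3_ra (h.aQ03 _ _),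
      ZJ3_ra (h.aR _ _), ZJ3_ra (h.aS _ _),
      h.c1, h.c2, h.c3, h.c4, h.c5, h.c6, h.c7, h.c8, h.c9, h.c10, h.c11, h.c12, h.c13, h.c14, h.c15,
      h.c16,
      ZJ3_rn (h.c1 _ _), ZJ3_rn (h.c2 _ _), ZJ3_rn (h.c3 _ _), ZJ3_rn (h.c4 _ _), ZJ3_rn (h.c5 _ _), ZJ3_rn (h.c6 _ _),
      ZJ3_rn (h.c7 _ _), ZJ3_rn (h.c8 _ _), ZJ3_rn (h.c9 _ _), ZJ3_rn (h.c10 _ _), ZJ3_rn (h.c11 _ _), ZJ3_rn (h.c12 _ _),
      ZJ3_rn (h.c13 _ _), ZJ3_rn (h.c14 _ _), ZJ3_rn (h.c15 _ _), ZJ3_rn (h.c16 _ _),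
      h.dA2A0, h.dA3A0, h.dA3A2, h.dA0P0, h.dA2P2, h.dA3P3, h.dA0Q02, h.dA0Q03, h.dA2Q02, h.dA2Q23,
      h.dA3Q23, h.dA3Q03, h.dA0R, h.dA2R, h.dA3R, h.dA0S, h.dA2S, h.dA3S,
      h.dBP0, h.dBP2, h.dBP3, h.dBQ02, h.dBQ23, h.dBQ03, h.dBS,
      h.dP2P0, h.dP3P0, h.dP3P2, h.dQ02P0, h.dQ02P2, h.dQ23P2, h.dQ23P3, h.dQ03P0, h.dQ03P3,
      h.dRP0, h.dRP2, h.dRP3, h.dSP0, h.dSP2, h.dSP3, h.dQ23Q02, h.dQ03Q02, h.dQ03Q23,
      h.dRQ02, h.dRQ23, h.dRQ03, h.dSQ02, h.dSQ23, h.dSQ03, h.dSR,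
      ZJ3_rl (h.dA2A0 _ _), ZJ3_rl (h.dA3A0 _ _), ZJ3_rl (h.dA3A2 _ _), ZJ3_rl (h.dA0P0 _ _), ZJ3_rl (h.dA2P2 _ _),
      ZJ3_rl (h.dA3P3 _ _), ZJ3_rl (h.dA0Q02 _ _), ZJ3_rl (h.dA0Q03 _ _), ZJ3_rl (h.dA2Q02 _ _), ZJ3_rl (h.dA2Q23 _ _),
      ZJ3_rl (h.dA3Q23 _ _), ZJ3_rl (h.dA3Q03 _ _), ZJ3_rl (h.dA0R _ _), ZJ3_rl (h.dA2R _ _), ZJ3_rl (h.dA3R _ _),
      ZJ3_rl (h.dA0S _ _), ZJ3_rl (h.dA2S _ _), ZJ3_rl (h.dA3S _ _),
      ZJ3_rl (h.dBP0 _ _), ZJ3_rl (h.dBP2 _ _), ZJ3_rl (h.dBP3 _ _), ZJ3_rl (h.dBQ02 _ _), ZJ3_rl (h.dBQ23 _ _),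
      ZJ3_rl (h.dBQ03 _ _), ZJ3_rl (h.dBS _ _),
      ZJ3_rl (h.dP2P0 _ _), ZJ3_rl (h.dP3P0 _ _), ZJ3_rl (h.dP3P2 _ _), ZJ3_rl (h.dQ02P0 _ _), ZJ3_rl (h.dQ02P2 _ _),
      ZJ3_rl (h.dQ23P2 _ _), ZJ3_rl (h.dQ23P3 _ _), ZJ3_rl (h.dQ03P0 _ _), ZJ3_rl (h.dQ03P3 _ _),
      ZJ3_rl (h.dRP0 _ _), ZJ3_rl (h.dRP2 _ _), ZJ3_rl (h.dRP3 _ _), ZJ3_rl (h.dSP0 _ _), ZJ3_rl (h.dSP2 _ _),
      ZJ3_rl (h.dSP3 _ _), ZJ3_rl (h.dQ23Q02 _ _), ZJ3_rl (h.dQ03Q02 _ _), ZJ3_rl (h.dQ03Q23 _ _),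
      ZJ3_rl (h.dRQ02 _ _), ZJ3_rl (h.dRQ23 _ _), ZJ3_rl (h.dRQ03 _ _), ZJ3_rl (h.dSQ02 _ _), ZJ3_rl (h.dSQ23 _ _),
      ZJ3_rl (h.dSQ03 _ _), ZJ3_rl (h.dSR _ _)]
    have e1 : t * -(t * u) = -(t ^ 2 * u) := by ring
    have e2 : t * -(t * -(t * u)) = t ^ 3 * u := by ring
    have e3 : t * (-(t * u) * -(t * u)) + -(t * -(t * u)) * (t * u) = -(t ^ 3 * u ^ 2) := by
      linear_combination (t ^ 3 * u ^ 2) * h3
    rw [e2, e3, e1]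
  · simp only [mul_assoc, h.aP0, h.aP2, h.aP3, h.aQ02, h.aQ23, h.aQ03, h.aR, h.aS,
      ZJ3_ra (h.aP0 _ _), ZJ3_ra (h.aP2 _ _), ZJ3_ra (h.aP3 _ _), ZJ3_ra (h.aQ02 _ _), ZJ3_ra (h.aQ23 _ _), ZJ3_ra (h.aQ03 _ _),
      ZJ3_ra (h.aR _ _), ZJ3_ra (h.aS _ _),
      h.c1, h.c2, h.c3, h.c4, h.c5, h.c6, h.c7, h.c8, h.c9, h.c10, h.c11, h.c12, h.c13, h.c14, h.c15,
      h.c16,
      ZJ3_rn (h.c1 _ _), ZJ3_rn (h.c2 _ _), ZJ3_rn (h.c3 _ _), ZJ3_rn (h.c4 _ _), ZJ3_rn (h.c5 _ _), ZJ3_rn (h.c6 _ _),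
      ZJ3_rn (h.c7 _ _), ZJ3_rn (h.c8 _ _), ZJ3_rn (h.c9 _ _), ZJ3_rn (h.c10 _ _), ZJ3_rn (h.c11 _ _), ZJ3_rn (h.c12 _ _),
      ZJ3_rn (h.c13 _ _), ZJ3_rn (h.c14 _ _), ZJ3_rn (h.c15 _ _), ZJ3_rn (h.c16 _ _),
      h.dA2A0, h.dA3A0, h.dA3A2, h.dA0P0, h.dA2P2, h.dA3P3, h.dA0Q02, h.dA0Q03, h.dA2Q02, h.dA2Q23,
      h.dA3Q23, h.dA3Q03, h.dA0R, h.dA2R, h.dA3R, h.dA0S, h.dA2S, h.dA3S,
      h.dBP0, h.dBP2, h.dBP3, h.dBQ02, h.dBQ23, h.dBQ03, h.dBS,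
      h.dP2P0, h.dP3P0, h.dP3P2, h.dQ02P0, h.dQ02P2, h.dQ23P2, h.dQ23P3, h.dQ03P0, h.dQ03P3,
      h.dRP0, h.dRP2, h.dRP3, h.dSP0, h.dSP2, h.dSP3, h.dQ23Q02, h.dQ03Q02, h.dQ03Q23,
      h.dRQ02, h.dRQ23, h.dRQ03, h.dSQ02, h.dSQ23, h.dSQ03, h.dSR,
      ZJ3_rl (h.dA2A0 _ _), ZJ3_rl (h.dA3A0 _ _), ZJ3_rl (h.dA3A2 _ _), ZJ3_rl (h.dA0P0 _ _), ZJ3_rl (h.dA2P2 _ _),
      ZJ3_rl (h.dA3P3 _ _), ZJ3_rl (h.dA0Q02 _ _), ZJ3_rl (h.dA0Q03 _ _), ZJ3_rl (h.dA2Q02 _ _), ZJ3_rl (h.dA2Q23 _ _),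
      ZJ3_rl (h.dA3Q23 _ _), ZJ3_rl (h.dA3Q03 _ _), ZJ3_rl (h.dA0R _ _), ZJ3_rl (h.dA2R _ _), ZJ3_rl (h.dA3R _ _),
      ZJ3_rl (h.dA0S _ _), ZJ3_rl (h.dA2S _ _), ZJ3_rl (h.dA3S _ _),
      ZJ3_rl (h.dBP0 _ _), ZJ3_rl (h.dBP2 _ _), ZJ3_rl (h.dBP3 _ _), ZJ3_rl (h.dBQ02 _ _), ZJ3_rl (h.dBQ23 _ _),
      ZJ3_rl (h.dBQ03 _ _), ZJ3_rl (h.dBS _ _),
      ZJ3_rl (h.dP2P0 _ _), ZJ3_rl (h.dP3P0 _ _), ZJ3_rl (h.dP3P2 _ _), ZJ3_rl (h.dQ02P0 _ _), ZJ3_rl (h.dQ02P2 _ _),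
      ZJ3_rl (h.dQ23P2 _ _), ZJ3_rl (h.dQ23P3 _ _), ZJ3_rl (h.dQ03P0 _ _), ZJ3_rl (h.dQ03P3 _ _),
      ZJ3_rl (h.dRP0 _ _), ZJ3_rl (h.dRP2 _ _), ZJ3_rl (h.dRP3 _ _), ZJ3_rl (h.dSP0 _ _), ZJ3_rl (h.dSP2 _ _),
      ZJ3_rl (h.dSP3 _ _), ZJ3_rl (h.dQ23Q02 _ _), ZJ3_rl (h.dQ03Q02 _ _), ZJ3_rl (h.dQ03Q23 _ _),
      ZJ3_rl (h.dRQ02 _ _), ZJ3_rl (h.dRQ23 _ _), ZJ3_rl (h.dRQ03 _ _), ZJ3_rl (h.dSQ02 _ _), ZJ3_rl (h.dSQ23 _ _),
      ZJ3_rl (h.dSQ03 _ _), ZJ3_rl (h.dSR _ _)]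
    have e1 : t * -u + -(t * u) = t * u := by linear_combination -(t * u) * h3
    have e2 : -(t * -u) + -(t * -u) = -(t * u) := by linear_combination (t * u) * h3
    have e3 : t * -(t * u) + -(t * -(t * u)) = 0 := by ring
    have e4 : t * (-u * -u) + (-(t * u) * -u + -(t * u) * -u) = 0 := by
      linear_combination (t * u ^ 2) * h3
    have e5 : t * (u * -u) + (-(t * u) * u + t * (u * -u)) = 0 := by
      linear_combination -(t * u ^ 2) * h3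
    rw [e1, e2, e3, e4, e5, R0, S0, one_mul, one_mul]
  · simp only [mul_assoc, h.aP0, h.aP2, h.aP3, h.aQ02, h.aQ23, h.aQ03, h.aR, h.aS,
      ZJ3_ra (h.aP0 _ _), ZJ3_ra (h.aP2 _ _), ZJ3_ra (h.aP3 _ _), ZJ3_ra (h.aQ02 _ _), ZJ3_ra (h.aQ23 _ _), ZJ3_ra (h.aQ03 _ _),
      ZJ3_ra (h.aR _ _), ZJ3_ra (h.aS _ _),
      h.c1, h.c2, h.c3, h.c4, h.c5, h.c6, h.c7, h.c8, h.c9, h.c10, h.c11, h.c12, h.c13, h.c14, h.c15,
      h.c16,
      ZJ3_rn (h.c1 _ _), ZJ3_rn (h.c2 _ _), ZJ3_rn (h.c3 _ _), ZJ3_rn (h.c4 _ _), ZJ3_rn (h.c5 _ _), ZJ3_rn (h.c6 _ _),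
      ZJ3_rn (h.c7 _ _), ZJ3_rn (h.c8 _ _), ZJ3_rn (h.c9 _ _), ZJ3_rn (h.c10 _ _), ZJ3_rn (h.c11 _ _), ZJ3_rn (h.c12 _ _),
      ZJ3_rn (h.c13 _ _), ZJ3_rn (h.c14 _ _), ZJ3_rn (h.c15 _ _), ZJ3_rn (h.c16 _ _),
      h.dA2A0, h.dA3A0, h.dA3A2, h.dA0P0, h.dA2P2, h.dA3P3, h.dA0Q02, h.dA0Q03, h.dA2Q02, h.dA2Q23,
      h.dA3Q23, h.dA3Q03, h.dA0R, h.dA2R, h.dA3R, h.dA0S, h.dA2S, h.dA3S,
      h.dBP0, h.dBP2, h.dBP3, h.dBQ02, h.dBQ23, h.dBQ03, h.dBS,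
      h.dP2P0, h.dP3P0, h.dP3P2, h.dQ02P0, h.dQ02P2, h.dQ23P2, h.dQ23P3, h.dQ03P0, h.dQ03P3,
      h.dRP0, h.dRP2, h.dRP3, h.dSP0, h.dSP2, h.dSP3, h.dQ23Q02, h.dQ03Q02, h.dQ03Q23,
      h.dRQ02, h.dRQ23, h.dRQ03, h.dSQ02, h.dSQ23, h.dSQ03, h.dSR,
      ZJ3_rl (h.dA2A0 _ _), ZJ3_rl (h.dA3A0 _ _), ZJ3_rl (h.dA3A2 _ _), ZJ3_rl (h.dA0P0 _ _), ZJ3_rl (h.dA2P2 _ _),
      ZJ3_rl (h.dA3P3 _ _), ZJ3_rl (h.dA0Q02 _ _), ZJ3_rl (h.dA0Q03 _ _), ZJ3_rl (h.dA2Q02 _ _), ZJ3_rl (h.dA2Q23 _ _),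
      ZJ3_rl (h.dA3Q23 _ _), ZJ3_rl (h.dA3Q03 _ _), ZJ3_rl (h.dA0R _ _), ZJ3_rl (h.dA2R _ _), ZJ3_rl (h.dA3R _ _),
      ZJ3_rl (h.dA0S _ _), ZJ3_rl (h.dA2S _ _), ZJ3_rl (h.dA3S _ _),
      ZJ3_rl (h.dBP0 _ _), ZJ3_rl (h.dBP2 _ _), ZJ3_rl (h.dBP3 _ _), ZJ3_rl (h.dBQ02 _ _), ZJ3_rl (h.dBQ23 _ _),
      ZJ3_rl (h.dBQ03 _ _), ZJ3_rl (h.dBS _ _),
      ZJ3_rl (h.dP2P0 _ _), ZJ3_rl (h.dP3P0 _ _), ZJ3_rl (h.dP3P2 _ _), ZJ3_rl (h.dQ02P0 _ _), ZJ3_rl (h.dQ02P2 _ _),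
      ZJ3_rl (h.dQ23P2 _ _), ZJ3_rl (h.dQ23P3 _ _), ZJ3_rl (h.dQ03P0 _ _), ZJ3_rl (h.dQ03P3 _ _),
      ZJ3_rl (h.dRP0 _ _), ZJ3_rl (h.dRP2 _ _), ZJ3_rl (h.dRP3 _ _), ZJ3_rl (h.dSP0 _ _), ZJ3_rl (h.dSP2 _ _),
      ZJ3_rl (h.dSP3 _ _), ZJ3_rl (h.dQ23Q02 _ _), ZJ3_rl (h.dQ03Q02 _ _), ZJ3_rl (h.dQ03Q23 _ _),
      ZJ3_rl (h.dRQ02 _ _), ZJ3_rl (h.dRQ23 _ _), ZJ3_rl (h.dRQ03 _ _), ZJ3_rl (h.dSQ02 _ _), ZJ3_rl (h.dSQ23 _ _),
      ZJ3_rl (h.dSQ03 _ _), ZJ3_rl (h.dSR _ _)]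
    have e1 : t * -u + (-(t * u) + -(t * u)) = 0 := by linear_combination -(t * u) * h3
    rw [e1, R0, one_mul]
  · simp only [mul_assoc, h.aP0, h.aP2, h.aP3, h.aQ02, h.aQ23, h.aQ03, h.aR, h.aS,
      ZJ3_ra (h.aP0 _ _), ZJ3_ra (h.aP2 _ _), ZJ3_ra (h.aP3 _ _), ZJ3_ra (h.aQ02 _ _), ZJ3_ra (h.aQ23 _ _), ZJ3_ra (h.aQ03 _ _),
      ZJ3_ra (h.aR _ _), ZJ3_ra (h.aS _ _),
      h.c1, h.c2, h.c3, h.c4, h.c5, h.c6, h.c7, h.c8, h.c9, h.c10, h.c11, h.c12, h.c13, h.c14, h.c15,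
      h.c16,
      ZJ3_rn (h.c1 _ _), ZJ3_rn (h.c2 _ _), ZJ3_rn (h.c3 _ _), ZJ3_rn (h.c4 _ _), ZJ3_rn (h.c5 _ _), ZJ3_rn (h.c6 _ _),
      ZJ3_rn (h.c7 _ _), ZJ3_rn (h.c8 _ _), ZJ3_rn (h.c9 _ _), ZJ3_rn (h.c10 _ _), ZJ3_rn (h.c11 _ _), ZJ3_rn (h.c12 _ _),
      ZJ3_rn (h.c13 _ _), ZJ3_rn (h.c14 _ _), ZJ3_rn (h.c15 _ _), ZJ3_rn (h.c16 _ _),
      h.dA2A0, h.dA3A0, h.dA3A2, h.dA0P0, h.dA2P2, h.dA3P3, h.dA0Q02, h.dA0Q03, h.dA2Q02, h.dA2Q23,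
      h.dA3Q23, h.dA3Q03, h.dA0R, h.dA2R, h.dA3R, h.dA0S, h.dA2S, h.dA3S,
      h.dBP0, h.dBP2, h.dBP3, h.dBQ02, h.dBQ23, h.dBQ03, h.dBS,
      h.dP2P0, h.dP3P0, h.dP3P2, h.dQ02P0, h.dQ02P2, h.dQ23P2, h.dQ23P3, h.dQ03P0, h.dQ03P3,
      h.dRP0, h.dRP2, h.dRP3, h.dSP0, h.dSP2, h.dSP3, h.dQ23Q02, h.dQ03Q02, h.dQ03Q23,
      h.dRQ02, h.dRQ23, h.dRQ03, h.dSQ02, h.dSQ23, h.dSQ03, h.dSR,
      ZJ3_rl (h.dA2A0 _ _), ZJ3_rl (h.dA3A0 _ _), ZJ3_rl (h.dA3A2 _ _), ZJ3_rl (h.dA0P0 _ _), ZJ3_rl (h.dA2P2 _ _),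
      ZJ3_rl (h.dA3P3 _ _), ZJ3_rl (h.dA0Q02 _ _), ZJ3_rl (h.dA0Q03 _ _), ZJ3_rl (h.dA2Q02 _ _), ZJ3_rl (h.dA2Q23 _ _),
      ZJ3_rl (h.dA3Q23 _ _), ZJ3_rl (h.dA3Q03 _ _), ZJ3_rl (h.dA0R _ _), ZJ3_rl (h.dA2R _ _), ZJ3_rl (h.dA3R _ _),
      ZJ3_rl (h.dA0S _ _), ZJ3_rl (h.dA2S _ _), ZJ3_rl (h.dA3S _ _),
      ZJ3_rl (h.dBP0 _ _), ZJ3_rl (h.dBP2 _ _), ZJ3_rl (h.dBP3 _ _), ZJ3_rl (h.dBQ02 _ _), ZJ3_rl (h.dBQ23 _ _),
      ZJ3_rl (h.dBQ03 _ _), ZJ3_rl (h.dBS _ _),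
      ZJ3_rl (h.dP2P0 _ _), ZJ3_rl (h.dP3P0 _ _), ZJ3_rl (h.dP3P2 _ _), ZJ3_rl (h.dQ02P0 _ _), ZJ3_rl (h.dQ02P2 _ _),
      ZJ3_rl (h.dQ23P2 _ _), ZJ3_rl (h.dQ23P3 _ _), ZJ3_rl (h.dQ03P0 _ _), ZJ3_rl (h.dQ03P3 _ _),
      ZJ3_rl (h.dRP0 _ _), ZJ3_rl (h.dRP2 _ _), ZJ3_rl (h.dRP3 _ _), ZJ3_rl (h.dSP0 _ _), ZJ3_rl (h.dSP2 _ _),
      ZJ3_rl (h.dSP3 _ _), ZJ3_rl (h.dQ23Q02 _ _), ZJ3_rl (h.dQ03Q02 _ _), ZJ3_rl (h.dQ03Q23 _ _),
      ZJ3_rl (h.dRQ02 _ _), ZJ3_rl (h.dRQ23 _ _), ZJ3_rl (h.dRQ03 _ _), ZJ3_rl (h.dSQ02 _ _), ZJ3_rl (h.dSQ23 _ _),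
      ZJ3_rl (h.dSQ03 _ _), ZJ3_rl (h.dSR _ _)]
    have e1 : u * -t + (-u * t + u * -t) = 0 := by linear_combination -(t * u) * h3
    rw [e1, S0, mul_one]

private theorem ZJ3_all2 (t u : k) :
    A0 t * (A2 t * A3 t) * R u = R u * (A0 t * (A2 t * A3 t)) ∧
    A0 t * (A2 t * A3 t) * S u = S u * (A0 t * (A2 t * A3 t)) ∧
    B t * (P0 u * (P2 (-u) * P3 (-u))) = (P0 u * (P2 (-u) * P3 (-u))) * B t ∧
    B t * (Q02 u * (Q23 (-u) * Q03 u)) = (Q02 u * (Q23 (-u) * Q03 u)) * B t ∧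
    B t * S u = S u * B t ∧
    (P0 t * (P2 (-t) * P3 (-t))) * R u = R u * (P0 t * (P2 (-t) * P3 (-t))) ∧
    (P0 t * (P2 (-t) * P3 (-t))) * S u = S u * (P0 t * (P2 (-t) * P3 (-t))) ∧
    (Q02 t * (Q23 (-t) * Q03 t)) * R u = R u * (Q02 t * (Q23 (-t) * Q03 t)) ∧
    (Q02 t * (Q23 (-t) * Q03 t)) * S u = S u * (Q02 t * (Q23 (-t) * Q03 t)) ∧
    R t * S u = S u * R t := by
  refine ⟨?_, ?_, ?_, ?_, ?_, ?_, ?_, ?_, ?_, ?_⟩ <;>
  simp only [mul_assoc, h.aP0, h.aP2, h.aP3, h.aQ02, h.aQ23, h.aQ03, h.aR, h.aS,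
    ZJ3_ra (h.aP0 _ _), ZJ3_ra (h.aP2 _ _), ZJ3_ra (h.aP3 _ _), ZJ3_ra (h.aQ02 _ _), ZJ3_ra (h.aQ23 _ _), ZJ3_ra (h.aQ03 _ _),
    ZJ3_ra (h.aR _ _), ZJ3_ra (h.aS _ _),
    h.c1, h.c2, h.c3, h.c4, h.c5, h.c6, h.c7, h.c8, h.c9, h.c10, h.c11, h.c12, h.c13, h.c14, h.c15,
    h.c16,
    ZJ3_rn (h.c1 _ _), ZJ3_rn (h.c2 _ _), ZJ3_rn (h.c3 _ _), ZJ3_rn (h.c4 _ _), ZJ3_rn (h.c5 _ _), ZJ3_rn (h.c6 _ _),
    ZJ3_rn (h.c7 _ _), ZJ3_rn (h.c8 _ _), ZJ3_rn (h.c9 _ _), ZJ3_rn (h.c10 _ _), ZJ3_rn (h.c11 _ _), ZJ3_rn (h.c12 _ _),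
    ZJ3_rn (h.c13 _ _), ZJ3_rn (h.c14 _ _), ZJ3_rn (h.c15 _ _), ZJ3_rn (h.c16 _ _),
    h.dA2A0, h.dA3A0, h.dA3A2, h.dA0P0, h.dA2P2, h.dA3P3, h.dA0Q02, h.dA0Q03, h.dA2Q02, h.dA2Q23,
    h.dA3Q23, h.dA3Q03, h.dA0R, h.dA2R, h.dA3R, h.dA0S, h.dA2S, h.dA3S,
    h.dBP0, h.dBP2, h.dBP3, h.dBQ02, h.dBQ23, h.dBQ03, h.dBS,
    h.dP2P0, h.dP3P0, h.dP3P2, h.dQ02P0, h.dQ02P2, h.dQ23P2, h.dQ23P3, h.dQ03P0, h.dQ03P3,
    h.dRP0, h.dRP2, h.dRP3, h.dSP0, h.dSP2, h.dSP3, h.dQ23Q02, h.dQ03Q02, h.dQ03Q23,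
    h.dRQ02, h.dRQ23, h.dRQ03, h.dSQ02, h.dSQ23, h.dSQ03, h.dSR,
    ZJ3_rl (h.dA2A0 _ _), ZJ3_rl (h.dA3A0 _ _), ZJ3_rl (h.dA3A2 _ _), ZJ3_rl (h.dA0P0 _ _), ZJ3_rl (h.dA2P2 _ _),
    ZJ3_rl (h.dA3P3 _ _), ZJ3_rl (h.dA0Q02 _ _), ZJ3_rl (h.dA0Q03 _ _), ZJ3_rl (h.dA2Q02 _ _), ZJ3_rl (h.dA2Q23 _ _),
    ZJ3_rl (h.dA3Q23 _ _), ZJ3_rl (h.dA3Q03 _ _), ZJ3_rl (h.dA0R _ _), ZJ3_rl (h.dA2R _ _), ZJ3_rl (h.dA3R _ _),
    ZJ3_rl (h.dA0S _ _), ZJ3_rl (h.dA2S _ _), ZJ3_rl (h.dA3S _ _),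
    ZJ3_rl (h.dBP0 _ _), ZJ3_rl (h.dBP2 _ _), ZJ3_rl (h.dBP3 _ _), ZJ3_rl (h.dBQ02 _ _), ZJ3_rl (h.dBQ23 _ _),
    ZJ3_rl (h.dBQ03 _ _), ZJ3_rl (h.dBS _ _),
    ZJ3_rl (h.dP2P0 _ _), ZJ3_rl (h.dP3P0 _ _), ZJ3_rl (h.dP3P2 _ _), ZJ3_rl (h.dQ02P0 _ _), ZJ3_rl (h.dQ02P2 _ _),
    ZJ3_rl (h.dQ23P2 _ _), ZJ3_rl (h.dQ23P3 _ _), ZJ3_rl (h.dQ03P0 _ _), ZJ3_rl (h.dQ03P3 _ _),
    ZJ3_rl (h.dRP0 _ _), ZJ3_rl (h.dRP2 _ _), ZJ3_rl (h.dRP3 _ _), ZJ3_rl (h.dSP0 _ _), ZJ3_rl (h.dSP2 _ _),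
    ZJ3_rl (h.dSP3 _ _), ZJ3_rl (h.dQ23Q02 _ _), ZJ3_rl (h.dQ03Q02 _ _), ZJ3_rl (h.dQ03Q23 _ _),
    ZJ3_rl (h.dRQ02 _ _), ZJ3_rl (h.dRQ23 _ _), ZJ3_rl (h.dRQ03 _ _), ZJ3_rl (h.dSQ02 _ _), ZJ3_rl (h.dSQ23 _ _),
    ZJ3_rl (h.dSQ03 _ _), ZJ3_rl (h.dSR _ _)]

end

end abs

section roots

private def zP0 : cD4.Root := ⟨![1, 1, 0, 0], by decide⟩
private def zP2 : cD4.Root := ⟨![0, 1, 1, 0], by decide⟩
private def zP3 : cD4.Root := ⟨![0, 1, 0, 1], by decide⟩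
private def zQ02 : cD4.Root := ⟨![1, 1, 1, 0], by decide⟩
private def zQ23 : cD4.Root := ⟨![0, 1, 1, 1], by decide⟩
private def zQ03 : cD4.Root := ⟨![1, 1, 0, 1], by decide⟩
private def zR : cD4.Root := ⟨![1, 1, 1, 1], by decide⟩
private def zS : cD4.Root := ⟨![1, 2, 1, 1], by decide⟩

private theorem ZJ3_ip (v : Fin 4 → ℤ) : 2 * cD4.ip v v = (2 * v 0 - v 1) ^ 2 + (2 * v 2 - v 1) ^ 2 +
    (2 * v 3 - v 1) ^ 2 + (v 1) ^ 2 := by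
  simp [SLC.ip, cD4, Matrix.mulVec, dotProduct, Fin.sum_univ_four]
  ring

private theorem ZJ3_bd (x : ℤ) (h : x ^ 2 ≤ 4) : -2 ≤ x ∧ x ≤ 2 := by
  constructor <;> nlinarith

private theorem ZJ3_cls (a c b d : ℤ) (ha : 0 ≤ a) (hc : 0 ≤ c) (hb : 0 ≤ b) (hd : 0 ≤ d)
    (h : (2 * a - c) ^ 2 + (2 * b - c) ^ 2 + (2 * d - c) ^ 2 + c ^ 2 = 4) :
    ![a, c, b, d] = ![1, 0, 0, 0] ∨ ![a, c, b, d] = ![0, 0, 1, 0] ∨ ![a, c, b, d] = ![0, 0, 0, 1] ∨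
    ![a, c, b, d] = ![0, 1, 0, 0] ∨ ![a, c, b, d] = ![1, 1, 0, 0] ∨ ![a, c, b, d] = ![0, 1, 1, 0] ∨
    ![a, c, b, d] = ![0, 1, 0, 1] ∨ ![a, c, b, d] = ![1, 1, 1, 0] ∨ ![a, c, b, d] = ![0, 1, 1, 1] ∨
    ![a, c, b, d] = ![1, 1, 0, 1] ∨ ![a, c, b, d] = ![1, 1, 1, 1] ∨ ![a, c, b, d] = ![1, 2, 1, 1] := by
  have h1 := sq_nonneg (2 * a - c)
  have h2 := sq_nonneg (2 * b - c)
  have h3 := sq_nonneg (2 * d - c)
  have h4 := sq_nonneg c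
  obtain ⟨-, h5⟩ := ZJ3_bd c (by linarith)
  obtain ⟨-, h6⟩ := ZJ3_bd (2 * a - c) (by linarith)
  obtain ⟨-, h7⟩ := ZJ3_bd (2 * b - c) (by linarith)
  obtain ⟨-, h8⟩ := ZJ3_bd (2 * d - c) (by linarith)
  have ha2 : a ≤ 2 := by omega
  have hb2 : b ≤ 2 := by omega
  have hd2 : d ≤ 2 := by omega
  clear h1 h2 h3 h4 h6 h7 h8
  interval_cases c <;> interval_cases a <;> interval_cases b <;> interval_cases d <;>
    first
    | (exfalso; revert h; decide)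
    | decide

private theorem ZJ3_val (β : cD4.Root) (v : Fin 4 → ℤ) (h : ![β.1 0, β.1 1, β.1 2, β.1 3] = v)
    (γ : cD4.Root) (hγ : γ.1 = v) : β = γ := by
  apply SLC.Root.ext
  rw [hγ, ← h]
  funext i
  fin_cases i <;> rfl

private theorem ZJ3_cyc1 (β γ : cD4.Root) (h : dD4.r β = γ) : dD4.rE.SameCycle β γ :=
  ⟨1, by rw [zpow_one, Dg.rE_apply, h]⟩

private theorem ZJ3_cases (β : cD4.Root) (hβ : cD4.Pos β) :
    β = cD4.simple 0 ∨ β = cD4.simple 2 ∨ β = cD4.simple 3 ∨ β = cD4.simple 1 ∨ β = zP0 ∨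
    β = zP2 ∨ β = zP3 ∨ β = zQ02 ∨ β = zQ23 ∨ β = zQ03 ∨ β = zR ∨ β = zS := by
  have h0 := (cD4.pos_iff β).1 hβ
  have h1 := ZJ3_ip β.1
  rw [β.2] at h1
  rcases ZJ3_cls (β.1 0) (β.1 1) (β.1 2) (β.1 3) (h0 0) (h0 1) (h0 2) (h0 3) (by linarith) with
    h | h | h | h | h | h | h | h | h | h | h | h
  · exact Or.inl (ZJ3_val β _ h _ (by decide))
  · exact Or.inr (Or.inl (ZJ3_val β _ h _ (by decide)))
  · exact Or.inr (Or.inr (Or.inl (ZJ3_val β _ h _ (by decide))))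
  · exact Or.inr (Or.inr (Or.inr (Or.inl (ZJ3_val β _ h _ (by decide)))))
  · exact Or.inr (Or.inr (Or.inr (Or.inr (Or.inl (ZJ3_val β _ h _ (by decide))))))
  · exact Or.inr (Or.inr (Or.inr (Or.inr (Or.inr (Or.inl (ZJ3_val β _ h _ (by decide)))))))
  · exact Or.inr (Or.inr (Or.inr (Or.inr (Or.inr (Or.inr (Or.inl
      (ZJ3_val β _ h _ (by decide))))))))
  · exact Or.inr (Or.inr (Or.inr (Or.inr (Or.inr (Or.inr (Or.inr (Or.inl
      (ZJ3_val β _ h _ (by decide)))))))))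
  · exact Or.inr (Or.inr (Or.inr (Or.inr (Or.inr (Or.inr (Or.inr (Or.inr (Or.inl
      (ZJ3_val β _ h _ (by decide))))))))))
  · exact Or.inr (Or.inr (Or.inr (Or.inr (Or.inr (Or.inr (Or.inr (Or.inr (Or.inr (Or.inl
      (ZJ3_val β _ h _ (by decide)))))))))))
  · exact Or.inr (Or.inr (Or.inr (Or.inr (Or.inr (Or.inr (Or.inr (Or.inr (Or.inr (Or.inr (Or.inl
      (ZJ3_val β _ h _ (by decide))))))))))))
  · exact Or.inr (Or.inr (Or.inr (Or.inr (Or.inr (Or.inr (Or.inr (Or.inr (Or.inr (Or.inr (Or.inr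
      (ZJ3_val β _ h _ (by decide))))))))))))

end roots

theorem G2_roots : ∃ βP βQ βR βS, G2r βP βQ βR βS := by
  refine ⟨zP0, zQ02, zR, zS, ⟨rfl, rfl, rfl, rfl, by decide, by decide, by decide, by decide, ?_⟩⟩
  intro β
  constructor
  · intro hβ
    have a1 : dD4.rE.SameCycle (cD4.simple 0) (cD4.simple 2) := ZJ3_cyc1 _ _ (by decide)
    have a2 : dD4.rE.SameCycle (cD4.simple 2) (cD4.simple 3) := ZJ3_cyc1 _ _ (by decide)
    have p1 : dD4.rE.SameCycle zP0 zP2 := ZJ3_cyc1 _ _ (by decide)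
    have p2 : dD4.rE.SameCycle zP2 zP3 := ZJ3_cyc1 _ _ (by decide)
    have q1 : dD4.rE.SameCycle zQ02 zQ23 := ZJ3_cyc1 _ _ (by decide)
    have q2 : dD4.rE.SameCycle zQ23 zQ03 := ZJ3_cyc1 _ _ (by decide)
    rcases ZJ3_cases β hβ with h | h | h | h | h | h | h | h | h | h | h | h
    · exact Or.inl (h ▸ Equiv.Perm.SameCycle.refl _ _)
    · exact Or.inl (h ▸ a1)
    · exact Or.inl (h ▸ a1.trans a2)
    · exact Or.inr (Or.inl h)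
    · exact Or.inr (Or.inr (Or.inl (h ▸ Equiv.Perm.SameCycle.refl _ _)))
    · exact Or.inr (Or.inr (Or.inl (h ▸ p1)))
    · exact Or.inr (Or.inr (Or.inl (h ▸ p1.trans p2)))
    · exact Or.inr (Or.inr (Or.inr (Or.inl (h ▸ Equiv.Perm.SameCycle.refl _ _))))
    · exact Or.inr (Or.inr (Or.inr (Or.inl (h ▸ q1))))
    · exact Or.inr (Or.inr (Or.inr (Or.inl (h ▸ q1.trans q2))))
    · exact Or.inr (Or.inr (Or.inr (Or.inr (Or.inl h))))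
    · exact Or.inr (Or.inr (Or.inr (Or.inr (Or.inr h))))
  · rintro (h | h | h | h | h | h)
    · exact (pos_cycle _ _ h).1 (cD4.simple_pos 0)
    · rw [h]
      exact cD4.simple_pos 1
    · exact (pos_cycle _ _ h).1 (by decide)
    · exact (pos_cycle _ _ h).1 (by decide)
    · rw [h]
      decide
    · rw [h]
      decide

theorem RJ_D4 : RJ dD4 tD4 0 = {β | cD4.Pos β} := by
  have hJ : ∀ j, JJ dD4 tD4 0 j := by
    have h1 : dD4.ρ.SameCycle 0 2 := ⟨1, by decide⟩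
    have h2 : dD4.ρ.SameCycle 2 3 := ⟨1, by decide⟩
    intro j
    fin_cases j
    · exact Or.inl (Equiv.Perm.SameCycle.refl _ _)
    · exact Or.inr (Equiv.Perm.SameCycle.refl _ _)
    · exact Or.inl h1
    · exact Or.inl (h1.trans h2)
  ext β
  exact ⟨fun h => h.1, fun h => ⟨h, fun j _ => hJ j⟩⟩

section
variable {k : Type*} [Field k] [Infinite k]

omit [Infinite k] in
private theorem ZJ3_ncp (α β γ : cD4.Root) (hγ : γ.1 = α.1 + β.1) (he : cD4.eps α.1 β.1 = 1)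
    (t u : k) : cD4.xg k α t * cD4.xg k β u = cD4.xg k γ (t * u) * (cD4.xg k β u * cD4.xg k α t) := by
  have h := cD4.xg_comm_add k α β γ t u hγ
  rw [mul_inv_eq_iff_eq_mul, mul_inv_eq_iff_eq_mul, he, Int.cast_one, one_mul, mul_assoc] at h
  exact h

omit [Infinite k] in
private theorem ZJ3_ncm (α β γ : cD4.Root) (hγ : γ.1 = α.1 + β.1) (he : cD4.eps α.1 β.1 = -1)
    (t u : k) : cD4.xg k α t * cD4.xg k β u =
      cD4.xg k γ (-(t * u)) * (cD4.xg k β u * cD4.xg k α t) := by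
  have h := cD4.xg_comm_add k α β γ t u hγ
  rw [mul_inv_eq_iff_eq_mul, mul_inv_eq_iff_eq_mul, he, Int.cast_neg, Int.cast_one, neg_mul, one_mul,
    neg_mul, mul_assoc] at h
  exact h

omit [Infinite k] in
private theorem ZJ3_sys : ZJ3Sys (cD4.xg k zP0) (cD4.xg k zP2) (cD4.xg k zP3) (cD4.xg k zQ02)
    (cD4.xg k zQ23) (cD4.xg k zQ03) (cD4.xg k zR) (cD4.xg k zS) (cD4.xg k (cD4.simple 1))
    (cD4.xg k (cD4.simple 0)) (cD4.xg k (cD4.simple 2)) (cD4.xg k (cD4.simple 3)) where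
  aP0 := fun s t => (cD4.xg_map_add k zP0 s t).symm
  aP2 := fun s t => (cD4.xg_map_add k zP2 s t).symm
  aP3 := fun s t => (cD4.xg_map_add k zP3 s t).symm
  aQ02 := fun s t => (cD4.xg_map_add k zQ02 s t).symm
  aQ23 := fun s t => (cD4.xg_map_add k zQ23 s t).symm
  aQ03 := fun s t => (cD4.xg_map_add k zQ03 s t).symm
  aR := fun s t => (cD4.xg_map_add k zR s t).symm
  aS := fun s t => (cD4.xg_map_add k zS s t).symm
  c1 := ZJ3_ncp (cD4.simple 0) (cD4.simple 1) zP0 (by decide) (by decide)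
  c2 := ZJ3_ncm (cD4.simple 2) (cD4.simple 1) zP2 (by decide) (by decide)
  c3 := ZJ3_ncm (cD4.simple 3) (cD4.simple 1) zP3 (by decide) (by decide)
  c4 := ZJ3_ncp (cD4.simple 0) zP2 zQ02 (by decide) (by decide)
  c5 := ZJ3_ncp (cD4.simple 0) zP3 zQ03 (by decide) (by decide)
  c6 := ZJ3_ncm (cD4.simple 2) zP0 zQ02 (by decide) (by decide)
  c7 := ZJ3_ncm (cD4.simple 2) zP3 zQ23 (by decide) (by decide)
  c8 := ZJ3_ncm (cD4.simple 3) zP0 zQ03 (by decide) (by decide)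
  c9 := ZJ3_ncm (cD4.simple 3) zP2 zQ23 (by decide) (by decide)
  c10 := ZJ3_ncp (cD4.simple 0) zQ23 zR (by decide) (by decide)
  c11 := ZJ3_ncm (cD4.simple 2) zQ03 zR (by decide) (by decide)
  c12 := ZJ3_ncm (cD4.simple 3) zQ02 zR (by decide) (by decide)
  c13 := ZJ3_ncp (cD4.simple 1) zR zS (by decide) (by decide)
  c14 := ZJ3_ncp zQ23 zP0 zS (by decide) (by decide)
  c15 := ZJ3_ncp zQ03 zP2 zS (by decide) (by decide)
  c16 := ZJ3_ncp zQ02 zP3 zS (by decide) (by decide)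
  dA2A0 := fun s t => cD4.xg_comm k (cD4.simple 2) (cD4.simple 0) s t (by decide)
  dA3A0 := fun s t => cD4.xg_comm k (cD4.simple 3) (cD4.simple 0) s t (by decide)
  dA3A2 := fun s t => cD4.xg_comm k (cD4.simple 3) (cD4.simple 2) s t (by decide)
  dA0P0 := fun s t => cD4.xg_comm k (cD4.simple 0) zP0 s t (by decide)
  dA2P2 := fun s t => cD4.xg_comm k (cD4.simple 2) zP2 s t (by decide)
  dA3P3 := fun s t => cD4.xg_comm k (cD4.simple 3) zP3 s t (by decide)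
  dA0Q02 := fun s t => cD4.xg_comm k (cD4.simple 0) zQ02 s t (by decide)
  dA0Q03 := fun s t => cD4.xg_comm k (cD4.simple 0) zQ03 s t (by decide)
  dA2Q02 := fun s t => cD4.xg_comm k (cD4.simple 2) zQ02 s t (by decide)
  dA2Q23 := fun s t => cD4.xg_comm k (cD4.simple 2) zQ23 s t (by decide)
  dA3Q23 := fun s t => cD4.xg_comm k (cD4.simple 3) zQ23 s t (by decide)
  dA3Q03 := fun s t => cD4.xg_comm k (cD4.simple 3) zQ03 s t (by decide)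
  dA0R := fun s t => cD4.xg_comm k (cD4.simple 0) zR s t (by decide)
  dA2R := fun s t => cD4.xg_comm k (cD4.simple 2) zR s t (by decide)
  dA3R := fun s t => cD4.xg_comm k (cD4.simple 3) zR s t (by decide)
  dA0S := fun s t => cD4.xg_comm k (cD4.simple 0) zS s t (by decide)
  dA2S := fun s t => cD4.xg_comm k (cD4.simple 2) zS s t (by decide)
  dA3S := fun s t => cD4.xg_comm k (cD4.simple 3) zS s t (by decide)
  dBP0 := fun s t => cD4.xg_comm k (cD4.simple 1) zP0 s t (by decide)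
  dBP2 := fun s t => cD4.xg_comm k (cD4.simple 1) zP2 s t (by decide)
  dBP3 := fun s t => cD4.xg_comm k (cD4.simple 1) zP3 s t (by decide)
  dBQ02 := fun s t => cD4.xg_comm k (cD4.simple 1) zQ02 s t (by decide)
  dBQ23 := fun s t => cD4.xg_comm k (cD4.simple 1) zQ23 s t (by decide)
  dBQ03 := fun s t => cD4.xg_comm k (cD4.simple 1) zQ03 s t (by decide)
  dBS := fun s t => cD4.xg_comm k (cD4.simple 1) zS s t (by decide)
  dP2P0 := fun s t => cD4.xg_comm k zP2 zP0 s t (by decide)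
  dP3P0 := fun s t => cD4.xg_comm k zP3 zP0 s t (by decide)
  dP3P2 := fun s t => cD4.xg_comm k zP3 zP2 s t (by decide)
  dQ02P0 := fun s t => cD4.xg_comm k zQ02 zP0 s t (by decide)
  dQ02P2 := fun s t => cD4.xg_comm k zQ02 zP2 s t (by decide)
  dQ23P2 := fun s t => cD4.xg_comm k zQ23 zP2 s t (by decide)
  dQ23P3 := fun s t => cD4.xg_comm k zQ23 zP3 s t (by decide)
  dQ03P0 := fun s t => cD4.xg_comm k zQ03 zP0 s t (by decide)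
  dQ03P3 := fun s t => cD4.xg_comm k zQ03 zP3 s t (by decide)
  dRP0 := fun s t => cD4.xg_comm k zR zP0 s t (by decide)
  dRP2 := fun s t => cD4.xg_comm k zR zP2 s t (by decide)
  dRP3 := fun s t => cD4.xg_comm k zR zP3 s t (by decide)
  dSP0 := fun s t => cD4.xg_comm k zS zP0 s t (by decide)
  dSP2 := fun s t => cD4.xg_comm k zS zP2 s t (by decide)
  dSP3 := fun s t => cD4.xg_comm k zS zP3 s t (by decide)
  dQ23Q02 := fun s t => cD4.xg_comm k zQ23 zQ02 s t (by decide)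
  dQ03Q02 := fun s t => cD4.xg_comm k zQ03 zQ02 s t (by decide)
  dQ03Q23 := fun s t => cD4.xg_comm k zQ03 zQ23 s t (by decide)
  dRQ02 := fun s t => cD4.xg_comm k zR zQ02 s t (by decide)
  dRQ23 := fun s t => cD4.xg_comm k zR zQ23 s t (by decide)
  dRQ03 := fun s t => cD4.xg_comm k zR zQ03 s t (by decide)
  dSQ02 := fun s t => cD4.xg_comm k zS zQ02 s t (by decide)
  dSQ23 := fun s t => cD4.xg_comm k zS zQ23 s t (by decide)
  dSQ03 := fun s t => cD4.xg_comm k zS zQ03 s t (by decide)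
  dSR := fun s t => cD4.xg_comm k zS zR s t (by decide)

omit [Infinite k] in
private theorem ZJ3_yb3 (β β' β'' : cD4.Root) (h1 : dD4.r β = β') (h2 : dD4.r β' = β'')
    (h3 : β' ≠ β) (e1 e2 : ℤ) (he1 : dD4.sg β = e1) (he2 : dD4.sg β' = e2) (t : k) :
    ((yg swap_D4.na β t : GF dD4 k) : GL cD4.Idx k) =
      cD4.xg k β t * (cD4.xg k β' (e1 * t) * cD4.xg k β'' (e2 * (e1 * t))) := by
  have hs : IsSig dD4 (RingEquiv.refl k) (cD4.adS k) (dD4.sgl (RingEquiv.refl k)) :=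
    isSig_adS dD4 _
  rw [yg_val]
  unfold yb mo
  rw [if_neg (by rw [h1]; exact h3), dD4_m]
  have a1 := hs β t
  have a2 := hs β' ((e1 : k) * t)
  rw [h1, he1] at a1
  rw [h2, he2] at a2
  simp only [RingEquiv.refl_apply] at a1 a2
  simp only [List.range_succ, List.range_zero, List.nil_append, List.map_append, List.map_cons,
    List.map_nil, List.prod_append, List.prod_cons, List.prod_nil, mul_one,
    Function.iterate_zero, id, Function.iterate_succ, Function.comp]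
  rw [a1, a2, mul_assoc]
  rfl

omit [Infinite k] in
private theorem ZJ3_A (t : k) : ((yg swap_D4.na (cD4.simple 0) t : GF dD4 k) : GL cD4.Idx k) =
    cD4.xg k (cD4.simple 0) t * (cD4.xg k (cD4.simple 2) t * cD4.xg k (cD4.simple 3) t) := by
  rw [ZJ3_yb3 (cD4.simple 0) (cD4.simple 2) (cD4.simple 3) (by decide) (by decide) (by decide) 1 1
    (by decide) (by decide)]
  simp

omit [Infinite k] in
private theorem ZJ3_P (t : k) : ((yg swap_D4.na zP0 t : GF dD4 k) : GL cD4.Idx k) =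
    cD4.xg k zP0 t * (cD4.xg k zP2 (-t) * cD4.xg k zP3 (-t)) := by
  rw [ZJ3_yb3 zP0 zP2 zP3 (by decide) (by decide) (by decide) (-1) 1 (by decide) (by decide)]
  simp

omit [Infinite k] in
private theorem ZJ3_Q (t : k) : ((yg swap_D4.na zQ02 t : GF dD4 k) : GL cD4.Idx k) =
    cD4.xg k zQ02 t * (cD4.xg k zQ23 (-t) * cD4.xg k zQ03 t) := by
  rw [ZJ3_yb3 zQ02 zQ23 zQ03 (by decide) (by decide) (by decide) (-1) (-1) (by decide) (by decide)]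
  simp

private theorem ZJ3_B (t : k) : ((yg swap_D4.na (cD4.simple 1) t : GF dD4 k) : GL cD4.Idx k) =
    cD4.xg k (cD4.simple 1) t := yg_long swap_D4.na _ (by decide) t

private theorem ZJ3_R (t : k) : ((yg swap_D4.na zR t : GF dD4 k) : GL cD4.Idx k) =
    cD4.xg k zR t := yg_long swap_D4.na _ (by decide) t

private theorem ZJ3_S (t : k) : ((yg swap_D4.na zS t : GF dD4 k) : GL cD4.Idx k) =
    cD4.xg k zS t := yg_long swap_D4.na _ (by decide) t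

private theorem ZJ3_sub {βP βQ βR βS : cD4.Root} (hr : G2r βP βQ βR βS) :
    βP = zP0 ∧ βQ = zQ02 ∧ βR = zR ∧ βS = zS :=
  ⟨SLC.Root.ext hr.hP, SLC.Root.ext hr.hQ, SLC.Root.ext hr.hR, SLC.Root.ext hr.hS⟩

/-- commutator relations in characteristic `3` -/
theorem G2_comms [CharP k 3] (βP βQ βR βS : cD4.Root) (hr : G2r βP βQ βR βS) (t u : k) :
    yg swap_D4.na (cD4.simple 0) t * yg swap_D4.na (cD4.simple 1) u =
      yg swap_D4.na βP (t * u) * yg swap_D4.na βQ (-(t ^ 2 * u)) * yg swap_D4.na βR (t ^ 3 * u) *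
        yg swap_D4.na βS (-(t ^ 3 * u ^ 2)) *
        (yg swap_D4.na (cD4.simple 1) u * yg swap_D4.na (cD4.simple 0) t) ∧
    yg swap_D4.na (cD4.simple 0) t * yg swap_D4.na βP u =
      yg swap_D4.na βQ (t * u) * (yg swap_D4.na βP u * yg swap_D4.na (cD4.simple 0) t) ∧
    yg swap_D4.na (cD4.simple 1) t * yg swap_D4.na βR u =
      yg swap_D4.na βS (t * u) * (yg swap_D4.na βR u * yg swap_D4.na (cD4.simple 1) t) ∧
    yg swap_D4.na (cD4.simple 0) t * yg swap_D4.na βQ u =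
      yg swap_D4.na βQ u * yg swap_D4.na (cD4.simple 0) t ∧
    yg swap_D4.na βP t * yg swap_D4.na βQ u =
      yg swap_D4.na βQ u * yg swap_D4.na βP t := by
  obtain ⟨rfl, rfl, rfl, rfl⟩ := ZJ3_sub hr
  have h3 : (3 : k) = 0 := by exact_mod_cast CharP.cast_eq_zero k 3
  obtain ⟨h1, h2, h4, h5, -⟩ := ZJ3_all (ZJ3_sys (k := k)) h3 t u
  obtain ⟨-, -, -, -, h6⟩ := ZJ3_all (ZJ3_sys (k := k)) h3 t u
  refine ⟨?_, ?_, ?_, ?_, ?_⟩ <;> apply Subtype.ext <;>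
    simp only [Subgroup.coe_mul, ZJ3_A, ZJ3_B, ZJ3_P, ZJ3_Q, ZJ3_R, ZJ3_S]
  · exact h1
  · exact h2
  · exact h4
  · exact h5
  · exact h6

private theorem ZJ3_inj (β : cD4.Root) (t : k) (h : yg swap_D4.na β t = 1) : t = 0 := by
  by_contra ht
  rw [← yg_zero swap_D4.na β] at h
  exact ht ((yg_inj swap_D4.na β β t 0 ht h).2 rfl)

omit [Infinite k] in
private theorem ZJ3_uniq {G : Type*} [Group G] {A B P Q R S : k → G}
    (iQ : ∀ t, Q t = 1 → t = 0) (iS : ∀ t, S t = 1 → t = 0) (iQS : ∀ t u, Q t * S u = 1 → t = 0)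
    (zP : P 0 = 1) (zA : A 0 = 1) (zB : B 0 = 1) (zR : R 0 = 1) (zQ : Q 0 = 1)
    (AP : ∀ t v, A t * P v = Q (t * v) * (P v * A t))
    (BR : ∀ u z, B u * R z = S (u * z) * (R z * B u))
    (AR : ∀ t z, A t * R z = R z * A t)
    (AQ : ∀ t z, A t * Q z = Q z * A t)
    (AS : ∀ t y, A t * S y = S y * A t)
    (BQ : ∀ u w, B u * Q w = Q w * B u)
    (BS : ∀ u y, B u * S y = S y * B u)
    (PQ : ∀ v w, P v * Q w = Q w * P v)
    (PR : ∀ v z, P v * R z = R z * P v)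
    (PS : ∀ v y, P v * S y = S y * P v)
    (QR : ∀ w z, Q w * R z = R z * Q w)
    (QS : ∀ w y, Q w * S y = S y * Q w)
    (RS : ∀ z y, R z * S y = S y * R z)
    (RR : ∀ z y, R z * R y = R y * R z)
    (PP : ∀ z y, P z * P y = P y * P z)
    (t u v w z y : k) (h : A t * B u * P v * Q w * R z * S y = 1) :
    t = 0 ∧ u = 0 ∧ v = 0 ∧ w = 0 ∧ z = 0 ∧ y = 0 := by
  have hu : u = 0 := by
    have e1 : A t * B u * P v * Q w * R z * S y * R 1 =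
        S u * (R 1 * (A t * B u * P v * Q w * R z * S y)) := by
      have := BR u 1
      rw [mul_one] at this
      rw [mul_assoc _ (S y) (R 1), ← RS, ← mul_assoc, mul_assoc _ (R z) (R 1), RR z 1, ← mul_assoc,
        mul_assoc _ (Q w) (R 1), QR, ← mul_assoc, mul_assoc _ (P v) (R 1), PR, ← mul_assoc,
        mul_assoc _ (B u) (R 1), this, ← mul_assoc, AS, ← mul_assoc, mul_assoc _ (A t) (R 1), AR]
      simp only [mul_assoc]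
    rw [h, mul_one, one_mul, right_eq_mul] at e1
    exact iS u e1
  rw [hu, zB, mul_one] at h
  have ht : t = 0 := by
    have e1 : A t * P v * Q w * R z * S y * P 1 =
        Q t * (P 1 * (A t * P v * Q w * R z * S y)) := by
      have := AP t 1
      rw [mul_one] at this
      rw [mul_assoc _ (S y) (P 1), ← PS, ← mul_assoc, mul_assoc _ (R z) (P 1), ← PR, ← mul_assoc,
        mul_assoc _ (Q w) (P 1), ← PQ, ← mul_assoc, mul_assoc _ (P v) (P 1), PP v 1, ← mul_assoc,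
        this]
      simp only [mul_assoc]
    rw [h, mul_one, one_mul, right_eq_mul] at e1
    exact iQ t e1
  rw [ht, zA, one_mul] at h
  have hv : v = 0 := by
    have e1 : A 1 * (P v * Q w * R z * S y) =
        Q v * (P v * Q w * R z * S y * A 1) := by
      have := AP 1 v
      rw [one_mul] at this
      simp only [mul_assoc]
      rw [ZJ3_rn this, ZJ3_rl (AQ 1 w), ZJ3_rl (AR 1 z), AS]
    rw [h, mul_one, one_mul, right_eq_mul] at e1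
    exact iQ v e1
  rw [hv, zP, one_mul] at h
  have hz : z = 0 := by
    have e1 : B 1 * (Q w * R z * S y) = S z * (Q w * R z * S y * B 1) := by
      have := BR 1 z
      rw [one_mul] at this
      simp only [mul_assoc]
      rw [ZJ3_rl (BQ 1 w), ZJ3_rn this, BS, ZJ3_rl (QS w z)]
    rw [h, mul_one, one_mul, right_eq_mul] at e1
    exact iS z e1
  rw [hz, zR, mul_one] at h
  have hw : w = 0 := iQS w y h
  rw [hw, zQ, one_mul] at h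
  exact ⟨ht, hu, hv, hw, hz, iS y h⟩

private theorem ZJ3_TT (v : Fin 4 → ℤ) : TT dD4 tD4 v = ![v 1, 3 * v 0, v 1, v 1] := by
  funext j
  unfold TT
  rw [dD4_m]
  fin_cases j <;> simp [dD4, tD4]

private theorem ZJ3_osum (β β' β'' : cD4.Root) (h1 : dD4.r β = β') (h2 : dD4.r β' = β'')
    (h3 : β' ≠ β) : osum dD4 β = β.1 + β'.1 + β''.1 := by
  unfold osum mo
  rw [if_neg (by rw [h1]; exact h3), dD4_m]
  simp only [Finset.sum_range_succ, Finset.sum_range_zero, zero_add, Function.iterate_zero, id,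
    Function.iterate_succ, Function.comp, h1, h2]

omit [Infinite k] in
private theorem ZJ3_tau {θ : k ≃+* k} {σ : GF dD4 k →* GF dD4 k} {τ : cD4.Root → cD4.Root}
    {e : cD4.Root → ℤ} (ht : SRt swap_D4.na tD4 θ σ τ e)
    (β β' β'' γ : cD4.Root) (h1 : dD4.r β = β') (h2 : dD4.r β' = β'') (h3 : β' ≠ β)
    (hv : ∀ j, 3 * γ.1 j = (![(β.1 + β'.1 + β''.1) 1, 3 * (β.1 + β'.1 + β''.1) 0,
      (β.1 + β'.1 + β''.1) 1, (β.1 + β'.1 + β''.1) 1] : Fin 4 → ℤ) j) : τ β = γ := by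
  have t1 := (ht.tau.short β (by rw [h1]; exact h3)).2
  rw [ZJ3_osum β β' β'' h1 h2 h3, ZJ3_TT, dD4_m] at t1
  apply SLC.Root.ext
  funext j
  have t2 := congrFun t1 j
  rw [← hv j] at t2
  simp only [Pi.smul_apply, smul_eq_mul, Nat.cast_ofNat] at t2
  omega

private theorem ZJ3_pair {θ : k ≃+* k} {σ : GF dD4 k →* GF dD4 k} (h : SRs dD4 tD4 θ σ)
    (β β' β'' γ : cD4.Root) (h1 : dD4.r β = β') (h2 : dD4.r β' = β'') (h3 : β' ≠ β)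
    (hγ : dD4.r γ = γ)
    (hv : ∀ j, 3 * γ.1 j = (![(β.1 + β'.1 + β''.1) 1, 3 * (β.1 + β'.1 + β''.1) 0,
      (β.1 + β'.1 + β''.1) 1, (β.1 + β'.1 + β''.1) 1] : Fin 4 → ℤ) j)
    (hv' : ![γ.1 1, 3 * γ.1 0, γ.1 1, γ.1 1] = β.1 + β'.1 + β''.1) :
    ∃ e : k, (e = 1 ∨ e = -1) ∧ (∀ v, σ (yg swap_D4.na β v) = yg swap_D4.na γ (e * θ v)) ∧
      ∀ z, σ (yg swap_D4.na γ z) = yg swap_D4.na β (e * θ.symm z) := by
  obtain ⟨τ, e, ht⟩ := exists_tau swap_D4 h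
  have hb : dD4.r β ≠ β := by rw [h1]; exact h3
  have t2 : τ β = γ := ZJ3_tau ht β β' β'' γ h1 h2 h3 hv
  have t3 := ht.tau.long γ hγ
  have t4 : dD4.rE.SameCycle (τ γ) β := by
    apply osum_inj swap_D4.na
    rw [t3.2, ZJ3_TT, ZJ3_osum β β' β'' h1 h2 h3, hv']
  obtain ⟨e', he', hy⟩ := yg_cycle (k := k) swap_D4.na (τ γ) β t4
  have m1 : ∀ v, σ (yg swap_D4.na β v) = yg swap_D4.na γ ((e β : k) * θ v) := by
    intro v
    rw [ht.map β v, t2, th, if_neg hb]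
  have m2 : ∀ z, σ (yg swap_D4.na γ z) =
      yg swap_D4.na β ((e' : k) * ((e γ : k) * θ.symm z)) := by
    intro z
    rw [ht.map γ z, hy, th, if_pos hγ]
  have hs := sig_sig swap_D4 h (yg swap_D4.na β 1)
  rw [m1, m2, map_one, mul_one, map_intCast] at hs
  have hE : (e' : k) * ((e γ : k) * (e β : k)) = 1 := by
    by_contra hne
    have := (yg_inj swap_D4.na β β 1 _ one_ne_zero hs.symm).2 rfl
    exact hne this.symm
  have hE2 : (e β : k) = 1 ∨ (e β : k) = -1 := by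
    rcases ht.e_eq β with h | h <;> rw [h] <;> simp
  have hE3 : (e β : k) * (e β : k) = 1 := by
    rcases hE2 with h | h <;> rw [h] <;> ring
  have hE4 : (e' : k) * (e γ : k) = (e β : k) := by
    calc (e' : k) * (e γ : k) = (e' : k) * (e γ : k) * ((e β : k) * (e β : k)) := by
          rw [hE3, mul_one]
      _ = ((e' : k) * ((e γ : k) * (e β : k))) * (e β : k) := by ring
      _ = (e β : k) := by rw [hE, one_mul]
  refine ⟨(e β : k), hE2, m1, fun z => ?_⟩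
  rw [m2, ← mul_assoc, hE4]

private theorem ZJ3_pos_yg (t : k) (β : cD4.Root) (hβ : cD4.Pos β) :
    (∃ s, yg swap_D4.na β t = yg swap_D4.na (cD4.simple 0) s) ∨
    (∃ s, yg swap_D4.na β t = yg swap_D4.na (cD4.simple 1) s) ∨
    (∃ s, yg swap_D4.na β t = yg swap_D4.na zP0 s) ∨
    (∃ s, yg swap_D4.na β t = yg swap_D4.na zQ02 s) ∨
    (∃ s, yg swap_D4.na β t = yg swap_D4.na zR s) ∨
    (∃ s, yg swap_D4.na β t = yg swap_D4.na zS s) := by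
  have key : ∀ γ : cD4.Root, dD4.rE.SameCycle γ β →
      ∃ s, yg swap_D4.na β t = yg swap_D4.na γ s := by
    intro γ hγ
    obtain ⟨e, -, he⟩ := yg_cycle (k := k) swap_D4.na β γ hγ.symm
    exact ⟨_, (he t).symm⟩
  obtain ⟨βP, βQ, βR, βS, hr⟩ := G2_roots
  obtain ⟨rfl, rfl, rfl, rfl⟩ := ZJ3_sub hr
  rcases (hr.mem β).1 hβ with h | h | h | h | h | h
  · exact Or.inl (key _ h)
  · exact Or.inr (Or.inl ⟨t, by rw [h]⟩)
  · exact Or.inr (Or.inr (Or.inl (key _ h)))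
  · exact Or.inr (Or.inr (Or.inr (Or.inl (key _ h))))
  · exact Or.inr (Or.inr (Or.inr (Or.inr (Or.inl ⟨t, by rw [h]⟩))))
  · exact Or.inr (Or.inr (Or.inr (Or.inr (Or.inr ⟨t, by rw [h]⟩))))

theorem G2_inst {θ : k ≃+* k} {σ : GF dD4 k →* GF dD4 k} (h : SRs dD4 tD4 θ σ)
    (βP βQ βR βS : cD4.Root) (hr : G2r βP βQ βR βS) :
    G2s θ (yg swap_D4.na (cD4.simple 0)) (yg swap_D4.na (cD4.simple 1)) (yg swap_D4.na βP)
      (yg swap_D4.na βQ) (yg swap_D4.na βR) (yg swap_D4.na βS) σ ∧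
    ∀ x : GF dD4 k, x ∈ FU dD4 k ↔ ∃ t u v w z y, x = yg swap_D4.na (cD4.simple 0) t *
      yg swap_D4.na (cD4.simple 1) u * yg swap_D4.na βP v * yg swap_D4.na βQ w *
      yg swap_D4.na βR z * yg swap_D4.na βS y := by
  obtain ⟨rfl, rfl, rfl, rfl⟩ := ZJ3_sub hr
  have hN := swap_D4.na
  have hch : CharP k 3 := dD4_m ▸ h.chr
  have cm := fun t u => G2_comms (k := k) zP0 zQ02 zR zS hr t u
  have c2 := fun t u => ZJ3_all2 (ZJ3_sys (k := k)) t u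
  have AR : ∀ t u : k, yg hN (cD4.simple 0) t * yg hN zR u = yg hN zR u * yg hN (cD4.simple 0) t := by
    intro t u
    apply Subtype.ext
    simp only [Subgroup.coe_mul, ZJ3_A, ZJ3_B, ZJ3_P, ZJ3_Q, ZJ3_R, ZJ3_S]
    exact (c2 t u).1
  have AS : ∀ t u : k, yg hN (cD4.simple 0) t * yg hN zS u = yg hN zS u * yg hN (cD4.simple 0) t := by
    intro t u
    apply Subtype.ext
    simp only [Subgroup.coe_mul, ZJ3_A, ZJ3_B, ZJ3_P, ZJ3_Q, ZJ3_R, ZJ3_S]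
    exact (c2 t u).2.1
  have BP : ∀ t u : k, yg hN (cD4.simple 1) t * yg hN zP0 u =
      yg hN zP0 u * yg hN (cD4.simple 1) t := by
    intro t u
    apply Subtype.ext
    simp only [Subgroup.coe_mul, ZJ3_A, ZJ3_B, ZJ3_P, ZJ3_Q, ZJ3_R, ZJ3_S]
    exact (c2 t u).2.2.1
  have BQ : ∀ t u : k, yg hN (cD4.simple 1) t * yg hN zQ02 u =
      yg hN zQ02 u * yg hN (cD4.simple 1) t := by
    intro t u
    apply Subtype.ext
    simp only [Subgroup.coe_mul, ZJ3_A, ZJ3_B, ZJ3_P, ZJ3_Q, ZJ3_R, ZJ3_S]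
    exact (c2 t u).2.2.2.1
  have BS : ∀ t u : k, yg hN (cD4.simple 1) t * yg hN zS u =
      yg hN zS u * yg hN (cD4.simple 1) t := by
    intro t u
    apply Subtype.ext
    simp only [Subgroup.coe_mul, ZJ3_A, ZJ3_B, ZJ3_P, ZJ3_Q, ZJ3_R, ZJ3_S]
    exact (c2 t u).2.2.2.2.1
  have PR : ∀ t u : k, yg hN zP0 t * yg hN zR u = yg hN zR u * yg hN zP0 t := by
    intro t u
    apply Subtype.ext
    simp only [Subgroup.coe_mul, ZJ3_A, ZJ3_B, ZJ3_P, ZJ3_Q, ZJ3_R, ZJ3_S]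
    exact (c2 t u).2.2.2.2.2.1
  have PS : ∀ t u : k, yg hN zP0 t * yg hN zS u = yg hN zS u * yg hN zP0 t := by
    intro t u
    apply Subtype.ext
    simp only [Subgroup.coe_mul, ZJ3_A, ZJ3_B, ZJ3_P, ZJ3_Q, ZJ3_R, ZJ3_S]
    exact (c2 t u).2.2.2.2.2.2.1
  have QR : ∀ t u : k, yg hN zQ02 t * yg hN zR u = yg hN zR u * yg hN zQ02 t := by
    intro t u
    apply Subtype.ext
    simp only [Subgroup.coe_mul, ZJ3_A, ZJ3_B, ZJ3_P, ZJ3_Q, ZJ3_R, ZJ3_S]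
    exact (c2 t u).2.2.2.2.2.2.2.1
  have QS : ∀ t u : k, yg hN zQ02 t * yg hN zS u = yg hN zS u * yg hN zQ02 t := by
    intro t u
    apply Subtype.ext
    simp only [Subgroup.coe_mul, ZJ3_A, ZJ3_B, ZJ3_P, ZJ3_Q, ZJ3_R, ZJ3_S]
    exact (c2 t u).2.2.2.2.2.2.2.2.1
  have RS : ∀ t u : k, yg hN zR t * yg hN zS u = yg hN zS u * yg hN zR t := by
    intro t u
    apply Subtype.ext
    simp only [Subgroup.coe_mul, ZJ3_A, ZJ3_B, ZJ3_P, ZJ3_Q, ZJ3_R, ZJ3_S]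
    exact (c2 t u).2.2.2.2.2.2.2.2.2
  have h0 : dD4.r (cD4.simple 0) ≠ cD4.simple 0 := by decide
  have h1 : dD4.r (cD4.simple 1) = cD4.simple 1 := by decide
  have hG : G2s θ (yg hN (cD4.simple 0)) (yg hN (cD4.simple 1)) (yg hN zP0)
      (yg hN zQ02) (yg hN zR) (yg hN zS) σ :=
    { chr := hch
      hθ := fun t => by rw [h.hθ t, dD4_m]
      hA := fun s t => yg_add hN _ s t
      hB := fun s t => yg_add hN _ s t
      hP := fun s t => yg_add hN _ s t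
      hQ := fun s t => yg_add hN _ s t
      hR := fun s t => yg_add hN _ s t
      hS := fun s t => yg_add hN _ s t
      AB := fun t u => (cm t u).1
      AP := fun t u => (cm t u).2.1
      BR := fun t u => (cm t u).2.2.1
      AQ := fun t u => (cm t u).2.2.2.1
      AR := AR
      AS := AS
      BP := BP
      BQ := BQ
      BS := BS
      PQ := fun t u => (cm t u).2.2.2.2
      PR := PR
      PS := PS
      QR := QR
      QS := QS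
      RS := RS
      uniq := by
        have hc : ∀ (β : cD4.Root) (s t : k), yg hN β s * yg hN β t = yg hN β t * yg hN β s := by
          intro β s t
          rw [← yg_add, ← yg_add, add_comm]
        refine ZJ3_uniq (ZJ3_inj zQ02) (ZJ3_inj zS) ?_ (yg_zero hN _) (yg_zero hN _)
          (yg_zero hN _) (yg_zero hN _) (yg_zero hN _) (fun t u => (cm t u).2.1)
          (fun t u => (cm t u).2.2.1) AR (fun t u => (cm t u).2.2.2.1) AS BQ BS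
          (fun t u => (cm t u).2.2.2.2) PR PS QR QS RS (hc _) (hc _)
        intro t u e
        by_contra ht
        rw [mul_eq_one_iff_eq_inv, ← yg_neg] at e
        have := (yg_inj hN _ _ _ _ ht e).1
        exact absurd (((fix_cycle _ _ this).2 (by decide))) (by decide)
      σA := fun t => by
        have := (sig_yg swap_D4 h 0 t).1
        rw [th, if_neg h0] at this
        exact this
      σB := fun t => by
        have := (sig_yg swap_D4 h 1 t).1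
        rw [th, if_pos h1] at this
        exact this
      σP := ZJ3_pair h zP0 zP2 zP3 zR (by decide) (by decide) (by decide) (by decide)
        (by decide) (by decide)
      σQ := ZJ3_pair h zQ02 zQ23 zQ03 zS (by decide) (by decide) (by decide) (by decide)
        (by decide) (by decide) }
  refine ⟨hG, ?_⟩
  let F : k → k → k → k → k → k → GF dD4 k := fun t u v w z y => yg hN (cD4.simple 0) t *
    yg hN (cD4.simple 1) u * yg hN zP0 v * yg hN zQ02 w * yg hN zR z * yg hN zS y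
  have hmul : ∀ x x' : GF dD4 k, (∃ t u v w z y, x = F t u v w z y) →
      (∃ t u v w z y, x' = F t u v w z y) → ∃ t u v w z y, x * x' = F t u v w z y := by
    rintro x x' ⟨t, u, v, w, z, y, rfl⟩ ⟨t', u', v', w', z', y', rfl⟩
    obtain ⟨z'', y'', e⟩ := G2_mul_form hG t u v w z y t' u' v' w' z' y'
    exact ⟨_, _, _, _, z'', y'', e⟩
  have hz : ∀ β : cD4.Root, yg hN β (0 : k) = 1 := fun β => yg_zero hN β
  have g0 : ∀ s, ∃ t u v w z y, yg hN (cD4.simple 0) s = F t u v w z y := fun s =>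
    ⟨s, 0, 0, 0, 0, 0, by simp only [F, hz, mul_one]⟩
  have g1 : ∀ s, ∃ t u v w z y, yg hN (cD4.simple 1) s = F t u v w z y := fun s =>
    ⟨0, s, 0, 0, 0, 0, by simp only [F, hz, mul_one, one_mul]⟩
  have g2 : ∀ s, ∃ t u v w z y, yg hN zP0 s = F t u v w z y := fun s =>
    ⟨0, 0, s, 0, 0, 0, by simp only [F, hz, mul_one, one_mul]⟩
  have g3 : ∀ s, ∃ t u v w z y, yg hN zQ02 s = F t u v w z y := fun s =>
    ⟨0, 0, 0, s, 0, 0, by simp only [F, hz, mul_one, one_mul]⟩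
  have g4 : ∀ s, ∃ t u v w z y, yg hN zR s = F t u v w z y := fun s =>
    ⟨0, 0, 0, 0, s, 0, by simp only [F, hz, mul_one, one_mul]⟩
  have g5 : ∀ s, ∃ t u v w z y, yg hN zS s = F t u v w z y := fun s =>
    ⟨0, 0, 0, 0, 0, s, by simp only [F, hz, mul_one, one_mul]⟩
  intro x
  constructor
  · intro hx
    rw [FU_eq hN] at hx
    change ∃ t u v w z y, x = F t u v w z y
    induction hx using Subgroup.closure_induction with
    | mem x hx =>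
      obtain ⟨β, hβ, t, rfl⟩ := hx
      rcases ZJ3_pos_yg t β hβ with ⟨s, e⟩ | ⟨s, e⟩ | ⟨s, e⟩ | ⟨s, e⟩ | ⟨s, e⟩ | ⟨s, e⟩ <;> rw [e]
      · exact g0 s
      · exact g1 s
      · exact g2 s
      · exact g3 s
      · exact g4 s
      · exact g5 s
    | one => exact ⟨0, 0, 0, 0, 0, 0, by simp only [F, hz, mul_one]⟩
    | mul x y _ _ hx hy => exact hmul x y hx hy
    | inv x _ hx =>
      obtain ⟨t, u, v, w, z, y, rfl⟩ := hx
      have hinv : (F t u v w z y)⁻¹ = yg hN zS (-y) * (yg hN zR (-z) * (yg hN zQ02 (-w) *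
          (yg hN zP0 (-v) * (yg hN (cD4.simple 1) (-u) * yg hN (cD4.simple 0) (-t))))) := by
        simp only [F, _root_.mul_inv_rev, yg_neg]
      rw [hinv]
      have b1 := hmul _ _ (g1 (-u)) (g0 (-t))
      have b2 := hmul _ _ (g2 (-v)) b1
      have b3 := hmul _ _ (g3 (-w)) b2
      have b4 := hmul _ _ (g4 (-z)) b3
      exact hmul _ _ (g5 (-y)) b4
  · rintro ⟨t, u, v, w, z, y, rfl⟩
    exact mul_mem (mul_mem (mul_mem (mul_mem (mul_mem (yg_pos hN _ (by decide) _)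
      (yg_pos hN _ (by decide) _)) (yg_pos hN _ (by decide) _)) (yg_pos hN _ (by decide) _))
      (yg_pos hN _ (by decide) _)) (yg_pos hN _ (by decide) _)

/-- an element of the opposite root group -/
theorem G2_opp {θ : k ≃+* k} {σ : GF dD4 k →* GF dD4 k} (h : SRs dD4 tD4 θ σ)
    (βP βQ βR βS : cD4.Root) (hr : G2r βP βQ βR βS) : ∃ e : k, (e = 1 ∨ e = -1) ∧
    ∀ v : k, yg swap_D4.na (-βQ) v * yg swap_D4.na (-βS) (e * θ v) ∈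
      XmJ swap_D4.na tD4 σ 0 := by
  obtain ⟨rfl, rfl, rfl, rfl⟩ := ZJ3_sub hr
  obtain ⟨τ, e, ht⟩ := exists_tau swap_D4 h
  have hb : dD4.r (-zQ02) ≠ -zQ02 := by decide
  have t2 : τ zQ02 = zS := ZJ3_tau ht zQ02 zQ23 zQ03 zS (by decide) (by decide) (by decide)
    (by decide)
  have t3 := tau_neg swap_D4 ht.tau zQ02
  rw [t2] at t3
  have t4 : τ (-zQ02) = -zS := t3.eq_of_right (by
    change dD4.r (-zS) = -zS
    decide)
  have m1 : ∀ v, σ (yg swap_D4.na (-zQ02) v) = yg swap_D4.na (-zS) ((e (-zQ02) : k) * θ v) := by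
    intro v
    rw [ht.map (-zQ02) v, t4, th, if_neg hb]
  refine ⟨(e (-zQ02) : k), ?_, ?_⟩
  · rcases ht.e_eq (-zQ02) with h | h <;> rw [h] <;> simp
  · intro v
    rw [← m1]
    have hs := sig_sig swap_D4 h (yg swap_D4.na (-zQ02) v)
    have hcomm : yg swap_D4.na (-zQ02) v * σ (yg swap_D4.na (-zQ02) v) =
        σ (yg swap_D4.na (-zQ02) v) * yg swap_D4.na (-zQ02) v := by
      rw [m1]
      generalize (e (-zQ02) : k) * θ v = u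
      apply Subtype.ext
      have eS : ((yg swap_D4.na (-zS) u : GF dD4 k) : GL cD4.Idx k) = cD4.xg k (-zS) u :=
        yg_long swap_D4.na _ (by decide) u
      rw [Subgroup.coe_mul, Subgroup.coe_mul, eS, ZJ3_yb3 (-zQ02) (-zQ23) (-zQ03) (by decide)
        (by decide) (by decide) (-1) (-1) (by decide) (by decide)]
      have c1 := fun s => cD4.xg_comm k (-zQ02) (-zS) s u (by decide)
      have c2 := fun s => cD4.xg_comm k (-zQ23) (-zS) s u (by decide)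
      have c3 := fun s => cD4.xg_comm k (-zQ03) (-zS) s u (by decide)
      simp only [mul_assoc]
      rw [c3, ZJ3_rl (c2 _), ZJ3_rl (c1 _)]
    refine ⟨?_, ?_⟩
    · apply mul_mem
      · refine Subgroup.subset_closure ⟨-zQ02, ?_, v, rfl⟩
        change -(-zQ02) ∈ RJ dD4 tD4 0
        rw [RJ_D4]
        change cD4.Pos _
        decide
      · rw [m1]
        refine Subgroup.subset_closure ⟨-zS, ?_, _, rfl⟩
        change -(-zS) ∈ RJ dD4 tD4 0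
        rw [RJ_D4]
        change cD4.Pos _
        decide
    · change σ _ = _
      rw [map_mul, hs, hcomm]
      rfl

end

end Pool.Agent.H86.UM
end

section
/- module Pool.Agent.H86.UM.ZCD -/
/-!
# Project UM, Suzuki-Ree groups, module ZCD: nonvanishing for `D₄`, characteristic `3`

`G2_roots`, `G2_comms` (relations, no `σ` here). Every element of `FU` is a product of the `yg` of the six classes of positive
roots (`FU_eq`, `G2r.mem`, `yg_cycle`). `A2` := the subgroup generated by the `yg βP, yg βQ, yg βR, yg βS`: abelian, normal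
in `FU`; `A3` := generated by `yg βQ, yg βS`: central in `FU` in characteristic `3`. Commutators: `[FU, FU] ≤ A2`,
`[FU, A2] ≤ A3`. The pairs not in `G2_comms` commute because no sums are roots (`xg_comm`).
For `g ∈ FU`: `g = yg α₀ t * yg α₁ u * a`, `a ∈ A2`, `ξ_0 g = t` (also `= ξ_2 g = ξ_3 g`), `ξ_1 g = u`.
`icomm g₀ [g₁, g₂] = [g₂, [g₁, g₀]]`.
(1) If `ξ_0 = 0` on all three: they are in the group generated by `yg α₁ u` and `A2`, whose commutators are in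
`⟨yg βS⟩ ≤ A3`, central: `icomm = 1`. If `ξ_1 = 0` on all three: the group generated by `yg α₀ t`, `A2`: commutators
in `A3`. (2) If `g₂ ∈ A2`: `[g₂, [g₁, g₀]] = 1` as `A2` is abelian; if `g₀` or `g₁` is in `A2`: `[g₁, g₀] ∈ A3` is
central.
-/

set_option autoImplicit false
open Matrix

namespace Pool.Agent.H86.UM

open Pool.Agent.H75.UL

section abs

variable {G : Type*} [Group G]

private theorem ZCD_comm_gen {S1 S2 : Set G} {L : Subgroup G}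
    (n1 : ∀ x ∈ Subgroup.closure S1, ∀ l ∈ L, x * l * x⁻¹ ∈ L)
    (n2 : ∀ x ∈ Subgroup.closure S2, ∀ l ∈ L, x * l * x⁻¹ ∈ L)
    (h : ∀ a ∈ S1, ∀ b ∈ S2, a * b * a⁻¹ * b⁻¹ ∈ L) :
    ∀ x ∈ Subgroup.closure S1, ∀ y ∈ Subgroup.closure S2, x * y * x⁻¹ * y⁻¹ ∈ L := by
  have h1 : ∀ x ∈ Subgroup.closure S1, ∀ b ∈ S2, x * b * x⁻¹ * b⁻¹ ∈ L := by
    intro x hx b hb
    induction hx using Subgroup.closure_induction with
    | mem x hx => exact h x hx b hb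
    | one => simp
    | mul x y hx hy ihx ihy =>
      have e : x * y * b * (x * y)⁻¹ * b⁻¹ = x * (y * b * y⁻¹ * b⁻¹) * x⁻¹ * (x * b * x⁻¹ * b⁻¹) := by
        group
      rw [e]
      exact L.mul_mem (n1 x hx _ ihy) ihx
    | inv x hx ih =>
      have e : x⁻¹ * b * x⁻¹⁻¹ * b⁻¹ = x⁻¹ * (x * b * x⁻¹ * b⁻¹)⁻¹ * x⁻¹⁻¹ := by group
      rw [e]
      exact n1 _ (Subgroup.inv_mem _ hx) _ (L.inv_mem ih)
  intro x hx y hy
  induction hy using Subgroup.closure_induction with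
  | mem y hy => exact h1 x hx y hy
  | one => simp
  | mul y z hy hz ihy ihz =>
    have e : x * (y * z) * x⁻¹ * (y * z)⁻¹ = (x * y * x⁻¹ * y⁻¹) * (y * (x * z * x⁻¹ * z⁻¹) * y⁻¹) := by
      group
    rw [e]
    exact L.mul_mem ihy (n2 y hy _ ihz)
  | inv y hy ih =>
    have e : x * y⁻¹ * x⁻¹ * y⁻¹⁻¹ = y⁻¹ * (x * y * x⁻¹ * y⁻¹)⁻¹ * y⁻¹⁻¹ := by group
    rw [e]
    exact n2 _ (Subgroup.inv_mem _ hy) _ (L.inv_mem ih)

private theorem ZCD_norm_gen {S T : Set G} (hS : ∀ s ∈ S, s⁻¹ ∈ S)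
    (h : ∀ s ∈ S, ∀ t ∈ T, s * t * s⁻¹ ∈ Subgroup.closure T) :
    ∀ x ∈ Subgroup.closure S, ∀ l ∈ Subgroup.closure T, x * l * x⁻¹ ∈ Subgroup.closure T := by
  have h0 : ∀ s ∈ S, ∀ l ∈ Subgroup.closure T, s * l * s⁻¹ ∈ Subgroup.closure T := by
    intro s hs l hl
    induction hl using Subgroup.closure_induction with
    | mem t ht => exact h s hs t ht
    | one => simp
    | mul y z hy hz ihy ihz =>
      have e : s * (y * z) * s⁻¹ = (s * y * s⁻¹) * (s * z * s⁻¹) := by group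
      rw [e]
      exact Subgroup.mul_mem _ ihy ihz
    | inv y hy ih =>
      have e : s * y⁻¹ * s⁻¹ = (s * y * s⁻¹)⁻¹ := by group
      rw [e]
      exact Subgroup.inv_mem _ ih
  intro x hx
  induction hx using Subgroup.closure_induction'' with
  | mem x hx => exact h0 x hx
  | inv_mem x hx => exact h0 _ (hS x hx)
  | one => intro l hl; simpa using hl
  | mul x y hx hy ihx ihy =>
    intro l hl
    have e : x * y * l * (x * y)⁻¹ = x * (y * l * y⁻¹) * x⁻¹ := by group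
    rw [e]
    exact ihx _ (ihy _ hl)

private theorem ZCD_cent {S : Set G} {z : G} (h : ∀ s ∈ S, s * z = z * s) :
    ∀ x ∈ Subgroup.closure S, x * z = z * x := by
  intro x hx
  have : Subgroup.closure S ≤ Subgroup.centralizer {z} := by
    rw [Subgroup.closure_le]
    intro s hs
    rw [SetLike.mem_coe, Subgroup.mem_centralizer_singleton_iff]
    exact h s hs
  have := this hx
  rw [Subgroup.mem_centralizer_singleton_iff] at this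
  exact this

private theorem ZCD_cent2 {S T : Set G} (h : ∀ s ∈ S, ∀ t ∈ T, s * t = t * s) :
    ∀ x ∈ Subgroup.closure S, ∀ y ∈ Subgroup.closure T, x * y = y * x := by
  intro x hx y hy
  refine (ZCD_cent (S := T) (z := x) ?_ y hy).symm
  intro t ht
  exact (ZCD_cent (S := S) (z := t) (fun s hs => h s hs t ht) x hx).symm

variable {k : Type*} [Field k] (A B P Q R S : k → G)

/-- relations used -/
private structure ZCDr : Prop where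
  nA : ∀ t, (A t)⁻¹ = A (-t)
  nB : ∀ t, (B t)⁻¹ = B (-t)
  nP : ∀ t, (P t)⁻¹ = P (-t)
  nQ : ∀ t, (Q t)⁻¹ = Q (-t)
  nR : ∀ t, (R t)⁻¹ = R (-t)
  nS : ∀ t, (S t)⁻¹ = S (-t)
  aA : ∀ s t, A (s + t) = A s * A t
  aB : ∀ s t, B (s + t) = B s * B t
  AB : ∀ t u, A t * B u * (A t)⁻¹ * (B u)⁻¹ ∈
    Subgroup.closure (Set.range P ∪ Set.range Q ∪ Set.range R ∪ Set.range S)
  AP : ∀ t v, A t * P v * (A t)⁻¹ * (P v)⁻¹ ∈ Subgroup.closure (Set.range Q ∪ Set.range S)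
  BR : ∀ u z, B u * R z * (B u)⁻¹ * (R z)⁻¹ ∈ Subgroup.closure (Set.range Q ∪ Set.range S)
  AQ : ∀ t w, A t * Q w = Q w * A t
  AR : ∀ t z, A t * R z = R z * A t
  AS : ∀ t y, A t * S y = S y * A t
  AA : ∀ t y, A t * A y = A y * A t
  BB : ∀ t y, B t * B y = B y * B t
  PP : ∀ t y, P t * P y = P y * P t
  QQ : ∀ t y, Q t * Q y = Q y * Q t
  RR : ∀ t y, R t * R y = R y * R t
  SS : ∀ t y, S t * S y = S y * S t
  BP : ∀ u v, B u * P v = P v * B u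
  BQ : ∀ u w, B u * Q w = Q w * B u
  BS : ∀ u y, B u * S y = S y * B u
  PQ : ∀ v w, P v * Q w = Q w * P v
  PR : ∀ v z, P v * R z = R z * P v
  PS : ∀ v y, P v * S y = S y * P v
  QR : ∀ w z, Q w * R z = R z * Q w
  QS : ∀ w y, Q w * S y = S y * Q w
  RS : ∀ z y, R z * S y = S y * R z

/-- `A2` -/
private def ZCDA2 : Set G := Set.range P ∪ Set.range Q ∪ Set.range R ∪ Set.range S
/-- `A3` -/
private def ZCDA3 : Set G := Set.range Q ∪ Set.range S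
/-- all -/
private def ZCDF : Set G := Set.range A ∪ Set.range B ∪ ZCDA2 P Q R S

variable {A B P Q R S}

private theorem ZCD_A3_le_A2 : ZCDA3 Q S ⊆ ZCDA2 P Q R S := by
  rintro x (hx | hx)
  · exact Or.inl (Or.inl (Or.inr hx))
  · exact Or.inr hx

private theorem ZCD_A2_le_F : ZCDA2 P Q R S ⊆ ZCDF A B P Q R S := fun _ hx => Or.inr hx

variable (h : ZCDr A B P Q R S)
include h

private theorem ZCD_F_inv : ∀ s ∈ ZCDF A B P Q R S, s⁻¹ ∈ ZCDF A B P Q R S := by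
  rintro s ((⟨t, rfl⟩ | ⟨t, rfl⟩) | (((⟨t, rfl⟩ | ⟨t, rfl⟩) | ⟨t, rfl⟩) | ⟨t, rfl⟩))
  · rw [h.nA]; exact Or.inl (Or.inl ⟨_, rfl⟩)
  · rw [h.nB]; exact Or.inl (Or.inr ⟨_, rfl⟩)
  · rw [h.nP]; exact Or.inr (Or.inl (Or.inl (Or.inl ⟨_, rfl⟩)))
  · rw [h.nQ]; exact Or.inr (Or.inl (Or.inl (Or.inr ⟨_, rfl⟩)))
  · rw [h.nR]; exact Or.inr (Or.inl (Or.inr ⟨_, rfl⟩))
  · rw [h.nS]; exact Or.inr (Or.inr ⟨_, rfl⟩)

/-- `A3` is central -/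
private theorem ZCD_central : ∀ x ∈ Subgroup.closure (ZCDF A B P Q R S),
    ∀ y ∈ Subgroup.closure (ZCDA3 Q S), x * y = y * x := by
  refine ZCD_cent2 ?_
  rintro s ((⟨t, rfl⟩ | ⟨t, rfl⟩) | (((⟨t, rfl⟩ | ⟨t, rfl⟩) | ⟨t, rfl⟩) | ⟨t, rfl⟩)) y
    (⟨u, rfl⟩ | ⟨u, rfl⟩)
  · exact h.AQ t u
  · exact h.AS t u
  · exact h.BQ t u
  · exact h.BS t u
  · exact h.PQ t u
  · exact h.PS t u
  · exact h.QQ t u
  · exact h.QS t u
  · exact (h.QR u t).symm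
  · exact h.RS t u
  · exact (h.QS u t).symm
  · exact h.SS t u

/-- `A2` is abelian -/
private theorem ZCD_abelian : ∀ x ∈ Subgroup.closure (ZCDA2 P Q R S),
    ∀ y ∈ Subgroup.closure (ZCDA2 P Q R S), x * y = y * x := by
  refine ZCD_cent2 ?_
  rintro s (((⟨t, rfl⟩ | ⟨t, rfl⟩) | ⟨t, rfl⟩) | ⟨t, rfl⟩) y
    (((⟨u, rfl⟩ | ⟨u, rfl⟩) | ⟨u, rfl⟩) | ⟨u, rfl⟩)
  · exact h.PP t u
  · exact h.PQ t u
  · exact h.PR t u
  · exact h.PS t u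
  · exact (h.PQ u t).symm
  · exact h.QQ t u
  · exact h.QR t u
  · exact h.QS t u
  · exact (h.PR u t).symm
  · exact (h.QR u t).symm
  · exact h.RR t u
  · exact h.RS t u
  · exact (h.PS u t).symm
  · exact (h.QS u t).symm
  · exact (h.RS u t).symm
  · exact h.SS t u

private theorem ZCD_n3 : ∀ x ∈ Subgroup.closure (ZCDF A B P Q R S),
    ∀ y ∈ Subgroup.closure (ZCDA3 Q S), x * y * x⁻¹ ∈ Subgroup.closure (ZCDA3 Q S) := by
  intro x hx y hy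
  rw [ZCD_central h x hx y hy, mul_inv_cancel_right]
  exact hy

omit h in
private theorem ZCD_comm_one {a b : G} (e : a * b = b * a) (L : Subgroup G) :
    a * b * a⁻¹ * b⁻¹ ∈ L := by
  rw [e, mul_inv_cancel_right, mul_inv_cancel]
  exact L.one_mem

omit h in
private theorem ZCD_comm_swap {a b : G} {L : Subgroup G} (e : a * b * a⁻¹ * b⁻¹ ∈ L) :
    b * a * b⁻¹ * a⁻¹ ∈ L := by
  have := L.inv_mem e
  have e2 : (a * b * a⁻¹ * b⁻¹)⁻¹ = b * a * b⁻¹ * a⁻¹ := by group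
  rwa [e2] at this

/-- `[F, A2] ≤ A3` -/
private theorem ZCD_FA2 : ∀ x ∈ Subgroup.closure (ZCDF A B P Q R S),
    ∀ y ∈ Subgroup.closure (ZCDA2 P Q R S), x * y * x⁻¹ * y⁻¹ ∈ Subgroup.closure (ZCDA3 Q S) := by
  refine ZCD_comm_gen (ZCD_n3 h)
    (fun x hx => ZCD_n3 h x (Subgroup.closure_mono ZCD_A2_le_F hx)) ?_
  rintro s ((⟨t, rfl⟩ | ⟨t, rfl⟩) | hs) y hy
  · rcases hy with (((⟨u, rfl⟩ | ⟨u, rfl⟩) | ⟨u, rfl⟩) | ⟨u, rfl⟩)
    · exact h.AP t u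
    · exact ZCD_comm_one (h.AQ t u) _
    · exact ZCD_comm_one (h.AR t u) _
    · exact ZCD_comm_one (h.AS t u) _
  · rcases hy with (((⟨u, rfl⟩ | ⟨u, rfl⟩) | ⟨u, rfl⟩) | ⟨u, rfl⟩)
    · exact ZCD_comm_one (h.BP t u) _
    · exact ZCD_comm_one (h.BQ t u) _
    · exact h.BR t u
    · exact ZCD_comm_one (h.BS t u) _
  · exact ZCD_comm_one (ZCD_abelian h s (Subgroup.subset_closure hs) y
      (Subgroup.subset_closure hy)) _

private theorem ZCD_n2 : ∀ x ∈ Subgroup.closure (ZCDF A B P Q R S),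
    ∀ y ∈ Subgroup.closure (ZCDA2 P Q R S), x * y * x⁻¹ ∈ Subgroup.closure (ZCDA2 P Q R S) := by
  intro x hx y hy
  have h1 : x * y * x⁻¹ * y⁻¹ ∈ Subgroup.closure (ZCDA2 P Q R S) :=
    Subgroup.closure_mono ZCD_A3_le_A2 (ZCD_FA2 h x hx y hy)
  have e : x * y * x⁻¹ = x * y * x⁻¹ * y⁻¹ * y := by group
  rw [e]
  exact Subgroup.mul_mem _ h1 hy

/-- `[F, F] ≤ A2` -/
private theorem ZCD_FF : ∀ x ∈ Subgroup.closure (ZCDF A B P Q R S),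
    ∀ y ∈ Subgroup.closure (ZCDF A B P Q R S),
      x * y * x⁻¹ * y⁻¹ ∈ Subgroup.closure (ZCDA2 P Q R S) := by
  refine ZCD_comm_gen (ZCD_n2 h) (ZCD_n2 h) ?_
  have h2 : ∀ s ∈ ZCDF A B P Q R S, ∀ y ∈ ZCDA2 P Q R S,
      s * y * s⁻¹ * y⁻¹ ∈ Subgroup.closure (ZCDA2 P Q R S) := fun s hs y hy =>
    Subgroup.closure_mono ZCD_A3_le_A2 (ZCD_FA2 h s (Subgroup.subset_closure hs) y
      (Subgroup.subset_closure hy))
  intro s hs y hy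
  rcases hy with (⟨u, rfl⟩ | ⟨u, rfl⟩) | hy
  · rcases hs with (⟨t, rfl⟩ | ⟨t, rfl⟩) | hs
    · exact ZCD_comm_one (h.AA t u) _
    · exact ZCD_comm_swap (h.AB u t)
    · exact ZCD_comm_swap (h2 _ (Or.inl (Or.inl ⟨u, rfl⟩)) s hs)
  · rcases hs with (⟨t, rfl⟩ | ⟨t, rfl⟩) | hs
    · exact h.AB t u
    · exact ZCD_comm_one (h.BB t u) _
    · exact ZCD_comm_swap (h2 _ (Or.inl (Or.inr ⟨u, rfl⟩)) s hs)
  · exact h2 s hs y hy

/-- the group generated by `B` and `A2` is abelian modulo `A3` -/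
private theorem ZCD_BB : ∀ x ∈ Subgroup.closure (Set.range B ∪ ZCDA2 P Q R S),
    ∀ y ∈ Subgroup.closure (Set.range B ∪ ZCDA2 P Q R S),
      x * y * x⁻¹ * y⁻¹ ∈ Subgroup.closure (ZCDA3 Q S) := by
  have hle : (Set.range B ∪ ZCDA2 P Q R S) ⊆ ZCDF A B P Q R S := by
    rintro x (hx | hx)
    · exact Or.inl (Or.inr hx)
    · exact Or.inr hx
  refine ZCD_comm_gen (fun x hx => ZCD_n3 h x (Subgroup.closure_mono hle hx))
    (fun x hx => ZCD_n3 h x (Subgroup.closure_mono hle hx)) ?_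
  intro s hs y hy
  rcases hy with ⟨u, rfl⟩ | hy
  · rcases hs with ⟨t, rfl⟩ | hs
    · exact ZCD_comm_one (h.BB t u) _
    · exact ZCD_comm_swap (ZCD_FA2 h _ (Subgroup.subset_closure (Or.inl (Or.inr ⟨u, rfl⟩))) s
        (Subgroup.subset_closure hs))
  · exact ZCD_FA2 h _ (Subgroup.subset_closure (hle hs)) y (Subgroup.subset_closure hy)

/-- the group generated by `A` and `A2` is abelian modulo `A3` -/
private theorem ZCD_AA : ∀ x ∈ Subgroup.closure (Set.range A ∪ ZCDA2 P Q R S),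
    ∀ y ∈ Subgroup.closure (Set.range A ∪ ZCDA2 P Q R S),
      x * y * x⁻¹ * y⁻¹ ∈ Subgroup.closure (ZCDA3 Q S) := by
  have hle : (Set.range A ∪ ZCDA2 P Q R S) ⊆ ZCDF A B P Q R S := by
    rintro x (hx | hx)
    · exact Or.inl (Or.inl hx)
    · exact Or.inr hx
  refine ZCD_comm_gen (fun x hx => ZCD_n3 h x (Subgroup.closure_mono hle hx))
    (fun x hx => ZCD_n3 h x (Subgroup.closure_mono hle hx)) ?_
  intro s hs y hy
  rcases hy with ⟨u, rfl⟩ | hy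
  · rcases hs with ⟨t, rfl⟩ | hs
    · exact ZCD_comm_one (h.AA t u) _
    · exact ZCD_comm_swap (ZCD_FA2 h _ (Subgroup.subset_closure (Or.inl (Or.inl ⟨u, rfl⟩))) s
        (Subgroup.subset_closure hs))
  · exact ZCD_FA2 h _ (Subgroup.subset_closure (hle hs)) y (Subgroup.subset_closure hy)

/-- the normal form modulo `A2` -/
private theorem ZCD_form (hA0 : A 0 = 1) (hB0 : B 0 = 1) :
    ∀ x ∈ Subgroup.closure (ZCDF A B P Q R S),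
      ∃ t u, ∃ a ∈ Subgroup.closure (ZCDA2 P Q R S), x = A t * B u * a := by
  have hFA : ∀ t, A t ∈ Subgroup.closure (ZCDF A B P Q R S) := fun t =>
    Subgroup.subset_closure (Or.inl (Or.inl ⟨t, rfl⟩))
  have hFB : ∀ t, B t ∈ Subgroup.closure (ZCDF A B P Q R S) := fun t =>
    Subgroup.subset_closure (Or.inl (Or.inr ⟨t, rfl⟩))
  have hF2 : ∀ a ∈ Subgroup.closure (ZCDA2 P Q R S), a ∈ Subgroup.closure (ZCDF A B P Q R S) :=
    fun a ha => Subgroup.closure_mono ZCD_A2_le_F ha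
  have hmul : ∀ t u a t' u' a', a ∈ Subgroup.closure (ZCDA2 P Q R S) →
      a' ∈ Subgroup.closure (ZCDA2 P Q R S) → ∃ a'' ∈ Subgroup.closure (ZCDA2 P Q R S),
        (A t * B u * a) * (A t' * B u' * a') = A (t + t') * B (u + u') * a'' := by
    intro t u a t' u' a' ha ha'
    have hAB : A t' * B u' ∈ Subgroup.closure (ZCDF A B P Q R S) :=
      Subgroup.mul_mem _ (hFA _) (hFB _)
    refine ⟨(B (u'))⁻¹ * ((B u) ⁻¹ * ((A t')⁻¹ * B u * (A t')⁻¹⁻¹ * (B u)⁻¹) * (B u)⁻¹⁻¹) *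
      (B u')⁻¹⁻¹ * ((A t' * B u')⁻¹ * a * (A t' * B u')⁻¹⁻¹) * a', ?_, ?_⟩
    · refine Subgroup.mul_mem _ (Subgroup.mul_mem _ ?_ ?_) ha'
      · refine ZCD_n2 h _ (Subgroup.inv_mem _ (hFB _)) _ ?_
        refine ZCD_n2 h _ (Subgroup.inv_mem _ (hFB _)) _ ?_
        exact ZCD_FF h _ (Subgroup.inv_mem _ (hFA _)) _ (hFB _)
      · exact ZCD_n2 h _ (Subgroup.inv_mem _ hAB) _ ha
    · rw [h.aA, h.aB]
      group
  intro x hx
  induction hx using Subgroup.closure_induction with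
  | mem x hx =>
    rcases hx with (⟨t, rfl⟩ | ⟨u, rfl⟩) | hx
    · exact ⟨t, 0, 1, Subgroup.one_mem _, by rw [hB0]; group⟩
    · exact ⟨0, u, 1, Subgroup.one_mem _, by rw [hA0]; group⟩
    · exact ⟨0, 0, x, Subgroup.subset_closure hx, by rw [hA0, hB0]; group⟩
  | one => exact ⟨0, 0, 1, Subgroup.one_mem _, by rw [hA0, hB0]; group⟩
  | mul x y hx hy ihx ihy =>
    obtain ⟨t, u, a, ha, rfl⟩ := ihx
    obtain ⟨t', u', a', ha', rfl⟩ := ihy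
    obtain ⟨a'', ha'', e⟩ := hmul t u a t' u' a' ha ha'
    exact ⟨_, _, a'', ha'', e⟩
  | inv x hx ih =>
    obtain ⟨t, u, a, ha, rfl⟩ := ih
    obtain ⟨a'', ha'', e⟩ := hmul t u a (-t) (-u) 1 ha (Subgroup.one_mem _)
    rw [add_neg_cancel, add_neg_cancel, hA0, hB0, one_mul, one_mul, mul_one] at e
    refine ⟨-t, -u, a''⁻¹, Subgroup.inv_mem _ ha'', ?_⟩
    rw [← e]
    group

/-- the abstract statement -/
private theorem ZCD_main (hA0 : A 0 = 1) (hB0 : B 0 = 1) (x0 x1 : G → k)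
    (hx0 : ∀ t u, ∀ a ∈ Subgroup.closure (ZCDA2 P Q R S), x0 (A t * B u * a) = t)
    (hx1 : ∀ t u, ∀ a ∈ Subgroup.closure (ZCDA2 P Q R S), x1 (A t * B u * a) = u)
    (g0 g1 g2 : G) (h0 : g0 ∈ Subgroup.closure (ZCDF A B P Q R S))
    (h1 : g1 ∈ Subgroup.closure (ZCDF A B P Q R S)) (h2 : g2 ∈ Subgroup.closure (ZCDF A B P Q R S))
    (hne : g2 * (g1 * g0 * g1⁻¹ * g0⁻¹) * g2⁻¹ * (g1 * g0 * g1⁻¹ * g0⁻¹)⁻¹ ≠ 1) :
    ¬ (x0 g0 = 0 ∧ x0 g1 = 0 ∧ x0 g2 = 0) ∧ ¬ (x1 g0 = 0 ∧ x1 g1 = 0 ∧ x1 g2 = 0) ∧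
      ¬ (x0 g0 = 0 ∧ x1 g0 = 0) ∧ ¬ (x0 g1 = 0 ∧ x1 g1 = 0) ∧ ¬ (x0 g2 = 0 ∧ x1 g2 = 0) := by
  have hc : ∀ c ∈ Subgroup.closure (ZCDA3 Q S), g1 * g0 * g1⁻¹ * g0⁻¹ = c → False := by
    intro c hc e
    apply hne
    rw [e, ZCD_central h g2 h2 c hc]
    group
  have k0 : ∀ g ∈ Subgroup.closure (ZCDF A B P Q R S), x0 g = 0 →
      g ∈ Subgroup.closure (Set.range B ∪ ZCDA2 P Q R S) := by
    intro g hg hx
    obtain ⟨t, u, a, ha, rfl⟩ := ZCD_form h hA0 hB0 g hg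
    rw [hx0 t u a ha] at hx
    rw [hx, hA0, one_mul]
    exact Subgroup.mul_mem _ (Subgroup.subset_closure (Or.inl ⟨u, rfl⟩))
      (Subgroup.closure_mono Set.subset_union_right ha)
  have k1 : ∀ g ∈ Subgroup.closure (ZCDF A B P Q R S), x1 g = 0 →
      g ∈ Subgroup.closure (Set.range A ∪ ZCDA2 P Q R S) := by
    intro g hg hx
    obtain ⟨t, u, a, ha, rfl⟩ := ZCD_form h hA0 hB0 g hg
    rw [hx1 t u a ha] at hx
    rw [hx, hB0, mul_one]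
    exact Subgroup.mul_mem _ (Subgroup.subset_closure (Or.inl ⟨t, rfl⟩))
      (Subgroup.closure_mono Set.subset_union_right ha)
  have k2 : ∀ g ∈ Subgroup.closure (ZCDF A B P Q R S), x0 g = 0 → x1 g = 0 →
      g ∈ Subgroup.closure (ZCDA2 P Q R S) := by
    intro g hg hx hx'
    obtain ⟨t, u, a, ha, rfl⟩ := ZCD_form h hA0 hB0 g hg
    rw [hx0 t u a ha] at hx
    rw [hx1 t u a ha] at hx'
    rw [hx, hx', hA0, hB0, one_mul, one_mul]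
    exact ha
  refine ⟨?_, ?_, ?_, ?_, ?_⟩
  · rintro ⟨e0, e1, e2⟩
    exact hc _ (ZCD_BB h g1 (k0 _ h1 e1) g0 (k0 _ h0 e0)) rfl
  · rintro ⟨e0, e1, e2⟩
    exact hc _ (ZCD_AA h g1 (k1 _ h1 e1) g0 (k1 _ h0 e0)) rfl
  · rintro ⟨e0, e1⟩
    exact hc _ (ZCD_FA2 h g1 h1 g0 (k2 _ h0 e0 e1)) rfl
  · rintro ⟨e0, e1⟩
    exact hc _ (ZCD_comm_swap (ZCD_FA2 h g0 h0 g1 (k2 _ h1 e0 e1))) rfl
  · rintro ⟨e0, e1⟩
    apply hne
    have m1 := ZCD_FF h g1 h1 g0 h0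
    rw [ZCD_abelian h g2 (k2 _ h2 e0 e1) _ m1]
    group

end abs

private theorem ZCD_ip (β γ : cD4.Root) (v w : Fin 4 → ℤ) (hv : β.1 = v) (hw : γ.1 = w)
    (key : ∀ a b : Fin 3, 0 ≤ cD4.ip (SLC.lmap (dD4.ρ ^ (a : ℕ)) v) (SLC.lmap (dD4.ρ ^ (b : ℕ)) w)) :
    ∀ l l' : ℕ, 0 ≤ cD4.ip (dD4.r^[l] β).1 (dD4.r^[l'] γ).1 := by
  intro l l'
  rw [dD4.r_iter, dD4.r_iter, hv, hw]
  have h3 : ∀ l : ℕ, dD4.ρ ^ l = dD4.ρ ^ (l % 3) := by
    intro l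
    have h4 : dD4.ρ ^ 3 = 1 := by decide
    conv_lhs => rw [← Nat.div_add_mod l 3, pow_add, pow_mul, h4, one_pow, one_mul]
  rw [h3 l, h3 l']
  exact key ⟨l % 3, Nat.mod_lt _ (by norm_num)⟩ ⟨l' % 3, Nat.mod_lt _ (by norm_num)⟩

theorem nonvan3 {k : Type*} [Field k] [Infinite k] [CharP k 3]
    (g₀ : GF dD4 k) (l : List (GF dD4 k)) (hg : ∀ g ∈ g₀ :: l, g ∈ FU dD4 k)
    (hlen : l.length + 1 = 3) (hne : icomm g₀ l ≠ 1) :
    (∀ j, ∃ g ∈ g₀ :: l, cD4.xi j ((g : GL cD4.Idx k) : Matrix cD4.Idx cD4.Idx k) ≠ 0) ∧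
    ∀ g ∈ g₀ :: l, ∃ j, cD4.xi j ((g : GL cD4.Idx k) : Matrix cD4.Idx cD4.Idx k) ≠ 0 := by
  obtain ⟨βP, βQ, βR, βS, hr⟩ := G2_roots
  have hN := swap_D4.na
  have v0 : (cD4.simple 0).1 = ![1, 0, 0, 0] := by
    rw [SLC.simple_val]; decide
  have v1 : (cD4.simple 1).1 = ![0, 1, 0, 0] := by
    rw [SLC.simple_val]; decide
  have hcomm := fun t u : k => G2_comms βP βQ βR βS hr t u
  have cm : ∀ (β γ : cD4.Root) (v w : Fin 4 → ℤ) (_ : β.1 = v) (_ : γ.1 = w)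
      (_ : ∀ a b : Fin 3, 0 ≤ cD4.ip (SLC.lmap (dD4.ρ ^ (a : ℕ)) v)
        (SLC.lmap (dD4.ρ ^ (b : ℕ)) w)) (t u : k),
      yg hN β t * yg hN γ u = yg hN γ u * yg hN β t :=
    fun β γ v w hv hw key t u => ZJ1_yg_comm hN β γ (ZCD_ip β γ v w hv hw key) t u
  have self : ∀ (β : cD4.Root) (t u : k), yg hN β t * yg hN β u = yg hN β u * yg hN β t := by
    intro β t u
    rw [← yg_add, ← yg_add, add_comm]
  have hrel : ZCDr (yg hN (cD4.simple 0)) (yg hN (cD4.simple 1)) (yg hN βP) (yg hN βQ)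
      (yg hN βR) (yg hN βS : k → GF dD4 k) :=
    { nA := fun t => (yg_neg hN _ t).symm
      nB := fun t => (yg_neg hN _ t).symm
      nP := fun t => (yg_neg hN _ t).symm
      nQ := fun t => (yg_neg hN _ t).symm
      nR := fun t => (yg_neg hN _ t).symm
      nS := fun t => (yg_neg hN _ t).symm
      aA := fun s t => yg_add hN _ s t
      aB := fun s t => yg_add hN _ s t
      AB := by
        intro t u
        rw [(hcomm t u).1]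
        have e : ∀ a b c d x y : GF dD4 k, a * b * c * d * (x * y) * y⁻¹ * x⁻¹ = a * b * c * d := by
          intro a b c d x y
          group
        rw [e]
        refine Subgroup.mul_mem _ (Subgroup.mul_mem _ (Subgroup.mul_mem _ ?_ ?_) ?_) ?_
        · exact Subgroup.subset_closure (Or.inl (Or.inl (Or.inl ⟨_, rfl⟩)))
        · exact Subgroup.subset_closure (Or.inl (Or.inl (Or.inr ⟨_, rfl⟩)))
        · exact Subgroup.subset_closure (Or.inl (Or.inr ⟨_, rfl⟩))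
        · exact Subgroup.subset_closure (Or.inr ⟨_, rfl⟩)
      AP := by
        intro t u
        rw [(hcomm t u).2.1]
        have e : ∀ a x y : GF dD4 k, a * (x * y) * y⁻¹ * x⁻¹ = a := by
          intro a x y
          group
        rw [e]
        exact Subgroup.subset_closure (Or.inl ⟨_, rfl⟩)
      BR := by
        intro t u
        rw [(hcomm t u).2.2.1]
        have e : ∀ a x y : GF dD4 k, a * (x * y) * y⁻¹ * x⁻¹ = a := by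
          intro a x y
          group
        rw [e]
        exact Subgroup.subset_closure (Or.inr ⟨_, rfl⟩)
      AQ := fun t u => (hcomm t u).2.2.2.1
      AR := cm _ _ _ _ v0 hr.hR (by decide)
      AS := cm _ _ _ _ v0 hr.hS (by decide)
      AA := self _
      BB := self _
      PP := self _
      QQ := self _
      RR := self _
      SS := self _
      BP := cm _ _ _ _ v1 hr.hP (by decide)
      BQ := cm _ _ _ _ v1 hr.hQ (by decide)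
      BS := cm _ _ _ _ v1 hr.hS (by decide)
      PQ := fun t u => (hcomm t u).2.2.2.2
      PR := cm _ _ _ _ hr.hP hr.hR (by decide)
      PS := cm _ _ _ _ hr.hP hr.hS (by decide)
      QR := cm _ _ _ _ hr.hQ hr.hR (by decide)
      QS := cm _ _ _ _ hr.hQ hr.hS (by decide)
      RS := cm _ _ _ _ hr.hR hr.hS (by decide) }
  have hpos : ∀ β : cD4.Root, (∀ i, 0 ≤ β.1 i) → cD4.Pos β := fun β hβ => (cD4.pos_iff β).mpr hβ
  have pP : cD4.Pos βP := hpos _ (by rw [hr.hP]; decide)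
  have pQ : cD4.Pos βQ := hpos _ (by rw [hr.hQ]; decide)
  have pR : cD4.Pos βR := hpos _ (by rw [hr.hR]; decide)
  have pS : cD4.Pos βS := hpos _ (by rw [hr.hS]; decide)
  -- `FU` is generated by the six root groups
  have hFU : FU dD4 k ≤ Subgroup.closure (ZCDF (yg hN (cD4.simple 0)) (yg hN (cD4.simple 1))
      (yg hN βP) (yg hN βQ) (yg hN βR) (yg hN βS : k → GF dD4 k)) := by
    rw [FU_eq hN, Subgroup.closure_le]
    rintro g ⟨β, hβ, t, rfl⟩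
    have cyc : ∀ γ : cD4.Root, dD4.rE.SameCycle γ β → ∃ s : k, yg hN γ s = yg hN β t := by
      intro γ hγ
      obtain ⟨e, -, he⟩ := yg_cycle hN β γ (k := k) hγ.symm
      exact ⟨_, he t⟩
    rcases (hr.mem β).mp hβ with h1 | rfl | h1 | h1 | rfl | rfl
    · obtain ⟨s, hs⟩ := cyc _ h1
      rw [← hs]
      exact Subgroup.subset_closure (Or.inl (Or.inl ⟨_, rfl⟩))
    · exact Subgroup.subset_closure (Or.inl (Or.inr ⟨_, rfl⟩))
    · obtain ⟨s, hs⟩ := cyc _ h1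
      rw [← hs]
      exact Subgroup.subset_closure (Or.inr (Or.inl (Or.inl (Or.inl ⟨_, rfl⟩))))
    · obtain ⟨s, hs⟩ := cyc _ h1
      rw [← hs]
      exact Subgroup.subset_closure (Or.inr (Or.inl (Or.inl (Or.inr ⟨_, rfl⟩))))
    · exact Subgroup.subset_closure (Or.inr (Or.inl (Or.inr ⟨_, rfl⟩)))
    · exact Subgroup.subset_closure (Or.inr (Or.inr ⟨_, rfl⟩))
  -- the coordinates
  have xmul : ∀ (j : Fin 4) (a b : GF dD4 k), a ∈ FU dD4 k → b ∈ FU dD4 k →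
      cD4.xi j (((a * b : GF dD4 k) : GL cD4.Idx k) : Matrix cD4.Idx cD4.Idx k) =
      cD4.xi j ((a : GL cD4.Idx k) : Matrix cD4.Idx cD4.Idx k) +
        cD4.xi j ((b : GL cD4.Idx k) : Matrix cD4.Idx cD4.Idx k) := by
    intro j a b ha hb
    rw [Subgroup.coe_mul]
    exact cD4.xi_mul j _ _ ha.1 hb.1
  have xinv : ∀ (j : Fin 4) (a : GF dD4 k), a ∈ FU dD4 k →
      cD4.xi j (((a⁻¹ : GF dD4 k) : GL cD4.Idx k) : Matrix cD4.Idx cD4.Idx k) =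
      -cD4.xi j ((a : GL cD4.Idx k) : Matrix cD4.Idx cD4.Idx k) := by
    intro j a ha
    rw [Subgroup.coe_inv]
    exact cD4.xi_inv j _ ha.1
  have nsimp : ∀ (β : cD4.Root) (v : Fin 4 → ℤ), β.1 = v → (∀ j : Fin 4, v ≠ Pi.single j 1) →
      ∀ i : Fin 4, ¬ ∃ j, β = cD4.simple j ∧ dD4.ρ.SameCycle j i := by
    rintro β v hv hn i ⟨j, rfl, -⟩
    rw [SLC.simple_val] at hv
    exact hn j hv.symm
  have x2 : ∀ (j : Fin 4), ∀ a ∈ Subgroup.closure (ZCDA2 (yg hN βP) (yg hN βQ) (yg hN βR)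
      (yg hN βS : k → GF dD4 k)), a ∈ FU dD4 k ∧
      cD4.xi j ((a : GL cD4.Idx k) : Matrix cD4.Idx cD4.Idx k) = 0 := by
    intro j a ha
    induction ha using Subgroup.closure_induction with
    | mem a ha =>
      rcases ha with (((⟨u, rfl⟩ | ⟨u, rfl⟩) | ⟨u, rfl⟩) | ⟨u, rfl⟩)
      · exact ⟨yg_pos hN _ pP u, (xi_yg hN j _ pP u).2 (nsimp _ _ hr.hP (by decide) j)⟩
      · exact ⟨yg_pos hN _ pQ u, (xi_yg hN j _ pQ u).2 (nsimp _ _ hr.hQ (by decide) j)⟩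
      · exact ⟨yg_pos hN _ pR u, (xi_yg hN j _ pR u).2 (nsimp _ _ hr.hR (by decide) j)⟩
      · exact ⟨yg_pos hN _ pS u, (xi_yg hN j _ pS u).2 (nsimp _ _ hr.hS (by decide) j)⟩
    | one =>
      refine ⟨Subgroup.one_mem _, ?_⟩
      rw [Subgroup.coe_one, Units.val_one]
      exact cD4.xi_one j
    | mul x y hx hy ihx ihy =>
      refine ⟨Subgroup.mul_mem _ ihx.1 ihy.1, ?_⟩
      rw [xmul j _ _ ihx.1 ihy.1, ihx.2, ihy.2, add_zero]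
    | inv x hx ih =>
      refine ⟨Subgroup.inv_mem _ ih.1, ?_⟩
      rw [xinv j _ ih.1, ih.2, neg_zero]
  have sc0 : ∀ j : Fin 4, j ≠ 1 → dD4.ρ.SameCycle 0 j := by
    intro j hj
    have : ∀ j : Fin 4, j ≠ 1 → ∃ i : Fin 3, (dD4.ρ ^ (i : ℕ)) 0 = j := by decide
    obtain ⟨i, hi⟩ := this j hj
    exact ⟨(i : ℕ), by rw [zpow_natCast]; exact hi⟩
  have sc1 : ∀ j : Fin 4, dD4.ρ.SameCycle 1 j → j = 1 := by
    rintro j ⟨z, hz⟩
    rw [← hz]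
    exact Function.IsFixedPt.perm_zpow (show Function.IsFixedPt dD4.ρ 1 by decide) z
  have si : ∀ i j : Fin 4, cD4.simple i = cD4.simple j → i = j :=
    fun i j hij => cD4.simple_injective hij
  have xA : ∀ (j : Fin 4) (t u : k), ∀ a ∈ Subgroup.closure (ZCDA2 (yg hN βP) (yg hN βQ)
      (yg hN βR) (yg hN βS : k → GF dD4 k)),
      cD4.xi j (((yg hN (cD4.simple 0) t * yg hN (cD4.simple 1) u * a : GF dD4 k) :
        GL cD4.Idx k) : Matrix cD4.Idx cD4.Idx k) = if j = 1 then u else t := by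
    intro j t u a ha
    have m0 := yg_pos hN (cD4.simple 0) (cD4.simple_pos 0) t
    have m1 := yg_pos hN (cD4.simple 1) (cD4.simple_pos 1) u
    rw [xmul j _ _ (Subgroup.mul_mem _ m0 m1) (x2 j a ha).1, xmul j _ _ m0 m1, (x2 j a ha).2,
      add_zero]
    by_cases hj : j = 1
    · rw [if_pos hj, (xi_yg hN j _ (cD4.simple_pos 0) t).2, zero_add,
        (xi_yg hN j _ (cD4.simple_pos 1) u).1]
      · exact ⟨1, rfl, by rw [hj]⟩
      · rintro ⟨i, h1, h2⟩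
        have h3 := si _ _ h1
        subst h3
        rw [hj] at h2
        have h4 := sc1 _ h2.symm
        exact absurd h4 (by decide)
    · rw [if_neg hj, (xi_yg hN j _ (cD4.simple_pos 0) t).1 ⟨0, rfl, sc0 j hj⟩,
        (xi_yg hN j _ (cD4.simple_pos 1) u).2, add_zero]
      rintro ⟨i, h1, h2⟩
      have h3 := si _ _ h1
      subst h3
      exact hj (sc1 _ h2)
  have hA0 : (yg hN (cD4.simple 0) (0 : k)) = 1 := yg_zero hN _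
  have hB0 : (yg hN (cD4.simple 1) (0 : k)) = 1 := yg_zero hN _
  have xx : ∀ (j : Fin 4), j ≠ 1 → ∀ g ∈ FU dD4 k,
      cD4.xi j ((g : GL cD4.Idx k) : Matrix cD4.Idx cD4.Idx k) =
      cD4.xi 0 ((g : GL cD4.Idx k) : Matrix cD4.Idx cD4.Idx k) := by
    intro j hj g hg
    obtain ⟨t, u, a, ha, rfl⟩ := ZCD_form hrel hA0 hB0 g (hFU hg)
    rw [xA j t u a ha, xA 0 t u a ha, if_neg hj, if_neg (by decide)]
  obtain ⟨g₁, g₂, rfl⟩ : ∃ g₁ g₂, l = [g₁, g₂] := by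
    match l, hlen with
    | [a, b], _ => exact ⟨a, b, rfl⟩
  have m0 := hg g₀ (by simp)
  have m1 := hg g₁ (by simp)
  have m2 := hg g₂ (by simp)
  have hmain := ZCD_main hrel hA0 hB0
    (fun g => cD4.xi 0 ((g : GL cD4.Idx k) : Matrix cD4.Idx cD4.Idx k))
    (fun g => cD4.xi 1 ((g : GL cD4.Idx k) : Matrix cD4.Idx cD4.Idx k))
    (fun t u a ha => by simpa using xA 0 t u a ha) (fun t u a ha => by simpa using xA 1 t u a ha)
    g₀ g₁ g₂ (hFU m0) (hFU m1) (hFU m2) hne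
  obtain ⟨c1, c2, c3, c4, c5⟩ := hmain
  constructor
  · intro j
    by_contra hcon
    push Not at hcon
    by_cases hj : j = 1
    · subst hj
      exact c2 ⟨hcon _ (by simp), hcon _ (by simp), hcon _ (by simp)⟩
    · refine c1 ⟨?_, ?_, ?_⟩
      · rw [← xx j hj _ m0]; exact hcon _ (by simp)
      · rw [← xx j hj _ m1]; exact hcon _ (by simp)
      · rw [← xx j hj _ m2]; exact hcon _ (by simp)
  · intro g hgm
    by_contra hcon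
    push Not at hcon
    rw [List.mem_cons, List.mem_cons, List.mem_singleton] at hgm
    rcases hgm with rfl | rfl | rfl
    · exact c3 ⟨hcon 0, hcon 1⟩
    · exact c4 ⟨hcon 0, hcon 1⟩
    · exact c5 ⟨hcon 0, hcon 1⟩

end Pool.Agent.H86.UM
end
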