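import Pool.Agent.H86.AL.M29
import Pool.Agent.H86.AL.M30
import Pool.Agent.H86.AL.M34

/-!
# M36: collected modules

Pool.Agent.H86.UM.Z10
Pool.Agent.H86.UM.Z12
Pool.Agent.H86.UM.Z11
-/

section
/- module Pool.Agent.H86.UM.Z10 -/
/-!
# Project UM, Suzuki-Ree groups, module Z10: properties of the simple root groups

`onto2`, `ker2`, `opp2` (`m = 2`): the two types: `C.A i (t0 i) = 0` (`XJ_orth`: `x = yg α_i t * yg α_(t0 i) (θ t)`,
`ξ_i x = t`) or `-1` (`B2_roots`, `B2_inst`; `x = B2x .. t v ∈ XJ` by `B2_fix`; elements of `XJ` are of this form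
by `B2_form`; `B2_ker` with `G := GF D k`, `X := XJ`; `ξ_i (B2x t v) = t` by `xi_mul, xi_yg`). `opp2`: `i` arbitrary:
`exists_short`, `XJ_congr`; `XmJ_orth` with `t = 1`, resp. `B2_opp` with `v = 1` (it is `≠ 1`: if
`yg (-βP) 1 = (yg (-βQ) (θ 1))⁻¹` then `yg_inj` gives a contradiction). `D₄`: `RJ_D4`, `G2_roots`, `G2_inst`,
`G2_form`, `G2_fix`, `G2_ker`, `G2_opp`; all nodes are in one class; the short nodes `0, 2, 3` are in one cycle, so
`XJ i = XJ 0` (`XJ_congr`) and `ξ_i = ξ_0` on the folded group (`xi_sgl`).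

`tor_ratio`: `C.IsHighest δ`, every positive root is in `RJ i`. `y = u ν v`, `y' = u' ν' v'` (`nuJ_of_opp`), `ν, ν'` act
by the same `w` (`IswJ.unique`); `h = ν'⁻¹ ν ∈ FT` (`FN_T`), in `Esr` (`u, v, y` are: `XJ_le`). The matrix entry at
`(inr (-δ), inr δ)` of `y = u ν v` is that of `ν`: `v e_δ = e_δ` (`v - 1 ∈ Fil 1`, `δ` highest: `IsHighest.le`,
`uniq`), and the row `-δ` of `u` is the unit vector (the same reason); and
`ν = ν' h`, `h` diagonal (`T_diag`), so the entry of `ν` is the entry of `ν'` times `chi h δ`.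
-/

set_option autoImplicit false
open Matrix

namespace Pool.Agent.H86.UM

open Pool.Agent.H75.UL

section aux
variable {n : ℕ} {C : SLC n} {D : Dg C} {k : Type*} [Field k] [Infinite k]

theorem Z10_FU_U (x : GF D k) (hx : x ∈ FU D k) : (x : GL C.Idx k) ∈ (C.adS k).U 1 :=
  (Subgroup.mem_subgroupOf.mp hx).1

theorem Z10_xi_mul (i : Fin n) (x y : GF D k) (hx : x ∈ FU D k) (hy : y ∈ FU D k) :
    C.xi i (((x * y : GF D k) : GL C.Idx k) : Matrix C.Idx C.Idx k) =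
      C.xi i ((x : GL C.Idx k) : Matrix C.Idx C.Idx k) +
        C.xi i ((y : GL C.Idx k) : Matrix C.Idx C.Idx k) := by
  rw [Subgroup.coe_mul]
  exact C.xi_mul i _ _ (Z10_FU_U x hx) (Z10_FU_U y hy)

theorem Z10_xi_ht (hN : D.NA) (i : Fin n) (β : C.Root) (hβ : 2 ≤ ht β.1) (t : k) :
    C.xi i (((yg hN β t : GF D k) : GL C.Idx k) : Matrix C.Idx C.Idx k) = 0 := by
  have hp : C.Pos β := by
    unfold SLC.Pos
    omega
  refine (xi_yg hN i β hp t).2 ?_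
  rintro ⟨j, hj, -⟩
  rw [hj, C.ht_simple] at hβ
  omega

theorem Z10_xi_fix (hN : D.NA) (i j : Fin n) (hi : D.ρ i ≠ i) (hj : D.ρ j = j) (t : k) :
    C.xi i (((yg hN (C.simple j) t : GF D k) : GL C.Idx k) : Matrix C.Idx C.Idx k) = 0 := by
  refine (xi_yg hN i _ (C.simple_pos j) t).2 ?_
  rintro ⟨l, hl, hc⟩
  have h1 := C.simple_injective hl
  rw [← h1] at hc
  obtain ⟨z, hz⟩ := hc
  have h2 : (D.ρ ^ z) j = j := Function.IsFixedPt.perm_zpow hj z
  rw [h2] at hz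
  rw [hz] at hj
  exact hi hj

theorem Z10_ne_one (hN : D.NA) (β γ : C.Root) (h1 : D.r β ≠ β) (h2 : D.r γ = γ) (t : k) :
    yg hN β (1 : k) * yg hN γ t ≠ 1 := by
  intro h
  have h3 : yg hN β (1 : k) = yg hN γ (-t) := by
    rw [yg_neg]
    exact eq_inv_of_mul_eq_one_left h
  have h4 := (yg_inj hN β γ 1 (-t) one_ne_zero h3).1
  exact h1 ((fix_cycle _ _ h4).mpr h2)

end aux

section
variable {n : ℕ} {C : SLC n} {D : Dg C} {t0 : Fin n → Fin n} (hS : Swap D t0)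
  {k : Type*} [Field k] [Infinite k] {θ : k ≃+* k} {σ : GF D k →* GF D k}
  (h : SRs D t0 θ σ)

include h

include hS in
omit h in
theorem Z10_dich (i : Fin n) (hi : D.ρ i ≠ i) : C.A i (t0 i) = 0 ∨ C.A i (t0 i) = -1 := by
  apply C.off
  intro h1
  have h2 := (hS.fix_iff i).mpr hi
  rw [← h1] at h2
  exact hi h2

theorem Z10_B2 (hm : D.m = 2) (i : Fin n) (hi : D.ρ i ≠ i) (ha : C.A i (t0 i) = -1)
    (βP βQ : C.Root) (hr : B2r D t0 i βP βQ) :
    (∀ x : GF D k, x ∈ XJ hS.na t0 σ i ↔ ∃ t v, x = B2x θ (yg hS.na (C.simple i))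
      (yg hS.na (C.simple (t0 i))) (yg hS.na βP) (yg hS.na βQ) t v) ∧
    ∀ t v, C.xi i (((B2x θ (yg hS.na (C.simple i)) (yg hS.na (C.simple (t0 i))) (yg hS.na βP)
      (yg hS.na βQ) t v : GF D k) : GL C.Idx k) : Matrix C.Idx C.Idx k) = t := by
  obtain ⟨hB, hF⟩ := B2_inst hS h hm i hi ha βP βQ hr
  constructor
  · intro x
    constructor
    · rintro ⟨hx, hf⟩
      obtain ⟨t, u, v, w, rfl⟩ := (hF x).mp hx
      exact ⟨t, v, B2_form hB t u v w hf⟩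
    · rintro ⟨t, v, rfl⟩
      exact ⟨(hF _).mpr ⟨_, _, _, _, rfl⟩, B2_fix hB t v⟩
  · intro t v
    have hP2 : 2 ≤ ht βP.1 := by
      rw [hr.hP, ht_add, C.ht_simple, C.ht_simple]
      norm_num
    have hQ2 : 2 ≤ ht βQ.1 := by
      rw [hr.hQ, ht_add, ht_add, C.ht_simple, C.ht_simple, C.ht_simple]
      norm_num
    have hf : D.ρ (t0 i) = t0 i := (hS.fix_iff i).mpr hi
    have mA := yg_pos hS.na (C.simple i) (C.simple_pos i) t
    have mB := yg_pos hS.na (C.simple (t0 i)) (C.simple_pos (t0 i)) (θ t)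
    have mP := yg_pos hS.na βP (by unfold SLC.Pos; omega) v
    have mQ := yg_pos hS.na βQ (by unfold SLC.Pos; omega) (θ v + t ^ 2 * θ t)
    unfold B2x
    rw [Z10_xi_mul i _ _ (mul_mem (mul_mem mA mB) mP) mQ, Z10_xi_mul i _ _ (mul_mem mA mB) mP,
      Z10_xi_mul i _ _ mA mB, Z10_xi_ht hS.na i βP hP2, Z10_xi_ht hS.na i βQ hQ2,
      Z10_xi_fix hS.na i (t0 i) hi hf,
      (xi_yg hS.na i _ (C.simple_pos i) t).1 ⟨i, rfl, .refl _ _⟩]
    ring

theorem Z10_orth (i : Fin n) (hi : D.ρ i ≠ i) (t : k) :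
    C.xi i (((yg hS.na (C.simple i) t * yg hS.na (C.simple (t0 i)) (θ t) : GF D k) :
      GL C.Idx k) : Matrix C.Idx C.Idx k) = t := by
  have hf : D.ρ (t0 i) = t0 i := (hS.fix_iff i).mpr hi
  have mA := yg_pos hS.na (C.simple i) (C.simple_pos i) t
  have mB := yg_pos hS.na (C.simple (t0 i)) (C.simple_pos (t0 i)) (θ t)
  rw [Z10_xi_mul i _ _ mA mB, Z10_xi_fix hS.na i (t0 i) hi hf,
    (xi_yg hS.na i _ (C.simple_pos i) t).1 ⟨i, rfl, .refl _ _⟩, add_zero]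

theorem onto2 (hm : D.m = 2) (i : Fin n) (hi : D.ρ i ≠ i) (t : k) :
    ∃ x ∈ XJ hS.na t0 σ i, C.xi i ((x : GL C.Idx k) : Matrix C.Idx C.Idx k) = t := by
  rcases Z10_dich hS i hi with ha | ha
  · exact ⟨_, (XJ_orth hS h i hi ha _).mpr ⟨t, rfl⟩, Z10_orth hS h i hi t⟩
  · obtain ⟨βP, βQ, hr⟩ := B2_roots hS hm i hi ha
    obtain ⟨h1, h2⟩ := Z10_B2 hS h hm i hi ha βP βQ hr
    exact ⟨_, (h1 _).mpr ⟨t, 0, rfl⟩, h2 t 0⟩

theorem ker2 (hm : D.m = 2) (i : Fin n) (hi : D.ρ i ≠ i) (x : GF D k)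
    (hx : x ∈ XJ hS.na t0 σ i) (h0 : C.xi i ((x : GL C.Idx k) : Matrix C.Idx C.Idx k) = 0) :
    x ∈ ⁅XJ hS.na t0 σ i, XJ hS.na t0 σ i⁆ := by
  rcases Z10_dich hS i hi with ha | ha
  · obtain ⟨t, rfl⟩ := (XJ_orth hS h i hi ha _).mp hx
    rw [Z10_orth hS h i hi] at h0
    rw [h0, map_zero, yg_zero, yg_zero, one_mul]
    exact one_mem _
  · obtain ⟨βP, βQ, hr⟩ := B2_roots hS hm i hi ha
    obtain ⟨h1, h2⟩ := Z10_B2 hS h hm i hi ha βP βQ hr
    obtain ⟨t, v, rfl⟩ := (h1 _).mp hx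
    rw [h2] at h0
    rw [h0]
    exact B2_ker (B2_inst hS h hm i hi ha βP βQ hr).1 _ h1 v

theorem opp2 (hm : D.m = 2) (i : Fin n) : ∃ y ∈ XmJ hS.na t0 σ i, y ≠ 1 := by
  obtain ⟨j, hij, hj⟩ := exists_short hS i
  rw [(XJ_congr hS (σ := σ) i j hij).2]
  have hf : D.ρ (t0 j) = t0 j := (hS.fix_iff j).mpr hj
  rcases Z10_dich hS j hj with ha | ha
  · refine ⟨_, (XmJ_orth hS h j hj ha _).mpr ⟨1, rfl⟩, Z10_ne_one hS.na _ _ ?_ ?_ _⟩
    · rw [D.r_neg, D.r_simple]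
      intro h3
      have h5 := congrArg (fun β : C.Root => -β) h3
      simp only [ZJ1_neg_neg] at h5
      exact hj (C.simple_injective h5)
    · rw [D.r_neg, D.r_simple, hf]
  · obtain ⟨βP, βQ, hr⟩ := B2_roots hS hm j hj ha
    refine ⟨_, B2_opp hS h hm j hj ha βP βQ hr 1, Z10_ne_one hS.na _ _ ?_ ?_ _⟩
    · rw [D.r_neg]
      intro h3
      have h5 := congrArg (fun β : C.Root => -β) h3
      simp only [ZJ1_neg_neg] at h5
      exact hr.rP h5
    · rw [D.r_neg, hr.rQ]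

theorem tor_ratio (i : Fin n) (hall : ∀ β : C.Root, C.Pos β → suppJ D t0 i β) (δ : C.Root)
    (hδ : C.IsHighest δ) (y y' : GF D k) (hy : y ∈ XmJ hS.na t0 σ i)
    (hy' : y' ∈ XmJ hS.na t0 σ i)
    (h1 : ((y : GL C.Idx k) : Matrix C.Idx C.Idx k) (Sum.inr (-δ)) (Sum.inr δ) ≠ 0)
    (h2 : ((y' : GL C.Idx k) : Matrix C.Idx C.Idx k) (Sum.inr (-δ)) (Sum.inr δ) ≠ 0) :
    ∃ x ∈ FT D k ⊓ Esr D σ, C.chi ((x : GL C.Idx k) : Matrix C.Idx C.Idx k) δ =
      ((y : GL C.Idx k) : Matrix C.Idx C.Idx k) (Sum.inr (-δ)) (Sum.inr δ) /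
        ((y' : GL C.Idx k) : Matrix C.Idx C.Idx k) (Sum.inr (-δ)) (Sum.inr δ) := by
  have hne : ∀ z : GF D k, ((z : GL C.Idx k) : Matrix C.Idx C.Idx k) (Sum.inr (-δ)) (Sum.inr δ) ≠ 0
      → z ≠ 1 := by
    rintro z hz rfl
    apply hz
    rw [Subgroup.coe_one, Units.val_one]
    apply Matrix.one_apply_ne
    intro h3
    exact C.neg_ne_self δ (congrArg (fun β : C.Root => β.1) (Sum.inr_injective h3))
  have hmem : ∀ z ∈ XJ hS.na t0 σ i, z ∈ Esr D σ := fun z hz =>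
    (le_sup_left : _ ≤ Esr D σ) ((XJ_le hS i).1 hz)
  have hmem' : ∀ z ∈ XmJ hS.na t0 σ i, z ∈ Esr D σ := fun z hz =>
    (le_sup_right : _ ≤ Esr D σ) ((XJ_le hS i).2 hz)
  have hU1 : ∀ z ∈ XJ hS.na t0 σ i, C.Fil 1 (((z : GL C.Idx k) : Matrix C.Idx C.Idx k) - 1) :=
    fun z hz => C.Fil_U 1 le_rfl _ (Z10_FU_U z ((XJ_le hS i).1 hz).1)
  have hhti : ∀ a : C.Idx, C.hti a ≤ ht δ.1 ∧ - ht δ.1 ≤ C.hti a := by
    intro a
    have h0 : 0 ≤ ht δ.1 := by
      unfold ht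
      exact Finset.sum_nonneg fun j _ => by have := hδ.full j; omega
    rcases a with a | β
    · change (0 : ℤ) ≤ _ ∧ _ ≤ (0 : ℤ)
      omega
    · change ht β.1 ≤ _ ∧ _ ≤ ht β.1
      refine ⟨hδ.le β, ?_⟩
      have := hδ.le (-β)
      rw [SLC.Root.neg_val, ht_neg] at this
      omega
  -- the entry of `y` is the entry of `ν`
  have hentry : ∀ (u ν v : GF D k), u ∈ XJ hS.na t0 σ i → v ∈ XJ hS.na t0 σ i →
      (((u * ν * v : GF D k) : GL C.Idx k) : Matrix C.Idx C.Idx k) (Sum.inr (-δ)) (Sum.inr δ) =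
      ((ν : GL C.Idx k) : Matrix C.Idx C.Idx k) (Sum.inr (-δ)) (Sum.inr δ) := by
    intro u ν v hu hv
    have hu1 : ∀ b, ((u : GL C.Idx k) : Matrix C.Idx C.Idx k) (Sum.inr (-δ)) b =
        (1 : Matrix C.Idx C.Idx k) (Sum.inr (-δ)) b := by
      intro b
      have h3 := hU1 u hu (Sum.inr (-δ)) b (by
        change ht (-δ).1 < _
        rw [SLC.Root.neg_val, ht_neg]
        have := (hhti b).2
        omega)
      rw [Matrix.sub_apply] at h3
      exact sub_eq_zero.mp h3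
    have hv1 : ∀ a, ((v : GL C.Idx k) : Matrix C.Idx C.Idx k) a (Sum.inr δ) =
        (1 : Matrix C.Idx C.Idx k) a (Sum.inr δ) := by
      intro a
      have h3 := hU1 v hv a (Sum.inr δ) (by
        change _ < ht δ.1 + 1
        have := (hhti a).1
        omega)
      rw [Matrix.sub_apply] at h3
      exact sub_eq_zero.mp h3
    rw [Subgroup.coe_mul, Subgroup.coe_mul, Units.val_mul, Units.val_mul, Matrix.mul_apply]
    simp_rw [hv1]
    rw [← Matrix.mul_apply, Matrix.mul_one, Matrix.mul_apply]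
    simp_rw [hu1]
    rw [← Matrix.mul_apply, Matrix.one_mul]
  obtain ⟨u, hu, v, hv, ν, hν, hsν, hyν, w, hw, hIw, hact⟩ := nuJ_of_opp hS h i y hy (hne y h1)
  obtain ⟨u', hu', v', hv', ν', hν', hsν', hyν', w', hw', hIw', hact'⟩ :=
    nuJ_of_opp hS h i y' hy' (hne y' h2)
  have hww : w = w' := IswJ.unique hw hw' hIw hIw'
  rw [← hww] at hact'
  have hT := FN_T hS.na ν' ν hν' hν w hact' hact
  have hνE : ν ∈ Esr D σ := by
    have e1 : ν = u⁻¹ * y * v⁻¹ := by rw [hyν]; group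
    rw [e1]
    exact mul_mem (mul_mem (inv_mem (hmem u hu)) (hmem' y hy)) (inv_mem (hmem v hv))
  have hνE' : ν' ∈ Esr D σ := by
    have e1 : ν' = u'⁻¹ * y' * v'⁻¹ := by rw [hyν']; group
    rw [e1]
    exact mul_mem (mul_mem (inv_mem (hmem u' hu')) (hmem' y' hy')) (inv_mem (hmem v' hv'))
  refine ⟨ν'⁻¹ * ν, Subgroup.mem_inf.mpr ⟨hT, mul_mem (inv_mem hνE') hνE⟩, ?_⟩
  rw [hyν, hyν', hentry u ν v hu hv, hentry u' ν' v' hu' hv']
  have hν'0 : ((ν' : GL C.Idx k) : Matrix C.Idx C.Idx k) (Sum.inr (-δ)) (Sum.inr δ) ≠ 0 := by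
    rw [hyν', hentry u' ν' v' hu' hv'] at h2
    exact h2
  rw [eq_div_iff hν'0]
  obtain ⟨c, hc⟩ := C.T_diag _ (Subgroup.mem_subgroupOf.mp hT)
  have e2 : ((ν : GL C.Idx k) : Matrix C.Idx C.Idx k) =
      ((ν' : GL C.Idx k) : Matrix C.Idx C.Idx k) *
        (((ν'⁻¹ * ν : GF D k) : GL C.Idx k) : Matrix C.Idx C.Idx k) := by
    rw [← Units.val_mul, ← Subgroup.coe_mul, mul_inv_cancel_left]
  conv_rhs => rw [e2]
  unfold SLC.chi
  rw [hc, Matrix.mul_diagonal, Matrix.diagonal_apply_eq, mul_comm]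

end

section
variable {k : Type*} [Field k] [Infinite k] {θ : k ≃+* k} {σ : GF dD4 k →* GF dD4 k}
  (h : SRs dD4 tD4 θ σ)

theorem Z10_J4 (i : Fin 4) : JJ dD4 tD4 0 i := by
  have h0 : dD4.ρ.SameCycle 0 2 := ⟨1, rfl⟩
  have h1 : dD4.ρ.SameCycle 0 3 := ⟨2, rfl⟩
  fin_cases i
  · exact Or.inl (.refl _ _)
  · exact Or.inr (.refl _ _)
  · exact Or.inl h0
  · exact Or.inl h1

theorem Z10_c4 (i : Fin 4) (hi : dD4.ρ i ≠ i) : dD4.ρ.SameCycle 0 i := by
  have h0 : dD4.ρ.SameCycle 0 2 := ⟨1, rfl⟩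
  have h1 : dD4.ρ.SameCycle 0 3 := ⟨2, rfl⟩
  fin_cases i
  · exact .refl _ _
  · exact absurd rfl hi
  · exact h0
  · exact h1

include h

theorem Z10_G2 (βP βQ βR βS : cD4.Root) (hr : G2r βP βQ βR βS) :
    (∀ x : GF dD4 k, x ∈ XJ swap_D4.na tD4 σ 0 ↔ ∃ t v w, x = G2x θ
      (yg swap_D4.na (cD4.simple 0)) (yg swap_D4.na (cD4.simple 1)) (yg swap_D4.na βP)
      (yg swap_D4.na βQ) (yg swap_D4.na βR) (yg swap_D4.na βS) t v w) ∧
    ∀ i, dD4.ρ i ≠ i → ∀ t v w, cD4.xi i (((G2x θ (yg swap_D4.na (cD4.simple 0))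
      (yg swap_D4.na (cD4.simple 1)) (yg swap_D4.na βP) (yg swap_D4.na βQ) (yg swap_D4.na βR)
      (yg swap_D4.na βS) t v w : GF dD4 k) : GL cD4.Idx k) : Matrix cD4.Idx cD4.Idx k) = t := by
  obtain ⟨hB, hF⟩ := G2_inst h βP βQ βR βS hr
  constructor
  · intro x
    have hX : x ∈ XJ swap_D4.na tD4 σ 0 ↔ x ∈ FU dD4 k ⊓ Fx σ := by
      unfold XJ
      rw [RJ_D4, FU_FR swap_D4.na]
    rw [hX]
    constructor
    · rintro ⟨hx, hf⟩
      obtain ⟨t, u, v, w, z, y, rfl⟩ := (hF x).mp hx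
      exact ⟨t, v, w, G2_form hB t u v w z y hf⟩
    · rintro ⟨t, v, w, rfl⟩
      exact ⟨(hF _).mpr ⟨_, _, _, _, _, _, rfl⟩, G2_fix hB t v w⟩
  · intro i hi t v w
    have hP2 : 2 ≤ ht βP.1 := by
      rw [hr.hP]
      decide
    have hQ2 : 2 ≤ ht βQ.1 := by
      rw [hr.hQ]
      decide
    have hR2 : 2 ≤ ht βR.1 := by
      rw [hr.hR]
      decide
    have hS2 : 2 ≤ ht βS.1 := by
      rw [hr.hS]
      decide
    have mA := yg_pos swap_D4.na (cD4.simple 0) (cD4.simple_pos 0) t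
    have mB := yg_pos swap_D4.na (cD4.simple 1) (cD4.simple_pos 1) (θ t)
    have mP := yg_pos swap_D4.na βP (by unfold SLC.Pos; omega) v
    have mQ := yg_pos swap_D4.na βQ (by unfold SLC.Pos; omega) w
    have mR := yg_pos swap_D4.na βR (by unfold SLC.Pos; omega) (-θ v - t ^ 3 * θ t)
    have mS := yg_pos swap_D4.na βS (by unfold SLC.Pos; omega) (-θ w - t ^ 3 * θ t ^ 2)
    unfold G2x
    rw [Z10_xi_mul i _ _ (mul_mem (mul_mem (mul_mem (mul_mem mA mB) mP) mQ) mR) mS,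
      Z10_xi_mul i _ _ (mul_mem (mul_mem (mul_mem mA mB) mP) mQ) mR,
      Z10_xi_mul i _ _ (mul_mem (mul_mem mA mB) mP) mQ, Z10_xi_mul i _ _ (mul_mem mA mB) mP,
      Z10_xi_mul i _ _ mA mB, Z10_xi_ht swap_D4.na i βP hP2, Z10_xi_ht swap_D4.na i βQ hQ2,
      Z10_xi_ht swap_D4.na i βR hR2, Z10_xi_ht swap_D4.na i βS hS2,
      Z10_xi_fix swap_D4.na i 1 hi rfl,
      (xi_yg swap_D4.na i _ (cD4.simple_pos 0) t).1 ⟨0, rfl, Z10_c4 i hi⟩]
    ring

theorem onto3 (i : Fin 4) (hi : dD4.ρ i ≠ i) (t : k) : ∃ x ∈ XJ swap_D4.na tD4 σ i,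
    cD4.xi i ((x : GL cD4.Idx k) : Matrix cD4.Idx cD4.Idx k) = t := by
  obtain ⟨βP, βQ, βR, βS, hr⟩ := G2_roots
  obtain ⟨h1, h2⟩ := Z10_G2 h βP βQ βR βS hr
  rw [← (XJ_congr swap_D4 (σ := σ) 0 i (Z10_J4 i)).1]
  exact ⟨_, (h1 _).mpr ⟨t, 0, 0, rfl⟩, h2 i hi t 0 0⟩

theorem ker3 (i : Fin 4) (hi : dD4.ρ i ≠ i) (x : GF dD4 k) (hx : x ∈ XJ swap_D4.na tD4 σ i)
    (h0 : cD4.xi i ((x : GL cD4.Idx k) : Matrix cD4.Idx cD4.Idx k) = 0) :
    x ∈ ⁅XJ swap_D4.na tD4 σ i, XJ swap_D4.na tD4 σ i⁆ := by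
  obtain ⟨βP, βQ, βR, βS, hr⟩ := G2_roots
  obtain ⟨h1, h2⟩ := Z10_G2 h βP βQ βR βS hr
  rw [← (XJ_congr swap_D4 (σ := σ) 0 i (Z10_J4 i)).1] at hx ⊢
  obtain ⟨t, v, w, rfl⟩ := (h1 _).mp hx
  rw [h2 i hi] at h0
  rw [h0]
  exact G2_ker (G2_inst h βP βQ βR βS hr).1 _ h1 v w

theorem opp3 (i : Fin 4) : ∃ y ∈ XmJ swap_D4.na tD4 σ i, y ≠ 1 := by
  obtain ⟨βP, βQ, βR, βS, hr⟩ := G2_roots
  obtain ⟨e, -, he⟩ := G2_opp h βP βQ βR βS hr
  rw [← (XJ_congr swap_D4 (σ := σ) 0 i (Z10_J4 i)).2]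
  refine ⟨_, he 1, Z10_ne_one swap_D4.na _ _ ?_ ?_ _⟩
  · rw [dD4.r_neg]
    intro h3
    have h5 := congrArg (fun β : cD4.Root => -β) h3
    simp only [ZJ1_neg_neg] at h5
    exact hr.rQ h5
  · rw [dD4.r_neg, hr.rS]

end

end Pool.Agent.H86.UM
end

section
/- module Pool.Agent.H86.UM.Z12 -/
/-!
# Project UM, Suzuki-Ree groups, module Z12: torus elements for `E₆`

`z t = yg α₀ t * yg α₁ (θ t) ∈ XJ 0`, `z' t = yg (-α₀) t * yg (-α₁) (θ t) ∈ XmJ 0` (`XJ_orth, XmJ_orth`;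
`t0 0 = 1`, `C.A 0 1 = 0`). `nz t = z t * z' t⁻¹ * z t`; since everything commutes (`orth_comm`) this is
`nn x_α₀ t * nn x_α₅ t * nn x_α₁ (θ t)`, and `hz t = nz t * nz (-1)` is
`hh α₀ t * hh α₅ t * hh α₁ (θ t) ∈ FT` (characteristic `2`: `-1 = 1`, `θ (-1) = -1`), so by `h_conj`
`χ_γ(hz t) = t ^ (ip α₀ γ + ip α₅ γ) * (θ t) ^ (ip α₁ γ)`.
`ν`: `nuJ_of_opp` for `i = 2` and `opp2` (`XJ_le`: `ν ∈ Esr`), acting by `w` with `IswJ 2 w`; the element
`w' = wd [2, 3, 4, 2, 3, 2]` (the longest element of the parabolic subgroup of the nodes `2, 3, 4`) also satisfies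
`IswJ 2 w'` — or avoid this: `w` preserves `RcJ 2` and `- w` permutes `RJ 2`, and `w α₂`, `w α₄` are
`- α₂` or `- α₄`, `w α₃ = - α₃` (see Z9.lean, `a_ν`; `w` commutes with `rE`); from the inner products with
these roots `w α₀ = α₀ + α₂ + α₃ + α₄` (write `w α₀ = ∑ c_j α_j`, inner products
with `w α₂, w α₃, w α₄` are `-1, 0, 0`, so if `w α₂ = -α₄`: `ip (w α₀) α₄ = 1, ip (w α₀) α₃ = 0, ip (w α₀) α₂ = 0`; and
the coordinates outside the nodes `2, 3, 4` are unchanged (`w` is a product of reflections? or use `w'`)).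
It is probably easiest to show `w = w'` by `IswJ.unique`: `IswJ 2 w'` by `decide`-like computation on the roots:
`w' β` for the simple roots `β` (`wd`, `reflE`, coordinates): `α₂ ↦ -α₄, α₃ ↦ -α₃, α₄ ↦ -α₂,
α₀ ↦ α₀+α₂+α₃+α₄, α₅ ↦ α₅+α₂+α₃+α₄, α₁ ↦ α₁+α₂+2α₃+α₄`, and linearity (`W_lin`): so the coordinates of
`w' β` at the nodes `0, 1, 5` are those of `β`; hence `w'` preserves `RcJ 2` (a positive coordinate outside
`{2,3,4}`), and on `RJ 2` (`β = a α₂ + b α₃ + c α₄`, nonnegative) `- w' β = a α₄ + b α₃ + c α₂`.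
`χ_γ(ν x ν⁻¹) = χ_(w⁻¹ γ)(x)`, and `w⁻¹ = w` (`w w = 1`, or `IswJ.inv`, `IswJ.unique`).
With `T₁ = hz t`: `(χ_0, χ_2) = (t ^ 2, t⁻¹)`; `T₂ = ν (hz t) ν⁻¹`: `χ_0 = χ_(α₀+α₂+α₃+α₄)(hz t) =
t ^ 2 * t⁻¹ * (θ t)⁻¹ * t⁻¹ = (θ t)⁻¹`, `χ_2 = χ_(-α₄)(hz t) = t`.
`sep` for the class of `0` (short nodes `0, 5`): `T₁(t) T₂(t)`: `(t ^ 2 / θ t, 1)`, and with `t = s * θ⁻¹ s`:
`t ^ 2 = s ^ 2 * θ s`, `θ t = θ s * s`: `χ_0 = s`. For the class of `2` (short nodes `2, 4`): `T₁(x) T₂(y)` with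
`y = θ x`: `χ_0 = x ^ 2 * (θ (θ x))⁻¹ = 1`, `χ_2 = x⁻¹ θ x`, with `x = s * θ s`: `θ x = θ s * s ^ 2`, `χ_2 = s`.
`χ_5 = χ_0`, `χ_4 = χ_2` (`chi_sgl`). `N = 1`.
`hz_spec` is needed later: it says that `hz t` is a product of `z`'s with the given characters.
-/

set_option autoImplicit false
open Matrix

namespace Pool.Agent.H86.UM

open Pool.Agent.H75.UL

private theorem Z12_s (j : Fin 6) (β : cE6.Root) : (cE6.reflE (cE6.simple j) β).1 =
    β.1 - Pi.single j ((cE6.A *ᵥ β.1) j) := by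
  rw [SLC.reflE_apply, SLC.refl_val, SLC.simple_val, cE6.ip_single_left]
  congr 1
  funext l
  rw [Pi.smul_apply, smul_eq_mul]
  by_cases h : l = j
  · subst h
    simp
  · rw [Pi.single_eq_of_ne h, Pi.single_eq_of_ne h, mul_zero]

private theorem Z12_s2 (β : cE6.Root) (a b c d e f : ℤ) (h : β.1 = ![a, b, c, d, e, f]) :
    (cE6.reflE (cE6.simple 2) β).1 = ![a, b, a + d - c, d, e, f] := by
  rw [Z12_s, h]
  funext l
  fin_cases l <;> simp [cE6, Matrix.mulVec, dotProduct, Fin.sum_univ_succ]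
  ring

private theorem Z12_s3 (β : cE6.Root) (a b c d e f : ℤ) (h : β.1 = ![a, b, c, d, e, f]) :
    (cE6.reflE (cE6.simple 3) β).1 = ![a, b, c, b + c + e - d, e, f] := by
  rw [Z12_s, h]
  funext l
  fin_cases l <;> simp [cE6, Matrix.mulVec, dotProduct, Fin.sum_univ_succ]
  ring

private theorem Z12_s4 (β : cE6.Root) (a b c d e f : ℤ) (h : β.1 = ![a, b, c, d, e, f]) :
    (cE6.reflE (cE6.simple 4) β).1 = ![a, b, c, d, d + f - e, f] := by
  rw [Z12_s, h]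
  funext l
  fin_cases l <;> simp [cE6, Matrix.mulVec, dotProduct, Fin.sum_univ_succ]
  ring

/-- the longest element of the parabolic subgroup of the nodes `2, 3, 4` -/
private def Z12_w : Equiv.Perm cE6.Root := cE6.wd [2, 3, 4, 2, 3, 2]

private theorem Z12_w_val (β : cE6.Root) : (Z12_w β).1 =
    ![β.1 0, β.1 1, β.1 0 + β.1 1 + β.1 5 - β.1 4, β.1 0 + 2 * β.1 1 + β.1 5 - β.1 3,
      β.1 0 + β.1 1 + β.1 5 - β.1 2, β.1 5] := by
  have h0 : β.1 = ![β.1 0, β.1 1, β.1 2, β.1 3, β.1 4, β.1 5] := by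
    funext l
    fin_cases l <;> rfl
  have h1 := Z12_s2 β _ _ _ _ _ _ h0
  have h2 := Z12_s3 _ _ _ _ _ _ _ h1
  have h3 := Z12_s2 _ _ _ _ _ _ _ h2
  have h4 := Z12_s4 _ _ _ _ _ _ _ h3
  have h5 := Z12_s3 _ _ _ _ _ _ _ h4
  have h6 := Z12_s2 _ _ _ _ _ _ _ h5
  have e : Z12_w β = cE6.reflE (cE6.simple 2) (cE6.reflE (cE6.simple 3)
      (cE6.reflE (cE6.simple 4) (cE6.reflE (cE6.simple 2) (cE6.reflE (cE6.simple 3)
      (cE6.reflE (cE6.simple 2) β))))) := by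
    unfold Z12_w SLC.wd
    simp only [List.map_cons, List.map_nil, List.prod_cons, List.prod_nil, mul_one,
      Equiv.Perm.mul_apply]
  rw [e, h6]
  funext l
  fin_cases l <;> simp <;> ring

private theorem Z12_JJ2 (j : Fin 6) : JJ dE6 tE6 2 j ↔ j = 2 ∨ j = 3 ∨ j = 4 := by
  unfold JJ
  revert j
  decide

private theorem Z12_JJ0 : JJ dE6 tE6 0 5 ∧ JJ dE6 tE6 5 0 := by
  unfold JJ
  decide

private theorem Z12_JJ4 : JJ dE6 tE6 2 4 ∧ JJ dE6 tE6 4 2 := by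
  unfold JJ
  decide


private theorem Z12_Isw : IswJ dE6 tE6 2 Z12_w where
  pos := by
    rintro β ⟨hp, hs⟩
    have hz : ∀ j : Fin 6, ¬ (j = 2 ∨ j = 3 ∨ j = 4) → β.1 j = 0 := by
      intro j hj
      by_contra h
      exact hj ((Z12_JJ2 j).1 (hs j h))
    have h0 := hz 0 (by decide)
    have h1 := hz 1 (by decide)
    have h5 := hz 5 (by decide)
    have hn := (cE6.pos_iff β).1 hp
    have h2 := hn 2
    have h3 := hn 3
    have h4 := hn 4
    have hv : (-(Z12_w β)).1 = ![0, 0, β.1 4, β.1 3, β.1 2, 0] := by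
      rw [SLC.Root.neg_val, Z12_w_val, h0, h1, h5]
      funext l
      fin_cases l <;> simp
    refine ⟨?_, ?_⟩
    · rw [cE6.pos_iff, hv]
      intro l
      fin_cases l
      · exact le_refl (0 : ℤ)
      · exact le_refl (0 : ℤ)
      · exact h4
      · exact h3
      · exact h2
      · exact le_refl (0 : ℤ)
    · intro j hj
      rw [Z12_JJ2]
      rw [hv] at hj
      fin_cases j
      · exact absurd rfl hj
      · exact absurd rfl hj
      · exact Or.inl rfl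
      · exact Or.inr (Or.inl rfl)
      · exact Or.inr (Or.inr rfl)
      · exact absurd rfl hj
  out := by
    rintro β ⟨hp, hs⟩
    have hn := (cE6.pos_iff β).1 hp
    have hex : ∃ j : Fin 6, β.1 j ≠ 0 ∧ ¬ (j = 2 ∨ j = 3 ∨ j = 4) := by
      by_contra h
      apply hs
      intro j hj
      rw [Z12_JJ2]
      by_contra h1
      exact h ⟨j, hj, h1⟩
    obtain ⟨j, hj, hj1⟩ := hex
    have hj2 : (Z12_w β).1 j = β.1 j := by
      rw [Z12_w_val]
      fin_cases j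
      · rfl
      · rfl
      · exact absurd (Or.inl rfl) hj1
      · exact absurd (Or.inr (Or.inl rfl)) hj1
      · exact absurd (Or.inr (Or.inr rfl)) hj1
      · rfl
    have hj3 : 0 < (Z12_w β).1 j := by
      rw [hj2]
      exact lt_of_le_of_ne (hn j) (Ne.symm hj)
    refine ⟨?_, ?_⟩
    · rw [cE6.pos_iff]
      rcases cE6.pos_or_neg (Z12_w β) with h1 | h1
      · exact h1
      · have := h1 j
        omega
    · intro h1
      apply hj1
      rw [← Z12_JJ2]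
      exact h1 j (by rw [hj2]; exact hj)

section
variable {k : Type*} [Field k] [Infinite k] {θ : k ≃+* k} {σ : GF dE6 k →* GF dE6 k}

omit [Infinite k] in
private theorem Z12_chi_mul (x y : GF dE6 k) (hx : x ∈ FT dE6 k) (hy : y ∈ FT dE6 k)
    (γ : cE6.Root) : cE6.chi (((x * y : GF dE6 k) : GL cE6.Idx k) : Matrix cE6.Idx cE6.Idx k) γ =
      cE6.chi ((x : GL cE6.Idx k) : Matrix cE6.Idx cE6.Idx k) γ *
        cE6.chi ((y : GL cE6.Idx k) : Matrix cE6.Idx cE6.Idx k) γ := by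
  have hx' : (x : GL cE6.Idx k) ∈ (cE6.adS k).T := hx
  have hy' : (y : GL cE6.Idx k) ∈ (cE6.adS k).T := hy
  have h1 := cE6.T_fix (((x * y : GF dE6 k) : GL cE6.Idx k)) (mul_mem hx' hy') γ 1
  have h2 := cE6.T_fix _ hy' γ 1
  have h3 := (cE6.T_fix _ hx' γ (cE6.chi ((y : GL cE6.Idx k) : Matrix cE6.Idx cE6.Idx k) γ * 1)).2
  rw [← h2.2] at h3
  have h4 : (((x * y : GF dE6 k) : GL cE6.Idx k)) * cE6.xg k γ 1 *
      (((x * y : GF dE6 k) : GL cE6.Idx k))⁻¹ =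
      (x : GL cE6.Idx k) * ((y : GL cE6.Idx k) * cE6.xg k γ 1 * (y : GL cE6.Idx k)⁻¹) *
        (x : GL cE6.Idx k)⁻¹ := by
    rw [Subgroup.coe_mul]
    group
  rw [h1.2, h3] at h4
  have h5 := (cE6.xg_inj _ _ _ _ (mul_ne_zero h1.1 one_ne_zero) h4).2
  rw [mul_one, mul_one] at h5
  exact h5

omit [Infinite k] in
private theorem Z12_chi_conj (x ν : GF dE6 k) (hx : x ∈ FT dE6 k) (hc : ν * x * ν⁻¹ ∈ FT dE6 k)
    (w : Equiv.Perm cE6.Root) (ha : (cE6.adS k).Acts (ν : GL cE6.Idx k) w)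
    (γ : cE6.Root) :
    cE6.chi (((ν * x * ν⁻¹ : GF dE6 k) : GL cE6.Idx k) : Matrix cE6.Idx cE6.Idx k) γ =
      cE6.chi ((x : GL cE6.Idx k) : Matrix cE6.Idx cE6.Idx k) (w⁻¹ γ) := by
  have hx' : (x : GL cE6.Idx k) ∈ (cE6.adS k).T := hx
  have hc' : ((ν * x * ν⁻¹ : GF dE6 k) : GL cE6.Idx k) ∈ (cE6.adS k).T := hc
  obtain ⟨c, hc0, hact⟩ := ha
  have hw : w (w⁻¹ γ) = γ := w.apply_symm_apply γ
  set β : cE6.Root := w⁻¹ γ with hβ
  have h1 := cE6.T_fix _ hc' γ (c β)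
  have h2 := cE6.T_fix _ hx' β 1
  have e1 := hact β 1
  have e2 := hact β (cE6.chi ((x : GL cE6.Idx k) : Matrix cE6.Idx cE6.Idx k) β * 1)
  rw [hw, mul_one] at e1
  rw [hw] at e2
  have h3 := h1.2
  have h4 : ((ν * x * ν⁻¹ : GF dE6 k) : GL cE6.Idx k) *
      ((ν : GL cE6.Idx k) * cE6.xg k β 1 * (ν : GL cE6.Idx k)⁻¹) *
      ((ν * x * ν⁻¹ : GF dE6 k) : GL cE6.Idx k)⁻¹ =
      (ν : GL cE6.Idx k) * ((x : GL cE6.Idx k) * cE6.xg k β 1 * (x : GL cE6.Idx k)⁻¹) *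
        (ν : GL cE6.Idx k)⁻¹ := by
    rw [Subgroup.coe_mul, Subgroup.coe_mul, Subgroup.coe_inv]
    group
  have e1' : (ν : GL cE6.Idx k) * cE6.xg k β 1 * (ν : GL cE6.Idx k)⁻¹ = cE6.xg k γ (c β) := e1
  have e2' : (ν : GL cE6.Idx k) * cE6.xg k β
      (cE6.chi ((x : GL cE6.Idx k) : Matrix cE6.Idx cE6.Idx k) β * 1) * (ν : GL cE6.Idx k)⁻¹ =
      cE6.xg k γ (c β * (cE6.chi ((x : GL cE6.Idx k) : Matrix cE6.Idx cE6.Idx k) β * 1)) := e2
  rw [e1', h2.2, e2', h3] at h4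
  have h5 := (cE6.xg_inj _ _ _ _ (mul_ne_zero h1.1 (hc0 β)) h4).2
  rw [mul_one, mul_comm] at h5
  exact mul_left_cancel₀ (hc0 β) h5

private theorem Z12_chi_orb (x : GF dE6 k) (i : Fin 6) :
    cE6.chi ((x : GL cE6.Idx k) : Matrix cE6.Idx cE6.Idx k) (cE6.simple (dE6.ρ i)) =
      cE6.chi ((x : GL cE6.Idx k) : Matrix cE6.Idx cE6.Idx k) (cE6.simple i) := by
  have h1 := chi_sgl dE6 (RingEquiv.refl k) (x : GL cE6.Idx k) (cE6.simple i)
  rw [(mem_GF_fix swap_E6.na _ x.2).1, dE6.r_simple] at h1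
  exact h1

omit [Infinite k] in
private theorem Z12_ip0 (i j : Fin 6) (hij : cE6.A i j = 0) :
    0 ≤ cE6.ip (cE6.simple i).1 (cE6.simple j).1 ∧
    0 ≤ cE6.ip (cE6.simple i).1 (-(cE6.simple j)).1 ∧
    0 ≤ cE6.ip (-(cE6.simple i)).1 (cE6.simple j).1 ∧
    0 ≤ cE6.ip (-(cE6.simple i)).1 (-(cE6.simple j)).1 := by
  rw [SLC.Root.neg_val, SLC.Root.neg_val, cE6.ip_neg_neg, cE6.ip_neg_left, cE6.ip_neg_right,
    SLC.simple_val, SLC.simple_val, cE6.ip_single, hij]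
  simp

private theorem Z12_c2 {G : Type*} [Group G] (a a' b b' : G) (h1 : Commute a b)
    (h2 : Commute a b') (h3 : Commute a' b) :
    a * b * (a' * b') * (a * b) = (a * a' * a) * (b * b' * b) := by
  calc a * b * (a' * b') * (a * b) = a * (b * a') * (b' * a) * b := by group
    _ = a * (a' * b) * (a * b') * b := by rw [h3.eq, h2.eq]
    _ = a * a' * (b * a) * b' * b := by group
    _ = a * a' * (a * b) * b' * b := by rw [h1.eq]
    _ = (a * a' * a) * (b * b' * b) := by group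

private theorem Z12_nn_comm {G : Type*} [Group G] (a a' b b' : G) (h1 : Commute a b)
    (h2 : Commute a b') (h3 : Commute a' b) (h4 : Commute a' b') :
    Commute (a * a' * a) (b * b' * b) := by
  have e1 : Commute a (b * b' * b) := (h1.mul_right h2).mul_right h1
  have e2 : Commute a' (b * b' * b) := (h3.mul_right h4).mul_right h3
  exact (e1.mul_left e2).mul_left e1

omit [Infinite k] in
private theorem Z12_iter (l : ℕ) (j : Fin 6) (t : k) :
    (dE6.sgl (RingEquiv.refl k))^[l] ((cE6.adS k).x (cE6.simple j) t) =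
      (cE6.adS k).x (cE6.simple ((dE6.ρ ^ l) j)) t ∧
    (dE6.sgl (RingEquiv.refl k))^[l] ((cE6.adS k).x (-(cE6.simple j)) t) =
      (cE6.adS k).x (-(cE6.simple ((dE6.ρ ^ l) j))) t := by
  have hs : IsSig dE6 (RingEquiv.refl k) (cE6.adS k) (dE6.sgl (RingEquiv.refl k)) :=
    isSig_adS dE6 _
  induction l with
  | zero => exact ⟨rfl, rfl⟩
  | succ l ih =>
    rw [Function.iterate_succ_apply', Function.iterate_succ_apply', ih.1, ih.2, hs, hs, dE6.r_neg,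
      dE6.sg_neg, dE6.r_simple, dE6.sg_simple, pow_succ', Equiv.Perm.mul_apply]
    simp

private theorem Z12_r0 : dE6.r (cE6.simple 0) ≠ cE6.simple 0 := by
  rw [dE6.r_simple]
  intro h
  exact absurd (cE6.simple_injective h) (by decide)

private theorem Z12_r1 : dE6.r (cE6.simple 1) = cE6.simple 1 := by
  rw [dE6.r_simple]
  rfl

private theorem Z12_rn0 : dE6.r (-(cE6.simple 0)) ≠ -(cE6.simple 0) := by
  rw [dE6.r_neg]
  intro h
  apply Z12_r0
  rw [← cE6.neg_neg_root (dE6.r (cE6.simple 0)), h, cE6.neg_neg_root]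

private theorem Z12_rn1 : dE6.r (-(cE6.simple 1)) = -(cE6.simple 1) := by
  rw [dE6.r_neg, Z12_r1]

omit [Infinite k] in
private theorem Z12_y0 (t : k) : ((yg swap_E6.na (cE6.simple 0) t : GF dE6 k) : GL cE6.Idx k) =
    cE6.xg k (cE6.simple 0) t * cE6.xg k (cE6.simple 5) t := by
  rw [yg_val]
  unfold yb mo
  rw [if_neg Z12_r0, dE6_m]
  have h0 := (Z12_iter (k := k) 0 0 t).1
  have h1 := (Z12_iter (k := k) 1 0 t).1
  simp only [List.range_succ, List.range_zero, List.nil_append, List.map_append, List.map_cons,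
    List.map_nil, List.prod_append, List.prod_cons, List.prod_nil, mul_one]
  rw [h0, h1]
  rfl

omit [Infinite k] in
private theorem Z12_yn0 (t : k) :
    ((yg swap_E6.na (-(cE6.simple 0)) t : GF dE6 k) : GL cE6.Idx k) =
    cE6.xg k (-(cE6.simple 0)) t * cE6.xg k (-(cE6.simple 5)) t := by
  rw [yg_val]
  unfold yb mo
  rw [if_neg Z12_rn0, dE6_m]
  have h0 := (Z12_iter (k := k) 0 0 t).2
  have h1 := (Z12_iter (k := k) 1 0 t).2
  simp only [List.range_succ, List.range_zero, List.nil_append, List.map_append, List.map_cons,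
    List.map_nil, List.prod_append, List.prod_cons, List.prod_nil, mul_one]
  rw [h0, h1]
  rfl

omit [Infinite k] in
private theorem Z12_cm (i j : Fin 6) (hij : cE6.A i j = 0) (s t : k) :
    Commute (cE6.xg k (cE6.simple i) s) (cE6.xg k (cE6.simple j) t) ∧
    Commute (cE6.xg k (cE6.simple i) s) (cE6.xg k (-(cE6.simple j)) t) ∧
    Commute (cE6.xg k (-(cE6.simple i)) s) (cE6.xg k (cE6.simple j) t) ∧
    Commute (cE6.xg k (-(cE6.simple i)) s) (cE6.xg k (-(cE6.simple j)) t) := by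
  obtain ⟨h1, h2, h3, h4⟩ := Z12_ip0 i j hij
  exact ⟨cE6.xg_comm k _ _ _ _ h1, cE6.xg_comm k _ _ _ _ h2, cE6.xg_comm k _ _ _ _ h3,
    cE6.xg_comm k _ _ _ _ h4⟩

omit [Infinite k] in
private theorem Z12_nn (i j : Fin 6) (hij : cE6.A i j = 0) (s t : k) :
    Commute (nn (cE6.xg k) (cE6.simple i) s) (nn (cE6.xg k) (cE6.simple j) t) := by
  unfold nn
  exact Z12_nn_comm _ _ _ _ (Z12_cm i j hij s t).1 (Z12_cm i j hij s t⁻¹).2.1
    (Z12_cm i j hij s⁻¹ t).2.2.1 (Z12_cm i j hij s⁻¹ t⁻¹).2.2.2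

/-- the element `nz t` -/
private theorem Z12_nz (t : k) :
    (((yg swap_E6.na (cE6.simple 0) t * yg swap_E6.na (cE6.simple 1) (θ t)) *
      (yg swap_E6.na (-(cE6.simple 0)) t⁻¹ * yg swap_E6.na (-(cE6.simple 1)) (θ t⁻¹)) *
      (yg swap_E6.na (cE6.simple 0) t * yg swap_E6.na (cE6.simple 1) (θ t)) : GF dE6 k) :
        GL cE6.Idx k) =
    nn (cE6.xg k) (cE6.simple 0) t * nn (cE6.xg k) (cE6.simple 5) t *
      nn (cE6.xg k) (cE6.simple 1) (θ t) := by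
  have a05 : cE6.A 0 5 = 0 := by decide
  have a01 : cE6.A 0 1 = 0 := by decide
  have a51 : cE6.A 5 1 = 0 := by decide
  simp only [Subgroup.coe_mul]
  rw [Z12_y0, Z12_yn0, yg_long swap_E6.na _ Z12_r1, yg_long swap_E6.na _ Z12_rn1, map_inv₀]
  rw [Z12_c2 _ _ _ _ ((Z12_cm 0 1 a01 t (θ t)).1.mul_left (Z12_cm 5 1 a51 t (θ t)).1)
    ((Z12_cm 0 1 a01 t (θ t)⁻¹).2.1.mul_left (Z12_cm 5 1 a51 t (θ t)⁻¹).2.1)
    ((Z12_cm 0 1 a01 t⁻¹ (θ t)).2.2.1.mul_left (Z12_cm 5 1 a51 t⁻¹ (θ t)).2.2.1)]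
  rw [Z12_c2 _ _ _ _ (Z12_cm 0 5 a05 t t).1 (Z12_cm 0 5 a05 t t⁻¹).2.1
    (Z12_cm 0 5 a05 t⁻¹ t).2.2.1]
  rfl

private theorem Z12_c3 {G : Type*} [Group G] (a b c a' b' c' : G) (h1 : Commute b a')
    (h2 : Commute c a') (h3 : Commute c b') :
    a * b * c * (a' * b' * c') = (a * a') * (b * b') * (c * c') := by
  calc a * b * c * (a' * b' * c') = a * b * (c * a') * b' * c' := by group
    _ = a * b * (a' * c) * b' * c' := by rw [h2.eq]
    _ = a * (b * a') * (c * b') * c' := by group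
    _ = a * (a' * b) * (b' * c) * c' := by rw [h1.eq, h3.eq]
    _ = (a * a') * (b * b') * (c * c') := by group

variable (h : SRs dE6 tE6 θ σ)

include h

theorem hz_spec (t : k) (ht : t ≠ 0) : ∃ x ∈ Subgroup.closure
      {g : GF dE6 k | g ∈ XJ swap_E6.na tE6 σ 0 ∨ g ∈ XmJ swap_E6.na tE6 σ 0}, x ∈ FT dE6 k ∧
    ∀ γ : cE6.Root, cE6.chi ((x : GL cE6.Idx k) : Matrix cE6.Idx cE6.Idx k) γ =
      t ^ (cE6.ip (cE6.simple 0).1 γ.1 + cE6.ip (cE6.simple 5).1 γ.1) *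
        θ t ^ (cE6.ip (cE6.simple 1).1 γ.1) := by
  have a05 : cE6.A 0 5 = 0 := by decide
  have a01 : cE6.A 0 1 = 0 := by decide
  have a51 : cE6.A 5 1 = 0 := by decide
  have a50 : cE6.A 5 0 = 0 := by decide
  have a10 : cE6.A 1 0 = 0 := by decide
  have a15 : cE6.A 1 5 = 0 := by decide
  have hθ : θ t ≠ 0 := by simpa using ht
  have hz1 : ∀ u : k, yg swap_E6.na (cE6.simple 0) u * yg swap_E6.na (cE6.simple 1) (θ u) ∈
      XJ swap_E6.na tE6 σ 0 := fun u =>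
    (XJ_orth swap_E6 h 0 (by decide) (by decide) _).2 ⟨u, rfl⟩
  have hz2 : ∀ u : k, yg swap_E6.na (-(cE6.simple 0)) u *
      yg swap_E6.na (-(cE6.simple 1)) (θ u) ∈ XmJ swap_E6.na tE6 σ 0 := fun u =>
    (XmJ_orth swap_E6 h 0 (by decide) (by decide) _).2 ⟨u, rfl⟩
  have hn : ∀ u : k, (yg swap_E6.na (cE6.simple 0) u * yg swap_E6.na (cE6.simple 1) (θ u)) *
      (yg swap_E6.na (-(cE6.simple 0)) u⁻¹ * yg swap_E6.na (-(cE6.simple 1)) (θ u⁻¹)) *
      (yg swap_E6.na (cE6.simple 0) u * yg swap_E6.na (cE6.simple 1) (θ u)) ∈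
      Subgroup.closure {g : GF dE6 k | g ∈ XJ swap_E6.na tE6 σ 0 ∨
        g ∈ XmJ swap_E6.na tE6 σ 0} := fun u =>
    mul_mem (mul_mem (Subgroup.subset_closure (Or.inl (hz1 u)))
      (Subgroup.subset_closure (Or.inr (hz2 u⁻¹))))
      (Subgroup.subset_closure (Or.inl (hz1 u)))
  refine ⟨_, mul_mem (hn t) (hn (-1)), ?_⟩
  generalize hx : (yg swap_E6.na (cE6.simple 0) t * yg swap_E6.na (cE6.simple 1) (θ t)) *
      (yg swap_E6.na (-(cE6.simple 0)) t⁻¹ * yg swap_E6.na (-(cE6.simple 1)) (θ t⁻¹)) *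
      (yg swap_E6.na (cE6.simple 0) t * yg swap_E6.na (cE6.simple 1) (θ t)) *
      ((yg swap_E6.na (cE6.simple 0) (-1) * yg swap_E6.na (cE6.simple 1) (θ (-1))) *
      (yg swap_E6.na (-(cE6.simple 0)) (-1)⁻¹ * yg swap_E6.na (-(cE6.simple 1)) (θ (-1)⁻¹)) *
      (yg swap_E6.na (cE6.simple 0) (-1) * yg swap_E6.na (cE6.simple 1) (θ (-1)))) = x
  have hxv : (x : GL cE6.Idx k) = hh (cE6.xg k) (cE6.simple 0) t *
      hh (cE6.xg k) (cE6.simple 5) t * hh (cE6.xg k) (cE6.simple 1) (θ t) := by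
    rw [← hx, Subgroup.coe_mul, Z12_nz, Z12_nz, map_neg, map_one]
    rw [Z12_c3 _ _ _ _ _ _ (Z12_nn 5 0 a50 _ _) (Z12_nn 1 0 a10 _ _) (Z12_nn 1 5 a15 _ _)]
    rfl
  have hT0 : hh (cE6.xg k) (cE6.simple 0) t ∈ (cE6.adS k).T :=
    Subgroup.subset_closure ⟨_, _, ht, rfl⟩
  have hT5 : hh (cE6.xg k) (cE6.simple 5) t ∈ (cE6.adS k).T :=
    Subgroup.subset_closure ⟨_, _, ht, rfl⟩
  have hT1 : hh (cE6.xg k) (cE6.simple 1) (θ t) ∈ (cE6.adS k).T :=
    Subgroup.subset_closure ⟨_, _, hθ, rfl⟩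
  have hxT : (x : GL cE6.Idx k) ∈ (cE6.adS k).T := by
    rw [hxv]
    exact mul_mem (mul_mem hT0 hT5) hT1
  refine ⟨hxT, fun γ => ?_⟩
  have h1 := cE6.T_fix _ hxT γ 1
  have c0 : ∀ u : k, hh (cE6.xg k) (cE6.simple 0) t * cE6.xg k γ u *
      (hh (cE6.xg k) (cE6.simple 0) t)⁻¹ =
      cE6.xg k γ (t ^ cE6.ip (cE6.simple 0).1 γ.1 * u) := fun u =>
    (cE6.adS k).h_conj (cE6.simple 0) γ t u ht
  have c5 : ∀ u : k, hh (cE6.xg k) (cE6.simple 5) t * cE6.xg k γ u *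
      (hh (cE6.xg k) (cE6.simple 5) t)⁻¹ =
      cE6.xg k γ (t ^ cE6.ip (cE6.simple 5).1 γ.1 * u) := fun u =>
    (cE6.adS k).h_conj (cE6.simple 5) γ t u ht
  have c1 : ∀ u : k, hh (cE6.xg k) (cE6.simple 1) (θ t) * cE6.xg k γ u *
      (hh (cE6.xg k) (cE6.simple 1) (θ t))⁻¹ =
      cE6.xg k γ (θ t ^ cE6.ip (cE6.simple 1).1 γ.1 * u) := fun u =>
    (cE6.adS k).h_conj (cE6.simple 1) γ (θ t) u hθ
  have h2 : (x : GL cE6.Idx k) * cE6.xg k γ 1 * (x : GL cE6.Idx k)⁻¹ =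
      cE6.xg k γ (t ^ cE6.ip (cE6.simple 0).1 γ.1 * (t ^ cE6.ip (cE6.simple 5).1 γ.1 *
        (θ t ^ cE6.ip (cE6.simple 1).1 γ.1 * 1))) := by
    rw [hxv, ← c0, ← c5, ← c1]
    group
  rw [h1.2] at h2
  have h3 := (cE6.xg_inj _ _ _ _ (mul_ne_zero h1.1 one_ne_zero) h2).2
  rw [mul_one, mul_one, ← mul_assoc, ← zpow_add₀ ht] at h3
  exact h3

private theorem Z12_T1 (t : k) (ht : t ≠ 0) : ∃ x ∈ FT dE6 k ⊓ Esr dE6 σ,
    cE6.chi ((x : GL cE6.Idx k) : Matrix cE6.Idx cE6.Idx k) (cE6.simple 0) = t ^ 2 ∧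
    cE6.chi ((x : GL cE6.Idx k) : Matrix cE6.Idx cE6.Idx k) (cE6.simple 2) = t⁻¹ ∧
    ∀ γ : cE6.Root, cE6.chi ((x : GL cE6.Idx k) : Matrix cE6.Idx cE6.Idx k) γ =
      t ^ (cE6.ip (cE6.simple 0).1 γ.1 + cE6.ip (cE6.simple 5).1 γ.1) *
        θ t ^ (cE6.ip (cE6.simple 1).1 γ.1) := by
  obtain ⟨x, hx, hxT, hc⟩ := hz_spec h t ht
  have hG : Subgroup.closure {g : GF dE6 k | g ∈ XJ swap_E6.na tE6 σ 0 ∨
      g ∈ XmJ swap_E6.na tE6 σ 0} ≤ G0 swap_E6.na tE6 σ := by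
    unfold G0
    exact Subgroup.closure_mono fun g hg => ⟨0, hg⟩
  refine ⟨x, ⟨hxT, G0_le_Esr swap_E6 (hG hx)⟩, ?_, ?_, hc⟩
  · have e0 : cE6.A 0 0 = 2 := by decide
    have e5 : cE6.A 5 0 = 0 := by decide
    have e1 : cE6.A 1 0 = 0 := by decide
    rw [hc]
    simp only [SLC.simple_val, SLC.ip_single]
    rw [e0, e5, e1, add_zero, zpow_zero, mul_one]
    exact zpow_natCast t 2
  · have e0 : cE6.A 0 2 = -1 := by decide
    have e5 : cE6.A 5 2 = 0 := by decide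
    have e1 : cE6.A 1 2 = 0 := by decide
    rw [hc]
    simp only [SLC.simple_val, SLC.ip_single]
    rw [e0, e5, e1, add_zero, zpow_zero, mul_one, _root_.zpow_neg_one]

private theorem Z12_T2 (t : k) (ht : t ≠ 0) : ∃ x ∈ FT dE6 k ⊓ Esr dE6 σ,
    cE6.chi ((x : GL cE6.Idx k) : Matrix cE6.Idx cE6.Idx k) (cE6.simple 0) = (θ t)⁻¹ ∧
    cE6.chi ((x : GL cE6.Idx k) : Matrix cE6.Idx cE6.Idx k) (cE6.simple 2) = t := by
  obtain ⟨x, hx, -, -, hc⟩ := Z12_T1 h t ht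
  obtain ⟨ν, ⟨hν, hνG⟩, w, hw, hI, ha⟩ :=
    G0_nu swap_E6 h (fun i => opp2 swap_E6 h dE6_m i) 2
  have hww : w⁻¹ = Z12_w := IswJ.unique (inv_mem hw) (cE6.wd_mem_W _) (IswJ.inv hw hI) Z12_Isw
  have hνE : ν ∈ Esr dE6 σ := G0_le_Esr swap_E6 hνG
  have hT : ν * x * ν⁻¹ ∈ FT dE6 k := (FT_conj swap_E6.na x hx.1).2.2 ν hν
  have hE : ν * x * ν⁻¹ ∈ Esr dE6 σ := mul_mem (mul_mem hνE hx.2) (inv_mem hνE)
  refine ⟨ν * x * ν⁻¹, ⟨hT, hE⟩, ?_, ?_⟩
  · rw [Z12_chi_conj x ν hx.1 hT w ha, hww, hc]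
    have hv : (Z12_w (cE6.simple 0)).1 = ![1, 0, 1, 1, 1, 0] := by
      rw [Z12_w_val]
      decide
    have e0 : (cE6.A *ᵥ ![1, 0, 1, 1, 1, 0]) 0 = 1 := by decide
    have e5 : (cE6.A *ᵥ ![1, 0, 1, 1, 1, 0]) 5 = -1 := by decide
    have e1 : (cE6.A *ᵥ ![1, 0, 1, 1, 1, 0]) 1 = -1 := by decide
    rw [hv]
    simp only [SLC.simple_val, SLC.ip_single_left]
    rw [e0, e5, e1, add_neg_cancel, zpow_zero, one_mul, _root_.zpow_neg_one]
  · rw [Z12_chi_conj x ν hx.1 hT w ha, hww, hc]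
    have hv : (Z12_w (cE6.simple 2)).1 = ![0, 0, 0, 0, -1, 0] := by
      rw [Z12_w_val]
      decide
    have e0 : (cE6.A *ᵥ ![0, 0, 0, 0, -1, 0]) 0 = 0 := by decide
    have e5 : (cE6.A *ᵥ ![0, 0, 0, 0, -1, 0]) 5 = 1 := by decide
    have e1 : (cE6.A *ᵥ ![0, 0, 0, 0, -1, 0]) 1 = 0 := by decide
    rw [hv]
    simp only [SLC.simple_val, SLC.ip_single_left]
    rw [e0, e5, e1, zero_add, zpow_zero, mul_one, zpow_one]

/-- the class of `0` -/
private theorem Z12_A (s : k) (hs : s ≠ 0) : ∃ x ∈ FT dE6 k ⊓ Esr dE6 σ,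
    cE6.chi ((x : GL cE6.Idx k) : Matrix cE6.Idx cE6.Idx k) (cE6.simple 0) = s ∧
    cE6.chi ((x : GL cE6.Idx k) : Matrix cE6.Idx cE6.Idx k) (cE6.simple 2) = 1 := by
  have hu : θ.symm s ≠ 0 := by simpa using hs
  have ht : s * θ.symm s ≠ 0 := mul_ne_zero hs hu
  obtain ⟨x, hx, hx0, hx2, -⟩ := Z12_T1 h _ ht
  obtain ⟨y, hy, hy0, hy2⟩ := Z12_T2 h _ ht
  refine ⟨x * y, mul_mem hx hy, ?_, ?_⟩
  · rw [Z12_chi_mul x y hx.1 hy.1, hx0, hy0]
    have h1 : (θ.symm s) ^ 2 = θ s := by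
      have h2 := h.hθ (θ.symm s)
      rw [dE6_m, RingEquiv.apply_symm_apply] at h2
      exact h2.symm
    have h3 : θ s ≠ 0 := by simpa using hs
    rw [mul_pow, h1, map_mul, RingEquiv.apply_symm_apply]
    field_simp
  · rw [Z12_chi_mul x y hx.1 hy.1, hx2, hy2, inv_mul_cancel₀ ht]

/-- the class of `2` -/
private theorem Z12_B (s : k) (hs : s ≠ 0) : ∃ x ∈ FT dE6 k ⊓ Esr dE6 σ,
    cE6.chi ((x : GL cE6.Idx k) : Matrix cE6.Idx cE6.Idx k) (cE6.simple 0) = 1 ∧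
    cE6.chi ((x : GL cE6.Idx k) : Matrix cE6.Idx cE6.Idx k) (cE6.simple 2) = s := by
  have hu : θ s ≠ 0 := by simpa using hs
  have ht : s * θ s ≠ 0 := mul_ne_zero hs hu
  have ht' : θ (s * θ s) ≠ 0 := by simpa using ht
  have h1 : ∀ t, θ (θ t) = t ^ 2 := fun t => by
    have h2 := h.hθ t
    rwa [dE6_m] at h2
  obtain ⟨x, hx, hx0, hx2, -⟩ := Z12_T1 h _ ht
  obtain ⟨y, hy, hy0, hy2⟩ := Z12_T2 h _ ht'
  refine ⟨x * y, mul_mem hx hy, ?_, ?_⟩
  · rw [Z12_chi_mul x y hx.1 hy.1, hx0, hy0, h1, mul_inv_cancel₀ (pow_ne_zero 2 ht)]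
  · rw [Z12_chi_mul x y hx.1 hy.1, hx2, hy2, map_mul, h1]
    field_simp

theorem jhyp_E6 : JHyp swap_E6 σ 1 where
  N_ne := one_ne_zero
  onto := fun i hi t => onto2 swap_E6 h dE6_m i hi t
  ker := fun i hi x hx h0 => ker2 swap_E6 h dE6_m i hi x hx h0
  opp := fun i => opp2 swap_E6 h dE6_m i
  sep := by
    intro i hi s hs
    obtain ⟨x, hx, hx0, hx2⟩ := Z12_A h s hs
    obtain ⟨y, hy, hy0, hy2⟩ := Z12_B h s hs
    have hx5 : cE6.chi ((x : GL cE6.Idx k) : Matrix cE6.Idx cE6.Idx k) (cE6.simple 5) = s :=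
      (Z12_chi_orb x 0).trans hx0
    have hx4 : cE6.chi ((x : GL cE6.Idx k) : Matrix cE6.Idx cE6.Idx k) (cE6.simple 4) = 1 :=
      (Z12_chi_orb x 2).trans hx2
    have hy5 : cE6.chi ((y : GL cE6.Idx k) : Matrix cE6.Idx cE6.Idx k) (cE6.simple 5) = 1 :=
      (Z12_chi_orb y 0).trans hy0
    have hy4 : cE6.chi ((y : GL cE6.Idx k) : Matrix cE6.Idx cE6.Idx k) (cE6.simple 4) = s :=
      (Z12_chi_orb y 2).trans hy2
    have n1 : ¬ dE6.ρ 1 ≠ 1 := by decide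
    have n3 : ¬ dE6.ρ 3 ≠ 3 := by decide
    rw [pow_one]
    fin_cases i
    · refine ⟨x, hx, hx0, fun j hj hJ => ?_⟩
      fin_cases j
      · exact absurd (JJ_refl _) hJ
      · exact absurd hj n1
      · exact hx2
      · exact absurd hj n3
      · exact hx4
      · exact absurd Z12_JJ0.1 hJ
    · exact absurd hi n1
    · refine ⟨y, hy, hy2, fun j hj hJ => ?_⟩
      fin_cases j
      · exact hy0
      · exact absurd hj n1
      · exact absurd (JJ_refl _) hJ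
      · exact absurd hj n3
      · exact absurd Z12_JJ4.1 hJ
      · exact hy5
    · exact absurd hi n3
    · refine ⟨y, hy, hy4, fun j hj hJ => ?_⟩
      fin_cases j
      · exact hy0
      · exact absurd hj n1
      · exact absurd Z12_JJ4.2 hJ
      · exact absurd hj n3
      · exact absurd (JJ_refl _) hJ
      · exact hy5
    · refine ⟨x, hx, hx5, fun j hj hJ => ?_⟩
      fin_cases j
      · exact absurd Z12_JJ0.2 hJ
      · exact absurd hj n1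
      · exact hx2
      · exact absurd hj n3
      · exact hx4
      · exact absurd (JJ_refl _) hJ

end

end Pool.Agent.H86.UM
end

section
/- module Pool.Agent.H86.UM.Z11 -/
/-!
# Project UM, Suzuki-Ree groups, module Z11: torus elements, rank one

`A₃`: `βP = α₀ + α₁`, `βQ = α₀ + α₁ + α₂ = δ` is the highest root (`B2_roots` with `i = 0`, `t0 0 = 1`). The matrix
entry of `y = yg (-βP) v * yg (-βQ) w` at `(-δ, δ)` is `w ^ 2`: `yg (-βQ) w = x_(-δ)(w)` maps `e_δ` to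
`e_δ + w * (Cartan) + w ^ 2 e_(-δ)` (`X = 1 + w E + w ^ 2 F`), and `yg (-βP) v = x_(-βP)(v) x_(-r βP)(v)`
(up to signs) has the entries `1` at `(-δ, -δ)` and `0` at `(-δ, δ)`, `(-δ, inl i)`: the entries of a product of two
factors `x_(-β₁)(·) x_(-β₂)(·)` at `(-δ, a)`: `-δ` must be `a - c₁ β₁ - c₂ β₂` with `0 ≤ c₁, c₂ ≤ 2` (weights),
`β₁ = (1,1,0)`, `β₂ = (0,1,1)`, `δ = (1,1,1)`: `δ = c₁ β₁ + c₂ β₂` or `2 δ = c₁ β₁ + c₂ β₂` are impossible.
(Or compute the row `-δ` directly: row `-δ` of `x_(-β₁)(v)` has the nonzero entries `1` at `-δ` and `± v` at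
`-δ + β₁` only, then multiply by `x_(-β₂)(v)`: row `-δ + β₁ = (0,0,-1)`: nonzero entries at itself and (if
`(0,0,-1) + β₂ = (0,1,0)` is a root) at `(0,1,0)`; so the row `-δ` of the product is supported at `-δ, -δ+β₁, -δ+β₂,
(0,1,0)`.)
So `tor_ratio` with `B2_opp`: `w = θ v`: there is `x ∈ FT ⊓ Esr` with `χ_δ(x) = z ^ 2` for arbitrary `z ≠ 0`.
`χ_δ = χ_0 χ_1 χ_2` (`chi_prod`), `χ_2 = χ_0`, `χ_1 = θ χ_0` (`chi_sgl`, `sig_chi_simple`, `σ x = x`): with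
`c = χ_0(x)`: `c ^ 2 θ c = z ^ 2`. Take `z = s * θ⁻¹ s`: `z ^ 2 = s ^ 2 * θ s`. So `d = c / s` satisfies
`d ^ 2 θ d = 1`, `θ d = d⁻²`, `d ^ 2 = θ (θ d) = d ^ 4`, `d = 1` (characteristic `2`). So `χ_0(x) = s`. For `i = 2` the
same. No other class. `N = 1`.

`D₄`: `δ = βS = (1,2,1,1)`; `y = yg (-βQ) v * yg (-βS) (e θ v)` (`G2_opp`), entry `(θ v) ^ 2` (the same
argument: `yg (-βQ) v` is a product of three `x_(-β_l)`, `β_l ∈ {(1,1,1,0), (0,1,1,1), (1,1,0,1)}`; weights: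
`δ = ∑ c_l β_l`: coordinates `0, 2, 3`: pairwise sums of the `c_l` are `1`, sum `3/2`: impossible;
`2 δ = ∑ c_l β_l`: pairwise sums `2`, so `c_l = 1`, but the coordinate at the node `1` is `∑ c_l = 3 ≠ 4`).
`χ_δ = χ_0 χ_1 ^ 2 χ_2 χ_3 = c ^ 3 (θ c) ^ 2`; `z = s ^ 3 (θ s) ^ 2`, `c` with `c ^ 3 (θ c) ^ 2 = z ^ 2`,
`d = c / s ^ 2`: `d ^ 3 (θ d) ^ 2 = 1`, `(θ d) ^ 2 = (θ (θ d))⁻¹`, so `d ^ 2 = (θ d)⁻¹`, `θ d = d⁻²`,
`d ^ 3 = θ (θ d) = d ^ 4`, `d = 1`. So `χ_0(x) = s ^ 2`, `N = 2`.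
-/

set_option autoImplicit false
open Matrix

namespace Pool.Agent.H86.UM

open Pool.Agent.H75.UL

section gen
variable {n : ℕ} {C : SLC n} {k : Type*} [Field k]

/-- weights -/
private def Z11_wt (C : SLC n) : C.Idx → (Fin n → ℤ) := Sum.elim (fun _ => 0) (fun β => β.1)

/-- `M` is compatible with the weight function `f` and strictly lowers the height, up to the identity. -/
private def Z11_P (C : SLC n) (f : (Fin n → ℤ) →+ ℤ) (M : Matrix C.Idx C.Idx k) : Prop :=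
  (∀ a b, f (Z11_wt C a) ≠ f (Z11_wt C b) → M a b = 0) ∧
    ∀ a b, C.hti b ≤ C.hti a → M a b = (1 : Matrix C.Idx C.Idx k) a b

private theorem Z11_P_one (f : (Fin n → ℤ) →+ ℤ) : Z11_P C f (1 : Matrix C.Idx C.Idx k) := by
  refine ⟨fun a b h => ?_, fun a b _ => rfl⟩
  rw [Matrix.one_apply, if_neg]
  rintro rfl
  exact h rfl

private theorem Z11_P_mul (f : (Fin n → ℤ) →+ ℤ) {M N : Matrix C.Idx C.Idx k}
    (hM : Z11_P C f M) (hN : Z11_P C f N) : Z11_P C f (M * N) := by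
  refine ⟨fun a b h => ?_, fun a b h => ?_⟩
  · rw [Matrix.mul_apply]
    apply Finset.sum_eq_zero
    intro c _
    by_cases h1 : f (Z11_wt C a) = f (Z11_wt C c)
    · rw [hN.1 c b (fun h2 => h (h1.trans h2)), mul_zero]
    · rw [hM.1 a c h1, zero_mul]
  · rw [Matrix.mul_apply, Finset.sum_eq_single a]
    · rw [hM.2 a a le_rfl, Matrix.one_apply_eq, one_mul, hN.2 a b h]
    · intro c _ hc
      by_cases h1 : C.hti c ≤ C.hti a
      · rw [hM.2 a c h1, Matrix.one_apply_ne (Ne.symm hc), zero_mul]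
      · rw [not_le] at h1
        rw [hN.2 c b (h.trans h1.le), Matrix.one_apply_ne, mul_zero]
        rintro rfl
        exact absurd h (not_le.mpr h1)
    · intro h1
      exact absurd (Finset.mem_univ a) h1

private theorem Z11_P_X (f : (Fin n → ℤ) →+ ℤ) (α : C.Root) (hα : f α.1 = 0)
    (hneg : ht α.1 < 0) (t : k) : Z11_P C f (C.X k α t) := by
  have key : ∀ a b, (f (Z11_wt C a) ≠ f (Z11_wt C b) ∨ C.hti b ≤ C.hti a) →
      C.E α a b = 0 ∧ C.F α a b = 0 := by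
    intro a b h
    rcases a with i | γ <;> rcases b with j | β
    · exact ⟨rfl, rfl⟩
    · refine ⟨?_, rfl⟩
      change (if β.1 = -α.1 then - α.1 i else 0) = 0
      rw [if_neg]
      intro h1
      rcases h with h | h
      · apply h
        change f 0 = f β.1
        rw [h1, map_neg, hα, map_zero, neg_zero]
      · have h2 : ht β.1 ≤ 0 := h
        rw [h1, ht_neg] at h2
        omega
    · refine ⟨?_, rfl⟩
      change (if γ.1 = α.1 then - C.ip (Pi.single j 1) α.1 else 0) = 0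
      rw [if_neg]
      intro h1
      rcases h with h | h
      · apply h
        change f γ.1 = f 0
        rw [h1, hα, map_zero]
      · have h2 : 0 ≤ ht γ.1 := h
        rw [h1] at h2
        omega
    · constructor
      · change (if γ.1 = α.1 + β.1 then C.eps α.1 β.1 else 0) = 0
        rw [if_neg]
        intro h1
        rcases h with h | h
        · apply h
          change f γ.1 = f β.1
          rw [h1, map_add, hα, zero_add]
        · have h2 : ht β.1 ≤ ht γ.1 := h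
          rw [h1, ht_add] at h2
          omega
      · change (if γ.1 = α.1 ∧ β.1 = -α.1 then (1 : ℤ) else 0) = 0
        rw [if_neg]
        rintro ⟨h1, h3⟩
        rcases h with h | h
        · apply h
          change f γ.1 = f β.1
          rw [h1, h3, map_neg, hα, neg_zero]
        · have h2 : ht β.1 ≤ ht γ.1 := h
          rw [h1, h3, ht_neg] at h2
          omega
  have hX : ∀ a b, (f (Z11_wt C a) ≠ f (Z11_wt C b) ∨ C.hti b ≤ C.hti a) →
      C.X k α t a b = (1 : Matrix C.Idx C.Idx k) a b := by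
    intro a b h
    obtain ⟨h1, h2⟩ := key a b h
    unfold SLC.X
    rw [Matrix.add_apply, Matrix.add_apply, Matrix.smul_apply, Matrix.smul_apply,
      Matrix.map_apply, Matrix.map_apply, h1, h2, Int.cast_zero, smul_zero, smul_zero, add_zero,
      add_zero]
  refine ⟨fun a b h => ?_, fun a b h => hX a b (Or.inr h)⟩
  rw [hX a b (Or.inl h), Matrix.one_apply, if_neg]
  rintro rfl
  exact h rfl

private theorem Z11_P_list (f : (Fin n → ℤ) →+ ℤ) (l : List (GL C.Idx k))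
    (hl : ∀ g ∈ l, Z11_P C f (g : Matrix C.Idx C.Idx k)) :
    Z11_P C f ((l.prod : GL C.Idx k) : Matrix C.Idx C.Idx k) := by
  induction l with
  | nil => exact Z11_P_one f
  | cons g l ih =>
    rw [List.prod_cons, Units.val_mul]
    exact Z11_P_mul f (hl g (List.mem_cons_self))
      (ih fun x hx => hl x (List.mem_cons_of_mem _ hx))

variable {D : Dg C}

private theorem Z11_ht_iter (β : C.Root) (l : ℕ) : ht (D.r^[l] β).1 = ht β.1 := by
  induction l with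
  | zero => rfl
  | succ l ih => rw [Function.iterate_succ_apply', D.r_ht, ih]

private theorem Z11_f_iter (f : (Fin n → ℤ) →+ ℤ) (hf : ∀ v, f (SLC.lmap D.ρ v) = f v)
    (β : C.Root) (l : ℕ) : f (D.r^[l] β).1 = f β.1 := by
  induction l with
  | zero => rfl
  | succ l ih =>
    rw [Function.iterate_succ_apply']
    change f (SLC.lmap D.ρ (D.r^[l] β).1) = _
    rw [hf, ih]

private theorem Z11_ht_cycle (β γ : C.Root) (h : D.rE.SameCycle β γ) : ht γ.1 = ht β.1 := by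
  obtain ⟨l, -, rfl⟩ := (D.sameCycle_iff _ _).1 h
  exact Z11_ht_iter β l

private theorem Z11_entry [Infinite k] (hN : D.NA) (f : (Fin n → ℤ) →+ ℤ)
    (hf : ∀ v, f (SLC.lmap D.ρ v) = f v)
    (β δ : C.Root) (hβ : f β.1 = 0) (hpos : 0 < ht β.1) (hδ : f δ.1 ≠ 0) (hr : D.r δ = δ)
    (v w : k) :
    (((yg hN (-β) v * yg hN (-δ) w : GF D k) : GL C.Idx k) : Matrix C.Idx C.Idx k)
      (Sum.inr (-δ)) (Sum.inr δ) = w ^ 2 := by
  have hrn : D.r (-δ) = -δ := by rw [D.r_neg, hr]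
  have hP : Z11_P C f (((yg hN (-β) v : GF D k) : GL C.Idx k) : Matrix C.Idx C.Idx k) := by
    rw [yg_val]
    unfold yb
    apply Z11_P_list
    intro g hg
    rw [List.mem_map] at hg
    obtain ⟨l, -, rfl⟩ := hg
    rw [ZJ1_factor]
    apply Z11_P_X
    · rw [Z11_f_iter f hf, SLC.Root.neg_val, map_neg, hβ, neg_zero]
    · rw [Z11_ht_iter, SLC.Root.neg_val, ht_neg]
      omega
  rw [Subgroup.coe_mul, Units.val_mul, yg_long hN (-δ) hrn, Matrix.mul_apply,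
    Finset.sum_eq_single (Sum.inr (-δ))]
  · rw [hP.2 _ _ le_rfl, Matrix.one_apply_eq, one_mul]
    change C.X k (-δ) w (Sum.inr (-δ)) (Sum.inr δ) = w ^ 2
    have hne : (Sum.inr (-δ) : C.Idx) ≠ Sum.inr δ := by
      intro h
      have h1 := congrArg (fun β : C.Root => β.1) (Sum.inr_injective h)
      exact C.neg_ne_self δ h1
    have h1 : C.E (-δ) (Sum.inr (-δ)) (Sum.inr δ) = 0 := by
      change (if (-δ).1 = (-δ).1 + δ.1 then C.eps (-δ).1 δ.1 else 0) = 0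
      rw [if_neg]
      intro h
      exact C.root_ne_zero δ (left_eq_add.mp h)
    have h2 : C.F (-δ) (Sum.inr (-δ)) (Sum.inr δ) = 1 := by
      change (if (-δ).1 = (-δ).1 ∧ δ.1 = -(-δ).1 then (1 : ℤ) else 0) = 1
      rw [if_pos]
      exact ⟨rfl, by rw [SLC.Root.neg_val, neg_neg]⟩
    unfold SLC.X
    rw [Matrix.add_apply, Matrix.add_apply, Matrix.smul_apply, Matrix.smul_apply,
      Matrix.map_apply, Matrix.map_apply, h1, h2, Matrix.one_apply_ne hne, Int.cast_zero,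
      Int.cast_one, smul_zero, smul_eq_mul, mul_one, add_zero, zero_add]
  · rintro (i | γ) _ hc
    · rw [hP.1 _ (Sum.inl i), zero_mul]
      change f (-δ).1 ≠ f 0
      rw [SLC.Root.neg_val, map_neg, map_zero]
      exact neg_ne_zero.mpr hδ
    · by_cases hγ : γ = δ
      · rw [hP.1 _ (Sum.inr γ), zero_mul]
        change f (-δ).1 ≠ f γ.1
        rw [hγ, SLC.Root.neg_val, map_neg]
        omega
      · have h0 : (C.X k (-δ) w) (Sum.inr γ) (Sum.inr δ) = 0 := by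
          have hne : (Sum.inr γ : C.Idx) ≠ Sum.inr δ := fun h => hγ (Sum.inr_injective h)
          have h1 : C.E (-δ) (Sum.inr γ) (Sum.inr δ) = 0 := by
            change (if γ.1 = (-δ).1 + δ.1 then C.eps (-δ).1 δ.1 else 0) = 0
            rw [if_neg]
            intro h
            rw [SLC.Root.neg_val, neg_add_cancel] at h
            exact C.root_ne_zero γ h
          have h2 : C.F (-δ) (Sum.inr γ) (Sum.inr δ) = 0 := by
            change (if γ.1 = (-δ).1 ∧ δ.1 = -(-δ).1 then (1 : ℤ) else 0) = 0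
            rw [if_neg]
            rintro ⟨h, -⟩
            exact hc (congrArg Sum.inr (SLC.Root.ext h))
          unfold SLC.X
          rw [Matrix.add_apply, Matrix.add_apply, Matrix.smul_apply, Matrix.smul_apply,
            Matrix.map_apply, Matrix.map_apply, h1, h2, Matrix.one_apply_ne hne, Int.cast_zero,
            smul_zero, smul_zero, add_zero, add_zero]
        change _ * C.X k (-δ) w (Sum.inr γ) (Sum.inr δ) = 0
        rw [h0, mul_zero]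
  · intro h
    exact absurd (Finset.mem_univ _) h

private theorem Z11_chi_prod (x : GF D k) (hx : x ∈ FT D k) (γ : C.Root) :
    C.chi ((x : GL C.Idx k) : Matrix C.Idx C.Idx k) γ =
      ∏ j, C.chi ((x : GL C.Idx k) : Matrix C.Idx C.Idx k) (C.simple j) ^ γ.1 j := by
  have hx' : (x : GL C.Idx k) ∈ (C.adS k).T := hx
  obtain ⟨c, hc⟩ := C.T_diag _ hx'
  have h1 : ∀ δ : C.Root, C.chi ((x : GL C.Idx k) : Matrix C.Idx C.Idx k) δ =
      ((∏ j, c j ^ δ.1 j : kˣ) : k) := by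
    intro δ
    unfold SLC.chi
    rw [hc, Matrix.diagonal_apply_eq]
    rfl
  have h2 : ∀ j, C.chi ((x : GL C.Idx k) : Matrix C.Idx C.Idx k) (C.simple j) = (c j : k) := by
    intro j
    rw [h1, Finset.prod_eq_single j]
    · rw [SLC.simple_val, Pi.single_eq_same, zpow_one]
    · intro i _ hi
      rw [SLC.simple_val, Pi.single_eq_of_ne hi, zpow_zero]
    · intro h
      exact absurd (Finset.mem_univ j) h
  rw [h1, Units.coe_prod]
  refine Finset.prod_congr rfl fun j _ => ?_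
  rw [h2, Units.val_zpow_eq_zpow_val]

private theorem Z11_chi_ne (x : GF D k) (hx : x ∈ FT D k) (γ : C.Root) :
    C.chi ((x : GL C.Idx k) : Matrix C.Idx C.Idx k) γ ≠ 0 := by
  have hx' : (x : GL C.Idx k) ∈ (C.adS k).T := hx
  exact (C.T_fix _ hx' γ 0).1

private theorem Z11_chi_rho [Infinite k] (hN : D.NA) (x : GF D k) (j : Fin n) :
    C.chi ((x : GL C.Idx k) : Matrix C.Idx C.Idx k) (C.simple (D.ρ j)) =
      C.chi ((x : GL C.Idx k) : Matrix C.Idx C.Idx k) (C.simple j) := by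
  have h1 := chi_sgl D (RingEquiv.refl k) (x : GL C.Idx k) (C.simple j)
  rw [(mem_GF_fix hN _ x.2).1, D.r_simple] at h1
  exact h1

end gen

variable {k : Type*} [Field k] [Infinite k] {θ : k ≃+* k}

private theorem Z11_JJ_A3 (i j : Fin 3) : JJ dA3 tA3 i j := by
  have h0 : ∀ j : Fin 3, JJ dA3 tA3 0 j := by
    intro j
    fin_cases j
    · exact Or.inl (Equiv.Perm.SameCycle.refl _ _)
    · exact Or.inr (Equiv.Perm.SameCycle.refl _ _)
    · exact Or.inl ⟨1, rfl⟩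
  exact JJ_trans swap_A3 _ _ _ (JJ_symm swap_A3 _ _ (h0 i)) (h0 j)

private theorem Z11_JJ_D4 (i j : Fin 4) : JJ dD4 tD4 i j := by
  have h0 : ∀ j : Fin 4, JJ dD4 tD4 0 j := by
    intro j
    fin_cases j
    · exact Or.inl (Equiv.Perm.SameCycle.refl _ _)
    · exact Or.inr (Equiv.Perm.SameCycle.refl _ _)
    · exact Or.inl ⟨1, rfl⟩
    · exact Or.inl ⟨2, rfl⟩
  exact JJ_trans swap_D4 _ _ _ (JJ_symm swap_D4 _ _ (h0 i)) (h0 j)

/-- `v 0 + v 2 - v 1` -/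
private def Z11_fA : (Fin 3 → ℤ) →+ ℤ where
  toFun v := v 0 + v 2 - v 1
  map_zero' := rfl
  map_add' v w := by
    simp only [Pi.add_apply]
    ring

/-- `v 0 + v 2 + v 3 - 2 v 1` -/
private def Z11_fD : (Fin 4 → ℤ) →+ ℤ where
  toFun v := v 0 + v 2 + v 3 - 2 * v 1
  map_zero' := rfl
  map_add' v w := by
    simp only [Pi.add_apply]
    ring

private theorem Z11_highest {n : ℕ} {C : SLC n} (hn : 0 < n) (δ : C.Root) (hδ : C.Pos δ)
    (h : ∀ β, C.Pos β → ht δ.1 ≤ ht β.1 → β = δ) : C.IsHighest δ := by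
  obtain ⟨θ0, h0⟩ := C.exists_highest hn
  have h1 : θ0 = δ := by
    have h2 := h0.le δ
    refine h θ0 ?_ h2
    unfold SLC.Pos at hδ ⊢
    omega
  rw [← h1]
  exact h0

private theorem Z11_A3 {σ : GF dA3 k →* GF dA3 k} (h : SRs dA3 tA3 θ σ) (s : k) (hs : s ≠ 0) :
    ∃ x ∈ FT dA3 k ⊓ Esr dA3 σ,
      cA3.chi ((x : GL cA3.Idx k) : Matrix cA3.Idx cA3.Idx k) (cA3.simple 0) = s := by
  obtain ⟨βP, βQ, hr⟩ := B2_roots swap_A3 dA3_m 0 (by decide) (by rfl)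
  have hP : βP.1 = ![1, 1, 0] := by
    rw [hr.hP]
    decide
  have hQ : βQ.1 = ![1, 1, 1] := by
    rw [hr.hQ]
    decide
  have htP : ht βP.1 = 2 := by rw [hP]; decide
  have htQ : ht βQ.1 = 3 := by rw [hQ]; decide
  have hhi : cA3.IsHighest βQ := by
    apply Z11_highest (by norm_num)
    · unfold SLC.Pos
      omega
    · intro β hβ hle
      have hβ' : β ∈ RJ dA3 tA3 0 := ⟨hβ, fun j _ => Z11_JJ_A3 0 j⟩
      rcases (hr.mem β).1 hβ' with h1 | h1 | h1 | h1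
      · have h2 := Z11_ht_cycle _ _ h1
        rw [SLC.ht_simple] at h2
        omega
      · rw [h1, SLC.ht_simple] at hle
        omega
      · have h2 := Z11_ht_cycle _ _ h1
        omega
      · exact h1
  have hfinv : ∀ v, Z11_fA (SLC.lmap dA3.ρ v) = Z11_fA v := by
    intro v
    change v 2 + v 0 - v 1 = v 0 + v 2 - v 1
    ring
  have hent : ∀ v : k, ((((yg swap_A3.na (-βP) v * yg swap_A3.na (-βQ) (θ v) : GF dA3 k)) :
      GL cA3.Idx k) : Matrix cA3.Idx cA3.Idx k) (Sum.inr (-βQ)) (Sum.inr βQ) = (θ v) ^ 2 := by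
    intro v
    refine Z11_entry swap_A3.na Z11_fA hfinv βP βQ ?_ (by omega) ?_ hr.rQ v (θ v)
    · rw [hP]; decide
    · rw [hQ]; decide
  have hmem : ∀ v : k, yg swap_A3.na (-βP) v * yg swap_A3.na (-βQ) (θ v) ∈
      XmJ swap_A3.na tA3 σ 0 := fun v =>
    B2_opp swap_A3 h dA3_m 0 (by decide) (by rfl) βP βQ hr v
  have hz : s * θ.symm s ≠ 0 := by
    apply mul_ne_zero hs
    rw [Ne, map_eq_zero]
    exact hs
  obtain ⟨x, hx, hchi⟩ := tor_ratio swap_A3 h 0 (fun β _ j _ => Z11_JJ_A3 0 j) βQ hhi _ _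
    (hmem (θ.symm (s * θ.symm s))) (hmem 1)
    (by rw [hent, RingEquiv.apply_symm_apply]; exact pow_ne_zero 2 hz)
    (by rw [hent, map_one, one_pow]; exact one_ne_zero)
  rw [hent, hent, map_one, one_pow, div_one, RingEquiv.apply_symm_apply] at hchi
  refine ⟨x, hx, ?_⟩
  have hxT : x ∈ FT dA3 k := hx.1
  have hxs : σ x = x := Esr_le_Fx hx.2
  have hc0 := Z11_chi_ne x hxT (cA3.simple 0)
  rw [Z11_chi_prod x hxT, Fin.prod_univ_three] at hchi
  have e2 : cA3.chi ((x : GL cA3.Idx k) : Matrix cA3.Idx cA3.Idx k) (cA3.simple 2) =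
      cA3.chi ((x : GL cA3.Idx k) : Matrix cA3.Idx cA3.Idx k) (cA3.simple 0) :=
    Z11_chi_rho swap_A3.na x 0
  have e1 : cA3.chi ((x : GL cA3.Idx k) : Matrix cA3.Idx cA3.Idx k) (cA3.simple 1) =
      θ (cA3.chi ((x : GL cA3.Idx k) : Matrix cA3.Idx cA3.Idx k) (cA3.simple 0)) := by
    have h1 := sig_chi_simple swap_A3 h x hxT 0
    rw [hxs] at h1
    unfold th at h1
    rw [if_neg] at h1
    · exact h1
    · intro h2
      rw [Dg.r_simple] at h2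
      have h3 := cA3.simple_injective h2
      revert h3
      decide
  rw [e1, e2, hQ] at hchi
  generalize cA3.chi ((x : GL cA3.Idx k) : Matrix cA3.Idx cA3.Idx k) (cA3.simple 0) = c at hchi hc0 ⊢
  change c ^ (1 : ℤ) * θ c ^ (1 : ℤ) * c ^ (1 : ℤ) = _ at hchi
  rw [zpow_one, zpow_one] at hchi
  have hθs : θ s = (θ.symm s) ^ 2 := by
    have h1 := h.hθ (θ.symm s)
    rw [RingEquiv.apply_symm_apply, dA3_m] at h1
    exact h1
  have hsq : ∀ a : k, θ (θ a) = a ^ 2 := by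
    intro a
    rw [h.hθ, dA3_m]
  -- `d = c / s`
  have hd : (c / s) ^ 2 * θ (c / s) = 1 := by
    rw [map_div₀]
    have hθs0 : θ s ≠ 0 := by rwa [Ne, map_eq_zero]
    rw [div_pow, div_mul_div_comm, div_eq_one_iff_eq (mul_ne_zero (pow_ne_zero 2 hs) hθs0)]
    calc c ^ 2 * θ c = c * θ c * c := by ring
      _ = (s * θ.symm s) ^ 2 := hchi
      _ = s ^ 2 * θ s := by rw [hθs]; ring
  generalize hdd : c / s = d at hd
  have hd' := congrArg θ hd
  rw [map_mul, map_pow, hsq, map_one] at hd'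
  have hd0 : d ≠ 0 := by
    rintro rfl
    rw [zero_pow (by norm_num), zero_mul] at hd
    exact zero_ne_one hd
  have hθd0 : θ d ≠ 0 := by rwa [Ne, map_eq_zero]
  have h5 : θ d = 1 := by
    have h6 : (d ^ 2 * θ d) * θ d = (d ^ 2 * θ d) * 1 := by
      rw [hd]
      calc 1 * θ d = θ d := one_mul _
        _ = (d ^ 2 * θ d) * θ d := by rw [hd, one_mul]
        _ = θ d ^ 2 * d ^ 2 := by ring
        _ = 1 := hd'
        _ = 1 * 1 := (one_mul 1).symm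
    exact mul_left_cancel₀ (mul_ne_zero (pow_ne_zero 2 hd0) hθd0) h6
  have h7 : d = 1 := by
    apply θ.injective
    rw [h5, map_one]
  rw [h7] at hdd
  exact (div_eq_one_iff_eq hs).mp hdd

theorem jhyp_A3 {σ : GF dA3 k →* GF dA3 k} (h : SRs dA3 tA3 θ σ) : JHyp swap_A3 σ 1 where
  N_ne := one_ne_zero
  onto i hi t := onto2 swap_A3 h dA3_m i hi t
  ker i hi x hx h0 := ker2 swap_A3 h dA3_m i hi x hx h0
  opp i := opp2 swap_A3 h dA3_m i
  sep i hi s hs := by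
    obtain ⟨x, hx, hc⟩ := Z11_A3 h s hs
    refine ⟨x, hx, ?_, fun j _ hj => absurd (Z11_JJ_A3 i j) hj⟩
    rw [pow_one]
    have h2 : i = 0 ∨ i = 2 := by
      revert hi
      revert i
      decide
    rcases h2 with rfl | rfl
    · exact hc
    · rw [← hc]
      exact Z11_chi_rho swap_A3.na x 0

private theorem Z11_D4 {σ : GF dD4 k →* GF dD4 k} (h : SRs dD4 tD4 θ σ) (s : k) (hs : s ≠ 0) :
    ∃ x ∈ FT dD4 k ⊓ Esr dD4 σ,
      cD4.chi ((x : GL cD4.Idx k) : Matrix cD4.Idx cD4.Idx k) (cD4.simple 0) = s ^ 2 := by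
  obtain ⟨βP, βQ, βR, βS, hr⟩ := G2_roots
  have htP : ht βP.1 = 2 := by rw [hr.hP]; decide
  have htQ : ht βQ.1 = 3 := by rw [hr.hQ]; decide
  have htR : ht βR.1 = 4 := by rw [hr.hR]; decide
  have htS : ht βS.1 = 5 := by rw [hr.hS]; decide
  have hhi : cD4.IsHighest βS := by
    apply Z11_highest (by norm_num)
    · unfold SLC.Pos
      omega
    · intro β hβ hle
      rcases (hr.mem β).1 hβ with h1 | h1 | h1 | h1 | h1 | h1
      · have h2 := Z11_ht_cycle _ _ h1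
        rw [SLC.ht_simple] at h2
        omega
      · rw [h1, SLC.ht_simple] at hle
        omega
      · have h2 := Z11_ht_cycle _ _ h1
        omega
      · have h2 := Z11_ht_cycle _ _ h1
        omega
      · rw [h1] at hle
        omega
      · exact h1
  have hfinv : ∀ v, Z11_fD (SLC.lmap dD4.ρ v) = Z11_fD v := by
    intro v
    change v 3 + v 0 + v 2 - 2 * v 1 = v 0 + v 2 + v 3 - 2 * v 1
    ring
  obtain ⟨e, he, hmem⟩ := G2_opp h βP βQ βR βS hr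
  have hent : ∀ v : k, ((((yg swap_D4.na (-βQ) v * yg swap_D4.na (-βS) (e * θ v) : GF dD4 k)) :
      GL cD4.Idx k) : Matrix cD4.Idx cD4.Idx k) (Sum.inr (-βS)) (Sum.inr βS) = (θ v) ^ 2 := by
    intro v
    rw [Z11_entry swap_D4.na Z11_fD hfinv βQ βS ?_ (by omega) ?_ hr.rS v (e * θ v)]
    · rcases he with rfl | rfl <;> ring
    · rw [hr.hQ]; decide
    · rw [hr.hS]; decide
  have hθs0 : θ s ≠ 0 := by rwa [Ne, map_eq_zero]
  have hz : s ^ 3 * (θ s) ^ 2 ≠ 0 := mul_ne_zero (pow_ne_zero 3 hs) (pow_ne_zero 2 hθs0)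
  obtain ⟨x, hx, hchi⟩ := tor_ratio swap_D4 h 0 (fun β _ j _ => Z11_JJ_D4 0 j) βS hhi _ _
    (hmem (θ.symm (s ^ 3 * (θ s) ^ 2))) (hmem 1)
    (by rw [hent, RingEquiv.apply_symm_apply]; exact pow_ne_zero 2 hz)
    (by rw [hent, map_one, one_pow]; exact one_ne_zero)
  rw [hent, hent, map_one, one_pow, div_one, RingEquiv.apply_symm_apply] at hchi
  refine ⟨x, hx, ?_⟩
  have hxT : x ∈ FT dD4 k := hx.1
  have hxs : σ x = x := Esr_le_Fx hx.2
  have hc0 := Z11_chi_ne x hxT (cD4.simple 0)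
  rw [Z11_chi_prod x hxT, Fin.prod_univ_four] at hchi
  have e2 : cD4.chi ((x : GL cD4.Idx k) : Matrix cD4.Idx cD4.Idx k) (cD4.simple 2) =
      cD4.chi ((x : GL cD4.Idx k) : Matrix cD4.Idx cD4.Idx k) (cD4.simple 0) :=
    Z11_chi_rho swap_D4.na x 0
  have e3 : cD4.chi ((x : GL cD4.Idx k) : Matrix cD4.Idx cD4.Idx k) (cD4.simple 3) =
      cD4.chi ((x : GL cD4.Idx k) : Matrix cD4.Idx cD4.Idx k) (cD4.simple 0) :=
    (Z11_chi_rho swap_D4.na x 2).trans e2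
  have e1 : cD4.chi ((x : GL cD4.Idx k) : Matrix cD4.Idx cD4.Idx k) (cD4.simple 1) =
      θ (cD4.chi ((x : GL cD4.Idx k) : Matrix cD4.Idx cD4.Idx k) (cD4.simple 0)) := by
    have h1 := sig_chi_simple swap_D4 h x hxT 0
    rw [hxs] at h1
    unfold th at h1
    rw [if_neg] at h1
    · exact h1
    · intro h2
      rw [Dg.r_simple] at h2
      have h3 := cD4.simple_injective h2
      revert h3
      decide
  rw [e1, e2, e3, hr.hS] at hchi
  generalize cD4.chi ((x : GL cD4.Idx k) : Matrix cD4.Idx cD4.Idx k) (cD4.simple 0) = c at hchi hc0 ⊢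
  change c ^ (1 : ℤ) * θ c ^ (2 : ℤ) * c ^ (1 : ℤ) * c ^ (1 : ℤ) = _ at hchi
  rw [zpow_one, zpow_two] at hchi
  have hcu : ∀ a : k, θ (θ a) = a ^ 3 := by
    intro a
    rw [h.hθ, dD4_m]
  have hs2 : s ^ 2 ≠ 0 := pow_ne_zero 2 hs
  have hd : (c / s ^ 2) ^ 3 * θ (c / s ^ 2) ^ 2 = 1 := by
    rw [map_div₀, map_pow]
    rw [div_pow, div_pow, div_mul_div_comm, div_eq_one_iff_eq
      (mul_ne_zero (pow_ne_zero 3 hs2) (pow_ne_zero 2 (pow_ne_zero 2 hθs0)))]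
    calc c ^ 3 * θ c ^ 2 = c * (θ c * θ c) * c * c := by ring
      _ = (s ^ 3 * θ s ^ 2) ^ 2 := hchi
      _ = (s ^ 2) ^ 3 * (θ s ^ 2) ^ 2 := by ring
  generalize hdd : c / s ^ 2 = d at hd
  have hd' := congrArg θ hd
  rw [map_mul, map_pow, map_pow, hcu, map_one] at hd'
  have hd0 : d ≠ 0 := by
    rintro rfl
    rw [zero_pow (by norm_num), zero_mul] at hd
    exact zero_ne_one hd
  have hθd0 : θ d ≠ 0 := by rwa [Ne, map_eq_zero]
  have h5 : θ d = 1 := by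
    have h6 : (θ d ^ 3 * (d ^ 3) ^ 2) * θ d = (θ d ^ 3 * (d ^ 3) ^ 2) * 1 := by
      calc (θ d ^ 3 * (d ^ 3) ^ 2) * θ d = (d ^ 3 * θ d ^ 2) ^ 2 := by ring
        _ = 1 := by rw [hd, one_pow]
        _ = (θ d ^ 3 * (d ^ 3) ^ 2) * 1 := by rw [hd', one_mul]
    exact mul_left_cancel₀ (mul_ne_zero (pow_ne_zero 3 hθd0)
      (pow_ne_zero 2 (pow_ne_zero 3 hd0))) h6
  have h7 : d = 1 := by
    apply θ.injective
    rw [h5, map_one]
  rw [h7] at hdd
  exact (div_eq_one_iff_eq hs2).mp hdd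

theorem jhyp_D4 {σ : GF dD4 k →* GF dD4 k} (h : SRs dD4 tD4 θ σ) : JHyp swap_D4 σ 2 where
  N_ne := two_ne_zero
  onto i hi t := onto3 h i hi t
  ker i hi x hx h0 := ker3 h i hi x hx h0
  opp i := opp3 h i
  sep i hi s hs := by
    obtain ⟨x, hx, hc⟩ := Z11_D4 h s hs
    refine ⟨x, hx, ?_, fun j _ hj => absurd (Z11_JJ_D4 i j) hj⟩
    have h2 : i = 0 ∨ i = 2 ∨ i = 3 := by
      revert hi
      revert i
      decide
    rcases h2 with rfl | rfl | rfl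
    · exact hc
    · rw [← hc]
      exact Z11_chi_rho swap_D4.na x 0
    · rw [← hc]
      exact (Z11_chi_rho swap_D4.na x 2).trans (Z11_chi_rho swap_D4.na x 0)

end Pool.Agent.H86.UM
end
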