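import Pool.Agent.H86.AL.M13
import Pool.Agent.H86.AL.M14
import Pool.Agent.H86.AL.M22
import Pool.Agent.H86.AL.M23
import Pool.Agent.H86.AL.M30
import Pool.Agent.H86.AL.M32

/-!
# M37: collected modules

Pool.Agent.H86.UM.ZL
Pool.Agent.H86.UM.ZM
Pool.Agent.H86.UM.ZW
Pool.Agent.H86.UM.ZW3
-/

section
/- module Pool.Agent.H86.UM.ZL -/
/-!
# Project UM, Suzuki-Ree groups, module ZL: the chamber over the algebraic closure, and over `K`

`S = srcSR hS h hJ`, `Ψ : Esr D σ → GL C.Idx K` with values in `GF D K`, injective, `K` of characteristic `m = char k`.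
`NVp D L c`: nonvanishing property of the target over `L`.

`sr_stage_L`: `Ψ_L = mp (algebraMap K L) ∘ Ψ`, `Γ` the image of `S.U` under `Ψ_L`: in `Gad L`, fixed by
`sgl 1` (`sgl_mp`, `mem_GF_fix`). Unipotent: for `u ∈ FU`: `u - 1` is nilpotent (`Fil_U`, `exists_Fil_eq_zero'`), so
`u ^ (m ^ e) = 1` for large `e` (`CharP`; `(u - 1) ^ (m ^ e) = u ^ (m ^ e) - 1`), so the same for `Ψ_L u`, hence
`(Ψ_L u - 1) ^ (m ^ e) = 0`. `fold_conj` (UK/FG; `0 < n`): `g ∈ GF D L` with `g⁻¹ Γ g ≤ U 1`. For `u ∈ S.U` the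
element `g⁻¹ Ψ_L(u) g` is in `GF D L` and in `U 1`, so in `FU D L`. The word: `icomm x₀ l ≠ 1` in `GF D k`
(elements of `XJ ≤ Esr`), so (injectivity, conjugation) `icomm` of the images is `≠ 1`, `NVp` gives: each `ξ_j` is
nonzero at the image of some member of the word, and each member has some `ξ_j ≠ 0`. A member `x ∈ XJ b` is in
`S.X J`, `J` the class of `b` (`XJ_congr`, `srep_spec`). Hence `nonvan`, `occ` (by `hocc`). `T_le`: `t ∈ S.T`
normalises `S.U`, so `y = g⁻¹ Ψ_L(t) g` satisfies `y⁻¹ γ y ∈ U 1` for `γ` in the image: `upper_of_fix`. The last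
statement: as in `stage_L` (AS1.lean): for `y = g⁻¹ mp σ g` and `u ∈ S.U`, `y⁻¹ (g⁻¹ Ψ_L(u) g) y = mp σ (g⁻¹ Ψ_L(u) g)`
is upper triangular; `upper_of_fix` or `unique_of_Tgt`.

`sr_stage_GF`: `L = AlgebraicClosure K`; `sr_stage_L`, `stage_K`, `sigma_stage` with `θ' = 1` (`NA`).
-/

set_option autoImplicit false
open Matrix

namespace Pool.Agent.H86.UM

open Pool.Agent.H75.UL

variable {n : ℕ} {C : SLC n}

/-- nonvanishing property: commutators of length `c` -/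
def NVp (D : Dg C) (L : Type*) [Field L] (c : ℕ) : Prop :=
  ∀ (g₀ : GF D L) (l : List (GF D L)), (∀ g ∈ g₀ :: l, g ∈ FU D L) → l.length + 1 = c →
    icomm g₀ l ≠ 1 →
    (∀ j, ∃ g ∈ g₀ :: l, C.xi j ((g : GL C.Idx L) : Matrix C.Idx C.Idx L) ≠ 0) ∧
    ∀ g ∈ g₀ :: l, ∃ j, C.xi j ((g : GL C.Idx L) : Matrix C.Idx C.Idx L) ≠ 0

/-- a word of length `c` -/
structure WordS {D : Dg C} {t0 : Fin n → Fin n} (hS : Swap D t0) {k : Type*} [Field k]
    (σ : GF D k →* GF D k) (c : ℕ) : Prop where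
  ex : ∃ (b₀ : Fin n) (bs : List (Fin n)) (x₀ : GF D k) (l : List (GF D k)),
    x₀ ∈ XJ hS.na t0 σ b₀ ∧ List.Forall₂ (fun b x => x ∈ XJ hS.na t0 σ b) bs l ∧
    icomm x₀ l ≠ 1 ∧ l.length + 1 = c ∧ ∀ i, JJ D t0 b₀ i ∨ ∃ b ∈ bs, JJ D t0 b i

private theorem ZL_icomm_map {G H : Type*} [Group G] [Group H] (f : G →* H) (g : G)
    (l : List G) : icomm (f g) (l.map f) = f (icomm g l) := by
  unfold icomm
  induction l generalizing g with
  | nil => rfl
  | cons a l ih =>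
    rw [List.map_cons, List.foldl_cons, List.foldl_cons, ← ih, _root_.map_mul, _root_.map_mul,
      _root_.map_mul, _root_.map_inv, _root_.map_inv]

private theorem ZL_nil_conj {F : Type*} [Field F] (g x : GL C.Idx F)
    (hx : IsNilpotent ((x : Matrix C.Idx C.Idx F) - 1)) :
    IsNilpotent (((g⁻¹ * x * g : GL C.Idx F) : Matrix C.Idx C.Idx F) - 1) := by
  obtain ⟨N, hN⟩ := hx
  refine ⟨N, ?_⟩
  have e : ((g⁻¹ * x * g : GL C.Idx F) : Matrix C.Idx C.Idx F) - 1 =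
      ((g⁻¹ : GL C.Idx F) : Matrix C.Idx C.Idx F) * ((x : Matrix C.Idx C.Idx F) - 1) *
        (g : Matrix C.Idx C.Idx F) := by
    rw [mul_sub, sub_mul, mul_one, Units.inv_mul, Units.val_mul, Units.val_mul]
  rw [e, Units.conj_pow', hN, mul_zero, zero_mul]

private theorem ZL_U_nil {F : Type*} [Field F] (u : GL C.Idx F) (hu : u ∈ (C.adS F).U 1) :
    IsNilpotent ((u : Matrix C.Idx C.Idx F) - 1) := by
  have h1 := C.Fil_U 1 le_rfl u hu
  obtain ⟨m₀, hm₀⟩ := C.exists_Fil_eq_zero' F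
  have hp : ∀ N : ℕ, C.Fil (N : ℤ) (((u : Matrix C.Idx C.Idx F) - 1) ^ N) := by
    intro N
    induction N with
    | zero =>
      rw [pow_zero]
      exact C.Fil_one
    | succ N ih =>
      have h := C.Fil_mul ih h1
      rw [pow_succ]
      push_cast
      exact h
  refine ⟨m₀.toNat, hm₀ _ (C.Fil_mono ?_ (hp _))⟩
  exact Int.self_le_toNat m₀

/-- in characteristic `p` the unipotent matrices are those of order a power of `p` -/
private theorem ZL_unip (hn : 0 < n) {F : Type*} [Field F] (p : ℕ) [Fact p.Prime] [CharP F p]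
    (x : GL C.Idx F) : IsNilpotent ((x : Matrix C.Idx C.Idx F) - 1) ↔ ∃ e : ℕ, x ^ p ^ e = 1 := by
  have hne : Nonempty C.Idx := ⟨Sum.inl ⟨0, hn⟩⟩
  have key : ∀ e : ℕ, ((x : Matrix C.Idx C.Idx F) - 1) ^ p ^ e =
      ((x ^ p ^ e : GL C.Idx F) : Matrix C.Idx C.Idx F) - 1 := by
    intro e
    rw [sub_pow_char_pow_of_commute p e (Commute.one_right (x : Matrix C.Idx C.Idx F)), one_pow,
      Units.val_pow_eq_pow_val]
  constructor
  · rintro ⟨N, hN⟩
    refine ⟨N, ?_⟩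
    have h1 : ((x : Matrix C.Idx C.Idx F) - 1) ^ p ^ N = 0 :=
      pow_eq_zero_of_le (Nat.lt_pow_self (Fact.out (p := p.Prime)).one_lt).le hN
    rw [key] at h1
    exact Units.ext (sub_eq_zero.1 h1)
  · rintro ⟨e, he⟩
    refine ⟨p ^ e, ?_⟩
    rw [key, he, Units.val_one, sub_self]

private theorem ZL_mp_fixU (D : Dg C) {F F' : Type*} [Field F] [Field F'] (f : F →+* F')
    (x : GL C.Idx F) (hx : x ∈ fixU (C.adS F) (D.sgl (RingEquiv.refl F))) :
    C.mp f x ∈ fixU (C.adS F') (D.sgl (RingEquiv.refl F')) := by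
  refine ⟨C.mp_U f 1 x hx.1, ?_⟩
  have h1 : D.sgl (RingEquiv.refl F) x = x := hx.2
  show D.sgl (RingEquiv.refl F') (C.mp f x) = C.mp f x
  rw [← sgl_mp D (RingEquiv.refl F) (RingEquiv.refl F') f (fun t => rfl), h1]

private theorem ZL_mp_fixUm (D : Dg C) {F F' : Type*} [Field F] [Field F'] (f : F →+* F')
    (x : GL C.Idx F) (hx : x ∈ fixUm (C.adS F) (D.sgl (RingEquiv.refl F))) :
    C.mp f x ∈ fixUm (C.adS F') (D.sgl (RingEquiv.refl F')) := by
  have h0 : (C.adS F).Um ≤ ((C.adS F').Um).comap (C.mp f) := by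
    unfold StSys.Um
    rw [Subgroup.closure_le]
    rintro y ⟨β, t, hβ, rfl⟩
    change C.mp f (C.xg F β t) ∈ (C.adS F').Um
    rw [C.mp_xg]
    exact Subgroup.subset_closure ⟨β, f t, hβ, rfl⟩
  refine ⟨h0 hx.1, ?_⟩
  have h1 : D.sgl (RingEquiv.refl F) x = x := hx.2
  show D.sgl (RingEquiv.refl F') (C.mp f x) = C.mp f x
  rw [← sgl_mp D (RingEquiv.refl F) (RingEquiv.refl F') f (fun t => rfl), h1]

private theorem ZL_mp_GF (D : Dg C) {F F' : Type*} [Field F] [Field F'] (f : F →+* F')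
    (x : GL C.Idx F) (hx : x ∈ GF D F) : C.mp f x ∈ GF D F' := by
  have h1 : GF D F ≤ (GF D F').comap (C.mp f) := by
    refine sup_le ?_ ?_
    · intro y hy
      exact Subgroup.mem_sup_left (ZL_mp_fixU D f y hy)
    · intro y hy
      exact Subgroup.mem_sup_right (ZL_mp_fixUm D f y hy)
  exact h1 hx

variable {D : Dg C} {t0 : Fin n → Fin n} (hS : Swap D t0) (hn : 0 < n)
  {k : Type*} [Field k] [Infinite k] {θ : k ≃+* k} {σ : GF D k →* GF D k}
  (h : SRs D t0 θ σ) {N : ℕ} (hJ : JHyp hS σ N) {c : ℕ} (hw : WordS hS σ c)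

include hn hw

theorem sr_stage_L {K L : Type*} [Field K] [Infinite K] [Field L] [Algebra K L]
    [IsAlgClosure K L] [CharP L D.m] (hL : NVp D L c)
    (Ψ : Esr D σ →* GL C.Idx K) (hΨ : ∀ x, Ψ x ∈ GF D K) (hinj : Function.Injective Ψ) :
    ∃ g ∈ C.Gad L, Tgt C (srcSR hS h hJ) (cj ((C.mp (algebraMap K L)).comp Ψ) g) ∧
      ∀ σ₁ : L ≃ₐ[K] L, C.Fil 0 ((g⁻¹ * C.mp (σ₁ : L →+* L) g : GL C.Idx L) :
        Matrix C.Idx C.Idx L) := by
  have hN := hS.na
  have hLc : IsAlgClosed L := IsAlgClosure.isAlgClosed K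
  have hLi : Infinite L := IsAlgClosed.instInfinite
  have hp : Nat.Prime D.m := by
    rcases D.m_cases with h1 | h1 | h1
    · exact absurd h1 hS.m_ne
    · rw [h1]
      exact Nat.prime_two
    · rw [h1]
      exact Nat.prime_three
  have : Fact (Nat.Prime D.m) := ⟨hp⟩
  have : CharP k D.m := h.chr
  obtain ⟨Φ, hΦ0⟩ : ∃ Φ : Esr D σ →* GL C.Idx L, Φ = (C.mp (algebraMap K L)).comp Ψ := ⟨_, rfl⟩
  have hΦ : ∀ x, Φ x = C.mp (algebraMap K L) (Ψ x) := by
    intro x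
    rw [hΦ0]
    rfl
  have hΦF : ∀ x, Φ x ∈ GF D L := by
    intro x
    rw [hΦ]
    exact ZL_mp_GF D _ _ (hΨ x)
  have hΦm : ∀ x, Φ x ∈ C.Gad L := fun x => (mem_GF_fix hN _ (hΦF x)).2
  have hΦs : ∀ x, D.sgl (RingEquiv.refl L) (Φ x) = Φ x := fun x => (mem_GF_fix hN _ (hΦF x)).1
  have hΦi : Function.Injective Φ := by
    intro x y hxy
    rw [hΦ, hΦ] at hxy
    exact hinj (C.mp_injective _ (algebraMap K L).injective hxy)
  have hUmem : ∀ u : Esr D σ, u ∈ (srcSR hS h hJ).U ↔ (u : GF D k) ∈ FU D k := fun u => Iff.rfl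
  have hXmem : ∀ (J : TOrb hS) (u : Esr D σ), u ∈ (srcSR hS h hJ).X J ↔
    (u : GF D k) ∈ XJ hS.na t0 σ (srep hS J) := fun J u => Iff.rfl
  -- unipotent
  have huni : ∀ u ∈ (srcSR hS h hJ).U, IsNilpotent ((Φ u : Matrix C.Idx C.Idx L) - 1) := by
    intro u hu
    have h1 : (((u : GF D k) : GL C.Idx k)) ∈ (C.adS k).U 1 := ((hUmem u).1 hu).1
    obtain ⟨e, he⟩ := (ZL_unip hn D.m _).1 (ZL_U_nil _ h1)
    rw [ZL_unip hn D.m]
    refine ⟨e, ?_⟩
    have h2 : u ^ D.m ^ e = 1 := by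
      apply Subtype.ext
      apply Subtype.ext
      rw [SubmonoidClass.coe_pow, SubmonoidClass.coe_pow, he]
      rfl
    rw [← _root_.map_pow, h2, _root_.map_one]
  obtain ⟨g, hg, hgU⟩ := fold_conj D hN hn (((srcSR hS h hJ).U).map Φ) (by
    rintro _ ⟨x, _, rfl⟩
    exact hΦm x) (by
    rintro _ ⟨x, _, rfl⟩
    exact hΦs x) (by
    rintro _ ⟨x, hx, rfl⟩
    exact huni x hx)
  have hgF : g ∈ GF D L := hg
  obtain ⟨hgs, hgG⟩ := mem_GF_fix hN g hgF
  have hcjF : ∀ x, cj Φ g x ∈ GF D L := by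
    intro x
    rw [cj_apply]
    exact mul_mem (mul_mem (inv_mem hgF) (hΦF x)) hgF
  have hUle : ∀ u ∈ (srcSR hS h hJ).U, cj Φ g u ∈ (C.adS L).U 1 := by
    intro u hu
    rw [cj_apply]
    exact hgU _ (Subgroup.mem_map_of_mem Φ hu)
  -- the homomorphism to `GF D L`
  obtain ⟨Θ, hΘ⟩ : ∃ Θ : Esr D σ →* GF D L, ∀ x, ((Θ x : GF D L) : GL C.Idx L) = cj Φ g x :=
    ⟨(cj Φ g).codRestrict (GF D L) hcjF, fun x => rfl⟩
  have hΘi : Function.Injective Θ := by
    intro x y hxy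
    have h1 : cj Φ g x = cj Φ g y := by rw [← hΘ, ← hΘ, hxy]
    rw [cj_apply, cj_apply] at h1
    exact hΦi (mul_left_cancel (mul_right_cancel h1))
  have hΘU : ∀ u ∈ (srcSR hS h hJ).U, Θ u ∈ FU D L := by
    intro u hu
    show ((Θ u : GF D L) : GL C.Idx L) ∈ fixU (C.adS L) (D.sgl (RingEquiv.refl L))
    refine ⟨?_, (mem_GF_fix hN _ (Θ u).2).1⟩
    rw [hΘ]
    exact hUle u hu
  -- the word
  obtain ⟨b₀, bs, x₀, l, hx₀, hl, hne, hlen, hocc⟩ := hw.ex
  have hXE : ∀ (b : Fin n) (x : GF D k), x ∈ XJ hS.na t0 σ b → x ∈ Esr D σ := fun b x hx =>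
    Subgroup.mem_sup_left ((XJ_le hS b).1 hx)
  have hlb : ∀ x ∈ l, ∃ b ∈ bs, x ∈ XJ hS.na t0 σ b := by
    intro x hx
    obtain ⟨i, hi, rfl⟩ := List.getElem_of_mem hx
    have h1 := hl.length_eq
    exact ⟨bs[i]'(by omega), List.getElem_mem _, hl.get (by omega) hi⟩
  have hbl : ∀ b ∈ bs, ∃ x ∈ l, x ∈ XJ hS.na t0 σ b := by
    intro b hb
    obtain ⟨i, hi, rfl⟩ := List.getElem_of_mem hb
    have h1 := hl.length_eq
    exact ⟨l[i]'(by omega), List.getElem_mem _, hl.get hi (by omega)⟩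
  obtain ⟨x₀', hx₀'⟩ : ∃ x₀' : Esr D σ, (x₀' : GF D k) = x₀ := ⟨⟨x₀, hXE b₀ x₀ hx₀⟩, rfl⟩
  obtain ⟨l', hl'⟩ : ∃ l' : List (Esr D σ), l'.map (Esr D σ).subtype = l := by
    refine ⟨l.attach.map fun x => ⟨x.1, ?_⟩, ?_⟩
    · obtain ⟨b, _, h1⟩ := hlb x.1 x.2
      exact hXE b x.1 h1
    · rw [List.map_map]
      exact List.attach_map_subtype_val l
  have hne' : icomm (Θ x₀') (l'.map Θ) ≠ 1 := by
    rw [ZL_icomm_map]
    intro h1
    rw [← _root_.map_one Θ] at h1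
    have h2 := hΘi h1
    apply hne
    have h3 := ZL_icomm_map (Esr D σ).subtype x₀' l'
    rw [h2, hl', _root_.map_one] at h3
    rw [← hx₀']
    exact h3
  -- members of the word
  have hcl : ∀ (b : Fin n) (x : Esr D σ), (x : GF D k) ∈ XJ hS.na t0 σ b →
      x ∈ (srcSR hS h hJ).X (Quotient.mk (tset hS) b) := by
    intro b x hx
    rw [hXmem]
    have h1 := ((srep_spec hS (Quotient.mk (tset hS) b)).2.2 b).1 rfl
    rw [(XJ_congr hS _ _ h1).1]
    exact hx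
  have hmem : ∀ x ∈ x₀' :: l', ∃ J, x ∈ (srcSR hS h hJ).X J := by
    intro x hx
    rcases List.mem_cons.1 hx with rfl | hx
    · exact ⟨_, hcl b₀ _ (by rw [hx₀']; exact hx₀)⟩
    · have h1 : (x : GF D k) ∈ l := by
        rw [← hl']
        exact List.mem_map_of_mem (f := (Esr D σ).subtype) hx
      obtain ⟨b, _, h2⟩ := hlb _ h1
      exact ⟨_, hcl b x h2⟩
  have hmem' : ∀ i : Fin n, ∃ x ∈ x₀' :: l', x ∈ (srcSR hS h hJ).X (Quotient.mk (tset hS) i) := by
    intro i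
    rcases hocc i with h1 | ⟨b, hb, h1⟩
    · refine ⟨x₀', List.mem_cons_self, hcl i x₀' ?_⟩
      rw [← (XJ_congr hS _ _ h1).1, hx₀']
      exact hx₀
    · obtain ⟨x, hx, h2⟩ := hbl b hb
      rw [← hl'] at hx
      obtain ⟨x', hx', rfl⟩ := List.mem_map.1 hx
      refine ⟨x', List.mem_cons_of_mem _ hx', hcl i x' ?_⟩
      rw [← (XJ_congr hS _ _ h1).1]
      exact h2
  have hlist : ∀ y ∈ Θ x₀' :: l'.map Θ, ∃ x ∈ x₀' :: l', Θ x = y := by
    intro y hy
    rw [← List.map_cons] at hy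
    obtain ⟨x, hx, h1⟩ := List.mem_map.1 hy
    exact ⟨x, hx, h1⟩
  obtain ⟨hnv1, hnv2⟩ := hL (Θ x₀') (l'.map Θ) (by
    intro y hy
    obtain ⟨x, hx, rfl⟩ := hlist y hy
    obtain ⟨J, h1⟩ := hmem x hx
    exact hΘU x ((srcSR hS h hJ).X_le J h1)) (by
    rw [List.length_map, ← hlen, ← hl', List.length_map]) hne'
  have hnv : ∀ j, ∃ J, ∃ x ∈ (srcSR hS h hJ).X J,
      C.xi j (cj Φ g x : Matrix C.Idx C.Idx L) ≠ 0 := by
    intro j
    obtain ⟨y, hy, h1⟩ := hnv1 j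
    obtain ⟨x, hx, rfl⟩ := hlist y hy
    obtain ⟨J, h2⟩ := hmem x hx
    rw [hΘ] at h1
    exact ⟨J, x, h2, h1⟩
  have hocc' : ∀ J, ∃ j, ∃ x ∈ (srcSR hS h hJ).X J,
      C.xi j (cj Φ g x : Matrix C.Idx C.Idx L) ≠ 0 := by
    intro J
    obtain ⟨x, hx, h1⟩ := hmem' (srep hS J)
    rw [(srep_spec hS J).2.1] at h1
    obtain ⟨j, h2⟩ := hnv2 (Θ x) (by
      rw [← List.map_cons]
      exact List.mem_map_of_mem hx)
    rw [hΘ] at h2
    exact ⟨j, x, h1, h2⟩
  have hmemG : ∀ x, cj Φ g x ∈ C.Gad L := fun x => (mem_GF_fix hN _ (hcjF x)).2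
  have hnv' : ∀ j, ∃ γ ∈ (cj Φ g) '' ((srcSR hS h hJ).U : Set (Esr D σ)),
      C.xi j (γ : Matrix C.Idx C.Idx L) ≠ 0 := by
    intro j
    obtain ⟨J, x, hx, h1⟩ := hnv j
    exact ⟨_, ⟨x, (srcSR hS h hJ).X_le J hx, rfl⟩, h1⟩
  have hΓU : ∀ γ ∈ (cj Φ g) '' ((srcSR hS h hJ).U : Set (Esr D σ)), γ ∈ (C.adS L).U 1 := by
    rintro _ ⟨u, hu, rfl⟩
    exact hUle u hu
  have hTle : ∀ t ∈ (srcSR hS h hJ).T, C.Fil 0 (cj Φ g t : Matrix C.Idx C.Idx L) := by
    intro t ht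
    refine upper_of_fix C _ hΓU hnv' _ (hmemG t) ?_
    rintro _ ⟨u, hu, rfl⟩
    rw [← _root_.map_inv, ← _root_.map_mul, ← _root_.map_mul]
    have h1 := (srcSR hS h hJ).T_conj_U t⁻¹ (inv_mem ht) u hu
    rw [inv_inv] at h1
    exact C.Fil_U_zero _ (hUle _ h1)
  rw [← hΦ0]
  refine ⟨g, hgG, ⟨hmemG, hUle, hTle, hnv, hocc'⟩, ?_⟩
  intro σ₁
  refine upper_of_fix C _ hΓU hnv' _ (mul_mem (inv_mem hgG) (C.mp_Gad _ g hgG)) ?_
  rintro _ ⟨u, hu, rfl⟩
  have e : (g⁻¹ * C.mp (σ₁ : L →+* L) g)⁻¹ * cj Φ g u * (g⁻¹ * C.mp (σ₁ : L →+* L) g) =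
      C.mp (σ₁ : L →+* L) (cj Φ g u) := by
    rw [cj_apply, _root_.map_mul, _root_.map_mul, _root_.map_inv, hΦ, C.P3b_mp_fix]
    group
  rw [e, C.mp_val]
  exact C.Fil_map _ (C.Fil_U_zero _ (hUle u hu))

theorem sr_stage_GF {K : Type*} [Field K] [Infinite K] [CharP K D.m]
    (hL : NVp D (AlgebraicClosure K) c)
    (Ψ : Esr D σ →* GL C.Idx K) (hΨ : ∀ x, Ψ x ∈ GF D K) (hinj : Function.Injective Ψ) :
    ∃ g ∈ GF D K, Tgt C (srcSR hS h hJ) (cj Ψ g) ∧
      (∀ x ∈ (srcSR hS h hJ).T, cj Ψ g x ∈ (C.adS K).T) ∧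
      ∃ fib : Fin n → TOrb hS, Fib C (srcSR hS h hJ) (cj Ψ g) fib ∧
        (∀ j, fib (D.ρ j) = fib j) ∧ ∀ x, D.sgl (RingEquiv.refl K) (cj Ψ g x) = cj Ψ g x := by
  have hG : ∀ x, Ψ x ∈ C.Gad K := fun x => (mem_GF_fix hS.na _ (hΨ x)).2
  have hs : ∀ x, D.sgl (RingEquiv.refl K) (Ψ x) = Ψ x := fun x =>
    (mem_GF_fix hS.na _ (hΨ x)).1
  obtain ⟨g, hg, hT, hfix⟩ := sr_stage_L hS hn h hJ hw (L := AlgebraicClosure K) hL Ψ hΨ hinj
  obtain ⟨g₀, hg₀, hT₀, hTT₀, fib, hf⟩ := stage_K C (srcSR hS h hJ) Ψ hG g hg hT hfix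
  obtain ⟨g₁, hg₁, hT₁, hTT₁, hf₁, hρ, hs₁⟩ := sigma_stage C D (srcSR hS h hJ)
    (RingEquiv.refl K) (fun t => Function.iterate_fixed rfl _) (Or.inl hS.na) Ψ hG hs g₀ hg₀
    hT₀ hTT₀ fib hf
  exact ⟨g₁, hg₁, hT₁, hTT₁, fib, hf₁, hρ, hs₁⟩

end Pool.Agent.H86.UM
end

section
/- module Pool.Agent.H86.UM.ZM -/
/-!
# Project UM, Suzuki-Ree groups, module ZM: the `σ'`-stable chamber and the images of the simple root groups

`Ψ : Esr D σ → Esr D σ'` injective, `Ψ₁ x = (Ψ x : GL)`. `sr_stage_sig`: `sr_stage_GF` gives `g ∈ GF D K`. Let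
`y = g⁻¹ σ' g ∈ GF D K`. For `u ∈ S.U`: `y⁻¹ (g⁻¹ Ψ u g) y = σ'(g)⁻¹ Ψ u σ'(g) = σ'(g⁻¹ Ψ u g)` (`σ' (Ψ u) = Ψ u`:
`Esr_le_Fx`), upper triangular (`sig_Fil`, the element is in `GF D K`), and for `x ∈ S.T` it is in the torus
(`sig_FT`). `torus_of_Tgt`: `y ∈ T`. `sig_chamber_SR` (for `σ'`): `g₁ ∈ Esr D σ'`, `b = g₁⁻¹ g` upper
triangular, `b = u t` (`B_split`), `σ' b = b y`, so `u⁻¹ σ'(u) = t y σ'(t)⁻¹ ∈ FT ∩ FU = 1` (`FT_FU`; `sig_FU`,
`sig_FT`), `σ' u = u`, `g₂ = g₁ u ∈ Esr D σ'`, `g = g₂ t`, `cj Ψ₁ g₂ x = t (cj Ψ₁ g x) t⁻¹`. Conjugation with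
a torus element preserves `Tgt` (`xi_conj`, `T_conj_U`), images in `T`, `Fib` (`EX1.lean` has this argument).
`fib (t0 j) = fib j`: for `x ∈ S.X J` the element `y = cj Ψ₁ g₂ x` is in `FU D K`, fixed by `σ'`, so
`ξ_(t0 j)(y) = th (ξ_j y)` (`sig_xi`), nonzero if `ξ_j y ≠ 0`; `Fib.ne`, `Fib.zero`.

`sr_exact`: `fib` is constant on the classes of nodes, so it induces `TOrb → TOrb`, surjective, hence bijective; `π` its
inverse. Let `i, i'` with `mk i' = π (mk i)`, `J = mk i`, so `{j | fib j = J}` is the class of `i'`.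
Positive part: `exists_semiregular'` for `J` and `image_pos`: `cj Ψ₁ g x = lp posList y`, `y β ≠ 0 → Pos β` and `β`
supported on the class of `i'`, so it is in `UR (RJ i')` (`RJ_congr`; a product of root elements), in `FR (RJ i')`
(`UR_fix`, `RJ_closed`), and fixed by `σ'`: in `XJ i'`. Negative part: `image_neg`: for `x ∈ S.X J`:
`cj Ψ₁ g (ν x ν⁻¹) = ν' lp(y) ν'⁻¹` is a product of root elements for the roots `w β`, negative and supported on the
class of `i'`, so in `UR {β | -β ∈ RJ i'}`; `UR_fix_neg`. Every element of `XmJ i` is `ν x ν⁻¹` with `x ∈ XJ i` (`nu_XJ`,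
`nuS_spec`).
-/

set_option autoImplicit false
open Matrix

namespace Pool.Agent.H86.UM

open Pool.Agent.H75.UL

/-- conjugation of the target with an element of the torus -/
private theorem ZM_conj {n : ℕ} {C : SLC n} {ι : Type} {E : Type*} [Group E] {k : Type*} [Field k]
    (S : Src ι E k) {K : Type*} [Field K] (Φ Φ' : E →* GL C.Idx K) (τ : GL C.Idx K)
    (hτ : τ ∈ (C.adS K).T) (hc : ∀ x, Φ' x = τ * Φ x * τ⁻¹) (hT : Tgt C S Φ)
    (hTT : ∀ h ∈ S.T, Φ h ∈ (C.adS K).T) (fib : Fin n → ι) (hf : Fib C S Φ fib) :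
    Tgt C S Φ' ∧ (∀ h ∈ S.T, Φ' h ∈ (C.adS K).T) ∧ Fib C S Φ' fib := by
  have hτG : τ ∈ C.Gad K := by
    rw [← C.gen_adS]
    exact (C.adS K).T_le_gen hτ
  have hτ0 := C.Fil_T τ hτ
  have hcjT : ∀ x ∈ S.T, Φ' x = Φ x := by
    intro x hx
    rw [hc, (C.adS K).T_comm τ _ hτ (hTT x hx)]
    group
  have hxi : ∀ x ∈ S.U, ∀ j, C.xi j (Φ' x : Matrix C.Idx C.Idx K) =
      C.chi (τ : Matrix C.Idx C.Idx K) (C.simple j) *
        C.xi j (Φ x : Matrix C.Idx C.Idx K) := by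
    intro x hx j
    rw [hc]
    exact (C.xi_conj τ (Φ x) hτG hτ0 (hT.U_le x hx) j).2
  have hxine : ∀ x ∈ S.U, ∀ j, C.xi j (Φ x : Matrix C.Idx C.Idx K) ≠ 0 →
      C.xi j (Φ' x : Matrix C.Idx C.Idx K) ≠ 0 := by
    intro x hx j h
    rw [hxi x hx j]
    exact mul_ne_zero (C.chi_ne_zero τ hτG hτ0 _) h
  refine ⟨⟨?_, ?_, ?_, ?_, ?_⟩, ?_, ⟨hf.surj, ?_, ?_, ?_, ?_⟩⟩
  · intro x
    rw [hc]
    exact mul_mem (mul_mem hτG (hT.mem x)) (inv_mem hτG)
  · intro x hx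
    rw [hc]
    exact (C.adS K).T_conj_U 1 τ _ hτ (hT.U_le x hx)
  · intro x hx
    rw [hcjT x hx]
    exact hT.T_le x hx
  · intro j
    obtain ⟨J, x, hx, h⟩ := hT.nonvan j
    exact ⟨J, x, hx, hxine x (S.X_le J hx) j h⟩
  · intro J
    obtain ⟨j, x, hx, h⟩ := hT.occ J
    exact ⟨j, x, hx, hxine x (S.X_le J hx) j h⟩
  · intro x hx
    rw [hcjT x hx]
    exact hTT x hx
  · intro j
    obtain ⟨x, hx, h⟩ := hf.ne j
    exact ⟨x, hx, hxine x (S.X_le _ hx) j h⟩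
  · intro j J hJ x hx
    rw [hxi x (S.X_le _ hx) j, hf.zero j J hJ x hx, mul_zero]
  · intro j h hh ha
    rw [hcjT h hh]
    exact hf.chi_one j h hh ha
  · intro j
    obtain ⟨Φ₁, h1, h2, h3, h4⟩ := hf.poly j
    refine ⟨Φ₁, h1, h2, ?_, h4⟩
    intro h hh s hs ha
    rw [hcjT h hh]
    exact h3 h hh s hs ha

variable {n : ℕ} {C : SLC n} {D : Dg C} {t0 : Fin n → Fin n} (hS : Swap D t0) (hn : 0 < n)
  {k : Type*} [Field k] [Infinite k] {θ : k ≃+* k} {σ : GF D k →* GF D k}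
  (h : SRs D t0 θ σ) {N : ℕ} (hJ : JHyp hS σ N) {c : ℕ} (hw : WordS hS σ c)
  {K : Type*} [Field K] [Infinite K] {θ' : K ≃+* K} {σ' : GF D K →* GF D K}
  (h' : SRs D t0 θ' σ') (hne' : ∀ i, ∃ y ∈ XmJ hS.na t0 σ' i, y ≠ 1)
  (hL : NVp D (AlgebraicClosure K) c) (Ψ : Esr D σ →* Esr D σ')
  (hinj : Function.Injective Ψ)

/-- the inclusion into the matrix group -/
noncomputable def inclE (σ' : GF D K →* GF D K) : Esr D σ' →* GL C.Idx K :=
  (GF D K).subtype.comp (Esr D σ').subtype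

private theorem ZM_lp {n : ℕ} {C : SLC n} {K : Type*} [Field K] (A : Subgroup (GL C.Idx K))
    (y : C.Root → K) (hy : ∀ β, y β ≠ 0 → C.xg K β (y β) ∈ A) :
    (C.adS K).lp C.posList y ∈ A := by
  unfold StSys.lp
  apply Subgroup.list_prod_mem
  intro x hx
  rw [List.mem_map] at hx
  obtain ⟨β, -, rfl⟩ := hx
  by_cases h0 : y β = 0
  · rw [h0, (C.adS K).x_zero]
    exact one_mem _
  · exact hy β h0

include hn hw h' hne' hL hinj

theorem sr_stage_sig : ∃ g : Esr D σ',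
    Tgt C (srcSR hS h hJ) (cj ((inclE σ').comp Ψ) (inclE σ' g)) ∧
      (∀ x ∈ (srcSR hS h hJ).T, cj ((inclE σ').comp Ψ) (inclE σ' g) x ∈ (C.adS K).T) ∧
      ∃ fib : Fin n → TOrb hS,
        Fib C (srcSR hS h hJ) (cj ((inclE σ').comp Ψ) (inclE σ' g)) fib ∧
        (∀ i j, JJ D t0 i j → fib i = fib j) := by
  have hN := hS.na
  have : CharP K D.m := h'.chr
  obtain ⟨S, hSdef⟩ : ∃ S, S = srcSR hS h hJ := ⟨_, rfl⟩
  obtain ⟨Ψ₁, hΨ₁⟩ : ∃ Ψ₁, Ψ₁ = (inclE σ').comp Ψ := ⟨_, rfl⟩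
  have hΨval : ∀ x, Ψ₁ x = (((Ψ x : Esr D σ') : GF D K) : GL C.Idx K) := by
    intro x
    rw [hΨ₁]
    rfl
  obtain ⟨g₀, hg₀, hT, hTT, fib, hf, hfρ, hsgl⟩ := sr_stage_GF hS hn h hJ hw hL Ψ₁
    (fun x => by rw [hΨval]; exact ((Ψ x : Esr D σ') : GF D K).2)
    (by
      intro x y hxy
      rw [hΨval, hΨval] at hxy
      exact hinj (Subtype.ext (Subtype.ext hxy)))
  rw [← hSdef] at hT hTT hf
  rw [← hSdef, ← hΨ₁]
  obtain ⟨G, hG⟩ : ∃ G : GF D K, (G : GL C.Idx K) = g₀ := ⟨⟨g₀, hg₀⟩, rfl⟩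
  have hfix : ∀ x : Esr D σ', σ' (x : GF D K) = x := fun x => Esr_le_Fx x.2
  -- the element of the folded group with matrix `cj Ψ₁ g₀ x`
  have hz : ∀ x, (((G⁻¹ * ((Ψ x : Esr D σ') : GF D K) * G : GF D K)) : GL C.Idx K) =
      cj Ψ₁ g₀ x := by
    intro x
    rw [cj_apply, hΨval, Subgroup.coe_mul, Subgroup.coe_mul, Subgroup.coe_inv, hG]
  obtain ⟨y, hy⟩ : ∃ y : GF D K, y = G⁻¹ * σ' G := ⟨_, rfl⟩
  have hconj : ∀ x, (y : GL C.Idx K)⁻¹ * cj Ψ₁ g₀ x * (y : GL C.Idx K) =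
      ((σ' (G⁻¹ * ((Ψ x : Esr D σ') : GF D K) * G) : GF D K) : GL C.Idx K) := by
    intro x
    rw [← hz, ← Subgroup.coe_inv, ← Subgroup.coe_mul, ← Subgroup.coe_mul]
    apply congrArg
    rw [map_mul, map_mul, map_inv, hfix, hy]
    group
  have hyT : (y : GL C.Idx K) ∈ (C.adS K).T := by
    refine torus_of_Tgt C S (cj Ψ₁ g₀) hT hTT fib hf _ (mem_GF_fix hN _ y.2).2 ?_ ?_
    · intro u hu
      rw [hconj]
      refine (sig_Fil hS h' _).2 ?_
      rw [hz]
      exact C.Fil_U_zero _ (hT.U_le u hu)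
    · intro x hx
      rw [hconj]
      have h1 : (G⁻¹ * ((Ψ x : Esr D σ') : GF D K) * G : GF D K) ∈ FT D K := by
        change ((G⁻¹ * ((Ψ x : Esr D σ') : GF D K) * G : GF D K) : GL C.Idx K) ∈ (C.adS K).T
        rw [hz]
        exact hTT x hx
      exact (sig_FT hS h' _).2 h1
  have hyFT : y ∈ FT D K := hyT
  have hσG : σ' G = G * y := by
    rw [hy]
    group
  obtain ⟨g₁, hg₁, hb⟩ := sig_chamber_SR hS h' hne' G y hσG (C.Fil_T _ hyT)
  obtain ⟨-, t, ht, u, hu, hut⟩ := B_split hN _ hb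
  have hGe : G = g₁ * u * t := by
    rw [mul_assoc, ← hut]
    group
  have hσg₁ : σ' g₁ = g₁ := hfix ⟨g₁, hg₁⟩
  have hσu : σ' u = u := by
    have h1 := hσG
    rw [hGe, map_mul, map_mul, hσg₁] at h1
    have h2 : u⁻¹ * σ' u = t * y * (σ' t)⁻¹ := by
      have h3 : u⁻¹ * σ' u = u⁻¹ * g₁⁻¹ * (g₁ * σ' u * σ' t) * (σ' t)⁻¹ := by group
      rw [h3, h1]
      group
    have h4 : u⁻¹ * σ' u ∈ FT D K := by
      rw [h2]
      exact mul_mem (mul_mem ht hyFT) (inv_mem ((sig_FT hS h' _).2 ht))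
    have h5 : u⁻¹ * σ' u ∈ FU D K := mul_mem (inv_mem hu) ((sig_FU hS h' _).2 hu)
    have h6 := FT_FU hN _ h4 h5
    exact (inv_mul_eq_one.1 h6).symm
  have hg₂ : g₁ * u ∈ Esr D σ' :=
    mul_mem hg₁ ((le_sup_left : FU D K ⊓ Fx σ' ≤ Esr D σ') ⟨hu, hσu⟩)
  have hincl : (inclE σ' ⟨g₁ * u, hg₂⟩ : GL C.Idx K) = ((g₁ * u : GF D K) : GL C.Idx K) := rfl
  have hcj : ∀ x, cj Ψ₁ (inclE σ' ⟨g₁ * u, hg₂⟩) x =
      (t : GL C.Idx K) * cj Ψ₁ g₀ x * (t : GL C.Idx K)⁻¹ := by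
    intro x
    rw [cj_apply, cj_apply, hincl, ← hG, hGe, Subgroup.coe_mul (GF D K) (g₁ * u) t]
    group
  obtain ⟨hT', hTT', hf'⟩ := ZM_conj S (cj Ψ₁ g₀) (cj Ψ₁ (inclE σ' ⟨g₁ * u, hg₂⟩))
    (t : GL C.Idx K) ht hcj hT hTT fib hf
  refine ⟨⟨g₁ * u, hg₂⟩, hT', hTT', fib, hf', ?_⟩
  have hρ : ∀ i j, D.ρ.SameCycle i j → fib i = fib j := by
    intro i j hij
    obtain ⟨q, -, h2⟩ := hij.exists_pow_eq'
    rw [← h2]
    clear h2
    induction q with
    | zero => rfl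
    | succ q ih => rw [pow_succ', Equiv.Perm.mul_apply, hfρ, ih]
  have ht0 : ∀ j, fib (t0 j) = fib j := by
    intro j
    obtain ⟨x, hx, h1⟩ := hf'.ne j
    by_contra hne
    have h2 := hf'.zero (t0 j) (fib j) (fun h => hne h.symm) x hx
    obtain ⟨w, hwdef⟩ : ∃ w : Esr D σ', w = (⟨g₁ * u, hg₂⟩ : Esr D σ')⁻¹ * Ψ x * ⟨g₁ * u, hg₂⟩ :=
      ⟨_, rfl⟩
    have hwv : ((w : GF D K) : GL C.Idx K) = cj Ψ₁ (inclE σ' ⟨g₁ * u, hg₂⟩) x := by
      rw [cj_apply, hwdef, hΨval]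
      rfl
    have hwU : (w : GF D K) ∈ FU D K := by
      change ((w : GF D K) : GL C.Idx K) ∈ fixU (C.adS K) (D.sgl (RingEquiv.refl K))
      refine ⟨?_, (mem_GF_fix hN _ (w : GF D K).2).1⟩
      rw [hwv]
      exact hT'.U_le x (S.X_le _ hx)
    have h3 := sig_xi hS h' (w : GF D K) hwU j
    rw [hfix w, hwv, h2] at h3
    have h4 : th D θ' (C.simple j) (C.xi j (cj Ψ₁ (inclE σ' ⟨g₁ * u, hg₂⟩) x :
        Matrix C.Idx C.Idx K)) ≠ 0 := by
      unfold th
      split_ifs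
      · exact (map_ne_zero θ'.symm).mpr h1
      · exact (map_ne_zero θ').mpr h1
    exact h4 h3.symm
  intro i j hij
  rcases hij with h1 | h1
  · exact hρ i j h1
  · rw [← ht0 i]
    exact hρ _ _ h1

include h hJ in
theorem sr_exact : ∃ (g : Esr D σ') (π : Equiv.Perm (TOrb hS)),
    (∀ i i' : Fin n, (Quotient.mk (tset hS) i' : TOrb hS) = π (Quotient.mk (tset hS) i) →
      (∀ x : Esr D σ, (x : GF D k) ∈ XJ hS.na t0 σ i →
        ((g⁻¹ * Ψ x * g : Esr D σ') : GF D K) ∈ XJ hS.na t0 σ' i') ∧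
      ∀ x : Esr D σ, (x : GF D k) ∈ XmJ hS.na t0 σ i →
        ((g⁻¹ * Ψ x * g : Esr D σ') : GF D K) ∈ XmJ hS.na t0 σ' i') ∧
    ∀ x : Esr D σ, (x : GF D k) ∈ FT D k →
      ((g⁻¹ * Ψ x * g : Esr D σ') : GF D K) ∈ FT D K := by
  classical
  obtain ⟨g, hT, hTT, fib, hf, hfib⟩ := sr_stage_sig hS hn h hJ hw h' hne' hL Ψ hinj
  have hN := hS.na
  have hfix : ∀ x : Esr D σ', ((x : Esr D σ') : GF D K) ∈ Fx σ' := fun x => Esr_le_Fx x.2
  have hval : ∀ x : Esr D σ, (((g⁻¹ * Ψ x * g : Esr D σ') : GF D K) : GL C.Idx K) =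
      cj ((inclE σ').comp Ψ) (inclE σ' g) x := by
    intro x
    rw [cj_apply]
    rfl
  let F : TOrb hS → TOrb hS := Quotient.lift fib hfib
  have hFmk : ∀ j, F (Quotient.mk (tset hS) j) = fib j := fun j => rfl
  have hFs : Function.Surjective F := by
    intro J
    obtain ⟨j, hj⟩ := hf.surj J
    exact ⟨Quotient.mk (tset hS) j, hj⟩
  have hFin : Finite (TOrb hS) := inferInstance
  have hFb : Function.Bijective F := ⟨Finite.injective_iff_surjective.mpr hFs, hFs⟩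
  refine ⟨g, (Equiv.ofBijective F hFb).symm, ?_, ?_⟩
  · intro i i' hii
    obtain ⟨J, hJdef⟩ : ∃ J : TOrb hS, J = Quotient.mk (tset hS) i := ⟨_, rfl⟩
    have hfi : fib i' = J := by
      rw [← hFmk i', hii, hJdef]
      exact (Equiv.ofBijective F hFb).apply_symm_apply _
    have hcls : ∀ j, fib j = J → JJ D t0 i' j := by
      intro j hj
      have h1 : F (Quotient.mk (tset hS) i') = F (Quotient.mk (tset hS) j) := by
        rw [hFmk, hFmk, hj, hfi]
      have h2 : (Quotient.mk (tset hS) i' : TOrb hS) = Quotient.mk (tset hS) j := hFb.1 h1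
      exact Quotient.exact h2
    have hRJ : ∀ β : C.Root, C.Pos β → (∀ j, fib j ≠ J → β.1 j = 0) → β ∈ RJ D t0 i' := by
      intro β hβ h1
      refine ⟨hβ, fun j hj => hcls j ?_⟩
      by_contra h2
      exact hj (h1 j h2)
    have hsi : JJ D t0 (srep hS J) i := ((srep_spec hS J).2.2 i).1 hJdef.symm
    have hXc := XJ_congr hS (σ := σ) (srep hS J) i hsi
    obtain ⟨hcl1, -, hcl3, -⟩ := RJ_closed (t0 := t0) (D := D) i'
    constructor
    · intro x hx
      have hxX : x ∈ (srcSR hS h hJ).X J := by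
        change (x : GF D k) ∈ XJ hS.na t0 σ (srep hS J)
        rw [hXc.1]
        exact hx
      obtain ⟨t, ht, ht1, hsemi⟩ := exists_semiregular' C _ _ hT fib hf J
      obtain ⟨y, hy1, hy2⟩ := image_pos C _ _ hT fib hTT J t ht ht1 hsemi x hxX
      refine ⟨?_, hfix _⟩
      refine (UR_fix hN hcl1 hcl3 _).1 ?_
      rw [hval, hy1]
      apply ZM_lp
      intro β hβ
      exact Subgroup.subset_closure ⟨β, hRJ β (hy2 β hβ).1 (hy2 β hβ).2, y β, rfl⟩
    · intro x hx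
      obtain ⟨ν', -, w, -, hact, hw2, hx'⟩ := image_neg C _ _ hT fib hf hTT J
      obtain ⟨ν, hνdef⟩ : ∃ ν, ν = (srcSR hS h hJ).ν J := ⟨_, rfl⟩
      have hνval : (ν : GF D k) = nuS hS h hJ (srep hS J) := by
        rw [hνdef]
        rfl
      have hx1 : ν⁻¹ * x * ν ∈ (srcSR hS h hJ).X J := by
        change ((ν⁻¹ * x * ν : Esr D σ) : GF D k) ∈ XJ hS.na t0 σ (srep hS J)
        obtain ⟨h1, h2, h3, w1, hw1, hI, ha⟩ := nuS_spec hS h hJ (srep hS J)
        refine (nu_XJ hS h (srep hS J) (ν : GF D k) (by rw [hνval]; exact h1)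
          (by rw [hνval]; exact h3) w1 hw1 hI (by rw [hνval]; exact ha) _).1.2 ?_
        have e1 : (ν : GF D k) * ((ν⁻¹ * x * ν : Esr D σ) : GF D k) * (ν : GF D k)⁻¹ = x := by
          rw [Subgroup.coe_mul, Subgroup.coe_mul, Subgroup.coe_inv]
          group
        rw [e1, hXc.2]
        exact hx
      obtain ⟨y, hy1, hy2⟩ := hx' _ hx1
      have e2 : (srcSR hS h hJ).ν J * (ν⁻¹ * x * ν) * ((srcSR hS h hJ).ν J)⁻¹ = x := by
        rw [hνdef]
        group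
      rw [e2] at hy1
      refine ⟨?_, hfix _⟩
      refine (UR_fix_neg hN hcl1 hcl3 _).1 ?_
      rw [hval, hy1]
      have h5 : (C.adS K).lp C.posList y ∈
          (UR C K {β | -β ∈ RJ D t0 i'}).comap (MulAut.conj ν').toMonoidHom := by
        apply ZM_lp
        intro β hβ
        change ν' * C.xg K β (y β) * ν'⁻¹ ∈ UR C K {β | -β ∈ RJ D t0 i'}
        obtain ⟨cc, -, hcc⟩ := hact
        have h6 := hcc β (y β)
        rw [SLC.adS_x] at h6
        rw [h6]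
        refine Subgroup.subset_closure ⟨w β, ?_, _, rfl⟩
        obtain ⟨h7, h8⟩ := hw2 β (hy2 β hβ).1 (hy2 β hβ).2
        refine hRJ (-(w β)) ((C.not_pos_iff _).1 h7) fun j hj => ?_
        rw [SLC.Root.neg_val, Pi.neg_apply, h8 j hj, neg_zero]
      exact h5
  · intro x hx
    change (((g⁻¹ * Ψ x * g : Esr D σ') : GF D K) : GL C.Idx K) ∈ (C.adS K).T
    rw [hval]
    exact hTT x hx

end Pool.Agent.H86.UM
end

section
/- module Pool.Agent.H86.UM.ZW -/
/-!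
# Project UM, Suzuki-Ree groups, module ZW: words

`icomm_ne_one'`: the proof of `icomm_ne_one` in W1.lean does not use that `l.length + 1` is the height of the highest
root; copy it (with the private lemmas `W1_Hom_..`, `W1_eq_zero`).

`exists_word_sr`: `ind D b` is the indicator vector of the cycle of `b`. Let `V b` be the set of the vectors
`(ξ_j x)_j` for `x ∈ XJ b`. For `x ∈ XJ i`, `i` short, `ξ_i x = t`: `ξ_j x = t` for `j` in the cycle of `i`
(`xi_sgl` with `θ = 1`), `ξ_(t0 i) x = θ t` (`sig_xi`, `σ x = x`), `ξ_j x = 0` for `j` outside `JJ i`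
(`FR (RJ i)`: generators, `xi_yg`). As all `t` occur (`hon`), `ind D i` and `ind D (t0 i)` are in the span of
`V i = V (t0 i)` (`XJ_congr`): take `t = 1` and a `t` with `θ t ≠ t` (exists since `θ (θ t) = t ^ m`, `m = 2, 3`, and
`k` is infinite). `ld x = vm (ξ_j x)_j` (definition). `iad A l` is multilinear in `A` and the members of `l`
(private lemmas `W1_iad_add`, `W1_iad_smul`, `W1_exists`, `W1_replace` in W1.lean): if it is nonzero for the
`vm (ind D b)` then it is nonzero for some choice of elements of `V b`: replace one vector after the other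
(if a linear function is nonzero at a vector of a span, then at one of the generators). Then `icomm_ne_one'`
(`x ∈ FU`, so in `U 1`), and `icomm` is compatible with the inclusion `GF D k → GL`.
-/

set_option autoImplicit false
open Matrix

namespace Pool.Agent.H86.UM

open Pool.Agent.H75.UL

variable {n : ℕ} {C : SLC n}

section
open Pool.Agent.H75.UL.SLC
variable (C)

private theorem ZW_iad_add {ι R : Type*} [Fintype ι] [CommRing R] (l : List (Matrix ι ι R))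
    (A B : Matrix ι ι R) : iad (A + B) l = iad A l + iad B l := by
  induction l generalizing A B with
  | nil => rfl
  | cons M l ih =>
    have h1 : ∀ D : Matrix ι ι R, iad D (M :: l) = iad (M * D - D * M) l := fun D => rfl
    rw [h1, h1, h1, ← ih]
    congr 1
    rw [mul_add, add_mul]
    abel

private theorem ZW_iad_smul {ι R : Type*} [Fintype ι] [CommRing R] (l : List (Matrix ι ι R))
    (c : R) (A : Matrix ι ι R) : iad (c • A) l = c • iad A l := by
  induction l generalizing A with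
  | nil => rfl
  | cons M l ih =>
    have h1 : ∀ D : Matrix ι ι R, iad D (M :: l) = iad (M * D - D * M) l := fun D => rfl
    rw [h1, h1, ← ih]
    congr 1
    rw [mul_smul_comm, smul_mul_assoc, smul_sub]

private theorem ZW_vm_add {k : Type*} [Field k] (v w : Fin n → k) :
    vm C (v + w) = vm C v + vm C w := by
  unfold vm
  rw [← Finset.sum_add_distrib]
  exact Finset.sum_congr rfl fun j _ => by rw [Pi.add_apply, add_smul]

private theorem ZW_vm_smul {k : Type*} [Field k] (c : k) (v : Fin n → k) :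
    vm C (c • v) = c • vm C v := by
  unfold vm
  rw [Finset.smul_sum]
  exact Finset.sum_congr rfl fun j _ => by rw [Pi.smul_apply, smul_eq_mul, mul_smul]

private def ZW_Hom {R : Type*} [CommRing R] (m : ℤ) (M : Matrix C.Idx C.Idx R) : Prop :=
  ∀ a b, C.hti a ≠ C.hti b + m → M a b = 0

private theorem ZW_Hom_mul {R : Type*} [CommRing R] {m k : ℤ} {M N : Matrix C.Idx C.Idx R}
    (hM : ZW_Hom C m M) (hN : ZW_Hom C k N) : ZW_Hom C (m + k) (M * N) := by
  intro a b hab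
  rw [Matrix.mul_apply]
  refine Finset.sum_eq_zero fun c _ => ?_
  by_cases h : C.hti a = C.hti c + m
  · rw [hN c b (by omega), mul_zero]
  · rw [hM a c h, zero_mul]

private theorem ZW_Hom_sub {R : Type*} [CommRing R] {m : ℤ} {M N : Matrix C.Idx C.Idx R}
    (hM : ZW_Hom C m M) (hN : ZW_Hom C m N) : ZW_Hom C m (M - N) := by
  intro a b hab
  rw [Matrix.sub_apply, hM a b hab, hN a b hab, sub_zero]

private theorem ZW_Hom_E (R : Type*) [CommRing R] (α : C.Root) :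
    ZW_Hom C (ht α.1) ((C.E α).map (Int.cast : ℤ → R)) := by
  intro a b hab
  rw [Matrix.map_apply]
  have h : C.E α a b = 0 := by
    rcases a with i | γ <;> rcases b with j | β
    · rfl
    · simp only [E]
      rw [if_neg]
      intro h
      simp only [hti, Sum.elim_inl, Sum.elim_inr] at hab
      rw [h, ht_neg] at hab
      omega
    · simp only [E]
      rw [if_neg]
      intro h
      simp only [hti, Sum.elim_inl, Sum.elim_inr] at hab
      rw [h] at hab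
      omega
    · simp only [E]
      rw [if_neg]
      intro h
      simp only [hti, Sum.elim_inr] at hab
      rw [h, ht_add] at hab
      omega
  rw [h, Int.cast_zero]

private theorem ZW_Hom_ld {K : Type*} [Field K] (M : Matrix C.Idx C.Idx K) :
    ZW_Hom C 1 (C.ld M) := by
  intro a b hab
  unfold ld
  rw [Matrix.sum_apply]
  refine Finset.sum_eq_zero fun j _ => ?_
  have h1 := ZW_Hom_E C K (C.simple j)
  rw [C.ht_simple] at h1
  rw [Matrix.smul_apply, h1 a b hab, smul_zero]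

private theorem ZW_Hom_iad {K : Type*} [Field K] (l : List (Matrix C.Idx C.Idx K))
    (hl : ∀ B ∈ l, ZW_Hom C 1 B) (m : ℤ) (A : Matrix C.Idx C.Idx K) (hA : ZW_Hom C m A) :
    ZW_Hom C (m + l.length) (iad A l) := by
  induction l generalizing m A with
  | nil => simpa [iad] using hA
  | cons B l ih =>
    have hB := hl B List.mem_cons_self
    have h1 : ZW_Hom C (m + 1) (B * A - A * B) := by
      refine ZW_Hom_sub C ?_ (ZW_Hom_mul C hA hB)
      have h2 := ZW_Hom_mul C hB hA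
      rwa [add_comm 1 m] at h2
    have h2 := ih (fun B' hB' => hl B' (List.mem_cons_of_mem _ hB')) (m + 1) _ h1
    have e : iad A (B :: l) = iad (B * A - A * B) l := rfl
    have e2 : m + (((B :: l).length : ℕ) : ℤ) = m + 1 + (l.length : ℤ) := by
      rw [List.length_cons]
      push_cast
      ring
    rw [e, e2]
    exact h2

private theorem ZW_eq_zero {R : Type*} [CommRing R] {m : ℤ} {M : Matrix C.Idx C.Idx R}
    (hM : ZW_Hom C m M) (hF : C.Fil (m + 1) M) : M = 0 := by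
  ext a b
  rw [Matrix.zero_apply]
  by_cases h : C.hti a = C.hti b + m
  · exact hF a b (by omega)
  · exact hM a b h


end

theorem icomm_ne_one' {k : Type*} [Field k] (g : GL C.Idx k) (l : List (GL C.Idx k))
    (hg : g ∈ (C.adS k).U 1) (hl : ∀ h ∈ l, h ∈ (C.adS k).U 1)
    (h : iad (C.ld (g : Matrix C.Idx C.Idx k))
      (l.map fun h => C.ld (h : Matrix C.Idx C.Idx k)) ≠ 0) : icomm g l ≠ 1 := by
  intro h1
  apply h
  have hg2 : C.Fil (1 + 1) ((g : Matrix C.Idx C.Idx k) - 1 - C.ld (g : Matrix C.Idx C.Idx k)) :=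
    C.lead_U g hg
  have h2 := (C.icomm_lead g l 1 le_rfl _ (C.Fil_ld _) hg2 hl).2
  rw [h1, Units.val_one, sub_self, zero_sub] at h2
  have h3 := C.Fil_neg h2
  rw [neg_neg] at h3
  have h4 := ZW_Hom_iad C (l.map fun h => C.ld (h : Matrix C.Idx C.Idx k))
    (by
      intro B hB
      obtain ⟨x, _, rfl⟩ := List.mem_map.1 hB
      exact ZW_Hom_ld C _) 1 (C.ld (g : Matrix C.Idx C.Idx k)) (ZW_Hom_ld C _)
  rw [List.length_map] at h4
  have h5 : ∀ l : List (GL C.Idx k),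
      (l >>= fun a => pure (a : Matrix C.Idx C.Idx k)).length = l.length := by
    intro l
    simp
  rw [h5] at h4
  exact ZW_eq_zero C h4 h3

open Classical in
/-- the indicator vector of a cycle of nodes -/
noncomputable def ind (D : Dg C) (k : Type*) [Field k] (b : Fin n) : Fin n → k :=
  fun j => if D.ρ.SameCycle b j then 1 else 0

/-- a linear function which is not zero at a vector of a span is not zero at a generator -/
private theorem ZW_exists {k M : Type*} [Field k] [AddCommGroup M] [Module k M]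
    (f : (Fin n → k) → M) (hadd : ∀ v w, f (v + w) = f v + f w)
    (hsmul : ∀ (c : k) v, f (c • v) = c • f v)
    (G : Set (Fin n → k)) (v : Fin n → k) (h1 : v ∈ Submodule.span k G) (hv : f v ≠ 0) :
    ∃ w ∈ G, f w ≠ 0 := by
  by_contra hcon
  push Not at hcon
  apply hv
  clear hv
  induction h1 using Submodule.span_induction with
  | mem x hx => exact hcon x hx
  | zero =>
    have h := hsmul 0 0
    rwa [zero_smul, zero_smul] at h
  | add x y _ _ hx hy => rw [hadd, hx, hy, add_zero]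
  | smul c x _ hx => rw [hsmul, hx, smul_zero]

/-- the vector of an element -/
private noncomputable def ZW_vec (D : Dg C) {k : Type*} [Field k] (x : GF D k) : Fin n → k :=
  fun j => C.xi j ((x : GL C.Idx k) : Matrix C.Idx C.Idx k)

private theorem ZW_ld (D : Dg C) {k : Type*} [Field k] (x : GF D k) :
    vm C (ZW_vec D x) = C.ld ((x : GL C.Idx k) : Matrix C.Idx C.Idx k) := rfl

/-- the coordinates of the elements of `FR (RJ i)` -/
private theorem ZW_FR {D : Dg C} {t0 : Fin n → Fin n} (hS : Swap D t0)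
    {k : Type*} [Field k] [Infinite k] (b : Fin n) (x : GF D k)
    (hx : x ∈ FR hS.na k (RJ D t0 b)) :
    (∀ i j, D.ρ.SameCycle i j → ZW_vec D x i = ZW_vec D x j) ∧
      ∀ j, ¬ JJ D t0 b j → ZW_vec D x j = 0 := by
  have hle : FR hS.na k (RJ D t0 b) ≤ FU D k := by
    rw [FU_FR hS.na]
    exact FR_mono hS.na fun β hβ => hβ.1
  have hone : ∀ j, ZW_vec D (1 : GF D k) j = 0 := by
    intro j
    unfold ZW_vec
    rw [Subgroup.coe_one, Units.val_one]
    exact C.xi_one j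
  have hmul : ∀ x y : GF D k, x ∈ FU D k → y ∈ FU D k → ∀ j,
      ZW_vec D (x * y) j = ZW_vec D x j + ZW_vec D y j := by
    intro x y hx hy j
    unfold ZW_vec
    rw [Subgroup.coe_mul]
    exact C.xi_mul j _ _ hx.1 hy.1
  have hinv : ∀ x : GF D k, x ∈ FU D k → ∀ j, ZW_vec D (x⁻¹) j = - ZW_vec D x j := by
    intro x hx j
    unfold ZW_vec
    rw [Subgroup.coe_inv]
    exact C.xi_inv j _ hx.1
  unfold FR at hx
  induction hx using Subgroup.closure_induction with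
  | mem g hg =>
    obtain ⟨β, hβ, t, rfl⟩ := hg
    constructor
    · intro i j hij
      by_cases hc : ∃ l, β = C.simple l ∧ D.ρ.SameCycle l i
      · have h1 := (xi_yg hS.na i β hβ.1 t).1 hc
        obtain ⟨l, hl, hl'⟩ := hc
        have h2 := (xi_yg hS.na j β hβ.1 t).1 ⟨l, hl, hl'.trans hij⟩
        unfold ZW_vec
        rw [h1, h2]
      · have h1 := (xi_yg hS.na i β hβ.1 t).2 hc
        have h2 := (xi_yg hS.na j β hβ.1 t).2 (by
          rintro ⟨l, hl, hl'⟩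
          exact hc ⟨l, hl, hl'.trans hij.symm⟩)
        unfold ZW_vec
        rw [h1, h2]
    · intro j hj
      apply (xi_yg hS.na j β hβ.1 t).2
      rintro ⟨l, hl, hl'⟩
      apply hj
      have h3 : JJ D t0 b l := by
        apply hβ.2
        rw [hl, SLC.simple_val, Pi.single_eq_same]
        exact one_ne_zero
      exact JJ_trans hS _ _ _ h3 (Or.inl hl')
  | one => exact ⟨fun i j _ => by rw [hone, hone], fun j _ => hone j⟩
  | mul x y hx' hy' hx hy =>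
    have h1 := hmul x y (hle hx') (hle hy')
    constructor
    · intro i j hij
      rw [h1, h1, hx.1 i j hij, hy.1 i j hij]
    · intro j hj
      rw [h1, hx.2 j hj, hy.2 j hj, add_zero]
  | inv x hx' hx =>
    have h1 := hinv x (hle hx')
    constructor
    · intro i j hij
      rw [h1, h1, hx.1 i j hij]
    · intro j hj
      rw [h1, hx.2 j hj, neg_zero]

/-- there is an element which is not fixed by `θ` -/
private theorem ZW_theta {D : Dg C} {t0 : Fin n → Fin n} (hS : Swap D t0)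
    {k : Type*} [Field k] [Infinite k] {θ : k ≃+* k} {σ : GF D k →* GF D k}
    (h : SRs D t0 θ σ) : ∃ t : k, θ t ≠ t := by
  by_contra hcon
  push Not at hcon
  have h1 : ∀ t : k, t ^ D.m = t := by
    intro t
    rw [← h.hθ, hcon, hcon]
  have h2 : (Polynomial.X ^ D.m : Polynomial k) = Polynomial.X := by
    apply Polynomial.funext
    intro r
    rw [Polynomial.eval_pow, Polynomial.eval_X, h1]
  have h3 := congrArg Polynomial.natDegree h2
  rw [Polynomial.natDegree_X_pow, Polynomial.natDegree_X] at h3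
  exact hS.m_ne h3

private theorem ZW_short {D : Dg C} {t0 : Fin n → Fin n} (hS : Swap D t0)
    {k : Type*} [Field k] [Infinite k] {θ : k ≃+* k} {σ : GF D k →* GF D k}
    (h : SRs D t0 θ σ)
    (hon : ∀ i, D.ρ i ≠ i → ∀ t : k, ∃ x ∈ XJ hS.na t0 σ i,
      C.xi i ((x : GL C.Idx k) : Matrix C.Idx C.Idx k) = t) (b : Fin n) (hb : D.ρ b ≠ b) :
    ind D k b ∈ Submodule.span k {v | ∃ x ∈ XJ hS.na t0 σ b, v = ZW_vec D x} ∧
    ind D k (t0 b) ∈ Submodule.span k {v | ∃ x ∈ XJ hS.na t0 σ b, v = ZW_vec D x} := by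
  have key : ∀ t : k, t • ind D k b + θ t • ind D k (t0 b) ∈
      Submodule.span k {v | ∃ x ∈ XJ hS.na t0 σ b, v = ZW_vec D x} := by
    intro t
    obtain ⟨x, hx, ht⟩ := hon b hb t
    have hU := ((XJ_le hS b).1 hx).1
    have hfr := ZW_FR hS b x hx.1
    have hs := sig_xi hS h x hU b
    rw [(mem_Fx σ x).1 hx.2, ht] at hs
    have hth : th D θ (C.simple b) t = θ t := by
      unfold th
      rw [if_neg]
      rw [D.r_simple]
      intro h1
      exact hb (C.simple_injective h1)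
    rw [hth] at hs
    apply Submodule.subset_span
    refine ⟨x, hx, ?_⟩
    funext j
    have hnc : ¬ D.ρ.SameCycle b (t0 b) := by
      intro h1
      have h2 : D.ρ (t0 b) = t0 b := (hS.fix_iff b).2 hb
      have h3 : D.ρ.SameCycle (t0 b) b := h1.symm
      obtain ⟨z, hz⟩ := h3
      rw [Equiv.Perm.zpow_apply_eq_self_of_apply_eq_self h2] at hz
      rw [hz] at h2
      exact hb h2
    simp only [Pi.add_apply, Pi.smul_apply, smul_eq_mul, ind]
    by_cases h1 : D.ρ.SameCycle b j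
    · have h2 : ¬ D.ρ.SameCycle (t0 b) j := fun h3 => hnc (h1.trans h3.symm)
      rw [if_pos h1, if_neg h2, ← hfr.1 b j h1, mul_one, mul_zero, add_zero]
      exact ht.symm
    · by_cases h2 : D.ρ.SameCycle (t0 b) j
      · rw [if_neg h1, if_pos h2, ← hfr.1 _ j h2, mul_one, mul_zero, zero_add]
        exact hs.symm
      · rw [if_neg h1, if_neg h2, hfr.2 j (fun h3 => h3.elim h1 h2), mul_zero, mul_zero, add_zero]
  obtain ⟨t, ht⟩ := ZW_theta hS h
  have h1 := key 1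
  have h2 := key t
  rw [map_one, one_smul, one_smul] at h1
  have h3 := Submodule.sub_mem _ h2 (Submodule.smul_mem _ t h1)
  have h4 : t • ind D k b + θ t • ind D k (t0 b) - t • (ind D k b + ind D k (t0 b)) =
      (θ t - t) • ind D k (t0 b) := by
    rw [smul_add, sub_smul]
    abel
  rw [h4] at h3
  have h5 : ind D k (t0 b) ∈
      Submodule.span k {v | ∃ x ∈ XJ hS.na t0 σ b, v = ZW_vec D x} := by
    have h6 := Submodule.smul_mem _ (θ t - t)⁻¹ h3
    rwa [smul_smul, inv_mul_cancel₀ (sub_ne_zero.2 ht), one_smul] at h6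
  refine ⟨?_, h5⟩
  have h7 := Submodule.sub_mem _ h1 h5
  rwa [add_sub_cancel_right] at h7

private theorem ZW_span {D : Dg C} {t0 : Fin n → Fin n} (hS : Swap D t0)
    {k : Type*} [Field k] [Infinite k] {θ : k ≃+* k} {σ : GF D k →* GF D k}
    (h : SRs D t0 θ σ)
    (hon : ∀ i, D.ρ i ≠ i → ∀ t : k, ∃ x ∈ XJ hS.na t0 σ i,
      C.xi i ((x : GL C.Idx k) : Matrix C.Idx C.Idx k) = t) (b : Fin n) :
    ind D k b ∈ Submodule.span k {v | ∃ x ∈ XJ hS.na t0 σ b, v = ZW_vec D x} := by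
  by_cases hb : D.ρ b = b
  · have h1 : D.ρ (t0 b) ≠ t0 b := by
      intro h2
      exact (hS.fix_iff b).1 h2 hb
    have h2 := (ZW_short hS h hon (t0 b) h1).2
    have h3 : ind D k (t0 (t0 b)) = ind D k b := by
      funext j
      have h4 : D.ρ.SameCycle (t0 (t0 b)) j ↔ D.ρ.SameCycle b j :=
        ⟨fun h5 => (hS.inv b).trans h5, fun h5 => (hS.inv b).symm.trans h5⟩
      simp only [ind, h4]
    have h4 : XJ hS.na t0 σ b = XJ hS.na t0 σ (t0 b) :=
      (XJ_congr hS b (t0 b) (Or.inr (Equiv.Perm.SameCycle.refl _ _))).1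
    rw [h3] at h2
    rw [h4]
    exact h2
  · exact (ZW_short hS h hon b hb).1

private theorem ZW_replace {D : Dg C} {t0 : Fin n → Fin n} (hS : Swap D t0)
    {k : Type*} [Field k] [Infinite k] {θ : k ≃+* k} {σ : GF D k →* GF D k}
    (h : SRs D t0 θ σ)
    (hon : ∀ i, D.ρ i ≠ i → ∀ t : k, ∃ x ∈ XJ hS.na t0 σ i,
      C.xi i ((x : GL C.Idx k) : Matrix C.Idx C.Idx k) = t) (bs : List (Fin n))
    (A : Matrix C.Idx C.Idx k)
    (hb : iad A (bs.map fun b => vm C (ind D k b)) ≠ 0) :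
    ∃ l : List (GF D k), List.Forall₂ (fun b x => x ∈ XJ hS.na t0 σ b) bs l ∧
      iad A (l.map fun x => vm C (ZW_vec D x)) ≠ 0 := by
  induction bs generalizing A with
  | nil => exact ⟨[], List.Forall₂.nil, hb⟩
  | cons b bs ih =>
    obtain ⟨l, hl, hne⟩ := ih (vm C (ind D k b) * A - A * vm C (ind D k b)) hb
    obtain ⟨w, ⟨x, hx, rfl⟩, hwne⟩ := ZW_exists
      (fun w => iad (vm C w * A - A * vm C w) (l.map fun x => vm C (ZW_vec D x)))
      (by
        intro x y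
        rw [← ZW_iad_add, ZW_vm_add]
        congr 1
        rw [mul_add, add_mul]
        abel)
      (by
        intro c x
        rw [← ZW_iad_smul, ZW_vm_smul]
        congr 1
        rw [mul_smul_comm, smul_mul_assoc, smul_sub])
      _ _ (ZW_span hS h hon b) hne
    exact ⟨x :: l, List.Forall₂.cons hx hl, hwne⟩

private theorem ZW_bind.{v} {α β : Type v} (f : α → β) (l : List α) :
    (l >>= fun a => pure (f a)) = l.map f := by
  induction l with
  | nil => rfl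
  | cons x l ih =>
    rw [List.map_cons, ← ih]
    rfl

private theorem ZW_icomm (D : Dg C) {k : Type*} [Field k] (x : GF D k) (l : List (GF D k)) :
    ((icomm x l : GF D k) : GL C.Idx k) = icomm (x : GL C.Idx k) (l.map Subtype.val) := by
  induction l generalizing x with
  | nil => rfl
  | cons y l ih =>
    have e1 : icomm x (y :: l) = icomm (y * x * y⁻¹ * x⁻¹) l := rfl
    have e2 : icomm (x : GL C.Idx k) ((y :: l).map Subtype.val) =
      icomm ((y : GL C.Idx k) * x * (y : GL C.Idx k)⁻¹ * (x : GL C.Idx k)⁻¹)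
        (l.map Subtype.val) := rfl
    rw [e1, e2, ih]
    rfl

theorem exists_word_sr {D : Dg C} {t0 : Fin n → Fin n} (hS : Swap D t0)
    {k : Type*} [Field k] [Infinite k] {θ : k ≃+* k} {σ : GF D k →* GF D k}
    (h : SRs D t0 θ σ)
    (hon : ∀ i, D.ρ i ≠ i → ∀ t : k, ∃ x ∈ XJ hS.na t0 σ i,
      C.xi i ((x : GL C.Idx k) : Matrix C.Idx C.Idx k) = t)
    (b₀ : Fin n) (bs : List (Fin n))
    (hb : iad (vm C (ind D k b₀)) (bs.map fun b => vm C (ind D k b)) ≠ 0) :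
    ∃ (x₀ : GF D k) (l : List (GF D k)), x₀ ∈ XJ hS.na t0 σ b₀ ∧
      List.Forall₂ (fun b x => x ∈ XJ hS.na t0 σ b) bs l ∧ icomm x₀ l ≠ 1 := by
  obtain ⟨l, hl, hne⟩ := ZW_replace hS h hon bs _ hb
  obtain ⟨w, ⟨x₀, hx₀, rfl⟩, hwne⟩ := ZW_exists
    (fun w => iad (vm C w) (l.map fun x => vm C (ZW_vec D x)))
    (by intro x y; rw [← ZW_iad_add, ZW_vm_add])
    (by intro c x; rw [← ZW_iad_smul, ZW_vm_smul]) _ _ (ZW_span hS h hon b₀) hne
  refine ⟨x₀, l, hx₀, hl, ?_⟩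
  intro h1
  have h2 := congrArg (Subtype.val) h1
  rw [ZW_icomm] at h2
  have hU : ∀ b, ∀ x ∈ XJ hS.na t0 σ b, (x : GL C.Idx k) ∈ (C.adS k).U 1 := by
    intro b x hx
    exact (((XJ_le hS b).1 hx).1).1
  have hlU : ∀ x ∈ l, (x : GL C.Idx k) ∈ (C.adS k).U 1 := by
    intro x hx
    clear hwne hne h1 h2 hb
    induction hl with
    | nil => exact absurd hx List.not_mem_nil
    | cons hb' _ ih =>
      rcases List.mem_cons.1 hx with rfl | hx
      · exact hU _ _ hb'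
      · exact ih hx
  refine icomm_ne_one' (x₀ : GL C.Idx k) (l.map Subtype.val) (hU _ _ hx₀) ?_ ?_ h2
  · intro y hy
    obtain ⟨x, hx, rfl⟩ := List.mem_map.1 hy
    exact hlU x hx
  · rw [ZW_bind (fun a : GL C.Idx k => (a : Matrix C.Idx C.Idx k)), List.map_map, List.map_map]
    exact hwne

end Pool.Agent.H86.UM
end

section
/- module Pool.Agent.H86.UM.ZW3 -/
/-!
# Project UM, Suzuki-Ree groups, module ZW3: the three words

`iad A [B₁, B₂, ..] = ..[B₂, [B₁, A]]..` with `[X, Y] = X Y - Y X`. `vm (ind D b) = ∑ E_(α_j)` over the cycle of `b`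
(`W1_vm_single`-like; the coefficients are `0, 1`). Brackets of the matrices `E_α` (mapped to `k`): `T5_map_comm`
(`ip α β ≥ 0`: `0`), `T5_map_comm_add` (`γ = α + β`: `eps α β • E_γ`).
`A₃`, characteristic `2`: `[E_1, E_0 + E_2] = ± E_(110) ± E_(011) ≠ 0`.
`D₄`, characteristic `3`, nodes `0, 1, 2, 3`: start with `E_1`, then twice `B = E_0 + E_2 + E_3`:
`[B, E_1] = ± E_(1100) ± E_(0110) ± E_(0101)`, `[B, .]`: a combination of `E_(1110), E_(1101), E_(0111)` with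
coefficients `± 2` (in the computer calculation with the signs `eps` of Defs.lean: `(1,1,0,0): 1, (0,1,1,0): -1,
(0,1,0,1): -1`, then `(1,1,1,0): 1, (1,1,0,1): 1, (0,1,1,1): -1` modulo `3`), nonzero in characteristic `3`; it is
enough to look at one coefficient.
`E₆`, characteristic `2`, nodes `0 - 2 - 3 - 4 - 5`, `1 - 3`; cycles `{0,5}, {2,4}, {3}, {1}`; start with the cycle of `0`,
then `2, 3, 1, 2, 3, 2, 0`. Signs do not matter. The brackets are (roots as vectors of the coordinates at the nodes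
`0..5`), each time the sum of two `E_γ` :
`(1,0,1,0,0,0), (0,0,0,0,1,1)`; `(1,0,1,1,0,0), (0,0,0,1,1,1)`; `(1,1,1,1,0,0), (0,1,0,1,1,1)`;
`(0,1,1,1,1,1), (1,1,1,1,1,0)`; `(0,1,1,2,1,1), (1,1,1,2,1,0)`; `(1,1,2,2,1,0), (0,1,1,2,2,1)`;
`(1,1,1,2,2,1), (1,1,2,2,1,1)`. In each step `[E_a + E_b, E_γ + E_γ']` (or `[E_a, ..]`) has the contributions
`a + γ` etc. which are roots (`ip = -1`); terms which cancel or vanish: `ip ≥ 0`.
A nonzero combination of different `E_γ` is nonzero (look at an entry).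
-/

set_option autoImplicit false
open Matrix

namespace Pool.Agent.H86.UM

open Pool.Agent.H75.UL

/-! ### helper lemmas -/

/-- the matrix of `ad e_v` over `k` for a vector `v` of norm `2`, and `0` otherwise -/
private noncomputable def ev {n : ℕ} (C : SLC n) (k : Type*) [Field k] (v : Fin n → ℤ) :
    Matrix C.Idx C.Idx k :=
  if h : C.ip v v = 2 then (C.E ⟨v, h⟩).map (Int.cast : ℤ → k) else 0

private theorem ev_root {n : ℕ} (C : SLC n) (k : Type*) [Field k] (α : C.Root) :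
    ev C k α.1 = (C.E α).map (Int.cast : ℤ → k) := by
  unfold ev
  rw [dif_pos α.2]

private theorem ev_comm {n : ℕ} (C : SLC n) (k : Type*) [Field k] (v w : Fin n → ℤ)
    (h : 0 ≤ C.ip v w) : ev C k v * ev C k w - ev C k w * ev C k v = 0 := by
  unfold ev
  by_cases hv : C.ip v v = 2
  · by_cases hw : C.ip w w = 2
    · rw [dif_pos hv, dif_pos hw]
      exact C.T5_map_comm ⟨v, hv⟩ ⟨w, hw⟩ h
    · rw [dif_neg hw, mul_zero, zero_mul, sub_zero]
  · rw [dif_neg hv, mul_zero, zero_mul, sub_zero]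

private theorem ev_add {n : ℕ} (C : SLC n) (k : Type*) [Field k] (v w u : Fin n → ℤ)
    (hv : C.ip v v = 2) (hw : C.ip w w = 2) (hu : C.ip u u = 2) (h : u = v + w) :
    ev C k v * ev C k w - ev C k w * ev C k v = (C.eps v w : k) • ev C k u := by
  unfold ev
  rw [dif_pos hv, dif_pos hw, dif_pos hu]
  exact C.T5_map_comm_add ⟨v, hv⟩ ⟨w, hw⟩ ⟨u, hu⟩ h

private theorem eps2 {n : ℕ} (C : SLC n) (k : Type*) [Field k] [CharP k 2] (v w : Fin n → ℤ) :
    (C.eps v w : k) = 1 := by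
  unfold SLC.eps
  rcases Int.units_eq_one_or (C.hf v w).negOnePow with h | h
  · rw [h]
    simp
  · rw [h]
    have h2 : (2 : k) = 0 := CharP.cast_eq_zero k 2
    have h3 : (1 : k) + 1 = 0 := by rw [one_add_one_eq_two, h2]
    simp only [Units.val_neg, Units.val_one, Int.cast_neg, Int.cast_one]
    exact neg_eq_of_add_eq_zero_left h3

private theorem ev_add2 {n : ℕ} (C : SLC n) (k : Type*) [Field k] [CharP k 2] (v w u : Fin n → ℤ)
    (hv : C.ip v v = 2) (hw : C.ip w w = 2) (hu : C.ip u u = 2) (h : u = v + w) :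
    ev C k v * ev C k w - ev C k w * ev C k v = ev C k u := by
  rw [ev_add C k v w u hv hw hu h, eps2, one_smul]

private theorem br22 {ι k : Type*} [Fintype ι] [Field k] {a b c d x y z w : Matrix ι ι k}
    (h1 : a * c - c * a = x) (h2 : a * d - d * a = y) (h3 : b * c - c * b = z)
    (h4 : b * d - d * b = w) : (a + b) * (c + d) - (c + d) * (a + b) = x + y + z + w := by
  rw [← h1, ← h2, ← h3, ← h4, add_mul, mul_add, mul_add, add_mul, mul_add, mul_add]
  abel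

private theorem br12 {ι k : Type*} [Fintype ι] [Field k] {a c d x y : Matrix ι ι k}
    (h1 : a * c - c * a = x) (h2 : a * d - d * a = y) :
    a * (c + d) - (c + d) * a = x + y := by
  rw [← h1, ← h2, mul_add, add_mul]
  abel

private theorem ev_col {n : ℕ} (C : SLC n) (k : Type*) [Field k] (v w : Fin n → ℤ)
    (hv : C.ip v v = 2) (i : Fin n) :
    ev C k w (Sum.inr ⟨v, hv⟩) (Sum.inl i) =
      if v = w then ((-C.ip (Pi.single i 1) w : ℤ) : k) else 0 := by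
  unfold ev
  by_cases hw : C.ip w w = 2
  · rw [dif_pos hw, Matrix.map_apply]
    show ((if v = w then - C.ip (Pi.single i 1) w else 0 : ℤ) : k) = _
    split_ifs with h
    · rfl
    · exact Int.cast_zero
  · rw [dif_neg hw, if_neg]
    · rfl
    · rintro rfl
      exact hw hv

private theorem ne0 {n : ℕ} (C : SLC n) (k : Type*) [Field k] (v w : Fin n → ℤ)
    (hv : C.ip v v = 2) (i : Fin n) (hi : C.ip (Pi.single i 1) v = 1) (hvw : v ≠ w) :
    ev C k v + ev C k w ≠ 0 := by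
  intro h
  have h1 := congrFun (congrFun h (Sum.inr ⟨v, hv⟩)) (Sum.inl i)
  rw [Matrix.add_apply, ev_col, ev_col, if_pos rfl, if_neg hvw, hi] at h1
  simp at h1

theorem iad_A3 (k : Type*) [Field k] [CharP k 2] :
    iad (vm cA3 (ind dA3 k 0)) ([1].map fun b => vm cA3 (ind dA3 k b)) ≠ 0 := by
  have v0 : vm cA3 (ind dA3 k 0) = ev cA3 k ![1, 0, 0] + ev cA3 k ![0, 0, 1] := by
    unfold vm ind
    rw [Fin.sum_univ_three, if_pos (by decide), if_neg (by decide), if_pos (by decide),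
      one_smul, zero_smul, one_smul, add_zero, ← ev_root, ← ev_root]
    have e0 : (cA3.simple 0).val = ![1, 0, 0] := by decide +kernel
    have e2 : (cA3.simple 2).val = ![0, 0, 1] := by decide +kernel
    rw [e0, e2]
  have v1 : vm cA3 (ind dA3 k 1) = ev cA3 k ![0, 1, 0] := by
    unfold vm ind
    rw [Fin.sum_univ_three, if_neg (by decide), if_pos (by decide), if_neg (by decide),
      one_smul, zero_smul, zero_smul, add_zero, zero_add, ← ev_root]
    have e1 : (cA3.simple 1).val = ![0, 1, 0] := by decide +kernel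
    rw [e1]
  show vm cA3 (ind dA3 k 1) * vm cA3 (ind dA3 k 0) - vm cA3 (ind dA3 k 0) * vm cA3 (ind dA3 k 1) ≠ 0
  rw [v0, v1, br12 (ev_add2 cA3 k ![0, 1, 0] ![1, 0, 0] ![1, 1, 0] (by decide +kernel)
      (by decide +kernel) (by decide +kernel) (by decide +kernel))
    (ev_add2 cA3 k ![0, 1, 0] ![0, 0, 1] ![0, 1, 1] (by decide +kernel)
      (by decide +kernel) (by decide +kernel) (by decide +kernel))]
  exact ne0 cA3 k ![1, 1, 0] ![0, 1, 1] (by decide +kernel) 0 (by decide +kernel) (by decide +kernel)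

theorem iad_D4 (k : Type*) [Field k] [CharP k 3] :
    iad (vm cD4 (ind dD4 k 1)) ([0, 0].map fun b => vm cD4 (ind dD4 k b)) ≠ 0 := by
  have v0 : vm cD4 (ind dD4 k 0) = ev cD4 k ![1, 0, 0, 0] + ev cD4 k ![0, 0, 1, 0] +
      ev cD4 k ![0, 0, 0, 1] := by
    unfold vm ind
    rw [Fin.sum_univ_four, if_pos (by decide), if_neg (by decide), if_pos (by decide),
      if_pos (by decide), one_smul, zero_smul, one_smul, one_smul, add_zero, ← ev_root, ← ev_root,
      ← ev_root]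
    have e0 : (cD4.simple 0).val = ![1, 0, 0, 0] := by decide +kernel
    have e2 : (cD4.simple 2).val = ![0, 0, 1, 0] := by decide +kernel
    have e3 : (cD4.simple 3).val = ![0, 0, 0, 1] := by decide +kernel
    rw [e0, e2, e3]
  have v1 : vm cD4 (ind dD4 k 1) = ev cD4 k ![0, 1, 0, 0] := by
    unfold vm ind
    rw [Fin.sum_univ_four, if_neg (by decide), if_pos (by decide), if_neg (by decide),
      if_neg (by decide), one_smul, zero_smul, zero_smul, zero_smul, add_zero, add_zero, zero_add,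
      ← ev_root]
    have e1 : (cD4.simple 1).val = ![0, 1, 0, 0] := by decide +kernel
    rw [e1]
  have a0 := ev_add cD4 k ![1, 0, 0, 0] ![0, 1, 0, 0] ![1, 1, 0, 0] (by decide +kernel)
    (by decide +kernel) (by decide +kernel) (by decide +kernel)
  have a2 := ev_add cD4 k ![0, 0, 1, 0] ![0, 1, 0, 0] ![0, 1, 1, 0] (by decide +kernel)
    (by decide +kernel) (by decide +kernel) (by decide +kernel)
  have a3 := ev_add cD4 k ![0, 0, 0, 1] ![0, 1, 0, 0] ![0, 1, 0, 1] (by decide +kernel)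
    (by decide +kernel) (by decide +kernel) (by decide +kernel)
  have s0 : cD4.eps ![1, 0, 0, 0] ![0, 1, 0, 0] = 1 := by decide +kernel
  have s2 : cD4.eps ![0, 0, 1, 0] ![0, 1, 0, 0] = -1 := by decide +kernel
  have s3 : cD4.eps ![0, 0, 0, 1] ![0, 1, 0, 0] = -1 := by decide +kernel
  rw [s0, Int.cast_one, one_smul] at a0
  rw [s2, Int.cast_neg, Int.cast_one, neg_one_smul] at a2
  rw [s3, Int.cast_neg, Int.cast_one, neg_one_smul] at a3
  have b00 := ev_comm cD4 k ![1, 0, 0, 0] ![1, 1, 0, 0] (by decide +kernel)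
  have b22 := ev_comm cD4 k ![0, 0, 1, 0] ![0, 1, 1, 0] (by decide +kernel)
  have b33 := ev_comm cD4 k ![0, 0, 0, 1] ![0, 1, 0, 1] (by decide +kernel)
  have b02 := ev_add cD4 k ![1, 0, 0, 0] ![0, 1, 1, 0] ![1, 1, 1, 0] (by decide +kernel)
    (by decide +kernel) (by decide +kernel) (by decide +kernel)
  have b03 := ev_add cD4 k ![1, 0, 0, 0] ![0, 1, 0, 1] ![1, 1, 0, 1] (by decide +kernel)
    (by decide +kernel) (by decide +kernel) (by decide +kernel)
  have b20 := ev_add cD4 k ![0, 0, 1, 0] ![1, 1, 0, 0] ![1, 1, 1, 0] (by decide +kernel)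
    (by decide +kernel) (by decide +kernel) (by decide +kernel)
  have b23 := ev_add cD4 k ![0, 0, 1, 0] ![0, 1, 0, 1] ![0, 1, 1, 1] (by decide +kernel)
    (by decide +kernel) (by decide +kernel) (by decide +kernel)
  have b30 := ev_add cD4 k ![0, 0, 0, 1] ![1, 1, 0, 0] ![1, 1, 0, 1] (by decide +kernel)
    (by decide +kernel) (by decide +kernel) (by decide +kernel)
  have b32 := ev_add cD4 k ![0, 0, 0, 1] ![0, 1, 1, 0] ![0, 1, 1, 1] (by decide +kernel)
    (by decide +kernel) (by decide +kernel) (by decide +kernel)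
  have t02 : cD4.eps ![1, 0, 0, 0] ![0, 1, 1, 0] = 1 := by decide +kernel
  have t20 : cD4.eps ![0, 0, 1, 0] ![1, 1, 0, 0] = -1 := by decide +kernel
  rw [t02, Int.cast_one, one_smul] at b02
  rw [t20, Int.cast_neg, Int.cast_one, neg_one_smul] at b20
  have r2 : cD4.ip ![1, 1, 1, 0] ![1, 1, 1, 0] = 2 := by decide +kernel
  have c0 := ev_col cD4 k ![1, 1, 1, 0] ![1, 1, 1, 0] r2 0
  have c2 := ev_col cD4 k ![1, 1, 1, 0] ![1, 1, 0, 1] r2 0
  have c3 := ev_col cD4 k ![1, 1, 1, 0] ![0, 1, 1, 1] r2 0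
  have i0 : cD4.ip (Pi.single 0 1) ![1, 1, 1, 0] = 1 := by decide +kernel
  rw [if_pos rfl, i0] at c0
  rw [if_neg (by decide)] at c2
  rw [if_neg (by decide)] at c3
  set A := ev cD4 k ![1, 0, 0, 0] with hA
  set B := ev cD4 k ![0, 0, 1, 0] with hB
  set D := ev cD4 k ![0, 0, 0, 1] with hD
  set M := ev cD4 k ![0, 1, 0, 0] with hM
  set A1 := ev cD4 k ![1, 1, 0, 0] with hA1
  set B1 := ev cD4 k ![0, 1, 1, 0] with hB1
  set D1 := ev cD4 k ![0, 1, 0, 1] with hD1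
  set P := ev cD4 k ![1, 1, 1, 0] with hP
  set Q := ev cD4 k ![1, 1, 0, 1] with hQ
  set R := ev cD4 k ![0, 1, 1, 1] with hR
  show vm cD4 (ind dD4 k 0) * (vm cD4 (ind dD4 k 0) * vm cD4 (ind dD4 k 1) -
    vm cD4 (ind dD4 k 1) * vm cD4 (ind dD4 k 0)) - (vm cD4 (ind dD4 k 0) * vm cD4 (ind dD4 k 1) -
    vm cD4 (ind dD4 k 1) * vm cD4 (ind dD4 k 0)) * vm cD4 (ind dD4 k 0) ≠ 0
  rw [v0, v1]
  have h1 : (A + B + D) * M - M * (A + B + D) = A1 - B1 - D1 := by
    have : (A + B + D) * M - M * (A + B + D) = (A * M - M * A) + (B * M - M * B) +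
        (D * M - M * D) := by
      simp only [add_mul, mul_add]
      abel
    rw [this, a0, a2, a3]
    abel
  rw [h1]
  have h2 : (A + B + D) * (A1 - B1 - D1) - (A1 - B1 - D1) * (A + B + D) =
      (A * A1 - A1 * A) + (B * A1 - A1 * B) + (D * A1 - A1 * D) -
      ((A * B1 - B1 * A) + (B * B1 - B1 * B) + (D * B1 - B1 * D)) -
      ((A * D1 - D1 * A) + (B * D1 - D1 * B) + (D * D1 - D1 * D)) := by
    simp only [add_mul, mul_add, sub_mul, mul_sub]
    abel
  rw [h2, b00, b22, b33, b02, b03, b20, b23, b30, b32]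
  intro h3
  have h4 := congrFun (congrFun h3 (Sum.inr ⟨![1, 1, 1, 0], r2⟩)) (Sum.inl 0)
  simp only [Matrix.add_apply, Matrix.sub_apply, Matrix.neg_apply, Matrix.smul_apply,
    Matrix.zero_apply, c0, c2, c3, smul_zero, smul_eq_mul, mul_zero, add_zero, zero_add,
    sub_zero] at h4
  have h5 : (3 : k) = 0 := CharP.cast_eq_zero k 3
  have h6 : (2 : k) = 0 := by
    push_cast at h4
    linear_combination h4
  have h7 : (1 : k) = 0 := by linear_combination h5 - h6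
  exact one_ne_zero h7

theorem iad_E6 (k : Type*) [Field k] [CharP k 2] :
    iad (vm cE6 (ind dE6 k 0)) ([2, 3, 1, 2, 3, 2, 0].map fun b => vm cE6 (ind dE6 k b)) ≠ 0 := by
  have n0 : (cE6.simple 0).val = ![1, 0, 0, 0, 0, 0] := by decide +kernel
  have n1 : (cE6.simple 1).val = ![0, 1, 0, 0, 0, 0] := by decide +kernel
  have n2 : (cE6.simple 2).val = ![0, 0, 1, 0, 0, 0] := by decide +kernel
  have n3 : (cE6.simple 3).val = ![0, 0, 0, 1, 0, 0] := by decide +kernel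
  have n4 : (cE6.simple 4).val = ![0, 0, 0, 0, 1, 0] := by decide +kernel
  have n5 : (cE6.simple 5).val = ![0, 0, 0, 0, 0, 1] := by decide +kernel
  have v0 : vm cE6 (ind dE6 k 0) = ev cE6 k ![1, 0, 0, 0, 0, 0] + ev cE6 k ![0, 0, 0, 0, 0, 1] := by
    unfold vm ind
    rw [Fin.sum_univ_six, if_pos (by decide), if_neg (by decide), if_neg (by decide), if_neg (by decide), if_neg (by decide), if_pos (by decide)]
    simp only [one_smul, zero_smul, add_zero, zero_add]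
    rw [← ev_root, ← ev_root, n0, n5]
  have v1 : vm cE6 (ind dE6 k 1) = ev cE6 k ![0, 1, 0, 0, 0, 0] := by
    unfold vm ind
    rw [Fin.sum_univ_six, if_neg (by decide), if_pos (by decide), if_neg (by decide), if_neg (by decide), if_neg (by decide), if_neg (by decide)]
    simp only [one_smul, zero_smul, add_zero, zero_add]
    rw [← ev_root, n1]
  have v2 : vm cE6 (ind dE6 k 2) = ev cE6 k ![0, 0, 1, 0, 0, 0] + ev cE6 k ![0, 0, 0, 0, 1, 0] := by
    unfold vm ind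
    rw [Fin.sum_univ_six, if_neg (by decide), if_neg (by decide), if_pos (by decide), if_neg (by decide), if_pos (by decide), if_neg (by decide)]
    simp only [one_smul, zero_smul, add_zero, zero_add]
    rw [← ev_root, ← ev_root, n2, n4]
  have v3 : vm cE6 (ind dE6 k 3) = ev cE6 k ![0, 0, 0, 1, 0, 0] := by
    unfold vm ind
    rw [Fin.sum_univ_six, if_neg (by decide), if_neg (by decide), if_neg (by decide), if_pos (by decide), if_neg (by decide), if_neg (by decide)]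
    simp only [one_smul, zero_smul, add_zero, zero_add]
    rw [← ev_root, n3]
  have w0 : (ev cE6 k ![0, 0, 1, 0, 0, 0] + ev cE6 k ![0, 0, 0, 0, 1, 0]) *
      (ev cE6 k ![1, 0, 0, 0, 0, 0] + ev cE6 k ![0, 0, 0, 0, 0, 1]) -
      (ev cE6 k ![1, 0, 0, 0, 0, 0] + ev cE6 k ![0, 0, 0, 0, 0, 1]) *
      (ev cE6 k ![0, 0, 1, 0, 0, 0] + ev cE6 k ![0, 0, 0, 0, 1, 0]) =
      ev cE6 k ![1, 0, 1, 0, 0, 0] + ev cE6 k ![0, 0, 0, 0, 1, 1] := by
    rw [br22 (ev_add2 cE6 k ![0, 0, 1, 0, 0, 0] ![1, 0, 0, 0, 0, 0] ![1, 0, 1, 0, 0, 0]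
      (by decide +kernel) (by decide +kernel) (by decide +kernel) (by decide +kernel))
      (ev_comm cE6 k ![0, 0, 1, 0, 0, 0] ![0, 0, 0, 0, 0, 1] (by decide +kernel))
      (ev_comm cE6 k ![0, 0, 0, 0, 1, 0] ![1, 0, 0, 0, 0, 0] (by decide +kernel))
      (ev_add2 cE6 k ![0, 0, 0, 0, 1, 0] ![0, 0, 0, 0, 0, 1] ![0, 0, 0, 0, 1, 1]
      (by decide +kernel) (by decide +kernel) (by decide +kernel) (by decide +kernel))]
    simp only [add_zero, zero_add]
  have w1 : ev cE6 k ![0, 0, 0, 1, 0, 0] *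
      (ev cE6 k ![1, 0, 1, 0, 0, 0] + ev cE6 k ![0, 0, 0, 0, 1, 1]) -
      (ev cE6 k ![1, 0, 1, 0, 0, 0] + ev cE6 k ![0, 0, 0, 0, 1, 1]) *
      ev cE6 k ![0, 0, 0, 1, 0, 0] =
      ev cE6 k ![1, 0, 1, 1, 0, 0] + ev cE6 k ![0, 0, 0, 1, 1, 1] :=
    br12 (ev_add2 cE6 k ![0, 0, 0, 1, 0, 0] ![1, 0, 1, 0, 0, 0] ![1, 0, 1, 1, 0, 0]
      (by decide +kernel) (by decide +kernel) (by decide +kernel) (by decide +kernel))
    (ev_add2 cE6 k ![0, 0, 0, 1, 0, 0] ![0, 0, 0, 0, 1, 1] ![0, 0, 0, 1, 1, 1]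
      (by decide +kernel) (by decide +kernel) (by decide +kernel) (by decide +kernel))
  have w2 : ev cE6 k ![0, 1, 0, 0, 0, 0] *
      (ev cE6 k ![1, 0, 1, 1, 0, 0] + ev cE6 k ![0, 0, 0, 1, 1, 1]) -
      (ev cE6 k ![1, 0, 1, 1, 0, 0] + ev cE6 k ![0, 0, 0, 1, 1, 1]) *
      ev cE6 k ![0, 1, 0, 0, 0, 0] =
      ev cE6 k ![1, 1, 1, 1, 0, 0] + ev cE6 k ![0, 1, 0, 1, 1, 1] :=
    br12 (ev_add2 cE6 k ![0, 1, 0, 0, 0, 0] ![1, 0, 1, 1, 0, 0] ![1, 1, 1, 1, 0, 0]
      (by decide +kernel) (by decide +kernel) (by decide +kernel) (by decide +kernel))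
    (ev_add2 cE6 k ![0, 1, 0, 0, 0, 0] ![0, 0, 0, 1, 1, 1] ![0, 1, 0, 1, 1, 1]
      (by decide +kernel) (by decide +kernel) (by decide +kernel) (by decide +kernel))
  have w3 : (ev cE6 k ![0, 0, 1, 0, 0, 0] + ev cE6 k ![0, 0, 0, 0, 1, 0]) *
      (ev cE6 k ![1, 1, 1, 1, 0, 0] + ev cE6 k ![0, 1, 0, 1, 1, 1]) -
      (ev cE6 k ![1, 1, 1, 1, 0, 0] + ev cE6 k ![0, 1, 0, 1, 1, 1]) *
      (ev cE6 k ![0, 0, 1, 0, 0, 0] + ev cE6 k ![0, 0, 0, 0, 1, 0]) =
      ev cE6 k ![0, 1, 1, 1, 1, 1] + ev cE6 k ![1, 1, 1, 1, 1, 0] := by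
    rw [br22 (ev_comm cE6 k ![0, 0, 1, 0, 0, 0] ![1, 1, 1, 1, 0, 0] (by decide +kernel))
      (ev_add2 cE6 k ![0, 0, 1, 0, 0, 0] ![0, 1, 0, 1, 1, 1] ![0, 1, 1, 1, 1, 1]
      (by decide +kernel) (by decide +kernel) (by decide +kernel) (by decide +kernel))
      (ev_add2 cE6 k ![0, 0, 0, 0, 1, 0] ![1, 1, 1, 1, 0, 0] ![1, 1, 1, 1, 1, 0]
      (by decide +kernel) (by decide +kernel) (by decide +kernel) (by decide +kernel))
      (ev_comm cE6 k ![0, 0, 0, 0, 1, 0] ![0, 1, 0, 1, 1, 1] (by decide +kernel))]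
    simp only [add_zero, zero_add]
  have w4 : ev cE6 k ![0, 0, 0, 1, 0, 0] *
      (ev cE6 k ![0, 1, 1, 1, 1, 1] + ev cE6 k ![1, 1, 1, 1, 1, 0]) -
      (ev cE6 k ![0, 1, 1, 1, 1, 1] + ev cE6 k ![1, 1, 1, 1, 1, 0]) *
      ev cE6 k ![0, 0, 0, 1, 0, 0] =
      ev cE6 k ![0, 1, 1, 2, 1, 1] + ev cE6 k ![1, 1, 1, 2, 1, 0] :=
    br12 (ev_add2 cE6 k ![0, 0, 0, 1, 0, 0] ![0, 1, 1, 1, 1, 1] ![0, 1, 1, 2, 1, 1]
      (by decide +kernel) (by decide +kernel) (by decide +kernel) (by decide +kernel))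
    (ev_add2 cE6 k ![0, 0, 0, 1, 0, 0] ![1, 1, 1, 1, 1, 0] ![1, 1, 1, 2, 1, 0]
      (by decide +kernel) (by decide +kernel) (by decide +kernel) (by decide +kernel))
  have w5 : (ev cE6 k ![0, 0, 1, 0, 0, 0] + ev cE6 k ![0, 0, 0, 0, 1, 0]) *
      (ev cE6 k ![0, 1, 1, 2, 1, 1] + ev cE6 k ![1, 1, 1, 2, 1, 0]) -
      (ev cE6 k ![0, 1, 1, 2, 1, 1] + ev cE6 k ![1, 1, 1, 2, 1, 0]) *
      (ev cE6 k ![0, 0, 1, 0, 0, 0] + ev cE6 k ![0, 0, 0, 0, 1, 0]) =
      ev cE6 k ![1, 1, 2, 2, 1, 0] + ev cE6 k ![0, 1, 1, 2, 2, 1] := by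
    rw [br22 (ev_comm cE6 k ![0, 0, 1, 0, 0, 0] ![0, 1, 1, 2, 1, 1] (by decide +kernel))
      (ev_add2 cE6 k ![0, 0, 1, 0, 0, 0] ![1, 1, 1, 2, 1, 0] ![1, 1, 2, 2, 1, 0]
      (by decide +kernel) (by decide +kernel) (by decide +kernel) (by decide +kernel))
      (ev_add2 cE6 k ![0, 0, 0, 0, 1, 0] ![0, 1, 1, 2, 1, 1] ![0, 1, 1, 2, 2, 1]
      (by decide +kernel) (by decide +kernel) (by decide +kernel) (by decide +kernel))
      (ev_comm cE6 k ![0, 0, 0, 0, 1, 0] ![1, 1, 1, 2, 1, 0] (by decide +kernel))]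
    simp only [add_zero, zero_add]
  have w6 : (ev cE6 k ![1, 0, 0, 0, 0, 0] + ev cE6 k ![0, 0, 0, 0, 0, 1]) *
      (ev cE6 k ![1, 1, 2, 2, 1, 0] + ev cE6 k ![0, 1, 1, 2, 2, 1]) -
      (ev cE6 k ![1, 1, 2, 2, 1, 0] + ev cE6 k ![0, 1, 1, 2, 2, 1]) *
      (ev cE6 k ![1, 0, 0, 0, 0, 0] + ev cE6 k ![0, 0, 0, 0, 0, 1]) =
      ev cE6 k ![1, 1, 1, 2, 2, 1] + ev cE6 k ![1, 1, 2, 2, 1, 1] := by
    rw [br22 (ev_comm cE6 k ![1, 0, 0, 0, 0, 0] ![1, 1, 2, 2, 1, 0] (by decide +kernel))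
      (ev_add2 cE6 k ![1, 0, 0, 0, 0, 0] ![0, 1, 1, 2, 2, 1] ![1, 1, 1, 2, 2, 1]
      (by decide +kernel) (by decide +kernel) (by decide +kernel) (by decide +kernel))
      (ev_add2 cE6 k ![0, 0, 0, 0, 0, 1] ![1, 1, 2, 2, 1, 0] ![1, 1, 2, 2, 1, 1]
      (by decide +kernel) (by decide +kernel) (by decide +kernel) (by decide +kernel))
      (ev_comm cE6 k ![0, 0, 0, 0, 0, 1] ![0, 1, 1, 2, 2, 1] (by decide +kernel))]
    simp only [add_zero, zero_add]
  show iad (vm cE6 (ind dE6 k 0)) [vm cE6 (ind dE6 k 2), vm cE6 (ind dE6 k 3),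
    vm cE6 (ind dE6 k 1), vm cE6 (ind dE6 k 2), vm cE6 (ind dE6 k 3), vm cE6 (ind dE6 k 2),
    vm cE6 (ind dE6 k 0)] ≠ 0
  rw [v0, v1, v2, v3]
  have hc : ∀ (A B : Matrix cE6.Idx cE6.Idx k) (l : List (Matrix cE6.Idx cE6.Idx k)),
      iad A (B :: l) = iad (B * A - A * B) l := fun _ _ _ => rfl
  have hn : ∀ A : Matrix cE6.Idx cE6.Idx k, iad A [] = A := fun _ => rfl
  rw [hc, w0, hc, w1, hc, w2, hc, w3, hc, w4, hc, w5, hc, w6, hn]
  exact ne0 cE6 k ![1, 1, 1, 2, 2, 1] ![1, 1, 2, 2, 1, 1] (by decide +kernel) 0 (by decide +kernel) (by decide +kernel)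

end Pool.Agent.H86.UM
end
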