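import Pool.Agent.H86.AL.M04
import Pool.Agent.H86.AL.M22
import Pool.Agent.H86.AL.M23
import Pool.Agent.H86.AL.M27
import Pool.Agent.H86.AL.M28
import Pool.Agent.H86.AL.M30
import Pool.Agent.H86.AL.M31
import Pool.Agent.H86.AL.M32
import Pool.Agent.H86.AL.M33

/-!
# M38: collected modules

Pool.Agent.H75.UE.E7
Pool.Agent.H75.UE.E9
Pool.Agent.H75.UE.M1a
Pool.Agent.H75.UE.M1
Pool.Agent.H75.UE.M2
Pool.Agent.H75.US.S6
Pool.Agent.H75.US.S9
Pool.Agent.H86.UM.ZCt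
-/

section
/- module Pool.Agent.H75.UE.E7 -/
/-!
# Project UE, module E7: functorial form of the exact stage

(Two torus notations: `Pool.Agent.H75.UL.tad c` (module E0) and `Pool.Agent.H86.UM.tad C c` (FC0) are equal:
`tad_eq`.)
`pin_of_exact`: `hθ`: `Kd.hθ`; `mem`: `Psi_Gad`, `g ∈ Gad` (`Eg_le_gen`, `gen_adS`); `fix`: `Psi_fix`,
`Eg_le_fix`; `ker`: `Psi_ker`; `pos`, `neg`: `Exact` with `π = 1`, `i' = i`.
`xi_functorial`: the entry `(inl i, inr (-(simple i)))` of `tad c * M * (tad c)⁻¹`.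
`functorial_of_PE`: `field_compat` for `cj (Psi) g`; the second alternative is excluded by `D.m ≠ 3`;
`A = g * tad c ∈ NE`. `PR_exists`: `field_compat`; in the first alternative take `e = 1` (`xi_functorial`,
`mp_val`, `xi` of `mp φ M` is `φ` of `xi`), in the second `e = -1` (`((-1 : (ZMod 3)ˣ) : ZMod 3).val = 2`).
`PR_comp`: `g` for `(1,2)`, `g'` for `(2,3)`; `g = pa γ` (`pa_Eg`), `g'' = Psi X₂ X₃ ψ' γ * g'` as in the proof of
`PE_comp`: for `x ∈ fixX (simple i)`: `g⁻¹ Psi₁₂ x g = pa y`, `y ∈ fixX (simple i)`, and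
`g''⁻¹ Psi₁₃ x g'' = g'⁻¹ Psi₂₃ y g'`, so `xi i (..) = c' φ' (xi i (pa y)) = c' φ' (c φ (xi i (pa x)))`; take
`φ'' = φ' ∘ φ`, `c'' = c' φ'(c)`. `φ'' (θ₁ t) = φ' (θ₂^[e] (φ t)) = θ₃^[e' * e] (φ'' t)`, and
`θ₃^[e' * e]` depends only on `e' * e` modulo `3` (`θ₃^[3] = 1`: `Kd.hθ`, `D.m = 3`).
`functorial_of_PR`: `field_compat` with the `g` of `PR`; the second alternative is impossible: choose a
nonfixed `i` (`D.m = 3`), not adjacent to its image (`ip_r`: adjacency implies `m = 2`; `ip_single`); the two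
`RA` give `c φ(t) = c₂ φ₂(t)` for all `t` (`fixX_xi_exists`), so `c = c₂` (`t = 1`) and `φ = φ₂`, a
contradiction.
-/

set_option autoImplicit false
open Matrix
universe u
namespace Pool.Agent.H75.UL

open Pool.Agent.H86.UM

variable {n : ℕ} {C : SLC n} {D : Dg C} {tw : Bool}

theorem tad_eq {K : Type u} [Field K] (c : Fin n → Kˣ) :
    Pool.Agent.H75.UL.tad (C := C) c = Pool.Agent.H86.UM.tad C c := Units.ext rfl

theorem xi_functorial {K : Type u} [Field K] (c : Fin n → Kˣ) (i : Fin n) (M : GL C.Idx K) :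
    C.xi i ((Pool.Agent.H75.UL.tad (C := C) c * M * (Pool.Agent.H75.UL.tad (C := C) c)⁻¹ :
      GL C.Idx K) : Matrix C.Idx C.Idx K) = c i * C.xi i (M : Matrix C.Idx C.Idx K) := by
  have h1 : ((Pool.Agent.H75.UL.tad (C := C) c : GL C.Idx K) : Matrix C.Idx C.Idx K) =
      Matrix.diagonal (Sum.elim (fun _ => 1) (fun γ => ((∏ j, c j ^ γ.1 j : Kˣ) : K))) := rfl
  have h2 : (((Pool.Agent.H75.UL.tad (C := C) c)⁻¹ : GL C.Idx K) : Matrix C.Idx C.Idx K) =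
      Matrix.diagonal (Sum.elim (fun _ => 1) (fun γ => (((∏ j, c j ^ γ.1 j)⁻¹ : Kˣ) : K))) := rfl
  unfold SLC.xi
  rw [Units.val_mul, Units.val_mul, h1, h2, Matrix.mul_diagonal, Matrix.diagonal_mul]
  simp only [Sum.elim_inl, Sum.elim_inr, one_mul]
  have h3 : (∏ j, c j ^ (-(C.simple i)).1 j : Kˣ)⁻¹ = c i := by
    rw [Finset.prod_eq_single i]
    · rw [SLC.Root.neg_val, Pi.neg_apply, SLC.simple_val, Pi.single_eq_same]
      simp
    · intro j _ hj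
      rw [SLC.Root.neg_val, Pi.neg_apply, SLC.simple_val, Pi.single_eq_of_ne hj]
      simp
    · intro h
      exact absurd (Finset.mem_univ i) h
  rw [h3]
  ring

private theorem E7_iter_mod {K : Type u} [Field K] (θ : K ≃+* K) (h : ∀ t, (⇑θ)^[3] t = t)
    (k : ℕ) (t : K) : (⇑θ)^[k % 3] t = (⇑θ)^[k] t := by
  conv_rhs => rw [← Nat.mod_add_div k 3]
  rw [Function.iterate_add_apply, Function.iterate_mul]
  have h1 : (⇑θ)^[3] = id := funext h
  rw [h1, Function.iterate_id, id]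

private theorem E7_iter_comm {K K' : Type u} [Field K] [Field K'] (θ : K ≃+* K) (θ' : K' ≃+* K')
    (φ : K →+* K') (e : ℕ) (h : ∀ t, φ (θ t) = (⇑θ')^[e] (φ t)) (k : ℕ) (t : K) :
    φ ((⇑θ)^[k] t) = (⇑θ')^[e * k] (φ t) := by
  induction k generalizing t with
  | zero => rfl
  | succ k ih =>
    rw [Function.iterate_succ_apply, ih, h, ← Function.iterate_add_apply]
    rfl

section
variable {G₁ G₂ G₃ : Type u} [Group G₁] [Group G₂] [Group G₃] (X₁ : GD D tw G₁) (X₂ : GD D tw G₂)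
  (X₃ : GD D tw G₃) (ψ : G₁ →* G₂) (ψ' : G₂ →* G₃)

theorem pin_of_exact (hn : 0 < n) (hψ : Function.Injective ψ) (g : GL C.Idx X₂.K)
    (hg : g ∈ Eg (C.adS X₂.K) (D.sgl X₂.θ))
    (hE : Exact D (GU.sys C X₁.K) (D.sig X₁.θ) X₂.θ (X₁.Psi X₂ ψ) g 1) :
    Pin (X₁.kd.env D X₁.inf) X₂.θ (cj (X₁.Psi X₂ ψ) g) where
  hθ := Kd.hθ D X₂.kd
  mem := by
    intro x
    have hg' : g ∈ C.Gad X₂.K := by
      rw [← C.gen_adS]
      exact Eg_le_gen _ _ hg
    rw [cj_apply]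
    exact mul_mem (mul_mem (inv_mem hg') (X₁.Psi_Gad X₂ ψ x)) hg'
  fix := by
    intro x
    rw [cj_apply, map_mul, map_mul, map_inv, Eg_le_fix _ _ g hg, X₁.Psi_fix X₂ ψ x]
  ker := by
    intro x hx
    rw [cj_apply] at hx
    apply X₁.Psi_ker X₂ ψ hn hψ
    have h1 : X₁.Psi X₂ ψ x = g * (g⁻¹ * X₁.Psi X₂ ψ x * g) * g⁻¹ := by group
    rw [h1, hx]
    group
  pos := by
    intro i x hx
    rw [cj_apply]
    exact (hE i i rfl).1 x hx
  neg := by
    intro i x hx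
    rw [cj_apply]
    exact (hE i i rfl).2 x hx

/-- The functorial form. -/
def FF : Prop := ∃ (φ : X₁.K →+* X₂.K) (A : GL C.Idx X₂.K), (∀ t, φ (X₁.θ t) = X₂.θ (φ t)) ∧
  A ∈ NE D X₂.θ ∧ ∀ x : EE D X₁.K X₁.θ, X₁.Psi X₂ ψ x = A * C.mp φ (pa C X₁.K x) * A⁻¹

/-- Exactness with trivial permutation and a given relation of the automorphisms. -/
def PR (e : (ZMod 3)ˣ) : Prop := ∃ g ∈ Eg (C.adS X₂.K) (D.sgl X₂.θ),
  Exact D (GU.sys C X₁.K) (D.sig X₁.θ) X₂.θ (X₁.Psi X₂ ψ) g 1 ∧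
  ∀ i, D.ρ i ≠ i → ∃ (φ : X₁.K →+* X₂.K) (c : X₂.K),
    (∀ t, φ (X₁.θ t) = (⇑X₂.θ)^[((e : ZMod 3)).val] (φ t)) ∧
    RA (X₁.kd.env D X₁.inf) (cj (X₁.Psi X₂ ψ) g) i c φ

private theorem E7_FF (g : GL C.Idx X₂.K) (hg : g ∈ Eg (C.adS X₂.K) (D.sgl X₂.θ))
    (φ : X₁.K →+* X₂.K) (cc : Fin n → (X₂.K)ˣ) (hφ : ∀ t, φ (X₁.θ t) = X₂.θ (φ t))
    (hcc : ∀ j, (cc (D.ρ j) : X₂.K) = X₂.θ (cc j))
    (hx : ∀ x, cj (X₁.Psi X₂ ψ) g x = Pool.Agent.H86.UM.tad C cc * C.mp φ (pa C X₁.K x) *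
      (Pool.Agent.H86.UM.tad C cc)⁻¹) : FF X₁ X₂ ψ := by
  refine ⟨φ, g * Pool.Agent.H75.UL.tad (C := C) cc, hφ, ?_, fun x => ?_⟩
  · refine mul_mem ((le_sup_left : _ ≤ NE D X₂.θ) hg) ?_
    exact (le_sup_right : _ ≤ NE D X₂.θ) (Subgroup.subset_closure ⟨cc, hcc, rfl⟩)
  · have h1 := hx x
    rw [cj_apply, ← tad_eq] at h1
    have h2 : X₁.Psi X₂ ψ x = g * (g⁻¹ * X₁.Psi X₂ ψ x * g) * g⁻¹ := by group
    rw [h2, h1]
    group

theorem functorial_of_PE (hn : 0 < n) (hm : D.m ≠ 3) (hψ : Function.Injective ψ)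
    (h : PE X₁ X₂ ψ 1) : FF X₁ X₂ ψ := by
  obtain ⟨g, hg, hE⟩ := h
  rcases field_compat (X₁.kd.env D X₁.inf) hn X₂.θ (cj (X₁.Psi X₂ ψ) g)
    (pin_of_exact X₁ X₂ ψ hn hψ g hg hE) with ⟨φ, cc, hφ, hcc, hx⟩ | ⟨h3, -⟩
  · exact E7_FF X₁ X₂ ψ g hg φ cc hφ hcc hx
  · exact absurd h3 hm

theorem PR_exists (hn : 0 < n) (hm : D.m = 3) (hψ : Function.Injective ψ)
    (h : PE X₁ X₂ ψ 1) : ∃ e, PR X₁ X₂ ψ e := by
  obtain ⟨g, hg, hE⟩ := h
  rcases field_compat (X₁.kd.env D X₁.inf) hn X₂.θ (cj (X₁.Psi X₂ ψ) g)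
    (pin_of_exact X₁ X₂ ψ hn hψ g hg hE) with ⟨φ, cc, hφ, hcc, hx⟩ | ⟨-, h3⟩
  · refine ⟨1, g, hg, hE, fun i _ => ⟨φ, cc i, fun t => hφ t, ?_⟩⟩
    refine ⟨(cc i).ne_zero, fun x _ => ?_⟩
    rw [hx x, ← tad_eq, xi_functorial]
    congr 1
    unfold SLC.xi
    rw [SLC.mp_val, Matrix.map_apply, map_neg]
  · refine ⟨-1, g, hg, hE, fun i hi => ?_⟩
    obtain ⟨φ, c, hφ, -, hR⟩ := h3 i hi
    exact ⟨φ, c, fun t => hφ t, hR⟩

private theorem E7_step (hn : 0 < n) (hψ' : Function.Injective ψ') (g : GL C.Idx X₂.K)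
    (γ : EE D X₂.K X₂.θ) (hγ : pa C X₂.K γ = g) (g' : GL C.Idx X₃.K) (β' : C.Root)
    (x : EE D X₁.K X₁.θ)
    (h1 : g⁻¹ * X₁.Psi X₂ ψ x * g ∈ fixX D (C.adS X₂.K) (D.sgl X₂.θ) β') :
    ∃ y : EE D X₂.K X₂.θ, (y : GU C X₂.K) ∈ fixX D (GU.sys C X₂.K) (D.sig X₂.θ) β' ∧
      pa C X₂.K y = g⁻¹ * X₁.Psi X₂ ψ x * g ∧
      (X₂.Psi X₃ ψ' γ * g')⁻¹ * X₁.Psi X₃ (ψ'.comp ψ) x * (X₂.Psi X₃ ψ' γ * g') =
        g'⁻¹ * X₂.Psi X₃ ψ' y * g' := by
  obtain ⟨v, hv, hvx⟩ := (pa_fixX D X₂.θ β' _).mp h1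
  have hvE := fixX_mem_EE D X₂.θ β' v hv
  refine ⟨⟨v, hvE⟩, hv, hvx, ?_⟩
  have hx : X₁.Psi X₂ ψ x = pa C X₂.K (γ * ⟨v, hvE⟩ * γ⁻¹ : EE D X₂.K X₂.θ) := by
    have e : ((γ * ⟨v, hvE⟩ * γ⁻¹ : EE D X₂.K X₂.θ) : GU C X₂.K) = γ * v * (γ : GU C X₂.K)⁻¹ := rfl
    rw [e, map_mul, map_mul, map_inv, hvx, hγ]
    group
  rw [Psi_comp X₁ X₂ X₃ ψ ψ' hn hψ' x _ hx, map_mul, map_mul, map_inv]
  group

theorem PR_comp (hn : 0 < n) (hm : D.m = 3) (hψ : Function.Injective ψ)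
    (hψ' : Function.Injective ψ') (e e' : (ZMod 3)ˣ) (h : PR X₁ X₂ ψ e) (h' : PR X₂ X₃ ψ' e') :
    PR X₁ X₃ (ψ'.comp ψ) (e' * e) := by
  obtain ⟨g, hg, hE, hR⟩ := h
  obtain ⟨g', hg', hE', hR'⟩ := h'
  obtain ⟨γ, hγ, hγg⟩ := (pa_Eg D X₂.θ g).mp hg
  refine ⟨X₂.Psi X₃ ψ' ⟨γ, hγ⟩ * g', mul_mem (Psi_mem_Eg X₂ X₃ ψ' _) hg', ?_, ?_⟩
  · intro i i'' hi
    have h1 := hE i i rfl
    have h2 := hE' i i'' hi
    refine ⟨fun x hx => ?_, fun x hx => ?_⟩
    · obtain ⟨y, hy, -, h3⟩ := E7_step X₁ X₂ X₃ ψ ψ' hn hψ' g ⟨γ, hγ⟩ hγg g' _ x (h1.1 x hx)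
      rw [h3]
      exact h2.1 y hy
    · obtain ⟨y, hy, -, h3⟩ := E7_step X₁ X₂ X₃ ψ ψ' hn hψ' g ⟨γ, hγ⟩ hγg g' _ x (h1.2 x hx)
      rw [h3]
      exact h2.2 y hy
  · intro i hi
    obtain ⟨φ, c, hφ, hRA⟩ := hR i hi
    obtain ⟨φ', c', hφ', hRA'⟩ := hR' i hi
    refine ⟨φ'.comp φ, c' * φ' c, fun t => ?_, ?_, fun x hx => ?_⟩
    · have h3 : ∀ t, (⇑X₃.θ)^[3] t = t := fun t => by
        have := Kd.hθ D X₃.kd t
        rwa [hm] at this
      rw [RingHom.comp_apply, hφ, E7_iter_comm X₂.θ X₃.θ φ' _ hφ', Units.val_mul, ZMod.val_mul,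
        E7_iter_mod X₃.θ h3]
      rfl
    · exact mul_ne_zero hRA'.c_ne (by simpa using hRA.c_ne)
    · obtain ⟨y, hy, hy1, h3⟩ := E7_step X₁ X₂ X₃ ψ ψ' hn hψ' g ⟨γ, hγ⟩ hγg g' _ x
        ((hE i i rfl).1 x hx)
      have h4 := hRA'.coord y hy
      have h5 := hRA.coord x hx
      rw [cj_apply] at h4 h5
      rw [cj_apply, h3, h4, hy1, h5, map_mul, RingHom.comp_apply]
      ring

theorem functorial_of_PR (hn : 0 < n) (hm : D.m = 3) (hψ : Function.Injective ψ)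
    (h : PR X₁ X₂ ψ 1) : FF X₁ X₂ ψ := by
  obtain ⟨g, hg, hE, hR⟩ := h
  rcases field_compat (X₁.kd.env D X₁.inf) hn X₂.θ (cj (X₁.Psi X₂ ψ) g)
    (pin_of_exact X₁ X₂ ψ hn hψ g hg hE) with ⟨φ, cc, hφ, hcc, hx⟩ | ⟨-, h3⟩
  · exact E7_FF X₁ X₂ ψ g hg φ cc hφ hcc hx
  · exfalso
    have hex : ∃ i, D.ρ i ≠ i := by
      by_contra hcon
      push Not at hcon
      have h1 : D.m = 1 := by
        unfold Dg.m
        rw [orderOf_eq_one_iff]
        exact Equiv.ext hcon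
      omega
    obtain ⟨i, hi⟩ := hex
    obtain ⟨φ, c, hφ, hRA⟩ := hR i hi
    obtain ⟨φ₂, c₂, -, ⟨t, ht⟩, hRA₂⟩ := h3 i hi
    have hx : ∀ t, ∃ x : EE D X₁.K X₁.θ,
        (x : GU C X₁.K) ∈ fixX D (GU.sys C X₁.K) (D.sig X₁.θ) (C.simple i) ∧
        C.xi i (pa C X₁.K x : Matrix C.Idx C.Idx X₁.K) = t := by
      intro t
      obtain ⟨x, hx, hxt⟩ := fixX_xi_exists (X₁.kd.env D X₁.inf) i t (fun h => absurd h hi)
      exact ⟨⟨x, fixX_mem_EE D X₁.θ _ x hx⟩, hx, hxt⟩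
    have heq : ∀ t, c * φ t = c₂ * φ₂ t := by
      intro t
      obtain ⟨x, hx, hxt⟩ := hx t
      have h1 := hRA.coord x hx
      have h2 := hRA₂.coord x hx
      rw [hxt] at h1 h2
      rw [← h1, ← h2]
    have hc : c = c₂ := by
      have := heq 1
      rwa [map_one, map_one, mul_one, mul_one] at this
    have hφ2 : ∀ t, φ t = φ₂ t := by
      intro t
      have := heq t
      rw [← hc] at this
      exact mul_left_cancel₀ hRA.c_ne this
    apply ht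
    rw [← hφ2, ← hφ2, hφ]
    rfl

end

end Pool.Agent.H75.UL
end

section
/- module Pool.Agent.H75.UE.E9 -/
/-!
# Project UE, module E9: one step of the chain

`tad_xg`: entries, `T_diag`/`T_fix` in UL/T6 are similar (`D.sgl`, `X` in terms of `E`, `F`; a diagonal
matrix with the multiplicative function `γ ↦ ∏ c_j ^ γ_j`). `NE_aut`: the set of `A` for which there is
such an automorphism `α` is a subgroup; for `A ∈ Eg (adS K) (sgl θ)`: `A = pa γ` (`pa_Eg`), `α` = conjugation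
by `γ`. For `A = tad c`: `(GU.sys C K).twist 1 1 _ c _` (module C0, `π = 1`, `rmap 1 = id`, `eta 1 = 1`), so there
is `tw_c : GU C K →* GU C K`, `x_β(t) ↦ x_β(c^β t)`, with inverse `tw_(c⁻¹)` (see the proof of `Good.twist` in
C1.lean); it commutes with `D.sig θ` as `c (ρ i) = θ (c i)` (on generators: `c^(rβ) = θ (c^β)`), maps
`U 1`, `Um` to themselves, so `fixU`, `fixUm`, `EE` to themselves. `pa (tw_c x) = tad c * pa x * (tad c)⁻¹` on
generators (`tad_xg`), so everywhere. `NE_map`: generators: `pa_Eg`, `pa_map`, `map_mem_EE`; `mp φ (tad c) =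
tad (φ c)`. `chain_step`: `f₂' = X₂.f ∘ α` with `α` from `NE_aut` for `A`. `p₂ (f₂' (emap φ x)) =
pa (α (emap φ x)) = A pa (emap φ x) A⁻¹ = A mp φ (pa x) A⁻¹ = p₂ (ψ (f₁ x))`. So the homomorphisms
`ψ ∘ f₁` and `f₂' ∘ emap φ` from `EE D K₁ θ₁` to `G₂` agree modulo the centre (`center_iff`), and
`hom_eq` (with `Kd.env`) shows that they are equal.
-/

set_option autoImplicit false
open Matrix
universe u
namespace Pool.Agent.H75.UL

open Pool.Agent.H86.UM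

variable {n : ℕ} {C : SLC n} {D : Dg C} {tw : Bool}

private noncomputable def E9_chi {K : Type u} [Field K] (c : Fin n → Kˣ) (v : Fin n → ℤ) : Kˣ :=
  ∏ j, c j ^ v j

private theorem E9_chi_add {K : Type u} [Field K] (c : Fin n → Kˣ) (v w : Fin n → ℤ) :
    E9_chi c (v + w) = E9_chi c v * E9_chi c w := by
  unfold E9_chi
  rw [← Finset.prod_mul_distrib]
  refine Finset.prod_congr rfl fun j _ => ?_
  rw [Pi.add_apply, _root_.zpow_add]

private theorem E9_chi_zero {K : Type u} [Field K] (c : Fin n → Kˣ) : E9_chi c 0 = 1 := by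
  unfold E9_chi
  simp

private theorem E9_X_apply {K : Type u} [Field K] (β : C.Root) (u : K) (a b : C.Idx) :
    C.X K β u a b = (1 : Matrix C.Idx C.Idx K) a b + u * ((C.E β a b : ℤ) : K) +
      u ^ 2 * ((C.F β a b : ℤ) : K) := by
  unfold SLC.X
  rw [Matrix.add_apply, Matrix.add_apply, Matrix.smul_apply, Matrix.smul_apply, Matrix.map_apply,
    Matrix.map_apply, smul_eq_mul, smul_eq_mul]

theorem tad_xg {K : Type u} [Field K] (c : Fin n → Kˣ) (β : C.Root) (t : K) :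
    tad (C := C) c * C.xg K β t * (tad (C := C) c)⁻¹ =
      C.xg K β (((∏ j, c j ^ β.1 j : Kˣ) : K) * t) := by
  have hneg : ((E9_chi c β.1 : Kˣ) : K) * ((E9_chi c (-β.1) : Kˣ) : K) = 1 := by
    rw [← Units.val_mul, ← E9_chi_add, add_neg_cancel, E9_chi_zero, Units.val_one]
  rw [mul_inv_eq_iff_eq_mul]
  apply Units.ext
  rw [Units.val_mul, Units.val_mul]
  show Matrix.diagonal (Sum.elim (fun _ => (1 : K))
      (fun γ : C.Root => ((∏ j, c j ^ γ.1 j : Kˣ) : K))) * C.X K β t =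
    C.X K β ((E9_chi c β.1 : K) * t) * Matrix.diagonal (Sum.elim (fun _ => (1 : K))
      (fun γ : C.Root => ((∏ j, c j ^ γ.1 j : Kˣ) : K)))
  ext a b
  rw [Matrix.diagonal_mul, Matrix.mul_diagonal, E9_X_apply, E9_X_apply]
  have h1 : (Sum.elim (fun _ => (1 : K)) (fun γ : C.Root => ((∏ j, c j ^ γ.1 j : Kˣ) : K)) a) *
      (1 : Matrix C.Idx C.Idx K) a b = (1 : Matrix C.Idx C.Idx K) a b *
      (Sum.elim (fun _ => (1 : K)) (fun γ : C.Root => ((∏ j, c j ^ γ.1 j : Kˣ) : K)) b) := by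
    by_cases hab : a = b
    · subst hab
      ring
    · rw [Matrix.one_apply_ne hab]
      ring
  have h2 : (Sum.elim (fun _ => (1 : K)) (fun γ : C.Root => ((∏ j, c j ^ γ.1 j : Kˣ) : K)) a) *
      ((C.E β a b : ℤ) : K) = (E9_chi c β.1 : K) * ((C.E β a b : ℤ) : K) *
      (Sum.elim (fun _ => (1 : K)) (fun γ : C.Root => ((∏ j, c j ^ γ.1 j : Kˣ) : K)) b) := by
    rcases a with i | γ <;> rcases b with j | δ
    · simp [SLC.E]
    · simp only [SLC.E, Sum.elim_inl, Sum.elim_inr]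
      split_ifs with h
      · have h3 : ((∏ j, c j ^ δ.1 j : Kˣ) : K) = ((E9_chi c (-β.1) : Kˣ) : K) := by
          rw [h]
          rfl
        rw [h3, one_mul, mul_right_comm, hneg, one_mul]
      · simp
    · simp only [SLC.E, Sum.elim_inl, Sum.elim_inr]
      split_ifs with h
      · have h3 : ((∏ j, c j ^ γ.1 j : Kˣ) : K) = ((E9_chi c β.1 : Kˣ) : K) := by
          rw [h]
          rfl
        rw [h3, mul_one]
      · simp
    · simp only [SLC.E, Sum.elim_inr]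
      split_ifs with h
      · have h3 : ((∏ j, c j ^ γ.1 j : Kˣ) : K) = ((E9_chi c β.1 : Kˣ) : K) *
            ((∏ j, c j ^ δ.1 j : Kˣ) : K) := by
          rw [h, ← Units.val_mul]
          have h4 := E9_chi_add c β.1 δ.1
          unfold E9_chi at h4 ⊢
          rw [h4]
        rw [h3]
        ring
      · simp
  have h3 : (Sum.elim (fun _ => (1 : K)) (fun γ : C.Root => ((∏ j, c j ^ γ.1 j : Kˣ) : K)) a) *
      ((C.F β a b : ℤ) : K) = (E9_chi c β.1 : K) ^ 2 * ((C.F β a b : ℤ) : K) *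
      (Sum.elim (fun _ => (1 : K)) (fun γ : C.Root => ((∏ j, c j ^ γ.1 j : Kˣ) : K)) b) := by
    rcases a with i | γ <;> rcases b with j | δ
    · simp [SLC.F]
    · simp [SLC.F]
    · simp [SLC.F]
    · simp only [SLC.F, Sum.elim_inr]
      split_ifs with h
      · have h4 : ((∏ j, c j ^ γ.1 j : Kˣ) : K) = ((E9_chi c β.1 : Kˣ) : K) := by
          rw [h.1]
          rfl
        have h5 : ((∏ j, c j ^ δ.1 j : Kˣ) : K) = ((E9_chi c (-β.1) : Kˣ) : K) := by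
          rw [h.2]
          rfl
        rw [h4, h5]
        linear_combination (-(E9_chi c β.1 : K)) * ((1 : ℤ) : K) * hneg
      · simp
  linear_combination h1 + t * h2 + t ^ 2 * h3

theorem mp_tad {K K' : Type u} [Field K] [Field K'] (φ : K →+* K') (c : Fin n → Kˣ) :
    C.mp φ (tad (C := C) c) = tad (C := C) (fun i => Units.map (φ : K →* K') (c i)) := by
  apply Units.ext
  rw [SLC.mp_val]
  show (Matrix.diagonal (Sum.elim (fun _ => (1 : K))
      (fun γ : C.Root => ((∏ j, c j ^ γ.1 j : Kˣ) : K)))).map φ =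
    Matrix.diagonal (Sum.elim (fun _ => (1 : K'))
      (fun γ : C.Root => ((∏ j, (Units.map (φ : K →* K') (c j)) ^ γ.1 j : K'ˣ) : K')))
  rw [Matrix.diagonal_map (map_zero φ)]
  congr 1
  funext a
  rcases a with i | γ
  · simp
  · simp only [Sum.elim_inr]
    have h : (∏ j, (Units.map (φ : K →* K') (c j)) ^ γ.1 j : K'ˣ) =
        Units.map (φ : K →* K') (∏ j, c j ^ γ.1 j) := by
      rw [map_prod]
      refine Finset.prod_congr rfl fun j _ => ?_
      rw [map_zpow]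
    rw [h]
    rfl

/-! ### The diagonal automorphism of the universal group -/

private theorem E9_h1 (C : SLC n) : ∀ i j, C.A ((1 : Equiv.Perm (Fin n)) i)
    ((1 : Equiv.Perm (Fin n)) j) = C.A i j := fun _ _ => rfl

private theorem E9_rmap_one (hπ : ∀ i j, C.A ((1 : Equiv.Perm (Fin n)) i)
    ((1 : Equiv.Perm (Fin n)) j) = C.A i j) (β : C.Root) : C.rmap 1 hπ β = β := by
  apply SLC.Root.ext
  rfl

private theorem E9_eta_one (v : Fin n → ℤ) : C.eta 1 v = 1 := by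
  unfold SLC.eta SLC.qq
  simp

/-- The diagonal automorphism `x_β(t) ↦ x_β(c^β t)` of the universal group. -/
private noncomputable def E9_tw (C : SLC n) {K : Type u} [Field K] (c : Fin n → Kˣ) :
    GU C K →* GU C K :=
  GU.lift ((GU.sys C K).twist 1 1 (E9_h1 C) (fun i => (c i : K)) (fun i => (c i).ne_zero))

private theorem E9_val_prod {K : Type u} [Field K] (c : Fin n → Kˣ) (v : Fin n → ℤ) :
    ((∏ j, c j ^ v j : Kˣ) : K) = ∏ j, (c j : K) ^ v j := by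
  rw [Units.coe_prod]
  refine Finset.prod_congr rfl fun j _ => ?_
  rw [Units.val_zpow_eq_zpow_val]

private theorem E9_tw_x {K : Type u} [Field K] (c : Fin n → Kˣ) (β : C.Root) (t : K) :
    E9_tw C c (GU.x C K β t) = GU.x C K β (((∏ j, c j ^ β.1 j : Kˣ) : K) * t) := by
  unfold E9_tw
  rw [GU.lift_x, StSys.twist_x, one_mul, inv_one, mul_one, E9_rmap_one, E9_eta_one, Int.cast_one,
    one_mul, E9_val_prod]
  rfl

private theorem E9_tw_inv {K : Type u} [Field K] (c : Fin n → Kˣ) (x : GU C K) :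
    E9_tw C c⁻¹ (E9_tw C c x) = x := by
  have key : (E9_tw C c⁻¹).comp (E9_tw C c) = MonoidHom.id _ := by
    apply GU.hom_ext
    intro β t
    rw [MonoidHom.comp_apply, E9_tw_x, E9_tw_x, MonoidHom.id_apply, ← mul_assoc, ← Units.val_mul,
      ← Finset.prod_mul_distrib]
    have h : (∏ j, (c⁻¹ j) ^ β.1 j * c j ^ β.1 j) = 1 := by
      apply Finset.prod_eq_one
      intro j _
      rw [Pi.inv_apply, ← mul_zpow, inv_mul_cancel, _root_.one_zpow]
    rw [h, Units.val_one, one_mul]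
  exact DFunLike.congr_fun key x

private theorem E9_tw_sig (D : Dg C) {K : Type u} [Field K] (θ : K ≃+* K) (c : Fin n → Kˣ)
    (hc : ∀ i, (c (D.ρ i) : K) = θ (c i)) (x : GU C K) :
    E9_tw C c (D.sig θ x) = D.sig θ (E9_tw C c x) := by
  have key : (E9_tw C c).comp (D.sig θ) = (D.sig θ).comp (E9_tw C c) := by
    apply GU.hom_ext
    intro β t
    rw [MonoidHom.comp_apply, MonoidHom.comp_apply, E9_tw_x]
    have h1 := isSig_GU D θ β t
    have h2 := isSig_GU D θ β (((∏ j, c j ^ β.1 j : Kˣ) : K) * t)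
    change (D.sig θ) (GU.x C K β _) = GU.x C K (D.r β) _ at h1
    change (D.sig θ) (GU.x C K β _) = GU.x C K (D.r β) _ at h2
    rw [h1, h2, E9_tw_x]
    congr 1
    have h3 : ((∏ j, c j ^ (D.r β).1 j : Kˣ) : K) = θ ((∏ j, c j ^ β.1 j : Kˣ) : K) := by
      rw [E9_val_prod, E9_val_prod, map_prod, ← Equiv.prod_comp D.ρ]
      refine Finset.prod_congr rfl fun j _ => ?_
      rw [D.r_val, hc, map_zpow₀]
    rw [h3, map_mul]
    ring
  exact DFunLike.congr_fun key x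

private theorem E9_tw_U {K : Type u} [Field K] (c : Fin n → Kˣ) (x : GU C K)
    (hx : x ∈ (GU.sys C K).U 1) : E9_tw C c x ∈ (GU.sys C K).U 1 := by
  unfold StSys.U at hx
  induction hx using Subgroup.closure_induction with
  | mem y hy =>
    obtain ⟨β, t, hβ, rfl⟩ := hy
    change E9_tw C c (GU.x C K β t) ∈ _
    rw [E9_tw_x]
    exact Subgroup.subset_closure ⟨β, _, hβ, rfl⟩
  | one => rw [map_one]; exact one_mem _
  | mul a b _ _ ha hb => rw [map_mul]; exact mul_mem ha hb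
  | inv a _ ha => rw [map_inv]; exact inv_mem ha

private theorem E9_tw_Um {K : Type u} [Field K] (c : Fin n → Kˣ) (x : GU C K)
    (hx : x ∈ (GU.sys C K).Um) : E9_tw C c x ∈ (GU.sys C K).Um := by
  unfold StSys.Um at hx
  induction hx using Subgroup.closure_induction with
  | mem y hy =>
    obtain ⟨β, t, hβ, rfl⟩ := hy
    change E9_tw C c (GU.x C K β t) ∈ _
    rw [E9_tw_x]
    exact Subgroup.subset_closure ⟨β, _, hβ, rfl⟩
  | one => rw [map_one]; exact one_mem _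
  | mul a b _ _ ha hb => rw [map_mul]; exact mul_mem ha hb
  | inv a _ ha => rw [map_inv]; exact inv_mem ha

private theorem E9_tw_EE (D : Dg C) {K : Type u} [Field K] (θ : K ≃+* K) (c : Fin n → Kˣ)
    (hc : ∀ i, (c (D.ρ i) : K) = θ (c i)) (x : GU C K) (hx : x ∈ EE D K θ) :
    E9_tw C c x ∈ EE D K θ := by
  have h1 : EE D K θ ≤ (EE D K θ).comap (E9_tw C c) := by
    refine sup_le ?_ ?_
    · rintro u ⟨hu, hs⟩
      refine (le_sup_left : fixU (GU.sys C K) (D.sig θ) ≤ _) ⟨E9_tw_U c u hu, ?_⟩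
      have hs' : D.sig θ u = u := hs
      change D.sig θ (E9_tw C c u) = E9_tw C c u
      rw [← E9_tw_sig D θ c hc, hs']
    · rintro u ⟨hu, hs⟩
      refine (le_sup_right : fixUm (GU.sys C K) (D.sig θ) ≤ _) ⟨E9_tw_Um c u hu, ?_⟩
      have hs' : D.sig θ u = u := hs
      change D.sig θ (E9_tw C c u) = E9_tw C c u
      rw [← E9_tw_sig D θ c hc, hs']
  exact h1 hx

private theorem E9_pa_tw {K : Type u} [Field K] (c : Fin n → Kˣ) (x : GU C K) :
    pa C K (E9_tw C c x) = tad (C := C) c * pa C K x * (tad (C := C) c)⁻¹ := by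
  have key : (pa C K).comp (E9_tw C c) =
      (MulAut.conj (tad (C := C) c)).toMonoidHom.comp (pa C K) := by
    apply GU.hom_ext
    intro β t
    rw [MonoidHom.comp_apply, MonoidHom.comp_apply, E9_tw_x, GU.lift_x, GU.lift_x]
    exact (tad_xg c β t).symm
  exact DFunLike.congr_fun key x

private theorem E9_hc_inv (D : Dg C) {K : Type u} [Field K] (θ : K ≃+* K) (c : Fin n → Kˣ)
    (hc : ∀ i, (c (D.ρ i) : K) = θ (c i)) : ∀ i, (c⁻¹ (D.ρ i) : K) = θ (c⁻¹ i) := by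
  intro i
  rw [Pi.inv_apply, Pi.inv_apply, Units.val_inv_eq_inv_val, Units.val_inv_eq_inv_val, hc,
    map_inv₀]

/-- The diagonal automorphism of `E(K, θ)`. -/
private noncomputable def E9_al (D : Dg C) {K : Type u} [Field K] (θ : K ≃+* K) (c : Fin n → Kˣ)
    (hc : ∀ i, (c (D.ρ i) : K) = θ (c i)) : EE D K θ ≃* EE D K θ where
  toFun x := ⟨E9_tw C c x, E9_tw_EE D θ c hc x x.2⟩
  invFun x := ⟨E9_tw C c⁻¹ x, E9_tw_EE D θ c⁻¹ (E9_hc_inv D θ c hc) x x.2⟩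
  left_inv x := Subtype.ext (E9_tw_inv c x.1)
  right_inv x := by
    apply Subtype.ext
    have h := E9_tw_inv c⁻¹ (x : GU C K)
    rw [inv_inv] at h
    exact h
  map_mul' x y := Subtype.ext (map_mul (E9_tw C c) (x : GU C K) y)

/-- The elements of `GL` inducing automorphisms of `E(K, θ)`. -/
private noncomputable def E9_P (D : Dg C) {K : Type u} [Field K] (θ : K ≃+* K) :
    Subgroup (GL C.Idx K) where
  carrier := {A | ∃ α : EE D K θ ≃* EE D K θ, ∀ x, pa C K (α x) = A * pa C K x * A⁻¹}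
  one_mem' := ⟨MulEquiv.refl _, fun x => by simp⟩
  mul_mem' := by
    rintro A B ⟨α, hα⟩ ⟨β, hβ⟩
    refine ⟨β.trans α, fun x => ?_⟩
    rw [MulEquiv.trans_apply, hα, hβ, _root_.mul_inv_rev]
    simp only [mul_assoc]
  inv_mem' := by
    rintro A ⟨α, hα⟩
    refine ⟨α.symm, fun x => ?_⟩
    have h := hα (α.symm x)
    rw [MulEquiv.apply_symm_apply] at h
    rw [h]
    group

theorem NE_aut {K : Type u} [Field K] (θ : K ≃+* K) (A : GL C.Idx K) (hA : A ∈ NE D θ) :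
    ∃ α : EE D K θ ≃* EE D K θ, ∀ x, pa C K (α x) = A * pa C K x * A⁻¹ := by
  have h1 : NE D θ ≤ E9_P D θ := by
    refine sup_le ?_ ?_
    · intro B hB
      obtain ⟨v, hv, rfl⟩ := (pa_Eg D θ B).1 hB
      refine ⟨MulAut.conj ⟨v, hv⟩, fun x => ?_⟩
      rw [MulAut.conj_apply]
      simp only [Subgroup.coe_mul, Subgroup.coe_inv, map_mul, map_inv]
    · rw [Subgroup.closure_le]
      rintro B ⟨c, hc, rfl⟩
      exact ⟨E9_al D θ c hc, fun x => E9_pa_tw c x.1⟩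
  exact h1 hA

theorem NE_map {K K' : Type u} [Field K] [Field K'] (θ : K ≃+* K) (θ' : K' ≃+* K')
    (φ : K →+* K') (h : ∀ t, φ (θ t) = θ' (φ t)) (A : GL C.Idx K) (hA : A ∈ NE D θ) :
    C.mp φ A ∈ NE D θ' := by
  have h1 : NE D θ ≤ (NE D θ').comap (C.mp φ) := by
    refine sup_le ?_ ?_
    · intro B hB
      obtain ⟨v, hv, rfl⟩ := (pa_Eg D θ B).1 hB
      rw [Subgroup.mem_comap, ← pa_map]
      exact (le_sup_left : Eg (C.adS K') (D.sgl θ') ≤ NE D θ')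
        ((pa_Eg D θ' _).2 ⟨GU.map φ v, map_mem_EE D θ θ' φ h v hv, rfl⟩)
    · rw [Subgroup.closure_le]
      rintro B ⟨c, hc, rfl⟩
      rw [SetLike.mem_coe, Subgroup.mem_comap, mp_tad]
      refine (le_sup_right : _ ≤ NE D θ') (Subgroup.subset_closure ⟨_, fun i => ?_, rfl⟩)
      change φ (c (D.ρ i) : K) = θ' (φ (c i : K))
      rw [hc, h]
  exact h1 hA

theorem chain_stepE (hn : 0 < n) {G₁ G₂ : Type u} [Group G₁] [Group G₂] (X₁ : GD D tw G₁)
    (X₂ : GD D tw G₂) (ψ : G₁ →* G₂) (φ : X₁.K →+* X₂.K) (hφ : ∀ t, φ (X₁.θ t) = X₂.θ (φ t))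
    (A : GL C.Idx X₂.K) (hA : A ∈ NE D X₂.θ)
    (h : ∀ x : EE D X₁.K X₁.θ, X₁.Psi X₂ ψ x = A * C.mp φ (pa C X₁.K x) * A⁻¹) :
    ∃ f₂ : EE D X₂.K X₂.θ →* G₂, Function.Surjective f₂ ∧
      f₂.ker ≤ Subgroup.center (EE D X₂.K X₂.θ) ∧
      (∀ x, X₂.p (f₂ x) = A * pa C X₂.K x * A⁻¹) ∧
      ∀ x, ψ (X₁.f x) = f₂ (emap D X₁.θ X₂.θ φ hφ x) := by
  obtain ⟨α, hα⟩ := NE_aut X₂.θ A hA
  have hp : ∀ x, X₂.p ((X₂.f.comp α.toMonoidHom) x) = A * pa C X₂.K x * A⁻¹ := by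
    intro x
    rw [MonoidHom.comp_apply]
    exact (X₂.hp _).trans (hα x)
  refine ⟨X₂.f.comp α.toMonoidHom, X₂.surj.comp α.surjective, ?_, hp, ?_⟩
  · intro x hx
    have h1 : α x ∈ Subgroup.center (EE D X₂.K X₂.θ) := X₂.ker_le hx
    rw [Subgroup.mem_center_iff] at h1 ⊢
    intro y
    apply α.injective
    rw [map_mul, map_mul]
    exact h1 (α y)
  · have he := Kd.env D X₁.kd X₁.inf
    have h2 : ψ.comp X₁.f =
        (X₂.f.comp α.toMonoidHom).comp (emap D X₁.θ X₂.θ φ hφ) := by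
      apply hom_eq he
      intro x
      refine ⟨((X₂.f.comp α.toMonoidHom).comp (emap D X₁.θ X₂.θ φ hφ) x)⁻¹ *
        (ψ.comp X₁.f) x, ?_, by group⟩
      rw [← X₂.center_iff hn, map_mul, map_inv, MonoidHom.comp_apply (X₂.f.comp α.toMonoidHom),
        hp, emap_val, pa_map]
      have h3 := h x
      rw [GD.Psi_apply] at h3
      rw [MonoidHom.comp_apply, h3]
      group
    intro x
    exact DFunLike.congr_fun h2 x

end Pool.Agent.H75.UL
end

section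
/- module Pool.Agent.H75.UE.M1a -/
/-!
# Project UE, module M1a: the recursion step

`X₁' = {X₁ with f := f₁, p := cj X₁.p B}` (`p' y = B⁻¹ * X₁.p y * B`) is a `GD`. Claim:
`Psi X₁' X₂ ψ x = A' * mp φ (pa x) * A'⁻¹` with `A' = A * mp φ B ∈ NE D θ₂` (`NE_map`): by `NE_aut`
`B * pa x * B⁻¹ = pa (α x)`, so `X₁.p (f₁ x) = X₁.p (X₁.f (α x))`, so `f₁ x = X₁.f (α x) * z`, `z` central in
`G₁` (`center_iff`), and `X₂.p (ψ z) = 1` (`center_map`); so `X₂.p (ψ (f₁ x)) = Psi X₁ X₂ ψ (α x) =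
A * mp φ (pa (α x)) * A⁻¹ = A * mp φ (B * pa x * B⁻¹) * A⁻¹`. `chain_stepE` for `X₁'`, `X₂`, `A'`.
-/

set_option autoImplicit false
open Matrix
universe u
namespace Pool.Agent.H75.UL

open Pool.Agent.H86.UM

variable {n : ℕ} {C : SLC n} {D : Dg C} {tw : Bool}

theorem stepE (hn : 0 < n) {G₁ G₂ : Type u} [Group G₁] [Group G₂] (X₁ : GD D tw G₁)
    (X₂ : GD D tw G₂) (ψ : G₁ →* G₂) (hψ : Function.Injective ψ) (h : FF X₁ X₂ ψ)
    (f₁ : EE D X₁.K X₁.θ →* G₁) (hf₁ : Function.Surjective f₁)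
    (hk₁ : f₁.ker ≤ Subgroup.center (EE D X₁.K X₁.θ))
    (hB : ∃ B ∈ NE D X₁.θ, ∀ x, X₁.p (f₁ x) = B * pa C X₁.K x * B⁻¹) :
    ∃ (φ : X₁.K →+* X₂.K) (hφ : ∀ t, φ (X₁.θ t) = X₂.θ (φ t)) (f₂ : EE D X₂.K X₂.θ →* G₂),
      Function.Surjective f₂ ∧ f₂.ker ≤ Subgroup.center (EE D X₂.K X₂.θ) ∧
      (∃ B ∈ NE D X₂.θ, ∀ x, X₂.p (f₂ x) = B * pa C X₂.K x * B⁻¹) ∧
      ∀ x, ψ (f₁ x) = f₂ (emap D X₁.θ X₂.θ φ hφ x) := by
  obtain ⟨B, hBm, hBp⟩ := hB
  obtain ⟨φ, A, hφ, hA, hPsi⟩ := h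
  obtain ⟨α, hα⟩ := NE_aut X₁.θ B hBm
  have hcm : ∀ z ∈ Subgroup.center G₁, X₂.p (ψ z) = 1 := by
    intro z hz
    obtain ⟨y, hy⟩ := X₁.surj z
    refine X₁.cent X₂ ψ hn hψ (X₂.p (ψ z)) ?_ fun x => ?_
    · rw [← hy, ← GD.Psi_apply]
      exact X₁.Psi_Gad X₂ ψ y
    · rw [GD.Psi_apply, ← map_mul, ← map_mul, ← map_mul, ← map_mul,
        Subgroup.mem_center_iff.mp hz (X₁.f x)]
  let X₁' : GD D tw G₁ :=
    { K := X₁.K
      fK := X₁.fK
      θ := X₁.θ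
      kd := X₁.kd
      inf := X₁.inf
      f := f₁
      surj := hf₁
      ker_le := hk₁
      p := cj X₁.p B
      hp := fun x => by
        have h1 : cj X₁.p B (f₁ x) = B⁻¹ * X₁.p (f₁ x) * B := by
          change MulAut.conj B⁻¹ (X₁.p (f₁ x)) = _
          rw [MulAut.conj_apply, inv_inv]
        rw [h1, hBp x]
        group }
  have hA' : A * C.mp φ B ∈ NE D X₂.θ := mul_mem hA (NE_map X₁.θ X₂.θ φ hφ B hBm)
  have hPsi' : ∀ x : EE D X₁.K X₁.θ, X₂.p (ψ (f₁ x)) =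
      A * C.mp φ B * C.mp φ (pa C X₁.K x) * (A * C.mp φ B)⁻¹ := by
    intro x
    have h1 : X₁.p (f₁ x) = X₁.p (X₁.f (α x)) := by rw [hBp, X₁.hp, hα]
    have h2 : X₁.p ((X₁.f (α x))⁻¹ * f₁ x) = 1 := by
      rw [map_mul, map_inv, h1, inv_mul_cancel]
    have h3 := hcm _ ((X₁.center_iff hn _).mp h2)
    have h4 : X₂.p (ψ (f₁ x)) = X₂.p (ψ (X₁.f (α x))) := by
      rw [map_mul, map_mul, map_inv, map_inv] at h3
      exact (inv_mul_eq_one.mp h3).symm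
    have h5 := hPsi (α x)
    rw [GD.Psi_apply] at h5
    rw [h4, h5, hα, map_mul, map_mul, map_inv]
    group
  obtain ⟨f₂, hs, hk, hp₂, hc⟩ := chain_stepE hn X₁' X₂ ψ φ hφ (A * C.mp φ B) hA' hPsi'
  exact ⟨φ, hφ, f₂, hs, hk, ⟨_, hA', hp₂⟩, hc⟩

end Pool.Agent.H75.UL
end

section
/- module Pool.Agent.H75.UE.M1 -/
/-!
# Project UE, module M1: the theorem for one type

As in `main_one` (H75/UL/C4.lean) choose a strictly increasing `ψ₀ k`, starting after an infinite member,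
with `IsE D tw (H (ψ₀ k))`, and `X k : GD D tw (H (ψ₀ k))` (`exists_GD`; all these groups are infinite). For
`i ≤ j` let `inc i j : H (ψ₀ i) →* H (ψ₀ j)` be the inclusion. `exists_seq` for
`P i j π = ∃ h : i ≤ j, PE (X i) (X j) (inc) π` on `Equiv.Perm D.Orb` (`exists_exact`, `PE_comp`) gives a
subsequence with `P (φ₁ a) (φ₁ b) 1`. If `D.m ≠ 3` then `FF` holds for consecutive members
(`functorial_of_PE`). If `D.m = 3` apply `exists_seq` again with `Q = (ZMod 3)ˣ` and `PR` (`PR_exists`,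
`PR_comp`), so `FF` for consecutive members of a subsequence (`functorial_of_PR`). So in both cases there is a
strictly increasing `ψ k` with `Y k : GD D tw (H (ψ k))` and `FF (Y k) (Y (k+1)) inc`. Recursion with
`stepE`, starting with `f = (Y 0).f`, `B = 1`; `limitE`.
-/

set_option autoImplicit false
open Matrix
universe u
namespace Pool.Agent.H75.UL

open Pool.Agent.H86.UM

variable {n : ℕ} {C : SLC n} {D : Dg C} {tw : Bool}

theorem main_D (hn : 0 < n) (G : Type u) [Group G] (H : ℕ → Subgroup G) (hH : Monotone H)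
    (hG : ∀ g : G, ∃ i, g ∈ H i) (hA : ∀ m : ℕ, ∃ i, m ≤ i ∧ IsE D tw (H i))
    (hinf : ∃ i, Infinite (H i)) : IsE D tw G := by
  obtain ⟨i₀, hi₀⟩ := hinf
  choose φ hφ hφA using hA
  -- a subsequence of members of the given type
  let ψ₀ : ℕ → ℕ := fun k => Nat.rec (φ i₀) (fun _ m => φ (m + 1)) k
  have hψA : ∀ k, IsE D tw (H (ψ₀ k)) := by
    intro k
    cases k with
    | zero => exact hφA i₀
    | succ k => exact hφA (ψ₀ k + 1)
  have hψlt : ∀ k, ψ₀ k < ψ₀ (k + 1) := fun k => Nat.lt_of_succ_le (hφ (ψ₀ k + 1))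
  have hψmono : StrictMono ψ₀ := strictMono_nat_of_lt_succ hψlt
  have hψi : i₀ ≤ ψ₀ 0 := hφ i₀
  have hInf : ∀ k, Infinite (H (ψ₀ k)) := fun k =>
    Infinite.of_injective _ (Subgroup.inclusion_injective
      (hH (hψi.trans (hψmono.monotone (Nat.zero_le k)))))
  have hX : ∀ k, Nonempty (GD D tw (H (ψ₀ k))) := by
    intro k
    have := hInf k
    exact exists_GD hn (hψA k)
  let X : ∀ k, GD D tw (H (ψ₀ k)) := fun k => Classical.choice (hX k)
  have hlt : ∀ i j, i < j → H (ψ₀ i) ≤ H (ψ₀ j) := fun i j h => hH (hψmono h).le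
  have hcompE : ∀ i j k (h : H (ψ₀ i) ≤ H (ψ₀ j)) (h' : H (ψ₀ j) ≤ H (ψ₀ k)),
      (Subgroup.inclusion h').comp (Subgroup.inclusion h) = Subgroup.inclusion (h.trans h') :=
    fun i j k h h' => rfl
  obtain ⟨φ₁, hφ₁, hP⟩ := exists_seq (Q := Equiv.Perm D.Orb)
    (fun i j π => ∃ h : H (ψ₀ i) ≤ H (ψ₀ j), PE (X i) (X j) (Subgroup.inclusion h) π)
    (by
      intro i j hij
      obtain ⟨g, hg, π, hπ⟩ := GD.exists_exact (X i) (X j) (Subgroup.inclusion (hlt i j hij)) hn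
        (Subgroup.inclusion_injective _)
      exact ⟨π, hlt i j hij, g, hg, hπ⟩)
    (by
      rintro i j k a b - - ⟨h, ha⟩ ⟨h', hb⟩
      refine ⟨h.trans h', ?_⟩
      rw [← hcompE i j k h h']
      exact PE_comp (X i) (X j) (X k) (Subgroup.inclusion h) (Subgroup.inclusion h') hn
        (Subgroup.inclusion_injective _) (Subgroup.inclusion_injective _) a b ha hb)
  -- a subsequence with the functorial form
  have key : ∃ χ : ℕ → ℕ, StrictMono χ ∧ ∀ k, ∃ h : H (ψ₀ (χ k)) ≤ H (ψ₀ (χ (k + 1))),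
      FF (X (χ k)) (X (χ (k + 1))) (Subgroup.inclusion h) := by
    by_cases hm : D.m = 3
    · obtain ⟨φ₂, hφ₂, hQ⟩ := exists_seq (Q := (ZMod 3)ˣ)
        (fun i j e => ∃ h : H (ψ₀ (φ₁ i)) ≤ H (ψ₀ (φ₁ j)),
          PR (X (φ₁ i)) (X (φ₁ j)) (Subgroup.inclusion h) e)
        (by
          intro i j hij
          obtain ⟨h, hPE⟩ := hP i j hij
          obtain ⟨e, he⟩ := PR_exists (X (φ₁ i)) (X (φ₁ j)) (Subgroup.inclusion h) hn hm
            (Subgroup.inclusion_injective _) hPE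
          exact ⟨e, h, he⟩)
        (by
          rintro i j k a b - - ⟨h, ha⟩ ⟨h', hb⟩
          refine ⟨h.trans h', ?_⟩
          rw [← hcompE _ _ _ h h']
          exact PR_comp (X (φ₁ i)) (X (φ₁ j)) (X (φ₁ k)) (Subgroup.inclusion h)
            (Subgroup.inclusion h') hn hm
            (Subgroup.inclusion_injective _) (Subgroup.inclusion_injective _) a b ha hb)
      refine ⟨fun k => φ₁ (φ₂ k), hφ₁.comp hφ₂, fun k => ?_⟩
      obtain ⟨h, hR⟩ := hQ k (k + 1) (Nat.lt_succ_self k)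
      exact ⟨h, functorial_of_PR _ _ _ hn hm (Subgroup.inclusion_injective _) hR⟩
    · refine ⟨φ₁, hφ₁, fun k => ?_⟩
      obtain ⟨h, hE⟩ := hP k (k + 1) (Nat.lt_succ_self k)
      exact ⟨h, functorial_of_PE _ _ _ hn hm (Subgroup.inclusion_injective _) hE⟩
  obtain ⟨χ, hχ, hFF⟩ := key
  let ψ : ℕ → ℕ := fun k => ψ₀ (χ k)
  have hψ : StrictMono ψ := hψmono.comp hχ
  let Y : ∀ k, GD D tw (H (ψ k)) := fun k => X (χ k)
  have hle : ∀ k, H (ψ k) ≤ H (ψ (k + 1)) := fun k => hH (hψ (Nat.lt_succ_self k)).le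
  have hFF' : ∀ k, FF (Y k) (Y (k + 1)) (Subgroup.inclusion (hle k)) := by
    intro k
    obtain ⟨h, hf⟩ := hFF k
    exact hf
  let St : ℕ → Type u := fun k => {f : EE D (Y k).K (Y k).θ →* H (ψ k) //
    Function.Surjective f ∧ f.ker ≤ Subgroup.center (EE D (Y k).K (Y k).θ) ∧
    ∃ B ∈ NE D (Y k).θ, ∀ x, (Y k).p (f x) = B * pa C (Y k).K x * B⁻¹}
  have step : ∀ (k : ℕ) (T : St k), ∃ (φ : (Y k).K →+* (Y (k + 1)).K)
      (hφ : ∀ t, φ ((Y k).θ t) = (Y (k + 1)).θ (φ t)) (T' : St (k + 1)),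
      ∀ x, Subgroup.inclusion (hle k) (T.1 x) =
        T'.1 (emap D (Y k).θ (Y (k + 1)).θ φ hφ x) := by
    intro k T
    obtain ⟨φ', hφ', f₂, s1, s2, s3, s4⟩ := stepE hn (Y k) (Y (k + 1))
      (Subgroup.inclusion (hle k)) (Subgroup.inclusion_injective _) (hFF' k) T.1 T.2.1 T.2.2.1
      T.2.2.2
    exact ⟨φ', hφ', ⟨f₂, s1, s2, s3⟩, s4⟩
  choose Φ hΦ F hF using step
  let T0 : St 0 := ⟨(Y 0).f, (Y 0).surj, (Y 0).ker_le, 1, Subgroup.one_mem _, fun x => by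
    rw [(Y 0).hp, one_mul, inv_one, mul_one]⟩
  let T : ∀ k : ℕ, St k := fun k => Nat.rec (motive := fun k => St k) T0 F k
  refine limitE (fun k => H (ψ k)) hle ?_ (fun k => (Y k).K) (fun k => (Y k).θ)
    (fun k => (Y k).kd) (fun k => Φ k (T k)) (fun k => hΦ k (T k)) (fun k => (T k).1)
    (fun k => (T k).2.1) (fun k => (T k).2.2.1) (fun k x => hF k (T k) x)
  intro g
  obtain ⟨i, hi⟩ := hG g
  exact ⟨i, hH (hψ.id_le i) hi⟩

end Pool.Agent.H75.UL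
end

section
/- module Pool.Agent.H75.UE.M2 -/
/-!
# Project UE, module M2: finitely many types of a given rank

`finite_D`: the types `(n, C, D)` with `Nat.card D.Orb = r` have `n ≤ 3 * r`: `Fin n` is the union of the
fibres of `Fin n → D.Orb`, each a cycle of `D.ρ`, with at most `orderOf D.ρ ≤ 3` elements
(`SameCycle x y` iff `y = (ρ ^ l) x` with `l < orderOf ρ`). `SLC n` is finite (`finite_types`), `Dg C` is
finite (determined by `ρ`). `main_all`: as `main_rank` in H75/UL/C4.lean, by pigeonhole on the finite type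
of all `(n, C, D, tw)`.
-/

set_option autoImplicit false
open Matrix
universe u
namespace Pool.Agent.H75.UL

/-- A type of rank `r`. -/
structure TT (r : ℕ) where
  n : ℕ
  C : SLC n
  D : Dg C
  tw : Bool
  pos : 0 < n
  rank : Nat.card D.Orb = r

private theorem M2_le (r : ℕ) (t : TT r) : t.n < 3 * r + 1 := by
  have hf : Finite t.D.Orb := inferInstance
  let f : t.D.Orb × Fin 3 → Fin t.n := fun p => (t.D.ρ ^ (p.2 : ℕ)) (Quotient.out p.1)
  have hs : Function.Surjective f := by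
    intro i
    have h1 : t.D.ρ.SameCycle (Quotient.out (Quotient.mk _ i : t.D.Orb)) i :=
      Quotient.exact (Quotient.out_eq (Quotient.mk _ i : t.D.Orb))
    obtain ⟨l, hl, h2⟩ := h1.exists_pow_eq'
    have hl3 : l < 3 := by
      have := t.D.ord
      omega
    exact ⟨(Quotient.mk _ i, ⟨l, hl3⟩), h2⟩
  have h1 := Nat.card_le_card_of_surjective f hs
  rw [Nat.card_prod, t.rank, Nat.card_fin, Nat.card_fin] at h1
  omega

private theorem M2_finite_Dg {n : ℕ} (C : SLC n) : Finite (Dg C) := by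
  refine Finite.of_injective (β := Equiv.Perm (Fin n)) (fun D => D.ρ) ?_
  intro D D' h
  cases D
  cases D'
  subst h
  rfl

theorem finite_TT (r : ℕ) : Finite (TT r) := by
  have h1 : ∀ m, Finite (SLC m) := finite_types
  have h2 : ∀ m (C : SLC m), Finite (Dg C) := fun m C => M2_finite_Dg C
  refine Finite.of_injective (β := Σ n : Fin (3 * r + 1), Σ C : SLC n, Dg C × Bool)
    (fun t => ⟨⟨t.n, M2_le r t⟩, t.C, t.D, t.tw⟩) ?_
  rintro ⟨n, C, D, tw, p, rk⟩ ⟨n', C', D', tw', p', rk'⟩ h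
  have h3 : n = n' := congrArg (fun x => (x.1 : ℕ)) h
  subst h3
  simp only [Sigma.mk.injEq, heq_eq_eq, true_and] at h
  obtain ⟨h4, h5⟩ := h
  subst h4
  simp only [heq_eq_eq, Prod.mk.injEq] at h5
  obtain ⟨h6, h7⟩ := h5
  subst h6
  subst h7
  rfl

theorem main_all (r : ℕ) (P : TT r → Prop) (G : Type u) [Group G] (H : ℕ → Subgroup G)
    (hH : Monotone H) (hG : ∀ g : G, ∃ i, g ∈ H i)
    (hA : ∀ m : ℕ, ∃ i, m ≤ i ∧ ∃ t : TT r, P t ∧ IsE t.D t.tw (H i))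
    (hinf : ∃ i, Infinite (H i)) : ∃ t : TT r, P t ∧ IsE t.D t.tw G := by
  have hfin := finite_TT r
  by_cases h : ∃ t : TT r, P t ∧ ∀ m : ℕ, ∃ i, m ≤ i ∧ IsE t.D t.tw (H i)
  · obtain ⟨t, ht, hC⟩ := h
    exact ⟨t, ht, main_D t.pos G H hH hG hC hinf⟩
  · exfalso
    have h' : ∀ t : TT r, ∃ m : ℕ, ∀ i, m ≤ i → P t → ¬ IsE t.D t.tw (H i) := by
      intro t
      by_cases hP : P t
      · by_contra hc
        apply h
        refine ⟨t, hP, fun m => ?_⟩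
        by_contra hc'
        apply hc
        refine ⟨m, fun i hi _ hE => hc' ⟨i, hi, hE⟩⟩
      · exact ⟨0, fun _ _ hP' => absurd hP' hP⟩
    choose m hm using h'
    obtain ⟨M, hM⟩ := (Set.finite_range m).bddAbove
    obtain ⟨i, hi, t, hP, hC⟩ := hA M
    exact hm t i ((hM ⟨t, rfl⟩).trans hi) hP hC

end Pool.Agent.H75.UL
end

section
/- module Pool.Agent.H75.US.S6 -/
/-!
# Project US, module S6: the theorem for one type

`exists_SD`: `G` infinite; if `K` were finite then `GL C.Idx K` would be finite, so `K` is infinite.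
`stepSR`: apply `hT.rigid` to `Ψ = X₂.e ∘ ψ ∘ X₁.e⁻¹`: `em (Ψ x) = a * C.mp φ (em x) * a⁻¹`,
`a = em g * tad C cc`; `tad_aut`, `AutSR.exists_equiv`: an automorphism `f` of `Esr D X₂.σ` with
`em (f y) = a * em y * a⁻¹`; `Y` = `X₂` with `e` replaced by `X₂.e.trans f.symm`.
`main_SR`: as `main_D` in H75/UE/M1.lean: a strictly increasing `ψ k`, starting after an infinite member, with
`IsSRad D t0 (H (ψ k))`; all these groups are infinite; `exists_SD` gives `X k`; recursion with `stepSR`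
(`Nat.rec`, as there: the state at `k` is an element of `SD D t0 (H (ψ k))`) gives `Y k`, `φ k`; `limit_SR`.
-/

set_option autoImplicit false
open Matrix
universe u
namespace Pool.Agent.H75.UL

open Pool.Agent.H86 Pool.Agent.H86.UM

variable {n : ℕ} {C : SLC n} {D : Dg C} {t0 : Fin n → Fin n}

theorem exists_SD {G : Type u} [Group G] [Infinite G] (h : IsSRad D t0 G) :
    Nonempty (SD D t0 G) := by
  obtain ⟨K, fK, θ, σ, hσ, ⟨e⟩⟩ := h
  have hinf : Infinite K := by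
    by_contra hK
    rw [not_infinite_iff_finite] at hK
    have h1 : Finite (GL C.Idx K) := inferInstance
    have h2 : Finite (Esr D σ) := Finite.of_injective _ (em_injective (D := D) (σ := σ))
    have h3 : Finite G := Finite.of_injective e e.injective
    exact not_finite G
  exact ⟨{ K := K, fK := fK, inf := hinf, θ := θ, σ := σ, hσ := hσ, e := e }⟩

theorem stepSR (hT : SRT.{u} D t0) {G₁ G₂ : Type u} [Group G₁] [Group G₂] (X₁ : SD D t0 G₁)
    (X₂ : SD D t0 G₂) (ψ : G₁ →* G₂) (hψ : Function.Injective ψ) :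
    ∃ (Y : SD D t0 G₂) (φ : X₁.K →+* Y.K), (∀ t, φ (X₁.θ t) = Y.θ (φ t)) ∧
      ∀ g : G₁, em (Y.e (ψ g)) = C.mp φ (em (X₁.e g)) := by
  obtain ⟨φ, g, cc, hφ, h1, h2, h3⟩ := hT.rigid X₁.K X₂.K X₁.θ X₂.θ X₁.σ X₂.σ X₁.hσ X₂.hσ
    (X₂.e.toMonoidHom.comp (ψ.comp X₁.e.symm.toMonoidHom)) (by
      intro x y hxy
      exact X₁.e.symm.injective (hψ (X₂.e.injective hxy)))
  obtain ⟨f, hf⟩ := (tad_aut hT.swap X₂.hσ g cc h1 h2).exists_equiv
  refine ⟨{ K := X₂.K, inf := X₂.inf, θ := X₂.θ, σ := X₂.σ, hσ := X₂.hσ,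
            e := X₂.e.trans f.symm }, φ, hφ, ?_⟩
  intro x
  have h4 := hf (f.symm (X₂.e (ψ x)))
  rw [MulEquiv.apply_symm_apply] at h4
  have h5 : em (X₂.e (ψ x)) = em g * (UM.tad C cc * C.mp φ (em (X₁.e x)) *
      (UM.tad C cc)⁻¹) * (em g)⁻¹ := by
    have h6 := h3 (X₁.e x)
    change em (X₂.e (ψ (X₁.e.symm (X₁.e x)))) = _ at h6
    rw [MulEquiv.symm_apply_apply] at h6
    exact h6
  rw [h5] at h4
  change em (f.symm (X₂.e (ψ x))) = C.mp φ (em (X₁.e x))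
  obtain ⟨y, hy⟩ : ∃ y, y = em (f.symm (X₂.e (ψ x))) := ⟨_, rfl⟩
  obtain ⟨z, hz⟩ : ∃ z, z = C.mp φ (em (X₁.e x)) := ⟨_, rfl⟩
  rw [← hy, ← hz] at h4 ⊢
  have h7 : y = (em g * UM.tad C cc)⁻¹ * (em g * UM.tad C cc * y * (em g * UM.tad C cc)⁻¹) *
      (em g * UM.tad C cc) := by group
  rw [h7, ← h4]
  group

theorem main_SR (hT : SRT.{u} D t0) (G : Type u) [Group G] (H : ℕ → Subgroup G)
    (hH : Monotone H) (hG : ∀ g : G, ∃ i, g ∈ H i)
    (hA : ∀ m : ℕ, ∃ i, m ≤ i ∧ IsSRad D t0 (H i)) (hinf : ∃ i, Infinite (H i)) :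
    IsSRad D t0 G := by
  obtain ⟨i₀, hi₀⟩ := hinf
  choose φ hφ hφA using hA
  let ψ : ℕ → ℕ := fun k => Nat.rec (φ i₀) (fun _ m => φ (m + 1)) k
  have hψA : ∀ k, IsSRad D t0 (H (ψ k)) := by
    intro k
    cases k with
    | zero => exact hφA i₀
    | succ k => exact hφA (ψ k + 1)
  have hψlt : ∀ k, ψ k < ψ (k + 1) := fun k => Nat.lt_of_succ_le (hφ (ψ k + 1))
  have hψmono : StrictMono ψ := strictMono_nat_of_lt_succ hψlt
  have hψi : i₀ ≤ ψ 0 := hφ i₀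
  have hInf : ∀ k, Infinite (H (ψ k)) := fun k =>
    Infinite.of_injective _ (Subgroup.inclusion_injective
      (hH (hψi.trans (hψmono.monotone (Nat.zero_le k)))))
  have hX : ∀ k, Nonempty (SD D t0 (H (ψ k))) := by
    intro k
    have := hInf k
    exact exists_SD (hψA k)
  let X : ∀ k, SD D t0 (H (ψ k)) := fun k => Classical.choice (hX k)
  have hle : ∀ k, H (ψ k) ≤ H (ψ (k + 1)) := fun k => hH (hψlt k).le
  have step : ∀ (k : ℕ) (T : SD D t0 (H (ψ k))), ∃ (T' : SD D t0 (H (ψ (k + 1))))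
      (φ' : T.K →+* T'.K), (∀ t, φ' (T.θ t) = T'.θ (φ' t)) ∧
      ∀ g : H (ψ k), em (T'.e (Subgroup.inclusion (hle k) g)) = C.mp φ' (em (T.e g)) :=
    fun k T => stepSR hT T (X (k + 1)) (Subgroup.inclusion (hle k))
      (Subgroup.inclusion_injective _)
  choose F Φ hΦ hF using step
  let T : ∀ k : ℕ, SD D t0 (H (ψ k)) := fun k =>
    Nat.rec (motive := fun k => SD D t0 (H (ψ k))) (X 0) F k
  refine limit_SR hT.swap (fun k => H (ψ k)) hle ?_ T (fun k => Φ k (T k))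
    (fun k => hΦ k (T k)) (fun k => hF k (T k))
  intro g
  obtain ⟨i, hi⟩ := hG g
  exact ⟨i, hH (hψmono.id_le i) hi⟩

end Pool.Agent.H75.UL
end

section
/- module Pool.Agent.H75.US.S9 -/
/-!
# Project US, module S9: assembly for the Suzuki-Ree types and all types
-/

set_option autoImplicit false
open Matrix
universe u
namespace Pool.Agent.H75.UL

open Pool.Agent.H86 Pool.Agent.H86.UM Pool.Agent.H75.LT

theorem isLie_iff_TT (r : ℕ) (G : Type u) [Group G] :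
    IsLie r G ↔ ∃ t : TT r, IsE t.D t.tw G := by
  constructor
  · rintro ⟨n, C, ρ, tw, hn, hs, hr, hT⟩
    exact ⟨⟨n, C, ⟨ρ, hs.map, hs.ord⟩, tw, hn, hr⟩, (isType_iff ⟨ρ, hs.map, hs.ord⟩ tw G).1 hT⟩
  · rintro ⟨t, ht⟩
    exact ⟨t.n, t.C, t.D.ρ, t.tw, t.pos, ⟨t.D.hρ, t.D.ord⟩, t.rank, (isType_iff t.D t.tw G).2 ht⟩

/-- Untwisted and Steinberg types. -/
theorem main_Lie (r : ℕ) (G : Type u) [Group G] (H : ℕ → Subgroup G) (hH : Monotone H)
    (hG : ∀ g : G, ∃ i, g ∈ H i) (hL : ∀ m : ℕ, ∃ i, m ≤ i ∧ IsLie r (H i))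
    (hinf : ∃ i, Infinite (H i)) : IsLie r G := by
  have h1 : ∀ m : ℕ, ∃ i, m ≤ i ∧ ∃ t : TT r, True ∧ IsE t.D t.tw (H i) := by
    intro m
    obtain ⟨i, hi, hl⟩ := hL m
    obtain ⟨t, ht⟩ := (isLie_iff_TT r (H i)).1 hl
    exact ⟨i, hi, t, trivial, ht⟩
  obtain ⟨t, -, ht⟩ := main_all r (fun _ => True) G H hH hG h1 hinf
  exact (isLie_iff_TT r G).2 ⟨t, ht⟩

/-- One Suzuki-Ree type. -/
theorem main_IsSR {n : ℕ} {C : SLC n} {D : Dg C} {t0 : Fin n → Fin n} (hT : SRT.{u} D t0)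
    {p : ℕ} (hp : D.m = p) (G : Type u) [Group G] (H : ℕ → Subgroup G) (hH : Monotone H)
    (hG : ∀ g : G, ∃ i, g ∈ H i) (hL : ∀ m : ℕ, ∃ i, m ≤ i ∧ IsSR C D.ρ t0 p (H i))
    (hinf : ∃ i, Infinite (H i)) : IsSR C D.ρ t0 p G := by
  subst hp
  obtain ⟨i₀, hi₀⟩ := hinf
  refine isSR_of hT (main_SR hT G H hH hG ?_ ⟨i₀, hi₀⟩)
  intro m
  obtain ⟨i, hi, hl⟩ := hL (max m i₀)
  have hinf : Infinite (H i) := Infinite.of_injective _
    (Subgroup.inclusion_injective (hH ((le_max_right m i₀).trans hi)))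
  exact ⟨i, (le_max_left m i₀).trans hi, isSRad_of hT hl⟩

/-- Pigeonhole principle for a disjunction. -/
theorem often_or {P Q : ℕ → Prop} (h : ∀ m : ℕ, ∃ i, m ≤ i ∧ (P i ∨ Q i)) :
    (∀ m : ℕ, ∃ i, m ≤ i ∧ P i) ∨ ∀ m : ℕ, ∃ i, m ≤ i ∧ Q i := by
  by_contra hc
  rw [not_or] at hc
  obtain ⟨h1, h2⟩ := hc
  push Not at h1 h2
  obtain ⟨a, ha⟩ := h1
  obtain ⟨b, hb⟩ := h2
  obtain ⟨i, hi, hP | hQ⟩ := h (max a b)
  · exact ha i ((le_max_left a b).trans hi) hP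
  · exact hb i ((le_max_right a b).trans hi) hQ

/-- All types. -/
theorem main_LieType (hA : SRT.{u} dA3 tA3) (hD : SRT.{u} dD4 tD4) (hE : SRT.{u} dE6 tE6) (r : ℕ)
    (G : Type u) [Group G] (H : ℕ → Subgroup G) (hH : Monotone H)
    (hG : ∀ g : G, ∃ i, g ∈ H i) (hL : ∀ m : ℕ, ∃ i, m ≤ i ∧ IsLieType r (H i))
    (hinf : ∃ i, Infinite (H i)) : IsLieType r G := by
  have key : ∀ {a : ℕ} {n : ℕ} {C : SLC n} {D : Dg C} {t0 : Fin n → Fin n} {p : ℕ},
      SRT.{u} D t0 → D.m = p → (∀ m : ℕ, ∃ i, m ≤ i ∧ (r = a ∧ IsSR C D.ρ t0 p (H i))) →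
      r = a ∧ IsSR C D.ρ t0 p G := by
    intro a n C D t0 p hT hp h
    obtain ⟨i, -, hr, -⟩ := h 0
    refine ⟨hr, main_IsSR hT hp G H hH hG (fun m => ?_) hinf⟩
    obtain ⟨i, hi, -, hs⟩ := h m
    exact ⟨i, hi, hs⟩
  rcases often_or hL with h | h
  · exact Or.inl (main_Lie r G H hH hG h hinf)
  rcases often_or h with h | h
  · exact Or.inr (Or.inl (key hA dA3_m h))
  rcases often_or h with h | h
  · exact Or.inr (Or.inr (Or.inl (key hD dD4_m h)))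
  · exact Or.inr (Or.inr (Or.inr (key hE dE6_m h)))

end Pool.Agent.H75.UL
end

section
/- module Pool.Agent.H86.UM.ZCt -/
/-!
# Project UM, Suzuki-Ree groups, module ZCt: the centre of the Suzuki-Ree group is trivial

`S = srcSR hS h hJ`, `Ψ` the inclusion `Esr D σ → GL C.Idx k`. `Tgt C S Ψ`: `mem`: `mem_GF_fix`. `U_le`: `x ∈ FU` is
in `fixU`, so in `(C.adS k).U 1`. `T_le`: `x ∈ FT` is diagonal (`T_diag` or `T_le_..` in UL). `nonvan`: for a node `j` let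
`J = mk j`, `i = srep hS J`, `JJ i j` (`srep_spec`); `x ∈ XJ i` with `ξ_i x = 1` (`JHyp.onto`), `x ∈ Esr D σ` (`XJ_le`,
`Esr`). If `j` is in the cycle of `i` then `ξ_j x = ξ_i x = 1` (`xi_sgl` with `θ = 1`, `mem_GF_fix`); if `j` is in the
cycle of `t0 i` then `j = t0 i` (`t0 i` is fixed), `ξ_(t0 i) x = ξ_(t0 i) (σ x) = θ (ξ_i x) = 1` (`sig_xi`).
`occ`: for `J` take `j = srep hS J` and `x` as above. Then `Tgt_center` (H75/UE/E4.lean): an element `z` of the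
centre satisfies `z x = x z` in `GL`, so `z = 1`.
-/

set_option autoImplicit false
open Matrix

namespace Pool.Agent.H86.UM

open Pool.Agent.H75.UL

variable {n : ℕ} {C : SLC n} {D : Dg C} {t0 : Fin n → Fin n}

private theorem ZCt_cycle (hN : D.NA) {k : Type*} [Field k] [Infinite k] (x : GF D k)
    (i j : Fin n) (h : D.ρ.SameCycle i j) :
    C.xi j ((x : GL C.Idx k) : Matrix C.Idx C.Idx k) =
      C.xi i ((x : GL C.Idx k) : Matrix C.Idx C.Idx k) := by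
  have h1 : ∀ i, C.xi (D.ρ i) ((x : GL C.Idx k) : Matrix C.Idx C.Idx k) =
      C.xi i ((x : GL C.Idx k) : Matrix C.Idx C.Idx k) := by
    intro i
    have h2 := xi_sgl D (RingEquiv.refl k) (x : GL C.Idx k) i
    rw [(mem_GF_fix hN _ x.2).1] at h2
    exact h2
  obtain ⟨l, -, hl⟩ := h.exists_pow_eq'
  rw [← hl]
  clear hl
  induction l with
  | zero => rfl
  | succ l ih => rw [pow_succ', Equiv.Perm.mul_apply, h1, ih]

theorem center_SR (hS : Swap D t0) {k : Type*} [Field k] [Infinite k] {θ : k ≃+* k}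
    {σ : GF D k →* GF D k} (h : SRs D t0 θ σ) {N : ℕ} (hJ : JHyp hS σ N) :
    Subgroup.center (Esr D σ) = ⊥ := by
  have key : ∀ J : TOrb hS, ∃ x ∈ (srcSR hS h hJ).X J, ∀ j, JJ D t0 (srep hS J) j →
      C.xi j (((x : GF D k) : GL C.Idx k) : Matrix C.Idx C.Idx k) = 1 := by
    intro J
    obtain ⟨x, hx, h1⟩ := hJ.onto (srep hS J) (srep_spec hS J).1 1
    have hxE : x ∈ Esr D σ :=
      (le_sup_left : FU D k ⊓ Fx σ ≤ Esr D σ) ((XJ_le hS (σ := σ) (srep hS J)).1 hx)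
    refine ⟨⟨x, hxE⟩, hx, ?_⟩
    have hxU := ((XJ_le hS (σ := σ) (srep hS J)).1 hx).1
    intro j hj
    change C.xi j ((x : GL C.Idx k) : Matrix C.Idx C.Idx k) = 1
    rcases hj with hj | hj
    · rw [ZCt_cycle hS.na x _ j hj, h1]
    · have h2 := sig_xi hS h x hxU (srep hS J)
      have h3 : σ x = x := hx.2
      rw [h3, h1, th_one] at h2
      rw [ZCt_cycle hS.na x _ j hj, h2]
  have hT : Tgt C (srcSR hS h hJ) ((GF D k).subtype.comp (Esr D σ).subtype) := by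
    refine ⟨?_, ?_, ?_, ?_, ?_⟩
    · intro x
      exact (mem_GF_fix hS.na _ (x : GF D k).2).2
    · intro u hu
      have hu' : (u : GF D k) ∈ FU D k := hu
      exact hu'.1
    · intro x hx
      exact C.Fil_T _ hx
    · intro j
      obtain ⟨x, hx, h1⟩ := key (Quotient.mk (tset hS) j)
      refine ⟨_, x, hx, ?_⟩
      rw [show C.xi j ((((GF D k).subtype.comp (Esr D σ).subtype) x : GL C.Idx k) :
        Matrix C.Idx C.Idx k) = 1 from h1 j (((srep_spec hS _).2.2 j).1 rfl)]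
      exact one_ne_zero
    · intro J
      obtain ⟨x, hx, h1⟩ := key J
      refine ⟨srep hS J, x, hx, ?_⟩
      rw [show C.xi (srep hS J) ((((GF D k).subtype.comp (Esr D σ).subtype) x : GL C.Idx k) :
        Matrix C.Idx C.Idx k) = 1 from h1 _ (JJ_refl _)]
      exact one_ne_zero
  rw [eq_bot_iff]
  intro z hz
  rw [Subgroup.mem_bot]
  have h1 := Tgt_center C (srcSR hS h hJ) ((GF D k).subtype.comp (Esr D σ).subtype) hT
    ((z : GF D k) : GL C.Idx k) (hT.mem z) (fun x => by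
      have h2 := (Subgroup.mem_center_iff.mp hz x).symm
      exact congrArg (fun y : Esr D σ => ((y : GF D k) : GL C.Idx k)) h2)
  exact Subtype.ext (Subtype.ext h1)

end Pool.Agent.H86.UM
end
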