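import Pool.Agent.H86.AL.M22
import Pool.Agent.H86.AL.M34
import Pool.Agent.H86.AL.M35
import Pool.Agent.H86.AL.M36
import Pool.Agent.H86.AL.M37
import Pool.Agent.H86.AL.M38

/-!
# M39: collected modules

Pool.Agent.H86.UM.ZF1g
Pool.Agent.H86.UM.ZF3
Pool.Agent.H86.UM.ZN
Pool.Agent.H86.UM.ZFin
Pool.Agent.H86.UM.ZH
Pool.Agent.H75.US.S10
-/

section
/- module Pool.Agent.H86.UM.ZF1g -/
/-!
# Project UM, Suzuki-Ree groups, module ZF1g: rank one, type `G₂`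

As `exists_JR_B2` (see ZF1.lean) with `G2_roots`, `G2_inst`, `G2_form`, `G2_fix`, `G2_mul`, `G2_coord`, `G2_rigid`
(`i = 0`, `RJ_D4`, `FU_FR`): `Ψ (G2x θ .. t v w) = G2x θ' .. (F1 t v w) (F2 t v w) (F3 t v w)`. `hT`: `sep` (with
`N = 2`) for `s`: `y` with `χ_0(y) = s ^ 2`, `χ_1(y) = θ (s ^ 2)`, `χ_2(y) = s ^ 2` (`chi_sgl`-like, `y` is in the folded
group), so `χ_βP(y) = s ^ 2 θ (s ^ 2)`, `χ_βQ(y) = s ^ 4 θ (s ^ 2)`, and `y (G2x t v w) y⁻¹` is a product of the same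
form with parameters `s ^ 2 t, .., s ^ 2 θ (s ^ 2) v, s ^ 4 θ (s ^ 2) w, ..` fixed by `σ`, so (`G2_form`) `=
G2x (s ^ 2 t) (s ^ 2 θ (s ^ 2) v) (s ^ 4 θ (s ^ 2) w)`; over `K` the same with `κ' = χ_0(Ψ y)` instead of `s ^ 2`:
`G2x (κ' t) (κ' θ' κ' v) (κ' ^ 2 θ' κ' w)`. The signs of `G2s.σP`, `σQ` are in `G2_form`. `eq`: `Φ (G2x t v w)` is
of this form with first parameters `cc 0 * φ t`, `cc 0 * cc 1 * φ v`, `cc 0 * cc 1 * cc 2 * φ w`, `cc 2 = cc 0`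
(`CC.rho`: `ρ 0 = 2`), `cc 1 = θ' (cc 0)`.
-/

set_option autoImplicit false
open Matrix

namespace Pool.Agent.H86.UM

open Pool.Agent.H75.UL

private theorem ZF1g_chi_prod {n : ℕ} {C : SLC n} {D : Dg C} {k : Type*} [Field k] (x : GF D k)
    (hx : x ∈ FT D k) (γ : C.Root) :
    C.chi ((x : GL C.Idx k) : Matrix C.Idx C.Idx k) γ =
      ∏ j, C.chi ((x : GL C.Idx k) : Matrix C.Idx C.Idx k) (C.simple j) ^ γ.1 j := by
  have hx' : (x : GL C.Idx k) ∈ (C.adS k).T := hx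
  obtain ⟨c, hc⟩ := C.T_diag _ hx'
  have h1 : ∀ δ : C.Root, C.chi ((x : GL C.Idx k) : Matrix C.Idx C.Idx k) δ =
      ((∏ j, c j ^ δ.1 j : kˣ) : k) := by
    intro δ
    unfold SLC.chi
    rw [hc, Matrix.diagonal_apply_eq]
    rfl
  have h2 : ∀ j, C.chi ((x : GL C.Idx k) : Matrix C.Idx C.Idx k) (C.simple j) = (c j : k) := by
    intro j
    rw [h1, Finset.prod_eq_single j]
    · rw [SLC.simple_val, Pi.single_eq_same, zpow_one]
    · intro i _ hi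
      rw [SLC.simple_val, Pi.single_eq_of_ne hi, zpow_zero]
    · intro h
      exact absurd (Finset.mem_univ j) h
  rw [h1, Units.coe_prod]
  refine Finset.prod_congr rfl fun j _ => ?_
  rw [h2, Units.val_zpow_eq_zpow_val]

private theorem ZF1g_chi_ne {n : ℕ} {C : SLC n} {D : Dg C} {k : Type*} [Field k] (x : GF D k)
    (hx : x ∈ FT D k) (γ : C.Root) :
    C.chi ((x : GL C.Idx k) : Matrix C.Idx C.Idx k) γ ≠ 0 := by
  have hx' : (x : GL C.Idx k) ∈ (C.adS k).T := hx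
  exact (C.T_fix _ hx' γ 0).1

private theorem ZF1g_chi_rho {n : ℕ} {C : SLC n} {D : Dg C} {k : Type*} [Field k] [Infinite k]
    (hN : D.NA) (x : GF D k) (j : Fin n) :
    C.chi ((x : GL C.Idx k) : Matrix C.Idx C.Idx k) (C.simple (D.ρ j)) =
      C.chi ((x : GL C.Idx k) : Matrix C.Idx C.Idx k) (C.simple j) := by
  have h1 := chi_sgl D (RingEquiv.refl k) (x : GL C.Idx k) (C.simple j)
  rw [(mem_GF_fix hN _ x.2).1, D.r_simple] at h1
  exact h1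

/-- the elements of the root group of type `G₂` -/
private noncomputable abbrev ZF1g_x {k : Type*} [Field k] (θ : k ≃+* k)
    (βP βQ βR βS : cD4.Root) (t v w : k) : GF dD4 k :=
  G2x θ (yg swap_D4.na (cD4.simple 0)) (yg swap_D4.na (cD4.simple 1)) (yg swap_D4.na βP)
    (yg swap_D4.na βQ) (yg swap_D4.na βR) (yg swap_D4.na βS) t v w

private theorem ZF1g_inj {k : Type*} [Field k] [Infinite k] {θ : k ≃+* k}
    {σ : GF dD4 k →* GF dD4 k} (h : SRs dD4 tD4 θ σ) (βP βQ βR βS : cD4.Root)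
    (hr : G2r βP βQ βR βS) (t v w t' v' w' : k)
    (e : ZF1g_x θ βP βQ βR βS t v w = ZF1g_x θ βP βQ βR βS t' v' w') :
    t = t' ∧ v = v' ∧ w = w' := by
  have h1 := G2_coord (G2_inst h βP βQ βR βS hr).1 _ _ _ _ _ _ _ _ _ _ _ _ e
  exact ⟨h1.1, h1.2.2.1, h1.2.2.2.1⟩

private theorem ZF1g_zero {k : Type*} [Field k] [Infinite k] {θ : k ≃+* k}
    (βP βQ βR βS : cD4.Root) : ZF1g_x θ βP βQ βR βS (0 : k) 0 0 = 1 := by
  simp only [ZF1g_x, G2x, map_zero, neg_zero, mul_zero, sub_zero, yg_zero, mul_one, ne_eq,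
    OfNat.ofNat_ne_zero, not_false_eq_true, zero_pow]

/-- conjugation with the torus -/
private theorem ZF1g_tor {k : Type*} [Field k] [Infinite k] {θ : k ≃+* k}
    {σ : GF dD4 k →* GF dD4 k} (h : SRs dD4 tD4 θ σ) (βP βQ βR βS : cD4.Root)
    (hr : G2r βP βQ βR βS) (y : GF dD4 k) (hy : y ∈ FT dD4 k) (hs : σ y = y) (c : k)
    (hc : cD4.chi ((y : GL cD4.Idx k) : Matrix cD4.Idx cD4.Idx k) (cD4.simple 0) = c)
    (t v w : k) :
    y * ZF1g_x θ βP βQ βR βS t v w * y⁻¹ =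
      ZF1g_x θ βP βQ βR βS (c * t) (c * θ c * v) (c ^ 2 * θ c * w) := by
  have hG := (G2_inst h βP βQ βR βS hr).1
  have c2 : cD4.chi ((y : GL cD4.Idx k) : Matrix cD4.Idx cD4.Idx k) (cD4.simple 2) = c := by
    rw [← hc]
    exact ZF1g_chi_rho swap_D4.na y 0
  have c3 : cD4.chi ((y : GL cD4.Idx k) : Matrix cD4.Idx cD4.Idx k) (cD4.simple 3) = c := by
    rw [← c2]
    exact ZF1g_chi_rho swap_D4.na y 2
  have c1 : cD4.chi ((y : GL cD4.Idx k) : Matrix cD4.Idx cD4.Idx k) (cD4.simple 1) = θ c := by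
    have h1 := sig_chi_simple swap_D4 h y hy 0
    rw [hs, hc] at h1
    have h2 : th dD4 θ (cD4.simple 0) c = θ c := by
      unfold th
      rw [if_neg (by decide)]
    rw [h2] at h1
    exact h1
  have cP : cD4.chi ((y : GL cD4.Idx k) : Matrix cD4.Idx cD4.Idx k) βP = c * θ c := by
    rw [ZF1g_chi_prod y hy, Fin.prod_univ_four, hc, c1, c2, c3, hr.hP]
    change c ^ (1 : ℤ) * θ c ^ (1 : ℤ) * c ^ (0 : ℤ) * c ^ (0 : ℤ) = _
    simp
  have cQ : cD4.chi ((y : GL cD4.Idx k) : Matrix cD4.Idx cD4.Idx k) βQ = c ^ 2 * θ c := by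
    rw [ZF1g_chi_prod y hy, Fin.prod_univ_four, hc, c1, c2, c3, hr.hQ]
    change c ^ (1 : ℤ) * θ c ^ (1 : ℤ) * c ^ (1 : ℤ) * c ^ (0 : ℤ) = _
    simp only [zpow_one, zpow_zero]
    ring
  have hfix : σ (y * ZF1g_x θ βP βQ βR βS t v w * y⁻¹) =
      y * ZF1g_x θ βP βQ βR βS t v w * y⁻¹ := by
    rw [map_mul, map_mul, map_inv, hs, G2_fix hG]
  have hsplit : ∀ a b p q r s : GF dD4 k, y * (a * b * p * q * r * s) * y⁻¹ =
      (y * a * y⁻¹) * (y * b * y⁻¹) * (y * p * y⁻¹) * (y * q * y⁻¹) * (y * r * y⁻¹) *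
        (y * s * y⁻¹) := by
    intro a b p q r s
    group
  have e : y * ZF1g_x θ βP βQ βR βS t v w * y⁻¹ =
      yg swap_D4.na (cD4.simple 0) (c * t) * yg swap_D4.na (cD4.simple 1) (θ c * θ t) *
        yg swap_D4.na βP (c * θ c * v) * yg swap_D4.na βQ (c ^ 2 * θ c * w) *
        yg swap_D4.na βR (cD4.chi ((y : GL cD4.Idx k) : Matrix cD4.Idx cD4.Idx k) βR *
          (-θ v - t ^ 3 * θ t)) *
        yg swap_D4.na βS (cD4.chi ((y : GL cD4.Idx k) : Matrix cD4.Idx cD4.Idx k) βS *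
          (-θ w - t ^ 3 * θ t ^ 2)) := by
    change y * (_ * _ * _ * _ * _ * _) * y⁻¹ = _
    rw [hsplit, yg_T swap_D4.na y hy, yg_T swap_D4.na y hy, yg_T swap_D4.na y hy,
      yg_T swap_D4.na y hy, yg_T swap_D4.na y hy, yg_T swap_D4.na y hy, hc, c1, cP, cQ]
  rw [e] at hfix ⊢
  exact G2_form hG _ _ _ _ _ _ hfix

private theorem ZF1g_mem {k : Type*} [Field k] [Infinite k] {θ : k ≃+* k}
    {σ : GF dD4 k →* GF dD4 k} (h : SRs dD4 tD4 θ σ) (βP βQ βR βS : cD4.Root)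
    (hr : G2r βP βQ βR βS) (t v w : k) :
    ZF1g_x θ βP βQ βR βS t v w ∈ XJ swap_D4.na tD4 σ 0 :=
  ((Z10_G2 h βP βQ βR βS hr).1 _).2 ⟨t, v, w, rfl⟩

variable {k K : Type*} [Field k] [Infinite k] [Field K]
  [Infinite K] {θ : k ≃+* k} {θ' : K ≃+* K} {σ : GF dD4 k →* GF dD4 k}
  {σ' : GF dD4 K →* GF dD4 K}
  (h : SRs dD4 tD4 θ σ) (h' : SRs dD4 tD4 θ' σ') (hJ : JHyp swap_D4 σ 2)
  (Ψ : Esr dD4 σ →* Esr dD4 σ') (hΨ : PinS swap_D4 Ψ)

include h h' hJ hΨ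

theorem exists_JR_G2 :
    ∃ (c : K) (φ : k →+* K), JR swap_D4 θ θ' Ψ 0 c φ ∧ ∀ t, φ (θ t) = θ' (φ t) := by
  obtain ⟨βP, βQ, βR, βS, hr⟩ := G2_roots
  have hG := (G2_inst h βP βQ βR βS hr).1
  have hG' := (G2_inst h' βP βQ βR βS hr).1
  have : CharP k 3 := hG.chr
  have : CharP K 3 := hG'.chr
  have hE : ∀ t v w : k, ZF1g_x θ βP βQ βR βS t v w ∈ Esr dD4 σ := fun t v w =>
    (le_sup_left : _ ≤ Esr dD4 σ) ((XJ_le swap_D4 0).1 (ZF1g_mem h βP βQ βR βS hr t v w))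
  let X : k → k → k → Esr dD4 σ := fun t v w => ⟨ZF1g_x θ βP βQ βR βS t v w, hE t v w⟩
  have hX : ∀ t v w, ((X t v w : Esr dD4 σ) : GF dD4 k) = ZF1g_x θ βP βQ βR βS t v w :=
    fun t v w => rfl
  have hch : ∀ p : k × k × k, ∃ q : K × K × K, ((Ψ (X p.1 p.2.1 p.2.2) : Esr dD4 σ') : GF dD4 K) =
      ZF1g_x θ' βP βQ βR βS q.1 q.2.1 q.2.2 := by
    rintro ⟨t, v, w⟩
    have h1 := hΨ.pos 0 (X t v w) (ZF1g_mem h βP βQ βR βS hr t v w)
    obtain ⟨a, b, c, e⟩ := ((Z10_G2 h' βP βQ βR βS hr).1 _).1 h1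
    exact ⟨(a, b, c), e⟩
  choose q hq using hch
  let F1 : k → k → k → K := fun t v w => (q (t, v, w)).1
  let F2 : k → k → k → K := fun t v w => (q (t, v, w)).2.1
  let F3 : k → k → k → K := fun t v w => (q (t, v, w)).2.2
  have hF : ∀ t v w, ((Ψ (X t v w) : Esr dD4 σ') : GF dD4 K) =
      ZF1g_x θ' βP βQ βR βS (F1 t v w) (F2 t v w) (F3 t v w) := fun t v w => hq (t, v, w)
  have hinj' := fun t v w t' v' w' => ZF1g_inj h' βP βQ βR βS hr t v w t' v' w'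
  have hmul : ∀ t v w t' v' w', X t v w * X t' v' w' =
      X (t + t') (v + v' - t' * θ t) (w + w' - t' * v - t' ^ 2 * θ t) := by
    intro t v w t' v' w'
    apply Subtype.ext
    exact G2_mul hG t v w t' v' w'
  have hM : ∀ t v w t' v' w',
      F1 (t + t') (v + v' - t' * θ t) (w + w' - t' * v - t' ^ 2 * θ t) =
        F1 t v w + F1 t' v' w' ∧
      F2 (t + t') (v + v' - t' * θ t) (w + w' - t' * v - t' ^ 2 * θ t) =
        F2 t v w + F2 t' v' w' - F1 t' v' w' * θ' (F1 t v w) ∧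
      F3 (t + t') (v + v' - t' * θ t) (w + w' - t' * v - t' ^ 2 * θ t) =
        F3 t v w + F3 t' v' w' - F1 t' v' w' * F2 t v w - F1 t' v' w' ^ 2 * θ' (F1 t v w) := by
    intro t v w t' v' w'
    apply hinj'
    rw [← hF, ← hmul, map_mul, Subgroup.coe_mul, hF, hF]
    exact G2_mul hG' _ _ _ _ _ _
  have hinj : ∀ t v w, F1 t v w = 0 → F2 t v w = 0 → F3 t v w = 0 → t = 0 ∧ v = 0 ∧ w = 0 := by
    intro t v w e1 e2 e3
    have e4 := hF t v w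
    rw [e1, e2, e3, ZF1g_zero] at e4
    have e5 : Ψ (X t v w) = 1 := Subtype.ext e4
    have e6 : X t v w = 1 := hΨ.inj (by rw [e5, map_one])
    have e7 : ZF1g_x θ βP βQ βR βS t v w = ZF1g_x θ βP βQ βR βS 0 0 0 := by
      rw [ZF1g_zero, ← hX, e6]
      rfl
    exact ZF1g_inj h βP βQ βR βS hr _ _ _ _ _ _ e7
  have hT : ∀ s : k, s ≠ 0 → ∃ κ' : K, κ' ≠ 0 ∧ ∀ t v w,
      F1 (s ^ 2 * t) (s ^ 2 * θ (s ^ 2) * v) (s ^ 4 * θ (s ^ 2) * w) = κ' * F1 t v w ∧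
      F2 (s ^ 2 * t) (s ^ 2 * θ (s ^ 2) * v) (s ^ 4 * θ (s ^ 2) * w) =
        κ' * θ' κ' * F2 t v w ∧
      F3 (s ^ 2 * t) (s ^ 2 * θ (s ^ 2) * v) (s ^ 4 * θ (s ^ 2) * w) =
        κ' ^ 2 * θ' κ' * F3 t v w := by
    intro s hs
    obtain ⟨y, hy, hc, -⟩ := hJ.sep 0 (by decide) s hs
    obtain ⟨hyT, hyE⟩ := Subgroup.mem_inf.1 hy
    have hys : σ y = y := Esr_le_Fx hyE
    let y' : Esr dD4 σ := ⟨y, hyE⟩
    have hzT : ((Ψ y' : Esr dD4 σ') : GF dD4 K) ∈ FT dD4 K := hΨ.tor y' hyT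
    have hzs : σ' ((Ψ y' : Esr dD4 σ') : GF dD4 K) = ((Ψ y' : Esr dD4 σ') : GF dD4 K) :=
      Esr_le_Fx (Ψ y').2
    refine ⟨_, ZF1g_chi_ne _ hzT (cD4.simple 0), fun t v w => ?_⟩
    apply hinj'
    rw [← hF, ← ZF1g_tor h' βP βQ βR βS hr _ hzT hzs _ rfl, ← hF]
    have e : X (s ^ 2 * t) (s ^ 2 * θ (s ^ 2) * v) (s ^ 4 * θ (s ^ 2) * w) =
        y' * X t v w * y'⁻¹ := by
      apply Subtype.ext
      have e1 := ZF1g_tor h βP βQ βR βS hr y hyT hys _ hc t v w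
      change ZF1g_x θ βP βQ βR βS _ _ _ = y * ZF1g_x θ βP βQ βR βS t v w * y⁻¹
      rw [e1, ← pow_mul]
    rw [e, map_mul, map_mul, map_inv, Subgroup.coe_mul, Subgroup.coe_mul, Subgroup.coe_inv]
  obtain ⟨c, φ, hc0, hφ, hval⟩ := G2_rigid θ θ' hG.hθ hG'.hθ F1 F2 F3
    (fun t v w t' v' w' => (hM t v w t' v' w').1)
    (fun t v w t' v' w' => (hM t v w t' v' w').2.1)
    (fun t v w t' v' w' => (hM t v w t' v' w').2.2) hinj hT
  refine ⟨c, φ, ⟨hc0, ?_, ?_⟩, hφ⟩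
  · intro x hx
    obtain ⟨t, v, w, e⟩ := ((Z10_G2 h βP βQ βR βS hr).1 _).1 hx
    have ex : x = X t v w := Subtype.ext e
    rw [ex, hF, hX, (Z10_G2 h' βP βQ βR βS hr).2 0 (by decide),
      (Z10_G2 h βP βQ βR βS hr).2 0 (by decide), (hval t v w).1]
  · intro _ cc hcc hcc0 x hx
    obtain ⟨Φ, hΦ⟩ := exists_Phi swap_D4.na φ cc hcc.rho
    rw [← hΦ.val]
    congr 1
    obtain ⟨t, v, w, e⟩ := ((Z10_G2 h βP βQ βR βS hr).1 _).1 hx
    have ex : x = X t v w := Subtype.ext e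
    rw [ex, hF, hX, (hval t v w).1, (hval t v w).2.1, (hval t v w).2.2]
    have hfix : σ' (Φ (ZF1g_x θ βP βQ βR βS t v w)) = Φ (ZF1g_x θ βP βQ βR βS t v w) := by
      rw [Phi_sig swap_D4 h h' φ hφ cc hcc Φ hΦ, G2_fix hG]
    have c2 : (cc 2 : K) = c := by
      have h1 := hcc.rho 0
      have h2 : dD4.ρ 0 = 2 := rfl
      rw [h2] at h1
      rw [h1, hcc0]
    have c1 : (cc 1 : K) = θ' c := by
      have h1 := hcc.t0 0 (by decide)
      rw [hcc0] at h1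
      exact h1
    have kP : ccr cc βP = c * θ' c := by
      unfold ccr
      rw [Fin.prod_univ_four, hr.hP]
      change ((cc 0 ^ (1 : ℤ) * cc 1 ^ (1 : ℤ) * cc 2 ^ (0 : ℤ) * cc 3 ^ (0 : ℤ) : Kˣ) : K) = _
      simp [hcc0, c1]
    have kQ : ccr cc βQ = c ^ 2 * θ' c := by
      unfold ccr
      rw [Fin.prod_univ_four, hr.hQ]
      change ((cc 0 ^ (1 : ℤ) * cc 1 ^ (1 : ℤ) * cc 2 ^ (1 : ℤ) * cc 3 ^ (0 : ℤ) : Kˣ) : K) = _
      simp only [zpow_one, zpow_zero, mul_one, Units.val_mul, hcc0, c1, c2]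
      ring
    have e2 : Φ (ZF1g_x θ βP βQ βR βS t v w) =
        yg swap_D4.na (cD4.simple 0) (c * φ t) * yg swap_D4.na (cD4.simple 1) (θ' c * φ (θ t)) *
          yg swap_D4.na βP (c * θ' c * φ v) * yg swap_D4.na βQ (c ^ 2 * θ' c * φ w) *
          yg swap_D4.na βR (ccr cc βR * φ (-θ v - t ^ 3 * θ t)) *
          yg swap_D4.na βS (ccr cc βS * φ (-θ w - t ^ 3 * θ t ^ 2)) := by
      change Φ (_ * _ * _ * _ * _ * _) = _
      simp only [map_mul, hΦ.yg, kP, kQ, ccr_simple, hcc0, c1]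
    rw [e2] at hfix ⊢
    exact (G2_form hG' _ _ _ _ _ _ hfix).symm

end Pool.Agent.H86.UM
end

section
/- module Pool.Agent.H86.UM.ZF3 -/
/-!
# Project UM, Suzuki-Ree groups, module ZF3: `E₆`

`chi_block_E6`: let `V` be spanned by the basis vectors with the indices `inr α₂`, `inr (α₀ + α₂)`. Say `P g` for a
matrix `g` if `g a b = 0` for `b ∈ V`, `a ∉ V` and the `2 × 2` block on `V` has determinant `1`. `P` is multiplicative.
It holds for `x_(± α₀)(t)` (block unitriangular), `x_(± α₅)(t)`, `x_(± α₁)(t)` (block `1`): the columns of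
`X β t = 1 + t E_β + t ^ 2 F_β` at `inr γ` are supported on `γ`, `γ + β`, `γ + 2 β` (`E`, `F` of Base.lean / Defs.lean), and
`α₂ ± α₅`, `α₂ ± α₁`, `α₀ + α₂ ± α₅`, `α₀ + α₂ ± α₁`, `α₂ - α₀`, `2 α₀ + α₂` are not roots (inner products `0`:
`ip β γ = 0` implies that `β + γ`, `β - γ` are not roots in the simply laced case).
The elements of `XJ 0`, `XmJ 0` are products of these (`XJ_orth`, `XmJ_orth` with `i = 0`, `tE6 0 = 1`,
`cE6.A 0 1 = 0`; `yg (± α₀) t = x_(± α₀)(t) x_(± α₅)(± t)`, `yg_long`). The set `{g | g ∈ XJ 0 ∨ g ∈ XmJ 0}` is closed under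
inverses, so each element of the closure is a product of elements of the set (`Subgroup.closure_toSubmonoid` or
`Subgroup.exists_list_of_mem_closure`). For `x ∈ FT` (diagonal, `T_diag`): the determinant of the block is
`χ_(α₂) χ_(α₀+α₂) = χ_2 ^ 2 χ_0` (`chi_prod` or `chi` additive).

`phi_eq_E6`: let `t ≠ 0`, `x` from `hz_spec` (`x ∈ Esr`: it is in the group generated by `XJ 0`, `XmJ 0`), `y = Ψ x`, in
`FT` (`PinS.tor`) and in the group generated by `XJ' 0`, `XmJ' 0` (`PinS.pos, neg`, map of a closure).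
`χ_0(x) = t ^ 2`, `χ_2(x) = t⁻¹` (`ip α₀ α₀ = 2`, `ip α₅ α₀ = 0`, `ip α₁ α₀ = 0`, `ip α₀ α₂ = -1`, others `0`).
For `x₁ ∈ XJ 0` with `ξ_0 x₁ = 1` (`JHyp.onto`): `ξ_0(x x₁ x⁻¹) = χ_0(x) ξ_0(x₁)` (`yg_T`, `xi_yg`, or `xi` of a
conjugate with a diagonal matrix), the same over `K`, so by `JR.coord` `χ_0(y) * c₀ * φ₀ 1 = c₀ * φ₀ (t ^ 2)`:
`χ_0(y) = φ₀ t ^ 2`; `χ_2(y) = φ₂ (t⁻¹)`. `chi_block_E6`: `(φ₂ t)⁻¹ ^ 2 * φ₀ t ^ 2 = 1`, so `φ₀ t ^ 2 = φ₂ t ^ 2`,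
`φ₀ t = φ₂ t` (characteristic `2`).

`pi_E6`: `TOrb` has two elements `mk 0`, `mk 2`. If `π (mk 2) = mk 0` then `XJ 2` is mapped into `XJ' 0`
(take `i = 2`, `i' = 0`), which is commutative (`XJ_orth`, `orth_comm`, `yg_add`), so by injectivity `XJ 2` is commutative.
But `B2x t v * B2x t' v' = B2x (t + t') (v + v' + t' θ t)` (`B2_roots` with `i = 2`, `tE6 2 = 3`, `cE6.A 2 3 = -1`,
`B2_inst`, `B2_mul`, `B2_fix`): `t' θ t = t θ t'` for all `t, t'` gives (`t' = 1`) `θ t = t`, so `t ^ 2 = θ (θ t) = t` for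
all `t`, impossible (`k` infinite). So `π (mk 2) = mk 2`, `π (mk 0) = mk 0`.
-/

set_option autoImplicit false
open Matrix

namespace Pool.Agent.H86.UM

open Pool.Agent.H75.UL

/-- the block condition for a matrix -/
private def ZF3_P {ι : Type*} {K : Type*} [CommRing K] (p q : ι) (g : Matrix ι ι K) : Prop :=
  (∀ a, a ≠ p → a ≠ q → g a p = 0 ∧ g a q = 0) ∧ g p p * g q q - g p q * g q p = 1

private theorem ZF3_P_mul {ι : Type*} [Fintype ι] [DecidableEq ι] {K : Type*} [CommRing K]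
    (p q : ι) (hpq : p ≠ q) (g h : Matrix ι ι K) (hg : ZF3_P p q g) (hh : ZF3_P p q h) :
    ZF3_P p q (g * h) := by
  have e : ∀ a b, (b = p ∨ b = q) → (g * h) a b = g a p * h p b + g a q * h q b := by
    intro a b hb
    rw [Matrix.mul_apply]
    refine Fintype.sum_eq_add p q hpq ?_
    rintro c ⟨h1, h2⟩
    rcases hb with hb | hb
    · rw [hb, (hh.1 c h1 h2).1, mul_zero]
    · rw [hb, (hh.1 c h1 h2).2, mul_zero]
  refine ⟨fun a h1 h2 => ⟨?_, ?_⟩, ?_⟩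
  · rw [e a p (Or.inl rfl), (hg.1 a h1 h2).1, (hg.1 a h1 h2).2]
    ring
  · rw [e a q (Or.inr rfl), (hg.1 a h1 h2).1, (hg.1 a h1 h2).2]
    ring
  · rw [e p p (Or.inl rfl), e q q (Or.inr rfl), e p q (Or.inr rfl), e q p (Or.inl rfl)]
    linear_combination (h p p * h q q - h p q * h q p) * hg.2 + hh.2

private theorem ZF3_P_one {ι : Type*} [Fintype ι] [DecidableEq ι] {K : Type*} [CommRing K]
    (p q : ι) (hpq : p ≠ q) : ZF3_P p q (1 : Matrix ι ι K) := by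
  refine ⟨fun a h1 h2 => ⟨Matrix.one_apply_ne h1, Matrix.one_apply_ne h2⟩, ?_⟩
  rw [Matrix.one_apply_eq, Matrix.one_apply_eq, Matrix.one_apply_ne hpq]
  ring

private theorem ZF3_P_symm {ι : Type*} {K : Type*} [CommRing K] (p q : ι) (g : Matrix ι ι K)
    (hg : ZF3_P p q g) : ZF3_P q p g := by
  refine ⟨fun a h1 h2 => ⟨(hg.1 a h2 h1).2, (hg.1 a h2 h1).1⟩, ?_⟩
  linear_combination hg.2

/-- the subgroup of the matrices with the block condition -/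
private def ZF3_H {ι : Type*} [Fintype ι] [DecidableEq ι] {K : Type*} [CommRing K]
    (p q : ι) (hpq : p ≠ q) : Subgroup (GL ι K) where
  carrier := {g | ZF3_P p q (g : Matrix ι ι K) ∧ ZF3_P p q ((g⁻¹ : GL ι K) : Matrix ι ι K)}
  mul_mem' := by
    rintro g h ⟨h1, h2⟩ ⟨h3, h4⟩
    refine ⟨?_, ?_⟩
    · rw [Units.val_mul]
      exact ZF3_P_mul p q hpq _ _ h1 h3
    · rw [_root_.mul_inv_rev, Units.val_mul]
      exact ZF3_P_mul p q hpq _ _ h4 h2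
  one_mem' := by
    refine ⟨?_, ?_⟩
    · rw [Units.val_one]
      exact ZF3_P_one p q hpq
    · rw [inv_one, Units.val_one]
      exact ZF3_P_one p q hpq
  inv_mem' := by
    rintro g ⟨h1, h2⟩
    exact ⟨h2, by rw [inv_inv]; exact h1⟩

private theorem ZF3_mem_H {ι : Type*} [Fintype ι] [DecidableEq ι] {K : Type*} [CommRing K]
    (p q : ι) (hpq : p ≠ q) (g : GL ι K) : g ∈ ZF3_H p q hpq ↔
      ZF3_P p q (g : Matrix ι ι K) ∧ ZF3_P p q ((g⁻¹ : GL ι K) : Matrix ι ι K) := Iff.rfl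

section
variable {n : ℕ} {C : SLC n} {K : Type*} [Field K]

private theorem ZF3_X_apply (β : C.Root) (u : K) (a b : C.Idx) :
    C.X K β u a b = (1 : Matrix C.Idx C.Idx K) a b + u * (C.E β a b : K) +
      u ^ 2 * (C.F β a b : K) := by
  simp [SLC.X, Matrix.add_apply, Matrix.smul_apply, Matrix.map_apply]

private theorem ZF3_X0 (β γ : C.Root) (u : K) (a : C.Idx) (h : 0 ≤ C.ip β.1 γ.1) :
    C.X K β u a (Sum.inr γ) = (1 : Matrix C.Idx C.Idx K) a (Sum.inr γ) := by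
  have h1 : γ.1 ≠ -β.1 := by
    intro h2
    rw [h2, C.ip_neg_right, β.2] at h
    omega
  have hE : C.E β a (Sum.inr γ) = 0 := by
    rcases a with i | δ
    · simp only [SLC.E]
      rw [if_neg h1]
    · simp only [SLC.E]
      rw [if_neg]
      intro h2
      have := C.ip_add_root β γ δ h2
      omega
  have hF : C.F β a (Sum.inr γ) = 0 := by
    rcases a with i | δ
    · rfl
    · simp only [SLC.F]
      rw [if_neg]
      intro h2
      exact h1 h2.2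
  rw [ZF3_X_apply, hE, hF]
  simp

private theorem ZF3_X1 (β γ δ : C.Root) (u : K) (a : C.Idx) (h : δ.1 = β.1 + γ.1)
    (ha : a ≠ Sum.inr δ) :
    C.X K β u a (Sum.inr γ) = (1 : Matrix C.Idx C.Idx K) a (Sum.inr γ) := by
  have h0 := C.ip_add_root β γ δ h
  have h1 : γ.1 ≠ -β.1 := by
    intro h2
    rw [h2, C.ip_neg_right, β.2] at h0
    omega
  have hE : C.E β a (Sum.inr γ) = 0 := by
    rcases a with i | δ'
    · simp only [SLC.E]
      rw [if_neg h1]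
    · simp only [SLC.E]
      rw [if_neg]
      intro h2
      apply ha
      congr 1
      exact SLC.Root.ext (h2.trans h.symm)
  have hF : C.F β a (Sum.inr γ) = 0 := by
    rcases a with i | δ'
    · rfl
    · simp only [SLC.F]
      rw [if_neg]
      intro h2
      exact h1 h2.2
  rw [ZF3_X_apply, hE, hF]
  simp

private theorem ZF3_PX0 (β γ₁ γ₂ : C.Root) (hne : (Sum.inr γ₁ : C.Idx) ≠ Sum.inr γ₂) (u : K)
    (h1 : 0 ≤ C.ip β.1 γ₁.1) (h2 : 0 ≤ C.ip β.1 γ₂.1) :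
    ZF3_P (Sum.inr γ₁ : C.Idx) (Sum.inr γ₂) (C.X K β u) := by
  refine ⟨fun a ha hb => ?_, ?_⟩
  · rw [ZF3_X0 β γ₁ u a h1, ZF3_X0 β γ₂ u a h2, Matrix.one_apply_ne ha, Matrix.one_apply_ne hb]
    exact ⟨rfl, rfl⟩
  · rw [ZF3_X0 β γ₁ u _ h1, ZF3_X0 β γ₂ u _ h2, ZF3_X0 β γ₁ u _ h1, ZF3_X0 β γ₂ u _ h2,
      Matrix.one_apply_eq, Matrix.one_apply_eq, Matrix.one_apply_ne hne]
    ring

private theorem ZF3_PX1 (β γ₁ γ₂ : C.Root) (hne : (Sum.inr γ₁ : C.Idx) ≠ Sum.inr γ₂) (u : K)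
    (h1 : γ₂.1 = β.1 + γ₁.1) (h2 : 0 ≤ C.ip β.1 γ₂.1) :
    ZF3_P (Sum.inr γ₁ : C.Idx) (Sum.inr γ₂) (C.X K β u) := by
  refine ⟨fun a ha hb => ?_, ?_⟩
  · rw [ZF3_X1 β γ₁ γ₂ u a h1 hb, ZF3_X0 β γ₂ u a h2, Matrix.one_apply_ne ha,
      Matrix.one_apply_ne hb]
    exact ⟨rfl, rfl⟩
  · rw [ZF3_X1 β γ₁ γ₂ u _ h1 hne, ZF3_X0 β γ₂ u _ h2, ZF3_X0 β γ₂ u _ h2,
      Matrix.one_apply_eq, Matrix.one_apply_eq, Matrix.one_apply_ne hne]
    ring

private theorem ZF3_xg (β : C.Root) (p q : C.Idx) (hpq : p ≠ q) (u : K)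
    (h : ∀ u : K, ZF3_P p q (C.X K β u)) : C.xg K β u ∈ ZF3_H p q hpq :=
  ⟨h u, h (-u)⟩

end

section
variable {n : ℕ} {C : SLC n} {D : Dg C} {t0 : Fin n → Fin n} (hS : Swap D t0)
  {k K : Type*} [Field k] [Infinite k] [Field K] [Infinite K] {θ : k ≃+* k} {θ' : K ≃+* K}
  {σ : GF D k →* GF D k} {σ' : GF D K →* GF D K}

private theorem ZF3_FR_conj (hN : D.NA) (g : GF D k) (hg : g ∈ FT D k) (R : Set C.Root)
    (x : GF D k) (hx : x ∈ FR hN k R) : g * x * g⁻¹ ∈ FR hN k R := by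
  have h2 : FR hN k R ≤ (FR hN k R).comap (MulAut.conj g).toMonoidHom := by
    conv_lhs => unfold FR
    rw [Subgroup.closure_le]
    rintro _ ⟨β, hβ, t, rfl⟩
    change g * yg hN β t * g⁻¹ ∈ FR hN k R
    rw [yg_T hN g hg]
    exact Subgroup.subset_closure ⟨β, hβ, _, rfl⟩
  exact h2 hx

private theorem ZF3_xi_conj (hN : D.NA) (g u : GF D k) (hg : g ∈ FT D k) (hu : u ∈ FU D k)
    (j : Fin n) : C.xi j (((g * u * g⁻¹ : GF D k) : GL C.Idx k) : Matrix C.Idx C.Idx k) =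
      C.chi ((g : GL C.Idx k) : Matrix C.Idx C.Idx k) (C.simple j) *
        C.xi j ((u : GL C.Idx k) : Matrix C.Idx C.Idx k) := by
  have hg' : (g : GL C.Idx k) ∈ (C.adS k).T := hg
  have hu' : (u : GL C.Idx k) ∈ (C.adS k).U 1 := Z10_FU_U u hu
  exact (C.xi_conj _ _ (mem_GF_fix hN _ g.2).2 (C.Fil_T _ hg') hu' j).2

private theorem ZF3_chi (i : Fin n) (hon : ∃ x ∈ XJ hS.na t0 σ i,
    C.xi i ((x : GL C.Idx k) : Matrix C.Idx C.Idx k) = 1) (Ψ : Esr D σ →* Esr D σ')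
    (hΨ : PinS hS Ψ) (c : K) (φ : k →+* K) (hR : JR hS θ θ' Ψ i c φ) (X : Esr D σ)
    (hX : (X : GF D k) ∈ FT D k) :
    C.chi ((((Ψ X : Esr D σ') : GF D K) : GL C.Idx K) : Matrix C.Idx C.Idx K) (C.simple i) =
      φ (C.chi (((X : GF D k) : GL C.Idx k) : Matrix C.Idx C.Idx k) (C.simple i)) := by
  obtain ⟨x₁, hx₁, h1⟩ := hon
  have hle : XJ hS.na t0 σ i ≤ Esr D σ := (XJ_le hS i).1.trans le_sup_left
  obtain ⟨X₁, hX₁⟩ : ∃ X₁ : Esr D σ, (X₁ : GF D k) = x₁ := ⟨⟨x₁, hle hx₁⟩, rfl⟩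
  rw [← hX₁] at hx₁ h1
  have hXfix : σ (X : GF D k) = X := Esr_le_Fx X.2
  have hXfix1 : σ (X₁ : GF D k) = X₁ := Esr_le_Fx X₁.2
  have hc : ((X * X₁ * X⁻¹ : Esr D σ) : GF D k) ∈ XJ hS.na t0 σ i := by
    refine ⟨ZF3_FR_conj hS.na _ hX _ _ hx₁.1, ?_⟩
    change σ ((X : GF D k) * X₁ * (X : GF D k)⁻¹) = (X : GF D k) * X₁ * (X : GF D k)⁻¹
    rw [map_mul, map_mul, map_inv, hXfix, hXfix1]
  have e0 := hR.coord _ hx₁
  rw [h1, map_one, mul_one] at e0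
  have e1 := hR.coord _ hc
  have e2 := ZF3_xi_conj hS.na ((Ψ X : Esr D σ') : GF D K) ((Ψ X₁ : Esr D σ') : GF D K)
    (hΨ.tor X hX) ((XJ_le hS i).1 (hΨ.pos i X₁ hx₁)).1 i
  have e3 := ZF3_xi_conj hS.na (X : GF D k) (X₁ : GF D k) hX ((XJ_le hS i).1 hx₁).1 i
  rw [h1, mul_one] at e3
  rw [e0] at e2
  have e4 : (((Ψ (X * X₁ * X⁻¹) : Esr D σ') : GF D K)) =
      ((Ψ X : Esr D σ') : GF D K) * ((Ψ X₁ : Esr D σ') : GF D K) *
        ((Ψ X : Esr D σ') : GF D K)⁻¹ := by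
    rw [map_mul, map_mul, map_inv]
    rfl
  rw [e4, e2] at e1
  have e5 : (((X * X₁ * X⁻¹ : Esr D σ) : GF D k)) =
      (X : GF D k) * (X₁ : GF D k) * (X : GF D k)⁻¹ := rfl
  rw [e5, e3, mul_comm] at e1
  exact mul_left_cancel₀ hR.c_ne e1

end

private theorem ZF3_iter {k : Type*} [Field k] (l : ℕ) (j : Fin 6) (t : k) :
    (dE6.sgl (RingEquiv.refl k))^[l] ((cE6.adS k).x (cE6.simple j) t) =
      (cE6.adS k).x (cE6.simple ((dE6.ρ ^ l) j)) t ∧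
    (dE6.sgl (RingEquiv.refl k))^[l] ((cE6.adS k).x (-(cE6.simple j)) t) =
      (cE6.adS k).x (-(cE6.simple ((dE6.ρ ^ l) j))) t := by
  have hs : IsSig dE6 (RingEquiv.refl k) (cE6.adS k) (dE6.sgl (RingEquiv.refl k)) :=
    isSig_adS dE6 _
  induction l with
  | zero => exact ⟨rfl, rfl⟩
  | succ l ih =>
    rw [Function.iterate_succ_apply', Function.iterate_succ_apply', ih.1, ih.2, hs, hs, dE6.r_neg,
      dE6.sg_neg, dE6.r_simple, dE6.sg_simple, pow_succ', Equiv.Perm.mul_apply]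
    simp

private theorem ZF3_r0 : dE6.r (cE6.simple 0) ≠ cE6.simple 0 := by
  rw [dE6.r_simple]
  intro h
  exact absurd (cE6.simple_injective h) (by decide)

private theorem ZF3_r1 : dE6.r (cE6.simple 1) = cE6.simple 1 := by
  rw [dE6.r_simple]
  rfl

private theorem ZF3_rn0 : dE6.r (-(cE6.simple 0)) ≠ -(cE6.simple 0) := by
  rw [dE6.r_neg]
  intro h
  apply ZF3_r0
  rw [← cE6.neg_neg_root (dE6.r (cE6.simple 0)), h, cE6.neg_neg_root]

private theorem ZF3_rn1 : dE6.r (-(cE6.simple 1)) = -(cE6.simple 1) := by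
  rw [dE6.r_neg, ZF3_r1]

private theorem ZF3_y0 {k : Type*} [Field k] (t : k) :
    ((yg swap_E6.na (cE6.simple 0) t : GF dE6 k) : GL cE6.Idx k) =
    cE6.xg k (cE6.simple 0) t * cE6.xg k (cE6.simple 5) t := by
  rw [yg_val]
  unfold yb mo
  rw [if_neg ZF3_r0, dE6_m]
  have h0 := (ZF3_iter (k := k) 0 0 t).1
  have h1 := (ZF3_iter (k := k) 1 0 t).1
  simp only [List.range_succ, List.range_zero, List.nil_append, List.map_append, List.map_cons,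
    List.map_nil, List.prod_append, List.prod_cons, List.prod_nil, mul_one]
  rw [h0, h1]
  rfl

private theorem ZF3_yn0 {k : Type*} [Field k] (t : k) :
    ((yg swap_E6.na (-(cE6.simple 0)) t : GF dE6 k) : GL cE6.Idx k) =
    cE6.xg k (-(cE6.simple 0)) t * cE6.xg k (-(cE6.simple 5)) t := by
  rw [yg_val]
  unfold yb mo
  rw [if_neg ZF3_rn0, dE6_m]
  have h0 := (ZF3_iter (k := k) 0 0 t).2
  have h1 := (ZF3_iter (k := k) 1 0 t).2
  simp only [List.range_succ, List.range_zero, List.nil_append, List.map_append, List.map_cons,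
    List.map_nil, List.prod_append, List.prod_cons, List.prod_nil, mul_one]
  rw [h0, h1]
  rfl

section
variable {K : Type*} [Field K] [Infinite K] {θ' : K ≃+* K} {σ' : GF dE6 K →* GF dE6 K}
  (h' : SRs dE6 tE6 θ' σ')

include h'

theorem chi_block_E6 (x : GF dE6 K) (hx : x ∈ Subgroup.closure
    {g : GF dE6 K | g ∈ XJ swap_E6.na tE6 σ' 0 ∨ g ∈ XmJ swap_E6.na tE6 σ' 0})
    (hT : x ∈ FT dE6 K) :
    cE6.chi ((x : GL cE6.Idx K) : Matrix cE6.Idx cE6.Idx K) (cE6.simple 2) ^ 2 *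
      cE6.chi ((x : GL cE6.Idx K) : Matrix cE6.Idx cE6.Idx K) (cE6.simple 0) = 1 := by
  have a02 : cE6.A 0 2 = -1 := by decide
  have a00 : cE6.A 0 0 = 2 := by decide
  have a52 : cE6.A 5 2 = 0 := by decide
  have a50 : cE6.A 5 0 = 0 := by decide
  have a12 : cE6.A 1 2 = 0 := by decide
  have a10 : cE6.A 1 0 = 0 := by decide
  obtain ⟨δ, hδ⟩ := cE6.exists_add (cE6.simple 0) (cE6.simple 2) (by
    rw [SLC.simple_val, SLC.simple_val, cE6.ip_single, a02])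
  have i02 : cE6.ip (cE6.simple 0).1 (cE6.simple 2).1 = -1 := by
    rw [SLC.simple_val, SLC.simple_val, cE6.ip_single, a02]
  have i00 : cE6.ip (cE6.simple 0).1 (cE6.simple 0).1 = 2 := by
    rw [SLC.simple_val, cE6.ip_single, a00]
  have i52 : cE6.ip (cE6.simple 5).1 (cE6.simple 2).1 = 0 := by
    rw [SLC.simple_val, SLC.simple_val, cE6.ip_single, a52]
  have i50 : cE6.ip (cE6.simple 5).1 (cE6.simple 0).1 = 0 := by
    rw [SLC.simple_val, SLC.simple_val, cE6.ip_single, a50]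
  have i12 : cE6.ip (cE6.simple 1).1 (cE6.simple 2).1 = 0 := by
    rw [SLC.simple_val, SLC.simple_val, cE6.ip_single, a12]
  have i10 : cE6.ip (cE6.simple 1).1 (cE6.simple 0).1 = 0 := by
    rw [SLC.simple_val, SLC.simple_val, cE6.ip_single, a10]
  have hpq : (Sum.inr (cE6.simple 2) : cE6.Idx) ≠ Sum.inr δ := by
    intro h1
    have h2 := congrArg SLC.Root.val (Sum.inr.inj h1)
    rw [hδ] at h2
    have h3 := congrFun h2 0
    rw [Pi.add_apply, SLC.simple_val, SLC.simple_val, Pi.single_eq_same,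
      Pi.single_eq_of_ne (by decide)] at h3
    omega
  -- the root elements
  have m0 : ∀ u : K, cE6.xg K (cE6.simple 0) u ∈ ZF3_H _ _ hpq := fun u =>
    ZF3_xg _ _ _ hpq u fun u => ZF3_PX1 _ _ _ hpq u hδ (by
      rw [hδ, cE6.ip_add_right, i00, i02]
      norm_num)
  have mn0 : ∀ u : K, cE6.xg K (-(cE6.simple 0)) u ∈ ZF3_H _ _ hpq := fun u =>
    ZF3_xg _ _ _ hpq u fun u => ZF3_P_symm _ _ _ (ZF3_PX1 _ _ _ hpq.symm u (by
      rw [SLC.Root.neg_val, hδ, neg_add_cancel_left]) (by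
      rw [SLC.Root.neg_val, cE6.ip_neg_left, i02]
      norm_num))
  have m5 : ∀ u : K, cE6.xg K (cE6.simple 5) u ∈ ZF3_H _ _ hpq := fun u =>
    ZF3_xg _ _ _ hpq u fun u => ZF3_PX0 _ _ _ hpq u i52.ge (by
      rw [hδ, cE6.ip_add_right, i50, i52]
      norm_num)
  have mn5 : ∀ u : K, cE6.xg K (-(cE6.simple 5)) u ∈ ZF3_H _ _ hpq := fun u =>
    ZF3_xg _ _ _ hpq u fun u => ZF3_PX0 _ _ _ hpq u (by
      rw [SLC.Root.neg_val, cE6.ip_neg_left, i52]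
      norm_num) (by
      rw [SLC.Root.neg_val, cE6.ip_neg_left, hδ, cE6.ip_add_right, i50, i52]
      norm_num)
  have m1 : ∀ u : K, cE6.xg K (cE6.simple 1) u ∈ ZF3_H _ _ hpq := fun u =>
    ZF3_xg _ _ _ hpq u fun u => ZF3_PX0 _ _ _ hpq u i12.ge (by
      rw [hδ, cE6.ip_add_right, i10, i12]
      norm_num)
  have mn1 : ∀ u : K, cE6.xg K (-(cE6.simple 1)) u ∈ ZF3_H _ _ hpq := fun u =>
    ZF3_xg _ _ _ hpq u fun u => ZF3_PX0 _ _ _ hpq u (by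
      rw [SLC.Root.neg_val, cE6.ip_neg_left, i12]
      norm_num) (by
      rw [SLC.Root.neg_val, cE6.ip_neg_left, hδ, cE6.ip_add_right, i10, i12]
      norm_num)
  have hle : Subgroup.closure
      {g : GF dE6 K | g ∈ XJ swap_E6.na tE6 σ' 0 ∨ g ∈ XmJ swap_E6.na tE6 σ' 0} ≤
      (ZF3_H _ _ hpq).comap (GF dE6 K).subtype := by
    rw [Subgroup.closure_le]
    rintro g (hg | hg)
    · obtain ⟨t, rfl⟩ := (XJ_orth swap_E6 h' 0 (by decide) (by decide) _).1 hg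
      change ((yg swap_E6.na (cE6.simple 0) t * yg swap_E6.na (cE6.simple (tE6 0)) (θ' t) :
        GF dE6 K) : GL cE6.Idx K) ∈ ZF3_H _ _ hpq
      rw [Subgroup.coe_mul, ZF3_y0]
      have e1 : ((yg swap_E6.na (cE6.simple (tE6 0)) (θ' t) : GF dE6 K) : GL cE6.Idx K) =
        cE6.xg K (cE6.simple 1) (θ' t) := yg_long swap_E6.na _ ZF3_r1 _
      rw [e1]
      exact mul_mem (mul_mem (m0 t) (m5 t)) (m1 _)
    · obtain ⟨t, rfl⟩ := (XmJ_orth swap_E6 h' 0 (by decide) (by decide) _).1 hg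
      change ((yg swap_E6.na (-(cE6.simple 0)) t * yg swap_E6.na (-(cE6.simple (tE6 0))) (θ' t) :
        GF dE6 K) : GL cE6.Idx K) ∈ ZF3_H _ _ hpq
      rw [Subgroup.coe_mul, ZF3_yn0]
      have e1 : ((yg swap_E6.na (-(cE6.simple (tE6 0))) (θ' t) : GF dE6 K) : GL cE6.Idx K) =
        cE6.xg K (-(cE6.simple 1)) (θ' t) := yg_long swap_E6.na _ ZF3_rn1 _
      rw [e1]
      exact mul_mem (mul_mem (mn0 t) (mn5 t)) (mn1 _)
  have hP : ZF3_P _ _ ((x : GL cE6.Idx K) : Matrix cE6.Idx cE6.Idx K) := (hle hx).1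
  have hT' : (x : GL cE6.Idx K) ∈ (cE6.adS K).T := hT
  obtain ⟨c, hc⟩ := cE6.T_diag _ hT'
  have hchi : ∀ γ : cE6.Root, cE6.chi ((x : GL cE6.Idx K) : Matrix cE6.Idx cE6.Idx K) γ =
      ((∏ j, c j ^ γ.1 j : Kˣ) : K) := by
    intro γ
    unfold SLC.chi
    rw [hc, Matrix.diagonal_apply_eq]
    rfl
  have hadd : cE6.chi ((x : GL cE6.Idx K) : Matrix cE6.Idx cE6.Idx K) δ =
      cE6.chi ((x : GL cE6.Idx K) : Matrix cE6.Idx cE6.Idx K) (cE6.simple 0) *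
        cE6.chi ((x : GL cE6.Idx K) : Matrix cE6.Idx cE6.Idx K) (cE6.simple 2) := by
    rw [hchi, hchi, hchi, ← Units.val_mul, ← Finset.prod_mul_distrib]
    congr 1
    refine Finset.prod_congr rfl fun j _ => ?_
    rw [← _root_.zpow_add, ← Pi.add_apply, ← hδ]
  have h2 := hP.2
  have h3 : ((x : GL cE6.Idx K) : Matrix cE6.Idx cE6.Idx K) (Sum.inr (cE6.simple 2))
      (Sum.inr δ) = 0 := by
    rw [hc]
    exact Matrix.diagonal_apply_ne _ hpq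
  rw [h3, zero_mul, sub_zero] at h2
  change cE6.chi ((x : GL cE6.Idx K) : Matrix cE6.Idx cE6.Idx K) (cE6.simple 2) *
    cE6.chi ((x : GL cE6.Idx K) : Matrix cE6.Idx cE6.Idx K) δ = 1 at h2
  rw [hadd] at h2
  rw [← h2]
  ring

end

variable {k K : Type*} [Field k] [Infinite k] [Field K]
  [Infinite K] {θ : k ≃+* k} {θ' : K ≃+* K} {σ : GF dE6 k →* GF dE6 k}
  {σ' : GF dE6 K →* GF dE6 K}
  (h : SRs dE6 tE6 θ σ) (h' : SRs dE6 tE6 θ' σ')
  (Ψ : Esr dE6 σ →* Esr dE6 σ')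

include h h'

theorem phi_eq_E6 (hΨ : PinS swap_E6 Ψ) (c₀ c₂ : K) (φ₀ φ₂ : k →+* K)
    (h₀ : JR swap_E6 θ θ' Ψ 0 c₀ φ₀) (h₂ : JR swap_E6 θ θ' Ψ 2 c₂ φ₂) : φ₀ = φ₂ := by
  have hch : CharP K 2 := dE6_m ▸ h'.chr
  apply RingHom.ext
  intro t
  by_cases ht : t = 0
  · rw [ht, map_zero, map_zero]
  obtain ⟨x, hx, hxT, hc⟩ := hz_spec h t ht
  have hG : Subgroup.closure {g : GF dE6 k | g ∈ XJ swap_E6.na tE6 σ 0 ∨
      g ∈ XmJ swap_E6.na tE6 σ 0} ≤ G0 swap_E6.na tE6 σ := by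
    unfold G0
    exact Subgroup.closure_mono fun g hg => ⟨0, hg⟩
  obtain ⟨X, hX⟩ : ∃ X : Esr dE6 σ, (X : GF dE6 k) = x :=
    ⟨⟨x, G0_le_Esr swap_E6 (hG hx)⟩, rfl⟩
  have hsub : Subgroup.closure {g : GF dE6 k | g ∈ XJ swap_E6.na tE6 σ 0 ∨
      g ∈ XmJ swap_E6.na tE6 σ 0} ≤ ((Subgroup.closure {g : GF dE6 K |
        g ∈ XJ swap_E6.na tE6 σ' 0 ∨ g ∈ XmJ swap_E6.na tE6 σ' 0}).comap
        ((Esr dE6 σ').subtype.comp Ψ)).map (Esr dE6 σ).subtype := by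
    rw [Subgroup.closure_le]
    intro g hg
    refine ⟨⟨g, G0_le_Esr swap_E6 (hG (Subgroup.subset_closure hg))⟩, ?_, rfl⟩
    change ((Ψ ⟨g, _⟩ : Esr dE6 σ') : GF dE6 K) ∈ Subgroup.closure _
    apply Subgroup.subset_closure
    rcases hg with hg | hg
    · exact Or.inl (hΨ.pos 0 _ hg)
    · exact Or.inr (hΨ.neg 0 _ hg)
  obtain ⟨z, hz1, hz2⟩ := hsub hx
  have hzX : z = X := Subtype.ext (hz2.trans hX.symm)
  rw [hzX] at hz1
  have hXT : (X : GF dE6 k) ∈ FT dE6 k := by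
    rw [hX]
    exact hxT
  have hb := chi_block_E6 h' ((Ψ X : Esr dE6 σ') : GF dE6 K) hz1 (hΨ.tor X hXT)
  have hJ := jhyp_E6 h
  rw [ZF3_chi swap_E6 0 (hJ.onto 0 (by decide) 1) Ψ hΨ c₀ φ₀ h₀ X hXT,
    ZF3_chi swap_E6 2 (hJ.onto 2 (by decide) 1) Ψ hΨ c₂ φ₂ h₂ X hXT, hX, hc, hc] at hb
  have e00 : cE6.A 0 0 = 2 := by decide
  have e50 : cE6.A 5 0 = 0 := by decide
  have e10 : cE6.A 1 0 = 0 := by decide
  have e02 : cE6.A 0 2 = -1 := by decide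
  have e52 : cE6.A 5 2 = 0 := by decide
  have e12 : cE6.A 1 2 = 0 := by decide
  simp only [SLC.simple_val, SLC.ip_single] at hb
  rw [e00, e50, e10, e02, e52, e12, add_zero, add_zero, zpow_zero, mul_one, mul_one,
    _root_.zpow_neg_one, map_inv₀] at hb
  have e1 : φ₀ (t ^ (2 : ℤ)) = φ₀ t ^ 2 := by
    rw [← map_pow]
    congr 1
    exact zpow_natCast t 2
  rw [e1] at hb
  have h2 : φ₂ t ≠ 0 := by simpa using ht
  have e2 : φ₀ t ^ 2 = φ₂ t ^ 2 := by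
    field_simp at hb
    exact hb
  rcases sq_eq_sq_iff_eq_or_eq_neg.1 e2 with h3 | h3
  · exact h3
  · rw [h3, CharTwo.neg_eq]

theorem pi_E6 (hinj : Function.Injective Ψ) (π : Equiv.Perm (TOrb swap_E6))
    (hπ : ∀ i i' : Fin 6, (Quotient.mk (tset swap_E6) i' : TOrb swap_E6) =
        π (Quotient.mk (tset swap_E6) i) →
      ∀ x : Esr dE6 σ, (x : GF dE6 k) ∈ XJ swap_E6.na tE6 σ i →
        ((Ψ x : Esr dE6 σ') : GF dE6 K) ∈ XJ swap_E6.na tE6 σ' i') : π = 1 := by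
  have hch : CharP k 2 := dE6_m ▸ h.chr
  have hcov : ∀ i : Fin 6, JJ dE6 tE6 0 i ∨ JJ dE6 tE6 2 i := by
    unfold JJ
    decide
  have hcl : ∀ J : TOrb swap_E6, J = Quotient.mk (tset swap_E6) 0 ∨
      J = Quotient.mk (tset swap_E6) 2 := by
    intro J
    induction J using Quotient.inductionOn with
    | h i =>
      rcases hcov i with h1 | h1
      · exact Or.inl (Quotient.sound h1).symm
      · exact Or.inr (Quotient.sound h1).symm
  have hcomm : ∀ x y : GF dE6 K, x ∈ XJ swap_E6.na tE6 σ' 0 → y ∈ XJ swap_E6.na tE6 σ' 0 →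
      x * y = y * x := by
    intro x y hx hy
    obtain ⟨t, rfl⟩ := (XJ_orth swap_E6 h' 0 (by decide) (by decide) _).1 hx
    obtain ⟨s, rfl⟩ := (XJ_orth swap_E6 h' 0 (by decide) (by decide) _).1 hy
    have key : ∀ t s u v : K, yg swap_E6.na (cE6.simple 0) t *
        yg swap_E6.na (cE6.simple (tE6 0)) u * (yg swap_E6.na (cE6.simple 0) s *
        yg swap_E6.na (cE6.simple (tE6 0)) v) = yg swap_E6.na (cE6.simple 0) (t + s) *
        yg swap_E6.na (cE6.simple (tE6 0)) (u + v) := by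
      intro t s u v
      have h1 := (orth_comm swap_E6 0 (by decide) (by decide) s u).1
      rw [yg_add, yg_add, mul_assoc, ← mul_assoc (yg swap_E6.na (cE6.simple (tE6 0)) u), ← h1]
      simp only [mul_assoc]
    rw [key, key, add_comm t s, add_comm (θ' t) (θ' s)]
  have hne : π (Quotient.mk (tset swap_E6) 2) ≠ Quotient.mk (tset swap_E6) 0 := by
    intro h1
    obtain ⟨βP, βQ, hr⟩ := B2_roots swap_E6 dE6_m 2 (by decide) (by decide)
    obtain ⟨h2, -⟩ := Z10_B2 swap_E6 h dE6_m 2 (by decide) (by decide) βP βQ hr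
    have hB := (B2_inst swap_E6 h dE6_m 2 (by decide) (by decide) βP βQ hr).1
    have hle : XJ swap_E6.na tE6 σ 2 ≤ Esr dE6 σ := (XJ_le swap_E6 2).1.trans le_sup_left
    have hc2 : ∀ x y : GF dE6 k, x ∈ XJ swap_E6.na tE6 σ 2 → y ∈ XJ swap_E6.na tE6 σ 2 →
        x * y = y * x := by
      intro x y hx hy
      have h3 := hcomm _ _ (hπ 2 0 h1.symm ⟨x, hle hx⟩ hx) (hπ 2 0 h1.symm ⟨y, hle hy⟩ hy)
      have h4 : Ψ ⟨x, hle hx⟩ * Ψ ⟨y, hle hy⟩ = Ψ ⟨y, hle hy⟩ * Ψ ⟨x, hle hx⟩ := Subtype.ext h3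
      rw [← map_mul, ← map_mul] at h4
      exact congrArg Subtype.val (hinj h4)
    obtain ⟨t, ht⟩ := ZB_znz θ (fun t => by rw [h.hθ, dE6_m])
    apply ht
    have h3 := hc2 _ _ ((h2 _).2 ⟨t, 0, rfl⟩) ((h2 _).2 ⟨1, 0, rfl⟩)
    rw [B2_mul hB, B2_mul hB] at h3
    unfold B2x at h3
    have h4 := (B2_coord hB _ _ _ _ _ _ _ _ h3).2.2.1
    rw [map_one, one_mul, mul_one, zero_add, zero_add, zero_add] at h4
    rw [h4, CharTwo.add_self_eq_zero]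
  have e2 : π (Quotient.mk (tset swap_E6) 2) = Quotient.mk (tset swap_E6) 2 :=
    (hcl _).resolve_left hne
  have hne2 : (Quotient.mk (tset swap_E6) 0 : TOrb swap_E6) ≠ Quotient.mk (tset swap_E6) 2 := by
    intro h1
    have h2 : JJ dE6 tE6 0 2 := Quotient.exact h1
    revert h2
    unfold JJ
    decide
  have e0 : π (Quotient.mk (tset swap_E6) 0) = Quotient.mk (tset swap_E6) 0 := by
    refine (hcl _).resolve_right fun h1 => hne2 (π.injective (h1.trans e2.symm))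
  apply Equiv.ext
  intro J
  rw [Equiv.Perm.one_apply]
  rcases hcl J with h1 | h1
  · rw [h1, e0]
  · rw [h1, e2]

end Pool.Agent.H86.UM
end

section
/- module Pool.Agent.H86.UM.ZN -/
/-!
# Project UM, Suzuki-Ree groups, module ZN: words and nonvanishing for the three types

`NVp_..`: `nonvan2` with `dp_A3`, `dp_E6`; `nonvan3`.
`word_..`: `exists_word_sr` with `iad_..` and `JHyp.onto` of `jhyp_..` (`SRs.chr` with `dA3_m` etc.); the length of `l` is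
that of `bs` (`List.Forall₂.length_eq`). Last component: `A₃`: `b₀ = 0`, `bs = [1]`: `JJ 0 i` for all `i` (`ρ 0 = 2`,
`t0 0 = 1`). `D₄`: `b₀ = 1`, `bs = [0, 0]`, `JJ 1 i` for all `i` (`t0 1 = 0`, cycle `0, 2, 3`). `E₆`: `b₀ = 0`,
`bs = [2, 3, 1, 2, 3, 2, 0]`: `JJ 0 i` for `i = 0, 1, 5`, `JJ 2 i` for `i = 2, 3, 4`.
-/

set_option autoImplicit false
open Matrix

namespace Pool.Agent.H86.UM

open Pool.Agent.H75.UL

theorem NVp_A3 (L : Type*) [Field L] [Infinite L] [CharP L 2] : NVp dA3 L 2 := by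
  intro g₀ l hg hlen hne
  exact nonvan2 swap_A3.na dA3_m 2 (fun β hβ => (dp_A3 β hβ).1) (fun β hβ h => (dp_A3 β hβ).2 h)
    g₀ l hg hlen hne

theorem NVp_D4 (L : Type*) [Field L] [Infinite L] [CharP L 3] : NVp dD4 L 3 := by
  intro g₀ l hg hlen hne
  exact nonvan3 g₀ l hg hlen hne

theorem NVp_E6 (L : Type*) [Field L] [Infinite L] [CharP L 2] : NVp dE6 L 8 := by
  intro g₀ l hg hlen hne
  exact nonvan2 swap_E6.na dE6_m 8 (fun β hβ => (dp_E6 β hβ).1) (fun β hβ h => (dp_E6 β hβ).2 h)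
    g₀ l hg hlen hne

variable {k : Type*} [Field k] [Infinite k] {θ : k ≃+* k}

private theorem ZN_word {n : ℕ} {C : SLC n} {D : Dg C} {t0 : Fin n → Fin n} (hS : Swap D t0)
    {σ : GF D k →* GF D k} (h : SRs D t0 θ σ) {N : ℕ} (hJ : JHyp hS σ N)
    (b₀ : Fin n) (bs : List (Fin n))
    (hb : iad (vm C (ind D k b₀)) (bs.map fun b => vm C (ind D k b)) ≠ 0)
    (c : ℕ) (hc : bs.length + 1 = c) (hj : ∀ i, JJ D t0 b₀ i ∨ ∃ b ∈ bs, JJ D t0 b i) :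
    WordS hS σ c := by
  obtain ⟨x₀, l, h1, h2, h3⟩ := exists_word_sr hS h hJ.onto b₀ bs hb
  exact ⟨b₀, bs, x₀, l, h1, h2, h3, by rw [← h2.length_eq]; exact hc, hj⟩

theorem word_A3 {σ : GF dA3 k →* GF dA3 k} (h : SRs dA3 tA3 θ σ) : WordS swap_A3 σ 2 := by
  have : CharP k 2 := by
    have h1 := h.chr
    rwa [dA3_m] at h1
  refine ZN_word swap_A3 h (jhyp_A3 h) 0 [1] (iad_A3 k) 2 rfl ?_
  unfold JJ
  decide

theorem word_D4 {σ : GF dD4 k →* GF dD4 k} (h : SRs dD4 tD4 θ σ) : WordS swap_D4 σ 3 := by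
  have : CharP k 3 := by
    have h1 := h.chr
    rwa [dD4_m] at h1
  refine ZN_word swap_D4 h (jhyp_D4 h) 1 [0, 0] (iad_D4 k) 3 rfl ?_
  unfold JJ
  decide

theorem word_E6 {σ : GF dE6 k →* GF dE6 k} (h : SRs dE6 tE6 θ σ) : WordS swap_E6 σ 8 := by
  have : CharP k 2 := by
    have h1 := h.chr
    rwa [dE6_m] at h1
  refine ZN_word swap_E6 h (jhyp_E6 h) 0 [2, 3, 1, 2, 3, 2, 0] (iad_E6 k) 8 rfl ?_
  unfold JJ
  decide

end Pool.Agent.H86.UM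
end

section
/- module Pool.Agent.H86.UM.ZFin -/
/-!
# Project UM, Suzuki-Ree groups, module ZFin: rigidity for the three types

`rigid_gen`: `sr_exact`, with `π = 1` (`hπ`) the homomorphism `Ψ₁ = cj Ψ g` (`x ↦ g⁻¹ Ψ x g`) is pinned
(`PinS`; `i' = i`), `hJR` and `rig_of_JR` for `Ψ₁`, then `Ψ x = g Ψ₁ x g⁻¹`.
`rigid_A3`: `TOrb` has one element (all nodes in the class of `0`), so `π = 1`; `jhyp_A3`, `word_A3`, `NVp_A3`
(`AlgebraicClosure K` has characteristic `2`: `charP_of_injective_algebraMap`, and is infinite), `JHyp.opp` for `σ'`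
(`jhyp_A3 h'`), `exists_JR_B2` with `i = 0` (`tA3 0 = 1`, `cA3.A 0 1 = -1`), `cc j = c` for `j ≠ 1`, `cc 1 = θ' c`.
`rigid_D4`: the same with `exists_JR_G2`. `rigid_E6`: `pi_E6`, `exists_JR_orth` with `i = 0`, `exists_JR_B2` with
`i = 2`, `phi_eq_E6`; `cc = (c₀, θ' c₀, c₂, θ' c₂, c₂, c₀)`.
-/

set_option autoImplicit false
open Matrix

namespace Pool.Agent.H86.UM

open Pool.Agent.H75.UL

section
variable {n : ℕ} {C : SLC n}

/-- `Ψ` is induced by an embedding of fields compatible with `θ`, up to an inner automorphism and an element of the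
torus which is compatible with `ρ` and `t0`. -/
def RigS (D : Dg C) (t0 : Fin n → Fin n) {k K : Type*} [Field k] [Field K] (θ : k ≃+* k)
    (θ' : K ≃+* K) {σ : GF D k →* GF D k} {σ' : GF D K →* GF D K}
    (Ψ : Esr D σ →* Esr D σ') : Prop :=
  ∃ (φ : k →+* K) (cc : Fin n → Kˣ) (g : Esr D σ'), (∀ t, φ (θ t) = θ' (φ t)) ∧
    (∀ j, cc (D.ρ j) = cc j) ∧ (∀ j, D.ρ j ≠ j → (cc (t0 j) : K) = θ' (cc j)) ∧
    ∀ x : Esr D σ, (((Ψ x : Esr D σ') : GF D K) : GL C.Idx K) =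
      ((g : GF D K) : GL C.Idx K) *
        (tad C cc * C.mp φ ((x : GF D k) : GL C.Idx k) * (tad C cc)⁻¹) *
        ((g : GF D K) : GL C.Idx K)⁻¹

variable {D : Dg C} {t0 : Fin n → Fin n} (hS : Swap D t0) (hn : 0 < n)
  {k K : Type*} [Field k] [Infinite k] [Field K] [Infinite K] {θ : k ≃+* k}
  {θ' : K ≃+* K} {σ : GF D k →* GF D k} {σ' : GF D K →* GF D K}
  (h : SRs D t0 θ σ) (h' : SRs D t0 θ' σ') {N : ℕ} (hJ : JHyp hS σ N)
  {c : ℕ} (hw : WordS hS σ c) (hne' : ∀ i, ∃ y ∈ XmJ hS.na t0 σ' i, y ≠ 1)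
  (hL : NVp D (AlgebraicClosure K) c)

include hn h h' hJ hw hne' hL

theorem rigid_gen
    (hπ : ∀ (Ψ : Esr D σ →* Esr D σ'), Function.Injective Ψ →
      ∀ π : Equiv.Perm (TOrb hS), (∀ i i' : Fin n, (Quotient.mk (tset hS) i' : TOrb hS) =
        π (Quotient.mk (tset hS) i) → ∀ x : Esr D σ, (x : GF D k) ∈ XJ hS.na t0 σ i →
        ((Ψ x : Esr D σ') : GF D K) ∈ XJ hS.na t0 σ' i') → π = 1)
    (hR : ∀ (Ψ : Esr D σ →* Esr D σ'), PinS hS Ψ →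
      ∃ (φ : k →+* K) (cc : Fin n → Kˣ), (∀ t, φ (θ t) = θ' (φ t)) ∧ CC D t0 θ' cc ∧
        ∀ i, ∃ j, JJ D t0 i j ∧ JR hS θ θ' Ψ j (cc j : K) φ)
    (Ψ : Esr D σ →* Esr D σ') (hinj : Function.Injective Ψ) : RigS D t0 θ θ' Ψ := by
  obtain ⟨g, π, h1, h2⟩ := sr_exact hS hn h hJ hw h' hne' hL Ψ hinj
  obtain ⟨Ψ₁, hΨ₁⟩ : ∃ Ψ₁ : Esr D σ →* Esr D σ', ∀ x, Ψ₁ x = g⁻¹ * Ψ x * g :=
    ⟨(MulAut.conj g⁻¹).toMonoidHom.comp Ψ, fun x => by
      change g⁻¹ * Ψ x * g⁻¹⁻¹ = _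
      rw [inv_inv]⟩
  have hinj₁ : Function.Injective Ψ₁ := by
    intro x y hxy
    rw [hΨ₁, hΨ₁] at hxy
    exact hinj (mul_left_cancel (mul_right_cancel hxy))
  have hπ1 : π = 1 := by
    refine hπ Ψ₁ hinj₁ π fun i i' hii x hx => ?_
    rw [hΨ₁]
    exact (h1 i i' hii).1 x hx
  have hmk : ∀ i : Fin n, (Quotient.mk (tset hS) i : TOrb hS) = π (Quotient.mk (tset hS) i) := by
    intro i
    rw [hπ1]
    rfl
  have hpin : PinS hS Ψ₁ := by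
    refine ⟨hinj₁, ?_, ?_, ?_⟩
    · intro i x hx
      rw [hΨ₁]
      exact (h1 i i (hmk i)).1 x hx
    · intro i x hx
      rw [hΨ₁]
      exact (h1 i i (hmk i)).2 x hx
    · intro x hx
      rw [hΨ₁]
      exact h2 x hx
  obtain ⟨φ, cc, hφ, hcc, hJR⟩ := hR Ψ₁ hpin
  refine ⟨φ, cc, g, hφ, hcc.rho, hcc.t0, fun x => ?_⟩
  have e : Ψ x = g * Ψ₁ x * g⁻¹ := by
    rw [hΨ₁]
    group
  rw [← rig_of_JR hS h h' Ψ₁ hpin hJ.opp φ hφ cc hcc hJR x, e]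
  rfl

end

variable {k K : Type*} [Field k] [Infinite k] [Field K] [Infinite K] {θ : k ≃+* k}
  {θ' : K ≃+* K}

private theorem ZFin_one {n : ℕ} {C : SLC n} {D : Dg C} {t0 : Fin n → Fin n} (hS : Swap D t0)
    (i₀ : Fin n) (h : ∀ i, JJ D t0 i i₀) (π : Equiv.Perm (TOrb hS)) : π = 1 := by
  have h1 : ∀ a b : TOrb hS, a = b := by
    intro a b
    induction a using Quotient.inductionOn with
    | _ a =>
      induction b using Quotient.inductionOn with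
      | _ b => exact Quotient.sound (JJ_trans hS _ _ _ (h a) (JJ_symm hS _ _ (h b)))
  exact Equiv.ext fun a => h1 _ _

private theorem ZFin_A3 (i : Fin 3) : JJ dA3 tA3 i 0 := by
  fin_cases i
  · exact Or.inl (Equiv.Perm.SameCycle.refl _ _)
  · exact Or.inr (Equiv.Perm.SameCycle.refl _ _)
  · exact Or.inl ⟨1, rfl⟩

private theorem ZFin_D4 (i : Fin 4) : JJ dD4 tD4 i 0 := by
  fin_cases i
  · exact Or.inl (Equiv.Perm.SameCycle.refl _ _)
  · exact Or.inr (Equiv.Perm.SameCycle.refl _ _)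
  · exact Or.inl ⟨2, rfl⟩
  · exact Or.inl ⟨1, rfl⟩

private theorem ZFin_E6 (i : Fin 6) : JJ dE6 tE6 i 0 ∨ JJ dE6 tE6 i 2 := by
  fin_cases i
  · exact Or.inl (Or.inl (Equiv.Perm.SameCycle.refl _ _))
  · exact Or.inl (Or.inr (Equiv.Perm.SameCycle.refl _ _))
  · exact Or.inr (Or.inl (Equiv.Perm.SameCycle.refl _ _))
  · exact Or.inr (Or.inr (Equiv.Perm.SameCycle.refl _ _))
  · exact Or.inr (Or.inl ⟨1, rfl⟩)
  · exact Or.inl (Or.inl ⟨1, rfl⟩)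

private theorem ZFin_un {K : Type*} [Field K] (θ' : K ≃+* K) (u : Kˣ) :
    ∃ v : Kˣ, (v : K) = θ' (u : K) :=
  ⟨Units.map (θ' : K →* K) u, rfl⟩

private theorem ZFin_cl {K : Type*} [Field K] [Infinite K] (m : ℕ) [CharP K m] :
    CharP (AlgebraicClosure K) m ∧ Infinite (AlgebraicClosure K) :=
  ⟨charP_of_injective_algebraMap (algebraMap K (AlgebraicClosure K)).injective m,
    Infinite.of_injective _ (algebraMap K (AlgebraicClosure K)).injective⟩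

theorem rigid_A3 {σ : GF dA3 k →* GF dA3 k} {σ' : GF dA3 K →* GF dA3 K}
    (h : SRs dA3 tA3 θ σ) (h' : SRs dA3 tA3 θ' σ') (Ψ : Esr dA3 σ →* Esr dA3 σ')
    (hinj : Function.Injective Ψ) : RigS dA3 tA3 θ θ' Ψ := by
  have c2 : CharP K 2 := by
    have h1 := h'.chr
    rwa [dA3_m] at h1
  obtain ⟨c3, c4⟩ := ZFin_cl (K := K) 2
  refine rigid_gen swap_A3 (by norm_num) h h' (jhyp_A3 h) (word_A3 h) (jhyp_A3 h').opp
    (NVp_A3 _) (fun _ _ π _ => ZFin_one swap_A3 0 ZFin_A3 π) ?_ Ψ hinj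
  intro Ψ₁ hΨ₁
  obtain ⟨c, φ, hJR, hφ⟩ := exists_JR_B2 swap_A3 h h' (jhyp_A3 h) Ψ₁ hΨ₁ dA3_m 0 (by decide)
    (by decide)
  obtain ⟨v, hv⟩ := ZFin_un θ' (Units.mk0 c hJR.c_ne)
  refine ⟨φ, ![Units.mk0 c hJR.c_ne, v, Units.mk0 c hJR.c_ne], hφ, ⟨?_, ?_⟩,
    fun i => ⟨0, ZFin_A3 i, hJR⟩⟩
  · intro j
    fin_cases j <;> rfl
  · intro j hj
    fin_cases j
    · exact hv
    · exact absurd rfl hj
    · exact hv

theorem rigid_D4 {σ : GF dD4 k →* GF dD4 k} {σ' : GF dD4 K →* GF dD4 K}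
    (h : SRs dD4 tD4 θ σ) (h' : SRs dD4 tD4 θ' σ') (Ψ : Esr dD4 σ →* Esr dD4 σ')
    (hinj : Function.Injective Ψ) : RigS dD4 tD4 θ θ' Ψ := by
  have c2 : CharP K 3 := by
    have h1 := h'.chr
    rwa [dD4_m] at h1
  obtain ⟨c3, c4⟩ := ZFin_cl (K := K) 3
  refine rigid_gen swap_D4 (by norm_num) h h' (jhyp_D4 h) (word_D4 h) (jhyp_D4 h').opp
    (NVp_D4 _) (fun _ _ π _ => ZFin_one swap_D4 0 ZFin_D4 π) ?_ Ψ hinj
  intro Ψ₁ hΨ₁
  obtain ⟨c, φ, hJR, hφ⟩ := exists_JR_G2 h h' (jhyp_D4 h) Ψ₁ hΨ₁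
  obtain ⟨v, hv⟩ := ZFin_un θ' (Units.mk0 c hJR.c_ne)
  refine ⟨φ, ![Units.mk0 c hJR.c_ne, v, Units.mk0 c hJR.c_ne, Units.mk0 c hJR.c_ne], hφ,
    ⟨?_, ?_⟩, fun i => ⟨0, ZFin_D4 i, hJR⟩⟩
  · intro j
    fin_cases j <;> rfl
  · intro j hj
    fin_cases j
    · exact hv
    · exact absurd rfl hj
    · exact hv
    · exact hv

theorem rigid_E6 {σ : GF dE6 k →* GF dE6 k} {σ' : GF dE6 K →* GF dE6 K}
    (h : SRs dE6 tE6 θ σ) (h' : SRs dE6 tE6 θ' σ') (Ψ : Esr dE6 σ →* Esr dE6 σ')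
    (hinj : Function.Injective Ψ) : RigS dE6 tE6 θ θ' Ψ := by
  have c2 : CharP K 2 := by
    have h1 := h'.chr
    rwa [dE6_m] at h1
  obtain ⟨c3, c4⟩ := ZFin_cl (K := K) 2
  refine rigid_gen swap_E6 (by norm_num) h h' (jhyp_E6 h) (word_E6 h) (jhyp_E6 h').opp
    (NVp_E6 _) (fun Ψ₁ hi π hπ => pi_E6 h h' Ψ₁ hi π hπ) ?_ Ψ hinj
  intro Ψ₁ hΨ₁
  obtain ⟨c₀, φ₀, hJR₀⟩ := exists_JR_orth swap_E6 h h' (jhyp_E6 h) Ψ₁ hΨ₁ 0 (by decide)
    (by decide)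
  obtain ⟨c₂, φ₂, hJR₂, hφ⟩ := exists_JR_B2 swap_E6 h h' (jhyp_E6 h) Ψ₁ hΨ₁ dE6_m 2 (by decide)
    (by decide)
  obtain rfl := phi_eq_E6 h h' Ψ₁ hΨ₁ c₀ c₂ φ₀ φ₂ hJR₀ hJR₂
  obtain ⟨v₀, hv₀⟩ := ZFin_un θ' (Units.mk0 c₀ hJR₀.c_ne)
  obtain ⟨v₂, hv₂⟩ := ZFin_un θ' (Units.mk0 c₂ hJR₂.c_ne)
  refine ⟨φ₀, ![Units.mk0 c₀ hJR₀.c_ne, v₀, Units.mk0 c₂ hJR₂.c_ne, v₂, Units.mk0 c₂ hJR₂.c_ne,
    Units.mk0 c₀ hJR₀.c_ne], hφ, ⟨?_, ?_⟩, fun i => ?_⟩
  · intro j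
    fin_cases j <;> rfl
  · intro j hj
    fin_cases j
    · exact hv₀
    · exact absurd rfl hj
    · exact hv₂
    · exact absurd rfl hj
    · exact hv₂
    · exact hv₀
  · rcases ZFin_E6 i with h1 | h1
    · exact ⟨0, h1, hJR₀⟩
    · exact ⟨2, h1, hJR₂⟩

end Pool.Agent.H86.UM
end

section
/- module Pool.Agent.H86.UM.ZH -/
/-!
# Project UM, Suzuki-Ree groups, module ZH: the input of the project US

`Rig` (H75/US/S0.lean): if the target field `K'` is finite then `Esr D σ'` is finite, but `Esr D σ` is infinite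
(`JHyp.onto` with `XJ_le`: the map `t ↦ x` with `ξ_i x = t` is injective), so there is no injective homomorphism.
Otherwise `rigid_A3` etc. `center`: `center_SR` with `jhyp_A3` etc.
-/

set_option autoImplicit false
open Matrix
universe u

namespace Pool.Agent.H86.UM

open Pool.Agent.H75.UL

private theorem ZH_inf {n : ℕ} {C : SLC n} {D : Dg C} {t0 : Fin n → Fin n} (hS : Swap D t0)
    {k : Type u} [Field k] [Infinite k] {σ : GF D k →* GF D k} {N : ℕ} (hJ : JHyp hS σ N)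
    (i : Fin n) (hi : D.ρ i ≠ i) : Infinite (Esr D σ) := by
  choose f hf1 hf2 using hJ.onto i hi
  have hmem : ∀ t, f t ∈ Esr D σ := fun t =>
    (le_sup_left : FU D k ⊓ Fx σ ≤ Esr D σ) ((XJ_le hS (σ := σ) i).1 (hf1 t))
  refine Infinite.of_injective (fun t : k => (⟨f t, hmem t⟩ : Esr D σ)) ?_
  intro s t hst
  have h1 : f s = f t := congrArg Subtype.val hst
  rw [← hf2 s, ← hf2 t, h1]

private theorem ZH_rig {n : ℕ} {C : SLC n} {D : Dg C} {t0 : Fin n → Fin n} (hS : Swap D t0)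
    (i : Fin n) (hi : D.ρ i ≠ i) (N : ℕ)
    (hJ : ∀ (k : Type u) [Field k] [Infinite k] (θ : k ≃+* k) (σ : GF D k →* GF D k),
      SRs D t0 θ σ → JHyp hS σ N)
    (hR : ∀ (k K : Type u) [Field k] [Infinite k] [Field K] [Infinite K] (θ : k ≃+* k)
      (θ' : K ≃+* K) (σ : GF D k →* GF D k) (σ' : GF D K →* GF D K),
      SRs D t0 θ σ → SRs D t0 θ' σ' → ∀ Ψ : Esr D σ →* Esr D σ', Function.Injective Ψ →
      RigS D t0 θ θ' Ψ) : Rig.{u} D t0 := by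
  intro K K' _ _ _ θ θ' σ σ' h h' Ψ hinj
  rcases finite_or_infinite K' with hfin | hinf
  · exfalso
    have : Infinite (Esr D σ) := ZH_inf hS (hJ K θ σ h) i hi
    have : Finite (Matrix C.Idx C.Idx K') := Pi.finite
    have : Finite (GL C.Idx K') := inferInstanceAs (Finite (Matrix C.Idx C.Idx K')ˣ)
    have : Finite (GF D K') := Subtype.finite
    have : Finite (Esr D σ') := Subtype.finite
    exact not_finite_iff_infinite.mpr ‹Infinite (Esr D σ)› (Finite.of_injective Ψ hinj)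
  · obtain ⟨φ, cc, g, h1, h2, h3, h4⟩ := hR K K' θ θ' σ σ' h h' Ψ hinj
    exact ⟨φ, g, cc, h1, h2, h3, h4⟩

theorem rig_A3 : Rig.{u} dA3 tA3 :=
  ZH_rig swap_A3 0 (by decide) 1 (fun k _ _ θ σ h => jhyp_A3 h)
    (fun k K _ _ _ _ θ θ' σ σ' h h' Ψ hinj => rigid_A3 h h' Ψ hinj)

theorem rig_D4 : Rig.{u} dD4 tD4 :=
  ZH_rig swap_D4 0 (by decide) 2 (fun k _ _ θ σ h => jhyp_D4 h)
    (fun k K _ _ _ _ θ θ' σ σ' h h' Ψ hinj => rigid_D4 h h' Ψ hinj)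

theorem rig_E6 : Rig.{u} dE6 tE6 :=
  ZH_rig swap_E6 0 (by decide) 1 (fun k _ _ θ σ h => jhyp_E6 h)
    (fun k K _ _ _ _ θ θ' σ σ' h h' Ψ hinj => rigid_E6 h h' Ψ hinj)

theorem cen_A3 (K : Type u) [Field K] [Infinite K] (θ : K ≃+* K) (σ : GF dA3 K →* GF dA3 K)
    (h : SRs dA3 tA3 θ σ) : Subgroup.center (Esr dA3 σ) = ⊥ :=
  center_SR swap_A3 h (jhyp_A3 h)

theorem cen_D4 (K : Type u) [Field K] [Infinite K] (θ : K ≃+* K) (σ : GF dD4 K →* GF dD4 K)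
    (h : SRs dD4 tD4 θ σ) : Subgroup.center (Esr dD4 σ) = ⊥ :=
  center_SR swap_D4 h (jhyp_D4 h)

theorem cen_E6 (K : Type u) [Field K] [Infinite K] (θ : K ≃+* K) (σ : GF dE6 K →* GF dE6 K)
    (h : SRs dE6 tE6 θ σ) : Subgroup.center (Esr dE6 σ) = ⊥ :=
  center_SR swap_E6 h (jhyp_E6 h)

end Pool.Agent.H86.UM
end

section
/- module Pool.Agent.H75.US.S10 -/
/-!
# Project US, module S10: the main theorem for all Lie types
-/

set_option autoImplicit false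
open Matrix
universe u
namespace Pool.Agent.H75.UL

open Pool.Agent.H86 Pool.Agent.H86.UM Pool.Agent.H75.LT

theorem srt_A3 : SRT.{u} dA3 tA3 where
  swap := swap_A3
  inj := fun K _ hK x hx h => inj_A3 K (by rw [dA3_m] at hK; exact hK) x hx h
  center := fun K _ _ θ σ h => cen_A3 K θ σ h
  rigid := rig_A3

theorem srt_D4 : SRT.{u} dD4 tD4 where
  swap := swap_D4
  inj := fun K _ hK x hx h => inj_D4 K (by rw [dD4_m] at hK; exact hK) x hx h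
  center := fun K _ _ θ σ h => cen_D4 K θ σ h
  rigid := rig_D4

theorem srt_E6 : SRT.{u} dE6 tE6 where
  swap := swap_E6
  inj := fun K _ hK x hx h => inj_E6 K (by rw [dE6_m] at hK; exact hK) x hx h
  center := fun K _ _ θ σ h => cen_E6 K θ σ h
  rigid := rig_E6

end Pool.Agent.H75.UL
end
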