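import Pool.Agent.H86.AL.Defs

/-!
# Groups of Lie type: untwisted types and Steinberg types (MP_978914_al)

`C : SLC n` is a simply laced Cartan matrix, `GU C K` the universal Chevalley group (Steinberg's
presentation) with root elements `GU.x C K β t`.
-/

set_option autoImplicit false

universe u

namespace Pool.Agent.H75.LT

open Pool.Agent.H75.UL

section
variable {n : ℕ} (C : SLC n) (K : Type u) [Field K]

/-- `U⁺`, generated by the root elements of the positive roots (the roots whose coordinates with
respect to the simple roots have a positive sum). -/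
def Up : Subgroup (GU C K) :=
  Subgroup.closure {g | ∃ (β : C.Root) (t : K), 0 < ∑ i, β.1 i ∧ g = GU.x C K β t}

/-- `U⁻`, generated by the root elements of the negative roots. -/
def Um : Subgroup (GU C K) :=
  Subgroup.closure {g | ∃ (β : C.Root) (t : K), ∑ i, β.1 i < 0 ∧ g = GU.x C K β t}

variable {C K}

/-- `σ` combines the symmetry `ρ` of the Dynkin diagram with the automorphism `θ` of the field: it maps
`x_α(t)` to `x_(ρ α)(θ t)` if `α` or `-α` is a simple root. (These elements generate the group, so `σ` is
determined by `ρ` and `θ`.) -/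
structure IsSigma (ρ : Equiv.Perm (Fin n)) (θ : K ≃+* K) (σ : GU C K →* GU C K) : Prop where
  pos : ∀ i t, σ (GU.x C K (C.simple i) t) = GU.x C K (C.simple (ρ i)) (θ t)
  neg : ∀ i t, σ (GU.x C K (-(C.simple i)) t) = GU.x C K (-(C.simple (ρ i))) (θ t)

/-- The subgroup generated by the `σ`-fixed points of `U⁺` and of `U⁻`. -/
def fixGroup (σ : GU C K →* GU C K) : Subgroup (GU C K) :=
  Subgroup.closure {g | σ g = g ∧ (g ∈ Up C K ∨ g ∈ Um C K)}

end

/-- The symmetry `ρ` of the Dynkin diagram is of order at most `3`. -/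
structure IsSym {n : ℕ} (C : SLC n) (ρ : Equiv.Perm (Fin n)) : Prop where
  map : ∀ i j, C.A (ρ i) (ρ j) = C.A i j
  ord : orderOf ρ ≤ 3

/-- `G` is a group of Lie type `(C, ρ)`: it is isomorphic to the quotient of the group generated by the
`σ`-fixed points of `U⁺` and `U⁻` by a central subgroup, where `σ` combines `ρ` and an automorphism
`θ` of a field `K`, and

* `tw = false`: `θ = 1` and no node is joined to its image under `ρ` (untwisted types: `ρ = 1` gives the
  simply laced types; `ρ ≠ 1` gives the types `B`, `C`, `F₄`, `G₂` as usual by folding `D`, `A`, `E₆`,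
  `D₄`), or
* `tw = true`: `θ` has the same order as `ρ` (Steinberg's twisted types, for `ρ ≠ 1`). -/
def IsType {n : ℕ} (C : SLC n) (ρ : Equiv.Perm (Fin n)) (tw : Bool) (G : Type u) [Group G] : Prop :=
  ∃ (K : Type u) (_ : Field K) (θ : K ≃+* K) (σ : GU C K →* GU C K),
    ((tw = false ∧ θ = RingEquiv.refl K ∧ ∀ i, C.A i (ρ i) ≠ -1) ∨
      (tw = true ∧ orderOf θ = orderOf ρ)) ∧
    IsSigma ρ θ σ ∧
    ∃ f : fixGroup σ →* G, Function.Surjective f ∧ f.ker ≤ Subgroup.center (fixGroup σ)

/-- `G` is a group of Lie type of rank `r`, untwisted or of Steinberg type. The rank is the number of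
orbits of `ρ` on the simple roots. -/
def IsLie (r : ℕ) (G : Type u) [Group G] : Prop :=
  ∃ (n : ℕ) (C : SLC n) (ρ : Equiv.Perm (Fin n)) (tw : Bool), 0 < n ∧ IsSym C ρ ∧
    Nat.card (Quotient (Equiv.Perm.SameCycle.setoid ρ)) = r ∧ IsType C ρ tw G

end Pool.Agent.H75.LT
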